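import Pool.Agent.Work.MP_f0515e_an.Pos.PLIE
import Pool.Agent.Work.MP_f0515e_an.Pos.PLCone
import Pool.Agent.Work.MP_f0515e_an.Pos.PLSt2
import Pool.Agent.Work.MP_f0515e_an.Pos.PLSt3

/-! Shared PL block for dimension three: definitions. All spaces `Rn n` carry the sup norm. -/

open Set Metric Filter Topology Function BEv
open scoped NNReal

noncomputable section
namespace BEp

abbrev Rn (n : ℕ) : Type := Fin n → ℝ

variable {n : ℕ}

/-- Kill the coordinate `i` (the height). -/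
def hz (i : Fin n) (x : Rn n) : Rn n := update x i 0

/-- Gauge of the bipyramid over the horizontal cube. -/
def oN (i : Fin n) (x : Rn n) : ℝ := ‖hz i x‖ + |x i|

/-- The model lens (bipyramid), its two caps, its equator, and the flat disc it spans. -/
def oct (i : Fin n) : Set (Rn n) := {x | oN i x ≤ 1}
def capU (i : Fin n) : Set (Rn n) := {x | oN i x = 1 ∧ 0 ≤ x i}
def capL (i : Fin n) : Set (Rn n) := {x | oN i x = 1 ∧ x i ≤ 0}
def eqt (i : Fin n) : Set (Rn n) := {x | ‖x‖ = 1 ∧ x i = 0}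
def flat (i : Fin n) : Set (Rn n) := {x | ‖x‖ ≤ 1 ∧ x i = 0}

/-- Standard ball `B` whose boundary is cut by `J` into the standard discs `D₁`, `D₂`. -/
def Len (i : Fin n) (B D₁ D₂ J : Set (Rn n)) : Prop :=
  ∃ Φ : Rn n → Rn n, LH Φ ∧ Φ '' oct i = B ∧ Φ '' capU i = D₁ ∧ Φ '' capL i = D₂ ∧ Φ '' eqt i = J

/-- Standard ball `B` with boundary `S`. -/
def Ball (B S : Set (Rn n)) : Prop :=
  ∃ Φ : Rn n → Rn n, LH Φ ∧ Φ '' closedBall 0 1 = B ∧ Φ '' sphere 0 1 = S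

/-- Standard sphere. -/
def Sph (S : Set (Rn n)) : Prop := ∃ B, Ball B S

/-- `Φ` is a PL homeomorphism which is the identity off `W`. -/
def Mv (W : Set (Rn n)) (Φ : Rn n → Rn n) : Prop := LH Φ ∧ ∀ x, x ∉ W → Φ x = x

/-- `S` is moved to a small round sphere by a map supported in `W`. -/
def SSph (W S : Set (Rn n)) : Prop :=
  ∃ (Φ : Rn n → Rn n) (c : Rn n) (r : ℝ), Mv W Φ ∧ 0 < r ∧ closedBall c r ⊆ W ∧ Φ '' S = sphere c r

/-- Ambiently flat disc of codimension one with boundary `J`. -/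
def Dsc (i : Fin n) (D J : Set (Rn n)) : Prop :=
  ∃ Φ : Rn n → Rn n, LH Φ ∧ Φ '' flat i = D ∧ Φ '' eqt i = J

/-- Parametrised PL cell of dimension `k` with boundary `J`. -/
def PCel (k : ℕ) (D J : Set (Rn n)) : Prop :=
  ∃ g : Rn k → Rn n, TP g ∧ InjOn g (closedBall 0 1) ∧ g '' closedBall 0 1 = D ∧
    g '' sphere 0 1 = J

/-- Parametrised PL disc. -/
abbrev PDsc (D J : Set (Rn n)) : Prop := PCel 2 D J

/-- PL arc from `a` to `b`. -/
def Arc (A : Set (Rn n)) (a b : Rn n) : Prop :=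
  ∃ γ : ℝ → Rn n, TP γ ∧ InjOn γ (Icc 0 1) ∧ γ 0 = a ∧ γ 1 = b ∧ γ '' Icc 0 1 = A

/-- PL circle. -/
def Crc (C : Set (Rn n)) : Prop :=
  ∃ γ : ℝ → Rn n, TP γ ∧ (∀ s t, γ s = γ t ↔ ∃ k : ℤ, s - t = k) ∧ range γ = C

/-- Topological arc from `a` to `b`. -/
def TArc {X : Type} [TopologicalSpace X] (A : Set X) (a b : X) : Prop :=
  ∃ γ : ℝ → X, Continuous γ ∧ InjOn γ (Icc 0 1) ∧ γ 0 = a ∧ γ 1 = b ∧ γ '' Icc 0 1 = A

/-- Topological circle. -/
def TCrc {X : Type} [TopologicalSpace X] (C : Set X) : Prop :=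
  ∃ γ : ℝ → X, Continuous γ ∧ (∀ s t, γ s = γ t ↔ ∃ k : ℤ, s - t = k) ∧ range γ = C

/-- Tangent cone and link of `S` at `x`. -/
def tc (S : Set (Rn n)) (x : Rn n) : Set (Rn n) := {v | ∀ᶠ t in 𝓝[>] (0 : ℝ), x + t • v ∈ S}
def lk (S : Set (Rn n)) (x : Rn n) : Set (Rn n) := {v | ‖v‖ = 1 ∧ v ∈ tc S x}

/-- Closed PL surface: all links are circles. -/
structure Surf (S : Set (Rn n)) : Prop where
  poly : Poly S
  pc : PC 2 S
  crc : ∀ x ∈ S, TCrc (lk S x)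

/-- `x` is a regular point of the function `h` on the surface `S`. -/
structure Rg (S : Set (Rn n)) (h : Rn n → ℝ) (x : Rn n) : Prop where
  two : (lk {y ∈ S | h y = h x} x).ncard = 2
  up : x ∈ closure {y ∈ S | h x < h y}
  dn : x ∈ closure {y ∈ S | h y < h x}

/-- Every circle valued map on `S` lifts to the line. -/
def Lift {X : Type} [TopologicalSpace X] (S : Set X) : Prop :=
  ∀ φ : X → UnitAddCircle, ContinuousOn φ S →
    ∃ ψ : X → ℝ, ContinuousOn ψ S ∧ ∀ x ∈ S, (ψ x : UnitAddCircle) = φ x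

/-- The point with horizontal part `y` and height `t`. -/
def mk3 (y : Rn 2) (t : ℝ) : Rn 3 := ![y 0, y 1, t]

/-- Horizontal part. -/
def pj3 (x : Rn 3) : Rn 2 := ![x 0, x 1]

/-- Product of a planar map with the identity. -/
def up (Φ : Rn 2 → Rn 2) (x : Rn 3) : Rn 3 := mk3 (Φ (pj3 x)) (x 2)

/-- The planar set `A` put at height `t`. -/
def lay (A : Set (Rn 2)) (t : ℝ) : Set (Rn 3) := {x | pj3 x ∈ A ∧ x 2 = t}

/-- Level preserving PL homeomorphism. -/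
def LP (Φ : Rn 3 → Rn 3) : Prop := LH Φ ∧ ∀ x, Φ x 2 = x 2

@[simp] theorem mk3_0 (y : Rn 2) (t : ℝ) : mk3 y t 0 = y 0 := rfl
@[simp] theorem mk3_1 (y : Rn 2) (t : ℝ) : mk3 y t 1 = y 1 := rfl
@[simp] theorem mk3_2 (y : Rn 2) (t : ℝ) : mk3 y t 2 = t := rfl
@[simp] theorem pj3_0 (x : Rn 3) : pj3 x 0 = x 0 := rfl
@[simp] theorem pj3_1 (x : Rn 3) : pj3 x 1 = x 1 := rfl

@[simp] theorem pj3_mk3 (y : Rn 2) (t : ℝ) : pj3 (mk3 y t) = y := by
  ext i; fin_cases i <;> rfl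

@[simp] theorem mk3_pj3 (x : Rn 3) : mk3 (pj3 x) (x 2) = x := by
  ext i; fin_cases i <;> rfl

theorem Crc.tcrc {C : Set (Rn n)} (h : Crc C) : TCrc C :=
  let ⟨γ, h1, h2, h3⟩ := h; ⟨γ, h1.continuous, h2, h3⟩

theorem Arc.tarc {A : Set (Rn n)} {a b : Rn n} (h : Arc A a b) : TArc A a b :=
  let ⟨γ, h1, h2⟩ := h; ⟨γ, h1.continuous, h2⟩

end BEp
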