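import Pool.Agent.Work.MP_f0515e_an.D3.PTri

/-! Gluing `TP` maps, left inverses, pieces of polyhedra, patching by the identity.
`tp_glue`: `Poly.glue` for `d = f - g`. `tp_linv`: `Poly.ext` in each coordinate, `TP.pi`.
`adapted_two`: `exists_adapted` twice, `face L' x ⊆ face L x` for `L ⊆ L'`. `poly_sep`: a face through a point
of `A` lies in `X \ Y` and is convex, so it lies in `A`; `closure A` is the finite union of the closed faces
(`finite_faces`, `closure_face`, `cface_sub`), `poly_lower`. `lh_patch`: `Y = closure (closedBall 0 R \ B)`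
meets `B` inside `frontier B`; glue `k` on `B` with the identity on `Y`, then `tp_ite` with `‖x‖ - R`,
`LH.of_supp`. About 200 lines. -/

open Set Metric Filter Topology Function BEv
open scoped NNReal

noncomputable section
namespace BEp

variable {n m : ℕ}

theorem tp_glue {X Y : Set (Rn n)} (hX : Poly X) (hY : Poly Y) {f g : Rn n → Rn m} (hf : TP f)
    (hg : TP g) (h : EqOn f g (X ∩ Y)) : ∃ k, TP k ∧ EqOn k f X ∧ EqOn k g Y := by
  obtain ⟨d, h1, h2, h3⟩ := hX.glue hY (d := fun x => f x - g x) (hf.sub hg)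
    fun x hx => sub_eq_zero.2 (h hx)
  refine ⟨fun x => d x + g x, h1.add hg, fun x hx => ?_, fun x hx => ?_⟩
  · show d x + g x = f x
    rw [h2 hx, sub_add_cancel]
  · show d x + g x = g x
    rw [h3 x hx, zero_add]

theorem tp_glue_fin {ι : Type} {S : Set ι} (hS : S.Finite) {X : ι → Set (Rn n)}
    (hX : ∀ i ∈ S, Poly (X i)) {f : ι → Rn n → Rn m} (hf : ∀ i ∈ S, TP (f i))
    (h : ∀ i ∈ S, ∀ j ∈ S, EqOn (f i) (f j) (X i ∩ X j)) :
    ∃ k, TP k ∧ ∀ i ∈ S, EqOn k (f i) (X i) := by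
  induction S, hS using Set.Finite.induction_on with
  | empty => exact ⟨fun _ => 0, TP.const 0, fun i hi => hi.elim⟩
  | @insert a S _ hS ih =>
    obtain ⟨k, hk, hk'⟩ := ih (fun i hi => hX i (mem_insert_of_mem _ hi))
      (fun i hi => hf i (mem_insert_of_mem _ hi))
      fun i hi j hj => h i (mem_insert_of_mem _ hi) j (mem_insert_of_mem _ hj)
    have hU : Poly (⋃ i ∈ S, X i) := Poly.biUnion hS fun i hi => hX i (mem_insert_of_mem _ hi)
    obtain ⟨k', h1, h2, h3⟩ := tp_glue (hX a (mem_insert _ _)) hU (hf a (mem_insert _ _)) hk (by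
      rintro x ⟨hx, hx'⟩
      simp only [mem_iUnion] at hx'
      obtain ⟨i, hi, hxi⟩ := hx'
      rw [hk' i hi hxi]
      exact h a (mem_insert _ _) i (mem_insert_of_mem _ hi) ⟨hx, hxi⟩)
    refine ⟨k', h1, fun i hi => ?_⟩
    rcases hi with rfl | hi
    · exact h2
    · exact fun x hx => (h3 (mem_biUnion hi hx)).trans (hk' i hi hx)

theorem tp_linv {X : Set (Rn n)} (hX : Poly X) {g : Rn n → Rn m} (hg : TP g) (hi : InjOn g X) :
    ∃ k : Rn m → Rn n, TP k ∧ ∀ x ∈ X, k (g x) = x := by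
  choose l hl hl' using fun i : Fin n => hX.ext hg hi (lam := fun x => x i) (TP.id'.apply i)
  exact ⟨fun y i => l i y, TP.pi hl, fun x hx => funext fun i => hl' i x hx⟩

theorem face_anti {L L' : Set ((Rn n →L[ℝ] ℝ) × ℝ)} (h : L ⊆ L') (x : Rn n) :
    face L' x ⊆ face L x := by
  exact fun y hy A hA => hy A (h hA)

theorem adapted_two {L : Set ((Rn n →L[ℝ] ℝ) × ℝ)} (hL : L.Finite) {X Y : Set (Rn n)}
    (hX : Poly X) (hY : Poly Y) : ∃ L' : Set ((Rn n →L[ℝ] ℝ) × ℝ), L'.Finite ∧ L ⊆ L' ∧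
      (∀ x ∈ X, face L' x ⊆ X) ∧ ∀ x ∈ Y, face L' x ⊆ Y := by
  obtain ⟨L₁, h1, h2, h3⟩ := exists_adapted hL hX
  obtain ⟨L₂, h4, h5, h6⟩ := exists_adapted h1 hY
  exact ⟨L₂, h4, h2.trans h5, fun x hx => (face_anti h5 x).trans (h3 x hx), h6⟩

/-- An arrangement on whose closed faces a given `TP` map is affine (add the faces of the cube of
radius `R + 1` and the coordinate differences of the affine pieces; a convex face is connected, and on
it two pieces agree everywhere or nowhere). -/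
theorem adapted_tp {L : Set ((Rn n →L[ℝ] ℝ) × ℝ)} (hL : L.Finite) {h : Rn n → Rn m} (hh : TP h)
    (R : ℝ) : ∃ L' : Set ((Rn n →L[ℝ] ℝ) × ℝ), L'.Finite ∧ L ⊆ L' ∧ ∀ x, ‖x‖ ≤ R →
      ∃ A : (Rn n →L[ℝ] Rn m) × Rn m, ∀ y ∈ cface L' x, h y = A.1 y + A.2 := by
  obtain ⟨L₁, h1, h2, h3⟩ := exists_adapted hL (Poly.closedBall (0 : Rn n) R)
  obtain ⟨S, hS, hp⟩ := hh.pa R
  let df : ((Rn n →L[ℝ] Rn m) × Rn m) × ((Rn n →L[ℝ] Rn m) × Rn m) × Fin m →
      (Rn n →L[ℝ] ℝ) × ℝ := fun q =>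
    ((ContinuousLinearMap.proj (R := ℝ) (φ := fun _ : Fin m => ℝ) q.2.2).comp (q.1.1 - q.2.1.1),
      q.1.2 q.2.2 - q.2.1.2 q.2.2)
  have hdf : ∀ A B j y, ev (df (A, B, j)) y = (A.1 y + A.2) j - (B.1 y + B.2) j := by
    intro A B j y
    simp only [df, ev, ContinuousLinearMap.comp_apply, ContinuousLinearMap.proj_apply, sub_apply,
      Pi.sub_apply, Pi.add_apply]
    ring
  refine ⟨L₁ ∪ df '' (S ×ˢ S ×ˢ univ), h1.union ((hS.prod (hS.prod finite_univ)).image _),
    h2.trans subset_union_left, fun x hx => ?_⟩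
  set L' := L₁ ∪ df '' (S ×ˢ S ×ˢ univ) with hL'
  have hx' : x ∈ closedBall (0 : Rn n) R := mem_closedBall_zero_iff.2 hx
  obtain ⟨A, hA, hAx⟩ := hp x hx'
  have key : ∀ B ∈ S, ∀ y ∈ face L' x, (A.1 y + A.2 = B.1 y + B.2 ↔ A.1 x + A.2 = B.1 x + B.2) := by
    intro B hB y hy
    rw [funext_iff, funext_iff]
    refine forall_congr' fun j => ?_
    have := St1_zero (hy (df (A, B, j)) (Or.inr ⟨(A, B, j), ⟨hA, hB, mem_univ _⟩, rfl⟩))
    rwa [hdf, hdf, sub_eq_zero, sub_eq_zero] at this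
  have hc : ∀ B : (Rn n →L[ℝ] Rn m) × Rn m, IsClosed {y | h y = B.1 y + B.2} := fun B =>
    isClosed_eq hh.continuous (B.1.continuous.add continuous_const)
  have hv : IsClosed (⋃ B ∈ {B ∈ S | A.1 x + A.2 ≠ B.1 x + B.2}, {y | h y = B.1 y + B.2}) :=
    (hS.subset (sep_subset _ _)).isClosed_biUnion fun B _ => hc B
  have hdisj : face L' x ∩ ({y | h y = A.1 y + A.2} ∩
      ⋃ B ∈ {B ∈ S | A.1 x + A.2 ≠ B.1 x + B.2}, {y | h y = B.1 y + B.2}) = ∅ := by
    refine eq_empty_of_forall_notMem ?_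
    rintro y ⟨hy, h0, h4⟩
    simp only [mem_iUnion] at h4
    obtain ⟨B, ⟨hB, hBx⟩, h4⟩ := h4
    exact hBx ((key B hB y hy).1 ((show h y = _ from h0).symm.trans h4))
  have hcov : face L' x ⊆ {y | h y = A.1 y + A.2} ∪
      ⋃ B ∈ {B ∈ S | A.1 x + A.2 ≠ B.1 x + B.2}, {y | h y = B.1 y + B.2} := by
    intro y hy
    obtain ⟨B, hB, e⟩ := hp y (h3 x hx' (face_anti subset_union_left x hy))
    by_cases hBx : A.1 x + A.2 = B.1 x + B.2
    · exact Or.inl (e.trans ((key B hB y hy).2 hBx).symm)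
    · right
      simp only [mem_iUnion]
      exact ⟨B, ⟨hB, hBx⟩, e⟩
  refine ⟨A, ?_⟩
  rcases isPreconnected_iff_subset_of_disjoint_closed.1 (convex_face L' x).isPreconnected _ _
    (hc A) hv hcov hdisj with h5 | h5
  · intro y hy
    rw [← closure_face] at hy
    exact closure_minimal h5 (hc A) hy
  · have : x ∈ (∅ : Set (Rn n)) := hdisj ▸ ⟨mem_face_self L' x, hAx, h5 (mem_face_self L' x)⟩
    exact this.elim

/-- The closure of a union of components of `X \ Y` is a polyhedron. -/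
theorem poly_sep {X Y A : Set (Rn n)} (hX : Poly X) (hY : Poly Y) (hA : A ⊆ X \ Y)
    (h : ∀ T ⊆ X \ Y, IsPreconnected T → (T ∩ A).Nonempty → T ⊆ A) : Poly (closure A) := by
  obtain ⟨L, hL, -, h1, h2⟩ := adapted_two finite_empty hX hY
  have hf : ∀ x ∈ A, face L x ⊆ A := by
    intro x hx
    refine h _ (fun y hy => ⟨h1 x (hA hx).1 hy, fun hyY => (hA hx).2 ?_⟩)
      (convex_face L x).isPreconnected ⟨x, mem_face_self L x, hx⟩
    have := h2 y hyY
    rw [face_eq hy] at this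
    exact this (mem_face_self L x)
  have hfin : (face L '' A).Finite := (finite_faces hL).subset (image_subset_range _ _)
  have e : A = ⋃ F ∈ face L '' A, F := by
    ext y
    simp only [mem_iUnion]
    constructor
    · intro hy
      exact ⟨face L y, mem_image_of_mem _ hy, mem_face_self L y⟩
    · rintro ⟨F, ⟨x, hx, rfl⟩, hy⟩
      exact hf x hx hy
  rw [e, hfin.closure_biUnion]
  refine Poly.biUnion hfin ?_
  rintro F ⟨x, hx, rfl⟩
  rw [closure_face]
  exact poly_cface hL (hX.1.isBounded.subset (h1 x (hA hx).1))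

theorem poly_cl_diff {X Y : Set (Rn n)} (hX : Poly X) (hY : Poly Y) : Poly (closure (X \ Y)) := by
  exact poly_sep hX hY Subset.rfl fun T hT _ _ => hT

theorem poly_piece {X Y D₁ D₂ : Set (Rn n)} (hX : Poly X) (hY : Poly Y) (h1 : IsClosed D₁)
    (h2 : IsClosed D₂) (hu : D₁ ∪ D₂ = X) (hi : D₁ ∩ D₂ = Y) : Poly D₁ := by
  have hA : Poly (closure (D₁ \ Y)) := by
    refine poly_sep hX hY (fun x hx => ⟨hu ▸ Or.inl hx.1, hx.2⟩) fun T hT hc hn => ?_
    have hd : T ∩ (D₁ ∩ D₂) = ∅ := by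
      rw [hi]
      exact eq_empty_of_forall_notMem fun x hx => (hT hx.1).2 hx.2
    rcases isPreconnected_iff_subset_of_disjoint_closed.1 hc _ _ h1 h2
      (fun x hx => hu.symm ▸ (hT hx).1) hd with h | h
    · exact fun x hx => ⟨h hx, (hT hx).2⟩
    · obtain ⟨x, hx, hx'⟩ := hn
      exact (hx'.2 (hi ▸ ⟨hx'.1, h hx⟩)).elim
  have e : D₁ = closure (D₁ \ Y) ∪ Y := by
    refine Subset.antisymm (fun x hx => ?_) (union_subset (closure_minimal sdiff_subset h1) ?_)
    · by_cases hxY : x ∈ Y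
      · exact Or.inr hxY
      · exact Or.inl (subset_closure ⟨hx, hxY⟩)
    · rw [← hi]
      exact inter_subset_left
  rw [e]
  exact hA.union hY

theorem poly_eq {X : Set (Rn n)} (hX : Poly X) {D : Rn n → ℝ} (hD : TP D) (t : ℝ) :
    Poly {x ∈ X | D x = t} := by
  have := poly_le hX (hD.sub (TP.const t)).abs
  simpa only [abs_nonpos_iff, sub_eq_zero] using this

theorem poly_sphere (c : Rn n) (r : ℝ) : Poly (sphere c r) := by
  have := poly_eq (Poly.closedBall c r) (TP.id'.sub (TP.const c)).norm_pi r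
  convert this using 1
  ext x
  simp only [mem_sphere, mem_closedBall, dist_eq_norm, mem_ofPred_eq]
  exact ⟨fun h => ⟨h.le, h⟩, fun h => h.2⟩

theorem PGl_real {γ : ℝ → Rn n} (h : TP γ) (a b : ℝ) : Poly (γ '' Icc a b) := by
  by_cases hab : a ≤ b
  · have := (Poly.closedBall (fun _ : Fin 1 => (a + b) / 2) ((b - a) / 2)).image
      (h.comp (TP.id'.apply (0 : Fin 1)))
    convert this using 1
    ext z
    constructor
    · rintro ⟨t, ht, rfl⟩
      refine ⟨fun _ => t, ?_, rfl⟩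
      rw [mem_closedBall, dist_pi_le_iff (by linarith)]
      intro i
      rw [Real.dist_eq, abs_le]
      constructor <;> linarith [ht.1, ht.2]
    · rintro ⟨y, hy, rfl⟩
      have := (dist_le_pi_dist y (fun _ => (a + b) / 2) 0).trans hy
      rw [Real.dist_eq, abs_le] at this
      exact ⟨y 0, ⟨by linarith [this.1], by linarith [this.2]⟩, rfl⟩
  · rw [Icc_eq_empty hab, image_empty]
    exact Poly.empty



theorem poly_segment (a b : Rn n) : Poly (segment ℝ a b) := by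
  rw [segment_eq_image']
  exact PGl_real ((TP.const a).add (TP.id'.smul_const (b - a))) 0 1

theorem poly_real {γ : ℝ → Rn n} (h : TP γ) (a b : ℝ) : Poly (γ '' Icc a b) := by
  exact PGl_real h a b

theorem lh_patch {B : Set (Rn n)} (hB : Poly B) {k : Rn n → Rn n} (hk : TP k) (hb : BijOn k B B)
    (h : ∀ x ∈ frontier B, k x = x) : ∃ Φ, Mv (interior B) Φ ∧ EqOn Φ k B := by
  obtain ⟨R, hR⟩ := hB.1.isBounded.subset_ball (0 : Rn n)
  have hY : Poly (closure (closedBall (0 : Rn n) R \ B)) := poly_cl_diff (Poly.closedBall 0 R) hB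
  have hfr : ∀ x ∈ B, x ∉ interior B → k x = x := fun x hx hx' =>
    h x ⟨subset_closure hx, hx'⟩
  obtain ⟨k', h1, h2, h3⟩ := tp_glue hB hY hk TP.id' (by
    rintro x ⟨hx, hx'⟩
    refine hfr x hx ?_
    have := closure_mono (sdiff_subset_compl _ _) hx'
    rwa [closure_compl] at this)
  have hout : ∀ x, ‖x‖ ≤ R → x ∉ B → k' x = x := fun x hx hx' =>
    h3 (subset_closure ⟨mem_closedBall_zero_iff.2 hx, hx'⟩)
  have hbig : ∀ x, R ≤ ‖x‖ → x ∉ B := fun x hx hx' =>
    absurd (mem_ball_zero_iff.1 (hR hx')) (not_lt.2 hx)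
  let Φ : Rn n → Rn n := fun x => if ‖x‖ - R ≤ 0 then k' x else x
  have hΦ : TP Φ := tp_ite (s := fun x => ‖x‖ - R) h1 TP.id' (by fun_prop) fun x hx =>
    hout x (sub_eq_zero.1 hx).le (hbig x (sub_eq_zero.1 hx).ge)
  have e1 : ∀ x ∈ B, Φ x = k x := fun x hx => by
    have : ‖x‖ - R ≤ 0 := sub_nonpos.2 (mem_ball_zero_iff.1 (hR hx)).le
    simp only [Φ, if_pos this]
    exact h2 hx
  have e2 : ∀ x, x ∉ B → Φ x = x := fun x hx => by
    by_cases hx' : ‖x‖ - R ≤ 0
    · simp only [Φ, if_pos hx']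
      exact hout x (sub_nonpos.1 hx') hx
    · simp only [Φ, if_neg hx']
  have hbij : Bijective Φ := by
    constructor
    · intro x y hxy
      by_cases hx : x ∈ B <;> by_cases hy : y ∈ B
      · rw [e1 x hx, e1 y hy] at hxy
        exact hb.injOn hx hy hxy
      · rw [e1 x hx, e2 y hy] at hxy
        exact (hy (hxy ▸ hb.mapsTo hx)).elim
      · rw [e2 x hx, e1 y hy] at hxy
        exact (hx (hxy ▸ hb.mapsTo hy)).elim
      · rwa [e2 x hx, e2 y hy] at hxy
    · intro y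
      by_cases hy : y ∈ B
      · obtain ⟨x, hx, rfl⟩ := hb.surjOn hy
        exact ⟨x, e1 x hx⟩
      · exact ⟨y, e2 y hy⟩
  refine ⟨Φ, ⟨LH.of_supp hΦ hbij (R := R) fun x hx => e2 x (hbig x hx), fun x hx => ?_⟩, e1⟩
  by_cases hx' : x ∈ B
  · rw [e1 x hx', hfr x hx' hx]
  · exact e2 x hx'

end BEp
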