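import Pool.Agent.Work.MP_f0515e_an.D3.P2c

/-! Circles on standard spheres, local flatness of surfaces.
`sph_chart`: in the model, the complement of `K` in the sphere is relatively open, so it contains a point `p` with exactly one
coordinate of absolute value one; after a permutation and a reflection of coordinates `p` lies in the open top face; a small
closed square `Q` round `p` misses `K`; `Len.equiv` between `(len_small 2 ..).symm` and `len_cube 2` sends the complement of `Q` into the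
open top face. `sph_len`: `J ≠ S` (a circle has `PC 1`, or `tcrc_no_triod`), `sph_chart`, `J = lay J₀ 1`, `crc_lay`, `s2` with
`W = ball 0 1`, `lp_up` preserves the cube, `len_small`. `len3`: `len_uniq`. `sph_sum`: `len3` twice, `thm11_len`.
`Sph.surf`: every point `x` lies in `D₂ \ J` for a lens structure (`len_small` with a square missing `x`); by `Len.equiv` with
`len_half` the germ is an image of the germ of `flat 2` at an inner point, whose link is `eqt 2`; `lk_image`, `lk_congr`.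
`surf_loc`: `C = lk S x` is a circle in the unit sphere (`Surf.crc_lk`), `sph_len`, the inverse of the lens map is a bijection from
the sphere onto `{oN 2 = 1}` sending `C` to `eqt 2`, `fill_cone`. About 300 lines. -/

open Set Metric Filter Topology Function BEv
open scoped NNReal

noncomputable section
namespace BEp

variable {n m : ℕ}

variable {B S K J D D₁ D₂ : Set (Rn 3)}

theorem PL6_len (h : Ball B S) : ∃ E₁ E₂ E, Len 2 B E₁ E₂ E ∧ E₁ ∪ E₂ = S := by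
  have hf := h.frontier_eq
  obtain ⟨Φ, hΦ, rfl, -⟩ := h
  have hL := (len_cube 2).image hΦ
  exact ⟨_, _, _, hL, hL.ball.frontier_eq.symm.trans hf⟩

theorem PL6_core (hK : IsClosed K) (hs : K ⊆ sphere 0 1) {p : Rn 3} (h1 : p 2 = 1)
    (h2 : ‖hz 2 p‖ < 1) (hp : p ∉ K) :
    ∃ Θ, LH Θ ∧ Θ '' closedBall 0 1 = closedBall 0 1 ∧ Θ '' K ⊆ lay (ball 0 1) 1 := by
  obtain ⟨ε, hε, hb⟩ := Metric.isOpen_iff.1 hK.isOpen_compl p hp
  obtain ⟨r, hr, r1, r2⟩ : ∃ r > 0, r < ε ∧ r < 1 - ‖hz 2 p‖ :=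
    ⟨min ε (1 - ‖hz 2 p‖) / 2, half_pos (lt_min hε (by linarith)),
      (half_lt_self (lt_min hε (by linarith))).trans_le (min_le_left _ _),
      (half_lt_self (lt_min hε (by linarith))).trans_le (min_le_right _ _)⟩
  have hc : ∀ j, j ≠ (2 : Fin 3) → |p j| + r < 1 := fun j hj => by
    have := norm_le_pi_norm (hz 2 p) j
    rw [hz, update_of_ne hj, Real.norm_eq_abs, ← hz] at this
    linarith
  obtain ⟨Θ, k, e0, e1, -, e3⟩ := (len_small 2 hr hc).symm.equiv (len_cube 2)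
  refine ⟨Θ, k, e0, ?_⟩
  rintro _ ⟨x, hx, rfl⟩
  have x1 : ‖x‖ = 1 := mem_sphere_zero_iff_norm.1 (hs hx)
  have x2 : x 2 = 1 → r < ‖hz 2 (x - p)‖ := fun e => by
    have e2 : (x - p) 2 = 0 := by rw [Pi.sub_apply, e, h1, sub_self]
    rw [pfill_hz_self e2]
    exact r1.trans_le (not_lt.1 fun l => hb (mem_ball_iff_norm.2 l) hx)
  have y1 : Θ x ∈ {x : Rn 3 | ‖x‖ = 1 ∧ x 2 = 1} := by
    rw [← e1]
    exact mem_image_of_mem _ ⟨x1, (ne_or_eq _ _).imp_right fun e => (x2 e).le⟩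
  have y2 : Θ x ∉ {x : Rn 3 | x 2 = 1 ∧ ‖hz 2 x‖ = 1} := by
    rw [← e3, k.inj.mem_set_image]
    exact fun e => (x2 e.1).ne' e.2
  refine ⟨mem_ball_zero_iff.2 ?_, y1.2⟩
  have y3 := y1.1
  rw [norm_eq_hz 2] at y3
  rw [← norm_hz2]
  exact ((le_max_left _ _).trans y3.le).lt_of_ne fun e => y2 ⟨y1.2, e⟩

theorem PL6_gen (h : Len 2 B D₁ D₂ J) (hK : IsClosed K) (hs : K ⊆ D₁ ∪ D₂) {p : Rn 3}
    (hp : p ∈ D₁) (hpK : p ∉ K) : ∃ Θ, LH Θ ∧ Θ '' B = closedBall 0 1 ∧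
      Θ '' (D₁ ∪ D₂) = sphere 0 1 ∧ Θ '' K ⊆ lay (ball 0 1) 1 := by
  have fr : ∀ Θ, LH Θ → Θ '' B = closedBall 0 1 → Θ '' (D₁ ∪ D₂) = sphere 0 1 := fun Θ k e => by
    rw [← (h.ball.image k).frontier_eq, e, (ball_round 0 one_pos).frontier_eq]
  rw [← h.cl] at hp
  obtain ⟨q, qK, q1, q2⟩ := _root_.mem_closure_iff.1 hp _ hK.isOpen_compl hpK
  obtain ⟨Ψ, k, e0, e1, -, e3⟩ := h.equiv (len_cube 2)
  have y1 : Ψ q ∈ {x : Rn 3 | ‖x‖ = 1 ∧ x 2 = 1} := e1 ▸ mem_image_of_mem _ q1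
  have y2 : Ψ q ∉ {x : Rn 3 | x 2 = 1 ∧ ‖hz 2 x‖ = 1} := by
    rwa [← e3, k.inj.mem_set_image]
  have y3 := y1.1
  rw [norm_eq_hz 2] at y3
  have c : IsClosed (Ψ '' K) := by
    obtain ⟨e, he, -⟩ := k.homeo
    rw [← he]
    exact e.isClosedMap _ hK
  obtain ⟨Θ, k', f0, f1⟩ := PL6_core c (fr Ψ k e0 ▸ image_mono hs) y1.2
    (((le_max_left _ _).trans y3.le).lt_of_ne fun e => y2 ⟨y1.2, e⟩)
    (by rwa [k.inj.mem_set_image])
  have e : (Θ ∘ Ψ) '' B = closedBall 0 1 := by rw [image_comp, e0, f0]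
  exact ⟨Θ ∘ Ψ, k'.comp k, e, fr _ (k'.comp k) e, by rwa [image_comp]⟩

theorem sph_chart (h : Ball B S) (hK : IsClosed K) (hs : K ⊆ S) (hne : K ≠ S) :
    ∃ Θ, LH Θ ∧ Θ '' B = closedBall 0 1 ∧ Θ '' S = sphere 0 1 ∧ Θ '' K ⊆ lay (ball 0 1) 1 := by
  obtain ⟨E₁, E₂, E, hL, rfl⟩ := PL6_len h
  obtain ⟨p, hp, hpK⟩ := exists_of_ssubset (hs.ssubset_of_ne hne)
  rcases hp with hp | hp
  · exact PL6_gen hL hK hs hp hpK
  · rw [union_comm] at hs ⊢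
    exact PL6_gen hL.symm hK hs hp hpK

theorem sph_len (h : Ball B S) (hJ : Crc J) (hs : J ⊆ S) :
    ∃ D₁ D₂, Len 2 B D₁ D₂ J ∧ D₁ ∪ D₂ = S := by
  have hne : J ≠ S := fun e => by
    obtain ⟨E₁, E₂, E, hL, hu⟩ := PL6_len h
    obtain ⟨y, y1, y2⟩ := hL.ne
    rw [tcrc_sub hL.crc.tcrc hJ.tcrc (e ▸ hu ▸ (pthm_J hL).trans subset_union_left), e, ← hu] at y2
    exact y2 (Or.inl y1)
  obtain ⟨Θ, k, e0, -, e2⟩ := sph_chart h hJ.poly.1.isClosed hs hne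
  have e3 : Θ '' J = lay (pj3 '' (Θ '' J)) 1 := by
    refine Subset.antisymm (fun x hx => ⟨mem_image_of_mem _ hx, (e2 hx).2⟩) ?_
    rintro x ⟨⟨y, hy, e⟩, hx⟩
    rwa [← mk3_pj3 x, ← e, hx, ← (e2 hy).2, mk3_pj3]
  have c0 : Crc (pj3 '' (Θ '' J)) := (crc_lay 1).1 (e3 ▸ hJ.image k.tp k.inj.injOn)
  obtain ⟨Φ, c, r, hΦ, hr, hc, e4⟩ := s2 c0 isOpen_ball (convex_ball 0 1)
    (by rintro _ ⟨y, hy, rfl⟩; exact (e2 hy).1)
  have k2 := (lp_up hΦ.1).1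
  have e5 : up Φ '' closedBall 0 1 = closedBall 0 1 := PMod1_img k2 fun x => by
    have : Φ (pj3 x) ∈ closedBall (0 : Rn 2) 1 ↔ pj3 x ∈ closedBall (0 : Rn 2) 1 := by
      conv_lhs => rw [← hΦ.image_eq ball_subset_closedBall, hΦ.1.inj.mem_set_image]
    simp only [mem_closedBall_zero_iff] at this ⊢
    rw [up, norm_mk3, norm_eq_hz 2 x, norm_hz2, max_le_iff, max_le_iff, this]
  have hc' : ∀ j : Fin 2, |c j| + r < 1 := fun j => by
    have n : ‖fun _ : Fin 2 => r‖ ≤ r := by rw [pi_norm_const, Real.norm_of_nonneg hr.le]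
    have a1 := (norm_le_pi_norm _ j).trans_lt (mem_ball_zero_iff.1
      (hc (a := c + fun _ => r) (by rwa [mem_closedBall_iff_norm, add_sub_cancel_left])))
    have a2 := (norm_le_pi_norm _ j).trans_lt (mem_ball_zero_iff.1
      (hc (a := c - fun _ => r) (by rwa [mem_closedBall_iff_norm', sub_sub_cancel])))
    simp only [Pi.add_apply, Pi.sub_apply, Real.norm_eq_abs, abs_lt] at a1 a2
    have := abs_lt.2 (show -(1 - r) < c j ∧ c j < 1 - r from ⟨by linarith, by linarith⟩)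
    linarith
  have hL := (len_small 2 (c := mk3 c 1) hr fun j hj => by
    fin_cases j
    exacts [hc' 0, hc' 1, absurd rfl hj]).image (k2.comp k).inv
  have e6 : {x : Rn 3 | x 2 = 1 ∧ ‖hz 2 (x - mk3 c 1)‖ = r} = (up Φ ∘ Θ) '' J := by
    rw [image_comp, e3, up_lay, e4]
    ext x
    simp only [lay, mem_ofPred_eq, norm_hz2, pj3_sub, pj3_mk3, mem_sphere_iff_norm, and_comm]
  have e7 : closedBall 0 1 = (up Φ ∘ Θ) '' B := by rw [image_comp, e0, e5]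
  rw [e6, e7, (k2.comp k).inv_image, (k2.comp k).inv_image] at hL
  exact ⟨_, _, hL, hL.ball.frontier_eq.symm.trans h.frontier_eq⟩

theorem len3 (h : Ball B (D₁ ∪ D₂)) (hJ : Crc J) (c1 : IsClosed D₁) (c2 : IsClosed D₂)
    (hi : D₁ ∩ D₂ = J) (n1 : ¬ D₁ ⊆ J) (n2 : ¬ D₂ ⊆ J) : Len 2 B D₁ D₂ J := by
  obtain ⟨E₁, E₂, hL, hu⟩ := sph_len h hJ (hi ▸ inter_subset_left.trans subset_union_left)
  exact len_uniq hL c1 c2 hu.symm hi n1 n2

theorem sph_sum (h1 : Sph (D₁ ∪ D)) (h2 : Sph (D₂ ∪ D)) (hJ : Crc J) (c1 : IsClosed D₁)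
    (c2 : IsClosed D₂) (c : IsClosed D) (i1 : D₁ ∩ D = J) (i2 : D₂ ∩ D = J) (i : D₁ ∩ D₂ = J)
    (n1 : ¬ D₁ ⊆ J) (n2 : ¬ D₂ ⊆ J) (n0 : ¬ D ⊆ J) : Sph (D₁ ∪ D₂) := by
  obtain ⟨B₁, h1⟩ := h1
  obtain ⟨B₂, h2⟩ := h2
  obtain ⟨B, hB⟩ := thm11_len (by norm_num) (len3 h1 hJ c1 c i1 n1 n0) (len3 h2 hJ c2 c i2 n2 n0) i
  exact ⟨B, hB.ball⟩

theorem PL6_pc (h : PDsc D J) : PC 2 D := by
  obtain ⟨g, hg, -, rfl, -⟩ := h
  have k : PC 2 (closedBall (0 : Rn 2) 1) :=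
    ⟨{⊤}, finite_singleton _, fun P _ => (Submodule.finrank_le _).trans (by simp),
      fun x _ => ⟨⊤, rfl, trivial⟩⟩
  exact k.image isBounded_closedBall hg

theorem PL6_lk {y : Rn 3} (hy : y ∈ lay (ball 0 1) 1) : lk (sphere 0 1) y = eqt 2 := by
  have h1 : ∀ᶠ z in 𝓝 y, ‖hz 2 z‖ < 1 :=
    (tp_hz 2).continuous.norm.continuousAt.eventually_lt continuousAt_const
      (by rw [norm_hz2]; exact mem_ball_zero_iff.1 hy.1)
  have h2 : ∀ᶠ z : Rn 3 in 𝓝 y, 0 < z 2 :=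
    continuousAt_const.eventually_lt (continuous_apply 2).continuousAt (by rw [hy.2]; exact one_pos)
  rw [lk_congr (Y := {z | z 2 = 1}) ((h1.and h2).mono fun z hz => ?_)]
  · ext v
    refine and_congr_right fun _ =>
      ⟨fun h => ?_, fun h => YPLk_tc.2 (Eventually.of_forall fun t => ?_)⟩
    · obtain ⟨t, t1, t2⟩ := ((YPLk_tc.1 h).and self_mem_nhdsWithin).exists
      have t3 : y 2 + t * v 2 = 1 := t1
      rw [hy.2, add_eq_left] at t3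
      exact (mul_eq_zero.1 t3).resolve_left (ne_of_gt t2)
    · change y 2 + t * v 2 = 1
      rw [h, hy.2, mul_zero, add_zero]
  · rw [mem_sphere_zero_iff_norm, norm_eq_hz 2, abs_of_pos hz.2, mem_ofPred_eq]
    refine ⟨fun e => ?_, fun e => by rw [e, max_eq_right hz.1.le]⟩
    rcases max_eq_iff.1 e with e | e
    exacts [absurd e.1 hz.1.ne, e.1]

theorem Sph.surf (h : Sph S) : Surf S := by
  obtain ⟨B, h⟩ := h
  obtain ⟨E₁, E₂, E, hL, hu⟩ := PL6_len h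
  refine ⟨h.poly', hu ▸ (PL6_pc hL.pdsc).union (PL6_pc hL.symm.pdsc), fun x hx => ?_⟩
  have hne : {x} ≠ S := fun e => hL.crc.tcrc.infinite
    ((finite_singleton x).subset (e ▸ hu ▸ (pthm_J hL).trans subset_union_left))
  obtain ⟨Θ, k, -, e1, e2⟩ := sph_chart h isClosed_singleton (singleton_subset_iff.2 hx) hne
  have y1 := e2 (mem_image_of_mem Θ (mem_singleton x))
  obtain ⟨g, g1, g2, g3⟩ := lk_image (poly_sphere (0 : Rn 3) 1) k.tpi k.inv.inj.injOn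
    (e1 ▸ mem_image_of_mem Θ hx)
  have g4 := g3 _ Subset.rfl (poly_sphere 0 1)
  rw [k.li, PL6_lk y1] at g4
  rw [PL6_lk y1] at g1 g2
  rw [← k.inv_image S, e1, ← g4]
  exact (pfill_idlen 2).crc.tcrc.image g1 g2

theorem surf_loc (h : Surf S) {x : Rn 3} (hx : x ∈ S) : ∃ Φ : Rn 3 → Rn 3, LH Φ ∧
    (∀ ξ (t : ℝ), 0 ≤ t → Φ (t • ξ) = t • Φ ξ) ∧ (∀ ξ, ξ ∈ tc S x ↔ Φ ξ 2 = 0) ∧
    ∀ᶠ y in 𝓝 x, y ∈ S ↔ Φ (y - x) 2 = 0 := by
  obtain ⟨E₁, E₂, ⟨Ψ, k, -, e1, e2, e3⟩, hu⟩ := sph_len (ball_round 0 one_pos) (h.crc_lk hx)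
    fun v hv => mem_sphere_zero_iff_norm.2 hv.1
  have e4 : Ψ '' {v | oN 2 v = 1} = {v | ‖v‖ = 1} := by
    have : {v : Rn 3 | oN 2 v = 1} = capU 2 ∪ capL 2 := Set.ext fun v =>
      ⟨fun hv => (le_total 0 (v 2)).imp (fun l => ⟨hv, l⟩) fun l => ⟨hv, l⟩,
        fun hv => hv.elim And.left And.left⟩
    rw [this, image_union, e1, e2, hu]
    exact Set.ext fun v => mem_sphere_zero_iff_norm
  have hb := pfill_bij' k {v | oN 2 v = 1}
  rw [e4] at hb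
  obtain ⟨Φ, hΦ, -, f⟩ := fill_cone gauge_norm (gauge_oN 2) k.tpi hb
  have f0 : Φ 0 = 0 := by
    simpa using f (fun _ => 1) (by simp) 0 le_rfl
  have t : ∀ ξ, ξ ∈ tc S x ↔ Φ ξ 2 = 0 := fun ξ => by
    rcases pfill_polar gauge_norm ξ with rfl | ⟨u, hu1, s, hs, rfl⟩
    · exact ⟨fun _ => by rw [f0]; rfl,
        fun _ => YPLk_tc.2 (Eventually.of_forall fun t => by simpa using hx)⟩
    have u1 : oN 2 (invFun Ψ u) = 1 := hb.mapsTo hu1
    have u2 : u ∈ lk S x ↔ invFun Ψ u ∈ eqt 2 := by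
      rw [← e3, ← k.inj.mem_set_image (a := invFun Ψ u), k.ri]
    rw [tc_smul hs, f u hu1 s hs.le, Pi.smul_apply, smul_eq_zero, or_iff_right hs.ne']
    refine ⟨fun l => (u2.1 ⟨hu1, l⟩).2, fun l => (u2.2 ⟨?_, l⟩).2⟩
    rwa [oN, l, abs_zero, add_zero, pfill_hz_self l] at u1
  refine ⟨Φ, hΦ, fun ξ a ha => ?_, t, ?_⟩
  · rcases pfill_polar gauge_norm ξ with rfl | ⟨u, hu1, s, hs, rfl⟩
    · rw [smul_zero, f0, smul_zero]
    · rw [smul_smul, f u hu1 _ (mul_nonneg ha hs.le), f u hu1 s hs.le, smul_smul]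
  · obtain ⟨ρ, hρ, l⟩ := h.poly.tc_iff x
    filter_upwards [closedBall_mem_nhds x hρ] with y hy
    rw [← t, ← l _ (mem_closedBall_iff_norm.1 hy), add_sub_cancel]

end BEp
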