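import Pool.Agent.Work.MP_f0515e_an.D3.PCel1
import Pool.Agent.Work.MP_f0515e_an.D3.PL6

/-! Double discs are parametrised by the boundary of the lens; a circle on a double disc bounds a
disc on each side. -/

open Set Metric Filter Topology Function BEv
open scoped NNReal

noncomputable section
namespace BEp

variable {n : ℕ} {J D₁ D₂ : Set (Rn n)}

theorem len_model {m : ℕ} (i : Fin m) : Len i (oct i) (capU i) (capL i) (eqt i) :=
  ⟨id, LH.id', image_id _, image_id _, image_id _, image_id _⟩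

theorem dbl_par (h1 : PDsc D₁ J) (h2 : PDsc D₂ J) (hi : D₁ ∩ D₂ = J) :
    ∃ g : Rn 3 → Rn n, TP g ∧ InjOn g (capU 2 ∪ capL 2) ∧ g '' capU 2 = D₁ ∧ g '' capL 2 = D₂ := by
  have L := len_model (2 : Fin 3)
  obtain ⟨g₁, a1, a2, a3⟩ := L.pdsc.bij h1
  obtain ⟨g₂, b1, b2, b3⟩ := L.symm.pdsc.ext h2 a1 a3
  obtain ⟨g, g1, g2, g3⟩ := tp_glue L.poly L.symm.poly a1 b1 (L.inter ▸ b3.symm)
  have e1 := a2.congr g2.symm
  have e2 := b2.congr g3.symm
  refine ⟨g, g1, injOn_two e1.injOn e2.injOn fun z hz w hw e => ?_, e1.image_eq, e2.image_eq⟩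
  obtain ⟨v, hv, q⟩ := a3.surjOn (hi.subset ⟨e1.mapsTo hz, e ▸ e2.mapsTo hw⟩)
  have hv' := L.inter.superset hv
  have q' : g v = g z := (g2 hv'.1).trans q
  rw [← e1.injOn hv'.1 hz q', e2.injOn hv'.2 hw (q'.trans e)]

theorem sphj (h1 : PDsc D₁ J) (h2 : PDsc D₂ J) (hi : D₁ ∩ D₂ = J) {c : Set (Rn n)} (hc : Crc c)
    (hs : c ⊆ D₁ ∪ D₂) : ∃ A B, PDsc A c ∧ PDsc B c ∧ A ∪ B = D₁ ∪ D₂ ∧ A ∩ B = c := by
  have B := (len_model (2 : Fin 3)).ball
  obtain ⟨g, g1, g2, rfl, rfl⟩ := dbl_par h1 h2 hi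
  rw [← image_union] at hs ⊢
  obtain ⟨k, k1, k2⟩ := tp_linv B.poly' g1 g2
  have e : ∀ z ∈ c, g (k z) = z ∧ k z ∈ capU 2 ∪ capL 2 := fun z hz => by
    obtain ⟨w, hw, rfl⟩ := hs hz
    rw [k2 w hw]
    exact ⟨rfl, hw⟩
  obtain ⟨E₁, E₂, L, u⟩ := sph_len B (hc.image k1 fun z hz w hw q => by
    rw [← (e z hz).1, q, (e w hw).1]) (image_subset_iff.2 fun z hz => (e z hz).2)
  have ec : g '' (k '' c) = c := by
    rw [image_image, image_congr fun z hz => (e z hz).1, image_id']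
  have s1 : E₁ ⊆ capU 2 ∪ capL 2 := u ▸ subset_union_left
  have s2 : E₂ ⊆ capU 2 ∪ capL 2 := u ▸ subset_union_right
  exact ⟨g '' E₁, g '' E₂, ec ▸ L.pdsc.image g1 (g2.mono s1), ec ▸ L.symm.pdsc.image g1 (g2.mono s2),
    by rw [← image_union, u], by rw [← g2.image_inter s1 s2, L.inter, ec]⟩

end BEp
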