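import Pool.Agent.Work.MP_f0515e_an.D3.PFill

/-! Unit balls of polyhedral gauges and convex polyhedra are standard balls (any dimension).
`central_arr`: `adapted_tp` for `x ↦ ![r x, ‖x‖]`, starting from the coordinates; keep the functionals with `A.2 = 0`; near `0` the
others have constant sign, so small points of a closed central face lie in one closed face of the big arrangement, which contains `0`;
homogeneity. `gauge_map`: induction on `k`: a `TP` map `g` which, for every `x` with `fdim L x < k`, maps `face L x ∩ {r ≤ 1}` bijectively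
onto `face L x ∩ {‖·‖ ≤ 1}` with `‖g y‖ = r y`. Faces of dimension zero: only `{0}` (`x ∈ fdir L x`). For a face with point `w ≠ 0` put
`s x = min (ev A x / ev A w)` over the `A` with `ev A w ≠ 0` (`TP.cmin` or `Finset.inf'`); for `x ∈ cface L w`: `0 ≤ s x`,
`y = x - s x • w ∈ cface L w \ face L w` (`fdim_lt`), `s (y + t • w) = t` for such `y` and `0 ≤ t`;
`g_w x = g (x - s x • w) + (s x * r w / ‖w‖) • w`; glue over the finitely many faces of dimension `k` (`tp_glue_fin`, pieces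
`cface L w ∩ {r ≤ 1}`, polyhedra by `poly_le`). `gauge_ball`: `fill_cone`. `convex_gauge`: `Convex.lipschitz_gauge`; the point
`x / gauge B x` lies in `frontier B` (a polyhedron, `poly_cl_diff`); some `A` of an arrangement adapted to the frontier vanishes there with
`A.2 ≠ 0` (else the ray direction lies in `fdir` and an open piece of the ray lies in the frontier), so `gauge B x = -A.1 x / A.2`.
About 350 lines. -/

open Set Metric Filter Topology Function BEv
open scoped NNReal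

noncomputable section
namespace BEp

variable {n m : ℕ}

section
variable {L : Set ((Rn n →L[ℝ] ℝ) × ℝ)} {w x y z : Rn n}

theorem pgau_sg {u v : ℝ} (hv : v ≠ 0) : (SignType.sign u = SignType.sign v ↔ 0 < u / v) ∧
    (u = 0 ∨ SignType.sign u = SignType.sign v ↔ 0 ≤ u / v) := by
  have k : SignType.sign u = SignType.sign v ↔ 0 < u / v := by
    rcases hv.lt_or_gt with h | h
    · rw [sign_neg h, sign_eq_neg_one_iff, lt_div_iff_of_neg h, zero_mul]
    · rw [sign_pos h, sign_eq_one_iff, lt_div_iff₀ h, zero_mul]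
  refine ⟨k, ?_⟩
  rw [k, le_iff_eq_or_lt, eq_comm (a := 0), div_eq_zero_iff, or_iff_left hv]

theorem pgau_ev {A : (Rn n →L[ℝ] ℝ) × ℝ} (h : A.2 = 0) (x y : Rn n) (t : ℝ) :
    ev A (x + t • y) = ev A x + t * ev A y := by
  simp [ev, h]

theorem pgau_smul {A : (Rn n →L[ℝ] ℝ) × ℝ} (h : A.2 = 0) (x : Rn n) (t : ℝ) :
    ev A (t • x) = t * ev A x := by
  simp [ev, h]

theorem pgau_add (hc : ∀ A ∈ L, A.2 = 0) (hx : x ∈ cface L w) (hy : y ∈ cface L w) :
    x + y ∈ cface L w := fun A hA => by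
  have e := pgau_ev (hc A hA) x y 1
  rw [one_smul, one_mul] at e
  obtain ⟨a1, a2, a3⟩ := St1_iff.1 (hx A hA)
  obtain ⟨b1, b2, b3⟩ := St1_iff.1 (hy A hA)
  exact St1_iff.2 ⟨fun k => by linarith [a1 k, b1 k], fun k => by linarith [a2 k, b2 k],
    fun k => by linarith [a3 k, b3 k]⟩

theorem pgau_in (hc : ∀ A ∈ L, A.2 = 0) (hy : y ∈ cface L w) {t : ℝ} (ht : 0 < t) :
    y + t • w ∈ face L w := fun A hA => by
  have := St1_mix (hy A hA) zero_le_one ht
  rwa [one_mul, ← pgau_ev (hc A hA)] at this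

theorem pgau_ray (hc : ∀ A ∈ L, A.2 = 0) (w : Rn n) {t : ℝ} (ht : 0 < t) :
    t • w ∈ cface L w := fun A hA =>
  Or.inr (by rw [pgau_smul (hc A hA), sign_mul, sign_pos ht, one_mul])

theorem pgau_small (hL : L.Finite) (hz : z ∈ cface {A ∈ L | A.2 = 0} w) :
    ∀ᶠ t in 𝓝[>] (0 : ℝ), t • z ∈ cface L (t • w) := by
  refine (eventually_all_finite hL).2 fun A hA => ?_
  have c : ∀ x : Rn n, Tendsto (fun t : ℝ => ev A (t • x)) (𝓝[>] 0) (𝓝 A.2) := fun x => by
    have : Continuous fun t : ℝ => ev A (t • x) := (St1_cont A).comp (by fun_prop)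
    simpa [ev] using (this.tendsto 0).mono_left nhdsWithin_le_nhds
  rcases lt_trichotomy A.2 0 with h | h | h
  · filter_upwards [(c z).eventually_lt_const h, (c w).eventually_lt_const h] with t h1 h2
    exact Or.inr (by rw [sign_neg h1, sign_neg h2])
  · refine .of_forall fun t => ?_
    rw [pgau_smul h, pgau_smul h, sign_mul, sign_mul]
    exact (hz A ⟨hA, h⟩).imp (fun k => by rw [k, mul_zero]) fun k => by rw [k]
  · filter_upwards [(c z).eventually_const_lt h, (c w).eventually_const_lt h] with t h1 h2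
    exact Or.inr (by rw [sign_pos h1, sign_pos h2])

/-- The coordinate of the vertex `w` in the stellar subdivision. -/
theorem pgau_s (hL : L.Finite) (hc : ∀ A ∈ L, A.2 = 0) (hw : ∃ A ∈ L, ev A w ≠ 0) :
    ∃ s : Rn n → ℝ, TP s ∧ (∀ x, w ∉ cface L x → s x = 0) ∧
      (∀ x ∈ face L w, 0 < s x ∧ x - s x • w ∈ cface L w \ face L w) ∧
      ∀ y ∈ cface L w \ face L w, ∀ t, 0 ≤ t → s (y + t • w) = t := by
  classical
  obtain ⟨A0, h0, h0'⟩ := hw
  obtain ⟨μ, tp, le, eq⟩ : ∃ μ : Rn n → ℝ, TP μ ∧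
      (∀ x, ∀ A ∈ L, ev A w ≠ 0 → μ x ≤ ev A x / ev A w) ∧
      ∀ x, ∃ A ∈ L, ev A w ≠ 0 ∧ μ x = ev A x / ev A w := by
    refine ⟨_, TP.cmin (hL.toFinset.filter fun A => ev A w ≠ 0) ((st3_tp A0).div_const (ev A0 w))
      fun A _ => (st3_tp A).div_const (ev A w), fun x A hA k => cmin_le _ _ _ (by simp [hA, k]),
      fun x => (cmin_eq _ _ _).elim (fun e => ⟨A0, h0, h0', e⟩) fun ⟨A, hA, e⟩ => ?_⟩
    rw [Finset.mem_filter, hL.mem_toFinset] at hA
    exact ⟨A, hA.1, hA.2, e⟩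
  have q : ∀ A ∈ L, ev A w ≠ 0 → ∀ x (t : ℝ), ev A (x + t • w) / ev A w = ev A x / ev A w + t :=
    fun A hA k x t => by rw [pgau_ev (hc A hA), add_div, mul_div_cancel_right₀ _ k]
  refine ⟨_, (TP.const 0).max tp, fun x hx => max_eq_left ?_, fun x hx => ?_, fun y hy t ht => ?_⟩
  · simp only [cface, mem_ofPred_eq, not_forall, not_or] at hx
    obtain ⟨A, hA, k1, k2⟩ := hx
    exact (le x A hA k1).trans (not_lt.1 fun k => k2 ((pgau_sg k1).1.2 k).symm)
  · obtain ⟨A, hA, k1, k2⟩ := eq x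
    have p : 0 < μ x := k2 ▸ (pgau_sg k1).1.1 (hx A hA)
    rw [max_eq_right p.le, sub_eq_add_neg, ← neg_smul]
    refine ⟨p, fun B hB => ?_, fun k => ?_⟩
    · by_cases e : ev B w = 0
      · exact Or.inl (by rw [pgau_ev (hc B hB), e, (St1_zero (hx B hB)).2 e, mul_zero, add_zero])
      · refine (pgau_sg e).2.2 ?_
        rw [q B hB e]
        linarith [le x B hB e]
    · have := (pgau_sg k1).1.1 (k A hA)
      rw [q A hA k1] at this
      linarith
  · have l : t ≤ μ (y + t • w) := by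
      obtain ⟨A, hA, k1, k2⟩ := eq (y + t • w)
      rw [k2, q A hA k1]
      linarith [(pgau_sg k1).2.1 (hy.1 A hA)]
    rw [max_eq_right (ht.trans l)]
    refine le_antisymm ?_ l
    have k := hy.2
    simp only [face, mem_ofPred_eq, not_forall] at k
    obtain ⟨A, hA, k⟩ := k
    have e := (hy.1 A hA).resolve_right k
    have k1 : ev A w ≠ 0 := fun e' => k (by rw [e, e'])
    have := le (y + t • w) A hA k1
    rwa [q A hA k1, e, zero_div, zero_add] at this

/-- A map that preserves the faces through the points of `U` and transforms the norm into `r`. -/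
def PGauG (L : Set ((Rn n →L[ℝ] ℝ) × ℝ)) (r : Rn n → ℝ) (U : Set (Rn n)) : Prop :=
  ∃ g : Rn n → Rn n, TP g ∧ ∀ x ∈ U, BijOn g (face L x) (face L x) ∧ ∀ y ∈ face L x, ‖g y‖ = r y

theorem pgau_step {r : Rn n → ℝ} (hr : Gauge r) (hL : L.Finite) (hc : ∀ A ∈ L, A.2 = 0)
    (hn : ∀ x, x ≠ 0 → ∃ A ∈ L, ev A x ≠ 0) (ha : ∀ x ∈ cface L w, ∀ y ∈ cface L w,
      r (x + y) = r x + r y ∧ ‖x + y‖ = ‖x‖ + ‖y‖) {U : Set (Rn n)} (hU : PGauG L r U)
    (h1 : ∀ y, fdim L y < fdim L w → y ∈ U) (h2 : ∀ x ∈ U, fdim L x ≤ fdim L w) :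
    PGauG L r (insert w U) := by
  have f : ∀ x ∈ U, w ∈ cface L x → w ∈ face L x := fun x hx k =>
    by_contra fun k' => (fdim_lt k k').not_ge (h2 x hx)
  by_cases w0 : w = 0
  · have z : ∀ A ∈ L, ev A w = 0 := fun A hA => by rw [w0, ev, hc A hA, map_zero, add_zero]
    have k : ∀ y ∈ face L w, ‖y‖ = r y := fun y hy => by
      obtain rfl : y = 0 := by_contra fun e =>
        let ⟨A, hA, k⟩ := hn y e; k ((St1_zero (hy A hA)).2 (z A hA))
      rw [norm_zero, pfill_r0 hr]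
    refine ⟨id, TP.id', fun x hx => ⟨bijOn_id _, hx.elim (fun e => e ▸ k) fun e => ?_⟩⟩
    exact face_eq (f x e fun A hA => Or.inl (z A hA)) ▸ k
  by_cases hw : ∃ x ∈ U, w ∈ face L x
  · obtain ⟨x, hx, e⟩ := hw
    obtain ⟨g, tg, hg⟩ := hU
    refine ⟨g, tg, fun y hy => hy.elim (fun k => ?_) (hg y)⟩
    rw [k, face_eq e]
    exact hg x hx
  obtain ⟨g, tg, hg⟩ := hU
  obtain ⟨s, ts, s0, s1, s2⟩ := pgau_s hL hc (hn w w0)
  have n0 : 0 < ‖w‖ := norm_pos_iff.2 w0
  have r0 : 0 < r w := (plc_nonneg hr w).lt_of_ne fun e => w0 (plc_zero hr e.symm)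
  obtain ⟨c, c0, ce⟩ : ∃ c : ℝ, 0 < c ∧ c * ‖w‖ = r w :=
    ⟨r w / ‖w‖, div_pos r0 n0, div_mul_cancel₀ _ n0.ne'⟩
  have b : ∀ y ∈ cface L w \ face L w, ∀ z ∈ face L y, z ∈ cface L w \ face L w := fun y hy z hz =>
    ⟨cface_sub hy.1 (face_sub_cface L y hz), fun k => hy.2 (by
      rw [← face_eq k, face_eq hz]
      exact mem_face_self L y)⟩
  have u : ∀ y ∈ cface L w \ face L w, BijOn g (face L y) (face L y) ∧
      ∀ z ∈ face L y, ‖g z‖ = r z := fun y hy => hg y (h1 y (fdim_lt hy.1 hy.2))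
  have v : ∀ y ∈ cface L w \ face L w, g y ∈ face L y := fun y hy =>
    (u y hy).1.mapsTo (mem_face_self L y)
  refine ⟨fun x => g (x - s x • w) + (c * s x) • w, (tg.comp (TP.id'.sub (ts.smul_const w))).add
    ((ts.const_mul c).smul_const w), fun x hx => hx.elim (fun e => ?_) fun hx => ?_⟩
  · subst e
    refine ⟨⟨fun y hy => pgau_in hc (b _ (s1 y hy).2 _ (v _ (s1 y hy).2)).1
      (mul_pos c0 (s1 y hy).1), fun y hy z hz e => ?_, fun z hz => ?_⟩, fun y hy => ?_⟩
    · obtain ⟨p1, p2⟩ := s1 y hy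
      obtain ⟨q1, q2⟩ := s1 z hz
      have e1 := congrArg s e
      rw [s2 _ (b _ p2 _ (v _ p2)) _ (mul_pos c0 p1).le,
        s2 _ (b _ q2 _ (v _ q2)) _ (mul_pos c0 q1).le] at e1
      simp only [e1, add_left_inj] at e
      have e2 := (u _ p2).1.injOn (mem_face_self L _) (by
        rw [← face_eq (v _ p2), e, face_eq (v _ q2)]
        exact mem_face_self L _) e
      rwa [mul_left_cancel₀ c0.ne' e1, sub_left_inj] at e2
    · obtain ⟨q1, q2⟩ := s1 z hz
      obtain ⟨y, hy, e⟩ := (u _ q2).1.surjOn (mem_face_self L _)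
      refine ⟨y + (s z / c) • x, pgau_in hc (b _ q2 _ hy).1 (div_pos q1 c0), ?_⟩
      simp only [s2 _ (b _ q2 _ hy) _ (div_pos q1 c0).le]
      rw [add_sub_cancel_right, e, mul_div_cancel₀ _ c0.ne', sub_add_cancel]
    · obtain ⟨p1, p2⟩ := s1 y hy
      have e := (ha _ p2.1 _ (pgau_ray hc x p1)).1
      rw [sub_add_cancel, hr.hom _ _ p1.le] at e
      rw [(ha _ (b _ p2 _ (v _ p2)).1 _ (pgau_ray hc x (mul_pos c0 p1))).2,
        (u _ p2).2 _ (mem_face_self L _), norm_smul, Real.norm_of_nonneg (mul_pos c0 p1).le, e, ← ce]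
      ring
  · have e : ∀ y ∈ face L x, g y = g (y - s y • w) + (c * s y) • w := fun y hy => by
      rw [s0 y fun k => hw ⟨x, hx, f x hx (cface_eq hy ▸ k)⟩]
      simp
    exact ⟨(hg x hx).1.congr e, fun y hy =>
      (congrArg norm (e y hy)).symm.trans ((hg x hx).2 y hy)⟩

end

theorem central_arr {r : Rn n → ℝ} (hr : Gauge r) : ∃ L : Set ((Rn n →L[ℝ] ℝ) × ℝ), L.Finite ∧
    (∀ A ∈ L, A.2 = 0) ∧ (∀ x, x ≠ 0 → ∃ A ∈ L, ev A x ≠ 0) ∧ ∀ w, ∀ x ∈ cface L w, ∀ y ∈ cface L w,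
      r (x + y) = r x + r y ∧ ‖x + y‖ = ‖x‖ + ‖y‖ := by
  obtain ⟨L, hL, h0, h⟩ := adapted_tp
    (L := range fun j : Fin n => (ContinuousLinearMap.proj (R := ℝ) (φ := fun _ => ℝ) j, (0 : ℝ)))
    (finite_range _) (h := fun x => ![r x, ‖x‖]) (TP.pi fun i => by
      fin_cases i
      exacts [hr.tp, gauge_norm.tp]) 1
  refine ⟨{A ∈ L | A.2 = 0}, hL.subset (sep_subset _ _), fun _ k => k.2, fun x hx => ?_,
    fun w x hx y hy => ?_⟩
  · obtain ⟨j, hj⟩ := Function.ne_iff.1 hx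
    exact ⟨_, ⟨h0 ⟨j, rfl⟩, rfl⟩, by simpa [ev] using hj⟩
  have c : Tendsto (fun t : ℝ => ‖t • w‖) (𝓝[>] 0) (𝓝 0) := by
    have : Continuous fun t : ℝ => ‖t • w‖ := by fun_prop
    simpa using (this.tendsto 0).mono_left nhdsWithin_le_nhds
  obtain ⟨t, ⟨⟨⟨⟨⟨h1, h2⟩, h3⟩, h4⟩, h5⟩, ht⟩⟩ := ((((((pgau_small hL hx).and (pgau_small hL hy)).and
    (pgau_small hL (pgau_add (fun _ k => k.2) hx hy))).and
    (pgau_small (z := 0) hL fun A k => Or.inl (by rw [ev, k.2, map_zero, add_zero]))).and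
    (c.eventually_le_const one_pos)).and self_mem_nhdsWithin).exists
  replace ht : 0 < t := ht
  obtain ⟨A, hA⟩ := h _ h5
  have e : (![r (t • (x + y)), ‖t • (x + y)‖] : Rn 2) + ![r (t • 0), ‖t • (0 : Rn n)‖] =
      ![r (t • x), ‖t • x‖] + ![r (t • y), ‖t • y‖] := by
    rw [hA _ h1, hA _ h2, hA _ h3, hA _ h4, smul_add, map_add, smul_zero, map_zero]
    abel
  have e0 := congrFun e 0
  have e1 := congrFun e 1
  simp only [Pi.add_apply, Matrix.cons_val_zero, Matrix.cons_val_one, hr.hom _ _ ht.le, norm_smul,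
    pfill_r0 hr, norm_zero, Real.norm_of_nonneg ht.le, mul_zero, add_zero, ← mul_add] at e0 e1
  exact ⟨mul_left_cancel₀ ht.ne' e0, mul_left_cancel₀ ht.ne' e1⟩

theorem gauge_map {r : Rn n → ℝ} (hr : Gauge r) :
    ∃ g : Rn n → Rn n, TP g ∧ BijOn g {x | r x = 1} {x | ‖x‖ = 1} := by
  obtain ⟨L, hL, hc, hn, ha⟩ := central_arr hr
  have key : ∀ k, PGauG L r {x | fdim L x < k} := fun k => by
    induction k with
    | zero => exact ⟨id, TP.id', fun x hx => absurd hx (Nat.not_lt_zero _)⟩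
    | succ k ih =>
      obtain ⟨W, h1, h2, h3⟩ := exists_subset_image_finite_and.1
        ⟨_, subset_rfl, (finite_faces hL).subset (image_subset_range _ {x | fdim L x = k}),
          (rfl : (fun T => T = face L '' {x | fdim L x = k}) _)⟩
      obtain ⟨g, tg, hg⟩ : PGauG L r (W ∪ {x | fdim L x < k}) := by
        refine Finite.induction_on_subset (motive := fun T _ => PGauG L r (T ∪ {x | fdim L x < k}))
          W h2 (by simpa using ih) fun {w T} hw hT _ hG => ?_
        have e : fdim L w = k := h1 hw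
        rw [insert_union]
        exact pgau_step hr hL hc hn (ha w) hG (fun y hy => Or.inr (e ▸ hy)) fun x hx =>
          e ▸ hx.elim (fun m => le_of_eq (h1 (hT m))) fun m => le_of_lt m
      refine ⟨g, tg, fun x hx => (Nat.lt_succ_iff_lt_or_eq.1 hx).elim (fun m => hg x (Or.inr m))
        fun m => ?_⟩
      obtain ⟨w, hw, e⟩ : face L x ∈ face L '' W := h3 ▸ mem_image_of_mem _ m
      exact e ▸ hg w (Or.inl hw)
  obtain ⟨g, tg, hg⟩ := key (n + 1)
  replace hg := fun x => hg x (Nat.lt_succ_of_le ((Submodule.finrank_le _).trans (by simp)))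
  have v : ∀ x, g x ∈ face L x := fun x => (hg x).1.mapsTo (mem_face_self L x)
  have u : ∀ x, ‖g x‖ = r x := fun x => (hg x).2 x (mem_face_self L x)
  refine ⟨g, tg, fun x hx => (u x).trans hx, fun x _ y _ e => (hg x).1.injOn (mem_face_self L x) (by
    rw [← face_eq (v x), e, face_eq (v y)]
    exact mem_face_self L y) e, fun z hz => ?_⟩
  obtain ⟨y, -, rfl⟩ := (hg z).1.surjOn (mem_face_self L z)
  exact ⟨y, (u y).symm.trans hz, rfl⟩

theorem gauge_ball {r : Rn n → ℝ} (hr : Gauge r) (c : Rn n) :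
    Ball {x | r (x - c) ≤ 1} {x | r (x - c) = 1} := by
  obtain ⟨g, tg, hg⟩ := gauge_map hr
  obtain ⟨Φ, h, e, -⟩ := fill_cone hr gauge_norm tg hg
  have k := h.comp (lh_hom (-c) one_ne_zero)
  have e' : ∀ x, ‖(Φ ∘ fun x : Rn n => -c + (1 : ℝ) • x) x‖ = r (x - c) := fun x => by
    rw [comp_apply, e, one_smul, neg_add_eq_sub]
  refine ⟨_, k.inv, ?_, ?_⟩
  · rw [← PMod1_img k (A := {x | r (x - c) ≤ 1}) (B := closedBall 0 1) fun x => by
      rw [mem_closedBall_zero_iff, e', mem_ofPred_eq], k.inv_image]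
  · rw [← PMod1_img k (A := {x | r (x - c) = 1}) (B := sphere 0 1) fun x => by
      rw [mem_sphere_zero_iff_norm, e', mem_ofPred_eq], k.inv_image]

theorem convex_gauge {B : Set (Rn n)} (hB : Poly B) (hc : Convex ℝ B) (h0 : B ∈ 𝓝 (0 : Rn n)) :
    Gauge (gauge B) := by
  refine ⟨⟨hc.lipschitz_gauge h0, fun R => ?_⟩, fun x t ht => gauge_smul_of_nonneg ht x, ?_⟩
  · obtain ⟨L, hL, -, h⟩ := exists_adapted finite_empty hB
    refine ⟨insert 0 ((fun A => ((-A.2⁻¹) • A.1, 0)) '' L), (hL.image _).insert _, fun x _ => ?_⟩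
    rcases (gauge_nonneg (s := B) x).eq_or_lt with e | e
    · exact ⟨0, mem_insert _ _, by simp [← e]⟩
    have g1 : ∀ t : ℝ, 0 ≤ t → gauge B (t • (gauge B x)⁻¹ • x) = t := fun t ht => by
      rw [gauge_smul_of_nonneg ht, gauge_smul_of_nonneg (inv_nonneg.2 e.le), smul_eq_mul,
        smul_eq_mul, inv_mul_cancel₀ e.ne', mul_one]
    obtain ⟨A, hA, a1, a2⟩ : ∃ A ∈ L, ev A ((gauge B x)⁻¹ • x) = 0 ∧ A.2 ≠ 0 := by
      generalize (gauge B x)⁻¹ • x = p at g1
      by_contra! k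
      have m : p ∈ B := hB.1.isClosed.closure_subset
        ((gauge_le_one_iff_mem_closure hc h0).1 (by simpa using (g1 1 zero_le_one).le))
      have d : p ∈ fdir L p := fun A hA e => by simpa [ev, k A hA e] using e
      obtain ⟨ε, e0, hε⟩ := face_open hL (mem_face_self L p)
      have n0 := norm_nonneg p
      have t0 : 0 < ε / (‖p‖ + 1) := by positivity
      have e1 : (1 + ε / (‖p‖ + 1)) • p - p = (ε / (‖p‖ + 1)) • p := by
        rw [add_smul, one_smul, add_sub_cancel_left]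
      have := gauge_le_one_of_mem (h p m (hε ((1 + ε / (‖p‖ + 1)) • p)
        (e1 ▸ Submodule.smul_mem _ _ d) (by
          rw [e1, norm_smul, Real.norm_of_nonneg t0.le, div_mul_eq_mul_div, div_lt_iff₀ (by positivity)]
          nlinarith)))
      rw [g1 _ (by positivity)] at this
      linarith
    refine ⟨_, mem_insert_of_mem _ ⟨A, hA, rfl⟩, ?_⟩
    simp only [ev, map_smul, smul_eq_mul] at a1
    simp only [_root_.smul_apply, smul_eq_mul, add_zero]
    field_simp at a1 ⊢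
    linarith
  · obtain ⟨R, hR, k⟩ := hB.1.isBounded.subset_closedBall_lt 0 0
    exact ⟨R⁻¹, inv_pos.2 hR, fun x => by
      rw [inv_mul_eq_div]
      exact le_gauge_of_subset_closedBall (absorbent_nhds_zero h0) hR.le k⟩

theorem convex_ball {B : Set (Rn n)} (hB : Poly B) (hc : Convex ℝ B) (hne : (interior B).Nonempty) :
    Ball B (frontier B) := by
  obtain ⟨c, h⟩ := hne
  have e : (fun x => x - c) '' B = (Homeomorph.addLeft c) ⁻¹' B := by
    ext x
    exact ⟨fun ⟨y, hy, k⟩ => by simpa [← k] using hy, fun k => ⟨_, k, by simp⟩⟩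
  have p := hB.image (TP.id'.sub (TP.const c))
  rw [e] at p
  have c1 : Convex ℝ ((Homeomorph.addLeft c) ⁻¹' B) := hc.translate_preimage_right c
  have c2 : (Homeomorph.addLeft c) ⁻¹' B ∈ 𝓝 (0 : Rn n) :=
    (Homeomorph.addLeft c).continuous.continuousAt.preimage_mem_nhds
      (by simpa using mem_interior_iff_mem_nhds.1 h)
  convert gauge_ball (convex_gauge p c1 c2) c using 1
  · ext x
    rw [mem_ofPred_eq, gauge_le_one_iff_mem_closure c1 c2, p.1.isClosed.closure_eq]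
    simp
  · ext x
    rw [mem_ofPred_eq, gauge_eq_one_iff_mem_frontier c1 c2, ← Homeomorph.preimage_frontier]
    simp

end BEp
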