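import Pool.Agent.Work.MP_f0515e_an.D3.ALoc

/-! A level curve which bounds a flat disc missing the surface cuts the surface into two pieces. -/

open Set Metric Filter Topology Function BEv
open scoped NNReal

noncomputable section
namespace BEp

theorem split_top {X : Type} [MetricSpace X] {S J : Set X} (hS : IsClosed S) (hJ : IsCompact J)
    (hs : J ⊆ S) (cJ : IsPreconnected J) (hL : Lift S) {P M N : X → Set X}
    (hN : ∀ x ∈ J, IsOpen (N x) ∧ x ∈ N x ∧ IsClosed (P x) ∧ IsClosed (M x) ∧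
      ∀ y ∈ N x, (y ∈ S ↔ y ∈ P x ∪ M x) ∧ (y ∈ J ↔ y ∈ P x ∩ M x))
    (hc : ∀ x ∈ J, ∀ x' ∈ J, ∀ z ∈ J, z ∈ N x → z ∈ N x' → ∀ᶠ y in 𝓝 z, y ∈ P x ↔ y ∈ P x') :
    ∃ D₁ D₂, IsClosed D₁ ∧ IsClosed D₂ ∧ D₁ ∪ D₂ = S ∧ D₁ ∩ D₂ = J ∧
      ∀ x ∈ J, ∀ᶠ y in 𝓝 x, (y ∈ D₁ ↔ y ∈ P x) ∧ (y ∈ D₂ ↔ y ∈ M x) := by
  classical
  have hr : ∀ x ∈ J, ∃ r > 0, closedBall x (2 * r) ⊆ N x := fun x hx => by
    obtain ⟨r, h0, h1⟩ := nhds_basis_closedBall.mem_iff.1 ((hN x hx).1.mem_nhds (hN x hx).2.1)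
    exact ⟨r / 2, half_pos h0, by rwa [mul_div_cancel₀ _ two_ne_zero]⟩
  choose! r r0 rN using hr
  obtain ⟨F, hF, hcov⟩ := hJ.elim_nhds_subcover (fun x => ball x (r x))
    fun x hx => ball_mem_nhds x (r0 x hx)
  obtain ⟨φ, hφ⟩ : ∃ φ : X → X → ℝ, φ = fun x y => max 0 (min 1 (2 - dist y x / r x)) := ⟨_, rfl⟩
  have φc : ∀ x, Continuous (φ x) := fun x => by rw [hφ]; fun_prop
  have φ0 : ∀ x y, 0 ≤ φ x y := fun x y => by rw [hφ]; exact le_max_left _ _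
  have φ1 : ∀ x ∈ J, ∀ y ∈ ball x (r x), φ x y = 1 := fun x hx y hy => by
    have : dist y x / r x < 1 := (div_lt_one (r0 x hx)).2 hy
    simp only [hφ]
    rw [min_eq_left (by linarith), max_eq_right zero_le_one]
  have φz : ∀ x ∈ J, ∀ z, z ∉ N x → ∀ᶠ y in 𝓝 z, φ x y = 0 := fun x hx z hz => by
    filter_upwards [isClosed_closedBall.isOpen_compl.mem_nhds fun k => hz (rN x hx k)] with y hy
    have : 2 < dist y x / r x := (lt_div_iff₀ (r0 x hx)).2 (not_le.1 hy)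
    simp only [hφ]
    exact max_eq_left ((min_le_right _ _).trans (by linarith))
  obtain ⟨σ, hσ⟩ : ∃ σ : X → X → ℝ, σ = fun x y => if y ∈ P x then 1 else -1 := ⟨_, rfl⟩
  have σ1 : ∀ x y, y ∈ P x → σ x y = 1 := fun x y h => by simp only [hσ, if_pos h]
  have σ2 : ∀ x y, y ∉ P x → σ x y = -1 := fun x y h => by simp only [hσ, if_neg h]
  obtain ⟨s, hs'⟩ : ∃ s : X → ℝ, s = fun y => max (-1) (min 1 (∑ x ∈ F, φ x y * σ x y)) := ⟨_, rfl⟩
  have sc : ∀ z ∈ S, z ∉ J → ContinuousWithinAt s S z := fun z hz hz' => by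
    rw [hs']
    refine continuousWithinAt_const.max (continuousWithinAt_const.min
      (tendsto_finsetSum _ fun x hx => ?_))
    obtain ⟨n1, -, n3, n4, n5⟩ := hN x (hF x hx)
    by_cases h : z ∈ N x
    · refine (φc x).continuousWithinAt.mul (tendsto_const_nhds.congr' ?_)
      by_cases k : z ∈ P x
      · filter_upwards [self_mem_nhdsWithin, mem_nhdsWithin_of_mem_nhds (n1.mem_nhds h),
          mem_nhdsWithin_of_mem_nhds (n4.isOpen_compl.mem_nhds fun e => hz' ((n5 z h).2.2 ⟨k, e⟩))]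
          with y h1 h2 h3
        rw [σ1 x z k, σ1 x y (((n5 y h2).1.1 h1).resolve_right h3)]
      · filter_upwards [mem_nhdsWithin_of_mem_nhds (n3.isOpen_compl.mem_nhds k)] with y h1
        rw [σ2 x z k, σ2 x y h1]
    · refine tendsto_const_nhds.congr' ?_
      filter_upwards [mem_nhdsWithin_of_mem_nhds (φz x (hF x hx) z h)] with y h1
      rw [h1, (φz x (hF x hx) z h).self_of_nhds, zero_mul, zero_mul]
  have sl : ∀ z ∈ J, ∀ᶠ y in 𝓝 z, s y = σ z y := fun z hz => by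
    obtain ⟨x₀, h0, h1⟩ := mem_iUnion₂.1 (hcov hz)
    have h2 : ∀ᶠ y in 𝓝 z, ∀ x ∈ F, φ x y * σ x y = φ x y * σ z y :=
      (eventually_all_finset F).2 fun x hx => by
        by_cases h : z ∈ N x
        · filter_upwards [hc x (hF x hx) z hz z hz h (hN z hz).2.1] with y hy
          simp only [hσ, hy]
        · filter_upwards [φz x (hF x hx) z h] with y hy
          rw [hy, zero_mul, zero_mul]
    filter_upwards [h2, isOpen_ball.mem_nhds h1] with y h3 h4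
    have h5 : 1 ≤ ∑ x ∈ F, φ x y :=
      (φ1 x₀ (hF _ h0) y h4).ge.trans (Finset.single_le_sum (fun x _ => φ0 x y) h0)
    simp only [hs']
    rw [Finset.sum_congr rfl h3, ← Finset.sum_mul]
    by_cases k : y ∈ P z
    · rw [σ1 z y k, mul_one, min_eq_left h5, max_eq_right (by norm_num)]
    · rw [σ2 z y k]
      exact max_eq_left ((min_le_right _ _).trans (by linarith))
  have half : ∀ z y, ((σ z y / 2 : ℝ) : UnitAddCircle) = ((1 / 2 : ℝ) : UnitAddCircle) :=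
    fun z y => by
      by_cases k : y ∈ P z
      · rw [σ1 z y k]
      · rw [σ2 z y k, ← AddCircle.coe_add_period 1 (-1 / 2 : ℝ)]
        norm_num
  obtain ⟨g, gc, hg⟩ := hL (fun y => ((s y / 2 : ℝ) : UnitAddCircle)) fun z hz => by
    by_cases k : z ∈ J
    · refine ContinuousAt.continuousWithinAt (continuousAt_const.congr (f := fun _ =>
        ((1 / 2 : ℝ) : UnitAddCircle)) ?_)
      filter_upwards [sl z k] with y hy
      rw [hy, half]
    · exact (AddCircle.continuous_mk' 1).continuousAt.comp_continuousWithinAt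
        ((sc z hz k).div_const 2)
  obtain ⟨m, hm⟩ := lift_uniq cJ (ψ := fun _ => (1 / 2 : ℝ)) continuousOn_const (gc.mono hs)
    fun x hx => by rw [hg x (hs hx), (sl x hx).self_of_nhds, half]
  have int : ∀ a b : ℝ, (a : UnitAddCircle) = b → ∃ j : ℤ, a - b = j := fun a b h => by
    obtain ⟨j, hj⟩ := (AddCircle.coe_eq_zero_iff (1 : ℝ)).1
      (show ((a - b : ℝ) : UnitAddCircle) = 0 by rw [AddCircle.coe_sub, h, sub_self])
    exact ⟨j, by rw [← hj, zsmul_eq_mul, mul_one]⟩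
  have gl : ∀ z ∈ J, ∀ᶠ y in 𝓝 z, y ∈ S → g y - s y / 2 = 1 / 2 + m - σ z y / 2 := fun z hz => by
    have h1 := eventually_nhdsWithin_iff.1 ((gc z (hs hz)).eventually (ball_mem_nhds _ one_pos))
    filter_upwards [h1, sl z hz] with y h2 h3 hy
    obtain ⟨j, hj⟩ := int _ (1 / 2) ((hg y hy).trans (by rw [h3, half]))
    have h4 := h2 hy
    rw [Real.dist_eq, hm z hz, show g y - (1 / 2 + m) = ((j - m : ℤ) : ℝ) by
      push_cast; linarith, ← Int.cast_abs, ← Int.cast_one, Int.cast_lt, Int.abs_lt_one_iff] at h4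
    have h5 : (j : ℝ) = m := by exact_mod_cast sub_eq_zero.1 h4
    rw [h3]
    linarith
  have kc : ∀ z ∈ S, z ∉ J → ContinuousWithinAt (fun y => g y - s y / 2) S z := fun z hz k =>
    (gc z hz).sub ((sc z hz k).div_const 2)
  have kn : ∀ y ∈ S, g y - s y / 2 ≠ 1 / 2 + m := fun y hy e => by
    obtain ⟨j, hj⟩ := int _ _ (hg y hy)
    have : (2 * j : ℝ) = 2 * m + 1 := by linarith
    have : 2 * j = 2 * m + 1 := by exact_mod_cast this
    omega
  have cl : ∀ A ⊆ S, (∀ z ∈ S, z ∉ J → z ∈ closure A → z ∈ A) → IsClosed (J ∪ A) :=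
    fun A hA h => isClosed_of_closure_subset fun z hz => by
      rw [closure_union, hJ.isClosed.closure_eq] at hz
      by_cases k : z ∈ J
      · exact Or.inl k
      · have := hz.resolve_left k
        exact Or.inr (h z (closure_minimal hA hS this) k this)
  refine ⟨J ∪ {y ∈ S | g y - s y / 2 < 1 / 2 + m}, J ∪ {y ∈ S | 1 / 2 + m < g y - s y / 2},
    cl _ (sep_subset _ _) fun z hz k h => ⟨hz, lt_of_le_of_ne (ContinuousWithinAt.closure_le h
      ((kc z hz k).mono (sep_subset _ _)) continuousWithinAt_const fun y hy => hy.2.le) (kn z hz)⟩,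
    cl _ (sep_subset _ _) fun z hz k h => ⟨hz, lt_of_le_of_ne (ContinuousWithinAt.closure_le h
      continuousWithinAt_const ((kc z hz k).mono (sep_subset _ _)) fun y hy => hy.2.le)
      (kn z hz).symm⟩, ?_, ?_, fun x hx => ?_⟩
  · refine Subset.antisymm (union_subset (union_subset hs (sep_subset _ _))
      (union_subset hs (sep_subset _ _))) fun y hy => ?_
    exact (lt_or_gt_of_ne (kn y hy)).imp (fun k => Or.inr ⟨hy, k⟩) fun k => Or.inr ⟨hy, k⟩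
  · refine Subset.antisymm ?_ (subset_inter subset_union_left subset_union_left)
    rintro y ⟨h1 | h1, h2 | h2⟩
    exacts [h1, h1, h2, absurd h1.2 h2.2.not_gt]
  · obtain ⟨n1, n2, -, -, n5⟩ := hN x hx
    filter_upwards [gl x hx, n1.mem_nhds n2] with y h1 h2
    obtain ⟨h3, h4⟩ := n5 y h2
    by_cases k : y ∈ P x
    · have hy := h3.2 (Or.inl k)
      have h5 := h1 hy
      rw [σ1 x y k] at h5
      refine ⟨⟨fun _ => k, fun _ => Or.inr ⟨hy, by linarith⟩⟩, ?_, fun e => Or.inl (h4.2 ⟨k, e⟩)⟩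
      rintro (e | e)
      · exact (h4.1 e).2
      · linarith [e.2]
    · rw [σ2 x y k] at h1
      refine ⟨⟨?_, fun e => (k e).elim⟩, ?_, fun e => Or.inr ⟨h3.2 (Or.inr e), ?_⟩⟩
      · rintro (e | e)
        · exact (h4.1 e).1
        · linarith [e.2, h1 e.1]
      · rintro (e | e)
        · exact (h4.1 e).2
        · exact (h3.1 e.1).resolve_left k
      · linarith [h1 (h3.2 (Or.inr e))]

variable {S : Set (Rn 3)} {T : Set ℝ} {D J : Set (Rn 2)} {t : ℝ} {x : Rn 3}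

theorem asp_vert (hT : T.Finite) (hv : Vert S T) {ε : ℝ} {v w : Rn 3} (h : v ∈ tc S x)
    (e : pj3 w = pj3 v) (h1 : 0 < ε * v 2) (h2 : 0 < ε * w 2) : w ∈ tc S x := by
  have k : ∀ᶠ s in 𝓝[>] (0 : ℝ), ∀ τ ∈ T, τ ∉ uIcc (x 2 + s * v 2) (x 2 + s * w 2) :=
    (eventually_all_finite hT).2 fun τ _ => by
      have c : ∀ a : ℝ, Tendsto (fun s : ℝ => x 2 + s * a) (𝓝[>] 0) (𝓝 (x 2)) := fun a =>
        (Continuous.tendsto' (by fun_prop) 0 _ (by simp)).mono_left nhdsWithin_le_nhds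
      rcases lt_trichotomy τ (x 2) with k | rfl | k
      · filter_upwards [(c (v 2)).eventually (lt_mem_nhds k), (c (w 2)).eventually (lt_mem_nhds k)]
          with s a b using notMem_uIcc_of_lt a b
      · filter_upwards [self_mem_nhdsWithin] with s hs
        have hs : 0 < s := hs
        rcases lt_trichotomy ε 0 with l | l | l
        · exact notMem_uIcc_of_gt (by nlinarith [mul_pos hs h1, neg_of_mul_pos_right h1 l.le])
            (by nlinarith [neg_of_mul_pos_right h2 l.le])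
        · simp [l] at h1
        · exact notMem_uIcc_of_lt (by nlinarith [(mul_pos_iff_of_pos_left l).1 h1])
            (by nlinarith [(mul_pos_iff_of_pos_left l).1 h2])
      · filter_upwards [(c (v 2)).eventually (gt_mem_nhds k), (c (w 2)).eventually (gt_mem_nhds k)]
          with s a b using notMem_uIcc_of_gt a b
  filter_upwards [YPLk_tc.1 h, k] with s a b
  have := hv (pj3 (x + s • v)) _ _ b (by rw [← mk3_pj3 (x + s • v)] at a; exact a)
  rw [← mk3_pj3 (x + s • w), pj3_add, pj3_smul, e, ← pj3_smul, ← pj3_add]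
  exact this

theorem asp_closed {n : ℕ} {X : Set (Rn n)} (hX : Poly X) (x : Rn n) : IsClosed (tc X x) := by
  obtain ⟨ρ, hρ, h⟩ := hX.tc_iff x
  refine isClosed_of_closure_subset fun v hv => ?_
  obtain ⟨s, h1, h2⟩ := ((YPLk_small v (half_pos hρ)).and self_mem_nhdsWithin).exists
  have c : Continuous fun w : Rn n => x + s • w := by fun_prop
  have h3 : ∀ᶠ w in 𝓝 v, ‖s • w‖ ≤ ρ :=
    ((by fun_prop : Continuous fun w : Rn n => ‖s • w‖).tendsto v).eventually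
      (eventually_le_nhds (by linarith))
  refine (tc_smul h2).1 ((h _ (by linarith)).1 (hX.1.isClosed.mem_of_frequently_of_tendsto
    (((mem_closure_iff_frequently.1 hv).and_eventually h3).mono fun w k => ?_) (c.tendsto v)))
  exact (h _ k.2).2 ((tc_smul h2).2 k.1)

theorem lk_up (hS : Poly S) (hT : T.Finite) (hv : Vert S T) (x : Rn 3) {ε : ℝ}
    (hε : ε = 1 ∨ ε = -1) : IsPreconnected {v ∈ lk S x | 0 < ε * v 2} := by
  have e2 : ε * ε = 1 := by rcases hε with rfl | rfl <;> norm_num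
  have hK : IsPreconnected {v ∈ tc S x | 0 < ε * v 2} := by
    refine isPreconnected_of_forall (mk3 0 ε) fun v hv' => ⟨segment ℝ v (mk3 0 ε), ?_,
      right_mem_segment _ _ _, left_mem_segment _ _ _, (convex_segment _ _).isPreconnected⟩
    have k : openSegment ℝ v (mk3 0 ε) ⊆ tc S x := by
      rintro _ ⟨a, b, ha, hb, -, rfl⟩
      refine asp_vert hT hv ((tc_smul ha).2 hv'.1) (ε := ε) ?_ ?_ ?_
      · rw [pj3_add, pj3_smul b, pj3_mk3, smul_zero, add_zero]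
      · have := mul_pos ha hv'.2
        simp only [Pi.smul_apply, smul_eq_mul]
        linarith
      · have := mul_pos ha hv'.2
        simp only [Pi.add_apply, Pi.smul_apply, smul_eq_mul, mk3_2]
        nlinarith
    intro w hw
    refine ⟨closure_minimal k (asp_closed hS x) (segment_subset_closure_openSegment hw), ?_⟩
    obtain ⟨a, b, ha, hb, hab, rfl⟩ := hw
    have := hv'.2
    simp only [Pi.add_apply, Pi.smul_apply, smul_eq_mul, mk3_2]
    rcases ha.eq_or_lt with rfl | ha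
    · nlinarith
    · nlinarith [mul_pos ha this]
  have hn : ∀ v : Rn 3, 0 < ε * v 2 → 0 < ‖v‖ := fun v h => norm_pos_iff.2 fun e => by
    simp [e] at h
  convert hK.image (fun v => ‖v‖⁻¹ • v) ((continuous_norm.continuousOn.inv₀
    fun v h => (hn v h.2).ne').smul continuousOn_id) using 1
  ext v
  constructor
  · rintro ⟨h1, h2⟩
    exact ⟨v, ⟨h1.2, h2⟩, by simp only [h1.1, inv_one, one_smul]⟩
  · rintro ⟨w, ⟨h1, h2⟩, rfl⟩
    have h3 := inv_pos.2 (hn w h2)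
    refine ⟨⟨by rw [norm_smul, norm_inv, norm_norm, inv_mul_cancel₀ (hn w h2).ne'],
      (tc_smul h3).2 h1⟩, ?_⟩
    have := mul_pos h3 h2
    simp only [Pi.smul_apply, smul_eq_mul]
    linarith

theorem asp_germ {n : ℕ} {S Y P M P' M' : Set (Rn n)} {x a b w : Rn n} (p : Poly P) (p' : Poly P')
    (m' : Poly M') (hA : TArc (lk P x) a b) (e : lk Y x = {a, b}) (hx : x ∈ P')
    (hu : ∀ᶠ y in 𝓝 x, y ∈ S ↔ y ∈ P ∪ M) (hu' : ∀ᶠ y in 𝓝 x, y ∈ S ↔ y ∈ P' ∪ M')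
    (hi' : ∀ᶠ y in 𝓝 x, y ∈ Y ↔ y ∈ P' ∩ M') (w1 : w ∈ lk P x) (w2 : w ∈ lk P' x)
    (w3 : w ∉ lk Y x) : ∀ᶠ y in 𝓝 x, y ∈ P → y ∈ P' := by
  have e1 := lk_congr hi'
  rw [lk_inter] at e1
  have e2 : lk P x ⊆ lk P' x ∪ lk M' x := by
    rw [← lk_union p' m', ← lk_congr hu', lk_congr hu]
    exact lk_mono subset_union_left x
  refine germ_sub p p' hx fun v hv => ?_
  by_cases k : v ∈ lk Y x
  · exact (e1 ▸ k).1
  rcases isPreconnected_iff_subset_of_disjoint_closed.1 hA.conn_open _ _ (p'.lk x).1.isClosed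
    (m'.lk x).1.isClosed (sdiff_subset.trans e2)
    (by rw [← e1, e]; exact disjoint_iff_inter_eq_empty.1 disjoint_sdiff_left) with h | h
  · exact h ⟨hv, e ▸ k⟩
  · exact (w3 (e1 ▸ ⟨w2, h ⟨w1, e ▸ w3⟩⟩)).elim

theorem asp_slant (hD : Ball D J) (hi : lay D t ∩ S = lay J t) (hx : x ∈ lay J t) :
    ¬ lk (lay D t) x ⊆ lk S x := fun h => by
  obtain ⟨a, b, -, e, hA, -⟩ := lk_disc hD hx
  obtain ⟨w, h1, h2⟩ := hA.open_ne
  exact h2 (by rw [← e, ← hi, lk_inter]; exact ⟨h1, h h1⟩)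

theorem asp_ray {P : Set (Rn 3)} {w : Rn 3} {Q : Rn 3 → Prop} (hw : w ∈ lk S x)
    (h : ∀ᶠ y in 𝓝 x, y ∈ S → Q y → y ∈ P) (hQ : ∀ s : ℝ, 0 < s → Q (x + s • w)) :
    w ∈ lk P x := by
  refine ⟨hw.1, ?_⟩
  filter_upwards [YPLk_tc.1 hw.2, (YPLk_ray x w).eventually h, self_mem_nhdsWithin]
    with s a b c using b a (hQ s c)

theorem sid_uniq (hS : Surf S) (hD : Ball D J) (hi : lay D t ∩ S = lay J t) (hx : x ∈ lay J t)
    {P M P' M' : Set (Rn 3)} (p : Poly P) (m : Poly M) (p' : Poly P') (m' : Poly M')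
    (h : Sid S (lay J t) t P M x) (h' : Sid S (lay J t) t P' M' x) :
    ∀ᶠ y in 𝓝 x, y ∈ P ↔ y ∈ P' := by
  obtain ⟨a, b, hab, e, -, hE⟩ := lk_disc hD hx
  have hxS : x ∈ S := (hi.symm ▸ hx : x ∈ lay D t ∩ S).2
  have pJ := poly_lay hD.poly' t
  have hc := hS.crc x hxS
  obtain ⟨w, w1, w2⟩ : ∃ w ∈ lk S x, w 2 ≠ 0 := by
    by_contra! k
    refine asp_slant hD hi hx (hE.trans (tcrc_sub hc tcrc_eqt fun v hv => ⟨hv.1, k v hv⟩).ge)
  have w3 : w ∉ lk (lay J t) x := fun k => w2 (hE (lk_mono (lay_mono hD.sub t) x k)).2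
  have u := h.loc.mono fun _ k => k.1
  have u' := h'.loc.mono fun _ k => k.1
  have i := h.loc.mono fun _ k => k.2.1
  have i' := h'.loc.mono fun _ k => k.2.1
  rcases w2.lt_or_gt with w2 | w2
  · have hQ : ∀ s : ℝ, 0 < s → (x + s • w) 2 < t := fun s hs => by
      have := mul_neg_of_pos_of_neg hs w2
      simp only [Pi.add_apply, Pi.smul_apply, smul_eq_mul, hx.2]
      linarith
    have w4 := asp_ray w1 (h.loc.mono fun _ k => k.2.2.2) hQ
    have w5 := asp_ray w1 (h'.loc.mono fun _ k => k.2.2.2) hQ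
    rw [union_comm] at u u'
    rw [inter_comm] at i i'
    filter_upwards [asp_germ m m' p' (lk_arc m p pJ hx hc u i e hab h.clM h.clP) e
      (i'.self_of_nhds.1 hx).1 u u' i' w4 w5 w3, asp_germ m' m p
      (lk_arc m' p' pJ hx hc u' i' e hab h'.clM h'.clP) e (i.self_of_nhds.1 hx).1 u' u i w5 w4 w3,
      u, u', i, i'] with y k1 k2 k3 k4 k5 k6
    simp only [mem_union, mem_inter_iff] at k3 k4 k5 k6
    tauto
  · have hQ : ∀ s : ℝ, 0 < s → t < (x + s • w) 2 := fun s hs => by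
      have := mul_pos hs w2
      simp only [Pi.add_apply, Pi.smul_apply, smul_eq_mul, hx.2]
      linarith
    have w4 := asp_ray w1 (h.loc.mono fun _ k => k.2.2.1) hQ
    have w5 := asp_ray w1 (h'.loc.mono fun _ k => k.2.2.1) hQ
    filter_upwards [asp_germ p p' m' (lk_arc p m pJ hx hc u i e hab h.clP h.clM) e
      (i'.self_of_nhds.1 hx).1 u u' i' w4 w5 w3, asp_germ p' p m
      (lk_arc p' m' pJ hx hc u' i' e hab h'.clP h'.clM) e (i.self_of_nhds.1 hx).1 u' u i w5 w4 w3]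
      with y k1 k2 using ⟨k1, k2⟩

/-- Cone of radius `ρ` over a subset of the unit sphere. -/
def aspC (x : Rn 3) (ρ : ℝ) (A : Set (Rn 3)) : Set (Rn 3) :=
  (fun p : ℝ × Rn 3 => x + p.1 • p.2) '' (Icc 0 ρ ×ˢ A)

theorem asp_cone {ρ : ℝ} {A : Set (Rn 3)} (hA : ∀ v ∈ A, ‖v‖ = 1) (hne : A.Nonempty) {y : Rn 3}
    (hy : ‖y - x‖ ≤ ρ) : y ∈ aspC x ρ A ↔ y = x ∨ ‖y - x‖⁻¹ • (y - x) ∈ A := by
  constructor
  · rintro ⟨⟨s, v⟩, ⟨hs, hv⟩, rfl⟩
    rcases hs.1.eq_or_lt with h | h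
    · exact Or.inl (by simp only at h ⊢; rw [← h, zero_smul, add_zero])
    · right
      simp only at h hv ⊢
      rwa [add_sub_cancel_left, norm_smul, hA v hv, mul_one, Real.norm_of_nonneg h.le,
        inv_smul_smul₀ h.ne']
  · rintro (rfl | h)
    · obtain ⟨v, hv⟩ := hne
      exact ⟨(0, v), ⟨⟨le_rfl, (norm_nonneg _).trans hy⟩, hv⟩, by simp⟩
    · refine ⟨(‖y - x‖, _), ⟨⟨norm_nonneg _, hy⟩, h⟩, ?_⟩
      have : ‖y - x‖ ≠ 0 := fun e => by simpa [e] using hA _ h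
      simp only [smul_inv_smul₀ this, add_sub_cancel]

theorem asp_bound {ρ : ℝ} {A : Set (Rn 3)} (hA : ∀ v ∈ A, ‖v‖ = 1) {y : Rn 3}
    (hy : y ∈ aspC x ρ A) : ‖y - x‖ ≤ ρ := by
  obtain ⟨⟨s, v⟩, ⟨hs, hv⟩, rfl⟩ := hy
  simp only
  rw [add_sub_cancel_left, norm_smul, hA v hv, mul_one, Real.norm_of_nonneg hs.1]
  exact hs.2

theorem asp_lk {X : Set (Rn 3)} (hX : Poly X) (hx : x ∈ X) : ∃ ρ > 0, ∀ y, ‖y - x‖ ≤ ρ →
    (y ∈ X ↔ y = x ∨ ‖y - x‖⁻¹ • (y - x) ∈ lk X x) := by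
  obtain ⟨ρ, hρ, h⟩ := hX.tc_iff x
  refine ⟨ρ, hρ, fun y hy => ?_⟩
  by_cases e : y = x
  · simp [e, hx]
  have h1 : 0 < ‖y - x‖ := norm_pos_iff.2 (sub_ne_zero.2 e)
  have h2 := h _ hy
  rw [add_sub_cancel] at h2
  rw [h2, or_iff_right e, ← tc_smul (inv_pos.2 h1)]
  exact ⟨fun k => ⟨by rw [norm_smul, norm_inv, norm_norm, inv_mul_cancel₀ h1.ne'], k⟩, fun k => k.2⟩

theorem asp_cl {ρ : ℝ} (hρ : 0 < ρ) {A Y : Set (Rn 3)} {a b : Rn 3} (h : TArc A a b)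
    (hA : ∀ v ∈ A, ‖v‖ = 1)
    (hY : ∀ y, ‖y - x‖ ≤ ρ → (y ∈ Y ↔ y = x ∨ ‖y - x‖⁻¹ • (y - x) ∈ ({a, b} : Set (Rn 3)))) :
    aspC x ρ A ⊆ closure (aspC x ρ A \ Y) := by
  have e : Icc 0 ρ ×ˢ A = closure (Ioc 0 ρ ×ˢ (A \ {a, b})) := by
    rw [closure_prod_eq, closure_Ioc hρ.ne, h.cl]
  intro z hz
  rw [aspC, e] at hz
  refine closure_mono ?_ (image_closure_subset_closure_image (by fun_prop) hz)
  rintro _ ⟨⟨s, v⟩, ⟨hs, hv⟩, rfl⟩
  have h1 : x + s • v ∈ aspC x ρ A := ⟨(s, v), ⟨⟨hs.1.le, hs.2⟩, hv.1⟩, rfl⟩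
  refine ⟨h1, fun k => ?_⟩
  have h2 : ‖s • v‖ = s := by rw [norm_smul, hA v hv.1, mul_one, Real.norm_of_nonneg hs.1.le]
  rcases (hY _ (asp_bound hA h1)).1 k with k | k
  · rw [add_eq_left.1 k, norm_zero] at h2
    exact hs.1.ne h2
  · rw [add_sub_cancel_left, h2, inv_smul_smul₀ hs.1.ne'] at k
    exact hv.2 k

/-- The upper part of the link lies in one arc, the lower part in the other one. -/
theorem asp_arcs (hS : Surf S) (hT : T.Finite) (hv : Vert S T) (hD : Ball D J)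
    (hi : lay D t ∩ S = lay J t) (hx : x ∈ lay J t) : ∃ a b A A', lk (lay J t) x = {a, b} ∧
      TArc A a b ∧ TArc A' a b ∧ A ∪ A' = lk S x ∧ A ∩ A' = {a, b} ∧
      (∀ v ∈ lk S x, 0 < v 2 → v ∈ A) ∧ ∀ v ∈ lk S x, v 2 < 0 → v ∈ A' := by
  obtain ⟨a, b, hab, e, hB, hE⟩ := lk_disc hD hx
  have hJS : lay J t ⊆ S := hi ▸ inter_subset_right
  have e0 : lk (lay D t) x ∩ lk S x = {a, b} := by rw [← lk_inter, hi, e]
  have ab : ∀ v ∈ ({a, b} : Set (Rn 3)), v 2 = 0 := fun v hv => (hE (e0.ge hv).1).2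
  obtain ⟨A, A', h1, h2, hu, hj⟩ := tcrc_split (hS.crc x (hJS hx))
    (e0.ge (Or.inl rfl)).2 (e0.ge (Or.inr rfl)).2 hab
  have side : ∀ ε : ℝ, ε = 1 ∨ ε = -1 → (∀ v ∈ lk S x, 0 < ε * v 2 → v ∈ A) ∨
      ∀ v ∈ lk S x, 0 < ε * v 2 → v ∈ A' := fun ε hε =>
    (isPreconnected_iff_subset_of_disjoint_closed.1 (lk_up hS.poly hT hv x hε) _ _
      h1.compact.isClosed h2.compact.isClosed (fun v hv => hu.symm ▸ hv.1) (by
        rw [hj]
        refine eq_empty_of_forall_notMem fun v k => ?_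
        have := k.1.2
        rw [ab v k.2, mul_zero] at this
        exact lt_irrefl _ this)).imp (fun k v a b => k ⟨a, b⟩) fun k v a b => k ⟨a, b⟩
  have bad : ∀ A A' : Set (Rn 3), TArc A a b → TArc A' a b → A ∪ A' = lk S x → A ∩ A' = {a, b} →
      (∀ v ∈ lk S x, 0 < v 2 → v ∈ A) → (∀ v ∈ lk S x, v 2 < 0 → v ∈ A) →
      (∀ v ∈ lk S x, v 2 ≤ 0) ∨ ∀ v ∈ lk S x, 0 ≤ v 2 := fun A A' h1 h2 hu hj k1 k2 => by
    by_contra! k
    obtain ⟨⟨p, p1, p2⟩, q, q1, q2⟩ := k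
    have s1 : A ⊆ lk S x := hu ▸ subset_union_left
    have s2 : A' ⊆ lk S x := hu ▸ subset_union_right
    have f : A' ⊆ eqt 2 := fun v hv => ⟨(s2 hv).1, by
      by_contra k
      exact k (ab v (hj ▸ ⟨(lt_or_gt_of_ne k).elim (k2 v (s2 hv)) (k1 v (s2 hv)), hv⟩))⟩
    have g := tcrc_sub (tcrc_glue h2 hB (Subset.antisymm
      (fun v hv => e0 ▸ ⟨hv.2, s2 hv.1⟩) (by
        rintro v (rfl | rfl)
        exacts [⟨h2.left, hB.left⟩, ⟨h2.right, hB.right⟩]))) tcrc_eqt (union_subset f hE)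
    obtain ⟨w, w1, w2⟩ := h1.conn_open.intermediate_value (f := fun v : Rn 3 => v 2)
      ⟨k2 q q1 q2, fun k => q2.ne (ab q k)⟩ ⟨k1 p p1 p2, fun k => p2.ne' (ab p k)⟩
      (continuous_apply 2).continuousOn ⟨q2.le, p2.le⟩
    rcases (g ▸ ⟨(s1 w1.1).1, w2⟩ : w ∈ A' ∪ lk (lay D t) x) with k | k
    · exact w1.2 (hj ▸ ⟨w1.1, k⟩)
    · exact w1.2 (e0 ▸ ⟨k, s1 w1.1⟩)
  have hu' := (union_comm _ _).trans hu
  have hj' := (inter_comm _ _).trans hj
  have s1 := side 1 (Or.inl rfl)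
  have s2 := side (-1) (Or.inr rfl)
  simp only [one_mul, neg_mul, neg_pos] at s1 s2
  rcases s1 with s1 | s1 <;> rcases s2 with s2 | s2
  · rcases bad A A' h1 h2 hu hj s1 s2 with k | k
    · exact ⟨a, b, A', A, e, h2, h1, hu', hj', fun v p q => absurd (k v p) q.not_ge, s2⟩
    · exact ⟨a, b, A, A', e, h1, h2, hu, hj, s1, fun v p q => absurd (k v p) q.not_ge⟩
  · exact ⟨a, b, A, A', e, h1, h2, hu, hj, s1, s2⟩
  · exact ⟨a, b, A', A, e, h2, h1, hu', hj', s1, s2⟩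
  · rcases bad A' A h2 h1 hu' hj' s1 s2 with k | k
    · exact ⟨a, b, A, A', e, h1, h2, hu, hj, fun v p q => absurd (k v p) q.not_ge, s2⟩
    · exact ⟨a, b, A', A, e, h2, h1, hu', hj', s1, fun v p q => absurd (k v p) q.not_ge⟩

theorem sid_exists (hS : Surf S) (hT : T.Finite) (hv : Vert S T) (hD : Ball D J)
    (hi : lay D t ∩ S = lay J t) (hx : x ∈ lay J t) : ∃ P M, Poly P ∧ Poly M ∧
      ∀ᶠ z in 𝓝 x, z ∈ lay J t → Sid S (lay J t) t P M z := by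
  obtain ⟨a, b, A, A', e, h1, h2, hu, hj, k1, k2⟩ := asp_arcs hS hT hv hD hi hx
  have hJS : lay J t ⊆ S := hi ▸ inter_subset_right
  have pJ := poly_lay hD.poly' t
  obtain ⟨ρ₁, r1, l1⟩ := asp_lk hS.poly (hJS hx)
  obtain ⟨ρ₂, r2, l2⟩ := asp_lk pJ hx
  rw [e] at l2
  have hρ := lt_min r1 r2
  replace l1 := fun y (hy : ‖y - x‖ ≤ min ρ₁ ρ₂) => l1 y (hy.trans (min_le_left _ _))
  replace l2 := fun y (hy : ‖y - x‖ ≤ min ρ₁ ρ₂) => l2 y (hy.trans (min_le_right _ _))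
  generalize min ρ₁ ρ₂ = ρ at hρ l1 l2
  have n1 : ∀ v ∈ A, ‖v‖ = 1 := fun v hv => (hu ▸ Or.inl hv : v ∈ lk S x).1
  have n2 : ∀ v ∈ A', ‖v‖ = 1 := fun v hv => (hu ▸ Or.inr hv : v ∈ lk S x).1
  have loc : ∀ y, ‖y - x‖ ≤ ρ → (y ∈ S ↔ y ∈ aspC x ρ A ∪ aspC x ρ A') ∧
      (y ∈ lay J t ↔ y ∈ aspC x ρ A ∩ aspC x ρ A') := fun y hy => by
    rw [mem_union, mem_inter_iff, asp_cone n1 ⟨a, h1.left⟩ hy, asp_cone n2 ⟨a, h2.left⟩ hy, l1 y hy,
      l2 y hy, ← hu, ← hj, mem_union, mem_inter_iff]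
    tauto
  have c : ∀ A : Set (Rn 3), IsCompact A → IsClosed (aspC x ρ A) := fun A hA =>
    ((isCompact_Icc.prod hA).image (by fun_prop)).isClosed
  have u : aspC x ρ A ∪ aspC x ρ A' = S ∩ closedBall x ρ := Set.ext fun y =>
    ⟨fun k => (fun hy => ⟨(loc y hy).1.2 k, mem_closedBall_iff_norm.2 hy⟩)
      (k.elim (asp_bound n1) (asp_bound n2)),
      fun k => (loc y (mem_closedBall_iff_norm.1 k.2)).1.1 k.1⟩
  have i : aspC x ρ A ∩ aspC x ρ A' = lay J t ∩ closedBall x ρ := Set.ext fun y =>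
    ⟨fun k => (fun hy => ⟨(loc y hy).2.2 k, mem_closedBall_iff_norm.2 hy⟩) (asp_bound n1 k.1),
      fun k => (loc y (mem_closedBall_iff_norm.1 k.2)).2.1 k.1⟩
  have pS := hS.poly.inter (Poly.closedBall x ρ)
  have pJ' := pJ.inter (Poly.closedBall x ρ)
  refine ⟨_, _, poly_piece pS pJ' (c A h1.compact) (c A' h2.compact) u i,
    poly_piece pS pJ' (c A' h2.compact) (c A h1.compact) ((union_comm _ _).trans u)
      ((inter_comm _ _).trans i), ?_⟩
  have near : ∀ᶠ y in 𝓝 x, ‖y - x‖ ≤ ρ :=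
    (closedBall_mem_nhds x hρ : _ ∈ _) |> fun k => mem_of_superset k fun y hy =>
      mem_closedBall_iff_norm.1 hy
  filter_upwards [near.eventually_nhds] with z hz hzJ
  have hm := (loc z hz.self_of_nhds).2.1 hzJ
  refine ⟨hz.mono fun y hy => ⟨(loc y hy).1, (loc y hy).2, fun p q => ?_, fun p q => ?_⟩,
    asp_cl hρ h1 n1 l2 hm.1, asp_cl hρ h2 n2 l2 hm.2⟩
  · refine (asp_cone n1 ⟨a, h1.left⟩ hy).2 (((l1 y hy).1 p).imp_right fun k => k1 _ k ?_)
    exact mul_pos (inv_pos.2 (norm_pos_iff.2 (sub_ne_zero.2 fun e => q.ne' (e ▸ hx.2))))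
      (sub_pos.2 (hx.2.trans_lt q))
  · refine (asp_cone n2 ⟨a, h2.left⟩ hy).2 (((l1 y hy).1 p).imp_right fun k => k2 _ k ?_)
    exact mul_neg_of_pos_of_neg (inv_pos.2 (norm_pos_iff.2 (sub_ne_zero.2 fun e =>
      q.ne (e ▸ hx.2)))) (sub_neg.2 (q.trans_eq hx.2.symm))

theorem vert_split (hS : Surf S) (hL : Lift S) (hT : T.Finite) (hv : Vert S T) (hD : Ball D J)
    (hi : lay D t ∩ S = lay J t) : ∃ D₁ D₂, IsClosed D₁ ∧ IsClosed D₂ ∧ D₁ ∪ D₂ = S ∧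
      D₁ ∩ D₂ = lay J t ∧ lay J t ⊆ closure (D₁ \ lay J t) ∧ lay J t ⊆ closure (D₂ \ lay J t) := by
  have h : ∀ x ∈ lay J t, ∃ P M N, Poly P ∧ Poly M ∧ IsOpen N ∧ x ∈ N ∧
      (∀ z ∈ N, z ∈ lay J t → Sid S (lay J t) t P M z) ∧
      ∀ y ∈ N, (y ∈ S ↔ y ∈ P ∪ M) ∧ (y ∈ lay J t ↔ y ∈ P ∩ M) := fun x hx => by
    obtain ⟨P, M, p, m, k⟩ := sid_exists hS hT hv hD hi hx
    obtain ⟨N, h1, h2, h3⟩ := _root_.eventually_nhds_iff.1 (k.and (k.self_of_nhds hx).loc)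
    exact ⟨P, M, N, p, m, h2, h3, fun z hz => (h1 z hz).1,
      fun y hy => ⟨(h1 y hy).2.1, (h1 y hy).2.2.1⟩⟩
  choose! P M N p m n1 n2 n3 n4 using h
  have cJ := (crc_lay t).2 hD.crc
  obtain ⟨D₁, D₂, c1, c2, hu, hj, k⟩ := split_top hS.poly.1.isClosed cJ.poly.1
    (hi ▸ inter_subset_right) cJ.tcrc.conn.isPreconnected hL (P := P) (M := M) (N := N)
    (fun x hx => ⟨n1 x hx, n2 x hx, (p x hx).1.isClosed, (m x hx).1.isClosed, n4 x hx⟩)
    fun x hx x' hx' z hz h1 h2 => sid_uniq hS hD hi hz (p x hx) (m x hx) (p x' hx') (m x' hx')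
      (n3 x hx z h1 hz) (n3 x' hx' z h2 hz)
  refine ⟨D₁, D₂, c1, c2, hu, hj, fun x hx => ?_, fun x hx => ?_⟩
  · exact mem_closure_iff_frequently.2 ((mem_closure_iff_frequently.1
      (n3 x hx x (n2 x hx) hx).clP).mp ((k x hx).mono fun y a b => ⟨a.1.2 b.1, b.2⟩))
  · exact mem_closure_iff_frequently.2 ((mem_closure_iff_frequently.1
      (n3 x hx x (n2 x hx) hx).clM).mp ((k x hx).mono fun y a b => ⟨a.2.2 b.1, b.2⟩))

end BEp
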