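import Pool.Agent.Work.MP_f0515e_an.D3.ADefs

/-! Gaps and walls of a vertical surface.
`gap_exists`: if no level is above `x 2` the vertical ray lies in `S`; take max and min of finite sets. `gap_wall`: `Vert` inside, closedness at the ends.
`vert_crc`: `level_crc` with `reg_of_prod` (`v = e₂`; `T` is closed), a circle `C` in a level is `lay (pj3 '' C) s`, `crc_lay`.
`wal_finite`: finitely many middle heights; in each, a circle of the section lies in one piece of `level_crc` or use `crc_finite`. About 170 lines. -/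

open Set Metric Filter Topology Function BEv
open scoped NNReal

noncomputable section
namespace BEp

variable {S : Set (Rn 3)} {T : Set ℝ} {x : Rn 3}

theorem gap_exists (hS : IsCompact S) (hT : T.Finite) (hv : Vert S T) (hx : x ∈ S)
    (h : x 2 ∉ T) : ∃ a b, Gap T a b ∧ a < x 2 ∧ x 2 < b := by
  obtain ⟨R, hR⟩ := hS.isBounded.exists_norm_le
  have b := abs_le.1 ((norm_le_pi_norm x 2).trans (hR x hx))
  have k : ∀ c, R < |c| → ∃ τ ∈ T, τ ∈ uIcc (x 2) c := fun c hc => by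
    by_contra! l
    have := hR _ (hv (pj3 x) _ c l (by rwa [mk3_pj3]))
    rw [norm_mk3] at this
    exact hc.not_ge ((le_max_right _ _).trans this)
  have ne : ∀ τ ∈ T, τ ≠ x 2 := fun τ hτ e => h (e ▸ hτ)
  obtain ⟨p, p1, p2⟩ := k (R + 1) ((lt_add_one R).trans_le (le_abs_self _))
  obtain ⟨q, q1, q2⟩ := k (-(R + 1)) ((lt_add_one R).trans_le (by rw [abs_neg]; exact le_abs_self _))
  rw [uIcc_of_le (by linarith [b.2])] at p2
  rw [uIcc_of_ge (by linarith [b.1])] at q2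
  obtain ⟨a, ha, ma⟩ := exists_max_image {τ ∈ T | τ < x 2} id (hT.subset (sep_subset _ _))
    ⟨q, q1, q2.2.lt_of_ne (ne q q1)⟩
  obtain ⟨c, hc, mc⟩ := exists_min_image {τ ∈ T | x 2 < τ} id (hT.subset (sep_subset _ _))
    ⟨p, p1, p2.1.lt_of_ne' (ne p p1)⟩
  exact ⟨a, c, ⟨ha.1, hc.1, ha.2.trans hc.2, fun τ hτ => (ne τ hτ).lt_or_gt.imp
    (fun l => ma τ ⟨hτ, l⟩) fun l => mc τ ⟨hτ, l⟩⟩, ha.2, hc.2⟩

theorem AWal_not {a b s : ℝ} (hg : Gap T a b) (hs : s ∈ Ioo a b) : s ∉ T :=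
  fun h => (hg.2.2.2 s h).elim hs.1.not_ge hs.2.not_ge

theorem gap_wall (hS : IsClosed S) (hv : Vert S T) {a b : ℝ} (hg : Gap T a b) {y : Rn 2} {s : ℝ}
    (hs : s ∈ Ioo a b) (h : mk3 y s ∈ S) : ∀ s' ∈ Icc a b, mk3 y s' ∈ S := by
  rw [← closure_Ioo hg.2.2.1.ne]
  exact closure_minimal (t := mk3 y ⁻¹' S) (fun s' hs' => hv y s s'
    (fun τ hτ l => AWal_not hg (ordConnected_Ioo.uIcc_subset hs hs' l) hτ) h)
    (hS.preimage ((TP.const y).mk3 TP.id').continuous)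

theorem AWal_rg (hS : Surf S) (hT : T.Finite) (hv : Vert S T) (hx : x ∈ S) (h : x 2 ∉ T) :
    Rg S (fun y => y 2) x := by
  refine reg_of_prod (v := mk3 0 1) hS.poly hx (hS.crc x hx) (TP.id'.apply 2) ?_
  obtain ⟨l, u, m, k⟩ := mem_nhds_iff_exists_Ioo_subset.1 (hT.isClosed.isOpen_compl.mem_nhds h)
  have c1 : Continuous fun p : Rn 3 × ℝ => p.1 2 := by fun_prop
  have c2 : Continuous fun p : Rn 3 × ℝ => p.1 2 + p.2 := by fun_prop
  filter_upwards [(isOpen_Ioo.preimage c1).mem_nhds (x := (x, 0)) m,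
    (isOpen_Ioo.preimage c2).mem_nhds (x := (x, 0)) (by simpa using m)] with p h1 h2
  have e : p.1 + p.2 • mk3 0 1 = mk3 (pj3 p.1) (p.1 2 + p.2) := by
    ext i
    fin_cases i <;> simp
  rw [e]
  refine ⟨⟨fun l => ?_, fun l => ?_⟩, rfl⟩
  · exact mk3_pj3 p.1 ▸ hv _ _ _ (fun τ hτ l => k (ordConnected_Ioo.uIcc_subset h2 h1 l) hτ) l
  · exact hv _ _ _ (fun τ hτ l => k (ordConnected_Ioo.uIcc_subset h1 h2 l) hτ) (by rwa [mk3_pj3])

theorem AWal_lay {C : Set (Rn 3)} {s : ℝ} (h : ∀ x ∈ C, x 2 = s) : lay (pj3 '' C) s = C := by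
  refine subset_antisymm ?_ fun x hx => ⟨⟨x, hx, rfl⟩, h x hx⟩
  rintro x ⟨⟨y, hy, e⟩, rfl⟩
  rwa [← mk3_pj3 x, ← e, ← h y hy, mk3_pj3]

theorem vert_crc (hS : Surf S) (hT : T.Finite) (hv : Vert S T) {y : Rn 2} {s : ℝ} (hs : s ∉ T)
    (h : mk3 y s ∈ S) : ∃ C, Crc C ∧ y ∈ C ∧ lay C s ⊆ S := by
  obtain ⟨𝒞, -, e, -, c⟩ := level_crc hS.poly (TP.id'.apply 2) (t := s)
    fun x hx e => AWal_rg hS hT hv hx (by rwa [← e] at hs)
  obtain ⟨C, hC, m⟩ : mk3 y s ∈ ⋃₀ 𝒞 := e ▸ ⟨h, rfl⟩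
  have k := e ▸ subset_sUnion_of_mem hC
  have l := AWal_lay fun x hx => (k hx).2
  exact ⟨pj3 '' C, (crc_lay s).1 (l.symm ▸ c C hC), ⟨_, m, pj3_mk3 y s⟩,
    l.symm ▸ fun x hx => (k hx).1⟩

/-- Every point off the levels lies on a wall. -/
theorem wal_exists (hS : Surf S) (hT : T.Finite) (hv : Vert S T) (hx : x ∈ S) (h : x 2 ∉ T) :
    ∃ a b C, Gap T a b ∧ a < x 2 ∧ x 2 < b ∧ ((a + b) / 2, C) ∈ Wal S T ∧ pj3 x ∈ C := by
  obtain ⟨a, b, hg, h1, h2⟩ := gap_exists hS.poly.1 hT hv hx h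
  have m : (a + b) / 2 ∈ Ioo a b := ⟨by linarith, by linarith⟩
  obtain ⟨C, c1, c2, c3⟩ := vert_crc hS hT hv (AWal_not hg m) (gap_wall hS.poly.1.isClosed hv hg
    (y := pj3 x) ⟨h1, h2⟩ (by rwa [mk3_pj3]) _ (Ioo_subset_Icc_self m))
  exact ⟨a, b, C, hg, h1, h2, ⟨⟨a, b, hg, rfl⟩, c1, c3⟩, c2⟩

theorem wal_finite (hS : Surf S) (hT : T.Finite) (hv : Vert S T) : (Wal S T).Finite := by
  have f := ((hT.prod hT).image fun p => (p.1 + p.2) / 2).diff (t := T)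
  refine (f.biUnion fun s hs => (crc_finite (poly_eq hS.poly (TP.id'.apply 2) s) fun x hx =>
    ?_).image fun C => (s, pj3 '' C)).subset ?_
  · have := (AWal_rg hS hT hv hx.1 fun l => hs.2 (hx.2 ▸ l)).two
    exact hx.2 ▸ finite_of_ncard_ne_zero (by rw [this]; exact two_ne_zero)
  · rintro ⟨s, C⟩ ⟨⟨a, b, hg, e⟩, c1, c2⟩
    have := hg.2.2.1
    refine mem_biUnion ⟨⟨(a, b), ⟨hg.1, hg.2.1⟩, e.symm⟩,
      AWal_not hg ⟨by linarith, by linarith⟩⟩ ⟨lay C s, ⟨(crc_lay s).2 c1,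
        fun x hx => ⟨c2 hx, hx.2⟩⟩, Prod.ext rfl ?_⟩
    simp [lay_eq, image_image]

end BEp
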