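import Pool.Agent.Work.MP_f0515e_an.D3.ALoc
import Pool.Agent.Work.MP_f0515e_an.D3.AWal

/-! A vertical surface is a prism or has a flat compressing disc.
`arc_first`: `sInf` of the parameters in `F`, `PArc_sub`. `crc_cross`: `crc_split` at `y` and `z`, both arcs meet `J` (`Ball.side`), `arc_first` on both,
`arc_glue`; the half open arcs are connected (`TArc.conn_half`), miss `J` and contain `y`. `prism_sph`: `len_prism`, `Len.ball`, `Sph.surf`, `gap_wall`, `surf_sub`.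
`vert_step`: `G` = union of the circles of all walls, a polyhedron with `PC 1`, so `crc_finite` applies (`PC.lk_finite`). Candidates: discs `D` with `Ball D J`, `J ⊆ G`,
`t ∈ T`, `lay J t ⊆ S`, `¬ lay D t ⊆ S`; finitely many (`Ball.uniq`, `Ball.crc`). A wall `C` whose disc (`crc_ball`) is not a candidate gives `prism_sph`. No candidate: take any wall
(`surf_not_flat`, `wal_exists`). Else take a minimal candidate `D`. If some wall `C` of a gap with end `t` meets `D \ J`: if `C ⊆ D` its disc is smaller (`Ball.mono`; equal discs have equal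
frontiers), prism; otherwise `crc_cross`, `cut2`, both halves are smaller (`Len.ball`, `Len.ne`) with boundary in `G`, so lie in `S`, against the choice of `D`.
If no such wall exists, `{y ∈ D \ J | mk3 y t ∈ S}` is closed and open (`flat_open`, `wal_exists`) in the connected set `D \ J`, hence empty. About 260 lines. -/

open Set Metric Filter Topology Function BEv
open scoped NNReal

noncomputable section
namespace BEp

variable {n : ℕ}

theorem arc_first {A F : Set (Rn n)} {a b : Rn n} (h : Arc A a b) (hF : IsClosed F) (ha : a ∉ F)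
    (hne : (A ∩ F).Nonempty) : ∃ p A₁, Arc A₁ a p ∧ A₁ ⊆ A ∧ A₁ ∩ F = {p} := by
  obtain ⟨γ, h1, h2, rfl, rfl, rfl⟩ := h
  obtain ⟨_, ⟨s, hs, rfl⟩, hs'⟩ := hne
  obtain ⟨t, ⟨ht, ht'⟩, hm⟩ := (isCompact_Icc.inter_right (hF.preimage h1.continuous)
    : IsCompact (Icc (0 : ℝ) 1 ∩ γ ⁻¹' F)).exists_isLeast ⟨s, hs, hs'⟩
  have h0 : (0 : ℝ) ≠ t := fun e => ha (by rw [e]; exact ht')
  have hsub : uIcc 0 t ⊆ Icc (0 : ℝ) 1 := by
    rw [uIcc_of_le ht.1]
    exact Icc_subset_Icc_right ht.2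
  refine ⟨γ t, _, PArc_sub h1 h0 (h2.mono hsub), image_mono hsub, Subset.antisymm ?_ ?_⟩
  · rintro _ ⟨⟨r, hr, rfl⟩, hr'⟩
    have h3 := hm ⟨hsub hr, hr'⟩
    rw [uIcc_of_le ht.1] at hr
    rw [le_antisymm hr.2 h3]
    rfl
  · rintro _ rfl
    exact ⟨⟨t, right_mem_uIcc, rfl⟩, ht'⟩

theorem AStep_half {D J A : Set (Rn 2)} (h : Ball D J) {y z : Rn 2} (hA : Arc A y z)
    (hy : y ∈ D \ J) (hz : z ∉ D) : ∃ p A₁, Arc A₁ y p ∧ A₁ ⊆ A ∧ A₁ ⊆ D ∧ A₁ ∩ J = {p} := by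
  obtain ⟨p, A₁, h1, h2, h3⟩ := arc_first hA h.poly'.1.isClosed hy.2 (by
    by_contra hn
    rcases h.side hA.tarc.conn (disjoint_iff_inter_eq_empty.2 (not_nonempty_iff_eq_empty.1 hn))
      with k | k
    · exact hz (k hA.tarc.right).1
    · exact disjoint_left.1 k hA.tarc.left hy.1)
  have hp : p ∈ J := (h3.symm ▸ mem_singleton p : p ∈ A₁ ∩ J).2
  refine ⟨p, A₁, h1, h2, fun x hx => ?_, h3⟩
  by_cases e : x = p
  · exact e ▸ h.sub hp
  rcases h.side h1.tarc.symm.conn_half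
    (disjoint_left.2 fun w hw hw' => hw.2 (h3 ▸ (⟨hw.1, hw'⟩ : w ∈ A₁ ∩ J))) with k | k
  · exact (k ⟨hx, e⟩).1
  · exact (disjoint_left.1 k ⟨h1.tarc.left, h1.tarc.ne⟩ hy.1).elim

theorem crc_cross {D J C : Set (Rn 2)} (h : Ball D J) (hC : Crc C) {y z : Rn 2} (hy : y ∈ C)
    (hy' : y ∈ D \ J) (hz : z ∈ C) (hz' : z ∉ D) :
    ∃ A p q, Arc A p q ∧ A ⊆ C ∧ A ⊆ D ∧ A ∩ J = {p, q} := by
  obtain ⟨A, A', h1, h2, hu, hi⟩ := crc_split hC hy hz fun e => hz' (e ▸ hy'.1)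
  obtain ⟨p, A₁, k1, k2, k3, k4⟩ := AStep_half h h1 hy' hz'
  obtain ⟨q, A₂, l1, l2, l3, l4⟩ := AStep_half h h2 hy' hz'
  refine ⟨A₁ ∪ A₂, p, q, arc_glue k1.symm l1 (Subset.antisymm (fun x hx => ?_) ?_),
    hu ▸ union_subset_union k2 l2, union_subset k3 l3, ?_⟩
  · rcases (hi ▸ ⟨k2 hx.1, l2 hx.2⟩ : x ∈ ({y, z} : Set (Rn 2))) with e | e
    · exact e
    · exact (hz' (e ▸ k3 hx.1)).elim
  · rintro _ rfl
    exact ⟨k1.tarc.left, l1.tarc.left⟩
  · rw [union_inter_distrib_right, k4, l4]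
    rfl

variable {S : Set (Rn 3)} {T : Set ℝ}

theorem AStep_wall (hS : Surf S) (hv : Vert S T) {a b : ℝ} (hg : Gap T a b) {C : Set (Rn 2)}
    (h : lay C ((a + b) / 2) ⊆ S) {s : ℝ} (hs : s ∈ Icc a b) : lay C s ⊆ S := by
  rintro x ⟨h1, rfl⟩
  have hab := hg.2.2.1
  rw [← mk3_pj3 x]
  exact gap_wall hS.poly.1.isClosed hv hg (s := (a + b) / 2) ⟨by linarith, by linarith⟩
    (h (mem_lay.2 h1)) _ hs

theorem prism_sph (hS : Surf S) (hc : IsPreconnected S) (hv : Vert S T) {a b : ℝ} (hg : Gap T a b)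
    {E C : Set (Rn 2)} (hE : Ball E C) (h : lay C ((a + b) / 2) ⊆ S) (ha : lay E a ⊆ S)
    (hb : lay E b ⊆ S) : Sph S := by
  have k : Sph _ := ⟨_, (len_prism hE hg.2.2.1).ball⟩
  obtain ⟨y, hy, -⟩ := hE.ne
  rwa [surf_sub hS k.surf (union_subset (union_subset hb fun x hx =>
    AStep_wall hS hv hg h hx.2 ⟨hx.1, rfl⟩) ha) hc ⟨mk3 y a, Or.inr (mem_lay.2 hy)⟩] at k

/-- The union of the circles of all the walls. -/
def AStep_G (S : Set (Rn 3)) (T : Set ℝ) : Set (Rn 2) := ⋃ w ∈ Wal S T, w.2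

/-- Discs whose boundary lies on the walls and in `S`, and which are not contained in `S`. -/
def AStep_C (S : Set (Rn 3)) (T : Set ℝ) : Set (Set (Rn 2)) :=
  {D | ∃ J, Ball D J ∧ J ⊆ AStep_G S T ∧ ∃ t ∈ T, lay J t ⊆ S ∧ ¬ lay D t ⊆ S}

theorem AStep_fin (hS : Surf S) (hT : T.Finite) (hv : Vert S T) : (AStep_C S T).Finite := by
  have hW := wal_finite hS hT hv
  have hG : Poly (AStep_G S T) := Poly.biUnion hW fun w hw => hw.2.1.poly
  have hG' : PC 1 (AStep_G S T) := PC.biUnion hW fun w hw => hw.2.1.pc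
  refine ((crc_finite hG fun x _ => PC.lk_finite hG hG' x).biUnion
    (t := fun J => {D | Ball D J}) fun J _ => Set.Subsingleton.finite fun D h D' h' =>
      Ball.uniq le_rfl h h').subset ?_
  rintro D ⟨J, h1, h2, -⟩
  exact mem_biUnion (t := fun J => {D | Ball D J}) (x := J) ⟨h1.crc, h2⟩ h1

theorem AStep_cand (hS : Surf S) (hc : IsPreconnected S) (hv : Vert S T) (hn : ¬ Sph S) {a b : ℝ}
    (hg : Gap T a b) {E C : Set (Rn 2)} (hE : Ball E C) (h : ((a + b) / 2, C) ∈ Wal S T) :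
    E ∈ AStep_C S T := by
  have hG : C ⊆ AStep_G S T := subset_biUnion_of_mem (u := Prod.snd) h
  have hab := hg.2.2.1.le
  by_contra k
  refine hn (prism_sph hS hc hv hg hE h.2.2 ?_ ?_)
  · by_contra k'
    exact k ⟨C, hE, hG, a, hg.1, AStep_wall hS hv hg h.2.2 (left_mem_Icc.2 hab), k'⟩
  · by_contra k'
    exact k ⟨C, hE, hG, b, hg.2.1, AStep_wall hS hv hg h.2.2 (right_mem_Icc.2 hab), k'⟩

theorem AStep_side {D J A B₁ B₂ E₁ E₂ : Set (Rn 2)} {p q : Rn 2} {t : ℝ}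
    (hm : Minimal (· ∈ AStep_C S T) D) (ht : t ∈ T) (h1 : Len 1 B₁ E₁ A {p, q})
    (h2 : Len 1 B₂ E₂ A {p, q}) (hi : B₁ ∩ B₂ = A) (hu : B₁ ∪ B₂ = D) (hJ : E₁ ∪ E₂ = J)
    (hA : A ∩ J = {p, q}) (hG : J ∪ A ⊆ AStep_G S T) (hS : lay (J ∪ A) t ⊆ S) :
    lay B₁ t ⊆ S := by
  by_contra k
  have s1 : E₁ ∪ A ⊆ J ∪ A := union_subset_union_left _ (hJ ▸ subset_union_left)
  have s2 : D ⊆ B₁ := hm.2 (y := B₁)
    ⟨_, h1.ball, s1.trans hG, t, ht, (lay_mono s1 t).trans hS, k⟩ (hu ▸ subset_union_left)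
  obtain ⟨x, hx, hx'⟩ := h2.ne
  have s3 : x ∈ B₂ := h2.ball.sub (Or.inl hx)
  exact hx' (hA ▸ ⟨hi ▸ ⟨s2 (hu ▸ Or.inr s3), s3⟩, hJ ▸ Or.inr hx⟩)

theorem AStep_miss (hS : Surf S) (hc : IsPreconnected S) (hv : Vert S T) (hn : ¬ Sph S)
    {D J : Set (Rn 2)} {t : ℝ} (hm : Minimal (· ∈ AStep_C S T) D) (hD : Ball D J)
    (hG : J ⊆ AStep_G S T) (hJ : lay J t ⊆ S) (hD' : ¬ lay D t ⊆ S) {a b : ℝ} (hg : Gap T a b)
    (ht : a = t ∨ b = t) {C : Set (Rn 2)} (h : ((a + b) / 2, C) ∈ Wal S T) {y : Rn 2}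
    (hy : y ∈ C) : y ∉ D \ J := by
  intro hy'
  have hab := hg.2.2.1.le
  by_cases k : C ⊆ D
  · obtain ⟨E, hE⟩ := crc_ball h.2.1
    have s1 : E ⊆ D := hD.mono le_rfl hE k
    have e : E = D := s1.antisymm (hm.2 (AStep_cand hS hc hv hn hg hE h) s1)
    refine hy'.2 ?_
    rw [← hD.frontier_eq, ← e, hE.frontier_eq]
    exact hy
  obtain ⟨z, hz, hz'⟩ := not_subset.1 k
  obtain ⟨A, p, q, k1, k2, k3, k4⟩ := crc_cross hD h.2.1 hy hy' hz hz'
  obtain ⟨B₁, B₂, E₁, E₂, -, -, l1, -, l2, l3, l4, l5⟩ := cut2 hD k1 k3 k4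
  have ht' : t ∈ T ∧ t ∈ Icc a b := by
    rcases ht with rfl | rfl
    · exact ⟨hg.1, left_mem_Icc.2 hab⟩
    · exact ⟨hg.2.1, right_mem_Icc.2 hab⟩
  have hG' : J ∪ A ⊆ AStep_G S T :=
    union_subset hG (k2.trans (subset_biUnion_of_mem (u := Prod.snd) h))
  have hS' : lay (J ∪ A) t ⊆ S := by
    rintro x ⟨h1 | h1, h2⟩
    · exact hJ ⟨h1, h2⟩
    · exact AStep_wall hS hv hg h.2.2 ht'.2 ⟨k2 h1, h2⟩
  have m1 := AStep_side hm ht'.1 l2 l3 l4 l5 l1 k4 hG' hS'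
  have m2 := AStep_side hm ht'.1 l3 l2 ((inter_comm _ _).trans l4) ((union_comm _ _).trans l5)
    ((union_comm _ _).trans l1) k4 hG' hS'
  refine hD' ?_
  rintro x ⟨h1, h2⟩
  rw [← l5] at h1
  rcases h1 with h1 | h1
  · exact m1 ⟨h1, h2⟩
  · exact m2 ⟨h1, h2⟩

theorem vert_step (hS : Surf S) (hc : IsConnected S) (hT : T.Finite) (hv : Vert S T) :
    Sph S ∨ ∃ t ∈ T, ∃ D J, Ball D J ∧ lay D t ∩ S = lay J t := by
  by_cases hn : Sph S
  · exact Or.inl hn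
  obtain ⟨D, hm⟩ := (AStep_fin hS hT hv).exists_minimal (by
    obtain ⟨x, hx, hx'⟩ := surf_not_flat hS hc.1 hT
    obtain ⟨a, b, C, hg, -, -, h, -⟩ := wal_exists hS hT hv hx hx'
    obtain ⟨E, hE⟩ := crc_ball h.2.1
    exact ⟨E, AStep_cand hS hc.2 hv hn hg hE h⟩)
  obtain ⟨J, hD, hG, t, ht, hJ, hD'⟩ := hm.1
  refine Or.inr ⟨t, ht, D, J, hD, Subset.antisymm ?_ (subset_inter (lay_mono hD.sub t) hJ)⟩
  rintro x ⟨⟨h1, rfl⟩, h2⟩
  refine ⟨?_, rfl⟩
  by_contra h3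
  have hcl : IsClosed {y : Rn 2 | mk3 y (x 2) ∈ S} :=
    hS.poly.1.isClosed.preimage (tp_lay (x 2)).continuous
  have hsub : D \ J ⊆ {y : Rn 2 | mk3 y (x 2) ∈ S} := by
    refine POne_clopen hD.conn_in hcl (x := pj3 x) ⟨h1, h3⟩ (by simpa using h2) fun y hy hy' => ?_
    have e1 : ∀ᶠ w in 𝓝 (mk3 y (x 2)), pj3 w ∈ D \ J :=
      tp_pj3.continuous.continuousAt.eventually_mem (by
        rw [pj3_mk3, ← hD.interior_eq]
        exact isOpen_interior.mem_nhds (hD.interior_eq.symm ▸ hy))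
    have e2 : ∀ᶠ w in 𝓝 (mk3 y (x 2)), ∀ τ ∈ T, τ ≠ x 2 → |w 2 - x 2| < |τ - x 2| := by
      refine (eventually_all_finite hT).2 fun τ _ => ?_
      by_cases e : τ = x 2
      · exact Eventually.of_forall fun _ k => (k e).elim
      have k : ∀ᶠ w in 𝓝 (mk3 y (x 2)), |w 2 - x 2| < |τ - x 2| :=
        ContinuousAt.eventually_lt
          (((continuous_apply (2 : Fin 3)).sub continuous_const).abs.continuousAt)
          continuousAt_const (by simpa [sub_eq_zero] using e)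
      exact k.mono fun _ k _ => k
    have e3 := flat_open hS hy' (by
      filter_upwards [e1, e2] with w k1 k2 k3
      by_contra k4
      obtain ⟨a, b, C, hg, k5, k6, h, k7⟩ := wal_exists hS hT hv k3
        fun k => lt_irrefl _ (k2 _ k k4)
      refine AStep_miss hS hc.2 hv hn hm hD hG hJ hD' hg ?_ h k7 k1
      by_contra k8
      rw [not_or] at k8
      have k9 := k2 _ hg.1 k8.1
      have k10 := k2 _ hg.2.1 k8.2
      rcases hg.2.2.2 _ ht with k | k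
      · rw [abs_of_nonneg (by linarith), abs_of_nonneg (by linarith)] at k9
        linarith
      · rw [abs_of_nonpos (by linarith), abs_of_nonpos (by linarith)] at k10
        linarith)
    filter_upwards [(tp_lay (x 2)).continuous.continuousAt.eventually e3] with w k _ using k rfl
  refine hD' fun w hw => ?_
  have k := closure_minimal hsub hcl (hD.closure_in.symm ▸ hw.1 : pj3 w ∈ closure (D \ J))
  rw [← mk3_pj3 w, hw.2]
  exact k

end BEp
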