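import Pool.Agent.Work.MP_f0515e_an.D3.ASlab

/-! The whole surface is made vertical off finitely many levels.
`lp_glue`: `tp_ite`; the inverse is the same gluing of the inverses, `pa2_of_inv`.
`vert_exists`: `P s`: some `LP G`, finite `T`, `G ⁻¹' S` vertical below `s`. `vert_ext` glues `G` below `s` with `G' ∘ up φ` above,
`φ` the slice of `invFun G' ∘ G` at `s`; supremum argument. At the end add the top level to `T`, `Φ = invFun G`. About 130 lines. -/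

open Set Metric Filter Topology Function BEv
open scoped NNReal

noncomputable section
namespace BEp

theorem lp_glue {G G' : Rn 3 → Rn 3} (h : LP G) (h' : LP G') {s : ℝ}
    (e : ∀ x, x 2 = s → G x = G' x) : LP fun x => if x 2 - s ≤ 0 then G x else G' x := by
  have c : Continuous fun x : Rn 3 => x 2 - s := by fun_prop
  refine ⟨pa2_of_inv (g := fun x => if x 2 - s ≤ 0 then invFun G x else invFun G' x)
    (tp_ite h.1.tp h'.1.tp c fun x hx => e x (sub_eq_zero.1 hx))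
    (tp_ite h.1.tpi h'.1.tpi c fun x hx => (h'.1.inv_eq ?_).symm) (fun x => ?_) fun x => ?_,
    fun x => ?_⟩
  · rw [← e _ ((h.inv.2 x).trans (sub_eq_zero.1 hx)), h.1.ri]
  · by_cases k : x 2 - s ≤ 0
    · simp only [if_pos k, h.2 x, h.1.li]
    · simp only [if_neg k, h'.2 x, h'.1.li]
  · by_cases k : x 2 - s ≤ 0
    · simp only [if_pos k, h.inv.2 x, h.1.ri]
    · simp only [if_neg k, h'.inv.2 x, h'.1.ri]
  · beta_reduce
    split_ifs
    exacts [h.2 x, h'.2 x]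

/-- Vertical below the level `s`. -/
def VB (S : Set (Rn 3)) (s : ℝ) : Prop := ∃ G T, LP G ∧ Set.Finite T ∧
  ∀ y a b, a < s → b < s → (∀ τ ∈ T, τ ∉ uIcc a b) → G (mk3 y a) ∈ S → G (mk3 y b) ∈ S

theorem vert_ext {S : Set (Rn 3)} {s s' : ℝ} (h : VB S s) {G : Rn 3 → Rn 3} (hG : LP G)
    (h' : ∀ y, ∀ a ∈ Ioo s s', ∀ b ∈ Ioo s s', G (mk3 y a) ∈ S → G (mk3 y b) ∈ S) : VB S s' := by
  obtain ⟨G₀, T, h0, hT, hv⟩ := h
  have hH := hG.inv.comp h0
  have h1 := hG.comp (lp_up (hH.slice s))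
  refine ⟨_, insert s T, lp_glue h0 h1 (s := s) fun x hx => ?_, hT.insert s,
    fun y a b ha hb k => ?_⟩
  · have := PUp_mk hH (pj3 x) s
    rw [comp_apply, up, hx, this, ← hx, mk3_pj3, comp_apply, hG.1.ri]
  · have k1 := k s (mem_insert _ _)
    rw [mem_uIcc, not_or, not_and_or, not_and_or, not_le, not_le, not_le, not_le] at k1
    rcases lt_trichotomy a s with m | m | m
    · have m' : b < s := k1.1.resolve_left m.not_gt
      rw [if_pos (c := mk3 y a 2 - s ≤ 0) (sub_nonpos.2 m.le),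
        if_pos (c := mk3 y b 2 - s ≤ 0) (sub_nonpos.2 m'.le)]
      exact hv y a b m m' fun τ hτ => k τ (mem_insert_of_mem _ hτ)
    · exact absurd (m ▸ left_mem_uIcc) (k s (mem_insert _ _))
    · have m' : s < b := k1.2.resolve_right m.not_gt
      rw [if_neg (c := mk3 y a 2 - s ≤ 0) (not_le.2 (sub_pos.2 m)),
        if_neg (c := mk3 y b 2 - s ≤ 0) (not_le.2 (sub_pos.2 m'))]
      exact h' _ a ⟨m, ha⟩ b ⟨m', hb⟩

theorem AVert_all {S : Set (Rn 3)} (hS : IsCompact S) (h : ∀ x ∈ S, UD S x) {r : ℝ} (h0 : VB S r)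
    (t₀ : ℝ) : VB S t₀ := by
  by_contra k
  have hb : BddAbove {s | VB S s} := ⟨t₀, fun s hs => not_lt.1 fun m => by
    obtain ⟨G, T, h1, h2, h3⟩ := hs
    exact k ⟨G, T, h1, h2, fun y a b ha hb => h3 y a b (ha.trans m) (hb.trans m)⟩⟩
  obtain ⟨t, ht⟩ : ∃ t, t = sSup {s | VB S s} := ⟨_, rfl⟩
  obtain ⟨δ, hδ, G, hG, k1⟩ := slab hS h t (Or.inr rfl)
  obtain ⟨δ', hδ', G', hG', k2⟩ := slab hS h t (Or.inl rfl)
  obtain ⟨s, hs, m⟩ := exists_lt_of_lt_csSup (s := {s | VB S s}) ⟨r, h0⟩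
    (show t - δ < _ from ht ▸ sub_lt_self t hδ)
  have k3 : VB S t := vert_ext hs hG fun y a ha b hb =>
    k1 y a b ⟨by linarith [ha.2], by linarith [ha.1]⟩ ⟨by linarith [hb.2], by linarith [hb.1]⟩
  have k4 : VB S (t + δ') := vert_ext k3 hG' fun y a ha b hb =>
    k2 y a b ⟨by linarith [ha.1], by linarith [ha.2]⟩ ⟨by linarith [hb.1], by linarith [hb.2]⟩
  have := le_csSup hb k4
  linarith

theorem vert_exists {S : Set (Rn 3)} (hS : IsCompact S) (h : ∀ x ∈ S, UD S x) :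
    ∃ (Φ : Rn 3 → Rn 3) (T : Set ℝ), LH Φ ∧ T.Finite ∧ Vert (Φ '' S) T := by
  obtain ⟨R, hR⟩ := hS.isBounded.subset_ball 0
  have hb : ∀ x ∈ S, |x 2| < R := fun x hx =>
    (norm_le_pi_norm x 2).trans_lt (mem_ball_zero_iff.1 (hR hx))
  obtain ⟨G, T, hG, hT, hv⟩ := AVert_all hS h (r := -R)
    ⟨id, ∅, ⟨LH.id', fun _ => rfl⟩, finite_empty, fun y a b ha _ _ k =>
      absurd (abs_lt.1 (hb _ k)).1 ha.not_gt⟩ R
  have e : ∀ x, x ∈ invFun G '' S ↔ G x ∈ S := fun x =>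
    ⟨by
      rintro ⟨z, hz, rfl⟩
      rwa [hG.1.ri], fun k => ⟨_, k, hG.1.li x⟩⟩
  refine ⟨invFun G, insert R T, hG.1.inv, hT.insert R, fun y a b k m => ?_⟩
  rw [e] at m ⊢
  have ha : a < R := by
    have := (abs_lt.1 (hb _ m)).2
    rwa [hG.2, mk3_2] at this
  refine hv y a b ha (not_le.1 fun m' => k R (mem_insert _ _) ?_) (fun τ hτ => ?_) m
  · exact mem_uIcc.2 (Or.inl ⟨ha.le, m'⟩)
  · exact k τ (mem_insert_of_mem _ hτ)

end BEp
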