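import Pool.Agent.Work.MP_f0515e_an.D3.ABox
import Pool.Agent.Work.MP_f0515e_an.D3.AVert
import Pool.Agent.Work.MP_f0515e_an.D3.AStep
import Pool.Agent.Work.MP_f0515e_an.D3.ASplit

/-! Alexander's theorem.
`piece`: `poly_piece`; links: germ of `S` off the disc, germ of the plane inside (`lk_lev`), two arcs on the curve (`lk_arc`, `lk_disc`, `tcrc_glue`);
`preconn_left`, `lift_surg`; a vertical segment off the levels lies in `D₁` or in `D₂`. `alex_vert`: induction on the number of walls. -/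

open Set Metric Filter Topology Function BEv
open scoped NNReal

noncomputable section
namespace BEp

variable {S D₁ D₂ : Set (Rn 3)} {T : Set ℝ} {D J : Set (Rn 2)} {t : ℝ}

theorem piece (hS : Surf S) (hc : IsConnected S) (hL : Lift S) (hv : Vert S T) (ht : t ∈ T)
    (hD : Ball D J) (hi : lay D t ∩ S = lay J t) (c1 : IsClosed D₁) (c2 : IsClosed D₂)
    (hu : D₁ ∪ D₂ = S) (hj : D₁ ∩ D₂ = lay J t) (n1 : lay J t ⊆ closure (D₁ \ lay J t))
    (n2 : lay J t ⊆ closure (D₂ \ lay J t)) : Surf (D₁ ∪ lay D t) ∧ IsConnected (D₁ ∪ lay D t) ∧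
      Lift (D₁ ∪ lay D t) ∧ Vert (D₁ ∪ lay D t) T := by
  have pJ := poly_lay hD.poly' t
  have pD := poly_lay hD.poly t
  have p1 := poly_piece hS.poly pJ c1 c2 hu hj
  have p2 := poly_piece hS.poly pJ c2 c1 ((union_comm _ _).trans hu) ((inter_comm _ _).trans hj)
  have s1 : D₁ ⊆ S := hu ▸ subset_union_left
  have j1 : lay J t ⊆ D₁ := hj ▸ inter_subset_left
  have jD : lay J t ⊆ lay D t := lay_mono hD.sub t
  have i1 : D₁ ∩ lay D t = lay J t :=
    Subset.antisymm (fun x hx => hi ▸ ⟨hx.2, s1 hx.1⟩) (subset_inter j1 jD)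
  have cJ := ((crc_lay t).2 hD.crc).tcrc.conn
  have dD := (dsc_lay hD t).pdsc
  have k1 : IsConnected D₁ := ⟨cJ.nonempty.mono j1,
    preconn_left c1 c2 (hu ▸ hc.isPreconnected) (hj ▸ cJ.isPreconnected)⟩
  refine ⟨⟨p1.union pD, (hS.pc.mono s1).union (PL6_pc dD), fun x hx => ?_⟩,
    k1.union (i1 ▸ cJ.nonempty) dD.conn,
    lift_surg (hu ▸ hL) dD.lift pD.1.isClosed c1 c2 hj i1 cJ.isPreconnected, fun y a b h hy => ?_⟩
  · by_cases hJ : x ∈ lay J t
    · obtain ⟨a, b, hab, e, hB, -⟩ := lk_disc hD hJ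
      rw [lk_union p1 pD]
      exact tcrc_glue (lk_arc p1 p2 pJ hJ (hS.crc x (s1 (j1 hJ)))
        (Eventually.of_forall fun _ => by rw [hu]) (Eventually.of_forall fun _ => by rw [hj])
        e hab (n1 hJ) (n2 hJ)) hB (by rw [← lk_inter, i1, e])
    rcases hx with hx | hx
    · rw [← lk_congr (X := S)]
      · exact hS.crc x (s1 hx)
      filter_upwards [c2.isOpen_compl.mem_nhds fun k => hJ (hj ▸ ⟨hx, k⟩),
        pD.1.isClosed.isOpen_compl.mem_nhds fun k => hJ (i1 ▸ ⟨hx, k⟩)] with y h1 h2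
      rw [← hu]
      exact ⟨fun k => Or.inl (k.resolve_right h1), fun k => Or.inl (k.resolve_right h2)⟩
    · rw [lk_lev]
      · exact tcrc_eqt
      have h1 : pj3 x ∈ interior D := hD.interior_eq ▸ ⟨hx.1, fun k => hJ ⟨k, hx.2⟩⟩
      filter_upwards [c1.isOpen_compl.mem_nhds fun k => hJ (i1 ▸ ⟨k, hx⟩),
        tp_pj3.continuous.continuousAt.preimage_mem_nhds (isOpen_interior.mem_nhds h1)] with y h2 h3
      rw [hx.2]
      exact ⟨fun k => (k.resolve_left h2).2, fun k => Or.inr ⟨interior_subset h3, k⟩⟩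
  · have h1 : mk3 y a ∈ D₁ := hy.resolve_right fun k => h t ht (k.2 ▸ left_mem_uIcc)
    have h2 : IsPreconnected (mk3 y '' uIcc a b) := isPreconnected_uIcc.image _
      ((TP.const y).mk3 TP.id').continuous.continuousOn
    rcases isPreconnected_iff_subset_of_disjoint_closed.1 h2 _ _ c1 c2 (by
      rintro _ ⟨s, hs, rfl⟩
      rw [hu]
      exact hv y a s (fun τ hτ k => h τ hτ (uIcc_subset_uIcc left_mem_uIcc hs k)) (s1 h1)) (by
      rw [hj]
      refine eq_empty_of_forall_notMem ?_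
      rintro _ ⟨⟨s, hs, rfl⟩, k⟩
      exact h t ht (k.2 ▸ hs)) with k | k
    · exact Or.inl (k ⟨b, right_mem_uIcc, rfl⟩)
    · exact (h t ht ((hj ▸ ⟨h1, k ⟨a, left_mem_uIcc, rfl⟩⟩ : mk3 y a ∈ lay J t).2 ▸
        left_mem_uIcc)).elim

theorem wal_lay (ht : t ∈ T) {w : ℝ × Set (Rn 2)} (h : w ∈ Wal (D₁ ∪ lay D t) T) :
    w.1 ≠ t ∧ lay w.2 w.1 ⊆ D₁ := by
  obtain ⟨⟨a, b, hg, e⟩, -, k⟩ := h
  have : w.1 ≠ t := fun l => by
    rcases hg.2.2.2 t ht with m | m <;> linarith [hg.2.2.1]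
  exact ⟨this, fun x hx => (k hx).resolve_right fun l => this (hx.2.symm.trans l.2)⟩

theorem wal_lt (hS : Surf S) (hT : T.Finite) (hv : Vert S T) (ht : t ∈ T) (hu : D₁ ∪ D₂ = S)
    (hj : D₁ ∩ D₂ = lay J t) (h2 : Surf (D₂ ∪ lay D t)) (hne : (D₂ ∪ lay D t).Nonempty)
    (v2 : Vert (D₂ ∪ lay D t) T) : (Wal (D₁ ∪ lay D t) T).ncard < (Wal S T).ncard := by
  obtain ⟨x, hx, hx'⟩ := surf_not_flat h2 hne hT
  obtain ⟨a, b, C, -, -, -, hw, hC⟩ := wal_exists h2 hT v2 hx hx'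
  refine ncard_lt_ncard ⟨fun w k => ⟨k.1, k.2.1, (wal_lay ht k).2.trans (hu ▸ subset_union_left)⟩,
    fun k => ?_⟩ (wal_finite hS hT hv)
  have h3 := wal_lay ht hw
  have h4 := wal_lay ht (k ⟨hw.1, hw.2.1, h3.2.trans (hu ▸ subset_union_right)⟩)
  have h5 : mk3 (pj3 x) ((a + b) / 2) ∈ lay C ((a + b) / 2) := mem_lay.2 hC
  exact h3.1 (hj.le ⟨h4.2 h5, h3.2 h5⟩).2

theorem alex_vert (hT : T.Finite) (k : ℕ) : ∀ S : Set (Rn 3), (Wal S T).ncard = k → Surf S →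
    IsConnected S → Lift S → Vert S T → Sph S := by
  induction k using Nat.strong_induction_on with | _ k ih => ?_
  intro S hk hS hc hL hv
  rcases vert_step hS hc hT hv with h | ⟨t, ht, D, J, hD, hi⟩
  · exact h
  obtain ⟨D₁, D₂, c1, c2, hu, hj, n1, n2⟩ := vert_split hS hL hT hv hD hi
  have hu' := (union_comm _ _).trans hu
  have hj' := (inter_comm _ _).trans hj
  obtain ⟨a1, a2, a3, a4⟩ := piece hS hc hL hv ht hD hi c1 c2 hu hj n1 n2
  obtain ⟨b1, b2, b3, b4⟩ := piece hS hc hL hv ht hD hi c2 c1 hu' hj' n2 n1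
  have cJ := (crc_lay t).2 hD.crc
  obtain ⟨x, hx⟩ := cJ.tcrc.conn.nonempty
  have i : ∀ {E : Set (Rn 3)}, E ⊆ S → lay J t ⊆ E → E ∩ lay D t = lay J t := fun h1 h2 =>
    Subset.antisymm (fun x hx => hi ▸ ⟨hx.2, h1 hx.1⟩) (subset_inter h2 (lay_mono hD.sub t))
  have n : ∀ {E : Set (Rn 3)}, lay J t ⊆ closure (E \ lay J t) → ¬ E ⊆ lay J t := fun h1 h2 => by
    simpa [sdiff_eq_empty.2 h2] using h1 hx
  obtain ⟨y, hy⟩ := hD.ne
  rw [← hu]
  exact sph_sum (ih _ (hk ▸ wal_lt hS hT hv ht hu hj b1 b2.nonempty b4) _ rfl a1 a2 a3 a4)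
    (ih _ (hk ▸ wal_lt hS hT hv ht hu' hj' a1 a2.nonempty a4) _ rfl b1 b2 b3 b4) cJ c1 c2
    (poly_lay hD.poly t).1.isClosed (i (hu ▸ subset_union_left) (hj ▸ inter_subset_left))
    (i (hu ▸ subset_union_right) (hj ▸ inter_subset_right)) hj (n n1) (n n2)
    fun k => hy.2 (mem_lay.1 (k (mem_lay.2 hy.1)))

theorem alex {S : Set (Rn 3)} (hS : Surf S) (hc : IsConnected S) (hl : Lift S) : Sph S := by
  obtain ⟨Φ, h1, h2⟩ := terr_exists hS
  have k : ∀ {S : Set (Rn 3)} {Φ : Rn 3 → Rn 3}, LH Φ → Surf S → IsConnected S → Lift S →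
      Surf (Φ '' S) ∧ IsConnected (Φ '' S) ∧ Lift (Φ '' S) := fun h a b c =>
    ⟨a.image h.tp h.inj.injOn, b.image _ h.tp.continuous.continuousOn,
      c.image a.poly.1 h.tp.continuous.continuousOn h.inj.injOn⟩
  obtain ⟨a, b, c⟩ := k h1 hS hc hl
  obtain ⟨Ψ, T, h3, h4, h5⟩ := vert_exists a.poly.1 h2
  obtain ⟨a', b', c'⟩ := k h3 a b c
  exact ((alex_vert h4 _ _ rfl a' b' c' h5).of_image h3).of_image h1

end BEp
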