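import Pool.Agent.Work.MP_f0515e_an.D3.PDefs

/-! Lifting circle valued maps, general part (metric spaces).
Tools: `AddCircle.isCoveringMap_coe`, `IsCoveringMap.liftHomotopy` on the subtype, `IsCoveringMap.eqOn_of_comp_eqOn`
or: a continuous integer valued function on a preconnected set is constant. `lifts_union`: shift one lift by an integer
(`lift_uniq`; if `A ∩ B` is empty nothing to do), `lifts_glue` (piecewise definition, `ContinuousOn` on a relatively closed cover).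
`lift_ext`: Tietze (`ContinuousMap.exists_restrict_eq`). `lift_nbhd`: extend `toCircle ∘ φ` to a map into `ℂ`, normalise where
it does not vanish (`AddCircle.homeomorphCircle`). `lift_surg`: lift on `D`, extend this lift from `J` by Tietze, use the extension on
`D₂` and `φ` on `D₁`, lift on `D₁ ∪ D₂`, `lifts_union`. `lift_unicoh`: if `A ∩ B = P ∪ Q` with disjoint nonempty closed sets let
`η = d_P / (d_P + d_Q)`, `φ = η / 2` on `A`, `-η / 2` on `B`; a lift differs from these by constants on `A` and on `B`; compare on `P` and `Q`.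
About 350 lines. -/

open Set Metric Filter Topology Function BEv
open scoped NNReal

noncomputable section
namespace BEp

variable {n m : ℕ}

variable {X Y : Type} [MetricSpace X] [MetricSpace Y] {S T A B : Set X} {φ φ' : X → UnitAddCircle}

/-- The map `φ` has a continuous lift on `S`. -/
def Lifts {X : Type} [TopologicalSpace X] (φ : X → UnitAddCircle) (S : Set X) : Prop :=
  ∃ ψ : X → ℝ, ContinuousOn ψ S ∧ ∀ x ∈ S, (ψ x : UnitAddCircle) = φ x

theorem lift_iff : Lift S ↔ ∀ φ : X → UnitAddCircle, ContinuousOn φ S → Lifts φ S := Iff.rfl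

theorem PLift_cont : Continuous ((↑) : ℝ → UnitAddCircle) := AddCircle.continuous_mk' 1

theorem PLift_int (a : ℝ) (k : ℤ) : ((a + k : ℝ) : UnitAddCircle) = a := by
  rw [AddCircle.coe_add, (AddCircle.coe_eq_zero_iff 1 (x := (k : ℝ))).2 ⟨k, by simp⟩, add_zero]

theorem PLift_eq {a b : ℝ} (h : (a : UnitAddCircle) = b) : ∃ k : ℤ, b = a + k := by
  obtain ⟨k, hk⟩ := (AddCircle.coe_eq_zero_iff (1 : ℝ)).1
    ((AddCircle.coe_sub 1 b a).trans (sub_eq_zero.2 h.symm))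
  exact ⟨k, by rw [zsmul_one] at hk; rw [hk, add_sub_cancel]⟩

omit [MetricSpace X] in
theorem PLift_pw [TopologicalSpace X] {Z : Type} [TopologicalSpace Z] {f g : X → Z}
    (hf : ContinuousOn f A) (hg : ContinuousOn g B) (he : EqOn f g (A ∩ B)) :
    ∃ F, ContinuousOn F A ∧ ContinuousOn F B ∧ EqOn F f A ∧ EqOn F g B := by
  classical
  have e1 : EqOn (A.piecewise f g) f A := piecewise_eqOn _ _ _
  have e2 : EqOn (A.piecewise f g) g B := fun x hx => by
    by_cases h : x ∈ A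
    · exact (e1 h).trans (he ⟨h, hx⟩)
    · exact piecewise_eq_of_notMem _ _ _ h
  exact ⟨_, hf.congr e1, hg.congr e2, e1, e2⟩

theorem PLift_cov (c1 : closure A ∩ B ⊆ A) (c2 : A ∩ closure B ⊆ B) {F : X → ℝ}
    (h : ContinuousOn F A) (h' : ContinuousOn F B) : ContinuousOn F (A ∪ B) := by
  refine fun x hx => .union ?_ ?_
  · by_cases k : x ∈ A
    · exact h x k
    · exact continuousWithinAt_of_notMem_closure fun k' => k (c1 ⟨k', hx.resolve_left k⟩)
  · by_cases k : x ∈ B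
    · exact h' x k
    · exact continuousWithinAt_of_notMem_closure fun k' => k (c2 ⟨hx.resolve_right k, k'⟩)

theorem PLift_ext {Z : Type} [TopologicalSpace Z] [TietzeExtension.{0, 0} Z] (hA : IsClosed A)
    {f : X → Z} (hf : ContinuousOn f A) : ∃ g : X → Z, Continuous g ∧ EqOn g f A := by
  obtain ⟨g, hg⟩ := ContinuousMap.exists_restrict_eq hA ⟨A.domRestrict f, hf.domRestrict⟩
  exact ⟨g, g.continuous, fun x hx => DFunLike.congr_fun hg ⟨x, hx⟩⟩

theorem PLift_empty : Lifts φ ∅ := ⟨0, continuousOn_empty _, fun _ h => h.elim⟩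

theorem Lifts.mono (h : Lifts φ S) (hT : T ⊆ S) : Lifts φ T := by
  obtain ⟨ψ, h1, h2⟩ := h
  exact ⟨ψ, h1.mono hT, fun x hx => h2 x (hT hx)⟩

theorem Lifts.congr (h : Lifts φ S) (he : EqOn φ φ' S) : Lifts φ' S := by
  obtain ⟨ψ, h1, h2⟩ := h
  exact ⟨ψ, h1, fun x hx => (h2 x hx).trans (he hx)⟩

theorem Lifts.cont (h : Lifts φ S) : ContinuousOn φ S := by
  obtain ⟨ψ, h1, h2⟩ := h
  exact (PLift_cont.comp_continuousOn h1).congr fun x hx => (h2 x hx).symm

theorem Lifts.add (h : Lifts φ S) (h' : Lifts φ' S) : Lifts (fun x => φ x + φ' x) S := by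
  obtain ⟨ψ, h1, h2⟩ := h
  obtain ⟨ψ', h3, h4⟩ := h'
  exact ⟨ψ + ψ', h1.add h3, fun x hx => by rw [Pi.add_apply, AddCircle.coe_add, h2 x hx, h4 x hx]⟩

theorem Lifts.neg (h : Lifts φ S) : Lifts (fun x => -φ x) S := by
  obtain ⟨ψ, h1, h2⟩ := h
  exact ⟨-ψ, h1.neg, fun x hx => by rw [Pi.neg_apply, AddCircle.coe_neg, h2 x hx]⟩

theorem Lifts.comp (h : Lifts φ S) {k : Y → X} {T : Set Y} (hk : ContinuousOn k T)
    (hm : MapsTo k T S) : Lifts (fun y => φ (k y)) T := by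
  obtain ⟨ψ, h1, h2⟩ := h
  exact ⟨ψ ∘ k, h1.comp hk hm, fun y hy => h2 _ (hm hy)⟩

theorem lift_uniq (hS : IsPreconnected S) {ψ ψ' : X → ℝ} (h : ContinuousOn ψ S)
    (h' : ContinuousOn ψ' S) (he : ∀ x ∈ S, (ψ x : UnitAddCircle) = ψ' x) :
    ∃ k : ℤ, ∀ x ∈ S, ψ' x = ψ x + k := by
  rcases S.eq_empty_or_nonempty with rfl | ⟨x, hx⟩
  · exact ⟨0, fun _ h => h.elim⟩
  obtain ⟨k, hk⟩ := PLift_eq (he x hx)
  exact ⟨k, (AddCircle.isCoveringMap_coe (1 : ℝ)).eqOn_of_comp_eqOn hS h'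
    (h.add continuousOn_const) (fun y hy => (he y hy).symm.trans (PLift_int _ k).symm) hx hk⟩

theorem lifts_homotopy {H : ℝ × X → UnitAddCircle} (hH : ContinuousOn H (Icc 0 1 ×ˢ S))
    (h0 : Lifts (fun x => H (0, x)) S) : Lifts H (Icc 0 1 ×ˢ S) := by
  classical
  obtain ⟨ψ, h1, h2⟩ := h0
  let H' : C(unitInterval × S, UnitAddCircle) := ⟨fun p => H (p.1, p.2),
    hH.comp_continuous (by fun_prop) fun p => ⟨p.1.2, p.2.2⟩⟩
  have cov := AddCircle.isCoveringMap_coe (1 : ℝ)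
  have e0 : ∀ a : S, H' (0, a) = ((⟨S.domRestrict ψ, h1.domRestrict⟩ : C(S, ℝ)) a : UnitAddCircle) :=
    fun a => (h2 a a.2).symm
  let G := cov.liftHomotopy H' _ e0
  let F : ℝ × X → ℝ := fun z =>
    if h : z.1 ∈ Icc (0 : ℝ) 1 ∧ z.2 ∈ S then G (⟨z.1, h.1⟩, ⟨z.2, h.2⟩) else 0
  have e : ∀ z (h : z.1 ∈ Icc (0 : ℝ) 1 ∧ z.2 ∈ S), F z = G (⟨z.1, h.1⟩, ⟨z.2, h.2⟩) :=
    fun z h => dif_pos h
  refine ⟨F, ?_, fun z hz => ?_⟩
  · rw [continuousOn_iff_continuous_domRestrict]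
    refine Continuous.congr (f := fun z : ↥(Icc (0 : ℝ) 1 ×ˢ S) => G (⟨z.1.1, z.2.1⟩, ⟨z.1.2, z.2.2⟩))
      (by fun_prop) fun z => (e z z.2).symm
  · rw [e z hz]
    exact congrFun (cov.liftHomotopy_lifts H' _ e0) _

/-- Deformation of `S` into `T`. -/
theorem lifts_deform {H : ℝ × X → X} (hH : ContinuousOn H (Icc 0 1 ×ˢ S))
    (hm : MapsTo H (Icc 0 1 ×ˢ S) S) (h1 : ∀ x ∈ S, H (1, x) = x) (h0 : ∀ x ∈ S, H (0, x) ∈ T)
    (hφ : ContinuousOn φ S) (h : Lifts φ T) : Lifts φ S := by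
  have k : ∀ t ∈ Icc (0 : ℝ) 1, MapsTo (fun x => (t, x)) S (Icc 0 1 ×ˢ S) := fun t ht x hx => ⟨ht, hx⟩
  have h2 := lifts_homotopy (H := fun z => φ (H z)) (hφ.comp hH hm)
    (h.comp (hH.comp (by fun_prop) (k 0 (by simp))) h0)
  exact (h2.comp (by fun_prop) (k 1 (by simp))).congr fun x hx => congrArg φ (h1 x hx)

theorem lift_star {E : Type} [NormedAddCommGroup E] [NormedSpace ℝ E] {S : Set E} {c : E}
    (h : StarConvex ℝ c S) : Lift S := by
  intro φ hφ
  obtain ⟨r, hr⟩ := QuotientAddGroup.mk_surjective (φ c)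
  exact lifts_deform (T := {c}) (H := fun z => (1 - z.1) • c + z.1 • z.2) (by fun_prop)
    (fun z hz => h hz.2 (sub_nonneg.2 hz.1.2) hz.1.1 (sub_add_cancel _ _)) (fun x _ => by simp)
    (fun x _ => by simp) hφ ⟨fun _ => r, continuousOn_const, fun x hx => hx ▸ hr⟩

theorem lift_convex {E : Type} [NormedAddCommGroup E] [NormedSpace ℝ E] {S : Set E}
    (h : Convex ℝ S) : Lift S := by
  rcases S.eq_empty_or_nonempty with rfl | ⟨x, hx⟩
  · exact fun _ _ => PLift_empty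
  · exact lift_star (h hx)

theorem lifts_glue (c1 : closure A ∩ B ⊆ A) (c2 : A ∩ closure B ⊆ B) {ψ ψ' : X → ℝ}
    (h : ContinuousOn ψ A) (h' : ContinuousOn ψ' B) (e : ∀ x ∈ A, (ψ x : UnitAddCircle) = φ x)
    (e' : ∀ x ∈ B, (ψ' x : UnitAddCircle) = φ x) (he : EqOn ψ ψ' (A ∩ B)) : Lifts φ (A ∪ B) := by
  obtain ⟨F, h1, h2, h3, h4⟩ := PLift_pw h h' he
  exact ⟨F, PLift_cov c1 c2 h1 h2, fun x hx =>
    hx.elim (fun k => h3 k ▸ e x k) fun k => h4 k ▸ e' x k⟩

theorem PLift_un (hi : IsPreconnected (A ∩ B)) (h : Lifts φ A) (h' : Lifts φ B) : ∃ F : X → ℝ,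
    ContinuousOn F A ∧ ContinuousOn F B ∧ ∀ x ∈ A ∪ B, (F x : UnitAddCircle) = φ x := by
  obtain ⟨ψ, h1, e⟩ := h
  obtain ⟨ψ', h2, e'⟩ := h'
  obtain ⟨k, hk⟩ := lift_uniq hi (h1.mono inter_subset_left) (h2.mono inter_subset_right)
    fun x hx => (e x hx.1).trans (e' x hx.2).symm
  obtain ⟨F, h3, h4, h5, h6⟩ := PLift_pw (f := fun x => ψ x + k) (h1.add continuousOn_const) h2
    fun x hx => (hk x hx).symm
  exact ⟨F, h3, h4, fun x hx => hx.elim (fun l => h5 l ▸ (PLift_int _ k).trans (e x l))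
    fun l => h6 l ▸ e' x l⟩

theorem lifts_union (c1 : closure A ∩ B ⊆ A) (c2 : A ∩ closure B ⊆ B)
    (hi : IsPreconnected (A ∩ B)) (h : Lifts φ A) (h' : Lifts φ B) : Lifts φ (A ∪ B) := by
  obtain ⟨F, h1, h2, h3⟩ := PLift_un hi h h'
  exact ⟨F, PLift_cov c1 c2 h1 h2, h3⟩

theorem lifts_union_open (c1 : IsOpen A) (c2 : IsOpen B)
    (hi : IsPreconnected (A ∩ B)) (h : Lifts φ A) (h' : Lifts φ B) : Lifts φ (A ∪ B) := by
  obtain ⟨F, h1, h2, h3⟩ := PLift_un hi h h'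
  exact ⟨F, h1.union_of_isOpen h2 c1 c2, h3⟩

theorem lift_union (c1 : IsClosed A) (c2 : IsClosed B) (hi : IsPreconnected (A ∩ B))
    (h : Lift A) (h' : Lift B) : Lift (A ∪ B) := by
  intro φ hφ
  obtain ⟨F, h1, h2, h3⟩ := PLift_un hi (h φ (hφ.mono subset_union_left))
    (h' φ (hφ.mono subset_union_right))
  exact ⟨F, h1.union_of_isClosed h2 c1 c2, h3⟩

theorem Lift.retract (h : Lift S) {T : Set Y} {g : X → Y} {k : Y → X} (hg : ContinuousOn g S)
    (gm : MapsTo g S T) (hk : ContinuousOn k T) (km : MapsTo k T S) (e : ∀ y ∈ T, g (k y) = y) :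
    Lift T := by
  intro φ hφ
  exact (Lifts.comp (h (φ ∘ g) (hφ.comp hg gm)) hk km).congr fun y hy => congrArg φ (e y hy)

theorem Lift.image (h : Lift S) (hc : IsCompact S) {g : X → Y} (hg : ContinuousOn g S)
    (hi : InjOn g S) : Lift (g '' S) := by
  rcases S.eq_empty_or_nonempty with rfl | ⟨x, -⟩
  · rw [image_empty]
    exact fun _ _ => PLift_empty
  have : Nonempty X := ⟨x⟩
  have e := hi.leftInvOn_invFunOn
  refine h.retract hg (mapsTo_image _ _) (k := invFunOn g S) ?_ (fun _ hy => invFunOn_mem hy)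
    fun _ hy => invFunOn_eq hy
  refine continuousOn_iff_isClosed.2 fun t ht => ⟨g '' (S ∩ t),
    ((hc.inter_right ht).image_of_continuousOn (hg.mono inter_subset_left)).isClosed, ?_⟩
  ext y
  constructor
  · rintro ⟨h1, x, hx, rfl⟩
    exact ⟨⟨x, ⟨hx, e hx ▸ h1⟩, rfl⟩, x, hx, rfl⟩
  · rintro ⟨⟨x, hx, rfl⟩, h1⟩
    exact ⟨mem_preimage.2 (mem_of_eq_of_mem (e hx.1) hx.2), h1⟩

/-- Clopen pieces inherit the lifting property. -/
theorem Lift.piece (h : Lift (A ∪ B)) (c1 : IsClosed A) (c2 : IsClosed B) (hd : Disjoint A B) :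
    Lift A := by
  intro φ hφ
  obtain ⟨F, h1, h2, h3, -⟩ := PLift_pw hφ (continuousOn_const (s := B) (c := 0))
    fun x hx => (hd.le_bot hx).elim
  exact (Lifts.mono (h F (h1.union_of_isClosed h2 c1 c2)) subset_union_left).congr h3

theorem lift_ext (hA : IsClosed A) (h : Lifts φ A) : ∃ ψ : X → ℝ, Continuous ψ ∧
    ∀ x ∈ A, (ψ x : UnitAddCircle) = φ x := by
  obtain ⟨ψ, h1, h2⟩ := h
  obtain ⟨g, h3, h4⟩ := PLift_ext hA h1
  exact ⟨g, h3, fun x hx => h4 hx ▸ h2 x hx⟩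

theorem lift_nbhd (hA : IsClosed A) (h : ContinuousOn φ A) :
    ∃ U φ', IsOpen U ∧ A ⊆ U ∧ ContinuousOn φ' U ∧ EqOn φ' φ A := by
  let e : UnitAddCircle ≃ₜ Real.Angle :=
    AddCircle.homeomorphAddCircle 1 (2 * Real.pi) one_ne_zero (by positivity)
  obtain ⟨g, h1, h2⟩ := PLift_ext hA (f := fun x => ((e (φ x)).toCircle : ℂ))
    ((continuous_subtype_val.comp (AddCircle.homeomorphCircle'.continuous.comp
      e.continuous)).comp_continuousOn h)
  refine ⟨{x | g x ≠ 0}, fun x => e.symm (Complex.arg (g x)), isOpen_ne_fun h1 continuous_const,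
    fun x hx => ?_, fun x hx => ?_, fun x hx => ?_⟩
  · exact (h2 hx).trans_ne (Circle.coe_ne_zero _)
  · exact (e.symm.continuous.continuousAt.comp
      ((Complex.continuousAt_arg_coe_angle hx).comp h1.continuousAt)).continuousWithinAt
  · simp only [h2 hx, Real.Angle.arg_toCircle, e.symm_apply_apply]

theorem lift_surg {D D₁ D₂ J : Set X} (h : Lift (D₁ ∪ D₂)) (hD : Lift D) (c : IsClosed D)
    (c1 : IsClosed D₁) (c2 : IsClosed D₂) (i : D₁ ∩ D₂ = J) (i1 : D₁ ∩ D = J)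
    (hJ : IsPreconnected J) : Lift (D₁ ∪ D) := by
  intro φ hφ
  have l := hD φ (hφ.mono subset_union_right)
  obtain ⟨ψ, h1, h2⟩ := lift_ext c l
  obtain ⟨F, h3, h4, h5, -⟩ := PLift_pw (hφ.mono subset_union_left) (B := D₂)
    (PLift_cont.comp h1).continuousOn fun x hx => (h2 x (i1.ge (i.le hx)).2).symm
  obtain ⟨G, h6, h7, h8⟩ := PLift_un (i1 ▸ hJ)
    ((Lifts.mono (h F (h3.union_of_isClosed h4 c1 c2)) subset_union_left).congr h5) l
  exact ⟨G, h6.union_of_isClosed h7 c1 c, h8⟩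

theorem lift_unicoh (h : Lift (A ∪ B)) (c1 : IsClosed A) (c2 : IsClosed B)
    (hA : IsPreconnected A) (hB : IsPreconnected B) : IsPreconnected (A ∩ B) := by
  refine (isPreconnected_iff_subset_of_fully_disjoint_closed (c1.inter c2)).2
    fun u v hu hv hs hd => by_contra fun hn => ?_
  obtain ⟨⟨x, hx, hxu⟩, y, hy, hyv⟩ := (not_or.1 hn).imp not_subset.1 not_subset.1
  obtain ⟨η, e0, e1, -⟩ := exists_continuous_zero_one_of_isClosed hu hv hd
  obtain ⟨F, h1, h2, h3, h4⟩ := PLift_pw (PLift_cont.comp η.continuous).continuousOn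
    (continuousOn_const (s := B) (c := ((0 : ℝ) : UnitAddCircle))) (A := A) fun z hz =>
      (hs hz).elim (fun k => congrArg _ (e0 k))
        fun k => (congrArg _ ((e1 k).trans (by simp))).trans (PLift_int 0 1)
  obtain ⟨ψ, h5, h6⟩ := h F (h1.union_of_isClosed h2 c1 c2)
  obtain ⟨k, hk⟩ := lift_uniq hA η.continuous.continuousOn (h5.mono subset_union_left)
    fun z hz => (h3 hz).symm.trans (h6 z (Or.inl hz)).symm
  obtain ⟨l, hl⟩ := lift_uniq hB (continuousOn_const (c := 0)) (h5.mono subset_union_right)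
    fun z hz => (h4 hz).symm.trans (h6 z (Or.inr hz)).symm
  have h7 := (hk x hx.1).symm.trans (hl x hx.2)
  have h8 := (hk y hy.1).symm.trans (hl y hy.2)
  rw [e1 ((hs hx).resolve_left hxu)] at h7
  rw [e0 ((hs hy).resolve_right hyv)] at h8
  simpa using h7.trans h8.symm

/-- A loop along which `φ` has a lift with different end values. -/
theorem not_lifts {γ : ℝ → X} (hγ : ContinuousOn γ (Icc 0 1)) (hm : MapsTo γ (Icc 0 1) S)
    (e : γ 0 = γ 1) {ψ : ℝ → ℝ} (hψ : ContinuousOn ψ (Icc 0 1))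
    (hl : ∀ t ∈ Icc (0 : ℝ) 1, (ψ t : UnitAddCircle) = φ (γ t)) (hne : ψ 0 ≠ ψ 1) :
    ¬ Lifts φ S := by
  rintro ⟨χ, h1, h2⟩
  obtain ⟨k, hk⟩ := lift_uniq isPreconnected_Icc hψ (h1.comp hγ hm)
    fun t ht => (hl t ht).trans (h2 _ (hm ht)).symm
  exact hne (add_right_cancel ((hk 0 (by simp)).symm.trans
    ((congrArg χ e).trans (hk 1 (by simp)))))

end BEp
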