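import Pool.Agent.Work.MP_f0515e_an.D3.PTop
import Pool.Agent.Work.MP_f0515e_an.D3.PGl

/-! Tangent cones and links.
`tp_der`: `ρ` from `tp_homog`, `G` the cone (`plc_tp`, norm gauge, `u = ρ`) of `ξ ↦ g (x + ξ) - g x`.
`Poly.tc_iff`: `Poly.homog`. `Poly.lk`: the link is the image of `X ∩ sphere x ρ` under `y ↦ ρ⁻¹ • (y - x)`.
`lk_image`: `k v = ‖G v‖⁻¹ • G v`; `G` is injective on the tangent cone of `X` and vanishes there only at `0`
(`InjOn g X` near `x` and homogeneity); for `Y ⊆ X`: `tc (g '' Y) (g x) = G '' tc Y x`, because points of `g '' Y` near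
`g x` come from points of `Y` near `x` (`Poly.expand`). `face_prod`: functionals not vanishing at `x` keep their sign
near `x`, the others kill `v`. `tc_face`: for small `t`, `x + t v` and `y + t v` lie in the same face. About 300 lines. -/

open Set Metric Filter Topology Function BEv
open scoped NNReal

noncomputable section
namespace BEp

variable {n m : ℕ}

variable {X Y S : Set (Rn n)} {x v : Rn n}

theorem tp_der {g : Rn n → Rn m} (hg : TP g) (x : Rn n) : ∃ G : Rn n → Rn m, TP G ∧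
    (∀ ξ (t : ℝ), 0 ≤ t → G (t • ξ) = t • G ξ) ∧
    ∃ ρ > 0, ∀ ξ, ‖ξ‖ ≤ ρ → g (x + ξ) = g x + G ξ := by
  obtain ⟨ρ, hρ, h⟩ := tp_homog hg x
  refine ⟨fun ξ => (‖ξ‖ / ρ) • (g (x + (ρ / ‖ξ‖) • ξ) - g x), ?_, fun ξ t ht => ?_, ρ, hρ,
    fun ξ hξ => ?_⟩
  · simpa using ((plc_tp (v := x) gauge_norm hg hρ).comp ((TP.const x).add TP.id')).sub
      (TP.const (g x))
  · rcases ht.eq_or_lt with rfl | ht
    · simp
    · have e : ρ / ‖t • ξ‖ * t = ρ / ‖ξ‖ := by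
        rw [norm_smul, Real.norm_of_nonneg ht.le, mul_comm t, ← div_div, div_mul_cancel₀ _ ht.ne']
      simp only [smul_smul, e]
      rw [norm_smul, Real.norm_of_nonneg ht.le, mul_div_assoc]
  · have e := plc_rad gauge_norm hρ ξ
    have := h ((ρ / ‖ξ‖) • ξ) ?_ (‖ξ‖ / ρ) ⟨by positivity, (div_le_one hρ).2 hξ⟩
    · rwa [e] at this
    · rw [norm_smul, Real.norm_of_nonneg (by positivity), div_mul_comm]
      exact mul_le_of_le_one_left hρ.le (div_self_le_one _)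

theorem tp_der1 {g : Rn n → ℝ} (hg : TP g) (x : Rn n) : ∃ G : Rn n → ℝ, TP G ∧
    (∀ ξ (t : ℝ), 0 ≤ t → G (t • ξ) = t * G ξ) ∧
    ∃ ρ > 0, ∀ ξ, ‖ξ‖ ≤ ρ → g (x + ξ) = g x + G ξ := by
  obtain ⟨G, h1, h2, ρ, hρ, h3⟩ := tp_der (g := fun y (_ : Fin 1) => g y) (TP.pi fun _ => hg) x
  exact ⟨fun ξ => G ξ 0, h1.apply 0, fun ξ t ht => congrFun (h2 ξ t ht) 0, ρ, hρ,
    fun ξ hξ => congrFun (h3 ξ hξ) 0⟩

theorem YPLk_tc : v ∈ tc S x ↔ ∀ᶠ t in 𝓝[>] (0 : ℝ), x + t • v ∈ S := Iff.rfl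

theorem YPLk_smul {t : ℝ} (ht : 0 < t) (h : v ∈ tc S x) : t • v ∈ tc S x := by
  have k : Tendsto (fun s : ℝ => s * t) (𝓝[>] 0) (𝓝[>] 0) :=
    tendsto_nhdsWithin_iff.2 ⟨((continuous_mul_const t).tendsto' 0 0 (zero_mul t)).mono_left
      nhdsWithin_le_nhds, eventually_mem_nhdsWithin.mono fun s hs => mul_pos hs ht⟩
  exact (k.eventually (YPLk_tc.1 h)).mono fun s hs => by rwa [smul_smul]

theorem YPLk_ray (x v : Rn n) : Tendsto (fun t : ℝ => x + t • v) (𝓝[>] 0) (𝓝 x) :=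
  (Continuous.tendsto' (by fun_prop) 0 x (by simp)).mono_left nhdsWithin_le_nhds

theorem YPLk_small (v : Rn n) {ρ : ℝ} (hρ : 0 < ρ) : ∀ᶠ t in 𝓝[>] (0 : ℝ), ‖t • v‖ ≤ ρ := by
  simpa using (YPLk_ray 0 v).eventually (closedBall_mem_nhds 0 hρ)

theorem YPLk_not (hX : IsClosed X) (hx : x ∉ X) (v : Rn n) : v ∉ tc X x := fun h => by
  obtain ⟨t, h1, h2⟩ := ((YPLk_tc.1 h).and
    ((YPLk_ray x v).eventually (hX.isOpen_compl.mem_nhds hx))).exists
  exact h2 h1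

theorem tc_smul {t : ℝ} (ht : 0 < t) : t • v ∈ tc S x ↔ v ∈ tc S x := by
  refine ⟨fun h => ?_, YPLk_smul ht⟩
  simpa only [inv_smul_smul₀ ht.ne'] using YPLk_smul (inv_pos.2 ht) h

theorem tc_congr (h : ∀ᶠ y in 𝓝 x, y ∈ X ↔ y ∈ Y) : tc X x = tc Y x := by
  exact Set.ext fun v => eventually_congr ((YPLk_ray x v).eventually h)

theorem lk_congr (h : ∀ᶠ y in 𝓝 x, y ∈ X ↔ y ∈ Y) : lk X x = lk Y x := by
  rw [lk, lk, tc_congr h]

theorem lk_mono (h : X ⊆ Y) (x : Rn n) : lk X x ⊆ lk Y x := by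
  exact fun v hv => ⟨hv.1, (YPLk_tc.1 hv.2).mono fun t ht => h ht⟩

theorem lk_inter (X Y : Set (Rn n)) (x : Rn n) : lk (X ∩ Y) x = lk X x ∩ lk Y x := by
  exact Set.ext fun v => ⟨fun h => ⟨lk_mono inter_subset_left x h, lk_mono inter_subset_right x h⟩,
    fun h => ⟨h.1.1, (YPLk_tc.1 h.1.2).and (YPLk_tc.1 h.2.2)⟩⟩

theorem lk_empty (hX : IsClosed X) (hx : x ∉ X) : lk X x = ∅ := by
  exact eq_empty_of_forall_notMem fun v hv => YPLk_not hX hx v hv.2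

theorem Poly.tc_iff (hX : Poly X) (x : Rn n) :
    ∃ ρ > 0, ∀ ξ, ‖ξ‖ ≤ ρ → (x + ξ ∈ X ↔ ξ ∈ tc X x) := by
  by_cases hx : x ∈ X
  · obtain ⟨ρ, hρ, h⟩ := hX.homog hx
    have e : Ioc (0 : ℝ) 1 ∈ 𝓝[>] (0 : ℝ) := Ioc_mem_nhdsGT one_pos
    refine ⟨ρ, hρ, fun ξ hξ => ⟨fun k => ?_, fun k => ?_⟩⟩
    · exact mem_of_superset e fun t ht => (h ξ hξ t ht).2 k
    · obtain ⟨t, h1, h2⟩ := ((YPLk_tc.1 k).and e).exists
      exact (h ξ hξ t h2).1 h1
  · obtain ⟨ε, hε, h⟩ := Metric.isOpen_iff.1 hX.1.isClosed.isOpen_compl x hx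
    refine ⟨ε / 2, half_pos hε, fun ξ hξ => iff_of_false (h ?_) (YPLk_not hX.1.isClosed hx ξ)⟩
    rw [mem_ball_iff_norm, add_sub_cancel_left]
    linarith

theorem lk_union (hX : Poly X) (hY : Poly Y) (x : Rn n) : lk (X ∪ Y) x = lk X x ∪ lk Y x := by
  refine Subset.antisymm (fun v hv => ?_)
    (union_subset (lk_mono subset_union_left x) (lk_mono subset_union_right x))
  obtain ⟨ρ, hρ, h⟩ := hX.tc_iff x
  obtain ⟨ρ', hρ', h'⟩ := hY.tc_iff x
  obtain ⟨t, ⟨⟨h1, h2⟩, h3⟩, ht⟩ := ((((YPLk_tc.1 hv.2).and (YPLk_small v hρ)).and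
    (YPLk_small v hρ')).and self_mem_nhdsWithin).exists
  exact h1.imp (fun k => ⟨hv.1, (tc_smul ht).1 ((h _ h2).1 k)⟩)
    fun k => ⟨hv.1, (tc_smul ht).1 ((h' _ h3).1 k)⟩

theorem Poly.lk_sphere (hX : Poly X) (x : Rn n) : ∃ ρ > 0, ∀ r, 0 < r → r ≤ ρ →
    X ∩ sphere x r = (fun v => x + r • v) '' lk X x := by
  obtain ⟨ρ, hρ, h⟩ := hX.tc_iff x
  refine ⟨ρ, hρ, fun r hr hrρ => Set.ext fun y => ⟨fun ⟨h1, h2⟩ => ?_, ?_⟩⟩
  · rw [mem_sphere_iff_norm] at h2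
    refine ⟨r⁻¹ • (y - x), ⟨?_, (tc_smul (inv_pos.2 hr)).2 ((h _ (h2.trans_le hrρ)).1 ?_)⟩, ?_⟩
    · rw [norm_smul, h2, norm_inv, Real.norm_of_nonneg hr.le, inv_mul_cancel₀ hr.ne']
    · rwa [add_sub_cancel]
    · simp only [smul_inv_smul₀ hr.ne', add_sub_cancel]
  · rintro ⟨v, ⟨h1, h2⟩, rfl⟩
    have e : ‖r • v‖ = r := by rw [norm_smul, h1, mul_one, Real.norm_of_nonneg hr.le]
    exact ⟨(h _ (e.trans_le hrρ)).2 ((tc_smul hr).2 h2),
      by rw [mem_sphere_iff_norm, add_sub_cancel_left, e]⟩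

theorem Poly.lk (hX : Poly X) (x : Rn n) : Poly (lk X x) := by
  obtain ⟨ρ, hρ, h⟩ := hX.lk_sphere x
  have := (hX.inter (poly_sphere x ρ)).image ((TP.id'.sub (TP.const x)).const_smul ρ⁻¹)
  rw [h ρ hρ le_rfl, image_image] at this
  simpa only [add_sub_cancel_left, inv_smul_smul₀ hρ.ne', image_id'] using this

theorem lk_image (hX : Poly X) {g : Rn n → Rn m} (hg : TP g) (hi : InjOn g X) (hx : x ∈ X) :
    ∃ k : Rn n → Rn m, ContinuousOn k (lk X x) ∧ InjOn k (lk X x) ∧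
      ∀ Y ⊆ X, Poly Y → k '' lk Y x = lk (g '' Y) (g x) := by
  obtain ⟨G, hG, hom, ρ, hρ, loc⟩ := tp_der hg x
  obtain ⟨c, hc, ex⟩ := hX.expand hg hi
  have G0 : G 0 = 0 := by simpa using hom 0 0 le_rfl
  have inj : ∀ v ∈ tc X x, ∀ w ∈ tc X x, G v = G w → v = w := fun v hv w hw e => by
    obtain ⟨t, ⟨⟨⟨h1, h2⟩, h3⟩, h4⟩, ht⟩ := (((((YPLk_tc.1 hv).and (YPLk_tc.1 hw)).and
      (YPLk_small v hρ)).and (YPLk_small w hρ)).and self_mem_nhdsWithin).exists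
    have ht' : 0 < t := ht
    have := hi h1 h2 (by rw [loc _ h3, loc _ h4, hom _ _ ht'.le, hom _ _ ht'.le, e])
    exact smul_right_injective _ ht'.ne' (add_left_cancel this)
  have z : (0 : Rn n) ∈ tc X x := YPLk_tc.2 (Eventually.of_forall fun t => by simpa using hx)
  have ne : ∀ v ∈ lk X x, 0 < ‖G v‖ := fun v hv => norm_pos_iff.2 fun e => by
    have := hv.1
    rw [inj v hv.2 0 z (e.trans G0.symm), norm_zero] at this
    exact zero_ne_one this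
  have kG : ∀ v, ‖G v‖⁻¹ • G v = G (‖G v‖⁻¹ • v) := fun v => (hom _ _ (by positivity)).symm
  refine ⟨fun v => ‖G v‖⁻¹ • G v, (hG.continuous.norm.continuousOn.inv₀
    fun v hv => (ne v hv).ne').smul hG.continuous.continuousOn, fun v hv w hw e => ?_,
      fun Y hYX hY => ?_⟩
  · simp only [kG] at e
    have e1 := inj _ ((tc_smul (inv_pos.2 (ne v hv))).2 hv.2) _
      ((tc_smul (inv_pos.2 (ne w hw))).2 hw.2) e
    have e2 := congrArg norm e1
    rw [norm_smul, norm_smul, hv.1, hw.1, mul_one, mul_one, norm_inv, norm_inv, norm_norm,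
      norm_norm] at e2
    rw [e2] at e1
    exact smul_right_injective _ (inv_pos.2 (ne w hw)).ne' e1
  obtain ⟨ρ', hρ', hY'⟩ := hY.tc_iff x
  refine Subset.antisymm ?_ fun u hu => ?_
  · rintro _ ⟨v, hv, rfl⟩
    have hp := ne v (lk_mono hYX x hv)
    refine ⟨by rw [norm_smul, norm_inv, norm_norm, inv_mul_cancel₀ hp.ne'],
      (tc_smul (inv_pos.2 hp)).2 (YPLk_tc.2 ?_)⟩
    filter_upwards [YPLk_tc.1 hv.2, YPLk_small v hρ, self_mem_nhdsWithin] with t h1 h2 ht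
    exact ⟨_, h1, by rw [loc _ h2, hom _ _ (le_of_lt ht)]⟩
  · obtain ⟨t, ⟨⟨y, hy, e⟩, h2⟩, ht⟩ := (((YPLk_tc.1 hu.2).and
      (YPLk_small u (mul_pos hc (lt_min hρ hρ')))).and self_mem_nhdsWithin).exists
    have ht' : 0 < t := ht
    have h3 := ex y (hYX hy) x hx
    rw [e, add_sub_cancel_left] at h3
    have h4 := le_min_iff.1 (le_of_mul_le_mul_left (h3.trans h2) hc)
    have h5 : G (y - x) = t • u := by
      have := loc _ h4.1
      rw [add_sub_cancel, e] at this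
      exact (add_left_cancel this).symm
    have h6 : 0 < ‖y - x‖ := norm_pos_iff.2 fun k => by
      rw [k, G0] at h5
      have := congrArg norm h5
      rw [norm_zero, norm_smul, hu.1, mul_one, Real.norm_of_nonneg ht'.le] at this
      exact ht'.ne this
    have hi6 := inv_pos.2 h6
    refine ⟨‖y - x‖⁻¹ • (y - x), ⟨by rw [norm_smul, norm_inv, norm_norm, inv_mul_cancel₀ h6.ne'],
      (tc_smul hi6).2 ((hY' _ h4.2).1 (by rwa [add_sub_cancel]))⟩, ?_⟩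
    have hp := mul_pos hi6 ht'
    simp only [hom _ _ hi6.le, h5, smul_smul]
    rw [norm_smul, hu.1, mul_one, Real.norm_of_nonneg hp.le, inv_mul_cancel₀ hp.ne', one_smul]

theorem lk_ncard_image (hX : Poly X) {g : Rn n → Rn m} (hg : TP g) (hi : InjOn g X) (hx : x ∈ X) :
    (lk (g '' X) (g x)).ncard = (lk X x).ncard ∧
      ((lk (g '' X) (g x)).Finite ↔ (lk X x).Finite) := by
  obtain ⟨k, -, h1, h2⟩ := lk_image hX hg hi hx
  rw [← h2 X Subset.rfl hX]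
  exact ⟨h1.ncard_image, finite_image_iff h1⟩

theorem Surf.image (hS : Surf S) {g : Rn n → Rn m} (hg : TP g) (hi : InjOn g S) :
    Surf (g '' S) := by
  refine ⟨hS.poly.image hg, hS.pc.image hS.poly.1.isBounded hg, ?_⟩
  rintro _ ⟨x, hx, rfl⟩
  obtain ⟨k, h0, h1, h2⟩ := lk_image hS.poly hg hi hx
  rw [← h2 S Subset.rfl hS.poly]
  exact (hS.crc x hx).image h0 h1

theorem Rg.image (hS : Poly S) {g : Rn n → Rn m} (hg : TP g) (hi : InjOn g S) {h : Rn n → ℝ}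
    (hh : TP h) {h' : Rn m → ℝ} (he : ∀ y ∈ S, h' (g y) = h y) (hx : x ∈ S) (hr : Rg S h x) :
    Rg (g '' S) h' (g x) := by
  have e : ∀ p : ℝ → Prop, {y ∈ g '' S | p (h' y)} = g '' {y ∈ S | p (h y)} := fun p => by
    ext y
    constructor
    · rintro ⟨⟨z, hz, rfl⟩, k⟩
      exact ⟨z, ⟨hz, he z hz ▸ k⟩, rfl⟩
    · rintro ⟨z, ⟨hz, k⟩, rfl⟩
      exact ⟨⟨z, hz, rfl⟩, (he z hz).symm ▸ k⟩
  refine ⟨?_, ?_, ?_⟩ <;> rw [he x hx]
  · rw [e (· = h x), (lk_ncard_image (poly_eq hS hh _) hg (hi.mono (sep_subset _ _))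
      ⟨hx, rfl⟩).1, hr.two]
  · rw [e (h x < ·)]
    exact mem_closure_image hg.continuous.continuousAt hr.up
  · rw [e (· < h x)]
    exact mem_closure_image hg.continuous.continuousAt hr.dn

theorem Rg.congr {h : Rn n → ℝ} (hr : Rg X h x) (he : ∀ᶠ y in 𝓝 x, y ∈ X ↔ y ∈ Y) :
    Rg Y h x := by
  have e : ∀ p : Rn n → Prop, ∀ᶠ y in 𝓝 x, y ∈ {y ∈ X | p y} ↔ y ∈ {y ∈ Y | p y} := fun p =>
    he.mono fun y k => and_congr_left' k
  refine ⟨by rw [← lk_congr (e _), hr.two], ?_, ?_⟩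
  · exact mem_closure_iff_frequently.2 ((mem_closure_iff_frequently.1 hr.up).mp
      ((e _).mono fun y k => k.1))
  · exact mem_closure_iff_frequently.2 ((mem_closure_iff_frequently.1 hr.dn).mp
      ((e _).mono fun y k => k.1))

theorem Rg.aff {h : Rn n → ℝ} (hr : Rg S h x) {a : ℝ} (ha : a ≠ 0) (b : ℝ) :
    Rg S (fun y => a * h y + b) x := by
  have e : {y ∈ S | a * h y + b = a * h x + b} = {y ∈ S | h y = h x} := by
    simp only [add_left_inj, mul_right_inj' ha]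
  rcases ha.lt_or_gt with ha | ha
  · exact ⟨e ▸ hr.two, closure_mono (fun y k => And.intro k.1 (by nlinarith [k.2])) hr.dn,
      closure_mono (fun y k => And.intro k.1 (by nlinarith [k.2])) hr.up⟩
  · exact ⟨e ▸ hr.two, closure_mono (fun y k => And.intro k.1 (by nlinarith [k.2])) hr.up,
      closure_mono (fun y k => And.intro k.1 (by nlinarith [k.2])) hr.dn⟩

theorem YPLk_ev (A : (Rn n →L[ℝ] ℝ) × ℝ) (y v : Rn n) (t : ℝ) :
    ev A (y + t • v) = ev A y + t * A.1 v := by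
  simp only [ev, map_add, map_smul, smul_eq_mul]
  ring

theorem YPLk_sign {α : Type} {l : Filter α} {f : α → ℝ} {a : ℝ} (h : Tendsto f l (𝓝 a))
    (ha : a ≠ 0) : ∀ᶠ p in l, SignType.sign (f p) = SignType.sign a := by
  rcases ha.lt_or_gt with ha | ha
  · exact (h.eventually (gt_mem_nhds ha)).mono fun p k => by rw [sign_neg k, sign_neg ha]
  · exact (h.eventually (lt_mem_nhds ha)).mono fun p k => by rw [sign_pos k, sign_pos ha]

theorem YPLk_sgn {L : Set ((Rn n →L[ℝ] ℝ) × ℝ)} (hL : L.Finite) (x v : Rn n) :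
    ∀ᶠ t in 𝓝[>] (0 : ℝ), ∀ A ∈ L, SignType.sign (ev A (x + t • v)) =
      if ev A x = 0 then SignType.sign (A.1 v) else SignType.sign (ev A x) := by
  refine (eventually_all_finite hL).2 fun A _ => ?_
  split_ifs with h
  · filter_upwards [self_mem_nhdsWithin] with t ht
    rw [YPLk_ev, h, zero_add, sign_mul, sign_pos ht, one_mul]
  · exact YPLk_sign (((St1_cont A).tendsto x).comp (YPLk_ray x v)) h

theorem face_prod {L : Set ((Rn n →L[ℝ] ℝ) × ℝ)} (hL : L.Finite) (hv : v ∈ fdir L x) :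
    ∀ᶠ p : Rn n × ℝ in 𝓝 (x, 0), p.1 + p.2 • v ∈ face L p.1 := by
  refine (eventually_all_finite hL).2 fun A hA => ?_
  by_cases h : ev A x = 0
  · exact Eventually.of_forall fun p => by rw [YPLk_ev, hv A hA h, mul_zero, add_zero]
  · have c1 : Continuous fun p : Rn n × ℝ => ev A (p.1 + p.2 • v) :=
      (St1_cont A).comp (by fun_prop)
    have c2 : Continuous fun p : Rn n × ℝ => ev A p.1 := (St1_cont A).comp continuous_fst
    filter_upwards [YPLk_sign (c1.tendsto' (x, 0) _ (by simp)) h,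
      YPLk_sign (c2.tendsto' (x, 0) _ rfl) h] with p h1 h2
    rw [h1, h2]

theorem tc_face {L : Set ((Rn n →L[ℝ] ℝ) × ℝ)} (hL : L.Finite) (hX : ∀ z ∈ X, face L z ⊆ X)
    {y : Rn n} (hy : y ∈ face L x) : tc X y = tc X x := by
  have k : ∀ x y : Rn n, y ∈ face L x → tc X x ⊆ tc X y := fun x y hy v hv => YPLk_tc.2 <| by
    filter_upwards [YPLk_tc.1 hv, YPLk_sgn hL x v, YPLk_sgn hL y v] with t h1 h2 h3
    refine hX _ h1 fun A hA => ?_
    rw [h2 A hA, h3 A hA, hy A hA]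
    simp only [St1_zero (hy A hA)]
  exact Subset.antisymm (k y x fun A hA => (hy A hA).symm) (k x y hy)

/-- For small `t` the points `x + t v` lie in one face, whose direction contains `v`. -/
theorem face_ray {L : Set ((Rn n →L[ℝ] ℝ) × ℝ)} (hL : L.Finite) (x v : Rn n) :
    ∃ z, v ∈ fdir L z ∧ x ∈ cface L z ∧ ∀ᶠ t in 𝓝[>] (0 : ℝ), x + t • v ∈ face L z := by
  obtain ⟨s, hs⟩ := (YPLk_sgn hL x v).exists
  refine ⟨x + s • v, fun A hA e => ?_, fun A hA => ?_,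
    (YPLk_sgn hL x v).mono fun t ht A hA => (ht A hA).trans (hs A hA).symm⟩
  · have := hs A hA
    rw [e, sign_zero] at this
    split_ifs at this with h
    · exact sign_eq_zero_iff.1 this.symm
    · exact absurd (sign_eq_zero_iff.1 this.symm) h
  · by_cases h : ev A x = 0
    · exact Or.inl h
    · exact Or.inr (by rw [hs A hA, if_neg h])

theorem PC.lk_finite (hX : Poly X) (h : PC 1 X) (x : Rn n) : (lk X x).Finite := by
  obtain ⟨T, hT, hd, hc⟩ := h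
  refine (hT.biUnion (t := fun P => {v : Rn n | v ∈ P.direction ∧ ‖v‖ = 1}) fun P hP => ?_).subset
    fun v hv => ?_
  · obtain ⟨w, hw⟩ := finrank_le_one_iff.1 (hd P hP)
    refine ((finite_singleton (-‖(w : Rn n)‖⁻¹ • (w : Rn n))).insert
      (‖(w : Rn n)‖⁻¹ • (w : Rn n))).subset fun u hu => ?_
    obtain ⟨c, e⟩ := hw ⟨u, hu.1⟩
    have e' : c • (w : Rn n) = u := congrArg Subtype.val e
    have e2 := hu.2
    rw [← e', norm_smul, Real.norm_eq_abs] at e2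
    rw [← e', ← eq_inv_of_mul_eq_one_left e2]
    rcases abs_choice c with k | k <;> simp [k]
  · obtain ⟨ε, hε, k⟩ := (mem_nhdsGT_iff_exists_Ioo_subset).1 (YPLk_tc.1 hv.2)
    choose! f hf using hc
    obtain ⟨s, hs, t, ht, hst, e⟩ := (Ioo_infinite hε).exists_ne_map_eq_of_mapsTo
      (f := fun t : ℝ => f (x + t • v)) (fun t ht => (hf _ (k ht)).1) hT
    refine mem_biUnion (hf _ (k hs)).1 ⟨?_, hv.1⟩
    have := AffineSubspace.vsub_mem_direction (hf _ (k hs)).2 (e ▸ (hf _ (k ht)).2)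
    rw [vsub_eq_sub, add_sub_add_left_eq_sub, ← sub_smul] at this
    exact (Submodule.smul_mem_iff _ (sub_ne_zero.2 hst)).1 this

end BEp
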