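import Pool.Agent.Work.MP_f0515e_an.D3.PArc
import Pool.Agent.Work.MP_f0515e_an.D3.PLk

/-! One dimensional polyhedra.
`tcrc_lk`: three link points give three small segments from `x` (`tcrc_no_triod`, this also gives finiteness); with at most
one link point `X` near `x` lies in a half open segment with end `x`, and the coordinate along it composed with the
parametrisation is continuous, injective near the parameter of `x` and minimal there, against strict monotonicity.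
`oneman`: take `L` adapted to `X`; finite links force `fdim ≤ 1` on `X` (`face_open`); every point lies on the closure of an
edge (face of dimension one, a bounded open segment). Induct on the number of edges in `X`, for fixed `L`: remove an
edge `e` with ends `a`, `b`, `X' = closure (X \ segment a b)`, the links of `X'` agree with those of `X` off `a`, `b` and lose one
point there; four cases (new arc, extension by `arc_glue`, junction of two arcs, closing by `crc_glue`).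
`petals`: remove the open ball of radius `r` round `z` (`Poly.lk_sphere` with `2 r ≤ ρ`), `oneman`, close each arc by two radii.
`crc_finite`: take an arrangement adapted to `X`; each edge of `X` which
meets the circle lies in it (closed and open in the edge, by `tcrc_lk`), and the circle is the closure of the union of these
edges (`TCrc.cl_diff`). About 450 lines; split into `POneX` if convenient. -/

open Set Metric Filter Topology Function BEv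
open scoped NNReal

noncomputable section
namespace BEp

variable {n m : ℕ}

variable {X C A : Set (Rn n)} {x a b z : Rn n}

theorem POne_fin {F : Set (Rn n)} (hF : F.Finite) (x : Rn n) : lk F x = ∅ := by
  refine eq_empty_of_forall_notMem fun v hv => ?_
  obtain ⟨u, hu, h⟩ := mem_nhdsGT_iff_exists_Ioo_subset.1 hv.2
  have h0 : v ≠ 0 := norm_ne_zero_iff.1 (by rw [hv.1]; exact one_ne_zero)
  exact Ioo_infinite hu ((hF.preimage (f := fun t : ℝ => x + t • v)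
    fun s _ t _ e => smul_left_injective ℝ h0 (add_left_cancel e)).subset h)

theorem POne_disj {Y : Set (Rn n)} (h : (X ∩ Y).Finite) (x : Rn n) :
    Disjoint (lk X x) (lk Y x) := by
  rw [disjoint_iff_inter_eq_empty, ← lk_inter, POne_fin h]

theorem POne_germ {Y : Set (Rn n)} (hX : Poly X) (hY : Poly Y) (hx : x ∈ Y)
    (h : lk X x ⊆ lk Y x) : ∀ᶠ y in 𝓝 x, y ∈ X → y ∈ Y := by
  obtain ⟨ρ, h0, h1⟩ := hX.lk_sphere x
  obtain ⟨ρ', h0', h2⟩ := hY.lk_sphere x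
  filter_upwards [closedBall_mem_nhds x h0, closedBall_mem_nhds x h0'] with y k1 k2 hy
  rcases (dist_nonneg (x := y) (y := x)).eq_or_lt with e | e
  · rwa [dist_eq_zero.1 e.symm]
  · have : y ∈ X ∩ sphere x (dist y x) := ⟨hy, rfl⟩
    rw [h1 _ e k1] at this
    exact (h2 _ e k2 ▸ image_mono h this : y ∈ Y ∩ sphere x (dist y x)).1

theorem POne_clopen {s t : Set (Rn n)} (hs : IsPreconnected s) (ht : IsClosed t) (hx : x ∈ s)
    (hx' : x ∈ t) (h : ∀ y ∈ s, y ∈ t → ∀ᶠ w in 𝓝 y, w ∈ s → w ∈ t) : s ⊆ t := by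
  have := isPreconnected_iff_preconnectedSpace.1 hs
  have e := IsClopen.eq_univ (s := (Subtype.val : s → Rn n) ⁻¹' t)
    ⟨ht.preimage continuous_subtype_val, isOpen_iff_mem_nhds.2 fun y hy =>
      preimage_coe_mem_nhds_subtype.2 (eventually_nhdsWithin_iff.2 (h y y.2 hy))⟩ ⟨⟨x, hx⟩, hx'⟩
  exact fun y hy => (e ▸ mem_univ _ : (⟨y, hy⟩ : s) ∈ (Subtype.val : s → Rn n) ⁻¹' t)

theorem POne_ne (hA : Poly A) (h : TArc A a b) (hx : x ∈ A) : (lk A x).Nonempty := by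
  by_contra hn
  have := POne_clopen h.conn isClosed_singleton hx rfl fun y _ (e : y = x) => by
    subst e
    exact POne_germ hA (Poly.finite (finite_singleton y)) rfl fun v hv => (hn ⟨v, hv⟩).elim
  exact h.ne ((this h.left).trans (this h.right).symm)

theorem POne_end (hA : Poly A) (h : TArc A a b) : (lk A a).ncard = 1 := by
  obtain ⟨v, hv⟩ := POne_ne hA h h.left
  obtain ⟨ρ, h0, hρ⟩ := hA.tc_iff a
  obtain ⟨f, f1, f2, f3, -, f4⟩ := tarc_inv h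
  have hm : ∀ w ∈ lk A a, ∀ t ∈ Icc 0 ρ, a + t • w ∈ A := fun w hw t ht => by
    rcases ht.1.eq_or_lt with rfl | e
    · simpa using h.left
    · exact (hρ _ (by rw [norm_smul, hw.1, mul_one, Real.norm_of_nonneg ht.1]; exact ht.2)).2
        ((tc_smul e).2 hw.2)
  have key : ∀ v ∈ lk A a, ∀ w ∈ lk A a, f (a + ρ • v) ≤ f (a + ρ • w) → w = v := by
    intro v hv w hw hle
    have k := hm v hv ρ ⟨h0.le, le_rfl⟩
    obtain ⟨t, ht, e⟩ := intermediate_value_Icc (f := fun t : ℝ => f (a + t • w)) h0.le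
      (f1.comp (by fun_prop) (hm w hw)) (show f (a + ρ • v) ∈ _ from
      ⟨by simpa [f3] using (f4 ▸ mem_image_of_mem f k : f _ ∈ Icc (0 : ℝ) 1).1, hle⟩)
    have e1 := add_left_cancel (f2 (hm w hw t ht) k e)
    have e2 := congrArg norm e1
    rw [norm_smul, norm_smul, hv.1, hw.1, Real.norm_of_nonneg ht.1, Real.norm_of_nonneg h0.le,
      mul_one, mul_one] at e2
    exact smul_right_injective _ h0.ne' (e2 ▸ e1)
  exact ncard_eq_one.2 ⟨v, eq_singleton_iff_unique_mem.2 ⟨hv, fun w hw =>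
    (le_total _ _).elim (key v hv w hw) fun e => (key w hw v hv e).symm⟩⟩

theorem POne_two {A' : Set (Rn n)} (hX : Poly (A ∪ A')) (h : TArc A x a) (h' : TArc A' x b)
    (hi : (A ∩ A').Finite) : (lk (A ∪ A') x).ncard = 2 := by
  have p1 := poly_piece hX (Poly.finite hi) h.compact.isClosed h'.compact.isClosed rfl rfl
  have p2 := poly_piece hX (Poly.finite hi) h'.compact.isClosed h.compact.isClosed
    (union_comm _ _) (inter_comm _ _)
  have e1 := POne_end p1 h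
  have e2 := POne_end p2 h'
  rw [lk_union p1 p2, ncard_union_eq (POne_disj hi x) (finite_of_ncard_ne_zero (by omega))
    (finite_of_ncard_ne_zero (by omega)), e1, e2]

theorem tcrc_lk (hC : Poly C) (h : TCrc C) (hx : x ∈ C) : (lk C x).ncard = 2 := by
  obtain ⟨y, hy, hne⟩ := h.infinite.nontrivial.exists_ne x
  obtain ⟨A, A', h1, h2, rfl, hi⟩ := tcrc_split h hx hy hne.symm
  exact POne_two hC h1 h2 (hi ▸ toFinite _)

theorem tarc_lk (hA : Poly A) (h : TArc A a b) (hx : x ∈ A) :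
    (x = a ∨ x = b → (lk A x).ncard = 1) ∧ (x ≠ a → x ≠ b → (lk A x).ncard = 2) := by
  refine ⟨?_, fun ha hb => ?_⟩
  · rintro (rfl | rfl)
    exacts [POne_end hA h, POne_end hA h.symm]
  · obtain ⟨A₁, A₂, h1, h2, rfl, hi⟩ := h.split hx ha hb
    exact POne_two hA h1.symm h2 (hi ▸ toFinite _)

/-- An arc with the set of its ends. -/
def POne_AE (T : Set (Rn n) × Set (Rn n)) : Prop := ∃ a b, Arc T.1 a b ∧ T.2 = {a, b}

theorem POne_AE.at {T : Set (Rn n) × Set (Rn n)} (h : POne_AE T) (hx : x ∈ T.2) :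
    ∃ y, Arc T.1 x y ∧ T.2 = {x, y} := by
  obtain ⟨a, b, h, e⟩ := h
  rcases (e ▸ hx : x ∈ ({a, b} : Set _)) with rfl | rfl
  exacts [⟨b, h, e⟩, ⟨a, h.symm, e.trans (pair_comm _ _)⟩]

theorem POne_merge (Z : Set (Rn n)) (N : ℕ) : ∀ 𝒜 : Set (Set (Rn n) × Set (Rn n)), 𝒜.Finite →
    𝒜.ncard = N → (∀ T ∈ 𝒜, POne_AE T) → (𝒜.Pairwise fun T T' => T.1 ∩ T'.1 ⊆ T.2) →
    (∀ T ∈ 𝒜, ∀ T' ∈ 𝒜, ∀ T'' ∈ 𝒜, T ≠ T' → T ≠ T'' → T' ≠ T'' → T.1 ∩ T'.1 ∩ T''.1 ⊆ Z) →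
    ∃ 𝒞 : Set (Set (Rn n)), 𝒞.Finite ∧ ⋃₀ 𝒞 = ⋃ T ∈ 𝒜, T.1 ∧
      (𝒞.Pairwise fun C C' => C ∩ C' ⊆ Z) ∧ ∀ C ∈ 𝒞, Crc C ∨ ∃ a b, Arc C a b := by
  induction N using Nat.strong_induction_on with
  | _ N ih =>
  intro 𝒜 hf hN h1 h2 h3
  by_cases h : 𝒜.Pairwise fun T T' => T.1 ∩ T'.1 ⊆ Z
  · refine ⟨Prod.fst '' 𝒜, hf.image _, sUnion_image _ _, ?_, ?_⟩
    · rintro _ ⟨T, hT, rfl⟩ _ ⟨T', hT', rfl⟩ hne
      exact h hT hT' fun e => hne (e ▸ rfl)
    · rintro _ ⟨T, hT, rfl⟩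
      exact .inr ((h1 T hT).imp fun a ha => ha.imp fun b hb => hb.1)
  simp only [Set.Pairwise, not_forall, not_subset] at h
  obtain ⟨T, hT, T', hT', hne, x, hx, hZ⟩ := h
  obtain ⟨y, k1, e1⟩ := (h1 T hT).at (h2 hT hT' hne hx)
  obtain ⟨y', k2, e2⟩ := (h1 T' hT').at (h2 hT' hT hne.symm hx.symm)
  have i1 : T.1 ∩ T'.1 ⊆ {x, y} := e1 ▸ h2 hT hT' hne
  have i2 : T'.1 ∩ T.1 ⊆ {x, y'} := e2 ▸ h2 hT' hT hne.symm
  have hs : {T, T'} ⊆ 𝒜 := pair_subset hT hT'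
  have hc := ncard_sdiff_add_ncard_of_subset hs hf
  rw [ncard_pair hne] at hc
  have hU : ⋃ S ∈ 𝒜, S.1 = T.1 ∪ T'.1 ∪ ⋃ S ∈ 𝒜 \ {T, T'}, S.1 := by
    rw [← biUnion_pair T T' Prod.fst, ← biUnion_union, union_sdiff_cancel hs]
  have o1 : ∀ S ∈ 𝒜 \ {T, T'}, ∀ w ∈ S.1, w ∈ T.1 ∩ T'.1 → w ∈ Z := fun S hS w hw hw' =>
    h3 T hT T' hT' S hS.1 hne (fun e => hS.2 (.inl e.symm)) (fun e => hS.2 (.inr e.symm)) ⟨hw', hw⟩
  have o2 : ∀ S ∈ 𝒜 \ {T, T'}, ∀ w ∈ S.1, (w ∈ T.1 → w ∈ ({x, y} : Set _) ∧ w ∈ S.2) ∧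
      (w ∈ T'.1 → w ∈ ({x, y'} : Set _) ∧ w ∈ S.2) := fun S hS w hw =>
    ⟨fun k => ⟨e1 ▸ h2 hT hS.1 (fun e => hS.2 (.inl e.symm)) ⟨k, hw⟩,
      h2 hS.1 hT (fun e => hS.2 (.inl e)) ⟨hw, k⟩⟩,
     fun k => ⟨e2 ▸ h2 hT' hS.1 (fun e => hS.2 (.inr e.symm)) ⟨k, hw⟩,
      h2 hS.1 hT' (fun e => hS.2 (.inr e)) ⟨hw, k⟩⟩⟩
  by_cases hy : y = y'
  · subst hy
    have i3 : ({x, y} : Set _) ⊆ T.1 ∩ T'.1 := pair_subset hx ⟨k1.tarc.right, k2.tarc.right⟩
    obtain ⟨𝒞, c1, c2, c3, c4⟩ := ih _ (by omega) (𝒜 \ {T, T'}) hf.sdiff rfl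
      (fun S hS => h1 S hS.1) (h2.mono sdiff_subset) fun _ a _ b _ c => h3 _ a.1 _ b.1 _ c.1
    have o3 : ∀ C ∈ 𝒞, (T.1 ∪ T'.1) ∩ C ⊆ Z := fun C hC w hw => by
      obtain ⟨S, hS, hw'⟩ := mem_iUnion₂.1 (c2 ▸ subset_sUnion_of_mem hC hw.2)
      exact o1 S hS w hw' (i3 (hw.1.elim (fun k => ((o2 S hS w hw').1 k).1)
        fun k => ((o2 S hS w hw').2 k).1))
    refine ⟨insert (T.1 ∪ T'.1) 𝒞, c1.insert _, by rw [sUnion_insert, c2, hU],
      c3.insert fun C hC _ => ⟨o3 C hC, inter_comm _ _ ▸ o3 C hC⟩, ?_⟩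
    rintro C (rfl | hC)
    exacts [.inl (crc_glue k1 k2 (i1.antisymm i3)), c4 C hC]
  · have i3 : T.1 ∩ T'.1 = {x} := eq_singleton_iff_unique_mem.2 ⟨hx, fun w hw => by
      rcases i1 hw with e | e
      · exact e
      · exact (i2 hw.symm).resolve_right fun e' => hy (e.symm.trans e')⟩
    have o3 : ∀ S ∈ 𝒜 \ {T, T'}, ∀ w ∈ S.1, w ∈ T.1 ∪ T'.1 → w ∈ ({y, y'} : Set _) ∧ w ∈ S.2 := by
      intro S hS w hw k
      have hw' : w ≠ x := fun e => hZ (o1 S hS x (e ▸ hw) hx)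
      exact k.elim (fun k => ((o2 S hS w hw).1 k).imp_left fun e => .inl (e.resolve_left hw'))
        fun k => ((o2 S hS w hw).2 k).imp_left fun e => .inr (e.resolve_left hw')
    have o4 : ∀ S ∈ 𝒜 \ {T, T'}, ∀ S' ∈ 𝒜 \ {T, T'}, S ≠ S' → ∀ w ∈ T.1 ∪ T'.1, w ∈ S.1 →
        w ∈ S'.1 → w ∈ Z := fun S hS S' hS' hn w k a b =>
      k.elim (fun k => h3 _ hS.1 _ hS'.1 _ hT hn (fun e => hS.2 (.inl e))
        (fun e => hS'.2 (.inl e)) ⟨⟨a, b⟩, k⟩) fun k => h3 _ hS.1 _ hS'.1 _ hT' hn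
        (fun e => hS.2 (.inr e)) (fun e => hS'.2 (.inr e)) ⟨⟨a, b⟩, k⟩
    obtain ⟨𝒞, c1, c2, c3⟩ := ih _ ((ncard_insert_le _ _).trans_lt (by omega))
      (insert (T.1 ∪ T'.1, {y, y'}) (𝒜 \ {T, T'})) (hf.sdiff.insert _) rfl
      (forall_mem_insert.2 ⟨⟨y, y', arc_glue k1.symm k2 i3, rfl⟩, fun S hS => h1 S hS.1⟩)
      ((h2.mono sdiff_subset).insert fun S hS _ =>
        ⟨fun w hw => (o3 S hS w hw.2 hw.1).1, fun w hw => (o3 S hS w hw.1 hw.2).2⟩) (by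
        rintro S (rfl | a) S' (rfl | b) S'' (rfl | c) n1 n2 n3 w ⟨⟨w1, w2⟩, w3⟩
        exacts [(n1 rfl).elim, (n1 rfl).elim, (n2 rfl).elim, o4 _ b _ c n3 w w1 w2 w3,
          (n3 rfl).elim, o4 _ a _ c n2 w w2 w1 w3, o4 _ a _ b n1 w w3 w1 w2,
          h3 _ a.1 _ b.1 _ c.1 n1 n2 n3 ⟨⟨w1, w2⟩, w3⟩])
    exact ⟨𝒞, c1, by rw [c2, biUnion_insert, hU], c3⟩

section Edge

variable {L : Set ((Rn n →L[ℝ] ℝ) × ℝ)}

theorem POne_dim (hL : L.Finite) (hz : face L z ⊆ X) (h : (lk X z).Finite) : fdim L z ≤ 1 := by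
  by_contra hn
  have h1 : 1 < Module.rank ℝ (fdir L z) := Module.one_lt_rank_of_one_lt_finrank (not_le.1 hn)
  have : Nontrivial (fdir L z) := rank_pos_iff_nontrivial.1 (zero_lt_one.trans h1)
  obtain ⟨v, hv⟩ := (NormedSpace.sphere_nonempty (x := (0 : fdir L z))).2 zero_le_one
  refine ((isConnected_sphere h1 0 zero_le_one).2.infinite_of_nontrivial
    ⟨v, hv, -v, by simpa using hv, fun e => ?_⟩).image Subtype.val_injective.injOn (h.subset ?_)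
  · have h2 : (2 : ℝ) • v = 0 := by rw [two_smul]; exact add_eq_zero_iff_eq_neg.2 e
    rw [(smul_eq_zero.1 h2).resolve_left two_ne_zero] at hv
    simp at hv
  · rintro _ ⟨w, hw, rfl⟩
    have k : Tendsto (fun t : ℝ => (z, t)) (𝓝[>] 0) (𝓝 (z, 0)) :=
      ((Continuous.prodMk_right z).tendsto 0).mono_left nhdsWithin_le_nhds
    exact ⟨by simpa using hw, (k.eventually (face_prod hL w.2)).mono fun t ht => hz ht⟩

theorem POne_edge (hL : L.Finite) (hb : Bornology.IsBounded (face L z)) (h : fdim L z = 1) :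
    POne_AE (cface L z, cface L z \ face L z) := by
  obtain ⟨v, h0, hv⟩ := finrank_eq_one_iff'.1 h
  have h0' : (v : Rn n) ≠ 0 := fun e => h0 (Subtype.ext e)
  let f : ℝ →ᵃ[ℝ] Rn n := AffineMap.lineMap z (z + v)
  have hf : ∀ t, f t = z + t • (v : Rn n) := fun t => by
    simp [f, AffineMap.lineMap_apply, add_comm]
  have fi : Injective f := AffineMap.lineMap_injective ℝ (by simpa using h0')
  have fc : Continuous f := AffineMap.lineMap_continuous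
  have e1 : f '' (f ⁻¹' face L z) = face L z := image_preimage_eq_of_subset fun y hy => by
    obtain ⟨c, hc⟩ := hv ⟨_, sub_mem_fdir (face_sub_cface L z hy)⟩
    exact ⟨c, by rw [hf, show c • (v : Rn n) = y - z from congrArg Subtype.val hc, add_sub_cancel]⟩
  have o : IsOpen (f ⁻¹' face L z) := isOpen_iff_mem_nhds.2 fun t ht => by
    obtain ⟨ε, h1, h2⟩ := face_open hL ht
    filter_upwards [fc.continuousAt.eventually (ball_mem_nhds (f t) h1)] with s hs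
    exact h2 _ (by rw [hf, add_sub_cancel_left]; exact (fdir L z).smul_mem _ v.2)
      (mem_ball_iff_norm.1 hs)
  have c : IsConnected (f ⁻¹' face L z) := ((convex_face L z).affine_preimage f).isConnected
    ⟨0, by rw [mem_preimage, hf, zero_smul, add_zero]; exact mem_face_self L z⟩
  have bd : Bornology.IsBounded (f ⁻¹' face L z) := by
    obtain ⟨R, hR⟩ := hb.subset_closedBall z
    refine (isBounded_closedBall (x := (0 : ℝ)) (r := R / ‖(v : Rn n)‖)).subset fun t ht => ?_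
    have := hR ht
    rw [hf, mem_closedBall_iff_norm, add_sub_cancel_left, norm_smul] at this
    rwa [mem_closedBall_zero_iff, le_div_iff₀ (norm_pos_iff.2 h0')]
  have e2 : f ⁻¹' face L z = Ioo _ _ := subset_antisymm
    ((interior_maximal (subset_Icc_csInf_csSup bd.bddBelow bd.bddAbove) o).trans interior_Icc.le)
    (c.Ioo_csInf_csSup_subset bd.bddBelow bd.bddAbove)
  generalize sInf (f ⁻¹' face L z) = α, sSup (f ⁻¹' face L z) = β at e2
  have hlt : α < β := nonempty_Ioo.1 (e2 ▸ c.1)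
  have e3 : cface L z = f '' Icc α β := by
    rw [← closure_face, ← e1, e2, ← closure_Ioo hlt.ne, image_closure_of_isCompact
      (by rw [closure_Ioo hlt.ne]; exact isCompact_Icc) fc.continuousOn]
  refine ⟨f α, f β, ?_, ?_⟩
  · rw [e3, ← segment_eq_Icc hlt.le, image_segment]
    exact arc_seg (fi.ne hlt.ne)
  · rw [e3, ← e1, e2, ← image_sdiff fi, Icc_sdiff_Ioo_same hlt.le, image_pair]

end Edge

theorem POne_edges (hX : Poly X) (h : ∀ x ∈ X, (lk X x).Finite) :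
    ∃ 𝒜 : Set (Set (Rn n) × Set (Rn n)), 𝒜.Finite ∧ (∀ T ∈ 𝒜, POne_AE T ∧ T.1 ⊆ X) ∧
      (𝒜.Pairwise fun T T' => T.1 ∩ T'.1 ⊆ T.2) ∧
      ∀ x, ∀ v ∈ lk X x, ∃ T ∈ 𝒜, x ∈ T.1 ∧ v ∈ lk T.1 x := by
  obtain ⟨L, hL, -, hF⟩ := exists_adapted finite_empty hX
  have hd := fun z hz => POne_dim hL (hF z hz) (h z hz)
  refine ⟨(fun z => (cface L z, cface L z \ face L z)) '' {z ∈ X | fdim L z = 1},
    ((finite_faces hL).image fun F => (closure F, closure F \ F)).subset ?_, ?_, ?_,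
    fun x v hv => ?_⟩
  · rintro _ ⟨z, -, rfl⟩
    exact ⟨_, ⟨z, rfl⟩, by simp only [closure_face]⟩
  · rintro _ ⟨z, hz, rfl⟩
    exact ⟨POne_edge hL (hX.1.isBounded.subset (hF z hz.1)) hz.2,
      (closure_face L z).ge.trans (closure_minimal (hF z hz.1) hX.1.isClosed)⟩
  · rintro _ ⟨z, hz, rfl⟩ _ ⟨z', hz', rfl⟩ hne y hy
    refine ⟨hy.1, fun e => hne ?_⟩
    have e' : y ∈ face L z' := by
      by_contra k
      have := fdim_lt hy.2 k
      rw [fdim_eq e, hz.2, hz'.2] at this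
      exact this.false
    simp only [← cface_eq e, ← face_eq e, ← cface_eq e', ← face_eq e']
  · obtain ⟨z, k1, k2, k3⟩ := face_ray hL x v
    obtain ⟨t, t1, t2⟩ := (Eventually.and
      (show ∀ᶠ t in 𝓝[>] (0 : ℝ), x + t • v ∈ X from hv.2) k3).exists
    refine ⟨_, ⟨_, ⟨t1, (hd _ t1).antisymm ?_⟩, rfl⟩, (cface_eq t2).ge k2, hv.1,
      k3.mono fun s hs => (cface_eq t2).ge (face_sub_cface L z hs)⟩
    rw [fdim_eq t2]
    refine Module.finrank_pos_iff_exists_ne_zero.2 ⟨⟨v, k1⟩, fun e => ?_⟩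
    have := hv.1
    rw [show v = 0 from congrArg Subtype.val e, norm_zero] at this
    exact zero_ne_one this

theorem POne_main (Z : Set (Rn n)) (hX : Poly X) (hf : ∀ x ∈ X, (lk X x).Finite)
    (h : ∀ x ∈ X, x ∉ Z → (lk X x).ncard ≤ 2) :
    ∃ 𝒞 : Set (Set (Rn n)), 𝒞.Finite ∧ ⋃₀ 𝒞 ⊆ X ∧ (∀ x, lk X x = lk (⋃₀ 𝒞) x) ∧
      (∀ x, (lk X x).Nonempty → x ∈ ⋃₀ 𝒞) ∧ (𝒞.Pairwise fun C C' => C ∩ C' ⊆ Z) ∧
      ∀ C ∈ 𝒞, Crc C ∨ ∃ a b, Arc C a b := by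
  obtain ⟨𝒜, a1, a2, a3, a4⟩ := POne_edges hX hf
  have ne : ∀ T ∈ 𝒜, ∀ x ∈ T.1, (lk T.1 x).Nonempty := fun T hT x hx => by
    obtain ⟨a, b, k, -⟩ := (a2 T hT).1
    exact POne_ne k.poly k.tarc hx
  have di : ∀ x, 𝒜.Pairwise fun T T' => Disjoint (lk T.1 x) (lk T'.1 x) := fun x T hT T' hT' hn => by
    obtain ⟨a, b, -, k⟩ := (a2 T hT).1
    exact POne_disj ((k ▸ toFinite _ : T.2.Finite).subset (a3 hT hT' hn)) x
  obtain ⟨𝒞, c1, c2, c3⟩ := POne_merge Z _ 𝒜 a1 rfl (fun T hT => (a2 T hT).1) a3 (by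
    rintro T hT T' hT' T'' hT'' n1 n2 n3 x ⟨⟨x1, x2⟩, x3⟩
    by_contra hZ
    obtain ⟨v1, v1'⟩ := ne T hT x x1
    obtain ⟨v2, v2'⟩ := ne T' hT' x x2
    obtain ⟨v3, v3'⟩ := ne T'' hT'' x x3
    have k := (ncard_le_ncard (s := {v1, v2, v3}) (insert_subset (lk_mono (a2 T hT).2 x v1')
      (pair_subset (lk_mono (a2 T' hT').2 x v2') (lk_mono (a2 T'' hT'').2 x v3')))
      (hf x ((a2 T hT).2 x1))).trans (h x ((a2 T hT).2 x1) hZ)
    rw [ncard_eq_three.2 ⟨v1, v2, v3, (di x hT hT' n1).ne_of_mem v1' v2',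
      (di x hT hT'' n2).ne_of_mem v1' v3', (di x hT' hT'' n3).ne_of_mem v2' v3', rfl⟩] at k
    omega)
  have hs : ⋃₀ 𝒞 ⊆ X := c2 ▸ iUnion₂_subset fun T hT => (a2 T hT).2
  refine ⟨𝒞, c1, hs, fun x => subset_antisymm (fun v hv => ?_) (lk_mono hs x),
    fun x ⟨v, hv⟩ => ?_, c3⟩
  · obtain ⟨T, hT, -, k⟩ := a4 x v hv
    exact lk_mono (c2 ▸ subset_biUnion_of_mem (u := Prod.fst) hT) x k
  · obtain ⟨T, hT, k, -⟩ := a4 x v hv
    exact c2 ▸ mem_biUnion hT k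

theorem oneman (hX : Poly X) (h : ∀ x ∈ X, (lk X x).ncard = 1 ∨ (lk X x).ncard = 2) :
    ∃ 𝒞 : Set (Set (Rn n)), 𝒞.Finite ∧ ⋃₀ 𝒞 = X ∧ 𝒞.PairwiseDisjoint id ∧
      ∀ C ∈ 𝒞, Crc C ∨ ∃ a b, Arc C a b := by
  have h0 : ∀ x ∈ X, (lk X x).ncard ≠ 0 := fun x hx => by have := h x hx; omega
  obtain ⟨𝒞, c1, c2, -, c3, c4, c5⟩ := POne_main ∅ hX
    (fun x hx => finite_of_ncard_ne_zero (h0 x hx)) fun x hx _ => by have := h x hx; omega
  exact ⟨𝒞, c1, c2.antisymm fun x hx => c3 x (nonempty_of_ncard_ne_zero (h0 x hx)),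
    fun C hC C' hC' hn => disjoint_iff_inter_eq_empty.2 (subset_empty_iff.1 (c4 hC hC' hn)), c5⟩

theorem POne_near {𝒞 : Set (Set (Rn n))} (hf : 𝒞.Finite) (hc : ∀ C ∈ 𝒞, IsClosed C)
    (hC : C ∈ 𝒞) (hx : ∀ C' ∈ 𝒞, C' ≠ C → x ∉ C') : ∀ᶠ y in 𝓝 x, y ∈ ⋃₀ 𝒞 ↔ y ∈ C := by
  have : ∀ᶠ y in 𝓝 x, ∀ C' ∈ 𝒞, C' ≠ C → y ∉ C' := (eventually_all_finite hf).2 fun C' h => by
    by_cases e : C' = C
    · exact .of_forall fun _ k => (k e).elim
    · filter_upwards [(hc C' h).isOpen_compl.mem_nhds (hx C' h e)] with y hy _ using hy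
  filter_upwards [this] with y hy
  exact ⟨fun ⟨C', h1, h2⟩ => by_contra fun k => hy C' h1 (fun e => k (e ▸ h2)) h2,
    fun k => ⟨C, hC, k⟩⟩

/-- In a disjoint finite union of polyhedra links are those of the pieces. -/
theorem lk_piece {𝒞 : Set (Set (Rn n))} (hf : 𝒞.Finite) (hc : ∀ C ∈ 𝒞, IsClosed C)
    (hd : 𝒞.PairwiseDisjoint id) (hC : C ∈ 𝒞) (hx : x ∈ C) : lk (⋃₀ 𝒞) x = lk C x :=
  lk_congr (POne_near hf hc hC fun _ h e k => disjoint_left.1 (hd h hC e) k hx)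

theorem POne_poly (h : Crc C ∨ ∃ a b, Arc C a b) : Poly C :=
  h.elim Crc.poly fun ⟨_, _, k⟩ => k.poly

theorem oneman_crc (hX : Poly X) (h : ∀ x ∈ X, (lk X x).ncard = 2) :
    ∃ 𝒞 : Set (Set (Rn n)), 𝒞.Finite ∧ ⋃₀ 𝒞 = X ∧ 𝒞.PairwiseDisjoint id ∧ ∀ C ∈ 𝒞, Crc C := by
  obtain ⟨𝒞, c1, rfl, c3, c4⟩ := oneman hX fun x hx => .inr (h x hx)
  refine ⟨𝒞, c1, rfl, c3, fun C hC => (c4 C hC).resolve_right fun ⟨a, b, k⟩ => ?_⟩
  have := h a ⟨C, hC, k.tarc.left⟩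
  rw [lk_piece c1 (fun C hC => (POne_poly (c4 C hC)).1.isClosed) c3 hC k.tarc.left,
    POne_end k.poly k.tarc] at this
  omega

theorem POne_conn (hX : Poly X) (hc : IsPreconnected X) (hx : x ∈ X)
    (h : ∀ x ∈ X, (lk X x).ncard = 1 ∨ (lk X x).ncard = 2) : Crc X ∨ ∃ a b, Arc X a b := by
  obtain ⟨𝒞, c1, rfl, c3, c4⟩ := oneman hX h
  have cl := fun C hC => (POne_poly (c4 C hC)).1.isClosed
  obtain ⟨C, hC, k⟩ := id hx
  rw [(POne_clopen hc (cl C hC) hx k fun y _ hy => (POne_near c1 cl hC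
    fun _ h e k => disjoint_left.1 (c3 h hC e) k hy).mono fun _ e => e.1).antisymm
    (subset_sUnion_of_mem hC)]
  exact c4 C hC

theorem crc_of_conn (hX : Poly X) (hc : IsConnected X) (h : ∀ x ∈ X, (lk X x).ncard = 2) :
    Crc X := by
  obtain ⟨x, hx⟩ := hc.1
  refine (POne_conn hX hc.2 hx fun x hx => .inr (h x hx)).resolve_right fun ⟨a, b, k⟩ => ?_
  have := h a k.tarc.left
  rw [POne_end hX k.tarc] at this
  omega

theorem arc_of_conn (hX : Poly X) (hc : IsPreconnected X) (ha : a ∈ X) (hb : b ∈ X) (hab : a ≠ b)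
    (h1 : (lk X a).ncard = 1) (h2 : (lk X b).ncard = 1)
    (h : ∀ x ∈ X, x ≠ a → x ≠ b → (lk X x).ncard = 2) : Arc X a b := by
  rcases POne_conn hX hc ha (fun x hx => by
    by_cases e : x = a
    · exact .inl (e ▸ h1)
    by_cases e' : x = b
    exacts [.inl (e' ▸ h2), .inr (h x hx e e')]) with k | ⟨a', b', k⟩
  · have := tcrc_lk hX k.tcrc ha
    omega
  have key : ∀ x ∈ X, (lk X x).ncard = 1 → x = a' ∨ x = b' := fun x hx e => by
    by_contra hn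
    have := (tarc_lk hX k.tarc hx).2 (not_or.1 hn).1 (not_or.1 hn).2
    omega
  rcases key a ha h1 with rfl | rfl <;> rcases key b hb h2 with rfl | rfl
  exacts [(hab rfl).elim, k, k.symm, (hab rfl).elim]

theorem crc_of_tcrc (hC : Poly C) (h : TCrc C) : Crc C :=
  crc_of_conn hC h.conn fun _ => tcrc_lk hC h

theorem arc_of_tarc (hA : Poly A) (h : TArc A a b) : Arc A a b :=
  arc_of_conn hA h.conn h.left h.right h.ne (POne_end hA h) (POne_end hA h.symm)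
    fun _ hx => (tarc_lk hA h hx).2

theorem Surf.crc_lk {S : Set (Rn n)} (hS : Surf S) (hx : x ∈ S) : Crc (lk S x) :=
  crc_of_tcrc (hS.poly.lk x) (hS.crc x hx)

theorem Surf.crc_sphere {S : Set (Rn n)} (hS : Surf S) (hx : x ∈ S) :
    ∃ ρ > 0, ∀ r, 0 < r → r ≤ ρ → Crc (S ∩ sphere x r) := by
  obtain ⟨ρ, h0, h⟩ := hS.poly.lk_sphere x
  exact ⟨ρ, h0, fun r h1 h2 => h r h1 h2 ▸ (hS.crc_lk hx).image
    ((TP.const x).add (TP.id'.const_smul r))
    fun _ _ _ _ e => smul_right_injective _ h1.ne' (add_left_cancel e)⟩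

theorem POne_count {𝒞 : Set (Set (Rn n))} (hf : 𝒞.Finite) : (∀ C ∈ 𝒞, Crc C) →
    (𝒞.Pairwise fun C C' => C ∩ C' ⊆ {z}) → (lk (⋃₀ 𝒞) z).Finite ∧
      2 * {C ∈ 𝒞 | z ∈ C}.ncard = (lk (⋃₀ 𝒞) z).ncard := by
  induction 𝒞, hf using Finite.induction_on with
  | empty => simp [POne_fin]
  | @insert C 𝒞 hn hf ih =>
    intro h1 h2
    obtain ⟨k0, k1⟩ := forall_mem_insert.1 h1
    obtain ⟨i1, i2⟩ := ih k1 (h2.mono (subset_insert _ _))
    have p : Poly (⋃₀ 𝒞) := sUnion_eq_biUnion ▸ Poly.biUnion hf fun C hC => (k1 C hC).poly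
    rw [sUnion_insert, lk_union k0.poly p]
    by_cases hz : z ∈ C
    · have e := tcrc_lk k0.poly k0.tcrc hz
      have f1 : (lk C z).Finite := finite_of_ncard_ne_zero (by omega)
      refine ⟨f1.union i1, ?_⟩
      have f2 : C ∩ ⋃₀ 𝒞 ⊆ {z} := fun y ⟨y1, C', y2, y3⟩ =>
        h2 (mem_insert _ _) (mem_insert_of_mem _ y2) (fun e => hn (e ▸ y2)) ⟨y1, y3⟩
      rw [ncard_union_eq (POne_disj ((finite_singleton z).subset f2) z) f1 i1,
        ← i2, e, show {C' ∈ insert C 𝒞 | z ∈ C'} = insert C {C' ∈ 𝒞 | z ∈ C'} from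
          insert_inter_of_mem (t := {C' | z ∈ C'}) hz,
        ncard_insert_of_notMem (fun k => hn k.1) (hf.subset (sep_subset _ _))]
      omega
    · rw [lk_empty k0.poly.1.isClosed hz, empty_union,
        show {C' ∈ insert C 𝒞 | z ∈ C'} = {C' ∈ 𝒞 | z ∈ C'} from
          insert_inter_of_notMem (t := {C' | z ∈ C'}) hz]
      exact ⟨i1, i2⟩

/-- One singular point `z`; isolated points are allowed. -/
theorem petals (hX : Poly X) (hz : (lk X z).Finite)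
    (h : ∀ x ∈ X, x ≠ z → (lk X x).ncard = 2 ∨ lk X x = ∅) :
    ∃ 𝒞 : Set (Set (Rn n)), 𝒞.Finite ∧ (∀ C ∈ 𝒞, Crc C ∧ C ⊆ X) ∧
      (∀ x ∈ X, (lk X x).Nonempty → x ∈ ⋃₀ 𝒞) ∧ (𝒞.Pairwise fun C C' => C ∩ C' ⊆ {z}) ∧
      2 * {C ∈ 𝒞 | z ∈ C}.ncard = (lk X z).ncard := by
  obtain ⟨𝒞, c1, c2, c3, c4, c5, c6⟩ := POne_main {z} hX (fun x hx => by
      by_cases e : x = z
      · exact e ▸ hz
      · exact (h x hx e).elim (fun k => finite_of_ncard_ne_zero (by omega)) (· ▸ finite_empty))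
    fun x hx e => (h x hx e).elim Eq.le fun k => by simp [k]
  have key : ∀ C ∈ 𝒞, ∀ a b, Arc C a b → a = z := fun C hC a b k => by
    by_contra e
    have := h a (c2 ⟨C, hC, k.tarc.left⟩) e
    rw [c3, lk_congr (POne_near c1 (fun C hC => (POne_poly (c6 C hC)).1.isClosed) hC
      fun C' h1 h2 h3 => e (c5 h1 hC h2 ⟨h3, k.tarc.left⟩))] at this
    have e1 := POne_end k.poly k.tarc
    rcases this with e2 | e2
    · omega
    · simp [e2] at e1
  have hc : ∀ C ∈ 𝒞, Crc C := fun C hC => (c6 C hC).resolve_right fun ⟨a, b, k⟩ =>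
    k.tarc.ne ((key C hC a b k).trans (key C hC b a k.symm).symm)
  exact ⟨𝒞, c1, fun C hC => ⟨hc C hC, (subset_sUnion_of_mem hC).trans c2⟩, fun x _ => c4 x, c5,
    c3 z ▸ (POne_count c1 hc c5).2⟩

theorem crc_finite (hX : Poly X) (h : ∀ x ∈ X, (lk X x).Finite) :
    {C | Crc C ∧ C ⊆ X}.Finite := by
  obtain ⟨𝒜, a1, a2, a3, a4⟩ := POne_edges hX h
  refine (a1.finite_subsets.image fun S => ⋃ T ∈ S, T.1).subset fun C ⟨hC, hs⟩ =>
    ⟨{T ∈ 𝒜 | T.1 ⊆ C}, sep_subset _ _, subset_antisymm (by simp) fun x hx => ?_⟩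
  obtain ⟨v, hv⟩ : (lk C x).Nonempty :=
    nonempty_of_ncard_ne_zero (by rw [tcrc_lk hC.poly hC.tcrc hx]; omega)
  obtain ⟨T, hT, k1, k2⟩ := a4 x v (lk_mono hs x hv)
  refine mem_biUnion (t := Prod.fst) ⟨hT, ?_⟩ k1
  obtain ⟨a, b, k, e⟩ := (a2 T hT).1
  have hi : (C ∩ T.1).Infinite := fun f => disjoint_left.1 (POne_disj f x) hv k2
  obtain ⟨y, y1, y2⟩ := hi.exists_notMem_finite (toFinite {a, b})
  rw [← k.tarc.cl]
  refine closure_minimal (POne_clopen k.tarc.conn_open hC.poly.1.isClosed ⟨y1.2, y2⟩ y1.1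
    fun w w1 w2 => ?_) hC.poly.1.isClosed
  have e1 := (tarc_lk k.poly k.tarc w1.1).2 (not_or.1 w1.2).1 (not_or.1 w1.2).2
  have e2 : lk C w = lk T.1 w := eq_of_subset_of_ncard_le (fun u hu => by
    obtain ⟨T', hT', m1, m2⟩ := a4 w u (lk_mono hs w hu)
    by_cases e' : T = T'
    · exact e' ▸ m2
    · exact (w1.2 (e ▸ a3 hT hT' e' ⟨w1.1, m1⟩)).elim)
    (by rw [e1, tcrc_lk hC.poly hC.tcrc w2]) (finite_of_ncard_ne_zero (by omega))
  exact (POne_germ k.poly hC.poly w2 e2.ge).mono fun u hu k => hu k.1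

end BEp
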