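import Pool.Agent.Work.MP_f0515e_an.D3.P2c

/-! Consequences of the planar Schoenflies theorem.
`cut2`: `crc_split` of `J` (`Ball.crc`), `crc_glue`, `crc_ball`, `len2` three times, `cut_core`.
`arc_rel`: `cut2` for `A` and for `A'` with the same arcs `E₁`, `E₂`; on `E_i ∪ A` glue the identity with `g`, `fill`, glue the two
fillings on `B₁ ∪ B₂` (`tp_glue`), `lh_patch`. `innermost`: take `J` whose disc is minimal for inclusion; for another `C`,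
`C \ {z}` is preconnected and misses `J`; inside would give a smaller disc (`Ball.mono`, closure), equal discs have equal
frontiers. `arc_ball` (thin discs round an arc): induct along the segments of the arc, or move the arc to a short
segment by `arc_std`. `arc_std`: let `t` run over the parameter; the set of `t` for which `γ '' [0,t]` is equivalent to `A` by
a map supported in `O` is open and closed in `(0,1]`: near a parameter `t₀` the arc is a cone with two rays (`tp_homog`);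
an end point on a ray is moved along it by `ie_line`, and past the corner by first straightening: the last piece
`[p, x] ∪ [x, q]` is moved to `[p, x']` by one `ie_line` (move the vertex images linearly; injective since `p - x`, `q - x` are
not positively parallel: move `q` to `x` and `x` to the midpoint of `p` and `x`). About 350 lines. -/

open Set Metric Filter Topology Function BEv
open scoped NNReal

noncomputable section
namespace BEp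

variable {n m : ℕ}

theorem p2d_inter {J A E : Set (Rn 2)} {a b : Rn 2} (hE : Arc E a b) (hA : Arc A a b) (hs : E ⊆ J)
    (hi : A ∩ J = {a, b}) : E ∩ A = {a, b} := by
  refine Subset.antisymm (fun x hx => hi ▸ ⟨hx.2, hs hx.1⟩) ?_
  rintro x (rfl | rfl)
  exacts [⟨hE.tarc.left, hA.tarc.left⟩, ⟨hE.tarc.right, hA.tarc.right⟩]

theorem p2d_cut {B A E₁ E₂ : Set (Rn 2)} {a b : Rn 2} (h : Len 1 B E₁ E₂ {a, b}) (h1 : Arc E₁ a b)
    (h2 : Arc E₂ a b) (hA : Arc A a b) (hs : A ⊆ B) (hi : A ∩ (E₁ ∪ E₂) = {a, b}) :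
    ∃ B₁ B₂, Len 1 B₁ E₁ A {a, b} ∧ Len 1 B₂ E₂ A {a, b} ∧ B₁ ∩ B₂ = A ∧ B₁ ∪ B₂ = B := by
  have i1 := p2d_inter h1 hA subset_union_left hi
  have i2 := p2d_inter h2 hA subset_union_right hi
  obtain ⟨B₁, b1⟩ := crc_ball (crc_glue h1 hA i1)
  obtain ⟨B₂, b2⟩ := crc_ball (crc_glue h2 hA i2)
  exact ⟨B₁, B₂, len2 b1 h1 hA i1, len2 b2 h2 hA i2,
    cut_core le_rfl h (len2 b1 h1 hA i1) (len2 b2 h2 hA i2) hs⟩

theorem cut2 {B J A : Set (Rn 2)} {a b : Rn 2} (h : Ball B J) (hA : Arc A a b) (hs : A ⊆ B)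
    (hi : A ∩ J = {a, b}) : ∃ B₁ B₂ E₁ E₂, Arc E₁ a b ∧ Arc E₂ a b ∧ E₁ ∪ E₂ = J ∧
      Len 1 B E₁ E₂ {a, b} ∧ Len 1 B₁ E₁ A {a, b} ∧ Len 1 B₂ E₂ A {a, b} ∧
      B₁ ∩ B₂ = A ∧ B₁ ∪ B₂ = B := by
  have ha : a ∈ A ∩ J := hi ▸ mem_insert _ _
  have hb : b ∈ A ∩ J := hi ▸ mem_insert_of_mem _ rfl
  obtain ⟨E₁, E₂, h1, h2, rfl, i⟩ := crc_split h.crc ha.2 hb.2 hA.tarc.ne
  obtain ⟨B₁, B₂, k⟩ := p2d_cut (len2 h h1 h2 i) h1 h2 hA hs hi
  exact ⟨B₁, B₂, E₁, E₂, h1, h2, rfl, len2 h h1 h2 i, k⟩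

theorem p2d_bij {α β : Type} {f : α → β} {A B : Set α} {A' B' : Set β} (h1 : BijOn f A A')
    (h2 : BijOn f B B') (h : SurjOn f (A ∩ B) (A' ∩ B')) : BijOn f (A ∪ B) (A' ∪ B') := by
  have k : ∀ z ∈ A, ∀ w ∈ B, f z = f w → z = w := fun z hz w hw e => by
    obtain ⟨v, hv, q⟩ := h ⟨h1.mapsTo hz, e ▸ h2.mapsTo hw⟩
    rw [← h1.injOn hv.1 hz q, h2.injOn hv.2 hw (q.trans e)]
  refine h1.union h2 ?_
  rintro z (hz | hz) w (hw | hw) e
  exacts [h1.injOn hz hw e, k z hz w hw e, (k w hw z hz e.symm).symm, h2.injOn hz hw e]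

theorem p2d_fill {B B' E A A' : Set (Rn 2)} {a b : Rn 2} (h : Len 1 B E A {a, b})
    (h' : Len 1 B' E A' {a, b}) {g : Rn 2 → Rn 2} (hg : TP g) (hb : BijOn g A A') (ga : g a = a)
    (gb : g b = b) : ∃ Φ, TP Φ ∧ BijOn Φ B B' ∧ EqOn Φ g A ∧ ∀ x ∈ E, Φ x = x := by
  obtain ⟨k, k1, k2, k3⟩ := tp_glue h.poly h.symm.poly TP.id' hg (by
    rw [h.inter]
    rintro x (rfl | rfl)
    exacts [ga.symm, gb.symm])
  obtain ⟨Φ, f1, f2, f3⟩ := fill h.ball h'.ball k1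
    (p2d_bij ((bijOn_id E).congr k2.symm) (hb.congr k3.symm) (by
      rw [h'.inter]
      intro x hx
      exact ⟨x, h.inter.symm ▸ hx, k2 (h.inter.symm ▸ hx : x ∈ E ∩ A).1⟩))
  exact ⟨Φ, f1.tp, f2 ▸ f1.inj.injOn.bijOn_image, fun x hx => (f3 (Or.inr hx)).trans (k3 hx),
    fun x hx => (f3 (Or.inl hx)).trans (k2 hx)⟩

theorem arc_rel {B J A A' : Set (Rn 2)} {a b : Rn 2} (h : Ball B J) (hA : Arc A a b)
    (hs : A ⊆ B) (hi : A ∩ J = {a, b}) (hs' : A' ⊆ B) (hi' : A' ∩ J = {a, b})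
    {g : Rn 2 → Rn 2} (hg : TP g) (hb : BijOn g A A') (ga : g a = a) (gb : g b = b) :
    ∃ Φ, Mv (B \ J) Φ ∧ EqOn Φ g A := by
  have hA' : Arc A' a b := by
    have := hA.image hg hb.injOn
    rwa [hb.image_eq, ga, gb] at this
  obtain ⟨B₁, B₂, E₁, E₂, h1, h2, rfl, l, l1, l2, i, u⟩ := cut2 h hA hs hi
  obtain ⟨B₁', B₂', l1', l2', i', u'⟩ := p2d_cut l h1 h2 hA' hs' hi'
  obtain ⟨Φ₁, a1, a2, a3, a4⟩ := p2d_fill l1 l1' hg hb ga gb
  obtain ⟨Φ₂, b1, b2, b3, b4⟩ := p2d_fill l2 l2' hg hb ga gb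
  obtain ⟨k, k1, k2, k3⟩ := tp_glue l1.ball.poly l2.ball.poly a1 b1 (i ▸ a3.trans b3.symm)
  have e : EqOn k g A := fun x hx => (k2 (pthm_B' l1 hx)).trans (a3 hx)
  have hk : BijOn k B B := by
    have := p2d_bij (a2.congr k2.symm) (b2.congr k3.symm) (by
      rw [i, i']
      exact (hb.congr e.symm).surjOn)
    rwa [u, u'] at this
  obtain ⟨Φ, f1, f2⟩ := lh_patch h.poly k1 hk (by
    rw [h.frontier_eq]
    rintro x (hx | hx)
    exacts [(k2 (pthm_B l1 hx)).trans (a4 x hx), (k3 (pthm_B l2 hx)).trans (b4 x hx)])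
  exact ⟨Φ, h.interior_eq ▸ f1, fun x hx => (f2 (hs hx)).trans (e hx)⟩

theorem innermost {𝒞 : Set (Set (Rn 2))} (hf : 𝒞.Finite) (hne : 𝒞.Nonempty)
    (hc : ∀ C ∈ 𝒞, Crc C) {z : Rn 2} (hp : 𝒞.Pairwise fun C C' => C ∩ C' ⊆ {z}) :
    ∃ J ∈ 𝒞, ∃ D, Ball D J ∧ ∀ C ∈ 𝒞, D ∩ C ⊆ J := by
  choose! D hD using fun C hC => crc_ball (hc C hC)
  obtain ⟨J, hJ, hm⟩ := hf.exists_minimalFor D 𝒞 hne
  refine ⟨J, hJ, D J, hD J hJ, fun C hC => ?_⟩
  by_cases e : C = J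
  · exact e ▸ inter_subset_right
  have t := (hc C hC).tcrc
  have cl := t.cl_diff (finite_singleton z)
  rcases (hD J hJ).side (t.conn_diff z)
    (disjoint_left.2 fun x hx hx' => hx.2 (hp hC hJ e ⟨hx.1, hx'⟩)) with k | k
  · have k1 : D C ⊆ D J := (hD J hJ).mono le_rfl (hD C hC)
      (cl ▸ closure_minimal (k.trans sdiff_subset) (hD J hJ).poly.1.isClosed)
    refine (e ?_).elim
    rw [← (hD C hC).frontier_eq, ← (hD J hJ).frontier_eq, k1.antisymm (hm hC k1)]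
  · intro x hx
    have k1 : x ∈ closure (D J)ᶜ := closure_mono k.subset_compl_right (cl.symm ▸ hx.2)
    rw [(hD J hJ).closure_out] at k1
    exact k1.resolve_left fun k2 => k2 hx.1

theorem p2d_line {u v : ℝ → Rn n} (hu : TP u) (hv : TP v) {t : ℝ} {O : Set (Rn n)} (hO : IsOpen O)
    (hi : ∀ r ∈ Icc (0 : ℝ) 1, InjOn (fun s => u s + r • (v s - u s)) (Icc 0 t))
    (h2 : ∀ r ∈ Icc (0 : ℝ) 1, ∀ s ∈ Icc 0 t, u s + r • (v s - u s) ∈ O) :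
    ∃ Φ, Mv O Φ ∧ ∀ s ∈ Icc 0 t, Φ (u s) = v s := by
  have c : TP fun x : Rn 1 => x 0 := TP.id'.apply 0
  obtain ⟨Φ, f1, -, -, f2⟩ := ie_line (poly_real (γ := fun s (_ : Fin 1) => s)
    (TP.pi fun _ => TP.id') 0 t) (hu.comp c) ((hv.comp c).sub (hu.comp c)) (fun r hr => by
      rintro _ ⟨s, hs, rfl⟩ _ ⟨s', hs', rfl⟩ e
      rw [hi r hr hs hs' e]) Poly.empty hO (fun _ _ _ _ h => h.elim) (fun r hr => by
      rintro _ ⟨s, hs, rfl⟩
      exact h2 r hr s hs) ⊤ fun _ => trivial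
  exact ⟨Φ, f1, fun s hs => (f2 _ ⟨s, hs, rfl⟩).trans (add_sub_cancel _ _)⟩

theorem p2d_cone {γ : ℝ → Rn n} (hγ : TP γ) {t₀ : ℝ} (h0 : 0 < t₀) :
    ∃ (ρ : ℝ) (α β : Rn n), 0 < ρ ∧ ρ < t₀ ∧ ∀ σ, -ρ ≤ σ → σ ≤ ρ →
      γ (t₀ + σ) = γ t₀ + min σ 0 • α + max σ 0 • β := by
  obtain ⟨ρ₀, p0, h⟩ := tp_homog hγ t₀
  obtain ⟨ρ, p1, p2, p3⟩ : ∃ ρ : ℝ, 0 < ρ ∧ ρ ≤ ρ₀ ∧ ρ < t₀ :=
    ⟨min ρ₀ (t₀ / 2), lt_min p0 (half_pos h0), min_le_left _ _,
      (min_le_right _ _).trans_lt (half_lt_self h0)⟩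
  refine ⟨ρ, ρ⁻¹ • (γ t₀ - γ (t₀ + -ρ)), ρ⁻¹ • (γ (t₀ + ρ) - γ t₀), p1, p3, fun σ h1 h2 => ?_⟩
  rcases le_total σ 0 with k | k
  · have := h (-ρ) (by rwa [norm_neg, Real.norm_of_nonneg p1.le]) (-σ / ρ)
      ⟨div_nonneg (neg_nonneg.2 k) p1.le, (div_le_one p1).2 (by linarith)⟩
    rw [smul_eq_mul, mul_neg, div_mul_cancel₀ _ p1.ne', neg_neg] at this
    rw [this, min_eq_left k, max_eq_right k, div_eq_mul_inv]
    module
  · have := h ρ (by rwa [Real.norm_of_nonneg p1.le]) (σ / ρ)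
      ⟨div_nonneg k p1.le, (div_le_one p1).2 h2⟩
    rw [smul_eq_mul, div_mul_cancel₀ _ p1.ne'] at this
    rw [this, min_eq_right k, max_eq_left k, div_eq_mul_inv]
    module

theorem p2d_real {r m m' M M' p p' ρ l μ : ℝ} (r0 : 0 ≤ r) (r1 : r ≤ 1) (hm : m ≤ m') (hM : M ≤ M')
    (hs : m + M < m' + M') (hp : p < p') (h1 : -ρ ≤ m) (h2 : m' ≤ 0) (h3 : 0 ≤ M) (h4 : -ρ ≤ p)
    (h5 : p' ≤ 0) (hl : l = (1 - r) * (m' - m) + r * (p' - p)) (hμ : μ = (1 - r) * (M' - M)) :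
    0 ≤ l ∧ l ≤ ρ ∧ 0 ≤ μ ∧ μ ≤ M' ∧ 0 < l + μ := by
  have r2 : 0 ≤ 1 - r := sub_nonneg.2 r1
  have a1 := mul_nonneg r2 (sub_nonneg.2 hm)
  have a2 := mul_nonneg r0 (sub_nonneg.2 hp.le)
  have a3 := mul_nonneg r2 (sub_nonneg.2 hM)
  have a4 := mul_le_mul_of_nonneg_left (show m' - m ≤ ρ by linarith) r2
  have a5 := mul_le_mul_of_nonneg_left (show p' - p ≤ ρ by linarith) r0
  have a6 := mul_nonneg r0 (sub_nonneg.2 hM)
  refine ⟨by linarith, by linarith, by linarith, by linarith, ?_⟩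
  rcases r0.eq_or_lt with e | e
  · subst e
    linarith
  · have := mul_pos e (sub_pos.2 hp)
    linarith

/-- Initial pieces of an arc which are equivalent by a map supported in `O`. -/
def p2dR (O : Set (Rn n)) (γ : ℝ → Rn n) (s t : ℝ) : Prop :=
  ∃ Φ, Mv O Φ ∧ Φ (γ 0) = γ 0 ∧ Φ (γ s) = γ t ∧ Φ '' (γ '' Icc 0 s) = γ '' Icc 0 t

theorem p2dR.symm {O : Set (Rn n)} {γ : ℝ → Rn n} {s t : ℝ} (h : p2dR O γ s t) : p2dR O γ t s := by
  obtain ⟨Φ, h1, h2, h3, h4⟩ := h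
  exact ⟨_, h1.inv, h1.1.inv_eq h2, h1.1.inv_eq h3, h4 ▸ h1.1.inv_image _⟩

theorem p2dR.trans {O : Set (Rn n)} {γ : ℝ → Rn n} {s t u : ℝ} (h : p2dR O γ s t)
    (k : p2dR O γ t u) : p2dR O γ s u := by
  obtain ⟨Φ, h1, h2, h3, h4⟩ := h
  obtain ⟨Ψ, k1, k2, k3, k4⟩ := k
  exact ⟨Ψ ∘ Φ, k1.comp h1, by rw [comp_apply, h2, k2], by rw [comp_apply, h3, k3],
    by rw [image_comp, h4, k4]⟩

theorem p2d_loc {γ : ℝ → Rn n} (hγ : TP γ) (hi : InjOn γ (Icc 0 1)) {O : Set (Rn n)}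
    (hO : IsOpen O) (hs : γ '' Icc 0 1 ⊆ O) {t₀ : ℝ} (ht : t₀ ∈ Ioc (0 : ℝ) 1) :
    ∃ η > 0, ∀ t, t ≤ 1 → t₀ - η / 2 ≤ t → t ≤ t₀ + η → p2dR O γ t (t₀ - η / 2) := by
  obtain ⟨ρ, α, β, p0, p1, hc⟩ := p2d_cone hγ ht.1
  have hK : IsClosed (γ '' Icc 0 (t₀ - ρ)) := (isCompact_Icc.image hγ.continuous).isClosed
  obtain ⟨δ, d0, hδ⟩ := Metric.isOpen_iff.1 (hO.inter hK.isOpen_compl) (γ t₀)
    ⟨hs ⟨t₀, ⟨ht.1.le, ht.2⟩, rfl⟩, by
      rintro ⟨s, k, e⟩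
      have := hi ⟨k.1, by linarith [k.2, ht.2]⟩ ⟨ht.1.le, ht.2⟩ e
      linarith [k.2]⟩
  obtain ⟨η₁, e0, hη⟩ := Metric.continuousAt_iff.1 (hγ.continuous.continuousAt (x := t₀)) δ d0
  obtain ⟨η, q0, q1, q2⟩ : ∃ η : ℝ, 0 < η ∧ η ≤ ρ ∧ η < η₁ :=
    ⟨min ρ (η₁ / 2), lt_min p0 (half_pos e0), min_le_left _ _,
      (min_le_right _ _).trans_lt (half_lt_self e0)⟩
  have hB : ∀ s, t₀ - η ≤ s → s ≤ t₀ + η → γ s ∈ ball (γ t₀) δ := fun s h1 h2 =>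
    hη (by rw [Real.dist_eq, abs_lt]; constructor <;> linarith)
  refine ⟨η, q0, fun t t1 t2 t3 => ?_⟩
  have tc : 0 < t - (t₀ - η) := by linarith
  obtain ⟨κ, k0, k1, k2⟩ : ∃ κ : ℝ, 0 < κ ∧ κ ≤ 1 ∧ κ * (t - (t₀ - η)) = η / 2 :=
    ⟨η / 2 / (t - (t₀ - η)), div_pos (half_pos q0) tc, (div_le_one tc).2 (by linarith),
      div_mul_cancel₀ _ tc.ne'⟩
  obtain ⟨φ, φ0, φ1, φ2, φ3⟩ : ∃ φ : ℝ → ℝ, TP φ ∧ StrictMono φ ∧ (∀ s, s ≤ t₀ - η → φ s = s) ∧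
      φ t = t₀ - η / 2 := by
    refine ⟨fun s => min s (t₀ - η + κ * (s - (t₀ - η))), TP.id'.min ((TP.const _).add
      ((TP.id'.sub (TP.const _)).const_mul κ)), fun s s' h => min_lt_min h (by nlinarith),
      fun s h => min_eq_left (by nlinarith), ?_⟩
    beta_reduce
    rw [k2, min_eq_right (by linarith)]
    ring
  have lo : ∀ r s : ℝ, s ≤ t₀ - η → γ s + r • (γ (φ s) - γ s) = γ s := fun r s h => by
    rw [φ2 s h, sub_self, smul_zero, add_zero]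
  have up : ∀ s, s ≤ t → φ s ≤ t₀ - η / 2 := fun s h => φ3 ▸ φ1.monotone h
  have hiB : ∀ r ∈ Icc (0 : ℝ) 1, ∀ s, t₀ - η ≤ s → s ≤ t →
      γ s + r • (γ (φ s) - γ s) ∈ ball (γ t₀) δ := fun r hr s h1 h2 =>
    (convex_ball _ _).add_smul_sub_mem (hB s h1 (h2.trans t3))
      (hB _ ((φ2 _ le_rfl).ge.trans (φ1.monotone h1)) (by linarith [up s h2])) hr
  have fm : ∀ r s : ℝ, t₀ - ρ ≤ s → s ≤ t → γ s + r • (γ (φ s) - γ s) =
      γ t₀ + ((1 - r) * min (s - t₀) 0 + r * (φ s - t₀)) • α + ((1 - r) * max (s - t₀) 0) • β := by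
    intro r s h1 h2
    have a1 := hc (s - t₀) (by linarith) (by linarith)
    have a2 : t₀ - ρ ≤ φ s := (φ2 _ (by linarith)).ge.trans (φ1.monotone h1)
    have a3 := up s h2
    have a4 := hc (φ s - t₀) (by linarith) (by linarith)
    rw [add_sub_cancel] at a1 a4
    rw [a4, a1, min_eq_left (a := φ s - t₀) (by linarith),
      max_eq_right (a := φ s - t₀) (by linarith)]
    module
  have key : ∀ r ∈ Icc (0 : ℝ) 1, ∀ s ∈ Icc 0 t, ∀ s' ∈ Icc 0 t, s < s' →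
      γ s + r • (γ (φ s) - γ s) ≠ γ s' + r • (γ (φ s') - γ s') := by
    intro r hr s h1 s' h2 h e
    rcases le_total s' (t₀ - η) with k | k
    · rw [lo r s (h.le.trans k), lo r s' k] at e
      exact h.ne (hi ⟨h1.1, h1.2.trans t1⟩ ⟨h2.1, h2.2.trans t1⟩ e)
    rcases le_total s (t₀ - ρ) with k' | k'
    · rw [lo r s (by linarith)] at e
      exact (hδ (hiB r hr s' k h2.2)).2 ⟨s, ⟨h1.1, k'⟩, e⟩
    rw [fm r s k' h1.2, fm r s' (k'.trans h.le) h2.2] at e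
    have a2 : t₀ - ρ ≤ φ s := (φ2 _ (by linarith)).ge.trans (φ1.monotone k')
    obtain ⟨b1, b2, b3, b4, b5⟩ := p2d_real (ρ := ρ) hr.1 hr.2
      (min_le_min_right 0 (sub_le_sub_right h.le t₀)) (max_le_max_right 0 (sub_le_sub_right h.le t₀))
      (by rw [min_add_max, min_add_max]; linarith) (sub_lt_sub_right (φ1 h) t₀)
      (le_min (by linarith) (by linarith)) (min_le_right _ _) (le_max_right _ _) (by linarith)
      (by linarith [up s' h2.2]) rfl rfl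
    have b6 : max (s' - t₀) 0 ≤ ρ := max_le (by linarith [h2.2]) p0.le
    have b7 : max (s' - t₀) 0 ≤ 1 - t₀ := max_le (by linarith [h2.2]) (sub_nonneg.2 ht.2)
    have c1 := hc _ (neg_le_neg b2) ((neg_nonpos.2 b1).trans p0.le)
    have c2 := hc _ ((neg_nonpos.2 p0.le).trans b3) (b4.trans b6)
    rw [min_eq_left (neg_nonpos.2 b1), max_eq_right (neg_nonpos.2 b1)] at c1
    rw [min_eq_right b3, max_eq_left b3] at c2
    have c3 := hi ⟨by linarith, by linarith [ht.2]⟩ ⟨by linarith [ht.1], by linarith⟩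
      (c1.trans (Eq.trans (by linear_combination (norm := module) e) c2.symm))
    linarith
  obtain ⟨Φ, f1, f2⟩ := p2d_line hγ (hγ.comp φ0) hO (t := t) (fun r hr s h1 s' h2 e => by
    rcases lt_trichotomy s s' with h | h | h
    exacts [(key r hr s h1 s' h2 h e).elim, h, (key r hr s' h2 s h1 h e.symm).elim])
    (fun r hr s h => by
      rcases le_total s (t₀ - η) with k | k
      · rw [lo r s k]
        exact hs ⟨s, ⟨h.1, h.2.trans t1⟩, rfl⟩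
      · exact (hδ (hiB r hr s k h.2)).1)
  have t0 : 0 ≤ t := by linarith
  have z : φ 0 = 0 := φ2 0 (by linarith)
  refine ⟨Φ, f1, by rw [f2 0 ⟨le_rfl, t0⟩, z], by rw [f2 t ⟨t0, le_rfl⟩, φ3], ?_⟩
  rw [← φ3, ← z, ← φ0.continuous.continuousOn.image_Icc_of_monotoneOn t0 (φ1.monotone.monotoneOn _),
    z, image_image, image_image]
  exact image_congr f2

theorem p2d_std {A O N : Set (Rn n)} {a b : Rn n} (hA : Arc A a b) (hO : IsOpen O) (hs : A ⊆ O)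
    (hN : N ∈ 𝓝 a) : ∃ Φ b', Mv O Φ ∧ Φ a = a ∧ Φ b = b' ∧ Φ '' A = segment ℝ a b' ∧ b' ∈ N := by
  obtain ⟨γ, hγ, hi, rfl, rfl, rfl⟩ := hA
  obtain ⟨ρ, p0, h⟩ := tp_homog hγ 0
  obtain ⟨ε, e1, e2, e3, e0⟩ : ∃ ε : ℝ, γ ε ∈ N ∧ ε < ρ ∧ ε < 1 ∧ 0 < ε := by
    have := (((hγ.continuous.continuousAt.eventually_mem hN).and ((eventually_lt_nhds p0).and
      (eventually_lt_nhds one_pos))).filter_mono (nhdsWithin_le_nhds (s := Ioi 0))).and
      self_mem_nhdsWithin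
    obtain ⟨ε, ⟨a1, a2, a3⟩, a4⟩ := this.exists
    exact ⟨ε, a1, a2, a3, a4⟩
  obtain ⟨Φ, f1, f2, f3, f4⟩ := isPreconnected_Ioc.induction₂ (p2dR O γ) (fun t₀ ht => by
      obtain ⟨η, q0, k⟩ := p2d_loc hγ hi hO hs ht
      filter_upwards [self_mem_nhdsWithin, mem_nhdsWithin_of_mem_nhds
        (Icc_mem_nhds (a := t₀ - η / 2) (b := t₀ + η) (by linarith) (by linarith))] with t h1 h2
      exact (k t₀ ht.2 (by linarith) (by linarith)).trans (k t h1.2 h2.1 h2.2).symm)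
    (fun _ _ _ _ _ _ => p2dR.trans) (fun _ _ _ _ => p2dR.symm)
    (right_mem_Ioc.2 one_pos) ⟨e0, e3.le⟩
  refine ⟨Φ, γ ε, f1, f2, f3, ?_, e1⟩
  rw [f4, ← segment_eq_Icc e0.le, segment_eq_image', segment_eq_image', image_image]
  refine image_congr fun θ hθ => ?_
  have := h ε (by rw [Real.norm_of_nonneg e0.le]; exact e2.le) θ hθ
  simpa only [zero_add, sub_zero] using this

/-- An arc is moved to a short segment at its first end, inside any neighbourhood. -/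
theorem arc_std {A O : Set (Rn n)} {a b : Rn n} (hA : Arc A a b) (hO : IsOpen O) (hs : A ⊆ O) :
    ∃ Φ b', Mv O Φ ∧ Φ a = a ∧ Φ b = b' ∧ Φ '' A = segment ℝ a b' := by
  obtain ⟨Φ, b', h1, h2, h3, h4, -⟩ := p2d_std hA hO hs univ_mem
  exact ⟨Φ, b', h1, h2, h3, h4⟩

/-- An arc in the plane has arbitrarily thin disc neighbourhoods. -/
theorem arc_ball {A O : Set (Rn n)} {a b : Rn n} (hA : Arc A a b) (hO : IsOpen O) (hs : A ⊆ O) :
    ∃ B S, Ball B S ∧ A ⊆ B \ S ∧ B ⊆ O := by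
  obtain ⟨r, r0, hr⟩ := Metric.nhds_basis_closedBall.mem_iff.1 (hO.mem_nhds (hs hA.tarc.left))
  obtain ⟨Φ, b', h1, -, -, h4, h5⟩ := p2d_std hA hO hs (ball_mem_nhds a r0)
  refine ⟨_, _, (ball_round a r0).image h1.1.inv, fun x hx => ?_,
    (image_mono hr).trans (h1.inv.image_eq Subset.rfl).subset⟩
  have k : Φ x ∈ ball a r :=
    (convex_ball a r).segment_subset (mem_ball_self r0) h5 (h4 ▸ mem_image_of_mem Φ hx)
  refine ⟨⟨Φ x, ball_subset_closedBall k, h1.1.li x⟩, ?_⟩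
  rintro ⟨y, hy, rfl⟩
  rw [h1.1.ri] at k
  exact (mem_ball.1 k).ne hy

end BEp
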