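import Pool.Agent.Work.MP_f0515e_an.D3.PMod1
import Pool.Agent.Work.MP_f0515e_an.D3.PGl

/-! Pushing one cap of a lens onto the other; cone extensions.
`push`: transport `W`, `O` to the model (`Mv.conj`, `Poly.image`); `ie_line` with `X = capU i`, `a = id`,
`d x = -2 x i • e_i`, injective since `hz i` is injective on the cap; a point of the trace lies in `oct i`, so if it
is in `W` it is in `eqt i` and `x i = 0`.
`fill_cone`: `{r = 1}` is a polyhedron (`poly_zero`); change `g` by `tp_glue` so that `g 0 = 0`; `plc_tp` with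
`v = 0`, `u = 1`; same for a left inverse of `g` (`tp_linv`), `pa2_of_inv`. `fill`: conjugate to unit spheres.
`len_of_bij`: `fill` from `B` to `oct i` (a ball by `Len.ball` of the identity lens), then invert.
`len_rel`: in the model `g` is a bijection of `capL i` preserving `eqt i`. Let `K` be the cone over `g` for the
norm gauge (after `g 0 = 0`; on the hyperplane `x i = 0` it is a bijection of the hyperplane preserving the
norm), `x ↦ K (hz i x) + x i • e_i` is a bijection of `capU i` which agrees with `g` on `eqt i`; `tp_glue`, `fill`.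
About 300 lines. -/

open Set Metric Filter Topology Function BEv
open scoped NNReal

noncomputable section
namespace BEp

variable {n m : ℕ}

theorem pfill_r0 {r : Rn n → ℝ} (hr : Gauge r) : r 0 = 0 := by
  simpa using hr.hom 0 0 le_rfl

theorem pfill_poly {r : Rn n → ℝ} (hr : Gauge r) : Poly {x | r x = 1} := by
  obtain ⟨κ, hκ, h⟩ := hr.low
  have e : {x | r x = 1} = {x : Rn n | ‖x‖ ≤ 1 / κ ∧ r x - 1 = 0} := by
    ext x
    simp only [mem_ofPred_eq, sub_eq_zero]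
    refine ⟨fun hx => ⟨?_, hx⟩, fun hx => hx.2⟩
    rw [le_div_iff₀ hκ, mul_comm, ← hx]
    exact h x
  rw [e]
  exact poly_zero (hr.tp.sub (TP.const 1)) _

theorem pfill_polar {r : Rn n → ℝ} (hr : Gauge r) (y : Rn n) :
    y = 0 ∨ ∃ x, r x = 1 ∧ ∃ t : ℝ, 0 < t ∧ y = t • x := by
  rcases (plc_nonneg hr y).eq_or_lt with h | h
  · exact Or.inl (plc_zero hr h.symm)
  · refine Or.inr ⟨(r y)⁻¹ • y, ?_, r y, h, ?_⟩
    · rw [hr.hom _ _ (inv_nonneg.2 h.le), inv_mul_cancel₀ h.ne']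
    · rw [smul_smul, mul_inv_cancel₀ h.ne', one_smul]

theorem pfill_cone0 {r : Rn n → ℝ} (hr : Gauge r) {g : Rn n → Rn n} (hg : TP g) :
    ∃ K : Rn n → Rn n, TP K ∧ K 0 = 0 ∧
      ∀ x, r x = 1 → ∀ t : ℝ, 0 ≤ t → K (t • x) = t • g x := by
  obtain ⟨k, hk, h1, h2⟩ := tp_glue (pfill_poly hr) (Poly.finite (finite_singleton (0 : Rn n))) hg
    (TP.const (0 : Rn n)) (by
      rintro x ⟨hx, rfl⟩
      have : r 0 = 1 := hx
      rw [pfill_r0 hr] at this
      exact absurd this zero_ne_one)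
  have k0 : k 0 = 0 := h2 rfl
  refine ⟨_, plc_tp (v := 0) hr hk one_pos, ?_, ?_⟩
  · simp [k0, pfill_r0 hr]
  · intro x hx t ht
    have e : r (t • x) = t := by rw [hr.hom _ _ ht, hx, mul_one]
    simp only [sub_zero, k0, e, div_one, zero_add]
    rcases ht.eq_or_lt with rfl | ht'
    · simp
    · rw [smul_smul, one_div, inv_mul_cancel₀ ht'.ne', one_smul, h1 hx]

theorem pfill_idlen (i : Fin n) : Len i (oct i) (capU i) (capL i) (eqt i) :=
  ⟨id, LH.id', image_id _, image_id _, image_id _, image_id _⟩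

theorem pfill_capU (i : Fin n) : Poly (capU i) := by
  have := poly_le (pfill_poly (gauge_oN i)) (D := fun x : Rn n => -x i) (TP.id'.apply i).neg
  convert this using 1
  ext x
  simp [capU]

theorem pfill_capL (i : Fin n) : Poly (capL i) :=
  poly_le (pfill_poly (gauge_oN i)) (D := fun x : Rn n => x i) (TP.id'.apply i)

theorem pfill_hz_add (i : Fin n) (x : Rn n) (c : ℝ) :
    hz i (x + c • (Pi.single i 1 : Rn n)) = hz i x := by
  ext j
  by_cases h : j = i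
  · subst h; simp [hz]
  · simp [hz, h]

theorem pfill_hz_self {i : Fin n} {x : Rn n} (h : x i = 0) : hz i x = x := by
  rw [hz, ← h, update_eq_self]

theorem pfill_hz_i (i : Fin n) (x : Rn n) : hz i x i = 0 := by simp [hz]

theorem pfill_ext {i : Fin n} {x y : Rn n} (h1 : hz i x = hz i y) (h2 : x i = y i) : x = y := by
  ext j
  by_cases h : j = i
  · subst h; exact h2
  · simpa [hz, h] using congrFun h1 j

theorem pfill_bij {Θ : Rn n → Rn n} (k : LH Θ) (A : Set (Rn n)) : BijOn Θ A (Θ '' A) :=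
  k.inj.injOn.bijOn_image

theorem pfill_bij' {Θ : Rn n → Rn n} (k : LH Θ) (A : Set (Rn n)) :
    BijOn (invFun Θ) (Θ '' A) A := by
  have := pfill_bij k.inv (Θ '' A)
  rwa [k.inv_image] at this

theorem pfill_push0 {i : Fin n} {W O : Set (Rn n)} (hW : Poly W) (hWB : W ∩ oct i ⊆ eqt i)
    (hO : IsOpen O) (hB : oct i ⊆ O) :
    ∃ Φ, Mv O Φ ∧ Φ '' capU i = capL i ∧ (∀ x ∈ W, Φ x = x) ∧ ∀ x ∈ eqt i, Φ x = x := by
  have e1 : ∀ (r : ℝ) (x : Rn n), hz i (x + r • (-2 * x i) • (Pi.single i 1 : Rn n)) = hz i x := by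
    intro r x
    rw [smul_smul, pfill_hz_add]
  have e2 : ∀ (r : ℝ) (x : Rn n),
      (x + r • (-2 * x i) • (Pi.single i 1 : Rn n)) i = (1 - 2 * r) * x i := by
    intro r x
    simp
    ring
  have e3 : ∀ r ∈ Icc (0 : ℝ) 1, ∀ x ∈ capU i,
      x + r • (-2 * x i) • (Pi.single i 1 : Rn n) ∈ oct i := by
    intro r hr x hx
    have h1 : ‖hz i x‖ + |x i| = 1 := hx.1
    show ‖hz i _‖ + |_| ≤ 1
    rw [e1, e2, abs_mul]
    have : |1 - 2 * r| ≤ 1 := abs_le.2 ⟨by linarith [hr.2], by linarith [hr.1]⟩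
    nlinarith [abs_nonneg (x i)]
  obtain ⟨Φ, h1, h2, -, h4⟩ := ie_line (pfill_capU i) (a := fun x : Rn n => x)
    (d := fun x : Rn n => (-2 * x i) • (Pi.single i 1 : Rn n)) TP.id'
    (((TP.id'.apply i).const_mul (-2)).smul_const _) (W := W) (O := O)
    (by
      intro r _ x hx y hy hxy
      have h1 : hz i x = hz i y := by
        rw [← e1 r x, ← e1 r y]
        exact congrArg (hz i) hxy
      have h2 : ‖hz i x‖ + |x i| = 1 := hx.1
      have h3 : ‖hz i y‖ + |y i| = 1 := hy.1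
      rw [abs_of_nonneg hx.2] at h2
      rw [abs_of_nonneg hy.2, ← h1] at h3
      exact pfill_ext h1 (by linarith))
    hW hO
    (by
      intro r hr x hx hw
      have h1 := hWB ⟨hw, e3 r hr x hx⟩
      have h2 : ‖hz i x‖ = 1 := by
        rw [← e1 r x, pfill_hz_self h1.2]
        exact h1.1
      have h3 : ‖hz i x‖ + |x i| = 1 := hx.1
      have h4 : x i = 0 := abs_eq_zero.1 (by linarith)
      simp [h4])
    (fun r hr x hx => hB (e3 r hr x hx)) ⊤ (fun _ => Submodule.mem_top)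
  have f1 : ∀ x : Rn n, hz i (x + (-2 * x i) • (Pi.single i 1 : Rn n)) = hz i x :=
    fun x => pfill_hz_add i x _
  have f2 : ∀ x : Rn n, (x + (-2 * x i) • (Pi.single i 1 : Rn n)) i = -x i := by
    intro x
    simp
    ring
  have f3 : ∀ x : Rn n, oN i (x + (-2 * x i) • (Pi.single i 1 : Rn n)) = oN i x := by
    intro x
    rw [oN, f1, f2, abs_neg, oN]
  refine ⟨Φ, h1, ?_, h2, ?_⟩
  · ext y
    constructor
    · rintro ⟨x, hx, rfl⟩
      rw [h4 x hx]
      refine ⟨(f3 x).trans hx.1, ?_⟩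
      rw [f2]
      linarith [hx.2]
    · intro hy
      have hx : y + (-2 * y i) • (Pi.single i 1 : Rn n) ∈ capU i := by
        refine ⟨(f3 y).trans hy.1, ?_⟩
        rw [f2]
        linarith [hy.2]
      refine ⟨_, hx, ?_⟩
      rw [h4 _ hx]
      exact pfill_ext (i := i) (by rw [f1, f1]) (by rw [f2, f2, neg_neg])
  · intro x hx
    have hx' : x ∈ capU i := ((pfill_idlen i).inter.symm ▸ hx : x ∈ capU i ∩ capL i).1
    rw [h4 x hx', hx.2]
    simp

theorem push {i : Fin n} {B D₁ D₂ J W O : Set (Rn n)} (h : Len i B D₁ D₂ J) (hW : Poly W)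
    (hWB : W ∩ B ⊆ J) (hO : IsOpen O) (hB : B ⊆ O) :
    ∃ Φ, Mv O Φ ∧ Φ '' D₁ = D₂ ∧ (∀ x ∈ W, Φ x = x) ∧ ∀ x ∈ J, Φ x = x := by
  obtain ⟨Θ, k, rfl, rfl, rfl, rfl⟩ := h
  obtain ⟨e, -, he⟩ := k.homeo
  obtain ⟨Φ, h1, h2, h3, h4⟩ := pfill_push0 (i := i) (hW.image k.tpi) (O := invFun Θ '' O)
    (by
      rintro _ ⟨⟨w, hw, rfl⟩, hx⟩
      obtain ⟨y, hy, e⟩ := hWB ⟨hw, _, hx, k.ri w⟩
      rw [← e, k.li]
      exact hy)
    (by rw [← he]; exact e.symm.isOpenMap _ hO)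
    (fun x hx => ⟨Θ x, hB ⟨x, hx, rfl⟩, k.li x⟩)
  have h5 := h1.conj k
  rw [k.image_inv] at h5
  refine ⟨_, h5, ?_, ?_, ?_⟩
  · rw [image_comp, image_comp, k.inv_image, h2]
  · intro x hx
    simp only [comp_apply]
    rw [h3 _ ⟨x, hx, rfl⟩, k.ri]
  · rintro _ ⟨x, hx, rfl⟩
    simp only [comp_apply]
    rw [k.li, h4 x hx]

theorem fill_cone {r r' : Rn n → ℝ} (hr : Gauge r) (hr' : Gauge r') {g : Rn n → Rn n} (hg : TP g)
    (hb : BijOn g {x | r x = 1} {x | r' x = 1}) :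
    ∃ Φ, LH Φ ∧ (∀ x, r' (Φ x) = r x) ∧ ∀ x, r x = 1 → ∀ t : ℝ, 0 ≤ t → Φ (t • x) = t • g x := by
  obtain ⟨K, hK, K0, hK1⟩ := pfill_cone0 hr hg
  obtain ⟨k, hk, hk1⟩ := tp_linv (pfill_poly hr) hg hb.injOn
  obtain ⟨K', hK', K0', hK1'⟩ := pfill_cone0 hr' hk
  refine ⟨K, pa2_of_inv hK hK' ?_ ?_, ?_, hK1⟩
  · intro y
    rcases pfill_polar hr y with rfl | ⟨x, hx, t, ht, rfl⟩
    · rw [K0, K0']
    · rw [hK1 x hx t ht.le, hK1' _ (hb.mapsTo hx) t ht.le, hk1 x hx]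
  · intro y
    rcases pfill_polar hr' y with rfl | ⟨z, hz, t, ht, rfl⟩
    · rw [K0', K0]
    · obtain ⟨x, hx, rfl⟩ := hb.surjOn hz
      rw [hK1' _ hz t ht.le, hk1 x hx, hK1 x hx t ht.le]
  · intro y
    rcases pfill_polar hr y with rfl | ⟨x, hx, t, ht, rfl⟩
    · rw [K0, pfill_r0 hr, pfill_r0 hr']
    · have h1 : r' (g x) = 1 := hb.mapsTo hx
      rw [hK1 x hx t ht.le, hr.hom _ _ ht.le, hr'.hom _ _ ht.le, hx, h1]

theorem fill {B S B' S' : Set (Rn n)} (h : Ball B S) (h' : Ball B' S') {g : Rn n → Rn n}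
    (hg : TP g) (hb : BijOn g S S') : ∃ Φ, LH Φ ∧ Φ '' B = B' ∧ EqOn Φ g S := by
  obtain ⟨Θ, k, rfl, rfl⟩ := h
  obtain ⟨Θ', k', rfl, rfl⟩ := h'
  have e : sphere (0 : Rn n) 1 = {x | ‖x‖ = 1} := by
    ext x
    simp
  have h1 := (pfill_bij' k' _).comp (hb.comp (pfill_bij k _))
  rw [e] at h1
  obtain ⟨K, hK, h2, h3⟩ := fill_cone gauge_norm gauge_norm (k'.tpi.comp (hg.comp k.tp)) h1
  have h4 : K '' closedBall 0 1 = closedBall 0 1 := by
    ext y
    constructor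
    · rintro ⟨x, hx, rfl⟩
      rw [mem_closedBall_zero_iff] at hx ⊢
      rwa [h2]
    · intro hy
      refine ⟨_, ?_, hK.ri y⟩
      rw [mem_closedBall_zero_iff] at hy ⊢
      rwa [← h2, hK.ri]
  refine ⟨Θ' ∘ K ∘ invFun Θ, k'.comp (hK.comp k.inv), ?_, ?_⟩
  · rw [image_comp, image_comp, k.inv_image, h4]
  · rintro _ ⟨x, hx, rfl⟩
    have h5 := h3 x (by simpa using hx) 1 zero_le_one
    simp only [one_smul] at h5
    simp only [comp_apply]
    rw [k.li, h5, k'.ri]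

theorem len_of_bij {i : Fin n} {B D₁ D₂ : Set (Rn n)} (h : Ball B (D₁ ∪ D₂)) {g : Rn n → Rn n}
    (hg : TP g) (hi : InjOn g (D₁ ∪ D₂)) (h1 : g '' D₁ = capU i) (h2 : g '' D₂ = capL i) :
    Len i B D₁ D₂ (D₁ ∩ D₂) := by
  have hb : BijOn g (D₁ ∪ D₂) (capU i ∪ capL i) := by
    rw [← h1, ← h2, ← image_union]
    exact hi.bijOn_image
  obtain ⟨Φ, k, h3, h4⟩ := fill h (pfill_idlen i).ball hg hb
  have h5 : Φ '' D₁ = capU i := by rw [← h1]; exact (h4.mono subset_union_left).image_eq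
  have h6 : Φ '' D₂ = capL i := by rw [← h2]; exact (h4.mono subset_union_right).image_eq
  refine ⟨invFun Φ, k.inv, ?_, ?_, ?_, ?_⟩
  · rw [← h3, k.inv_image]
  · rw [← h5, k.inv_image]
  · rw [← h6, k.inv_image]
  · rw [← (pfill_idlen i).inter, ← h5, ← h6, ← image_inter k.inj, k.inv_image]

theorem pfill_upper {i : Fin n} {g : Rn n → Rn n} (hg : TP g) (hb : BijOn g (eqt i) (eqt i)) :
    ∃ u, TP u ∧ BijOn u (capU i) (capU i) ∧ EqOn u g (eqt i) := by
  obtain ⟨K, hK, K0, hK1⟩ := pfill_cone0 gauge_norm hg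
  have pol : ∀ y : Rn n, y i = 0 → y = 0 ∨ ∃ x ∈ eqt i, ∃ t : ℝ, 0 < t ∧ y = t • x := by
    intro y hy
    rcases pfill_polar gauge_norm y with h | ⟨x, hx, t, ht, rfl⟩
    · exact Or.inl h
    · refine Or.inr ⟨x, ⟨hx, ?_⟩, t, ht, rfl⟩
      simpa [ht.ne'] using hy
  have ha : ∀ y : Rn n, y i = 0 → K y i = 0 ∧ ‖K y‖ = ‖y‖ := by
    intro y hy
    rcases pol y hy with rfl | ⟨x, hx, t, ht, rfl⟩
    · rw [K0]
      exact ⟨rfl, rfl⟩
    · have h1 := hb.mapsTo hx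
      rw [hK1 x hx.1 t ht.le, norm_smul, norm_smul, h1.1, hx.1]
      exact ⟨by simp [h1.2], rfl⟩
  have hi : ∀ y y' : Rn n, y i = 0 → y' i = 0 → K y = K y' → y = y' := by
    intro y y' hy hy' h
    have hn : ‖y‖ = ‖y'‖ := by rw [← (ha y hy).2, h, (ha y' hy').2]
    rcases pol y hy with rfl | ⟨x, hx, t, ht, rfl⟩
    · rw [norm_zero] at hn
      exact (norm_eq_zero.1 hn.symm).symm
    rcases pol y' hy' with rfl | ⟨x', hx', t', ht', rfl⟩
    · rw [norm_zero] at hn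
      exact norm_eq_zero.1 hn
    rw [norm_smul, norm_smul, hx.1, hx'.1, Real.norm_of_nonneg ht.le, Real.norm_of_nonneg ht'.le,
      mul_one, mul_one] at hn
    subst hn
    rw [hK1 x hx.1 t ht.le, hK1 x' hx'.1 t ht.le] at h
    rw [hb.injOn hx hx' (smul_right_injective _ ht.ne' h)]
  have hs : ∀ z : Rn n, z i = 0 → ∃ y : Rn n, y i = 0 ∧ K y = z := by
    intro z hz
    rcases pol z hz with rfl | ⟨x, hx, t, ht, rfl⟩
    · exact ⟨0, rfl, K0⟩
    · obtain ⟨y, hy, rfl⟩ := hb.surjOn hx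
      exact ⟨t • y, by simp [hy.2], hK1 y hy.1 t ht.le⟩
  have e1 : ∀ x : Rn n, hz i (K (hz i x) + x i • (Pi.single i 1 : Rn n)) = K (hz i x) := by
    intro x
    rw [pfill_hz_add, pfill_hz_self (ha _ (pfill_hz_i i x)).1]
  have e2 : ∀ x : Rn n, (K (hz i x) + x i • (Pi.single i 1 : Rn n)) i = x i := by
    intro x
    simp [(ha _ (pfill_hz_i i x)).1]
  have e3 : ∀ x : Rn n, oN i (K (hz i x) + x i • (Pi.single i 1 : Rn n)) = oN i x := by
    intro x
    rw [oN, e1, e2, (ha _ (pfill_hz_i i x)).2, oN]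
  refine ⟨fun x => K (hz i x) + x i • (Pi.single i 1 : Rn n),
    (hK.comp (tp_hz i)).add ((TP.id'.apply i).smul_const _), ⟨?_, ?_, ?_⟩, ?_⟩
  · intro x hx
    exact ⟨(e3 x).trans hx.1, hx.2.trans_eq (e2 x).symm⟩
  · intro x _ y _ h
    refine pfill_ext (i := i) (hi _ _ (pfill_hz_i i x) (pfill_hz_i i y) ?_) ?_
    · rw [← e1 x, ← e1 y]
      exact congrArg (hz i) h
    · rw [← e2 x, ← e2 y]
      exact congrFun h i
  · intro z hz'
    obtain ⟨y, hy, h⟩ := hs _ (pfill_hz_i i z)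
    have f1 : hz i (y + z i • (Pi.single i 1 : Rn n)) = y := by
      rw [pfill_hz_add, pfill_hz_self hy]
    have f2 : (y + z i • (Pi.single i 1 : Rn n)) i = z i := by simp [hy]
    have f3 : K (hz i (y + z i • (Pi.single i 1 : Rn n))) +
        (y + z i • (Pi.single i 1 : Rn n)) i • (Pi.single i 1 : Rn n) = z := by
      refine pfill_ext (i := i) ?_ ?_
      · rw [e1, f1, h]
      · rw [e2, f2]
    refine ⟨y + z i • (Pi.single i 1 : Rn n), ⟨?_, ?_⟩, f3⟩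
    · rw [← e3, f3]
      exact hz'.1
    · rw [f2]
      exact hz'.2
  · intro x hx
    have h := hK1 x hx.1 1 zero_le_one
    simp only [one_smul] at h
    simp only [pfill_hz_self hx.2, hx.2, zero_smul, add_zero, h]

theorem pfill_rel0 {i : Fin n} {g : Rn n → Rn n} (hg : TP g) (hb : BijOn g (capL i) (capL i))
    (hJ : g '' eqt i = eqt i) :
    ∃ Φ, LH Φ ∧ Φ '' oct i = oct i ∧ Φ '' capU i = capU i ∧ EqOn Φ g (capL i) := by
  have hI := (pfill_idlen i).inter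
  have hL : eqt i ⊆ capL i := hI ▸ inter_subset_right
  have hU : eqt i ⊆ capU i := hI ▸ inter_subset_left
  have hb' : BijOn g (eqt i) (eqt i) := by
    have := (hb.injOn.mono hL).bijOn_image
    rwa [hJ] at this
  obtain ⟨u, hu, h1, h2⟩ := pfill_upper hg hb'
  obtain ⟨k, hk, h3, h4⟩ := tp_glue (pfill_capU i) (pfill_capL i) hu hg (hI.symm ▸ h2)
  have b1 : BijOn k (capU i) (capU i) := h1.congr h3.symm
  have b2 : BijOn k (capL i) (capL i) := hb.congr h4.symm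
  have key : ∀ x ∈ capU i, ∀ y ∈ capL i, k x = k y → x = y := by
    intro x hx y hy h
    have h5 : k y ∈ eqt i := hI ▸ ⟨h ▸ b1.mapsTo hx, b2.mapsTo hy⟩
    rw [h4 hy] at h5
    obtain ⟨z, hz, e⟩ := hb'.surjOn h5
    have h6 : z = y := hb.injOn (hL hz) hy e
    subst h6
    exact b1.injOn hx (hU hz) h
  have b3 : BijOn k (capU i ∪ capL i) (capU i ∪ capL i) := by
    refine b1.union b2 ?_
    rintro x (hx | hx) y (hy | hy) h
    · exact b1.injOn hx hy h
    · exact key x hx y hy h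
    · exact (key y hy x hx h.symm).symm
    · exact b2.injOn hx hy h
  obtain ⟨Φ, hΦ, h5, h6⟩ := fill (pfill_idlen i).ball (pfill_idlen i).ball hk b3
  refine ⟨Φ, hΦ, h5, ?_, (h6.mono subset_union_right).trans h4⟩
  rw [(h6.mono subset_union_left).image_eq, b1.image_eq]

theorem len_rel {i : Fin n} {B D₁ D₂ J B' D₁' D₂' J' : Set (Rn n)} (h : Len i B D₁ D₂ J)
    (h' : Len i B' D₁' D₂' J') {g : Rn n → Rn n} (hg : TP g) (hb : BijOn g D₂ D₂')
    (hJ : g '' J = J') : ∃ Φ, LH Φ ∧ Φ '' B = B' ∧ Φ '' D₁ = D₁' ∧ EqOn Φ g D₂ := by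
  obtain ⟨Θ, k, rfl, rfl, rfl, rfl⟩ := h
  obtain ⟨Θ', k', rfl, rfl, rfl, rfl⟩ := h'
  obtain ⟨Φ, hΦ, h1, h2, h3⟩ := pfill_rel0 (i := i) (g := invFun Θ' ∘ g ∘ Θ)
    (k'.tpi.comp (hg.comp k.tp)) ((pfill_bij' k' _).comp (hb.comp (pfill_bij k _)))
    (by rw [image_comp, image_comp, hJ, k'.inv_image])
  refine ⟨Θ' ∘ Φ ∘ invFun Θ, k'.comp (hΦ.comp k.inv), ?_, ?_, ?_⟩
  · rw [image_comp, image_comp, k.inv_image, h1]
  · rw [image_comp, image_comp, k.inv_image, h2]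
  · rintro _ ⟨x, hx, rfl⟩
    simp only [comp_apply]
    rw [k.li, h3 hx]
    simp only [comp_apply]
    rw [k'.ri]

end BEp
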