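import Pool.Agent.Work.MP_f0515e_an.D3.PBall
import Pool.Agent.Work.MP_f0515e_an.D3.PFill

/-! Sums of lenses.
`len_uniq`: `E₁ \ J` is preconnected (`Len.conn`) and covered by the closed sets `D₁`, `D₂` which are disjoint off `J`;
same for `E₂ \ J`; both in the same `D` would force the other `D ⊆ J`; use `Len.symm`.
`thm11`: `D₂ \ J` is preconnected and misses `D₁ ∪ D`, so (`Ball.side`) it misses `B₁` or lies in `B₁`. If it misses,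
`push` the cap `D` onto `D₁` across `B₁` fixing `W = D₂`. Symmetric for `D₁ \ J` and `B₂`. Both inside: `Ball.mono`
twice gives `B₁ = B₂`, so the frontiers agree and `D₁ ⊆ D₂ ∪ D`, against `Len.ne`. The image of `B₂` under the push is a
lens with caps `D₂`, `D₁` (`Len.image`). `glue`: a point `q ∈ D \ J` is interior to `B₁ ∪ B₂`: `Ball.loc` for `B₁` inside
a neighbourhood missing `D₂`; `N' \ B₁` is preconnected, misses `D₂ ∪ D`, and meets `B₂ \ (D₂ ∪ D)`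
(`Ball.closure_in`), so it lies in `B₂`. Hence the frontier of the union lies in `D₁ ∪ D₂`; `Ball.eq_of_frontier`.
`theta`: if `D₃` is outside `B₁₂` and `D₂` outside `B₁₃`, then `B₁₂ ∩ B₁₃ = D₁` and `glue` + `Ball.uniq` give
`B₂₃ = B₁₂ ∪ B₁₃`. `cut_core`: `B₁, B₂ ⊆ B` (`Ball.mono`), `D₂ \ J` lies in `frontier B`, hence misses `B₁`; the inside
of `B₁` misses `B₂`; `glue`. About 250 lines. -/

open Set Metric Filter Topology Function BEv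
open scoped NNReal

noncomputable section
namespace BEp

variable {n m : ℕ}

variable {i : Fin n} {B B₁ B₂ D D₁ D₂ D₃ E₁ E₂ J O : Set (Rn n)}

theorem pthm_J (h : Len i B D₁ D₂ J) : J ⊆ D₁ := h.inter ▸ inter_subset_left

theorem pthm_J' (h : Len i B D₁ D₂ J) : J ⊆ D₂ := h.inter ▸ inter_subset_right

theorem pthm_B (h : Len i B D₁ D₂ J) : D₁ ⊆ B := subset_union_left.trans h.ball.sub

theorem pthm_B' (h : Len i B D₁ D₂ J) : D₂ ⊆ B := subset_union_right.trans h.ball.sub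

theorem pthm_mem (hi : D₁ ∩ D₂ = J) {x : Rn n} (h1 : x ∈ D₁) (h2 : x ∈ D₂) : x ∈ J :=
  hi ▸ (⟨h1, h2⟩ : x ∈ D₁ ∩ D₂)

theorem pthm_eq (hJ : J ⊆ E₁) (hu : D₁ ∪ D₂ = E₁ ∪ E₂) (hi : D₁ ∩ D₂ = J) (h1 : E₁ \ J ⊆ D₁)
    (h2 : E₂ \ J ⊆ D₂) : D₁ = E₁ := by
  refine Subset.antisymm (fun x hx => ?_) fun x hx => ?_
  · by_cases hxJ : x ∈ J
    · exact hJ hxJ
    · rcases (hu ▸ Or.inl hx : x ∈ E₁ ∪ E₂) with k | k
      · exact k
      · exact absurd (pthm_mem hi hx (h2 ⟨k, hxJ⟩)) hxJ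
  · by_cases hxJ : x ∈ J
    · exact (hi ▸ hxJ : x ∈ D₁ ∩ D₂).1
    · exact h1 ⟨hx, hxJ⟩

theorem pthm_both (hu : D₁ ∪ D₂ = E₁ ∪ E₂) (hi : D₁ ∩ D₂ = J) (h1 : E₁ \ J ⊆ D₁)
    (h2 : E₂ \ J ⊆ D₁) : D₂ ⊆ J := by
  intro x hx
  by_contra hxJ
  rcases (hu ▸ Or.inr hx : x ∈ E₁ ∪ E₂) with k | k
  · exact hxJ (pthm_mem hi (h1 ⟨k, hxJ⟩) hx)
  · exact hxJ (pthm_mem hi (h2 ⟨k, hxJ⟩) hx)

/-- The open cap of a second lens lies inside or outside the first lens. -/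
theorem pthm_side (h1 : Len i B₁ D₁ D J) (h2 : Len i B₂ D₂ D J) (hi : D₁ ∩ D₂ = J) :
    D₂ \ J ⊆ B₁ \ (D₁ ∪ D) ∨ D₂ ∩ B₁ ⊆ J := by
  refine (h1.ball.side h2.conn (disjoint_left.2 fun x hx k => hx.2 ?_)).imp id fun k x hx => ?_
  · rcases k with k | k
    · exact pthm_mem hi k hx.1
    · exact pthm_mem h2.inter hx.1 k
  · by_contra hxJ
    exact disjoint_left.1 k ⟨hx.1, hxJ⟩ hx.2

theorem pthm_sub (h1 : Len i B₁ D₁ D J) (k : D₂ \ J ⊆ B₁ \ (D₁ ∪ D)) : D₂ ⊆ B₁ := fun x hx => by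
  by_cases hxJ : x ∈ J
  · exact pthm_B h1 (pthm_J h1 hxJ)
  · exact (k ⟨hx, hxJ⟩).1

theorem pthm_dich (hn : 2 ≤ n) (h1 : Len i B₁ D₁ D J) (h2 : Len i B₂ D₂ D J)
    (hi : D₁ ∩ D₂ = J) : D₂ ∩ B₁ ⊆ J ∨ D₁ ∩ B₂ ⊆ J := by
  rcases pthm_side h1 h2 hi with k1 | k1
  · rcases pthm_side h2 h1 (inter_comm D₁ D₂ ▸ hi) with k2 | k2
    · have e1 : B₂ ⊆ B₁ := h1.ball.mono hn h2.ball (union_subset (pthm_sub h1 k1) (pthm_B' h1))
      obtain ⟨x, hx⟩ := h1.ne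
      have e2 : x ∈ interior B₁ := interior_mono e1 (h2.ball.interior_eq ▸ k2 hx)
      rw [h1.ball.interior_eq] at e2
      exact absurd (Or.inl hx.1) e2.2
    · exact Or.inr k2
  · exact Or.inl k1

theorem pthm_inter (h1 : Len i B₁ D₁ D J) (h2 : Len i B₂ D₂ D J) (k1 : D₂ ∩ B₁ ⊆ J)
    (k2 : D₁ ∩ B₂ ⊆ J) : B₁ ∩ B₂ = D := by
  refine Subset.antisymm (fun x hx => ?_) (subset_inter (pthm_B' h1) (pthm_B' h2))
  have hd : Disjoint (B₁ \ (D₁ ∪ D)) (D₂ ∪ D) := disjoint_left.2 fun y hy k => by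
    rcases k with k | k
    · exact hy.2 (Or.inl (pthm_J h1 (k1 ⟨k, hy.1⟩)))
    · exact hy.2 (Or.inr k)
  rcases h2.ball.side h1.ball.conn_in hd with k | k
  · have e : B₁ ⊆ B₂ := by
      rw [← h1.ball.closure_in]
      exact closure_minimal (k.trans sdiff_subset) h2.ball.poly.1.isClosed
    obtain ⟨y, hy⟩ := h1.ne
    exact absurd (k2 ⟨hy.1, e (pthm_B h1 hy.1)⟩) hy.2
  · by_contra hxD
    refine disjoint_left.1 k ⟨hx.1, fun k' => ?_⟩ hx.2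
    rcases k' with k' | k'
    · exact hxD (pthm_J' h1 (k2 ⟨k', hx.2⟩))
    · exact hxD k'

theorem pthm_fix {Φ : Rn n → Rn n} (h : ∀ x ∈ D, Φ x = x) : Φ '' D = D := by
  rw [image_congr h, image_id']

theorem len_uniq (h : Len i B E₁ E₂ J) (c1 : IsClosed D₁) (c2 : IsClosed D₂)
    (hu : D₁ ∪ D₂ = E₁ ∪ E₂) (hi : D₁ ∩ D₂ = J) (n1 : ¬ D₁ ⊆ J) (n2 : ¬ D₂ ⊆ J) :
    Len i B D₁ D₂ J := by
  have key : ∀ T : Set (Rn n), IsPreconnected (T \ J) → T ⊆ E₁ ∪ E₂ → T \ J ⊆ D₁ ∨ T \ J ⊆ D₂ :=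
    fun T hT hs => isPreconnected_iff_subset_of_disjoint_closed.1 hT D₁ D₂ c1 c2
      (sdiff_subset.trans (hu ▸ hs)) (by rw [hi]; exact sdiff_inter_self)
  have hu' : D₂ ∪ D₁ = E₁ ∪ E₂ := union_comm D₁ D₂ ▸ hu
  have hi' : D₂ ∩ D₁ = J := inter_comm D₁ D₂ ▸ hi
  rcases key E₁ h.conn subset_union_left with k1 | k1 <;>
    rcases key E₂ h.symm.conn subset_union_right with k2 | k2
  · exact absurd (pthm_both hu hi k1 k2) n2
  · rw [pthm_eq (pthm_J h) hu hi k1 k2,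
      pthm_eq (pthm_J' h) (hu'.trans (union_comm _ _)) hi' k2 k1]
    exact h
  · rw [pthm_eq (pthm_J' h) (hu.trans (union_comm _ _)) hi k2 k1, pthm_eq (pthm_J h) hu' hi' k1 k2]
    exact h.symm
  · exact absurd (pthm_both hu' hi' k1 k2) n1

theorem thm11 (hn : 2 ≤ n) (h1 : Len i B₁ D₁ D J) (h2 : Len i B₂ D₂ D J) (hi : D₁ ∩ D₂ = J)
    (hO : IsOpen O) (s1 : B₁ ⊆ O) (s2 : B₂ ⊆ O) :
    ∃ Φ, Mv O Φ ∧ (∀ x ∈ J, Φ x = x) ∧ ((Φ '' D = D₁ ∧ ∀ x ∈ D₂, Φ x = x) ∨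
      (Φ '' D = D₂ ∧ ∀ x ∈ D₁, Φ x = x)) := by
  rcases pthm_dich hn h1 h2 hi with k | k
  · obtain ⟨Φ, p1, p2, p3, p4⟩ := push h1.symm h2.poly k hO s1
    exact ⟨Φ, p1, p4, Or.inl ⟨p2, p3⟩⟩
  · obtain ⟨Φ, p1, p2, p3, p4⟩ := push h2.symm h1.poly k hO s2
    exact ⟨Φ, p1, p4, Or.inr ⟨p2, p3⟩⟩

theorem thm11_len (hn : 2 ≤ n) (h1 : Len i B₁ D₁ D J) (h2 : Len i B₂ D₂ D J)
    (hi : D₁ ∩ D₂ = J) : ∃ B, Len i B D₁ D₂ J := by
  obtain ⟨Φ, p1, p2, ⟨p3, p4⟩ | ⟨p3, p4⟩⟩ :=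
    thm11 hn h1 h2 hi isOpen_univ (subset_univ _) (subset_univ _)
  · have := h2.image p1.1
    rw [pthm_fix p4, p3, pthm_fix p2] at this
    exact ⟨_, this.symm⟩
  · have := h1.image p1.1
    rw [pthm_fix p4, p3, pthm_fix p2] at this
    exact ⟨_, this⟩

theorem glue (hn : 2 ≤ n) (h1 : Len i B₁ D₁ D J) (h2 : Len i B₂ D₂ D J) (hi : B₁ ∩ B₂ = D) :
    Len i (B₁ ∪ B₂) D₁ D₂ J := by
  have hJ : D₁ ∩ D₂ = J := by
    refine Subset.antisymm (fun x hx => ?_) (subset_inter (pthm_J h1) (pthm_J h2))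
    exact pthm_mem h1.inter hx.1 (pthm_mem hi (pthm_B h1 hx.1) (pthm_B h2 hx.2))
  obtain ⟨B, h⟩ := thm11_len hn h1 h2 hJ
  have hint : ∀ x ∈ D, x ∉ J → x ∈ interior (B₁ ∪ B₂) := by
    intro x hx hxJ
    have hN : D₂ᶜ ∈ 𝓝 x := h2.poly.1.isClosed.isOpen_compl.mem_nhds
      fun k => hxJ (pthm_mem h2.inter k hx)
    obtain ⟨N, o, xN, sN, -, cN⟩ := h1.ball.loc (Or.inr hx) hN
    have hd : Disjoint (N \ B₁) (D₂ ∪ D) := disjoint_left.2 fun y hy k => by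
      rcases k with k | k
      · exact sN hy.1 k
      · exact hy.2 (pthm_B' h1 k)
    rcases h2.ball.side cN hd with k | k
    · refine mem_interior.2 ⟨N, fun y hy => ?_, o, xN⟩
      by_cases hy1 : y ∈ B₁
      · exact Or.inl hy1
      · exact Or.inr (k ⟨hy, hy1⟩).1
    · have hc : x ∈ closure (B₂ \ (D₂ ∪ D)) := by
        rw [h2.ball.closure_in]
        exact pthm_B' h2 hx
      obtain ⟨y, hy1, hy2⟩ := mem_closure_iff.1 hc N o xN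
      exact (disjoint_left.1 k ⟨hy1, fun k' => hy2.2 (Or.inr (pthm_mem hi k' hy2.1))⟩ hy2.1).elim
  have e : B₁ ∪ B₂ = B := by
    refine h.ball.eq_of_frontier hn (h1.ball.poly.1.union h2.ball.poly.1) (fun x hx => ?_) ?_
    · have hD : x ∈ D → x ∈ D₁ ∪ D₂ := fun k => by
        by_contra k'
        exact hx.2 (hint x k fun kJ => k' (Or.inl (pthm_J h1 kJ)))
      rcases frontier_union_subset B₁ B₂ hx with k | k
      · have k1 := k.1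
        rw [h1.ball.frontier_eq] at k1
        exact k1.elim Or.inl hD
      · have k1 := k.2
        rw [h2.ball.frontier_eq] at k1
        exact k1.elim Or.inr hD
    · exact (h1.ball.interior_eq ▸ h1.ball.ne).mono (interior_mono subset_union_left)
  rw [e]
  exact h

theorem theta (hn : 2 ≤ n) {B₁₂ B₁₃ B₂₃ : Set (Rn n)} (h12 : Len i B₁₂ D₁ D₂ J)
    (h13 : Len i B₁₃ D₁ D₃ J) (h23 : Len i B₂₃ D₂ D₃ J) :
    D₃ ⊆ B₁₂ ∨ D₂ ⊆ B₁₃ ∨ D₁ ⊆ B₂₃ := by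
  rcases pthm_side h12.symm h13.symm h23.inter with k1 | k1
  · exact Or.inl (pthm_sub h12.symm k1)
  rcases pthm_side h13.symm h12.symm h23.symm.inter with k2 | k2
  · exact Or.inr (Or.inl (pthm_sub h13.symm k2))
  have h := glue hn h12.symm h13.symm (pthm_inter h12.symm h13.symm k1 k2)
  rw [h23.ball.uniq hn h.ball]
  exact Or.inr (Or.inr ((pthm_B h12).trans subset_union_left))

theorem cut_core (hn : 2 ≤ n) (h : Len i B D₁ D₂ J) (h1 : Len i B₁ D₁ D J)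
    (h2 : Len i B₂ D₂ D J) (hD : D ⊆ B) : B₁ ∩ B₂ = D ∧ B₁ ∪ B₂ = B := by
  have key : ∀ {B₁ B₂ D₁ D₂ : Set (Rn n)}, Len i B D₁ D₂ J → Len i B₁ D₁ D J → Len i B₂ D₂ D J →
      D₂ ∩ B₁ ⊆ J := by
    intro B₁ B₂ D₁ D₂ h h1 h2
    refine (pthm_side h1 h2 h.inter).resolve_left fun k => ?_
    have e : B₁ ⊆ B := h.ball.mono hn h1.ball (union_subset (pthm_B h) hD)
    obtain ⟨x, hx⟩ := h2.ne
    have e2 : x ∈ interior B := interior_mono e (h1.ball.interior_eq ▸ k hx)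
    rw [h.ball.interior_eq] at e2
    exact e2.2 (Or.inr hx.1)
  have e := pthm_inter h1 h2 (key h h1 h2) (key h.symm h2 h1)
  exact ⟨e, (glue hn h1 h2 e).ball.uniq hn h.ball⟩

end BEp
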