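import Pool.Agent.Work.MP_f0515e_an.D3.AGen

/-! Replacing the cone at a vertex by one side of its link in a small cube.
`len_cone`: `g x = r⁻¹ • (Φ x - v)` maps `{oN 2 = 1}` bijectively to the unit sphere, `fill_cone`, image of `len_half` under `v + r • K x`.
`iv_cube`: coordinates `j ≠ 2` either stay strictly inside or do not move; the coordinate `2` stays inside, or is decided by the half ball.
`box_step`: `push` with `W = S \ ball v r`; the image is `W ∪ E₁`. At points of the sphere off `S` the germ is that of the sphere (`u = e₂`);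
at points of `S` use `u` of `GV`; a segment in the sphere off `S` lies in `E₁` or in `E₂`. -/

open Set Metric Filter Topology Function BEv
open scoped NNReal

noncomputable section
namespace BEp

theorem len_cone {v : Rn 3} {r : ℝ} (hr : 0 < r) {E₁ E₂ c : Set (Rn 3)}
    (h : Len 2 (closedBall v r) E₁ E₂ c) : ∃ B ⊆ closedBall v r,
      Len 2 B E₁ {y | ∃ z ∈ c, ∃ s ∈ Icc (0 : ℝ) 1, y = v + s • (z - v)} c := by
  have hs : E₁ ∪ E₂ = sphere v r := h.ball.frontier_eq.symm.trans (ball_round v hr).frontier_eq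
  obtain ⟨Φ, q1, -, rfl, rfl, rfl⟩ := h
  have e : {x : Rn 3 | oN 2 x = 1} = capU 2 ∪ capL 2 := Set.ext fun y =>
    ⟨fun k => (le_total 0 (y 2)).imp (fun a => ⟨k, a⟩) fun a => ⟨k, a⟩,
      fun k => k.elim And.left And.left⟩
  rw [← image_union, ← e] at hs
  have nrm : ∀ y : Rn 3, ‖r⁻¹ • (y - v)‖ = 1 ↔ y ∈ sphere v r := fun y => by
    rw [norm_smul, Real.norm_of_nonneg (inv_pos.2 hr).le, mem_sphere_iff_norm,
      inv_mul_eq_one₀ hr.ne', eq_comm]
  obtain ⟨K, k1, k2, k3⟩ := fill_cone (gauge_oN 2) gauge_norm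
    (g := fun x => r⁻¹ • (Φ x - v)) ((q1.tp.sub (TP.const v)).const_smul _) (by
      refine ⟨fun x hx => (nrm _).2 (hs ▸ mem_image_of_mem Φ hx), fun x _ y _ k => ?_,
        fun y hy => ?_⟩
      · exact q1.inj (sub_left_injective (smul_right_injective _ (inv_pos.2 hr).ne' k))
      · have : v + r • y ∈ sphere v r := by
          rw [← nrm, add_sub_cancel_left, inv_smul_smul₀ hr.ne']
          exact hy
        obtain ⟨x, hx, k⟩ := hs ▸ this
        exact ⟨x, hx, by simp only [k, add_sub_cancel_left, inv_smul_smul₀ hr.ne']⟩)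
  have lΘ := (lh_hom v hr.ne').comp k1
  have a1 : ∀ x, oN 2 x = 1 → ∀ t : ℝ, 0 ≤ t → v + r • K (t • x) = v + t • (Φ x - v) :=
    fun x hx t ht => by rw [k3 x hx t ht, smul_comm, smul_inv_smul₀ hr.ne']
  have a2 : ∀ x, oN 2 x = 1 → v + r • K x = Φ x := fun x hx => by
    have := a1 x hx 1 zero_le_one
    rwa [one_smul, one_smul, add_sub_cancel] at this
  have hon : ∀ x ∈ eqt (2 : Fin 3), oN 2 x = 1 := fun x hx => by
    have : hz 2 x = x := by rw [hz, ← hx.2, update_eq_self]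
    rw [oN, this, hx.1, hx.2, abs_zero, add_zero]
  have := (len_half 2).image lΘ
  refine ⟨_, ?_, by
    convert this using 1
    · exact image_congr fun x hx => (a2 x hx.1).symm
    · ext y
      constructor
      · rintro ⟨_, ⟨x, hx, rfl⟩, s, hs, rfl⟩
        refine ⟨s • x, ⟨?_, by simp [hx.2]⟩, a1 x (hon x hx) s hs.1⟩
        rw [norm_smul, hx.1, mul_one, Real.norm_of_nonneg hs.1]
        exact hs.2
      · rintro ⟨w, hw, rfl⟩
        obtain ⟨x, hx, k⟩ : ∃ x ∈ eqt (2 : Fin 3), w = ‖w‖ • x := by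
          by_cases h0 : w = 0
          · refine ⟨Pi.single 0 1, ⟨by simp [Pi.norm_single], by simp⟩, by simp [h0]⟩
          · have := norm_ne_zero_iff.2 h0
            refine ⟨‖w‖⁻¹ • w, ⟨?_, by simp [hw.2]⟩, (smul_inv_smul₀ this w).symm⟩
            rw [norm_smul, norm_inv, norm_norm, inv_mul_cancel₀ this]
        refine ⟨_, mem_image_of_mem Φ hx, ‖w‖, ⟨norm_nonneg _, hw.1⟩, ?_⟩
        rw [← a1 x (hon x hx) _ (norm_nonneg _), ← k]
        rfl
    · exact image_congr fun x hx => (a2 x (hon x hx)).symm⟩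
  rintro _ ⟨x, hx, rfl⟩
  rw [mem_closedBall_iff_norm, comp_apply, add_sub_cancel_left, norm_smul,
    Real.norm_of_nonneg hr.le, k2]
  exact mul_le_of_le_one_right hr.le hx.1

theorem iv_cube {v x u : Rn 3} {r ε : ℝ} (hε : ε = 1 ∨ ε = -1) (hx : ‖x - v‖ = r)
    (hu : ∀ j, j ≠ 2 → |x j - v j| = r → u j = 0) : ∃ ρ > 0, ∀ y ∈ hb ε x ρ, ∀ s : ℝ,
      y + s • u ∈ hb ε x ρ → (‖y - v‖ < r → ‖y + s • u - v‖ < r) ∧
        (‖y - v‖ ≤ r → ‖y + s • u - v‖ ≤ r) := by
  have le : ∀ (y : Rn 3) j, |y j - v j| ≤ ‖y - v‖ := fun y j => norm_le_pi_norm (y - v) j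
  have e1 : ∀ᶠ y in 𝓝 x, (∀ j, |x j - v j| < r → |y j - v j| < r) ∧
      (ε * (x 2 - v 2) < r → ε * (y 2 - v 2) < r) := by
    refine (eventually_all.2 fun j => ?_).and ?_
    · by_cases k : |x j - v j| < r
      · exact (ContinuousAt.eventually_lt (f := fun y : Rn 3 => |y j - v j|)
          ((continuous_apply j).sub continuous_const).abs.continuousAt
          continuousAt_const k).mono fun _ a _ => a
      · exact Eventually.of_forall fun _ a => absurd a k
    · by_cases k : ε * (x 2 - v 2) < r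
      · exact (ContinuousAt.eventually_lt (f := fun y : Rn 3 => ε * (y 2 - v 2))
          (continuous_const.mul ((continuous_apply 2).sub continuous_const)).continuousAt
          continuousAt_const k).mono fun _ a _ => a
      · exact Eventually.of_forall fun _ a => absurd a k
  obtain ⟨ρ, hρ, k⟩ := Metric.eventually_nhds_iff_ball.1 e1
  refine ⟨ρ, hρ, fun y hy s hs => ?_⟩
  have key : ∀ j, ‖y - v‖ ≤ r → |(y + s • u) j - v j| < r ∨ (y + s • u) j = y j := fun j hyr => by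
    rcases (hx ▸ le x j).lt_or_eq with a | a
    · exact Or.inl ((k _ hs.1).1 j a)
    by_cases hj : j = 2
    · subst hj
      have b1 := hy.2
      have b2 := hs.2
      have b3 := abs_le.1 ((le y 2).trans hyr)
      have b4 := (k _ hs.1).2
      have b5 := abs_le.1 a.le
      left
      rw [abs_lt]
      rcases hε with rfl | rfl <;> rcases eq_or_eq_neg_of_abs_eq a with c | c
      · linarith [b3.2]
      · have := b4 (by linarith [b3.2])
        constructor <;> linarith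
      · have := b4 (by linarith [b3.1])
        constructor <;> linarith
      · linarith [b3.1]
    · exact Or.inr (by simp [hu j hj a])
  refine ⟨fun a => (pi_norm_lt_iff ((norm_nonneg _).trans_lt a)).2 fun j => ?_,
    fun a => (pi_norm_le_iff_of_nonneg ((norm_nonneg _).trans a)).2 fun j => ?_⟩
  · rcases key j a.le with b | b
    · exact b
    · rw [Pi.sub_apply, b]
      exact (le y j).trans_lt a
  · rcases key j a with b | b
    · exact b.le
    · rw [Pi.sub_apply, b]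
      exact (le y j).trans a

theorem convex_hb (ε : ℝ) (x : Rn 3) (ρ : ℝ) : Convex ℝ (hb ε x ρ) := by
  intro y hy z hz a b ha hb hab
  refine ⟨convex_ball x ρ hy.1 hz.1 ha hb hab, ?_⟩
  have e : ε * ((a • y + b • z) 2 - x 2) = a * (ε * (y 2 - x 2)) + b * (ε * (z 2 - x 2)) := by
    simp only [Pi.add_apply, Pi.smul_apply, smul_eq_mul]
    linear_combination (ε * x 2) * hab
  rw [e]
  rcases ha.eq_or_lt with rfl | ha
  · rw [zero_add] at hab
    rw [hab, zero_mul, zero_add, one_mul]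
    exact hz.2
  · exact add_pos_of_pos_of_nonneg (mul_pos ha hy.2) (mul_nonneg hb hz.2.le)

theorem box_ud {S E₁ E₂ : Set (Rn 3)} {v x u : Rn 3} {r ρ : ℝ} (c1 : IsClosed E₁)
    (c2 : IsClosed E₂) (hs : E₁ ∪ E₂ = sphere v r) (hi : E₁ ∩ E₂ ⊆ S) (hx : ‖x - v‖ = r)
    (h2 : u 2 = 1) (hρ : 0 < ρ) (hv : Iv S (ball x ρ) u)
    (hu : ∀ j, j ≠ 2 → |x j - v j| = r → u j = 0) : UD ((S \ ball v r) ∪ E₁) x := by
  intro ε hε
  obtain ⟨ρ', hρ', k⟩ := iv_cube hε hx hu
  have m1 := hb_mono ε x (min_le_right ρ ρ')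
  have m2 : hb ε x (min ρ ρ') ⊆ ball x ρ := fun y hy => ball_subset_ball (min_le_left _ _) hy.1
  have back : ∀ (y : Rn 3) (s : ℝ), y + s • u + (-s) • u = y := fun y s => by simp
  have out : ∀ y ∈ hb ε x (min ρ ρ'), ∀ s : ℝ, y + s • u ∈ hb ε x (min ρ ρ') → y ∉ ball v r →
      y + s • u ∉ ball v r := fun y hy s hs a b => by
    have := (k _ (m1 hs) (-s) (by rw [back]; exact m1 hy)).1 (mem_ball_iff_norm.1 b)
    rw [back] at this
    exact a (mem_ball_iff_norm.2 this)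
  refine ⟨u, min ρ ρ', h2, lt_min hρ hρ', fun y hy s hs' a => ?_⟩
  by_cases hS : y ∈ S \ ball v r
  · exact Or.inl ⟨hv y (m2 hy) s (m2 hs') hS.1, out y hy s hs' hS.2⟩
  have a1 := a.resolve_left hS
  have a2 : y ∈ sphere v r := hs ▸ Or.inl a1
  have a3 : y ∉ ball v r := fun b => (mem_ball.1 b).ne a2
  have a4 : y ∉ S := fun b => hS ⟨b, a3⟩
  have seg : ∀ t ∈ Icc (0 : ℝ) 1, y + (t * s) • u ∈ hb ε x (min ρ ρ') := fun t ht => by
    rw [mul_smul]
    exact (convex_hb ε x _).add_smul_mem hy hs' ht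
  have pc : IsPreconnected ((fun t : ℝ => y + (t * s) • u) '' Icc 0 1) :=
    isPreconnected_Icc.image _ (by fun_prop)
  rcases isPreconnected_iff_subset_of_disjoint_closed.1 pc E₁ E₂ c1 c2 (by
    rintro _ ⟨t, ht, rfl⟩
    rw [hs, mem_sphere_iff_norm]
    exact le_antisymm ((k y (m1 hy) _ (m1 (seg t ht))).2 (mem_sphere_iff_norm.1 a2).le)
      (not_lt.1 fun b => out y hy _ (seg t ht) a3 (mem_ball_iff_norm.2 b))) (by
    refine eq_empty_of_forall_notMem ?_
    rintro _ ⟨⟨t, ht, rfl⟩, b⟩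
    have := hv _ (m2 (seg t ht)) (-(t * s)) (by rw [back]; exact m2 hy) (hi b)
    rw [back] at this
    exact a4 this) with b | b
  · exact Or.inr (b ⟨1, right_mem_Icc.2 zero_le_one, by simp⟩)
  · exact absurd (hi ⟨a1, b ⟨0, left_mem_Icc.2 zero_le_one, by simp⟩⟩) a4

theorem box_step {S : Set (Rn 3)} (hS : Surf S) {v : Rn 3} (hv : v ∈ S) (hg : GV S v) {ρ : ℝ}
    (hρ : 0 < ρ) : ∃ (Φ : Rn 3 → Rn 3) (r : ℝ), LH Φ ∧ 0 < r ∧ r < ρ ∧
      (∀ y, y ∉ closedBall v r → (y ∈ S ↔ y ∈ Φ '' S)) ∧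
      ∀ x ∈ Φ '' S, x ∈ closedBall v r → UD (Φ '' S) x := by
  obtain ⟨ρ1, p1, k1⟩ := hS.crc_sphere hv
  obtain ⟨ρ2, p2, k2⟩ := hS.poly.tc_iff v
  obtain ⟨ρ3, p3, k3⟩ := Metric.eventually_nhds_iff_ball.1 (eventually_nhdsWithin_iff.1 hg)
  obtain ⟨r, hr, r0, r1, r2, r3⟩ : ∃ r, 0 < r ∧ r < ρ ∧ r ≤ ρ1 ∧ r ≤ ρ2 ∧ r < ρ3 := by
    have := lt_min (lt_min hρ p1) (lt_min p2 p3)
    have a := min_le_left (min ρ ρ1) (min ρ2 ρ3)
    have b := min_le_right (min ρ ρ1) (min ρ2 ρ3)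
    refine ⟨min (min ρ ρ1) (min ρ2 ρ3) / 2, by linarith, ?_, ?_, ?_, ?_⟩ <;>
      linarith [min_le_left ρ ρ1, min_le_right ρ ρ1, min_le_left ρ2 ρ3, min_le_right ρ2 ρ3]
  have hc := k1 r hr r1
  obtain ⟨E₁, E₂, l1, l2⟩ := sph_len (ball_round v hr) hc inter_subset_right
  obtain ⟨B, b1, b2⟩ := len_cone hr l1
  have cone : ∀ z ∈ sphere v r, ∀ s ∈ Ioc (0 : ℝ) 1, v + s • (z - v) ∈ S ↔ z ∈ S :=
    fun z hz s hs => by
      have a := mem_sphere_iff_norm.1 hz
      rw [k2 _ (by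
        rw [norm_smul, a, Real.norm_of_nonneg hs.1.le]
        exact (mul_le_of_le_one_left hr.le hs.2).trans r2), tc_smul hs.1, ← k2 _ (a.trans_le r2),
        add_sub_cancel]
  have e : {y | ∃ z ∈ S ∩ sphere v r, ∃ s ∈ Icc (0 : ℝ) 1, y = v + s • (z - v)} ∪ S \ ball v r =
      S := by
    refine Subset.antisymm (union_subset ?_ sdiff_subset) fun y hy => ?_
    · rintro _ ⟨z, hz, s, hs, rfl⟩
      rcases hs.1.eq_or_lt with rfl | a
      · simpa using hv
      · exact (cone z hz.2 s ⟨a, hs.2⟩).2 hz.1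
    · by_cases a : y ∈ ball v r
      · left
        by_cases a0 : y = v
        · obtain ⟨z, hz⟩ := hc.tcrc.conn.nonempty
          exact ⟨z, hz, 0, left_mem_Icc.2 zero_le_one, by simp [a0]⟩
        · have n0 := norm_pos_iff.2 (sub_ne_zero.2 a0)
          have n1 := mem_ball_iff_norm.1 a
          have hz : v + (r / ‖y - v‖) • (y - v) ∈ sphere v r := by
            rw [mem_sphere_iff_norm, add_sub_cancel_left, norm_smul,
              Real.norm_of_nonneg (by positivity), div_mul_cancel₀ _ n0.ne']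
          have hs : ‖y - v‖ / r ∈ Ioc (0 : ℝ) 1 := ⟨by positivity, (div_le_one hr).2 n1.le⟩
          have ey : y = v + (‖y - v‖ / r) • (v + (r / ‖y - v‖) • (y - v) - v) := by
            rw [add_sub_cancel_left, smul_smul, div_mul_div_cancel₀ hr.ne', div_self n0.ne',
              one_smul, add_sub_cancel]
          exact ⟨_, ⟨(cone _ hz _ hs).1 (ey ▸ hy), hz⟩, _, ⟨hs.1.le, hs.2⟩, ey⟩
      · exact Or.inr ⟨hy, a⟩
  have pW : Poly (S \ ball v r) := by
    convert poly_le hS.poly ((TP.const r).sub (TP.id'.sub (TP.const v)).norm_pi) using 1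
    ext y
    simp only [Set.mem_sdiff, mem_ball_iff_norm, not_lt, mem_ofPred_eq, sub_nonpos]
  obtain ⟨Φ, f1, f2, f3, -⟩ := push b2.symm pW (fun y hy => ⟨hy.1.1,
    le_antisymm (b1 hy.2) (not_lt.1 hy.1.2)⟩) isOpen_univ (subset_univ _)
  have e2 : Φ '' S = S \ ball v r ∪ E₁ := by
    conv_lhs => rw [← e, image_union, f2, union_comm]
    rw [image_congr f3, image_id']
  have s1 : E₁ ⊆ sphere v r := l2 ▸ subset_union_left
  refine ⟨Φ, r, f1.1, hr, r0, fun y hy => ?_, fun x hx hx' => ?_⟩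
  · rw [e2]
    exact ⟨fun a => Or.inl ⟨a, fun b => hy (ball_subset_closedBall b)⟩,
      fun a => a.elim And.left fun b => absurd (sphere_subset_closedBall (s1 b)) hy⟩
  · rw [e2] at hx ⊢
    have xr : ‖x - v‖ = r := mem_sphere_iff_norm.1
      (hx.elim (fun a => le_antisymm hx' (not_lt.1 a.2)) fun a => s1 a)
    have hi : E₁ ∩ E₂ ⊆ S := l1.inter ▸ inter_subset_left
    by_cases xS : x ∈ S
    · obtain ⟨u, ρ', a1, a2, a3, a4⟩ := k3 x (mem_ball_iff_norm.2 (xr.trans_lt r3))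
        (fun a => hr.ne (by rw [← xr, mem_singleton_iff.1 a, sub_self, norm_zero])) xS
      exact box_ud l1.poly.1.isClosed l1.symm.poly.1.isClosed l2 hi xr a1 a2 a3 (xr ▸ a4)
    · obtain ⟨ρ', a2, a3⟩ := Metric.isOpen_iff.1 hS.poly.1.isClosed.isOpen_compl x xS
      exact box_ud (u := Pi.single 2 1) l1.poly.1.isClosed l1.symm.poly.1.isClosed l2 hi xr
        (by simp) a2 (fun y hy _ _ b => absurd b (a3 hy)) fun j hj _ => by simp [hj]

theorem terr_ind {V : Set (Rn 3)} (hV : V.Finite) : ∀ S : Set (Rn 3), Surf S →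
    (∀ x ∈ S, x ∉ V → UD S x) → (∀ x ∈ S, x ∈ V → GV S x) →
      ∃ Φ : Rn 3 → Rn 3, LH Φ ∧ ∀ x ∈ Φ '' S, UD (Φ '' S) x := by
  induction V, hV using Set.Finite.induction_on with
  | empty => exact fun S _ h _ => ⟨id, LH.id', by simpa using h⟩
  | @insert v V hv hV ih =>
    intro S hS h1 h2
    by_cases vS : v ∈ S
    · obtain ⟨ρ, hρ, k⟩ := Metric.isOpen_iff.1 hV.isClosed.isOpen_compl v hv
      obtain ⟨Φ, r, f1, r0, r1, f2, f3⟩ := box_step hS vS (h2 v vS (mem_insert _ _)) hρ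
      have ev : ∀ x, x ∉ closedBall v r → ∀ᶠ y in 𝓝 x, y ∈ S ↔ y ∈ Φ '' S := fun x hx =>
        Filter.mem_of_superset (isClosed_closedBall.isOpen_compl.mem_nhds hx) f2
      obtain ⟨Ψ, g1, g2⟩ := ih _ (hS.image f1.tp f1.inj.injOn) (fun x hx xV => by
        by_cases a : x ∈ closedBall v r
        · exact f3 x hx a
        · refine (h1 x ((f2 x a).2 hx) ?_).congr (ev x a)
          rintro (rfl | b)
          exacts [a (mem_closedBall_self r0.le), xV b]) fun x hx xV => by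
        have a : x ∉ closedBall v r := fun b => k (closedBall_subset_ball r1 b) xV
        exact (h2 x ((f2 x a).2 hx) (mem_insert_of_mem _ xV)).congr (ev x a)
      exact ⟨Ψ ∘ Φ, g1.comp f1, by rwa [image_comp]⟩
    · exact ih S hS (fun x hx a => h1 x hx fun b => b.elim (fun c => vS (c ▸ hx)) a)
        fun x hx a => h2 x hx (mem_insert_of_mem _ a)

theorem terr_exists {S : Set (Rn 3)} (hS : Surf S) :
    ∃ Φ : Rn 3 → Rn 3, LH Φ ∧ ∀ x ∈ Φ '' S, UD (Φ '' S) x := by
  obtain ⟨Φ, f1, V, hV, k⟩ := gen_coords hS.poly hS.pc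
  obtain ⟨Ψ, g1, g2⟩ := terr_ind hV _ (hS.image f1.tp f1.inj.injOn) (fun x hx => (k x hx).2)
    fun x hx _ => (k x hx).1
  exact ⟨Ψ ∘ Φ, g1.comp f1, by rwa [image_comp]⟩

end BEp
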