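import Pool.Agent.Work.MP_f0515e_an.D3.PMod1
import Pool.Agent.Work.MP_f0515e_an.D3.PGl

/-! Topology of balls and lenses. Everything is transported from the model by `LH.homeo`
(`Homeomorph.image_frontier`, `image_interior`, `image_closure`, `IsPreconnected.image`).
Model facts: `frontier_closedBall`, `interior_closedBall`, `closure_ball`; the complement of the closed ball is the
image of `sphere × (1,∞)` or of `{0}ᶜ` (`isConnected_compl_singleton_of_one_lt_rank`, `x ↦ (1 + 1/‖x‖) • x`);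
`capU i \ eqt i` is the image of the convex set `{‖y‖ < 1, y i = 0}` under `y ↦ update y i (1 - ‖y‖)`.
`Ball.side`: `IsPreconnected.subset_or_subset` with the open sets `interior B`, `Bᶜ`.
`Ball.sub_convex`: both rays of a line through `x ∈ B` meet `S` (`Ball.outside`).
`Ball.loc`: in the model a small ball `N` round `x`; `N \ closedBall` is a union of convex sets
`N ∩ {1 < ± y j}` (active `j`) which all contain `(1 + δ) • x`. About 300 lines. -/

open Set Metric Filter Topology Function BEv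
open scoped NNReal

noncomputable section
namespace BEp

variable {n m : ℕ}

variable {B S B' S' T D₁ D₂ J : Set (Rn n)} {i : Fin n}

theorem pball_homeo (h : Ball B S) :
    ∃ e : Rn n ≃ₜ Rn n, e '' closedBall 0 1 = B ∧ e '' sphere 0 1 = S ∧ e '' ball 0 1 = B \ S := by
  obtain ⟨Φ, h1, rfl, rfl⟩ := h
  obtain ⟨e, rfl, -⟩ := h1.homeo
  exact ⟨e, rfl, rfl, by rw [← image_sdiff e.injective, closedBall_sdiff_sphere]⟩

theorem pball_side {U : Set (Rn n)} (hU : IsClosed U) (hT : IsPreconnected T)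
    (hd : Disjoint T (frontier U)) : T ⊆ interior U ∨ T ⊆ Uᶜ :=
  hT.subset_or_subset isOpen_interior hU.isOpen_compl
    (disjoint_compl_right.mono_left interior_subset) fun _ hx => by_contra fun k =>
      disjoint_left.1 hd hx ⟨subset_closure (not_not.1 fun k' => k (Or.inr k')),
        fun k' => k (Or.inl k')⟩

theorem pball_rank (hn : 2 ≤ n) : 1 < Module.rank ℝ (Rn n) := by
  rw [rank_fin_fun]
  exact_mod_cast hn

theorem pball_unb (hn : 1 ≤ n) (hB : IsCompact B) : ¬ Bornology.IsBounded Bᶜ := fun k => by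
  have : Nonempty (Fin n) := ⟨⟨0, hn⟩⟩
  exact NormedSpace.unbounded_univ ℝ (Rn n) (union_compl_self B ▸ hB.isBounded.union k)

theorem Ball.poly (h : Ball B S) : Poly B := by
  obtain ⟨Φ, h1, rfl, -⟩ := h
  exact (Poly.closedBall 0 1).image h1.tp

theorem Ball.poly' (h : Ball B S) : Poly S := by
  obtain ⟨Φ, h1, -, rfl⟩ := h
  exact (poly_sphere 0 1).image h1.tp

theorem Ball.sub (h : Ball B S) : S ⊆ B := by
  obtain ⟨Φ, -, rfl, rfl⟩ := h
  exact image_mono sphere_subset_closedBall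

theorem Ball.frontier_eq (h : Ball B S) : frontier B = S := by
  obtain ⟨e, rfl, rfl, -⟩ := pball_homeo h
  rw [← e.image_frontier, frontier_closedBall _ one_ne_zero]

theorem Ball.interior_eq (h : Ball B S) : interior B = B \ S := by
  rw [← h.frontier_eq, self_sdiff_frontier]

theorem Ball.closure_in (h : Ball B S) : closure (B \ S) = B := by
  obtain ⟨e, h1, -, h2⟩ := pball_homeo h
  rw [← h2, ← e.image_closure, closure_ball _ one_ne_zero, h1]

theorem Ball.closure_out (h : Ball B S) : closure Bᶜ = Bᶜ ∪ S := by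
  rw [closure_compl, h.interior_eq, sdiff_eq, compl_inter, compl_compl]

theorem Ball.ne (h : Ball B S) : (B \ S).Nonempty := by
  obtain ⟨e, -, -, h2⟩ := pball_homeo h
  exact h2 ▸ (nonempty_ball.2 one_pos).image e

theorem Ball.conn_in (h : Ball B S) : IsPreconnected (B \ S) := by
  obtain ⟨e, -, -, h2⟩ := pball_homeo h
  exact h2 ▸ (convex_ball 0 1).isPreconnected.image e e.continuous.continuousOn

theorem Ball.conn_out (hn : 2 ≤ n) (h : Ball B S) : IsPreconnected Bᶜ := by
  obtain ⟨e, rfl, -⟩ := pball_homeo h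
  rw [← image_compl_eq e.bijective]
  refine IsPreconnected.image ?_ e e.continuous.continuousOn
  have h1 := (isPreconnected_Ioi (a := (1 : ℝ))).prod
    (isConnected_sphere (pball_rank hn) (0 : Rn n) zero_le_one).2
  convert h1.image (fun p => p.1 • p.2) (by fun_prop) using 1
  ext x
  simp only [mem_compl_iff, mem_closedBall_zero_iff, not_le]
  refine ⟨fun hx => ?_, ?_⟩
  · have h2 : ‖x‖ ≠ 0 := (one_pos.trans hx).ne'
    exact ⟨(‖x‖, ‖x‖⁻¹ • x), ⟨hx, by simp [norm_smul, h2]⟩, smul_inv_smul₀ h2 x⟩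
  · rintro ⟨p, ⟨h2, h3⟩, rfl⟩
    rw [norm_smul, mem_sphere_zero_iff_norm.1 h3, mul_one]
    exact lt_of_lt_of_le h2 (le_abs_self _)

theorem Ball.conn_bd (hn : 2 ≤ n) (h : Ball B S) : IsConnected S := by
  obtain ⟨e, -, rfl, -⟩ := pball_homeo h
  exact (isConnected_sphere (pball_rank hn) 0 zero_le_one).image e e.continuous.continuousOn

theorem Ball.side (h : Ball B S) (hT : IsPreconnected T) (hd : Disjoint T S) :
    T ⊆ B \ S ∨ Disjoint T B := by
  rw [← h.interior_eq, ← subset_compl_iff_disjoint_right]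
  exact pball_side h.poly.1.isClosed hT (h.frontier_eq.symm ▸ hd)

theorem Ball.outside (h : Ball B S) (hT : IsPreconnected T) (hu : ¬ Bornology.IsBounded T)
    (hd : Disjoint T S) : Disjoint T B :=
  (h.side hT hd).resolve_left fun k => hu (h.poly.1.isBounded.subset (k.trans sdiff_subset))

theorem Ball.mono (hn : 2 ≤ n) (h : Ball B S) (h' : Ball B' S') (hs : S' ⊆ B) : B' ⊆ B :=
  disjoint_compl_left_iff_subset.1 (h'.outside (h.conn_out hn)
    (pball_unb (one_le_two.trans hn) h.poly.1) (disjoint_compl_left_iff_subset.2 hs))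

theorem Ball.uniq (hn : 2 ≤ n) (h : Ball B S) (h' : Ball B' S) : B = B' :=
  (h'.mono hn h h'.sub).antisymm (h.mono hn h' h.sub)

theorem pball_ray (h : Ball B S) {x v : Rn n} (hx : x ∈ B) (hv : v ≠ 0) :
    ∃ t : ℝ, 0 ≤ t ∧ x + t • v ∈ S := by
  by_contra k
  refine disjoint_left.1 (h.outside (T := (fun t : ℝ => x + t • v) '' Ici 0)
    (isPreconnected_Ici.image _ (by fun_prop)) (fun hb => ?_)
    (disjoint_left.2 fun _ ⟨t, h1, h2⟩ h3 => k ⟨t, h1, mem_of_eq_of_mem h2 h3⟩)) ⟨0, self_mem_Ici, by simp⟩ hx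
  obtain ⟨C, h1, h2⟩ := hb.subset_ball_lt 0 x
  have h3 := norm_pos_iff.2 hv
  have h4 := h2 ⟨C / ‖v‖, (div_pos h1 h3).le, rfl⟩
  rw [mem_ball_iff_norm, add_sub_cancel_left, norm_smul, Real.norm_of_nonneg (div_pos h1 h3).le,
    div_mul_cancel₀ _ h3.ne'] at h4
  exact h4.false

theorem Ball.sub_convex (hn : 1 ≤ n) (h : Ball B S) {W : Set (Rn n)} (hW : Convex ℝ W)
    (hs : S ⊆ W) : B ⊆ W := by
  intro x hx
  have : Nonempty (Fin n) := ⟨⟨0, hn⟩⟩
  obtain ⟨s, h1, h2⟩ := pball_ray h hx (one_ne_zero (α := Rn n))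
  obtain ⟨t, h3, h4⟩ := pball_ray h hx (neg_ne_zero.2 (one_ne_zero (α := Rn n)))
  have h5 := (hW.affine_preimage (AffineMap.lineMap x (x + 1))).ordConnected.out (x := -t) (y := s)
    (by simpa [AffineMap.lineMap_apply, add_comm] using hs h4)
    (by simpa [AffineMap.lineMap_apply, add_comm] using hs h2) ⟨neg_nonpos.2 h3, h1⟩
  simpa using h5

theorem Ball.eq_of_frontier (hn : 2 ≤ n) (h : Ball B S) {U : Set (Rn n)} (hU : IsCompact U)
    (hf : frontier U ⊆ S) (hne : (interior U).Nonempty) : U = B := by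
  have h1 : U ⊆ B := compl_subset_compl.1 ((pball_side hU.isClosed (h.conn_out hn)
    (disjoint_compl_left_iff_subset.2 (hf.trans h.sub))).resolve_left fun k =>
      pball_unb (one_le_two.trans hn) h.poly.1 (hU.isBounded.subset (k.trans interior_subset)))
  refine h1.antisymm (h.closure_in.symm.subset.trans (closure_minimal ?_ hU.isClosed))
  rcases pball_side hU.isClosed h.conn_in (disjoint_sdiff_left.mono_right hf) with k | k
  · exact k.trans interior_subset
  · obtain ⟨x, hx⟩ := hne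
    exact (k (h.interior_eq.subset (interior_mono h1 hx)) (interior_subset hx)).elim

theorem Ball.loc (h : Ball B S) {x : Rn n} (hx : x ∈ S) {N : Set (Rn n)} (hN : N ∈ 𝓝 x) :
    ∃ N', IsOpen N' ∧ x ∈ N' ∧ N' ⊆ N ∧ IsPreconnected (N' ∩ (B \ S)) ∧
      IsPreconnected (N' \ B) := by
  obtain ⟨e, h1, rfl, h2⟩ := pball_homeo h
  obtain ⟨x, hx, rfl⟩ := hx
  rw [mem_sphere_zero_iff_norm] at hx
  have h3 : ∀ᶠ y in 𝓝 x, ∀ j, |x j| < 1 → |y j| < 1 := eventually_all.2 fun j =>
    eventually_imp_distrib_left.2 fun k =>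
      (continuous_apply j).abs.continuousAt.eventually (gt_mem_nhds k)
  obtain ⟨ε, ⟨h4, h5⟩, h6⟩ := (nhds_basis_ball.restrict (q := (· ≤ 1)) fun ε k =>
    ⟨min ε 1, lt_min k one_pos, min_le_right _ _, ball_subset_ball (min_le_left _ _)⟩).mem_iff.1
      (inter_mem (e.continuous.continuousAt.preimage_mem_nhds hN) h3)
  refine ⟨e '' ball x ε, e.isOpenMap _ isOpen_ball, mem_image_of_mem _ (mem_ball_self h4),
    image_subset_iff.2 fun y hy => (h6 hy).1, ?_, ?_⟩
  · rw [← h2, ← image_inter e.injective]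
    exact ((convex_ball _ _).inter (convex_ball _ _)).isPreconnected.image e
      e.continuous.continuousOn
  rw [← h1, ← image_sdiff e.injective]
  refine (isPreconnected_of_forall ((1 + ε / 2) • x) fun y hy => ?_).image e
    e.continuous.continuousOn
  obtain ⟨j, h7⟩ : ∃ j, 1 < |y j| := by
    simpa [pi_norm_le_iff_of_nonneg zero_le_one] using hy.2
  have h8 : |x j| = 1 := ((norm_le_pi_norm x j).trans hx.le).antisymm
    (not_lt.1 fun k => ((h6 hy.1).2 j k).not_gt h7)
  have h9 : |y j - x j| < 1 :=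
    ((norm_le_pi_norm (y - x) j).trans_lt (mem_ball_iff_norm.1 hy.1)).trans_le h5
  refine ⟨ball x ε ∩ {z | 1 < x j * z j}, fun z hz => ⟨hz.1, fun k => ?_⟩, ⟨?_, ?_⟩, ⟨hy.1, ?_⟩,
    ((convex_ball _ _).inter (convex_halfSpace_gt (f := fun z : Rn n => x j * z j)
      ⟨fun _ _ => mul_add .., fun c z => mul_smul_comm c _ (z j)⟩ _)).isPreconnected⟩
  · have h10 := (le_abs_self _).trans (abs_mul (x j) (z j)).le
    rw [h8, one_mul] at h10
    exact (h10.trans ((norm_le_pi_norm z j).trans (mem_closedBall_zero_iff.1 k))).not_gt hz.2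
  · rw [mem_ball_iff_norm, add_smul, one_smul, add_sub_cancel_left, norm_smul, hx, mul_one,
      Real.norm_of_nonneg (half_pos h4).le]
    exact half_lt_self h4
  · change 1 < x j * ((1 + ε / 2) * x j)
    rw [mul_left_comm, ← abs_mul_abs_self, h8]
    linarith
  · change 1 < x j * y j
    rcases (abs_eq zero_le_one).1 h8 with k | k <;> rw [k] at h9 ⊢ <;>
      rcases lt_abs.1 h7 with k' | k' <;> linarith [abs_lt.1 h9]

theorem pball_len (h : Len i B D₁ D₂ J) :
    ∃ G : Rn n → Rn n, Continuous G ∧ G '' closedBall 0 1 = D₁ ∧ G '' ball 0 1 = D₁ \ J := by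
  obtain ⟨Φ, h1, -, rfl, -, rfl⟩ := h
  have h2 : ∀ y : Rn n, ‖hz i y‖ ≤ ‖y‖ := fun y => norm_eq_hz i y ▸ le_max_left _ _
  have h3 : ∀ y : Rn n, ‖y‖ ≤ 1 → update y i (1 - ‖hz i y‖) ∈ capU i := fun y hy => by
    have := sub_nonneg.2 ((h2 y).trans hy)
    simp [capU, oN, hz, abs_of_nonneg, show 0 ≤ 1 - ‖update y i 0‖ from this]
  have h4 : ∀ x ∈ capU i, ‖hz i x‖ = 1 - x i ∧ update (hz i x) i (1 - ‖hz i (hz i x)‖) = x :=
    fun x hx => by
      have h5 : ‖hz i x‖ = 1 - x i := eq_sub_of_add_eq (abs_of_nonneg hx.2 ▸ hx.1)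
      exact ⟨h5, by rw [hz, hz, update_idem, update_idem, ← hz, h5, sub_sub_cancel, update_eq_self]⟩
  refine ⟨Φ ∘ fun y => update y i (1 - ‖hz i y‖), h1.tp.continuous.comp
    (continuous_id.update i (continuous_const.sub (tp_hz i).continuous.norm)), ?_, ?_⟩
  · rw [image_comp]
    refine congrArg _ (subset_antisymm (image_subset_iff.2 fun y hy =>
      h3 y (mem_closedBall_zero_iff.1 hy)) fun x hx => ⟨_, ?_, (h4 x hx).2⟩)
    rw [mem_closedBall_zero_iff, (h4 x hx).1]
    exact sub_le_self _ hx.2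
  · rw [image_comp, ← image_sdiff h1.inj]
    refine congrArg _ (subset_antisymm (image_subset_iff.2 fun y hy =>
      ⟨h3 y (mem_ball_zero_iff.1 hy).le, fun k => ?_⟩) fun x hx => ⟨_, ?_, (h4 x hx.1).2⟩)
    · have h5 := k.2
      simp only [update_self] at h5
      linarith [h2 y, mem_ball_zero_iff.1 hy]
    · rw [mem_ball_zero_iff, (h4 x hx.1).1]
      refine sub_lt_self _ (hx.1.2.lt_of_ne fun k => hx.2 ⟨?_, k.symm⟩)
      rw [norm_eq_hz i, (h4 x hx.1).1, ← k]
      simp

theorem Len.poly (h : Len i B D₁ D₂ J) : Poly D₁ := by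
  obtain ⟨Φ, h1, -, rfl, -⟩ := h
  have h2 := poly_le (poly_eq (Poly.closedBall (0 : Rn n) 1) (D := oN i)
    ((tp_hz i).norm_pi.add (TP.id'.apply i).abs) 1) (TP.id'.apply i).neg
  refine Poly.image ?_ h1.tp
  convert h2 using 1
  refine Set.ext fun x => ⟨fun k => ⟨⟨?_, k.1⟩, neg_nonpos.2 k.2⟩, fun k => ⟨k.1.2, neg_nonpos.1 k.2⟩⟩
  rw [mem_closedBall_zero_iff, norm_eq_hz i, ← k.1]
  exact max_le_add_of_nonneg (norm_nonneg _) (abs_nonneg _)

theorem Len.poly_eq (h : Len i B D₁ D₂ J) : Poly J := by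
  obtain ⟨Φ, h1, -, -, -, rfl⟩ := h
  refine Poly.image ?_ h1.tp
  simpa only [mem_sphere_zero_iff_norm, eqt] using
    BEp.poly_eq (poly_sphere (0 : Rn n) 1) (TP.id'.apply i) 0

theorem Len.conn (h : Len i B D₁ D₂ J) : IsPreconnected (D₁ \ J) := by
  obtain ⟨G, h1, -, h2⟩ := pball_len h
  exact h2 ▸ (convex_ball 0 1).isPreconnected.image G h1.continuousOn

theorem Len.conn' (h : Len i B D₁ D₂ J) : IsPreconnected D₁ := by
  obtain ⟨G, h1, rfl, -⟩ := pball_len h
  exact (convex_closedBall 0 1).isPreconnected.image G h1.continuousOn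

theorem Len.ne (h : Len i B D₁ D₂ J) : (D₁ \ J).Nonempty := by
  obtain ⟨G, -, -, h2⟩ := pball_len h
  exact h2 ▸ (nonempty_ball.2 one_pos).image G

theorem Len.cl (h : Len i B D₁ D₂ J) : closure (D₁ \ J) = D₁ := by
  obtain ⟨G, h1, h2, h3⟩ := pball_len h
  refine (closure_minimal sdiff_subset h.poly.1.isClosed).antisymm ?_
  rw [← h3, ← h2, ← closure_ball _ one_ne_zero]
  exact image_closure_subset_closure_image h1

end BEp
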