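import Pool.Agent.Work.MP_f0515e_an.D3.PTri

/-! Heights in `Rn 3`: products with the identity, slices, global cones.
`lp_cone`: gauge `r x = max |x 2| (‖pj3 x‖ / R)`, `d y = ψ y - y` is bounded by some `M` and vanishes for
`R ≤ ‖y‖`; `P x = x + mk3 (fun j => clamp (d (pj3 x) j) (M * max (x 2) 0)) 0` has `P 0 = 0`, is `up ψ` on
the top face of `{r = 1}` and the identity on the other faces; `Ψ` is the cone of `P` (`plc_tp`, `v = 0`,
`u = 1`). The same construction for `invFun ψ` (`Mv.inv`) is the inverse, `pa2_of_inv`. About 200 lines. -/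

open Set Metric Filter Topology Function BEv
open scoped NNReal

noncomputable section
namespace BEp

variable {n m : ℕ}

theorem tp_pj3 : TP pj3 :=
  TP.pi fun i => by
    fin_cases i
    exacts [TP.id'.apply 0, TP.id'.apply 1]

theorem _root_.BEv.TP.mk3 {E : Type} [NormedAddCommGroup E] [NormedSpace ℝ E] {f : E → Rn 2}
    {g : E → ℝ} (hf : TP f) (hg : TP g) : TP (fun x => mk3 (f x) (g x)) :=
  TP.pi fun i => by
    fin_cases i
    exacts [hf.apply 0, hf.apply 1, hg]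

theorem norm_mk3 (y : Rn 2) (t : ℝ) : ‖mk3 y t‖ = max ‖y‖ |t| := by
  refine le_antisymm ((pi_norm_le_iff_of_nonneg (by positivity)).2 fun i => ?_)
    (max_le ((pi_norm_le_iff_of_nonneg (norm_nonneg _)).2 fun i => ?_)
      (norm_le_pi_norm (mk3 y t) 2))
  · fin_cases i
    exacts [le_max_of_le_left (norm_le_pi_norm y 0), le_max_of_le_left (norm_le_pi_norm y 1),
      le_max_right _ _]
  · fin_cases i
    exacts [norm_le_pi_norm (mk3 y t) 0, norm_le_pi_norm (mk3 y t) 1]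

theorem norm_hz2 (x : Rn 3) : ‖hz 2 x‖ = ‖pj3 x‖ := by
  have e : hz 2 x = mk3 (pj3 x) 0 := by
    ext i
    fin_cases i <;> rfl
  rw [e, norm_mk3, abs_zero, max_eq_left (norm_nonneg _)]

theorem mk3_add (y z : Rn 2) (s t : ℝ) : mk3 (y + z) (s + t) = mk3 y s + mk3 z t := by
  ext i
  fin_cases i <;> rfl

theorem mk3_smul (a : ℝ) (y : Rn 2) (t : ℝ) : mk3 (a • y) (a * t) = a • mk3 y t := by
  ext i
  fin_cases i <;> rfl

theorem pj3_add (x y : Rn 3) : pj3 (x + y) = pj3 x + pj3 y := by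
  ext i
  fin_cases i <;> rfl

theorem pj3_sub (x y : Rn 3) : pj3 (x - y) = pj3 x - pj3 y := by
  ext i
  fin_cases i <;> rfl

theorem pj3_smul (a : ℝ) (x : Rn 3) : pj3 (a • x) = a • pj3 x := by
  ext i
  fin_cases i <;> rfl

theorem lay_eq (A : Set (Rn 2)) (t : ℝ) : lay A t = (fun y => mk3 y t) '' A := by
  ext x
  refine ⟨fun k => ⟨pj3 x, k.1, k.2 ▸ mk3_pj3 x⟩, ?_⟩
  rintro ⟨y, hy, rfl⟩
  exact ⟨by rwa [pj3_mk3], rfl⟩

theorem PUp_norm {x : Rn 3} (h : x 2 = 0) : ‖x‖ = ‖pj3 x‖ := by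
  conv_lhs => rw [← mk3_pj3 x, norm_mk3, h, abs_zero, max_eq_left (norm_nonneg _)]

theorem flat_eq : flat (2 : Fin 3) = lay (closedBall 0 1) 0 :=
  Set.ext fun x => and_congr_left fun k => by rw [mem_closedBall_zero_iff, PUp_norm k]

theorem eqt_eq : eqt (2 : Fin 3) = lay (sphere 0 1) 0 :=
  Set.ext fun x => and_congr_left fun k => by rw [mem_sphere_zero_iff_norm, PUp_norm k]

theorem lp_up {Φ : Rn 2 → Rn 2} (h : LH Φ) : LP (up Φ) := by
  refine ⟨pa2_of_inv (g := up (invFun Φ)) ((h.tp.comp tp_pj3).mk3 (TP.id'.apply 2))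
    ((h.tpi.comp tp_pj3).mk3 (TP.id'.apply 2)) (fun x => ?_) fun x => ?_, fun _ => rfl⟩
  · rw [up, up, pj3_mk3, mk3_2, h.li, mk3_pj3]
  · rw [up, up, pj3_mk3, mk3_2, h.ri, mk3_pj3]

theorem up_lay (Φ : Rn 2 → Rn 2) (A : Set (Rn 2)) (t : ℝ) : up Φ '' lay A t = lay (Φ '' A) t := by
  simp only [lay_eq, image_image, up, pj3_mk3, mk3_2]

theorem LP.comp {Φ Ψ : Rn 3 → Rn 3} (h : LP Φ) (k : LP Ψ) : LP (Φ ∘ Ψ) :=
  ⟨h.1.comp k.1, fun x => (h.2 _).trans (k.2 x)⟩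

theorem LP.inv {Φ : Rn 3 → Rn 3} (h : LP Φ) : LP (invFun Φ) :=
  ⟨h.1.inv, fun x => by rw [← h.2 (invFun Φ x), h.1.ri]⟩

theorem PUp_mk {Φ : Rn 3 → Rn 3} (h : LP Φ) (y : Rn 2) (t : ℝ) :
    mk3 (pj3 (Φ (mk3 y t))) t = Φ (mk3 y t) :=
  (congrArg _ (h.2 (mk3 y t)).symm).trans (mk3_pj3 _)

theorem LP.slice {Φ : Rn 3 → Rn 3} (h : LP Φ) (t : ℝ) : LH (fun y => pj3 (Φ (mk3 y t))) := by
  have k : TP fun y : Rn 2 => mk3 y t := TP.id'.mk3 (TP.const t)
  refine pa2_of_inv (g := fun y => pj3 (invFun Φ (mk3 y t))) (tp_pj3.comp (h.1.tp.comp k))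
    (tp_pj3.comp (h.1.tpi.comp k)) (fun y => ?_) fun y => ?_
  · simp only [PUp_mk h, h.1.li, pj3_mk3]
  · simp only [PUp_mk h.inv, h.1.ri, pj3_mk3]

theorem LP.lay {Φ : Rn 3 → Rn 3} (h : LP Φ) (A : Set (Rn 2)) (t : ℝ) :
    Φ '' lay A t = lay ((fun y => pj3 (Φ (mk3 y t))) '' A) t := by
  simp only [lay_eq, image_image, PUp_mk h]

/-- Horizontal part of the cone over `ψ`. -/
def PUpG (ψ : Rn 2 → Rn 2) (x : Rn 3) : Rn 2 :=
  if 0 < x 2 then x 2 • ψ ((x 2)⁻¹ • pj3 x) else pj3 x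

theorem PUp_inv {ψ χ : Rn 2 → Rn 2} (h : ∀ y, χ (ψ y) = y) (x : Rn 3) :
    mk3 (PUpG χ (mk3 (PUpG ψ x) (x 2))) (x 2) = x := by
  rw [PUpG, PUpG, mk3_2, pj3_mk3]
  split_ifs with k
  · rw [inv_smul_smul₀ k.ne', h, smul_inv_smul₀ k.ne', mk3_pj3]
  · exact mk3_pj3 x

theorem PUp_gauge {R : ℝ} (hR : 0 < R) : Gauge fun x : Rn 3 => max |x 2| (‖pj3 x‖ / R) := by
  refine ⟨(TP.id'.apply 2).abs.max (tp_pj3.norm_pi.div_const R), fun ξ t ht => ?_,
    min 1 R⁻¹, by positivity, fun ξ => ?_⟩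
  · rw [pj3_smul, norm_smul, Pi.smul_apply, smul_eq_mul, abs_mul, Real.norm_eq_abs,
      abs_of_nonneg ht, mul_max_of_nonneg _ _ ht, mul_div_assoc]
  · conv_lhs => rw [← mk3_pj3 ξ, norm_mk3, mul_max_of_nonneg _ _ (by positivity)]
    refine max_le (le_max_of_le_right ?_) (le_max_of_le_left ?_)
    · rw [div_eq_inv_mul]
      exact mul_le_mul_of_nonneg_right (min_le_right _ _) (norm_nonneg _)
    · exact mul_le_of_le_one_left (abs_nonneg _) (min_le_left _ _)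

theorem PUp_tp {ψ : Rn 2 → Rn 2} {R : ℝ} (hR : 0 < R) (h : Mv (ball 0 R) ψ) : TP (PUpG ψ) := by
  have hd : TP fun y => ψ y - y := h.1.tp.sub TP.id'
  have h0 : ∀ y, R ≤ ‖y‖ → ψ y = y := fun y k => h.2 y (by simpa using k)
  obtain ⟨M, hM⟩ := (isCompact_closedBall (0 : Rn 2) R).exists_bound_of_continuousOn
    hd.continuous.continuousOn
  have M0 : 0 ≤ M := (norm_nonneg _).trans (hM 0 (mem_closedBall_self hR.le))
  have hb : ∀ y j, |(ψ y - y) j| ≤ M := fun y j => by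
    rcases le_total R ‖y‖ with k | k
    · rwa [h0 y k, sub_self, Pi.zero_apply, abs_zero]
    · exact (norm_le_pi_norm (ψ y - y) j).trans (hM y (mem_closedBall_zero_iff.2 k))
  let Q : Rn 3 → Rn 2 := fun x j => clamp ((ψ (pj3 x) - pj3 x) j) (M * max (x 2) 0)
  have hQ : TP Q := TP.pi fun j => ((hd.comp tp_pj3).apply j).clamp
    (((TP.id'.apply 2).max (TP.const 0)).const_mul M)
  have q0 : ∀ x, x 2 ≤ 0 → Q x = 0 := fun x k => funext fun j => by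
    simp only [Q, max_eq_right k, mul_zero, clamp_zero, Pi.zero_apply]
  have q1 : ∀ x, x 2 = 1 → Q x = ψ (pj3 x) - pj3 x := fun x k => funext fun j =>
    clamp_eq_self (by rw [k, max_eq_left zero_le_one, mul_one]; exact hb _ j)
  have q2 : ∀ x, R ≤ ‖pj3 x‖ → Q x = 0 := fun x k => funext fun j => by
    simp only [Q, h0 _ k, sub_self, Pi.zero_apply]
    exact clamp_eq_self (by rw [abs_zero]; positivity)
  convert tp_pj3.add (plc_tp (v := 0) (PUp_gauge hR) hQ one_pos) using 2 with x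
  simp only [q0 0 le_rfl, sub_zero, zero_add, div_one, one_div, PUpG]
  split_ifs with k
  · rw [abs_of_pos k]
    rcases le_total (‖pj3 x‖ / R) (x 2) with l | l
    · rw [max_eq_left l, q1 _ (inv_mul_cancel₀ k.ne'), pj3_smul, smul_sub, smul_inv_smul₀ k.ne',
        add_sub_cancel]
    · have e : ∀ s : ℝ, 0 < s → s ≤ ‖pj3 x‖ / R → R ≤ ‖s⁻¹ • pj3 x‖ := fun s a b => by
        rw [norm_smul, norm_inv, Real.norm_eq_abs, abs_of_pos a, le_inv_mul_iff₀ a]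
        exact (le_div_iff₀ hR).1 b
      rw [max_eq_right l, q2 _ (by rw [pj3_smul]; exact e _ (k.trans_le l) le_rfl), h0 _ (e _ k l),
        smul_inv_smul₀ k.ne', smul_zero, add_zero]
  · rw [q0 _ (mul_nonpos_of_nonneg_of_nonpos (by positivity) (not_lt.1 k)), smul_zero, add_zero]

theorem lp_cone {ψ : Rn 2 → Rn 2} {R : ℝ} (hR : 0 < R) (h : Mv (ball 0 R) ψ) :
    ∃ Ψ, LP Ψ ∧ (∀ x, x 2 ≤ 0 → Ψ x = x) ∧
      ∀ y t, 0 < t → Ψ (mk3 (t • y) t) = mk3 (t • ψ y) t := by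
  refine ⟨fun x => mk3 (PUpG ψ x) (x 2), ⟨pa2_of_inv (g := fun x => mk3 (PUpG (invFun ψ) x) (x 2))
    ((PUp_tp hR h).mk3 (TP.id'.apply 2)) ((PUp_tp hR h.inv).mk3 (TP.id'.apply 2))
    (PUp_inv h.1.li) (PUp_inv h.1.ri), fun _ => rfl⟩, fun x k => ?_, fun y t k => ?_⟩
  · simp only [PUpG, if_neg (not_lt.2 k), mk3_pj3]
  · simp only [PUpG, mk3_2, if_pos k, pj3_mk3, inv_smul_smul₀ k.ne']

end BEp
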