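import Pool.Agent.Work.MP_f0515e_an.D3.PMod1
import Pool.Agent.Work.MP_f0515e_an.D3.PUp

/-! Models, part two.
`len_small`: first `c = e_i`, `r = 1/2`: image of `len_cube` under `Vt ∘ H`, `H x j = x j / 2 + clamp (x j) (s x) / 2`
(`j ≠ i`), `s x = max 0 (min 1 (1 - x i))` (the cube goes to `{|t| ≤ 1, ‖y‖ ≤ 1 - max t 0 / 2}`, the top face to the
half size square), `Vt` vertical: `t ↦ t + min (max (t + 1) 0) (1 - τ y)`, `τ y = max 0 (min 1 (2 (1 - ‖y‖)))`.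
Then the coordinatewise maps `g_j` (`j ≠ i`) increasing PL, fixing `±1`, affine from `[-1/2,1/2]` onto
`[c j - r, c j + r]` (`lh_tri`). `len_tri`: affine image of `len_half 1` (vertices `(0,1)`, `(-1,0)`, `(1,0)`).
`len_prism`: image of `(len_cube 2).symm` under `up Φ` composed with an affine change of the height.
About 300 lines. -/

open Set Metric Filter Topology Function BEv
open scoped NNReal

noncomputable section
namespace BEp

variable {n m : ℕ}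

theorem pm2_img {Θ : Rn n → Rn n} (k : LH Θ) {A B : Set (Rn n)} (h : ∀ x, Θ x ∈ B ↔ x ∈ A) :
    Θ '' A = B := by
  have e : A = Θ ⁻¹' B := Set.ext fun x => (h x).symm
  rw [e, image_preimage_eq _ k.1.2]

theorem pm2_len {i : Fin n} {B D₁ D₂ J B' D₁' D₂' J' : Set (Rn n)} (h : Len i B D₁ D₂ J)
    {Θ : Rn n → Rn n} (k : LH Θ) (h0 : ∀ x, Θ x ∈ B' ↔ x ∈ B) (h1 : ∀ x, Θ x ∈ D₁' ↔ x ∈ D₁)
    (h2 : ∀ x, Θ x ∈ D₂' ↔ x ∈ D₂) (h3 : ∀ x, Θ x ∈ J' ↔ x ∈ J) : Len i B' D₁' D₂' J' := by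
  have := h.image k
  rwa [pm2_img k h0, pm2_img k h1, pm2_img k h2, pm2_img k h3] at this

theorem pm2_diag {g : Fin n → ℝ → ℝ} (hg : ∀ j, TP (g j))
    (hm : ∀ j, ∃ c > 0, ∀ a b, b ≤ a → c * (a - b) ≤ g j a - g j b) :
    LH (fun (x : Rn n) j => g j (x j)) := by
  choose c hc hm using hm
  have h1 : ∀ᶠ e in 𝓝[>] (0 : ℝ), ∀ j, e ≤ c j := eventually_all.2 fun j =>
    (eventually_le_nhds (hc j)).filter_mono nhdsWithin_le_nhds
  have h2 : ∀ᶠ e in 𝓝[>] (0 : ℝ), 0 < e := self_mem_nhdsWithin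
  obtain ⟨e, h3, h4⟩ := (h1.and h2).exists
  refine lh_tri (TP.pi fun j => (hg j).comp (TP.id'.apply j)) univ h4
    (fun _ _ hj => absurd (mem_univ _) hj) fun x y _ j _ hj => ?_
  exact (mul_le_mul_of_nonneg_right (h3 j) (sub_nonneg.2 hj)).trans (hm j _ _ hj)

theorem pm2_le {x y : Rn n} {r r' : ℝ} (hr : 0 < r) (hr' : 0 < r')
    (h : ∀ j, |y j| ≤ r ↔ |x j| ≤ r') : ‖y‖ ≤ r ↔ ‖x‖ ≤ r' := by
  rw [pi_norm_le_iff_of_nonneg hr.le, pi_norm_le_iff_of_nonneg hr'.le]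
  exact forall_congr' h

theorem pm2_lt {x y : Rn n} {r r' : ℝ} (hr : 0 < r) (hr' : 0 < r')
    (h : ∀ j, |y j| < r ↔ |x j| < r') : ‖y‖ < r ↔ ‖x‖ < r' := by
  rw [pi_norm_lt_iff hr, pi_norm_lt_iff hr']
  exact forall_congr' h

theorem pm2_norm (i : Fin n) {x y : Rn n} {φ : ℝ → ℝ} (hφ : Monotone φ)
    (h : ∀ j, |y j| = φ |x j|) : ‖y‖ = φ ‖x‖ := by
  have : Nonempty (Fin n) := ⟨i⟩
  obtain ⟨j, hj⟩ := Finite.exists_max fun j => |x j|
  have h1 : ‖x‖ = |x j| :=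
    le_antisymm ((pi_norm_le_iff_of_nonneg (abs_nonneg _)).2 hj) (norm_le_pi_norm x j)
  rw [h1, ← h]
  refine le_antisymm ((pi_norm_le_iff_of_nonneg (abs_nonneg _)).2 fun k => ?_)
    (norm_le_pi_norm y j)
  rw [Real.norm_eq_abs, h, h]
  exact hφ (hj k)

theorem pm2_real {u t s w τ t' : ℝ} (hu : 0 ≤ u) (hs : s = max 0 (min 1 (1 - t)))
    (hw : w = u / 2 + min u s / 2) (hτ : τ = max 0 (min 1 (2 * (1 - w))))
    (ht : t' = t + min (max (t + 1) 0) (1 - τ)) :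
    (max w |t'| ≤ 1 ↔ max u |t| ≤ 1) ∧ (t' = 1 ∧ w ≤ 1 / 2 ↔ max u |t| = 1 ∧ t = 1) ∧
      (max w |t'| = 1 ∧ (t' ≠ 1 ∨ 1 / 2 ≤ w) ↔ max u |t| = 1 ∧ (t = -1 ∨ u = 1)) ∧
      (t' = 1 ∧ w = 1 / 2 ↔ t = 1 ∧ u = 1) := by
  have e1 : w ≤ 1 / 2 ↔ 2 * w ≤ 1 := ⟨fun _ => by linarith, fun _ => by linarith⟩
  have e2 : 1 / 2 ≤ w ↔ 1 ≤ 2 * w := ⟨fun _ => by linarith, fun _ => by linarith⟩
  have e3 : w = 1 / 2 ↔ 2 * w = 1 := ⟨fun _ => by linarith, fun _ => by linarith⟩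
  have e4 : 2 * w = u + min u s := by linarith
  clear hw
  rw [e1, e2, e3, abs_eq_max_neg, abs_eq_max_neg]
  clear e1 e2 e3
  refine ⟨?_, ?_, ?_, ?_⟩ <;> grind (splits := 40) only [max_def, min_def]

theorem pm2_abs (a : ℝ) {s : ℝ} (hs : 0 ≤ s) :
    |a / 2 + clamp a s / 2| = |a| / 2 + min |a| s / 2 := by
  have e : ∀ b : ℝ, 0 ≤ b → b / 2 + clamp b s / 2 = b / 2 + min b s / 2 ∧ 0 ≤ min b s :=
    fun b hb => by
      have h1 : 0 ≤ min b s := le_min hb hs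
      unfold clamp
      rw [max_eq_right (by linarith)]
      exact ⟨rfl, h1⟩
  rcases le_total 0 a with h | h
  · rw [(e a h).1, abs_of_nonneg h, abs_of_nonneg (by linarith [(e a h).2])]
  · have h1 : clamp a s = -min (-a) s := by
      unfold clamp
      rw [min_eq_left (h.trans hs), ← max_neg_neg, neg_neg, max_comm]
    have h2 := (e (-a) (neg_nonneg.2 h)).2
    rw [h1, abs_of_nonpos h, abs_of_nonpos (by linarith)]
    ring

theorem pm2_half (i : Fin n) :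
    Len i (closedBall 0 1) {x | x i = 1 ∧ ‖hz i x‖ ≤ 1 / 2}
      {x | ‖x‖ = 1 ∧ (x i ≠ 1 ∨ 1 / 2 ≤ ‖hz i x‖)} {x | x i = 1 ∧ ‖hz i x‖ = 1 / 2} := by
  obtain ⟨s, hs⟩ : ∃ s : Rn n → ℝ, s = fun x => max 0 (min 1 (1 - x i)) := ⟨_, rfl⟩
  have s0 : ∀ x, 0 ≤ s x := fun x => by rw [hs]; exact le_max_left _ _
  have stp : TP s := by
    rw [hs]
    exact (TP.const _).max ((TP.const _).min ((TP.const _).sub (TP.id'.apply i)))
  obtain ⟨H, hH⟩ : ∃ H : Rn n → Rn n,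
      H = fun x j => if j = i then x j else x j / 2 + clamp (x j) (s x) / 2 := ⟨_, rfl⟩
  have H1 : ∀ x, H x i = x i := fun x => by rw [hH]; exact if_pos rfl
  have H2 : ∀ x j, j ≠ i → H x j = x j / 2 + clamp (x j) (s x) / 2 := fun x j hj => by
    rw [hH]; exact if_neg hj
  have Hlh : LH H := by
    refine lh_tri (TP.pi fun j => ?_) {i}ᶜ (c := 1 / 2) (by norm_num) (fun x j hj => ?_)
      fun x y hxy j hj hle => ?_
    · by_cases hj : j = i
      · simp only [hj, H1]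
        exact TP.id'.apply i
      · simp only [H2 _ j hj]
        exact ((TP.id'.apply j).div_const 2).add (((TP.id'.apply j).clamp stp).div_const 2)
    · rw [not_not.1 hj, H1]
    · have e : s x = s y := by rw [hs]; simp only [hxy i fun h => h rfl]
      have h1 : clamp (y j) (s y) ≤ clamp (x j) (s y) :=
        max_le_max le_rfl (min_le_min hle le_rfl)
      rw [H2 _ j hj, H2 _ j hj, e]
      linarith
  have H3 : ∀ x, ‖hz i (H x)‖ = ‖hz i x‖ / 2 + min ‖hz i x‖ (s x) / 2 := fun x => by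
    refine pm2_norm i (φ := fun a => a / 2 + min a (s x) / 2) (fun a b hab => ?_) fun j => ?_
    · have := min_le_min hab (le_refl (s x))
      beta_reduce
      linarith
    · have h0 := s0 x
      by_cases hj : j = i
      · simp only [hz, hj, update_self, abs_zero, min_eq_left h0, zero_div, add_zero]
      · simp only [hz, update_of_ne hj, H2 x j hj]
        exact pm2_abs _ h0
  obtain ⟨f, hf⟩ : ∃ f : Rn n → ℝ, f = fun y => y i + min (max (y i + 1) 0)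
      (1 - max 0 (min 1 (2 * (1 - ‖hz i y‖)))) := ⟨_, rfl⟩
  have ftp : TP f := by
    rw [hf]
    exact (TP.id'.apply i).add ((((TP.id'.apply i).add (TP.const _)).max (TP.const _)).min
      ((TP.const _).sub ((TP.const _).max ((TP.const _).min
        (((TP.const _).sub (tp_hz i).norm_pi).const_mul 2)))))
  have Vlh := lh_vert i ftp one_pos fun x a b hab => by
    simp only [hf, hz, update_idem, update_self]
    have := min_le_min (max_le_max (add_le_add_left hab 1) (le_refl 0))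
      (le_refl (1 - max 0 (min 1 (2 * (1 - ‖update x i 0‖)))))
    linarith
  have key : ∀ x, ∃ w t', ‖hz i (update (H x) i (f (H x)))‖ = w ∧
      update (H x) i (f (H x)) i = t' ∧ ‖update (H x) i (f (H x))‖ = max w |t'| ∧
      (max w |t'| ≤ 1 ↔ ‖x‖ ≤ 1) ∧ (t' = 1 ∧ w ≤ 1 / 2 ↔ ‖x‖ = 1 ∧ x i = 1) ∧
      (max w |t'| = 1 ∧ (t' ≠ 1 ∨ 1 / 2 ≤ w) ↔ ‖x‖ = 1 ∧ (x i = -1 ∨ ‖hz i x‖ = 1)) ∧
      (t' = 1 ∧ w = 1 / 2 ↔ x i = 1 ∧ ‖hz i x‖ = 1) := fun x => by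
    refine ⟨_, _, rfl, rfl, norm_eq_hz i _, ?_⟩
    rw [norm_eq_hz i x]
    refine pm2_real (norm_nonneg _) (congrFun hs x) ?_ rfl ?_
    · rw [← H3]
      simp only [hz, update_idem]
    · simp only [hf, hz, update_idem, update_self, H1]
  refine pm2_len (len_cube i) (Vlh.comp Hlh) (fun x => ?_) (fun x => ?_) (fun x => ?_)
    fun x => ?_ <;> obtain ⟨w, t', e1, e2, e3, k0, k1, k2, k3⟩ := key x <;>
    simp only [comp_apply, mem_closedBall_zero_iff, mem_ofPred_eq, e1, e2, e3]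
  exacts [k0, k1, k2, k3]

theorem pm2_id (a : ℝ) : min (a + 1 / 2) 0 + clamp a (1 / 2) + max (a - 1 / 2) 0 = a := by
  simp only [clamp, max_def, min_def]
  split_ifs <;> linarith

theorem pm2_g {c r : ℝ} (hr : 0 < r) (hc : |c| + r < 1) : ∃ g : ℝ → ℝ, TP g ∧
    (∃ e > 0, ∀ a b, b ≤ a → e * (a - b) ≤ g a - g b) ∧ ∀ a, (|g a| ≤ 1 ↔ |a| ≤ 1) ∧
      (|g a| < 1 ↔ |a| < 1) ∧ (|g a - c| ≤ r ↔ |a| ≤ 1 / 2) ∧ (|g a - c| < r ↔ |a| < 1 / 2) := by
  have c1 := le_abs_self c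
  have c2 := neg_abs_le c
  obtain ⟨g, hg⟩ : ∃ g : ℝ → ℝ, g = fun a => c + 2 * (c - r + 1) * min (a + 1 / 2) 0 +
      2 * r * clamp a (1 / 2) + 2 * (1 - c - r) * max (a - 1 / 2) 0 := ⟨_, rfl⟩
  obtain ⟨e, he, e1, e2⟩ : ∃ e > 0, e ≤ r ∧ e ≤ 1 - |c| - r :=
    ⟨min r (1 - |c| - r), lt_min hr (by linarith), min_le_left _ _, min_le_right _ _⟩
  have hm : ∀ a b, b ≤ a → 2 * e * (a - b) ≤ g a - g b := fun a b hab => by
    have h1 : 0 ≤ min (a + 1 / 2) 0 - min (b + 1 / 2) 0 :=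
      sub_nonneg.2 (min_le_min (by linarith) le_rfl)
    have h2 : 0 ≤ clamp a (1 / 2) - clamp b (1 / 2) :=
      sub_nonneg.2 (max_le_max le_rfl (min_le_min hab le_rfl))
    have h3 : 0 ≤ max (a - 1 / 2) 0 - max (b - 1 / 2) 0 :=
      sub_nonneg.2 (max_le_max (by linarith) le_rfl)
    have h4 : a - b = min (a + 1 / 2) 0 - min (b + 1 / 2) 0 + (clamp a (1 / 2) - clamp b (1 / 2)) +
        (max (a - 1 / 2) 0 - max (b - 1 / 2) 0) := by linarith [pm2_id a, pm2_id b]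
    have h5 := mul_le_mul_of_nonneg_right (show e ≤ c - r + 1 by linarith) h1
    have h6 := mul_le_mul_of_nonneg_right e1 h2
    have h7 := mul_le_mul_of_nonneg_right (show e ≤ 1 - c - r by linarith) h3
    rw [h4, hg]
    linarith
  have hs : StrictMono g := fun b a hab => by
    have := hm a b hab.le
    have := mul_pos (mul_pos two_pos he) (sub_pos.2 hab)
    linarith
  have g1 : g 1 = 1 := by rw [hg]; norm_num [clamp]; ring
  have g2 : g (-1) = -1 := by rw [hg]; norm_num [clamp]; ring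
  have g3 : g (1 / 2) = c + r := by rw [hg]; norm_num [clamp]; ring
  have g4 : g (-(1 / 2)) = c - r := by rw [hg]; norm_num [clamp]; ring
  refine ⟨g, ?_, ⟨2 * e, by positivity, hm⟩, fun a => ⟨?_, ?_, ?_, ?_⟩⟩
  · rw [hg]
    exact (((TP.const _).add (((TP.id'.add (TP.const _)).min (TP.const _)).const_mul _)).add
      ((TP.id'.clamp (TP.const _)).const_mul _)).add
      (((TP.id'.sub (TP.const _)).max (TP.const _)).const_mul _)
  · rw [abs_le, abs_le, ← hs.le_iff_le (a := a), ← hs.le_iff_le (b := a), g1, g2]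
  · rw [abs_lt, abs_lt, ← hs.lt_iff_lt (a := a), ← hs.lt_iff_lt (b := a), g1, g2]
  · rw [abs_le, abs_le, ← hs.le_iff_le (a := a), ← hs.le_iff_le (b := a), g3, g4]
    constructor <;> rintro ⟨h1, h2⟩ <;> constructor <;> linarith
  · rw [abs_lt, abs_lt, ← hs.lt_iff_lt (a := a), ← hs.lt_iff_lt (b := a), g3, g4]
    constructor <;> rintro ⟨h1, h2⟩ <;> constructor <;> linarith

theorem pm2_hz (x : Rn 2) : ‖hz 1 x‖ = |x 0| := by
  refine le_antisymm ((pi_norm_le_iff_of_nonneg (abs_nonneg _)).2 fun j => ?_)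
    (norm_le_pi_norm (hz 1 x) 0)
  fin_cases j
  · exact le_rfl
  · simp [hz]

theorem pm2_std : Len (1 : Fin 2) {y | 0 ≤ y 0 ∧ 0 ≤ y 1 ∧ y 0 + y 1 ≤ 1}
    {y | (0 ≤ y 0 ∧ y 0 ≤ 1 ∧ y 1 = 0) ∨ (0 ≤ y 1 ∧ y 1 ≤ 1 ∧ y 0 = 0)}
    {y | 0 ≤ y 1 ∧ y 1 ≤ 1 ∧ y 0 = 1 - y 1} {y | (y 0 = 1 ∧ y 1 = 0) ∨ (y 0 = 0 ∧ y 1 = 1)} := by
  have k : LH (fun x : Rn 2 => (![(1 - x 1 - x 0) / 2, (1 - x 1 + x 0) / 2] : Rn 2)) := by
    refine pa2_of_inv (g := fun y => ![y 1 - y 0, 1 - y 0 - y 1]) (TP.pi fun j => ?_)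
      (TP.pi fun j => ?_) (fun x => ?_) fun x => ?_
    · fin_cases j
      · exact (((TP.const _).sub (TP.id'.apply 1)).sub (TP.id'.apply 0)).div_const 2
      · exact (((TP.const _).sub (TP.id'.apply 1)).add (TP.id'.apply 0)).div_const 2
    · fin_cases j
      · exact (TP.id'.apply 1).sub (TP.id'.apply 0)
      · exact ((TP.const _).sub (TP.id'.apply 0)).sub (TP.id'.apply 1)
    · ext j
      fin_cases j <;> simp <;> ring
    · ext j
      fin_cases j <;> simp <;> ring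
  refine pm2_len (len_half 1) k (fun x => ?_) (fun x => ?_) (fun x => ?_) fun x => ?_ <;>
    simp only [mem_ofPred_eq, oct, capU, flat, eqt, oN, norm_eq_hz 1 x, pm2_hz,
      Matrix.cons_val_zero, Matrix.cons_val_one] <;> grind

theorem len_small (i : Fin n) {c : Rn n} {r : ℝ} (hr : 0 < r) (hc : ∀ j, j ≠ i → |c j| + r < 1) :
    Len i (closedBall 0 1) {x | x i = 1 ∧ ‖hz i (x - c)‖ ≤ r}
      {x | ‖x‖ = 1 ∧ (x i ≠ 1 ∨ r ≤ ‖hz i (x - c)‖)} {x | x i = 1 ∧ ‖hz i (x - c)‖ = r} := by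
  have h0 : ∀ j, ∃ g : ℝ → ℝ, TP g ∧ (∃ e > 0, ∀ a b, b ≤ a → e * (a - b) ≤ g a - g b) ∧
      (j = i → ∀ a, g a = a) ∧ ∀ a, (|g a| ≤ 1 ↔ |a| ≤ 1) ∧ (|g a| < 1 ↔ |a| < 1) ∧
        (j ≠ i → (|g a - c j| ≤ r ↔ |a| ≤ 1 / 2) ∧ (|g a - c j| < r ↔ |a| < 1 / 2)) := fun j => by
    by_cases hj : j = i
    · exact ⟨fun a => a, TP.id', ⟨1, one_pos, fun a b _ => (one_mul _).le⟩, fun _ _ => rfl,
        fun _ => ⟨Iff.rfl, Iff.rfl, fun h => absurd hj h⟩⟩
    · obtain ⟨g, h1, h2, h3⟩ := pm2_g hr (hc j hj)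
      exact ⟨g, h1, h2, fun h => absurd h hj, fun a => ⟨(h3 a).1, (h3 a).2.1, fun _ => (h3 a).2.2⟩⟩
  choose g h1 h2 h3 h4 using h0
  have key : ∀ x : Rn n, g i (x i) = x i ∧ (‖fun j => g j (x j)‖ ≤ 1 ↔ ‖x‖ ≤ 1) ∧
      (‖fun j => g j (x j)‖ < 1 ↔ ‖x‖ < 1) ∧
      (‖hz i ((fun j => g j (x j)) - c)‖ ≤ r ↔ ‖hz i x‖ ≤ 1 / 2) ∧
      (‖hz i ((fun j => g j (x j)) - c)‖ < r ↔ ‖hz i x‖ < 1 / 2) := fun x => by
    refine ⟨h3 i rfl _, pm2_le one_pos one_pos fun j => (h4 j _).1,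
      pm2_lt one_pos one_pos fun j => (h4 j _).2.1, pm2_le hr one_half_pos fun j => ?_,
      pm2_lt hr one_half_pos fun j => ?_⟩
    · by_cases hj : j = i
      · simp only [hz, hj, update_self, abs_zero, hr.le, one_half_pos.le]
      · simp only [hz, update_of_ne hj]
        exact ((h4 j _).2.2 hj).1
    · by_cases hj : j = i
      · simp only [hz, hj, update_self, abs_zero, hr, one_half_pos]
      · simp only [hz, update_of_ne hj]
        exact ((h4 j _).2.2 hj).2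
  refine pm2_len (pm2_half i) (pm2_diag h1 h2) (fun x => ?_) (fun x => ?_) (fun x => ?_)
    fun x => ?_ <;> obtain ⟨e, k0, k1, k2, k3⟩ := key x <;>
    simp only [mem_closedBall_zero_iff, mem_ofPred_eq, e] <;> grind

theorem len_tri {v a b : Rn 2} (h : LinearIndependent ℝ ![a - v, b - v]) :
    Len 1 {x | ∃ s t : ℝ, 0 ≤ s ∧ 0 ≤ t ∧ s + t ≤ 1 ∧ x = v + s • (a - v) + t • (b - v)}
      (segment ℝ v a ∪ segment ℝ v b) (segment ℝ a b) {a, b} := by
  obtain ⟨M, hM⟩ : ∃ M : Rn 2 ≃L[ℝ] Rn 2, ∀ y, M y = y 0 • (a - v) + y 1 • (b - v) := by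
    refine ⟨(basisOfLinearIndependentOfCardEqFinrank h
      (by simp)).equivFun.symm.toContinuousLinearEquiv, fun y => ?_⟩
    simp
  have := pm2_std.image (lh_aff M v)
  simp only [hM] at this
  convert this using 1
  · ext x
    constructor
    · rintro ⟨s, t, h1, h2, h3, rfl⟩
      exact ⟨![s, t], ⟨h1, h2, h3⟩, by simp only [Matrix.cons_val_zero, Matrix.cons_val_one]; abel⟩
    · rintro ⟨y, ⟨h1, h2, h3⟩, rfl⟩
      exact ⟨y 0, y 1, h1, h2, h3, by beta_reduce; abel⟩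
  · rw [segment_eq_image', segment_eq_image']
    ext x
    constructor
    · rintro (⟨s, hs, rfl⟩ | ⟨s, hs, rfl⟩)
      · exact ⟨![s, 0], Or.inl ⟨hs.1, hs.2, rfl⟩, by simp [add_comm]⟩
      · exact ⟨![0, s], Or.inr ⟨hs.1, hs.2, rfl⟩, by simp [add_comm]⟩
    · rintro ⟨y, ⟨h1, h2, h3⟩ | ⟨h1, h2, h3⟩, rfl⟩
      · exact Or.inl ⟨y 0, ⟨h1, h2⟩, by simp [h3, add_comm]⟩
      · exact Or.inr ⟨y 1, ⟨h1, h2⟩, by simp [h3, add_comm]⟩
  · rw [segment_eq_image']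
    ext x
    constructor
    · rintro ⟨s, hs, rfl⟩
      refine ⟨![1 - s, s], ⟨hs.1, hs.2, rfl⟩, ?_⟩
      simp only [Matrix.cons_val_zero, Matrix.cons_val_one]
      module
    · rintro ⟨y, ⟨h1, h2, h3⟩, rfl⟩
      refine ⟨y 1, ⟨h1, h2⟩, ?_⟩
      simp only [h3]
      module
  · ext x
    constructor
    · rintro (rfl | rfl)
      · exact ⟨![1, 0], Or.inl ⟨rfl, rfl⟩, by simp⟩
      · exact ⟨![0, 1], Or.inr ⟨rfl, rfl⟩, by simp⟩
    · rintro ⟨y, ⟨h1, h2⟩ | ⟨h1, h2⟩, rfl⟩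
      · exact Or.inl (by simp [h1, h2])
      · exact Or.inr (by simp [h1, h2])

theorem len_prism {D J : Set (Rn 2)} (h : Ball D J) {s t : ℝ} (hst : s < t) :
    Len 2 {x | pj3 x ∈ D ∧ x 2 ∈ Icc s t} (lay D t ∪ {x | pj3 x ∈ J ∧ x 2 ∈ Icc s t})
      (lay D s) (lay J s) := by
  obtain ⟨Φ, hΦ, rfl, rfl⟩ := h
  have hd : t - s ≠ 0 := (sub_pos.2 hst).ne'
  have k : LH (fun x : Rn 3 => mk3 (pj3 x) ((s + t) / 2 - (t - s) / 2 * x 2)) := by
    refine pa2_of_inv (g := fun x => mk3 (pj3 x) ((s + t - 2 * x 2) / (t - s)))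
      (tp_pj3.mk3 ((TP.const _).sub ((TP.id'.apply 2).const_mul _)))
      (tp_pj3.mk3 (((TP.const _).sub ((TP.id'.apply 2).const_mul _)).div_const _))
      (fun x => ?_) fun x => ?_
    · simp only [pj3_mk3, mk3_2]
      refine (congrArg (mk3 (pj3 x)) ?_).trans (mk3_pj3 x)
      field_simp
      ring
    · simp only [pj3_mk3, mk3_2]
      refine (congrArg (mk3 (pj3 x)) ?_).trans (mk3_pj3 x)
      field_simp
      ring
  have key : ∀ a : ℝ, ((s + t) / 2 - (t - s) / 2 * a ∈ Icc s t ↔ |a| ≤ 1) ∧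
      ((s + t) / 2 - (t - s) / 2 * a = t ↔ a = -1) ∧
      ((s + t) / 2 - (t - s) / 2 * a = s ↔ a = 1) := fun a => by
    refine ⟨?_, ⟨fun e => mul_left_cancel₀ hd (by linarith), fun e => by rw [e]; ring⟩,
      fun e => mul_left_cancel₀ hd (by linarith), fun e => by rw [e]; ring⟩
    rw [abs_le]
    constructor <;> rintro ⟨h1, h2⟩ <;> constructor <;> nlinarith
  refine pm2_len (len_cube 2).symm ((lp_up hΦ).1.comp k) (fun x => ?_) (fun x => ?_) (fun x => ?_)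
    fun x => ?_ <;> obtain ⟨k0, k1, k2⟩ := key (x 2) <;>
    simp only [comp_apply, up, lay, mem_union, mem_ofPred_eq, pj3_mk3, mk3_2, k0, k1, k2,
      hΦ.inj.mem_set_image, mem_closedBall_zero_iff, mem_sphere_zero_iff_norm, norm_eq_hz 2 x,
      norm_hz2] <;> grind

theorem dsc_lay {D J : Set (Rn 2)} (h : Ball D J) (t : ℝ) : Dsc 2 (lay D t) (lay J t) := by
  exact (len_prism h (lt_add_one t)).dsc

/-- Boxes are balls. -/
theorem ball_box {a b : Rn n} (h : ∀ j, a j < b j) :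
    Ball (Icc a b) {x ∈ Icc a b | ∃ j, x j = a j ∨ x j = b j} := by
  have k := pm2_diag (g := fun j u => (a j + b j) / 2 + (b j - a j) / 2 * u)
    (fun j => (TP.const _).add (TP.id'.const_mul _))
    fun j => ⟨(b j - a j) / 2, half_pos (sub_pos.2 (h j)), fun u v _ => le_of_eq (by ring)⟩
  have h1 : ∀ x : Rn n, (fun j => (a j + b j) / 2 + (b j - a j) / 2 * x j) ∈ Icc a b ↔
      ‖x‖ ≤ 1 := fun x => by
    rw [pi_norm_le_iff_of_nonneg zero_le_one, mem_Icc, Pi.le_def, Pi.le_def, ← forall_and]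
    refine forall_congr' fun j => ?_
    have := h j
    rw [Real.norm_eq_abs, abs_le]
    constructor <;> rintro ⟨h1, h2⟩ <;> constructor <;> nlinarith
  refine ⟨_, k, pm2_img k fun x => ?_, pm2_img k fun x => ?_⟩
  · rw [h1, mem_closedBall_zero_iff]
  · have h2 : (∃ j, (a j + b j) / 2 + (b j - a j) / 2 * x j = a j ∨
        (a j + b j) / 2 + (b j - a j) / 2 * x j = b j) ↔ ∃ j, |x j| = 1 := by
      refine exists_congr fun j => ?_
      have hd : b j - a j ≠ 0 := (sub_pos.2 (h j)).ne'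
      rw [abs_eq zero_le_one, or_comm]
      exact or_congr ⟨fun e => mul_left_cancel₀ hd (by linarith), fun e => by rw [e]; ring⟩
        ⟨fun e => mul_left_cancel₀ hd (by linarith), fun e => by rw [e]; ring⟩
    rw [mem_sep_iff, h1, h2, mem_sphere_zero_iff_norm]
    constructor
    · rintro ⟨h3, j, hj⟩
      exact le_antisymm h3 (hj.ge.trans (norm_le_pi_norm x j))
    · refine fun h3 => ⟨h3.le, by_contra fun h4 => h3.not_lt ?_⟩
      exact (pi_norm_lt_iff one_pos).2 fun j =>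
        ((norm_le_pi_norm x j).trans h3.le).lt_of_ne fun e => h4 ⟨j, e⟩

end BEp
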