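import Pool.Agent.Work.MP_f0515e_an.D3.PArc
import Pool.Agent.Work.MP_f0515e_an.D3.PFill
import Pool.Agent.Work.MP_f0515e_an.D3.PMod2
import Pool.Agent.Work.MP_f0515e_an.D3.PBall

/-! Parametrised cells: images, extension of boundary maps, gluing two discs along an arc. -/

open Set Metric Filter Topology Function BEv
open scoped NNReal

noncomputable section
namespace BEp

variable {n m k : ℕ} {D J D₁ D₂ J₁ J₂ a : Set (Rn n)} {x y : Rn n}

theorem PCel.image (h : PCel k D J) {g : Rn n → Rn m} (hg : TP g) (hi : InjOn g D) :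
    PCel k (g '' D) (g '' J) := by
  obtain ⟨φ, h1, h2, rfl, rfl⟩ := h
  exact ⟨fun x => g (φ x), hg.comp h1, fun p hp q hq e =>
    h2 hp hq (hi (mem_image_of_mem φ hp) (mem_image_of_mem φ hq) e), (image_image ..).symm,
    (image_image ..).symm⟩

theorem PCel.sub (h : PCel k D J) : J ⊆ D := by
  obtain ⟨φ, -, -, rfl, rfl⟩ := h
  exact image_mono sphere_subset_closedBall

theorem PCel.poly (h : PCel k D J) : Poly D := by
  obtain ⟨φ, h1, -, rfl, -⟩ := h
  exact (Poly.closedBall 0 1).image h1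

theorem PCel.poly' (h : PCel k D J) : Poly J := by
  obtain ⟨φ, h1, -, -, rfl⟩ := h
  exact (poly_sphere 0 1).image h1

theorem PCel.cpt (h : PCel k D J) : IsCompact D := by
  obtain ⟨φ, h1, -, rfl, -⟩ := h
  exact (isCompact_closedBall 0 1).image h1.continuous

theorem PCel.conn (h : PCel k D J) : IsConnected D := by
  obtain ⟨φ, h1, -, rfl, -⟩ := h
  exact ((convex_closedBall 0 1).isConnected (nonempty_closedBall.2 zero_le_one)).image _
    h1.continuous.continuousOn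

theorem PCel.diff_eq {g : Rn k → Rn n} (hi : InjOn g (closedBall 0 1)) :
    g '' closedBall 0 1 \ g '' sphere 0 1 = g '' ball 0 1 := by
  rw [← hi.image_sdiff_subset sphere_subset_closedBall, closedBall_sdiff_sphere]

theorem PCel.conn_in (h : PCel k D J) : IsConnected (D \ J) := by
  obtain ⟨φ, h1, h2, rfl, rfl⟩ := h
  rw [PCel.diff_eq h2]
  exact ((convex_ball 0 1).isConnected (nonempty_ball.2 zero_lt_one)).image _
    h1.continuous.continuousOn

theorem PCel.cl (h : PCel k D J) : closure (D \ J) = D := by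
  refine (closure_minimal sdiff_subset h.cpt.isClosed).antisymm ?_
  obtain ⟨φ, h1, h2, rfl, rfl⟩ := h
  rw [PCel.diff_eq h2, ← closure_ball 0 one_ne_zero]
  exact image_closure_subset_closure_image h1.continuous

theorem PDsc.conn_bd (h : PDsc D J) : IsConnected J := by
  obtain ⟨φ, h1, -, -, rfl⟩ := h
  exact (isConnected_sphere (by simp) 0 zero_le_one).image _ h1.continuous.continuousOn

theorem Ball.cel {B S : Set (Rn k)} (h : Ball B S) : PCel k B S :=
  let ⟨Φ, h1, h2⟩ := h; ⟨Φ, h1.tp, h1.inj.injOn, h2⟩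

/-- A cell is parametrised by any ball, with prescribed boundary values. -/
theorem PCel.fill (h : PCel k D J) {B S : Set (Rn k)} (hB : Ball B S) {β : Rn k → Rn n}
    (hβ : TP β) (hb : BijOn β S J) : ∃ g, TP g ∧ BijOn g B D ∧ EqOn g β S := by
  obtain ⟨φ, h1, h2, rfl, rfl⟩ := h
  obtain ⟨ψ, k1, k2⟩ := tp_linv (Poly.closedBall 0 1) h1 h2
  have b : BijOn ψ (φ '' sphere 0 1) (sphere 0 1) :=
    (h2.mono sphere_subset_closedBall).bijOn_image.symm
      ⟨fun z hz => by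
        obtain ⟨w, hw, rfl⟩ := hz
        rw [k2 w (sphere_subset_closedBall hw)], fun z hz => k2 z (sphere_subset_closedBall hz)⟩
  obtain ⟨Φ, f1, f2, f3⟩ := BEp.fill hB (ball_round 0 one_pos) (k1.comp hβ) (b.comp hb)
  refine ⟨fun z => φ (Φ z), h1.comp f1.tp, h2.bijOn_image.comp (f2 ▸ f1.inj.injOn.bijOn_image),
    fun z hz => ?_⟩
  obtain ⟨w, hw, e⟩ := hb.mapsTo hz
  simp only [f3 hz, ← e, k2 w (sphere_subset_closedBall hw)]

theorem PCel.bij (h : PCel k D J) {D' J' : Set (Rn m)} (h' : PCel k D' J') :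
    ∃ g : Rn n → Rn m, TP g ∧ BijOn g D D' ∧ BijOn g J J' := by
  obtain ⟨φ, h1, h2, rfl, rfl⟩ := h
  obtain ⟨φ', g1, g2, rfl, rfl⟩ := h'
  obtain ⟨ψ, k1, k2⟩ := tp_linv (Poly.closedBall 0 1) h1 h2
  have b : ∀ A ⊆ closedBall (0 : Rn k) 1, BijOn (fun z => φ' (ψ z)) (φ '' A) (φ' '' A) :=
    fun A hA => (g2.mono hA).bijOn_image.comp ((h2.mono hA).bijOn_image.symm
      ⟨fun z hz => by
        obtain ⟨w, hw, rfl⟩ := hz
        rw [k2 w (hA hw)], fun z hz => k2 z (hA hz)⟩)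
  exact ⟨_, g1.comp k1, b _ Subset.rfl, b _ sphere_subset_closedBall⟩

/-- A boundary bijection of cells extends. -/
theorem PCel.ext (h : PCel k D J) {D' J' : Set (Rn m)} (h' : PCel k D' J') {β : Rn n → Rn m}
    (hβ : TP β) (hb : BijOn β J J') : ∃ g, TP g ∧ BijOn g D D' ∧ EqOn g β J := by
  have hB : Ball (closedBall (0 : Rn k) 1) (sphere 0 1) := ball_round 0 one_pos
  obtain ⟨φ, h1, h2, rfl, rfl⟩ := h
  obtain ⟨ψ, k1, k2⟩ := tp_linv (Poly.closedBall 0 1) h1 h2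
  obtain ⟨g, g1, g2, g3⟩ := h'.fill hB (hβ.comp h1)
    (hb.comp (h2.mono sphere_subset_closedBall).bijOn_image)
  refine ⟨fun z => g (ψ z), g1.comp k1, g2.comp (h2.bijOn_image.symm
    ⟨fun z hz => ?_, k2⟩), ?_⟩
  · obtain ⟨w, hw, rfl⟩ := hz
    rw [k2 w hw]
  · rintro _ ⟨w, hw, rfl⟩
    simp only [k2 w (sphere_subset_closedBall hw), g3 hw]

theorem tarc_eq {X : Type} [TopologicalSpace X] [T2Space X] {A A' : Set X} {p q : X}
    (h : TArc A p q) (h' : TArc A' p q) (hs : A ⊆ A') : A = A' := by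
  obtain ⟨f, f1, f2, f3, f4, f5⟩ := tarc_inv h'
  refine hs.antisymm fun z hz => ?_
  obtain ⟨w, hw, e⟩ := (h.conn.image f (f1.mono hs)).Icc_subset ⟨p, h.left, f3⟩ ⟨q, h.right, f4⟩
    (f5.subset (mem_image_of_mem f hz))
  exact f2 (hs hw) hz e ▸ hw

/-- The complement of an arc in a circle. -/
theorem crc_diff (hJ : Crc J) (ha : Arc a x y) (hs : a ⊆ J) : Arc (J \ (a \ {x, y})) x y := by
  have t := ha.tarc
  obtain ⟨A, A', a1, a2, hu, hi⟩ := crc_split hJ (hs t.left) (hs t.right) t.ne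
  have key : ∀ A A' : Set (Rn n), Arc A x y → Arc A' x y → A ∪ A' = J → A ∩ A' = {x, y} →
      a \ {x, y} ⊆ A → Arc (J \ (a \ {x, y})) x y := fun A A' a1 a2 hu hi h => by
    have : a = A := tarc_eq t a1.tarc
      (t.cl ▸ closure_minimal h a1.tarc.compact.isClosed)
    convert a2 using 1
    rw [this, ← hu, ← hi]
    ext z
    simp only [Set.mem_sdiff, mem_union, mem_inter_iff]
    tauto
  rcases isPreconnected_iff_subset_of_disjoint_closed.1 t.conn_open _ _ a1.tarc.compact.isClosed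
    a2.tarc.compact.isClosed (hu ▸ sdiff_subset.trans hs) (by
      rw [hi]; exact Set.sdiff_inter_self) with h | h
  exacts [key A A' a1 a2 hu hi h, key A' A a2 a1 (union_comm .. ▸ hu) (inter_comm .. ▸ hi) h]

theorem injOn_two {α β : Type} {f : α → β} {A B : Set α} (h1 : InjOn f A) (h2 : InjOn f B)
    (h : ∀ z ∈ A, ∀ w ∈ B, f z = f w → z = w) : InjOn f (A ∪ B) := by
  rintro z (hz | hz) w (hw | hw) e
  exacts [h1 hz hw e, h z hz w hw e, (h w hw z hz e.symm).symm, h2 hz hw e]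

theorem PDsc.arc (h : PDsc D J) (ha : Arc a x y) (hs : a ⊆ J) {B S E : Set (Rn 2)} (hB : Ball B S)
    {p q : Rn 2} (hE : Arc E p q) (hS : E ⊆ S) {β : Rn 2 → Rn n} (hβ : TP β) (hb : BijOn β E a)
    (hp : β p = x) (hq : β q = y) :
    ∃ g, TP g ∧ BijOn g B D ∧ EqOn g β E ∧ g '' (S \ (E \ {p, q})) = J \ (a \ {x, y}) := by
  have c1 := crc_diff hB.crc hE hS
  obtain ⟨β', b1, b2, b3, b4⟩ := arc_bij c1 (crc_diff (PCel.crc h) ha hs)
  obtain ⟨γ, g1, g2, g3⟩ := tp_glue hE.poly c1.poly hβ b1 (fun z hz => by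
    rcases (not_not.1 fun w => hz.2.2 ⟨hz.1, w⟩ : z ∈ ({p, q} : Set _)) with rfl | rfl
    exacts [hp.trans b3.symm, hq.trans b4.symm])
  have u : ∀ {α : Type} {a J P : Set α}, a ⊆ J → J = a ∪ J \ (a \ P) := fun {α a J P} h => by
    ext z
    have := @h z
    simp only [Set.mem_sdiff, mem_union]
    tauto
  have k1 := hb.congr g2.symm
  have k2 := b2.congr g3.symm
  obtain ⟨g, f1, f2, f3⟩ := PCel.fill h hB g1 (by
    rw [u (P := {p, q}) hS, u (P := {x, y}) hs]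
    refine k1.union k2 (injOn_two k1.injOn k2.injOn fun z hz w hw e => ?_)
    have : γ z ∈ ({x, y} : Set _) := not_not.1 fun v => (k2.mapsTo hw).2 (e ▸ ⟨k1.mapsTo hz, v⟩)
    rcases this with v | v
    · rw [k1.injOn hz hE.tarc.left (v.trans (hp.symm.trans (g2 hE.tarc.left).symm)),
        k2.injOn hw c1.tarc.left (e.symm.trans (v.trans (b3.symm.trans (g3 c1.tarc.left).symm)))]
    · rw [k1.injOn hz hE.tarc.right (v.trans (hq.symm.trans (g2 hE.tarc.right).symm)),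
        k2.injOn hw c1.tarc.right (e.symm.trans (v.trans (b4.symm.trans (g3 c1.tarc.right).symm)))])
  exact ⟨g, f1, f2, fun z hz => (f3 (hS hz)).trans (g2 hz),
    (image_congr fun z hz => f3 hz.1).trans k2.image_eq⟩

theorem pdsc_glue (h1 : PDsc D₁ J₁) (h2 : PDsc D₂ J₂) (ha : Arc a x y) (hi : D₁ ∩ D₂ = a)
    (s1 : a ⊆ J₁) (s2 : a ⊆ J₂) : PDsc (D₁ ∪ D₂) ((J₁ ∪ J₂) \ (a \ {x, y})) := by
  have B1 := ball_box (a := ![-1, -1]) (b := ![0, 1]) (by simp [Fin.forall_fin_two])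
  have B2 := ball_box (a := ![0, -1]) (b := ![1, 1]) (by simp [Fin.forall_fin_two])
  have hE : Arc (segment ℝ (![0, -1] : Rn 2) ![0, 1]) _ _ :=
    arc_seg fun e => by have := congrFun e 1; norm_num at this
  have mE : ∀ z : Rn 2, z ∈ segment ℝ (![0, -1] : Rn 2) ![0, 1] ↔ z 0 = 0 ∧ -1 ≤ z 1 ∧ z 1 ≤ 1 := by
    intro z
    constructor
    · rintro ⟨s, t, hs, ht, e, rfl⟩
      simp
      constructor <;> linarith
    · rintro ⟨e, l, r⟩
      refine ⟨(1 - z 1) / 2, (1 + z 1) / 2, by linarith, by linarith, by ring, ?_⟩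
      ext i; fin_cases i <;> simp [e]
      ring
  have mP : ∀ z : Rn 2, z ∈ ({![0, -1], ![0, 1]} : Set (Rn 2)) ↔ z 0 = 0 ∧ (z 1 = -1 ∨ z 1 = 1) := by
    intro z
    simp only [mem_insert_iff, mem_singleton_iff, funext_iff, Fin.forall_fin_two]
    simp [and_or_left]
  have mQ : ∀ z : Rn 2, ‖z‖ ≤ 1 ↔ (-1 ≤ z 0 ∧ z 0 ≤ 1) ∧ -1 ≤ z 1 ∧ z 1 ≤ 1 := fun z => by
    simp [pi_norm_le_iff_of_nonneg, Fin.forall_fin_two, abs_le]
  have mB : ∀ z : Rn 2, ‖z‖ < 1 ↔ (-1 < z 0 ∧ z 0 < 1) ∧ -1 < z 1 ∧ z 1 < 1 := fun z => by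
    simp [pi_norm_lt_iff, Fin.forall_fin_two, abs_lt]
  obtain ⟨β, b1, b2, b3, b4⟩ := arc_bij hE ha
  obtain ⟨g₁, f1, f2, f3, f4⟩ := h1.arc ha s1 B1 hE (fun z hz => by
    rw [mE] at hz
    simp [Pi.le_def, Fin.forall_fin_two, hz]) b1 b2 b3 b4
  obtain ⟨g₂, k1, k2, k3, k4⟩ := h2.arc ha s2 B2 hE (fun z hz => by
    rw [mE] at hz
    simp [Pi.le_def, Fin.forall_fin_two, hz]) b1 b2 b3 b4
  have iE : Icc (![-1, -1] : Rn 2) ![0, 1] ∩ Icc ![0, -1] ![1, 1] =
      segment ℝ (![0, -1] : Rn 2) ![0, 1] := by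
    ext z
    simp only [mE, mem_inter_iff, mem_Icc, Pi.le_def, Fin.forall_fin_two]
    simp
    generalize z 0 = u, z 1 = v
    clear * -
    grind
  obtain ⟨g, g1, g2, g3⟩ := tp_glue B1.poly B2.poly f1 k1 (iE ▸ f3.trans k3.symm)
  have u : closedBall (0 : Rn 2) 1 = Icc (![-1, -1] : Rn 2) ![0, 1] ∪ Icc ![0, -1] ![1, 1] := by
    ext z
    simp only [mem_closedBall_zero_iff, mQ, mem_union, mem_Icc, Pi.le_def, Fin.forall_fin_two]
    simp
    generalize z 0 = u, z 1 = v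
    clear * -
    grind
  have e1 := f2.congr g2.symm
  have e2 := k2.congr g3.symm
  refine ⟨g, g1, u ▸ injOn_two e1.injOn e2.injOn fun z hz w hw e => ?_,
    by rw [u, image_union, e1.image_eq, e2.image_eq], ?_⟩
  · obtain ⟨v, hv, q⟩ := b2.surjOn (hi.subset ⟨e1.mapsTo hz, e ▸ e2.mapsTo hw⟩)
    have hv' := iE.superset hv
    have q' : g v = g z := (g2 hv'.1).trans ((f3 hv).trans q)
    rw [← e1.injOn hv'.1 hz q', e2.injOn hv'.2 hw (q'.trans e)]
  · rw [union_sdiff_distrib, ← f4, ← k4, ← image_congr fun z hz => g2 hz.1.1,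
      ← image_congr fun z hz => g3 hz.1.1, ← image_union]
    congr 1
    ext z
    simp only [mem_sphere_zero_iff_norm, le_antisymm_iff (a := ‖z‖), ← not_lt (a := ‖z‖), mQ, mB,
      mem_union, Set.mem_sdiff, mE, mP, mem_ofPred_eq, mem_Icc, Pi.le_def, Fin.forall_fin_two,
      Fin.exists_fin_two]
    simp
    generalize z 0 = u, z 1 = v
    clear * -
    grind

end BEp
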