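import Pool.Agent.Work.MP_f0515e_an.D3.PTri

/-! Models, part one: the cube and the half lens are lenses.
`len_cube`: the inverse of `Θ = Vt ∘ H`. `H x j = x j / 2 + clamp (x j) (s x) / 2` for `j ≠ i`, `H x i = x i`,
`s x = max 0 (min 1 ((1 + x i) / 2))` (`lh_tri`, `I = {i}ᶜ`, `c = 1/2`); for `|x i| ≤ 1`:
`‖hz i x‖ ≤ 1 ↔ ‖hz i (H x)‖ ≤ (3 + x i) / 4`, same with `=`, and `H` is the identity at height one.
`Vt y = update y i (ρ - φ (1 - y i))`, `ρ = max 0 (1 - ‖hz i y‖)`, `φ u = u / 2 + min (max u 0) (max (2 ρ - 1) 0)`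
(`lh_vert`, `c = 1/2`): on the vertical line over a point with `‖hz i y‖ ≤ 1` it is increasing and sends
height `1` to `ρ` and height `max (-1) (4 ‖hz i y‖ - 3)` to `-ρ`. To prove `Φ '' A = B` for a bijection it is
enough to prove `x ∈ A ↔ Φ x ∈ B`. `len_half`: vertical map `t ↦ 2 t - ρ` sends the half lens to the lens.
`Len.symm`: reflect the coordinate `i`. About 250 lines. -/

open Set Metric Filter Topology Function BEv
open scoped NNReal

noncomputable section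
namespace BEp

variable {n m : ℕ}

theorem PMod1_img {Φ : Rn n → Rn n} (hΦ : LH Φ) {A B : Set (Rn n)} (h : ∀ x, x ∈ A ↔ Φ x ∈ B) :
    Φ '' A = B := by
  rw [show A = Φ ⁻¹' B from Set.ext h, image_preimage_eq _ hΦ.1.2]

theorem PMod1_len {i : Fin n} {B D₁ D₂ J : Set (Rn n)} {Θ : Rn n → Rn n} (h : LH Θ)
    (h1 : ∀ x, x ∈ B ↔ Θ x ∈ oct i) (h2 : ∀ x, x ∈ D₁ ↔ Θ x ∈ capU i)
    (h3 : ∀ x, x ∈ D₂ ↔ Θ x ∈ capL i) (h4 : ∀ x, x ∈ J ↔ Θ x ∈ eqt i) : Len i B D₁ D₂ J :=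
  ⟨invFun Θ, h.inv, by rw [← PMod1_img h h1, h.inv_image], by rw [← PMod1_img h h2, h.inv_image],
    by rw [← PMod1_img h h3, h.inv_image], by rw [← PMod1_img h h4, h.inv_image]⟩

theorem PMod1_hz (i : Fin n) (x : Rn n) (t : ℝ) : hz i (update x i t) = hz i x := by
  simp [hz]

theorem Len.image {i : Fin n} {B D₁ D₂ J : Set (Rn n)} (h : Len i B D₁ D₂ J) {Θ : Rn n → Rn n}
    (k : LH Θ) : Len i (Θ '' B) (Θ '' D₁) (Θ '' D₂) (Θ '' J) := by
  obtain ⟨Φ, h0, rfl, rfl, rfl, rfl⟩ := h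
  exact ⟨Θ ∘ Φ, k.comp h0, image_comp _ _ _, image_comp _ _ _, image_comp _ _ _, image_comp _ _ _⟩

theorem Ball.image {B S : Set (Rn n)} (h : Ball B S) {Θ : Rn n → Rn n} (k : LH Θ) :
    Ball (Θ '' B) (Θ '' S) := by
  obtain ⟨Φ, h0, rfl, rfl⟩ := h
  exact ⟨Θ ∘ Φ, k.comp h0, image_comp _ _ _, image_comp _ _ _⟩

theorem Sph.image {S : Set (Rn n)} (h : Sph S) {Θ : Rn n → Rn n} (k : LH Θ) : Sph (Θ '' S) := by
  obtain ⟨B, hB⟩ := h
  exact ⟨_, hB.image k⟩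

theorem Sph.of_image {S : Set (Rn n)} {Θ : Rn n → Rn n} (k : LH Θ) (h : Sph (Θ '' S)) :
    Sph S := by
  have := h.image k.inv
  rwa [k.inv_image] at this

theorem Dsc.image {i : Fin n} {D J : Set (Rn n)} (h : Dsc i D J) {Θ : Rn n → Rn n} (k : LH Θ) :
    Dsc i (Θ '' D) (Θ '' J) := by
  obtain ⟨Φ, h0, rfl, rfl⟩ := h
  exact ⟨Θ ∘ Φ, k.comp h0, image_comp _ _ _, image_comp _ _ _⟩

theorem ball_round (c : Rn n) {r : ℝ} (hr : 0 < r) : Ball (closedBall c r) (sphere c r) := by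
  have e : ∀ x : Rn n, ‖c + r • x - c‖ = r * ‖x‖ := fun x => by
    rw [add_sub_cancel_left, norm_smul, Real.norm_of_nonneg hr.le]
  refine ⟨_, lh_hom c hr.ne', PMod1_img (lh_hom c hr.ne') fun x => ?_,
    PMod1_img (lh_hom c hr.ne') fun x => ?_⟩
  · rw [mem_closedBall_zero_iff, mem_closedBall_iff_norm, e, mul_le_iff_le_one_right hr]
  · rw [mem_sphere_zero_iff_norm, mem_sphere_iff_norm, e, mul_eq_left₀ hr.ne']

theorem Len.symm {i : Fin n} {B D₁ D₂ J : Set (Rn n)} (h : Len i B D₁ D₂ J) :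
    Len i B D₂ D₁ J := by
  obtain ⟨Φ, h0, rfl, rfl, rfl, rfl⟩ := h
  have t : TP fun x : Rn n => update x i (-x i) := TP.pi fun j => by
    by_cases e : j = i
    · subst e
      simpa using (TP.id'.apply j).neg
    · simpa [update_of_ne e] using TP.id'.apply j
  have v : LeftInverse (fun x : Rn n => update x i (-x i)) fun x => update x i (-x i) :=
    fun x => by simp
  have k : LH fun x : Rn n => update x i (-x i) := pa2_of_inv t t v v
  have o : ∀ x : Rn n, oN i (update x i (-x i)) = oN i x := fun x => by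
    simp [oN, PMod1_hz]
  refine ⟨Φ ∘ fun x => update x i (-x i), h0.comp k, ?_, ?_, ?_, ?_⟩ <;> rw [image_comp] <;>
    congr 1 <;> refine PMod1_img k fun x => ?_
  · simp [oct, o]
  · simp [capU, capL, o]
  · simp [capU, capL, o]
  · simp only [eqt, mem_ofPred_eq, norm_eq_hz i (update x i (-x i)), norm_eq_hz i x, PMod1_hz,
      update_self, abs_neg, neg_eq_zero]

theorem Len.inter {i : Fin n} {B D₁ D₂ J : Set (Rn n)} (h : Len i B D₁ D₂ J) : D₁ ∩ D₂ = J := by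
  obtain ⟨Φ, h0, rfl, rfl, rfl, rfl⟩ := h
  rw [← image_inter h0.inj]
  congr 1
  ext x
  have := norm_nonneg (hz i x)
  simp only [capU, capL, eqt, oN, mem_inter_iff, mem_ofPred_eq, norm_eq_hz i x]
  constructor
  · rintro ⟨⟨h1, h2⟩, -, h3⟩
    have e := le_antisymm h3 h2
    rw [e, abs_zero] at h1 ⊢
    exact ⟨by rw [max_eq_left this]; linarith, rfl⟩
  · rintro ⟨h1, e⟩
    rw [e, abs_zero, max_eq_left this] at h1
    rw [e, abs_zero, h1, add_zero]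
    exact ⟨⟨rfl, le_rfl⟩, rfl, le_rfl⟩

/-- Two lenses are equivalent. -/
theorem Len.equiv {i : Fin n} {B D₁ D₂ J B' D₁' D₂' J' : Set (Rn n)} (h : Len i B D₁ D₂ J)
    (h' : Len i B' D₁' D₂' J') :
    ∃ Θ, LH Θ ∧ Θ '' B = B' ∧ Θ '' D₁ = D₁' ∧ Θ '' D₂ = D₂' ∧ Θ '' J = J' := by
  obtain ⟨Φ, h0, rfl, rfl, rfl, rfl⟩ := h
  obtain ⟨Ψ, k0, rfl, rfl, rfl, rfl⟩ := h'
  refine ⟨Ψ ∘ invFun Φ, k0.comp h0.inv, ?_, ?_, ?_, ?_⟩ <;> rw [image_comp, h0.inv_image]

/-- width at height `t` -/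
def PMod1_s (t : ℝ) : ℝ := max 0 (min 1 ((1 + t) / 2))

/-- radial profile of the horizontal map -/
def PMod1_G (t a : ℝ) : ℝ := a / 2 + min a (PMod1_s t) / 2

/-- the horizontal map -/
def PMod1_H (i : Fin n) (x : Rn n) : Rn n := fun j =>
  if j = i then x i else x j / 2 + clamp (x j) (PMod1_s (x i)) / 2

/-- the vertical map -/
def PMod1_psi (b t : ℝ) : ℝ :=
  max 0 (1 - b) - ((1 - t) / 2 + min (max (1 - t) 0) (max (2 * max 0 (1 - b) - 1) 0))

theorem PMod1_lhH (i : Fin n) : LH (PMod1_H i) := by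
  have a : ∀ j, TP fun x : Rn n => x j := fun j => TP.id'.apply j
  have s : TP fun x : Rn n => PMod1_s (x i) :=
    (TP.const 0).max ((TP.const 1).min (((TP.const 1).add (a i)).div_const 2))
  refine lh_tri (TP.pi fun j => ?_) {i}ᶜ (c := 1 / 2) (by norm_num) (fun x j hj => ?_)
    fun x y h j hj k => ?_
  · by_cases e : j = i
    · simpa [PMod1_H, e] using a i
    · simpa only [PMod1_H, if_neg e] using ((a j).div_const 2).add (((a j).clamp s).div_const 2)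
  · obtain rfl : j = i := by simpa using hj
    simp [PMod1_H]
  · have e : j ≠ i := hj
    have : clamp (y j) (PMod1_s (y i)) ≤ clamp (x j) (PMod1_s (y i)) :=
      max_le_max le_rfl (min_le_min k le_rfl)
    simp only [PMod1_H, if_neg e, h i (by simp)]
    linarith

theorem PMod1_lhV (i : Fin n) :
    LH fun y : Rn n => update y i (PMod1_psi ‖hz i y‖ (y i)) := by
  have a : TP fun x : Rn n => 1 - x i := (TP.const 1).sub (TP.id'.apply i)
  have r : TP fun x : Rn n => max 0 (1 - ‖hz i x‖) :=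
    (TP.const 0).max ((TP.const 1).sub (tp_hz i).norm_pi)
  refine lh_vert i (r.sub ((a.div_const 2).add ((a.max (TP.const 0)).min
    (((r.const_mul 2).sub (TP.const 1)).max (TP.const 0))))) (c := 1 / 2) (by norm_num)
    fun x a b h => ?_
  have : min (max (1 - b) 0) (max (2 * max 0 (1 - ‖hz i x‖) - 1) 0) ≤
      min (max (1 - a) 0) (max (2 * max 0 (1 - ‖hz i x‖) - 1) 0) :=
    min_le_min (max_le_max (by linarith) le_rfl) le_rfl
  simp only [PMod1_hz, update_self, PMod1_psi]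
  linarith

theorem PMod1_abs {s : ℝ} (hs : 0 ≤ s) (u : ℝ) :
    |u / 2 + clamp u s / 2| = |u| / 2 + min |u| s / 2 := by
  unfold clamp
  rcases le_total 0 u with h | h
  · have : 0 ≤ min u s := le_min h hs
    rw [abs_of_nonneg h, max_eq_right (by linarith), abs_of_nonneg (by linarith)]
  · have : max (-s) u ≤ 0 := max_le (by linarith) h
    rw [abs_of_nonpos h, min_eq_left (h.trans hs), abs_of_nonpos (by linarith), ← neg_neg s,
      min_neg_neg, neg_neg, max_comm]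
    ring

theorem PMod1_nH (i : Fin n) (x : Rn n) : ‖hz i (PMod1_H i x)‖ = PMod1_G (x i) ‖hz i x‖ := by
  have s0 : 0 ≤ PMod1_s (x i) := le_max_left _ _
  have e : ∀ j, ‖hz i (PMod1_H i x) j‖ = PMod1_G (x i) ‖hz i x j‖ := fun j => by
    by_cases e : j = i
    · simp [hz, e, PMod1_G, s0]
    · simp only [hz, update_of_ne e, PMod1_H, if_neg e, Real.norm_eq_abs]
      exact PMod1_abs s0 _
  have mono : ∀ a b, a ≤ b → PMod1_G (x i) a ≤ PMod1_G (x i) b := fun a b h => by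
    have := min_le_min h (le_refl (PMod1_s (x i)))
    unfold PMod1_G
    linarith
  have : Nonempty (Fin n) := ⟨i⟩
  obtain ⟨j, hj⟩ := Finite.exists_max fun j => ‖hz i x j‖
  have e2 : ‖hz i x‖ = ‖hz i x j‖ :=
    le_antisymm ((pi_norm_le_iff_of_nonneg (norm_nonneg _)).2 hj) (norm_le_pi_norm _ j)
  rw [e2, ← e]
  exact le_antisymm ((pi_norm_le_iff_of_nonneg (norm_nonneg _)).2 fun l => by
    rw [e, e]; exact mono _ _ (hj l)) (norm_le_pi_norm _ j)

theorem PMod1_hor {a t : ℝ} (h1 : -1 ≤ t) (h2 : t ≤ 1) :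
    (a ≤ 1 ↔ 4 * PMod1_G t a - 3 ≤ t) ∧ (a = 1 ↔ t = 4 * PMod1_G t a - 3) := by
  unfold PMod1_G PMod1_s
  rw [min_eq_right (by linarith : (1 + t) / 2 ≤ 1), max_eq_right (by linarith : 0 ≤ (1 + t) / 2)]
  rcases le_total a ((1 + t) / 2) with h | h
  · rw [min_eq_left h]
    refine ⟨⟨fun _ => ?_, fun _ => ?_⟩, fun _ => ?_, fun _ => ?_⟩ <;> linarith
  · rw [min_eq_right h]
    refine ⟨⟨fun _ => ?_, fun _ => ?_⟩, fun _ => ?_, fun _ => ?_⟩ <;> linarith

theorem PMod1_ver {b : ℝ} (h0 : 0 ≤ b) (t : ℝ) :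
    (b + |PMod1_psi b t| ≤ 1 ↔ t ≤ 1 ∧ -1 ≤ t ∧ 4 * b - 3 ≤ t) ∧
    (b + |PMod1_psi b t| = 1 ∧ 0 ≤ PMod1_psi b t ↔ t = 1 ∧ 4 * b - 3 ≤ t) ∧
    (b + |PMod1_psi b t| = 1 ∧ PMod1_psi b t ≤ 0 ↔
      t ≤ 1 ∧ -1 ≤ t ∧ 4 * b - 3 ≤ t ∧ (t = -1 ∨ t = 4 * b - 3)) ∧
    (max b |PMod1_psi b t| = 1 ∧ PMod1_psi b t = 0 ↔ t = 1 ∧ t = 4 * b - 3) := by
  have k : (1 ≤ b ∧ PMod1_psi b t = -((1 - t) / 2)) ∨
      (b ≤ 1 ∧ (1 ≤ t ∨ 1 / 2 ≤ b) ∧ PMod1_psi b t = 1 - b - (1 - t) / 2) ∨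
      (t ≤ 1 ∧ 2 * b ≤ t ∧ PMod1_psi b t = 1 - b - 3 * (1 - t) / 2) ∨
      (b ≤ 1 / 2 ∧ t ≤ 2 * b ∧ PMod1_psi b t = b - (1 - t) / 2) := by
    unfold PMod1_psi
    rcases le_total 1 b with h | h
    · left
      rw [max_eq_left (by linarith : 1 - b ≤ 0), max_eq_right (by linarith : 2 * 0 - 1 ≤ (0 : ℝ)),
        min_eq_right (le_max_right _ _)]
      exact ⟨h, by ring⟩
    rw [max_eq_right (by linarith : 0 ≤ 1 - b)]
    right
    rcases le_total 1 t with h1 | h1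
    · left
      rw [max_eq_right (by linarith : 1 - t ≤ 0), min_eq_left (le_max_right _ _)]
      exact ⟨h, Or.inl h1, by ring⟩
    rcases le_total (1 / 2) b with h2 | h2
    · left
      rw [max_eq_right (by linarith : 2 * (1 - b) - 1 ≤ 0), min_eq_right (le_max_right _ _)]
      exact ⟨h, Or.inr h2, by ring⟩
    right
    rw [max_eq_left (by linarith : 0 ≤ 1 - t), max_eq_left (by linarith : 0 ≤ 2 * (1 - b) - 1)]
    rcases le_total (2 * b) t with h3 | h3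
    · left
      rw [min_eq_left (by linarith)]
      exact ⟨h1, h3, by ring⟩
    · right
      rw [min_eq_right (by linarith)]
      exact ⟨h2, h3, by ring⟩
  generalize PMod1_psi b t = p at k ⊢
  rcases k with k | k | k | k <;> refine ⟨?_, ?_, ?_, ?_⟩ <;> grind

theorem PMod1_real {a : ℝ} (h0 : 0 ≤ a) (t : ℝ) :
    (max a |t| ≤ 1 ↔ PMod1_G t a + |PMod1_psi (PMod1_G t a) t| ≤ 1) ∧
    (max a |t| = 1 ∧ t = 1 ↔
      PMod1_G t a + |PMod1_psi (PMod1_G t a) t| = 1 ∧ 0 ≤ PMod1_psi (PMod1_G t a) t) ∧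
    (max a |t| = 1 ∧ (t = -1 ∨ a = 1) ↔
      PMod1_G t a + |PMod1_psi (PMod1_G t a) t| = 1 ∧ PMod1_psi (PMod1_G t a) t ≤ 0) ∧
    (t = 1 ∧ a = 1 ↔
      max (PMod1_G t a) |PMod1_psi (PMod1_G t a) t| = 1 ∧ PMod1_psi (PMod1_G t a) t = 0) := by
  have b0 : 0 ≤ PMod1_G t a := by
    have : 0 ≤ min a (PMod1_s t) := le_min h0 (le_max_left _ _)
    unfold PMod1_G
    linarith
  obtain ⟨v1, v2, v3, v4⟩ := PMod1_ver b0 t
  rw [v1, v2, v3, v4]
  have k := PMod1_hor (a := a) (t := t)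
  generalize 4 * PMod1_G t a - 3 = c at k ⊢
  refine ⟨?_, ?_, ?_, ?_⟩ <;> grind

theorem len_cube (i : Fin n) : Len i (closedBall 0 1) {x | ‖x‖ = 1 ∧ x i = 1}
    {x | ‖x‖ = 1 ∧ (x i = -1 ∨ ‖hz i x‖ = 1)} {x | x i = 1 ∧ ‖hz i x‖ = 1} := by
  have e1 : ∀ x, ‖hz i (update (PMod1_H i x) i (PMod1_psi ‖hz i (PMod1_H i x)‖ (PMod1_H i x i)))‖ =
      PMod1_G (x i) ‖hz i x‖ := fun x => by rw [PMod1_hz, PMod1_nH]
  have e2 : ∀ x, update (PMod1_H i x) i (PMod1_psi ‖hz i (PMod1_H i x)‖ (PMod1_H i x i)) i =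
      PMod1_psi (PMod1_G (x i) ‖hz i x‖) (x i) := fun x => by
    rw [update_self, PMod1_nH]
    simp [PMod1_H]
  refine PMod1_len ((PMod1_lhV i).comp (PMod1_lhH i)) (fun x => ?_) (fun x => ?_) (fun x => ?_)
    fun x => ?_
  · simp only [oct, oN, mem_ofPred_eq, comp_apply, e1, e2, mem_closedBall_zero_iff, norm_eq_hz i x]
    exact (PMod1_real (norm_nonneg _) _).1
  · simp only [capU, oN, mem_ofPred_eq, comp_apply, e1, e2, norm_eq_hz i x]
    exact (PMod1_real (norm_nonneg _) _).2.1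
  · simp only [capL, oN, mem_ofPred_eq, comp_apply, e1, e2, norm_eq_hz i x]
    exact (PMod1_real (norm_nonneg _) _).2.2.1
  · simp only [eqt, mem_ofPred_eq, comp_apply]
    rw [norm_eq_hz i (update _ _ _), e1, e2]
    exact (PMod1_real (norm_nonneg _) _).2.2.2

theorem Len.ball {i : Fin n} {B D₁ D₂ J : Set (Rn n)} (h : Len i B D₁ D₂ J) :
    Ball B (D₁ ∪ D₂) := by
  obtain ⟨Θ, h0, h1, h2, h3, -⟩ := (len_cube i).equiv h
  refine ⟨Θ, h0, h1, ?_⟩
  rw [← h2, ← h3, ← image_union]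
  congr 1
  ext x
  simp only [mem_sphere_zero_iff_norm, mem_union, mem_ofPred_eq, norm_eq_hz i x]
  grind

theorem len_half (i : Fin n) : Len i {x ∈ oct i | 0 ≤ x i} (capU i) (flat i) (eqt i) := by
  have k : LH fun y : Rn n => update y i (2 * y i - max 0 (1 - ‖hz i y‖)) := by
    refine lh_vert i (((TP.id'.apply i).const_mul 2).sub
      ((TP.const 0).max ((TP.const 1).sub (tp_hz i).norm_pi))) one_pos fun x a b h => ?_
    simp only [PMod1_hz, update_self]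
    linarith
  refine PMod1_len k (fun x => ?_) (fun x => ?_) (fun x => ?_) fun x => ?_ <;>
    have := norm_nonneg (hz i x)
  · simp only [oct, oN, mem_ofPred_eq, PMod1_hz, update_self]
    grind
  · simp only [capU, oN, mem_ofPred_eq, PMod1_hz, update_self]
    grind
  · simp only [flat, capL, oN, mem_ofPred_eq, PMod1_hz, update_self, norm_eq_hz i x]
    grind
  · simp only [eqt, mem_ofPred_eq, update_self]
    rw [norm_eq_hz i x, norm_eq_hz i (update _ _ _), PMod1_hz, update_self]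
    grind

theorem Len.dsc {i : Fin n} {B D₁ D₂ J : Set (Rn n)} (h : Len i B D₁ D₂ J) : Dsc i D₂ J := by
  obtain ⟨Θ, h0, -, -, h3, h4⟩ := (len_half i).equiv h
  exact ⟨Θ, h0, h3, h4⟩

end BEp
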