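import Pool.Agent.Work.MP_f0515e_an.D3.PTop
import Pool.Agent.Work.MP_f0515e_an.D3.PGl
import Pool.Agent.Work.MP_f0515e_an.D3.PUp
import Pool.Agent.Work.MP_f0515e_an.D3.PMod1

/-! PL arcs and circles. Concatenation by `tp_ite`; sub-arcs by affine reparametrisation. `crc_glue`: for a `TP` loop
`β` on `[0,1]`, `t ↦ β (Int.fract t)` is Lipschitz (it is `∑` free: compare points in the same or in adjacent unit
intervals, or use `norm_sub_le_of_pieces`) and on a bounded set it is one of the finitely many `β (t - k)`, `pa_select`.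
`arc_bij`: a `TP` left inverse of `γ` on `[0,1]` (`tp_linv` through `Rn 1`) followed by `γ'`. `crc_bij`: split both circles,
`arc_bij` twice, `tp_glue`. `crc_sq`: four segments. `arc_uniq`: `crc_split` and the argument of `tarc_uniq` (or use it:
two arcs of the circle with the same ends which are both not the other one). `Arc.pc`: `PC.image` through `Rn 1`.
About 300 lines. -/

open Set Metric Filter Topology Function BEv
open scoped NNReal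

noncomputable section
namespace BEp

variable {n m : ℕ}

variable {A A' C C' D₁ D₂ : Set (Rn n)} {a b c x : Rn n}

theorem PArc_sub {γ : ℝ → Rn n} (h : TP γ) {s t : ℝ} (st : s ≠ t) (hi : InjOn γ (uIcc s t)) :
    Arc (γ '' uIcc s t) (γ s) (γ t) := by
  have e : (fun u : ℝ => s + u • (t - s)) '' Icc 0 1 = uIcc s t := by
    rw [← segment_eq_image', segment_eq_uIcc]
  refine ⟨fun u => γ (s + u • (t - s)), h.comp ((TP.const s).add (TP.id'.smul_const _)),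
    fun u hu v hv k => ?_, by simp, by simp, by rw [← e, image_image]⟩
  exact mul_right_cancel₀ (sub_ne_zero.2 st.symm)
    (add_left_cancel (hi (e ▸ mem_image_of_mem _ hu) (e ▸ mem_image_of_mem _ hv) k))

theorem PArc_range {γ : ℝ → Rn n} (h : ∀ s t, γ s = γ t ↔ ∃ k : ℤ, s - t = k) (s : ℝ) :
    range γ = γ '' Icc s (s + 1) := by
  refine (image_subset_range _ _).antisymm' ?_
  rintro _ ⟨t, rfl⟩
  refine ⟨s + Int.fract (t - s), ⟨le_add_of_nonneg_right (Int.fract_nonneg _),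
    add_le_add le_rfl (Int.fract_lt_one _).le⟩, ((h _ _).2 ⟨⌊t - s⌋, ?_⟩).symm⟩
  rw [← sub_sub, Int.self_sub_fract]

theorem PArc_pc {γ : ℝ → Rn n} (h : TP γ) : PC 1 (γ '' Icc 0 1) := by
  have k : PC 1 (closedBall (0 : Rn 1) 1) :=
    ⟨{⊤}, finite_singleton _, fun P _ => (Submodule.finrank_le _).trans (by simp),
      fun x _ => ⟨⊤, rfl, trivial⟩⟩
  refine (k.image isBounded_closedBall (h.comp (TP.id'.apply 0))).mono ?_
  rintro _ ⟨t, ht, rfl⟩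
  exact ⟨fun _ => t, by simpa using abs_le.2 ⟨by linarith [ht.1], ht.2⟩, rfl⟩

theorem PArc_cat {γ δ : ℝ → Rn n} (h : TP γ) (h' : TP δ) (e : γ 1 = δ 0) (i : InjOn γ (Icc 0 1))
    (i' : InjOn δ (Icc 0 1)) : ∃ β, TP β ∧ β 0 = γ 0 ∧ β 2 = δ 1 ∧
      β '' Icc 0 2 = γ '' Icc 0 1 ∪ δ '' Icc 0 1 ∧ ∀ S ⊆ Icc (0 : ℝ) 2, (∀ s ∈ Icc (0 : ℝ) 1,
        ∀ t ∈ Icc (0 : ℝ) 1, t + 1 ∈ S → γ s = δ t → s = t + 1) → InjOn β S := by
  let β := fun t : ℝ => if t - 1 ≤ 0 then γ t else δ (t - 1)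
  have e1 : ∀ t ≤ 1, β t = γ t := fun t k => if_pos (sub_nonpos.2 k)
  have e2 : ∀ t, 1 ≤ t → β t = δ (t - 1) := fun t k => by
    rcases k.eq_or_lt with rfl | k
    · rw [e1 1 le_rfl, sub_self, e]
    · exact if_neg (not_le.2 (sub_pos.2 k))
  refine ⟨β, tp_ite h (h'.comp (TP.id'.sub (TP.const 1))) (by fun_prop) fun t k => ?_,
    e1 0 zero_le_one, by rw [e2 2 one_le_two]; norm_num, ?_, fun S hS k => ?_⟩
  · rw [k, sub_eq_zero.1 k, e]
  · rw [← Icc_union_Icc_eq_Icc zero_le_one one_le_two, image_union, image_congr fun t k => e1 t k.2,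
      image_congr fun t k => e2 t k.1, ← image_image δ (· - 1), image_sub_const_Icc]
    norm_num
  · intro s hs t ht e
    wlog l : s ≤ t generalizing s t
    · exact (this ht hs e.symm (le_of_not_ge l)).symm
    have m : ∀ u ∈ S, 1 ≤ u → u - 1 ∈ Icc (0 : ℝ) 1 := fun u a b =>
      ⟨sub_nonneg.2 b, by linarith [(hS a).2]⟩
    rcases le_total t 1 with a | a
    · rw [e1 t a, e1 s (l.trans a)] at e
      exact i ⟨(hS hs).1, l.trans a⟩ ⟨(hS ht).1, a⟩ e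
    rcases le_total s 1 with b | b
    · rw [e2 t a, e1 s b] at e
      exact (k s ⟨(hS hs).1, b⟩ _ (m t ht a) (by rwa [sub_add_cancel]) e).trans (sub_add_cancel _ _)
    · rw [e2 t a, e2 s b] at e
      exact sub_left_injective (i' (m s hs b) (m t ht a) e)

theorem PArc_loop {β : ℝ → Rn n} (h : TP β) (e : β 0 = β 1) (i : InjOn β (Ico 0 1)) :
    Crc (β '' Icc 0 1) := by
  have m : ∀ t : ℝ, Int.fract t ∈ Ico (0 : ℝ) 1 := fun t => ⟨Int.fract_nonneg t, Int.fract_lt_one t⟩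
  refine ⟨fun t => β (Int.fract t), pa_select ?_ fun R => ?_,
    fun s t => (i.eq_iff (m s) (m t)).trans Int.fract_eq_fract, Subset.antisymm ?_ ?_⟩
  · obtain ⟨L, hL, hl⟩ := h.exists_bound
    have L0 : 0 ≤ L := zero_le_one.trans hL
    refine ⟨⟨L, L0⟩, LipschitzWith.of_dist_le_mul fun s t => ?_⟩
    wlog l : ⌊t⌋ ≤ ⌊s⌋ generalizing s t
    · rw [dist_comm, dist_comm s]
      exact this t s (le_of_not_ge l)
    rw [dist_eq_norm, dist_eq_norm]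
    change _ ≤ L * _
    rcases l.eq_or_lt with l | l
    · refine (hl _ _).trans_eq ?_
      rw [Int.fract, Int.fract, l, sub_sub_sub_cancel_right]
    · have h1 := hl (Int.fract s) 0
      have h2 := hl 1 (Int.fract t)
      rw [sub_zero, Real.norm_of_nonneg (m s).1] at h1
      rw [Real.norm_of_nonneg (sub_nonneg.2 (m t).2.le), ← e] at h2
      have h3 : (⌊t⌋ : ℝ) + 1 ≤ ⌊s⌋ := by exact_mod_cast l
      have h4 : Int.fract s + (1 - Int.fract t) ≤ ‖s - t‖ := by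
        refine le_trans ?_ (le_abs_self _)
        rw [Int.fract, Int.fract]
        linarith
      have h5 := mul_le_mul_of_nonneg_left h4 L0
      linarith [norm_sub_le_norm_sub_add_norm_sub (β (Int.fract s)) (β 0) (β (Int.fract t))]
  · refine ⟨(fun (k : ℤ) (t : ℝ) => β (t - k)) '' Icc ⌊-R⌋ ⌊R⌋, (finite_Icc _ _).image _, ?_,
      fun t ht => ⟨_, ⟨⌊t⌋, ?_, rfl⟩, rfl⟩⟩
    · rintro _ ⟨k, -, rfl⟩
      exact h.comp (TP.id'.sub (TP.const _))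
    · have := abs_le.1 (mem_closedBall_zero_iff.1 ht)
      exact ⟨Int.floor_mono this.1, Int.floor_mono this.2⟩
  · rintro _ ⟨t, rfl⟩
    exact mem_image_of_mem _ (Ico_subset_Icc_self (m t))
  · rintro _ ⟨t, ht, rfl⟩
    rcases ht.2.eq_or_lt with rfl | k
    · exact ⟨0, by simpa using e⟩
    · exact ⟨t, congrArg β (Int.fract_eq_self.2 ⟨ht.1, k⟩)⟩

theorem Arc.symm (h : Arc A a b) : Arc A b a := by
  obtain ⟨γ, h1, h2, rfl, rfl, rfl⟩ := h
  rw [← uIcc_of_ge zero_le_one] at h2 ⊢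
  exact PArc_sub h1 one_ne_zero h2

theorem Arc.poly (h : Arc A a b) : Poly A := by
  obtain ⟨γ, h1, -, -, -, rfl⟩ := h
  exact poly_real h1 0 1

theorem Crc.poly (h : Crc C) : Poly C := by
  obtain ⟨γ, h1, h2, rfl⟩ := h
  rw [PArc_range h2 0]
  exact poly_real h1 _ _

theorem Arc.pc (h : Arc A a b) : PC 1 A := by
  obtain ⟨γ, h1, -, -, -, rfl⟩ := h
  exact PArc_pc h1

theorem Crc.pc (h : Crc C) : PC 1 C := by
  obtain ⟨γ, h1, h2, rfl⟩ := h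
  rw [PArc_range h2 0, zero_add]
  exact PArc_pc h1

theorem Arc.image (h : Arc A a b) {g : Rn n → Rn m} (hg : TP g) (hi : InjOn g A) :
    Arc (g '' A) (g a) (g b) := by
  obtain ⟨γ, h1, h2, rfl, rfl, rfl⟩ := h
  exact ⟨fun t => g (γ t), hg.comp h1, hi.comp h2 (mapsTo_image _ _), rfl, rfl,
    (image_image _ _ _).symm⟩

theorem Crc.image (h : Crc C) {g : Rn n → Rn m} (hg : TP g) (hi : InjOn g C) : Crc (g '' C) := by
  obtain ⟨γ, h1, h2, rfl⟩ := h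
  exact ⟨fun t => g (γ t), hg.comp h1, fun s t => (hi.eq_iff ⟨s, rfl⟩ ⟨t, rfl⟩).trans (h2 s t),
    range_comp g γ⟩

theorem arc_seg (h : a ≠ b) : Arc (segment ℝ a b) a b :=
  ⟨fun t => a + t • (b - a), (TP.const a).add (TP.id'.smul_const _), fun _ _ _ _ e =>
    smul_left_injective ℝ (sub_ne_zero.2 h.symm) (add_left_cancel e), by simp, by simp,
    (segment_eq_image' ℝ a b).symm⟩

theorem Arc.split (h : Arc A a b) (hx : x ∈ A) (ha : x ≠ a) (hb : x ≠ b) :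
    ∃ A₁ A₂, Arc A₁ a x ∧ Arc A₂ x b ∧ A₁ ∪ A₂ = A ∧ A₁ ∩ A₂ = {x} := by
  obtain ⟨γ, h1, h2, rfl, rfl, rfl⟩ := h
  obtain ⟨t, ht, rfl⟩ := hx
  have s1 : Icc 0 t ⊆ Icc 0 1 := Icc_subset_Icc_right ht.2
  have s2 : Icc t 1 ⊆ Icc 0 1 := Icc_subset_Icc_left ht.1
  refine ⟨_, _, PArc_sub h1 (fun e => ha (by rw [e])) ?_, PArc_sub h1 (fun e => hb (by rw [e])) ?_,
    ?_, ?_⟩ <;> simp only [uIcc_of_le ht.1, uIcc_of_le ht.2]
  · exact h2.mono s1
  · exact h2.mono s2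
  · rw [← image_union, Icc_union_Icc_eq_Icc ht.1 ht.2]
  · rw [← h2.image_inter s1 s2, Icc_inter_Icc_eq_singleton ht.1 ht.2, image_singleton]

theorem arc_glue (h : Arc A a b) (h' : Arc A' b c) (hi : A ∩ A' = {b}) : Arc (A ∪ A') a c := by
  obtain ⟨γ, h1, h2, rfl, rfl, rfl⟩ := h
  obtain ⟨δ, k1, k2, e, rfl, rfl⟩ := h'
  obtain ⟨β, b1, b2, b3, b4, b5⟩ := PArc_cat h1 k1 e.symm h2 k2
  rw [← b2, ← b3, ← b4, ← uIcc_of_le zero_le_two]
  refine PArc_sub b1 two_ne_zero.symm (b5 _ (uIcc_of_le zero_le_two).le fun s hs t ht _ k => ?_)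
  have m : γ s = γ 1 := hi.le ⟨⟨s, hs, rfl⟩, t, ht, k.symm⟩
  rw [h2 hs (by simp) m, k2 ht (by simp) (k.symm.trans (m.trans e.symm)), zero_add]

theorem crc_glue (h : Arc A a b) (h' : Arc A' a b) (hi : A ∩ A' = {a, b}) : Crc (A ∪ A') := by
  obtain ⟨γ, h1, h2, rfl, rfl, rfl⟩ := h
  obtain ⟨δ, k1, k2, e, e', rfl⟩ := h'.symm
  obtain ⟨β, b1, b2, b3, b4, b5⟩ := PArc_cat h1 k1 e.symm h2 k2
  have i := b5 _ Ico_subset_Icc_self fun s hs t ht l k => by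
    rcases hi.le ⟨⟨s, hs, rfl⟩, t, ht, k.symm⟩ with m | m
    · rw [k2 ht (by simp) (k.symm.trans (m.trans e'.symm))] at l
      exact absurd l.2 (by norm_num)
    · rw [h2 hs (by simp) m, k2 ht (by simp) (k.symm.trans (Eq.trans m e.symm)), zero_add]
  have k := PArc_loop (b1.comp (TP.id'.const_mul 2)) (by rw [mul_zero, mul_one, b2, b3, e'])
    fun s hs t ht k => mul_left_cancel₀ two_ne_zero (i ⟨by linarith [hs.1], by linarith [hs.2]⟩
      ⟨by linarith [ht.1], by linarith [ht.2]⟩ k)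
  rwa [← image_image β (2 * ·), image_mul_left_Icc zero_le_two zero_le_one, mul_zero, mul_one,
    b4] at k

theorem crc_split (h : Crc C) (ha : a ∈ C) (hb : b ∈ C) (hab : a ≠ b) :
    ∃ A A', Arc A a b ∧ Arc A' a b ∧ A ∪ A' = C ∧ A ∩ A' = {a, b} := by
  obtain ⟨γ, h1, h2, rfl⟩ := h
  obtain ⟨s, rfl⟩ := ha
  rw [PArc_range h2 s] at hb ⊢
  obtain ⟨t, ht, rfl⟩ := hb
  have e : γ (s + 1) = γ s := (h2 _ _).2 ⟨1, by simp⟩
  have l1 : s < t := ht.1.lt_of_ne fun k => hab (by rw [k])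
  have l2 : t < s + 1 := ht.2.lt_of_ne fun k => hab (by rw [k, e])
  have i : ∀ p q : ℝ, q < p + 1 → InjOn γ (Icc p q) := fun p q l u hu v hv k => by
    obtain ⟨z, hz⟩ := (h2 u v).1 k
    have z1 : (z : ℝ) < 1 := by linarith [hu.2, hv.1]
    have z2 : (-1 : ℝ) < z := by linarith [hu.1, hv.2]
    norm_cast at z1 z2
    rwa [show z = 0 by omega, Int.cast_zero, sub_eq_zero] at hz
  have k1 := PArc_sub h1 l1.ne (uIcc_of_le ht.1 ▸ i _ _ l2)
  have k2 := PArc_sub h1 l2.ne' (uIcc_of_ge ht.2 ▸ i _ _ (add_lt_add_left l1 1))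
  rw [uIcc_of_le ht.1] at k1
  rw [uIcc_of_ge ht.2, e] at k2
  refine ⟨_, _, k1, k2, ?_, ?_⟩
  · rw [← image_union, Icc_union_Icc_eq_Icc ht.1 ht.2]
  · refine Subset.antisymm ?_ (pair_subset ⟨⟨s, ⟨le_rfl, ht.1⟩, rfl⟩, _, ⟨ht.2, le_rfl⟩, e⟩
      ⟨⟨t, ⟨ht.1, le_rfl⟩, rfl⟩, t, ⟨le_rfl, ht.2⟩, rfl⟩)
    rintro _ ⟨⟨u, hu, rfl⟩, v, hv, k⟩
    rcases hu.1.eq_or_lt with l | l
    · exact .inl (by rw [l])
    · have := i u (s + 1) (by linarith) ⟨hu.2.trans hv.1, hv.2⟩ ⟨le_rfl, hu.2.trans ht.2⟩ k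
      exact .inr (congrArg γ (hu.2.antisymm (this ▸ hv.1)))

theorem arc_uniq (h : Crc C) (c1 : IsClosed D₁) (c2 : IsClosed D₂) (hu : D₁ ∪ D₂ = C)
    (hi : D₁ ∩ D₂ = {a, b}) (hab : a ≠ b) (n1 : ¬ D₁ ⊆ {a, b}) (n2 : ¬ D₂ ⊆ {a, b}) :
    Arc D₁ a b := by
  have ma : a ∈ D₁ ∩ D₂ := hi.ge (.inl rfl)
  have mb : b ∈ D₁ ∩ D₂ := hi.ge (.inr rfl)
  obtain ⟨A, A', h1, h2, h3, h4⟩ := crc_split h (hu.le (.inl ma.1)) (hu.le (.inl mb.1)) hab
  have k : ∀ A, Arc A a b → A ⊆ C → A ⊆ D₁ ∨ A ⊆ D₂ := fun A hA s => by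
    have m : ∀ D, {a, b} ⊆ D → A \ {a, b} ⊆ D → A ⊆ D := fun D p q x hx =>
      (em (x ∈ ({a, b} : Set _))).elim (@p x) fun r => q ⟨hx, r⟩
    exact (isPreconnected_iff_subset_of_disjoint_closed.1 hA.tarc.conn_open _ _ c1 c2
      (fun x hx => hu.ge (s hx.1)) (by rw [hi, sdiff_inter_self])).imp
      (m _ (pair_subset ma.1 mb.1)) (m _ (pair_subset ma.2 mb.2))
  have l : ∀ A A', Arc A a b → A ∪ A' = C → A ⊆ D₁ → A' ⊆ D₂ → Arc D₁ a b := fun A A' p q r s => by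
    convert p
    exact r.antisymm' fun x hx => (q.ge (hu.le (.inl hx))).elim id fun t =>
      pair_subset p.tarc.left p.tarc.right (hi.le ⟨hx, s t⟩)
  rcases k A h1 (h3 ▸ subset_union_left) with p | p <;>
    rcases k A' h2 (h3 ▸ subset_union_right) with q | q
  · exact (n2 fun x hx => hi.le ⟨union_subset p q (h3.ge (hu.le (.inr hx))), hx⟩).elim
  · exact l A A' h1 h3 p q
  · exact l A' A h2 ((union_comm _ _).trans h3) q p
  · exact (n1 fun x hx => hi.le ⟨hx, union_subset p q (h3.ge (hu.le (.inl hx)))⟩).elim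

theorem arc_bij (h : Arc A a b) {A' : Set (Rn m)} {a' b' : Rn m} (h' : Arc A' a' b') :
    ∃ g : Rn n → Rn m, TP g ∧ BijOn g A A' ∧ g a = a' ∧ g b = b' := by
  obtain ⟨γ, h1, h2, rfl, rfl, rfl⟩ := h
  obtain ⟨δ, k1, k2, rfl, rfl, rfl⟩ := h'
  obtain ⟨f, f1, f2⟩ := (poly_real (γ := fun t (_ : Fin 1) => t) (TP.pi fun _ => TP.id') 0 1).ext
    (h1.comp (TP.id'.apply 0)) (by
      rintro _ ⟨s, hs, rfl⟩ _ ⟨t, ht, rfl⟩ e
      rw [h2 hs ht e]) (TP.id'.apply 0)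
  have e : ∀ t ∈ Icc (0 : ℝ) 1, δ (f (γ t)) = δ t := fun t ht => congrArg δ (f2 _ ⟨t, ht, rfl⟩)
  refine ⟨fun x => δ (f x), k1.comp f1, ⟨?_, ?_, ?_⟩, e 0 (by simp), e 1 (by simp)⟩
  · rintro _ ⟨t, ht, rfl⟩
    exact ⟨t, ht, (e t ht).symm⟩
  · rintro _ ⟨s, hs, rfl⟩ _ ⟨t, ht, rfl⟩ k
    rw [k2 hs ht ((e s hs).symm.trans (k.trans (e t ht)))]
  · rintro _ ⟨t, ht, rfl⟩
    exact ⟨_, ⟨t, ht, rfl⟩, e t ht⟩

theorem crc_bij (h : Crc C) {C' : Set (Rn m)} (h' : Crc C') :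
    ∃ g : Rn n → Rn m, TP g ∧ BijOn g C C' := by
  obtain ⟨a, ha, b, hb, hab⟩ := h.tcrc.infinite.nontrivial
  obtain ⟨a', ha', b', hb', hab'⟩ := h'.tcrc.infinite.nontrivial
  obtain ⟨A, B, h1, h2, rfl, h4⟩ := crc_split h ha hb hab
  obtain ⟨A', B', k1, k2, rfl, k4⟩ := crc_split h' ha' hb' hab'
  obtain ⟨f, f1, f2, f3, f4⟩ := arc_bij h1 k1
  obtain ⟨g, g1, g2, g3, g4⟩ := arc_bij h2 k2
  obtain ⟨k, t1, t2, t3⟩ := tp_glue h1.poly h2.poly f1 g1 (by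
    rw [h4]
    rintro _ (rfl | rfl)
    exacts [f3.trans g3.symm, f4.trans g4.symm])
  have b1 := f2.congr t2.symm
  have b2 := g2.congr t3.symm
  have m : ∀ x ∈ A, ∀ y ∈ B, k x = k y → x = y := fun x hx y hy e => by
    have l : ∀ c ∈ A, c ∈ B → k x = f c → x = y := fun c p q r =>
      (b1.injOn hx p (r.trans (t2 p).symm)).trans
        (b2.injOn hy q (e.symm.trans (r.trans (t2 p).symm))).symm
    rcases k4.le ⟨b1.mapsTo hx, e ▸ b2.mapsTo hy⟩ with r | r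
    exacts [l a h1.tarc.left h2.tarc.left (r.trans f3.symm),
      l b h1.tarc.right h2.tarc.right (Eq.trans r f4.symm)]
  refine ⟨k, t1, b1.union b2 ?_⟩
  rintro x (hx | hx) y (hy | hy) e
  exacts [b1.injOn hx hy e, m x hx y hy e, (m y hy x hx e.symm).symm, b2.injOn hx hy e]

theorem PArc_hz (x : Rn 2) : ‖hz 1 x‖ = |x 0| := by
  refine le_antisymm ((pi_norm_le_iff_of_nonneg (abs_nonneg _)).2 fun i => ?_)
    (norm_le_pi_norm (hz 1 x) 0)
  fin_cases i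
  exacts [le_rfl, norm_zero.trans_le (abs_nonneg _)]

theorem PArc_cap {ε : ℝ} (hε : ε * ε = 1) {S : Set (Rn 2)}
    (hS : ∀ x, x ∈ S ↔ |x 0| + ε * x 1 = 1 ∧ |x 0| ≤ 1) : Arc S ![-1, 0] ![1, 0] := by
  have k := PArc_sub (γ := fun t => ![t, ε * (1 - |t|)]) (s := -1) (t := 1) (TP.pi fun i => by
    fin_cases i
    exacts [TP.id', ((TP.const 1).sub TP.id'.abs).const_mul ε]) (by norm_num)
    fun s _ t _ e => congrFun e 0
  rw [uIcc_of_le (by norm_num), abs_neg, abs_one, sub_self, mul_zero] at k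
  convert k
  ext x
  rw [hS]
  refine ⟨fun a => ⟨x 0, abs_le.1 a.2, ?_⟩, ?_⟩
  · ext i
    fin_cases i
    · rfl
    · change ε * (1 - |x 0|) = x 1
      rw [← a.1, add_sub_cancel_left, ← mul_assoc, hε, one_mul]
  · rintro ⟨t, ht, rfl⟩
    refine ⟨?_, abs_le.2 ht⟩
    change |t| + ε * (ε * (1 - |t|)) = 1
    rw [← mul_assoc, hε, one_mul, add_sub_cancel]

theorem PArc_capU : Arc (capU (1 : Fin 2)) ![-1, 0] ![1, 0] := by
  refine PArc_cap (one_mul 1) fun x => ?_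
  change ‖hz 1 x‖ + |x 1| = 1 ∧ 0 ≤ x 1 ↔ _
  rw [PArc_hz, one_mul]
  refine ⟨fun a => ?_, fun a => ?_⟩
  · rw [abs_of_nonneg a.2] at a
    exact ⟨a.1, by linarith [a.1, a.2]⟩
  · have : 0 ≤ x 1 := by linarith [a.1, a.2]
    exact ⟨by rw [abs_of_nonneg this, a.1], this⟩

theorem PArc_capL : Arc (capL (1 : Fin 2)) ![-1, 0] ![1, 0] := by
  refine PArc_cap (ε := -1) (by norm_num) fun x => ?_
  change ‖hz 1 x‖ + |x 1| = 1 ∧ x 1 ≤ 0 ↔ _
  rw [PArc_hz, neg_one_mul]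
  refine ⟨fun a => ?_, fun a => ?_⟩
  · rw [abs_of_nonpos a.2] at a
    exact ⟨a.1, by linarith [a.1, a.2]⟩
  · have : x 1 ≤ 0 := by linarith [a.1, a.2]
    exact ⟨by rw [abs_of_nonpos this, a.1], this⟩

theorem PArc_eqt : eqt (1 : Fin 2) = {![-1, 0], ![1, 0]} := by
  ext x
  have e : x = ![x 0, x 1] := by
    ext i
    fin_cases i <;> rfl
  change ‖x‖ = 1 ∧ x 1 = 0 ↔ x = _ ∨ x = _
  rw [norm_eq_hz 1, PArc_hz]
  refine ⟨fun a => ?_, ?_⟩
  · have k := a.1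
    rw [a.2, abs_zero, max_eq_left (abs_nonneg _), abs_eq zero_le_one] at k
    rw [e, a.2]
    exact k.symm.imp (fun k => by rw [k]) fun k => by rw [k]
  · rintro (rfl | rfl) <;> simp

theorem PArc_ball {B J : Set (Rn 2)} (h : Ball B J) : Crc J := by
  obtain ⟨Φ, h1, -, rfl⟩ := h
  obtain ⟨Ψ, k1, -, k2, k3, -⟩ := len_cube (1 : Fin 2)
  have k := (crc_glue PArc_capU PArc_capL ((Len.inter ⟨id, LH.id', image_id _, image_id _,
    image_id _, image_id _⟩).trans PArc_eqt)).image k1.tp k1.inj.injOn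
  rw [image_union, k2, k3] at k
  refine Crc.image ?_ h1.tp h1.inj.injOn
  convert k
  ext x
  rw [mem_sphere_zero_iff_norm]
  refine ⟨fun a => ?_, fun a => a.elim (·.1) (·.1)⟩
  rcases max_choice ‖hz 1 x‖ |x 1| with b | b <;> rw [← norm_eq_hz, a] at b
  · exact .inr ⟨a, .inr b.symm⟩
  · exact ((abs_eq zero_le_one).1 b.symm).imp (⟨a, ·⟩) fun c => ⟨a, .inl c⟩

theorem crc_sq (c : Rn 2) {r : ℝ} (hr : 0 < r) : Crc (sphere c r) :=
  PArc_ball (ball_round c hr)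

theorem Ball.crc {B J : Set (Rn 2)} (h : Ball B J) : Crc J :=
  PArc_ball h

theorem arc_capU : Arc (capU (1 : Fin 2)) ![-1, 0] ![1, 0] :=
  PArc_capU

theorem arc_capL : Arc (capL (1 : Fin 2)) ![-1, 0] ![1, 0] :=
  PArc_capL

theorem eqt_two : eqt (1 : Fin 2) = {![-1, 0], ![1, 0]} :=
  PArc_eqt

theorem crc_lay {J : Set (Rn 2)} (t : ℝ) : Crc (lay J t) ↔ Crc J := by
  rw [lay_eq]
  refine ⟨fun h => ?_, fun h => h.image (TP.id'.mk3 (TP.const t)) fun y _ z _ e => ?_⟩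
  · have k := h.image tp_pj3 (by
      rintro _ ⟨y, -, rfl⟩ _ ⟨z, -, rfl⟩ e
      rw [pj3_mk3, pj3_mk3] at e
      rw [e])
    simpa only [image_image, pj3_mk3, image_id'] using k
  · simpa only [pj3_mk3] using congrArg pj3 e

theorem Len.crc {B D₁ D₂ J : Set (Rn 3)} (h : Len 2 B D₁ D₂ J) : Crc J := by
  obtain ⟨Φ, h1, -, -, -, rfl⟩ := h
  rw [eqt_eq]
  exact ((crc_lay 0).2 (crc_sq 0 one_pos)).image h1.tp h1.inj.injOn

theorem PCel.crc {D J : Set (Rn n)} (h : PDsc D J) : Crc J := by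
  obtain ⟨g, h1, h2, -, rfl⟩ := h
  exact (crc_sq 0 one_pos).image h1 (h2.mono sphere_subset_closedBall)

theorem Dsc.pdsc {D J : Set (Rn 3)} (h : Dsc 2 D J) : PDsc D J := by
  obtain ⟨Φ, h1, rfl, rfl⟩ := h
  rw [flat_eq, eqt_eq, lay_eq, lay_eq, image_image, image_image]
  refine ⟨_, h1.tp.comp (TP.id'.mk3 (TP.const 0)), fun y _ z _ e => ?_, rfl, rfl⟩
  simpa only [pj3_mk3] using congrArg pj3 (h1.inj e)

theorem Len.pdsc {B D₁ D₂ J : Set (Rn 3)} (h : Len 2 B D₁ D₂ J) : PDsc D₁ J :=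
  h.symm.dsc.pdsc

end BEp
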