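import Pool.Agent.Work.MP_f0515e_an.D3.PLift
import Pool.Agent.Work.MP_f0515e_an.D3.PArc
import Pool.Agent.Work.MP_f0515e_an.D3.PBall

/-! The lifting property for balls, cells, spheres and their complements.
Images of convex sets (`Lift.image`). `Sph.lift`: caps of a lens (`Len.pdsc`), `lift_union`, the equator is a circle.
`Ball.lift_out`: in the model deform radially onto the sphere (`lifts_deform`; for the open complement onto the sphere of radius two).
`TCrc.not_lift`: the parameter modulo one is a continuous function on the circle (compactness), `not_lifts`.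
`lifts_crc_of_miss`: cut the circle `UnitAddCircle` at the missed value (`AddCircle.equivIco`, continuous off the cut point).
About 200 lines. -/

open Set Metric Filter Topology Function BEv
open scoped NNReal

noncomputable section
namespace BEp

variable {n m : ℕ}

theorem plift2_homeo {X Y : Type} [MetricSpace X] [MetricSpace Y] {S : Set X} (h : Lift S)
    (e : X ≃ₜ Y) : Lift (e '' S) :=
  h.retract e.continuous.continuousOn (mapsTo_image e S) e.symm.continuous.continuousOn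
    (by rintro _ ⟨x, hx, rfl⟩; rwa [e.symm_apply_apply]) fun y _ => e.apply_symm_apply y

theorem PCel.lift {k : ℕ} {D J : Set (Rn n)} (h : PCel k D J) : Lift D := by
  obtain ⟨g, h1, h2, rfl, -⟩ := h
  exact (lift_convex (convex_closedBall 0 1)).image (isCompact_closedBall 0 1)
    h1.continuous.continuousOn h2

theorem Ball.lift {B S : Set (Rn n)} (h : Ball B S) : Lift B := by
  obtain ⟨e, rfl, -, -⟩ := pball_homeo h
  exact plift2_homeo (lift_convex (convex_closedBall 0 1)) e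

theorem Ball.lift_in {B S : Set (Rn n)} (h : Ball B S) : Lift (B \ S) := by
  obtain ⟨e, -, -, h3⟩ := pball_homeo h
  rw [← h3]
  exact plift2_homeo (lift_convex (convex_ball 0 1)) e

theorem TArc.lift {X : Type} [MetricSpace X] {A : Set X} {a b : X} (h : TArc A a b) : Lift A := by
  obtain ⟨γ, h1, h2, -, -, rfl⟩ := h
  exact (lift_convex (convex_Icc 0 1)).image isCompact_Icc h1.continuousOn h2

theorem Sph.lift {S : Set (Rn 3)} (h : Sph S) : Lift S := by
  obtain ⟨B, h⟩ := h
  obtain ⟨e, -, rfl, -⟩ := pball_homeo h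
  refine plift2_homeo ?_ e
  have hL := len_cube (2 : Fin 3)
  rw [← (ball_round 0 one_pos).frontier_eq, hL.ball.frontier_eq]
  refine lift_union hL.poly.1.isClosed hL.symm.poly.1.isClosed ?_ (PCel.lift hL.pdsc)
    (PCel.lift hL.symm.pdsc)
  rw [hL.inter]
  exact hL.crc.tcrc.conn.isPreconnected

theorem plift2_shell {I : Set ℝ} (hI : Convex ℝ I) (h0 : ∀ r ∈ I, 0 < r) {r : ℝ} (hr : r ∈ I) :
    Lift {x : Rn 3 | ‖x‖ ∈ I} := by
  intro φ hφ
  have key : ∀ t ∈ Icc (0 : ℝ) 1, ∀ x : Rn 3, ‖x‖ ∈ I →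
      ‖((1 - t) * r / ‖x‖ + t) • x‖ = (1 - t) * r + t * ‖x‖ := fun t ht x hx => by
    have a1 := h0 _ hx
    have a2 := h0 _ hr
    have a3 := sub_nonneg.2 ht.2
    have a4 := ht.1
    rw [norm_smul, Real.norm_of_nonneg (by positivity), add_mul, div_mul_cancel₀ _ a1.ne']
  refine lifts_deform (T := sphere 0 r)
    (H := fun z : ℝ × Rn 3 => ((1 - z.1) * r / ‖z.2‖ + z.1) • z.2) ?_ (fun z hz => ?_)
    (fun x _ => by simp) (fun x hx => ?_) hφ ?_
  · exact ((ContinuousOn.div (by fun_prop) (by fun_prop) fun z hz => (h0 _ hz.2).ne').add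
      continuousOn_fst).smul continuousOn_snd
  · show ‖_‖ ∈ I
    rw [key _ hz.1 _ hz.2]
    exact hI hr hz.2 (sub_nonneg.2 hz.1.2) hz.1.1 (sub_add_cancel _ _)
  · rw [mem_sphere_zero_iff_norm, key 0 ⟨le_rfl, zero_le_one⟩ x hx]
    ring
  · refine Sph.lift ⟨_, ball_round 0 (h0 r hr)⟩ φ (hφ.mono fun x hx => ?_)
    show ‖x‖ ∈ I
    rwa [mem_sphere_zero_iff_norm.1 hx]

theorem Ball.lift_out {B S : Set (Rn 3)} (h : Ball B S) : Lift Bᶜ := by
  obtain ⟨e, rfl, -, -⟩ := pball_homeo h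
  rw [← e.image_compl]
  refine plift2_homeo ?_ e
  have k : (closedBall (0 : Rn 3) 1)ᶜ = {x | ‖x‖ ∈ Ioi 1} := by ext x; simp
  rw [k]
  exact plift2_shell (r := 2) (convex_Ioi 1) (fun r hr => one_pos.trans hr) (by simp)

theorem Ball.lift_out' {B S : Set (Rn 3)} (h : Ball B S) : Lift (B \ S)ᶜ := by
  obtain ⟨e, -, -, h3⟩ := pball_homeo h
  rw [← h3, ← e.image_compl]
  refine plift2_homeo ?_ e
  have k : (ball (0 : Rn 3) 1)ᶜ = {x | ‖x‖ ∈ Ici 1} := by ext x; simp
  rw [k]
  exact plift2_shell (r := 1) (convex_Ici 1) (fun r hr => one_pos.trans_le hr) (by simp)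

theorem plift2_cont {A B X : Type} [TopologicalSpace A] [TopologicalSpace B] [T2Space B]
    [TopologicalSpace X] {K : Set A} (hK : IsCompact K) {π : A → B} (hπ : Continuous π)
    {f : B → X} (hG : Continuous (f ∘ π)) : ContinuousOn f (π '' K) := by
  refine continuousOn_iff_isClosed.2 fun T hT => ⟨π '' (K ∩ (f ∘ π) ⁻¹' T),
    ((hK.inter_right (hT.preimage hG)).image hπ).isClosed, Set.ext fun b => ⟨?_, ?_⟩⟩
  · rintro ⟨h, y, hy, rfl⟩
    exact ⟨⟨y, ⟨hy, h⟩, rfl⟩, y, hy, rfl⟩
  · rintro ⟨⟨y, hy, rfl⟩, h2⟩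
    exact ⟨hy.2, h2⟩

theorem TCrc.not_lift {X : Type} [MetricSpace X] {C : Set X} (h : TCrc C) : ¬ Lift C := by
  obtain ⟨γ, h1, h2, rfl⟩ := h
  intro hL
  have e : ∀ t : ℝ, ((invFun γ (γ t) : ℝ) : UnitAddCircle) = t := fun t => by
    obtain ⟨k, hk⟩ := (h2 _ _).1 (invFun_eq (f := γ) ⟨t, rfl⟩)
    rw [← sub_eq_zero, ← AddCircle.coe_sub, hk, AddCircle.coe_eq_zero_iff]
    exact ⟨k, by simp⟩
  have c : ContinuousOn (fun x => ((invFun γ x : ℝ) : UnitAddCircle)) (range γ) := by
    rw [← ptop_icc h2 0]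
    refine plift2_cont isCompact_Icc h1 ?_
    rw [show (fun x => ((invFun γ x : ℝ) : UnitAddCircle)) ∘ γ = (↑) from funext e]
    exact AddCircle.continuous_mk' 1
  exact not_lifts (φ := fun x => ((invFun γ x : ℝ) : UnitAddCircle)) h1.continuousOn
    (fun t _ => mem_range_self t) ((h2 0 1).2 ⟨-1, by simp⟩)
    continuousOn_id (fun t _ => (e t).symm) zero_ne_one (hL _ c)

theorem lifts_of_miss {X : Type} [TopologicalSpace X] {S : Set X} {φ : X → UnitAddCircle}
    (h : ContinuousOn φ S) {c : UnitAddCircle} (hc : ∀ x ∈ S, φ x ≠ c) : Lifts φ S := by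
  obtain ⟨a, rfl⟩ := QuotientAddGroup.mk_surjective c
  refine ⟨fun x => (AddCircle.equivIco 1 a (φ x) : ℝ), fun x hx => ?_,
    fun x _ => (AddCircle.equivIco 1 a).symm_apply_apply (φ x)⟩
  exact (continuous_subtype_val.continuousAt.comp
    (AddCircle.continuousAt_equivIco 1 a (hc x hx))).comp_continuousWithinAt (h x hx)

end BEp
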