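import Pool.Agent.Work.MP_f0515e_an.D3.POne

/-! Regular points and generic levels.
`reg_of_prod`: let `T = tc S x`, `G` from `tp_der1`; `T + ℝ v = T`, `G (ξ + s v) = G ξ + s`, and the link `L` of the level set is
`{ξ ∈ T | ‖ξ‖ = 1, G ξ = 0}`. For `a ∈ L` the curve `s ↦ N (v + s (a - v))`, `N` the normalisation, `s ∈ [0,1]`, is an arc in the link from
`N v` to `a`; arcs of different `a` meet only in `N v` (apply `ξ ↦ ξ - G ξ • v`), so `tcrc_no_triod` gives at most two points. If `L ⊆ {a}`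
every link point is a positive multiple of `α a + s v`, `α ≥ 0`, and `G` is injective on the link up to normalisation (use
`ξ ↦ G ξ / (|G ξ| + ‖ξ - G ξ • v‖)`), against `tcrc_not_line`. The points `x ± s v` give `up`, `dn`.
`gen_prod`: `adapted_tp` (through `Rn 1`, radius `R + 1`); bad values are the values of `h` on the faces where `h` is constant; else `v ∈ fdir`
with slope one, `face_prod`, and `x`, `x + s v` lie in the closed face of every nearby point. About 300 lines. -/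

open Set Metric Filter Topology Function BEv
open scoped NNReal

noncomputable section
namespace BEp

variable {n m : ℕ}

/-- The abstract cone statement: a cone `T` invariant under translation by `v`, with a homogeneous
function of slope one along `v`, whose unit sphere is a circle, has two unit vectors on the zero level. -/
theorem preg_cone {T : Set (Rn n)} {G : Rn n → ℝ} {v : Rn n} (hG : Continuous G)
    (hom : ∀ ξ (t : ℝ), 0 ≤ t → G (t • ξ) = t * G ξ) (sl : ∀ ξ (s : ℝ), G (ξ + s • v) = G ξ + s)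
    (cone : ∀ ξ ∈ T, ∀ t : ℝ, 0 < t → t • ξ ∈ T) (tr : ∀ ξ ∈ T, ∀ s : ℝ, ξ + s • v ∈ T)
    (hc : TCrc {ξ | ‖ξ‖ = 1 ∧ ξ ∈ T}) : {ξ | ‖ξ‖ = 1 ∧ ξ ∈ T ∧ G ξ = 0}.ncard = 2 := by
  have G0 : G 0 = 0 := by simpa using hom 0 0 le_rfl
  have nrm : ∀ w : Rn n, w ≠ 0 → ‖‖w‖⁻¹ • w‖ = 1 := fun w hw => by
    rw [norm_smul, norm_inv, norm_norm, inv_mul_cancel₀ (norm_ne_zero_iff.2 hw)]
  set L := {ξ | ‖ξ‖ = 1 ∧ ξ ∈ T ∧ G ξ = 0} with hL
  -- at least two points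
  have two : L.Nontrivial := by
    by_contra hn
    have ss : L.Subsingleton := not_nontrivial_iff.1 hn
    have key : ∀ ζ ∈ T, ∀ ζ' ∈ T, G ζ = 0 → G ζ' = 0 → ‖ζ‖ = ‖ζ'‖ → ζ = ζ' := by
      intro ζ h1 ζ' h2 g1 g2 e
      by_cases z : ζ = 0
      · rw [z, norm_zero] at e
        rw [z, norm_eq_zero.1 e.symm]
      · have z' : ζ' ≠ 0 := fun k => z (norm_eq_zero.1 (by rw [e, k, norm_zero]))
        have p : 0 < ‖ζ‖⁻¹ := inv_pos.2 (norm_pos_iff.2 z)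
        have p' : 0 < ‖ζ'‖⁻¹ := inv_pos.2 (norm_pos_iff.2 z')
        have := ss (x := ‖ζ‖⁻¹ • ζ) ⟨nrm ζ z, cone ζ h1 _ p, by rw [hom _ _ p.le, g1, mul_zero]⟩
          (y := ‖ζ'‖⁻¹ • ζ') ⟨nrm ζ' z', cone ζ' h2 _ p', by rw [hom _ _ p'.le, g2, mul_zero]⟩
        rw [← e] at this
        exact smul_right_injective _ p.ne' this
    let d : Rn n → ℝ := fun ξ => |G ξ| + ‖ξ + (-G ξ) • v‖
    have dc : Continuous d := by fun_prop
    have dp : ∀ ξ : Rn n, ‖ξ‖ = 1 → 0 < d ξ := fun ξ hξ => by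
      refine (add_nonneg (abs_nonneg _) (norm_nonneg _)).lt_of_ne fun e => ?_
      have e1 : |G ξ| = 0 := by linarith [abs_nonneg (G ξ), norm_nonneg (ξ + (-G ξ) • v)]
      have e2 : ‖ξ + (-G ξ) • v‖ = 0 := by linarith [abs_nonneg (G ξ), norm_nonneg (ξ + (-G ξ) • v)]
      rw [abs_eq_zero.1 e1, neg_zero, zero_smul, add_zero, hξ] at e2
      exact one_ne_zero e2
    refine tcrc_not_line hc (f := fun ξ => (d ξ)⁻¹ * G ξ)
      ((dc.continuousOn.inv₀ fun ξ hξ => (dp ξ hξ.1).ne').mul hG.continuousOn) ?_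
    intro ξ hξ η hη e
    have st : ∀ ξ : Rn n, ‖ξ‖ = 1 → ξ ∈ T → (d ξ)⁻¹ • (ξ + (-G ξ) • v) ∈ T ∧
        G ((d ξ)⁻¹ • (ξ + (-G ξ) • v)) = 0 ∧
        ‖(d ξ)⁻¹ • (ξ + (-G ξ) • v)‖ = 1 - |(d ξ)⁻¹ * G ξ| := fun ξ h1 h2 => by
      have p := inv_pos.2 (dp ξ h1)
      refine ⟨cone _ (tr ξ h2 _) _ p, by rw [hom _ _ p.le, sl, add_neg_cancel, mul_zero], ?_⟩
      rw [norm_smul, abs_mul, Real.norm_eq_abs, abs_of_pos p, eq_sub_iff_add_eq, ← mul_add, add_comm]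
      exact inv_mul_cancel₀ (dp ξ h1).ne'
    obtain ⟨a1, a2, a3⟩ := st ξ hξ.1 hξ.2
    obtain ⟨b1, b2, b3⟩ := st η hη.1 hη.2
    have e0 : (d ξ)⁻¹ * G ξ = (d η)⁻¹ * G η := e
    have e1 := key _ a1 _ b1 a2 b2 (by rw [a3, b3, e0])
    rw [smul_add, smul_add, smul_smul, smul_smul, mul_neg, mul_neg, e0, add_left_inj] at e1
    have e2 := congrArg norm e1
    rw [norm_smul, norm_smul, hξ.1, hη.1, mul_one, mul_one, Real.norm_eq_abs, Real.norm_eq_abs,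
      abs_of_pos (inv_pos.2 (dp ξ hξ.1)), abs_of_pos (inv_pos.2 (dp η hη.1))] at e2
    rw [e2] at e1
    exact smul_right_injective _ (inv_pos.2 (dp η hη.1)).ne' e1
  -- the arcs
  let w : Rn n → ℝ → Rn n := fun a s => s • a + (1 : ℝ) • v
  let γ : Rn n → ℝ → Rn n := fun a s => ‖w a s‖⁻¹ • w a s
  have gw : ∀ a ∈ L, ∀ s ∈ Icc (0 : ℝ) 1, G (w a s) = 1 := fun a ha s hs => by
    rw [sl, hom _ _ hs.1, ha.2.2, mul_zero, zero_add]
  have wn : ∀ a ∈ L, ∀ s ∈ Icc (0 : ℝ) 1, w a s ≠ 0 := fun a ha s hs e => by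
    have := gw a ha s hs
    rw [e, G0] at this
    exact zero_ne_one this
  have inj : ∀ a ∈ L, ∀ b ∈ L, ∀ s ∈ Icc (0 : ℝ) 1, ∀ t ∈ Icc (0 : ℝ) 1, γ a s = γ b t →
      s = t ∧ (s = 0 ∨ a = b) := fun a ha b hb s hs t ht e => by
    have p := inv_pos.2 (norm_pos_iff.2 (wn a ha s hs))
    have q := inv_pos.2 (norm_pos_iff.2 (wn b hb t ht))
    have e0 : ‖w a s‖⁻¹ • w a s = ‖w b t‖⁻¹ • w b t := e
    have e1 := congrArg G e0
    rw [hom _ _ p.le, hom _ _ q.le, gw a ha s hs, gw b hb t ht, mul_one, mul_one] at e1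
    rw [e1] at e0
    have e2 : s • a = t • b := add_right_cancel (smul_right_injective _ q.ne' e0)
    have e3 := congrArg norm e2
    rw [norm_smul, norm_smul, ha.1, hb.1, mul_one, mul_one, Real.norm_of_nonneg hs.1,
      Real.norm_of_nonneg ht.1] at e3
    subst e3
    exact ⟨rfl, (eq_or_ne s 0).imp_right fun k => smul_right_injective _ k e2⟩
  have z0 : ∀ a, γ a 0 = ‖v‖⁻¹ • v := fun a => by simp [γ, w]
  have arc : ∀ a ∈ L, TArc (γ a '' Icc 0 1) (‖v‖⁻¹ • v) (γ a 1) := fun a ha => by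
    have cw : Continuous (w a) := by fun_prop
    rw [← z0 a]
    exact ptop_mk zero_lt_one ((cw.norm.continuousOn.inv₀ fun s hs =>
      norm_ne_zero_iff.2 (wn a ha s hs)).smul cw.continuousOn)
      fun s hs t ht e => (inj a ha a ha s hs t ht e).1
  have sub : ∀ a ∈ L, γ a '' Icc 0 1 ⊆ {ξ | ‖ξ‖ = 1 ∧ ξ ∈ T} := by
    rintro a ha _ ⟨s, hs, rfl⟩
    refine ⟨nrm _ (wn a ha s hs), cone _ ?_ _ (inv_pos.2 (norm_pos_iff.2 (wn a ha s hs)))⟩
    rcases hs.1.eq_or_lt with rfl | k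
    · have cl := hc.compact.isClosed
      have hv : w a 0 ≠ 0 := wn a ha 0 hs
      have lim : Tendsto (γ a) (𝓝[>] 0) (𝓝 (γ a 0)) := by
        have cw : Continuous (w a) := by fun_prop
        exact (((cw.norm.continuousAt.inv₀ (norm_ne_zero_iff.2 hv)).smul
          cw.continuousAt).tendsto).mono_left nhdsWithin_le_nhds
      have mem : γ a 0 ∈ {ξ | ‖ξ‖ = 1 ∧ ξ ∈ T} := by
        refine cl.mem_of_tendsto lim ?_
        filter_upwards [Ioc_mem_nhdsGT (zero_lt_one (α := ℝ))] with s hs'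
        have hs2 : s ∈ Icc (0 : ℝ) 1 := ⟨hs'.1.le, hs'.2⟩
        exact ⟨nrm _ (wn a ha s hs2), cone _ (tr _ (cone a ha.2.1 s hs'.1) 1) _
          (inv_pos.2 (norm_pos_iff.2 (wn a ha s hs2)))⟩
      have := cone _ mem.2 _ (norm_pos_iff.2 hv)
      rwa [smul_inv_smul₀ (norm_ne_zero_iff.2 hv)] at this
    · exact tr _ (cone a ha.2.1 s k) 1
  have meet : ∀ a ∈ L, ∀ b ∈ L, a ≠ b → γ a '' Icc 0 1 ∩ γ b '' Icc 0 1 ⊆ {‖v‖⁻¹ • v} := by
    rintro a ha b hb hab _ ⟨⟨s, hs, rfl⟩, t, ht, e⟩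
    obtain ⟨-, k⟩ := inj a ha b hb s hs t ht e.symm
    rw [k.resolve_right hab]
    exact z0 a
  obtain ⟨a, ha, b, hb, hab⟩ := two
  refine ncard_eq_two.2 ⟨a, b, hab, Subset.antisymm (fun c hc' => by_contra fun k => ?_)
    (insert_subset ha (singleton_subset_iff.2 hb))⟩
  simp only [mem_insert_iff, mem_singleton_iff, not_or] at k
  exact tcrc_no_triod hc (arc a ha) (arc b hb) (arc c hc') (sub a ha) (sub b hb) (sub c hc')
    (meet a ha b hb hab) (meet a ha c hc' (Ne.symm k.1)) (meet b hb c hc' (Ne.symm k.2))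

theorem reg_of_prod {S : Set (Rn n)} (hS : Poly S) {x v : Rn n} (hx : x ∈ S) (hc : TCrc (lk S x))
    {h : Rn n → ℝ} (hh : TP h) (hp : ∀ᶠ p : Rn n × ℝ in 𝓝 (x, 0),
      (p.1 + p.2 • v ∈ S ↔ p.1 ∈ S) ∧ h (p.1 + p.2 • v) = h p.1 + p.2) : Rg S h x := by
  obtain ⟨G, hG, hom, ρ, hρ, loc⟩ := tp_der1 hh x
  have ray : ∀ (ξ : Rn n) (s : ℝ), ∀ᶠ t in 𝓝[>] (0 : ℝ),
      (x + t • (ξ + s • v) ∈ S ↔ x + t • ξ ∈ S) ∧ h (x + t • (ξ + s • v)) = h (x + t • ξ) + t * s := by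
    intro ξ s
    have k : Tendsto (fun t : ℝ => (x + t • ξ, t * s)) (𝓝[>] 0) (𝓝 (x, 0)) :=
      (Continuous.tendsto' (by fun_prop) 0 _ (by simp)).mono_left nhdsWithin_le_nhds
    filter_upwards [k.eventually hp] with t ht
    rwa [smul_add, smul_smul, ← add_assoc]
  have val : ∀ ξ : Rn n, ∀ᶠ t in 𝓝[>] (0 : ℝ), h (x + t • ξ) = h x + t * G ξ := fun ξ => by
    filter_upwards [YPLk_small ξ hρ, self_mem_nhdsWithin] with t h1 ht
    rw [loc _ h1, hom _ _ (le_of_lt ht)]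
  have sl : ∀ ξ (s : ℝ), G (ξ + s • v) = G ξ + s := fun ξ s => by
    obtain ⟨t, ⟨⟨h1, h2⟩, h3⟩, ht⟩ := ((((ray ξ s).and (val ξ)).and (val (ξ + s • v))).and
      self_mem_nhdsWithin).exists
    have ht' : 0 < t := ht
    have e := h1.2
    rw [h2, h3] at e
    exact mul_left_cancel₀ ht'.ne' (by linarith)
  have tr : ∀ ξ ∈ tc S x, ∀ s : ℝ, ξ + s • v ∈ tc S x := fun ξ hξ s => YPLk_tc.2 <| by
    filter_upwards [YPLk_tc.1 hξ, ray ξ s] with t h1 h2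
    exact h2.1.2 h1
  have e : lk {y ∈ S | h y = h x} x = {ξ | ‖ξ‖ = 1 ∧ ξ ∈ tc S x ∧ G ξ = 0} := by
    ext ξ
    refine and_congr_right fun _ => ⟨fun k => ⟨(YPLk_tc.1 k).mono fun t ht => ht.1, ?_⟩, fun k => ?_⟩
    · obtain ⟨t, ⟨h1, h2⟩, ht⟩ := (((YPLk_tc.1 k).and (val ξ)).and self_mem_nhdsWithin).exists
      have ht' : 0 < t := ht
      have e := h1.2
      rw [h2, add_eq_left, mul_eq_zero] at e
      exact e.resolve_left ht'.ne'
    · refine YPLk_tc.2 ?_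
      filter_upwards [YPLk_tc.1 k.1, val ξ] with t h1 h2
      exact ⟨h1, by rw [h2, k.2, mul_zero, add_zero]⟩
  have side : ∀ s : ℝ, ∀ᶠ t in 𝓝[>] (0 : ℝ), x + t • (s • v) ∈ S ∧ h (x + t • (s • v)) = h x + t * s :=
    fun s => (ray 0 s).mono fun t ht => by
      simp only [zero_add, smul_zero, add_zero] at ht
      exact ⟨ht.1.2 hx, ht.2⟩
  refine ⟨?_, mem_closure_of_tendsto (YPLk_ray x ((1 : ℝ) • v)) ?_,
    mem_closure_of_tendsto (YPLk_ray x ((-1 : ℝ) • v)) ?_⟩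
  · rw [e]
    exact preg_cone hG.continuous hom sl (fun ξ hξ t ht => YPLk_smul ht hξ) tr hc
  · filter_upwards [side 1, self_mem_nhdsWithin] with t h1 ht
    have ht' : 0 < t := ht
    exact ⟨h1.1, by rw [h1.2]; linarith⟩
  · filter_upwards [side (-1), self_mem_nhdsWithin] with t h1 ht
    have ht' : 0 < t := ht
    exact ⟨h1.1, by rw [h1.2]; linarith⟩

theorem preg_near {L : Set ((Rn n →L[ℝ] ℝ) × ℝ)} (hL : L.Finite) (x : Rn n) :
    ∀ᶠ y in 𝓝 x, x ∈ cface L y := by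
  refine (eventually_all_finite hL).2 fun A _ => ?_
  by_cases h : ev A x = 0
  · exact Eventually.of_forall fun _ => Or.inl h
  · exact (YPLk_sign ((St1_cont A).tendsto x) h).mono fun y k => Or.inr k.symm

theorem gen_prod {L : Set ((Rn n →L[ℝ] ℝ) × ℝ)} (hL : L.Finite) {h : Rn n → ℝ} (hh : TP h)
    (R : ℝ) : ∃ T : Set ℝ, T.Finite ∧ ∀ x, ‖x‖ ≤ R → h x ∉ T → ∃ v : Rn n,
      ∀ᶠ p : Rn n × ℝ in 𝓝 (x, 0),
        p.1 + p.2 • v ∈ face L p.1 ∧ h (p.1 + p.2 • v) = h p.1 + p.2 := by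
  obtain ⟨L', h1, h2, h3⟩ := adapted_tp hL (h := fun y (_ : Fin 1) => h y) (TP.pi fun _ => hh) (R + 1)
  refine ⟨⋃ F ∈ range (face L'), {t | h '' F = {t}}, (finite_faces h1).biUnion fun F _ =>
    Set.Subsingleton.finite fun s hs t ht => singleton_injective ((Eq.symm hs).trans ht),
    fun x hx hT => ?_⟩
  obtain ⟨y, hy, hne⟩ : ∃ y ∈ face L' x, h y ≠ h x := by
    by_contra! k
    refine hT (mem_biUnion (mem_range_self x) (Subset.antisymm ?_ ?_))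
    · rintro _ ⟨y, hy, rfl⟩
      exact k y hy
    · rintro _ rfl
      exact ⟨x, mem_face_self L' x, rfl⟩
  have ha : h y - h x ≠ 0 := sub_ne_zero.2 hne
  refine ⟨(h y - h x)⁻¹ • (y - x), ?_⟩
  have hv : (h y - h x)⁻¹ • (y - x) ∈ fdir L' x :=
    Submodule.smul_mem _ _ (sub_mem_fdir (face_sub_cface L' x hy))
  have f1 : Tendsto (Prod.fst : Rn n × ℝ → Rn n) (𝓝 (x, 0)) (𝓝 x) := continuous_fst.tendsto _
  filter_upwards [face_prod h1 hv, f1.eventually (preg_near h1 x),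
    f1.eventually (closedBall_mem_nhds x one_pos)] with p k1 k2 k3
  refine ⟨face_anti h2 _ k1, ?_⟩
  have hn : ‖p.1‖ ≤ R + 1 := by
    have := norm_add_le (p.1 - x) x
    rw [sub_add_cancel] at this
    linarith [mem_closedBall_iff_norm.1 k3]
  obtain ⟨A, hA⟩ := h3 p.1 hn
  have e1 := congrFun (hA _ (face_sub_cface _ _ k1)) 0
  have e2 := congrFun (hA _ (face_sub_cface _ _ (mem_face_self L' p.1))) 0
  have e3 := congrFun (hA _ k2) 0
  have e4 := congrFun (hA _ (cface_sub k2 (face_sub_cface _ _ hy))) 0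
  simp only [map_add, map_smul, map_sub, Pi.add_apply, Pi.smul_apply, Pi.sub_apply,
    smul_eq_mul] at e1 e2 e3 e4
  have e5 : A.1 y 0 - A.1 x 0 = h y - h x := by linarith
  rw [e1, e2, e5, inv_mul_cancel₀ ha]
  ring

theorem gen_level {S : Set (Rn n)} (hS : Surf S) {h : Rn n → ℝ} (hh : TP h) :
    {t | ∃ x ∈ S, h x = t ∧ ¬ Rg S h x}.Finite := by
  obtain ⟨L, hL, -, ad⟩ := exists_adapted finite_empty hS.poly
  obtain ⟨R, hR⟩ := hS.poly.1.isBounded.exists_norm_le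
  obtain ⟨T, hT, k⟩ := gen_prod hL hh R
  refine hT.subset ?_
  rintro _ ⟨x, hx, rfl, hr⟩
  by_contra hn
  obtain ⟨v, hv⟩ := k x (hR x hx) hn
  refine hr (reg_of_prod (v := v) hS.poly hx (hS.crc x hx) hh (hv.mono fun p hp => ⟨?_, hp.2⟩))
  exact ⟨fun m => ad _ m fun A hA => (hp.1 A hA).symm, fun m => ad _ m hp.1⟩

theorem level_crc {S : Set (Rn n)} (hS : Poly S) {h : Rn n → ℝ} (hh : TP h) {t : ℝ}
    (hr : ∀ x ∈ S, h x = t → Rg S h x) : ∃ 𝒞 : Set (Set (Rn n)), 𝒞.Finite ∧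
      ⋃₀ 𝒞 = {x ∈ S | h x = t} ∧ 𝒞.PairwiseDisjoint id ∧ ∀ C ∈ 𝒞, Crc C := by
  refine oneman_crc (poly_eq hS hh t) fun x hx => ?_
  have := (hr x hx.1 hx.2).two
  rwa [hx.2] at this

end BEp
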