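import Pool.Agent.Work.MP_f0515e_an.D3.PL6
import Pool.Agent.Work.MP_f0515e_an.D3.P2d
import Pool.Agent.Work.MP_f0515e_an.D3.PReg
import Pool.Agent.Work.MP_f0515e_an.D3.PLift2
import Pool.Agent.Work.MP_f0515e_an.D3.PCel1

/-! Alexander's theorem: definitions and small facts. The height is the coordinate `2`. -/

open Set Metric Filter Topology Function BEv
open scoped NNReal

noncomputable section
namespace BEp

/-- `S` is invariant in the direction `u` inside `N`. -/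
def Iv (S N : Set (Rn 3)) (u : Rn 3) : Prop :=
  ∀ y ∈ N, ∀ s : ℝ, y + s • u ∈ N → y ∈ S → y + s • u ∈ S

/-- Open half ball above (`ε = 1`) or below (`ε = -1`) the level of `x`. -/
def hb (ε : ℝ) (x : Rn 3) (ρ : ℝ) : Set (Rn 3) := {y | y ∈ ball x ρ ∧ 0 < ε * (y 2 - x 2)}

/-- Above and below the level of `x` the set `S` is a product near `x`. -/
def UD (S : Set (Rn 3)) (x : Rn 3) : Prop :=
  ∀ ε : ℝ, ε = 1 ∨ ε = -1 → ∃ (u : Rn 3) (ρ : ℝ), u 2 = 1 ∧ 0 < ρ ∧ Iv S (hb ε x ρ) u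

/-- Generic vertex: near `v` the set `S` is a product in a direction tangent to the side walls of
the cube with centre `v`. -/
def GV (S : Set (Rn 3)) (v : Rn 3) : Prop :=
  ∀ᶠ x in 𝓝[≠] v, x ∈ S → ∃ (u : Rn 3) (ρ : ℝ), u 2 = 1 ∧ 0 < ρ ∧ Iv S (ball x ρ) u ∧
    ∀ j, j ≠ 2 → |x j - v j| = ‖x - v‖ → u j = 0

/-- `S` is vertical off the levels in `T`. -/
def Vert (S : Set (Rn 3)) (T : Set ℝ) : Prop :=
  ∀ y a b, (∀ τ ∈ T, τ ∉ uIcc a b) → mk3 y a ∈ S → mk3 y b ∈ S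

/-- Consecutive levels. -/
def Gap (T : Set ℝ) (a b : ℝ) : Prop := a ∈ T ∧ b ∈ T ∧ a < b ∧ ∀ τ ∈ T, τ ≤ a ∨ b ≤ τ

/-- The walls: a middle height and a circle of the section. -/
def Wal (S : Set (Rn 3)) (T : Set ℝ) : Set (ℝ × Set (Rn 2)) :=
  {w | (∃ a b, Gap T a b ∧ w.1 = (a + b) / 2) ∧ Crc w.2 ∧ lay w.2 w.1 ⊆ S}

/-- Near `z` the curve `J` at level `t` cuts `S` into an upper piece `P` and a lower piece `M`. -/
structure Sid (S J : Set (Rn 3)) (t : ℝ) (P M : Set (Rn 3)) (z : Rn 3) : Prop where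
  loc : ∀ᶠ y in 𝓝 z, (y ∈ S ↔ y ∈ P ∪ M) ∧ (y ∈ J ↔ y ∈ P ∩ M) ∧
    (y ∈ S → t < y 2 → y ∈ P) ∧ (y ∈ S → y 2 < t → y ∈ M)
  clP : z ∈ closure (P \ J)
  clM : z ∈ closure (M \ J)

variable {S S' N N' : Set (Rn 3)} {u x : Rn 3}

theorem Iv.mono (h : Iv S N u) (hN : N' ⊆ N) : Iv S N' u :=
  fun y hy s hs => h y (hN hy) s (hN hs)

theorem Iv.congr (h : Iv S N u) (he : ∀ y ∈ N, y ∈ S ↔ y ∈ S') : Iv S' N u :=
  fun y hy s hs k => (he _ hs).1 (h y hy s hs ((he y hy).2 k))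

theorem hb_mono (ε : ℝ) (x : Rn 3) {ρ ρ' : ℝ} (h : ρ ≤ ρ') : hb ε x ρ ⊆ hb ε x ρ' :=
  fun _ hy => ⟨ball_subset_ball h hy.1, hy.2⟩

theorem UD.congr (h : UD S x) (he : ∀ᶠ y in 𝓝 x, y ∈ S ↔ y ∈ S') : UD S' x := fun ε hε => by
  obtain ⟨u, ρ, h1, h2, h3⟩ := h ε hε
  obtain ⟨r, hr, k⟩ := Metric.eventually_nhds_iff_ball.1 he
  exact ⟨u, min ρ r, h1, lt_min h2 hr, (h3.mono (hb_mono ε x (min_le_left _ _))).congr
    fun y hy => k y (ball_subset_ball (min_le_right _ _) hy.1)⟩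

theorem GV.congr (h : GV S x) (he : ∀ᶠ y in 𝓝 x, y ∈ S ↔ y ∈ S') : GV S' x := by
  filter_upwards [h, mem_nhdsWithin_of_mem_nhds he.eventually_nhds] with y h1 h2 hy
  obtain ⟨u, ρ, k1, k2, k3, k4⟩ := h1 (h2.self_of_nhds.2 hy)
  obtain ⟨r, hr, k⟩ := Metric.eventually_nhds_iff_ball.1 h2
  exact ⟨u, min ρ r, k1, lt_min k2 hr, (k3.mono (ball_subset_ball (min_le_left _ _))).congr
    fun y hy => k y (ball_subset_ball (min_le_right _ _) hy), k4⟩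

theorem mem_lay {A : Set (Rn 2)} {t : ℝ} {y : Rn 2} : mk3 y t ∈ lay A t ↔ y ∈ A := by
  simp [lay]

theorem tp_lay (t : ℝ) : TP fun y : Rn 2 => mk3 y t := TP.id'.mk3 (TP.const t)

theorem poly_lay {A : Set (Rn 2)} (h : Poly A) (t : ℝ) : Poly (lay A t) :=
  lay_eq A t ▸ h.image (tp_lay t)

theorem lay_mono {A B : Set (Rn 2)} (h : A ⊆ B) (t : ℝ) : lay A t ⊆ lay B t :=
  fun _ hx => ⟨h hx.1, hx.2⟩

end BEp
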