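import Pool.Agent.Work.MP_f0515e_an.D3.ADefs

/-! Generic coordinates.
`gen_bas`: `Subspace.biUnion_ne_univ_of_top_notMem` three times: `b₀` off all `P`; `b₁` off `span b₀` and off all
`P ⊔ span b₀` which are not `⊤`; `b₂` off `span (b₀, b₁)`. `N a = a 0 • b₀ + a 1 • b₁ + a 2 • b₂` is injective
(`LinearEquiv.ofInjectiveEndo`, `toContinuousLinearEquiv`). If `P ≤ span (b₀, b₁)` and `0 ≠ s b₀ + t b₁ ∈ P` then `t ≠ 0`, `b₁ ∈ P ⊔ span b₀ ≠ ⊤`.
`gen_one`: dimension at most one: `P ≤ span p`, `p 2 ≠ 0` unless `P = ⊥`; `w = c • (p 0, p 1 / η, p 2 / η ^ 2)`, for small `η` the last coordinate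
is strictly the largest, take `u = (w 2)⁻¹ • w`. Dimension two: `P = ker ℓ`, `α j = ℓ (e j)`, `α 0 ≠ 0`, for small `η`
`η |α 1| + η ^ 2 |α 2| < |α 0|`, so `|w 0| = ‖w‖` is impossible for `w ≠ 0`; take `u = (-η ^ 2 α 2 / α 0, 0, 1)`.
`gen_coords`: `exists_adapted`, `fdim_le`, `V` = image of the points with `fdir L x = ⊥` (their faces are points, `finite_faces`,
`sub_mem_fdir`); `face_prod`, transport by `M`, `iv_of_ev`. For `x` near `v` we have `v ∈ cface L x` (each `A ∈ L` with `ev A v ≠ 0` keeps its sign), so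
`x - v ∈ fdir L x`. About 220 lines. -/

open Set Metric Filter Topology Function BEv
open scoped NNReal

noncomputable section
namespace BEp

/-- A direction space in good position. -/
def GdP (P : Set (Rn 3)) : Prop :=
  ∀ w ∈ P, w ≠ 0 → ∃ u ∈ P, u 2 = 1 ∧ ∀ j, j ≠ 2 → |w j| = ‖w‖ → u j = 0

theorem AGen_off {𝒬 : Set (Submodule ℝ (Rn 3))} (hf : 𝒬.Finite) (h : ⊤ ∉ 𝒬) :
    ∃ b, ∀ P ∈ 𝒬, b ∉ P := by
  have k := Subspace.biUnion_ne_univ_of_top_notMem (s := hf.toFinset) (by simpa using h)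
  obtain ⟨b, hb⟩ := (ne_univ_iff_exists_notMem _).1 k
  exact ⟨b, fun P m e => hb (mem_iUnion₂.2 ⟨P, hf.mem_toFinset.2 m, e⟩)⟩

theorem AGen_span (a b : Rn 3) : Submodule.span ℝ {a, b} ≠ ⊤ := fun e => by
  classical
  have k := finrank_span_finset_le_card (R := ℝ) ({a, b} : Finset (Rn 3))
  rw [Set.finrank, Finset.coe_pair, e, finrank_top, Module.finrank_fin_fun] at k
  exact absurd (k.trans Finset.card_le_two) (by norm_num)

theorem AGen_mem {Q : Submodule ℝ (Rn 3)} {x b : Rn 3} {c : ℝ} (hx : x ∈ Q) (h : x + c • b ∈ Q)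
    (hb : b ∉ Q) : c = 0 :=
  by_contra fun hc => hb ((Q.smul_mem_iff hc).1 ((Q.add_mem_iff_right hx).1 h))

theorem AGen_cle (f : Rn 3 →ₗ[ℝ] Rn 3) (hf : ∀ a, f a = 0 → a = 0) :
    ∃ N : Rn 3 ≃L[ℝ] Rn 3, ∀ a, N a = f a :=
  ⟨(LinearEquiv.ofInjectiveEndo f ((injective_iff_map_eq_zero f).2 hf)).toContinuousLinearEquiv,
    fun _ => rfl⟩

theorem AGen_ext {a : Rn 3} (h0 : a 0 = 0) (h1 : a 1 = 0) (h2 : a 2 = 0) : a = 0 := by
  ext i
  fin_cases i
  exacts [h0, h1, h2]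

theorem gen_bas {𝒬 : Set (Submodule ℝ (Rn 3))} (hf : 𝒬.Finite) (h : ⊤ ∉ 𝒬) :
    ∃ N : Rn 3 ≃L[ℝ] Rn 3, ∀ P ∈ 𝒬, N ![1, 0, 0] ∉ P ∧
      ((∀ a, N a ∈ P → a 2 = 0) → ∀ a, N a ∈ P → a = 0) := by
  obtain ⟨b₀, h0⟩ := AGen_off (hf.insert ⊥) (by simpa using h)
  have s0 : b₀ ∈ Submodule.span ℝ {b₀} := Submodule.mem_span_singleton_self _
  obtain ⟨b₁, h1⟩ := AGen_off (𝒬 := (fun P => P ⊔ Submodule.span ℝ {b₀}) '' insert ⊥ 𝒬 \ {⊤})
    (((hf.insert ⊥).image _).subset sdiff_subset) fun k => k.2 rfl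
  obtain ⟨b₂, h2⟩ := AGen_off (finite_singleton _) (AGen_span b₀ b₁).symm
  replace h2 := h2 _ rfl
  have m0 : b₀ ∈ Submodule.span ℝ {b₀, b₁} := Submodule.subset_span (Or.inl rfl)
  have m1 : b₁ ∈ Submodule.span ℝ {b₀, b₁} := Submodule.subset_span (Or.inr rfl)
  have key : ∀ P ∈ insert ⊥ 𝒬, P ≤ Submodule.span ℝ {b₀, b₁} → ∀ a : Rn 3, a 2 = 0 →
      a 0 • b₀ + a 1 • b₁ + a 2 • b₂ ∈ P → a = 0 := fun P m le a e k => by
    rw [e, zero_smul, add_zero] at k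
    have e1 : a 1 = 0 := AGen_mem (Submodule.mem_sup_right (Submodule.smul_mem _ _ s0))
      (Submodule.mem_sup_left k) (h1 _ ⟨⟨P, m, rfl⟩, ne_top_of_le_ne_top (AGen_span b₀ b₁)
        (sup_le le ((Submodule.span_singleton_le_iff_mem _ _).2 m0))⟩)
    rw [e1, zero_smul, add_zero, ← zero_add (a 0 • b₀)] at k
    exact AGen_ext (AGen_mem P.zero_mem k (h0 P m)) e1 e
  have sp : ∀ a : Rn 3, a 0 • b₀ + a 1 • b₁ ∈ Submodule.span ℝ {b₀, b₁} := fun a =>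
    add_mem (Submodule.smul_mem _ _ m0) (Submodule.smul_mem _ _ m1)
  obtain ⟨N, hN⟩ := AGen_cle ((LinearMap.proj 0).smulRight b₀ + (LinearMap.proj 1).smulRight b₁ +
    (LinearMap.proj 2).smulRight b₂) fun a (e : a 0 • b₀ + a 1 • b₁ + a 2 • b₂ = 0) =>
      key ⊥ (Or.inl rfl) bot_le a (AGen_mem (sp a) (e ▸ Submodule.zero_mem _) h2) e
  replace hN : ∀ a, N a = a 0 • b₀ + a 1 • b₁ + a 2 • b₂ := hN
  refine ⟨N, fun P m => ⟨by simpa [hN] using h0 P (Or.inr m), fun k a e =>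
    key P (Or.inr m) (fun y hy => ?_) a (k a e) (hN a ▸ e)⟩⟩
  obtain ⟨c, rfl⟩ := N.surjective y
  rw [hN, k c hy, zero_smul, add_zero]
  exact sp c

theorem gen_one {P : Submodule ℝ (Rn 3)} (h : P ≠ ⊤) (h0 : ![1, 0, 0] ∉ P)
    (h2 : (∀ a ∈ P, a 2 = 0) → ∀ a ∈ P, a = 0) :
    ∀ᶠ η in 𝓝[>] (0 : ℝ), GdP {w | ![w 0, η * w 1, η ^ 2 * w 2] ∈ P} := by
  by_cases k : ∀ a ∈ P, a 2 = 0
  · filter_upwards [self_mem_nhdsWithin] with η (hη : 0 < η) w m ne
    have e := h2 k _ m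
    exact (ne (AGen_ext (congrFun e 0) ((mul_eq_zero.1 (congrFun e 1)).resolve_left hη.ne')
      ((mul_eq_zero.1 (congrFun e 2)).resolve_left (pow_pos hη 2).ne'))).elim
  obtain ⟨p, hp, p2, p1⟩ : ∃ p ∈ P, p 2 ≠ 0 ∧ (p 1 = 0 ∨ ∀ a ∈ P, a 1 * p 2 = a 2 * p 1) := by
    push Not at k
    obtain ⟨p, hp, p2⟩ := k
    by_cases q : ∀ a ∈ P, a 1 * p 2 = a 2 * p 1
    · exact ⟨p, hp, p2, Or.inr q⟩
    · push Not at q
      obtain ⟨a, ha, q⟩ := q
      refine ⟨a 1 • p - p 1 • a, sub_mem (P.smul_mem _ hp) (P.smul_mem _ ha), ?_, Or.inl ?_⟩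
      · simpa [sub_eq_zero, mul_comm] using q
      · simp [mul_comm]
  obtain ⟨f, f0, hf⟩ := P.exists_le_ker_of_notMem h0
  have ef : ∀ a ∈ P, a 0 * f ![1, 0, 0] + a 1 * f ![0, 1, 0] + a 2 * f ![0, 0, 1] = 0 := fun a m => by
    have e : a = a 0 • ![1, 0, 0] + a 1 • ![0, 1, 0] + a 2 • ![0, 0, 1] := by
      ext i
      fin_cases i <;> simp
    have := LinearMap.mem_ker.1 (hf m)
    rwa [e, map_add, map_add, map_smul, map_smul, map_smul] at this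
  have c1 : ∀ᶠ η in 𝓝 (0 : ℝ), η * |f ![0, 1, 0]| + η ^ 2 * |f ![0, 0, 1]| < |f ![1, 0, 0]| :=
    ContinuousAt.eventually_lt (by fun_prop) continuousAt_const (by simpa using f0)
  have c2 : ∀ᶠ η in 𝓝 (0 : ℝ), η * |p 1| < |p 2| :=
    ContinuousAt.eventually_lt (by fun_prop) continuousAt_const (by simpa using p2)
  filter_upwards [self_mem_nhdsWithin, mem_nhdsWithin_of_mem_nhds c1,
    mem_nhdsWithin_of_mem_nhds c2] with η (hη : 0 < η) c1 c2 w m ne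
  have n : 0 < ‖w‖ := norm_pos_iff.2 ne
  have b : ∀ i, |w i| ≤ ‖w‖ := fun i => norm_le_pi_norm w i
  refine ⟨![η ^ 2 * p 0 / p 2, η * p 1 / p 2, 1], ?_, rfl, fun j hj e => ?_⟩
  · convert P.smul_mem (η ^ 2 / p 2) hp using 1
    refine iff_of_eq (congrArg (· ∈ P) ?_)
    ext i
    fin_cases i <;> simp <;> field_simp
  · fin_cases j
    · exfalso
      have q : w 0 * f ![1, 0, 0] = -(η * w 1 * f ![0, 1, 0] + η ^ 2 * w 2 * f ![0, 0, 1]) := by
        have := ef _ m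
        simp only [Matrix.cons_val] at this
        linarith
      have q2 := (congrArg abs q).trans_le ((abs_neg _).trans_le (abs_add_le _ _))
      simp only [abs_mul, abs_pow, abs_of_pos hη] at q2
      rw [show |w 0| = ‖w‖ from e] at q2
      nlinarith [mul_le_mul_of_nonneg_left (b 1) (mul_nonneg hη.le (abs_nonneg (f ![0, 1, 0]))),
        mul_le_mul_of_nonneg_left (b 2) (mul_nonneg (sq_nonneg η) (abs_nonneg (f ![0, 0, 1]))),
        mul_lt_mul_of_pos_left c1 n]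
    · rcases p1 with p1 | p1
      · simp [p1]
      · exfalso
        have q : η * w 1 * p 2 = η ^ 2 * w 2 * p 1 := p1 _ m
        have q1 : w 1 * p 2 = η * w 2 * p 1 := mul_left_cancel₀ hη.ne' (by linarith)
        have q2 := congrArg abs q1
        simp only [abs_mul, abs_of_pos hη] at q2
        rw [show |w 1| = ‖w‖ from e] at q2
        nlinarith [mul_le_mul_of_nonneg_left (b 2) (mul_nonneg hη.le (abs_nonneg (p 1))),
          mul_lt_mul_of_pos_left c2 n]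
    · exact (hj rfl).elim

theorem gen_lin {𝒬 : Set (Submodule ℝ (Rn 3))} (hf : 𝒬.Finite) (h : ⊤ ∉ 𝒬) :
    ∃ N : Rn 3 ≃L[ℝ] Rn 3, ∀ P ∈ 𝒬, GdP {w | N w ∈ P} := by
  obtain ⟨N, hN⟩ := gen_bas hf h
  have k := (eventually_all_finite hf).2 fun P m => gen_one (P := P.comap N.toLinearMap)
    (fun e => (hN P m).1 (e.ge (Submodule.mem_top (x := ![1, 0, 0])))) (hN P m).1 (hN P m).2
  obtain ⟨η, k, hη⟩ := (k.and self_mem_nhdsWithin).exists
  replace hη : 0 < η := hη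
  obtain ⟨D, hD⟩ := AGen_cle
    { toFun := fun w => ![w 0, η * w 1, η ^ 2 * w 2]
      map_add' := fun a b => by ext i; fin_cases i <;> simp [mul_add]
      map_smul' := fun c a => by ext i; fin_cases i <;> simp [mul_left_comm] }
    fun w e => AGen_ext (congrFun e 0) ((mul_eq_zero.1 (congrFun e 1)).resolve_left hη.ne')
      ((mul_eq_zero.1 (congrFun e 2)).resolve_left (pow_pos hη 2).ne')
  refine ⟨D.trans N, fun P m => ?_⟩
  simp only [ContinuousLinearEquiv.trans_apply, hD]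
  exact k P m

theorem iv_of_ev {S : Set (Rn 3)} {x u : Rn 3} (hu : u 2 = 1)
    (h : ∀ᶠ p : Rn 3 × ℝ in 𝓝 (x, 0), p.1 ∈ S → p.1 + p.2 • u ∈ S) :
    ∃ ρ > 0, Iv S (ball x ρ) u := by
  obtain ⟨r, hr, k⟩ := Metric.eventually_nhds_iff.1 h
  refine ⟨r / 2, half_pos hr, fun y hy s hs => @k (y, s) ?_⟩
  have a := norm_le_pi_norm (s • u) 2
  have b := dist_triangle_right (y + s • u) y x
  rw [Pi.smul_apply, hu, smul_eq_mul, mul_one] at a
  rw [dist_self_add_left] at b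
  rw [mem_ball] at hy hs
  rw [Prod.dist_eq, max_lt_iff, dist_zero_right]
  exact ⟨by linarith, by linarith⟩

theorem AGen_near {L : Set ((Rn 3 →L[ℝ] ℝ) × ℝ)} (hL : L.Finite) (z : Rn 3) :
    ∀ᶠ y in 𝓝 z, z ∈ cface L y := by
  refine (eventually_all_finite hL).2 fun A _ => ?_
  by_cases h : ev A z = 0
  · exact Eventually.of_forall fun _ => Or.inl h
  · exact (YPLk_sign ((St1_cont A).tendsto z) h).mono fun _ k => Or.inr k.symm

theorem gen_coords {S : Set (Rn 3)} (hS : Poly S) (hp : PC 2 S) : ∃ Φ : Rn 3 → Rn 3, LH Φ ∧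
    ∃ V : Set (Rn 3), V.Finite ∧ ∀ x ∈ Φ '' S, GV (Φ '' S) x ∧ (x ∉ V → UD (Φ '' S) x) := by
  obtain ⟨L, hL, -, ad⟩ := exists_adapted finite_empty hS
  obtain ⟨N, hN⟩ := gen_lin (𝒬 := fdir L '' S) (((finite_faces hL).image
    fun F => fdir L (Classical.epsilon (· ∈ F))).subset (by
      rintro _ ⟨x, -, rfl⟩
      exact ⟨_, ⟨x, rfl⟩, fdir_eq (Classical.epsilon_spec (p := (· ∈ face L x))
        ⟨x, mem_face_self L x⟩)⟩)) (by
    rintro ⟨x, hx, e⟩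
    have := fdim_le hL hp (ad x hx)
    rw [fdim, e, finrank_top, Module.finrank_fin_fun] at this
    omega)
  have e : (fun x => N.symm x + 0) '' S = N ⁻¹' S := by
    simp only [add_zero]
    exact N.image_symm_eq_preimage S
  have key : ∀ x ∈ N ⁻¹' S, ∀ w, N w ∈ fdir L (N x) → w ≠ 0 → ∃ (u : Rn 3) (ρ : ℝ), u 2 = 1 ∧
      0 < ρ ∧ Iv (N ⁻¹' S) (ball x ρ) u ∧ ∀ j, j ≠ 2 → |w j| = ‖w‖ → u j = 0 := by
    intro x hx w m ne
    obtain ⟨u, mu, u2, k⟩ := hN _ ⟨_, hx, rfl⟩ w m ne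
    have c : Continuous fun p : Rn 3 × ℝ => (N p.1, p.2) := by fun_prop
    obtain ⟨ρ, hρ, i⟩ := iv_of_ev (S := N ⁻¹' S) u2
      (((c.tendsto (x, 0)).eventually (face_prod hL mu)).mono fun p q r => by
        rw [mem_preimage, map_add, map_smul]
        exact ad _ r q)
    exact ⟨u, ρ, u2, hρ, i, k⟩
  refine ⟨_, lh_aff N.symm 0, N ⁻¹' {x | fdir L x = ⊥}, Finite.preimage N.injective.injOn
    (Finite.of_injOn (mapsTo_range (face L) _) (fun x hx y _ k => ?_) (finite_faces hL)), ?_⟩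
  · have := sub_mem_fdir (face_sub_cface L x (k ▸ mem_face_self L y))
    rw [show fdir L x = ⊥ from hx, Submodule.mem_bot, sub_eq_zero] at this
    exact this.symm
  rw [e]
  refine fun v hv => ⟨?_, fun k ε _ => ?_⟩
  · filter_upwards [self_mem_nhdsWithin, mem_nhdsWithin_of_mem_nhds
      ((N.continuous.tendsto v).eventually (AGen_near hL (N v)))] with x ne c hx
    refine key x hx (x - v) ?_ (sub_ne_zero.2 ne)
    rw [map_sub, ← neg_sub]
    exact neg_mem (sub_mem_fdir c)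
  · obtain ⟨w, m, ne⟩ := Submodule.exists_mem_ne_zero_of_ne_bot k
    obtain ⟨w, rfl⟩ := N.surjective w
    obtain ⟨u, ρ, a, b, c, -⟩ := key v hv w m fun q => ne (by rw [q, map_zero])
    exact ⟨u, ρ, a, b, c.mono fun _ q => q.1⟩

end BEp
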