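import Pool.Agent.Work.MP_f0515e_an.D3.ADefs

/-! Local facts on surfaces, gaps and walls.
`germ_sub`: `Poly.tc_iff` for both, `tc_smul`. `lk_lev`: unfold. `flat_open`: `lk_congr`, the link lies in `eqt 2` (`eqt_eq`, `crc_lay`, `crc_sq`), `tcrc_sub`, `tc_iff`.
`surf_not_flat`: maximise `x 0` on `S`; near the maximiser no other level occurs; `flat_open`. `surf_sub`: `S'` is closed, and open in `S` by `tcrc_sub`, `germ_sub`.
`lk_arc`: `lk_congr`, `lk_union`, `lk_inter`, `tarc_uniq`; if `lk X₁ x ⊆ lk Y x` then `germ_sub` contradicts the closure condition.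
`lk_disc`: `lk_arc` with `X = lay (closedBall 0 R) t`, `X₂ = lay (closure (closedBall 0 R \ D)) t` (`poly_cl_diff`, `Ball.closure_in`, `Ball.closure_out`).
About 200 lines. -/

open Set Metric Filter Topology Function BEv
open scoped NNReal

noncomputable section
namespace BEp

variable {n : ℕ}

theorem germ_sub {X Y : Set (Rn n)} (hX : Poly X) (hY : Poly Y) {x : Rn n} (hx : x ∈ Y)
    (h : lk X x ⊆ lk Y x) : ∀ᶠ y in 𝓝 x, y ∈ X → y ∈ Y := by
  obtain ⟨ρ, hρ, k⟩ := hX.tc_iff x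
  obtain ⟨ρ', hρ', k'⟩ := hY.tc_iff x
  filter_upwards [closedBall_mem_nhds x hρ, closedBall_mem_nhds x hρ'] with y h1 h2 hy
  have h3 := (k _ (mem_closedBall_iff_norm.1 h1)).1 (by rwa [add_sub_cancel])
  rw [← add_sub_cancel x y, k' _ (mem_closedBall_iff_norm.1 h2)]
  rcases pfill_polar gauge_norm (y - x) with e | ⟨u, hu, s, hs, e⟩ <;> rw [e] at h3 ⊢
  · exact YPLk_tc.2 (Eventually.of_forall fun t => by simpa using hx)
  · exact (tc_smul hs).2 (h ⟨hu, (tc_smul hs).1 h3⟩).2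

theorem lk_lev {X : Set (Rn 3)} {x : Rn 3} (h : ∀ᶠ y in 𝓝 x, y ∈ X ↔ y 2 = x 2) :
    lk X x = eqt 2 := by
  rw [lk_congr (Y := {y | y 2 = x 2}) h]
  ext v
  refine and_congr_right fun _ =>
    ⟨fun h => ?_, fun h => YPLk_tc.2 (Eventually.of_forall fun t => ?_)⟩
  · obtain ⟨t, t1, t2⟩ := ((YPLk_tc.1 h).and self_mem_nhdsWithin).exists
    have t3 : x 2 + t * v 2 = x 2 := t1
    exact (mul_eq_zero.1 (add_eq_left.1 t3)).resolve_left (ne_of_gt t2)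
  · change x 2 + t * v 2 = x 2
    rw [h, mul_zero, add_zero]

theorem tcrc_eqt : TCrc (eqt (2 : Fin 3)) := by
  exact (pfill_idlen 2).crc.tcrc

theorem surf_sub {S S' : Set (Rn n)} (h : Surf S) (h' : Surf S') (hs : S' ⊆ S)
    (hc : IsPreconnected S) (hne : S'.Nonempty) : S' = S := by
  refine hs.antisymm fun x hx => not_not.1 fun hx' => ?_
  have k : ∀ z ∈ S', ∀ᶠ y in 𝓝 z, y ∈ S → y ∈ S' := fun z hz =>
    germ_sub h.poly h'.poly hz (tcrc_sub (h'.crc z hz) (h.crc z (hs hz)) (lk_mono hs z)).ge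
  obtain ⟨z, hz⟩ := hne
  obtain ⟨w, w1, w2, w3⟩ := hc {z | ∀ᶠ y in 𝓝 z, y ∈ S → y ∈ S'} S'ᶜ
    isOpen_setOfPred_eventually_nhds h'.poly.1.isClosed.isOpen_compl
    (fun y _ => (em (y ∈ S')).imp_left (k y)) ⟨z, hs hz, k z hz⟩
    ⟨x, hx, hx'⟩
  exact w3 (Eventually.self_of_nhds w2 w1)

theorem lk_arc {X X₁ X₂ Y : Set (Rn n)} {x a b : Rn n} (h1 : Poly X₁) (h2 : Poly X₂) (hY : Poly Y)
    (hx : x ∈ Y) (hc : TCrc (lk X x)) (hu : ∀ᶠ y in 𝓝 x, y ∈ X ↔ y ∈ X₁ ∪ X₂)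
    (hi : ∀ᶠ y in 𝓝 x, y ∈ Y ↔ y ∈ X₁ ∩ X₂) (e : lk Y x = {a, b}) (hab : a ≠ b)
    (c1 : x ∈ closure (X₁ \ Y)) (c2 : x ∈ closure (X₂ \ Y)) : TArc (lk X₁ x) a b := by
  have k : ∀ Z, Poly Z → x ∈ closure (Z \ Y) → ¬ lk Z x ⊆ {a, b} := fun Z hZ c s => by
    obtain ⟨y, y1, y2⟩ :=
      ((mem_closure_iff_frequently.1 c).and_eventually (germ_sub hZ hY hx (e ▸ s))).exists
    exact y1.2 (y2 y1.1)
  exact tarc_uniq hc (h1.lk x).1.isClosed (h2.lk x).1.isClosed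
    (by rw [lk_congr hu, lk_union h1 h2]) (by rw [← e, lk_congr hi, lk_inter]) hab (k _ h1 c1)
    (k _ h2 c2)

theorem lk_disc {D J : Set (Rn 2)} (h : Ball D J) {t : ℝ} {x : Rn 3} (hx : x ∈ lay J t) :
    ∃ a b, a ≠ b ∧ lk (lay J t) x = {a, b} ∧ TArc (lk (lay D t) x) a b ∧
      lk (lay D t) x ⊆ eqt 2 := by
  obtain ⟨a, b, hab, e⟩ :=
    ncard_eq_two.1 (tcrc_lk (poly_lay h.poly' t) ((crc_lay t).2 h.crc).tcrc hx)
  have l : lk {y : Rn 3 | y 2 = x 2} x = eqt 2 := lk_lev (Eventually.of_forall fun _ => Iff.rfl)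
  have nb : ∀ᶠ y in 𝓝 x, pj3 y ∈ ball (pj3 x) 1 :=
    tp_pj3.continuous.continuousAt.eventually (ball_mem_nhds _ one_pos)
  have cl : ∀ z ∈ ball (pj3 x) 1, z ∈ J → z ∈ closure (closedBall (pj3 x) 1 \ D) :=
    fun z z1 z2 => closure_mono (inter_subset_inter_left _ ball_subset_closedBall)
      (isOpen_ball.inter_closure ⟨z1, h.closure_out ▸ Or.inr z2⟩)
  have ex : mk3 (pj3 x) t = x := by rw [← hx.2, mk3_pj3]
  refine ⟨a, b, hab, e, lk_arc (X := {y | y 2 = x 2}) (poly_lay h.poly t)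
    (poly_lay (poly_cl_diff (Poly.closedBall (pj3 x) 1) h.poly) t) (poly_lay h.poly' t) hx
    (l ▸ tcrc_eqt) (nb.mono fun y hy => ⟨fun k => ?_, fun k => ?_⟩)
    (nb.mono fun y hy => ⟨fun k => ⟨⟨h.sub k.1, k.2⟩, cl _ hy k.1, k.2⟩, fun k => ⟨?_, k.1.2⟩⟩) e hab
    ?_ ?_, l ▸ lk_mono (fun y hy => hy.2.trans hx.2.symm) x⟩
  · exact (em (pj3 y ∈ D)).imp (fun m => ⟨m, Eq.trans k hx.2⟩) fun m =>
      ⟨subset_closure ⟨ball_subset_closedBall hy, m⟩, Eq.trans k hx.2⟩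
  · exact (k.elim And.right And.right).trans hx.2.symm
  · have m : pj3 y ∈ closure Dᶜ := closure_mono (fun _ => And.right) k.2.1
    rw [h.closure_out] at m
    exact m.resolve_left fun m => m k.1.1
  · have m := map_mem_closure (t := lay D t \ lay J t) (tp_lay t).continuous
      (h.closure_in.ge (h.sub hx.1)) fun z hz => ⟨mem_lay.2 hz.1, fun m => hz.2 (mem_lay.1 m)⟩
    rwa [ex] at m
  · have m := map_mem_closure (t := lay (closure (closedBall (pj3 x) 1 \ D)) t \ lay J t)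
      (tp_lay t).continuous (cl _ (mem_ball_self one_pos) hx.1)
      fun z hz => ⟨mem_lay.2 (subset_closure hz), fun m => hz.2 (h.sub (mem_lay.1 m))⟩
    rwa [ex] at m

variable {S : Set (Rn 3)} {T : Set ℝ} {x : Rn 3}

theorem flat_open (hS : Surf S) (hx : x ∈ S) (h : ∀ᶠ y in 𝓝 x, y ∈ S → y 2 = x 2) :
    ∀ᶠ y in 𝓝 x, y 2 = x 2 → y ∈ S := by
  have l : lk {y : Rn 3 | y 2 = x 2} x = eqt 2 := lk_lev (Eventually.of_forall fun _ => Iff.rfl)
  have e : lk S x = eqt 2 := tcrc_sub (hS.crc x hx) tcrc_eqt (by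
    rw [lk_congr (Y := S ∩ {y | y 2 = x 2}) (h.mono fun y hy => ⟨fun k => ⟨k, hy k⟩, And.left⟩), ← l]
    exact lk_mono inter_subset_right x)
  have nb := closedBall_mem_nhds x one_pos
  have e' : lk {y ∈ closedBall x 1 | y 2 = x 2} x = eqt 2 :=
    lk_lev (mem_of_superset nb fun y hy => and_iff_right hy)
  filter_upwards [nb, germ_sub (poly_eq (Poly.closedBall x 1) (TP.id'.apply 2) (x 2)) hS.poly hx
    (e'.trans e.symm).le] with y h1 h2 h3
  exact h2 ⟨h1, h3⟩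

theorem surf_not_flat (hS : Surf S) (hne : S.Nonempty) (hT : T.Finite) : ∃ x ∈ S, x 2 ∉ T := by
  by_contra! hc
  obtain ⟨x, hx, hm⟩ := hS.poly.1.exists_isMaxOn hne (continuous_apply 0).continuousOn
  have h1 : ∀ᶠ y : Rn 3 in 𝓝 x, y 2 ∈ (T \ {x 2})ᶜ := (continuous_apply 2).continuousAt.eventually
    ((hT.subset fun _ => And.left).isClosed.isOpen_compl.mem_nhds fun k => k.2 rfl)
  have h2 := flat_open hS hx (h1.mono fun y hy k => not_not.1 fun m => hy ⟨hc y k, m⟩)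
  obtain ⟨s, s1, s2⟩ := (((YPLk_ray x (Pi.single 0 1)).eventually h2).and self_mem_nhdsWithin).exists
  have h3 : (x + s • (Pi.single 0 1 : Rn 3)) 0 ≤ x 0 := hm (s1 (by simp))
  simp only [Pi.add_apply, Pi.smul_apply, Pi.single_eq_same, smul_eq_mul, mul_one] at h3
  linarith

end BEp
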