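import Pool.Agent.Work.MP_f0515e_an.D3.ADefs

/-! Thin slabs are made vertical.
`lp_pert`: onto by the fixed point theorem (`ContractingWith`) in each level, `LH.of_expanding` with a Lipschitz bound of `d`.
`pth l s` moves for the time `a` along `u` for each `(a, u)` of the list. `pth_iv`: induction on the list, cases `s' ≤ a`, `a ≤ s`, `s < a < s'`.
`slab`: cover the compact set `S ∩ {x 2 = t}` by finitely many `ball x (ρ / 4)`, bumps `φ y = max 0 (min 1 (2 - 4 ‖y - pj3 x‖ / ρ))`,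
`Γ (y, s) = pth [(φ y, ε • u)] s` is `TP`, `d x = η • pj3 (Γ (pj3 x, ε (x 2 - t) / η))` has Lipschitz constant `η L` in `pj3 x`. If the sum of the bumps at
`y` is at least one, `G (mk3 y (t + ε η s)) = mk3 y t + η • Γ (y, s)` for `s ∈ [0,1]`, use `pth_iv` with `N = hb ε (mk3 y t) ρ₀`; otherwise
`mk3 y t` is at distance at least `ρ₀` from `S`.
About 220 lines. -/

open Set Metric Filter Topology Function BEv
open scoped NNReal

noncomputable section
namespace BEp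

theorem ASl_sub (y z : Rn 2) (s t : ℝ) : mk3 y s - mk3 z t = mk3 (y - z) (s - t) := by
  ext i
  fin_cases i <;> rfl

theorem ASl_hor (y z : Rn 2) (s : ℝ) : ‖mk3 y s - mk3 z s‖ = ‖y - z‖ := by
  rw [ASl_sub, norm_mk3, sub_self, abs_zero, max_eq_left (norm_nonneg _)]

theorem ASl_ver (y : Rn 2) (s t : ℝ) : ‖mk3 y s - mk3 y t‖ = |s - t| := by
  rw [ASl_sub, norm_mk3, sub_self, norm_zero, max_eq_right (abs_nonneg _)]

theorem ASl_pj (x : Rn 3) : ‖pj3 x‖ ≤ ‖x‖ := by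
  conv_rhs => rw [← mk3_pj3 x, norm_mk3]
  exact le_max_left _ _

theorem lp_pert {d : Rn 3 → Rn 2} (hd : TP d)
    (h : ∀ y y' s, ‖d (mk3 y s) - d (mk3 y' s)‖ ≤ 1 / 2 * ‖y - y'‖) :
    LP fun x => mk3 (pj3 x + d x) (x 2) := by
  obtain ⟨L, hL, hd'⟩ := hd.exists_bound
  refine ⟨LH.of_expanding ((tp_pj3.add hd).mk3 (TP.id'.apply 2)) (fun z => ?_)
    (c := (2 + 2 * L)⁻¹) (by positivity) fun x x' => ?_, fun _ => rfl⟩
  · have hc : ContractingWith (1 / 2) fun y => pj3 z - d (mk3 y (z 2)) :=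
      ⟨by norm_num, LipschitzWith.of_dist_le_mul fun y y' => by
        rw [dist_sub_left, dist_eq_norm, dist_eq_norm]
        simpa using h y y' (z 2)⟩
    have e : pj3 z - d (mk3 (hc.fixedPoint _) (z 2)) = hc.fixedPoint _ := hc.fixedPoint_isFixedPt
    refine ⟨mk3 (hc.fixedPoint _) (z 2), ?_⟩
    simp only [pj3_mk3, mk3_2]
    rw [← sub_eq_iff_eq_add.1 e, mk3_pj3]
  · rw [inv_mul_le_iff₀ (by positivity), ASl_sub, norm_mk3]
    conv_lhs => rw [← mk3_pj3 x, ← mk3_pj3 x', ASl_sub, norm_mk3]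
    have h1 := h (pj3 x) (pj3 x') (x 2)
    have h2 := hd' (mk3 (pj3 x') (x 2)) (mk3 (pj3 x') (x' 2))
    rw [ASl_ver, mk3_pj3] at h2
    rw [mk3_pj3] at h1
    have h3 := norm_sub_le (pj3 x + d x - (pj3 x' + d x')) (d x - d x')
    rw [show pj3 x + d x - (pj3 x' + d x') - (d x - d x') = pj3 x - pj3 x' by abel] at h3
    have h4 := norm_sub_le_norm_sub_add_norm_sub (d x) (d (mk3 (pj3 x') (x 2))) (d x')
    have h5 := le_max_left ‖pj3 x + d x - (pj3 x' + d x')‖ |x 2 - x' 2|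
    have h6 := le_max_right ‖pj3 x + d x - (pj3 x' + d x')‖ |x 2 - x' 2|
    have h7 := mul_le_mul_of_nonneg_left h6 (zero_le_one.trans hL)
    have h8 := mul_nonneg (zero_le_one.trans hL) (abs_nonneg (x 2 - x' 2))
    have h9 := abs_nonneg (x 2 - x' 2)
    exact max_le (by linarith) (by linarith)

/-- A broken path. -/
def pth : List (ℝ × Rn 3) → ℝ → Rn 3
  | [], _ => 0
  | p :: l, s => min p.1 (max s 0) • p.2 + pth l (s - p.1)

theorem pth_nonpos {l : List (ℝ × Rn 3)} (h : ∀ p ∈ l, 0 ≤ p.1) {s : ℝ} (hs : s ≤ 0) :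
    pth l s = 0 := by
  induction l generalizing s with
  | nil => rfl
  | cons p l ih =>
    have h0 := h p (by simp)
    rw [pth, ih (fun q hq => h q (by simp [hq])) (by linarith), max_eq_right hs, min_eq_right h0,
      zero_smul, add_zero]

theorem ASl_lo {p : ℝ × Rn 3} {l : List (ℝ × Rn 3)} (h : ∀ p ∈ l, 0 ≤ p.1) {s : ℝ}
    (hs : s ≤ p.1) : pth (p :: l) s = min p.1 (max s 0) • p.2 := by
  rw [pth, pth_nonpos h (sub_nonpos.2 hs), add_zero]

theorem ASl_hi {p : ℝ × Rn 3} {l : List (ℝ × Rn 3)} {s : ℝ} (hs : p.1 ≤ s) :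
    pth (p :: l) s = p.1 • p.2 + pth l (s - p.1) := by
  rw [pth, min_eq_left (le_max_of_le_left hs)]

theorem pth_two {l : List (ℝ × Rn 3)} {ε : ℝ} (h : ∀ p ∈ l, 0 ≤ p.1 ∧ p.2 2 = ε) {s : ℝ}
    (h0 : 0 ≤ s) (h1 : s ≤ (l.map Prod.fst).sum) : pth l s 2 = ε * s := by
  induction l generalizing s with
  | nil =>
    obtain rfl : s = 0 := le_antisymm (by simpa using h1) h0
    simp [pth]
  | cons p l ih =>
    have h2 := (h p (by simp)).2
    have h3 := fun q hq => h q (List.mem_cons_of_mem p hq)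
    rcases le_total s p.1 with hs | hs
    · rw [ASl_lo (fun q hq => (h3 q hq).1) hs, max_eq_left h0, min_eq_right hs, Pi.smul_apply, h2,
        smul_eq_mul, mul_comm]
    · rw [List.map_cons, List.sum_cons] at h1
      rw [ASl_hi hs, Pi.add_apply, Pi.smul_apply, h2, ih h3 (by linarith) (by linarith),
        smul_eq_mul]
      ring

theorem pth_tp {E κ : Type} [NormedAddCommGroup E] [NormedSpace ℝ E] (l : List κ) {φ : κ → E → ℝ}
    (hφ : ∀ k, TP (φ k)) (u : κ → Rn 3) {s : E → ℝ} (hs : TP s) :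
    TP fun x => pth (l.map fun k => (φ k x, u k)) (s x) := by
  induction l generalizing s with
  | nil => exact TP.const 0
  | cons k l ih =>
    exact (((hφ k).min (hs.max (TP.const 0))).smul_const (u k)).add (ih (hs.sub (hφ k)))

theorem ASl_iv {S N : Set (Rn 3)} {u z : Rn 3} (h : Iv S N u) {a b : ℝ} (ha : z + a • u ∈ N)
    (hb : z + b • u ∈ N) (k : z + a • u ∈ S) : z + b • u ∈ S := by
  have e : z + b • u = z + a • u + (b - a) • u := by
    rw [sub_smul]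
    abel
  rw [e] at hb ⊢
  exact h _ ha _ hb k

theorem pth_iv {S N : Set (Rn 3)} {η : ℝ} {l : List (ℝ × Rn 3)}
    (h : ∀ p ∈ l, 0 ≤ p.1 ∧ (0 < p.1 → Iv S N p.2)) (z : Rn 3) {s s' : ℝ} (hs : s ≤ s')
    (hN : ∀ σ ∈ Icc s s', z + η • pth l σ ∈ N) :
    (z + η • pth l s ∈ S ↔ z + η • pth l s' ∈ S) := by
  induction l generalizing z s s' with
  | nil => rfl
  | cons p l ih =>
    obtain ⟨h0, h1⟩ := h p (by simp)
    have h3 := fun q hq => h q (List.mem_cons_of_mem p hq)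
    have lo : ∀ a b, a ≤ p.1 → b ≤ p.1 → z + η • pth (p :: l) a ∈ N →
        z + η • pth (p :: l) b ∈ N →
        (z + η • pth (p :: l) a ∈ S ↔ z + η • pth (p :: l) b ∈ S) := fun a b ha hb ka kb => by
      rw [ASl_lo (fun q hq => (h3 q hq).1) ha, smul_smul] at ka ⊢
      rw [ASl_lo (fun q hq => (h3 q hq).1) hb, smul_smul] at kb ⊢
      rcases h0.eq_or_lt with e | e
      · rw [← e, min_eq_left (le_max_right _ _), min_eq_left (le_max_right _ _)]
      · exact ⟨ASl_iv (h1 e) ka kb, ASl_iv (h1 e) kb ka⟩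
    have hi : ∀ a b, p.1 ≤ a → a ≤ b → (∀ σ ∈ Icc a b, z + η • pth (p :: l) σ ∈ N) →
        (z + η • pth (p :: l) a ∈ S ↔ z + η • pth (p :: l) b ∈ S) := fun a b ha hb k => by
      rw [ASl_hi ha, ASl_hi (ha.trans hb), smul_add, smul_add, ← add_assoc, ← add_assoc]
      refine ih h3 _ (by linarith) fun σ hσ => ?_
      have := k (σ + p.1) ⟨by linarith [hσ.1], by linarith [hσ.2]⟩
      rwa [ASl_hi (by linarith [hσ.1]), smul_add, ← add_assoc, add_sub_cancel_right] at this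
    rcases le_total s' p.1 with k | k
    · exact lo s s' (hs.trans k) k (hN s ⟨le_rfl, hs⟩) (hN s' ⟨hs, le_rfl⟩)
    rcases le_total p.1 s with k' | k'
    · exact hi s s' k' hs hN
    · exact (lo s p.1 k' le_rfl (hN s ⟨le_rfl, hs⟩) (hN _ ⟨k', k⟩)).trans
        (hi p.1 s' le_rfl k fun σ hσ => hN σ ⟨k'.trans hσ.1, hσ.2⟩)

theorem slab {S : Set (Rn 3)} (hS : IsCompact S) (h : ∀ x ∈ S, UD S x) (t : ℝ) {ε : ℝ}
    (hε : ε = 1 ∨ ε = -1) : ∃ δ > 0, ∃ G, LP G ∧ ∀ y a b, ε * (a - t) ∈ Ioo 0 δ →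
      ε * (b - t) ∈ Ioo 0 δ → G (mk3 y a) ∈ S → G (mk3 y b) ∈ S := by
  have hε2 : ε * ε = 1 := by rcases hε with rfl | rfl <;> norm_num
  have hεa : |ε| = 1 := by rcases hε with rfl | rfl <;> norm_num
  choose! u ρ hu hρ hI using fun x hx => h x hx ε hε
  have hT : IsClosed {x : Rn 3 | x 2 = t} := isClosed_eq (continuous_apply 2) continuous_const
  obtain ⟨F, hF, hc⟩ := (hS.inter_right hT).elim_nhds_subcover (fun x => ball x (ρ x / 4))
    fun x hx => ball_mem_nhds x (by linarith [hρ x hx.1])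
  obtain ⟨δ, hδ, hth⟩ := hS.exists_thickening_subset_open
    (hT.isOpen_compl.union (isOpen_biUnion (s := F) fun x _ => isOpen_ball (x := x) (ε := ρ x / 4)))
    fun x hx => by
      by_cases k : x 2 = t
      · exact Or.inr (by simpa using hc ⟨hx, k⟩)
      · exact Or.inl k
  let φ : Rn 3 → Rn 2 → ℝ := fun k y => max 0 (min 1 (2 - 4 * ‖y - pj3 k‖ / ρ k))
  let l : Rn 2 → List (ℝ × Rn 3) := fun y => F.toList.map fun k => (φ k y, ε • u k)
  have hφ : ∀ k, TP fun x => φ k (pj3 x) := fun k => (TP.const 0).max ((TP.const 1).min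
    ((TP.const 2).sub (((tp_pj3.sub (TP.const _)).norm_pi.const_mul 4).div_const _)))
  have hΓ : TP fun x => pth (l (pj3 x)) (x 2) := pth_tp _ hφ _ (TP.id'.apply 2)
  have hl : ∀ y, ∀ p ∈ l y, ∃ k ∈ F, p = (φ k y, ε • u k) := fun y p hp => by
    obtain ⟨k, hk, rfl⟩ := List.mem_map.1 hp
    exact ⟨k, Finset.mem_toList.1 hk, rfl⟩
  have hl0 : ∀ y, ∀ p ∈ l y, 0 ≤ p.1 ∧ p.2 2 = ε := fun y p hp => by
    obtain ⟨k, hk, rfl⟩ := hl y p hp
    exact ⟨le_max_left _ _, by simp [hu k (hF k hk).1]⟩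
  obtain ⟨L, hL, hb'⟩ := hΓ.exists_bound
  have hL0 : 0 < L := by linarith
  have hΓ0 : ∀ y s, ‖pth (l y) s‖ ≤ L * |s| := fun y s => by
    have := hb' (mk3 y s) (mk3 y 0)
    simp only [pj3_mk3, mk3_2, ASl_ver, sub_zero] at this
    rwa [pth_nonpos (fun p hp => (hl0 y p hp).1) le_rfl, sub_zero] at this
  obtain ⟨r, hr0, hr1, hr2, hr3⟩ := ((show ∀ᶠ r in 𝓝[>] (0 : ℝ), 0 < r from
    self_mem_nhdsWithin).and (((eventually_lt_nhds hδ).and ((eventually_lt_nhds one_half_pos).and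
      ((eventually_all_finset F).2 fun k hk =>
        eventually_lt_nhds (half_pos (hρ k (hF k hk).1))))).filter_mono nhdsWithin_le_nhds)).exists
  obtain ⟨η, hη, rfl⟩ : ∃ η, 0 < η ∧ η * L = r := ⟨r / L, by positivity, by field_simp⟩
  have hn : ∀ y, ∀ σ ∈ Ioo (0 : ℝ) 1, ‖η • pth (l y) σ‖ < η * L := fun y σ hσ => by
    rw [norm_smul, Real.norm_of_nonneg hη.le]
    refine mul_lt_mul_of_pos_left ((hΓ0 y σ).trans_lt ?_) hη
    rw [abs_of_pos hσ.1]
    exact mul_lt_of_lt_one_right hL0 hσ.2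
  have hd : TP fun x : Rn 3 => η • pj3 (pth (l (pj3 x)) (ε * (x 2 - t) / η)) := by
    have := (tp_pj3.comp (hΓ.comp (tp_pj3.mk3
      ((((TP.id'.apply 2).sub (TP.const t)).const_mul ε).div_const η)))).const_smul η
    simpa only [pj3_mk3, mk3_2] using this
  refine ⟨η, hη, _, lp_pert hd fun y y' s => ?_, fun y a b ha hc' hm => ?_⟩
  · have := hb' (mk3 y (ε * (s - t) / η)) (mk3 y' (ε * (s - t) / η))
    simp only [pj3_mk3, mk3_2, ASl_hor] at this ⊢
    rw [← smul_sub, ← pj3_sub, norm_smul, Real.norm_of_nonneg hη.le]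
    refine (mul_le_mul_of_nonneg_left ((ASl_pj _).trans this) hη.le).trans ?_
    rw [← mul_assoc]
    exact mul_le_mul_of_nonneg_right hr2.le (norm_nonneg _)
  simp only [pj3_mk3, mk3_2] at hm ⊢
  have hs : ∀ c, ε * (c - t) ∈ Ioo 0 η → ε * (c - t) / η ∈ Ioo (0 : ℝ) 1 := fun c k =>
    ⟨div_pos k.1 hη, (div_lt_one hη).2 k.2⟩
  obtain ⟨k, hk, hy⟩ : ∃ k ∈ F, mk3 y t ∈ ball k (ρ k / 4) := by
    have h1 : mk3 y t ∈ thickening δ S := mem_thickening_iff.2 ⟨_, hm, by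
      rw [dist_comm, dist_eq_norm, ASl_sub, norm_mk3, add_sub_cancel_left, ← pj3_smul]
      refine max_lt (((ASl_pj _).trans_lt (hn y _ (hs a ha))).trans hr1) ?_
      have h2 : |a - t| = ε * (a - t) := by rw [← abs_of_pos ha.1, abs_mul, hεa, one_mul]
      nlinarith [ha.2]⟩
    rcases hth h1 with h2 | h2
    · exact absurd rfl h2
    · simpa using h2
  have hk2 : ∀ k ∈ F, ‖mk3 y t - k‖ = ‖y - pj3 k‖ := fun k hk => by
    conv_lhs => rw [← mk3_pj3 k, show k 2 = t from (hF k hk).2, ASl_hor]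
  have hsum : 1 ≤ ((l y).map Prod.fst).sum := by
    refine List.single_le_sum (fun c hc => ?_) 1 (List.mem_map.2 ⟨_, List.mem_map.2
      ⟨k, Finset.mem_toList.2 hk, rfl⟩, ?_⟩)
    · obtain ⟨p, hp, rfl⟩ := List.mem_map.1 hc
      exact (hl0 y p hp).1
    · rw [mem_ball_iff_norm, hk2 k hk] at hy
      have h1 : 4 * ‖y - pj3 k‖ / ρ k ≤ 1 := (div_le_one (hρ k (hF k hk).1)).2 (by linarith)
      simp only [φ]
      rw [min_eq_left (by linarith), max_eq_right zero_le_one]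
  have h2 : ∀ σ ∈ Ioo (0 : ℝ) 1, pth (l y) σ 2 = ε * σ := fun σ hσ =>
    pth_two (hl0 y) hσ.1.le (hσ.2.le.trans hsum)
  have he : ∀ c, ε * (c - t) ∈ Ioo 0 η → mk3 (y + η • pj3 (pth (l y) (ε * (c - t) / η))) c =
      mk3 y t + η • pth (l y) (ε * (c - t) / η) := fun c k => by
    conv_rhs => rw [← mk3_pj3 (pth _ _), ← mk3_smul, ← mk3_add, h2 _ (hs c k)]
    congr 1
    field_simp
    linear_combination (t - c) * hε2
  have key : ∀ s ∈ Ioo (0 : ℝ) 1, ∀ s' ∈ Ioo (0 : ℝ) 1, s ≤ s' →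
      (mk3 y t + η • pth (l y) s ∈ S ↔ mk3 y t + η • pth (l y) s' ∈ S) := fun s k1 s' k2 k3 => by
    refine pth_iv (N := hb ε (mk3 y t) (η * L)) (fun p hp => ⟨(hl0 y p hp).1, fun hp0 => ?_⟩) _ k3
      fun σ hσ => ?_
    · obtain ⟨k, hk, rfl⟩ := hl y p hp
      have h3 : 0 < 2 - 4 * ‖y - pj3 k‖ / ρ k :=
        (lt_min_iff.1 ((lt_max_iff.1 hp0).resolve_left (lt_irrefl _))).2
      rw [sub_pos, div_lt_iff₀ (hρ k (hF k hk).1)] at h3
      have h4 : hb ε (mk3 y t) (η * L) ⊆ hb ε k (ρ k) := fun w hw =>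
        ⟨ball_subset_ball' (by rw [dist_eq_norm, hk2 k hk]; linarith [hr3 k hk]) hw.1, by
          rw [show k 2 = t from (hF k hk).2]; exact hw.2⟩
      intro w hw c
      rw [smul_smul]
      exact (hI k (hF k hk).1).mono h4 w hw _
    · have h3 : σ ∈ Ioo (0 : ℝ) 1 := ⟨k1.1.trans_le hσ.1, hσ.2.trans_lt k2.2⟩
      refine ⟨by rw [mem_ball_iff_norm, add_sub_cancel_left]; exact hn y σ h3, ?_⟩
      rw [Pi.add_apply, add_sub_cancel_left, Pi.smul_apply, h2 σ h3, smul_eq_mul]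
      have h4 := mul_pos hη h3.1
      linear_combination h4 - η * σ * hε2
  rw [he a ha] at hm
  rw [he b hc']
  rcases le_total (ε * (a - t) / η) (ε * (b - t) / η) with k | k
  · exact (key _ (hs a ha) _ (hs b hc') k).1 hm
  · exact (key _ (hs b hc') _ (hs a ha) k).2 hm

end BEp
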