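import Pool.Agent.Work.MP_f0515e_an.D3.PDefs

/-! Triangular maps, affine maps, supported maps, topological facts on `LH`.
`lh_tri`: surjective by the intermediate value theorem in each coordinate of `I` (slope at least `c`),
assembled with `choose`; expanding: put `y' = (x off I, y on I)`, then `c ‖x - y'‖ ≤ ‖Φ x - Φ y'‖`,
`‖Φ y' - Φ y‖ ≤ L ‖y' - y‖`, `‖y' - y‖ ≤ ‖Φ x - Φ y‖`; finish with `LH.of_expanding`.
The rest: `pa2_of_inv`, and the homeomorphism `LH.homeo`. About 200 lines. -/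

open Set Metric Filter Topology Function BEv
open scoped NNReal

noncomputable section
namespace BEp

variable {n m : ℕ}

theorem ptri_surj {g : ℝ → ℝ} (hg : Continuous g) {c : ℝ} (hc : 0 < c)
    (h : ∀ a b, a ≤ b → c * (b - a) ≤ g b - g a) : Surjective g := fun v => by
  have h0 : 0 ≤ |v - g 0| / c := by positivity
  have h1 := h (-(|v - g 0| / c)) 0 (by linarith)
  have h2 := h 0 (|v - g 0| / c) h0
  rw [sub_neg_eq_add, zero_add, mul_div_cancel₀ _ hc.ne'] at h1
  rw [sub_zero, mul_div_cancel₀ _ hc.ne'] at h2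
  exact intermediate_value_univ (-(|v - g 0| / c)) (|v - g 0| / c) hg
    ⟨by linarith [neg_abs_le (v - g 0)], by linarith [le_abs_self (v - g 0)]⟩

theorem ptri_upd (i : Fin n) {f : Rn n → ℝ} (hf : TP f) : TP fun x => update x i (f x) :=
  TP.pi fun j => by
    by_cases e : j = i
    · simpa only [e, update_self] using hf
    · simpa only [update_of_ne e] using TP.id'.apply j

theorem lh_tri {Φ : Rn n → Rn n} (hΦ : TP Φ) (I : Set (Fin n)) {c : ℝ} (hc : 0 < c)
    (h1 : ∀ x, ∀ j, j ∉ I → Φ x j = x j)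
    (h2 : ∀ x y, (∀ k, k ∉ I → x k = y k) → ∀ j ∈ I, y j ≤ x j → c * (x j - y j) ≤ Φ x j - Φ y j) :
    LH Φ := by
  classical
  have h3 : ∀ x y, (∀ k, k ∉ I → x k = y k) → ∀ j ∈ I, c * |x j - y j| ≤ |Φ x j - Φ y j| :=
    fun x y e j hj => by
      rcases le_total (y j) (x j) with k | k
      · rw [abs_of_nonneg (sub_nonneg.2 k)]
        exact (h2 x y e j hj k).trans (le_abs_self _)
      · rw [abs_sub_comm, abs_of_nonneg (sub_nonneg.2 k), abs_sub_comm]
        exact (h2 y x (fun l hl => (e l hl).symm) j hj k).trans (le_abs_self _)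
  have h4 : Surjective Φ := fun z => by
    have k : ∀ j ∈ I, ∃ t, Φ (update z j t) j = z j := fun j hj =>
      ptri_surj (g := fun t => Φ (update z j t) j)
        ((continuous_apply j).comp (hΦ.continuous.comp (continuous_const.update j continuous_id)))
        hc (fun a b hab => by
          simpa only [update_self] using h2 (update z j b) (update z j a) (fun l hl => by
            simp only [update_of_ne fun e : l = j => hl (e ▸ hj)]) j hj
            (by simpa only [update_self] using hab)) (z j)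
    choose! t ht using k
    refine ⟨fun l => if l ∈ I then t l else z l, funext fun j => ?_⟩
    by_cases hj : j ∈ I
    · have e : ∀ l, l ∉ I → (fun l => if l ∈ I then t l else z l) l = update z j (t j) l :=
        fun l hl => by simp only [if_neg hl, update_of_ne fun e : l = j => hl (e ▸ hj)]
      have k1 := h2 _ _ e j hj (by simp only [if_pos hj, update_self, le_refl])
      have k2 := h2 _ _ (fun l hl => (e l hl).symm) j hj
        (by simp only [if_pos hj, update_self, le_refl])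
      simp only [if_pos hj, update_self, sub_self, mul_zero, ht j hj] at k1 k2
      linarith
    · rw [h1 _ j hj, if_neg hj]
  obtain ⟨L, hL1, hL⟩ := hΦ.exists_bound
  have hC : 0 < (1 + L) / c + 1 := by positivity
  refine LH.of_expanding hΦ h4 (inv_pos.2 hC) fun x y => ?_
  have k0 : ∀ j, j ∉ I → |x j - y j| ≤ ‖Φ x - Φ y‖ := fun j hj => by
    rw [← h1 x j hj, ← h1 y j hj]
    exact norm_le_pi_norm (Φ x - Φ y) j
  have k1 : ‖(fun l => if l ∈ I then y l else x l) - y‖ ≤ ‖Φ x - Φ y‖ :=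
    (pi_norm_le_iff_of_nonneg (norm_nonneg _)).2 fun j => by
      by_cases hj : j ∈ I
      · simp [hj]
      · simpa only [Pi.sub_apply, if_neg hj, Real.norm_eq_abs] using k0 j hj
  have k2 := (hL _ _).trans (mul_le_mul_of_nonneg_left k1 (zero_le_one.trans hL1))
  have k3 := norm_sub_le_norm_sub_add_norm_sub (Φ x) (Φ y) (Φ fun l => if l ∈ I then y l else x l)
  rw [norm_sub_rev (Φ y)] at k3
  have k4 : 0 ≤ (1 + L) / c * ‖Φ x - Φ y‖ := by positivity
  rw [inv_mul_le_iff₀ hC]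
  refine (pi_norm_le_iff_of_nonneg (by positivity)).2 fun j => ?_
  rw [add_mul, one_mul, Pi.sub_apply, Real.norm_eq_abs]
  by_cases hj : j ∈ I
  · have k5 := (h3 x (fun l => if l ∈ I then y l else x l) (fun l hl => (if_neg hl).symm) j
      hj).trans (norm_le_pi_norm (Φ x - Φ fun l => if l ∈ I then y l else x l) j)
    rw [if_pos hj] at k5
    refine le_add_of_le_of_nonneg ?_ (norm_nonneg _)
    rw [div_mul_eq_mul_div, le_div_iff₀' hc]
    linarith
  · linarith [k0 j hj]

/-- Vertical maps. -/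
theorem lh_vert (i : Fin n) {f : Rn n → ℝ} (hf : TP f) {c : ℝ} (hc : 0 < c)
    (h : ∀ x a b, a ≤ b → c * (b - a) ≤ f (update x i b) - f (update x i a)) :
    LH (fun x => update x i (f x)) := by
  refine lh_tri (ptri_upd i hf) {i} hc (fun x j hj => update_of_ne hj _ _) fun x y e j hj k => ?_
  obtain rfl : j = i := hj
  have e1 : update y j (x j) = x := funext fun l => by
    by_cases hl : l = j
    · rw [hl, update_self]
    · rw [update_of_ne hl, e l hl]
  have := h y _ _ k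
  rw [e1, update_eq_self] at this
  simpa only [update_self] using this

theorem lh_aff (M : Rn n ≃L[ℝ] Rn n) (b : Rn n) : LH (fun x => M x + b) := by
  exact pa2_of_inv (g := fun y => M.symm (y - b)) ((TP.clm (M : Rn n →L[ℝ] Rn n)).add (TP.const b))
    ((TP.clm (M.symm : Rn n →L[ℝ] Rn n)).comp (TP.id'.sub (TP.const b))) (fun x => by simp)
    fun x => by simp

theorem lh_hom (c : Rn n) {r : ℝ} (hr : r ≠ 0) : LH (fun x : Rn n => c + r • x) := by
  exact pa2_of_inv (g := fun y => r⁻¹ • (y - c)) ((TP.const c).add (TP.id'.const_smul r))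
    ((TP.id'.sub (TP.const c)).const_smul r⁻¹) (fun x => by simp [hr]) fun x => by
      simp only [smul_inv_smul₀ hr, add_sub_cancel]

theorem tp_hz (i : Fin n) : TP (hz i) := by
  exact ptri_upd i (TP.const 0)

theorem ptri_norm (i : Fin n) (x : Rn n) : ‖x‖ = max ‖hz i x‖ |x i| := by
  refine le_antisymm ((pi_norm_le_iff_of_nonneg (le_max_of_le_left (norm_nonneg _))).2 fun j => ?_)
    (max_le ((pi_norm_le_iff_of_nonneg (norm_nonneg _)).2 fun j => ?_) (norm_le_pi_norm x i))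
  · by_cases e : j = i
    · exact e ▸ le_max_right _ _
    · refine le_max_of_le_left (le_trans ?_ (norm_le_pi_norm (hz i x) j))
      rw [hz, update_of_ne e]
  · by_cases e : j = i
    · simp [hz, e]
    · rw [hz, update_of_ne e]
      exact norm_le_pi_norm x j

theorem gauge_oN (i : Fin n) : Gauge (oN i) := by
  refine ⟨(tp_hz i).norm_pi.add (TP.id'.apply i).abs, fun x t ht => ?_, 1, one_pos, fun x => ?_⟩
  · have e : hz i (t • x) = t • hz i x := by rw [hz, hz, ← update_smul, smul_zero]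
    rw [oN, oN, e, norm_smul, Pi.smul_apply, smul_eq_mul, abs_mul, Real.norm_eq_abs,
      abs_of_nonneg ht, mul_add]
  · rw [one_mul, ptri_norm i]
    exact max_le_add_of_nonneg (norm_nonneg _) (abs_nonneg _)

theorem gauge_norm : Gauge (fun x : Rn n => ‖x‖) := by
  exact ⟨TP.id'.norm_pi, fun x t ht => by rw [norm_smul, Real.norm_of_nonneg ht], 1, one_pos,
    fun x => (one_mul _).le⟩

theorem norm_eq_hz (i : Fin n) (x : Rn n) : ‖x‖ = max ‖hz i x‖ |x i| := by
  exact ptri_norm i x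

theorem _root_.BEv.LH.homeo {Φ : Rn n → Rn n} (h : LH Φ) :
    ∃ e : Rn n ≃ₜ Rn n, ⇑e = Φ ∧ ⇑e.symm = invFun Φ := by
  exact ⟨⟨⟨Φ, invFun Φ, h.li, h.ri⟩, h.tp.continuous, h.tpi.continuous⟩, rfl, rfl⟩

theorem _root_.BEv.LH.inv_image {Φ : Rn n → Rn n} (h : LH Φ) (A : Set (Rn n)) :
    invFun Φ '' (Φ '' A) = A := by
  exact LeftInverse.image_image h.li A

theorem _root_.BEv.LH.image_inv {Φ : Rn n → Rn n} (h : LH Φ) (A : Set (Rn n)) :
    Φ '' (invFun Φ '' A) = A := by
  exact LeftInverse.image_image h.ri A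

theorem _root_.BEv.LH.bdd_image {Φ : Rn n → Rn n} (h : LH Φ) (A : Set (Rn n)) :
    Bornology.IsBounded (Φ '' A) ↔ Bornology.IsBounded A := by
  obtain ⟨L, hL⟩ := h.tp.lip
  obtain ⟨L', hL'⟩ := h.tpi.lip
  exact ⟨fun k => h.inv_image A ▸ hL'.isBounded_image k, hL.isBounded_image⟩

theorem Mv.id' (W : Set (Rn n)) : Mv W id := by
  exact ⟨LH.id', fun _ _ => rfl⟩

theorem Mv.mono {W W' : Set (Rn n)} {Φ : Rn n → Rn n} (h : Mv W Φ) (hW : W ⊆ W') : Mv W' Φ := by
  exact ⟨h.1, fun x hx => h.2 x fun k => hx (hW k)⟩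

theorem Mv.comp {W : Set (Rn n)} {Φ Ψ : Rn n → Rn n} (h : Mv W Φ) (k : Mv W Ψ) :
    Mv W (Φ ∘ Ψ) := by
  exact ⟨h.1.comp k.1, fun x hx => by rw [comp_apply, k.2 x hx, h.2 x hx]⟩

theorem Mv.inv {W : Set (Rn n)} {Φ : Rn n → Rn n} (h : Mv W Φ) : Mv W (invFun Φ) := by
  exact ⟨h.1.inv, fun x hx => h.1.inv_eq (h.2 x hx)⟩

theorem Mv.conj {W : Set (Rn n)} {Φ Θ : Rn n → Rn n} (h : Mv W Φ) (k : LH Θ) :
    Mv (Θ '' W) (Θ ∘ Φ ∘ invFun Θ) := by
  refine ⟨k.comp (h.1.comp k.inv), fun x hx => ?_⟩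
  rw [comp_apply, comp_apply, h.2 _ fun e => hx ⟨_, e, k.ri x⟩, k.ri]

theorem Mv.image_eq {W W' : Set (Rn n)} {Φ : Rn n → Rn n} (h : Mv W Φ) (hW : W ⊆ W') :
    Φ '' W' = W' := by
  ext y
  refine ⟨?_, fun hy => ⟨_, by_contra fun e => e ?_, h.1.ri y⟩⟩
  · rintro ⟨x, hx, rfl⟩
    by_contra e
    exact e ((h.1.inj (h.2 _ fun k => e (hW k))).symm ▸ hx)
  · rwa [← h.2 _ fun k => e (hW k), h.1.ri]

theorem ptri_word {ε : ℝ≥0} {H : Submodule ℝ (Rn m)} {cut : Rn m → ℝ} {Φ : Rn m → Rn m}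
    (h : Word (Fac ε H cut) Φ) (z : Rn m) : Φ z - z ∈ H := by
  induction h with
  | id => exact (sub_self z).symm ▸ H.zero_mem
  | step _ hd ih =>
    rw [add_sub_right_comm]
    exact H.add_mem ih (hd.2.2.1 _)

/-- A bump which is positive on a compact set and vanishes off an open neighbourhood. -/
theorem ptri_bump {T O : Set (Rn m)} (hT : IsCompact T) (hO : IsOpen O) (h : T ⊆ O) :
    ∃ g : Rn m → ℝ, TP g ∧ (∀ z, 0 ≤ g z) ∧ (∀ z ∈ T, 0 < g z) ∧ ∀ z, z ∉ O → g z = 0 := by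
  obtain ⟨δ, hδ, h1⟩ := hT.exists_thickening_subset_open hO h
  obtain ⟨t, h2, h3, h4⟩ := hT.finite_cover_balls hδ
  refine ⟨fun z => max 0 (δ - dcap h3.toFinset δ z), (TP.const 0).max ((TP.const δ).sub
    (TP.dcap _ _)), fun _ => le_max_left _ _, fun z hz => ?_, fun z hz => ?_⟩
  · obtain ⟨p, hp, k⟩ := mem_iUnion₂.1 (h4 hz)
    exact lt_max_of_lt_right (sub_pos.2 ((dcap_le δ z (h3.mem_toFinset.2 hp)).trans_lt
      (mem_ball_iff_norm.1 k)))
  · refine max_eq_left (sub_nonpos.2 (not_lt.1 fun k => hz (h1 ?_)))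
    obtain ⟨p, hp, e⟩ := exists_of_dcap_lt k
    exact mem_thickening_iff.2 ⟨p, h2 (h3.mem_toFinset.1 hp), by rw [dist_eq_norm, ← e]; exact k⟩

/-- Isotopy extension along a segment of injective maps, with prescribed support: the ambient map
fixes the polyhedron `W` and the complement of the open set `O`. Use `ie` with `plie_fam`,
`cut z = min (D z) (max 0 (η - infDist z K))`, `D` from `Poly.eq_zero`, `K` a polyhedron
(`Poly.image` of `X × [0,1]` is not available since the family is bilinear: use instead a finite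
union of small closed balls covering the compact trace and contained in `O`), `plie_loj`. To get factors in
`H` use a basis `b` of `H`, a linear projection `π` onto `H`, `lam j x = b.coord j (π (d x))`, `w r j = r • b j`. -/
theorem ie_line {X : Set (Rn n)} (hX : Poly X) {a d : Rn n → Rn m} (ha : TP a) (hd : TP d)
    (hi : ∀ r ∈ Icc (0 : ℝ) 1, InjOn (fun x => a x + r • d x) X)
    {W O : Set (Rn m)} (hW : Poly W) (hO : IsOpen O)
    (h1 : ∀ r ∈ Icc (0 : ℝ) 1, ∀ x ∈ X, a x + r • d x ∈ W → d x = 0)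
    (h2 : ∀ r ∈ Icc (0 : ℝ) 1, ∀ x ∈ X, a x + r • d x ∈ O)
    (H : Submodule ℝ (Rn m)) (hH : ∀ x, d x ∈ H) :
    ∃ Φ, Mv O Φ ∧ (∀ z ∈ W, Φ z = z) ∧ (∀ z, Φ z - z ∈ H) ∧ ∀ x ∈ X, Φ (a x) = a x + d x := by
  obtain ⟨D, -, D1, -, D2, D3, -⟩ := hW.eq_zero
  have c1 := ha.continuous
  have c2 := hd.continuous
  obtain ⟨g, g1, g2, g3, g4⟩ := ptri_bump (((isCompact_Icc (a := (0 : ℝ)) (b := 1)).prod hX.1).image
    (f := fun p : ℝ × Rn n => a p.2 + p.1 • d p.2) (by fun_prop)) hO (by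
      rintro _ ⟨p, hp, rfl⟩
      exact h2 _ hp.1 _ hp.2)
  obtain ⟨π, hπ⟩ := H.subtype.exists_leftInverse_of_injective H.ker_subtype
  let b := Module.finBasis ℝ H
  have hl : ∀ j, TP fun x => b.repr (π (d x)) j := fun j =>
    (TP.clm (LinearMap.toContinuousLinearMap (b.coord j ∘ₗ π))).comp hd
  have e : ∀ r : ℝ, fam a (fun j x => b.repr (π (d x)) j) (fun j => r • (b j : Rn m)) =
      fun x => a x + r • d x := fun r => funext fun x => by
    have k1 : π (d x) = ⟨d x, hH x⟩ := LinearMap.congr_fun hπ ⟨d x, hH x⟩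
    have k2 := congrArg Subtype.val (b.sum_repr ⟨d x, hH x⟩)
    simp only [Submodule.coe_sum, Submodule.coe_smul] at k2
    simp only [fam, k1, smul_comm _ r, ← Finset.smul_sum, k2]
  have hc0 : ∀ z, 0 ≤ min (D z) (g z) := fun z => le_min (D2 z) (g2 z)
  obtain ⟨Φ, -, -, h⟩ := ie hX ha hl (w := fun r j => r • (b j : Rn m)) (by fun_prop)
    (fun r hr => by rw [e]; exact hi r hr) (D1.min g1) hc0
    (fun r hr => plie_loj hX hl ((D1.min g1).comp (plie_tp ha hl _)) (fun _ => hc0 _)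
      fun x hx k j => by
        rw [e] at k
        have k1 := g3 _ ⟨(r, x), ⟨hr, hx⟩, rfl⟩
        have k2 := h1 r hr x hx ((D3 _).2 ((min_eq_iff.1 k).elim (·.1) fun m => (k1.ne' m.1).elim))
        simp only [k2, map_zero, Finsupp.zero_apply])
    H (fun r r' j => H.sub_mem (H.smul_mem _ (b j).2) (H.smul_mem _ (b j).2)) (ε := 1 / 2)
    (by norm_num)
  obtain ⟨k1, k2⟩ := h 1 (right_mem_Icc.2 zero_le_one)
  refine ⟨_, ⟨(k1.sg (by norm_num)).lh, fun z hz => k1.fix ?_⟩, fun z hz => k1.fix ?_,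
    ptri_word k1, fun x hx => ?_⟩
  · rw [g4 z hz, min_eq_right (D2 z)]
  · rw [(D3 z).1 hz, min_eq_left (g2 z)]
  · have := k2 x hx
    rw [e, e] at this
    simpa using this

end BEp
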