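import Pool.Agent.Work.MP_f0515e_an.D3.FBd
import Pool.Agent.Work.MP_f0515e_an.D3.PTri

/-! Star balls: gluing of continuous maps, plane coordinates.
`glue_on'`: `glue_on` with index type `Option κ`. Facts on `pem`: `fin_cases i`. `no_log`: `ext_on`, `deg_nz`, the homotopy
`cx x * exp (s * L x)`, `deg_of_htp`, `deg_aff`, `sg_cases`. `mv_fam`: induction over a `Finset`,
compose; `Mv.image_eq` shows that each map preserves its set. About 200 lines. -/

open Set Metric Filter Topology Function BEv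
open scoped NNReal

noncomputable section
namespace BEp

section
variable {E F : Type} [NormedAddCommGroup E] [NormedSpace ℝ E] [FiniteDimensional ℝ E]
  [NormedAddCommGroup F] [NormedSpace ℝ F] [FiniteDimensional ℝ F]

/-- One distinguished set `A` and pairwise disjoint sets `B j`. -/
theorem glue_on' {κ : Type} [Finite κ] {A : Set E} {B : κ → Set E} (hA : IsClosed A)
    (hB : ∀ j, IsClosed (B j)) (hd : ∀ j l x, x ∈ B j → x ∈ B l → j = l) {u : E → F}
    {v : κ → E → F} (hu : ContinuousOn u A) (hv : ∀ j, ContinuousOn (v j) (B j))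
    (h : ∀ j, EqOn u (v j) (A ∩ B j)) :
    ∃ g : E → F, Continuous g ∧ EqOn g u A ∧ ∀ j, EqOn g (v j) (B j) := by
  obtain ⟨g, hg, e⟩ := glue_on (S := (univ : Set (Option κ))) finite_univ
    (X := fun o => o.elim A B) (u := fun o => o.elim u v)
    (fun o _ => by cases o; exacts [hA, hB _]) (fun o _ => by cases o; exacts [hu, hv _])
    fun o _ o' _ x hx => by
      cases o <;> cases o'
      exacts [rfl, h _ hx, (h _ hx.symm).symm, by rw [hd _ _ x hx.1 hx.2]]
  exact ⟨g, hg, e none trivial, fun j => e (some j) trivial⟩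

end

variable {i : Fin 3} {s : ℝ}

theorem BAux_1 (w : Rn 2) : pem i s w (i + 1) = w 0 := by
  fin_cases i <;> simp [pem]

theorem BAux_2 (w : Rn 2) : pem i s w (i + 2) = s * w 1 := by
  fin_cases i <;> simp [pem]

theorem BAux_3 : ∀ i j : Fin 3, j = i ∨ j = i + 1 ∨ j = i + 2 := by decide

theorem BAux_s (hs : s = 1 ∨ s = -1) : s * s = 1 ∧ |s| = 1 := by
  rcases hs with rfl | rfl <;> simp

theorem pem_self (w : Rn 2) : pem i s w i = 0 := by
  fin_cases i <;> simp [pem]

theorem pem_smul (t : ℝ) (w : Rn 2) : pem i s (t • w) = t • pem i s w := by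
  ext j
  rcases BAux_3 i j with rfl | rfl | rfl <;> simp [pem_self, BAux_1, BAux_2, mul_left_comm]

theorem pem_zero : pem i s 0 = 0 := by
  simp [pem]

theorem tp_pem : TP (pem i s) := by
  refine TP.pi fun j => ?_
  rcases BAux_3 i j with rfl | rfl | rfl <;> simp only [pem_self, BAux_1, BAux_2]
  exacts [TP.const _, TP.id'.apply _, (TP.id'.apply _).const_mul _]

theorem cont_pem : Continuous (pem i s) := tp_pem.continuous

theorem cont_mep : Continuous (mep i s) := by
  unfold mep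
  fun_prop

theorem norm_pem (hs : s = 1 ∨ s = -1) (w : Rn 2) : ‖pem i s w‖ = ‖w‖ := by
  have k := norm_le_pi_norm (pem i s w)
  have k' := norm_le_pi_norm w
  have e : ‖s * w 1‖ = ‖w 1‖ := by rw [norm_mul, Real.norm_eq_abs, (BAux_s hs).2, one_mul]
  refine le_antisymm ((pi_norm_le_iff_of_nonneg (norm_nonneg _)).2 fun j => ?_)
    ((pi_norm_le_iff_of_nonneg (norm_nonneg _)).2 (Fin.forall_fin_two.2 ⟨?_, ?_⟩))
  · rcases BAux_3 i j with rfl | rfl | rfl <;> simp only [pem_self, BAux_1, BAux_2, e]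
    exacts [by simp, k' _, k' _]
  · exact BAux_1 (i := i) (s := s) w ▸ k (i + 1)
  · rw [← e, ← BAux_2 (i := i)]
    exact k _

theorem dist_pem (hs : s = 1 ∨ s = -1) (y : Rn 3) (w : Rn 2) : dist (y + pem i s w) y = ‖w‖ := by
  rw [dist_self_add_left, norm_pem hs]

theorem mep_pem (hs : s = 1 ∨ s = -1) (w : Rn 2) : mep i s (pem i s w) = w := by
  ext j
  fin_cases j <;> simp [mep, BAux_1, BAux_2, ← mul_assoc, (BAux_s hs).1]

theorem pem_mep (hs : s = 1 ∨ s = -1) {x y : Rn 3} (h : x i = y i) :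
    y + pem i s (mep i s (x - y)) = x := by
  ext j
  rcases BAux_3 i j with rfl | rfl | rfl <;>
    simp [mep, pem_self, BAux_1, BAux_2, ← mul_assoc, (BAux_s hs).1, h]

theorem pem_inj (hs : s = 1 ∨ s = -1) : Injective (pem i s) :=
  LeftInverse.injective (mep_pem hs)

theorem mem_fsq (hs : s = 1 ∨ s = -1) {x y : Rn 3} {r : ℝ} :
    x ∈ fsq y i r ↔ ∃ w, ‖w‖ ≤ r ∧ x = y + pem i s w := by
  refine ⟨fun h => ⟨_, ?_, (pem_mep hs h.2).symm⟩, ?_⟩
  · rw [← dist_pem (i := i) hs y, pem_mep hs h.2]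
    exact h.1
  · rintro ⟨w, hw, rfl⟩
    exact ⟨(dist_pem hs y w).trans_le hw, by simp [pem_self]⟩

theorem fsq_pdsc (hs : s = 1 ∨ s = -1) (y : Rn 3) {r : ℝ} (hr : 0 < r) :
    PDsc (fsq y i r) ((fun w => y + pem i s (r • w)) '' sphere 0 1) := by
  refine ⟨_, (TP.const y).add (tp_pem.comp (TP.id'.const_smul r)), fun a _ b _ e =>
    smul_right_injective _ hr.ne' (pem_inj hs (add_left_cancel e)), ?_, rfl⟩
  ext x
  rw [mem_fsq hs]
  refine ⟨?_, fun ⟨w, hw, e⟩ => ⟨r⁻¹ • w, ?_, by rw [e]; simp [hr.ne']⟩⟩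
  · rintro ⟨w, hw, rfl⟩
    refine ⟨_, ?_, rfl⟩
    rw [norm_smul, Real.norm_of_nonneg hr.le]
    exact mul_le_of_le_one_right hr.le (mem_closedBall_zero_iff.1 hw)
  · rw [mem_closedBall_zero_iff, norm_smul, norm_inv, Real.norm_of_nonneg hr.le]
    exact inv_mul_le_one_of_le₀ hw hr.le

theorem norm_le_cx (w : Rn 2) : ‖w‖ ≤ ‖cx w‖ := by
  exact (pi_norm_le_iff_of_nonneg (norm_nonneg _)).2 (Fin.forall_fin_two.2
    ⟨Complex.abs_re_le_norm (cx w), Complex.abs_im_le_norm (cx w)⟩)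

theorem norm_cx_le (w : Rn 2) : ‖cx w‖ ≤ 2 * ‖w‖ := by
  exact (Complex.norm_le_abs_re_add_abs_im (cx w)).trans
    ((add_le_add (norm_le_pi_norm w 0) (norm_le_pi_norm w 1)).trans_eq (two_mul _).symm)

theorem no_log {u L : Rn 2 → ℂ} (hu : ContinuousOn u (closedBall 0 1))
    (h0 : ∀ x ∈ closedBall (0 : Rn 2) 1, u x ≠ 0) (hL : ContinuousOn L (sphere 0 1))
    (he : ∀ x ∈ sphere (0 : Rn 2) 1, u x = cx x * Complex.exp (L x)) : False := by
  obtain ⟨g, hg, e⟩ := ext_on isClosed_closedBall hu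
  have d : Module.finrank ℝ (Rn 2) = Module.finrank ℝ ℂ := by simp
  obtain ⟨a, -, b⟩ := deg_of_htp d (isOpen_ball (x := 0) (ε := 1)) isBounded_ball hg cx.continuous (by
    rw [frontier_ball _ one_ne_zero]
    refine ⟨fun p => cx p.1 * Complex.exp ((1 - p.2 : ℝ) * L p.1), ?_, fun x hx => ?_,
      fun x _ => by simp, fun x hx t _ => mul_ne_zero (fun k => ?_) (Complex.exp_ne_zero _)⟩
    · have := hL.comp (continuousOn_fst (s := sphere (0 : Rn 2) 1 ×ˢ Icc (0 : ℝ) 1)) fun _ k => k.1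
      exact (by fun_prop : Continuous fun p : Rn 2 × ℝ => cx p.1).continuousOn.mul
        ((Continuous.continuousOn (by fun_prop)).mul this).cexp
    · simp [e (sphere_subset_closedBall hx), he x hx]
    · simp [show x = 0 from cx.map_eq_zero_iff.1 k] at hx)
  rw [deg_nz d a fun x hx => (e (ball_subset_closedBall hx)).trans_ne
    (h0 x (ball_subset_closedBall hx))] at b
  rcases sg_cases cx with k | k <;> exact absurd (b.trans k) (by decide)

theorem mv_fam {n : ℕ} {κ : Type} [Finite κ] {Z : κ → Set (Rn n)}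
    (hd : ∀ j l x, x ∈ Z j → x ∈ Z l → j = l) {Ψ : κ → Rn n → Rn n} (h : ∀ j, Mv (Z j) (Ψ j)) :
    ∃ Φ, Mv (⋃ j, Z j) Φ ∧ ∀ j, EqOn Φ (Ψ j) (Z j) := by
  classical
  have := Fintype.ofFinite κ
  have key : ∀ T : Finset κ, ∃ Φ, Mv (⋃ j ∈ T, Z j) Φ ∧ ∀ j ∈ T, EqOn Φ (Ψ j) (Z j) := fun T => by
    induction T using Finset.induction_on with
    | empty => exact ⟨id, Mv.id' _, by simp⟩
    | insert a T ha ih =>
      obtain ⟨Φ, h1, h2⟩ := ih
      rw [Finset.set_biUnion_insert]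
      refine ⟨_, (h1.mono subset_union_right).comp ((h a).mono subset_union_left), fun j hj x hx => ?_⟩
      rcases Finset.mem_insert.1 hj with rfl | hj
      · refine h1.2 _ fun k => ?_
        obtain ⟨l, hl, k⟩ := mem_iUnion₂.1 k
        exact ha (hd _ _ _ k ((h j).image_eq subset_rfl ▸ mem_image_of_mem _ hx) ▸ hl)
      · rw [comp_apply, (h a).2 x fun k => ha (hd _ _ _ hx k ▸ hj), h2 j hj hx]
  simpa using key Finset.univ

end BEp
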