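import Pool.Agent.Work.MP_f0515e_an.D3.BAux
import Pool.Agent.Work.MP_f0515e_an.D3.PBall
import Pool.Agent.Work.MP_f0515e_an.Pos.HDM

/-! Star balls: sides of a sphere.
`ball_sub_star`: if `y = Φ x₀` with `‖x₀‖ < 1` is not in `h '' U`, then `Φ - y` has degree `±1` on the unit ball (`deg_homeo`, `deg_aff`,
`sg_cases`), but `h (t • k (Φ x)) - y` is a homotopy to a constant (`deg_htp`, `deg_nz`).
`ball_half`: both open halves of the cube are convex and miss `S` (`Ball.side`); `y` is in the closure of the open set `B \ S`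
(`Ball.closure_in`), which is not contained in a plane; wall points are limits of both halves (`Ball.closure_out`). About 150 lines. -/

open Set Metric Filter Topology Function BEv
open scoped NNReal

noncomputable section
namespace BEp

variable {B S : Set (Rn 3)}

theorem ball_sub_star {E : Type} [NormedAddCommGroup E] [NormedSpace ℝ E] {h : E → Rn 3}
    {k : Rn 3 → E} (hc : Continuous h) (kc : Continuous k) {U : Set E}
    (hU : ∀ q ∈ U, ∀ t ∈ Icc (0 : ℝ) 1, t • q ∈ U) (kh : ∀ q ∈ U, k (h q) = q) (hB : Ball B S)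
    (hS : S ⊆ h '' U) : B ⊆ h '' U := by
  intro y hy
  by_contra n
  obtain ⟨z, hz⟩ := (hB.conn_bd (by norm_num)).nonempty
  obtain ⟨q0, h0, -⟩ := hS hz
  have l : ∀ x ∈ frontier (interior B), ∃ q ∈ U, h q = x := fun x hx =>
    hS (hB.frontier_eq ▸ frontier_interior_subset hx)
  have bd := hB.poly.1.isBounded.subset interior_subset
  obtain ⟨a, -, e⟩ := deg_htp rfl isOpen_interior bd (H := fun p => h (p.2 • k p.1) - y)
    (by fun_prop) (fun x hx s hs e => by
      obtain ⟨q, hq, rfl⟩ := l x hx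
      exact n ⟨_, hU q hq s hs, by rwa [kh q hq, sub_eq_zero] at e⟩)
    (u := fun _ => h ((0 : ℝ) • q0) - y) (v := fun x => ContinuousLinearEquiv.refl ℝ _ (x - y))
    continuous_const (by fun_prop) (fun x _ => by simp only [zero_smul]) fun x hx => by
      obtain ⟨q, hq, rfl⟩ := l x hx
      simp only [one_smul, kh q hq, ContinuousLinearEquiv.refl_apply]
  rw [deg_nz rfl a fun _ _ e => n ⟨_, hU q0 h0 0 (by simp), sub_eq_zero.1 e⟩,
    deg_aff _ isOpen_interior bd (hB.interior_eq ▸ ⟨hy, fun k => n (hS k)⟩)] at e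
  rcases sg_cases (ContinuousLinearEquiv.refl ℝ (Rn 3)) with k | k <;> omega

theorem BSide_cv (y : Rn 3) (j : Fin 3) (τ : ℝ) : Convex ℝ {x : Rn 3 | 0 < τ * (x j - y j)} := by
  simp only [mul_sub, sub_pos]
  exact convex_halfSpace_gt (f := fun x : Rn 3 => τ * x j)
    ⟨fun _ _ => mul_add _ _ _, fun _ _ => mul_left_comm _ _ _⟩ _

theorem convex_half (y : Rn 3) (ρ : ℝ) (j : Fin 3) (τ : ℝ) :
    Convex ℝ {x : Rn 3 | dist x y ≤ ρ ∧ 0 < τ * (x j - y j)} :=
  (convex_closedBall y ρ).inter (BSide_cv y j τ)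

theorem convex_half' (y : Rn 3) (ρ : ℝ) (j : Fin 3) (τ : ℝ) :
    Convex ℝ {x : Rn 3 | dist x y < ρ ∧ 0 < τ * (x j - y j)} :=
  (convex_ball y ρ).inter (BSide_cv y j τ)

/-- A point of the wall is a limit of points of the upper half. -/
theorem wall_closure {y x : Rn 3} {ρ : ℝ} (hρ : 0 < ρ) {j : Fin 3} {τ : ℝ} (hτ : τ = 1 ∨ τ = -1)
    (h1 : dist x y ≤ ρ) (h2 : x j = y j) :
    x ∈ closure {x : Rn 3 | dist x y ≤ ρ ∧ 0 < τ * (x j - y j)} := by
  refine mem_closure_of_tendsto (b := 𝓝[>] 0) (f := fun t : ℝ => x + t • Pi.single j τ)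
    ((Continuous.tendsto' (by fun_prop) 0 x (by simp)).mono_left nhdsWithin_le_nhds) ?_
  filter_upwards [Ioo_mem_nhdsGT hρ] with t ht
  refine ⟨(dist_pi_le_iff hρ.le).2 fun i => ?_, ?_⟩
  · rcases eq_or_ne i j with rfl | e
    · rcases hτ with rfl | rfl <;> simp [h2, abs_of_pos ht.1, ht.2.le]
    · simpa [e] using (dist_le_pi_dist x y i).trans h1
  · rcases hτ with rfl | rfl <;> simp [h2, ht.1]

theorem ball_half (hB : Ball B S) {y : Rn 3} (hy : y ∈ S) {ρ : ℝ} (hρ : 0 < ρ) {j : Fin 3} {τ : ℝ}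
    (hτ : τ = 1 ∨ τ = -1) (hS : ∀ x ∈ S, dist x y ≤ ρ → x j = y j)
    (up : ∀ x, dist x y ≤ ρ → 0 < τ * (x j - y j) → x ∉ B) :
    (∀ x, dist x y ≤ ρ → (x ∈ S ↔ x j = y j)) ∧
      ∀ x, dist x y ≤ ρ → (x ∈ B ↔ τ * (x j - y j) ≤ 0) := by
  have t0 : τ ≠ 0 := by rcases hτ with rfl | rfl <;> norm_num
  have w : ∀ x, dist x y ≤ ρ → x j = y j → x ∈ B → x ∈ S := fun x a b c =>
    (hB.closure_out.le (closure_mono (fun z k => up z k.1 k.2)
      (wall_closure hρ hτ a b))).resolve_left fun k => k c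
  have dn : {x | dist x y ≤ ρ ∧ 0 < -τ * (x j - y j)} ⊆ B \ S := by
    refine (hB.side (convex_half y ρ j (-τ)).isPreconnected (disjoint_left.2 fun x a b => ?_)
      ).resolve_right fun k => ?_
    · exact a.2.ne' (by rw [hS x b a.1, sub_self, mul_zero])
    · obtain ⟨z, a, b⟩ := Metric.mem_closure_iff.1 (hB.closure_in.ge (hB.sub hy)) ρ hρ
      rw [dist_comm] at b
      refine a.2 (w z b.le (sub_eq_zero.1 ((mul_eq_zero.1 (le_antisymm
        (not_lt.1 fun c => up z b.le c a.1) (not_lt.1 fun c => ?_))).resolve_left t0)) a.1)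
      exact disjoint_left.1 k ⟨b.le, by rwa [neg_mul, neg_pos]⟩ a.1
  have wb : ∀ x, dist x y ≤ ρ → x j = y j → x ∈ B := fun x a b =>
    hB.closure_in.le (closure_mono dn (wall_closure hρ
      (hτ.symm.imp (fun k => by rw [k, neg_neg]) fun k => by rw [k]) a b))
  refine ⟨fun x a => ⟨fun b => hS x b a, fun b => w x a b (wb x a b)⟩,
    fun x a => ⟨fun b => not_lt.1 fun c => up x a c b, fun b => ?_⟩⟩
  rcases b.eq_or_lt with b | b
  · exact wb x a (sub_eq_zero.1 ((mul_eq_zero.1 b).resolve_left t0))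
  · exact (dn ⟨a, by rwa [neg_mul, neg_pos]⟩).1

end BEp
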