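import Pool.Agent.Work.MP_f0515e_an.D3.PArc
import Pool.Agent.Work.MP_f0515e_an.D3.PMod2
import Pool.Agent.Work.MP_f0515e_an.D3.PFill
import Pool.Agent.Work.MP_f0515e_an.Pos.HGL

/-! Planar moves.
`ssph_par`: shrink towards the centre `c` (`ie_line`, `d x = (ε - 1) • (x - c)`, the trace stays in the image of the closed ball);
change `M` by a reflection of one coordinate, which preserves the unit sphere, to get `0 < det` (`n = 0` trivial or covered);
`glp` gives a path `γ` from `1` to `M`, bounded on `[0,1]`; `ie` with `X = sphere 0 1`, `φ0 = c`, `lam j x = x j`,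
`w r j = ε • γ (1 - r) e_j`, `cut z = max 0 (δ - ‖z - c‖)`, `closedBall c δ ⊆ W`, `ε` small.
`ssph_aff`: conjugate (`Mv.conj`), `ssph_par`. `tri_sq`: shrink towards the vertex `0`, then `push` the small hypotenuse across the
triangle with apex `ε (e₀ + e₁)` (`len_tri`, `Len.symm`) fixing the two small legs; the four sides form
`sphere (ε/2, ε/2) (ε/2)`. `len2`: `arc_bij` with `arc_capU`, `arc_capL`, `tp_glue`, `len_of_bij`. About 300 lines. -/

open Set Metric Filter Topology Function BEv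
open scoped NNReal

noncomputable section
namespace BEp

variable {n m : ℕ}

theorem SSph.ball {W S : Set (Rn n)} (h : SSph W S) : ∃ B, Ball B S ∧ B ⊆ W := by
  obtain ⟨Φ, c, r, hΦ, hr, h1, h2⟩ := h
  refine ⟨invFun Φ '' closedBall c r, ?_, ?_⟩
  · have := (ball_round c hr).image hΦ.1.inv
    rwa [← h2, hΦ.1.inv_image] at this
  · exact (image_mono h1).trans (hΦ.inv.image_eq subset_rfl).subset

theorem SSph.of_mv {W S : Set (Rn n)} {Φ : Rn n → Rn n} (hΦ : Mv W Φ) (h : SSph W (Φ '' S)) :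
    SSph W S := by
  obtain ⟨Ψ, c, r, hΨ, hr, h1, h2⟩ := h
  exact ⟨Ψ ∘ Φ, c, r, hΨ.comp hΦ, hr, h1, by rw [image_comp, h2]⟩

theorem p2b_sph (c : Rn n) {r : ℝ} (hr : 0 < r) :
    (fun x : Rn n => c + r • x) '' sphere 0 1 = sphere c r ∧
      (fun x : Rn n => c + r • x) '' closedBall 0 1 = closedBall c r := by
  have e : ∀ x : Rn n, ‖c + r • x - c‖ = r * ‖x‖ := fun x => by
    rw [add_sub_cancel_left, norm_smul, Real.norm_of_nonneg hr.le]
  refine ⟨pm2_img (lh_hom c hr.ne') fun x => ?_, pm2_img (lh_hom c hr.ne') fun x => ?_⟩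
  · rw [mem_sphere_zero_iff_norm, mem_sphere_iff_norm, e, mul_eq_left₀ hr.ne']
  · rw [mem_closedBall_zero_iff, mem_closedBall_iff_norm, e, mul_le_iff_le_one_right hr]

theorem p2b_path {W X : Set (Rn n)} (hW : IsOpen W) (hX : Poly X) (c : Rn n)
    {Γ : ℝ → Rn n →L[ℝ] Rn n} (hΓ : Continuous Γ) (hi : ∀ r ∈ Icc (0 : ℝ) 1, Injective (Γ r))
    (hs : ∀ r ∈ Icc (0 : ℝ) 1, ∀ x ∈ X, c + Γ r x ∈ W) :
    ∃ Φ, Mv W Φ ∧ ∀ x ∈ X, Φ (c + Γ 0 x) = c + Γ 1 x := by
  obtain ⟨g, g1, g2, g3, g4⟩ := ptri_bump (((isCompact_Icc (a := (0 : ℝ)) (b := 1)).prod hX.1).image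
    (f := fun p : ℝ × Rn n => c + Γ p.1 p.2) (by fun_prop)) hW (by
      rintro _ ⟨p, hp, rfl⟩
      exact hs _ hp.1 _ hp.2)
  have hl : ∀ j, TP fun x : Rn n => x j := fun j => TP.id'.apply j
  have e : ∀ r : ℝ, fam (fun _ : Rn n => c) (fun j x => x j) (fun j => Γ r (Pi.single j 1)) =
      fun x => c + Γ r x := fun r => funext fun x => by
    simp only [fam, ← map_smul, ← map_sum]
    rw [← pi_eq_sum_univ' x]
  obtain ⟨Φ, -, -, h⟩ := ie hX (TP.const c) hl (w := fun r j => Γ r (Pi.single j 1)) (by fun_prop)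
    (fun r hr => by
      rw [e]
      exact fun x _ y _ h => hi r hr (add_left_cancel h)) g1 g2
    (fun r hr => plie_loj hX hl (g1.comp (plie_tp (TP.const c) hl _)) (fun _ => g2 _)
      fun x hx k j => by
        rw [e] at k
        exact absurd k (g3 _ ⟨(r, x), ⟨hr, hx⟩, rfl⟩).ne')
    ⊤ (fun _ _ _ => Submodule.mem_top) (ε := 1 / 2) (by norm_num)
  obtain ⟨k1, k2⟩ := h 1 (right_mem_Icc.2 zero_le_one)
  refine ⟨_, ⟨(k1.sg (by norm_num)).lh, fun z hz => k1.fix (g4 z hz)⟩, fun x hx => ?_⟩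
  have := k2 x hx
  rwa [e, e] at this

theorem p2b_pos {W : Set (Rn n)} (hW : IsOpen W) (N : Rn n →L[ℝ] Rn n) (hN : 0 < N.det) (c : Rn n)
    (hs : (fun x => N x + c) '' closedBall 0 1 ⊆ W) :
    SSph W ((fun x => N x + c) '' sphere 0 1) := by
  obtain ⟨γ, h1, h2, h3, h4⟩ := glp N hN
  obtain ⟨C, hC⟩ := (isCompact_Icc (a := (0 : ℝ)) (b := 1)).exists_bound_of_continuousOn
    h1.continuousOn
  have hc : c ∈ W := hs ⟨0, by simp, by simp⟩
  obtain ⟨δ, hδ, h5⟩ := nhds_basis_closedBall.mem_iff.1 (hW.mem_nhds hc)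
  have hC0 : 0 ≤ C := (norm_nonneg _).trans (hC 0 (left_mem_Icc.2 zero_le_one))
  obtain ⟨ε, e0, e1, e2, e3⟩ : ∃ ε : ℝ, 0 < ε ∧ ε ≤ 1 ∧ ε ≤ δ ∧ ε * C ≤ δ := by
    refine ⟨min 1 (δ / (C + 1)), by positivity, min_le_left _ _, ?_, ?_⟩
    · exact (min_le_right _ _).trans (div_le_self hδ.le (by linarith))
    · refine (mul_le_mul_of_nonneg_right (min_le_right _ _) hC0).trans ?_
      rw [div_mul_eq_mul_div, div_le_iff₀ (by positivity)]
      nlinarith
  obtain ⟨Φ, k1, k2⟩ := p2b_path hW (poly_sphere 0 1) c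
    (Γ := fun r => max ε (1 - 2 * r) • γ (2 - 2 * r)) (by fun_prop)
    (fun r _ x y h => (h2 _).1 (smul_right_injective _ (lt_max_of_lt_left e0).ne' h))
    (fun r hr x hx => by
      rw [mem_sphere_zero_iff_norm] at hx
      rcases le_total r (1 / 2) with h | h
      · refine hs ⟨max ε (1 - 2 * r) • x, ?_, ?_⟩
        · rw [mem_closedBall_zero_iff, norm_smul, hx, mul_one,
            Real.norm_of_nonneg (le_max_of_le_left e0.le)]
          exact max_le e1 (by linarith [hr.1])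
        · simp only [h4 _ (show 1 ≤ 2 - 2 * r by linarith), _root_.smul_apply, map_smul,
            add_comm]
      · refine h5 ?_
        rw [mem_closedBall_iff_norm, add_sub_cancel_left, max_eq_left (by linarith),
          _root_.smul_apply, norm_smul, Real.norm_of_nonneg e0.le]
        refine le_trans (mul_le_mul_of_nonneg_left ?_ e0.le) e3
        have := (γ (2 - 2 * r)).le_opNorm x
        rw [hx, mul_one] at this
        exact this.trans (hC _ ⟨by linarith [hr.2], by linarith⟩))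
  refine ⟨Φ, c, ε, k1, e0, (closedBall_subset_closedBall e2).trans h5, ?_⟩
  rw [← (p2b_sph c e0).1, image_image]
  refine image_congr fun x hx => ?_
  have := k2 x hx
  rw [h3 (2 - 2 * 1) (by norm_num), h4 (2 - 2 * 0) (by norm_num), max_eq_right (by linarith),
    max_eq_left (by linarith)] at this
  simpa [add_comm] using this

theorem p2b_par {W : Set (Rn n)} (hW : IsOpen W) (N : Rn n →L[ℝ] Rn n) (hN : Injective N)
    (c : Rn n) (hs : (fun x => N x + c) '' closedBall 0 1 ⊆ W) :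
    SSph W ((fun x => N x + c) '' sphere 0 1) := by
  have h0 : N.det ≠ 0 := fun h =>
    (LinearMap.bot_lt_ker_of_det_eq_zero h).ne' (LinearMap.ker_eq_bot.2 hN)
  rcases h0.lt_or_gt with h | h
  swap
  · exact p2b_pos hW N h c hs
  rcases isEmpty_or_nonempty (Fin n) with hn | ⟨⟨i⟩⟩
  · rw [ContinuousLinearMap.det, LinearMap.det_eq_one_of_subsingleton] at h
    exact absurd h (by norm_num)
  let ρ : Rn n →L[ℝ] Rn n :=
    LinearMap.toContinuousLinearMap (Matrix.toLin' (Matrix.diagonal (update 1 i (-1))))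
  have e : ∀ x, ρ x = update x i (-x i) := fun x => funext fun j => by
    by_cases hj : j = i
    · subst hj
      simp [ρ, Matrix.mulVec_diagonal]
    · simp [ρ, Matrix.mulVec_diagonal, hj]
  have e1 : ∀ x, ρ (ρ x) = x := fun x => by simp [e]
  have e2 : ∀ x, ‖ρ x‖ = ‖x‖ := fun x => by
    rw [norm_eq_hz i (ρ x), norm_eq_hz i x, e]
    simp [hz]
  have e3 : (N ∘L ρ).det = -N.det := by
    change LinearMap.det ((N : Rn n →ₗ[ℝ] Rn n) ∘ₗ (ρ : Rn n →ₗ[ℝ] Rn n)) = _
    rw [LinearMap.det_comp]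
    simp [ρ, LinearMap.det_toLin', Finset.prod_update_of_mem, ContinuousLinearMap.det]
  have e4 : ∀ A : Set (Rn n), (∀ x ∈ A, ρ x ∈ A) →
      (fun x => (N ∘L ρ) x + c) '' A = (fun x => N x + c) '' A := fun A hA => by
    ext y
    constructor
    · rintro ⟨x, hx, rfl⟩
      exact ⟨ρ x, hA x hx, rfl⟩
    · rintro ⟨x, hx, rfl⟩
      exact ⟨ρ x, hA x hx, by simp only [ContinuousLinearMap.comp_apply, e1]⟩
  rw [← e4 _ fun x hx => by simpa [e2] using hx] at hs ⊢
  exact p2b_pos hW _ (by rw [e3]; linarith) c hs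

theorem ssph_par {W : Set (Rn n)} (hW : IsOpen W) (M : Rn n ≃L[ℝ] Rn n) (c : Rn n)
    (hs : (fun x => M x + c) '' closedBall 0 1 ⊆ W) :
    SSph W ((fun x => M x + c) '' sphere 0 1) := by
  exact p2b_par hW (M : Rn n →L[ℝ] Rn n) M.injective c hs

theorem ssph_aff {W S : Set (Rn n)} (hW : IsOpen W) (M : Rn n ≃L[ℝ] Rn n) (c : Rn n)
    (h : SSph ((fun x => M x + c) '' W) ((fun x => M x + c) '' S)) : SSph W S := by
  obtain ⟨Φ, c', r, hΦ, hr, h1, h2⟩ := h
  have k := lh_aff M c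
  have h3 := hΦ.conj k.inv
  rw [k.inv_image, k.inv_inv] at h3
  have e : (fun x => (r • (M.symm : Rn n →L[ℝ] Rn n)) x + M.symm (c' - c)) =
      invFun (fun x => M x + c) ∘ fun x => c' + r • x := funext fun x => (k.inv_eq (by
    simp only [_root_.smul_apply, map_add, map_smul, ContinuousLinearEquiv.coe_coe,
      ContinuousLinearEquiv.apply_symm_apply]
    abel)).symm
  have h4 := p2b_par hW (r • (M.symm : Rn n →L[ℝ] Rn n))
    (fun x y h => M.symm.injective (smul_right_injective _ hr.ne' h)) (M.symm (c' - c)) (by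
      rw [e, image_comp, (p2b_sph c' hr).2]
      exact (image_mono h1).trans (k.inv_image W).subset)
  refine SSph.of_mv h3 ?_
  rwa [image_comp, image_comp, h2, ← (p2b_sph c' hr).1, ← image_comp, ← e]

theorem p2b_seg (p q x : Rn 2) : x ∈ segment ℝ p q ↔
    ∃ t : ℝ, 0 ≤ t ∧ t ≤ 1 ∧ x 0 = p 0 + t * (q 0 - p 0) ∧ x 1 = p 1 + t * (q 1 - p 1) := by
  rw [segment_eq_image']
  constructor
  · rintro ⟨t, ht, rfl⟩
    exact ⟨t, ht.1, ht.2, by simp, by simp⟩
  · rintro ⟨t, h0, h1, h2, h3⟩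
    refine ⟨t, ⟨h0, h1⟩, ?_⟩
    ext j
    fin_cases j
    · simpa using h2.symm
    · simpa using h3.symm

theorem p2b_norm (x : Rn 2) : ‖x‖ = max |x 0| |x 1| := by
  rw [norm_eq_hz 1 x, pm2_hz]

theorem p2b_model {W : Set (Rn 2)} (hW : IsOpen W) (h : closedBall 0 1 ⊆ W) :
    SSph W (segment ℝ 0 ![1, 0] ∪ segment ℝ 0 ![0, 1] ∪ segment ℝ ![1, 0] ![0, 1]) := by
  have hl := len_tri (v := ![1, 1]) (a := ![1, 0]) (b := ![0, 1]) (by
    rw [LinearIndependent.pair_iff]
    intro s t hst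
    have h0 := congrFun hst 0
    have h1 := congrFun hst 1
    simp at h0 h1
    exact ⟨h1, h0⟩)
  obtain ⟨Φ, h1, h2, h3, -⟩ := push hl.symm
    ((poly_segment 0 ![1, 0]).union (poly_segment 0 ![0, 1])) (O := W)
    (by
      rintro x ⟨hx, s, t, hs, ht, hst, e⟩
      have e0 := congrFun e 0
      have e1 := congrFun e 1
      simp at e0 e1
      rcases hx with hx | hx <;> obtain ⟨u, u0, u1, u2, u3⟩ := (p2b_seg _ _ _).1 hx <;>
        simp at u2 u3
      · left
        ext j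
        fin_cases j
        · show x 0 = 1
          linarith
        · exact u3
      · right
        ext j
        fin_cases j
        · exact u2
        · show x 1 = 1
          linarith) hW
    (by
      rintro x ⟨s, t, hs, ht, hst, e⟩
      have e0 := congrFun e 0
      have e1 := congrFun e 1
      simp at e0 e1
      refine h ?_
      rw [mem_closedBall_zero_iff, p2b_norm, max_le_iff, abs_le, abs_le]
      refine ⟨⟨?_, ?_⟩, ?_, ?_⟩ <;> linarith)
  refine ⟨Φ, ![1 / 2, 1 / 2], 1 / 2, h1, by norm_num, fun x hx => h ?_, ?_⟩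
  · rw [mem_closedBall_iff_norm, p2b_norm, max_le_iff, abs_le, abs_le] at hx
    simp only [Pi.sub_apply, Matrix.cons_val_zero, Matrix.cons_val_one] at hx
    rw [mem_closedBall_zero_iff, p2b_norm, max_le_iff, abs_le, abs_le]
    refine ⟨⟨?_, ?_⟩, ?_, ?_⟩ <;> linarith [hx.1.1, hx.1.2, hx.2.1, hx.2.2]
  rw [image_union, h2, image_congr h3, image_id']
  ext x
  simp only [mem_union, p2b_seg, mem_sphere_iff_norm, p2b_norm, Pi.sub_apply, Pi.zero_apply,
    Matrix.cons_val_zero, Matrix.cons_val_one]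
  constructor
  · rintro ((⟨t, t0, t1, e0, e1⟩ | ⟨t, t0, t1, e0, e1⟩) | ⟨t, t0, t1, e0, e1⟩ |
      ⟨t, t0, t1, e0, e1⟩) <;> rw [e0, e1]
    · rw [max_eq_right] <;> norm_num [abs_le]
      constructor <;> linarith
    · rw [max_eq_left] <;> norm_num [abs_le]
      constructor <;> linarith
    · rw [max_eq_left] <;> norm_num [abs_le]
      constructor <;> linarith
    · rw [max_eq_right] <;> norm_num [abs_le]
      constructor <;> linarith
  · intro hx
    have h0 := abs_le.1 ((le_max_left _ _).trans hx.le)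
    have h1 := abs_le.1 ((le_max_right _ _).trans hx.le)
    rcases max_eq_iff.1 hx with ⟨k, -⟩ | ⟨k, -⟩ <;>
      rcases (abs_eq (by norm_num)).1 k with k | k
    · exact Or.inr (Or.inl ⟨1 - x 1, by linarith [h1.2], by linarith [h1.1], by linarith,
        by linarith⟩)
    · exact Or.inl (Or.inr ⟨x 1, by linarith [h1.1], by linarith [h1.2], by linarith,
        by linarith⟩)
    · exact Or.inr (Or.inr ⟨1 - x 0, by linarith [h0.2], by linarith [h0.1], by linarith,
        by linarith⟩)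
    · exact Or.inl (Or.inl ⟨x 0, by linarith [h0.1], by linarith [h0.2], by linarith,
        by linarith⟩)

theorem tri_sq {W : Set (Rn 2)} (hW : IsOpen W) (hc : Convex ℝ W) (h0 : (0 : Rn 2) ∈ W)
    (h1 : ![1, 0] ∈ W) (h2 : ![0, 1] ∈ W) :
    SSph W (segment ℝ 0 ![1, 0] ∪ segment ℝ 0 ![0, 1] ∪ segment ℝ ![1, 0] ![0, 1]) := by
  obtain ⟨δ, hδ, h3⟩ := nhds_basis_closedBall.mem_iff.1 (hW.mem_nhds h0)
  obtain ⟨ε, e0, e1, e2⟩ : ∃ ε : ℝ, 0 < ε ∧ ε ≤ 1 ∧ ε ≤ δ :=
    ⟨min 1 δ, by positivity, min_le_left _ _, min_le_right _ _⟩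
  have hT : segment ℝ 0 ![1, 0] ∪ segment ℝ 0 ![0, 1] ∪ segment ℝ ![1, 0] ![0, 1] ⊆ W :=
    union_subset (union_subset (hc.segment_subset h0 h1) (hc.segment_subset h0 h2))
      (hc.segment_subset h1 h2)
  obtain ⟨Φ, k1, k2⟩ := p2b_path hW
    (((poly_segment 0 ![1, 0]).union (poly_segment 0 ![0, 1])).union
      (poly_segment ![1, 0] ![0, 1])) 0
    (Γ := fun r => max ε (1 - r) • ContinuousLinearMap.id ℝ (Rn 2)) (by fun_prop)
    (fun r _ x y h => smul_right_injective _ (lt_max_of_lt_left e0).ne' h)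
    (fun r hr x hx => by
      rw [zero_add]
      exact hc.smul_mem_of_zero_mem h0 (hT hx)
        ⟨le_max_of_le_left e0.le, max_le e1 (by linarith [hr.1])⟩)
  refine SSph.of_mv k1 ?_
  let M : Rn 2 ≃L[ℝ] Rn 2 := ContinuousLinearEquiv.smulLeft (Units.mk0 ε⁻¹ (inv_ne_zero e0.ne'))
  have hM : ∀ x, M (ε • x) + 0 = x := fun x => by
    change ε⁻¹ • ε • x + 0 = x
    rw [inv_smul_smul₀ e0.ne', add_zero]
  refine ssph_aff hW M 0 ?_
  obtain ⟨e, he, -⟩ := (lh_aff M 0).homeo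
  rw [image_image, image_congr (f := fun x => M (Φ x) + 0) (g := fun x => x), image_id']
  · refine p2b_model (he ▸ e.isOpenMap _ hW) fun x hx => (mem_image _ _ _).2 ⟨ε • x, h3 ?_, hM x⟩
    rw [mem_closedBall_zero_iff] at hx ⊢
    rw [norm_smul, Real.norm_of_nonneg e0.le]
    nlinarith
  · intro x hx
    have := k2 x hx
    rw [max_eq_right (by linarith), max_eq_left (by linarith)] at this
    simp only [zero_add, sub_zero, one_smul, _root_.smul_apply,
      ContinuousLinearMap.id_apply] at this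
    rw [this, hM]

theorem len2 {B A₁ A₂ : Set (Rn 2)} {a b : Rn 2} (h : Ball B (A₁ ∪ A₂)) (h1 : Arc A₁ a b)
    (h2 : Arc A₂ a b) (hi : A₁ ∩ A₂ = {a, b}) : Len 1 B A₁ A₂ {a, b} := by
  obtain ⟨g₁, t1, b1, a1, c1⟩ := arc_bij h1 arc_capU
  obtain ⟨g₂, t2, b2, a2, c2⟩ := arc_bij h2 arc_capL
  obtain ⟨k, hk, k1, k2⟩ := tp_glue h1.poly h2.poly t1 t2 (by
    rw [hi]
    rintro x (rfl | rfl)
    · rw [a1, a2]
    · rw [c1, c2])
  have d1 := b1.congr k1.symm
  have d2 := b2.congr k2.symm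
  have ha : a ∈ A₁ ∩ A₂ := hi ▸ mem_insert _ _
  have hb : b ∈ A₁ ∩ A₂ := hi ▸ mem_insert_of_mem _ rfl
  have key : ∀ x ∈ A₁, ∀ y ∈ A₂, k x = k y → x = y := by
    intro x hx y hy e
    have h3 : k y ∈ eqt (1 : Fin 2) :=
      (pfill_idlen (1 : Fin 2)).inter ▸ ⟨e ▸ d1.mapsTo hx, d2.mapsTo hy⟩
    rw [eqt_two, k2 hy] at h3
    have h4 : y ∈ A₁ := by
      rcases h3 with h3 | h3
      · rw [b2.injOn hy ha.2 (h3.trans a2.symm)]
        exact ha.1
      · rw [b2.injOn hy hb.2 (h3.trans c2.symm)]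
        exact hb.1
    exact d1.injOn hx h4 e
  rw [← hi]
  refine len_of_bij h hk ?_ d1.image_eq d2.image_eq
  rintro x (hx | hx) y (hy | hy) e
  · exact d1.injOn hx hy e
  · exact key x hx y hy e
  · exact (key y hy x hx e.symm).symm
  · exact d2.injOn hx hy e

end BEp
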