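import Pool.Agent.Work.MP_f0515e_an.D3.P2a
import Pool.Agent.Work.MP_f0515e_an.D3.P2b
import Pool.Agent.Work.MP_f0515e_an.D3.PThm

/-! The planar Schoenflies theorem with support, by induction on the number of corners.
`s2_cases`: `β x = 1 - x 0 - x 1`, `Δ = {0 ≤ x 0, 0 ≤ x 1, 0 ≤ β}`. If `R ∩ Δ` has a point other than `e₀`, `e₁`, some maximiser `x` of
`β` on `R ∩ Δ` is not `e₀`, `e₁` (if the maximum is `0` take that point); it is off the legs, so both coordinates are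
positive. If `x` is a corner take `w = x`. Else `±v` are tangent and maximality forces `v 0 + v 1 = 0`, so `±(1,-1)` lie in
the link. `crc_next` in direction `u = (1,-1)`: if `s < x 1` take `w = x + s u`; else the point `(x 0 + x 1, 0)` lies on the
segment: if `0 < β x` it is an inner point of the leg, with link `{±e₀}` (`lk_straight`), which does not contain `-u`; so
`β x = 0` and `segment x e₀ ⊆ J`. Same with `-u`. On the open diagonal `β` is larger than `β w`.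
`s2_step`: legs form an arc `A₀` from `e₀` to `e₁`, `crc_compl` gives `R`. First case: `push` across `len_tri` fixing `R`,
`cor_lt` with `p = 0`. Second: `tcrc_sub`, `tri_sq`. Third: `Arc.split` of `R` at `w`, arcs `A₁ ∋ e₀`, `A₂ ∋ e₁` from `0` to `w`,
`cor_lt` twice, `SSph.ball`, `len2`, `thm11` with `O = W`, `SSph.of_mv` with `Mv.inv`.
`s2`: strong induction, `exists_cor`, affine normalisation (`cor_aff`, `ssph_aff`). About 300 lines. -/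

open Set Metric Filter Topology Function BEv
open scoped NNReal

noncomputable section
namespace BEp

variable {n m : ℕ}

theorem p2c_ext {x y : Rn 2} : x = y ↔ x 0 = y 0 ∧ x 1 = y 1 :=
  funext_iff.trans Fin.forall_fin_two

theorem p2c_s0 {x : Rn 2} : x ∈ segment ℝ 0 ![1, 0] ↔ 0 ≤ x 0 ∧ x 0 ≤ 1 ∧ x 1 = 0 := by
  refine ⟨?_, fun ⟨a, b, c⟩ => ⟨1 - x 0, x 0, by linarith, a, by ring, p2c_ext.2 (by simp [c])⟩⟩
  rintro ⟨a, b, ha, hb, e, rfl⟩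
  simp [hb]
  linarith

theorem p2c_s1 {x : Rn 2} : x ∈ segment ℝ 0 ![0, 1] ↔ 0 ≤ x 1 ∧ x 1 ≤ 1 ∧ x 0 = 0 := by
  refine ⟨?_, fun ⟨a, b, c⟩ => ⟨1 - x 1, x 1, by linarith, a, by ring, p2c_ext.2 (by simp [c])⟩⟩
  rintro ⟨a, b, ha, hb, e, rfl⟩
  simp [hb]
  linarith

theorem p2c_sH {x : Rn 2} :
    x ∈ segment ℝ ![1, 0] ![0, 1] ↔ 0 ≤ x 0 ∧ 0 ≤ x 1 ∧ x 0 + x 1 = 1 := by
  refine ⟨?_, fun ⟨a, b, c⟩ => ⟨x 0, x 1, a, b, c, p2c_ext.2 (by simp)⟩⟩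
  rintro ⟨a, b, ha, hb, e, rfl⟩
  simp [ha, hb, e]

theorem p2c_tc {S : Set (Rn n)} {x v : Rn n} {a : ℝ} (ha : 0 < a)
    (h : ∀ t, 0 < t → t < a → x + t • v ∈ S) : v ∈ tc S x :=
  mem_of_superset (Ioo_mem_nhdsGT ha) fun t ht => h t ht.1 ht.2

theorem p2c_dir {J : Set (Rn n)} (h : Crc J) {x u : Rn n} {a : ℝ} (hx : x ∈ J) (hu : u ∈ lk J x)
    (ha : 0 < a) : (∃ s, 0 < s ∧ s < a ∧ x + s • u ∈ cor J) ∨
      ((∀ t, 0 ≤ t → t ≤ a → x + t • u ∈ J) ∧ -u ∈ lk J (x + a • u)) := by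
  obtain ⟨s, s0, s1, s2, -⟩ := crc_next h hx hu
  rcases lt_or_ge s a with k | k
  · exact Or.inl ⟨s, s0, k, s1⟩
  have e : ∀ t, 0 ≤ t → t ≤ a → x + t • u ∈ J := fun t t0 t1 => s2 (by
    rw [segment_eq_image']
    refine ⟨t / s, ⟨by positivity, (div_le_one s0).2 (t1.trans k)⟩, ?_⟩
    simp only [add_sub_cancel_left, smul_smul, div_mul_cancel₀ _ s0.ne'])
  refine Or.inr ⟨e, (norm_neg u).trans hu.1, p2c_tc ha fun t t0 t1 => ?_⟩
  convert e (a - t) (by linarith) (by linarith) using 1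
  module

theorem s2_cases {J R : Set (Rn 2)} (h : Crc J) (hR : IsClosed R)
    (hu : segment ℝ 0 ![1, 0] ∪ segment ℝ 0 ![0, 1] ∪ R = J)
    (hi : (segment ℝ 0 ![1, 0] ∪ segment ℝ 0 ![0, 1]) ∩ R = {![1, 0], ![0, 1]})
    (s0 : ∀ t : ℝ, 0 < t → t < 1 → ![t, 0] ∉ cor J)
    (s1 : ∀ t : ℝ, 0 < t → t < 1 → ![0, t] ∉ cor J) :
    (∀ x ∈ R, 0 ≤ x 0 → 0 ≤ x 1 → x 0 + x 1 ≤ 1 → x = ![1, 0] ∨ x = ![0, 1]) ∨
      segment ℝ ![1, 0] ![0, 1] ⊆ J ∨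
      ∃ w ∈ cor J, w ∈ R ∧ 0 < w 0 ∧ 0 < w 1 ∧ w 0 + w 1 ≤ 1 ∧ segment ℝ 0 w ∩ J = {0, w} := by
  rw [or_iff_not_imp_left]
  intro hn
  push Not at hn
  obtain ⟨y, yR, y0, y1, y2, y3, y4⟩ := hn
  have hRJ : R ⊆ J := hu ▸ subset_union_right
  have inR : ∀ z ∈ J, 0 < z 0 → 0 < z 1 → z ∈ R := fun z hz z0 z1 => by
    rcases (hu ▸ hz : z ∈ _ ∪ _ ∪ R) with (k | k) | k
    · exact absurd (p2c_s0.1 k).2.2 z1.ne'
    · exact absurd (p2c_s1.1 k).2.2 z0.ne'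
    · exact k
  obtain ⟨x, ⟨xR, x0, x1, x2⟩, ⟨n0, n1⟩, hm⟩ :
      ∃ x : Rn 2, (x ∈ R ∧ 0 ≤ x 0 ∧ 0 ≤ x 1 ∧ x 0 + x 1 ≤ 1) ∧ (x ≠ ![1, 0] ∧ x ≠ ![0, 1]) ∧
        ∀ z ∈ R, 0 ≤ z 0 → 0 ≤ z 1 → z 0 + z 1 ≤ 1 → x 0 + x 1 ≤ z 0 + z 1 := by
    have hK : IsCompact {z : Rn 2 | z ∈ R ∧ 0 ≤ z 0 ∧ 0 ≤ z 1 ∧ z 0 + z 1 ≤ 1} :=
      h.poly.1.of_isClosed_subset (hR.inter ((isClosed_le continuous_const
        (continuous_apply 0)).inter ((isClosed_le continuous_const (continuous_apply 1)).inter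
          (isClosed_le ((continuous_apply 0).add (continuous_apply 1)) continuous_const))))
        fun z hz => hRJ hz.1
    obtain ⟨x, hx, hm⟩ := hK.exists_isMinOn (f := fun z => z 0 + z 1) ⟨y, yR, y0, y1, y2⟩
      (by fun_prop)
    have hm' : ∀ z ∈ R, 0 ≤ z 0 → 0 ≤ z 1 → z 0 + z 1 ≤ 1 → x 0 + x 1 ≤ z 0 + z 1 :=
      fun z a b c d => hm (⟨a, b, c, d⟩ : z ∈ {z : Rn 2 | z ∈ R ∧ _})
    rcases hx.2.2.2.eq_or_lt with e | e
    · exact ⟨y, ⟨yR, y0, y1, y2⟩, ⟨y3, y4⟩, fun z a b c d => (y2.trans e.ge).trans (hm' z a b c d)⟩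
    · refine ⟨x, hx, ⟨?_, ?_⟩, hm'⟩ <;> rintro rfl <;> simp at e
  have off : x ∉ segment ℝ 0 ![1, 0] ∪ segment ℝ 0 ![0, 1] := fun k =>
    (hi ▸ (⟨k, xR⟩ : x ∈ _ ∩ R) : x ∈ ({![1, 0], ![0, 1]} : Set (Rn 2))).elim n0 n1
  have p0 : 0 < x 0 := x0.lt_of_ne fun k => off (Or.inr (p2c_s1.2 ⟨x1, by linarith, k.symm⟩))
  have p1 : 0 < x 1 := x1.lt_of_ne fun k => off (Or.inl (p2c_s0.2 ⟨x0, by linarith, k.symm⟩))
  have diag : ∀ w ∈ cor J, 0 < w 0 → 0 < w 1 → w 0 + w 1 = x 0 + x 1 → ∃ w ∈ cor J, w ∈ R ∧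
      0 < w 0 ∧ 0 < w 1 ∧ w 0 + w 1 ≤ 1 ∧ segment ℝ 0 w ∩ J = {0, w} := fun w hw w0 w1 e => by
    refine ⟨w, hw, inR w hw.1 w0 w1, w0, w1, e ▸ x2, Subset.antisymm ?_ ?_⟩
    · rintro _ ⟨⟨a, t, ha, ht, hat, rfl⟩, hz⟩
      rw [smul_zero, zero_add] at hz ⊢
      rcases ht.eq_or_lt with rfl | ht
      · exact Or.inl (zero_smul _ _)
      rcases ha.eq_or_lt with rfl | ha
      · rw [zero_add] at hat
        exact Or.inr (by rw [hat, one_smul]; rfl)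
      have q0 : 0 < (t • w) 0 := mul_pos ht w0
      have q1 : 0 < (t • w) 1 := mul_pos ht w1
      have q2 : (t • w) 0 + (t • w) 1 < x 0 + x 1 := by
        simp only [Pi.smul_apply, smul_eq_mul]
        nlinarith
      exact absurd (hm _ (inR _ hz q0 q1) q0.le q1.le (q2.le.trans x2)) q2.not_ge
    · rintro z (rfl | rfl)
      · exact ⟨left_mem_segment _ _ _, hu ▸ Or.inl (Or.inl (left_mem_segment _ _ _))⟩
      · exact ⟨right_mem_segment _ _ _, hw.1⟩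
  by_cases hc : x ∈ cor J
  · exact Or.inr (diag x hc p0 p1 rfl)
  obtain ⟨v, v0, v1, v2⟩ : ∃ v, v ≠ 0 ∧ v ∈ tc J x ∧ -v ∈ tc J x :=
    by_contra fun k => hc ⟨hRJ xR, k⟩
  have key : ∀ v ∈ tc J x, 0 ≤ v 0 + v 1 := fun v hv => le_of_not_gt fun k => by
    have c : ∀ i, 0 < x i → ∀ᶠ t in 𝓝[>] (0 : ℝ), 0 < (x + t • v) i := fun i hi =>
      (((continuous_apply i).tendsto x).comp (YPLk_ray x v)).eventually_const_lt hi
    obtain ⟨t, ⟨⟨a, b⟩, d⟩, ht⟩ :=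
      ((((c 0 p0).and (c 1 p1)).and hv).and self_mem_nhdsWithin).exists
    have q2 : (x + t • v) 0 + (x + t • v) 1 < x 0 + x 1 := by
      simp only [Pi.add_apply, Pi.smul_apply, smul_eq_mul]
      nlinarith [(ht : 0 < t)]
    exact absurd (hm _ (inR _ d a b) a.le b.le (q2.le.trans x2)) q2.not_ge
  have k1 : v 1 = -v 0 := by
    have a := key v v1
    have b := key _ v2
    simp only [Pi.neg_apply] at b
    linarith
  obtain ⟨u1, u2⟩ : ![1, -1] ∈ tc J x ∧ ![-1, 1] ∈ tc J x := by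
    have e1 : v = v 0 • ![1, -1] := p2c_ext.2 (by simp [k1])
    have e2 : -v = v 0 • ![-1, 1] := p2c_ext.2 (by simp [k1])
    have e3 : -v = (-v 0) • ![1, -1] := p2c_ext.2 (by simp [k1])
    have e4 : v = (-v 0) • ![-1, 1] := p2c_ext.2 (by simp [k1])
    rcases lt_trichotomy (v 0) 0 with k | k | k
    · exact ⟨(tc_smul (neg_pos.2 k)).1 (e3 ▸ v2), (tc_smul (neg_pos.2 k)).1 (e4 ▸ v1)⟩
    · exact absurd (by rw [e1, k, zero_smul]) v0
    · exact ⟨(tc_smul k).1 (e1 ▸ v1), (tc_smul k).1 (e2 ▸ v2)⟩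
  have nu : ∀ a b : ℝ, max |a| |b| = 1 → ‖![a, b]‖ = 1 := fun a b e => by
    rw [norm_eq_hz 1, pm2_hz]; exact e
  rcases p2c_dir h (hRJ xR) ⟨nu 1 (-1) (by simp), u1⟩ p1 with
    ⟨s, a, b, c⟩ | ⟨a1, b1⟩
  · exact Or.inr (diag _ c (by simp; linarith) (by simp; linarith) (by simp; ring))
  rcases p2c_dir h (hRJ xR) ⟨nu (-1) 1 (by simp), u2⟩ p0 with
    ⟨s, a, b, c⟩ | ⟨a0, -⟩
  · exact Or.inr (diag _ c (by simp; linarith) (by simp; linarith) (by simp; ring))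
  have hσ : x 0 + x 1 = 1 := x2.antisymm (le_of_not_gt fun k => by
    have e : x + x 1 • ![1, -1] = ![x 0 + x 1, 0] := p2c_ext.2 (by simp)
    have l : ∀ t, 0 ≤ t → t ≤ 1 → ![t, 0] ∈ J := fun t a b =>
      hu ▸ Or.inl (Or.inl (p2c_s0.2 ⟨a, b, rfl⟩))
    rw [e, lk_straight (v := ![1, 0]) h (l _ (by linarith) k.le)
      ⟨nu 1 0 (by simp), p2c_tc (sub_pos.2 k) fun t a b => by
        convert l (x 0 + x 1 + t) (by linarith) (by linarith) using 1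
        exact p2c_ext.2 (by simp)⟩ (s0 _ (by linarith) k)] at b1
    rcases b1 with b | b <;> simpa using congrFun b 1)
  refine Or.inl fun z hz => ?_
  obtain ⟨z0, z1, z2⟩ := p2c_sH.1 hz
  rcases le_total (x 0) (z 0) with k | k
  · convert a1 (z 0 - x 0) (by linarith) (by linarith) using 1
    exact p2c_ext.2 ⟨by simp, by simp; linarith⟩
  · convert a0 (x 0 - z 0) (by linarith) (by linarith) using 1
    exact p2c_ext.2 ⟨by simp, by simp; linarith⟩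

theorem p2c_half {J W A₁ A₂ : Set (Rn 2)} {a b p : Rn 2} (hc : Convex ℝ W) (hs : J ⊆ W)
    (ih : ∀ J' : Set (Rn 2), Crc J' → J' ⊆ W → (cor J').ncard < (cor J).ncard → SSph W J')
    (h1 : Arc A₁ a b) (h2 : Arc A₂ a b) (hu : A₁ ∪ A₂ = J) (hi : A₁ ∩ A₂ = {a, b})
    (hd : segment ℝ a b ∩ J = {a, b}) (ha : a ∈ cor J) (hb : b ∈ cor J) (hp : p ∈ cor J)
    (p2 : p ∈ A₂) (pn : p ∉ ({a, b} : Set (Rn 2))) : SSph W (A₁ ∪ segment ℝ a b) ∧
      ∃ B, Len 1 B A₁ (segment ℝ a b) {a, b} ∧ B ⊆ W := by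
  subst hu
  have i1 : A₁ ∩ segment ℝ a b = {a, b} := by
    refine Subset.antisymm (fun x hx => pthm_mem hd hx.2 (Or.inl hx.1)) ?_
    rintro x (rfl | rfl)
    exacts [⟨h1.tarc.left, left_mem_segment _ _ _⟩, ⟨h1.tarc.right, right_mem_segment _ _ _⟩]
  have k := ih _ (crc_glue h1 (arc_seg h1.tarc.ne) i1) (union_subset (subset_union_left.trans hs)
    (hc.segment_subset (hs ha.1) (hs hb.1))) (cor_lt h1 h2 hi i1 ha hb hp fun k =>
      pn (k.elim (fun k => pthm_mem hi k p2) fun k => pthm_mem hd k hp.1))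
  obtain ⟨B, b1, b2⟩ := k.ball
  exact ⟨k, B, len2 b1 h1 (arc_seg h1.tarc.ne) i1, b2⟩

theorem p2c_cut {J W A₁ A₂ : Set (Rn 2)} {a b p q : Rn 2} (hW : IsOpen W) (hc : Convex ℝ W)
    (hs : J ⊆ W)
    (ih : ∀ J' : Set (Rn 2), Crc J' → J' ⊆ W → (cor J').ncard < (cor J).ncard → SSph W J')
    (h1 : Arc A₁ a b) (h2 : Arc A₂ a b) (hu : A₁ ∪ A₂ = J) (hi : A₁ ∩ A₂ = {a, b})
    (hd : segment ℝ a b ∩ J = {a, b}) (ha : a ∈ cor J) (hb : b ∈ cor J) (hp : p ∈ cor J)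
    (hq : q ∈ cor J) (p1 : p ∈ A₁) (q2 : q ∈ A₂) (pn : p ∉ ({a, b} : Set (Rn 2)))
    (qn : q ∉ ({a, b} : Set (Rn 2))) : SSph W J := by
  have hu' := (union_comm _ _).trans hu
  obtain ⟨k1, B₁, b1, c1⟩ := p2c_half hc hs ih h1 h2 hu hi hd ha hb hq q2 qn
  obtain ⟨k2, B₂, b2, c2⟩ :=
    p2c_half hc hs ih h2 h1 hu' ((inter_comm _ _).trans hi) hd ha hb hp p1 pn
  obtain ⟨Φ, f1, -, ⟨f2, f3⟩ | ⟨f2, f3⟩⟩ := thm11 le_rfl b1 b2 hi hW c1 c2
  · refine SSph.of_mv f1.inv ?_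
    rwa [← hu', ← f2, ← pthm_fix f3, ← image_union, f1.1.inv_image]
  · refine SSph.of_mv f1.inv ?_
    rwa [← hu, ← f2, ← pthm_fix f3, ← image_union, f1.1.inv_image]

theorem s2_step {J W : Set (Rn 2)} (h : Crc J) (hW : IsOpen W) (hc : Convex ℝ W) (hs : J ⊆ W)
    (ih : ∀ J' : Set (Rn 2), Crc J' → J' ⊆ W → (cor J').ncard < (cor J).ncard → SSph W J')
    (c0 : (0 : Rn 2) ∈ cor J) (c1 : ![1, 0] ∈ cor J) (c2 : ![0, 1] ∈ cor J)
    (l0 : segment ℝ 0 ![1, 0] ⊆ J) (l1 : segment ℝ 0 ![0, 1] ⊆ J)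
    (s0 : ∀ t : ℝ, 0 < t → t < 1 → ![t, 0] ∉ cor J)
    (s1 : ∀ t : ℝ, 0 < t → t < 1 → ![0, t] ∉ cor J) : SSph W J := by
  have n0 : (0 : Rn 2) ≠ ![1, 0] := fun k => by simpa using congrFun k 0
  have n1 : (0 : Rn 2) ≠ ![0, 1] := fun k => by simpa using congrFun k 1
  have n2 : (![1, 0] : Rn 2) ≠ ![0, 1] := fun k => by simpa using congrFun k 1
  have i0 : segment ℝ (0 : Rn 2) ![1, 0] ∩ segment ℝ 0 ![0, 1] = {0} :=
    eq_singleton_iff_unique_mem.2 ⟨⟨left_mem_segment _ _ _, left_mem_segment _ _ _⟩,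
      fun x hx => p2c_ext.2 ⟨(p2c_s1.1 hx.2).2.2, (p2c_s0.1 hx.1).2.2⟩⟩
  have a0 := arc_glue (arc_seg n0).symm (arc_seg n1) i0
  obtain ⟨R, hR, hu, hi⟩ := crc_compl h a0 (union_subset l0 l1)
  have hRJ : R ⊆ J := hu ▸ subset_union_right
  have hH : segment ℝ ![1, 0] ![0, 1] ⊆ W := hc.segment_subset (hs c1.1) (hs c2.1)
  have hL := len_tri (v := 0) (a := ![1, 0]) (b := ![0, 1]) (by
    rw [LinearIndependent.pair_iff]
    intro s t e
    simpa using p2c_ext.1 e)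
  have hm : ∀ x ∈ R, x ∈ segment ℝ 0 ![1, 0] ∪ segment ℝ 0 ![0, 1] → x = ![1, 0] ∨ x = ![0, 1] :=
    fun x a b => (hi ▸ (⟨b, a⟩ : x ∈ _ ∩ R) : x ∈ ({![1, 0], ![0, 1]} : Set (Rn 2)))
  rcases s2_cases h hR.poly.1.isClosed hu hi s0 s1 with k | k | ⟨w, wc, wR, w0, w1, -, wd⟩
  · obtain ⟨Φ, f1, f2, f3, -⟩ := push hL hR.poly (fun x ⟨a, s, t, hs, ht, hst, e⟩ =>
      k x a (by simpa [e] using hs) (by simpa [e] using ht) (by simpa [e] using hst)) hW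
      (hL.ball.sub_convex one_le_two hc (union_subset ((union_subset l0 l1).trans hs) hH))
    have i1 : R ∩ segment ℝ ![1, 0] ![0, 1] = {![1, 0], ![0, 1]} := by
      refine Subset.antisymm (fun x hx => ?_) ?_
      · obtain ⟨a, b, c⟩ := p2c_sH.1 hx.2
        exact k x hx.1 a b c.le
      · rintro x (rfl | rfl)
        exacts [⟨hR.tarc.left, left_mem_segment _ _ _⟩, ⟨hR.tarc.right, right_mem_segment _ _ _⟩]
    have hu' := (union_comm _ _).trans hu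
    have hlt := cor_lt (p := 0) hR a0 ((inter_comm _ _).trans hi) i1 (hu' ▸ c1) (hu' ▸ c2)
      (hu' ▸ c0) fun k => k.elim
        (fun k => (hm 0 k (Or.inl (left_mem_segment _ _ _))).elim n0 n1)
        fun k => by simpa using (p2c_sH.1 k).2.2
    refine SSph.of_mv f1 ?_
    rw [← hu', image_union, f2, pthm_fix f3]
    exact ih _ (crc_glue hR (arc_seg n2) i1) (union_subset (hRJ.trans hs) hH) (hu' ▸ hlt)
  · rw [← tcrc_sub (crc_glue a0 (arc_seg n2) hL.inter).tcrc h.tcrc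
      (union_subset (union_subset l0 l1) k)]
    exact tri_sq hW hc (hs c0.1) (hs c1.1) (hs c2.1)
  have m0 : w ≠ ![1, 0] := fun k => by simp [k] at w1
  have m1 : w ≠ ![0, 1] := fun k => by simp [k] at w0
  obtain ⟨R₁, R₂, r1, r2, ru, ri⟩ := hR.split wR m0 m1
  have e1 : ![0, 1] ∉ R₁ := fun k => m1 (pthm_mem ri k r2.tarc.right).symm
  have e0 : ![1, 0] ∉ R₂ := fun k => m0 (pthm_mem ri r1.tarc.left k).symm
  have d1 : ![0, 1] ∉ segment ℝ (0 : Rn 2) ![1, 0] := fun k => by simpa using (p2c_s0.1 k).2.2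
  have d0 : ![1, 0] ∉ segment ℝ (0 : Rn 2) ![0, 1] := fun k => by simpa using (p2c_s1.1 k).2.2
  have g1 : ∀ x ∈ R₁, x ∈ segment ℝ 0 ![1, 0] ∪ segment ℝ 0 ![0, 1] → x = ![1, 0] := fun x a b =>
    (hm x (ru ▸ Or.inl a) b).resolve_right fun k => e1 (k ▸ a)
  have g2 : ∀ x ∈ R₂, x ∈ segment ℝ 0 ![1, 0] ∪ segment ℝ 0 ![0, 1] → x = ![0, 1] := fun x a b =>
    (hm x (ru ▸ Or.inr a) b).resolve_left fun k => e0 (k ▸ a)
  have a1 := arc_glue (arc_seg n0) r1 (eq_singleton_iff_unique_mem.2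
    ⟨⟨right_mem_segment _ _ _, r1.tarc.left⟩, fun x hx => g1 x hx.2 (Or.inl hx.1)⟩)
  have a2 := arc_glue (arc_seg n1) r2.symm (eq_singleton_iff_unique_mem.2
    ⟨⟨right_mem_segment _ _ _, r2.tarc.right⟩, fun x hx => g2 x hx.2 (Or.inr hx.1)⟩)
  have hJ : segment ℝ 0 ![1, 0] ∪ R₁ ∪ (segment ℝ 0 ![0, 1] ∪ R₂) = J := by
    rw [union_union_union_comm, ru, hu]
  refine p2c_cut hW hc hs ih a1 a2 hJ (Subset.antisymm ?_ ?_) wd c0 wc c1 c2
    (Or.inl (right_mem_segment _ _ _)) (Or.inl (right_mem_segment _ _ _))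
    (fun k => k.elim n0.symm m0.symm) fun k => k.elim n1.symm m1.symm
  · rintro x ⟨a | a, b | b⟩
    · exact Or.inl (pthm_mem i0 a b)
    · exact absurd (g2 x b (Or.inl a) ▸ a) d1
    · exact absurd (g1 x a (Or.inr b) ▸ b) d0
    · exact Or.inr (pthm_mem ri a b)
  · rintro x (rfl | rfl)
    exacts [⟨a1.tarc.left, a2.tarc.left⟩, ⟨a1.tarc.right, a2.tarc.right⟩]

theorem s2 {J W : Set (Rn 2)} (h : Crc J) (hW : IsOpen W) (hc : Convex ℝ W) (hs : J ⊆ W) :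
    SSph W J := by
  induction hn : (cor J).ncard using Nat.strong_induction_on generalizing J W with
  | _ N ih =>
  obtain ⟨v, a, b, hv, ha, hb, hl, la, lb, ca, cb⟩ := exists_cor h
  obtain ⟨M, ma, mb⟩ : ∃ M : Rn 2 ≃L[ℝ] Rn 2, M (a - v) = ![1, 0] ∧ M (b - v) = ![0, 1] := by
    let β := basisOfLinearIndependentOfCardEqFinrank hl (by simp)
    have e : ∀ i, β i = ![a - v, b - v] i := fun i => by simp [β]
    refine ⟨β.equivFunL, ?_, ?_⟩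
    · change β.equivFun (![a - v, b - v] 0) = _
      rw [← e]
      exact p2c_ext.2 (by simp)
    · change β.equivFun (![a - v, b - v] 1) = _
      rw [← e]
      exact p2c_ext.2 (by simp)
  refine ssph_aff hW M (-M v) ?_
  have hf := lh_aff M (-M v)
  have hcor := cor_aff M (-M v) J
  have hcv : Convex ℝ ((fun x => M x + -M v) '' W) := by
    rw [← image_image (fun y => y + -M v) M]
    simp only [add_comm _ (-M v)]
    exact (hc.linear_image M.toLinearEquiv.toLinearMap).translate (-M v)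
  have e : ∀ (t : ℝ) x, (fun x => M x + -M v) (v + t • (x - v)) = t • M (x - v) := fun t x => by
    simp only [map_add, map_smul]
    abel
  generalize (fun x => M x + -M v) = f at *
  have seg : ∀ x, segment ℝ v x ⊆ J → segment ℝ 0 (M (x - v)) ⊆ f '' J := fun x hx => by
    rintro _ ⟨s, t, hs, ht, hst, rfl⟩
    refine ⟨_, hx ?_, by rw [e, smul_zero, zero_add]⟩
    rw [segment_eq_image']
    exact ⟨t, ⟨ht, by linarith⟩, rfl⟩
  have co : ∀ (t : ℝ) x, t • M (x - v) ∈ cor (f '' J) ↔ v + t • (x - v) ∈ cor J := fun t x => by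
    rw [hcor, ← e, hf.1.1.mem_set_image]
  obtain ⟨E, hE, -⟩ := hf.homeo
  refine s2_step (h.image hf.tp hf.1.1.injOn) (hE ▸ E.isOpenMap _ hW) hcv (image_mono hs)
    (fun J' h' s' lt => ih _ ?_ h' (hE ▸ E.isOpenMap _ hW) hcv s' rfl) ?_ ?_ ?_
    (ma ▸ seg a la) (mb ▸ seg b lb) (fun t t0 t1 k => ca t t0 t1 ((co t a).1 ?_))
    fun t t0 t1 k => cb t t0 t1 ((co t b).1 ?_)
  · rwa [hcor, ncard_image_of_injective _ hf.1.1, hn] at lt
  · simpa using (co 0 a).2 (by simpa using hv)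
  · simpa [ma] using (co 1 a).2 (by simpa using ha)
  · simpa [mb] using (co 1 b).2 (by simpa using hb)
  · simpa [ma] using k
  · simpa [mb] using k

theorem crc_ball {J : Set (Rn 2)} (h : Crc J) : ∃ D, Ball D J := by
  obtain ⟨D, hD, -⟩ := (s2 h isOpen_univ convex_univ (subset_univ _)).ball
  exact ⟨D, hD⟩

end BEp
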