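import Pool.Agent.Work.MP_f0515e_an.D3.PDefs
import Pool.Agent.Work.MP_f0515e_an.Pos.PLCD
import Pool.Agent.Work.MP_f0515e_an.D3.PGl
import Pool.Agent.Work.MP_f0515e_an.Pos.HBor
import Pool.Agent.Work.MP_f0515e_an.D3.PReg
import Pool.Agent.Work.MP_f0515e_an.Pos.PLGP
import Pool.Agent.Work.MP_f0515e_an.D3.PArc
import Pool.Agent.Work.MP_f0515e_an.D3.PBall
import Pool.Agent.Work.MP_f0515e_an.D3.P2c
import Pool.Agent.Work.MP_f0515e_an.D3.PFill
import Pool.Agent.Work.MP_f0515e_an.D3.PCel1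
import Pool.Agent.Work.MP_f0515e_an.D3.POne
import Pool.Agent.Work.MP_f0515e_an.D3.PLk

-- merged part: Pool.Agent.Work.MP_f0515e_an.D3.WSign
section
-- merged part: Pool.Agent.Work.MP_f0515e_an.D3.WDefs
section
/-! Definitions for the swap lemma. -/

open Set Metric Filter Topology Function BEv
open scoped NNReal

noncomputable section
namespace BEp

variable {F : Type} [NormedAddCommGroup F] [NormedSpace ℝ F]

/-- `π` is a local PL homeomorphism from `E` to three space. -/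
def Etale (π : F →L[ℝ] Rn 3) (E : Set F) : Prop :=
  ∀ e ∈ E, ∃ s : Rn 3 → F, TP s ∧ (∀ y, π (s y) = y) ∧ (∀ᶠ y in 𝓝 (π e), s y ∈ E) ∧
    ∀ᶠ e' in 𝓝[E] e, s (π e') = e'

/-- Locally injective map of `X` to `E` with at most double points. -/
structure Imm (E : Set F) (X : Set (Rn 2)) (G : Rn 2 → F) : Prop where
  tp : TP G
  mem : MapsTo G X E
  loc : ∀ x ∈ X, ∃ ε > 0, InjOn G (X ∩ ball x ε)
  two : ∀ x ∈ X, ∀ y ∈ X, ∀ z ∈ X, G x = G y → G x = G z → x = y ∨ x = z ∨ y = z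

/-- Planar sets which contain the disc bounded by each of their polygons. -/
def Full (U : Set (Rn 2)) : Prop := ∀ B S, Ball B S → S ⊆ U → B ⊆ U

/-- Points having a partner. -/
def DS (X : Set (Rn 2)) (G : Rn 2 → F) : Set (Rn 2) := {x | ∃ y, (x, y) ∈ Dbl X G}

end BEp
end
end

-- merged part: Pool.Agent.Work.MP_f0515e_an.D3.DeCx
section
/-! Definitions for the lemma of Dehn: cube complexes lying over the integer lattice of three space,
their realisations, cocycles, double covers; lattice data and the floors of the tower.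
A lattice point `p` names the cell of the grid of mesh two with centre `p`: odd coordinates are the
directions of the cell. -/

open Set Metric Filter Topology Function BEv
open scoped NNReal

noncomputable section
namespace BEp

abbrev Z3 : Type := Fin 3 → ℤ

def zr (p : Z3) : Rn 3 := fun i => (p i : ℝ)

/-- The lattice cell `m` is a face of the lattice cell `p`. -/
def LeZ (m p : Z3) : Prop := ∀ i, m i = p i ∨ (Odd (p i) ∧ (m i = p i + 1 ∨ m i = p i - 1))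

def car1 (t : ℝ) : ℤ :=
  if |t - 2 * round (t / 2)| < 7 / 8 then 2 * round (t / 2) else 2 * ⌊t / 2⌋ + 1

/-- The lattice cell which carries `y`. -/
def car (y : Rn 3) : Z3 := fun i => car1 (y i)

/-- Open neighbourhood of the closed cell `p`. -/
def stz (p : Z3) : Set (Rn 3) := {y | ∀ i, |y i - p i| < if Even (p i) then 7 / 8 else 15 / 8}

def hat (z : Rn 3) : ℝ := max (9 / 8 - ‖z‖) 0

def sgb (b : Bool) : ℤ := if b then 1 else -1

/-- Union of the unit voxels with centres in `W`. -/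
def Vox (W : Set Z3) : Set (Rn 3) := ⋃ p ∈ W, closedBall (zr p) (1 / 2)

/-- Cells with their positions and facet maps. -/
structure Cub (κ : Type) where
  pos : κ → Z3
  fc : κ → Fin 3 → Bool → κ

/-- The space containing the realisation. -/
abbrev FF (κ : Type) : Type := Rn 3 × (κ → ℝ)

/-- Projection of the realisation of a double cover. -/
def prj (κ : Type) : FF (κ × ZMod 2) →L[ℝ] FF κ :=
  (ContinuousLinearMap.fst ℝ _ _).prod (ContinuousLinearMap.pi fun τ =>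
    ((ContinuousLinearMap.proj (τ, 0) : (κ × ZMod 2 → ℝ) →L[ℝ] ℝ) +
      ContinuousLinearMap.proj (τ, 1)).comp (ContinuousLinearMap.snd ℝ _ _))

namespace Cub
variable {κ : Type} (K : Cub κ)

/-- `T` is closed under taking facets. -/
def Cl (T : Set κ) : Prop := ∀ σ ∈ T, ∀ i b, K.fc σ i b ∈ T

/-- The cells of `S` form a complex which is locally injective over the lattice. -/
structure Ok (S : Set κ) : Prop where
  mem : K.Cl S
  ev : ∀ σ ∈ S, ∀ i b, Even (K.pos σ i) → K.fc σ i b = σ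
  od : ∀ σ ∈ S, ∀ i b, Odd (K.pos σ i) →
    K.pos (K.fc σ i b) = update (K.pos σ) i (K.pos σ i + sgb b)
  comm : ∀ σ ∈ S, ∀ i j b c, i ≠ j → K.fc (K.fc σ i b) j c = K.fc (K.fc σ j c) i b
  inj : ∀ σ ∈ S, ∀ σ' ∈ S, ∀ i b, K.pos σ = K.pos σ' → K.fc σ i b = K.fc σ' i b → σ = σ'

/-- `τ` is a face of `σ`. -/
def Le (τ σ : κ) : Prop := Relation.ReflTransGen (fun a b => ∃ i c, b = K.fc a i c) σ τ

def st (σ : κ) (m : Z3) (i : Fin 3) : κ :=
  if m i = K.pos σ i then σ else K.fc σ i (decide (K.pos σ i < m i))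

/-- The face of `σ` at the position `m`. -/
def fa (σ : κ) (m : Z3) : κ := K.st (K.st (K.st σ m 0) m 1) m 2

def Vtx (τ : κ) : Prop := ∀ i, Even (K.pos τ i)

open Classical in
/-- The sheet through the cell `σ`. -/
def sec (σ : κ) (y : Rn 3) : FF κ :=
  (y, fun τ => if K.Vtx τ ∧ K.Le τ σ then hat (y - zr (K.pos τ)) else 0)

/-- Open realisation. -/
def EE (S : Set κ) : Set (FF κ) := ⋃ σ ∈ S, K.sec σ '' stz (K.pos σ)

/-- Compact realisation: one voxel for each cell. -/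
def VV (S : Set κ) : Set (FF κ) := ⋃ σ ∈ S, K.sec σ '' closedBall (zr (K.pos σ)) (1 / 2)

/-- Boundary surface of the compact realisation. -/
def Bd (S : Set κ) : Set (FF κ) := K.VV S ∩ closure (K.EE S \ K.VV S)

/-- Cocycles. -/
structure Coc (S : Set κ) (c : κ → Fin 3 → Bool → ZMod 2) : Prop where
  ev : ∀ σ ∈ S, ∀ i b, Even (K.pos σ i) → c σ i b = 0
  dia : ∀ σ ∈ S, ∀ i j b b', i ≠ j →
    c σ i b + c (K.fc σ i b) j b' = c σ j b' + c (K.fc σ j b') i b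

/-- `c` is the coboundary of `φ` on `S`. -/
def CobBy (S : Set κ) (c : κ → Fin 3 → Bool → ZMod 2) (φ : κ → ZMod 2) : Prop :=
  ∀ σ ∈ S, ∀ i b, c σ i b = φ σ + φ (K.fc σ i b)

def Cob (S : Set κ) (c : κ → Fin 3 → Bool → ZMod 2) : Prop := ∃ φ, K.CobBy S c φ

/-- No connected double cover. -/
def Acyc (S : Set κ) : Prop := ∀ c, K.Coc S c → K.Cob S c

/-- The double cover given by `c`. -/
def cov (c : κ → Fin 3 → Bool → ZMod 2) : Cub (κ × ZMod 2) :=
  ⟨fun q => K.pos q.1, fun q i b => (K.fc q.1 i b, q.2 + c q.1 i b)⟩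

/-- `cr` is a continuous choice of cells on `X`. -/
def Usc {E : Type} [TopologicalSpace E] (X : Set E) (cr : E → κ) : Prop :=
  ∀ x ∈ X, ∀ᶠ y in 𝓝[X] x, K.Le (cr y) (cr x)

end Cub

/-- Singular disc adapted to the lattice: blocks round the curve at radius `5 / 8`, the essential
circle, the marked columns. -/
structure Core where
  g : Rn 2 → Rn 3
  g0 : Rn 2 → Rn 3
  nJ : ℕ
  lo : Fin nJ → Z3
  hi : Fin nJ → Z3
  I : Fin nJ → Set (Rn 2)
  B : Set (Rn 2)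
  J : Set (Rn 2)
  nM : ℕ
  Col : Fin nM → Set (Rn 3)
  Col' : Fin nM → Set (Rn 3)
  k : Fin nM → Fin 3
  c : Fin nM → ℤ
  O : Set (Rn 3)

namespace Core
variable (C : Core)

def W : Set Z3 := ⋃ j, Icc (C.lo j) (C.hi j)

/-- Every disc with the same outer collar meets every inner column. -/
def Ess : Prop :=
  ∀ m, ∀ h : Rn 2 → Rn 3, Continuous h → (∀ x, 3 / 4 ≤ ‖x‖ → ‖x‖ ≤ 1 → h x = C.g x) →
    (∀ x, ‖x‖ ≤ 3 / 4 → h x ∈ C.O) → ∃ x, ‖x‖ ≤ 1 ∧ h x ∈ C.Col' m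

structure Ok : Prop where
  cont : Continuous C.g
  tp : TP C.g0
  eq : ∀ x, 1 / 2 ≤ ‖x‖ → ‖x‖ ≤ 1 → C.g x = C.g0 x
  ns : ∀ x y, 1 / 2 ≤ ‖x‖ → ‖x‖ ≤ 1 → ‖y‖ ≤ 1 → C.g y = C.g x → y = x
  evl : ∀ j i, Even (C.lo j i) ∧ Even (C.hi j i)
  con : ∀ j, IsPreconnected (C.I j)
  sph : ⋃ j, C.I j = sphere 0 (5 / 8)
  blk : ∀ j, ∀ x ∈ C.I j, car (C.g x) ∈ Icc (C.lo j) (C.hi j)
  meet : ∀ j j', (Icc (C.lo j) (C.hi j) ∩ Icc (C.lo j') (C.hi j')).Nonempty →
    (C.I j ∩ C.I j').Nonempty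
  h3 : ∀ x y, 5 / 8 ≤ ‖x‖ → ‖x‖ ≤ 1 → ‖y‖ ≤ 5 / 8 → ‖C.g x - C.g y‖ ≤ 4 →
    ∀ p, ‖zr p - C.g x‖ ≤ 4 → p ∈ C.W
  h4 : ∀ x, 3 / 4 ≤ ‖x‖ → ‖x‖ ≤ 1 → C.g x ∉ Vox C.W
  ball : Ball C.B C.J
  inn : closedBall 0 (5 / 8) ⊆ C.B \ C.J
  out : C.B ⊆ Metric.ball 0 (3 / 4)
  fr : ∀ x ∈ C.J, C.g x ∈ frontier (Vox C.W) ∧
    ∀ᶠ y in 𝓝 x, C.g y ∈ frontier (Vox C.W) → y ∈ C.J
  cvx : ∀ m, Convex ℝ (C.Col m)
  cvx' : ∀ m, Convex ℝ (C.Col' m)
  cl' : ∀ m, IsClosed (C.Col' m)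
  thick : ∀ m, ∀ y ∈ C.Col' m, closedBall y 4 ⊆ C.Col m
  evc : ∀ m, Even (C.c m)
  m1 : ∀ m x, ‖x‖ ≤ 1 → C.g x ∈ C.Col m → C.g x (C.k m) = C.c m ∧ ‖x‖ < 1 / 2
  m2 : ∀ m, InjOn C.g {x | ‖x‖ ≤ 1 ∧ C.g x ∈ C.Col m}
  m3 : ∀ m, ∀ z ∈ C.Col m, z (C.k m) = C.c m → ∃ x, ‖x‖ ≤ 1 ∧ C.g x = z
  m5 : ∀ m, ∀ p ∈ C.W, zr p ∉ C.Col m
  op : IsOpen C.O
  o1 : ∀ x, ‖x‖ ≤ 5 / 8 → closedBall (C.g x) 4 ⊆ C.O
  o2 : Vox C.W ⊆ C.O
  o3 : ∀ x, ‖x‖ ≤ 3 / 4 → C.g x ∈ C.O
  ess : C.Ess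

/-- The data before the choice of the essential circle (`B`, `J` are not used). -/
structure Pre : Prop where
  cont : Continuous C.g
  tp : TP C.g0
  eq : ∀ x, 1 / 2 ≤ ‖x‖ → ‖x‖ ≤ 1 → C.g x = C.g0 x
  ns : ∀ x y, 1 / 2 ≤ ‖x‖ → ‖x‖ ≤ 1 → ‖y‖ ≤ 1 → C.g y = C.g x → y = x
  evl : ∀ j i, Even (C.lo j i) ∧ Even (C.hi j i)
  con : ∀ j, IsPreconnected (C.I j)
  sph : ⋃ j, C.I j = sphere 0 (5 / 8)
  blk : ∀ j, ∀ x ∈ C.I j, C.g x ∈ Icc (zr (C.lo j)) (zr (C.hi j))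
  meet : ∀ j j', (Icc (C.lo j) (C.hi j) ∩ Icc (C.lo j') (C.hi j')).Nonempty →
    (C.I j ∩ C.I j').Nonempty
  h3 : ∀ x y, 5 / 8 ≤ ‖x‖ → ‖x‖ ≤ 1 → ‖y‖ ≤ 5 / 8 → ‖C.g x - C.g y‖ ≤ 6 →
    ∀ p, ‖zr p - C.g x‖ ≤ 5 → p ∈ C.W
  h4 : ∀ x, 3 / 4 ≤ ‖x‖ → ‖x‖ ≤ 1 → ∀ p ∈ C.W, 3 ≤ ‖zr p - C.g x‖
  box : ∀ m, ∃ A B : Z3, C.Col m = Icc (zr A) (zr B)
  box' : ∀ m, ∃ A B : Z3, C.Col' m = Icc (zr A) (zr B)
  thick : ∀ m, ∀ y ∈ C.Col' m, closedBall y 4 ⊆ C.Col m
  evc : ∀ m, Even (C.c m)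
  m1 : ∀ m x, ‖x‖ ≤ 1 → C.g x ∈ C.Col m → C.g x (C.k m) = C.c m ∧ ‖x‖ < 1 / 2
  m2 : ∀ m, InjOn C.g {x | ‖x‖ ≤ 1 ∧ C.g x ∈ C.Col m}
  m3 : ∀ m, ∀ z ∈ C.Col m, z (C.k m) = C.c m → ∃ x, ‖x‖ ≤ 1 ∧ C.g x = z
  m5 : ∀ m, ∀ p ∈ C.W, zr p ∉ C.Col m
  op : IsOpen C.O
  o1 : ∀ x, ‖x‖ ≤ 5 / 8 → closedBall (C.g x) 6 ⊆ C.O
  o2 : ∀ p ∈ C.W, closedBall (zr p) 2 ⊆ C.O
  o3 : ∀ x, ‖x‖ ≤ 3 / 4 → C.g x ∈ C.O
  ess : C.Ess

/-- The embedded disc, at height `r` above or below the marked planes. -/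
structure Out (r : ℝ) (H : Rn 2 → Rn 3) : Prop where
  tp : TP H
  inj : InjOn H (closedBall 0 1)
  eq : ∀ x, 3 / 4 ≤ ‖x‖ → ‖x‖ ≤ 1 → H x = C.g x
  inO : ∀ x, ‖x‖ ≤ 3 / 4 → H x ∈ C.O
  col : ∀ m, ∃ s : ℝ, |s| = r ∧ ∀ x, ‖x‖ ≤ 1 → H x ∈ C.Col' m → H x (C.k m) = C.c m + s

end Core

/-- The same map in each coordinate. -/
def dg {n : ℕ} (T : ℝ → ℝ) (y : Rn n) : Rn n := fun i => T (y i)

/-- A floor of the tower: a complex, the cells of the blocks, and the carriers of the lifted disc. -/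
structure TLev (C : Core) (κ : Type) where
  K : Cub κ
  Wc : Set κ
  cr : Rn 2 → κ

namespace TLev
variable {C : Core} {κ : Type} (L : TLev C κ)

def Kin : Set κ := L.Wc ∪ {σ | ∃ x, ‖x‖ ≤ 5 / 8 ∧ L.K.Le σ (L.cr x)}

def Ko : Set κ := {σ | ∃ x, 5 / 8 ≤ ‖x‖ ∧ ‖x‖ ≤ 1 ∧ L.K.Le σ (L.cr x)}

def S : Set κ := L.Kin ∪ L.Ko

/-- The lifted singular disc. -/
def G (x : Rn 2) : FF κ := L.K.sec (L.cr x) (C.g x)

structure Ok : Prop where
  ok : L.K.Ok L.S
  pos : ∀ x, ‖x‖ ≤ 1 → L.K.pos (L.cr x) = car (C.g x)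
  usc : L.K.Usc (closedBall 0 1) L.cr
  wcl : L.K.Cl L.Wc
  wpos : L.K.pos '' L.Wc = C.W
  winj : InjOn L.K.pos (L.Wc ∪ L.Ko)

/-- An embedded disc on the floor. -/
structure Disc [Fintype κ] (H : Rn 2 → FF κ) : Prop where
  tp : TP H
  inj : InjOn H (closedBall 0 1)
  mem : MapsTo H (closedBall 0 1) (L.K.EE L.S)
  eq : ∀ x, 3 / 4 ≤ ‖x‖ → ‖x‖ ≤ 1 → H x = L.G x
  inO : ∀ x, ‖x‖ ≤ 3 / 4 → (H x).1 ∈ C.O
  col : ∀ m, ∃ s : ℝ, |s| = 1 / 2 ∧
    ∀ x, ‖x‖ ≤ 1 → (H x).1 ∈ C.Col' m → (H x).1 (C.k m) = C.c m + s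

/-- `L'` lies in a double cover of `L`. -/
def Cov (L' : TLev C (κ × ZMod 2)) : Prop :=
  ∃ c, L.K.Coc L.S c ∧ L'.K = L.K.cov c ∧ (∀ x, (L'.cr x).1 = L.cr x) ∧ ∀ q ∈ L'.Wc, q.1 ∈ L.Wc

end TLev

end BEp
end
end

-- merged part: Pool.Agent.Work.MP_f0515e_an.D3.WD
section
/-! Definitions used inside the proof of the swap lemma. -/

open Set Metric Filter Topology Function BEv
open scoped NNReal

noncomputable section
namespace BEp

variable {N : ℕ}

/-- The sheet `𝓑` lies in a level plane of `l ∘ π` and fills it, the sheet `𝓐` crosses it. -/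
structure Crs (π : Rn N →L[ℝ] Rn 3) (l : Rn 3 →L[ℝ] ℝ) (p : Rn N) (𝓐 𝓑 : Filter (Rn N)) :
    Prop where
  fl : ∀ᶠ e in 𝓑, l (π e) = l (π p)
  hit : ∀ S ∈ 𝓑, ∀ᶠ e in 𝓐, l (π e) = l (π p) → e ∈ S
  up : ∃ᶠ e in 𝓐, l (π p) < l (π e)
  dn : ∃ᶠ e in 𝓐, l (π e) < l (π p)

/-- The sheet at `x` crosses the flat sheet at `y`. -/
def Crx (π : Rn N →L[ℝ] Rn 3) (G : Rn 2 → Rn N) (x y : Rn 2) : Prop :=
  ∃ l, Crs π l (G x) (map G (𝓝 x)) (map G (𝓝 y))

/-- The sheets at `x` and `y` lie on different sides of a level plane of `l ∘ π`. -/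
def WSep (π : Rn N →L[ℝ] Rn 3) (G : Rn 2 → Rn N) (x y : Rn 2) (l : Rn 3 →L[ℝ] ℝ) : Prop :=
  (∀ᶠ z in 𝓝 x, l (π (G x)) ≤ l (π (G z))) ∧ ∀ᶠ z in 𝓝 y, l (π (G z)) ≤ l (π (G x))

/-- Hypotheses of the swap lemma. -/
structure WPre (E : Set (Rn N)) (X Xin : Set (Rn 2)) (U : Set (Rn N)) (G : Rn 2 → Rn N) :
    Prop where
  imm : Imm E X G
  ds : DS X G ⊆ Xin
  u : MapsTo G (DS X G) U

/-- Relation between the old and the new map. -/
def WRel (X Xin : Set (Rn 2)) (U : Set (Rn N)) (G G' : Rn 2 → Rn N) : Prop :=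
  (∀ x ∈ X \ Xin, G' x = G x) ∧ ∀ x ∈ Xin, G' x ∈ U ∨ G' x ∈ G '' Xin

/-- General position: the double set is a disjoint union of polygons and the sheets cross. -/
structure WGood (π : Rn N →L[ℝ] Rn 3) (E : Set (Rn N)) (X Xin : Set (Rn 2)) (U : Set (Rn N))
    (G : Rn 2 → Rn N) (𝒞 : Set (Set (Rn 2))) : Prop where
  pre : WPre E X Xin U G
  fin : 𝒞.Finite
  cov : ⋃₀ 𝒞 = DS X G
  dis : 𝒞.PairwiseDisjoint id
  crc : ∀ C ∈ 𝒞, Crc C
  crs : ∀ p ∈ Dbl X G, Crx π G p.1 p.2 ∨ Crx π G p.2 p.1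

/-- Data for regluing: on `R` the map `G` is replaced by `G ∘ Θ`. -/
structure RgD (X Xin : Set (Rn 2)) (G : Rn 2 → Rn N) (T R : Set (Rn 2)) (Θ : Rn 2 → Rn 2) :
    Prop where
  poly : Poly R
  sub : R ⊆ Xin
  tp : TP Θ
  inj : InjOn Θ R
  maps : MapsTo Θ R R
  fr : frontier R ⊆ T
  tr : T ⊆ R
  bd : ∀ x ∈ frontier R, (x, Θ x) ∈ Dbl X G
  int : ∀ x ∈ R, Θ x ∈ T → x ∈ frontier R
  cl : ∀ p ∈ Dbl X G, p.1 ∈ T → p.2 ∈ T

/-- `T` is the two sided frontier of `R`. -/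
structure Tch (T R : Set (Rn 2)) : Prop where
  fr : T ⊆ frontier R
  loc : ∀ x ∈ T, ∀ O ∈ 𝓝 x, ∃ O', IsOpen O' ∧ x ∈ O' ∧ O' ⊆ O ∧ IsPreconnected (O' ∩ (R \ T)) ∧
    IsPreconnected (O' \ R)
  out : ∀ η > 0, ∃ Ψ : Rn 2 → Rn 2, TP Ψ ∧ ∀ x ∈ T, ‖Ψ x - x‖ < η ∧ Ψ x ∉ R

end BEp
end
end

-- merged part: Pool.Agent.Work.MP_f0515e_an.D3.WBas
section
/-! Swap lemma, basic facts.
`Imm.gap`: Lebesgue number of the cover of `X` by the balls of `Imm.loc`. `Imm.partner`: put the pairs into `Rn 4`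
(`q ↦ ![q 0, q 1]`, `q ↦ ![q 2, q 3]`); with `D` from `Poly.eq_zero` and `d` from `Imm.gap` they form the zero set of
`D x + D y + ‖G x - G y‖ + max (d - ‖x - y‖) 0` in a ball (`poly_zero`); the first projection is injective on it
(`Imm.two`), so `tp_linv` gives the partner map and `Poly.image` the polyhedron `DS X G`. `tp_cut`: clamp the
coordinates by `M * g`, `g` from `ptri_bump`. `map_nhds_inj`: `inv_domain` on open subsets. About 130 lines. -/

open Set Metric Filter Topology Function BEv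
open scoped NNReal

noncomputable section
namespace BEp

variable {N : ℕ} {π : Rn N →L[ℝ] Rn 3} {E U : Set (Rn N)} {X Xin : Set (Rn 2)}
  {G : Rn 2 → Rn N} {𝒞 : Set (Set (Rn 2))}

theorem dbl_swap {x y : Rn 2} (h : (x, y) ∈ Dbl X G) : (y, x) ∈ Dbl X G := by
  exact ⟨h.2.1, h.1, h.2.2.1.symm, h.2.2.2.symm⟩

theorem Imm.gap (hG : Imm E X G) (hX : IsCompact X) :
    ∃ d > 0, ∀ p ∈ Dbl X G, d ≤ ‖p.1 - p.2‖ := by
  choose ε h0 h using fun x : X => hG.loc x x.2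
  obtain ⟨d, hd, k⟩ := lebesgue_number_lemma_of_metric (c := fun x : X => ball (x : Rn 2) (ε x)) hX
    (fun _ => isOpen_ball) fun x hx => mem_iUnion.2 ⟨⟨x, hx⟩, mem_ball_self (h0 _)⟩
  refine ⟨d, hd, fun p hp => not_lt.1 fun e => ?_⟩
  obtain ⟨i, hi⟩ := k p.2 hp.2.1
  exact hp.2.2.1 (h i ⟨hp.1, hi (mem_ball_iff_norm.2 e)⟩ ⟨hp.2.1, hi (mem_ball_self hd)⟩ hp.2.2.2)

theorem Imm.cpt (hG : Imm E X G) (hX : IsCompact X) : IsCompact (Dbl X G) := by
  obtain ⟨d, hd, h⟩ := hG.gap hX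
  have c := hG.tp.continuous
  have e : Dbl X G = X ×ˢ X ∩ ({p | d ≤ ‖p.1 - p.2‖} ∩ {p | G p.1 = G p.2}) :=
    Subset.antisymm (fun p k => ⟨⟨k.1, k.2.1⟩, h p k, k.2.2.2⟩) fun p k =>
      ⟨k.1.1, k.1.2, fun e => hd.not_ge (by simpa [e] using k.2.1), k.2.2⟩
  rw [e]
  exact (hX.prod hX).inter_right ((isClosed_le continuous_const (by fun_prop)).inter
    (isClosed_eq (by fun_prop) (by fun_prop)))

theorem Imm.partner (hG : Imm E X G) (hX : Poly X) : Poly (DS X G) ∧ ∃ i : Rn 2 → Rn 2, TP i ∧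
    (∀ x y, (x, y) ∈ Dbl X G → y = i x) ∧ ∀ x ∈ DS X G, (x, i x) ∈ Dbl X G ∧ i x ∈ DS X G ∧
      i (i x) = x := by
  obtain ⟨d, hd, h⟩ := hG.gap hX.1
  obtain ⟨D, R, tD, R0, D0, hD, hR⟩ := hX.eq_zero
  let a : Rn 4 → Rn 2 := fun q => ![q 0, q 1]
  let b : Rn 4 → Rn 2 := fun q => ![q 2, q 3]
  have ta : TP a := TP.pi fun i => by fin_cases i <;> exact TP.id'.apply _
  have tb : TP b := TP.pi fun i => by fin_cases i <;> exact TP.id'.apply _
  have pP := poly_zero ((((tD.comp ta).add (tD.comp tb)).add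
    ((hG.tp.comp ta).sub (hG.tp.comp tb)).norm_pi).add
    (((TP.const d).sub (ta.sub tb).norm_pi).max (TP.const 0))) R
  generalize hP : {q : Rn 4 | ‖q‖ ≤ R ∧ D (a q) + D (b q) + ‖G (a q) - G (b q)‖ +
    max (d - ‖a q - b q‖) 0 = 0} = P at pP
  have iP : ∀ q, q ∈ P ↔ (a q, b q) ∈ Dbl X G := fun q => by
    rw [← hP]
    refine ⟨fun k => ?_, fun k => ⟨?_, ?_⟩⟩
    · have k1 := k.2
      have k2 := D0 (a q)
      have k3 := D0 (b q)
      have k4 := norm_nonneg (G (a q) - G (b q))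
      have k5 := le_max_right (d - ‖a q - b q‖) 0
      have k6 := le_max_left (d - ‖a q - b q‖) 0
      refine ⟨(hD (a q)).2 (by linarith only [k2, k1, k3, k4, k5]), (hD (b q)).2 (by linarith only [k3, k1, k2, k4, k5]), fun e => ?_,
        sub_eq_zero.1 (norm_eq_zero.1 (show ‖G (a q) - G (b q)‖ = 0 by linarith only [k4, k1, k2, k3, k5]))⟩
      have : ‖a q - b q‖ = 0 := norm_eq_zero.2 (sub_eq_zero.2 e)
      linarith
    · have k1 := fun i => (norm_le_pi_norm _ i).trans (hR _ k.1)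
      have k2 := fun i => (norm_le_pi_norm _ i).trans (hR _ k.2.1)
      refine (pi_norm_le_iff_of_nonneg R0).2 fun i => ?_
      fin_cases i
      exacts [k1 0, k1 1, k2 0, k2 1]
    · have k1 : G (a q) = G (b q) := k.2.2.2
      rw [(hD (a q)).1 k.1, (hD (b q)).1 k.2.1, k1, max_eq_right (sub_nonpos.2 (h _ k))]
      simp
  have su : ∀ x y, ∃ q, a q = x ∧ b q = y := fun x y =>
    ⟨![x 0, x 1, y 0, y 1], by ext i; fin_cases i <;> rfl, by ext i; fin_cases i <;> rfl⟩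
  have inj : InjOn a P := fun q hq q' hq' e => by
    have k := (iP q).1 hq
    have k' := (iP q').1 hq'
    rw [← e] at k'
    have e' : b q = b q' := ((hG.two _ k.1 _ k.2.1 _ k'.2.1 k.2.2.2 k'.2.2.2).resolve_left
      k.2.2.1).resolve_left k'.2.2.1
    ext i
    fin_cases i
    exacts [congrFun e 0, congrFun e 1, congrFun e' 0, congrFun e' 1]
  obtain ⟨k, tk, hk⟩ := tp_linv pP ta inj
  have key : ∀ x y, (x, y) ∈ Dbl X G → y = b (k x) := fun x y e => by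
    obtain ⟨q, rfl, rfl⟩ := su x y
    rw [hk q ((iP q).2 e)]
  refine ⟨?_, fun x => b (k x), tb.comp tk, key, fun x ⟨y, e⟩ => ?_⟩
  · convert pP.image ta using 1
    refine Subset.antisymm (fun x ⟨y, e⟩ => ?_) fun _ ⟨q, e, e'⟩ => ⟨b q, e' ▸ (iP q).1 e⟩
    obtain ⟨q, rfl, rfl⟩ := su x y
    exact ⟨q, (iP q).2 e, rfl⟩
  · simp only [← key x y e]
    exact ⟨e, ⟨x, dbl_swap e⟩, (key y x (dbl_swap e)).symm⟩

theorem Etale.inj (hE : Etale π E) {e : Rn N} (he : e ∈ E) : ∃ O ∈ 𝓝 e, InjOn π (E ∩ O) := by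
  obtain ⟨s, -, -, -, h⟩ := hE e he
  obtain ⟨O, hO, k⟩ := mem_nhdsWithin_iff_exists_mem_nhds_inter.1 h
  exact ⟨O, hO, fun x hx y hy e' => (k ⟨hx.2, hx.1⟩).symm.trans (e' ▸ k ⟨hy.2, hy.1⟩)⟩

theorem tp_cut {n m : ℕ} {C O : Set (Rn n)} (hC : IsCompact C) (hO : IsOpen O) (h : C ⊆ O)
    {δ : Rn n → Rn m} (hδ : TP δ) : ∃ δ', TP δ' ∧ EqOn δ' δ C ∧ ∀ z, z ∉ O → δ' z = 0 := by
  obtain ⟨g, tg, -, g1, g2⟩ := ptri_bump hC hO h
  obtain ⟨a, ha, g3⟩ := hC.exists_forall_le' tg.continuous.continuousOn g1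
  obtain ⟨B, hB⟩ := hC.exists_bound_of_continuousOn hδ.continuous.continuousOn
  refine ⟨fun z i => max (-(B / a * g z)) (min (δ z i) (B / a * g z)), TP.pi fun i =>
    (tg.const_mul _).neg.max ((hδ.apply i).min (tg.const_mul _)), fun z hz => funext fun i => ?_,
    fun z hz => funext fun i => by simp [g2 z hz]⟩
  have k : |δ z i| ≤ B / a * g z :=
    ((norm_le_pi_norm (δ z) i).trans (hB z hz)).trans ((div_mul_cancel₀ B ha.ne').symm.trans_le
      (mul_le_mul_of_nonneg_left (g3 z hz) (div_nonneg ((norm_nonneg _).trans (hB z hz)) ha.le)))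
  simp only [min_eq_left (abs_le.1 k).2, max_eq_right (abs_le.1 k).1]

theorem map_nhds_inj {n : ℕ} {O : Set (Rn n)} (hO : IsOpen O) {Θ : Rn n → Rn n}
    (hΘ : Continuous Θ) (hi : InjOn Θ O) {x : Rn n} (hx : x ∈ O) :
    map Θ (𝓝 x) = 𝓝 (Θ x) := by
  refine le_antisymm hΘ.continuousAt (le_map fun s hs => ?_)
  obtain ⟨V, h1, h2, h3⟩ := _root_.mem_nhds_iff.1 (inter_mem hs (hO.mem_nhds hx))
  exact mem_of_superset ((inv_domain rfl h2 hΘ (hi.mono fun _ k => (h1 k).2)).mem_nhds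
    (mem_image_of_mem _ h3)) (image_mono fun _ k => (h1 k).1)

theorem WRel.refl (X Xin : Set (Rn 2)) (U : Set (Rn N)) (G : Rn 2 → Rn N) : WRel X Xin U G G := by
  exact ⟨fun _ _ => rfl, fun _ h => .inr (mem_image_of_mem _ h)⟩

theorem WRel.trans {G' G'' : Rn 2 → Rn N} (h : WRel X Xin U G G') (h' : WRel X Xin U G' G'') :
    WRel X Xin U G G'' := by
  refine ⟨fun x k => (h'.1 x k).trans (h.1 x k), fun x k => (h'.2 x k).elim .inl ?_⟩
  rintro ⟨y, hy, e⟩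
  exact e ▸ h.2 y hy

theorem circ_open {Y : Type} [TopologicalSpace Y] {𝒟 : Set (Set Y)} (hf : 𝒟.Finite)
    (hc : ∀ C ∈ 𝒟, IsClosed C) (hd : 𝒟.PairwiseDisjoint id) {C : Set Y} (hC : C ∈ 𝒟) {x : Y}
    (hx : x ∈ C) : ∀ᶠ z in 𝓝 x, z ∈ ⋃₀ 𝒟 → z ∈ C := by
  have c : IsClosed (⋃ D ∈ 𝒟 \ {C}, D) := hf.sdiff.isClosed_biUnion fun D k => hc D k.1
  refine mem_of_superset (c.isOpen_compl.mem_nhds fun k => ?_) fun z k ⟨D, hD, e⟩ =>
    by_contra fun e' => k (mem_biUnion (show D ∈ 𝒟 \ {C} from ⟨hD, fun e'' => e' (e'' ▸ e)⟩) e)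
  obtain ⟨D, hD, e⟩ := mem_iUnion₂.1 k
  exact disjoint_left.1 (hd hD.1 hC hD.2) e hx

theorem circ_one {Y : Type} [TopologicalSpace Y] {𝒟 : Set (Set Y)} (hf : 𝒟.Finite)
    (hc : ∀ C ∈ 𝒟, IsClosed C) (hd : 𝒟.PairwiseDisjoint id) {T C : Set Y}
    (hT : IsPreconnected T) (hs : T ⊆ ⋃₀ 𝒟) (hC : C ∈ 𝒟) (hne : (T ∩ C).Nonempty) : T ⊆ C := by
  have c : IsClosed (⋃ D ∈ 𝒟 \ {C}, D) := hf.sdiff.isClosed_biUnion fun D k => hc D k.1
  have dj : ∀ x ∈ C, x ∉ ⋃ D ∈ 𝒟 \ {C}, D := fun x hx k => by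
    obtain ⟨D, hD, e⟩ := mem_iUnion₂.1 k
    exact disjoint_left.1 (hd hD.1 hC hD.2) e hx
  refine (isPreconnected_iff_subset_of_disjoint_closed.1 hT _ _ (hc C hC) c (fun z k => ?_)
    (eq_empty_of_forall_notMem fun z k => dj z k.2.1 k.2.2)).resolve_right fun k => ?_
  · obtain ⟨D, hD, e⟩ := hs k
    by_cases e' : D = C
    · exact .inl (e' ▸ e)
    · exact .inr (mem_biUnion (show D ∈ 𝒟 \ {C} from ⟨hD, e'⟩) e)
  · obtain ⟨x, h1, h2⟩ := hne
    exact dj x h2 (k h1)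

/-- A small multiple of a bounded piecewise affine map is small with small slope. -/
theorem tp_small {n m : ℕ} {δ : Rn n → Rn m} (hδ : TP δ) {K : Set (Rn n)} (hK : IsCompact K)
    (h0 : ∀ z, z ∉ K → δ z = 0) : ∃ M : ℝ, 0 < M ∧ (∀ x y, ‖δ x - δ y‖ ≤ M * ‖x - y‖) ∧
      ∀ x, ‖δ x‖ ≤ M := by
  obtain ⟨L, hL, h⟩ := hδ.exists_bound
  obtain ⟨B, hB⟩ := hK.exists_bound_of_continuousOn hδ.continuous.continuousOn
  have L0 : 0 < max L B := lt_max_of_lt_left (one_pos.trans_le hL)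
  refine ⟨max L B, L0, fun x y => (h x y).trans
    (mul_le_mul_of_nonneg_right (le_max_left _ _) (norm_nonneg _)), fun x => ?_⟩
  by_cases k : x ∈ K
  · exact (hB x k).trans (le_max_right _ _)
  · rw [h0 x k, norm_zero]
    exact L0.le

end BEp
end
end

-- merged part: Pool.Agent.Work.MP_f0515e_an.D3.WStab
section
/-! Swap lemma: small perturbations downstairs lift.
Put `g = π ∘ G`. For `x ∈ X` take the section `s` of `Etale` at `G x`, with `r > 0` such that `s y ∈ E` on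
`ball (π (G x)) r` and `s (π e) = e` on `E ∩ ball (G x) r`, and `ρ > 0` such that `G` is injective on
`X ∩ closedBall x (2 ρ)` and maps it `r / 2`-close to `G x`, and `g` maps it `r / 2`-close to `g x`. Finitely many
balls `ball x_k ρ_k` cover `X`. On `X_k = X ∩ closedBall x_k ρ_k` put `G' z = s_k (g z + d z)`; it is `L ε`-close to
`G z = s_k (g z)`, so two formulas agree on `X_k ∩ X_j` (apply `s_k ∘ π` to the value of the second one), `tp_glue_fin`.
`g` is injective on `X ∩ closedBall x_k (2 ρ_k)`, so `Poly.expand` and `ε < c_k` make `g + d` injective there: double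
pairs of `G'` are `d₁ = min ρ_k` apart. The compact set of pairs at distance at least `d₁` outside an open set
`W' ⊇ Dbl X G` has `‖G x - G y‖ ≥ m > 0`; take `W'` inside `W` and inside `{p | ‖p.2 - i p.1‖ < d₁ / 2}`, `i` from
`Imm.partner`, which gives `Imm.two`. For `U` use `IsCompact.exists_cthickening_subset_open`. About 170 lines. -/

open Set Metric Filter Topology Function BEv
open scoped NNReal

noncomputable section
namespace BEp

variable {N : ℕ} {π : Rn N →L[ℝ] Rn 3} {E U : Set (Rn N)} {X Xin : Set (Rn 2)}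
  {G : Rn 2 → Rn N} {𝒞 : Set (Set (Rn 2))}

theorem YWS_loc (hE : Etale π E) (hX : Poly X) (hG : Imm E X G) {x : Rn 2} (hx : x ∈ X) :
    ∃ (s : Rn 3 → Rn N) (ρ ε : ℝ), TP s ∧ 0 < ρ ∧ 0 < ε ∧ (∀ y, π (s y) = y) ∧
      ∀ z ∈ X ∩ closedBall x (2 * ρ), (∀ a : Rn 3, ‖a‖ ≤ ε → s (π (G z) + a) ∈ E) ∧
        (∀ e ∈ E, ‖e - G z‖ ≤ ε → s (π e) = e) ∧
        ∀ z' ∈ X ∩ closedBall x (2 * ρ), 2 * ε * ‖z - z'‖ ≤ ‖π (G z) - π (G z')‖ := by
  obtain ⟨s, hs, sec, h1, h2⟩ := hE _ (hG.mem hx)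
  obtain ⟨r0, hr0, inj⟩ := hG.loc x hx
  have c := hG.tp.continuous
  obtain ⟨r1, hr1, k1⟩ := Metric.eventually_nhds_iff.1 ((Continuous.tendsto'
    (f := fun p : Rn 2 × Rn 3 => π (G p.1) + p.2) (by fun_prop) (x, 0) _ (by simp)).eventually h1)
  obtain ⟨r2, hr2, k2⟩ := Metric.eventually_nhds_iff.1 ((Continuous.tendsto'
    (f := fun p : Rn 2 × Rn N => G p.1 + p.2) (by fun_prop) (x, 0) _ (by simp)).eventually
      (eventually_nhdsWithin_iff.1 h2))
  obtain ⟨r, hr, a0, a1, a2⟩ : ∃ r > 0, r < r0 ∧ r < r1 ∧ r < r2 :=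
    ⟨min r0 (min r1 r2) / 2, by positivity, by
      have := lt_min hr0 (lt_min hr1 hr2)
      refine ⟨?_, ?_, ?_⟩ <;> linarith only [hr0, hr1, hr2, min_le_left r0 (min r1 r2), min_le_right r0 (min r1 r2),
        min_le_left r1 r2, min_le_right r1 r2]⟩
  have b2 : ∀ z ∈ X ∩ closedBall x r, ∀ e ∈ E, ‖e - G z‖ ≤ r → s (π e) = e := fun z hz e he k => by
    have := @k2 (z, e - G z) (max_lt (hz.2.trans_lt a2) (by rw [dist_zero_right]; linarith))
    simp only [add_sub_cancel] at this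
    exact this he
  obtain ⟨c0, hc0, ex⟩ := (hX.inter (Poly.closedBall x r)).expand ((TP.clm π).comp hG.tp)
    fun z hz z' hz' e => inj ⟨hz.1, hz.2.trans_lt a0⟩ ⟨hz'.1, hz'.2.trans_lt a0⟩ (by
      rw [← b2 z hz _ (hG.mem hz.1) (by simpa using hr.le),
        ← b2 z' hz' _ (hG.mem hz'.1) (by simpa using hr.le)]
      exact congrArg s e)
  refine ⟨s, r / 2, min r (c0 / 2), hs, by positivity, by positivity, sec, ?_⟩
  rw [mul_div_cancel₀ _ two_ne_zero]
  refine fun z hz => ⟨fun a ha => @k1 (z, a) (max_lt (hz.2.trans_lt a1) ?_),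
    fun e he k => b2 z hz e he (k.trans (min_le_left _ _)), fun z' hz' => le_trans ?_ (ex z hz z' hz')⟩
  · rw [dist_zero_right]
    linarith [min_le_left r (c0 / 2)]
  · exact mul_le_mul_of_nonneg_right (by linarith only [min_le_right r (c0 / 2)]) (norm_nonneg _)

theorem YWS_min {ι : Type} (t : Finset ι) {f : ι → ℝ} (h : ∀ k ∈ t, 0 < f k) :
    ∀ᶠ a in 𝓝[>] (0 : ℝ), ∀ k ∈ t, a ≤ f k :=
  (eventually_all_finset t).2 fun k hk => mem_nhdsWithin_of_mem_nhds (Iic_mem_nhds (h k hk))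

theorem wstab (hE : Etale π E) (hX : Poly X) (hG : Imm E X G) {W : Set (Rn 2 × Rn 2)}
    (hW : W ∈ 𝓝ˢ (Dbl X G)) {K : Set (Rn 2)} (hK : IsCompact K) (hU : IsOpen U)
    (hKU : MapsTo G K U) : ∃ ε > 0, ∀ d : Rn 2 → Rn 3, TP d →
      (∀ x y, ‖d x - d y‖ ≤ ε * ‖x - y‖) → (∀ x, ‖d x‖ ≤ ε) → ∃ G' : Rn 2 → Rn N, Imm E X G' ∧
        (∀ x ∈ X, π (G' x) = π (G x) + d x) ∧ (∀ x ∈ X, d x = 0 → G' x = G x) ∧
        (∀ x ∈ X ∩ K, G' x ∈ U) ∧ Dbl X G' ⊆ W := by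
  choose! s ρ ε hs hρ hε sec loc using fun x (hx : x ∈ X) => YWS_loc hE hX hG hx
  obtain ⟨t, ht, cov⟩ := hX.1.elim_nhds_subcover (fun x => ball x (ρ x))
    fun x hx => ball_mem_nhds x (hρ x hx)
  obtain ⟨d1, h1, hd1⟩ := ((YWS_min t fun k hk => hρ k (ht k hk)).and self_mem_nhdsWithin).exists
  replace hd1 : 0 < d1 := hd1
  choose! L0 _ hL0 using fun x (hx : x ∈ X) => (hs x hx).exists_bound
  obtain ⟨L, hL, hL1⟩ := (((eventually_all_finset t).2 fun k _ => eventually_ge_atTop (L0 k)).and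
    (eventually_ge_atTop (1 : ℝ))).exists
  obtain ⟨-, i, hi, hi1, -⟩ := hG.partner hX
  have c := hG.tp.continuous
  have ci := hi.continuous
  have oW : IsOpen (interior W ∩ {p : Rn 2 × Rn 2 | ‖p.2 - i p.1‖ < d1 / 2}) :=
    isOpen_interior.inter (isOpen_lt (by fun_prop) continuous_const)
  obtain ⟨m, hm, far⟩ := (((hX.1.prod hX.1).inter_right (isClosed_le
    (f := fun _ : Rn 2 × Rn 2 => d1) (g := fun p => ‖p.1 - p.2‖) continuous_const
      (by fun_prop))).diff oW).exists_forall_le' (f := fun p => ‖G p.1 - G p.2‖) (a := 0)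
    (by fun_prop) fun p hp => norm_pos_iff.2 (sub_ne_zero.2 fun e => by
      have k : p ∈ Dbl X G := ⟨hp.1.1.1, hp.1.1.2, fun e' => by
        have : d1 ≤ ‖p.1 - p.2‖ := hp.1.2
        rw [e', sub_self, norm_zero] at this
        linarith, e⟩
      refine hp.2 ⟨subset_interior_iff_mem_nhdsSet.2 hW k, ?_⟩
      change ‖p.2 - i p.1‖ < d1 / 2
      rw [← hi1 _ _ k, sub_self, norm_zero]
      linarith only [hd1])
  obtain ⟨η0, hη0, hth⟩ := (hK.image c).exists_cthickening_subset_open hU hKU.image_subset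
  obtain ⟨η, ⟨⟨a1, a2⟩, a3⟩, hη⟩ := ((((YWS_min t fun k hk => hε k (ht k hk)).and
    (mem_nhdsWithin_of_mem_nhds (Iic_mem_nhds hη0))).and
      (mem_nhdsWithin_of_mem_nhds (Iio_mem_nhds (half_pos hm)))).and self_mem_nhdsWithin).exists
  replace hη : 0 < η := hη
  have e1 : η / L ≤ η := div_le_self hη.le hL1
  refine ⟨η / L, by positivity, fun d hd dl d0 => ?_⟩
  have big : ∀ k ∈ t, X ∩ closedBall k (ρ k) ⊆ X ∩ closedBall k (2 * ρ k) := fun k hk =>
    inter_subset_inter_right _ (closedBall_subset_closedBall (by linarith only [hρ, ht, hk, hρ k (ht k hk)]))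
  have key : ∀ k ∈ t, ∀ z ∈ X ∩ closedBall k (ρ k), s k (π (G z)) = G z ∧
      s k (π (G z) + d z) ∈ E ∧ ‖s k (π (G z) + d z) - G z‖ ≤ η := fun k hk z hz => by
    obtain ⟨b1, b2, -⟩ := loc k (ht k hk) z (big k hk hz)
    have e := b2 _ (hG.mem hz.1) (by simpa using (hε k (ht k hk)).le)
    refine ⟨e, b1 _ ((d0 z).trans (e1.trans (a1 k hk))), ?_⟩
    have := hL0 k (ht k hk) (π (G z) + d z) (π (G z))
    rw [e, add_sub_cancel_left] at this
    refine this.trans ((mul_le_mul (hL k hk) (d0 z) (norm_nonneg _) (by linarith only [hL1])).trans_eq ?_)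
    field_simp
  obtain ⟨G', hG', eq⟩ := tp_glue_fin t.finite_toSet (X := fun k => X ∩ closedBall k (ρ k))
    (fun k _ => hX.inter (Poly.closedBall _ _)) (f := fun k z => s k (π (G z) + d z))
    (fun k hk => (hs k (ht k hk)).comp (((TP.clm π).comp hG.tp).add hd)) fun k hk j hj z hz => by
      obtain ⟨-, b1, b2⟩ := key j hj z hz.2
      have := (loc k (ht k hk) z (big k hk hz.1)).2.1 _ b1 (b2.trans (a1 k hk))
      rwa [sec j (ht j hj)] at this
  have pt : ∀ z ∈ X, G' z ∈ E ∧ π (G' z) = π (G z) + d z ∧ (d z = 0 → G' z = G z) ∧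
      ‖G' z - G z‖ ≤ η := fun z hz => by
    obtain ⟨k, hk, hz'⟩ := mem_iUnion₂.1 (cov hz)
    have m : z ∈ X ∩ closedBall k (ρ k) := ⟨hz, ball_subset_closedBall hz'⟩
    obtain ⟨b0, b1, b2⟩ := key k hk z m
    rw [eq k hk m]
    exact ⟨b1, sec k (ht k hk) _, fun e => by simp only [e, add_zero, b0], b2⟩
  have gap : ∀ x ∈ X, ∀ y ∈ X, G' x = G' y → ‖x - y‖ < d1 → x = y := fun x hx y hy e l => by
    obtain ⟨k, hk, hz'⟩ := mem_iUnion₂.1 (cov hx)
    have b := (loc k (ht k hk) x (big k hk ⟨hx, ball_subset_closedBall hz'⟩)).2.2 y ⟨hy, by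
      rw [mem_closedBall]
      have := dist_triangle y x k
      rw [dist_comm y x, dist_eq_norm x y] at this
      linarith only [l, this, hz', h1, hk, mem_ball.1 hz', h1 k hk]⟩
    have e' : π (G x) - π (G y) = d y - d x := by
      have := (pt x hx).2.1.symm.trans ((congrArg π e).trans (pt y hy).2.1)
      rw [sub_eq_sub_iff_add_eq_add, this, add_comm]
    rw [e', norm_sub_rev (d y)] at b
    have b' := mul_le_mul_of_nonneg_right (e1.trans (a1 k hk)) (norm_nonneg (x - y))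
    have := dl x y
    have p0 := hε k (ht k hk)
    refine sub_eq_zero.1 (norm_le_zero_iff.1 ?_)
    (refine le_of_not_gt fun h_nl => ?_; linarith only [h_nl, b, b', this, p0, mul_pos_of_neg_of_neg (Mathlib.Tactic.Linarith.sub_neg_of_lt p0) (Mathlib.Tactic.Linarith.sub_neg_of_lt h_nl)])
  have sub : ∀ p ∈ Dbl X G', p ∈ interior W ∧ ‖p.2 - i p.1‖ < d1 / 2 := fun p hp => by
    by_contra k
    have b := far p ⟨⟨⟨hp.1, hp.2.1⟩, not_lt.1 fun l => hp.2.2.1 (gap _ hp.1 _ hp.2.1 hp.2.2.2 l)⟩, k⟩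
    have b1 := (pt _ hp.1).2.2.2
    have b2 := (pt _ hp.2.1).2.2.2
    rw [hp.2.2.2, norm_sub_rev] at b1
    have a3' : η < m / 2 := a3
    linarith only [a3, b, b1, b2, norm_sub_le_norm_sub_add_norm_sub (G p.1) (G' p.2) (G p.2)]
  refine ⟨G', ⟨hG', fun z hz => (pt z hz).1, fun x _ => ⟨d1 / 2, by positivity,
    fun y hy z hz e => gap y hy.1 z hz.1 e ?_⟩, fun x hx y hy z hz e e' => ?_⟩,
      fun z hz => (pt z hz).2.1, fun z hz => (pt z hz).2.2.1, fun z hz => hth ?_,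
        fun p hp => interior_subset (sub p hp).1⟩
  · linarith only [hy, hz, mem_ball_iff_norm.1 hy.2, mem_ball_iff_norm'.1 hz.2,
      norm_sub_le_norm_sub_add_norm_sub y x z]
  · by_contra! k
    have b1 := (sub (x, y) ⟨hx, hy, k.1, e⟩).2
    have b2 := (sub (x, z) ⟨hx, hz, k.2.1, e'⟩).2
    rw [norm_sub_rev] at b2
    exact k.2.2 (gap y hy z hz (e.symm.trans e')
      (by linarith only [b1, b2, norm_sub_le_norm_sub_add_norm_sub y (i x) z]))
  · exact mem_cthickening_of_dist_le _ (G z) _ _ (mem_image_of_mem _ hz.2)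
      (by rw [dist_eq_norm]; exact (pt z hz.1).2.2.2.trans a2)

end BEp
end
end

-- merged part: Pool.Agent.Work.MP_f0515e_an.D3.WFace
section
/-! Swap lemma: faces of arrangements.
`exists_vertex`: take `u ∈ cface L x` with minimal `fdim`; if `v ≠ 0` lies in `fdir L u`, the supremum of the `t` with
`u + t v ∈ face L u` gives a point of `cface L u \ face L u` (`closure_face`, `face_open`), against `fdim_lt`, `cface_sub`.
`cface_const`: `x - s (y - x)` lies in the face for small `s` (`face_open`, `sub_mem_fdir`). `rg_plane`: `reg_of_prod`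
with `v = (h u - h x)⁻¹ • (u - x) ∈ fdir L x`; for `z` near `x` the points `x`, `u`, `z`, `z + s v` lie in `cface L z`
(`near_cface`, `cface_sub`, `face_prod`); the link of `X` is the unit sphere (`crc_sq`). `adapted_bdd`: start with the
functionals `± x i - (R + 1)`, apply `adapted_tp` twice. About 150 lines. -/

open Set Metric Filter Topology Function BEv
open scoped NNReal

noncomputable section
namespace BEp

variable {n m k : ℕ} {L : Set ((Rn n →L[ℝ] ℝ) × ℝ)} {x : Rn n}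

theorem wface_line (hL : L.Finite) {v : Rn n} (hv : v ∈ fdir L x) :
    ∃ s : ℝ, 0 < s ∧ x + s • v ∈ face L x ∧ x + s • -v ∈ face L x := by
  have t : Tendsto (fun s : ℝ => (x, s)) (𝓝[>] 0) (𝓝 (x, 0)) :=
    ((Continuous.prodMk_right x).tendsto 0).mono_left nhdsWithin_le_nhds
  obtain ⟨s, ⟨h1, h2⟩, hs⟩ := (((t.eventually (face_prod hL hv)).and
    (t.eventually (face_prod hL (neg_mem hv)))).and self_mem_nhdsWithin).exists
  exact ⟨s, hs, h1, h2⟩

theorem exists_vertex (hL : L.Finite) (hb : Bornology.IsBounded (cface L x)) :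
    ∃ u ∈ cface L x, fdim L u = 0 := by
  have c : IsClosed (cface L x) := closure_face L x ▸ isClosed_closure
  obtain ⟨u, hu, e⟩ := (isCompact_of_isClosed_isBounded c hb).extremePoints_nonempty
    ⟨x, face_sub_cface L x (mem_face_self L x)⟩
  refine ⟨u, hu, Submodule.finrank_eq_zero.2 ((Submodule.eq_bot_iff _).2 fun v hv => ?_)⟩
  obtain ⟨s, hs, h1, h2⟩ := wface_line hL hv
  have := e (cface_sub hu (face_sub_cface L u h1)) (cface_sub hu (face_sub_cface L u h2))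
    ⟨1 / 2, 1 / 2, by norm_num, by norm_num, by norm_num, by module⟩
  simpa [hs.ne'] using this

theorem vertex_finite (hL : L.Finite) : {u | fdim L u = 0}.Finite := by
  refine ((finite_faces hL).subset (image_subset_range _ _)).of_finite_image fun u hu w _ e => ?_
  have := sub_mem_fdir (face_sub_cface L u (e ▸ mem_face_self L w))
  rw [Submodule.finrank_eq_zero.1 hu, Submodule.mem_bot, sub_eq_zero] at this
  exact this.symm

theorem cface_const (hL : L.Finite) {B : (Rn n →L[ℝ] ℝ) × ℝ}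
    (h : ∀ y ∈ cface L x, ev B x ≤ ev B y) : ∀ y ∈ cface L x, ev B y = ev B x := by
  intro y hy
  obtain ⟨s, hs, -, h2⟩ := wface_line hL (sub_mem_fdir hy)
  have := h _ (face_sub_cface L x h2)
  rw [YPLk_ev, map_neg, St1_sub] at this
  nlinarith [h y hy]

theorem near_cface (hL : L.Finite) (x : Rn n) : ∀ᶠ z in 𝓝 x, x ∈ cface L z := by
  exact preg_near hL x

theorem face_nhds (hL : L.Finite) (h : fdim L x = n) : face L x ∈ 𝓝 x := by
  obtain ⟨ε, h0, k⟩ := face_open hL (mem_face_self L x)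
  have e : fdir L x = ⊤ := Submodule.eq_top_of_finrank_eq (h.trans (Module.finrank_fin_fun ℝ).symm)
  exact mem_of_superset (ball_mem_nhds x h0) fun z hz =>
    k z (e ▸ Submodule.mem_top) (mem_ball_iff_norm.1 hz)

theorem cface_anti {L' : Set ((Rn n →L[ℝ] ℝ) × ℝ)} (h : L ⊆ L') (x : Rn n) :
    cface L' x ⊆ cface L x := by
  exact fun _ hy A hA => hy A (h hA)

theorem adapted_bdd {g : Rn n → Rn m} (hg : TP g) {χ : Rn n → Rn k} (hχ : TP χ) (R : ℝ) :
    ∃ L : Set ((Rn n →L[ℝ] ℝ) × ℝ), L.Finite ∧ ∀ x, ‖x‖ ≤ R →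
      cface L x ⊆ closedBall 0 (R + 1) ∧
      (∃ A : (Rn n →L[ℝ] Rn m) × Rn m, ∀ y ∈ cface L x, g y = A.1 y + A.2) ∧
      ∃ B : (Rn n →L[ℝ] Rn k) × Rn k, ∀ y ∈ cface L x, χ y = B.1 y + B.2 := by
  obtain ⟨L1, f1, s1, a1⟩ := adapted_tp
    (L := range (fun j : Fin n => (ContinuousLinearMap.proj (R := ℝ) (φ := fun _ => ℝ) j, -(R + 1))) ∪
      range fun j : Fin n => (ContinuousLinearMap.proj (R := ℝ) (φ := fun _ => ℝ) j, R + 1))
    ((finite_range _).union (finite_range _)) hg R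
  obtain ⟨L2, f2, s2, a2⟩ := adapted_tp f1 hχ R
  refine ⟨L2, f2, fun x hx => ⟨fun y hy => ?_, (a1 x hx).imp fun A k y hy => k y (cface_anti s2 x hy),
    a2 x hx⟩⟩
  rw [mem_closedBall_zero_iff, pi_norm_le_iff_of_nonneg (by linarith [norm_nonneg x])]
  intro j
  have h0 := abs_le.1 ((norm_le_pi_norm x j).trans hx)
  have h1 : y j + -(R + 1) ≤ 0 := (St1_iff.1 (hy _ (s2 (s1 (Or.inl ⟨j, rfl⟩))))).1
    (show x j + -(R + 1) < 0 by linarith [h0.2])
  have h2 : 0 ≤ y j + (R + 1) := (St1_iff.1 (hy _ (s2 (s1 (Or.inr ⟨j, rfl⟩))))).2.2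
    (show 0 < x j + (R + 1) by linarith [h0.1])
  exact abs_le.2 ⟨by linarith, by linarith⟩

theorem rg_plane {L : Set ((Rn 2 →L[ℝ] ℝ) × ℝ)} (hL : L.Finite) {X : Set (Rn 2)} (hX : Poly X)
    {x u : Rn 2} (hx : X ∈ 𝓝 x) {h : Rn 2 → ℝ} (hh : TP h)
    (ha : ∀ z ∈ X, ∃ B : (Rn 2 →L[ℝ] ℝ) × ℝ, ∀ y ∈ cface L z, h y = B.1 y + B.2)
    (hu : u ∈ cface L x) (hne : h u ≠ h x) : Rg X h x := by
  have ne : h u - h x ≠ 0 := sub_ne_zero.2 hne
  have hv : (h u - h x)⁻¹ • (u - x) ∈ fdir L x := Submodule.smul_mem _ _ (sub_mem_fdir hu)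
  have e : lk X x = sphere 0 1 := Set.ext fun v => ⟨fun k => mem_sphere_zero_iff_norm.2 k.1,
    fun k => ⟨mem_sphere_zero_iff_norm.1 k, (YPLk_ray x v).eventually hx⟩⟩
  refine reg_of_prod (v := (h u - h x)⁻¹ • (u - x)) hX (mem_of_mem_nhds hx)
    (e ▸ (crc_sq 0 one_pos).tcrc) hh ?_
  have f1 : Tendsto (Prod.fst : Rn 2 × ℝ → Rn 2) (𝓝 (x, 0)) (𝓝 x) := continuous_fst.tendsto _
  have f2 : Tendsto (fun p : Rn 2 × ℝ => p.1 + p.2 • (h u - h x)⁻¹ • (u - x)) (𝓝 (x, 0)) (𝓝 x) :=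
    Continuous.tendsto' (by fun_prop) _ _ (by simp)
  filter_upwards [face_prod hL hv, f1.eventually (preg_near hL x), f1.eventually hx,
    f2.eventually hx] with p k1 k2 k3 k4
  refine ⟨iff_of_true k4 k3, ?_⟩
  obtain ⟨B, hB⟩ := ha p.1 k3
  have e5 : B.1 u - B.1 x = h u - h x := by linarith only [hB, k2, hu, hB _ k2, hB _ (cface_sub k2 hu)]
  rw [hB _ (face_sub_cface _ _ k1), hB _ (face_sub_cface _ _ (mem_face_self L p.1)), map_add,
    map_smul, map_smul, map_sub, e5, smul_eq_mul, smul_eq_mul, inv_mul_cancel₀ ne]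
  ring

/-- A plane in three space is the kernel of a functional. -/
theorem exists_ker {A : Rn 2 →L[ℝ] Rn 3} (hA : Injective A) :
    ∃ (l : Rn 3 →L[ℝ] ℝ) (k : Rn 3 →L[ℝ] Rn 2), (∀ v, l (A v) = 0) ∧
      ∀ a, l a = 0 → A (k a) = a := by
  have r : Module.finrank ℝ (LinearMap.range (A : Rn 2 →ₗ[ℝ] Rn 3)) = 2 :=
    (LinearMap.finrank_range_of_inj hA).trans (Module.finrank_fin_fun ℝ)
  obtain ⟨l, l0, hl⟩ := (LinearMap.range (A : Rn 2 →ₗ[ℝ] Rn 3)).exists_le_ker_of_lt_top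
    (lt_top_iff_ne_top.2 fun e => by
      rw [e, finrank_top, Module.finrank_fin_fun] at r
      omega)
  obtain ⟨k, hk⟩ := (A : Rn 2 →ₗ[ℝ] Rn 3).exists_leftInverse_of_injective (LinearMap.ker_eq_bot.2 hA)
  have d := Submodule.finrank_lt (mt LinearMap.ker_eq_top.1 l0)
  rw [Module.finrank_fin_fun] at d
  refine ⟨LinearMap.toContinuousLinearMap l, LinearMap.toContinuousLinearMap k, fun v => hl ⟨v, rfl⟩,
    fun a ha => ?_⟩
  obtain ⟨v, rfl⟩ : a ∈ LinearMap.range (A : Rn 2 →ₗ[ℝ] Rn 3) :=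
    (Submodule.eq_of_le_of_finrank_le hl (by omega)).ge ha
  exact congrArg A (LinearMap.congr_fun hk v)

end BEp
end
end

-- merged part: Pool.Agent.Work.MP_f0515e_an.D3.WGP
section
/-! Swap lemma: choice of generic parameters.
`L` from `adapted_bdd`. Bad set (E): `gp` for `P = Sk ×ˢ Sk`, `Sk = {x | ‖x‖ ≤ R ∧ fdim L x ≤ 1}` (`pc_lower`, `PC.sm`,
`Sm.prod`), `Φ p = g p.1 - g p.2`, `lam j p = χ p.1 j - χ p.2 j`; note `fdim L x ≤ 2`. Bad sets (V): one for each vertex `u`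
(`vertex_finite`) and each face `F ∈ range (face L)` (`finite_faces`) meeting the ball, with pieces `A`, `B` chosen for the
face, where the coordinate `j` of `B` is replaced by zero if `χ · j` vanishes on the closed face: `gp` for `P = univ`,
`Φ z = g u - (A.1 z + A.2)`, `lam j z = χ u j - (B.1 z + B.2) j`. If `χ x j = 1`, `χ y j = 0`, then `χ · j` is one on
`cface L x` and zero on `cface L y` (`cface_const`), `u` from `exists_vertex`. `Thin.iUnion`, `Thin.exists_near`.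
About 130 lines. -/

open Set Metric Filter Topology Function BEv
open scoped NNReal

noncomputable section
namespace BEp

theorem WGP_ll {E F : Type} [NormedAddCommGroup E] [NormedSpace ℝ E] [NormedAddCommGroup F]
    [NormedSpace ℝ F] {f : E → F} (h : TP f) (s : Set E) : LocallyLipschitzOn s f := by
  obtain ⟨K, hK⟩ := h.lip
  exact hK.locallyLipschitz.locallyLipschitzOn

theorem WGP_pieces {k : ℕ} {g : Rn 2 → Rn 3} {χ : Rn 2 → Rn k} {R : ℝ}
    {L : Set ((Rn 2 →L[ℝ] ℝ) × ℝ)} (hA : ∀ x, ‖x‖ ≤ R →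
      (∃ A : (Rn 2 →L[ℝ] Rn 3) × Rn 3, ∀ y ∈ cface L x, g y = A.1 y + A.2) ∧
      ∃ B : (Rn 2 →L[ℝ] Rn k) × Rn k, ∀ y ∈ cface L x, χ y = B.1 y + B.2) (F : Set (Rn 2)) :
    ∃ (A : (Rn 2 →L[ℝ] Rn 3) × Rn 3) (B : Fin k → (Rn 2 →L[ℝ] ℝ) × ℝ), ∀ y, ‖y‖ ≤ R →
      face L y = F → (∀ z ∈ cface L y, g z = A.1 z + A.2) ∧
        (∀ z ∈ cface L y, ∀ j, χ z j = ev (B j) z) ∧
        ∀ j, (∀ z ∈ cface L y, χ z j = 0) → B j = 0 := by
  classical
  by_cases h : ∃ y, ‖y‖ ≤ R ∧ face L y = F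
  · obtain ⟨y₀, h1, rfl⟩ := h
    obtain ⟨⟨A, h2⟩, B, h3⟩ := hA y₀ h1
    refine ⟨A, fun j => if ∀ z ∈ cface L y₀, χ z j = 0 then 0 else
      ((ContinuousLinearMap.proj (R := ℝ) (φ := fun _ : Fin k => ℝ) j).comp B.1, B.2 j),
      fun y _ e => ?_⟩
    rw [cface_eq (e ▸ mem_face_self L y : y ∈ face L y₀)]
    refine ⟨h2, fun z hz j => ?_, fun j hj => if_pos hj⟩
    beta_reduce
    split_ifs with h4
    · rw [h4 z hz]
      simp [ev]
    · rw [h3 z hz]
      rfl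
  · exact ⟨0, 0, fun y h1 h2 => (h ⟨y, h1, h2⟩).elim⟩



theorem wgp {k : ℕ} {g : Rn 2 → Rn 3} (hg : TP g) {χ : Rn 2 → Rn k} (hχ : TP χ)
    (h01 : ∀ z j, 0 ≤ χ z j ∧ χ z j ≤ 1) (R : ℝ) {ε : ℝ} (hε : 0 < ε) :
    ∃ (w : Fin k → Rn 3) (L : Set ((Rn 2 →L[ℝ] ℝ) × ℝ)), ‖w‖ < ε ∧ L.Finite ∧
      (∀ x, ‖x‖ ≤ R → ∃ A : (Rn 2 →L[ℝ] Rn 3) × Rn 3, ∀ y ∈ cface L x,
        g y + ∑ j, χ y j • w j = A.1 y + A.2) ∧
      ∀ x y, ‖x‖ ≤ R → ‖y‖ ≤ R → (∃ j, χ x j = 1 ∧ χ y j = 0) →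
        (g x + ∑ j, χ x j • w j = g y + ∑ j, χ y j • w j → fdim L x = 2 ∨ fdim L y = 2) ∧
        ∃ A : (Rn 2 →L[ℝ] Rn 3) × Rn 3, (∀ z ∈ cface L y, g z + ∑ j, χ z j • w j = A.1 z + A.2) ∧
          ∃ u ∈ cface L x, ∀ z, g u + ∑ j, χ u j • w j ≠ A.1 z + A.2 := by
  obtain ⟨L, hL, hA⟩ := adapted_bdd hg hχ R
  choose A B hAB using WGP_pieces fun x hx => (hA x hx).2
  let Af : Set (Rn 2) → (Fin k → Rn 3) → (Rn 2 →L[ℝ] Rn 3) × Rn 3 := fun F w =>
    ((A F).1 + ∑ j, (B F j).1.smulRight (w j), (A F).2 + ∑ j, (B F j).2 • w j)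
  have hAf : ∀ F w z, (Af F w).1 z + (Af F w).2 =
      (A F).1 z + (A F).2 + ∑ j, ev (B F j) z • w j := by
    intro F w z
    simp only [Af, ev, add_apply, sum_apply, ContinuousLinearMap.smulRight_apply, add_smul,
      Finset.sum_add_distrib]
    abel
  have hval : ∀ w x, ‖x‖ ≤ R → ∀ z ∈ cface L x,
      g z + ∑ j, χ z j • w j = (Af (face L x) w).1 z + (Af (face L x) w).2 := by
    intro w x hx z hz
    obtain ⟨h1, h2, -⟩ := hAB _ x hx rfl
    rw [hAf, h1 z hz]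
    simp only [h2 z hz]
  have hSk : Sm 1 {x : Rn 2 | fdim L x ≤ 1} := (pc_lower hL fun _ h => h).sm
  have hE : Thin {w : Fin k → Rn 3 | ∃ p ∈ {x : Rn 2 | fdim L x ≤ 1} ×ˢ {x : Rn 2 | fdim L x ≤ 1},
      (∃ j, χ p.1 j - χ p.2 j ≠ 0) ∧
        fam (fun p => g p.1 - g p.2) (fun j p => χ p.1 j - χ p.2 j) w p = 0} :=
    gp (hSk.prod hSk) (WGP_ll ((hg.comp TP.id'.fst).sub (hg.comp TP.id'.snd)) _)
      (fun j => WGP_ll (((hχ.comp TP.id'.fst).apply j).sub ((hχ.comp TP.id'.snd).apply j)) _)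
      (by simp)
  have hV : ∀ q : {u | fdim L u = 0} × range (face L), Thin {w : Fin k → Rn 3 | ∃ z ∈ univ,
      (∃ j, χ q.1 j - ev (B q.2 j) z ≠ 0) ∧ fam (fun z => g q.1 - ((A q.2).1 z + (A q.2).2))
        (fun j z => χ q.1 j - ev (B q.2 j) z) w z = 0} := fun q =>
    gp (Sm.univ (E := Rn 2)) (WGP_ll ((TP.const _).sub ((TP.clm _).add (TP.const _))) _)
      (fun j => WGP_ll ((TP.const _).sub (st3_tp _)) _) (by simp)
  have := (vertex_finite hL).to_subtype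
  have := (finite_faces hL).to_subtype
  obtain ⟨w, hw, hw'⟩ := Thin.exists_near (Thin.union @hE (Thin.iUnion hV)) 0 hε
  refine ⟨w, L, by simpa using hw, hL, fun x hx => ⟨_, hval w x hx⟩, ?_⟩
  rintro x y hx hy ⟨j, hj1, hj0⟩
  have hd : ∀ z, fdim L z ≤ 2 := fun z => by
    simpa [fdim] using Submodule.finrank_le (fdir L z)
  refine ⟨fun e => ?_, _, hval w y hy, ?_⟩
  · by_contra hc
    rw [not_or] at hc
    have h1 := hd x
    have h2 := hd y
    refine hw' (Or.inl ⟨(x, y), ⟨show fdim L x ≤ 1 by omega, show fdim L y ≤ 1 by omega⟩,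
      ⟨j, by simp [hj1, hj0]⟩, ?_⟩)
    simp only [fam, sub_smul, Finset.sum_sub_distrib]
    rw [sub_add_sub_comm, e, sub_self]
  · obtain ⟨u, hu, hu0⟩ := exists_vertex hL (isBounded_closedBall.subset (hA x hx).1)
    obtain ⟨-, h1, -⟩ := hAB _ x hx rfl
    obtain ⟨-, h2, h3⟩ := hAB _ y hy rfl
    have hx' : x ∈ cface L x := face_sub_cface L x (mem_face_self L x)
    have hy' : y ∈ cface L y := face_sub_cface L y (mem_face_self L y)
    have hneg : ∀ (C : (Rn 2 →L[ℝ] ℝ) × ℝ) z, ev (-C) z = -ev C z := fun C z => by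
      simp only [ev, Prod.fst_neg, Prod.snd_neg, neg_apply]
      ring
    have h4 : χ u j = 1 := by
      have := cface_const hL (B := -B (face L x) j) (fun z hz => by
        rw [hneg, hneg, ← h1 x hx', ← h1 z hz, hj1]
        exact neg_le_neg (h01 z j).2) u hu
      rwa [hneg, hneg, ← h1 x hx', ← h1 u hu, hj1, neg_inj] at this
    have h5 : B (face L y) j = 0 := h3 j fun z hz => by
      have := cface_const hL (B := B (face L y) j) (fun z hz => by
        rw [← h2 y hy', ← h2 z hz, hj0]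
        exact (h01 z j).1) z hz
      rwa [← h2 y hy', ← h2 z hz, hj0] at this
    refine ⟨u, hu, fun z e => hw' (Or.inr (mem_iUnion.2 ⟨(⟨u, hu0⟩, ⟨face L y, y, rfl⟩),
      z, mem_univ z, ⟨j, by simp [h4, h5, ev]⟩, ?_⟩))⟩
    rw [hAf] at e
    simp only [fam, sub_smul, Finset.sum_sub_distrib]
    rw [sub_add_sub_comm, e, sub_self]

end BEp
end
end

-- merged part: Pool.Agent.Work.MP_f0515e_an.D3.WCrs
section
/-! Swap lemma: a generic double pair is a crossing.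
`A.1` is injective, since `G` is injective near `y` and `π` on `E` near `G y` (`Etale.inj`). Take `l`, `k` from
`exists_ker`, `h = l ∘ g`. If `h u = h x` then `g u = A.1 (y + k (g u - g x)) + A.2`. `rg_plane` gives `up`, `dn` and the
link of the level set. `hit`: for `z` near `x` with `h z = h x` the point `z' = y + k (g z - g x)` is near `y` and
`g z' = g z`, so `G z' = G z`. Near `x` the double set is the level set of `h` (partners of points near `x` are near `y` by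
`Imm.partner`), `lk_congr`. About 100 lines. -/

open Set Metric Filter Topology Function BEv
open scoped NNReal

noncomputable section
namespace BEp

variable {N : ℕ} {π : Rn N →L[ℝ] Rn 3} {E U : Set (Rn N)} {X Xin : Set (Rn 2)}
  {G : Rn 2 → Rn N} {𝒞 : Set (Set (Rn 2))}

theorem crs_of_flat (hE : Etale π E) (hX : Poly X) (hG : Imm E X G) {g : Rn 2 → Rn 3} (hg : TP g)
    (he : ∀ z ∈ X, π (G z) = g z) {L : Set ((Rn 2 →L[ℝ] ℝ) × ℝ)} (hL : L.Finite)
    (ha : ∀ x ∈ X, ∃ A : (Rn 2 →L[ℝ] Rn 3) × Rn 3, ∀ y ∈ cface L x, g y = A.1 y + A.2)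
    {x y u : Rn 2} (hp : (x, y) ∈ Dbl X G) (hx : X ∈ 𝓝 x) (hy : X ∈ 𝓝 y) (h2 : fdim L y = 2)
    {A : (Rn 2 →L[ℝ] Rn 3) × Rn 3} (hA : ∀ z ∈ cface L y, g z = A.1 z + A.2)
    (hu : u ∈ cface L x) (hne : ∀ z, g u ≠ A.1 z + A.2) :
    Crx π G x y ∧ (lk (DS X G) x).ncard = 2 := by
  obtain ⟨hxX, hyX, hxy, hGe⟩ : x ∈ X ∧ y ∈ X ∧ x ≠ y ∧ G x = G y := hp
  obtain ⟨O, hO, hi⟩ := hE.inj (hG.mem hxX)
  have hc := hG.tp.continuous
  have gx : g x = A.1 y + A.2 := by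
    rw [← he x hxX, hGe, he y hyX, hA y (face_sub_cface L y (mem_face_self L y))]
  have nx : ∀ᶠ z in 𝓝 x, z ∈ X ∧ G z ∈ O := (eventually_mem_set.2 hx).and (hc.continuousAt hO)
  have ny : ∀ᶠ z in 𝓝 y, (z ∈ X ∧ G z ∈ O) ∧ g z = A.1 z + A.2 :=
    ((eventually_mem_set.2 hy).and (hc.continuousAt (hGe ▸ hO))).and
      (mem_of_superset (face_nhds hL h2) fun z hz => hA z (face_sub_cface L y hz))
  have hπ : ∀ z z', z ∈ X ∧ G z ∈ O → z' ∈ X ∧ G z' ∈ O → g z = g z' → G z = G z' :=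
    fun z z' k k' e => hi ⟨hG.mem k.1, k.2⟩ ⟨hG.mem k'.1, k'.2⟩ (by rw [he z k.1, he z' k'.1, e])
  have hAi : Injective A.1 := by
    refine (injective_iff_map_eq_zero _).2 fun v hv => ?_
    obtain ⟨ε, hε, hb⟩ := hG.loc y hyX
    obtain ⟨t, ⟨⟨k1, k2⟩, k3⟩, ht⟩ := (((YPLk_ray y v).eventually
      (ny.and (ball_mem_nhds y hε))).and self_mem_nhdsWithin).exists
    rw [map_add, map_smul, hv, smul_zero, add_zero, ← gx] at k2
    have k4 := hb ⟨k1.1, k3⟩ ⟨hyX, mem_ball_self hε⟩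
      ((hπ _ _ k1 nx.self_of_nhds k2).trans hGe)
    exact (smul_eq_zero.1 (add_eq_left.1 k4)).resolve_left (ne_of_gt ht)
  obtain ⟨l, k, hl, hk⟩ := exists_ker hAi
  have hz : ∀ z, l (g z) = l (g x) → g z = A.1 (y + k (g z - g x)) + A.2 := fun z e => by
    rw [map_add, hk _ (by rw [map_sub, e, sub_self]), add_right_comm, ← gx, add_sub_cancel]
  have hr : Rg X (fun z => l (g z)) x := by
    refine rg_plane hL hX hx ((TP.clm l).comp hg) (fun z hz => ?_) hu fun e => hne _ (hz u e)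
    obtain ⟨B, hB⟩ := ha z hz
    exact ⟨(l.comp B.1, l B.2), fun w hw => by rw [hB w hw, map_add]; rfl⟩
  have fl : ∀ᶠ z in 𝓝 y, l (π (G z)) = l (g x) := ny.mono fun z e => by
    rw [he z e.1.1, e.2, gx, map_add, map_add, hl, hl]
  have ht : Tendsto (fun z => y + k (g z - g x)) (𝓝 x) (𝓝 y) :=
    (continuous_const.add (k.continuous.comp (hg.continuous.sub continuous_const))).tendsto' x y
      (by simp)
  have hit : ∀ᶠ z in 𝓝 x, l (g z) = l (g x) → G z = G (y + k (g z - g x)) := by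
    filter_upwards [nx, ht.eventually ny] with z k1 k2 e
    exact hπ _ _ k1 k2.1 ((hz z e).trans k2.2.symm)
  refine ⟨⟨l, ?_, fun S hS => ?_, ?_, ?_⟩, ?_⟩
  · rw [he x hxX]
    exact fl
  · rw [eventually_map, he x hxX]
    filter_upwards [nx, hit, ht.eventually (mem_map.1 hS)] with z k1 k2 k3 e
    rw [k2 (he z k1.1 ▸ e)]
    exact k3
  · rw [frequently_map, he x hxX]
    exact (mem_closure_iff_frequently.1 hr.up).mono fun z e => (he z e.1).symm ▸ e.2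
  · rw [frequently_map, he x hxX]
    exact (mem_closure_iff_frequently.1 hr.dn).mono fun z e => (he z e.1).symm ▸ e.2
  · obtain ⟨-, i, i1, i2, i3⟩ := hG.partner hX
    have hi' : Tendsto i (𝓝 x) (𝓝 y) :=
      i1.continuous.tendsto' x y (i2 x y ⟨hxX, hyX, hxy, hGe⟩).symm
    refine (congrArg ncard (lk_congr ?_)).trans hr.two
    filter_upwards [nx, hit, ht.eventually ny, hi'.eventually fl,
      (isOpen_ne_fun continuous_fst continuous_snd).mem_nhds (x := (x, y)) hxy |>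
        (tendsto_id.prodMk_nhds ht).eventually] with z k1 k2 k3 k4 k5
    refine ⟨fun e => ⟨k1.1, ?_⟩, fun e => ⟨_, k1.1, k3.1.1, k5, k2 e.2⟩⟩
    rw [← k4, ← he z k1.1]
    exact congrArg (fun w => l (π w)) (i3 z e).1.2.2.2

end BEp
end
end

-- merged part: Pool.Agent.Work.MP_f0515e_an.D3.WGen
section
/-! Swap lemma: general position.
`wbump`: for `p ∈ D` take `ρ` with `3 ρ < d` and `closedBall p (2 ρ) ⊆ O`; finitely many `ball p ρ` cover `D`;
`χ z j = max 0 (min 1 (2 - ‖z - p_j‖ / ρ_j))`, `K` the union of the `closedBall p_j (2 ρ_j)`, `W` the union of the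
`ball p_j ρ_j ×ˢ (closedBall p_j (2 ρ_j))ᶜ`. `wgen`: `wbump` for `D = DS X G`, `O = Xin ∩ G ⁻¹' U`, then `wstab`, `tp_small`
for `χ`, `wgp`, `crs_of_flat` at the point of a pair whose partner is in an open 2-face; the link at the partner has
the same number of points by `lk_ncard_image` for the partner map; `oneman_crc`. About 130 lines. -/

open Set Metric Filter Topology Function BEv
open scoped NNReal

noncomputable section
namespace BEp

variable {N : ℕ} {π : Rn N →L[ℝ] Rn 3} {E U : Set (Rn N)} {X Xin : Set (Rn 2)}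
  {G : Rn 2 → Rn N} {𝒞 : Set (Set (Rn 2))}

theorem wbump {D O : Set (Rn 2)} (hD : IsCompact D) (hO : IsOpen O) (h : D ⊆ O) {d : ℝ}
    (hd : 0 < d) : ∃ (k : ℕ) (χ : Rn 2 → Rn k) (K : Set (Rn 2)) (W : Set (Rn 2 × Rn 2)), TP χ ∧
      (∀ z j, 0 ≤ χ z j ∧ χ z j ≤ 1) ∧ IsCompact K ∧ K ⊆ O ∧ (∀ z, z ∉ K → χ z = 0) ∧ IsOpen W ∧
      (∀ x ∈ D, ∀ y, d ≤ ‖x - y‖ → (x, y) ∈ W) ∧ ∀ p ∈ W, ∃ j, χ p.1 j = 1 ∧ χ p.2 j = 0 := by
  have h1 : ∀ p : Rn 2, ∃ ρ : ℝ, 0 < ρ ∧ 3 * ρ < d ∧ (p ∈ D → closedBall p (2 * ρ) ⊆ O) := by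
    intro p
    by_cases hp : p ∈ D
    · obtain ⟨r, r0, hr⟩ := Metric.isOpen_iff.1 hO p (h hp)
      have m1 := min_le_left r d
      have m2 := min_le_right r d
      have m3 := lt_min r0 hd
      exact ⟨min r d / 4, by positivity, by linarith only [hd, m2],
        fun _ => (closedBall_subset_ball (by linarith)).trans hr⟩
    · exact ⟨d / 4, by positivity, by linarith, fun k => absurd k hp⟩
  choose ρ ρ0 ρd ρO using h1
  obtain ⟨t, tD, ht⟩ := hD.elim_nhds_subcover (fun p => ball p (ρ p)) fun p _ =>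
    ball_mem_nhds p (ρ0 p)
  obtain ⟨c, cD, hc⟩ : ∃ c : Fin t.card → Rn 2, (∀ j, c j ∈ D) ∧ ∀ p ∈ t, ∃ j, c j = p :=
    ⟨fun j => t.equivFin.symm j, fun j => tD _ (t.equivFin.symm j).2,
      fun p hp => ⟨t.equivFin ⟨p, hp⟩, by simp⟩⟩
  have z0 : ∀ z j, z ∉ closedBall (c j) (2 * ρ (c j)) →
      max 0 (min 1 (2 - ‖z - c j‖ / ρ (c j))) = 0 := by
    intro z j hz
    rw [mem_closedBall, dist_eq_norm, not_le] at hz
    refine max_eq_left ((min_le_right _ _).trans ?_)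
    have := (le_div_iff₀ (ρ0 (c j))).2 hz.le
    linarith only [this]
  refine ⟨t.card, fun z j => max 0 (min 1 (2 - ‖z - c j‖ / ρ (c j))),
    ⋃ j, closedBall (c j) (2 * ρ (c j)),
    ⋃ j, ball (c j) (ρ (c j)) ×ˢ (closedBall (c j) (2 * ρ (c j)))ᶜ,
    TP.pi fun j => (TP.const 0).max ((TP.const 1).min ((TP.const 2).sub
      ((TP.id'.sub (TP.const (c j))).norm_pi.div_const _))),
    fun z j => ⟨le_max_left _ _, max_le zero_le_one (min_le_left _ _)⟩,
    isCompact_iUnion fun j => isCompact_closedBall _ _, iUnion_subset fun j => ρO _ (cD j),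
    fun z hz => funext fun j => z0 z j fun k => hz (mem_iUnion.2 ⟨j, k⟩),
    isOpen_iUnion fun j => isOpen_ball.prod isClosed_closedBall.isOpen_compl,
    fun x hx y hy => ?_, fun p hp => ?_⟩
  · obtain ⟨p, hp, hxp⟩ := mem_iUnion₂.1 (ht hx)
    obtain ⟨j, rfl⟩ := hc p hp
    refine mem_iUnion.2 ⟨j, hxp, fun k => ?_⟩
    have k1 : dist x (c j) < ρ (c j) := hxp
    have k2 : dist y (c j) ≤ 2 * ρ (c j) := k
    have k3 := dist_triangle_right x y (c j)
    rw [dist_eq_norm x y] at k3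
    linarith [ρd (c j)]
  · obtain ⟨j, h1, h2⟩ := mem_iUnion.1 hp
    refine ⟨j, ?_, z0 _ j h2⟩
    rw [mem_ball, dist_eq_norm] at h1
    have := (div_le_one (ρ0 (c j))).2 h1.le
    show max 0 (min 1 (2 - ‖p.1 - c j‖ / ρ (c j))) = 1
    rw [min_eq_left (by linarith only [this]), max_eq_right zero_le_one]

theorem wgen_sum {k : ℕ} (v : Rn k) (w : Fin k → Rn 3) : ‖∑ j, v j • w j‖ ≤ k * (‖v‖ * ‖w‖) := by
  refine (norm_sum_le _ _).trans ((Finset.sum_le_card_nsmul _ _ (‖v‖ * ‖w‖) fun j _ => ?_).trans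
    (by simp))
  rw [norm_smul]
  exact mul_le_mul (norm_le_pi_norm v j) (norm_le_pi_norm w j) (norm_nonneg _) (norm_nonneg _)

theorem wgen (hE : Etale π E) (hX : Poly X) (ho : IsOpen Xin) (hs : Xin ⊆ X) (hU : IsOpen U)
    (h : WPre E X Xin U G) : ∃ G' 𝒞, WGood π E X Xin U G' 𝒞 ∧ WRel X Xin U G G' := by
  obtain ⟨d, hd, gap⟩ := h.imm.gap hX.1
  obtain ⟨k, χ, K, W, tχ, h01, cK, KO, χ0, oW, hW, hW'⟩ := wbump (h.imm.partner hX).1.1
    (ho.inter (hU.preimage h.imm.tp.continuous)) (fun x hx => ⟨h.ds hx, h.u hx⟩) hd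
  obtain ⟨ε, hε, st⟩ := wstab hE hX h.imm
    (oW.mem_nhdsSet.2 fun p hp => hW p.1 ⟨p.2, hp⟩ p.2 (gap p hp)) cK hU fun x hx => (KO hx).2
  obtain ⟨M, M0, lip, bd⟩ := tp_small tχ cK χ0
  obtain ⟨R, hR⟩ := hX.1.isBounded.exists_norm_le
  have tg : TP fun z => π (G z) := (TP.clm π).comp h.imm.tp
  have k0 : (0 : ℝ) < k * M + 1 := by positivity
  obtain ⟨w, L, hw, hL, ha, hp⟩ := wgp tg tχ h01 R (div_pos hε k0)
  have w1 : k * (M * ‖w‖) ≤ ε := by
    have := (lt_div_iff₀ k0).1 hw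
    linarith only [this, norm_nonneg w]
  have td : TP fun z => ∑ j, χ z j • w j := TP.sum _ fun j _ => (tχ.apply j).smul_const _
  obtain ⟨G', iG, e1, e2, e3, e4⟩ := st (fun z => ∑ j, χ z j • w j) td (fun x y => by
      have e : ∑ j, χ x j • w j - ∑ j, χ y j • w j = ∑ j, (χ x - χ y) j • w j := by
        simp only [Pi.sub_apply, sub_smul, Finset.sum_sub_distrib]
      rw [e]
      refine (wgen_sum _ _).trans ?_
      calc (k : ℝ) * (‖χ x - χ y‖ * ‖w‖) ≤ k * (M * ‖x - y‖ * ‖w‖) := by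
            gcongr
            exact lip x y
        _ = k * (M * ‖w‖) * ‖x - y‖ := by ring
        _ ≤ ε * ‖x - y‖ := mul_le_mul_of_nonneg_right w1 (norm_nonneg _))
    fun x => (wgen_sum _ _).trans (le_trans (by gcongr; exact bd x) w1)
  have dK : ∀ x y, (x, y) ∈ Dbl X G' → x ∈ K := fun x y hxy => by
    obtain ⟨j, h1, -⟩ := hW' _ (e4 hxy)
    by_contra hx
    rw [χ0 x hx] at h1
    exact zero_ne_one h1
  have nb : ∀ x y, (x, y) ∈ Dbl X G' → X ∈ 𝓝 x := fun x y hxy =>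
    mem_of_superset (ho.mem_nhds (KO (dK x y hxy)).1) hs
  have k1 : ∀ x y, (x, y) ∈ Dbl X G' → fdim L y = 2 →
      Crx π G' x y ∧ (lk (DS X G') x).ncard = 2 := fun x y hxy h2 => by
    obtain ⟨-, A, hA, u, hu, hne⟩ := hp x y (hR x hxy.1) (hR y hxy.2.1) (hW' _ (e4 hxy))
    exact crs_of_flat hE hX iG (tg.add td) e1 hL (fun z hz => ha z (hR z hz)) hxy (nb x y hxy)
      (nb y x (dbl_swap hxy)) h2 hA hu hne
  have k2 : ∀ x y, (x, y) ∈ Dbl X G' → fdim L x = 2 ∨ fdim L y = 2 := fun x y hxy => by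
    refine (hp x y (hR x hxy.1) (hR y hxy.2.1) (hW' _ (e4 hxy))).1 ?_
    rw [← e1 x hxy.1, ← e1 y hxy.2.1]
    exact congrArg π hxy.2.2.2
  obtain ⟨pD, i, ti, i1, i2⟩ := iG.partner hX
  have i3 : InjOn i (DS X G') := fun x hx y hy e => by
    rw [← (i2 x hx).2.2, e, (i2 y hy).2.2]
  have i4 : i '' DS X G' = DS X G' := Subset.antisymm
    (by rintro _ ⟨x, hx, rfl⟩; exact (i2 x hx).2.1)
    fun x hx => ⟨i x, (i2 x hx).2.1, (i2 x hx).2.2⟩
  obtain ⟨𝒞, c1, c2, c3, c4⟩ := oneman_crc pD fun x hx => by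
    obtain ⟨y, hxy⟩ := id hx
    rcases k2 x y hxy with h2 | h2
    · have h3 := (lk_ncard_image pD ti i3 hx).1
      rw [i4, ← i1 x y hxy] at h3
      rw [← h3]
      exact (k1 y x (dbl_swap hxy) h2).2
    · exact (k1 x y hxy h2).2
  have z1 : ∀ x ∈ X, x ∉ K → G' x = G x := fun x hx hK => e2 x hx (by simp [χ0 x hK])
  refine ⟨G', 𝒞, ⟨⟨iG, fun x ⟨y, hxy⟩ => (KO (dK x y hxy)).1,
    fun x ⟨y, hxy⟩ => e3 x ⟨hxy.1, dK x y hxy⟩⟩, c1, c2, c3, c4, fun p hp => ?_⟩,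
    fun x hx => z1 x hx.1 fun k => hx.2 (KO k).1, fun x hx => ?_⟩
  · exact (k2 p.1 p.2 hp).symm.imp (fun h2 => (k1 p.1 p.2 hp h2).1)
      fun h2 => (k1 p.2 p.1 (dbl_swap hp) h2).1
  · by_cases hK : x ∈ K
    · exact Or.inl (e3 x ⟨hs hx, hK⟩)
    · exact Or.inr ⟨x, hx, (z1 x (hs hx) hK).symm⟩

end BEp
end
end

-- merged part: Pool.Agent.Work.MP_f0515e_an.D3.WPush
section
/-! Swap lemma: pushing touching sheets apart.
`DS X G \ C` is closed. Take `r` with `K = cthickening r C ⊆ Xin ∩ G ⁻¹' U ∩ (DS X G \ C)ᶜ`, `δ'` from `tp_cut` for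
`thickening r C`, `M` from `tp_small`, `d = (ε / M) • δ'`, and in `wstab` the set `W` of all `q` such that either
`l (π (G q.2)) ≤ l (π (G q.1))` and `l (δ' q.2) < l (δ' q.1)` for some `l`, or `q.1, q.2 ∉ K`. About 90 lines. -/

open Set Metric Filter Topology Function BEv
open scoped NNReal

noncomputable section
namespace BEp

variable {N : ℕ} {π : Rn N →L[ℝ] Rn 3} {E U : Set (Rn N)} {X Xin : Set (Rn 2)}
  {G : Rn 2 → Rn N} {𝒞 : Set (Set (Rn 2))}

theorem wpush (hE : Etale π E) (hX : Poly X) (ho : IsOpen Xin) (hs : Xin ⊆ X) (hU : IsOpen U)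
    (h : WPre E X Xin U G) {C : Set (Rn 2)} (hC : IsCompact C) (hCX : C ⊆ Xin)
    (hCU : MapsTo G C U) (hop : ∀ x ∈ C, ∀ᶠ z in 𝓝 x, z ∈ DS X G → z ∈ C) {δ : Rn 2 → Rn 3}
    (hδ : TP δ) (hp : ∀ x y, (x, y) ∈ Dbl X G → x ∈ C →
      y ∈ C ∧ ∃ l, WSep π G x y l ∧ l (δ y) < l (δ x)) :
    ∃ G', Imm E X G' ∧ WRel X Xin U G G' ∧ (∀ p, p ∈ Dbl X G' ↔ p ∈ Dbl X G ∧ p.1 ∉ C) ∧
      ∀ x ∈ DS X G', G' =ᶠ[𝓝 x] G := by
  have cG := h.imm.tp.continuous
  obtain ⟨r, hr, hK⟩ := hC.exists_cthickening_subset_open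
    ((ho.inter (hU.preimage cG)).inter (isOpen_interior (s := {z | z ∈ DS X G → z ∈ C})))
    fun x hx => ⟨⟨hCX hx, hCU hx⟩, mem_interior_iff_mem_nhds.2 (hop x hx)⟩
  obtain ⟨δ', h1, h2, h3⟩ := tp_cut hC isOpen_thickening (self_subset_thickening hr C) hδ
  have cK : IsCompact (cthickening r C) := hC.cthickening
  have sK := self_subset_cthickening (δ := r) C
  replace h3 : ∀ z, z ∉ cthickening r C → δ' z = 0 := fun z hz =>
    h3 z fun k => hz (thickening_subset_cthickening r C k)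
  generalize cthickening r C = K at hK cK sK h3
  obtain ⟨M, hM, m1, m2⟩ := tp_small h1 cK h3
  have oK := cK.isClosed.isOpen_compl
  have out : ∀ x y, (x, y) ∈ Dbl X G → x ∉ C → x ∉ K ∧ y ∉ K := fun x y k hx =>
    ⟨fun e => hx (interior_subset (hK e).2 ⟨y, k⟩), fun e =>
      hx (hp y x (dbl_swap k) (interior_subset (hK e).2 ⟨x, dbl_swap k⟩)).1⟩
  have hst := wstab hE hX h.imm (W := {q | (∃ l : Rn 3 →L[ℝ] ℝ,
    l (π (G q.2)) ≤ l (π (G q.1)) ∧ l (δ' q.2) < l (δ' q.1)) ∨ (q.1 ∉ K ∧ q.2 ∉ K)})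
    (mem_nhdsSet_iff_forall.2 ?_) cK hU fun x hx => (hK hx).1.2
  · obtain ⟨ε, hε, hst⟩ := hst
    have hc : 0 < ε / M := by positivity
    have e : ε / M * M = ε := div_mul_cancel₀ _ hM.ne'
    obtain ⟨G', g1, g2, g3, g4, g5⟩ := hst (fun x => (ε / M) • δ' x) (h1.const_smul _)
      (fun x y => by
        rw [← smul_sub, norm_smul, Real.norm_of_nonneg hc.le]
        exact (mul_le_mul_of_nonneg_left (m1 x y) hc.le).trans_eq (by rw [← mul_assoc, e]))
      fun x => by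
        rw [norm_smul, Real.norm_of_nonneg hc.le]
        exact (mul_le_mul_of_nonneg_left (m2 x) hc.le).trans_eq e
    replace g3 : ∀ x ∈ X, x ∉ K → G' x = G x := fun x hx k => g3 x hx (by rw [h3 x k, smul_zero])
    have new : ∀ p ∈ Dbl X G', p.1 ∉ K ∧ p ∈ Dbl X G := fun p k => by
      obtain ⟨l, l1, l2⟩ | k' := g5 k
      · have := congrArg (fun v => l (π v)) k.2.2.2
        simp only [g2 _ k.1, g2 _ k.2.1, map_add, map_smul, smul_eq_mul] at this
        nlinarith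
      · exact ⟨k'.1, k.1, k.2.1, k.2.2.1,
          (g3 _ k.1 k'.1).symm.trans (k.2.2.2.trans (g3 _ k.2.1 k'.2))⟩
    refine ⟨G', g1, ⟨fun x hx => g3 x hx.1 fun k => hx.2 (hK k).1.1, fun x hx => ?_⟩,
      fun p => ⟨fun k => ⟨(new p k).2, fun c => (new p k).1 (sK c)⟩, fun ⟨k, c⟩ => ?_⟩, ?_⟩
    · by_cases k : x ∈ K
      · exact .inl (g4 x ⟨hs hx, k⟩)
      · exact .inr ⟨x, hx, (g3 x (hs hx) k).symm⟩
    · have k' := out p.1 p.2 k c
      exact ⟨k.1, k.2.1, k.2.2.1, (g3 _ k.1 k'.1).trans (k.2.2.2.trans (g3 _ k.2.1 k'.2).symm)⟩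
    · rintro x ⟨y, k⟩
      filter_upwards [ho.mem_nhds (h.ds ⟨y, (new _ k).2⟩), oK.mem_nhds (new _ k).1] with z z1 z2
      exact g3 z (hs z1) z2
  · rintro ⟨x, y⟩ k
    by_cases hx : x ∈ C
    · obtain ⟨hy, l, ⟨l1, l2⟩, l3⟩ := hp x y k hx
      rw [← h2 hx, ← h2 hy] at l3
      have c1 := h1.continuous
      have l4 : ∀ᶠ q : Rn 2 × Rn 2 in 𝓝 (x, y), l (δ' q.2) < l (δ' q.1) :=
        ContinuousAt.eventually_lt (by fun_prop) (by fun_prop) l3
      filter_upwards [l4, l1.prod_nhds l2] with q q1 q2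
      exact .inl ⟨l, q2.2.trans q2.1, q1⟩
    · filter_upwards [prod_mem_nhds (oK.mem_nhds (out x y k hx).1)
        (oK.mem_nhds (out x y k hx).2)] with q hq
      exact .inr hq

end BEp
end
end

-- merged part: Pool.Agent.Work.MP_f0515e_an.D3.WGlue
section
/-! Swap lemma: regluing. `ρ = R.piecewise Θ id` is injective on `X` and maps `X` to `X`; `G₂` is `tp_glue` of `G ∘ Θ` on
`R` and `G` on `closure (X \ R)` (`poly_cl_diff`; the two sets meet in `frontier R`). So `G₂ = G ∘ ρ` on `X`. Local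
injectivity at `x ∈ frontier R`: if `z₁ ∉ R`, `z₂ ∈ R` are near `x` and `G z₁ = G (Θ z₂)`, then `z₁ ∈ DS X G`, so
`z₁ ∈ T ⊆ R`. Off the frontier `ρ` is a local homeomorphism (`map_nhds_inj`). About 130 lines. -/

open Set Metric Filter Topology Function BEv
open scoped NNReal

noncomputable section
namespace BEp

variable {N : ℕ} {π : Rn N →L[ℝ] Rn 3} {E U : Set (Rn N)} {X Xin : Set (Rn 2)}
  {G : Rn 2 → Rn N} {𝒞 : Set (Set (Rn 2))}

variable {T R : Set (Rn 2)} {Θ : Rn 2 → Rn 2}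

open Classical in
theorem wglue (hX : Poly X) (ho : IsOpen Xin) (hs : Xin ⊆ X) (h : WPre E X Xin U G)
    (hr : RgD X Xin G T R Θ) (hT : ∀ x ∈ T, ∀ᶠ z in 𝓝 x, z ∈ DS X G → z ∈ T) :
    ∃ G₂, WPre E X Xin U G₂ ∧ WRel X Xin U G G₂ ∧ (∀ x ∈ R, G₂ x = G (Θ x)) ∧
      (∀ x ∈ X \ interior R, G₂ x = G x) ∧ MapsTo (R.piecewise Θ id) X X ∧
      (∀ x ∈ X, ∀ y ∈ X, (x, y) ∈ Dbl X G₂ ↔
        (R.piecewise Θ id x, R.piecewise Θ id y) ∈ Dbl X G) ∧
      (∀ x ∈ X, R.piecewise Θ id x ∈ T ↔ x ∈ frontier R) ∧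
      (∀ x ∈ frontier R, ∀ᶠ z in 𝓝 x, z ∈ DS X G₂ → z ∈ frontier R) ∧
      ∀ x ∈ Xin, x ∉ frontier R → G₂ x = G (R.piecewise Θ id x) ∧
        map G₂ (𝓝 x) = map G (𝓝 (R.piecewise Θ id x)) := by
  have hc : IsClosed R := hr.poly.1.isClosed
  have fR : frontier R ⊆ R := hc.frontier_subset
  have fr : ∀ x ∈ R, x ∉ interior R → x ∈ frontier R := fun x a b => ⟨subset_closure a, b⟩
  have r1 : ∀ x ∈ R, R.piecewise Θ id x = Θ x := fun x k => piecewise_eq_of_mem _ _ _ k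
  have r2 : ∀ x, x ∉ R → R.piecewise Θ id x = x := fun x k => piecewise_eq_of_notMem _ _ _ k
  generalize R.piecewise Θ id = ρ at r1 r2 ⊢
  have mp : ∀ S, R ⊆ S → MapsTo ρ S S := fun S hS x hx => by
    by_cases k : x ∈ R
    · exact r1 x k ▸ hS (hr.maps k)
    · rwa [r2 x k]
  have mX := mp X (hr.sub.trans hs)
  have inj : Injective ρ := fun x y e => by
    by_cases a : x ∈ R <;> by_cases b : y ∈ R
    · exact hr.inj a b (by rwa [r1 x a, r1 y b] at e)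
    · exact (b (r2 y b ▸ e ▸ mp R subset_rfl a)).elim
    · exact (a (r2 x a ▸ e ▸ mp R subset_rfl b)).elim
    · rwa [r2 x a, r2 y b] at e
  obtain ⟨G₂, tp, e1, e2⟩ := tp_glue hr.poly (poly_cl_diff hX hr.poly) (h.imm.tp.comp hr.tp)
    h.imm.tp fun x hx => (hr.bd x (fr x hx.1 (by
      rw [← mem_compl_iff, ← closure_compl]
      exact closure_mono (fun _ k => k.2) hx.2))).2.2.2.symm
  replace e2 : ∀ x ∈ X, x ∉ R → G₂ x = G x := fun x a b => e2 (subset_closure ⟨a, b⟩)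
  have e : ∀ x ∈ X, G₂ x = G (ρ x) := fun x hx => by
    by_cases k : x ∈ R
    · rw [r1 x k, e1 k]
    · rw [r2 x k, e2 x hx k]
  have db : ∀ x ∈ X, ∀ y ∈ X, (x, y) ∈ Dbl X G₂ ↔ (ρ x, ρ y) ∈ Dbl X G := fun x hx y hy =>
    ⟨fun k => ⟨mX hx, mX hy, inj.ne k.2.2.1, (e x hx).symm.trans (k.2.2.2.trans (e y hy))⟩,
      fun k => ⟨hx, hy, fun l => k.2.2.1 (congrArg ρ l),
        (e x hx).trans (k.2.2.2.trans (e y hy).symm)⟩⟩
  have ds : ∀ x ∈ DS X G₂, x ∈ X ∧ ρ x ∈ DS X G := fun x ⟨y, k⟩ =>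
    ⟨k.1, _, (db x k.1 y k.2.1).1 k⟩
  have tf : ∀ x, ρ x ∈ T ↔ x ∈ frontier R := fun x => by
    refine ⟨fun k => ?_, fun k => r1 x (fR k) ▸ hr.cl _ (hr.bd x k) (hr.fr k)⟩
    by_cases a : x ∈ R
    · exact hr.int x a (r1 x a ▸ k)
    · exact (a (hr.tr (r2 x a ▸ k))).elim
  have nb : ∀ x ∈ frontier R, ∀ᶠ z in 𝓝 x, z ∈ DS X G₂ → z ∈ frontier R := fun x hx => by
    filter_upwards [hT x (hr.fr hx), hr.tp.continuous.continuousAt.eventually
      (hT _ (hr.cl _ (hr.bd x hx) (hr.fr hx)))] with z a b c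
    refine (tf z).1 ?_
    have d := (ds z c).2
    by_cases k : z ∈ R
    · rw [r1 z k] at d ⊢
      exact b d
    · rw [r2 z k] at d ⊢
      exact a d
  refine ⟨G₂, ⟨⟨tp, fun x hx => e x hx ▸ h.imm.mem (mX hx), fun x hx => ?_,
    fun x hx y hy z hz a b => ?_⟩, fun x hx => ?_, fun x hx => ?_⟩,
    ⟨fun x hx => e2 x hx.1 fun k => hx.2 (hr.sub k),
      fun x hx => .inr ⟨_, mp Xin hr.sub hx, (e x (hs hx)).symm⟩⟩, fun x hx => e1 hx,
    fun x hx => ?_, mX, db, fun x _ => tf x, nb, fun x hx k => ⟨e x (hs hx), ?_⟩⟩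
  · obtain ⟨ε, h0, hi⟩ := h.imm.loc _ (mX hx)
    have k : ∀ᶠ z in 𝓝 x, z ∈ DS X G₂ → ρ z ∈ ball (ρ x) ε := by
      by_cases a : x ∈ R
      · have b : ∀ᶠ z in 𝓝 x, z ∈ DS X G₂ → z ∈ R := by
          by_cases c : x ∈ interior R
          · exact (show ∀ᶠ z in 𝓝 x, z ∈ R from mem_interior_iff_mem_nhds.1 c).mono fun _ k _ => k
          · exact (nb x (fr x a c)).mono fun _ k l => fR (k l)
        filter_upwards [b, hr.tp.continuous.continuousAt.eventually (ball_mem_nhds (Θ x) h0)]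
          with z c d f
        rwa [r1 x a, r1 z (c f)]
      · filter_upwards [hc.isOpen_compl.mem_nhds a, ball_mem_nhds x h0] with z c d _
        rwa [r2 x a, r2 z c]
    obtain ⟨η, h1, k⟩ := Metric.eventually_nhds_iff_ball.1 k
    refine ⟨η, h1, fun y a z b c => by_contra fun n => n (inj (hi
      ⟨mX a.1, k y a.2 ⟨z, a.1, b.1, n, c⟩⟩ ⟨mX b.1, k z b.2 ⟨y, b.1, a.1, Ne.symm n, c.symm⟩⟩ ?_))⟩
    rw [← e y a.1, ← e z b.1, c]
  · rw [e x hx, e y hy] at a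
    rw [e x hx, e z hz] at b
    simpa only [inj.eq_iff] using h.imm.two _ (mX hx) _ (mX hy) _ (mX hz) a b
  · by_cases k : x ∈ R
    · exact hr.sub k
    · exact r2 x k ▸ h.ds (ds x hx).2
  · exact e x (ds x hx).1 ▸ h.u (ds x hx).2
  · by_cases k : x ∈ R
    · exact (e1 k).trans (hr.bd x (fr x k hx.2)).2.2.2.symm
    · exact e2 x hx.1 k
  · by_cases a : x ∈ R
    · have b : x ∈ interior R := by_contra fun b => k (fr x a b)
      rw [r1 x a, ← map_nhds_inj isOpen_interior hr.tp.continuous (hr.inj.mono interior_subset) b,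
        map_map]
      exact Filter.map_congr (e1.eventuallyEq_of_mem (mem_interior_iff_mem_nhds.1 b))
    · rw [r2 x a]
      refine Filter.map_congr ?_
      filter_upwards [hc.isOpen_compl.mem_nhds a, ho.mem_nhds hx] with z c d
      exact e2 z (hs d) c

end BEp
end
end

-- merged part: Pool.Agent.Work.MP_f0515e_an.D3.WCirc
section
/-! Swap lemma: the double curves after regluing. Put `ρ = R.piecewise Θ id`. `wcirc_pre`: the frontier of `Θ '' R` lies in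
`Θ '' frontier R ⊆ T` (`map_nhds_inj`), so the connected set `K` lies in `Θ '' R` (the preimage is the image of `K` under
a left inverse of `Θ`, `tp_linv`, `Crc.image`) or misses it; then it lies in `R` (empty preimage) or misses `R`.
`wcirc`: `𝒞₂` consists of the non-empty sets `X ∩ ρ ⁻¹' K ⊆ DS X G₂`, `K ∈ 𝒞 \ 𝒯`. If `(x, y)` is a pair of `G₂`,
`ρ x ∈ K`, `ρ y ∈ K'`, then `i '' K ⊆ K'` (`circ_one`, `Imm.partner`) and `K'` lies in the image of `ρ`. About 110 lines. -/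

open Set Metric Filter Topology Function BEv
open scoped NNReal

noncomputable section
namespace BEp

variable {N : ℕ} {π : Rn N →L[ℝ] Rn 3} {E U : Set (Rn N)} {X Xin : Set (Rn 2)}
  {G : Rn 2 → Rn N} {𝒞 : Set (Set (Rn 2))}

variable {T R : Set (Rn 2)} {Θ : Rn 2 → Rn 2}

theorem wcirc_alt {Y : Type} [TopologicalSpace Y] {K O C : Set Y} (hK : IsPreconnected K)
    (hO : IsOpen O) (hC : IsClosed C) (h : O ⊆ C) (h' : ∀ x ∈ K, x ∈ C → x ∈ O) :
    K ⊆ C ∨ K ⊆ Cᶜ :=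
  (hK.subset_or_subset hO hC.isOpen_compl (disjoint_compl_right.mono_left h) fun x hx =>
    (em (x ∈ C)).imp_left (h' x hx)).imp_left fun k => k.trans h

open Classical in
theorem wcirc_pre (hs : Xin ⊆ X) (hr : RgD X Xin G T R Θ) {K : Set (Rn 2)} (hK : Crc K)
    (hKX : K ⊆ X) (hd : Disjoint K T) (hne : (X ∩ R.piecewise Θ id ⁻¹' K).Nonempty) :
    Crc (X ∩ R.piecewise Θ id ⁻¹' K) ∧ ∀ y ∈ K, ∃ x ∈ X, R.piecewise Θ id x = y := by
  have hc := hr.poly.1.isClosed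
  have hRX : R ⊆ X := hr.sub.trans hs
  have hO : IsOpen (Θ '' interior R) := isOpen_iff_mem_nhds.2 (by
    rintro _ ⟨x, hx, rfl⟩
    rw [← map_nhds_inj isOpen_interior hr.tp.continuous (hr.inj.mono interior_subset) hx]
    exact image_mem_map (isOpen_interior.mem_nhds hx))
  have hi : ∀ x ∈ R, x ∉ frontier R → x ∈ interior R := fun x hx k => by
    by_contra n
    exact k ⟨subset_closure hx, n⟩
  rcases wcirc_alt hK.tcrc.conn.2 hO (hr.poly.1.image hr.tp.continuous).isClosed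
    (image_mono interior_subset) (by
      rintro _ hy ⟨x, hx, rfl⟩
      exact ⟨x, hi x hx fun k => disjoint_left.1 hd hy (hr.cl _ (hr.bd x k) (hr.fr k)), rfl⟩)
    with h | h
  · obtain ⟨k, hk, e⟩ := tp_linv hr.poly hr.tp hr.inj
    have e1 : X ∩ R.piecewise Θ id ⁻¹' K = k '' K := by
      ext x
      constructor
      · rintro ⟨-, h2⟩
        by_cases hx : x ∈ R
        · exact ⟨_, h2, by rw [piecewise_eq_of_mem _ _ _ hx, e x hx]⟩
        · rw [mem_preimage, piecewise_eq_of_notMem _ _ _ hx] at h2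
          obtain ⟨z, hz, rfl⟩ := h h2
          exact absurd (hr.maps hz) hx
      · rintro ⟨y, hy, rfl⟩
        obtain ⟨z, hz, rfl⟩ := h hy
        rw [e z hz]
        exact ⟨hRX hz, by rwa [mem_preimage, piecewise_eq_of_mem _ _ _ hz]⟩
    refine ⟨e1 ▸ hK.image hk fun y hy y' hy' e2 => ?_, fun y hy => ?_⟩
    · obtain ⟨z, hz, rfl⟩ := h hy
      obtain ⟨z', hz', rfl⟩ := h hy'
      rw [e z hz, e z' hz'] at e2
      rw [e2]
    · obtain ⟨z, hz, rfl⟩ := h hy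
      exact ⟨z, hRX hz, piecewise_eq_of_mem _ _ _ hz⟩
  · have h1 : ∀ x, R.piecewise Θ id x ∈ K → x ∉ R := fun x hx k => by
      rw [piecewise_eq_of_mem _ _ _ k] at hx
      exact h hx ⟨x, k, rfl⟩
    have h2 : K ⊆ Rᶜ := by
      refine (wcirc_alt hK.tcrc.conn.2 isOpen_interior hc interior_subset fun x hx k =>
        hi x k fun n => disjoint_left.1 hd hx (hr.fr n)).resolve_left fun k => ?_
      obtain ⟨x, -, hx⟩ := hne
      have := h1 x hx
      rw [mem_preimage, piecewise_eq_of_notMem _ _ _ this] at hx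
      exact this (k hx)
    have e1 : X ∩ R.piecewise Θ id ⁻¹' K = K := by
      ext x
      refine ⟨fun k => ?_, fun k => ⟨hKX k, ?_⟩⟩
      · have := k.2
        rwa [mem_preimage, piecewise_eq_of_notMem _ _ _ (h1 x k.2)] at this
      · rwa [mem_preimage, piecewise_eq_of_notMem _ _ _ (h2 k)]
    exact ⟨e1.symm ▸ hK, fun y hy => ⟨y, hKX hy, piecewise_eq_of_notMem _ _ _ (h2 hy)⟩⟩

open Classical in
theorem wcirc (hX : Poly X) (hs : Xin ⊆ X) (h : WGood π E X Xin U G 𝒞) {𝒯 : Set (Set (Rn 2))}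
    (h𝒯 : 𝒯 ⊆ 𝒞) (hne : 𝒯.Nonempty) (hr : RgD X Xin G (⋃₀ 𝒯) R Θ) {G₂ : Rn 2 → Rn N}
    (h1 : ∀ x ∈ X, ∀ y ∈ X, (x, y) ∈ Dbl X G₂ ↔
      (R.piecewise Θ id x, R.piecewise Θ id y) ∈ Dbl X G)
    (h2 : ∀ x ∈ X, R.piecewise Θ id x ∈ ⋃₀ 𝒯 ↔ x ∈ frontier R) :
    ∃ 𝒞₂ : Set (Set (Rn 2)), 𝒞₂.Finite ∧ 𝒞₂.ncard < 𝒞.ncard ∧ ⋃₀ 𝒞₂ = DS X G₂ \ frontier R ∧
      𝒞₂.PairwiseDisjoint id ∧ ∀ C ∈ 𝒞₂, Crc C := by
  have hD : ∀ K ∈ 𝒞, K ⊆ DS X G := fun K hK => h.cov ▸ subset_sUnion_of_mem hK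
  have pre : ∀ K ∈ 𝒞 \ 𝒯, Disjoint K (⋃₀ 𝒯) := fun K hK => disjoint_sUnion_right.2 fun K' hK' =>
    h.dis hK.1 (h𝒯 hK') fun e => hK.2 (e ▸ hK')
  have pre' := fun K (hK : K ∈ 𝒞 \ 𝒯) => wcirc_pre hs hr (h.crc K hK.1)
    (fun x hx => (hD K hK.1 hx).elim fun _ k => k.1) (pre K hK)
  have hf : (𝒞 \ 𝒯).Finite := h.fin.subset sdiff_subset
  have hsub : {C ∈ (fun K => X ∩ R.piecewise Θ id ⁻¹' K) '' (𝒞 \ 𝒯) | C.Nonempty ∧ C ⊆ DS X G₂} ⊆
      (fun K => X ∩ R.piecewise Θ id ⁻¹' K) '' (𝒞 \ 𝒯) := sep_subset _ _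
  refine ⟨_, (hf.image _).subset hsub, ?_, subset_antisymm ?_ ?_, ?_, ?_⟩
  · refine ((ncard_le_ncard hsub (hf.image _)).trans (ncard_image_le hf)).trans_lt
      (ncard_lt_ncard ⟨sdiff_subset, fun k => ?_⟩ h.fin)
    obtain ⟨K, hK⟩ := hne
    exact (k (h𝒯 hK)).2 hK
  · rintro x ⟨_, ⟨⟨K, hK, rfl⟩, -, k⟩, hx⟩
    exact ⟨k hx, fun n => disjoint_left.1 (pre K hK) hx.2 ((h2 x hx.1).2 n)⟩
  · rintro x ⟨⟨y, hxy⟩, hx⟩
    obtain ⟨-, i, hi, i1, i2⟩ := h.pre.imm.partner hX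
    have d := (h1 x hxy.1 y hxy.2.1).1 hxy
    have n1 : R.piecewise Θ id x ∉ ⋃₀ 𝒯 := fun k => hx ((h2 x hxy.1).1 k)
    have n2 : R.piecewise Θ id y ∉ ⋃₀ 𝒯 := fun k => n1 (hr.cl _ (dbl_swap d) k)
    obtain ⟨K, hK, m⟩ := h.cov.superset ⟨_, d⟩
    obtain ⟨K', hK', m'⟩ := h.cov.superset ⟨_, dbl_swap d⟩
    have im : i '' K ⊆ K' := circ_one h.fin (fun C hC => (h.crc C hC).tcrc.compact.isClosed) h.dis
      ((h.crc K hK).tcrc.conn.2.image _ hi.continuous.continuousOn)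
      (by rintro _ ⟨z, hz, rfl⟩; exact h.cov.superset (i2 z (hD K hK hz)).2.1) hK'
      ⟨_, ⟨_, m, (i1 _ _ d).symm⟩, m'⟩
    refine ⟨_, ⟨⟨K, ⟨hK, fun k => n1 ⟨K, k, m⟩⟩, rfl⟩, ⟨x, hxy.1, m⟩, fun z hz => ?_⟩, hxy.1, m⟩
    obtain ⟨w, hw, e⟩ := (pre' K' ⟨hK', fun k => n2 ⟨K', k, m'⟩⟩ ⟨y, hxy.2.1, m'⟩).2 _
      (im ⟨_, hz.2, rfl⟩)
    exact ⟨w, (h1 z hz.1 w hw).2 (e ▸ (i2 _ (hD K hK hz.2)).1)⟩
  · rintro _ ⟨⟨K, hK, rfl⟩, -⟩ _ ⟨⟨K', hK', rfl⟩, -⟩ n
    exact ((h.dis hK.1 hK'.1 fun e => n (by rw [e])).preimage _).mono inter_subset_right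
      inter_subset_right
  · rintro _ ⟨⟨K, hK, rfl⟩, k, -⟩
    exact (pre' K hK k).1

end BEp
end
end

-- merged part: Pool.Agent.Work.MP_f0515e_an.D3.WSign
section
/-! Swap lemma: after regluing along a two sided curve the sheets touch.
`wsign_loc`: let `h = l ∘ π ∘ G`. Near `x`, `h z = h x` iff `z ∈ DS X G` (`hit` for a neighbourhood of `y` in `X` missing
one of `x`; `fl` and the continuity of the partner map) iff `z ∈ T`. So `h - h x` has a constant sign on each of the two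
connected sides given by `Tch.loc`, and the signs differ by `up`, `dn`; replace `l` by `-l` if necessary.
`wsign`: Lebesgue number `η` of the cover of the compact set of pairs with first point in `T` by the sets `O ×ˢ O'`
(resp. `O' ×ˢ O`), `Ψ` from `Tch.out`, `δ z = π (G (Ψ z)) - π (G z)`. On `T` the map `Θ` is the partner map, it sends
points of `R` near `x` to points of `R` near `y` and conversely. In the second case use `-l`. About 150 lines. -/

open Set Metric Filter Topology Function BEv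
open scoped NNReal

noncomputable section
namespace BEp

variable {N : ℕ} {π : Rn N →L[ℝ] Rn 3} {E U : Set (Rn N)} {X Xin : Set (Rn 2)}
  {G : Rn 2 → Rn N} {𝒞 : Set (Set (Rn 2))}

variable {T R : Set (Rn 2)} {Θ : Rn 2 → Rn 2}

theorem wsign_loc (hX : Poly X) (ho : IsOpen Xin) (hs : Xin ⊆ X) (h : WPre E X Xin U G)
    (hR : IsClosed R) (hTR : T ⊆ R) (ht : Tch T R) (hTD : T ⊆ DS X G)
    (hT : ∀ x ∈ T, ∀ᶠ z in 𝓝 x, z ∈ DS X G → z ∈ T) {x y : Rn 2} (hp : (x, y) ∈ Dbl X G)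
    (hx : x ∈ T) (hc : Crx π G x y) : ∃ (l : Rn 3 →L[ℝ] ℝ) (O O' : Set (Rn 2)), IsOpen O ∧
      IsOpen O' ∧ x ∈ O ∧ y ∈ O' ∧ (∀ z ∈ O', l (π (G z)) = l (π (G x))) ∧
      (∀ z ∈ O \ R, l (π (G x)) < l (π (G z))) ∧ ∀ z ∈ O ∩ R, l (π (G z)) ≤ l (π (G x)) := by
  obtain ⟨l, fl, hit, up, dn⟩ := hc
  obtain ⟨-, i, ci, i1, i2⟩ := h.imm.partner hX
  have cf : Continuous fun z => l (π (G z)) :=
    l.continuous.comp (π.continuous.comp h.imm.tp.continuous)
  have a : ∀ᶠ z in 𝓝 x, l (π (G z)) = l (π (G x)) → z ∈ T := by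
    obtain ⟨V, V', v1, v2, v3⟩ := t2_separation_nhds hp.2.2.1
    filter_upwards [eventually_map.1 (hit _ (image_mem_map (inter_mem v2
      (ho.mem_nhds (h.ds ⟨x, dbl_swap hp⟩))))), v1, ho.mem_nhds (h.ds ⟨y, hp⟩), hT x hx]
      with z k1 k2 k3 k4 e
    obtain ⟨w, ⟨w1, w2⟩, w3⟩ := k1 e
    exact k4 ⟨w, hs k3, hs w2, fun k => disjoint_left.1 v3 k2 ((show z = w from k) ▸ w1), w3.symm⟩
  have b : ∀ᶠ z in 𝓝 x, z ∈ T → l (π (G z)) = l (π (G x)) := by
    have k := eventually_map.1 fl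
    rw [i1 x y hp] at k
    filter_upwards [ci.continuous.continuousAt.eventually k] with z k hz
    rwa [← (i2 z (hTD hz)).1.2.2.2] at k
  obtain ⟨O', o1, o2, o3⟩ := _root_.eventually_nhds_iff.1 (eventually_map.1 fl)
  obtain ⟨O, p1, p2, p3, p4, p5⟩ := ht.loc x hx _ (a.and b)
  have q1 := p4.mapsTo_Ioi_or_Iio cf.continuousOn fun z hz e => hz.2.2 ((p3 hz.1).1 e)
  have q2 := p5.mapsTo_Ioi_or_Iio cf.continuousOn fun z hz e => hz.2 (hTR ((p3 hz.1).1 e))
  have sp : ∀ z ∈ O, l (π (G z)) ≠ l (π (G x)) → z ∈ O ∩ (R \ T) ∨ z ∈ O \ R := fun z hz n =>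
    (em (z ∈ R)).imp (fun k => ⟨hz, k, fun k' => n ((p3 hz).2 k')⟩) fun k => ⟨hz, k⟩
  obtain ⟨u, u1, u2⟩ := ((frequently_map.1 up).and_eventually (p1.mem_nhds p2)).exists
  obtain ⟨d, d1, d2⟩ := ((frequently_map.1 dn).and_eventually (p1.mem_nhds p2)).exists
  rcases q2 with q2 | q2 <;> rcases q1 with q1 | q1
  · exact ((sp d d2 d1.ne).elim (fun k => d1.not_gt (q1 k)) fun k => d1.not_gt (q2 k)).elim
  · refine ⟨l, O, O', p1, o2, p2, o3, o1, q2, fun z hz => le_of_not_gt fun k => ?_⟩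
    exact (sp z hz.1 k.ne').elim (fun k' => k.not_gt (q1 k')) fun k' => k'.2 hz.2
  · refine ⟨-l, O, O', p1, o2, p2, o3, fun z hz => congrArg Neg.neg (o1 z hz),
      fun z hz => neg_lt_neg (q2 hz), fun z hz => neg_le_neg (le_of_not_gt fun k => ?_)⟩
    exact (sp z hz.1 k.ne).elim (fun k' => k.not_gt (q1 k')) fun k' => k'.2 hz.2
  · exact ((sp u u2 u1.ne').elim (fun k => u1.not_gt (q1 k)) fun k => u1.not_gt (q2 k)).elim

/-- Signs of `l ∘ π ∘ G` near a double point. -/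
def WSign_Q (π : Rn N →L[ℝ] Rn 3) (G : Rn 2 → Rn N) (R O O' : Set (Rn 2)) : Prop :=
  ∃ (l : Rn 3 →L[ℝ] ℝ) (c : ℝ), (∀ z ∈ O', l (π (G z)) = c) ∧ (∀ z ∈ O \ R, c < l (π (G z))) ∧
    ∀ z ∈ O ∩ R, l (π (G z)) ≤ c

theorem wsign (hX : Poly X) (ho : IsOpen Xin) (hs : Xin ⊆ X) (h : WPre E X Xin U G)
    (hc : ∀ p ∈ Dbl X G, Crx π G p.1 p.2 ∨ Crx π G p.2 p.1) (hr : RgD X Xin G T R Θ)
    (ht : Tch T R) (hT : ∀ x ∈ T, ∀ᶠ z in 𝓝 x, z ∈ DS X G → z ∈ T) {G₂ : Rn 2 → Rn N}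
    (h1 : ∀ x ∈ R, G₂ x = G (Θ x)) (h2 : ∀ x ∈ X \ interior R, G₂ x = G x) :
    ∃ δ : Rn 2 → Rn 3, TP δ ∧ ∀ x y, (x, y) ∈ Dbl X G₂ → x ∈ frontier R → y ∈ frontier R →
      ∃ l, WSep π G₂ x y l ∧ l (δ y) < l (δ x) := by
  have hR := hr.poly.1.isClosed
  have hTD : T ⊆ DS X G := fun x hx => ⟨_, hr.bd x (ht.fr hx)⟩
  obtain ⟨η, η0, hη⟩ := lebesgue_number_lemma_of_metric_sUnion
    (c := {t | ∃ O O', IsOpen O ∧ IsOpen O' ∧ (WSign_Q π G R O O' ∨ WSign_Q π G R O' O) ∧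
      t = O ×ˢ O'}) ((h.imm.cpt hX.1).inter_right (t := Prod.fst ⁻¹' frontier R)
      (isClosed_frontier.preimage continuous_fst))
    (by rintro _ ⟨O, O', a, b, -, rfl⟩; exact a.prod b) (by
      rintro ⟨x, y⟩ ⟨hp, hx⟩
      have hx' : x ∈ T := hr.fr hx
      rcases hc _ hp with k | k
      · obtain ⟨l, O, O', a, b, c, d, e⟩ := wsign_loc hX ho hs h hR hr.tr ht hTD hT hp hx' k
        exact ⟨_, ⟨O, O', a, b, Or.inl ⟨l, _, e⟩, rfl⟩, c, d⟩
      · obtain ⟨l, O, O', a, b, c, d, e⟩ :=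
          wsign_loc hX ho hs h hR hr.tr ht hTD hT (dbl_swap hp) (hr.cl _ hp hx') k
        exact ⟨_, ⟨O', O, b, a, Or.inr ⟨l, _, e⟩, rfl⟩, d, c⟩)
  obtain ⟨Ψ, hΨ, hΨ'⟩ := ht.out η η0
  have par : ∀ x y, (x, y) ∈ Dbl X G → x ∈ frontier R → Θ x = y := fun x y hp hx => by
    have k := hr.bd x hx
    rcases h.imm.two x hp.1 _ k.2.1 y hp.2.1 k.2.2.2 hp.2.2.2 with e | e | e
    exacts [absurd e k.2.2.1, absurd e hp.2.2.1, e]
  have ev : ∀ x y, (x, y) ∈ Dbl X G → x ∈ frontier R → ∀ᶠ z in 𝓝 x,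
      (z ∈ R ∧ Θ z ∈ ball y η ∧ G₂ z = G (Θ z)) ∨ (z ∉ R ∧ z ∈ ball x η ∧ G₂ z = G z) :=
    fun x y hp hx => by
    filter_upwards [ho.mem_nhds (h.ds ⟨y, hp⟩), ball_mem_nhds x η0,
      hr.tp.continuous.continuousAt.eventually (par x y hp hx ▸ ball_mem_nhds (Θ x) η0 :
        ball y η ∈ 𝓝 (Θ x))] with z a b c
    exact (em (z ∈ R)).imp (fun k => ⟨k, c, h1 z k⟩)
      fun k => ⟨k, b, h2 z ⟨hs a, fun k' => k (interior_subset k')⟩⟩
  have key : ∀ x y O O', (x, y) ∈ Dbl X G → x ∈ frontier R → y ∈ frontier R → ball x η ⊆ O →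
      ball y η ⊆ O' → WSign_Q π G R O O' → ∃ l, WSep π G₂ x y l ∧
        l (π (G (Ψ y)) - π (G y)) < l (π (G (Ψ x)) - π (G x)) := by
    rintro x y O O' hp hx hy a b ⟨l, c, q1, q2, q3⟩
    have e1 : l (π (G y)) = c := q1 y (b (mem_ball_self η0))
    have e2 : l (π (G x)) = c := (hp.2.2.2 : G x = G y) ▸ e1
    have e3 : l (π (G₂ x)) = c := by rw [h2 x ⟨hp.1, hx.2⟩, e2]
    refine ⟨l, ⟨?_, ?_⟩, ?_⟩
    · filter_upwards [ev x y hp hx] with z k
      rcases k with ⟨-, k1, k2⟩ | ⟨k0, k1, k2⟩ <;> rw [e3, k2]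
      exacts [(q1 _ (b k1)).ge, (q2 z ⟨a k1, k0⟩).le]
    · filter_upwards [ev y x (dbl_swap hp) hy] with z k
      rcases k with ⟨k0, k1, k2⟩ | ⟨-, k1, k2⟩ <;> rw [e3, k2]
      exacts [q3 _ ⟨a k1, hr.maps k0⟩, (q1 z (b k1)).le]
    · rw [map_sub, map_sub, e1, e2, q1 _ (b (mem_ball_iff_norm.2 (hΨ' y (hr.fr hy)).1))]
      exact sub_lt_sub_right
        (q2 _ ⟨a (mem_ball_iff_norm.2 (hΨ' x (hr.fr hx)).1), (hΨ' x (hr.fr hx)).2⟩) c
  refine ⟨fun z => π (G (Ψ z)) - π (G z), ((TP.clm π).comp (h.imm.tp.comp hΨ)).sub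
    ((TP.clm π).comp h.imm.tp), fun x y hp hx hy => ?_⟩
  have hp' : (x, y) ∈ Dbl X G := ⟨hp.1, hp.2.1, hp.2.2.1,
    (h2 x ⟨hp.1, hx.2⟩).symm.trans (hp.2.2.2.trans (h2 y ⟨hp.2.1, hy.2⟩))⟩
  obtain ⟨_, ⟨O, O', -, -, q, rfl⟩, k⟩ := hη (x, y) ⟨hp', hx⟩
  rw [← ball_prod_same] at k
  have a : ball x η ⊆ O := fun z hz => (k (⟨hz, mem_ball_self η0⟩ : (z, y) ∈ _ ×ˢ _)).1
  have b : ball y η ⊆ O' := fun z hz => (k (⟨mem_ball_self η0, hz⟩ : (x, z) ∈ _ ×ˢ _)).2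
  rcases q with q | q
  · exact key x y O O' hp' hx hy a b q
  · obtain ⟨l, ⟨k1, k2⟩, k3⟩ := key y x O' O (dbl_swap hp') hy hx b a q
    rw [← (hp.2.2.2 : G₂ x = G₂ y)] at k1 k2
    exact ⟨-l, ⟨k2.mono fun z => neg_le_neg, k1.mono fun z => neg_le_neg⟩, neg_lt_neg k3⟩

end BEp
end
end
end

-- merged part: Pool.Agent.Work.MP_f0515e_an.D3.DeTP
section
-- merged part: Pool.Agent.Work.MP_f0515e_an.D3.DeZ
section
/-! TASK DeZ. The lattice. `car1_spec`: with `k = round (t / 2)` one has `|t - 2 k| ≤ 1`; otherwise `t` is within `1 / 8` of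
the odd integer `2 ⌊t / 2⌋ + 1`. Everything else is coordinatewise from `car1_spec`, `car1_even`, `car1_odd`
(two integers at distance less than one are equal; parity by `omega`). `car_near`: `stz (car y)` is open and
contains `y`. About 200 lines. -/

open Set Metric Filter Topology Function BEv
open scoped NNReal

noncomputable section
namespace BEp

variable {a b c m p v lo hi : Z3} {y : Rn 3}

theorem LeZ.refl (p : Z3) : LeZ p p := by
  exact fun _ => .inl rfl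

theorem LeZ.trans (h : LeZ a b) (k : LeZ b c) : LeZ a c := by
  intro i
  have h := h i
  have k := k i
  simp only [Int.odd_iff] at h k ⊢
  omega

theorem LeZ.antisymm (h : LeZ a b) (k : LeZ b a) : a = b := by
  funext i
  have h := h i
  have k := k i
  simp only [Int.odd_iff] at h k
  omega

theorem LeZ.box (he : ∀ i, Even (lo i) ∧ Even (hi i)) (hp : p ∈ Icc lo hi) (h : LeZ m p) :
    m ∈ Icc lo hi := by
  have k : ∀ i, lo i ≤ m i ∧ m i ≤ hi i := fun i => by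
    have h := h i
    have he := he i
    have h1 : lo i ≤ p i := hp.1 i
    have h2 : p i ≤ hi i := hp.2 i
    simp only [Int.odd_iff, Int.even_iff] at h he
    omega
  exact ⟨fun i => (k i).1, fun i => (k i).2⟩

theorem LeZ.even (h : LeZ m p) {i : Fin 3} (he : Even (p i)) : m i = p i := by
  exact (h i).resolve_right fun k => Int.not_even_iff_odd.2 k.1 he

theorem DeZ_lt {a b : ℤ} (c : ℤ) (h : (a : ℝ) - b < c) : a - b < c := by
  exact_mod_cast h

theorem DeZ_near {a b : ℤ} {t r s : ℝ} (c : ℤ) (h : |t - a| ≤ r) (k : |t - b| ≤ s)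
    (hc : r + s < c) : a - b < c ∧ b - a < c := by
  rw [abs_le] at h k
  exact ⟨DeZ_lt c (by linarith [h.1, k.2]), DeZ_lt c (by linarith [h.2, k.1])⟩

theorem DeZ_near' {a b : ℤ} {t r s : ℝ} (c : ℤ) (h : |t - a| < r) (k : |t - b| ≤ s)
    (hc : r + s ≤ c) : a - b < c ∧ b - a < c := by
  rw [abs_le] at k
  rw [abs_lt] at h
  exact ⟨DeZ_lt c (by linarith [h.1, k.2]), DeZ_lt c (by linarith [h.2, k.1])⟩

theorem car1_spec (t : ℝ) :
    (Even (car1 t) ∧ |t - car1 t| < 7 / 8) ∨ (Odd (car1 t) ∧ |t - car1 t| ≤ 1 / 8) := by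
  unfold car1
  split_ifs with h
  · exact .inl ⟨even_two_mul _, by exact_mod_cast h⟩
  refine .inr ⟨odd_two_mul_add_one _, ?_⟩
  have h1 := abs_le.1 (abs_sub_round (t / 2))
  have h2 := Int.floor_le (t / 2)
  have h3 := Int.lt_floor_add_one (t / 2)
  have h4 := DeZ_lt (a := round (t / 2)) (b := ⌊t / 2⌋) 2 (by push_cast; linarith only [h1, h3, h1.1])
  have h5 := DeZ_lt (b := round (t / 2)) (a := ⌊t / 2⌋) 1 (by push_cast; linarith only [h1, h2, h1.2])
  rw [abs_lt, not_and_or, not_lt, not_lt] at h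
  push_cast
  rw [abs_le]
  obtain e | e : round (t / 2) = ⌊t / 2⌋ ∨ round (t / 2) = ⌊t / 2⌋ + 1 := by omega
  all_goals
    rw [e] at h h1
    push_cast at h h1
    rcases h with h | h <;> constructor <;> linarith only [h2, h, h1, h3, h1.1, h1.2]

theorem car1_even {t : ℝ} {k : ℤ} (hk : Even k) (h : |t - k| < 7 / 8) : car1 t = k := by
  rcases car1_spec t with ⟨e, h'⟩ | ⟨e, h'⟩
  · have := DeZ_near' 2 h h'.le (by norm_num)
    rw [Int.even_iff] at e hk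
    omega
  · have := DeZ_near' 1 h h' (by norm_num)
    omega

theorem car1_odd {t : ℝ} {k : ℤ} (hk : Odd k) (h : |t - k| ≤ 1 / 8) : car1 t = k := by
  rcases car1_spec t with ⟨e, h'⟩ | ⟨e, h'⟩
  · have := DeZ_near' 1 h' h (by norm_num)
    omega
  · have := DeZ_near 1 h h' (by norm_num)
    omega

theorem car_zr (p : Z3) : car (zr p) = p := by
  funext i
  rcases Int.even_or_odd (p i) with h | h
  · exact car1_even h (by simp [zr])
  · exact car1_odd h (by simp [zr])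

theorem mem_stz : y ∈ stz p ↔ LeZ (car y) p := by
  refine forall_congr' fun i => ⟨fun h => ?_, fun h => ?_⟩
  · split_ifs at h with e
    · exact .inl (car1_even e h)
    · rw [Int.odd_iff]
      rw [Int.even_iff] at e
      rcases car1_spec (y i) with ⟨e', h'⟩ | ⟨e', h'⟩
      · have := DeZ_near' 3 h h'.le (by norm_num)
        rw [Int.even_iff] at e'
        unfold car
        omega
      · have := DeZ_near' 2 h h' (by norm_num)
        rw [Int.odd_iff] at e'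
        unfold car
        omega
  · have s := car1_spec (y i)
    rcases h with h | ⟨o, h⟩
    · rw [show car1 (y i) = p i from h] at s
      rcases s with ⟨e, s⟩ | ⟨e, s⟩
      · rwa [if_pos e]
      · rw [if_neg (Int.not_even_iff_odd.2 e)]
        linarith only [s]
    · rw [if_neg (Int.not_even_iff_odd.2 o)]
      have s' : |y i - car1 (y i)| < 7 / 8 := s.elim And.right fun k => by linarith only [k, k.2]
      rcases h with h | h <;> rw [show car1 (y i) = _ from h, abs_lt] at s' <;> push_cast at s' <;>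
        rw [abs_lt] <;> constructor <;> linarith only [s', s'.1, s'.2]

theorem self_mem_stz (y : Rn 3) : y ∈ stz (car y) := by
  exact mem_stz.2 (.refl _)

theorem isOpen_stz (p : Z3) : IsOpen (stz p) := by
  rw [stz, ofPred_forall]
  exact isOpen_iInter_of_finite fun i => isOpen_lt (by fun_prop) continuous_const

theorem stz_mono (h : LeZ m p) : stz m ⊆ stz p := by
  exact fun _ k => mem_stz.2 ((mem_stz.1 k).trans h)

theorem vox_sub_stz (p : Z3) : closedBall (zr p) (1 / 2) ⊆ stz p := by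
  intro y h i
  have k : |y i - p i| ≤ 1 / 2 := (dist_le_pi_dist y (zr p) i).trans h
  split_ifs <;> linarith only [k]

theorem car_near (y : Rn 3) : ∀ᶠ y' in 𝓝 y, LeZ (car y') (car y) := by
  exact mem_of_superset ((isOpen_stz _).mem_nhds (self_mem_stz y)) fun _ => mem_stz.1

theorem le_car : LeZ p (car y) ↔ ∀ i, |y i - p i| ≤ if Even (p i) then 9 / 8 else 1 / 8 := by
  refine forall_congr' fun i => ⟨fun h => ?_, fun h => ?_⟩
  · have s := car1_spec (y i)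
    rcases h with h | ⟨o, h⟩
    · rw [← show p i = car1 (y i) from h] at s
      rcases s with ⟨e, s⟩ | ⟨e, s⟩
      · rw [if_pos e]
        linarith only [s]
      · rwa [if_neg (Int.not_even_iff_odd.2 e)]
    · have s' := (s.resolve_left fun k => Int.not_even_iff_odd.2 o k.1).2
      rw [if_pos (by rw [Int.odd_iff] at o; rw [Int.even_iff]; omega)]
      rw [abs_le] at s' ⊢
      unfold car at h
      rcases h with h | h <;> rw [h] <;> push_cast <;> constructor <;> linarith only [s', s'.1, s'.2]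
  · split_ifs at h with e
    · rw [Int.odd_iff]
      rw [Int.even_iff] at e
      rcases car1_spec (y i) with ⟨e', h'⟩ | ⟨e', h'⟩
      · have := DeZ_near' 2 h' h (by norm_num)
        rw [Int.even_iff] at e'
        unfold car
        omega
      · have := DeZ_near 2 h h' (by norm_num)
        rw [Int.odd_iff] at e'
        unfold car
        omega
    · exact .inl (car1_odd (Int.not_even_iff_odd.1 e) h).symm

theorem DeZ_pi (p : Z3) : {y : Rn 3 | LeZ p (car y)} =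
    univ.pi fun i => closedBall (p i : ℝ) (if Even (p i) then 9 / 8 else 1 / 8) :=
  Set.ext fun _ => le_car.trans mem_univ_pi.symm

theorem convex_le_car (p : Z3) : Convex ℝ {y : Rn 3 | LeZ p (car y)} := by
  exact DeZ_pi p ▸ convex_pi fun i _ => convex_closedBall _ _

theorem isClosed_le_car (p : Z3) : IsClosed {y : Rn 3 | LeZ p (car y)} := by
  exact DeZ_pi p ▸ isClosed_set_pi fun i _ => isClosed_closedBall

theorem norm_car (y : Rn 3) : ‖zr (car y) - y‖ ≤ 7 / 8 := by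
  refine (pi_norm_le_iff_of_nonneg (by norm_num)).2 fun i => ?_
  show |(car1 (y i) : ℝ) - y i| ≤ _
  rw [abs_sub_comm]
  exact (car1_spec (y i)).elim (fun k => k.2.le) fun k => by linarith only [k, k.2]

theorem norm_le_car (h : LeZ p (car y)) : ‖zr p - y‖ ≤ 9 / 8 := by
  refine (pi_norm_le_iff_of_nonneg (by norm_num)).2 fun i => ?_
  show |(p i : ℝ) - y i| ≤ _
  rw [abs_sub_comm]
  refine (le_car.1 h i).trans ?_
  split_ifs <;> norm_num

theorem exists_vtx (y : Rn 3) : ∃ v : Z3, (∀ i, Even (v i)) ∧ ‖y - zr v‖ ≤ 1 := by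
  refine ⟨fun i => 2 * round (y i / 2), fun i => even_two_mul _,
    (pi_norm_le_iff_of_nonneg zero_le_one).2 fun i => ?_⟩
  have h := abs_le.1 (abs_sub_round (y i / 2))
  show |y i - ((2 * round (y i / 2) : ℤ) : ℝ)| ≤ 1
  push_cast
  rw [abs_le]
  constructor <;> linarith only [h, h.1, h.2]

theorem vtx_le_car (hv : ∀ i, Even (v i)) (h : ‖y - zr v‖ ≤ 9 / 8) : LeZ v (car y) := by
  refine le_car.2 fun i => ?_
  rw [if_pos (hv i)]
  exact (norm_le_pi_norm (y - zr v) i).trans h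

theorem hat_pos {z : Rn 3} : 0 < hat z ↔ ‖z‖ < 9 / 8 := by
  rw [hat, lt_max_iff, sub_pos, or_iff_left (lt_irrefl _)]

theorem exists_vox (y : Rn 3) : ∃ p : Z3, y ∈ closedBall (zr p) (1 / 2) := by
  exact ⟨fun i => round (y i), (dist_pi_le_iff (by norm_num)).2 fun i => abs_sub_round (y i)⟩

theorem car_box (he : ∀ i, Even (lo i) ∧ Even (hi i)) (h : y ∈ Icc (zr lo) (zr hi)) :
    car y ∈ Icc lo hi := by
  have k : ∀ i, lo i ≤ car y i ∧ car y i ≤ hi i := fun i => by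
    have s := abs_le.1 ((norm_le_pi_norm _ i).trans (norm_car y))
    have h1 : (lo i : ℝ) ≤ y i := h.1 i
    have h2 : y i ≤ hi i := h.2 i
    simp only [Pi.sub_apply, zr] at s
    have := DeZ_lt (a := lo i) (b := car y i) 1 (by push_cast; linarith only [s, h1, s.1])
    have := DeZ_lt (b := hi i) (a := car y i) 1 (by push_cast; linarith only [s, h2, s.2])
    omega
  exact ⟨fun i => (k i).1, fun i => (k i).2⟩

theorem zr_mem_Icc : zr p ∈ Icc (zr lo) (zr hi) ↔ p ∈ Icc lo hi := by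
  simp only [mem_Icc, Pi.le_def, zr, Int.cast_le]

theorem finite_near (R : ℝ) : {p : Z3 | ‖zr p‖ ≤ R}.Finite := by
  refine (finite_Icc (fun _ => -⌈R⌉ : Z3) fun _ => ⌈R⌉).subset fun p hp => zr_mem_Icc.1 ?_
  have k := fun i => abs_le.1 (((norm_le_pi_norm _ i).trans hp).trans (Int.le_ceil R))
  exact ⟨fun i => (Int.cast_neg _).trans_le (k i).1, fun i => (k i).2⟩

theorem isClosed_vox {W : Set Z3} (hW : W.Finite) : IsClosed (Vox W) := by
  exact hW.isClosed_biUnion fun _ _ => isClosed_closedBall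

end BEp
end
end

-- merged part: Pool.Agent.Work.MP_f0515e_an.D3.DeCx1
section
/-! TASK DeCx1. Faces in a cube complex. `le_pos`: induction on the chain (`ev`, `od`). `pos_fa`: each `st` changes one
coordinate of the position. `eq_fa`: first show that `fa (fc σ i b) m = fa σ m` when `LeZ m (pos (fc σ i b))`
(if `pos σ i` is even `fc σ i b = σ`; if it is odd, move the step `i` to the front with `comm`; three cases of
`i`), and `fa σ (pos σ) = σ`; then induct on the chain from its head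
(`Relation.ReflTransGen.head_induction_on`). `inj_le`: by `eq_fa` both `τ = fa σ m = fa σ' m`; undo the three
steps `st` from the last one with `inj` (positions agree at each stage). About 200 lines. -/

open Set Metric Filter Topology Function BEv
open scoped NNReal

noncomputable section
namespace BEp

namespace Cub
variable {κ : Type} {K : Cub κ} {S T : Set κ} {σ σ' τ τ' ν : κ} {m : Z3}

theorem Le.refl (K : Cub κ) (σ : κ) : K.Le σ σ := Relation.ReflTransGen.refl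

theorem Le.trans (h : K.Le ν τ) (k : K.Le τ σ) : K.Le ν σ := Relation.ReflTransGen.trans k h

theorem le_fc (K : Cub κ) (σ : κ) (i : Fin 3) (b : Bool) : K.Le (K.fc σ i b) σ :=
  Relation.ReflTransGen.single ⟨i, b, rfl⟩

theorem DeCx1_st_le (K : Cub κ) (σ : κ) (m : Z3) (i : Fin 3) : K.Le (K.st σ m i) σ := by
  unfold st
  split_ifs
  · exact Le.refl K σ
  · exact le_fc K σ _ _

theorem fa_le (K : Cub κ) (σ : κ) (m : Z3) : K.Le (K.fa σ m) σ := by
  exact (DeCx1_st_le K _ m 2).trans ((DeCx1_st_le K _ m 1).trans (DeCx1_st_le K σ m 0))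

theorem Cl.le_mem (h : K.Cl T) (hσ : σ ∈ T) (hl : K.Le τ σ) : τ ∈ T := by
  induction hl with
  | refl => exact hσ
  | tail _ e ih =>
    obtain ⟨i, b, rfl⟩ := e
    exact h _ ih i b

theorem Cl.union (h : K.Cl S) (k : K.Cl T) : K.Cl (S ∪ T) := by
  rintro σ (hσ | hσ) i b
  · exact Or.inl (h σ hσ i b)
  · exact Or.inr (k σ hσ i b)

theorem Ok.mono (h : K.Ok S) (hT : T ⊆ S) (hc : K.Cl T) : K.Ok T := by
  exact ⟨hc, fun σ hσ => h.ev σ (hT hσ), fun σ hσ => h.od σ (hT hσ), fun σ hσ => h.comm σ (hT hσ),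
    fun σ hσ σ' hσ' => h.inj σ (hT hσ) σ' (hT hσ')⟩

theorem Ok.le_pos (h : K.Ok S) (hσ : σ ∈ S) (hl : K.Le τ σ) : LeZ (K.pos τ) (K.pos σ) := by
  induction hl with
  | refl => exact LeZ.refl _
  | @tail ν _ hl e ih =>
    obtain ⟨i, b, rfl⟩ := e
    have hν : ν ∈ S := h.mem.le_mem hσ hl
    refine LeZ.trans ?_ ih
    rcases Int.even_or_odd (K.pos ν i) with e | e
    · rw [h.ev ν hν i b e]
      exact LeZ.refl _
    · rw [h.od ν hν i b e]
      intro j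
      by_cases hj : j = i
      · subst hj
        rw [update_self]
        cases b
        · exact Or.inr ⟨e, Or.inr rfl⟩
        · exact Or.inr ⟨e, Or.inl rfl⟩
      · exact Or.inl (update_of_ne hj _ _)

theorem DeCx1_mem (h : K.Ok S) (hσ : σ ∈ S) (m : Z3) (i : Fin 3) : K.st σ m i ∈ S :=
  h.mem.le_mem hσ (DeCx1_st_le K σ m i)

theorem DeCx1_ne (h : K.Ok S) (hσ : σ ∈ S) (m : Z3) {i j : Fin 3} (hj : j ≠ i) :
    K.pos (K.st σ m i) j = K.pos σ j := by
  unfold st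
  split_ifs
  · rfl
  · rcases Int.even_or_odd (K.pos σ i) with e | e
    · rw [h.ev σ hσ i _ e]
    · rw [h.od σ hσ i _ e, update_of_ne hj]

theorem DeCx1_eq (h : K.Ok S) (hσ : σ ∈ S) {i : Fin 3} {p : ℤ} (hp : K.pos σ i = p)
    (hm : m i = p ∨ (Odd p ∧ (m i = p + 1 ∨ m i = p - 1))) : K.pos (K.st σ m i) i = m i := by
  subst hp
  unfold st
  split_ifs with e
  · exact e.symm
  · obtain ⟨e1, e2⟩ := hm.resolve_left e
    rw [h.od σ hσ i _ e1, update_self]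
    rcases e2 with e2 | e2 <;> simp [e2, sgb, sub_eq_add_neg]

theorem DeCx1_comm (h : K.Ok S) (hσ : σ ∈ S) (m : Z3) {i j : Fin 3} (hj : i ≠ j) :
    K.st (K.st σ m i) m j = K.st (K.st σ m j) m i := by
  have e1 := DeCx1_ne h hσ m hj
  have e2 := DeCx1_ne h hσ m hj.symm
  rw [st, st.eq_def _ (K.st σ m j), e1, e2, st, st]
  split_ifs
  · rfl
  · rfl
  · rfl
  · exact h.comm σ hσ i j _ _ hj

theorem DeCx1_even (h : K.Ok S) (hσ : σ ∈ S) (m : Z3) {i : Fin 3} (e : Even (K.pos σ i)) :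
    K.st σ m i = σ := by
  unfold st
  split_ifs
  · rfl
  · exact h.ev σ hσ i _ e

theorem DeCx1_fc_even (h : K.Ok S) (hσ : σ ∈ S) (i : Fin 3) (b : Bool) :
    Even (K.pos (K.fc σ i b) i) := by
  rcases Int.even_or_odd (K.pos σ i) with e | e
  · rwa [h.ev σ hσ i b e]
  · rw [h.od σ hσ i b e, update_self]
    exact e.add_odd (by cases b <;> simp [sgb])

theorem DeCx1_idem (h : K.Ok S) (hσ : σ ∈ S) (m : Z3) (i : Fin 3) :
    K.st (K.st σ m i) m i = K.st σ m i := by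
  by_cases e : m i = K.pos σ i
  · have : K.st σ m i = σ := if_pos e
    rw [this, this]
  · have : K.st σ m i = K.fc σ i (decide (K.pos σ i < m i)) := if_neg e
    rw [this]
    exact DeCx1_even h (h.mem σ hσ _ _) m (DeCx1_fc_even h hσ _ _)

theorem DeCx1_fa_st (h : K.Ok S) (hσ : σ ∈ S) (m : Z3) (i : Fin 3) :
    K.fa (K.st σ m i) m = K.fa σ m := by
  have h0 := DeCx1_mem h hσ m 0
  have h1 := DeCx1_mem h h0 m 1
  unfold fa
  obtain rfl | rfl | rfl : i = 0 ∨ i = 1 ∨ i = 2 := by omega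
  · rw [DeCx1_idem h hσ]
  · rw [DeCx1_comm h hσ m (i := 1) (j := 0) (by decide), DeCx1_idem h h0]
  · rw [DeCx1_comm h hσ m (i := 2) (j := 0) (by decide),
      DeCx1_comm h h0 m (i := 2) (j := 1) (by decide), DeCx1_idem h h1]

theorem DeCx1_fa_fc (h : K.Ok S) (hσ : σ ∈ S) {i : Fin 3} {b : Bool}
    (hm : LeZ m (K.pos (K.fc σ i b))) : K.fa (K.fc σ i b) m = K.fa σ m := by
  rcases Int.even_or_odd (K.pos σ i) with e | e
  · rw [h.ev σ hσ i b e]
  · have e1 := hm.even (DeCx1_fc_even h hσ i b)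
    rw [h.od σ hσ i b e, update_self] at e1
    rw [← DeCx1_fa_st h hσ m i, st, e1]
    cases b <;> simp [sgb]

theorem DeCx1_fa_le (h : K.Ok S) (hσ : σ ∈ S) (hl : K.Le τ σ) (hm : LeZ m (K.pos τ)) :
    K.fa τ m = K.fa σ m := by
  induction hl using Relation.ReflTransGen.head_induction_on with
  | refl => rfl
  | head e hl ih =>
    obtain ⟨i, b, rfl⟩ := e
    have h1 := h.mem _ hσ i b
    rw [ih h1, DeCx1_fa_fc h hσ (hm.trans (h.le_pos h1 hl))]

theorem DeCx1_pos (h : K.Ok S) (hσ : σ ∈ S) (hσ' : σ' ∈ S) (e : K.pos σ = K.pos σ') (m : Z3)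
    (i : Fin 3) : K.pos (K.st σ m i) = K.pos (K.st σ' m i) := by
  unfold st
  rw [← e]
  split_ifs
  · exact e
  · rcases Int.even_or_odd (K.pos σ i) with e1 | e1
    · rw [h.ev σ hσ i _ e1, h.ev σ' hσ' i _ (e ▸ e1), e]
    · rw [h.od σ hσ i _ e1, h.od σ' hσ' i _ (e ▸ e1), e]

theorem DeCx1_inj (h : K.Ok S) (hσ : σ ∈ S) (hσ' : σ' ∈ S) (e : K.pos σ = K.pos σ') {i : Fin 3}
    (e' : K.st σ m i = K.st σ' m i) : σ = σ' := by
  unfold st at e'
  rw [← e] at e'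
  split_ifs at e'
  · exact e'
  · exact h.inj σ hσ σ' hσ' i _ e e'

theorem Ok.pos_fa (h : K.Ok S) (hσ : σ ∈ S) (hm : LeZ m (K.pos σ)) : K.pos (K.fa σ m) = m := by
  have h0 := DeCx1_mem h hσ m 0
  have h1 := DeCx1_mem h h0 m 1
  funext i
  unfold fa
  obtain rfl | rfl | rfl : i = 0 ∨ i = 1 ∨ i = 2 := by omega
  · rw [DeCx1_ne h h1 m (by decide), DeCx1_ne h h0 m (by decide), DeCx1_eq h hσ rfl (hm 0)]
  · rw [DeCx1_ne h h1 m (by decide), DeCx1_eq h h0 (DeCx1_ne h hσ m (by decide)) (hm 1)]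
  · exact DeCx1_eq h h1 ((DeCx1_ne h h0 m (by decide)).trans (DeCx1_ne h hσ m (by decide))) (hm 2)

theorem fa_self (K : Cub κ) (σ : κ) : K.fa σ (K.pos σ) = σ := by
  have e (i : Fin 3) : K.st σ (K.pos σ) i = σ := if_pos rfl
  rw [fa, e, e, e]

theorem Ok.eq_fa (h : K.Ok S) (hσ : σ ∈ S) (hl : K.Le τ σ) : τ = K.fa σ (K.pos τ) := by
  rw [← DeCx1_fa_le h hσ hl (LeZ.refl _), fa_self]

/-- Two faces of one cell at the same position are equal. -/
theorem Ok.le_inj (h : K.Ok S) (hσ : σ ∈ S) (h1 : K.Le τ σ) (h2 : K.Le τ' σ)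
    (e : K.pos τ = K.pos τ') : τ = τ' := by
  rw [h.eq_fa hσ h1, e, ← h.eq_fa hσ h2]

theorem Ok.le_of_pos (h : K.Ok S) (hσ : σ ∈ S) (h1 : K.Le τ σ) (h2 : K.Le τ' σ)
    (e : LeZ (K.pos τ) (K.pos τ')) : K.Le τ τ' := by
  rw [h.eq_fa hσ h1, ← DeCx1_fa_le h hσ h2 e]
  exact fa_le K _ _

/-- Two cells at the same position with a common face are equal. -/
theorem Ok.inj_le (h : K.Ok S) (hσ : σ ∈ S) (hσ' : σ' ∈ S) (h1 : K.Le τ σ) (h2 : K.Le τ σ')
    (e : K.pos σ = K.pos σ') : σ = σ' := by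
  have a0 := DeCx1_mem h hσ (K.pos τ) 0
  have b0 := DeCx1_mem h hσ' (K.pos τ) 0
  have e0 := DeCx1_pos h hσ hσ' e (K.pos τ) 0
  exact DeCx1_inj h hσ hσ' e (DeCx1_inj h a0 b0 e0 (DeCx1_inj h (DeCx1_mem h a0 _ 1)
    (DeCx1_mem h b0 _ 1) (DeCx1_pos h a0 b0 e0 _ 1)
    ((h.eq_fa hσ h1).symm.trans (h.eq_fa hσ' h2))))

theorem Ok.fa_of_le (h : K.Ok S) (hσ : σ ∈ S) (hl : K.Le τ σ) (hm : LeZ m (K.pos τ)) :
    K.fa τ m = K.fa σ m := by
  exact DeCx1_fa_le h hσ hl hm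

theorem Ok.le_of_inj (h : K.Ok S) (hi : InjOn K.pos S) (hσ : σ ∈ S) (hτ : τ ∈ S)
    (e : LeZ (K.pos τ) (K.pos σ)) : K.Le τ σ := by
  rw [← hi (h.mem.le_mem hσ (fa_le K σ _)) hτ (h.pos_fa hσ e)]
  exact fa_le K _ _

end Cub

end BEp
end
end

-- merged part: Pool.Agent.Work.MP_f0515e_an.D3.DeRe
section
/-! TASK DeRe. The realisation. `sec_eq`: a vertex `ν` with `0 < hat` has `LeZ (pos ν) (car y)` (`vtx_le_car`), so `ν ≤ σ`
gives `ν ≤ τ` (`le_of_pos`). `sec_inj`: take `v` from `exists_vtx`, `ν = fa σ v`; its coordinate in `sec σ y`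
is positive, so `ν ≤ σ'`; then `le_of_pos`, `inj_le`. `near`: the same `ν = fa φ v` has a positive coordinate
on all `e` near `sec φ y`; write `e = sec ψ e.1` with `mem_EE`, then `ν ≤ ψ`, `e.1 ∈ stz (pos φ)`, `ψ = fa φ
(car e.1)` if also `‖e.1 - zr v‖ < 9 / 8`. `bd_iff`: `mem_closure_iff_frequently`, `near`, continuity of `sec
φ` and of `fst`. About 250 lines. -/

open Set Metric Filter Topology Function BEv
open scoped NNReal

noncomputable section
namespace BEp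

namespace Cub
variable {κ : Type} {K : Cub κ} {S T : Set κ} {σ σ' τ φ : κ} {y : Rn 3} {e e' : FF κ}

@[simp] theorem sec_fst (K : Cub κ) (σ : κ) (y : Rn 3) : (K.sec σ y).1 = y := rfl

theorem sec_tp [Fintype κ] (K : Cub κ) (σ : κ) : TP (K.sec σ) := by
  refine TP.id'.prod (TP.pi fun τ => ?_)
  by_cases h : K.Vtx τ ∧ K.Le τ σ
  · simp only [if_pos h]
    exact ((TP.const _).sub (TP.id'.sub (TP.const _)).norm_pi).max (TP.const _)
  · simp only [if_neg h]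
    exact TP.const _

theorem Ok.sec_eq (h : K.Ok S) (hσ : σ ∈ S) (hl : K.Le τ σ) (hy : y ∈ stz (K.pos τ)) :
    K.sec τ y = K.sec σ y := by
  refine Prod.ext rfl (funext fun ν => ?_)
  simp only [sec]
  by_cases h1 : K.Vtx ν ∧ K.Le ν τ
  · rw [if_pos h1, if_pos ⟨h1.1, h1.2.trans hl⟩]
  · rw [if_neg h1]
    split_ifs with h2
    · refine le_antisymm (le_max_right _ _) (not_lt.mp fun hp => h1 ⟨h2.1, ?_⟩)
      exact h.le_of_pos hσ h2.2 hl ((vtx_le_car h2.1 (hat_pos.mp hp).le).trans (mem_stz.mp hy))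
    · rfl

theorem DeRe_key {ν : κ} {m : Z3} (h : K.Ok S) (hσ : σ ∈ S) (hσ' : σ' ∈ S) (h1 : K.Le ν σ)
    (h2 : K.Le ν σ') (h3 : LeZ (K.pos ν) m) (hm : LeZ m (K.pos σ)) (hm' : LeZ m (K.pos σ')) :
    K.fa σ m = K.fa σ' m := by
  have p := h.pos_fa hσ hm
  have p' := h.pos_fa hσ' hm'
  exact h.inj_le (h.mem.le_mem hσ (K.fa_le _ _)) (h.mem.le_mem hσ' (K.fa_le _ _))
    (h.le_of_pos hσ h1 (K.fa_le _ _) (p.symm ▸ h3))
    (h.le_of_pos hσ' h2 (K.fa_le _ _) (p'.symm ▸ h3)) (p.trans p'.symm)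

theorem DeRe_pos {ν : κ} (h : 0 < (K.sec σ y).2 ν) : K.Le ν σ ∧ LeZ (K.pos ν) (car y) := by
  simp only [sec] at h
  split_ifs at h with k
  · exact ⟨k.2, vtx_le_car k.1 (hat_pos.mp h).le⟩
  · exact absurd h (lt_irrefl _)

theorem DeRe_vtx (h : K.Ok S) (hσ : σ ∈ S) (hy : y ∈ stz (K.pos σ)) :
    ∃ ν, K.Le ν σ ∧ LeZ (K.pos ν) (car y) ∧ 0 < (K.sec σ y).2 ν := by
  obtain ⟨v, hv, hn⟩ := exists_vtx y
  have h1 := vtx_le_car hv (hn.trans (by norm_num))
  have p := h.pos_fa hσ (h1.trans (mem_stz.mp hy))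
  refine ⟨K.fa σ v, K.fa_le _ _, p.symm ▸ h1, ?_⟩
  simp only [sec]
  rw [if_pos ⟨fun i => p.symm ▸ hv i, K.fa_le _ _⟩, p]
  exact hat_pos.mpr (hn.trans_lt (by norm_num))

theorem Ok.sec_inj (h : K.Ok S) (hσ : σ ∈ S) (hσ' : σ' ∈ S) (hy : y ∈ stz (K.pos σ))
    (hy' : y ∈ stz (K.pos σ')) (e : K.sec σ y = K.sec σ' y) :
    K.fa σ (car y) = K.fa σ' (car y) := by
  obtain ⟨ν, h1, h2, h3⟩ := DeRe_vtx h hσ hy
  exact DeRe_key h hσ hσ' h1 (DeRe_pos (e ▸ h3)).1 h2 (mem_stz.mp hy) (mem_stz.mp hy')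

theorem sec_mem_EE (hσ : σ ∈ S) (hy : y ∈ stz (K.pos σ)) : K.sec σ y ∈ K.EE S := by
  exact mem_biUnion hσ (mem_image_of_mem _ hy)

theorem Ok.mem_EE (h : K.Ok S) :
    e ∈ K.EE S ↔ ∃ φ ∈ S, K.pos φ = car e.1 ∧ K.sec φ e.1 = e := by
  constructor
  · intro he
    obtain ⟨σ, hσ, y, hy, rfl⟩ := mem_iUnion₂.mp he
    have hp := h.pos_fa hσ (mem_stz.mp hy)
    exact ⟨_, h.mem.le_mem hσ (K.fa_le σ _), hp,
      h.sec_eq hσ (K.fa_le σ _) (by rw [sec_fst, hp]; exact self_mem_stz y)⟩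
  · rintro ⟨φ, hφ, hp, he⟩
    exact he ▸ sec_mem_EE hφ (hp ▸ self_mem_stz _)

theorem mem_VV' : e ∈ K.VV S ↔
    ∃ σ ∈ S, e.1 ∈ closedBall (zr (K.pos σ)) (1 / 2) ∧ K.sec σ e.1 = e := by
  constructor
  · intro he
    obtain ⟨σ, hσ, y, hy, rfl⟩ := mem_iUnion₂.mp he
    exact ⟨σ, hσ, hy, rfl⟩
  · rintro ⟨σ, hσ, hy, he⟩
    exact mem_biUnion hσ ⟨_, hy, he⟩

theorem Ok.mem_VV (h : K.Ok S) (hT : T ⊆ S) (hφ : φ ∈ S) (hp : K.pos φ = car y) :
    K.sec φ y ∈ K.VV T ↔ ∃ σ ∈ T, K.Le φ σ ∧ y ∈ closedBall (zr (K.pos σ)) (1 / 2) := by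
  have hy : y ∈ stz (K.pos φ) := hp ▸ self_mem_stz y
  rw [mem_VV']
  constructor
  · rintro ⟨σ, hσ, hb, he⟩
    have := h.sec_inj (y := y) (hT hσ) hφ (vox_sub_stz _ hb) hy he
    rw [← hp, fa_self] at this
    exact ⟨σ, hσ, by simpa only [this] using K.fa_le σ (K.pos φ), hb⟩
  · rintro ⟨σ, hσ, hl, hb⟩
    exact ⟨σ, hσ, hb, (h.sec_eq (hT hσ) hl hy).symm⟩

theorem EE_mono (K : Cub κ) (h : T ⊆ S) : K.EE T ⊆ K.EE S := by
  exact biUnion_subset_biUnion_left h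

theorem VV_mono (K : Cub κ) (h : T ⊆ S) : K.VV T ⊆ K.VV S := by
  exact biUnion_subset_biUnion_left h

theorem VV_sub_EE (K : Cub κ) (S : Set κ) : K.VV S ⊆ K.EE S := by
  exact iUnion₂_mono fun σ _ => image_mono (vox_sub_stz _)

theorem Ok.ee_inj (h : K.Ok S) (he : e ∈ K.EE S) (he' : e' ∈ K.EE S) (h1 : e.1 = e'.1)
    (hu : ∀ σ ∈ S, ∀ σ' ∈ S, K.pos σ = car e.1 → K.pos σ' = car e.1 → σ = σ') : e = e' := by
  obtain ⟨φ, hφ, hp, k⟩ := h.mem_EE.mp he
  obtain ⟨φ', hφ', hp', k'⟩ := h.mem_EE.mp he'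
  rw [← k, ← k', hu φ hφ φ' hφ' hp (h1 ▸ hp'), h1]

variable [Fintype κ]

theorem Ok.near (h : K.Ok S) (hφ : φ ∈ S) (hy : y ∈ stz (K.pos φ)) :
    ∀ᶠ e in 𝓝[K.EE S] (K.sec φ y), K.sec φ e.1 = e := by
  obtain ⟨ν, h1, -, h3⟩ := DeRe_vtx h hφ hy
  have e1 : ∀ᶠ e : FF κ in 𝓝 (K.sec φ y), 0 < e.2 ν :=
    ((continuous_apply ν).comp continuous_snd).continuousAt.eventually (lt_mem_nhds h3)
  have e2 : ∀ᶠ e : FF κ in 𝓝 (K.sec φ y), e.1 ∈ stz (K.pos φ) :=
    continuous_fst.continuousAt.eventually ((isOpen_stz _).mem_nhds hy)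
  filter_upwards [nhdsWithin_le_nhds e1, nhdsWithin_le_nhds e2, self_mem_nhdsWithin]
    with e k1 k2 he
  obtain ⟨ψ, hψ, hp, k⟩ := h.mem_EE.mp he
  obtain ⟨k3, k4⟩ := DeRe_pos (k.symm ▸ k1 : 0 < (K.sec ψ e.1).2 ν)
  have := DeRe_key h hφ hψ h1 k3 k4 (mem_stz.mp k2) (hp ▸ LeZ.refl _)
  rw [← hp, fa_self] at this
  rw [← h.sec_eq hφ (this ▸ K.fa_le φ _ : K.Le ψ φ) (hp ▸ self_mem_stz _), k]

theorem Ok.etale (h : K.Ok S) : Etale (ContinuousLinearMap.fst ℝ (Rn 3) (κ → ℝ)) (K.EE S) := by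
  intro e he
  obtain ⟨φ, hφ, hp, k⟩ := h.mem_EE.mp he
  have hy : e.1 ∈ stz (K.pos φ) := hp ▸ self_mem_stz _
  refine ⟨K.sec φ, K.sec_tp φ, fun _ => rfl, ?_, ?_⟩
  · filter_upwards [(isOpen_stz _).mem_nhds hy] with y hy using sec_mem_EE hφ hy
  · have := h.near hφ hy
    rwa [k] at this

theorem isCompact_VV (K : Cub κ) (S : Set κ) : IsCompact (K.VV S) := by
  exact S.toFinite.isCompact_biUnion fun σ _ =>
    (isCompact_closedBall _ _).image (K.sec_tp σ).continuous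

theorem isCompact_Bd (K : Cub κ) (S : Set κ) : IsCompact (K.Bd S) := by
  exact (K.isCompact_VV S).inter_right isClosed_closure

theorem Ok.bd_iff (h : K.Ok S) (hφ : φ ∈ S) (hy : y ∈ stz (K.pos φ)) :
    K.sec φ y ∈ K.Bd S ↔ K.sec φ y ∈ K.VV S ∧ ∃ᶠ y' in 𝓝 y, K.sec φ y' ∉ K.VV S := by
  refine and_congr_right fun _ => ?_
  rw [mem_closure_iff_frequently]
  constructor
  · intro hf
    refine (continuous_fst.tendsto (K.sec φ y)).frequently
      ((hf.and_eventually (eventually_nhdsWithin_iff.mp (h.near hφ hy))).mono fun e he => ?_)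
    rw [he.2 he.1.1]
    exact he.1.2
  · intro hf
    exact ((K.sec_tp φ).continuous.tendsto y).frequently
      ((hf.and_eventually ((isOpen_stz _).mem_nhds hy)).mono fun y' h' =>
        ⟨sec_mem_EE hφ h'.2, h'.1⟩)

end Cub

end BEp
end
end

-- merged part: Pool.Agent.Work.MP_f0515e_an.D3.DeTP
section
/-! TASK DeTP. Transport to a general finite dimensional target through a linear homeomorphism `F ≃L Rn N`
(`ContinuousLinearEquiv.ofFinrankEq`, `TP.clm`), and small topological facts. `tp_localF`: cover `X` by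
finitely many polyhedra `X ∩ closedBall x r` on which `f` is one `TP` map, `tp_glue_fin`. `full_ball`:
`Ball.sub_convex`. `preconn_ring`: image of `sphere × Icc` (`isConnected_sphere`), or a ball if `a ≤ 0`.
`preconn_of_image`: the inverse is continuous on `f '' T` (closed sets are compact), or use
`isPreconnected_closed_iff` directly. About 200 lines. -/

open Set Metric Filter Topology Function BEv
open scoped NNReal

noncomputable section
namespace BEp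

variable {n : ℕ} {F : Type} [NormedAddCommGroup F] [NormedSpace ℝ F] [FiniteDimensional ℝ F]

theorem exists_rn (F : Type) [NormedAddCommGroup F] [NormedSpace ℝ F] [FiniteDimensional ℝ F] :
    ∃ N, Nonempty (F ≃L[ℝ] Rn N) := by
  exact ⟨Module.finrank ℝ F, ⟨ContinuousLinearEquiv.ofFinrankEq (by simp)⟩⟩

theorem tp_glueF {X Y : Set (Rn n)} (hX : Poly X) (hY : Poly Y) {f g : Rn n → F} (hf : TP f)
    (hg : TP g) (h : EqOn f g (X ∩ Y)) : ∃ k, TP k ∧ EqOn k f X ∧ EqOn k g Y := by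
  obtain ⟨N, ⟨e⟩⟩ := exists_rn F
  obtain ⟨k, h1, h2, h3⟩ := tp_glue hX hY ((TP.clm (e : F →L[ℝ] Rn N)).comp hf)
    ((TP.clm (e : F →L[ℝ] Rn N)).comp hg) fun x hx => congrArg e (h hx)
  exact ⟨_, (TP.clm (e.symm : Rn N →L[ℝ] F)).comp h1,
    fun x hx => (congrArg e.symm (h2 hx)).trans (e.symm_apply_apply _),
    fun x hx => (congrArg e.symm (h3 hx)).trans (e.symm_apply_apply _)⟩

theorem tp_localF {X : Set (Rn n)} (hX : Poly X) {f : Rn n → F}
    (h : ∀ x ∈ X, ∃ k, TP k ∧ ∀ᶠ y in 𝓝[X] x, f y = k y) : ∃ k, TP k ∧ EqOn k f X := by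
  obtain ⟨N, ⟨e⟩⟩ := exists_rn F
  have : ∀ x ∈ X, ∃ k, ∃ r > 0, TP k ∧ ∀ y ∈ X ∩ closedBall x r, f y = k y := fun x hx => by
    obtain ⟨k, h1, h2⟩ := h x hx
    obtain ⟨r, h3, h4⟩ := nhds_basis_closedBall.eventually_iff.1 (eventually_nhdsWithin_iff.1 h2)
    exact ⟨k, r, h3, h1, fun y hy => h4 hy.2 hy.1⟩
  choose! k r h0 h1 h2 using this
  obtain ⟨t, t1, t2⟩ := hX.1.elim_nhds_subcover (fun x => closedBall x (r x))
    fun x hx => closedBall_mem_nhds x (h0 x hx)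
  obtain ⟨g, g1, g2⟩ := tp_glue_fin t.finite_toSet (X := fun x => X ∩ closedBall x (r x))
    (fun x _ => hX.inter (Poly.closedBall _ _)) (f := fun x y => e (k x y))
    (fun x hx => (TP.clm (e : F →L[ℝ] Rn N)).comp (h1 x (t1 x hx)))
    fun x hx y hy z hz => congrArg e ((h2 x (t1 x hx) z hz.1).symm.trans (h2 y (t1 y hy) z hz.2))
  refine ⟨_, (TP.clm (e.symm : Rn N →L[ℝ] F)).comp g1, fun x hx => ?_⟩
  obtain ⟨y, hy, hxy⟩ := mem_iUnion₂.1 (t2 hx)
  exact (congrArg e.symm (g2 y hy ⟨hx, hxy⟩)).trans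
    ((e.symm_apply_apply _).trans (h2 y (t1 y hy) x ⟨hx, hxy⟩).symm)

theorem tp_linvF {X : Set (Rn n)} (hX : Poly X) {g : Rn n → F} (hg : TP g) (hi : InjOn g X) :
    ∃ k : F → Rn n, TP k ∧ ∀ x ∈ X, k (g x) = x := by
  obtain ⟨N, ⟨e⟩⟩ := exists_rn F
  obtain ⟨k, h1, h2⟩ := tp_linv hX ((TP.clm (e : F →L[ℝ] Rn N)).comp hg)
    fun x hx y hy h => hi hx hy (e.injective h)
  exact ⟨_, h1.comp (TP.clm (e : F →L[ℝ] Rn N)), h2⟩

theorem full_ball (r : ℝ) : Full (ball 0 r) := by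
  exact fun B S h hs => h.sub_convex (by norm_num) (convex_ball 0 r) hs

theorem poly_ring (a b : ℝ) : Poly {x : Rn n | a ≤ ‖x‖ ∧ ‖x‖ ≤ b} := by
  have := poly_le (Poly.closedBall (0 : Rn n) b) ((TP.const a).sub TP.id'.norm_pi)
  simpa only [mem_closedBall_zero_iff, sub_nonpos, and_comm] using this

theorem preconn_ring (a b : ℝ) : IsPreconnected {x : Rn 2 | a ≤ ‖x‖ ∧ ‖x‖ ≤ b} := by
  have h : {x : Rn 2 | a ≤ ‖x‖ ∧ ‖x‖ ≤ b} =
      (fun p : Rn 2 × ℝ => p.2 • p.1) '' (sphere 0 1 ×ˢ Icc (max a 0) b) := by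
    ext x
    constructor
    · rintro ⟨h1, h2⟩
      rcases eq_or_ne x 0 with rfl | h0
      · refine ⟨(fun _ => 1, 0), ⟨by simp, ?_⟩, zero_smul _ _⟩
        rw [norm_zero] at h1 h2
        exact ⟨max_le h1 le_rfl, h2⟩
      · have h3 := norm_ne_zero_iff.2 h0
        exact ⟨(‖x‖⁻¹ • x, ‖x‖), ⟨by simp [norm_smul, h3], max_le h1 (norm_nonneg _), h2⟩,
          smul_inv_smul₀ h3 x⟩
    · rintro ⟨⟨u, t⟩, ⟨h1, h2, h3⟩, rfl⟩
      rw [max_le_iff] at h2
      simp only [mem_setOf_eq, norm_smul, mem_sphere_zero_iff_norm.1 h1, mul_one,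
        Real.norm_of_nonneg h2.2]
      exact ⟨h2.1, h3⟩
  rw [h]
  exact ((isConnected_sphere (by simp) 0 zero_le_one).isPreconnected.prod isPreconnected_Icc).image
    _ (continuous_snd.smul continuous_fst).continuousOn

theorem poly_Icc (a b : Rn n) : Poly (Icc a b) := by
  have := poly_le (Poly.closedBall (0 : Rn n) (‖a‖ + ‖b‖))
    (TP.pi fun i => (((TP.const (a i)).sub (TP.id'.apply i)).max
      ((TP.id'.apply i).sub (TP.const (b i)))).max (TP.const 0)).norm_pi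
  convert this using 1
  ext x
  simp only [mem_Icc, mem_setOf_eq, mem_closedBall_zero_iff, norm_le_zero_iff, funext_iff,
    Pi.zero_apply, max_eq_right_iff, max_le_iff, sub_nonpos, Pi.le_def, forall_and]
  refine (and_iff_right_of_imp fun h => (pi_norm_le_iff_of_nonneg (by positivity)).2 fun i => ?_).symm
  have h1 := abs_le.1 (norm_le_pi_norm a i)
  have h2 := abs_le.1 (norm_le_pi_norm b i)
  exact abs_le.2 ⟨by linarith only [h1, h2, h, h.1 i, norm_nonneg b], by linarith [h.2 i, norm_nonneg a]⟩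

theorem preconn_of_image {X Y : Type} [TopologicalSpace X] [TopologicalSpace Y] [T2Space Y]
    {T : Set X} (hT : IsCompact T) {f : X → Y} (hf : ContinuousOn f T) (hi : InjOn f T)
    (h : IsPreconnected (f '' T)) : IsPreconnected T := by
  have := isCompact_iff_compactSpace.1 hT
  have e := (hf.restrict.isClosedEmbedding hi.injective).isInducing
  rw [← range_restrict, ← image_univ, e.isPreconnected_image] at h
  exact isPreconnected_iff_preconnectedSpace.2 ⟨h⟩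

theorem const_of_loc {X α : Type} [TopologicalSpace X] {T : Set X} (hT : IsPreconnected T)
    {f : X → α} (h : ∀ x ∈ T, ∀ᶠ y in 𝓝[T] x, f y = f x) : ∀ x ∈ T, ∀ y ∈ T, f x = f y := by
  letI : TopologicalSpace α := ⊥
  haveI := discreteTopology_bot α
  exact fun x hx y hy => hT.constant (fun z hz => by
    rw [ContinuousWithinAt, nhds_discrete α, tendsto_pure]; exact h z hz) hx hy

theorem dg_lh {T : ℝ → ℝ} (hT : TP T) {c : ℝ} (hc : 0 < c)
    (h : ∀ a b, a ≤ b → c * (b - a) ≤ T b - T a) : LH (dg T : Rn n → Rn n) := by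
  exact lh_tri (TP.pi fun i => hT.comp (TP.id'.apply i)) univ hc (fun _ j hj => (hj trivial).elim)
    fun x y _ j _ hj => h _ _ hj

end BEp
end
end

-- merged part: Pool.Agent.Work.MP_f0515e_an.D3.DeLev
section
/-! TASK DeLev. Basic facts on a floor. `dist_le`: `le_pos`, `pos`, `norm_le_car`. `kin_ko`: if `σ ≤ cr y` (inner) and `σ ≤ cr
x` (outer) then `‖g x - g y‖ ≤ 9 / 4`, so `h3` gives `pos σ ∈ W`, `mem_wc`. `out_mem`: otherwise `σ ≤ cr y`,
`y` inner, `‖g x - g y‖ ≤ 2`, and `h3` applied to a voxel centre of `g x` (`exists_vox`) contradicts `h4`.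
`col_uniq`: by `m5` both cells are faces `σ ≤ cr x`, `σ' ≤ cr x'`; let `Q = {z | LeZ p (car z) ∧ z (k m) = c
m}` (convex, closed, inside `Col m` by `norm_le_car`), `T = {x | ‖x‖ ≤ 1 ∧ g x ∈ Q}` compact, `g '' T = Q` by
`m3`, so `T` is preconnected (`preconn_of_image`, `m2`); `x, x' ∈ T` by `m1`; `x ↦ fa (cr x) p` is locally
constant on `T` (`usc`, `fa_of_le`), `const_of_loc`, `eq_fa`. `col_inj`, `out_inj`: `ee_inj`. About 200 lines. -/

open Set Metric Filter Topology Function BEv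
open scoped NNReal

noncomputable section
namespace BEp

namespace TLev
variable {C : Core} {κ : Type} {L : TLev C κ} {σ σ' : κ} {x y : Rn 2} {e e' : FF κ}
  {m : Fin C.nM} {p : Z3}

theorem DeLev_tri (a b c : Rn 3) : ‖a - b‖ ≤ ‖c - a‖ + ‖c - b‖ := by
  simpa only [dist_eq_norm] using dist_triangle_left a b c

theorem _root_.BEp.Core.W_finite (C : Core) : C.W.Finite := by
  exact finite_iUnion fun _ => finite_Icc _ _

theorem cr_mem (L : TLev C κ) (hx : ‖x‖ ≤ 1) : L.cr x ∈ L.S := by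
  rcases le_total ‖x‖ (5 / 8) with h | h
  exacts [.inl (.inr ⟨x, h, .refl _ _⟩), .inr ⟨x, h, hx, .refl _ _⟩]

theorem Ok.cl_in (hL : L.Ok) : L.K.Cl L.Kin := by
  exact hL.wcl.union fun σ ⟨x, hx, h⟩ i b => ⟨x, hx, (L.K.le_fc σ i b).trans h⟩

theorem cl_out (L : TLev C κ) : L.K.Cl L.Ko := by
  exact fun σ ⟨x, h1, h2, h⟩ i b => ⟨x, h1, h2, (L.K.le_fc σ i b).trans h⟩

theorem Ok.ok_in (hL : L.Ok) : L.K.Ok L.Kin := by
  exact hL.ok.mono subset_union_left hL.cl_in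

theorem Ok.dist_le (hL : L.Ok) (hx : ‖x‖ ≤ 1) (h : L.K.Le σ (L.cr x)) :
    ‖zr (L.K.pos σ) - C.g x‖ ≤ 9 / 8 := by
  exact norm_le_car (hL.pos x hx ▸ hL.ok.le_pos (L.cr_mem hx) h)

theorem Ok.mem_wc (hL : L.Ok) (hσ : σ ∈ L.Ko) (hp : L.K.pos σ ∈ C.W) : σ ∈ L.Wc := by
  obtain ⟨τ, hτ, e⟩ := hL.wpos.ge hp
  exact hL.winj (.inl hτ) (.inr hσ) e ▸ hτ

theorem Ok.kin_ko (hC : C.Ok) (hL : L.Ok) : L.Kin ∩ L.Ko ⊆ L.Wc := by
  rintro σ ⟨h | ⟨y, hy, h⟩, x, h1, h2, k⟩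
  · exact h
  have a := hL.dist_le h2 k
  have b := hL.dist_le (by linarith only [hy]) h
  exact hL.mem_wc ⟨x, h1, h2, k⟩ (hC.h3 x y h1 h2 hy
    (by linarith only [a, b, DeLev_tri (C.g x) (C.g y) (zr (L.K.pos σ))]) _ (by linarith only [a]))

theorem Ok.G_mem (hL : L.Ok) (hx : ‖x‖ ≤ 1) : L.G x ∈ L.K.EE L.S := by
  exact Cub.sec_mem_EE (L.cr_mem hx) (hL.pos x hx ▸ self_mem_stz _)

@[simp] theorem G_fst (L : TLev C κ) (x : Rn 2) : (L.G x).1 = C.g x := rfl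

theorem Ok.out_mem (hC : C.Ok) (hL : L.Ok) (h1 : 3 / 4 ≤ ‖x‖) (h2 : ‖x‖ ≤ 1) (hσ : σ ∈ L.S)
    (hp : L.K.pos σ = car (C.g x)) : σ ∈ L.Wc ∪ L.Ko := by
  rcases hσ with (h | ⟨y, hy, h⟩) | h
  · exact .inl h
  · obtain ⟨q, hq⟩ := exists_vox (C.g x)
    have a := norm_car (C.g x)
    have b := hp ▸ hL.dist_le (by linarith only [hy]) h
    exact (hC.h4 x h1 h2 (mem_iUnion₂.2 ⟨q, hC.h3 x y (by linarith only [h1]) h2 hy
      (by linarith only [a, b, DeLev_tri (C.g x) (C.g y) (zr (car (C.g x)))]) q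
      (by linarith only [hq, mem_closedBall_iff_norm'.1 hq]), hq⟩)).elim
  · exact .inr h

theorem Ok.out_inj (hC : C.Ok) (hL : L.Ok) (h1 : 3 / 4 ≤ ‖x‖) (h2 : ‖x‖ ≤ 1)
    (he : e ∈ L.K.EE L.S) (h : e.1 = C.g x) : e = L.G x := by
  refine hL.ok.ee_inj he (hL.G_mem h2) h fun σ hσ σ' hσ' a b => ?_
  rw [h] at a b
  exact hL.winj (hL.out_mem hC h1 h2 hσ a) (hL.out_mem hC h1 h2 hσ' b) (a.trans b.symm)

theorem Ok.col_uniq (hC : C.Ok) (hL : L.Ok) (hp : closedBall (zr p) 2 ⊆ C.Col m) (hσ : σ ∈ L.S)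
    (hσ' : σ' ∈ L.S) (h : L.K.pos σ = p) (h' : L.K.pos σ' = p) : σ = σ' := by
  have col : ∀ z, LeZ p (car z) → z ∈ C.Col m := fun z hz =>
    hp (mem_closedBall_iff_norm'.2 ((norm_le_car hz).trans (by norm_num)))
  let T := closedBall (0 : Rn 2) 1 ∩ C.g ⁻¹' {z | LeZ p (car z)}
  have n1 : ∀ x ∈ T, ‖x‖ ≤ 1 := fun x hx => mem_closedBall_zero_iff.1 hx.1
  have key : ∀ σ ∈ L.S, L.K.pos σ = p → ∃ x ∈ T, σ = L.K.fa (L.cr x) p := fun σ hσ h => by
    obtain ⟨x, h1, h2⟩ : ∃ x, ‖x‖ ≤ 1 ∧ L.K.Le σ (L.cr x) := by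
      rcases hσ with (k | ⟨y, hy, k⟩) | ⟨y, -, hy, k⟩
      · exact (hC.m5 m p (hL.wpos.le ⟨σ, k, h⟩) (hp (mem_closedBall_self zero_le_two))).elim
      exacts [⟨y, by linarith only [hy], k⟩, ⟨y, hy, k⟩]
    have := hL.ok.le_pos (L.cr_mem h1) h2
    rw [h, hL.pos x h1] at this
    exact ⟨x, ⟨mem_closedBall_zero_iff.2 h1, this⟩, h ▸ hL.ok.eq_fa (L.cr_mem h1) h2⟩
  have im : C.g '' T = {z | LeZ p (car z)} ∩ {z | z (C.k m) = C.c m} := by
    refine subset_antisymm ?_ fun z hz => ?_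
    · rintro _ ⟨x, hx, rfl⟩
      exact ⟨hx.2, (hC.m1 m x (n1 x hx) (col _ hx.2)).1⟩
    · obtain ⟨x, hx, rfl⟩ := hC.m3 m z (col z hz.1) hz.2
      exact ⟨x, ⟨mem_closedBall_zero_iff.2 hx, hz.1⟩, rfl⟩
  have pc : IsPreconnected T := preconn_of_image
    ((isCompact_closedBall _ _).inter_right ((isClosed_le_car p).preimage hC.cont))
    hC.cont.continuousOn
    (fun x hx y hy => hC.m2 m ⟨n1 x hx, col _ hx.2⟩ ⟨n1 y hy, col _ hy.2⟩)
    (im ▸ ((convex_le_car p).inter (convex_hyperplane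
      (LinearMap.proj (R := ℝ) (φ := fun _ => ℝ) (C.k m)).isLinear _)).isPreconnected)
  obtain ⟨x, hx, e⟩ := key σ hσ h
  obtain ⟨x', hx', e'⟩ := key σ' hσ' h'
  refine e.trans ((const_of_loc pc (f := fun x => L.K.fa (L.cr x) p) (fun x hx => ?_) x hx x'
    hx').trans e'.symm)
  filter_upwards [nhdsWithin_mono x inter_subset_left (hL.usc x hx.1), self_mem_nhdsWithin]
    with y h1 h2
  exact hL.ok.fa_of_le (L.cr_mem (n1 x hx)) h1 (hL.pos y (n1 y h2) ▸ h2.2)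

theorem Ok.col_inj (hC : C.Ok) (hL : L.Ok) (he : e ∈ L.K.EE L.S) (he' : e' ∈ L.K.EE L.S)
    (h : e.1 = e'.1) (hb : closedBall e.1 3 ⊆ C.Col m) : e = e' := by
  exact hL.ok.ee_inj he he' h fun σ hσ σ' hσ' => hL.col_uniq hC ((closedBall_subset_closedBall'
    (by rw [dist_eq_norm]; linarith only [norm_car e.1])).trans hb) hσ hσ'

end TLev

end BEp
end
end

-- merged part: Pool.Agent.Work.MP_f0515e_an.D3.DeLift
section
/-! TASK DeLift. A cocycle mod two on a compact convex set is trivial. For `x ∈ X` let `ρ x > 0` be such that the inner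
property holds for all `y ∈ X ∩ ball x (ρ x)`; Lebesgue number `δ`: every `X ∩ ball y δ` lies in one such
ball. For `y, y' ∈ X` with `‖y - y'‖ < δ` put `d y y' = t x y + t x y'` for any `x` whose ball contains the
segment; for two choices `t x · + t x' ·` is locally constant on the segment (`const_of_loc`), so `d` does not
depend on `x`. Fix `x₀ ∈ X` and `N` with `diam X < N δ / 2`; `s y = ∑ k < N, d (p k y) (p (k + 1) y)`, `p k y
= x₀ + (k / N) • (y - x₀)`. For `y'` near `y` the four points `p k y`, `p (k+1) y`, `p k y'`, `p (k+1) y'` lie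
in one convex piece, so the sum telescopes: `s y' = s y + d y y'`, and `d y y' = t y y'` for `y'` near `y`.
Any other proof is welcome (covering spaces of Mathlib, or induction on the set of `r` for which a solution
exists on the homothetic copy). About 150 lines. -/

open Set Metric Filter Topology Function BEv
open scoped NNReal

noncomputable section
namespace BEp

theorem DeLift_two (a : ZMod 2) : a + a = 0 := CharTwo.add_self_eq_zero a

theorem DeLift_small {E : Type} [NormedAddCommGroup E] [NormedSpace ℝ E] {X : Set E}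
    (hc : Convex ℝ X) (hk : IsCompact X) {t : E → E → ZMod 2}
    (h : ∀ x ∈ X, ∀ᶠ y in 𝓝[X] x, ∀ᶠ z in 𝓝[X] y, t x z = t x y + t y z) :
    ∃ δ : ℝ, 0 < δ ∧ ∃ d : E → E → ZMod 2, (∀ y, d y y = 0) ∧
      (∀ y ∈ X, ∀ z ∈ X, ∀ w ∈ X, dist z y < δ → dist w y < δ → dist w z < δ →
        d y z + d z w = d y w) ∧ ∀ y ∈ X, ∀ᶠ z in 𝓝[X] y, d y z = t y z := by
  have h1 : ∀ x ∈ X, ∃ r : ℝ, 0 < r ∧ ∀ y ∈ X, y ∈ ball x r →
      ∀ᶠ z in 𝓝[X] y, t x z = t x y + t y z := by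
    intro x hx
    obtain ⟨r, hr, h2⟩ := Metric.mem_nhdsWithin_iff.1 (h x hx)
    exact ⟨r, hr, fun y hy hy' => h2 ⟨hy', hy⟩⟩
  choose! ρ hρ hP using h1
  obtain ⟨δ, hδ, hL⟩ := lebesgue_number_lemma_of_metric (c := fun x : X => ball (x : E) (ρ x)) hk
    (fun _ => isOpen_ball) fun x hx => mem_iUnion.2 ⟨⟨x, hx⟩, mem_ball_self (hρ _ hx)⟩
  have h2 : ∀ y ∈ X, ∃ x ∈ X, ball y δ ⊆ ball x (ρ x) := fun y hy =>
    let ⟨x, hx⟩ := hL y hy
    ⟨x, x.2, hx⟩
  choose! c hcX hcb using h2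
  have hA : ∀ x ∈ X, ∀ x' ∈ X, ∀ y ∈ X ∩ (ball x (ρ x) ∩ ball x' (ρ x')),
      ∀ z ∈ X ∩ (ball x (ρ x) ∩ ball x' (ρ x')), t x y + t x' y = t x z + t x' z := by
    intro x hx x' hx' y hy z hz
    refine (hc.inter ((convex_ball _ _).inter (convex_ball _ _))).isPreconnected.constant
      (f := fun y => t x y + t x' y) (fun w hw => ?_) hy hz
    refine Tendsto.congr' ?_ tendsto_const_nhds
    filter_upwards [nhdsWithin_mono _ inter_subset_left (hP x hx w hw.1 hw.2.1),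
      nhdsWithin_mono _ inter_subset_left (hP x' hx' w hw.1 hw.2.2)] with v h3 h4
    rw [h3, h4]
    linear_combination -DeLift_two (t w v)
  refine ⟨δ, hδ, fun y z => t (c y) y + t (c y) z, fun y => DeLift_two _,
    fun y hy z hz w hw h3 h4 h5 => ?_, fun y hy => ?_⟩
  · have h6 := hA (c y) (hcX y hy) (c z) (hcX z hz) z
      ⟨hz, hcb y hy h3, hcb z hz (mem_ball_self hδ)⟩ w ⟨hw, hcb y hy h4, hcb z hz h5⟩
    linear_combination h6 + DeLift_two (t (c z) w)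
  · filter_upwards [hP (c y) (hcX y hy) y hy (hcb y hy (mem_ball_self hδ))] with z hz
    rw [hz]
    linear_combination DeLift_two (t (c y) y)

theorem lift_z2 {E : Type} [NormedAddCommGroup E] [NormedSpace ℝ E] {X : Set E} (hc : Convex ℝ X)
    (hk : IsCompact X) {t : E → E → ZMod 2}
    (h : ∀ x ∈ X, ∀ᶠ y in 𝓝[X] x, ∀ᶠ z in 𝓝[X] y, t x z = t x y + t y z) :
    ∃ s : E → ZMod 2, ∀ x ∈ X, ∀ᶠ y in 𝓝[X] x, s y = s x + t x y := by
  rcases X.eq_empty_or_nonempty with rfl | ⟨x₀, hx₀⟩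
  · exact ⟨fun _ => 0, fun x hx => hx.elim⟩
  obtain ⟨δ, hδ, d, d0, d1, d2⟩ := DeLift_small hc hk h
  obtain ⟨R, hR⟩ := hk.isBounded.subset_closedBall x₀
  obtain ⟨M, hM⟩ := exists_nat_gt (R / (δ / 2))
  obtain ⟨N, hN⟩ : ∃ N : ℕ, N = M + 1 := ⟨_, rfl⟩
  have N0 : (0 : ℝ) < N := by rw [hN]; positivity
  have hNR : R / N < δ / 2 := by
    rw [div_lt_iff₀ (by positivity)] at hM
    rw [div_lt_iff₀ N0, hN]
    push_cast
    linarith only [hδ, hM]
  obtain ⟨p, hp⟩ : ∃ p : ℕ → E → E, p = fun (k : ℕ) y => x₀ + ((k : ℝ) / N) • (y - x₀) := ⟨_, rfl⟩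
  have k1 : ∀ k : ℕ, k ≤ N → (k : ℝ) / N ∈ Icc (0 : ℝ) 1 := fun k hk =>
    ⟨by positivity, (div_le_one N0).2 (by exact_mod_cast hk)⟩
  have pX : ∀ k ≤ N, ∀ y ∈ X, p k y ∈ X := fun k hk y hy => by
    rw [hp]
    exact hc.add_smul_sub_mem hx₀ hy (k1 k hk)
  have p1 : ∀ k ≤ N, ∀ y z, dist (p k z) (p k y) ≤ dist z y := fun k hk y z => by
    rw [hp]
    simp only [dist_add_left, dist_smul₀, dist_sub_right, Real.norm_of_nonneg (k1 k hk).1]
    exact mul_le_of_le_one_left dist_nonneg (k1 k hk).2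
  have p2 : ∀ k, ∀ y ∈ X, dist (p (k + 1) y) (p k y) < δ / 2 := fun k y hy => by
    rw [hp]
    simp only [dist_add_left]
    rw [dist_eq_norm, ← sub_smul, norm_smul, ← dist_eq_norm y]
    have e : ((k + 1 : ℕ) : ℝ) / N - k / N = 1 / N := by
      push_cast
      ring
    rw [e, Real.norm_of_nonneg (by positivity), one_div_mul_eq_div]
    exact (div_le_div_of_nonneg_right (hR hy) N0.le).trans_lt hNR
  have key : ∀ y ∈ X, ∀ z ∈ X, dist z y < δ / 2 → ∀ k ≤ N,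
      ∑ j ∈ Finset.range k, d (p j z) (p (j + 1) z) =
        ∑ j ∈ Finset.range k, d (p j y) (p (j + 1) y) + d (p k y) (p k z) := by
    intro y hy z hz hd k
    induction k with
    | zero => intro _; simp [hp, d0]
    | succ k ih =>
      intro hk
      have hk' : k ≤ N := by omega
      have a1 := (p1 k hk' y z).trans_lt hd
      have a2 := (p1 (k + 1) hk y z).trans_lt hd
      have a3 := p2 k y hy
      have a4 := p2 k z hz
      have a5 := dist_triangle (p (k + 1) z) (p k z) (p k y)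
      have b1 := d1 _ (pX k hk' y hy) _ (pX k hk' z hz) _ (pX (k + 1) hk z hz) (by linarith only [hδ, a1])
        (by linarith only [a1, a4, a5]) (by linarith only [hδ, a4])
      have b2 := d1 _ (pX k hk' y hy) _ (pX (k + 1) hk y hy) _ (pX (k + 1) hk z hz) (by linarith only [hδ, a3])
        (by linarith only [a1, a4, a5]) (by linarith only [hδ, a2])
      rw [Finset.sum_range_succ, Finset.sum_range_succ, ih hk']
      linear_combination b1 - b2
  have pN : ∀ y, p N y = y := fun y => by simp [hp, N0.ne']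
  refine ⟨fun y => ∑ j ∈ Finset.range N, d (p j y) (p (j + 1) y), fun x hx => ?_⟩
  filter_upwards [d2 x hx, self_mem_nhdsWithin,
    mem_nhdsWithin_of_mem_nhds (ball_mem_nhds x (half_pos hδ))] with y h1 h2 h3
  rw [key x hx y h2 h3 N le_rfl, pN, pN, h1]

end BEp
end
end

-- merged part: Pool.Agent.Work.MP_f0515e_an.D3.DeCov
section
/-! TASK DeCov. Double covers. Chains by induction on `Relation.ReflTransGen`. `cov_uniq`: `le_inj` in the cover. `cov_usc`: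
`t x y` is the sheet with `(cr y, t) ≤ (cr x, 0)` (if `cr y ≤ cr x`, else `0`); the identity of `lift_z2` from
`cov_shift`, `Le.trans`, `cov_uniq` (for `y` near `x` and `z` near `y` both `cr z ≤ cr y` and `cr y ≤ cr x`;
`eventually_eventually_nhdsWithin`). `prj_sec`: a vertex `τ ≤ σ` has exactly one lift below `(σ, s)`.
`prj_two`: `mem_EE` in the cover gives carriers `(φ i, s i)`; `prj_sec`, `sec_inj`, `fa_self` give `φ 1 = φ 2
= φ 3`; two of three elements of `ZMod 2` are equal. About 200 lines. -/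

open Set Metric Filter Topology Function BEv
open scoped NNReal

noncomputable section
namespace BEp

namespace Cub
variable {κ : Type} {K : Cub κ} {S T : Set κ} {σ τ : κ} {s t t' : ZMod 2}
  {c : κ → Fin 3 → Bool → ZMod 2} {φ : κ → ZMod 2}

theorem Coc.mono (h : K.Coc S c) (hT : T ⊆ S) : K.Coc T c :=
  ⟨fun σ hσ => h.ev σ (hT hσ), fun σ hσ => h.dia σ (hT hσ)⟩

theorem Coc.ok (hK : K.Ok S) (h : K.Coc S c) : (K.cov c).Ok {q | q.1 ∈ S} := by
  refine ⟨fun q hq i b => hK.mem q.1 hq i b, fun q hq i b he => ?_,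
    fun q hq i b ho => hK.od q.1 hq i b ho, fun q hq i j b b' hij => ?_,
    fun q hq q' hq' i b e1 e2 => ?_⟩
  · exact Prod.ext (hK.ev q.1 hq i b he) (by
      change q.2 + c q.1 i b = q.2
      rw [h.ev q.1 hq i b he, add_zero])
  · refine Prod.ext (hK.comm q.1 hq i j b b' hij) ?_
    change q.2 + c q.1 i b + c (K.fc q.1 i b) j b' = q.2 + c q.1 j b' + c (K.fc q.1 j b') i b
    rw [add_assoc, add_assoc, h.dia q.1 hq i j b b' hij]
  · have e : q.1 = q'.1 := hK.inj q.1 hq q'.1 hq' i b e1 (congrArg Prod.fst e2)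
    have e3 : q.2 + c q.1 i b = q'.2 + c q'.1 i b := congrArg Prod.snd e2
    rw [← e] at e3
    exact Prod.ext e (add_right_cancel e3)

theorem cov_le {q q' : κ × ZMod 2} (h : (K.cov c).Le q q') : K.Le q.1 q'.1 := by
  induction h with
  | refl => exact Le.refl K _
  | tail _ k ih =>
    obtain ⟨i, b, rfl⟩ := k
    exact (le_fc K _ i b).trans ih

theorem cov_lift (c : κ → Fin 3 → Bool → ZMod 2) (h : K.Le τ σ) (s : ZMod 2) :
    ∃ t, (K.cov c).Le (τ, t) (σ, s) := by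
  induction h with
  | refl => exact ⟨s, Le.refl _ _⟩
  | tail _ k ih =>
    obtain ⟨i, b, rfl⟩ := k
    obtain ⟨t, ht⟩ := ih
    exact ⟨_, (le_fc (K.cov c) _ i b).trans ht⟩

theorem cov_uniq (hK : K.Ok S) (hc : K.Coc S c) (hσ : σ ∈ S) (h : (K.cov c).Le (τ, t) (σ, s))
    (h' : (K.cov c).Le (τ, t') (σ, s)) : t = t' :=
  congrArg Prod.snd ((hc.ok hK).le_inj (σ := (σ, s)) hσ h h' rfl)

theorem DeCov_shift {q q' : κ × ZMod 2} (h : (K.cov c).Le q q') (u : ZMod 2) :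
    (K.cov c).Le (q.1, q.2 + u) (q'.1, q'.2 + u) := by
  induction h with
  | refl => exact Le.refl _ _
  | @tail a _ _ k ih =>
    obtain ⟨i, b, rfl⟩ := k
    refine Le.trans ?_ ih
    have := le_fc (K.cov c) (a.1, a.2 + u) i b
    change (K.cov c).Le (K.fc a.1 i b, a.2 + c a.1 i b + u) _
    rw [add_right_comm]
    exact this

theorem cov_shift (h : (K.cov c).Le (τ, t) (σ, s)) (u : ZMod 2) :
    (K.cov c).Le (τ, t + u) (σ, s + u) := DeCov_shift h u

theorem DeCov_cob (hT : K.Cl T) (h : K.CobBy T c φ) {q q' : κ × ZMod 2} (hσ : q'.1 ∈ T)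
    (hl : (K.cov c).Le q q') : q.2 + φ q.1 = q'.2 + φ q'.1 := by
  induction hl with
  | refl => rfl
  | @tail a _ k0 k ih =>
    obtain ⟨i, b, rfl⟩ := k
    change a.2 + c a.1 i b + φ (K.fc a.1 i b) = _
    rw [h a.1 (hT.le_mem hσ (cov_le k0)) i b, ← ih, add_assoc, add_assoc, CharTwo.add_self_eq_zero,
      add_zero]

theorem cov_cob (hT : K.Cl T) (h : K.CobBy T c φ) (hσ : σ ∈ T)
    (hl : (K.cov c).Le (τ, t) (σ, s)) : t + φ τ = s + φ σ := DeCov_cob hT h hσ hl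

theorem cov_usc (hK : K.Ok S) (hc : K.Coc S c) {E : Type} [NormedAddCommGroup E] [NormedSpace ℝ E]
    {X : Set E} (h1 : Convex ℝ X) (h2 : IsCompact X) {cr : E → κ} (hm : MapsTo cr X S)
    (hu : K.Usc X cr) : ∃ s : E → ZMod 2, (K.cov c).Usc X fun x => (cr x, s x) := by
  choose! t ht using fun (x y : E) (h : K.Le (cr y) (cr x)) => cov_lift c h 0
  obtain ⟨s, hs⟩ := lift_z2 h1 h2 (t := t) fun x hx => by
    filter_upwards [hu x hx, self_mem_nhdsWithin] with y k hy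
    filter_upwards [hu y hy] with z k'
    have k1 := cov_shift (ht y z k') (t x y)
    rw [zero_add, add_comm] at k1
    exact cov_uniq hK hc (hm hx) (ht x z (k'.trans k)) (k1.trans (ht x y k))
  refine ⟨s, fun x hx => ?_⟩
  filter_upwards [hu x hx, hs x hx] with y k e
  have k1 := cov_shift (ht x y k) (s x)
  rwa [zero_add, add_comm, ← e] at k1

theorem Usc.mono {E : Type} [TopologicalSpace E] {X Y : Set E} {cr : E → κ} (h : K.Usc X cr)
    (hY : Y ⊆ X) : K.Usc Y cr :=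
  fun x hx => (h x (hY hx)).filter_mono (nhdsWithin_mono x hY)

@[simp] theorem prj_fst (e : FF (κ × ZMod 2)) : (prj κ e).1 = e.1 := rfl

theorem prj_sec (hK : K.Ok S) (hc : K.Coc S c) (hσ : σ ∈ S) (s : ZMod 2) (y : Rn 3) :
    prj κ ((K.cov c).sec (σ, s) y) = K.sec σ y := by
  refine Prod.ext rfl (funext fun τ => ?_)
  change ((K.cov c).sec (σ, s) y).2 (τ, 0) + ((K.cov c).sec (σ, s) y).2 (τ, 1) = (K.sec σ y).2 τ
  simp only [sec]
  by_cases h : K.Vtx τ ∧ K.Le τ σ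
  · obtain ⟨t, ht⟩ := cov_lift c h.2 s
    have n : (0 : ZMod 2) ≠ 1 := zero_ne_one
    rcases (by decide : ∀ t : ZMod 2, t = 0 ∨ t = 1) t with rfl | rfl
    · rw [if_pos h, if_pos ⟨h.1, ht⟩, if_neg fun k => n (cov_uniq hK hc hσ ht k.2), add_zero]
      rfl
    · rw [if_pos h, if_neg fun k => n (cov_uniq hK hc hσ k.2 ht), if_pos ⟨h.1, ht⟩, zero_add]
      rfl
  · rw [if_neg h, if_neg fun k => h ⟨k.1, cov_le k.2⟩, if_neg fun k => h ⟨k.1, cov_le k.2⟩,
      add_zero]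

theorem DeCov_base (hK : K.Ok S) (hc : K.Coc S c) {q q' : κ × ZMod 2} {y : Rn 3} (h : q.1 ∈ S)
    (h' : q'.1 ∈ S) (p : K.pos q.1 = car y) (p' : K.pos q'.1 = car y)
    (k : prj κ ((K.cov c).sec q y) = prj κ ((K.cov c).sec q' y)) : q.1 = q'.1 := by
  have e := hK.sec_inj h h' (p ▸ self_mem_stz y) (p' ▸ self_mem_stz y)
    ((prj_sec hK hc h q.2 y).symm.trans (k.trans (prj_sec hK hc h' q'.2 y)))
  rw [← fa_self K q.1, p, e, ← p', fa_self]

theorem prj_two (hK : K.Ok S) (hc : K.Coc S c) {e₁ e₂ e₃ : FF (κ × ZMod 2)}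
    (h1 : e₁ ∈ (K.cov c).EE {q | q.1 ∈ S}) (h2 : e₂ ∈ (K.cov c).EE {q | q.1 ∈ S})
    (h3 : e₃ ∈ (K.cov c).EE {q | q.1 ∈ S}) (k2 : prj κ e₁ = prj κ e₂) (k3 : prj κ e₁ = prj κ e₃) :
    e₁ = e₂ ∨ e₁ = e₃ ∨ e₂ = e₃ := by
  obtain ⟨q₁, a1, b1, c1⟩ := (hc.ok hK).mem_EE.1 h1
  obtain ⟨q₂, a2, b2, c2⟩ := (hc.ok hK).mem_EE.1 h2
  obtain ⟨q₃, a3, b3, c3⟩ := (hc.ok hK).mem_EE.1 h3
  have y2 : e₂.1 = e₁.1 := (congrArg Prod.fst k2).symm
  have y3 : e₃.1 = e₁.1 := (congrArg Prod.fst k3).symm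
  rw [y2] at b2 c2
  rw [y3] at b3 c3
  have f2 := DeCov_base hK hc a1 a2 b1 b2 (by rw [c1, c2, k2])
  have f3 := DeCov_base hK hc a1 a3 b1 b3 (by rw [c1, c3, k3])
  rcases (by decide : ∀ a b c : ZMod 2, a = b ∨ a = c ∨ b = c) q₁.2 q₂.2 q₃.2 with e | e | e
  · exact Or.inl (by rw [← c1, ← c2, Prod.ext f2 e])
  · exact Or.inr (Or.inl (by rw [← c1, ← c3, Prod.ext f3 e]))
  · exact Or.inr (Or.inr (by rw [← c2, ← c3, Prod.ext (f2.symm.trans f3) e]))

end Cub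

end BEp
end
end

-- merged part: Pool.Agent.Work.MP_f0515e_an.D3.WCase
section
/-! Swap lemma: the three cases. `Ball.out`: `Ψ = Φ ∘ ((1 + s) • ·) ∘ invFun Φ`. `tch_two`: near a point of one ball the
other one is absent; for `out` take `η` below the distance of the balls and `tp_glue`. `wcase`: `c ∈ 𝒞`, `i` the partner
map, `c' = i '' c ∈ 𝒞` (`circ_one` twice), `𝒯 = {c, c'}`, balls `B`, `B'` from `crc_ball`, inside `Xin` by `Full`;
`Φ` from `fill` for `i : c → c'`, `Φ'` for `i : c' → c`. If `c = c'` take `R = B`, `Θ = Φ`. Else by `Ball.side` either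
`c ⊆ B' \ c'` (take `R = B'`, `Θ = Φ'`; then `B ⊆ B' \ c'`, `Θ` maps the frontier to `c`, and partners of points of
`c` are in `c'`), or the symmetric case, or the balls are disjoint (`R = B ∪ B'`, `tp_glue`). About 200 lines. -/

open Set Metric Filter Topology Function BEv
open scoped NNReal

noncomputable section
namespace BEp

variable {N : ℕ} {π : Rn N →L[ℝ] Rn 3} {E U : Set (Rn N)} {X Xin : Set (Rn 2)}
  {G : Rn 2 → Rn N} {𝒞 : Set (Set (Rn 2))}

theorem Ball.out {n : ℕ} {B S : Set (Rn n)} (h : Ball B S) {η : ℝ} (hη : 0 < η) :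
    ∃ Ψ : Rn n → Rn n, TP Ψ ∧ ∀ x ∈ S, ‖Ψ x - x‖ < η ∧ Ψ x ∉ B := by
  obtain ⟨Φ, hΦ, rfl, rfl⟩ := h
  obtain ⟨L, hL, h1⟩ := hΦ.tp.exists_bound
  have hs : 0 < η / (2 * L) := by positivity
  refine ⟨fun x => Φ ((1 + η / (2 * L)) • invFun Φ x), hΦ.tp.comp (hΦ.tpi.const_smul _), ?_⟩
  rintro _ ⟨u, hu, rfl⟩
  rw [mem_sphere_zero_iff_norm] at hu
  simp only [hΦ.li]
  refine ⟨(h1 _ _).trans_lt ?_, ?_⟩
  · rw [add_smul, one_smul, add_sub_cancel_left, norm_smul, hu, Real.norm_of_nonneg hs.le, mul_one,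
      show L * (η / (2 * L)) = η / 2 by field_simp]
    exact half_lt_self hη
  · rintro ⟨w, hw, e⟩
    rw [hΦ.inj e, mem_closedBall_zero_iff, norm_smul, hu, Real.norm_of_nonneg (by positivity)] at hw
    linarith only [hs, hw]

theorem tch_one {B S : Set (Rn 2)} (h : Ball B S) : Tch S B := by
  exact ⟨h.frontier_eq.ge, fun _ hx _ hO => h.loc hx hO, fun _ hη => h.out hη⟩

theorem WCase_loc {B S B' S' : Set (Rn 2)} (h : Ball B S) (h' : Ball B' S') (hd : Disjoint B B')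
    {x : Rn 2} (hx : x ∈ S) {O : Set (Rn 2)} (hO : O ∈ 𝓝 x) : ∃ O', IsOpen O' ∧ x ∈ O' ∧ O' ⊆ O ∧
      IsPreconnected (O' ∩ ((B ∪ B') \ (S ∪ S'))) ∧ IsPreconnected (O' \ (B ∪ B')) := by
  obtain ⟨O', h1, h2, h3, h4, h5⟩ := h.loc hx (inter_mem hO
    (h'.poly.1.isClosed.isOpen_compl.mem_nhds (disjoint_left.1 hd (h.sub hx))))
  refine ⟨O', h1, h2, fun y hy => (h3 hy).1, ?_, ?_⟩
  · convert h4 using 1
    ext y
    exact and_congr_right fun hy => ⟨fun k => ⟨k.1.resolve_right (h3 hy).2, fun e => k.2 (.inl e)⟩,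
      fun k => ⟨.inl k.1, fun e => e.elim k.2 fun e => (h3 hy).2 (h'.sub e)⟩⟩
  · convert h5 using 1
    ext y
    exact and_congr_right fun hy => ⟨fun k e => k (.inl e), fun k e => e.elim k (h3 hy).2⟩

theorem tch_two {B S B' S' : Set (Rn 2)} (h : Ball B S) (h' : Ball B' S') (hd : Disjoint B B') :
    frontier (B ∪ B') = S ∪ S' ∧ Tch (S ∪ S') (B ∪ B') := by
  have c := h.poly.1.isClosed
  have c' := h'.poly.1.isClosed
  have e : frontier (B ∪ B') = S ∪ S' := by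
    rw [(c.union c').frontier_eq, interior_union_of_disjoint_closure (by
      rwa [c.closure_eq, c'.closure_eq]), h.interior_eq, h'.interior_eq]
    ext y
    have := @Ball.sub _ _ _ h y
    have := @Ball.sub _ _ _ h' y
    have := @disjoint_left.1 hd y
    simp only [Set.mem_sdiff, mem_union]
    tauto
  refine ⟨e, e.ge, fun x hx O hO => ?_, fun η hη => ?_⟩
  · rcases hx with hx | hx
    · exact WCase_loc h h' hd hx hO
    · rw [union_comm B, union_comm S]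
      exact WCase_loc h' h hd.symm hx hO
  obtain ⟨δ, hδ, h0⟩ := hd.exists_thickenings h.poly.1 c'
  obtain ⟨Ψ, t, k⟩ := h.out (lt_min hη hδ)
  obtain ⟨Ψ', t', k'⟩ := h'.out (lt_min hη hδ)
  obtain ⟨Θ, h1, h2, h3⟩ := tp_glue h.poly' h'.poly' t t' fun x hx =>
    (disjoint_left.1 hd (h.sub hx.1) (h'.sub hx.2)).elim
  refine ⟨Θ, h1, fun x hx => ?_⟩
  rcases hx with hx | hx
  · rw [h2 hx]
    refine ⟨(k x hx).1.trans_le (min_le_left _ _), fun e => e.elim (k x hx).2 fun e => ?_⟩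
    exact disjoint_left.1 h0 (mem_thickening_iff.2 ⟨x, h.sub hx, (dist_eq_norm _ _).trans_lt
      ((k x hx).1.trans_le (min_le_right _ _))⟩) (self_subset_thickening hδ _ e)
  · rw [h3 hx]
    refine ⟨(k' x hx).1.trans_le (min_le_left _ _), fun e => e.elim (fun e => ?_) (k' x hx).2⟩
    exact disjoint_left.1 h0 (self_subset_thickening hδ _ e) (mem_thickening_iff.2 ⟨x, h'.sub hx,
      (dist_eq_norm _ _).trans_lt ((k' x hx).1.trans_le (min_le_right _ _))⟩)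

theorem WCase_fill {B c B' c' : Set (Rn 2)} (h : Ball B c) (h' : Ball B' c') {i : Rn 2 → Rn 2}
    (hi : TP i) (b : BijOn i c c') : ∃ Φ, TP Φ ∧ Injective Φ ∧ MapsTo Φ B B' ∧ EqOn Φ i c ∧
      ∀ x, Φ x ∈ c' → x ∈ c := by
  obtain ⟨Φ, h1, h2, h3⟩ := fill h h' hi b
  refine ⟨Φ, h1.tp, h1.inj, fun x hx => h2 ▸ mem_image_of_mem _ hx, h3, fun x hx => ?_⟩
  obtain ⟨y, hy, e⟩ := b.surjOn hx
  rwa [← h1.inj ((h3 hy).trans e)]

theorem WCase_nest {B c B' c' : Set (Rn 2)} (h : Ball B c) (h' : Ball B' c') {i : Rn 2 → Rn 2}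
    (hi : TP i) (b : BijOn i c c') (b' : BijOn i c' c) (hd : ∀ x y, (x, y) ∈ Dbl X G → y = i x)
    (hp : ∀ x ∈ c', (x, i x) ∈ Dbl X G) (hB : B' ⊆ Xin) (hs : c ⊆ B' \ c') :
    ∃ R Θ, RgD X Xin G (c ∪ c') R Θ ∧
      ∀ x ∈ frontier R, ∀ y ∈ frontier R, (Θ x, Θ y) ∉ Dbl X G := by
  obtain ⟨Φ, h1, h2, h3, h4, h5⟩ := WCase_fill h' h hi b'
  have s1 : B ⊆ B' := h'.mono le_rfl h fun x hx => (hs hx).1
  have s2 : B ⊆ B' \ c' := fun x hx => by
    by_cases k : x ∈ c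
    · exact hs k
    · exact h'.interior_eq.le (interior_mono s1 (h.interior_eq.ge ⟨hx, k⟩))
  refine ⟨B', Φ, ⟨h'.poly, hB, h1, h2.injOn, h3.mono_right s1, ?_,
    union_subset (h.sub.trans s1) h'.sub, ?_, ?_, fun p hp k => ?_⟩, ?_⟩
  · rw [h'.frontier_eq]
    exact subset_union_right
  · rw [h'.frontier_eq]
    exact fun x hx => h4 hx ▸ hp x hx
  · rw [h'.frontier_eq]
    exact fun x hx k => k.elim (h5 x) fun k => ((s2 (h3 hx)).2 k).elim
  · rw [hd p.1 p.2 hp]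
    exact k.elim (fun k => .inr (b.mapsTo k)) fun k => .inl (b'.mapsTo k)
  · rw [h'.frontier_eq]
    intro x hx y hy k
    rw [h4 hx, h4 hy] at k
    exact (hs (b'.mapsTo hy)).2 (hd _ _ k ▸ b.mapsTo (b'.mapsTo hx))

theorem wcase (hX : Poly X) (hf : Full Xin) (h : WGood π E X Xin U G 𝒞) (hne : 𝒞.Nonempty) :
    ∃ 𝒯 ⊆ 𝒞, 𝒯.Nonempty ∧ ∃ R Θ, RgD X Xin G (⋃₀ 𝒯) R Θ ∧
      (Tch (⋃₀ 𝒯) R ∨ ∀ x ∈ frontier R, ∀ y ∈ frontier R, (Θ x, Θ y) ∉ Dbl X G) := by
  obtain ⟨c, hc⟩ := hne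
  obtain ⟨-, i, hi, hd, hp⟩ := h.pre.imm.partner hX
  have cl : ∀ C ∈ 𝒞, IsClosed C := fun C hC => (h.crc C hC).poly.1.isClosed
  have sD : ∀ C ∈ 𝒞, C ⊆ DS X G := fun C hC => h.cov ▸ subset_sUnion_of_mem hC
  have ij : InjOn i (DS X G) := fun x hx y hy e => by rw [← (hp x hx).2.2, e, (hp y hy).2.2]
  have k1 : Crc (i '' c) := (h.crc c hc).image hi (ij.mono (sD c hc))
  have k2 : i '' c ⊆ ⋃₀ 𝒞 := by
    rintro _ ⟨x, hx, rfl⟩
    exact h.cov ▸ (hp x (sD c hc hx)).2.1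
  obtain ⟨z, hz⟩ := k1.tcrc.conn.nonempty
  obtain ⟨c', hc', hz'⟩ := k2 hz
  have e : i '' c = c' := tcrc_sub k1.tcrc (h.crc c' hc').tcrc
    (circ_one h.fin cl h.dis k1.tcrc.conn.isPreconnected k2 hc' ⟨z, hz, hz'⟩)
  have b : BijOn i c c' := e ▸ (ij.mono (sD c hc)).bijOn_image
  have b' : BijOn i c' c := by
    refine ⟨?_, ij.mono (sD c' hc'), fun x hx => ⟨i x, b.mapsTo hx, (hp x (sD c hc hx)).2.2⟩⟩
    rw [← e]
    rintro _ ⟨x, hx, rfl⟩
    rwa [(hp x (sD c hc hx)).2.2]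
  obtain ⟨B, hB⟩ := crc_ball (h.crc c hc)
  obtain ⟨B', hB'⟩ := crc_ball (h.crc c' hc')
  have sB : B ⊆ Xin := hf B c hB ((sD c hc).trans h.pre.ds)
  have sB' : B' ⊆ Xin := hf B' c' hB' ((sD c' hc').trans h.pre.ds)
  have p : ∀ x ∈ c, (x, i x) ∈ Dbl X G := fun x hx => (hp x (sD c hc hx)).1
  have p' : ∀ x ∈ c', (x, i x) ∈ Dbl X G := fun x hx => (hp x (sD c' hc' hx)).1
  refine ⟨{c, c'}, insert_subset hc (singleton_subset_iff.2 hc'), insert_nonempty _ _, ?_⟩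
  rw [sUnion_pair]
  obtain ⟨Φ, h1, h2, h3, h4, h5⟩ := WCase_fill hB hB' hi b
  rcases eq_or_ne c c' with rfl | hcc
  · obtain rfl := hB.uniq le_rfl hB'
    rw [union_self]
    refine ⟨B, Φ, ⟨hB.poly, sB, h1, h2.injOn, h3, hB.frontier_eq.le, hB.sub, ?_, ?_,
      fun q hq k => ?_⟩, .inl (tch_one hB)⟩
    · rw [hB.frontier_eq]
      exact fun x hx => h4 hx ▸ p x hx
    · rw [hB.frontier_eq]
      exact fun x _ => h5 x
    · rw [hd q.1 q.2 hq]
      exact b.mapsTo k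
  have d : Disjoint c c' := h.dis hc hc' hcc
  rcases hB'.side (h.crc c hc).tcrc.conn.isPreconnected d with s | d1
  · obtain ⟨R, Θ, k⟩ := WCase_nest hB hB' hi b b' hd p' sB' s
    exact ⟨R, Θ, k.1, .inr k.2⟩
  rcases hB.side (h.crc c' hc').tcrc.conn.isPreconnected d.symm with s | d2
  · obtain ⟨R, Θ, k⟩ := WCase_nest hB' hB hi b' b hd p sB s
    exact ⟨R, Θ, union_comm c' c ▸ k.1, .inr k.2⟩
  have D : Disjoint B B' :=
    ((hB.side (hB'.closure_in ▸ hB'.conn_in.closure) d1.symm).resolve_left fun k =>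
      disjoint_left.1 d2 hz' (k (hB'.sub hz')).1).symm
  obtain ⟨Φ', g1, g2, g3, g4, g5⟩ := WCase_fill hB' hB hi b'
  obtain ⟨Θ, t1, t2, t3⟩ := tp_glue hB.poly hB'.poly h1 g1 fun x hx =>
    (disjoint_left.1 D hx.1 hx.2).elim
  obtain ⟨f1, f2⟩ := tch_two hB hB' D
  refine ⟨B ∪ B', Θ, ⟨hB.poly.union hB'.poly, union_subset sB sB', t1, ?_, ?_, f1.le,
    union_subset_union hB.sub hB'.sub, ?_, ?_, fun q hq k => ?_⟩, .inl f2⟩
  · rintro x (hx | hx) y (hy | hy) k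
    · exact h2 (by rwa [t2 hx, t2 hy] at k)
    · rw [t2 hx, t3 hy] at k
      exact (disjoint_left.1 D (g3 hy) (k ▸ h3 hx)).elim
    · rw [t3 hx, t2 hy] at k
      exact (disjoint_left.1 D (g3 hx) (k ▸ h3 hy)).elim
    · exact g2 (by rwa [t3 hx, t3 hy] at k)
  · rintro x (hx | hx)
    · exact .inr (t2 hx ▸ h3 hx)
    · exact .inl (t3 hx ▸ g3 hx)
  · rw [f1]
    rintro x (hx | hx)
    · rw [t2 (hB.sub hx), h4 hx]
      exact p x hx
    · rw [t3 (hB'.sub hx), g4 hx]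
      exact p' x hx
  · rw [f1]
    rintro x (hx | hx) k
    · rw [t2 hx] at k
      exact .inl (h5 x (k.resolve_left fun k => disjoint_left.1 d1 k (h3 hx)))
    · rw [t3 hx] at k
      exact .inr (g5 x (k.resolve_right fun k => disjoint_left.1 d2 k (g3 hx)))
  · rw [hd q.1 q.2 hq]
    exact k.elim (fun k => .inr (b.mapsTo k)) fun k => .inl (b'.mapsTo k)

end BEp
end
end

-- merged part: Pool.Agent.Work.MP_f0515e_an.D3.WStep
section
/-! Swap lemma: one surgery lowers the number of double curves. -/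

open Set Metric Filter Topology Function BEv
open scoped NNReal

noncomputable section
namespace BEp

variable {N : ℕ} {π : Rn N →L[ℝ] Rn 3} {E U : Set (Rn N)} {X Xin : Set (Rn 2)}
  {G : Rn 2 → Rn N} {𝒞 : Set (Set (Rn 2))}

theorem wstep (hE : Etale π E) (hX : Poly X) (ho : IsOpen Xin) (hs : Xin ⊆ X) (hf : Full Xin)
    (hU : IsOpen U) (h : WGood π E X Xin U G 𝒞) (hne : 𝒞.Nonempty) :
    ∃ G' 𝒞', WGood π E X Xin U G' 𝒞' ∧ WRel X Xin U G G' ∧ 𝒞'.ncard < 𝒞.ncard := by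
  classical
  obtain ⟨𝒯, h𝒯, hn, R, Θ, hr, hc⟩ := wcase hX hf h hne
  have hT : ∀ x ∈ ⋃₀ 𝒯, ∀ᶠ z in 𝓝 x, z ∈ DS X G → z ∈ ⋃₀ 𝒯 := by
    rintro x ⟨C, hC, hx⟩
    filter_upwards [circ_open h.fin (fun C hC => (h.crc C hC).poly.1.isClosed) h.dis (h𝒯 hC) hx]
      with z k hz
    exact ⟨C, hC, k (h.cov ▸ hz)⟩
  obtain ⟨G₂, p2, r2, e1, e2, -, db, fT, op, lo⟩ := wglue hX ho hs h.pre hr hT
  obtain ⟨𝒞₂, f2, n2, c2, d2, k2⟩ := wcirc hX hs h h𝒯 hn hr db fT
  have both : ∀ x y, (x, y) ∈ Dbl X G₂ → x ∈ frontier R → y ∈ frontier R := fun x y hp hx =>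
    (fT y hp.2.1).1 (hr.cl _ ((db x hp.1 y hp.2.1).1 hp) ((fT x hp.1).2 hx))
  have fR : frontier R ⊆ R := hr.poly.1.isClosed.frontier_subset
  obtain ⟨δ, hδ, hp⟩ : ∃ δ : Rn 2 → Rn 3, TP δ ∧ ∀ x y, (x, y) ∈ Dbl X G₂ → x ∈ frontier R →
      y ∈ frontier R → ∃ l, WSep π G₂ x y l ∧ l (δ y) < l (δ x) := by
    rcases hc with hc | hc
    · exact wsign hX ho hs h.pre h.crs hr hc hT e1 e2
    · refine ⟨fun _ => 0, TP.const 0, fun x y hp hx hy => (hc x hx y hy ?_).elim⟩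
      have := (db x hp.1 y hp.2.1).1 hp
      rwa [piecewise_eq_of_mem _ _ _ (fR hx), piecewise_eq_of_mem _ _ _ (fR hy)] at this
  obtain ⟨G₃, i3, r3, d3, l3⟩ := wpush hE hX ho hs hU p2
    (hr.poly.1.of_isClosed_subset isClosed_frontier fR) (fR.trans hr.sub)
    (fun x hx => (e2 x ⟨hs (hr.sub (fR hx)), hx.2⟩).symm ▸ h.pre.u ⟨_, hr.bd x hx⟩) op hδ
    fun x y hp' hx => ⟨both x y hp' hx, hp x y hp' hx (both x y hp' hx)⟩
  have ds : DS X G₃ = DS X G₂ \ frontier R := Set.ext fun x =>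
    ⟨fun ⟨y, k⟩ => ⟨⟨y, ((d3 _).1 k).1⟩, ((d3 _).1 k).2⟩, fun ⟨⟨y, k⟩, k'⟩ => ⟨y, (d3 _).2 ⟨k, k'⟩⟩⟩
  have tr : ∀ x ∈ DS X G₃, G₃ x = G (R.piecewise Θ id x) ∧
      map G₃ (𝓝 x) = map G (𝓝 (R.piecewise Θ id x)) := fun x hx => by
    have k := lo x (p2.ds (ds ▸ hx).1) (ds ▸ hx).2
    exact ⟨(l3 x hx).eq_of_nhds.trans k.1, (map_congr (l3 x hx)).trans k.2⟩
  refine ⟨G₃, 𝒞₂, ⟨⟨i3, fun x hx => p2.ds (ds ▸ hx).1, fun x hx => ?_⟩, f2, c2.trans ds.symm, d2,
    k2, fun ⟨x, y⟩ hq => ?_⟩, r2.trans r3, n2⟩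
  · rw [(l3 x hx).eq_of_nhds]
    exact p2.u (ds ▸ hx).1
  · have t1 := tr x ⟨y, hq⟩
    have t2 := tr y ⟨x, dbl_swap hq⟩
    simpa only [Crx, t1.1, t1.2, t2.1, t2.2] using
      h.crs _ ((db x hq.1 y hq.2.1).1 ((d3 _).1 hq).1)

theorem wind (hE : Etale π E) (hX : Poly X) (ho : IsOpen Xin) (hs : Xin ⊆ X) (hf : Full Xin)
    (hU : IsOpen U) (n : ℕ) : ∀ (G : Rn 2 → Rn N) (𝒞 : Set (Set (Rn 2))), 𝒞.ncard = n →
      WGood π E X Xin U G 𝒞 → ∃ G', Imm E X G' ∧ InjOn G' X ∧ WRel X Xin U G G' := by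
  induction n using Nat.strong_induction_on with
  | _ n ih =>
    intro G 𝒞 hn h
    rcases 𝒞.eq_empty_or_nonempty with rfl | hne
    · refine ⟨G, h.pre.imm, fun x hx y hy e => by_contra fun k => ?_, WRel.refl _ _ _ _⟩
      have : x ∈ DS X G := ⟨y, hx, hy, k, e⟩
      rw [← h.cov, sUnion_empty] at this
      exact this
    · obtain ⟨G₁, 𝒞₁, h1, r1, n1⟩ := wstep hE hX ho hs hf hU h hne
      obtain ⟨G', a, b, c⟩ := ih _ (hn ▸ n1) G₁ 𝒞₁ rfl h1
      exact ⟨G', a, b, r1.trans c⟩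

end BEp
end
end

-- merged part: Pool.Agent.Work.MP_f0515e_an.D3.SW
section
/-! The swap lemma. -/

open Set Metric Filter Topology Function BEv
open scoped NNReal

noncomputable section
namespace BEp

theorem sw {N : ℕ} {π : Rn N →L[ℝ] Rn 3} {E : Set (Rn N)} (hE : Etale π E) {X Xin : Set (Rn 2)}
    (hX : Poly X) (ho : IsOpen Xin) (hs : Xin ⊆ X) (hf : Full Xin) {G : Rn 2 → Rn N}
    (hG : Imm E X G) (hd : DS X G ⊆ Xin) {U : Set (Rn N)} (hU : IsOpen U)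
    (hGU : MapsTo G (DS X G) U) :
    ∃ G' : Rn 2 → Rn N, TP G' ∧ InjOn G' X ∧ MapsTo G' X E ∧ (∀ x ∈ X \ Xin, G' x = G x) ∧
      ∀ x ∈ Xin, G' x ∈ U ∨ G' x ∈ G '' Xin := by
  obtain ⟨G₁, 𝒞, h1, r1⟩ := wgen hE hX ho hs hU ⟨hG, hd, hGU⟩
  obtain ⟨G', a, b, c⟩ := wind hE hX ho hs hf hU _ G₁ 𝒞 rfl h1
  exact ⟨G', a.tp, b, a.mem, (r1.trans c).1, (r1.trans c).2⟩

end BEp
end
end

-- merged part: Pool.Agent.Work.MP_f0515e_an.D3.DeSW
section
/-! TASK DeSW. The swap lemma for a general finite dimensional target: take `e : F ≃L Rn N` from `exists_rn` and apply `sw`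
to `e '' E`, `π ∘ e.symm`, `e ∘ G`, `e '' U`. About 60 lines. -/

open Set Metric Filter Topology Function BEv
open scoped NNReal

noncomputable section
namespace BEp

variable {F : Type} [NormedAddCommGroup F] [NormedSpace ℝ F] [FiniteDimensional ℝ F]

theorem swF {π : F →L[ℝ] Rn 3} {E : Set F} (hE : Etale π E) {X Xin : Set (Rn 2)}
    (hX : Poly X) (ho : IsOpen Xin) (hs : Xin ⊆ X) (hf : Full Xin) {G : Rn 2 → F}
    (hG : Imm E X G) (hd : DS X G ⊆ Xin) {U : Set F} (hU : IsOpen U)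
    (hGU : MapsTo G (DS X G) U) :
    ∃ G' : Rn 2 → F, TP G' ∧ InjOn G' X ∧ MapsTo G' X E ∧ (∀ x ∈ X \ Xin, G' x = G x) ∧
      ∀ x ∈ Xin, G' x ∈ U ∨ G' x ∈ G '' Xin := by
  obtain ⟨N, ⟨e⟩⟩ := exists_rn F
  have hE' : Etale (π.comp (e.symm : Rn N →L[ℝ] F)) (e.symm ⁻¹' E) := fun z hz => by
    obtain ⟨s, h1, h2, h3, h4⟩ := hE _ hz
    refine ⟨fun y => e (s y), (TP.clm (e : F →L[ℝ] Rn N)).comp h1, fun y => ?_, ?_, ?_⟩
    · change π (e.symm (e (s y))) = y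
      rw [e.symm_apply_apply, h2]
    · refine h3.mono fun y hy => ?_
      rwa [mem_preimage, e.symm_apply_apply]
    · have ht : Tendsto e.symm (𝓝[e.symm ⁻¹' E] z) (𝓝[E] (e.symm z)) :=
        e.symm.continuous.continuousWithinAt.tendsto_nhdsWithin fun _ h => h
      refine (ht.eventually h4).mono fun w hw => ?_
      change e (s (π (e.symm w))) = w
      rw [hw, e.apply_symm_apply]
  have hD : DS X (fun x => e (G x)) = DS X G := by
    simp only [DS, Dbl, e.injective.eq_iff]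
  have hG' : Imm (e.symm ⁻¹' E) X fun x => e (G x) :=
    ⟨(TP.clm (e : F →L[ℝ] Rn N)).comp hG.tp,
      fun x hx => by rw [mem_preimage, e.symm_apply_apply]; exact hG.mem hx,
      fun x hx => (hG.loc x hx).imp fun _ h => ⟨h.1, fun _ ha _ hb k => h.2 ha hb (e.injective k)⟩,
      fun x hx y hy z hz k k' => hG.two x hx y hy z hz (e.injective k) (e.injective k')⟩
  obtain ⟨H, h1, h2, h3, h4, h5⟩ := sw hE' hX ho hs hf hG' (hD ▸ hd)
    (hU.preimage e.symm.continuous) (hD ▸ fun x hx => by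
      rw [mem_preimage, e.symm_apply_apply]; exact hGU hx)
  refine ⟨fun x => e.symm (H x), (TP.clm (e.symm : Rn N →L[ℝ] F)).comp h1,
    fun _ ha _ hb k => h2 ha hb (e.symm.injective k), h3,
    fun x hx => e.symm_apply_eq.2 (h4 x hx), fun x hx => (h5 x hx).imp id ?_⟩
  rintro ⟨y, hy, k⟩
  exact ⟨y, hy, e.eq_symm_apply.2 k⟩

end BEp
end
end

-- merged part: Pool.Agent.Work.MP_f0515e_an.D3.DeDown
section
/-! TASK DeDown. Going down one floor. `disc_of_imm`: `swF` with `X = closedBall 0 1`, `Xin = ball 0 (3 / 4)` (`full_ball`), `U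
= {e | e.1 ∈ O ∧ ∀ m, e.1 ∉ Col' m}`, `Ok.etale`. `prj_EE`: `mem_EE`, `prj_sec`, first components of cells of
`L'.S` are in `L.S` (`cov_le`). `down`: `H₀ = prj κ ∘ H'`; local injectivity from `Ok.etale` upstairs (near
`H' x` a point of `EE` is determined by its first component) ; `prj_two`; a double pair `(x, y)` has `(H' x).1
= (H' y).1`, so `out_inj` excludes `3 / 4 ≤ ‖x‖` and `col_inj` (with `thick`) excludes the columns. About 150
lines. -/

open Set Metric Filter Topology Function BEv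
open scoped NNReal

noncomputable section
namespace BEp

namespace TLev
variable {C : Core} {κ : Type} {L : TLev C κ} {σ σ' : κ} {x y : Rn 2} {e e' : FF κ}
  {m : Fin C.nM} {p : Z3}

theorem DeDown_sub {L' : TLev C (κ × ZMod 2)} {c : κ → Fin 3 → Bool → ZMod 2}
    (h2 : L'.K = L.K.cov c) (h3 : ∀ x, (L'.cr x).1 = L.cr x) (h4 : ∀ q ∈ L'.Wc, q.1 ∈ L.Wc) :
    L'.S ⊆ {q | q.1 ∈ L.S} := by
  rintro q ((h | ⟨x, a, h⟩) | ⟨x, a, b, h⟩)
  · exact Or.inl (Or.inl (h4 q h))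
  · exact Or.inl (Or.inr ⟨x, a, h3 x ▸ Cub.cov_le (h2 ▸ h)⟩)
  · exact Or.inr ⟨x, a, b, h3 x ▸ Cub.cov_le (h2 ▸ h)⟩

variable [Fintype κ]

theorem Ok.disc_of_imm (hC : C.Ok) (hL : L.Ok) {H : Rn 2 → FF κ}
    (hi : Imm (L.K.EE L.S) (closedBall 0 1) H)
    (he : ∀ x, 3 / 4 ≤ ‖x‖ → ‖x‖ ≤ 1 → H x = L.G x) (hO : ∀ x, ‖x‖ ≤ 3 / 4 → (H x).1 ∈ C.O)
    (hc : ∀ m, ∃ s : ℝ, |s| = 1 / 2 ∧
      ∀ x, ‖x‖ ≤ 1 → (H x).1 ∈ C.Col' m → (H x).1 (C.k m) = C.c m + s)
    (hd : ∀ x ∈ DS (closedBall 0 1) H, ‖x‖ < 3 / 4 ∧ ∀ m, (H x).1 ∉ C.Col' m) :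
    ∃ H', L.Disc H' := by
  have hU : IsOpen {e : FF κ | e.1 ∈ C.O ∧ ∀ m, e.1 ∉ C.Col' m} := by
    rw [ofPred_and, ofPred_forall]
    exact (hC.op.preimage continuous_fst).inter (isOpen_iInter_of_finite fun m =>
      (hC.cl' m).isOpen_compl.preimage continuous_fst)
  obtain ⟨G, h1, h2, h3, h4, h5⟩ := swF hL.ok.etale (Poly.closedBall 0 1) isOpen_ball
    (ball_subset_closedBall.trans (closedBall_subset_closedBall (by norm_num))) (full_ball (3 / 4))
    hi (fun x hx => mem_ball_zero_iff.mpr (hd x hx).1) hU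
    (fun x hx => ⟨hO x (hd x hx).1.le, (hd x hx).2⟩)
  have h6 : ∀ x, 3 / 4 ≤ ‖x‖ → ‖x‖ ≤ 1 → G x = H x := fun x a b =>
    h4 x ⟨mem_closedBall_zero_iff.mpr b, fun h => (mem_ball_zero_iff.mp h).not_ge a⟩
  refine ⟨G, h1, h2, h3, fun x a b => (h6 x a b).trans (he x a b), fun x hx => ?_, fun m => ?_⟩
  · rcases hx.eq_or_lt with h | h
    · rw [h6 x h.ge (by linarith only [hx])]; exact hO x hx
    · rcases h5 x (mem_ball_zero_iff.mpr h) with k | ⟨y, hy, k⟩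
      · exact k.1
      · rw [← k]; exact hO y (mem_ball_zero_iff.mp hy).le
  · obtain ⟨s, hs, k⟩ := hc m
    refine ⟨s, hs, fun x hx hm => ?_⟩
    rcases le_or_gt (3 / 4) ‖x‖ with h | h
    · rw [h6 x h hx] at hm ⊢; exact k x hx hm
    · rcases h5 x (mem_ball_zero_iff.mpr h) with k' | ⟨y, hy, k'⟩
      · exact absurd hm (k'.2 m)
      · rw [← k'] at hm ⊢
        exact k y (by linarith only [hy, mem_ball_zero_iff.mp hy]) hm

theorem Ok.prj_EE (hL : L.Ok) {L' : TLev C (κ × ZMod 2)} (hL' : L'.Ok) (hc : L.Cov L') :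
    MapsTo (prj κ) (L'.K.EE L'.S) (L.K.EE L.S) := by
  obtain ⟨c, h1, h2, h3, h4⟩ := hc
  intro e he
  obtain ⟨q, hq, y, hy, rfl⟩ := mem_iUnion₂.mp he
  have hq' := DeDown_sub h2 h3 h4 hq
  rw [h2] at hy ⊢
  rw [Cub.prj_sec hL.ok h1 hq' q.2 y]
  exact Cub.sec_mem_EE hq' hy

theorem Ok.prj_G (hL : L.Ok) {L' : TLev C (κ × ZMod 2)} (hc : L.Cov L') (hx : ‖x‖ ≤ 1) :
    prj κ (L'.G x) = L.G x := by
  obtain ⟨c, h1, h2, h3, -⟩ := hc
  have hq := L.cr_mem hx
  rw [G, G, h2, ← h3] at *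
  exact Cub.prj_sec hL.ok h1 hq (L'.cr x).2 _

theorem Ok.down (hC : C.Ok) (hL : L.Ok) {L' : TLev C (κ × ZMod 2)} (hL' : L'.Ok) (hc : L.Cov L')
    {H' : Rn 2 → FF (κ × ZMod 2)} (hH : L'.Disc H') : ∃ H, L.Disc H := by
  have hf : ∀ e, (prj κ e).1 = e.1 := fun _ => rfl
  refine hL.disc_of_imm hC (H := fun x => prj κ (H' x)) ⟨(TP.clm _).comp hH.tp,
    (hL.prj_EE hL' hc).comp hH.mem, fun x hx => ?_, fun x hx y hy z hz k k' => ?_⟩
    (fun x a b => by rw [hH.eq x a b, hL.prj_G hc b]) hH.inO hH.col ?_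
  · obtain ⟨s, -, -, -, hs⟩ := hL'.ok.etale _ (hH.mem hx)
    have := (hH.tp.continuous.continuousWithinAt.tendsto_nhdsWithin hH.mem).eventually hs
    obtain ⟨ε, h0, hε⟩ := Metric.mem_nhdsWithin_iff.mp this
    refine ⟨ε, h0, fun y hy z hz k => hH.inj hy.1 hz.1 ?_⟩
    have k1 : s (H' y).1 = H' y := hε ⟨hy.2, hy.1⟩
    have k2 : s (H' z).1 = H' z := hε ⟨hz.2, hz.1⟩
    rw [← k1, ← k2, ← hf, ← hf (H' z)]
    exact congrArg (fun e : FF κ => s e.1) k
  · obtain ⟨c, h1, h2, h3, h4⟩ := hc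
    have hm : MapsTo H' (closedBall 0 1) ((L.K.cov c).EE {q | q.1 ∈ L.S}) := fun x hx =>
      h2 ▸ L'.K.EE_mono (DeDown_sub h2 h3 h4) (hH.mem hx)
    exact (Cub.prj_two hL.ok h1 (hm hx) (hm hy) (hm hz) k k').imp (hH.inj hx hy)
      (Or.imp (hH.inj hx hz) (hH.inj hy hz))
  · rintro x ⟨y, hx, hy, hne, k⟩
    have k1 : (H' x).1 = (H' y).1 := congrArg (fun e : FF κ => e.1) k
    have hx1 := mem_closedBall_zero_iff.mp hx
    refine ⟨not_le.mp fun a => hne (hH.inj hx hy ?_), fun m hm => hne (hH.inj hx hy ?_)⟩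
    · rw [hH.eq x a hx1] at k1 ⊢
      exact (hL'.out_inj hC a hx1 (hH.mem hy) k1.symm).symm
    · exact hL'.col_inj hC (hH.mem hx) (hH.mem hy) k1
        ((closedBall_subset_closedBall (by norm_num)).trans (hC.thick m _ hm))

end TLev

end BEp
end
end

-- merged part: Pool.Agent.Work.MP_f0515e_an.D3.TbVox
section
/-! The cells of the voxel thickening: pairs of a cell and a sign vector. -/

open Set Function

noncomputable section
namespace BEp

abbrev Sg : Type := Fin 3 → SignType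

def sb (b : Bool) : SignType := if b then 1 else -1

theorem sb_ne (b : Bool) : sb b ≠ 0 := by cases b <;> decide
theorem sb_not (b : Bool) : sb (!b) = -sb b := by cases b <;> decide
theorem sb_int (b : Bool) : (sb b : ℤ) = sgb b := by cases b <;> simp [sb, sgb]
theorem sb_inj {b c : Bool} (h : sb b = sb c) : b = c := by revert b c; decide
theorem ex_sb {a : SignType} (h : a ≠ 0) : ∃ b, sb b = a := by revert a; decide
theorem sg_int (a : SignType) : (a = 0 ∧ (a : ℤ) = 0) ∨ (a = 1 ∧ (a : ℤ) = 1) ∨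
    (a = -1 ∧ (a : ℤ) = -1) := by cases a <;> simp

namespace Cub
variable {κ : Type} (K : Cub κ) (S : Set κ)

/-- The face `τ` of the voxel of `σ`. -/
def cel (σ : κ) (τ : Sg) : κ × Sg :=
  (K.fa σ fun i => K.pos σ i + if Odd (K.pos σ i) then (τ i : ℤ) else 0,
    fun i => if Odd (K.pos σ i) then -τ i else τ i)

def Can (y : κ × Sg) : Prop := y.1 ∈ S ∧ ∀ i, Odd (K.pos y.1 i) → y.2 i = 0

/-- Twice the centre. -/
def dc (y : κ × Sg) : Z3 := fun i => 2 * K.pos y.1 i + y.2 i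

def en (y : κ × Sg) (k : Fin 3) (b : Bool) : κ × Sg := K.cel y.1 (update y.2 k (sb b))

def Ex (s : κ) (a : Sg) : Prop := ∃ σ ∈ S, K.Le s σ ∧ ∀ i, K.pos σ i = K.pos s i + a i

open Classical in
def upc (s : κ) (a : Sg) : κ := if h : K.Ex S s a then h.choose else s

def inn (e : κ × Sg) (k : Fin 3) : κ × Sg := (e.1, update e.2 k 0)

def out (e : κ × Sg) (k : Fin 3) : κ × Sg := (K.upc S e.1 (Pi.single k (e.2 k)), update e.2 k 0)

/-- Boundary cells. -/
def Bc (y : κ × Sg) : Prop := K.Can S y ∧ ¬ K.Ex S y.1 y.2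

variable {K S} {σ σ' τ τ' ρ s : κ} {y y' e g : κ × Sg} {a a' t : Sg} {k : Fin 3} {b : Bool}

theorem le_mid (hK : K.Ok S) (hσ : σ ∈ S) (hs : s ∈ S) (h : K.Le τ σ) (h' : K.Le τ s)
    (hz : LeZ (K.pos s) (K.pos σ)) : K.Le s σ := by
  have a := K.fa_le σ (K.pos s)
  have b := hK.pos_fa hσ hz
  rwa [hK.inj_le (hK.mem.le_mem hσ a) hs (hK.le_of_pos hσ h a (b.symm ▸ hK.le_pos hs h')) h' b] at a

theorem cel_le (hK : K.Ok S) (hσ : σ ∈ S) (t : Sg) : K.Le (K.cel σ t).1 σ ∧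
    ∀ i, K.pos (K.cel σ t).1 i = K.pos σ i + if Odd (K.pos σ i) then (t i : ℤ) else 0 := by
  have := hK.pos_fa hσ (m := fun i => K.pos σ i + if Odd (K.pos σ i) then (t i : ℤ) else 0)
    fun i => by
      have := sg_int (t i)
      by_cases h : Odd (K.pos σ i) <;> simp only [h, if_true, if_false, true_and] <;> omega
  exact ⟨by simp only [cel]; exact K.fa_le _ _, congrFun this⟩

theorem cel_can (hK : K.Ok S) (hσ : σ ∈ S) (t : Sg) : K.Can S (K.cel σ t) := by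
  refine ⟨hK.mem.le_mem hσ (cel_le hK hσ t).1, fun i h => ?_⟩
  rw [(cel_le hK hσ t).2] at h
  have := sg_int (t i)
  simp only [cel]
  split_ifs at h ⊢ with q
  · rw [SignType.neg_eq_zero_iff]
    simp only [Int.odd_iff] at h q
    rcases this with w | w | w
    exacts [w.1, by omega, by omega]
  · exact (q (by simpa using h)).elim

theorem dc_cel (hK : K.Ok S) (hσ : σ ∈ S) (t : Sg) (i : Fin 3) :
    K.dc (K.cel σ t) i = 2 * K.pos σ i + t i := by
  simp only [dc, (cel_le hK hσ t).2]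
  simp only [cel]
  split_ifs <;> simp
  ring

theorem can_ext (h : K.Can S y) (h' : K.Can S y') (e : ∀ i, K.dc y i = K.dc y' i) :
    K.pos y.1 = K.pos y'.1 ∧ y.2 = y'.2 := by
  have key : ∀ i, K.pos y.1 i = K.pos y'.1 i ∧ y.2 i = y'.2 i := fun i => by
    have a := h.2 i
    have b := h'.2 i
    have c := e i
    simp only [dc, Int.odd_iff] at a b c
    rcases sg_int (y.2 i) with ⟨u, v⟩ | ⟨u, v⟩ | ⟨u, v⟩ <;>
    rcases sg_int (y'.2 i) with ⟨u', v'⟩ | ⟨u', v'⟩ | ⟨u', v'⟩ <;>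
    simp only [u, u'] at a b v v' c ⊢ <;> simp at a b c ⊢ <;> omega
  exact ⟨funext fun i => (key i).1, funext fun i => (key i).2⟩

theorem cel_eq (hK : K.Ok S) (hσ : σ ∈ S) (h : K.Can S y) (hl : K.Le y.1 σ)
    (e : ∀ i, K.dc y i = 2 * K.pos σ i + t i) : K.cel σ t = y := by
  obtain ⟨a, b⟩ := can_ext (cel_can hK hσ t) h fun i => (dc_cel hK hσ t i).trans (e i).symm
  exact Prod.ext (hK.le_inj hσ (cel_le hK hσ t).1 hl a) b

theorem cel_self (hK : K.Ok S) (h : K.Can S y) : K.cel y.1 y.2 = y :=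
  cel_eq hK h.1 h (Le.refl K _) fun _ => rfl

theorem en_can (hK : K.Ok S) (h : y.1 ∈ S) (k : Fin 3) (b : Bool) : K.Can S (K.en y k b) :=
  cel_can hK h _

theorem dc_en (hK : K.Ok S) (h : y.1 ∈ S) (hk : y.2 k = 0) (b : Bool) (i : Fin 3) :
    K.dc (K.en y k b) i = K.dc y i + if i = k then (sb b : ℤ) else 0 := by
  rw [en, dc_cel hK h, dc]
  by_cases q : i = k <;> simp [q, hk]

theorem cel_zero (σ : κ) (t : Sg) (i : Fin 3) : (K.cel σ t).2 i = 0 ↔ t i = 0 := by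
  simp only [cel]
  split_ifs <;> simp

theorem en_cel (hK : K.Ok S) (hσ : σ ∈ S) (hk : t k = 0) (b : Bool) :
    K.en (K.cel σ t) k b = K.cel σ (update t k (sb b)) := by
  have c := cel_can hK hσ t
  refine (cel_eq hK hσ (en_can hK c.1 k b) ((cel_le hK c.1 _).1.trans (cel_le hK hσ t).1)
    fun i => ?_).symm
  rw [dc_en hK c.1 ((cel_zero ..).2 hk), dc_cel hK hσ]
  by_cases q : i = k <;> simp [q, hk]

theorem en_zero (y : κ × Sg) (k : Fin 3) (b : Bool) (i : Fin 3) :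
    (K.en y k b).2 i = 0 ↔ i ≠ k ∧ y.2 i = 0 := by
  rw [en, cel_zero]
  by_cases q : i = k <;> simp [q, sb_ne]

theorem en_comm (hK : K.Ok S) (h : y.1 ∈ S) {i j : Fin 3} (hij : i ≠ j) (hi : y.2 i = 0)
    (hj : y.2 j = 0) (b c : Bool) : K.en (K.en y i b) j c = K.en (K.en y j c) i b := by
  rw [en.eq_1 K y, en.eq_1 K y, en_cel hK h (by simp [hij.symm, hj]), en_cel hK h (by simp [hij, hi]),
    update_comm hij]

theorem ex_down (hK : K.Ok S) (h : K.Ex S s a) (ha : ∀ i, a' i = a i ∨ a' i = 0) :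
    K.Ex S s a' := by
  obtain ⟨σ, hσ, l, p⟩ := h
  have z := hK.le_pos hσ l
  have u := K.fa_le σ fun i => K.pos s i + a' i
  have v := hK.pos_fa hσ (m := fun i => K.pos s i + a' i) fun i => by
    rcases ha i with q | q
    · exact Or.inl (by simp only [q, p])
    · simpa [q] using z i
  refine ⟨_, hK.mem.le_mem hσ u, hK.le_of_pos hσ l u fun i => ?_, congrFun v⟩
  rw [v]
  rcases ha i with q | q
  · simpa only [q, ← p] using z i
  · simp [q]

theorem ex_cel (hK : K.Ok S) (hσ : σ ∈ S) (t : Sg) : K.Ex S (K.cel σ t).1 (K.cel σ t).2 ↔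
    K.Ex S σ fun i => if Odd (K.pos σ i) then 0 else t i := by
  obtain ⟨l, p⟩ := cel_le hK hσ t
  have key : ∀ i, K.pos (K.cel σ t).1 i + (K.cel σ t).2 i =
      K.pos σ i + (if Odd (K.pos σ i) then 0 else t i : SignType) := fun i => by
    rw [p]; simp only [cel]; split_ifs <;> simp
  simp only [Ex, key]
  refine exists_congr fun ρ => and_congr_right fun hρ => and_congr_left fun q =>
    ⟨fun u => le_mid hK hρ hσ u l fun i => ?_, l.trans⟩
  have := hK.le_pos hρ u i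
  rw [p] at this
  have w := q i
  split_ifs at this w with o
  · exact Or.inl (by simpa using w.symm)
  · simpa using this

theorem Bc.en (hK : K.Ok S) (h : K.Bc S y) (hk : y.2 k = 0) (b : Bool) : K.Bc S (K.en y k b) := by
  refine ⟨en_can hK h.1.1 k b, fun q => h.2 (ex_down hK ((ex_cel hK h.1.1 _).1 q) fun i => ?_)⟩
  by_cases o : Odd (K.pos y.1 i)
  · exact Or.inr (h.1.2 i o)
  · by_cases w : i = k
    exacts [Or.inr (w ▸ hk), Or.inl (by simp [o, w])]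

theorem upc_spec (h : K.Ex S s a) : K.upc S s a ∈ S ∧ K.Le s (K.upc S s a) ∧
    ∀ i, K.pos (K.upc S s a) i = K.pos s i + a i := by
  rw [upc, dif_pos h]; exact h.choose_spec

theorem upc_eq (hK : K.Ok S) (hσ : σ ∈ S) (l : K.Le s σ) (p : ∀ i, K.pos σ i = K.pos s i + a i) :
    K.upc S s a = σ :=
  let ⟨u, v, w⟩ := upc_spec ⟨σ, hσ, l, p⟩
  hK.inj_le u hσ v l (funext fun i => (w i).trans (p i).symm)

theorem inn_can (h : K.Can S e) (k : Fin 3) : K.Can S (inn e k) := ⟨h.1, fun i o => by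
  by_cases q : i = k <;> simp [inn, q, h.2 i o]⟩

theorem out_can (h : K.Can S e) (hx : K.Ex S e.1 (Pi.single k (e.2 k))) :
    K.Can S (K.out S e k) := ⟨(upc_spec hx).1, fun i o => by
  by_cases q : i = k
  · simp [out, q]
  · simp only [out, (upc_spec hx).2.2] at o
    simpa [out, q] using h.2 i (by simpa [q] using o)⟩

/-- The cells having a given facet. -/
theorem en_iff (hK : K.Ok S) (he : K.Can S e) : (K.Can S g ∧ g.2 k = 0 ∧ K.en g k b = e) ↔
    (sb b = e.2 k ∧ g = inn e k) ∨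
      (sb b = -e.2 k ∧ K.Ex S e.1 (Pi.single k (e.2 k)) ∧ g = K.out S e k) := by
  constructor
  · rintro ⟨c, z, rfl⟩
    obtain ⟨l, p⟩ := cel_le hK c.1 (update g.2 k (sb b))
    have u : update (K.en g k b).2 k 0 = g.2 := by
      ext i
      by_cases q : i = k
      · simp [q, z]
      · by_cases o : Odd (K.pos g.1 i) <;> simp [en, cel, q, o, c.2 i]
    by_cases o : Odd (K.pos g.1 k)
    · have p' : ∀ i, K.pos g.1 i = K.pos (K.en g k b).1 i +
          (Pi.single k ((K.en g k b).2 k) : Sg) i := fun i => by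
        rw [en, p]
        by_cases q : i = k
        · simp [q, cel, o]
        · by_cases o' : Odd (K.pos g.1 i) <;> simp [q, o', c.2 i]
      exact Or.inr ⟨by simp [en, cel, o], ⟨_, c.1, l, p'⟩, Prod.ext (upc_eq hK c.1 l p').symm u.symm⟩
    · refine Or.inl ⟨by simp [en, cel, o], Prod.ext (hK.le_inj c.1 (Le.refl K _) l ?_) u.symm⟩
      ext i
      refine Eq.trans ?_ (p i).symm
      by_cases q : i = k
      · simp [q, o]
      · by_cases o' : Odd (K.pos g.1 i) <;> simp [q, o', c.2 i]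
  · rintro (⟨q, rfl⟩ | ⟨q, x, rfl⟩)
    · exact ⟨inn_can he k, by simp [inn], by simpa [en, inn, q] using cel_self hK he⟩
    · obtain ⟨u, v, w⟩ := upc_spec x
      refine ⟨out_can he x, by simp [out], cel_eq hK u he v fun i => ?_⟩
      simp only [out, w, dc, q]
      by_cases z : i = k <;> simp [z]
      ring

end Cub
end BEp
end
end

-- merged part: Pool.Agent.Work.MP_f0515e_an.D3.TbStar
section
/-! Unit balls of planar gauges are discs; the zero set of a homogeneous function which increases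
with slope one in a direction is a cone over a circle. -/

open Set Metric Filter Topology Function BEv

noncomputable section
namespace BEp

theorem gauge_of_pos {n : ℕ} {r : Rn n → ℝ} (h1 : TP r) (h2 : ∀ ξ (t : ℝ), 0 ≤ t → r (t • ξ) = t * r ξ)
    (h3 : ∀ ξ, ξ ≠ 0 → 0 < r ξ) : Gauge r := by
  refine ⟨h1, h2, ?_⟩
  obtain ⟨κ, k0, hk⟩ := (isCompact_sphere (0 : Rn n) 1).exists_forall_le' h1.continuous.continuousOn
    (a := 0) fun ξ hξ => h3 ξ fun e => by simp [e] at hξ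
  refine ⟨κ, k0, fun ξ => ?_⟩
  by_cases e : ξ = 0
  · simpa [e] using (h2 0 0 le_rfl).ge
  · have p := norm_pos_iff.2 e
    have := hk (‖ξ‖⁻¹ • ξ) (by simp [norm_smul, p.ne'])
    rw [h2 _ _ (inv_pos.2 p).le, le_inv_mul_iff₀ p] at this
    linarith

theorem gauge_ball2 {r : Rn 2 → ℝ} (hr : Gauge r) : Ball {x | r x ≤ 1} {x | r x = 1} := by
  obtain ⟨κ, k0, hk⟩ := hr.low
  have pos : ∀ ξ : Rn 2, ξ ≠ 0 → 0 < r ξ := fun ξ e =>
    (mul_pos k0 (norm_pos_iff.2 e)).trans_le (hk ξ)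
  have p1 : ∀ ξ ∈ sphere (0 : Rn 2) 1, 0 < r ξ := fun ξ hξ => pos ξ fun e => by simp [e] at hξ
  have c : Crc {x | r x = 1} := by
    refine crc_of_tcrc ?_ ?_
    · convert poly_zero (hr.tp.sub (TP.const 1)) κ⁻¹ using 1
      ext x
      refine ⟨fun h => ⟨?_, sub_eq_zero.2 h⟩, fun h => sub_eq_zero.1 h.2⟩
      rw [← one_mul κ⁻¹, le_mul_inv_iff₀ k0, mul_comm]
      exact (hk x).trans h.le
    · convert (crc_sq 0 one_pos).tcrc.image (g := fun ξ => (r ξ)⁻¹ • ξ)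
        ((hr.tp.continuous.continuousOn.inv₀ fun ξ h => (p1 ξ h).ne').smul continuousOn_id)
        fun ξ h η h' e => ?_ using 1
      · ext x
        constructor
        · intro h
          have e : x ≠ 0 := fun e => by
            have := hr.hom 0 0 le_rfl
            simp only [e, mem_ofPred_eq] at h
            simp [h] at this
          have p := norm_pos_iff.2 e
          refine ⟨‖x‖⁻¹ • x, by simp [norm_smul, p.ne'], ?_⟩
          simp only [hr.hom _ _ (inv_pos.2 p).le, show r x = 1 from h, mul_one, inv_inv, smul_smul,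
            mul_inv_cancel₀ p.ne', one_smul]
        · rintro ⟨ξ, h, rfl⟩
          exact (hr.hom _ _ (inv_pos.2 (p1 ξ h)).le).trans (inv_mul_cancel₀ (p1 ξ h).ne')
      · have q := congrArg norm e
        simp only [norm_smul, mem_sphere_zero_iff_norm.1 h, mem_sphere_zero_iff_norm.1 h', mul_one,
          Real.norm_of_nonneg (inv_pos.2 (p1 ξ h)).le,
          Real.norm_of_nonneg (inv_pos.2 (p1 η h')).le] at q
        simp only [q] at e
        exact smul_right_injective _ (inv_pos.2 (p1 η h')).ne' e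
  obtain ⟨g, g1, g2⟩ := crc_bij (crc_sq 0 one_pos) c
  obtain ⟨Φ, f1, f2, -⟩ := fill_cone gauge_norm hr g1 (by convert g2 using 1; ext; simp)
  have key : ∀ P : ℝ → Prop, Φ '' {x | P ‖x‖} = {x | P (r x)} := fun P => by
    ext x
    exact ⟨by rintro ⟨y, h, rfl⟩; simpa [f2] using h,
      fun h => ⟨_, by simpa [← f2, f1.ri] using h, f1.ri x⟩⟩
  refine ⟨Φ, f1, ?_, ?_⟩
  · convert key (· ≤ 1) using 2; ext; simp
  · convert key (· = 1) using 2; ext; simp

theorem cone_disc {m : Rn 3 → ℝ} (h1 : TP m) (h2 : ∀ ξ (t : ℝ), 0 ≤ t → m (t • ξ) = t * m ξ)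
    {w : Rn 3} (hw : w 2 ≠ 0) (h3 : ∀ ξ (t : ℝ), m (ξ + t • w) = m ξ + t) :
    PDsc {y | m y = 0 ∧ ‖y‖ ≤ 1} {y | m y = 0 ∧ ‖y‖ = 1} := by
  let ψ : Rn 2 → Rn 3 := fun a => mk3 a 0 + (-m (mk3 a 0)) • w
  have t0 : TP fun a : Rn 2 => mk3 a 0 := TP.id'.mk3 (TP.const 0)
  have t1 : TP ψ := t0.add ((h1.comp t0).neg.smul_const w)
  have hom : ∀ a (t : ℝ), 0 ≤ t → ψ (t • a) = t • ψ a := fun a t ht => by
    have : mk3 (t • a) 0 = t • mk3 a 0 := by rw [← mk3_smul, mul_zero]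
    simp only [ψ, this, h2 _ _ ht, smul_add, smul_smul, mul_neg]
  have inj : Injective ψ := fun a b e => by
    have q := congrFun e 2
    simp only [ψ, Pi.add_apply, mk3_2, Pi.smul_apply, smul_eq_mul, zero_add] at q
    simp only [ψ, mul_right_cancel₀ hw q, add_left_inj] at e
    simpa using congrArg pj3 e
  have rg : ∀ y, m y = 0 ↔ ∃ a, ψ a = y := fun y => by
    constructor
    · intro h
      have e : mk3 (pj3 (y + (-(y 2 / w 2)) • w)) 0 = y + (-(y 2 / w 2)) • w := by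
        ext i; fin_cases i <;> simp
        field_simp; ring
      exact ⟨pj3 (y + (-(y 2 / w 2)) • w), by simp only [ψ, e, h3, h]; simp⟩
    · rintro ⟨a, rfl⟩
      simp only [ψ, h3, add_neg_cancel]
  have G : Gauge fun a => ‖ψ a‖ := gauge_of_pos t1.norm_pi
    (fun a t ht => by rw [hom a t ht, norm_smul, Real.norm_of_nonneg ht]) fun a ha =>
      norm_pos_iff.2 fun e => ha (inj (e.trans (by simpa using (hom 0 0 le_rfl).symm)))
  have key : ∀ P : ℝ → Prop, {y | m y = 0 ∧ P ‖y‖} = ψ '' {a | P ‖ψ a‖} := fun P => by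
    ext y
    simp only [rg, mem_ofPred_eq, mem_image]
    exact ⟨by rintro ⟨⟨a, rfl⟩, h⟩; exact ⟨a, h, rfl⟩, by rintro ⟨a, h, rfl⟩; exact ⟨⟨a, rfl⟩, h⟩⟩
  rw [key (· ≤ 1), key (· = 1)]
  exact (gauge_ball2 G).cel.image t1 inj.injOn

end BEp
end
end

-- merged part: Pool.Agent.Work.MP_f0515e_an.D3.TbGeo1
section
/-! The boundary surface near the centre of a voxel cell. -/

open Set Metric Filter Topology Function BEv

noncomputable section
namespace BEp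

theorem exists_minmax (D : Finset (Fin 3) → Prop) (h0 : D ∅) (h1 : ¬ D Finset.univ) (w : Rn 3) :
    ∃ m : Rn 3 → ℝ, TP m ∧ ∀ u t, m u ≤ t ↔ ∃ A, D A ∧ ∀ i, i ∉ A → w i * u i ≤ t := by
  classical
  have a : ∀ B : Finset (Fin 3), B.Nonempty →
      ∃ m : Rn 3 → ℝ, TP m ∧ ∀ u t, m u ≤ t ↔ ∀ i ∈ B, w i * u i ≤ t := fun B hB => by
    induction hB using Finset.Nonempty.cons_induction with
    | singleton i => exact ⟨_, (TP.id'.apply i).const_mul (w i), by simp⟩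
    | cons i B hi _ ih =>
      obtain ⟨m, m1, m2⟩ := ih
      exact ⟨_, ((TP.id'.apply i).const_mul (w i)).max m1, by simp [m2]⟩
  have b : ∀ 𝒟 : Finset (Finset (Fin 3)), 𝒟.Nonempty → Finset.univ ∉ 𝒟 →
      ∃ m : Rn 3 → ℝ, TP m ∧ ∀ u t, m u ≤ t ↔ ∃ A ∈ 𝒟, ∀ i, i ∉ A → w i * u i ≤ t := by
    intro 𝒟 h hu
    have c : ∀ A : Finset (Fin 3), A ≠ Finset.univ → Aᶜ.Nonempty := fun A hA => by
      rwa [Finset.nonempty_iff_ne_empty, ne_eq, Finset.compl_eq_empty_iff]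
    induction h using Finset.Nonempty.cons_induction with
    | singleton A =>
      obtain ⟨m, m1, m2⟩ := a Aᶜ (c A fun q => hu (by simp [q]))
      exact ⟨m, m1, by simp [m2]⟩
    | cons A B hi _ ih =>
      obtain ⟨m, m1, m2⟩ := a Aᶜ (c A fun q => hu (by simp [q]))
      obtain ⟨m', m3, m4⟩ := ih fun q => hu (by simp [q])
      exact ⟨_, m1.min m3, by simp [m2, m4]⟩
  simpa using b (Finset.univ.filter D) ⟨∅, by simpa⟩ (by simpa)

theorem minmax_disc (D : Finset (Fin 3) → Prop) (h0 : D ∅) (h1 : ¬ D Finset.univ) {w : Rn 3}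
    (hw : ∀ i, w i * w i = 1) : ∃ Z : Set (Rn 3), PDsc {y ∈ Z | ‖y‖ ≤ 1} {y ∈ Z | ‖y‖ = 1} ∧
      ∀ u, u ∈ Z ↔ (∃ A, D A ∧ ∀ i, i ∉ A → w i * u i ≤ 0) ∧
        ¬ ∃ A, D A ∧ ∀ i, i ∉ A → w i * u i < 0 := by
  obtain ⟨m, m1, m2⟩ := exists_minmax D h0 h1 w
  have ne : ∀ A, D A → ∃ i, i ∉ A := fun A hA => by
    by_contra! q
    exact h1 (Finset.eq_univ_of_forall q ▸ hA)
  refine ⟨{y | m y = 0}, cone_disc m1 (fun ξ t ht => eq_of_forall_ge_iff fun r => ?_) (w := w)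
    (fun q => by simpa [q] using hw 2) fun ξ t => eq_of_forall_ge_iff fun r => ?_, fun u => ?_⟩
  · rcases ht.eq_or_lt with rfl | ht
    · simp only [m2, Pi.smul_apply, smul_eq_mul, zero_mul, mul_zero]
      exact ⟨fun ⟨A, a, b⟩ => let ⟨i, q⟩ := ne A a; b i q, fun q => ⟨∅, h0, fun _ _ => q⟩⟩
    · simp only [← le_div_iff₀' ht, m2, Pi.smul_apply, smul_eq_mul, mul_left_comm (w _) t]
  · simp only [← le_sub_iff_add_le, m2, Pi.add_apply, Pi.smul_apply, smul_eq_mul, mul_add,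
      mul_left_comm (w _) t, hw, mul_one]
  · rw [← m2, mem_ofPred_eq, le_antisymm_iff, ← not_lt (a := m u)]
    refine and_congr_right fun _ => not_congr ⟨fun q => ?_, fun ⟨A, a, b⟩ => ?_⟩
    · obtain ⟨A, a, b⟩ := (m2 u _).1 le_rfl
      exact ⟨A, a, fun i hi => (b i hi).trans_lt q⟩
    · obtain ⟨i, hi⟩ := ne A a
      obtain ⟨j, hj, q⟩ := Aᶜ.exists_max_image (fun i => w i * u i) ⟨i, by simpa⟩
      exact ((m2 u _).2 ⟨A, a, fun i hi => q i (by simpa)⟩).trans_lt (b j (by simpa using hj))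

theorem sg_real (a : SignType) : (a = 0 ∧ (a : ℤ) = 0 ∧ (a : ℝ) = 0) ∨
    (a = 1 ∧ (a : ℤ) = 1 ∧ (a : ℝ) = 1) ∨ (a = -1 ∧ (a : ℤ) = -1 ∧ (a : ℝ) = -1) := by
  cases a <;> simp

/-- Restriction of a sign vector. -/
def res (a : Sg) (A : Finset (Fin 3)) : Sg := fun i => if i ∈ A then a i else 0

/-- Outward direction. -/
def wd (a : Sg) : Rn 3 := fun i => if a i = 0 then 1 else a i

theorem wd_sq (a : Sg) (i : Fin 3) : wd a i * wd a i = 1 := by
  unfold wd; cases a i <;> simp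

namespace Cub
variable {κ : Type} {K : Cub κ} {S : Set κ} {y y' : κ × Sg} {p : Rn 3} {s s' : κ} {x : FF κ}

def ctr (K : Cub κ) (y : κ × Sg) : Rn 3 := fun i => (K.dc y i : ℝ) / 2

theorem ctr_eq (y : κ × Sg) (i : Fin 3) : K.ctr y i = K.pos y.1 i + (y.2 i : ℝ) / 2 := by
  simp only [ctr, dc]
  cases y.2 i <;> simp <;> ring

theorem near_ctr (h : ‖p - K.ctr y‖ < 3 / 8) (i : Fin 3) :
    |p i - K.pos y.1 i - (y.2 i : ℝ) / 2| < 3 / 8 := by
  simpa [ctr_eq, sub_sub] using (norm_le_pi_norm _ i).trans_lt h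

theorem ctr_stz (h : ‖p - K.ctr y‖ < 3 / 8) : p ∈ stz (K.pos y.1) := fun i => by
  have := abs_lt.1 (near_ctr h i)
  have := sg_real (y.2 i)
  split_ifs <;> rw [abs_lt] <;> grind

theorem sec_le (hK : K.Ok S) (hs : s ∈ S) (hs' : s' ∈ S) (h : p ∈ stz (K.pos s))
    (h' : p ∈ stz (K.pos s')) (e : K.sec s p = K.sec s' p) (hz : LeZ (K.pos s) (K.pos s')) :
    K.Le s s' :=
  le_mid hK hs' hs (hK.sec_inj hs hs' h h' e ▸ K.fa_le _ _) (K.fa_le s (car p)) hz

theorem vv_loc (hK : K.Ok S) (hy : K.Can S y) (h : ‖p - K.ctr y‖ < 3 / 8) :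
    K.sec y.1 p ∈ K.VV S ↔
      ∃ A, K.Ex S y.1 (res y.2 A) ∧ ∀ i, i ∉ A → wd y.2 i * (p - K.ctr y) i ≤ 0 := by
  rw [mem_VV']
  have n := fun i => abs_lt.1 (near_ctr h i)
  constructor
  · rintro ⟨σ, hσ, b, e⟩
    have q : ∀ i, |p i - K.pos σ i| ≤ 1 / 2 := fun i =>
      (norm_le_pi_norm (p - zr (K.pos σ)) i).trans (mem_closedBall_iff_norm.1 b)
    have r : ∀ i, K.pos σ i = K.pos y.1 i ∨ K.pos σ i = K.pos y.1 i + y.2 i := fun i => by
      have a := abs_le.1 (q i)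
      have c := n i
      have u : ∀ z w : ℤ, (z : ℝ) < w → z < w := fun z w => Int.cast_lt.1
      have u1 := u (2 * K.pos σ i) (2 * K.pos y.1 i + y.2 i + 2)
      have u2 := u (2 * K.pos y.1 i + y.2 i) (2 * K.pos σ i + 2)
      rcases sg_real (y.2 i) with ⟨-, v, w⟩ | ⟨-, v, w⟩ | ⟨-, v, w⟩ <;>
        simp only [v, w] at c u1 u2 ⊢ <;> have := u1 (by push_cast; linarith only [a, c]) <;>
        have := u2 (by push_cast; linarith only [a, c]) <;> omega
    refine ⟨Finset.univ.filter fun i => K.pos σ i = K.pos y.1 i + y.2 i, ⟨σ, hσ,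
      sec_le hK hy.1 hσ (ctr_stz h) (vox_sub_stz _ b) e.symm fun i => ?_, fun i => ?_⟩, fun i hi => ?_⟩
    · have a := hy.2 i
      have c := r i
      simp only [Int.odd_iff] at a ⊢
      rcases sg_int (y.2 i) with ⟨v, w⟩ | ⟨v, w⟩ | ⟨v, w⟩ <;> simp [v] at a c <;> omega
    · have := r i
      simp only [res, Finset.mem_filter, Finset.mem_univ, true_and]
      split_ifs with w
      exacts [w, by simpa using this.resolve_right w]
    · simp only [Finset.mem_filter, Finset.mem_univ, true_and] at hi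
      have a := abs_le.1 (q i)
      rw [(r i).resolve_right hi] at a hi
      simp only [wd, Pi.sub_apply, ctr_eq]
      rcases sg_real (y.2 i) with ⟨v, w, -⟩ | ⟨v, -, w⟩ | ⟨v, -, w⟩
      · simp [w] at hi
      all_goals simp [v]; linarith only [a]
  · rintro ⟨A, ex, hA⟩
    obtain ⟨σ, hσ, l, q⟩ := ex_down hK ex
      (a' := res y.2 (A.filter fun i => 0 ≤ wd y.2 i * (p - K.ctr y) i)) fun i => by
        simp only [res, Finset.mem_filter]; grind
    refine ⟨σ, hσ, mem_closedBall_iff_norm.2 ((pi_norm_le_iff_of_nonneg (by norm_num)).2 fun i => ?_),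
      (hK.sec_eq hσ l (ctr_stz h)).symm⟩
    have a := hA i
    have c := n i
    simp only [sec_fst, Pi.sub_apply, zr, q, res, Finset.mem_filter, Real.norm_eq_abs, abs_le, wd,
      ctr_eq] at a ⊢
    rcases sg_real (y.2 i) with ⟨v, -, w⟩ | ⟨v, -, w⟩ | ⟨v, -, w⟩ <;> simp only [w] at c <;>
      split_ifs <;> simp [v] at * <;> grind

variable [Fintype κ]

theorem bd_loc (hK : K.Ok S) (hy : K.Can S y) (h : ‖p - K.ctr y‖ < 3 / 8) :
    K.sec y.1 p ∈ K.Bd S ↔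
      (∃ A, K.Ex S y.1 (res y.2 A) ∧ ∀ i, i ∉ A → wd y.2 i * (p - K.ctr y) i ≤ 0) ∧
      ¬ ∃ A, K.Ex S y.1 (res y.2 A) ∧ ∀ i, i ∉ A → wd y.2 i * (p - K.ctr y) i < 0 := by
  rw [hK.bd_iff hy.1 (ctr_stz h), vv_loc hK hy h]
  have ev : ∀ᶠ q in 𝓝 p, ‖q - K.ctr y‖ < 3 / 8 :=
    (by fun_prop : Continuous fun q : Rn 3 => ‖q - K.ctr y‖).continuousAt.eventually_lt
      continuousAt_const h
  refine and_congr_right fun _ => ⟨fun fr ⟨A, a, b⟩ => fr ?_, fun hn => ?_⟩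
  · have : ∀ᶠ q in 𝓝 p, ∀ i, i ∉ A → wd y.2 i * (q - K.ctr y) i < 0 :=
      eventually_all.2 fun i => eventually_imp_distrib_left.2 fun hi =>
        (by fun_prop : Continuous fun q : Rn 3 =>
          wd y.2 i * (q - K.ctr y) i).continuousAt.eventually_lt continuousAt_const (b i hi)
    filter_upwards [ev, this] with q u v
    exact not_not.2 ((vv_loc hK hy u).2 ⟨A, a, fun i hi => (v i hi).le⟩)
  · have T : Tendsto (fun t : ℝ => p + t • wd y.2) (𝓝[>] 0) (𝓝 p) :=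
      ((by fun_prop : Continuous fun t : ℝ => p + t • wd y.2).tendsto' 0 p
        (by simp)).mono_left nhdsWithin_le_nhds
    refine T.frequently (Eventually.frequently ?_)
    filter_upwards [T.eventually ev, self_mem_nhdsWithin] with t u v q
    obtain ⟨A, a, b⟩ := (vv_loc hK hy u).1 q
    refine hn ⟨A, a, fun i hi => ?_⟩
    have := b i hi
    have w := wd_sq y.2 i
    simp only [Pi.sub_apply, Pi.add_apply, Pi.smul_apply, smul_eq_mul, mem_Ioi] at this v ⊢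
    linarith only [this, v, w, Mathlib.Tactic.Linarith.zero_mul_eq (sub_eq_zero_of_eq w) (Mathlib.Tactic.Linarith.sub_neg_of_lt v)]

end Cub
end BEp
end
end

-- merged part: Pool.Agent.Work.MP_f0515e_an.D3.TbHom1
section
/-! Incidence numbers of the voxel complex; closed cochains on its edges are exact. -/

open Function Finset

noncomputable section
namespace BEp

theorem two2 (x : ZMod 2) : x + x = 0 := by revert x; decide

theorem sum3 {A : Type} [AddCommMonoid A] (f : Fin 3 → A) (k : Fin 3) :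
    ∑ i, f i = f k + f (k + 1) + f (k + 2) := by
  rw [Fin.sum_univ_three]
  fin_cases k
  · rfl
  · change _ = f 1 + f 2 + f 0; abel
  · change _ = f 2 + f 0 + f 1; abel

theorem dual_range {α β : Type} [Fintype α] [Fintype β] (M : α → β → ZMod 2) (z : α → ZMod 2)
    (h : ∀ ω : α → ZMod 2, (∀ g, ∑ e, ω e * M e g = 0) → ∑ e, ω e * z e = 0) :
    ∃ B : β → ZMod 2, ∀ e, z e = ∑ g, M e g * B g := by
  classical
  have : Fact (Nat.Prime 2) := ⟨Nat.prime_two⟩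
  by_contra hn
  have : z ∉ LinearMap.range (Matrix.mulVecLin (Matrix.of M)) := fun ⟨B, q⟩ =>
    hn ⟨B, fun e => (congrFun q e).symm⟩
  obtain ⟨f, f1, f2⟩ := Submodule.exists_le_ker_of_notMem this
  have key : ∀ x, f x = ∑ e, f (fun j => if e = j then 1 else 0) * x e := fun x => by
    rw [LinearMap.pi_apply_eq_sum_univ]
    simp only [smul_eq_mul, mul_comm]
  refine f1 ((key z).trans (h _ fun g => (key fun e => M e g).symm.trans (f2 ⟨Pi.single g 1, ?_⟩)))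
  ext e
  simp

theorem cube_pot (w : Fin 3 → (Fin 3 → Bool) → ZMod 2)
    (h1 : ∀ k β b, w k (update β k b) = w k β)
    (h2 : ∀ k β, w (k + 1) (update β (k + 2) true) + w (k + 1) (update β (k + 2) false) +
      (w (k + 2) (update β (k + 1) true) + w (k + 2) (update β (k + 1) false)) = 0) :
    ∃ ψ : (Fin 3 → Bool) → ZMod 2, ∀ k β, w k β = ψ (update β k true) + ψ (update β k false) := by
  have u0 : ∀ a b c d : Bool, update ![a, b, c] 0 d = ![d, b, c] := fun a b c d => by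
    ext i; fin_cases i <;> rfl
  have u1 : ∀ a b c d : Bool, update ![a, b, c] 1 d = ![a, d, c] := fun a b c d => by
    ext i; fin_cases i <;> rfl
  have u2 : ∀ a b c d : Bool, update ![a, b, c] 2 d = ![a, b, d] := fun a b c d => by
    ext i; fin_cases i <;> rfl
  refine ⟨fun β => (if β 0 then w 0 ![false, false, false] else 0) +
    (if β 1 then w 1 ![β 0, false, false] else 0) + if β 2 then w 2 ![β 0, β 1, false] else 0,
    fun k β => ?_⟩
  obtain ⟨a, b, c, rfl⟩ : ∃ a b c, β = ![a, b, c] := ⟨β 0, β 1, β 2, by ext i; fin_cases i <;> rfl⟩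
  have a0 : ∀ a b c, w 0 ![a, b, c] = w 0 ![false, b, c] := fun a b c => by rw [← h1 0 _ false, u0]
  have a1 : ∀ a b c, w 1 ![a, b, c] = w 1 ![a, false, c] := fun a b c => by rw [← h1 1 _ false, u1]
  have a2 : ∀ a b c, w 2 ![a, b, c] = w 2 ![a, b, false] := fun a b c => by rw [← h1 2 _ false, u2]
  have b0 := fun a => h2 0 ![a, false, false]
  have b1 := fun a => h2 1 ![false, a, false]
  have b2 := fun a => h2 2 ![false, false, a]
  simp only [zero_add, show (1 + 1 : Fin 3) = 2 from rfl, show (1 + 2 : Fin 3) = 0 from rfl,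
    show (2 + 1 : Fin 3) = 0 from rfl, show (2 + 2 : Fin 3) = 1 from rfl, u0, u1, u2] at b0 b1 b2
  have c0 := b0 true
  have c1 := b0 false
  have c2 := b1 true
  have c3 := b1 false
  have c4 := b2 true
  have c5 := b2 false
  rw [a0 false true true] at *
  rw [a1 true false true] at *
  fin_cases k <;> cases a <;> cases b <;> cases c <;>
    simp only [Fin.zero_eta, Fin.mk_one, Fin.reduceFinMk, u0, u1, u2, a0 true, a1 _ true, a2 _ _ true] at * <;>
    simp <;> grind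

namespace Cub
variable {κ : Type} [Fintype κ] {K : Cub κ} {S : Set κ} {e g : κ × Sg}

open Classical in
/-- Incidence number of `e` as a facet of `g`. -/
def ic (K : Cub κ) (S : Set κ) (e g : κ × Sg) : ZMod 2 :=
  ∑ k, ∑ b, if K.Can S g ∧ g.2 k = 0 ∧ K.en g k b = e then 1 else 0

open Classical in
theorem sum_ic1 (hg : K.Can S g) (ω : κ × Sg → ZMod 2) : ∑ e, ω e * K.ic S e g =
    ∑ k, if g.2 k = 0 then ω (K.en g k true) + ω (K.en g k false) else 0 := by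
  simp only [ic, mul_sum]
  rw [sum_comm]
  refine sum_congr rfl fun k _ => ?_
  rw [sum_comm]
  by_cases q : g.2 k = 0 <;> simp [hg, q]

open Classical in
theorem sum_ic2 (hK : K.Ok S) (he : K.Can S e) (B : κ × Sg → ZMod 2) : ∑ g, K.ic S e g * B g =
    ∑ k, if e.2 k = 0 then 0 else B (inn e k) +
      if K.Ex S e.1 (Pi.single k (e.2 k)) then B (K.out S e k) else 0 := by
  simp only [ic, sum_mul, en_iff hK he]
  rw [sum_comm]
  refine sum_congr rfl fun k _ => ?_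
  rw [sum_comm]
  rcases (e.2 k).trichotomy with q | q | q <;>
    by_cases x : K.Ex S e.1 (Pi.single k (e.2 k)) <;> simp only [q] at x <;> simp [q, x, sb, add_comm]

end Cub
end BEp
end
end

-- merged part: Pool.Agent.Work.MP_f0515e_an.D3.DeBox
section
/-! TASK DeBox. A complex which is a lattice box is connected and simply connected. Let `X = Icc (zr lo) (zr hi)`, `cr y =
invFunOn pos T (car y)` (`car_box`); it is `Usc` by `car_near`, `le_of_inj`, and `cr (zr (pos σ)) = σ`.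
`box_conn`: `φ` is constant along `Le`, so `φ ∘ cr` is locally constant on the convex set `X`. `box_cob`: take
`s` from `cov_usc`, `φ σ = s (zr (pos σ))`. For `σ ∈ T` and a facet `τ`, on the segment `A` from `zr (pos σ)`
to `zr (pos τ)` (inside `X ∩ stz (pos σ)`) the sheet `u y` with `(cr y, s y) ≤ (σ, u y)` (`cov_lift`,
`cov_shift`, `cov_uniq`) is locally constant; compare the ends (`le_fc` in the cover). A direct induction on
the coordinates is also welcome. About 150 lines. -/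

open Set Metric Filter Topology Function BEv
open scoped NNReal

noncomputable section
namespace BEp

/-- Unit vector of the lattice. -/
def DeBox_u (i : Fin 3) : Z3 := Pi.single i 1

theorem DeBox_u_self (i : Fin 3) : DeBox_u i i = 1 := Pi.single_eq_same _ _

theorem DeBox_u_ne {i j : Fin 3} (h : i ≠ j) : DeBox_u i j = 0 := Pi.single_eq_of_ne' h _

theorem DeBox_u_nonneg (i : Fin 3) : 0 ≤ DeBox_u i := Pi.single_nonneg.2 zero_le_one

theorem DeBox_le_add (q : Z3) (i : Fin 3) : q ≤ q + DeBox_u i :=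
  le_add_of_nonneg_right (DeBox_u_nonneg i)

theorem DeBox_sum_add (q : Z3) (i : Fin 3) : ∑ k, (q + DeBox_u i) k = ∑ k, q k + 1 := by
  simp only [Pi.add_apply, Finset.sum_add_distrib, DeBox_u, Finset.sum_pi_single', Finset.mem_univ,
    if_true]

theorem DeBox_sum_mono {p q : Z3} (h : p ≤ q) : ∑ k, p k ≤ ∑ k, q k :=
  Finset.sum_le_sum fun k _ => h k

theorem DeBox_back {lo q : Z3} {i : Fin 3} (h : lo ≤ q) (hi : lo i < q i) : lo ≤ q - DeBox_u i := by
  intro k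
  by_cases e : i = k
  · subst e
    rw [Pi.sub_apply, DeBox_u_self]
    exact Int.le_sub_one_of_lt hi
  · rw [Pi.sub_apply, DeBox_u_ne e, sub_zero]
    exact h k

theorem DeBox_upd_true (p : Z3) (i : Fin 3) : update p i (p i + sgb true) = p + DeBox_u i := by
  ext k
  by_cases e : i = k
  · subst e
    rw [update_self, Pi.add_apply, DeBox_u_self, sgb, if_pos rfl]
  · rw [update_of_ne (Ne.symm e), Pi.add_apply, DeBox_u_ne e, add_zero]

theorem DeBox_upd_false (p : Z3) (i : Fin 3) : update p i (p i + sgb false) = p - DeBox_u i := by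
  ext k
  by_cases e : i = k
  · subst e
    rw [update_self, Pi.sub_apply, DeBox_u_self, sgb, if_neg Bool.false_ne_true, sub_eq_add_neg]
  · rw [update_of_ne (Ne.symm e), Pi.sub_apply, DeBox_u_ne e, sub_zero]

/-- A function invariant under unit steps is constant on a box. -/
theorem DeBox_const {α : Type} {lo hi : Z3} {ψ : Z3 → α}
    (h : ∀ q i, lo ≤ q → q + DeBox_u i ≤ hi → ψ (q + DeBox_u i) = ψ q) :
    ∀ p ∈ Icc lo hi, ψ p = ψ lo := by
  have key : ∀ n : ℕ, ∀ p ∈ Icc lo hi, ∑ k, p k ≤ ∑ k, lo k + n → ψ p = ψ lo := by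
    intro n
    induction n with
    | zero =>
      intro p hp hs
      by_contra hne
      have : ∑ k, lo k < ∑ k, p k := by
        obtain ⟨i, hi⟩ : ∃ i, lo i < p i := by
          by_contra! k
          exact hne (by rw [le_antisymm (show p ≤ lo from k) hp.1])
        exact Finset.sum_lt_sum (fun k _ => hp.1 k) ⟨i, Finset.mem_univ _, hi⟩
      simp only [Nat.cast_zero, add_zero] at hs
      omega
    | succ n ih =>
      intro p hp hs
      by_contra hne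
      obtain ⟨i, hi'⟩ : ∃ i, lo i < p i := by
        by_contra! k
        exact hne (by rw [le_antisymm (show p ≤ lo from k) hp.1])
      have b := DeBox_back hp.1 hi'
      have e : p - DeBox_u i + DeBox_u i = p := sub_add_cancel _ _
      have s := DeBox_sum_add (p - DeBox_u i) i
      rw [e] at s
      have k := h _ i b (e.symm ▸ hp.2)
      rw [e] at k
      refine hne (k.trans (ih _ ⟨b, (sub_le_self p (DeBox_u_nonneg i)).trans hp.2⟩ ?_))
      push_cast at hs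
      omega
  intro p hp
  refine key (∑ k, p k - ∑ k, lo k).toNat p hp ?_
  omega

/-- Discrete lemma of Poincare on a box. -/
theorem DeBox_pot {lo hi : Z3} {e : Z3 → Fin 3 → ZMod 2}
    (sq : ∀ q i j, i ≠ j → lo ≤ q → q + DeBox_u i + DeBox_u j ≤ hi →
      e q i + e (q + DeBox_u i) j = e q j + e (q + DeBox_u j) i) :
    ∃ ψ : Z3 → ZMod 2, ∀ q i, lo ≤ q → q + DeBox_u i ≤ hi → ψ (q + DeBox_u i) = ψ q + e q i := by
  classical
  have key : ∀ n : ℕ, ∃ ψ : Z3 → ZMod 2, ∀ q i, lo ≤ q → q + DeBox_u i ≤ hi →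
      ∑ k, q k < ∑ k, lo k + n → ψ (q + DeBox_u i) = ψ q + e q i := by
    intro n
    induction n with
    | zero =>
      refine ⟨0, fun q i h1 _ h3 => ?_⟩
      have := DeBox_sum_mono h1
      simp only [Nat.cast_zero, add_zero] at h3
      omega
    | succ n ih =>
      obtain ⟨ψ, hψ⟩ := ih
      refine ⟨fun p => if ∑ k, p k ≤ ∑ k, lo k + n then ψ p else
        if h : ∃ i, lo ≤ p - DeBox_u i then ψ (p - DeBox_u h.choose) + e (p - DeBox_u h.choose) h.choose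
        else 0, fun q j h1 h2 h3 => ?_⟩
      push_cast at h3
      have s := DeBox_sum_add q j
      beta_reduce
      rw [if_pos (show ∑ k, q k ≤ ∑ k, lo k + n by omega)]
      split_ifs with c1 c2
      · exact hψ q j h1 h2 (by omega)
      · have hc := c2.choose_spec
        generalize c2.choose = i at hc ⊢
        by_cases eij : i = j
        · rw [eij, add_sub_cancel_right]
        · obtain ⟨r, rfl⟩ : ∃ r, q = r + DeBox_u i := ⟨q - DeBox_u i, (sub_add_cancel _ _).symm⟩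
          have e1 : r + DeBox_u i + DeBox_u j - DeBox_u i = r + DeBox_u j := by abel
          rw [e1] at hc ⊢
          have lr : lo ≤ r := fun k => by
            by_cases ek : j = k
            · subst ek
              simpa only [Pi.add_apply, DeBox_u_ne eij, add_zero] using h1 j
            · simpa only [Pi.add_apply, DeBox_u_ne ek, add_zero] using hc k
          have s' := DeBox_sum_add r i
          have a1 := hψ r j lr (le_trans (by
            rw [add_right_comm]; exact DeBox_le_add _ i) h2) (by omega)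
          have a2 := hψ r i lr ((DeBox_le_add _ j).trans h2) (by omega)
          rw [a1, a2, add_assoc, add_assoc, sq r i j eij lr h2]
      · exact absurd ⟨j, by rwa [add_sub_cancel_right]⟩ c2
  obtain ⟨ψ, hψ⟩ := key (∑ k, hi k - ∑ k, lo k).toNat
  refine ⟨ψ, fun q i h1 h2 => hψ q i h1 h2 ?_⟩
  have := DeBox_sum_mono h2
  have := DeBox_sum_add q i
  omega

namespace Cub
variable {κ : Type} {K : Cub κ} {T : Set κ} {lo hi : Z3}

/-- The cells of a box are named by lattice points, and facets are unit steps. -/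
theorem DeBox_name (hK : K.Ok T) (hb : BijOn K.pos T (Icc lo hi)) (hne : T.Nonempty) :
    ∃ ι : Z3 → κ, (∀ σ ∈ T, ι (K.pos σ) = σ) ∧ (∀ p ∈ Icc lo hi, ι p ∈ T) ∧
      ∀ q i, lo ≤ q → q + DeBox_u i ≤ hi → (Odd (q i) → K.fc (ι q) i true = ι (q + DeBox_u i)) ∧
        (¬ Odd (q i) → K.fc (ι (q + DeBox_u i)) i false = ι q) := by
  have : Nonempty κ := hne.to_type
  have inv := hb.invOn_invFunOn
  have mem : ∀ p ∈ Icc lo hi, invFunOn K.pos T p ∈ T := fun p hp => invFunOn_mem (hb.surjOn hp)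
  refine ⟨invFunOn K.pos T, inv.1, mem, fun q i h1 h2 => ?_⟩
  have m1 : q ∈ Icc lo hi := ⟨h1, (DeBox_le_add q i).trans h2⟩
  have m2 : q + DeBox_u i ∈ Icc lo hi := ⟨h1.trans (DeBox_le_add q i), h2⟩
  refine ⟨fun o => ?_, fun o => ?_⟩
  · have := hK.od _ (mem q m1) i true (by rwa [inv.2 m1])
    rw [inv.2 m1, DeBox_upd_true] at this
    rw [← this, inv.1 (hK.mem _ (mem q m1) i true)]
  · have := hK.od _ (mem _ m2) i false (by
      rw [inv.2 m2, Pi.add_apply, DeBox_u_self]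
      exact (Int.not_odd_iff_even.1 o).add_one)
    rw [inv.2 m2, DeBox_upd_false, add_sub_cancel_right] at this
    conv_rhs => rw [← this, inv.1 (hK.mem _ (mem _ m2) i false)]

theorem box_conn (hK : K.Ok T) (hb : BijOn K.pos T (Icc lo hi))
    (he : ∀ i, Even (lo i) ∧ Even (hi i)) {α : Type} {φ : κ → α}
    (h : ∀ σ ∈ T, ∀ i b, φ (K.fc σ i b) = φ σ) : ∀ σ ∈ T, ∀ τ ∈ T, φ σ = φ τ := by
  intro σ hσ τ hτ
  obtain ⟨ι, h1, h2, h3⟩ := DeBox_name hK hb ⟨σ, hσ⟩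
  have k := DeBox_const (lo := lo) (hi := hi) (ψ := fun p => φ (ι p)) fun q i a b => by
    by_cases o : Odd (q i)
    · rw [← (h3 q i a b).1 o, h _ (h2 q ⟨a, (DeBox_le_add q i).trans b⟩)]
    · rw [← (h3 q i a b).2 o, h _ (h2 _ ⟨a.trans (DeBox_le_add q i), b⟩)]
  have k1 := k _ (hb.mapsTo hσ)
  have k2 := k _ (hb.mapsTo hτ)
  simp only [h1 σ hσ, h1 τ hτ] at k1 k2
  exact k1.trans k2.symm

theorem box_cob (hK : K.Ok T) (hb : BijOn K.pos T (Icc lo hi))
    (he : ∀ i, Even (lo i) ∧ Even (hi i)) {c : κ → Fin 3 → Bool → ZMod 2} (hc : K.Coc T c) :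
    K.Cob T c := by
  classical
  rcases T.eq_empty_or_nonempty with rfl | hne
  · exact ⟨0, fun σ hσ => hσ.elim⟩
  obtain ⟨ι, h1, h2, h3⟩ := DeBox_name hK hb hne
  have z1 : ∀ A B C D : ZMod 2, A + B = C + D → D + B = C + A := by decide
  have z2 : ∀ A B C D : ZMod 2, A + B = C + D → D + C = B + A := by decide
  have z3 : ∀ A B C : ZMod 2, A = B + C → C = B + A := by decide
  have z4 : ∀ A B C : ZMod 2, A = B + C → C = A + B := by decide
  obtain ⟨ψ, hψ⟩ := DeBox_pot (lo := lo) (hi := hi) (e := fun q i =>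
      if Odd (q i) then c (ι q) i true else c (ι (q + DeBox_u i)) i false) fun q i j ij a b => by
    have b' : q + DeBox_u j + DeBox_u i ≤ hi := by rwa [add_right_comm]
    have ai := a.trans (DeBox_le_add q i)
    have aj := a.trans (DeBox_le_add q j)
    have bi := (DeBox_le_add _ j).trans b
    have bj := (DeBox_le_add _ i).trans b'
    have ei : (q + DeBox_u i) j = q j := by rw [Pi.add_apply, DeBox_u_ne ij, add_zero]
    have ej : (q + DeBox_u j) i = q i := by rw [Pi.add_apply, DeBox_u_ne ij.symm, add_zero]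
    have s1 := h3 q i a bi
    have s2 := h3 q j a bj
    have s3 := h3 _ j ai b
    have s4 := h3 _ i aj b'
    rw [ei] at s3
    rw [ej] at s4
    have cm : q + DeBox_u j + DeBox_u i = q + DeBox_u i + DeBox_u j := add_right_comm _ _ _
    rw [cm] at s4
    simp only [ei, ej, cm]
    by_cases oi : Odd (q i) <;> by_cases oj : Odd (q j) <;> simp only [oi, oj, if_true, if_false]
    · have := hc.dia _ (h2 q ⟨a, (DeBox_le_add q i).trans bi⟩) i j true true ij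
      rwa [s1.1 oi, s2.1 oj] at this
    · have := hc.dia _ (h2 _ ⟨aj, bj⟩) i j true false ij
      rw [s4.1 oi, s2.2 oj] at this
      exact z1 _ _ _ _ this
    · have := hc.dia _ (h2 _ ⟨ai, bi⟩) j i true false ij.symm
      rw [s3.1 oj, s1.2 oi] at this
      exact (z1 _ _ _ _ this).symm
    · have := hc.dia _ (h2 _ ⟨ai.trans (DeBox_le_add _ j), b⟩) i j false false ij
      rw [s4.2 oi, s3.2 oj] at this
      exact z2 _ _ _ _ this
  refine ⟨fun σ => ψ (K.pos σ), fun σ hσ i b => ?_⟩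
  beta_reduce
  rcases Int.even_or_odd (K.pos σ i) with o | o
  · rw [hc.ev σ hσ i b o, hK.ev σ hσ i b o, CharTwo.add_self_eq_zero]
  · have m := hb.mapsTo hσ
    have m' := hb.mapsTo (hK.mem σ hσ i b)
    rw [hK.od σ hσ i b o] at m' ⊢
    cases b
    · rw [DeBox_upd_false] at m' ⊢
      have e : K.pos σ - DeBox_u i + DeBox_u i = K.pos σ := sub_add_cancel _ _
      have := hψ _ i m'.1 (e.symm ▸ m.2)
      rw [e, if_neg, h1 σ hσ] at this
      · exact z4 _ _ _ this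
      · rw [Pi.sub_apply, DeBox_u_self, Int.not_odd_iff_even]
        exact o.sub_odd odd_one
    · rw [DeBox_upd_true] at m' ⊢
      have := hψ _ i m.1 m'.2
      rw [if_pos o, h1 σ hσ] at this
      exact z3 _ _ _ this

end Cub

end BEp
end
end

-- merged part: Pool.Agent.Work.MP_f0515e_an.D3.DeW
section
/-! TASK DeW. Cocycles on the blocks. `w_cob`: lift on `closedBall 0 (5 / 8)` (`cov_usc` for the complex `Kin`, `Usc.mono`),
giving `s`. For each `j` the set `T j = {σ ∈ Wc | pos σ ∈ Icc (lo j) (hi j)}` is closed under facets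
(`LeZ.box`) and `pos` is a bijection onto the box, so `box_cob` gives `φ j`. For `x ∈ I j` the carrier `cr x`
is in `T j` (`sph`, `blk`, `mem_wc`), `x ↦ s x + φ j (cr x)` is locally constant on `I j` (`cov_cob`), hence
constant; add the constant to `φ j` (still a primitive) so that `φ j (cr x) = s x` on `I j`. On `T j ∩ T j'`
(a box `Icc (lo j ⊔ lo j') (hi j ⊓ hi j')`) `φ j + φ j'` is constant (`box_conn`) and vanishes at `cr x`, `x ∈
I j ∩ I j'` (`meet`). Glue by choice. `norm_coc`: with `φ` from `w_cob` extended by zero off `Wc`, put `c σ i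
b = c₀ σ i b + φ σ + φ (fc σ i b)` for `σ ∈ Kin` and `0` otherwise; `kin_ko`. About 200 lines. -/

open Set Metric Filter Topology Function BEv
open scoped NNReal

noncomputable section
namespace BEp

namespace TLev
variable {C : Core} {κ : Type} {L : TLev C κ} {σ σ' : κ} {x y : Rn 2} {e e' : FF κ}
  {m : Fin C.nM} {p : Z3}

/-- The cells of the blocks over a box. -/
def DeW_T (L : TLev C κ) (lo hi : Z3) : Set κ := {σ | σ ∈ L.Wc ∧ L.K.pos σ ∈ Icc lo hi}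

theorem DeW_sub (L : TLev C κ) : L.Wc ⊆ L.S := fun _ h => Or.inl (Or.inl h)

theorem DeW_cl (hL : L.Ok) {lo hi : Z3} (he : ∀ i, Even (lo i) ∧ Even (hi i)) :
    L.K.Cl (DeW_T L lo hi) := fun σ hσ i b =>
  ⟨hL.wcl σ hσ.1 i b, LeZ.box he hσ.2 (hL.ok.le_pos (DeW_sub L hσ.1) (L.K.le_fc σ i b))⟩

theorem DeW_ok (hL : L.Ok) {lo hi : Z3} (he : ∀ i, Even (lo i) ∧ Even (hi i)) :
    L.K.Ok (DeW_T L lo hi) := hL.ok.mono (fun _ h => DeW_sub L h.1) (DeW_cl hL he)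

theorem DeW_bij (hL : L.Ok) {lo hi : Z3} (h : Icc lo hi ⊆ C.W) :
    BijOn L.K.pos (DeW_T L lo hi) (Icc lo hi) := by
  refine ⟨fun _ k => k.2, hL.winj.mono fun _ k => Or.inl k.1, fun q hq => ?_⟩
  obtain ⟨σ, hσ, rfl⟩ := hL.wpos.symm ▸ h hq
  exact ⟨σ, ⟨hσ, hq⟩, rfl⟩

theorem DeW_cr (hC : C.Ok) (hL : L.Ok) {j : Fin C.nJ} (hx : x ∈ C.I j) :
    L.cr x ∈ DeW_T L (C.lo j) (C.hi j) := by
  have h1 : ‖x‖ = 5 / 8 := mem_sphere_zero_iff_norm.1 (hC.sph ▸ mem_iUnion.2 ⟨j, hx⟩)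
  have h2 : L.K.pos (L.cr x) ∈ Icc (C.lo j) (C.hi j) := by
    rw [hL.pos x (by linarith only [h1])]
    exact hC.blk j x hx
  exact ⟨hL.mem_wc ⟨x, h1.ge, by linarith, Cub.Le.refl _ _⟩ (mem_iUnion.2 ⟨j, h2⟩), h2⟩

theorem DeW_loc (hC : C.Ok) (hL : L.Ok) {c : κ → Fin 3 → Bool → ZMod 2} (hc : L.K.Coc L.Kin c)
    {s : Rn 2 → ZMod 2} (hs : (L.K.cov c).Usc (closedBall 0 (5 / 8)) fun x => (L.cr x, s x))
    (j : Fin C.nJ) :
    ∃ φ, L.K.CobBy (DeW_T L (C.lo j) (C.hi j)) c φ ∧ ∀ x ∈ C.I j, φ (L.cr x) = s x := by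
  obtain ⟨φ, hφ⟩ := Cub.box_cob (DeW_ok hL (hC.evl j))
    (DeW_bij hL (subset_iUnion (fun j => Icc (C.lo j) (C.hi j)) j)) (hC.evl j)
    (hc.mono fun _ h => Or.inl h.1)
  rcases (C.I j).eq_empty_or_nonempty with h | ⟨x₀, h₀⟩
  · exact ⟨φ, hφ, fun x hx => by rw [h] at hx; exact hx.elim⟩
  have hI : C.I j ⊆ closedBall 0 (5 / 8) :=
    ((subset_iUnion C.I j).trans hC.sph.le).trans sphere_subset_closedBall
  have hcont : ContinuousOn (fun x => s x + φ (L.cr x)) (C.I j) := fun x hx =>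
    (tendsto_pure.2 ((hs.mono hI x hx).mono fun y hy =>
      Cub.cov_cob (DeW_cl hL (hC.evl j)) hφ (DeW_cr hC hL hx) hy)).mono_right (pure_le_nhds _)
  have k1 : ∀ a b k : ZMod 2, a + b = a + k + (b + k) := by decide
  have k2 : ∀ a b k : ZMod 2, a + b = k → b + k = a := by decide
  exact ⟨fun σ => φ σ + (s x₀ + φ (L.cr x₀)), fun σ hσ i b => (hφ σ hσ i b).trans (k1 _ _ _),
    fun x hx => k2 _ _ _ ((hC.con j).constant hcont hx h₀)⟩

theorem Ok.w_cob (hC : C.Ok) (hL : L.Ok) {c : κ → Fin 3 → Bool → ZMod 2} (hc : L.K.Coc L.Kin c) :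
    L.K.Cob L.Wc c := by
  classical
  obtain ⟨s, hs⟩ := Cub.cov_usc hL.ok_in hc (convex_closedBall (0 : Rn 2) (5 / 8))
    (isCompact_closedBall _ _) (cr := L.cr)
    (fun x hx => Or.inr ⟨x, mem_closedBall_zero_iff.1 hx, Cub.Le.refl _ _⟩)
    (hL.usc.mono (closedBall_subset_closedBall (by norm_num)))
  choose φ h1 h2 using DeW_loc hC hL hc hs
  have k1 : ∀ a b a' b' : ZMod 2, a + b = a' + b' → b + b' = a + a' := by decide
  have k2 : ∀ a b k : ZMod 2, a + b = k + k → a = b := by decide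
  have agree : ∀ j j' σ, σ ∈ DeW_T L (C.lo j) (C.hi j) → σ ∈ DeW_T L (C.lo j') (C.hi j') →
      φ j σ = φ j' σ := fun j j' σ hσ hσ' => by
    have he : ∀ i, Even ((C.lo j ⊔ C.lo j') i) ∧ Even ((C.hi j ⊓ C.hi j') i) := fun i =>
      ⟨sup_ind _ _ (hC.evl j i).1 (hC.evl j' i).1, inf_ind _ _ (hC.evl j i).2 (hC.evl j' i).2⟩
    have hm : ∀ {τ}, τ ∈ DeW_T L (C.lo j ⊔ C.lo j') (C.hi j ⊓ C.hi j') ↔
        τ ∈ DeW_T L (C.lo j) (C.hi j) ∧ τ ∈ DeW_T L (C.lo j') (C.hi j') := fun {τ} => by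
      simp only [DeW_T, mem_ofPred_eq, ← Icc_inter_Icc, mem_inter_iff]
      tauto
    obtain ⟨x, hx, hx'⟩ := hC.meet j j' ⟨_, hσ.2, hσ'.2⟩
    have h := Cub.box_conn (DeW_ok hL he) (DeW_bij hL (by
      rw [← Icc_inter_Icc]
      exact inter_subset_left.trans (subset_iUnion (fun j => Icc (C.lo j) (C.hi j)) j))) he
      (φ := fun τ => φ j τ + φ j' τ)
      (fun τ hτ i b => k1 _ _ _ _ ((h1 j τ (hm.1 hτ).1 i b).symm.trans (h1 j' τ (hm.1 hτ).2 i b)))
      σ (hm.2 ⟨hσ, hσ'⟩) (L.cr x) (hm.2 ⟨DeW_cr hC hL hx, DeW_cr hC hL hx'⟩)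
    simp only [h2 j x hx, h2 j' x hx'] at h
    exact k2 _ _ _ h
  let ψ : κ → ZMod 2 := fun σ =>
    if h : ∃ j, σ ∈ DeW_T L (C.lo j) (C.hi j) then φ h.choose σ else 0
  have hψ : ∀ j σ, σ ∈ DeW_T L (C.lo j) (C.hi j) → ψ σ = φ j σ := fun j σ hσ =>
    have h : ∃ j, σ ∈ DeW_T L (C.lo j) (C.hi j) := ⟨j, hσ⟩
    (dif_pos h).trans (agree _ _ σ h.choose_spec hσ)
  refine ⟨ψ, fun σ hσ i b => ?_⟩
  obtain ⟨j, hj⟩ := mem_iUnion.1 (hL.wpos ▸ mem_image_of_mem L.K.pos hσ : L.K.pos σ ∈ C.W)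
  rw [hψ j σ ⟨hσ, hj⟩, hψ j _ (DeW_cl hL (hC.evl j) σ ⟨hσ, hj⟩ i b)]
  exact h1 j σ ⟨hσ, hj⟩ i b

theorem Ok.norm_coc (hC : C.Ok) (hL : L.Ok) (hn : ¬ L.K.Acyc L.Kin) :
    ∃ c, L.K.Coc L.S c ∧ L.K.CobBy (L.Wc ∪ L.Ko) c 0 ∧ ¬ L.K.Cob L.Kin c := by
  classical
  obtain ⟨c₀, hc, hn⟩ : ∃ c, L.K.Coc L.Kin c ∧ ¬ L.K.Cob L.Kin c := by
    simpa only [Cub.Acyc, not_forall, exists_prop] using hn
  obtain ⟨φ, hφ⟩ := hL.w_cob hC hc
  let c : κ → Fin 3 → Bool → ZMod 2 := fun σ i b =>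
    if σ ∈ L.Kin then c₀ σ i b + (φ σ + φ (L.K.fc σ i b)) else 0
  have k0 : ∀ a : ZMod 2, a + a = 0 := by decide
  have k1 : ∀ a b a' b' p q r t : ZMod 2, a + b = a' + b' →
      a + (p + q) + (b + (q + t)) = a' + (p + r) + (b' + (r + t)) := fun a b a' b' p q r t h => by
    linear_combination h + k0 q - k0 r
  have z : ∀ σ ∈ L.Wc ∪ L.Ko, ∀ i b, c σ i b = 0 := fun σ hσ i b => by
    by_cases h : σ ∈ L.Kin
    · rw [show c σ i b = _ from if_pos h, hφ σ (hσ.elim id fun k => hL.kin_ko hC ⟨h, k⟩) i b, k0]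
    · exact if_neg h
  refine ⟨c, ⟨fun σ hσ i b he => ?_, fun σ hσ i j b b' hij => ?_⟩,
    fun σ hσ i b => (z σ hσ i b).trans (add_zero 0).symm, fun ⟨ψ, hψ⟩ => hn
      ⟨fun σ => ψ σ + φ σ, fun σ hσ i b => ?_⟩⟩
  · by_cases h : σ ∈ L.Kin
    · rw [show c σ i b = _ from if_pos h, hc.ev σ h i b he, hL.ok.ev σ hσ i b he, k0, add_zero]
    · exact if_neg h
  · rcases hσ with h | h
    · simp only [c, if_pos h, if_pos (hL.cl_in σ h _ _), hL.ok_in.comm σ h i j b b' hij]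
      exact k1 _ _ _ _ _ _ _ _ (hc.dia σ h i j b b' hij)
    · rw [z σ (Or.inr h), z σ (Or.inr h), z _ (Or.inr (L.cl_out σ h _ _)),
        z _ (Or.inr (L.cl_out σ h _ _))]
  · have h := hψ σ hσ i b
    rw [show c σ i b = _ from if_pos hσ] at h
    linear_combination h - k0 (φ σ) - k0 (φ (L.K.fc σ i b))

end TLev

end BEp
end
end

-- merged part: Pool.Agent.Work.MP_f0515e_an.D3.DeCard
section
/-! TASK DeCard. The tower is finite. Cover `closedBall 0 (5 / 8)` by finitely many convex pieces `A a = closedBall 0 (5 / 8) ∩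
ball a (δ a)`, `a` in a finite set `Z`, with `‖g x - g a‖ < 1 / 8` on `A a`. With `v` from `exists_vtx (g a)`
one has `LeZ v (car (g x))` on `A a` (`vtx_le_car`), and `x ↦ fa (cr x) v` is locally constant there (`usc`,
`fa_of_le`), so two carriers `cr x`, `cr x'` with the same position are equal (`inj_le`). All positions lie in
the finite set `P = {p | ‖zr p‖ ≤ R}` (`finite_near`, `dist_le`). A cell of `Kin` outside `Wc` is `fa (cr x)
q` and is determined by `(a, car (g x), q) ∈ Z × P × P`; `Wc` injects into `W`. About 120 lines. -/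

open Set Metric Filter Topology Function BEv
open scoped NNReal

noncomputable section
namespace BEp

theorem DeCard_eq {C : Core} {κ : Type} {L : TLev C κ} (hL : L.Ok) {A : Set (Rn 2)}
    (hA : Convex ℝ A) (h1 : A ⊆ closedBall 0 1) {c : Rn 3} (hc : ∀ y ∈ A, ‖C.g y - c‖ < 1 / 8)
    {x x' : Rn 2} (hx : x ∈ A) (hx' : x' ∈ A) (e : car (C.g x) = car (C.g x')) :
    L.cr x = L.cr x' := by
  have n (y : Rn 2) (hy : y ∈ A) : ‖y‖ ≤ 1 := mem_closedBall_zero_iff.1 (h1 hy)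
  obtain ⟨v, hv, hv'⟩ := exists_vtx c
  have k (y : Rn 2) (hy : y ∈ A) : LeZ v (L.K.pos (L.cr y)) := by
    rw [hL.pos y (n y hy)]
    refine vtx_le_car hv ?_
    have := norm_sub_le_norm_sub_add_norm_sub (C.g y) c (zr v)
    linarith only [hv', this, hc, hy, hc y hy]
  have e' := const_of_loc hA.isPreconnected (f := fun y => L.K.fa (L.cr y) v) (fun y hy => by
    filter_upwards [nhdsWithin_mono y h1 (hL.usc y (h1 hy)), self_mem_nhdsWithin] with z z1 z2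
    exact hL.ok.fa_of_le (L.cr_mem (n y hy)) z1 (k z z2)) x hx x' hx'
  refine hL.ok.inj_le (L.cr_mem (n x hx)) (L.cr_mem (n x' hx')) (L.K.fa_le _ v) ?_
    (by rw [hL.pos x (n x hx), hL.pos x' (n x' hx'), e])
  rw [show L.K.fa (L.cr x) v = L.K.fa (L.cr x') v from e']
  exact L.K.fa_le _ v

theorem Core.Ok.card {C : Core} (hC : C.Ok) :
    ∃ N : ℕ, ∀ (κ : Type) [Fintype κ] (L : TLev C κ), L.Ok → L.Kin.ncard ≤ N := by
  have hδ (a : Rn 2) : ∃ δ > 0, ∀ y ∈ Metric.ball a δ, ‖C.g y - C.g a‖ < 1 / 8 := by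
    obtain ⟨δ, h0, h⟩ := Metric.continuous_iff.1 hC.cont a (1 / 8) (by norm_num)
    exact ⟨δ, h0, fun y hy => by rw [← dist_eq_norm]; exact h y hy⟩
  choose δ h0 hδ using hδ
  have hD := isCompact_closedBall (0 : Rn 2) (5 / 8)
  obtain ⟨t, -, ht⟩ := hD.elim_nhds_subcover (fun a => Metric.ball a (δ a))
    fun a _ => ball_mem_nhds a (h0 a)
  obtain ⟨R, hR⟩ := hD.exists_bound_of_continuousOn hC.cont.continuousOn
  have hP := finite_near (R + 2)
  have near (x : Rn 2) (hx : ‖x‖ ≤ 5 / 8) (p : Z3) (h : ‖zr p - C.g x‖ ≤ 9 / 8) :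
      ‖zr p‖ ≤ R + 2 := by
    have := norm_add_le (zr p - C.g x) (C.g x)
    rw [sub_add_cancel] at this
    linarith only [h, this, hR, hx, hR x (mem_closedBall_zero_iff.2 hx)]
  refine ⟨C.W.ncard + ((t : Set (Rn 2)) ×ˢ {p : Z3 | ‖zr p‖ ≤ R + 2} ×ˢ
    {p : Z3 | ‖zr p‖ ≤ R + 2}).ncard, fun κ _ L hL => (ncard_union_le _ _).trans (add_le_add ?_ ?_)⟩
  · exact ncard_le_ncard_of_injOn L.K.pos (fun σ hσ => hL.wpos ▸ mem_image_of_mem _ hσ)
      (hL.winj.mono subset_union_left) C.W_finite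
  · have ex (σ : κ) (hσ : σ ∈ {σ | ∃ x, ‖x‖ ≤ 5 / 8 ∧ L.K.Le σ (L.cr x)}) :
        ∃ x a, ‖x‖ ≤ 5 / 8 ∧ L.K.Le σ (L.cr x) ∧ a ∈ t ∧ x ∈ Metric.ball a (δ a) := by
      obtain ⟨x, h1, h2⟩ := hσ
      obtain ⟨a, h3, h4⟩ := mem_iUnion₂.1 (ht (mem_closedBall_zero_iff.2 h1))
      exact ⟨x, a, h1, h2, h3, h4⟩
    choose! x a h1 h2 h3 h4 using ex
    refine ncard_le_ncard_of_injOn (fun σ => (a σ, car (C.g (x σ)), L.K.pos σ))
      (fun σ hσ => ⟨h3 σ hσ, near _ (h1 σ hσ) _ ((norm_car _).trans (by norm_num)),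
        near _ (h1 σ hσ) _ (hL.dist_le ((h1 σ hσ).trans (by norm_num)) (h2 σ hσ))⟩)
      (fun σ hσ τ hτ e => ?_) (t.finite_toSet.prod (hP.prod hP))
    obtain ⟨e1, e2, e3⟩ : a σ = a τ ∧ car (C.g (x σ)) = car (C.g (x τ)) ∧
      L.K.pos σ = L.K.pos τ := by simpa using e
    have e4 := DeCard_eq hL ((convex_closedBall (0 : Rn 2) (5 / 8)).inter (convex_ball (a τ) _))
      (inter_subset_left.trans (closedBall_subset_closedBall (by norm_num)))
      (fun y hy => hδ (a τ) y hy.2) ⟨mem_closedBall_zero_iff.2 (h1 σ hσ), e1 ▸ h4 σ hσ⟩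
      ⟨mem_closedBall_zero_iff.2 (h1 τ hτ), h4 τ hτ⟩ e2
    exact hL.ok.le_inj (L.cr_mem ((h1 τ hτ).trans (by norm_num))) (e4 ▸ h2 σ hσ) (h2 τ hτ) e3

end BEp
end
end

-- merged part: Pool.Agent.Work.MP_f0515e_an.D3.DeEss
section
/-! TASK DeEss. An essential circle at a generic level. `preconn_diff_ball`: let `X \ B` be covered by two relatively open
disjoint pieces `P`, `Q`. For `x ∈ S` the set `N' \ B` of `Ball.loc` (with `N ⊆ X`) lies in `P` or in `Q`; the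
type is locally constant on the connected set `S` (`Ball.closure_out`, `const_of_loc`), say `P`; then `P ∪ (X
∩ B)` and `Q` cut `X`. `ess_circle`: `gen_prod` (with `L = ∅`) gives `r ∈ Ioo α β` off a finite set; at a
point of the ring `A` with `u x = r` (an interior point of `A`) `reg_of_prod` applies (the link is the unit
sphere, `lk_congr`, `crc_sq`), `level_crc` gives the circles `c`, `crc_ball` their discs `B c` (inside `ball 0
(3 / 4)` by `Ball.sub_convex`). By `Ball.side` the closed ball of radius `5 / 8` lies in `B c \ c` for some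
`c` (done: the other circles are compact and disjoint from `c`), or misses all discs. In that case remove the
discs from `A` one at a time: a new circle lies in an old disc (then so does its disc, `Ball.mono`) or misses
all old discs (`Ball.side`, `preconn_diff_ball`). The rest is preconnected, contains both boundary squares and
misses the level `r`: contradiction. About 250 lines. -/

open Set Metric Filter Topology Function BEv
open scoped NNReal

noncomputable section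
namespace BEp

theorem preconn_diff_ball {n : ℕ} (hn : 2 ≤ n) {X B S : Set (Rn n)} (hX : IsPreconnected X)
    (h : Ball B S) (hs : ∀ x ∈ S, X ∈ 𝓝 x) : IsPreconnected (X \ B) := by
  classical
  refine isPreconnected_of_forall_constant fun f hf => ?_
  have hcl : ∀ x ∈ S, ∃ᶠ y in 𝓝 x, y ∉ B := fun x hx => by
    have : x ∈ closure Bᶜ := by rw [h.closure_out]; exact Or.inr hx
    exact mem_closure_iff_frequently.1 this
  have hg : ∀ x, ∃ b : Bool, x ∈ S → ∀ᶠ y in 𝓝 x, y ∉ B → f y = b := fun x => by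
    by_cases hx : x ∈ S
    · obtain ⟨N, o, m, s, -, c⟩ := h.loc hx (hs x hx)
      obtain ⟨z, z1, z2⟩ := ((hcl x hx).and_eventually (o.mem_nhds m)).exists
      refine ⟨f z, fun _ => ?_⟩
      filter_upwards [o.mem_nhds m] with y y1 y2
      exact c.constant (hf.mono fun w hw => ⟨s hw.1, hw.2⟩) ⟨y1, y2⟩ ⟨z2, z1⟩
    · exact ⟨true, fun h' => absurd h' hx⟩
  choose g hg using hg
  have hc : ∀ x ∈ S, ∀ y ∈ S, g x = g y := by
    refine const_of_loc (h.conn_bd hn).isPreconnected fun x hx => ?_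
    filter_upwards [mem_nhdsWithin_of_mem_nhds (hg x hx).eventually_nhds, self_mem_nhdsWithin]
      with z z1 z2
    obtain ⟨y, y1, y2, y3⟩ := ((hcl z z2).and_eventually (z1.and (hg z z2))).exists
    rw [← y3 y1, y2 y1]
  obtain ⟨x0, hx0⟩ := (h.conn_bd hn).nonempty
  have key := const_of_loc hX (f := fun y => if y ∈ B then g x0 else f y) fun x hx => by
    by_cases hB : x ∈ B
    · by_cases hS : x ∈ S
      · filter_upwards [mem_nhdsWithin_of_mem_nhds (hg x hS)] with y hy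
        rw [if_pos hB]
        split_ifs with k
        · rfl
        · rw [hy k, hc x hS x0 hx0]
      · have : B ∈ 𝓝 x := mem_interior_iff_mem_nhds.1 (by rw [h.interior_eq]; exact ⟨hB, hS⟩)
        filter_upwards [mem_nhdsWithin_of_mem_nhds this] with y hy
        rw [if_pos hB, if_pos hy]
    · have o : Bᶜ ∈ 𝓝 x := h.poly.1.isClosed.isOpen_compl.mem_nhds hB
      have c : ContinuousWithinAt f X x :=
        (hf x ⟨hx, hB⟩).mono_of_mem_nhdsWithin (inter_mem_nhdsWithin X o)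
      have e : ∀ᶠ y in 𝓝[X] x, f y = f x := by
        have := c.tendsto
        rw [nhds_discrete, tendsto_pure] at this
        exact this
      filter_upwards [e, mem_nhdsWithin_of_mem_nhds o] with y y1 y2
      rw [if_neg hB, if_neg y2, y1]
  intro x hx y hy
  have := key x hx.1 y hy.1
  rwa [if_neg hx.2, if_neg hy.2] at this

theorem DeEss_ind {n : ℕ} (hn : 2 ≤ n) {A : Set (Rn n)} (hA : IsPreconnected A)
    {D : Set (Rn n) → Set (Rn n)} {𝒞 : Set (Set (Rn n))} (hf : 𝒞.Finite) :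
    (∀ C ∈ 𝒞, Ball (D C) C ∧ ∀ x ∈ C, A ∈ 𝓝 x) → 𝒞.PairwiseDisjoint id →
      IsPreconnected (A \ ⋃ C ∈ 𝒞, D C) := by
  induction 𝒞, hf using Set.Finite.induction_on with
  | empty => intro _ _; simpa using hA
  | @insert C 𝒟 hC hD ih =>
    intro h hd
    have ih' := ih (fun C' m => h C' (Or.inr m)) (hd.subset (subset_insert _ _))
    have hb := h C (Or.inl rfl)
    by_cases k : ∃ C' ∈ 𝒟, C ⊆ D C'
    · obtain ⟨C', m, s⟩ := k
      have s' := (h C' (Or.inr m)).1.mono hn hb.1 s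
      rw [biUnion_insert, union_eq_self_of_subset_left (s'.trans (subset_biUnion_of_mem m))]
      exact ih'
    · have e : A \ ⋃ C' ∈ insert C 𝒟, D C' = (A \ ⋃ C' ∈ 𝒟, D C') \ D C := by
        rw [biUnion_insert, union_comm, Set.sdiff_sdiff]
      rw [e]
      refine preconn_diff_ball hn ih' hb.1 fun x hx => ?_
      have cl : IsClosed (⋃ C' ∈ 𝒟, D C') :=
        hD.isClosed_biUnion fun C' m => (h C' (Or.inr m)).1.poly.1.isClosed
      refine inter_mem (hb.2 x hx) (cl.isOpen_compl.mem_nhds fun hx' => ?_)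
      obtain ⟨C', m, hx'⟩ := mem_iUnion₂.1 hx'
      have ne : C ≠ C' := fun e => hC (e ▸ m)
      rcases (h C' (Or.inr m)).1.side (hb.1.conn_bd hn).isPreconnected
        (hd (Or.inl rfl) (Or.inr m) ne) with s | s
      · exact k ⟨C', m, fun y hy => (s hy).1⟩
      · exact disjoint_left.1 s hx hx'

theorem DeEss_lk {n : ℕ} {A : Set (Rn n)} {x : Rn n} (h : A ∈ 𝓝 x) : lk A x = sphere 0 1 := by
  rw [lk_congr (Y := univ) (by filter_upwards [h] with y hy; simpa using hy)]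
  ext v
  simp [lk, tc]

theorem ess_circle {u : Rn 2 → ℝ} (hu : TP u) {α β : ℝ} (hab : α < β)
    (h1 : ∀ x, ‖x‖ = 5 / 8 → u x ≤ α) (h2 : ∀ x, ‖x‖ = 3 / 4 → β ≤ u x) :
    ∃ r ∈ Ioo α β, ∃ B J : Set (Rn 2), Ball B J ∧ closedBall 0 (5 / 8) ⊆ B \ J ∧
      B ⊆ ball 0 (3 / 4) ∧ ∀ x ∈ J, u x = r ∧ ∀ᶠ y in 𝓝 x, u y = r → y ∈ J := by
  obtain ⟨T, hT, hv⟩ := gen_prod (n := 2) finite_empty hu (3 / 4)
  obtain ⟨r, hr, hrT⟩ := (Ioo_infinite hab).exists_notMem_finite hT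
  refine ⟨r, hr, ?_⟩
  obtain ⟨A, hA⟩ : ∃ A : Set (Rn 2), A = {x | 5 / 8 ≤ ‖x‖ ∧ ‖x‖ ≤ 3 / 4} := ⟨_, rfl⟩
  have mA : ∀ x, x ∈ A ↔ 5 / 8 ≤ ‖x‖ ∧ ‖x‖ ≤ 3 / 4 := fun x => by rw [hA]; rfl
  have pA : Poly A := hA ▸ poly_ring _ _
  have cA : IsPreconnected A := hA ▸ preconn_ring _ _
  have hin : ∀ x ∈ A, u x = r → 5 / 8 < ‖x‖ ∧ ‖x‖ < 3 / 4 := fun x hx e => by
    obtain ⟨k1, k2⟩ := (mA x).1 hx
    refine ⟨lt_of_le_of_ne k1 fun k => ?_, lt_of_le_of_ne k2 fun k => ?_⟩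
    · linarith only [e, h1, k, hr, h1 x k.symm, hr.1]
    · linarith only [e, h2, k, hr, h2 x k, hr.2]
  have hnb : ∀ x ∈ A, u x = r → A ∈ 𝓝 x := fun x hx e => by
    obtain ⟨k1, k2⟩ := hin x hx e
    filter_upwards [continuous_norm.continuousAt.eventually (Ioo_mem_nhds k1 k2)] with y hy
    exact (mA y).2 ⟨hy.1.le, hy.2.le⟩
  have hreg : ∀ x ∈ A, u x = r → Rg A u x := fun x hx e => by
    obtain ⟨v, hv⟩ := hv x ((mA x).1 hx).2 (e ▸ hrT)
    refine reg_of_prod (v := v) pA hx ?_ hu ?_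
    · rw [DeEss_lk (hnb x hx e)]
      exact (crc_sq 0 one_pos).tcrc
    · have c1 : ContinuousAt (fun p : Rn 2 × ℝ => p.1 + p.2 • v) (x, 0) := by fun_prop
      have c2 : ContinuousAt (fun p : Rn 2 × ℝ => p.1) (x, 0) := by fun_prop
      filter_upwards [hv, c1.eventually (show A ∈ 𝓝 (x + (0 : ℝ) • v) by simpa using hnb x hx e),
        c2.eventually (hnb x hx e)] with p p1 p2 p3
      exact ⟨iff_of_true p2 p3, p1.2⟩
  obtain ⟨𝒞, hf, hU, hd, hc⟩ := level_crc pA hu hreg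
  have hD : ∀ C : Set (Rn 2), ∃ D, C ∈ 𝒞 → Ball D C := fun C => by
    by_cases m : C ∈ 𝒞
    · obtain ⟨D, k⟩ := crc_ball (hc C m)
      exact ⟨D, fun _ => k⟩
    · exact ⟨∅, fun k => absurd k m⟩
  choose D hD using hD
  have hm : ∀ C ∈ 𝒞, ∀ x ∈ C, x ∈ A ∧ u x = r := fun C m x hx => by
    have : x ∈ ⋃₀ 𝒞 := ⟨C, m, hx⟩
    rwa [hU] at this
  have hb : ∀ C ∈ 𝒞, D C ⊆ ball 0 (3 / 4) := fun C m =>
    (hD C m).sub_convex (by norm_num) (convex_ball 0 _) fun x hx =>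
      mem_ball_zero_iff.2 (hin x (hm C m x hx).1 (hm C m x hx).2).2
  by_cases k : ∃ C ∈ 𝒞, closedBall 0 (5 / 8) ⊆ D C \ C
  · obtain ⟨C, m, s⟩ := k
    refine ⟨D C, C, hD C m, s, hb C m, fun x hx => ⟨(hm C m x hx).2, ?_⟩⟩
    filter_upwards [hnb x (hm C m x hx).1 (hm C m x hx).2,
      POne_near hf (fun C' m' => (hc C' m').poly.1.isClosed) m
        (x := x) fun C' m' ne hx' => disjoint_left.1 (hd m' m ne) hx' hx] with y y1 y2 y3
    refine y2.1 ?_
    rw [hU]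
    exact ⟨y1, y3⟩
  · exfalso
    have hj : ∀ C ∈ 𝒞, Disjoint (closedBall 0 (5 / 8)) (D C) := fun C m => by
      refine ((hD C m).side (convex_closedBall 0 _).isPreconnected
        (disjoint_left.2 fun x x1 x2 => ?_)).resolve_left fun s => k ⟨C, m, s⟩
      linarith only [x1, hin, hm, m, x2, mem_closedBall_zero_iff.1 x1, (hin x (hm C m x x2).1 (hm C m x x2).2).1]
    have hX := DeEss_ind le_rfl cA (D := D) hf
      (fun C m => ⟨hD C m, fun x hx => hnb x (hm C m x hx).1 (hm C m x hx).2⟩) hd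
    have na : ‖(fun _ => 5 / 8 : Rn 2)‖ = 5 / 8 := by
      rw [pi_norm_const]; norm_num
    have nb : ‖(fun _ => 3 / 4 : Rn 2)‖ = 3 / 4 := by
      rw [pi_norm_const]; norm_num
    have ha : (fun _ => 5 / 8 : Rn 2) ∈ A \ ⋃ C ∈ 𝒞, D C := by
      refine ⟨(mA _).2 (by rw [na]; norm_num), fun hx => ?_⟩
      obtain ⟨C, m, hx⟩ := mem_iUnion₂.1 hx
      exact disjoint_left.1 (hj C m) (mem_closedBall_zero_iff.2 na.le) hx
    have hb' : (fun _ => 3 / 4 : Rn 2) ∈ A \ ⋃ C ∈ 𝒞, D C := by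
      refine ⟨(mA _).2 (by rw [nb]; norm_num), fun hx => ?_⟩
      obtain ⟨C, m, hx⟩ := mem_iUnion₂.1 hx
      exact (mem_ball_zero_iff.1 (hb C m hx)).ne nb
    obtain ⟨x, hx, e⟩ := hX.intermediate_value ha hb' hu.continuous.continuousOn
      (show r ∈ Icc _ _ from ⟨(h1 _ na).trans hr.1.le, hr.2.le.trans (h2 _ nb)⟩)
    have : x ∈ ⋃₀ 𝒞 := by rw [hU]; exact ⟨hx.1, e⟩
    obtain ⟨C, m, hx'⟩ := this
    exact hx.2 (mem_iUnion₂.2 ⟨C, m, (hD C m).sub hx'⟩)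

end BEp
end
end

-- merged part: Pool.Agent.Work.MP_f0515e_an.D3.DeVox
section
/-! TASK DeVox. Voxels of a union of boxes with even corners. `dist_le_iff`, `dist_lt_iff`: the nearest point of a box is the
coordinatewise clamp; the infimum over the compact union is attained. `vox_iff`: clamp the rounded point.
`vox_frontier`: a point with distance `1 / 2` is in `Vox`; move each coordinate away from the nearest even
integer to leave all thickened boxes; distance `< 1 / 2` is an open condition inside `Vox`; `Vox` is closed.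
`phi_dist`: `φ` is strictly increasing, so `lo - r ≤ t ↔ lo - 1 / 2 ≤ φ t`, the same with `<` and for `hi`;
the empty union is trivial (`infDist_empty`). About 200 lines. -/

open Set Metric Filter Topology Function BEv
open scoped NNReal

noncomputable section
namespace BEp

variable {N : ℕ} {lo hi : Fin N → Z3} {y : Rn 3}

/-- The union of the real boxes. -/
def RB (lo hi : Fin N → Z3) : Set (Rn 3) := ⋃ j, Icc (zr (lo j)) (zr (hi j))

theorem poly_RB (lo hi : Fin N → Z3) : Poly (RB lo hi) := by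
  simpa only [mem_univ, iUnion_true, RB] using
    Poly.biUnion (S := univ) finite_univ fun j _ => poly_Icc (zr (lo j)) (zr (hi j))

theorem DeVox_box {j : Fin N} {z : Rn 3} (hz : z ∈ Icc (zr (lo j)) (zr (hi j))) : lo j ≤ hi j :=
  fun i => Int.cast_le.1 ((hz.1 i).trans (hz.2 i) : (lo j i : ℝ) ≤ hi j i)

theorem DeVox_clamp {j : Fin N} (h : lo j ≤ hi j) (y : Rn 3) :
    (fun i => max (lo j i : ℝ) (min (hi j i) (y i))) ∈ RB lo hi :=
  mem_iUnion.2 ⟨j, fun _ => le_max_left _ _, fun i =>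
    max_le (Int.cast_le.2 (h i) : (lo j i : ℝ) ≤ hi j i) (min_le_left _ _)⟩

theorem dist_le_iff (hne : (RB lo hi).Nonempty) {t : ℝ} (ht : 0 ≤ t) :
    infDist y (RB lo hi) ≤ t ↔
      ∃ j, lo j ≤ hi j ∧ ∀ i, (lo j i : ℝ) - t ≤ y i ∧ y i ≤ hi j i + t := by
  constructor
  · intro h
    obtain ⟨z, hz, e⟩ := (poly_RB lo hi).1.exists_infDist_eq_dist hne y
    obtain ⟨j, hj⟩ := mem_iUnion.1 hz
    refine ⟨j, DeVox_box hj, fun i => ?_⟩
    have h1 := abs_le.1 ((dist_pi_le_iff ht).1 (e ▸ h) i)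
    have h2 : (lo j i : ℝ) ≤ z i := hj.1 i
    have h3 : z i ≤ hi j i := hj.2 i
    exact ⟨by linarith [h1.1], by linarith [h1.2]⟩
  · rintro ⟨j, hj, h⟩
    refine (infDist_le_dist_of_mem (DeVox_clamp hj y)).trans ((dist_pi_le_iff ht).2 fun i => ?_)
    obtain ⟨h1, h2⟩ := h i
    rw [Real.dist_eq, abs_le, max_def, min_def]
    split_ifs <;> constructor <;> linarith

theorem dist_lt_iff (hne : (RB lo hi).Nonempty) {t : ℝ} (ht : 0 < t) :
    infDist y (RB lo hi) < t ↔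
      ∃ j, lo j ≤ hi j ∧ ∀ i, (lo j i : ℝ) - t < y i ∧ y i < hi j i + t := by
  rw [infDist_lt_iff hne]
  constructor
  · rintro ⟨z, hz, h⟩
    obtain ⟨j, hj⟩ := mem_iUnion.1 hz
    refine ⟨j, DeVox_box hj, fun i => ?_⟩
    have h1 := abs_lt.1 ((dist_pi_lt_iff ht).1 h i)
    have h2 : (lo j i : ℝ) ≤ z i := hj.1 i
    have h3 : z i ≤ hi j i := hj.2 i
    exact ⟨by linarith [h1.1], by linarith [h1.2]⟩
  · rintro ⟨j, hj, h⟩
    refine ⟨_, DeVox_clamp hj y, (dist_pi_lt_iff ht).2 fun i => ?_⟩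
    obtain ⟨h1, h2⟩ := h i
    rw [Real.dist_eq, abs_lt, max_def, min_def]
    split_ifs <;> constructor <;> linarith

theorem vox_iff : y ∈ Vox (⋃ j, Icc (lo j) (hi j)) ↔
    ∃ j, lo j ≤ hi j ∧ ∀ i, (lo j i : ℝ) - 1 / 2 ≤ y i ∧ y i ≤ hi j i + 1 / 2 := by
  have h0 : (0 : ℝ) ≤ 1 / 2 := by norm_num
  simp only [Vox, mem_iUnion, exists_prop, mem_closedBall, dist_pi_le_iff h0]
  constructor
  · rintro ⟨p, ⟨j, hj⟩, h⟩
    refine ⟨j, hj.1.trans hj.2, fun i => ?_⟩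
    have h1 : |y i - p i| ≤ 1 / 2 := h i
    have h2 : (lo j i : ℝ) ≤ p i := Int.cast_le.2 (hj.1 i)
    have h3 : (p i : ℝ) ≤ hi j i := Int.cast_le.2 (hj.2 i)
    rw [abs_le] at h1
    exact ⟨by linarith only [h1, h2, h1.1], by linarith only [h1, h3, h1.2]⟩
  · rintro ⟨j, hj, h⟩
    refine ⟨fun i => max (lo j i) (min (hi j i) (round (y i))),
      ⟨j, fun _ => le_max_left _ _, fun i => max_le (hj i) (min_le_left _ _)⟩, fun i => ?_⟩
    obtain ⟨h1, h2⟩ := h i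
    have h3 := abs_le.1 (abs_sub_round (y i))
    show |y i - ((max (lo j i) (min (hi j i) (round (y i))) : ℤ) : ℝ)| ≤ 1 / 2
    rw [Int.cast_max, Int.cast_min, abs_le, max_def, min_def]
    split_ifs <;> constructor <;> linarith [h3.1, h3.2]

theorem vox_frontier (he : ∀ j i, Even (lo j i) ∧ Even (hi j i)) :
    y ∈ frontier (Vox (⋃ j, Icc (lo j) (hi j))) ↔ infDist y (RB lo hi) = 1 / 2 := by
  have h0 : (0 : ℝ) < 1 / 2 := by norm_num
  rcases (RB lo hi).eq_empty_or_nonempty with hne | hne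
  · have e : Vox (⋃ j, Icc (lo j) (hi j)) = ∅ := eq_empty_of_forall_notMem fun z hz => by
      obtain ⟨j, hj, -⟩ := vox_iff.1 hz
      exact (hne ▸ DeVox_clamp hj z : _ ∈ (∅ : Set (Rn 3)))
    rw [e, hne, frontier_empty, infDist_empty]
    exact iff_of_false (notMem_empty _) h0.ne
  have e : Vox (⋃ j, Icc (lo j) (hi j)) = {z | infDist z (RB lo hi) ≤ 1 / 2} :=
    Set.ext fun z => vox_iff.trans (dist_le_iff hne h0.le).symm
  constructor
  · intro h
    rw [e] at h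
    exact frontier_le_subset_eq (continuous_infDist_pt _) continuous_const h
  · intro h
    rw [frontier_eq_closure_inter_closure]
    refine ⟨subset_closure (e ▸ h.le), Metric.mem_closure_iff.2 fun ε hε => ?_⟩
    obtain ⟨δ, d0, d1, d2⟩ : ∃ δ : ℝ, 0 < δ ∧ δ < ε ∧ δ < 1 / 2 :=
      ⟨min (ε / 2) (1 / 4), by positivity, (min_le_left _ _).trans_lt (by linarith only [hε]),
        (min_le_right _ _).trans_lt (by norm_num)⟩
    refine ⟨fun i => if (2 * round (y i / 2) : ℝ) ≤ y i then y i + δ else y i - δ, fun hz => ?_,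
      (dist_pi_lt_iff hε).2 fun i => ?_⟩
    · obtain ⟨j, hj, hz⟩ := vox_iff.1 hz
      refine h.not_lt ((dist_lt_iff hne h0).2 ⟨j, hj, fun i => ?_⟩)
      obtain ⟨h1, h2⟩ := hz i
      obtain ⟨⟨a, ha⟩, b, hb⟩ := he j i
      obtain ⟨h3, h4⟩ := abs_le.1 (abs_sub_round (y i / 2))
      rw [ha, Int.cast_add] at h1 ⊢
      rw [hb, Int.cast_add] at h2 ⊢
      split_ifs at h1 h2 with c
      · refine ⟨not_le.1 fun k => ?_, by linarith only [d0, h2]⟩
        have k1 : round (y i / 2) < a := Int.cast_lt.1 (by linarith only [d0, d2, c, k] : (round (y i / 2) : ℝ) < a)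
        have k2 : (round (y i / 2) : ℝ) + 1 ≤ a := by exact_mod_cast k1
        linarith only [d2, h4, h1, k2]
      · refine ⟨by linarith only [d0, h1], not_le.1 fun k => ?_⟩
        have k1 : b < round (y i / 2) :=
          Int.cast_lt.1 (by linarith only [d0, d2, c, k, not_le.1 c] : (b : ℝ) < round (y i / 2))
        have k2 : (b : ℝ) + 1 ≤ round (y i / 2) := by exact_mod_cast k1
        linarith only [d2, h3, h2, k2]
    · rw [Real.dist_eq, abs_lt]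
      split_ifs <;> constructor <;> linarith only [d1, d0]

theorem phi_dist (he : ∀ j i, Even (lo j i) ∧ Even (hi j i)) {φ : ℝ → ℝ} (hφ : StrictMono φ)
    {r : ℝ} (hr : 0 < r) (h : ∀ e : ℤ, Even e → φ (e + r) = e + 1 / 2 ∧ φ (e - r) = e - 1 / 2) :
    infDist (dg φ y) (RB lo hi) = 1 / 2 ↔ infDist y (RB lo hi) = r := by
  have h0 : (0 : ℝ) < 1 / 2 := by norm_num
  rcases (RB lo hi).eq_empty_or_nonempty with hne | hne
  · rw [hne, infDist_empty, infDist_empty]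
    exact iff_of_false h0.ne hr.ne
  rw [eq_iff_le_not_lt, eq_iff_le_not_lt, dist_le_iff hne h0.le, dist_le_iff hne hr.le,
    dist_lt_iff hne h0, dist_lt_iff hne hr]
  refine and_congr (exists_congr fun j => and_congr_right fun _ => forall_congr' fun i => ?_)
    (not_congr (exists_congr fun j => and_congr_right fun _ => forall_congr' fun i => ?_))
  · rw [← (h _ (he j i).1).2, ← (h _ (he j i).2).1]
    exact and_congr hφ.le_iff_le hφ.le_iff_le
  · rw [← (h _ (he j i).1).2, ← (h _ (he j i).2).1]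
    exact and_congr hφ.lt_iff_lt hφ.lt_iff_lt

end BEp
end
end

-- merged part: Pool.Agent.Work.MP_f0515e_an.D3.DeChain
section
/-! TASK DeChain. A chain of cubes round a graph. Take an arrangement adapted to `C`; `V` = the finitely many points of `C` with
`fdim = 0`; at any other point `y ∈ C` the set `C ∩ ball y ε` is convex for small `ε` (the other faces in `C`
have `fdim ≤ 1` by `fdim_le`, so their closures miss `y` by `fdim_lt`; finitely many faces). Choose `R > 0`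
with `closedBall v R ⊆ O`, `2 R < dist v v'`, and `Poly.homog` valid up to `2 R`. `C' = C \ ⋃ ball v R` is
compact; Lebesgue number `ρ₁ ≤ R`: `C ∩ ball z ρ₁` is convex (a convex set cut by a ball) and `ball z ρ₁ ⊆ O`
for `z ∈ C'`. `Z ⊆ C'` a finite `ρ₁ / 8` net, `ρ ∈ (ρ₁ / 8, ρ₁ / 4)` with `2 ρ ≠ dist z z'`, `R + ρ ≠ dist z
v`. Cubes `(v, R)`, `(z, ρ)`: if two of them meet, the segment between the centres lies in `C` and contains a
point of both open cubes. `μ` by finiteness and compactness. About 250 lines. -/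

open Set Metric Filter Topology Function BEv
open scoped NNReal

noncomputable section
namespace BEp

theorem DeChain_star {n : ℕ} {C O : Set (Rn n)} (hC : Poly C) (hO : IsOpen O) (hs : C ⊆ O) :
    ∀ z ∈ C, ∃ a : ℝ, 0 < a ∧ closedBall z (2 * a) ⊆ O ∧
      ∀ y ∈ C, dist y z ≤ 2 * a → segment ℝ z y ⊆ C := fun z hz => by
  obtain ⟨ρ, hρ, h⟩ := hC.homog hz
  obtain ⟨ε, hε, h'⟩ := nhds_basis_closedBall.mem_iff.1 (hO.mem_nhds (hs hz))
  have e : 2 * (min ρ ε / 2) = min ρ ε := by ring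
  refine ⟨min ρ ε / 2, half_pos (lt_min hρ hε), ?_, fun y hy hd => ?_⟩
  · rw [e]
    exact (closedBall_subset_closedBall (min_le_right _ _)).trans h'
  · rw [e, dist_eq_norm] at hd
    rw [segment_eq_image']
    rintro _ ⟨t, ht, rfl⟩
    rcases ht.1.eq_or_lt with rfl | ht0
    · simpa using hz
    · exact (h _ (hd.trans (min_le_left _ _)) t ⟨ht0, ht.2⟩).2 (by simpa using hy)

theorem DeChain_mid {n : ℕ} {x y : Rn n} {a b : ℝ} (ha : 0 < a) (hb : 0 < b)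
    (h : dist x y ≤ a + b) : ∃ w ∈ segment ℝ x y, dist w x ≤ a ∧ dist w y ≤ b := by
  have hab := add_pos ha hb
  have h0 : 0 ≤ a / (a + b) := by positivity
  have h1 : 0 ≤ b / (a + b) := by positivity
  have e : 1 - a / (a + b) = b / (a + b) := by
    rw [eq_div_iff hab.ne', sub_mul, div_mul_cancel₀ _ hab.ne']
    ring
  refine ⟨AffineMap.lineMap x y (a / (a + b)), ?_, ?_, ?_⟩
  · rw [segment_eq_image_lineMap]
    exact ⟨_, ⟨h0, by linarith only [h1, e]⟩, rfl⟩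
  · rw [dist_lineMap_left, Real.norm_of_nonneg h0]
    exact (mul_le_mul_of_nonneg_left h h0).trans_eq (div_mul_cancel₀ _ hab.ne')
  · rw [dist_lineMap_right, e, Real.norm_of_nonneg h1]
    exact (mul_le_mul_of_nonneg_left h h1).trans_eq (div_mul_cancel₀ _ hab.ne')

theorem chain0 {n : ℕ} {C O : Set (Rn n)} (hC : Poly C) (hp : PC 1 C) (hO : IsOpen O) (hs : C ⊆ O) :
    ∃ (N : ℕ) (z : Fin N → Rn n) (r : Fin N → ℝ) (μ : ℝ), 0 < μ ∧
      (∀ j, IsPreconnected (C ∩ closedBall (z j) (r j - μ))) ∧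
      C ⊆ ⋃ j, closedBall (z j) (r j - μ) ∧ (∀ j, closedBall (z j) (r j) ⊆ O) ∧
      ∀ j j', (closedBall (z j) (r j) ∩ closedBall (z j') (r j')).Nonempty →
        (C ∩ closedBall (z j) (r j - μ) ∩ closedBall (z j') (r j' - μ)).Nonempty := by
  choose! a ha using DeChain_star hC hO hs
  obtain ⟨t, ht, hc⟩ := hC.1.elim_nhds_subcover (fun z => closedBall z (a z))
    fun z hz => closedBall_mem_nhds z (ha z hz).1
  obtain ⟨z, hz, hz'⟩ : ∃ z : Fin t.card → Rn n, (∀ j, z j ∈ C) ∧ ∀ x ∈ t, ∃ j, z j = x :=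
    ⟨fun j => t.equivFin.symm j, fun j => ht _ (t.equivFin.symm j).2,
      fun x hx => ⟨t.equivFin ⟨x, hx⟩, congrArg Subtype.val (Equiv.symm_apply_apply _ _)⟩⟩
  have h1 : ∀ᶠ μ in 𝓝[>] (0 : ℝ), ∀ j, μ ∈ Ioo 0 (a (z j)) :=
    eventually_all.2 fun j => Ioo_mem_nhdsGT (ha _ (hz j)).1
  have h2 : ∀ᶠ μ in 𝓝[>] (0 : ℝ), ∀ j j', dist (z j) (z j') ≤ a (z j) + μ + (a (z j') + μ) →
      dist (z j) (z j') ≤ a (z j) + a (z j') :=
    eventually_all.2 fun j => eventually_all.2 fun j' => by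
      by_cases h : dist (z j) (z j') ≤ a (z j) + a (z j')
      · exact .of_forall fun _ _ => h
      · filter_upwards [Ioo_mem_nhdsGT (half_pos (sub_pos.2 (not_le.1 h)))] with μ hμ k
        linarith only [k, hμ, hμ.2]
  obtain ⟨μ, ⟨h1, h2⟩, hμ⟩ := ((h1.and h2).and self_mem_nhdsWithin).exists
  refine ⟨t.card, z, fun j => a (z j) + μ, μ, hμ, fun j => ?_, fun x hx => ?_, fun j => ?_,
    fun j j' h => ?_⟩
  all_goals simp only [add_sub_cancel_right]
  · have h0 := (ha _ (hz j)).1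
    have hm : z j ∈ closedBall (z j) (a (z j)) := mem_closedBall_self h0.le
    refine (StarConvex.isPathConnected (starConvex_iff_segment_subset.2 fun y hy => ?_)
      (mem_inter (hz j) hm)).isConnected.isPreconnected
    exact subset_inter ((ha _ (hz j)).2.2 y hy.1 ((mem_closedBall.1 hy.2).trans (by linarith)))
      ((convex_closedBall _ _).segment_subset hm hy.2)
  · obtain ⟨y, hy, k⟩ := mem_iUnion₂.1 (hc hx)
    obtain ⟨j, rfl⟩ := hz' y hy
    exact mem_iUnion.2 ⟨j, k⟩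
  · exact (closedBall_subset_closedBall (by linarith [(h1 j).2])).trans (ha _ (hz j)).2.1
  · have hd := h2 j j' (dist_le_add_of_nonempty_closedBall_inter_closedBall h)
    obtain ⟨w, hw, k, k'⟩ := DeChain_mid (ha _ (hz j)).1 (ha _ (hz j')).1 hd
    refine ⟨w, ⟨?_, k⟩, k'⟩
    rcases le_total (a (z j)) (a (z j')) with l | l
    · exact (ha _ (hz j')).2.2 _ (hz j) (by linarith) (by rwa [segment_symm])
    · exact (ha _ (hz j)).2.2 _ (hz j') (by rw [dist_comm]; linarith) hw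

end BEp
end
end

-- merged part: Pool.Agent.Work.MP_f0515e_an.D3.DeMar
section
/-! TASK DeMar. The chain of cubes along the curve at radius `5 / 8`, with margins. `C = g0 '' sphere 0 (5 / 8)` is a polygon
(`crc_sq`, `Crc.image`, `Crc.poly`, `Crc.pc`), `chain0`, `I j = {x ∈ sphere | g x ∈ closedBall (z j) (r j - 2
μ)}` where `2 μ` is the margin of `chain0` (`preconn_of_image`). `δ`: on the compact set of pairs `(x, y)`,
`x` outer, `y` inner, with `μ ≤ infDist (g x) C` one has `g x ≠ g y` (else `y = x` is on the sphere), so `‖g x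
- g y‖` is bounded below. About 120 lines. -/

open Set Metric Filter Topology Function BEv
open scoped NNReal

noncomputable section
namespace BEp

theorem exists_chain {g g0 : Rn 2 → Rn 3} (hg : Continuous g) (h0 : TP g0)
    (he : ∀ x, 1 / 2 ≤ ‖x‖ → ‖x‖ ≤ 1 → g x = g0 x)
    (hn : ∀ x y, 1 / 2 ≤ ‖x‖ → ‖x‖ ≤ 1 → ‖y‖ ≤ 1 → g y = g x → y = x)
    {O : Set (Rn 3)} (hO : IsOpen O) (hs : ∀ x, ‖x‖ = 5 / 8 → g x ∈ O) :
    ∃ (N : ℕ) (z : Fin N → Rn 3) (r : Fin N → ℝ) (I : Fin N → Set (Rn 2)) (μ δ : ℝ),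
      0 < μ ∧ 0 < δ ∧ (∀ j, IsPreconnected (I j)) ∧ ⋃ j, I j = sphere 0 (5 / 8) ∧
      (∀ j, ∀ x ∈ I j, g x ∈ closedBall (z j) (r j - μ)) ∧ (∀ j, closedBall (z j) (r j) ⊆ O) ∧
      (∀ j j', (closedBall (z j) (r j) ∩ closedBall (z j') (r j')).Nonempty →
        (I j ∩ I j').Nonempty) ∧
      ∀ x y, 5 / 8 ≤ ‖x‖ → ‖x‖ ≤ 1 → ‖y‖ ≤ 5 / 8 → ‖g x - g y‖ ≤ δ →
        ∃ j, g x ∈ closedBall (z j) (r j - μ) := by
  have hS : ∀ x ∈ sphere (0 : Rn 2) (5 / 8), ‖x‖ = 5 / 8 := fun x hx => mem_sphere_zero_iff_norm.1 hx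
  have hi : InjOn g (sphere 0 (5 / 8)) := fun x hx y hy e =>
    hn y x (by rw [hS y hy]; norm_num) (by rw [hS y hy]; norm_num) (by rw [hS x hx]; norm_num) e
  have hq : EqOn g g0 (sphere 0 (5 / 8)) := fun x hx =>
    he x (by rw [hS x hx]; norm_num) (by rw [hS x hx]; norm_num)
  have hC : Crc (g '' sphere 0 (5 / 8)) := by
    rw [hq.image_eq]
    exact (crc_sq 0 (by norm_num)).image h0 (hi.congr hq)
  obtain ⟨N, z, r, μ, hμ, c1, c2, c3, c4⟩ := chain0 hC.poly hC.pc hO (by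
    rintro _ ⟨x, hx, rfl⟩
    exact hs x (hS x hx))
  have hU : IsOpen (⋃ j, ball (z j) (r j - μ / 2)) := isOpen_iUnion fun _ => isOpen_ball
  have hP : IsCompact (((closedBall (0 : Rn 2) 1 ∩ {x | 5 / 8 ≤ ‖x‖}) ∩
      g ⁻¹' (⋃ j, ball (z j) (r j - μ / 2))ᶜ) ×ˢ closedBall (0 : Rn 2) (5 / 8)) :=
    (((isCompact_closedBall _ _).inter_right
      (isClosed_le continuous_const continuous_norm)).inter_right
      (hU.isClosed_compl.preimage hg)).prod (isCompact_closedBall _ _)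
  obtain ⟨d, hd, hd'⟩ := hP.exists_forall_le' (f := fun q => ‖g q.1 - g q.2‖) (a := 0)
    (by fun_prop) (by
      rintro ⟨x, y⟩ ⟨⟨⟨h1, h2⟩, h3⟩, h4⟩
      rw [mem_closedBall_zero_iff] at h1 h4
      refine norm_pos_iff.2 (sub_ne_zero.2 fun e => h3 ?_)
      have h5 : 5 / 8 ≤ ‖x‖ := h2
      obtain rfl : y = x := hn x y (by linarith only [h5]) h1 (by linarith only [h4]) e.symm
      obtain ⟨j, hj⟩ := mem_iUnion.1 (c2 ⟨y, mem_sphere_zero_iff_norm.2 (le_antisymm h4 h5), rfl⟩)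
      exact mem_iUnion.2 ⟨j, closedBall_subset_ball (by linarith only [hμ]) hj⟩)
  refine ⟨N, z, r, fun j => sphere 0 (5 / 8) ∩ g ⁻¹' closedBall (z j) (r j - μ), μ / 2, d / 2,
    half_pos hμ, half_pos hd, fun j => ?_, ?_, fun j x hx => ?_, c3, fun j j' h => ?_,
    fun x y h1 h2 h3 h4 => ?_⟩
  · refine preconn_of_image ((isCompact_sphere _ _).inter_right (isClosed_closedBall.preimage hg))
      hg.continuousOn (hi.mono inter_subset_left) ?_
    rw [image_inter_preimage]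
    exact c1 j
  · refine (iUnion_subset fun j => inter_subset_left).antisymm fun x hx => ?_
    obtain ⟨j, hj⟩ := mem_iUnion.1 (c2 ⟨x, hx, rfl⟩)
    exact mem_iUnion.2 ⟨j, hx, hj⟩
  · exact closedBall_subset_closedBall (by linarith) hx.2
  · obtain ⟨_, ⟨⟨x, hx, rfl⟩, k1⟩, k2⟩ := c4 j j' h
    exact ⟨x, ⟨hx, k1⟩, hx, k2⟩
  · by_contra k
    have := hd' (x, y) ⟨⟨⟨mem_closedBall_zero_iff.2 h2, h1⟩, fun k' => by
      obtain ⟨j, hj⟩ := mem_iUnion.1 k'
      exact k ⟨j, ball_subset_closedBall hj⟩⟩, mem_closedBall_zero_iff.2 h3⟩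
    linarith only [hd, h4, this]

end BEp
end
end
end
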