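import Pool.Agent.Work.MP_f0515e_an.D3.LDefs
import Pool.Agent.Work.MP_f0515e_an.D3.PGl
import Pool.Agent.Work.MP_f0515e_an.D3.PTri
import Pool.Agent.Work.MP_f0515e_an.D3.PBall
import Pool.Agent.Work.MP_f0515e_an.Pos.HBor

-- merged part: Pool.Agent.Work.MP_f0515e_an.D3.KA2
section
-- merged part: Pool.Agent.Work.MP_f0515e_an.D3.KA1
section
/-! TASK KA1. Basic facts on the cells of a complex `Kx`.
Plan. `relopen`: choose finitely many points `y_k` of `σ` whose differences `y_k - z` span `vectorSpan σ`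
(`vectorSpan_eq_span_vsub_set_right`, a basis inside the spanning set); by `opn` and convexity `z ± e (y_k - z)` lie in `σ`,
so the convex hull (small coefficients) does too; the coefficients are continuous linear functionals on the span.
`seg_mem`: approximate `y` by `y' ∈ σ` and write `y + t (z - y)` as a convex combination of `y'` and a point of the relative
ball round `z` (`y - y'` lies in the closed subspace `vectorSpan σ`). `lf_cl`: a compact neighbourhood `C'` of `C` inside `Ω`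
(`exists_compact_between`); a cell whose closure meets `C` meets `C'`. `near`: remove the finitely many closed cells that miss `x`.
`countable`: exhaustion of `Ω` by compact sets (`IsOpen.exists_iUnion_isClosed` intersected with balls, or rational closed balls).
`ltp_of_cells`: `tp_glue_fin` on the closures of the finitely many cells of `C`. About 200 lines. -/

open Set Metric Filter Topology Function BEv
open scoped NNReal ENNReal

noncomputable section
namespace BEp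

namespace Kx
variable {Ω : Set (Rn 3)} (K : Kx Ω) {σ τ C : Set (Rn 3)} {x y z : Rn 3}

theorem cell_mem (hx : x ∈ Ω) : K.cell x ∈ K.cells := mem_image_of_mem _ hx

variable {K}

theorem cl_sub (hσ : σ ∈ K.cells) : closure σ ⊆ Ω := by
  obtain ⟨x, hx, rfl⟩ := hσ
  exact K.sub x hx

theorem cells_sub (hσ : σ ∈ K.cells) : σ ⊆ Ω := subset_closure.trans (cl_sub hσ)

theorem cell_eq (hσ : σ ∈ K.cells) (hx : x ∈ σ) : K.cell x = σ := by
  obtain ⟨y, hy, rfl⟩ := hσ
  exact K.eqv y hy x hx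

theorem cells_ne (hσ : σ ∈ K.cells) : σ.Nonempty := by
  obtain ⟨x, hx, rfl⟩ := hσ
  exact ⟨x, K.mem x hx⟩

theorem cells_cvx (hσ : σ ∈ K.cells) : Convex ℝ σ := by
  obtain ⟨x, hx, rfl⟩ := hσ
  exact K.cvx x hx

theorem cells_poly (hσ : σ ∈ K.cells) : Poly (closure σ) := by
  obtain ⟨x, hx, rfl⟩ := hσ
  exact K.poly x hx

theorem disj (hσ : σ ∈ K.cells) (hτ : τ ∈ K.cells) (h : σ ≠ τ) : Disjoint σ τ :=
  disjoint_left.2 fun _ h1 h2 => h ((cell_eq hσ h1).symm.trans (cell_eq hτ h2))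

theorem front (hσ : σ ∈ K.cells) (hτ : τ ∈ K.cells) (h : (σ ∩ closure τ).Nonempty) :
    σ ⊆ closure τ := by
  obtain ⟨x, h1, h2⟩ := h
  obtain ⟨y, hy, rfl⟩ := hτ
  exact cell_eq hσ h1 ▸ K.fr y hy x h2

theorem relopen (hσ : σ ∈ K.cells) (hz : z ∈ σ) :
    ∃ ε > 0, ∀ y, y - z ∈ vectorSpan ℝ σ → ‖y - z‖ < ε → y ∈ σ := by
  obtain ⟨_, ⟨p, hp, rfl⟩⟩ := (cells_ne hσ).intrinsicInterior (cells_cvx hσ)
  obtain ⟨ε, hε, hb⟩ := Metric.isOpen_iff.1 isOpen_interior p hp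
  have pσ : (p : Rn 3) ∈ σ := (interior_subset hp :)
  obtain ⟨e, he, hw⟩ : ∃ e : ℝ, 0 < e ∧ z + e • (z - p) ∈ σ := by
    obtain ⟨x, hx, rfl⟩ := hσ
    exact K.opn x hx z hz p pσ
  have h1 : 0 < 1 + e := by positivity
  refine ⟨e / (1 + e) * ε, by positivity, fun y hy hn => ?_⟩
  have hq : ((1 + e) / e) • (y - z) + (p : Rn 3) ∈ affineSpan ℝ σ :=
    AffineSubspace.vadd_mem_of_mem_direction
      (Submodule.smul_mem _ _ (direction_affineSpan ℝ σ ▸ hy)) p.2
  have hq' : ((1 + e) / e) • (y - z) + (p : Rn 3) ∈ σ := by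
    refine (interior_subset (hb (a := ⟨_, hq⟩) ?_) :)
    rw [mem_ball, Subtype.dist_eq, dist_eq_norm, add_sub_cancel_right, norm_smul,
      Real.norm_of_nonneg (by positivity), ← inv_div, inv_mul_lt_iff₀ (by positivity)]
    exact hn
  convert cells_cvx hσ hq' hw (a := e / (1 + e)) (b := 1 / (1 + e)) (by positivity)
    (by positivity) (by field_simp; ring) using 1
  ext i
  simp only [Pi.add_apply, Pi.smul_apply, Pi.sub_apply, smul_eq_mul]
  field_simp
  ring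

theorem sub_mem_span (hz : z ∈ closure σ) (hy : y ∈ closure σ) : y - z ∈ vectorSpan ℝ σ := by
  rw [← SetLike.mem_coe, ← (vectorSpan ℝ σ).closed_of_finiteDimensional.closure_eq]
  exact map_mem_closure₂ (f := fun y z => y - z) continuous_sub hy hz
    fun a ha b hb => vsub_mem_vectorSpan ℝ ha hb

theorem seg_mem (hσ : σ ∈ K.cells) (hy : y ∈ closure σ) (hz : z ∈ σ) {t : ℝ}
    (ht : t ∈ Ioc (0 : ℝ) 1) : y + t • (z - y) ∈ σ := by
  obtain ⟨ε, hε, h⟩ := relopen hσ hz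
  have t0 := ht.1
  have t1 := sub_nonneg.2 ht.2
  obtain ⟨y', hy', hd⟩ := Metric.mem_closure_iff.1 hy (t * ε) (by positivity)
  have hq := h (((1 - t) / t) • (y - y') + z) (by
    rw [add_sub_cancel_right]
    exact Submodule.smul_mem _ _ (sub_mem_span (subset_closure hy') hy)) (by
    rw [add_sub_cancel_right, norm_smul, Real.norm_of_nonneg (by positivity), div_mul_eq_mul_div,
      div_lt_iff₀' t0, ← dist_eq_norm]
    nlinarith [dist_nonneg (x := y) (y := y')])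
  convert cells_cvx hσ hq hy' t0.le t1 (by ring) using 1
  ext i
  simp only [Pi.add_apply, Pi.smul_apply, Pi.sub_apply, smul_eq_mul]
  field_simp
  ring

theorem ext_cl (hσ : σ ∈ K.cells) (hz : z ∈ σ) (hy : y ∈ closure σ) :
    ∃ e : ℝ, 0 < e ∧ z + e • (z - y) ∈ σ := by
  obtain ⟨ε, hε, h⟩ := relopen hσ hz
  have he : 0 < ε / (‖z - y‖ + 1) := by positivity
  refine ⟨_, he, h _ ?_ ?_⟩ <;> rw [add_sub_cancel_left]
  · exact Submodule.smul_mem _ _ (sub_mem_span hy (subset_closure hz))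
  · rw [norm_smul, Real.norm_of_nonneg he.le, div_mul_eq_mul_div, div_lt_iff₀ (by positivity)]
    linarith

theorem cover (hC : IsCompact C) (hs : C ⊆ Ω) :
    {σ | σ ∈ K.cells ∧ (σ ∩ C).Nonempty}.Finite := by
  exact (K.lf C hC hs).subset fun σ ⟨h, x, h1, h2⟩ => ⟨x, h2, cell_eq h h1⟩

theorem faces_finite (hσ : σ ∈ K.cells) : {τ | τ ∈ K.cells ∧ τ ⊆ closure σ}.Finite := by
  exact (cover (K := K) (cells_poly hσ).1 (cl_sub hσ)).subset fun τ h =>
    ⟨h.1, (inter_eq_left.2 h.2).symm ▸ cells_ne h.1⟩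

theorem lf_cl (hΩ : IsOpen Ω) (hC : IsCompact C) (hs : C ⊆ Ω) :
    {σ | σ ∈ K.cells ∧ (closure σ ∩ C).Nonempty}.Finite := by
  obtain ⟨L, h1, h2, h3⟩ := exists_compact_between hC hΩ hs
  refine (cover (K := K) h1 h3).subset fun σ ⟨h, x, k1, k2⟩ => ⟨h, ?_⟩
  obtain ⟨y, k3, k4⟩ := mem_closure_iff.1 k1 _ isOpen_interior (h2 k2)
  exact ⟨y, k4, interior_subset k3⟩

theorem near (hΩ : IsOpen Ω) (hx : x ∈ Ω) : ∀ᶠ y in 𝓝 x, y ∈ Ω ∧ x ∈ closure (K.cell y) := by
  obtain ⟨L, h1, h2, h3⟩ := exists_compact_subset hΩ hx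
  have k : ∀ᶠ y in 𝓝 x, ∀ σ ∈ K.cell '' L, y ∈ closure σ → x ∈ closure σ :=
    (eventually_all_finite (K.lf L h1 h3)).2 fun σ _ => by
      by_cases h : x ∈ closure σ
      · exact .of_forall fun _ _ => h
      · exact mem_of_superset (isClosed_closure.isOpen_compl.mem_nhds h) fun y hy k => (hy k).elim
  filter_upwards [k, mem_interior_iff_mem_nhds.1 h2] with y k1 k2
  exact ⟨h3 k2, k1 _ (mem_image_of_mem _ k2) (subset_closure (K.mem y (h3 k2)))⟩

theorem countable (K : Kx Ω) (hΩ : IsOpen Ω) : K.cells.Countable := by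
  choose! L h1 h2 h3 using fun x (hx : x ∈ Ω) => exists_compact_subset hΩ hx
  obtain ⟨T, t1, t2, t3⟩ := TopologicalSpace.countable_cover_nhdsWithin (s := Ω) (f := L)
    fun x hx => mem_nhdsWithin_of_mem_nhds (mem_interior_iff_mem_nhds.1 (h2 x hx))
  refine (t2.biUnion fun x hx => (K.lf _ (h1 x (t1 hx)) (h3 x (t1 hx))).countable).mono ?_
  rw [← image_iUnion₂]
  exact image_mono t3

/-- The union of the closed cells meeting a compact set is a polyhedron inside `Ω`. -/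
theorem hull (hC : IsCompact C) (hs : C ⊆ Ω) : Poly (⋃ x ∈ C, closure (K.cell x)) := by
  rw [← biUnion_image (f := K.cell) (g := closure)]
  exact Poly.biUnion (K.lf C hC hs) fun σ h => cells_poly (image_mono hs h)

theorem ltp_of_cells {m : ℕ} {G : Rn 3 → Rn m}
    (h : ∀ σ ∈ K.cells, ∃ g, TP g ∧ EqOn G g (closure σ)) : LTP Ω G := by
  intro C hC hs
  choose! g h1 h2 using h
  have s : K.cell '' C ⊆ K.cells := image_mono hs
  obtain ⟨k, k1, k2⟩ := tp_glue_fin (K.lf C hC hs) (X := closure) (fun σ h => cells_poly (s h))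
    (fun σ h => h1 σ (s h)) fun σ h τ h' x hx => (h2 σ (s h) hx.1).symm.trans (h2 τ (s h') hx.2)
  refine ⟨k, k1, fun x hx => ?_⟩
  have m := subset_closure (K.mem x (hs hx))
  exact (h2 _ (K.cell_mem (hs hx)) m).trans (k2 _ (mem_image_of_mem _ hx) m).symm

end Kx

end BEp
end
end

-- merged part: Pool.Agent.Work.MP_f0515e_an.D3.KA2
section
/-! TASK KA2. Dimensions of cells, edges, skeleta.
Plan. `dm_lt`: `vectorSpan τ ≤ vectorSpan σ` (`sub_mem_span`); if the dimensions agree the spans agree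
(`Submodule.eq_of_le_of_finrank_eq`), and a point `y` of `τ` has a relative ball in `τ` which meets `σ` (`y` is in the closure of
`σ`), against `disj`. `dm_one`: `closure σ` is compact, convex and inside a line `z + ℝ v`; its parameter set is a compact interval
`[s, t]`, `s < t`; the ends are not in `σ` by `opn`, inner points are by `seg_mem`. `Edge.left`: `a` is in the closure and not in the
edge, so `dm (cell a) < 1`. `sk_closed`: `near`, and `dm_lt`. `pc_sk`: finitely many cells, each in its affine span. About 250 lines. -/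

open Set Metric Filter Topology Function BEv
open scoped NNReal ENNReal

noncomputable section
namespace BEp

theorem dm_mono {n : ℕ} {σ τ : Set (Rn n)} (h : σ ⊆ τ) : dm σ ≤ dm τ := by
  exact Submodule.finrank_mono (vectorSpan_mono ℝ h)

theorem dm_le {n : ℕ} (σ : Set (Rn n)) : dm σ ≤ n := by
  exact (Submodule.finrank_le _).trans (by simp)

theorem KA2_cl {n : ℕ} (σ : Set (Rn n)) : closure σ ⊆ affineSpan ℝ σ :=
  closure_minimal (subset_affineSpan ℝ σ) (affineSpan ℝ σ).closed_of_finiteDimensional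

theorem KA2_span {n : ℕ} (σ : Set (Rn n)) : vectorSpan ℝ (closure σ) = vectorSpan ℝ σ := by
  refine le_antisymm ?_ (vectorSpan_mono ℝ subset_closure)
  have h := vectorSpan_mono ℝ (KA2_cl σ)
  rwa [← AffineSubspace.direction_eq_vectorSpan, direction_affineSpan] at h

theorem KA2_single {n : ℕ} (a : Rn n) : dm {a} = 0 := by
  rw [dm, vectorSpan_singleton, finrank_bot]

theorem dm_closure {n : ℕ} (σ : Set (Rn n)) : dm (closure σ) = dm σ := by
  rw [dm, dm, KA2_span]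

theorem dm_le_of_sub {n : ℕ} {σ : Set (Rn n)} {P : AffineSubspace ℝ (Rn n)} (h : σ ⊆ P) :
    dm σ ≤ Module.finrank ℝ P.direction := by
  rw [AffineSubspace.direction_eq_vectorSpan]
  exact dm_mono h

theorem seg_image {n : ℕ} (a b : Rn n) : seg a b '' Icc 0 1 = segment ℝ a b := by
  exact (segment_eq_image' ℝ a b).symm

theorem seg_image_open {n : ℕ} (a b : Rn n) : seg a b '' Ioo 0 1 = openSegment ℝ a b := by
  exact (openSegment_eq_image' ℝ a b).symm

theorem tp_seg {n : ℕ} (a b : Rn n) : TP (seg a b) := by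
  exact (TP.const a).add (TP.id'.smul_const (b - a))

namespace Kx
variable {Ω : Set (Rn 3)} {K : Kx Ω} {σ τ C : Set (Rn 3)} {x y z a b a' b' : Rn 3} {d : ℕ}

theorem dm_lt (hσ : σ ∈ K.cells) (hτ : τ ∈ K.cells) (h : τ ⊆ closure σ) (hne : τ ≠ σ) :
    dm τ < dm σ := by
  by_contra hlt
  have e : vectorSpan ℝ τ = vectorSpan ℝ σ :=
    Submodule.eq_of_le_of_finrank_le (KA2_span σ ▸ vectorSpan_mono ℝ h) (not_lt.1 hlt)
  obtain ⟨y, hy⟩ := cells_ne hτ
  obtain ⟨ε, hε, h1⟩ := relopen hτ hy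
  obtain ⟨z, hz, h2⟩ := Metric.mem_closure_iff.1 (h hy) ε hε
  refine disjoint_left.1 (disj hτ hσ hne) (h1 z ?_ ?_) hz
  · rw [e]
    exact sub_mem_span (h hy) (subset_closure hz)
  · rwa [← dist_eq_norm, dist_comm]

theorem dm_zero (hσ : σ ∈ K.cells) : dm σ = 0 ↔ ∃ a, σ = {a} := by
  refine ⟨fun h => ?_, fun ⟨a, h⟩ => h ▸ KA2_single a⟩
  obtain ⟨a, ha⟩ := cells_ne hσ
  refine ⟨a, eq_singleton_iff_unique_mem.2 ⟨ha, fun x hx => ?_⟩⟩
  have h1 := sub_mem_span (subset_closure ha) (subset_closure hx)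
  rw [Submodule.finrank_eq_zero.1 h, Submodule.mem_bot] at h1
  exact sub_eq_zero.1 h1

theorem dm_three (hσ : σ ∈ K.cells) : dm σ = 3 ↔ IsOpen σ := by
  constructor
  · intro h
    have e : vectorSpan ℝ σ = ⊤ := Submodule.eq_top_of_finrank_eq (h.trans (by simp))
    refine Metric.isOpen_iff.2 fun z hz => ?_
    obtain ⟨ε, hε, h1⟩ := relopen hσ hz
    exact ⟨ε, hε, fun y hy => h1 y (e ▸ Submodule.mem_top) (mem_ball_iff_norm.1 hy)⟩
  · intro h
    rw [dm, ← direction_affineSpan, h.affineSpan_eq_top (cells_ne hσ),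
      AffineSubspace.direction_top]
    simp

theorem dm_one (hσ : σ ∈ K.cells) (h : dm σ = 1) : ∃ a b, K.Edge a b ∧ σ = openSegment ℝ a b := by
  obtain ⟨⟨v, hv⟩, hv0, hsp⟩ := finrank_eq_one_iff'.1 h
  replace hv0 : v ≠ 0 := fun e => hv0 (Subtype.ext e)
  obtain ⟨z, hz⟩ := cells_ne hσ
  have hT : IsCompact {u : ℝ | z + u • v ∈ closure σ} :=
    ((Homeomorph.addLeft z).isClosedEmbedding.comp
      (isClosedEmbedding_smul_left (𝕜 := ℝ) hv0)).isCompact_preimage (cells_poly hσ).1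
  have h0 : (0 : ℝ) ∈ {u : ℝ | z + u • v ∈ closure σ} := by simpa using subset_closure hz
  obtain ⟨s, hs⟩ := hT.exists_isLeast ⟨0, h0⟩
  obtain ⟨t, ht⟩ := hT.exists_isGreatest ⟨0, h0⟩
  have h1 : ∀ u : ℝ, z + u • v ∈ σ → u ∈ Ioo s t := fun u hu => by
    obtain ⟨ε, hε, h2⟩ := relopen hσ hu
    have hn := norm_pos_iff.2 hv0
    have h3 : ∀ c : ℝ, |c| = ε / 2 / ‖v‖ → z + (u + c) • v ∈ closure σ := fun c hc => by
      refine subset_closure (h2 _ ?_ ?_)
      · rw [add_smul, ← add_assoc, add_sub_cancel_left]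
        exact Submodule.smul_mem _ _ hv
      · rw [add_smul, ← add_assoc, add_sub_cancel_left, norm_smul, Real.norm_eq_abs, hc,
          div_mul_cancel₀ _ hn.ne']
        linarith
    have h4 : 0 < ε / 2 / ‖v‖ := by positivity
    have h5 := hs.2 (h3 (-(ε / 2 / ‖v‖)) (by rw [abs_neg, abs_of_pos h4]))
    have h6 := ht.2 (h3 (ε / 2 / ‖v‖) (abs_of_pos h4))
    exact ⟨by linarith, by linarith⟩
  obtain ⟨s0, t0⟩ := h1 0 (by simpa using hz)
  have h2 : ∀ u ∈ Ioo s t, z + u • v ∈ σ := fun u hu => by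
    rcases le_total u 0 with h3 | h3
    · have h4 := seg_mem hσ hs.1 hz (t := (u - s) / (-s))
        ⟨div_pos (sub_pos.2 hu.1) (neg_pos.2 s0), (div_le_one (neg_pos.2 s0)).2 (by linarith)⟩
      convert h4 using 1
      have := s0.ne
      match_scalars <;> field_simp <;> ring
    · have h4 := seg_mem hσ ht.1 hz (t := (t - u) / t)
        ⟨div_pos (sub_pos.2 hu.2) t0, (div_le_one t0).2 (by linarith)⟩
      convert h4 using 1
      have := t0.ne'
      match_scalars <;> field_simp <;> ring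
  have e : σ = openSegment ℝ (z + s • v) (z + t • v) := by
    have hf : ∀ u : ℝ, AffineMap.lineMap z (z + v) u = z + u • v := fun u => by
      rw [AffineMap.lineMap_apply, vsub_eq_sub, vadd_eq_add, add_sub_cancel_left, add_comm]
    rw [← hf, ← hf, ← image_openSegment, openSegment_eq_Ioo (s0.trans t0)]
    ext y
    constructor
    · intro hy
      obtain ⟨c, hc⟩ := hsp ⟨y - z, sub_mem_span (subset_closure hz) (subset_closure hy)⟩
      have h3 : z + c • v = y := by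
        rw [show c • v = y - z from congrArg Subtype.val hc, add_sub_cancel]
      exact ⟨c, h1 c (h3 ▸ hy), (hf c).trans h3⟩
    · rintro ⟨u, hu, rfl⟩
      rw [hf]
      exact h2 u hu
  refine ⟨_, _, ⟨fun h3 => ?_, e ▸ hσ⟩, e⟩
  exact (s0.trans t0).ne (smul_left_injective ℝ hv0 (add_left_cancel h3))

theorem Edge.symm (h : K.Edge a b) : K.Edge b a := ⟨h.1.symm, openSegment_symm ℝ a b ▸ h.2⟩

theorem Edge.dm (h : K.Edge a b) : dm (openSegment ℝ a b) = 1 := by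
  rw [← dm_closure, closure_openSegment, BEp.dm, vectorSpan_segment]
  exact finrank_span_singleton (vsub_ne_zero.2 h.1.symm)

theorem Edge.cl (h : K.Edge a b) : closure (openSegment ℝ a b) = segment ℝ a b := by
  exact closure_openSegment a b

theorem Edge.left (h : K.Edge a b) : a ∈ Ω ∧ K.cell a = {a} := by
  have h1 : a ∈ closure (openSegment ℝ a b) := h.cl ▸ left_mem_segment ℝ a b
  have h2 : a ∈ Ω := cl_sub h.2 h1
  have h3 := dm_lt h.2 (K.cell_mem h2) (front (K.cell_mem h2) h.2 ⟨a, K.mem a h2, h1⟩)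
    fun e => h.1 (left_mem_openSegment_iff.1 (e ▸ K.mem a h2 : a ∈ openSegment ℝ a b))
  rw [h.dm] at h3
  obtain ⟨c, hc⟩ := (dm_zero (K.cell_mem h2)).1 (by omega)
  have h4 : a = c := by simpa [hc] using K.mem a h2
  exact ⟨h2, h4 ▸ hc⟩

theorem Edge.right (h : K.Edge a b) : b ∈ Ω ∧ K.cell b = {b} := h.symm.left

theorem KA2_seg (hx : x ∈ segment ℝ a b) : x = a ∨ x = b ∨ x ∈ openSegment ℝ a b := by
  rwa [← insert_endpoints_openSegment] at hx

theorem Edge.uniq (h : K.Edge a b) (e : openSegment ℝ a b = openSegment ℝ a' b') :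
    (a = a' ∧ b = b') ∨ (a = b' ∧ b = a') := by
  have e' : segment ℝ a b = segment ℝ a' b' := by
    rw [← closure_openSegment, e, closure_openSegment]
  have h1 := KA2_seg (e' ▸ left_mem_segment ℝ a b)
  have h2 := KA2_seg (e' ▸ right_mem_segment ℝ a b)
  rw [← e, left_mem_openSegment_iff] at h1
  rw [← e, right_mem_openSegment_iff] at h2
  have := h.1
  rcases h1 with h1 | h1 | h1 <;> rcases h2 with h2 | h2 | h2 <;> simp_all

theorem KA2_cases (h : K.Edge a b) (hx : x ∈ segment ℝ a b) :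
    (x ∈ ({a, b} : Set (Rn 3)) ∧ dm (K.cell x) = 0) ∨
      (K.cell x = openSegment ℝ a b ∧ dm (K.cell x) = 1) := by
  rcases KA2_seg hx with rfl | rfl | h1
  · exact Or.inl ⟨Or.inl rfl, by rw [h.left.2, KA2_single]⟩
  · exact Or.inl ⟨Or.inr rfl, by rw [h.right.2, KA2_single]⟩
  · exact Or.inr ⟨cell_eq h.2 h1, by rw [cell_eq h.2 h1, h.dm]⟩

theorem Edge.inter (h : K.Edge a b) (h' : K.Edge a' b')
    (hne : openSegment ℝ a b ≠ openSegment ℝ a' b') :
    segment ℝ a b ∩ segment ℝ a' b' = {a, b} ∩ {a', b'} := by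
  refine Subset.antisymm (fun x hx => ?_) (inter_subset_inter
    (pair_subset (left_mem_segment ℝ a b) (right_mem_segment ℝ a b))
    (pair_subset (left_mem_segment ℝ a' b') (right_mem_segment ℝ a' b')))
  rcases KA2_cases h hx.1 with h1 | h1 <;> rcases KA2_cases h' hx.2 with h2 | h2
  · exact ⟨h1.1, h2.1⟩
  · omega
  · omega
  · exact absurd (h1.1.symm.trans h2.1) hne

theorem sk_sub (K : Kx Ω) (d : ℕ) : K.sk d ⊆ Ω := fun _ h => h.1

theorem sk_mono {d' : ℕ} (h : d ≤ d') : K.sk d ⊆ K.sk d' := fun _ k => ⟨k.1, k.2.trans h⟩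

theorem cl_sub_sk (hσ : σ ∈ K.cells) (h : dm σ ≤ d) : closure σ ⊆ K.sk d := by
  intro x hx
  have h1 := cl_sub hσ hx
  exact ⟨h1, ((dm_mono (front (K.cell_mem h1) hσ ⟨x, K.mem x h1, hx⟩)).trans
    (dm_closure σ).le).trans h⟩

theorem Edge.seg_sub (h : K.Edge a b) : segment ℝ a b ⊆ K.sk 1 := by
  exact h.cl ▸ cl_sub_sk h.2 h.dm.le

theorem mem_sk_one : x ∈ K.sk 1 ↔
    (x ∈ Ω ∧ K.cell x = {x}) ∨ ∃ a b, K.Edge a b ∧ x ∈ openSegment ℝ a b := by
  constructor
  · rintro ⟨h1, h2⟩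
    by_cases h3 : dm (K.cell x) = 0
    · obtain ⟨c, hc⟩ := (dm_zero (K.cell_mem h1)).1 h3
      have h4 : x = c := by simpa [hc] using K.mem x h1
      exact Or.inl ⟨h1, h4 ▸ hc⟩
    · obtain ⟨a, b, h4, h5⟩ := dm_one (K.cell_mem h1) (by omega)
      exact Or.inr ⟨a, b, h4, h5 ▸ K.mem x h1⟩
  · rintro (⟨h1, h2⟩ | ⟨a, b, h1, h2⟩)
    · exact ⟨h1, by rw [h2, KA2_single]; exact zero_le_one⟩
    · exact h1.seg_sub (openSegment_subset_segment ℝ a b h2)

theorem sk_closed (hΩ : IsOpen Ω) (hx : x ∈ Ω) (h : x ∈ closure (K.sk d)) : x ∈ K.sk d := by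
  obtain ⟨y, h1, h2⟩ := ((mem_closure_iff_frequently.1 h).and_eventually (near (K := K) hΩ hx)).exists
  exact cl_sub_sk (K.cell_mem h1.1) h1.2 h2.2

theorem KA2_sk (hC : IsCompact C) (hs : C ⊆ Ω) (d : ℕ) :
    ∃ X, Poly X ∧ PC d X ∧ K.sk d ∩ C ⊆ X ∧ X ⊆ K.sk d := by
  have hf : {σ | (σ ∈ K.cells ∧ (σ ∩ C).Nonempty) ∧ dm σ ≤ d}.Finite :=
    (cover hC hs).subset fun σ h => h.1
  refine ⟨⋃ σ ∈ {σ | (σ ∈ K.cells ∧ (σ ∩ C).Nonempty) ∧ dm σ ≤ d}, closure σ,
    Poly.biUnion hf fun σ h => cells_poly h.1.1, PC.biUnion hf fun σ h => ?_, fun x hx => ?_,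
    iUnion₂_subset fun σ h => cl_sub_sk h.1.1 h.2⟩
  · refine ⟨{affineSpan ℝ σ}, finite_singleton _, ?_, fun x hx => ⟨_, rfl, KA2_cl σ hx⟩⟩
    rintro _ rfl
    rw [direction_affineSpan]
    exact h.2
  · exact mem_iUnion₂.2 ⟨K.cell x, ⟨⟨K.cell_mem hx.1.1, x, K.mem x hx.1.1, hx.2⟩, hx.1.2⟩,
      subset_closure (K.mem x hx.1.1)⟩

theorem pc_sk (hC : IsCompact C) (hs : C ⊆ Ω) (d : ℕ) : PC d (K.sk d ∩ C) := by
  obtain ⟨X, -, h1, h2, -⟩ := KA2_sk (K := K) hC hs d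
  exact h1.mono h2

theorem poly_sk (hC : IsCompact C) (hs : C ⊆ Ω) (d : ℕ) :
    ∃ X, Poly X ∧ PC d X ∧ K.sk d ∩ C ⊆ X ∧ X ⊆ K.sk d := by
  exact KA2_sk hC hs d

theorem Ref.sk {K' : Kx Ω} (h : K.Ref K') (d : ℕ) : K.sk d ⊆ K'.sk d :=
  fun x hx => ⟨hx.1, (dm_mono (h x hx.1)).trans hx.2⟩

theorem Ref.trans {K' K'' : Kx Ω} (h : K.Ref K') (h' : K'.Ref K'') : K.Ref K'' :=
  fun x hx => (h' x hx).trans (h x hx)

theorem KA2_fib (K : Kx Ω) (σ : Set (Rn 3)) :
    {p : Rn 3 × Rn 3 | K.Edge p.1 p.2 ∧ openSegment ℝ p.1 p.2 = σ}.Finite := by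
  rcases {p : Rn 3 × Rn 3 | K.Edge p.1 p.2 ∧ openSegment ℝ p.1 p.2 = σ}.eq_empty_or_nonempty with
    h | ⟨q, hq⟩
  · exact h ▸ finite_empty
  · refine (toFinite {q, q.swap}).subset fun p hp => ?_
    rcases hp.1.uniq (hp.2.trans hq.2.symm) with h | h
    · exact Or.inl (Prod.ext h.1 h.2)
    · exact Or.inr (Prod.ext h.1 h.2)

/-- The oriented edges are countable. -/
theorem countable_edge (K : Kx Ω) (hΩ : IsOpen Ω) :
    {p : Rn 3 × Rn 3 | K.Edge p.1 p.2}.Countable := by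
  refine ((K.countable hΩ).biUnion fun σ _ => (KA2_fib K σ).countable).mono fun p hp => ?_
  exact mem_iUnion₂.2 ⟨_, hp.2, hp, rfl⟩

theorem finite_edge (hΩ : IsOpen Ω) (hC : IsCompact C) (hs : C ⊆ Ω) :
    {p : Rn 3 × Rn 3 | K.Edge p.1 p.2 ∧ (segment ℝ p.1 p.2 ∩ C).Nonempty}.Finite := by
  refine ((lf_cl (K := K) hΩ hC hs).biUnion fun σ _ => KA2_fib K σ).subset fun p hp => ?_
  exact mem_iUnion₂.2 ⟨_, ⟨hp.1.2, hp.1.cl ▸ hp.2⟩, hp.1, rfl⟩

end Kx

end BEp
end
end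
end

-- merged part: Pool.Agent.Work.MP_f0515e_an.D3.CTop
section
-- merged part: Pool.Agent.Work.MP_f0515e_an.D3.CDefs
section
/-! Input of the filling theorem. -/

open Set Metric Filter Topology Function BEv
open scoped NNReal

noncomputable section
namespace BEp

/-- Relative boundary of a cell. -/
def rb {n : ℕ} (σ : Set (Rn n)) : Set (Rn n) := closure σ \ σ

/-- An embedding `g` of the one skeleton, a spanning disc `D c` for each face `c` (not disjoint),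
and a finite set `R` of rigid cells, on which `g` is already defined. -/
structure Pre {Ω : Set (Rn 3)} (K : Kx Ω) (f g : Rn 3 → Rn 3) (D : Set (Rn 3) → Set (Rn 3))
    (R : Set (Set (Rn 3))) : Prop where
  opn : IsOpen Ω
  cont : ContinuousOn f Ω
  inj : InjOn f Ω
  gtp : ∀ e ∈ K.cells, dm e ≤ 1 → ∃ u, TP u ∧ EqOn g u (closure e)
  ginj : InjOn g (K.sk 1)
  gV : g '' K.sk 1 ⊆ f '' Ω
  glf : ∀ C, IsCompact C → C ⊆ f '' Ω →
    {e | e ∈ K.cells ∧ dm e ≤ 1 ∧ (g '' closure e ∩ C).Nonempty}.Finite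
  disc : ∀ c ∈ K.cel 2, PDsc (D c) (g '' rb c)
  dV : ∀ c ∈ K.cel 2, D c ⊆ f '' Ω
  dG : ∀ c ∈ K.cel 2, D c ∩ g '' K.sk 1 ⊆ g '' rb c
  rfin : R.Finite
  r2 : ∀ c ∈ R, c ∈ K.cel 2 → D c = g '' closure c ∧ InjOn g (closure c) ∧
    ∃ u, TP u ∧ EqOn g u (closure c)
  rdis : ∀ c ∈ R, c ∈ K.cel 2 → ∀ c' ∈ R, c' ∈ K.cel 2 → c ≠ c' → D c ∩ D c' ⊆ g '' K.sk 1
  r3 : ∀ P ∈ R, P ∈ K.cel 3 → (∃ u, LH u ∧ EqOn g u (closure P)) ∧
    ∀ c ∈ K.cel 2, c ⊆ closure P → c ∈ R
  anc : {P | P ∈ K.cel 3 ∧ ¬ ∃ x ∈ closure P ∩ K.sk 1, g x ∈ f '' closure P}.Finite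

end BEp
end
end

-- merged part: Pool.Agent.Work.MP_f0515e_an.D3.CFrag
section
/-! Shrinking a parametrised cell by moves with small support. -/

open Set Metric Filter Topology Function BEv
open scoped NNReal

noncomputable section
namespace BEp

variable {n m : ℕ}

/-- The reparametrisation `h` of the cube is realised by an ambient map. -/
def CRl (φ : Rn n → Rn m) (h : Rn n → Rn n) : Prop :=
  ∃ Φ, LH Φ ∧ ∀ y, ‖y‖ ≤ 1 → ‖h y‖ ≤ 1 → Φ (φ y) = φ (h y)

/-- Partial shrinking. -/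
def cfH (κ δ : ℝ) (T : Finset (Rn n)) (y : Rn n) : Rn n :=
  y + fun i => -clamp (κ * y i) (δ / 4 - dcap T (δ / 2) y / 2)

theorem cf_nn {δ : ℝ} (T : Finset (Rn n)) (y : Rn n) : 0 ≤ δ / 4 - dcap T (δ / 2) y / 2 := by
  have := dcap_le_cap T (δ / 2) y
  linarith

theorem cf_lh {κ δ : ℝ} (h0 : 0 ≤ κ) (h1 : κ ≤ 1 / 2) (T : Finset (Rn n)) : LH (cfH κ δ T) := by
  refine plsg_lh (K := 1 / 2) (TP.pi fun i => (((TP.id'.apply i).const_mul κ).clamp
    ((TP.const _).sub ((TP.dcap T _).div_const 2))).neg) (by norm_num)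
    (LipschitzWith.of_dist_le_mul fun x y => ?_)
  rw [dist_eq_norm, dist_eq_norm]
  refine (pi_norm_le_iff_of_nonneg (by positivity)).2 fun i => ?_
  rw [Pi.sub_apply, Real.norm_eq_abs, neg_sub_neg, abs_sub_comm]
  refine (abs_clamp_sub_le _ _ _ _).trans (max_le ?_ ?_)
  · rw [← mul_sub, abs_mul, abs_of_nonneg h0]
    exact mul_le_mul (by simpa using h1) (norm_le_pi_norm (x - y) i) (abs_nonneg _) (by positivity)
  · have := abs_le.1 (abs_dcap_sub_le T (δ / 2) x y)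
    rw [abs_le]
    push_cast
    constructor <;> linarith [this.1, this.2]

theorem cf_mem {κ δ : ℝ} (h0 : 0 ≤ κ) (h1 : κ ≤ 1 / 2) (T : Finset (Rn n)) {y : Rn n}
    (hy : ‖y‖ ≤ 1) : ‖cfH κ δ T y‖ ≤ 1 := by
  refine (pi_norm_le_iff_of_nonneg zero_le_one).2 fun i => ?_
  have a := abs_le.1 ((norm_le_pi_norm y i).trans hy)
  have b := cf_nn (δ := δ) T y
  simp only [cfH, Pi.add_apply, Real.norm_eq_abs, clamp, abs_le]
  rcases le_total 0 (y i) with k | k
  · have c : 0 ≤ κ * y i := mul_nonneg h0 k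
    have d : κ * y i ≤ y i := mul_le_of_le_one_left k (by linarith)
    have e := min_le_left (κ * y i) (δ / 4 - dcap T (δ / 2) y / 2)
    have e' : 0 ≤ min (κ * y i) (δ / 4 - dcap T (δ / 2) y / 2) := le_min c b
    rw [max_eq_right (by linarith)]
    constructor <;> linarith [a.1, a.2]
  · have c : κ * y i ≤ 0 := mul_nonpos_of_nonneg_of_nonpos h0 k
    have d : y i ≤ κ * y i := by nlinarith
    rw [min_eq_left (by linarith)]
    have e := le_max_right (-(δ / 4 - dcap T (δ / 2) y / 2)) (κ * y i)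
    have e' : max (-(δ / 4 - dcap T (δ / 2) y / 2)) (κ * y i) ≤ 0 := max_le (by linarith) c
    constructor <;> linarith [a.1, a.2]

theorem cf_dist {κ δ : ℝ} (hδ : 0 < δ) (T : Finset (Rn n)) (y : Rn n) :
    ‖cfH κ δ T y - y‖ ≤ δ / 4 := by
  refine (pi_norm_le_iff_of_nonneg (by positivity)).2 fun i => ?_
  have := dcap_nonneg T (M := δ / 2) (by positivity) y
  simp only [cfH, add_sub_cancel_left, Real.norm_eq_abs, abs_neg]
  exact (abs_clamp_le (cf_nn T y)).trans (by linarith)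

theorem cf_step {φ : Rn n → Rn m} {κ δ : ℝ} (h0 : 0 ≤ κ) (h1 : κ ≤ 1 / 2) (hδ : 0 < δ)
    (T : Finset (Rn n)) (h : ∀ c ∈ T, ∀ h, Mv (ball c δ) h → CRl φ h) :
    ∃ Φ, LH Φ ∧ ∀ y, ‖y‖ ≤ 1 → Φ (φ y) = φ (cfH κ δ T y) := by
  classical
  induction T using Finset.induction_on with
  | empty =>
    refine ⟨id, LH.id', fun y _ => congrArg φ ?_⟩
    ext i
    simp [cfH, dcap, cmin, show δ / 4 - δ / 2 / 2 = 0 by ring, clamp_zero]
  | insert c T hc ih =>
    obtain ⟨Φ, p1, p2⟩ := ih fun c' k => h c' (Finset.mem_insert_of_mem k)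
    have l := cf_lh (δ := δ) h0 h1 T
    obtain ⟨Ψ, q1, q2⟩ := h c (Finset.mem_insert_self _ _) (cfH κ δ (insert c T) ∘ invFun (cfH κ δ T))
      ⟨(cf_lh h0 h1 _).comp l.inv, fun x hx => by
        obtain ⟨y, rfl⟩ := l.1.2 x
        rw [comp_apply, l.li]
        have e : δ / 2 ≤ ‖y - c‖ := by
          have a := cf_dist (κ := κ) hδ T y
          have b := norm_sub_le_norm_sub_add_norm_sub (cfH κ δ T y) y c
          rw [mem_ball_iff_norm, not_lt] at hx
          linarith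
        have e' : dcap (insert c T) (δ / 2) y = dcap T (δ / 2) y := by
          simp only [dcap, cmin, Finset.fold_insert hc]
          exact min_eq_right ((dcap_le_cap T _ y).trans e)
        simp only [cfH, e']⟩
    refine ⟨Ψ ∘ Φ, q1.comp p1, fun y hy => ?_⟩
    have e : (cfH κ δ (insert c T) ∘ invFun (cfH κ δ T)) (cfH κ δ T y) = cfH κ δ (insert c T) y := by
      rw [comp_apply, l.li]
    rw [comp_apply, p2 y hy, q2 _ (cf_mem h0 h1 T hy) (e ▸ cf_mem h0 h1 _ hy), e]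

theorem cf_shrink {φ : Rn n → Rn m}
    (h : ∀ x : Rn n, ‖x‖ ≤ 1 → ∃ δ > 0, ∀ h, Mv (ball x δ) h → CRl φ h) {a : ℝ} (ha : 0 < a) :
    ∃ b Φ, 0 < b ∧ b ≤ a ∧ LH Φ ∧ ∀ y, ‖y‖ ≤ 1 → Φ (φ y) = φ (b • y) := by
  classical
  choose! r r0 hr using h
  obtain ⟨δ, hδ, k⟩ := lebesgue_number_lemma_of_metric (isCompact_closedBall (0 : Rn n) 1)
    (c := fun x : closedBall (0 : Rn n) 1 => ball x.1 (r x)) (fun _ => isOpen_ball) fun x hx =>
      mem_iUnion.2 ⟨⟨x, hx⟩, mem_ball_self (r0 x (mem_closedBall_zero_iff.1 hx))⟩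
  obtain ⟨t, t1, t2, t3⟩ := (isCompact_closedBall (0 : Rn n) 1).finite_cover_balls
    (show 0 < δ / 4 by positivity)
  set κ := min (1 / 2) (δ / 8) with hκ
  have κ0 : 0 < κ := by positivity
  have κ1 : κ ≤ 1 / 2 := min_le_left _ _
  obtain ⟨Φ, p1, p2⟩ := cf_step (φ := φ) κ0.le κ1 hδ t2.toFinset fun c hc h hh => by
    obtain ⟨x, hx⟩ := k c (t1 (t2.mem_toFinset.1 hc))
    exact hr x (mem_closedBall_zero_iff.1 x.2) h (hh.mono hx)
  have p3 : ∀ y, ‖y‖ ≤ 1 → Φ (φ y) = φ ((1 - κ) • y) := fun y hy => by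
    rw [p2 y hy]
    congr 1
    ext i
    obtain ⟨c, hc, e⟩ := mem_iUnion₂.1 (t3 (mem_closedBall_zero_iff.2 hy))
    have a1 := dcap_le (δ / 2) y (t2.mem_toFinset.2 hc)
    rw [mem_ball_iff_norm] at e
    have a2 : |κ * y i| ≤ δ / 8 := by
      rw [abs_mul, abs_of_pos κ0]
      exact (mul_le_of_le_one_right κ0.le ((norm_le_pi_norm y i).trans hy)).trans (min_le_right _ _)
    simp only [cfH, Pi.add_apply, Pi.smul_apply, smul_eq_mul]
    rw [clamp_eq_self (by linarith)]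
    ring
  have p4 : ∀ N : ℕ, ∃ Ψ, LH Ψ ∧ ∀ y, ‖y‖ ≤ 1 → Ψ (φ y) = φ ((1 - κ) ^ N • y) := fun N => by
    induction N with
    | zero => exact ⟨id, LH.id', fun y _ => by simp⟩
    | succ N ih =>
      obtain ⟨Ψ, q1, q2⟩ := ih
      refine ⟨Φ ∘ Ψ, p1.comp q1, fun y hy => ?_⟩
      rw [comp_apply, q2 y hy, p3, smul_smul, pow_succ']
      rw [norm_smul, Real.norm_of_nonneg (pow_nonneg (by linarith) _)]
      exact mul_le_one₀ (pow_le_one₀ (by linarith) (by linarith)) (norm_nonneg _) hy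
  obtain ⟨N, hN⟩ := exists_pow_lt_of_lt_one ha (show 1 - κ < 1 by linarith)
  obtain ⟨Ψ, q1, q2⟩ := p4 N
  exact ⟨_, Ψ, pow_pos (by linarith) N, hN.le, q1, q2⟩

end BEp
end
end

-- merged part: Pool.Agent.Work.MP_f0515e_an.D3.CTop
section
/-! Recursion over a countable set and connectedness lemmas for the filling theorem. -/

open Set Metric Filter Topology Function BEv
open scoped NNReal

noncomputable section
namespace BEp

theorem rec_fam {ι α : Type} {S R : Set ι} (hS : S.Countable) (hR : R.Finite)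
    {P : ι → α → Prop} {r : α → α → Prop} (hs : ∀ a b, r a b → r b a) {D : ι → α}
    (h1 : ∀ i ∈ S, i ∈ R → P i (D i)) (h2 : ∀ i ∈ S, i ∈ R → ∀ j ∈ S, j ∈ R → i ≠ j → r (D i) (D j))
    (st : ∀ T ⊆ S, T.Finite → ∀ F : ι → α, (∀ i ∈ T, P i (F i)) →
      (∀ i ∈ T, ∀ j ∈ T, i ≠ j → r (F i) (F j)) → ∀ i ∈ S, i ∉ T →
        ∃ a, P i a ∧ ∀ j ∈ T, r a (F j)) :
    ∃ F : ι → α, (∀ i ∈ S, P i (F i)) ∧ (∀ i ∈ R, F i = D i) ∧
      ∀ i ∈ S, ∀ j ∈ S, i ≠ j → r (F i) (F j) := by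
  classical
  obtain ⟨e, he⟩ := countable_iff_exists_injOn.1 hS
  let T : ℕ → Set ι := fun n => {i | i ∈ S ∧ (i ∈ R ∨ e i < n)}
  have mono : ∀ {n m}, n ≤ m → T n ⊆ T m := fun h i hi => ⟨hi.1, hi.2.imp id fun k => k.trans_le h⟩
  let I : ℕ → (ι → α) → Prop := fun n F => (∀ i ∈ T n, P i (F i)) ∧ (∀ i ∈ R, F i = D i) ∧
    ∀ i ∈ T n, ∀ j ∈ T n, i ≠ j → r (F i) (F j)
  have step : ∀ n F, ∃ F', I n F → I (n + 1) F' ∧ ∀ i ∈ T n, F' i = F i := fun n F => by
    by_cases hI : I n F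
    swap
    · exact ⟨F, fun k => absurd k hI⟩
    by_cases h : T (n + 1) ⊆ T n
    · exact ⟨F, fun _ => ⟨⟨fun i hi => hI.1 i (h hi), hI.2.1, fun i hi j hj =>
        hI.2.2 i (h hi) j (h hj)⟩, fun _ _ => rfl⟩⟩
    obtain ⟨i, hi, hi'⟩ := not_subset.1 h
    have en : ∀ j ∈ T (n + 1), j ∉ T n → e j = n := fun j hj hj' => by
      have a : ¬ (j ∈ R ∨ e j < n) := fun k => hj' ⟨hj.1, k⟩
      have b := hj.2.resolve_left fun k => a (Or.inl k)
      have c : ¬ e j < n := fun k => a (Or.inr k)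
      omega
    have u : ∀ j ∈ T (n + 1), j ≠ i → j ∈ T n := fun j hj ne => by_contra fun k =>
      ne (he hj.1 hi.1 ((en j hj k).trans (en i hi hi').symm))
    have fin : (T n).Finite := (hR.union (Finite.of_finite_image (f := e)
      (s := {j | j ∈ S ∧ e j < n}) ((finite_lt_nat n).subset (by rintro _ ⟨j, hj, rfl⟩; exact hj.2))
      (he.mono fun j hj => hj.1))).subset fun j hj => hj.2.imp id fun k => ⟨hj.1, k⟩
    obtain ⟨a, a1, a2⟩ := st (T n) (fun j hj => hj.1) fin F hI.1 hI.2.2 i hi.1 hi'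
    refine ⟨update F i a, fun _ => ⟨⟨fun j hj => ?_, fun j hj => ?_, fun j hj k hk ne => ?_⟩,
      fun j hj => update_of_ne (fun k : j = i => hi' (k ▸ hj)) _ _⟩⟩
    · by_cases c : j = i
      · rw [c, update_self]
        exact a1
      · rw [update_of_ne c]
        exact hI.1 j (u j hj c)
    · rw [update_of_ne fun k : j = i => hi' ⟨hi.1, Or.inl (k ▸ hj)⟩]
      exact hI.2.1 j hj
    · by_cases c : j = i
      · have c' : k ≠ i := fun q => ne (c.trans q.symm)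
        rw [c, update_self, update_of_ne c']
        exact a2 k (u k hk c')
      · by_cases c' : k = i
        · rw [c', update_self, update_of_ne c]
          exact hs _ _ (a2 j (u j hj c))
        · rw [update_of_ne c, update_of_ne c']
          exact hI.2.2 j (u j hj c) k (u k hk c') ne
  choose nx hnx using step
  let F : ℕ → ι → α := fun n => Nat.rec D nx n
  have z : ∀ {i}, i ∈ T 0 → i ∈ R := fun hi => hi.2.resolve_right (Nat.not_lt_zero _)
  have inv : ∀ n, I n (F n) := fun n => by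
    induction n with
    | zero => exact ⟨fun i hi => h1 i hi.1 (z hi), fun _ _ => rfl, fun i hi j hj =>
        h2 i hi.1 (z hi) j hj.1 (z hj)⟩
    | succ n ih => exact (hnx n _ ih).1
  have stab : ∀ n m, n ≤ m → ∀ i ∈ T n, F m i = F n i := fun n m h i hi => by
    induction m, h using Nat.le_induction with
    | base => rfl
    | succ m h ih => exact ((hnx m _ (inv m)).2 i (mono h hi)).trans ih
  have m : ∀ i ∈ S, i ∈ T (e i + 1) := fun i hi => ⟨hi, Or.inr (Nat.lt_succ_self _)⟩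
  refine ⟨fun i => F (e i + 1) i, fun i hi => (inv _).1 i (m i hi),
    fun i hi => (inv (e i + 1)).2.1 i hi, fun i hi j hj ne => ?_⟩
  have := (inv (max (e i + 1) (e j + 1))).2.2 i (mono (le_max_left _ _) (m i hi)) j
    (mono (le_max_right _ _) (m j hj)) ne
  rwa [stab _ _ (le_max_left _ _) i (m i hi), stab _ _ (le_max_right _ _) j (m j hj)] at this

variable {n : ℕ}

/-- The boundary of a convex body minus a convex set missing its interior is connected. -/
theorem bd_conn {P Z : Set (Rn n)} (hP : Convex ℝ P) (ho : IsOpen P)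
    (hb : Bornology.IsBounded P) (hne : P.Nonempty) (hZ : Convex ℝ Z) (hd : Disjoint P Z)
    (h0 : (closure P ∩ Z).Nonempty) : IsPreconnected ((closure P \ P) \ Z) := by
  obtain ⟨o, hoP⟩ := hne
  obtain ⟨k₀, hk₀⟩ := h0
  set s := (Homeomorph.addLeft o) ⁻¹' P
  have c : Convex ℝ s := hP.translate_preimage_right o
  have s0 : s ∈ 𝓝 0 := (ho.preimage (Homeomorph.continuous _)).mem_nhds (by simpa [s] using hoP)
  have fr : ∀ v, gauge s v = 1 ↔ o + v ∈ closure P \ P := fun v => by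
    rw [gauge_eq_one_iff_mem_frontier c s0, ← Homeomorph.preimage_frontier, ho.frontier_eq]
    rfl
  have pos : ∀ v, v ≠ 0 → 0 < gauge s v := fun v => (gauge_pos (absorbent_nhds_zero s0)
    ((NormedSpace.isVonNBounded_iff ℝ).2 (((isometry_add_left o).antilipschitz.isBounded_preimage
      hb)))).2
  have cZ := hP.closure.inter hZ
  have f1 : ∀ k ∈ closure P ∩ Z, gauge s (k - o) = 1 := fun k hk =>
    (fr _).2 (by rw [add_sub_cancel]; exact ⟨hk.1, fun q => disjoint_left.1 hd q hk.2⟩)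
  let A : Set (Rn n) := {v | ∀ k ∈ closure P ∩ Z, ∀ t : ℝ, 0 ≤ t → v ≠ t • (k - o)}
  have add : ∀ k ∈ closure P ∩ Z, ∀ t u : ℝ, 0 ≤ t → 0 < u →
      ∃ k' ∈ closure P ∩ Z, t • (k - o) + u • (k₀ - o) = (t + u) • (k' - o) := fun k hk t u ht hu =>
    ⟨_, cZ hk hk₀ (a := t / (t + u)) (b := u / (t + u)) (by positivity) (by positivity)
      (by field_simp), by
      ext i
      simp only [Pi.add_apply, Pi.smul_apply, Pi.sub_apply, smul_eq_mul]
      field_simp
      ring⟩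
  have a0 : -(k₀ - o) ∈ A := fun k hk t ht e => by
    obtain ⟨k', hk', e'⟩ := add k hk t 1 ht one_pos
    rw [← e, one_smul, neg_add_cancel, eq_comm, smul_eq_zero, sub_eq_zero] at e'
    exact disjoint_left.1 hd hoP (e'.resolve_left (by positivity) ▸ hk'.2)
  have st : StarConvex ℝ (-(k₀ - o)) A := fun v hv a b ha hb' hab k hk t ht e => by
    rcases hb'.eq_or_lt with rfl | q
    · rw [add_zero] at hab
      rw [hab, one_smul, zero_smul, add_zero] at e
      exact a0 k hk t ht e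
    rcases ha.eq_or_lt with rfl | q'
    · rw [zero_add] at hab
      rw [hab, one_smul, zero_smul, zero_add] at e
      exact hv k hk t ht e
    obtain ⟨k', hk', e'⟩ := add k hk t a ht q'
    refine hv k' hk' (b⁻¹ * (t + a)) (by positivity) ?_
    rw [mul_smul, ← e', ← e, smul_neg, neg_add_cancel_comm, inv_smul_smul₀ q.ne']
  have n0 : ∀ v ∈ A, v ≠ 0 := fun v hv e => hv k₀ hk₀ 0 le_rfl (by rw [e, zero_smul])
  have := (st.isPathConnected a0).isConnected.isPreconnected.image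
    (fun v => o + (gauge s v)⁻¹ • v) (continuousOn_const.add
      (((continuous_gauge c s0).continuousOn.inv₀ fun v hv => (pos v (n0 v hv)).ne').smul
        continuousOn_id))
  convert this using 1
  ext y
  refine ⟨fun hy => ?_, ?_⟩
  · have g1 : gauge s (y - o) = 1 := (fr _).2 (by rw [add_sub_cancel]; exact hy.1)
    refine ⟨y - o, fun k hk t ht e => hy.2 ?_, by simp [g1]⟩
    rw [e, gauge_smul_of_nonneg ht, f1 k hk, smul_eq_mul, mul_one] at g1
    rw [g1, one_smul, sub_left_inj] at e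
    exact e ▸ hk.2
  · rintro ⟨v, hv, rfl⟩
    have p := pos v (n0 v hv)
    have q := (fr ((gauge s v)⁻¹ • v)).1 (by
      rw [gauge_smul_of_nonneg (inv_pos.2 p).le, smul_eq_mul, inv_mul_cancel₀ p.ne'])
    exact ⟨q, fun k => hv _ ⟨q.1, k⟩ _ p.le (by rw [add_sub_cancel_left, smul_inv_smul₀ p.ne'])⟩

theorem Ball.shell (hn : 2 ≤ n) {B S Ω : Set (Rn n)} (h : Ball B S) (ho : IsOpen Ω) (hs : B ⊆ Ω) :
    ∃ U, IsOpen U ∧ B ⊆ U ∧ U ⊆ Ω ∧ IsPreconnected (U \ B) := by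
  obtain ⟨Φ, p, rfl, -⟩ := h
  obtain ⟨δ, hδ, k⟩ := (isCompact_closedBall (0 : Rn n) 1).exists_thickening_subset_open
    (ho.preimage p.tp.continuous) (image_subset_iff.1 hs)
  rw [thickening_closedBall hδ zero_le_one] at k
  obtain ⟨e, rfl, -⟩ := p.homeo
  refine ⟨e '' ball 0 (δ + 1), e.isOpenMap _ isOpen_ball,
    image_mono (closedBall_subset_ball (by linarith)), image_subset_iff.2 k, ?_⟩
  rw [← image_sdiff e.injective]
  refine IsPreconnected.image ?_ _ e.continuous.continuousOn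
  have := (((ball_round (0 : Rn n) one_pos).conn_bd hn).isPreconnected.prod
    (isPreconnected_Ioo (a := (1 : ℝ)) (b := δ + 1))).image (fun q => q.2 • q.1) (by fun_prop)
  convert this using 1
  ext y
  simp only [Set.mem_sdiff, mem_ball_zero_iff, mem_closedBall_zero_iff, not_le, mem_image, mem_prod,
    mem_sphere_zero_iff_norm, mem_Ioo]
  refine ⟨fun hy => ?_, ?_⟩
  · have : ‖y‖ ≠ 0 := by linarith [hy.2]
    exact ⟨(‖y‖⁻¹ • y, ‖y‖), ⟨by rw [norm_smul, norm_inv, norm_norm, inv_mul_cancel₀ this],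
      hy.2, hy.1⟩, smul_inv_smul₀ this y⟩
  · rintro ⟨q, ⟨a, b, c⟩, rfl⟩
    rw [norm_smul, a, mul_one, Real.norm_of_nonneg (by linarith)]
    exact ⟨c, b⟩

variable {Ω U : Set (Rn n)} {f : Rn n → Rn n}

theorem open_img (hc : ContinuousOn f Ω) (hi : InjOn f Ω) (hU : IsOpen U) (hs : U ⊆ Ω) :
    IsOpen (f '' U) := by
  refine isOpen_iff_mem_nhds.2 ?_
  rintro _ ⟨x, hx, rfl⟩
  obtain ⟨r, hr, hb⟩ := nhds_basis_closedBall.mem_iff.1 (hU.mem_nhds hx)
  let ρ : Rn n → Rn n := fun y => x + fun i => clamp ((y - x) i) r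
  have e : ∀ y ∈ ball x r, f (ρ y) = f y := fun y hy => congrArg f (funext fun i => by
    simp only [ρ, Pi.add_apply]
    rw [clamp_eq_self ((norm_le_pi_norm (y - x) i).trans (mem_ball_iff_norm.1 hy).le), Pi.sub_apply,
      add_sub_cancel])
  have s := ball_subset_closedBall.trans hb
  have := inv_domain rfl isOpen_ball (g := fun y => f (ρ y)) (hc.comp_continuous (f := ρ)
    ((TP.const x).add (TP.pi fun i => ((TP.id'.sub (TP.const x)).apply i).clamp
      (TP.const r))).continuous fun y => hs (hb (mem_closedBall_iff_norm.2 (by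
        rw [add_sub_cancel_left]
        exact (pi_norm_le_iff_of_nonneg hr.le).2 fun i => abs_clamp_le hr.le))))
    fun y hy z hz k => hi (hs (s hy)) (hs (s hz)) (by rw [← e y hy, ← e z hz]; exact k)
  rw [image_congr e] at this
  exact mem_of_superset (this.mem_nhds ⟨x, mem_ball_self hr, rfl⟩) (image_mono s)

theorem cpt_pre (ho : IsOpen Ω) (hc : ContinuousOn f Ω) (hi : InjOn f Ω) {S : Set (Rn n)}
    (hS : IsCompact S) (hs : S ⊆ f '' Ω) : ∃ C, IsCompact C ∧ C ⊆ Ω ∧ S ⊆ f '' C := by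
  refine hS.induction_on ⟨∅, isCompact_empty, empty_subset _, empty_subset _⟩
    (fun s t h ⟨C, a, b, c⟩ => ⟨C, a, b, h.trans c⟩)
    (fun s t ⟨C, a, b, c⟩ ⟨C', a', b', c'⟩ => ⟨_, a.union a', union_subset b b',
      image_union f C C' ▸ union_subset_union c c'⟩) fun y hy => ?_
  obtain ⟨x, hx, rfl⟩ := hs hy
  obtain ⟨C, c1, c2, c3⟩ := exists_compact_subset ho hx
  exact ⟨_, mem_nhdsWithin_of_mem_nhds ((open_img hc hi isOpen_interior
    (interior_subset.trans c3)).mem_nhds ⟨x, c2, rfl⟩), C, c1, c3, image_mono interior_subset⟩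

/-- An open partition of the domain which goes inside, resp. outside, a ball near infinity. -/
theorem top_part (hn : 2 ≤ n) (hc : ContinuousOn f Ω) (hi : InjOn f Ω) {Ω₁ Ω₂ C B S : Set (Rn n)}
    (o1 : IsOpen Ω₁) (o2 : IsOpen Ω₂) (hu : Ω₁ ∪ Ω₂ = Ω) (hd : Disjoint Ω₁ Ω₂) (hC : IsCompact C)
    (hs : C ⊆ Ω) (h : Ball B S) (hS : S ⊆ f '' Ω) (h1 : ∀ x ∈ Ω₁, x ∉ C → f x ∈ B)
    (h2 : ∀ x ∈ Ω₂, x ∉ C → f x ∉ B) : Ω₁ = ∅ ∧ B ⊆ f '' Ω := by
  have key : ∀ {Ω₁ Ω₂ T : Set (Rn n)}, IsOpen Ω₁ → IsOpen Ω₂ → Ω₁ ∪ Ω₂ = Ω → Disjoint Ω₁ Ω₂ →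
      IsOpen T → IsPreconnected T → (∀ x ∈ Ω₁, f x ∈ T → x ∈ C) → (T ∩ f '' Ω₁).Nonempty →
      T ⊆ f '' Ω₁ := fun {Ω₁ Ω₂ T} o1 o2 hu hd oT cT k ne => by
    refine cT.subset_of_closure_inter_subset (open_img hc hi o1 (hu ▸ subset_union_left)) ne
      ((oT.closure_inter).trans ?_)
    refine (closure_minimal ?_ ((hC.diff o2).image_of_continuousOn
      (hc.mono (sdiff_subset.trans hs))).isClosed).trans (image_mono fun x hx => ?_)
    · rintro _ ⟨⟨x, hx, rfl⟩, q⟩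
      exact ⟨x, ⟨k x hx q, disjoint_left.1 hd hx⟩, rfl⟩
    · exact (hu.symm ▸ hs hx.1 : x ∈ Ω₁ ∪ Ω₂).resolve_right hx.2
  have s1 : Ω₁ ⊆ Ω := hu ▸ subset_union_left
  have s2 : Ω₂ ⊆ Ω := hu ▸ subset_union_right
  have a : f '' Ω₁ ⊆ B := fun y hy => by_contra fun hy' => by
    have k : ∀ x ∈ Ω₁, f x ∈ Bᶜ → x ∈ C := fun x hx q => by_contra fun c => q (h1 x hx c)
    have b := key o1 o2 hu hd h.poly.1.isClosed.isOpen_compl (h.conn_out hn) k ⟨y, hy', hy⟩
    have : Nontrivial (Rn n) := by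
      have : Nonempty (Fin n) := ⟨⟨0, by omega⟩⟩
      infer_instance
    refine NormedSpace.unbounded_univ ℝ (Rn n) ((h.poly.1.isBounded.union
      (hC.image_of_continuousOn (hc.mono hs)).isBounded).subset fun z _ => ?_)
    by_cases hz : z ∈ B
    · exact Or.inl hz
    · obtain ⟨x, hx, rfl⟩ := b hz
      exact Or.inr ⟨x, k x hx hz, rfl⟩
  have a' : f '' Ω₁ ⊆ B \ S := h.interior_eq ▸ interior_maximal a (open_img hc hi o1 s1)
  have b : S ⊆ f '' Ω₂ := fun y hy => by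
    obtain ⟨x, hx, rfl⟩ := hS hy
    exact ⟨x, (hu.symm ▸ hx : x ∈ Ω₁ ∪ Ω₂).resolve_left fun q => (a' ⟨x, q, rfl⟩).2 hy, rfl⟩
  have c : B \ S ⊆ f '' Ω₂ := by
    obtain ⟨y, hy⟩ := (h.conn_bd hn).nonempty
    obtain ⟨z, z1, z2⟩ := mem_closure_iff.1 (h.closure_in.symm ▸ h.sub hy : y ∈ closure (B \ S)) _
      (open_img hc hi o2 s2) (b hy)
    exact key o2 o1 (union_comm Ω₁ Ω₂ ▸ hu) hd.symm (h.interior_eq ▸ isOpen_interior) h.conn_in
      (fun x hx q => by_contra fun c => h2 x hx c q.1) ⟨z, z2, z1⟩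
  refine ⟨eq_empty_of_forall_notMem fun x hx => ?_, fun y hy => image_mono s2 ?_⟩
  · obtain ⟨y, hy, e⟩ := c (a' ⟨x, hx, rfl⟩)
    exact disjoint_left.1 hd hx (hi (s2 hy) (s1 hx) e ▸ hy)
  · by_cases q : y ∈ S
    · exact b q
    · exact c ⟨hy, q⟩

end BEp
end
end
end
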