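import Pool.Agent.Work.MP_f0515e_an.D3.LDefs
import Pool.Agent.Work.MP_f0515e_an.D3.CTop

-- merged part: Pool.Agent.Work.MP_f0515e_an.D3.SDefs
section
/-! Beads round the stars of a complex, arcs of bounded length. -/

open Set Metric Filter Topology Function BEv
open scoped NNReal

noncomputable section
namespace BEp

/-- `v` is a vertex of `K` and an end of the edge `s`. -/
def Kx.Fl {Ω : Set (Rn 3)} (K : Kx Ω) (v : Rn 3) (s : Set (Rn 3)) : Prop :=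
  v ∈ Ω ∧ K.cell v = {v} ∧ s ∈ K.cel 1 ∧ v ∈ closure s

/-- Data of a family of beads: a mark on every edge, a frame at its image, a chart at every
vertex. -/
structure BdD where
  m : Set (Rn 3) → Rn 3
  M : Set (Rn 3) → Rn 3 ≃L[ℝ] Rn 3
  Φ : Rn 3 → Rn 3 → Rn 3

namespace BdD
variable (b : BdD) (f : Rn 3 → Rn 3)

def p (s : Set (Rn 3)) : Rn 3 := f (b.m s)
def B (v : Rn 3) : Set (Rn 3) := b.Φ v '' closedBall 0 1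
def S (v : Rn 3) : Set (Rn 3) := b.Φ v '' sphere 0 1
def E (s : Set (Rn 3)) : Set (Rn 3) := (fun y => b.p f s + b.M s y) '' flat 2
def Leg (v : Rn 3) (s : Set (Rn 3)) : Set (Rn 3) :=
  b.Φ v '' segment ℝ 0 (invFun (b.Φ v) (b.p f s))

end BdD

/-- The conditions on the bead at one vertex `v`. -/
structure Bead1 {Ω : Set (Rn 3)} (K : Kx Ω) (f : Rn 3 → Rn 3) (b : BdD) (v : Rn 3) : Prop where
  lh : LH (b.Φ v)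
  sub : b.B v ⊆ f '' Ω
  flt : ∀ s, K.Fl v s → ∀ y : Rn 3, ‖y‖ ≤ 1 → (b.p f s + b.M s y ∈ b.S v ↔ y 2 = 0)
  sin : ∀ s, K.Fl v s → f '' segment ℝ v (b.m s) ⊆ b.B v
  star : ∀ y ∈ K.sk 1, f y ∈ b.B v → ∃ s, K.Fl v s ∧ y ∈ segment ℝ v (b.m s)
  mark : ∀ y ∈ K.sk 1, f y ∈ b.S v → ∃ s, K.Fl v s ∧ y = b.m s
  ray : ∀ s, K.Fl v s → ∀ t : ℝ, 0 ≤ t → v + t • (b.m s - v) ∈ Ω →
    f (v + t • (b.m s - v)) ∈ b.B v → t ≤ 1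

/-- A family of beads for the embedding `f`. -/
structure Bead {Ω : Set (Rn 3)} (K : Kx Ω) (f : Rn 3 → Rn 3) (b : BdD) : Prop where
  mk' : ∀ s ∈ K.cel 1, b.m s ∈ s
  one : ∀ v ∈ Ω, K.cell v = {v} → Bead1 K f b v
  meet : ∀ v ∈ Ω, ∀ w ∈ Ω, K.cell v = {v} → K.cell w = {w} → v ≠ w → ∀ x ∈ b.B v ∩ b.B w,
    ∃ s, K.Fl v s ∧ K.Fl w s ∧ x ∈ b.E f s
  lf : ∀ C, IsCompact C → C ⊆ f '' Ω →
    {v | v ∈ Ω ∧ K.cell v = {v} ∧ (b.B v ∩ C).Nonempty}.Finite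

/-- PL arc of length at most `L`, with a parametrisation of speed at most `L`. -/
def ArcL {n : ℕ} (A : Set (Rn n)) (a b : Rn n) (L : ℝ) : Prop :=
  ∃ γ : ℝ → Rn n, TP γ ∧ InjOn γ (Icc 0 1) ∧ γ 0 = a ∧ γ 1 = b ∧ γ '' Icc 0 1 = A ∧
    ∀ s ∈ Icc (0 : ℝ) 1, ∀ t ∈ Icc (0 : ℝ) 1, ‖γ s - γ t‖ ≤ L * |s - t|

theorem ArcL.arc {n : ℕ} {A : Set (Rn n)} {a b : Rn n} {L : ℝ} (h : ArcL A a b L) : Arc A a b :=
  let ⟨γ, h1, h2, h3, h4, h5, _⟩ := h; ⟨γ, h1, h2, h3, h4, h5⟩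

end BEp
end
end

-- merged part: Pool.Agent.Work.MP_f0515e_an.D3.FDefs
section
/-! Definitions for the face discs: homotopies, spheres with holes, the model trapezoid. -/

open Set Metric Filter Topology Function BEv
open scoped NNReal

noncomputable section
namespace BEp

/-- `v` is a vertex. -/
def Kx.Vx {Ω : Set (Rn 3)} (K : Kx Ω) (v : Rn 3) : Prop := v ∈ Ω ∧ K.cell v = {v}

/-- `H` is a homotopy on `Z` from `u` to `w` with values in `O`. -/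
structure IsH {X Y : Type} [TopologicalSpace X] [TopologicalSpace Y] (Z : Set X) (O : Set Y)
    (u w : X → Y) (H : X × ℝ → Y) : Prop where
  cont : ContinuousOn H (Z ×ˢ Icc 0 1)
  zero : ∀ x ∈ Z, H (x, 0) = u x
  one : ∀ x ∈ Z, H (x, 1) = w x
  mem : ∀ x ∈ Z, ∀ s ∈ Icc (0 : ℝ) 1, H (x, s) ∈ O

/-- `u` and `w` are homotopic on `Z` as maps to `O`. -/
def Htp {X Y : Type} [TopologicalSpace X] [TopologicalSpace Y] (Z : Set X) (O : Set Y)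
    (u w : X → Y) : Prop := ∃ H, IsH Z O u w H

/-- Coordinates in the frame `M` at `p`. -/
def co (p : Rn 3) (M : Rn 3 ≃L[ℝ] Rn 3) (x : Rn 3) : Rn 3 := M.symm (x - p)

/-- The box, the flat square and its boundary in the frame `M` at `p`. -/
def bx (p : Rn 3) (M : Rn 3 ≃L[ℝ] Rn 3) : Set (Rn 3) := {x | ‖co p M x‖ ≤ 1}

def sq (p : Rn 3) (M : Rn 3 ≃L[ℝ] Rn 3) : Set (Rn 3) := {x | ‖co p M x‖ ≤ 1 ∧ co p M x 2 = 0}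

def dsq (p : Rn 3) (M : Rn 3 ≃L[ℝ] Rn 3) : Set (Rn 3) := {x | ‖co p M x‖ = 1 ∧ co p M x 2 = 0}

/-- The surface `S` is flat in finitely many disjoint boxes. -/
structure Hol {ι : Type} (S : Set (Rn 3)) (T : Set ι) (p : ι → Rn 3)
    (M : ι → Rn 3 ≃L[ℝ] Rn 3) : Prop where
  fin : T.Finite
  flat : ∀ j ∈ T, ∀ y, ‖y‖ ≤ 1 → (p j + M j y ∈ S ↔ y 2 = 0)
  disj : ∀ i ∈ T, ∀ j ∈ T, i ≠ j → Disjoint (bx (p i) (M i)) (bx (p j) (M j))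

/-- The surface with the open squares removed. -/
def hol {ι : Type} (S : Set (Rn 3)) (T : Set ι) (p : ι → Rn 3) (M : ι → Rn 3 ≃L[ℝ] Rn 3) :
    Set (Rn 3) := {x | x ∈ S ∧ ∀ j ∈ T, 1 ≤ ‖co (p j) (M j) x‖}

/-- `M'` is `M` rescaled by `r` and possibly mirrored in the second coordinate. -/
def Resc (M M' : Rn 3 ≃L[ℝ] Rn 3) (r : ℝ) : Prop :=
  ∃ ε : ℝ, (ε = 1 ∨ ε = -1) ∧ ∀ y, M' y = r • M ![y 0, ε * y 1, y 2]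

/-- The plane without finitely many points of the first axis. -/
def pun {ι : Type} (T : Set ι) (a : ι → ℝ) : Set (Rn 2) := {w | ∀ j ∈ T, w ≠ ![a j, 0]}

/-- `τ` lies in the closed gap number `j` of the points `a 1 < … < a m`. -/
def gap (a : ℕ → ℝ) (m j : ℕ) (τ : ℝ) : Prop := (j ≠ 0 → a j ≤ τ) ∧ (j ≠ m → τ ≤ a (j + 1))

/-- The model trapezoid and its gauge. -/
def r0g (y : Rn 2) : ℝ := max (|y 0| + |y 1|) (2 * |y 1|)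

def trap : Set (Rn 2) := {y | 0 ≤ y 0 ∧ 0 ≤ y 1 ∧ r0g y ≤ 1}

/-- Affine chart of the trapezoid of a flag. -/
def tch (v m o : Rn 3) (y : Rn 2) : Rn 3 := v + y 0 • (m - v) + y 1 • (o - v)

/-- On the square, `h` is a non constant affine function taking the value `t` inside. -/
def Chord (p : Rn 3) (M : Rn 3 ≃L[ℝ] Rn 3) (h : Rn 3 → ℝ) (t : ℝ) : Prop :=
  ∃ (l : Rn 2 →L[ℝ] ℝ) (β : ℝ), l ≠ 0 ∧ (∀ y : Rn 2, ‖y‖ ≤ 1 → h (p + M (mk3 y 0)) = l y + β) ∧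
    ∃ o : Rn 2, ‖o‖ < 1 ∧ l o + β = t

/-- The two ends of the chord at height `τ`, the bent chord through the centre, the parts of the
square above and below it, and the two parts of the boundary. -/
def qq (p : Rn 3) (M : Rn 3 ≃L[ℝ] Rn 3) (e τ : ℝ) : Rn 3 := p + M ![e, τ, 0]

def vee (p : Rn 3) (M : Rn 3 ≃L[ℝ] Rn 3) (τ : ℝ) : Set (Rn 3) :=
  {x | x ∈ sq p M ∧ co p M x 1 = τ * |co p M x 0|}

def upq (p : Rn 3) (M : Rn 3 ≃L[ℝ] Rn 3) (τ : ℝ) : Set (Rn 3) :=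
  {x | x ∈ sq p M ∧ τ * |co p M x 0| ≤ co p M x 1}

def loq (p : Rn 3) (M : Rn 3 ≃L[ℝ] Rn 3) (τ : ℝ) : Set (Rn 3) :=
  {x | x ∈ sq p M ∧ co p M x 1 ≤ τ * |co p M x 0|}

def upb (p : Rn 3) (M : Rn 3 ≃L[ℝ] Rn 3) (τ : ℝ) : Set (Rn 3) :=
  {x | x ∈ dsq p M ∧ τ ≤ co p M x 1}

def lob (p : Rn 3) (M : Rn 3 ≃L[ℝ] Rn 3) (τ : ℝ) : Set (Rn 3) :=
  {x | x ∈ dsq p M ∧ co p M x 1 ≤ τ}

/-- A map of the holed sphere to the punctured plane which is standard on the squares: the square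
`0` goes to a large square, the others to small squares centred at the punctures. -/
structure ChH (S : Set (Rn 3)) (m : ℕ) (p : ℕ → Rn 3) (M : ℕ → Rn 3 ≃L[ℝ] Rn 3)
    (χ : Rn 3 → Rn 2) (c ρ : ℕ → ℝ) : Prop where
  hl : Hol S (Iic m) p M
  tp : TP χ
  aff : ∀ j ≤ m, ∀ x ∈ sq (p j) (M j),
    χ x = ![c j + ρ j * co (p j) (M j) x 0, ρ j * co (p j) (M j) x 1]
  pos : ∀ j ≤ m, 0 < ρ j
  c0 : c 0 = 0
  sp : ∀ j, 1 ≤ j → j < m → c j + ρ j < c (j + 1) - ρ (j + 1)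
  big : ∀ j, 1 ≤ j → j ≤ m → |c j| + ρ j < ρ 0
  av : ∀ x ∈ hol S (Iic m) p M, χ x ∈ pun (Icc 1 m) c

/-- The ends of the arc in the gap `j`. -/
def gs (p : ℕ → Rn 3) (M : ℕ → Rn 3 ≃L[ℝ] Rn 3) (ρ : ℕ → ℝ) (t : ℝ) (j : ℕ) : Rn 3 :=
  if j = 0 then qq (p 0) (M 0) (-1) (t / ρ 0) else qq (p j) (M j) 1 (t / ρ j)

def ge (m : ℕ) (p : ℕ → Rn 3) (M : ℕ → Rn 3 ≃L[ℝ] Rn 3) (ρ : ℕ → ℝ) (t : ℝ) (j : ℕ) : Rn 3 :=
  if j = m then qq (p 0) (M 0) 1 (t / ρ 0) else qq (p (j + 1)) (M (j + 1)) (-1) (t / ρ (j + 1))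

/-- The arcs over the gaps at the level `t`. -/
structure ChA (S : Set (Rn 3)) (m : ℕ) (p : ℕ → Rn 3) (M : ℕ → Rn 3 ≃L[ℝ] Rn 3)
    (χ : Rn 3 → Rn 2) (c ρ : ℕ → ℝ) (t : ℝ) (β : ℕ → Set (Rn 3)) : Prop where
  t0 : 0 < t
  t1 : ∀ j ≤ m, t < ρ j
  far : ∀ x ∈ hol S (Iic m) p M, ∀ j, 1 ≤ j → j ≤ m → χ x 0 = c j → t < |χ x 1|
  arc : ∀ j ≤ m, Arc (β j) (gs p M ρ t j) (ge m p M ρ t j)
  sub : ∀ j ≤ m, ∀ x ∈ β j, x ∈ hol S (Iic m) p M ∧ χ x 1 = t ∧ gap c m j (χ x 0)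

/-- The chain of the arcs `β` and of arcs `Y` in the squares. -/
def chn (m : ℕ) (β Y : ℕ → Set (Rn 3)) : Set (Rn 3) := (⋃ j ∈ Iic m, β j) ∪ ⋃ j ∈ Icc 1 m, Y j

/-- Normal form of the map: the sphere is cut in two caps by a circle through the marks. -/
structure ChO (B S : Set (Rn 3)) (m : ℕ) (p : ℕ → Rn 3) (M : ℕ → Rn 3 ≃L[ℝ] Rn 3) (c : ℕ → ℝ)
    (Dp Dm J : Set (Rn 3)) (β : ℕ → Set (Rn 3)) (w : Rn 3 → Rn 2) : Prop where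
  len : Len 2 B Dp Dm J
  un : Dp ∪ Dm = S
  mk_mem : ∀ j ≤ m, p j ∈ J
  arc : ∀ j ≤ m, (∃ a b, TArc (β j) a b) ∧ β j ⊆ J ∩ hol S (Iic m) p M
  up : ∀ x ∈ hol S (Iic m) p M, 0 ≤ w x 1 → x ∈ Dp
  dn : ∀ x ∈ hol S (Iic m) p M, w x 1 ≤ 0 → x ∈ Dm
  ax : ∀ x ∈ hol S (Iic m) p M, w x 1 = 0 → ∀ j ≤ m, gap c m j (w x 0) → x ∈ β j

/-- Small frame at the mark of the edge `σ`, standard meridian, homotopy to it, sign change. -/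
structure Edg {Ω : Set (Rn 3)} (K : Kx Ω) (f : Rn 3 → Rn 3) (b : BdD) (σ : Set (Rn 3)) (η : ℝ)
    (M' N : Rn 3 ≃L[ℝ] Rn 3) (h : Rn 3 × ℝ → Rn 3) : Prop where
  box : bx (b.p f σ) M' ⊆ f '' ball (b.m σ) η
  flt : ∀ v, K.Fl v σ → ∀ y : Rn 3, ‖y‖ ≤ 1 → (b.p f σ + M' y ∈ b.S v ↔ y 2 = 0)
  far : ∀ w, K.Vx w → ¬ K.Fl w σ → Disjoint (bx (b.p f σ) M') (b.B w)
  ax : ∀ v, K.Fl v σ → ∃ κ : ℝ, κ ≠ 0 ∧ N (Pi.single 2 1) = κ • (b.m σ - v)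
  small : ∀ y : Rn 3, ‖y‖ ≤ 1 → ‖N y‖ < η
  htp : IsH (dsq (b.p f σ) M') (Ω \ K.sk 1) (invFunOn f Ω)
    (fun x => b.m σ + N (co (b.p f σ) M' x)) h
  sgn : ∀ v, K.Fl v σ → ∃ s0 : ℝ, s0 ≠ 0 ∧ ∀ y : Rn 3, ‖y‖ ≤ 1 → ∀ s : ℝ,
    invFunOn f Ω (b.p f σ + M' y) - v = s • (b.m σ - v) → y = 0 ∨ 0 < s0 * (s - 1) * y 2

/-- Radii of neighbourhoods of the marks. -/
structure RadK {Ω : Set (Rn 3)} (K : Kx Ω) (m : Rn 3) (σ : Set (Rn 3)) (η : ℝ) : Prop where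
  pos : 0 < η
  sub : ball m (2 * η) ⊆ Ω
  sk : ∀ y ∈ ball m (2 * η), y ∈ K.sk 1 → y ∈ σ
  line : ∀ v, K.Fl v σ → ∀ s : ℝ, v + s • (m - v) ∈ ball m (2 * η) → v + s • (m - v) ∈ σ
  face : ∀ c ∈ K.cel 2, (closure c ∩ ball m (2 * η)).Nonempty → σ ⊆ closure c
  half : ∀ c ∈ K.cel 2, σ ⊆ closure c → ∀ o ∈ c, ∀ v, K.Fl v σ → ∀ z ∈ ball m (2 * η),
    (z ∈ closure c ↔ ∃ a a' : ℝ, 0 ≤ a' ∧ z = m + a • (m - v) + a' • (o - m))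

/-- `(v, σ)` is a flag of the face `c`. -/
def Kx.Fc {Ω : Set (Rn 3)} (K : Kx Ω) (c : Set (Rn 3)) (v : Rn 3) (σ : Set (Rn 3)) : Prop :=
  K.Fl v σ ∧ σ ⊆ closure c

/-- The holed bead sphere at `v`. -/
def hov {Ω : Set (Rn 3)} (K : Kx Ω) (f : Rn 3 → Rn 3) (b : BdD)
    (M' : Set (Rn 3) → Rn 3 ≃L[ℝ] Rn 3) (v : Rn 3) : Set (Rn 3) :=
  hol (b.S v) {σ | K.Fl v σ} (b.p f) M'

/-- The link arcs of the face `c`, cut at a middle point, with their homotopies into `c`. -/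
structure Lnk {Ω : Set (Rn 3)} (K : Kx Ω) (f : Rn 3 → Rn 3) (b : BdD)
    (M' : Set (Rn 3) → Rn 3 ≃L[ℝ] Rn 3) (c : Set (Rn 3)) (q : Set (Rn 3) → Rn 3)
    (z : Rn 3 → Rn 3) (γ : Rn 3 → Set (Rn 3) → ℝ → Rn 3) (ψ : Rn 3 → Rn 3 → Rn 3)
    (H : Rn 3 → Rn 3 × ℝ → Rn 3) : Prop where
  tp : ∀ v σ, K.Fc c v σ → TP (γ v σ)
  inj : ∀ v σ, K.Fc c v σ → InjOn (γ v σ) (Icc 0 1)
  g0 : ∀ v σ, K.Fc c v σ → γ v σ 0 = q σ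
  g1 : ∀ v σ, K.Fc c v σ → γ v σ 1 = z v
  qm : ∀ v σ, K.Fc c v σ → q σ ∈ dsq (b.p f σ) (M' σ)
  mem : ∀ v σ, K.Fc c v σ → ∀ s ∈ Icc (0 : ℝ) 1, γ v σ s ∈ hov K f b M' v
  two : ∀ v σ σ', K.Fc c v σ → K.Fc c v σ' → σ ≠ σ' → ∀ s ∈ Icc (0 : ℝ) 1, ∀ s' ∈ Icc (0 : ℝ) 1,
    γ v σ s = γ v σ' s' → s = 1 ∧ s' = 1
  htp : ∀ v σ, K.Fc c v σ →
    IsH (γ v σ '' Icc 0 1) (Ω \ K.sk 1) (invFunOn f Ω) (ψ v) (H v)
  into : ∀ v σ, K.Fc c v σ → ∀ s ∈ Icc (0 : ℝ) 1, ψ v (γ v σ s) ∈ c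
  same : ∀ v w σ, K.Fc c v σ → K.Fc c w σ → ∀ s ∈ Icc (0 : ℝ) 1, H v (q σ, s) = H w (q σ, s)

/-- The far arc of a flag and the cone over it. -/
def farp (p q : Rn 3) (γ : ℝ → Rn 3) (y : Rn 2) : Rn 3 :=
  p + min (2 * y 1) 1 • (q - p) + (γ (1 - min (2 * y 0) 1) - γ 0)

def cfl (Φ : Rn 3 → Rn 3) (p q : Rn 3) (γ : ℝ → Rn 3) (y : Rn 2) : Rn 3 :=
  Φ (r0g y • invFun Φ (farp p q γ ((r0g y)⁻¹ • y)))

/-- The inner half of the face. -/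
def inn (c : Set (Rn 3)) (o : Rn 3) : Set (Rn 3) :=
  (fun z => o + (1 / 2 : ℝ) • (z - o)) '' closure c

end BEp
end
end
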