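import Pool.Agent.Work.MP_f0515e_an.D3.PDefs
import Pool.Agent.Work.MP_f0515e_an.D3.FDefs
import Pool.Agent.Work.MP_f0515e_an.D3.PLift2
import Pool.Agent.Work.MP_f0515e_an.D3.PUp
import Pool.Agent.Work.MP_f0515e_an.Pos.HHEP0
import Pool.Agent.Work.MP_f0515e_an.Pos.HBor
import Pool.Agent.Work.MP_f0515e_an.Pos.PLTP
import Pool.Agent.Work.MP_f0515e_an.Pos.HDM
import Pool.Agent.Work.MP_f0515e_an.Pos.HDeg3
import Pool.Agent.Work.MP_f0515e_an.D3.POne
import Pool.Agent.Work.MP_f0515e_an.D3.FK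
import Pool.Agent.Work.MP_f0515e_an.D3.PBall
import Pool.Agent.Work.MP_f0515e_an.D3.PReg
import Pool.Agent.Work.MP_f0515e_an.D3.PL6

-- merged part: Pool.Agent.Work.MP_f0515e_an.D3.BDefs
section
/-! Star balls: definitions. A star with centre `v` and legs `v + t • d e`, `0 ≤ t ≤ 1`, is mapped
by an embedding `f` into an open set `Po`, except for the ends of the legs (the marks), where the
image crosses a flat piece of the boundary of `Po`. -/

open Set Metric Filter Topology Function BEv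
open scoped NNReal

noncomputable section
namespace BEp

/-- Flat square of radius `r` about `y` orthogonal to the axis `i`. -/
def fsq (y : Rn 3) (i : Fin 3) (r : ℝ) : Set (Rn 3) := {x | dist x y ≤ r ∧ x i = y i}

section
variable {E : Type} [NormedAddCommGroup E] [NormedSpace ℝ E] {ι : Type}

/-- Hypotheses on one star in one wall cell. -/
structure StarIn (f : E → Rn 3) (U : Set E) (Po : Set (Rn 3)) (v : E) (d : ι → E)
    (i : ι → Fin 3) (σ : ι → ℝ) : Prop where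
  opn : IsOpen U
  opn' : IsOpen Po
  cont : ContinuousOn f U
  inj : InjOn f U
  ne : ∀ e, d e ≠ 0
  dir : ∀ e e' (t : ℝ), 0 < t → d e = t • d e' → e = e'
  leg : ∀ e, ∀ t ∈ Icc (0 : ℝ) 1, v + t • d e ∈ U
  inn : ∀ e, ∀ t ∈ Ico (0 : ℝ) 1, f (v + t • d e) ∈ Po
  sgn : ∀ e, σ e = 1 ∨ σ e = -1
  out : ∀ e, ∀ᶠ t in 𝓝[>] (1 : ℝ), 0 < σ e * (f (v + t • d e) (i e) - f (v + d e) (i e))
  loc : ∀ e, ∀ᶠ x in 𝓝 (f (v + d e)), x ∈ Po ↔ σ e * (x (i e) - f (v + d e) (i e)) < 0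

/-- The ball `B` with boundary `S` is a regular neighbourhood of the star. -/
structure StarBall (f : E → Rn 3) (U : Set E) (Po : Set (Rn 3)) (v : E) (d : ι → E)
    (i : ι → Fin 3) (σ r : ι → ℝ) (B S : Set (Rn 3)) : Prop where
  ball : Ball B S
  sub : B ⊆ f '' U
  inn : ∀ x ∈ B, x ∈ Po ∨ ∃ e, x ∈ fsq (f (v + d e)) (i e) (r e)
  flat : ∀ e x, dist x (f (v + d e)) ≤ r e → (x ∈ S ↔ x (i e) = f (v + d e) (i e))
  half : ∀ e x, dist x (f (v + d e)) ≤ r e → (x ∈ B ↔ σ e * (x (i e) - f (v + d e) (i e)) ≤ 0)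
  loc : ∀ e x, dist x (f (v + d e)) ≤ r e → (x ∈ Po ↔ σ e * (x (i e) - f (v + d e) (i e)) < 0)
  leg : ∀ e, ∀ t ∈ Ico (0 : ℝ) 1, f (v + t • d e) ∈ B \ S
  ray : ∀ e (t : ℝ), 1 < t → v + t • d e ∈ U → f (v + t • d e) ∉ B
  disj : Pairwise fun e e' =>
    Disjoint (closedBall (f (v + d e)) (r e)) (closedBall (f (v + d e')) (r e'))

end

end BEp
end
end

-- merged part: Pool.Agent.Work.MP_f0515e_an.D3.FTop
section
/-! Extension and gluing of continuous maps, homotopies, embeddings of open sets. -/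

open Set Metric Filter Topology Function BEv
open scoped NNReal

noncomputable section
namespace BEp

section Ext
variable {E F : Type} [NormedAddCommGroup E] [NormedSpace ℝ E] [FiniteDimensional ℝ E]
  [NormedAddCommGroup F] [NormedSpace ℝ F] [FiniteDimensional ℝ F]

/-- Tietze (see `glue2`). -/
theorem ext_on {A : Set E} (hA : IsClosed A) {u : E → F} (hu : ContinuousOn u A) :
    ∃ g : E → F, Continuous g ∧ EqOn g u A := by
  have : TietzeExtension F := TietzeExtension.of_tvs ℝ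
  obtain ⟨g, hg⟩ := ContinuousMap.exists_restrict_eq hA (⟨A.domRestrict u, hu.domRestrict⟩ : C(A, F))
  exact ⟨g, g.continuous, fun x hx => congrArg (fun k : C(A, F) => k ⟨x, hx⟩) hg⟩

theorem glue_on {κ : Type} {S : Set κ} (hS : S.Finite) {X : κ → Set E}
    (hX : ∀ k ∈ S, IsClosed (X k)) {u : κ → E → F} (hu : ∀ k ∈ S, ContinuousOn (u k) (X k))
    (h : ∀ k ∈ S, ∀ l ∈ S, EqOn (u k) (u l) (X k ∩ X l)) :
    ∃ g : E → F, Continuous g ∧ ∀ k ∈ S, EqOn g (u k) (X k) := by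
  classical
  let v : E → F := fun x => if k : ∃ k ∈ S, x ∈ X k then u k.choose x else 0
  have e : ∀ k ∈ S, EqOn v (u k) (X k) := fun k hk x hx => by
    have m : ∃ k ∈ S, x ∈ X k := ⟨k, hk, hx⟩
    exact (dif_pos m).trans (h _ m.choose_spec.1 k hk ⟨m.choose_spec.2, hx⟩)
  have := hS.to_subtype
  obtain ⟨g, c, k⟩ := ext_on (isClosed_iUnion_of_finite fun k : S => hX k k.2)
    ((locallyFinite_of_finite _).continuousOn_iUnion (fun k : S => hX k k.2)
      fun k => (hu k k.2).congr (e k k.2))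
  exact ⟨g, c, fun l hl x hx => (k (mem_iUnion.2 ⟨⟨l, hl⟩, hx⟩)).trans (e l hl hx)⟩

theorem glue_two {A B : Set E} (hA : IsClosed A) (hB : IsClosed B) {u v : E → F}
    (hu : ContinuousOn u A) (hv : ContinuousOn v B) (h : EqOn u v (A ∩ B)) :
    ∃ g : E → F, Continuous g ∧ EqOn g u A ∧ EqOn g v B := by
  obtain ⟨g, c, e⟩ := ext_on hA hu
  obtain ⟨g', c', e'⟩ := ext_on hB hv
  obtain ⟨w, d, k, k'⟩ := glue2 hA hB c c' fun x hx => (e hx.1).trans ((h hx).trans (e' hx.2).symm)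
  exact ⟨w, d, k.trans e, k'.trans e'⟩

/-- Extension into an arc (`tarc_inv`, Tietze, clamp to `[0,1]`). -/
theorem ext_arc {A : Set E} (hA : IsClosed A) {u : E → F} (hu : ContinuousOn u A) {L : Set F}
    {a b : F} (hL : TArc L a b) (hm : MapsTo u A L) :
    ∃ g : E → F, Continuous g ∧ EqOn g u A ∧ ∀ x, g x ∈ L := by
  obtain ⟨γ, c, i, -, -, rfl⟩ := hL
  obtain ⟨g, hg, e⟩ := ext_on hA ((ptop_inv isCompact_Icc c.continuousOn Subset.rfl i
    fun s hs _ => hs).comp hu hm)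
  refine ⟨fun x => γ (max 0 (min (g x) 1)), by fun_prop, fun x hx => ?_, fun x =>
    ⟨_, ⟨le_max_left _ _, max_le zero_le_one (min_le_right _ _)⟩, rfl⟩⟩
  have k := invFunOn_pos (hm hx)
  simp only [e hx, comp_apply, min_eq_left k.1.2, max_eq_right k.1.1, k.2]

/-- Extension into a cell, with values off the boundary outside `A`: pull back by `tp_linv`, Tietze,
clamp each coordinate, multiply by `1 - min (1/2) (infDist x A)` (if `A` is empty take a constant). -/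
theorem ext_cel {A : Set E} (hA : IsClosed A) {k n : ℕ} {u : E → Rn n} (hu : ContinuousOn u A)
    {D J : Set (Rn n)} (hD : PCel k D J) (hm : MapsTo u A D) :
    ∃ g : E → Rn n, Continuous g ∧ EqOn g u A ∧ (∀ x, g x ∈ D) ∧ ∀ x, x ∉ A → g x ∉ J := by
  obtain ⟨γ, c, i, rfl, rfl⟩ := hD
  obtain ⟨κ, hκ, l⟩ := tp_linv (Poly.closedBall 0 1) c i
  obtain ⟨g, hg, e⟩ := ext_on hA (hκ.continuous.comp_continuousOn hu)
  obtain ⟨ρ, r0, r1, r2, r3⟩ : ∃ ρ : E → ℝ, Continuous ρ ∧ (∀ x, 0 ≤ ρ x) ∧ (∀ x ∈ A, ρ x = 1) ∧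
      ∀ x, x ∉ A → ρ x < 1 := by
    rcases A.eq_empty_or_nonempty with rfl | hne
    · exact ⟨fun _ => 0, continuous_const, fun _ => le_rfl, fun _ h => h.elim, fun _ _ => one_pos⟩
    · refine ⟨fun x => max 0 (1 - infDist x A),
        continuous_const.max (continuous_const.sub (continuous_infDist_pt A)),
        fun _ => le_max_left _ _, fun x hx => by simp [infDist_zero_of_mem hx], fun x hx => ?_⟩
      exact max_lt one_pos (sub_lt_self _ ((hA.notMem_iff_infDist_pos hne).1 hx))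
  have n : ∀ x, ‖fun j => clamp (g x j) (ρ x)‖ ≤ ρ x := fun x =>
    (pi_norm_le_iff_of_nonneg (r1 x)).2 fun j => abs_clamp_le (r1 x)
  have m : ∀ x, (fun j => clamp (g x j) (ρ x)) ∈ closedBall (0 : Rn k) 1 := fun x =>
    mem_closedBall_zero_iff.2 ((n x).trans (by
      by_cases hx : x ∈ A
      exacts [(r2 x hx).le, (r3 x hx).le]))
  refine ⟨fun x => γ fun j => clamp (g x j) (ρ x),
    c.continuous.comp (by unfold clamp; fun_prop), fun x hx => ?_, fun x => ⟨_, m x, rfl⟩, ?_⟩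
  · obtain ⟨y, hy, e'⟩ := hm hx
    rw [← e']
    refine congrArg γ (funext fun j => ?_)
    rw [e hx, comp_apply, ← e', l y hy, r2 x hx]
    exact clamp_eq_self ((norm_le_pi_norm y j).trans (mem_closedBall_zero_iff.1 hy))
  · rintro x hx ⟨y, hy, e'⟩
    have := (n x).trans_lt (r3 x hx)
    rw [← i (sphere_subset_closedBall hy) (m x) e'] at this
    exact this.ne (mem_sphere_zero_iff_norm.1 hy)

/-- Homotopy extension with the homotopy kept on `A`. -/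
theorem hep_on {P A : Set E} (hP : IsCompact P) (hA : IsClosed A) (hAP : A ⊆ P) {O : Set F}
    (hO : IsOpen O) {u a : E → F} (hu : ContinuousOn u P) (huO : MapsTo u P O) {h : E × ℝ → F}
    (hh : IsH A O u a h) : ∃ (w : E → F) (H : E × ℝ → F), Continuous w ∧ EqOn w a A ∧
      IsH P O u w H ∧ ∀ x ∈ A, ∀ s ∈ Icc (0 : ℝ) 1, H (x, s) = h (x, s) := by
  obtain ⟨u', cu, eu⟩ := ext_on hP.isClosed hu
  obtain ⟨h', ch, eh⟩ := ext_on (hA.prod isClosed_Icc) hh.cont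
  have e : ∀ x ∈ A, ∀ s ∈ Icc (0 : ℝ) 1, h' (x, s) = h (x, s) := fun x hx s hs => eh ⟨hx, hs⟩
  obtain ⟨H, h1, h2, h3, h4⟩ := hep hP hA hAP hO cu (fun x hx => eu hx ▸ huO hx) ch
    (fun x hx => by rw [e x hx 0 (left_mem_Icc.2 zero_le_one), hh.zero x hx, eu (hAP hx)])
    fun x hx s hs => e x hx s hs ▸ hh.mem x hx s hs
  have e' : ∀ x ∈ A, ∀ s ∈ Icc (0 : ℝ) 1, H (x, s) = h (x, s) := fun x hx s hs =>
    (h3 x hx s hs).trans (e x hx s hs)
  exact ⟨fun x => H (x, 1), H, by fun_prop,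
    fun x hx => (e' x hx 1 (right_mem_Icc.2 zero_le_one)).trans (hh.one x hx),
    ⟨h1.continuousOn, fun x hx => (h2 x hx).trans (eu hx), fun _ _ => rfl, h4⟩, e'⟩

theorem Htp.hep {P A : Set E} (hP : IsCompact P) (hA : IsClosed A) (hAP : A ⊆ P) {O : Set F}
    (hO : IsOpen O) {u a : E → F} (hu : ContinuousOn u P) (huO : MapsTo u P O)
    (hh : Htp A O u a) : ∃ w : E → F, Continuous w ∧ EqOn w a A ∧ MapsTo w P O := by
  obtain ⟨h, hh⟩ := hh
  obtain ⟨w, H, h1, h2, h3, -⟩ := hep_on hP hA hAP hO hu huO hh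
  exact ⟨w, h1, h2, fun x hx => h3.one x hx ▸ h3.mem x hx 1 (right_mem_Icc.2 zero_le_one)⟩

end Ext

section Htp
variable {X X' Y Y' : Type} [TopologicalSpace X] [TopologicalSpace X'] [TopologicalSpace Y]
  [TopologicalSpace Y'] {Z : Set X} {O : Set Y} {u v w : X → Y}

theorem IsH.contl {H : X × ℝ → Y} (h : IsH Z O u w H) : ContinuousOn u Z ∧ MapsTo u Z O :=
  ⟨(h.cont.comp (f := fun x => (x, (0 : ℝ))) (by fun_prop)
    fun _ k => ⟨k, left_mem_Icc.2 zero_le_one⟩).congr fun x k => (h.zero x k).symm,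
    fun x k => h.zero x k ▸ h.mem x k 0 (left_mem_Icc.2 zero_le_one)⟩

theorem IsH.contr {H : X × ℝ → Y} (h : IsH Z O u w H) : ContinuousOn w Z ∧ MapsTo w Z O :=
  ⟨(h.cont.comp (f := fun x => (x, (1 : ℝ))) (by fun_prop)
    fun _ k => ⟨k, right_mem_Icc.2 zero_le_one⟩).congr fun x k => (h.one x k).symm,
    fun x k => h.one x k ▸ h.mem x k 1 (right_mem_Icc.2 zero_le_one)⟩

theorem IsH.mono {H : X × ℝ → Y} (h : IsH Z O u w H) {Z' : Set X} {O' : Set Y} (hZ : Z' ⊆ Z)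
    (hO : O ⊆ O') : IsH Z' O' u w H :=
  ⟨h.cont.mono (prod_mono_left hZ), fun x k => h.zero x (hZ k), fun x k => h.one x (hZ k),
    fun x k s m => hO (h.mem x (hZ k) s m)⟩

theorem Htp.refl (hu : ContinuousOn u Z) (hm : MapsTo u Z O) : Htp Z O u u :=
  ⟨fun z => u z.1, hu.comp continuousOn_fst fun _ k => k.1, fun _ _ => rfl, fun _ _ => rfl,
    fun _ k _ _ => hm k⟩

theorem Htp.symm (h : Htp Z O u w) : Htp Z O w u := by
  obtain ⟨H, h⟩ := h
  have m : ∀ s ∈ Icc (0 : ℝ) 1, 1 - s ∈ Icc (0 : ℝ) 1 := fun s k =>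
    ⟨by linarith [k.2], by linarith [k.1]⟩
  exact ⟨fun z => H (z.1, 1 - z.2), h.cont.comp (by fun_prop) fun _ k => ⟨k.1, m _ k.2⟩,
    fun x k => by simpa using h.one x k, fun x k => by simpa using h.zero x k,
    fun x k s p => h.mem x k _ (m s p)⟩

theorem Htp.trans (h : Htp Z O u v) (h' : Htp Z O v w) : Htp Z O u w := by
  obtain ⟨H, h⟩ := h
  obtain ⟨H', h'⟩ := h'
  have m : ∀ s ∈ Icc (0 : ℝ) 1, min (2 * s) 1 ∈ Icc (0 : ℝ) 1 := fun s k =>
    ⟨le_min (by linarith [k.1]) zero_le_one, min_le_right _ _⟩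
  have m' : ∀ s ∈ Icc (0 : ℝ) 1, max (2 * s - 1) 0 ∈ Icc (0 : ℝ) 1 := fun s k =>
    ⟨le_max_right _ _, max_le (by linarith [k.2]) zero_le_one⟩
  have c : ContinuousOn (fun z : X × ℝ => H (z.1, min (2 * z.2) 1)) (Z ×ˢ Icc 0 1) :=
    h.cont.comp (by fun_prop) fun _ k => ⟨k.1, m _ k.2⟩
  have c' : ContinuousOn (fun z : X × ℝ => H' (z.1, max (2 * z.2 - 1) 0)) (Z ×ˢ Icc 0 1) :=
    h'.cont.comp (by fun_prop) fun _ k => ⟨k.1, m' _ k.2⟩
  refine ⟨fun z => if 2 * z.2 ≤ 1 then H (z.1, min (2 * z.2) 1) else H' (z.1, max (2 * z.2 - 1) 0),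
    continuousOn_iff_continuous_domRestrict.2 (c.domRestrict.if_le c'.domRestrict (by fun_prop)
      continuous_const fun z k => ?_), fun x k => by simpa using h.zero x k,
    fun x k => by simpa [show (2 : ℝ) - 1 = 1 by norm_num] using h'.one x k, fun x k s p => ?_⟩
  · simp only [domRestrict_apply, k, min_self, sub_self, max_self, h.one _ z.2.1, h'.zero _ z.2.1]
  · dsimp only
    split_ifs
    exacts [h.mem x k _ (m s p), h'.mem x k _ (m' s p)]

theorem Htp.mono (h : Htp Z O u w) {Z' : Set X} {O' : Set Y} (hZ : Z' ⊆ Z) (hO : O ⊆ O') :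
    Htp Z' O' u w :=
  h.imp fun _ k => k.mono hZ hO

theorem Htp.congr (h : Htp Z O u w) {u' w' : X → Y} (e : EqOn u' u Z) (e' : EqOn w' w Z) :
    Htp Z O u' w' :=
  h.imp fun _ k => ⟨k.cont, fun x m => (k.zero x m).trans (e m).symm,
    fun x m => (k.one x m).trans (e' m).symm, k.mem⟩

theorem Htp.pre (h : Htp Z O u w) {Z' : Set X'} {g : X' → X} (hg : ContinuousOn g Z')
    (hm : MapsTo g Z' Z) : Htp Z' O (fun x => u (g x)) (fun x => w (g x)) := by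
  obtain ⟨H, h⟩ := h
  exact ⟨fun z => H (g z.1, z.2), h.cont.comp
    ((hg.comp continuousOn_fst fun _ k => k.1).prodMk continuousOn_snd) fun _ k => ⟨hm k.1, k.2⟩,
    fun x k => h.zero _ (hm k), fun x k => h.one _ (hm k), fun x k => h.mem _ (hm k)⟩

theorem Htp.post (h : Htp Z O u w) {O' : Set Y'} {g : Y → Y'} (hg : ContinuousOn g O)
    (hm : MapsTo g O O') : Htp Z O' (fun x => g (u x)) (fun x => g (w x)) := by
  obtain ⟨H, h⟩ := h
  exact ⟨fun z => g (H z), hg.comp h.cont fun z k => h.mem z.1 k.1 z.2 k.2,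
    fun x k => congrArg g (h.zero x k), fun x k => congrArg g (h.one x k),
    fun x k s p => hm (h.mem x k s p)⟩

theorem Htp.line {F : Type} [NormedAddCommGroup F] [NormedSpace ℝ F] {O : Set F} {u w : X → F}
    (hu : ContinuousOn u Z) (hw : ContinuousOn w Z)
    (h : ∀ x ∈ Z, ∀ s ∈ Icc (0 : ℝ) 1, u x + s • (w x - u x) ∈ O) : Htp Z O u w := by
  have cu : ContinuousOn (fun z : X × ℝ => u z.1) (Z ×ˢ Icc 0 1) :=
    hu.comp continuousOn_fst fun _ k => k.1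
  exact ⟨fun z => u z.1 + z.2 • (w z.1 - u z.1), cu.add (continuousOn_snd.smul
    ((hw.comp continuousOn_fst fun _ k => k.1).sub cu)), fun _ _ => by simp, fun _ _ => by simp, h⟩

end Htp

/-- Homotopies on finitely many closed pieces which agree on the overlaps. -/
theorem htp_glue {E F κ : Type} [NormedAddCommGroup E] [NormedSpace ℝ E] [FiniteDimensional ℝ E]
    [NormedAddCommGroup F] [NormedSpace ℝ F] [FiniteDimensional ℝ F] {S : Set κ} (hS : S.Finite)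
    {X : κ → Set E} (hX : ∀ k ∈ S, IsClosed (X k)) {O : Set F} {u w : E → F}
    {H : κ → E × ℝ → F} (hH : ∀ k ∈ S, IsH (X k) O u w (H k))
    (h : ∀ k ∈ S, ∀ l ∈ S, ∀ x ∈ X k ∩ X l, ∀ s ∈ Icc (0 : ℝ) 1, H k (x, s) = H l (x, s)) :
    ∃ G, IsH (⋃ k ∈ S, X k) O u w G ∧
      ∀ k ∈ S, ∀ x ∈ X k, ∀ s ∈ Icc (0 : ℝ) 1, G (x, s) = H k (x, s) := by
  obtain ⟨G, c, e⟩ := glue_on hS (X := fun k => X k ×ˢ Icc (0 : ℝ) 1)
    (fun k m => (hX k m).prod isClosed_Icc) (fun k m => (hH k m).cont)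
    fun k m l m' z p => h k m l m' z.1 ⟨p.1.1, p.2.1⟩ z.2 p.1.2
  have e' : ∀ k ∈ S, ∀ x ∈ X k, ∀ s ∈ Icc (0 : ℝ) 1, G (x, s) = H k (x, s) :=
    fun k m x p s q => e k m ⟨p, q⟩
  refine ⟨G, ⟨c.continuousOn, fun x p => ?_, fun x p => ?_, fun x p s q => ?_⟩, e'⟩ <;>
    obtain ⟨k, m, p⟩ := mem_iUnion₂.1 p
  · exact (e' k m x p 0 (left_mem_Icc.2 zero_le_one)).trans ((hH k m).zero x p)
  · exact (e' k m x p 1 (right_mem_Icc.2 zero_le_one)).trans ((hH k m).one x p)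
  · exact e' k m x p s q ▸ (hH k m).mem x p s q

/-- Normal form: `hep_on`, then `tp_approx` for `w - a` (zero on `A`), and the homotopy
`H (x, s) + s • (u' x - w x)`, which stays in `O` by compactness. -/
theorem norm_tp {n m : ℕ} {P A : Set (Rn n)} (hP : IsCompact P) (hA : IsClosed A) (hAP : A ⊆ P)
    {O : Set (Rn m)} (hO : IsOpen O) {u a : Rn n → Rn m} (hu : ContinuousOn u P)
    (huO : MapsTo u P O) (ha : TP a) {h : Rn n × ℝ → Rn m} (hh : IsH A O u a h) :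
    ∃ (u' : Rn n → Rn m) (H : Rn n × ℝ → Rn m), TP u' ∧ EqOn u' a A ∧ IsH P O u u' H ∧
      ∀ x ∈ A, ∀ s ∈ Icc (0 : ℝ) 1, H (x, s) = h (x, s) := by
  obtain ⟨w, H, h1, h2, h3, h4⟩ := hep_on hP hA hAP hO hu huO hh
  obtain ⟨ε, ε0, hε⟩ := ((hP.prod isCompact_Icc).image_of_continuousOn
    h3.cont).exists_cthickening_subset_open hO (by
      rintro _ ⟨q, hq, rfl⟩
      exact h3.mem q.1 hq.1 q.2 hq.2)
  obtain ⟨g, g1, g2⟩ := tp_approx hP (h1.sub ha.continuous) ε0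
  have g0 : ∀ x ∈ A, g x = 0 := fun x hx =>
    (g2 x (hAP hx)).2 (by rw [Pi.sub_apply, h2 hx, sub_self, norm_zero]; positivity)
  have c1 := ha.continuous
  have c2 := g1.continuous
  refine ⟨fun x => a x + g x, fun q => H q + q.2 • (a q.1 + g q.1 - w q.1), ha.add g1,
    fun x hx => by simp [g0 x hx], ⟨h3.cont.add (Continuous.continuousOn (by fun_prop)),
      fun x hx => by simp [h3.zero x hx], fun x hx => by simp [h3.one x hx], fun x hx s hs => ?_⟩,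
    fun x hx s hs => by simp [g0 x hx, h2 hx, h4 x hx s hs]⟩
  refine hε (mem_cthickening_of_dist_le _ (H (x, s)) _ _ ⟨_, ⟨hx, hs⟩, rfl⟩ ?_)
  rw [dist_eq_norm, add_sub_cancel_left, norm_smul, Real.norm_of_nonneg hs.1]
  refine (mul_le_of_le_one_left (norm_nonneg _) hs.2).trans ?_
  rw [show a x + g x - w x = g x - (w - a) x by rw [Pi.sub_apply]; abel]
  exact (g2 x hx).1.2

/-- Invariance of domain for maps defined on an open set (`ext_on` on a small closed ball,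
`inv_domain`). -/
theorem emb_open {n : ℕ} {Ω U : Set (Rn n)} {f : Rn n → Rn n} (hf : ContinuousOn f Ω)
    (hi : InjOn f Ω) (hU : IsOpen U) (hs : U ⊆ Ω) : IsOpen (f '' U) := by
  refine isOpen_iff_mem_nhds.2 ?_
  rintro _ ⟨x, hx, rfl⟩
  obtain ⟨r, r0, hr⟩ := nhds_basis_closedBall.mem_iff.1 (hU.mem_nhds hx)
  obtain ⟨g, hg, e⟩ := ext_on isClosed_closedBall (hf.mono (hr.trans hs))
  have e' := e.mono ball_subset_closedBall
  have hb := ball_subset_closedBall.trans hr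
  have := inv_domain rfl isOpen_ball hg ((hi.mono (hb.trans hs)).congr e'.symm)
  rw [e'.image_eq] at this
  exact mem_of_superset (this.mem_nhds (mem_image_of_mem f (mem_ball_self r0))) (image_mono hb)

theorem emb_inv {n : ℕ} {Ω : Set (Rn n)} {f : Rn n → Rn n} (hΩ : IsOpen Ω) (hf : ContinuousOn f Ω)
    (hi : InjOn f Ω) : ContinuousOn (invFunOn f Ω) (f '' Ω) := by
  refine _root_.continuousOn_iff.2 ?_
  rintro _ ⟨x, hx, rfl⟩ t ht hxt
  rw [hi.leftInvOn_invFunOn hx] at hxt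
  refine ⟨_, emb_open hf hi (ht.inter hΩ) inter_subset_right, ⟨x, ⟨hxt, hx⟩, rfl⟩, ?_⟩
  rintro _ ⟨⟨y, hy, rfl⟩, -⟩
  rw [mem_preimage, hi.leftInvOn_invFunOn hy.2]
  exact hy.1

theorem FTc_ends {n m : ℕ} {Z : Set (Rn n)} (hZ : IsClosed Z) {u w : Rn n → Rn m}
    (cu : ContinuousOn u Z) (cw : ContinuousOn w Z) {O : Set (Rn m)} (mu : MapsTo u Z O)
    (mw : MapsTo w Z O) : IsClosed (Z ×ˢ ({0, 1} : Set ℝ)) ∧ ∃ e : Rn n × ℝ → Rn m,
      ContinuousOn e (Z ×ˢ {0, 1}) ∧ MapsTo e (Z ×ˢ {0, 1}) O ∧ (∀ x, e (x, 0) = u x) ∧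
        ∀ x, e (x, 1) = w x := by
  have c1 : ContinuousOn (fun z : Rn n × ℝ => u z.1) (Z ×ˢ ({0, 1} : Set ℝ)) :=
    cu.comp continuousOn_fst fun _ h => h.1
  have c2 : ContinuousOn (fun z : Rn n × ℝ => w z.1) (Z ×ˢ ({0, 1} : Set ℝ)) :=
    cw.comp continuousOn_fst fun _ h => h.1
  refine ⟨hZ.prod (toFinite _).isClosed, fun z => u z.1 + z.2 • (w z.1 - u z.1),
    c1.add (continuousOn_snd.smul (c2.sub c1)), ?_, fun x => by simp, fun x => by simp⟩
  rintro ⟨x, s⟩ ⟨hx, rfl | rfl⟩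
  · simpa using mu hx
  · simpa using mw hx

theorem FTc_cap {n : ℕ} {D J P : Set (Rn 3)} (hD : PDsc D J) (hP : P ⊆ J) {Z Y : Set (Rn n)}
    (hZ : IsClosed Z) (hY : IsClosed Y) {u w : Rn n → Rn 3} (cu : ContinuousOn u Z)
    (cw : ContinuousOn w Z) (mu : MapsTo u Z (D \ P)) (mw : MapsTo w Z (D \ P))
    {G : Rn n × ℝ → Rn 3} (hG : IsH Y (D \ P) u w G) :
    ∃ g, IsH Z (D \ P) u w g ∧ EqOn g G (Y ×ˢ Icc 0 1) := by
  obtain ⟨h1, e, e1, e2, e3, e4⟩ := FTc_ends hZ cu cw mu mw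
  have h2 : IsClosed (Y ×ˢ Icc (0 : ℝ) 1) := hY.prod isClosed_Icc
  obtain ⟨g₀, g1, g2, g3⟩ := glue_two h1 h2 e1 hG.cont (by
    rintro ⟨x, s⟩ ⟨⟨-, rfl | rfl⟩, hx, -⟩
    · exact (e3 x).trans (hG.zero x hx).symm
    · exact (e4 x).trans (hG.one x hx).symm)
  have m0 : MapsTo g₀ (Z ×ˢ {0, 1} ∪ Y ×ˢ Icc 0 1) (D \ P) := by
    rintro z (hz | hz)
    · exact g2 hz ▸ e2 hz
    · exact g3 hz ▸ hG.mem _ hz.1 _ hz.2
  obtain ⟨g, k1, k2, k3, k4⟩ := ext_cel (h1.union h2) g1.continuousOn hD fun z hz => (m0 hz).1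
  refine ⟨g, ⟨k1.continuousOn, fun x hx => ?_, fun x hx => ?_, fun x _ s _ => ⟨k3 _, fun h => ?_⟩⟩,
    fun z hz => (k2 (Or.inr hz)).trans (g3 hz)⟩
  · have h : (x, (0 : ℝ)) ∈ Z ×ˢ ({0, 1} : Set ℝ) := ⟨hx, Or.inl rfl⟩
    exact (k2 (Or.inl h)).trans ((g2 h).trans (e3 x))
  · have h : (x, (1 : ℝ)) ∈ Z ×ˢ ({0, 1} : Set ℝ) := ⟨hx, Or.inr rfl⟩
    exact (k2 (Or.inl h)).trans ((g2 h).trans (e4 x))
  · by_cases hz : (x, s) ∈ Z ×ˢ ({0, 1} : Set ℝ) ∪ Y ×ˢ Icc 0 1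
    · exact (m0 hz).2 (k2 hz ▸ h)
    · exact k4 _ hz (hP h)

/-- Two maps to a sphere minus points of the equator which respect the two caps and a finite family
of arcs of the equator are homotopic. On `Z j × I` move along the arc (`tarc_inv`, parametrisation);
on `Zp × I` and `Zm × I` use `ext_cel` (`Len.pdsc`, `Len.symm`) with the closed set
`Zp × {0,1} ∪ (Zp ∩ Zm) × I`; glue. -/
theorem htp_two {n : ℕ} {B Dp Dm J P : Set (Rn 3)} (hL : Len 2 B Dp Dm J) (hP : P ⊆ J)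
    {Zp Zm : Set (Rn n)} (hp : IsClosed Zp) (hm : IsClosed Zm) {κ : Type} {S : Set κ}
    (hS : S.Finite) {Z : κ → Set (Rn n)} (hZ : ∀ j ∈ S, IsClosed (Z j))
    (hd : S.PairwiseDisjoint Z) (hu : ⋃ j ∈ S, Z j = Zp ∩ Zm) {Γ : κ → Set (Rn 3)}
    (hΓ : ∀ j ∈ S, (∃ a b, TArc (Γ j) a b) ∧ Γ j ⊆ J \ P) {u w : Rn n → Rn 3}
    (cu : ContinuousOn u (Zp ∪ Zm)) (cw : ContinuousOn w (Zp ∪ Zm))
    (up : MapsTo u Zp (Dp \ P)) (um : MapsTo u Zm (Dm \ P)) (wp : MapsTo w Zp (Dp \ P))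
    (wm : MapsTo w Zm (Dm \ P)) (uj : ∀ j ∈ S, MapsTo u (Z j) (Γ j))
    (wj : ∀ j ∈ S, MapsTo w (Z j) (Γ j)) : Htp (Zp ∪ Zm) ((Dp ∪ Dm) \ P) u w := by
  have h1 : ∀ j, ∃ H, j ∈ S → IsH (Z j) (J \ P) u w H := fun j => by
    by_cases hj : j ∈ S
    · obtain ⟨⟨a, b, hab⟩, hs⟩ := hΓ j hj
      have s1 : Z j ⊆ Zp ∪ Zm := fun x hx => Or.inl (hu.le (mem_biUnion hj hx)).1
      obtain ⟨c, e, e1, e2, e3, e4⟩ :=
        FTc_ends (hZ j hj) (cu.mono s1) (cw.mono s1) (uj j hj) (wj j hj)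
      obtain ⟨g, g1, g2, g3⟩ := ext_arc c e1 hab e2
      exact ⟨g, fun _ => ⟨g1.continuousOn, fun x hx => (g2 ⟨hx, Or.inl rfl⟩).trans (e3 x),
        fun x hx => (g2 (x := (x, 1)) ⟨hx, Or.inr rfl⟩).trans (e4 x), fun _ _ _ _ => hs (g3 _)⟩⟩
    · exact ⟨fun _ => 0, fun h => absurd h hj⟩
  choose H hH using h1
  obtain ⟨G, hG, -⟩ := htp_glue hS hZ hH fun k hk l hl x hx s _ => by
    rw [hd.elim hk hl fun h => disjoint_left.1 h hx.1 hx.2]
  rw [hu, ← hL.inter] at hG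
  obtain ⟨gp, p1, p2⟩ := FTc_cap hL.pdsc hP hp (hp.inter hm) (cu.mono subset_union_left)
    (cw.mono subset_union_left) up wp (hG.mono subset_rfl fun y h => ⟨h.1.1, h.2⟩)
  obtain ⟨gm, m1, m2⟩ := FTc_cap hL.symm.pdsc hP hm (hp.inter hm) (cu.mono subset_union_right)
    (cw.mono subset_union_right) um wm (hG.mono subset_rfl fun y h => ⟨h.1.2, h.2⟩)
  obtain ⟨g, g1, g2, g3⟩ := glue_two (hp.prod isClosed_Icc) (hm.prod isClosed_Icc) p1.cont m1.cont
    fun z hz => (p2 ⟨⟨hz.1.1, hz.2.1⟩, hz.1.2⟩).trans (m2 ⟨⟨hz.1.1, hz.2.1⟩, hz.1.2⟩).symm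
  have i0 : (0 : ℝ) ∈ Icc (0 : ℝ) 1 := left_mem_Icc.2 zero_le_one
  have i1 : (1 : ℝ) ∈ Icc (0 : ℝ) 1 := right_mem_Icc.2 zero_le_one
  refine ⟨g, g1.continuousOn, ?_, ?_, ?_⟩
  · rintro x (hx | hx)
    · exact (g2 ⟨hx, i0⟩).trans (p1.zero x hx)
    · exact (g3 ⟨hx, i0⟩).trans (m1.zero x hx)
  · rintro x (hx | hx)
    · exact (g2 ⟨hx, i1⟩).trans (p1.one x hx)
    · exact (g3 ⟨hx, i1⟩).trans (m1.one x hx)
  · rintro x (hx | hx) s hs
    · rw [g2 (show (x, s) ∈ Zp ×ˢ Icc 0 1 from ⟨hx, hs⟩)]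
      exact ⟨Or.inl (p1.mem x hx s hs).1, (p1.mem x hx s hs).2⟩
    · rw [g3 (show (x, s) ∈ Zm ×ˢ Icc 0 1 from ⟨hx, hs⟩)]
      exact ⟨Or.inr (m1.mem x hx s hs).1, (m1.mem x hx s hs).2⟩

end BEp
end
end

-- merged part: Pool.Agent.Work.MP_f0515e_an.D3.FWind
section
/-! The winding number of a small flat square about a curve which crosses it once.

* `deg_prodlin`: induction on the finite set `S` (for all `O`, `c`): empty by `deg_nz`; for `b ∈ S`
  take a small ball `O1` round `b` with closure in `O` missing the other points,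
  `O2 = O \ closure O1`, `deg_add`; on `O1` homotope the non vanishing factor `c'` to the constant
  `c' b` (`c' (b + s (y - b))`, `deg_htp`), then `deg_target_self` for multiplication by a non zero
  complex number (determinant `|c|^2 > 0`; or a path `exp (s log c)`), `deg_aff`; on `O2` use the
  induction hypothesis with the factor `c y * (cx y - cx b)`.
* `deg_pow`: `z ^ n` is homotopic on the unit square to `∏ (z - s j / (2 n))`.
* `log_form`: `U (exp w / ‖·‖)`-type lifting: on the punctured closed square `φ` is non zero; compose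
  with `w ↦ cx.symm (exp w)` on a half plane or use the homogeneous retraction; `ℂ` is simply
  connected (`IsCoveringMap.existsUnique_continuousMap_lifts` with `Complex.isCoveringMap_exp`
  or `lifts_deform`/`lift_star` of PLift); the lift `α` has `α (w + 2πi) - α w = 2πi k`, so
  `α w - k w` is periodic and descends (`log z` on the slit plane, `log (-z) + πi` near the
  negative axis).
* `deg_cross`: on `O = Ioo (-1) 1 ×ˢ ball 0 1 ⊆ ℝ × Rn 2` the map `q ↦ (η, ζ) (mk3 q.2 q.1)` has degree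
  `±1` at the value of `0` (`deg_homeo`, `deg_aff`); homotope the first coordinate to `σ q.1`, then
  the second to `ζ (mk3 q.2 0)`; `deg_prod`.
* `wind_log`: `log_form`, `deg_of_htp`, `deg_pow` (for negative exponents conjugate,
  `deg_target`). -/

open Set Metric Filter Topology Function BEv
open scoped NNReal

noncomputable section
namespace BEp

/-- The plane as the complex line. -/
def cx : Rn 2 ≃L[ℝ] ℂ :=
  (ContinuousLinearEquiv.finTwoArrow ℝ ℝ).trans Complex.equivRealProdCLM.symm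

@[simp] theorem cx_re (y : Rn 2) : (cx y).re = y 0 := rfl

@[simp] theorem cx_im (y : Rn 2) : (cx y).im = y 1 := rfl

theorem deg_of_htp {E F : Type} [NormedAddCommGroup E] [NormedSpace ℝ E] [FiniteDimensional ℝ E]
    [NormedAddCommGroup F] [NormedSpace ℝ F] [FiniteDimensional ℝ F]
    (h : Module.finrank ℝ E = Module.finrank ℝ F) {O : Set E} (hO : IsOpen O)
    (hb : Bornology.IsBounded O) {u v : E → F} (hu : Continuous u) (hv : Continuous v)
    (hH : Htp (frontier O) {0}ᶜ u v) : Adm O u ∧ Adm O v ∧ deg O u = deg O v := by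
  obtain ⟨H, hH⟩ := hH
  obtain ⟨G, hG, e⟩ := ext_on (isClosed_frontier.prod isClosed_Icc) hH.cont
  exact deg_htp h hO hb hG (fun x hx s hs => by rw [e ⟨hx, hs⟩]; exact hH.mem x hx s hs) hu hv
    (fun x hx => (e ⟨hx, left_mem_Icc.2 zero_le_one⟩).trans (hH.zero x hx))
    fun x hx => (e ⟨hx, right_mem_Icc.2 zero_le_one⟩).trans (hH.one x hx)

theorem FWa_one {b : Rn 2} {r : ℝ} (hr : 0 < r) {c : Rn 2 → ℂ} (hc : Continuous c)
    (h0 : ∀ y ∈ closedBall b r, c y ≠ 0) :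
    deg (ball b r) (fun y => c y * (cx y - cx b)) = sg cx := by
  have hf : Module.finrank ℝ (Rn 2) = Module.finrank ℝ ℂ := by simp
  have hb := mem_closedBall_self (x := b) hr.le
  have ne : ∀ y ∈ frontier (ball b r), cx y - cx b ≠ 0 := fun y hy e =>
    hy.2 (by rw [isOpen_ball.interior_eq, cx.injective (sub_eq_zero.1 e)]; exact mem_ball_self hr)
  rw [← (deg_htp hf isOpen_ball isBounded_ball
      (H := fun q => c (b + q.2 • (q.1 - b)) * (cx q.1 - cx b)) (by fun_prop)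
      (fun y hy s hs => mul_ne_zero (h0 _ ((convex_closedBall b r).add_smul_sub_mem hb
        (closure_ball_subset_closedBall hy.1) hs)) (ne y hy))
      (u := fun y => c b * (cx y - cx b)) (v := fun y => c y * (cx y - cx b)) (by fun_prop)
      (by fun_prop) (by simp) (by simp)).2.2,
    ← (deg_htp hf isOpen_ball isBounded_ball
      (H := fun q => Complex.exp (q.2 * Complex.log (c b)) * (cx q.1 - cx b)) (by fun_prop)
      (fun y hy s hs => mul_ne_zero (Complex.exp_ne_zero _) (ne y hy))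
      (u := fun y => cx (y - b)) (v := fun y => c b * (cx y - cx b)) (by fun_prop) (by fun_prop)
      (by simp) (by simp [Complex.exp_log (h0 b hb)])).2.2,
    deg_aff cx isOpen_ball isBounded_ball (mem_ball_self hr)]

theorem deg_prodlin (S : Finset (Rn 2)) : ∀ (O : Set (Rn 2)) (c : Rn 2 → ℂ), IsOpen O →
    Bornology.IsBounded O → (↑S : Set (Rn 2)) ⊆ O → Continuous c → (∀ y ∈ closure O, c y ≠ 0) →
    deg O (fun y => c y * ∏ b ∈ S, (cx y - cx b)) = S.card * sg cx := by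
  classical
  have hf := cx.toLinearEquiv.finrank_eq
  have nz : ∀ (S : Finset (Rn 2)) y, y ∉ S → ∏ b ∈ S, (cx y - cx b) ≠ 0 := fun S y hy =>
    Finset.prod_ne_zero_iff.2 fun b hb e => hy (cx.injective (sub_eq_zero.1 e) ▸ hb)
  have adm : ∀ (S : Finset (Rn 2)) (O : Set (Rn 2)) (c : Rn 2 → ℂ), IsOpen O →
      Bornology.IsBounded O → (↑S : Set (Rn 2)) ⊆ O → Continuous c →
      (∀ y ∈ closure O, c y ≠ 0) → Adm O fun y => c y * ∏ b ∈ S, (cx y - cx b) :=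
    fun S O c hO hb hS hc h0 => ⟨hO, hb, by fun_prop, fun y hy =>
      mul_ne_zero (h0 y hy.1) (nz S y fun k => hy.2 (hO.interior_eq.symm ▸ hS k))⟩
  induction S using Finset.induction_on with
  | empty =>
    intro O c hO hb hS hc h0
    rw [deg_nz hf (adm _ O c hO hb hS hc h0) fun y hy => by simpa using h0 y (subset_closure hy)]
    simp
  | insert b S hbS ih =>
    intro O c hO hb hS hc h0
    rw [Finset.coe_insert, insert_subset_iff] at hS
    obtain ⟨r, hr, h1⟩ := nhds_basis_closedBall.mem_iff.1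
      ((hO.sdiff S.finite_toSet.isClosed).mem_nhds ⟨hS.1, hbS⟩)
    have h2 : (↑S : Set (Rn 2)) ⊆ O \ closedBall b r := fun y hy => ⟨hS.2 hy, fun k => (h1 k).2 hy⟩
    have h3 : closure (O \ closedBall b r) ⊆ (ball b r)ᶜ :=
      closure_minimal (fun y hy k => hy.2 (ball_subset_closedBall k)) isOpen_ball.isClosed_compl
    rw [(deg_add hf (adm _ O c hO hb (by simp [insert_subset_iff, hS]) hc h0) isOpen_ball
      (hO.sdiff isClosed_closedBall) (fun y hy => (h1 (ball_subset_closedBall hy)).1) sdiff_subset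
      (disjoint_left.2 fun y hy k => k.2 (ball_subset_closedBall hy)) fun y hy e => ?_).2.2]
    · have a1 := FWa_one hr (c := fun y => c y * ∏ b ∈ S, (cx y - cx b)) (by fun_prop)
        fun y hy => mul_ne_zero (h0 y (subset_closure (h1 hy).1)) (nz S y (h1 hy).2)
      have a2 := ih _ (fun y => c y * (cx y - cx b)) (hO.sdiff isClosed_closedBall)
        (hb.subset sdiff_subset) h2 (by fun_prop) fun y hy =>
          mul_ne_zero (h0 y (closure_mono sdiff_subset hy)) fun e =>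
            h3 hy (cx.injective (sub_eq_zero.1 e) ▸ mem_ball_self hr)
      simp only [Finset.prod_insert hbS, ← mul_assoc]
      rw [a2, Finset.card_insert_of_notMem hbS]
      simp only [mul_right_comm (c _) (cx _ - cx b)]
      rw [a1]
      push_cast
      ring
    · have k : y ∈ insert b S := by_contra fun k =>
        mul_ne_zero (h0 y (subset_closure hy)) (nz _ y k) e
      rcases Finset.mem_insert.1 k with rfl | k
      exacts [.inl (mem_ball_self hr), .inr (h2 k)]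

theorem deg_pow (n : ℕ) : deg (ball (0 : Rn 2) 1) (fun y => cx y ^ n) = n * sg cx := by
  obtain ⟨S, hS, rfl⟩ :=
    (infinite_of_mem_nhds (0 : Rn 2) (ball_mem_nhds 0 one_pos)).exists_subset_card_eq n
  rw [← deg_prodlin S _ (fun _ => 1) isOpen_ball isBounded_ball hS continuous_const
    fun _ _ => one_ne_zero]
  refine (deg_htp cx.toLinearEquiv.finrank_eq isOpen_ball isBounded_ball
    (H := fun q => ∏ b ∈ S, (cx q.1 - cx (q.2 • b))) (by fun_prop)
    (fun y hy s hs => Finset.prod_ne_zero_iff.2 fun b hb e => hy.2 ?_) (by fun_prop) (by fun_prop)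
    (by simp) (by simp)).2.2
  rw [isOpen_ball.interior_eq, show y = s • b from cx.injective (sub_eq_zero.1 e)]
  exact (convex_ball 0 1).smul_mem_of_zero_mem (mem_ball_self one_pos) (hS hb) hs

/-- Radial retraction onto the unit ball. -/
theorem FWb_ret (n : ℕ) : ∃ ρ : Rn n → Rn n, Continuous ρ ∧ (∀ y, ρ y ∈ closedBall (0 : Rn n) 1) ∧
    (∀ y, y ≠ 0 → ρ y ≠ 0) ∧ ∀ y ∈ closedBall (0 : Rn n) 1, ρ y = y := by
  have h : ∀ y : Rn n, 0 < max 1 ‖y‖ := fun y => lt_max_of_lt_left one_pos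
  refine ⟨fun y => (max 1 ‖y‖)⁻¹ • y, ((continuous_const.max continuous_norm).inv₀
    fun y => (h y).ne').smul continuous_id, fun y => ?_,
    fun y hy => smul_ne_zero (inv_ne_zero (h y).ne') hy, fun y hy => ?_⟩
  · rw [mem_closedBall_zero_iff, norm_smul, norm_inv, Real.norm_of_nonneg (h y).le,
      inv_mul_le_one₀ (h y)]
    exact le_max_right _ _
  · simp only [max_eq_left (mem_closedBall_zero_iff.1 hy), inv_one, one_smul]

theorem log_form {φ : Rn 2 → ℂ} (hφ : ContinuousOn φ (closedBall 0 1 \ {0}))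
    (h0 : ∀ y ∈ closedBall (0 : Rn 2) 1 \ {0}, φ y ≠ 0) :
    ∃ (k : ℤ) (L : Rn 2 → ℂ), ContinuousOn L (closedBall 0 1 \ {0}) ∧
      ∀ y ∈ closedBall (0 : Rn 2) 1 \ {0}, φ y = cx y ^ k * Complex.exp (L y) := by
  obtain ⟨ρ, r1, r2, r3, r4⟩ := FWb_ret 2
  have m : ∀ w, ρ (cx.symm (Complex.exp w)) ∈ closedBall (0 : Rn 2) 1 \ {0} := fun w =>
    ⟨r2 _, r3 _ (cx.symm.map_ne_zero_iff.2 (Complex.exp_ne_zero w))⟩
  have c : Continuous fun w => φ (ρ (cx.symm (Complex.exp w))) :=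
    hφ.comp_continuous (by fun_prop) m
  obtain ⟨α, ⟨-, hα⟩, -⟩ := Complex.isCoveringMapOn_exp.existsUnique_continuousMap_lifts ⟨_, c⟩
    (a₀ := 0) (Complex.exp_log (h0 _ (m 0))) fun w => h0 _ (m w)
  have e : ∀ w, Complex.exp (α w) = φ (ρ (cx.symm (Complex.exp w))) := congrFun hα
  have e1 : ∀ w, Complex.exp (α (w + 2 * Real.pi * Complex.I)) = Complex.exp (α w) := fun w => by
    rw [e, e, Complex.exp_periodic]
  obtain ⟨k, hk⟩ := Complex.exp_eq_exp_iff_exists_int.1 (e1 0)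
  have e2 := Complex.isCoveringMap_exp.eq_of_comp_eq
    (g₁ := fun w => α (w + 2 * Real.pi * Complex.I))
    (g₂ := fun w => α w + k * (2 * Real.pi * Complex.I)) (by fun_prop) (by fun_prop)
    (funext fun w => Subtype.ext ((e1 w).trans (Complex.exp_periodic.int_mul k _).symm)) 0 hk
  have p : Periodic (fun w => α w - k * w) (2 * Real.pi * Complex.I) := fun w => by
    linear_combination congrFun e2 w
  have e3 : ∀ w, α (Complex.log (Complex.exp w)) - k * Complex.log (Complex.exp w) =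
      α w - k * w := fun w => by
    obtain ⟨j, hj⟩ := Complex.exp_eq_exp_iff_exists_int.1 (Complex.exp_log (Complex.exp_ne_zero w))
    rw [hj]
    exact p.int_mul j w
  have c2 : ∀ z, z ≠ 0 → ContinuousAt (fun z => α (Complex.log z) - k * Complex.log z) z :=
    fun z hz => by
      rw [← Complex.exp_log hz, ContinuousAt, ← Complex.isOpenMap_exp.map_nhds_eq
        Complex.continuous_exp.continuousAt, tendsto_map'_iff, comp_def]
      simp only [e3]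
      exact Continuous.continuousAt (f := fun w => α w - k * w) (by fun_prop)
  refine ⟨k, fun y => α (Complex.log (cx y)) - k * Complex.log (cx y), fun y hy =>
    ((c2 _ (cx.map_ne_zero_iff.2 hy.2)).comp cx.continuous.continuousAt).continuousWithinAt,
    fun y hy => ?_⟩
  have n0 : cx y ≠ 0 := cx.map_ne_zero_iff.2 hy.2
  rw [Complex.exp_sub, e, Complex.exp_int_mul, Complex.exp_log n0, cx.symm_apply_apply, r4 y hy.1,
    mul_div_cancel₀ _ (zpow_ne_zero k n0)]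

theorem deg_cross {ζ : Rn 3 → ℂ} {η : Rn 3 → ℝ} (hζ : Continuous ζ) (hη : Continuous η)
    (hi : ∀ x ∈ closedBall (0 : Rn 3) 1, ∀ y ∈ closedBall (0 : Rn 3) 1, ζ x = ζ y → η x = η y → x = y)
    {σ : ℝ} (hs : ∀ x ∈ closedBall (0 : Rn 3) 1, ζ x = ζ 0 → x = 0 ∨ 0 < σ * (η x - η 0) * x 2)
    (hσ : σ ≠ 0) :
    deg (ball (0 : Rn 2) 1) (fun y => ζ (mk3 y 0) - ζ 0) = 1 ∨
      deg (ball (0 : Rn 2) 1) (fun y => ζ (mk3 y 0) - ζ 0) = -1 := by
  have hm : Continuous fun q : Rn 2 × ℝ => mk3 q.1 q.2 := by unfold mk3; fun_prop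
  have m0 : mk3 0 0 = 0 := by ext i; fin_cases i <;> rfl
  have mi : ∀ y y' t t', mk3 y t = mk3 y' t' → y = y' ∧ t = t' := fun y y' t t' e =>
    ⟨by simpa using congrArg pj3 e, congrFun e 2⟩
  have mb : ∀ y ∈ closedBall (0 : Rn 2) 1, ∀ t, |t| ≤ 1 → mk3 y t ∈ closedBall (0 : Rn 3) 1 :=
    fun y hy t ht => by
      rw [mem_closedBall_zero_iff, norm_mk3]
      exact max_le (mem_closedBall_zero_iff.1 hy) ht
  let O := Ioo (-1 : ℝ) 1 ×ˢ ball (0 : Rn 2) 1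
  have hO : IsOpen O := isOpen_Ioo.prod isOpen_ball
  have hb : Bornology.IsBounded O := (isBounded_Ioo _ _).prod isBounded_ball
  have h0 : (0 : ℝ) ∈ Ioo (-1 : ℝ) 1 := by simp
  have hO0 : (0 : ℝ × Rn 2) ∈ O := ⟨h0, mem_ball_self one_pos⟩
  have cl : ∀ q ∈ closure O, |q.1| ≤ 1 ∧ q.2 ∈ closedBall (0 : Rn 2) 1 := fun q hq => by
    rw [closure_prod_eq, closure_Ioo (by norm_num)] at hq
    exact ⟨abs_le.2 hq.1, closure_ball_subset_closedBall hq.2⟩
  have hf : Module.finrank ℝ (ℝ × Rn 2) = Module.finrank ℝ (ℝ × ℂ) := by simp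
  let φ := fun q : ℝ × Rn 2 => (η (mk3 q.2 q.1), ζ (mk3 q.2 q.1))
  have hφ : Continuous φ := (hη.prodMk hζ).comp (hm.comp continuous_swap)
  have iφ : InjOn φ (closure O) := fun q hq q' hq' e => by
    have := mi _ _ _ _ (hi _ (mb _ (cl q hq).2 _ (cl q hq).1) _ (mb _ (cl q' hq').2 _ (cl q' hq').1)
      (congrArg Prod.snd e) (congrArg Prod.fst e))
    exact Prod.ext this.2 this.1
  obtain ⟨o1, e, he, h1⟩ := deg_homeo (F := ℝ × ℂ) rfl hf hO hb
    ((convex_Ioo _ _).prod (convex_ball _ _)).isPreconnected hφ iφ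
  have b1 := (frontier_image hf hO hb hφ iφ).2.1
  have h2 := h1 (fun y => ContinuousLinearEquiv.refl ℝ _ (y - φ 0)) ⟨o1, b1, by fun_prop,
    fun y hy k => hy.2 (o1.interior_eq.symm ▸ ⟨0, hO0, (sub_eq_zero.1 k).symm⟩)⟩
  have cu : Continuous fun y => ζ (mk3 y 0) - ζ 0 :=
    (hζ.comp (hm.comp (continuous_id.prodMk continuous_const))).sub continuous_const
  have h3 := deg_prod (hd2_sc σ hσ) cx isOpen_Ioo (isBounded_Ioo _ _) h0
    (u := fun y => ζ (mk3 y 0) - ζ 0) ⟨isOpen_ball, isBounded_ball, cu, fun y hy k => hy.2 (by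
      rcases hs _ (mb y (closure_ball_subset_closedBall hy.1) 0 (by simp)) (sub_eq_zero.1 k)
        with k | k
      · rw [isOpen_ball.interior_eq, (mi _ _ _ _ (k.trans m0.symm)).1]
        exact mem_ball_self one_pos
      · simp at k)⟩
  have cm : Continuous fun q : (ℝ × Rn 2) × ℝ => mk3 q.1.2 ((1 - q.2) * q.1.1) :=
    hm.comp (f := fun q : (ℝ × Rn 2) × ℝ => (q.1.2, (1 - q.2) * q.1.1)) (by fun_prop)
  have h4 := (deg_htp hf hO hb (H := fun q => ((1 - q.2) * (η (mk3 q.1.2 ((1 - q.2) * q.1.1)) - η 0) +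
      q.2 * (σ * q.1.1), ζ (mk3 q.1.2 ((1 - q.2) * q.1.1)) - ζ 0)) (by fun_prop)
    (fun q hq s hs' k => ?_) (u := fun q => ContinuousLinearEquiv.refl ℝ _ (φ q - φ 0))
    (by fun_prop) h3.1.2.2.1 (by simp [φ, m0]) (by simp [hd2_sc])).2.2
  · rw [h2, h3.2, deg_aff _ o1 b1 ⟨0, hO0, rfl⟩] at h4
    rcases hd2_pm he (sg_cases (.refl ℝ (ℝ × ℂ))) with a | a <;>
      rcases hd2_pm (sg_cases ((hd2_sc σ hσ).prodCongr cx)) (sg_cases cx) with b | b <;>
      rw [a, b] at h4 <;> omega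
  · obtain ⟨k1, k2⟩ := Prod.mk_eq_zero.1 k
    dsimp only at k1 k2
    rcases hs _ (mb _ (cl q hq.1).2 _ (by
      rw [abs_mul, abs_of_nonneg (sub_nonneg.2 hs'.2)]
      exact mul_le_one₀ (sub_le_self _ hs'.1) (abs_nonneg _) (cl q hq.1).1)) (sub_eq_zero.1 k2)
      with k | k
    · obtain ⟨a1, a2⟩ := mi _ _ _ _ (k.trans m0.symm)
      rw [k, sub_self, mul_zero, zero_add, mul_left_comm, mul_eq_zero] at k1
      refine hq.2 (hO.interior_eq.symm ▸ ?_)
      rwa [show q = (0, 0) from Prod.ext (by linear_combination a2 + k1.resolve_left hσ) a1]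
    · rw [mk3_2] at k
      have := mul_nonneg hs'.1 (mul_self_nonneg (σ * q.1))
      have := congrArg (· * (σ * q.1)) k1
      linarith

theorem FWb_mk (y : Rn 2) (hy : y ∈ closedBall (0 : Rn 2) 1) :
    mk3 y 0 ∈ closedBall (0 : Rn 3) 1 := by
  rw [mem_closedBall_zero_iff] at hy ⊢
  refine (pi_norm_le_iff_of_nonneg zero_le_one).2 fun i => ?_
  fin_cases i
  exacts [(norm_le_pi_norm y 0).trans hy, (norm_le_pi_norm y 1).trans hy, by simp]

theorem FWb_cont : Continuous fun y : Rn 2 => mk3 y 0 := by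
  unfold mk3
  fun_prop

/-- The logarithmic form with a natural exponent. -/
theorem FWb_nat {φ : Rn 2 → ℂ} (hφ : ContinuousOn φ (closedBall 0 1 \ {0}))
    (h0 : ∀ y ∈ closedBall (0 : Rn 2) 1 \ {0}, φ y ≠ 0) :
    ∃ (ε : ℝ) (N : ℂ ≃L[ℝ] ℂ) (k : ℕ) (L : Rn 2 → ℂ), (ε = 1 ∨ ε = -1) ∧
      (∀ y, N (cx y) = cx ![y 0, ε * y 1]) ∧ ContinuousOn L (closedBall 0 1 \ {0}) ∧
      ∀ y ∈ closedBall (0 : Rn 2) 1 \ {0}, φ y = N (cx y ^ k) * Complex.exp (L y) := by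
  obtain ⟨k, L, h1, h2⟩ := log_form hφ h0
  obtain ⟨k, rfl | rfl⟩ := k.eq_nat_or_neg
  · exact ⟨1, .refl _ _, k, L, .inl rfl, fun y => Complex.ext rfl (by simp), h1,
      fun y hy => by simpa using h2 y hy⟩
  have n0 : ∀ y ∈ closedBall (0 : Rn 2) 1 \ {0}, Complex.normSq (cx y ^ k) ≠ 0 := fun y hy =>
    (Complex.normSq_pos.2 (pow_ne_zero k (cx.map_ne_zero_iff.2 hy.2))).ne'
  refine ⟨-1, Complex.conjCLE, k, fun y => L y - Real.log (Complex.normSq (cx y ^ k)), .inr rfl,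
    fun y => Complex.ext rfl (by simp), h1.sub (Complex.continuous_ofReal.comp_continuousOn
      ((Complex.continuous_normSq.comp (by fun_prop)).continuousOn.log n0)), fun y hy => ?_⟩
  rw [h2 y hy, zpow_neg, zpow_natCast, Complex.inv_def, Complex.exp_sub, ← Complex.ofReal_exp,
    Real.exp_log ((Complex.normSq_nonneg _).lt_of_ne' (n0 y hy)), Complex.conjCLE_apply,
    Complex.ofReal_inv, div_eq_mul_inv]
  ring

/-- EXPORT: logarithmic form on the punctured square. -/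
theorem wind_log {ζ : Rn 3 → ℂ} {η : Rn 3 → ℝ} (hζ : ContinuousOn ζ (closedBall 0 1))
    (hη : ContinuousOn η (closedBall 0 1))
    (hi : ∀ x ∈ closedBall (0 : Rn 3) 1, ∀ y ∈ closedBall (0 : Rn 3) 1, ζ x = ζ y → η x = η y → x = y)
    {σ : ℝ} (hs : ∀ x ∈ closedBall (0 : Rn 3) 1, ζ x = ζ 0 → x = 0 ∨ 0 < σ * (η x - η 0) * x 2)
    (hσ : σ ≠ 0) :
    ∃ ε : ℝ, (ε = 1 ∨ ε = -1) ∧ ∃ L : Rn 2 → ℂ, ContinuousOn L (closedBall 0 1 \ {0}) ∧
      ∀ y ∈ closedBall (0 : Rn 2) 1 \ {0},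
        ζ (mk3 y 0) - ζ 0 = cx ![y 0, ε * y 1] * Complex.exp (L y) := by
  obtain ⟨ρ, r1, r2, -, r4⟩ := FWb_ret 3
  have z0 : (0 : Rn 3) ∈ closedBall (0 : Rn 3) 1 := mem_closedBall_self zero_le_one
  have c1 : Continuous fun x => ζ (ρ x) := hζ.comp_continuous r1 r2
  have d := deg_cross (η := fun x => η (ρ x)) c1 (hη.comp_continuous r1 r2)
    (fun x hx y hy => by simpa only [r4 x hx, r4 y hy] using hi x hx y hy) (σ := σ)
    (fun x hx => by simpa only [r4 x hx, r4 0 z0] using hs x hx) hσ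
  obtain ⟨ε, N, k, L, h1, h2, h3, h4⟩ := FWb_nat (φ := fun y => ζ (mk3 y 0) - ζ 0)
    ((hζ.comp FWb_cont.continuousOn fun y hy => FWb_mk y hy.1).sub continuousOn_const)
    fun y hy e => by
      rcases hs _ (FWb_mk y hy.1) (sub_eq_zero.1 e) with k | k
      · exact hy.2 ((pj3_mk3 y 0).symm.trans
          ((congrArg pj3 k).trans (by ext i; fin_cases i <;> rfl)))
      · simp at k
  have m : ∀ y ∈ frontier (ball (0 : Rn 2) 1), y ∈ closedBall (0 : Rn 2) 1 \ {0} := fun y hy => by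
    rw [frontier_ball _ one_ne_zero] at hy
    exact ⟨sphere_subset_closedBall hy, ne_zero_of_mem_unit_sphere ⟨y, hy⟩⟩
  have n0 : ∀ y ∈ frontier (ball (0 : Rn 2) 1), cx y ^ k ≠ 0 := fun y hy =>
    pow_ne_zero k (cx.map_ne_zero_iff.2 (m y hy).2)
  have fr := cx.toLinearEquiv.finrank_eq
  have e := (deg_of_htp fr isOpen_ball isBounded_ball ((c1.comp FWb_cont).sub continuous_const)
    (u := fun y => ζ (ρ (mk3 y 0)) - ζ (ρ 0)) (v := fun y => N (cx y ^ k)) (by fun_prop)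
    ⟨fun p => N (cx p.1 ^ k) * Complex.exp ((1 - p.2) * L p.1),
      ContinuousOn.mul (by fun_prop) (ContinuousOn.mul (by fun_prop)
        (h3.comp continuousOn_fst fun p hp => m _ hp.1)).cexp,
      fun y hy => by simpa [r4 _ (FWb_mk y (m y hy).1), r4 0 z0] using (h4 y (m y hy)).symm,
      fun y _ => by simp,
      fun y hy s _ => mul_ne_zero (N.map_ne_zero_iff.2 (n0 y hy)) (Complex.exp_ne_zero _)⟩).2.2
  rw [e, deg_target_self fr N ⟨isOpen_ball, isBounded_ball, by fun_prop, n0⟩, deg_pow] at d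
  obtain rfl : k = 1 := by
    rcases sdet_cases N with a | a <;> rcases sg_cases cx with b | b <;> rw [a, b] at d <;> omega
  exact ⟨ε, h1, L, h3, fun y hy => by rw [← h2, h4 y hy, pow_one]⟩

/-- EXPORT: homotopy form on the boundary of the square (`exp ((1 - s) L)`). -/
theorem wind_htp {ζ : Rn 3 → Rn 2} {η : Rn 3 → ℝ} (hζ : ContinuousOn ζ (closedBall 0 1))
    (hη : ContinuousOn η (closedBall 0 1))
    (hi : ∀ x ∈ closedBall (0 : Rn 3) 1, ∀ y ∈ closedBall (0 : Rn 3) 1, ζ x = ζ y → η x = η y → x = y)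
    {σ : ℝ} (hs : ∀ x ∈ closedBall (0 : Rn 3) 1, ζ x = ζ 0 → x = 0 ∨ 0 < σ * (η x - η 0) * x 2)
    (hσ : σ ≠ 0) :
    ∃ ε : ℝ, (ε = 1 ∨ ε = -1) ∧ Htp (sphere (0 : Rn 2) 1) {0}ᶜ (fun y => ζ (mk3 y 0) - ζ 0)
      (fun y => ![y 0, ε * y 1]) := by
  obtain ⟨ε, h1, L, h2, h3⟩ := wind_log (ζ := fun x => cx (ζ x))
    (cx.continuous.comp_continuousOn hζ) hη (fun x hx y hy e => hi x hx y hy (cx.injective e))
    (fun x hx e => hs x hx (cx.injective e)) hσ
  have m : ∀ y ∈ sphere (0 : Rn 2) 1, y ∈ closedBall (0 : Rn 2) 1 \ {0} := fun y hy =>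
    ⟨sphere_subset_closedBall hy, ne_zero_of_mem_unit_sphere ⟨y, hy⟩⟩
  refine ⟨ε, h1, fun p => cx.symm (cx ![p.1 0, ε * p.1 1] * Complex.exp ((1 - p.2) * L p.1)),
    cx.symm.continuous.comp_continuousOn (ContinuousOn.mul (by fun_prop) (ContinuousOn.mul
      (by fun_prop) (h2.comp continuousOn_fst fun p hp => m _ hp.1)).cexp), fun y hy => ?_,
    fun y _ => by simp, fun y hy s _ => cx.symm.map_ne_zero_iff.2 (mul_ne_zero
      (cx.map_ne_zero_iff.2 fun e => (m y hy).2 ?_) (Complex.exp_ne_zero _))⟩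
  · rw [Complex.ofReal_zero, sub_zero, one_mul, ← h3 y (m y hy), ← map_sub, cx.symm_apply_apply]
  · have a : y 0 = 0 := congrFun e 0
    have b : ε * y 1 = 0 := congrFun e 1
    ext i
    fin_cases i
    · exact a
    · rcases h1 with rfl | rfl <;> simpa using b

/-- Control of the norm along a homotopy of non vanishing maps: renormalise
`H` to the norm `(1 - s) ‖u‖ + s ‖w‖`. -/
theorem htp_norm {X : Type} [TopologicalSpace X] {Z : Set X} {n : ℕ} {u w : X → Rn n}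
    (h : Htp Z {0}ᶜ u w) {I : Set ℝ} (hI : Convex ℝ I) (hu : ∀ x ∈ Z, ‖u x‖ ∈ I)
    (hw : ∀ x ∈ Z, ‖w x‖ ∈ I) : Htp Z {y | y ≠ 0 ∧ ‖y‖ ∈ I} u w := by
  obtain ⟨H, hH⟩ := h
  obtain ⟨cu, mu⟩ := hH.contl
  obtain ⟨cw, mw⟩ := hH.contr
  have h0 : ∀ x ∈ Z, ∀ s ∈ Icc (0 : ℝ) 1, ‖H (x, s)‖ ≠ 0 := fun x hx s hs =>
    norm_ne_zero_iff.2 (hH.mem x hx s hs)
  refine ⟨fun q => (((1 - q.2) * ‖u q.1‖ + q.2 * ‖w q.1‖) / ‖H q‖) • H q, ?_, fun x hx => ?_,
    fun x hx => ?_, fun x hx s hs => ?_⟩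
  · have c1 : ContinuousOn (fun q : X × ℝ => u q.1) (Z ×ˢ Icc 0 1) :=
      cu.comp continuousOn_fst fun q hq => hq.1
    have c2 : ContinuousOn (fun q : X × ℝ => w q.1) (Z ×ˢ Icc 0 1) :=
      cw.comp continuousOn_fst fun q hq => hq.1
    exact ((((continuousOn_const.sub continuousOn_snd).mul c1.norm).add
      (continuousOn_snd.mul c2.norm)).div hH.cont.norm fun q hq => h0 _ hq.1 _ hq.2).smul hH.cont
  · simp only [hH.zero x hx, sub_zero, one_mul, zero_mul, add_zero]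
    rw [div_self (norm_ne_zero_iff.2 (mu hx)), one_smul]
  · simp only [hH.one x hx, sub_self, one_mul, zero_mul, zero_add]
    rw [div_self (norm_ne_zero_iff.2 (mw hx)), one_smul]
  · have p1 : 0 < ‖u x‖ := norm_pos_iff.2 (mu hx)
    have p2 : 0 < ‖w x‖ := norm_pos_iff.2 (mw hx)
    have p3 : 0 < (1 - s) * ‖u x‖ + s * ‖w x‖ :=
      convex_Ioi (0 : ℝ) p1 p2 (sub_nonneg.2 hs.2) hs.1 (sub_add_cancel _ _)
    have e : ‖(((1 - s) * ‖u x‖ + s * ‖w x‖) / ‖H (x, s)‖) • H (x, s)‖ =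
        (1 - s) * ‖u x‖ + s * ‖w x‖ := by
      rw [norm_smul, Real.norm_of_nonneg (div_nonneg p3.le (norm_nonneg _)),
        div_mul_cancel₀ _ (h0 x hx s hs)]
    refine ⟨norm_pos_iff.1 (e.symm ▸ p3), ?_⟩
    rw [e]
    exact hI (hu x hx) (hw x hx) (sub_nonneg.2 hs.2) hs.1 (sub_add_cancel _ _)

theorem FWc_arg {n : ℕ} {D : Set (Rn n)} (hD : Lift D) {z : Rn n → ℂ} (hz : ContinuousOn z D)
    (h0 : ∀ x ∈ D, z x ≠ 0) : ∃ ψ : Rn n → ℝ, ∀ L ⊆ D, IsPreconnected L → ∀ c : ℂ,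
      (∀ x ∈ L, c * z x ∈ Complex.slitPlane) → ∃ k : ℝ, ∀ x ∈ L, (c * z x).arg = ψ x + k := by
  have hp : (2 * Real.pi) ≠ 0 := Real.two_pi_pos.ne'
  let g : Real.Angle → UnitAddCircle := AddCircle.homeomorphAddCircle (2 * Real.pi) 1 hp one_ne_zero
  have hg : Continuous g := (AddCircle.homeomorphAddCircle (2 * Real.pi) 1 hp one_ne_zero).continuous
  have hg' : ∀ t : ℝ, g t = ((t * ((2 * Real.pi)⁻¹ * 1) : ℝ) : UnitAddCircle) := fun t => rfl
  obtain ⟨ψ, hψ, e⟩ := hD (fun x => g (z x).arg) (hg.comp_continuousOn fun x hx =>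
    (Complex.continuousAt_arg_coe_angle (h0 x hx)).comp_continuousWithinAt (hz x hx))
  refine ⟨fun x => 2 * Real.pi * ψ x, fun L hL c1 c hc => ?_⟩
  have ha : ContinuousOn (fun x => (c * z x).arg) L := fun x hx =>
    ContinuousAt.comp_continuousWithinAt (f := fun x => c * z x) (Complex.continuousAt_arg (hc x hx))
      (continuousWithinAt_const.mul ((hz x (hL hx)).mono hL))
  obtain ⟨k, hk⟩ := lift_uniq c1 (hψ.mono hL)
    (ψ' := fun x => ((c * z x).arg - c.arg) * ((2 * Real.pi)⁻¹ * 1))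
    ((ha.sub continuousOn_const).mul continuousOn_const) fun x hx => by
      rw [e x (hL hx), ← hg', Real.Angle.coe_sub, Complex.arg_mul_coe_angle
        (left_ne_zero_of_mul (Complex.slitPlane_ne_zero (hc x hx))) (h0 x (hL hx)),
        add_sub_cancel_left]
  refine ⟨2 * Real.pi * k + c.arg, fun x hx => ?_⟩
  have := hk x hx
  field_simp at this
  linarith

/-- Two connected sets joining a point on the left to a point on the right of the origin, one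
passing below and one passing above, do not lie in a set on which circle valued maps lift.
Take `φ = arg (cx θ) / (2π)` as a map to `UnitAddCircle` (or a logarithm on `D`), on `L₁` compare
with `arg (I * cx θ)`, on `L₂` with `arg (-I * cx θ)` (continuous on the slit plane), `lift_uniq`. -/
theorem no_wind {n : ℕ} {D L₁ L₂ : Set (Rn n)} (hD : Lift D) {θ : Rn n → Rn 2}
    (hθ : ContinuousOn θ D) (h0 : ∀ x ∈ D, θ x ≠ 0) (s1 : L₁ ⊆ D) (s2 : L₂ ⊆ D)
    (c1 : IsPreconnected L₁) (c2 : IsPreconnected L₂) {a b : Rn n} (a1 : a ∈ L₁) (a2 : a ∈ L₂)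
    (b1 : b ∈ L₁) (b2 : b ∈ L₂) (ha : θ a 0 < 0) (hb : 0 < θ b 0)
    (h1 : ∀ x ∈ L₁, θ x 0 = 0 → θ x 1 < 0) (h2 : ∀ x ∈ L₂, θ x 0 = 0 → 0 < θ x 1) : False := by
  obtain ⟨ψ, h⟩ := FWc_arg hD (z := fun x => cx (θ x)) (cx.continuous.comp_continuousOn hθ)
    fun x hx e => h0 x hx (cx.map_eq_zero_iff.1 e)
  obtain ⟨k₁, e1⟩ := h L₁ s1 c1 Complex.I fun x hx => by
    rw [Complex.mem_slitPlane_iff]
    by_cases e : θ x 0 = 0
    · exact Or.inl (by simpa using h1 x hx e)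
    · exact Or.inr (by simpa using e)
  obtain ⟨k₂, e2⟩ := h L₂ s2 c2 (-Complex.I) fun x hx => by
    rw [Complex.mem_slitPlane_iff]
    by_cases e : θ x 0 = 0
    · exact Or.inl (by simpa using h2 x hx e)
    · exact Or.inr (by simpa using e)
  have k1 := Complex.arg_neg_eq_arg_add_pi_of_im_neg (x := Complex.I * cx (θ a)) (by simpa using ha)
  have k2 := Complex.arg_neg_eq_arg_sub_pi_of_im_pos (x := Complex.I * cx (θ b)) (by simpa using hb)
  rw [← neg_mul, e2 _ a2, e1 _ a1] at k1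
  rw [← neg_mul, e2 _ b2, e1 _ b1] at k2
  linarith [Real.pi_pos]

end BEp
end
end

-- merged part: Pool.Agent.Work.MP_f0515e_an.D3.BDefs2
section
/-! Star balls: definitions used in the construction. -/

open Set Metric Filter Topology Function BEv
open scoped NNReal

noncomputable section
namespace BEp

section
variable {E : Type} [NormedAddCommGroup E] [NormedSpace ℝ E] {ι : Type}

/-- The star with centre the origin. -/
def bSt (a : ι → E) : Set E := {q | ∃ e, ∃ t ∈ Icc (0 : ℝ) 1, q = t • a e}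

/-- The complement of the rays. -/
def bYr (a : ι → E) : Set E := {q | ∀ e (t : ℝ), 0 ≤ t → q ≠ t • a e}

/-- Image of the part of the rays near the star. -/
def bGa (h : E → Rn 3) (a : ι → E) (δ : ℝ) : Set (Rn 3) :=
  {x | ∃ e, ∃ t : ℝ, 0 ≤ t ∧ t • a e ∈ cthickening δ (bSt a) ∧ x = h (t • a e)}

/-- Normalised data: `k` inverts `h` on the closed `δ`-neighbourhood of the star. -/
structure BCo (h : E → Rn 3) (k : Rn 3 → E) (Po : Set (Rn 3)) (a : ι → E) (i : ι → Fin 3)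
    (σ : ι → ℝ) (δ Q : ℝ) : Prop where
  hc : Continuous h
  kc : Continuous k
  kh : ∀ q ∈ cthickening δ (bSt a), k (h q) = q
  δ0 : 0 < δ
  Q0 : 0 < Q
  opn : IsOpen Po
  opn' : IsOpen (h '' thickening δ (bSt a))
  ne : ∀ e, a e ≠ 0
  dir : ∀ e e' (t : ℝ), 0 < t → a e = t • a e' → e = e'
  sgn : ∀ e, σ e = 1 ∨ σ e = -1
  inn : ∀ e, ∀ t ∈ Ico (0 : ℝ) 1, h (t • a e) ∈ Po
  disj : ∀ e e' x, dist x (h (a e)) ≤ Q → dist x (h (a e')) ≤ Q → e = e'
  loc : ∀ e x, dist x (h (a e)) ≤ Q → (x ∈ Po ↔ σ e * (x (i e) - h (a e) (i e)) < 0)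
  thin : ∀ q ∈ thickening δ (bSt a), h q ∈ Po ∨ ∃ e, dist (h q) (h (a e)) < Q
  out : ∀ e (t : ℝ), 1 < t → t • a e ∈ cthickening δ (bSt a) →
    dist (h (t • a e)) (h (a e)) < Q ∧ 0 < σ e * (h (t • a e) (i e) - h (a e) (i e))

end

/-- The plane orthogonal to the axis `i`, with an orientation `s`. -/
def pem (i : Fin 3) (s : ℝ) (w : Rn 2) : Rn 3 :=
  Pi.single (i + 1) (w 0) + Pi.single (i + 2) (s * w 1)

/-- Its left inverse. -/
def mep (i : Fin 3) (s : ℝ) (x : Rn 3) : Rn 2 := ![x (i + 1), s * x (i + 2)]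

/-- Stereographic coordinates of the complement of the ray through `(1, 0)`. -/
def slam (q : ℝ × ℂ) : ℝ := (√(q.1 ^ 2 + ‖q.2‖ ^ 2) - q.1) / 2
def ste (q : ℝ × ℂ) : ℂ := q.2 / (2 * slam q : ℝ)
def sus (z : ℂ) : ℝ × ℂ := (‖z‖ ^ 2 - 1, 2 * z)

/-- Piecewise linear inversion of the rinv `1 / 4 ≤ ‖x‖ ≤ 1`. -/
def rinv (c κ : ℝ) (x : Rn 2) : Rn 2 := fun j =>
  c * x j + κ * (max (1 / 2 - 2 * ‖x‖ + x j) 0 - max (1 / 2 - 2 * ‖x‖ - x j) 0) +
    6 * c * (max (1 / 3 - 4 / 3 * ‖x‖ + x j) 0 - max (1 / 3 - 4 / 3 * ‖x‖ - x j) 0)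

/-- Winding data at the marks, in stereographic coordinates with pole the leg `o`. -/
structure BWd {ι : Type} (h : ℝ × ℂ → Rn 3) (k : Rn 3 → ℝ × ℂ) (a : ι → ℝ × ℂ) (i : ι → Fin 3)
    (o : ι) (δ Q R : ℝ) (s : ι → ℝ) (L : ι → Rn 2 → ℂ) (m : ℝ) : Prop where
  ao : a o = (1, 0)
  R0 : 0 < R
  RQ : 4 * R < Q
  sub : ∀ e, closedBall (h (a e)) (4 * R) ⊆ h '' thickening δ (bSt a)
  sg : ∀ e, s e = 1 ∨ s e = -1
  Lc : ∀ e, ContinuousOn (L e) {w | w ≠ 0 ∧ ‖w‖ ≤ R}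
  log : ∀ e w, w ≠ 0 → ‖w‖ ≤ R →
    ste (k (h (a e) + pem (i e) (s e) w)) - ste (a e) = cx w * Complex.exp (L e w)
  m0 : 0 < m
  pos : ∀ e, e ≠ o → ∀ x, dist x (h (a e)) ≤ R → 0 < slam (k x)
  sep : ∀ e e', e ≠ o → e' ≠ o → e ≠ e' → m < ‖ste (a e) - ste (a e')‖
  near : ∀ e, e ≠ o → ∀ x, dist x (h (a e)) ≤ R → ‖ste (k x) - ste (a e)‖ ≤ m
  far : ∀ e x, dist x (h (a o)) ≤ R → k x ∈ bYr a → ‖ste (a e)‖ < ‖ste (k x)‖

/-- The square of radius `1 / 4` minus open squares. -/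
def bP0 {ι : Type} (o : ι) (c : ι → Rn 2) (ρ : ℝ) : Set (Rn 2) :=
  {x | ‖x‖ ≤ 1 / 4 ∧ ∀ e, e ≠ o → ρ ≤ dist x (c e)}

/-- A singular planar surface spanning the boundaries of the flat squares of radius `r`. -/
structure BSf {ι : Type} (y : ι → Rn 3) (i : ι → Fin 3) (o : ι) (s : ι → ℝ) (r : ℝ)
    (c : ι → Rn 2) (ρ : ℝ) (g : Rn 2 → Rn 3) : Prop where
  r0 : 0 < r
  ρ0 : 0 < ρ
  cin : ∀ e, e ≠ o → ‖c e‖ + ρ < 1 / 4
  cd : ∀ e e' x, e ≠ o → e' ≠ o → dist x (c e) ≤ ρ → dist x (c e') ≤ ρ → e = e'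
  gc : Continuous g
  bd : ∀ e, e ≠ o → ∀ x, dist x (c e) = ρ → g x = y e + pem (i e) (s e) ((r / ρ) • (x - c e))
  bo : ∀ x, ‖x‖ = 1 / 4 → g x = y o + pem (i o) (s o) ((4 * r) • x)

/-- The sphere given by the lemma of Dehn. -/
structure BPre {ι : Type} (W Γ Po : Set (Rn 3)) (y : ι → Rn 3) (i : ι → Fin 3) (o : ι)
    (R c ε : ℝ) (ht : ι → ℝ) (B S : Set (Rn 3)) : Prop where
  ball : Ball B S
  sub : S ⊆ W
  av : ∀ x ∈ S, x ∈ Γ → ∃ e, dist x (y e) < c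
  po : ∀ x ∈ S, x ∈ Po ∨ ∃ e, dist x (y e) < 2 * R ∧ |x (i e) - y e (i e)| < ε
  yo : y o ∈ S
  hε : ∀ e, |ht e| ≤ ε / 2
  sh : ∀ e, ∀ x ∈ S, dist x (y e) ≤ c → x (i e) = y e (i e) + ht e

/-- The sphere after the push. -/
structure BPost {ι : Type} (W Γ Po : Set (Rn 3)) (y : ι → Rn 3) (i : ι → Fin 3) (o : ι)
    (r : ι → ℝ) (B S : Set (Rn 3)) : Prop where
  ball : Ball B S
  sub : B ⊆ W
  av : ∀ x ∈ S, x ∈ Γ → ∃ e, x = y e
  po : ∀ x ∈ S, x ∈ Po ∨ ∃ e, x ∈ fsq (y e) (i e) (r e)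
  yo : y o ∈ S
  sh : ∀ e, ∀ x ∈ S, dist x (y e) ≤ r e → x (i e) = y e (i e)

end BEp
end
end

-- merged part: Pool.Agent.Work.MP_f0515e_an.D3.BSt
section
/-! Star balls: stereographic coordinates. With `N = √(q.1 ^ 2 + ‖q.2‖ ^ 2)` one has `(N - q.1) (N + q.1) = ‖q.2‖ ^ 2`;
for `q = c • sus z` one has `N = c (‖z‖ ^ 2 + 1)`. `ste_far`: `‖ste q‖ ^ 2 = (N + q.1) / (N - q.1)` and `slam` is continuous with
`slam (1, 0) = 0`. About 180 lines. -/

open Set Metric Filter Topology Function BEv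
open scoped NNReal

noncomputable section
namespace BEp

theorem cont_slam : Continuous slam := by
  unfold slam
  fun_prop

theorem cont_sus : Continuous sus := by
  unfold sus
  fun_prop

theorem slam_nonneg (q : ℝ × ℂ) : 0 ≤ slam q := by
  have := (le_abs_self q.1).trans
    (Real.abs_le_sqrt (le_add_of_nonneg_right (sq_nonneg ‖q.2‖) : q.1 ^ 2 ≤ _))
  unfold slam
  linarith

theorem BSt_id (q : ℝ × ℂ) : 4 * slam q * (slam q + q.1) = ‖q.2‖ ^ 2 := by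
  have := Real.sq_sqrt (show 0 ≤ q.1 ^ 2 + ‖q.2‖ ^ 2 by positivity)
  unfold slam
  linarith

theorem slam_pos_iff {q : ℝ × ℂ} :
    0 < slam q ↔ ∀ t : ℝ, 0 ≤ t → q ≠ t • ((1, 0) : ℝ × ℂ) := by
  refine ⟨fun h t ht e => ?_, fun h => (slam_nonneg q).lt_of_ne fun e => ?_⟩
  · simp [e, slam, Real.sqrt_sq ht] at h
  · have k := BSt_id q
    have k1 : q.1 = √(q.1 ^ 2 + ‖q.2‖ ^ 2) := by unfold slam at e; linarith
    rw [← e, mul_zero, zero_mul, eq_comm, sq_eq_zero_iff, norm_eq_zero] at k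
    exact h q.1 (k1 ▸ Real.sqrt_nonneg _) (Prod.ext (by simp) (by simp [k]))

theorem contOn_ste : ContinuousOn ste {q | 0 < slam q} := by
  have := cont_slam
  refine continuous_snd.continuousOn.div (Continuous.continuousOn (by fun_prop)) fun q hq => ?_
  exact Complex.ofReal_ne_zero.2 (mul_pos two_pos hq).ne'

theorem slam_smul {t : ℝ} (ht : 0 ≤ t) (q : ℝ × ℂ) : slam (t • q) = t * slam q := by
  have : (t • q).1 ^ 2 + ‖(t • q).2‖ ^ 2 = t ^ 2 * (q.1 ^ 2 + ‖q.2‖ ^ 2) := by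
    rw [Prod.smul_fst, Prod.smul_snd, norm_smul, Real.norm_of_nonneg ht, smul_eq_mul]
    ring
  rw [slam, slam, this, Real.sqrt_mul (sq_nonneg t), Real.sqrt_sq ht, Prod.smul_fst, smul_eq_mul]
  ring

theorem ste_smul {t : ℝ} (ht : 0 < t) (q : ℝ × ℂ) : ste (t • q) = ste q := by
  rw [ste, ste, slam_smul ht.le, Prod.smul_snd, Complex.real_smul, mul_left_comm,
    Complex.ofReal_mul t, mul_div_mul_left _ _ (Complex.ofReal_ne_zero.2 ht.ne')]

theorem slam_sus (z : ℂ) : slam (sus z) = 1 := by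
  have : (‖z‖ ^ 2 - 1) ^ 2 + ‖2 * z‖ ^ 2 = (‖z‖ ^ 2 + 1) ^ 2 := by
    rw [norm_mul, Complex.norm_two]
    ring
  simp only [slam, sus]
  rw [this, Real.sqrt_sq (by positivity)]
  ring

theorem ste_sus (z : ℂ) : ste (sus z) = z := by
  rw [ste, slam_sus]
  simp [sus]

theorem sus_ste {q : ℝ × ℂ} (h : 0 < slam q) : slam q • sus (ste q) = q := by
  have k := BSt_id q
  have h' : (slam q : ℂ) ≠ 0 := Complex.ofReal_ne_zero.2 h.ne'
  refine Prod.ext ?_ ?_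
  · simp only [sus, ste, Prod.smul_fst, smul_eq_mul, norm_div, div_pow, Complex.norm_real,
      Real.norm_eq_abs, sq_abs, ← k]
    field_simp
    ring
  · simp only [sus, ste, Prod.smul_snd, Complex.real_smul]
    push_cast
    field_simp

theorem ste_pole : ste (1, 0) = 0 := by
  simp [ste]

theorem ste_far (N : ℝ) : ∃ ε > 0, ∀ q : ℝ × ℂ, dist q (1, 0) ≤ ε → 0 < slam q → N < ‖ste q‖ := by
  have c := cont_slam
  have : ∀ᶠ q in 𝓝 ((1, 0) : ℝ × ℂ), N ^ 2 * slam q < slam q + q.1 :=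
    ContinuousAt.eventually_lt (by fun_prop) (by fun_prop) (by simp [slam])
  obtain ⟨ε, h0, h1⟩ := nhds_basis_closedBall.eventually_iff.1 this
  refine ⟨ε, h0, fun q hq h => lt_of_pow_lt_pow_left₀ 2 (norm_nonneg _) ?_⟩
  have k : slam q * (‖ste q‖ ^ 2 - 1) = q.1 := congrArg Prod.fst (sus_ste h)
  have := h1 hq
  nlinarith

variable {ι : Type} {a : ι → ℝ × ℂ} {o : ι}

theorem BSt_ray {q q' : ℝ × ℂ} (h : 0 < slam q) (h' : 0 < slam q') (e : ste q = ste q') :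
    q = (slam q / slam q') • q' := by
  have k := congrArg (fun x => (slam q / slam q') • x) (sus_ste h')
  simp only [smul_smul, div_mul_cancel₀ _ h'.ne', ← e, sus_ste h] at k
  exact k

theorem slam_leg (ao : a o = (1, 0)) (ne : ∀ e, a e ≠ 0)
    (dir : ∀ e e' (t : ℝ), 0 < t → a e = t • a e' → e = e') {e : ι} (he : e ≠ o) :
    0 < slam (a e) := by
  refine slam_pos_iff.2 fun t ht k => ?_
  rcases ht.eq_or_lt with rfl | ht
  · exact ne e (k.trans (zero_smul _ _))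
  · exact he (dir e o t ht (ao ▸ k))

theorem ste_leg_inj (ao : a o = (1, 0)) (ne : ∀ e, a e ≠ 0)
    (dir : ∀ e e' (t : ℝ), 0 < t → a e = t • a e' → e = e') {e e' : ι} (he : e ≠ o) (he' : e' ≠ o)
    (h : ste (a e) = ste (a e')) : e = e' := by
  have k := slam_leg ao ne dir he
  have k' := slam_leg ao ne dir he'
  exact dir e e' _ (div_pos k k') (BSt_ray k k' h)

theorem mem_bYr (ao : a o = (1, 0)) (ne : ∀ e, a e ≠ 0)
    (dir : ∀ e e' (t : ℝ), 0 < t → a e = t • a e' → e = e') {q : ℝ × ℂ} :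
    q ∈ bYr a ↔ 0 < slam q ∧ ∀ e, e ≠ o → ste q ≠ ste (a e) := by
  constructor
  · intro h
    have k : 0 < slam q := slam_pos_iff.2 fun t ht => ao ▸ h o t ht
    exact ⟨k, fun e he k1 => h e _ (div_pos k (slam_leg ao ne dir he)).le
      (BSt_ray k (slam_leg ao ne dir he) k1)⟩
  · rintro ⟨h1, h2⟩ e t ht rfl
    rcases ht.eq_or_lt with rfl | ht'
    · rw [slam_smul le_rfl, zero_mul] at h1
      exact h1.false
    by_cases he : e = o
    · exact slam_pos_iff.1 h1 t ht (by rw [he, ao])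
    · exact h2 e he (ste_smul ht' _)

end BEp
end
end

-- merged part: Pool.Agent.Work.MP_f0515e_an.D3.FHol
section
/-! Spheres with square holes: coordinates, rescaling, arcs in level sets, normal forms. -/

open Set Metric Filter Topology Function BEv
open scoped NNReal

noncomputable section
namespace BEp

section Co
variable {p x : Rn 3} {M M' : Rn 3 ≃L[ℝ] Rn 3}

@[simp] theorem co_add (p : Rn 3) (M : Rn 3 ≃L[ℝ] Rn 3) (y : Rn 3) : co p M (p + M y) = y := by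
  simp [co]

@[simp] theorem add_co (p : Rn 3) (M : Rn 3 ≃L[ℝ] Rn 3) (x : Rn 3) : p + M (co p M x) = x := by
  simp [co]

@[simp] theorem co_self (p : Rn 3) (M : Rn 3 ≃L[ℝ] Rn 3) : co p M p = 0 := by
  simp [co]

theorem tp_co (p : Rn 3) (M : Rn 3 ≃L[ℝ] Rn 3) : TP (co p M) := by
  exact (TP.clm (M.symm : Rn 3 →L[ℝ] Rn 3)).comp (TP.id'.sub (TP.const p))

theorem fha_tp (p : Rn 3) (M : Rn 3 ≃L[ℝ] Rn 3) : TP (fun y => p + M y) :=
  (TP.const p).add (TP.clm (M : Rn 3 →L[ℝ] Rn 3))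

theorem poly_bx (p : Rn 3) (M : Rn 3 ≃L[ℝ] Rn 3) : Poly (bx p M) := by
  convert (Poly.closedBall (0 : Rn 3) 1).image (fha_tp p M) using 1
  ext x
  constructor
  · intro h
    exact ⟨co p M x, mem_closedBall_zero_iff.2 h, add_co p M x⟩
  · rintro ⟨y, hy, rfl⟩
    simpa [bx] using hy

theorem poly_sq (p : Rn 3) (M : Rn 3 ≃L[ℝ] Rn 3) : Poly (sq p M) := by
  exact poly_eq (poly_bx p M) ((tp_co p M).apply 2) 0

theorem poly_dsq (p : Rn 3) (M : Rn 3 ≃L[ℝ] Rn 3) : Poly (dsq p M) := by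
  convert poly_eq (poly_sq p M) (tp_co p M).norm_pi 1 using 1
  ext x
  exact ⟨fun h => ⟨⟨h.1.le, h.2⟩, h.1⟩, fun h => ⟨h.2, h.1.2⟩⟩

theorem fha_pj (h : x ∈ dsq p M) :
    pj3 (co p M x) ∈ sphere (0 : Rn 2) 1 ∧ p + M (mk3 (pj3 (co p M x)) 0) = x := by
  refine ⟨mem_sphere_zero_iff_norm.2 ((PUp_norm h.2).symm.trans h.1), ?_⟩
  rw [← h.2, mk3_pj3, add_co]

theorem fha_mem : x ∈ dsq p M ↔ ∃ y ∈ sphere (0 : Rn 2) 1, x = p + M (mk3 y 0) := by
  refine ⟨fun h => ⟨_, (fha_pj h).1, (fha_pj h).2.symm⟩, ?_⟩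
  rintro ⟨y, hy, rfl⟩
  rw [mem_sphere_zero_iff_norm] at hy
  simp [dsq, norm_mk3, hy]

theorem crc_dsq (p : Rn 3) (M : Rn 3 ≃L[ℝ] Rn 3) : Crc (dsq p M) := by
  convert (crc_sq (0 : Rn 2) one_pos).image ((fha_tp p M).comp (TP.id'.mk3 (TP.const 0))) ?_ using 1
  · ext x
    rw [fha_mem]
    exact exists_congr fun y => and_congr_right fun _ => eq_comm
  · intro y _ y' _ e
    simpa using congrArg pj3 (M.injective (add_left_cancel e))

theorem mem_dsq : x ∈ dsq p M ↔ ∃ y ∈ sphere (0 : Rn 2) 1, x = p + M (mk3 y 0) := by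
  exact fha_mem

theorem dsq_pj (h : x ∈ dsq p M) :
    pj3 (co p M x) ∈ sphere (0 : Rn 2) 1 ∧ p + M (mk3 (pj3 (co p M x)) 0) = x := by
  exact fha_pj h

theorem exists_resc (M : Rn 3 ≃L[ℝ] Rn 3) {r ε : ℝ} (hr : r ≠ 0) (hε : ε = 1 ∨ ε = -1) :
    ∃ M' : Rn 3 ≃L[ℝ] Rn 3, ∀ y, M' y = r • M ![y 0, ε * y 1, y 2] := by
  have h2 : ε * ε = 1 := by rcases hε with rfl | rfl <;> norm_num
  let D : Rn 3 ≃ₗ[ℝ] Rn 3 :=
    { toFun := fun y => r • ![y 0, ε * y 1, y 2]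
      invFun := fun y => r⁻¹ • ![y 0, ε * y 1, y 2]
      map_add' := fun y z => by
        ext i
        fin_cases i <;> simp <;> ring
      map_smul' := fun c y => by
        ext i
        fin_cases i <;> simp <;> ring
      left_inv := fun y => by
        ext i
        fin_cases i <;> simp <;> field_simp
        rw [pow_two, h2, one_mul]
      right_inv := fun y => by
        ext i
        fin_cases i <;> simp <;> field_simp
        rw [pow_two, h2, one_mul] }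
  exact ⟨D.toContinuousLinearEquiv.trans M, fun y => map_smul M _ _⟩

theorem fha_norm {ε : ℝ} (hε : ε = 1 ∨ ε = -1) (y : Rn 3) : ‖![y 0, ε * y 1, y 2]‖ = ‖y‖ := by
  have h : ∀ i, ‖(![y 0, ε * y 1, y 2] : Rn 3) i‖ = ‖y i‖ := by
    intro i
    rcases hε with rfl | rfl <;> fin_cases i <;> simp
  exact le_antisymm
    ((pi_norm_le_iff_of_nonneg (norm_nonneg _)).2 fun i => (h i).trans_le (norm_le_pi_norm y i))
    ((pi_norm_le_iff_of_nonneg (norm_nonneg _)).2 fun i =>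
      (h i).symm.trans_le (norm_le_pi_norm _ i))

theorem Resc.norm {r : ℝ} (h : Resc M M' r) (hr : 0 < r) (p x : Rn 3) :
    ‖co p M x‖ = r * ‖co p M' x‖ ∧ co p M x 2 = r * co p M' x 2 := by
  obtain ⟨ε, hε, h⟩ := h
  have e : co p M x = r • ![co p M' x 0, ε * co p M' x 1, co p M' x 2] := by
    conv_lhs => rw [← add_co p M' x, h, ← map_smul, co_add]
  rw [e, norm_smul, fha_norm hε, Real.norm_of_nonneg hr.le]
  exact ⟨rfl, rfl⟩

theorem Resc.flat {r : ℝ} (h : Resc M M' r) (hr : 0 < r) (h1 : r ≤ 1) {S : Set (Rn 3)}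
    (hf : ∀ y : Rn 3, ‖y‖ ≤ 1 → (p + M y ∈ S ↔ y 2 = 0)) :
    ∀ y : Rn 3, ‖y‖ ≤ 1 → (p + M' y ∈ S ↔ y 2 = 0) := by
  intro y hy
  obtain ⟨e1, e2⟩ := h.norm hr p (p + M' y)
  rw [co_add] at e1 e2
  rw [← add_co p M (p + M' y), hf _ (by rw [e1]; exact mul_le_one₀ h1 (norm_nonneg _) hy), e2]
  simp [hr.ne']

/-- Small boxes lie in a given neighbourhood. -/
theorem small_box (p : Rn 3) (M : Rn 3 ≃L[ℝ] Rn 3) {U : Set (Rn 3)} (hU : U ∈ 𝓝 p) :
    ∃ r0 : ℝ, 0 < r0 ∧ r0 ≤ 1 ∧ ∀ x, ‖co p M x‖ ≤ r0 → x ∈ U := by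
  have h1 : (fun y => p + M y) ⁻¹' U ∈ 𝓝 (0 : Rn 3) :=
    (fha_tp p M).continuous.continuousAt.preimage_mem_nhds (by simpa using hU)
  obtain ⟨ε, hε, h2⟩ := nhds_basis_closedBall.mem_iff.1 h1
  refine ⟨min ε 1, lt_min hε one_pos, min_le_right _ _, fun x hx => ?_⟩
  simpa using h2 (mem_closedBall_zero_iff.2 (hx.trans (min_le_left _ _)))

end Co

section Hol
variable {ι : Type} {S : Set (Rn 3)} {T : Set ι} {p : ι → Rn 3} {M : ι → Rn 3 ≃L[ℝ] Rn 3} {j : ι}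
  {x : Rn 3}

theorem Hol.mem_iff (h : Hol S T p M) (hj : j ∈ T) (hx : x ∈ bx (p j) (M j)) :
    x ∈ S ↔ x ∈ sq (p j) (M j) := by
  have h1 := h.flat j hj _ hx
  rw [add_co] at h1
  exact h1.trans ⟨fun h => ⟨hx, h⟩, fun h => h.2⟩

theorem Hol.sq_sub (h : Hol S T p M) (hj : j ∈ T) : sq (p j) (M j) ⊆ S := by
  exact fun x hx => (h.mem_iff hj hx.1).2 hx

theorem Hol.dsq_sub (h : Hol S T p M) (hj : j ∈ T) : dsq (p j) (M j) ⊆ hol S T p M := by
  intro x hx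
  refine ⟨h.sq_sub hj ⟨hx.1.le, hx.2⟩, fun i hi => ?_⟩
  rcases eq_or_ne j i with rfl | hne
  · exact hx.1.ge
  · exact (not_le.1 (disjoint_left.1 (h.disj j hj i hi hne) hx.1.le)).le

theorem Hol.inter (h : Hol S T p M) (hj : j ∈ T) :
    hol S T p M ∩ sq (p j) (M j) = dsq (p j) (M j) := by
  ext x
  exact ⟨fun hx => ⟨le_antisymm hx.2.1 (hx.1.2 j hj), hx.2.2⟩,
    fun hx => ⟨h.dsq_sub hj hx, hx.1.le, hx.2⟩⟩

theorem Hol.cover (h : Hol S T p M) (hx : x ∈ S) :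
    x ∈ hol S T p M ∨ ∃ j ∈ T, x ∈ sq (p j) (M j) := by
  by_cases h1 : ∀ j ∈ T, 1 ≤ ‖co (p j) (M j) x‖
  · exact Or.inl ⟨hx, h1⟩
  · push Not at h1
    obtain ⟨j, hj, h1⟩ := h1
    exact Or.inr ⟨j, hj, (h.mem_iff hj h1.le).1 hx⟩

theorem hol_ne (hx : x ∈ hol S T p M) (hj : j ∈ T) : x ≠ p j := by
  rintro rfl
  have := hx.2 j hj
  rw [co_self, norm_zero] at this
  exact absurd this (by norm_num)

theorem fha_poly (hT : T.Finite) (hS : Poly S) : Poly (hol S T p M) := by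
  induction T, hT using Set.Finite.induction_on with
  | empty => simpa [hol] using hS
  | @insert a T _ _ ih =>
    convert poly_le ih ((TP.const 1).sub (tp_co (p a) (M a)).norm_pi) using 1
    ext x
    simp only [hol, mem_ofPred_eq, forall_mem_insert, sub_nonpos]
    tauto

theorem Hol.poly (h : Hol S T p M) (hS : Poly S) : Poly (hol S T p M) := by
  exact fha_poly h.fin hS

theorem Hol.resc (h : Hol S T p M) {M' : ι → Rn 3 ≃L[ℝ] Rn 3} {r : ι → ℝ}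
    (hr : ∀ j ∈ T, 0 < r j ∧ r j ≤ 1 ∧ Resc (M j) (M' j) (r j)) : Hol S T p M' := by
  have hs : ∀ j ∈ T, bx (p j) (M' j) ⊆ bx (p j) (M j) := fun j hj x hx => by
    obtain ⟨h0, h1, h2⟩ := hr j hj
    exact (h2.norm h0 _ _).1.trans_le (mul_le_one₀ h1 (norm_nonneg _) hx)
  exact ⟨h.fin, fun j hj => (hr j hj).2.2.flat (hr j hj).1 (hr j hj).2.1 (h.flat j hj),
    fun i hi j hj hne => (h.disj i hi j hj hne).mono (hs i hi) (hs j hj)⟩

theorem fhb_co (p : Rn 3) (M : Rn 3 ≃L[ℝ] Rn 3) (x v : Rn 3) (s : ℝ) :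
    co p M (x + s • v) = co p M x + s • M.symm v := by
  simp only [co]
  rw [← map_smul, ← map_add]
  congr 1
  abel

theorem fhb_cont (p : Rn 3) (M : Rn 3 ≃L[ℝ] Rn 3) : Continuous (co p M) := by
  unfold co
  fun_prop

theorem fhb_nrm {z : Rn 3} (h : z 2 = 0) : ‖pj3 z‖ = ‖z‖ := by
  have e : ∀ i : Fin 3, ‖z i‖ ≤ ‖pj3 z‖ := fun i => by
    fin_cases i
    · exact norm_le_pi_norm (pj3 z) 0
    · exact norm_le_pi_norm (pj3 z) 1
    · simp [h]
  refine le_antisymm ((pi_norm_le_iff_of_nonneg (norm_nonneg _)).2 fun i => ?_)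
    ((pi_norm_le_iff_of_nonneg (norm_nonneg _)).2 e)
  fin_cases i
  · exact norm_le_pi_norm z 0
  · exact norm_le_pi_norm z 1

theorem fhb_ker {l : Rn 2 →L[ℝ] ℝ} (hl : l ≠ 0) {d w : Rn 2} (hd : d ≠ 0) (h1 : l d = 0)
    (h2 : l w = 0) : ∃ c : ℝ, w = c • d := by
  have ex : ∀ z : Rn 2, l z = z 0 * l ![1, 0] + z 1 * l ![0, 1] := fun z => by
    have : z = z 0 • (![1, 0] : Rn 2) + z 1 • (![0, 1] : Rn 2) := by
      ext i; fin_cases i <;> simp
    conv_lhs => rw [this]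
    rw [map_add, map_smul, map_smul, smul_eq_mul, smul_eq_mul]
  have n0 : ¬ (l ![1, 0] = 0 ∧ l ![0, 1] = 0) := fun k => hl (by
    ext1 z
    rw [ex z, k.1, k.2]; simp)
  rw [ex] at h1 h2
  have det : w 0 * d 1 = w 1 * d 0 := by
    by_contra k
    have k' : w 0 * d 1 - w 1 * d 0 ≠ 0 := sub_ne_zero.2 k
    refine n0 ⟨mul_left_cancel₀ k' ?_, mul_left_cancel₀ k' ?_⟩
    · linear_combination d 1 * h2 - w 1 * h1
    · linear_combination w 0 * h1 - d 0 * h2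
  by_cases e : d 0 = 0
  · have e1 : d 1 ≠ 0 := fun k => hd (by ext i; fin_cases i <;> simp [e, k])
    refine ⟨w 1 / d 1, ?_⟩
    have : w 0 = 0 := by
      rw [e, mul_zero] at det
      exact (mul_eq_zero.1 det).resolve_right e1
    ext i; fin_cases i
    · simp [e, this]
    · simp [e1]
  · refine ⟨w 0 / d 0, ?_⟩
    ext i; fin_cases i
    · simp [e]
    · simp only [Fin.mk_one, Fin.isValue, Pi.smul_apply, smul_eq_mul]
      field_simp
      linarith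

theorem fhb_in {a b : Rn 3} (ha : ‖a‖ = 1) (hb : ‖b‖ < 1) {s : ℝ} (h0 : 0 < s) (h1 : s ≤ 1) :
    ‖a + s • (b - a)‖ < 1 := by
  have e : a + s • (b - a) = (1 - s) • a + s • b := by module
  have := norm_add_le ((1 - s) • a) (s • b)
  rw [norm_smul, norm_smul, Real.norm_of_nonneg (sub_nonneg.2 h1), Real.norm_of_nonneg h0.le,
    ha] at this
  rw [e]
  nlinarith

theorem fhb_out {a b : Rn 3} (ha : ‖a‖ = 1) (hb : ‖b‖ < 1) {s : ℝ} (h0 : s < 0) :
    1 < ‖a + s • (b - a)‖ := by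
  have e : (1 - s) • a = (a + s • (b - a)) + (-s) • b := by module
  have := norm_add_le (a + s • (b - a)) ((-s) • b)
  rw [← e, norm_smul, norm_smul, Real.norm_of_nonneg (by linarith),
    Real.norm_of_nonneg (by linarith), ha] at this
  nlinarith

/-- The chord has a single ray at an end, and this ray runs in the open square. -/
theorem fhb_chord {p x : Rn 3} {M : Rn 3 ≃L[ℝ] Rn 3} {g : Rn 3 → ℝ} {t : ℝ} (hx : x ∈ dsq p M)
    (ht : g x = t) (hc : Chord p M g t) : ∃ v, lk {y | y ∈ sq p M ∧ g y = t} x = {v} ∧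
      ∀ᶠ s in 𝓝[>] (0 : ℝ), ‖co p M (x + s • v)‖ < 1 := by
  obtain ⟨l, β, hl, hg, o, ho, hot⟩ := hc
  have gv : ∀ y ∈ sq p M, g y = l (pj3 (co p M y)) + β := fun y hy => by
    have := hg (pj3 (co p M y)) (by rw [fhb_nrm hy.2]; exact hy.1)
    rw [← hy.2, mk3_pj3, add_co] at this
    exact this
  set a := co p M x with ha
  have a1 : ‖a‖ = 1 := hx.1
  have a2 : a 2 = 0 := hx.2
  have la : l (pj3 a) + β = t := ht ▸ (gv x ⟨a1.le, a2⟩).symm
  set b := mk3 o 0 with hb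
  have b1 : ‖b‖ < 1 := by rw [← fhb_nrm (z := b) rfl, hb, pj3_mk3]; exact ho
  have pl : ∀ (z w : Rn 3) (s : ℝ), pj3 (z + s • w) = pj3 z + s • pj3 w := fun z w s => by
    ext i; fin_cases i <;> simp
  have pd : pj3 (b - a) = o - pj3 a := by ext i; fin_cases i <;> simp [hb]
  have d2 : (b - a) 2 = 0 := by simp [hb, a2]
  have dn : b - a ≠ 0 := fun k => by
    rw [sub_eq_zero.1 k] at b1
    exact b1.ne a1
  have ld : l (pj3 (b - a)) = 0 := by rw [pd, map_sub]; linarith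
  have Mn : M (b - a) ≠ 0 := fun k => dn (M.injective (by rw [k, map_zero]))
  have np : 0 < ‖M (b - a)‖⁻¹ := inv_pos.2 (norm_pos_iff.2 Mn)
  have ev : ∀ᶠ s in 𝓝[>] (0 : ℝ), 0 < s * ‖M (b - a)‖⁻¹ ∧ s * ‖M (b - a)‖⁻¹ ≤ 1 := by
    filter_upwards [Ioc_mem_nhdsGT (norm_pos_iff.2 Mn)] with s hs
    exact ⟨mul_pos hs.1 np, by rw [← div_eq_mul_inv, div_le_one (norm_pos_iff.2 Mn)]; exact hs.2⟩
  have cv : ∀ s : ℝ, co p M (x + s • ‖M (b - a)‖⁻¹ • M (b - a)) =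
      a + (s * ‖M (b - a)‖⁻¹) • (b - a) := fun s => by
    rw [fhb_co, map_smul, M.symm_apply_apply, smul_smul]
  refine ⟨‖M (b - a)‖⁻¹ • M (b - a), Subset.antisymm (fun v hv => ?_) ?_, ?_⟩
  · obtain ⟨s, ⟨h1, h2⟩, hs⟩ := ((YPLk_tc.1 hv.2).and self_mem_nhdsWithin).exists
    have hs : 0 < s := hs
    have k1 := h1.1
    have k2 := h1.2
    have k3 := gv _ h1
    rw [fhb_co, ← ha] at k1 k2 k3
    have w2 : M.symm v 2 = 0 := by
      rw [Pi.add_apply, Pi.smul_apply, a2, zero_add, smul_eq_mul] at k2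
      exact (mul_eq_zero.1 k2).resolve_left hs.ne'
    have lw : l (pj3 (M.symm v)) = 0 := by
      rw [pl, map_add, map_smul, smul_eq_mul, h2] at k3
      exact (mul_eq_zero.1 (show s * l (pj3 (M.symm v)) = 0 by linarith)).resolve_left hs.ne'
    have pn : pj3 (b - a) ≠ 0 := fun k => dn (by
      rw [← norm_eq_zero, ← fhb_nrm d2, k, norm_zero])
    obtain ⟨c, hc⟩ := fhb_ker hl pn ld lw
    have e : M.symm v = c • (b - a) := by
      ext i; fin_cases i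
      · exact congrFun hc 0
      · exact congrFun hc 1
      · show M.symm v 2 = c * (b - a) 2
        rw [w2, d2, mul_zero]
    have ev' : v = c • M (b - a) := by rw [← map_smul, ← e, M.apply_symm_apply]
    have c0 : 0 ≤ c := by
      by_contra k
      rw [e, smul_smul] at k1
      exact (fhb_out a1 b1 (mul_neg_of_pos_of_neg hs (not_le.1 k))).not_ge k1
    have n1 := hv.1
    rw [ev', norm_smul, Real.norm_of_nonneg c0] at n1
    rw [mem_singleton_iff, ev', eq_inv_of_mul_eq_one_left n1]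
  · rintro _ rfl
    refine ⟨norm_smul_inv_norm Mn, YPLk_tc.2 (ev.mono fun s hs => ?_)⟩
    have m : x + s • ‖M (b - a)‖⁻¹ • M (b - a) ∈ sq p M := by
      refine ⟨?_, ?_⟩ <;> rw [cv]
      · exact (fhb_in a1 b1 hs.1 hs.2).le
      · rw [Pi.add_apply, Pi.smul_apply, a2, d2, smul_zero, add_zero]
    refine ⟨m, ?_⟩
    rw [gv _ m, cv, pl, map_add, map_smul, ld, smul_zero, add_zero, la]
  · exact ev.mono fun s hs => by rw [cv]; exact fhb_in a1 b1 hs.1 hs.2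

theorem fhb_far (h : Hol S T p M) {P : ι → Prop}
    (hx : ∀ i ∈ T, P i → 1 < ‖co (p i) (M i) x‖) :
    ∀ᶠ y in 𝓝 x, ∀ i ∈ T, P i → 1 < ‖co (p i) (M i) y‖ :=
  (eventually_all_finite h.fin).2 fun i hi => by
    by_cases e : P i
    · exact ((fhb_cont (p i) (M i)).norm.continuousAt.eventually
        (lt_mem_nhds (hx i hi e))).mono fun y hy _ => hy
    · exact .of_forall fun _ k => (e k).elim

/-- At an end of a chord exactly one ray of the level set leaves the square. The level set has two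
rays at `q` (`Rg.two`); it is the union of its parts in the holed surface and in the square
(`lk_union` near `q`, `lk_congr`); the part in the square is the chord, which has the single ray
towards the interior point `o`, and the points of this ray are in the open square, so the two links
are disjoint. -/
theorem hol_lk_end (h : Hol S T p M) (hS : Poly S) {g : Rn 3 → ℝ} (hg : TP g) {t : ℝ} (hj : j ∈ T)
    (hx : x ∈ dsq (p j) (M j)) (ht : g x = t) (hr : Rg S g x) (hc : Chord (p j) (M j) g t) :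
    (lk {y | y ∈ hol S T p M ∧ g y = t} x).ncard = 1 := by
  obtain ⟨v, h1, h2⟩ := fhb_chord hx ht hc
  have far := fhb_far (x := x) h (P := fun i => i ≠ j) fun i hi e => not_le.1 fun k =>
    disjoint_left.1 (h.disj i hi j hj e) k hx.1.le
  have e : lk {y ∈ S | g y = t} x = lk ({y | y ∈ hol S T p M ∧ g y = t} ∪
      {y | y ∈ sq (p j) (M j) ∧ g y = t}) x := by
    refine lk_congr (far.mono fun y hy => ⟨fun k => ?_, fun k => ?_⟩)
    · by_cases c : 1 ≤ ‖co (p j) (M j) y‖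
      · refine Or.inl ⟨⟨k.1, fun i hi => ?_⟩, k.2⟩
        by_cases e : i = j
        · exact e ▸ c
        · exact (hy i hi e).le
      · exact Or.inr ⟨(h.mem_iff hj (not_le.1 c).le).1 k.1, k.2⟩
    · exact k.elim (fun k => ⟨k.1.1, k.2⟩) fun k => ⟨h.sq_sub hj k.1, k.2⟩
  have two := hr.two
  rw [ht, e, lk_union (poly_eq (h.poly hS) hg t) (poly_eq (poly_sq _ _) hg t), h1] at two
  have nv : v ∉ lk {y | y ∈ hol S T p M ∧ g y = t} x := fun k => by
    obtain ⟨s, k1, k2⟩ := ((YPLk_tc.1 k.2).and h2).exists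
    exact (k1.1.2 j hj).not_gt k2
  have fin := (finite_of_ncard_ne_zero (two ▸ two_ne_zero)).subset subset_union_left
  rw [union_singleton, ncard_insert_of_notMem nv fin] at two
  omega

/-- A piece of the level set with two ends contains an arc joining them (`oneman`, `lk_piece`,
`tcrc_lk`, `tarc_lk`). -/
theorem hol_arc (h : Hol S T p M) (hS : Poly S) {g : Rn 3 → ℝ} (hg : TP g) {t : ℝ}
    (hr : ∀ x ∈ S, g x = t → Rg S g x) {Z : Set (Rn 3)} (hZ : Poly Z)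
    (hl : ∀ x ∈ Z, ∀ᶠ y in 𝓝 x, y ∈ Z ↔ (y ∈ hol S T p M ∧ g y = t)) {q q' : Rn 3} (hq : q ∈ Z)
    (hq' : q' ∈ Z) (hne : q ≠ q')
    (hb : ∀ x ∈ Z, ∀ j ∈ T, x ∈ dsq (p j) (M j) → x = q ∨ x = q')
    (he : ∀ x, x = q ∨ x = q' → ∃ j ∈ T, x ∈ dsq (p j) (M j) ∧ Chord (p j) (M j) g t) :
    ∃ A, A ⊆ Z ∧ Arc A q q' := by
  have mem : ∀ x ∈ Z, x ∈ hol S T p M ∧ g x = t := fun x hx => (hl x hx).self_of_nhds.1 hx
  have one : ∀ x ∈ Z, x = q ∨ x = q' → (lk Z x).ncard = 1 := fun x hx e => by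
    obtain ⟨j, hj, k1, k2⟩ := he x e
    rw [lk_congr (Y := {y | y ∈ hol S T p M ∧ g y = t}) (hl x hx)]
    exact hol_lk_end h hS hg hj k1 (mem x hx).2 (hr x (mem x hx).1.1 (mem x hx).2) k2
  have two : ∀ x ∈ Z, ¬ (x = q ∨ x = q') → (lk Z x).ncard = 2 := fun x hx e => by
    have far := fhb_far (x := x) h (P := fun _ => True) fun i hi _ =>
      ((mem x hx).1.2 i hi).lt_of_ne fun k => e (hb x hx i hi
        ⟨k.symm, ((h.mem_iff hi k.symm.le).1 (mem x hx).1.1).2⟩)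
    have k := (hr x (mem x hx).1.1 (mem x hx).2).two
    rw [(mem x hx).2] at k
    rw [← k]
    congr 1
    refine lk_congr ?_
    filter_upwards [hl x hx, far] with y h1 h2
    exact h1.trans ⟨fun c => ⟨c.1.1, c.2⟩, fun c => ⟨⟨c.1, fun i hi => (h2 i hi trivial).le⟩, c.2⟩⟩
  obtain ⟨𝒞, c1, c2, c3, c4⟩ := oneman hZ fun x hx =>
    (em (x = q ∨ x = q')).imp (one x hx) (two x hx)
  have pc : ∀ C ∈ 𝒞, ∀ x ∈ C, lk Z x = lk C x := fun C hC x hx =>
    c2 ▸ lk_piece c1 (fun C hC => (POne_poly (c4 C hC)).1.isClosed) c3 hC hx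
  obtain ⟨C, hC, hqC⟩ : q ∈ ⋃₀ 𝒞 := c2.symm ▸ hq
  have sub : C ⊆ Z := c2 ▸ subset_sUnion_of_mem hC
  rcases c4 C hC with k | ⟨a, b, k⟩
  · have e1 := one q hq (Or.inl rfl)
    rw [pc C hC q hqC, tcrc_lk k.poly k.tcrc hqC] at e1
    omega
  · have en : ∀ x ∈ C, x = a ∨ x = b → x = q ∨ x = q' := fun x hx e => by
      by_contra c
      have e1 := two x (sub hx) c
      rw [pc C hC x hx, (tarc_lk k.poly k.tarc hx).1 e] at e1
      omega
    have nab := k.tarc.ne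
    refine ⟨C, sub, ?_⟩
    rcases en a k.tarc.left (Or.inl rfl) with rfl | rfl <;>
      rcases en b k.tarc.right (Or.inr rfl) with rfl | rfl
    · exact (nab rfl).elim
    · exact k
    · exact k.symm
    · exact (nab rfl).elim

/-- Normal form with prescribed values on the squares: `tp_glue_fin` for the maps `a j`,
`htp_glue` for the homotopies, `norm_tp`, and `tp_glue` of the result on the holed surface with the
glued map on the squares. -/
theorem norm_holes (h : Hol S T p M) (hS : Poly S) {m : ℕ} {O : Set (Rn m)} (hO : IsOpen O)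
    {u : Rn 3 → Rn m} (hu : ContinuousOn u (hol S T p M)) (huO : MapsTo u (hol S T p M) O)
    {a : ι → Rn 3 → Rn m} (ha : ∀ j ∈ T, TP (a j)) {k : ι → Rn 3 × ℝ → Rn m}
    (hk : ∀ j ∈ T, IsH (dsq (p j) (M j)) O u (a j) (k j)) :
    ∃ (u' : Rn 3 → Rn m) (H : Rn 3 × ℝ → Rn m), TP u' ∧
      (∀ j ∈ T, EqOn u' (a j) (sq (p j) (M j))) ∧ IsH (hol S T p M) O u u' H ∧
      ∀ j ∈ T, ∀ x ∈ dsq (p j) (M j), ∀ s ∈ Icc (0 : ℝ) 1, H (x, s) = k j (x, s) := by
  have ds : ∀ j, dsq (p j) (M j) ⊆ sq (p j) (M j) := fun j x hx => ⟨hx.1.le, hx.2⟩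
  have un : ∀ i ∈ T, ∀ j ∈ T, ∀ x ∈ sq (p i) (M i) ∩ sq (p j) (M j), i = j :=
    fun i hi j hj x hx => by_contra fun e => disjoint_left.1 (h.disj i hi j hj e) hx.1.1 hx.2.1
  obtain ⟨g, g1, g2⟩ := tp_glue_fin h.fin (X := fun j => sq (p j) (M j))
    (fun j _ => poly_sq _ _) ha fun i hi j hj x hx => by rw [un i hi j hj x hx]
  have cl : ∀ j ∈ T, IsClosed (dsq (p j) (M j)) := fun j _ => (poly_dsq _ _).1.isClosed
  obtain ⟨G, hG, eG⟩ := htp_glue h.fin cl (w := g)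
    (fun j hj => ⟨(hk j hj).cont, (hk j hj).zero,
      fun x hx => ((hk j hj).one x hx).trans (g2 j hj (ds j hx)).symm, (hk j hj).mem⟩)
    fun i hi j hj x hx s _ => by rw [un i hi j hj x ⟨ds i hx.1, ds j hx.2⟩]
  obtain ⟨w, H, w1, w2, w3, w4⟩ := norm_tp (h.poly hS).1 (h.fin.isClosed_biUnion cl)
    (iUnion₂_subset fun j hj => h.dsq_sub hj) hO hu huO g1 hG
  obtain ⟨u', u1, u2, u3⟩ := tp_glue (h.poly hS) (Poly.biUnion h.fin fun j _ => poly_sq (p j) (M j))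
    w1 g1 fun x hx => by
      obtain ⟨j, hj, hx'⟩ := mem_iUnion₂.1 hx.2
      exact w2 (mem_biUnion hj ((h.inter hj).le ⟨hx.1, hx'⟩))
  exact ⟨u', H, u1, fun j hj x hx => (u3 (mem_biUnion hj hx)).trans (g2 j hj hx),
    ⟨w3.cont, w3.zero, fun x hx => (w3.one x hx).trans (u2 hx).symm, w3.mem⟩,
    fun j hj x hx s hs => (w4 x (mem_biUnion hj hx) s hs).trans (eG j hj x hx s hs)⟩

end Hol

end BEp
end
end

-- merged part: Pool.Agent.Work.MP_f0515e_an.D3.FBd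
section
/-! Elementary consequences of the bead conditions. -/

open Set Metric Filter Topology Function BEv
open scoped NNReal

noncomputable section
namespace BEp

variable {Ω : Set (Rn 3)} {K : Kx Ω} {f g : Rn 3 → Rn 3} {b : BdD} {σ σ' : Set (Rn 3)}
  {v w x : Rn 3}

theorem Bead.at (hb : Bead K f b) (hv : K.Vx v) : Bead1 K f b v := hb.one v hv.1 hv.2

theorem Bead.ball (hb : Bead K f b) (hv : K.Vx v) : Ball (b.B v) (b.S v) :=
  ⟨_, (hb.at hv).lh, rfl, rfl⟩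

theorem BdD.S_sub (b : BdD) (v : Rn 3) : b.S v ⊆ b.B v := image_mono sphere_subset_closedBall

theorem Bead.meetS (hb : Bead K f b) (hv : K.Vx v) (hw : K.Vx w) (hne : v ≠ w)
    (h1 : x ∈ b.B v) (h2 : x ∈ b.B w) : x ∈ b.S v := by
  obtain ⟨s, k, -, y, hy, rfl⟩ := hb.meet v hv.1 w hw.1 hv.2 hw.2 hne x ⟨h1, h2⟩
  exact ((hb.at hv).flt s k y hy.1).2 hy.2

theorem Bead.p_mem (hb : Bead K f b) (h : K.Fl v σ) : b.p f σ ∈ b.S v := by
  simpa using ((hb.at h.vx).flt σ h 0 (by simp)).2 rfl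

/-- A leg meets the sphere only in its mark. -/
theorem Bead.leg (hb : Bead K f b) (h : K.Fl v σ) (hx : x ∈ b.Leg f v σ) :
    x ∈ b.B v ∧ (x ∈ b.S v → x = b.p f σ) := by
  obtain ⟨q, hq, e⟩ := hb.p_mem h
  have hi := (hb.at h.vx).lh.1.1
  obtain ⟨z, hz, rfl⟩ := hx
  rw [← e, leftInverse_invFun hi q, segment_eq_image'] at hz
  obtain ⟨t, ht, rfl⟩ := hz
  have hn : ‖(0 : Rn 3) + t • (q - 0)‖ = t := by
    rw [zero_add, sub_zero, norm_smul, mem_sphere_zero_iff_norm.1 hq, mul_one,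
      Real.norm_of_nonneg ht.1]
  refine ⟨mem_image_of_mem _ (mem_closedBall_zero_iff.2 (hn.trans_le ht.2)), ?_⟩
  rintro ⟨z, hz, e'⟩
  rw [hi e', mem_sphere_zero_iff_norm, hn] at hz
  rw [← e, hz]
  simp

theorem Bead.mark_fl (hb : Bead K f b) (hv : K.Vx v) (hσ : σ ∈ K.cel 1) (h : b.p f σ ∈ b.B v) :
    K.Fl v σ := by
  have hm := hb.mk' σ hσ
  obtain ⟨s, k, hs⟩ := (hb.at hv).star _ (Kx.cl_sub_sk hσ.1 hσ.2.le (subset_closure hm)) h
  rwa [k_mark k (hb.mk' s k.cel) hσ hm hs]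

theorem Bead.p_leg (hb : Bead K f b) (h : K.Fl v σ) : b.p f σ ∈ b.Leg f v σ := by
  exact ⟨_, right_mem_segment _ _ _, rightInverse_invFun (hb.at h.vx).lh.1.2 _⟩

/-- The image of the skeleton is the union of the legs. -/
theorem Bead.legs (hΩ : IsOpen Ω) (hb : Bead K f b)
    (hg : ∀ v σ, K.Fl v σ → g '' segment ℝ v (b.m σ) = b.Leg f v σ) :
    x ∈ g '' K.sk 1 ↔ ∃ v σ, K.Fl v σ ∧ x ∈ b.Leg f v σ := by
  constructor
  · rintro ⟨y, hy, rfl⟩
    obtain ⟨v, σ, k, hs⟩ := k_sk1 hΩ hb.mk' hy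
    exact ⟨v, σ, k, hg v σ k ▸ mem_image_of_mem g hs⟩
  · rintro ⟨v, σ, k, hs⟩
    rw [← hg v σ k] at hs
    exact image_mono (k_half_sk k (hb.mk' σ k.cel)) hs

theorem Bead.leg_at (hΩ : IsOpen Ω) (hb : Bead K f b)
    (hg : ∀ v σ, K.Fl v σ → g '' segment ℝ v (b.m σ) = b.Leg f v σ) (hv : K.Vx v)
    (h1 : x ∈ b.B v) (h2 : x ∈ g '' K.sk 1) : ∃ σ, K.Fl v σ ∧ x ∈ b.Leg f v σ := by
  obtain ⟨w, σ, k, hs⟩ := (hb.legs hΩ hg).1 h2
  by_cases hne : w = v
  · exact ⟨σ, hne ▸ k, hne ▸ hs⟩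
  · obtain ⟨k1, k2⟩ := hb.leg k hs
    obtain rfl := k2 (hb.meetS k.vx hv hne k1 h1)
    have k' := hb.mark_fl hv k.cel h1
    exact ⟨σ, k', hb.p_leg k'⟩

/-- The legs are compact and locally finite in the open set `f '' Ω` (`Bead.lf`, `k_fl_fin`). -/
theorem Bead.opn (hΩ : IsOpen Ω) (hf : ContinuousOn f Ω) (hi : InjOn f Ω) (hb : Bead K f b)
    (hg : ∀ v σ, K.Fl v σ → g '' segment ℝ v (b.m σ) = b.Leg f v σ) :
    IsOpen (f '' Ω \ g '' K.sk 1) := by
  refine isOpen_iff_mem_nhds.2 fun x hx => ?_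
  obtain ⟨r, r0, hr⟩ := nhds_basis_closedBall.mem_iff.1
    ((emb_open hf hi hΩ Subset.rfl).mem_nhds hx.1)
  have hc : IsClosed (⋃ v ∈ {v | v ∈ Ω ∧ K.cell v = {v} ∧ (b.B v ∩ closedBall x r).Nonempty},
      ⋃ σ ∈ {σ | K.Fl v σ}, b.Leg f v σ) := by
    refine (hb.lf _ (isCompact_closedBall x r) hr).isClosed_biUnion fun v hv =>
      (k_fl_fin hΩ K v).isClosed_biUnion fun σ hσ => IsCompact.isClosed ?_
    refine IsCompact.image ?_ (hb.one v hv.1 hv.2.1).lh.2.1.continuous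
    rw [segment_eq_image']
    exact isCompact_Icc.image (by fun_prop)
  refine mem_of_superset ((isOpen_ball.sdiff hc).mem_nhds ⟨mem_ball_self r0, fun h => hx.2 ?_⟩)
    fun y hy => ⟨hr (ball_subset_closedBall hy.1), fun h => hy.2 ?_⟩
  · simp only [mem_iUnion] at h
    obtain ⟨v, -, σ, k, hs⟩ := h
    exact (hb.legs hΩ hg).2 ⟨v, σ, k, hs⟩
  · obtain ⟨v, σ, k, hs⟩ := (hb.legs hΩ hg).1 h
    exact mem_biUnion (x := v) ⟨k.1, k.2.1, y, (hb.leg k hs).1, ball_subset_closedBall hy.1⟩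
      (mem_biUnion (x := σ) k hs)

/-- A point of a bead whose preimage is on a ray of the star comes from the half edge. -/
theorem Bead.on_ray (hb : Bead K f b) (h : K.Fl v σ) (hx : x ∈ b.B v) {s : ℝ} (hs : 0 ≤ s)
    (e : invFunOn f Ω x - v = s • (b.m σ - v)) : invFunOn f Ω x ∈ segment ℝ v (b.m σ) := by
  have hB := hb.at h.vx
  have h1 := hB.sub hx
  have e' : invFunOn f Ω x = v + s • (b.m σ - v) := by rw [← e]; abel
  have h2 := hB.ray σ h s hs (e' ▸ invFunOn_mem h1) (by rw [← e', invFunOn_eq h1]; exact hx)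
  rw [segment_eq_image']
  exact ⟨s, ⟨hs, h2⟩, e'.symm⟩

section Edg
variable {η : Set (Rn 3) → ℝ} {M' N : Set (Rn 3) → Rn 3 ≃L[ℝ] Rn 3}
  {h : Set (Rn 3) → Rn 3 × ℝ → Rn 3}

theorem box_disj (hi : InjOn f Ω) (hb : Bead K f b) (R : ∀ σ ∈ K.cel 1, RadK K (b.m σ) σ (η σ))
    (E : ∀ σ ∈ K.cel 1, Edg K f b σ (η σ) (M' σ) (N σ) (h σ)) (hσ : σ ∈ K.cel 1)
    (hσ' : σ' ∈ K.cel 1) (hne : σ ≠ σ') :
    Disjoint (bx (b.p f σ) (M' σ)) (bx (b.p f σ') (M' σ')) := by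
  have hs : ∀ τ ∈ K.cel 1, ball (b.m τ) (η τ) ⊆ Ω := fun τ hτ =>
    (ball_subset_ball (by linarith [(R τ hτ).pos])).trans (R τ hτ).sub
  refine Set.disjoint_left.2 fun x h1 h2 => ?_
  obtain ⟨y, hy, rfl⟩ := (E σ hσ).box h1
  obtain ⟨z, hz, e⟩ := (E σ' hσ').box h2
  rw [hi (hs _ hσ' hz) (hs _ hσ hy) e] at hz
  exact Set.disjoint_left.1
    ((R σ hσ).disj (R σ' hσ') hσ hσ' (hb.mk' σ hσ) (hb.mk' σ' hσ') hne) hy hz

theorem hol_at (hΩ : IsOpen Ω) (hi : InjOn f Ω) (hb : Bead K f b)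
    (R : ∀ σ ∈ K.cel 1, RadK K (b.m σ) σ (η σ))
    (E : ∀ σ ∈ K.cel 1, Edg K f b σ (η σ) (M' σ) (N σ) (h σ)) (v : Rn 3) :
    Hol (b.S v) {σ | K.Fl v σ} (b.p f) M' := by
  exact ⟨k_fl_fin hΩ K v, fun j hj => (E j hj.cel).flt v hj,
    fun i hi' j hj hne => box_disj hi hb R E hi'.cel hj.cel hne⟩

/-- The holed sphere comes from the complement of the skeleton (`Bead1.mark`, `hol_ne`). -/
theorem hov_sub (hb : Bead K f b) (hv : K.Vx v) (hx : x ∈ hov K f b M' v) :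
    x ∈ f '' Ω ∧ invFunOn f Ω x ∈ Ω \ K.sk 1 := by
  have hB := hb.at hv
  have h1 := hB.sub (b.S_sub v hx.1)
  refine ⟨h1, invFunOn_mem h1, fun h => ?_⟩
  obtain ⟨s, k, e⟩ := hB.mark _ h (by rw [invFunOn_eq h1]; exact hx.1)
  refine hol_ne hx (j := s) k ?_
  rw [BdD.p, ← e, invFunOn_eq h1]

end Edg

end BEp
end
end

-- merged part: Pool.Agent.Work.MP_f0515e_an.D3.FLink1
section
/-! The point of a standard meridian in a face pushed off itself; small translations. -/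

open Set Metric Filter Topology Function BEv
open scoped NNReal

noncomputable section
namespace BEp

variable {Ω : Set (Rn 3)} {K : Kx Ω} {f : Rn 3 → Rn 3} {b : BdD} {σ c : Set (Rn 3)} {η : ℝ}
  {M' N : Rn 3 ≃L[ℝ] Rn 3} {h : Rn 3 × ℝ → Rn 3} {l : Rn 3 →L[ℝ] ℝ} {n o : Rn 3}

theorem fla_lt {a e : Rn 2} (ha : ‖a‖ < 1) {s s' : ℝ} (h0 : 0 ≤ s') (h1 : s' < s)
    (h : ‖a + s • e‖ = 1) : ‖a + s' • e‖ < 1 := by
  have hs : 0 < s := h0.trans_lt h1
  have hr : s' / s < 1 := (div_lt_one hs).2 h1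
  have hq : 0 ≤ s' / s := div_nonneg h0 hs.le
  have e1 : a + s' • e = (1 - s' / s) • a + (s' / s) • (a + s • e) := by
    rw [smul_add, smul_smul, div_mul_cancel₀ _ hs.ne', sub_smul, one_smul]
    abel
  have e2 := norm_add_le ((1 - s' / s) • a) ((s' / s) • (a + s • e))
  rw [norm_smul, norm_smul, h, Real.norm_of_nonneg (sub_nonneg.2 hr.le),
    Real.norm_of_nonneg hq, ← e1] at e2
  nlinarith

/-- A ray from an inner point of the square leaves it exactly once. -/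
theorem ray_exit {a e : Rn 2} (ha : ‖a‖ < 1) (he : e ≠ 0) :
    ∃ s : ℝ, 0 ≤ s ∧ ‖a + s • e‖ = 1 ∧ ∀ s' : ℝ, 0 ≤ s' → ‖a + s' • e‖ = 1 → s' = s := by
  have h0 : 0 < ‖e‖ := norm_pos_iff.2 he
  have hc : Continuous fun s : ℝ => ‖a + s • e‖ := by fun_prop
  have h1 : 1 ≤ ‖a + (2 / ‖e‖) • e‖ := by
    have k := norm_sub_le (a + (2 / ‖e‖) • e) a
    rw [add_sub_cancel_left, norm_smul, Real.norm_of_nonneg (by positivity),
      div_mul_cancel₀ _ h0.ne'] at k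
    linarith
  obtain ⟨s, hs, e1⟩ := intermediate_value_Icc (a := 0) (b := 2 / ‖e‖) (by positivity)
    hc.continuousOn (show (1 : ℝ) ∈ _ from ⟨by simpa using ha.le, h1⟩)
  refine ⟨s, hs.1, e1, fun s' h' e' => le_antisymm (not_lt.1 fun k => ?_) (not_lt.1 fun k => ?_)⟩
  · exact (fla_lt ha hs.1 k e').ne e1
  · exact (fla_lt ha h' k e1).ne e'

theorem fla_key {d : Rn 3} {κ : ℝ} (hκ : κ ≠ 0) (hN : N (Pi.single 2 1) = κ • d) (z : Rn 3) :
    (∃ a : ℝ, N z = a • d) ↔ pj3 z = 0 := by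
  constructor
  · rintro ⟨a, ha⟩
    have e : z = (a / κ) • (Pi.single 2 1 : Rn 3) := N.injective (by
      rw [map_smul, hN, smul_smul, div_mul_cancel₀ _ hκ, ha])
    rw [e]
    ext i
    fin_cases i <;> simp
  · intro hz
    have e : z = z 2 • (Pi.single 2 1 : Rn 3) := by
      ext i
      fin_cases i
      · simpa using congrFun hz 0
      · simpa using congrFun hz 1
      · simp
    exact ⟨z 2 * κ, by rw [mul_smul, ← hN, ← map_smul, ← e]⟩

theorem fla_clm (l : Rn 3 →L[ℝ] ℝ) (N : Rn 3 ≃L[ℝ] Rn 3) :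
    ∃ l' : Rn 2 →L[ℝ] ℝ, ∀ y, l' y = l (N (mk3 y 0)) :=
  ⟨LinearMap.toContinuousLinearMap
    { toFun := fun y => l (N (mk3 y 0))
      map_add' := fun y z => by rw [← map_add, ← map_add, ← mk3_add, add_zero]
      map_smul' := fun a y => by
        rw [RingHom.id_apply, ← map_smul, ← map_smul, ← mk3_smul, mul_zero] }, fun _ => rfl⟩

/-- Take a flag `(v, σ)` (`k_flags`). With `y = co x`, `RadK.half` says that
`m + N y - t n ∈ closure c` iff `y - t N⁻¹ n - a' N⁻¹ (o - m)` is a multiple of the third basis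
vector (`Edg.ax`) for some `a' ≥ 0`, that is `pj3 y = a + a' e` with `a = t pj3 (N⁻¹ n)` and
`e = pj3 (N⁻¹ (o - m)) ≠ 0` (`k_indep`); `ray_exit`. The point `a` is the inner point of the chord;
`l (m - v) = 0 = l (o - m)` (`sub_mem_span`). -/
theorem link_q (hc : c ∈ K.cel 2) (ho : o ∈ c) (hl : ∀ w, l w = 0 ↔ w ∈ vectorSpan ℝ c)
    (hn : l n = 1) (hσ : σ ∈ K.cel 1) (hs : σ ⊆ closure c) (hm : b.m σ ∈ σ)
    (R : RadK K (b.m σ) σ η) (E : Edg K f b σ η M' N h) :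
    ∀ᶠ t in 𝓝[>] (0 : ℝ), (∃ q ∈ dsq (b.p f σ) M', ∀ x ∈ dsq (b.p f σ) M',
      (b.m σ + N (co (b.p f σ) M' x) - t • n ∈ closure c ↔ x = q)) ∧
      ∀ g : Rn 3 → ℝ, (∀ x ∈ sq (b.p f σ) M', g x = l (b.m σ + N (co (b.p f σ) M' x))) →
        Chord (b.p f σ) M' g (l o + t) := by
  obtain ⟨v, w, -, -, hv⟩ := k_flags hσ
  replace hv : K.Fl v σ := (hv v).2 (Or.inl rfl)
  obtain ⟨κ, hκ, hN⟩ := E.ax v hv
  have hmc := hs hm
  have hvc : v ∈ closure c := closure_minimal hs isClosed_closure hv.2.2.2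
  have l1 : l (b.m σ - v) = 0 := (hl _).2 (Kx.sub_mem_span hvc hmc)
  have l2 : l (o - b.m σ) = 0 := (hl _).2 (Kx.sub_mem_span hmc (subset_closure ho))
  have he : pj3 (N.symm (o - b.m σ)) ≠ 0 := fun k => by
    obtain ⟨a, ha⟩ := (fla_key hκ hN _).2 k
    rw [N.apply_symm_apply] at ha
    exact one_ne_zero (k_indep hc ⟨hv, hs⟩ hm ho (a := -a) (a' := 1)
      (by rw [one_smul, ha, neg_smul, neg_add_cancel])).2
  obtain ⟨l', hl'⟩ := fla_clm l N
  have l3 : l' (pj3 (N.symm n)) = 1 := by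
    obtain ⟨a, ha⟩ := (fla_key hκ hN (N.symm n - mk3 (pj3 (N.symm n)) 0)).2
      (by rw [pj3_sub, pj3_mk3, sub_self])
    have k := congrArg l ha
    rw [map_sub, map_sub, N.apply_symm_apply, map_smul, l1, smul_zero, hn, ← hl'] at k
    linarith
  have c1 : Continuous fun t : ℝ => ‖t • n‖ := by fun_prop
  have c2 : Continuous fun t : ℝ => ‖t • pj3 (N.symm n)‖ := by fun_prop
  have t1 : ∀ᶠ t in 𝓝 (0 : ℝ), ‖t • n‖ < η :=
    c1.continuousAt.eventually_lt continuousAt_const (by simpa using R.pos)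
  have t2 : ∀ᶠ t in 𝓝 (0 : ℝ), ‖t • pj3 (N.symm n)‖ < 1 :=
    c2.continuousAt.eventually_lt continuousAt_const (by simp)
  filter_upwards [mem_nhdsWithin_of_mem_nhds t1, mem_nhdsWithin_of_mem_nhds t2] with t t1 t2
  refine ⟨?_, fun g hg => ⟨l', l (b.m σ), fun k => ?_, fun y hy => ?_, _, t2, ?_⟩⟩
  · obtain ⟨s, hs0, hs1, hs2⟩ := ray_exit t2 he
    refine ⟨_, mem_dsq.2 ⟨_, mem_sphere_zero_iff_norm.2 hs1, rfl⟩, fun x hx => ?_⟩
    have hb : b.m σ + N (co (b.p f σ) M' x) - t • n ∈ ball (b.m σ) (2 * η) := by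
      rw [mem_ball_iff_norm, add_sub_assoc, add_sub_cancel_left]
      linarith [norm_sub_le (N (co (b.p f σ) M' x)) (t • n), E.small _ hx.1.le]
    have key (a' : ℝ) : (∃ a : ℝ, b.m σ + N (co (b.p f σ) M' x) - t • n =
        b.m σ + a • (b.m σ - v) + a' • (o - b.m σ)) ↔
        pj3 (co (b.p f σ) M' x) = t • pj3 (N.symm n) + a' • pj3 (N.symm (o - b.m σ)) := by
      rw [← sub_eq_zero, ← pj3_smul, ← pj3_smul, ← pj3_add, ← pj3_sub, ← fla_key hκ hN]
      refine exists_congr fun a => ?_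
      rw [map_sub, map_add, map_smul, map_smul, N.apply_symm_apply, N.apply_symm_apply]
      constructor <;> intro k <;> linear_combination (exp := 1) k
    rw [R.half c hc hs o ho v hv _ hb]
    constructor
    · rintro ⟨a, a', h0, k⟩
      have k1 := (key a').1 ⟨a, k⟩
      have k2 := mem_sphere_zero_iff_norm.1 (dsq_pj hx).1
      rw [k1] at k2
      rw [← hs2 a' h0 k2, ← k1, (dsq_pj hx).2]
    · intro k
      obtain ⟨a, ha⟩ := (key s).2 (by rw [k, co_add, pj3_mk3])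
      exact ⟨a, s, hs0, ha⟩
  · rw [k] at l3
    exact zero_ne_one l3
  · rw [hg _ ⟨by simpa [norm_mk3] using hy, by simp⟩, co_add, map_add, hl', add_comm]
  · rw [map_sub] at l2
    rw [map_smul, l3, smul_eq_mul]
    linarith

theorem flb_small (n : Rn 3) {δ : ℝ} (hδ : 0 < δ) : ∀ᶠ t in 𝓝[>] (0 : ℝ), ‖t • n‖ < δ :=
  ((Continuous.tendsto' (f := fun t : ℝ => ‖t • n‖) (by fun_prop) 0 0 (by simp)).mono_left
    nhdsWithin_le_nhds).eventually_lt_const hδ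

/-- `RadK.face`, `Edg.small`. -/
theorem link_off (hc : c ∈ K.cel 2) (R : RadK K (b.m σ) σ η) (E : Edg K f b σ η M' N h)
    (n : Rn 3) : ∀ᶠ t in 𝓝[>] (0 : ℝ), ∀ x ∈ dsq (b.p f σ) M',
      b.m σ + N (co (b.p f σ) M' x) - t • n ∈ closure c → σ ⊆ closure c := by
  filter_upwards [flb_small n R.pos] with t ht x hx k
  refine R.face c hc ⟨_, k, ?_⟩
  rw [mem_ball_iff_norm, add_sub_assoc, add_sub_cancel_left, two_mul]
  exact (norm_sub_le _ _).trans_lt (add_lt_add (E.small _ hx.1.le) ht)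

/-- A homotopy on a compact set stays in the open set under small translations. -/
theorem link_small {Z O : Set (Rn 3)} (hZ : IsCompact Z) (hO : IsOpen O) {u w : Rn 3 → Rn 3}
    {H : Rn 3 × ℝ → Rn 3} (hH : IsH Z O u w H) (n : Rn 3) :
    ∀ᶠ t in 𝓝[>] (0 : ℝ), IsH Z O u (fun x => w x - t • n) (fun y => H y - (y.2 * t) • n) := by
  obtain ⟨δ, h0, k⟩ := ((hZ.prod isCompact_Icc).image_of_continuousOn
    hH.cont).exists_thickening_subset_open hO (image_subset_iff.2 fun y hy => hH.mem _ hy.1 _ hy.2)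
  filter_upwards [flb_small n h0] with t ht
  refine ⟨hH.cont.sub (by fun_prop), fun x hx => by simp [hH.zero x hx],
    fun x hx => by simp [hH.one x hx],
    fun x hx s hs => k (mem_thickening_iff.2 ⟨_, ⟨(x, s), ⟨hx, hs⟩, rfl⟩, ?_⟩)⟩
  rw [dist_eq_norm, sub_sub_cancel_left, norm_neg, mul_smul, norm_smul, Real.norm_of_nonneg hs.1]
  exact (mul_le_of_le_one_left (norm_nonneg _) hs.2).trans_lt ht

/-- The two halves of an arc, parametrised from the ends (`δ (s / 2)` and `δ (1 - s / 2)`). -/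
theorem arc_halves {A : Set (Rn 3)} {a a' : Rn 3} (hA : Arc A a a') :
    ∃ (z : Rn 3) (γ γ' : ℝ → Rn 3), TP γ ∧ TP γ' ∧ InjOn γ (Icc 0 1) ∧ InjOn γ' (Icc 0 1) ∧
      γ 0 = a ∧ γ' 0 = a' ∧ γ 1 = z ∧ γ' 1 = z ∧ (∀ s ∈ Icc (0 : ℝ) 1, γ s ∈ A ∧ γ' s ∈ A) ∧
      ∀ s ∈ Icc (0 : ℝ) 1, ∀ s' ∈ Icc (0 : ℝ) 1, γ s = γ' s' → s = 1 ∧ s' = 1 := by
  obtain ⟨δ, h1, h2, rfl, rfl, rfl⟩ := hA
  have m : ∀ s ∈ Icc (0 : ℝ) 1, s / 2 ∈ Icc (0 : ℝ) 1 ∧ 1 - s / 2 ∈ Icc (0 : ℝ) 1 := fun s k =>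
    ⟨⟨by linarith [k.1], by linarith [k.2]⟩, by linarith [k.2], by linarith [k.1]⟩
  refine ⟨δ (1 / 2), fun s => δ (s / 2), fun s => δ (1 - s / 2), h1.comp (TP.id'.div_const 2),
    h1.comp ((TP.const 1).sub (TP.id'.div_const 2)), fun s a t b e => ?_, fun s a t b e => ?_,
    by simp, by simp, rfl, by norm_num, fun s k => ⟨⟨_, (m s k).1, rfl⟩, _, (m s k).2, rfl⟩,
    fun s a t b e => ?_⟩
  · linarith [h2 (m s a).1 (m t b).1 e]
  · linarith [h2 (m s a).2 (m t b).2 e]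
  · have := h2 (m s a).1 (m t b).2 e
    exact ⟨by linarith [a.2, b.2], by linarith [a.2, b.2]⟩

theorem poly_pre {k m : ℕ} {X : Set (Rn k)} {Y : Set (Rn m)} (hX : Poly X) (hY : Poly Y)
    {u : Rn k → Rn m} (hu : TP u) : Poly {x | x ∈ X ∧ u x ∈ Y} := by
  obtain ⟨D, -, h1, -, -, h2, -⟩ := hY.eq_zero
  simp only [h2]
  exact poly_eq hX (h1.comp hu) 0

end BEp
end
end

-- merged part: Pool.Agent.Work.MP_f0515e_an.D3.FEdge1
section
/-! TASK FEdge1. Two local lemmas for FEdge.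
`frame_side`: the open half boxes `H e = (fun y => p + M y) '' {y | ‖y‖ ≤ 1 ∧ 0 < e * y 2}` (e = 1, -1) are
convex and miss `S`, so each lies in `B \ S` or in the complement of `B` (`Ball.side`). `p ∈ S` and the box is
a neighbourhood of `p`; `Ball.loc` (or `closure_in`, `closure_out`) gives a point of `B \ S` and a point
outside `B` in the box; both have `y 2 ≠ 0`, and they lie in different half boxes. Points with `y 2 = 0` are
in `S ⊆ B`.
`merid`: `wind_htp` for `ζ = pj3 ∘ φ`, `η y = φ y 2` (`mk3_pj3` for injectivity), then `htp_norm` with `I =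
Iic 1` (`‖pj3 z‖ ≤ ‖z‖`, `fha_norm`), giving `H` on the unit sphere of the plane. For `y` with `‖y‖ = 1`, `y 2
= 0` put `y' = ![y 0, ε * y 1, y 2]` (`ε * ε = 1`, `PUp_norm`); the homotopy is `(y, s) ↦ mk3 (H (pj3 y', s))
((1 - s) * φ y' 2)` (`norm_mk3`). About 90 lines. -/

open Set Metric Filter Topology Function BEv
open scoped NNReal

noncomputable section
namespace BEp

theorem FEdge1_half {B S : Set (Rn 3)} (hB : Ball B S) {p : Rn 3} {M : Rn 3 ≃L[ℝ] Rn 3}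
    (hf : ∀ y : Rn 3, ‖y‖ ≤ 1 → (p + M y ∈ S ↔ y 2 = 0)) (e : ℝ) :
    (∀ y : Rn 3, ‖y‖ ≤ 1 → 0 < e * y 2 → p + M y ∈ B) ∨
      ∀ y : Rn 3, ‖y‖ ≤ 1 → 0 < e * y 2 → p + M y ∉ B := by
  have hc : Convex ℝ (closedBall (0 : Rn 3) 1 ∩ {y : Rn 3 | 0 < e * y 2}) :=
    (convex_closedBall _ _).inter (convex_halfSpace_gt (f := fun y : Rn 3 => e * y 2)
      ⟨fun _ _ => by simp [mul_add], fun _ _ => by simp [mul_left_comm]⟩ 0)
  have hp := hc.isPreconnected.image (fun y => p + M y) (fha_tp p M).continuous.continuousOn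
  rcases hB.side hp (disjoint_left.2 (by
    rintro _ ⟨y, ⟨h1, h2⟩, rfl⟩ h3
    have h4 : 0 < e * y 2 := h2
    rw [(hf y (mem_closedBall_zero_iff.1 h1)).1 h3, mul_zero] at h4
    exact lt_irrefl _ h4)) with h | h
  · exact Or.inl fun y h1 h2 => (h ⟨y, ⟨mem_closedBall_zero_iff.2 h1, h2⟩, rfl⟩).1
  · exact Or.inr fun y h1 h2 => disjoint_left.1 h ⟨y, ⟨mem_closedBall_zero_iff.2 h1, h2⟩, rfl⟩

theorem FEdge1_pj (z : Rn 3) : ‖pj3 z‖ ≤ ‖z‖ := by
  conv_rhs => rw [← mk3_pj3 z, norm_mk3]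
  exact le_max_left _ _

theorem frame_side {B S : Set (Rn 3)} (hB : Ball B S) {p : Rn 3} {M : Rn 3 ≃L[ℝ] Rn 3}
    (hf : ∀ y : Rn 3, ‖y‖ ≤ 1 → (p + M y ∈ S ↔ y 2 = 0)) :
    ∃ e : ℝ, (e = 1 ∨ e = -1) ∧ ∀ y : Rn 3, ‖y‖ ≤ 1 → (p + M y ∈ B ↔ 0 ≤ e * y 2) := by
  have hp : p ∈ S := by simpa using (hf 0 (by simp)).2 rfl
  have hN : {x | ‖co p M x‖ ≤ 1} ∈ 𝓝 p :=
    (fhb_cont p M).norm.continuousAt.preimage_mem_nhds (Iic_mem_nhds (by simp))
  obtain ⟨a, ha, ha'⟩ := mem_closure_iff_nhds.1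
    (hB.closure_in.symm ▸ hB.sub hp : p ∈ closure (B \ S)) _ hN
  obtain ⟨b, hb, hb'⟩ := mem_closure_iff_nhds.1
    (hB.closure_out.symm ▸ Or.inr hp : p ∈ closure Bᶜ) _ hN
  have h0 : ∀ y : Rn 3, ‖y‖ ≤ 1 → y 2 = 0 → p + M y ∈ B := fun y h1 h2 => hB.sub ((hf y h1).2 h2)
  have ea := add_co p M a
  have eb := add_co p M b
  have ha2 : co p M a 2 ≠ 0 := fun h => ha'.2 (ea ▸ (hf _ ha).2 h)
  obtain ⟨e, he, h1⟩ : ∃ e : ℝ, (e = 1 ∨ e = -1) ∧ 0 < e * co p M a 2 := by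
    rcases lt_or_gt_of_ne ha2 with h | h
    exacts [⟨-1, Or.inr rfl, by linarith⟩, ⟨1, Or.inl rfl, by linarith⟩]
  have he0 : e ≠ 0 := by rcases he with rfl | rfl <;> norm_num
  have hin := (FEdge1_half hB hf e).resolve_right fun h => h _ ha h1 (ea.symm ▸ ha'.1)
  have hge : ∀ y : Rn 3, ‖y‖ ≤ 1 → 0 ≤ e * y 2 → p + M y ∈ B := fun y h2 h3 =>
    h3.eq_or_lt.elim (fun h => h0 y h2 ((mul_eq_zero.1 h.symm).resolve_left he0)) (hin y h2)
  have h2 : e * co p M b 2 < 0 := not_le.1 fun h => hb' (eb ▸ hge _ hb h)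
  have hout := (FEdge1_half hB hf (-e)).resolve_left fun h => hb' (eb ▸ h _ hb (by linarith))
  exact ⟨e, he, fun y hy => ⟨fun h => not_lt.1 fun h' => hout y hy (by linarith) h, hge y hy⟩⟩

theorem merid {φ : Rn 3 → Rn 3} (hφ : ContinuousOn φ (closedBall 0 1))
    (hi : InjOn φ (closedBall 0 1)) (h0 : φ 0 = 0) (hm : ∀ y : Rn 3, ‖y‖ ≤ 1 → ‖φ y‖ ≤ 1) {σ : ℝ}
    (hσ : σ ≠ 0) (hs : ∀ y : Rn 3, ‖y‖ ≤ 1 → pj3 (φ y) = 0 → y = 0 ∨ 0 < σ * φ y 2 * y 2) :
    ∃ ε : ℝ, (ε = 1 ∨ ε = -1) ∧ Htp {y : Rn 3 | ‖y‖ = 1 ∧ y 2 = 0}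
      {z : Rn 3 | ‖z‖ ≤ 1 ∧ pj3 z ≠ 0} (fun y => φ ![y 0, ε * y 1, y 2]) id := by
  have p0 : pj3 0 = 0 := by simpa using pj3_smul 0 0
  obtain ⟨ε, hε, hH⟩ := wind_htp (ζ := fun y => pj3 (φ y)) (η := fun y => φ y 2)
    (tp_pj3.continuous.comp_continuousOn hφ) ((continuous_apply 2).comp_continuousOn hφ)
    (fun x hx y hy e1 e2 => hi hx hy (by rw [← mk3_pj3 (φ x), e1, e2, mk3_pj3]))
    (σ := σ) (fun x hx e => by
      simpa [h0] using hs x (mem_closedBall_zero_iff.1 hx) (by rw [e, h0, p0])) hσ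
  have nm : ∀ y : Rn 2, ‖mk3 y 0‖ = ‖y‖ := fun y => by rw [norm_mk3]; simp
  have hee : ε * ε = 1 := by rcases hε with rfl | rfl <;> norm_num
  obtain ⟨H, hH⟩ := htp_norm hH (convex_Iic 1) (fun y hy => by
      rw [h0, p0, sub_zero]
      exact (FEdge1_pj _).trans (hm _ (by rw [nm, mem_sphere_zero_iff_norm.1 hy])))
    (fun y hy => (FEdge1_pj ![y 0, ε * y 1, 0]).trans
      ((fha_norm hε (mk3 y 0)).trans ((nm y).trans (mem_sphere_zero_iff_norm.1 hy))).le)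
  have cr : Continuous fun y : Rn 3 => (![y 0, ε * y 1, y 2] : Rn 3) := by fun_prop
  have hb : ∀ y ∈ {y : Rn 3 | ‖y‖ = 1 ∧ y 2 = 0},
      (![y 0, ε * y 1, y 2] : Rn 3) ∈ closedBall (0 : Rn 3) 1 := fun y hy =>
    mem_closedBall_zero_iff.2 ((fha_norm hε y).trans hy.1).le
  have hsp : ∀ y ∈ {y : Rn 3 | ‖y‖ = 1 ∧ y 2 = 0},
      pj3 ![y 0, ε * y 1, y 2] ∈ sphere (0 : Rn 2) 1 := fun y hy =>
    mem_sphere_zero_iff_norm.2 ((PUp_norm (x := ![y 0, ε * y 1, y 2]) hy.2).symm.trans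
      ((fha_norm hε y).trans hy.1))
  refine ⟨ε, hε, fun q => mk3 (H (pj3 ![q.1 0, ε * q.1 1, q.1 2], q.2))
    ((1 - q.2) * φ ![q.1 0, ε * q.1 1, q.1 2] 2), ?_, fun y hy => ?_, fun y hy => ?_,
    fun y hy s hs => ?_⟩
  · have cm : Continuous fun q : Rn 2 × ℝ => mk3 q.1 q.2 :=
      (TP.id'.fst.mk3 TP.id'.snd).continuous
    refine cm.comp_continuousOn (ContinuousOn.prodMk (hH.cont.comp
      ((tp_pj3.continuous.comp (cr.comp continuous_fst)).prodMk continuous_snd).continuousOn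
        fun q hq => ⟨hsp _ hq.1, hq.2⟩) ?_)
    exact (continuous_const.sub continuous_snd).continuousOn.mul
      ((continuous_apply 2).comp_continuousOn
        (hφ.comp (cr.comp continuous_fst).continuousOn fun q hq => hb _ hq.1))
  · have e : mk3 (pj3 ![y 0, ε * y 1, y 2]) 0 = ![y 0, ε * y 1, y 2] := by
      conv_rhs => rw [← mk3_pj3 ![y 0, ε * y 1, y 2]]
      exact congrArg _ hy.2.symm
    simp only [hH.zero _ (hsp y hy), h0, p0, sub_zero, one_mul, e, mk3_pj3]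
  · simp only [hH.one _ (hsp y hy), sub_self, zero_mul, id]
    funext j
    fin_cases j
    · rfl
    · show ε * (ε * y 1) = y 1
      rw [← mul_assoc, hee, one_mul]
    · exact hy.2.symm
  · obtain ⟨h1, h2⟩ := hH.mem _ (hsp y hy) s hs
    refine ⟨?_, by rwa [pj3_mk3]⟩
    rw [norm_mk3, abs_mul, abs_of_nonneg (sub_nonneg.2 hs.2)]
    exact max_le h2 (mul_le_one₀ (by linarith [hs.1]) (abs_nonneg _)
      ((norm_le_pi_norm _ 2).trans (hm _ (mem_closedBall_zero_iff.1 (hb y hy)))))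

end BEp
end
end

-- merged part: Pool.Agent.Work.MP_f0515e_an.D3.FEdge
section
/-! TASK FEdge. Small frames at the marks: the boundary of the square is a meridian of the edge.
Write `m = b.m σ ∈ σ` (`Bead.mk'`), `p = b.p f σ = f m`, `g = invFunOn f Ω` (continuous on the open set `f ''
Ω`: `emb_inv`, `emb_open`; `g p = m`).
`FEdge_sgn`: `frame_side` for `Bead.ball` gives `e`; take `s0 = -e`. Put `x = g (p + M' y) = v + s • (m - v)`;
`x ∈ ball m η` and `f x = p + M' y` (`hbox`, injectivity), so `x ∈ σ` (`RadK.line`), `x ∈ K.sk 1`. If `s = 1`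
then `x = m`, `M' y = 0`. If `f x ∈ b.B v` then `Bead1.star` gives a flag `(v, s')` with `x ∈ segment v (b.m
s')`; `k_half` and `x ≠ v` (`k_ne`) give `x ∈ s'`, so `s' = σ` (`Kx.disj`) and `0 ≤ s ≤ 1`. So for `1 < s` the
point is outside `b.B v`, `e * y 2 < 0`. For `s < 1`: `0 ≤ s` (with `σ = openSegment v w`, `k_other`, both `x`
and `m` are positive multiples of `w - v` from `v`), so `x ∈ segment v m`, `f x ∈ b.B v` (`Bead1.sin`), and `f
x ∉ b.S v` (`Bead1.mark` gives `x = b.m s'`, again `s' = σ`, `x = m`, `s = 1`); so `0 < e * y 2`.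
`FEdge_N`: complete `d ≠ 0` to a frame (a coordinate `d j ≠ 0`; or `LinearEquiv` from
`exists_linearIndependent`/`Basis`; or a transvection), then scale by a small positive constant.
`FEdge_box`: the set `U` of points `x` with `x ∈ f '' ball m η`, `g x ∈ (fun y => m + N y) '' ball 0 1`, and
`x ∉ b.B w` for the vertices `w` which are not ends of `σ`, is a neighbourhood of `p`: take a compact ball
round `p` in `f '' Ω`, `Bead.lf` leaves finitely many closed `b.B w`, which miss `p` by `Bead.mark_fl`.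
`small_box` for the frame `b.M σ`.
`edge_data`: `k_flags` gives `v, w`; `N` from `FEdge_N` with `d = m - v` (`k_opp` for `w`); `r` from
`FEdge_box`; `M0` = `exists_resc` with sign `1`; `φ y = N.symm (g (p + M0 y) - m)`; `pj3 (φ y) = 0` gives `g
(p + M0 y) - v = (1 + φ y 2 * κ) • (m - v)`, so `FEdge_sgn` gives the sign condition of `merid` with `σ = s0 *
κ`; `M'` = `exists_resc` with the sign `ε` of `merid`, `M' y = M0 ![y 0, ε * y 1, y 2]`; `Resc.norm`,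
`Resc.flat`; `h (x, s) = m + N (H (co p M' x, s))`, in `ball m η ⊆ Ω` and not in `K.sk 1` (`RadK.sk`: a point
of `σ` is `m + τ • (m - v)`, its coordinate has `pj3 = 0`). About 200 lines. -/

open Set Metric Filter Topology Function BEv
open scoped NNReal

noncomputable section
namespace BEp

variable {Ω : Set (Rn 3)} {K : Kx Ω} {f : Rn 3 → Rn 3} {b : BdD} {σ : Set (Rn 3)} {η : ℝ}

theorem FEdge_sgn (hi : InjOn f Ω) (hb : Bead K f b) (R : RadK K (b.m σ) σ η) {v : Rn 3}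
    (hv : K.Fl v σ) {M' : Rn 3 ≃L[ℝ] Rn 3} (hbox : bx (b.p f σ) M' ⊆ f '' ball (b.m σ) η)
    (hf : ∀ y : Rn 3, ‖y‖ ≤ 1 → (b.p f σ + M' y ∈ b.S v ↔ y 2 = 0)) :
    ∃ s0 : ℝ, s0 ≠ 0 ∧ ∀ y : Rn 3, ‖y‖ ≤ 1 → ∀ s : ℝ,
      invFunOn f Ω (b.p f σ + M' y) - v = s • (b.m σ - v) → y = 0 ∨ 0 < s0 * (s - 1) * y 2 := by
  obtain ⟨e, he, hside⟩ := frame_side (hb.ball hv.vx) hf
  have hm := hb.mk' σ hv.cel
  have hB := hb.at hv.vx
  have hs2 : ball (b.m σ) η ⊆ ball (b.m σ) (2 * η) := ball_subset_ball (by linarith [R.pos])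
  refine ⟨-e, by rcases he with rfl | rfl <;> norm_num, fun y hy s hs => ?_⟩
  obtain ⟨x, hx, ex⟩ := hbox (show b.p f σ + M' y ∈ bx (b.p f σ) M' by simpa [bx] using hy)
  have hxΩ : x ∈ Ω := R.sub (hs2 hx)
  rw [← ex, hi.leftInvOn_invFunOn hxΩ] at hs
  have e1 : x = v + s • (b.m σ - v) := by rw [← hs]; abel
  have hxσ : x ∈ σ := by
    rw [e1]
    exact R.line v hv s (by rw [← e1]; exact hs2 hx)
  have hsk : x ∈ K.sk 1 := Kx.cl_sub_sk hv.cel.1 hv.cel.2.le (subset_closure hxσ)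
  have hmv : b.m σ - v ≠ 0 := sub_ne_zero.2 (k_ne hv hm)
  rcases lt_trichotomy s 1 with h1 | h1 | h1
  · have s0 : 0 ≤ s := by
      by_contra hn
      have h2 : 0 < 1 - s := by linarith
      have h3 := Kx.cells_cvx hv.cel.1 hxσ hm (a := (1 - s)⁻¹) (b := -s * (1 - s)⁻¹)
        (by positivity) (mul_nonneg (by linarith) (by positivity)) (by field_simp; ring)
      have h4 : (1 - s)⁻¹ • x + (-s * (1 - s)⁻¹) • b.m σ = v := by
        rw [e1]
        ext i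
        simp only [Pi.add_apply, Pi.smul_apply, Pi.sub_apply, smul_eq_mul]
        field_simp
        ring
      rw [h4] at h3
      exact k_ne hv h3 rfl
    have hin : f x ∈ b.B v := by
      refine hB.sin σ hv (mem_image_of_mem f ?_)
      rw [segment_eq_image']
      exact ⟨s, ⟨s0, h1.le⟩, e1.symm⟩
    have hnot : f x ∉ b.S v := by
      intro h
      obtain ⟨τ, k, e3⟩ := hB.mark x hsk h
      have e4 : τ = σ := by
        by_contra hn
        exact Set.disjoint_left.1 (Kx.disj k.cel.1 hv.cel.1 hn) (e3 ▸ hb.mk' τ k.cel) hxσ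
      rw [e4] at e3
      have e5 : (1 - s) • (b.m σ - v) = 0 := by rw [sub_smul, one_smul, ← hs, e3, sub_self]
      rcases smul_eq_zero.1 e5 with h5 | h5
      · linarith
      · exact hmv h5
    rw [ex] at hin hnot
    have a1 := (hside y hy).1 hin
    have a2 : y 2 ≠ 0 := fun h => hnot ((hf y hy).2 h)
    have a3 : 0 < e * y 2 :=
      lt_of_le_of_ne a1 (mul_ne_zero (by rcases he with rfl | rfl <;> norm_num) a2).symm
    right
    nlinarith [mul_pos a3 (sub_pos.2 h1)]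
  · left
    rw [h1, one_smul, sub_left_inj] at hs
    rw [hs] at ex
    have e6 : M' y = 0 := left_eq_add.1 ex
    exact M'.injective (by rw [e6, map_zero])
  · right
    have hnot : f x ∉ b.B v := fun h =>
      absurd (hB.ray σ hv s (by linarith) (e1 ▸ hxΩ) (e1 ▸ h)) (not_le.2 h1)
    rw [ex, hside y hy, not_le] at hnot
    nlinarith [mul_pos (neg_pos.2 hnot) (sub_pos.2 h1)]

theorem FEdge_N {d : Rn 3} (hd : d ≠ 0) (hη : 0 < η) : ∃ (N : Rn 3 ≃L[ℝ] Rn 3) (κ : ℝ), κ ≠ 0 ∧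
    N (Pi.single 2 1) = κ • d ∧ ∀ y : Rn 3, ‖y‖ ≤ 1 → ‖N y‖ < η := by
  have h2 : (Pi.single 2 1 : Rn 3) ≠ 0 := fun h => by simpa using congrFun h 2
  obtain ⟨A, hA⟩ := SeparatingDual.exists_continuousLinearEquiv_apply_eq (R := ℝ) h2 hd
  obtain ⟨r, r0, -, hr⟩ := small_box 0 A (ball_mem_nhds (0 : Rn 3) hη)
  obtain ⟨N, hN⟩ := exists_resc A r0.ne' (.inl rfl : (1 : ℝ) = 1 ∨ (1 : ℝ) = -1)
  refine ⟨N, r, r0.ne', ?_, fun y hy => ?_⟩
  · rw [hN, ← hA]
    congr 2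
    ext i
    fin_cases i <;> simp
  · have h3 := (Resc.norm ⟨1, .inl rfl, hN⟩ r0 0 (0 + N y)).1
    rw [co_add] at h3
    have h4 := hr (0 + N y) (by rw [h3]; exact mul_le_of_le_one_right r0.le hy)
    rwa [zero_add, mem_ball_zero_iff] at h4

theorem FEdge_box (hΩ : IsOpen Ω) (hf : ContinuousOn f Ω) (hi : InjOn f Ω) (hb : Bead K f b)
    (hσ : σ ∈ K.cel 1) (R : RadK K (b.m σ) σ η) (N : Rn 3 ≃L[ℝ] Rn 3) :
    ∃ r : ℝ, 0 < r ∧ r ≤ 1 ∧ ∀ x, ‖co (b.p f σ) (b.M σ) x‖ ≤ r →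
      x ∈ f '' ball (b.m σ) η ∧ ‖N.symm (invFunOn f Ω x - b.m σ)‖ ≤ 1 ∧
        ∀ w, K.Vx w → ¬ K.Fl w σ → x ∉ b.B w := by
  have hs : ball (b.m σ) η ⊆ Ω := (ball_subset_ball (by linarith [R.pos])).trans R.sub
  have hmΩ : b.m σ ∈ Ω := hs (mem_ball_self R.pos)
  have hp : f '' Ω ∈ 𝓝 (b.p f σ) :=
    (emb_open hf hi hΩ Subset.rfl).mem_nhds (mem_image_of_mem f hmΩ)
  have u1 : f '' ball (b.m σ) η ∈ 𝓝 (b.p f σ) :=
    (emb_open hf hi isOpen_ball hs).mem_nhds (mem_image_of_mem f (mem_ball_self R.pos))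
  have u2 : ∀ᶠ x in 𝓝 (b.p f σ), ‖N.symm (invFunOn f Ω x - b.m σ)‖ ≤ 1 := by
    have c1 : ContinuousAt (invFunOn f Ω) (b.p f σ) := (emb_inv hΩ hf hi).continuousAt hp
    have c2 : ContinuousAt (fun x => ‖N.symm (invFunOn f Ω x - b.m σ)‖) (b.p f σ) :=
      (N.symm.continuous.continuousAt.comp (c1.sub continuousAt_const)).norm
    refine c2.eventually_le_const ?_
    show ‖N.symm (invFunOn f Ω (f (b.m σ)) - b.m σ)‖ < 1
    rw [hi.leftInvOn_invFunOn hmΩ, sub_self, map_zero, norm_zero]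
    exact one_pos
  obtain ⟨ρ, ρ0, hρ⟩ := nhds_basis_closedBall.mem_iff.1 hp
  have u3 : ∀ᶠ x in 𝓝 (b.p f σ), ∀ w ∈ {w | w ∈ Ω ∧ K.cell w = {w} ∧
      (b.B w ∩ closedBall (b.p f σ) ρ).Nonempty}, ¬ K.Fl w σ → x ∉ b.B w := by
    refine (eventually_all_finite (hb.lf _ (isCompact_closedBall _ ρ) hρ)).2 fun w hw => ?_
    by_cases k : K.Fl w σ
    · exact Eventually.of_forall fun x h => absurd k h
    · have hw' : K.Vx w := ⟨hw.1, hw.2.1⟩
      have hc : IsClosed (b.B w) :=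
        ((isCompact_closedBall 0 1).image (hb.at hw').lh.2.1.continuous).isClosed
      filter_upwards [hc.isOpen_compl.mem_nhds fun h => k (hb.mark_fl hw' hσ h)] with x hx _
      exact hx
  have u4 : ∀ᶠ x in 𝓝 (b.p f σ), x ∈ f '' ball (b.m σ) η ∧
      ‖N.symm (invFunOn f Ω x - b.m σ)‖ ≤ 1 ∧ ∀ w, K.Vx w → ¬ K.Fl w σ → x ∉ b.B w := by
    filter_upwards [u1, u2, u3, closedBall_mem_nhds _ ρ0] with x a1 a2 a3 a4
    exact ⟨a1, a2, fun w hw k h => a3 w ⟨hw.1, hw.2, x, h, a4⟩ k h⟩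
  exact small_box _ (b.M σ) u4

theorem FEdge_line {v m x : Rn 3} (hv : K.Fl v σ) (hm : m ∈ σ) (hx : x ∈ σ) :
    ∃ τ : ℝ, x - m = τ • (m - v) := by
  obtain ⟨w, -, e, -, -⟩ := k_other hv
  rw [e, openSegment_eq_image'] at hm hx
  obtain ⟨a, ha, rfl⟩ := hm
  obtain ⟨a', -, rfl⟩ := hx
  refine ⟨(a' - a) / a, ?_⟩
  rw [add_sub_cancel_left, smul_smul, div_mul_cancel₀ _ ha.1.ne', sub_smul, add_sub_add_left_eq_sub]

theorem FEdge_pj {z : Rn 3} (h : pj3 z = 0) : z = z 2 • (Pi.single 2 1 : Rn 3) := by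
  have h0 : z 0 = 0 := congrFun h 0
  have h1 : z 1 = 0 := congrFun h 1
  ext i
  fin_cases i <;> simp [h0, h1]

theorem edge_data {Ω : Set (Rn 3)} {K : Kx Ω} {f : Rn 3 → Rn 3} {b : BdD} (hΩ : IsOpen Ω)
    (hf : ContinuousOn f Ω) (hi : InjOn f Ω) (hb : Bead K f b) {σ : Set (Rn 3)}
    (hσ : σ ∈ K.cel 1) {η : ℝ} (R : RadK K (b.m σ) σ η) :
    ∃ (M' N : Rn 3 ≃L[ℝ] Rn 3) (h : Rn 3 × ℝ → Rn 3), Edg K f b σ η M' N h := by
  have hm := hb.mk' σ hσ
  have hs2 : ball (b.m σ) η ⊆ ball (b.m σ) (2 * η) := ball_subset_ball (by linarith [R.pos])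
  have hs : ball (b.m σ) η ⊆ Ω := hs2.trans R.sub
  have hmΩ : b.m σ ∈ Ω := hs (mem_ball_self R.pos)
  obtain ⟨v, w, -, -, hfl⟩ := k_flags hσ
  have hv : K.Fl v σ := (hfl v).2 (.inl rfl)
  obtain ⟨N, κ, hκ, hN, hNs⟩ := FEdge_N (sub_ne_zero.2 (k_ne hv hm)) R.pos
  obtain ⟨r, r0, r1, hr⟩ := FEdge_box hΩ hf hi hb hσ R N
  have k1 : ∀ M', Resc (b.M σ) M' r → ∀ x ∈ bx (b.p f σ) M', x ∈ f '' ball (b.m σ) η ∧
      ‖N.symm (invFunOn f Ω x - b.m σ)‖ ≤ 1 ∧ ∀ w, K.Vx w → ¬ K.Fl w σ → x ∉ b.B w :=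
    fun M' h x hx => hr x (by
      rw [(h.norm r0 _ x).1]
      exact mul_le_of_le_one_right r0.le hx)
  have k2 : ∀ M', Resc (b.M σ) M' r → ∀ u, K.Fl u σ → ∀ y : Rn 3, ‖y‖ ≤ 1 →
      (b.p f σ + M' y ∈ b.S u ↔ y 2 = 0) :=
    fun M' h u hu => h.flat r0 r1 ((hb.at hu.vx).flt σ hu)
  obtain ⟨M0, hM0⟩ := exists_resc (b.M σ) r0.ne' (.inl rfl : (1 : ℝ) = 1 ∨ (1 : ℝ) = -1)
  have R0 : Resc (b.M σ) M0 r := ⟨1, .inl rfl, hM0⟩
  obtain ⟨s0, hs0, hsg⟩ := FEdge_sgn hi hb R hv (fun x hx => (k1 M0 R0 x hx).1) (k2 M0 R0 v hv)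
  have hbx : ∀ y : Rn 3, ‖y‖ ≤ 1 → b.p f σ + M0 y ∈ bx (b.p f σ) M0 := fun y hy => by
    simpa [bx] using hy
  have him : ∀ y ∈ closedBall (0 : Rn 3) 1, b.p f σ + M0 y ∈ f '' Ω := fun y hy =>
    image_mono hs (k1 M0 R0 _ (hbx y (mem_closedBall_zero_iff.1 hy))).1
  obtain ⟨ε, hε, H, hH⟩ := merid
    (φ := fun y => N.symm (invFunOn f Ω (b.p f σ + M0 y) - b.m σ))
    (N.symm.continuous.comp_continuousOn
      (((emb_inv hΩ hf hi).comp (fha_tp _ M0).continuous.continuousOn him).sub continuousOn_const))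
    (fun y hy z hz e => by
      have e1 := congrArg f (sub_left_inj.1 (N.symm.injective e))
      rw [invFunOn_eq (him y hy), invFunOn_eq (him z hz)] at e1
      exact M0.injective (add_left_cancel e1))
    (by rw [map_zero, add_zero, BdD.p, hi.leftInvOn_invFunOn hmΩ, sub_self, map_zero])
    (fun y hy => (k1 M0 R0 _ (hbx y hy)).2.1) (mul_ne_zero hs0 hκ)
    (fun y hy e => by
      have e1 := congrArg N (FEdge_pj e)
      rw [N.apply_symm_apply, map_smul, hN, smul_smul] at e1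
      have e2 := hsg y hy (1 + N.symm (invFunOn f Ω (b.p f σ + M0 y) - b.m σ) 2 * κ)
        (by rw [add_smul, one_smul, ← e1]; abel)
      refine e2.imp_right fun h => h.trans_eq ?_
      ring)
  obtain ⟨M', hM'⟩ := exists_resc (b.M σ) r0.ne' hε
  have R1 : Resc (b.M σ) M' r := ⟨ε, hε, hM'⟩
  refine ⟨M', N, fun q => b.m σ + N (H (co (b.p f σ) M' q.1, q.2)),
    fun x hx => (k1 M' R1 x hx).1, k2 M' R1,
    fun u hu k => Set.disjoint_left.2 fun x hx => (k1 M' R1 x hx).2.2 u hu k,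
    fun u hu => ?_, hNs, ⟨?_, fun x hx => ?_, fun x hx => ?_, fun x hx s hs' => ?_⟩,
    fun u hu => FEdge_sgn hi hb R hu (fun x hx => (k1 M' R1 x hx).1) (k2 M' R1 u hu)⟩
  · by_cases e : v = u
    · exact ⟨κ, hκ, e ▸ hN⟩
    · obtain ⟨a, a0, ha⟩ := k_opp hv hu e hm
      refine ⟨-(κ / a), neg_ne_zero.2 (div_ne_zero hκ a0.ne'), ?_⟩
      rw [hN, ha, smul_smul, neg_mul_neg, div_mul_cancel₀ _ a0.ne']
  · refine continuousOn_const.add (N.continuous.comp_continuousOn (hH.cont.comp ?_ ?_))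
    · exact (((fhb_cont _ M').comp continuous_fst).prodMk continuous_snd).continuousOn
    · exact fun q hq => ⟨hq.1, hq.2⟩
  · have e1 : M0 ![co (b.p f σ) M' x 0, ε * co (b.p f σ) M' x 1, co (b.p f σ) M' x 2] =
        M' (co (b.p f σ) M' x) := by
      rw [hM0, hM']
      simp
    have e2 := hH.zero (co (b.p f σ) M' x) hx
    simp only at e2 ⊢
    rw [e2, e1, add_co, N.apply_symm_apply, add_sub_cancel]
  · have e2 := hH.one (co (b.p f σ) M' x) hx
    simp only at e2 ⊢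
    rw [e2, id]
  · obtain ⟨a1, a2⟩ := hH.mem (co (b.p f σ) M' x) hx s hs'
    have a3 : b.m σ + N (H (co (b.p f σ) M' x, s)) ∈ ball (b.m σ) η := by
      rw [mem_ball_iff_norm, add_sub_cancel_left]
      exact hNs _ a1
    refine ⟨hs a3, fun h => a2 ?_⟩
    obtain ⟨τ, hτ⟩ := FEdge_line hv hm (R.sk _ (hs2 a3) h)
    rw [add_sub_cancel_left] at hτ
    have a4 : H (co (b.p f σ) M' x, s) = (τ / κ) • (Pi.single 2 1 : Rn 3) :=
      N.injective (by rw [hτ, map_smul, hN, smul_smul, div_mul_cancel₀ _ hκ])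
    rw [a4]
    ext i
    fin_cases i <;> simp

end BEp
end
end

-- merged part: Pool.Agent.Work.MP_f0515e_an.D3.FCh1
section
/-! The parts of one square; chains of arcs; the arcs over the gaps. -/

open Set Metric Filter Topology Function BEv
open scoped NNReal

noncomputable section
namespace BEp

section Sq
variable {p : Rn 3} {M : Rn 3 ≃L[ℝ] Rn 3} {τ : ℝ}

theorem fca_norm {y : Rn 3} (h : y 2 = 0) : ‖y‖ = max |y 0| |y 1| := by
  refine le_antisymm ((pi_norm_le_iff_of_nonneg (le_max_of_le_left (abs_nonneg _))).2 fun i => ?_)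
    (max_le (norm_le_pi_norm y 0) (norm_le_pi_norm y 1))
  fin_cases i
  · exact le_max_left _ _
  · exact le_max_right _ _
  · simp [h]

theorem fca_eq {x : Rn 3} (h : co p M x 2 = 0) : x = p + M ![co p M x 0, co p M x 1, 0] := by
  conv_lhs => rw [← add_co p M x]
  congr 2
  ext i
  fin_cases i
  · rfl
  · rfl
  · exact h

theorem fca_arc {a b : ℝ → ℝ} (ha : TP a) (hb : TP b) {c : ℝ} (hc : 0 < c) {P : ℝ → ℝ → Prop}
    (g : ℝ → ℝ → ℝ) (hg : ∀ w, g (a w) (b w) = w) (k1 : ∀ w, |w| ≤ c → P (a w) (b w))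
    (k2 : ∀ u v, P u v → |g u v| ≤ c ∧ a (g u v) = u ∧ b (g u v) = v) {A : Set (Rn 3)}
    (hA : ∀ x, x ∈ A ↔ co p M x 2 = 0 ∧ P (co p M x 0) (co p M x 1)) :
    Arc A (p + M ![a (-c), b (-c), 0]) (p + M ![a c, b c, 0]) := by
  have ht : TP fun s : ℝ => c * (2 * s - 1) := ((TP.id'.const_mul 2).sub (TP.const 1)).const_mul c
  refine ⟨fun s => p + M ![a (c * (2 * s - 1)), b (c * (2 * s - 1)), 0],
    (TP.const p).add ((TP.clm (M : Rn 3 →L[ℝ] Rn 3)).comp (TP.pi fun i => ?_)),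
    fun s _ t _ e => ?_, by simp, by norm_num, ?_⟩
  · fin_cases i
    exacts [ha.comp ht, hb.comp ht, TP.const 0]
  · have e' := M.injective (add_left_cancel e)
    have e0 : a _ = a _ := congrFun e' 0
    have e1 : b _ = b _ := congrFun e' 1
    have := hg (c * (2 * s - 1))
    rw [e0, e1, hg] at this
    linarith [mul_left_cancel₀ hc.ne' this]
  · ext x
    rw [hA]
    constructor
    · rintro ⟨s, hs, rfl⟩
      simp only [co_add]
      exact ⟨rfl, k1 _ (abs_le.2 ⟨by nlinarith [hs.1], by nlinarith [hs.2]⟩)⟩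
    · rintro ⟨h, k⟩
      obtain ⟨k3, k4, k5⟩ := k2 _ _ k
      have k6 := (div_le_one hc).2 (abs_le.1 k3).2
      have k7 := (le_div_iff₀ hc).2 ((neg_one_mul c).le.trans (abs_le.1 k3).1)
      refine ⟨(g (co p M x 0) (co p M x 1) / c + 1) / 2, ⟨by linarith, by linarith⟩, ?_⟩
      have e : c * (2 * ((g (co p M x 0) (co p M x 1) / c + 1) / 2) - 1) =
          g (co p M x 0) (co p M x 1) := by
        field_simp
        ring
      simp only [e, k4, k5]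
      exact (fca_eq h).symm

theorem arc_vee (h0 : 0 < τ) (h1 : τ < 1) : Arc (vee p M τ) (qq p M (-1) τ) (qq p M 1 τ) := by
  have := fca_arc (p := p) (M := M) (A := vee p M τ) TP.id' (TP.id'.abs.const_mul τ) one_pos
    (P := fun u v => |u| ≤ 1 ∧ v = τ * |u|) (fun u _ => u) (fun _ => rfl) (fun _ h => ⟨h, rfl⟩)
    (fun _ _ h => ⟨h.1, rfl, h.2.symm⟩) fun x => ⟨fun ⟨⟨k1, k2⟩, k3⟩ =>
      ⟨k2, (norm_le_pi_norm _ 0).trans k1, k3⟩, fun ⟨k1, k2, k3⟩ => ⟨⟨by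
        rw [fca_norm k1, k3, abs_mul, abs_abs, abs_of_pos h0]
        exact max_le k2 (by nlinarith [abs_nonneg (co p M x 0)]), k1⟩, k3⟩⟩
  simpa [qq] using this

theorem fca_bd (h0 : 0 < τ) (h1 : τ < 1) {e : ℝ} (he : e = 1 ∨ e = -1) :
    Arc {x | x ∈ dsq p M ∧ e * τ ≤ e * co p M x 1} (qq p M (-1) τ) (qq p M 1 τ) := by
  have hc : 1 < 2 - e * τ := by rcases he with rfl | rfl <;> linarith
  have h3 : 2 - e * τ < 3 := by rcases he with rfl | rfl <;> linarith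
  have he2 : ∀ r, e * (e * r) = r := by rcases he with rfl | rfl <;> simp
  have hea : ∀ r, |e * r| = |r| := by rcases he with rfl | rfl <;> simp
  have := fca_arc (p := p) (M := M) (A := {x | x ∈ dsq p M ∧ e * τ ≤ e * co p M x 1})
    ((TP.const (-1)).max ((TP.const 1).min TP.id'))
    (((TP.const 1).min ((TP.const 2).sub TP.id'.abs)).const_mul e) (one_pos.trans hc)
    (P := fun u v => max |u| |v| = 1 ∧ e * τ ≤ e * v) (fun u v => u * (2 - e * v))
    (fun w => ?_) (fun w h => ?_) (fun u v h => ?_)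
    fun x => ⟨fun ⟨⟨k1, k2⟩, k3⟩ => ⟨k2, fca_norm k2 ▸ k1, k3⟩,
      fun ⟨k1, k2, k3⟩ => ⟨⟨(fca_norm k1).trans k2, k1⟩, k3⟩⟩
  · rwa [abs_neg, abs_of_pos (one_pos.trans hc), min_eq_left hc.le, sub_sub_cancel,
      min_eq_right (by linarith : -(2 - e * τ) ≤ 1), max_eq_left (by linarith),
      max_eq_right (by norm_num), min_eq_right (by linarith), he2] at this
  · rw [he2]
    rcases le_total w (-1) with k | k
    · rw [min_eq_right (by linarith), max_eq_left k, abs_of_neg (by linarith),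
        min_eq_right (by linarith)]
      ring
    rcases le_total w 1 with k' | k'
    · rw [min_eq_right k', max_eq_right k, min_eq_left (by linarith [abs_le.2 ⟨k, k'⟩])]
      ring
    · rw [min_eq_left k', max_eq_right (by norm_num), abs_of_pos (by linarith),
        min_eq_right (by linarith)]
      ring
  · rw [he2, hea]
    refine ⟨?_, le_min (by linarith) (by linarith)⟩
    rcases le_total |w| 1 with k | k
    · rw [min_eq_right (abs_le.1 k).2, max_eq_right (abs_le.1 k).1, min_eq_left (by linarith),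
        abs_one, max_eq_right k]
    · rw [min_eq_right (by linarith : 2 - |w| ≤ 1)]
      have h4 : abs (2 - |w|) ≤ 1 := abs_le.2 ⟨by linarith, by linarith⟩
      rcases le_abs'.1 k with k' | k'
      · rw [min_eq_right (by linarith), max_eq_left k', abs_neg, abs_one, max_eq_left h4]
      · rw [min_eq_left k', max_eq_right (by norm_num : (-1 : ℝ) ≤ 1), abs_one, max_eq_left h4]
  · obtain ⟨k1, k2⟩ := h
    have k3 : |u| ≤ 1 := k1 ▸ le_max_left _ _
    have k4 : e * v ≤ 1 := (le_abs_self _).trans ((hea v).le.trans (k1 ▸ le_max_right _ _))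
    rcases k4.eq_or_lt with k5 | k5
    · rw [k5, show u * (2 - 1) = u by ring, min_eq_right (abs_le.1 k3).2,
        max_eq_right (abs_le.1 k3).1, min_eq_left (by linarith), ← k5, he2]
      exact ⟨by linarith, rfl, rfl⟩
    · have k6 : |u| = 1 := (max_eq_iff.1 k1).elim And.left fun k =>
        absurd k.1 (hea v ▸ (abs_lt.2 ⟨by linarith, k5⟩).ne)
      rw [abs_mul, k6, one_mul, abs_of_pos (by linarith), sub_sub_cancel, min_eq_right k4, he2]
      refine ⟨by linarith, ?_, rfl⟩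
      rcases eq_or_eq_neg_of_abs_eq k6 with rfl | rfl
      · rw [min_eq_left (by linarith), max_eq_right (by norm_num)]
      · rw [min_eq_right (by linarith), max_eq_left (by linarith)]

theorem arc_upb (h0 : 0 < τ) (h1 : τ < 1) : Arc (upb p M τ) (qq p M (-1) τ) (qq p M 1 τ) := by
  simpa only [one_mul, upb] using fca_bd (p := p) (M := M) h0 h1 (.inl rfl)

theorem arc_lob (h0 : 0 < τ) (h1 : τ < 1) : Arc (lob p M τ) (qq p M (-1) τ) (qq p M 1 τ) := by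
  simpa only [neg_one_mul, neg_le_neg_iff, lob] using fca_bd (p := p) (M := M) h0 h1 (.inr rfl)

theorem fca_dsq {x : Rn 3} (hx : x ∈ dsq p M) : |co p M x 0| ≤ 1 ∧
    (|co p M x 0| = 1 ∨ co p M x 1 = 1 ∨ co p M x 1 = -1) := by
  have h := (fca_norm hx.2).symm.trans hx.1
  exact ⟨h ▸ le_max_left _ _, (max_eq_iff.1 h).imp And.left fun k => eq_or_eq_neg_of_abs_eq k.1⟩

theorem upb_sub (h0 : 0 < τ) (h1 : τ < 1) : upb p M τ = upq p M τ ∩ dsq p M := by
  ext x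
  refine ⟨fun ⟨k1, k2⟩ => ⟨⟨⟨k1.1.le, k1.2⟩, ?_⟩, k1⟩, fun ⟨⟨_, k2⟩, k1⟩ => ⟨k1, ?_⟩⟩
  · nlinarith [(fca_dsq k1).1]
  · have := mul_nonneg h0.le (abs_nonneg (co p M x 0))
    rcases (fca_dsq k1).2 with k | k | k
    · rwa [k, mul_one] at k2
    · linarith
    · linarith

theorem lob_sub (h0 : 0 < τ) (h1 : τ < 1) : lob p M τ = loq p M τ ∩ dsq p M := by
  ext x
  refine ⟨fun ⟨k1, k2⟩ => ⟨⟨⟨k1.1.le, k1.2⟩, ?_⟩, k1⟩, fun ⟨⟨_, k2⟩, k1⟩ => ⟨k1, ?_⟩⟩
  · have := mul_nonneg h0.le (abs_nonneg (co p M x 0))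
    rcases (fca_dsq k1).2 with k | k | k
    · rwa [k, mul_one]
    · linarith
    · linarith
  · nlinarith [(fca_dsq k1).1]

theorem dsq_level (h0 : 0 < τ) (h1 : τ < 1) {x : Rn 3} (hx : x ∈ dsq p M) (h : co p M x 1 = τ) :
    x = qq p M (-1) τ ∨ x = qq p M 1 τ := by
  have e := fca_eq hx.2
  rcases (fca_dsq hx).2 with k | k | k
  · exact (eq_or_eq_neg_of_abs_eq k).symm.imp (fun k => by rwa [k, h] at e) fun k => by
      rwa [k, h] at e
  · linarith
  · linarith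

theorem qq_dsq (h0 : 0 < τ) (h1 : τ < 1) {e : ℝ} (he : e = -1 ∨ e = 1) : qq p M e τ ∈ dsq p M := by
  have h : co p M (qq p M e τ) = ![e, τ, 0] := co_add _ _ _
  refine ⟨?_, h ▸ rfl⟩
  rw [h, fca_norm rfl]
  change max |e| |τ| = 1
  rw [abs_of_pos h0]
  rcases he with rfl | rfl <;> simp [h1.le]

theorem fca_conn {e : ℝ} (he : e * e = 1) :
    IsPreconnected {x | x ∈ sq p M ∧ 0 < e * (co p M x 1 - τ * |co p M x 0|)} := by
  have hn : ‖(![0, e, 0] : Rn 3)‖ ≤ 1 := by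
    rw [fca_norm rfl]
    exact max_le (by simp) (abs_le_one_iff_mul_self_le_one.2 he.le)
  have h : StarConvex ℝ (![0, e, 0] : Rn 3)
      {y | (‖y‖ ≤ 1 ∧ y 2 = 0) ∧ 0 < e * (y 1 - τ * |y 0|)} := fun y hy a b ha hb hab => by
    refine ⟨⟨mem_closedBall_zero_iff.1 (convex_closedBall 0 1 (mem_closedBall_zero_iff.2 hn)
      (mem_closedBall_zero_iff.2 hy.1.1) ha hb hab), by simp [hy.1.2]⟩, ?_⟩
    change 0 < e * (a * e + b * y 1 - τ * |a * 0 + b * y 0|)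
    rw [mul_zero, zero_add, abs_mul, abs_of_nonneg hb,
      show e * (a * e + b * y 1 - τ * (b * |y 0|)) = a + b * (e * (y 1 - τ * |y 0|)) by
        linear_combination a * he]
    rcases hb.eq_or_lt with rfl | hb'
    · linarith
    · exact add_pos_of_nonneg_of_pos ha (mul_pos hb' hy.2)
  have := (h.isPathConnected ⟨⟨hn, rfl⟩, by simp [he]⟩).isConnected.isPreconnected.image
    (fun y => p + M y) (by fun_prop)
  convert this using 1
  ext x
  refine ⟨fun k => ⟨co p M x, k, add_co _ _ _⟩, ?_⟩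
  rintro ⟨y, hy, rfl⟩
  simpa only [sq, mem_ofPred_eq, co_add] using hy

/-- The two halves of a square lie in different caps. The open upper half is convex, the open lower
half is star shaped about the lowest middle point, both miss `J`; the closed halves are their
closures. If both were in one cap, the other cap would not accumulate at `p` (`Len.cl`). -/
theorem side_sq (h0 : 0 < τ) (h1 : τ < 1) {B Dp Dm J : Set (Rn 3)} (hL : Len 2 B Dp Dm J)
    (hf : ∀ y : Rn 3, ‖y‖ ≤ 1 → (p + M y ∈ Dp ∪ Dm ↔ y 2 = 0)) (hJ : J ∩ sq p M = vee p M τ) :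
    (Dp ∩ sq p M = upq p M τ ∧ Dm ∩ sq p M = loq p M τ) ∨
      (Dm ∩ sq p M = upq p M τ ∧ Dp ∩ sq p M = loq p M τ) := by
  let A : ℝ → Set (Rn 3) := fun e => {x | x ∈ sq p M ∧ 0 < e * (co p M x 1 - τ * |co p M x 0|)}
  have hA : ∀ e, ∀ x ∈ A e, x ∉ J := fun e x hx k => by
    have := hx.2
    rw [(hJ.le ⟨k, hx.1⟩).2, sub_self, mul_zero] at this
    exact lt_irrefl _ this
  have tri : ∀ x ∈ sq p M, x ∈ A (-1) ∨ x ∈ J ∨ x ∈ A 1 := fun x hx =>
    (lt_trichotomy (co p M x 1) (τ * |co p M x 0|)).imp (fun k => ⟨hx, by linarith⟩)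
      (Or.imp (fun k => (hJ.ge ⟨hx, k⟩).1) fun k => ⟨hx, by linarith⟩)
  have one : ∀ e, e * e = 1 → A e ⊆ Dp ∨ A e ⊆ Dm := fun e he =>
    isPreconnected_iff_subset_of_disjoint_closed.1 (fca_conn he) _ _ hL.poly.1.isClosed
      hL.symm.poly.1.isClosed (fun x hx => add_co p M x ▸ (hf _ hx.1.1).2 hx.1.2)
      (eq_empty_of_forall_notMem fun x hx => hA e x hx.1 (hL.inter ▸ hx.2))
  have good : ∀ D D' : Set (Rn 3), D ∩ D' = J → A 1 ⊆ D → A (-1) ⊆ D' →
      D ∩ sq p M = upq p M τ ∧ D' ∩ sq p M = loq p M τ := fun D D' e k k' => by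
    refine ⟨Subset.antisymm (fun x hx => ⟨hx.2, le_of_not_gt fun l => ?_⟩) fun x hx => ⟨?_, hx.1⟩,
      Subset.antisymm (fun x hx => ⟨hx.2, le_of_not_gt fun l => ?_⟩) fun x hx => ⟨?_, hx.1⟩⟩
    · have : x ∈ A (-1) := ⟨hx.2, by linarith⟩
      exact hA _ x this (e ▸ ⟨hx.1, k' this⟩)
    · rcases tri x hx.1 with l | l | l
      exacts [absurd l.2 (by linarith [hx.2]), (e.ge l).1, k l]
    · have : x ∈ A 1 := ⟨hx.2, by linarith⟩
      exact hA _ x this (e ▸ ⟨k this, hx.1⟩)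
    · rcases tri x hx.1 with l | l | l
      exacts [k' l, (e.ge l).2, absurd l.2 (by linarith [hx.2])]
  have bad : ∀ D D' : Set (Rn 3), Len 2 B D D' J → D ⊆ Dp ∪ Dm → A 1 ⊆ D' → A (-1) ⊆ D' → False :=
    fun D D' e hD k k' => by
    have hp : p ∈ closure (D \ J) := by
      rw [e.cl]
      exact (e.inter.ge (hJ.ge ⟨⟨by simp, by simp⟩, by simp⟩).1).1
    obtain ⟨x, l1, l2, l3⟩ := mem_closure_iff.1 hp {x | ‖co p M x‖ < 1}
      (isOpen_lt (tp_co p M).continuous.norm continuous_const) (by simp)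
    rcases tri x ⟨le_of_lt l1, (hf _ (le_of_lt l1)).1 (by rw [add_co]; exact hD l2)⟩ with l | l | l
    exacts [l3 (e.inter.le ⟨l2, k' l⟩), l3 l, l3 (e.inter.le ⟨l2, k l⟩)]
  rcases one 1 (by norm_num) with k | k <;> rcases one (-1) (by norm_num) with k' | k'
  · exact (bad _ _ hL.symm subset_union_right k k').elim
  · exact .inl (good _ _ hL.inter k k')
  · exact .inr (good _ _ hL.symm.inter k k')
  · exact (bad _ _ hL subset_union_left k k').elim

end Sq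

theorem fcb_mem {m : ℕ} {β Y : ℕ → Set (Rn 3)} {x : Rn 3} :
    x ∈ chn m β Y ↔ (∃ j ≤ m, x ∈ β j) ∨ ∃ j < m, x ∈ Y (j + 1) := by
  simp only [chn, mem_union, mem_iUnion, mem_Iic, mem_Icc, exists_prop]
  refine or_congr_right ⟨?_, ?_⟩
  · rintro ⟨j, ⟨h1, h2⟩, h3⟩
    obtain ⟨k, rfl⟩ := Nat.exists_eq_add_of_le' h1
    exact ⟨k, h2, h3⟩
  · rintro ⟨j, h1, h2⟩
    exact ⟨j + 1, ⟨by omega, h1⟩, h2⟩

theorem fcb_succ (m : ℕ) (β Y : ℕ → Set (Rn 3)) :
    chn (m + 1) β Y = chn m β Y ∪ Y (m + 1) ∪ β (m + 1) := by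
  ext x
  simp only [mem_union, fcb_mem]
  constructor
  · rintro (⟨j, h1, h2⟩ | ⟨j, h1, h2⟩)
    · rcases Nat.le_succ_iff.1 h1 with k | rfl
      · exact Or.inl (Or.inl (Or.inl ⟨j, k, h2⟩))
      · exact Or.inr h2
    · rcases Nat.lt_succ_iff_lt_or_eq.1 h1 with k | rfl
      · exact Or.inl (Or.inl (Or.inr ⟨j, k, h2⟩))
      · exact Or.inl (Or.inr h2)
  · rintro (((⟨j, h1, h2⟩ | ⟨j, h1, h2⟩) | h) | h)
    · exact Or.inl ⟨j, by omega, h2⟩
    · exact Or.inr ⟨j, by omega, h2⟩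
    · exact Or.inr ⟨m, by omega, h⟩
    · exact Or.inl ⟨m + 1, le_rfl, h⟩

/-- Induction on `m` with `arc_glue`. -/
theorem arc_chain {m : ℕ} {β Y : ℕ → Set (Rn 3)} {s e : ℕ → Rn 3}
    (hβ : ∀ j ≤ m, Arc (β j) (s j) (e j)) (hY : ∀ j < m, Arc (Y (j + 1)) (e j) (s (j + 1)))
    (d1 : ∀ i ≤ m, ∀ j ≤ m, i ≠ j → Disjoint (β i) (β j))
    (d2 : ∀ i < m, ∀ j < m, i ≠ j → Disjoint (Y (i + 1)) (Y (j + 1)))
    (d3 : ∀ i ≤ m, ∀ j < m, ∀ x ∈ β i ∩ Y (j + 1),
      (i = j ∧ x = e j) ∨ (i = j + 1 ∧ x = s (j + 1))) :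
    Arc (chn m β Y) (s 0) (e m) := by
  induction m with
  | zero =>
    convert hβ 0 le_rfl using 1
    ext x
    simp [fcb_mem]
  | succ m ih =>
    have k := ih (fun j hj => hβ j (by omega)) (fun j hj => hY j (by omega))
      (fun i hi j hj => d1 i (by omega) j (by omega)) (fun i hi j hj => d2 i (by omega) j (by omega))
      fun i hi j hj => d3 i (by omega) j (by omega)
    have k1 := hY m (by omega)
    have k2 := hβ (m + 1) le_rfl
    rw [fcb_succ]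
    refine arc_glue (arc_glue k k1 (Subset.antisymm ?_ ?_)) k2 (Subset.antisymm ?_ ?_)
    · rintro x ⟨h1, h2⟩
      rcases fcb_mem.1 h1 with ⟨j, h3, h4⟩ | ⟨j, h3, h4⟩
      · rcases d3 j (by omega) m (by omega) x ⟨h4, h2⟩ with h5 | h5
        · exact h5.2
        · omega
      · exact (disjoint_left.1 (d2 j (by omega) m (by omega) (by omega)) h4 h2).elim
    · rintro _ rfl
      exact ⟨k.tarc.right, k1.tarc.left⟩
    · rintro x ⟨h1 | h1, h2⟩
      · rcases fcb_mem.1 h1 with ⟨j, h3, h4⟩ | ⟨j, h3, h4⟩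
        · exact (disjoint_left.1 (d1 j (by omega) (m + 1) le_rfl (by omega)) h4 h2).elim
        · rcases d3 (m + 1) le_rfl j (by omega) x ⟨h2, h4⟩ with h5 | h5 <;> omega
      · rcases d3 (m + 1) le_rfl m (by omega) x ⟨h2, h1⟩ with h5 | h5
        · omega
        · exact h5.2
    · rintro _ rfl
      exact ⟨Or.inr k1.tarc.right, k2.tarc.left⟩

section Ch
variable {S : Set (Rn 3)} {m : ℕ} {p : ℕ → Rn 3} {M : ℕ → Rn 3 ≃L[ℝ] Rn 3} {χ : Rn 3 → Rn 2}
  {c ρ : ℕ → ℝ} {t : ℝ} {β : ℕ → Set (Rn 3)}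

theorem ChH.lt (h : ChH S m p M χ c ρ) {i j : ℕ} (hi : 1 ≤ i) (hij : i < j) (hj : j ≤ m) :
    c i + ρ i < c j - ρ j := by
  induction j, hij using Nat.le_induction with
  | base => exact h.sp i hi hj
  | succ j hij ih =>
    have k1 := ih (by omega)
    have k2 := h.sp j (by omega) hj
    have k3 := h.pos j (by omega)
    linarith

theorem fcb_le (h : ChH S m p M χ c ρ) {i j : ℕ} (hi : 1 ≤ i) (hij : i ≤ j) (hj : j ≤ m) :
    c i ≤ c j := by
  rcases hij.lt_or_eq with k | rfl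
  · have k1 := h.lt hi k hj
    have k2 := h.pos i (by omega)
    have k3 := h.pos j hj
    linarith
  · exact le_rfl

/-- Different gaps meet only in punctures. -/
theorem ChH.gap_eq (h : ChH S m p M χ c ρ) {i j : ℕ} (hi : i ≤ m) (hj : j ≤ m) {τ : ℝ}
    (g1 : gap c m i τ) (g2 : gap c m j τ) (hτ : ∀ k, 1 ≤ k → k ≤ m → τ ≠ c k) : i = j := by
  wlog k : i ≤ j generalizing i j
  · exact (this hj hi g2 g1 (by omega)).symm
  by_contra k'
  exact hτ j (by omega) hj (le_antisymm ((g1.2 (by omega)).trans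
    (fcb_le h (by omega) (by omega) hj)) (g2.1 (by omega)))

theorem fgap_exists (c : ℕ → ℝ) (m : ℕ) (τ : ℝ) : ∃ j ≤ m, gap c m j τ := by
  induction m with
  | zero => exact ⟨0, le_rfl, fun k => (k rfl).elim, fun k => (k rfl).elim⟩
  | succ m ih =>
    obtain ⟨j, h1, h2⟩ := ih
    by_cases k : τ ≤ c (j + 1)
    · exact ⟨j, by omega, h2.1, fun _ => k⟩
    · obtain rfl : j = m := by
        by_contra k'
        exact k (h2.2 k')
      exact ⟨j + 1, le_rfl, fun _ => (not_le.1 k).le, fun k' => (k' rfl).elim⟩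

theorem fcb_qq (h : ChH S m p M χ c ρ) (t0 : 0 < t) (t1 : ∀ j ≤ m, t < ρ j) {i : ℕ} (hi : i ≤ m)
    {e : ℝ} (he : e = -1 ∨ e = 1) : qq (p i) (M i) e (t / ρ i) ∈ dsq (p i) (M i) ∧
      χ (qq (p i) (M i) e (t / ρ i)) 0 = c i + ρ i * e ∧ χ (qq (p i) (M i) e (t / ρ i)) 1 = t := by
  have h0 := h.pos i hi
  have k := qq_dsq (p := p i) (M := M i) (div_pos t0 h0) ((div_lt_one h0).2 (t1 i hi)) he
  refine ⟨k, ?_⟩
  rw [h.aff i hi _ ⟨k.1.le, k.2⟩]
  simp [qq, mul_div_cancel₀ _ h0.ne']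

/-- A boundary point of a square at level `t` over the gap `j` is an end of that gap. -/
theorem ChH.ends (h : ChH S m p M χ c ρ) (t0 : 0 < t) (t1 : ∀ j ≤ m, t < ρ j) {i j : ℕ}
    (hi : i ≤ m) (hj : j ≤ m) {x : Rn 3} (hx : x ∈ dsq (p i) (M i)) (ht : χ x 1 = t)
    (hg : gap c m j (χ x 0)) :
    (x = gs p M ρ t j ∧ i = j) ∨ (x = ge m p M ρ t j ∧ i = if j = m then 0 else j + 1) := by
  have h0 := h.pos i hi
  have k : co (p i) (M i) x 1 = t / ρ i := by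
    rw [h.aff i hi x ⟨hx.1.le, hx.2⟩] at ht
    rw [← ht]
    simp [h0.ne']
  rcases dsq_level (div_pos t0 h0) ((div_lt_one h0).2 (t1 i hi)) hx k with rfl | rfl
  · rw [(fcb_qq h t0 t1 hi (Or.inl rfl)).2.1] at hg
    rcases Nat.eq_zero_or_pos i with rfl | i0
    · obtain rfl : j = 0 := by
        by_contra k'
        have k1 := hg.1 k'
        have k2 := h.big j (by omega) hj
        have k3 := h.pos j hj
        have k4 := neg_abs_le (c j)
        rw [h.c0] at k1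
        linarith
      exact Or.inl ⟨by simp [gs], rfl⟩
    · obtain rfl : i = j + 1 := by
        by_contra k'
        rcases lt_or_gt_of_ne k' with k1 | k1
        · have k2 := hg.1 (by omega)
          have k3 := fcb_le h i0 (by omega : i ≤ j) hj
          linarith
        · have k2 := hg.2 (by omega)
          have k3 := h.lt (by omega) k1 hi
          have k4 := h.pos (j + 1) (by omega)
          linarith
      have k1 : j ≠ m := by omega
      exact Or.inr ⟨by simp [ge, k1], by simp [k1]⟩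
  · rw [(fcb_qq h t0 t1 hi (Or.inr rfl)).2.1] at hg
    rcases Nat.eq_zero_or_pos i with rfl | i0
    · obtain rfl : j = m := by
        by_contra k'
        have k1 := hg.2 k'
        have k2 := h.big (j + 1) (by omega) (by omega)
        have k3 := h.pos (j + 1) (by omega)
        have k4 := le_abs_self (c (j + 1))
        rw [h.c0] at k1
        linarith
      exact Or.inr ⟨by simp [ge], by simp⟩
    · obtain rfl : i = j := by
        by_contra k'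
        rcases lt_or_gt_of_ne k' with k1 | k1
        · have k2 := hg.1 (by omega)
          have k3 := h.lt i0 k1 hj
          have k4 := h.pos j hj
          linarith
        · have k2 := hg.2 (by omega)
          have k3 := fcb_le h (by omega : 1 ≤ j + 1) k1 hi
          linarith
      exact Or.inl ⟨by simp [gs, i0.ne'], rfl⟩

theorem fcb_poly {X : Set (Rn 3)} (hX : Poly X) (P : Prop) {u v : Rn 3 → ℝ} (hu : TP u)
    (hv : TP v) : Poly {x ∈ X | P → u x ≤ v x} := by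
  by_cases k : P
  · simpa [k] using poly_le hX (hu.sub hv)
  · simpa [k] using hX

theorem fcb_chord (h : ChH S m p M χ c ρ) (t0 : 0 < t) (t1 : ∀ j ≤ m, t < ρ j) {i : ℕ}
    (hi : i ≤ m) : Chord (p i) (M i) (fun x => χ x 1) t := by
  have h0 := h.pos i hi
  have e : (ρ i • ContinuousLinearMap.proj 1 : Rn 2 →L[ℝ] ℝ) ![0, t / ρ i] = t := by
    simp [mul_div_cancel₀ _ h0.ne']
  refine ⟨ρ i • ContinuousLinearMap.proj 1, 0, fun k => ?_, fun y hy => ?_, ![0, t / ρ i], ?_,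
    (add_zero _).trans e⟩
  · rw [k] at e
    exact t0.ne e
  · beta_reduce
    rw [h.aff i hi _ ⟨by simpa [norm_mk3] using hy, by simp⟩]
    simp
  · rw [p2b_norm]
    simpa [abs_of_pos (div_pos t0 h0)] using (div_lt_one h0).2 (t1 i hi)

theorem fcb_ends (h : ChH S m p M χ c ρ) (t0 : 0 < t) (t1 : ∀ j ≤ m, t < ρ j) {j : ℕ}
    (hj : j ≤ m) : (∀ x, x = gs p M ρ t j ∨ x = ge m p M ρ t j →
      (∃ i ≤ m, x ∈ dsq (p i) (M i)) ∧ χ x 1 = t ∧ gap c m j (χ x 0)) ∧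
      χ (gs p M ρ t j) 0 < χ (ge m p M ρ t j) 0 := by
  have h0 := h.pos 0 (by omega)
  have s1 : gs p M ρ t j ∈ dsq (p j) (M j) ∧
      χ (gs p M ρ t j) 0 = (if j = 0 then -ρ 0 else c j + ρ j) ∧ χ (gs p M ρ t j) 1 = t := by
    unfold gs
    split_ifs with k
    · subst k
      simpa [h.c0] using fcb_qq h t0 t1 hj (Or.inl rfl)
    · simpa using fcb_qq h t0 t1 hj (Or.inr rfl)
  have s2 : (∃ i ≤ m, ge m p M ρ t j ∈ dsq (p i) (M i)) ∧
      χ (ge m p M ρ t j) 0 = (if j = m then ρ 0 else c (j + 1) - ρ (j + 1)) ∧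
        χ (ge m p M ρ t j) 1 = t := by
    unfold ge
    split_ifs with k
    · have := fcb_qq h t0 t1 (Nat.zero_le m) (Or.inr rfl)
      exact ⟨⟨0, by omega, this.1⟩, by simpa [h.c0] using this.2⟩
    · have := fcb_qq h t0 t1 (by omega : j + 1 ≤ m) (Or.inl rfl)
      exact ⟨⟨j + 1, by omega, this.1⟩, by simpa [sub_eq_add_neg] using this.2⟩
  have s3 : χ (gs p M ρ t j) 0 < χ (ge m p M ρ t j) 0 := by
    rw [s1.2.1, s2.2.1]
    split_ifs with k k' k'
    · linarith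
    · have k1 := h.big (j + 1) (by omega) (by omega)
      have k2 := neg_abs_le (c (j + 1))
      linarith
    · have k1 := h.big j (by omega) hj
      have k2 := le_abs_self (c j)
      linarith
    · exact h.sp j (by omega) (by omega)
  have s4 : j ≠ 0 → c j ≤ χ (gs p M ρ t j) 0 := fun k => by
    rw [s1.2.1, if_neg k]
    linarith [h.pos j hj]
  have s5 : j ≠ m → χ (ge m p M ρ t j) 0 ≤ c (j + 1) := fun k => by
    rw [s2.2.1, if_neg k]
    linarith [h.pos (j + 1) (by omega)]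
  refine ⟨?_, s3⟩
  rintro x (rfl | rfl)
  · exact ⟨⟨j, hj, s1.1⟩, s1.2.2, s4, fun k => s3.le.trans (s5 k)⟩
  · exact ⟨s2.1, s2.2.2, fun k => (s4 k).trans s3.le, s5⟩

/-- Choose `t` small (compactness of the holed sphere and `av`) and generic (`gen_level` for
`χ · 1`); apply `hol_arc` to `Z j = {x ∈ hol | χ x 1 = t ∧ gap c m j (χ x 0)}` (a polyhedron; near
its points the inequalities of the gap are strict). -/
theorem chain_arcs (hS : Sph S) (h : ChH S m p M χ c ρ) :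
    ∃ (t : ℝ) (β : ℕ → Set (Rn 3)), ChA S m p M χ c ρ t β := by
  have hP := h.hl.poly hS.surf.poly
  have g0 : TP fun x => χ x 0 := h.tp.apply 0
  have g1 : TP fun x => χ x 1 := h.tp.apply 1
  have e1 : ∀ᶠ t in 𝓝 (0 : ℝ), ∀ j ∈ Iic m, t < ρ j :=
    (eventually_all_finite (finite_Iic m)).2 fun j hj => eventually_lt_nhds (h.pos j hj)
  have e2 : ∀ᶠ t in 𝓝 (0 : ℝ), ∀ j ∈ Icc 1 m, ∀ x ∈ hol S (Iic m) p M, χ x 0 = c j →
      t < |χ x 1| := by
    refine (eventually_all_finite (finite_Icc 1 m)).2 fun j hj => ?_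
    obtain ⟨a, a0, ha⟩ := (poly_eq hP g0 (c j)).1.exists_forall_le' (a := 0)
      g1.continuous.abs.continuousOn fun x hx => abs_pos.2 fun k =>
        h.av x hx.1 j hj (p2c_ext.2 ⟨hx.2, k⟩)
    exact (eventually_lt_nhds a0).mono fun t ht x hx k => ht.trans_le (ha x ⟨hx, k⟩)
  have e3 : ∀ᶠ t in 𝓝[>] (0 : ℝ), t ∉ {t | ∃ x ∈ S, χ x 1 = t ∧ ¬ Rg S (fun x => χ x 1) x} :=
    ((nhdsGT_le_nhdsNE 0).trans (nhdsNE_le_cofinite 0)) (gen_level hS.surf g1).compl_mem_cofinite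
  obtain ⟨t, ⟨⟨t1, t2⟩, t3⟩, t0⟩ := ((((e1.and e2).filter_mono nhdsWithin_le_nhds).and e3).and
    (self_mem_nhdsWithin : Ioi (0 : ℝ) ∈ 𝓝[>] 0)).exists
  replace t0 : 0 < t := t0
  have key : ∀ j ≤ m, ∃ A, A ⊆ {x | x ∈ hol S (Iic m) p M ∧ χ x 1 = t ∧ gap c m j (χ x 0)} ∧
      Arc A (gs p M ρ t j) (ge m p M ρ t j) := by
    intro j hj
    obtain ⟨k1, k2⟩ := fcb_ends h t0 t1 hj
    have k3 : ∀ x, x = gs p M ρ t j ∨ x = ge m p M ρ t j →
        x ∈ {x | x ∈ hol S (Iic m) p M ∧ χ x 1 = t ∧ gap c m j (χ x 0)} := fun x hx =>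
      ⟨(k1 x hx).1.elim fun i hi => h.hl.dsq_sub hi.1 hi.2, (k1 x hx).2⟩
    refine hol_arc h.hl hS.surf.poly g1 (t := t)
      (fun x hx e => by_contra fun k => t3 ⟨x, hx, e, k⟩) ?_ (fun x hx => ?_) (k3 _ (Or.inl rfl))
      (k3 _ (Or.inr rfl)) (fun e => k2.ne (by rw [e]))
      (fun x hx i hi hx' => (h.ends t0 t1 hi hj hx' hx.2.1 hx.2.2).imp And.left And.left)
      fun x hx => (k1 x hx).1.imp fun i hi => ⟨hi.1, hi.2, fcb_chord h t0 t1 hi.1⟩
    · convert fcb_poly (fcb_poly (poly_eq hP g1 t) (j ≠ 0) (TP.const (c j)) g0) (j ≠ m) g0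
        (TP.const (c (j + 1))) using 1
      ext x
      simp only [gap, mem_ofPred_eq, and_assoc]
    · have k4 : ∀ i, 1 ≤ i → i ≤ m → χ x 0 ≠ c i := fun i h1 h2 e => by
        have := t2 i ⟨h1, h2⟩ x hx.1 e
        rw [hx.2.1, abs_of_pos t0] at this
        exact lt_irrefl _ this
      have k5 : ∀ᶠ y in 𝓝 x, j ≠ 0 → c j ≤ χ y 0 := eventually_imp_distrib_left.2 fun k =>
        (continuousAt_const.eventually_lt g0.continuous.continuousAt
          (lt_of_le_of_ne (hx.2.2.1 k) (k4 j (by omega) hj).symm)).mono fun _ => le_of_lt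
      have k6 : ∀ᶠ y in 𝓝 x, j ≠ m → χ y 0 ≤ c (j + 1) := eventually_imp_distrib_left.2 fun k =>
        (g0.continuous.continuousAt.eventually_lt continuousAt_const
          (lt_of_le_of_ne (hx.2.2.2 k) (k4 (j + 1) (by omega) (by omega)))).mono fun _ => le_of_lt
      filter_upwards [k5, k6] with y h1 h2
      exact ⟨fun k => ⟨k.1, k.2.1⟩, fun k => ⟨k.1, k.2, h1, h2⟩⟩
  choose! β b1 b2 using key
  exact ⟨t, β, t0, t1, fun x hx j h1 h2 => t2 j ⟨h1, h2⟩ x hx, b2, fun j hj x hx => b1 j hj hx⟩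

theorem fcc_ends (h : ChH S m p M χ c ρ) (a : ChA S m p M χ c ρ t β) {i j : ℕ} (hi : i ≤ m)
    (hj : j ≤ m) {x : Rn 3} (hx : x ∈ β j) (hs : x ∈ sq (p i) (M i)) :
    (x = gs p M ρ t j ∧ i = j) ∨ (x = ge m p M ρ t j ∧ i = if j = m then 0 else j + 1) :=
  h.ends a.t0 a.t1 hi hj ((h.hl.inter hi).le ⟨(a.sub j hj x hx).1, hs⟩) (a.sub j hj x hx).2.1
    (a.sub j hj x hx).2.2

theorem fcc_sq (h : ChH S m p M χ c ρ) {i j : ℕ} (hi : i ≤ m) (hj : j ≤ m) {x : Rn 3}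
    (h1 : x ∈ sq (p i) (M i)) (h2 : x ∈ sq (p j) (M j)) : i = j :=
  by_contra fun e => disjoint_left.1 (h.hl.disj i hi j hj e) h1.1 h2.1

theorem fcc_tau (h : ChH S m p M χ c ρ) (a : ChA S m p M χ c ρ t β) {j : ℕ} (hj : j ≤ m) :
    0 < t / ρ j ∧ t / ρ j < 1 :=
  ⟨div_pos a.t0 (h.pos j hj), (div_lt_one (h.pos j hj)).2 (a.t1 j hj)⟩

/-- The chain through arcs of the squares joining the two ends of the chords. -/
theorem ChA.chain (h : ChH S m p M χ c ρ) (a : ChA S m p M χ c ρ t β) {Y : ℕ → Set (Rn 3)}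
    (hY : ∀ j, 1 ≤ j → j ≤ m → Y j ⊆ sq (p j) (M j) ∧
      Arc (Y j) (qq (p j) (M j) (-1) (t / ρ j)) (qq (p j) (M j) 1 (t / ρ j))) :
    Arc (chn m β Y) (qq (p 0) (M 0) (-1) (t / ρ 0)) (qq (p 0) (M 0) 1 (t / ρ 0)) ∧
      chn m β Y ∩ sq (p 0) (M 0) =
        {qq (p 0) (M 0) (-1) (t / ρ 0), qq (p 0) (M 0) 1 (t / ρ 0)} := by
  have e0 : gs p M ρ t 0 = qq (p 0) (M 0) (-1) (t / ρ 0) := if_pos rfl
  have e1 : ge m p M ρ t m = qq (p 0) (M 0) 1 (t / ρ 0) := if_pos rfl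
  have hA : Arc (chn m β Y) (gs p M ρ t 0) (ge m p M ρ t m) := by
    refine arc_chain a.arc (fun j hj => ?_) (fun i hi j hj e => disjoint_left.2 fun x h1 h2 => e ?_)
      (fun i hi j hj e => disjoint_left.2 fun x h1 h2 => e ?_) fun i hi j hj x hx => ?_
    · rw [ge, gs, if_neg hj.ne, if_neg j.succ_ne_zero]
      exact (hY (j + 1) (by omega) hj).2
    · obtain ⟨k1, k2, k3⟩ := a.sub i hi x h1
      refine h.gap_eq hi hj k3 (a.sub j hj x h2).2.2 fun k k4 k5 k6 => ?_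
      have := a.far x k1 k k4 k5 k6
      rw [k2, abs_of_pos a.t0] at this
      exact lt_irrefl _ this
    · exact Nat.succ_injective
        (fcc_sq h hi hj ((hY _ (by omega) hi).1 h1) ((hY _ (by omega) hj).1 h2))
    · rcases fcc_ends h a hj hi hx.1 ((hY _ (by omega) hj).1 hx.2) with ⟨k1, k2⟩ | ⟨k1, k2⟩
      · subst k2
        exact Or.inr ⟨rfl, k1⟩
      · split_ifs at k2
        obtain rfl : i = j := by omega
        exact Or.inl ⟨rfl, k1⟩
  rw [e0, e1] at hA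
  refine ⟨hA, Subset.antisymm ?_ ?_⟩
  · rintro x ⟨hx | hx, hs⟩
    · obtain ⟨j, hj, hx⟩ := mem_iUnion₂.1 hx
      rcases fcc_ends h a m.zero_le hj hx hs with ⟨k1, rfl⟩ | ⟨k1, k2⟩
      · exact Or.inl (k1.trans e0)
      · split_ifs at k2 with k3
        subst k3
        exact Or.inr (k1.trans e1)
    · obtain ⟨j, hj, hx⟩ := mem_iUnion₂.1 hx
      have := fcc_sq h m.zero_le hj.2 hs ((hY j hj.1 hj.2).1 hx)
      have := hj.1
      omega
  · obtain ⟨k1, k2⟩ := fcc_tau h a m.zero_le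
    rintro x (rfl | rfl)
    · exact ⟨hA.tarc.left, (arc_vee k1 k2).tarc.left.1⟩
    · exact ⟨hA.tarc.right, (arc_vee k1 k2).tarc.right.1⟩

theorem fcc_level {q x : Rn 3} {N : Rn 3 ≃L[ℝ] Rn 3} {τ : ℝ} (h0 : 0 < τ) (h1 : τ < 1)
    (hx : x ∈ vee q N τ) (hd : x ∈ dsq q N) : x = qq q N (-1) τ ∨ x = qq q N 1 τ := by
  refine dsq_level h0 h1 hd ?_
  have k0 : |co q N x 0| ≤ 1 := (norm_le_pi_norm (co q N x) 0).trans hd.1.le
  rcases k0.eq_or_lt with k1 | k1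
  · rw [hx.2, k1, mul_one]
  · refine absurd ((pi_norm_lt_iff one_pos).2 fun i => ?_) hd.1.not_lt
    obtain rfl | rfl | rfl : i = 0 ∨ i = 1 ∨ i = 2 := by omega
    · exact k1
    · rw [hx.2, Real.norm_eq_abs, abs_mul, abs_abs, abs_of_pos h0]
      nlinarith [abs_nonneg (co q N x 0)]
    · rw [hd.2, norm_zero]
      exact one_pos

/-- The circle through the marks. -/
theorem ChA.circle (h : ChH S m p M χ c ρ) (a : ChA S m p M χ c ρ t β) {J : Set (Rn 3)}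
    (hJ : J = chn m β (fun j => vee (p j) (M j) (t / ρ j)) ∪ vee (p 0) (M 0) (t / ρ 0)) :
    Crc J ∧ J ⊆ S ∧ (∀ j ≤ m, J ∩ sq (p j) (M j) = vee (p j) (M j) (t / ρ j)) ∧
      J ∩ hol S (Iic m) p M = ⋃ j ∈ Iic m, β j := by
  have hv : ∀ j ≤ m, Arc (vee (p j) (M j) (t / ρ j)) (qq (p j) (M j) (-1) (t / ρ j))
      (qq (p j) (M j) 1 (t / ρ j)) := fun j hj => arc_vee (fcc_tau h a hj).1 (fcc_tau h a hj).2
  obtain ⟨h1, h2⟩ := ChA.chain h a (Y := fun j => vee (p j) (M j) (t / ρ j))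
    fun j _ hj => ⟨fun x hx => hx.1, hv j hj⟩
  have hm : ∀ x, x ∈ J ↔ (∃ j ≤ m, x ∈ β j) ∨ ∃ j ≤ m, x ∈ vee (p j) (M j) (t / ρ j) := fun x => by
    rw [hJ]
    constructor
    · rintro ((hx | hx) | hx)
      · obtain ⟨j, hj, hx⟩ := mem_iUnion₂.1 hx
        exact Or.inl ⟨j, hj, hx⟩
      · obtain ⟨j, hj, hx⟩ := mem_iUnion₂.1 hx
        exact Or.inr ⟨j, hj.2, hx⟩
      · exact Or.inr ⟨0, m.zero_le, hx⟩
    · rintro (⟨j, hj, hx⟩ | ⟨j, hj, hx⟩)
      · exact Or.inl (Or.inl (mem_iUnion₂.2 ⟨j, hj, hx⟩))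
      · rcases j.eq_zero_or_pos with rfl | h0
        · exact Or.inr hx
        · exact Or.inl (Or.inr (mem_iUnion₂.2 ⟨j, ⟨h0, hj⟩, hx⟩))
  refine ⟨hJ ▸ crc_glue h1 (hv 0 m.zero_le) (Subset.antisymm (fun x hx => h2.le ⟨hx.1, hx.2.1⟩) ?_),
    fun x hx => ?_, fun j hj => Subset.antisymm (fun x hx => ?_)
      fun x hx => ⟨(hm x).2 (Or.inr ⟨j, hj, hx⟩), hx.1⟩, Subset.antisymm (fun x hx => ?_) ?_⟩
  · rintro x (rfl | rfl)
    · exact ⟨h1.tarc.left, (hv 0 m.zero_le).tarc.left⟩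
    · exact ⟨h1.tarc.right, (hv 0 m.zero_le).tarc.right⟩
  · rcases (hm x).1 hx with ⟨j, hj, hx⟩ | ⟨j, hj, hx⟩
    · exact (a.sub j hj x hx).1.1
    · exact h.hl.sq_sub hj hx.1
  · rcases (hm x).1 hx.1 with ⟨k, hk, h3⟩ | ⟨k, hk, h3⟩
    · rcases fcc_ends h a hj hk h3 hx.2 with ⟨rfl, rfl⟩ | ⟨rfl, rfl⟩
      · unfold gs
        split_ifs with e
        · subst e
          exact (hv 0 hj).tarc.left
        · exact (hv j hj).tarc.right
      · unfold ge
        split_ifs at hj ⊢ with e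
        · exact (hv 0 hj).tarc.right
        · exact (hv _ hj).tarc.left
    · rwa [fcc_sq h hj hk hx.2 h3.1]
  · rcases (hm x).1 hx.1 with ⟨k, hk, h3⟩ | ⟨k, hk, h3⟩
    · exact mem_iUnion₂.2 ⟨k, hk, h3⟩
    have h4 := fcc_level (fcc_tau h a hk).1 (fcc_tau h a hk).2 h3 ((h.hl.inter hk).le ⟨hx.2, h3.1⟩)
    rcases k with _ | k
    · rcases h4 with h4 | h4
      · refine mem_iUnion₂.2 ⟨0, hk, ?_⟩
        have := (a.arc 0 hk).tarc.left
        rwa [gs, if_pos rfl, ← h4] at this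
      · refine mem_iUnion₂.2 ⟨m, le_refl m, ?_⟩
        have := (a.arc m le_rfl).tarc.right
        rwa [ge, if_pos rfl, ← h4] at this
    · rcases h4 with h4 | h4
      · refine mem_iUnion₂.2 ⟨k, Nat.le_of_succ_le hk, ?_⟩
        have := (a.arc k (Nat.le_of_succ_le hk)).tarc.right
        rwa [ge, if_neg (Nat.ne_of_lt hk), ← h4] at this
      · refine mem_iUnion₂.2 ⟨k + 1, hk, ?_⟩
        have := (a.arc (k + 1) hk).tarc.left
        rwa [gs, if_neg k.succ_ne_zero, ← h4] at this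
  · exact iUnion₂_subset fun j hj x hx => ⟨(hm x).2 (Or.inl ⟨j, hj, hx⟩), (a.sub j hj x hx).1⟩

end Ch

end BEp
end
end

-- merged part: Pool.Agent.Work.MP_f0515e_an.D3.FCh2
section
/-! Normal form of a map of the holed sphere to the punctured plane, and the retraction. -/

open Set Metric Filter Topology Function BEv
open scoped NNReal

noncomputable section
namespace BEp

section Ch
variable {B S : Set (Rn 3)} {m : ℕ} {p : ℕ → Rn 3} {M : ℕ → Rn 3 ≃L[ℝ] Rn 3} {χ : Rn 3 → Rn 2}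
  {c ρ : ℕ → ℝ} {t : ℝ} {β : ℕ → Set (Rn 3)} {Dp Dm J : Set (Rn 3)}

theorem fda_co (p : Rn 3) (M : Rn 3 ≃L[ℝ] Rn 3) (y : Rn 3) : co p M (p + M y) = y := by
  rw [co, add_sub_cancel_left, M.symm_apply_apply]

theorem fda_col (h : ChH S m p M χ c ρ) {i j : ℕ} (i1 : 1 ≤ i) (hi : i ≤ m) (j1 : 1 ≤ j)
    (hj : j ≤ m) {x : Rn 3} (hx : x ∈ sq (p i) (M i)) (e : χ x 0 = c j) :
    i = j ∧ co (p i) (M i) x 0 = 0 := by
  have e0 : χ x 0 = c i + ρ i * co (p i) (M i) x 0 := congrFun (h.aff i hi x hx) 0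
  have b := abs_le.1 ((norm_le_pi_norm (co (p i) (M i) x) 0).trans hx.1)
  have pi := h.pos i hi
  have pj := h.pos j hj
  rcases lt_trichotomy i j with l | rfl | l
  · have := h.lt i1 l hj
    nlinarith [b.2]
  · exact ⟨rfl, (mul_eq_zero.1 (by linarith : ρ i * co (p i) (M i) x 0 = 0)).resolve_left pi.ne'⟩
  · have := h.lt j1 l hi
    nlinarith [b.1]

/-- All upper halves lie in the same cap. Otherwise `Dp ∩ sq j = loq j` for some `j ≥ 1`
(`side_sq`); apply `no_wind` on `Dp` (`Len.pdsc`, `PCel.lift`) to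
`θ = χ - (c j, t / 2)` on `Dp ∩ (hol ∪ ⋃ i ≥ 1, sq i)` and `θ = (χ 0, max (χ 1) t) - (c j, t / 2)` on
`Dp ∩ sq 0` (`glue_two`), `L₁` the chain through the bent chords, `L₂` the bent chord of the
square `0`. -/
theorem ChA.signs (h : ChH S m p M χ c ρ) (a : ChA S m p M χ c ρ t β) (hL : Len 2 B Dp Dm J)
    (hu : Dp ∪ Dm = S)
    (hJ : J = chn m β (fun j => vee (p j) (M j) (t / ρ j)) ∪ vee (p 0) (M 0) (t / ρ 0))
    (h0 : Dp ∩ sq (p 0) (M 0) = upq (p 0) (M 0) (t / ρ 0)) {j : ℕ} (hj : j ≤ m) :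
    Dp ∩ sq (p j) (M j) = upq (p j) (M j) (t / ρ j) ∧
      Dm ∩ sq (p j) (M j) = loq (p j) (M j) (t / ρ j) := by
  have τ0 : ∀ i ≤ m, 0 < t / ρ i := fun i hi => div_pos a.t0 (h.pos i hi)
  have τ1 : ∀ i ≤ m, t / ρ i < 1 := fun i hi => (div_lt_one (h.pos i hi)).2 (a.t1 i hi)
  have z := Nat.zero_le m
  refine (side_sq (τ0 j hj) (τ1 j hj) hL (hu ▸ h.hl.flat j hj)
    ((a.circle h hJ).2.2.1 j hj)).resolve_right fun k => ?_
  have k := k.2
  rcases Nat.eq_zero_or_pos j with rfl | j1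
  · have n : ‖(![0, 1, 0] : Rn 3)‖ ≤ 1 := (pi_norm_le_iff_of_nonneg zero_le_one).2 fun i => by
      fin_cases i <;> simp
    have e : p 0 + M 0 ![0, 1, 0] ∈ upq (p 0) (M 0) (t / ρ 0) := by
      refine ⟨⟨?_, ?_⟩, ?_⟩ <;> rw [fda_co]
      exacts [n, rfl, by simp]
    rw [← h0, k] at e
    have e' := e.2
    rw [fda_co] at e'
    norm_num at e'
  have cD := hL.poly.1.isClosed
  have cχ := h.tp.continuous
  have t0 := a.t0
  have sS : Dp ⊆ S := hu ▸ subset_union_left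
  have sJ : J ⊆ Dp := hL.inter ▸ inter_subset_left
  obtain ⟨θ, hθ, e1, e2⟩ := glue_two (A := Dp ∩ {x | 1 ≤ ‖co (p 0) (M 0) x‖})
    (B := Dp ∩ sq (p 0) (M 0))
    (cD.inter (isClosed_le continuous_const (tp_co _ _).continuous.norm))
    (cD.inter (poly_sq _ _).1.isClosed) (u := fun x => (![χ x 0 - c j, χ x 1 - t / 2] : Rn 2))
    (v := fun x => ![χ x 0 - c j, max (χ x 1) t - t / 2]) (by fun_prop) (by fun_prop)
    fun x hx => by
      have b : x ∈ upb (p 0) (M 0) (t / ρ 0) := by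
        rw [upb_sub (τ0 0 z) (τ1 0 z), ← h0]
        exact ⟨hx.2, hx.2.2.1.antisymm hx.1.2, hx.2.2.2⟩
      have e : χ x 1 = ρ 0 * co (p 0) (M 0) x 1 := congrFun (h.aff 0 z x hx.2.2) 1
      have l : t ≤ χ x 1 := by
        rw [e]
        exact (div_le_iff₀' (h.pos 0 z)).1 b.2
      simp only [max_eq_left l]
  have up : ∀ x ∈ Dp ∩ sq (p 0) (M 0), θ x 0 = χ x 0 - c j ∧ 0 < θ x 1 := fun x hx => by
    rw [e2 hx]
    refine ⟨rfl, ?_⟩
    change 0 < max (χ x 1) t - t / 2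
    linarith [le_max_right (χ x 1) t]
  have ho : ∀ x ∈ Dp, x ∈ hol S (Iic m) p M → θ x 0 = 0 → χ x 1 - t / 2 = θ x 1 ∧ t < |χ x 1| :=
    fun x hx hh e => by
      rw [e1 ⟨hx, hh.2 0 z⟩] at e ⊢
      exact ⟨rfl, a.far x hh j j1 hj (sub_eq_zero.1 e)⟩
  have lo : ∀ x ∈ Dp, ∀ i, 1 ≤ i → i ≤ m → x ∈ sq (p i) (M i) → θ x 0 = 0 → θ x 1 < 0 :=
    fun x hx i i1 hi hs e => by
      have b : 1 ≤ ‖co (p 0) (M 0) x‖ := (not_le.1 fun l => disjoint_left.1
        (h.hl.disj 0 z i hi (by omega)) l hs.1).le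
      rw [e1 ⟨hx, b⟩] at e ⊢
      obtain ⟨rfl, e0⟩ := fda_col h i1 hi j1 hj hs (sub_eq_zero.1 e)
      have l := (k.subset ⟨hx, hs⟩).2
      rw [e0, abs_zero, mul_zero] at l
      have e' : χ x 1 = ρ i * co (p i) (M i) x 1 := congrFun (h.aff i hi x hs) 1
      change χ x 1 - t / 2 < 0
      linarith [mul_nonpos_of_nonneg_of_nonpos (h.pos i hi).le l]
  have A1 := (a.chain h (Y := fun i => vee (p i) (M i) (t / ρ i))
    fun i _ hi => ⟨fun _ hx => hx.1, arc_vee (τ0 i hi) (τ1 i hi)⟩).1.tarc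
  have A2 := (arc_vee (p := p 0) (M := M 0) (τ0 0 z) (τ1 0 z)).tarc
  have s1 := (subset_union_left.trans hJ.symm.subset).trans sJ
  have s2 := (subset_union_right.trans hJ.symm.subset).trans sJ
  have q : ∀ e, qq (p 0) (M 0) e (t / ρ 0) ∈ vee (p 0) (M 0) (t / ρ 0) →
      θ (qq (p 0) (M 0) e (t / ρ 0)) 0 = ρ 0 * e - c j := fun e he => by
    rw [(up _ ⟨s2 he, he.1⟩).1, h.aff 0 z _ he.1, qq, fda_co, h.c0]
    simp
  have big := h.big j j1 hj
  have pj := h.pos j hj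
  refine no_wind hL.pdsc.lift hθ.continuousOn (fun x hx e => ?_) s1 s2 A1.conn A2.conn A1.left
    A2.left A1.right A2.right ?_ ?_ (fun x hx e => ?_) fun x hx _ => (up x ⟨s2 hx, hx.1⟩).2
  · have e0 : θ x 0 = 0 := congrFun e 0
    have e' : θ x 1 = 0 := congrFun e 1
    rcases h.hl.cover (sS hx) with hh | ⟨i, hi, hs⟩
    · obtain ⟨b, b'⟩ := ho x hx hh e0
      rw [e', sub_eq_zero] at b
      rw [b, abs_of_pos (half_pos t0)] at b'
      linarith
    · rcases Nat.eq_zero_or_pos i with rfl | i1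
      · exact (up x ⟨hx, hs⟩).2.ne' e'
      · exact (lo x hx i i1 hi hs e0).ne e'
  · rw [q _ A2.left]
    linarith [neg_abs_le (c j)]
  · rw [q _ A2.right]
    linarith [le_abs_self (c j)]
  · rcases hx with hb | hb <;> obtain ⟨i, hi, hb'⟩ := mem_iUnion₂.1 hb
    · obtain ⟨b1, b2, -⟩ := a.sub i hi x hb'
      have b := (ho x (s1 (.inl hb)) b1 e).2
      rw [b2, abs_of_pos t0] at b
      exact (lt_irrefl _ b).elim
    · exact lo x (s1 (.inr hb)) i hi.1 hi.2 hb'.1 e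

/-- The map `χ` composed with the radial retraction
`x ↦ p 0 + M 0 ((min 1 ‖co x‖)⁻¹ • co x)` of the square `0`. -/
theorem ChH.extend (h : ChH S m p M χ c ρ) : ∃ χ' : Rn 3 → Rn 2,
    ContinuousOn χ' (S \ p '' Iic m) ∧ MapsTo χ' (S \ p '' Iic m) (pun (Icc 1 m) c) ∧
      EqOn χ' χ (hol S (Iic m) p M) := by
  let ret : Rn 3 → Rn 3 := fun x =>
    p 0 + M 0 ((min 1 ‖co (p 0) (M 0) x‖)⁻¹ • co (p 0) (M 0) x)
  have h0 : (0 : ℕ) ∈ Iic m := Nat.zero_le m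
  have r1 : ∀ x, 1 ≤ ‖co (p 0) (M 0) x‖ → ret x = x := fun x hx => by
    simp only [ret]
    rw [min_eq_left hx, inv_one, one_smul, co, (M 0).apply_symm_apply, add_sub_cancel]
  have ne : ∀ j ≤ m, ∀ x ∈ S \ p '' Iic m, co (p j) (M j) x ≠ 0 := fun j hj x hx e =>
    hx.2 ⟨j, hj, (sub_eq_zero.1 ((M j).symm.map_eq_zero_iff.1 e)).symm⟩
  have cc := (tp_co (p 0) (M 0)).continuous
  refine ⟨fun x => χ (ret x), h.tp.continuous.comp_continuousOn ?_, fun x hx => ?_,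
    fun x hx => congrArg χ (r1 x (hx.2 0 h0))⟩
  · refine continuousOn_const.add ((M 0).continuous.comp_continuousOn
      (((continuous_const.min cc.norm).continuousOn.inv₀ fun x hx => ?_).smul cc.continuousOn))
    exact (lt_min one_pos (norm_pos_iff.2 (ne 0 h0 x hx))).ne'
  · change χ (ret x) ∈ _
    rcases le_or_gt ‖co (p 0) (M 0) x‖ 1 with k | k
    · have k1 := (h.hl.mem_iff h0 k).1 hx.1
      have k2 := norm_pos_iff.2 (ne 0 h0 x hx)
      refine h.av _ (h.hl.dsq_sub h0 ⟨?_, ?_⟩) <;> simp only [ret, co_add, min_eq_right k]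
      · rw [norm_smul, norm_inv, norm_norm, inv_mul_cancel₀ k2.ne']
      · rw [Pi.smul_apply, k1.2, smul_zero]
    · rw [r1 x k.le]
      rcases h.hl.cover hx.1 with k1 | ⟨j, hj, k1⟩
      · exact h.av x k1
      · intro i hi e
        have j1 : 1 ≤ j := Nat.one_le_iff_ne_zero.2 fun e => by
          subst e
          exact k.not_ge k1.1
        rw [h.aff j hj x k1] at e
        have e0 : c j + ρ j * co (p j) (M j) x 0 = c i := congrFun e 0
        have e1 : ρ j * co (p j) (M j) x 1 = 0 := congrFun e 1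
        have pj := h.pos j hj
        have pi := h.pos i hi.2
        have b := abs_le.1 ((norm_le_pi_norm (co (p j) (M j) x) 0).trans k1.1)
        rcases lt_trichotomy i j with l | rfl | l
        · have := h.lt hi.1 l hj
          nlinarith [b.1]
        · refine ne i hj x hx (funext fun a => ?_)
          fin_cases a
          · exact (mul_eq_zero.1 (add_eq_left.1 e0)).resolve_left pj.ne'
          · exact (mul_eq_zero.1 e1).resolve_left pj.ne'
          · exact k1.2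
        · have := h.lt j1 l hi.2
          nlinarith [b.2]

/-- `chain_arcs`, `ChA.circle`, `sph_len`, `side_sq` at `0` (swap the caps by `Len.symm`),
`ChA.signs`. With the chains `Lp`, `Lm` through `upb`, `lob` (`ChA.chain`), `ext_arc` gives
`r : hol ∩ Dp → Lp`, `hol ∩ Dm → Lm`, the identity on the arcs `β` (`glue_two`); `htp_two` gives
`id ≃ r` in `S \ p '' Iic m`; compose with `ChH.extend`; finally the straight line to
`w = χ ∘ r - (0, t) + (0, ± infDist · J)`. -/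
theorem chain (hB : Ball B S) (h : ChH S m p M χ c ρ) :
    ∃ (Dp Dm J : Set (Rn 3)) (β : ℕ → Set (Rn 3)) (w : Rn 3 → Rn 2),
      ChO B S m p M c Dp Dm J β w ∧ Htp (hol S (Iic m) p M) (pun (Icc 1 m) c) χ w := by
  obtain ⟨t, β, a⟩ := chain_arcs ⟨B, hB⟩ h
  obtain ⟨J, hJ⟩ : ∃ J, J = chn m β (fun j => vee (p j) (M j) (t / ρ j)) ∪
    vee (p 0) (M 0) (t / ρ 0) := ⟨_, rfl⟩
  obtain ⟨hc, hJS, hJq, hJh⟩ := a.circle h hJ
  have τ0 : ∀ j ≤ m, 0 < t / ρ j := fun j hj => div_pos a.t0 (h.pos j hj)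
  have τ1 : ∀ j ≤ m, t / ρ j < 1 := fun j hj => (div_lt_one (h.pos j hj)).2 (a.t1 j hj)
  obtain ⟨Dp, Dm, hL, hu, h0⟩ : ∃ Dp Dm, Len 2 B Dp Dm J ∧ Dp ∪ Dm = S ∧
      Dp ∩ sq (p 0) (M 0) = upq (p 0) (M 0) (t / ρ 0) := by
    obtain ⟨D₁, D₂, hL, hu⟩ := sph_len hB hc hJS
    rcases side_sq (τ0 0 m.zero_le) (τ1 0 m.zero_le) hL
      (by rw [hu]; exact h.hl.flat 0 m.zero_le) (hJq 0 m.zero_le) with k | k
    exacts [⟨D₁, D₂, hL, hu, k.1⟩, ⟨D₂, D₁, hL.symm, (union_comm _ _).trans hu, k.1⟩]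
  have hs := fun j (hj : j ≤ m) => a.signs h hL hu hJ h0 hj
  have hi := hL.inter
  have cH : IsClosed (hol S (Iic m) p M) := (h.hl.poly hB.poly').1.isClosed
  have cp : IsClosed Dp := hL.poly.1.isClosed
  have cm : IsClosed Dm := hL.symm.poly.1.isClosed
  have cJ : IsClosed (J ∩ hol S (Iic m) p M) := hc.poly.1.isClosed.inter cH
  have hβ : ∀ j ≤ m, β j ⊆ J ∩ hol S (Iic m) p M := fun j hj => by
    rw [hJh]
    exact subset_biUnion_of_mem (u := β) hj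
  have hp : ∀ j ≤ m, p j ∈ J := fun j hj =>
    ((hJq j hj).ge (show p j ∈ vee _ _ _ by simp [vee, sq, co])).1
  have hg : ∀ i ≤ m, ∀ j ≤ m, ∀ x ∈ β i, gap c m j (χ x 0) → i = j := fun i hi j hj x hx g =>
    h.gap_eq hi hj (a.sub i hi x hx).2.2 g fun k k1 k2 e => by
      have := a.far x (a.sub i hi x hx).1 k k1 k2 e
      rw [(a.sub i hi x hx).2.1, abs_of_pos a.t0] at this
      exact this.false
  have dq : ∀ j, dsq (p j) (M j) ⊆ sq (p j) (M j) := fun j x hx => ⟨hx.1.le, hx.2⟩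
  have hχ : ∀ j ≤ m, ∀ x ∈ dsq (p j) (M j), χ x 1 = ρ j * co (p j) (M j) x 1 := fun j hj x hx =>
    congrFun (h.aff j hj x (dq j hx)) 1
  obtain ⟨gp, p1, p2, p3⟩ := ext_arc cJ continuousOn_id
    (a.chain h (Y := fun j => upb (p j) (M j) (t / ρ j)) fun j _ hj =>
      ⟨fun x hx => dq j hx.1, arc_upb (τ0 j hj) (τ1 j hj)⟩).1.tarc
    (fun x hx => Or.inl (hJh.le hx))
  obtain ⟨gm, m1, m2, m3⟩ := ext_arc cJ continuousOn_id
    (a.chain h (Y := fun j => lob (p j) (M j) (t / ρ j)) fun j _ hj =>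
      ⟨fun x hx => dq j hx.1, arc_lob (τ0 j hj) (τ1 j hj)⟩).1.tarc
    (fun x hx => Or.inl (hJh.le hx))
  have p4 : ∀ x, gp x ∈ hol S (Iic m) p M ∧ gp x ∈ Dp ∧ t ≤ χ (gp x) 1 := fun x => by
    rcases p3 x with k | k <;> obtain ⟨j, hj, k⟩ := mem_iUnion₂.1 k
    · exact ⟨(hβ j hj k).2, (hi.ge (hβ j hj k).1).1, (a.sub j hj _ k).2.1.ge⟩
    · refine ⟨h.hl.dsq_sub hj.2 k.1,
        ((hs j hj.2).1.ge ((upb_sub (τ0 j hj.2) (τ1 j hj.2)).le k).1).1, ?_⟩
      rw [hχ j hj.2 _ k.1]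
      exact (div_le_iff₀' (h.pos j hj.2)).1 k.2
  have m4 : ∀ x, gm x ∈ hol S (Iic m) p M ∧ gm x ∈ Dm ∧ χ (gm x) 1 ≤ t := fun x => by
    rcases m3 x with k | k <;> obtain ⟨j, hj, k⟩ := mem_iUnion₂.1 k
    · exact ⟨(hβ j hj k).2, (hi.ge (hβ j hj k).1).2, (a.sub j hj _ k).2.1.le⟩
    · refine ⟨h.hl.dsq_sub hj.2 k.1,
        ((hs j hj.2).2.ge ((lob_sub (τ0 j hj.2) (τ1 j hj.2)).le k).1).1, ?_⟩
      rw [hχ j hj.2 _ k.1]
      exact (le_div_iff₀' (h.pos j hj.2)).1 k.2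
  have hI : hol S (Iic m) p M ∩ Dp ∩ (hol S (Iic m) p M ∩ Dm) = J ∩ hol S (Iic m) p M := by
    rw [← inter_inter_distrib_left, hi, inter_comm]
  have hU : hol S (Iic m) p M ∩ Dp ∪ hol S (Iic m) p M ∩ Dm = hol S (Iic m) p M := by
    rw [← inter_union_distrib_left, hu]
    exact inter_eq_left.2 fun x hx => hx.1
  obtain ⟨r, r1, r2, r3⟩ := glue_two (cH.inter cp) (cH.inter cm) p1.continuousOn m1.continuousOn
    fun x hx => (p2 (hI.le hx)).trans (m2 (hI.le hx)).symm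
  have r4 : ∀ x ∈ J ∩ hol S (Iic m) p M, r x = x := fun x hx => (r2 (hI.ge hx).1).trans (p2 hx)
  have r5 : MapsTo r (hol S (Iic m) p M) (hol S (Iic m) p M) := fun x hx => by
    rcases hU.ge hx with k | k
    · rw [r2 k]; exact (p4 x).1
    · rw [r3 k]; exact (m4 x).1
  have hP : ∀ x ∈ hol S (Iic m) p M, x ∉ p '' Iic m := by
    rintro _ hx ⟨j, hj, rfl⟩
    exact hol_ne hx hj rfl
  have H1 := htp_two hL (P := p '' Iic m) (by rintro _ ⟨j, hj, rfl⟩; exact hp j hj)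
    (cH.inter cp) (cH.inter cm) (finite_Iic m) (Z := β)
    (fun j hj => (a.arc j hj).poly.1.isClosed)
    (fun i hi j hj e => disjoint_left.2 fun x k1 k2 => e (hg i hi j hj x k1 (a.sub j hj x k2).2.2))
    (hJh.symm.trans hI.symm) (Γ := β)
    (fun j hj => ⟨⟨_, _, (a.arc j hj).tarc⟩, fun x hx => ⟨(hβ j hj hx).1, hP x (hβ j hj hx).2⟩⟩)
    (u := id) (w := r) continuousOn_id r1.continuousOn (fun x hx => ⟨hx.2, hP x hx.1⟩)
    (fun x hx => ⟨hx.2, hP x hx.1⟩)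
    (fun x hx => ⟨by rw [r2 hx]; exact (p4 x).2.1, hP _ (r5 hx.1)⟩)
    (fun x hx => ⟨by rw [r3 hx]; exact (m4 x).2.1, hP _ (r5 hx.1)⟩) (fun j _ x hx => hx)
    (fun j hj x hx => by rw [r4 x (hβ j hj hx)]; exact hx)
  rw [hU, hu] at H1
  obtain ⟨χ', e1, e2, e3⟩ := h.extend
  have H2 : Htp (hol S (Iic m) p M) (pun (Icc 1 m) c) χ fun x => χ (r x) :=
    (H1.post e1 e2).congr (fun x hx => (e3 hx).symm) fun x hx => (e3 (r5 hx)).symm
  have np : Dp.Nonempty := ⟨_, (hi.ge (hp 0 m.zero_le)).1⟩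
  have nm : Dm.Nonempty := ⟨_, (hi.ge (hp 0 m.zero_le)).2⟩
  let w : Rn 3 → Rn 2 := fun x => χ (r x) + Pi.single 1 (infDist x Dm - infDist x Dp - t)
  have w0 : ∀ x, w x 0 = χ (r x) 0 := fun x => by simp [w]
  have w1 : ∀ x, w x 1 = χ (r x) 1 + (infDist x Dm - infDist x Dp - t) := fun x => by simp [w]
  have up : ∀ x ∈ hol S (Iic m) p M, 0 ≤ w x 1 → x ∈ Dp := fun x hx k => by
    rcases hU.ge hx with k1 | k1
    · exact k1.2
    · rw [w1, r3 k1, infDist_zero_of_mem k1.2] at k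
      exact (cp.mem_iff_infDist_zero np).2 (le_antisymm (by linarith [(m4 x).2.2]) infDist_nonneg)
  have dn : ∀ x ∈ hol S (Iic m) p M, w x 1 ≤ 0 → x ∈ Dm := fun x hx k => by
    rcases hU.ge hx with k1 | k1
    · rw [w1, r2 k1, infDist_zero_of_mem k1.2] at k
      exact (cm.mem_iff_infDist_zero nm).2 (le_antisymm (by linarith [(p4 x).2.2]) infDist_nonneg)
    · exact k1.2
  have cr : Continuous fun x => χ (r x) := h.tp.continuous.comp r1
  refine ⟨Dp, Dm, J, β, w, ⟨hL, hu, hp, fun j hj => ⟨⟨_, _, (a.arc j hj).tarc⟩, hβ j hj⟩, up, dn,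
    fun x hx k j hj g => ?_⟩, H2.trans (Htp.line cr.continuousOn ?_ fun x hx s hs' i hi' e => ?_)⟩
  · have k1 : x ∈ J ∩ hol S (Iic m) p M := ⟨hi.le ⟨up x hx k.ge, dn x hx k.le⟩, hx⟩
    obtain ⟨i, hi', k2⟩ := mem_iUnion₂.1 (hJh.le k1)
    rw [w0, r4 x k1] at g
    exact hg i hi' j hj x k2 g ▸ k2
  · exact (cr.add ((continuous_single (1 : Fin 2)).comp (((continuous_infDist_pt Dm).sub
      (continuous_infDist_pt Dp)).sub continuous_const))).continuousOn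
  · have e0 : χ (r x) 0 + s * (w x 0 - χ (r x) 0) = c i := congrFun e 0
    have e1 : χ (r x) 1 + s * (w x 1 - χ (r x) 1) = 0 := congrFun e 1
    rw [w0, sub_self, mul_zero, add_zero] at e0
    rw [w1, add_sub_cancel_left] at e1
    have f := a.far _ (r5 hx) i hi'.1 hi'.2 e0
    have t0 := a.t0
    rcases hU.ge hx with k | k
    · have k1 := (p4 x).2.2
      rw [← r2 k] at k1
      rw [abs_of_nonneg (t0.le.trans k1)] at f
      rw [infDist_zero_of_mem k.2] at e1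
      nlinarith [mul_nonneg hs'.1 (infDist_nonneg (x := x) (s := Dm)), hs'.2]
    · have k1 := (m4 x).2.2
      rw [← r3 k] at k1
      rw [infDist_zero_of_mem k.2] at e1
      rcases lt_abs.1 f with f | f
      · exact f.not_ge k1
      · nlinarith [mul_nonneg hs'.1 (infDist_nonneg (x := x) (s := Dp)), mul_nonneg hs'.1 t0.le]

theorem fdc_half {D J H P A : Set (Rn 3)} (hD : PDsc D J) (hA : IsClosed A) {g : Rn 3 → Rn 3}
    (hg : Continuous g) (m : ∀ x ∈ A, g x ∈ D ∩ H) (hP : P ⊆ J \ H) :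
    ∃ r : Rn 3 → Rn 3, Continuous r ∧ EqOn r g A ∧ ∀ x, r x ∈ D \ P := by
  obtain ⟨r, c, e, k, k'⟩ := ext_cel hA hg.continuousOn hD fun x q => (m x q).1
  refine ⟨r, c, e, fun x => ⟨k x, fun q => ?_⟩⟩
  by_cases hx : x ∈ A
  · exact (hP q).2 (e hx ▸ (m x hx).2)
  · exact k' x hx (hP q).1

theorem fdc_open (m : ℕ) (c : ℕ → ℝ) : IsOpen (pun (Icc 1 m) c) := by
  have : pun (Icc 1 m) c = ((fun j => (![c j, 0] : Rn 2)) '' Icc 1 m)ᶜ := by
    ext w
    simp [pun, eq_comm]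
  rw [this]
  exact ((finite_Icc 1 m).image _).isClosed.isOpen_compl

/-- `Htp.hep` gives `u'` on `X` equal to `w` on `X ∩ S`. On
`X j = {u' 1 = 0, gap j (u' 0)}` extend the identity of `X j ∩ S` into `β j` (`ext_arc`); on
`{0 ≤ u' 1}` and `{u' 1 ≤ 0}` extend into the caps by `ext_cel`; glue. -/
theorem ret_core (h : ChH S m p M χ c ρ) {w : Rn 3 → Rn 2} (o : ChO B S m p M c Dp Dm J β w)
    {X : Set (Rn 3)} (hX : IsCompact X) (hs : X ∩ S ⊆ hol S (Iic m) p M) {u : Rn 3 → Rn 2}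
    (hu : ContinuousOn u X) (hm : MapsTo u X (pun (Icc 1 m) c))
    (hH : Htp (X ∩ S) (pun (Icc 1 m) c) u w) :
    ∃ r : Rn 3 → Rn 3, ContinuousOn r X ∧ (∀ x ∈ X, r x ∈ S ∧ ∀ j ≤ m, r x ≠ p j) ∧
      ∀ x ∈ X ∩ S, r x = x := by
  have cS : IsClosed S := o.un ▸ o.len.poly.1.isClosed.union o.len.symm.poly.1.isClosed
  have cA : IsClosed (X ∩ S) := hX.isClosed.inter cS
  obtain ⟨v, cv, ev, mv⟩ := hH.hep hX cA inter_subset_left (fdc_open m c) hu hm
  have c0 : Continuous fun x => v x 0 := (continuous_apply 0).comp cv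
  have c1 : Continuous fun x => v x 1 := (continuous_apply 1).comp cv
  have cZ : IsClosed (X ∩ {x | v x 1 = 0}) := hX.isClosed.inter (isClosed_eq c1 continuous_const)
  let Z : ℕ → Set (Rn 3) := fun j => X ∩ {x | v x 1 = 0} ∩ {x | gap c m j (v x 0)}
  have cZj : ∀ j, IsClosed (Z j) := fun j => cZ.inter (IsClosed.and
    (by by_cases k : j = 0 <;> simp [k, isClosed_le continuous_const c0])
    (by by_cases k : j = m <;> simp [k, isClosed_le c0 continuous_const]))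
  have ax : ∀ j ≤ m, ∀ x ∈ Z j ∩ S, x ∈ β j := fun j hj x k => by
    have q : x ∈ X ∩ S := ⟨k.1.1.1, k.2⟩
    exact o.ax x (hs q) (ev q ▸ k.1.1.2) j hj (ev q ▸ k.1.2)
  have ex : ∀ j ∈ Iic m, ∃ g : Rn 3 → Rn 3, Continuous g ∧ EqOn g id (Z j ∩ S) ∧ ∀ x, g x ∈ β j :=
    fun j hj => (o.arc j hj).1.elim fun _ k => k.elim fun _ k =>
      ext_arc ((cZj j).inter cS) continuousOn_id k (ax j hj)
  choose! g cg eg mg using ex
  obtain ⟨g0, cg0, e0⟩ := glue_on (finite_Iic m) (fun j _ => cZj j)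
    (fun j hj => (cg j hj).continuousOn) fun i hi j hj x k => by
      rw [h.gap_eq hi hj k.1.2 k.2.2 fun l a b e => mv k.1.1.1 l ⟨a, b⟩ ?_]
      ext s
      fin_cases s
      exacts [e, k.1.1.2]
  have zj : ∀ x ∈ X ∩ {x | v x 1 = 0}, ∃ j ≤ m, x ∈ Z j := fun x k =>
    (fgap_exists c m (v x 0)).imp fun j q => ⟨q.1, k, q.2⟩
  obtain ⟨g1, cg1, e1, e2⟩ := glue_two cZ cA cg0.continuousOn continuousOn_id fun x k => by
    obtain ⟨j, hj, q⟩ := zj x k.1
    exact (e0 j hj q).trans (eg j hj ⟨q, k.2.2⟩)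
  have m1 : ∀ x ∈ X ∩ {x | v x 1 = 0}, g1 x ∈ (Dp ∩ Dm) ∩ hol S (Iic m) p M := fun x k => by
    obtain ⟨j, hj, q⟩ := zj x k
    rw [e1 k, e0 j hj q, o.len.inter]
    exact (o.arc j hj).2 (mg j hj x)
  have hP : p '' Iic m ⊆ J \ hol S (Iic m) p M := by
    rintro _ ⟨j, hj, rfl⟩
    exact ⟨o.mk_mem j hj, fun k => absurd (k.2 j hj) (by simp [co])⟩
  have cp : IsClosed {x | 0 ≤ v x 1} := isClosed_le continuous_const c1
  have cm : IsClosed {x | v x 1 ≤ 0} := isClosed_le c1 continuous_const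
  obtain ⟨rp, c2, ep, mp⟩ := fdc_half o.len.pdsc (cZ.union (cA.inter cp)) cg1 (fun x k => k.elim
    (fun k => ⟨(m1 x k).1.1, (m1 x k).2⟩) fun k => by
      rw [e2 k.1]
      exact ⟨o.up x (hs k.1) (ev k.1 ▸ k.2), hs k.1⟩) hP
  obtain ⟨rm, c3, em, mm⟩ := fdc_half o.len.symm.pdsc (cZ.union (cA.inter cm)) cg1 (fun x k => k.elim
    (fun k => ⟨(m1 x k).1.2, (m1 x k).2⟩) fun k => by
      rw [e2 k.1]
      exact ⟨o.dn x (hs k.1) (ev k.1 ▸ k.2), hs k.1⟩) hP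
  obtain ⟨r, cr, e3, e4⟩ := glue_two (hX.isClosed.inter cp) (hX.isClosed.inter cm) c2.continuousOn
    c3.continuousOn fun x k => by
      have q : x ∈ X ∩ {x | v x 1 = 0} := ⟨k.1.1, le_antisymm k.2.2 k.1.2⟩
      exact (ep (Or.inl q)).trans (em (Or.inl q)).symm
  refine ⟨r, cr.continuousOn, fun x hx => ?_, fun x hx => ?_⟩
  · rcases le_total 0 (v x 1) with k | k
    · rw [e3 ⟨hx, k⟩]
      exact ⟨o.un.subset (Or.inl (mp x).1), fun j hj e => (mp x).2 ⟨j, hj, e.symm⟩⟩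
    · rw [e4 ⟨hx, k⟩]
      exact ⟨o.un.subset (Or.inr (mm x).1), fun j hj e => (mm x).2 ⟨j, hj, e.symm⟩⟩
  · rcases le_total 0 (v x 1) with k | k
    · exact (e3 ⟨hx.1, k⟩).trans ((ep (Or.inr ⟨hx, k⟩)).trans (e2 hx))
    · exact (e4 ⟨hx.1, k⟩).trans ((em (Or.inr ⟨hx, k⟩)).trans (e2 hx))

end Ch

end BEp
end
end
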