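import Pool.Agent.Work.MP_f0515e_an.D3.PAlex
import Pool.Agent.Work.MP_f0515e_an.D3.PCel1

/-! Corollaries of Alexander's theorem.
`sph_image`: `Sph.surf`, `Surf.image`, `Sph.lift`, `Lift.image`, `Ball.conn_bd`, `alex`. `fill_emb`: `sph_image`, `fill`.
`len_two`: with parametrisations `g₁`, `g₂`, `fill` extends the bijection `g₂⁻¹ ∘ g₁` of the unit circle (`tp_linv`) to `k`; the map
`g₁ ∘ pj3` on `capU 2`, `g₂ ∘ k ∘ pj3` on `capL 2` (`tp_ite` or `tp_glue`) is injective on the boundary of the lens; `sph_image`, `len3`.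
`cut3`: `sph_len`, `Len.pdsc`, `len_two` twice, `cut_core`. `theta3`: `len_two` three times, `theta`. About 200 lines. -/

open Set Metric Filter Topology Function BEv
open scoped NNReal

noncomputable section
namespace BEp

variable {n m : ℕ}

variable {B S D D₁ D₂ D₃ J : Set (Rn 3)}

theorem sph_image (h : Sph S) {g : Rn 3 → Rn 3} (hg : TP g) (hi : InjOn g S) : Sph (g '' S) := by
  obtain ⟨B, hB⟩ := id h
  exact alex (h.surf.image hg hi) ((hB.conn_bd (by norm_num)).image g hg.continuous.continuousOn)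
    (h.lift.image hB.poly'.1 hg.continuous.continuousOn hi)

theorem fill_emb (h : Ball B S) {g : Rn 3 → Rn 3} (hg : TP g) (hi : InjOn g S) :
    ∃ Φ, LH Φ ∧ EqOn Φ g S := by
  obtain ⟨B', h'⟩ := sph_image ⟨B, h⟩ hg hi
  obtain ⟨Φ, h1, -, h2⟩ := fill h h' hg hi.bijOn_image
  exact ⟨Φ, h1, h2⟩

theorem len_two (h1 : PDsc D₁ J) (h2 : PDsc D₂ J) (hi : D₁ ∩ D₂ = J) :
    ∃ B, Len 2 B D₁ D₂ J := by
  have m : Len (2 : Fin 3) (oct 2) (capU 2) (capL 2) (eqt 2) :=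
    ⟨id, LH.id', image_id _, image_id _, image_id _, image_id _⟩
  obtain ⟨g₁, t1, b1, j1⟩ := PCel.bij m.pdsc h1
  obtain ⟨g₂, t2, b2, j2⟩ := PCel.ext m.symm.pdsc h2 t1 j1
  obtain ⟨k, tk, e1, e2⟩ := tp_glue m.poly m.symm.poly t1 t2 (m.inter ▸ j2.symm)
  have k1 := b1.congr e1.symm
  have k2 := b2.congr e2.symm
  have ik : InjOn k (capU 2 ∪ capL 2) := injOn_two k1.injOn k2.injOn fun z hz w hw e => by
    have : k z ∈ J := hi ▸ ⟨k1.mapsTo hz, e ▸ k2.mapsTo hw⟩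
    obtain ⟨u, hu, e'⟩ := j1.surjOn this
    have hu' : u ∈ capU 2 ∩ capL 2 := m.inter ▸ hu
    rw [← e1 hu'.1] at e'
    exact (k1.injOn hz hu'.1 e'.symm).trans (k2.injOn hu'.2 hw (e'.trans e))
  obtain ⟨B, hB⟩ := sph_image ⟨_, m.ball⟩ tk ik
  rw [image_union, k1.image_eq, k2.image_eq] at hB
  exact ⟨B, len3 hB h1.crc h1.cpt.isClosed h2.cpt.isClosed hi
    (fun o => let ⟨_, hx⟩ := h1.conn_in.nonempty; hx.2 (o hx.1))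
    fun o => let ⟨_, hx⟩ := h2.conn_in.nonempty; hx.2 (o hx.1)⟩

theorem cut3 (h : Ball B S) (hD : PDsc D J) (hs : D ⊆ B) (hi : D ∩ S = J) :
    ∃ B₁ B₂ D₁ D₂, D₁ ∪ D₂ = S ∧ Len 2 B D₁ D₂ J ∧ Len 2 B₁ D₁ D J ∧ Len 2 B₂ D₂ D J ∧
      B₁ ∩ B₂ = D ∧ B₁ ∪ B₂ = B := by
  obtain ⟨D₁, D₂, l, u⟩ := sph_len h hD.crc (hi ▸ inter_subset_right)
  have key : ∀ {E : Set (Rn 3)}, PDsc E J → E ⊆ S → E ∩ D = J := fun hE s =>
    subset_antisymm (fun x hx => hi ▸ ⟨hx.2, s hx.1⟩) (subset_inter hE.sub hD.sub)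
  obtain ⟨B₁, l1⟩ := len_two l.pdsc hD (key l.pdsc (u ▸ subset_union_left))
  obtain ⟨B₂, l2⟩ := len_two l.symm.pdsc hD (key l.symm.pdsc (u ▸ subset_union_right))
  exact ⟨B₁, B₂, D₁, D₂, u, l, l1, l2, cut_core (by norm_num) l l1 l2 hs⟩

theorem theta3 (h1 : PDsc D₁ J) (h2 : PDsc D₂ J) (h3 : PDsc D₃ J) (i12 : D₁ ∩ D₂ = J)
    (i13 : D₁ ∩ D₃ = J) (i23 : D₂ ∩ D₃ = J) : ∃ B₁₂ B₁₃ B₂₃, Len 2 B₁₂ D₁ D₂ J ∧
      Len 2 B₁₃ D₁ D₃ J ∧ Len 2 B₂₃ D₂ D₃ J ∧ (D₃ ⊆ B₁₂ ∨ D₂ ⊆ B₁₃ ∨ D₁ ⊆ B₂₃) := by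
  obtain ⟨B₁, l1⟩ := len_two h1 h2 i12
  obtain ⟨B₂, l2⟩ := len_two h1 h3 i13
  obtain ⟨B₃, l3⟩ := len_two h2 h3 i23
  exact ⟨B₁, B₂, B₃, l1, l2, l3, theta (by norm_num) l1 l2 l3⟩

end BEp
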