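import Mathlib
import Pool.Agent.Work.MP_f0515e_an.D3.PCel1
import Pool.Agent.Work.MP_f0515e_an.D3.PCel2
import Pool.Agent.Work.MP_f0515e_an.D3.DeTP

-- merged part: Pool.Agent.Work.MP_f0515e_an.D3.TbHan2
section
-- merged part: Pool.Agent.Work.MP_f0515e_an.D3.TbTree
section
/-! Trees in an abstract graph, and the tree and cotree decomposition of a surface graph whose
edge cycles bound mod two. -/

open Finset

namespace BEp

variable {V E Fa : Type}

/-- The edge `e` joins `a` and `b`. -/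
def Jn (s t : E → V) (e : E) (a b : V) : Prop := (s e = a ∧ t e = b) ∨ (s e = b ∧ t e = a)

/-- Trees grown by adding an edge to a new node. -/
inductive Tre (s t : E → V) : Set V → Set E → Prop
  | one (v : V) : Tre s t {v} ∅
  | grow {U : Set V} {W : Set E} {e : E} {a b : V} : Tre s t U W → Jn s t e a b → a ∈ U → b ∉ U →
      Tre s t (insert b U) (insert e W)

open Classical in
/-- Incidence number mod two. -/
noncomputable def inc (s t : E → V) (e : E) (v : V) : ZMod 2 :=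
  (if s e = v then 1 else 0) + (if t e = v then 1 else 0)

variable {s t : E → V} {U : Set V} {W : Set E}

theorem Tre.ends (h : Tre s t U W) : ∀ e ∈ W, s e ∈ U ∧ t e ∈ U := by
  induction h with
  | one v => simp
  | grow h hj ha hb ih =>
    rintro e (rfl | he)
    · rcases hj with ⟨rfl, rfl⟩ | ⟨rfl, rfl⟩
      exacts [⟨Or.inr ha, Or.inl rfl⟩, ⟨Or.inl rfl, Or.inr ha⟩]
    · exact ⟨Or.inr (ih e he).1, Or.inr (ih e he).2⟩

theorem Jn.notMem (h : Tre s t U W) {e : E} {a b : V} (hj : Jn s t e a b) (hb : b ∉ U) :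
    e ∉ W := fun he => by
  rcases hj with ⟨-, rfl⟩ | ⟨rfl, -⟩
  exacts [hb (h.ends e he).2, hb (h.ends e he).1]

theorem Tre.const {A : Type} (h : Tre s t U W) {c : V → A} (hc : ∀ e ∈ W, c (s e) = c (t e)) :
    ∀ a ∈ U, ∀ b ∈ U, c a = c b := by
  induction h with
  | one v => rintro a rfl b rfl; rfl
  | @grow U W e a b h hj ha hb ih =>
    have h1 := ih fun e he => hc e (Or.inr he)
    have h2 : c b = c a := by
      have := hc e (Or.inl rfl)
      rcases hj with ⟨rfl, rfl⟩ | ⟨rfl, rfl⟩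
      exacts [this.symm, this]
    rintro x (rfl | hx) y (rfl | hy)
    exacts [rfl, h2.trans (h1 a ha y hy), (h1 x hx a ha).trans h2.symm, h1 x hx y hy]

theorem inc_jn {e : E} {a b : V} (hj : Jn s t e a b) (v : V) [DecidableEq V] :
    inc s t e v = (if a = v then 1 else 0) + (if b = v then 1 else 0) := by
  unfold inc
  rcases hj with ⟨rfl, rfl⟩ | ⟨rfl, rfl⟩
  · congr
  · rw [add_comm]; congr

theorem inc_zero {e : E} {v : V} (h1 : s e ≠ v) (h2 : t e ≠ v) : inc s t e v = 0 := by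
  simp [inc, h1, h2]

variable [Fintype E]

theorem Tre.even (h : Tre s t U W) : ∀ z : E → ZMod 2, (∀ e, e ∉ W → z e = 0) →
    (∀ v, ∑ e, z e * inc s t e v = 0) → ∀ e, z e = 0 := by
  classical
  induction h with
  | one v => exact fun z hz _ e => hz e (by simp)
  | @grow U W e a b h hj ha hb ih =>
    intro z hz h0
    have hab : a ≠ b := fun h => hb (h ▸ ha)
    have he : z e = 0 := by
      have := h0 b
      rw [sum_eq_single e, inc_jn hj] at this
      · simpa [hab] using this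
      · intro e' _ hne
        by_cases hW : e' ∈ W
        · rw [inc_zero (s := s) (t := t) (e := e') (v := b) (fun q => hb (q ▸ (h.ends e' hW).1))
            (fun q => hb (q ▸ (h.ends e' hW).2)), mul_zero]
        · rw [hz e' (by simp [hne, hW]), zero_mul]
      · simp
    refine ih z (fun e' he' => ?_) h0
    by_cases q : e' = e
    · rw [q, he]
    · exact hz e' (by simp [q, he'])

theorem Tre.path [DecidableEq V] (h : Tre s t U W) : ∀ a ∈ U, ∀ b ∈ U, ∃ z : E → ZMod 2,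
    (∀ e, e ∉ W → z e = 0) ∧ ∀ v, ∑ e, z e * inc s t e v =
      (if a = v then 1 else 0) + (if b = v then 1 else 0) := by
  classical
  have two : ∀ x : ZMod 2, x + x = 0 := by decide
  induction h with
  | one v => rintro a rfl b rfl; exact ⟨0, fun _ _ => rfl, fun v => by simp [two]⟩
  | @grow U W e a b h hj ha hb ih =>
    have key : ∀ y ∈ U, ∃ z : E → ZMod 2, (∀ e', e' ∉ insert e W → z e' = 0) ∧
        ∀ v, ∑ e, z e * inc s t e v = (if b = v then 1 else 0) + (if y = v then 1 else 0) := by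
      intro y hy
      obtain ⟨z, h1, h2⟩ := ih a ha y hy
      refine ⟨z + Pi.single e 1, fun e' he' => ?_, fun v => ?_⟩
      · simp only [Set.mem_insert_iff, not_or] at he'
        simp [h1 e' he'.2, he'.1]
      · simp only [Pi.add_apply, add_mul, sum_add_distrib, h2]
        rw [sum_eq_single e (fun e' _ q => by simp [q]) (by simp), inc_jn hj]
        simp only [Pi.single_eq_same, one_mul]
        linear_combination two (if a = v then 1 else 0)
    rintro x (rfl | hx) y (rfl | hy)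
    · exact ⟨0, fun _ _ => rfl, fun v => by simp [two]⟩
    · exact key y hy
    · obtain ⟨z, h1, h2⟩ := key x hx
      exact ⟨z, h1, fun v => (h2 v).trans (add_comm _ _)⟩
    · obtain ⟨z, h1, h2⟩ := ih x hx y hy
      exact ⟨z, fun e' he' => h1 e' fun q => he' (Or.inr q), h2⟩

/-- A maximal tree in a set of edges. -/
theorem exists_tre (s t : E → V) (A : Set E) (v : V) : ∃ U W, Tre s t U W ∧ v ∈ U ∧ W ⊆ A ∧
    ∀ e ∈ A, (s e ∈ U ↔ t e ∈ U) := by
  obtain ⟨W, ⟨U, h1, h2, h3⟩, hm⟩ := Set.exists_max_image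
    {W : Set E | ∃ U, Tre s t U W ∧ v ∈ U ∧ W ⊆ A} Set.ncard (Set.toFinite _)
    ⟨∅, {v}, Tre.one v, rfl, Set.empty_subset _⟩
  have key : ∀ e ∈ A, ∀ a b, Jn s t e a b → a ∈ U → b ∈ U := by
    intro e he a b hj ha
    by_contra hb
    have := hm (insert e W) ⟨_, h1.grow hj ha hb, Or.inr h2, Set.insert_subset he h3⟩
    rw [Set.ncard_insert_of_notMem (hj.notMem h1 hb)] at this
    omega
  exact ⟨U, W, h1, h2, h3, fun e he => ⟨key e he _ _ (Or.inl ⟨rfl, rfl⟩),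
    key e he _ _ (Or.inr ⟨rfl, rfl⟩)⟩⟩

omit [Fintype E] in
theorem sum_inc [Fintype V] (c : V → ZMod 2) (e : E) :
    ∑ v, c v * inc s t e v = c (s e) + c (t e) := by
  classical
  simp [inc, mul_add, sum_add_distrib]

/-- Tree and cotree. -/
theorem tree_cotree [Fintype V] (s t : E → V) (l r : E → Fa)
    (hH : ∀ z : E → ZMod 2, (∀ v, ∑ e, z e * inc s t e v = 0) →
      ∃ A : Fa → ZMod 2, ∀ e, z e = A (l e) + A (r e))
    (hd : ∀ v f, ∑ e, inc s t e v * inc l r e f = 0)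
    (hf : ∀ (f : Fa) (c : V → Prop), (∀ e, l e = f ∨ r e = f → (c (s e) ↔ c (t e))) →
      ∀ e e', l e = f ∨ r e = f → l e' = f ∨ r e' = f → (c (s e) ↔ c (s e')))
    (hx : ∀ f, ∃ e, l e = f ∨ r e = f) (f₀ : Fa) :
    ∃ (U : Set V) (T : Set E) (U' : Set Fa) (T' : Set E), Tre s t U T ∧ Tre l r U' T' ∧ f₀ ∈ U' ∧
      Disjoint T T' ∧ (∀ e, l e ∈ U' ↔ r e ∈ U') ∧ (∀ e, e ∈ T ∪ T' ↔ l e ∈ U') ∧
      (∀ e, l e ∈ U' → s e ∈ U ∧ t e ∈ U) ∧ ∀ v ∈ U, ∃ e, l e ∈ U' ∧ (s e = v ∨ t e = v) := by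
  classical
  have two : ∀ x : ZMod 2, x + x = 0 := by decide
  obtain ⟨U', T', h1, h2, -, h3⟩ := exists_tre l r Set.univ f₀
  replace h3 : ∀ e, l e ∈ U' ↔ r e ∈ U' := fun e => h3 e trivial
  obtain ⟨e₀, he₀⟩ := hx f₀
  have l₀ : l e₀ ∈ U' := by
    rcases he₀ with q | q
    exacts [q ▸ h2, (h3 e₀).2 (q ▸ h2)]
  obtain ⟨U, T, k1, k2, k3, k4⟩ := exists_tre s t {e | l e ∈ U' ∧ e ∉ T'} (s e₀)
  -- the indicator of U is constant along the edges of the component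
  have c1 : ∀ e, l e ∈ U' → (s e ∈ U ↔ t e ∈ U) := by
    let c : V → ZMod 2 := fun v => if v ∈ U then 1 else 0
    have := h1.even (fun e => if l e ∈ U' then c (s e) + c (t e) else 0) (fun e he => ?_) fun f => ?_
    · intro e he
      have q := this e
      simp only [he, if_true, c] at q
      by_cases a : s e ∈ U <;> by_cases b : t e ∈ U <;> (clear * - a b q; simp_all)
    · by_cases q : l e ∈ U'
      · simp only [q, if_true, c, k4 e ⟨q, he⟩, two]
      · simp only [q, if_false]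
    · by_cases hf' : f ∈ U'
      · have : ∑ e, (∑ v, c v * inc s t e v) * inc l r e f = 0 := by
          simp only [sum_mul, mul_assoc]
          rw [sum_comm]
          simp only [← mul_sum, hd, mul_zero, sum_const_zero]
        rw [← this]
        refine sum_congr rfl fun e _ => ?_
        by_cases q : l e ∈ U'
        · simp only [q, if_true, sum_inc]
        · rw [inc_zero (s := l) (t := r) (e := e) (v := f) (fun w => q (w ▸ hf'))
            (fun w => q ((h3 e).2 (w ▸ hf'))), mul_zero, mul_zero]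
      · refine sum_eq_zero fun e _ => ?_
        by_cases q : l e ∈ U'
        · rw [inc_zero (s := l) (t := r) (e := e) (v := f) (fun w => hf' (w ▸ q))
            (fun w => hf' (w ▸ (h3 e).1 q)), mul_zero]
        · simp only [q, if_false, zero_mul]
  have c2 : ∀ e, l e ∈ U' → s e ∈ U ∧ t e ∈ U := by
    have m : ∀ f ∈ U', ∀ e, l e = f ∨ r e = f → l e ∈ U' := fun f hf e he => by
      rcases he with q | q
      exacts [q ▸ hf, (h3 e).2 (q ▸ hf)]
    have a : ∀ f ∈ U', ∀ e, l e = f ∨ r e = f →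
        ((∀ e', l e' = f ∨ r e' = f → s e' ∈ U) ↔ s e ∈ U) := fun f hf' e he =>
      ⟨fun q => q e he, fun q e' he' =>
        (hf f (· ∈ U) (fun e he => c1 e (m f hf' e he)) e e' he he').1 q⟩
    have := h1.const (c := fun f => ∀ e', l e' = f ∨ r e' = f → s e' ∈ U) fun e he =>
      propext ((a _ (h1.ends e he).1 e (Or.inl rfl)).trans (a _ (h1.ends e he).2 e (Or.inr rfl)).symm)
    intro e he
    have q : s e ∈ U := (a _ he e (Or.inl rfl)).1
      ((this _ l₀ _ he).mp ((a _ l₀ e₀ (Or.inl rfl)).2 k2))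
    exact ⟨q, (c1 e he).1 q⟩
  have c3 : ∀ e, l e ∈ U' → e ∉ T' → e ∈ T := by
    intro e he hT
    by_contra hn
    obtain ⟨z, z1, z2⟩ := k1.path _ (c2 e he).1 _ (c2 e he).2
    obtain ⟨A, hA⟩ := hH (z + Pi.single e 1) fun v => by
      simp only [Pi.add_apply, add_mul, sum_add_distrib, z2]
      rw [sum_eq_single e (fun e' _ q => by simp [q]) (by simp), inc_jn (Or.inl ⟨rfl, rfl⟩)]
      simp only [Pi.single_eq_same, one_mul, two]
    have := h1.const (c := A) (fun e' he' => ?_) _ he _ ((h3 e).1 he)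
    · have q := hA e
      rw [this, two] at q
      simp [z1 e hn] at q
    · have q := hA e'
      have n1 : e' ≠ e := fun w => hT (w ▸ he')
      have n2 : e' ∉ T := fun w => (k3 w).2 he'
      simp only [Pi.add_apply, z1 e' n2, Pi.single_eq_of_ne n1, add_zero] at q
      linear_combination -two (A (r e')) - q
  refine ⟨U, T, U', T', k1, h1, h2, Set.disjoint_left.2 fun e a b => (k3 a).2 b, h3,
    fun e => ⟨?_, fun he => ?_⟩, c2, ?_⟩
  · rintro (q | q)
    exacts [(k3 q).1, (h1.ends e q).1]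
  · by_cases q : e ∈ T'
    exacts [Or.inr q, Or.inl (c3 e he q)]
  · intro v hv
    have := k1.const (c := fun v => ∃ e, l e ∈ U' ∧ (s e = v ∨ t e = v)) (fun e he =>
      propext ⟨fun _ => ⟨e, (k3 he).1, Or.inr rfl⟩, fun _ => ⟨e, (k3 he).1, Or.inl rfl⟩⟩) _ k2 _ hv
    exact this.mp ⟨e₀, l₀, Or.inl rfl⟩

end BEp
end

-- merged part: Pool.Agent.Work.MP_f0515e_an.D3.TbHan
section
/-! A surface cut into vertex discs, edge discs and face discs, whose edge cycles bound mod two, is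
a disjoint union of double discs. -/

open Set Metric Filter Topology Function BEv

noncomputable section
namespace BEp

variable {n : ℕ} {V E Fa : Type}

/-- Nodes `P`, bands `Q`, and the rest `O`. -/
structure Han (s t : E → V) (P : V → Set (Rn n)) (Q : E → Set (Rn n)) (O : Set (Rn n)) : Prop where
  pp : ∀ v v' x, x ∈ P v → x ∈ P v' → v = v'
  pq : ∀ v e x, x ∈ P v → x ∈ Q e → s e = v ∨ t e = v
  qq : ∀ e e' x, e ≠ e' → x ∈ Q e → x ∈ Q e' → x ∈ O ∧ ∃ v, x ∈ P v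
  po : ∀ v x, x ∈ P v → x ∈ O → ∃ e, x ∈ Q e
  dp : ∀ v, PDsc (P v) {x ∈ P v | x ∈ O ∨ ∃ e, x ∈ Q e}
  dq : ∀ e, PDsc (Q e) {x ∈ Q e | x ∈ O ∨ ∃ v, x ∈ P v}
  arc : ∀ e v, s e = v ∨ t e = v → ∃ x y, Arc (P v ∩ Q e) x y ∧ P v ∩ Q e ∩ O = {x, y}

/-- The neighbourhood of a subgraph. -/
def nbh (P : V → Set (Rn n)) (Q : E → Set (Rn n)) (U : Set V) (W : Set E) : Set (Rn n) :=
  {x | (∃ v ∈ U, x ∈ P v) ∨ ∃ e ∈ W, x ∈ Q e}

variable {s t : E → V} {l r : E → Fa} {P : V → Set (Rn n)} {Q : E → Set (Rn n)}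
  {R : Fa → Set (Rn n)} {O : Set (Rn n)} {U : Set V} {W : Set E}

theorem Han.tree (H : Han s t P Q O) (h : Tre s t U W) :
    PDsc (nbh P Q U W) {x ∈ nbh P Q U W | x ∈ O ∨ ∃ e, e ∉ W ∧ x ∈ Q e} := by
  induction h with
  | one v => simpa [nbh] using H.dp v
  | @grow U W e a b h hj ha hb ih =>
    have he := hj.notMem h hb
    have hab : ∀ v, s e = v ∨ t e = v ↔ v = a ∨ v = b := fun v => by
      rcases hj with ⟨rfl, rfl⟩ | ⟨rfl, rfl⟩ <;> tauto
    have hW : ∀ v, ∀ e' ∈ W, ∀ x, x ∈ P v → x ∈ Q e' → v ∈ U := fun v e' he' x p q => by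
      rcases H.pq v e' x p q with rfl | rfl
      exacts [(h.ends e' he').1, (h.ends e' he').2]
    obtain ⟨x₁, y₁, a1, e1⟩ := H.arc e a ((hab a).2 (Or.inl rfl))
    obtain ⟨x₂, y₂, a2, e2⟩ := H.arc e b ((hab b).2 (Or.inr rfl))
    have i1 : nbh P Q U W ∩ Q e = P a ∩ Q e := by
      have key : ∀ v ∈ U, ∀ x, x ∈ P v → x ∈ Q e → x ∈ P a := fun v hv x p q => by
        rcases (hab v).1 (H.pq v e x p q) with rfl | rfl
        exacts [p, (hb hv).elim]
      ext x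
      refine ⟨?_, fun q => ⟨Or.inl ⟨a, ha, q.1⟩, q.2⟩⟩
      rintro ⟨⟨v, hv, p⟩ | ⟨e', he', p⟩, q⟩
      · exact ⟨key v hv x p q, q⟩
      · obtain ⟨-, v, w⟩ := H.qq e' e x (fun w => he (w ▸ he')) p q
        exact ⟨key v (hW v e' he' x w p) x w q, q⟩
    have nb : ∀ x ∈ P b, x ∉ nbh P Q U W := by
      rintro x p (⟨v, hv, q⟩ | ⟨e', he', q⟩)
      exacts [hb (H.pp _ _ x q p ▸ hv), hb (hW b e' he' x p q)]
    have g1 := pdsc_glue ih (H.dq e) a1 i1
      (fun x q => ⟨Or.inl ⟨a, ha, q.1⟩, Or.inr ⟨e, he, q.2⟩⟩) fun x q => ⟨q.2, Or.inr ⟨a, q.1⟩⟩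
    have g2 := pdsc_glue g1 (H.dp b) a2 (by
        ext x
        exact ⟨fun q => ⟨q.2, q.1.resolve_left (nb x q.2)⟩, fun q => ⟨Or.inr q.2, q.1⟩⟩)
      (fun x q => ⟨Or.inr ⟨q.2, Or.inr ⟨b, q.1⟩⟩, fun w => nb x q.1 (Or.inl ⟨a, ha, w.1.1⟩)⟩)
      fun x q => ⟨q.1, Or.inr ⟨e, q.2⟩⟩
    have u : nbh P Q (insert b U) (insert e W) = nbh P Q U W ∪ Q e ∪ P b := by
      ext x
      simp only [nbh, mem_insert_iff, exists_eq_or_imp, mem_ofPred_eq, mem_union]
      generalize (∃ a ∈ U, x ∈ P a) = A, (∃ a ∈ W, x ∈ Q a) = B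
      (clear * -; tauto)
    rw [← e1, ← e2] at g2
    rw [u]
    convert g2 using 1
    ext x
    have k1 : x ∈ nbh P Q U W → x ∈ Q e → x ∈ P a := fun p q => (i1.subset ⟨p, q⟩).1
    have k2 : ∀ v, x ∈ P v → x ∈ Q e → x ∈ P a ∨ x ∈ P b := fun v p q =>
      ((hab v).1 (H.pq v e x p q)).imp (fun w : v = a => w ▸ p) fun w : v = b => w ▸ p
    simp only [mem_ofPred_eq, mem_union, Set.mem_sdiff, mem_inter_iff, mem_insert_iff, not_or]
    by_cases o : x ∈ O
    · simp only [o, true_or, and_true, and_not_self, not_false_eq_true]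
    simp only [o, false_or, and_false, not_false_eq_true, and_true]
    constructor
    · rintro ⟨p, e', ⟨n1, n2⟩, q⟩
      have : x ∉ Q e := fun w => o (H.qq e' e x n1 q w).1
      refine ⟨?_, fun w => this w.2⟩
      rcases p with (p | p) | p
      exacts [Or.inl ⟨Or.inl ⟨p, e', n2, q⟩, fun w => this w.2⟩, (this p).elim, Or.inr ⟨p, e', q⟩]
    · rintro ⟨⟨⟨p, e', n2, q⟩ | ⟨p, v, q⟩, n1⟩ | ⟨p, e', q⟩, n3⟩
      · exact ⟨Or.inl (Or.inl p), e', ⟨fun w => n1 ⟨k1 p (w ▸ q), w ▸ q⟩, n2⟩, q⟩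
      · exact ((k2 v q p).elim (fun w => n1 ⟨w, p⟩) fun w => n3 ⟨w, p⟩).elim
      · exact ⟨Or.inr p, e', ⟨fun w => n3 ⟨p, w ▸ q⟩, fun w => hb (hW b e' w x p q)⟩, q⟩

theorem Han.ne (H : Han s t P Q O) {e : E} {v : V} (h : s e = v ∨ t e = v) :
    ∃ x, x ∈ P v ∧ x ∈ Q e := by
  obtain ⟨x, y, -, q⟩ := H.arc e v h
  exact ⟨x, (q.superset (Or.inl rfl)).1⟩

theorem Han.ex (H : Han s t P Q O) (v : V) : ∃ e, s e = v ∨ t e = v := by
  obtain ⟨x, p, q⟩ := (H.dp v).conn_bd.nonempty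
  obtain ⟨e, w⟩ := q.elim (H.po v x p) id
  exact ⟨e, H.pq v e x p w⟩

theorem closed_fam {ι : Type} [Finite ι] {Q J : ι → Set (Rn n)} (h : ∀ i, PDsc (Q i) (J i))
    (c : ι → Prop) : IsClosed {x | ∃ i, c i ∧ x ∈ Q i} := by
  have := (toFinite {i | c i}).isClosed_biUnion fun i _ => (h i).cpt.isClosed
  convert this using 1
  ext x; simp

/-- The bands at a node are cyclically connected. -/
theorem Han.link [Finite E] (H : Han s t P Q O) (v : V) (c : E → Prop)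
    (hc : ∀ e e' x, x ∈ P v → x ∈ Q e → x ∈ Q e' → c e → c e') {e e' : E}
    (he : s e = v ∨ t e = v) (he' : s e' = v ∨ t e' = v) (h : c e) : c e' := by
  by_contra hn
  obtain ⟨x, p, q⟩ := H.ne he
  obtain ⟨x', p', q'⟩ := H.ne he'
  obtain ⟨z, hz, ⟨a, a1, a2⟩, b, b1, b2⟩ := isPreconnected_closed_iff.1 (H.dp v).conn_bd.2 _ _
    (closed_fam H.dq c) (closed_fam H.dq fun e => ¬ c e) (fun z hz => by
      obtain ⟨a, w⟩ := hz.2.elim (H.po v z hz.1) id
      by_cases u : c a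
      exacts [Or.inl ⟨a, u, w⟩, Or.inr ⟨a, u, w⟩])
    ⟨x, ⟨p, Or.inr ⟨e, q⟩⟩, e, h, q⟩ ⟨x', ⟨p', Or.inr ⟨e', q'⟩⟩, e', hn, q'⟩
  exact b1 (hc a b z hz.1 a2 b2 a1)

theorem han_sphere [Fintype V] [Fintype E] [Finite Fa] (H : Han s t P Q {x | ∃ f, x ∈ R f})
    (K : Han l r R Q {x | ∃ v, x ∈ P v})
    (hH : ∀ z : E → ZMod 2, (∀ v, ∑ e, z e * inc s t e v = 0) →
      ∃ A : Fa → ZMod 2, ∀ e, z e = A (l e) + A (r e))
    (hd : ∀ v f, ∑ e, inc s t e v * inc l r e f = 0) {x₀ : Rn n}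
    (hx : x₀ ∈ nbh P Q univ univ ∪ {x | ∃ f, x ∈ R f}) :
    ∃ D₁ D₂ J C, PDsc D₁ J ∧ PDsc D₂ J ∧ D₁ ∩ D₂ = J ∧ x₀ ∈ D₁ ∪ D₂ ∧ IsClosed C ∧
      Disjoint (D₁ ∪ D₂) C ∧ D₁ ∪ D₂ ∪ C = nbh P Q univ univ ∪ {x | ∃ f, x ∈ R f} := by
  obtain ⟨f₀, hf₀⟩ : ∃ f₀, x₀ ∈ R f₀ ∨ ∃ e, l e = f₀ ∧ (x₀ ∈ Q e ∨ x₀ ∈ P (s e) ∨ x₀ ∈ P (t e)) := by
    rcases hx with (⟨v, -, p⟩ | ⟨e, -, p⟩) | ⟨f, p⟩
    · obtain ⟨e, rfl | rfl⟩ := H.ex v
      exacts [⟨_, Or.inr ⟨e, rfl, Or.inr (Or.inl p)⟩⟩, ⟨_, Or.inr ⟨e, rfl, Or.inr (Or.inr p)⟩⟩]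
    exacts [⟨_, Or.inr ⟨e, rfl, Or.inl p⟩⟩, ⟨f, Or.inl p⟩]
  obtain ⟨U, T, U', T', t1, t2, m0, dj, lr, tt, su, us⟩ := tree_cotree s t l r hH hd
    (fun f c hc => by
      have key : ∀ e e', l e = f ∨ r e = f → l e' = f ∨ r e' = f → c (s e) → c (s e') :=
        fun e e' he he' => K.link f (fun e => c (s e)) (fun a b x p qa qb w => by
          by_cases u : a = b
          · exact u ▸ w
          obtain ⟨⟨v, pv⟩, -⟩ := K.qq a b x u qa qb
          have ha := hc a (K.pq f a x p qa)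
          have hb := hc b (K.pq f b x p qb)
          have : c v := by
            rcases H.pq v a x pv qa with rfl | rfl
            exacts [w, ha.1 w]
          rcases H.pq v b x pv qb with rfl | rfl
          exacts [this, hb.2 this]) he he'
      exact fun e e' he he' => ⟨key e e' he he', key e' e he' he⟩) K.ex f₀
  have rq : ∀ f e x, x ∈ R f → x ∈ Q e → (f ∈ U' ↔ l e ∈ U') := fun f e x p q => by
    rcases K.pq f e x p q with rfl | rfl
    exacts [Iff.rfl, (lr e).symm]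
  have qq : ∀ e e' x, x ∈ Q e → x ∈ Q e' → l e ∈ U' → l e' ∈ U' := fun e e' x p q w => by
    by_cases u : e = e'
    · exact u ▸ w
    obtain ⟨⟨f, pf⟩, -⟩ := H.qq e e' x u p q
    exact (rq f e' x pf q).1 ((rq f e x pf p).2 w)
  have pq : ∀ v e x, x ∈ P v → x ∈ Q e → (v ∈ U ↔ l e ∈ U') := fun v e x p q => by
    refine ⟨fun hv => ?_, fun w => ?_⟩
    · obtain ⟨e', a, b⟩ := us v hv
      exact H.link v (fun e => l e ∈ U') (fun a b x _ => qq a b x) b (H.pq v e x p q) a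
    · rcases H.pq v e x p q with rfl | rfl
      exacts [(su e w).1, (su e w).2]
  have pr : ∀ v f x, x ∈ P v → x ∈ R f → (v ∈ U ↔ f ∈ U') := fun v f x p q => by
    obtain ⟨e, w⟩ := H.po v x p ⟨f, q⟩
    exact (pq v e x p w).trans (rq f e x q w).symm
  have sat : ∀ x ∈ nbh P Q U T ∪ nbh R Q U' T', (∀ v, x ∈ P v → v ∈ U) ∧
      (∀ e, x ∈ Q e → l e ∈ U') ∧ ∀ f, x ∈ R f → f ∈ U' := by
    have a : ∀ x e, l e ∈ U' → x ∈ Q e → (∀ v, x ∈ P v → v ∈ U) ∧
        (∀ e, x ∈ Q e → l e ∈ U') ∧ ∀ f, x ∈ R f → f ∈ U' := fun x e w q =>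
      ⟨fun v p => (pq v e x p q).2 w, fun e' p => qq e e' x q p w, fun f p => (rq f e x p q).2 w⟩
    rintro x ((⟨v, hv, p⟩ | ⟨e, he, p⟩) | ⟨f, hf, p⟩ | ⟨e, he, p⟩)
    · exact ⟨fun v' q => H.pp _ _ x p q ▸ hv, fun e q => (pq v e x p q).1 hv,
        fun f q => (pr v f x p q).1 hv⟩
    · exact a x e ((tt e).1 (Or.inl he)) p
    · exact ⟨fun v q => (pr v f x q p).2 hf, fun e q => (rq f e x p q).1 hf,
        fun f' q => K.pp _ _ x p q ▸ hf⟩
    · exact a x e ((tt e).1 (Or.inr he)) p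
  have inq : ∀ x e, l e ∈ U' → x ∈ Q e → x ∈ nbh P Q U T ∪ nbh R Q U' T' := fun x e w q =>
    ((tt e).2 w).imp (fun u => Or.inr ⟨e, u, q⟩) fun u => Or.inr ⟨e, u, q⟩
  refine ⟨nbh P Q U T, nbh R Q U' T', nbh P Q U T ∩ nbh R Q U' T',
    {x | ∃ v, v ∉ U ∧ x ∈ P v} ∪ {x | ∃ e, l e ∉ U' ∧ x ∈ Q e} ∪ {x | ∃ f, f ∉ U' ∧ x ∈ R f},
    ?_, ?_, rfl, ?_, ((closed_fam H.dp _).union (closed_fam H.dq _)).union (closed_fam K.dp _),
    disjoint_left.2 ?_, ?_⟩
  · convert H.tree t1 using 1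
    ext x
    refine and_congr_right fun p => ⟨?_, ?_⟩
    · rintro (⟨f, -, q⟩ | ⟨e, he, q⟩)
      exacts [Or.inl ⟨f, q⟩, Or.inr ⟨e, disjoint_right.1 dj he, q⟩]
    · rintro (⟨f, q⟩ | ⟨e, he, q⟩)
      exacts [Or.inl ⟨f, (sat x (Or.inl p)).2.2 f q, q⟩,
        Or.inr ⟨e, ((tt e).2 ((sat x (Or.inl p)).2.1 e q)).resolve_left he, q⟩]
  · convert K.tree t2 using 1
    ext x
    rw [inter_comm]
    refine and_congr_right fun p => ⟨?_, ?_⟩
    · rintro (⟨f, -, q⟩ | ⟨e, he, q⟩)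
      exacts [Or.inl ⟨f, q⟩, Or.inr ⟨e, disjoint_left.1 dj he, q⟩]
    · rintro (⟨f, q⟩ | ⟨e, he, q⟩)
      exacts [Or.inl ⟨f, (sat x (Or.inr p)).1 f q, q⟩,
        Or.inr ⟨e, ((tt e).2 ((sat x (Or.inr p)).2.1 e q)).resolve_right he, q⟩]
  · rcases hf₀ with p | ⟨e, rfl, p | p | p⟩
    exacts [Or.inr (Or.inl ⟨_, m0, p⟩), inq _ e m0 p, Or.inl (Or.inl ⟨_, (su e m0).1, p⟩),
      Or.inl (Or.inl ⟨_, (su e m0).2, p⟩)]
  · rintro x p ((⟨v, a, q⟩ | ⟨e, a, q⟩) | ⟨f, a, q⟩)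
    exacts [a ((sat x p).1 v q), a ((sat x p).2.1 e q), a ((sat x p).2.2 f q)]
  · ext x
    constructor
    · rintro (((⟨v, -, p⟩ | ⟨e, -, p⟩) | ⟨f, -, p⟩ | ⟨e, -, p⟩) | (⟨v, -, p⟩ | ⟨e, -, p⟩) | ⟨f, -, p⟩)
      exacts [Or.inl (Or.inl ⟨v, trivial, p⟩), Or.inl (Or.inr ⟨e, trivial, p⟩), Or.inr ⟨f, p⟩,
        Or.inl (Or.inr ⟨e, trivial, p⟩), Or.inl (Or.inl ⟨v, trivial, p⟩),
        Or.inl (Or.inr ⟨e, trivial, p⟩), Or.inr ⟨f, p⟩]
    · rintro ((⟨v, -, p⟩ | ⟨e, -, p⟩) | ⟨f, p⟩)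
      · by_cases u : v ∈ U
        exacts [Or.inl (Or.inl (Or.inl ⟨v, u, p⟩)), Or.inr (Or.inl (Or.inl ⟨v, u, p⟩))]
      · by_cases u : l e ∈ U'
        exacts [Or.inl (inq x e u p), Or.inr (Or.inl (Or.inr ⟨e, u, p⟩))]
      · by_cases u : f ∈ U'
        exacts [Or.inl (Or.inr (Or.inl ⟨f, u, p⟩)), Or.inr (Or.inr ⟨f, u, p⟩)]

end BEp
end
end

-- merged part: Pool.Agent.Work.MP_f0515e_an.D3.TbHan2
section
/-! Handle structures from the intersection pattern of the pieces. -/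

open Set Metric Filter Topology Function BEv

noncomputable section
namespace BEp

variable {n : ℕ} {V E Fa : Type} {s t : E → V} {l r : E → Fa} {P : V → Set (Rn n)}
  {Q : E → Set (Rn n)} {R : Fa → Set (Rn n)}

theorem han_of [Finite E] [Finite Fa] (pp : ∀ v v' x, x ∈ P v → x ∈ P v' → v = v')
    (rr : ∀ v v' x, x ∈ R v → x ∈ R v' → v = v')
    (pq : ∀ v e x, x ∈ P v → x ∈ Q e → s e = v ∨ t e = v)
    (rq : ∀ v e x, x ∈ R v → x ∈ Q e → l e = v ∨ r e = v) (lr : ∀ e, l e ≠ r e)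
    (qq : ∀ e e' x, e ≠ e' → x ∈ Q e → x ∈ Q e' → (∃ f, x ∈ R f) ∧ ∃ v, x ∈ P v)
    (po : ∀ v f x, x ∈ P v → x ∈ R f → ∃ e e', e ≠ e' ∧ x ∈ Q e ∧ x ∈ Q e')
    (dp : ∀ v, PDsc (P v) {x ∈ P v | (∃ f, x ∈ R f) ∨ ∃ e, x ∈ Q e})
    (dq : ∀ e, PDsc (Q e) {x ∈ Q e | (∃ f, x ∈ R f) ∨ ∃ v, x ∈ P v})
    (cr : ∀ f, IsClosed (R f))
    (tri : ∀ e v f, s e = v ∨ t e = v → l e = f ∨ r e = f →
      ∃ a, ∀ x, x ∈ P v ∧ x ∈ Q e ∧ x ∈ R f ↔ x = a)
    (mid : ∀ e v, s e = v ∨ t e = v → ∃ x, x ∈ P v ∧ x ∈ Q e ∧ ∀ f, x ∉ R f) :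
    Han s t P Q {x | ∃ f, x ∈ R f} := by
  refine ⟨pp, pq, qq, fun v x p ⟨f, q⟩ => let ⟨e, _, _, a, _⟩ := po v f x p q; ⟨e, a⟩, dp, dq,
    fun e v h => ?_⟩
  obtain ⟨a, ha⟩ := tri e v _ h (Or.inl rfl)
  obtain ⟨b, hb⟩ := tri e v _ h (Or.inr rfl)
  have a1 := (ha a).2 rfl
  have b1 := (hb b).2 rfl
  have e1 : P v ∩ Q e ∩ {x | ∃ f, x ∈ R f} = {a, b} := by
    ext x
    constructor
    · rintro ⟨⟨p, q⟩, f, w⟩
      rcases rq f e x w q with rfl | rfl
      exacts [Or.inl ((ha x).1 ⟨p, q, w⟩), Or.inr ((hb x).1 ⟨p, q, w⟩)]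
    · rintro (rfl | rfl)
      exacts [⟨⟨a1.1, a1.2.1⟩, _, a1.2.2⟩, ⟨⟨b1.1, b1.2.1⟩, _, b1.2.2⟩]
  have cp := (dp v).cpt.isClosed
  refine ⟨a, b, arc_uniq (PCel.crc (dp v)) (cp.inter (dq e).cpt.isClosed)
    (D₂ := P v ∩ ((⋃ f, R f) ∪ {x | ∃ e', e' ≠ e ∧ x ∈ Q e'}))
    (cp.inter ((isClosed_iUnion_of_finite cr).union (closed_fam dq _))) ?_ ?_
    (fun q => lr e (rr _ _ a a1.2.2 (q ▸ b1.2.2))) ?_ ?_, e1⟩
  · ext x
    simp only [mem_union, mem_inter_iff, mem_iUnion, mem_ofPred_eq]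
    (clear * - a1 b1 po; grind)
  · rw [← e1]
    ext x
    have := qq e
    simp only [mem_union, mem_inter_iff, mem_iUnion, mem_ofPred_eq]
    (clear * - a1 po qq; grind)
  · obtain ⟨x, p, q, w⟩ := mid e v h
    exact fun u => let ⟨f, z⟩ := (e1.superset (u ⟨p, q⟩)).2; w f z
  · obtain ⟨e', ne, q⟩ : ∃ e', e' ≠ e ∧ a ∈ Q e' := by
      obtain ⟨e₁, e₂, u, v, w⟩ := po v _ a a1.1 a1.2.2
      by_cases z : e₁ = e
      exacts [⟨e₂, fun y => u (z.trans y.symm), w⟩, ⟨e₁, z, v⟩]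
    obtain ⟨x, p, q, w⟩ := mid e' v (pq v e' a a1.1 q)
    exact fun u => let ⟨f, z⟩ := (e1.superset (u ⟨p, Or.inr ⟨e', ne, q⟩⟩)).2; w f z

theorem han_crc [Fintype V] [Fintype E] [Finite Fa] (H : Han s t P Q {x | ∃ f, x ∈ R f})
    (K : Han l r R Q {x | ∃ v, x ∈ P v})
    (hH : ∀ z : E → ZMod 2, (∀ v, ∑ e, z e * inc s t e v = 0) →
      ∃ A : Fa → ZMod 2, ∀ e, z e = A (l e) + A (r e))
    (hd : ∀ v f, ∑ e, inc s t e v * inc l r e f = 0) {c X : Set (Rn n)} (hc : Crc c) (hs : c ⊆ X)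
    (hX : X = nbh P Q univ univ ∪ {x | ∃ f, x ∈ R f}) :
    ∃ A B C, PDsc A c ∧ PDsc B c ∧ A ∩ B = c ∧ IsClosed C ∧ Disjoint (A ∪ B) C ∧
      A ∪ B ∪ C = X := by
  obtain ⟨x, hx⟩ := hc.tcrc.conn.nonempty
  obtain ⟨D₁, D₂, J, C, h1, h2, h3, h4, h5, h6, h7⟩ := han_sphere H K hH hd (hX ▸ hs hx)
  rcases isPreconnected_iff_subset_of_disjoint_closed.1 hc.tcrc.conn.2 _ _
    (h1.cpt.union h2.cpt).isClosed h5 (h7 ▸ hX ▸ hs) (by rw [h6.inter_eq, inter_empty]) with q | q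
  · obtain ⟨A, B, a, b, u, v⟩ := sphj h1 h2 h3 hc q
    exact ⟨A, B, C, a, b, v, h5, u ▸ h6, by rw [u, h7, hX]⟩
  · exact (disjoint_left.1 h6 h4 (q hx)).elim

end BEp
end
end
end

-- merged part: Pool.Agent.Work.MP_f0515e_an.D3.TbGeo3
section
-- merged part: Pool.Agent.Work.MP_f0515e_an.D3.TbGeo2
section
/-! The pieces of the boundary surface round the centres of the boundary cells. -/

open Set Metric Filter Topology Function BEv

noncomputable section
namespace BEp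
namespace Cub
variable {κ : Type} {K : Cub κ} {S : Set κ} {y y' g : κ × Sg} {p : Rn 3} {x : FF κ}
  {i k : Fin 3}

/-- The piece of the boundary surface round the centre of `y`. -/
def Pc (K : Cub κ) (S : Set κ) (y : κ × Sg) (x : FF κ) : Prop :=
  x ∈ K.Bd S ∧ ‖x.1 - K.ctr y‖ ≤ 1 / 4 ∧ K.sec y.1 x.1 = x

theorem Pc.stz (h : K.Pc S y x) : x.1 ∈ stz (K.pos y.1) := ctr_stz (h.2.1.trans_lt (by norm_num))

theorem Pc.abs (h : K.Pc S y x) (i : Fin 3) : |x.1 i - (K.dc y i : ℝ) / 2| ≤ 1 / 4 :=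
  (norm_le_pi_norm (x.1 - K.ctr y) i).trans h.2.1

theorem dc_par (y : κ × Sg) (i : Fin 3) : y.2 i = 0 ↔ K.dc y i % 2 = 0 := by
  unfold dc
  rcases sg_int (y.2 i) with ⟨v, w⟩ | ⟨v, w⟩ | ⟨v, w⟩ <;> simp [v]

theorem Pc.near (h : K.Pc S y x) (h' : K.Pc S y' x) (i : Fin 3) :
    K.dc y i ≤ K.dc y' i + 1 := by
  have a := abs_le.1 (h.abs i)
  have b := abs_le.1 (h'.abs i)
  exact Int.cast_le (R := ℝ).1 (by push_cast; linarith)

theorem Pc.at (h' : K.Pc S y' x) (e : x.1 i = K.ctr y i) : K.dc y' i = K.dc y i := by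
  have b := abs_le.1 (h'.abs i)
  simp only [e, ctr] at b
  have u : K.dc y' i < K.dc y i + 1 := Int.cast_lt (R := ℝ).1 (by push_cast; linarith)
  have v : K.dc y i < K.dc y' i + 1 := Int.cast_lt (R := ℝ).1 (by push_cast; linarith)
  omega

theorem Pc.uniq (hK : K.Ok S) (c : K.Can S y) (c' : K.Can S y') (h : K.Pc S y x)
    (h' : K.Pc S y' x) (e : ∀ i, K.dc y i = K.dc y' i) : y = y' :=
  let ⟨a, b⟩ := can_ext c c' e
  Prod.ext (hK.inj_le c.1 c'.1 (K.fa_le _ (car x.1))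
    (hK.sec_inj c.1 c'.1 h.stz h'.stz (h.2.2.trans h'.2.2.symm) ▸ K.fa_le _ _) a) b

theorem Pc.same (hK : K.Ok S) (c : K.Can S y) (c' : K.Can S y') (h : K.Pc S y x)
    (h' : K.Pc S y' x) (e : ∀ i, y.2 i = 0 ↔ y'.2 i = 0) : y = y' :=
  h.uniq hK c c' h' fun i => by
    have := h.near h' i
    have := h'.near h i
    have := e i
    rw [dc_par (K := K), dc_par (K := K)] at this
    omega

theorem Pc.dif (h : K.Pc S y x) (h' : K.Pc S y' x) (e : ¬ (y.2 i = 0 ↔ y'.2 i = 0)) :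
    ‖x.1 - K.ctr y‖ = 1 / 4 := by
  refine h.2.1.antisymm (le_trans ?_ (norm_le_pi_norm (x.1 - K.ctr y) i))
  rw [dc_par (K := K), dc_par (K := K)] at e
  have b := abs_le.1 (h'.abs i)
  change _ ≤ |x.1 i - (K.dc y i : ℝ) / 2|
  rw [le_abs]
  rcases (by omega : K.dc y i + 1 ≤ K.dc y' i ∨ K.dc y' i + 1 ≤ K.dc y i) with q | q <;>
    have := Int.cast_le (R := ℝ).2 q <;> push_cast at this
  exacts [Or.inl (by linarith), Or.inr (by linarith)]

theorem Pc.face (hK : K.Ok S) {σ : κ} (hσ : σ ∈ S) (hx : x ∈ K.Bd S) (e : K.sec σ x.1 = x)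
    (l : K.Le y.1 σ) (h : ‖x.1 - K.ctr y‖ ≤ 1 / 4) : K.Pc S y x :=
  ⟨hx, h, (hK.sec_eq hσ l (ctr_stz (h.trans_lt (by norm_num)))).trans e⟩

theorem res_univ (a : Sg) : res a Finset.univ = a := by ext i; simp [res]

variable [Fintype κ]

theorem Pc.bc (hK : K.Ok S) (c : K.Can S y) (h : K.Pc S y x) : K.Bc S y := ⟨c, fun q =>
  ((bd_loc hK c (h.2.1.trans_lt (by norm_num))).1 (h.2.2.symm ▸ h.1)).2
    ⟨Finset.univ, by rwa [res_univ], by simp⟩⟩

theorem pc_cov (hK : K.Ok S) (hx : x ∈ K.Bd S) {c : Z3} (h : ∀ i, |x.1 i - (c i : ℝ) / 2| ≤ 1 / 4) :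
    ∃ y, K.Bc S y ∧ K.Pc S y x ∧ ∀ i, K.dc y i = c i := by
  obtain ⟨σ, hσ, b, e⟩ := mem_VV'.1 hx.1
  have : ∀ i, ∃ a : SignType, 2 * K.pos σ i + a = c i := fun i => by
    have q : |x.1 i - K.pos σ i| ≤ 1 / 2 :=
      (norm_le_pi_norm (x.1 - zr (K.pos σ)) i).trans (mem_closedBall_iff_norm.1 b)
    have a := abs_le.1 q
    have b := abs_le.1 (h i)
    have u : c i < 2 * K.pos σ i + 2 := Int.cast_lt (R := ℝ).1 (by push_cast; linarith)
    have v : 2 * K.pos σ i < c i + 2 := Int.cast_lt (R := ℝ).1 (by push_cast; linarith)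
    rcases lt_trichotomy (c i) (2 * K.pos σ i) with w | w | w
    exacts [⟨-1, by simp; omega⟩, ⟨0, by simp [w]⟩, ⟨1, by simp; omega⟩]
  choose t ht using this
  have d : ∀ i, K.dc (K.cel σ t) i = c i := fun i => (dc_cel hK hσ t i).trans (ht i)
  have m := Pc.face hK hσ hx e (cel_le hK hσ t).1
    ((pi_norm_le_iff_of_nonneg (by norm_num)).2 fun i => by simpa [ctr, d] using h i)
  exact ⟨_, m.bc hK (cel_can hK hσ t), m, d⟩

theorem Pc.mix (hK : K.Ok S) (h : K.Pc S y x) (h' : K.Pc S y' x) (i : Fin 3) :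
    ∃ g, K.Bc S g ∧ K.Pc S g x ∧ ∀ j, g.2 j = 0 ↔ if j = i then y'.2 j = 0 else y.2 j = 0 := by
  obtain ⟨g, a, b, c⟩ := pc_cov hK h.1 (c := update (K.dc y) i (K.dc y' i)) fun j => by
    by_cases q : j = i
    · simpa [q] using h'.abs i
    · simpa [q] using h.abs j
  refine ⟨g, a, b, fun j => ?_⟩
  simp only [dc_par (K := K), c]
  by_cases q : j = i <;> simp [q]

theorem Pc.nbr (hK : K.Ok S) (h : K.Pc S y x) (e : ‖x.1 - K.ctr y‖ = 1 / 4) :
    ∃ i g, K.Bc S g ∧ K.Pc S g x ∧ ∀ j, g.2 j = 0 ↔ if j = i then y.2 j ≠ 0 else y.2 j = 0 := by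
  obtain ⟨i, hi⟩ : ∃ i, 1 / 4 ≤ |x.1 i - (K.dc y i : ℝ) / 2| := by
    by_contra! q
    exact ((pi_norm_lt_iff (by norm_num)).2 q : ‖x.1 - K.ctr y‖ < 1 / 4).ne e
  obtain ⟨a, ha, u⟩ : ∃ a : ℤ, (a = 1 ∨ a = -1) ∧
      |x.1 i - ((K.dc y i + a : ℤ) : ℝ) / 2| ≤ 1 / 4 := by
    have b := abs_le.1 (h.abs i)
    rcases le_abs.1 hi with q | q
    exacts [⟨1, Or.inl rfl, abs_le.2 ⟨by push_cast; linarith, by push_cast; linarith⟩⟩,
      ⟨-1, Or.inr rfl, abs_le.2 ⟨by push_cast; linarith, by push_cast; linarith⟩⟩]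
  obtain ⟨g, a1, b, c⟩ := pc_cov hK h.1 (c := update (K.dc y) i (K.dc y i + a)) fun j => by
    by_cases q : j = i
    · simpa [q] using u
    · simpa [q] using h.abs j
  refine ⟨i, g, a1, b, fun j => ?_⟩
  simp only [ne_eq, dc_par (K := K), c]
  by_cases q : j = i <;> simp [q]
  omega

omit [Fintype κ] in
theorem Pc.fac (hK : K.Ok S) (c : K.Can S y) (c' : K.Can S g) (h : K.Pc S y x)
    (h' : K.Pc S g x) (hk : g.2 k = 0) (hy : y.2 k ≠ 0)
    (e : ∀ i, i ≠ k → (y.2 i = 0 ↔ g.2 i = 0)) : ∃ b, K.en g k b = y := by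
  have a := h.near h'
  have a' := h'.near h
  simp only [ne_eq, dc_par (K := K)] at hy e
  obtain ⟨b, hb⟩ : ∃ b, K.dc y k = K.dc g k + sb b := by
    have := a k
    have := a' k
    have := (dc_par (K := K) g k).1 hk
    by_cases q : K.dc y k < K.dc g k
    exacts [⟨false, by simp [sb]; omega⟩, ⟨true, by simp [sb]; omega⟩]
  have d : ∀ i, K.dc (K.en g k b) i = K.dc y i := fun i => by
    rw [dc_en hK c'.1 hk]
    split_ifs with q
    · rw [q, hb]
    · have := a i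
      have := a' i
      have := e i q
      omega
  exact ⟨b, Pc.uniq hK (en_can hK c'.1 k b) c (Pc.face hK c'.1 h.1 h'.2.2 (cel_le hK c'.1 _).1
    (by rw [show K.ctr (K.en g k b) = K.ctr y from funext fun i => by simp only [ctr, d]]
        exact h.2.1)) h d⟩

theorem sec_pc (hK : K.Ok S) (c : K.Bc S y) (h : ‖p - K.ctr y‖ ≤ 1 / 4)
    (e : ∀ i, y.2 i ≠ 0 → p i = K.ctr y i) : K.Pc S y (K.sec y.1 p) := by
  refine ⟨(bd_loc hK c.1 (h.trans_lt (by norm_num))).2 ⟨⟨Finset.univ.filter fun i => y.2 i = 0,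
    ⟨_, c.1.1, Le.refl .., fun i => ?_⟩, fun i hi => ?_⟩, fun ⟨A, a, b⟩ => c.2 ?_⟩, h, rfl⟩
  · by_cases q : y.2 i = 0 <;> simp [res, q]
  · simp [e i (by simpa using hi)]
  · convert a
    ext i
    by_cases q : y.2 i = 0
    · simp [res, q]
    · have : i ∈ A := by_contra fun w => by simpa [e i q] using b i w
      simp [res, this]

theorem Pc.half (hK : K.Ok S) (c : K.Can S y) (h : K.Pc S y x) :
    ∃ i, y.2 i ≠ 0 ∧ x.1 i = K.ctr y i := by
  obtain ⟨⟨A, a, b⟩, n⟩ := (bd_loc hK c (h.2.1.trans_lt (by norm_num))).1 (h.2.2.symm ▸ h.1)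
  by_contra! q
  refine n ⟨A ∪ Finset.univ.filter fun i => y.2 i = 0, ?_, fun i hi => ?_⟩
  · convert a using 1
    ext i
    by_cases q : y.2 i = 0 <;> simp [res, q]
  · simp only [Finset.mem_union, Finset.mem_filter, Finset.mem_univ, true_and, not_or] at hi
    refine (b i hi.1).lt_of_ne (mul_ne_zero (fun w => ?_) (sub_ne_zero.2 (q i hi.2)))
    simpa [w] using wd_sq y.2 i

theorem pc_disc (hK : K.Ok S) (c : K.Bc S y) {N : ℕ} (T : FF κ ≃L[ℝ] Rn N) :
    PDsc {z | K.Pc S y (T.symm z)} {z | K.Pc S y (T.symm z) ∧ ‖(T.symm z).1 - K.ctr y‖ = 1 / 4} := by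
  obtain ⟨Z, h1, h2⟩ := minmax_disc (fun A => K.Ex S y.1 (res y.2 A))
    ⟨_, c.1.1, Le.refl .., by simp [res]⟩ (by simpa [res_univ] using c.2) (wd_sq y.2)
  have key : ∀ P : ℝ → Prop, (∀ r, P r → r ≤ 1) →
      {z | K.Pc S y (T.symm z) ∧ P (4 * ‖(T.symm z).1 - K.ctr y‖)} =
      (fun u => T (K.sec y.1 (K.ctr y + (1 / 4 : ℝ) • u))) '' {u ∈ Z | P ‖u‖} := fun P hP => by
    have a : ∀ u, ‖u‖ ≤ 1 → (K.sec y.1 (K.ctr y + (1 / 4 : ℝ) • u) ∈ K.Bd S ↔ u ∈ Z) :=
      fun u hu => by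
        rw [bd_loc hK c.1 (by simp [norm_smul]; linarith), h2]
        have : ∀ a b : ℝ, (a * (4⁻¹ * b) ≤ 0 ↔ a * b ≤ 0) ∧ (a * (4⁻¹ * b) < 0 ↔ a * b < 0) :=
          fun a b => by rw [mul_left_comm]; constructor <;> constructor <;> intro <;> linarith
        simp [this]
    ext z
    constructor
    · rintro ⟨⟨p, q, r⟩, w⟩
      have e : K.ctr y + (1 / 4 : ℝ) • (4 : ℝ) • ((T.symm z).1 - K.ctr y) = (T.symm z).1 := by
        simp [smul_smul]
      have n : ‖(4 : ℝ) • ((T.symm z).1 - K.ctr y)‖ = 4 * ‖(T.symm z).1 - K.ctr y‖ := by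
        simp [norm_smul]
      exact ⟨_, ⟨(a _ (by linarith)).1 (by rwa [e, r]), n ▸ w⟩, by simp only [e, r]; simp⟩
    · rintro ⟨u, ⟨p, q⟩, rfl⟩
      have := hP _ q
      simp only [mem_ofPred_eq, T.symm_apply_apply]
      exact ⟨⟨(a u this).2 p, by simp [norm_smul]; linarith, rfl⟩, by simpa [norm_smul] using q⟩
  have := h1.image (g := fun u => T (K.sec y.1 (K.ctr y + (1 / 4 : ℝ) • u)))
    ((TP.clm (T : FF κ →L[ℝ] Rn N)).comp ((K.sec_tp _).comp ((TP.const _).add (TP.id'.const_smul _))))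
    fun u _ v _ e => by simpa using congrArg Prod.fst (T.injective e)
  rw [← key (· ≤ 1) fun _ => id, ← key (· = 1) fun _ => le_of_eq] at this
  convert this using 1 <;> ext x
  · exact ⟨fun h => ⟨h, by linarith [h.2.1]⟩, fun h => h.1⟩
  · exact and_congr_right fun _ => ⟨fun h => by linarith, fun h => by linarith⟩

end Cub
end BEp
end
end

-- merged part: Pool.Agent.Work.MP_f0515e_an.D3.TbHom2
section
/-! Closed cochains on the edges of the voxel complex are exact. -/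

open Function Finset

noncomputable section
namespace BEp

theorem cube_const {A : Type} {D : (Fin 3 → Bool) → A}
    (h : ∀ k β, D (update β k true) = D (update β k false)) (β β' : Fin 3 → Bool) : D β = D β' := by
  have a : ∀ k β b, D (update β k b) = D β := fun k β b => by
    have := h k β
    conv_rhs => rw [← update_eq_self k β]
    cases b <;> cases β k <;> simp [this]
  rw [← a 0 β (β' 0), ← a 1 _ (β' 1), ← a 2 _ (β' 2)]
  congr 1
  ext i; fin_cases i <;> simp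

namespace Cub
variable {κ : Type} {K : Cub κ} {S : Set κ} {σ : κ} {e g : κ × Sg} {i j k : Fin 3} {t : Sg}

theorem pos_fc (hK : K.Ok S) (hσ : σ ∈ S) (o : Odd (K.pos σ i)) (b : Bool) (j : Fin 3) :
    K.pos (K.fc σ i b) j = K.pos σ j + if j = i then (sb b : ℤ) else 0 := by
  rw [hK.od σ hσ i b o, sb_int]
  by_cases q : j = i <;> simp [q]

theorem cel_fc (hK : K.Ok S) (hσ : σ ∈ S) (o : Odd (K.pos σ i)) (b : Bool) (t : Sg) :
    K.cel (K.fc σ i b) (update t i (-sb b)) = K.cel σ (update t i (sb b)) := by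
  have m := hK.mem σ hσ i b
  refine (cel_eq hK hσ (cel_can hK m _) ((cel_le hK m _).1.trans (K.le_fc ..)) fun j => ?_).symm
  rw [dc_cel hK m, pos_fc hK hσ o]
  by_cases q : j = i <;> simp [q]
  ring

theorem en_even (hK : K.Ok S) (he : K.Can S e) (o : ¬ Odd (K.pos e.1 k)) (b : Bool) :
    K.en e k b = (e.1, update e.2 k (sb b)) :=
  cel_self hK (y := (e.1, update e.2 k (sb b))) ⟨he.1, fun i w => by
    by_cases q : i = k
    exacts [(o (q ▸ w)).elim, by simpa [q] using he.2 i w]⟩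

theorem en_odd (hK : K.Ok S) (he : K.Can S e) (o : Odd (K.pos e.1 k)) (b : Bool) :
    K.en e k b = (K.fc e.1 k b, update e.2 k (-sb b)) := by
  rw [en, ← cel_fc hK he.1 o]
  refine cel_self hK (y := (_, update e.2 k (-sb b))) ⟨hK.mem _ he.1 k b, fun i w => ?_⟩
  rw [pos_fc hK he.1 o] at w
  by_cases q : i = k
  · simp only [q, if_true, sb_int, Int.odd_iff] at w o
    cases b <;> simp only [sgb] at w <;> omega
  · simpa [q] using he.2 i (by simpa [q] using w)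

theorem coc_of (hK : K.Ok S) {d : κ → Fin 3 → Bool → ZMod 2}
    (h : ∀ σ ∈ S, ∀ i j b b', i ≠ j → Odd (K.pos σ i) → Odd (K.pos σ j) →
      d σ i b + d (K.fc σ i b) j b' = d σ j b' + d (K.fc σ j b') i b) :
    K.Coc S fun σ i b => if Odd (K.pos σ i) then d σ i b else 0 := by
  refine ⟨fun σ _ i b w => if_neg (Int.not_odd_iff_even.2 w), fun σ hσ i j b b' hij => ?_⟩
  by_cases o : Odd (K.pos σ i) <;> by_cases o' : Odd (K.pos σ j)
  · simpa [pos_fc hK hσ o, pos_fc hK hσ o', hij, hij.symm, o, o'] using h σ hσ i j b b' hij o o'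
  · simp [pos_fc hK hσ o, hK.ev σ hσ j b' (Int.not_odd_iff_even.1 o'), hij.symm, o, o']
  · simp [pos_fc hK hσ o', hK.ev σ hσ i b (Int.not_odd_iff_even.1 o), hij, o, o']
  · simp [hK.ev σ hσ j b' (Int.not_odd_iff_even.1 o'), hK.ev σ hσ i b (Int.not_odd_iff_even.1 o),
      o, o']

theorem closed_exact (hK : K.Ok S) (hA : K.Acyc S) (ω : κ × Sg → ZMod 2)
    (hω : ∀ g h, K.Can S g → (∀ i, g.2 i = 0 ↔ i ≠ h) →
      ∑ k, (if g.2 k = 0 then ω (K.en g k true) + ω (K.en g k false) else 0) = 0) :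
    ∃ Ψ : κ × Sg → ZMod 2, ∀ e k, K.Can S e → (∀ i, e.2 i = 0 ↔ i = k) →
      ω e = Ψ (K.en e k true) + Ψ (K.en e k false) := by
  have n1 : ∀ k : Fin 3, k + 1 ≠ k ∧ k + 2 ≠ k := by decide
  have P := fun σ (hσ : σ ∈ S) => cube_pot
    (fun k β => ω (K.cel σ (update (fun i => sb (β i)) k 0)))
    (fun k β b => by congr 2; ext i; by_cases q : i = k <;> simp [q]) fun k β => by
      have := hω (K.cel σ (Pi.single k (sb (β k)))) k (cel_can hK hσ _) fun i => by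
        rw [cel_zero]; by_cases q : i = k <;> simp [q, sb_ne]
      rw [sum3 _ k] at this
      simp only [cel_zero, Pi.single_eq_same, sb_ne, if_false, Pi.single_eq_of_ne (n1 k).1,
        Pi.single_eq_of_ne (n1 k).2, if_true, zero_add,
        en_cel hK hσ (Pi.single_eq_of_ne (n1 k).1 _),
        en_cel hK hσ (Pi.single_eq_of_ne (n1 k).2 _)] at this
      rw [add_comm, ← this]
      congr 4 <;> ext i <;> fin_cases k <;> fin_cases i <;> simp
  choose! ψ hψ using P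
  have D : ∀ σ ∈ S, ∀ i b, Odd (K.pos σ i) → ∀ β β' : Fin 3 → Bool,
      ψ σ (update β i b) + ψ (K.fc σ i b) (update β i !b) =
        ψ σ (update β' i b) + ψ (K.fc σ i b) (update β' i !b) := fun σ hσ i b o =>
    cube_const (D := fun β => ψ σ (update β i b) + ψ (K.fc σ i b) (update β i !b)) fun k β => by
      by_cases q : k = i
      · simp [q]
      have a := hψ σ hσ k (update β i b)
      have c := hψ _ (hK.mem σ hσ i b) k (update β i !b)
      have u : ∀ b, update (fun j => sb (update β i b j)) k 0 =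
          update (update (fun j => sb (β j)) k 0) i (sb b) := fun b => by
        ext j
        by_cases w : j = k
        · simp [w, q]
        · by_cases w' : j = i <;> simp [w, w', Ne.symm q]
      simp only [u, sb_not, cel_fc hK hσ o] at a c
      simp only [update_comm q]
      grind
  obtain ⟨φ, hφ⟩ := hA _ (coc_of hK (d := fun σ i b => ψ σ (update (fun _ => true) i b) +
      ψ (K.fc σ i b) (update (fun _ => true) i !b)) fun σ hσ i j b b' hij o o' => by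
    have a := D σ hσ i b o (fun _ => true) (update (fun _ => true) j b')
    have c := D σ hσ j b' o' (fun _ => true) (update (fun _ => true) i b)
    have a' := D _ (hK.mem σ hσ i b) j b' (by simpa [pos_fc hK hσ o, hij.symm] using o')
      (fun _ => true) (update (fun _ => true) i !b)
    have c' := D _ (hK.mem σ hσ j b') i b (by simpa [pos_fc hK hσ o', hij] using o)
      (fun _ => true) (update (fun _ => true) j !b')
    rw [a, c, a', c', hK.comm σ hσ i j b b' hij]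
    simp only [update_comm hij]
    clear * -
    grind)
  refine ⟨fun y => ψ y.1 (fun i => decide (y.2 i = 1)) + φ y.1, fun e k he hz => ?_⟩
  have a := hψ e.1 he.1 k fun i => decide (e.2 i = 1)
  have u : update (fun i => sb (decide (e.2 i = 1))) k 0 = e.2 := by
    ext i
    by_cases q : i = k
    · simp [q, (hz k).2 rfl]
    · have := mt (hz i).1 q
      simp only [ne_eq, q, not_false_eq_true, update_of_ne]
      revert this
      generalize e.2 i = x
      revert x; decide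
  have v : ∀ b, (fun i => decide (update e.2 k (sb b) i = 1)) =
      update (fun i => decide (e.2 i = 1)) k b := fun b => by
    ext i
    by_cases q : i = k
    · cases b <;> simp [q, sb]
    · simp [q]
  have key : ∀ b, ψ (K.en e k b).1 (fun i => decide ((K.en e k b).2 i = 1)) + φ (K.en e k b).1 =
      ψ e.1 (update (fun i => decide (e.2 i = 1)) k b) + φ e.1 := fun b => by
    by_cases o : Odd (K.pos e.1 k)
    · have c := hφ e.1 he.1 k b
      simp only [o, if_true, D e.1 he.1 k b o (fun _ => true) fun i => decide (e.2 i = 1)] at c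
      simp only [en_odd hK he o, ← sb_not, v]
      grind
    · simp only [en_even hK he o, v]
  simp only [u, cel_self hK he] at a
  simp only [key, a]
  (clear * -; grind)

end Cub
end BEp
end
end

-- merged part: Pool.Agent.Work.MP_f0515e_an.D3.TbHom3
section
/-! The boundary vertices, edges and faces of the voxel complex; edge cycles bound. -/

open Function Finset

noncomputable section
namespace BEp
namespace Cub
variable {κ : Type} (K : Cub κ) (S : Set κ)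

abbrev BV : Type := {y : κ × Sg // K.Bc S y ∧ ∀ i, y.2 i ≠ 0}
abbrev BE : Type := {q : (κ × Sg) × Fin 3 // K.Bc S q.1 ∧ ∀ i, q.1.2 i = 0 ↔ i = q.2}
abbrev BF : Type := {y : κ × Sg // K.Bc S y ∧ ∃ h, ∀ i, y.2 i = 0 ↔ i ≠ h}

instance [Finite κ] : Fintype (K.BV S) := Fintype.ofFinite _
instance [Finite κ] : Fintype (K.BE S) := Fintype.ofFinite _
instance [Finite κ] : Fintype (K.BF S) := Fintype.ofFinite _

open Classical in
def side (e : κ × Sg) (i j : Fin 3) : κ × Sg :=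
  if K.Ex S e.1 (Pi.single i (e.2 i)) then K.out S e i else inn e j

variable {K S} {e : κ × Sg} {i j k : Fin 3}

theorem inn_single (hz : ∀ x, e.2 x = 0 ↔ x = k) (hi : i ≠ k) (hj : j ≠ k) (hij : i ≠ j) :
    inn e j = (e.1, Pi.single i (e.2 i)) := by
  refine Prod.ext rfl (funext fun x => ?_)
  have : x = i ∨ x = j ∨ x = k := by omega
  rcases this with rfl | rfl | rfl
  · simp [inn, hij]
  · simp [inn, hij.symm]
  · simp [inn, hi.symm, hj.symm, (hz x).2 rfl]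

theorem side_bc (he : K.Bc S e) (hz : ∀ x, e.2 x = 0 ↔ x = k) (hi : i ≠ k) (hj : j ≠ k)
    (hij : i ≠ j) : K.Bc S (K.side S e i j) ∧ ∃ h, ∀ x, (K.side S e i j).2 x = 0 ↔ x ≠ h := by
  unfold side
  split_ifs with q
  · refine ⟨⟨out_can he.1 q, fun ⟨σ, a, b, c⟩ => he.2 ⟨σ, a, (upc_spec q).2.1.trans b, fun x => ?_⟩⟩,
      j, fun x => ?_⟩
    · simp only [c, out, (upc_spec q).2.2]
      by_cases w : x = i <;> simp [w]
    · by_cases w : x = i
      · simp [out, w, hij]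
      · simp only [out, update_of_ne w, hz]; omega
  · refine ⟨⟨inn_can he.1 j, by rwa [inn_single hz hi hj hij]⟩, i, fun x => ?_⟩
    by_cases w : x = j
    · simp [inn, w, hij.symm]
    · simp only [inn, update_of_ne w, hz]; omega

theorem n12 (k : Fin 3) : k + 1 ≠ k ∧ k + 2 ≠ k ∧ k + 1 ≠ k + 2 := by revert k; decide

def ve (hK : K.Ok S) (b : Bool) (e : K.BE S) : K.BV S :=
  ⟨K.en e.1.1 e.1.2 b, e.2.1.en hK ((e.2.2 _).2 rfl) b, fun i h =>
    ((en_zero ..).1 h).1 ((e.2.2 i).1 ((en_zero ..).1 h).2)⟩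

def fl (e : K.BE S) : K.BF S := ⟨K.side S e.1.1 (e.1.2 + 1) (e.1.2 + 2),
  side_bc e.2.1 e.2.2 (n12 _).1 (n12 _).2.1 (n12 _).2.2⟩

def fr (e : K.BE S) : K.BF S := ⟨K.side S e.1.1 (e.1.2 + 2) (e.1.2 + 1),
  side_bc e.2.1 e.2.2 (n12 _).2.1 (n12 _).1 (n12 _).2.2.symm⟩

theorem BE.ext {e e' : K.BE S} (h : e.1.1 = e'.1.1) : e = e' :=
  Subtype.ext (Prod.ext h ((e'.2.2 _).1 (h ▸ (e.2.2 _).2 rfl)))

variable [Fintype κ]

theorem tel (hK : K.Ok S) (e : K.BE S) (B : κ × Sg → ZMod 2) (φ : κ → ZMod 2)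
    (hB : ∀ s i a, a ≠ 0 → K.Ex S s (Pi.single i a) →
      B (s, Pi.single i a) = φ s + φ (K.upc S s (Pi.single i a))) :
    ∑ g, K.ic S e.1.1 g * B g = (B (fl e).1 + φ (fl e).1.1) + (B (fr e).1 + φ (fr e).1.1) := by
  obtain ⟨⟨e, k⟩, he, hz⟩ := e
  obtain ⟨a, b, c⟩ := n12 k
  have u := hB e.1 (k + 1) _ (mt (hz _).1 a)
  have v := hB e.1 (k + 2) _ (mt (hz _).1 b)
  rw [sum_ic2 hK he.1, sum3 _ k]
  simp only [fl, fr, side, hz, a, b, if_true, if_false, inn_single hz a b c,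
    inn_single hz b a c.symm]
  split_ifs with p q q <;> simp only [p, q, out, forall_const] at u v ⊢ <;> clear * - u v <;> grind

open Classical in
/-- Extension by zero. -/
def ext0 (z : K.BE S → ZMod 2) (y : κ × Sg) : ZMod 2 := ∑ e, if e.1.1 = y then z e else 0

theorem ext0_val (z : K.BE S → ZMod 2) (e : K.BE S) : ext0 z e.1.1 = z e := by
  rw [ext0, sum_eq_single e (fun e' _ q => if_neg fun w => q (BE.ext w)) (by simp), if_pos rfl]

theorem ext0_zero (z : K.BE S → ZMod 2) {y : κ × Sg} (h : ¬ K.Bc S y) : ext0 z y = 0 :=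
  sum_eq_zero fun e _ => if_neg fun w : e.1.1 = y => h (w ▸ e.2.1)

theorem sum_ext0 (z : K.BE S → ZMod 2) (F : κ × Sg → ZMod 2) :
    ∑ y, ext0 z y * F y = ∑ e, z e * F e.1.1 := by
  simp only [ext0, sum_mul]
  rw [sum_comm]
  simp

theorem bd_bd (hK : K.Ok S) (v : K.BV S) (f : K.BF S) :
    ∑ e, inc (ve hK false) (ve hK true) e v * inc fl fr e f = 0 := by
  classical
  have a : ∀ e : K.BE S, inc fl fr e f = K.ic S e.1.1 f.1 := fun e => by
    have := tel hK e (fun g => if g = f.1 then 1 else 0) 0 fun s i a _ x => by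
      simp only [Pi.zero_apply, add_zero]
      exact if_neg fun w : _ = f.1 => f.2.1.2 (w ▸ x)
    simp only [mul_ite, mul_one, mul_zero, sum_ite_eq', mem_univ, if_true, Pi.zero_apply,
      add_zero] at this
    simp only [this, inc, Subtype.val_inj]
    congr
  simp only [a]
  obtain ⟨f, hf, h, hz⟩ := f
  obtain ⟨p, q, r⟩ := n12 h
  have key : ∀ i j b, i ≠ h → j ≠ h → i ≠ j →
      ext0 (fun e => inc (ve hK false) (ve hK true) e v) (K.en f i b) =
        (if K.en (K.en f i b) j false = v.1 then 1 else 0) +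
          if K.en (K.en f i b) j true = v.1 then 1 else 0 := fun i j b hi hj hij => by
    have := ext0_val (fun e => inc (ve hK false) (ve hK true) e v)
      ⟨(K.en f i b, j), hf.en hK ((hz i).2 hi) b, fun x => by simp only [en_zero, hz]; omega⟩
    refine this.trans ?_
    simp only [inc, ← Subtype.val_inj, ve]
  rw [← sum_ext0 _ fun y => K.ic S y f, sum_ic1 hf.1, sum3 _ h]
  simp only [hz, p, q, ne_eq, not_true, not_false_eq_true, if_true, if_false, key _ _ _ p q r,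
    key _ _ _ q p r.symm, en_comm hK hf.1.1 r ((hz _).2 p) ((hz _).2 q)]
  clear * -
  grind

theorem bd_cycle (hK : K.Ok S) (hA : K.Acyc S) (z : K.BE S → ZMod 2)
    (hz : ∀ v, ∑ e, z e * inc (ve hK false) (ve hK true) e v = 0) :
    ∃ A : K.BF S → ZMod 2, ∀ e, z e = A (fl e) + A (fr e) := by
  classical
  obtain ⟨B, hB⟩ := dual_range (fun e g => if K.Can S e ∧ ∃ k, ∀ i, e.2 i = 0 ↔ i = k then
      K.ic S e g else 0) (ext0 z) fun ω hω => by
    obtain ⟨Ψ, hΨ⟩ := closed_exact hK hA (fun e => if K.Can S e ∧ ∃ k, ∀ i, e.2 i = 0 ↔ i = k then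
      ω e else 0) fun g h hg _ => by
        refine (sum_ic1 hg fun e => if K.Can S e ∧ ∃ k, ∀ i, e.2 i = 0 ↔ i = k then ω e
          else 0).symm.trans (Eq.trans ?_ (hω g))
        simp
    have : ∀ e : K.BE S, ω e.1.1 = ∑ v : K.BV S, Ψ v.1 * inc (ve hK false) (ve hK true) e v :=
      fun e => by
        rw [sum_inc (fun v : K.BV S => Ψ v.1), add_comm]
        exact (if_pos ⟨e.2.1.1, _, e.2.2⟩).symm.trans (hΨ _ _ e.2.1.1 e.2.2)
    simp only [mul_comm (ω _), sum_ext0, this, mul_sum, mul_left_comm (z _)]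
    rw [sum_comm]
    simp only [← mul_sum, hz, mul_zero, sum_const_zero]
  obtain ⟨φ, hφ⟩ := hA _ (coc_of hK (d := fun σ i b => B (K.fc σ i b, Pi.single i (-sb b)))
    fun σ hσ i j b b' hij o o' => by
    have m := hK.mem σ hσ i b
    have m' := hK.mem σ hσ j b'
    have o1 : Odd (K.pos (K.fc σ i b) j) := by simpa [pos_fc hK hσ o, hij.symm] using o'
    have o2 : Odd (K.pos (K.fc σ j b') i) := by simpa [pos_fc hK hσ o', hij] using o
    have cm := hK.comm σ hσ i j b b' hij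
    obtain ⟨k, hk⟩ : ∃ k, ∀ x, (x ≠ i ∧ x ≠ j) ↔ x = k := by clear * - hij; revert i j; decide
    let e := K.cel σ (update (Pi.single i (sb b)) j (sb b'))
    have c : K.Can S e := cel_can hK hσ _
    have e2 : e.2 = update (Pi.single i (-sb b)) j (-sb b') := by
      ext x
      by_cases p : x = j
      · simp [e, cel, p, o']
      · by_cases q : x = i <;> simp [e, cel, p, q, o, hij]
    have e1 : e.1 = K.fc (K.fc σ i b) j b' := hK.le_inj hσ (cel_le hK hσ _).1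
      ((K.le_fc ..).trans (K.le_fc ..)) (funext fun x => by
        rw [(cel_le hK hσ _).2, pos_fc hK m o1, pos_fc hK hσ o]
        by_cases p : x = j
        · simp [p, o', hij.symm]
        · by_cases q : x = i <;> simp [p, q, o, hij])
    have z0 : ∀ x, e.2 x = 0 ↔ x = k := fun x => by
      rw [← hk, e2]
      by_cases p : x = j
      · simp [p, sb_ne]
      · by_cases q : x = i <;> simp [p, q, hij, sb_ne]
    have p1 : ∀ x, K.pos (K.fc σ i b) x = K.pos e.1 x + (Pi.single j (e.2 j) : Sg) x := fun x => by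
      rw [e1, e2, pos_fc hK m o1]
      by_cases p : x = j <;> simp [p]
    have p2 : ∀ x, K.pos (K.fc σ j b') x = K.pos e.1 x + (Pi.single i (e.2 i) : Sg) x := fun x => by
      rw [e1, e2, cm, pos_fc hK m' o2]
      by_cases p : x = i <;> simp [p, hij]
    have l1 : K.Le e.1 (K.fc σ i b) := e1 ▸ K.le_fc ..
    have l2 : K.Le e.1 (K.fc σ j b') := e1 ▸ cm ▸ K.le_fc ..
    have := hB e
    rw [ext0_zero z fun w => w.2 ((ex_cel hK hσ _).2 ⟨σ, hσ, Le.refl .., fun x => by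
      by_cases p : x = j
      · simp [p, o']
      · by_cases q : x = i <;> simp [p, q, o]⟩)] at this
    simp only [c, true_and, show ∃ k, ∀ x, e.2 x = 0 ↔ x = k from ⟨k, z0⟩, if_true] at this
    rw [sum_ic2 hK c, Fintype.sum_eq_add i j hij fun x hx => if_pos ((z0 x).2 ((hk x).1 hx)),
      if_pos (show K.Ex S _ _ from ⟨_, m, l1, p1⟩), if_pos (show K.Ex S _ _ from ⟨_, m', l2, p2⟩),
      out, out, upc_eq hK m l1 p1, upc_eq hK m' l2 p2] at this
    have u1 : update e.2 i 0 = Pi.single j (-sb b') := by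
      rw [e2, update_comm hij.symm]; simp [Pi.single]
    have u2 : update e.2 j 0 = Pi.single i (-sb b) := by
      rw [e2]; simp [update_eq_self_iff, hij.symm]
    simp only [z0, ← hk, inn, u1, u2, e1, ne_eq, not_true, false_and, and_false, if_false] at this
    rw [← cm]
    clear * - this
    grind)
  refine ⟨fun f => B f.1 + φ f.1.1, fun e => ?_⟩
  rw [← ext0_val z e, hB, ← tel hK e B φ fun s i a ha x => ?_]
  · exact sum_congr rfl fun g _ => by rw [if_pos ⟨e.2.1.1, _, e.2.2⟩]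
  · obtain ⟨u, v, w⟩ := upc_spec x
    obtain ⟨b, hb⟩ := ex_sb (a := -a) (by simpa using ha)
    have o : Odd (K.pos (K.upc S s (Pi.single i a)) i) := by
      have := hK.le_pos u v i
      have := sg_int a
      have := w i
      simp only [Pi.single_eq_same] at this
      grind
    have q : K.fc (K.upc S s (Pi.single i a)) i b = s :=
      hK.le_inj u (K.le_fc ..) v (funext fun x => by
        rw [pos_fc hK u o, w, hb]
        by_cases p : x = i <;> simp [p])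
    have := hφ _ u i b
    simp only [o, if_true, q, hb, neg_neg] at this
    rw [this, add_comm]

end Cub
end BEp
end
end

-- merged part: Pool.Agent.Work.MP_f0515e_an.D3.TbGeo3
section
/-! Intersection pattern of the pieces of the boundary surface. -/

open Set Metric Filter Topology Function BEv

noncomputable section
namespace BEp
namespace Cub
variable {κ : Type} {K : Cub κ} {S : Set κ} {y g : κ × Sg} {x : FF κ} {i j k h : Fin 3}

theorem ctr_en (hK : K.Ok S) (c : y.1 ∈ S) (hk : y.2 k = 0) (b : Bool) (i : Fin 3) :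
    K.ctr (K.en y k b) i = K.ctr y i + if i = k then (if b then 1 / 2 else -(1 / 2)) else 0 := by
  simp only [ctr, dc_en hK c hk]
  by_cases q : i = k <;> cases b <;> simp [q, sb] <;> ring

theorem side_en (hK : K.Ok S) (c : K.Can S y) (hi : y.2 i ≠ 0) (hj : y.2 j ≠ 0) :
    ∃ k b, (K.side S y i j).2 k = 0 ∧ K.en (K.side S y i j) k b = y := by
  unfold side
  split_ifs with q
  · obtain ⟨b, hb⟩ := ex_sb (a := -y.2 i) (by simpa)
    exact ⟨i, b, ((en_iff hK c).2 (Or.inr ⟨hb, q, rfl⟩)).2⟩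
  · obtain ⟨b, hb⟩ := ex_sb hj
    exact ⟨j, b, ((en_iff hK c).2 (Or.inl ⟨hb, rfl⟩)).2⟩

theorem f_en (hK : K.Ok S) {e : K.BE S} {f : K.BF S} (h : fl e = f ∨ fr e = f) :
    ∃ k b, f.1.2 k = 0 ∧ K.en f.1 k b = e.1.1 := by
  have a := mt (e.2.2 _).1 (n12 e.1.2).1
  have b := mt (e.2.2 _).1 (n12 e.1.2).2.1
  rcases h with rfl | rfl
  exacts [side_en hK e.2.1.1 a b, side_en hK e.2.1.1 b a]

theorem fl_ne (e : K.BE S) : fl e ≠ fr e := by
  obtain ⟨⟨e, k⟩, he, hz⟩ := e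
  obtain ⟨p, q, r⟩ := n12 k
  have a := mt (hz _).1 p
  have b := mt (hz _).1 q
  have u : ∀ i j, i ≠ j → e.2 i ≠ 0 → update e.2 i 0 ≠ update e.2 j 0 := fun i j n z w =>
    z (by simpa [n] using (congrFun w i).symm)
  have v : ∀ i, e.2 i ≠ 0 → K.Ex S e.1 (Pi.single i (e.2 i)) → K.out S e i ≠ inn e i :=
    fun i z x w => by
      have := (upc_spec x).2.2 i
      rw [show K.upc S e.1 _ = e.1 from congrArg Prod.fst w] at this
      have := sg_int (e.2 i)
      simp only [Pi.single_eq_same] at *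
      grind
  simp only [ne_eq, ← Subtype.val_inj, fl, fr, side]
  split_ifs with x y y
  exacts [fun w => u _ _ r a (congrArg Prod.snd w), v _ a x, (v _ b y).symm,
    fun w => u _ _ r a (congrArg Prod.snd w).symm]

theorem ve_ne (hK : K.Ok S) (e : K.BE S) : ve hK false e ≠ ve hK true e := fun w => by
  have := congrArg (fun v : K.BV S => K.dc v.1 e.1.2) w
  simp [ve, dc_en hK e.2.1.1.1 ((e.2.2 _).2 rfl), sb] at this

theorem pc_pq (hK : K.Ok S) (v : K.BV S) (e : K.BE S) (p : K.Pc S v.1 x) (q : K.Pc S e.1.1 x) :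
    ve hK false e = v ∨ ve hK true e = v := by
  obtain ⟨b, hb⟩ := p.fac hK v.2.1.1 e.2.1.1 q ((e.2.2 _).2 rfl) (v.2.2 _) fun i hi => by
    simp [v.2.2, e.2.2, hi]
  cases b
  exacts [Or.inl (Subtype.ext hb), Or.inr (Subtype.ext hb)]

variable [Fintype κ]

theorem pc_face (hK : K.Ok S) (c : K.Can S g) (hz : ∀ i, g.2 i = 0 ↔ i ≠ h) (p : K.Pc S g x) :
    x.1 h = K.ctr g h := by
  obtain ⟨i, a, b⟩ := p.half hK c
  rwa [show i = h by simpa [hz] using a] at b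

theorem pc_rr (hK : K.Ok S) (f f' : K.BF S) (p : K.Pc S f.1 x) (q : K.Pc S f'.1 x) : f = f' := by
  obtain ⟨f, c, h, hz⟩ := f
  obtain ⟨f', c', h', hz'⟩ := f'
  have := q.at (pc_face hK c.1 hz p)
  have e : h = h' := by
    have a := hz h
    have b := hz' h
    rw [dc_par (K := K)] at a b
    grind
  exact Subtype.ext (p.same hK c.1 c'.1 q fun i => by rw [hz, hz', e])

theorem pc_rq (hK : K.Ok S) (f : K.BF S) (e : K.BE S) (p : K.Pc S f.1 x) (q : K.Pc S e.1.1 x) :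
    fl e = f ∨ fr e = f := by
  obtain ⟨f, c, h, hz⟩ := f
  obtain ⟨⟨e, k⟩, c', hz'⟩ := e
  have := q.at (pc_face hK c.1 hz p)
  have n : h ≠ k := by
    have a := hz h
    have b := hz' h
    rw [dc_par (K := K)] at a b
    grind
  obtain ⟨j, j1, j2, j3⟩ : ∃ j, j ≠ h ∧ j ≠ k ∧
      (j = k + 1 ∧ h = k + 2 ∨ j = k + 2 ∧ h = k + 1) := by clear * - n; revert h k; decide
  obtain ⟨b, hb⟩ := q.fac hK c'.1 c.1 p ((hz j).2 j1) (mt (hz' j).1 j2) fun i hi => by
    rw [hz, hz']; clear j3; dsimp only; omega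
  have : K.side S e j h = f ∨ K.side S e h j = f := by
    rcases (en_iff hK c'.1).1 ⟨c.1, (hz j).2 j1, hb⟩ with ⟨-, rfl⟩ | ⟨-, w, rfl⟩
    · exact Or.inr (if_neg (by simpa only [inn_single hz' n j2 j1.symm] using c.2))
    · exact Or.inl (if_pos w)
  simp only [← Subtype.val_inj, fl, fr]
  rcases j3 with ⟨rfl, rfl⟩ | ⟨rfl, rfl⟩
  exacts [this, this.symm]

theorem mid_pt (hK : K.Ok S) (c : K.Bc S g) (hk : g.2 k = 0) (b : Bool) :
    ∃ x, K.Pc S g x ∧ K.Pc S (K.en g k b) x ∧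
      ∀ y, K.Pc S y x → ∀ i, i ≠ k → (y.2 i = 0 ↔ g.2 i = 0) := by
  let p : Rn 3 := fun i => K.ctr g i + if i = k then (if b then 1 / 4 else -(1 / 4)) else 0
  have a := sec_pc hK c (p := p) ((pi_norm_le_iff_of_nonneg (by norm_num)).2 fun i => by
    by_cases q : i = k <;> cases b <;> simp [p, q]) fun i hi => by
      simp [p, show i ≠ k from fun w => hi (w ▸ hk)]
  refine ⟨_, a, Pc.face hK c.1.1 a.1 rfl (cel_le hK c.1.1 _).1
    ((pi_norm_le_iff_of_nonneg (by norm_num)).2 fun i => ?_), fun y w i hi => ?_⟩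
  · by_cases q : i = k <;> cases b <;> simp [p, q, ctr_en hK c.1.1 hk] <;> norm_num [abs_le]
  · simp only [dc_par (K := K), w.at (y := g) (i := i) (by simp [p, hi])]

theorem tri_pt (hK : K.Ok S) (c : K.Bc S g) (hz : ∀ i, g.2 i = 0 ↔ i ≠ h) (hj : j ≠ h) (hk : k ≠ h)
    (n : k ≠ j) (b d : Bool) : ∃ a, ∀ x, K.Pc S (K.en (K.en g j b) k d) x ∧
      K.Pc S (K.en g j b) x ∧ K.Pc S g x ↔ x = a := by
  let p : Rn 3 := fun i => K.ctr g i + (if i = j then (if b then 1 / 4 else -(1 / 4)) else 0) +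
    if i = k then (if d then 1 / 4 else -(1 / 4)) else 0
  have c' := en_can hK c.1.1 j b
  have u := ctr_en hK c.1.1 ((hz j).2 hj) b
  have v := ctr_en hK c'.1 ((en_zero ..).2 ⟨n, (hz k).2 hk⟩) d
  have tc : ∀ i, i = j ∨ i = k ∨ i = h := fun i => by omega
  have a := sec_pc hK c (p := p) ((pi_norm_le_iff_of_nonneg (by norm_num)).2 fun i => by
    rcases tc i with rfl | rfl | rfl <;> cases b <;> cases d <;>
      simp [p, n, n.symm, hj.symm, hk.symm]) fun i hi => by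
      simp [p, show i = h by simpa [hz] using hi, hj.symm, hk.symm]
  have l := (cel_le hK c.1.1 (update g.2 j (sb b))).1
  refine ⟨K.sec g.1 p, fun x => ⟨fun ⟨r, _, s⟩ => ?_, ?_⟩⟩
  · rw [← s.2.2]
    congr 1
    ext i
    have r' := abs_le.1 (r.abs i)
    have s' := abs_le.1 (s.abs i)
    have w := v i
    rw [u] at w
    have z := pc_face hK c.1 hz s
    simp only [ctr] at w z
    rcases tc i with rfl | rfl | rfl <;> cases b <;> cases d <;>
      simp [p, n, n.symm, hj.symm, hk.symm, ctr] at w ⊢ <;> linarith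
  · rintro rfl
    refine ⟨Pc.face hK c.1.1 a.1 rfl ((cel_le hK c'.1 _).1.trans l)
      ((pi_norm_le_iff_of_nonneg (by norm_num)).2 fun i => ?_), Pc.face hK c.1.1 a.1 rfl l
      ((pi_norm_le_iff_of_nonneg (by norm_num)).2 fun i => ?_), a⟩ <;>
    rcases tc i with rfl | rfl | rfl <;> cases b <;> cases d <;>
      simp [p, u, v, n, n.symm, hj.symm, hk.symm] <;> norm_num [abs_le]

theorem pc_tri (hK : K.Ok S) (e : K.BE S) (v : K.BV S) (f : K.BF S)
    (hv : ve hK false e = v ∨ ve hK true e = v) (hf : fl e = f ∨ fr e = f) :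
    ∃ a, ∀ x, K.Pc S v.1 x ∧ K.Pc S e.1.1 x ∧ K.Pc S f.1 x ↔ x = a := by
  obtain ⟨j, b, z, w⟩ := f_en hK hf
  obtain ⟨d, rfl⟩ : ∃ d, ve hK d e = v := hv.elim (fun q => ⟨_, q⟩) fun q => ⟨_, q⟩
  obtain ⟨f, c, h, hz⟩ := f
  have := (en_zero ..).1 (w ▸ (e.2.2 _).2 rfl)
  simpa only [w, ve] using tri_pt hK c hz ((hz _).1 z) ((hz _).1 this.2) this.1 b d

theorem pc_all (hK : K.Ok S) (hx : x ∈ K.Bd S) : (∃ v : K.BV S, K.Pc S v.1 x) ∨
    (∃ e : K.BE S, K.Pc S e.1.1 x) ∨ ∃ f : K.BF S, K.Pc S f.1 x := by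
  obtain ⟨y, a, b, -⟩ := pc_cov hK hx (c := fun i => round (2 * x.1 i)) fun i => by
    have := abs_le.1 (abs_sub_round (2 * x.1 i))
    exact abs_le.2 ⟨by linarith, by linarith⟩
  obtain ⟨i, hi, -⟩ := b.half hK a.1
  have : ∀ (t : Sg) i, t i ≠ 0 → (∀ i, t i ≠ 0) ∨ (∃ k, ∀ i, t i = 0 ↔ i = k) ∨
    ∃ h, ∀ i, t i = 0 ↔ i ≠ h := by decide
  rcases this _ i hi with q | ⟨k, q⟩ | q
  exacts [Or.inl ⟨⟨y, a, q⟩, b⟩, Or.inr (Or.inl ⟨⟨(y, k), a, q⟩, b⟩), Or.inr (Or.inr ⟨⟨y, a, q⟩, b⟩)]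

end Cub
end BEp
end
end
end
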