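import Pool.Agent.Work.MP_f0515e_an.D3.BAux
import Pool.Agent.Work.MP_f0515e_an.Pos.HDM
import Pool.Agent.Work.MP_f0515e_an.D3.FBd
import Pool.Agent.Work.MP_f0515e_an.D3.PTri
import Pool.Agent.Work.MP_f0515e_an.D3.DeTP
import Pool.Agent.Work.MP_f0515e_an.D3.PFill
import Pool.Agent.Work.MP_f0515e_an.D3.TbGeo3
import Pool.Agent.Work.MP_f0515e_an.D3.PArc
import Pool.Agent.Work.MP_f0515e_an.Per1
import Pool.Agent.Work.MP_f0515e_an.D3.PCor
import Pool.Agent.Work.MP_f0515e_an.D3.PCel1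
import Pool.Agent.Work.MP_f0515e_an.D3.BSide

-- merged part: Pool.Agent.Work.MP_f0515e_an.D3.BCore
section
/-! Star balls: normalisation and the behaviour of the rays.
`exists_bco`: choose `Q` (separation of the marks, `loc`), `κ` with the sign and the distance bound on `(1, 1 + κ)`, then `δ` with
`cthickening δ` inside the open set `U ∩ f ⁻¹' (Po ∪ balls)` minus the closed sets `{t • a e | 1 + κ ≤ t}`
(`IsCompact.exists_cthickening_subset_open`); `ext_on`, `exists_left_inv`, `inv_domain`.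
`wall`: cases `t < 1` (`inn`, `loc`), `t = 1`, `1 < t` (`out`, `disj`). `free`: minimum of the height on a compact set.
`exit`: greatest `t` with `t • a e` in the compact set. About 300 lines. -/

open Set Metric Filter Topology Function BEv
open scoped NNReal

noncomputable section
namespace BEp

variable {E : Type} [NormedAddCommGroup E] [NormedSpace ℝ E] {ι : Type} {a : ι → E} {δ : ℝ}

theorem mem_bSt (e : ι) {t : ℝ} (ht : t ∈ Icc (0 : ℝ) 1) : t • a e ∈ bSt a := ⟨e, t, ht, rfl⟩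

theorem compact_bSt [Finite ι] : IsCompact (bSt a) := by
  have : bSt a = ⋃ e, (fun t : ℝ => t • a e) '' Icc 0 1 := by
    ext q; simp only [bSt, mem_ofPred_eq, mem_iUnion, mem_image, eq_comm]
  rw [this]
  exact isCompact_iUnion fun e => isCompact_Icc.image (continuous_id.smul continuous_const)

theorem BCore_inf (q : E) {t : ℝ} (ht : t ∈ Icc (0 : ℝ) 1) :
    infEDist (t • q) (bSt a) ≤ infEDist q (bSt a) := by
  refine le_infEDist.2 ?_
  rintro _ ⟨e, s, hs, rfl⟩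
  have hm : t • s • a e ∈ bSt a := by
    rw [smul_smul]
    exact mem_bSt e ⟨mul_nonneg ht.1 hs.1, mul_le_one₀ ht.2 hs.1 hs.2⟩
  refine (infEDist_le_edist_of_mem hm).trans ?_
  rw [edist_dist, edist_dist, dist_smul₀, Real.norm_of_nonneg ht.1]
  exact ENNReal.ofReal_le_ofReal (mul_le_of_le_one_left dist_nonneg ht.2)

theorem smul_thick {q : E} (hq : q ∈ thickening δ (bSt a)) {t : ℝ} (ht : t ∈ Icc (0 : ℝ) 1) :
    t • q ∈ thickening δ (bSt a) :=
  (BCore_inf q ht).trans_lt hq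

theorem smul_cthick {q : E} (hq : q ∈ cthickening δ (bSt a)) {t : ℝ} (ht : t ∈ Icc (0 : ℝ) 1) :
    t • q ∈ cthickening δ (bSt a) :=
  (BCore_inf q ht).trans hq

theorem closed_ray (v : E) (b : ℝ) : IsClosed {q : E | ∃ t : ℝ, b ≤ t ∧ q = t • v} := by
  have : {q : E | ∃ t : ℝ, b ≤ t ∧ q = t • v} = (fun t : ℝ => t • v) '' Ici b := by
    ext q; simp only [mem_ofPred_eq, mem_image, mem_Ici, eq_comm]
  rw [this]
  exact isClosedMap_smul_left v _ isClosed_Ici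

theorem open_bYr [Finite ι] : IsOpen (bYr a) := by
  have : bYr a = ⋂ e, {q : E | ∃ t : ℝ, 0 ≤ t ∧ q = t • a e}ᶜ := by
    ext q; simp [bYr]
  rw [this]
  exact isOpen_iInter_of_finite fun e => (closed_ray _ _).isOpen_compl

theorem smul_bYr {q : E} (hq : q ∈ bYr a) {t : ℝ} (ht : 0 < t) : t • q ∈ bYr a := fun e s hs k =>
  hq e (t⁻¹ * s) (mul_nonneg (inv_nonneg.2 ht.le) hs) (by
    rw [mul_smul, ← k, inv_smul_smul₀ ht.ne'])

variable [FiniteDimensional ℝ E] [Finite ι] {h : E → Rn 3} {k : Rn 3 → E} {Po : Set (Rn 3)}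
  {i : ι → Fin 3} {σ : ι → ℝ} {Q : ℝ}

omit [FiniteDimensional ℝ E] [Finite ι] in
theorem BCore_mem (e : ι) : a e ∈ bSt a := by simpa using mem_bSt (a := a) e (t := 1) (by simp)

omit [FiniteDimensional ℝ E] [Finite ι] in
theorem BCore_ray (ne : ∀ e, a e ≠ 0) (dir : ∀ e e' (t : ℝ), 0 < t → a e = t • a e' → e = e')
    {e e' : ι} {t : ℝ} (ht : 0 ≤ t) (k : t • a e = a e') : t = 1 ∧ e = e' := by
  have t0 : t ≠ 0 := fun z => ne e' (by rw [← k, z, zero_smul])
  obtain rfl := dir e' e t (ht.lt_of_ne' t0) k.symm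
  exact ⟨smul_left_injective ℝ (ne e') (k.trans (one_smul _ _).symm), rfl⟩

theorem exists_bco (h3 : Module.finrank ℝ E = 3) {f : E → Rn 3} {U : Set E}
    (H : StarIn f U Po 0 a i σ) : ∃ h k δ Q, BCo h k Po a i σ δ Q ∧
      cthickening δ (bSt a) ⊆ U ∧ EqOn h f (cthickening δ (bSt a)) := by
  obtain ⟨opn, opn', cont, inj, ne, dir, leg, inn, sgn, out, loc⟩ := H
  simp only [zero_add] at leg inn out loc
  have aU : ∀ e, a e ∈ U := fun e => by simpa using leg e 1 (by simp)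
  have e1 : ∀ᶠ Q in 𝓝 (0 : ℝ), ∀ e e', e ≠ e' → 2 * Q < dist (f (a e)) (f (a e')) := by
    refine eventually_all.2 fun e => eventually_all.2 fun e' => eventually_imp_distrib_left.2
      fun n => (continuous_const.mul continuous_id).continuousAt.eventually_lt continuousAt_const ?_
    have : f (a e) ≠ f (a e') := fun k => n (dir e e' 1 one_pos (by
      rw [one_smul]; exact inj (aU e) (aU e') k))
    simpa using this
  have e2 := eventually_all.2 fun e => eventually_closedBall_subset (loc e)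
  obtain ⟨Q, ⟨q1, q2⟩, Q0⟩ := (((e1.and e2).filter_mono nhdsWithin_le_nhds).and
    (self_mem_nhdsWithin (s := Ioi (0 : ℝ)))).exists
  have e3 : ∀ e, ∀ᶠ t in 𝓝[>] (1 : ℝ), dist (f (t • a e)) (f (a e)) < Q := fun e => by
    have c1 : ContinuousAt (fun t : ℝ => f (t • a e)) 1 :=
      ContinuousAt.comp (f := fun t : ℝ => t • a e)
        (cont.continuousAt (opn.mem_nhds (by rw [one_smul]; exact aU e))) (by fun_prop)
    exact Eventually.filter_mono nhdsWithin_le_nhds (c1.eventually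
      (isOpen_ball.mem_nhds (by simpa using Q0)))
  obtain ⟨u, hu, hu'⟩ := mem_nhdsGT_iff_exists_Ioo_subset.1
    (eventually_all.2 fun e => (e3 e).and (out e))
  have o1 : IsOpen (U ∩ f ⁻¹' (Po ∪ ⋃ e, ball (f (a e)) Q) ∩
      ⋂ e, {q : E | ∃ t : ℝ, u ≤ t ∧ q = t • a e}ᶜ) :=
    (cont.isOpen_inter_preimage opn (opn'.union (isOpen_iUnion fun e => isOpen_ball))).inter
      (isOpen_iInter_of_finite fun e => (closed_ray _ _).isOpen_compl)
  obtain ⟨δ, δ0, hδ⟩ := (compact_bSt (a := a)).exists_cthickening_subset_open o1 (by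
    rintro _ ⟨e, t, ht, rfl⟩
    refine ⟨⟨leg e t ht, ?_⟩, mem_iInter.2 ?_⟩
    · rcases ht.2.lt_or_eq with k | rfl
      · exact Or.inl (inn e t ⟨ht.1, k⟩)
      · exact Or.inr (mem_iUnion.2 ⟨e, by rw [one_smul]; exact mem_ball_self Q0⟩)
    · rintro e' ⟨s, hs, k⟩
      have s1 : 1 < s := hu.trans_le hs
      have := (BCore_ray ne dir (mul_nonneg (inv_nonneg.2 (one_pos.trans s1).le) ht.1)
        (e := e) (e' := e') (by rw [mul_smul, k, inv_smul_smul₀ (one_pos.trans s1).ne'])).1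
      rw [inv_mul_eq_one₀ (one_pos.trans s1).ne'] at this
      exact (this ▸ s1).not_ge ht.2)
  have := FiniteDimensional.proper_real E
  have hC := (compact_bSt (a := a)).cthickening (r := δ)
  have CU : cthickening δ (bSt a) ⊆ U := fun q hq => (hδ hq).1.1
  obtain ⟨h, hc, eq⟩ := ext_on isClosed_cthickening (cont.mono CU)
  have hi : InjOn h (cthickening δ (bSt a)) := (inj.mono CU).congr eq.symm
  obtain ⟨k, kc, kh⟩ := exists_left_inv hC hc hi
  have ea : ∀ e, h (a e) = f (a e) := fun e => eq (self_subset_cthickening _ (BCore_mem e))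
  refine ⟨h, k, δ, Q, ⟨hc, kc, kh, δ0, Q0, opn', inv_domain (by simp [h3]) isOpen_thickening hc
    (hi.mono (thickening_subset_cthickening _ _)), ne, dir, sgn, fun e t ht => ?_,
    fun e e' x h1 h2 => ?_, fun e x hx => ?_, fun q hq => ?_, fun e t ht hm => ?_⟩, CU, eq⟩
  · rw [eq (self_subset_cthickening _ (mem_bSt e ⟨ht.1, ht.2.le⟩))]
    exact inn e t ht
  · by_contra n
    rw [ea] at h1 h2
    linarith only [h1, h2, q1, n, q1 e e' n, dist_triangle_left (f (a e)) (f (a e')) x]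
  · rw [ea] at hx ⊢
    exact q2 e hx
  · have hq' := thickening_subset_cthickening _ _ hq
    simp only [ea, eq hq']
    exact (hδ hq').1.2.imp_right fun k => by simpa using k
  · rw [ea, eq hm]
    exact hu' ⟨ht, not_le.1 fun k => mem_iInter.1 (hδ hm).2 e ⟨t, k, rfl⟩⟩ e

namespace BCo
variable (H : BCo h k Po a i σ δ Q)
include H

omit [FiniteDimensional ℝ E] [Finite ι] in
theorem hk {x : Rn 3} (hx : x ∈ h '' thickening δ (bSt a)) :
    h (k x) = x ∧ k x ∈ thickening δ (bSt a) := by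
  obtain ⟨q, hq, rfl⟩ := hx
  rw [H.kh q (thickening_subset_cthickening _ _ hq)]
  exact ⟨rfl, hq⟩

theorem compact_ga : IsCompact (bGa h a δ) := by
  have := FiniteDimensional.proper_real E
  have e : bGa h a δ = h '' (cthickening δ (bSt a) ∩ (bYr a)ᶜ) := by
    ext x
    constructor
    · rintro ⟨e, t, ht, hm, rfl⟩
      exact ⟨_, ⟨hm, fun k => k e t ht rfl⟩, rfl⟩
    · rintro ⟨q, ⟨hq, hn⟩, rfl⟩
      simp only [bYr, mem_compl_iff, mem_ofPred_eq, not_forall, not_not] at hn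
      obtain ⟨e, t, ht, rfl⟩ := hn
      exact ⟨e, t, ht, hq, rfl⟩
  rw [e]
  exact ((compact_bSt.cthickening).inter_right open_bYr.isClosed_compl).image H.hc

omit [FiniteDimensional ℝ E] [Finite ι] in
theorem mark_ga (e : ι) : h (a e) ∈ bGa h a δ :=
  ⟨e, 1, zero_le_one, self_subset_cthickening _ (mem_bSt e (by simp)), by rw [one_smul]⟩

omit [FiniteDimensional ℝ E] [Finite ι] in
theorem not_ga {q : E} (hq : q ∈ thickening δ (bSt a)) : h q ∉ bGa h a δ ↔ q ∈ bYr a := by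
  have hq' := thickening_subset_cthickening _ _ hq
  refine ⟨fun n e t ht k => n ⟨e, t, ht, k ▸ hq', by rw [k]⟩, ?_⟩
  rintro n ⟨e, t, ht, hm, k⟩
  exact n e t ht (by rw [← H.kh q hq', k, H.kh _ hm])

omit [FiniteDimensional ℝ E] [Finite ι] in
theorem wall {e : ι} {x : Rn 3} (hx : x ∈ bGa h a δ) (h1 : dist x (h (a e)) ≤ Q)
    (h2 : x (i e) = h (a e) (i e)) : x = h (a e) := by
  obtain ⟨e', t, ht, hm, rfl⟩ := hx
  rcases lt_trichotomy t 1 with k | rfl | k
  · have := (H.loc e _ h1).1 (H.inn e' t ⟨ht, k⟩)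
    rw [h2, sub_self, mul_zero] at this
    exact absurd this (lt_irrefl _)
  · rw [one_smul] at h1 ⊢
    rw [H.disj e e' _ h1 (by rw [dist_self]; exact H.Q0.le)]
  · obtain ⟨k1, k2⟩ := H.out e' t k hm
    obtain rfl := H.disj e e' _ h1 k1.le
    rw [h2, sub_self, mul_zero] at k2
    exact absurd k2 (lt_irrefl _)

omit [FiniteDimensional ℝ E] in
theorem thin' {R : ℝ} (hR : 0 < R) : ∃ δ₁, 0 < δ₁ ∧ δ₁ ≤ δ ∧
    ∀ q ∈ thickening δ₁ (bSt a), h q ∈ Po ∨ ∃ e, dist (h q) (h (a e)) < R := by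
  obtain ⟨d, d0, hd⟩ := (compact_bSt (a := a)).exists_thickening_subset_open
    ((H.opn.union (isOpen_iUnion fun e => isOpen_ball (x := h (a e)) (ε := R))).preimage H.hc) (by
      rintro _ ⟨e, t, ht, rfl⟩
      rcases ht.2.lt_or_eq with k | rfl
      · exact Or.inl (H.inn e t ⟨ht.1, k⟩)
      · exact Or.inr (mem_iUnion.2 ⟨e, by rw [one_smul]; exact mem_ball_self hR⟩))
  exact ⟨min d δ, lt_min d0 H.δ0, min_le_right _ _, fun q hq =>
    (hd (thickening_mono (min_le_left _ _) _ hq)).imp_right fun k => by simpa using k⟩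

omit [FiniteDimensional ℝ E] in
/-- Small cubes about the marks are pulled back into a given neighbourhood of the star. -/
theorem small {δ₁ : ℝ} (h1 : 0 < δ₁) : ∃ r > 0, ∀ e x, dist x (h (a e)) ≤ r →
    x ∈ h '' thickening δ (bSt a) ∧ k x ∈ thickening δ₁ (bSt a) ∧ dist (k x) (a e) ≤ δ₁ := by
  have key : ∀ e, ∀ᶠ x in 𝓝 (h (a e)), x ∈ h '' thickening δ (bSt a) ∧
      k x ∈ thickening δ₁ (bSt a) ∧ dist (k x) (a e) ≤ δ₁ := fun e => by
    have t : Tendsto k (𝓝 (h (a e))) (𝓝 (a e)) := by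
      simpa only [H.kh _ (self_subset_cthickening _ (BCore_mem e))] using H.kc.tendsto (h (a e))
    exact Eventually.and
      (H.opn'.mem_nhds (mem_image_of_mem _ (self_subset_thickening H.δ0 _ (BCore_mem e))))
      ((t.eventually (isOpen_thickening.mem_nhds (self_subset_thickening h1 _ (BCore_mem e)))).and
        (t.eventually (closedBall_mem_nhds _ h1)))
  obtain ⟨r, hr, r0⟩ := (((eventually_all.2 fun e => eventually_closedBall_subset
    (key e)).filter_mono nhdsWithin_le_nhds).and (self_mem_nhdsWithin (s := Ioi (0 : ℝ)))).exists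
  exact ⟨r, r0, fun e x hx => hr e hx⟩

theorem free {r : ℝ} (hr : 0 < r) : ∃ ε > 0, ∀ e, ∀ x ∈ bGa h a δ, r ≤ dist x (h (a e)) →
    dist x (h (a e)) ≤ Q → 3 * ε < |x (i e) - h (a e) (i e)| := by
  have key : ∀ e, ∃ m, 0 < m ∧ ∀ x ∈ bGa h a δ ∩ (closedBall (h (a e)) Q ∩ (ball (h (a e)) r)ᶜ),
      m ≤ |x (i e) - h (a e) (i e)| := fun e =>
    (H.compact_ga.inter_right (isClosed_closedBall.inter isOpen_ball.isClosed_compl)).exists_forall_le'
      (by fun_prop) fun x hx => abs_pos.2 (sub_ne_zero.2 fun n =>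
        hx.2.2 (H.wall hx.1 hx.2.1 n ▸ mem_ball_self hr))
  choose m m0 hm using key
  have e1 : ∀ᶠ ε in 𝓝 (0 : ℝ), ∀ e, 3 * ε < m e := eventually_all.2 fun e =>
    (continuous_const.mul continuous_id).continuousAt.eventually_lt continuousAt_const
      (by simpa using m0 e)
  obtain ⟨ε, h1, h0⟩ := ((e1.filter_mono nhdsWithin_le_nhds).and
    (self_mem_nhdsWithin (s := Ioi (0 : ℝ)))).exists
  exact ⟨ε, h0, fun e x hx k1 k2 => (h1 e).trans_le (hm e x ⟨hx, k2, not_lt.2 k1⟩)⟩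

theorem exit (e : ι) : ∃ T : ℝ, 1 < T ∧ (∀ t ∈ Icc 0 T, t • a e ∈ cthickening δ (bSt a)) ∧
    h (T • a e) ∉ h '' thickening δ (bSt a) ∧ ∀ t : ℝ, t • a e ∈ cthickening δ (bSt a) → t ≤ T := by
  have := FiniteDimensional.proper_real E
  have m1 : (1 : ℝ) • a e ∈ thickening δ (bSt a) :=
    self_subset_thickening H.δ0 _ (mem_bSt e (by simp))
  obtain ⟨T, hT, hT'⟩ := ((isClosedEmbedding_smul_left (𝕜 := ℝ) (H.ne e)).isCompact_preimage
    ((compact_bSt (a := a)).cthickening (r := δ))).exists_isGreatest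
    ⟨1, thickening_subset_cthickening _ _ m1⟩
  have n : T • a e ∉ thickening δ (bSt a) := fun k => by
    have c : ∀ᶠ t in 𝓝 T, t • a e ∈ thickening δ (bSt a) :=
      (continuous_id.smul continuous_const).continuousAt.eventually (isOpen_thickening.mem_nhds k)
    obtain ⟨t, k1, k2⟩ := ((c.filter_mono nhdsWithin_le_nhds).and
      (self_mem_nhdsWithin (s := Ioi T))).exists
    exact (hT' (thickening_subset_cthickening _ _ k1)).not_gt k2
  have T1 : 1 < T := (hT' (thickening_subset_cthickening _ _ m1)).lt_of_ne fun k => n (k ▸ m1)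
  have T0 := one_pos.trans T1
  refine ⟨T, T1, fun t ht => ?_, ?_, fun t ht => hT' ht⟩
  · have := smul_cthick hT ⟨div_nonneg ht.1 T0.le, (div_le_one T0).2 ht.2⟩
    rwa [smul_smul, div_mul_cancel₀ _ T0.ne'] at this
  · rintro ⟨q, hq, k⟩
    rw [← H.kh (T • a e) hT, ← k, H.kh q (thickening_subset_cthickening _ _ hq)] at n
    exact n hq

omit [FiniteDimensional ℝ E] [Finite ι] in
/-- Different points of the rays have different images. -/
theorem ray_inj {e e' : ι} {t : ℝ} (ht : 0 ≤ t) (hm : t • a e ∈ cthickening δ (bSt a))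
    (he : h (t • a e) = h (a e')) : t = 1 ∧ e = e' :=
  BCore_ray H.ne H.dir ht (by
    rw [← H.kh _ hm, he, H.kh _ (self_subset_cthickening _ (BCore_mem e'))])

end BCo

end BEp
end
end

-- merged part: Pool.Agent.Work.MP_f0515e_an.D3.BPl
section
/-! Star balls: the singular planar surface in the domain.
`pl_centres`: take `M` large, `c e = cx.symm (z e / M)`, then `ρ` small. `pl_ext`: on the circle round `c e` the homotopy
`z e + (M * cx x - z e) * exp (t * ℓ)` has modulus between the two end values (`‖exp (t ℓ)‖ = ‖exp ℓ‖ ^ t`); `htp_glue`, `Htp.hep`.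
`exists_pl`: boundary values `b = ste ∘ k ∘ γ`; extend by `pl_ext` to `G₂`; the map `s₀ • sus ∘ G₂` takes the compact set `bP0` into a
small ball; on the boundary move radially to `slam (k γ) • sus (G₂) = k γ` (`Htp.line`, `smul_thick`, `smul_bYr`); `Htp.hep`.
About 300 lines. -/

open Set Metric Filter Topology Function BEv
open scoped NNReal

noncomputable section
namespace BEp

variable {ι : Type} [Finite ι] {a : ι → ℝ × ℂ} {h : ℝ × ℂ → Rn 3} {k : Rn 3 → ℝ × ℂ}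
  {Po : Set (Rn 3)} {i : ι → Fin 3} {σ : ι → ℝ} {δ Q R m : ℝ} {o : ι} {s : ι → ℝ}
  {L : ι → Rn 2 → ℂ}

omit [Finite ι] in
theorem closed_bP0 (o : ι) (c : ι → Rn 2) (ρ : ℝ) : IsClosed (bP0 o c ρ) := by
  refine (isClosed_le continuous_norm continuous_const).inter ?_
  change IsClosed {x : Rn 2 | ∀ e, e ≠ o → ρ ≤ dist x (c e)}
  simp only [ofPred_forall]
  exact isClosed_iInter fun e => isClosed_iInter fun _ => isClosed_le (by fun_prop) (by fun_prop)

omit [Finite ι] in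
theorem compact_bP0 (o : ι) (c : ι → Rn 2) (ρ : ℝ) : IsCompact (bP0 o c ρ) := by
  exact (isCompact_closedBall 0 (1 / 4)).of_isClosed_subset (closed_bP0 o c ρ)
    fun x hx => mem_closedBall_zero_iff.2 hx.1

theorem pl_centres {z : ι → ℂ} (hm : 0 < m)
    (sep : ∀ e e', e ≠ o → e' ≠ o → e ≠ e' → m < ‖z e - z e'‖) :
    ∃ (M ρ : ℝ) (c : ι → Rn 2), 0 < M ∧ 0 < ρ ∧ 2 * M * ρ ≤ m ∧ (∀ e, ‖z e‖ < M / 4) ∧
      (∀ e, M * cx (c e) = z e) ∧ (∀ e, ‖c e‖ + ρ < 1 / 4) ∧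
      ∀ e e' x, e ≠ o → e' ≠ o → dist x (c e) ≤ ρ → dist x (c e') ≤ ρ → e = e' := by
  obtain ⟨N, hN⟩ := (finite_range fun e => ‖z e‖).bddAbove
  replace hN : ∀ e, ‖z e‖ ≤ N := fun e => hN ⟨e, rfl⟩
  have N0 : 0 ≤ N := (norm_nonneg _).trans (hN o)
  obtain ⟨M, hM⟩ : ∃ M, M = 8 * (N + 1) := ⟨_, rfl⟩
  have M0 : 0 < M := by linarith only [N0, hM]
  have M1 : (M : ℂ) ≠ 0 := Complex.ofReal_ne_zero.2 M0.ne'
  have r1 : min (1 / 8) (m / (4 * M)) * (4 * M) ≤ m := (le_div_iff₀ (by linarith)).1 (min_le_right _ _)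
  have r2 := min_le_left (1 / 8) (m / (4 * M))
  have r0 : 0 < min (1 / 8) (m / (4 * M)) := by positivity
  generalize min (1 / 8) (m / (4 * M)) = ρ at r0 r1 r2
  have hc : ∀ e, M * cx (cx.symm (z e / M)) = z e := fun e => by
    rw [cx.apply_symm_apply, mul_div_cancel₀ _ M1]
  refine ⟨M, ρ, fun e => cx.symm (z e / M), M0, r0, by linarith only [hm, r1], fun e => by linarith only [N0, hM, r0, r2, hN, hN e], hc,
    fun e => ?_, fun e e' x he he' h1 h2 => by_contra fun ne => (sep e e' he he' ne).not_ge ?_⟩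
  · have := norm_le_cx (cx.symm (z e / M))
    rw [cx.apply_symm_apply, norm_div, Complex.norm_of_nonneg M0.le, le_div_iff₀ M0] at this
    have : ‖cx.symm (z e / M)‖ < 1 / 8 := lt_of_mul_lt_mul_right (by linarith only [hM, r0, r2, this, hN, hN e]) M0.le
    linarith only [r2, this]
  · rw [← hc e, ← hc e', ← mul_sub, ← map_sub, norm_mul, Complex.norm_of_nonneg M0.le]
    have := dist_triangle_left (cx.symm (z e / M)) (cx.symm (z e' / M)) x
    rw [dist_eq_norm] at this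
    have := mul_le_mul_of_nonneg_left ((norm_cx_le _).trans (mul_le_mul_of_nonneg_left
      (this.trans (add_le_add h1 h2)) zero_le_two)) M0.le
    linarith only [r1, this]

theorem BPl_fam {F : Type} [NormedAddCommGroup F] [NormedSpace ℝ F] [FiniteDimensional ℝ F]
    {P : Set (Rn 2)} (hP : IsCompact P) {X : ι → Set (Rn 2)} (hX : ∀ e, IsClosed (X e))
    (hs : ∀ e, X e ⊆ P) (hd : ∀ e e' x, x ∈ X e → x ∈ X e' → e = e') {O : Set F} (hO : IsOpen O)
    {u : Rn 2 → F} (hu : ContinuousOn u P) (huO : MapsTo u P O) {b : ι → Rn 2 → F}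
    (h : ∀ e, Htp (X e) O u (b e)) :
    ∃ G, Continuous G ∧ MapsTo G P O ∧ ∀ e, EqOn G (b e) (X e) := by
  classical
  let w : Rn 2 → F := fun x => if k : ∃ e, x ∈ X e then b k.choose x else 0
  have hw : ∀ e, EqOn w (b e) (X e) := fun e x hx => by
    have k : ∃ e, x ∈ X e := ⟨e, hx⟩
    exact (dif_pos k).trans (by rw [hd _ _ x k.choose_spec hx])
  choose H hH using fun e => (h e).congr (fun _ _ => rfl) (hw e)
  obtain ⟨G, hG, -⟩ := htp_glue finite_univ (fun e _ => hX e) (fun e _ => hH e)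
    fun e _ e' _ x hx s _ => by rw [hd e e' x hx.1 hx.2]
  obtain ⟨g, g1, g2, g3⟩ := Htp.hep hP (finite_univ.isClosed_biUnion fun e _ => hX e)
    (iUnion₂_subset fun e _ => hs e) hO hu huO ⟨G, hG⟩
  exact ⟨g, g1, g3, fun e x hx => (g2 (mem_biUnion (mem_univ e) hx)).trans (hw e hx)⟩

open Classical in
/-- The boundary circles. -/
def BPl_X (o : ι) (c : ι → Rn 2) (ρ : ℝ) (e : ι) : Set (Rn 2) :=
  if e = o then sphere 0 (1 / 4) else sphere (c e) ρ

omit [Finite ι] in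
theorem BPl_Xs {c : ι → Rn 2} {ρ : ℝ} (cin : ∀ e, ‖c e‖ + ρ < 1 / 4)
    (cd : ∀ e e' x, e ≠ o → e' ≠ o → dist x (c e) ≤ ρ → dist x (c e') ≤ ρ → e = e') :
    (∀ e, IsClosed (BPl_X o c ρ e)) ∧ (∀ e, BPl_X o c ρ e ⊆ bP0 o c ρ) ∧
      ∀ e e' x, x ∈ BPl_X o c ρ e → x ∈ BPl_X o c ρ e' → e = e' := by
  have k : ∀ e x, dist x (c e) ≤ ρ → ‖x‖ < 1 / 4 := fun e x h => by
    linarith only [cin, h, cin e, norm_le_norm_add_const_of_dist_le h]
  unfold BPl_X
  refine ⟨fun e => by split_ifs <;> exact isClosed_sphere, fun e x => ?_, fun e e' x => ?_⟩ <;>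
    [split_ifs with h1; split_ifs with h1 h2]
  · exact fun h => ⟨(mem_sphere_zero_iff_norm.1 h).le, fun e' _ =>
      not_lt.1 fun l => (k e' x l.le).ne (mem_sphere_zero_iff_norm.1 h)⟩
  · exact fun h => ⟨(k e x h.le).le, fun e' he => not_lt.1 fun l =>
      l.ne (cd e e' x h1 he h.le l.le ▸ h)⟩
  · exact fun _ _ => h1.trans h2.symm
  · exact fun h h' => ((k e' x h'.le).ne (mem_sphere_zero_iff_norm.1 h)).elim
  · exact fun h h' => ((k e x h.le).ne (mem_sphere_zero_iff_norm.1 h')).elim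
  · exact fun h h' => cd e e' x h1 ‹_› h.le h'.le

theorem BPl_btw (v l : ℂ) {t : ℝ} (ht : t ∈ Icc (0 : ℝ) 1) :
    ‖v * Complex.exp (t * l)‖ ∈ uIcc ‖v‖ ‖v * Complex.exp l‖ := by
  have m : Monotone fun r => ‖v‖ * Real.exp r := Real.exp_monotone.const_mul (norm_nonneg v)
  have k : t * l.re ∈ uIcc 0 l.re := by
    rcases le_total 0 l.re with h | h
    · exact Icc_subset_uIcc ⟨mul_nonneg ht.1 h, mul_le_of_le_one_left h ht.2⟩
    · exact Icc_subset_uIcc' ⟨by linarith only [h, ht, ht.2, mul_nonneg_of_nonpos_of_nonpos (Mathlib.Tactic.Linarith.sub_nonpos_of_le h) (Mathlib.Tactic.Linarith.sub_nonpos_of_le ht.right)], mul_nonpos_of_nonneg_of_nonpos ht.1 h⟩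
  simpa [Complex.norm_exp] using m.image_uIcc_subset (mem_image_of_mem _ k)

theorem BPl_exp {Z : Set (Rn 2)} {O : Set ℂ} {u b l : Rn 2 → ℂ} {ζ : ℂ} {c : Rn 2} {M : ℝ}
    (hM : 0 < M) (hu : ∀ x, u x = ζ + M * cx (x - c)) (hl : ContinuousOn l Z)
    (hb : ∀ x ∈ Z, b x - ζ = cx (x - c) * Complex.exp (l x))
    (hO : ∀ x ∈ Z, ∀ w, ‖w - ζ‖ ∈ uIcc (M * ‖cx (x - c)‖) ‖b x - ζ‖ → w ∈ O) : Htp Z O u b := by
  have e : ∀ x ∈ Z, M * cx (x - c) * Complex.exp (l x - Real.log M) = b x - ζ := fun x hx => by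
    rw [hb x hx, Complex.exp_sub, ← Complex.ofReal_exp, Real.exp_log hM]
    field_simp [Complex.ofReal_ne_zero.2 hM.ne']
  refine ⟨fun p => ζ + M * cx (p.1 - c) * Complex.exp (p.2 * (l p.1 - Real.log M)), ?_,
    fun x _ => by simp [hu], fun x hx => ?_, fun x hx t ht => hO x hx _ ?_⟩
  · have : ContinuousOn (fun p : Rn 2 × ℝ => l p.1) (Z ×ˢ Icc 0 1) :=
      hl.comp continuousOn_fst fun _ h => h.1
    exact continuousOn_const.add ((Continuous.continuousOn (by fun_prop)).mul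
      ((Continuous.continuousOn (by fun_prop)).mul (this.sub continuousOn_const)).cexp)
  · simp only [Complex.ofReal_one, one_mul, e x hx, add_sub_cancel]
  · have := BPl_btw (M * cx (x - c)) (l x - Real.log M) ht
    rwa [e x hx, norm_mul (M : ℂ), Complex.norm_of_nonneg hM.le, add_sub_cancel_left] at *

theorem pl_ext {z : ι → ℂ} {M ρ : ℝ} {c : ι → Rn 2} (hM : 0 < M) (hρ : 0 < ρ)
    (hm : 2 * M * ρ ≤ m) (hz : ∀ e, ‖z e‖ < M / 4) (hc : ∀ e, M * cx (c e) = z e)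
    (cin : ∀ e, ‖c e‖ + ρ < 1 / 4)
    (cd : ∀ e e' x, e ≠ o → e' ≠ o → dist x (c e) ≤ ρ → dist x (c e') ≤ ρ → e = e')
    (sep : ∀ e e', e ≠ o → e' ≠ o → e ≠ e' → m < ‖z e - z e'‖) {b l : ι → Rn 2 → ℂ}
    (l1 : ∀ e, e ≠ o → ContinuousOn (l e) (sphere (c e) ρ))
    (b1 : ∀ e, e ≠ o → ∀ x ∈ sphere (c e) ρ,
      b e x - z e = cx (x - c e) * Complex.exp (l e x) ∧ ‖b e x - z e‖ ≤ m)
    (l2 : ContinuousOn (l o) (sphere 0 (1 / 4)))
    (b2 : ∀ x ∈ sphere (0 : Rn 2) (1 / 4),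
      b o x = cx x * Complex.exp (l o x) ∧ ∀ e, ‖z e‖ < ‖b o x‖) :
    ∃ G : Rn 2 → ℂ, Continuous G ∧ (∀ x ∈ bP0 o c ρ, ∀ e, e ≠ o → G x ≠ z e) ∧
      (∀ e, e ≠ o → EqOn G (b e) (sphere (c e) ρ)) ∧ EqOn G (b o) (sphere 0 (1 / 4)) := by
  obtain ⟨x1, x2, x3⟩ := BPl_Xs cin cd
  have hO : IsOpen {w : ℂ | ∀ e, e ≠ o → w ≠ z e} := by
    simp only [ofPred_forall]
    exact isOpen_iInter_of_finite fun e => isOpen_iInter_of_finite fun _ => isOpen_ne
  have M1 : (M : ℂ) ≠ 0 := Complex.ofReal_ne_zero.2 hM.ne'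
  have := BPl_fam (compact_bP0 o c ρ) x1 x2 x3 hO (u := fun x => M * cx x) (b := b) (by fun_prop)
    (fun x hx e he k => ?_) fun e => ?_
  · obtain ⟨G, g1, g2, g3⟩ := this
    refine ⟨G, g1, g2, fun e he => ?_, ?_⟩
    · simpa only [BPl_X, if_neg he] using g3 e
    · simpa only [BPl_X, if_pos] using g3 o
  · have := hx.2 e he
    rw [cx.injective (mul_left_cancel₀ M1 (k.trans (hc e).symm)), dist_self] at this
    exact hρ.not_ge this
  unfold BPl_X
  split_ifs with he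
  · subst he
    refine BPl_exp (ζ := 0) (c := 0) hM (by simp) l2 (fun x hx => by simpa using (b2 x hx).1)
      fun x hx w hw e' _ k => ?_
    simp only [sub_zero, k] at hw
    refine (lt_min ?_ ((b2 x hx).2 e')).not_ge hw.1
    have := norm_le_cx x
    rw [mem_sphere_zero_iff_norm.1 hx] at this
    linarith only [hz, hM, this, hz e', mul_nonneg_of_nonpos_of_nonpos (le_of_lt (Mathlib.Tactic.Linarith.sub_neg_of_lt hM)) (Mathlib.Tactic.Linarith.sub_nonpos_of_le this)]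
  · refine BPl_exp (ζ := z e) (c := c e) hM (fun x => by rw [← hc e, map_sub]; ring) (l1 e he)
      (fun x hx => (b1 e he x hx).1) fun x hx w hw e' he' k => ?_
    have n : ‖x - c e‖ = ρ := mem_sphere_iff_norm.1 hx
    have n1 := norm_le_cx (x - c e)
    have n2 := norm_cx_le (x - c e)
    rw [n] at n1 n2
    obtain rfl | ne := eq_or_ne e' e
    · rw [k, sub_self, norm_zero, (b1 e' he x hx).1] at hw
      refine (lt_min (mul_pos hM (hρ.trans_le n1)) (norm_pos_iff.2 (mul_ne_zero ?_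
        (Complex.exp_ne_zero _)))).not_ge hw.1
      exact norm_pos_iff.1 (hρ.trans_le n1)
    · refine (sep e' e he' he ne).not_ge (k ▸ hw.2.trans (max_le ?_ (b1 e he x hx).2))
      linarith only [hm, hM, n2, mul_nonneg_of_nonpos_of_nonpos (le_of_lt (Mathlib.Tactic.Linarith.sub_neg_of_lt hM)) (Mathlib.Tactic.Linarith.sub_nonpos_of_le n2)]

omit [Finite ι] in
theorem BPl_rad {S : ℝ × ℂ} {α β t : ℝ} (hα : 0 < α) (hβ : 0 < β)
    (h1 : α • S ∈ thickening δ (bSt a) ∩ bYr a) (h2 : β • S ∈ thickening δ (bSt a) ∩ bYr a)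
    (ht : t ∈ Icc (0 : ℝ) 1) : α • S + t • (β • S - α • S) ∈ thickening δ (bSt a) ∩ bYr a := by
  have k : ∀ {γ μ : ℝ}, 0 < μ → μ ≤ γ → γ • S ∈ thickening δ (bSt a) ∩ bYr a →
      μ • S ∈ thickening δ (bSt a) ∩ bYr a := fun {γ μ} h0 h h' => by
    have g := h0.trans_le h
    rw [← div_mul_cancel₀ μ g.ne', mul_smul]
    exact ⟨smul_thick h'.1 ⟨by positivity, (div_le_one g).2 h⟩, smul_bYr h'.2 (by positivity)⟩
  rw [← sub_smul, smul_smul, ← add_smul]
  rcases le_total α β with h | h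
  · exact k (by linarith only [hα, h, ht, ht.1, mul_nonneg_of_nonpos_of_nonpos (Mathlib.Tactic.Linarith.sub_nonpos_of_le h) (Mathlib.Tactic.Linarith.sub_nonpos_of_le ht.left)]) (by nlinarith [ht.2]) h2
  · exact k (by nlinarith [ht.2]) (by nlinarith [ht.1]) h1

theorem exists_pl (H : BCo h k Po a i σ δ Q) (W : BWd h k a i o δ Q R s L m) {δ₁ : ℝ}
    (h1 : 0 < δ₁) : ∃ (r : ℝ) (c : ι → Rn 2) (ρ : ℝ) (G : Rn 2 → ℝ × ℂ), r ≤ R ∧ Continuous G ∧
      MapsTo G (bP0 o c ρ) (thickening δ₁ (bSt a) ∩ bYr a) ∧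
      BSf (fun e => h (a e)) i o s r c ρ fun x => h (G x) := by
  classical
  obtain ⟨M, ρ, c, hM, hρ, hm, hz, hc, cin, cd⟩ := pl_centres (z := fun e => ste (a e)) W.m0 W.sep
  obtain ⟨r₀, r0, hr⟩ := H.small h1
  have rp : 0 < min r₀ R := lt_min r0 W.R0
  have r1 := min_le_left r₀ R
  have r2 := min_le_right r₀ R
  generalize min r₀ R = r at rp r1 r2
  let κ : ι → ℝ := fun e => if e = o then 4 * r else r / ρ
  let c' : ι → Rn 2 := fun e => if e = o then 0 else c e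
  let w : ι → Rn 2 → Rn 2 := fun e x => κ e • (x - c' e)
  let γ : ι → Rn 2 → Rn 3 := fun e x => h (a e) + pem (i e) (s e) (w e x)
  have κ0 : ∀ e, 0 < κ e := fun e => by
    simp only [κ]
    split_ifs <;> positivity
  have nw : ∀ e, ∀ x ∈ BPl_X o c ρ e, ‖w e x‖ = r := fun e x hx => by
    rw [norm_smul, Real.norm_of_nonneg (κ0 e).le]
    simp only [BPl_X, κ, c'] at hx ⊢
    split_ifs at hx ⊢ <;> rw [mem_sphere_iff_norm.1 hx] <;> field_simp
  have dγ : ∀ e, ∀ x ∈ BPl_X o c ρ e, dist (γ e x) (h (a e)) = r := fun e x hx =>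
    (dist_pem (W.sg e) _ _).trans (nw e x hx)
  have kγ : ∀ e, ∀ x ∈ BPl_X o c ρ e, h (k (γ e x)) = γ e x ∧
      k (γ e x) ∈ thickening δ₁ (bSt a) ∩ bYr a := fun e x hx => by
    obtain ⟨k1, k2, -⟩ := hr e _ ((dγ e x hx).le.trans r1)
    obtain ⟨k3, k4⟩ := H.hk k1
    refine ⟨k3, k2, (H.not_ga k4).1 fun l => ?_⟩
    rw [k3] at l
    have := dγ e x hx
    rw [H.wall l (by linarith only [rp, r2, this, W, W.RQ, W.R0]) (by simp [γ, pem_self]), dist_self] at this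
    exact rp.ne this
  have lc : ∀ e, ContinuousOn (fun x => L e (w e x) + Real.log (κ e)) (BPl_X o c ρ e) := fun e =>
    ((W.Lc e).comp (by fun_prop) fun x hx => ⟨norm_pos_iff.1 (rp.trans_eq (nw e x hx).symm),
      (nw e x hx).le.trans r2⟩).add continuousOn_const
  have lg : ∀ e, ∀ x ∈ BPl_X o c ρ e, ste (k (γ e x)) - ste (a e) =
      cx (x - c' e) * Complex.exp (L e (w e x) + Real.log (κ e)) := fun e x hx => by
    rw [W.log e _ (norm_pos_iff.1 (rp.trans_eq (nw e x hx).symm)) ((nw e x hx).le.trans r2),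
      Complex.exp_add, ← Complex.ofReal_exp, Real.exp_log (κ0 e), map_smul, Complex.real_smul]
    ring
  have X1 : ∀ e, e ≠ o → BPl_X o c ρ e = sphere (c e) ρ := fun e he => if_neg he
  have X2 : BPl_X o c ρ o = sphere 0 (1 / 4) := if_pos rfl
  obtain ⟨G₂, g1, g2, g3, g4⟩ := pl_ext hM hρ hm hz hc cin cd W.sep
    (b := fun e x => ste (k (γ e x))) (fun e he => X1 e he ▸ lc e) (fun e he x hx => by
      rw [← X1 e he] at hx
      exact ⟨(lg e x hx).trans (by simp only [c', if_neg he]),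
        W.near e he _ ((dγ e x hx).le.trans r2)⟩) (X2 ▸ lc o) fun x hx => by
      rw [← X2] at hx
      exact ⟨by simpa only [c', if_pos, W.ao, ste_pole, sub_zero] using lg o x hx,
        fun e => W.far e _ ((dγ o x hx).le.trans r2) (kγ o x hx).2.2⟩
  have g5 : ∀ e, EqOn G₂ (fun x => ste (k (γ e x))) (BPl_X o c ρ e) := fun e => by
    obtain rfl | he := eq_or_ne e o
    exacts [X2 ▸ g4, X1 e he ▸ g3 e he]
  obtain ⟨N, hN⟩ := (compact_bP0 o c ρ).exists_bound_of_continuousOn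
    (cont_sus.comp g1).continuousOn
  have s0 : 0 < δ₁ / (|N| + 1) := by positivity
  have uO : MapsTo (fun x => (δ₁ / (|N| + 1)) • sus (G₂ x)) (bP0 o c ρ)
      (thickening δ₁ (bSt a) ∩ bYr a) := fun x hx => by
    refine ⟨mem_thickening_iff.2 ⟨_, mem_bSt o ⟨le_rfl, zero_le_one⟩, ?_⟩,
      (mem_bYr W.ao H.ne H.dir).2 ⟨?_, ?_⟩⟩
    · rw [zero_smul, dist_zero_right, norm_smul, Real.norm_of_nonneg s0.le, div_mul_eq_mul_div,
        div_lt_iff₀ (by positivity)]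
      exact mul_lt_mul_of_pos_left (((hN x hx).trans (le_abs_self N)).trans_lt (lt_add_one _)) h1
    · rwa [slam_smul s0.le, slam_sus, mul_one]
    · rw [ste_smul s0, ste_sus]
      exact g2 x hx
  obtain ⟨x1, x2, x3⟩ := BPl_Xs cin cd
  have cu : Continuous fun x => (δ₁ / (|N| + 1)) • sus (G₂ x) :=
    (cont_sus.comp g1).const_smul (δ₁ / (|N| + 1))
  obtain ⟨G, G1, G2, G3⟩ := BPl_fam (compact_bP0 o c ρ) x1 x2 x3 (isOpen_thickening.inter open_bYr)
    cu.continuousOn uO (b := fun e x => k (γ e x)) fun e => Htp.line cu.continuousOn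
      (H.kc.comp (continuous_const.add (cont_pem.comp (by fun_prop)))).continuousOn
      fun x hx t ht => by
        have k1 := (kγ e x hx).2
        have k2 := ((mem_bYr W.ao H.ne H.dir).1 k1.2).1
        have k3 := sus_ste k2
        rw [← show G₂ x = ste (k (γ e x)) from g5 e hx] at k3
        rw [← k3] at k1 ⊢
        exact BPl_rad s0 k2 (uO (x2 e hx)) k1 ht
  refine ⟨r, c, ρ, G, r2, G1, G2, rp, hρ, fun e _ => cin e, cd, H.hc.comp G1, fun e he x hx => ?_,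
    fun x hx => ?_⟩
  · have k : x ∈ BPl_X o c ρ e := X1 e he ▸ hx
    simpa only [G3 e k, γ, w, κ, c', if_neg he] using (kγ e x k).1
  · have k : x ∈ BPl_X o c ρ o := X2 ▸ mem_sphere_zero_iff_norm.2 hx
    simpa only [G3 o k, γ, w, κ, c', if_pos, sub_zero] using (kγ o x k).1

end BEp
end
end

-- merged part: Pool.Agent.Work.MP_f0515e_an.D3.BRet
section
/-! Star balls: the singular surface is retracted to the side of `Po`.
Let `T e` be the set of `x ∈ bP0` with `h (G x)` in the closed upper half of the cube of radius `R` about the mark and `T'` the set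
where `h (G x)` lies in no open upper half cube of radius `2 R`. On `T e ∩ T'` the point lies in the wall, `h (G x) = y + pem w`,
`w = mep (h (G x) - y) ≠ 0`, `G x = k (h (G x))`; extend `L e w` from this closed set to `ℓ` (`ext_on`) and put
`w' = cx.symm ((ste (G x) - ste (a e)) * exp (-ℓ x))`, which is non zero on `T e`; clamp by `min 1 (R / ‖w'‖)`; `glue_on'`.
About 200 lines. -/

open Set Metric Filter Topology Function BEv
open scoped NNReal

noncomputable section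
namespace BEp

variable {ι : Type} [Finite ι] {a : ι → ℝ × ℂ} {h : ℝ × ℂ → Rn 3} {k : Rn 3 → ℝ × ℂ}
  {Po : Set (Rn 3)} {i : ι → Fin 3} {σ : ι → ℝ} {δ Q R m : ℝ} {o : ι} {s : ι → ℝ}
  {L : ι → Rn 2 → ℂ}

theorem BRet_clamp {w : Rn 2} (hw : w ≠ 0) (hR : 0 < R) :
    min 1 (R / ‖w‖) • w ≠ 0 ∧ ‖min 1 (R / ‖w‖) • w‖ ≤ R := by
  have n := norm_pos_iff.2 hw
  have p : 0 < min 1 (R / ‖w‖) := lt_min one_pos (div_pos hR n)
  refine ⟨smul_ne_zero p.ne' hw, ?_⟩
  rw [norm_smul, Real.norm_of_nonneg p.le]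
  exact (le_div_iff₀ n).1 (min_le_right _ _)

theorem b_exists_ret (H : BCo h k Po a i σ δ Q) (W : BWd h k a i o δ Q R s L m) {r ρ : ℝ}
    {c : ι → Rn 2} {G : Rn 2 → ℝ × ℂ} (hr : r ≤ R) (hG : Continuous G)
    (hm : MapsTo G (bP0 o c ρ) (thickening δ (bSt a) ∩ bYr a))
    (ht : ∀ x ∈ bP0 o c ρ, h (G x) ∈ Po ∨ ∃ e, dist (h (G x)) (h (a e)) < R)
    (hs : BSf (fun e => h (a e)) i o s r c ρ fun x => h (G x)) :
    ∃ g, BSf (fun e => h (a e)) i o s r c ρ g ∧ ∀ x ∈ bP0 o c ρ,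
      g x ∈ h '' thickening δ (bSt a) \ bGa h a δ ∧
        (g x ∈ Po ∨ ∃ e, g x ∈ fsq (h (a e)) (i e) R) := by
  have R0 := W.R0
  have RQ := W.RQ
  have cF : Continuous fun x => h (G x) := hs.gc
  have cσ : ∀ e, Continuous fun x => σ e * (h (G x) (i e) - h (a e) (i e)) := fun e =>
    continuous_const.mul (((continuous_apply _).comp cF).sub continuous_const)
  let T : ι → Set (Rn 2) := fun e => bP0 o c ρ ∩ ({x | dist (h (G x)) (h (a e)) ≤ R} ∩
    {x | 0 ≤ σ e * (h (G x) (i e) - h (a e) (i e))})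
  let T' : Set (Rn 2) := bP0 o c ρ ∩ ⋂ e, {x | 2 * R ≤ dist (h (G x)) (h (a e))} ∪
    {x | σ e * (h (G x) (i e) - h (a e) (i e)) ≤ 0}
  have cT : ∀ e, IsClosed (T e) := fun e => (closed_bP0 o c ρ).inter
    ((isClosed_le (cF.dist continuous_const) continuous_const).inter
      (isClosed_le continuous_const (cσ e)))
  have cT' : IsClosed T' := (closed_bP0 o c ρ).inter (isClosed_iInter fun e =>
    (isClosed_le continuous_const (cF.dist continuous_const)).union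
      (isClosed_le (cσ e) continuous_const))
  have kG : ∀ x ∈ bP0 o c ρ, k (h (G x)) = G x := fun x hx =>
    H.kh _ (thickening_subset_cthickening _ _ (hm hx).1)
  have ga : ∀ x ∈ bP0 o c ρ, h (G x) ∉ bGa h a δ := fun x hx => (H.not_ga (hm hx).1).2 (hm hx).2
  let w : ι → Rn 2 → Rn 2 := fun e x => mep (i e) (s e) (h (G x) - h (a e))
  have hw : ∀ e, ∀ x ∈ T e ∩ T', h (a e) + pem (i e) (s e) (w e x) = h (G x) ∧ w e x ≠ 0 ∧
      ‖w e x‖ ≤ R := fun e x hx => by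
    have d : dist (h (G x)) (h (a e)) ≤ R := hx.1.2.1
    have z : σ e * (h (G x) (i e) - h (a e) (i e)) = 0 :=
      le_antisymm ((mem_iInter.1 hx.2.2 e).resolve_left fun q => by
        have : 2 * R ≤ dist (h (G x)) (h (a e)) := q
        linarith) hx.1.2.2
    have q := pem_mep (W.sg e) (sub_eq_zero.1 ((mul_eq_zero.1 z).resolve_left (by
      rcases H.sgn e with q | q <;> simp [q])))
    refine ⟨q, fun n => ga x hx.1.1 ?_, ?_⟩
    · rw [← q, show mep (i e) (s e) (h (G x) - h (a e)) = 0 from n, pem_zero, add_zero]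
      exact H.mark_ga e
    · rwa [← q, dist_pem (W.sg e)] at d
  choose l cl el using fun e => ext_on ((cT e).inter cT') (u := fun x => L e (w e x))
    ((W.Lc e).comp (cont_mep.comp (cF.sub continuous_const)).continuousOn fun x hx => (hw e x hx).2)
  let u : ι → Rn 2 → Rn 2 := fun e x => cx.symm ((ste (G x) - ste (a e)) * Complex.exp (-l e x))
  have u0 : ∀ e, ∀ x ∈ T e, u e x ≠ 0 := fun e x hx n => by
    have q := (mul_eq_zero.1 (cx.symm.map_eq_zero_iff.1 n)).resolve_right (Complex.exp_ne_zero _)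
    by_cases b : e = o
    · have := W.far e _ (b ▸ hx.2.1) ((kG x hx.1).symm ▸ (hm hx.1).2)
      rw [kG x hx.1, sub_eq_zero.1 q] at this
      exact this.false
    · exact ((mem_bYr W.ao H.ne H.dir).1 (hm hx.1).2).2 e b (sub_eq_zero.1 q)
  have cu : ∀ e, ContinuousOn (u e) (T e) := fun e => cx.symm.continuous.comp_continuousOn
    (((contOn_ste.comp hG.continuousOn fun x hx =>
      ((mem_bYr W.ao H.ne H.dir).1 (hm hx.1).2).1).sub continuousOn_const).mul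
      (Complex.continuous_exp.comp (cl e).neg).continuousOn)
  obtain ⟨g, cg, e1, e2⟩ := glue_on' cT' cT
    (fun j j' x q q' => H.disj j j' _ (le_trans q.2.1 (by linarith)) (le_trans q'.2.1 (by linarith)))
    cF.continuousOn (v := fun e x => h (a e) + pem (i e) (s e) (min 1 (R / ‖u e x‖) • u e x))
    (fun e => continuousOn_const.add (cont_pem.comp_continuousOn
      ((continuous_min.comp_continuousOn (continuousOn_const.prodMk (continuousOn_const.div
        (cu e).norm fun x hx => norm_ne_zero_iff.2 (u0 e x hx)))).smul (cu e))))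
    fun e x hx => by
      obtain ⟨q1, q2, q3⟩ := hw e x ⟨hx.2, hx.1⟩
      have q4 : u e x = w e x := by
        have := W.log e _ q2 q3
        rw [q1, kG x hx.2.1] at this
        simp only [u, this, el e ⟨hx.2, hx.1⟩, mul_assoc, ← Complex.exp_add, add_neg_cancel,
          Complex.exp_zero, mul_one, ContinuousLinearEquiv.symm_apply_apply]
      simp only [q4]
      rw [min_eq_left ((one_le_div (norm_pos_iff.2 q2)).2 q3), one_smul, q1]
  have bT : ∀ x ∈ bP0 o c ρ, ∀ e v, ‖v‖ ≤ R → h (G x) = h (a e) + pem (i e) (s e) v → x ∈ T' :=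
    fun x hx e v hv q => ⟨hx, mem_iInter.2 fun e' => or_iff_not_imp_left.2 fun n => by
      have d : dist (h (G x)) (h (a e')) < 2 * R := not_le.1 n
      obtain rfl := H.disj e e' (h (G x)) (by rw [q, dist_pem (W.sg e)]; linarith) (by linarith)
      simp [q, pem_self]⟩
  refine ⟨g, ⟨hs.r0, hs.ρ0, hs.cin, hs.cd, cg, fun e b x hx => ?_, fun x hx => ?_⟩, fun x hx => ?_⟩
  · refine (e1 (bT x ⟨?_, fun e' b' => not_lt.1 fun n => ?_⟩ e _ ?_ (hs.bd e b x hx))).trans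
      (hs.bd e b x hx)
    · have := hs.cin e b
      have := norm_sub_norm_le x (c e)
      rw [dist_eq_norm] at hx
      linarith
    · obtain rfl := hs.cd e e' x b b' hx.le n.le
      exact n.ne hx
    · rw [norm_smul, ← dist_eq_norm, hx, Real.norm_of_nonneg (div_pos hs.r0 hs.ρ0).le,
        div_mul_cancel₀ _ hs.ρ0.ne']
      exact hr
  · refine (e1 (bT x ⟨hx.le, fun e b => ?_⟩ o _ ?_ (hs.bo x hx))).trans (hs.bo x hx)
    · have := hs.cin e b
      have := norm_sub_norm_le x (c e)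
      rw [dist_eq_norm]
      linarith
    · rw [norm_smul, hx, Real.norm_of_nonneg (by linarith [hs.r0])]
      linarith only [hr]
  by_cases b : ∃ e, x ∈ T e
  · obtain ⟨e, b⟩ := b
    obtain ⟨q1, q2⟩ := BRet_clamp (u0 e x b) R0
    have d := (dist_pem (i := i e) (W.sg e) (h (a e)) _).trans_le q2
    rw [e2 e b]
    refine ⟨⟨W.sub e (mem_closedBall.2 (by linarith only [R0, d])), fun n => q1 ?_⟩,
      Or.inr ⟨e, (mem_fsq (W.sg e)).2 ⟨_, q2, rfl⟩⟩⟩
    have := H.wall n (e := e) (by linarith) (by simp [pem_self])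
    exact pem_inj (W.sg e) ((add_eq_left.1 this).trans pem_zero.symm)
  · have po : h (G x) ∈ Po := (ht x hx).elim id fun ⟨e, d⟩ =>
      (H.loc e _ (by linarith)).2 (not_le.1 fun n => b ⟨e, hx, d.le, n⟩)
    rw [e1 ⟨hx, mem_iInter.2 fun e => or_iff_not_imp_left.2 fun n => by
      have d : dist (h (G x)) (h (a e)) < 2 * R := not_le.1 n
      exact ((H.loc e _ (by linarith)).1 po).le⟩]
    exact ⟨⟨⟨_, (hm hx).1, rfl⟩, ga x hx⟩, Or.inl po⟩

end BEp
end
end

-- merged part: Pool.Agent.Work.MP_f0515e_an.D3.BRing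
section
/-! Star balls: the inversion of a rinv. For fixed `ρ = ‖x‖` the coordinate `rinv c κ x j` is an odd strictly increasing
function `β ρ` of `x j`, so that `‖rinv c κ x‖ = β ρ ρ`; this is strictly decreasing in `ρ`. About 120 lines. -/

open Set Metric Filter Topology Function BEv
open scoped NNReal

noncomputable section
namespace BEp

variable {c κ : ℝ} {x : Rn 2}

/-- The coordinate function. -/
def BRing_b (c κ ρ t : ℝ) : ℝ :=
  c * t + κ * (max (1 / 2 - 2 * ρ + t) 0 - max (1 / 2 - 2 * ρ - t) 0) +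
    6 * c * (max (1 / 3 - 4 / 3 * ρ + t) 0 - max (1 / 3 - 4 / 3 * ρ - t) 0)

theorem BRing_app (j : Fin 2) : rinv c κ x j = BRing_b c κ ‖x‖ (x j) := rfl

theorem BRing_odd (ρ t : ℝ) : BRing_b c κ ρ (-t) = -BRing_b c κ ρ t := by
  simp only [BRing_b, sub_neg_eq_add, ← sub_eq_add_neg]
  ring

theorem BRing_mono (hc : 0 < c) (hκ : 0 ≤ κ) (ρ : ℝ) : StrictMono (BRing_b c κ ρ) := by
  have key : ∀ u s t : ℝ, s < t →
      max (u + s) 0 - max (u - s) 0 ≤ max (u + t) 0 - max (u - t) 0 := fun u s t h =>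
    sub_le_sub (max_le_max_right _ (by linarith)) (max_le_max_right _ (by linarith))
  intro s t h
  have h1 := mul_le_mul_of_nonneg_left (key (1 / 2 - 2 * ρ) s t h) hκ
  have h2 := mul_le_mul_of_nonneg_left (key (1 / 3 - 4 / 3 * ρ) s t h) (by positivity : 0 ≤ 6 * c)
  have h3 := mul_lt_mul_of_pos_left h hc
  unfold BRing_b
  linarith only [h1, h2, h3]

theorem BRing_abs (hc : 0 < c) (hκ : 0 ≤ κ) (ρ t : ℝ) :
    |BRing_b c κ ρ t| = BRing_b c κ ρ |t| := by
  have h0 : BRing_b c κ ρ 0 = 0 := by simp [BRing_b]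
  rcases le_total 0 t with h | h
  · rw [abs_of_nonneg h, abs_of_nonneg (h0 ▸ (BRing_mono hc hκ ρ).monotone h)]
  · rw [abs_of_nonpos h, abs_of_nonpos (h0 ▸ (BRing_mono hc hκ ρ).monotone h), BRing_odd]

theorem BRing_norm (hc : 0 < c) (hκ : 0 ≤ κ) : ‖rinv c κ x‖ = BRing_b c κ ‖x‖ ‖x‖ := by
  have hm := (BRing_mono hc hκ ‖x‖).monotone
  have h1 : ∀ j, ‖rinv c κ x j‖ = BRing_b c κ ‖x‖ ‖x j‖ := fun j => BRing_abs hc hκ _ _
  apply le_antisymm
  · refine (pi_norm_le_iff_of_nonempty _).2 fun j => ?_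
    rw [h1]
    exact hm (norm_le_pi_norm x j)
  · obtain ⟨j, hj⟩ := (Finite.exists_max fun j => ‖x j‖ : ∃ j : Fin 2, _)
    have h2 : ‖x‖ ≤ ‖x j‖ := (pi_norm_le_iff_of_nonempty _).2 hj
    exact (hm h2).trans ((h1 j).symm.le.trans (norm_le_pi_norm _ j))

theorem tp_rinv : TP (rinv c κ) := by
  refine TP.pi fun j => ?_
  have hj : TP fun x : Rn 2 => x j := TP.id'.apply j
  have hn : ∀ a b : ℝ, TP fun x : Rn 2 => a - b * ‖x‖ := fun a b =>
    (TP.const a).sub (TP.id'.norm_pi.const_mul b)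
  have hm : ∀ a b : ℝ, TP fun x : Rn 2 => max (a - b * ‖x‖ + x j) 0 - max (a - b * ‖x‖ - x j) 0 :=
    fun a b => (((hn a b).add hj).max (TP.const 0)).sub (((hn a b).sub hj).max (TP.const 0))
  exact ((hj.const_mul c).add ((hm _ _).const_mul κ)).add ((hm _ _).const_mul (6 * c))

theorem norm_rinv (hc : 0 < c) (hκ : 0 ≤ κ) (h1 : 1 / 4 ≤ ‖x‖) (h2 : ‖x‖ ≤ 1) :
    ‖rinv c κ x‖ = c * (2 - ‖x‖) + κ * max (1 / 2 - ‖x‖) 0 := by
  rw [BRing_norm hc hκ, BRing_b, max_eq_right (by linarith only [h1] : 1 / 2 - 2 * ‖x‖ - ‖x‖ ≤ 0),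
    max_eq_right (by linarith only [h1] : 1 / 3 - 4 / 3 * ‖x‖ - ‖x‖ ≤ 0),
    max_eq_left (by linarith only [h2] : 0 ≤ 1 / 3 - 4 / 3 * ‖x‖ + ‖x‖),
    show 1 / 2 - 2 * ‖x‖ + ‖x‖ = 1 / 2 - ‖x‖ by ring]
  ring

theorem rinv_in (h : ‖x‖ = 1 / 4) : rinv c κ x = (7 * c + κ) • x := by
  funext j
  have e1 : (1 : ℝ) / 2 - 2 * (1 / 4) = 0 := by norm_num
  have e2 : (1 : ℝ) / 3 - 4 / 3 * (1 / 4) = 0 := by norm_num
  rw [BRing_app, h, BRing_b, e1, e2, zero_add, zero_sub, max_zero_sub_max_neg_zero_eq_self,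
    Pi.smul_apply, smul_eq_mul]
  ring

theorem rinv_out (h : ‖x‖ = 1) : rinv c κ x = c • x := by
  funext j
  obtain ⟨h1, h2⟩ := abs_le.1 (show |x j| ≤ 1 from h ▸ norm_le_pi_norm x j)
  rw [BRing_app, h, BRing_b, max_eq_right (by linarith only [h2]), max_eq_right (by linarith only [h1]),
    max_eq_right (by linarith), max_eq_right (by linarith), Pi.smul_apply, smul_eq_mul]
  ring

theorem rinv_inj (hc : 0 < c) (hκ : 0 ≤ κ) :
    InjOn (rinv c κ) {x | 1 / 4 ≤ ‖x‖ ∧ ‖x‖ ≤ 1} := by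
  have key : ∀ x y : Rn 2, 1 / 4 ≤ ‖x‖ → ‖x‖ ≤ 1 → 1 / 4 ≤ ‖y‖ → ‖y‖ ≤ 1 →
      rinv c κ x = rinv c κ y → ‖x‖ ≤ ‖y‖ := by
    intro x y a1 a2 b1 b2 e
    by_contra hlt
    rw [not_le] at hlt
    have h1 := congrArg norm e
    rw [norm_rinv hc hκ a1 a2, norm_rinv hc hκ b1 b2] at h1
    have h2 := mul_le_mul_of_nonneg_left
      (max_le_max_right 0 (by linarith only [hlt] : 1 / 2 - ‖x‖ ≤ 1 / 2 - ‖y‖)) hκ
    have h3 := mul_lt_mul_of_pos_left hlt hc
    linarith only [h1, h2, h3]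
  rintro x ⟨a1, a2⟩ y ⟨b1, b2⟩ e
  have h := le_antisymm (key x y a1 a2 b1 b2 e) (key y x b1 b2 a1 a2 e.symm)
  funext j
  have h1 := congrFun e j
  rw [BRing_app, BRing_app, h] at h1
  exact (BRing_mono hc hκ _).injective h1

end BEp
end
end

-- merged part: Pool.Agent.Work.MP_f0515e_an.D3.DeBase
section
/-! TASK DeBase. The ground floor. Take `R` even and large, `κ = {p : Z3 // p ∈ Icc (-R) R}` containing `W` and all `car (g
x)`, `‖x‖ ≤ 1`; `pos = Subtype.val`, `fc p i b = update p i (p i + sgb b)` if `p i` is odd (it stays in the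
box, `LeZ.box`) and `p` otherwise; the complex is `Ok univ`; `Wc = {p | p.1 ∈ W}`, `cr x = ⟨car (g x), _⟩` if
it is in the box, `0` otherwise; `usc` by `car_near`, `le_of_inj`. About 120 lines. -/

open Set Metric Filter Topology Function BEv
open scoped NNReal

noncomputable section
namespace BEp

/-- The facet of a lattice cell. -/
def DeBase_fc (p : Z3) (i : Fin 3) (b : Bool) : Z3 :=
  update p i (if Odd (p i) then p i + sgb b else p i)

theorem DeBase_le (p : Z3) (i : Fin 3) (b : Bool) : LeZ (DeBase_fc p i b) p := by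
  intro j
  by_cases hj : j = i
  · subst hj
    rw [DeBase_fc, update_self]
    split_ifs with h
    · cases b
      · exact Or.inr ⟨h, Or.inr rfl⟩
      · exact Or.inr ⟨h, Or.inl rfl⟩
    · exact Or.inl rfl
  · exact Or.inl (update_of_ne hj _ _)

/-- The lattice cells of a box with even corners. -/
def DeBase_K {lo hi : Z3} (he : ∀ i, Even (lo i) ∧ Even (hi i)) : Cub (Icc lo hi) :=
  ⟨Subtype.val, fun p i b => ⟨DeBase_fc p i b, LeZ.box he p.2 (DeBase_le p i b)⟩⟩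

theorem DeBase_ok {lo hi : Z3} (he : ∀ i, Even (lo i) ∧ Even (hi i)) : (DeBase_K he).Ok univ := by
  refine ⟨fun _ _ _ _ => trivial, fun σ _ i b h => Subtype.ext ?_, fun σ _ i b h => ?_,
    fun σ _ i j b c h => Subtype.ext ?_, fun σ _ σ' _ _ _ h _ => Subtype.ext h⟩
  · change DeBase_fc σ i b = σ
    rw [DeBase_fc, if_neg (Int.not_odd_iff_even.2 (show Even (σ.1 i) from h)), update_eq_self]
  · change DeBase_fc σ i b = update σ.1 i (σ.1 i + sgb b)
    rw [DeBase_fc, if_pos (show Odd (σ.1 i) from h)]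
  · change DeBase_fc (DeBase_fc σ i b) j c = DeBase_fc (DeBase_fc σ j c) i b
    simp only [DeBase_fc, update_of_ne h, update_of_ne h.symm]
    exact update_comm h _ _ _

theorem DeBase_box {A : Set Z3} (hA : A.Finite) :
    ∃ lo hi : Z3, (∀ i, Even (lo i) ∧ Even (hi i)) ∧ A ⊆ Icc lo hi := by
  obtain ⟨a, ha⟩ := hA.bddBelow
  obtain ⟨b, hb⟩ := hA.bddAbove
  refine ⟨fun i => 2 * -|a i|, fun i => 2 * |b i|, fun i => ⟨even_two_mul _, even_two_mul _⟩,
    fun p hp => ⟨fun i => ?_, fun i => ?_⟩⟩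
  · have h1 : a i ≤ p i := ha hp i
    have h2 := neg_abs_le (a i)
    have h3 := abs_nonneg (a i)
    change 2 * -|a i| ≤ p i
    linarith
  · have h1 : p i ≤ b i := hb hp i
    have h2 := le_abs_self (b i)
    have h3 := abs_nonneg (b i)
    change p i ≤ 2 * |b i|
    linarith

theorem Core.Ok.base {C : Core} (hC : C.Ok) :
    ∃ (κ : Type) (_ : Fintype κ) (L : TLev C κ), L.Ok ∧ Injective L.K.pos := by
  classical
  obtain ⟨R, hR⟩ := (isCompact_closedBall (0 : Rn 2) 1).exists_bound_of_continuousOn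
    hC.cont.continuousOn
  obtain ⟨lo, hi, he, hs⟩ := DeBase_box (C.W_finite.union (finite_near (R + 1)))
  have hc : ∀ x : Rn 2, ‖x‖ ≤ 1 → car (C.g x) ∈ Icc lo hi := fun x hx => hs (Or.inr (by
    have h1 := norm_car (C.g x)
    have h2 := hR x (mem_closedBall_zero_iff.2 hx)
    have h3 := norm_le_norm_add_norm_sub' (zr (car (C.g x))) (C.g x)
    change ‖zr (car (C.g x))‖ ≤ R + 1
    linarith only [h1, h2, h3]))
  let cr : Rn 2 → Icc lo hi := fun x =>
    if h : ‖x‖ ≤ 1 then ⟨_, hc x h⟩ else ⟨_, hc 0 (by simp)⟩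
  have hp : ∀ x : Rn 2, ‖x‖ ≤ 1 → (cr x).1 = car (C.g x) := fun x hx => by
    simp only [cr, dif_pos hx]
  have hK := DeBase_ok he
  have hW : (DeBase_K he).Cl {p | p.1 ∈ C.W} := fun p hp i b => by
    obtain ⟨j, hj⟩ := mem_iUnion.1 hp
    exact mem_iUnion.2 ⟨j, LeZ.box (hC.evl j) hj (DeBase_le p i b)⟩
  refine ⟨Icc lo hi, (finite_Icc lo hi).fintype, ⟨DeBase_K he, {p | p.1 ∈ C.W}, cr⟩,
    ⟨hK.mono (subset_univ _) ((hW.union ?_).union (TLev.cl_out _)), hp, fun x hx => ?_, hW, ?_,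
      Subtype.val_injective.injOn⟩, Subtype.val_injective⟩
  · rintro σ ⟨x, h1, h2⟩ i b
    exact ⟨x, h1, (Cub.le_fc _ σ i b).trans h2⟩
  · filter_upwards [((hC.cont.tendsto x).eventually (car_near (C.g x))).filter_mono
      nhdsWithin_le_nhds, self_mem_nhdsWithin] with y h1 hy
    refine hK.le_of_inj Subtype.val_injective.injOn trivial trivial ?_
    change LeZ (cr y).1 (cr x).1
    rwa [hp x (mem_closedBall_zero_iff.1 hx), hp y (mem_closedBall_zero_iff.1 hy)]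
  · exact Subset.antisymm (by rintro _ ⟨p, hp, rfl⟩; exact hp)
      fun p hp => ⟨⟨p, hs (Or.inl hp)⟩, hp, rfl⟩

end BEp
end
end

-- merged part: Pool.Agent.Work.MP_f0515e_an.D3.DeUp2
section
/-! TASK DeUp2. Over a column the thickened complex is a slab. `col_vv`: `e.1` is in the voxel of `σ ∈ Kin`, `σ ∉ Wc` by `m5`,
`σ ≤ cr x`, `g x ∈ Col m`, so `car (g x) (k m) = c m` (`car1_even`) and `pos σ (k m) = c m` (`LeZ.even`).
`col_ex`: `p = update (round z) (k m) (c m)`, `zr p = g x` by `m3`, `‖x‖ < 1 / 2`, `e = sec (cr x) z`,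
`car_zr`. `col_bd`: write `e = sec φ z` (`mem_EE` for `Kin`), `bd_iff`; for `z'` near `z`, `sec φ z' ∈ VV Kin
↔ |z' (k m) - c m| ≤ 1 / 2` by `col_vv`, `col_ex`, `col_inj`. `col_sheet`: the set is compact, `Prod.fst` is
injective on it (`col_inj`) and its image is empty or the convex set `{z ∈ Col' m | z (k m) = c m + s}`
(`col_bd`); `preconn_of_image`. About 200 lines. -/

open Set Metric Filter Topology Function BEv
open scoped NNReal

noncomputable section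
namespace BEp

namespace TLev
variable {C : Core} {κ : Type} {L : TLev C κ} {σ σ' : κ} {x y : Rn 2} {e e' : FF κ}
  {m : Fin C.nM} {p : Z3}

theorem Ok.col_vv (hC : C.Ok) (hL : L.Ok) (he : e ∈ L.K.VV L.Kin)
    (hb : closedBall e.1 2 ⊆ C.Col m) : |e.1 (C.k m) - C.c m| ≤ 1 / 2 := by
  obtain ⟨σ, hσ, h1, -⟩ := Cub.mem_VV'.1 he
  rw [mem_closedBall] at h1
  rcases hσ with hσ | ⟨x, hx, hσ⟩
  · refine absurd (hb ?_) (hC.m5 m _ (hL.wpos ▸ mem_image_of_mem _ hσ))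
    exact mem_closedBall'.2 (h1.trans (by norm_num))
  have hx1 : ‖x‖ ≤ 1 := hx.trans (by norm_num)
  have h2 := hL.dist_le hx1 hσ
  rw [← dist_eq_norm] at h2
  have h3 := (hC.m1 m x hx1 (hb (mem_closedBall'.2 (by
    linarith only [h1, h2, dist_triangle e.1 (zr (L.K.pos σ)) (C.g x)])))).1
  have h4 : car (C.g x) (C.k m) = C.c m := car1_even (hC.evc m) (by rw [h3]; norm_num)
  have h5 := hL.ok.le_pos (L.cr_mem hx1) hσ
  rw [hL.pos x hx1] at h5
  rw [← h4, ← h5.even (h4 ▸ hC.evc m)]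
  exact (dist_le_pi_dist e.1 (zr (L.K.pos σ)) (C.k m)).trans h1

theorem Ok.col_ex (hC : C.Ok) (hL : L.Ok) {z : Rn 3} (hb : closedBall z 1 ⊆ C.Col m)
    (h : |z (C.k m) - C.c m| ≤ 1 / 2) : ∃ e ∈ L.K.VV L.Kin, e.1 = z := by
  obtain ⟨p, h1, h2⟩ : ∃ p : Z3, dist z (zr p) ≤ 1 / 2 ∧ p (C.k m) = C.c m := by
    refine ⟨update (fun i => round (z i)) (C.k m) (C.c m),
      (dist_pi_le_iff (by norm_num)).2 fun i => ?_, update_self _ _ _⟩
    obtain rfl | hi := eq_or_ne i (C.k m)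
    · simpa only [zr, update_self, Real.dist_eq] using h
    · simpa only [zr, update_of_ne hi, Real.dist_eq] using abs_sub_round (z i)
  have h3 := hb (mem_closedBall'.2 (h1.trans (by norm_num)))
  obtain ⟨x, hx, h4⟩ := hC.m3 m _ h3 (congrArg _ h2)
  have h5 := (hC.m1 m x hx (h4 ▸ h3)).2
  refine ⟨L.K.sec (L.cr x) z, Cub.mem_VV'.2 ⟨L.cr x,
    .inr ⟨x, by linarith only [h5], Cub.Le.refl _ _⟩, ?_, rfl⟩, rfl⟩
  rw [hL.pos x hx, h4, car_zr]
  exact h1

theorem DeUp2_sub {z z' : Rn 3} (hC : C.Ok) (hz : z ∈ C.Col' m) (h : dist z' z ≤ 1) {r : ℝ}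
    (hr : r ≤ 3) : closedBall z' r ⊆ C.Col m :=
  (closedBall_subset_closedBall' (by linarith)).trans (hC.thick m z hz)

theorem DeUp2_bd [Fintype κ] (hC : C.Ok) (hL : L.Ok) (hz : e.1 ∈ C.Col' m)
    (he : e ∈ L.K.VV L.Kin) :
    e ∈ L.K.Bd L.Kin ↔ ∃ᶠ z : Rn 3 in 𝓝 e.1, (1 / 2 : ℝ) < |z (C.k m) - C.c m| := by
  obtain ⟨φ, hφ, h1, h2⟩ := hL.ok_in.mem_EE.1 (L.K.VV_sub_EE _ he)
  have h3 : e.1 ∈ stz (L.K.pos φ) := h1 ▸ self_mem_stz _
  have h4 := hL.ok_in.bd_iff hφ h3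
  rw [h2] at h4
  rw [h4, and_iff_right he]
  refine frequently_congr ?_
  filter_upwards [(isOpen_stz _).mem_nhds h3, closedBall_mem_nhds e.1 one_pos] with z h5 h6
  rw [← not_le, not_iff_not]
  refine ⟨fun h => hL.col_vv hC h (DeUp2_sub hC hz h6 (by norm_num)), fun h => ?_⟩
  obtain ⟨e', h7, h8⟩ := hL.col_ex hC (DeUp2_sub hC hz h6 (by norm_num)) h
  rwa [hL.col_inj hC (Cub.sec_mem_EE (.inl hφ) h5)
    (L.K.EE_mono subset_union_left (L.K.VV_sub_EE _ h7)) h8.symm (DeUp2_sub hC hz h6 le_rfl)]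

theorem Ok.col_bd [Fintype κ] (hC : C.Ok) (hL : L.Ok) {z : Rn 3} (hz : z ∈ C.Col' m) :
    (∃ e ∈ L.K.Bd L.Kin, e.1 = z) ↔ |z (C.k m) - C.c m| = 1 / 2 := by
  have h0 : dist z z ≤ 1 := by simp
  refine ⟨?_, fun h => ?_⟩
  · rintro ⟨e, he, rfl⟩
    refine (hL.col_vv hC he.1 (DeUp2_sub hC hz h0 (by norm_num))).antisymm (not_lt.1 fun h => ?_)
    have c : Continuous fun z : Rn 3 => |z (C.k m) - C.c m| := by fun_prop
    obtain ⟨z, h1, h2⟩ := (((DeUp2_bd hC hL hz he.1).1 he).and_eventually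
      (c.continuousAt.eventually_lt_const h)).exists
    exact lt_asymm h1 h2
  · obtain ⟨e, he, rfl⟩ := hL.col_ex hC (DeUp2_sub hC hz h0 (by norm_num)) h.le
    refine ⟨e, (DeUp2_bd hC hL hz he).2 ?_, rfl⟩
    have c : Continuous fun t : ℝ => e.1 + fun _ => t * (e.1 (C.k m) - C.c m) := by fun_prop
    have t : Tendsto (fun t : ℝ => e.1 + fun _ => t * (e.1 (C.k m) - C.c m)) (𝓝[>] 0) (𝓝 e.1) :=
      (c.tendsto' 0 _ (by ext; simp)).mono_left nhdsWithin_le_nhds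
    refine t.frequently (Eventually.frequently ?_)
    filter_upwards [self_mem_nhdsWithin] with t (ht : 0 < t)
    rw [Pi.add_apply, add_sub_right_comm, ← one_add_mul, abs_mul, h, abs_of_pos (by linarith only [ht])]
    linarith only [ht]

theorem Ok.col_sheet [Fintype κ] (hC : C.Ok) (hL : L.Ok) (m : Fin C.nM) (s : ℝ) :
    IsPreconnected {e ∈ L.K.Bd L.Kin | e.1 ∈ C.Col' m ∧ e.1 (C.k m) = C.c m + s} := by
  refine preconn_of_image (f := Prod.fst) ((L.K.isCompact_Bd _).inter_right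
    (((hC.cl' m).preimage continuous_fst).inter (isClosed_eq (by fun_prop) continuous_const)))
    continuous_fst.continuousOn (fun e he e' he' h => ?_) ?_
  · exact hL.col_inj hC (L.K.EE_mono subset_union_left (L.K.VV_sub_EE _ he.1.1))
      (L.K.EE_mono subset_union_left (L.K.VV_sub_EE _ he'.1.1)) h
      (DeUp2_sub hC he.2.1 (by simp) le_rfl)
  by_cases hs : |s| = 1 / 2
  · have e : Prod.fst '' {e ∈ L.K.Bd L.Kin | e.1 ∈ C.Col' m ∧ e.1 (C.k m) = C.c m + s} =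
        C.Col' m ∩ {z | z (C.k m) = C.c m + s} := by
      refine subset_antisymm (by rintro _ ⟨e, he, rfl⟩; exact he.2) fun z hz => ?_
      obtain ⟨e, he, rfl⟩ := (hL.col_bd hC hz.1).2 (by rw [hz.2, add_sub_cancel_left, hs])
      exact ⟨e, ⟨he, hz⟩, rfl⟩
    rw [e]
    exact ((hC.cvx' m).inter (convex_hyperplane (f := fun z : Rn 3 => z (C.k m))
      ⟨fun _ _ => rfl, fun _ _ => rfl⟩ _)).isPreconnected
  · refine Set.Subsingleton.isPreconnected ?_
    rintro _ ⟨e, he, rfl⟩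
    have := (hL.col_bd hC he.2.1).1 ⟨e, he.1, rfl⟩
    rw [he.2.2, add_sub_cancel_left] at this
    exact absurd this hs

end TLev

end BEp
end
end

-- merged part: Pool.Agent.Work.MP_f0515e_an.D3.DeUp1
section
/-! TASK DeUp1. The collar on the top floor. `tp_ring`: `tp_localF` on the ring; near `x`, `G y = sec (cr x) (g0 y)` by `usc`,
`sec_eq`. `vv_ring`: `mem_VV` gives `σ ∈ Kin` with `g x` in its voxel; if `σ ≤ cr y`, `y` inner, then `‖g x -
g y‖ ≤ 2` and `h3` gives `pos σ ∈ W`. `ring_wc`: if `g x` is in the voxel of `p ∈ W` then `car (g x) ≤ p` is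
in `W` (`LeZ.box`), `mem_wc`. `vox_vv`: for `φ ∈ Wc`, `y ∈ stz (pos φ)` in the voxel of `p ∈ W`, `σ ∈ Wc` over
`p`: the faces of `φ` and `σ` at `car y` are in `Wc` with the same position, so `sec φ y = sec σ y`.
`bd_ring`: `bd_iff` for the complex `Kin` with `φ = cr x ∈ Wc`; for `y` near `g x`: `sec φ y ∈ VV Kin ↔ y ∈
Vox W` (one way `vox_vv`, the other as in `vv_ring`, with `‖y - g x‖ < 1`); `Vox W` is closed. `vv_O`: `o2`,
or `o1` and `dist_le`. About 200 lines. -/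

open Set Metric Filter Topology Function BEv
open scoped NNReal

noncomputable section
namespace BEp

namespace TLev
variable {C : Core} {κ : Type} {L : TLev C κ} {σ σ' : κ} {x y : Rn 2} {e e' : FF κ}
  {m : Fin C.nM} {p : Z3}

theorem DeUp1_vox (hC : C.Ok) (hL : L.Ok) (h1 : 5 / 8 ≤ ‖x‖) (h2 : ‖x‖ ≤ 1)
    (he : e ∈ L.K.VV L.Kin) (hd : ‖e.1 - C.g x‖ ≤ 1) : e.1 ∈ Vox C.W := by
  obtain ⟨σ, hσ, hb, -⟩ := Cub.mem_VV'.1 he
  refine mem_iUnion₂.2 ⟨L.K.pos σ, ?_, hb⟩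
  rcases hσ with hσ | ⟨y, hy, hl⟩
  · rw [← hL.wpos]
    exact mem_image_of_mem _ hσ
  · have h3 := hL.dist_le (hy.trans (by norm_num)) hl
    have h4 := mem_closedBall_iff_norm'.1 hb
    have h5 := norm_sub_le_norm_sub_add_norm_sub (zr (L.K.pos σ)) e.1 (C.g x)
    have h6 := norm_sub_le_norm_sub_add_norm_sub (C.g x) (zr (L.K.pos σ)) (C.g y)
    rw [norm_sub_rev (C.g x) (zr _)] at h6
    exact hC.h3 x y h1 h2 hy (by linarith only [hd, h3, h4, h5, h6]) _ (by linarith only [hd, h4, h5])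

theorem Ok.tp_ring [Fintype κ] (hC : C.Ok) (hL : L.Ok) :
    ∃ G₁ : Rn 2 → FF κ, TP G₁ ∧ ∀ x, 1 / 2 ≤ ‖x‖ → ‖x‖ ≤ 1 → G₁ x = L.G x := by
  obtain ⟨k, hk, he⟩ := tp_localF (poly_ring (n := 2) (1 / 2) 1) (f := L.G) (by
    rintro x ⟨-, hx2⟩
    refine ⟨fun y => L.K.sec (L.cr x) (C.g0 y), (L.K.sec_tp _).comp hC.tp, ?_⟩
    have h1 := hL.usc x (mem_closedBall_zero_iff.2 hx2)
    have h2 : ∀ᶠ y in 𝓝[{x : Rn 2 | 1 / 2 ≤ ‖x‖ ∧ ‖x‖ ≤ 1}] x, L.K.Le (L.cr y) (L.cr x) :=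
      h1.filter_mono (nhdsWithin_mono x fun y hy => mem_closedBall_zero_iff.2 hy.2)
    filter_upwards [h2, self_mem_nhdsWithin] with y hy hy'
    have h3 : C.g y ∈ stz (L.K.pos (L.cr y)) := by
      rw [hL.pos y hy'.2]
      exact self_mem_stz _
    rw [← hC.eq y hy'.1 hy'.2]
    exact hL.ok.sec_eq (L.cr_mem hx2) hy h3)
  exact ⟨k, hk, fun x h1 h2 => he ⟨h1, h2⟩⟩

theorem Ok.vv_ring (hC : C.Ok) (hL : L.Ok) (h1 : 5 / 8 ≤ ‖x‖) (h2 : ‖x‖ ≤ 1)
    (h : L.G x ∈ L.K.VV L.Kin) : C.g x ∈ Vox C.W := by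
  exact DeUp1_vox hC hL h1 h2 h (by simp)

theorem Ok.ring_wc (hC : C.Ok) (hL : L.Ok) (h1 : 5 / 8 ≤ ‖x‖) (h2 : ‖x‖ ≤ 1)
    (h : C.g x ∈ Vox C.W) : L.cr x ∈ L.Wc := by
  obtain ⟨p, hp, hx⟩ := mem_iUnion₂.1 h
  obtain ⟨j, hj⟩ := mem_iUnion.1 hp
  have h3 : LeZ (car (C.g x)) p := mem_stz.1 (vox_sub_stz p hx)
  refine hL.mem_wc ⟨x, h1, h2, Cub.Le.refl _ _⟩ ?_
  rw [hL.pos x h2]
  exact mem_iUnion.2 ⟨j, LeZ.box (hC.evl j) hj h3⟩

theorem Ok.vox_vv (hL : L.Ok) (hσ : σ ∈ L.Wc) {z : Rn 3} (hz : z ∈ stz (L.K.pos σ))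
    (h : z ∈ Vox C.W) : L.K.sec σ z ∈ L.K.VV L.Kin := by
  obtain ⟨p, hp, hx⟩ := mem_iUnion₂.1 h
  rw [← hL.wpos] at hp
  obtain ⟨σ', hσ', rfl⟩ := hp
  have s1 : σ ∈ L.S := Or.inl (Or.inl hσ)
  have s2 : σ' ∈ L.S := Or.inl (Or.inl hσ')
  have l1 : LeZ (car z) (L.K.pos σ) := mem_stz.1 hz
  have l2 : LeZ (car z) (L.K.pos σ') := mem_stz.1 (vox_sub_stz _ hx)
  have p1 := hL.ok.pos_fa s1 l1
  have p2 := hL.ok.pos_fa s2 l2
  have w1 := hL.wcl.le_mem hσ (L.K.fa_le σ (car z))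
  have w2 := hL.wcl.le_mem hσ' (L.K.fa_le σ' (car z))
  have e := hL.winj (Or.inl w1) (Or.inl w2) (p1.trans p2.symm)
  have e1 := hL.ok.sec_eq s1 (L.K.fa_le σ (car z)) (y := z) (by rw [p1]; exact self_mem_stz _)
  have e2 := hL.ok.sec_eq s2 (L.K.fa_le σ' (car z)) (y := z) (by rw [p2]; exact self_mem_stz _)
  rw [← e1, e, e2]
  exact mem_iUnion₂.2 ⟨σ', Or.inl hσ', z, hx, rfl⟩

theorem Ok.bd_ring [Fintype κ] (hC : C.Ok) (hL : L.Ok) (h1 : 5 / 8 ≤ ‖x‖) (h2 : ‖x‖ ≤ 1) :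
    L.G x ∈ L.K.Bd L.Kin ↔ C.g x ∈ frontier (Vox C.W) := by
  have hs : C.g x ∈ stz (L.K.pos (L.cr x)) := by
    rw [hL.pos x h2]
    exact self_mem_stz _
  rw [frontier_eq_closure_inter_closure, (isClosed_vox C.W_finite).closure_eq]
  constructor
  · intro h
    have hv := hL.vv_ring hC h1 h2 h.1
    have hw := hL.ring_wc hC h1 h2 hv
    refine ⟨hv, mem_closure_iff_frequently.2 ?_⟩
    have h3 := ((hL.ok_in.bd_iff (Or.inl hw) hs).1 h).2
    refine (h3.and_eventually ((isOpen_stz _).mem_nhds hs)).mono ?_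
    rintro z ⟨hz, hz'⟩ hz''
    exact hz (hL.vox_vv hw hz' hz'')
  · rintro ⟨hv, h⟩
    have hw := hL.ring_wc hC h1 h2 hv
    refine (hL.ok_in.bd_iff (Or.inl hw) hs).2 ⟨hL.vox_vv hw hs hv, ?_⟩
    refine ((mem_closure_iff_frequently.1 h).and_eventually
      (closedBall_mem_nhds (C.g x) one_pos)).mono ?_
    rintro z ⟨hz, hz'⟩ hz''
    exact hz (DeUp1_vox hC hL h1 h2 hz'' (mem_closedBall_iff_norm.1 hz'))

theorem Ok.vv_O (hC : C.Ok) (hL : L.Ok) (he : e ∈ L.K.VV L.Kin) : e.1 ∈ C.O := by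
  obtain ⟨σ, hσ, hb, -⟩ := Cub.mem_VV'.1 he
  rcases hσ with hσ | ⟨y, hy, hl⟩
  · refine hC.o2 (mem_iUnion₂.2 ⟨L.K.pos σ, ?_, hb⟩)
    rw [← hL.wpos]
    exact mem_image_of_mem _ hσ
  · refine hC.o1 y hy ?_
    have h1 := hL.dist_le (hy.trans (by norm_num)) hl
    have h2 := mem_closedBall_iff_norm.1 hb
    have h3 := norm_sub_le_norm_sub_add_norm_sub e.1 (zr (L.K.pos σ)) (C.g y)
    rw [mem_closedBall_iff_norm]
    linarith only [h1, h2, h3]

end TLev

end BEp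
end
end

-- merged part: Pool.Agent.Work.MP_f0515e_an.D3.DeUp3
section
/-! TASK DeUp3. Capping the outer collar by a disc on the boundary surface. Let `k` be a left inverse of `φ` on the square
(`tp_linvF`); `β = k ∘ G₁` is a bijection of `J` onto the unit sphere (`J` lies in the ring by `inn`, `out`,
`Ball.sub`; `G₁` is injective on the ring by `ns`). `fill hC.ball (ball_round 0 one_pos)` gives `Θ`; `H x = if
‖Θ x‖ - 1 ≤ 0 then φ (Θ x) else G₁ x` (`tp_ite`; `‖Θ x‖ ≤ 1 ↔ x ∈ B`, `‖Θ x‖ = 1 ↔ x ∈ J`). `H` is injective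
on `B` and on the rest of the square. Local injectivity: `B \ J` and `Bᶜ` are open; at `x ∈ J` use `fr` and
`bd_ring`. A double pair has one point in `B` and one point `y` outside, with `G y ∈ VV Kin`, so `vv_ring`,
`h4` give `‖y‖ < 3 / 4` and `m1` gives `g y ∉ Col m`. About 180 lines. -/

open Set Metric Filter Topology Function BEv
open scoped NNReal

noncomputable section
namespace BEp

namespace TLev
variable {C : Core} {κ : Type} {L : TLev C κ} {σ σ' : κ} {x y : Rn 2} {e e' : FF κ}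
  {m : Fin C.nM} {p : Z3}

theorem Ok.cap [Fintype κ] (hC : C.Ok) (hL : L.Ok) {G₁ φ : Rn 2 → FF κ} (hG : TP G₁)
    (he : ∀ x, 1 / 2 ≤ ‖x‖ → ‖x‖ ≤ 1 → G₁ x = L.G x) (hφ : TP φ)
    (hi : InjOn φ (closedBall 0 1)) (hm : MapsTo φ (closedBall 0 1) (L.K.Bd L.Kin))
    (hs : φ '' sphere 0 1 = G₁ '' C.J) :
    ∃ H : Rn 2 → FF κ, Imm (L.K.EE L.S) (closedBall 0 1) H ∧
      (∀ x, ‖x‖ ≤ 1 → x ∉ C.B → H x = L.G x) ∧ H '' C.B = φ '' closedBall 0 1 ∧
      (∀ x, ‖x‖ ≤ 3 / 4 → (H x).1 ∈ C.O) ∧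
      ∀ x ∈ DS (closedBall 0 1) H, ‖x‖ < 3 / 4 ∧ ∀ m, (H x).1 ∉ C.Col m := by
  have b1 : ∀ x ∈ C.B, ‖x‖ < 3 / 4 := fun x hx => mem_ball_zero_iff.1 (hC.out hx)
  have b2 : ∀ x, x ∉ C.B \ C.J → 5 / 8 < ‖x‖ := fun x hx =>
    not_le.1 fun h => hx (hC.inn (mem_closedBall_zero_iff.2 h))
  have b3 : ∀ x, x ∉ C.B → 5 / 8 < ‖x‖ := fun x hx => b2 x fun h => hx h.1
  have j1 : ∀ x ∈ C.J, 1 / 2 ≤ ‖x‖ ∧ ‖x‖ ≤ 1 := fun x hx =>
    ⟨by linarith only [b2, hx, b2 x fun h => h.2 hx], by linarith [b1 x (hC.ball.sub hx)]⟩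
  have gi : ∀ x y, 1 / 2 ≤ ‖x‖ → ‖x‖ ≤ 1 → ‖y‖ ≤ 1 → L.G x = L.G y → x = y :=
    fun x y h1 h2 h3 e => (hC.ns x y h1 h2 h3 (congrArg Prod.fst e).symm).symm
  obtain ⟨k, hk, k1⟩ := tp_linvF (Poly.closedBall 0 1) hφ hi
  have k2 : ∀ x ∈ C.J, k (G₁ x) ∈ sphere (0 : Rn 2) 1 ∧ φ (k (G₁ x)) = G₁ x := fun x hx => by
    obtain ⟨z, hz, e⟩ := hs.symm ▸ mem_image_of_mem G₁ hx
    rw [← e, k1 z (sphere_subset_closedBall hz)]
    exact ⟨hz, rfl⟩
  obtain ⟨Θ, hΘ, t1, t2⟩ := fill hC.ball (ball_round 0 one_pos) (hk.comp hG)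
    ⟨fun x hx => (k2 x hx).1, fun x hx y hy e => by
      have e' := congrArg φ e
      rw [(k2 x hx).2, (k2 y hy).2, he x (j1 x hx).1 (j1 x hx).2,
        he y (j1 y hy).1 (j1 y hy).2] at e'
      exact gi x y (j1 x hx).1 (j1 x hx).2 (j1 y hy).2 e', fun z hz => by
      obtain ⟨x, hx, e⟩ := hs ▸ mem_image_of_mem φ hz
      exact ⟨x, hx, (congrArg k e).trans (k1 z (sphere_subset_closedBall hz))⟩⟩
  have t3 : ∀ x, Θ x ∈ closedBall (0 : Rn 2) 1 ↔ x ∈ C.B := fun x => by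
    rw [← t1, hΘ.inj.mem_set_image]
  have t4 : ∀ x, ‖Θ x‖ - 1 = 0 → φ (Θ x) = G₁ x := fun x hx => by
    have hx' : x ∈ C.J := by
      have := (ball_round (0 : Rn 2) one_pos).frontier_eq
      rw [← t1, (hC.ball.image hΘ).frontier_eq] at this
      rw [← hΘ.inj.mem_set_image, this, mem_sphere_zero_iff_norm]
      linarith
    rw [t2 hx', (k2 x hx').2]
  obtain ⟨H, hH, h1, h2⟩ : ∃ H : Rn 2 → FF κ, TP H ∧ (∀ x ∈ C.B, H x = φ (Θ x)) ∧
      ∀ x, ‖x‖ ≤ 1 → x ∉ C.B → H x = L.G x :=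
    ⟨_, tp_ite (hφ.comp hΘ.tp) hG (hΘ.tp.continuous.norm.sub continuous_const) t4,
      fun x hx => if_pos (sub_nonpos.2 (mem_closedBall_zero_iff.1 ((t3 x).2 hx))),
      fun x h hx => (if_neg fun k => hx ((t3 x).1 (mem_closedBall_zero_iff.2
        (sub_nonpos.1 k)))).trans (he x (by linarith only [b3, hx, b3 x hx]) h)⟩
  have bd : ∀ x ∈ C.B, H x ∈ L.K.Bd L.Kin := fun x hx => h1 x hx ▸ hm ((t3 x).2 hx)
  have i1 : ∀ x ∈ C.B, ∀ y ∈ C.B, H x = H y → x = y := fun x hx y hy e => by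
    rw [h1 x hx, h1 y hy] at e
    exact hΘ.inj (hi ((t3 x).2 hx) ((t3 y).2 hy) e)
  have i2 : ∀ x y, ‖x‖ ≤ 1 → ‖y‖ ≤ 1 → x ∉ C.B → y ∉ C.B → H x = H y → x = y :=
    fun x y n1 n2 hx hy e => by
      rw [h2 x n1 hx, h2 y n2 hy] at e
      exact gi x y (by linarith only [b3, hx, b3 x hx]) n1 n2 e
  have cr : ∀ x ∈ C.B, ∀ y, ‖y‖ ≤ 1 → y ∉ C.B → H x = H y → L.G y ∈ L.K.Bd L.Kin :=
    fun x hx y n hy e => h2 y n hy ▸ e ▸ bd x hx
  have lo : ∀ x, ∃ N ∈ 𝓝 x, ∀ y ∈ N, ∀ z ∈ N, y ∈ C.B → ‖z‖ ≤ 1 → z ∉ C.B → H y ≠ H z := fun x => by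
    by_cases hx : x ∈ C.J
    · exact ⟨_, (hC.fr x hx).2, fun y _ z hz hy n k e =>
        k (hC.ball.sub (hz ((hL.bd_ring hC (b3 z k).le n).1 (cr y hy z n k e))))⟩
    by_cases hx' : x ∈ C.B
    · exact ⟨C.B, mem_interior_iff_mem_nhds.1 (hC.ball.interior_eq ▸ ⟨hx', hx⟩),
        fun _ _ _ hz _ _ k => (k hz).elim⟩
    · exact ⟨_, hC.ball.poly.1.isClosed.isOpen_compl.mem_nhds hx', fun _ hy _ _ k => (hy k).elim⟩
  refine ⟨H, ⟨hH, fun x hx => ?_, fun x _ => ?_, fun x hx y hy z hz e1 e2 => ?_⟩, h2, ?_,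
    fun x hx => ?_, ?_⟩
  · by_cases k : x ∈ C.B
    · exact L.K.EE_mono subset_union_left (L.K.VV_sub_EE _ (bd x k).1)
    · rw [h2 x (mem_closedBall_zero_iff.1 hx) k]
      exact hL.G_mem (mem_closedBall_zero_iff.1 hx)
  · obtain ⟨N, hN, l⟩ := lo x
    obtain ⟨ε, hε, s⟩ := Metric.mem_nhds_iff.1 hN
    refine ⟨ε, hε, fun y hy z hz e => ?_⟩
    have n1 := mem_closedBall_zero_iff.1 hy.1
    have n2 := mem_closedBall_zero_iff.1 hz.1
    by_cases k1 : y ∈ C.B <;> by_cases k2 : z ∈ C.B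
    exacts [i1 y k1 z k2 e, (l y (s hy.2) z (s hz.2) k1 n2 k2 e).elim,
      (l z (s hz.2) y (s hy.2) k2 n1 k1 e.symm).elim, i2 y z n1 n2 k1 k2 e]
  · rw [mem_closedBall_zero_iff] at hx hy hz
    by_cases k1 : x ∈ C.B <;> by_cases k2 : y ∈ C.B <;> by_cases k3 : z ∈ C.B
    exacts [.inl (i1 x k1 y k2 e1), .inl (i1 x k1 y k2 e1), .inr (.inl (i1 x k1 z k3 e2)),
      .inr (.inr (i2 y z hy hz k2 k3 (e1.symm.trans e2))),
      .inr (.inr (i1 y k2 z k3 (e1.symm.trans e2))), .inr (.inl (i2 x z hx hz k1 k3 e2)),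
      .inl (i2 x y hx hy k1 k2 e1), .inl (i2 x y hx hy k1 k2 e1)]
  · rw [← t1, image_image]
    exact image_congr h1
  · by_cases k : x ∈ C.B
    · exact hL.vv_O hC (bd x k).1
    · rw [h2 x (by linarith only [hx]) k]
      exact hC.o3 x hx
  · have key : ∀ x ∈ C.B, ∀ y, ‖y‖ ≤ 1 → y ∉ C.B → H x = H y →
        ‖y‖ < 3 / 4 ∧ ∀ m, (H y).1 ∉ C.Col m := fun x hx y n hy e =>
      ⟨not_le.1 fun k => hC.h4 y k n (hL.vv_ring hC (b3 y hy).le n (cr x hx y n hy e).1),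
        fun m k => by
          rw [h2 y n hy] at k
          linarith only [hC, n, k, b3, hy, (hC.m1 m y n k).2, b3 y hy]⟩
    rintro x ⟨y, hx, hy, ne, e⟩
    rw [mem_closedBall_zero_iff] at hx hy
    by_cases k1 : x ∈ C.B <;> by_cases k2 : y ∈ C.B
    · exact (ne (i1 x k1 y k2 e)).elim
    · exact ⟨b1 x k1, by rw [show H x = H y from e]; exact (key x k1 y hy k2 e).2⟩
    · exact key y k2 x hx k1 e.symm
    · exact (ne (i2 x y hx hy k1 k2 e)).elim

end TLev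

end BEp
end
end

-- merged part: Pool.Agent.Work.MP_f0515e_an.D3.DeTop
section
/-! EXPORT (top of the tower; owner h56). If every cocycle is a coboundary, each polygon on the
boundary surface cuts its component into two discs. -/

open Set Metric Filter Topology Function BEv
open scoped NNReal

noncomputable section
namespace BEp
namespace Cub
variable {κ : Type} [Fintype κ] {K : Cub κ} {S : Set κ} {x : FF κ}

theorem pc_qq (hK : K.Ok S) {e e' : K.BE S} (n : e ≠ e') (p : K.Pc S e.1.1 x)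
    (q : K.Pc S e'.1.1 x) : (∃ f : K.BF S, K.Pc S f.1 x) ∧ ∃ v : K.BV S, K.Pc S v.1 x := by
  have m : e.1.2 ≠ e'.1.2 := fun w =>
    n (BE.ext (p.same hK e.2.1.1 e'.2.1.1 q fun i => by rw [e.2.2, e'.2.2, w]))
  obtain ⟨f, a, b, c⟩ := p.mix hK q e'.1.2
  obtain ⟨v, a', b', c'⟩ := p.mix hK q e.1.2
  simp only [e.2.2, e'.2.2] at c c'
  obtain ⟨h, hh⟩ : ∃ h, ∀ j, (if j = e'.1.2 then j = e'.1.2 else j = e.1.2) ↔ j ≠ h := by
    revert m; generalize e.1.2 = k, e'.1.2 = k'; revert k k'; decide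
  exact ⟨⟨⟨f, a, h, fun j => (c j).trans (hh j)⟩, b⟩,
    ⟨v, a', fun j w => by have := (c' j).1 w; grind⟩, b'⟩

theorem pc_po (hK : K.Ok S) (v : K.BV S) (f : K.BF S) (p : K.Pc S v.1 x) (q : K.Pc S f.1 x) :
    ∃ e e' : K.BE S, e ≠ e' ∧ K.Pc S e.1.1 x ∧ K.Pc S e'.1.1 x := by
  obtain ⟨f, c, h, hz⟩ := f
  have key : ∀ i, i ≠ h → ∃ e : K.BE S, e.1.2 = i ∧ K.Pc S e.1.1 x := fun i hi => by
    obtain ⟨e, a, b, c⟩ := p.mix hK q i
    exact ⟨⟨(e, i), a, fun j => (c j).trans (by by_cases w : j = i <;> simp [w, hz, hi, v.2.2])⟩,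
      rfl, b⟩
  obtain ⟨e, a, b⟩ := key _ (n12 h).1
  obtain ⟨e', a', b'⟩ := key _ (n12 h).2.1
  exact ⟨e, e', fun w => (n12 h).2.2 (by rw [← a, ← a', w]), b, b'⟩

theorem bd_v (hK : K.Ok S) (v : K.BV S) (p : K.Pc S v.1 x) : ‖x.1 - K.ctr v.1‖ = 1 / 4 ↔
    (∃ f : K.BF S, K.Pc S f.1 x) ∨ ∃ e : K.BE S, K.Pc S e.1.1 x := by
  constructor
  · intro h
    obtain ⟨i, g, a, b, c⟩ := p.nbr hK h
    exact Or.inr ⟨⟨(g, i), a, fun j => (c j).trans (by simp [v.2.2])⟩, b⟩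
  · rintro (⟨⟨f, c, h, hz⟩, q⟩ | ⟨e, q⟩)
    exacts [p.dif q (i := h + 1) (by simp [v.2.2, hz]), p.dif q (i := e.1.2) (by simp [v.2.2, e.2.2])]

theorem bd_e (hK : K.Ok S) (e : K.BE S) (p : K.Pc S e.1.1 x) : ‖x.1 - K.ctr e.1.1‖ = 1 / 4 ↔
    (∃ f : K.BF S, K.Pc S f.1 x) ∨ ∃ v : K.BV S, K.Pc S v.1 x := by
  obtain ⟨⟨e, k⟩, he, hz⟩ := e
  constructor
  · intro h
    obtain ⟨i, g, a, b, c⟩ := p.nbr hK h
    simp only [ne_eq, hz] at c
    by_cases w : i = k
    · exact Or.inr ⟨⟨g, a, fun j u => by have := (c j).1 u; grind⟩, b⟩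
    · obtain ⟨h, hh⟩ : ∃ h, ∀ j, (if j = i then ¬ j = k else j = k) ↔ j ≠ h := by
        clear * - w; revert i k; decide
      exact Or.inl ⟨⟨g, a, h, fun j => (c j).trans (hh j)⟩, b⟩
  · rintro (⟨⟨f, c, h, hf⟩, q⟩ | ⟨v, q⟩)
    · obtain ⟨i, a, b⟩ : ∃ i, i ≠ k ∧ i ≠ h := by clear * -; revert h k; decide
      exact p.dif q (i := i) (by simp [hz, hf, a, b])
    · exact p.dif q (i := k) (by simp [v.2.2, hz])

theorem bd_f (hK : K.Ok S) (f : K.BF S) (p : K.Pc S f.1 x) : ‖x.1 - K.ctr f.1‖ = 1 / 4 ↔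
    (∃ v : K.BV S, K.Pc S v.1 x) ∨ ∃ e : K.BE S, K.Pc S e.1.1 x := by
  obtain ⟨f, hf, h, hz⟩ := f
  constructor
  · intro w
    obtain ⟨i, g, a, b, c⟩ := p.nbr hK w
    simp only [ne_eq, hz] at c
    by_cases w : i = h
    · obtain ⟨j, u, -⟩ := b.half hK a.1
      exact (u ((c j).2 (by grind))).elim
    · obtain ⟨k, hk⟩ : ∃ k, ∀ j, (if j = i then ¬ ¬ j = h else ¬ j = h) ↔ j = k := by
        clear * - w; revert i h; decide
      exact Or.inr ⟨⟨(g, k), a, fun j => (c j).trans (hk j)⟩, b⟩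
  · rintro (⟨v, q⟩ | ⟨⟨⟨e, k⟩, c, he⟩, q⟩)
    · exact p.dif q (i := h + 1) (by simp [v.2.2, hz])
    · obtain ⟨i, a, b⟩ : ∃ i, i ≠ k ∧ i ≠ h := by clear * -; revert h k; decide
      exact p.dif q (i := i) (by simp [hz, he, a, b])

theorem bd_crc (hK : K.Ok S) (hA : K.Acyc S) {N : ℕ} (T : FF κ ≃L[ℝ] Rn N) {c : Set (Rn N)}
    (hc : Crc c) (hs : c ⊆ T.symm ⁻¹' K.Bd S) : ∃ A B C, PDsc A c ∧ PDsc B c ∧ A ∩ B = c ∧
      IsClosed C ∧ Disjoint (A ∪ B) C ∧ A ∪ B ∪ C = T.symm ⁻¹' K.Bd S := by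
  have dv : ∀ v : K.BV S, PDsc {z | K.Pc S v.1 (T.symm z)} _ := fun v =>
    (Set.ext fun z => and_congr_right (bd_v hK v) : _ = {z | _ ∧ _}) ▸ pc_disc hK v.2.1 T
  have de : ∀ v : K.BE S, PDsc {z | K.Pc S v.1.1 (T.symm z)} _ := fun v =>
    (Set.ext fun z => and_congr_right (bd_e hK v) : _ = {z | _ ∧ _}) ▸ pc_disc hK v.2.1 T
  have df : ∀ v : K.BF S, PDsc {z | K.Pc S v.1 (T.symm z)} _ := fun v =>
    (Set.ext fun z => and_congr_right (bd_f hK v) : _ = {z | _ ∧ _}) ▸ pc_disc hK v.2.1 T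
  have pp : ∀ (v v' : K.BV S) z, K.Pc S v.1 (T.symm z) → K.Pc S v'.1 (T.symm z) → v = v' :=
    fun v v' z p q => Subtype.ext (p.same hK v.2.1.1 v'.2.1.1 q fun i => by simp [v.2.2, v'.2.2])
  have tr : ∀ {P : FF κ → Prop}, (∃ a, ∀ x, P x ↔ x = a) → ∃ a, ∀ z, P (T.symm z) ↔ z = a :=
    fun ⟨a, h⟩ => ⟨T a, fun z => (h _).trans T.symm_apply_eq⟩
  refine han_crc (P := fun v : K.BV S => {z | K.Pc S v.1 (T.symm z)})
    (Q := fun e : K.BE S => {z | K.Pc S e.1.1 (T.symm z)})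
    (R := fun f : K.BF S => {z | K.Pc S f.1 (T.symm z)})
    (han_of pp (fun _ _ _ => pc_rr hK _ _) (fun _ _ _ => pc_pq hK _ _) (fun _ _ _ => pc_rq hK _ _)
      fl_ne (fun _ _ _ => pc_qq hK) (fun _ _ _ => pc_po hK _ _) dv de (fun f => (df f).cpt.isClosed)
      (fun e v f a b => tr (pc_tri hK e v f a b)) fun e v hv => ?_)
    (han_of (fun _ _ _ => pc_rr hK _ _) pp (fun _ _ _ => pc_rq hK _ _) (fun _ _ _ => pc_pq hK _ _)
      (ve_ne hK) (fun _ _ _ n p q => (pc_qq hK n p q).symm) (fun _ _ _ p q => pc_po hK _ _ q p) df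
      (fun e => by convert de e using 1; ext; exact and_congr_right fun _ => or_comm) (fun f => (dv f).cpt.isClosed)
      (fun e f v a b => (tr (pc_tri hK e v f b a)).imp fun _ h z =>
        Iff.trans ⟨fun q => ⟨q.2.2, q.2.1, q.1⟩, fun q => ⟨q.2.2, q.2.1, q.1⟩⟩ (h z))
      fun e f hf => ?_) (bd_cycle hK hA) (bd_bd hK) hc hs ?_
  · obtain ⟨d, rfl⟩ : ∃ d, ve hK d e = v := hv.elim (fun q => ⟨_, q⟩) fun q => ⟨_, q⟩
    obtain ⟨x, a, b, c⟩ := mid_pt hK e.2.1 ((e.2.2 _).2 rfl) d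
    refine ⟨T x, by simpa [ve] using b, by simpa using a, fun ⟨f, _, h, hz⟩ q => ?_⟩
    obtain ⟨i, u, w⟩ : ∃ i, i ≠ e.1.2 ∧ i ≠ h := by generalize e.1.2 = k; clear * -; revert h k; decide
    exact u ((e.2.2 i).1 ((c f (by simpa using q) i u).1 ((hz i).2 w)))
  · obtain ⟨j, d, z, w⟩ := f_en hK hf
    obtain ⟨x, a, b, c⟩ := mid_pt hK f.2.1 z d
    have := (en_zero ..).1 (w ▸ (e.2.2 _).2 rfl)
    exact ⟨T x, by simpa using a, by simpa [w] using b, fun v q =>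
      v.2.2 _ ((c v.1 (by simpa using q) _ this.1).2 this.2)⟩
  · ext z
    refine ⟨fun h => by simpa [nbh, or_assoc] using pc_all hK h, ?_⟩
    rintro ((⟨_, -, h⟩ | ⟨_, -, h⟩) | ⟨_, h⟩) <;> exact h.1

end Cub

theorem top_disc {κ : Type} [Fintype κ] {K : Cub κ} {S : Set κ} (hK : K.Ok S) (hA : K.Acyc S)
    {γ : ℝ → FF κ} (hγ : TP γ) (hp : ∀ s t, γ s = γ t ↔ ∃ k : ℤ, s - t = k)
    (hb : ∀ t, γ t ∈ K.Bd S) :
    ∃ φ : Bool → Rn 2 → FF κ, (∀ b, TP (φ b) ∧ InjOn (φ b) (closedBall 0 1) ∧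
      MapsTo (φ b) (closedBall 0 1) (K.Bd S) ∧ φ b '' sphere 0 1 = range γ) ∧
      φ true '' closedBall 0 1 ∩ φ false '' closedBall 0 1 = range γ ∧
      ∀ e ∈ φ true '' closedBall 0 1 ∪ φ false '' closedBall 0 1, ∀ᶠ e' in 𝓝[K.Bd S] e,
        e' ∈ φ true '' closedBall 0 1 ∪ φ false '' closedBall 0 1 := by
  obtain ⟨N, ⟨T⟩⟩ := exists_rn (FF κ)
  obtain ⟨A, B, C, ⟨a, a1, a2, rfl, a4⟩, ⟨b, b1, b2, rfl, b4⟩, h1, h2, h3, h4⟩ := Cub.bd_crc hK hA T
    (c := range fun t => T (γ t)) ⟨_, (TP.clm (T : FF κ →L[ℝ] Rn N)).comp hγ,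
      fun s t => T.injective.eq_iff.trans (hp s t), rfl⟩ (by rintro _ ⟨t, rfl⟩; simpa using hb t)
  have r : T.symm '' range (fun t => T (γ t)) = range γ := by simp [← range_comp, comp_def]
  have t := TP.clm (T.symm : Rn N →L[ℝ] FF κ)
  refine ⟨fun d z => T.symm (cond d (a z) (b z)), fun d => ?_, ?_, ?_⟩
  · cases d
    · exact ⟨t.comp b1, T.symm.injective.comp_injOn b2,
        fun z hz => h4.subset (Or.inl (Or.inr ⟨z, hz, rfl⟩)), by rw [← r, ← b4, image_image]; rfl⟩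
    · exact ⟨t.comp a1, T.symm.injective.comp_injOn a2,
        fun z hz => h4.subset (Or.inl (Or.inl ⟨z, hz, rfl⟩)), by rw [← r, ← a4, image_image]; rfl⟩
  · rw [← r, ← h1, image_inter T.symm.injective, image_image, image_image]; rfl
  · simp only [cond_true, cond_false]
    rw [← image_image T.symm a, ← image_image T.symm b, ← image_union]
    rintro _ ⟨z, hz, rfl⟩
    have : ∀ᶠ e' in 𝓝 (T.symm z), T e' ∉ C := T.continuous.continuousAt.eventually_mem
      (h2.isOpen_compl.mem_nhds (by simpa using disjoint_left.1 h3 hz))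
    filter_upwards [mem_nhdsWithin_of_mem_nhds this, self_mem_nhdsWithin] with e p q
    exact ⟨T e, (h4.superset (by simpa using q)).resolve_right p, by simp⟩

end BEp
end
end

-- merged part: Pool.Agent.Work.MP_f0515e_an.D3.DeUp4
section
/-! TASK DeUp4. The top floor. `G₁` from `tp_ring`, `γ₀` from `Ball.crc hC.ball`, `γ = G₁ ∘ γ₀` (`bd_ring`, `fr`), `top_disc`
for the complex `Kin`, `cap` for both discs: `H`, `H'`. Apply `disc_of_imm` to `H`. Columns: `ess` for `fst ∘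
H'` gives a point `e'` of the second disc over `Col' m` (points off `B` have `g x ∉ Col m` by `m1`, `inn`), at
height `c m + s'`, `|s'| = 1 / 2` (`col_bd`). Take `s = - s'`. A point of the first disc over `Col' m` has
height `c m + s` or `c m + s'`; in the second case the sheet `T` of `col_sheet m s'` is preconnected, misses
`range γ` (`m1`), meets both discs; the part of `T` in the union of the discs is open and closed in `T`, so
`T` is covered by two closed sets disjoint on `T`: contradiction. About 150 lines. -/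

open Set Metric Filter Topology Function BEv
open scoped NNReal

noncomputable section
namespace BEp

theorem DeUp4_sep {X : Type} [TopologicalSpace X] {Y T A B : Set X} (hT : IsPreconnected T)
    (hY : T ⊆ Y) (hA : IsClosed A) (hB : IsClosed B)
    (h : ∀ e ∈ A ∪ B, ∀ᶠ e' in 𝓝[Y] e, e' ∈ A ∪ B) {a b : X} (ha : a ∈ T ∩ A) (hb : b ∈ T ∩ B) :
    (T ∩ (A ∩ B)).Nonempty := by
  refine isPreconnected_closed_iff.1 hT A B hA hB (fun e he => ?_) ⟨a, ha⟩ ⟨b, hb⟩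
  have := const_of_loc hT (f := fun e => e ∈ A ∪ B) (fun x _ => ?_) a ha.1 e he
  · exact this ▸ (Or.inl ha.2 : a ∈ A ∪ B)
  · by_cases hx : x ∈ A ∪ B
    · exact ((h x hx).filter_mono (nhdsWithin_mono _ hY)).mono fun y hy => propext (iff_of_true hy hx)
    · filter_upwards [mem_nhdsWithin_of_mem_nhds ((hA.union hB).isOpen_compl.mem_nhds hx)] with y hy
      exact propext (iff_of_false hy hx)

namespace TLev
variable {C : Core} {κ : Type} {L : TLev C κ} {σ σ' : κ} {x y : Rn 2} {e e' : FF κ}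
  {m : Fin C.nM} {p : Z3}

theorem Ok.top [Fintype κ] (hC : C.Ok) (hL : L.Ok) (hA : L.K.Acyc L.Kin) : ∃ H, L.Disc H := by
  obtain ⟨G₁, hG, he⟩ := hL.tp_ring hC
  obtain ⟨γ₀, h0, h1, h2⟩ := hC.ball.crc
  have hJ : ∀ x ∈ C.J, 5 / 8 ≤ ‖x‖ ∧ ‖x‖ ≤ 1 := fun x hx =>
    ⟨not_lt.1 fun k => (hC.inn (mem_closedBall_zero_iff.2 k.le)).2 hx, by
      have := mem_ball_zero_iff.1 (hC.out (hC.ball.sub hx))
      linarith only [this]⟩
  have hγ : ∀ t, γ₀ t ∈ C.J := fun t => h2 ▸ mem_range_self t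
  have hG1 : ∀ t, G₁ (γ₀ t) = L.G (γ₀ t) := fun t =>
    he _ (by linarith only [hJ, hγ, (hJ _ (hγ t)).1]) (hJ _ (hγ t)).2
  obtain ⟨φ, hφ, hi, ho⟩ := top_disc hL.ok_in hA (γ := fun t => G₁ (γ₀ t)) (hG.comp h0)
    (fun s t => by
      rw [← h1, hG1, hG1]
      exact ⟨fun k => hC.ns _ _ (by linarith only [hJ, hγ, (hJ _ (hγ t)).1]) (hJ _ (hγ t)).2 (hJ _ (hγ s)).2
        (congrArg Prod.fst k), fun k => by rw [k]⟩)
    (fun t => by
      rw [hG1]
      exact (hL.bd_ring hC (hJ _ (hγ t)).1 (hJ _ (hγ t)).2).2 (hC.fr _ (hγ t)).1)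
  have hr : (range fun t => G₁ (γ₀ t)) = G₁ '' C.J := by
    rw [← h2]
    exact range_comp G₁ γ₀
  have cap := fun b => hL.cap hC hG he (hφ b).1 (hφ b).2.1 (hφ b).2.2.1 ((hφ b).2.2.2.trans hr)
  choose H i1 i2 i3 i4 i5 using cap
  have hcol : ∀ m, C.Col' m ⊆ C.Col m := fun m y hy =>
    hC.thick m y hy (mem_closedBall_self (by norm_num))
  have hout : ∀ b x, 3 / 4 ≤ ‖x‖ → ‖x‖ ≤ 1 → H b x = L.G x := fun b x k1 k2 =>
    i2 b x k2 fun k => (mem_ball_zero_iff.1 (hC.out k)).not_ge k1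
  have hin : ∀ b m x, ‖x‖ ≤ 1 → (H b x).1 ∈ C.Col' m → H b x ∈ φ b '' closedBall 0 1 := by
    intro b m x k1 k2
    refine i3 b ▸ mem_image_of_mem _ (by_contra fun k => k ?_)
    rw [i2 b x k1 k] at k2
    have := (hC.m1 m x k1 (hcol m k2)).2
    exact (hC.inn (mem_closedBall_zero_iff.2 (by linarith only [this]))).1
  have hbd : ∀ b, φ b '' closedBall 0 1 ⊆ L.K.Bd L.Kin := fun b => (hφ b).2.2.1.image_subset
  have hcl : ∀ b, IsClosed (φ b '' closedBall 0 1) := fun b =>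
    ((isCompact_closedBall _ _).image (hφ b).1.continuous).isClosed
  refine hL.disc_of_imm hC (i1 true) (hout true) (i4 true) (fun m => ?_)
    fun x hx => ⟨(i5 true x hx).1, fun m k => (i5 true x hx).2 m (hcol m k)⟩
  obtain ⟨x', k1, k2⟩ := hC.ess m (fun x => (H false x).1) (i1 false).tp.continuous.fst
    (fun x a b => by rw [hout false x a b]; rfl) (i4 false)
  have k3 := hin false m x' k1 k2
  have k4 := (hL.col_bd hC k2).1 ⟨_, hbd _ k3, rfl⟩
  refine ⟨-((H false x').1 (C.k m) - C.c m), by rw [abs_neg, k4], fun x l1 l2 => ?_⟩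
  have l3 := hin true m x l1 l2
  have l4 := (hL.col_bd hC l2).1 ⟨_, hbd _ l3, rfl⟩
  rcases abs_eq_abs.1 (l4.trans k4.symm) with l | l
  · obtain ⟨e, ⟨-, e1, -⟩, e2⟩ := DeUp4_sep (hL.col_sheet hC m ((H false x').1 (C.k m) - C.c m))
      (fun _ h => h.1) (hcl true) (hcl false) ho ⟨⟨hbd _ l3, l2, by linarith only [l]⟩, l3⟩
      ⟨⟨hbd _ k3, k2, by ring⟩, k3⟩
    rw [hi] at e2
    obtain ⟨t, rfl⟩ := e2
    simp only [hG1] at e1
    have := (hC.m1 m _ (hJ _ (hγ t)).2 (hcol m e1)).2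
    linarith only [this, hJ, hγ, (hJ _ (hγ t)).1]
  · linarith only [l]

end TLev

end BEp
end
end

-- merged part: Pool.Agent.Work.MP_f0515e_an.D3.DeStep
section
/-! TASK DeStep. The next floor. Take `c` from `norm_coc`, `s` from `cov_usc` on `closedBall 0 1`. On the ring `5 / 8 ≤ ‖x‖ ≤
1` the function `s` is locally constant (`cov_cob` with `φ = 0` on `Wc ∪ Ko`), hence a constant `s₀`
(`preconn_ring`). `L' = ⟨cov c, {q | q.1 ∈ Wc ∧ q.2 = s₀}, fun x => (cr x, s x)⟩`. `L'.S` lies in `{q | q.1 ∈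
S}` (`cov_le`) and is closed under facets, `Coc.ok`, `Ok.mono`; cells of `L'.Ko` have sheet `s₀`. `Prod.fst`
maps `L'.Kin` onto `L.Kin` (`cov_lift`); if it were injective there, the sheet `φ σ` of the cell above `σ`
would satisfy `CobBy Kin c φ`. So the cardinality grows (`Set.ncard_image_le`, `Set.injOn_of_ncard_image_eq`).
About 150 lines. -/

open Set Metric Filter Topology Function BEv
open scoped NNReal

noncomputable section
namespace BEp

namespace TLev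
variable {C : Core} {κ : Type} {L : TLev C κ} {σ σ' : κ} {x y : Rn 2} {e e' : FF κ}
  {m : Fin C.nM} {p : Z3}

theorem Ok.step [Fintype κ] (hC : C.Ok) (hL : L.Ok) (hn : ¬ L.K.Acyc L.Kin) :
    ∃ L' : TLev C (κ × ZMod 2), L'.Ok ∧ L.Cov L' ∧ L.Kin.ncard < L'.Kin.ncard := by
  obtain ⟨c, c1, c2, c3⟩ := hL.norm_coc hC hn
  obtain ⟨s, hs⟩ := Cub.cov_usc hL.ok c1 (convex_closedBall 0 1) (isCompact_closedBall 0 1)
    (fun x hx => L.cr_mem (mem_closedBall_zero_iff.1 hx)) hL.usc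
  have sh : ∀ q q' : κ × ZMod 2, q'.1 ∈ L.Wc ∪ L.Ko → (L.K.cov c).Le q q' → q.2 = q'.2 :=
    fun q q' h k => by simpa using Cub.DeCov_cob (hL.wcl.union L.cl_out) c2 h k
  have mo : ∀ x, 5 / 8 ≤ ‖x‖ → ‖x‖ ≤ 1 → L.cr x ∈ L.Wc ∪ L.Ko := fun x h1 h2 =>
    .inr ⟨x, h1, h2, Cub.Le.refl _ _⟩
  have s0 : ∀ x, 5 / 8 ≤ ‖x‖ → ‖x‖ ≤ 1 → s x = s 1 := fun x h1 h2 =>
    const_of_loc (preconn_ring (5 / 8) 1) (fun x hx => ((hs x (mem_closedBall_zero_iff.2 hx.2)
      ).filter_mono (nhdsWithin_mono x fun y hy => mem_closedBall_zero_iff.2 hy.2)).mono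
        fun y k => sh _ _ (mo x hx.1 hx.2) k) x ⟨h1, h2⟩ 1 (by norm_num)
  let L' : TLev C (κ × ZMod 2) := ⟨L.K.cov c, {q | q.1 ∈ L.Wc ∧ q.2 = s 1}, fun x => (L.cr x, s x)⟩
  have w1 : L'.K.Cl L'.Wc := fun q hq i b =>
    ⟨hL.wcl _ hq.1 i b, (sh _ _ (.inl hq.1) (Cub.le_fc _ q i b)).trans hq.2⟩
  have w2 : L'.K.Cl L'.Kin := w1.union fun q ⟨x, hx, k⟩ i b =>
    ⟨x, hx, (Cub.le_fc _ q i b).trans k⟩
  have k1 : ∀ q ∈ L'.Kin, q.1 ∈ L.Kin := fun q hq =>
    hq.imp (·.1) fun ⟨x, hx, k⟩ => ⟨x, hx, Cub.cov_le k⟩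
  have k2 : ∀ q ∈ L'.Ko, q.1 ∈ L.Ko ∧ q.2 = s 1 := fun q ⟨x, h1, h2, k⟩ =>
    ⟨⟨x, h1, h2, Cub.cov_le k⟩, (sh _ _ (mo x h1 h2) k).trans (s0 x h1 h2)⟩
  have k3 : ∀ q ∈ L'.Wc ∪ L'.Ko, q.1 ∈ L.Wc ∪ L.Ko ∧ q.2 = s 1 := fun q hq =>
    hq.elim (fun k => ⟨.inl k.1, k.2⟩) fun k => ⟨.inr (k2 q k).1, (k2 q k).2⟩
  have k4 : ∀ σ ∈ L.Kin, ∃ t, (σ, t) ∈ L'.Kin := by
    rintro σ (h | ⟨x, hx, k⟩)
    · exact ⟨s 1, .inl ⟨h, rfl⟩⟩
    · obtain ⟨t, ht⟩ := Cub.cov_lift c k (s x)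
      exact ⟨t, .inr ⟨x, hx, ht⟩⟩
  have e : Prod.fst '' L'.Kin = L.Kin := Set.ext fun σ =>
    ⟨fun ⟨q, hq, e⟩ => e ▸ k1 q hq, fun h => (k4 σ h).elim fun t ht => ⟨_, ht, rfl⟩⟩
  refine ⟨L', ⟨(c1.ok hL.ok).mono (fun q hq => hq.imp (k1 q) fun k => (k2 q k).1)
    (w2.union L'.cl_out), hL.pos, hs, w1, ?_, fun q hq q' hq' e => Prod.ext
      (hL.winj (k3 q hq).1 (k3 q' hq').1 e) ((k3 q hq).2.trans (k3 q' hq').2.symm)⟩,
    ⟨c, c1, rfl, fun _ => rfl, fun q hq => hq.1⟩, ?_⟩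
  · rw [← hL.wpos]
    exact Set.ext fun p => ⟨fun ⟨q, hq, e⟩ => ⟨q.1, hq.1, e⟩,
      fun ⟨σ, h, e⟩ => ⟨(σ, s 1), ⟨h, rfl⟩, e⟩⟩
  · rw [← e]
    refine (ncard_image_le (toFinite _)).lt_of_ne fun k => c3 ?_
    have i := injOn_of_ncard_image_eq k (toFinite _)
    choose! φ hφ using k4
    refine ⟨φ, fun σ h j b => ?_⟩
    have m1 := w2 _ (hφ σ h) j b
    have m2 : φ σ + c σ j b = φ (L.K.fc σ j b) :=
      congrArg Prod.snd (i m1 (hφ _ (k1 _ m1)) rfl)
    rw [← m2, ← add_assoc, CharTwo.add_self_eq_zero, zero_add]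

end TLev

end BEp
end
end

-- merged part: Pool.Agent.Work.MP_f0515e_an.D3.DeTow
section
/-! TASK DeTow. The tower. -/

open Set Metric Filter Topology Function BEv
open scoped NNReal

noncomputable section
namespace BEp

theorem Core.Ok.tower {C : Core} (hC : C.Ok) (κ : Type) [Fintype κ] (L : TLev C κ) (hL : L.Ok) :
    ∃ H, L.Disc H := by
  obtain ⟨N, hN⟩ := hC.card
  suffices h : ∀ n (κ : Type) [Fintype κ] (L : TLev C κ), L.Ok → N - L.Kin.ncard ≤ n →
      ∃ H, L.Disc H from h _ κ L hL le_rfl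
  intro n
  induction n with
  | zero =>
    intro κ _ L hL h
    by_cases hA : L.K.Acyc L.Kin
    · exact hL.top hC hA
    · obtain ⟨L', h1, -, h3⟩ := hL.step hC hA
      have := hN _ L' h1
      omega
  | succ n ih =>
    intro κ _ L hL h
    by_cases hA : L.K.Acyc L.Kin
    · exact hL.top hC hA
    · obtain ⟨L', h1, h2, h3⟩ := hL.step hC hA
      obtain ⟨H', hH⟩ := ih _ L' h1 (by omega)
      exact hL.down hC h1 h2 hH

theorem Core.Ok.disc {C : Core} (hC : C.Ok) : ∃ H, C.Out (1 / 2) H := by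
  obtain ⟨κ, _, L, hL, hi⟩ := hC.base
  obtain ⟨H, hH⟩ := hC.tower κ L hL
  refine ⟨fun x => (H x).1, hH.tp.fst, fun x hx y hy e => hH.inj hx hy ?_, fun x h1 h2 => ?_,
    hH.inO, hH.col⟩
  · exact hL.ok.ee_inj (hH.mem hx) (hH.mem hy) e fun σ _ σ' _ a b => hi (a.trans b.symm)
  · simp only [hH.eq x h1 h2, TLev.G_fst]

end BEp
end
end

-- merged part: Pool.Agent.Work.MP_f0515e_an.D3.DeScale
section
/-! TASK DeScale. One dimensional maps and boxes. `exists_T`: `T t = l t + ∑ c ∈ Λ, d c * max 0 (min 1 (2 - |t - c| / w))`, `d c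
= 2 round (l c / 2) - l c`, `4 w` less than the gaps of `Λ`, `l` large (a crude Lipschitz bound `card Λ / w`
for the sum is enough; at most one term is not zero). `exists_phi`: `φ t = t + ψ t` where `ψ` is odd, of
period two, for instance through `round (t / 2)` and a piecewise affine profile on `[-1, 1]` vanishing at `0,
± 1`; `TP` by `pa_select` (on a bounded set finitely many translates), or see `oext` in `Per1`. `scale_box`:
`A i` = an even integer in `[l a i + 6, l a i + 8]`, `B i` an even integer in `[l b i - 8, l b i - 6]`. About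
200 lines. -/

open Set Metric Filter Topology Function BEv
open scoped NNReal

noncomputable section
namespace BEp

/-- Plateau of height one round `c`. -/
def DeScale_b (w c t : ℝ) : ℝ := max 0 (min 1 (2 - |t - c| / w))

theorem DeScale_b_tp (w c : ℝ) : TP (DeScale_b w c) :=
  (TP.const 0).max ((TP.const 1).min ((TP.const 2).sub ((TP.id'.sub (TP.const c)).abs.div_const w)))

theorem DeScale_b_mem (w c t : ℝ) : 0 ≤ DeScale_b w c t ∧ DeScale_b w c t ≤ 1 :=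
  ⟨le_max_left _ _, max_le zero_le_one (min_le_left _ _)⟩

theorem DeScale_b_one {w c t : ℝ} (hw : 0 < w) (h : |t - c| ≤ w) : DeScale_b w c t = 1 := by
  have := (div_le_one hw).2 h
  rw [DeScale_b, min_eq_left (by linarith only [this]), max_eq_right zero_le_one]

theorem DeScale_b_zero {w c t : ℝ} (hw : 0 < w) (h : 2 * w ≤ |t - c|) : DeScale_b w c t = 0 := by
  have := (le_div_iff₀ hw).2 h
  exact max_eq_left ((min_le_right _ _).trans (by linarith only [this]))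

theorem DeScale_b_lip {w : ℝ} (hw : 0 < w) (c s t : ℝ) :
    |DeScale_b w c s - DeScale_b w c t| ≤ |s - t| / w := by
  rw [DeScale_b, DeScale_b, max_comm, max_comm 0]
  refine (abs_max_sub_max_le_abs _ _ _).trans ((abs_min_sub_min_le_max _ _ _ _).trans ?_)
  rw [sub_self, abs_zero]
  refine max_le (by positivity) ?_
  rw [sub_sub_sub_cancel_left, ← sub_div, abs_div, abs_of_pos hw]
  refine div_le_div_of_nonneg_right ((abs_abs_sub_abs_le_abs_sub _ _).trans_eq ?_) hw.le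
  rw [sub_sub_sub_cancel_right, abs_sub_comm]

theorem DeScale_gap {Λ : Set ℝ} (hΛ : Λ.Finite) :
    ∃ w > 0, ∀ c ∈ Λ, ∀ c' ∈ Λ, c ≠ c' → 4 * w ≤ |c - c'| := by
  have : ∀ᶠ w in 𝓝[>] (0 : ℝ), ∀ c ∈ Λ, ∀ c' ∈ Λ, c ≠ c' → 4 * w ≤ |c - c'| := by
    refine (eventually_all_finite hΛ).2 fun c _ => (eventually_all_finite hΛ).2 fun c' _ => ?_
    by_cases e : c = c'
    · exact Eventually.of_forall fun _ k => absurd e k
    · have p : 0 < |c - c'| / 4 := div_pos (abs_pos.2 (sub_ne_zero.2 e)) four_pos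
      filter_upwards [Ioc_mem_nhdsGT p] with w hw _
      linarith only [hw, hw.2]
  obtain ⟨w, h1, h2⟩ := (this.and self_mem_nhdsWithin).exists
  exact ⟨w, h2, h1⟩

theorem exists_T {Λ : Set ℝ} (hΛ : Λ.Finite) : ∃ l₀ : ℝ, ∀ l, l₀ ≤ l → ∃ T : ℝ → ℝ, TP T ∧
    (∀ a b, a ≤ b → l / 2 * (b - a) ≤ T b - T a) ∧ (∀ t, |T t - l * t| ≤ 1) ∧
    ∀ c ∈ Λ, ∃ e : ℤ, Even e ∧ ∀ s : ℝ, |s| ≤ 1 → T (c + s / l) = e + s := by
  obtain ⟨w, hw, gap⟩ := DeScale_gap hΛ
  refine ⟨(2 * hΛ.toFinset.card + 1) / w, fun l hl => ?_⟩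
  have hl' : 2 * (hΛ.toFinset.card : ℝ) + 1 ≤ l * w := (div_le_iff₀ hw).1 hl
  have cn : (0 : ℝ) ≤ hΛ.toFinset.card := Nat.cast_nonneg _
  have l0 : 0 < l := lt_of_lt_of_le (by positivity) hl
  let d : ℝ → ℝ := fun c => 2 * round (l * c / 2) - l * c
  have hd : ∀ c, |d c| ≤ 1 := fun c => by
    have := abs_le.1 (abs_sub_round (l * c / 2))
    exact abs_le.2 ⟨by simp only [d]; linarith only [this, this.2], by simp only [d]; linarith only [this, this.1]⟩
  have one : ∀ c ∈ Λ, ∀ t, |t - c| ≤ 2 * w →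
      ∑ c' ∈ hΛ.toFinset, d c' * DeScale_b w c' t = d c * DeScale_b w c t := fun c hc t ht => by
    refine Finset.sum_eq_single c (fun c' h' ne => ?_) fun k => absurd (hΛ.mem_toFinset.2 hc) k
    have := gap c' (hΛ.mem_toFinset.1 h') c hc ne
    have k := abs_sub_le c' t c
    rw [abs_sub_comm c' t] at k
    rw [DeScale_b_zero hw (by linarith only [ht, this, k]), mul_zero]
  refine ⟨fun t => l * t + ∑ c ∈ hΛ.toFinset, d c * DeScale_b w c t,
    (TP.id'.const_mul l).add (TP.sum _ fun c _ => (DeScale_b_tp w c).const_mul _),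
    fun a b hab => ?_, fun t => ?_, fun c hc => ⟨2 * round (l * c / 2), even_two_mul _, fun s hs => ?_⟩⟩
  · have k : ∑ c ∈ hΛ.toFinset, (d c * DeScale_b w c a - d c * DeScale_b w c b) ≤
        hΛ.toFinset.card • ((b - a) / w) := by
      refine Finset.sum_le_card_nsmul _ _ _ fun c _ => (le_abs_self _).trans ?_
      rw [← mul_sub, abs_mul]
      refine (mul_le_of_le_one_left (abs_nonneg _) (hd c)).trans ((DeScale_b_lip hw c a b).trans_eq ?_)
      rw [abs_sub_comm, abs_of_nonneg (sub_nonneg.2 hab)]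
    rw [Finset.sum_sub_distrib, nsmul_eq_mul] at k
    have q : 0 ≤ (b - a) / w := div_nonneg (sub_nonneg.2 hab) hw.le
    have e : l * (b - a) = l * w * ((b - a) / w) := by field_simp
    beta_reduce
    linarith only [hΛ, k, q, e, hl', mul_le_mul_of_nonneg_right hl' q]
  · beta_reduce
    rw [add_sub_cancel_left]
    by_cases k : ∃ c ∈ Λ, |t - c| ≤ 2 * w
    · obtain ⟨c, hc, ht⟩ := k
      rw [one c hc t ht, abs_mul, abs_of_nonneg (DeScale_b_mem w c t).1]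
      exact mul_le_one₀ (hd c) (DeScale_b_mem w c t).1 (DeScale_b_mem w c t).2
    · rw [Finset.sum_eq_zero, abs_zero]
      · exact zero_le_one
      · intro c hc
        rw [DeScale_b_zero hw (le_of_not_ge fun m => k ⟨c, hΛ.mem_toFinset.1 hc, m⟩), mul_zero]
  · have k : |c + s / l - c| ≤ w := by
      rw [add_sub_cancel_left, abs_div, abs_of_pos l0, div_le_iff₀ l0]
      linarith only [hΛ, hl', hs]
    beta_reduce
    rw [one c hc _ (by linarith only [hw, k]), DeScale_b_one hw k, mul_add, mul_div_cancel₀ _ l0.ne']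
    simp only [d]
    push_cast
    ring

theorem exists_phi {r : ℝ} (h1 : 1 / 4 ≤ r) (h2 : r ≤ 3 / 4) : ∃ φ : ℝ → ℝ, TP φ ∧
    (∀ a b, a ≤ b → 1 / 2 * (b - a) ≤ φ b - φ a) ∧ (∀ k : ℤ, φ k = k) ∧ (∀ t, |φ t - t| ≤ 1) ∧
    ∀ e : ℤ, Even e → φ (e + r) = e + 1 / 2 ∧ φ (e - r) = e - 1 / 2 := by
  let D : ℝ → ℝ := fun d => max (min (3 * d) ((1 - r) / 2)) (3 * d - 1)
  have mono : ∀ d d', d ≤ d' → D d ≤ D d' := fun d d' k =>
    max_le_max (min_le_min_right _ (by linarith only [k])) (by linarith only [k])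
  have D0 : D 0 = 0 := by
    simp only [D]
    rw [min_eq_left (by linarith only [h2]), max_eq_left (by linarith), mul_zero]
  have D1 : D (1 / 2) = 1 / 2 := by
    simp only [D]
    rw [min_eq_right (by linarith only [h1]), max_eq_right (by linarith only [h1])]
    norm_num
  have Dr : D (r / 2) = (1 - r) / 2 := by
    simp only [D]
    rw [min_eq_right (by linarith only [h1]), max_eq_left (by linarith only [h2])]
  have ad : BEv.Adm D := ⟨D0, D1, fun d a b => ⟨D0 ▸ mono _ _ a, D1 ▸ mono _ _ b⟩⟩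
  have lip : ∀ d d', |D d - D d'| ≤ 3 * |d - d'| := fun d d' => by
    have e : |3 * d - 3 * d'| = 3 * |d - d'| := by rw [← mul_sub, abs_mul, abs_of_pos three_pos]
    refine (abs_max_sub_max_le_max _ _ _ _).trans (max_le
      ((abs_min_sub_min_le_max _ _ _ _).trans (max_le e.le ?_)) ?_)
    · rw [sub_self, abs_zero]
      positivity
    · rw [sub_sub_sub_cancel_right, e]
  have ht : TP fun t : ℝ => t / 2 := TP.id'.div_const 2
  have hd : TP fun t : ℝ => 3 * dd (t / 2) := (tp_dd.comp ht).const_mul 3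
  refine ⟨fun t => t / 2 + oext D (t / 2), ht.add (tp_oext (D := fun _ => D) ht
    ((hd.min (TP.const _)).max (hd.sub (TP.const 1))) ⟨3, LipschitzWith.of_dist_le_mul fun s t => ?_⟩),
    fun a b hab => ?_, fun k => ?_, fun t => ?_, ?_⟩
  · rw [Real.dist_eq, Real.dist_eq]
    refine (oext_lip ad (by norm_num) (fun d d' _ _ _ _ => lip d d') _ _).trans ?_
    rw [← sub_div, abs_div, abs_two]
    push_cast
    linarith only [abs_nonneg (s - t)]
  · have := oext_mono ad ad (s := b / 2) (t := a / 2) (by linarith only [hab])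
      (fun d d' _ _ k => mono _ _ (by linarith only [hab, k])) fun d d' _ _ k => mono _ _ (by linarith only [hab, k])
    beta_reduce
    linarith only [this]
  · beta_reduce
    obtain ⟨m, rfl | rfl⟩ := Int.even_or_odd' k
    · have e : ((2 * m : ℤ) : ℝ) / 2 = m := by push_cast; ring
      rw [e, oext_eq ad (k := m) (by simp), if_pos le_rfl, sub_self, D0]
      push_cast
      ring
    · have e : ((2 * m + 1 : ℤ) : ℝ) / 2 = m + 1 / 2 := by push_cast; ring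
      rw [e, oext_eq ad (k := m) (by rw [add_sub_cancel_left, abs_of_pos one_half_pos]),
        if_pos (by linarith only []), add_sub_cancel_left, D1]
      push_cast
      ring
  · have e : t / 2 + oext D (t / 2) - t = oext D (t / 2) - t / 2 := by ring
    have a := ad.2.2 _ (dd_nonneg (t / 2)) (dd_le_half (t / 2))
    beta_reduce
    rw [e, abs_oext_sub, abs_le]
    constructor <;> linarith only [a, a.1, a.2, dd_nonneg (t / 2), dd_le_half (t / 2)]
  · rintro _ ⟨m, rfl⟩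
    have e1 : (((m + m : ℤ) : ℝ) + r) / 2 = m + r / 2 := by push_cast; ring
    have e2 : (((m + m : ℤ) : ℝ) - r) / 2 = m - r / 2 := by push_cast; ring
    beta_reduce
    rw [e1, e2, oext_eq ad (k := m) (by rw [add_sub_cancel_left, abs_of_pos (by linarith only [h1])]; linarith only [h2]),
      oext_eq ad (k := m) (by rw [sub_sub_cancel_left, abs_neg, abs_of_pos (by linarith only [h1])]; linarith only [h2]),
      if_pos (by linarith only [h1]), if_neg (by linarith only [h1]), add_sub_cancel_left, sub_sub_cancel, Dr]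
    push_cast
    constructor <;> ring

theorem scale_box {T : ℝ → ℝ} {l : ℝ} (hl : 0 < l) (hT : ∀ t, |T t - l * t| ≤ 1) (a b : Rn 3) :
    ∃ A B : Z3, (∀ i, Even (A i) ∧ Even (B i)) ∧
      (∀ y : Rn 3, (∀ i, (A i : ℝ) - 5 ≤ T (y i) ∧ T (y i) ≤ B i + 5) → y ∈ Icc a b) ∧
      ∀ y : Rn 3, (∀ i, a i + 20 / l ≤ y i ∧ y i ≤ b i - 20 / l) →
        ∀ i, (A i : ℝ) + 5 ≤ T (y i) ∧ T (y i) ≤ B i - 5 := by
  refine ⟨fun i => 2 * ⌈(l * a i + 6) / 2⌉, fun i => 2 * ⌊(l * b i - 6) / 2⌋,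
    fun i => ⟨even_two_mul _, even_two_mul _⟩, fun y hy => ⟨fun i => ?_, fun i => ?_⟩,
    fun y hy i => ?_⟩
  · have k := (hy i).1
    push_cast at k
    refine le_of_mul_le_mul_left ?_ hl
    linarith only [k, hT, Int.le_ceil ((l * a i + 6) / 2), (abs_le.1 (hT (y i))).2]
  · have k := (hy i).2
    push_cast at k
    refine le_of_mul_le_mul_left ?_ hl
    linarith only [k, hT, Int.floor_le ((l * b i - 6) / 2), (abs_le.1 (hT (y i))).1]
  · have k1 := mul_le_mul_of_nonneg_left (hy i).1 hl.le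
    have k2 := mul_le_mul_of_nonneg_left (hy i).2 hl.le
    rw [mul_add, mul_div_cancel₀ _ hl.ne'] at k1
    rw [mul_sub, mul_div_cancel₀ _ hl.ne'] at k2
    push_cast
    constructor
    · linarith only [k1, hT, Int.ceil_lt_add_one ((l * a i + 6) / 2), (abs_le.1 (hT (y i))).1]
    · linarith only [k2, hT, Int.lt_floor_add_one ((l * b i - 6) / 2), (abs_le.1 (hT (y i))).2]

end BEp
end
end

-- merged part: Pool.Agent.Work.MP_f0515e_an.D3.DeRed
section
/-! TASK DeRed. From the data with margins to the lattice data. `u x = infDist (g0 x) (RB lo hi)` is `TP` (`poly_RB`), zero on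
the sphere of radius `5 / 8` (`sph`, `blk`), at least two on the sphere of radius `3 / 4` (`h4`; a point of a
box is in `Vox W`, `vox_iff`). `ess_circle` with `α = 1 / 4`, `β = 3 / 4` gives `r`, `B`, `J`; `φ` from
`exists_phi`, `Φ = dg φ` (`dg_lh`), `‖Φ y - y‖ ≤ 1`, `Φ` preserves every box with integer corners and `Φ y i =
k ↔ y i = k` for integers `k`. `C' = {C with g := Φ ∘ g, g0 := Φ ∘ g0, B := B, J := J, O := Φ '' O}` is `Ok`
(`car_box`, `vox_frontier`, `phi_dist`; near `J` one has `g = g0`; for `ess` use `invFun Φ ∘ h`). Pull the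
disc of `Core.Ok.disc` back by `invFun Φ`. About 220 lines. -/

open Set Metric Filter Topology Function BEv
open scoped NNReal

noncomputable section
namespace BEp

theorem DeRed_near {lo hi : Z3} (h : lo ≤ hi) {y : Rn 3} {t : ℝ} (ht : 1 / 2 ≤ t)
    (hy : ∀ i, (lo i : ℝ) - t ≤ y i ∧ y i ≤ hi i + t) : ∃ p ∈ Icc lo hi, ‖zr p - y‖ ≤ t := by
  refine ⟨fun i => max (lo i) (min (hi i) (round (y i))), ⟨fun i => le_max_left _ _,
    fun i => max_le (h i) (min_le_left _ _)⟩,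
    (pi_norm_le_iff_of_nonneg (by linarith only [ht])).2 fun i => ?_⟩
  have h1 := abs_le.1 (abs_sub_round (y i))
  have h2 : (lo i : ℝ) ≤ hi i := by exact_mod_cast h i
  obtain ⟨h3, h4⟩ := hy i
  show |((max (lo i) (min (hi i) (round (y i))) : ℤ) : ℝ) - y i| ≤ t
  push_cast
  rw [abs_le]
  rcases le_total (hi i : ℝ) (round (y i) : ℝ) with a | a
  · rw [min_eq_left a, max_eq_right h2]
    constructor <;> linarith only [h4, ht, h1, a, h1.1, h1.2]
  · rw [min_eq_right a]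
    rcases le_total (lo i : ℝ) (round (y i) : ℝ) with b | b
    · rw [max_eq_right b]
      constructor <;> linarith only [ht, h1, h1.1, h1.2]
    · rw [max_eq_left b]
      constructor <;> linarith only [ht, h1, b, h3, h1.1, h1.2]

theorem DeRed_box {φ : ℝ → ℝ} (hφ : StrictMono φ) (hk : ∀ k : ℤ, φ k = k) (A B : Z3) (y : Rn 3) :
    dg φ y ∈ Icc (zr A) (zr B) ↔ y ∈ Icc (zr A) (zr B) := by
  simp only [mem_Icc, Pi.le_def, zr, dg]
  refine and_congr (forall_congr' fun i => ?_) (forall_congr' fun i => ?_)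
  · conv_lhs => rw [← hk (A i)]
    exact hφ.le_iff_le
  · conv_lhs => rw [← hk (B i)]
    exact hφ.le_iff_le

theorem DeRed_sub {B J : Set (Rn 2)} (h : Ball B J) : J ⊆ B := by
  obtain ⟨Φ, -, rfl, rfl⟩ := h
  exact image_mono sphere_subset_closedBall

theorem Core.Pre.disc {C : Core} (hC : C.Pre) :
    ∃ (r : ℝ) (H : Rn 2 → Rn 3), 0 < r ∧ r ≤ 1 ∧ C.Out r H := by
  have hsp : ∀ x : Rn 2, ‖x‖ = 5 / 8 → C.g0 x ∈ RB C.lo C.hi := fun x hx => by
    have h : x ∈ ⋃ j, C.I j := hC.sph ▸ mem_sphere_zero_iff_norm.2 hx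
    obtain ⟨j, hj⟩ := mem_iUnion.1 h
    rw [← hC.eq x (by linarith only [hx]) (by linarith)]
    exact mem_iUnion.2 ⟨j, hC.blk j x hj⟩
  have hne : (RB C.lo C.hi).Nonempty :=
    ⟨_, hsp (fun _ => 5 / 8) (by rw [pi_norm_const, Real.norm_of_nonneg (by norm_num)])⟩
  obtain ⟨r, hr, B, J, hB, hin, hout, hJ⟩ := ess_circle
    (u := fun x => infDist (C.g0 x) (RB C.lo C.hi)) ((poly_RB C.lo C.hi).2.comp hC.tp)
    (α := 1 / 4) (β := 3 / 4) (by norm_num)
    (fun x hx => by rw [infDist_zero_of_mem (hsp x hx)]; norm_num)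
    (fun x hx => by
      by_contra hlt
      obtain ⟨j, hj, h⟩ := (dist_le_iff hne (by norm_num : (0 : ℝ) ≤ 3 / 4)).1 (not_le.1 hlt).le
      obtain ⟨p, hp, h'⟩ := DeRed_near hj (by norm_num) h
      have := hC.h4 x hx.ge (by linarith only [hx]) p (mem_iUnion.2 ⟨j, hp⟩)
      rw [hC.eq x (by linarith only [hx]) (by linarith only [hx])] at this
      linarith only [h', this])
  obtain ⟨φ, htp, hex, hk, hd, hev⟩ := exists_phi hr.1.le hr.2.le
  have hm : StrictMono φ := fun a b hab => by linarith only [hab, hex, hex a b hab.le]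
  have hL : LH (dg φ : Rn 3 → Rn 3) := dg_lh htp (by norm_num) hex
  have hr0 : 0 < r := by linarith [hr.1]
  set Φ : Rn 3 → Rn 3 := dg φ with hΦ
  have hdist : ∀ y, ‖Φ y - y‖ ≤ 1 := fun y =>
    (pi_norm_le_iff_of_nonneg zero_le_one).2 fun i => hd (y i)
  have hbox : ∀ m y, Φ y ∈ C.Col m ↔ y ∈ C.Col m := fun m y => by
    obtain ⟨A, B, h⟩ := hC.box m
    rw [h]; exact DeRed_box hm hk A B y
  have hbox' : ∀ m y, Φ y ∈ C.Col' m ↔ y ∈ C.Col' m := fun m y => by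
    obtain ⟨A, B, h⟩ := hC.box' m
    rw [h]; exact DeRed_box hm hk A B y
  have hfr : ∀ y, Φ y ∈ frontier (Vox C.W) ↔ infDist y (RB C.lo C.hi) = r := fun y =>
    (vox_frontier hC.evl).trans (phi_dist hC.evl hm hr0 hev)
  have himg : ∀ z, z ∈ Φ '' C.O ↔ invFun Φ z ∈ C.O := fun z =>
    ⟨by rintro ⟨w, hw, rfl⟩; rwa [hL.li], fun h => ⟨_, h, hL.ri z⟩⟩
  have hinv : ∀ z, ‖invFun Φ z - z‖ ≤ 1 := fun z => by
    have := hdist (invFun Φ z)
    rwa [hL.ri, norm_sub_rev] at this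
  have hring : ∀ x ∈ J, 5 / 8 < ‖x‖ ∧ ‖x‖ < 3 / 4 := fun x hx =>
    ⟨not_le.1 fun h => (hin (mem_closedBall_zero_iff.2 h)).2 hx,
      mem_ball_zero_iff.1 (hout (DeRed_sub hB hx))⟩
  let C' : Core :=
    { C with
      g := fun x => Φ (C.g x)
      g0 := fun x => Φ (C.g0 x)
      B := B
      J := J
      O := Φ '' C.O }
  have hC' : C'.Ok := by
    refine
      { cont := hL.tp.continuous.comp hC.cont
        tp := hL.tp.comp hC.tp
        eq := fun x h1 h2 => congrArg Φ (hC.eq x h1 h2)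
        ns := fun x y h1 h2 h3 h => hC.ns x y h1 h2 h3 (hL.inj h)
        evl := hC.evl
        con := hC.con
        sph := hC.sph
        blk := fun j x hx => car_box (hC.evl j) ((DeRed_box hm hk _ _ _).2 (hC.blk j x hx))
        meet := hC.meet
        h3 := fun x y h1 h2 h3 h4 p hp => hC.h3 x y h1 h2 h3 ?_ p ?_
        h4 := fun x h1 h2 h => ?_
        ball := hB
        inn := hin
        out := hout
        fr := fun x hx => ⟨?_, ?_⟩
        cvx := fun m => ?_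
        cvx' := fun m => ?_
        cl' := fun m => ?_
        thick := hC.thick
        evc := hC.evc
        m1 := fun m x h1 h => ?_
        m2 := fun m x hx y hy h =>
          hC.m2 m ⟨hx.1, (hbox m _).1 hx.2⟩ ⟨hy.1, (hbox m _).1 hy.2⟩ (hL.inj h)
        m3 := fun m z hz h => ?_
        m5 := hC.m5
        op := ?_
        o1 := fun x hx z hz => (himg z).2 (hC.o1 x hx ?_)
        o2 := fun z hz => ?_
        o3 := fun x hx => mem_image_of_mem Φ (hC.o3 x hx)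
        ess := fun m h hh h1 h2 => ?_ }
    · have e : C.g x - C.g y = (Φ (C.g x) - Φ (C.g y)) - (Φ (C.g x) - C.g x) + (Φ (C.g y) - C.g y) := by
        abel
      have h4 : ‖Φ (C.g x) - Φ (C.g y)‖ ≤ 4 := h4
      rw [e]
      linarith [norm_add_le ((Φ (C.g x) - Φ (C.g y)) - (Φ (C.g x) - C.g x)) (Φ (C.g y) - C.g y),
        norm_sub_le (Φ (C.g x) - Φ (C.g y)) (Φ (C.g x) - C.g x), hdist (C.g x), hdist (C.g y)]
    · have e : zr p - C.g x = (zr p - Φ (C.g x)) + (Φ (C.g x) - C.g x) := by abel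
      have hp : ‖zr p - Φ (C.g x)‖ ≤ 4 := hp
      rw [e]
      linarith [norm_add_le (zr p - Φ (C.g x)) (Φ (C.g x) - C.g x), hdist (C.g x)]
    · obtain ⟨p, hp, h⟩ := mem_iUnion₂.1 h
      have h : ‖zr p - Φ (C.g x)‖ ≤ 1 / 2 := by
        rw [norm_sub_rev]; exact mem_closedBall_iff_norm.1 h
      have e : zr p - C.g x = (zr p - Φ (C.g x)) + (Φ (C.g x) - C.g x) := by abel
      have := hC.h4 x h1 h2 p hp
      rw [e] at this
      linarith only [h, this, hdist, norm_add_le (zr p - Φ (C.g x)) (Φ (C.g x) - C.g x), hdist (C.g x)]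
    · refine (hfr (C.g x)).2 ?_
      rw [hC.eq x (by linarith only [hring, hx, (hring x hx).1]) (by linarith only [hring, hx, (hring x hx).2])]
      exact (hJ x hx).1
    · have h1 : ∀ᶠ y in 𝓝 x, 1 / 2 < ‖y‖ :=
        (isOpen_lt continuous_const continuous_norm).mem_nhds
          (show 1 / 2 < ‖x‖ by linarith only [hring, hx, (hring x hx).1])
      have h2 : ∀ᶠ y in 𝓝 x, ‖y‖ < 1 :=
        (isOpen_lt continuous_norm continuous_const).mem_nhds
          (show ‖x‖ < 1 by linarith [(hring x hx).2])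
      filter_upwards [h1, h2, (hJ x hx).2] with y a b c d
      have := (hfr (C.g y)).1 d
      rw [hC.eq y a.le b.le] at this
      exact c this
    · obtain ⟨A, B, h⟩ := hC.box m
      show Convex ℝ (C.Col m)
      rw [h]; exact convex_Icc _ _
    · obtain ⟨A, B, h⟩ := hC.box' m
      show Convex ℝ (C.Col' m)
      rw [h]; exact convex_Icc _ _
    · obtain ⟨A, B, h⟩ := hC.box' m
      show IsClosed (C.Col' m)
      rw [h]; exact isClosed_Icc
    · obtain ⟨a, b⟩ := hC.m1 m x h1 ((hbox m _).1 h)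
      refine ⟨?_, b⟩
      show φ (C.g x (C.k m)) = C.c m
      rw [a, hk]
    · obtain ⟨x, h1, h2⟩ := hC.m3 m (invFun Φ z) ((hbox m _).1 (by rw [hL.ri]; exact hz)) (hm.injective (by
        have : φ (invFun Φ z (C.k m)) = z (C.k m) := congrFun (hL.ri z) (C.k m)
        rw [this, hk]; exact h))
      exact ⟨x, h1, (congrArg Φ h2).trans (hL.ri z)⟩
    · have : Φ '' C.O = invFun Φ ⁻¹' C.O := Set.ext himg
      show IsOpen (Φ '' C.O)
      rw [this]
      exact hC.op.preimage hL.tpi.continuous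
    · have hz : ‖z - Φ (C.g x)‖ ≤ 4 := mem_closedBall_iff_norm.1 hz
      have e : invFun Φ z - C.g x = (invFun Φ z - z) + (z - Φ (C.g x)) + (Φ (C.g x) - C.g x) := by
        abel
      rw [mem_closedBall_iff_norm, e]
      linarith only [hz, hinv, hdist, norm_add₃_le (a := invFun Φ z - z) (b := z - Φ (C.g x)) (c := Φ (C.g x) - C.g x),
        hinv z, hdist (C.g x)]
    · obtain ⟨p, hp, h⟩ := mem_iUnion₂.1 hz
      refine (himg z).2 (hC.o2 p hp ?_)
      have h : ‖z - zr p‖ ≤ 1 / 2 := mem_closedBall_iff_norm.1 h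
      have e : invFun Φ z - zr p = (invFun Φ z - z) + (z - zr p) := by abel
      rw [mem_closedBall_iff_norm, e]
      linarith only [h, hinv, norm_add_le (invFun Φ z - z) (z - zr p), hinv z]
    · obtain ⟨x, h3, h4⟩ := hC.ess m (fun x => invFun Φ (h x)) (hL.tpi.continuous.comp hh)
        (fun x a b => hL.inv_eq (h1 x a b).symm) fun x a => (himg _).1 (h2 x a)
      refine ⟨x, h3, ?_⟩
      have := (hbox' m _).2 h4
      rwa [hL.ri] at this
  obtain ⟨H, hH⟩ := hC'.disc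
  refine ⟨r, fun x => invFun Φ (H x), hr0, by linarith [hr.2], hL.tpi.comp hH.tp,
    fun x hx y hy h => hH.inj hx hy (hL.inv.inj h), fun x a b => hL.inv_eq (hH.eq x a b).symm,
    fun x a => (himg _).1 (hH.inO x a), fun m => ?_⟩
  obtain ⟨s, hs, h⟩ := hH.col m
  have key : ∀ t : ℝ, φ (C.c m + t) = C.c m + s → ∀ x, ‖x‖ ≤ 1 → invFun Φ (H x) ∈ C.Col' m →
      invFun Φ (H x) (C.k m) = C.c m + t := fun t ht x a b => by
    have h1 := (hbox' m _).2 b
    rw [hL.ri] at h1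
    have h2 : φ (invFun Φ (H x) (C.k m)) = H x (C.k m) := congrFun (hL.ri (H x)) (C.k m)
    exact hm.injective (h2.trans ((h x a h1).trans ht.symm))
  rcases (abs_eq (by norm_num : (0 : ℝ) ≤ 1 / 2)).1 hs with e | e
  · exact ⟨r, abs_of_pos hr0, key r (by rw [e]; exact (hev _ (hC.evc m)).1)⟩
  · refine ⟨-r, by rw [abs_neg, abs_of_pos hr0], key (-r) ?_⟩
    rw [e, ← sub_eq_add_neg, ← sub_eq_add_neg]
    exact (hev _ (hC.evc m)).2

end BEp
end
end

-- merged part: Pool.Agent.Work.MP_f0515e_an.D3.Dehn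
section
/-! TASK Dehn. EXPORT (lemma of Dehn with collar and marked columns; owner h89). Reduction to `Core.Pre.disc`. `exists_chain`
for the open set `O' = O \ (g '' {3 / 4 ≤ ‖x‖ ≤ 1} ∪ ⋃ Icc (a m) (b m))`; `δ₂ > 0` with `closedBall (g x) δ₂ ⊆
O` for `‖x‖ ≤ 5 / 8`; `δ₃ > 0` below all `a' m i - a m i`, `b m i - b' m i`. Take `l ≥ l₀` (`exists_T` for `Λ
= range c`) with `20 / l ≤ μ, δ, δ₂, δ₃` and `1 / l ≤ ε`, `M = dg T` (`dg_lh`), `‖M y - l • y‖ ≤ 1`. Blocks: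
`scale_box` for the cubes `closedBall (z j) (r j) = Icc ..`; columns: `scale_box` for `Icc (a m) (b m)` gives
`A`, `B`, `Col = Icc (zr A) (zr B)`, `Col' = Icc (zr (A + 4)) (zr (B - 4))`, which contains `M '' Icc (a' m)
(b' m)`. `C = ⟨M ∘ g, M ∘ g0, .., M '' O⟩` indexed through `Finite.exists_equiv_fin ι`; `h4`: if `‖zr p - M (g
x)‖ < 3` then `g x` is in the cube, inside `O'`. Pull back by `invFun M`, `η = r / l`. About 250 lines. -/

open Set Metric Filter Topology Function BEv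
open scoped NNReal

noncomputable section
namespace BEp

theorem Dehn_cube {y z : Rn 3} {r : ℝ} :
    y ∈ closedBall z r ↔ ∀ i, z i - r ≤ y i ∧ y i ≤ z i + r := by
  rw [mem_closedBall, dist_pi_le_iff']
  refine forall_congr' fun i => ?_
  rw [Real.dist_eq, abs_le]
  constructor <;> rintro ⟨h1, h2⟩ <;> constructor <;> linarith only [h1, h2]

theorem Dehn_norm {y z : Rn 3} {r : ℝ} (h : ‖y - z‖ ≤ r) (i : Fin 3) :
    z i - r ≤ y i ∧ y i ≤ z i + r := Dehn_cube.1 (mem_closedBall_iff_norm.2 h) i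

theorem Dehn_box {A B : Z3} {y : Rn 3} :
    y ∈ Icc (zr A) (zr B) ↔ ∀ i, (A i : ℝ) ≤ y i ∧ y i ≤ B i := by
  simp only [mem_Icc, Pi.le_def, zr, forall_and]

theorem Dehn_int {A B p : Z3} : p ∈ Icc A B ↔ ∀ i, (A i : ℝ) ≤ p i ∧ (p i : ℝ) ≤ B i := by
  simp only [mem_Icc, Pi.le_def, forall_and, Int.cast_le]

theorem Dehn_near {T : ℝ → ℝ} {l : ℝ} (hl : 0 < l)
    (h : ∀ a b, a ≤ b → l / 2 * (b - a) ≤ T b - T a) {y y' : Rn 3} (k : ‖dg T y - dg T y'‖ ≤ 6) :
    ‖y - y'‖ ≤ 20 / l := by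
  refine mem_closedBall_iff_norm.1 (Dehn_cube.2 fun i => ?_)
  obtain ⟨k1, k2⟩ : T (y' i) - 6 ≤ T (y i) ∧ T (y i) ≤ T (y' i) + 6 := Dehn_norm k i
  have p : 0 < 20 / l := by positivity
  rcases le_total (y i) (y' i) with e | e
  · have : y' i - y i ≤ 20 / l := (le_div_iff₀ hl).2 (by linarith only [k1, h, e, h _ _ e])
    constructor <;> linarith only [this, p, e]
  · have : y i - y' i ≤ 20 / l := (le_div_iff₀ hl).2 (by linarith only [k2, h, e, h _ _ e])
    constructor <;> linarith only [p, e, this]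

theorem Dehn_inj {T : ℝ → ℝ} {l : ℝ} (hl : 0 < l)
    (h : ∀ a b, a ≤ b → l / 2 * (b - a) ≤ T b - T a) : Injective T :=
  StrictMono.injective fun a b k =>
    sub_pos.1 ((mul_pos (half_pos hl) (sub_pos.2 k)).trans_le (h a b k.le))

theorem dehn {g g0 : Rn 2 → Rn 3} (hg : Continuous g) (h0 : TP g0)
    (he : ∀ x, 1 / 2 ≤ ‖x‖ → ‖x‖ ≤ 1 → g x = g0 x)
    (hn : ∀ x y, 1 / 2 ≤ ‖x‖ → ‖x‖ ≤ 1 → ‖y‖ ≤ 1 → g y = g x → y = x)
    {ι : Type} [Finite ι] {a b a' b' : ι → Rn 3} {k : ι → Fin 3} {c : ι → ℝ}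
    (hab : ∀ m i, a m i < a' m i ∧ b' m i < b m i)
    (m1 : ∀ m x, ‖x‖ ≤ 1 → g x ∈ Icc (a m) (b m) → g x (k m) = c m ∧ ‖x‖ < 1 / 2)
    (m2 : ∀ m, InjOn g {x | ‖x‖ ≤ 1 ∧ g x ∈ Icc (a m) (b m)})
    (m3 : ∀ m, ∀ z ∈ Icc (a m) (b m), z (k m) = c m → ∃ x, ‖x‖ ≤ 1 ∧ g x = z)
    {O : Set (Rn 3)} (hO : IsOpen O) (hgO : ∀ x, ‖x‖ ≤ 3 / 4 → g x ∈ O)
    (ess : ∀ m, ∀ h : Rn 2 → Rn 3, Continuous h → (∀ x, 3 / 4 ≤ ‖x‖ → ‖x‖ ≤ 1 → h x = g x) →
      (∀ x, ‖x‖ ≤ 3 / 4 → h x ∈ O) → ∃ x, ‖x‖ ≤ 1 ∧ h x ∈ Icc (a' m) (b' m))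
    {ε : ℝ} (hε : 0 < ε) :
    ∃ (G : Rn 2 → Rn 3) (η : ℝ), 0 < η ∧ η ≤ ε ∧ TP G ∧ InjOn G (closedBall 0 1) ∧
      (∀ x, 3 / 4 ≤ ‖x‖ → ‖x‖ ≤ 1 → G x = g x) ∧ (∀ x, ‖x‖ ≤ 3 / 4 → G x ∈ O) ∧
      ∀ m, ∃ s : ℝ, |s| = η ∧
        ∀ x, ‖x‖ ≤ 1 → G x ∈ Icc (a' m) (b' m) → G x (k m) = c m + s := by
  have hR : IsClosed (g '' {x | 3 / 4 ≤ ‖x‖ ∧ ‖x‖ ≤ 1}) := ((poly_ring _ _).1.image hg).isClosed
  have hO' : IsOpen (O \ (g '' {x | 3 / 4 ≤ ‖x‖ ∧ ‖x‖ ≤ 1} ∪ ⋃ m, Icc (a m) (b m))) :=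
    hO.sdiff (hR.union (isClosed_iUnion_of_finite fun _ => isClosed_Icc))
  obtain ⟨N, z, r, I, μ, δ, μ0, δ0, i1, i2, i3, i4, i5, i6⟩ := exists_chain hg h0 he hn hO'
    fun x hx => ⟨hgO x (by linarith only [hx]), by
      rintro (⟨y, hy, e⟩ | k)
      · have := hn x y (by linarith only [hx]) (by linarith) hy.2 e
        subst this
        linarith only [hx, hy, hy.1]
      · obtain ⟨m, hm⟩ := mem_iUnion.1 k
        linarith only [hx, m1, hm, (m1 m x (by linarith) hm).2]⟩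
  obtain ⟨δ₂, d2, hδ₂⟩ := IsCompact.exists_cthickening_subset_open
    ((isCompact_closedBall (0 : Rn 2) (5 / 8)).image hg) hO (by
      rintro _ ⟨x, hx, rfl⟩
      exact hgO x (by linarith only [hx, mem_closedBall_zero_iff.1 hx]))
  obtain ⟨l₀, hl₀⟩ := exists_T (finite_range c)
  have t0 : Tendsto (fun l : ℝ => 20 / l) atTop (𝓝 0) := tendsto_const_nhds.div_atTop tendsto_id
  obtain ⟨l, l1, hl, l2, l3, l4, l5, l6⟩ : ∃ l : ℝ, l₀ ≤ l ∧ 0 < l ∧ 20 / l < μ ∧ 20 / l < δ ∧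
      20 / l < δ₂ ∧ 20 / l < ε ∧ ∀ m i, 20 / l < a' m i - a m i ∧ 20 / l < b m i - b' m i :=
    ((eventually_ge_atTop l₀).and ((eventually_gt_atTop 0).and ((t0.eventually_lt_const μ0).and
      ((t0.eventually_lt_const δ0).and ((t0.eventually_lt_const d2).and
        ((t0.eventually_lt_const hε).and (eventually_all.2 fun m => eventually_all.2 fun i =>
          (t0.eventually_lt_const (sub_pos.2 (hab m i).1)).and
            (t0.eventually_lt_const (sub_pos.2 (hab m i).2))))))))).exists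
  obtain ⟨T, T1, T2, T3, T4⟩ := hl₀ l l1
  have hM : LH (dg T : Rn 3 → Rn 3) := dg_lh T1 (half_pos hl) T2
  have Ti := Dehn_inj hl T2
  choose lo hi s0 s1 s2 using fun j => scale_box hl T3 (fun i => z j i - r j) fun i => z j i + r j
  choose A B c0 c1 c2 using fun m => scale_box hl T3 (a m) (b m)
  choose e e0 e1 using fun m => T4 (c m) ⟨m, rfl⟩
  have S1 : ∀ j (y : Rn 3), (∀ i, (lo j i : ℝ) - 5 ≤ T (y i) ∧ T (y i) ≤ hi j i + 5) →
      y ∈ closedBall (z j) (r j) := fun j y h =>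
    Dehn_cube.2 fun i => ⟨(s1 j y h).1 i, (s1 j y h).2 i⟩
  have S2 : ∀ j, ∀ y ∈ closedBall (z j) (r j - μ),
      ∀ i, (lo j i : ℝ) + 5 ≤ T (y i) ∧ T (y i) ≤ hi j i - 5 := fun j y h =>
    s2 j y fun i => by
      have := Dehn_cube.1 h i
      constructor <;> linarith only [l2, this, this.1, this.2]
  have C1 : ∀ m y, dg T y ∈ Icc (zr (A m)) (zr (B m)) → y ∈ Icc (a m) (b m) := fun m y h =>
    c1 m y fun i => by
      have : (A m i : ℝ) ≤ T (y i) ∧ T (y i) ≤ B m i := Dehn_box.1 h i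
      constructor <;> linarith only [this, this.1, this.2]
  have C2 : ∀ m, ∀ y ∈ Icc (a' m) (b' m),
      dg T y ∈ Icc (zr fun i => A m i + 4) (zr fun i => B m i - 4) := fun m y h =>
    Dehn_box.2 fun i => by
      have := c2 m y (fun i => by
        constructor <;> linarith only [h, l6, h.1 i, h.2 i, (l6 m i).1, (l6 m i).2]) i
      simp only [dg]
      push_cast
      constructor <;> linarith only [this, this.1, this.2]
  have W1 : ∀ p ∈ ⋃ j, Icc (lo j) (hi j), ∀ y, ‖dg T y - zr p‖ ≤ 5 →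
      y ∈ O \ (g '' {x | 3 / 4 ≤ ‖x‖ ∧ ‖x‖ ≤ 1} ∪ ⋃ m, Icc (a m) (b m)) := fun p hp y h => by
    obtain ⟨j, hj⟩ := mem_iUnion.1 hp
    refine i4 j (S1 j y fun i => ?_)
    have k1 : (p i : ℝ) - 5 ≤ T (y i) ∧ T (y i) ≤ p i + 5 := Dehn_norm h i
    have k2 := Dehn_int.1 hj i
    constructor <;> linarith only [k1, k2, k1.1, k1.2, k2.1, k2.2]
  have E0 : ∀ m, T (c m) = e m := fun m => by simpa using e1 m 0 (by simp)
  obtain ⟨nM, ⟨φ⟩⟩ := Finite.exists_equiv_fin ι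
  obtain ⟨ψ, hψ⟩ : ∃ ψ : Fin nM → ι, Surjective ψ := ⟨φ.symm, φ.symm.surjective⟩
  obtain ⟨ρ, H, r0, r1, o⟩ := Core.Pre.disc (C := ⟨fun x => dg T (g x), fun x => dg T (g0 x), N, lo,
    hi, I, ∅, ∅, nM, fun m => Icc (zr (A (ψ m))) (zr (B (ψ m))),
    fun m => Icc (zr fun i => A (ψ m) i + 4) (zr fun i => B (ψ m) i - 4), fun m => k (ψ m),
    fun m => e (ψ m), dg T '' O⟩)
    { cont := hM.tp.continuous.comp hg
      tp := hM.tp.comp h0
      eq := fun x h1 h2 => congrArg (dg T) (he x h1 h2)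
      ns := fun x y h1 h2 h3 h => hn x y h1 h2 h3 (hM.inj h)
      evl := s0
      con := i1
      sph := i2
      blk := fun j x hx => Dehn_box.2 fun i => by
        have := S2 j _ (i3 j x hx) i
        simp only [dg]
        constructor <;> linarith only [this, this.1, this.2]
      meet := by
        rintro j j' ⟨p, h1, h2⟩
        obtain ⟨y, hy⟩ := hM.1.2 (zr p)
        have k : ∀ i, T (y i) = p i := congrFun hy
        refine i5 j j' ⟨y, S1 j y fun i => ?_, S1 j' y fun i => ?_⟩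
        · have := Dehn_int.1 h1 i
          rw [k]
          constructor <;> linarith only [this, this.1, this.2]
        · have := Dehn_int.1 h2 i
          rw [k]
          constructor <;> linarith only [this, this.1, this.2]
      h3 := fun x y h1 h2 h3 h p hp => by
        obtain ⟨j, hj⟩ := i6 x y h1 h2 h3 ((Dehn_near hl T2 h).trans l3.le)
        refine mem_iUnion.2 ⟨j, Dehn_int.2 fun i => ?_⟩
        have k1 : T (g x i) - 5 ≤ p i ∧ (p i : ℝ) ≤ T (g x i) + 5 := Dehn_norm hp i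
        have k2 := S2 j _ hj i
        constructor <;> linarith only [k1, k2, k1.1, k1.2, k2.1, k2.2]
      h4 := fun x h1 h2 p hp => not_lt.1 fun h =>
        (W1 p hp (g x) (by rw [norm_sub_rev]; linarith only [h])).2 (Or.inl ⟨x, ⟨h1, h2⟩, rfl⟩)
      box := fun m => ⟨_, _, rfl⟩
      box' := fun m => ⟨_, _, rfl⟩
      thick := fun m y hy w hw => Dehn_box.2 fun i => by
        have k1 := Dehn_box.1 hy i
        have k2 := Dehn_cube.1 hw i
        push_cast at k1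
        constructor <;> linarith only [k2, k1, k1.1, k1.2, k2.1, k2.2]
      evc := fun m => e0 _
      m1 := fun m x h1 h2 => ⟨(congrArg T (m1 _ x h1 (C1 _ _ h2)).1).trans (E0 _),
        (m1 _ x h1 (C1 _ _ h2)).2⟩
      m2 := fun m x hx y hy h => m2 _ ⟨hx.1, C1 _ _ hx.2⟩ ⟨hy.1, C1 _ _ hy.2⟩ (hM.inj h)
      m3 := fun m w hw h => by
        obtain ⟨y, rfl⟩ := hM.1.2 w
        obtain ⟨x, h1, rfl⟩ := m3 _ y (C1 _ _ hw) (Ti (Eq.trans h (E0 _).symm))
        exact ⟨x, h1, rfl⟩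
      m5 := fun m p hp h => by
        obtain ⟨y, hy⟩ := hM.1.2 (zr p)
        exact (W1 p hp y (by rw [hy, sub_self, norm_zero]; norm_num)).2
          (Or.inr (mem_iUnion.2 ⟨_, C1 _ y (hy ▸ h)⟩))
      op := by
        obtain ⟨f, hf, -⟩ := hM.homeo
        exact hf ▸ f.isOpenMap _ hO
      o1 := fun x hx w hw => by
        obtain ⟨y, rfl⟩ := hM.1.2 w
        exact ⟨y, hδ₂ (closedBall_subset_cthickening
          (mem_image_of_mem g (mem_closedBall_zero_iff.2 hx)) _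
          (mem_closedBall_iff_norm.2 ((Dehn_near hl T2 (mem_closedBall_iff_norm.1 hw)).trans
            l4.le))), rfl⟩
      o2 := fun p hp w hw => by
        obtain ⟨y, rfl⟩ := hM.1.2 w
        exact ⟨y, (W1 p hp y ((mem_closedBall_iff_norm.1 hw).trans (by norm_num))).1, rfl⟩
      o3 := fun x hx => ⟨_, hgO x hx, rfl⟩
      ess := fun m h hc h1 h2 => by
        obtain ⟨x, k1, k2⟩ := ess (ψ m) (fun x => invFun (dg T) (h x)) (hM.tpi.continuous.comp hc)
          (fun x k1 k2 => hM.inv_eq (h1 x k1 k2).symm) fun x hx => by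
            obtain ⟨y, hy, e⟩ := h2 x hx
            rwa [hM.inv_eq e]
        exact ⟨x, k1, hM.ri (h x) ▸ C2 _ _ k2⟩ }
  refine ⟨fun x => invFun (dg T) (H x), ρ / l, div_pos r0 hl,
    (div_le_div_of_nonneg_right (r1.trans (by norm_num)) hl.le).trans l5.le, hM.tpi.comp o.tp,
    fun x hx y hy h => o.inj hx hy (hM.inv.inj h), fun x h1 h2 => hM.inv_eq (o.eq x h1 h2).symm,
    fun x hx => ?_, fun m => ?_⟩
  · obtain ⟨y, hy, e⟩ := o.inO x hx
    beta_reduce
    rwa [hM.inv_eq e]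
  · obtain ⟨m, rfl⟩ := hψ m
    obtain ⟨s, s3, s4⟩ := o.col m
    refine ⟨s / l, by rw [abs_div, s3, abs_of_pos hl], fun x hx h => Ti ?_⟩
    rw [e1 _ s (s3.trans_le r1)]
    exact (congrFun (hM.ri (H x)) _).trans (s4 x hx (hM.ri (H x) ▸ C2 _ _ h))

/-- The version without marks. -/
theorem dehn0 {g g0 : Rn 2 → Rn 3} (hg : Continuous g) (h0 : TP g0)
    (he : ∀ x, 1 / 2 ≤ ‖x‖ → ‖x‖ ≤ 1 → g x = g0 x)
    (hn : ∀ x y, 1 / 2 ≤ ‖x‖ → ‖x‖ ≤ 1 → ‖y‖ ≤ 1 → g y = g x → y = x)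
    {O : Set (Rn 3)} (hO : IsOpen O) (hgO : ∀ x, ‖x‖ ≤ 3 / 4 → g x ∈ O) :
    ∃ G : Rn 2 → Rn 3, TP G ∧ InjOn G (closedBall 0 1) ∧
      (∀ x, 3 / 4 ≤ ‖x‖ → ‖x‖ ≤ 1 → G x = g x) ∧ ∀ x, ‖x‖ ≤ 3 / 4 → G x ∈ O := by
  obtain ⟨G, -, -, -, h1, h2, h3, h4, -⟩ := dehn hg h0 he hn (ι := Empty) (a := Empty.elim)
    (b := Empty.elim) (a' := Empty.elim) (b' := Empty.elim) (k := Empty.elim) (c := Empty.elim)
    (fun m => m.elim) (fun m => m.elim) (fun m => m.elim) (fun m => m.elim) hO hgO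
    (fun m => m.elim) one_pos
  exact ⟨G, h1, h2, h3, h4⟩

end BEp
end
end

-- merged part: Pool.Agent.Work.MP_f0515e_an.D3.BDisc
section
/-! Star balls: the singular disc and the lemma of Dehn. -/

open Set Metric Filter Topology Function BEv
open scoped NNReal

noncomputable section
namespace BEp

variable {ι : Type} [Finite ι] {a : ι → ℝ × ℂ} {h : ℝ × ℂ → Rn 3} {k : Rn 3 → ℝ × ℂ}
  {Po : Set (Rn 3)} {i : ι → Fin 3} {σ : ι → ℝ} {δ Q R m : ℝ} {o : ι} {s : ι → ℝ}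
  {L : ι → Rn 2 → ℂ}

theorem BDisc_icc {x z : Rn 3} {t : ℝ} :
    x ∈ Icc (fun j => z j - t) (fun j => z j + t) ↔ dist x z ≤ t := by
  rw [← mem_closedBall, Dehn_cube, mem_Icc, Pi.le_def, Pi.le_def, forall_and]

theorem BDisc_map {y : ι → Rn 3} {r ρ c₀ : ℝ} {c : ι → Rn 2} {g : Rn 2 → Rn 3}
    (hs : BSf y i o s r c ρ g) : ∃ G : Rn 2 → Rn 3, Continuous G ∧ EqOn G g (bP0 o c ρ) ∧
      (∀ x, 1 / 4 ≤ ‖x‖ → G x = y o + pem (i o) (s o) (rinv c₀ (4 * r - 7 * c₀) x)) ∧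
      ∀ e, e ≠ o → ∀ x, dist x (c e) ≤ ρ →
        G x = y e + pem (i e) (s e) ((r / ρ) • (x - c e)) := by
  have cl : IsClosed {x : Rn 2 | 1 / 4 ≤ ‖x‖} := isClosed_le continuous_const continuous_norm
  obtain ⟨u, u1, u2, u3⟩ := glue_two (closed_bP0 o c ρ) cl hs.gc.continuousOn
    (v := fun x => y o + pem (i o) (s o) (rinv c₀ (4 * r - 7 * c₀) x))
    (continuous_const.add (cont_pem.comp tp_rinv.continuous)).continuousOn fun x hx => by
      have e : ‖x‖ = 1 / 4 := le_antisymm hx.1.1 hx.2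
      show g x = y o + pem (i o) (s o) (rinv c₀ (4 * r - 7 * c₀) x)
      rw [hs.bo x e, rinv_in e]
      congr 3
      ring
  obtain ⟨G, g1, g2, g3⟩ := glue_on' (κ := {e // e ≠ o}) (B := fun e => closedBall (c e) ρ)
    ((closed_bP0 o c ρ).union cl) (fun _ => isClosed_closedBall)
    (fun e e' x h1 h2 => Subtype.ext (hs.cd _ _ x e.2 e'.2 h1 h2)) u1.continuousOn
    (v := fun e x => y e + pem (i e) (s e) ((r / ρ) • (x - c e)))
    (fun e => (continuous_const.add (cont_pem.comp (by fun_prop))).continuousOn) fun e x hx => by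
      have h1 : dist x (c e) ≤ ρ := hx.2
      rcases hx.1 with k | k
      · rw [u2 k]
        exact hs.bd e e.2 x (le_antisymm h1 (k.2 e e.2))
      · have h2 := hs.cin e e.2
        have h3 : ‖x‖ ≤ ‖c e‖ + dist x (c e) := by
          rw [dist_eq_norm]
          exact norm_le_norm_add_norm_sub' _ _
        have h4 : 1 / 4 ≤ ‖x‖ := k
        linarith only [h1, h2, h3, h4]
  exact ⟨G, g1, fun x hx => (g2 (Or.inl hx)).trans (u2 hx),
    fun x hx => (g2 (Or.inr hx)).trans (u3 hx), fun e he x hx => g3 ⟨e, he⟩ hx⟩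

omit [Finite ι] in
theorem BDisc_tri (o : ι) (c : ι → Rn 2) (ρ : ℝ) (x : Rn 2) :
    x ∈ bP0 o c ρ ∨ 1 / 4 ≤ ‖x‖ ∨ ∃ e, e ≠ o ∧ dist x (c e) ≤ ρ := by
  by_contra k
  push Not at k
  exact k.1 ⟨k.2.1.le, fun e he => (k.2.2 e he).le⟩

omit [Finite ι] in
theorem BDisc_flat (H : BCo h k Po a i σ δ Q) (W : BWd h k a i o δ Q R s L m) (e : ι) {w : Rn 2}
    (h0 : w ≠ 0) (h1 : ‖w‖ ≤ R) :
    h (a e) + pem (i e) (s e) w ∈ h '' thickening δ (bSt a) \ bGa h a δ := by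
  have d := dist_pem (i := i e) (W.sg e) (h (a e)) w
  have := W.R0
  have := W.RQ
  refine ⟨W.sub e (mem_closedBall.2 (by linarith)), fun k => h0 ?_⟩
  have e1 := H.wall (e := e) k (by linarith) (by rw [Pi.add_apply, pem_self, add_zero])
  rw [e1, dist_self] at d
  exact norm_eq_zero.1 d.symm

omit [Finite ι] in
theorem BDisc_yr (H : BCo h k Po a i σ δ Q) {x : Rn 3}
    (hx : x ∈ h '' thickening δ (bSt a) \ bGa h a δ) : k x ∈ bYr a := by
  obtain ⟨h1, h2⟩ := H.hk hx.1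
  exact (H.not_ga h2).1 (h1.symm ▸ hx.2)

omit [Finite ι] in
theorem BDisc_ess (H : BCo h k Po a i σ δ Q) (W : BWd h k a i o δ Q R s L m) {e : ι} (he : e ≠ o)
    {c₀ : ℝ} (c0 : 0 < c₀) (cR : c₀ ≤ R) {u : Rn 2 → Rn 3} (hu : Continuous u)
    (h1 : ∀ x, ‖x‖ = 1 → u x = h (a o) + pem (i o) (s o) (c₀ • x))
    (h2 : ∀ x, ‖x‖ ≤ 1 → u x ∈ h '' thickening δ (bSt a) \ bGa h a δ ∨
      ∃ e', e' ≠ o ∧ e' ≠ e ∧ dist (u x) (h (a e')) ≤ R) : False := by
  have key : ∀ x, ‖x‖ ≤ 1 → 0 < slam (k (u x)) ∧ ste (k (u x)) ≠ ste (a e) := fun x hx => by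
    rcases h2 x hx with p | ⟨e', p1, p2, p3⟩
    · have := (mem_bYr W.ao H.ne H.dir).1 (BDisc_yr H p)
      exact ⟨this.1, this.2 e he⟩
    · refine ⟨W.pos e' p1 _ p3, fun q => ?_⟩
      have q1 := W.near e' p1 _ p3
      have q2 := W.sep e e' he p1 p2.symm
      rw [q] at q1
      linarith
  have hc : ContinuousOn (fun x => ste (k (u x))) (closedBall 0 1) :=
    contOn_ste.comp (H.kc.comp hu).continuousOn fun x hx => (key x (by simpa using hx)).1
  have hw : ∀ x ∈ sphere (0 : Rn 2) 1, c₀ • x ≠ 0 ∧ ‖c₀ • x‖ ≤ R := fun x hx => by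
    have e1 : ‖c₀ • x‖ = c₀ := by
      rw [norm_smul, mem_sphere_zero_iff_norm.1 hx, mul_one, Real.norm_of_nonneg c0.le]
    exact ⟨norm_pos_iff.1 (e1.symm ▸ c0), e1.symm ▸ cR⟩
  have hb : ∀ x ∈ sphere (0 : Rn 2) 1, ‖ste (a e)‖ < ‖ste (k (u x))‖ := fun x hx => by
    rw [h1 x (mem_sphere_zero_iff_norm.1 hx)]
    exact W.far e _ ((dist_pem (W.sg o) _ _).trans_le (hw x hx).2)
      (BDisc_yr H (BDisc_flat H W o (hw x hx).1 (hw x hx).2))
  have hn : ∀ x ∈ sphere (0 : Rn 2) 1, ste (k (u x)) ≠ 0 := fun x hx =>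
    norm_pos_iff.1 ((norm_nonneg _).trans_lt (hb x hx))
  have hs : ∀ x ∈ sphere (0 : Rn 2) 1, 1 + -(ste (a e) / ste (k (u x))) ∈ Complex.slitPlane :=
    fun x hx => Complex.mem_slitPlane_of_norm_lt_one (by
      rw [norm_neg, norm_div, div_lt_one ((norm_nonneg _).trans_lt (hb x hx))]
      exact hb x hx)
  refine no_log (u := fun x => ste (k (u x)) - ste (a e))
    (L := fun x => (Real.log c₀ : ℝ) + L o (c₀ • x) +
      Complex.log (1 + -(ste (a e) / ste (k (u x))))) (hc.sub continuousOn_const)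
    (fun x hx => sub_ne_zero.2 (key x (by simpa using hx)).2) ?_ fun x hx => ?_
  · refine (continuousOn_const.add ((W.Lc o).comp (by fun_prop) hw)).add (ContinuousOn.clog ?_ hs)
    exact continuousOn_const.add
      (continuousOn_const.div (hc.mono sphere_subset_closedBall) hn).neg
  · have e1 := W.log o _ (hw x hx).1 (hw x hx).2
    rw [W.ao, ste_pole, sub_zero, ← W.ao, ← h1 x (mem_sphere_zero_iff_norm.1 hx), map_smul] at e1
    have e2 := hn x hx
    rw [Complex.exp_add, Complex.exp_add, Complex.exp_log (Complex.slitPlane_ne_zero (hs x hx)),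
      ← Complex.ofReal_exp, Real.exp_log c0, ← mul_assoc, ← mul_assoc, mul_comm (cx x),
      ← Complex.real_smul, ← e1]
    field_simp
    ring

theorem exists_disc (H : BCo h k Po a i σ δ Q) (W : BWd h k a i o δ Q R s L m) {r ρ : ℝ}
    {c : ι → Rn 2} {g : Rn 2 → Rn 3} (hr : r ≤ R) (hs : BSf (fun e => h (a e)) i o s r c ρ g)
    (hg : ∀ x ∈ bP0 o c ρ, g x ∈ h '' thickening δ (bSt a) \ bGa h a δ ∧
      (g x ∈ Po ∨ ∃ e, g x ∈ fsq (h (a e)) (i e) R)) :
    ∃ c₀, 0 < c₀ ∧ c₀ ≤ R ∧ ∀ ε > 0, ∃ ht B S,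
      BPre (h '' thickening δ (bSt a)) (bGa h a δ) Po (fun e => h (a e)) i o R c₀ ε ht B S := by
  classical
  have r0 := hs.r0
  have ρ0 := hs.ρ0
  have R0 := W.R0
  have RQ := W.RQ
  obtain ⟨c₁, c1, hc1⟩ : ∃ c₁ > 0, ∀ e, ∀ x ∈ bP0 o c ρ, c₁ < dist (g x) (h (a e)) := by
    have cl : IsClosed (g '' bP0 o c ρ) := ((compact_bP0 o c ρ).image hs.gc).isClosed
    have : ∀ e, ∀ᶠ t in 𝓝[>] (0 : ℝ), ∀ x ∈ bP0 o c ρ, t < dist (g x) (h (a e)) := fun e => by
      have hn : h (a e) ∈ (g '' bP0 o c ρ)ᶜ := fun ⟨x, hx, e1⟩ =>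
        (hg x hx).1.2 (e1 ▸ H.mark_ga e)
      obtain ⟨t, t0, ht⟩ := Metric.isOpen_iff.1 cl.isOpen_compl _ hn
      filter_upwards [Ioo_mem_nhdsGT t0] with t' ht' x hx
      exact lt_of_lt_of_le ht'.2 (not_lt.1 fun q => ht q ⟨x, hx, rfl⟩)
    obtain ⟨t, h1, h2⟩ := ((eventually_all.2 this).and self_mem_nhdsWithin).exists
    exact ⟨t, h2, h1⟩
  obtain ⟨c₀, c0, k1, k2⟩ : ∃ c₀ > 0, 2 * c₀ ≤ c₁ ∧ 2 * c₀ ≤ r :=
    ⟨min c₁ r / 2, by positivity, by linarith only [min_le_left c₁ r], by linarith [min_le_right c₁ r]⟩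
  refine ⟨c₀, c0, by linarith, fun ε ε0 => ?_⟩
  obtain ⟨G, g1, g2, g3, g4⟩ := BDisc_map (c₀ := c₀) hs
  have κ0 : 0 ≤ 4 * r - 7 * c₀ := by linarith
  have n3 : ∀ x, 1 / 4 ≤ ‖x‖ → ‖x‖ ≤ 1 → c₀ * (2 - ‖x‖) ≤ ‖rinv c₀ (4 * r - 7 * c₀) x‖ ∧
      ‖rinv c₀ (4 * r - 7 * c₀) x‖ ≤ r ∧
      (1 / 2 ≤ ‖x‖ → ‖rinv c₀ (4 * r - 7 * c₀) x‖ = c₀ * (2 - ‖x‖)) := fun x h1 h2 => by
    rw [norm_rinv c0 κ0 h1 h2]
    have a1 : 0 ≤ max (1 / 2 - ‖x‖) 0 := le_max_right _ _
    have a2 : max (1 / 2 - ‖x‖) 0 ≤ 1 / 4 := max_le (by linarith only [h1]) (by norm_num)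
    refine ⟨le_add_of_nonneg_right (mul_nonneg κ0 a1), by linarith only [r0, a2, c0, h1, k2, mul_nonneg_of_nonpos_of_nonpos (le_of_lt (Mathlib.Tactic.Linarith.sub_neg_of_lt r0)) (Mathlib.Tactic.Linarith.sub_nonpos_of_le a2), mul_nonneg_of_nonpos_of_nonpos (le_of_lt (Mathlib.Tactic.Linarith.sub_neg_of_lt c0)) (Mathlib.Tactic.Linarith.sub_nonpos_of_le h1), mul_nonneg_of_nonpos_of_nonpos (Mathlib.Tactic.Linarith.sub_nonpos_of_le k2) (Mathlib.Tactic.Linarith.sub_nonpos_of_le a2)], fun h3 => ?_⟩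
    rw [max_eq_right (by linarith only [h3]), mul_zero, add_zero]
  have n4 : ∀ e x, dist x (c e) ≤ ρ → ‖(r / ρ) • (x - c e)‖ ≤ r := fun e x hx => by
    rw [norm_smul, Real.norm_of_nonneg (by positivity), ← dist_eq_norm, div_mul_eq_mul_div,
      div_le_iff₀ ρ0]
    exact mul_le_mul_of_nonneg_left hx r0.le
  have n5 : ∀ e, e ≠ o → ∀ x, dist x (c e) ≤ ρ → ‖x‖ < 1 / 4 := fun e he x hx => by
    have h2 := hs.cin e he
    have h3 : ‖x‖ ≤ ‖c e‖ + dist x (c e) := by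
      rw [dist_eq_norm]
      exact norm_le_norm_add_norm_sub' _ _
    linarith only [hx, h2, h3]
  have d3 : ∀ x, 1 / 4 ≤ ‖x‖ → dist (G x) (h (a o)) = ‖rinv c₀ (4 * r - 7 * c₀) x‖ :=
    fun x hx => by rw [g3 x hx, dist_pem (W.sg o)]
  have d4 : ∀ e, e ≠ o → ∀ x, dist x (c e) ≤ ρ →
      dist (G x) (h (a e)) = ‖(r / ρ) • (x - c e)‖ :=
    fun e he x hx => by rw [g4 e he x hx, dist_pem (W.sg e)]
  have loc : ∀ e x, ‖x‖ ≤ 1 → dist (G x) (h (a e)) ≤ 2 * c₀ →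
      (e = o ∧ 1 / 4 ≤ ‖x‖) ∨ (e ≠ o ∧ dist x (c e) ≤ ρ) := fun e x hx hd => by
    rcases BDisc_tri o c ρ x with p | p | ⟨e', p1, p2⟩
    · have := hc1 e x p
      rw [← g2 p] at this
      linarith
    · exact Or.inl ⟨H.disj e o (G x) (by linarith only [hr, RQ, c0, k2, hd])
        (by rw [d3 x p]; linarith only [hr, RQ, c0, k2, n3, p, hx, (n3 x p hx).2.1]), p⟩
    · obtain rfl := H.disj e e' (G x) (by linarith)
        (by rw [d4 e' p1 x p2]; linarith only [hr, RQ, c0, k2, n4, p2, n4 e' x p2])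
      exact Or.inr ⟨p1, p2⟩
  have f3 : ∀ x, 1 / 4 ≤ ‖x‖ → ‖x‖ ≤ 1 → G x ∈ h '' thickening δ (bSt a) \ bGa h a δ ∧
      G x ∈ fsq (h (a o)) (i o) R := fun x h1 h2 => by
    obtain ⟨p1, p2, -⟩ := n3 x h1 h2
    refine ⟨g3 x h1 ▸ BDisc_flat H W o (norm_pos_iff.1 (lt_of_lt_of_le ?_ p1)) (p2.trans hr),
      (mem_fsq (W.sg o)).2 ⟨_, p2.trans hr, g3 x h1⟩⟩
    exact mul_pos c0 (by linarith only [h2])
  let Z : Set (Rn 3) := Po ∪ ⋃ e, {x | dist x (h (a e)) < 2 * R ∧ |x (i e) - h (a e) (i e)| < ε}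
  have Zf : ∀ e, fsq (h (a e)) (i e) R ⊆ Z := fun e x hx =>
    Or.inr (mem_iUnion.2 ⟨e, by linarith [hx.1], by rw [hx.2, sub_self, abs_zero]; exact ε0⟩)
  let O : Set (Rn 3) := ((h '' thickening δ (bSt a) \ bGa h a δ) ∩ Z ∪
    ⋃ e : {e // e ≠ o}, ball (h (a e)) c₀) \ closedBall (h (a o)) c₀
  have hO : IsOpen O := by
    refine IsOpen.sdiff (IsOpen.union (IsOpen.inter (H.opn'.sdiff H.compact_ga.isClosed)
      (H.opn.union (isOpen_iUnion fun e => ?_))) (isOpen_iUnion fun _ => isOpen_ball))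
      isClosed_closedBall
    exact (isOpen_lt (f := fun x => dist x (h (a e))) (by fun_prop) continuous_const).inter
      (isOpen_lt (f := fun x : Rn 3 => |x (i e) - h (a e) (i e)|) (by fun_prop) continuous_const)
  obtain ⟨D, η, η0, η1, t1, t2, t3, t4, t5⟩ := dehn (g := G)
    (g0 := fun x => h (a o) + pem (i o) (s o) (rinv c₀ (4 * r - 7 * c₀) x)) g1
    ((TP.const _).add (tp_pem.comp tp_rinv)) (fun x h1 _ => g3 x (by linarith only [h1]))
    (fun x y h1 h2 h3 h4 => by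
      have p := (n3 x (by linarith only [h1]) h2).2.2 h1
      rcases loc o y h3 (by rw [h4, d3 x (by linarith only [h1]), p]; linarith only [c0, h1, mul_nonneg_of_nonpos_of_nonpos (le_of_lt (Mathlib.Tactic.Linarith.sub_neg_of_lt c0)) (Mathlib.Tactic.Linarith.sub_nonpos_of_le h1)]) with q | q
      · rw [g3 y q.2, g3 x (by linarith only [h1])] at h4
        exact rinv_inj c0 κ0 ⟨q.2, h3⟩ ⟨by linarith only [h1], h2⟩ (pem_inj (W.sg o) (add_left_cancel h4))
      · exact absurd rfl q.1)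
    (ι := {e // e ≠ o}) (a := fun e j => h (a e) j - 2 * c₀) (b := fun e j => h (a e) j + 2 * c₀)
    (a' := fun e j => h (a e) j - c₀) (b' := fun e j => h (a e) j + c₀) (k := fun e => i e)
    (c := fun e => h (a e) (i e)) (fun e j => ⟨by linarith, by linarith⟩)
    (fun e x h1 h2 => by
      have p := ((loc e x h1 (BDisc_icc.1 h2)).resolve_left fun q => e.2 q.1).2
      exact ⟨by rw [g4 e e.2 x p, Pi.add_apply, pem_self, add_zero],
        by linarith only [n5, p, n5 e e.2 x p]⟩)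
    (fun e x hx y hy h4 => by
      have p := ((loc e x hx.1 (BDisc_icc.1 hx.2)).resolve_left fun q => e.2 q.1).2
      have q := ((loc e y hy.1 (BDisc_icc.1 hy.2)).resolve_left fun q => e.2 q.1).2
      rw [g4 e e.2 x p, g4 e e.2 y q] at h4
      exact sub_left_injective (smul_right_injective _ (div_pos r0 ρ0).ne'
        (pem_inj (W.sg e) (add_left_cancel h4))))
    (fun e z h1 h2 => by
      obtain ⟨w, w1, rfl⟩ := (mem_fsq (W.sg e)).1 ⟨BDisc_icc.1 h1, h2⟩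
      have p : dist (c e + (ρ / r) • w) (c e) ≤ ρ := by
        rw [dist_eq_norm, add_sub_cancel_left, norm_smul, Real.norm_of_nonneg (by positivity),
          div_mul_eq_mul_div, div_le_iff₀ r0]
        exact mul_le_mul_of_nonneg_left (w1.trans k2) ρ0.le
      refine ⟨c e + (ρ / r) • w, by linarith only [n5, p, n5 e e.2 _ p], ?_⟩
      rw [g4 e e.2 _ p, add_sub_cancel_left, smul_smul,
        show r / ρ * (ρ / r) = 1 by field_simp, one_smul])
    hO (fun x hx => by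
      refine ⟨?_, fun q => ?_⟩
      · rcases BDisc_tri o c ρ x with p | p | ⟨e, p1, p2⟩
        · rw [g2 p]
          exact Or.inl ⟨(hg x p).1, (hg x p).2.elim Or.inl fun ⟨e, q⟩ => Zf e q⟩
        · exact Or.inl ⟨(f3 x p (by linarith only [hx])).1, Zf o (f3 x p (by linarith only [hx])).2⟩
        · by_cases q : (r / ρ) • (x - c e) = 0
          · refine Or.inr (mem_iUnion.2 ⟨⟨e, p1⟩, ?_⟩)
            rw [mem_ball, d4 e p1 x p2, q, norm_zero]
            exact c0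
          · exact Or.inl ⟨g4 e p1 x p2 ▸ BDisc_flat H W e q ((n4 e x p2).trans hr),
              Zf e ((mem_fsq (W.sg e)).2 ⟨_, (n4 e x p2).trans hr, g4 e p1 x p2⟩)⟩
      · have q' : dist (G x) (h (a o)) ≤ c₀ := q
        rcases loc o x (by linarith only [hx]) (by linarith) with p | p
        · rw [d3 x p.2] at q'
          linarith only [c0, q', n3, p, hx, (n3 x p.2 (by linarith)).1, mul_nonneg_of_nonpos_of_nonpos (le_of_lt (Mathlib.Tactic.Linarith.sub_neg_of_lt c0)) (Mathlib.Tactic.Linarith.sub_nonpos_of_le hx)]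
        · exact p.1 rfl)
    (fun e u hu h1 h2 => by
      by_contra q
      refine BDisc_ess H W e.2 c0 (by linarith) hu (fun x hx => ?_) fun x hx => ?_
      · rw [h1 x (by linarith only [hx]) hx.le, g3 x (by linarith only [hx]), rinv_out hx]
      · rcases le_total ‖x‖ (3 / 4) with p | p
        · rcases (h2 x p).1 with p1 | p1
          · exact Or.inl p1.1
          · obtain ⟨e', p2⟩ := mem_iUnion.1 p1
            have p3 : dist (u x) (h (a e')) < c₀ := p2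
            refine Or.inr ⟨e', e'.2, fun p4 => q ⟨x, hx, BDisc_icc.2 ?_⟩, by linarith only [hr, c0, k2, p3]⟩
            exact p4 ▸ p3.le
        · exact Or.inl (h1 x p hx ▸ (f3 x (by linarith only [p]) hx).1))
    (half_pos ε0)
  choose ht h1 h2 using t5
  have eJ : D '' sphere 0 1 = (fun w => h (a o) + pem (i o) (s o) (c₀ • w)) '' sphere 0 1 :=
    image_congr fun x hx => by
      have e1 := mem_sphere_zero_iff_norm.1 hx
      rw [t3 x (by linarith only [e1]) e1.le, g3 x (by linarith only [e1]), rinv_out e1]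
  have P2 := fsq_pdsc (i := i o) (W.sg o) (h (a o)) c0
  have near : ∀ x, ‖x‖ ≤ 1 → dist (D x) (h (a o)) ≤ c₀ → ‖x‖ = 1 := fun x hx hd => by
    rcases le_total ‖x‖ (3 / 4) with p | p
    · exact absurd hd (t4 x p).2
    · rw [t3 x p hx, d3 x (by linarith only [p]), (n3 x (by linarith only [p]) hx).2.2 (by linarith only [p])] at hd
      nlinarith
  rw [← eJ] at P2
  obtain ⟨B, hB⟩ := len_two (⟨D, t1, t2, rfl, rfl⟩ : PDsc (D '' closedBall 0 1) (D '' sphere 0 1))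
    P2 (Subset.antisymm (by
      rintro _ ⟨⟨x, hx, rfl⟩, q⟩
      exact ⟨x, mem_sphere_zero_iff_norm.2 (near x (by simpa using hx) q.1), rfl⟩)
      (subset_inter (image_mono sphere_subset_closedBall) P2.sub))
  have cases : ∀ z ∈ D '' closedBall 0 1 ∪ fsq (h (a o)) (i o) c₀,
      z ∈ (h '' thickening δ (bSt a) \ bGa h a δ) ∩ Z ∨ z ∈ fsq (h (a o)) (i o) c₀ ∨
        ∃ e : {e // e ≠ o}, dist z (h (a e)) < c₀ ∧ z (i e) = h (a e) (i e) + ht e := by
    rintro z (⟨x, hx, rfl⟩ | hz)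
    · have hx' : ‖x‖ ≤ 1 := by simpa using hx
      rcases le_total ‖x‖ (3 / 4) with p | p
      · rcases (t4 x p).1 with p1 | p1
        · exact Or.inl p1
        · obtain ⟨e, p2⟩ := mem_iUnion.1 p1
          exact Or.inr (Or.inr ⟨e, p2, h2 e x hx' (BDisc_icc.2 (le_of_lt p2))⟩)
      · rw [t3 x p hx']
        exact Or.inl ⟨(f3 x (by linarith only [p]) hx').1, Zf o (f3 x (by linarith only [p]) hx').2⟩
    · exact Or.inr (Or.inl hz)
  refine ⟨fun e => if he : e = o then 0 else ht ⟨e, he⟩, B, _, hB.ball, fun z hz => ?_,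
    fun z hz q => ?_, fun z hz => ?_, Or.inr ⟨by rw [dist_self]; exact c0.le, rfl⟩, fun e => ?_,
    fun e z hz q => ?_⟩
  · rcases cases z hz with p | p | ⟨e, p, -⟩
    · exact p.1.1
    · exact W.sub o (mem_closedBall.2 (by linarith only [hr, c0, k2, p, p.1]))
    · exact W.sub e (mem_closedBall.2 (by linarith only [hr, c0, k2, p]))
  · rcases cases z hz with p | p | ⟨e, p, -⟩
    · exact absurd q p.1.2
    · exact ⟨o, by rw [H.wall q (by linarith only [hr, RQ, c0, k2, p, p.1]) p.2, dist_self]; exact c0⟩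
    · exact ⟨e, p⟩
  · have : z ∈ Z := by
      rcases cases z hz with p | p | ⟨e, p, p'⟩
      · exact p.2
      · exact Zf o ⟨by linarith [p.1], p.2⟩
      · refine Or.inr (mem_iUnion.2 ⟨e, by linarith only [hr, c0, k2, p], ?_⟩)
        rw [p', add_sub_cancel_left, h1]
        linarith
    exact this.imp id mem_iUnion.1
  · by_cases he : e = o
    · rw [dif_pos he, abs_zero]
      linarith only [η0, η1]
    · rw [dif_neg he, h1]
      exact η1
  · by_cases he : e = o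
    · rw [dif_pos he, add_zero]
      subst he
      rcases hz with ⟨x, hx, rfl⟩ | hz
      · have e1 := near x (by simpa using hx) q
        exact (P2.sub ⟨x, mem_sphere_zero_iff_norm.2 e1, rfl⟩).2
      · exact hz.2
    · rw [dif_neg he]
      rcases hz with ⟨x, hx, rfl⟩ | hz
      · exact h2 ⟨e, he⟩ x (by simpa using hx) (BDisc_icc.2 q)
      · exact absurd (H.disj e o z (by linarith only [hr, RQ, c0, k2, q]) (by linarith only [hr, RQ, c0, k2, hz, hz.1])) he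

end BEp
end
end

-- merged part: Pool.Agent.Work.MP_f0515e_an.D3.BFin
section
/-! Star balls: the properties of the final ball.
`ray`: for `1 < t₀ ≤ T` (`exit`) the connected set `h (t • a e)`, `t₀ ≤ t ≤ T`, misses `S` (`av`, `ray_inj`) and its end is not in `B`.
The open upper half of the cube of radius `Q` misses `S` and contains `h (T • a e)` (`out`), so it misses `B`. `ball_half` at the mark
`o`, points of the leg near the mark lie in the lower half, so the leg and `h 0` lie in `B \ S`. If a mark were not in `S` the whole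
ray up to `T` would miss `S`. `inn`: `thin`, `loc`, `wall_closure`, `Ball.closure_out`. About 200 lines. -/

open Set Metric Filter Topology Function BEv
open scoped NNReal

noncomputable section
namespace BEp

variable {E : Type} [NormedAddCommGroup E] [NormedSpace ℝ E] [FiniteDimensional ℝ E] {ι : Type}
  [Finite ι] {a : ι → E} {h : E → Rn 3} {k : Rn 3 → E} {Po B S : Set (Rn 3)} {i : ι → Fin 3}
  {σ r : ι → ℝ} {δ Q : ℝ} {o : ι}

theorem BCo.final (H : BCo h k Po a i σ δ Q) (hr : ∀ e, 0 < r e ∧ r e < Q)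
    (P : BPost (h '' thickening δ (bSt a)) (bGa h a δ) Po (fun e => h (a e)) i o r B S) :
    StarBall h (thickening δ (bSt a)) Po 0 a i σ r B S := by
  have hB := P.ball
  choose T T1 T2 T3 T4 using H.exit
  have same : ∀ e s t, 0 ≤ s → s ≤ t → t ≤ T e → (s ≤ 1 → 1 ≤ t → h (a e) ∉ S) →
      (h (s • a e) ∈ B → h (t • a e) ∈ B \ S) := fun e s t h0 h1 h2 h3 hs => by
    have c : IsPreconnected ((fun u : ℝ => h (u • a e)) '' Icc s t) :=
      isPreconnected_Icc.image _ (H.hc.comp (by fun_prop)).continuousOn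
    refine (hB.side c (disjoint_left.2 ?_)).elim (fun k => k ⟨t, ⟨h1, le_rfl⟩, rfl⟩) fun k =>
      (disjoint_left.1 k ⟨s, ⟨le_rfl, h1⟩, rfl⟩ hs).elim
    rintro _ ⟨u, hu, rfl⟩ k
    have m := T2 e u ⟨h0.trans hu.1, hu.2.trans h2⟩
    obtain ⟨e', he⟩ := P.av _ k ⟨e, u, h0.trans hu.1, m, rfl⟩
    obtain ⟨rfl, -⟩ := H.ray_inj (h0.trans hu.1) m he
    exact h3 hu.1 hu.2 (by simpa using k)
  have nT : ∀ e, h (T e • a e) ∉ B := fun e k => T3 e (P.sub k)
  have up : ∀ e x, dist x (h (a e)) < Q → 0 < σ e * (x (i e) - h (a e) (i e)) → x ∉ B :=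
    fun e x h1 h2 => by
      refine (hB.side (convex_half' (h (a e)) Q (i e) (σ e)).isPreconnected
        (disjoint_left.2 fun z hz k => ?_)).elim (fun k => (nT e (k (H.out e _ (T1 e)
          (T2 e _ ⟨by linarith [T1 e], le_rfl⟩))).1).elim) fun k => disjoint_left.1 k ⟨h1, h2⟩
      rcases P.po z k with k | ⟨e', k1, k2⟩
      · exact ((H.loc e z hz.1.le).1 k).not_gt hz.2
      · obtain rfl := H.disj e e' z hz.1.le (k1.trans (hr e').2.le)
        simpa [k2] using hz.2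
  have hf := fun e (he : h (a e) ∈ S) => ball_half hB he (hr e).1 (H.sgn e) (P.sh e)
    fun x h1 => up e x (h1.trans_lt (hr e).2)
  have z0 : ∀ e, h ((0 : ℝ) • a e) ∈ B := fun e => by
    have c : ContinuousAt (fun u : ℝ => dist (h (u • a o)) (h (a o))) 1 :=
      ((H.hc.comp (by fun_prop)).dist continuous_const).continuousAt
    obtain ⟨t, t1, t2⟩ := (((c.eventually (gt_mem_nhds (a := r o)
      (by simpa using (hr o).1))).filter_mono nhdsWithin_le_nhds).and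
        (Ioo_mem_nhdsLT (zero_lt_one' ℝ))).exists
    have m : h (t • a o) ∈ B := ((hf o P.yo).2 _ t1.le).2
      ((H.loc o _ (t1.trans (hr o).2).le).1 (H.inn o t ⟨t2.1.le, t2.2⟩)).le
    by_contra k
    have c : IsPreconnected ((fun u : ℝ => h (u • a o)) '' Icc 0 t) :=
      isPreconnected_Icc.image _ (H.hc.comp (by fun_prop)).continuousOn
    rw [zero_smul, ← zero_smul ℝ (a o)] at k
    refine (hB.side c (disjoint_left.2 ?_)).elim (fun l => k (l ⟨0, ⟨le_rfl, t2.1.le⟩, rfl⟩).1)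
      fun l => disjoint_left.1 l ⟨t, ⟨t2.1.le, le_rfl⟩, rfl⟩ m
    rintro _ ⟨u, hu, rfl⟩ l
    have m := T2 o u ⟨hu.1, by linarith [hu.2, t2.2, T1 o]⟩
    obtain ⟨e', he⟩ := P.av _ l ⟨o, u, hu.1, m, rfl⟩
    linarith [(H.ray_inj hu.1 m he).1, hu.2, t2.2]
  have mk : ∀ e, h (a e) ∈ S := fun e => by_contra fun k =>
    nT e (same e 0 _ le_rfl (by linarith [T1 e]) le_rfl (fun _ _ => k) (z0 e)).1
  refine ⟨hB, P.sub, fun x hx => ?_, fun e => ?_, fun e => ?_, fun e x hx => ?_,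
    fun e t ht => ?_, fun e t ht hm k => ?_, fun e e' ne => ?_⟩ <;> simp only [zero_add] at *
  · by_cases hS : x ∈ S
    · exact P.po x hS
    obtain ⟨q, hq, rfl⟩ := P.sub hx
    refine (H.thin q hq).elim .inl fun ⟨e, he⟩ => .inl ((H.loc e _ he.le).2 ?_)
    refine (not_lt.1 fun k => up e _ he k hx).lt_of_ne fun k => ?_
    have s0 : σ e ≠ 0 := by rcases H.sgn e with l | l <;> simp [l]
    have d0 : 0 ≤ dist (h q) (h (a e)) := dist_nonneg
    have w := wall_closure (x := h q) (y := h (a e)) (ρ := (dist (h q) (h (a e)) + Q) / 2)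
      (by linarith only [he, d0, H.Q0]) (H.sgn e) (by linarith)
      (sub_eq_zero.1 ((mul_eq_zero.1 k).resolve_left s0))
    have : h q ∈ closure Bᶜ :=
      closure_mono (fun z hz => up e z (lt_of_le_of_lt hz.1 (by linarith)) hz.2) w
    rw [hB.closure_out] at this
    exact this.elim (fun l => l hx) hS
  · exact (hf e (mk e)).1
  · exact (hf e (mk e)).2
  · exact H.loc e x (hx.trans (hr e).2.le)
  · exact same e 0 t le_rfl ht.1 (by linarith [ht.2, T1 e]) (fun _ k => (ht.2.not_ge k).elim) (z0 e)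
  · exact nT e (same e t _ (by linarith) (T4 e t (thickening_subset_cthickening _ _ hm)) le_rfl
      (fun l => (ht.not_ge l).elim) k).1
  · exact disjoint_left.2 fun x h1 h2 => ne (H.disj e e' x ((mem_closedBall.1 h1).trans (hr e).2.le)
      ((mem_closedBall.1 h2).trans (hr e').2.le))

end BEp
end
end
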