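import Pool.Agent.Work.MP_f0515e_an.D3.CTop
import Pool.Agent.Work.MP_f0515e_an.D3.PCel1
import Pool.Agent.Work.MP_f0515e_an.D3.PUp
import Pool.Agent.Work.MP_f0515e_an.D3.PMod2

-- merged part: Pool.Agent.Work.MP_f0515e_an.D3.KBall
section
/-! TASK KBall. Convex polyhedra are standard balls.
Plan. The frontier of `B` lies in finitely many hyperplanes (`exists_adapted`: a face of full dimension inside `B` is open), so after a linear
change of coordinates (`lh_aff`) no segment of the frontier is parallel to the last axis. The projection `B'` is a convex polyhedron with interior, an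
interval for `n = 2` (affine normalisation), a ball by `ball_convex2` for `n = 3` (use `up`, `lp_up`); so `B' ` is the unit cube. `hi y`, `lo y` = largest and smallest
height over `y` are TP on `B'` (`Poly.exists_min` applied to `t + M ‖y - y'‖` with Lojasiewicz, or `Poly.ext` on the upper boundary, which projects injectively). Shear
(`lh_vert`) so that `lo = -w`, `hi = w`; `w` vanishes exactly on the boundary of the cube, so `κ w ≤ d ≤ M w` for `d = 1 - ‖y‖` (`Poly.loj`); the vertical map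
`t ↦ κ t + clamp (M t) (max (d - κ w) 0)` (`lh_vert`) sends `B` to `oct`, which is a ball (`pfill_idlen`, `Len.ball`, `Ball.frontier_eq`). Any other proof is fine.
`Kx.pdsc`: affine chart of the plane of `σ`, `Ball.pcel`, `PCel.image`; the frontier in the chart is `closure σ \ σ` by `relopen` and `seg_mem`. About 350 lines. -/

open Set Metric Filter Topology Function BEv
open scoped NNReal ENNReal

noncomputable section
namespace BEp

section
variable {n : ℕ}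

/-- Projection along `v`. -/
def kbP (v : Rn (n + 1)) : Rn (n + 1) →L[ℝ] Rn n :=
  ContinuousLinearMap.pi fun j =>
    ContinuousLinearMap.proj j.succ - v j.succ • ContinuousLinearMap.proj 0

theorem kbP_apply (v x : Rn (n + 1)) (j : Fin n) : kbP v x j = x j.succ - v j.succ * x 0 := rfl

theorem kbP_cons (v : Rn (n + 1)) (y : Rn n) : kbP v (Matrix.vecCons 0 y) = y := by
  ext j
  simp [kbP_apply]

theorem kbP_open (v : Rn (n + 1)) : IsOpenMap (kbP v) :=
  (kbP v).isOpenMap fun y => ⟨_, kbP_cons v y⟩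

theorem kbP_add {v : Rn (n + 1)} (hv : v 0 = 1) (x : Rn (n + 1)) (t : ℝ) :
    kbP v (x + t • v) = kbP v x := by
  ext j
  simp only [kbP_apply, Pi.add_apply, Pi.smul_apply, smul_eq_mul, hv]
  ring

theorem kbP_ext {v x x' : Rn (n + 1)} (hv : v 0 = 1) (h : kbP v x' = kbP v x) :
    x' = x + (x' 0 - x 0) • v := by
  ext j
  refine Fin.cases ?_ (fun j => ?_) j
  · simp [hv]
  · have := congrFun h j
    simp only [kbP_apply] at this
    simp only [Pi.add_apply, Pi.smul_apply, smul_eq_mul]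
    linarith

theorem kb_near {m : ℕ} {x : Rn m} {O : Set (Rn m)} (hO : O ∈ 𝓝 x) (w : Rn m) :
    ∃ δ : ℝ, 0 < δ ∧ x + δ • w ∈ O := by
  have h : Tendsto (fun δ : ℝ => x + δ • w) (𝓝[>] 0) (𝓝 x) :=
    (Continuous.tendsto' (by fun_prop) 0 x (by simp)).mono_left nhdsWithin_le_nhds
  exact ((eventually_mem_nhdsWithin (s := Ioi (0 : ℝ))).and (h.eventually hO)).exists

theorem kb_line {m : ℕ} {B : Set (Rn m)} (hc : Convex ℝ B) {x v : Rn m} {a b t : ℝ}
    (ha : x + a • v ∈ B) (hb : x + b • v ∈ B) (h1 : a ≤ t) (h2 : t ≤ b) : x + t • v ∈ B := by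
  have h : Convex ℝ {t : ℝ | x + t • v ∈ B} := fun a ha b hb s t hs ht hst => by
    have h3 := hc ha hb hs ht hst
    have h4 : s • (x + a • v) + t • (x + b • v) = x + (s • a + t • b) • v := by
      rw [show s = 1 - t by linarith]
      simp only [smul_eq_mul]
      module
    rwa [h4] at h3
  exact h.ordConnected.out ha hb ⟨h1, h2⟩

theorem kb_top {B : Set (Rn (n + 1))} (hB : Poly B) (hc : Convex ℝ B) {v : Rn (n + 1)}
    (hv : v 0 = 1) {σ : ℝ} (hσ : σ ≠ 0) : ∃ h : Rn n → ℝ, TP h ∧ ∀ x ∈ B,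
      σ * x 0 ≤ σ * h (kbP v x) ∧ x + (h (kbP v x) - x 0) • v ∈ B := by
  obtain ⟨L, hL, -, hLB⟩ := exists_adapted finite_empty hB
  have hU : Poly {x ∈ B | ∀ x' ∈ B, kbP v x' = kbP v x → σ * x' 0 ≤ σ * x 0} := by
    refine poly_lower hL (hB.1.isBounded.subset fun _ h => h.1) fun x hx y hy => ⟨?_, ?_⟩
    · rw [← closure_face] at hy
      exact closure_minimal (hLB x hx.1) hB.1.isClosed hy
    · intro x' hx' he
      obtain ⟨ε, hε, h1⟩ := face_open hL (mem_face_self L x)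
      obtain ⟨δ, hδ, h2⟩ := kb_near (ball_mem_nhds x hε) (x - y)
      have h3 : x + δ • (x - y) ∈ B := hLB x hx.1 (h1 _ (by
        rw [add_sub_cancel_left, ← neg_sub]
        exact Submodule.smul_mem _ _ (neg_mem (sub_mem_fdir hy))) (mem_ball_iff_norm.1 h2))
      have h4 := hc h3 hx' (a := 1 / (1 + δ)) (b := δ / (1 + δ)) (by positivity) (by positivity)
        (by field_simp)
      have h5 : (1 / (1 + δ)) • (x + δ • (x - y)) + (δ / (1 + δ)) • x' =
          x + (δ / (1 + δ)) • (x' - y) := by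
        match_scalars <;> field_simp
      rw [h5] at h4
      have h6 := hx.2 _ h4 (by rw [map_add, map_smul, map_sub, he, sub_self, smul_zero, add_zero])
      simp only [Pi.add_apply, Pi.smul_apply, Pi.sub_apply, smul_eq_mul] at h6
      have h7 : 0 < δ / (1 + δ) := by positivity
      nlinarith
  obtain ⟨h, hh, h1⟩ := hU.ext (TP.clm (kbP v)) (fun x hx x' hx' he => by
    have h2 : x' 0 = x 0 := mul_left_cancel₀ hσ
      (le_antisymm (hx.2 x' hx'.1 he.symm) (hx'.2 x hx.1 he))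
    rw [kbP_ext hv he.symm, h2, sub_self, zero_smul, add_zero]) (TP.id'.apply 0)
  refine ⟨h, hh, fun x hx => ?_⟩
  obtain ⟨x', ⟨h2, h3⟩, h4⟩ := (hB.1.inter_right (isClosed_eq (kbP v).continuous
    (continuous_const (y := kbP v x)))).exists_isMaxOn ⟨x, hx, rfl⟩
    (f := fun x => σ * x 0) (by fun_prop)
  have h5 : kbP v x' = kbP v x := h3
  have h6 : h (kbP v x) = x' 0 := h5 ▸ h1 x' ⟨h2, fun z hz he => h4 ⟨hz, he.trans h5⟩⟩
  rw [h6, ← kbP_ext hv h5]
  exact ⟨h4 ⟨hx, rfl⟩, h2⟩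

theorem kb_dir {B : Set (Rn (n + 1))} (hB : Poly B) (hc : Convex ℝ B) :
    ∃ v : Rn (n + 1), v 0 = 1 ∧ ∀ x (a b : ℝ), a < b → x + a • v ∈ B → x + b • v ∈ B →
      ∃ t : ℝ, x + t • v ∈ interior B := by
  obtain ⟨L, hL, -, hLB⟩ := exists_adapted finite_empty hB
  have hf : Finite {A // A ∈ L ∧ A.1 ≠ 0} := (hL.subset fun _ h => h.1).to_subtype
  obtain ⟨w, hw⟩ := Module.Dual.exists_forall_ne_zero_of_forall_exists
    (ι := Option {A // A ∈ L ∧ A.1 ≠ 0})
    (fun o => o.elim (LinearMap.proj 0 : Rn (n + 1) →ₗ[ℝ] ℝ) fun A => A.1.1.toLinearMap) (by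
      rintro (_ | A)
      · exact ⟨1, one_ne_zero⟩
      · by_contra! h
        exact A.2.2 (ContinuousLinearMap.ext h))
  have h0 : w 0 ≠ 0 := hw none
  refine ⟨(w 0)⁻¹ • w, inv_mul_cancel₀ h0, fun x a b hab ha hb => ?_⟩
  by_contra! h
  refine Icc_infinite hab ((hL.image fun A => -ev A x / A.1 ((w 0)⁻¹ • w)).subset fun t ht => ?_)
  have h1 := kb_line hc ha hb ht.1 ht.2
  by_contra h2
  refine h t (mem_interior_iff_mem_nhds.2 ?_)
  obtain ⟨ε, hε, h3⟩ := face_open hL (mem_face_self L (x + t • (w 0)⁻¹ • w))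
  refine mem_of_superset (ball_mem_nhds _ hε) fun z hz =>
    hLB _ h1 (h3 z (fun A hA h4 => ?_) (mem_ball_iff_norm.1 hz))
  by_cases h5 : A.1 = 0
  · rw [h5]
    rfl
  · refine absurd ⟨A, hA, ?_⟩ h2
    have h6 : A.1 ((w 0)⁻¹ • w) ≠ 0 := by
      rw [map_smul]
      exact smul_ne_zero (inv_ne_zero h0) (hw (some ⟨A, hA, h5⟩))
    rw [ev, map_add, map_smul, smul_eq_mul] at h4
    change -ev A x / _ = t
    rw [div_eq_iff h6, ev]
    linarith

theorem kb_real {κ M w d t : ℝ} (hκ : 0 < κ) (hM : 0 ≤ M) (hw : 0 ≤ w) (h1 : κ * w ≤ d)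
    (h2 : d ≤ M * w) : |κ * t + clamp (M * t) (max (d - κ * w) 0)| ≤ d ↔ |t| ≤ w := by
  have hb : 0 ≤ d - κ * w := by linarith
  have h0 : 0 ≤ κ * w := by positivity
  rw [max_eq_left hb]
  constructor
  · intro h
    rw [abs_le] at h ⊢
    constructor <;> by_contra! h3
    · have h4 : M * t ≤ -(d - κ * w) := by nlinarith
      rw [clamp, min_eq_left (by linarith), max_eq_left h4] at h
      nlinarith [h.1]
    · have h4 : d - κ * w ≤ M * t := by nlinarith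
      rw [clamp, min_eq_right h4, max_eq_right (by linarith)] at h
      nlinarith [h.2]
  · intro h
    refine (abs_add_le _ _).trans ?_
    have h3 := abs_clamp_le (c := M * t) hb
    rw [abs_mul, abs_of_pos hκ]
    nlinarith

theorem kb_hz (x : Rn (n + 1)) : ‖hz 0 x‖ = ‖kbP 0 x‖ := by
  refine le_antisymm ((pi_norm_le_iff_of_nonneg (norm_nonneg _)).2 fun j => ?_)
    ((pi_norm_le_iff_of_nonneg (norm_nonneg _)).2 fun j => ?_)
  · refine Fin.cases ?_ (fun j => ?_) j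
    · simp [hz]
    · simpa [hz, kbP_apply] using norm_le_pi_norm (kbP 0 x) j
  · simpa [hz, kbP_apply] using norm_le_pi_norm (hz 0 x) j.succ

theorem kb_of {m : ℕ} {A B S : Set (Rn m)} {Θ : Rn m → Rn m} (k : LH Θ) (hB : Ball B S)
    (h : ∀ x, x ∈ A ↔ Θ x ∈ B) : Ball A (frontier A) := by
  have h1 := hB.image k.inv
  rw [← PMod1_img k h, k.inv_image] at h1
  rwa [h1.frontier_eq]

/-- The region between two graphs over the cube which meet exactly over the boundary. -/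
theorem kb_lens {lo hi : Rn n → ℝ} (hl : TP lo) (hh : TP hi) (h1 : ∀ y, ‖y‖ ≤ 1 → lo y ≤ hi y)
    (h2 : ∀ y, ‖y‖ ≤ 1 → (lo y = hi y ↔ ‖y‖ = 1)) :
    ∃ S, Ball {x : Rn (n + 1) | ‖kbP 0 x‖ ≤ 1 ∧ lo (kbP 0 x) ≤ x 0 ∧ x 0 ≤ hi (kbP 0 x)} S := by
  have hw : TP fun y => (hi y - lo y) / 2 := (hh.sub hl).div_const 2
  have hd : TP fun y : Rn n => 1 - ‖y‖ := (TP.const 1).sub TP.id'.norm_pi
  obtain ⟨M₁, hM₁, k₁⟩ := (Poly.closedBall (0 : Rn n) 1).loj hw hd fun y hy h => by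
    rw [(h2 y (mem_closedBall_zero_iff.1 hy)).2 (by linarith), sub_self, zero_div]
  obtain ⟨M, hM, k₂⟩ := (Poly.closedBall (0 : Rn n) 1).loj hd hw fun y hy h => by
    rw [(h2 y (mem_closedBall_zero_iff.1 hy)).1 (by linarith), sub_self]
  have hκ : 0 < 1 / (M₁ + 1) := by positivity
  have hP : TP fun x : Rn (n + 1) => kbP 0 x := TP.clm _
  have hτ : TP fun x : Rn (n + 1) => x 0 - (hi (kbP 0 x) + lo (kbP 0 x)) / 2 :=
    (TP.id'.apply 0).sub (((hh.comp hP).add (hl.comp hP)).div_const 2)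
  have hu (x : Rn (n + 1)) (t : ℝ) : kbP 0 (update x 0 t) = kbP 0 x := by
    ext j
    simp [kbP_apply]
  have k := lh_vert 0 ((hτ.const_mul (1 / (M₁ + 1))).add ((hτ.const_mul M).clamp
    (((hd.comp hP).sub ((hw.comp hP).const_mul (1 / (M₁ + 1)))).max (TP.const 0)))) hκ
    fun x a b hab => by
      simp only [hu, update_self, clamp]
      have h3 : M * (a - (hi (kbP 0 x) + lo (kbP 0 x)) / 2) ≤
          M * (b - (hi (kbP 0 x) + lo (kbP 0 x)) / 2) := by gcongr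
      have h4 := max_le_max_left (-max (1 - ‖kbP 0 x‖ -
        1 / (M₁ + 1) * ((hi (kbP 0 x) - lo (kbP 0 x)) / 2)) 0) (min_le_min_right (max (1 - ‖kbP 0 x‖ -
          1 / (M₁ + 1) * ((hi (kbP 0 x) - lo (kbP 0 x)) / 2)) 0) h3)
      linarith
  refine ⟨_, kb_of k (pfill_idlen 0).ball fun x => ?_⟩
  simp only [oct, oN, mem_ofPred_eq, hu, update_self, kb_hz]
  by_cases hy : ‖kbP 0 x‖ ≤ 1
  · have h3 := h1 _ hy
    have h4 := k₁ _ (mem_closedBall_zero_iff.2 hy)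
    have h5 := k₂ _ (mem_closedBall_zero_iff.2 hy)
    rw [Real.norm_eq_abs, abs_of_nonneg (by linarith), abs_of_nonneg (by linarith)] at h4 h5
    rw [← le_sub_iff_add_le', kb_real hκ hM (by linarith) _ h5, abs_le]
    · constructor
      · rintro ⟨-, h6, h7⟩
        constructor <;> linarith
      · rintro ⟨h6, h7⟩
        exact ⟨hy, by linarith, by linarith⟩
    · rw [one_div_mul_eq_div, div_le_iff₀ (by positivity)]
      nlinarith
  · refine iff_of_false (fun h => hy h.1) fun h => hy ?_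
    exact (le_add_of_nonneg_right (abs_nonneg _)).trans h

theorem kb_step (ih : ∀ B : Set (Rn n), Poly B → Convex ℝ B → (interior B).Nonempty →
    Ball B (frontier B)) {B : Set (Rn (n + 1))} (hB : Poly B) (hc : Convex ℝ B)
    (hi : (interior B).Nonempty) : Ball B (frontier B) := by
  obtain ⟨v, hv, hd⟩ := kb_dir hB hc
  obtain ⟨up, tu, hu⟩ := kb_top hB hc hv one_ne_zero
  obtain ⟨lo, tl, hl⟩ := kb_top hB hc hv (neg_ne_zero.2 one_ne_zero)
  simp only [one_mul, neg_mul, neg_le_neg_iff] at hu hl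
  obtain ⟨c, hc0⟩ := hi
  have ho := (kbP_open v).image_interior_subset B
  have hB' := ih _ (hB.image (TP.clm (kbP v))) (hc.linear_image (kbP v).toLinearMap)
    ⟨_, ho ⟨c, hc0, rfl⟩⟩
  have hint (x : Rn (n + 1)) (hx : x ∈ B) :
      lo (kbP v x) = up (kbP v x) ↔ kbP v x ∉ interior (kbP v '' B) := by
    constructor
    · intro h h1
      obtain ⟨δ, hδ, z, hz, h2⟩ := kb_near (mem_interior_iff_mem_nhds.1 h1) (kbP v x - kbP v c)
      have h3 := hc.combo_self_interior_mem_interior hz hc0 (a := 1 / (1 + δ)) (b := δ / (1 + δ))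
        (by positivity) (by positivity) (by field_simp)
      have h4 : kbP v ((1 / (1 + δ)) • z + (δ / (1 + δ)) • c) = kbP v x := by
        rw [map_add, map_smul, map_smul, h2]
        match_scalars
        · field_simp
        · field_simp
          ring
      obtain ⟨e, he, h5⟩ := kb_near (mem_interior_iff_mem_nhds.1 h3) v
      have h6 := (hu _ h5).1
      have h7 := (hl _ (interior_subset h3)).1
      rw [kbP_add hv, h4, Pi.add_apply _ (e • v), Pi.smul_apply, hv, smul_eq_mul] at h6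
      rw [h4] at h7
      linarith
    · intro h
      by_contra h1
      obtain ⟨t, ht⟩ := hd x _ _ (sub_lt_sub_right
        (lt_of_le_of_ne ((hl x hx).1.trans (hu x hx).1) h1) _) (hl x hx).2 (hu x hx).2
      exact h (ho ⟨_, ht, kbP_add hv x t⟩)
  have hI := hB'.interior_eq
  obtain ⟨φ, hφ, e1, e2⟩ := hB'
  have hm (y : Rn n) (hy : ‖y‖ ≤ 1) : ∃ x ∈ B, kbP v x = φ y :=
    (e1 ▸ mem_image_of_mem φ (mem_closedBall_zero_iff.2 hy) : φ y ∈ kbP v '' B)
  obtain ⟨S, hS⟩ := kb_lens (tl.comp hφ.tp) (tu.comp hφ.tp) (fun y hy => by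
    obtain ⟨x, hx, h⟩ := hm y hy
    rw [← h]
    exact (hl x hx).1.trans (hu x hx).1) fun y hy => by
      obtain ⟨x, hx, h⟩ := hm y hy
      rw [← h, hint x hx, hI, ← e2, Set.mem_sdiff, not_and, not_not, h, hφ.inj.mem_set_image,
        mem_sphere_zero_iff_norm]
      exact ⟨fun k => k ⟨x, hx, h⟩, fun k _ => k⟩
  have k : LH fun x : Rn (n + 1) => (Matrix.vecCons (x 0) (invFun φ (kbP v x)) : Rn (n + 1)) := by
    refine pa2_of_inv (g := fun x => Matrix.vecCons 0 (φ (kbP 0 x)) + x 0 • v)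
      (TP.pi fun j => ?_) (TP.add (TP.pi fun j => ?_) ((TP.id'.apply 0).smul_const v))
      (fun x => ?_) fun x => ?_
    · refine Fin.cases ?_ (fun j => ?_) j
      · exact TP.id'.apply 0
      · exact (hφ.tpi.comp (TP.clm (kbP v))).apply j
    · refine Fin.cases ?_ (fun j => ?_) j
      · exact TP.const 0
      · exact (hφ.tp.comp (TP.clm (kbP 0))).apply j
    · have h : kbP 0 (Matrix.vecCons (x 0) (invFun φ (kbP v x))) = invFun φ (kbP v x) := by
        ext j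
        simp [kbP_apply]
      simp only [h, hφ.ri]
      refine ((kbP_ext hv (kbP_cons v (kbP v x)).symm).trans ?_).symm
      simp
    · simp only [kbP_add hv, kbP_cons, hφ.li]
      ext j
      refine Fin.cases ?_ (fun j => ?_) j <;> simp [hv, kbP_apply]
  refine kb_of k hS fun x => ?_
  have h : kbP 0 (Matrix.vecCons (x 0) (invFun φ (kbP v x))) = invFun φ (kbP v x) := by
    ext j
    simp [kbP_apply]
  simp only [mem_ofPred_eq, h, hφ.ri, Matrix.cons_val_zero]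
  constructor
  · intro hx
    obtain ⟨y, hy, h1⟩ : kbP v x ∈ φ '' closedBall 0 1 := e1 ▸ mem_image_of_mem _ hx
    exact ⟨by rw [hφ.inv_eq h1]; exact mem_closedBall_zero_iff.1 hy, (hl x hx).1, (hu x hx).1⟩
  · rintro ⟨h1, h2, h3⟩
    obtain ⟨z, hz, h4⟩ := hm _ h1
    rw [hφ.ri] at h4
    rw [← h4] at h2 h3
    rw [kbP_ext hv h4.symm]
    exact kb_line hc (hl z hz).2 (hu z hz).2 (sub_le_sub_right h2 _) (sub_le_sub_right h3 _)

/-- Convex polyhedra with interior points are standard balls. -/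
theorem kb_ball (n : ℕ) : ∀ B : Set (Rn n), Poly B → Convex ℝ B → (interior B).Nonempty →
    Ball B (frontier B) := by
  induction n with
  | zero =>
    intro B _ _ hi
    refine kb_of LH.id' (ball_round 0 one_pos) fun x => iff_of_true ?_ ?_
    · obtain ⟨c, hc⟩ := hi
      exact Subsingleton.elim c x ▸ interior_subset hc
    · rw [Subsingleton.elim x 0]
      exact mem_closedBall_self zero_le_one
  | succ n ih => exact fun B => kb_step ih

theorem kb_open {U : Set (Rn n)} (ho : IsOpen U) (hc : Convex ℝ U) (hp : Poly (closure U))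
    (hne : U.Nonempty) : Ball (closure U) (frontier U) := by
  have h1 : interior (closure U) = U :=
    (hc.interior_closure_eq_interior_of_nonempty_interior (by rwa [ho.interior_eq])).trans
      ho.interior_eq
  have h2 := kb_ball n _ hp hc.closure (by rwa [h1])
  rwa [frontier, closure_closure, h1, ← ho.frontier_eq] at h2

end

theorem ball_convex2 {B : Set (Rn 2)} (hB : Poly B) (hc : Convex ℝ B)
    (hi : (interior B).Nonempty) : Ball B (frontier B) := by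
  exact kb_ball 2 B hB hc hi

theorem ball_convex3 {B : Set (Rn 3)} (hB : Poly B) (hc : Convex ℝ B)
    (hi : (interior B).Nonempty) : Ball B (frontier B) := by
  exact kb_ball 3 B hB hc hi

namespace Kx
variable {Ω : Set (Rn 3)} {K : Kx Ω} {σ : Set (Rn 3)}

/-- Affine chart of a two-dimensional cell. -/
theorem chart2 (hσ : σ ∈ K.cel 2) : ∃ (M : Rn 2 →L[ℝ] Rn 3) (o : Rn 3) (U : Set (Rn 2)),
    Injective M ∧ IsOpen U ∧ Convex ℝ U ∧ Poly (closure U) ∧ U.Nonempty ∧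
      (fun y => M y + o) '' U = σ ∧ (fun y => M y + o) '' closure U = closure σ ∧
      (fun y => M y + o) '' frontier U = closure σ \ σ := by
  obtain ⟨o, ho⟩ := cells_ne hσ.1
  let e : Rn 2 ≃L[ℝ] vectorSpan ℝ σ :=
    ContinuousLinearEquiv.ofFinrankEq ((Module.finrank_fin_fun ℝ).trans hσ.2.symm)
  let M : Rn 2 →L[ℝ] Rn 3 := (vectorSpan ℝ σ).subtypeL.comp (e : Rn 2 →L[ℝ] vectorSpan ℝ σ)
  have hM : Injective M := Subtype.val_injective.comp e.injective
  have hk : LinearMap.ker (M : Rn 2 →ₗ[ℝ] Rn 3) = ⊥ := LinearMap.ker_eq_bot.2 hM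
  have hg : IsClosedEmbedding fun y => M y + o :=
    (Homeomorph.addRight o).isClosedEmbedding.comp (LinearMap.isClosedEmbedding_of_injective hk)
  have h1 : (fun y => M y + o) '' {y | M y + o ∈ σ} = σ := by
    refine image_preimage_eq_of_subset fun x hx => ⟨e.symm ⟨x - o, vsub_mem_vectorSpan ℝ hx ho⟩, ?_⟩
    change ((e (e.symm _) : vectorSpan ℝ σ) : Rn 3) + o = x
    rw [e.apply_symm_apply, sub_add_cancel]
  have h2 : IsOpen {y | M y + o ∈ σ} := by
    refine isOpen_iff_mem_nhds.2 fun y hy => ?_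
    obtain ⟨ε, hε, h⟩ := relopen hσ.1 hy
    filter_upwards [hg.continuous.continuousAt.preimage_mem_nhds (ball_mem_nhds _ hε)] with z hz
    refine h _ ?_ (mem_ball_iff_norm.1 hz)
    rw [add_sub_add_right_eq_sub, ← map_sub]
    exact (e (z - y)).2
  have h3 : (fun y => M y + o) '' closure {y | M y + o ∈ σ} = closure σ := by
    rw [← hg.closure_image_eq, h1]
  obtain ⟨N, hN⟩ := (M : Rn 2 →ₗ[ℝ] Rn 3).exists_leftInverse_of_injective hk
  refine ⟨M, o, _, hM, h2, ?_, ?_, ?_, h1, h3, ?_⟩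
  · exact ((cells_cvx hσ.1).translate_preimage_left o).linear_preimage (M : Rn 2 →ₗ[ℝ] Rn 3)
  · have h4 := (cells_poly hσ.1).image
      ((TP.clm (LinearMap.toContinuousLinearMap N)).comp (TP.id'.sub (TP.const o)))
    rw [← h3, image_image] at h4
    have h5 (y : Rn 2) : LinearMap.toContinuousLinearMap N (M y + o - o) = y := by
      rw [add_sub_cancel_right]
      exact LinearMap.congr_fun hN y
    simpa only [h5, image_id'] using h4
  · exact ⟨0, by simpa using ho⟩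
  · rw [h2.frontier_eq, image_sdiff hg.injective, h1, h3]

theorem pdsc (hσ : σ ∈ K.cel 2) : PDsc (closure σ) (closure σ \ σ) := by
  obtain ⟨M, o, U, hM, h1, h2, h3, h4, -, h5, h6⟩ := chart2 hσ
  rw [← h6, ← h5]
  exact (kb_open h1 h2 h3 h4).cel.image ((TP.clm M).add (TP.const o))
    fun _ _ _ _ h => hM (add_right_cancel h)

theorem ball (hσ : σ ∈ K.cel 3) : Ball (closure σ) (closure σ \ σ) := by
  have h := (dm_three hσ.1).1 hσ.2
  rw [← h.frontier_eq]
  exact kb_open h (cells_cvx hσ.1) (cells_poly hσ.1) (cells_ne hσ.1)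

end Kx

end BEp
end
end

-- merged part: Pool.Agent.Work.MP_f0515e_an.D3.KA3
section
/-! TASK KA3. Incidence of cells.
Plan. `exists_top`: near `x` finitely many cells; those of dimension at most 2 lie in finitely many planes (`pc_sk`, `PC.sm`,
`Sm.dense`), so points of 3-cells accumulate at `x`; use `near`. `exists_facet`: fix `z ∈ σ`; the cones from `z` over the faces of
dimension at most `dm σ - 2` lie in finitely many proper affine subspaces of the span of `σ`, so points `y` of `σ` off these cones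
accumulate at `x`; the ray from `z` through `y` leaves `closure σ` at a point `y'` outside `σ` whose cell has dimension `dm σ - 1`;
a limit point of the `y'` lies on the ray through `x` beyond `x` and is `x` by `seg_mem`; finitely many faces. `exists_up`: descend
from a 3-cell by `exists_facet` and `front`. `two_of` (one lemma for the three diamond statements): let `y ∈ τ`; near `y` only cells
having `τ` in their closure occur. For `two_tops`: a small ball minus the plane of `σ` has two convex halves; a cell of dimension at most 2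
meeting a half would have `σ` in its closure, so has dimension 3 (`dm_lt`); a connected set covered by disjoint open cells lies in one cell;
a convex open cell cannot meet both halves near `y` without meeting `σ`. `two_edges`, `two_faces`: project along the span of the small cell; the
tangent cone of the big cell becomes a planar convex sector of angle at most pi with two boundary rays. About 400 lines; split if useful. -/

open Set Metric Filter Topology Function BEv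
open scoped NNReal ENNReal

noncomputable section
namespace BEp

theorem KA3_avoid {n : ℕ} {ι : Type} {I : Set ι} (hI : I.Finite) (W : Submodule ℝ (Rn n))
    (S : ι → Submodule ℝ (Rn n)) (h : ∀ i ∈ I, Module.finrank ℝ (S i) < Module.finrank ℝ W) :
    ∃ w ∈ W, ∀ i ∈ I, w ∉ S i := by
  have := hI.to_subtype
  obtain ⟨w, hw⟩ := Submodule.exists_forall_notMem_of_forall_ne_top
    (fun i : I => (S i).comap W.subtype) fun i e =>
      (h i i.2).not_ge (Submodule.finrank_mono (Submodule.comap_subtype_eq_top.1 e))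
  exact ⟨w, w.2, fun i hi => hw ⟨i, hi⟩⟩

theorem KA3_hyper {n : ℕ} {P W : Submodule ℝ (Rn n)} (h : P ≤ W)
    (hd : Module.finrank ℝ P + 1 = Module.finrank ℝ W) :
    ∃ φ : Rn n →ₗ[ℝ] ℝ, ∃ w₀ ∈ W, 0 < φ w₀ ∧ ∀ w ∈ W, (φ w = 0 ↔ w ∈ P) := by
  have hlt : P < W := lt_of_le_of_ne h fun e => by
    rw [e] at hd
    omega
  obtain ⟨w₀, h0, h1⟩ := SetLike.exists_of_lt hlt
  obtain ⟨f, hf, hP⟩ := Submodule.exists_le_ker_of_notMem h1
  have e : P ⊔ Submodule.span ℝ {w₀} = W := Submodule.eq_of_le_of_finrank_le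
    (sup_le h ((Submodule.span_singleton_le_iff_mem _ _).2 h0))
    (by rw [Submodule.finrank_sup_span_singleton h1, hd])
  refine ⟨f w₀ • f, w₀, h0, mul_self_pos.2 hf, fun w hw => ⟨fun k => ?_, fun k => ?_⟩⟩
  · rw [← e] at hw
    obtain ⟨a, ha, b, hb, rfl⟩ := Submodule.mem_sup.1 hw
    obtain ⟨c, rfl⟩ := Submodule.mem_span_singleton.1 hb
    have ha0 : f a = 0 := hP ha
    have : c = 0 := by simpa [ha0, hf] using k
    simpa [this] using ha
  · have : f w = 0 := hP k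
    simp [this]

theorem KA3_small {n : ℕ} (w : Rn n) {r : ℝ} (hr : 0 < r) : ∃ t : ℝ, 0 < t ∧ ‖t • w‖ < r := by
  refine ⟨r / (‖w‖ + 1), by positivity, ?_⟩
  rw [norm_smul, Real.norm_of_nonneg (by positivity), div_mul_eq_mul_div,
    div_lt_iff₀ (by positivity)]
  nlinarith [norm_nonneg w]

/-- Directions pointing from `y` into `c`. -/
def KA3cone {n : ℕ} (y : Rn n) (c : Set (Rn n)) : Set (Rn n) := {w | ∃ t : ℝ, 0 < t ∧ y + t • w ∈ c}

theorem KA3_cone_smul {n : ℕ} {y w : Rn n} {c : Set (Rn n)} {a : ℝ} (ha : 0 < a)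
    (h : w ∈ KA3cone y c) : a • w ∈ KA3cone y c := by
  obtain ⟨t, ht, h⟩ := h
  exact ⟨t / a, by positivity, by rwa [smul_smul, div_mul_cancel₀ _ ha.ne']⟩

theorem KA3_cone_of {n : ℕ} {y u : Rn n} {c : Set (Rn n)} (h : u ∈ c) : u - y ∈ KA3cone y c :=
  ⟨1, one_pos, by simpa using h⟩

/-- Two sides of a hyperplane. -/
theorem KA3_two {n : ℕ} {ι : Type} {M : Set ι} {C : ι → Set (Rn n)} {φ : Rn n →ₗ[ℝ] ℝ}
    (hs : ∀ τ ∈ M, ∀ w ∈ C τ, ∀ a : ℝ, 0 < a → a • w ∈ C τ)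
    (ha : ∀ τ ∈ M, ∀ w ∈ C τ, ∀ w' ∈ C τ, w + w' ∈ C τ)
    (key : ∀ τ ∈ M, ∀ τ' ∈ M, ∀ w ∈ C τ, ∀ w' ∈ C τ', φ w = φ w' → τ = τ')
    {ρ τ₁ τ₂ : ι} (hρ : ρ ∈ M) (h0 : 0 ∈ C ρ) (h1 : τ₁ ∈ M) (h2 : τ₂ ∈ M) (n1 : τ₁ ≠ ρ)
    {w₁ w₂ : Rn n} (k1 : w₁ ∈ C τ₁) (k2 : w₂ ∈ C τ₂) (p1 : 0 < φ w₁) (p2 : φ w₂ < 0) :
    τ₁ ≠ τ₂ ∧ ∀ τ ∈ M, (C τ).Nonempty → τ ≠ ρ → τ = τ₁ ∨ τ = τ₂ := by
  constructor
  · rintro rfl
    refine n1 (key _ h1 _ hρ _ (ha _ h1 _ (hs _ h1 _ k1 _ (neg_pos.2 p2)) _ (hs _ h1 _ k2 _ p1)) _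
      h0 ?_)
    simp only [map_add, map_smul, smul_eq_mul, map_zero]
    ring
  · rintro τ hτ ⟨w, hw⟩ hne
    rcases lt_trichotomy (φ w) 0 with k | k | k
    · refine Or.inr (key _ hτ _ h2 _ hw _ (hs _ h2 _ k2 _ (div_pos_of_neg_of_neg k p2)) ?_)
      rw [map_smul, smul_eq_mul, div_mul_cancel₀ _ p2.ne]
    · exact (hne (key _ hτ _ hρ _ hw _ h0 (by rw [k, map_zero]))).elim
    · refine Or.inl (key _ hτ _ h1 _ hw _ (hs _ h1 _ k1 _ (div_pos k p1)) ?_)
      rw [map_smul, smul_eq_mul, div_mul_cancel₀ _ p1.ne']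

namespace Kx
variable {Ω : Set (Rn 3)} {K : Kx Ω} {σ τ ρ : Set (Rn 3)} {x : Rn 3}

theorem KA3_cone_small {y w : Rn 3} (hσ : σ ∈ K.cells) (hy : y ∈ closure σ) {t s : ℝ}
    (h : y + t • w ∈ σ) (hs : 0 < s) (hst : s ≤ t) : y + s • w ∈ σ := by
  have ht : 0 < t := hs.trans_le hst
  have := seg_mem hσ hy h (t := s / t) ⟨by positivity, (div_le_one ht).2 hst⟩
  rwa [add_sub_cancel_left, smul_smul, div_mul_cancel₀ _ ht.ne'] at this

theorem KA3_cone_disj {y w : Rn 3} (hσ : σ ∈ K.cells) (hτ : τ ∈ K.cells) (hy : y ∈ closure σ)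
    (hy' : y ∈ closure τ) (h : w ∈ KA3cone y σ) (h' : w ∈ KA3cone y τ) : σ = τ := by
  obtain ⟨t, ht, h⟩ := h
  obtain ⟨s, hs, h'⟩ := h'
  exact (cell_eq hσ (KA3_cone_small hσ hy h (lt_min ht hs) (min_le_left _ _))).symm.trans
    (cell_eq hτ (KA3_cone_small hτ hy' h' (lt_min ht hs) (min_le_right _ _)))

theorem KA3_cone_add {y w w' : Rn 3} (hσ : σ ∈ K.cells) (hτ : τ ∈ K.cells) (hs : τ ⊆ closure σ)
    (hy : y ∈ closure τ) (h : w ∈ KA3cone y σ) (h' : w' ∈ KA3cone y τ) :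
    w + w' ∈ KA3cone y σ := by
  obtain ⟨t, ht, h⟩ := h
  obtain ⟨s, hs', h'⟩ := h'
  have k := KA3_cone_small hσ (closure_minimal hs isClosed_closure hy) h (lt_min ht hs')
    (min_le_left _ _)
  have k' := KA3_cone_small hτ hy h' (lt_min ht hs') (min_le_right _ _)
  refine ⟨min t s / 2, by have := lt_min ht hs'; positivity, ?_⟩
  convert seg_mem hσ (hs k') k (t := 1 / 2) ⟨by norm_num, by norm_num⟩ using 1
  module

theorem KA3_cone_self {y w : Rn 3} (hσ : σ ∈ K.cells) (hy : y ∈ σ) (h : w ∈ vectorSpan ℝ σ) :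
    w ∈ KA3cone y σ := by
  obtain ⟨ε, hε, k⟩ := relopen hσ hy
  obtain ⟨t, ht, h'⟩ := KA3_small w hε
  exact ⟨t, ht, k _ (by rw [add_sub_cancel_left]; exact Submodule.smul_mem _ _ h)
    (by rwa [add_sub_cancel_left])⟩

theorem KA3_cone_sub {y w : Rn 3} (hs : τ ⊆ closure σ) (hy : y ∈ closure σ)
    (h : w ∈ KA3cone y τ) : w ∈ vectorSpan ℝ σ := by
  obtain ⟨t, ht, h⟩ := h
  have := sub_mem_span hy (hs h)
  rwa [add_sub_cancel_left, Submodule.smul_mem_iff _ ht.ne'] at this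

theorem KA3_face (hσ : σ ∈ K.cells) (hx : x ∈ closure σ) :
    K.cell x ∈ K.cells ∧ x ∈ K.cell x ∧ K.cell x ⊆ closure σ :=
  ⟨K.cell_mem (cl_sub hσ hx), K.mem x (cl_sub hσ hx),
    front (K.cell_mem (cl_sub hσ hx)) hσ ⟨x, K.mem x (cl_sub hσ hx), hx⟩⟩

theorem KA3_near (hσ : σ ∈ K.cells) (x : Rn 3) :
    ∃ r > 0, ∀ u ∈ closure σ, ‖u - x‖ < r → x ∈ closure (K.cell u) := by
  have hf : {τ | (τ ∈ K.cells ∧ τ ⊆ closure σ) ∧ x ∉ closure τ}.Finite :=
    (faces_finite hσ).subset fun _ h => h.1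
  have hc := hf.isClosed_biUnion (f := closure) fun _ _ => isClosed_closure
  obtain ⟨r, hr, h⟩ := Metric.isOpen_iff.1 hc.isOpen_compl x (by
    simp only [mem_compl_iff, mem_iUnion, not_exists]
    exact fun τ hτ => hτ.2)
  refine ⟨r, hr, fun u hu k => by_contra fun hn => ?_⟩
  obtain ⟨h1, h2, h3⟩ := KA3_face hσ hu
  exact h (mem_ball_iff_norm.2 k) (mem_biUnion (show K.cell u ∈ _ from ⟨⟨h1, h3⟩, hn⟩)
    (subset_closure h2))

/-- Lines parallel to `z - x` close to the boundary point `x` leave the cell close to `x`. -/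
theorem KA3_exit {z : Rn 3} (hσ : σ ∈ K.cells) (hx : x ∈ closure σ) (hx' : x ∉ σ) (hz : z ∈ σ)
    {w : Rn 3} (hw : w ∈ vectorSpan ℝ σ) : ∃ a : ℝ, 0 < a ∧ ∃ t : ℝ, ∃ u, u ∈ closure σ ∧ u ∉ σ ∧
      x ∈ closure (K.cell u) ∧ u - x = a • w + t • (z - x) := by
  obtain ⟨r, hr, hn⟩ := KA3_near hσ x
  set v := z - x with hv
  have hvW : v ∈ vectorSpan ℝ σ := sub_mem_span hx (subset_closure hz)
  obtain ⟨s0, hs0, hs⟩ := KA3_small v (half_pos hr)
  set s := min s0 1 with hs1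
  have s0' : 0 < s := lt_min hs0 one_pos
  have hsv : ∀ t : ℝ, |t| ≤ s → ‖t • v‖ < r / 2 := fun t ht => by
    refine lt_of_le_of_lt ?_ hs
    rw [norm_smul, norm_smul, Real.norm_eq_abs, Real.norm_of_nonneg hs0.le]
    exact mul_le_mul_of_nonneg_right (ht.trans (min_le_left _ _)) (norm_nonneg _)
  have h1 : x + s • v ∈ σ := seg_mem hσ hx hz ⟨s0', min_le_right _ _⟩
  have h2 : x + (-s) • v ∉ closure σ := fun k => hx' (by
    convert seg_mem hσ k h1 (t := 1 / 2) ⟨by norm_num, by norm_num⟩ using 1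
    module)
  obtain ⟨e1, he1, k1⟩ := relopen hσ h1
  obtain ⟨e2, he2, k2⟩ := Metric.isOpen_iff.1 isClosed_closure.isOpen_compl _ h2
  obtain ⟨a, ha, haw⟩ := KA3_small w (lt_min (half_pos hr) (lt_min he1 he2))
  have hT : IsCompact (Icc (-s) s ∩ {t : ℝ | x + a • w + t • v ∈ closure σ}) :=
    isCompact_Icc.inter_right (isClosed_closure.preimage (by fun_prop))
  have hs2 : x + a • w + s • v ∈ σ := by
    have e : x + a • w + s • v - (x + s • v) = a • w := by module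
    exact k1 _ (by rw [e]; exact Submodule.smul_mem _ _ hw)
      (by rw [e]; exact haw.trans_le ((min_le_right _ _).trans (min_le_left _ _)))
  obtain ⟨t, ⟨ht, ht'⟩, hmin⟩ := hT.exists_isLeast ⟨s, ⟨by linarith, le_rfl⟩, subset_closure hs2⟩
  have hts : -s < t := lt_of_le_of_ne ht.1 fun e => by
    refine k2 (mem_ball_iff_norm.2 ?_) ht'
    rw [← e, show x + a • w + -s • v - (x + -s • v) = a • w by module]
    exact haw.trans_le ((min_le_right _ _).trans (min_le_right _ _))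
  have e : x + a • w + t • v - x = a • w + t • v := by module
  refine ⟨a, ha, t, x + a • w + t • v, ht', fun k => ?_, hn _ ht' ?_, e⟩
  · obtain ⟨b, hb, k'⟩ := KA3_cone_self hσ k (neg_mem hvW)
    have k3 := KA3_cone_small hσ (subset_closure k) k' (s := min b (t + s))
      (lt_min hb (by linarith)) (min_le_left _ _)
    have h3 := min_le_right b (t + s)
    have h4 : 0 < min b (t + s) := lt_min hb (by linarith)
    have := hmin (show t - min b (t + s) ∈ _ from ⟨⟨by linarith, by linarith [ht.2]⟩,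
      subset_closure (by convert k3 using 1; module)⟩)
    linarith
  · rw [e]
    have := hsv t (abs_le.2 ht)
    have h3 := haw.trans_le (min_le_left _ _)
    linarith [norm_add_le (a • w) (t • v)]

theorem exists_top (K : Kx Ω) (hΩ : IsOpen Ω) (hx : x ∈ Ω) : ∃ τ ∈ K.cel 3, x ∈ closure τ := by
  obtain ⟨C, hC, hxC, hs⟩ := exists_compact_subset hΩ hx
  have hf : {σ | (σ ∈ K.cells ∧ (σ ∩ C).Nonempty) ∧ dm σ < 3}.Finite :=
    (cover hC hs).subset fun _ h => h.1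
  obtain ⟨w, -, hw⟩ := KA3_avoid hf ⊤ (vectorSpan ℝ) fun σ h => by
    rw [finrank_top, Module.finrank_fin_fun]
    exact h.2
  obtain ⟨r, hr, h⟩ := Metric.eventually_nhds_iff_ball.1
    ((near (K := K) hΩ hx).and (mem_interior_iff_mem_nhds.1 hxC))
  obtain ⟨t, ht, k⟩ := KA3_small w hr
  obtain ⟨⟨h1, h2⟩, h3⟩ := h (x + t • w) (mem_ball_iff_norm.2 (by rwa [add_sub_cancel_left]))
  refine ⟨_, ⟨K.cell_mem h1, le_antisymm (dm_le _) (not_lt.1 fun h4 => ?_)⟩, h2⟩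
  exact hw _ ⟨⟨K.cell_mem h1, _, K.mem _ h1, h3⟩, h4⟩
    (KA3_cone_sub subset_closure h2 ⟨t, ht, K.mem _ h1⟩)

theorem exists_facet (hσ : σ ∈ K.cells) (hx : x ∈ closure σ) (hx' : x ∉ σ) :
    ∃ τ ∈ K.cells, dm τ + 1 = dm σ ∧ τ ⊆ closure σ ∧ x ∈ closure τ := by
  obtain ⟨z, hz⟩ := cells_ne hσ
  have hf : {τ | (τ ∈ K.cells ∧ τ ⊆ closure σ) ∧ dm τ + 1 < dm σ}.Finite :=
    (faces_finite hσ).subset fun _ h => h.1
  obtain ⟨w, hw, hw'⟩ := KA3_avoid hf (vectorSpan ℝ σ)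
    (fun τ => vectorSpan ℝ τ ⊔ Submodule.span ℝ {z - x}) fun τ h => by
      refine lt_of_le_of_lt ((Submodule.finrank_add_le_finrank_add_finrank _ _).trans ?_) h.2
      refine Nat.add_le_add_left ?_ _
      simpa using finrank_span_le_card (R := ℝ) ({z - x} : Set (Rn 3))
  obtain ⟨a, ha, t, u, h1, h2, h3, h4⟩ := KA3_exit hσ hx hx' hz hw
  obtain ⟨k1, k2, k3⟩ := KA3_face hσ h1
  have hlt := dm_lt hσ k1 k3 fun e => h2 (e ▸ k2)
  refine ⟨_, k1, le_antisymm hlt (not_lt.1 fun k => hw' _ ⟨⟨k1, k3⟩, k⟩ ?_), k3, h3⟩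
  have k4 := sub_mem_span h3 (subset_closure k2)
  rw [← Submodule.smul_mem_iff _ ha.ne', show a • w = (u - x) - t • (z - x) by rw [h4]; module]
  exact sub_mem (Submodule.mem_sup_left k4) (Submodule.mem_sup_right
    (Submodule.smul_mem _ _ (Submodule.mem_span_singleton_self _)))

theorem exists_mid (hσ : σ ∈ K.cells) (hρ : ρ ∈ K.cells) (h : ρ ⊆ closure σ) {d : ℕ}
    (h1 : dm ρ ≤ d) (h2 : d ≤ dm σ) : ∃ τ ∈ K.cel d, ρ ⊆ closure τ ∧ τ ⊆ closure σ := by
  obtain ⟨m, hm⟩ := Nat.exists_eq_add_of_le h2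
  induction m generalizing σ with
  | zero => exact ⟨σ, ⟨hσ, hm⟩, h, subset_closure⟩
  | succ m ih =>
    obtain ⟨x, hx⟩ := cells_ne hρ
    obtain ⟨τ, k1, k2, k3, k4⟩ := exists_facet hσ (h hx) fun k => by
      have : ρ = σ := (cell_eq hρ hx).symm.trans (cell_eq hσ k)
      rw [this] at h1
      omega
    obtain ⟨τ', l1, l2, l3⟩ := ih k1 (front hρ k1 ⟨x, hx, k4⟩) (by omega) (by omega)
    exact ⟨τ', l1, l2, l3.trans (closure_minimal k3 isClosed_closure)⟩

theorem exists_up (hΩ : IsOpen Ω) (hρ : ρ ∈ K.cells) {d : ℕ} (h1 : dm ρ ≤ d) (h2 : d ≤ 3) :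
    ∃ τ ∈ K.cel d, ρ ⊆ closure τ := by
  obtain ⟨x, hx⟩ := cells_ne hρ
  obtain ⟨σ, hσ, k⟩ := K.exists_top hΩ (cells_sub hρ hx)
  obtain ⟨τ, k1, k2, -⟩ := exists_mid hσ.1 hρ (front hρ hσ.1 ⟨x, hx, k⟩) h1 (hσ.2.symm ▸ h2)
  exact ⟨τ, k1, k2⟩

theorem two_tops (hΩ : IsOpen Ω) (hσ : σ ∈ K.cel 2) : ∃ τ₁ ∈ K.cel 3, ∃ τ₂ ∈ K.cel 3, τ₁ ≠ τ₂ ∧
    σ ⊆ closure τ₁ ∧ σ ⊆ closure τ₂ ∧ ∀ τ ∈ K.cel 3, σ ⊆ closure τ → τ = τ₁ ∨ τ = τ₂ := by
  obtain ⟨hσ, hd⟩ := hσ
  obtain ⟨y, hy⟩ := cells_ne hσ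
  obtain ⟨φ, w₀, -, h0, hφ⟩ := KA3_hyper (P := vectorSpan ℝ σ) (W := ⊤) le_top (by
    rw [finrank_top, Module.finrank_fin_fun]
    exact congrArg (· + 1) hd)
  obtain ⟨r, hr, h⟩ := Metric.eventually_nhds_iff_ball.1 (near (K := K) hΩ (cells_sub hσ hy))
  have ex : ∀ w, φ w ≠ 0 → ∃ τ, (τ ∈ K.cells ∧ σ ⊆ closure τ) ∧ τ ≠ σ ∧ w ∈ KA3cone y τ := by
    intro w hw
    obtain ⟨t, ht, k⟩ := KA3_small w hr
    obtain ⟨h1, h2⟩ := h (y + t • w) (mem_ball_iff_norm.2 (by rwa [add_sub_cancel_left]))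
    have k1 : w ∈ KA3cone y (K.cell (y + t • w)) := ⟨t, ht, K.mem _ h1⟩
    refine ⟨_, ⟨K.cell_mem h1, front hσ (K.cell_mem h1) ⟨y, hy, h2⟩⟩, fun e => hw ?_, k1⟩
    rw [e] at k1
    exact (hφ w trivial).2 (KA3_cone_sub subset_closure (subset_closure hy) k1)
  have d3 : ∀ τ, (τ ∈ K.cells ∧ σ ⊆ closure τ) → τ ≠ σ → τ ∈ K.cel 3 := fun τ hτ k =>
    ⟨hτ.1, le_antisymm (dm_le _) (by have := dm_lt hτ.1 hσ hτ.2 k.symm; omega)⟩
  obtain ⟨τ₁, a1, b1, c1⟩ := ex w₀ h0.ne'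
  obtain ⟨τ₂, a2, b2, c2⟩ := ex (-w₀) (by rw [map_neg]; exact neg_ne_zero.2 h0.ne')
  obtain ⟨k1, k2⟩ := KA3_two (M := {τ | τ ∈ K.cells ∧ σ ⊆ closure τ}) (C := KA3cone y) (φ := φ)
    (fun τ _ w hw a ha => KA3_cone_smul ha hw)
    (fun τ hτ w hw w' hw' => KA3_cone_add hτ.1 hτ.1 subset_closure (hτ.2 hy) hw hw')
    (fun τ hτ τ' hτ' w hw w' hw' e => by
      refine KA3_cone_disj hτ.1 hτ'.1 (hτ.2 hy) (hτ'.2 hy) hw ?_
      rw [← add_sub_cancel w' w]
      exact KA3_cone_add hτ'.1 hσ hτ'.2 (subset_closure hy) hw' (KA3_cone_self hσ hy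
        ((hφ _ trivial).1 (by rw [map_sub, e, sub_self]))))
    ⟨hσ, subset_closure⟩ (KA3_cone_self hσ hy (zero_mem _)) a1 a2 b1 c1 c2 h0
    (by rw [map_neg]; exact neg_neg_of_pos h0)
  refine ⟨τ₁, d3 _ a1 b1, τ₂, d3 _ a2 b2, k1, a1.2, a2.2, fun τ hτ k => k2 τ ⟨hτ.1, k⟩ ?_ ?_⟩
  · obtain ⟨u, hu⟩ := cells_ne hτ.1
    exact ⟨_, KA3_cone_of hu⟩
  · rintro rfl
    have := hτ.2
    omega

/-- Diamond property: between a cell and a face of codimension two there are exactly two cells. -/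
theorem two_mid (hσ : σ ∈ K.cells) (hρ : ρ ∈ K.cells) (h : ρ ⊆ closure σ)
    (hd : dm ρ + 2 = dm σ) : ∃ τ₁ ∈ K.cel (dm ρ + 1), ∃ τ₂ ∈ K.cel (dm ρ + 1), τ₁ ≠ τ₂ ∧
      ρ ⊆ closure τ₁ ∧ τ₁ ⊆ closure σ ∧ ρ ⊆ closure τ₂ ∧ τ₂ ⊆ closure σ ∧
      ∀ τ ∈ K.cel (dm ρ + 1), ρ ⊆ closure τ → τ ⊆ closure σ → τ = τ₁ ∨ τ = τ₂ := by
  obtain ⟨y, hy⟩ := cells_ne hρ
  obtain ⟨z, hz⟩ := cells_ne hσ
  have hne : ρ ≠ σ := by
    rintro rfl
    omega
  have hy' : y ∉ σ := fun k => hne ((cell_eq hρ hy).symm.trans (cell_eq hσ k))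
  have hv : z - y ∈ KA3cone y σ := KA3_cone_of hz
  have hv' : z - y ∉ vectorSpan ℝ ρ := fun k =>
    hne (KA3_cone_disj hρ hσ (subset_closure hy) (h hy) (KA3_cone_self hρ hy k) hv)
  obtain ⟨φ, w₀, hw₀, h0, hφ⟩ := KA3_hyper
    (P := vectorSpan ℝ ρ ⊔ Submodule.span ℝ {z - y}) (W := vectorSpan ℝ σ)
    (sup_le (fun a ha => KA3_cone_sub h (h hy) (KA3_cone_self hρ hy ha))
      ((Submodule.span_singleton_le_iff_mem _ _).2 (KA3_cone_sub subset_closure (h hy) hv)))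
    (by rw [Submodule.finrank_sup_span_singleton hv']; exact hd)
  have hφv : φ (z - y) = 0 := (hφ _ (KA3_cone_sub subset_closure (h hy) hv)).2
    (Submodule.mem_sup_right (Submodule.mem_span_singleton_self _))
  have ex : ∀ w ∈ vectorSpan ℝ σ, φ w ≠ 0 → ∃ τ, (τ ∈ K.cells ∧ ρ ⊆ closure τ ∧ τ ⊆ closure σ ∧
      τ ≠ σ) ∧ τ ≠ ρ ∧ ∃ w' ∈ KA3cone y τ, ∃ a : ℝ, 0 < a ∧ φ w' = a * φ w := by
    intro w hw hw'
    obtain ⟨a, ha, t, u, h1, h2, h3, h4⟩ := KA3_exit hσ (h hy) hy' hz hw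
    obtain ⟨k1, k2, k3⟩ := KA3_face hσ h1
    have e : φ (u - y) = a * φ w := by simp [h4, hφv]
    refine ⟨_, ⟨k1, front hρ k1 ⟨y, hy, h3⟩, k3, fun e => h2 (e ▸ k2)⟩, fun e' => ?_, _,
      KA3_cone_of k2, a, ha, e⟩
    rw [e'] at k2
    rw [(hφ _ (sub_mem_span (h hy) h1)).2 (Submodule.mem_sup_left
      (sub_mem_span (subset_closure hy) (subset_closure k2)))] at e
    exact mul_ne_zero ha.ne' hw' e.symm
  have d3 : ∀ τ, (τ ∈ K.cells ∧ ρ ⊆ closure τ ∧ τ ⊆ closure σ ∧ τ ≠ σ) → τ ≠ ρ →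
      τ ∈ K.cel (dm ρ + 1) := fun τ hτ k => ⟨hτ.1, by
    have := dm_lt hτ.1 hρ hτ.2.1 k.symm
    have := dm_lt hσ hτ.1 hτ.2.2.1 hτ.2.2.2
    omega⟩
  have half : ∀ τ, (τ ∈ K.cells ∧ ρ ⊆ closure τ ∧ τ ⊆ closure σ ∧ τ ≠ σ) →
      ∀ τ', (τ' ∈ K.cells ∧ ρ ⊆ closure τ' ∧ τ' ⊆ closure σ ∧ τ' ≠ σ) → ∀ w ∈ KA3cone y τ,
      ∀ w' ∈ KA3cone y τ', ∀ a ∈ vectorSpan ℝ ρ, ∀ c : ℝ, 0 ≤ c → w = w' + a + c • (z - y) →
      τ = τ' := by
    intro τ hτ τ' hτ' w hw w' hw' a ha c hc e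
    have k := KA3_cone_add hτ'.1 hρ hτ'.2.1 (subset_closure hy) hw' (KA3_cone_self hρ hy ha)
    rcases hc.eq_or_lt with rfl | hc
    · rw [zero_smul, add_zero] at e
      exact KA3_cone_disj hτ.1 hτ'.1 (hτ.2.1 hy) (hτ'.2.1 hy) hw (e ▸ k)
    · have k' := KA3_cone_add hσ hτ'.1 hτ'.2.2.1 (hτ'.2.1 hy) (KA3_cone_smul hc hv) k
      rw [add_comm, ← e] at k'
      exact (hτ.2.2.2 (KA3_cone_disj hτ.1 hσ (hτ.2.1 hy) (h hy) hw k')).elim
  obtain ⟨τ₁, a1, b1, w₁, c1, e1, f1, g1⟩ := ex w₀ hw₀ h0.ne'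
  obtain ⟨τ₂, a2, b2, w₂, c2, e2, f2, g2⟩ := ex (-w₀) (neg_mem hw₀)
    (by rw [map_neg]; exact neg_ne_zero.2 h0.ne')
  obtain ⟨k1, k2⟩ := KA3_two (M := {τ | τ ∈ K.cells ∧ ρ ⊆ closure τ ∧ τ ⊆ closure σ ∧ τ ≠ σ})
    (C := KA3cone y) (φ := φ)
    (fun τ _ w hw a ha => KA3_cone_smul ha hw)
    (fun τ hτ w hw w' hw' => KA3_cone_add hτ.1 hτ.1 subset_closure (hτ.2.1 hy) hw hw')
    (fun τ hτ τ' hτ' w hw w' hw' e => by
      obtain ⟨a, ha, b, hb, k⟩ := Submodule.mem_sup.1 ((hφ _ (sub_mem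
        (KA3_cone_sub hτ.2.2.1 (h hy) hw) (KA3_cone_sub hτ'.2.2.1 (h hy) hw'))).1
        (by rw [map_sub, e, sub_self]))
      obtain ⟨c, rfl⟩ := Submodule.mem_span_singleton.1 hb
      rcases le_total 0 c with hc | hc
      · exact half τ hτ τ' hτ' w hw w' hw' a ha c hc (by rw [add_assoc, k]; module)
      · exact (half τ' hτ' τ hτ w' hw' w hw (-a) (neg_mem ha) (-c) (neg_nonneg.2 hc)
          (by rw [← sub_add_cancel w w', ← k]; module)).symm)
    ⟨hρ, subset_closure, h, hne⟩ (KA3_cone_self hρ hy (zero_mem _)) a1 a2 b1 c1 c2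
    (by rw [g1]; exact mul_pos f1 h0)
    (by rw [g2, map_neg]; exact mul_neg_of_pos_of_neg f2 (neg_neg_of_pos h0))
  refine ⟨τ₁, d3 _ a1 b1, τ₂, d3 _ a2 b2, k1, a1.2.1, a1.2.2.1, a2.2.1, a2.2.2.1,
    fun τ hτ k k' => k2 τ ⟨hτ.1, k, k', ?_⟩ ?_ ?_⟩
  · rintro rfl
    have := hτ.2
    omega
  · obtain ⟨u, hu⟩ := cells_ne hτ.1
    exact ⟨_, KA3_cone_of hu⟩
  · rintro rfl
    have := hτ.2
    omega

end Kx

end BEp
end
end
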