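import Pool.Agent.Work.MP_f0515e_an.D3.PCor
import Pool.Agent.Work.MP_f0515e_an.Pos.HDM

/-! Cells of full dimension are balls; arcs lie on circles.
`PCel.ball_of`: `frontier_image` (invariance of domain) and `Ball.eq_of_frontier`. `arc_crc2`: `arc_std`, then a thin triangle over the
segment inside `O`. `arc_crc_sph`: `sph_chart` with `K = A` (not all of `S`: `tarc_inv` and `tcrc_not_line`, or `PC 1`), `arc_crc2` in
`ball 0 1`, `crc_lay`. About 150 lines. -/

open Set Metric Filter Topology Function BEv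
open scoped NNReal

noncomputable section
namespace BEp

variable {n m : ℕ}

theorem PCel.ball_of (hn : 2 ≤ n) {D J : Set (Rn n)} (h : PCel n D J) (hJ : Sph J) : Ball D J := by
  obtain ⟨g, h1, h2, rfl, rfl⟩ := h
  obtain ⟨B, hB⟩ := hJ
  have c : closure (ball (0 : Rn n) 1) = closedBall 0 1 := closure_ball _ one_ne_zero
  obtain ⟨k1, -, k3, k4⟩ := frontier_image (φ := g) rfl isOpen_ball isBounded_ball h1.continuous
    (c.symm ▸ h2)
  rw [c] at k3
  rw [frontier_ball _ one_ne_zero] at k4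
  rwa [hB.eq_of_frontier hn ((isCompact_closedBall 0 1).image h1.continuous)
    (k3 ▸ k4 ▸ frontier_closure_subset) ⟨g 0, interior_maximal (image_mono ball_subset_closedBall)
      k1 (mem_image_of_mem g (mem_ball_self one_pos))⟩]

theorem PCel.ball2 {D J : Set (Rn 2)} (h : PDsc D J) : Ball D J := by
  exact h.ball_of le_rfl (crc_ball h.crc)

theorem PCel.ball3 {D J : Set (Rn 3)} (h : PCel 3 D J) : Ball D J := by
  refine h.ball_of (by norm_num) ?_
  obtain ⟨g, h1, h2, -, rfl⟩ := h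
  exact sph_image ⟨_, ball_round 0 one_pos⟩ h1 (h2.mono sphere_subset_closedBall)

theorem Ball.pcel {D J : Set (Rn n)} (h : Ball D J) : PCel n D J := by
  obtain ⟨Φ, h1, h2, h3⟩ := h
  exact ⟨Φ, h1.tp, h1.inj.injOn, h2, h3⟩

theorem arc_crc2 {A O : Set (Rn 2)} {a b : Rn 2} (hA : Arc A a b) (hO : IsOpen O) (hs : A ⊆ O) :
    ∃ C, Crc C ∧ A ⊆ C ∧ C ⊆ O := by
  obtain ⟨Φ, b', hΦ, ea, eb, e⟩ := arc_std hA hO hs
  have ne : a ≠ b' := fun k => hA.tarc.ne (hΦ.1.inj (ea.trans (k.trans eb.symm)))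
  have s : segment ℝ a b' ⊆ O := e ▸ (image_mono hs).trans (hΦ.image_eq Subset.rfl).subset
  obtain ⟨δ, hδ, hT⟩ := (poly_segment a b').1.exists_thickening_subset_open hO s
  have cv := (convex_segment (𝕜 := ℝ) a b').thickening δ
  have sT := self_subset_thickening hδ (segment ℝ a b')
  let w : Rn 2 := ![a 1 - b' 1, b' 0 - a 0]
  have hε : 0 < δ / (‖w‖ + 1) := by positivity
  have hv : a + (δ / (‖w‖ + 1)) • w ∈ thickening δ (segment ℝ a b') := by
    refine mem_thickening_iff.2 ⟨a, left_mem_segment _ _ _, ?_⟩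
    rw [dist_self_add_left, norm_smul, Real.norm_of_nonneg hε.le, div_mul_eq_mul_div,
      div_lt_iff₀ (by positivity)]
    linarith
  generalize δ / (‖w‖ + 1) = ε at hε hv
  have li : LinearIndependent ℝ ![a - (a + ε • w), b' - (a + ε • w)] := by
    refine LinearIndependent.pair_iff.2 fun s t k => ?_
    have k0 := congrFun k 0
    have k1 := congrFun k 1
    simp only [w, Pi.add_apply, Pi.smul_apply, Pi.sub_apply, smul_eq_mul, Pi.zero_apply,
      Matrix.cons_val_zero, Matrix.cons_val_one] at k0 k1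
    have p : (b' 0 - a 0) ^ 2 + (b' 1 - a 1) ^ 2 ≠ 0 := fun p => ne <| by
      ext i
      fin_cases i
      · show a 0 = b' 0
        nlinarith [sq_nonneg (b' 0 - a 0), sq_nonneg (b' 1 - a 1)]
      · show a 1 = b' 1
        nlinarith [sq_nonneg (b' 0 - a 0), sq_nonneg (b' 1 - a 1)]
    have t0 : t = 0 := (mul_eq_zero_iff_right p).1
      (by linear_combination (b' 0 - a 0) * k0 + (b' 1 - a 1) * k1)
    subst t0
    refine ⟨(mul_eq_zero_iff_right (mul_ne_zero hε.ne' p)).1 ?_, rfl⟩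
    linear_combination (b' 1 - a 1) * k0 - (b' 0 - a 0) * k1
  refine ⟨_, (len_tri li).ball.crc.image hΦ.1.tpi hΦ.1.inv.inj.injOn, ?_, ?_⟩
  · rw [← hΦ.1.inv_image A, e]
    exact image_mono subset_union_right
  · refine (image_mono ?_).trans (hΦ.inv.image_eq Subset.rfl).subset
    exact union_subset (union_subset
      ((cv.segment_subset hv (sT (left_mem_segment _ _ _))).trans hT)
      ((cv.segment_subset hv (sT (right_mem_segment _ _ _))).trans hT)) s

theorem arc_crc_sph {B S A : Set (Rn 3)} {a b : Rn 3} (h : Ball B S) (hA : Arc A a b) (hs : A ⊆ S) :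
    ∃ C, Crc C ∧ A ⊆ C ∧ C ⊆ S := by
  have sp : ∀ {C : Set (Rn 2)}, C ⊆ closedBall 0 1 → lay C 1 ⊆ sphere 0 1 := by
    intro C hC x hx
    rw [mem_sphere_zero_iff_norm, ← mk3_pj3 x, norm_mk3, hx.2, abs_one]
    exact max_eq_right (mem_closedBall_zero_iff.1 (hC hx.1))
  have ne : A ≠ S := by
    rintro rfl
    obtain ⟨Φ, h1, -, h3⟩ := h
    obtain ⟨f, f1, f2, -⟩ := tarc_inv hA.tarc
    have k : Φ '' lay (sphere 0 1) 1 ⊆ A := h3 ▸ image_mono (sp sphere_subset_closedBall)
    exact tcrc_not_line (((crc_lay 1).2 (crc_sq 0 one_pos)).image h1.tp h1.inj.injOn).tcrc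
      (f1.mono k) (f2.mono k)
  obtain ⟨Θ, h1, -, h3, h4⟩ := sph_chart h hA.tarc.compact.isClosed hs ne
  obtain ⟨C, c1, c2, c3⟩ := arc_crc2 ((hA.image h1.tp h1.inj.injOn).image tp_pj3
    fun x hx y hy e => by rw [← mk3_pj3 x, ← mk3_pj3 y, e, (h4 hx).2, (h4 hy).2]) isOpen_ball
    (image_subset_iff.2 fun x hx => (h4 hx).1)
  refine ⟨_, ((crc_lay 1).2 c1).image h1.tpi h1.inv.inj.injOn, ?_, ?_⟩
  · rw [← h1.inv_image A]
    exact image_mono fun x hx => ⟨c2 (mem_image_of_mem _ hx), (h4 hx).2⟩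
  · rw [← h1.inv_image S, h3]
    exact image_mono (sp (c3.trans ball_subset_closedBall))

end BEp
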