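import Pool.Agent.Work.MP_f0515e_an.D3.PReg
import Pool.Agent.Work.MP_f0515e_an.D3.POne
import Pool.Agent.Work.MP_f0515e_an.D3.PGl
import Pool.Agent.Work.MP_f0515e_an.D3.PTri
import Pool.Agent.Work.MP_f0515e_an.D3.PUp
import Pool.Agent.Work.MP_f0515e_an.D3.PCel1
import Pool.Agent.Work.MP_f0515e_an.D3.P2c
import Pool.Agent.Work.MP_f0515e_an.D3.PBall
import Pool.Agent.Work.MP_f0515e_an.D3.PFill
import Pool.Agent.Work.MP_f0515e_an.D3.PMod2
import Pool.Agent.Work.MP_f0515e_an.D3.PMod1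
import Pool.Agent.Work.MP_f0515e_an.D3.CTop
import Pool.Agent.Work.MP_f0515e_an.D3.PCor2
import Pool.Agent.Work.MP_f0515e_an.D3.KA3

-- merged part: Pool.Agent.Work.MP_f0515e_an.D3.XClean
section
-- merged part: Pool.Agent.Work.MP_f0515e_an.D3.SCrvB
section
/-! Decomposition of a one dimensional polyhedron into arcs and circles off a subpolyhedron:
decompose the closure of `X \ Y` by `POne_main` and cut the pieces at the finitely many points of `Y`. -/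

open Set Metric Filter Topology Function BEv
open scoped NNReal

noncomputable section
namespace BEp

variable {n : ℕ} {X Y A A' : Set (Rn n)}

/-- `A` is a union of arcs and circles that meet `Y` in the right way. -/
def SCrvB_dec (Y A : Set (Rn n)) : Prop :=
  ∃ 𝒞 : Set (Set (Rn n)), 𝒞.Finite ∧ ⋃₀ 𝒞 = A ∧ (𝒞.Pairwise fun C C' => C ∩ C' ⊆ Y) ∧
    ∀ C ∈ 𝒞, (Crc C ∧ (C ∩ Y).Subsingleton) ∨ ∃ a b, Arc C a b ∧ C ∩ Y = {a, b}

theorem SCrvB_one (h : (Crc A ∧ (A ∩ Y).Subsingleton) ∨ ∃ a b, Arc A a b ∧ A ∩ Y = {a, b}) :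
    SCrvB_dec Y A :=
  ⟨{A}, finite_singleton _, sUnion_singleton _, pairwise_singleton _ _, fun _ e => e ▸ h⟩

theorem SCrvB_union (h : SCrvB_dec Y A) (h' : SCrvB_dec Y A') (hi : A ∩ A' ⊆ Y) :
    SCrvB_dec Y (A ∪ A') := by
  obtain ⟨𝒞, c1, rfl, c3, c4⟩ := h
  obtain ⟨𝒟, d1, rfl, d3, d4⟩ := h'
  refine ⟨𝒞 ∪ 𝒟, c1.union d1, sUnion_union _ _, ?_, fun C hC => hC.elim (c4 C) (d4 C)⟩
  rintro C (hC | hC) C' (hC' | hC') hn
  exacts [c3 hC hC' hn, fun x hx => hi ⟨⟨C, hC, hx.1⟩, C', hC', hx.2⟩,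
    fun x hx => hi ⟨⟨C', hC', hx.2⟩, C, hC, hx.1⟩, d3 hC hC' hn]

theorem SCrvB_sUnion {𝒞 : Set (Set (Rn n))} (hf : 𝒞.Finite) : (∀ C ∈ 𝒞, SCrvB_dec Y C) →
    (𝒞.Pairwise fun C C' => C ∩ C' ⊆ Y) → SCrvB_dec Y (⋃₀ 𝒞) := by
  induction 𝒞, hf using Finite.induction_on with
  | empty => exact fun _ _ => ⟨∅, finite_empty, rfl, pairwise_empty _, fun _ h => h.elim⟩
  | @insert C 𝒞 hn hf ih =>
    intro h1 h2
    obtain ⟨k0, k1⟩ := forall_mem_insert.1 h1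
    rw [sUnion_insert]
    exact SCrvB_union k0 (ih k1 (h2.mono (subset_insert _ _))) fun y ⟨y1, C', y2, y3⟩ =>
      h2 (mem_insert _ _) (mem_insert_of_mem _ y2) (fun e => hn (e ▸ y2)) ⟨y1, y3⟩

theorem SCrvB_arc (N : ℕ) : ∀ (A : Set (Rn n)) (a b : Rn n), Arc A a b → a ∈ Y → b ∈ Y →
    (A ∩ Y).Finite → (A ∩ Y).ncard = N → SCrvB_dec Y A := by
  induction N using Nat.strong_induction_on with
  | _ N ih =>
  intro A a b h ha hb hf hN
  by_cases e : A ∩ Y ⊆ {a, b}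
  · exact SCrvB_one (.inr ⟨a, b, h,
      e.antisymm (pair_subset ⟨h.tarc.left, ha⟩ ⟨h.tarc.right, hb⟩)⟩)
  obtain ⟨x, hx, hn⟩ := not_subset.1 e
  obtain ⟨n1, n2⟩ := not_or.1 hn
  obtain ⟨A₁, A₂, h1, h2, rfl, hi⟩ := h.split hx.1 n1 n2
  have s1 : A₁ ∩ Y ⊂ (A₁ ∪ A₂) ∩ Y := ⟨inter_subset_inter_left _ subset_union_left,
    fun k => n2 (hi.le ⟨(k ⟨h.tarc.right, hb⟩).1, h2.tarc.right⟩).symm⟩
  have s2 : A₂ ∩ Y ⊂ (A₁ ∪ A₂) ∩ Y := ⟨inter_subset_inter_left _ subset_union_right,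
    fun k => n1 (hi.le ⟨h1.tarc.left, (k ⟨h.tarc.left, ha⟩).1⟩).symm⟩
  exact SCrvB_union (ih _ (hN ▸ ncard_lt_ncard s1 hf) _ _ _ h1 ha hx.2 (hf.subset s1.1) rfl)
    (ih _ (hN ▸ ncard_lt_ncard s2 hf) _ _ _ h2 hx.2 hb (hf.subset s2.1) rfl)
    (hi ▸ singleton_subset_iff.2 hx.2)

theorem SCrvB_crc (h : Crc A) (hf : (A ∩ Y).Finite) : SCrvB_dec Y A := by
  rcases (A ∩ Y).subsingleton_or_nontrivial with e | ⟨a, ha, b, hb, hn⟩
  · exact SCrvB_one (.inl ⟨h, e⟩)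
  obtain ⟨A₁, A₂, h1, h2, rfl, hi⟩ := crc_split h ha.1 hb.1 hn
  exact SCrvB_union
    (SCrvB_arc _ _ _ _ h1 ha.2 hb.2 (hf.subset (inter_subset_inter_left _ subset_union_left)) rfl)
    (SCrvB_arc _ _ _ _ h2 ha.2 hb.2 (hf.subset (inter_subset_inter_left _ subset_union_right)) rfl)
    (hi ▸ pair_subset ha.2 hb.2)

theorem SCrvB_fin (hX : Poly X) (hY : Poly Y) (h : ∀ x ∈ X, x ∉ Y → (lk X x).Finite) :
    PC 1 (closure (X \ Y)) ∧ (closure (X \ Y) ∩ Y).Finite := by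
  obtain ⟨L, hL, -, h1, h2⟩ := adapted_two finite_empty hX hY
  have key : ∀ w ∈ closure (X \ Y), ∃ z, z ∉ Y ∧ fdim L z ≤ 1 ∧ w ∈ cface L z := fun w hw => by
    obtain ⟨z, hz, k⟩ := ((mem_closure_iff_frequently.1 hw).and_eventually (preg_near hL w)).exists
    exact ⟨z, hz.2, POne_dim hL (h1 z hz.1) (h z hz.1 hz.2), k⟩
  refine ⟨pc_lower hL fun w hw => ?_, .of_finite_image (f := face L)
    ((finite_faces hL).subset (image_subset_range _ _)) fun w hw w' _ e => ?_⟩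
  · obtain ⟨z, -, k1, k2⟩ := key w hw
    by_cases e : w ∈ face L z
    · exact (fdim_eq e).trans_le k1
    · exact (fdim_lt k2 e).le.trans k1
  · obtain ⟨z, k0, k1, k2⟩ := key w hw.1
    have k3 := fdim_lt k2 fun e => k0 (h2 w hw.2 ((face_eq e).ge (mem_face_self L z)))
    have k4 : fdir L w = ⊥ := Submodule.finrank_eq_zero.1 (show fdim L w = 0 by omega)
    have k5 := sub_mem_fdir (face_sub_cface L w (e.ge (mem_face_self L w')))
    exact (sub_eq_zero.1 ((Submodule.mem_bot ℝ).1 (k4 ▸ k5))).symm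

theorem open_dec0 (hX : Poly X) (hY : Poly Y) (h : ∀ x ∈ X, x ∉ Y → (lk X x).ncard = 2) :
    ∃ 𝒞 : Set (Set (Rn n)), 𝒞.Finite ∧ (∀ x ∈ X, x ∉ Y → ∃ C ∈ 𝒞, x ∈ C) ∧
      (𝒞.Pairwise fun C C' => C ∩ C' ⊆ Y) ∧
      ∀ C ∈ 𝒞, C ⊆ X ∧ ((Crc C ∧ (C ∩ Y).Subsingleton) ∨ ∃ a b, Arc C a b ∧ C ∩ Y = {a, b}) := by
  obtain ⟨p1, p2⟩ := SCrvB_fin hX hY fun x hx hy =>
    finite_of_ncard_ne_zero (by rw [h x hx hy]; omega)
  have hs : closure (X \ Y) ⊆ X := closure_minimal sdiff_subset hX.1.isClosed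
  have h2 : ∀ x ∈ X, x ∉ Y → (lk (closure (X \ Y)) x).ncard = 2 := fun x hx hy => by
    rw [← h x hx hy]
    refine congrArg _ (lk_congr ?_)
    filter_upwards [hY.1.isClosed.isOpen_compl.mem_nhds hy] with y k
    exact ⟨fun e => hs e, fun e => subset_closure ⟨e, k⟩⟩
  obtain ⟨𝒞, c1, c2, c3, c4, c5, c6⟩ := POne_main Y (poly_cl_diff hX hY)
    (fun x _ => p1.lk_finite (poly_cl_diff hX hY) x) fun x hx hy => (h2 x (hs hx) hy).le
  have key : ∀ C ∈ 𝒞, ∀ a b, Arc C a b → a ∈ Y := fun C hC a b k => by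
    by_contra e
    have := h2 a (hs (c2 ⟨C, hC, k.tarc.left⟩)) e
    rw [c3, lk_congr (POne_near c1 (fun C hC => (POne_poly (c6 C hC)).1.isClosed) hC
      fun C' h1 h2 h3 => e (c5 h1 hC h2 ⟨h3, k.tarc.left⟩)), POne_end k.poly k.tarc] at this
    omega
  obtain ⟨𝒟, d1, d2, d3, d4⟩ := SCrvB_sUnion c1 (fun C hC => by
    have f := p2.subset (inter_subset_inter_left Y ((subset_sUnion_of_mem hC).trans c2))
    exact (c6 C hC).elim (SCrvB_crc · f) fun ⟨a, b, k⟩ =>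
      SCrvB_arc _ _ _ _ k (key C hC a b k) (key C hC b a k.symm) f rfl) c5
  exact ⟨𝒟, d1, fun x hx hy => d2.ge (c4 x (nonempty_of_ncard_ne_zero (by rw [h2 x hx hy]; omega))),
    d3, fun C hC => ⟨(subset_sUnion_of_mem hC).trans (d2.le.trans (c2.trans hs)), d4 C hC⟩⟩

end BEp
end
end

-- merged part: Pool.Agent.Work.MP_f0515e_an.D3.SCrvA
section
/-! The generic member of a pencil of PL functions in the plane. -/

open Set Metric Filter Topology Function BEv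
open scoped NNReal

noncomputable section
namespace BEp

theorem SCrvA_two {h : Rn 2 → ℝ} (hh : TP h) {x v : Rn 2}
    (hp : ∀ᶠ p : Rn 2 × ℝ in 𝓝 (x, 0), h (p.1 + p.2 • v) = h p.1 + p.2) :
    (lk {z | h z = h x} x).ncard = 2 := by
  have hb : closedBall x 1 ∈ 𝓝 x := closedBall_mem_nhds x one_pos
  have e : lk (closedBall x 1) x = sphere 0 1 := Set.ext fun w =>
    ⟨fun k => mem_sphere_zero_iff_norm.2 k.1, fun k =>
      ⟨mem_sphere_zero_iff_norm.1 k, (YPLk_ray x w).eventually hb⟩⟩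
  have f1 : Tendsto (Prod.fst : Rn 2 × ℝ → Rn 2) (𝓝 (x, 0)) (𝓝 x) := continuous_fst.tendsto _
  have f2 : Tendsto (fun p : Rn 2 × ℝ => p.1 + p.2 • v) (𝓝 (x, 0)) (𝓝 x) :=
    Continuous.tendsto' (by fun_prop) _ _ (by simp)
  have := (reg_of_prod (v := v) (Poly.closedBall x 1) (mem_closedBall_self zero_le_one)
    (e ▸ (crc_sq 0 one_pos).tcrc) hh (by
      filter_upwards [hp, f1.eventually hb, f2.eventually hb] with p k k1 k2
      exact ⟨iff_of_true k2 k1, k⟩)).two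
  rwa [lk_congr (X := {y ∈ closedBall x 1 | h y = h x}) (Y := {z | h z = h x})
    (mem_of_superset hb fun y hy => and_iff_right hy)] at this

theorem gen_pencil0 {a β : Rn 2 → ℝ} (ha : TP a) (hβ : TP β) :
    {t : ℝ | ∃ y : Rn 2, ‖y‖ ≤ 1 ∧ 0 < β y ∧ a y + t * β y = 0 ∧
      (lk {z | a z + t * β z = 0} y).ncard ≠ 2}.Finite := by
  obtain ⟨L, h1, -, h3⟩ := adapted_tp finite_empty (h := fun y => ![a y, β y])
    (TP.pi (Fin.forall_fin_two.2 ⟨ha, hβ⟩)) 2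
  refine ((finite_faces h1).biUnion
    (t := fun F => {t : ℝ | (∃ y ∈ F, β y ≠ 0) ∧ ∀ z ∈ F, a z + t * β z = 0}) fun F _ =>
      Set.Subsingleton.finite ?_).subset ?_
  · rintro s ⟨⟨y, hy, k⟩, hs⟩ t ⟨-, ht⟩
    exact mul_right_cancel₀ k (add_left_cancel ((hs y hy).trans (ht y hy).symm))
  rintro t ⟨x, hx, hb, h0, hn⟩
  by_contra hT
  obtain ⟨y, hy, hne⟩ : ∃ y ∈ face L x, a y + t * β y ≠ 0 := by
    by_contra! k
    exact hT (mem_biUnion (mem_range_self x) ⟨⟨x, mem_face_self L x, hb.ne'⟩, k⟩)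
  have := SCrvA_two (h := fun z => a z + t * β z) (ha.add (hβ.const_mul t)) (x := x)
    (v := (a y + t * β y)⁻¹ • (y - x)) ?_
  · simp only [h0] at this
    exact hn this
  have hv : (a y + t * β y)⁻¹ • (y - x) ∈ fdir L x :=
    Submodule.smul_mem _ _ (sub_mem_fdir (face_sub_cface L x hy))
  have f1 : Tendsto (Prod.fst : Rn 2 × ℝ → Rn 2) (𝓝 (x, 0)) (𝓝 x) := continuous_fst.tendsto _
  filter_upwards [face_prod h1 hv, f1.eventually (preg_near h1 x),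
    f1.eventually (closedBall_mem_nhds x one_pos)] with p k1 k2 k3
  have hn : ‖p.1‖ ≤ 2 := by
    have := norm_add_le (p.1 - x) x
    rw [sub_add_cancel] at this
    linarith [mem_closedBall_iff_norm.1 k3]
  obtain ⟨A, hA⟩ := h3 p.1 hn
  have hA' : ∀ z ∈ cface L p.1, a z + t * β z = A.1 z 0 + t * A.1 z 1 + (A.2 0 + t * A.2 1) :=
    fun z hz => by
      have e0 : a z = A.1 z 0 + A.2 0 := congrFun (hA z hz) 0
      have e1 : β z = A.1 z 1 + A.2 1 := congrFun (hA z hz) 1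
      rw [e0, e1]
      ring
  have e1 := hA' _ (face_sub_cface _ _ k1)
  have e2 := hA' _ (face_sub_cface _ _ (mem_face_self L p.1))
  have e3 := hA' _ k2
  have e4 := hA' _ (cface_sub k2 (face_sub_cface _ _ hy))
  have e5 := inv_mul_cancel₀ hne
  generalize (a y + t * β y)⁻¹ = c at e1 e5 ⊢
  simp only [map_add, map_smul, map_sub, Pi.add_apply, Pi.smul_apply, Pi.sub_apply,
    smul_eq_mul] at e1
  rw [e1, e2]
  linear_combination p.2 * e5 - p.2 * c * e4 + p.2 * c * e3 - p.2 * c * h0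

end BEp
end
end

-- merged part: Pool.Agent.Work.MP_f0515e_an.D3.SCrv
section
/-! Curves in general position.
`gen_pencil`: take an arrangement `L` adapted to `y ↦ ![a y, β y]` on the ball of radius 2 (`adapted_tp`). A face meeting
the ball on which `a + t β` vanishes identically while `β` does not determines `t`; finitely many faces. For the other `t`
and a zero `y` with `0 < β y` the function `h = a + t β` is affine and not zero on `face L y`, so there is `v ∈ fdir L y` with slope one;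
by `face_prod` and `cface`, `h (z + s v) = h z + s` near `y`. With the homogeneous derivative `G` of `h` at `y` (`tp_der1`)
`G (ξ + s v) = G ξ + s` for all `ξ`, `s`; take `u` independent of `v`; the zero cone consists of the rays through
`u - G u • v` and `-u - G (-u) • v`.
`open_dec`: `X' = closure (X \ Y)` is `Poly` (`poly_cl_diff`); for an arrangement adapted to `X` and `Y` the faces inside `X \ Y` have
dimension at most one (finite links), so `PC 1 X'`, links of `X'` are finite and `V = X' ∩ Y` is finite (points of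
the closure of an edge outside the edge). Take `r` with `4 r` less than the distances in `V` and `2 r` less than the radii of `Poly.lk_sphere`;
`X'' = {x ∈ X' | r ≤ infDist x V}` (`poly_le`) has links with one point on the spheres and two elsewhere; `oneman`; add to
each arc its two radii (`arc_glue`, or `crc_glue` if both ends lie on the same sphere). Compare `petals` in `POne`.
About 200 + 350 lines. -/

open Set Metric Filter Topology Function BEv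
open scoped NNReal

noncomputable section
namespace BEp

theorem gen_pencil {a β : Rn 2 → ℝ} (ha : TP a) (hβ : TP β) :
    {t : ℝ | ∃ y : Rn 2, ‖y‖ ≤ 1 ∧ 0 < β y ∧ a y + t * β y = 0 ∧
      (lk {z | a z + t * β z = 0} y).ncard ≠ 2}.Finite := by
  exact gen_pencil0 ha hβ

theorem open_dec {n : ℕ} {X Y : Set (Rn n)} (hX : Poly X) (hY : Poly Y)
    (h : ∀ x ∈ X, x ∉ Y → (lk X x).ncard = 2) :
    ∃ 𝒞 : Set (Set (Rn n)), 𝒞.Finite ∧ (∀ x ∈ X, x ∉ Y → ∃ C ∈ 𝒞, x ∈ C) ∧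
      (𝒞.Pairwise fun C C' => C ∩ C' ⊆ Y) ∧
      ∀ C ∈ 𝒞, C ⊆ X ∧ ((Crc C ∧ (C ∩ Y).Subsingleton) ∨ ∃ a b, Arc C a b ∧ C ∩ Y = {a, b}) :=
  open_dec0 hX hY h

end BEp
end
end

-- merged part: Pool.Agent.Work.MP_f0515e_an.D3.SPush
section
/-! Vertical pushes. `bump_lip`: `min (infDist x X) (g x)` with `g` from `ptri_bump`, times a small constant.
`lh_add`: `lh_vert` or `plsg_lh`. About 100 lines. -/

open Set Metric Filter Topology Function BEv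
open scoped NNReal

noncomputable section
namespace BEp

theorem bump_lip {n : ℕ} {X T W : Set (Rn n)} (hX : Poly X) (hne : X.Nonempty)
    (hT : IsCompact T) (hW : IsOpen W) (hs : T ⊆ W) :
    ∃ b : Rn n → ℝ, TP b ∧ (∀ x, 0 ≤ b x) ∧ (∀ x ∈ X, b x = 0) ∧ (∀ x, x ∉ W → b x = 0) ∧
      (∀ x ∈ T, x ∉ X → 0 < b x) ∧ ∀ x y, |b x - b y| ≤ ‖x - y‖ / 2 := by
  obtain ⟨g, g1, g2, g3, g4⟩ := ptri_bump hT hW hs
  have c := hX.2.min g1
  obtain ⟨L, L1, hL⟩ := c.exists_bound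
  have L0 : 0 < 2 * L := by linarith
  refine ⟨fun x => min (infDist x X) (g x) / (2 * L), c.div_const _,
    fun x => div_nonneg (le_min infDist_nonneg (g2 x)) L0.le, fun x hx => ?_, fun x hx => ?_,
    fun x hx k => div_pos (lt_min ((hX.1.isClosed.notMem_iff_infDist_pos hne).1 k) (g3 x hx)) L0,
    fun x y => ?_⟩
  · simp only [infDist_zero_of_mem hx, min_eq_left (g2 x), zero_div]
  · simp only [g4 x hx, min_eq_right infDist_nonneg, zero_div]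
  · rw [← sub_div, abs_div, abs_of_pos L0, div_le_iff₀ L0]
    exact (hL x y).trans_eq (by ring)

theorem lh_add {n : ℕ} (i : Fin n) {b : Rn n → ℝ} (hb : TP b)
    (h : ∀ x y, |b x - b y| ≤ ‖x - y‖ / 2) {t : ℝ} (ht : |t| ≤ 1) :
    LH fun x : Rn n => update x i (x i + t * b x) := by
  refine lh_vert i ((TP.id'.apply i).add (hb.const_mul t)) (c := 1 / 2) (by norm_num)
    fun x p q hpq => ?_
  have e : ‖update x i q - update x i p‖ ≤ q - p := by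
    refine (pi_norm_le_iff_of_nonneg (by linarith)).2 fun j => ?_
    by_cases k : j = i
    · subst k
      simp [abs_of_nonneg (sub_nonneg.2 hpq)]
    · simpa [update_of_ne k] using hpq
  have e1 := h (update x i q) (update x i p)
  have e2 : |t * (b (update x i q) - b (update x i p))| ≤ |b (update x i q) - b (update x i p)| := by
    rw [abs_mul]
    exact mul_le_of_le_one_left (abs_nonneg _) ht
  have e3 := neg_abs_le (t * (b (update x i q) - b (update x i p)))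
  simp only [update_self]
  linarith

/-- The standing hypotheses on the moving disc. -/
structure Bs (D J X W : Set (Rn 3)) : Prop where
  pd : PDsc D J
  dx : D ∩ X ⊆ J
  dw : D ⊆ W

theorem Bs.mv {D J X W : Set (Rn 3)} (h : Bs D J X W) (JX : J ⊆ X) {Ψ : Rn 3 → Rn 3}
    (hΨ : Mv W Ψ) (hX : ∀ x ∈ X, Ψ x = x) : Bs (Ψ '' D) J X W := by
  obtain ⟨g, g1, g2, g3, g4⟩ := h.pd
  refine ⟨⟨Ψ ∘ g, hΨ.1.tp.comp g1, hΨ.1.inj.comp_injOn g2, by rw [image_comp, g3], ?_⟩, ?_, ?_⟩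
  · rw [image_comp, g4]
    exact EqOn.image_eq_self fun x hx => hX x (JX hx)
  · rintro _ ⟨⟨y, hy, rfl⟩, k⟩
    have e := hΨ.1.inj (hX _ k)
    rw [e] at k ⊢
    exact h.dx ⟨hy, k⟩
  · exact (image_mono h.dw).trans (hΨ.image_eq subset_rfl).subset

/-- The disc `D` meets the open model disc in the open parts of the polygons of `𝒦`. -/
structure Gdk (D : Set (Rn 3)) (𝒦 : Set (Set (Rn 3))) : Prop where
  fin : 𝒦.Finite
  crc : ∀ K ∈ 𝒦, Crc K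
  sub : ∀ K ∈ 𝒦, K ⊆ flat 2 ∩ D
  conn : ∀ K ∈ 𝒦, IsPreconnected (K \ eqt 2)
  ne : ∀ K ∈ 𝒦, (K \ eqt 2).Nonempty
  cov : ∀ x ∈ D ∩ flat 2, x ∉ eqt 2 → ∃ K ∈ 𝒦, x ∈ K
  disj : 𝒦.Pairwise fun K K' => K ∩ K' ⊆ eqt 2
  short : ∀ K ∈ 𝒦, ∀ K' ∈ 𝒦, closure (K' \ eqt 2) ∩ eqt 2 ⊆ K → K' ∩ eqt 2 ⊆ K

end BEp
end
end

-- merged part: Pool.Agent.Work.MP_f0515e_an.D3.SInit
section
/-! General position of a disc with respect to the model disc.
`arc_sub`: `Arc.split` twice. `arc_sub_uniq`: two arcs with the same ends inside an arc agree (`tarc_inv`, images are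
the same interval).
`clean_init`: `b` from `bump_lip` (`T = D`), `g` the parametrisation, `t ∈ (0, 1)` outside the finite set of `gen_pencil` for
`a = (g ·) 2`, `β = b ∘ g`; `Ψ` from `lh_add`, `D' = Ψ '' D` (`Bs.mv`). Apply `open_dec` to `D' ∩ flat 2` and `eqt 2`: a point
`x = Ψ (g y)` outside `eqt 2` is not in `X`, so `g y ∉ X`, `‖y‖ < 1`, `0 < b (g y)`, `‖pj3 x‖ < 1`; near `y` the polyhedron
`{z | ‖z‖ ≤ 1, Ψ (g z) ∈ flat 2}` is the zero set of the pencil (`lk_congr`, `lk_ncard_image`). A circle `C` of the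
decomposition is put in `𝒦`; an arc `C` from `a` to `b` has its ends in `I = J ∩ eqt 2`, which is then an arc, and
`C ∪ β` is put in `𝒦`, `β` the subarc of `I` from `a` to `b` (`crc_glue`). `short`: for an arc `K' = C' ∪ β'` the ends `a'`, `b'` lie in
`K ∩ eqt 2`, which is then a subarc `β` of `I`, and `β' ⊆ β` by `arc_sub`, `arc_sub_uniq`; for a circle use `TCrc.cl_diff`.
About 350 lines. -/

open Set Metric Filter Topology Function BEv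
open scoped NNReal

noncomputable section
namespace BEp

theorem arc_sub {n : ℕ} {A : Set (Rn n)} {a b x y : Rn n} (h : Arc A a b) (hx : x ∈ A)
    (hy : y ∈ A) (hne : x ≠ y) : ∃ A', Arc A' x y ∧ A' ⊆ A := by
  obtain ⟨γ, h1, h2, -, -, rfl⟩ := h
  obtain ⟨s, hs, rfl⟩ := hx
  obtain ⟨t, ht, rfl⟩ := hy
  have k := uIcc_subset_Icc hs ht
  exact ⟨_, PArc_sub h1 (fun e => hne (by rw [e])) (h2.mono k), image_mono k⟩

theorem sinit_real {B : Set ℝ} {p q : ℝ} (h : TArc B p q) : B = uIcc p q := by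
  obtain ⟨γ, h1, h2, rfl, rfl, rfl⟩ := h
  rcases h1.continuousOn.strictMonoOn_of_injOn_Icc' zero_le_one h2 with k | k
  · rw [← uIcc_of_le zero_le_one] at k ⊢
    exact h1.continuousOn.image_uIcc_of_monotoneOn k.monotoneOn
  · rw [← uIcc_of_le zero_le_one] at k ⊢
    exact h1.continuousOn.image_uIcc_of_antitoneOn k.antitoneOn

theorem arc_sub_uniq {n : ℕ} {A A₁ A₂ : Set (Rn n)} {a b x y : Rn n} (h : Arc A a b)
    (h1 : Arc A₁ x y) (h2 : Arc A₂ x y) (s1 : A₁ ⊆ A) (s2 : A₂ ⊆ A) : A₁ = A₂ := by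
  obtain ⟨f, hc, hi, -⟩ := tarc_inv h.tarc
  rw [← hi.image_eq_image_iff s1 s2, sinit_real (h1.tarc.image (hc.mono s1) (hi.mono s1)),
    sinit_real (h2.tarc.image (hc.mono s2) (hi.mono s2))]

/-- What is kept of a closed up curve. -/
def SInitQ {n : ℕ} (E I K : Set (Rn n)) : Prop :=
  K ∩ E ⊆ I ∧ (((K ∩ E).Subsingleton ∧ K ⊆ closure (K \ E)) ∨
    ∃ a b, Arc (K ∩ E) a b ∧ a ∈ closure (K \ E) ∧ b ∈ closure (K \ E))

theorem sinit_close {n : ℕ} {E I C : Set (Rn n)} (hI : I.Subsingleton ∨ ∃ x y, Arc I x y)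
    (IE : I ⊆ E) (CI : C ∩ E ⊆ I)
    (hC : (Crc C ∧ (C ∩ E).Subsingleton) ∨ ∃ a b, Arc C a b ∧ C ∩ E = {a, b}) :
    ∃ K, Crc K ∧ K ⊆ C ∪ I ∧ K \ E = C \ E ∧ IsPreconnected (K \ E) ∧ (K \ E).Nonempty ∧
      SInitQ E I K := by
  rcases hC with ⟨h1, h2⟩ | ⟨a, b, h1, h2⟩
  · have cl : closure (C \ E) = C := by
      rw [← sdiff_self_inter]
      exact h1.tcrc.cl_diff h2.finite
    refine ⟨C, h1, subset_union_left, rfl, ?_, ?_, CI, Or.inl ⟨h2, cl.ge⟩⟩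
    · rw [← sdiff_self_inter]
      rcases h2.eq_empty_or_singleton with e | ⟨x, e⟩
      · rw [e, sdiff_empty]
        exact h1.tcrc.conn.isPreconnected
      · rw [e]
        exact h1.tcrc.conn_diff x
    · rw [← closure_nonempty_iff, cl]
      exact h1.tcrc.conn.nonempty
  · have aI : a ∈ I := CI (h2.ge (by simp))
    have bI : b ∈ I := CI (h2.ge (by simp))
    obtain ⟨x, y, hI⟩ := hI.resolve_left fun k => h1.tarc.ne (k aI bI)
    obtain ⟨β, k1, k2⟩ := arc_sub hI aI bI h1.tarc.ne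
    have ab : ({a, b} : Set (Rn n)) ⊆ β := pair_subset k1.tarc.left k1.tarc.right
    have e1 : (C ∪ β) \ E = C \ E := by
      rw [union_sdiff_distrib, sdiff_eq_empty.2 (k2.trans IE), union_empty]
    have e2 : C \ E = C \ {a, b} := by rw [← h2, sdiff_self_inter]
    have e3 : (C ∪ β) ∩ E = β := by
      rw [union_inter_distrib_right, h2, inter_eq_left.2 (k2.trans IE), union_eq_right.2 ab]
    refine ⟨C ∪ β, crc_glue h1 k1 (subset_antisymm ?_ (subset_inter (h2.ge.trans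
      inter_subset_left) ab)), union_subset_union_right _ k2, e1, ?_, ?_, e3.le.trans k2,
      Or.inr ⟨a, b, e3.symm ▸ k1, ?_⟩⟩
    · exact (inter_subset_inter_right _ (k2.trans IE)).trans h2.le
    · rw [e1, e2]
      exact h1.tarc.conn_open
    · rw [e1, e2]
      exact h1.tarc.open_ne
    · rw [e1, e2, h1.tarc.cl]
      exact ⟨h1.tarc.left, h1.tarc.right⟩

theorem sinit_short {n : ℕ} {E I K K' : Set (Rn n)} (hI : I.Subsingleton ∨ ∃ x y, Arc I x y)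
    (h : SInitQ E I K) (h' : SInitQ E I K') (hs : closure (K' \ E) ∩ E ⊆ K) : K' ∩ E ⊆ K := by
  rcases h'.2 with ⟨-, k⟩ | ⟨a', b', k1, k2, k3⟩
  · exact fun x hx => hs ⟨k hx.1, hx.2⟩
  have ha : a' ∈ K ∩ E := ⟨hs ⟨k2, k1.tarc.left.2⟩, k1.tarc.left.2⟩
  have hb : b' ∈ K ∩ E := ⟨hs ⟨k3, k1.tarc.right.2⟩, k1.tarc.right.2⟩
  obtain ⟨x, y, hI⟩ := hI.resolve_left fun k => k1.tarc.ne (k (h.1 ha) (h.1 hb))
  obtain ⟨a, b, m, -⟩ := h.2.resolve_left fun k => k1.tarc.ne (k.1 ha hb)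
  obtain ⟨A', m1, m2⟩ := arc_sub m ha hb k1.tarc.ne
  rw [arc_sub_uniq hI k1 m1 h'.1 (m2.trans h.1)]
  exact m2.trans inter_subset_left

/-- The push into general position. -/
theorem sinit_gen {D J X W : Set (Rn 3)} (h : Bs D J X W) (hX : Poly X) (hW : IsOpen W)
    (JX : J ⊆ X) (KX : eqt 2 ⊆ X) (FX : flat 2 ∩ X ⊆ eqt 2) :
    ∃ D', Bs D' J X W ∧ ∀ x ∈ D' ∩ flat 2, x ∉ eqt 2 → (lk (D' ∩ flat 2) x).ncard = 2 := by
  obtain ⟨b, b1, -, b3, b4, b5, b6⟩ := bump_lip hX ((PDsc.conn_bd h.pd).nonempty.mono JX)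
    (PCel.cpt h.pd) hW h.dw
  obtain ⟨g, g1, g2, g3, g4⟩ := h.pd
  obtain ⟨t, ht, tT⟩ := (Ioo_infinite (zero_lt_one' ℝ)).exists_notMem_finite
    (gen_pencil (g1.apply 2) (b1.comp g1))
  have hΨ := lh_add (2 : Fin 3) b1 b6 (t := t) (by rw [abs_of_pos ht.1]; exact ht.2.le)
  set Ψ : Rn 3 → Rn 3 := fun x => update x 2 (x 2 + t * b x) with eΨ
  have fix : ∀ x, b x = 0 → Ψ x = x := fun x hx => by simp [eΨ, hx]
  have e2 : ∀ x, Ψ x 2 = x 2 + t * b x := fun x => update_self ..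
  refine ⟨Ψ '' D, h.mv JX ⟨hΨ, fun x hx => fix x (b4 x hx)⟩ fun x hx => fix x (b3 x hx), ?_⟩
  rintro x ⟨⟨_, hz, rfl⟩, hF⟩ hE
  obtain ⟨y, hy, rfl⟩ := g3.ge hz
  have nX : g y ∉ X := fun k => hE (FX ⟨hF, by rwa [fix _ (b3 _ k)]⟩)
  have y1 : ‖y‖ ≤ 1 := mem_closedBall_zero_iff.1 hy
  have y2 : ‖y‖ < 1 := y1.lt_of_ne fun k => nX (JX (g4.le ⟨y, mem_sphere_zero_iff_norm.2 k, rfl⟩))
  have x1 : ‖Ψ (g y)‖ < 1 := hF.1.lt_of_ne fun k => hE ⟨k, hF.2⟩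
  have z0 : g y 2 + t * b (g y) = 0 := (e2 _).symm.trans hF.2
  have hZ := poly_eq (Poly.closedBall (0 : Rn 2) 1) ((g1.apply 2).add ((b1.comp g1).const_mul t)) 0
  have k1 := (lk_ncard_image hZ (hΨ.tp.comp g1)
    (fun u hu v hv e => g2 hu.1 hv.1 (hΨ.inj e)) (x := y) ⟨hy, z0⟩).1
  have k2 : lk {z ∈ closedBall (0 : Rn 2) 1 | g z 2 + t * b (g z) = 0} y =
      lk {z | g z 2 + t * b (g z) = 0} y := by
    refine lk_congr ?_
    filter_upwards [isOpen_ball.mem_nhds (mem_ball_zero_iff.2 y2)] with z hz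
    exact and_iff_right (ball_subset_closedBall hz)
  have k3 : lk (Ψ '' D ∩ flat 2) (Ψ (g y)) = lk ((fun z => Ψ (g z)) ''
      {z ∈ closedBall (0 : Rn 2) 1 | g z 2 + t * b (g z) = 0}) (Ψ (g y)) := by
    refine lk_congr ?_
    filter_upwards [isOpen_ball.mem_nhds (mem_ball_zero_iff.2 x1)] with w hw
    constructor
    · rintro ⟨⟨_, hu, rfl⟩, k⟩
      obtain ⟨u, hu', rfl⟩ := g3.ge hu
      exact ⟨u, ⟨hu', (e2 _).symm.trans k.2⟩, rfl⟩
    · rintro ⟨u, hu, rfl⟩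
      exact ⟨⟨_, g3.le ⟨u, hu.1, rfl⟩, rfl⟩, (mem_ball_zero_iff.1 hw).le, (e2 _).trans hu.2⟩
  rw [k3, k1, k2]
  by_contra k
  exact tT ⟨y, y1, b5 _ hz nX, z0, k⟩

theorem clean_init {D J X W : Set (Rn 3)} (h : Bs D J X W) (hX : Poly X) (hW : IsOpen W)
    (JX : J ⊆ X) (KX : eqt 2 ⊆ X) (FX : flat 2 ∩ X ⊆ eqt 2)
    (hI : (J ∩ eqt 2).Subsingleton ∨ ∃ x y, Arc (J ∩ eqt 2) x y) :
    ∃ D' 𝒦, Bs D' J X W ∧ Gdk D' 𝒦 := by
  obtain ⟨D', h', hl⟩ := sinit_gen h hX hW JX KX FX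
  obtain ⟨𝒞, c1, c2, c3, c4⟩ := open_dec ((PCel.poly h'.pd).inter (len_half 2).symm.poly)
    (len_half 2).poly_eq hl
  choose! k k1 k2 k3 k4 k5 k6 using fun C (hC : C ∈ 𝒞) => sinit_close hI inter_subset_right
    (fun x hx => ⟨h'.dx ⟨((c4 C hC).1 hx.1).1, KX hx.2⟩, hx.2⟩) (c4 C hC).2
  refine ⟨D', k '' 𝒞, h', c1.image k, forall_mem_image.2 k1, forall_mem_image.2 fun C hC => ?_,
    forall_mem_image.2 k4, forall_mem_image.2 k5, fun x hx hE => ?_, ?_,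
    forall_mem_image.2 fun C hC => forall_mem_image.2 fun C' hC' =>
      sinit_short hI (k6 C hC) (k6 C' hC')⟩
  · refine (k2 C hC).trans (union_subset ((c4 C hC).1.trans (inter_comm _ _).le) fun x hx => ?_)
    exact ⟨⟨hx.2.1.le, hx.2.2⟩, PCel.sub h'.pd hx.1⟩
  · obtain ⟨C, hC, k⟩ := c2 x hx hE
    exact ⟨_, mem_image_of_mem _ hC, ((k3 C hC).ge ⟨k, hE⟩).1⟩
  · rintro _ ⟨C, hC, rfl⟩ _ ⟨C', hC', rfl⟩ ne x hx
    by_contra hE
    exact hE (c3 hC hC' (fun e => ne (by rw [e]))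
      ⟨((k3 C hC).le ⟨hx.1, hE⟩).1, ((k3 C' hC').le ⟨hx.2, hE⟩).1⟩)

end BEp
end
end

-- merged part: Pool.Agent.Work.MP_f0515e_an.D3.SIns
section
/-! The disc inside a polygon which lies in a disc.
`ins_exists`: pull back by `tp_linv`, `crc_ball`, `Ball.sub_convex`. `Ins.bd`: `E₀ \ K₀ = interior E₀ ⊆ ball 0 1`.
`Ins.side`: `T = g '' T₀`, `T₀ = k '' T` with `k` the left inverse, `Ball.side`.
`Ins.out`: `(closedBall 0 1 \ E₀) ∪ K₀ = closedBall 0 1 \ interior E₀`; in the chart of the ball it is `{1 ≤ ‖Φ⁻¹ x‖}` (`poly_le`).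
`Ins.strip`: in the chart `Φ` of `E₀`, `A = Φ⁻¹ (K₀ \ sphere 0 1)` is a preconnected relatively open part of the unit sphere and
`O₀ = Φ⁻¹ (ball 0 1 ∩ g ⁻¹' O)` is open and contains `A`; `T₀` is the set of `ρ • z`, `z ∈ A`, `1 < ρ`, with `ρ' • z ∈ O₀` for all
`ρ' ∈ [1, ρ]`; it is the union of the preconnected radial segments; to see that it is preconnected use the local boxes
`{ρ • z | z ∈ sphere ∩ ball z₀ δ, 1 < ρ < 1 + δ}` or the clopen argument for the sign directly.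
`Ins.swap`: `PCel.fill` gives `e` with `BijOn e E₀ E'` and `EqOn e g K₀`; glue with `g` on `(closedBall \ E₀) ∪ K₀` (`tp_glue`,
`injOn_two`). About 350 lines. -/

open Set Metric Filter Topology Function BEv
open scoped NNReal

noncomputable section
namespace BEp

variable {n : ℕ} {D J K E : Set (Rn n)}

/-- `E` is the disc bounded by the polygon `K` inside the disc `D` with boundary `J`. -/
def Ins (D J K E : Set (Rn n)) : Prop :=
  ∃ (g : Rn 2 → Rn n) (E₀ K₀ : Set (Rn 2)), TP g ∧ InjOn g (closedBall 0 1) ∧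
    g '' closedBall 0 1 = D ∧ g '' sphere 0 1 = J ∧ Ball E₀ K₀ ∧ E₀ ⊆ closedBall 0 1 ∧
    g '' E₀ = E ∧ g '' K₀ = K

theorem SIns_bd {E₀ K₀ : Set (Rn 2)} (hB : Ball E₀ K₀) (hE : E₀ ⊆ closedBall 0 1) {x : Rn 2}
    (h1 : x ∈ E₀) (h2 : x ∈ sphere (0 : Rn 2) 1) : x ∈ K₀ := by
  by_contra hx
  have h3 : x ∈ interior E₀ := hB.interior_eq ▸ ⟨h1, hx⟩
  have h4 := interior_mono hE h3
  rw [interior_closedBall _ one_ne_zero] at h4
  exact (mem_ball.1 h4).ne (mem_sphere.1 h2)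

theorem SIns_out {E₀ K₀ : Set (Rn 2)} (hB : Ball E₀ K₀) (hE : E₀ ⊆ closedBall 0 1) :
    Poly ((closedBall 0 1 \ E₀) ∪ K₀) := by
  have hs := hB.sub
  obtain ⟨Φ, hΦ, h1, h2⟩ := hB
  have m : ∀ (A : Set (Rn 2)) (x : Rn 2), x ∈ Φ '' A ↔ invFun Φ x ∈ A := fun A x =>
    ⟨by rintro ⟨y, hy, rfl⟩; rwa [hΦ.li], fun h => ⟨_, h, hΦ.ri x⟩⟩
  have e1 : ∀ x, x ∈ E₀ ↔ ‖invFun Φ x‖ ≤ 1 := fun x => by
    rw [← h1, m, mem_closedBall_zero_iff]
  have e2 : ∀ x, x ∈ K₀ ↔ ‖invFun Φ x‖ = 1 := fun x => by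
    rw [← h2, m, mem_sphere_zero_iff_norm]
  convert poly_le (Poly.closedBall (0 : Rn 2) 1) ((TP.const (1 : ℝ)).sub hΦ.tpi.norm_pi) using 1
  ext x
  constructor
  · rintro (⟨a, b⟩ | a)
    · exact ⟨a, by have := not_le.1 (mt (e1 x).2 b); linarith⟩
    · exact ⟨hE (hs a), by rw [(e2 x).1 a, sub_self]⟩
  · rintro ⟨a, b⟩
    by_cases c : x ∈ E₀
    · exact Or.inr ((e2 x).2 (le_antisymm ((e1 x).1 c) (by linarith)))
    · exact Or.inl ⟨a, c⟩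

theorem SIns_un {X : Type} [TopologicalSpace X] {A C : Set X} (hA : IsPreconnected A)
    (hc : A ⊆ closure C) {N : X → Set X} (ho : ∀ x ∈ A, IsOpen (N x)) (hm : ∀ x ∈ A, x ∈ N x)
    (hp : ∀ x ∈ A, IsPreconnected (N x ∩ C)) : IsPreconnected (⋃ x ∈ A, N x ∩ C) := by
  have sb : ∀ x ∈ A, N x ∩ C ⊆ ⋃ x ∈ A, N x ∩ C := fun x hx =>
    subset_biUnion_of_mem (u := fun x => N x ∩ C) hx
  have mt : ∀ x ∈ A, ∀ y ∈ A, ∀ z ∈ A, z ∈ N x → z ∈ N y →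
      ∃ w, w ∈ N x ∩ C ∧ w ∈ N y ∩ C := fun x hx y hy z hz h1 h2 => by
    obtain ⟨w, ⟨a, b⟩, c⟩ := mem_closure_iff.1 (hc hz) _ ((ho x hx).inter (ho y hy)) ⟨h1, h2⟩
    exact ⟨w, ⟨a, c⟩, b, c⟩
  refine isPreconnected_iff_subset_of_disjoint.2 fun u v hu hv cov dis => ?_
  have no : ∀ x ∈ A, ∀ y ∈ A, ∀ z ∈ A, z ∈ N x → z ∈ N y → N x ∩ C ⊆ u → N y ∩ C ⊆ v →
      False := fun x hx y hy z hz h1 h2 a b => by
    obtain ⟨w, w1, w2⟩ := mt x hx y hy z hz h1 h2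
    have : w ∈ (⋃ x ∈ A, N x ∩ C) ∩ (u ∩ v) := ⟨sb x hx w1, a w1, b w2⟩
    rw [dis] at this
    exact this
  have al : ∀ x ∈ A, N x ∩ C ⊆ u ∨ N x ∩ C ⊆ v := fun x hx =>
    isPreconnected_iff_subset_of_disjoint.1 (hp x hx) u v hu hv ((sb x hx).trans cov)
      (eq_empty_of_subset_empty (dis ▸ inter_subset_inter_left _ (sb x hx)))
  have op : ∀ w : Set X, IsOpen (⋃ x ∈ {x ∈ A | N x ∩ C ⊆ w}, N x) := fun w =>
    isOpen_biUnion fun x hx => ho x hx.1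
  rcases isPreconnected_iff_subset_of_disjoint.1 hA _ _ (op u) (op v) (fun x hx =>
    (al x hx).imp (fun h => mem_biUnion (t := fun x => N x) ⟨hx, h⟩ (hm x hx))
      (fun h => mem_biUnion (t := fun x => N x) ⟨hx, h⟩ (hm x hx)))
    (eq_empty_of_forall_notMem fun z ⟨hz, h1, h2⟩ => by
      obtain ⟨x, hx, a⟩ := mem_iUnion₂.1 h1
      obtain ⟨y, hy, b⟩ := mem_iUnion₂.1 h2
      exact no x hx.1 y hy.1 z hz a b hx.2 hy.2) with h | h
  · refine Or.inl (iUnion₂_subset fun y hy => (al y hy).resolve_right fun b => ?_)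
    obtain ⟨x, hx, a⟩ := mem_iUnion₂.1 (h hy)
    exact no x hx.1 y hy y hy a (hm y hy) hx.2 b
  · refine Or.inr (iUnion₂_subset fun y hy => (al y hy).resolve_left fun b => ?_)
    obtain ⟨x, hx, a⟩ := mem_iUnion₂.1 (h hy)
    exact no y hy x hx.1 y hy (hm y hy) a b hx.2

theorem ins_exists (hD : PDsc D J) (hK : Crc K) (hs : K ⊆ D) : ∃ E, Ins D J K E := by
  obtain ⟨g, hg, hi, h1, h2⟩ := hD
  obtain ⟨k, hk, e⟩ := tp_linv (Poly.closedBall (0 : Rn 2) 1) hg hi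
  have r : ∀ y ∈ K, k y ∈ closedBall (0 : Rn 2) 1 ∧ g (k y) = y := fun y hy => by
    obtain ⟨x, hx, rfl⟩ : y ∈ g '' closedBall 0 1 := h1 ▸ hs hy
    rw [e x hx]
    exact ⟨hx, rfl⟩
  have ik : InjOn k K := fun y hy z hz h => by rw [← (r y hy).2, h, (r z hz).2]
  obtain ⟨E₀, hB⟩ := crc_ball (hK.image hk ik)
  refine ⟨_, g, E₀, _, hg, hi, h1, h2, hB, hB.sub_convex (by norm_num) (convex_closedBall _ _)
    (by rintro _ ⟨y, hy, rfl⟩; exact (r y hy).1), rfl, ?_⟩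
  rw [image_image]
  exact (image_congr fun y hy => (r y hy).2).trans (image_id' K)

theorem Ins.pdsc (h : Ins D J K E) : PDsc E K := by
  obtain ⟨g, E₀, K₀, hg, hi, -, -, hB, hE, rfl, rfl⟩ := h
  exact hB.cel.image hg (hi.mono hE)

theorem Ins.sub (h : Ins D J K E) : E ⊆ D := by
  obtain ⟨g, E₀, K₀, -, -, rfl, -, -, hE, rfl, -⟩ := h
  exact image_mono hE

theorem Ins.bd (h : Ins D J K E) : E ∩ J ⊆ K := by
  obtain ⟨g, E₀, K₀, -, hi, -, rfl, hB, hE, rfl, rfl⟩ := h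
  rintro _ ⟨⟨a, ha, rfl⟩, b, hb, e⟩
  obtain rfl := hi (sphere_subset_closedBall hb) (hE ha) e
  exact mem_image_of_mem g (SIns_bd hB hE ha hb)

theorem Ins.side (h : Ins D J K E) {T : Set (Rn n)} (hT : IsPreconnected T) (hs : T ⊆ D)
    (hd : Disjoint T K) : T ⊆ E ∨ Disjoint T E := by
  obtain ⟨g, E₀, K₀, hg, hi, rfl, -, hB, hE, rfl, rfl⟩ := h
  obtain ⟨k, hk, e⟩ := tp_linv (Poly.closedBall (0 : Rn 2) 1) hg hi
  have r : ∀ y ∈ T, g (k y) = y := fun y hy => by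
    obtain ⟨x, hx, rfl⟩ := hs hy
    rw [e x hx]
  rcases hB.side (hT.image k hk.continuous.continuousOn) (disjoint_left.2 (by
    rintro _ ⟨y, hy, rfl⟩ h
    exact disjoint_left.1 hd hy ⟨_, h, r y hy⟩)) with h | h
  · exact Or.inl fun y hy => ⟨_, (h (mem_image_of_mem k hy)).1, r y hy⟩
  · refine Or.inr (disjoint_left.2 ?_)
    rintro _ hy ⟨a, ha, rfl⟩
    exact disjoint_left.1 h (mem_image_of_mem k hy) (by rwa [e a (hE ha)])

theorem Ins.out (h : Ins D J K E) : Poly ((D \ E) ∪ K) := by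
  obtain ⟨g, E₀, K₀, hg, hi, rfl, -, hB, hE, rfl, rfl⟩ := h
  rw [← hi.image_sdiff_subset hE, ← image_union]
  exact (SIns_out hB hE).image hg

theorem Ins.strip (h : Ins D J K E) (hc : IsPreconnected (K \ J)) {O : Set (Rn n)}
    (hO : IsOpen O) (hs : K \ J ⊆ O) :
    ∃ T, IsPreconnected T ∧ T ⊆ (D \ E) ∩ O ∧
      ∀ x ∈ K \ J, ∀ᶠ y in 𝓝 x, y ∈ D \ E → y ∈ T := by
  obtain ⟨g, E₀, K₀, hg, hi, rfl, rfl, hB, hE, rfl, rfl⟩ := h
  obtain ⟨k, hk, e⟩ := tp_linv (Poly.closedBall (0 : Rn 2) 1) hg hi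
  have hK : K₀ ⊆ closedBall 0 1 := hB.sub.trans hE
  have r : ∀ x ∈ k '' (g '' K₀ \ g '' sphere 0 1), x ∈ K₀ ∧ ball 0 1 ∩ g ⁻¹' O ∈ 𝓝 x := by
    rintro _ ⟨_, hy, rfl⟩
    obtain ⟨⟨a, ha, rfl⟩, h2⟩ := id hy
    rw [e a (hK ha)]
    refine ⟨ha, (isOpen_ball.inter (hO.preimage hg.continuous)).mem_nhds ⟨?_, hs hy⟩⟩
    exact mem_ball.2 (lt_of_le_of_ne (hK ha) fun h => h2 (mem_image_of_mem g h))
  choose! N n1 n2 n3 _ n4 using fun x hx => hB.loc (r x hx).1 (r x hx).2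
  have hT := SIns_un (C := E₀ᶜ) (hc.image k hk.continuous.continuousOn)
    (fun x hx => hB.closure_out ▸ Or.inr (r x hx).1) n1 n2 n4
  refine ⟨_, hT.image g hg.continuous.continuousOn, ?_, fun x hx => ?_⟩
  · rintro _ ⟨y, hy, rfl⟩
    obtain ⟨x, hx, a, b⟩ := mem_iUnion₂.1 hy
    refine ⟨?_, (n3 x hx a).2⟩
    rw [← hi.image_sdiff_subset hE]
    exact mem_image_of_mem g ⟨ball_subset_closedBall (n3 x hx a).1, b⟩
  · have m := mem_image_of_mem k hx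
    filter_upwards [hk.continuous.continuousAt.preimage_mem_nhds ((n1 _ m).mem_nhds (n2 _ m))]
      with y a b
    rw [← hi.image_sdiff_subset hE] at b
    obtain ⟨z, hz, rfl⟩ := b
    rw [mem_preimage, e z hz.1] at a
    exact mem_image_of_mem g (mem_iUnion₂.2 ⟨_, m, a, hz.2⟩)

theorem Ins.swap (h : Ins D J K E) {E' : Set (Rn n)} (hE : PDsc E' K)
    (hd : Disjoint E' (D \ E)) : PDsc ((D \ E) ∪ E') J := by
  obtain ⟨g, E₀, K₀, hg, hi, rfl, rfl, hB, hs, rfl, rfl⟩ := h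
  have hK : K₀ ⊆ closedBall 0 1 := hB.sub.trans hs
  obtain ⟨e, he, b, ek⟩ := PCel.fill hE hB hg (hi.mono hK).bijOn_image
  obtain ⟨f, hf, f1, f2⟩ := tp_glue (SIns_out hB hs) hB.poly hg he (by
    rintro x ⟨a | a, c⟩
    · exact absurd c a.2
    · exact (ek a).symm)
  rw [← hi.image_sdiff_subset hs] at hd ⊢
  have u : closedBall (0 : Rn 2) 1 = (closedBall 0 1 \ E₀) ∪ E₀ := (sdiff_union_of_subset hs).symm
  have f3 : EqOn f g (closedBall 0 1 \ E₀) := f1.mono subset_union_left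
  refine ⟨f, hf, ?_, ?_, ?_⟩
  · rw [u]
    refine injOn_two (f3.injOn_iff.2 (hi.mono sdiff_subset)) (f2.injOn_iff.2 b.injOn)
      fun z hz w hw h => ?_
    rw [f3 hz, f2 hw] at h
    exact absurd (mem_image_of_mem g hz) (h ▸ disjoint_left.1 hd (b.mapsTo hw))
  · conv_lhs => rw [u]
    rw [image_union, f3.image_eq, f2.image_eq, b.image_eq]
  · refine (f1.mono fun z hz => ?_).image_eq
    by_cases c : z ∈ E₀
    · exact Or.inr (SIns_bd hB hs c hz)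
    · exact Or.inl ⟨sphere_subset_closedBall hz, c⟩

end BEp
end
end

-- merged part: Pool.Agent.Work.MP_f0515e_an.D3.SStep
section
/-! One surgery step.
`gdk_min`: `K = lay K₀ 0` (`crc_lay`), `Ball E₀ K₀` (`crc_ball`), `E₀ ⊆ closedBall 0 1`; choose `K` with `E₀` minimal for inclusion
among the finitely many balls. If a point of `lay E₀ 0 \ K` lies in `D`, it is not in `eqt 2` (interior of `E₀`), so it lies in some `K' ≠ K`; the open
part of `K'` is preconnected and misses `K`, so it lies in `E`; `closure (K' \ eqt 2) ∩ eqt 2 ⊆ E ∩ eqt 2 ⊆ K`, by `short` `K' ⊆ E`,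
`Ball.mono` gives `E₀' ⊆ E₀`, minimality gives equality, so `K' = K` (`Ball.frontier_eq`).
`clean_step`: `E'` from `ins_exists`, `R = (D \ E') ∪ K`, `D₁ = (D \ E') ∪ E` (`Ins.swap`), `K \ J = K \ eqt 2`. `O` is the set of points with
`‖pj3 x‖ < 1` outside the other polygons; on the strip `T` of `Ins.strip` the height does not vanish, so it has a sign `σ`.
`Y = closure ({x ∈ R | σ * x 2 ≤ 0} \ K)` is `Poly` and misses `K \ eqt 2`. Push `D₁` by `lh_add` with `t = σ` and `b` from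
`bump_lip` for `X ∪ Y`. `𝒦' = {K' ∈ 𝒦 | K' ≠ K ∧ Disjoint (K' \ eqt 2) E'}` (`Ins.side`). About 350 lines. -/

open Set Metric Filter Topology Function BEv
open scoped NNReal

noncomputable section
namespace BEp

theorem sstep_lay {K : Set (Rn 3)} (h : K ⊆ flat 2) : lay {y | mk3 y 0 ∈ K} 0 = K := by
  have e : ∀ x : Rn 3, x 2 = 0 → mk3 (pj3 x) 0 = x := fun x hx => by rw [← hx, mk3_pj3]
  ext x
  constructor
  · rintro ⟨h1, h2⟩
    exact e x h2 ▸ h1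
  · intro hx
    exact ⟨show mk3 (pj3 x) 0 ∈ K from (e x (h hx).2).symm ▸ hx, (h hx).2⟩

theorem sstep_ball {K : Set (Rn 3)} (h : K ⊆ flat 2) (hK : Crc K) :
    ∃ B, Ball B {y | mk3 y 0 ∈ K} ∧ B ⊆ closedBall 0 1 := by
  obtain ⟨B, hB⟩ := crc_ball ((crc_lay 0).1 ((sstep_lay h).symm ▸ hK))
  refine ⟨B, hB, hB.sub_convex (by norm_num) (convex_closedBall 0 1) fun y hy => ?_⟩
  have h1 := h hy
  rw [flat_eq] at h1
  simpa only [pj3_mk3] using h1.1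

theorem gdk_min {D : Set (Rn 3)} {𝒦 : Set (Set (Rn 3))} (h : Gdk D 𝒦) (hne : 𝒦.Nonempty) :
    ∃ K ∈ 𝒦, ∃ E, PDsc E K ∧ E ⊆ flat 2 ∧ E ∩ eqt 2 ⊆ K ∧ E ∩ D ⊆ K := by
  choose! b hb hb1 using fun K (hK : K ∈ 𝒦) =>
    sstep_ball ((h.sub K hK).trans inter_subset_left) (h.crc K hK)
  have hl := fun K (hK : K ∈ 𝒦) => sstep_lay ((h.sub K hK).trans inter_subset_left)
  obtain ⟨K, hK, hm⟩ := h.fin.exists_minimalFor b 𝒦 hne
  have h1 : PDsc (lay (b K) 0) K := by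
    have := (hb K hK).cel.image (TP.id'.mk3 (TP.const 0))
      (fun x _ y _ e => by simpa only [pj3_mk3] using congrArg pj3 e)
    rwa [← lay_eq, ← lay_eq, hl K hK] at this
  have h2 : lay (b K) 0 ∩ eqt 2 ⊆ K := by
    rintro x ⟨hx, hx'⟩
    rw [← hl K hK]
    refine ⟨by_contra fun k => ?_, hx.2⟩
    have k1 : pj3 x ∈ interior (b K) := (hb K hK).interior_eq ▸ ⟨hx.1, k⟩
    have k2 := interior_mono (hb1 K hK) k1
    rw [interior_closedBall _ one_ne_zero] at k2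
    rw [eqt_eq] at hx'
    exact (mem_ball.1 k2).ne (mem_sphere.1 hx'.1)
  refine ⟨K, hK, _, h1, ?_, h2, ?_⟩
  · rw [flat_eq]
    exact fun x hx => ⟨hb1 K hK hx.1, hx.2⟩
  rintro x ⟨hx, hD⟩
  by_contra k
  have k1 : x ∉ eqt 2 := fun e => k (h2 ⟨hx, e⟩)
  obtain ⟨K', hK', hx'⟩ := h.cov x ⟨hD, flat_eq ▸ ⟨hb1 K hK hx.1, hx.2⟩⟩ k1
  have k2 : K ≠ K' := fun e => k (e ▸ hx')
  have k3 : K' \ eqt 2 ⊆ lay (b K) 0 := by
    rcases (hb K hK).side ((h.conn K' hK').image pj3 tp_pj3.continuous.continuousOn)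
      (disjoint_left.2 (by
        rintro _ ⟨y, hy, rfl⟩ m
        refine hy.2 (h.disj hK hK' k2 ⟨?_, hy.1⟩)
        rw [← hl K hK]
        exact ⟨m, (h.sub K' hK' hy.1).1.2⟩)) with m | m
    · exact fun y hy => ⟨(m ⟨y, hy, rfl⟩).1, (h.sub K' hK' hy.1).1.2⟩
    · exact absurd hx.1 (disjoint_left.1 m ⟨x, ⟨hx', k1⟩, rfl⟩)
  have k4 := h.short K hK K' hK'
    ((inter_subset_inter_left _ (closure_minimal k3 h1.cpt.isClosed)).trans h2)
  have k5 : b K' ⊆ b K := (hb K hK).mono le_rfl (hb K' hK') fun y hy => by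
    have m : mk3 y 0 ∈ lay (b K) 0 := by
      by_cases e : mk3 y 0 ∈ eqt 2
      · exact h1.sub (k4 ⟨hy, e⟩)
      · exact k3 ⟨hy, e⟩
    simpa only [pj3_mk3] using m.1
  refine k2 ?_
  rw [← hl K hK, ← hl K' hK', ← (hb K hK).frontier_eq, ← (hb K' hK').frontier_eq,
    k5.antisymm (hm hK' k5)]

theorem sstep_sign {T : Set (Rn 3)} (hT : IsPreconnected T) (h : ∀ x ∈ T, x 2 ≠ 0) :
    ∃ σ : ℝ, σ * σ = 1 ∧ |σ| ≤ 1 ∧ ∀ x ∈ T, 0 < σ * x 2 := by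
  rcases hT.subset_or_subset (u := {x : Rn 3 | 0 < x 2}) (v := {x : Rn 3 | x 2 < 0})
    (isOpen_lt continuous_const (continuous_apply 2))
    (isOpen_lt (continuous_apply 2) continuous_const)
    (disjoint_left.2 fun x h1 h2 => lt_asymm (α := ℝ) h1 h2)
    (fun x hx => (h x hx).lt_or_gt.symm) with k | k
  · exact ⟨1, mul_one 1, abs_one.le, fun x hx => (one_mul (x 2)).symm ▸ k hx⟩
  · refine ⟨-1, by norm_num, by norm_num, fun x hx => ?_⟩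
    have : x 2 < 0 := k hx
    linarith

theorem clean_step {D J X W : Set (Rn 3)} {𝒦 : Set (Set (Rn 3))} (h : Bs D J X W)
    (hk : Gdk D 𝒦) (hne : 𝒦.Nonempty) (hX : Poly X) (hW : IsOpen W) (JX : J ⊆ X)
    (KX : eqt 2 ⊆ X) (FX : flat 2 ∩ X ⊆ eqt 2) (FW : flat 2 ⊆ W) :
    ∃ D' 𝒦', Bs D' J X W ∧ Gdk D' 𝒦' ∧ 𝒦' ⊂ 𝒦 := by
  obtain ⟨K, hK, E, e1, e2, e3, e4⟩ := gdk_min hk hne
  have KF : K ⊆ flat 2 := (hk.sub K hK).trans inter_subset_left
  have KD : K ⊆ D := (hk.sub K hK).trans inter_subset_right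
  obtain ⟨E', hI⟩ := ins_exists h.pd (hk.crc K hK) KD
  have KE : K ⊆ E' := hI.pdsc.sub
  have b1 : Bs ((D \ E') ∪ E) J X W := by
    refine ⟨hI.swap e1 (disjoint_left.2 fun x hx hx' => hx'.2 (KE (e4 ⟨hx, hx'.1⟩))), ?_,
      union_subset (sdiff_subset.trans h.dw) (e2.trans FW)⟩
    rintro x ⟨hx | hx, hx'⟩
    · exact h.dx ⟨hx.1, hx'⟩
    · exact h.dx ⟨KD (e3 ⟨hx, FX ⟨e2 hx, hx'⟩⟩), hx'⟩
  have KJ : K \ J = K \ eqt 2 := by
    ext x
    exact and_congr_right fun hx => not_congr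
      ⟨fun k => FX ⟨KF hx, JX k⟩, fun k => h.dx ⟨KD hx, KX k⟩⟩
  obtain ⟨T, t1, t2, t3⟩ := hI.strip (KJ ▸ hk.conn K hK)
    (O := {x | ‖hz 2 x‖ < 1} \ ⋃ K' ∈ 𝒦 \ {K}, K')
    ((isOpen_lt (tp_hz 2).continuous.norm continuous_const).sdiff
      ((hk.fin.subset sdiff_subset).isClosed_biUnion fun K' hK' =>
        (hk.crc K' hK'.1).poly.1.isClosed))
    (by
      rw [KJ]
      rintro x ⟨hx, hx'⟩
      refine ⟨?_, fun k => ?_⟩
      · show ‖hz 2 x‖ < 1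
        rw [pfill_hz_self (KF hx).2]
        exact lt_of_le_of_ne (KF hx).1 fun k => hx' ⟨k, (KF hx).2⟩
      · obtain ⟨K', hK', k⟩ := mem_iUnion₂.1 k
        exact hx' (hk.disj hK'.1 hK hK'.2 ⟨k, hx⟩))
  obtain ⟨σ, s1, s2, s3⟩ := sstep_sign t1 fun x hx h0 => by
    obtain ⟨⟨k1, k2⟩, k3, k4⟩ := t2 hx
    have k5 : ‖x‖ < 1 := pfill_hz_self h0 ▸ k3
    obtain ⟨K', hK', k⟩ := hk.cov x ⟨k1, k5.le, h0⟩ fun k => k5.ne k.1
    exact k4 (mem_iUnion₂.2 ⟨K', ⟨hK', fun e => k2 (KE ((show K' = K from e) ▸ k))⟩, k⟩)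
  have hY := poly_cl_diff (poly_le hI.out (D := fun x : Rn 3 => σ * x 2)
    ((TP.id'.apply 2).const_mul σ)) (hk.crc K hK).poly
  set Y := closure ({x ∈ (D \ E') ∪ K | σ * x 2 ≤ 0} \ K) with hYdef
  have y1 : ∀ x ∈ D \ E', σ * x 2 ≤ 0 → x ∈ Y := fun x hx k =>
    subset_closure ⟨⟨Or.inl hx, k⟩, fun m => hx.2 (KE m)⟩
  have y2 : Y ⊆ D :=
    (closure_minimal (sdiff_subset.trans (sep_subset _ _)) hI.out.1.isClosed).trans
      (union_subset sdiff_subset KD)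
  have y3 : ∀ x ∈ K \ eqt 2, x ∉ Y := fun x hx k => by
    obtain ⟨y, k1, k2⟩ := ((mem_closure_iff_frequently.1 k).and_eventually
      (t3 x (KJ ▸ hx))).exists
    exact (s3 y (k2 (k1.1.1.resolve_right k1.2))).not_ge k1.1.2
  obtain ⟨b, c1, c2, c3, c4, c5, c6⟩ := bump_lip (hX.union hY)
    (h.pd.conn_bd.nonempty.mono (JX.trans subset_union_left)) b1.pd.cpt hW b1.dw
  have fx : ∀ x : Rn 3, b x = 0 → update x 2 (x 2 + σ * b x) = x := fun x hx => by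
    rw [hx, mul_zero, add_zero, update_eq_self]
  have b2 := b1.mv JX (Ψ := fun x => update x 2 (x 2 + σ * b x))
    ⟨lh_add 2 c1 c6 s2, fun x hx => fx x (c4 x hx)⟩ fun x hx => fx x (c3 x (Or.inl hx))
  refine ⟨_, {K' ∈ 𝒦 | K' ≠ K ∧ Disjoint (K' \ eqt 2) E'}, b2,
    ⟨hk.fin.subset (sep_subset _ _), fun K' hK' => hk.crc K' hK'.1, fun K' hK' x hx => ?_,
      fun K' hK' => hk.conn K' hK'.1, fun K' hK' => hk.ne K' hK'.1, ?_,
      hk.disj.mono (sep_subset _ _), fun K' hK' K'' hK'' => hk.short K' hK'.1 K'' hK''.1⟩,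
    ⟨sep_subset _ _, fun k => (k hK).2.1 rfl⟩⟩
  · obtain ⟨k1, k2⟩ := hk.sub K' hK'.1 hx
    refine ⟨k1, ?_⟩
    by_cases e : x ∈ eqt 2
    · exact b2.pd.sub (h.dx ⟨k2, KX e⟩)
    · have k3 : x ∈ D \ E' := ⟨k2, disjoint_left.1 hK'.2.2 ⟨hx, e⟩⟩
      exact ⟨x, Or.inl k3, fx x (c3 x (Or.inr (y1 x k3 (by rw [k1.2, mul_zero]))))⟩
  · rintro _ ⟨⟨y, hy, rfl⟩, k1⟩ k2
    have k3 : y 2 + σ * b y = 0 := by simpa using k1.2
    have k4 : σ * y 2 + b y = 0 := by linear_combination σ * k3 - b y * s1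
    have k5 : b y = 0 := by
      rcases hy with hy | hy
      · exact c3 y (Or.inr (y1 y hy (by linarith [c2 y])))
      · rw [(e2 hy).2, mul_zero, zero_add] at k4
        exact k4
    simp only [fx y k5] at k1 k2 ⊢
    rcases hy with hy | hy
    · obtain ⟨K', hK', k⟩ := hk.cov y ⟨hy.1, k1⟩ k2
      have k6 : K' ≠ K := fun e => hy.2 (KE (e ▸ k))
      refine ⟨K', ⟨hK', k6, (hI.side (hk.conn K' hK')
        (sdiff_subset.trans ((hk.sub K' hK').trans inter_subset_right))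
        (disjoint_left.2 fun z hz m => hz.2 (hk.disj hK' hK k6 ⟨hz.1, m⟩))).resolve_left
          fun m => hy.2 (m ⟨k, k2⟩)⟩, k⟩
    · refine absurd k5 (c5 y (Or.inr hy) ?_).ne'
      rintro (m | m)
      · exact k2 (FX ⟨k1, m⟩)
      · exact y3 y ⟨e4 ⟨hy, y2 m⟩, k2⟩ m

end BEp
end
end

-- merged part: Pool.Agent.Work.MP_f0515e_an.D3.SClean
section
/-! EXPORT (cleaning of discs against fixed flat discs). Owner h93.
`clean_std`: induction on `ncard 𝒦`. `clean_one`: transport by the chart of the flat disc. `clean_all`: induction on a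
finite set `S` of indices, with the fixed polyhedron `X ∪ ⋃ a ∈ S, F a`. About 200 lines. -/

open Set Metric Filter Topology Function BEv
open scoped NNReal

noncomputable section
namespace BEp

theorem clean_std {D J X W : Set (Rn 3)} (h : Bs D J X W) (hX : Poly X) (hW : IsOpen W)
    (JX : J ⊆ X) (KX : eqt 2 ⊆ X) (FX : flat 2 ∩ X ⊆ eqt 2) (FW : flat 2 ⊆ W)
    (hI : (J ∩ eqt 2).Subsingleton ∨ ∃ x y, Arc (J ∩ eqt 2) x y) :
    ∃ D', Bs D' J X W ∧ D' ∩ flat 2 ⊆ J := by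
  obtain ⟨D₁, 𝒦, h1, h2⟩ := clean_init h hX hW JX KX FX hI
  clear h
  induction hn : 𝒦.ncard using Nat.strong_induction_on generalizing D₁ 𝒦 with
  | _ m ih =>
    rcases 𝒦.eq_empty_or_nonempty with rfl | hne
    · refine ⟨D₁, h1, fun x hx => h1.dx ⟨hx.1, KX (by_contra fun k => ?_)⟩⟩
      obtain ⟨K, hK, -⟩ := h2.cov x hx k
      exact hK
    · obtain ⟨D₂, 𝒦', k1, k2, k3⟩ := clean_step h1 h2 hne hX hW JX KX FX FW
      exact ih _ (hn ▸ ncard_lt_ncard k3 h2.fin) D₂ 𝒦' k1 k2 rfl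

theorem SClean_image {D J X W : Set (Rn 3)} (h : Bs D J X W) {Φ : Rn 3 → Rn 3} (hΦ : LH Φ) :
    Bs (Φ '' D) (Φ '' J) (Φ '' X) (Φ '' W) :=
  ⟨h.pd.image hΦ.tp hΦ.inj.injOn, by rw [← image_inter hΦ.inj]; exact image_mono h.dx,
    image_mono h.dw⟩

theorem clean_one {D J X W F K : Set (Rn 3)} (h : Bs D J X W) (hF : Dsc 2 F K) (hX : Poly X)
    (hW : IsOpen W) (JX : J ⊆ X) (KX : K ⊆ X) (FX : F ∩ X ⊆ K) (FW : F ⊆ W)
    (hI : (J ∩ K).Subsingleton ∨ ∃ x y, Arc (J ∩ K) x y) :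
    ∃ D', Bs D' J X W ∧ D' ∩ F ⊆ J := by
  obtain ⟨Φ, hΦ, rfl, rfl⟩ := hF
  obtain ⟨D, rfl⟩ : ∃ A, Φ '' A = D := ⟨_, hΦ.image_inv D⟩
  obtain ⟨J, rfl⟩ : ∃ A, Φ '' A = J := ⟨_, hΦ.image_inv J⟩
  obtain ⟨X, rfl⟩ : ∃ A, Φ '' A = X := ⟨_, hΦ.image_inv X⟩
  obtain ⟨W, rfl⟩ : ∃ A, Φ '' A = W := ⟨_, hΦ.image_inv W⟩
  have h1 := SClean_image h hΦ.inv
  have h2 := hX.image hΦ.tpi
  simp only [hΦ.inv_image] at h1 h2
  have h3 : IsOpen W := by
    have := hW.preimage hΦ.tp.continuous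
    rwa [preimage_image_eq _ hΦ.inj] at this
  rw [← image_inter hΦ.inj] at FX hI
  rw [image_subset_image_iff hΦ.inj] at JX KX FX FW
  obtain ⟨D', k1, k2⟩ := clean_std h1 h2 h3 JX KX FX FW
    (hI.imp (subsingleton_of_image hΦ.inj _) fun ⟨x, y, k⟩ => ⟨_, _, by
      have := k.image hΦ.tpi hΦ.inv.inj.injOn
      rwa [hΦ.inv_image] at this⟩)
  exact ⟨Φ '' D', SClean_image k1 hΦ, by rw [← image_inter hΦ.inj]; exact image_mono k2⟩

/-- A disc `D` is made disjoint from finitely many ambiently flat discs `F a`, keeping its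
boundary, off the fixed polyhedron `X` and inside the open set `W`. -/
theorem clean_all {κ : Type} [Finite κ] {D J X W : Set (Rn 3)} {F K : κ → Set (Rn 3)}
    (hD : PDsc D J) (hF : ∀ a, Dsc 2 (F a) (K a)) (hX : Poly X) (hW : IsOpen W) (JX : J ⊆ X)
    (KX : ∀ a, K a ⊆ X) (DX : D ∩ X ⊆ J) (FX : ∀ a, F a ∩ X ⊆ K a)
    (FF : ∀ a b, a ≠ b → F a ∩ F b ⊆ X) (DW : D ⊆ W) (FW : ∀ a, F a ⊆ W)
    (hI : ∀ a, (J ∩ K a).Subsingleton ∨ ∃ x y, Arc (J ∩ K a) x y) :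
    ∃ D', PDsc D' J ∧ D' ∩ X ⊆ J ∧ (∀ a, D' ∩ F a ⊆ J) ∧ D' ⊆ W := by
  have key : ∀ S : Set κ, S.Finite → ∃ D', Bs D' J (X ∪ ⋃ a ∈ S, F a) W := by
    intro S hS
    induction S, hS using Set.Finite.induction_on with
    | empty => exact ⟨D, hD, by simpa using DX, DW⟩
    | @insert a S ha hS ih =>
      obtain ⟨D₁, h1⟩ := ih
      obtain ⟨D₂, k1, k2⟩ := clean_one h1 (hF a)
        (hX.union (Poly.biUnion hS fun b _ => (hF b).pdsc.poly)) hW (JX.trans subset_union_left)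
        ((KX a).trans subset_union_left) (by
          rintro x ⟨x1, x2 | x2⟩
          · exact FX a ⟨x1, x2⟩
          · obtain ⟨b, hb, x3⟩ := mem_iUnion₂.1 x2
            exact FX a ⟨x1, FF a b (fun e => ha (e ▸ hb)) ⟨x1, x3⟩⟩) (FW a) (hI a)
      refine ⟨D₂, k1.pd, ?_, k1.dw⟩
      rw [biUnion_insert, union_left_comm, inter_union_distrib_left]
      exact union_subset k2 k1.dx
  obtain ⟨D', h⟩ := key univ finite_univ
  exact ⟨D', h.pd, fun x hx => h.dx ⟨hx.1, Or.inl hx.2⟩,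
    fun a x hx => h.dx ⟨hx.1, Or.inr (mem_iUnion₂.2 ⟨a, trivial, hx.2⟩)⟩, h.dw⟩

end BEp
end
end

-- merged part: Pool.Agent.Work.MP_f0515e_an.D3.XClean
section
/-! Cleaning of a finite family of discs against one fixed disc. Pairs of discs which are disjoint
stay disjoint. -/

open Set Metric Filter Topology Function BEv
open scoped NNReal

noncomputable section
namespace BEp

theorem xgen {D J X W : Set (Rn 3)} (h : Bs D J X W) (hX : Poly X) (hW : IsOpen W)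
    (JX : J ⊆ X) (FJ : flat 2 ∩ J ⊆ eqt 2) :
    ∃ D', Bs D' J X W ∧ ∀ x ∈ D' ∩ flat 2, x ∉ eqt 2 → (lk (D' ∩ flat 2) x).ncard = 2 := by
  obtain ⟨b, b1, -, b3, b4, b5, b6⟩ := bump_lip hX ((PDsc.conn_bd h.pd).nonempty.mono JX)
    (PCel.cpt h.pd) hW h.dw
  have hdx := h.dx
  obtain ⟨g, g1, g2, g3, g4⟩ := h.pd
  obtain ⟨t, ht, tT⟩ := (Ioo_infinite (zero_lt_one' ℝ)).exists_notMem_finite
    (gen_pencil (g1.apply 2) (b1.comp g1))
  have hΨ := lh_add (2 : Fin 3) b1 b6 (t := t) (by rw [abs_of_pos ht.1]; exact ht.2.le)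
  set Ψ : Rn 3 → Rn 3 := fun x => update x 2 (x 2 + t * b x) with eΨ
  have fix : ∀ x, b x = 0 → Ψ x = x := fun x hx => by simp [eΨ, hx]
  have e2 : ∀ x, Ψ x 2 = x 2 + t * b x := fun x => update_self ..
  refine ⟨Ψ '' D, h.mv JX ⟨hΨ, fun x hx => fix x (b4 x hx)⟩ fun x hx => fix x (b3 x hx), ?_⟩
  rintro x ⟨⟨_, hz, rfl⟩, hF⟩ hE
  obtain ⟨y, hy, rfl⟩ := g3.ge hz
  have nX : g y ∉ X := fun k => hE (FJ ⟨hF, by rw [fix _ (b3 _ k)]; exact hdx ⟨hz, k⟩⟩)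
  have y1 : ‖y‖ ≤ 1 := mem_closedBall_zero_iff.1 hy
  have y2 : ‖y‖ < 1 := y1.lt_of_ne fun k => nX (JX (g4.le ⟨y, mem_sphere_zero_iff_norm.2 k, rfl⟩))
  have x1 : ‖Ψ (g y)‖ < 1 := hF.1.lt_of_ne fun k => hE ⟨k, hF.2⟩
  have z0 : g y 2 + t * b (g y) = 0 := (e2 _).symm.trans hF.2
  have hZ := poly_eq (Poly.closedBall (0 : Rn 2) 1) ((g1.apply 2).add ((b1.comp g1).const_mul t)) 0
  have k1 := (lk_ncard_image hZ (hΨ.tp.comp g1)
    (fun u hu v hv e => g2 hu.1 hv.1 (hΨ.inj e)) (x := y) ⟨hy, z0⟩).1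
  have k2 : lk {z ∈ closedBall (0 : Rn 2) 1 | g z 2 + t * b (g z) = 0} y =
      lk {z | g z 2 + t * b (g z) = 0} y := by
    refine lk_congr ?_
    filter_upwards [isOpen_ball.mem_nhds (mem_ball_zero_iff.2 y2)] with z hz
    exact and_iff_right (ball_subset_closedBall hz)
  have k3 : lk (Ψ '' D ∩ flat 2) (Ψ (g y)) = lk ((fun z => Ψ (g z)) ''
      {z ∈ closedBall (0 : Rn 2) 1 | g z 2 + t * b (g z) = 0}) (Ψ (g y)) := by
    refine lk_congr ?_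
    filter_upwards [isOpen_ball.mem_nhds (mem_ball_zero_iff.2 x1)] with w hw
    constructor
    · rintro ⟨⟨_, hu, rfl⟩, k⟩
      obtain ⟨u, hu', rfl⟩ := g3.ge hu
      exact ⟨u, ⟨hu', (e2 _).symm.trans k.2⟩, rfl⟩
    · rintro ⟨u, hu, rfl⟩
      exact ⟨⟨_, g3.le ⟨u, hu.1, rfl⟩, rfl⟩, (mem_ball_zero_iff.1 hw).le, (e2 _).trans hu.2⟩
  rw [k3, k1, k2]
  by_contra k
  exact tT ⟨y, y1, b5 _ hz nX, z0, k⟩

theorem xinit {D' J X W : Set (Rn 3)} (h' : Bs D' J X W) (KX : eqt 2 ⊆ X)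
    (hI : (J ∩ eqt 2).Subsingleton ∨ ∃ x y, Arc (J ∩ eqt 2) x y)
    (hl : ∀ x ∈ D' ∩ flat 2, x ∉ eqt 2 → (lk (D' ∩ flat 2) x).ncard = 2) :
    ∃ 𝒦, Gdk D' 𝒦 ∧ ∀ K ∈ 𝒦, SInitQ (eqt 2) (J ∩ eqt 2) K := by
  obtain ⟨𝒞, c1, c2, c3, c4⟩ := open_dec ((PCel.poly h'.pd).inter (len_half 2).symm.poly)
    (len_half 2).poly_eq hl
  choose! k k1 k2 k3 k4 k5 k6 using fun C (hC : C ∈ 𝒞) => sinit_close hI inter_subset_right
    (fun x hx => ⟨h'.dx ⟨((c4 C hC).1 hx.1).1, KX hx.2⟩, hx.2⟩) (c4 C hC).2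
  refine ⟨k '' 𝒞, ⟨c1.image k, forall_mem_image.2 k1, forall_mem_image.2 fun C hC => ?_,
    forall_mem_image.2 k4, forall_mem_image.2 k5, fun x hx hE => ?_, ?_,
    forall_mem_image.2 fun C hC => forall_mem_image.2 fun C' hC' =>
      sinit_short hI (k6 C hC) (k6 C' hC')⟩, forall_mem_image.2 k6⟩
  · refine (k2 C hC).trans (union_subset ((c4 C hC).1.trans (inter_comm _ _).le) fun x hx => ?_)
    exact ⟨⟨hx.2.1.le, hx.2.2⟩, PCel.sub h'.pd hx.1⟩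
  · obtain ⟨C, hC, k⟩ := c2 x hx hE
    exact ⟨_, mem_image_of_mem _ hC, ((k3 C hC).ge ⟨k, hE⟩).1⟩
  · rintro _ ⟨C, hC, rfl⟩ _ ⟨C', hC', rfl⟩ ne x hx
    by_contra hE
    exact hE (c3 hC hC' (fun e => ne (by rw [e]))
      ⟨((k3 C hC).le ⟨hx.1, hE⟩).1, ((k3 C' hC').le ⟨hx.2, hE⟩).1⟩)

theorem xmin {𝒰 : Set (Set (Rn 3))} (fin : 𝒰.Finite) (hne : 𝒰.Nonempty)
    (sub : ∀ K ∈ 𝒰, K ⊆ flat 2) (crc : ∀ K ∈ 𝒰, Crc K) :
    ∃ K ∈ 𝒰, ∃ E, PDsc E K ∧ E ⊆ flat 2 ∧ E ∩ eqt 2 ⊆ K ∧ ∀ D 𝒦, Gdk D 𝒦 → 𝒦 ⊆ 𝒰 →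
      (∀ K' ∈ 𝒦, K ≠ K' → K ∩ K' ⊆ eqt 2 ∧
        (closure (K' \ eqt 2) ∩ eqt 2 ⊆ K → K' ∩ eqt 2 ⊆ K)) → E ∩ D ⊆ K := by
  choose! b hb hb1 using fun K (hK : K ∈ 𝒰) => sstep_ball (sub K hK) (crc K hK)
  have hl := fun K (hK : K ∈ 𝒰) => sstep_lay (sub K hK)
  obtain ⟨K, hK, hm⟩ := fin.exists_minimalFor b 𝒰 hne
  have h1 : PDsc (lay (b K) 0) K := by
    have := (hb K hK).cel.image (TP.id'.mk3 (TP.const 0))
      (fun x _ y _ e => by simpa only [pj3_mk3] using congrArg pj3 e)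
    rwa [← lay_eq, ← lay_eq, hl K hK] at this
  have h2 : lay (b K) 0 ∩ eqt 2 ⊆ K := by
    rintro x ⟨hx, hx'⟩
    rw [← hl K hK]
    refine ⟨by_contra fun k => ?_, hx.2⟩
    have k1 : pj3 x ∈ interior (b K) := (hb K hK).interior_eq ▸ ⟨hx.1, k⟩
    have k2 := interior_mono (hb1 K hK) k1
    rw [interior_closedBall _ one_ne_zero] at k2
    rw [eqt_eq] at hx'
    exact (mem_ball.1 k2).ne (mem_sphere.1 hx'.1)
  refine ⟨K, hK, _, h1, ?_, h2, ?_⟩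
  · rw [flat_eq]
    exact fun x hx => ⟨hb1 K hK hx.1, hx.2⟩
  rintro D 𝒦 h hU hx2 x ⟨hx, hD⟩
  by_contra k
  have k1 : x ∉ eqt 2 := fun e => k (h2 ⟨hx, e⟩)
  obtain ⟨K', hK', hx'⟩ := h.cov x ⟨hD, flat_eq ▸ ⟨hb1 K hK hx.1, hx.2⟩⟩ k1
  have k2 : K ≠ K' := fun e => k (e ▸ hx')
  have k3 : K' \ eqt 2 ⊆ lay (b K) 0 := by
    rcases (hb K hK).side ((h.conn K' hK').image pj3 tp_pj3.continuous.continuousOn)
      (disjoint_left.2 (by
        rintro _ ⟨y, hy, rfl⟩ m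
        refine hy.2 ((hx2 K' hK' k2).1 ⟨?_, hy.1⟩)
        rw [← hl K hK]
        exact ⟨m, (h.sub K' hK' hy.1).1.2⟩)) with m | m
    · exact fun y hy => ⟨(m ⟨y, hy, rfl⟩).1, (h.sub K' hK' hy.1).1.2⟩
    · exact absurd hx.1 (disjoint_left.1 m ⟨x, ⟨hx', k1⟩, rfl⟩)
  have k4 := (hx2 K' hK' k2).2
    ((inter_subset_inter_left _ (closure_minimal k3 h1.cpt.isClosed)).trans h2)
  have k5 : b K' ⊆ b K := (hb K hK).mono le_rfl (hb K' (hU hK')) fun y hy => by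
    have m : mk3 y 0 ∈ lay (b K) 0 := by
      by_cases e : mk3 y 0 ∈ eqt 2
      · exact h1.sub (k4 ⟨hy, e⟩)
      · exact k3 ⟨hy, e⟩
    simpa only [pj3_mk3] using m.1
  refine k2 ?_
  rw [← hl K hK, ← hl K' (hU hK'), ← (hb K hK).frontier_eq, ← (hb K' (hU hK')).frontier_eq,
    k5.antisymm (hm (hU hK') k5)]

theorem xstep {D J X W K E : Set (Rn 3)} {𝒦 : Set (Set (Rn 3))} (h : Bs D J X W)
    (hk : Gdk D 𝒦) (hK : K ∈ 𝒦) (e1 : PDsc E K) (e2 : E ⊆ flat 2) (e3 : E ∩ eqt 2 ⊆ K)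
    (e4 : E ∩ D ⊆ K) (hX : Poly X) (hW : IsOpen W) (JX : J ⊆ X)
    (KX : eqt 2 ⊆ X) (FX : E ∩ X ⊆ eqt 2) (FW : flat 2 ⊆ W) :
    ∃ D' 𝒦', Bs D' J X W ∧ Gdk D' 𝒦' ∧ 𝒦' ⊂ 𝒦 := by
  have KF : K ⊆ flat 2 := (hk.sub K hK).trans inter_subset_left
  have KD : K ⊆ D := (hk.sub K hK).trans inter_subset_right
  obtain ⟨E', hI⟩ := ins_exists h.pd (hk.crc K hK) KD
  have KE : K ⊆ E' := hI.pdsc.sub
  have b1 : Bs ((D \ E') ∪ E) J X W := by
    refine ⟨hI.swap e1 (disjoint_left.2 fun x hx hx' => hx'.2 (KE (e4 ⟨hx, hx'.1⟩))), ?_,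
      union_subset (sdiff_subset.trans h.dw) (e2.trans FW)⟩
    rintro x ⟨hx | hx, hx'⟩
    · exact h.dx ⟨hx.1, hx'⟩
    · exact h.dx ⟨KD (e3 ⟨hx, FX ⟨hx, hx'⟩⟩), hx'⟩
  have KJ : K \ J = K \ eqt 2 := by
    ext x
    exact and_congr_right fun hx => not_congr
      ⟨fun k => FX ⟨e1.sub hx, JX k⟩, fun k => h.dx ⟨KD hx, KX k⟩⟩
  obtain ⟨T, t1, t2, t3⟩ := hI.strip (KJ ▸ hk.conn K hK)
    (O := {x | ‖hz 2 x‖ < 1} \ ⋃ K' ∈ 𝒦 \ {K}, K')
    ((isOpen_lt (tp_hz 2).continuous.norm continuous_const).sdiff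
      ((hk.fin.subset sdiff_subset).isClosed_biUnion fun K' hK' =>
        (hk.crc K' hK'.1).poly.1.isClosed))
    (by
      rw [KJ]
      rintro x ⟨hx, hx'⟩
      refine ⟨?_, fun k => ?_⟩
      · show ‖hz 2 x‖ < 1
        rw [pfill_hz_self (KF hx).2]
        exact lt_of_le_of_ne (KF hx).1 fun k => hx' ⟨k, (KF hx).2⟩
      · obtain ⟨K', hK', k⟩ := mem_iUnion₂.1 k
        exact hx' (hk.disj hK'.1 hK hK'.2 ⟨k, hx⟩))
  obtain ⟨σ, s1, s2, s3⟩ := sstep_sign t1 fun x hx h0 => by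
    obtain ⟨⟨k1, k2⟩, k3, k4⟩ := t2 hx
    have k5 : ‖x‖ < 1 := pfill_hz_self h0 ▸ k3
    obtain ⟨K', hK', k⟩ := hk.cov x ⟨k1, k5.le, h0⟩ fun k => k5.ne k.1
    exact k4 (mem_iUnion₂.2 ⟨K', ⟨hK', fun e => k2 (KE ((show K' = K from e) ▸ k))⟩, k⟩)
  have hY := poly_cl_diff (poly_le hI.out (D := fun x : Rn 3 => σ * x 2)
    ((TP.id'.apply 2).const_mul σ)) (hk.crc K hK).poly
  set Y := closure ({x ∈ (D \ E') ∪ K | σ * x 2 ≤ 0} \ K) with hYdef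
  have y1 : ∀ x ∈ D \ E', σ * x 2 ≤ 0 → x ∈ Y := fun x hx k =>
    subset_closure ⟨⟨Or.inl hx, k⟩, fun m => hx.2 (KE m)⟩
  have y2 : Y ⊆ D :=
    (closure_minimal (sdiff_subset.trans (sep_subset _ _)) hI.out.1.isClosed).trans
      (union_subset sdiff_subset KD)
  have y3 : ∀ x ∈ K \ eqt 2, x ∉ Y := fun x hx k => by
    obtain ⟨y, k1, k2⟩ := ((mem_closure_iff_frequently.1 k).and_eventually
      (t3 x (KJ ▸ hx))).exists
    exact (s3 y (k2 (k1.1.1.resolve_right k1.2))).not_ge k1.1.2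
  obtain ⟨b, c1, c2, c3, c4, c5, c6⟩ := bump_lip (hX.union hY)
    (h.pd.conn_bd.nonempty.mono (JX.trans subset_union_left)) b1.pd.cpt hW b1.dw
  have fx : ∀ x : Rn 3, b x = 0 → update x 2 (x 2 + σ * b x) = x := fun x hx => by
    rw [hx, mul_zero, add_zero, update_eq_self]
  have b2 := b1.mv JX (Ψ := fun x => update x 2 (x 2 + σ * b x))
    ⟨lh_add 2 c1 c6 s2, fun x hx => fx x (c4 x hx)⟩ fun x hx => fx x (c3 x (Or.inl hx))
  refine ⟨_, {K' ∈ 𝒦 | K' ≠ K ∧ Disjoint (K' \ eqt 2) E'}, b2,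
    ⟨hk.fin.subset (sep_subset _ _), fun K' hK' => hk.crc K' hK'.1, fun K' hK' x hx => ?_,
      fun K' hK' => hk.conn K' hK'.1, fun K' hK' => hk.ne K' hK'.1, ?_,
      hk.disj.mono (sep_subset _ _), fun K' hK' K'' hK'' => hk.short K' hK'.1 K'' hK''.1⟩,
    ⟨sep_subset _ _, fun k => (k hK).2.1 rfl⟩⟩
  · obtain ⟨k1, k2⟩ := hk.sub K' hK'.1 hx
    refine ⟨k1, ?_⟩
    by_cases e : x ∈ eqt 2
    · exact b2.pd.sub (h.dx ⟨k2, KX e⟩)
    · have k3 : x ∈ D \ E' := ⟨k2, disjoint_left.1 hK'.2.2 ⟨hx, e⟩⟩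
      exact ⟨x, Or.inl k3, fx x (c3 x (Or.inr (y1 x k3 (by rw [k1.2, mul_zero]))))⟩
  · rintro _ ⟨⟨y, hy, rfl⟩, k1⟩ k2
    have k3 : y 2 + σ * b y = 0 := by simpa using k1.2
    have k4 : σ * y 2 + b y = 0 := by linear_combination σ * k3 - b y * s1
    have k5 : b y = 0 := by
      rcases hy with hy | hy
      · exact c3 y (Or.inr (y1 y hy (by linarith [c2 y])))
      · rw [(e2 hy).2, mul_zero, zero_add] at k4
        exact k4
    simp only [fx y k5] at k1 k2 ⊢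
    rcases hy with hy | hy
    · obtain ⟨K', hK', k⟩ := hk.cov y ⟨hy.1, k1⟩ k2
      have k6 : K' ≠ K := fun e => hy.2 (KE (e ▸ k))
      refine ⟨K', ⟨hK', k6, (hI.side (hk.conn K' hK')
        (sdiff_subset.trans ((hk.sub K' hK').trans inter_subset_right))
        (disjoint_left.2 fun z hz m => hz.2 (hk.disj hK' hK k6 ⟨hz.1, m⟩))).resolve_left
          fun m => hy.2 (m ⟨k, k2⟩)⟩, k⟩
    · refine absurd k5 (c5 y (Or.inr hy) ?_).ne'
      rintro (m | m)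
      · exact k2 (FX ⟨hy, m⟩)
      · exact y3 y ⟨e4 ⟨hy, y2 m⟩, k2⟩ m

theorem xshort {n : ℕ} {E I I' K K' : Set (Rn n)} (hI : I.Subsingleton ∨ ∃ x y, Arc I x y)
    (hI' : I'.Subsingleton ∨ ∃ x y, Arc I' x y)
    (hc : ∀ x ∈ I ∩ I', ∀ y ∈ I ∩ I', x ≠ y → ∃ A, Arc A x y ∧ A ⊆ I ∩ I')
    (h : SInitQ E I K) (h' : SInitQ E I' K') (hs : closure (K' \ E) ∩ E ⊆ K) : K' ∩ E ⊆ K := by
  rcases h'.2 with ⟨-, k⟩ | ⟨a', b', k1, k2, k3⟩
  · exact fun x hx => hs ⟨k hx.1, hx.2⟩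
  have ha : a' ∈ K ∩ E := ⟨hs ⟨k2, k1.tarc.left.2⟩, k1.tarc.left.2⟩
  have hb : b' ∈ K ∩ E := ⟨hs ⟨k3, k1.tarc.right.2⟩, k1.tarc.right.2⟩
  obtain ⟨x, y, hI⟩ := hI.resolve_left fun k => k1.tarc.ne (k (h.1 ha) (h.1 hb))
  obtain ⟨x', y', hI'⟩ := hI'.resolve_left fun k =>
    k1.tarc.ne (k (h'.1 k1.tarc.left) (h'.1 k1.tarc.right))
  obtain ⟨a, b, m, -⟩ := h.2.resolve_left fun k => k1.tarc.ne (k.1 ha hb)
  obtain ⟨A', m1, m2⟩ := arc_sub m ha hb k1.tarc.ne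
  obtain ⟨A, n1, n2⟩ := hc a' ⟨h.1 ha, h'.1 k1.tarc.left⟩ b' ⟨h.1 hb, h'.1 k1.tarc.right⟩ k1.tarc.ne
  rw [arc_sub_uniq hI' k1 n1 h'.1 (n2.trans inter_subset_right),
    arc_sub_uniq hI n1 m1 (n2.trans inter_subset_left) (m2.trans h.1)]
  exact m2.trans inter_subset_left

/-- A family of moving discs; related discs meet only in their boundaries. -/
structure XF {κ : Type} (D J X W : κ → Set (Rn 3)) (r : κ → κ → Prop) : Prop where
  bs : ∀ i, Bs (D i) (J i) (X i) (W i)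
  dj : ∀ i j, r i j → D i ∩ D j ⊆ J i

section
variable {κ : Type} {D J X W : κ → Set (Rn 3)} {r : κ → κ → Prop}

theorem XF.big (h : XF D J X W r) (i : κ) :
    Bs (D i) (J i) (X i ∪ ⋃ j ∈ {j | r i j}, D j) (W i) := by
  refine ⟨(h.bs i).pd, ?_, (h.bs i).dw⟩
  rintro x ⟨k, m | m⟩
  · exact (h.bs i).dx ⟨k, m⟩
  · obtain ⟨j, hj, m⟩ := mem_iUnion₂.1 m
    exact h.dj i j hj ⟨k, m⟩

theorem XF.poly [Finite κ] (h : XF D J X W r) (hX : ∀ i, Poly (X i)) (i : κ) :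
    Poly (X i ∪ ⋃ j ∈ {j | r i j}, D j) :=
  (hX i).union (Poly.biUnion (toFinite _) fun j _ => PCel.poly (h.bs j).pd)

theorem XF.upd [DecidableEq κ] (h : XF D J X W r) (hs : ∀ i j, r i j → r j i) (hn : ∀ i, ¬ r i i)
    {i : κ} {A : Set (Rn 3)} (hA : Bs A (J i) (X i ∪ ⋃ j ∈ {j | r i j}, D j) (W i)) :
    XF (update D i A) J X W r := by
  have k : ∀ j, r i j → A ∩ D j ⊆ J i := fun j hj x hx =>
    hA.dx ⟨hx.1, Or.inr (mem_iUnion₂.2 ⟨j, hj, hx.2⟩)⟩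
  refine ⟨fun j => ?_, fun j l hr => ?_⟩
  · by_cases e : j = i
    · subst e
      rw [update_self]
      exact ⟨hA.pd, fun x hx => hA.dx ⟨hx.1, Or.inl hx.2⟩, hA.dw⟩
    · rw [update_of_ne e]
      exact h.bs j
  · by_cases e : j = i
    · subst e
      rw [update_self, update_of_ne (fun e : l = j => hn j (e ▸ hr))]
      exact k l hr
    · rw [update_of_ne e]
      by_cases e' : l = i
      · subst e'
        rw [update_self]
        exact fun x hx => h.dj j l hr ⟨hx.1, PCel.sub (h.bs l).pd (k j (hs _ _ hr) ⟨hx.2, hx.1⟩)⟩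
      · rw [update_of_ne e']
        exact h.dj j l hr

theorem xclean_std [Finite κ] (h : XF D J X W r) (hX : ∀ i, Poly (X i)) (hW : ∀ i, IsOpen (W i))
    (JX : ∀ i, J i ⊆ X i) (KX : ∀ i, eqt 2 ⊆ X i) (FX : ∀ i, flat 2 ∩ X i ⊆ eqt 2)
    (FW : ∀ i, flat 2 ⊆ W i)
    (hI : ∀ i, (J i ∩ eqt 2).Subsingleton ∨ ∃ x y, Arc (J i ∩ eqt 2) x y)
    (hs : ∀ i j, r i j → r j i) (hn : ∀ i, ¬ r i i)
    (hc : ∀ i j, r i j → ∀ x ∈ J i ∩ eqt 2 ∩ (J j ∩ eqt 2), ∀ y ∈ J i ∩ eqt 2 ∩ (J j ∩ eqt 2),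
      x ≠ y → ∃ A, Arc A x y ∧ A ⊆ J i ∩ eqt 2 ∩ (J j ∩ eqt 2)) :
    ∃ D', XF D' J X W r ∧ ∀ i, D' i ∩ flat 2 ⊆ J i := by
  classical
  have gp : ∀ S : Set κ, S.Finite → ∃ D', XF D' J X W r ∧ ∀ i ∈ S, ∀ x ∈ D' i ∩ flat 2,
      x ∉ eqt 2 → (lk (D' i ∩ flat 2) x).ncard = 2 := by
    intro S hS
    induction S, hS using Set.Finite.induction_on with
    | empty => exact ⟨D, h, fun i hi => hi.elim⟩
    | @insert a S ha hS ih =>
      obtain ⟨D₁, h1, h2⟩ := ih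
      obtain ⟨A, a1, a2⟩ := xgen (h1.big a) (h1.poly hX a) (hW a) ((JX a).trans subset_union_left)
        ((inter_subset_inter_right _ (JX a)).trans (FX a))
      refine ⟨_, h1.upd hs hn a1, fun i hi => ?_⟩
      by_cases e : i = a
      · subst e
        rw [update_self]
        exact a2
      · rw [update_of_ne e]
        exact h2 i (hi.resolve_left e)
  obtain ⟨D₁, h1, h2⟩ := gp univ finite_univ
  choose 𝒦 k1 k2 using fun i => xinit (h1.bs i) (KX i) (hI i) (h2 i trivial)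
  clear h h2 gp
  induction hm : {p : κ × Set (Rn 3) | p.2 ∈ 𝒦 p.1}.ncard using Nat.strong_induction_on
    generalizing D₁ 𝒦 with
  | _ m ih =>
  by_cases hne : (⋃ i, 𝒦 i).Nonempty
  swap
  · refine ⟨D₁, h1, fun i x hx => (h1.bs i).dx ⟨hx.1, KX i (by_contra fun k => ?_)⟩⟩
    obtain ⟨K, hK, -⟩ := (k1 i).cov x hx k
    exact hne ⟨K, mem_iUnion.2 ⟨i, hK⟩⟩
  obtain ⟨K, hK, E, e1, e2, e3, e4⟩ := xmin (finite_iUnion fun i => (k1 i).fin) hne
    (fun K hK => by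
      obtain ⟨i, hi⟩ := mem_iUnion.1 hK
      exact ((k1 i).sub K hi).trans inter_subset_left)
    (fun K hK => by
      obtain ⟨i, hi⟩ := mem_iUnion.1 hK
      exact (k1 i).crc K hi)
  obtain ⟨i, hi⟩ := mem_iUnion.1 hK
  have KD := (k1 i).sub K hi
  have dk : ∀ j, r i j → K ∩ D₁ j ⊆ eqt 2 := fun j hj x hx =>
    FX i ⟨(KD hx.1).1, JX i (h1.dj i j hj ⟨(KD hx.1).2, hx.2⟩)⟩
  obtain ⟨A, 𝒦', a1, a2, a3⟩ := xstep (h1.big i) (k1 i) hi e1 e2 e3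
    (e4 _ _ (k1 i) (subset_iUnion 𝒦 i) fun K' hK' ne =>
      ⟨(k1 i).disj hi hK' ne, (k1 i).short K hi K' hK'⟩)
    (h1.poly hX i) (hW i) ((JX i).trans subset_union_left) ((KX i).trans subset_union_left)
    (by
      rintro x ⟨x1, x2 | x2⟩
      · exact FX i ⟨e2 x1, x2⟩
      · obtain ⟨j, hj, x2⟩ := mem_iUnion₂.1 x2
        exact dk j hj ⟨e4 _ _ (k1 j) (subset_iUnion 𝒦 j) (fun K' hK' _ =>
          ⟨fun y hy => dk j hj ⟨hy.1, ((k1 j).sub K' hK' hy.2).2⟩,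
            xshort (hI i) (hI j) (hc i j hj) (k2 i K hi) (k2 j K' hK')⟩) ⟨x1, x2⟩, x2⟩) (FW i)
  have sb : ∀ j, update 𝒦 i 𝒦' j ⊆ 𝒦 j := fun j => by
    by_cases e : j = i
    · subst e
      rw [update_self]
      exact a3.1
    · rw [update_of_ne e]
  have lt : {p : κ × Set (Rn 3) | p.2 ∈ update 𝒦 i 𝒦' p.1}.ncard < m := by
    rw [← hm]
    refine ncard_lt_ncard ⟨fun p hp => sb _ hp, fun k => a3.2 fun K' hK' => ?_⟩
      ((finite_univ.prod (finite_iUnion fun i => (k1 i).fin)).subset fun p hp =>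
        ⟨trivial, mem_iUnion.2 ⟨p.1, hp⟩⟩)
    simpa using k (show (i, K') ∈ {p : κ × Set (Rn 3) | p.2 ∈ 𝒦 p.1} from hK')
  refine ih _ lt (update D₁ i A) (h1.upd hs hn a1) (update 𝒦 i 𝒦') (fun j => ?_)
    (fun j K' hK' => k2 j K' (sb j hK')) rfl
  · by_cases e : j = i
    · subst e
      rw [update_self, update_self]
      exact a2
    · rw [update_of_ne e, update_of_ne e]
      exact k1 j

/-- The discs `D i` are made disjoint from the disc `F`; related discs stay disjoint. -/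
theorem xclean [Finite κ] {F K : Set (Rn 3)} (h : XF D J X W r) (hF : Dsc 2 F K)
    (hX : ∀ i, Poly (X i)) (hW : ∀ i, IsOpen (W i))
    (JX : ∀ i, J i ⊆ X i) (KX : ∀ i, K ⊆ X i) (FX : ∀ i, F ∩ X i ⊆ K) (FW : ∀ i, F ⊆ W i)
    (hI : ∀ i, (J i ∩ K).Subsingleton ∨ ∃ x y, Arc (J i ∩ K) x y)
    (hs : ∀ i j, r i j → r j i) (hn : ∀ i, ¬ r i i)
    (hc : ∀ i j, r i j → ∀ x ∈ J i ∩ K ∩ (J j ∩ K), ∀ y ∈ J i ∩ K ∩ (J j ∩ K),
      x ≠ y → ∃ A, Arc A x y ∧ A ⊆ J i ∩ K ∩ (J j ∩ K)) :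
    ∃ D', XF D' J X W r ∧ ∀ i, D' i ∩ F ⊆ J i := by
  obtain ⟨Φ, hΦ, rfl, rfl⟩ := hF
  obtain ⟨D, rfl⟩ : ∃ A : κ → Set (Rn 3), (fun i => Φ '' A i) = D :=
    ⟨_, funext fun i => hΦ.image_inv (D i)⟩
  obtain ⟨J, rfl⟩ : ∃ A : κ → Set (Rn 3), (fun i => Φ '' A i) = J :=
    ⟨_, funext fun i => hΦ.image_inv (J i)⟩
  obtain ⟨X, rfl⟩ : ∃ A : κ → Set (Rn 3), (fun i => Φ '' A i) = X :=
    ⟨_, funext fun i => hΦ.image_inv (X i)⟩
  obtain ⟨W, rfl⟩ : ∃ A : κ → Set (Rn 3), (fun i => Φ '' A i) = W :=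
    ⟨_, funext fun i => hΦ.image_inv (W i)⟩
  simp only [← image_inter hΦ.inj, image_subset_image_iff hΦ.inj] at JX KX FX FW hI hc
  obtain ⟨D', k1, k2⟩ := xclean_std (D := D) (J := J) (X := X) (W := W) (r := r)
    ⟨fun i => by simpa only [hΦ.inv_image] using SClean_image (h.bs i) hΦ.inv, fun i j hr => by
      simpa only [← image_inter hΦ.inj, image_subset_image_iff hΦ.inj] using h.dj i j hr⟩
    (fun i => by simpa only [hΦ.inv_image] using (hX i).image hΦ.tpi)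
    (fun i => by simpa only [preimage_image_eq _ hΦ.inj] using (hW i).preimage hΦ.tp.continuous)
    JX KX FX FW (fun i => (hI i).imp (subsingleton_of_image hΦ.inj _) fun ⟨x, y, k⟩ => ⟨_, _, by
      have := k.image hΦ.tpi hΦ.inv.inj.injOn
      rwa [hΦ.inv_image] at this⟩) hs hn (fun i j hr x hx y hy ne => by
      obtain ⟨A, a1, a2⟩ := hc i j hr _ (mem_image_of_mem Φ hx) _ (mem_image_of_mem Φ hy)
        (fun e => ne (hΦ.inj e))
      have := a1.image hΦ.tpi hΦ.inv.inj.injOn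
      rw [hΦ.li, hΦ.li] at this
      exact ⟨_, this, (image_mono a2).trans (hΦ.inv_image _).le⟩)
  refine ⟨fun i => Φ '' D' i, ⟨fun i => SClean_image (k1.bs i) hΦ, fun i j hr => ?_⟩, fun i => ?_⟩
  · rw [← image_inter hΦ.inj]
    exact image_mono (k1.dj i j hr)
  · rw [← image_inter hΦ.inj]
    exact image_mono (k2 i)

end

end BEp
end
end
end

-- merged part: Pool.Agent.Work.MP_f0515e_an.D3.CDisj
section
-- merged part: Pool.Agent.Work.MP_f0515e_an.D3.CFlat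
section
/-! Every PL disc in three-space is ambiently flat. -/

open Set Metric Filter Topology Function BEv
open scoped NNReal

noncomputable section
namespace BEp

variable {φ : Rn 2 → Rn 3}

theorem cfl_ext {B S : Set (Rn 2)} (h : Ball B S) {ψ : Rn 2 → Rn 2} (hψ : TP ψ) (hi : InjOn ψ B) :
    ∃ Ψ, LH Ψ ∧ EqOn Ψ ψ B := by
  have h' : Ball (ψ '' B) (ψ '' S) := by
    obtain ⟨Φ, p1, rfl, rfl⟩ := h
    exact PCel.ball2 ⟨fun x => ψ (Φ x), hψ.comp p1.tp, fun x hx y hy e =>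
      p1.inj (hi (mem_image_of_mem _ hx) (mem_image_of_mem _ hy) e), (image_image _ _ _).symm,
      (image_image _ _ _).symm⟩
  obtain ⟨Φ, p1, p2, p3⟩ := fill h h' hψ (hi.mono h.sub).bijOn_image
  obtain ⟨Θ, q1, q2⟩ := lh_patch h.poly (p1.tpi.comp hψ) (k := fun x => invFun Φ (ψ x))
    ⟨fun x hx => by
      obtain ⟨y, hy, e⟩ := p2.symm ▸ mem_image_of_mem ψ hx
      simpa only [← e, p1.li] using hy,
    fun x hx y hy e => hi hx hy (p1.inv.inj e), fun x hx => by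
      obtain ⟨y, hy, e⟩ := p2 ▸ mem_image_of_mem Φ hx
      exact ⟨y, hy, by simp only [e, p1.li]⟩⟩
    fun x hx => p1.inv_eq (p3 (h.frontier_eq ▸ hx))
  exact ⟨Φ ∘ Θ, p1.comp q1.1, fun x hx => by rw [comp_apply, q2 hx, p1.ri]⟩

theorem cfl_susp {k : Rn 2 → Rn 2} {ρ : ℝ} (hρ : 0 < ρ) (h : Mv (ball 0 ρ) k) :
    ∃ Φ, Mv (ball 0 ρ) Φ ∧ ∀ p, Φ (mk3 p 0) = mk3 (k p) 0 := by
  obtain ⟨Ψ, p1, p2, p3⟩ := lp_cone hρ h
  have t : ∀ {Ψ : Rn 3 → Rn 3}, LP Ψ →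
      TP fun w : Rn 3 => mk3 (pj3 (Ψ (mk3 (pj3 w) (1 - |w 2| / ρ)))) (w 2) := fun q =>
    (tp_pj3.comp (q.1.tp.comp (tp_pj3.mk3 ((TP.const 1).sub
      ((TP.id'.apply 2).abs.div_const ρ))))).mk3 (TP.id'.apply 2)
  refine ⟨_, ⟨pa2_of_inv (t p1) (t p1.inv) (fun w => ?_) fun w => ?_, fun w hw => ?_⟩, fun p => ?_⟩
  · simp only [pj3_mk3, mk3_2, PUp_mk p1, p1.1.li, mk3_pj3]
  · simp only [pj3_mk3, mk3_2, PUp_mk p1.inv, p1.1.ri, mk3_pj3]
  · rcases le_or_gt (1 - |w 2| / ρ) 0 with e | e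
    · rw [p2 _ e, pj3_mk3, mk3_pj3]
    · have a : |w 2| < ρ := (div_lt_one hρ).1 (by linarith)
      rw [mem_ball_zero_iff, ← mk3_pj3 w, norm_mk3, max_lt_iff, not_and_or, not_lt] at hw
      have b : ρ ≤ ‖pj3 w‖ := hw.resolve_right (not_not.2 a)
      have c := p3 ((1 - |w 2| / ρ)⁻¹ • pj3 w) _ e
      rw [h.2, smul_inv_smul₀ e.ne'] at c
      · rw [c, pj3_mk3, mk3_pj3]
      · rw [mem_ball_zero_iff, not_lt, norm_smul, Real.norm_of_nonneg (inv_pos.2 e).le]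
        refine b.trans (le_mul_of_one_le_left (norm_nonneg _) ((one_le_inv₀ e).2 ?_))
        have : 0 ≤ |w 2| / ρ := by positivity
        linarith
  · have c := p3 p 1 one_pos
    rw [one_smul, one_smul] at c
    simp only [pj3_mk3, mk3_2, abs_zero, zero_div, sub_zero, c]

theorem cfl_tc {n : ℕ} {x v : Rn n} {S : Set (Rn n)} (h : ∀ t ∈ Ioo (0 : ℝ) 1, x + t • v ∈ S) :
    v ∈ tc S x := by
  filter_upwards [Ioo_mem_nhdsGT (zero_lt_one' ℝ)] with t ht using h t ht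

theorem cfl_lk {x : Rn 2} (hx : ‖x‖ ≤ 1) : TCrc (lk (closedBall 0 1) x) ∨
    ∃ a b, TArc (lk (closedBall 0 1) x) a b := by
  have un : ∀ {U : Set (Rn 2)}, U ∈ 𝓝 x → lk U x = sphere 0 1 := fun {U} hU => by
    rw [lk_congr (Y := univ) (by filter_upwards [hU] with y hy using by simpa using hy)]
    ext v
    simp [lk, tc]
  have c := crc_sq (0 : Rn 2) one_pos
  rcases hx.lt_or_eq with h | h
  · rw [un (closedBall_mem_nhds_of_mem (mem_ball_zero_iff.2 h))]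
    exact Or.inl c.tcrc
  have p1 := Poly.closedBall (0 : Rn 2) 1
  have p2 : Poly {y ∈ closedBall (0 : Rn 2) 2 | 1 - ‖y‖ ≤ 0} :=
    poly_le (Poly.closedBall 0 2) ((TP.const 1).sub TP.id'.norm_pi)
  have sm : ∀ s : ℝ, ‖x + s • x‖ = |1 + s| := fun s => by
    rw [show x + s • x = (1 + s) • x by rw [add_smul, one_smul], norm_smul, h, mul_one]
    rfl
  obtain ⟨a, b, hab, e⟩ := ncard_eq_two.1 (tcrc_lk c.poly c.tcrc (mem_sphere_zero_iff_norm.2 h))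
  have ns : ∀ s : ℝ, s ≠ 0 → |s| ≤ 1 → s • x ∉ ({a, b} : Set (Rn 2)) := fun s s0 s1 k => by
    rw [← e] at k
    have k2 : ∀ᶠ t in 𝓝[>] (0 : ℝ), x + t • s • x ∈ sphere 0 1 := k.2
    obtain ⟨t, k', ht⟩ := (k2.and (Ioo_mem_nhdsGT (zero_lt_one' ℝ))).exists
    have : |t * s| < 1 := by
      rw [abs_mul, abs_of_pos ht.1]
      exact (mul_le_of_le_one_right ht.1.le s1).trans_lt ht.2
    rw [smul_smul, mem_sphere_zero_iff_norm, sm,
      abs_of_nonneg (by linarith [(abs_lt.1 this).1]), add_eq_left] at k'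
    exact mul_ne_zero ht.1.ne' s0 k'
  refine Or.inr ⟨a, b, (arc_uniq c (p1.lk x).1.isClosed (p2.lk x).1.isClosed ?_ ?_ hab
    (fun k => ns (-1) (by norm_num) (by norm_num) (k ⟨by simp [h], cfl_tc fun t ht => ?_⟩))
    fun k => ns 1 (by norm_num) (by norm_num) (k ⟨by simp [h], cfl_tc fun t ht => ?_⟩)).tarc⟩
  · rw [← lk_union p1 p2]
    refine un (mem_of_superset (closedBall_mem_nhds_of_mem
      (mem_ball_zero_iff.2 (h.trans_lt one_lt_two))) fun y hy => ?_)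
    rcases le_total ‖y‖ 1 with k | k
    · exact Or.inl (mem_closedBall_zero_iff.2 k)
    · exact Or.inr ⟨hy, sub_nonpos.2 k⟩
  · rw [← lk_inter, ← e]
    congr 1
    ext y
    simp only [mem_inter_iff, mem_closedBall_zero_iff, mem_ofPred_eq, mem_sphere_zero_iff_norm]
    exact ⟨fun k => by linarith [k.1, k.2.2], fun k => ⟨k.le, by linarith, by linarith⟩⟩
  · rw [smul_smul, mem_closedBall_zero_iff, sm, abs_of_nonneg (by linarith [ht.2])]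
    linarith [ht.1]
  · rw [smul_smul, mem_ofPred_eq, mem_closedBall_zero_iff, sm, abs_of_nonneg (by linarith [ht.1])]
    constructor <;> linarith [ht.1, ht.2]

theorem cfl_chart (hφ : TP φ) (hi : InjOn φ (closedBall 0 1)) {x : Rn 2} (hx : ‖x‖ ≤ 1) :
    ∃ Θ : Rn 3 → Rn 3, LH Θ ∧ Θ 0 = φ x ∧
      ∃ ρ > 0, ∀ w, ‖w‖ ≤ ρ → Θ w ∈ φ '' closedBall 0 1 → w 2 = 0 := by
  have p1 := Poly.closedBall (0 : Rn 2) 1
  have pD := p1.image hφ
  obtain ⟨k, k1, k2, k3⟩ := lk_image p1 hφ hi (mem_closedBall_zero_iff.2 hx)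
  have k4 := k3 _ Subset.rfl p1
  have s : lk (φ '' closedBall 0 1) (φ x) ⊆ sphere 0 1 := fun v hv =>
    mem_sphere_zero_iff_norm.2 hv.1
  have b := ball_round (0 : Rn 3) one_pos
  obtain ⟨C, c1, c2, c3⟩ : ∃ C, Crc C ∧ lk (φ '' closedBall 0 1) (φ x) ⊆ C ∧ C ⊆ sphere 0 1 := by
    rcases cfl_lk hx with h | ⟨a, a', h⟩
    · exact ⟨_, crc_of_tcrc (pD.lk _) (k4 ▸ h.image k1 k2), Subset.rfl, s⟩
    · exact arc_crc_sph b (arc_of_tarc (pD.lk _) (k4 ▸ h.image k1 k2)) s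
  obtain ⟨D₁, D₂, ⟨Φ, q1, -, q2, q3, q4⟩, q5⟩ := sph_len b c1 c3
  obtain ⟨Ψ, r1, r2, r3⟩ := fill_cone (gauge_oN 2) gauge_norm q1.tp (by
    have e : {x : Rn 3 | oN 2 x = 1} = capU 2 ∪ capL 2 := Set.ext fun y =>
      ⟨fun k => (le_total 0 (y 2)).imp (fun a => ⟨k, a⟩) fun a => ⟨k, a⟩,
        fun k => k.elim And.left And.left⟩
    have e' : {x : Rn 3 | ‖x‖ = 1} = Φ '' (capU 2 ∪ capL 2) := by
      rw [image_union, q2, q3, q5]
      exact Set.ext fun y => mem_sphere_zero_iff_norm.symm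
    rw [e, e']
    exact q1.inj.injOn.bijOn_image)
  obtain ⟨ρ, hρ, t⟩ := pD.tc_iff (φ x)
  have hon : ∀ w : Rn 3, oN 2 w ≤ 2 * ‖w‖ := fun w => by
    have := norm_eq_hz 2 w
    have a := le_max_left ‖hz 2 w‖ |w 2|
    have b := le_max_right ‖hz 2 w‖ |w 2|
    unfold oN
    linarith
  refine ⟨_, (lh_hom (φ x) one_ne_zero).comp r1, ?_, ρ / 2, by positivity, fun w hw hD => ?_⟩
  · have := r2 0
    simp only [oN, hz, Pi.zero_apply, abs_zero, add_zero] at this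
    rw [show update (0 : Rn 3) 2 0 = 0 from update_eq_self _ _, norm_zero, norm_eq_zero] at this
    simp [this]
  · rw [comp_apply, one_smul, t _ (by rw [r2]; linarith [hon w])] at hD
    by_contra h0
    have a : 0 < oN 2 w := add_pos_of_nonneg_of_pos (norm_nonneg _) (abs_pos.2 h0)
    have a1 : oN 2 ((oN 2 w)⁻¹ • w) = 1 := by
      rw [(gauge_oN 2).hom _ _ (inv_pos.2 a).le, inv_mul_cancel₀ a.ne']
    have a2 := r3 _ a1 _ a.le
    have a3 := r3 _ a1 1 zero_le_one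
    rw [one_smul, one_smul] at a3
    rw [smul_inv_smul₀ a.ne'] at a2
    rw [a2, tc_smul a] at hD
    obtain ⟨y, hy, e⟩ := q4 ▸ c2 ⟨by rw [← a3, r2, a1], hD⟩
    have := hy.2
    rw [q1.inj e, Pi.smul_apply, smul_eq_mul] at this
    exact mul_ne_zero (inv_pos.2 a).ne' h0 this

theorem cfl_two (hφ : TP φ) (hi : InjOn φ (closedBall 0 1)) {x : Rn 2} (hx : ‖x‖ ≤ 1) :
    ∃ (Θ : Rn 3 → Rn 3) (Ψ : Rn 2 → Rn 2) (ρ δ : ℝ), LH Θ ∧ LH Ψ ∧ 0 < ρ ∧ 0 < δ ∧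
      (∀ z ∈ ball x δ, ‖Ψ z‖ < ρ) ∧ (∀ y ∈ ball x δ, ‖y‖ ≤ 1 → φ y = Θ (mk3 (Ψ y) 0)) ∧
      ∀ y, ‖y‖ ≤ 1 → y ∉ ball x δ → ∀ w, ‖w‖ < ρ → Θ w = φ y →
        w 2 = 0 ∧ pj3 w ∉ Ψ '' ball x δ := by
  obtain ⟨Θ, p1, p2, ρ, hρ, p3⟩ := cfl_chart hφ hi hx
  have tu := p1.tpi.comp hφ
  have u0 : invFun Θ (φ x) = 0 := p1.inv_eq p2
  obtain ⟨η, hη, q⟩ := Metric.continuous_iff.1 tu.continuous x ρ hρ
  have q1 : ∀ y, ‖y‖ ≤ 1 → y ∈ ball x η → φ y = Θ (mk3 (pj3 (invFun Θ (φ y))) 0) := fun y a b => by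
    have := q y b
    rw [u0, dist_zero_right] at this
    rw [← p3 _ this.le (by rw [p1.ri]; exact ⟨y, mem_closedBall_zero_iff.2 a, rfl⟩), mk3_pj3, p1.ri]
  have hx' := fun j => abs_le.1 ((norm_le_pi_norm x j).trans hx)
  have m : ∀ y : Rn 2, y ∈ Icc (fun j => max (-1) (x j - η / 2)) (fun j => min 1 (x j + η / 2)) ↔
      ‖y‖ ≤ 1 ∧ ‖y - x‖ ≤ η / 2 := fun y => by
    simp only [mem_Icc, Pi.le_def, pi_norm_le_iff_of_nonneg zero_le_one, max_le_iff, le_min_iff,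
      pi_norm_le_iff_of_nonneg (show 0 ≤ η / 2 by positivity), Real.norm_eq_abs, abs_le,
      Pi.sub_apply, ← forall_and]
    refine forall_congr' fun j => ⟨fun k => ?_, fun k => ?_⟩ <;>
      refine ⟨⟨?_, ?_⟩, ?_, ?_⟩ <;> linarith [k.1.1, k.1.2, k.2.1, k.2.2]
  have m' : ∀ y : Rn 2, ‖y - x‖ ≤ η / 2 → y ∈ ball x η := fun y k =>
    mem_ball_iff_norm.2 (by linarith)
  obtain ⟨Ψ, r1, r2⟩ := cfl_ext (ball_box (a := fun j => max (-1) (x j - η / 2))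
    (b := fun j => min 1 (x j + η / 2)) fun j => by
      simp only [max_lt_iff, lt_min_iff]
      refine ⟨⟨?_, ?_⟩, ?_, ?_⟩ <;> linarith [(hx' j).1, (hx' j).2]) (tp_pj3.comp tu)
    fun y hy z hz e => by
      rw [m] at hy hz
      refine hi (mem_closedBall_zero_iff.2 hy.1) (mem_closedBall_zero_iff.2 hz.1) ?_
      rw [q1 y hy.1 (m' y hy.2), q1 z hz.1 (m' z hz.2)]
      exact congrArg (fun p => Θ (mk3 p 0)) e
  have q2 : ∀ y, ‖y‖ ≤ 1 → ‖y - x‖ ≤ η / 2 → φ y = Θ (mk3 (Ψ y) 0) := fun y a b => by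
    rw [r2 ((m y).2 ⟨a, b⟩)]
    exact q1 y a (m' y b)
  have x0 : ‖x - x‖ ≤ η / 2 := by rw [sub_self, norm_zero]; positivity
  have Ψ0 : Ψ x = 0 := by
    rw [r2 ((m x).2 ⟨hx, x0⟩)]
    simp only [u0]
    ext j
    fin_cases j <;> rfl
  have cK : IsClosed (φ '' (closedBall 0 1 \ ball x (η / 2))) :=
    (((isCompact_closedBall 0 1).diff isOpen_ball).image hφ.continuous).isClosed
  have ev : ∀ᶠ z in 𝓝 x, z ∈ ball x (η / 2) ∧ ‖Ψ z‖ < ρ ∧
      Θ (mk3 (Ψ z) 0) ∉ φ '' (closedBall 0 1 \ ball x (η / 2)) := by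
    refine Eventually.and (ball_mem_nhds x (by positivity))
      ((r1.tp.continuous.norm.continuousAt.eventually_lt continuousAt_const (by simpa [Ψ0])).and
      ((p1.tp.comp (r1.tp.mk3 (TP.const 0))).continuous.continuousAt.eventually_mem
        (cK.isOpen_compl.mem_nhds ?_)))
    rintro ⟨y, hy, e⟩
    rw [← q2 x hx x0] at e
    exact hy.2 (hi hy.1 (mem_closedBall_zero_iff.2 hx) e ▸ mem_ball_self (by positivity))
  obtain ⟨δ, hδ, s⟩ := Metric.eventually_nhds_iff_ball.1 ev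
  refine ⟨Θ, Ψ, ρ, δ, p1, r1, hρ, hδ, fun z hz => (s z hz).2.1, fun y hy a =>
    q2 y a (mem_ball_iff_norm.1 (s y hy).1).le, fun y a hy w hw e => ?_⟩
  have a' := mem_closedBall_zero_iff.2 a
  have w0 := p3 w hw.le ⟨y, a', e.symm⟩
  refine ⟨w0, fun ⟨z, hz, k⟩ => ?_⟩
  have e1 : Θ (mk3 (Ψ z) 0) = φ y := by rw [k, ← w0, mk3_pj3, e]
  have e2 : y ∈ ball x (η / 2) := by_contra fun c => (s z hz).2.2 ⟨y, ⟨a', c⟩, e1.symm⟩
  rw [q2 y a (mem_ball_iff_norm.1 e2).le] at e1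
  have e3 := congrArg pj3 (p1.inj e1)
  rw [pj3_mk3, pj3_mk3] at e3
  exact hy (r1.inj e3 ▸ hz)

theorem PCel.dsc {D J : Set (Rn 3)} (h : PDsc D J) : Dsc 2 D J := by
  obtain ⟨φ, hφ, hi, rfl, rfl⟩ := h
  obtain ⟨Θ, Ψ, ρ, δ, p1, p2, -, hδ, -, p3, -⟩ := cfl_two hφ hi (x := 0) (by simp)
  obtain ⟨b, Φ, b0, b1, q1, q2⟩ := cf_shrink (φ := φ) (fun x hx => by
    obtain ⟨Θ, Ψ, ρ, δ, p1, p2, hρ, hδ, p3, p4, p5⟩ := cfl_two hφ hi hx
    refine ⟨δ, hδ, fun h hh => ?_⟩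
    obtain ⟨Φ, q1, q2⟩ := cfl_susp hρ ((hh.conj p2).mono (by
      rintro _ ⟨z, hz, rfl⟩
      exact mem_ball_zero_iff.2 (p3 z hz)))
    refine ⟨_, (q1.conj p1).1, fun y a b => ?_⟩
    by_cases hy : y ∈ ball x δ
    · rw [p4 y hy a, p4 _ (hh.image_eq Subset.rfl ▸ mem_image_of_mem h hy) b]
      simp only [comp_apply, p1.li, q2, p2.li]
    · rw [hh.2 y hy, comp_apply, comp_apply]
      by_cases hw : ‖invFun Θ (φ y)‖ < ρ
      · obtain ⟨a1, a2⟩ := p5 y a hy _ hw (p1.ri _)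
        rw [← mk3_pj3 (invFun Θ (φ y)), a1, q2, (hh.conj p2).2 _ a2, ← a1, mk3_pj3, p1.ri]
      · rw [q1.2 _ (by simpa using hw), p1.ri]) (show 0 < min 1 (δ / 2) by positivity)
  have key : ∀ A ⊆ closedBall (0 : Rn 2) 1,
      invFun Φ '' (Θ '' lay (Ψ '' ((fun y => (0 : Rn 2) + b • y) '' A)) 0) = φ '' A := fun A hA => by
    rw [← q1.inv_image (φ '' A)]
    congr 1
    simp only [lay_eq, image_image, zero_add]
    refine image_congr fun y hy => ?_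
    have a := mem_closedBall_zero_iff.1 (hA hy)
    have a1 : ‖b • y‖ ≤ b := by
      rw [norm_smul, Real.norm_of_nonneg b0.le]
      exact mul_le_of_le_one_right b0.le a
    have a2 := min_le_left 1 (δ / 2)
    have a3 := min_le_right 1 (δ / 2)
    rw [q2 y a, p3 _ (mem_ball_zero_iff.2 (by linarith)) (by linarith)]
  rw [← key _ Subset.rfl, ← key _ sphere_subset_closedBall]
  exact ((dsc_lay (((ball_round 0 one_pos).image (lh_hom 0 b0.ne')).image p2) 0).image p1).image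
    q1.inv

end BEp
end
end

-- merged part: Pool.Agent.Work.MP_f0515e_an.D3.CDisj
section
/-! The discs spanning the faces are made disjoint, one face after the other. -/

open Set Metric Filter Topology Function BEv
open scoped NNReal

noncomputable section
namespace BEp

variable {Ω : Set (Rn 3)} {K : Kx Ω} {σ τ C : Set (Rn 3)} {f g : Rn 3 → Rn 3}
  {D : Set (Rn 3) → Set (Rn 3)} {R : Set (Set (Rn 3))} {d : ℕ}

theorem rb_sk (hσ : σ ∈ K.cells) (h : dm σ ≤ d + 1) : rb σ ⊆ K.sk d := fun x hx => by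
  have a := Kx.cl_sub hσ hx.1
  have := Kx.dm_lt hσ (K.cell_mem a) (Kx.front (K.cell_mem a) hσ ⟨x, K.mem x a, hx.1⟩)
    fun e => hx.2 (e ▸ K.mem x a)
  exact ⟨a, by omega⟩

theorem not_cl (hσ : σ ∈ K.cells) (hτ : τ ∈ K.cells) (ne : σ ≠ τ) (h : dm τ ≤ dm σ) :
    Disjoint σ (closure τ) := disjoint_left.2 fun x a b =>
  (Kx.dm_lt hτ hσ (Kx.front hσ hτ ⟨x, a, b⟩) ne).not_ge h

theorem glue_sk (h : ∀ e ∈ K.cells, dm e ≤ d → ∃ u, TP u ∧ EqOn g u (closure e))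
    (hC : IsCompact C) (hs : C ⊆ Ω) : ∃ u, TP u ∧ EqOn g u (K.sk d ∩ C) := by
  choose! u u1 u2 using h
  obtain ⟨k, k1, k2⟩ := tp_glue_fin (S := {e | e ∈ K.cells ∧ (e ∩ C).Nonempty ∧ dm e ≤ d})
    ((Kx.cover hC hs).subset fun e he => ⟨he.1, he.2.1⟩) (X := closure)
    (fun e he => Kx.cells_poly he.1) (fun e he => u1 e he.1 he.2.2) fun e he e' he' x hx =>
      (u2 e he.1 he.2.2 hx.1).symm.trans (u2 e' he'.1 he'.2.2 hx.2)
  refine ⟨k, k1, fun x hx => ?_⟩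
  have a := K.cell_mem hx.1.1
  have b := subset_closure (K.mem x hx.1.1)
  exact (u2 _ a hx.1.2 b).trans (k2 _ ⟨a, ⟨x, K.mem x hx.1.1, hx.2⟩, hx.1.2⟩ b).symm

theorem rb_arc (hσ : σ ∈ K.cel 2) (hτ : τ ∈ K.cel 2) (ne : σ ≠ τ) :
    (rb σ ∩ rb τ).Subsingleton ∨ ∃ x y, Arc (rb σ ∩ rb τ) x y := by
  have e : rb σ ∩ rb τ = closure σ ∩ closure τ := Subset.antisymm
    (fun x hx => ⟨hx.1.1, hx.2.1⟩) fun x hx =>
      ⟨⟨hx.1, fun k => disjoint_left.1 (not_cl hσ.1 hτ.1 ne (hτ.2.trans hσ.2.symm).le) k hx.2⟩,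
        hx.2, fun k => disjoint_left.1 (not_cl hτ.1 hσ.1 ne.symm (hσ.2.trans hτ.2.symm).le) k hx.1⟩
  have cv : Convex ℝ (rb σ ∩ rb τ) :=
    e ▸ (Kx.cells_cvx hσ.1).closure.inter (Kx.cells_cvx hτ.1).closure
  have c : Crc (rb σ) := PCel.crc (Kx.pdsc hσ)
  have p : Poly (rb σ ∩ rb τ) := c.poly.inter (PCel.crc (Kx.pdsc hτ)).poly
  rcases (rb σ ∩ rb τ).subsingleton_or_nontrivial with h | h
  · exact Or.inl h
  obtain ⟨𝒞, c1, c2, c3, c4⟩ := oneman p fun x hx => by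
    have a := tcrc_lk c.poly c.tcrc hx.1
    have b := finite_of_ncard_ne_zero (a ▸ two_ne_zero)
    have m := lk_mono (inter_subset_left (s := rb σ) (t := rb τ)) x
    have l := ncard_le_ncard m b
    obtain ⟨y, hy, yx⟩ := h.exists_ne x
    have n := norm_pos_iff.2 (sub_ne_zero.2 yx)
    have := (ncard_pos (b.subset m)).2 ⟨‖y - x‖⁻¹ • (y - x), by
      rw [norm_smul, norm_inv, norm_norm, inv_mul_cancel₀ n.ne'], (tc_smul (inv_pos.2 n)).2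
        (cfl_tc fun t ht => cv.add_smul_sub_mem hx hy (Ioo_subset_Icc_self ht))⟩
    omega
  obtain ⟨z, hz⟩ := h.nonempty
  obtain ⟨A, hA, xA⟩ := mem_sUnion.1 (c2.ge hz)
  have cl : ∀ A ∈ 𝒞, IsClosed A := fun A k =>
    ((c4 A k).elim Crc.poly fun ⟨_, _, q⟩ => q.poly).1.isClosed
  have dj : Disjoint A (⋃ B ∈ 𝒞 \ {A}, B) := disjoint_iUnion₂_right.2 fun B hB =>
    c3 hA hB.1 fun k => hB.2 k.symm
  have eA : rb σ ∩ rb τ = A := by
    refine Subset.antisymm ?_ (c2 ▸ subset_sUnion_of_mem hA)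
    refine (isPreconnected_iff_subset_of_disjoint_closed.1 cv.isPreconnected A _ (cl A hA)
      ((c1.sdiff (t := {A})).isClosed_biUnion fun B hB => cl B hB.1) (fun x hx => ?_)
      (by rw [dj.inter_eq, inter_empty])).resolve_right fun k =>
        disjoint_left.1 dj xA (k hz)
    obtain ⟨B, hB, xB⟩ := mem_sUnion.1 (c2.ge hx)
    by_cases q : B = A
    · exact Or.inl (q ▸ xB)
    · exact Or.inr (mem_biUnion (show B ∈ 𝒞 \ {A} from ⟨hB, q⟩) xB)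
  refine Or.inr (eA ▸ (c4 A hA).resolve_left fun k => ?_)
  have e2 := tcrc_sub k.tcrc c.tcrc (eA ▸ inter_subset_left)
  obtain ⟨M, o, U, -, u1, u2, u3, ⟨y, hy⟩, u4, -, u5⟩ := Kx.chart2 hσ
  have := (ball_convex2 u3 u2.closure ⟨y, interior_maximal subset_closure u1 hy⟩).sub_convex
    one_le_two (W := (fun y => M y + o) ⁻¹' closure τ)
    (((Kx.cells_cvx hτ.1).closure.translate_preimage_left o).linear_preimage M.toLinearMap)
    fun z hz => by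
      have : M z + o ∈ rb σ := u5.le (mem_image_of_mem _ (frontier_closure_subset hz))
      rw [← e2, ← eA] at this
      exact this.2.1
  exact disjoint_left.1 (not_cl hσ.1 hτ.1 ne (hτ.2.trans hσ.2.symm).le)
    (u4 ▸ mem_image_of_mem _ hy) (this (subset_closure hy))

theorem disj_all (h : Pre K f g D R) : ∃ F : Set (Rn 3) → Set (Rn 3),
    (∀ c ∈ K.cel 2, PDsc (F c) (g '' rb c) ∧ F c ⊆ f '' Ω ∧ F c ∩ g '' K.sk 1 ⊆ g '' rb c) ∧
    (∀ c ∈ R, F c = D c) ∧ ∀ c ∈ K.cel 2, ∀ c' ∈ K.cel 2, c ≠ c' → F c ∩ F c' ⊆ g '' K.sk 1 := by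
  refine rec_fam ((K.countable h.opn).mono fun c hc => hc.1) h.rfin
    (P := fun c F => PDsc F (g '' rb c) ∧ F ⊆ f '' Ω ∧ F ∩ g '' K.sk 1 ⊆ g '' rb c)
    (r := fun A B => A ∩ B ⊆ g '' K.sk 1) (fun A B k => inter_comm A B ▸ k)
    (fun c hc _ => ⟨h.disc c hc, h.dV c hc, h.dG c hc⟩)
    (fun c hc k c' hc' k' => h.rdis c k hc c' k' hc') fun T hT fin F p q c hc cT => ?_
  obtain ⟨C, c1, c2, c3⟩ := exists_compact_between
    ((h.disc c hc).cpt.union (fin.isCompact_biUnion fun a ha => (p a ha).1.cpt))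
    (open_img h.cont h.inj h.opn Subset.rfl)
    (union_subset (h.dV c hc) (iUnion₂_subset fun a ha => (p a ha).2.1))
  have d1 := subset_union_left.trans c2
  have d2 : ∀ a ∈ T, F a ⊆ interior C := fun a ha =>
    ((subset_biUnion_of_mem (u := F) ha).trans subset_union_right).trans c2
  set X := ⋃ e ∈ {e | e ∈ K.cells ∧ dm e ≤ 1 ∧ (g '' closure e ∩ C).Nonempty}, g '' closure e
  have x1 : X ⊆ g '' K.sk 1 := iUnion₂_subset fun e he => image_mono (Kx.cl_sub_sk he.1 he.2.1)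
  have x2 : ∀ A ⊆ g '' K.sk 1, A ⊆ interior C → A ⊆ X := fun A a b y hy => by
    obtain ⟨x, hx, rfl⟩ := a hy
    have m := mem_image_of_mem g (subset_closure (K.mem x hx.1))
    exact mem_biUnion ⟨K.cell_mem hx.1, hx.2, _, m, interior_subset (b hy)⟩ m
  have sk : ∀ a ∈ K.cel 2, rb a ⊆ K.sk 1 := fun a ha => rb_sk ha.1 ha.2.le
  have := fin.to_subtype
  obtain ⟨D', e1, e2, e3, e4⟩ := clean_all (κ := T) (F := fun a => F a) (K := fun a => g '' rb a.1)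
    (X := X) (h.disc c hc) (fun a => (p a a.2).1.dsc)
    (Poly.biUnion (h.glf C c1 c3) fun e he => by
      obtain ⟨u, u1, u2⟩ := h.gtp e he.1 he.2.1
      exact u2.image_eq ▸ (Kx.cells_poly he.1).image u1) isOpen_interior
    (x2 _ (image_mono (sk c hc)) ((h.disc c hc).sub.trans d1))
    (fun a => x2 _ (image_mono (sk a (hT a.2))) ((p a a.2).1.sub.trans (d2 a a.2)))
    ((inter_subset_inter_right _ x1).trans (h.dG c hc))
    (fun a => (inter_subset_inter_right _ x1).trans (p a a.2).2.2)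
    (fun a b ne => x2 _ (q a a.2 b b.2 fun k => ne (Subtype.ext k))
      (inter_subset_left.trans (d2 a a.2))) d1 (fun a => d2 a a.2) fun a => by
      rw [← h.ginj.image_inter (sk c hc) (sk a (hT a.2))]
      refine (rb_arc hc (hT a.2) fun k => cT (k ▸ a.2)).imp (fun k => k.image g) ?_
      rintro ⟨x, y, k⟩
      obtain ⟨u, u1, u2⟩ := glue_sk h.gtp (Kx.cells_poly hc.1).1 (Kx.cl_sub hc.1)
      have u3 : EqOn g u (rb c ∩ rb a.1) := fun z hz => u2 ⟨sk c hc hz.1, hz.1.1⟩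
      exact ⟨_, _, u3.image_eq ▸ k.image u1
        ((h.ginj.mono (inter_subset_left.trans (sk c hc))).congr u3)⟩
  exact ⟨D', ⟨e1, (e4.trans interior_subset).trans c3, fun y hy =>
    e2 ⟨hy.1, x2 _ inter_subset_right (inter_subset_left.trans e4) hy⟩⟩,
    fun a ha => (e3 ⟨a, ha⟩).trans (image_mono (sk c hc))⟩

end BEp
end
end
end
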