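import Pool.Agent.Work.MP_f0515e_an.D3.EML

/-! The chart which straightens the two corridors through an octagonal tube. Chart coordinates `q = (s, z, h)`.
`τ = clamp (|h| - 2) 1`, `σ = s - clamp (s / 3) (max τ 0) + clamp s (max (-τ) 0)` (slope in `s` at least `2 / 3`, `lh_vert 0`),
`D σ h = min (M * h) (max (h + 1) (|σ| + 2 * h - 4))` with `M = 2 * K + 10`, `δ = D σ (max h 0) - D σ (max (-h) 0)` (slope in `h` at least `1`, `D σ 0 = 0`, `lh_vert 2`),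
`ξ q = ![(σ - δ) / 2, (σ + δ) / 2, z]` (`lh_aff`). All clauses are case distinctions and `linarith`; the symmetry `h ↦ -h` swaps the two coordinates.
For the converse in `oct`: show that `3 < |s|` or `3 < |h|` gives `4 < max |σ| |δ|` or `6 < |σ| + |δ|` (note `|x| + |y| = max |σ| |δ|`, `2 * max |x| |y| = |σ| + |δ|`). About 350 lines. -/

open Set Metric Filter Topology Function BEv
open scoped NNReal

noncomputable section
namespace BEp

variable {n m : ℕ}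

/-- Dictionary of the chart `ξ`, valid for `|q 0| ≤ K`. -/
structure Chi (K : ℝ) (ξ : Rn 3 → Rn 3) : Prop where
  lh : LH ξ
  z : ∀ q, ξ q 2 = q 1
  oct : ∀ q, ξ q ∈ oc 0 0 ↔ |q 0| ≤ 3 ∧ |q 2| ≤ 3
  up : ∀ q, 3 ≤ q 0 → q 0 ≤ K → 1 ≤ q 2 → q 2 ≤ 3 → ξ q 0 = 2 - q 2 ∧ ξ q 1 = q 0
  vp : ∀ q, 3 ≤ q 0 → q 0 ≤ K → -3 ≤ q 2 → q 2 ≤ -1 → ξ q 0 = q 0 ∧ ξ q 1 = 2 + q 2
  vm : ∀ q, -K ≤ q 0 → q 0 ≤ -3 → 1 ≤ q 2 → q 2 ≤ 3 → ξ q 0 = q 0 ∧ ξ q 1 = q 2 - 2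
  um : ∀ q, -K ≤ q 0 → q 0 ≤ -3 → -3 ≤ q 2 → q 2 ≤ -1 → ξ q 0 = -2 - q 2 ∧ ξ q 1 = q 0
  cp : ∀ q, 3 ≤ q 0 → q 0 ≤ K → |q 2| ≤ 1 → ξ q 0 + ξ q 1 = q 0 + 1 ∧ 1 ≤ ξ q 0 ∧ 1 ≤ ξ q 1 ∧
    (q 2 < 1 → 3 < q 0 → 1 < ξ q 0) ∧ (-1 < q 2 → 3 < q 0 → 1 < ξ q 1) ∧
    (1 / 2 ≤ q 2 → ξ q 0 ≤ 3) ∧ (q 2 ≤ -1 / 2 → ξ q 1 ≤ 3)
  seg : ∀ x : Rn 3, x 0 + x 1 = 4 → 1 ≤ x 0 → 1 ≤ x 1 → ∃ q, ξ q = x ∧ q 0 = 3 ∧ |q 2| ≤ 1
  cm : ∀ q, -K ≤ q 0 → q 0 < -3 → |q 2| < 1 → ξ q 0 + ξ q 1 = q 0 - 1 ∧ ξ q 0 < -1 ∧ ξ q 1 < -1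
  wp : ∀ q, |q 0| ≤ K → 3 < q 2 → q 2 < 4 → ξ q 0 < -1 ∧ 1 < ξ q 1 ∧ 4 < ξ q 1 - ξ q 0 ∧
    ξ q 0 + ξ q 1 ≤ max (q 0 - 1) 2 ∧ min (q 0 + 1) (-2) ≤ ξ q 0 + ξ q 1 ∧
    ξ q 1 ≤ max (q 0 + 1) 4 ∧ min (q 0 - 1) (-4) ≤ ξ q 0
  wm : ∀ q, |q 0| ≤ K → -4 < q 2 → q 2 < -3 → ξ q 1 < -1 ∧ 1 < ξ q 0 ∧ 4 < ξ q 0 - ξ q 1 ∧
    ξ q 0 + ξ q 1 ≤ max (q 0 - 1) 2 ∧ min (q 0 + 1) (-2) ≤ ξ q 0 + ξ q 1 ∧
    ξ q 0 ≤ max (q 0 + 1) 4 ∧ min (q 0 - 1) (-4) ≤ ξ q 1

/-- The shift `τ`. -/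
def EChi_t (h : ℝ) : ℝ := clamp (|h| - 2) 1

/-- The sum `σ` of the two coordinates. -/
def EChi_s (s t : ℝ) : ℝ := s - clamp (s / 3) (max t 0) + clamp s (max (-t) 0)

/-- The difference of the two coordinates above the middle level. -/
def EChi_D (M σ h : ℝ) : ℝ := min (M * h) (max (h + 1) (|σ| + 2 * h - 4))

/-- The difference `δ` of the two coordinates. -/
def EChi_d (M σ h : ℝ) : ℝ := EChi_D M σ (max h 0) - EChi_D M σ (max (-h) 0)

/-- The first coordinate. -/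
def EChi_x (M s h : ℝ) : ℝ := (EChi_s s (EChi_t h) - EChi_d M (EChi_s s (EChi_t h)) h) / 2

/-- The second coordinate. -/
def EChi_y (M s h : ℝ) : ℝ := (EChi_s s (EChi_t h) + EChi_d M (EChi_s s (EChi_t h)) h) / 2

section
variable {K M s t h σ a b : ℝ}

theorem EChi_t1 (h1 : |h| ≤ 1) : EChi_t h = -1 :=
  max_eq_left ((min_le_left _ _).trans (by linarith))

theorem EChi_t2 (h1 : 1 ≤ |h|) (h3 : |h| ≤ 3) : EChi_t h = |h| - 2 := by
  rw [EChi_t, clamp, min_eq_left (by linarith), max_eq_right (by linarith)]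

theorem EChi_t3 (h3 : 3 ≤ |h|) : EChi_t h = 1 := by
  rw [EChi_t, clamp, min_eq_right (by linarith), max_eq_right (by linarith)]

theorem EChi_tb (h : ℝ) : -1 ≤ EChi_t h ∧ EChi_t h ≤ 1 :=
  abs_le.1 (abs_clamp_le zero_le_one)

theorem EChi_tn (h : ℝ) : EChi_t (-h) = EChi_t h := by rw [EChi_t, abs_neg, EChi_t]

theorem EChi_shi (hs : 3 ≤ s) (ht : -1 ≤ t ∧ t ≤ 1) : EChi_s s t = s - t := by
  obtain ⟨h1, h2⟩ := ht
  simp only [EChi_s, clamp, max_def, min_def]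
  split_ifs <;> linarith

theorem EChi_slo (hs : s ≤ -3) (ht : -1 ≤ t ∧ t ≤ 1) : EChi_s s t = s + t := by
  obtain ⟨h1, h2⟩ := ht
  simp only [EChi_s, clamp, max_def, min_def]
  split_ifs <;> linarith

theorem EChi_cl {c : ℝ} (hab : a ≤ b) :
    0 ≤ clamp b c - clamp a c ∧ clamp b c - clamp a c ≤ b - a := by
  simp only [clamp, max_def, min_def]
  split_ifs <;> constructor <;> linarith

theorem EChi_ss (hab : a ≤ b) : 2 / 3 * (b - a) ≤ EChi_s b t - EChi_s a t := by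
  have h1 := (EChi_cl (c := max t 0) (a := a / 3) (b := b / 3) (by linarith only [hab])).2
  have h2 := (EChi_cl (c := max (-t) 0) hab).1
  simp only [EChi_s]
  linarith only [h1, h2]

theorem EChi_smid (hs : |s| ≤ 3) (ht : -1 ≤ t ∧ t ≤ 1) : |EChi_s s t| ≤ 3 - t := by
  obtain ⟨h1, h2⟩ := abs_le.1 hs
  have h3 := EChi_ss (t := t) h1
  have h4 := EChi_ss (t := t) h2
  rw [EChi_slo le_rfl ht] at h3
  rw [EChi_shi le_rfl ht] at h4
  exact abs_le.2 ⟨by linarith only [h1, h3], by linarith only [h2, h4]⟩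

theorem EChi_sout (hs : 3 ≤ |s|) (ht : -1 ≤ t ∧ t ≤ 1) : |EChi_s s t| = |s| - t := by
  rcases le_abs'.1 hs with k | k
  · rw [EChi_slo k ht, abs_of_nonpos (by linarith), abs_of_nonpos (by linarith)]
    ring
  · rw [EChi_shi k ht, abs_of_nonneg (by linarith), abs_of_nonneg (by linarith)]

theorem EChi_D0 : EChi_D M σ 0 = 0 := by
  rw [EChi_D, mul_zero]
  exact min_eq_left (le_max_of_le_left (by norm_num))

theorem EChi_dp (h0 : 0 ≤ h) : EChi_d M σ h = EChi_D M σ h := by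
  rw [EChi_d, max_eq_left h0, max_eq_right (neg_nonpos.2 h0), EChi_D0, sub_zero]

theorem EChi_dn (h : ℝ) : EChi_d M σ (-h) = -EChi_d M σ h := by
  rw [EChi_d, EChi_d, neg_neg, neg_sub]

theorem EChi_DD (hM : 1 ≤ M) (hab : a ≤ b) : b - a ≤ EChi_D M σ b - EChi_D M σ a := by
  have h1 : b - a ≤ M * b - M * a := by nlinarith
  simp only [EChi_D, max_def, min_def]
  split_ifs <;> linarith

theorem EChi_dd (hM : 1 ≤ M) (hab : a ≤ b) : 1 * (b - a) ≤ EChi_d M σ b - EChi_d M σ a := by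
  have h1 := EChi_DD (σ := σ) hM (max_le_max_right 0 hab)
  have h2 := EChi_DD (σ := σ) hM (max_le_max_right 0 (neg_le_neg hab))
  have h3 := max_zero_sub_max_neg_zero_eq_self a
  have h4 := max_zero_sub_max_neg_zero_eq_self b
  simp only [EChi_d]
  linarith

theorem EChi_D_nonneg (hM : 1 ≤ M) (h0 : 0 ≤ h) : 0 ≤ EChi_D M σ h := by
  have h1 := EChi_DD (σ := σ) hM h0
  rw [EChi_D0] at h1
  linarith

theorem EChi_da (hM : 1 ≤ M) : |EChi_d M σ h| = EChi_D M σ |h| := by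
  rcases le_total 0 h with k | k
  · rw [EChi_dp k, abs_of_nonneg k, abs_of_nonneg (EChi_D_nonneg hM k)]
  · rw [← abs_neg, ← EChi_dn, EChi_dp (neg_nonneg.2 k), abs_of_nonpos k,
      abs_of_nonneg (EChi_D_nonneg hM (neg_nonneg.2 k))]

theorem EChi_Dle : EChi_D M σ h ≤ max (h + 1) (|σ| + 2 * h - 4) := min_le_right _ _

theorem EChi_Deq (h1 : 1 ≤ h) (hM : 2 ≤ M) (hσ : |σ| - 2 ≤ M) :
    EChi_D M σ h = max (h + 1) (|σ| + 2 * h - 4) :=
  min_eq_right (max_le (by linarith only [h1, hM, mul_nonneg_of_nonpos_of_nonpos (Mathlib.Tactic.Linarith.sub_nonpos_of_le h1) (Mathlib.Tactic.Linarith.sub_nonpos_of_le hM)]) (by nlinarith))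

theorem EChi_xn (h : ℝ) : EChi_x M s (-h) = EChi_y M s h := by
  rw [EChi_x, EChi_tn, EChi_dn, sub_neg_eq_add, EChi_y]

theorem EChi_yn (h : ℝ) : EChi_y M s (-h) = EChi_x M s h := by
  rw [← EChi_xn, neg_neg]

theorem EChi_oct (hM : 2 ≤ M) : (|EChi_x M s h| ≤ 3 ∧ |EChi_y M s h| ≤ 3 ∧
    |EChi_x M s h| + |EChi_y M s h| ≤ 4) ↔ |s| ≤ 3 ∧ |h| ≤ 3 := by
  have e : ∀ u v : ℝ, (|(u - v) / 2| ≤ 3 ∧ |(u + v) / 2| ≤ 3 ∧ |(u - v) / 2| + |(u + v) / 2| ≤ 4) ↔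
      |u| ≤ 4 ∧ |v| ≤ 4 ∧ |u| + |v| ≤ 6 := fun u v => by
    rcases abs_cases u with k | k <;> rcases abs_cases v with l | l <;>
      rcases abs_cases ((u - v) / 2) with m | m <;> rcases abs_cases ((u + v) / 2) with n | n <;>
      exact ⟨fun ⟨_, _, _⟩ => ⟨by linarith, by linarith, by linarith⟩,
        fun ⟨_, _, _⟩ => ⟨by linarith, by linarith, by linarith⟩⟩
  rw [EChi_x, EChi_y, e, EChi_da (by linarith)]
  have tb := EChi_tb h
  have a0 := abs_nonneg h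
  have lo : 1 ≤ |h| → |h| + 1 ≤ EChi_D M (EChi_s s (EChi_t h)) |h| := fun k =>
    le_min (by linarith only [k, hM, a0, mul_nonneg_of_nonpos_of_nonpos (Mathlib.Tactic.Linarith.sub_nonpos_of_le hM) (Mathlib.Tactic.Linarith.sub_nonpos_of_le a0)]) (le_max_left _ _)
  constructor
  · rintro ⟨h1, h2, h3⟩
    have h4 : |h| ≤ 3 := le_of_not_gt fun k => by linarith [lo (by linarith)]
    refine ⟨le_of_not_gt fun k => ?_, h4⟩
    rw [EChi_sout k.le tb] at h1 h3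
    rcases le_total |h| 1 with l | l
    · linarith [EChi_t1 l]
    · linarith [EChi_t2 l h4, lo l]
  · rintro ⟨h1, h2⟩
    have h3 := EChi_smid h1 tb
    have h4 := EChi_Dle (M := M) (σ := EChi_s s (EChi_t h)) (h := |h|)
    rcases le_total |h| 1 with l | l
    · have := EChi_t1 l
      rcases le_max_iff.1 h4 with k | k <;> exact ⟨by linarith only [tb, h3], by linarith only [h2, k, tb, h3, l], by linarith only [tb, h3, l, k]⟩
    · have := EChi_t2 l h2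
      rcases le_max_iff.1 h4 with k | k <;> exact ⟨by linarith only [tb, h3], by linarith only [h2, k, tb, h3, this], by linarith only [h3, this, k]⟩

theorem EChi_cor (hM : |s| ≤ M) (hs : 3 ≤ |s|) (h1 : 1 ≤ h) (h3 : h ≤ 3) :
    EChi_t h = h - 2 ∧ EChi_d M (EChi_s s (EChi_t h)) h = |s| + h - 2 := by
  have e : |h| = h := abs_of_nonneg (by linarith)
  have t2 : EChi_t h = h - 2 := by rw [EChi_t2 (by linarith) (by linarith), e]
  have h4 := EChi_sout hs (EChi_tb h)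
  refine ⟨t2, ?_⟩
  rw [EChi_dp (by linarith), EChi_Deq h1 (by linarith) (by linarith), max_eq_right (by linarith)]
  linarith

theorem EChi_up (hs : 3 ≤ s) (hM : s ≤ M) (h1 : 1 ≤ h) (h3 : h ≤ 3) :
    EChi_x M s h = 2 - h ∧ EChi_y M s h = s := by
  have e : |s| = s := abs_of_nonneg (by linarith)
  obtain ⟨h4, h5⟩ := EChi_cor (M := M) (s := s) (by linarith) (by linarith) h1 h3
  rw [EChi_x, EChi_y, h5, EChi_shi hs (EChi_tb h)]
  exact ⟨by linarith only [e, h4], by linarith only [e, h4]⟩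

theorem EChi_vm (hs : s ≤ -3) (hM : -M ≤ s) (h1 : 1 ≤ h) (h3 : h ≤ 3) :
    EChi_x M s h = s ∧ EChi_y M s h = h - 2 := by
  have e : |s| = -s := abs_of_nonpos (by linarith)
  obtain ⟨h4, h5⟩ := EChi_cor (M := M) (s := s) (by linarith) (by linarith) h1 h3
  rw [EChi_x, EChi_y, h5, EChi_slo hs (EChi_tb h)]
  exact ⟨by linarith only [e, h4], by linarith only [e, h4]⟩

theorem EChi_mid (hM : 1 ≤ M) (hs : 3 ≤ |s|) (h1 : |h| ≤ 1) :
    |EChi_d M (EChi_s s (EChi_t h)) h| ≤ |s| - 1 ∧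
      (h < 1 → 3 < |s| → EChi_d M (EChi_s s (EChi_t h)) h < |s| - 1) := by
  have h2 := EChi_sout hs (EChi_tb h)
  have h3 := EChi_t1 h1
  refine ⟨?_, fun k l => ?_⟩
  · rw [EChi_da hM]
    exact EChi_Dle.trans (max_le (by linarith) (by linarith))
  rcases le_total 0 h with m | m
  · rw [EChi_dp m]
    exact EChi_Dle.trans_lt (max_lt (by linarith) (by linarith))
  · have h4 := EChi_dd (σ := EChi_s s (EChi_t h)) hM m
    rw [EChi_dp le_rfl, EChi_D0] at h4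
    linarith

theorem EChi_cp (hs : 3 ≤ s) (hM : 2 * s ≤ M) (h1 : |h| ≤ 1) :
    EChi_x M s h + EChi_y M s h = s + 1 ∧ 1 ≤ EChi_x M s h ∧ (h < 1 → 3 < s → 1 < EChi_x M s h) ∧
      (1 / 2 ≤ h → EChi_x M s h ≤ 3) := by
  have e : |s| = s := abs_of_nonneg (by linarith)
  obtain ⟨h2, h3⟩ := EChi_mid (M := M) (s := s) (by linarith) (by linarith) h1
  have h4 := EChi_shi hs (EChi_tb h)
  have h5 := EChi_t1 h1
  have h6 := EChi_sout (s := s) (by linarith) (EChi_tb h)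
  rw [EChi_x, EChi_y]
  refine ⟨by linarith only [h4, h5], by linarith only [e, h2, h4, h5, le_abs_self (EChi_d M (EChi_s s (EChi_t h)) h)],
    fun k l => by linarith only [e, h4, h5, h3, k, l, h3 k (by linarith)], fun k => ?_⟩
  have h7 : s - 5 ≤ EChi_d M (EChi_s s (EChi_t h)) h := by
    rw [EChi_dp (by linarith)]
    exact le_min (by linarith only [hM, k, hs, mul_nonneg_of_nonpos_of_nonpos (Mathlib.Tactic.Linarith.sub_nonpos_of_le hs) (Mathlib.Tactic.Linarith.sub_nonpos_of_le k), mul_nonneg_of_nonpos_of_nonpos (Mathlib.Tactic.Linarith.sub_nonpos_of_le hM) (Mathlib.Tactic.Linarith.sub_nonpos_of_le k)]) (le_max_of_le_right (by linarith only [e, h5, h6, k]))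
  linarith only [h4, h5, h7]

theorem EChi_cm (hM : 1 ≤ M) (hs : s < -3) (h1 : |h| < 1) :
    EChi_x M s h + EChi_y M s h = s - 1 ∧ EChi_y M s h < -1 := by
  have e : |s| = -s := abs_of_nonpos (by linarith)
  obtain ⟨-, h3⟩ := EChi_mid (s := s) hM (by linarith) h1.le
  have h4 := EChi_slo hs.le (EChi_tb h)
  have h5 := EChi_t1 h1.le
  rw [EChi_x, EChi_y]
  exact ⟨by linarith only [h4, h5], by linarith only [e, h4, h5, h3, h1, hs, h3 (abs_lt.1 h1).2 (by linarith)]⟩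

theorem EChi_wp (hM : 2 ≤ M) (hs : |s| ≤ M) (h3 : 3 < h) (h4 : h < 4) :
    EChi_x M s h < -1 ∧ 1 < EChi_y M s h ∧ 4 < EChi_y M s h - EChi_x M s h ∧
      EChi_x M s h + EChi_y M s h ≤ max (s - 1) 2 ∧
      min (s + 1) (-2) ≤ EChi_x M s h + EChi_y M s h ∧
      EChi_y M s h ≤ max (s + 1) 4 ∧ min (s - 1) (-4) ≤ EChi_x M s h := by
  have t3 : EChi_t h = 1 := EChi_t3 (le_abs.2 (Or.inl h3.le))
  have t1 : (-1 : ℝ) ≤ 1 ∧ (1 : ℝ) ≤ 1 := ⟨by norm_num, le_rfl⟩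
  have m1 := le_max_left (s - 1) 2
  have m2 := le_max_right (s - 1) 2
  have m3 := min_le_left (s + 1) (-2)
  have m4 := min_le_right (s + 1) (-2)
  have m5 := le_max_left (s + 1) 4
  have m6 := le_max_right (s + 1) 4
  have m7 := min_le_left (s - 1) (-4)
  have m8 := min_le_right (s - 1) (-4)
  rw [EChi_x, EChi_y, t3, EChi_dp (by linarith)]
  have key : EChi_s s 1 = s - 1 ∧ 3 ≤ s ∨ EChi_s s 1 = s + 1 ∧ s ≤ -3 ∨ |EChi_s s 1| ≤ 2 := by
    rcases le_total |s| 3 with k | k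
    · exact .inr (.inr (by linarith [EChi_smid k t1]))
    rcases le_abs'.1 k with k | k
    · exact .inr (.inl ⟨EChi_slo k t1, k⟩)
    · exact .inl ⟨EChi_shi k t1, k⟩
  obtain ⟨s1, s2⟩ := abs_le.1 hs
  generalize EChi_s s 1 = σ at key ⊢
  have hσ : |σ| - 2 ≤ M := by
    rcases abs_cases σ with l | l <;> rcases key with k | k | k <;> linarith only [h3, h4, s2, l, k, hM, s1]
  rw [EChi_Deq (by linarith) hM hσ]
  rcases max_cases (h + 1) (|σ| + 2 * h - 4) with ⟨e, l⟩ | ⟨e, l⟩ <;> rw [e] <;>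
    rcases abs_cases σ with ⟨n, n'⟩ | ⟨n, n'⟩ <;> rcases key with ⟨k, k'⟩ | ⟨k, k'⟩ | k <;>
    exact ⟨by linarith, by linarith, by linarith, by linarith, by linarith, by linarith,
      by linarith⟩

theorem EChi_tpD {E : Type} [NormedAddCommGroup E] [NormedSpace ℝ E] {f g : E → ℝ} (hf : TP f)
    (hg : TP g) : TP fun x => EChi_D M (f x) (g x) :=
  (hg.const_mul M).min ((hg.add (TP.const 1)).max ((hf.abs.add (hg.const_mul 2)).sub (TP.const 4)))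

theorem EChi_tpd {E : Type} [NormedAddCommGroup E] [NormedSpace ℝ E] {f g : E → ℝ} (hf : TP f)
    (hg : TP g) : TP fun x => EChi_d M (f x) (g x) :=
  (EChi_tpD hf (hg.max (TP.const 0))).sub (EChi_tpD hf (hg.neg.max (TP.const 0)))

theorem EChi_seg (hM : 3 ≤ M) {u v : ℝ} (e : u + v = 4) (hu : 1 ≤ u) (hv : 1 ≤ v) :
    ∃ h, |h| ≤ 1 ∧ EChi_x M 3 h = u ∧ EChi_y M 3 h = v := by
  have e4 : |(4 : ℝ)| = 4 := abs_of_pos (by norm_num)
  have h1 : EChi_d M 4 1 = 2 := by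
    rw [EChi_dp zero_le_one, EChi_Deq le_rfl (by linarith) (by linarith), e4]
    norm_num
  obtain ⟨h, ⟨h2, h3⟩, h4⟩ := intermediate_value_Icc (by norm_num : (-1 : ℝ) ≤ 1)
    (EChi_tpd (M := M) (TP.const (4 : ℝ)) TP.id').continuous.continuousOn
    (show v - u ∈ Icc (EChi_d M 4 (-1)) (EChi_d M 4 1) by
      rw [EChi_dn, h1]
      exact ⟨by linarith, by linarith⟩)
  have h5 : |h| ≤ 1 := abs_le.2 ⟨h2, h3⟩
  have h6 : EChi_s 3 (EChi_t h) = 4 := by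
    rw [EChi_shi le_rfl (EChi_tb h), EChi_t1 h5]
    norm_num
  change EChi_d M 4 h = v - u at h4
  refine ⟨h, h5, ?_⟩
  rw [EChi_x, EChi_y, h6, h4]
  exact ⟨by linarith only [e], by linarith only [e]⟩

theorem EChi_lh (hM : 1 ≤ M) :
    LH fun q : Rn 3 => (![EChi_x M (q 0) (q 2), EChi_y M (q 0) (q 2), q 1] : Rn 3) := by
  have c : ∀ i, TP fun q : Rn 3 => q i := fun i => TP.id'.apply i
  have ht : TP fun q : Rn 3 => EChi_t (q 2) := ((c 2).abs.sub (TP.const 2)).clamp (TP.const 1)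
  have h1 := lh_vert (n := 3) 0 (f := fun q => EChi_s (q 0) (EChi_t (q 2)))
    (((c 0).sub (((c 0).div_const 3).clamp (ht.max (TP.const 0)))).add
      ((c 0).clamp (ht.neg.max (TP.const 0)))) (c := 2 / 3) (by norm_num) fun x a b hab => by
    simpa using EChi_ss hab
  have h2 := lh_vert (n := 3) 2 (f := fun q => EChi_d M (q 0) (q 2)) (EChi_tpd (c 0) (c 2))
    one_pos fun x a b hab => by simpa using EChi_dd hM hab
  have h3 : LH fun q : Rn 3 => (![(q 0 - q 2) / 2, (q 0 + q 2) / 2, q 1] : Rn 3) := by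
    refine pa2_of_inv (g := fun q : Rn 3 => (![q 0 + q 1, q 2, q 1 - q 0] : Rn 3))
      (TP.pi fun i => ?_) (TP.pi fun i => ?_) (fun q => funext fun i => ?_)
      fun q => funext fun i => ?_
    · fin_cases i
      exacts [((c 0).sub (c 2)).div_const 2, ((c 0).add (c 2)).div_const 2, c 1]
    · fin_cases i
      exacts [(c 0).add (c 1), c 2, (c 1).sub (c 0)]
    · fin_cases i <;> simp <;> ring
    · fin_cases i <;> simp <;> ring
  exact (h3.comp h2).comp h1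

end

theorem exists_chi {K : ℝ} (hK : 5 ≤ K) : ∃ ξ, Chi K ξ := by
  have hM : (1 : ℝ) ≤ 2 * K + 10 := by linarith
  refine ⟨_, EChi_lh hM, fun _ => rfl, fun q => ?_, fun q h1 h2 h3 h4 => ?_,
    fun q h1 h2 h3 h4 => ?_, fun q h1 h2 h3 h4 => ?_, fun q h1 h2 h3 h4 => ?_,
    fun q h1 h2 h3 => ?_, fun x h1 h2 h3 => ?_, fun q h1 h2 h3 => ?_, fun q h1 h2 h3 => ?_,
    fun q h1 h2 h3 => ?_⟩
  · simp only [oc, mem_ofPred_eq, sub_zero]
    exact EChi_oct (by linarith)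
  · exact EChi_up h1 (by linarith) h3 h4
  · have h := EChi_up (M := 2 * K + 10) (h := -q 2) h1 (by linarith) (by linarith) (by linarith)
    rw [EChi_xn, EChi_yn, sub_neg_eq_add] at h
    exact h.symm
  · exact EChi_vm h2 (by linarith) h3 h4
  · have h := EChi_vm (M := 2 * K + 10) (h := -q 2) h2 (by linarith) (by linarith) (by linarith)
    rw [EChi_xn, EChi_yn] at h
    exact ⟨h.2.trans (by ring), h.1⟩
  · obtain ⟨a1, a2, a3, a4⟩ := EChi_cp (M := 2 * K + 10) h1 (by linarith) h3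
    obtain ⟨-, b2, b3, b4⟩ := EChi_cp (M := 2 * K + 10) (h := -q 2) h1 (by linarith)
      (by rwa [abs_neg])
    rw [EChi_xn] at b2 b3 b4
    exact ⟨a1, a2, b2, a3, fun k => b3 (by linarith), a4, fun k => b4 (by linarith only [k])⟩
  · obtain ⟨h, h4, h5, h6⟩ := EChi_seg (M := 2 * K + 10) (by linarith) h1 h2 h3
    refine ⟨![3, x 2, h], funext fun i => ?_, rfl, h4⟩
    fin_cases i
    exacts [h5, h6, rfl]
  · obtain ⟨a1, a2⟩ := EChi_cm hM h2 h3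
    obtain ⟨-, b2⟩ := EChi_cm (h := -q 2) hM h2 (by rwa [abs_neg])
    rw [EChi_yn] at b2
    exact ⟨a1, b2, a2⟩
  · exact EChi_wp (by linarith) (by linarith) h2 h3
  · have h := EChi_wp (M := 2 * K + 10) (s := q 0) (h := -q 2) (by linarith) (by linarith)
      (by linarith) (by linarith)
    rw [EChi_xn, EChi_yn, add_comm (EChi_y _ _ _)] at h
    exact h

end BEp
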