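import Pool.Agent.Work.MP_f0515e_an.D3.EML

-- merged part: Pool.Agent.Work.MP_f0515e_an.D3.EBc2
section
-- merged part: Pool.Agent.Work.MP_f0515e_an.D3.ESd
section
/-! Discs inside a disc. Pull everything back to the plane by a left inverse of the parametrisation (`tp_linv`, `PCel.image`,
`PCel.ball2`, `Crc.image`) and use `crc_ball`, `Ball.mono`, `Ball.side`, `Ball.uniq`, `Ball.interior_eq`, `Ball.conn_out`.
It pays to prove one lemma first: for `PDsc F J` there are `g`, `k` (TP) with `BijOn g (closedBall 0 1) F`, `k ∘ g = id` there, `g '' sphere = J`,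
and `PDsc E c`, `E ⊆ F` gives `Ball (k '' E) (k '' c)`.
`sd_void`: `k '' Q` is open in the plane (it lies in the open unit ball), closed in the complement of `k '' E`, which is connected and unbounded.
`ethick`: `E'` from `sd_ex`; `E' \ J' ⊆ E \ c` (`sd_mono`); a point of `E' \ J'` in `N` has a connected `T` in `F \ J'` meeting `c`, `sd_side` puts `T` into
`E' \ J'`, absurd. For the last clause apply `sd_void` to `Q = ((E \ c) \ E') ∩ U`. About 300 lines. -/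

open Set Metric Filter Topology Function BEv
open scoped NNReal

noncomputable section
namespace BEp

variable {n m : ℕ}

variable {F J E c E' c' T : Set (Rn n)}

/-- A chart of the disc `F`. -/
structure ESdC (F J : Set (Rn n)) (g : Rn 2 → Rn n) (k : Rn n → Rn 2) : Prop where
  tg : TP g
  tk : TP k
  ig : InjOn g (closedBall 0 1)
  ik : InjOn k F
  mk' : ∀ y ∈ F, k y ∈ closedBall (0 : Rn 2) 1
  gk : ∀ y ∈ F, g (k y) = y
  kg : ∀ x ∈ closedBall (0 : Rn 2) 1, g x ∈ F ∧ k (g x) = x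
  sp : ∀ y ∈ F, (k y ∈ sphere (0 : Rn 2) 1 ↔ y ∈ J)

theorem ESd_ch (h : PDsc F J) : ∃ g k, ESdC F J g k := by
  obtain ⟨g, h1, h2, rfl, rfl⟩ := h
  obtain ⟨k, k1, k2⟩ := tp_linv (Poly.closedBall 0 1) h1 h2
  refine ⟨g, k, h1, k1, h2, ?_, ?_, ?_, fun x hx => ⟨mem_image_of_mem _ hx, k2 x hx⟩, ?_⟩
  · rintro _ ⟨x, hx, rfl⟩ _ ⟨y, hy, rfl⟩ e
    rw [k2 x hx, k2 y hy] at e
    rw [e]
  · rintro _ ⟨x, hx, rfl⟩
    rwa [k2 x hx]
  · rintro _ ⟨x, hx, rfl⟩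
    rw [k2 x hx]
  · rintro _ ⟨x, hx, rfl⟩
    rw [k2 x hx, h2.mem_image_iff sphere_subset_closedBall hx]

theorem ESdC.ball {g : Rn 2 → Rn n} {k : Rn n → Rn 2} (h : ESdC F J g k) (hE : PDsc E c)
    (hs : E ⊆ F) : Ball (k '' E) (k '' c) :=
  (hE.image h.tk (h.ik.mono hs)).ball2

theorem ESdC.mem {g : Rn 2 → Rn n} {k : Rn n → Rn 2} (h : ESdC F J g k) {A : Set (Rn n)}
    (hA : A ⊆ F) {y : Rn n} (hy : y ∈ F) : k y ∈ k '' A ↔ y ∈ A :=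
  h.ik.mem_image_iff hA hy

theorem ESdC.int {g : Rn 2 → Rn n} {k : Rn n → Rn 2} (h : ESdC F J g k) (hE : PDsc E c)
    (hs : E ⊆ F) {y : Rn n} (hy : y ∈ F) : k y ∈ interior (k '' E) ↔ y ∈ E \ c := by
  rw [(h.ball hE hs).interior_eq, Set.mem_sdiff, Set.mem_sdiff, h.mem hs hy, h.mem (hE.sub.trans hs) hy]

theorem sd_ex (h : PDsc F J) (hc : Crc c) (hs : c ⊆ F) :
    ∃ E, PDsc E c ∧ E ⊆ F ∧ (Disjoint c J → Disjoint E J) := by
  obtain ⟨g, k, hk⟩ := ESd_ch h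
  obtain ⟨D, hD⟩ := crc_ball (hc.image hk.tk (hk.ik.mono hs))
  have h1 : D ⊆ closedBall 0 1 := hD.sub_convex one_le_two (convex_closedBall 0 1) (by
    rintro _ ⟨y, hy, rfl⟩
    exact hk.mk' y (hs hy))
  have h2 : g '' (k '' c) = c := by
    rw [image_image]
    exact (image_congr fun y hy => hk.gk y (hs hy)).trans (image_id' c)
  refine ⟨g '' D, h2 ▸ hD.cel.image hk.tg (hk.ig.mono h1), ?_, fun hd => ?_⟩
  · rintro _ ⟨x, hx, rfl⟩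
    exact (hk.kg x (h1 hx)).1
  · have h3 : D ⊆ Metric.ball 0 1 := hD.sub_convex one_le_two (convex_ball 0 1) (by
      rintro _ ⟨y, hy, rfl⟩
      rw [← closedBall_sdiff_sphere]
      exact ⟨hk.mk' y (hs hy), fun h4 => disjoint_left.1 hd hy ((hk.sp y (hs hy)).1 h4)⟩)
    refine disjoint_left.2 ?_
    rintro _ ⟨x, hx, rfl⟩ hJ
    have h4 := (hk.sp _ (hk.kg x (h1 hx)).1).2 hJ
    rw [(hk.kg x (h1 hx)).2] at h4
    exact (mem_ball.1 (h3 hx)).ne (mem_sphere.1 h4)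

theorem sd_side (h : PDsc F J) (hE : PDsc E c) (hs : E ⊆ F) (hT : IsPreconnected T) (ht : T ⊆ F)
    (hd : Disjoint T c) : T ⊆ E \ c ∨ Disjoint T E := by
  obtain ⟨g, k, hk⟩ := ESd_ch h
  have hc : c ⊆ F := hE.sub.trans hs
  have h1 : Disjoint (k '' T) (k '' c) := disjoint_left.2 (by
    rintro _ ⟨y, hy, rfl⟩ h2
    exact disjoint_left.1 hd hy ((hk.mem hc (ht hy)).1 h2))
  rcases (hk.ball hE hs).side (hT.image k hk.tk.continuous.continuousOn) h1 with h2 | h2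
  · refine Or.inl fun y hy => ?_
    have h3 := h2 (mem_image_of_mem k hy)
    exact ⟨(hk.mem hs (ht hy)).1 h3.1, fun h4 => h3.2 (mem_image_of_mem k h4)⟩
  · exact Or.inr (disjoint_left.2 fun y hy h3 =>
      disjoint_left.1 h2 (mem_image_of_mem k hy) (mem_image_of_mem k h3))

theorem sd_mono (h : PDsc F J) (hE : PDsc E c) (hs : E ⊆ F) (hE' : PDsc E' c') (hs' : E' ⊆ F)
    (hc : c' ⊆ E) : E' ⊆ E ∧ E' \ c' ⊆ E \ c := by
  obtain ⟨g, k, hk⟩ := ESd_ch h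
  have h1 : k '' E' ⊆ k '' E := (hk.ball hE hs).mono le_rfl (hk.ball hE' hs') (image_mono hc)
  refine ⟨fun y hy => (hk.mem hs (hs' hy)).1 (h1 (mem_image_of_mem k hy)), fun y hy => ?_⟩
  exact (hk.int hE hs (hs' hy.1)).1 (interior_mono h1 ((hk.int hE' hs' (hs' hy.1)).2 hy))

theorem sd_uniq (h : PDsc F J) (hE : PDsc E c) (hs : E ⊆ F) (hE' : PDsc E' c) (hs' : E' ⊆ F) :
    E = E' := by
  exact (sd_mono h hE' hs' hE hs hE'.sub).1.antisymm (sd_mono h hE hs hE' hs' hE.sub).1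

/-- The boundary of a disc is determined by the disc. -/
theorem sd_bd (hE : PDsc E c) (hE' : PDsc E c') : c = c' := by
  have h1 := (sd_mono hE hE subset_rfl hE' subset_rfl hE'.sub).2
  have h2 := (sd_mono hE hE' subset_rfl hE subset_rfl hE.sub).2
  refine Subset.antisymm (fun x hx => ?_) fun x hx => ?_
  · by_contra h3
    exact (h1 ⟨hE.sub hx, h3⟩).2 hx
  · by_contra h3
    exact (h2 ⟨hE'.sub hx, h3⟩).2 hx

/-- An open subdisc is relatively open and misses the boundary. -/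
theorem sd_open (h : PDsc F J) (hE : PDsc E c) (hs : E ⊆ F) :
    IsClosed (F \ (E \ c)) ∧ Disjoint (E \ c) J := by
  refine ⟨?_, disjoint_left.2 fun x hx =>
    ((sd_mono h h subset_rfl hE hs (hE.sub.trans hs)).2 hx).2⟩
  obtain ⟨g, k, hk⟩ := ESd_ch h
  have e : F \ (E \ c) = F ∩ k ⁻¹' (interior (k '' E))ᶜ := by
    ext y
    exact and_congr_right fun hy => not_congr (hk.int hE hs hy).symm
  rw [e]
  exact h.cpt.isClosed.inter (isOpen_interior.isClosed_compl.preimage hk.tk.continuous)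

theorem sd_void (h : PDsc F J) (hE : PDsc E c) (hs : E ⊆ F) {Q : Set (Rn n)} (hQ : Q ⊆ F \ J)
    (hd : Disjoint Q E) (ho : IsClosed (F \ Q)) (hc : closure Q ⊆ Q ∪ c) : Q = ∅ := by
  obtain ⟨g, k, hk⟩ := ESd_ch h
  have hB := hk.ball hE hs
  have hQF : Q ⊆ F := hQ.trans sdiff_subset
  have e : k '' Q = Metric.ball 0 1 \ k '' (F \ Q) := by
    ext x
    constructor
    · rintro ⟨y, hy, rfl⟩
      refine ⟨?_, fun h1 => ((hk.mem sdiff_subset (hQF hy)).1 h1).2 hy⟩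
      rw [← closedBall_sdiff_sphere]
      exact ⟨hk.mk' y (hQF hy), fun h1 => (hQ hy).2 ((hk.sp y (hQF hy)).1 h1)⟩
    · rintro ⟨h1, h2⟩
      obtain ⟨h3, h4⟩ := hk.kg x (ball_subset_closedBall h1)
      refine ⟨g x, ?_, h4⟩
      by_contra h5
      exact h2 ⟨g x, ⟨h3, h5⟩, h4⟩
  have o : IsOpen (k '' Q) := by
    rw [e]
    exact isOpen_ball.sdiff
      ((h.cpt.of_isClosed_subset ho sdiff_subset).image hk.tk.continuous).isClosed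
  have hcl : closure (k '' Q) ⊆ k '' closure Q :=
    closure_minimal (image_mono subset_closure) ((h.cpt.of_isClosed_subset isClosed_closure
      (closure_minimal hQF h.cpt.isClosed)).image hk.tk.continuous).isClosed
  by_contra hne
  obtain ⟨y, hy⟩ := nonempty_iff_ne_empty.2 hne
  have h1 : (k '' E)ᶜ ⊆ k '' Q := by
    refine (hB.conn_out le_rfl).subset_of_closure_inter_subset o
      ⟨k y, fun h2 => disjoint_left.1 hd hy ((hk.mem hs (hQF hy)).1 h2), mem_image_of_mem k hy⟩ ?_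
    rintro x ⟨h2, h3⟩
    obtain ⟨z, hz, rfl⟩ := hcl h2
    rcases hc hz with h4 | h4
    · exact mem_image_of_mem k h4
    · exact absurd (mem_image_of_mem k (hE.sub h4)) h3
  refine pball_unb one_le_two hB.poly.1 ((isBounded_ball (x := 0) (r := 1)).subset (h1.trans ?_))
  rw [e]
  exact sdiff_subset

/-- A chord cuts off a smaller disc. -/
theorem sd_chord (hE : PDsc E c) {A B : Set (Rn n)} {a b : Rn n} (hA : Arc A a b) (hB : Arc B a b)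
    (sA : A ⊆ E) (iA : A ∩ c = {a, b}) (sB : B ⊆ c) :
    ∃ E', PDsc E' (A ∪ B) ∧ E' ⊆ E ∧ E' ≠ E := by
  have h1 : A ∩ B = {a, b} := by
    refine Subset.antisymm (iA ▸ inter_subset_inter_right A sB) ?_
    rintro x (rfl | rfl)
    · exact ⟨hA.tarc.left, hB.tarc.left⟩
    · exact ⟨hA.tarc.right, hB.tarc.right⟩
  obtain ⟨E', h2, h3, -⟩ := sd_ex hE (crc_glue hA hB h1) (union_subset sA (sB.trans hE.sub))
  refine ⟨E', h2, h3, fun h4 => ?_⟩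
  rw [h4] at h2
  have h5 := sd_bd h2 hE
  obtain ⟨x, hx1, hx2⟩ := hA.tarc.open_ne
  exact hx2 (iA ▸ ⟨hx1, h5 ▸ Or.inl hx1⟩)

/-- The part of a thin disc `E` inside the open set `U` is a disc bounded by the inner curve `J'`. -/
theorem ethick (h : PDsc F J) (hE : PDsc E c) (hs : E ⊆ F \ J) {J' N U : Set (Rn n)} (hJ : Crc J')
    (h1 : J' ⊆ E) (hU : IsOpen U) (h2 : E ⊆ N ∪ U) (h3 : Disjoint c U)
    (h4 : ∀ x ∈ E, x ∈ N → x ∈ closure U → x ∈ J')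
    (h5 : ∀ x ∈ E, x ∈ N → x ∉ J' → ∃ T, IsPreconnected T ∧ x ∈ T ∧ T ⊆ F \ J' ∧ (T ∩ c).Nonempty) :
    ∃ E', PDsc E' J' ∧ E' ⊆ E ∧ Disjoint (E' \ J') N ∧ E ∩ closure U ⊆ E' := by
  have hEF : E ⊆ F := hs.trans sdiff_subset
  obtain ⟨E', k1, k2, -⟩ := sd_ex hE hJ h1
  have k3 : E' ⊆ F := k2.trans hEF
  have k4 := (sd_mono hE hE subset_rfl k1 k2 h1).2
  refine ⟨E', k1, k2, disjoint_left.2 fun x hx hN => ?_, ?_⟩
  · obtain ⟨T, t1, t2, t3, z, t4, t5⟩ := h5 x (k2 hx.1) hN hx.2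
    rcases sd_side h k1 k3 t1 (t3.trans sdiff_subset)
      (disjoint_left.2 fun y hy => (t3 hy).2) with k5 | k5
    · exact (k4 (k5 t4)).2 t5
    · exact disjoint_left.1 k5 t2 hx.1
  · have e : F \ (((E \ c) \ E') ∩ U) = (F \ (E \ c) ∪ E') ∪ (F ∩ Uᶜ) := by
      ext x
      have := @k3 x
      simp only [Set.mem_sdiff, mem_inter_iff, mem_union, mem_compl_iff]
      (clear * - this; tauto)
    have k5 : ((E \ c) \ E') ∩ U = ∅ := by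
      refine sd_void h k1 k3 (fun x hx => hs hx.1.1.1) (disjoint_left.2 fun x hx => hx.1.2) ?_ ?_
      · rw [e]
        exact ((sd_open h hE hEF).1.union k1.cpt.isClosed).union
          (h.cpt.isClosed.inter hU.isClosed_compl)
      · intro x hx
        have x1 : x ∈ E := closure_minimal (fun y hy => hy.1.1.1) hE.cpt.isClosed hx
        have x2 : x ∈ closure U := closure_mono inter_subset_right hx
        have x3 : x ∈ F \ (E' \ J') :=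
          closure_minimal (t := F \ (E' \ J'))
            (fun y hy => ⟨hEF hy.1.1.1, fun k6 => hy.1.2 k6.1⟩) (sd_open h k1 k3).1 hx
        rcases h2 x1 with x4 | x4
        · exact Or.inr (h4 x x1 x4 x2)
        · by_cases x5 : x ∈ E'
          · exact Or.inr (by_contra fun x6 => x3.2 ⟨x5, x6⟩)
          · exact Or.inl ⟨⟨⟨x1, fun x6 => disjoint_left.1 h3 x6 x4⟩, x5⟩, x4⟩
    rintro x ⟨x1, x2⟩
    rcases h2 x1 with x4 | x4
    · exact k1.sub (h4 x x1 x4 x2)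
    · by_contra x5
      have x6 : x ∈ ((E \ c) \ E') ∩ U := ⟨⟨⟨x1, fun x6 => disjoint_left.1 h3 x6 x4⟩, x5⟩, x4⟩
      rw [k5] at x6
      exact x6

end BEp
end
end

-- merged part: Pool.Agent.Work.MP_f0515e_an.D3.EMin
section
/-! Minimal discs of two families of curves on a disc. Write `U = ⋃₀ 𝒰`, `V = ⋃₀ 𝒱`.
Candidates: discs `E ⊆ F \ J` with boundary a circle in `U`, a circle in `V`, or `α ∪ β` (arcs in `U`, `V` with common ends, `α ∩ β` = ends). Finitely many (`crc_finite` for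
`U ∪ V`, `PC 1`, `sd_uniq`). Nonempty: a circle in `U` misses `J` (`EMin_off`: a point of `J ∩ U` is an end of an arc of `𝒰`, link of one point); for two arcs with two common points take
`arc_first` along a subarc of `K` from a common point (common points are isolated by the chart) and the subarc of `K'`. Take a minimal candidate `E` with boundary `c`.
(1) `E \ c` misses `U ∪ V`: let `z ∈ K ∈ 𝒰`, `z ∈ E \ c`. If `K ⊆ E` then `K` is a circle (ends of arcs lie in `J`), its disc is a smaller candidate (`sd_mono`, `sd_bd`). Otherwise two arcs of `K` from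
`z` to points off `E`, disjoint up to that point, and `arc_first` give a chord `A ⊆ K` of `E` with ends `a ≠ b` in `c`. An end in the relative interior of the `U` part of `c` gives a triod in `K`
(links: `lk_piece`, `tarc_lk`, `tcrc_lk`), so both ends lie in the `V` part; the subarc `B` of the `V` part between them and `sd_chord` give a smaller candidate.
(2) a common point `z` of `U` and `V` in the relative interior of the `U` part of `c`: the open chart disc is relatively open in `F` (`sd_open`), `z` is in the closure of `E \ c`, near `z` the curve `c` is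
`k '' {p 0 = 0}`, so an open half disc of a smaller chart square lies in `E \ c` (`sd_side`) and meets `V`. Symmetric in `U`, `V`. About 450 lines. -/

open Set Metric Filter Topology Function BEv
open scoped NNReal

noncomputable section
namespace BEp

variable {n m : ℕ}

/-- A finite family of disjoint circles and proper arcs on the disc `F`. -/
structure EMin_Fam (F J : Set (Rn n)) (𝒰 : Set (Set (Rn n))) : Prop where
  fin : 𝒰.Finite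
  dis : 𝒰.PairwiseDisjoint id
  pcs : ∀ K ∈ 𝒰, K ⊆ F ∧ ((Crc K ∧ Disjoint K J) ∨ ∃ a b, Arc K a b ∧ K ∩ J = {a, b})

/-- The sets `U` and `V` cross at their common points. -/
def EMin_X (F J U V : Set (Rn n)) : Prop :=
  ∀ z ∈ U ∩ V, ∃ (k : Rn 2 → Rn n) (i j : Fin 2), i ≠ j ∧ TP k ∧ InjOn k (closedBall 0 1) ∧
    k '' closedBall 0 1 ⊆ F \ J ∧ k 0 = z ∧ ∀ p ∈ closedBall (0 : Rn 2) 1,
      (k p ∈ U ↔ p i = 0) ∧ (k p ∈ V ↔ p j = 0)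

/-- Candidates: discs bounded by a circle in `U`, a circle in `V`, or two arcs. -/
def EMin_C (F J U V : Set (Rn n)) : Set (Set (Rn n)) :=
  {E | E ⊆ F \ J ∧ ∃ c, PDsc E c ∧ (c ⊆ U ∨ c ⊆ V ∨ ∃ α β p q, Arc α p q ∧ Arc β p q ∧
    α ∩ β = {p, q} ∧ α ⊆ U ∧ β ⊆ V ∧ c = α ∪ β)}

section Aux
variable {F J U V E c X A : Set (Rn n)} {𝒰 𝒱 : Set (Set (Rn n))} {x y z a b : Rn n}

theorem EMin_X.symm (h : EMin_X F J U V) : EMin_X F J V U := fun z hz =>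
  let ⟨k, i, j, h1, h2, h3, h4, h5, h6⟩ := h z ⟨hz.2, hz.1⟩
  ⟨k, j, i, h1.symm, h2, h3, h4, h5, fun p hp => (h6 p hp).symm⟩

theorem EMin_C_symm : EMin_C F J U V ⊆ EMin_C F J V U := by
  rintro E ⟨h1, c, h2, h | h | ⟨α, β, p, q, k1, k2, k3, k4, k5, k6⟩⟩
  · exact ⟨h1, c, h2, .inr (.inl h)⟩
  · exact ⟨h1, c, h2, .inl h⟩
  · exact ⟨h1, c, h2, .inr (.inr ⟨β, α, p, q, k2, k1, inter_comm α β ▸ k3, k5, k4,
      union_comm α β ▸ k6⟩)⟩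

theorem EMin_Fam.sub (h : EMin_Fam F J 𝒰) : ⋃₀ 𝒰 ⊆ F :=
  sUnion_subset fun K hK => (h.pcs K hK).1

theorem EMin_Fam.poly1 (h : EMin_Fam F J 𝒰) {K : Set (Rn n)} (hK : K ∈ 𝒰) : Poly K ∧ PC 1 K := by
  rcases (h.pcs K hK).2 with k | ⟨a, b, k, -⟩
  exacts [⟨k.1.poly, k.1.pc⟩, ⟨k.poly, k.pc⟩]

theorem EMin_Fam.poly (h : EMin_Fam F J 𝒰) : Poly (⋃₀ 𝒰) ∧ PC 1 (⋃₀ 𝒰) := by
  rw [sUnion_eq_biUnion]
  exact ⟨Poly.biUnion h.fin fun K hK => (h.poly1 hK).1, PC.biUnion h.fin fun K hK => (h.poly1 hK).2⟩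

theorem EMin_germ (hX : Poly X) (hA : Poly A) (hp : PC 1 A) (hs : X ⊆ A) (hx : x ∈ X)
    (h2 : (lk A x).ncard ≤ (lk X x).ncard) : ∀ᶠ y in 𝓝 x, y ∈ A → y ∈ X :=
  POne_germ hA hX hx
    (eq_of_subset_of_ncard_le (lk_mono hs x) h2 (PC.lk_finite hA hp x)).symm.subset

/-- A point of `U` with two branches is off `J` and has no third branch. -/
theorem EMin_Fam.two (h : EMin_Fam F J 𝒰) (hX : Poly X) (hs : X ⊆ ⋃₀ 𝒰) (hx : x ∈ X)
    (h2 : (lk X x).ncard = 2) : x ∉ J ∧ ∀ᶠ y in 𝓝 x, y ∈ ⋃₀ 𝒰 → y ∈ X := by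
  obtain ⟨K, hK, hxK⟩ := hs hx
  have e := lk_piece h.fin (fun C hC => (h.poly1 hC).1.1.isClosed) h.dis hK hxK
  have le : 2 ≤ (lk K x).ncard := by
    rw [← e, ← h2]
    exact ncard_le_ncard (lk_mono hs x) (PC.lk_finite h.poly.1 h.poly.2 x)
  have : x ∉ J ∧ (lk K x).ncard = 2 := by
    rcases (h.pcs K hK).2 with k | ⟨a, b, k, k'⟩
    · exact ⟨disjoint_left.1 k.2 hxK, tcrc_lk k.1.poly k.1.tcrc hxK⟩
    · have l := tarc_lk k.poly k.tarc hxK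
      have : ¬ (x = a ∨ x = b) := fun o => by
        have := l.1 o
        omega
      exact ⟨fun hJ => this (k' ▸ ⟨hxK, hJ⟩ : x ∈ ({a, b} : Set (Rn n))),
        l.2 (fun o => this (.inl o)) fun o => this (.inr o)⟩
  exact ⟨this.1, EMin_germ hX h.poly.1 h.poly.2 hs hx (by rw [e, h2, this.2])⟩

theorem EMin_sub (h : Arc A a b) (hx : x ∈ A) (hy : y ∈ A) (hxy : x ≠ y) :
    ∃ B, Arc B x y ∧ B ⊆ A := by
  obtain ⟨γ, h1, h2, -, -, rfl⟩ := h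
  obtain ⟨s, hs, rfl⟩ := hx
  obtain ⟨t, ht, rfl⟩ := hy
  exact ⟨_, PArc_sub h1 (fun e => hxy (by rw [e])) (h2.mono (uIcc_subset_Icc hs ht)),
    image_mono (uIcc_subset_Icc hs ht)⟩

theorem EMin_half (h : PDsc F J) (hE : PDsc E c) (hs : E ⊆ F) (hA : Arc A y z) (sA : A ⊆ F)
    (hy : y ∈ E \ c) (hz : z ∉ E) : ∃ p A₁, Arc A₁ y p ∧ A₁ ⊆ A ∧ A₁ ⊆ E ∧ A₁ ∩ c = {p} := by
  obtain ⟨p, A₁, h1, h2, h3⟩ := arc_first hA hE.poly'.1.isClosed hy.2 (by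
    by_contra hn
    rcases sd_side h hE hs hA.tarc.conn sA
      (disjoint_iff_inter_eq_empty.2 (not_nonempty_iff_eq_empty.1 hn)) with k | k
    · exact hz (k hA.tarc.right).1
    · exact disjoint_left.1 k hA.tarc.left hy.1)
  have hp : p ∈ c := (h3.symm ▸ mem_singleton p : p ∈ A₁ ∩ c).2
  refine ⟨p, A₁, h1, h2, fun x hx => ?_, h3⟩
  by_cases e : x = p
  · exact e ▸ hE.sub hp
  rcases sd_side h hE hs h1.tarc.symm.conn_half (sdiff_subset.trans (h2.trans sA))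
    (disjoint_left.2 fun w hw hw' => hw.2 (h3 ▸ (⟨hw.1, hw'⟩ : w ∈ A₁ ∩ c))) with k | k
  · exact (k ⟨hx, e⟩).1
  · exact (disjoint_left.1 k ⟨h1.tarc.left, h1.tarc.ne⟩ hy.1).elim

theorem EMin_chord (h : PDsc F J) (hE : PDsc E c) (hs : E ⊆ F) {A' : Set (Rn n)} (hA : Arc A z a)
    (hA' : Arc A' z b) (sA : A ∪ A' ⊆ F) (hi : ∀ x ∈ A ∩ A', x ∈ E → x = z) (hz : z ∈ E \ c)
    (ha : a ∉ E) (hb : b ∉ E) :
    ∃ B p q, Arc B p q ∧ B ⊆ A ∪ A' ∧ B ⊆ E ∧ B ∩ c = {p, q} := by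
  obtain ⟨p, A₁, k1, k2, k3, k4⟩ := EMin_half h hE hs hA (subset_union_left.trans sA) hz ha
  obtain ⟨q, A₂, l1, l2, l3, l4⟩ := EMin_half h hE hs hA' (subset_union_right.trans sA) hz hb
  refine ⟨A₁ ∪ A₂, p, q, arc_glue k1.symm l1 (Subset.antisymm
    (fun x hx => hi x ⟨k2 hx.1, l2 hx.2⟩ (k3 hx.1)) ?_), union_subset_union k2 l2,
    union_subset k3 l3, ?_⟩
  · rintro _ rfl
    exact ⟨k1.tarc.left, l1.tarc.left⟩
  · rw [union_inter_distrib_right, k4, l4]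
    rfl

/-- The end of a chord in `U` is not a two sided point of a part of the boundary in `U`. -/
theorem EMin_end (hU : EMin_Fam F J 𝒰) (hA : Arc A a b) (sA : A ⊆ ⋃₀ 𝒰) (iA : A ∩ c = {a, b})
    (hX : Poly X) (hs : X ⊆ ⋃₀ 𝒰) (hc : X ⊆ c) (hx : a ∈ X) : (lk X a).ncard ≠ 2 := fun h2 => by
  have ha : a ∈ closure (A \ {a, b}) := hA.tarc.cl.symm ▸ hA.tarc.left
  obtain ⟨y, hy, hy'⟩ := ((mem_closure_iff_frequently.1 ha).and_eventually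
    (hU.two hX hs hx h2).2).exists
  exact hy.2 (iA ▸ ⟨hy.1, hc (hy' (sA hy.1))⟩)

/-- The open disc of a minimal candidate misses `U`. -/
theorem EMin_free (h : PDsc F J) (hU : EMin_Fam F J 𝒰) (hE : PDsc E c)
    (hm : Minimal (· ∈ EMin_C F J (⋃₀ 𝒰) V) E) : Disjoint (E \ c) (⋃₀ 𝒰) := by
  obtain ⟨hs, c', hE', hc⟩ := hm.1
  obtain rfl := sd_bd hE hE'
  have hF : E ⊆ F := hs.trans sdiff_subset
  rw [disjoint_left]
  rintro z hz ⟨K, hK, hzK⟩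
  have sK : K ⊆ ⋃₀ 𝒰 := subset_sUnion_of_mem hK
  have key : ¬ ∃ B p q, Arc B p q ∧ B ⊆ K ∧ B ⊆ E ∧ B ∩ c = {p, q} := by
    rintro ⟨B, p, q, h1, h2, h3, h4⟩
    have sB := h2.trans sK
    have hp : p ∈ c := (h4.symm ▸ mem_insert p {q} : p ∈ B ∩ c).2
    have hq : q ∈ c := (h4.symm ▸ mem_insert_of_mem p (mem_singleton q) : q ∈ B ∩ c).2
    have fin : ∀ B', Arc B' p q → B' ⊆ c → B' ⊆ V → False := fun B' k1 k2 k3 => by
      obtain ⟨E', l1, l2, l3⟩ := sd_chord hE h1 k1 h3 h4 k2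
      refine l3 (Subset.antisymm l2 (hm.2 (y := E') ⟨l2.trans hs, _, l1, .inr (.inr
        ⟨B, B', p, q, h1, k1, Subset.antisymm (h4 ▸ inter_subset_inter_right _ k2) ?_, sB, k3,
          rfl⟩)⟩ l2))
      rintro _ (rfl | rfl)
      exacts [⟨h1.tarc.left, k1.tarc.left⟩, ⟨h1.tarc.right, k1.tarc.right⟩]
    rcases hc with hc | hc | ⟨α, β, u, v, k1, k2, -, k4, k5, rfl⟩
    · exact EMin_end hU h1 sB h4 hE.poly' hc subset_rfl hp (tcrc_lk hE.poly' hE.crc.tcrc hp)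
    · obtain ⟨B', B'', l1, -, l2, -⟩ := crc_split hE.crc hp hq h1.tarc.ne
      have : B' ⊆ c := l2 ▸ subset_union_left
      exact fin B' l1 this (this.trans hc)
    · have : ∀ p q, Arc B p q → B ∩ (α ∪ β) = {p, q} → p ∈ α ∪ β → p ∈ β := by
        rintro p q h1 h4 (hp | hp)
        · by_contra hn
          exact EMin_end hU h1 sB h4 k1.poly k4 subset_union_left hp ((tarc_lk k1.poly k1.tarc hp).2
            (fun e => hn (e ▸ k2.tarc.left)) fun e => hn (e ▸ k2.tarc.right))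
        · exact hp
      obtain ⟨B', l1, l2⟩ := EMin_sub k2 (this p q h1 h4 hp)
        (this q p h1.symm (h4.trans (pair_comm p q)) hq) h1.tarc.ne
      exact fin B' l1 (l2.trans subset_union_right) (l2.trans k5)
  obtain ⟨kF, k | ⟨a, b, k, k'⟩⟩ := hU.pcs K hK
  · by_cases e : K ⊆ E
    · obtain ⟨E', l1, l2, -⟩ := sd_ex h k.1 kF
      have l3 := (sd_mono h hE hF l1 l2 e).1
      obtain rfl := Subset.antisymm l3 (hm.2 (y := E') ⟨l3.trans hs, K, l1, .inl sK⟩ l3)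
      exact hz.2 (sd_bd l1 hE ▸ hzK)
    · obtain ⟨y, hy, hy'⟩ := not_subset.1 e
      obtain ⟨A, A', l1, l2, rfl, l4⟩ := crc_split k.1 hzK hy fun o => hy' (o ▸ hz.1)
      exact key (EMin_chord h hE hF l1 l2 kF (fun x hx hx' =>
        (l4 ▸ hx : x ∈ ({z, y} : Set (Rn n))).elim id fun o => (hy' (o ▸ hx')).elim) hz hy' hy')
  · have ha : a ∉ E := fun o => (hs o).2 (k'.symm ▸ mem_insert a {b} : a ∈ K ∩ J).2
    have hb : b ∉ E := fun o =>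
      (hs o).2 (k'.symm ▸ mem_insert_of_mem a (mem_singleton b) : b ∈ K ∩ J).2
    obtain ⟨A, A', l1, l2, rfl, l4⟩ := k.split hzK (fun o => ha (o ▸ hz.1)) fun o => hb (o ▸ hz.1)
    exact key (EMin_chord h hE hF l1.symm l2 kF (fun x hx _ => (l4 ▸ hx : x ∈ ({z} : Set (Rn n))))
      hz ha hb)

/-- A chart image is a neighbourhood in `F`. -/
theorem EMin_nhds (h : PDsc F J) {k : Rn 2 → Rn n} (h1 : TP k) (h2 : InjOn k (closedBall 0 1))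
    (h3 : k '' closedBall 0 1 ⊆ F) {r : ℝ} (hr : 0 < r) :
    ∀ᶠ y in 𝓝 (k 0), y ∈ F → ∃ p ∈ ball (0 : Rn 2) 1, p ∈ ball (0 : Rn 2) r ∧ k p = y := by
  have c1 := (sd_open h ⟨k, h1, h2, rfl, rfl⟩ h3).1
  rw [PCel.diff_eq h2] at c1
  have c2 : IsClosed (k '' (closedBall 0 1 \ ball 0 r)) :=
    (((isCompact_closedBall _ _).diff isOpen_ball).image h1.continuous).isClosed
  have n1 : k 0 ∉ F \ k '' ball 0 1 := fun o => o.2 ⟨0, mem_ball_self one_pos, rfl⟩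
  have n2 : k 0 ∉ k '' (closedBall 0 1 \ ball 0 r) := by
    rintro ⟨p, hp, e⟩
    exact hp.2 (h2 hp.1 (mem_closedBall_self zero_le_one) e ▸ mem_ball_self hr)
  filter_upwards [c1.isOpen_compl.mem_nhds n1, c2.isOpen_compl.mem_nhds n2] with y a1 a2 hy
  obtain ⟨p, hp, rfl⟩ : y ∈ k '' ball 0 1 := by
    by_contra o
    exact a1 ⟨hy, o⟩
  refine ⟨p, hp, ?_, rfl⟩
  by_contra o
  exact a2 ⟨p, ⟨ball_subset_closedBall hp, o⟩, rfl⟩

/-- A two sided point of a part of the boundary in `U` is not in `V`. -/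
theorem EMin_off (h : PDsc F J) (hU : EMin_Fam F J 𝒰) (hx : EMin_X F J (⋃₀ 𝒰) V) (hE : PDsc E c)
    (hs : E ⊆ F) (hd : Disjoint (E \ c) V) (hX : Poly X) (sU : X ⊆ ⋃₀ 𝒰) (sc : X ⊆ c) (hz : z ∈ X)
    (h2 : (lk X z).ncard = 2) : z ∉ V := fun hV => by
  obtain ⟨k, i, j, ij, k1, k2, k3, rfl, k5⟩ := hx z ⟨sU hz, hV⟩
  have k3' := k3.trans sdiff_subset
  have g1 := (hU.two hX sU hz h2).2
  have g2 := EMin_germ hX hE.poly' hE.crc.pc sc hz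
    (by rw [h2, tcrc_lk hE.poly' hE.crc.tcrc (sc hz)])
  obtain ⟨r', hr', g⟩ := Metric.eventually_nhds_iff_ball.1
    (k1.continuous.continuousAt.eventually (g1.and g2))
  obtain ⟨r, hr, r1, r2⟩ : ∃ r > 0, r ≤ 1 ∧ r ≤ r' :=
    ⟨min 1 r', lt_min one_pos hr', min_le_left _ _, min_le_right _ _⟩
  have s1 : ball (0 : Rn 2) r ⊆ closedBall 0 1 :=
    ball_subset_closedBall.trans (closedBall_subset_closedBall r1)
  have e : ∀ p ∈ ball (0 : Rn 2) r, k p ∈ c ↔ p i = 0 := fun p hp => by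
    have := g p (ball_subset_ball r2 hp)
    rw [← (k5 p (s1 hp)).1]
    exact ⟨fun o => sU (this.2 o), fun o => sc (this.1 o)⟩
  have half : ∀ s : ℝ, |s| = 1 → ∀ p ∈ ball (0 : Rn 2) r, 0 < s * p i → k p ∉ E := by
    intro s hs1 p hp hp'
    have cv : Convex ℝ (ball (0 : Rn 2) r ∩ {p | 0 < s * p i}) :=
      (convex_ball _ _).inter (convex_halfSpace_gt
        ⟨fun x y => by simp [mul_add], fun t x => by simp [mul_left_comm]⟩ 0)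
    rcases sd_side h hE hs (cv.isPreconnected.image k k1.continuous.continuousOn)
      ((image_mono (inter_subset_left.trans s1)).trans k3') (disjoint_left.2 (by
        rintro _ ⟨q, hq, rfl⟩ o
        have := hq.2
        simp [(e q hq.1).1 o] at this)) with o | o
    · have m : (Pi.single i (s * (r / 2)) : Rn 2) ∈ ball (0 : Rn 2) r := by
        rw [mem_ball_zero_iff, Pi.norm_single, Real.norm_eq_abs, abs_mul, hs1, abs_of_pos (half_pos hr)]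
        linarith only [hr]
      refine (disjoint_left.1 hd (o ⟨_, ⟨m, ?_⟩, rfl⟩) ((k5 _ (s1 m)).2.2 ?_)).elim
      · have : s * s = 1 := by rw [← abs_mul_abs_self, hs1, one_mul]
        simp only [mem_ofPred_eq, Pi.single_eq_same, ← mul_assoc, this]
        linarith only [hr]
      · exact Pi.single_eq_of_ne ij.symm _
    · exact disjoint_left.1 o ⟨p, ⟨hp, hp'⟩, rfl⟩
  have cl : k 0 ∈ closure (E \ c) := hE.cl.symm ▸ hE.sub (sc hz)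
  obtain ⟨y, hy, hy'⟩ := ((mem_closure_iff_frequently.1 cl).and_eventually
    (EMin_nhds h k1 k2 k3' hr)).exists
  obtain ⟨p, -, hp, rfl⟩ := hy' (hs hy.1)
  rcases lt_trichotomy (p i) 0 with o | o | o
  · exact half (-1) (by simp) p hp (by linarith only [o]) hy.1
  · exact hy.2 ((e p hp).2 o)
  · exact half 1 (by simp) p hp (by linarith) hy.1

theorem EMin_crc (h : PDsc F J) (hc : Crc c) (hs : c ⊆ F \ J) : ∃ E, PDsc E c ∧ E ⊆ F \ J := by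
  obtain ⟨E, h1, h2, h3⟩ := sd_ex h hc (hs.trans sdiff_subset)
  exact ⟨E, h1, subset_sdiff.2 ⟨h2, h3 (subset_sdiff.1 hs).2⟩⟩

theorem EMin_ne1 (h : PDsc F J) (hU : EMin_Fam F J 𝒰) (hc : Crc c) (hs : c ⊆ ⋃₀ 𝒰) :
    (EMin_C F J (⋃₀ 𝒰) V).Nonempty := by
  obtain ⟨E, h1, h2⟩ := EMin_crc h hc fun x hx =>
    ⟨hU.sub (hs hx), (hU.two hc.poly hs hx (tcrc_lk hc.poly hc.tcrc hx)).1⟩
  exact ⟨E, h2, c, h1, .inl hs⟩

theorem EMin_ne2 (h : PDsc F J) (hU : EMin_Fam F J 𝒰) (hV : EMin_Fam F J 𝒱)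
    (hx : EMin_X F J (⋃₀ 𝒰) (⋃₀ 𝒱)) {K K' : Set (Rn n)} {a' b' : Rn n} (hK : Arc K a b)
    (hK' : Arc K' a' b') (sK : K ⊆ ⋃₀ 𝒰) (sK' : K' ⊆ ⋃₀ 𝒱) (hn : ¬ (K ∩ K').Subsingleton) :
    (EMin_C F J (⋃₀ 𝒰) (⋃₀ 𝒱)).Nonempty := by
  obtain ⟨x, mx, y, my, xy⟩ := not_subsingleton_iff.1 hn
  have off : ∀ z ∈ K ∩ K', z ∉ J := fun z hz => by
    obtain ⟨k, -, -, -, -, -, k3, rfl, -⟩ := hx z ⟨sK hz.1, sK' hz.2⟩
    exact (k3 ⟨0, mem_closedBall_self zero_le_one, rfl⟩).2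
  obtain ⟨O, o1, o2, o3⟩ : ∃ O : Set (Rn n), (∀ w ∈ O, w ∈ K ∩ K' → w = x) ∧ IsOpen O ∧ x ∈ O := by
    obtain ⟨k, i, j, ij, k1, k2, k3, rfl, k5⟩ := hx x ⟨sK mx.1, sK' mx.2⟩
    refine eventually_nhds_iff.1 ?_
    filter_upwards [EMin_nhds h k1 k2 (k3.trans sdiff_subset) one_pos] with w hw m
    obtain ⟨p, hp, -, rfl⟩ := hw (hU.sub (sK m.1))
    have l := k5 p (ball_subset_closedBall hp)
    have l1 := l.1.1 (sK m.1)
    have l2 := l.2.1 (sK' m.2)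
    congr 1
    ext t
    have : t = i ∨ t = j := by omega
    rcases this with rfl | rfl
    exacts [l1, l2]
  obtain ⟨K₁, a1, a2⟩ := EMin_sub hK mx.1 my.1 xy
  obtain ⟨p, α, b1, b2, b3⟩ := arc_first (F := (K ∩ K') \ O) a1
    ((hK.poly.1.isClosed.inter hK'.poly.1.isClosed).sdiff o2) (fun o => o.2 o3)
    ⟨y, a1.tarc.right, my, fun o => xy (o1 y o my).symm⟩
  have mp : p ∈ K ∩ K' := (b3.symm ▸ mem_singleton p : p ∈ α ∩ ((K ∩ K') \ O)).2.1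
  obtain ⟨β, c1, c2⟩ := EMin_sub hK' mx.2 mp.2 b1.tarc.ne
  have sα := b2.trans a2
  have hi : α ∩ β = {x, p} := by
    refine Subset.antisymm (fun w hw => ?_) ?_
    · have m : w ∈ K ∩ K' := ⟨sα hw.1, c2 hw.2⟩
      by_cases o : w ∈ O
      · exact .inl (o1 w o m)
      · exact .inr (b3 ▸ ⟨hw.1, m, o⟩)
    · rintro _ (rfl | rfl)
      exacts [⟨b1.tarc.left, c1.tarc.left⟩, ⟨b1.tarc.right, c1.tarc.right⟩]
  have arc : ∀ {𝒲 : Set (Set (Rn n))} {B : Set (Rn n)}, EMin_Fam F J 𝒲 → Arc B x p → B ⊆ ⋃₀ 𝒲 →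
      B ⊆ F \ J := fun hW hB sB w hw => ⟨hW.sub (sB hw), by
    by_cases e : w = x
    · exact e ▸ off x mx
    by_cases e' : w = p
    · exact e' ▸ off p mp
    exact (hW.two hB.poly sB hw ((tarc_lk hB.poly hB.tarc hw).2 e e')).1⟩
  obtain ⟨E, h1, h2⟩ := EMin_crc h (crc_glue b1 c1 hi)
    (union_subset (arc hU b1 (sα.trans sK)) (arc hV c1 (c2.trans sK')))
  exact ⟨E, h2, _, h1, .inr (.inr ⟨α, β, x, p, b1, c1, hi, sα.trans sK, c2.trans sK', rfl⟩)⟩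

theorem EMin_fin (h : PDsc F J) (hU : EMin_Fam F J 𝒰) (hV : EMin_Fam F J 𝒱) :
    (EMin_C F J (⋃₀ 𝒰) (⋃₀ 𝒱)).Finite := by
  have hG := hU.poly.1.union hV.poly.1
  have hG' := hU.poly.2.union hV.poly.2
  refine ((crc_finite hG fun x _ => PC.lk_finite hG hG' x).biUnion
    (t := fun c => {E | PDsc E c ∧ E ⊆ F}) fun c _ => Set.Subsingleton.finite fun D k D' k' =>
      sd_uniq h k.1 k.2 k'.1 k'.2).subset ?_
  rintro E ⟨h1, c, h2, h3⟩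
  refine mem_biUnion (t := fun c => {E | PDsc E c ∧ E ⊆ F}) (x := c) ⟨h2.crc, ?_⟩
    ⟨h2, h1.trans sdiff_subset⟩
  rcases h3 with k | k | ⟨α, β, -, -, -, -, -, k, k', rfl⟩
  exacts [k.trans subset_union_left, k.trans subset_union_right, union_subset_union k k']

end Aux

theorem mini {F J : Set (Rn n)} (h : PDsc F J) {𝒰 𝒱 : Set (Set (Rn n))} (fU : 𝒰.Finite)
    (fV : 𝒱.Finite) (dU : 𝒰.PairwiseDisjoint id) (dV : 𝒱.PairwiseDisjoint id)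
    (hK : ∀ K ∈ 𝒰 ∪ 𝒱, K ⊆ F ∧ ((Crc K ∧ Disjoint K J) ∨ ∃ a b, Arc K a b ∧ K ∩ J = {a, b}))
    (hx : ∀ z ∈ ⋃₀ 𝒰 ∩ ⋃₀ 𝒱, ∃ k : Rn 2 → Rn n, TP k ∧ InjOn k (closedBall 0 1) ∧
      k '' closedBall 0 1 ⊆ F \ J ∧ k 0 = z ∧ ∀ p ∈ closedBall (0 : Rn 2) 1,
        (k p ∈ ⋃₀ 𝒰 ↔ p 0 = 0) ∧ (k p ∈ ⋃₀ 𝒱 ↔ p 1 = 0))
    (bad : (∃ C, Crc C ∧ (C ⊆ ⋃₀ 𝒰 ∨ C ⊆ ⋃₀ 𝒱)) ∨ ∃ K K' a b a' b', Arc K a b ∧ Arc K' a' b' ∧
      K ⊆ ⋃₀ 𝒰 ∧ K' ⊆ ⋃₀ 𝒱 ∧ ¬ (K ∩ K').Subsingleton) :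
    (∃ E c, PDsc E c ∧ E ⊆ F \ J ∧
      ((c ⊆ ⋃₀ 𝒰 ∧ Disjoint c (⋃₀ 𝒱)) ∨ (c ⊆ ⋃₀ 𝒱 ∧ Disjoint c (⋃₀ 𝒰))) ∧
      Disjoint (E \ c) (⋃₀ 𝒰 ∪ ⋃₀ 𝒱)) ∨
    ∃ E α β p q, PDsc E (α ∪ β) ∧ Arc α p q ∧ Arc β p q ∧ α ∩ β = {p, q} ∧ E ⊆ F \ J ∧
      α ⊆ ⋃₀ 𝒰 ∧ β ⊆ ⋃₀ 𝒱 ∧ α ∩ ⋃₀ 𝒱 ⊆ {p, q} ∧ β ∩ ⋃₀ 𝒰 ⊆ {p, q} ∧
      Disjoint (E \ (α ∪ β)) (⋃₀ 𝒰 ∪ ⋃₀ 𝒱) := by
  have hU : EMin_Fam F J 𝒰 := ⟨fU, dU, fun K k => hK K (.inl k)⟩
  have hV : EMin_Fam F J 𝒱 := ⟨fV, dV, fun K k => hK K (.inr k)⟩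
  have hX : EMin_X F J (⋃₀ 𝒰) (⋃₀ 𝒱) := fun z hz =>
    let ⟨k, k1⟩ := hx z hz
    ⟨k, 0, 1, zero_ne_one, k1⟩
  obtain ⟨E, hm⟩ := (EMin_fin h hU hV).exists_minimal (by
    rcases bad with ⟨C, k, k' | k'⟩ | ⟨K, K', a, b, a', b', k1, k2, k3, k4, k5⟩
    · exact EMin_ne1 h hU k k'
    · exact (EMin_ne1 h hV k k').mono EMin_C_symm
    · exact EMin_ne2 h hU hV hX k1 k2 k3 k4 k5)
  have hm' : Minimal (· ∈ EMin_C F J (⋃₀ 𝒱) (⋃₀ 𝒰)) E :=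
    ⟨EMin_C_symm hm.1, fun y hy => hm.2 (EMin_C_symm hy)⟩
  obtain ⟨hs, c, hE, hc⟩ := hm.1
  have hF : E ⊆ F := hs.trans sdiff_subset
  have d1 := EMin_free h hU hE hm
  have d2 := EMin_free h hV hE hm'
  have d := disjoint_union_right.2 ⟨d1, d2⟩
  rcases hc with k | k | ⟨α, β, p, q, k1, k2, k3, k4, k5, rfl⟩
  · exact .inl ⟨E, c, hE, hs, .inl ⟨k, disjoint_left.2 fun z hz => EMin_off h hU hX hE hF d2
      hE.poly' k subset_rfl hz (tcrc_lk hE.poly' hE.crc.tcrc hz)⟩, d⟩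
  · exact .inl ⟨E, c, hE, hs, .inr ⟨k, disjoint_left.2 fun z hz => EMin_off h hV hX.symm hE hF d1
      hE.poly' k subset_rfl hz (tcrc_lk hE.poly' hE.crc.tcrc hz)⟩, d⟩
  · refine .inr ⟨E, α, β, p, q, hE, k1, k2, k3, hs, k4, k5, fun z hz => ?_, fun z hz => ?_, d⟩
    · by_contra o
      exact EMin_off h hU hX hE hF d2 k1.poly k4 subset_union_left hz.1
        ((tarc_lk k1.poly k1.tarc hz.1).2 (fun e => o (.inl e)) fun e => o (.inr e)) hz.2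
    · by_contra o
      exact EMin_off h hV hX.symm hE hF d1 k2.poly k5 subset_union_right hz.1
        ((tarc_lk k2.poly k2.tarc hz.1).2 (fun e => o (.inl e)) fun e => o (.inr e)) hz.2

end BEp
end
end

-- merged part: Pool.Agent.Work.MP_f0515e_an.D3.EBc2
section
/-! Cutting a disc along a chord and along a band. -/

open Set Metric Filter Topology Function BEv
open scoped NNReal

noncomputable section
namespace BEp

variable {n m : ℕ}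

theorem ebc2_cut {D S A : Set (Rn n)} {a b : Rn n} (h : PDsc D S) (hA : Arc A a b) (hs : A ⊆ D)
    (hi : A ∩ S = {a, b}) : ∃ D₁ D₂, PDsc D₁ ((S ∩ D₁) ∪ A) ∧ PDsc D₂ ((S ∩ D₂) ∪ A) ∧
      D₁ ∩ D₂ = A ∧ D₁ ∪ D₂ = D := by
  obtain ⟨g, g1, g2, rfl, rfl⟩ := h
  obtain ⟨k, k1, k2⟩ := tp_linv (Poly.closedBall (0 : Rn 2) 1) g1 g2
  have gk : ∀ x ∈ g '' closedBall 0 1, g (k x) = x := by
    rintro _ ⟨p, hp, rfl⟩
    rw [k2 p hp]
  have kB : ∀ x ∈ g '' closedBall 0 1, k x ∈ closedBall (0 : Rn 2) 1 := by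
    rintro _ ⟨p, hp, rfl⟩
    rwa [k2 p hp]
  have ki : InjOn k A := fun x hx y hy e => by rw [← gk x (hs hx), ← gk y (hs hy), e]
  have gA : g '' (k '' A) = A := by
    rw [image_image]
    exact (image_congr fun x hx => gk x (hs hx)).trans (image_id' A)
  have hB : Ball (closedBall (0 : Rn 2) 1) (sphere 0 1) := ⟨id, LH.id', image_id _, image_id _⟩
  have sA : k '' A ⊆ closedBall 0 1 := by
    rintro _ ⟨x, hx, rfl⟩
    exact kB x (hs hx)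
  have ia : ∀ x ∈ A, k x ∈ sphere (0 : Rn 2) 1 ↔ x ∈ g '' sphere 0 1 := fun x hx =>
    ⟨fun e => ⟨_, e, gk x (hs hx)⟩, by
      rintro ⟨p, hp, rfl⟩
      rwa [k2 p (sphere_subset_closedBall hp)]⟩
  have iA : k '' A ∩ sphere 0 1 = {k a, k b} := by
    rw [← image_pair, ← hi]
    ext y
    constructor
    · rintro ⟨⟨x, hx, rfl⟩, e⟩
      exact ⟨x, ⟨hx, (ia x hx).1 e⟩, rfl⟩
    · rintro ⟨x, ⟨hx, e⟩, rfl⟩
      exact ⟨⟨x, hx, rfl⟩, (ia x hx).2 e⟩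
  obtain ⟨B₁, B₂, E₁, E₂, -, -, hu, -, l1, l2, i12, u12⟩ := cut2 hB (hA.image k1 ki) sA iA
  have key : ∀ {B₁ B₂ E₁ E₂ : Set (Rn 2)}, E₁ ∪ E₂ = sphere 0 1 →
      Len 1 B₁ E₁ (k '' A) {k a, k b} → Len 1 B₂ E₂ (k '' A) {k a, k b} → B₁ ∩ B₂ = k '' A →
      B₁ ∪ B₂ = closedBall 0 1 → PDsc (g '' B₁) ((g '' sphere 0 1 ∩ g '' B₁) ∪ A) := by
    intro B₁ B₂ E₁ E₂ hu l1 l2 i12 u12
    have s1 : B₁ ⊆ closedBall 0 1 := u12 ▸ subset_union_left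
    have e : sphere 0 1 ∩ B₁ = E₁ := by
      refine Subset.antisymm (fun x hx => ?_) (subset_inter (hu ▸ subset_union_left) (pthm_B l1))
      rcases (hu ▸ hx.1 : x ∈ E₁ ∪ E₂) with h | h
      · exact h
      · have : x ∈ k '' A := i12 ▸ ⟨hx.2, pthm_B l2 h⟩
        exact pthm_J l1 (iA ▸ ⟨this, hx.1⟩)
    have := l1.ball.pcel.image g1 (g2.mono s1)
    rwa [image_union, gA, ← e, g2.image_inter sphere_subset_closedBall s1] at this
  refine ⟨g '' B₁, g '' B₂, key hu l1 l2 i12 u12,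
    key ((union_comm _ _).trans hu) l2 l1 ((inter_comm _ _).trans i12) ((union_comm _ _).trans u12),
    ?_, by rw [← image_union, u12]⟩
  rw [← g2.image_inter (u12 ▸ subset_union_left) (u12 ▸ subset_union_right), i12, gA]

theorem ebc2_cut' {D S A T : Set (Rn n)} {a b : Rn n} (h : PDsc D S) (hA : Arc A a b) (hs : A ⊆ D)
    (hi : A ∩ S = {a, b}) (hT : IsPreconnected T) (sT : T ⊆ D) (dT : Disjoint T A) :
    ∃ D₁ D₂, PDsc D₁ ((S ∩ D₁) ∪ A) ∧ PDsc D₂ ((S ∩ D₂) ∪ A) ∧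
      D₁ ∩ D₂ = A ∧ D₁ ∪ D₂ = D ∧ T ⊆ D₂ := by
  obtain ⟨D₁, D₂, h1, h2, i12, u12⟩ := ebc2_cut h hA hs hi
  rcases (isPreconnected_iff_subset_of_disjoint_closed.1 hT D₁ D₂ h1.cpt.isClosed h2.cpt.isClosed
    (u12 ▸ sT) (by rw [i12]; exact dT.inter_eq)) with k | k
  · exact ⟨D₂, D₁, h2, h1, (inter_comm _ _).trans i12, (union_comm _ _).trans u12, k⟩
  · exact ⟨D₁, D₂, h1, h2, i12, u12, k⟩

theorem ebc2_mem {p : Rn 2} : p ∈ closedBall (0 : Rn 2) 1 ↔ ‖p‖ ≤ 1 := mem_closedBall_zero_iff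

theorem ebc2_side {ε : ℝ} (hε : |ε| = 1) :
    {p : Rn 2 | ‖p‖ ≤ 1 ∧ p 1 = ε} = segment ℝ ![-1, ε] ![1, ε] := by
  ext p
  rw [p2b_seg, mem_ofPred_eq, p2b_norm, max_le_iff]
  simp only [Matrix.cons_val_zero, Matrix.cons_val_one, Matrix.cons_val_fin_one]
  constructor
  · rintro ⟨⟨h1, -⟩, h2⟩
    rw [abs_le] at h1
    exact ⟨(p 0 + 1) / 2, by linarith only [h1, h1.1], by linarith [h1.2], by ring, by rw [h2]; ring⟩
  · rintro ⟨t, t0, t1, e0, e1⟩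
    have : p 1 = ε := by rw [e1]; ring
    refine ⟨⟨abs_le.2 ⟨by linarith, by linarith⟩, by rw [this, hε]⟩, this⟩

theorem ebc2_arc {σ : Rn 2 → Rn n} (h1 : TP σ) (h2 : InjOn σ (closedBall 0 1)) {ε : ℝ}
    (hε : |ε| = 1) : Arc (σ '' {p | ‖p‖ ≤ 1 ∧ p 1 = ε}) (σ ![-1, ε]) (σ ![1, ε]) := by
  refine Arc.image ?_ h1 (h2.mono fun p hp => ebc2_mem.2 hp.1)
  rw [ebc2_side hε]
  refine arc_seg fun e => ?_
  have := congrFun e 0
  simp only [Matrix.cons_val_zero] at this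
  linarith

theorem ebc2_end {σ : Rn 2 → Rn n} {S : Set (Rn n)} {ε : ℝ} (hε : |ε| = 1)
    (h4 : ∀ p : Rn 2, ‖p‖ ≤ 1 → p 1 = ε → (σ p ∈ S ↔ |p 0| = 1)) :
    σ '' {p | ‖p‖ ≤ 1 ∧ p 1 = ε} ∩ S = {σ ![-1, ε], σ ![1, ε]} := by
  ext x
  constructor
  · rintro ⟨⟨p, hp, rfl⟩, e⟩
    rcases (abs_eq zero_le_one).1 ((h4 p hp.1 hp.2).1 e) with k | k
    · have : p = ![1, ε] := p2c_ext.2 ⟨k, hp.2⟩
      exact Or.inr (by rw [this]; rfl)
    · have : p = ![-1, ε] := p2c_ext.2 ⟨k, hp.2⟩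
      exact Or.inl (by rw [this])
  · have k : ∀ c : ℝ, |c| = 1 → σ ![c, ε] ∈ σ '' {p | ‖p‖ ≤ 1 ∧ p 1 = ε} ∩ S := fun c hc => by
      have : ‖(![c, ε] : Rn 2)‖ ≤ 1 := by
        rw [p2b_norm]
        exact max_le hc.le hε.le
      exact ⟨⟨_, ⟨this, rfl⟩, rfl⟩, (h4 _ this rfl).2 hc⟩
    rintro (rfl | rfl)
    · exact k _ (by simp)
    · exact k _ (by simp)

/-- Cut off one side of a band. -/
theorem ebc2_half {D S : Set (Rn n)} (h : PDsc D S) {σ : Rn 2 → Rn n} (h1 : TP σ)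
    (h2 : InjOn σ (closedBall 0 1)) (h3 : σ '' closedBall 0 1 ⊆ D) {ε : ℝ} (hε : |ε| = 1)
    (h4 : ∀ p : Rn 2, ‖p‖ ≤ 1 → p 1 = ε → (σ p ∈ S ↔ |p 0| = 1)) :
    ∃ D₁ B, PDsc D₁ ((S ∩ D₁) ∪ σ '' {p | ‖p‖ ≤ 1 ∧ p 1 = ε}) ∧
      PDsc B ((S ∩ B) ∪ σ '' {p | ‖p‖ ≤ 1 ∧ p 1 = ε}) ∧
      D₁ ∩ B = σ '' {p | ‖p‖ ≤ 1 ∧ p 1 = ε} ∧ D₁ ∪ B = D ∧ σ '' closedBall 0 1 ⊆ B := by
  have sq : ε * ε = 1 := by rw [← abs_mul_abs_self, hε, mul_one]
  have cv : Convex ℝ (closedBall (0 : Rn 2) 1 ∩ {p | ε * p 1 < 1}) :=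
    (convex_closedBall _ _).inter (convex_halfSpace_lt
      ⟨fun x y => by simp [mul_add], fun c x => by simp [mul_left_comm]⟩ 1)
  obtain ⟨D₁, B, k1, k2, k3, k4, k5⟩ := ebc2_cut' h (ebc2_arc h1 h2 hε)
    ((image_mono fun p hp => ebc2_mem.2 hp.1).trans h3) (ebc2_end hε h4)
    (cv.isPreconnected.image σ h1.continuous.continuousOn)
    ((image_mono inter_subset_left).trans h3) (by
      rw [Set.disjoint_left]
      rintro _ ⟨p, hp, rfl⟩ ⟨q, hq, e⟩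
      have := hp.2
      rw [mem_ofPred_eq, ← h2 (ebc2_mem.2 hq.1) hp.1 e, hq.2, sq] at this
      exact lt_irrefl _ this)
  refine ⟨D₁, B, k1, k2, k3, k4, ?_⟩
  rintro _ ⟨p, hp, rfl⟩
  by_cases e : ε * p 1 < 1
  · exact k5 ⟨p, ⟨hp, e⟩, rfl⟩
  · have a1 : |p 1| ≤ 1 := by
      have := ebc2_mem.1 hp
      rw [p2b_norm] at this
      exact (le_max_right _ _).trans this
    have : p 1 = ε := by
      rw [abs_le] at a1
      rcases (abs_eq zero_le_one).1 hε with k | k <;> rw [k] at e ⊢ <;> linarith only [e, a1, a1.1, a1.2]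
    exact (k3.symm ▸ ⟨p, ⟨ebc2_mem.1 hp, this⟩, rfl⟩ : σ p ∈ D₁ ∩ B).2

theorem ebc2_band {D S : Set (Rn n)} (h : PDsc D S) {σ : Rn 2 → Rn n} (h1 : TP σ)
    (h2 : InjOn σ (closedBall 0 1)) (h3 : σ '' closedBall 0 1 ⊆ D)
    (h4 : ∀ p ∈ closedBall (0 : Rn 2) 1, (σ p ∈ S ↔ |p 0| = 1)) :
    ∃ D₁ D₂, PDsc D₁ ((S ∩ D₁) ∪ σ '' {p | ‖p‖ ≤ 1 ∧ p 1 = 1}) ∧
      PDsc D₂ ((S ∩ D₂) ∪ σ '' {p | ‖p‖ ≤ 1 ∧ p 1 = -1}) ∧
      D₁ ∪ σ '' closedBall 0 1 ∪ D₂ = D ∧ Disjoint D₁ D₂ ∧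
      D₁ ∩ σ '' closedBall 0 1 = σ '' {p | ‖p‖ ≤ 1 ∧ p 1 = 1} ∧
      D₂ ∩ σ '' closedBall 0 1 = σ '' {p | ‖p‖ ≤ 1 ∧ p 1 = -1} := by
  have sub : ∀ ε : ℝ, σ '' {p | ‖p‖ ≤ 1 ∧ p 1 = ε} ⊆ σ '' closedBall 0 1 := fun ε =>
    image_mono fun p hp => ebc2_mem.2 hp.1
  have nu : ∀ p : Rn 2, ‖p‖ ≤ 1 → p 1 = -1 → σ p ∉ σ '' {p | ‖p‖ ≤ 1 ∧ p 1 = 1} := by
    rintro p hp e ⟨q, hq, e'⟩
    have := hq.2
    rw [h2 (ebc2_mem.2 hq.1) (ebc2_mem.2 hp) e', e] at this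
    linarith
  obtain ⟨D₁, B, k1, k2, k3, k4, k5⟩ := ebc2_half h h1 h2 h3 (ε := 1) abs_one
    fun p hp _ => h4 p (ebc2_mem.2 hp)
  obtain ⟨D₂, C, l1, l2, l3, l4, l5⟩ := ebc2_half k2 h1 h2 k5 (ε := -1) (by simp)
    fun p hp e => by
      rw [← h4 p (ebc2_mem.2 hp)]
      exact ⟨fun k => k.elim (fun k => k.1) fun k => (nu p hp e k).elim,
        fun k => Or.inl ⟨k, k5 ⟨p, ebc2_mem.2 hp, rfl⟩⟩⟩
  have hb : PDsc (σ '' closedBall 0 1) (σ '' sphere 0 1) := ⟨σ, h1, h2, rfl, rfl⟩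
  have sC : C ⊆ B := l4 ▸ subset_union_right
  have sD : D₂ ⊆ B := l4 ▸ subset_union_left
  have sB : B ⊆ D := k4 ▸ subset_union_right
  have e := tcrc_sub hb.crc.tcrc l2.crc.tcrc (by
    rintro _ ⟨p, hp, rfl⟩
    have hp' := sphere_subset_closedBall hp
    have m : σ p ∈ C := l5 ⟨p, hp', rfl⟩
    have := mem_sphere_zero_iff_norm.1 hp
    rw [p2b_norm] at this
    rcases max_choice |p 0| |p 1| with k | k <;> rw [this] at k
    · exact Or.inl ⟨Or.inl ⟨(h4 p hp').2 k.symm, sC m⟩, m⟩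
    · rcases (abs_eq zero_le_one).1 k.symm with k | k
      · exact Or.inl ⟨Or.inr ⟨p, ⟨ebc2_mem.1 hp', k⟩, rfl⟩, m⟩
      · exact Or.inr ⟨p, ⟨ebc2_mem.1 hp', k⟩, rfl⟩)
  rw [← e] at l2
  have eC : C = σ '' closedBall 0 1 := sd_uniq h l2 (sC.trans sB) hb h3
  subst eC
  have dj : Disjoint D₁ D₂ := by
    rw [Set.disjoint_left]
    intro x x1 x2
    have a1 : x ∈ σ '' {p | ‖p‖ ≤ 1 ∧ p 1 = 1} := k3 ▸ ⟨x1, sD x2⟩
    obtain ⟨p, hp, rfl⟩ : x ∈ σ '' {p | ‖p‖ ≤ 1 ∧ p 1 = -1} := l3 ▸ ⟨x2, sub _ a1⟩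
    exact nu p hp.1 hp.2 a1
  have s1 : σ '' {p | ‖p‖ ≤ 1 ∧ p 1 = 1} ⊆ D₁ := k3 ▸ inter_subset_left
  refine ⟨D₁, D₂, k1, ?_, by rw [union_assoc, union_comm _ D₂, l4, k4], dj, ?_, l3⟩
  · have : (S ∩ B ∪ σ '' {p | ‖p‖ ≤ 1 ∧ p 1 = 1}) ∩ D₂ = S ∩ D₂ := by
      ext x
      exact ⟨fun k => ⟨k.1.elim (fun k => k.1)
        fun k' => (Set.disjoint_left.1 dj (s1 k') k.2).elim, k.2⟩,
        fun k => ⟨Or.inl ⟨k.1, sD k.2⟩, k.2⟩⟩
    rwa [this] at l1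
  · exact Subset.antisymm (fun x hx => k3 ▸ ⟨hx.1, k5 hx.2⟩) (subset_inter s1 (sub _))

theorem ebc2_T {D S : Set (Rn n)} (h : PDsc D S) {σ : Rn 2 → Rn n} (h1 : TP σ)
    (h2 : InjOn σ (closedBall 0 1)) (h3 : σ '' closedBall 0 1 ⊆ D)
    (h4 : ∀ p ∈ closedBall (0 : Rn 2) 1, (σ p ∈ S ↔ |p 0| = 1)) :
    ∃ T : Rn n → ℝ, TP T ∧ (∀ p ∈ closedBall (0 : Rn 2) 1, T (σ p) = p 1) ∧
      ∀ x ∈ D, x ∉ σ '' closedBall 0 1 → |T x| = 1 := by
  obtain ⟨D₁, D₂, k1, k2, k3, k4, k5, k6⟩ := ebc2_band h h1 h2 h3 h4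
  obtain ⟨k, t1, t2⟩ := tp_linv (Poly.closedBall (0 : Rn 2) 1) h1 h2
  have pB : Poly (σ '' closedBall 0 1) := (Poly.closedBall _ _).image h1
  obtain ⟨f, f1, f2, f3⟩ := tp_glue (m := 1) k1.poly pB (f := fun _ _ => 1)
    (g := fun x _ => k x 1) (TP.const _) (TP.pi fun _ => t1.apply 1) (by
      rw [k5]
      rintro _ ⟨p, hp, rfl⟩
      funext i
      simp only [t2 p (ebc2_mem.2 hp.1), hp.2])
  obtain ⟨g, g1, g2, g3⟩ := tp_glue (m := 1) (k1.poly.union pB) k2.poly (f := f)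
    (g := fun _ _ => -1) f1 (TP.const _) (by
      rintro x ⟨x1 | x1, x2⟩
      · exact (Set.disjoint_left.1 k4 x1 x2).elim
      · obtain ⟨p, hp, rfl⟩ : x ∈ σ '' {p | ‖p‖ ≤ 1 ∧ p 1 = -1} := k6 ▸ ⟨x2, x1⟩
        rw [f3 x1]
        funext i
        simp only [t2 p (ebc2_mem.2 hp.1), hp.2])
  refine ⟨fun x => g x 0, g1.apply 0, fun p hp => ?_, fun x hx hn => ?_⟩
  · simp only [g2 (Or.inr ⟨p, hp, rfl⟩), f3 ⟨p, hp, rfl⟩, t2 p hp]
  · rcases (k3 ▸ hx : x ∈ D₁ ∪ σ '' closedBall 0 1 ∪ D₂) with (k | k) | k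
    · simp only [g2 (Or.inl k), f2 k, abs_one]
    · exact (hn k).elim
    · simp only [g3 k, abs_neg, abs_one]

end BEp
end
end
end

-- merged part: Pool.Agent.Work.MP_f0515e_an.D3.EMH
section
-- merged part: Pool.Agent.Work.MP_f0515e_an.D3.EMA1
section
/-! One side of a thin bigon (`EmaS`) and both sides together with the tubes (`EmaT`). -/

open Set Metric Filter Topology Function BEv
open scoped NNReal

noncomputable section
namespace BEp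

theorem ema_cut {n : ℕ} {A S : Set (Rn n)} {p q P : Rn n} (hA : Arc A p q) (hS : Arc S p P)
    (hs : S ⊆ A) (hq : P ≠ q) : Arc (A \ (S \ {P})) P q := by
  have hp : P ≠ p := hS.tarc.ne.symm
  obtain ⟨A₁, A₂, h1, h2, hu, hi⟩ := hA.split (hs hS.tarc.right) hp hq
  have hsub : S \ {P} ⊆ A₁ := by
    rcases isPreconnected_iff_subset_of_disjoint_closed.1 hS.tarc.symm.conn_half A₁ A₂
      h1.tarc.compact.isClosed h2.tarc.compact.isClosed (by rw [hu]; exact sdiff_subset.trans hs)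
      (by rw [hi]; exact eq_empty_of_forall_notMem fun x hx => hx.1.2 hx.2) with h | h
    · exact h
    · have : p ∈ A₁ ∩ A₂ := ⟨h1.tarc.left, h ⟨hS.tarc.left, hp.symm⟩⟩
      rw [hi] at this
      exact absurd this hp.symm
  have e : S = A₁ := tarc_eq hS.tarc h1.tarc fun x hx => by
    by_cases h : x = P
    · rw [h]
      exact h1.tarc.right
    · exact hsub ⟨hx, h⟩
  have e2 : A \ (S \ {P}) = A₂ := by
    rw [e, ← hu]
    ext x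
    constructor
    · rintro ⟨h | h, k⟩
      · have : x = P := by
          by_contra hx
          exact k ⟨h, hx⟩
        rw [this]
        exact h2.tarc.left
      · exact h
    · intro h
      refine ⟨Or.inr h, fun k => k.2 ?_⟩
      rw [← hi]
      exact ⟨k.1, h⟩
  rw [e2]
  exact h2

theorem ema_abs (u v a : ℝ) {t : ℝ} (t0 : 0 ≤ t) (t1 : t ≤ 1) :
    |u + t * (v - u) - a| ≤ (1 - t) * |u - a| + t * |v - a| := by
  have e : u + t * (v - u) - a = (1 - t) * (u - a) + t * (v - a) := by ring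
  rw [e]
  refine (abs_add_le _ _).trans ?_
  rw [abs_mul, abs_mul, abs_of_nonneg t0, abs_of_nonneg (sub_nonneg.2 t1)]

theorem ema_oc {a b : ℝ} {y w : Rn 3} (hy : y ∈ oc a b) (hw : w ∈ oc a b) {t : ℝ} (t0 : 0 ≤ t)
    (t1 : t ≤ 1) : y + t • (w - y) ∈ oc a b := by
  obtain ⟨y1, y2, y3⟩ := hy
  obtain ⟨w1, w2, w3⟩ := hw
  have e0 := ema_abs (y 0) (w 0) a t0 t1
  have e1 := ema_abs (y 1) (w 1) b t0 t1
  have s0 := sub_nonneg.2 t1
  simp only [oc, mem_ofPred_eq, Pi.add_apply, Pi.smul_apply, Pi.sub_apply, smul_eq_mul]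
  refine ⟨?_, ?_, ?_⟩
  · linarith only [e0, y1, s0, w1, t0, mul_le_mul_of_nonneg_left y1 s0, mul_le_mul_of_nonneg_left w1 t0]
  · linarith only [e1, y2, s0, w2, t0, mul_le_mul_of_nonneg_left y2 s0, mul_le_mul_of_nonneg_left w2 t0]
  · linarith only [e0, e1, y3, s0, w3, t0, mul_le_mul_of_nonneg_left y3 s0, mul_le_mul_of_nonneg_left w3 t0]

theorem ema_upd (y : Rn 3) (i : Fin 3) (a t : ℝ) :
    update y i a + t • (y - update y i a) = update y i (a + t * (y i - a)) := by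
  ext k
  by_cases hk : k = i
  · subst hk
    simp
  · simp [update_of_ne hk]

/-- One side of a thin bigon: the arc `A` lies in the plane `x i = 0`. -/
structure EmaS (Λ : Set ℝ) (i j : Fin 3) (F E A : Set (Rn 3)) (p q : Rn 3) : Prop where
  ij : j ≠ i
  cl : IsClosed E
  side : ∀ T, IsPreconnected T → T ⊆ F → (∀ x ∈ T, 0 < x i ∧ 0 < x j) → (T ∩ E).Nonempty → T ⊆ E
  con : IsPreconnected {x ∈ E | 0 < x i ∧ 0 < x j}
  den : E ⊆ closure {x ∈ E | 0 < x i ∧ 0 < x j}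
  arc : Arc A p q
  sub : A ⊆ E
  zer : ∀ x ∈ A, x i = 0
  pj : p j = 0
  qj : q j = 0
  pos : ∀ x ∈ A, x = p ∨ x = q ∨ 0 < x j
  lev : ∀ x ∈ E, x i ∈ Λ → 0 < x j → x ∈ A
  fib : ∀ x ∈ E, ∀ a ∈ Λ, |x i - a| ≤ 1 → ∀ t, |t - a| ≤ 1 → update x i t ∈ F
  gap : ∀ a ∈ Λ, a = 0 ∨ 10 ≤ a ∨ a ≤ -10
  m0 : 0 ∈ Λ

namespace EmaS
variable {Λ : Set ℝ} {i j : Fin 3} {F E A : Set (Rn 3)} {p q : Rn 3} (h : EmaS Λ i j F E A p q)
include h

theorem nn {x : Rn 3} (hx : x ∈ E) : 0 ≤ x i :=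
  closure_minimal (t := {x : Rn 3 | 0 ≤ x i}) (fun _ hy => hy.2.1.le)
    (isClosed_le continuous_const (continuous_apply i)) (h.den hx)

theorem near {x : Rn 3} (hx : x ∈ E) {r : ℝ} (hr : 0 < r) :
    ∃ y ∈ E, 0 < y i ∧ 0 < y j ∧ ∀ k, |y k - x k| < r := by
  obtain ⟨y, ⟨y0, y1, y2⟩, hy⟩ := Metric.mem_closure_iff.1 (h.den hx) r hr
  refine ⟨y, y0, y1, y2, fun k => ?_⟩
  rw [← Real.dist_eq, dist_comm]
  exact (dist_le_pi_dist x y k).trans_lt hy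

theorem cv {w y : Rn 3} (w2 : w ∈ E) (w3 : 0 < w i) (w4 : 0 < w j) (y2 : 0 ≤ y i) (y3 : 0 ≤ y j)
    (hs : ∀ t : ℝ, 0 ≤ t → t ≤ 1 → y + t • (w - y) ∈ F) : y ∈ E := by
  have hc : Continuous fun t : ℝ => y + t • (w - y) := by fun_prop
  have hT := h.side ((fun t : ℝ => y + t • (w - y)) '' Ioc 0 1)
    (isPreconnected_Ioc.image _ hc.continuousOn)
    (by rintro _ ⟨t, ht, rfl⟩; exact hs t ht.1.le ht.2) (by
      rintro _ ⟨t, ht, rfl⟩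
      simp only [Pi.add_apply, Pi.smul_apply, Pi.sub_apply, smul_eq_mul]
      constructor
      · linarith only [ht, y2, w3, mul_nonneg (sub_nonneg.2 ht.2) y2, mul_pos ht.1 w3]
      · nlinarith [mul_nonneg (sub_nonneg.2 ht.2) y3, mul_pos ht.1 w4])
    ⟨w, ⟨1, ⟨one_pos, le_rfl⟩, by simp⟩, w2⟩
  refine closure_minimal hT h.cl (image_closure_subset_closure_image hc ⟨0, ?_, by simp⟩)
  rw [closure_Ioc zero_ne_one]
  exact ⟨le_rfl, zero_le_one⟩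

theorem wall {y : Rn 3} (hy : y ∈ E) (y1 : 0 < y i) (y2 : 0 < y j) {a : ℝ} (ha : a ∈ Λ)
    (hd : |y i - a| ≤ 1) : a = 0 ∧ update y i 0 ∈ A := by
  have hd' := abs_le.1 hd
  have a0 : 0 ≤ a := by rcases h.gap a ha with e | e | e <;> linarith only [e, y1, hd', hd'.1, hd'.2]
  have ej : update y i a j = y j := update_of_ne h.ij _ _
  have hm : update y i a ∈ E := h.cv hy y1 y2 (by rw [update_self]; exact a0)
    (by rw [ej]; exact y2.le) fun t t0 t1 => by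
      rw [ema_upd]
      refine h.fib y hy a ha hd _ ?_
      rw [add_sub_cancel_left, abs_mul, abs_of_nonneg t0]
      linarith only [t1, hd, t0, abs_nonneg (y i - a), mul_nonneg_of_nonpos_of_nonpos (Mathlib.Tactic.Linarith.sub_nonpos_of_le hd) (Mathlib.Tactic.Linarith.sub_nonpos_of_le t0)]
  have hA := h.lev _ hm (by rw [update_self]; exact ha) (by rw [ej]; exact y2)
  have e := h.zer _ hA
  rw [update_self] at e
  rw [e] at hA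
  exact ⟨e, hA⟩

theorem foot {y : Rn 3} (hy : y ∈ E) (y1 : 0 < y i) (y2 : 0 < y j) (y3 : y i ≤ 1) :
    update y i 0 ∈ A :=
  (h.wall hy y1 y2 h.m0 (by rw [sub_zero, abs_of_pos y1]; exact y3)).2

theorem band {x : Rn 3} (hx : x ∈ A) (x1 : 0 < x j) : update x i 1 ∈ E := by
  have hc : Continuous fun z : Rn 3 × ℝ => update z.1 i z.2 :=
    continuous_fst.update i continuous_snd
  have hn : ∀ x ∈ A, 0 < x j → x ∈ A \ {p, q} := fun x hx x1 => ⟨hx, by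
    rintro (rfl | rfl)
    · exact x1.ne' h.pj
    · exact x1.ne' h.qj⟩
  obtain ⟨y, y0, y1, y2, hy⟩ := h.near (h.sub h.arc.tarc.left) one_pos
  have y3 : y i ≤ 1 := by
    have := (abs_lt.1 (hy i)).2
    rw [h.zer p h.arc.tarc.left] at this
    linarith
  refine h.side ((fun z : Rn 3 × ℝ => update z.1 i z.2) '' ((A \ {p, q}) ×ˢ Ioc 0 1))
    ((h.arc.tarc.conn_open.prod isPreconnected_Ioc).image _ hc.continuousOn) ?_ ?_
    ⟨y, ⟨(update y i 0, y i), ⟨hn _ (h.foot y0 y1 y2 y3) ?_, y1, y3⟩, by simp⟩, y0⟩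
    ⟨(x, 1), ⟨hn x hx x1, one_pos, le_rfl⟩, rfl⟩
  · rintro _ ⟨⟨z, t⟩, ⟨hz, ht⟩, rfl⟩
    refine h.fib z (h.sub hz.1) 0 h.m0 (by rw [h.zer z hz.1]; simp) t ?_
    rw [sub_zero, abs_of_pos ht.1]
    exact ht.2
  · rintro _ ⟨⟨z, t⟩, ⟨hz, ht⟩, rfl⟩
    refine ⟨by simpa using ht.1, ?_⟩
    simp only [update_of_ne h.ij]
    rcases h.pos z hz.1 with e | e | e
    · exact absurd (Or.inl e) hz.2
    · exact absurd (Or.inr e) hz.2
    · exact e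
  · simp only [update_of_ne h.ij]
    exact y2

theorem lt {a : ℝ} (ha : a ∈ Λ) (a0 : 0 < a) {y : Rn 3} (hy : y ∈ E) (y1 : 0 < y i)
    (y2 : 0 < y j) : y i < a - 1 := by
  by_contra hn
  push Not at hn
  obtain ⟨w, w0, w1, w2, hw⟩ := h.near (h.sub h.arc.tarc.left) one_pos
  have w3 := (abs_lt.1 (hw i)).2
  rw [h.zer p h.arc.tarc.left] at w3
  have a10 : 10 ≤ a := by rcases h.gap a ha with e | e | e <;> linarith only [a0, e, w1, w3]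
  obtain ⟨z, hz, e⟩ := h.con.intermediate_value ⟨w0, w1, w2⟩ ⟨hy, y1, y2⟩
    (continuous_apply i).continuousOn (show a - 1 ∈ Icc (w i) (y i) from ⟨by linarith, hn⟩)
  refine a0.ne' (h.wall hz.1 hz.2.1 hz.2.2 ha ?_).1
  rw [show z i = a - 1 from e]
  simp

omit h in
theorem seg (ij : j ≠ i) (all : ∀ x y : Rn 3, x i = y i → x j = y j → x 2 = y 2 → x = y)
    (j2 : 2 ≠ j) {r : Rn 3} (r0 : r j = 0) (x : Rn 3) :
    x ∈ segment ℝ r (update r j 3) ↔ x i = r i ∧ 0 ≤ x j ∧ x j ≤ 3 ∧ x 2 = r 2 := by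
  rw [segment_eq_image']
  constructor
  · rintro ⟨t, ht, rfl⟩
    simp only [Pi.add_apply, Pi.smul_apply, Pi.sub_apply, smul_eq_mul, update_self,
      update_of_ne ij.symm, update_of_ne j2, r0]
    refine ⟨by ring, ?_, ?_, by ring⟩ <;> linarith only [ht, ht.1, ht.2]
  · rintro ⟨x1, x2, x3, x4⟩
    refine ⟨x j / 3, ⟨by linarith, by linarith⟩, all _ _ ?_ ?_ ?_⟩ <;>
      simp only [Pi.add_apply, Pi.smul_apply, Pi.sub_apply, smul_eq_mul, update_self,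
        update_of_ne ij.symm, update_of_ne j2, r0, x1, x4] <;> ring

theorem arcs (all : ∀ x y : Rn 3, x i = y i → x j = y j → x 2 = y 2 → x = y) (j2 : 2 ≠ j)
    (hz : p 2 ≠ q 2)
    (sg : ∀ x : Rn 3, x i = 0 → 0 ≤ x j → x j ≤ 3 → (x 2 = p 2 ∨ x 2 = q 2) → x ∈ A)
    (low : ∀ x ∈ A, x j ≤ 3 → x 2 = p 2 ∨ x 2 = q 2) :
    Arc {x ∈ A | 3 ≤ x j} (update p j 3) (update q j 3) := by
  have pi := h.zer p h.arc.tarc.left
  have qi := h.zer q h.arc.tarc.right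
  have sp := seg h.ij all j2 h.pj
  have sq := seg h.ij all j2 h.qj
  have np : p ≠ update p j 3 := fun e => by
    have := congrFun e j
    rw [update_self, h.pj] at this
    norm_num at this
  have nq : q ≠ update q j 3 := fun e => by
    have := congrFun e j
    rw [update_self, h.qj] at this
    norm_num at this
  have a1 := ema_cut h.arc (arc_seg np)
    (fun x hx => by
      obtain ⟨x1, x2, x3, x4⟩ := (sp x).1 hx
      exact sg x (x1.trans pi) x2 x3 (Or.inl x4))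
    (fun e => hz (by rw [← e, update_of_ne j2]))
  have a2 := ema_cut a1.symm (arc_seg nq)
    (fun x hx => by
      obtain ⟨x1, x2, x3, x4⟩ := (sq x).1 hx
      exact ⟨sg x (x1.trans qi) x2 x3 (Or.inr x4), fun k => hz (((sp x).1 k.1).2.2.2.symm.trans x4)⟩)
    (fun e => hz (by
      have := congrFun e 2
      rw [update_of_ne j2, update_of_ne j2] at this
      exact this.symm))
  have e : (A \ (segment ℝ p (update p j 3) \ {update p j 3})) \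
      (segment ℝ q (update q j 3) \ {update q j 3}) = {x ∈ A | 3 ≤ x j} := by
    ext x
    constructor
    · rintro ⟨⟨hx, k1⟩, k2⟩
      refine ⟨hx, ?_⟩
      by_contra hn
      push Not at hn
      have x0 : 0 ≤ x j := by
        rcases h.pos x hx with e | e | e
        · rw [e, h.pj]
        · rw [e, h.qj]
        · exact e.le
      rcases low x hx hn.le with e | e
      · refine k1 ⟨(sp x).2 ⟨(h.zer x hx).trans pi.symm, x0, hn.le, e⟩, fun k => ?_⟩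
        rw [mem_singleton_iff.1 k, update_self] at hn
        exact lt_irrefl _ hn
      · refine k2 ⟨(sq x).2 ⟨(h.zer x hx).trans qi.symm, x0, hn.le, e⟩, fun k => ?_⟩
        rw [mem_singleton_iff.1 k, update_self] at hn
        exact lt_irrefl _ hn
    · rintro ⟨hx, x3⟩
      refine ⟨⟨hx, fun k => k.2 ?_⟩, fun k => k.2 ?_⟩
      · obtain ⟨x1, -, x2, x4⟩ := (sp x).1 k.1
        exact all _ _ (by rw [update_of_ne h.ij.symm, x1]) (by rw [update_self]; linarith)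
          (by rw [update_of_ne j2, x4])
      · obtain ⟨x1, -, x2, x4⟩ := (sq x).1 k.1
        exact all _ _ (by rw [update_of_ne h.ij.symm, x1]) (by rw [update_self]; linarith)
          (by rw [update_of_ne j2, x4])
  rw [e] at a2
  exact a2.symm

theorem out (all : ∀ x y : Rn 3, x i = y i → x j = y j → x 2 = y 2 → x = y) (i2 : 2 ≠ i)
    (j2 : 2 ≠ j) (hz : p 2 ≠ q 2)
    (sg : ∀ x : Rn 3, x i = 0 → 0 ≤ x j → x j ≤ 3 → (x 2 = p 2 ∨ x 2 = q 2) → x ∈ A)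
    (low : ∀ x ∈ A, x j ≤ 3 → x 2 = p 2 ∨ x 2 = q 2) :
    ∃ A' : Set (Rn 2), Arc A' ![3, p 2] ![3, q 2] ∧
      (∀ x : Rn 3, ![x j, x 2] ∈ A' ↔ update x i 0 ∈ A ∧ 3 ≤ x j) ∧
      (∀ y ∈ A', ∃ x ∈ A, y = ![x j, x 2] ∧ 3 ≤ x j) ∧
      ∀ P Q : Rn 3, P i = 1 → P j = 3 → P 2 = p 2 → Q i = 1 → Q j = 3 → Q 2 = q 2 →
        Arc {x | x i = 1 ∧ ![x j, x 2] ∈ A'} P Q := by
  have a1 := h.arcs all j2 hz sg low
  have t1 : TP fun x : Rn 3 => (![x j, x 2] : Rn 2) := TP.pi fun k => by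
    fin_cases k
    · exact TP.id'.apply j
    · exact TP.id'.apply 2
  have t2 : TP fun x : Rn 3 => update x i (1 : ℝ) := TP.pi fun k => by
    by_cases hk : k = i
    · subst hk
      simpa using TP.const (E := Rn 3) (1 : ℝ)
    · simpa [update_of_ne hk] using TP.id'.apply (E := Rn 3) k
  have a2 := a1.image t1 fun x hx y hy e =>
    all _ _ ((h.zer x hx.1).trans (h.zer y hy.1).symm) (congrFun e 0) (congrFun e 1)
  have a3 := a1.image t2 fun x hx y hy e =>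
    all _ _ ((h.zer x hx.1).trans (h.zer y hy.1).symm)
      (by simpa [update_of_ne h.ij] using congrFun e j)
      (by simpa [update_of_ne i2] using congrFun e 2)
  simp only [update_self, update_of_ne j2] at a2
  have mem : ∀ x : Rn 3, ![x j, x 2] ∈ (fun x : Rn 3 => (![x j, x 2] : Rn 2)) '' {x ∈ A | 3 ≤ x j} ↔
      update x i 0 ∈ A ∧ 3 ≤ x j := fun x => by
    constructor
    · rintro ⟨y, hy, e⟩
      have e0 : y j = x j := congrFun e 0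
      have e1 : y 2 = x 2 := congrFun e 1
      rw [← all y (update x i 0) (by rw [update_self, h.zer y hy.1])
        (by rw [update_of_ne h.ij, e0]) (by rw [update_of_ne i2, e1]), ← e0]
      exact hy
    · rintro ⟨k1, k2⟩
      refine ⟨update x i 0, ⟨k1, ?_⟩, ?_⟩
      · rw [update_of_ne h.ij]
        exact k2
      · simp only [update_of_ne h.ij, update_of_ne i2]
  refine ⟨_, a2, mem, ?_, fun P Q P1 P2 P3 Q1 Q2 Q3 => ?_⟩
  · rintro _ ⟨x, hx, rfl⟩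
    exact ⟨x, hx.1, rfl, hx.2⟩
  · have e : {x : Rn 3 | x i = 1 ∧ ![x j, x 2] ∈
        (fun x : Rn 3 => (![x j, x 2] : Rn 2)) '' {x ∈ A | 3 ≤ x j}} =
        (fun x : Rn 3 => update x i (1 : ℝ)) '' {x ∈ A | 3 ≤ x j} := by
      ext x
      rw [mem_ofPred_eq, mem]
      constructor
      · rintro ⟨k0, k1, k2⟩
        refine ⟨update x i 0, ⟨k1, ?_⟩, ?_⟩
        · rw [update_of_ne h.ij]
          exact k2
        · simp only [update_idem, ← k0, update_eq_self]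
      · rintro ⟨y, hy, rfl⟩
        refine ⟨update_self _ _ _, ?_, ?_⟩
        · simp only [update_idem]
          rw [← h.zer y hy.1, update_eq_self]
          exact hy.1
        · simp only [update_of_ne h.ij]
          exact hy.2
    rw [e, all P (update (update p j 3) i 1) (by rw [update_self, P1])
      (by rw [update_of_ne h.ij, update_self, P2]) (by rw [update_of_ne i2, update_of_ne j2, P3]),
      all Q (update (update q j 3) i 1) (by rw [update_self, Q1])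
      (by rw [update_of_ne h.ij, update_self, Q2]) (by rw [update_of_ne i2, update_of_ne j2, Q3])]
    exact a3

end EmaS

theorem ema_mk {L : Fin 3 → Set ℝ} {lo hi : Rn 3} (hB : EBx L lo hi) {F J E C A B : Set (Rn 3)}
    {p q : Rn 3} {i j : Fin 3} (ij : j ≠ i) (hD : PDsc F J) (hP : HP L lo hi F) (hE : PDsc E C)
    (hC : ∀ x, x ∈ C ↔ x ∈ A ∨ x ∈ B) (EF : E ⊆ F) (box : E ⊆ bO lo hi) (mi : 0 ∈ L i)
    (mj : 0 ∈ L j) (hA : Arc A p q) (a0 : ∀ x ∈ A, x i = 0) (b0 : ∀ x ∈ B, x j = 0) (pB : p ∈ B)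
    (qB : q ∈ B) (va : ∀ x ∈ A, x j ∈ L j → x = p ∨ x = q) (fre : ∀ x ∈ E \ C, x i ∉ L i)
    (hq : ∀ x ∈ E \ C, 0 < x i ∧ 0 < x j) : EmaS (L i) i j F E A p q := by
  have nc : ∀ x : Rn 3, 0 < x i → 0 < x j → x ∉ C := fun x x1 x2 hx => by
    rcases (hC x).1 hx with k | k
    · exact x1.ne' (a0 x k)
    · exact x2.ne' (b0 x k)
  have eo : {x ∈ E | 0 < x i ∧ 0 < x j} = E \ C :=
    Subset.antisymm (fun x hx => ⟨hx.1, nc x hx.2.1 hx.2.2⟩) fun x hx => ⟨hx.1, hq x hx⟩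
  have AE : A ⊆ E := fun x hx => hE.sub ((hC x).2 (Or.inl hx))
  refine ⟨ij, hE.cpt.isClosed, fun T t1 t2 t3 t4 => ?_, eo ▸ hE.conn_in.2, by rw [eo, hE.cl], hA,
    AE, a0, b0 p pB, b0 q qB, fun x hx => ?_, fun x hx x1 x2 => ?_, fun x hx a ha x1 t ht => ?_,
    fun a ha => ?_, mi⟩
  · rcases sd_side hD hE EF t1 t2
      (disjoint_left.2 fun x hx => nc x (t3 x hx).1 (t3 x hx).2) with k | k
    · exact k.trans sdiff_subset
    · exact absurd k (not_disjoint_iff_nonempty_inter.2 t4)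
  · have x0 : 0 ≤ x j := closure_minimal (t := {x : Rn 3 | 0 ≤ x j}) (fun y hy => (hq y hy).2.le)
      (isClosed_le continuous_const (continuous_apply j)) (hE.cl.symm ▸ AE hx)
    rcases x0.eq_or_lt with k | k
    · exact (va x hx (k ▸ mj)).imp id Or.inl
    · exact Or.inr (Or.inr k)
  · by_cases k : x ∈ C
    · rcases (hC x).1 k with k | k
      · exact k
      · exact absurd (b0 x k) x2.ne'
    · exact absurd x1 (fre x ⟨hx, k⟩)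
  · have := hP.wal (i, a) x (EF hx) ⟨box hx, ha, x1⟩ (t - a) (abs_le.1 ht)
    simpa [bf] using this
  · rcases lt_trichotomy a 0 with k | k | k
    · exact Or.inr (Or.inr (by linarith [hB.gap i a ha 0 mi k]))
    · exact Or.inl k
    · exact Or.inr (Or.inl (by linarith [hB.gap i 0 mi a ha k]))

end BEp
end
end

-- merged part: Pool.Agent.Work.MP_f0515e_an.D3.EMH1
section
/-! The horizontal slide in the straightened chart. -/

open Set Metric Filter Topology Function BEv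
open scoped NNReal

noncomputable section
namespace BEp

variable {n m : ℕ}

/-- The increasing PL function of the slide. -/
def mh1nu (κ s : ℝ) : ℝ := max s (min (10 * s + 36) (4 + κ / 2 + κ / 18 * s))

/-- The cut-off of the slide. -/
def mh1ps (z₁ z₂ κ η : ℝ) (z h : ℝ) : ℝ :=
  10 * max 0 (min (min 1 ((3 + η - |h|) / η)) (min ((z - z₁ + κ) / κ) ((z₂ + κ - z) / κ)))

/-- The new first coordinate under the inverse map. -/
def mh1f (z₁ z₂ κ η : ℝ) (x : Rn 3) : ℝ :=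
  min (mh1nu κ (x 0)) (x 0 + mh1ps z₁ z₂ κ η (x 1) (x 2))

theorem mh1_tp (z₁ z₂ κ η : ℝ) : TP (mh1f z₁ z₂ κ η) := by
  have a (i : Fin 3) : TP (fun x : Rn 3 => x i) := TP.id'.apply i
  exact ((a 0).max ((((a 0).const_mul 10).add (TP.const 36)).min
    ((TP.const (4 + κ / 2)).add ((a 0).const_mul (κ / 18))))).min ((a 0).add
    (((TP.const 0).max (((TP.const 1).min (((TP.const (3 + η)).sub (a 2).abs).div_const η)).min
      (((((a 1).sub (TP.const z₁)).add (TP.const κ)).div_const κ).min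
        (((TP.const (z₂ + κ)).sub (a 1)).div_const κ)))).const_mul 10))

theorem mh1_min {p q p' q' d : ℝ} (h1 : d ≤ p' - p) (h2 : d ≤ q' - q) :
    d ≤ min p' q' - min p q := by
  have k1 := min_le_left p q
  have k2 := min_le_right p q
  have : min p q + d ≤ min p' q' := le_min (by linarith) (by linarith)
  linarith

theorem mh1_max {p q p' q' d : ℝ} (h1 : d ≤ p' - p) (h2 : d ≤ q' - q) :
    d ≤ max p' q' - max p q := by
  have k1 := le_max_left p' q'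
  have k2 := le_max_right p' q'
  have : max p q ≤ max p' q' - d := max_le (by linarith) (by linarith)
  linarith

theorem mh1_ps_nonneg (z₁ z₂ κ η z h : ℝ) : 0 ≤ mh1ps z₁ z₂ κ η z h :=
  mul_nonneg (by norm_num) (le_max_left _ _)

theorem mh1_ps_zero {z₁ z₂ κ η z h : ℝ} (hκ : 0 < κ) (hη : 0 < η)
    (k : z ≤ z₁ - κ ∨ z₂ + κ ≤ z ∨ 3 + η ≤ |h|) : mh1ps z₁ z₂ κ η z h = 0 := by
  rw [mh1ps, max_eq_left, mul_zero]
  rcases k with k | k | k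
  · exact min_le_of_right_le (min_le_of_left_le
      (div_nonpos_of_nonpos_of_nonneg (by linarith) hκ.le))
  · exact min_le_of_right_le (min_le_of_right_le
      (div_nonpos_of_nonpos_of_nonneg (by linarith) hκ.le))
  · exact min_le_of_left_le (min_le_of_right_le
      (div_nonpos_of_nonpos_of_nonneg (by linarith) hη.le))

theorem mh1_one {η h : ℝ} (hη : 0 < η) (k : |h| ≤ 3) : min 1 ((3 + η - |h|) / η) = 1 :=
  min_eq_left ((one_le_div hη).2 (by linarith))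

theorem mh1_ps_ten {z₁ z₂ κ η z h : ℝ} (hκ : 0 < κ) (hη : 0 < η) (k : |h| ≤ 3) (k1 : z₁ ≤ z)
    (k2 : z ≤ z₂) : mh1ps z₁ z₂ κ η z h = 10 := by
  rw [mh1ps, mh1_one hη k, min_eq_left (le_min ((one_le_div hκ).2 (by linarith))
    ((one_le_div hκ).2 (by linarith))), max_eq_right zero_le_one, mul_one]

theorem mh1_nu_eq {κ s : ℝ} (hκ : 0 < κ) (hκ' : κ ≤ 1 / 2) (k : s ≤ -4 ∨ 5 ≤ s) :
    mh1nu κ s = s := by
  refine max_eq_left ?_
  rcases k with k | k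
  · exact min_le_of_left_le (by linarith only [k])
  · exact min_le_of_right_le (by linarith only [hκ', k, hκ, mul_pos_of_neg_of_neg (Mathlib.Tactic.Linarith.sub_neg_of_lt hκ) (Mathlib.Tactic.Linarith.sub_neg_of_lt hκ), mul_nonneg_of_nonpos_of_nonpos (le_of_lt (Mathlib.Tactic.Linarith.sub_neg_of_lt hκ)) (Mathlib.Tactic.Linarith.sub_nonpos_of_le hκ'), mul_nonneg_of_nonpos_of_nonpos (Mathlib.Tactic.Linarith.sub_nonpos_of_le hκ') (Mathlib.Tactic.Linarith.sub_nonpos_of_le k)])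

theorem mh1_nu_mid {κ s : ℝ} (hκ : 0 < κ) (k : |s| ≤ 3) : 4 < mh1nu κ s ∧ mh1nu κ s < 4 + κ := by
  obtain ⟨k1, k2⟩ := abs_le.1 k
  refine ⟨lt_max_of_lt_right (lt_min (by linarith) (by linarith only [hκ, k1, mul_nonneg_of_nonpos_of_nonpos (le_of_lt (Mathlib.Tactic.Linarith.sub_neg_of_lt hκ)) (Mathlib.Tactic.Linarith.sub_nonpos_of_le k1)])),
    max_lt (by linarith) (min_lt_of_right_lt (by linarith only [hκ, k2, mul_nonneg_of_nonpos_of_nonpos (le_of_lt (Mathlib.Tactic.Linarith.sub_neg_of_lt hκ)) (Mathlib.Tactic.Linarith.sub_nonpos_of_le k2)]))⟩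

theorem mh1_mv {z₁ z₂ κ η : ℝ} (hκ : 0 < κ) (hκ' : κ ≤ 1 / 2) (hη : 0 < η) :
    Mv {x | -4 < x 0 ∧ x 0 < 5 ∧ z₁ - κ < x 1 ∧ x 1 < z₂ + κ ∧ |x 2| < 3 + η}
      (fun x : Rn 3 => update x 0 (mh1f z₁ z₂ κ η x)) := by
  refine ⟨lh_vert 0 (mh1_tp z₁ z₂ κ η) (c := κ / 18) (by positivity) fun x a b hab => ?_,
    fun x hx => ?_⟩
  · have e1 : (1 : Fin 3) ≠ 0 := by decide
    have e2 : (2 : Fin 3) ≠ 0 := by decide
    simp only [mh1f, mh1nu, update_self, update_of_ne e1, update_of_ne e2]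
    exact mh1_min (mh1_max (by linarith only [hab, hκ', mul_nonneg_of_nonpos_of_nonpos (Mathlib.Tactic.Linarith.sub_nonpos_of_le hκ') (Mathlib.Tactic.Linarith.sub_nonpos_of_le hab)]) (mh1_min (by linarith only [hab, hκ', mul_nonneg_of_nonpos_of_nonpos (Mathlib.Tactic.Linarith.sub_nonpos_of_le hκ') (Mathlib.Tactic.Linarith.sub_nonpos_of_le hab)]) (by linarith only []))) (by linarith only [hab, hκ', mul_nonneg_of_nonpos_of_nonpos (Mathlib.Tactic.Linarith.sub_nonpos_of_le hκ') (Mathlib.Tactic.Linarith.sub_nonpos_of_le hab)])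
  · have e : mh1f z₁ z₂ κ η x = x 0 := by
      by_cases k : x 0 ≤ -4 ∨ 5 ≤ x 0
      · rw [mh1f, mh1_nu_eq hκ hκ' k]
        exact min_eq_left (le_add_of_nonneg_right (mh1_ps_nonneg _ _ _ _ _ _))
      · rw [mh1f, mh1_ps_zero hκ hη, add_zero]
        · exact min_eq_right (le_max_left _ _)
        · by_contra k'
          push Not at k k'
          exact hx ⟨k.1, k.2, k'.1, k'.2.1, k'.2.2⟩
    simp only [e, update_eq_self]

theorem slideA {X : Set (Rn 3)} {z₁ z₂ κ η : ℝ} (hz : z₁ < z₂) (hκ : 0 < κ) (hκ' : κ ≤ 1 / 2)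
    (hη : 0 < η) (h : ∀ x ∈ X, |x 2| ≤ 3 → -3 ≤ x 0 → x 0 < 4 + κ → z₁ - κ < x 1 →
      x 1 < z₂ + κ → x 0 ≤ 4 ∧ z₁ ≤ x 1 ∧ x 1 ≤ z₂) :
    ∃ Φ, Mv {x | -4 < x 0 ∧ x 0 < 5 ∧ z₁ - κ < x 1 ∧ x 1 < z₂ + κ ∧ |x 2| < 3 + η} Φ ∧
      (∀ x, Φ x 1 = x 1 ∧ Φ x 2 = x 2) ∧
      (∀ x (t : ℝ), |x 2| ≤ 3 → |t| ≤ 3 → Φ (update x 2 t) = update (Φ x) 2 t) ∧
      ∀ x ∈ X, |x 2| ≤ 3 → |Φ x 0| ≤ 3 → x 1 ≤ z₁ - κ ∨ z₂ + κ ≤ x 1 := by
  have _hz := hz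
  have hM := mh1_mv (z₁ := z₁) (z₂ := z₂) hκ hκ' hη
  have e1 : (1 : Fin 3) ≠ 0 := by decide
  have e2 : (2 : Fin 3) ≠ 0 := by decide
  have e3 : (1 : Fin 3) ≠ 2 := by decide
  have key : ∀ x : Rn 3, ∃ y : Rn 3, invFun (fun x : Rn 3 => update x 0 (mh1f z₁ z₂ κ η x)) x = y ∧
      update y 0 (mh1f z₁ z₂ κ η y) = x := fun x => ⟨_, rfl, hM.1.ri x⟩
  refine ⟨_, hM.inv, fun x => ?_, fun x t hx ht => ?_, fun x hx k1 k2 => ?_⟩
  · obtain ⟨y, k, rfl⟩ := key x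
    rw [k, update_of_ne e1, update_of_ne e2]
    exact ⟨rfl, rfl⟩
  · obtain ⟨y, k, rfl⟩ := key x
    rw [k]
    refine hM.1.inv_eq ?_
    rw [update_of_ne e2] at hx
    have e : mh1f z₁ z₂ κ η (update y 2 t) = mh1f z₁ z₂ κ η y := by
      simp only [mh1f, mh1ps, update_self, update_of_ne e2.symm, update_of_ne e3, mh1_one hη hx,
        mh1_one hη ht]
    simp only [e]
    exact update_comm e2 _ _ _
  · obtain ⟨y, k, rfl⟩ := key x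
    rw [k] at k2
    by_contra k'
    push Not at k'
    obtain ⟨n1, n2⟩ := mh1_nu_mid hκ k2
    obtain ⟨m1, -⟩ := abs_le.1 k2
    have p0 := mh1_ps_nonneg z₁ z₂ κ η (y 1) (y 2)
    obtain ⟨a1, a2, a3⟩ := h _ hx k1
      (by rw [update_self]; exact le_min (by linarith only [hκ', n1, n2]) (by linarith))
      (by rw [update_self]; exact min_lt_of_left_lt n2) k'.1 k'.2
    rw [update_of_ne e1] at a2 a3
    rw [update_of_ne e2] at k1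
    rw [update_self, mh1f, mh1_ps_ten hκ hη k1 a2 a3] at a1
    exact absurd a1 (not_le.2 (lt_min n1 (by linarith only [hκ', n1, n2, m1])))

end BEp
end
end

-- merged part: Pool.Agent.Work.MP_f0515e_an.D3.EMH
section
/-! The bigon move in the straightened chart, coordinates `(s, z, h) = (x 0, x 1, x 2)`; corridors `1 ≤ h ≤ 3` and `-3 ≤ h ≤ -1`, tube `|s| ≤ 3`, `|h| ≤ 3`.
`slideA`: the inverse map is `x ↦ update x 0 (min (ν (x 0)) (x 0 + ψ x))` (`lh_vert`), `ν` PL increasing, identity off `(-4, 5)`, `ν (-3) = 4 + κ / 3`, `ν 3 = 4 + 2 κ / 3`,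
`ψ x = 10 * max 0 (min 1 (min ((3 + η - |x 2|) / η) (min ((x 1 - z₁ + κ) / κ) ((z₂ + κ - x 1) / κ))))`.
`moveH`: the standard arc `P` = three sides of the rectangle `[3, 4] × [z₁, z₂]` (`arc_seg`, `arc_glue`). `arc_bij` and `arc_rel` in the rectangles `[3, b] × [u, v]`, `[3, a] × [u, v]`
(`ball_box`) move `α`, `β` to `P`; `ext3` over `[1, 3]` and over `[-3, -1]`; replace `X`, `E`, `Z`, `C`, `bC` by their images (the hypotheses persist: the supports minus corridors and outer collars lie in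
`C \ bC`; it is convenient to state one lemma for one standardisation step and to use the reflection `h ↦ -h` or a parameter). `E₀ = P × [-1, 1]` is a disc (`pdsc_band`) in `C` meeting `bC` in its boundary; `du3`.
`Z` is at distance `> κ` from `E₀`; a point of `X` in a corridor with `3 < s` gives the point of `X ∩ C` with `h = ± 1`, a point in the tube gives the point `(3, z, 0)`. Then `slideA`.
About 600 lines; split into EMH1 (`slideA`, arcs) and EMH. -/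

open Set Metric Filter Topology Function BEv
open scoped NNReal

noncomputable section
namespace BEp

variable {n m : ℕ}

/-- Corridor of length `b` between the heights `s` and `s + 2`. -/
def Kor (u v b s : ℝ) : Set (Rn 3) :=
  {x | -5 < x 0 ∧ x 0 < b ∧ u < x 1 ∧ x 1 < v ∧ s ≤ x 2 ∧ x 2 ≤ s + 2}

/-- The tube in the chart. -/
def Tub (u v : ℝ) : Set (Rn 3) := {x | |x 0| ≤ 3 ∧ u < x 1 ∧ x 1 < v ∧ |x 2| ≤ 3}

/-- Three sides of the rectangle `[3, 4] × [z₁, z₂]`. -/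
def EMH_P (z₁ z₂ : ℝ) : Set (Rn 2) :=
  {y | 3 ≤ y 0 ∧ y 0 ≤ 4 ∧ z₁ ≤ y 1 ∧ y 1 ≤ z₂ ∧ (y 1 = z₁ ∨ y 0 = 4 ∨ y 1 = z₂)}

theorem EMH_ext {p q : Rn 2} : p = q ↔ p 0 = q 0 ∧ p 1 = q 1 := by
  rw [funext_iff, Fin.forall_fin_two]

theorem EMH_icc {p q y : Rn 2} : y ∈ Icc p q ↔ p 0 ≤ y 0 ∧ y 0 ≤ q 0 ∧ p 1 ≤ y 1 ∧ y 1 ≤ q 1 := by
  simp only [mem_Icc, Pi.le_def, Fin.forall_fin_two]
  tauto

theorem EMH_arc {p q : Rn 2} (h0 : p 0 ≤ q 0) (h1 : p 1 ≤ q 1) (e : p 0 = q 0 ∨ p 1 = q 1)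
    (ne : p ≠ q) : Arc (Icc p q) p q := by
  have h : p ≤ q := by rw [Pi.le_def, Fin.forall_fin_two]; exact ⟨h0, h1⟩
  have : segment ℝ p q = Icc p q := by
    refine ((convex_Icc p q).segment_subset (left_mem_Icc.2 h) (right_mem_Icc.2 h)).antisymm
      fun y hy => ?_
    obtain ⟨k1, k2, k3, k4⟩ := EMH_icc.1 hy
    rcases e with e | e
    · obtain ⟨a, b, ha, hb, hab, k⟩ : y 1 ∈ segment ℝ (p 1) (q 1) := by
        rw [segment_eq_Icc h1]; exact ⟨k3, k4⟩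
      refine ⟨a, b, ha, hb, hab, EMH_ext.2 ⟨?_, k⟩⟩
      change a * p 0 + b * q 0 = y 0
      rw [e, ← add_mul, hab, one_mul]
      linarith only [k2, k1, e]
    · obtain ⟨a, b, ha, hb, hab, k⟩ : y 0 ∈ segment ℝ (p 0) (q 0) := by
        rw [segment_eq_Icc h0]; exact ⟨k1, k2⟩
      refine ⟨a, b, ha, hb, hab, EMH_ext.2 ⟨k, ?_⟩⟩
      change a * p 1 + b * q 1 = y 1
      rw [e, ← add_mul, hab, one_mul]
      linarith
  exact this ▸ arc_seg ne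

theorem EMH_arcP {z₁ z₂ : ℝ} (h : z₁ < z₂) : Arc (EMH_P z₁ z₂) ![3, z₁] ![3, z₂] := by
  have a1 := EMH_arc (p := ![3, z₁]) (q := ![4, z₁]) (by norm_num) le_rfl (.inr rfl)
    fun e => by have := (EMH_ext.1 e).1; norm_num at this
  have a2 := EMH_arc (p := ![4, z₁]) (q := ![4, z₂]) le_rfl h.le (.inl rfl)
    fun e => h.ne (EMH_ext.1 e).2
  have a3 := EMH_arc (p := ![3, z₂]) (q := ![4, z₂]) (by norm_num) le_rfl (.inr rfl)
    fun e => by have := (EMH_ext.1 e).1; norm_num at this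
  have := arc_glue (arc_glue a1 a2 ?_) a3.symm ?_
  · refine (?_ : _ = EMH_P z₁ z₂) ▸ this
    ext y
    simp only [mem_union, EMH_icc, EMH_P, mem_ofPred_eq, Matrix.cons_val_zero, Matrix.cons_val_one]
    grind
  · ext y
    simp only [mem_inter_iff, EMH_icc, mem_singleton_iff, EMH_ext, Matrix.cons_val_zero,
      Matrix.cons_val_one]
    grind
  · ext y
    simp only [mem_inter_iff, mem_union, EMH_icc, mem_singleton_iff, EMH_ext, Matrix.cons_val_zero,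
      Matrix.cons_val_one]
    grind

theorem EMH_mem {W W' : Set (Rn n)} {Φ : Rn n → Rn n} (h : Mv W Φ) (hW : W ⊆ W') {x : Rn n} :
    Φ x ∈ W' ↔ x ∈ W' := by
  conv_lhs => rw [← h.image_eq hW]
  exact h.1.inj.mem_set_image

/-- `Φ` preserves the corridor and its vertical fibres. -/
def EMH_K (u v b s : ℝ) (Φ : Rn 3 → Rn 3) : Prop := (∀ x, Φ x ∈ Kor u v b s ↔ x ∈ Kor u v b s) ∧
  ∀ x ∈ Kor u v b s, ∀ t, s ≤ t → t ≤ s + 2 → Φ (update x 2 t) = update (Φ x) 2 t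

section
variable {u v b s : ℝ} {Φ Ψ : Rn 3 → Rn 3}

theorem EMH_K.comp (h : EMH_K u v b s Φ) (k : EMH_K u v b s Ψ) : EMH_K u v b s (Φ ∘ Ψ) :=
  ⟨fun x => (h.1 _).trans (k.1 x), fun x hx t a c => by
    rw [comp_apply, k.2 x hx t a c, h.2 _ ((k.1 x).2 hx) t a c, comp_apply]⟩

theorem EMH_upd {x : Rn 3} (hx : x ∈ Kor u v b s) {t : ℝ} (a : s ≤ t) (c : t ≤ s + 2) :
    update x 2 t ∈ Kor u v b s := ⟨hx.1, hx.2.1, hx.2.2.1, hx.2.2.2.1, a, c⟩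

theorem EMH_K.fix (i : Injective Φ) (h : ∀ x ∈ Kor u v b s, Φ x = x) : EMH_K u v b s Φ :=
  ⟨fun x => ⟨fun k => i (h _ k) ▸ k, fun k => (h x k).symm ▸ k⟩, fun x hx t a c => by
    rw [h x hx, h _ (EMH_upd hx a c)]⟩

end

theorem EMH_std {α : Set (Rn 2)} {b u v z₁ z₂ : ℝ} (hb : 6 ≤ b) (h1 : u < z₁) (h2 : z₁ < z₂)
    (h3 : z₂ < v) (aα : Arc α ![3, z₁] ![3, z₂])
    (sα : ∀ y ∈ α, y = ![3, z₁] ∨ y = ![3, z₂] ∨ (3 < y 0 ∧ y 0 < b ∧ u < y 1 ∧ y 1 < v)) (s : ℝ) :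
    ∃ Φ, Mv {x | 3 < x 0 ∧ x 0 < b ∧ u < x 1 ∧ x 1 < v ∧ s - 1 / 2 < x 2 ∧ x 2 < s + 2 + 1 / 2} Φ ∧
      (∀ x, Φ x 2 < s ↔ x 2 < s) ∧ (∀ x, s + 2 < Φ x 2 ↔ s + 2 < x 2) ∧ EMH_K u v b s Φ ∧
      ∀ t, s ≤ t → t ≤ s + 2 → Φ '' lay α t = lay (EMH_P z₁ z₂) t := by
  have hB := ball_box (a := ![3, u]) (b := ![b, v]) (Fin.forall_fin_two.2
    ⟨show (3 : ℝ) < b by linarith only [hb], show u < v by linarith⟩)
  have key : ∀ {A : Set (Rn 2)}, Arc A ![3, z₁] ![3, z₂] → (∀ y ∈ A, y = ![3, z₁] ∨ y = ![3, z₂] ∨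
      (3 < y 0 ∧ y 0 < b ∧ u < y 1 ∧ y 1 < v)) → A ⊆ Icc ![3, u] ![b, v] ∧
      A ∩ {x ∈ Icc ![3, u] ![b, v] | ∃ j, x j = ![3, u] j ∨ x j = ![b, v] j} =
        {![3, z₁], ![3, z₂]} := fun {A} ⟨γ, _, _, e0, e1, e⟩ k => by
    have m0 : ![3, z₁] ∈ A := e ▸ ⟨0, ⟨le_rfl, zero_le_one⟩, e0⟩
    have m1 : ![3, z₂] ∈ A := e ▸ ⟨1, ⟨zero_le_one, le_rfl⟩, e1⟩
    have sb : A ⊆ Icc ![3, u] ![b, v] := fun y hy => by
      have := k y hy
      simp only [EMH_icc, EMH_ext, Matrix.cons_val_zero, Matrix.cons_val_one] at this ⊢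
      grind
    refine ⟨sb, Subset.antisymm (fun y hy => ?_) ?_⟩
    · have := k y hy.1
      have := hy.2.2
      simp only [Fin.exists_fin_two, mem_insert_iff, mem_singleton_iff, Matrix.cons_val_zero,
        Matrix.cons_val_one] at this ⊢
      grind
    · rintro _ (rfl | rfl)
      · exact ⟨m0, sb m0, 0, .inl rfl⟩
      · exact ⟨m1, sb m1, 0, .inl rfl⟩
  obtain ⟨s1, i1⟩ := key aα sα
  obtain ⟨s2, i2⟩ := key (EMH_arcP h2) fun y hy => by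
    simp only [EMH_P, mem_ofPred_eq, EMH_ext, Matrix.cons_val_zero, Matrix.cons_val_one] at hy ⊢
    grind
  obtain ⟨g, tg, bg, g0, g1⟩ := arc_bij aα (EMH_arcP h2)
  obtain ⟨ψ, mψ, eψ⟩ := arc_rel hB aα s1 i1 s2 i2 tg bg g0 g1
  obtain ⟨Φ, m, e, hi, lo⟩ := ext3 hB mψ (s := s) (t := s + 2) (η := 1 / 2) (by linarith)
    (by norm_num)
  have m' : Mv {x : Rn 3 | 3 < x 0 ∧ x 0 < b ∧ u < x 1 ∧ x 1 < v ∧ s - 1 / 2 < x 2 ∧
      x 2 < s + 2 + 1 / 2} Φ := m.mono fun x hx => by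
    have a := hx.1.1
    have c : ¬ ∃ j, pj3 x j = ![3, u] j ∨ pj3 x j = ![b, v] j := fun k => hx.1.2 ⟨a, k⟩
    have d := hx.2
    simp only [EMH_icc, Fin.exists_fin_two, Matrix.cons_val_zero, Matrix.cons_val_one, pj3_0, pj3_1,
      mem_ofPred_eq] at a c ⊢
    (clear * - a c d; grind)
  have mid : ∀ x, s ≤ x 2 → x 2 ≤ s + 2 → Φ x 2 = x 2 := fun x a c => by rw [e x ⟨a, c⟩]; rfl
  have l : ∀ x, Φ x 2 < s ↔ x 2 < s := fun x => by
    have := hi x; have := lo x; have := mid x; grind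
  have r : ∀ x, s + 2 < Φ x 2 ↔ s + 2 < x 2 := fun x => by
    have := hi x; have := lo x; have := mid x; grind
  refine ⟨Φ, m', l, r, ⟨fun x => ?_, fun x hx t a c => ?_⟩, fun t a c => ?_⟩
  · by_cases k : x ∈ {x : Rn 3 | 3 < x 0 ∧ x 0 < b ∧ u < x 1 ∧ x 1 < v ∧ s - 1 / 2 < x 2 ∧
      x 2 < s + 2 + 1 / 2}
    · have k' := (EMH_mem m' subset_rfl).2 k
      have := l x
      have := r x
      simp only [Kor, mem_ofPred_eq] at k k' ⊢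
      grind
    · rw [m'.2 x k]
  · rw [e _ ⟨a, c⟩, e x hx.2.2.2.2]
    ext i
    fin_cases i <;> rfl
  · rw [← bg.image_eq, ← eψ.image_eq, ← up_lay]
    exact image_congr fun x hx => e x ⟨hx.2.symm ▸ a, hx.2.symm ▸ c⟩

theorem EMH_near {s z z₁ z₂ κ : ℝ} (h2 : z₁ < z₂) (hκ : 0 < κ) (a : 3 ≤ s) (b : s < 4 + κ)
    (c : z₁ - κ < z) (d : z < z₂ + κ) (h : ¬ (s ≤ 4 ∧ z₁ ≤ z ∧ z ≤ z₂)) :
    ∃ p q, (3 ≤ p ∧ p ≤ 4 ∧ z₁ ≤ q ∧ q ≤ z₂ ∧ (q = z₁ ∨ p = 4 ∨ q = z₂)) ∧ |s - p| < κ ∧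
      |z - q| < κ := by
  obtain ⟨p, hp⟩ : ∃ p, s ≤ 4 ∧ p = s ∨ 4 < s ∧ p = 4 :=
    (le_or_gt s 4).elim (fun k => ⟨_, .inl ⟨k, rfl⟩⟩) fun k => ⟨_, .inr ⟨k, rfl⟩⟩
  obtain ⟨q, hq⟩ : ∃ q, z < z₁ ∧ q = z₁ ∨ z₂ < z ∧ q = z₂ ∨ z₁ ≤ z ∧ z ≤ z₂ ∧ q = z := by
    rcases lt_or_ge z z₁ with k | k
    · exact ⟨_, .inl ⟨k, rfl⟩⟩
    rcases lt_or_ge z₂ z with j | j
    · exact ⟨_, .inr (.inl ⟨j, rfl⟩)⟩
    · exact ⟨_, .inr (.inr ⟨k, j, rfl⟩)⟩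
  have hd : q = z₁ ∨ p = 4 ∨ q = z₂ := by
    rcases hp with ⟨p1, p2⟩ | ⟨p1, p2⟩
    · rcases hq with ⟨q1, q2⟩ | ⟨q1, q2⟩ | ⟨q1, q2, q3⟩
      exacts [.inl q2, .inr (.inr q2), absurd ⟨p1, q1, q2⟩ h]
    · exact .inr (.inl p2)
  refine ⟨p, q, ⟨?_, ?_, ?_, ?_, hd⟩, abs_lt.2 ⟨?_, ?_⟩, abs_lt.2 ⟨?_, ?_⟩⟩ <;>
    rcases hp with ⟨p1, p2⟩ | ⟨p1, p2⟩ <;> rcases hq with ⟨q1, q2⟩ | ⟨q1, q2⟩ | ⟨q1, q2, q3⟩ <;>
    linarith

theorem EMH_core {X E Z C bC : Set (Rn 3)} {a b u v z₁ z₂ : ℝ} (ha : 6 ≤ a)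
    (hb : 6 ≤ b) (h1 : u < z₁) (h2 : z₁ < z₂) (h3 : z₂ < v) (hC : Ball C bC)
    (cM : ∀ x : Rn 3, 3 < x 0 → x 0 ≤ 5 → u < x 1 → x 1 < v → |x 2| < 1 → x ∈ C \ bC)
    (dj : Disjoint (C \ bC) (Kor u v b 1 ∪ Kor u v a (-3) ∪ Tub u v))
    (xU : ∀ x ∈ X, x ∈ Kor u v b 1 → 3 < x 0 → update x 2 1 ∈ X)
    (xV : ∀ x ∈ X, x ∈ Kor u v a (-3) → 3 < x 0 → update x 2 (-1) ∈ X)
    (xT : ∀ x ∈ X, x ∈ Tub u v → ![3, x 1, 0] ∈ X)
    (hE : PDsc E (lay (EMH_P z₁ z₂) 1 ∪ lay (EMH_P z₁ z₂) (-1) ∪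
      {x | x 0 = 3 ∧ (x 1 = z₁ ∨ x 1 = z₂) ∧ |x 2| ≤ 1})) (hEC : E ⊆ C)
    (hEb : E ∩ bC = lay (EMH_P z₁ z₂) 1 ∪ lay (EMH_P z₁ z₂) (-1) ∪
      {x | x 0 = 3 ∧ (x 1 = z₁ ∨ x 1 = z₂) ∧ |x 2| ≤ 1})
    (hZ : IsClosed Z) (hZE : Disjoint Z E) (hXC : X ∩ C ⊆ E ∪ Z) :
    ∃ Φ, Mv ((C \ bC) ∪ {x | u < x 1 ∧ x 1 < v ∧ -4 < x 0 ∧ x 0 < 5 ∧ |x 2| < 7 / 2}) Φ ∧
      EMH_K u v b 1 Φ ∧ EMH_K u v a (-3) Φ ∧
      ∀ x ∈ X, Φ x ∈ Tub u v → x 1 ≠ z₁ ∧ ∀ y ∈ Tub u v, y 1 = Φ x 1 → Φ y = y := by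
  have h0 := pdsc_band (EMH_arcP h2) (s := -1) (t := 1) (by norm_num)
  have eb : lay (EMH_P z₁ z₂) (-1) ∪ lay (EMH_P z₁ z₂) 1 ∪
      {x : Rn 3 | (pj3 x = ![3, z₁] ∨ pj3 x = ![3, z₂]) ∧ x 2 ∈ Icc (-1 : ℝ) 1} =
      lay (EMH_P z₁ z₂) 1 ∪ lay (EMH_P z₁ z₂) (-1) ∪
        {x | x 0 = 3 ∧ (x 1 = z₁ ∨ x 1 = z₂) ∧ |x 2| ≤ 1} := by
    rw [union_comm (lay _ 1)]
    congr 1
    ext x
    simp only [mem_ofPred_eq, EMH_ext, pj3_0, pj3_1, Matrix.cons_val_zero, Matrix.cons_val_one,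
      mem_Icc, abs_le]
    tauto
  rw [eb] at h0
  have alt : ∀ x : Rn 3, pj3 x ∈ EMH_P z₁ z₂ ∧ x 2 ∈ Icc (-1 : ℝ) 1 → x ∈ E ∩ bC ∨ x ∈ C \ bC :=
    fun x hx => by
    have := cM x
    rw [hEb]
    simp only [mem_union, lay, EMH_P, mem_ofPred_eq, pj3_0, pj3_1, mem_Icc, abs_le, abs_lt]
      at hx this ⊢
    (clear * - h1 h3 hx this; grind)
  obtain ⟨Ψ, mΨ, eΨ⟩ := du3 hC hE h0 hEC (fun x hx => (alt x hx).elim (fun k => hEC k.1) And.left)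
    hEb (Subset.antisymm (fun x hx => hEb ▸ (alt x hx.1).resolve_right fun k => k.2 hx.2)
      (subset_inter h0.sub (hEb ▸ inter_subset_right)))
  have fx : ∀ x ∈ Kor u v b 1 ∪ Kor u v a (-3) ∪ Tub u v, Ψ x = x := fun x hx =>
    mΨ.2 x fun k => disjoint_left.1 dj k hx
  have cl : ∀ x : Rn 3, 3 ≤ x 0 → x 0 ≤ 5 → u < x 1 → x 1 < v → |x 2| ≤ 1 → x ∈ C :=
    fun x k1 k2 k3 k4 k5 => by
    have c : Continuous fun t : ℝ => x + t • (![4, x 1, 0] - x) := by fun_prop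
    have := (c.tendsto 0).mono_left (nhdsWithin_le_nhds (s := Ioi 0))
    rw [zero_smul, add_zero] at this
    refine hC.poly.1.isClosed.mem_of_tendsto this ?_
    filter_upwards [Ioo_mem_nhdsGT zero_lt_one] with t ht
    obtain ⟨t0, t1⟩ := ht
    obtain ⟨k5, k6⟩ := abs_le.1 k5
    refine (cM _ ?_ ?_ ?_ ?_ (abs_lt.2 ⟨?_, ?_⟩)).1
    · change 3 < x 0 + t * (4 - x 0)
      linarith only [t0, k1, t1, mul_nonneg_of_nonpos_of_nonpos (Mathlib.Tactic.Linarith.sub_nonpos_of_le k1) (le_of_lt (Mathlib.Tactic.Linarith.sub_neg_of_lt t1))]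
    · change x 0 + t * (4 - x 0) ≤ 5
      linarith only [t0, k2, t1, mul_nonneg_of_nonpos_of_nonpos (Mathlib.Tactic.Linarith.sub_nonpos_of_le k2) (le_of_lt (Mathlib.Tactic.Linarith.sub_neg_of_lt t1))]
    · change u < x 1 + t * (x 1 - x 1)
      linarith
    · change x 1 + t * (x 1 - x 1) < v
      linarith
    · change -1 < x 2 + t * (0 - x 2)
      linarith only [t0, t1, k5, mul_pos_of_neg_of_neg (Mathlib.Tactic.Linarith.sub_neg_of_lt t0) (Mathlib.Tactic.Linarith.sub_neg_of_lt t0), mul_pos_of_neg_of_neg (Mathlib.Tactic.Linarith.sub_neg_of_lt t0) (Mathlib.Tactic.Linarith.sub_neg_of_lt t1), mul_nonneg_of_nonpos_of_nonpos (le_of_lt (Mathlib.Tactic.Linarith.sub_neg_of_lt t1)) (Mathlib.Tactic.Linarith.sub_nonpos_of_le k5)]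
    · change x 2 + t * (0 - x 2) < 1
      linarith only [t0, t1, k6, mul_pos_of_neg_of_neg (Mathlib.Tactic.Linarith.sub_neg_of_lt t0) (Mathlib.Tactic.Linarith.sub_neg_of_lt t0), mul_pos_of_neg_of_neg (Mathlib.Tactic.Linarith.sub_neg_of_lt t0) (Mathlib.Tactic.Linarith.sub_neg_of_lt t1), mul_nonneg_of_nonpos_of_nonpos (le_of_lt (Mathlib.Tactic.Linarith.sub_neg_of_lt t1)) (Mathlib.Tactic.Linarith.sub_nonpos_of_le k6)]
  have cZ : IsClosed (Ψ '' Z) := by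
    obtain ⟨e, rfl, -⟩ := mΨ.1.homeo
    exact e.isClosed_image.2 hZ
  obtain ⟨δ, hδ, th⟩ := h0.cpt.exists_thickening_subset_open cZ.isOpen_compl
    (eΨ ▸ ((disjoint_image_iff mΨ.1.inj).2 hZE).subset_compl_left)
  obtain ⟨κ, κ0, κ1, κ2, κ3, κ4⟩ : ∃ κ, 0 < κ ∧ κ ≤ δ ∧ κ ≤ 1 / 2 ∧ κ ≤ z₁ - u ∧ κ ≤ v - z₂ :=
    ⟨min (min δ (1 / 2)) (min (z₁ - u) (v - z₂)), lt_min (lt_min hδ one_half_pos)
      (lt_min (sub_pos.2 h1) (sub_pos.2 h3)), (min_le_left _ _).trans (min_le_left _ _),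
      (min_le_left _ _).trans (min_le_right _ _), (min_le_right _ _).trans (min_le_left _ _),
      (min_le_right _ _).trans (min_le_right _ _)⟩
  obtain ⟨Φ, mΦ, p1, p2, p3⟩ := slideA (X := Ψ '' X) h2 κ0 κ2 (η := 1 / 2) (by norm_num) (by
    rintro _ ⟨x, hx, rfl⟩ k1 k2 k3 k4 k5
    obtain ⟨k0, k1⟩ := abs_le.1 k1
    obtain ⟨w, ⟨y, hy, rfl⟩, w0, w1, w2⟩ : ∃ w ∈ Ψ '' X, w 0 = max (Ψ x 0) 3 ∧ w 1 = Ψ x 1 ∧
        |w 2| ≤ 1 := by
      rcases le_or_gt (Ψ x 0) 3 with k | k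
      · have m : Ψ x ∈ Tub u v :=
          ⟨abs_le.2 ⟨k2, k⟩, by linarith only [κ3, k4], by linarith, abs_le.2 ⟨k0, k1⟩⟩
        have e := mΨ.1.inj (fx _ (.inr m))
        rw [e] at m k ⊢
        exact ⟨_, ⟨_, xT x hx m, fx _ (.inr ⟨by simp, m.2.1, m.2.2.1, by simp⟩)⟩,
          (max_eq_right k).symm, rfl, by simp⟩
      rcases le_or_gt 1 (Ψ x 2) with j | j
      · have m : Ψ x ∈ Kor u v b 1 :=
          ⟨by linarith only [κ0, κ2, k], by linarith, by linarith, by linarith, j, by linarith⟩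
        have e := mΨ.1.inj (fx _ (.inl (.inl m)))
        rw [e] at m k ⊢
        exact ⟨_, ⟨_, xU x hx m k, fx _ (.inl (.inl (EMH_upd m le_rfl (by norm_num))))⟩,
          (max_eq_left k.le).symm, rfl, by simp⟩
      rcases le_or_gt (Ψ x 2) (-1) with i | i
      · have m : Ψ x ∈ Kor u v a (-3) :=
          ⟨by linarith, by linarith, by linarith, by linarith, k0, by linarith⟩
        have e := mΨ.1.inj (fx _ (.inl (.inr m)))
        rw [e] at m k ⊢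
        exact ⟨_, ⟨_, xV x hx m k, fx _ (.inl (.inr (EMH_upd m (by norm_num) (by norm_num))))⟩,
          (max_eq_left k.le).symm, rfl, by simp⟩
      exact ⟨_, ⟨x, hx, rfl⟩, (max_eq_left k.le).symm, rfl, abs_le.2 ⟨i.le, j.le⟩⟩
    have q0 : 3 ≤ Ψ y 0 := w0 ▸ le_max_right _ _
    have q1 : Ψ y 0 < 4 + κ := w0 ▸ max_lt k3 (by linarith)
    suffices Ψ y 0 ≤ 4 ∧ z₁ ≤ Ψ y 1 ∧ Ψ y 1 ≤ z₂ from
      ⟨(le_max_left _ _).trans (w0 ▸ this.1), w1 ▸ this.2⟩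
    rcases hXC ⟨hy, (EMH_mem mΨ sdiff_subset).1
      (cl _ q0 (by linarith) (by linarith) (by linarith) w2)⟩ with k | k
    · have := (eΨ.le ⟨y, k, rfl⟩).1
      exact ⟨this.2.1, this.2.2.1, this.2.2.2.1⟩
    · by_contra hn
      obtain ⟨p, q, r1, r2, r3⟩ := EMH_near h2 κ0 q0 q1 (w1 ▸ k4) (w1 ▸ k5) hn
      refine th (mem_thickening_iff.2 ⟨![p, q, Ψ y 2], ⟨r1, abs_le.1 w2⟩,
        (dist_pi_lt_iff hδ).2 fun i => ?_⟩) ⟨y, k, rfl⟩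
      fin_cases i
      · exact r2.trans_le κ1
      · exact r3.trans_le κ1
      · exact (dist_self _).trans_lt hδ)
  have kΦ : ∀ {c s : ℝ}, 6 ≤ c → -3 ≤ s → s ≤ 1 → EMH_K u v c s Φ := fun {c s} c6 s1 s2 => by
    refine ⟨fun x => ?_, fun x hx t k k' => p2 x t (abs_le.2 ⟨s1.trans hx.2.2.2.2.1,
      hx.2.2.2.2.2.trans (by linarith)⟩) (abs_le.2 ⟨by linarith, by linarith⟩)⟩
    by_cases k : x ∈ {x : Rn 3 | -4 < x 0 ∧ x 0 < 5 ∧ z₁ - κ < x 1 ∧ x 1 < z₂ + κ ∧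
      |x 2| < 3 + 1 / 2}
    · have k' := (EMH_mem mΦ subset_rfl).2 k
      have := p1 x
      simp only [Kor, mem_ofPred_eq] at k k' ⊢
      grind
    · rw [mΦ.2 x k]
  refine ⟨Φ ∘ Ψ, (mΦ.mono fun x hx => .inr ⟨by linarith only [κ3, hx, hx.2.2.1], by linarith [hx.2.2.2.1], hx.1,
      hx.2.1, by linarith only [hx, hx.2.2.2.2]⟩).comp (mΨ.mono subset_union_left),
    (kΦ hb (by norm_num) le_rfl).comp (.fix mΨ.1.inj fun x k => fx x (.inl (.inl k))),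
    (kΦ ha le_rfl (by norm_num)).comp (.fix mΨ.1.inj fun x k => fx x (.inl (.inr k))),
    fun x hx k => ?_⟩
  have q := p3 _ ⟨x, hx, rfl⟩ (by rw [← (p1 (Ψ x)).2]; exact k.2.2.2) k.1
  have off : ∀ y : Rn 3, y 1 = Ψ x 1 → Φ y = y := fun y e => mΦ.2 y fun j => by
    have := j.2.2.1; have := j.2.2.2.1; grind
  rw [comp_apply, off _ rfl] at k ⊢
  have e := mΨ.1.inj (fx _ (.inr k))
  refine ⟨by rw [e] at q; (clear * - h2 q κ0; grind), fun y hy j => ?_⟩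
  rw [comp_apply, fx y (.inr hy), off y j]

theorem moveH {X E Z C bC : Set (Rn 3)} {α β : Set (Rn 2)} {a b u v z₁ z₂ : ℝ} (ha : 6 ≤ a)
    (hb : 6 ≤ b) (h1 : u < z₁) (h2 : z₁ < z₂) (h3 : z₂ < v) (hC : Ball C bC)
    (cU : ∀ x : Rn 3, 3 < x 0 → x 0 < b → u < x 1 → x 1 < v → 1 / 2 ≤ x 2 → x 2 < 1 → x ∈ C \ bC)
    (cV : ∀ x : Rn 3, 3 < x 0 → x 0 < a → u < x 1 → x 1 < v → -1 < x 2 → x 2 ≤ -1 / 2 → x ∈ C \ bC)
    (cM : ∀ x : Rn 3, 3 < x 0 → x 0 ≤ 5 → u < x 1 → x 1 < v → |x 2| < 1 → x ∈ C \ bC)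
    (dj : Disjoint (C \ bC) (Kor u v b 1 ∪ Kor u v a (-3) ∪ Tub u v))
    (xU : ∀ x ∈ X, x ∈ Kor u v b 1 → 3 < x 0 → update x 2 1 ∈ X)
    (xV : ∀ x ∈ X, x ∈ Kor u v a (-3) → 3 < x 0 → update x 2 (-1) ∈ X)
    (xT : ∀ x ∈ X, x ∈ Tub u v → ![3, x 1, 0] ∈ X)
    (aα : Arc α ![3, z₁] ![3, z₂]) (aβ : Arc β ![3, z₁] ![3, z₂])
    (sα : ∀ y ∈ α, y = ![3, z₁] ∨ y = ![3, z₂] ∨ (3 < y 0 ∧ y 0 < b ∧ u < y 1 ∧ y 1 < v))
    (sβ : ∀ y ∈ β, y = ![3, z₁] ∨ y = ![3, z₂] ∨ (3 < y 0 ∧ y 0 < a ∧ u < y 1 ∧ y 1 < v))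
    (hE : PDsc E (lay α 1 ∪ lay β (-1) ∪ {x | x 0 = 3 ∧ (x 1 = z₁ ∨ x 1 = z₂) ∧ |x 2| ≤ 1}))
    (hEC : E ⊆ C)
    (hEb : E ∩ bC = lay α 1 ∪ lay β (-1) ∪ {x | x 0 = 3 ∧ (x 1 = z₁ ∨ x 1 = z₂) ∧ |x 2| ≤ 1})
    (hZ : IsClosed Z) (hZE : Disjoint Z E) (hXC : X ∩ C ⊆ E ∪ Z) :
    ∃ Φ, Mv ((C \ bC) ∪ {x | u < x 1 ∧ x 1 < v ∧
        ((3 < x 0 ∧ x 0 < b ∧ 1 / 2 < x 2 ∧ x 2 < 7 / 2) ∨
          (3 < x 0 ∧ x 0 < a ∧ -7 / 2 < x 2 ∧ x 2 < -1 / 2) ∨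
          (-4 < x 0 ∧ x 0 < 5 ∧ |x 2| < 7 / 2))}) Φ ∧
      (∀ x, Φ x ∈ Kor u v b 1 → x ∈ Kor u v b 1 ∧
        ∀ t ∈ Icc (1 : ℝ) 3, Φ (update x 2 t) = update (Φ x) 2 t) ∧
      (∀ x, Φ x ∈ Kor u v a (-3) → x ∈ Kor u v a (-3) ∧
        ∀ t ∈ Icc (-3 : ℝ) (-1), Φ (update x 2 t) = update (Φ x) 2 t) ∧
      ∀ x ∈ X, Φ x ∈ Tub u v → x 1 ≠ z₁ ∧ ∀ y ∈ Tub u v, y 1 = Φ x 1 → Φ y = y := by
  obtain ⟨Φ, m1, l1, -, k1, y1⟩ := EMH_std hb h1 h2 h3 aα sα 1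
  obtain ⟨Ψ, m2, -, g2, k2, y2⟩ := EMH_std ha h1 h2 h3 aβ sβ (-3)
  have f1 : ∀ x : Rn 3, x 2 ≤ 1 / 2 → Φ x = x := fun x k => m1.2 x fun j => by
    linarith only [k, j, j.2.2.2.2.1]
  have f2 : ∀ x : Rn 3, -1 / 2 ≤ x 2 → Ψ x = x := fun x k => m2.2 x fun j => by
    linarith [j.2.2.2.2.2]
  have f3 : ∀ x : Rn 3, x 0 ≤ 3 → (Ψ ∘ Φ) x = x := fun x k => by
    rw [comp_apply, m1.2 x fun j => k.not_gt j.1, m2.2 x fun j => k.not_gt j.1]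
  have K1 : EMH_K u v b 1 (Ψ ∘ Φ) :=
    .comp (.fix m2.1.inj fun x k => f2 x (by linarith [k.2.2.2.2.1])) k1
  have K2 : EMH_K u v a (-3) (Ψ ∘ Φ) :=
    k2.comp (.fix m1.1.inj fun x k => f1 x (by linarith [k.2.2.2.2.2]))
  have eb : (Ψ ∘ Φ) '' (lay α 1 ∪ lay β (-1) ∪ {x | x 0 = 3 ∧ (x 1 = z₁ ∨ x 1 = z₂) ∧ |x 2| ≤ 1}) =
      lay (EMH_P z₁ z₂) 1 ∪ lay (EMH_P z₁ z₂) (-1) ∪
        {x | x 0 = 3 ∧ (x 1 = z₁ ∨ x 1 = z₂) ∧ |x 2| ≤ 1} := by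
    rw [image_union, image_union]
    congr 2
    · rw [image_comp, y1 1 le_rfl (by norm_num)]
      exact EqOn.image_eq_self fun x k => f2 x (by rw [k.2]; norm_num)
    · rw [image_comp, EqOn.image_eq_self (f := Φ) fun x k => f1 x (by rw [k.2]; norm_num),
        y2 (-1) (by norm_num) (by norm_num)]
    · exact EqOn.image_eq_self fun x k => f3 x k.1.le
  have cM' : ∀ x, 3 < (Ψ ∘ Φ) x 0 → (Ψ ∘ Φ) x 0 ≤ 5 → u < (Ψ ∘ Φ) x 1 → (Ψ ∘ Φ) x 1 < v →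
      |(Ψ ∘ Φ) x 2| < 1 → x ∈ C \ bC := fun x a1 a2 a3 a4 a5 => by
    rw [comp_apply] at a1 a2 a3 a4 a5
    by_cases j : Φ x ∈ {x : Rn 3 | 3 < x 0 ∧ x 0 < a ∧ u < x 1 ∧ x 1 < v ∧ -3 - 1 / 2 < x 2 ∧
      x 2 < -3 + 2 + 1 / 2}
    · have := (g2 (Φ x)).1 (by linarith only [a5, (abs_lt.1 a5).1])
      have e := m1.1.inj (f1 (Φ x) (by linarith only [j, j.2.2.2.2.2]))
      rw [e] at j this
      exact cV x j.1 j.2.1 j.2.2.1 j.2.2.2.1 (by linarith) (by linarith [j.2.2.2.2.2])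
    rw [m2.2 _ j] at a1 a2 a3 a4 a5
    by_cases i : x ∈ {x : Rn 3 | 3 < x 0 ∧ x 0 < b ∧ u < x 1 ∧ x 1 < v ∧ 1 - 1 / 2 < x 2 ∧
      x 2 < 1 + 2 + 1 / 2}
    · exact cU x i.1 i.2.1 i.2.2.1 i.2.2.2.1 (by linarith only [i, i.2.2.2.2.1]) ((l1 x).1 (abs_lt.1 a5).2)
    · rw [m1.2 _ i] at a1 a2 a3 a4 a5
      exact cM x a1 a2 a3 a4 a5
  have mΘ : Mv ((C \ bC) ∪ {x | u < x 1 ∧ x 1 < v ∧
      ((3 < x 0 ∧ x 0 < b ∧ 1 / 2 < x 2 ∧ x 2 < 7 / 2) ∨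
        (3 < x 0 ∧ x 0 < a ∧ -7 / 2 < x 2 ∧ x 2 < -1 / 2) ∨
        (-4 < x 0 ∧ x 0 < 5 ∧ |x 2| < 7 / 2))}) (Ψ ∘ Φ) :=
    (m2.mono fun x k => .inr ⟨k.2.2.1, k.2.2.2.1, .inr (.inl ⟨k.1, k.2.1,
      by linarith only [k, k.2.2.2.2.1], by linarith only [k, k.2.2.2.2.2]⟩)⟩).comp
    (m1.mono fun x k => .inr ⟨k.2.2.1, k.2.2.2.1, .inl ⟨k.1, k.2.1,
      by linarith only [k, k.2.2.2.2.1], by linarith only [k, k.2.2.2.2.2]⟩⟩)
  generalize Ψ ∘ Φ = Θ at *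
  have i := mΘ.1.inj
  have f4 : ∀ x, Θ x ∈ Tub u v → Θ x = x := fun x k => i (f3 _ (abs_le.1 k.1).2)
  have f5 : ∀ x, 3 < Θ x 0 → 3 < x 0 := fun x k => lt_of_not_ge fun j => by
    rw [f3 x j] at k; exact j.not_gt k
  obtain ⟨Λ, mΛ, L1, L2, L3⟩ := EMH_core (X := Θ '' X) (E := Θ '' E) (Z := Θ '' Z) ha hb h1 h2 h3
    (hC.image mΘ.1) (fun y => by
      obtain ⟨x, rfl⟩ := mΘ.1.1.2 y
      rw [← image_sdiff i, i.mem_set_image]
      exact cM' x) (by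
      rw [← image_sdiff i, disjoint_left]
      rintro _ ⟨x, hx, rfl⟩ k
      refine disjoint_left.1 dj hx ?_
      rcases k with (k | k) | k
      · exact .inl (.inl ((K1.1 x).1 k))
      · exact .inl (.inr ((K2.1 x).1 k))
      · exact .inr (f4 x k ▸ k)) (by
      rintro _ ⟨x, hx, rfl⟩ k j
      exact ⟨_, xU x hx ((K1.1 x).1 k) (f5 x j), K1.2 x ((K1.1 x).1 k) 1 le_rfl (by norm_num)⟩) (by
      rintro _ ⟨x, hx, rfl⟩ k j
      exact ⟨_, xV x hx ((K2.1 x).1 k) (f5 x j),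
        K2.2 x ((K2.1 x).1 k) (-1) (by norm_num) (by norm_num)⟩) (by
      rintro _ ⟨x, hx, rfl⟩ k
      have e := f4 x k
      rw [e] at k ⊢
      exact ⟨_, xT x hx k, f3 _ le_rfl⟩) (eb ▸ hE.image mΘ.1.tp i.injOn) (image_mono hEC)
    (by rw [← image_inter i, hEb, eb]) (by
      obtain ⟨e, rfl, -⟩ := mΘ.1.homeo
      exact e.isClosed_image.2 hZ) ((disjoint_image_iff i).2 hZE)
    (by rw [← image_inter i, ← image_union]; exact image_mono hXC)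
  have M1 := L1.comp K1
  have M2 := L2.comp K2
  refine ⟨Λ ∘ Θ, (mΛ.mono (union_subset ?_ fun x k => .inr ⟨k.1, k.2.1, .inr (.inr k.2.2)⟩)).comp mΘ,
    fun x k => ⟨(M1.1 x).1 k, fun t ht => M1.2 x ((M1.1 x).1 k) t ht.1 (by linarith [ht.2])⟩,
    fun x k => ⟨(M2.1 x).1 k, fun t ht => M2.2 x ((M2.1 x).1 k) t ht.1 (by linarith [ht.2])⟩,
    fun x hx k => ?_⟩
  · rw [← image_sdiff i]
    rintro _ ⟨x, hx, rfl⟩
    exact (EMH_mem mΘ subset_rfl).2 (.inl hx)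
  · obtain ⟨q1, q2⟩ := L3 _ ⟨x, hx, rfl⟩ k
    have e := mΛ.1.inj (q2 _ k rfl)
    refine ⟨f4 x (e ▸ k) ▸ q1, fun y hy j => ?_⟩
    rw [comp_apply, f3 y (abs_le.1 hy.1).2, q2 y hy j]

end BEp
end
end
end
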