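import Pool.Agent.Work.MP_f0515e_an.D3.PCor2
import Pool.Agent.Work.MP_f0515e_an.D3.ASlab
import Pool.Agent.Work.MP_f0515e_an.D3.AStep
import Pool.Agent.Work.MP_f0515e_an.D3.FBd

-- merged part: Pool.Agent.Work.MP_f0515e_an.D3.EBas
section
-- merged part: Pool.Agent.Work.MP_f0515e_an.D3.EDefs
section
/-! Exchange block: definitions. Walls are given by a set `N` and fibres `f x t`, `t ∈ [-1, 1]`. -/

open Set Metric Filter Topology Function BEv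
open scoped NNReal

noncomputable section
namespace BEp

variable {n m : ℕ}

/-- `S` is invariant along the fibres `f` of the wall `N`. -/
def Iw (N : Set (Rn 3)) (f : Rn 3 → ℝ → Rn 3) (S : Set (Rn 3)) : Prop :=
  ∀ x ∈ S, x ∈ N → ∀ t ∈ Icc (-1 : ℝ) 1, f x t ∈ S

/-- Core of a wall. -/
def Co (N : Set (Rn 3)) (f : Rn 3 → ℝ → Rn 3) : Set (Rn 3) := {x | x ∈ N ∧ f x 0 = x}

/-- The triangle and its boundary. -/
def Tri : Set (Rn 2) := {p | 0 ≤ p 0 ∧ p 0 ≤ p 1 ∧ p 1 ≤ 1}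
def bTri : Set (Rn 2) := {p | p ∈ Tri ∧ (p 0 = 0 ∨ p 0 = p 1 ∨ p 1 = 1)}

/-- A finite family of disjoint closed intervals (centre, half width) in `(0, 1)`. -/
structure Ivs (𝒥 : Set (ℝ × ℝ)) : Prop where
  fin : 𝒥.Finite
  pos : ∀ j ∈ 𝒥, 0 < j.2 ∧ 0 < j.1 - j.2 ∧ j.1 + j.2 < 1
  dis : ∀ j ∈ 𝒥, ∀ k ∈ 𝒥, j ≠ k → j.1 + j.2 < k.1 - k.2 ∨ k.1 + k.2 < j.1 - j.2

section Walls
variable {κ : Type} (N : κ → Set (Rn 3)) (f : κ → Rn 3 → ℝ → Rn 3)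

/-- Tracking: a new fibre through the image of a point of `S` is the image of an old fibre. -/
def Trk (Φ : Rn 3 → Rn 3) (S : Set (Rn 3)) : Prop :=
  ∀ x ∈ S, ∀ w, Φ x ∈ N w → ∃ w', ∃ s : ℝ, (s = 1 ∨ s = -1) ∧ x ∈ N w' ∧
    ∀ t ∈ Icc (-1 : ℝ) 1, Φ (f w' x t) = f w (Φ x) (s * t)

/-- Strong tracking: same wall, same coordinate. -/
def Trk1 (Φ : Rn 3 → Rn 3) (S : Set (Rn 3)) : Prop :=
  ∀ x ∈ S, ∀ w, Φ x ∈ N w → x ∈ N w ∧ ∀ t ∈ Icc (-1 : ℝ) 1, Φ (f w x t) = f w (Φ x) t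

/-- The path `γ` crosses the wall `w` affinely on intervals of `𝒥 w`. -/
def TameC (γ : ℝ → Rn 3) (𝒥 : κ → Set (ℝ × ℝ)) : Prop :=
  ∀ s ∈ Icc (0 : ℝ) 1, ∀ w, γ s ∈ N w → ∃ j ∈ 𝒥 w, ∃ σ : ℝ, (σ = 1 ∨ σ = -1) ∧ |s - j.1| ≤ j.2 ∧
    ∀ t ∈ Icc (-1 : ℝ) 1, γ (j.1 + j.2 * t) = f w (γ s) (σ * t)

/-- The wall coordinate of `g p` is an affine function of one coordinate of `p` read off `𝒥`. -/
def Tame (g : Rn 2 → Rn 3) (𝒥 : κ → Set (ℝ × ℝ)) : Prop :=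
  ∀ p ∈ Tri, ∀ w, g p ∈ N w → ∃ j ∈ 𝒥 w, ∃ k : Fin 2, ∃ σ : ℝ, (σ = 1 ∨ σ = -1) ∧
    |p k - j.1| ≤ j.2 ∧ f w (g p) (σ * ((p k - j.1) / j.2)) = g p

/-- No circle of `F` in a core. -/
def NoC (F : Set (Rn 3)) : Prop := ∀ w γ, Crc γ → ¬ γ ⊆ F ∩ Co (N w) (f w)

/-- Arcs of `F` in cores of different colours meet at most once. -/
def NoB (col : κ → Bool) (F : Set (Rn 3)) : Prop :=
  ∀ w w', col w ≠ col w' → ∀ K K' a b a' b', Arc K a b → Arc K' a' b' →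
    K ⊆ F ∩ Co (N w) (f w) → K' ⊆ F ∩ Co (N w') (f w') → (K ∩ K').Subsingleton

/-- No disc of `F \ J` inside `O` has its boundary in a core and its interior off all cores. -/
def NoL (O F J : Set (Rn 3)) : Prop :=
  ∀ w E γ, PDsc E γ → E ⊆ F \ J → E ⊆ O → γ ⊆ Co (N w) (f w) →
    ∃ w', ((E \ γ) ∩ Co (N w') (f w')).Nonempty

end Walls

/-- Wall given by a chart `θ` over the planar set `W`, and its fibres. -/
def cN (θ : Rn 3 → Rn 3) (W : Set (Rn 2)) : Set (Rn 3) := θ '' {x | pj3 x ∈ W ∧ |x 2| ≤ 1}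
def cf (θ : Rn 3 → Rn 3) (x : Rn 3) (t : ℝ) : Rn 3 := θ (mk3 (pj3 (invFun θ x)) t)

/-- A family of discs; each open disc misses the other closed discs. -/
structure ESt {ι : Type} (F J : ι → Set (Rn 3)) : Prop where
  dsc : ∀ c, PDsc (F c) (J c)
  dis : ∀ c d, c ≠ d → Disjoint (F c \ J c) (F d)

/-- A system of walls over planar discs `R w` and of cells `C k`, with collars of width `η`. -/
structure Sys {κ μ : Type} (θ : κ → Rn 3 → Rn 3) (R bR : κ → Set (Rn 2))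
    (C bC : μ → Set (Rn 3)) (η : ℝ) : Prop where
  pos : 0 < η
  lh : ∀ w, LH (θ w)
  rb : ∀ w, Ball (R w) (bR w)
  cb : ∀ k, Ball (C k) (bC k)
  col : ∀ w, ∀ s : ℝ, s = 1 ∨ s = -1 → ∃ k, ∀ y ∈ R w \ bR w, ∀ t : ℝ, 1 < t → t ≤ 1 + η →
    θ w (mk3 y (s * t)) ∈ C k \ bC k
  dw : ∀ w w', w ≠ w' → Disjoint (cN (θ w) (R w \ bR w)) (cN (θ w') (R w' \ bR w'))
  dc : ∀ k k', k ≠ k' → Disjoint (C k \ bC k) (C k' \ bC k')
  wc : ∀ w k, Disjoint (cN (θ w) (R w \ bR w)) (C k \ bC k)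

/-- The region of a system. -/
def sO {κ μ : Type} (θ : κ → Rn 3 → Rn 3) (R bR : κ → Set (Rn 2)) (C bC : μ → Set (Rn 3)) :
    Set (Rn 3) := (⋃ w, cN (θ w) (R w \ bR w)) ∪ ⋃ k, (C k \ bC k)

/-- A box with levels in the directions `0` and `1`. -/
structure EBx (L : Fin 3 → Set ℝ) (lo hi : Rn 3) : Prop where
  fin : ∀ i, (L i).Finite
  two : L 2 = ∅
  gap : ∀ i, ∀ a ∈ L i, ∀ b ∈ L i, a < b → a + 10 ≤ b
  inn : ∀ i, ∀ a ∈ L i, lo i + 10 ≤ a ∧ a + 10 ≤ hi i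
  lt : ∀ i, lo i < hi i

/-- Open box, walls, fibres, octagonal tubes, rays, colours. -/
def bO (lo hi : Rn 3) : Set (Rn 3) := {x | ∀ i, lo i < x i ∧ x i < hi i}
def bN (L : Fin 3 → Set ℝ) (lo hi : Rn 3) (w : Fin 3 × ℝ) : Set (Rn 3) :=
  {x | x ∈ bO lo hi ∧ w.2 ∈ L w.1 ∧ |x w.1 - w.2| ≤ 1}
def bf (w : Fin 3 × ℝ) (x : Rn 3) (t : ℝ) : Rn 3 := update x w.1 (w.2 + t)
def oc (a b : ℝ) : Set (Rn 3) := {x | |x 0 - a| ≤ 3 ∧ |x 1 - b| ≤ 3 ∧ |x 0 - a| + |x 1 - b| ≤ 4}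
def bT (L : Fin 3 → Set ℝ) (lo hi : Rn 3) : Set (Rn 3) :=
  {x | x ∈ bO lo hi ∧ ∃ a ∈ L 0, ∃ b ∈ L 1, x ∈ oc a b}
def bR (L : Fin 3 → Set ℝ) (lo hi : Rn 3) : Set (Rn 3) :=
  {x | x ∈ bO lo hi ∧ x 0 ∈ L 0 ∧ x 1 ∈ L 1}
def bcol (w : Fin 3 × ℝ) : Bool := decide (w.1 = 0)

/-- Handle position in the box. -/
structure HP (L : Fin 3 → Set ℝ) (lo hi : Rn 3) (S : Set (Rn 3)) : Prop where
  wal : ∀ w, Iw (bN L lo hi w) (bf w) S
  tub : ∀ a ∈ L 0, ∀ b ∈ L 1, ∀ x ∈ S, x ∈ bO lo hi → x ∈ oc a b → ∀ y ∈ oc a b, y 2 = x 2 → y ∈ S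

/-- An admissible move for `X` in the box. -/
structure EGd (L : Fin 3 → Set ℝ) (lo hi : Rn 3) (X : Set (Rn 3)) (Φ : Rn 3 → Rn 3) : Prop where
  mv : Mv (bO lo hi) Φ
  hp : ∀ S ⊆ X, HP L lo hi S → HP L lo hi (Φ '' S)
  tub : ∀ x ∈ X, Φ x ∈ bT L lo hi → Φ x = x
  trk : Trk (bN L lo hi) bf Φ (X \ bT L lo hi)

/-- The cell between the levels `a < a'` and `b < b'`: open and closed. -/
def bU (lo hi : Rn 3) (a a' b b' : ℝ) : Set (Rn 3) :=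
  {x | x ∈ bO lo hi ∧ a + 1 < x 0 ∧ x 0 < a' - 1 ∧ b + 1 < x 1 ∧ x 1 < b' - 1 ∧
    4 < (x 0 - a) + (x 1 - b) ∧ 4 < (a' - x 0) + (x 1 - b) ∧ 4 < (x 0 - a) + (b' - x 1) ∧
    4 < (a' - x 0) + (b' - x 1)}
def bC (lo hi : Rn 3) (a a' b b' : ℝ) : Set (Rn 3) :=
  {x | x ∈ Icc lo hi ∧ a + 1 ≤ x 0 ∧ x 0 ≤ a' - 1 ∧ b + 1 ≤ x 1 ∧ x 1 ≤ b' - 1 ∧
    4 ≤ (x 0 - a) + (x 1 - b) ∧ 4 ≤ (a' - x 0) + (x 1 - b) ∧ 4 ≤ (x 0 - a) + (b' - x 1) ∧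
    4 ≤ (a' - x 0) + (b' - x 1)}

/-- The levels together with two virtual levels outside the box. -/
def Lx (L : Fin 3 → Set ℝ) (lo hi : Rn 3) (i : Fin 3) : Set ℝ :=
  insert (lo i - 3) (insert (hi i + 3) (L i))

/-- A bigon: the disc `E` in the open disc `F \ J` is bounded by an arc in a core of colour `0` and
an arc in a core of colour `1` and has no other point in a core. -/
structure Big (L : Fin 3 → Set ℝ) (lo hi : Rn 3) (F J E α β : Set (Rn 3)) (p q : Rn 3) : Prop where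
  dsc : PDsc E (α ∪ β)
  aa : Arc α p q
  ab : Arc β p q
  int : α ∩ β = {p, q}
  sub : E ⊆ F \ J
  box : E ⊆ bO lo hi
  ua : ∀ x ∈ α, x 0 ∈ L 0
  ub : ∀ x ∈ β, x 1 ∈ L 1
  va : ∀ x ∈ α, x 1 ∈ L 1 → x = p ∨ x = q
  vb : ∀ x ∈ β, x 0 ∈ L 0 → x = p ∨ x = q
  fre : ∀ x ∈ E \ (α ∪ β), x 0 ∉ L 0 ∧ x 1 ∉ L 1

/-- A pattern of bands `σ i` with band functions `T i` on the disc `D`. -/
structure Pat {ι : Type} (D S : Set (Rn n)) (I : Set ι) (col : ι → Bool) (σ : ι → Rn 2 → Rn n)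
    (T : ι → Rn n → ℝ) : Prop where
  dsc : PDsc D S
  tp : ∀ i ∈ I, TP (σ i)
  inj : ∀ i ∈ I, InjOn (σ i) (closedBall 0 1)
  sub : ∀ i ∈ I, σ i '' closedBall 0 1 ⊆ D
  bd : ∀ i ∈ I, ∀ p ∈ closedBall (0 : Rn 2) 1, (σ i p ∈ S ↔ |p 0| = 1)
  tT : ∀ i ∈ I, TP (T i)
  lev : ∀ i ∈ I, ∀ p ∈ closedBall (0 : Rn 2) 1, T i (σ i p) = p 1
  off : ∀ i ∈ I, ∀ x ∈ D, x ∉ σ i '' closedBall 0 1 → |T i x| = 1
  dis : ∀ i ∈ I, ∀ j ∈ I, i ≠ j → col i = col j →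
    Disjoint (σ i '' closedBall 0 1) (σ j '' closedBall 0 1)
  crs : ∀ i ∈ I, ∀ j ∈ I, col i ≠ col j →
    Disjoint (σ i '' closedBall 0 1) (σ j '' closedBall 0 1) ∨
    ∃ (a b : ℝ) (φ : ℝ → ℝ), -1 < a ∧ a < b ∧ b < 1 ∧ InjOn φ (Icc a b) ∧
      ∀ p ∈ closedBall (0 : Rn 2) 1, (σ i p ∈ σ j '' closedBall 0 1 ↔ p 0 ∈ Icc a b) ∧
        (p 0 ∈ Icc a b → T j (σ i p) = φ (p 0))

/-- The model band function with end intervals `l`, `r` and sign `e`. -/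
def mT (l r : ℝ × ℝ) (e : ℝ) (p : Rn 2) : ℝ :=
  e * clamp (min ((p 0 - l.1) / l.2) ((r.1 - p 1) / r.2)) 1

/-- The model band. -/
def mB (l r : ℝ × ℝ) : Set (Rn 2) :=
  {p | p ∈ Tri ∧ ((|p 0 - l.1| ≤ l.2 ∧ (p 0 - l.1) / l.2 ≤ (r.1 - p 1) / r.2) ∨
    (|p 1 - r.1| ≤ r.2 ∧ (r.1 - p 1) / r.2 ≤ (p 0 - l.1) / l.2))}

/-- The walls pull back under `g` to the model bands with ends `l i`, `r i` in `𝒥`. -/
structure Lab {κ ι : Type} (N : κ → Set (Rn 3)) (f : κ → Rn 3 → ℝ → Rn 3) (g : Rn 2 → Rn 3)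
    (𝒥 : κ → Set (ℝ × ℝ)) (I : Set ι) (l r : ι → ℝ × ℝ) (e : ι → ℝ) (w : ι → κ) : Prop where
  mem : ∀ i ∈ I, l i ∈ 𝒥 (w i) ∧ r i ∈ 𝒥 (w i) ∧ (l i).1 < (r i).1 ∧ (e i = 1 ∨ e i = -1)
  ne : ∀ i ∈ I, ∀ j ∈ I, i ≠ j → l i ≠ l j ∧ l i ≠ r j ∧ r i ≠ r j
  band : ∀ i ∈ I, ∀ p ∈ mB (l i) (r i),
    g p ∈ N (w i) ∧ f (w i) (g p) (mT (l i) (r i) (e i) p) = g p
  cov : ∀ p ∈ Tri, ∀ v, g p ∈ N v → ∃ i ∈ I, w i = v ∧ p ∈ mB (l i) (r i)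

end BEp
end
end

-- merged part: Pool.Agent.Work.MP_f0515e_an.D3.EBas
section
/-! Exchange block: bookkeeping of tracking, chart walls, box walls. All proofs are unfolding. About 200 lines.
`cf_*`: `LH` gives `invFun θ (θ x) = x` (`leftInverse_invFun`). `bx_chart`: `θ x = ![a + x 2, x 0, x 1]` for `i = 0`,
`θ x = ![x 0, a + x 2, x 1]` for `i = 1` (`lh_aff` or `LH` of an explicit inverse), `W` the open rectangle of the other two sides. -/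

open Set Metric Filter Topology Function BEv
open scoped NNReal

noncomputable section
namespace BEp

variable {n m : ℕ}

theorem ebas_sg {s t : ℝ} (hs : s = 1 ∨ s = -1) (ht : t ∈ Icc (-1 : ℝ) 1) :
    s * t ∈ Icc (-1 : ℝ) 1 := by
  rcases hs with rfl | rfl <;> constructor <;> linarith [ht.1, ht.2]

theorem ebas_mul {s t : ℝ} (hs : s = 1 ∨ s = -1) (ht : t = 1 ∨ t = -1) :
    s * t = 1 ∨ s * t = -1 := by
  rcases hs with rfl | rfl <;> rcases ht with rfl | rfl <;> simp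

theorem ebas_div {u r : ℝ} (h : |u| ≤ r) : u / r ∈ Icc (-1 : ℝ) 1 := by
  have h0 := (abs_nonneg u).trans h
  exact abs_le.1 (by rw [abs_div, abs_of_nonneg h0]; exact div_le_one_of_le₀ h h0)

section
variable {κ : Type} {N : κ → Set (Rn 3)} {f : κ → Rn 3 → ℝ → Rn 3} {Φ Ψ : Rn 3 → Rn 3}
  {S S' : Set (Rn 3)}

theorem Trk1.trk (h : Trk1 N f Φ S) : Trk N f Φ S := fun x hx w hw =>
  ⟨w, 1, Or.inl rfl, (h x hx w hw).1, fun t ht => by rw [one_mul, (h x hx w hw).2 t ht]⟩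

theorem Trk.mono (h : Trk N f Φ S) (hs : S' ⊆ S) : Trk N f Φ S' := fun x hx => h x (hs hx)

theorem Trk1.mono (h : Trk1 N f Φ S) (hs : S' ⊆ S) : Trk1 N f Φ S' := fun x hx => h x (hs hx)

theorem Trk.comp (h : Trk N f Φ S) (k : Trk N f Ψ (Φ '' S)) : Trk N f (Ψ ∘ Φ) S := by
  intro x hx w hw
  obtain ⟨w', s, hs, h1, e⟩ := k _ ⟨x, hx, rfl⟩ w hw
  obtain ⟨w'', s', hs', h2, e'⟩ := h x hx w' h1
  exact ⟨w'', s * s', ebas_mul hs hs', h2, fun t ht => by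
    rw [comp_apply, e' t ht, e _ (ebas_sg hs' ht), mul_assoc, comp_apply]⟩

theorem Trk1.comp (h : Trk1 N f Φ S) (k : Trk1 N f Ψ (Φ '' S)) : Trk1 N f (Ψ ∘ Φ) S := by
  intro x hx w hw
  obtain ⟨h1, e⟩ := k _ ⟨x, hx, rfl⟩ w hw
  obtain ⟨h2, e'⟩ := h x hx w h1
  exact ⟨h2, fun t ht => by rw [comp_apply, e' t ht, e t ht, comp_apply]⟩

theorem Trk.iw (h : Trk N f Φ S) (hS : ∀ w, Iw (N w) (f w) S) (w : κ) :
    Iw (N w) (f w) (Φ '' S) := by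
  rintro _ ⟨x, hx, rfl⟩ hN t ht
  obtain ⟨w', s, hs, h1, e⟩ := h x hx w hN
  refine ⟨_, hS w' x hx h1 _ (ebas_sg hs ht), ?_⟩
  rw [e _ (ebas_sg hs ht)]
  rcases hs with rfl | rfl <;> simp

theorem Trk.tameC (h : Trk N f Φ S) {γ : ℝ → Rn 3} {𝒥 : Set (ℝ × ℝ)}
    (hγ : TameC N f γ fun _ => 𝒥) (hs : ∀ s ∈ Icc (0 : ℝ) 1, γ s ∈ S) :
    TameC N f (Φ ∘ γ) fun _ => 𝒥 := by
  intro s hI w hN
  obtain ⟨w', σ', hσ', h1, e⟩ := h _ (hs s hI) w hN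
  obtain ⟨j, hj, σ, hσ, h2, e'⟩ := hγ s hI w' h1
  exact ⟨j, hj, σ' * σ, ebas_mul hσ' hσ, h2, fun t ht => by
    rw [comp_apply, e' t ht, e _ (ebas_sg hσ ht), mul_assoc, comp_apply]⟩

theorem Trk.tame (h : Trk N f Φ S) {g : Rn 2 → Rn 3} {𝒥 : Set (ℝ × ℝ)}
    (hg : Tame N f g fun _ => 𝒥) (hs : ∀ p ∈ Tri, g p ∈ S) : Tame N f (Φ ∘ g) fun _ => 𝒥 := by
  intro p hp w hN
  obtain ⟨w', σ', hσ', h1, e⟩ := h _ (hs p hp) w hN
  obtain ⟨j, hj, k, σ, hσ, h2, e'⟩ := hg p hp w' h1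
  exact ⟨j, hj, k, σ' * σ, ebas_mul hσ' hσ, h2, by
    rw [comp_apply, mul_assoc, ← e _ (ebas_sg hσ (ebas_div h2)), e']⟩

theorem Trk1.tameC (h : Trk1 N f Φ S) {γ : ℝ → Rn 3} {𝒥 : κ → Set (ℝ × ℝ)} (hγ : TameC N f γ 𝒥)
    (hs : ∀ s ∈ Icc (0 : ℝ) 1, γ s ∈ S) : TameC N f (Φ ∘ γ) 𝒥 := by
  intro s hI w hN
  obtain ⟨h1, e⟩ := h _ (hs s hI) w hN
  obtain ⟨j, hj, σ, hσ, h2, e'⟩ := hγ s hI w h1
  exact ⟨j, hj, σ, hσ, h2, fun t ht => by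
    rw [comp_apply, e' t ht, e _ (ebas_sg hσ ht), comp_apply]⟩

theorem Trk1.tame (h : Trk1 N f Φ S) {g : Rn 2 → Rn 3} {𝒥 : κ → Set (ℝ × ℝ)} (hg : Tame N f g 𝒥)
    (hs : ∀ p ∈ Tri, g p ∈ S) : Tame N f (Φ ∘ g) 𝒥 := by
  intro p hp w hN
  obtain ⟨h1, e⟩ := h _ (hs p hp) w hN
  obtain ⟨j, hj, k, σ, hσ, h2, e'⟩ := hg p hp w h1
  exact ⟨j, hj, k, σ, hσ, h2, by rw [comp_apply, ← e _ (ebas_sg hσ (ebas_div h2)), e']⟩

end

theorem ESt.image {ι : Type} {F J : ι → Set (Rn 3)} (h : ESt F J) {Φ : Rn 3 → Rn 3} (k : LH Φ) :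
    ESt (fun c => Φ '' F c) (fun c => Φ '' J c) :=
  ⟨fun c => (h.dsc c).image k.tp k.inj.injOn, fun c d e => by
    rw [← image_sdiff k.inj]
    exact (disjoint_image_iff k.inj).2 (h.dis c d e)⟩

section
variable {θ : Rn 3 → Rn 3} {W : Set (Rn 2)}

theorem cf_mk (h : LH θ) (y : Rn 2) (s t : ℝ) : cf θ (θ (mk3 y s)) t = θ (mk3 y t) := by
  rw [cf, h.li, pj3_mk3]

theorem mem_cN (h : LH θ) {y : Rn 2} {s : ℝ} : θ (mk3 y s) ∈ cN θ W ↔ y ∈ W ∧ |s| ≤ 1 :=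
  h.inj.mem_set_image.trans (by simp)

theorem co_cN (h : LH θ) : Co (cN θ W) (cf θ) = θ '' lay W 0 := by
  ext x
  constructor
  · rintro ⟨⟨z, hz, rfl⟩, e⟩
    rw [cf, h.li] at e
    exact ⟨z, ⟨hz.1, (congrFun (h.inj e) 2).symm⟩, rfl⟩
  · rintro ⟨z, ⟨h1, h2⟩, rfl⟩
    exact ⟨⟨z, ⟨h1, by simp [h2]⟩, rfl⟩, by rw [cf, h.li, ← h2, mk3_pj3]⟩

theorem iw_cN (h : LH θ) {S : Set (Rn 3)} : Iw (cN θ W) (cf θ) S ↔
    ∀ y ∈ W, ∀ s t : ℝ, |s| ≤ 1 → |t| ≤ 1 → θ (mk3 y s) ∈ S → θ (mk3 y t) ∈ S := by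
  refine ⟨fun H y hy s t hs ht hS =>
    cf_mk h y s t ▸ H _ hS ((mem_cN h).2 ⟨hy, hs⟩) t (abs_le.1 ht), ?_⟩
  rintro H _ hS ⟨z, hz, rfl⟩ t ht
  rw [cf, h.li]
  exact H _ hz.1 (z 2) t hz.2 (abs_le.2 ht) (by rwa [mk3_pj3])

/-- Differences of invariant sets are invariant. -/
theorem iw_diff (h : LH θ) {S S' : Set (Rn 3)} (h1 : Iw (cN θ W) (cf θ) S)
    (h2 : Iw (cN θ W) (cf θ) S') : Iw (cN θ W) (cf θ) (S \ S') :=
  (iw_cN h).2 fun y hy s t hs ht hS => ⟨(iw_cN h).1 h1 y hy s t hs ht hS.1,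
    fun e => hS.2 ((iw_cN h).1 h2 y hy t s ht hs e)⟩

end

theorem iw_iUnion {ι : Type} {N : Set (Rn 3)} {f : Rn 3 → ℝ → Rn 3} {S : ι → Set (Rn 3)}
    (h : ∀ c, Iw N f (S c)) : Iw N f (⋃ c, S c) := fun x hx hN t ht =>
  let ⟨c, hc⟩ := mem_iUnion.1 hx
  mem_iUnion.2 ⟨c, h c x hc hN t ht⟩

section
variable {L : Fin 3 → Set ℝ} {lo hi : Rn 3}

theorem isOpen_bO : IsOpen (bO lo hi) := by
  simp only [bO, ofPred_forall]
  exact isOpen_iInter_of_finite fun i => (isOpen_lt continuous_const (continuous_apply i)).inter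
    (isOpen_lt (continuous_apply i) continuous_const)

theorem co_bN {w : Fin 3 × ℝ} {x : Rn 3} :
    x ∈ Co (bN L lo hi w) (bf w) ↔ x ∈ bO lo hi ∧ w.2 ∈ L w.1 ∧ x w.1 = w.2 := by
  simp only [Co, bN, bf, mem_ofPred_eq, add_zero, update_eq_self_iff]
  exact ⟨fun h => ⟨h.1.1, h.1.2.1, h.2.symm⟩, fun h => ⟨⟨h.1, h.2.1, by simp [h.2.2]⟩, h.2.2.symm⟩⟩

theorem ebas_upd (hB : EBx L lo hi) {i : Fin 3} {a : ℝ} (ha : a ∈ L i) {x : Rn 3}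
    (hx : x ∈ bO lo hi) {s : ℝ} (hs : |s - a| ≤ 3) : update x i s ∈ bO lo hi := fun j => by
  obtain ⟨h1, h2⟩ := hB.inn i a ha
  obtain ⟨h3, h4⟩ := abs_le.1 hs
  rcases eq_or_ne j i with rfl | e
  · rw [update_self]
    constructor <;> linarith
  · rw [update_of_ne e]
    exact hx j

theorem ebas_ch (i : Fin 3) (a : ℝ) :
    ∃ θ, LH θ ∧ cf θ = bf (i, a) ∧ ∀ x, invFun θ x 2 = x i - a := by
  obtain ⟨e, rfl⟩ : ∃ e : Equiv.Perm (Fin 3), e 2 = i := ⟨_, Equiv.swap_apply_left 2 i⟩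
  have h2 : RightInverse (fun y : Rn 3 => update (fun j => y (e j)) 2 (y (e 2) - a))
      fun (x : Rn 3) k => update x 2 (a + x 2) (e.symm k) := fun y => funext fun k => by
    obtain ⟨j, rfl⟩ := e.surjective k
    rcases eq_or_ne j 2 with rfl | c
    · simp
    · simp [c]
  have h : LH fun (x : Rn 3) k => update x 2 (a + x 2) (e.symm k) :=
    pa2_of_inv (TP.pi fun k => (ptri_upd 2 ((TP.const a).add (TP.id'.apply 2))).apply _)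
      ((ptri_upd 2 ((TP.id'.apply 2).sub (TP.const a))).comp (TP.pi fun j => TP.id'.apply (e j)))
      (fun x => by simp) h2
  refine ⟨_, h, funext fun x => funext fun t => funext fun k => ?_, fun x => ?_⟩
  · obtain ⟨j, rfl⟩ := e.surjective k
    rw [cf, h.inv_eq (h2 x)]
    fin_cases j <;> simp [bf]
  · rw [h.inv_eq (h2 x)]
    exact update_self _ _ _

theorem bx_chart (hB : EBx L lo hi) {w : Fin 3 × ℝ} (hw : w.2 ∈ L w.1) : ∃ θ W, LH θ ∧ IsOpen W ∧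
    cN θ W = bN L lo hi w ∧ cf θ = bf w ∧ ∀ x, invFun θ x 2 = x w.1 - w.2 := by
  obtain ⟨θ, h1, h2, h3⟩ := ebas_ch w.1 w.2
  refine ⟨θ, {y | θ (mk3 y 0) ∈ bO lo hi}, h1,
    isOpen_bO.preimage (h1.tp.comp (tp_lay 0)).continuous, ?_, h2, h3⟩
  ext x
  obtain ⟨z, rfl⟩ := h1.1.2 x
  have e := congrFun (congrFun h2 (θ z)) 0
  have e' := h3 (θ z)
  rw [cf, h1.li] at e
  rw [h1.li] at e'
  rw [cN, h1.inj.mem_set_image, mem_ofPred_eq, mem_ofPred_eq, e, e']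
  refine ⟨fun h => ⟨?_, hw, h.2⟩, fun h => ⟨ebas_upd hB hw h.1 (by simp), h.2.2⟩⟩
  simpa [bf] using ebas_upd hB hw h.1 (h.2.trans (by norm_num))

theorem HP.diff {S S' : Set (Rn 3)} (h : HP L lo hi S) (h' : HP L lo hi S')
    (hB : EBx L lo hi) : HP L lo hi (S \ S') := by
  refine ⟨fun w x hx hN => ?_, fun a ha b hb x hx hO hc y hy e =>
    ⟨h.tub a ha b hb x hx.1 hO hc y hy e, fun k =>
      hx.2 (h'.tub a ha b hb y k (fun i => ?_) hy x hc e.symm)⟩⟩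
  · obtain ⟨θ, W, h1, -, h2, h3, -⟩ := bx_chart hB hN.2.1
    have := iw_diff (W := W) h1 (by rw [h2, h3]; exact h.wal w) (by rw [h2, h3]; exact h'.wal w)
    rw [h2, h3] at this
    exact this x hx hN
  · obtain ⟨h1, h2⟩ := hB.inn 0 a ha
    obtain ⟨h3, h4⟩ := hB.inn 1 b hb
    obtain ⟨h5, h6⟩ := abs_le.1 hy.1
    obtain ⟨h7, h8⟩ := abs_le.1 hy.2.1
    fin_cases i
    · exact ⟨show lo 0 < y 0 by linarith, show y 0 < hi 0 by linarith⟩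
    · exact ⟨show lo 1 < y 1 by linarith, show y 1 < hi 1 by linarith⟩
    · exact show lo 2 < y 2 ∧ y 2 < hi 2 from e ▸ hO 2

theorem HP.iUnion {ι : Type} {S : ι → Set (Rn 3)} (h : ∀ c, HP L lo hi (S c)) :
    HP L lo hi (⋃ c, S c) :=
  ⟨fun w => iw_iUnion fun c => (h c).wal w, fun a ha b hb x hx hO hc y hy e =>
    let ⟨c, k⟩ := mem_iUnion.1 hx
    mem_iUnion.2 ⟨c, (h c).tub a ha b hb x k hO hc y hy e⟩⟩

theorem EGd.id' (X : Set (Rn 3)) : EGd L lo hi X id :=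
  ⟨Mv.id' _, fun _ _ h => by rwa [image_id], fun _ _ _ => rfl,
    Trk1.trk fun _ _ _ h => ⟨h, fun _ _ => rfl⟩⟩

theorem ebas_off {X : Set (Rn 3)} {Φ : Rn 3 → Rn 3} (h : EGd L lo hi X Φ) {x : Rn 3} (hx : x ∈ X)
    (k : Φ x ∈ bT L lo hi) : x ∈ bT L lo hi := h.tub x hx k ▸ k

theorem EGd.comp {X : Set (Rn 3)} {Φ Ψ : Rn 3 → Rn 3} (h : EGd L lo hi X Φ)
    (k : EGd L lo hi (Φ '' X) Ψ) : EGd L lo hi X (Ψ ∘ Φ) := by
  refine ⟨k.mv.comp h.mv, fun S hS H => image_comp Ψ Φ S ▸ k.hp _ (image_mono hS) (h.hp S hS H),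
    fun x hx e => ?_, h.trk.comp (k.trk.mono ?_)⟩
  · have e' := k.tub _ ⟨x, hx, rfl⟩ e
    exact e'.trans (h.tub x hx (ebas_off k ⟨x, hx, rfl⟩ e))
  · rintro _ ⟨x, hx, rfl⟩
    exact ⟨⟨x, hx.1, rfl⟩, fun e => hx.2 (ebas_off h hx.1 e)⟩

theorem EGd.ray {X : Set (Rn 3)} {Φ : Rn 3 → Rn 3} (h : EGd L lo hi X Φ) :
    Φ '' X ∩ bR L lo hi ⊆ X ∩ bR L lo hi := by
  rintro _ ⟨⟨x, hx, rfl⟩, k⟩
  refine ⟨(h.tub x hx ⟨k.1, _, k.2.1, _, k.2.2, ?_⟩).symm ▸ hx, k⟩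
  simp [oc]

theorem EGd.off {X S : Set (Rn 3)} {Φ : Rn 3 → Rn 3} (h : EGd L lo hi X Φ) (hs : S ⊆ X)
    (hd : Disjoint S (bT L lo hi)) : Disjoint (Φ '' S) (bT L lo hi) := by
  refine disjoint_left.2 ?_
  rintro _ ⟨x, hx, rfl⟩ k
  exact disjoint_left.1 hd hx (ebas_off h (hs hx) k)

end

end BEp
end
end
end

-- merged part: Pool.Agent.Work.MP_f0515e_an.D3.EML
section
-- merged part: Pool.Agent.Work.MP_f0515e_an.D3.EDu
section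
/-! Uniqueness of spanning discs in a ball; extension of planar moves over a slab.
`du3`: `cut3` for both discs, `len_uniq` (or `pthm_eq`) identifies the two halves `D₁`, `D₂` of `S` (swap with `Len.symm` if needed);
`PCel.ext` extends the identity of `J` to `g : D → D'`; on each half ball `tp_glue` of `id` on `Dᵢ` and `g` on `D`, `fill`;
`tp_glue` of the two fillings, `lh_patch`.
`ext3`: the prisms `R × [t, t + η]` and `R × [s - η, s]` are balls (`len_prism`, `Len.ball`, reflect for the upper one or use `lh_aff`); boundary map =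
`up ψ` on the end at the slab and `id` on the rest, `fill`; glue with `up ψ` on `R × [s, t]`; `lh_patch` on `R × [s - η, t + η]`.
About 250 lines. -/

open Set Metric Filter Topology Function BEv
open scoped NNReal

noncomputable section
namespace BEp

variable {n m : ℕ}

theorem EDu_fill {i : Fin n} {B B' E A A' J : Set (Rn n)} (h : Len i B E A J)
    (h' : Len i B' E A' J) {g : Rn n → Rn n} (hg : TP g) (hb : BijOn g A A')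
    (hJ : ∀ x ∈ J, g x = x) : ∃ Φ, TP Φ ∧ BijOn Φ B B' ∧ EqOn Φ g A ∧ ∀ x ∈ E, Φ x = x := by
  obtain ⟨k, k1, k2, k3⟩ := tp_glue h.poly h.symm.poly TP.id' hg (by
    rw [h.inter]
    exact fun x hx => (hJ x hx).symm)
  obtain ⟨Φ, f1, f2, f3⟩ := fill h.ball h'.ball k1
    (p2d_bij ((bijOn_id E).congr k2.symm) (hb.congr k3.symm) (by
      rw [h'.inter]
      intro x hx
      exact ⟨x, h.inter.symm ▸ hx, k2 (h.inter.symm ▸ hx : x ∈ E ∩ A).1⟩))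
  exact ⟨Φ, f1.tp, f2 ▸ f1.inj.injOn.bijOn_image, fun x hx => (f3 (Or.inr hx)).trans (k3 hx),
    fun x hx => (f3 (Or.inl hx)).trans (k2 hx)⟩

theorem du3 {B S D D' J : Set (Rn 3)} (h : Ball B S) (h1 : PDsc D J) (h2 : PDsc D' J)
    (s1 : D ⊆ B) (s2 : D' ⊆ B) (i1 : D ∩ S = J) (i2 : D' ∩ S = J) :
    ∃ Φ, Mv (B \ S) Φ ∧ Φ '' D = D' := by
  obtain ⟨B₁, B₂, D₁, D₂, rfl, l, l1, l2, i, u⟩ := cut3 h h1 s1 i1
  have key : ∀ {E : Set (Rn 3)}, PDsc E J → E ⊆ D₁ ∪ D₂ → E ∩ D' = J := fun hE s =>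
    subset_antisymm (fun x hx => i2 ▸ ⟨hx.2, s hx.1⟩) (subset_inter hE.sub h2.sub)
  obtain ⟨B₁', l1'⟩ := len_two l.pdsc h2 (key l.pdsc subset_union_left)
  obtain ⟨B₂', l2'⟩ := len_two l.symm.pdsc h2 (key l.symm.pdsc subset_union_right)
  obtain ⟨i', u'⟩ := cut_core (by norm_num) l l1' l2' s2
  obtain ⟨g, hg, hb, hJ⟩ := h1.ext h2 TP.id' (bijOn_id J)
  obtain ⟨Φ₁, a1, a2, a3, a4⟩ := EDu_fill l1 l1' hg hb hJ
  obtain ⟨Φ₂, b1, b2, b3, b4⟩ := EDu_fill l2 l2' hg hb hJ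
  obtain ⟨k, k1, k2, k3⟩ := tp_glue l1.ball.poly l2.ball.poly a1 b1 (i ▸ a3.trans b3.symm)
  have e : EqOn k g D := fun x hx => (k2 (pthm_B' l1 hx)).trans (a3 hx)
  have hk : BijOn k B B := by
    have := p2d_bij (a2.congr k2.symm) (b2.congr k3.symm) (by
      rw [i, i']
      exact (hb.congr e.symm).surjOn)
    rwa [u, u'] at this
  obtain ⟨Φ, f1, f2⟩ := lh_patch h.poly k1 hk (by
    rw [h.frontier_eq]
    rintro x (hx | hx)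
    exacts [(k2 (pthm_B l1 hx)).trans (a4 x hx), (k3 (pthm_B l2 hx)).trans (b4 x hx)])
  exact ⟨Φ, h.interior_eq ▸ f1, (image_congr fun x hx => (f2 (s1 hx)).trans (e hx)).trans
    hb.image_eq⟩

theorem EDu_prism {D J : Set (Rn 2)} (h : Ball D J) {s t : ℝ} (hst : s < t) :
    Len 2 {x | pj3 x ∈ D ∧ x 2 ∈ Icc s t} (lay D s ∪ {x | pj3 x ∈ J ∧ x 2 ∈ Icc s t})
      (lay D t) (lay J t) := by
  have k0 : TP fun x : Rn 3 => mk3 (pj3 x) (-x 2) := tp_pj3.mk3 (TP.id'.apply 2).neg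
  have k : LH fun x : Rn 3 => mk3 (pj3 x) (-x 2) :=
    pa2_of_inv k0 k0 (fun x => by simp) fun x => by simp
  refine pm2_len (len_prism h (neg_lt_neg hst)) k (fun x => ?_) (fun x => ?_) (fun x => ?_)
    fun x => ?_ <;> simp only [lay, mem_union, mem_ofPred_eq, pj3_mk3, mk3_2, mem_Icc] <;> grind

theorem EDu_bij {R bR : Set (Rn 2)} {ψ : Rn 2 → Rn 2} (hψ : Mv (R \ bR) ψ) (I : Set ℝ) :
    BijOn (up ψ) {x | pj3 x ∈ R ∧ x 2 ∈ I} {x | pj3 x ∈ R ∧ x 2 ∈ I} := by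
  have k := (lp_up hψ.1).1
  have key : ∀ x, (pj3 (up ψ x) ∈ R ∧ up ψ x 2 ∈ I) ↔ pj3 x ∈ R ∧ x 2 ∈ I := fun x => by
    rw [up, pj3_mk3, mk3_2, ← hψ.1.inj.mem_set_image (s := R) (a := pj3 x),
      hψ.image_eq sdiff_subset]
  refine ⟨fun x hx => (key x).2 hx, k.inj.injOn, fun z hz => ?_⟩
  obtain ⟨x, rfl⟩ := k.1.2 z
  exact ⟨x, (key x).1 hz, rfl⟩

theorem ext3 {R bR : Set (Rn 2)} (h : Ball R bR) {ψ : Rn 2 → Rn 2} (hψ : Mv (R \ bR) ψ)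
    {s t η : ℝ} (hst : s < t) (hη : 0 < η) :
    ∃ Φ, Mv {x | pj3 x ∈ R \ bR ∧ s - η < x 2 ∧ x 2 < t + η} Φ ∧
      (∀ x, x 2 ∈ Icc s t → Φ x = up ψ x) ∧ (∀ x, t < x 2 → t < Φ x 2) ∧
      ∀ x, x 2 < s → Φ x 2 < s := by
  have l0 := len_prism h hst
  have l1 := EDu_prism h (sub_lt_self s hη)
  have l2 := len_prism h (lt_add_of_pos_right t hη)
  have l3 := len_prism h (show s - η < t + η by linarith)
  have hu := (lp_up hψ.1).1.tp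
  have fx : ∀ x, pj3 x ∉ R \ bR → up ψ x = x := fun x hx => by
    rw [up, hψ.2 _ hx, mk3_pj3]
  obtain ⟨Φ₁, a1, a2, a3, a4⟩ := EDu_fill l1 l1 hu (EDu_bij hψ {s})
    fun x hx => fx x fun k => k.2 hx.1
  obtain ⟨Φ₂, b1, b2, b3, b4⟩ := EDu_fill l2 l2 hu (EDu_bij hψ {t})
    fun x hx => fx x fun k => k.2 hx.1
  obtain ⟨k, k1, k2, k3⟩ := tp_glue l1.ball.poly l0.ball.poly a1 hu
    fun x hx => a3 ⟨hx.1.1, hx.1.2.2.antisymm hx.2.2.1⟩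
  obtain ⟨q, q1, q2, q3⟩ := tp_glue (l1.ball.poly.union l0.ball.poly) l2.ball.poly k1 b1 (by
    rintro x ⟨hx | hx, hy⟩
    · exact absurd (hy.2.1.trans hx.2.2) hst.not_ge
    · exact (k3 hx).trans (b3 ⟨hx.1, hx.2.2.antisymm hy.2.1⟩).symm)
  have c1 : ∀ x, pj3 x ∈ R → x 2 ∈ Icc (s - η) s → q x = Φ₁ x := fun x h1 h2 =>
    (q2 (Or.inl ⟨h1, h2⟩)).trans (k2 ⟨h1, h2⟩)
  have c0 : ∀ x, pj3 x ∈ R → x 2 ∈ Icc s t → q x = up ψ x := fun x h1 h2 =>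
    (q2 (Or.inr ⟨h1, h2⟩)).trans (k3 ⟨h1, h2⟩)
  have c2 : ∀ x, pj3 x ∈ R → x 2 ∈ Icc t (t + η) → q x = Φ₂ x := fun x h1 h2 => q3 ⟨h1, h2⟩
  have hq := p2d_bij (p2d_bij (f := q) (a2.congr fun x hx => (c1 x hx.1 hx.2).symm)
    ((EDu_bij hψ (Icc s t)).congr fun x hx => (c0 x hx.1 hx.2).symm) fun z hz => by
      obtain ⟨x, hx, e⟩ := (EDu_bij hψ {s}).surjOn ⟨hz.1.1, hz.1.2.2.antisymm hz.2.2.1⟩
      have e1 : x 2 = s := hx.2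
      have e2 : x 2 ∈ Icc s t := ⟨e1.ge, e1.le.trans hst.le⟩
      exact ⟨x, ⟨⟨hx.1, by linarith, e1.le⟩, hx.1, e2⟩, (c0 x hx.1 e2).trans e⟩)
    (b2.congr fun x hx => (c2 x hx.1 hx.2).symm) (by
      rintro z ⟨hz | hz, hy⟩
      · exact absurd (hy.2.1.trans hz.2.2) hst.not_ge
      obtain ⟨x, hx, e⟩ := (EDu_bij hψ {t}).surjOn ⟨hz.1, hz.2.2.antisymm hy.2.1⟩
      have e1 : x 2 = t := hx.2
      have e2 : x 2 ∈ Icc s t := ⟨hst.le.trans e1.ge, e1.le⟩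
      exact ⟨x, ⟨Or.inr ⟨hx.1, e2⟩, hx.1, e1.ge, by linarith⟩, (c0 x hx.1 e2).trans e⟩)
  have eU : {x : Rn 3 | pj3 x ∈ R ∧ x 2 ∈ Icc (s - η) s} ∪ {x | pj3 x ∈ R ∧ x 2 ∈ Icc s t} ∪
      {x | pj3 x ∈ R ∧ x 2 ∈ Icc t (t + η)} = {x | pj3 x ∈ R ∧ x 2 ∈ Icc (s - η) (t + η)} := by
    ext x
    simp only [mem_union, mem_ofPred_eq, mem_Icc]
    grind
  rw [eU] at hq
  obtain ⟨Φ, f1, f2⟩ := lh_patch l3.ball.poly q1 hq (by
    rw [l3.ball.frontier_eq]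
    rintro x ((hx | hx) | hx)
    · have e : x 2 = t + η := hx.2
      exact (c2 x hx.1 ⟨by linarith, e.le⟩).trans (b4 x (Or.inl hx))
    · have e := h.sub hx.1
      rcases le_total (x 2) s with h1 | h1
      · exact (c1 x e ⟨hx.2.1, h1⟩).trans (a4 x (Or.inr ⟨hx.1, hx.2.1, h1⟩))
      rcases le_total (x 2) t with h2 | h2
      · exact (c0 x e ⟨h1, h2⟩).trans (fx x fun k => k.2 hx.1)
      · exact (c2 x e ⟨h2, hx.2.2⟩).trans (b4 x (Or.inr ⟨hx.1, h2, hx.2.2⟩))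
    · have e : x 2 = s - η := hx.2
      exact (c1 x hx.1 ⟨e.ge, by linarith⟩).trans (a4 x (Or.inl hx)))
  rw [l3.ball.interior_eq] at f1
  have out : ∀ x, ¬ (pj3 x ∈ R ∧ x 2 ∈ Icc (s - η) (t + η)) → Φ x = x := fun x hx =>
    f1.2 x fun k => hx k.1
  refine ⟨Φ, f1.mono fun x hx => ⟨⟨hx.1.1, fun k => hx.2 (Or.inl (Or.inr ⟨k, hx.1.2⟩))⟩,
    hx.1.2.1.lt_of_ne fun k => hx.2 (Or.inr ⟨hx.1.1, k.symm⟩),
    hx.1.2.2.lt_of_ne fun k => hx.2 (Or.inl (Or.inl ⟨hx.1.1, k⟩))⟩, fun x hx => ?_,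
    fun x hx => ?_, fun x hx => ?_⟩
  · by_cases k : pj3 x ∈ R
    · exact (f2 ⟨k, by linarith [hx.1], by linarith [hx.2]⟩).trans (c0 x k hx)
    · rw [out x fun o => k o.1, fx x fun o => k o.1]
  · by_cases k : pj3 x ∈ R ∧ x 2 ∈ Icc (s - η) (t + η)
    · have e : x 2 ∈ Icc t (t + η) := ⟨hx.le, k.2.2⟩
      rw [f2 k, c2 x k.1 e]
      refine (b2.mapsTo ⟨k.1, e⟩).2.1.lt_of_ne fun o => ?_
      obtain ⟨y, hy, o'⟩ := (EDu_bij hψ {t}).surjOn ⟨(b2.mapsTo ⟨k.1, e⟩).1, o.symm⟩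
      have := b2.injOn (pthm_B' l2 hy) ⟨k.1, e⟩ ((b3 hy).trans o')
      exact hx.ne' (this ▸ hy.2)
    · rwa [out x k]
  · by_cases k : pj3 x ∈ R ∧ x 2 ∈ Icc (s - η) (t + η)
    · have e : x 2 ∈ Icc (s - η) s := ⟨k.2.1, hx.le⟩
      rw [f2 k, c1 x k.1 e]
      refine (a2.mapsTo ⟨k.1, e⟩).2.2.lt_of_ne fun o => ?_
      obtain ⟨y, hy, o'⟩ := (EDu_bij hψ {s}).surjOn ⟨(a2.mapsTo ⟨k.1, e⟩).1, o⟩
      have := a2.injOn (pthm_B' l1 hy) ⟨k.1, e⟩ ((a3 hy).trans o')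
      exact hx.ne (this ▸ hy.2)
    · rwa [out x k]

/-- An arc times an interval is a disc. -/
theorem pdsc_band {A : Set (Rn 2)} {a b : Rn 2} (h : Arc A a b) {s t : ℝ} (hst : s < t) :
    PDsc {x : Rn 3 | pj3 x ∈ A ∧ x 2 ∈ Icc s t}
      (lay A s ∪ lay A t ∪ {x | (pj3 x = a ∨ pj3 x = b) ∧ x 2 ∈ Icc s t}) := by
  obtain ⟨γ, h1, h2, rfl, rfl, rfl⟩ := h
  have hB := (ball_box (a := ![0, s]) (b := ![1, t])
    (Fin.forall_fin_two.2 ⟨zero_lt_one, hst⟩)).cel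
  have hm : ∀ p : Rn 2, p ∈ Icc ![0, s] ![1, t] ↔ p 0 ∈ Icc (0 : ℝ) 1 ∧ p 1 ∈ Icc s t :=
    fun p => by
      simp only [mem_Icc, Pi.le_def, Fin.forall_fin_two, Matrix.cons_val_zero, Matrix.cons_val_one]
      tauto
  have hg : TP fun p : Rn 2 => mk3 (γ (p 0)) (p 1) :=
    (h1.comp (TP.id'.apply 0)).mk3 (TP.id'.apply 1)
  have k := hB.image hg fun p hp q hq e => by
    have e1 : γ (p 0) = γ (q 0) := by simpa using congrArg pj3 e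
    exact funext (Fin.forall_fin_two.2 ⟨h2 ((hm p).1 hp).1 ((hm q).1 hq).1 e1, congrFun e 2⟩)
  have back : ∀ (x : Rn 3) (u : ℝ), γ u = pj3 x → mk3 (γ u) (x 2) = x := fun x u e => by
    rw [e, mk3_pj3]
  have z0 : (0 : ℝ) ∈ Icc (0 : ℝ) 1 := left_mem_Icc.2 zero_le_one
  have z1 : (1 : ℝ) ∈ Icc (0 : ℝ) 1 := right_mem_Icc.2 zero_le_one
  refine (congrArg₂ PDsc ?_ ?_).mp k
  · refine subset_antisymm ?_ fun x ⟨⟨u, hu, e⟩, hx⟩ =>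
      ⟨![u, x 2], (hm _).2 ⟨hu, hx⟩, back x u e⟩
    rintro _ ⟨p, hp, rfl⟩
    exact ⟨⟨p 0, ((hm p).1 hp).1, (pj3_mk3 _ _).symm⟩, ((hm p).1 hp).2⟩
  · refine subset_antisymm ?_ ?_
    · rintro _ ⟨p, ⟨hp, hj⟩, rfl⟩
      obtain ⟨p0, p1⟩ := (hm p).1 hp
      rcases Fin.exists_fin_two.1 hj with (e | e) | e | e
      · exact Or.inr ⟨Or.inl ((pj3_mk3 _ _).trans (congrArg γ e)), p1⟩
      · exact Or.inr ⟨Or.inr ((pj3_mk3 _ _).trans (congrArg γ e)), p1⟩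
      · exact Or.inl (Or.inl ⟨⟨p 0, p0, (pj3_mk3 _ _).symm⟩, e⟩)
      · exact Or.inl (Or.inr ⟨⟨p 0, p0, (pj3_mk3 _ _).symm⟩, e⟩)
    · rintro x ((⟨⟨u, hu, e⟩, hx⟩ | ⟨⟨u, hu, e⟩, hx⟩) | ⟨e | e, hx⟩)
      · exact ⟨![u, x 2], ⟨(hm _).2 ⟨hu, hx.ge, hx.le.trans hst.le⟩, 1, Or.inl hx⟩, back x u e⟩
      · exact ⟨![u, x 2], ⟨(hm _).2 ⟨hu, hst.le.trans hx.ge, hx.le⟩, 1, Or.inr hx⟩, back x u e⟩
      · exact ⟨![0, x 2], ⟨(hm _).2 ⟨z0, hx⟩, 0, Or.inl rfl⟩, back x 0 e.symm⟩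
      · exact ⟨![1, x 2], ⟨(hm _).2 ⟨z1, hx⟩, 0, Or.inr rfl⟩, back x 1 e.symm⟩

end BEp
end
end

-- merged part: Pool.Agent.Work.MP_f0515e_an.D3.EML
section
/-! The loop move in model coordinates (the wall is `|x 2| ≤ 1` over `R \ bR`).
`slideL`: the inverse map is `x ↦ update x 2 (min (ν (x 2)) (x 2 + ψ (pj3 x)))` (`lh_vert`), `ν` PL increasing, `ν t ≥ t`, identity off `(-1 - η, 1 + e + κ)`,
`ν (-1) = 1 + e + κ / 3`, `ν 1 = 1 + e + 2 κ / 3` (if `e + κ` is small this still has `ν ≥ id`), `ψ y = M * max 0 (min 1 ((r + κ - ‖y - c‖) / κ))` with `M` large.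
`moveL`: conjugate by `up Ψ⁻¹` (`Ψ` from `hR`) to get `R = closedBall 0 1` (`moveL0`). There: `s2` gives `ψ` with `ψ '' c = sphere c₀ r`, `ext3` with `s = -1`, `t = 1` (its support meets `bC` only
where it preserves the level `1`; it maps `C` to `C` and `bC` to `bC` since it preserves the union `A` of `C \ bC` and the part `1 < x 2` of its support, precisely: its support minus the slab
`x 2 ≤ 1` lies in `C \ bC`, the slab `|x 2| ≤ 1` and the lower collar are preserved; simplest is to replace `C`, `bC`, `E`, `Z`, `X` by their images, `Ball.image`).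
The cap `E₀` = lid and side of `closedBall c₀ r × [1, 1 + e]` is a disc (`len_prism`, `Len.pdsc`), `du3` moves `E` to `E₀`. The closed set `Z` is at distance `> κ` from `E₀`; a point of `X` in the
wall gives the point of `X ∩ C` at level `1` above it. Then `slideL`. About 400 lines. -/

open Set Metric Filter Topology Function BEv
open scoped NNReal

noncomputable section
namespace BEp

variable {n m : ℕ}

theorem EML_upd (x : Rn 3) (a : ℝ) : pj3 (update x 2 a) = pj3 x := by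
  ext i
  fin_cases i <;> rfl

theorem slideL {X : Set (Rn 3)} {c : Rn 2} {r κ e η : ℝ} (hr : 0 < r) (hκ : 0 < κ) (he : 0 < e)
    (hη : 0 < η) (h : ∀ x ∈ X, ‖pj3 x - c‖ < r + κ → -1 ≤ x 2 → x 2 < 1 + e + κ →
      ‖pj3 x - c‖ ≤ r ∧ x 2 ≤ 1 + e) :
    ∃ Φ, Mv {x | ‖pj3 x - c‖ < r + κ ∧ -1 - η < x 2 ∧ x 2 < 1 + e + κ} Φ ∧
      (∀ x, pj3 (Φ x) = pj3 x) ∧ ∀ x ∈ X, |Φ x 2| ≤ 1 → r + κ ≤ ‖pj3 x - c‖ := by
  obtain ⟨b, b0, b1, b2⟩ : ∃ b : ℝ, 0 < b ∧ b ≤ 1 ∧ b * (3 + e + κ) = κ :=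
    ⟨κ / (3 + e + κ), by positivity, (div_le_one (by positivity)).2 (by linarith),
      div_mul_cancel₀ _ (by positivity)⟩
  obtain ⟨A, A0, A1⟩ : ∃ A : ℝ, 0 < A ∧ A * η = 3 + e :=
    ⟨(3 + e) / η, by positivity, div_mul_cancel₀ _ hη.ne'⟩
  obtain ⟨M, M0, M1⟩ : ∃ M : ℝ, 0 < M ∧ M * κ = 3 + e :=
    ⟨(3 + e) / κ, by positivity, div_mul_cancel₀ _ hκ.ne'⟩
  let f : Rn 3 → ℝ := fun x => max (x 2) (min (min (x 2 + A * (x 2 + (1 + η)))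
    (1 + e + κ + b * (x 2 - (1 + e + κ)))) (x 2 + M * (r + κ - ‖pj3 x - c‖)))
  have t2 : TP fun x : Rn 3 => x 2 := TP.id'.apply 2
  have hG : LH fun x => update x 2 (f x) := by
    refine lh_vert 2 (t2.max (((t2.add ((t2.add (TP.const _)).const_mul A)).min
      ((TP.const _).add ((t2.sub (TP.const _)).const_mul b))).min (t2.add
        (((TP.const _).sub (tp_pj3.sub (TP.const c)).norm_pi).const_mul M)))) b0 fun x s t st => ?_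
    simp only [f, update_self, EML_upd]
    have k1 := mul_le_mul_of_nonneg_right b1 (sub_nonneg.2 st)
    have k2 := mul_nonneg A0.le (sub_nonneg.2 st)
    rw [le_sub_iff_add_le', ← max_add_add_right, ← min_add_add_right, ← min_add_add_right]
    exact max_le_max (by linarith) (min_le_min (min_le_min (by linarith) (by linarith)) (by linarith))
  have hM : Mv {x | ‖pj3 x - c‖ < r + κ ∧ -1 - η < x 2 ∧ x 2 < 1 + e + κ}
      fun x => update x 2 (f x) := by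
    refine ⟨hG, fun x hx => update_eq_self_iff.2 (max_eq_left ?_)⟩
    simp only [mem_ofPred_eq, not_and_or, not_lt] at hx
    rcases hx with k | k | k
    · exact (min_le_right _ _).trans (by nlinarith)
    · exact (min_le_left _ _).trans ((min_le_left _ _).trans (by nlinarith))
    · exact (min_le_left _ _).trans ((min_le_right _ _).trans (by nlinarith))
  have hp : ∀ x, pj3 (invFun (fun x => update x 2 (f x)) x) = pj3 x := fun x =>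
    (EML_upd _ _).symm.trans (congrArg pj3 (hG.ri x))
  refine ⟨_, hM.inv, hp, fun x hx k => le_of_not_gt fun k' => ?_⟩
  have e1 : f (invFun (fun x => update x 2 (f x)) x) = x 2 :=
    (update_self _ _ _).symm.trans (congrFun (hG.ri x) 2)
  simp only [f, hp] at e1
  obtain ⟨k1, k2⟩ := abs_le.1 k
  generalize invFun (fun x => update x 2 (f x)) x 2 = t at e1 k1 k2
  obtain ⟨k3, k4⟩ := h x hx k' (e1 ▸ k1.trans (le_max_left _ _)) (e1 ▸ max_lt (by linarith)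
    ((min_le_left _ _).trans_lt ((min_le_right _ _).trans_lt (by nlinarith))))
  exact k4.not_gt (e1 ▸ lt_max_of_lt_right
    (lt_min (lt_min (by nlinarith) (by nlinarith)) (by nlinarith)))

theorem EML_pre {G : Rn n → Rn n} (h : LH G) (A : Set (Rn n)) : invFun G '' A = G ⁻¹' A :=
  congrFun (image_eq_preimage_of_inverse h.ri h.li) A

theorem EML_mem {W W' : Set (Rn n)} {Φ : Rn n → Rn n} (h : Mv W Φ) (hW : W ⊆ W') {x : Rn n} :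
    Φ x ∈ W' ↔ x ∈ W' := by
  rw [← h.1.inj.mem_set_image (a := x), h.image_eq hW]

theorem EML_mv {X E Z C bC : Set (Rn 3)} {U : Set (Rn 2)} {c : Rn 2} {r η : ℝ} (hη : 0 < η)
    (hr : 0 < r) (hU : IsOpen U) (hs : closedBall c r ⊆ U) (hC : Ball C bC)
    (col : ∀ y ∈ U, ∀ t : ℝ, 1 < t → t ≤ 1 + η → mk3 y t ∈ C \ bC)
    (wc : ∀ y ∈ U, ∀ t : ℝ, |t| ≤ 1 → mk3 y t ∉ C \ bC)
    (hX : ∀ y ∈ U, ∀ s t : ℝ, |s| ≤ 1 → |t| ≤ 1 → mk3 y s ∈ X → mk3 y t ∈ X)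
    (hE : PDsc E (lay (sphere c r) 1)) (hEC : E ⊆ C) (hEb : E ∩ bC = lay (sphere c r) 1)
    (hZ : IsClosed Z) (hZE : Disjoint Z E) (hXC : X ∩ C ⊆ E ∪ Z) :
    ∃ Φ, Mv ((C \ bC) ∪ {x | pj3 x ∈ U ∧ |x 2| < 1 + η}) Φ ∧
      ∀ x ∈ X, pj3 (Φ x) ∈ U → |Φ x 2| ≤ 1 → pj3 x ∈ U ∧ |x 2| ≤ 1 ∧ pj3 x ∉ sphere c r ∧
        ∀ t : ℝ, |t| ≤ 1 → Φ (mk3 (pj3 x) t) = mk3 (pj3 (Φ x)) t := by
  have hP := (len_prism (ball_round c hr) (show (1 : ℝ) < 1 + η / 2 by linarith)).pdsc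
  set E₀ := lay (closedBall c r) (1 + η / 2) ∪ {x | pj3 x ∈ sphere c r ∧ x 2 ∈ Icc 1 (1 + η / 2)}
  have a1 : ∀ x ∈ E₀, pj3 x ∈ closedBall c r ∧ x 2 ≤ 1 + η / 2 := by
    rintro x (k | k)
    exacts [⟨k.1, k.2.le⟩, ⟨sphere_subset_closedBall k.1, k.2.2⟩]
  have a2 : ∀ x ∈ E₀, x ∈ lay (sphere c r) 1 ∨ x ∈ C \ bC := fun x k => by
    rcases le_or_gt (x 2) 1 with k1 | k1
    · rcases k with k | k
      · linarith [k.2]
      · exact Or.inl ⟨k.1, k1.antisymm k.2.1⟩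
    · exact Or.inr (mk3_pj3 x ▸ col _ (hs (a1 x k).1) _ k1 (by linarith [(a1 x k).2]))
  obtain ⟨Φ, h1, h2⟩ := du3 hC hE hP hEC
    (fun x k => (a2 x k).elim (fun k => hEC (hEb.ge k).1) fun k => k.1) hEb
    (Subset.antisymm (fun x k => (a2 x k.1).resolve_right fun k' => k'.2 k.2)
      fun x k => ⟨hP.sub k, (hEb.ge k).2⟩)
  let g : Rn 3 → ℝ := fun x => max (‖pj3 x - c‖ - r) (x 2 - (1 + η / 2))
  have cg : Continuous g := (((tp_pj3.continuous.sub continuous_const).norm.sub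
    continuous_const).max ((continuous_apply 2).sub continuous_const))
  have hK : IsCompact (invFun Φ ⁻¹' Z ∩ {x | 1 ≤ x 2 ∧ 0 ≤ g x ∧ g x ≤ 1}) := by
    refine (isCompact_closedBall (mk3 c 0) (r + η + 2)).of_isClosed_subset
      ((hZ.preimage h1.1.tpi.continuous).inter ((isClosed_le continuous_const
        (continuous_apply 2)).inter ((isClosed_le continuous_const cg).inter
          (isClosed_le cg continuous_const)))) fun x k => ?_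
    obtain ⟨k1, k2⟩ := max_le_iff.1 k.2.2.2
    have k3 := k.2.1
    rw [mem_closedBall_iff_norm, ← mk3_pj3 x, ASl_sub, norm_mk3]
    exact max_le (by linarith) (abs_le.2 ⟨by linarith, by linarith⟩)
  obtain ⟨κ₁, κ1, hκ₁⟩ := hK.exists_forall_le' cg.continuousOn (a := 0) fun x k => by
    refine k.2.2.1.lt_of_ne fun k0 => disjoint_left.1 hZE k.1 ?_
    obtain ⟨k1, k2⟩ := max_le_iff.1 k0.ge
    rw [← h1.1.inj.mem_set_image, h2, h1.1.ri]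
    rcases max_choice (‖pj3 x - c‖ - r) (x 2 - (1 + η / 2)) with k3 | k3
    · exact Or.inr ⟨mem_sphere_iff_norm.2 (sub_eq_zero.1 (k3.symm.trans k0.symm)), k.2.1,
        sub_nonpos.1 k2⟩
    · exact Or.inl ⟨mem_closedBall_iff_norm.2 (sub_nonpos.1 k1),
        sub_eq_zero.1 (k3.symm.trans k0.symm)⟩
  obtain ⟨κ₂, κ2, hκ₂⟩ := (isCompact_closedBall c r).exists_thickening_subset_open hU hs
  rw [thickening_closedBall κ2 hr.le] at hκ₂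
  obtain ⟨κ, κ0, b1, b2, b3, b4⟩ : ∃ κ : ℝ, 0 < κ ∧ κ ≤ κ₁ ∧ κ ≤ κ₂ ∧ κ ≤ 1 ∧ κ ≤ η / 2 :=
    ⟨min (min κ₁ κ₂) (min 1 (η / 2)), by positivity, (min_le_left _ _).trans (min_le_left _ _),
      (min_le_left _ _).trans (min_le_right _ _), (min_le_right _ _).trans (min_le_left _ _),
      (min_le_right _ _).trans (min_le_right _ _)⟩
  have a3 : ∀ y, ‖y - c‖ < r + κ → y ∈ U := fun y k => hκ₂ (mem_ball_iff_norm.2 (by linarith))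
  have a4 : ∀ x ∈ X, Φ x ∈ C → 1 ≤ Φ x 2 → g (Φ x) < κ → g (Φ x) ≤ 0 := fun x k1 k2 k3 k4 => by
    rcases hXC ⟨k1, (EML_mem h1 sdiff_subset).1 k2⟩ with k | k
    · obtain ⟨k5, k6⟩ := a1 _ (h2.le (mem_image_of_mem Φ k))
      exact max_le (sub_nonpos.2 (mem_closedBall_iff_norm.1 k5)) (sub_nonpos.2 k6)
    · refine le_of_not_gt fun k5 => ?_
      linarith [hκ₁ (Φ x) ⟨by rwa [mem_preimage, h1.1.li], k3, k5.le, by linarith⟩]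
  have a5 : ∀ x, pj3 (Φ x) ∈ U → |Φ x 2| ≤ 1 → Φ x = x := fun x k1 k2 =>
    h1.2 x fun k => wc _ k1 _ k2 ((mk3_pj3 (Φ x)).symm ▸ (EML_mem h1 subset_rfl).2 k)
  obtain ⟨Ψ, h3, h4, h5⟩ := slideL (X := Φ '' X) (c := c) hr κ0 (half_pos hη) hη (by
    rintro _ ⟨x, hx, rfl⟩ k1 k2 k3
    have k4 := a3 _ k1
    rcases le_or_gt (Φ x 2) 1 with k | k
    · have k5 := abs_le.2 ⟨k2, k⟩
      have k6 := h1.2 _ (wc _ k4 1 abs_one.le)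
      have k7 : mk3 (pj3 (Φ x)) 1 ∈ C := hC.poly.1.isClosed.mem_of_tendsto
        (((TP.const (pj3 (Φ x))).mk3 TP.id').continuous.continuousAt.mono_left (nhdsWithin_le_nhds (s := Ioi 1)))
        (mem_of_superset (Ioc_mem_nhdsGT (lt_add_of_pos_right 1 hη)) fun t ht =>
          (col _ k4 t ht.1 ht.2).1)
      have k8 := a4 _ (hX _ k4 _ 1 k5 abs_one.le (by rwa [mk3_pj3, a5 x k4 k5])) (k6.symm ▸ k7)
        (k6.symm ▸ le_rfl) (k6.symm ▸ max_lt (by rw [pj3_mk3]; linarith) (by rw [mk3_2]; linarith))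
      rw [k6] at k8
      exact ⟨by simpa only [pj3_mk3, sub_nonpos] using (max_le_iff.1 k8).1, by linarith⟩
    · have k5 := max_le_iff.1 (a4 x hx (mk3_pj3 (Φ x) ▸ col _ k4 _ k (by linarith)).1 k.le
        (max_lt (by linarith) (by linarith)))
      exact ⟨sub_nonpos.1 k5.1, sub_nonpos.1 k5.2⟩)
  refine ⟨Ψ ∘ Φ, (h3.mono fun x k => Or.inr ⟨a3 _ k.1, abs_lt.2 ⟨by linarith [k.2.1],
    by linarith [k.2.2]⟩⟩).comp (h1.mono subset_union_left), fun x hx k1 k2 => ?_⟩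
  have k3 := h5 _ (mem_image_of_mem Φ hx) k2
  have k4 := h3.2 _ fun k => k3.not_gt k.1
  rw [comp_apply, k4] at k1 k2 ⊢
  have k5 := a5 x k1 k2
  rw [k5] at k1 k2 k3 ⊢
  refine ⟨k1, k2, fun k => by linarith [mem_sphere_iff_norm.1 k], fun t ht => ?_⟩
  rw [comp_apply, h1.2 _ (wc _ k1 t ht), h3.2 _ fun k => k3.not_gt (pj3_mk3 (pj3 x) t ▸ k.1)]

theorem moveL {X E Z C bC : Set (Rn 3)} {R bR c : Set (Rn 2)} {η : ℝ} (hη : 0 < η)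
    (hR : Ball R bR) (hC : Ball C bC)
    (col : ∀ y ∈ R \ bR, ∀ t : ℝ, 1 < t → t ≤ 1 + η → mk3 y t ∈ C \ bC)
    (wc : ∀ y ∈ R \ bR, ∀ t : ℝ, |t| ≤ 1 → mk3 y t ∉ C \ bC)
    (hX : ∀ y ∈ R \ bR, ∀ s t : ℝ, |s| ≤ 1 → |t| ≤ 1 → mk3 y s ∈ X → mk3 y t ∈ X)
    (hc : Crc c) (hs : c ⊆ R \ bR) (hE : PDsc E (lay c 1)) (hEC : E ⊆ C)
    (hEb : E ∩ bC = lay c 1) (hZ : IsClosed Z) (hZE : Disjoint Z E) (hXC : X ∩ C ⊆ E ∪ Z) :
    ∃ Φ, Mv ((C \ bC) ∪ {x | pj3 x ∈ R \ bR ∧ |x 2| < 1 + η}) Φ ∧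
      ∀ x ∈ X, pj3 (Φ x) ∈ R \ bR → |Φ x 2| ≤ 1 → pj3 x ∈ R \ bR ∧ |x 2| ≤ 1 ∧ pj3 x ∉ c ∧
        ∀ t : ℝ, |t| ≤ 1 → Φ (mk3 (pj3 x) t) = mk3 (pj3 (Φ x)) t := by
  have hU : IsOpen (R \ bR) := hR.interior_eq ▸ isOpen_interior
  obtain ⟨Ψ, hΨ, rfl, rfl⟩ := hR
  rw [PCel.diff_eq hΨ.inj.injOn] at *
  obtain ⟨ψ, c₀, r, h1, hr, h2, h3⟩ := s2 (hc.image hΨ.tpi hΨ.inv.inj.injOn) isOpen_ball
    (convex_ball 0 1) (EML_pre hΨ c ▸ fun y k => hΨ.inj.mem_set_image.1 (hs k))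
  have hΘ := hΨ.comp h1.1.inv
  have e1 : (Ψ ∘ invFun ψ) ⁻¹' c = sphere c₀ r := by
    rw [← h3, EML_pre hΨ, preimage_comp, ← EML_pre h1.1.inv, h1.1.inv_inv]
  have e2 : closedBall c₀ r ⊆ (Ψ ∘ invFun ψ) ⁻¹' (Ψ '' ball 0 1) := fun y k =>
    mem_image_of_mem Ψ ((EML_mem h1.inv subset_rfl).2 (h2 k))
  generalize Ψ ∘ invFun ψ = Θ at hΘ e1 e2
  generalize Ψ '' ball 0 1 = U at *
  have hG := (lp_up hΘ).1
  have u1 : ∀ y t, up Θ (mk3 y t) = mk3 (Θ y) t := fun y t => by rw [up, pj3_mk3, mk3_2]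
  have u2 : ∀ x, pj3 (up Θ x) = Θ (pj3 x) := fun x => pj3_mk3 _ _
  have e3 : up Θ ⁻¹' lay c 1 = lay (sphere c₀ r) 1 := Set.ext fun x =>
    and_congr_left' (by rw [u2, ← e1, mem_preimage])
  have hE' := hE.image hG.tpi hG.inv.inj.injOn
  have hC' := hC.image hG.inv
  rw [EML_pre hG, EML_pre hG] at hE' hC'
  obtain ⟨Φ, h4, h5⟩ := EML_mv (X := up Θ ⁻¹' X) (Z := up Θ ⁻¹' Z) hη hr
    (hU.preimage hΘ.tp.continuous) e2 hC' (fun y k t a b => by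
      rw [← preimage_sdiff, mem_preimage, u1]
      exact col _ k t a b)
    (fun y k t a b => wc _ k t a (u1 y t ▸ b))
    (fun y k s t a b d => by
      rw [mem_preimage, u1] at d ⊢
      exact hX _ k s t a b d) (e3 ▸ hE')
    (preimage_mono hEC) (by rw [← preimage_inter, hEb, e3]) (hZ.preimage hG.tp.continuous)
    (hZE.preimage _) fun x k => hXC k
  refine ⟨_, (h4.conj hG).mono ?_, fun x hx k1 k2 => ?_⟩
  · rintro _ ⟨x, k | k, rfl⟩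
    exacts [Or.inl k, Or.inr ⟨(u2 x).symm ▸ k.1, k.2⟩]
  obtain ⟨x, rfl⟩ := hG.1.2 x
  simp only [comp_apply, hG.li, u2] at k1 k2 ⊢
  obtain ⟨k3, k4, k5, k6⟩ := h5 x hx k1 k2
  exact ⟨k3, k4, fun k => k5 (e1.le k), fun t ht => by rw [← u1, hG.li, k6 t ht, u1]⟩

end BEp
end
end
end
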