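import Pool.Agent.Work.MP_f0515e_an.D3.FBd

-- merged part: Pool.Agent.Work.MP_f0515e_an.D3.FCone1
section
/-! The model trapezoid and its position in a face. -/

open Set Metric Filter Topology Function BEv
open scoped NNReal

noncomputable section
namespace BEp

section Model
variable {Φ : Rn 3 → Rn 3} {p q : Rn 3} {γ : ℝ → Rn 3} {y u : Rn 2}

theorem gauge_r0g : Gauge r0g := by
  refine ⟨((TP.id'.apply 0).abs.add (TP.id'.apply 1).abs).max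
    (TP.const_mul 2 (TP.id'.apply 1).abs), fun ξ t ht => ?_, 1, one_pos, fun ξ => ?_⟩
  · simp [r0g, abs_mul, abs_of_nonneg ht, mul_max_of_nonneg _ _ ht, mul_add, mul_left_comm]
  · have a := abs_nonneg (ξ 0)
    have b := abs_nonneg (ξ 1)
    rw [one_mul, r0g, pi_norm_le_iff_of_nonneg (le_max_of_le_left (add_nonneg a b)),
      Fin.forall_fin_two]
    exact ⟨le_max_of_le_left (le_add_of_nonneg_right b),
      le_max_of_le_left (le_add_of_nonneg_left a)⟩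

theorem poly_trap : Poly trap := by
  convert poly_le (Poly.closedBall (0 : Rn 2) 1) (((TP.id'.apply 0).neg.max
    (TP.id'.apply 1).neg).max (gauge_r0g.tp.sub (TP.const 1))) using 1
  ext x
  simp only [trap, mem_ofPred_eq, max_le_iff, neg_nonpos, sub_nonpos, mem_closedBall_zero_iff,
    and_assoc]
  refine ⟨fun h => ⟨?_, h⟩, And.right⟩
  have a := abs_nonneg (x 0)
  have b := abs_nonneg (x 1)
  have c := (le_max_left _ _).trans h.2.2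
  rw [pi_norm_le_iff_of_nonneg zero_le_one, Fin.forall_fin_two, Real.norm_eq_abs,
    Real.norm_eq_abs]
  constructor <;> linarith

theorem tp_tch (v m o : Rn 3) : TP (tch v m o) := by
  exact ((TP.const v).add ((TP.id'.apply 0).smul_const _)).add ((TP.id'.apply 1).smul_const _)

theorem tp_farp (p q : Rn 3) (hγ : TP γ) : TP (farp p q γ) := by
  exact ((TP.const p).add (((TP.const_mul 2 (TP.id'.apply 1)).min (TP.const 1)).smul_const _)).add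
    ((hγ.comp ((TP.const 1).sub ((TP.const_mul 2 (TP.id'.apply 0)).min (TP.const 1)))).sub
      (TP.const _))

/-- `plc_tp` with `v = 0`, `u = 1`:
`r • P (y / r) = (P 0 + r • (P (y / r) - P 0)) - P 0 + r • P 0`. -/
theorem tp_cfl (hΦ : LH Φ) (p q : Rn 3) (hγ : TP γ) : TP (cfl Φ p q γ) := by
  convert hΦ.tp.comp (((plc_tp (v := 0) gauge_r0g (hΦ.tpi.comp (tp_farp p q hγ)) one_pos).sub
    (TP.const (invFun Φ (farp p q γ 0)))).add
      (gauge_r0g.tp.smul_const (invFun Φ (farp p q γ 0)))) using 1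
  funext y
  simp [cfl, smul_sub]

theorem trap_polar (hy : y ∈ trap) :
    ∃ u ∈ trap, r0g u = 1 ∧ y = r0g y • u ∧ 0 ≤ r0g y ∧ r0g y ≤ 1 := by
  have h0 : 0 ≤ r0g y := le_max_of_le_right (by positivity)
  rcases h0.eq_or_lt with k | k
  · obtain ⟨κ, hκ, h⟩ := gauge_r0g.low
    have := h y
    refine ⟨![1, 0], by simp [trap, r0g], by simp [r0g], ?_, h0, hy.2.2⟩
    rw [← k] at this ⊢
    rw [zero_smul, ← norm_le_zero_iff]
    exact nonpos_of_mul_nonpos_right this hκ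
  · have a := inv_nonneg.2 h0
    have b : r0g ((r0g y)⁻¹ • y) = 1 := by rw [gauge_r0g.hom _ _ a, inv_mul_cancel₀ k.ne']
    exact ⟨_, ⟨mul_nonneg a hy.1, mul_nonneg a hy.2.1, b.le⟩, b, (smul_inv_smul₀ k.ne' y).symm, h0,
      hy.2.2⟩

theorem cfl_polar (Φ : Rn 3 → Rn 3) (p q : Rn 3) (γ : ℝ → Rn 3) {r : ℝ} (hr : 0 ≤ r)
    (hu : r0g u = 1) : cfl Φ p q γ (r • u) = Φ (r • invFun Φ (farp p q γ u)) := by
  rw [cfl, gauge_r0g.hom _ _ hr, hu, mul_one]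
  rcases eq_or_ne r 0 with rfl | k
  · rw [zero_smul, zero_smul]
  · rw [inv_smul_smul₀ k]

theorem fna_r (h0 : 0 ≤ y 0) (h1 : 0 ≤ y 1) : r0g y = max (y 0 + y 1) (2 * y 1) := by
  rw [r0g, abs_of_nonneg h0, abs_of_nonneg h1]

theorem far_cases (hu : u ∈ trap) (h1 : r0g u = 1) (p : Rn 3) (h0 : γ 0 = q) :
    (u 0 + u 1 = 1 ∧ u 1 < 1 / 2 ∧ farp p q γ u = p + (2 * u 1) • (q - p)) ∨
      (u 1 = 1 / 2 ∧ u 0 ≤ 1 / 2 ∧ farp p q γ u = γ (1 - 2 * u 0)) := by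
  rw [fna_r hu.1 hu.2.1] at h1
  have a := (le_max_left _ _).trans h1.le
  have b := (le_max_right _ _).trans h1.le
  rcases b.lt_or_eq with k | k
  · have c : u 0 + u 1 = 1 := ((max_choice _ _).imp h1.symm.trans h1.symm.trans).elim Eq.symm
      fun e => (k.ne' e).elim
    refine .inl ⟨c, by linarith, ?_⟩
    rw [farp, min_eq_left b, min_eq_right (by linarith), sub_self, sub_self, add_zero]
  · refine .inr ⟨by linarith, by linarith, ?_⟩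
    rw [farp, k, min_self, min_eq_left (by linarith), h0]
    module

theorem trap_le (hy : y ∈ trap) : 0 ≤ y 0 ∧ 0 ≤ y 1 ∧ y 0 + y 1 ≤ 1 ∧ y 1 ≤ 1 / 2 := by
  have h := hy.2.2
  rw [fna_r hy.1 hy.2.1, max_le_iff] at h
  exact ⟨hy.1, hy.2.1, h.1, by linarith [h.2]⟩

theorem mem_trap (h0 : 0 ≤ y 0) (h1 : 0 ≤ y 1) (h2 : y 0 + y 1 ≤ 1) (h3 : y 1 ≤ 1 / 2) :
    y ∈ trap ∧ (r0g y = 1 ↔ y 0 + y 1 = 1 ∨ y 1 = 1 / 2) := by
  refine ⟨⟨h0, h1, fna_r h0 h1 ▸ max_le h2 (by linarith)⟩, ?_⟩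
  rw [fna_r h0 h1, max_eq_iff]
  exact ⟨fun h => h.imp And.left fun k => by linarith [k.1],
    fun h => h.imp (fun k => ⟨k, by linarith⟩) fun k => ⟨by linarith, by linarith⟩⟩

end Model

section Face
variable {Ω : Set (Rn 3)} {K : Kx Ω} {c σ τ : Set (Rn 3)} {μ : Set (Rn 3) → Rn 3} {v w o x : Rn 3}
  {y y' : Rn 2}

/-- Polar coordinates about `o` of a point of a trapezoid. -/
theorem tch_polar (hy : y ∈ trap) (v m o : Rn 3) : ∃ z ∈ segment ℝ v m,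
    z = v + (y 0 / (1 - y 1)) • (m - v) ∧ tch v m o y = o + (1 - y 1) • (z - o) := by
  obtain ⟨a0, a1, a2, a3⟩ := trap_le hy
  have d : 0 < 1 - y 1 := by linarith
  refine ⟨_, ?_, rfl, ?_⟩
  · rw [segment_eq_image']
    exact ⟨_, ⟨div_nonneg a0 d.le, (div_le_one d).2 (by linarith)⟩, rfl⟩
  · rw [tch, add_sub_right_comm, smul_add, smul_smul, mul_div_cancel₀ _ d.ne']
    module

theorem tch_mem (hc : c ∈ K.cel 2) (ho : o ∈ c) (hμ : ∀ s ∈ K.cel 1, μ s ∈ s) (h : K.Fc c v σ)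
    (hy : y ∈ trap) : tch v (μ σ) o y ∈ closure c := by
  obtain ⟨-, a1, -, a3⟩ := trap_le hy
  obtain ⟨z, hz, -, e⟩ := tch_polar hy v (μ σ) o
  rw [e]
  exact (Kx.cells_cvx hc.1).closure.add_smul_sub_mem (subset_closure ho)
    ((k_rb hc hμ).2 ⟨v, σ, h, hz⟩).1 ⟨by linarith, by linarith⟩

theorem fnb_vx (h : K.Fl v σ) (hτ : τ ∈ K.cel 1) : v ∉ τ := fun k => by
  have := hτ.2
  rw [← Kx.cell_eq hτ.1 k, h.2.1, KA2_single] at this
  exact zero_ne_one this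

/-- `k_radial_uniq` gives the same second coordinate and the same point of `rb c`; then `k_half`,
`Kx.disj`, `k_opp`. -/
theorem tch_eq (hc : c ∈ K.cel 2) (ho : o ∈ c) (hμ : ∀ s ∈ K.cel 1, μ s ∈ s) (h : K.Fc c v σ)
    (h' : K.Fc c w τ) (hy : y ∈ trap) (hy' : y' ∈ trap)
    (e : tch v (μ σ) o y = tch w (μ τ) o y') :
    y = y' ∧ ((v = w ∧ (σ = τ ∨ y 0 = 0)) ∨ (σ = τ ∧ y 0 + y 1 = 1)) := by
  obtain ⟨a0, a1, a2, a3⟩ := trap_le hy
  obtain ⟨b0, b1, b2, b3⟩ := trap_le hy'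
  obtain ⟨z, hz, e1, e2⟩ := tch_polar hy v (μ σ) o
  obtain ⟨z', hz', e1', e2'⟩ := tch_polar hy' w (μ τ) o
  have d : 0 < 1 - y 1 := by linarith
  obtain ⟨k1, rfl⟩ := k_radial_uniq hc ho ((k_rb hc hμ).2 ⟨v, σ, h, hz⟩)
    ((k_rb hc hμ).2 ⟨w, τ, h', hz'⟩) d (by linarith)
    (add_left_cancel (e2.symm.trans (e.trans e2')))
  rw [← k1] at e1'
  have m1 := hμ σ h.1.cel
  have m2 := hμ τ h'.1.cel
  have n1 := sub_ne_zero.2 (k_ne h.1 m1)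
  have n2 := sub_ne_zero.2 (k_ne h'.1 m2)
  suffices k : y 0 = y' 0 ∧ _ from ⟨funext (Fin.forall_fin_two.2 ⟨k.1, by linarith⟩), k.2⟩
  rcases k_half h.1 m1 hz with k2 | k2 <;> rcases k_half h'.1 m2 hz' with k3 | k3
  · have z1 := (div_eq_zero_iff.1 ((smul_eq_zero.1
      (left_eq_add.1 (k2.symm.trans e1))).resolve_right n1)).resolve_right d.ne'
    have z2 := (div_eq_zero_iff.1 ((smul_eq_zero.1
      (left_eq_add.1 (k3.symm.trans e1'))).resolve_right n2)).resolve_right d.ne'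
    exact ⟨z1.trans z2.symm, Or.inl ⟨k2.symm.trans k3, Or.inr z1⟩⟩
  · exact absurd (k2 ▸ k3) (fnb_vx h.1 h'.1.cel)
  · exact absurd (k3 ▸ k2) (fnb_vx h'.1 h.1.cel)
  obtain rfl : σ = τ := by_contra fun k => disjoint_left.1 (Kx.disj h.1.cel.1 h'.1.cel.1 k) k2 k3
  by_cases k4 : v = w
  · subst k4
    exact ⟨(div_left_inj' d.ne').1 (smul_left_injective ℝ n1 (add_left_cancel (e1.symm.trans e1'))),
      Or.inl ⟨rfl, Or.inl rfl⟩⟩
  obtain ⟨a, ha, k5⟩ := k_opp h.1 h'.1 k4 m1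
  have k6 : (1 - y 0 / (1 - y 1) + (1 - y' 0 / (1 - y 1)) * a) • (μ σ - v) = 0 := by
    linear_combination (norm := module) e1 - e1' + (1 - y' 0 / (1 - y 1)) • k5
  obtain ⟨k7, k8⟩ := (add_eq_zero_iff_of_nonneg (sub_nonneg.2 ((div_le_one d).2 (by linarith)))
    (mul_nonneg (sub_nonneg.2 ((div_le_one d).2 (by linarith))) ha.le)).1
    ((smul_eq_zero.1 k6).resolve_right n1)
  have z1 := (div_eq_one_iff_eq d.ne').1 (sub_eq_zero.1 k7).symm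
  have z2 := (div_eq_one_iff_eq d.ne').1
    (sub_eq_zero.1 ((mul_eq_zero.1 k8).resolve_right ha.ne')).symm
  exact ⟨z1.trans z2.symm, Or.inr ⟨rfl, by linarith⟩⟩

theorem tch_cover (hc : c ∈ K.cel 2) (ho : o ∈ c) (hμ : ∀ s ∈ K.cel 1, μ s ∈ s)
    (hx : x ∈ closure c) :
    x ∈ inn c o ∨ ∃ v σ, K.Fc c v σ ∧ ∃ y ∈ trap, x = tch v (μ σ) o y := by
  obtain ⟨z, hz, t, ⟨t0, t1⟩, rfl⟩ := k_radial hc ho hx
  rcases le_total t (1 / 2) with k | k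
  · refine Or.inl ⟨_, (Kx.cells_cvx hc.1).closure.add_smul_sub_mem (subset_closure ho) hz.1
      (t := 2 * t) ⟨by linarith, by linarith⟩, ?_⟩
    beta_reduce
    module
  · obtain ⟨v, σ, h, hs⟩ := (k_rb hc hμ).1 hz
    rw [segment_eq_image'] at hs
    obtain ⟨s, ⟨s0, s1⟩, rfl⟩ := hs
    have := mul_le_of_le_one_right t0 s1
    refine Or.inr ⟨v, σ, h, ![t * s, 1 - t], (mem_trap (mul_nonneg t0 s0) (sub_nonneg.2 t1)
      (show t * s + (1 - t) ≤ 1 by linarith) (show 1 - t ≤ 1 / 2 by linarith)).1, ?_⟩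
    change _ = v + (t * s) • (μ σ - v) + (1 - t) • (o - v)
    beta_reduce
    module

theorem tch_inn (hc : c ∈ K.cel 2) (ho : o ∈ c) (hμ : ∀ s ∈ K.cel 1, μ s ∈ s) (h : K.Fc c v σ)
    (hy : y ∈ trap) : tch v (μ σ) o y ∈ inn c o ↔ y 1 = 1 / 2 := by
  obtain ⟨-, -, -, a3⟩ := trap_le hy
  obtain ⟨z, hz, -, e⟩ := tch_polar hy v (μ σ) o
  have k := (k_rb hc hμ).2 ⟨v, σ, h, hz⟩
  rw [e]
  refine ⟨fun ⟨x, hx, e'⟩ => a3.antisymm (not_lt.1 fun l => k.2 ?_), fun e' => ⟨z, k.1, ?_⟩⟩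
  · exact fkb_lt hc ho hx one_half_pos.le (by linarith) (add_left_cancel e')
  · rw [e', sub_half]

theorem tch_rb (hc : c ∈ K.cel 2) (hμ : ∀ s ∈ K.cel 1, μ s ∈ s) (o : Rn 3) :
    x ∈ rb c ↔ ∃ v σ, K.Fc c v σ ∧ ∃ y ∈ trap, y 1 = 0 ∧ x = tch v (μ σ) o y := by
  rw [k_rb hc hμ]
  refine exists₂_congr fun v σ => and_congr_right fun _ => ⟨fun hs => ?_, fun ⟨y, hy, y1, e⟩ => ?_⟩
  · rw [segment_eq_image'] at hs
    obtain ⟨s, ⟨s0, s1⟩, rfl⟩ := hs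
    refine ⟨![s, 0], (mem_trap s0 le_rfl ((add_zero s).trans_le s1) one_half_pos.le).1, rfl, ?_⟩
    exact ((congrArg _ (zero_smul ℝ _)).trans (add_zero _)).symm
  · obtain ⟨z, hz, -, e'⟩ := tch_polar hy v (μ σ) o
    rwa [e, e', y1, sub_zero, one_smul, add_sub_cancel]

theorem inn_sub (hc : c ∈ K.cel 2) (ho : o ∈ c) : IsCompact (inn c o) ∧ inn c o ⊆ c := by
  refine ⟨(Kx.cells_poly hc.1).1.image (by fun_prop), ?_⟩
  rintro _ ⟨z, hz, rfl⟩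
  exact fkb_lt hc ho hz one_half_pos.le one_half_lt_one (by rw [one_smul, add_sub_cancel_left])

end Face

end BEp
end
end

-- merged part: Pool.Agent.Work.MP_f0515e_an.D3.FCone2
section
/-! The cones over the far arcs. -/

open Set Metric Filter Topology Function BEv
open scoped NNReal

noncomputable section
namespace BEp

/-- The data round a face. -/
structure CnD {Ω : Set (Rn 3)} (K : Kx Ω) (f : Rn 3 → Rn 3) (b : BdD) (η : Set (Rn 3) → ℝ)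
    (M' N : Set (Rn 3) → Rn 3 ≃L[ℝ] Rn 3) (h : Set (Rn 3) → Rn 3 × ℝ → Rn 3) (c : Set (Rn 3))
    (q : Set (Rn 3) → Rn 3) (z : Rn 3 → Rn 3) (γ : Rn 3 → Set (Rn 3) → ℝ → Rn 3)
    (ψ : Rn 3 → Rn 3 → Rn 3) (H : Rn 3 → Rn 3 × ℝ → Rn 3) : Prop where
  hi : InjOn f Ω
  hb : Bead K f b
  R : ∀ σ ∈ K.cel 1, RadK K (b.m σ) σ (η σ)
  E : ∀ σ ∈ K.cel 1, Edg K f b σ (η σ) (M' σ) (N σ) (h σ)
  L : Lnk K f b M' c q z γ ψ H

variable {Ω : Set (Rn 3)} {K : Kx Ω} {f : Rn 3 → Rn 3} {b : BdD} {η : Set (Rn 3) → ℝ}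
  {M' N : Set (Rn 3) → Rn 3 ≃L[ℝ] Rn 3} {h : Set (Rn 3) → Rn 3 × ℝ → Rn 3} {c : Set (Rn 3)}
  {q : Set (Rn 3) → Rn 3} {z : Rn 3 → Rn 3} {γ : Rn 3 → Set (Rn 3) → ℝ → Rn 3}
  {ψ : Rn 3 → Rn 3 → Rn 3} {H : Rn 3 → Rn 3 × ℝ → Rn 3} {v w : Rn 3} {σ τ : Set (Rn 3)}
  {u u' y y' : Rn 2}

/-- The far point is on a radius of the small square or on the link arc (`far_cases`). -/
theorem CnD.far (D : CnD K f b η M' N h c q z γ ψ H) (F : K.Fc c v σ) (hu : u ∈ trap)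
    (h1 : r0g u = 1) : farp (b.p f σ) (q σ) (γ v σ) u ∈ b.S v ∧
      ((u 0 + u 1 = 1 ∧ u 1 < 1 / 2 ∧
        ‖co (b.p f σ) (M' σ) (farp (b.p f σ) (q σ) (γ v σ) u)‖ = 2 * u 1) ∨
      (u 1 = 1 / 2 ∧ farp (b.p f σ) (q σ) (γ v σ) u ∈ hov K f b M' v)) := by
  obtain ⟨k0, k1, -, -⟩ := trap_le hu
  obtain ⟨q1, q2⟩ := D.L.qm v σ F
  rcases far_cases hu h1 (b.p f σ) (D.L.g0 v σ F) with ⟨a1, a2, a3⟩ | ⟨a1, a2, a3⟩
  · have e : co (b.p f σ) (M' σ) (farp (b.p f σ) (q σ) (γ v σ) u) =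
        (2 * u 1) • co (b.p f σ) (M' σ) (q σ) := by
      rw [a3, co, co, add_sub_cancel_left, map_smul]
    have n : ‖co (b.p f σ) (M' σ) (farp (b.p f σ) (q σ) (γ v σ) u)‖ = 2 * u 1 := by
      rw [e, norm_smul, q1, mul_one, Real.norm_of_nonneg (by linarith)]
    refine ⟨?_, Or.inl ⟨a1, a2, n⟩⟩
    have k := ((D.E σ F.1.cel).flt v F.1 _ (n.trans_le (by linarith))).2
      (by rw [e, Pi.smul_apply, q2, smul_zero])
    rwa [co, ContinuousLinearEquiv.apply_symm_apply, add_sub_cancel] at k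
  · have k := D.L.mem v σ F (1 - 2 * u 0) ⟨by linarith, by linarith⟩
    rw [← a3] at k
    exact ⟨k.1, Or.inr ⟨a1, k⟩⟩

theorem fnc_ext (h0 : u 0 = u' 0) (h1 : u 1 = u' 1) : u = u' := by
  ext i
  fin_cases i
  · exact h0
  · exact h1

theorem fnc_box (D : CnD K f b η M' N h c q z γ ψ H) (hσ : σ ∈ K.cel 1) (hτ : τ ∈ K.cel 1)
    {x : Rn 3} (h1 : ‖co (b.p f σ) (M' σ) x‖ ≤ 1) (h2 : ‖co (b.p f τ) (M' τ) x‖ ≤ 1) : σ = τ :=
  by_contra fun k => disjoint_left.1 (box_disj D.hi D.hb D.R D.E hσ hτ k) h1 h2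

theorem fnc_diff (D : CnD K f b η M' N h c q z γ ψ H) (F : K.Fc c v σ) (F' : K.Fc c w τ)
    (hu : u ∈ trap) (h1 : r0g u = 1) (hu' : u' ∈ trap) (h1' : r0g u' = 1) (lt : u 1 < 1 / 2)
    (e : farp (b.p f σ) (q σ) (γ v σ) u = farp (b.p f τ) (q τ) (γ w τ) u') :
    u = u' ∧ σ = τ ∧ u 0 + u 1 = 1 := by
  obtain ⟨a1, -, a3⟩ := (D.far F hu h1).2.resolve_right fun k => lt.ne k.1
  obtain ⟨b0, hb⟩ := D.far F' hu' h1'
  rw [e] at a3
  have a4 := a3.trans_le (show 2 * u 1 ≤ 1 by linarith)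
  rcases hb with ⟨b1, b2, b3⟩ | ⟨-, b2⟩
  · obtain rfl := fnc_box D F.1.cel F'.1.cel a4 (b3.trans_le (by linarith))
    rw [a3] at b3
    exact ⟨fnc_ext (by linarith) (by linarith), rfl, a1⟩
  · have k : K.Fl w σ := by_contra fun k =>
      disjoint_left.1 ((D.E σ F.1.cel).far w F'.1.vx k) a4 (b.S_sub w b0)
    have := b2.2 σ k
    linarith

/-- `box_disj`, `Lnk.inj`, `Lnk.two`. -/
theorem CnD.far_same (D : CnD K f b η M' N h c q z γ ψ H) (F : K.Fc c v σ) (F' : K.Fc c v τ)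
    (hu : u ∈ trap) (h1 : r0g u = 1) (hu' : u' ∈ trap) (h1' : r0g u' = 1)
    (e : farp (b.p f σ) (q σ) (γ v σ) u = farp (b.p f τ) (q τ) (γ v τ) u') :
    u = u' ∧ (σ = τ ∨ u 0 = 0) := by
  rcases (D.far F hu h1).2 with ⟨a1, a2, a3⟩ | ⟨a1, a2⟩
  · obtain ⟨k1, k2, -⟩ := fnc_diff D F F' hu h1 hu' h1' a2 e
    exact ⟨k1, Or.inl k2⟩
  rcases (D.far F' hu' h1').2 with ⟨b1, b2, b3⟩ | ⟨b1, b2⟩
  · obtain ⟨k1, k2, -⟩ := fnc_diff D F' F hu' h1' hu h1 b2 e.symm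
    exact ⟨k1.symm, Or.inl k2.symm⟩
  obtain ⟨-, c1, c2⟩ := (far_cases hu h1 (b.p f σ) (D.L.g0 v σ F)).resolve_left
    fun k => k.2.1.ne a1
  obtain ⟨-, d1, d2⟩ := (far_cases hu' h1' (b.p f τ) (D.L.g0 v τ F')).resolve_left
    fun k => k.2.1.ne b1
  have m : 1 - 2 * u 0 ∈ Icc (0 : ℝ) 1 := ⟨by linarith, by linarith [hu.1]⟩
  have m' : 1 - 2 * u' 0 ∈ Icc (0 : ℝ) 1 := ⟨by linarith, by linarith [hu'.1]⟩
  rw [c2, d2] at e
  by_cases k : σ = τ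
  · subst k
    have := D.L.inj v σ F m m' e
    exact ⟨fnc_ext (by linarith) (by linarith), Or.inl rfl⟩
  · obtain ⟨k1, k2⟩ := D.L.two v σ τ F F' k _ m _ m' e
    exact ⟨fnc_ext (by linarith) (by linarith), Or.inr (by linarith)⟩

/-- `Edg.far`, `box_disj`. -/
theorem CnD.far_diff (D : CnD K f b η M' N h c q z γ ψ H) (F : K.Fc c v σ) (F' : K.Fc c w τ)
    (hu : u ∈ trap) (h1 : r0g u = 1) (hu' : u' ∈ trap) (h1' : r0g u' = 1) (lt : u 1 < 1 / 2)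
    (e : farp (b.p f σ) (q σ) (γ v σ) u = farp (b.p f τ) (q τ) (γ w τ) u') :
    u = u' ∧ σ = τ ∧ u 0 + u 1 = 1 := by
  exact fnc_diff D F F' hu h1 hu' h1' lt e

theorem CnD.far_mark (D : CnD K f b η M' N h c q z γ ψ H) (F : K.Fc c v σ) (F' : K.Fl v τ)
    (hu : u ∈ trap) (h1 : r0g u = 1) (e : farp (b.p f σ) (q σ) (γ v σ) u = b.p f τ) :
    u 1 = 0 := by
  rcases (D.far F hu h1).2 with ⟨-, a2, a3⟩ | ⟨-, a2⟩
  · rw [e] at a3
    have k : ‖co (b.p f τ) (M' τ) (b.p f τ)‖ = 0 := by rw [co, sub_self, map_zero, norm_zero]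
    obtain rfl := fnc_box D F.1.cel F'.cel (a3.trans_le (by linarith)) (k.trans_le zero_le_one)
    linarith
  · exact absurd e (hol_ne a2 F')

theorem fnd_norm {r : ℝ} {s : Rn 3} (r0 : 0 ≤ r) (hs : ‖s‖ = 1) : ‖r • s‖ = r := by
  rw [norm_smul, hs, mul_one, Real.norm_of_nonneg r0]

theorem fnd_pol (D : CnD K f b η M' N h c q z γ ψ H) (F : K.Fc c v σ) (hy : y ∈ trap) :
    ∃ (u : Rn 2) (s : Rn 3), u ∈ trap ∧ r0g u = 1 ∧ y = r0g y • u ∧ 0 ≤ r0g y ∧ r0g y ≤ 1 ∧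
      ‖s‖ = 1 ∧ b.Φ v s = farp (b.p f σ) (q σ) (γ v σ) u ∧
      cfl (b.Φ v) (b.p f σ) (q σ) (γ v σ) y = b.Φ v (r0g y • s) := by
  obtain ⟨u, hu, h1, e, r0, r1⟩ := trap_polar hy
  obtain ⟨s, hs, es⟩ := (D.far F hu h1).1
  refine ⟨u, s, hu, h1, e, r0, r1, mem_sphere_zero_iff_norm.1 hs, es, ?_⟩
  conv_lhs => rw [e]
  rw [cfl_polar _ _ _ _ r0 h1, ← es, (D.hb.at F.1.vx).lh.li]

theorem fnd_rad {r r' : ℝ} {s s' : Rn 3} (r0 : 0 ≤ r) (r0' : 0 ≤ r') (hs : ‖s‖ = 1)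
    (hs' : ‖s'‖ = 1) (e : r • s = r' • s') : r = r' ∧ (r = 0 ∨ s = s') := by
  have k : r = r' := by rw [← fnd_norm r0 hs, e, fnd_norm r0' hs']
  subst k
  refine ⟨rfl, or_iff_not_imp_left.2 fun k => smul_right_injective _ k e⟩

theorem CnD.mem (D : CnD K f b η M' N h c q z γ ψ H) (F : K.Fc c v σ) (hy : y ∈ trap) :
    cfl (b.Φ v) (b.p f σ) (q σ) (γ v σ) y ∈ b.B v ∧
      (cfl (b.Φ v) (b.p f σ) (q σ) (γ v σ) y ∈ b.S v ↔ r0g y = 1) := by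
  obtain ⟨u, s, -, -, -, r0, r1, hs, -, e⟩ := fnd_pol D F hy
  have n := fnd_norm r0 hs
  rw [e]
  refine ⟨mem_image_of_mem _ (mem_closedBall_zero_iff.2 (n.trans_le r1)), ?_⟩
  rw [BdD.S, (D.hb.at F.1.vx).lh.inj.mem_set_image, mem_sphere_zero_iff_norm, n]

theorem CnD.top (D : CnD K f b η M' N h c q z γ ψ H) (F : K.Fc c v σ) (h1 : r0g u = 1) :
    cfl (b.Φ v) (b.p f σ) (q σ) (γ v σ) u = farp (b.p f σ) (q σ) (γ v σ) u := by
  rw [cfl, h1, inv_one, one_smul, one_smul, (D.hb.at F.1.vx).lh.ri]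

theorem CnD.agree (D : CnD K f b η M' N h c q z γ ψ H) (F : K.Fc c v σ) (F' : K.Fc c w τ)
    (hy : y ∈ trap) (e : (v = w ∧ (σ = τ ∨ y 0 = 0)) ∨ (σ = τ ∧ y 0 + y 1 = 1)) :
    cfl (b.Φ v) (b.p f σ) (q σ) (γ v σ) y = cfl (b.Φ w) (b.p f τ) (q τ) (γ w τ) y := by
  rcases e with ⟨rfl, rfl | e⟩ | ⟨rfl, e⟩
  · rfl
  · obtain ⟨u, hu, h1, ey, r0, -⟩ := trap_polar hy
    rw [ey, cfl_polar _ _ _ _ r0 h1, cfl_polar _ _ _ _ r0 h1]
    rcases r0.eq_or_lt with k | k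
    · rw [← k, zero_smul, zero_smul]
    · have u0 : u 0 = 0 := by
        rw [ey, Pi.smul_apply, smul_eq_mul] at e
        exact (mul_eq_zero.1 e).resolve_left k.ne'
      obtain ⟨-, -, c2⟩ := (far_cases hu h1 (b.p f σ) (D.L.g0 v σ F)).resolve_left
        fun k => by linarith [k.1, k.2.1]
      obtain ⟨-, -, d2⟩ := (far_cases hu h1 (b.p f τ) (D.L.g0 v τ F')).resolve_left
        fun k => by linarith [k.1, k.2.1]
      rw [c2, d2, u0, mul_zero, sub_zero, D.L.g1 v σ F, D.L.g1 v τ F']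
  · obtain ⟨k0, k1, k2, k3⟩ := trap_le hy
    have h1 : r0g y = 1 := (mem_trap k0 k1 k2 k3).2.2 (Or.inl e)
    rw [D.top F h1, D.top F' h1]
    rcases far_cases hy h1 (b.p f σ) (D.L.g0 v σ F) with ⟨-, a2, a3⟩ | ⟨a1, -, a3⟩ <;>
      rcases far_cases hy h1 (b.p f σ) (D.L.g0 w σ F') with ⟨-, b2, b3⟩ | ⟨b1, -, b3⟩
    · rw [a3, b3]
    · exact absurd b1 a2.ne
    · exact absurd a1 b2.ne
    · rw [a3, b3, show 1 - 2 * y 0 = 0 by linarith, D.L.g0 v σ F, D.L.g0 w σ F']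

/-- Same vertex: compare radii and far points. Different vertices: `Bead.meetS` forces both radii
to be one. -/
theorem CnD.inj (D : CnD K f b η M' N h c q z γ ψ H) (F : K.Fc c v σ) (F' : K.Fc c w τ)
    (hy : y ∈ trap) (hy' : y' ∈ trap) (lt : y 1 < 1 / 2)
    (e : cfl (b.Φ v) (b.p f σ) (q σ) (γ v σ) y = cfl (b.Φ w) (b.p f τ) (q τ) (γ w τ) y')
    (o : Rn 3) : tch v (b.m σ) o y = tch w (b.m τ) o y' := by
  by_cases hvw : v = w
  · subst hvw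
    obtain ⟨u, s, hu, h1, ey, r0, -, hs, es, e1⟩ := fnd_pol D F hy
    obtain ⟨u', s', hu', h1', ey', r0', -, hs', es', e1'⟩ := fnd_pol D F' hy'
    rw [e1, e1'] at e
    obtain ⟨k1, k2⟩ := fnd_rad r0 r0' hs hs' ((D.hb.at F.1.vx).lh.inj e)
    rcases k2 with k2 | rfl
    · rw [ey, ey', ← k1, k2, zero_smul, zero_smul]
      simp [tch]
    · obtain ⟨rfl, k3⟩ := D.far_same F F' hu h1 hu' h1' (es.symm.trans es')
      rw [ey, ey', ← k1]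
      rcases k3 with rfl | k3
      · rfl
      · simp [tch, k3]
  · have m := D.mem F hy
    have m' := D.mem F' hy'
    have h1 := m.2.1 (D.hb.meetS F.1.vx F'.1.vx hvw m.1 (e ▸ m'.1))
    have h1' := m'.2.1 (D.hb.meetS F'.1.vx F.1.vx (Ne.symm hvw) m'.1 (e ▸ m.1))
    rw [D.top F h1, D.top F' h1'] at e
    obtain ⟨rfl, rfl, k⟩ := D.far_diff F F' hy h1 hy' h1' lt e
    rw [tch, tch, show y 0 = 1 - y 1 by linarith]
    module

theorem CnD.leg (D : CnD K f b η M' N h c q z γ ψ H) (F : K.Fc c v σ) (F' : K.Fl v τ)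
    (hy : y ∈ trap) (e : cfl (b.Φ v) (b.p f σ) (q σ) (γ v σ) y ∈ b.Leg f v τ) : y 1 = 0 := by
  obtain ⟨u, s, hu, h1, ey, r0, -, hs, es, e1⟩ := fnd_pol D F hy
  obtain ⟨s', hs', es'⟩ := D.hb.p_mem F'
  have lh := (D.hb.at F.1.vx).lh
  rw [e1, BdD.Leg, lh.inj.mem_set_image, ← es', lh.li, segment_eq_image'] at e
  obtain ⟨t, ht, e⟩ := e
  simp only [zero_add, sub_zero] at e
  obtain ⟨-, k2⟩ := fnd_rad r0 ht.1 hs (mem_sphere_zero_iff_norm.1 hs') e.symm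
  rw [ey, Pi.smul_apply, smul_eq_mul]
  rcases k2 with k2 | rfl
  · rw [k2, zero_mul]
  · rw [D.far_mark F F' hu h1 (es.symm.trans es'), mul_zero]

theorem CnD.axis (D : CnD K f b η M' N h c q z γ ψ H) (F : K.Fc c v σ) :
    cfl (b.Φ v) (b.p f σ) (q σ) (γ v σ) '' {y | y ∈ trap ∧ y 1 = 0} = b.Leg f v σ := by
  have e1 : r0g ![1, 0] = 1 := by simp [r0g]
  have e2 : farp (b.p f σ) (q σ) (γ v σ) ![1, 0] = b.p f σ := by simp [farp]
  have e3 : ∀ t : ℝ, 0 ≤ t → cfl (b.Φ v) (b.p f σ) (q σ) (γ v σ) (t • ![1, 0]) =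
      b.Φ v (0 + t • (invFun (b.Φ v) (b.p f σ) - 0)) := fun t ht => by
    rw [cfl_polar _ _ _ _ ht e1, e2, zero_add, sub_zero]
  rw [BdD.Leg, segment_eq_image', image_image]
  ext x
  constructor
  · rintro ⟨y, ⟨hy, y1⟩, rfl⟩
    obtain ⟨k0, -, k2, -⟩ := trap_le hy
    refine ⟨y 0, ⟨k0, by linarith⟩, (e3 _ k0).symm.trans (congrArg _ (fnc_ext ?_ ?_))⟩
    · simp
    · simp [y1]
  · rintro ⟨t, ht, rfl⟩
    refine ⟨t • ![1, 0], ⟨(mem_trap ?_ ?_ ?_ ?_).1, ?_⟩, e3 t ht.1⟩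
    · simpa using ht.1
    · simp
    · simpa using ht.2
    · simp
    · simp

end BEp
end
end
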