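import Pool.Agent.Work.MP_f0515e_an.D3.FDefs
import Pool.Agent.Work.MP_f0515e_an.D3.KA3

/-! Flags of a complex: half edges, faces, small neighbourhoods of the marks. -/

open Set Metric Filter Topology Function BEv
open scoped NNReal

noncomputable section
namespace BEp

variable {Ω : Set (Rn 3)} {K : Kx Ω} {σ σ' c : Set (Rn 3)} {v m m' o x y : Rn 3}

theorem Kx.Fl.vx (h : K.Fl v σ) : K.Vx v := ⟨h.1, h.2.1⟩

theorem Kx.Fl.cel (h : K.Fl v σ) : σ ∈ K.cel 1 := h.2.2.1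

theorem fka_nv (hσ : σ ∈ K.cel 1) (hm : m ∈ σ) : K.cell m ≠ {m} := fun e => by
  have := hσ.2
  rw [← Kx.cell_eq hσ.1 hm, e, KA2_single] at this
  exact zero_ne_one this

theorem fka_fl (he : K.Edge x y) : K.Fl x (openSegment ℝ x y) ∧ K.Fl y (openSegment ℝ x y) :=
  ⟨⟨he.left.1, he.left.2, ⟨he.2, he.dm⟩, he.cl ▸ left_mem_segment ℝ x y⟩,
    ⟨he.right.1, he.right.2, ⟨he.2, he.dm⟩, he.cl ▸ right_mem_segment ℝ x y⟩⟩

/-- `dm_one`, `Edge.left`, `Edge.right`, `Edge.cl`, `KA2_seg`. -/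
theorem k_flags (hσ : σ ∈ K.cel 1) : ∃ v w, K.Edge v w ∧ σ = openSegment ℝ v w ∧
    ∀ u, K.Fl u σ ↔ u = v ∨ u = w := by
  obtain ⟨a, b, he, rfl⟩ := Kx.dm_one hσ.1 hσ.2
  refine ⟨a, b, he, rfl, fun u => ⟨fun h => ?_, ?_⟩⟩
  · rcases Kx.KA2_seg (he.cl ▸ h.2.2.2) with k | k | k
    exacts [.inl k, .inr k, (fka_nv hσ k h.2.1).elim]
  · rintro (rfl | rfl)
    exacts [(fka_fl he).1, (fka_fl he).2]

theorem k_other (h : K.Fl v σ) : ∃ w, K.Edge v w ∧ σ = openSegment ℝ v w ∧ K.Fl w σ ∧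
    ∀ u, K.Fl u σ → u = v ∨ u = w := by
  obtain ⟨a, b, he, e, hu⟩ := k_flags h.cel
  rcases (hu v).1 h with rfl | rfl
  · exact ⟨b, he, e, (hu b).2 (.inr rfl), fun u k => (hu u).1 k⟩
  · exact ⟨a, he.symm, e.trans (openSegment_symm ..), (hu a).2 (.inl rfl),
      fun u k => ((hu u).1 k).symm⟩

theorem k_fl_fin (hΩ : IsOpen Ω) (K : Kx Ω) (v : Rn 3) : {σ | K.Fl v σ}.Finite := by
  by_cases hv : v ∈ Ω
  · exact (K.lf_cl hΩ isCompact_singleton (singleton_subset_iff.2 hv)).subset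
      fun σ h => ⟨h.cel.1, v, h.2.2.2, rfl⟩
  · exact finite_empty.subset fun σ h => hv h.1

theorem k_fl_ne (hΩ : IsOpen Ω) (hv : K.Vx v) : ∃ σ, K.Fl v σ := by
  obtain ⟨τ, hτ, h⟩ := Kx.exists_up hΩ (K.cell_mem hv.1) (d := 1)
    (by rw [hv.2, KA2_single]; omega) (by omega)
  exact ⟨τ, hv.1, hv.2, hτ, h (K.mem v hv.1)⟩

theorem k_ne (h : K.Fl v σ) (hm : m ∈ σ) : m ≠ v := by
  rintro rfl
  exact fka_nv h.cel hm h.2.1

theorem k_half (h : K.Fl v σ) (hm : m ∈ σ) (hy : y ∈ segment ℝ v m) : y = v ∨ y ∈ σ := by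
  rw [segment_eq_image'] at hy
  obtain ⟨t, ht, rfl⟩ := hy
  rcases ht.1.eq_or_lt with rfl | k
  · simp
  · exact .inr (Kx.seg_mem h.cel.1 h.2.2.2 hm ⟨k, ht.2⟩)

theorem k_half_cl (h : K.Fl v σ) (hm : m ∈ σ) : segment ℝ v m ⊆ closure σ := by
  exact (Kx.cells_cvx h.cel.1).closure.segment_subset h.2.2.2 (subset_closure hm)

theorem k_half_sk (h : K.Fl v σ) (hm : m ∈ σ) : segment ℝ v m ⊆ K.sk 1 := by
  exact (k_half_cl h hm).trans (Kx.cl_sub_sk h.cel.1 h.cel.2.le)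

/-- A mark on a half edge is the mark of that edge. -/
theorem k_mark (h : K.Fl v σ) (hm : m ∈ σ) (h' : σ' ∈ K.cel 1) (hm' : m' ∈ σ')
    (hy : m' ∈ segment ℝ v m) : σ' = σ := by
  rcases k_half h hm hy with rfl | k
  · exact (fka_nv h' hm' h.2.1).elim
  · exact (Kx.cell_eq h'.1 hm').symm.trans (Kx.cell_eq h.cel.1 k)

theorem k_sk1 (hΩ : IsOpen Ω) {μ : Set (Rn 3) → Rn 3} (hμ : ∀ s ∈ K.cel 1, μ s ∈ s)
    (hy : y ∈ K.sk 1) : ∃ v σ, K.Fl v σ ∧ y ∈ segment ℝ v (μ σ) := by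
  rcases Kx.mem_sk_one.1 hy with k | ⟨a, b, he, k⟩
  · obtain ⟨σ, h⟩ := k_fl_ne hΩ k
    exact ⟨y, σ, h, left_mem_segment ..⟩
  · have h1 := hμ _ (fka_fl he).1.cel
    obtain ⟨t, -, ht⟩ := (openSegment_eq_image_lineMap ℝ a b).le h1
    rcases openSegment_subset_union a b ⟨t, ht⟩ k with e | e | e
    · exact ⟨a, _, (fka_fl he).1, e ▸ right_mem_segment ..⟩
    · exact ⟨a, _, (fka_fl he).1, openSegment_subset_segment _ _ _ e⟩
    · exact ⟨b, _, (fka_fl he).2, segment_symm ℝ _ b ▸ openSegment_subset_segment _ _ _ e⟩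

theorem k_rays (h : K.Fl v σ) (h' : K.Fl v σ') (hm : m ∈ σ) (hm' : m' ∈ σ') {s : ℝ} (hs : 0 < s)
    (e : m - v = s • (m' - v)) : σ = σ' := by
  exact Kx.KA3_cone_disj h.cel.1 h'.cel.1 h.2.2.2 h'.2.2.2 (KA3_cone_of hm)
    (e ▸ KA3_cone_smul hs (KA3_cone_of hm'))

/-- The directions from the two ends to an inner point are opposite. -/
theorem k_opp {w : Rn 3} (h : K.Fl v σ) (h' : K.Fl w σ) (hne : v ≠ w) (hm : m ∈ σ) :
    ∃ a : ℝ, 0 < a ∧ m - w = -a • (m - v) := by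
  obtain ⟨u, -, rfl, -, hu⟩ := k_other h
  obtain rfl := (hu w h').resolve_left hne.symm
  obtain ⟨a, b, ha, hb, e, rfl⟩ := hm
  obtain rfl := eq_sub_of_add_eq e
  refine ⟨(1 - b) / b, div_pos ha hb, ?_⟩
  match_scalars <;> field_simp <;> ring

theorem k_open (hΩ : IsOpen Ω) (K : Kx Ω) : IsOpen (Ω \ K.sk 1) := by
  have : Ω \ K.sk 1 = Ω \ closure (K.sk 1) := Subset.antisymm
    (fun x hx => ⟨hx.1, fun k => hx.2 (Kx.sk_closed hΩ hx.1 k)⟩)
    (sdiff_subset_sdiff_right subset_closure)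
  exact this ▸ hΩ.sdiff isClosed_closure

theorem k_face_sub (hc : c ∈ K.cel 2) : c ⊆ Ω \ K.sk 1 := by
  refine fun x hx => ⟨Kx.cells_sub hc.1 hx, fun k => ?_⟩
  have := k.2
  rw [Kx.cell_eq hc.1 hx, hc.2] at this
  omega

theorem k_rb (hc : c ∈ K.cel 2) {μ : Set (Rn 3) → Rn 3} (hμ : ∀ s ∈ K.cel 1, μ s ∈ s) :
    x ∈ rb c ↔ ∃ v σ, K.Fc c v σ ∧ x ∈ segment ℝ v (μ σ) := by
  constructor
  · intro hx
    obtain ⟨τ, h1, h2, h3, h4⟩ := Kx.exists_facet hc.1 hx.1 hx.2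
    have hτ : τ ∈ K.cel 1 := ⟨h1, by have := hc.2; omega⟩
    obtain ⟨v, w, e1, e2, e3⟩ := k_flags hτ
    have f1 : K.Fc c v τ := ⟨(e3 v).2 (.inl rfl), h3⟩
    have f2 : K.Fc c w τ := ⟨(e3 w).2 (.inr rfl), h3⟩
    have hm : μ τ ∈ range (AffineMap.lineMap v w : ℝ → Rn 3) := by
      have := hμ τ hτ
      rw [e2, openSegment_eq_image_lineMap] at this
      rw [e2, openSegment_eq_image_lineMap]
      exact image_subset_range _ _ this
    rw [e2, e1.cl] at h4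
    rcases Kx.KA2_seg h4 with rfl | rfl | h4
    · exact ⟨_, _, f1, left_mem_segment _ _ _⟩
    · exact ⟨_, _, f2, left_mem_segment _ _ _⟩
    · rcases openSegment_subset_union v w hm h4 with rfl | h | h
      · exact ⟨_, _, f1, right_mem_segment _ _ _⟩
      · exact ⟨_, _, f1, openSegment_subset_segment _ _ _ h⟩
      · exact ⟨_, _, f2, segment_symm ℝ (μ τ) w ▸ openSegment_subset_segment _ _ _ h⟩
  · rintro ⟨v, σ, h, hx⟩
    exact ⟨closure_minimal h.2 isClosed_closure (k_half_cl h.1 (hμ σ h.1.cel) hx),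
      fun k => (k_face_sub hc k).2 (k_half_sk h.1 (hμ σ h.1.cel) hx)⟩

theorem k_cl_sk (hc : c ∈ K.cel 2) (hx : x ∈ closure c) : x ∈ c ↔ x ∉ K.sk 1 := by
  refine ⟨fun k => (k_face_sub hc k).2, fun k => by_contra fun n => k ⟨Kx.cl_sub hc.1 hx, ?_⟩⟩
  obtain ⟨h1, h2, h3⟩ := Kx.KA3_face hc.1 hx
  have := Kx.dm_lt hc.1 h1 h3 fun e => n (e ▸ h2)
  have := hc.2
  omega

theorem fkb_cl (h : K.Fc c v σ) : v ∈ closure c :=
  closure_minimal h.2 isClosed_closure h.1.2.2.2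

/-- `two_mid` for the vertex and the face. -/
theorem k_two (hc : c ∈ K.cel 2) (h : K.Fc c v σ) :
    ∃ σ', σ' ≠ σ ∧ K.Fc c v σ' ∧ ∀ τ, K.Fc c v τ → τ = σ ∨ τ = σ' := by
  have hv : ({v} : Set (Rn 3)) ∈ K.cells := h.1.2.1 ▸ K.cell_mem h.1.1
  obtain ⟨τ₁, a1, τ₂, a2, n, b1, c1, b2, c2, u⟩ := Kx.two_mid hc.1 hv
    (singleton_subset_iff.2 (fkb_cl h)) (by rw [KA2_single, hc.2])
  rw [KA2_single] at a1 a2 u
  have f1 : K.Fc c v τ₁ := ⟨⟨h.1.1, h.1.2.1, a1, b1 rfl⟩, c1⟩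
  have f2 : K.Fc c v τ₂ := ⟨⟨h.1.1, h.1.2.1, a2, b2 rfl⟩, c2⟩
  have u' : ∀ τ, K.Fc c v τ → τ = τ₁ ∨ τ = τ₂ := fun τ k =>
    u τ k.1.cel (singleton_subset_iff.2 k.1.2.2.2) k.2
  rcases u' σ h with rfl | rfl
  exacts [⟨τ₂, n.symm, f2, u'⟩, ⟨τ₁, n, f1, fun τ k => (u' τ k).symm⟩]

theorem k_fc_fin (hc : c ∈ K.cel 2) : {q : Rn 3 × Set (Rn 3) | K.Fc c q.1 q.2}.Finite := by
  refine Finite.of_injOn (f := fun q : Rn 3 × Set (Rn 3) => (({q.1} : Set (Rn 3)), q.2))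
    (fun q hq => ?_) (fun q _ q' _ e => ?_)
    ((Kx.faces_finite hc.1).prod (Kx.faces_finite hc.1))
  · have k : ({q.1} : Set (Rn 3)) ∈ K.cells := hq.1.2.1 ▸ K.cell_mem hq.1.1
    exact ⟨⟨k, singleton_subset_iff.2 (fkb_cl hq)⟩, hq.1.cel.1, hq.2⟩
  · exact Prod.ext (singleton_injective (Prod.mk.inj e).1) (Prod.mk.inj e).2

/-- The plane of a face (`KA3_hyper`). -/
theorem k_plane (hc : c ∈ K.cel 2) : ∃ (l : Rn 3 →L[ℝ] ℝ) (n : Rn 3), l n = 1 ∧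
    ∀ w, l w = 0 ↔ w ∈ vectorSpan ℝ c := by
  obtain ⟨φ, w₀, -, h1, h2⟩ := KA3_hyper (le_top : vectorSpan ℝ c ≤ ⊤) (by
    rw [finrank_top, Module.finrank_fin_fun]
    exact congrArg (· + 1) hc.2)
  refine ⟨φ.toContinuousLinearMap, (φ w₀)⁻¹ • w₀, ?_, fun w => h2 w trivial⟩
  change φ _ = 1
  rw [map_smul, smul_eq_mul, inv_mul_cancel₀ h1.ne']

/-- Points of the plane near a point of the face are in the face (`relopen`). -/
theorem k_relopen (hc : c ∈ K.cel 2) {l : Rn 3 →L[ℝ] ℝ} (hl : ∀ w, l w = 0 ↔ w ∈ vectorSpan ℝ c)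
    (hx : x ∈ c) : ∀ᶠ y in 𝓝 x, l y = l x → y ∈ c := by
  obtain ⟨ε, hε, h⟩ := Kx.relopen hc.1 hx
  filter_upwards [ball_mem_nhds x hε] with y hy e
  exact h y ((hl _).1 (by rw [map_sub, e, sub_self])) (mem_ball_iff_norm.1 hy)

theorem k_indep (hc : c ∈ K.cel 2) (h : K.Fc c v σ) (hm : m ∈ σ) (ho : o ∈ c) {a a' : ℝ}
    (e : a • (m - v) + a' • (o - m) = 0) : a = 0 ∧ a' = 0 := by
  have h0 : a' = 0 := by_contra fun n => by
    have e' : o - m = (-a / a') • (m - v) := by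
      rw [div_eq_inv_mul, mul_smul, neg_smul, ← eq_neg_of_add_eq_zero_right e, smul_smul,
        inv_mul_cancel₀ n, one_smul]
    have k := Kx.KA3_cone_disj h.1.cel.1 hc.1 (subset_closure hm) (h.2 hm)
      (Kx.KA3_cone_self h.1.cel.1 hm (e' ▸ Submodule.smul_mem _ _
        (Kx.sub_mem_span h.1.2.2.2 (subset_closure hm)))) (KA3_cone_of ho)
    have := h.1.cel.2
    rw [k, hc.2] at this
    omega
  rw [h0, zero_smul, add_zero] at e
  exact ⟨(smul_eq_zero.1 e).resolve_right (sub_ne_zero.2 (k_ne h.1 hm)), h0⟩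

/-- The two vectors span the plane of the face. -/
theorem k_span (hc : c ∈ K.cel 2) (h : K.Fc c v σ) (hm : m ∈ σ) (ho : o ∈ c) {w : Rn 3} :
    w ∈ vectorSpan ℝ c ↔ ∃ a a' : ℝ, w = a • (m - v) + a' • (o - m) := by
  have li : LinearIndependent ℝ ![m - v, o - m] :=
    LinearIndependent.pair_iff.2 fun _ _ => k_indep hc h hm ho
  have e : Submodule.span ℝ {m - v, o - m} = vectorSpan ℝ c := by
    refine Submodule.eq_of_le_of_finrank_eq (Submodule.span_le.2 (pair_subset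
      (Kx.sub_mem_span (fkb_cl h) (h.2 hm)) (Kx.sub_mem_span (h.2 hm) (subset_closure ho)))) ?_
    have := finrank_span_eq_card li
    rw [Matrix.range_cons, Matrix.range_cons, Matrix.range_empty, union_empty, singleton_union,
      Fintype.card_fin] at this
    exact this.trans hc.2.symm
  rw [← e, Submodule.mem_span_pair]
  simp only [eq_comm]

theorem fkb_exit (hc : c ∈ K.cel 2) (ho : o ∈ c) (hx : x ∈ closure c) (n : x ≠ o) :
    ∃ z ∈ rb c, ∃ t ∈ Icc (0 : ℝ) 1, x = o + t • (z - o) := by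
  have hT := ((Homeomorph.addLeft o).isClosedEmbedding.comp (isClosedEmbedding_smul_left (𝕜 := ℝ)
    (sub_ne_zero.2 n))).isCompact_preimage (Kx.cells_poly hc.1).1
  have h1 : o + (1 : ℝ) • (x - o) ∈ closure c := by rwa [one_smul, add_sub_cancel]
  obtain ⟨t, ht, hm⟩ := hT.exists_isGreatest ⟨1, h1⟩
  have t1 : 1 ≤ t := hm h1
  have t0 : 0 < t := one_pos.trans_le t1
  refine ⟨o + t • (x - o), ⟨ht, fun k => ?_⟩, t⁻¹, ⟨inv_nonneg.2 t0.le, inv_le_one_of_one_le₀ t1⟩, ?_⟩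
  · obtain ⟨e, e0, he⟩ := Kx.ext_cl hc.1 k (subset_closure ho)
    rw [add_sub_cancel_left, smul_smul, add_assoc, ← add_smul] at he
    have : t + e * t ≤ t := hm (subset_closure he)
    linarith [mul_pos e0 t0]
  · rw [add_sub_cancel_left, smul_smul, inv_mul_cancel₀ t0.ne', one_smul, add_sub_cancel]

/-- Polar coordinates about an inner point. -/
theorem k_radial (hc : c ∈ K.cel 2) (ho : o ∈ c) (hx : x ∈ closure c) :
    ∃ z ∈ rb c, ∃ t ∈ Icc (0 : ℝ) 1, x = o + t • (z - o) := by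
  by_cases e : x = o
  · obtain ⟨y, hy, n⟩ := not_subset.1 fun k : c ⊆ {o} => by
      have := dm_mono k
      rw [KA2_single, hc.2] at this
      omega
    obtain ⟨z, hz, -⟩ := fkb_exit hc ho (subset_closure hy) n
    exact ⟨z, hz, 0, left_mem_Icc.2 zero_le_one, by rw [zero_smul, add_zero, e]⟩
  · exact fkb_exit hc ho hx e

theorem fkb_lt (hc : c ∈ K.cel 2) (ho : o ∈ c) {z z' : Rn 3} (hz : z ∈ closure c) {t t' : ℝ}
    (ht : 0 ≤ t) (l : t < t') (e : t • (z - o) = t' • (z' - o)) : z' ∈ c := by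
  have t0 := ht.trans_lt l
  have k := Kx.seg_mem hc.1 hz ho (t := 1 - t / t')
    ⟨sub_pos.2 ((div_lt_one t0).2 l), sub_le_self _ (div_nonneg ht t0.le)⟩
  have e' : z' - o = (t / t') • (z - o) := by
    rw [div_eq_inv_mul, mul_smul, e, smul_smul, inv_mul_cancel₀ t0.ne', one_smul]
  rw [eq_add_of_sub_eq e']
  convert k using 1
  module

theorem k_radial_uniq (hc : c ∈ K.cel 2) (ho : o ∈ c) {z z' : Rn 3} (hz : z ∈ rb c)
    (hz' : z' ∈ rb c) {t t' : ℝ} (ht : 0 < t) (ht' : 0 ≤ t') (e : t • (z - o) = t' • (z' - o)) :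
    t = t' ∧ z = z' := by
  rcases lt_trichotomy t t' with l | rfl | l
  · exact (hz'.2 (fkb_lt hc ho hz.1 ht.le l e)).elim
  · exact ⟨rfl, sub_left_injective (smul_right_injective _ ht.ne' e)⟩
  · exact (hz.2 (fkb_lt hc ho hz'.1 ht' l e.symm)).elim

theorem fkc_pos (hc : c ∈ K.cel 2) (h : K.Fc c v σ) (hm : m ∈ σ) (ho : o ∈ c)
    (hx : x ∈ closure c) : ∃ a a' : ℝ, 0 ≤ a' ∧ x = m + a • (m - v) + a' • (o - m) := by
  obtain ⟨a, a', e⟩ := (k_span hc h hm ho).1 (Kx.sub_mem_span (h.2 hm) hx)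
  have e' : x = m + a • (m - v) + a' • (o - m) := by rw [add_assoc, ← e, add_sub_cancel]
  refine ⟨a, a', not_lt.1 fun ha => ?_, e'⟩
  have h1 : 0 < 1 - a' := by linarith
  have h2 := Kx.seg_mem hc.1 hx ho (t := -a' / (1 - a'))
    ⟨div_pos (by linarith) h1, (div_le_one h1).2 (by linarith)⟩
  have := (k_indep hc h hm h2 (a := a / (1 - a')) (a' := -1) (by
    rw [e']
    have := h1.ne'
    match_scalars <;> field_simp <;> ring)).2
  norm_num at this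

theorem fkc_line (hσ : σ ∈ K.cel 1) (hm : m ∈ σ) :
    ∀ᶠ y in 𝓝 m, ∀ v, K.Fl v σ → ∀ s : ℝ, y = m + s • (m - v) → y ∈ σ := by
  obtain ⟨ε, hε, h⟩ := Kx.relopen hσ.1 hm
  filter_upwards [ball_mem_nhds m hε] with y hy v hv s e
  refine h y ?_ (mem_ball_iff_norm.1 hy)
  rw [e, add_sub_cancel_left]
  exact Submodule.smul_mem _ _ (Kx.sub_mem_span hv.2.2.2 (subset_closure hm))

theorem fkc_near (hc : c ∈ K.cel 2) (h : K.Fc c v σ) (hm : m ∈ σ) (ho : o ∈ c) :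
    ∀ᶠ z in 𝓝 m, ∀ a a' : ℝ, 0 ≤ a' → z = m + a • (m - v) + a' • (o - m) → z ∈ closure c := by
  let T : ℝ × ℝ →ₗ[ℝ] Rn 3 :=
    (LinearMap.toSpanSingleton ℝ _ (m - v)).coprod (LinearMap.toSpanSingleton ℝ _ (o - m))
  have hT : LinearMap.ker T = ⊥ := LinearMap.ker_eq_bot'.2 fun p hp =>
    Prod.ext (k_indep hc h hm ho hp).1 (k_indep hc h hm ho hp).2
  have h1 : ∀ᶠ p : ℝ × ℝ in 𝓝 0, p.2 < 1 := continuous_snd.continuousAt.eventually_lt
    continuousAt_const (by simp)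
  have h2 : Tendsto (fun p : ℝ × ℝ => m + (p.1 / (1 - p.2)) • (m - v)) (𝓝 0) (𝓝 m) := by
    have : ContinuousAt (fun p : ℝ × ℝ => m + (p.1 / (1 - p.2)) • (m - v)) 0 := by
      fun_prop (disch := simp)
    simpa using this.tendsto
  have h3 := h1.and (h2.eventually (fkc_line h.1.cel hm))
  rw [(T.isClosedEmbedding_of_injective hT).isInducing.nhds_eq_comap, eventually_comap,
    map_zero] at h3
  have h4 : Tendsto (fun z : Rn 3 => z - m) (𝓝 m) (𝓝 0) := by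
    simpa using (continuous_sub_right m).tendsto m
  filter_upwards [h4.eventually h3] with z hz a a' ha e
  obtain ⟨h5, h6⟩ := hz (a, a') (by rw [e, add_assoc, add_sub_cancel_left]; rfl)
  have h7 : (0 : ℝ) < 1 - a' := sub_pos.2 h5
  have := (Kx.cells_cvx hc.1).closure (h.2 (h6 v h.1 _ rfl)) (subset_closure ho) h7.le ha
    (sub_add_cancel 1 a')
  convert this using 1
  rw [e]
  have := h7.ne'
  match_scalars <;> field_simp <;> ring

theorem fkc_half (hσ : σ ∈ K.cel 1) (hm : m ∈ σ) (hc : c ∈ K.cells) :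
    ∀ᶠ z in 𝓝 m, c ∈ K.cel 2 → σ ⊆ closure c → ∀ o ∈ c, ∀ v, K.Fl v σ →
      (z ∈ closure c ↔ ∃ a a' : ℝ, 0 ≤ a' ∧ z = m + a • (m - v) + a' • (o - m)) := by
  by_cases h : c ∈ K.cel 2 ∧ σ ⊆ closure c
  · obtain ⟨o₀, ho₀⟩ := Kx.cells_ne hc
    obtain ⟨v₀, w₀, -, -, hv₀⟩ := k_flags hσ
    have h0 : K.Fc c v₀ σ := ⟨(hv₀ v₀).2 (Or.inl rfl), h.2⟩
    filter_upwards [fkc_near h.1 h0 hm ho₀] with z hz _ _ o ho v hv
    refine ⟨fkc_pos h.1 ⟨hv, h.2⟩ hm ho, ?_⟩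
    rintro ⟨a, a', ha, e⟩
    obtain ⟨b, b', hb, e'⟩ := fkc_pos h.1 h0 hm ho₀ (subset_closure ho)
    obtain ⟨κ, hκ⟩ : ∃ κ : ℝ, m - v = κ • (m - v₀) := by
      by_cases hv' : v₀ = v
      · exact ⟨1, by rw [hv', one_smul]⟩
      · obtain ⟨κ, -, hκ⟩ := k_opp h0.1 hv hv' hm
        exact ⟨_, hκ⟩
    refine hz (a * κ + a' * b) (a' * b') (mul_nonneg ha hb) ?_
    rw [e, hκ, e']
    module
  · exact Eventually.of_forall fun z h1 h2 => (h ⟨h1, h2⟩).elim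



/-- Use `near` at `m` (only cells with `m` in their closure come close), `relopen` for `σ`, and for
a face `c` containing `σ` in its closure: near `m` the points `m + a (m - v) + a' (o - m)`, `a' ≥ 0`
are in `closure c` (convex hull of `o` and a piece of `σ`); a point with `a' < 0` would put a point
of `σ` into `c` (`seg_mem`). Finitely many faces (`lf_cl`); the condition does not depend on `o`. -/
theorem k_rad (hΩ : IsOpen Ω) (hσ : σ ∈ K.cel 1) (hm : m ∈ σ) : ∃ η, RadK K m σ η := by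
  have hmΩ : m ∈ Ω := Kx.cells_sub hσ.1 hm
  have hfin := Kx.lf_cl (K := K) hΩ isCompact_singleton (singleton_subset_iff.2 hmΩ)
  have h1 := (eventually_all_finite hfin).2 fun c hc => fkc_half hσ hm hc.1
  obtain ⟨ε, hε, h⟩ := Metric.eventually_nhds_iff_ball.1
    (((Kx.near (K := K) hΩ hmΩ).and (fkc_line hσ hm)).and h1)
  have e : 2 * (ε / 2) = ε := by ring
  refine ⟨ε / 2, half_pos hε, ?_, ?_, ?_, ?_, ?_⟩ <;> rw [e]
  · exact fun y hy => (h y hy).1.1.1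
  · intro y hy hy'
    have h2 := K.cell_mem hy'.1
    by_contra hn
    have h3 := Kx.dm_lt h2 hσ.1 (Kx.front hσ.1 h2 ⟨m, hm, (h y hy).1.1.2⟩)
      fun e => hn (e ▸ K.mem y hy'.1)
    have h4 := hy'.2
    have h5 := hσ.2
    omega
  · intro v hv s hs
    exact (h _ hs).1.2 v hv (s - 1) (by module)
  · rintro c hc ⟨y, hy, hy'⟩
    exact Kx.front hσ.1 hc.1
      ⟨m, hm, closure_minimal (Kx.KA3_face hc.1 hy).2.2 isClosed_closure (h y hy').1.1.2⟩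
  · intro c hc hs o ho v hv z hz
    exact (h z hz).2 c ⟨hc.1, m, hs hm, rfl⟩ hc hs o ho v hv

theorem RadK.disj {η η' : ℝ} (h : RadK K m σ η) (h' : RadK K m' σ' η') (hσ : σ ∈ K.cel 1)
    (hσ' : σ' ∈ K.cel 1) (hm : m ∈ σ) (hm' : m' ∈ σ') (hne : σ ≠ σ') :
    Disjoint (ball m η) (ball m' η') := by
  wlog k : η' ≤ η generalizing m m' σ σ' η η'
  · exact (this h' h hσ' hσ hm' hm hne.symm (le_of_not_ge k)).symm
  refine disjoint_left.2 fun x a b => hne ((Kx.cell_eq hσ.1 (h.sk m' ?_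
    (Kx.cl_sub_sk hσ'.1 hσ'.2.le (subset_closure hm')))).symm.trans (Kx.cell_eq hσ'.1 hm'))
  rw [mem_ball] at *
  linarith [dist_triangle_left m' m x]

end BEp
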