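import Pool.Agent.Work.MP_f0515e_an.D3.KA3

/-! TASK KA4. Relative boundaries, intersections of closed cells, local shape of a face at an edge.
Plan. `rb_closed`: `relopen` and `sub_mem_span` make `σ` open in its closure. `cl_inter`: the cell of a common point lies in both closures, so it has
dimension below `d` unless it equals both (`dm_lt`). `inter_cases`: the intersection is compact, convex and covered by finitely many lines (`pc_sk`), so it has no three
affinely independent points; parametrise by a line. `radial`: the ray from `o` through `x` (any direction of the span if `x = o`) meets the compact convex closure in a segment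
whose end is not in `σ` by `ext_cl`; uniqueness by `seg_mem`. `half`: `ν = z - m` for a point `z` of `c`; near `m` only the cells having `m` in their closure occur, among the faces of `c` these are
the edge and `c`; the open half planes near `m` are connected, so each lies in `c` or misses `closure c`; both cannot lie in `c` (convexity, `m ∉ c`). About 300 lines. -/

open Set Metric Filter Topology Function BEv
open scoped NNReal ENNReal

noncomputable section
namespace BEp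

theorem KA4_relint {n : ℕ} {C : Set (Rn n)} (hC : Convex ℝ C) (hne : C.Nonempty) :
    ∃ p ∈ C, ∃ ε > 0, ∀ y, y - p ∈ vectorSpan ℝ C → ‖y - p‖ < ε → y ∈ C := by
  obtain ⟨_, p, hp, rfl⟩ := hne.intrinsicInterior hC
  obtain ⟨ε, hε, h⟩ := Metric.mem_nhds_iff.1 (mem_interior_iff_mem_nhds.1 hp)
  refine ⟨p, (interior_subset hp :), ε, hε, fun y h1 h2 => ?_⟩
  have h3 : y ∈ affineSpan ℝ C := by
    have := AffineSubspace.vadd_mem_of_mem_direction (by rwa [direction_affineSpan]) p.2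
    simpa using this
  exact h (show (⟨y, h3⟩ : affineSpan ℝ C) ∈ ball p ε from mem_ball_iff_norm.2 h2)

theorem KA4_seg {n : ℕ} {C : Set (Rn n)} (hC : Convex ℝ C) (hc : IsCompact C) (hne : C.Nonempty)
    (h : dm C ≤ 1) : ∃ a b, C = segment ℝ a b := by
  obtain ⟨⟨v, v0⟩, hv⟩ := finrank_le_one_iff.1 h
  have k : ∀ x ∈ C, ∀ y ∈ C, ∃ c : ℝ, c • v = y - x := fun x hx y hy => by
    obtain ⟨c, e⟩ := hv ⟨y - x, vsub_mem_vectorSpan ℝ hy hx⟩
    exact ⟨c, congrArg Subtype.val e⟩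
  by_cases h0 : v = 0
  · obtain ⟨x, hx⟩ := hne
    refine ⟨x, x, ?_⟩
    rw [segment_same]
    refine eq_singleton_iff_unique_mem.2 ⟨hx, fun y hy => ?_⟩
    obtain ⟨c, e⟩ := k x hx y hy
    rw [h0, smul_zero] at e
    exact sub_eq_zero.1 e.symm
  obtain ⟨i, hi⟩ := Function.ne_iff.1 h0
  have hi : v i ≠ 0 := hi
  have cf : ContinuousOn (fun x : Rn n => x i / v i) C := by fun_prop
  obtain ⟨a, ha, h1⟩ := hc.exists_isMinOn hne cf
  obtain ⟨b, hb, h2⟩ := hc.exists_isMaxOn hne cf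
  refine ⟨a, b, subset_antisymm (fun x hx => ?_) (hC.segment_subset ha hb)⟩
  obtain ⟨c, e⟩ := k a ha x hx
  obtain ⟨d, e'⟩ := k a ha b hb
  have f : ∀ {y : Rn n} {c : ℝ}, c • v = y - a → c = y i / v i - a i / v i := fun {y c} e => by
    have := congrFun e i
    simp only [Pi.smul_apply, smul_eq_mul, Pi.sub_apply] at this
    field_simp
    exact this
  have c0 : 0 ≤ c := by rw [f e]; exact sub_nonneg.2 (h1 hx)
  have cd : c ≤ d := by rw [f e, f e']; exact sub_le_sub_right (h2 hx) _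
  rw [segment_eq_image']
  rcases (c0.trans cd).eq_or_lt with d0 | d0
  · refine ⟨0, by simp, ?_⟩
    rw [le_antisymm (cd.trans d0.ge) c0, zero_smul] at e
    simpa using (sub_eq_zero.1 e.symm).symm
  · refine ⟨c / d, ⟨div_nonneg c0 d0.le, (div_le_one d0).2 cd⟩, ?_⟩
    show a + (c / d) • (b - a) = x
    rw [← e', smul_smul, div_mul_cancel₀ _ d0.ne', e, add_sub_cancel]

namespace Kx
variable {Ω : Set (Rn 3)} {K : Kx Ω} {σ τ : Set (Rn 3)} {x y y' o a b m : Rn 3} {d : ℕ}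

theorem rb_closed (hσ : σ ∈ K.cells) : IsClosed (closure σ \ σ) := by
  refine isClosed_of_closure_subset fun x hx => ⟨closure_minimal sdiff_subset isClosed_closure hx,
    fun k => ?_⟩
  obtain ⟨ε, hε, h⟩ := relopen hσ k
  obtain ⟨y, hy, e⟩ := Metric.mem_closure_iff.1 hx ε hε
  exact hy.2 (h y (sub_mem_span (subset_closure k) hy.1) (by rwa [← dist_eq_norm, dist_comm]))

theorem KA4_dm (hσ : σ ∈ K.cells) (hy : y ∈ closure σ \ σ) : dm (K.cell y) < dm σ := by
  have h := cl_sub hσ hy.1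
  exact dm_lt hσ (K.cell_mem h) (front (K.cell_mem h) hσ ⟨y, K.mem y h, hy.1⟩)
    fun e => hy.2 (e ▸ K.mem y h)

theorem rb_sub_sk (hσ : σ ∈ K.cells) (h : dm σ ≤ d + 1) : closure σ \ σ ⊆ K.sk d := by
  intro y hy
  have := KA4_dm hσ hy
  exact ⟨cl_sub hσ hy.1, by omega⟩

theorem dm_rb (hσ : σ ∈ K.cells) (hy : y ∈ closure σ \ σ) : dm (K.cell y) < dm σ := by
  exact KA4_dm hσ hy

theorem KA4_not (hσ : σ ∈ K.cel d) (hτ : τ ∈ K.cel d) (h : σ ≠ τ) (hx : x ∈ closure τ) :
    x ∉ σ := fun k => by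
  have := dm_lt hτ.1 hσ.1 (front hσ.1 hτ.1 ⟨x, k, hx⟩) h
  rw [hσ.2, hτ.2] at this
  exact lt_irrefl _ this

theorem cl_inter (hσ : σ ∈ K.cel d) (hτ : τ ∈ K.cel d) (h : σ ≠ τ) :
    closure σ ∩ closure τ = (closure σ \ σ) ∩ (closure τ \ τ) := by
  exact subset_antisymm (fun x hx => ⟨⟨hx.1, KA4_not hσ hτ h hx.2⟩, hx.2,
    KA4_not hτ hσ h.symm hx.1⟩) fun x hx => ⟨hx.1.1, hx.2.1⟩

theorem inter_cases (hσ : σ ∈ K.cel 2) (hτ : τ ∈ K.cel 2) (h : σ ≠ τ) :
    closure σ ∩ closure τ = ∅ ∨ (∃ a, closure σ ∩ closure τ = {a}) ∨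
      ∃ a b, a ≠ b ∧ closure σ ∩ closure τ = segment ℝ a b := by
  rcases (closure σ ∩ closure τ).eq_empty_or_nonempty with e | hne
  · exact .inl e
  have hC : Convex ℝ (closure σ ∩ closure τ) :=
    (cells_cvx hσ.1).closure.inter (cells_cvx hτ.1).closure
  have hd : dm (closure σ ∩ closure τ) ≤ 1 := by
    by_contra k
    obtain ⟨p, hp, ε, hε, h1⟩ := KA4_relint hC hne
    have e : vectorSpan ℝ (closure σ ∩ closure τ) = vectorSpan ℝ (closure σ) :=
      Submodule.eq_of_le_of_finrank_le (vectorSpan_mono ℝ inter_subset_left) (by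
        have := dm_closure σ
        rw [hσ.2] at this
        exact this.le.trans (not_le.1 k))
    obtain ⟨y, hy, e'⟩ := Metric.mem_closure_iff.1 hp.1 ε hε
    exact KA4_not hσ hτ h (h1 y (e ▸ vsub_mem_vectorSpan ℝ (subset_closure hy) hp.1)
      (by rwa [← dist_eq_norm, dist_comm])).2 hy
  obtain ⟨a, b, e⟩ := KA4_seg hC ((cells_poly hσ.1).1.inter_right isClosed_closure) hne hd
  by_cases k : a = b
  · exact .inr (.inl ⟨a, by rw [e, ← k, segment_same]⟩)
  · exact .inr (.inr ⟨a, b, k, e⟩)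

theorem radial (hσ : σ ∈ K.cells) (hd : 1 ≤ dm σ) (ho : o ∈ σ) (hx : x ∈ closure σ) :
    ∃ y ∈ closure σ \ σ, ∃ s ∈ Icc (0 : ℝ) 1, x = o + s • (y - o) := by
  obtain ⟨v, hv, h0, r, hr, e⟩ : ∃ v ∈ vectorSpan ℝ σ, v ≠ 0 ∧ ∃ r : ℝ, 0 ≤ r ∧ x = o + r • v := by
    by_cases k : x = o
    · obtain ⟨v, h1, h2⟩ := (vectorSpan ℝ σ).exists_mem_ne_zero_of_ne_bot fun e => by
        rw [dm, e, finrank_bot] at hd
        omega
      exact ⟨v, h1, h2, 0, le_rfl, by simp [k]⟩
    · exact ⟨x - o, sub_mem_span (subset_closure ho) hx, sub_ne_zero.2 k, 1, zero_le_one, by simp⟩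
  have hc : IsCompact ((fun t : ℝ => o + t • v) ⁻¹' closure σ) :=
    ((Homeomorph.addLeft o).isClosedEmbedding.comp
      (isClosedEmbedding_smul_left h0)).isCompact_preimage (cells_poly hσ).1
  have hr' : r ∈ (fun t : ℝ => o + t • v) ⁻¹' closure σ := by
    rw [mem_preimage, ← e]
    exact hx
  obtain ⟨t, ht, hm⟩ := hc.exists_isMaxOn ⟨r, hr'⟩ continuousOn_id
  have hn : o + t • v ∉ σ := fun k => by
    obtain ⟨ε, hε, h⟩ := relopen hσ k
    have n0 := norm_pos_iff.2 h0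
    have e1 : o + (t + ε / 2 / ‖v‖) • v - (o + t • v) = (ε / 2 / ‖v‖) • v := by
      rw [add_smul]
      abel
    have h1 := h (o + (t + ε / 2 / ‖v‖) • v) (by rw [e1]; exact Submodule.smul_mem _ _ hv) (by
      rw [e1, norm_smul, Real.norm_of_nonneg (by positivity), div_mul_cancel₀ _ n0.ne']
      linarith)
    have h2 : t + ε / 2 / ‖v‖ ≤ t := hm (subset_closure h1)
    have h3 : 0 < ε / 2 / ‖v‖ := by positivity
    linarith
  have rt : r ≤ t := hm hr'
  have t0 : 0 < t := lt_of_le_of_ne (hr.trans rt) fun k => hn (by simpa [← k] using ho)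
  refine ⟨o + t • v, ⟨ht, hn⟩, r / t, ⟨div_nonneg hr t0.le, (div_le_one t0).2 rt⟩, ?_⟩
  rw [add_sub_cancel_left, smul_smul, div_mul_cancel₀ _ t0.ne', e]

theorem KA4_lt (hσ : σ ∈ K.cells) (ho : o ∈ σ) (hy : y ∈ closure σ) {s s' : ℝ} (hs : 0 ≤ s)
    (hs' : s < s') (h : s • (y - o) = s' • (y' - o)) : y' ∈ σ := by
  have p : 0 < s' := hs.trans_lt hs'
  have e : y' - o = (s / s') • (y - o) := by
    rw [div_eq_inv_mul, mul_smul, h, inv_smul_smul₀ p.ne']
  have := seg_mem hσ hy ho (t := 1 - s / s')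
    ⟨sub_pos.2 ((div_lt_one p).2 hs'), sub_le_self _ (div_nonneg hs p.le)⟩
  convert this using 1
  rw [sub_eq_iff_eq_add.1 e]
  module

theorem radial_uniq (hσ : σ ∈ K.cells) (ho : o ∈ σ) (hy : y ∈ closure σ \ σ)
    (hy' : y' ∈ closure σ \ σ) {s s' : ℝ} (hs : 0 < s) (hs' : 0 ≤ s')
    (h : s • (y - o) = s' • (y' - o)) : s = s' ∧ y = y' := by
  rcases lt_trichotomy s s' with k | k | k
  · exact absurd (KA4_lt hσ ho hy.1 hs.le k h) hy'.2
  · subst k
    exact ⟨rfl, sub_left_injective (smul_right_injective _ hs.ne' h)⟩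
  · exact absurd (KA4_lt hσ ho hy'.1 hs' k h.symm) hy.2

theorem not_rb_sub (hσ : σ ∈ K.cel 2) (hτ : τ ∈ K.cel 2) (h : σ ≠ τ) :
    ¬ closure σ \ σ ⊆ closure τ := by
  intro k
  obtain ⟨o, ho⟩ := cells_ne hσ.1
  have hd : 1 ≤ dm σ := by rw [hσ.2]; omega
  obtain ⟨y, hy, -⟩ := radial hσ.1 hd ho (subset_closure ho)
  obtain ⟨e, he, h1⟩ := ext_cl hσ.1 ho hy.1
  obtain ⟨y', hy', s, hs, h2⟩ := radial hσ.1 hd ho (subset_closure h1)
  have p : 0 < e + s := add_pos_of_pos_of_nonneg he hs.1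
  have := (cells_cvx hτ.1).closure (k hy) (k hy') (div_nonneg he.le p.le) (div_nonneg hs.1 p.le)
    (by rw [← add_div, div_self p.ne'])
  refine KA4_not hσ hτ h ?_ ho
  convert this using 1
  have h3 : e • y + s • y' = (e + s) • o := by
    linear_combination (norm := module) -h2
  rw [div_eq_inv_mul, div_eq_inv_mul, mul_smul, mul_smul, ← smul_add, h3, inv_smul_smul₀ p.ne']

theorem half (hΩ : IsOpen Ω) (hσ : σ ∈ K.cel 2) (he : K.Edge a b)
    (hs : openSegment ℝ a b ⊆ closure σ) (hm : m ∈ openSegment ℝ a b) :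
    ∃ (ν : Rn 3) (ε : ℝ), 0 < ε ∧ LinearIndependent ℝ ![b - a, ν] ∧ ∀ x, ‖x - m‖ < ε →
      ((x ∈ closure σ ↔ ∃ α β : ℝ, 0 ≤ β ∧ x = m + α • (b - a) + β • ν) ∧
        (x ∈ σ ↔ ∃ α β : ℝ, 0 < β ∧ x = m + α • (b - a) + β • ν)) := by
  obtain ⟨z, hz⟩ := cells_ne hσ.1
  have dj : ∀ x ∈ openSegment ℝ a b, x ∉ σ := fun x h1 h2 =>
    disjoint_left.1 (disj he.2 hσ.1 fun e => by
      have := he.dm
      rw [e, hσ.2] at this
      omega) h1 h2
  obtain ⟨δ, hδ, hE⟩ : ∃ δ : ℝ, 0 < δ ∧ ∀ α : ℝ, |α| < δ → m + α • (b - a) ∈ openSegment ℝ a b := by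
    rw [openSegment_eq_image'] at hm ⊢
    obtain ⟨t, ht, rfl⟩ := hm
    refine ⟨min t (1 - t), lt_min ht.1 (sub_pos.2 ht.2), fun α h => ⟨t + α, ?_, ?_⟩⟩
    · obtain ⟨h1, h2⟩ := abs_lt.1 h
      have := min_le_left t (1 - t)
      have := min_le_right t (1 - t)
      constructor <;> linarith
    · simp only [add_smul, add_assoc]
  have hm' : m ∈ closure σ := hs hm
  have li : ∀ s t : ℝ, s • (b - a) + t • (z - m) = 0 → s = 0 ∧ t = 0 := fun s t e => by
    have t0 : t = 0 := by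
      by_contra k
      have e1 : z - m = (-(s / t)) • (b - a) := by
        rw [div_eq_inv_mul, neg_smul, mul_smul, eq_neg_of_add_eq_zero_left e, smul_neg, neg_neg,
          inv_smul_smul₀ k]
      obtain ⟨c, e2⟩ : ∃ c : ℝ, z - m = c • (b - a) := ⟨_, e1⟩
      have p : 0 < δ + |c| := by positivity
      refine dj _ (hE (δ / (δ + |c|) * c) ?_) ?_
      · rw [abs_mul, abs_of_pos (div_pos hδ p), div_mul_eq_mul_div, div_lt_iff₀ p]
        nlinarith
      · rw [mul_smul, ← e2]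
        exact seg_mem hσ.1 hm' hz ⟨div_pos hδ p, (div_le_one p).2 (by simp)⟩
    rw [t0, zero_smul, add_zero] at e
    exact ⟨(smul_eq_zero.1 e).resolve_right (sub_ne_zero.2 he.1.symm), t0⟩
  let L : (ℝ × ℝ) →ₗ[ℝ] Rn 3 :=
    (LinearMap.toSpanSingleton ℝ _ (b - a)).coprod (LinearMap.toSpanSingleton ℝ _ (z - m))
  have hL : ∀ s t, L (s, t) = s • (b - a) + t • (z - m) := fun _ _ => rfl
  have hk : LinearMap.ker L = ⊥ := LinearMap.ker_eq_bot'.2 fun p e =>
    Prod.ext (li p.1 p.2 e).1 (li p.1 p.2 e).2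
  obtain ⟨M, hM, ha⟩ := L.exists_antilipschitzWith hk
  have hM' : (0 : ℝ) < M := hM
  have hr : LinearMap.range L = vectorSpan ℝ σ := by
    have hc : segment ℝ a b ⊆ closure σ := he.cl ▸ closure_minimal hs isClosed_closure
    refine Submodule.eq_of_le_of_finrank_eq ?_ ?_
    · rintro _ ⟨p, rfl⟩
      exact add_mem (Submodule.smul_mem _ _ (sub_mem_span (hc (left_mem_segment _ _ _))
        (hc (right_mem_segment _ _ _)))) (Submodule.smul_mem _ _ (sub_mem_span hm' (subset_closure hz)))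
    · rw [LinearMap.finrank_range_of_inj (LinearMap.ker_eq_bot.1 hk)]
      simpa [dm] using hσ.2.symm
  refine ⟨z - m, min (δ / 2) (1 / 2) / M, by positivity, LinearIndependent.pair_iff.2 li,
    fun x hx => ?_⟩
  have sm : ∀ α β : ℝ, x = m + α • (b - a) + β • (z - m) → |α| < δ / 2 ∧ |β| < 1 / 2 :=
    fun α β e => by
      have h1 := ZeroHomClass.bound_of_antilipschitz L ha (α, β)
      rw [hL, show α • (b - a) + β • (z - m) = x - m by rw [e]; abel] at h1
      have h2 := h1.trans_lt ((lt_div_iff₀' hM').1 hx)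
      rw [Prod.norm_def, max_lt_iff, lt_min_iff, lt_min_iff] at h2
      exact ⟨h2.1.1, h2.2.2⟩
  have c1 : ∀ α β : ℝ, 0 < β → x = m + α • (b - a) + β • (z - m) → x ∈ σ := fun α β hβ e => by
    obtain ⟨h1, h2⟩ := sm α β e
    have h3 := (abs_lt.1 h2).2
    have p : 0 < 1 - β := by linarith
    have := seg_mem hσ.1 (hs (hE (α / (1 - β)) (by
      rw [abs_div, abs_of_pos p, div_lt_iff₀ p]
      nlinarith))) hz (t := β) ⟨hβ, by linarith⟩
    convert this using 1
    rw [e]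
    match_scalars <;> field_simp <;> ring
  have c0 : ∀ α : ℝ, x = m + α • (b - a) + (0 : ℝ) • (z - m) → x ∈ openSegment ℝ a b :=
    fun α e => by
      have := hE α ((sm α 0 e).1.trans (half_lt_self hδ))
      rwa [e, zero_smul, add_zero]
  have c2 : x ∈ closure σ → ∃ α β : ℝ, 0 ≤ β ∧ x = m + α • (b - a) + β • (z - m) := fun k => by
    obtain ⟨⟨α, β⟩, e⟩ : x - m ∈ LinearMap.range L := hr ▸ sub_mem_span hm' k
    have e' : x = m + α • (b - a) + β • (z - m) := by rw [add_assoc, ← hL, e, add_sub_cancel]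
    refine ⟨α, β, not_lt.1 fun hβ => ?_, e'⟩
    have p : 0 < 1 - β := by linarith
    have h1 := (sm α β e').1
    refine dj _ (hE (α / (1 - β)) (by
      rw [abs_div, abs_of_pos p, div_lt_iff₀ p]
      nlinarith)) ?_
    have := seg_mem hσ.1 k hz (t := -β / (1 - β))
      ⟨div_pos (neg_pos.2 hβ) p, (div_le_one p).2 (by linarith)⟩
    convert this using 1
    rw [e']
    match_scalars <;> field_simp <;> ring
  refine ⟨⟨c2, fun ⟨α, β, hβ, e⟩ => ?_⟩, fun k => ?_, fun ⟨α, β, hβ, e⟩ => c1 α β hβ e⟩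
  · rcases hβ.eq_or_lt with rfl | h
    · exact hs (c0 α e)
    · exact subset_closure (c1 α β h e)
  · obtain ⟨α, β, hβ, e⟩ := c2 (subset_closure k)
    rcases hβ.eq_or_lt with rfl | h
    · exact absurd k (dj _ (c0 α e))
    · exact ⟨α, β, h, e⟩

end Kx

end BEp
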