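import Pool.Agent.Work.MP_f0515e_an.D3.PDefs
import Pool.Agent.Work.MP_f0515e_an.Pos.ADefs

-- merged part: Pool.Agent.Work.MP_f0515e_an.D3.KDefs
section
/-! Locally finite convex cell complexes of an open set of three-space and the statement of the
topological theorem in dimension three. -/

open Set Metric Filter Topology Function BEv
open scoped NNReal ENNReal

noncomputable section
namespace BEp

/-- Piecewise affine on every compact subset of `Ω`. -/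
def LTP {n : ℕ} {F : Type} [NormedAddCommGroup F] [NormedSpace ℝ F] (Ω : Set (Rn n))
    (G : Rn n → F) : Prop :=
  ∀ C, IsCompact C → C ⊆ Ω → ∃ g, TP g ∧ EqOn G g C

/-- Dimension of the affine span. -/
def dm {n : ℕ} (σ : Set (Rn n)) : ℕ := Module.finrank ℝ (vectorSpan ℝ σ)

/-- Affine chart of a segment. -/
def seg {n : ℕ} (a b : Rn n) (t : ℝ) : Rn n := a + t • (b - a)

/-- Locally finite partition of `Ω` into relatively open convex cells; `cell x` is the cell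
of `x`. -/
structure Kx (Ω : Set (Rn 3)) where
  cell : Rn 3 → Set (Rn 3)
  mem : ∀ x ∈ Ω, x ∈ cell x
  eqv : ∀ x ∈ Ω, ∀ y ∈ cell x, cell y = cell x
  sub : ∀ x ∈ Ω, closure (cell x) ⊆ Ω
  cvx : ∀ x ∈ Ω, Convex ℝ (cell x)
  opn : ∀ x ∈ Ω, ∀ y ∈ cell x, ∀ z ∈ cell x, ∃ e : ℝ, 0 < e ∧ y + e • (y - z) ∈ cell x
  poly : ∀ x ∈ Ω, Poly (closure (cell x))
  fr : ∀ x ∈ Ω, ∀ y ∈ closure (cell x), cell y ⊆ closure (cell x)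
  lf : ∀ C, IsCompact C → C ⊆ Ω → (cell '' C).Finite

namespace Kx
variable {Ω : Set (Rn 3)} (K : Kx Ω)

def cells : Set (Set (Rn 3)) := K.cell '' Ω

/-- Cells of dimension `d`. -/
def cel (d : ℕ) : Set (Set (Rn 3)) := {σ | σ ∈ K.cells ∧ dm σ = d}

/-- Skeleton of dimension `d`. -/
def sk (d : ℕ) : Set (Rn 3) := {x | x ∈ Ω ∧ dm (K.cell x) ≤ d}

/-- The open segment from `a` to `b` is a cell. -/
def Edge (a b : Rn 3) : Prop := a ≠ b ∧ openSegment ℝ a b ∈ K.cells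

/-- `K'` refines `K`. -/
def Ref (K' : Kx Ω) : Prop := ∀ x ∈ Ω, K'.cell x ⊆ K.cell x

end Kx

/-- Cell of the coarse grid of a rigid box containing `x`. -/
def Box.cc {m : ℕ} (B : Box m) (s : ℝ) (x : V m) : Set (V m) :=
  {y | y ∈ B.slice ∧ ∀ l ∈ B.I,
    ⌊((y l - B.c l) / s - (B.r + 8)) / 16⌋ = ⌊((x l - B.c l) / s - (B.r + 8)) / 16⌋ ∧
    ⌈((y l - B.c l) / s - (B.r + 8)) / 16⌉ = ⌈((x l - B.c l) / s - (B.r + 8)) / 16⌉}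

/-- An edge to be replaced by a chord: ends, dominant coordinate, radius. -/
structure Chd where
  a : Rn 3
  b : Rn 3
  i : Fin 3
  R : ℝ

def Chd.box (c : Chd) (f : Rn 3 → Rn 3) : Set (Rn 3) :=
  {y | f c.a c.i ≤ y c.i ∧ y c.i ≤ f c.b c.i ∧ ‖y - f c.a‖ ≤ 2 * c.R}

/-- Data of the topological theorem: variation bounds, tolerances, speed profiles, chords,
rigid boxes. -/
structure TopD (ι : Type) where
  Vr : Set (Rn 3) → ℝ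
  θ : Set (Rn 3) → ℝ
  be : Set (Rn 3) → Rn 3 → ℝ
  Ch : Set Chd
  B : ι → Box 1
  s : ℝ
  ε : ι → ℝ
  ε' : ι → ℝ

/-- Hypotheses of the topological theorem. -/
structure TopIn {Ω : Set (Rn 3)} (K : Kx Ω) (f : Rn 3 → Rn 3) {ι : Type} (d : TopD ι) :
    Prop where
  opn : IsOpen Ω
  cont : ContinuousOn f Ω
  inj : InjOn f Ω
  V0 : ∀ σ, 0 ≤ d.Vr σ
  var : ∀ a b, K.Edge a b →
    eVariationOn (fun t => f (seg a b t)) (Icc 0 1) ≤ ENNReal.ofReal (d.Vr (openSegment ℝ a b))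
  θ0 : ∀ σ, 0 < d.θ σ
  be : ∀ a b, K.Edge a b → TP (d.be (openSegment ℝ a b)) ∧
    InjOn (d.be (openSegment ℝ a b)) (segment ℝ a b) ∧
    d.be (openSegment ℝ a b) '' segment ℝ a b = Icc 0 1
  cfin : d.Ch.Finite
  cedge : ∀ c ∈ d.Ch, K.Edge c.a c.b ∧ f c.a c.i < f c.b c.i ∧
    closedBall (f c.a) (2 * c.R) ⊆ f '' Ω ∧ c.R ≤ d.θ (openSegment ℝ c.a c.b) ∧
    ∀ x ∈ segment ℝ c.a c.b, ‖f x - f c.a‖ < c.R
  cval : ∀ c ∈ d.Ch, ∃ e : ℝ, 0 < e ∧ (∀ t ∈ Icc (-e) (1 + e), seg c.a c.b t ∈ K.sk 1) ∧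
    ∀ x ∈ K.sk 1, (‖x - c.a‖ < e ∨ ‖x - c.b‖ < e) → ∃ t, x = seg c.a c.b t
  conce : ∀ c ∈ d.Ch, ∀ x ∈ Ω, (x ∈ K.sk 1 ∨ ∃ t, x = seg c.a c.b t) → f x ∈ c.box f →
    x ∈ segment ℝ c.a c.b ∧ (f x c.i = f c.a c.i → x = c.a) ∧ (f x c.i = f c.b c.i → x = c.b)
  cin : ∀ c ∈ d.Ch, ∀ x ∈ segment ℝ c.a c.b, f x ∈ c.box f
  cdisj : d.Ch.PairwiseDisjoint fun c => c.box f
  cfar : ∀ c ∈ d.Ch, ∀ i, ∀ x ∈ (d.B i).Q d.s 12, ∀ y ∈ c.box f, 5 * d.ε i < ‖y - (d.B i).aff x‖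
  s0 : 0 < d.s
  ε0 : ∀ i, 0 < d.ε i ∧ 0 < d.ε' i
  tiny : ∀ i, 1000000 * (1 + ‖(d.B i).A‖) * d.s * d.ε' i ≤ d.ε i ^ 2
  card : ∀ i, 1 < (d.B i).I.card
  r8 : ∀ i, 8 ∣ (d.B i).r ∧ 16 ≤ (d.B i).r
  QS : ∀ i, (d.B i).Q d.s 40 ⊆ Ω
  disj : ∀ i j, i ≠ j → Disjoint ((d.B i).Q d.s 40) ((d.B j).Q d.s 40)
  grid : ∀ i, ∀ x ∈ (d.B i).Q d.s 24, K.cell x = (d.B i).cc d.s x
  thick : ∀ i, ∃ e > 0, K.sk 1 ∩ (d.B i).thick d.s 30 e ⊆ (d.B i).Sk d.s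
  low : ∀ i, ∀ z : V 1, (∀ l, l ∉ (d.B i).I → z l = 0) →
    1000 * d.ε i * ‖z‖ ≤ d.s * ‖(d.B i).A z‖
  close : ∀ i, ∀ x ∈ K.sk 1 ∩ (d.B i).Q d.s 24, ‖f x - (d.B i).aff x‖ ≤ d.ε' i
  rvar : ∀ i a b, K.Edge a b → a ∈ (d.B i).Q d.s 24 → b ∈ (d.B i).Q d.s 24 →
    eVariationOn (fun t => f (seg a b t) - (d.B i).aff (seg a b t)) (Icc 0 1) ≤
      ENNReal.ofReal (d.ε' i)
  nohit : ∀ i, ∀ x ∈ (d.B i).Q d.s 12, ∀ y ∈ Ω, (y ∈ K.sk 1 ∨ y ∈ (d.B i).Sk d.s) →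
    y ∉ (d.B i).Q d.s 16 → 10 * d.ε i < ‖f y - (d.B i).aff x‖
  rsub : ∀ i, ∀ x ∈ (d.B i).Q d.s 12, closedBall ((d.B i).aff x) (10 * d.ε i) ⊆ f '' Ω
  sep : ∀ i j, i ≠ j → ∀ x ∈ (d.B i).Q d.s 12, ∀ y ∈ (d.B j).Q d.s 12,
    10 * d.ε i < ‖(d.B j).aff y - (d.B i).aff x‖

/-- Conclusion of the topological theorem. -/
structure TopOut {Ω : Set (Rn 3)} (K : Kx Ω) (f : Rn 3 → Rn 3) {ι : Type} (d : TopD ι) (C0 : ℝ)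
    (G : Rn 3 → Rn 3) : Prop where
  inj : InjOn G Ω
  ltp : LTP Ω G
  rig : ∀ i, EqOn G (d.B i).aff ((d.B i).Q d.s 8)
  chord : ∀ c ∈ d.Ch, ∀ t ∈ Icc (0 : ℝ) 1, G (seg c.a c.b t) = seg (f c.a) (f c.b) t
  speed : ∀ a b, K.Edge a b → (∀ c ∈ d.Ch, openSegment ℝ a b ≠ openSegment ℝ c.a c.b) →
    (∀ i, ¬ segment ℝ a b ⊆ (d.B i).Q d.s 8) → ∀ y ∈ segment ℝ a b, ∀ y' ∈ segment ℝ a b,
      ‖G y - G y'‖ ≤ (C0 * d.Vr (openSegment ℝ a b) + d.θ (openSegment ℝ a b)) *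
        |d.be (openSegment ℝ a b) y - d.be (openSegment ℝ a b) y'|
  sup : ∀ y ∈ K.sk 1, ∃ y' ∈ closure (K.cell y), ‖G y - f y'‖ ≤ d.θ (K.cell y) ∨
    ∃ i, (closure (K.cell y) ∩ (d.B i).Q d.s 8).Nonempty ∧ ‖G y - f y'‖ ≤ 20 * d.ε i

/-- The topological theorem in dimension three. -/
def TopG : Prop :=
  ∃ C0 : ℝ, 1 ≤ C0 ∧ ∀ (Ω : Set (Rn 3)) (K : Kx Ω) (f : Rn 3 → Rn 3) (ι : Type) [Finite ι]
    (d : TopD ι), TopIn K f d → ∃ G, TopOut K f d C0 G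

end BEp
end
end

-- merged part: Pool.Agent.Work.MP_f0515e_an.D3.LDefs
section
/-! Definitions for the passage from the core to an arbitrary open set in dimension three. -/

open Set Metric Filter Topology Function BEv MeasureTheory
open scoped NNReal ENNReal

noncomputable section
namespace BEp

section General
variable {n : ℕ}

/-- Energy density of the difference. -/
def en (p : ℝ) (F f : Rn n → Rn n) (D : Rn n → Rn n →L[ℝ] Rn n) (x : Rn n) : ℝ≥0∞ :=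
  ‖F x - f x‖ₑ ^ p + ‖fderiv ℝ F x - D x‖ₑ ^ p

/-- Limits of PL homeomorphisms supported in `U`. -/
def CS (U : Set (Rn n)) (T : Rn n → Rn n) : Prop := App (Mv U) T

/-- Gluing of a sequence of maps with disjoint supports. -/
def gli (φ : ℕ → Rn n → Rn n) (z : Rn n) : Rn n := z + ∑ᶠ j, (φ j z - z)

/-- Disjoint compact sets, locally finite in `Ω`. -/
structure Fam (Ω : Set (Rn n)) (U : ℕ → Set (Rn n)) : Prop where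
  cpt : ∀ i, IsCompact (U i)
  sub : ∀ i, U i ⊆ Ω
  disj : ∀ i j, i ≠ j → Disjoint (U i) (U j)
  lf : ∀ C, IsCompact C → C ⊆ Ω → {i | (U i ∩ C).Nonempty}.Finite

/-- PL self-homeomorphism of `Ω`. -/
def LLH (Ω : Set (Rn n)) (B : Rn n → Rn n) : Prop :=
  BijOn B Ω Ω ∧ ∀ C, IsCompact C → C ⊆ Ω → ∃ b, LH b ∧ EqOn B b C

/-- Level function of an open set. -/
structure Lev (Ω : Set (Rn n)) (d : Rn n → ℝ) : Prop where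
  lip : ∀ x y, |d x - d y| ≤ ‖x - y‖
  nn : ∀ x, 0 ≤ d x
  pos : ∀ x, 0 < d x ↔ x ∈ Ω
  cpt : ∀ a, 0 < a → IsCompact {x | a ≤ d x}
  ltp : LTP Ω d

/-- Band number `j`. -/
def bnd (d : Rn n → ℝ) (r a b : ℝ) (j : ℕ) : Set (Rn n) :=
  {x | a * (r / 2 ^ j) ≤ d x ∧ (j ≠ 0 → d x ≤ b * (r / 2 ^ j))}

abbrev lyA (d : Rn n → ℝ) (r : ℝ) : ℕ → Set (Rn n) := bnd d r (1 / 2) 1
abbrev lyF (d : Rn n → ℝ) (r : ℝ) : ℕ → Set (Rn n) := bnd d r (15 / 32) (17 / 16)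
abbrev lyS (d : Rn n → ℝ) (r : ℝ) : ℕ → Set (Rn n) := bnd d r (7 / 16) (9 / 8)

/-- Local scale. -/
def aa (d : Rn n → ℝ) (r : ℝ) (x : Rn n) : ℝ := min 1 (2 * d x / r)

/-- Damped translation. -/
def kap (d : Rn n → ℝ) (r : ℝ) (t x : Rn n) : Rn n := x + aa d r x • t

/-- Local average. -/
def hh (d : Rn n → ℝ) (r η : ℝ) (Φ : Rn n → ℝ≥0∞) (z : Rn n) : ℝ≥0∞ :=
  (ENNReal.ofReal (aa d r z))⁻¹ ^ n * ∫⁻ x in closedBall z (5 * η * aa d r z), Φ x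

/-- Monotone and positive on the positive reals. -/
def MP (σ : ℝ → ℝ) : Prop := Monotone σ ∧ ∀ s, 0 < s → 0 < σ s

/-- `f` is absolutely continuous with derivative given by `D` along every polygonal path in `S`
on which `v` is integrable. -/
def UG (S : Set (Rn n)) (f : Rn n → Rn n) (D : Rn n → Rn n →L[ℝ] Rn n) (v : Rn n → ℝ≥0∞) :
    Prop :=
  ∀ γ : ℝ → Rn n, TP γ → MapsTo γ (Icc 0 1) S → ∫⁻ s in Icc (0 : ℝ) 1, v (γ s) ≠ ⊤ →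
    ∫⁻ s in Icc (0 : ℝ) 1, ‖D (γ s)‖ₑ ≠ ⊤ ∧
    IntervalIntegrable (fun s => D (γ s) (deriv γ s)) volume 0 1 ∧
    ∀ s ∈ Icc (0 : ℝ) 1, f (γ s) = f (γ 0) + ∫ x in (0 : ℝ)..s, D (γ x) (deriv γ x)

/-- Points near which `T` is not constant. -/
def mov (T : Rn n → Rn n) : Set (Rn n) := {z | ¬ ∀ᶠ x in 𝓝 z, T x = T z}

end General

/-- `g` is an integrable upper gradient of `f` along the edges. -/
def EUG {Ω : Set (Rn 3)} (K : Kx Ω) (f : Rn 3 → Rn 3) (g : Rn 3 → ℝ≥0∞) : Prop :=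
  ∀ a b, K.Edge a b → ∫⁻ s in Icc (0 : ℝ) 1, g (seg a b s) ≠ ⊤ ∧
    ∀ s s', 0 ≤ s → s ≤ s' → s' ≤ 1 →
      ‖f (seg a b s') - f (seg a b s)‖ₑ ≤ ‖b - a‖ₑ * ∫⁻ x in Icc s s', g (seg a b x)

/-- `g` bounds the speed of `G` along the edges off `H`. -/
def ESp {Ω : Set (Rn 3)} (K : Kx Ω) (H : Set (Rn 3)) (G : Rn 3 → Rn 3) (g : Rn 3 → ℝ≥0∞) :
    Prop :=
  ∀ a b, K.Edge a b → ∀ᵐ s : ℝ, s ∈ Icc (0 : ℝ) 1 → seg a b s ∉ H →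
    ‖deriv (fun s => G (seg a b s)) s‖ₑ ≤ ‖b - a‖ₑ * g (seg a b s)

/-- Measures which are finite and absolutely continuous on the edges and vanish on `H`. -/
structure EMe {Ω : Set (Rn 3)} (K : Kx Ω) (H : Set (Rn 3)) (ν : Measure (Rn 3)) : Prop where
  fin : ∀ a b, K.Edge a b → ν (segment ℝ a b) ≠ ⊤
  ac : ∀ a b, K.Edge a b → ∀ N : Set ℝ, volume N = 0 → ν (seg a b '' N) = 0
  off : ν H = 0

/-- Damped retraction onto the edges of the grid of mesh `s` and offset `ω`. -/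
def rgd (c : V 1 → ℝ) (s : ℝ) (ω : V 1) (Φ : V 1 → V 1) : V 1 → V 1 :=
  loc c (cj (ContinuousLinearEquiv.refl ℝ (V 1)) 0 s ω Φ)

/-- Distance to the dual skeleton of the grid. -/
def bgd (s : ℝ) (ω z : V 1) : ℝ :=
  beI Finset.univ (xi (ContinuousLinearEquiv.refl ℝ (V 1)) 0 s ω z)

/-- Edges of the grid. -/
def sgd (s : ℝ) (ω : V 1) : Set (V 1) :=
  {z | xi (ContinuousLinearEquiv.refl ℝ (V 1)) 0 s ω z ∈ SkI Finset.univ}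

/-- First output of the core statement. -/
structure CoreA (S K0 : Set (V 1)) (η0 η η1 : ℝ) (Q H : Set (V 1)) (c0 : V 1 → ℝ) : Prop where
  ηle : η ≤ η0
  η10 : 0 < η1
  η1le : 8 * η1 ≤ η
  mQ : MeasurableSet Q
  QS : Q ⊆ S
  cov : ∀ x ∈ K0, ∀ t : V 1, ‖t‖ ≤ η → x - t ∈ Q
  cH : IsCompact H
  HQ : H ⊆ Q
  gap : ∀ z, z ∉ Q → ∀ y ∈ H, η1 < ‖y - z‖
  tp : TP c0
  lip : ∀ x y, |c0 x - c0 y| ≤ ‖x - y‖
  nn : ∀ x, 0 ≤ c0 x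
  le : ∀ x, c0 x ≤ η1
  full : ∀ z, z ∉ Q → c0 z = η1

/-- Last input of the core statement. -/
structure CoreIn {Ω : Set (V 1)} (K : Kx Ω) (p : ℝ) (S H : Set (V 1)) (f0 : V 1 → V 1)
    (D : V 1 → V 1 →L[ℝ] V 1) (t : V 1) (f : V 1 → V 1) (g : V 1 → ℝ≥0∞) (ν : Measure (V 1)) :
    Prop where
  cont : ContinuousOn f Ω
  inj : InjOn f Ω
  eq : ∀ x ∈ S, f x = f0 (x + t)
  mg : Measurable g
  ug : EUG K f g
  le : ∀ x ∈ S, ‖D (x + t)‖ₑ ≤ g x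
  me : EMe K H ν
  fin : ∫⁻ y, g y ^ p ∂ν ≠ ⊤

/-- Last output of the core statement. -/
structure CoreOut {Ω : Set (V 1)} (K : Kx Ω) (p : ℝ) (Q H : Set (V 1)) (r1 : ℕ → V 1 → V 1)
    (f : V 1 → V 1) (D' : V 1 → V 1 →L[ℝ] V 1) (ν : Measure (V 1)) (θ : Set (V 1) → ℝ)
    (e e' : ℝ≥0∞) (G : V 1 → V 1) (g' : V 1 → ℝ≥0∞) (Sc : ℕ → V 1 → V 1) : Prop where
  inj : InjOn G Ω
  ltp : LTP Ω G
  cs : ∀ k, CS H (Sc k)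
  mg : Measurable g'
  sp : ESp K H G g'
  int : ∫⁻ y, g' y ^ p ∂ν ≤ e'
  sup : ∀ y ∈ K.sk 1, y ∉ H → ∃ y' ∈ closure (K.cell y), ‖G y - f y'‖ ≤ θ (K.cell y)
  en : ∀ᶠ K2 in atTop, ∀ᶠ K1 in atTop, ∫⁻ z in Q, en p (G ∘ Sc K2 ∘ r1 K1) f D' z ≤ e

/-- The core statement in dimension three. -/
def Core3 (p : ℝ) : Prop :=
  ∃ C : ℝ≥0∞, C ≠ ⊤ ∧ ∀ (S K0 : Set (V 1)) (f0 : V 1 → V 1) (D : V 1 → V 1 →L[ℝ] V 1)
    (v : V 1 → ℝ≥0∞) (e : ℝ≥0∞) (η0 : ℝ), IsCompact S → IsCompact K0 → K0 ⊆ interior S →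
    Continuous f0 → InjOn f0 S → Measurable D → ∫⁻ x in S, ‖D x‖ₑ ^ p ≠ ⊤ → Measurable v →
    ∫⁻ x in S, v x ≠ ⊤ → UG S f0 D v →
    (∃ u : ℕ → V 1 → V 1, (∀ j, ContDiff ℝ 1 (u j)) ∧ TendstoUniformlyOn u f0 atTop S ∧
      Tendsto (fun j => ∫⁻ x in S, ‖fderiv ℝ (u j) x - D x‖ₑ ^ p) atTop (𝓝 0)) → e ≠ 0 → 0 < η0 →
    ∃ (η η1 : ℝ) (Q H : Set (V 1)) (c0 : V 1 → ℝ), CoreA S K0 η0 η η1 Q H c0 ∧
      ∀ (Ω : Set (V 1)) (τ0 : Kx Ω), IsOpen Ω → S ⊆ Ω →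
        ∃ (K : Kx Ω) (E : V 1 → ℝ≥0∞), τ0.Ref K ∧ Measurable E ∧
          ∫⁻ t in closedBall (0 : V 1) η, E t ≤ e * volume (closedBall (0 : V 1) η) ∧
          ∀ t ∈ closedBall (0 : V 1) η, E t ≠ ⊤ → ∀ f g ν, CoreIn K p S H f0 D t f g ν →
            ∀ θ : Set (V 1) → ℝ, (∀ σ, 0 < θ σ) → ∀ ε : ℝ≥0∞, ε ≠ 0 → ∃ G g' Sc,
              CoreOut K p Q H (fun k => rgd c0 η1 0 (RI Finset.univ k)) f (fun z => D (z + t)) ν θ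
                (e + E t) (C * ∫⁻ y, g y ^ p ∂ν + ε) G g' Sc

/-- Cuts and meshes of the layers. -/
structure Lys where
  c : ℕ → V 1 → ℝ
  η : ℕ → ℝ

namespace Lys
variable (L : Lys)

def R (ω : ℕ → V 1) (Φ : ℕ → V 1 → V 1) (j : ℕ) : V 1 → V 1 := rgd (L.c j) (L.η j) (ω j) (Φ j)

/-- Gluing of the layers of parity `π`. -/
def Gl (π : ℕ) (ω : ℕ → V 1) (Φ : ℕ → V 1 → V 1) : V 1 → V 1 := gli fun i => L.R ω Φ (2 * i + π)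

/-- Weight of the layers of parity `π`. -/
def Wp (d : V 1 → ℝ) (r : ℝ) (π : ℕ) (ω : ℕ → V 1) (z : V 1) : ℝ≥0∞ :=
  1 + ∑' i, indicator (lyS d r (2 * i + π))
    (fun y => (ENNReal.ofReal (bgd (L.η (2 * i + π)) (ω (2 * i + π)) y))⁻¹) z

def EL : V 1 → V 1 := L.Gl 0 0 fun _ => RL Finset.univ

def W (d : V 1 → ℝ) (r : ℝ) (ω : ℕ → V 1) (z : V 1) : ℝ≥0∞ :=
  L.Wp d r 0 0 z * L.Wp d r 1 ω (L.EL z)

structure Ok (d : V 1 → ℝ) (r η : ℝ) (σ : ℝ → ℝ) (Q : Set (V 1)) : Prop where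
  r0 : 0 < r
  ηr : 1024 * η ≤ r
  tp : ∀ j, TP (L.c j)
  lip : ∀ j x y, |L.c j x - L.c j y| ≤ ‖x - y‖
  nn : ∀ j x, 0 ≤ L.c j x
  le : ∀ j x, L.c j x ≤ L.η j
  off : ∀ j x, x ∉ lyS d r j → L.c j x = 0
  full : ∀ j, ∀ x ∈ lyF d r j, x ∉ Q → L.c j x = L.η j
  pos : ∀ j, 0 < L.η j
  sm : ∀ j, 8 * 2 ^ j * L.η j ≤ η
  mp : MP σ
  sg : ∀ j, 2 * L.η j ≤ σ (r / 2 ^ j / 8)
  Qr : ∀ x ∈ Q, r ≤ d x

end Lys

/-- Retraction depth functions. -/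
def dep (m : ℕ → ℕ) (j : ℕ) : V 1 → V 1 := RI Finset.univ (m (j + 2))

/-- The layered retraction. -/
structure Ret (Ω : Set (V 1)) (d : V 1 → ℝ) (r η : ℝ) (σ : ℝ → ℝ) (Q H : Set (V 1))
    (r1 : ℕ → V 1 → V 1) where
  UE : ℕ → Set (V 1)
  UO : ℕ → Set (V 1)
  RE : (ℕ → ℕ) → ℕ → V 1 → V 1
  RO : (ℕ → ℕ) → ℕ → V 1 → V 1
  TL : V 1 → V 1
  W : V 1 → ℝ≥0∞
  Z : ℕ → Set (V 1)
  famE : Fam Ω UE
  famO : Fam Ω UO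
  lowO : ∀ i, ∀ z ∈ UO i, d z < 3 * r / 4
  csE : ∀ m i, CS (UE i) (RE m i)
  csO : ∀ m i, CS (UO i) (RO m i)
  core : ∀ m z, 3 * r / 4 ≤ d z → gli (RE m) z = r1 (m 2) z
  mT : Measurable TL
  mW : Measurable W
  one : ∀ z, 1 ≤ W z
  pcZ : ∀ j, PC 1 (Z j)
  Zsub : ∀ j, Z j ⊆ Ω
  Zlf : ∀ C, IsCompact C → C ⊆ Ω → {j | (Z j ∩ C).Nonempty}.Finite
  mvE : ∀ m z, ‖gli (RE m) z - z‖ ≤ η * aa d r z
  mv : ∀ mE mO z, ‖gli (RO mO) (gli (RE mE) z) - z‖ ≤ η * aa d r z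
  mvL : ∀ z ∈ Ω, ‖TL z - z‖ ≤ η * aa d r z ∧ ‖TL z - z‖ ≤ σ (d z)
  offH : ∀ z ∈ Ω, z ∉ Q → TL z ∉ H ∧ ∀ m, gli (RE m) z ∉ H
  land : ∀ z ∈ Ω, z ∉ Q → W z ≠ ⊤ → TL z ∈ ⋃ j, Z j
  ev : ∀ mE mO, Monotone mE → Monotone mO → ∀ j, ∀ z ∈ lyA d r j, W z < 2 ^ mE j →
    W z < 2 ^ mO j → gli (RO mO) ∘ gli (RE mE) =ᶠ[𝓝 z] TL
  ll1 : ∀ mE mO, Monotone mE → ∀ j, ∀ z ∈ lyA d r j, W z < 2 ^ mE j →
    LL (gli (RO mO) ∘ gli (RE mE)) z (4 * (W z).toReal)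
  ll0 : ∀ mO j, ∃ c : ℝ, 0 ≤ c ∧ ∀ mE, ∀ z ∈ lyA d r j, W z ≠ ⊤ →
    LL (gli (RO mO) ∘ gli (RE mE)) z (c * (W z).toReal)

namespace Ret
variable {Ω : Set (V 1)} {d : V 1 → ℝ} {r η : ℝ} {σ : ℝ → ℝ} {Q H : Set (V 1)}
  {r1 : ℕ → V 1 → V 1} (X : Ret Ω d r η σ Q H r1)

def T (mE mO : ℕ → ℕ) : V 1 → V 1 := gli (X.RO mO) ∘ gli (X.RE mE)

/-- The measure carried by the edges. -/
def ν (p : ℝ) : Measure (V 1) :=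
  ((volume.restrict ((Ω \ Q) ∩ mov X.TL)).withDensity fun z => X.W z ^ p).map X.TL

end Ret

end BEp
end
end
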