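import Pool.Agent.Work.MP_f0515e_an.D3.NDefs
import Pool.Agent.Work.MP_f0515e_an.D3.CTop
import Pool.Agent.Work.MP_f0515e_an.D3.LDefs
import Pool.Agent.Work.MP_f0515e_an.Pos.HBor
import Pool.Agent.Work.MP_f0515e_an.Pos.AG2

-- merged part: Pool.Agent.Work.MP_f0515e_an.D3.NGeo0
section
/-! Edges in the rigid boxes: position, length, variation. -/

open Set Metric Filter Topology Function BEv MeasureTheory
open scoped NNReal ENNReal

noncomputable section
namespace BEp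

theorem NGeo0_closed (B : Box 1) (s ρ : ℝ) : IsClosed (B.Q s ρ) := by
  have : B.Q s ρ = (⋂ l, ⋂ (_ : l ∉ B.I), {x : Rn 3 | x l = B.c l}) ∩
      ⋂ l ∈ B.I, {x : Rn 3 | |x l - B.c l| ≤ s * (B.r + ρ)} := by
    ext y; simp [Box.Q, Box.slice]
  rw [this]
  exact (isClosed_iInter fun l => isClosed_iInter fun _ =>
    isClosed_eq (continuous_apply l) continuous_const).inter (isClosed_biInter fun l _ =>
      isClosed_le (by fun_prop) continuous_const)

theorem NGeo0_cc {B : Box 1} {s : ℝ} (hs : 0 < s) (h8 : 8 ∣ B.r) {x : Rn 3}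
    (hx : x ∈ B.Q s 24) : B.cc s x ⊆ B.Q s 24 := by
  intro y hy
  refine ⟨hy.1, fun l hl => ?_⟩
  obtain ⟨e1, e2⟩ := hy.2 l hl
  obtain ⟨n, hn⟩ := h8
  have hr : (B.r : ℝ) = 8 * n := by rw [hn]; push_cast; ring
  have k := abs_le.1 (hx.2 l hl)
  have k1 : ((x l - B.c l) / s - (B.r + 8)) / 16 ≤ ((1 : ℤ) : ℝ) := by
    have : (x l - B.c l) / s ≤ B.r + 24 := by rw [div_le_iff₀ hs]; linarith [k.2]
    push_cast; linarith
  have k2 : ((-(n + 2) : ℤ) : ℝ) ≤ ((x l - B.c l) / s - (B.r + 8)) / 16 := by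
    have : -(B.r + 24 : ℝ) ≤ (x l - B.c l) / s := by rw [le_div_iff₀ hs]; linarith [k.1]
    push_cast; linarith
  have k3 := Int.ceil_le.1 (e2.trans_le (Int.ceil_le.2 k1))
  have k4 := Int.le_floor.1 ((Int.le_floor.2 k2).trans_eq e1.symm)
  push_cast at k3 k4
  have k5 : (y l - B.c l) / s ≤ B.r + 24 := by linarith
  have k6 : -(B.r + 24 : ℝ) ≤ (y l - B.c l) / s := by linarith
  rw [div_le_iff₀ hs] at k5
  rw [le_div_iff₀ hs] at k6
  exact abs_le.2 ⟨by linarith, by linarith⟩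

theorem NGeo0_len {B : Box 1} {s : ℝ} (hs : 0 < s) {x a b : Rn 3} (hx : x ∈ B.slice)
    (hab : a ≠ b) (e : B.cc s x = openSegment ℝ a b) : 8 * s ≤ ‖b - a‖ := by
  set ξ : Rn 3 → Fin 3 → ℝ := fun y l => ((y l - B.c l) / s - (B.r + 8)) / 16 with hξ
  by_cases h : ∃ l ∈ B.I, ⌊ξ x l⌋ ≠ ⌈ξ x l⌉
  · obtain ⟨l, hl, hne⟩ := h
    have h1 : ⌈ξ x l⌉ = ⌊ξ x l⌋ + 1 := by
      have := Int.floor_le_ceil (ξ x l)
      have := Int.ceil_le_floor_add_one (ξ x l)
      omega
    have key : ∀ u : ℝ, 0 < u → u < 1 →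
        update x l (B.c l + s * (B.r + 8 + 16 * (⌊ξ x l⌋ + u))) ∈ segment ℝ a b := fun u h0 hu => by
      refine openSegment_subset_segment _ _ _ (e ▸ ⟨fun k hk => ?_, fun k hk => ?_⟩)
      · rw [update_of_ne (fun c : k = l => hk (c ▸ hl))]
        exact hx k hk
      · by_cases c : k = l
        · subst c
          have e1 : ((B.c k + s * (B.r + 8 + 16 * (⌊ξ x k⌋ + u)) - B.c k) / s - (B.r + 8)) / 16 =
              ⌊ξ x k⌋ + u := by
            field_simp
            ring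
          rw [update_self, e1]
          refine ⟨Int.floor_eq_iff.2 ⟨by linarith, by linarith⟩, ?_⟩
          rw [show ⌈((x k - B.c k) / s - (B.r + 8)) / 16⌉ = _ from h1, Int.ceil_eq_iff]
          push_cast
          exact ⟨by linarith, by linarith⟩
        · rw [update_of_ne c]
          exact ⟨rfl, rfl⟩
    have k1 := key (1 / 4) (by norm_num) (by norm_num)
    have k2 := key (3 / 4) (by norm_num) (by norm_num)
    rw [← seg_image] at k1 k2
    obtain ⟨t, ht, e1⟩ := k1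
    obtain ⟨t', ht', e2⟩ := k2
    have e3 := congrFun e1 l
    have e4 := congrFun e2 l
    simp only [seg, update_self, Pi.add_apply, Pi.smul_apply, smul_eq_mul] at e3 e4
    have e5 : |(b - a) l| ≤ ‖b - a‖ := norm_le_pi_norm (b - a) l
    have e6 : (t' - t) * (b - a) l = 8 * s := by linarith
    have e7 : |t' - t| ≤ 1 := abs_le.2 ⟨by linarith [ht.2, ht'.1], by linarith [ht.1, ht'.2]⟩
    calc 8 * s ≤ |t' - t| * |(b - a) l| := by rw [← abs_mul, e6]; exact le_abs_self _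
      _ ≤ 1 * ‖b - a‖ := mul_le_mul e7 e5 (abs_nonneg _) zero_le_one
      _ = _ := one_mul _
  · push Not at h
    have key : ∀ y ∈ B.cc s x, y = x := fun y hy => funext fun l => by
      by_cases hl : l ∈ B.I
      · obtain ⟨e1, e2⟩ := hy.2 l hl
        have k := h l hl
        have k1 : ξ y l = ξ x l := by
          have a1 := Int.floor_le (ξ y l)
          have a2 := Int.le_ceil (ξ y l)
          have a3 := Int.floor_le (ξ x l)
          have a4 := Int.le_ceil (ξ x l)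
          rw [show ⌊ξ y l⌋ = _ from e1] at a1
          rw [show ⌈ξ y l⌉ = _ from e2] at a2
          change (⌊ξ x l⌋ : ℝ) ≤ _ at a1
          change _ ≤ (⌈ξ x l⌉ : ℝ) at a2
          rw [← k] at a2 a4
          linarith
        simp only [hξ] at k1
        field_simp at k1
        linarith
      · rw [hy.1 l hl, hx l hl]
    rw [e, ← seg_image_open] at key
    have k1 := key _ ⟨1 / 4, by norm_num, rfl⟩
    have k2 := key _ ⟨3 / 4, by norm_num, rfl⟩
    refine absurd (funext fun l => ?_) hab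
    have e3 := congrFun (k1.trans k2.symm) l
    simp only [seg, Pi.add_apply, Pi.smul_apply, Pi.sub_apply, smul_eq_mul] at e3
    linarith

variable {Ω : Set (Rn 3)} {K : Kx Ω} {f : Rn 3 → Rn 3} {ι : Type} {B : ι → Box 1} {s : ℝ}
  {ε ε' : ι → ℝ}

theorem RigIn.edge24 (h : RigIn K f B s ε ε') {a b x : Rn 3} (he : K.Edge a b)
    (hx : x ∈ openSegment ℝ a b) {i : ι} (hq : x ∈ (B i).Q s 24) :
    segment ℝ a b ⊆ (B i).Q s 24 ∧ 8 * s ≤ ‖b - a‖ := by
  have e : (B i).cc s x = openSegment ℝ a b := (h.grid i x hq).symm.trans (Kx.cell_eq he.2 hx)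
  refine ⟨?_, NGeo0_len h.s0 hq.1 he.1 e⟩
  rw [← he.cl, ← e]
  exact closure_minimal (NGeo0_cc h.s0 (h.r8 i).1 hq) (NGeo0_closed _ _ _)

theorem vr_aff (f : Rn 3 → Rn 3) (P : Box 1) (a b : Rn 3) :
    vr f a b ≤ vr (fun x => f x - P.aff x) a b + ENNReal.ofReal ‖P.A (b - a)‖ := by
  have hm : MonotoneOn (fun t : ℝ => ‖P.A (b - a)‖ * t) (Icc 0 1) :=
    fun x _ y _ hxy => mul_le_mul_of_nonneg_left hxy (norm_nonneg _)
  have h1 := (hm.eVariationOn_eq (a := 0) (b := 1) (by simp) (by simp)).le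
  rw [inter_self] at h1
  simp only [mul_one, mul_zero, sub_zero] at h1
  refine iSup_le ?_
  rintro ⟨n, u, hu, us⟩
  have h2 := eVariationOn.sum_le (f := fun t => f (seg a b t) - P.aff (seg a b t)) (n := n) hu us
  have h3 := eVariationOn.sum_le (f := fun t : ℝ => ‖P.A (b - a)‖ * t) (n := n) hu us
  refine le_trans ?_ (add_le_add h2 (h3.trans h1))
  rw [← Finset.sum_add_distrib]
  refine Finset.sum_le_sum fun k _ => ?_
  have e : ∀ t, f (seg a b t) = (f (seg a b t) - P.aff (seg a b t)) + P.aff (seg a b t) :=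
    fun t => (sub_add_cancel _ _).symm
  change edist (f (seg a b (u (k + 1)))) (f (seg a b (u k))) ≤ _
  conv_lhs => rw [e (u (k + 1)), e (u k)]
  refine (edist_add_add_le _ _ _ _).trans (add_le_add le_rfl (le_of_eq ?_))
  have e1 : P.aff (seg a b (u (k + 1))) - P.aff (seg a b (u k)) =
      (u (k + 1) - u k) • P.A (b - a) := by
    simp only [Box.aff, seg, map_sub, map_add, map_smul]
    module
  rw [edist_dist, edist_dist, dist_eq_norm, e1, norm_smul, Real.dist_eq, ← mul_sub, abs_mul,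
    abs_norm, Real.norm_eq_abs, mul_comm]

theorem RigIn.vr24 (h : RigIn K f B s ε ε') {a b : Rn 3} (he : K.Edge a b) {i : ι}
    (hq : segment ℝ a b ⊆ (B i).Q s 24) : (vr f a b).toReal ≤ ε' i + ‖(B i).A‖ * ‖b - a‖ := by
  have h0 := (h.ε0 i).2.le
  refine ENNReal.toReal_le_of_le_ofReal (by positivity) ((vr_aff f (B i) a b).trans ?_)
  rw [ENNReal.ofReal_add h0 (by positivity)]
  exact add_le_add (h.rvar i a b he (hq (left_mem_segment _ _ _)) (hq (right_mem_segment _ _ _)))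
    (ENNReal.ofReal_le_ofReal ((B i).A.le_opNorm _))

end BEp
end
end

-- merged part: Pool.Agent.Work.MP_f0515e_an.D3.ODefs
section
/-! One-dimensional analysis on the edges: definitions. -/

open Set Metric Filter Topology Function BEv MeasureTheory
open scoped NNReal ENNReal

noncomputable section
namespace BEp

/-- Output of the analysis on the unit interval: oriented chords `C` with a coordinate, nodes `U`,
exceptional points `F`, speed profile `P`, error bound `φ`. -/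
structure OneD (g d : ℝ → Rn 3) (ν : Measure ℝ) (p C0 : ℝ) (e : ℝ≥0∞) (δ h : ℝ)
    (C : Set (ℝ × ℝ × Fin 3)) (U F : Set ℝ) (P φ : ℝ → ℝ) : Prop where
  Cfin : C.Finite
  Ufin : U.Finite
  Ffin : F.Finite
  U0 : (0 : ℝ) ∈ U
  U1 : (1 : ℝ) ∈ U
  Usub : U ⊆ Icc 0 1
  tp : TP P
  mono : StrictMonoOn P (Icc 0 1)
  meas : Measurable φ
  φ0 : ∀ t, 0 ≤ φ t
  int : ∫⁻ t, ENNReal.ofReal (φ t) ^ p ∂ν ≤ e
  ends : ∀ q ∈ C, q.1 ∈ U ∧ q.2.1 ∈ U ∧ q.1 ≠ q.2.1 ∧ Disjoint (uIoo q.1 q.2.1) U ∧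
    q.1 ∈ Icc δ (1 - δ) ∧ q.2.1 ∈ Icc δ (1 - δ) ∧ |q.2.1 - q.1| ≤ h ∧ |q.2.1 - q.1| < δ
  cone : ∀ q ∈ C, ∀ x, |x - q.1| < δ →
    (g q.1 q.2.2 ≤ g x q.2.2 ∧ g x q.2.2 ≤ g q.2.1 q.2.2 ↔ x ∈ uIcc q.1 q.2.1) ∧
      (g x q.2.2 = g q.1 q.2.2 → x = q.1) ∧ (g x q.2.2 = g q.2.1 q.2.2 → x = q.2.1)
  disj : ∀ q ∈ C, ∀ q' ∈ C, q ≠ q' → Disjoint (uIcc q.1 q.2.1) (uIcc q'.1 q'.2.1) ∧
    (|q'.1 - q.1| < δ → q'.2.2 = q.2.2)
  chord : ∀ q ∈ C, ∀ t ∈ uIoo q.1 q.2.1, ‖(q.2.1 - q.1)⁻¹ • (g q.2.1 - g q.1) - d t‖ ≤ φ t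
  var : ∀ u ∈ U, ∀ u' ∈ U, eVariationOn g (uIcc u u') ≤ ENNReal.ofReal |P u' - P u|
  res : ∀ t ∈ Ioo (0 : ℝ) 1, t ∉ F → (∀ q ∈ C, t ∉ uIoo q.1 q.2.1) →
    ∃ v, LL P t v ∧ (C0 + 1) * v + ‖d t‖ ≤ φ t

/-- `A j`, `B j` are the ends of the edges of `Ec`. -/
structure OFam {Ω : Set (Rn 3)} (K : Kx Ω) (Ec : Set (Set (Rn 3))) {J : Type} (A B : J → Rn 3) :
    Prop where
  edge : ∀ j, K.Edge (A j) (B j)
  mem : ∀ j, openSegment ℝ (A j) (B j) ∈ Ec
  inj : ∀ j j', openSegment ℝ (A j) (B j) = openSegment ℝ (A j') (B j') → j = j'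
  sur : ∀ σ ∈ Ec, ∃ j, σ = openSegment ℝ (A j) (B j)

/-- `K'` is `K` with the edge `j` cut at the parameters `U j`. -/
structure OSub {Ω : Set (Rn 3)} (K K' : Kx Ω) {J : Type} (A B : J → Rn 3) (U : J → Set ℝ) :
    Prop where
  ref : K.Ref K'
  sk : K'.sk 1 = K.sk 1
  off : ∀ x ∈ Ω, (∀ j, x ∉ openSegment ℝ (A j) (B j)) → K'.cell x = K.cell x
  edge : ∀ j, ∀ u ∈ U j, ∀ u' ∈ U j, u ≠ u' → Disjoint (uIoo u u') (U j) →
    K'.Edge (seg (A j) (B j) u) (seg (A j) (B j) u')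
  split : ∀ v w, K'.Edge v w →
    (K.Edge v w ∧ ∀ j, openSegment ℝ v w ≠ openSegment ℝ (A j) (B j)) ∨
      ∃ j, ∃ u ∈ U j, ∃ u' ∈ U j, u ≠ u' ∧ Disjoint (uIoo u u') (U j) ∧
        v = seg (A j) (B j) u ∧ w = seg (A j) (B j) u'

/-- Choice of the radius `R` and the mesh `h` on the edge from `a` to `b`. -/
def OGeo {Ω : Set (Rn 3)} (K : Kx Ω) (f : Rn 3 → Rn 3) (a b : Rn 3) (δ R h : ℝ) : Prop :=
  ∀ s ∈ Icc δ (1 - δ), closedBall (f (seg a b s)) (2 * R) ⊆ f '' Ω ∧
    (∀ t ∈ Icc (0 : ℝ) 1, |t - s| ≤ h → ‖f (seg a b t) - f (seg a b s)‖ < R) ∧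
    ∀ x ∈ Ω, (x ∈ K.sk 1 ∨ ∃ t, x = seg a b t) → ‖f x - f (seg a b s)‖ ≤ 4 * R →
      ∃ t, |t - s| < δ ∧ x = seg a b t

/-- The chords. -/
def oCh {J : Type} (A B : J → Rn 3) (C : J → Set (ℝ × ℝ × Fin 3)) (R : ℝ) : Set Chd :=
  {c | ∃ j, ∃ q ∈ C j, c = ⟨seg (A j) (B j) q.1, seg (A j) (B j) q.2.1, q.2.2, R⟩}

theorem seg_seg (a b : Rn 3) (s t x : ℝ) :
    seg (seg a b s) (seg a b t) x = seg a b (s + x * (t - s)) := by
  unfold seg
  module

theorem seg_sub (a b : Rn 3) (s t : ℝ) : seg a b s - seg a b t = (s - t) • (b - a) := by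
  unfold seg
  module

theorem o_line (a b : Rn 3) : seg a b = AffineMap.lineMap a b := by
  funext t
  simp [seg, AffineMap.lineMap_apply, add_comm]

theorem o_inj {a b : Rn 3} (h : a ≠ b) : Injective (seg a b) := by
  rw [o_line]
  exact AffineMap.lineMap_injective ℝ h

theorem o_cs (a b : Rn 3) (p q : ℝ) :
    segment ℝ (seg a b p) (seg a b q) = seg a b '' uIcc p q := by
  rw [o_line, ← segment_eq_uIcc, image_segment]

theorem o_os (a b : Rn 3) {p q : ℝ} (h : p ≠ q) :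
    openSegment ℝ (seg a b p) (seg a b q) = seg a b '' uIoo p q := by
  rw [o_line, ← image_openSegment, openSegment_eq_Ioo' h]
  rfl

theorem o_0 (a b : Rn 3) : seg a b 0 = a := by simp [seg]

theorem o_1 (a b : Rn 3) : seg a b 1 = b := by simp [seg]

theorem o_mem (a b : Rn 3) {t : ℝ} (ht : t ∈ Icc (0 : ℝ) 1) : seg a b t ∈ segment ℝ a b :=
  seg_image a b ▸ ⟨t, ht, rfl⟩

theorem o_memo (a b : Rn 3) {t : ℝ} (ht : t ∈ Ioo (0 : ℝ) 1) : seg a b t ∈ openSegment ℝ a b :=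
  seg_image_open a b ▸ ⟨t, ht, rfl⟩

/-- Consecutive nodes round a parameter which is not a node. -/
theorem o_consec {U : Set ℝ} (hf : U.Finite) (h0 : (0 : ℝ) ∈ U) (h1 : (1 : ℝ) ∈ U) {t : ℝ}
    (ht : t ∈ Icc (0 : ℝ) 1) (hU : t ∉ U) :
    ∃ u ∈ U, ∃ u' ∈ U, u < t ∧ t < u' ∧ Disjoint (uIoo u u') U := by
  obtain ⟨p, hp, k⟩ := exists_max_image {x ∈ U | x ≤ t} id (hf.subset (sep_subset _ _))
    ⟨0, h0, ht.1⟩
  obtain ⟨q, hq, k'⟩ := exists_min_image {x ∈ U | t ≤ x} id (hf.subset (sep_subset _ _))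
    ⟨1, h1, ht.2⟩
  have a1 : p < t := hp.2.lt_of_ne fun e => hU (e ▸ hp.1)
  have a2 : t < q := hq.2.lt_of_ne fun e => hU (e ▸ hq.1)
  refine ⟨p, hp.1, q, hq.1, a1, a2, disjoint_left.2 fun x hx m => ?_⟩
  rw [uIoo_of_lt (a1.trans a2)] at hx
  rcases le_total x t with h | h
  · exact hx.1.not_ge (k x ⟨m, h⟩)
  · exact hx.2.not_ge (k' x ⟨m, h⟩)

/-- An affine parameter along a line. -/
theorem exists_par {a b : Rn 3} (h : a ≠ b) :
    ∃ (L : Rn 3 →L[ℝ] ℝ) (c : ℝ), ∀ t, L (seg a b t) + c = t := by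
  obtain ⟨i, hi⟩ := Function.ne_iff.1 h
  have h1 : b i - a i ≠ 0 := sub_ne_zero.2 hi.symm
  refine ⟨(b i - a i)⁻¹ • ContinuousLinearMap.proj i, -((b i - a i)⁻¹ * a i), fun t => ?_⟩
  simp only [seg, smul_apply, ContinuousLinearMap.proj_apply, Pi.add_apply,
    Pi.smul_apply, Pi.sub_apply, smul_eq_mul]
  field_simp
  ring

theorem OFam.uniq {Ω : Set (Rn 3)} {K : Kx Ω} {Ec : Set (Set (Rn 3))} {J : Type}
    {A B : J → Rn 3} (h : OFam K Ec A B) {j j' : J} {x : Rn 3}
    (hx : x ∈ openSegment ℝ (A j) (B j)) (hx' : x ∈ segment ℝ (A j') (B j')) : j = j' := by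
  by_contra hne
  have h1 : x ∈ segment ℝ (A j) (B j) ∩ segment ℝ (A j') (B j') :=
    ⟨openSegment_subset_segment _ _ _ hx, hx'⟩
  rw [(h.edge j).inter (h.edge j') fun e => hne (h.inj _ _ e)] at h1
  rcases h1.1 with rfl | rfl
  · exact (h.edge j).1 (left_mem_openSegment_iff.1 hx)
  · exact (h.edge j).1 (right_mem_openSegment_iff.1 hx)

end BEp
end
end

-- merged part: Pool.Agent.Work.MP_f0515e_an.D3.GEmb
section
-- merged part: Pool.Agent.Work.MP_f0515e_an.D3.GEmb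
section
/-! Embeddings of open sets: open images, compact preimages. -/

open Set Metric Filter Topology Function BEv
open scoped NNReal ENNReal

noncomputable section
namespace BEp

variable {n : ℕ} {Ω : Set (Rn n)} {f : Rn n → Rn n}

theorem GEmb_open (hc : ContinuousOn f Ω) (hi : InjOn f Ω) {U : Set (Rn n)} (hU : IsOpen U)
    (hs : U ⊆ Ω) : IsOpen (f '' U) := by
  rw [isOpen_iff_mem_nhds]
  rintro _ ⟨x, hx, rfl⟩
  obtain ⟨r, hr, hb⟩ := nhds_basis_closedBall.mem_iff.1 (hU.mem_nhds hx)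
  obtain ⟨g, hg⟩ := ContinuousMap.exists_restrict_eq (isClosed_closedBall (x := x) (ε := r))
    ⟨(closedBall x r).domRestrict f, (hc.mono (hb.trans hs)).domRestrict⟩
  have e : ∀ y ∈ closedBall x r, g y = f y := fun y hy => by
    simpa using DFunLike.congr_fun hg ⟨y, hy⟩
  have ho : IsOpen (g '' ball x r) := inv_domain rfl isOpen_ball g.continuous fun y hy z hz h =>
    hi (hs (hb (ball_subset_closedBall hy))) (hs (hb (ball_subset_closedBall hz)))
      (by rw [← e y (ball_subset_closedBall hy), ← e z (ball_subset_closedBall hz), h])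
  refine mem_of_superset (ho.mem_nhds ⟨x, mem_ball_self hr, e x (mem_closedBall_self hr.le)⟩) ?_
  rintro _ ⟨y, hy, rfl⟩
  exact ⟨y, hb (ball_subset_closedBall hy), (e y (ball_subset_closedBall hy)).symm⟩

theorem GEmb_inv (hΩ : IsOpen Ω) (hc : ContinuousOn f Ω) (hi : InjOn f Ω) :
    ContinuousOn (invFunOn f Ω) (f '' Ω) := by
  rintro _ ⟨x, hx, rfl⟩
  refine ContinuousAt.continuousWithinAt ?_
  rw [ContinuousAt, hi.leftInvOn_invFunOn hx, (nhds_basis_opens x).tendsto_right_iff]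
  rintro U ⟨hxU, hU⟩
  have := (GEmb_open hc hi (hU.inter hΩ) inter_subset_right).mem_nhds ⟨x, ⟨hxU, hx⟩, rfl⟩
  filter_upwards [this]
  rintro _ ⟨y, hy, rfl⟩
  rw [hi.leftInvOn_invFunOn hy.2]; exact hy.1

theorem GEmb_cpt (hΩ : IsOpen Ω) (hc : ContinuousOn f Ω) (hi : InjOn f Ω) {C : Set (Rn n)}
    (hC : IsCompact C) (hs : C ⊆ f '' Ω) : IsCompact {x | x ∈ Ω ∧ f x ∈ C} := by
  have : {x | x ∈ Ω ∧ f x ∈ C} = invFunOn f Ω '' C := by
    ext x
    constructor
    · rintro ⟨h1, h2⟩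
      exact ⟨f x, h2, hi.leftInvOn_invFunOn h1⟩
    · rintro ⟨y, hy, rfl⟩
      exact ⟨invFunOn_mem (hs hy), by rw [invFunOn_eq (hs hy)]; exact hy⟩
  rw [this]
  exact hC.image_of_continuousOn ((GEmb_inv hΩ hc hi).mono hs)

/-- Images of relatively closed sets are relatively closed. -/
theorem GEmb_closed (hΩ : IsOpen Ω) (hc : ContinuousOn f Ω) (hi : InjOn f Ω) {Z : Set (Rn n)}
    (hZ : Z ⊆ Ω) (hcl : ∀ x ∈ Ω, x ∈ closure Z → x ∈ Z) {z : Rn n} (hz : z ∈ f '' Ω)
    (h : z ∈ closure (f '' Z)) : z ∈ f '' Z := by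
  obtain ⟨x, hx, rfl⟩ := hz
  refine mem_image_of_mem _ (hcl x hx ?_)
  rw [_root_.mem_closure_iff]
  intro U hU hxU
  obtain ⟨_, ⟨y, hy, rfl⟩, y', hy', e⟩ := _root_.mem_closure_iff.1 h _
    (GEmb_open hc hi (hU.inter hΩ) inter_subset_right) ⟨x, ⟨hxU, hx⟩, rfl⟩
  exact ⟨y, hy.1, hi (hZ hy') hy.2 e ▸ hy'⟩

/-- Uniform separation of a compact set from a relatively closed set off an open set. -/
theorem GEmb_gap {A Z U : Set (Rn n)} (hA : IsCompact A) (hU : IsOpen U)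
    (h : ∀ x ∈ A, x ∈ closure Z → x ∈ U) :
    ∃ ε : ℝ, 0 < ε ∧ ∀ x ∈ A, ∀ z ∈ Z, ‖x - z‖ < ε → x ∈ U := by
  have hd : Disjoint (A \ U) (closure Z) :=
    disjoint_left.2 fun x hx hz => hx.2 (h x hx.1 hz)
  obtain ⟨ε, hε, h2⟩ := hd.exists_thickenings (hA.diff hU) isClosed_closure
  refine ⟨ε, hε, fun x hx z hz hxz => by_contra fun hn => disjoint_left.1 h2
    (self_subset_thickening hε _ ⟨hx, hn⟩) ?_⟩
  exact mem_thickening_iff.2 ⟨z, subset_closure hz, by rwa [dist_eq_norm]⟩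

end BEp
end
end

-- merged part: Pool.Agent.Work.MP_f0515e_an.D3.O6
section
/-! Radius and mesh of the chords on one edge.
Plan. `o_near`: by `Kx.near` the point lies in the closure of the cell of every close `y`; if `y ∈ K.sk 1` then
`Kx.front` and `Kx.dm_lt` force this cell to be the edge. `o_geo`: `Z = seg a b '' Icc δ (1 - δ)` is compact; the set of
`o_near` is a neighbourhood of `Z`, so it contains `thickening e Z` (`IsCompact.exists_thickening_subset_open` for its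
interior); take `e ≤ δ * ‖b - a‖` (`seg_sub`). `f '' Ω` is open (`GEmb_open`), the inverse is continuous on it
(`GEmb_inv`), `IsCompact.uniformContinuousAt_of_continuousAt` on `f '' Z` gives `R0`; `h` is from the uniform
continuity of `f ∘ seg a b` on `Icc 0 1`. -/

open Set Metric Filter Topology Function BEv MeasureTheory
open scoped NNReal ENNReal

noncomputable section
namespace BEp

variable {Ω : Set (Rn 3)} {K : Kx Ω} {f : Rn 3 → Rn 3} {a b : Rn 3}

theorem o_near (hΩ : IsOpen Ω) (he : K.Edge a b) {x : Rn 3} (hx : x ∈ openSegment ℝ a b) :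
    ∀ᶠ y in 𝓝 x, y ∈ K.sk 1 → y ∈ openSegment ℝ a b := by
  filter_upwards [Kx.near (K := K) hΩ (Kx.cells_sub he.2 hx)] with y ⟨h1, h2⟩ hy
  by_contra k
  have := Kx.dm_lt (K.cell_mem h1) he.2 (Kx.front he.2 (K.cell_mem h1) ⟨x, hx, h2⟩)
    fun e => k (e ▸ K.mem y h1)
  rw [he.dm] at this
  exact this.not_ge hy.2

theorem o_geo (hΩ : IsOpen Ω) (hc : ContinuousOn f Ω) (hi : InjOn f Ω) (he : K.Edge a b) {δ : ℝ}
    (hδ : 0 < δ) : ∃ R0 : ℝ, 0 < R0 ∧ ∀ R, 0 < R → R ≤ R0 → ∃ h : ℝ, 0 < h ∧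
      OGeo K f a b δ R h := by
  have cs : Continuous (seg a b) := (tp_seg a b).continuous
  have n0 : 0 < ‖b - a‖ := norm_pos_iff.2 (sub_ne_zero.2 he.1.symm)
  have key := (isCompact_Icc (a := δ) (b := 1 - δ)).eventually_forall_of_forall_eventually
    (x₀ := (0 : Rn 3)) (P := fun ξ s => f (seg a b s) + ξ ∈ f '' Ω ∧ ∀ x ∈ Ω,
      (x ∈ K.sk 1 ∨ ∃ t, x = seg a b t) → f x = f (seg a b s) + ξ →
        ∃ t, |t - s| < δ ∧ x = seg a b t) fun s₀ hs => by
    have m := o_memo a b (t := s₀) ⟨by linarith [hs.1], by linarith [hs.2]⟩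
    have mΩ := hΩ.mem_nhds (Kx.cells_sub he.2 m)
    obtain ⟨U, u1, u2, u3⟩ := _root_.mem_nhds_iff.1 (inter_mem mΩ (inter_mem (o_near hΩ he m)
      (ball_mem_nhds _ (mul_pos (half_pos hδ) n0))))
    have c1 : ContinuousAt (fun z : Rn 3 × ℝ => f (seg a b z.2) + z.1) (0, s₀) :=
      (ContinuousAt.comp (f := fun z : Rn 3 × ℝ => seg a b z.2) (hc.continuousAt mΩ)
        (cs.comp continuous_snd).continuousAt).add continuousAt_fst
    filter_upwards [c1.eventually ((GEmb_open hc hi u2 fun x hx => (u1 hx).1).mem_nhds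
      ⟨_, u3, (add_zero _).symm⟩), continuousAt_snd.eventually (ball_mem_nhds s₀ (half_pos hδ))]
      with z ⟨x', x1, x2⟩ hz
    refine ⟨⟨x', (u1 x1).1, x2⟩, fun x hx h e => ?_⟩
    obtain rfl := hi hx (u1 x1).1 (e.trans x2.symm)
    obtain ⟨t, rfl⟩ : ∃ t, x = seg a b t := h.elim (fun k => by
      obtain ⟨t, -, ht⟩ := seg_image_open a b ▸ (u1 x1).2.1 k
      exact ⟨t, ht.symm⟩) id
    have k := mem_ball_iff_norm.1 (u1 x1).2.2
    rw [seg_sub, norm_smul, mul_lt_mul_iff_left₀ n0, Real.norm_eq_abs] at k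
    rw [Real.dist_eq, abs_sub_comm] at hz
    exact ⟨t, (abs_sub_le t s₀ z.2).trans_lt (by linarith), rfl⟩
  obtain ⟨ε, ε0, hε⟩ := nhds_basis_closedBall.eventually_iff.1 key
  refine ⟨ε / 4, by positivity, fun R R0 R1 => ?_⟩
  obtain ⟨h, h0, hh⟩ := Metric.uniformContinuousOn_iff.1
    (isCompact_Icc.uniformContinuousOn_of_continuous (hc.comp cs.continuousOn
      fun t ht => (he.seg_sub (o_mem a b ht)).1)) R R0
  refine ⟨h / 2, half_pos h0, fun s hs => ⟨fun y hy => ?_, fun t ht k => ?_, fun x hx k k' => ?_⟩⟩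
  · have := (hε (mem_closedBall_zero_iff.2 ((mem_closedBall_iff_norm.1 hy).trans
      (by linarith))) s hs).1
    rwa [add_sub_cancel] at this
  · rw [← dist_eq_norm]
    exact hh t ht s ⟨by linarith [hs.1], by linarith [hs.2]⟩ (k.trans_lt (half_lt_self h0))
  · exact (hε (mem_closedBall_zero_iff.2 (k'.trans (by linarith))) s hs).2 x hx k
      (add_sub_cancel _ _).symm

end BEp
end
end
end

-- merged part: Pool.Agent.Work.MP_f0515e_an.D3.NLn
section
/-! TASK NLn. Absolutely continuous maps on a segment.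
Plan. sub_le: `f (seg s') - f (seg s) - A (seg s' - seg s)` is the interval integral over `s..s'` of `(D (seg x) - A) (b - a)`
(intervalIntegral.integral_interval_sub_left, seg s' - seg s = (s' - s) (b - a)); enorm_integral_le_lintegral_enorm, le_opNorm.
vr_le: if `x = seg a b s`, `y = seg a b s'`, then `seg x y t = seg a b (s + t (s' - s))`; for a monotone sequence sum sub_le over the
consecutive intervals, which overlap in null sets (induction on the length, or eVariationOn.comp_eq_of_monotoneOn / antitoneOn and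
the bound by the monotone function `s -> integral over Icc 0 s`, truncated: the integral is finite or there is nothing to prove).
pack: sort the parameters (induction on the card by the maximum: Finset.induction_on_max), consecutive points are `r` apart.
line_int: `J = {l}`; MeasurePreserving (MeasurableEquiv.funUnique J ℝ) (volume_preserving_funUnique), then the affine change of
variables `r = S (2 x - 1)` (Real.map_volume_mul_left or lintegral_image_eq_lintegral_abs_deriv_mul).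
young: if `x ≤ ofReal d` the first term wins, else `x = x ^ (1 - p) x ^ p ≤ d ^ (1 - p) x ^ p`. -/

open Set Metric Filter Topology Function BEv MeasureTheory
open scoped NNReal ENNReal

noncomputable section
namespace BEp

variable {f : Rn 3 → Rn 3} {D : Rn 3 → Rn 3 →L[ℝ] Rn 3} {a b : Rn 3}

theorem NLn_mp {α : Type} [Unique α] (i : Fintype α) :
    MeasurePreserving (MeasurableEquiv.funUnique α ℝ).symm volume (volume : Measure (α → ℝ)) := by
  obtain rfl : i = Unique.fintype := Subsingleton.elim _ _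
  exact (volume_preserving_funUnique α ℝ).symm

theorem NLn_add (g : ℝ → ℝ≥0∞) {s t u : ℝ} (h1 : s ≤ t) (h2 : t ≤ u) :
    (∫⁻ x in Icc s t, g x) + ∫⁻ x in Icc t u, g x = ∫⁻ x in Icc s u, g x := by
  simp only [← setLIntegral_congr (Ioc_ae_eq_Icc (μ := volume))]
  rw [← lintegral_union measurableSet_Ioc (Ioc_disjoint_Ioc_of_le le_rfl),
    Ioc_union_Ioc_eq_Ioc h1 h2]

theorem NLn_var {G : ℝ → Rn 3} {g : ℝ → ℝ≥0∞} {c : ℝ≥0∞}
    (h : ∀ s s', 0 ≤ s → s ≤ s' → s' ≤ 1 → edist (G s') (G s) ≤ c * ∫⁻ x in Icc s s', g x) :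
    eVariationOn G (Icc 0 1) ≤ c * ∫⁻ x in Icc (0 : ℝ) 1, g x := by
  refine iSup_le fun ⟨n, u, hu, us⟩ => ?_
  have : ∑ i ∈ Finset.range n, edist (G (u (i + 1))) (G (u i)) ≤
      c * ∫⁻ x in Icc (u 0) (u n), g x := by
    induction n with
    | zero => simp
    | succ n ih =>
      rw [Finset.sum_range_succ, ← NLn_add g (hu (Nat.zero_le n)) (hu n.le_succ), mul_add]
      exact add_le_add ih (h _ _ (us n).1 (hu n.le_succ) (us _).2)
  exact this.trans (mul_le_mul_right (lintegral_mono_set (Icc_subset_Icc (us 0).1 (us n).2)) _)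

theorem NLn_seg {J : Finset (Ix 1)} (o : V 1) (S t : ℝ) :
    seg (o + emb J fun _ => -S) (o + emb J fun _ => S) t = o + emb J fun _ => -S + 2 * S * t := by
  funext l
  simp only [seg, Pi.add_apply, Pi.smul_apply, Pi.sub_apply, Gr.ASl0_emb, smul_eq_mul]
  split_ifs <;> ring

theorem ACs.sub_le (h : ACs f D a b) (A : Rn 3 →L[ℝ] Rn 3) {s s' : ℝ} (h0 : 0 ≤ s) (h1 : s ≤ s')
    (h2 : s' ≤ 1) : ‖f (seg a b s') - f (seg a b s) - A (seg a b s' - seg a b s)‖ₑ ≤
      ‖b - a‖ₑ * ∫⁻ x in Icc s s', ‖D (seg a b x) - A‖ₑ := by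
  have hi : ∀ {u v : ℝ}, 0 ≤ u → u ≤ v → v ≤ 1 →
      IntervalIntegrable (fun x => D (seg a b x) (b - a)) volume u v := fun k0 k1 k2 =>
    (intervalIntegrable_iff_integrableOn_Icc_of_le k1).2
      ((h.1.mono_set (Icc_subset_Icc k0 k2)).apply_continuousLinearMap _)
  have e : f (seg a b s') - f (seg a b s) - A (seg a b s' - seg a b s) =
      ∫ x in s..s', (D (seg a b x) - A) (b - a) := by
    rw [h.2 s' ⟨h0.trans h1, h2⟩, h.2 s ⟨h0, h1.trans h2⟩, add_sub_add_left_eq_sub,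
      intervalIntegral.integral_interval_sub_left (hi le_rfl (h0.trans h1) h2)
        (hi le_rfl h0 (h1.trans h2))]
    simp only [sub_apply]
    rw [intervalIntegral.integral_sub (hi h0 h1 h2) intervalIntegrable_const,
      intervalIntegral.integral_const, ← map_smul]
    congr 2
    unfold seg
    module
  rw [e, intervalIntegral.integral_of_le h1, ← lintegral_const_mul' _ _ enorm_ne_top,
    ← setLIntegral_congr (Ioc_ae_eq_Icc (μ := volume))]
  refine (enorm_integral_le_lintegral_enorm _).trans (lintegral_mono fun x => ?_)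
  rw [mul_comm]
  exact ContinuousLinearMap.le_opENorm _ _

theorem ACs.vr_le (h : ACs f D a b) (A : Rn 3 →L[ℝ] Rn 3) (c d : Rn 3) {x y : Rn 3}
    (hx : x ∈ segment ℝ a b) (hy : y ∈ segment ℝ a b) :
    vr (fun z => f z - (A (z - c) + d)) x y ≤
      ‖b - a‖ₑ * ∫⁻ t in Icc (0 : ℝ) 1, ‖D (seg a b t) - A‖ₑ := by
  rw [← seg_image] at hx hy
  obtain ⟨s, hs, rfl⟩ := hx
  obtain ⟨s', hs', rfl⟩ := hy
  have key := NLn_var (G := fun t => f (seg a b t) - (A (seg a b t - c) + d))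
    fun u v k0 k1 k2 => by
      refine le_of_eq_of_le ?_ (h.sub_le A k0 k1 k2)
      rw [edist_eq_enorm_sub]
      congr 1
      simp only [map_sub]
      abel
  refine le_trans ?_ key
  have e : (fun t => f (seg (seg a b s) (seg a b s') t) -
      (A (seg (seg a b s) (seg a b s') t - c) + d)) =
      (fun t => f (seg a b t) - (A (seg a b t - c) + d)) ∘ fun t => s + t * (s' - s) := by
    funext t
    have : seg (seg a b s) (seg a b s') t = seg a b (s + t * (s' - s)) := by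
      unfold seg
      module
    rw [this]
    rfl
  have hm : MapsTo (fun t => s + t * (s' - s)) (Icc (0 : ℝ) 1) (Icc 0 1) := fun t ht =>
    ⟨by nlinarith [ht.1, ht.2, hs.1, hs'.1], by nlinarith [ht.1, ht.2, hs.2, hs'.2]⟩
  unfold vr
  rw [e]
  rcases le_total s s' with k | k
  · exact eVariationOn.comp_le_of_monotoneOn _ _ (fun u _ v _ l => by nlinarith) hm
  · exact eVariationOn.comp_le_of_antitoneOn _ _ (fun u _ v _ l => by nlinarith) hm

theorem ACs.pack (h : ACs f D a b) {α : Type} (H : Finset α) (x : α → ℝ) {r : ℝ} (hr : 0 < r)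
    (h1 : ∀ k ∈ H, x k ∈ Icc (0 : ℝ) 1)
    (h2 : ∀ k ∈ H, ∀ k' ∈ H, k ≠ k' → r ≤ ‖f (seg a b (x k)) - f (seg a b (x k'))‖) :
    (H.card : ℝ≥0∞) * ENNReal.ofReal r ≤
      ENNReal.ofReal r + ‖b - a‖ₑ * ∫⁻ t in Icc (0 : ℝ) 1, ‖D (seg a b t)‖ₑ := by
  classical
  suffices ∀ m, m ≤ 1 → (∀ k ∈ H, x k ≤ m) → (H.card : ℝ≥0∞) * ENNReal.ofReal r ≤
      ENNReal.ofReal r + ‖b - a‖ₑ * ∫⁻ t in Icc (0 : ℝ) m, ‖D (seg a b t)‖ₑ from
    this 1 le_rfl fun k hk => (h1 k hk).2
  induction H using Finset.induction_on_max_value x with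
  | empty => simp
  | insert k H hk hmax ih =>
    intro m hm hle
    rw [Finset.card_insert_of_notMem hk, Nat.cast_succ, add_mul, one_mul]
    rcases H.eq_empty_or_nonempty with rfl | hne
    · simp
    obtain ⟨k', hk', hmax'⟩ := H.exists_max_image x hne
    have a1 := h1 k' (Finset.mem_insert_of_mem hk')
    have a2 := h1 k (Finset.mem_insert_self _ _)
    have b1 := ih (fun l hl => h1 l (Finset.mem_insert_of_mem hl))
      (fun l hl l' hl' => h2 l (Finset.mem_insert_of_mem hl) l' (Finset.mem_insert_of_mem hl'))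
      (x k') a1.2 hmax'
    have b2 := h.sub_le 0 a1.1 (hmax k' hk') a2.2
    simp only [zero_apply, sub_zero] at b2
    have b3 : ENNReal.ofReal r ≤ ‖f (seg a b (x k)) - f (seg a b (x k'))‖ₑ := by
      rw [← ofReal_norm]
      exact ENNReal.ofReal_le_ofReal (h2 k (Finset.mem_insert_self _ _) k'
        (Finset.mem_insert_of_mem hk') fun e => hk (e ▸ hk'))
    refine (add_le_add b1 (b3.trans b2)).trans ?_
    rw [add_assoc, ← mul_add, NLn_add _ a1.1 (hmax k' hk')]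
    exact add_le_add_right (mul_le_mul_right (lintegral_mono_set
      (Icc_subset_Icc_right (hle k (Finset.mem_insert_self _ _)))) _) _

theorem line_int {J : Finset (Ix 1)} (hJ : J.card = 1) (o : V 1) {S : ℝ} (hS : 0 < S)
    {Φ : V 1 → ℝ≥0∞} (hΦ : Measurable Φ) :
    ∫⁻ y in closedBall (0 : J → ℝ) S, Φ (o + emb J y) = ENNReal.ofReal (2 * S) *
      ∫⁻ t in Icc (0 : ℝ) 1, Φ (seg (o + emb J fun _ => -S) (o + emb J fun _ => S) t) := by
  obtain ⟨l, rfl⟩ := Finset.card_eq_one.1 hJ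
  have hp : MeasurePreserving (MeasurableEquiv.funUnique ({l} : Finset (Ix 1)) ℝ).symm
      volume volume := NLn_mp _
  rw [← hp.setLIntegral_comp_preimage_emb (MeasurableEquiv.measurableEmbedding _)]
  have e : (MeasurableEquiv.funUnique ({l} : Finset (Ix 1)) ℝ).symm ⁻¹' closedBall 0 S =
      (fun t => -S + 2 * S * t) '' Icc 0 1 := by
    ext r
    have : (MeasurableEquiv.funUnique ({l} : Finset (Ix 1)) ℝ).symm r = fun _ => r := rfl
    rw [mem_preimage, this, mem_closedBall_zero_iff, pi_norm_const, Real.norm_eq_abs, abs_le]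
    constructor
    · rintro ⟨k1, k2⟩
      refine ⟨(r + S) / (2 * S), ⟨div_nonneg (by linarith) (by linarith),
        (div_le_one (by linarith)).2 (by linarith)⟩, ?_⟩
      field_simp
      ring
    · rintro ⟨t, ht, rfl⟩
      exact ⟨by nlinarith [ht.1], by nlinarith [ht.2]⟩
  rw [e, lintegral_image_eq_lintegral_abs_deriv_mul measurableSet_Icc (f' := fun _ => 2 * S)
    (fun t _ => by
      simpa using (((hasDerivAt_id t).const_mul (2 * S)).const_add (-S)).hasDerivWithinAt)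
    (fun s _ t _ k => by simpa [hS.ne'] using k), lintegral_const_mul' _ _ ENNReal.ofReal_ne_top,
    abs_of_pos (by linarith)]
  simp only [NLn_seg]
  rfl

theorem line_pt {J : Finset (Ix 1)} (hJ : J.card = 1) (o : V 1) {S : ℝ} (hS : 0 < S) :
    ‖(o + emb J fun _ => S) - (o + emb J fun _ => -S)‖ = 2 * S ∧
      ∀ y ∈ closedBall (0 : J → ℝ) S, ∃ t ∈ Icc (0 : ℝ) 1,
        o + emb J y = seg (o + emb J fun _ => -S) (o + emb J fun _ => S) t := by
  obtain ⟨l, rfl⟩ := Finset.card_eq_one.1 hJ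
  constructor
  · refine le_antisymm ((pi_norm_le_iff_of_nonneg (by linarith)).2 fun i => ?_)
      (le_of_eq_of_le ?_ (norm_le_pi_norm _ l))
    · simp only [Pi.add_apply, Pi.sub_apply, Gr.ASl0_emb, Real.norm_eq_abs, abs_le]
      split_ifs <;> constructor <;> linarith
    · simp only [Pi.add_apply, Pi.sub_apply, Gr.ASl0_emb, Real.norm_eq_abs,
        dif_pos (Finset.mem_singleton_self l)]
      rw [abs_of_pos (by linarith)]
      ring
  · intro y hy
    obtain ⟨k1, k2⟩ := abs_le.1 ((norm_le_pi_norm y default).trans (mem_closedBall_zero_iff.1 hy))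
    refine ⟨(y default + S) / (2 * S), ⟨div_nonneg (by linarith) (by linarith),
      (div_le_one (by linarith)).2 (by linarith)⟩, ?_⟩
    rw [NLn_seg]
    congr 2
    funext i
    rw [Subsingleton.elim i default]
    field_simp
    ring

theorem young {p d : ℝ} (hp : 1 ≤ p) (hd : 0 < d) {g : ℝ → ℝ≥0∞} (hg : Measurable g) :
    ∫⁻ t in Icc (0 : ℝ) 1, g t ≤
      ENNReal.ofReal d + ENNReal.ofReal (d ^ (1 - p)) * ∫⁻ t in Icc (0 : ℝ) 1, g t ^ p := by
  have key : ∀ x : ℝ≥0∞, x ≤ ENNReal.ofReal d + ENNReal.ofReal (d ^ (1 - p)) * x ^ p := by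
    intro x
    rcases le_or_gt x (ENNReal.ofReal d) with k | k
    · exact k.trans le_self_add
    refine le_trans ?_ le_add_self
    rcases eq_or_ne x ⊤ with rfl | hx
    · rw [ENNReal.top_rpow_of_pos (by linarith),
        ENNReal.mul_top (ENNReal.ofReal_pos.2 (Real.rpow_pos_of_pos hd _)).ne']
    · have e : x = x ^ (1 - p) * x ^ p := by
        rw [← ENNReal.rpow_add _ _ (ne_zero_of_lt k) hx, sub_add_cancel, ENNReal.rpow_one]
      refine e.le.trans (mul_le_mul_left ?_ _)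
      rw [← ENNReal.ofReal_rpow_of_pos hd, ← neg_sub, ENNReal.rpow_neg, ENNReal.rpow_neg]
      exact ENNReal.inv_le_inv.2 (ENNReal.rpow_le_rpow k.le (by linarith))
  refine (lintegral_mono fun t => key (g t)).trans ?_
  rw [lintegral_add_left measurable_const, lintegral_const_mul' _ _ ENNReal.ofReal_ne_top]
  simp

end BEp
end
end
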