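import Pool.Agent.Work.MP_f0515e_an.D3.FDefs
import Pool.Agent.Work.MP_f0515e_an.D3.CTop
import Pool.Agent.Work.MP_f0515e_an.D3.NLn
import Pool.Agent.Work.MP_f0515e_an.D3.KA3
import Pool.Agent.Work.MP_f0515e_an.D3.KA4
import Pool.Agent.Work.MP_f0515e_an.D3.PArc
import Pool.Agent.Work.MP_f0515e_an.D3.PGl
import Pool.Agent.Work.MP_f0515e_an.D3.PTri

-- merged part: Pool.Agent.Work.MP_f0515e_an.D3.GDefs
section
-- merged part: Pool.Agent.Work.MP_f0515e_an.D3.GDefs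
section
/-! Marks and boxes along the one skeleton: definitions. -/

open Set Metric Filter Topology Function BEv
open scoped NNReal ENNReal

noncomputable section
namespace BEp

/-- Locally finite family of segments in `Ω` meeting only in ends. -/
structure Grf (Ω : Set (Rn 3)) {ι : Type} (a b : ι → Rn 3) : Prop where
  ne : ∀ i, a i ≠ b i
  sub : ∀ i, segment ℝ (a i) (b i) ⊆ Ω
  lf : ∀ C, IsCompact C → C ⊆ Ω → {i | (segment ℝ (a i) (b i) ∩ C).Nonempty}.Finite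
  meet : ∀ i j, i ≠ j → ∀ x ∈ segment ℝ (a i) (b i), x ∈ segment ℝ (a j) (b j) →
    x = a i ∨ x = b i

/-- Input of the theorem on marks and boxes: a graph, an embedding of bounded variation on it,
a compact set `F` to be avoided, gates `Bd` with a coordinate and a side. -/
structure ThinIn (Ω : Set (Rn 3)) (f : Rn 3 → Rn 3) {ι : Type} (a b : ι → Rn 3) (Vr η : ι → ℝ)
    (Bd F : Set (Rn 3)) (k0 : Rn 3 → Fin 3) (s0 : Rn 3 → ℝ) : Prop where
  opn : IsOpen Ω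
  cont : ContinuousOn f Ω
  inj : InjOn f Ω
  gr : Grf Ω a b
  V0 : ∀ i, 0 ≤ Vr i
  var : ∀ i, eVariationOn (fun t => f (seg (a i) (b i) t)) (Icc 0 1) ≤ ENNReal.ofReal (Vr i)
  η0 : ∀ i, 0 < η i
  Fc : IsCompact F
  bd1 : ∀ y ∈ Bd, ∃ i, (y = a i ∨ y = b i) ∧ ∀ j, y ∈ segment ℝ (a j) (b j) → j = i
  hit : ∀ i, ∀ x ∈ segment ℝ (a i) (b i), f x ∈ F → x ∈ Bd
  side : ∀ y ∈ Bd, (s0 y = 1 ∨ s0 y = -1) ∧ ∃ r : ℝ, 0 < r ∧
    (∀ i, ∀ x ∈ segment ℝ (a i) (b i), x ≠ y → ‖f x - f y‖ < r →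
      0 < s0 y * (f x (k0 y) - f y (k0 y))) ∧
    ∀ z ∈ F, ‖z - f y‖ < r → s0 y * (z (k0 y) - f y (k0 y)) ≤ 0

/-- Marks `Mk` with coordinates `kk`, and a box `Icc (lo x) (hi x)` for every unmarked point. -/
structure Mkd (f : Rn 3 → Rn 3) {ι : Type} (a b : ι → Rn 3) (η : ι → ℝ) (Bd F : Set (Rn 3))
    (k0 : Rn 3 → Fin 3) (Mk : Set (Rn 3)) (kk : Rn 3 → Fin 3) (lo hi : Rn 3 → Rn 3) : Prop where
  bd : ∀ y ∈ Bd, y ∈ Mk ∧ kk y = k0 y
  loc : ∀ y ∈ Mk, y ∈ Bd ∨ ∃ i, y ∈ openSegment ℝ (a i) (b i)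
  fin : ∀ i, (Mk ∩ segment ℝ (a i) (b i)).Finite
  inb : ∀ i, ∀ x ∈ segment ℝ (a i) (b i), x ∉ Mk → ∀ k, lo x k < f x k ∧ f x k < hi x k
  cst : ∀ i, ∀ x ∈ segment ℝ (a i) (b i), ∀ y ∈ segment ℝ (a i) (b i),
    Disjoint (segment ℝ x y) Mk → lo x = lo y ∧ hi x = hi y
  fac : ∀ i, ∀ x ∈ segment ℝ (a i) (b i), ∀ y ∈ segment ℝ (a i) (b i),
    segment ℝ x y ∩ Mk = {y} → x ≠ y → (∀ k, k ≠ kk y → lo x k < f y k ∧ f y k < hi x k) ∧
      (f y (kk y) = lo x (kk y) ∨ f y (kk y) = hi x (kk y))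
  opp : ∀ i, ∀ x ∈ segment ℝ (a i) (b i), ∀ x' ∈ segment ℝ (a i) (b i), ∀ y ∉ Bd,
    y ∈ openSegment ℝ x x' → x ≠ x' → segment ℝ x x' ∩ Mk = {y} →
      (f y (kk y) = lo x (kk y) ∧ f y (kk y) = hi x' (kk y)) ∨
      (f y (kk y) = hi x (kk y) ∧ f y (kk y) = lo x' (kk y))
  dis : ∀ i j, ∀ x ∈ segment ℝ (a i) (b i), ∀ x' ∈ segment ℝ (a j) (b j), x ∉ Mk → x' ∉ Mk →
    (lo x = lo x' ∧ hi x = hi x') ∨ Disjoint (interior (Icc (lo x) (hi x))) (Icc (lo x') (hi x'))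
  far : ∀ i, ∀ x ∈ segment ℝ (a i) (b i), x ∉ Mk → Disjoint (interior (Icc (lo x) (hi x))) F
  sz : ∀ i, ∀ x ∈ segment ℝ (a i) (b i), x ∉ Mk → ‖hi x - lo x‖ ≤ η i

/-- Weights of the marks: they bound the adjacent boxes and have a controlled sum. -/
structure Wt {ι : Type} (a b : ι → Rn 3) (Vr η : ι → ℝ) (Mk : Set (Rn 3)) (lo hi : Rn 3 → Rn 3)
    (w : Rn 3 → ℝ) : Prop where
  ex : ∀ i, (Mk ∩ openSegment ℝ (a i) (b i)).Nonempty
  w0 : ∀ y, 0 < w y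
  wb : ∀ i, ∀ x ∈ segment ℝ (a i) (b i), ∀ y ∈ segment ℝ (a i) (b i),
    segment ℝ x y ∩ Mk = {y} → x ≠ y → ‖hi x - lo x‖ ≤ w y
  sum : ∀ i, ∀ T : Finset (Rn 3), (T : Set (Rn 3)) ⊆ Mk ∩ segment ℝ (a i) (b i) →
    ∑ y ∈ T, w y ≤ 6 * Vr i + η i

/-- Near `y` the one skeleton is a straight line. -/
def Kx.Smo {Ω : Set (Rn 3)} (K : Kx Ω) (y : Rn 3) : Prop :=
  ∃ (u : Rn 3) (e : ℝ), u ≠ 0 ∧ 0 < e ∧ (∀ t ∈ Icc (-e) e, y + t • u ∈ K.sk 1) ∧
    ∀ x ∈ K.sk 1, ‖x - y‖ < e → ∃ t : ℝ, x = y + t • u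

/-- `K2` has the same faces as `K`, and every edge of `K2` carries exactly one mark. -/
structure Alt {Ω : Set (Rn 3)} (K K2 : Kx Ω) (Mk : Set (Rn 3)) (m : Set (Rn 3) → Rn 3) :
    Prop where
  off : ∀ x ∈ Ω, x ∉ K.sk 1 → K2.cell x = K.cell x
  sk : K2.sk 1 = K.sk 1
  one : ∀ s ∈ K2.cel 1, s ∩ Mk = {m s}
  mke : ∀ y ∈ Mk, K2.cell y ∈ K2.cel 1
  vert : ∀ v ∈ Ω, K.cell v = {v} → v ∉ Mk → K2.cell v = {v}
  leg : ∀ v s, K2.Fl v s → ∃ a b, K.Edge a b ∧ segment ℝ v (m s) ⊆ segment ℝ a b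
  mid : ∀ a b, K.Edge a b → a ∈ Mk → b ∈ Mk → Disjoint (openSegment ℝ a b) Mk →
    K2.cell (midpoint ℝ a b) = {midpoint ℝ a b}

end BEp
end
end

-- merged part: Pool.Agent.Work.MP_f0515e_an.D3.GSep
section
/-! Graphs cut into groups: input structure and separation radii.

Plan. `gr_closed`: a point `x ∈ Ω` has a compact neighbourhood in `Ω` meeting finitely many
segments; a finite union of segments is closed.
`radii`: for `y ∈ Bd` the union `Z` of the segments not containing `y` is relatively closed, so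
`f y ∉ closure (f '' Z)` (`GEmb_closed`); the set `Bd \ {y}` is relatively closed as well (locally
finite: a gate is an end of a segment containing it), so `f y` has positive distance `d y` from
`f '' (Bd \ {y})`; take `r y` below a quarter of `d y` and half of the other radii
(`2 r y + 2 r y' ≤ d y / 2 + d y' / 2`).
`gaps`: `A = f '' (union of the segments of the group)` is compact (or empty),
`Z = F ∪ f '' (other groups)`, `U` = union of the balls of radius `r y / 4` over the gates of the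
group; `GEmb_gap`; finitely many gates and segments in the group for the other two bounds. -/

open Set Metric Filter Topology Function BEv
open scoped NNReal ENNReal

noncomputable section
namespace BEp

/-- A graph whose segments are distributed into finite groups `gp`, which meet only in gates. -/
structure MulIn (Ω : Set (Rn 3)) (f : Rn 3 → Rn 3) {ι γ : Type} (a b : ι → Rn 3) (gp : ι → γ)
    (Vr η : ι → ℝ) (Bd F : Set (Rn 3)) (k0 : Rn 3 → Fin 3) (s : γ → Rn 3 → ℝ) : Prop where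
  opn : IsOpen Ω
  cont : ContinuousOn f Ω
  inj : InjOn f Ω
  gr : Grf Ω a b
  V0 : ∀ i, 0 ≤ Vr i
  var : ∀ i, eVariationOn (fun t => f (seg (a i) (b i) t)) (Icc 0 1) ≤ ENNReal.ofReal (Vr i)
  η0 : ∀ i, 0 < η i
  Fc : IsCompact F
  gfin : ∀ g, {i | gp i = g}.Finite
  ends : ∀ y ∈ Bd, ∃ i, y ∈ segment ℝ (a i) (b i)
  bend : ∀ y ∈ Bd, ∀ i, y ∈ segment ℝ (a i) (b i) → (y = a i ∨ y = b i) ∧
    (s (gp i) y = 1 ∨ s (gp i) y = -1)
  sepg : ∀ i j, gp i ≠ gp j → ∀ x ∈ segment ℝ (a i) (b i), x ∈ segment ℝ (a j) (b j) →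
    x ∈ Bd ∧ s (gp i) x = - s (gp j) x
  hit : ∀ i, ∀ x ∈ segment ℝ (a i) (b i), f x ∈ F → x ∈ Bd
  side : ∀ y ∈ Bd, ∃ r : ℝ, 0 < r ∧ ∀ i, y ∈ segment ℝ (a i) (b i) →
    (∀ x ∈ segment ℝ (a i) (b i), x ≠ y → ‖f x - f y‖ < r →
      0 < s (gp i) y * (f x (k0 y) - f y (k0 y))) ∧
    ∀ z ∈ F, ‖z - f y‖ < r → s (gp i) y * (z (k0 y) - f y (k0 y)) ≤ 0

variable {Ω : Set (Rn 3)} {f : Rn 3 → Rn 3} {ι γ : Type} {a b : ι → Rn 3} {gp : ι → γ}
  {Vr η : ι → ℝ} {Bd F : Set (Rn 3)} {k0 : Rn 3 → Fin 3} {s : γ → Rn 3 → ℝ}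

theorem GSep_cpt (p q : Rn 3) : IsCompact (segment ℝ p q) := by
  rw [segment_eq_image]
  exact isCompact_Icc.image (by fun_prop)

theorem Grf.closed (h : Grf Ω a b) (hΩ : IsOpen Ω) (J : Set ι) {x : Rn 3} (hx : x ∈ Ω)
    (hc : x ∈ closure (⋃ i ∈ J, segment ℝ (a i) (b i))) :
    x ∈ ⋃ i ∈ J, segment ℝ (a i) (b i) := by
  obtain ⟨r, hr, hb⟩ := nhds_basis_closedBall.mem_iff.1 (hΩ.mem_nhds hx)
  have hT := h.lf _ (isCompact_closedBall x r) hb
  have hW : IsClosed (⋃ i ∈ J ∩ {i | (segment ℝ (a i) (b i) ∩ closedBall x r).Nonempty},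
      segment ℝ (a i) (b i)) :=
    (hT.inter_of_right J).isClosed_biUnion fun i _ => (GSep_cpt _ _).isClosed
  have h1 := isOpen_ball.inter_closure ⟨mem_ball_self hr, hc⟩
  have h2 := closure_minimal (s := ball x r ∩ ⋃ i ∈ J, segment ℝ (a i) (b i)) (by
    rintro y ⟨h3, h4⟩
    obtain ⟨i, hi, hy⟩ := mem_iUnion₂.1 h4
    exact mem_iUnion₂.2 ⟨i, ⟨hi, y, hy, ball_subset_closedBall h3⟩, hy⟩) hW h1
  obtain ⟨i, hi, hy⟩ := mem_iUnion₂.1 h2
  exact mem_iUnion₂.2 ⟨i, hi.1, hy⟩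

theorem GSep_im (h : MulIn Ω f a b gp Vr η Bd F k0 s) {J : Set ι} {x : Rn 3} (hx : x ∈ Ω)
    (hc : f x ∈ closure (f '' ⋃ i ∈ J, segment ℝ (a i) (b i))) :
    ∃ i ∈ J, x ∈ segment ℝ (a i) (b i) := by
  have hs : (⋃ i ∈ J, segment ℝ (a i) (b i)) ⊆ Ω := iUnion₂_subset fun i _ => h.gr.sub i
  obtain ⟨y, hy, e⟩ := GEmb_closed h.opn h.cont h.inj hs (fun y hy => h.gr.closed h.opn J hy)
    (mem_image_of_mem f hx) hc
  obtain ⟨i, hi, hy'⟩ := mem_iUnion₂.1 hy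
  exact ⟨i, hi, h.inj (hs hy) hx e ▸ hy'⟩

/-- Radii of the gates. -/
structure GRad (f : Rn 3 → Rn 3) (a b : ι → Rn 3) (gp : ι → γ) (Bd F : Set (Rn 3))
    (k0 : Rn 3 → Fin 3) (s : γ → Rn 3 → ℝ) (r : Rn 3 → ℝ) : Prop where
  r0 : ∀ y, 0 < r y
  iso : ∀ y ∈ Bd, ∀ i, ∀ x ∈ segment ℝ (a i) (b i), ‖f x - f y‖ < 2 * r y →
    y ∈ segment ℝ (a i) (b i) ∧ (x ≠ y → 0 < s (gp i) y * (f x (k0 y) - f y (k0 y)))
  fs : ∀ y ∈ Bd, ∀ i, y ∈ segment ℝ (a i) (b i) → ∀ z ∈ F, ‖z - f y‖ < 2 * r y →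
    s (gp i) y * (z (k0 y) - f y (k0 y)) ≤ 0
  sep : ∀ y ∈ Bd, ∀ y' ∈ Bd, y ≠ y' → 2 * r y + 2 * r y' ≤ ‖f y - f y'‖

theorem MulIn.radii (h : MulIn Ω f a b gp Vr η Bd F k0 s) : ∃ r, GRad f a b gp Bd F k0 s r := by
  have key : ∀ y, ∃ ρ : ℝ, 0 < ρ ∧ (y ∈ Bd →
      (∀ i, ∀ x ∈ segment ℝ (a i) (b i), ‖f x - f y‖ < ρ → y ∈ segment ℝ (a i) (b i) ∧
        (x ≠ y → 0 < s (gp i) y * (f x (k0 y) - f y (k0 y)))) ∧
      (∀ i, y ∈ segment ℝ (a i) (b i) → ∀ z ∈ F, ‖z - f y‖ < ρ →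
        s (gp i) y * (z (k0 y) - f y (k0 y)) ≤ 0) ∧
      ∀ y' ∈ Bd, y ≠ y' → ρ ≤ ‖f y' - f y‖) := by
    intro y
    by_cases hy : y ∈ Bd
    swap
    · exact ⟨1, one_pos, fun h1 => absurd h1 hy⟩
    obtain ⟨i₀, hi₀⟩ := h.ends y hy
    have hyΩ : y ∈ Ω := h.gr.sub i₀ hi₀
    have h1 : f y ∉ closure (f '' ⋃ i ∈ {i | y ∉ segment ℝ (a i) (b i)}, segment ℝ (a i) (b i)) := by
      intro hc
      obtain ⟨i, hi, hy'⟩ := GSep_im h hyΩ hc
      exact hi hy'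
    have hT : {i | y ∈ segment ℝ (a i) (b i)}.Finite :=
      (h.gr.lf {y} isCompact_singleton (singleton_subset_iff.2 hyΩ)).subset
        fun i hi => ⟨y, hi, rfl⟩
    have h2 : ∀ x ∈ Ω, ∀ᶠ z in 𝓝 (f y), f x = z → y = x := by
      intro x hx
      by_cases e : y = x
      · exact Eventually.of_forall fun _ _ => e
      · filter_upwards [eventually_ne_nhds (show f y ≠ f x from fun e' => e (h.inj hyΩ hx e'))]
          with z hz e' using absurd e'.symm hz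
    have h3 : ∀ᶠ z in 𝓝 (f y), ∀ i ∈ {i | y ∈ segment ℝ (a i) (b i)},
        (f (a i) = z → y = a i) ∧ (f (b i) = z → y = b i) :=
      (eventually_all_finite hT).2 fun i _ =>
        (h2 _ (h.gr.sub i (left_mem_segment _ _ _))).and (h2 _ (h.gr.sub i (right_mem_segment _ _ _)))
    obtain ⟨ρ, hρ, h4⟩ := Metric.eventually_nhds_iff.1
      (h3.and (isClosed_closure.isOpen_compl.mem_nhds h1))
    have h5 : ∀ i, ∀ x ∈ segment ℝ (a i) (b i), ‖f x - f y‖ < ρ → y ∈ segment ℝ (a i) (b i) := by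
      intro i x hx hd
      by_contra hn
      exact (h4 (by rwa [dist_eq_norm])).2
        (subset_closure (mem_image_of_mem f (mem_iUnion₂.2 ⟨i, hn, hx⟩)))
    obtain ⟨r, hr, h6⟩ := h.side y hy
    refine ⟨min ρ r, lt_min hρ hr, fun _ => ⟨fun i x hx hd => ?_, fun i hi z hz hd => ?_,
      fun y' hy' hne => ?_⟩⟩
    · have h7 := h5 i x hx (hd.trans_le (min_le_left _ _))
      exact ⟨h7, fun hne => (h6 i h7).1 x hx hne (hd.trans_le (min_le_right _ _))⟩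
    · exact (h6 i hi).2 z hz (hd.trans_le (min_le_right _ _))
    · refine (min_le_left _ _).trans (not_lt.1 fun hd => hne ?_)
      obtain ⟨i, hi⟩ := h.ends y' hy'
      have h7 := (h4 (y := f y') (by rwa [dist_eq_norm])).1 i (h5 i y' hi hd)
      rcases (h.bend y' hy' i hi).1 with e | e
      · rw [e] at h7 ⊢
        exact h7.1 rfl
      · rw [e] at h7 ⊢
        exact h7.2 rfl
  choose ρ hρ hk using key
  refine ⟨fun y => ρ y / 4, fun y => by linarith [hρ y], fun y hy i x hx hd => ?_,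
    fun y hy i hi z hz hd => ?_, fun y hy y' hy' hne => ?_⟩
  · exact (hk y hy).1 i x hx (by linarith [hρ y])
  · exact (hk y hy).2.1 i hi z hz (by linarith [hρ y])
  · have h1 := (hk y hy).2.2 y' hy' hne
    have h2 := (hk y' hy').2.2 y hy hne.symm
    rw [norm_sub_rev] at h1
    linarith

theorem MulIn.gaps (h : MulIn Ω f a b gp Vr η Bd F k0 s) {r : Rn 3 → ℝ} (hr : ∀ y, 0 < r y) :
    ∃ δ : γ → ℝ, (∀ g, 0 < δ g) ∧ (∀ i, δ (gp i) ≤ η i) ∧
      (∀ i, ∀ y ∈ Bd, y ∈ segment ℝ (a i) (b i) → 8 * δ (gp i) ≤ r y) ∧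
      ∀ i, ∀ x ∈ segment ℝ (a i) (b i), ∀ z,
        (z ∈ F ∨ ∃ j, gp j ≠ gp i ∧ z ∈ f '' segment ℝ (a j) (b j)) → ‖f x - z‖ ≤ 2 * δ (gp i) →
          ∃ y ∈ Bd, (∃ j, gp j = gp i ∧ y ∈ segment ℝ (a j) (b j)) ∧ ‖f x - f y‖ < r y / 4 := by
  have key : ∀ g, ∃ δ : ℝ, 0 < δ ∧ (∀ i ∈ {i | gp i = g}, δ ≤ η i ∧ 8 * δ ≤ r (a i) ∧
      8 * δ ≤ r (b i)) ∧ ∀ i, gp i = g → ∀ x ∈ segment ℝ (a i) (b i), ∀ z,
        (z ∈ F ∨ ∃ j, gp j ≠ g ∧ z ∈ f '' segment ℝ (a j) (b j)) → ‖f x - z‖ ≤ 2 * δ →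
          ∃ y ∈ Bd, (∃ j, gp j = g ∧ y ∈ segment ℝ (a j) (b j)) ∧ ‖f x - f y‖ < r y / 4 := by
    intro g
    have hA : IsCompact (f '' ⋃ i ∈ {i | gp i = g}, segment ℝ (a i) (b i)) :=
      ((h.gfin g).isCompact_biUnion fun i _ => GSep_cpt _ _).image_of_continuousOn
        (h.cont.mono (iUnion₂_subset fun i _ => h.gr.sub i))
    have hU : IsOpen (⋃ y ∈ {y | y ∈ Bd ∧ ∃ j, gp j = g ∧ y ∈ segment ℝ (a j) (b j)},
        ball (f y) (r y / 4)) := isOpen_biUnion fun _ _ => isOpen_ball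
    obtain ⟨ε, hε, h1⟩ := GEmb_gap
      (Z := F ∪ f '' ⋃ j ∈ {j | gp j ≠ g}, segment ℝ (a j) (b j)) hA hU (by
      rintro _ ⟨x, hx, rfl⟩ hc
      obtain ⟨i, hi, hx⟩ := mem_iUnion₂.1 hx
      have hB : x ∈ Bd := by
        rw [closure_union, h.Fc.isClosed.closure_eq] at hc
        rcases hc with hc | hc
        · exact h.hit i x hx hc
        · obtain ⟨j, hj, hx'⟩ := GSep_im h (h.gr.sub i hx) hc
          exact (h.sepg i j (fun e => hj (e.symm.trans hi)) x hx hx').1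
      exact mem_iUnion₂.2 ⟨x, ⟨hB, i, hi, hx⟩, mem_ball_self (by linarith [hr x])⟩)
    have h2 : ∀ c : ℝ, 0 < c → ∀ᶠ δ in 𝓝[>] (0 : ℝ), δ ≤ c := fun c hc =>
      mem_nhdsWithin_of_mem_nhds (Iic_mem_nhds hc)
    have h3 : ∀ᶠ δ in 𝓝[>] (0 : ℝ), ∀ i ∈ {i | gp i = g}, δ ≤ η i ∧ 8 * δ ≤ r (a i) ∧
        8 * δ ≤ r (b i) := (eventually_all_finite (h.gfin g)).2 fun i _ => by
      filter_upwards [h2 _ (h.η0 i), h2 (r (a i) / 8) (by linarith [hr (a i)]),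
        h2 (r (b i) / 8) (by linarith [hr (b i)])] with δ k1 k2 k3
      exact ⟨k1, by linarith, by linarith⟩
    obtain ⟨δ, k1, k2, k3⟩ := (h3.and ((h2 (ε / 3) (by linarith)).and self_mem_nhdsWithin)).exists
    refine ⟨δ, k3, k1, fun i hi x hx z hz hd => ?_⟩
    have h4 := h1 (f x) (mem_image_of_mem f (mem_iUnion₂.2 ⟨i, hi, hx⟩)) z (by
      rcases hz with hz | ⟨j, hj, y, hy, rfl⟩
      · exact Or.inl hz
      · exact Or.inr (mem_image_of_mem f (mem_iUnion₂.2 ⟨j, hj, hy⟩))) (by linarith)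
    obtain ⟨y, hy, h5⟩ := mem_iUnion₂.1 h4
    exact ⟨y, hy.1, hy.2, by rwa [mem_ball, dist_eq_norm] at h5⟩
  choose δ h0 h1 h2 using key
  refine ⟨δ, h0, fun i => (h1 _ i rfl).1, fun i y hy hi => ?_, fun i => h2 _ i rfl⟩
  rcases (h.bend y hy i hi).1 with rfl | rfl
  · exact (h1 _ i rfl).2.1
  · exact (h1 _ i rfl).2.2

end BEp
end
end

-- merged part: Pool.Agent.Work.MP_f0515e_an.D3.GLeg
section
/-! The cone map of a family of beads; reparametrisation of edges; chains of arcs.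

Plan. `Bead.cover`: a vertex has an edge (`exists_up`); a point of an edge `openSegment a b` lies on
`segment a (m s)` or `segment b (m s)`.
`Bead.g0`: `q v s = invFun (Φ v) (p s)` has norm one (`flt` at `y = 0`, `Φ v` is bijective). Choose
for `x` a triple `(v, s, t)` with `x = seg v (m s) t`. Two triples for one point: `t = 0` and the same `v`,
or `t = 1` and the same `s`, or the same triple (cells are disjoint; an edge has only its two ends as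
flags, `Edge.cl`, `Edge.left`). Injectivity: for `v ≠ w` a common value lies in `E s'' ⊆ S v ∩ S w`
(`meet`, `flt`), so both parameters are 1 and `f (m s) = f (m s')`; for `v = w` compare norms.
`repar`: `g x = g0 x` at vertices, `u (cell x) x` otherwise. An open edge is mapped onto
`g0 '' segment` minus the two end values, which is `g0 '' openSegment`. `rb c` and `sk 1` are unions of
vertices and open edges (`rb_sub_sk`, `front`).
`arcL_chn`: induction on `U` (remove the largest point; `Finset.induction_on_max`), statement for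
`U` with least element `0` and largest element `M`: length `2 ∑ ω - ω M`; uses `hglue`. -/

open Set Metric Filter Topology Function BEv
open scoped NNReal ENNReal

noncomputable section
namespace BEp

variable {Ω : Set (Rn 3)} {K : Kx Ω} {f : Rn 3 → Rn 3} {b : BdD}

theorem GLeg_fl {v : Rn 3} {s : Set (Rn 3)} (h : K.Fl v s) :
    ∃ w, K.Edge v w ∧ s = openSegment ℝ v w := by
  obtain ⟨h1, h2, h3, h4⟩ := h
  obtain ⟨a, c, he, rfl⟩ := Kx.dm_one h3.1 h3.2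
  rw [he.cl] at h4
  rcases Kx.KA2_seg h4 with rfl | rfl | h5
  · exact ⟨c, he, rfl⟩
  · exact ⟨a, he.symm, openSegment_symm ℝ _ _⟩
  · have h6 := he.dm
    rw [← Kx.cell_eq he.2 h5, h2, KA2_single] at h6
    omega

theorem GLeg_edge {a c : Rn 3} (h : K.Edge a c) : K.Fl a (openSegment ℝ a c) :=
  ⟨h.left.1, h.left.2, ⟨h.2, h.dm⟩, h.cl ▸ left_mem_segment ℝ a c⟩

theorem GLeg_seg0 {n : ℕ} (a c : Rn n) : seg a c 0 = a := by simp [seg]

theorem GLeg_seg1 {n : ℕ} (a c : Rn n) : seg a c 1 = c := by simp [seg]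

theorem Kx.leg_cover (hΩ : IsOpen Ω) {m : Set (Rn 3) → Rn 3} (hm : ∀ s ∈ K.cel 1, m s ∈ s)
    {x : Rn 3} (hx : x ∈ K.sk 1) : ∃ v s, K.Fl v s ∧ x ∈ segment ℝ v (m s) := by
  rcases Kx.mem_sk_one.1 hx with ⟨h1, h2⟩ | ⟨a, c, he, h1⟩
  · obtain ⟨τ, k1, k2⟩ := Kx.exists_up hΩ (K.cell_mem h1) hx.2 (by norm_num)
    exact ⟨x, τ, ⟨h1, h2, k1, k2 (K.mem x h1)⟩, left_mem_segment ℝ _ _⟩
  · have h2 := hm _ ⟨he.2, he.dm⟩
    have h3 : K.Fl c (openSegment ℝ a c) := openSegment_symm ℝ c a ▸ GLeg_edge he.symm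
    generalize hp : m (openSegment ℝ a c) = p at h2
    rw [← seg_image_open] at h1 h2
    obtain ⟨t, ht, rfl⟩ := h1
    obtain ⟨u, hu, rfl⟩ := h2
    rcases le_total t u with k | k
    · refine ⟨a, _, GLeg_edge he, ?_⟩
      rw [hp, ← seg_image]
      refine ⟨t / u, ⟨div_nonneg ht.1.le hu.1.le, (div_le_one hu.1).2 k⟩, ?_⟩
      simp only [seg, add_sub_cancel_left, smul_smul, div_mul_cancel₀ _ hu.1.ne']
    · refine ⟨c, _, h3, ?_⟩
      rw [hp, ← seg_image]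
      have h4 : 0 < 1 - u := sub_pos.2 hu.2
      refine ⟨(1 - t) / (1 - u), ⟨div_nonneg (sub_pos.2 ht.2).le h4.le,
        (div_le_one h4).2 (by linarith)⟩, ?_⟩
      ext i
      simp only [seg, Pi.add_apply, Pi.smul_apply, Pi.sub_apply, smul_eq_mul]
      field_simp
      ring

theorem GLeg_pos {v p : Rn 3} {s : Set (Rn 3)} (h : K.Fl v s) (hp : p ∈ s) {t : ℝ}
    (ht : t ∈ Icc (0 : ℝ) 1) (h0 : t ≠ 0) : K.cell (seg v p t) = s :=
  Kx.cell_eq h.2.2.1.1 (Kx.seg_mem h.2.2.1.1 h.2.2.2 hp ⟨lt_of_le_of_ne ht.1 h0.symm, ht.2⟩)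

theorem GLeg_zero {v v' p : Rn 3} {s s' : Set (Rn 3)} (h : K.Fl v s) (h' : K.Fl v' s') (hp : p ∈ s')
    {t : ℝ} (ht : t ∈ Icc (0 : ℝ) 1) (e : v = seg v' p t) : t = 0 := by
  by_contra h0
  have h1 := GLeg_pos h' hp ht h0
  have h2 := h'.2.2.1.2
  rw [← h1, ← e, h.2.1, KA2_single] at h2
  omega

theorem GLeg_tri {m : Set (Rn 3) → Rn 3} (hm : ∀ s ∈ K.cel 1, m s ∈ s) {v v' : Rn 3}
    {s s' : Set (Rn 3)} (h : K.Fl v s) (h' : K.Fl v' s') {t t' : ℝ} (ht : t ∈ Icc (0 : ℝ) 1)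
    (ht' : t' ∈ Icc (0 : ℝ) 1) (e : seg v (m s) t = seg v' (m s') t') :
    (t = 0 ∧ t' = 0 ∧ v = v') ∨ (t = 1 ∧ t' = 1 ∧ s = s') ∨ (v = v' ∧ s = s' ∧ t = t') := by
  have hp := hm s h.2.2.1
  have hp' := hm s' h'.2.2.1
  by_cases h0 : t = 0
  · subst h0
    rw [GLeg_seg0] at e
    obtain rfl := GLeg_zero h h' hp' ht' e
    exact Or.inl ⟨rfl, rfl, by rwa [GLeg_seg0] at e⟩
  by_cases h0' : t' = 0
  · subst h0'
    rw [GLeg_seg0] at e
    exact (h0 (GLeg_zero h' h hp ht e.symm)).elim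
  obtain rfl : s = s' := by rw [← GLeg_pos h hp ht h0, e, GLeg_pos h' hp' ht' h0']
  obtain ⟨w, he, hs⟩ := GLeg_fl h
  obtain ⟨w', -, hs'⟩ := GLeg_fl h'
  generalize m s = p at hp e
  rw [hs, ← seg_image_open] at hp
  obtain ⟨u, hu, rfl⟩ := hp
  have hne : w - v ≠ 0 := sub_ne_zero.2 he.1.symm
  rcases he.uniq (hs.symm.trans hs') with ⟨rfl, -⟩ | ⟨-, rfl⟩
  · refine Or.inr (Or.inr ⟨rfl, rfl, ?_⟩)
    simp only [seg, add_sub_cancel_left, smul_smul, add_right_inj] at e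
    exact mul_right_cancel₀ hu.1.ne' (smul_left_injective ℝ hne e)
  · have e1 : (t * u) • (w - v) = (1 - t' * (1 - u)) • (w - v) := by
      ext i
      have := congrFun e i
      simp only [seg, Pi.add_apply, Pi.smul_apply, Pi.sub_apply, smul_eq_mul] at this ⊢
      linarith
    have e2 := smul_left_injective ℝ hne e1
    have k1 : 0 ≤ (1 - t) * u := mul_nonneg (sub_nonneg.2 ht.2) hu.1.le
    have k2 : 0 ≤ (1 - t') * (1 - u) := mul_nonneg (sub_nonneg.2 ht'.2) (sub_pos.2 hu.2).le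
    have k3 : (1 - t) * u = 0 := by nlinarith
    have k4 : (1 - t') * (1 - u) = 0 := by nlinarith
    refine Or.inr (Or.inl ⟨?_, ?_, rfl⟩)
    · linarith [(mul_eq_zero.1 k3).resolve_right hu.1.ne']
    · linarith [(mul_eq_zero.1 k4).resolve_right (sub_pos.2 hu.2).ne']

theorem GLeg_q (h : Bead K f b) {v : Rn 3} {s : Set (Rn 3)} (hl : K.Fl v s) :
    ‖invFun (b.Φ v) (b.p f s)‖ = 1 := by
  have h1 := h.one v hl.1 hl.2.1
  obtain ⟨y, k1, k2⟩ := (h1.flt s hl 0 (by simp)).2 rfl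
  rw [map_zero, add_zero] at k2
  rw [h1.lh.inv_eq k2]
  simpa using k1

theorem GLeg_nq (h : Bead K f b) {v : Rn 3} {s : Set (Rn 3)} (hl : K.Fl v s) {t : ℝ}
    (ht : t ∈ Icc (0 : ℝ) 1) : ‖t • invFun (b.Φ v) (b.p f s)‖ = t := by
  rw [norm_smul, GLeg_q h hl, mul_one, Real.norm_of_nonneg ht.1]

theorem Bead.g0 (hΩ : IsOpen Ω) (hi : InjOn f Ω) (h : Bead K f b) :
    ∃ g : Rn 3 → Rn 3, InjOn g (K.sk 1) ∧ ∀ v s, K.Fl v s → ∀ t ∈ Icc (0 : ℝ) 1,
      g (seg v (b.m s) t) = b.Φ v (t • invFun (b.Φ v) (b.p f s)) := by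
  classical
  have lh : ∀ v s, K.Fl v s → LH (b.Φ v) := fun v s hl => (h.one v hl.1 hl.2.1).lh
  have ex : ∀ x, ∃ y, ∀ v s, K.Fl v s → ∀ t ∈ Icc (0 : ℝ) 1, x = seg v (b.m s) t →
      y = b.Φ v (t • invFun (b.Φ v) (b.p f s)) := by
    intro x
    by_cases hx : ∃ v s, K.Fl v s ∧ ∃ t ∈ Icc (0 : ℝ) 1, x = seg v (b.m s) t
    · obtain ⟨v, s, hl, t, ht, rfl⟩ := hx
      refine ⟨b.Φ v (t • invFun (b.Φ v) (b.p f s)), fun v' s' hl' t' ht' e => ?_⟩
      rcases GLeg_tri h.mk' hl hl' ht ht' e with ⟨rfl, rfl, rfl⟩ | ⟨rfl, rfl, rfl⟩ | ⟨rfl, rfl, rfl⟩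
      · rw [zero_smul, zero_smul]
      · rw [one_smul, one_smul, (lh _ _ hl).ri, (lh _ _ hl').ri]
      · rfl
    · exact ⟨0, fun v s hl t ht e => (hx ⟨v, s, hl, t, ht, e⟩).elim⟩
  choose g hg using ex
  refine ⟨g, fun x hx y hy e => ?_, fun v s hl t ht => hg _ v s hl t ht rfl⟩
  obtain ⟨v, s, hl, k⟩ := Kx.leg_cover hΩ h.mk' hx
  obtain ⟨w, s', hl', k'⟩ := Kx.leg_cover hΩ h.mk' hy
  rw [← seg_image] at k k'
  obtain ⟨t, ht, rfl⟩ := k
  obtain ⟨t', ht', rfl⟩ := k'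
  rw [hg _ v s hl t ht rfl, hg _ w s' hl' t' ht' rfl] at e
  have mm : b.p f s = b.p f s' → b.m s = b.m s' := fun e =>
    hi (Kx.cells_sub hl.2.2.1.1 (h.mk' s hl.2.2.1)) (Kx.cells_sub hl'.2.2.1.1 (h.mk' s' hl'.2.2.1)) e
  by_cases hvw : v = w
  · subst hvw
    have e1 := (lh _ _ hl).inj e
    obtain rfl : t = t' := by rw [← GLeg_nq h hl ht, e1, GLeg_nq h hl' ht']
    by_cases h0 : t = 0
    · rw [h0, GLeg_seg0, GLeg_seg0]
    · have e2 := smul_right_injective _ h0 e1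
      rw [mm (by rw [← (lh _ _ hl).ri (b.p f s), e2, (lh _ _ hl).ri])]
  · have mB : ∀ v s, K.Fl v s → ∀ t ∈ Icc (0 : ℝ) 1,
        b.Φ v (t • invFun (b.Φ v) (b.p f s)) ∈ b.B v := fun v s hl t ht =>
      ⟨_, by rw [mem_closedBall_zero_iff, GLeg_nq h hl ht]; exact ht.2, rfl⟩
    have mS : ∀ v s, K.Fl v s → ∀ t ∈ Icc (0 : ℝ) 1,
        b.Φ v (t • invFun (b.Φ v) (b.p f s)) ∈ b.S v → t = 1 := by
      rintro v s hl t ht ⟨y, k1, k2⟩
      rw [← GLeg_nq h hl ht, ← (lh _ _ hl).inj k2]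
      simpa using k1
    obtain ⟨s'', k1, k2, y, k3, k4⟩ := h.meet v hl.1 w hl'.1 hl.2.1 hl'.2.1 hvw _
      ⟨mB v s hl t ht, e ▸ mB w s' hl' t' ht'⟩
    have k4 : b.p f s'' + b.M s'' y = _ := k4
    obtain rfl := mS v s hl t ht (k4 ▸ ((h.one v hl.1 hl.2.1).flt s'' k1 y k3.1).2 k3.2)
    obtain rfl := mS w s' hl' t' ht'
      (e ▸ k4 ▸ ((h.one w hl'.1 hl'.2.1).flt s'' k2 y k3.1).2 k3.2)
    rw [one_smul, one_smul, (lh _ _ hl).ri, (lh _ _ hl').ri] at e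
    rw [GLeg_seg1, GLeg_seg1, mm e]

/-- Consequences of the cone formula. -/
theorem Bead.g0_leg (h : Bead K f b) {g : Rn 3 → Rn 3}
    (hg : ∀ v s, K.Fl v s → ∀ t ∈ Icc (0 : ℝ) 1,
      g (seg v (b.m s) t) = b.Φ v (t • invFun (b.Φ v) (b.p f s))) {v : Rn 3} {s : Set (Rn 3)}
    (hl : K.Fl v s) : g '' segment ℝ v (b.m s) = b.Leg f v s ∧ b.Leg f v s ⊆ b.B v ∧
      g v = b.Φ v 0 ∧ g (b.m s) = f (b.m s) := by
  refine ⟨?_, image_mono ?_, ?_, ?_⟩
  · rw [BdD.Leg, ← seg_image, ← seg_image, image_image, image_image]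
    refine image_congr fun t ht => ?_
    rw [hg v s hl t ht, seg, zero_add, sub_zero]
  · exact (convex_closedBall 0 1).segment_subset (by simp)
      (by rw [mem_closedBall_zero_iff, GLeg_q h hl])
  · have := hg v s hl 0 ⟨le_rfl, zero_le_one⟩
    rwa [GLeg_seg0, zero_smul] at this
  · have := hg v s hl 1 ⟨zero_le_one, le_rfl⟩
    rwa [GLeg_seg1, one_smul, (h.one v hl.1 hl.2.1).lh.ri] at this

theorem GLeg_open {a c x : Rn 3} (h : a ≠ c) (hx : x ∈ openSegment ℝ a c) : x ≠ a ∧ x ≠ c :=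
  ⟨fun e => h (left_mem_openSegment_iff.1 (e ▸ hx)), fun e => h (right_mem_openSegment_iff.1 (e ▸ hx))⟩

theorem GLeg_swap {a c x : Rn 3} (h : a ≠ c) {p q : Rn 3 → Rn 3} (hp : InjOn p (segment ℝ a c))
    (ha : p a = q a) (hc : p c = q c) (e : p '' segment ℝ a c ⊆ q '' segment ℝ a c)
    (hx : x ∈ openSegment ℝ a c) : ∃ y ∈ openSegment ℝ a c, p x = q y := by
  have hx' := openSegment_subset_segment ℝ a c hx
  obtain ⟨y, hy, k⟩ := e ⟨x, hx', rfl⟩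
  rcases Kx.KA2_seg hy with rfl | rfl | hy
  · exact ((GLeg_open h hx).1 (hp hx' hy (k.symm.trans ha.symm))).elim
  · exact ((GLeg_open h hx).2 (hp hx' hy (k.symm.trans hc.symm))).elim
  · exact ⟨y, hy, k.symm⟩

theorem repar (K : Kx Ω) {g0 : Rn 3 → Rn 3} (hi : InjOn g0 (K.sk 1))
    (u : Set (Rn 3) → Rn 3 → Rn 3)
    (hu : ∀ a b, K.Edge a b → InjOn (u (openSegment ℝ a b)) (segment ℝ a b) ∧
      u (openSegment ℝ a b) a = g0 a ∧ u (openSegment ℝ a b) b = g0 b ∧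
      u (openSegment ℝ a b) '' segment ℝ a b = g0 '' segment ℝ a b) :
    ∃ g : Rn 3 → Rn 3, InjOn g (K.sk 1) ∧
      (∀ a b, K.Edge a b → EqOn g (u (openSegment ℝ a b)) (segment ℝ a b)) ∧
      (∀ x ∈ Ω, K.cell x = {x} → g x = g0 x) ∧ g '' K.sk 1 = g0 '' K.sk 1 ∧
      (∀ σ ∈ K.cells, dm σ ≤ 1 → g '' closure σ = g0 '' closure σ) ∧
      ∀ c ∈ K.cel 2, g '' rb c = g0 '' rb c := by
  classical
  set g : Rn 3 → Rn 3 := fun x => if K.cell x = {x} then g0 x else u (K.cell x) x with hg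
  have hv : ∀ x, K.cell x = {x} → g x = g0 x := fun x hx => if_pos hx
  have he : ∀ a c, K.Edge a c → EqOn g (u (openSegment ℝ a c)) (segment ℝ a c) := by
    intro a c h x hx
    rcases Kx.KA2_seg hx with rfl | rfl | h1
    · rw [hv _ h.left.2, (hu _ _ h).2.1]
    · rw [hv _ h.right.2, (hu _ _ h).2.2.1]
    · have h2 := Kx.cell_eq h.2 h1
      have h3 : K.cell x ≠ {x} := fun e => by
        have := h.dm
        rw [← h2, e, KA2_single] at this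
        omega
      exact (if_neg h3).trans (by rw [h2])
  have key : ∀ x ∈ K.sk 1, (∃ y ∈ K.cell x, g x = g0 y) ∧ ∃ y ∈ K.cell x, g0 x = g y := by
    intro x hx
    rcases Kx.mem_sk_one.1 hx with ⟨h1, h2⟩ | ⟨a, c, h, h1⟩
    · exact ⟨⟨x, K.mem x h1, hv x h2⟩, x, K.mem x h1, (hv x h2).symm⟩
    · obtain ⟨k1, k2, k3, k4⟩ := hu a c h
      rw [Kx.cell_eq h.2 h1, he a c h (openSegment_subset_segment ℝ a c h1)]
      refine ⟨GLeg_swap h.1 k1 k2 k3 k4.subset h1, ?_⟩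
      obtain ⟨y, hy, k⟩ := GLeg_swap h.1 (hi.mono h.seg_sub) k2.symm k3.symm k4.superset h1
      exact ⟨y, hy, k.trans (he a c h (openSegment_subset_segment ℝ a c hy)).symm⟩
  have sat : ∀ X ⊆ K.sk 1, (∀ x ∈ X, K.cell x ⊆ X) → g '' X = g0 '' X := by
    intro X h1 h2
    refine Subset.antisymm ?_ ?_ <;> rintro _ ⟨x, hx, rfl⟩
    · obtain ⟨y, hy, k⟩ := (key x (h1 hx)).1
      exact ⟨y, h2 x hx hy, k.symm⟩
    · obtain ⟨y, hy, k⟩ := (key x (h1 hx)).2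
      exact ⟨y, h2 x hx hy, k.symm⟩
  have sk : ∀ x ∈ K.sk 1, K.cell x ⊆ K.sk 1 := fun x hx =>
    subset_closure.trans (Kx.cl_sub_sk (K.cell_mem hx.1) hx.2)
  refine ⟨g, fun x hx y hy e => ?_, he, fun x _ => hv x, sat _ Subset.rfl sk, fun σ h1 h2 =>
    sat _ (Kx.cl_sub_sk h1 h2) fun x hx => (Kx.KA3_face h1 hx).2.2, fun c hc =>
    sat _ (Kx.rb_sub_sk hc.1 hc.2.le) fun x hx y hy => ⟨(Kx.KA3_face hc.1 hx.1).2.2 hy, fun k => ?_⟩⟩
  · obtain ⟨x', hx', k⟩ := (key x hx).1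
    obtain ⟨y', hy', k'⟩ := (key y hy).1
    obtain rfl := hi (sk x hx hx') (sk y hy hy') (k.symm.trans (e.trans k'))
    have e1 : y ∈ K.cell x := by
      rw [← K.eqv x hx.1 _ hx', K.eqv y hy.1 _ hy']
      exact K.mem y hy.1
    rcases Kx.mem_sk_one.1 hx with ⟨-, h2⟩ | ⟨a, c, h, h1⟩
    · rw [h2] at e1
      exact e1.symm
    · rw [Kx.cell_eq h.2 h1] at e1
      have s1 := openSegment_subset_segment ℝ a c h1
      have s2 := openSegment_subset_segment ℝ a c e1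
      exact (hu a c h).1 s1 s2 ((he a c h s1).symm.trans (e.trans (he a c h s2)))
  · have h1 := Kx.cl_sub hc.1 hx.1
    refine hx.2 ?_
    rw [← Kx.cell_eq hc.1 k, K.eqv x h1 y hy]
    exact K.mem x h1

theorem ArcL.mono' {n : ℕ} {A : Set (Rn n)} {a b : Rn n} {L L' : ℝ} (h : ArcL A a b L)
    (hL : L ≤ L') : ArcL A a b L' := by
  obtain ⟨γ, h1, h2, h3, h4, h5, h6⟩ := h
  exact ⟨γ, h1, h2, h3, h4, h5, fun s hs t ht =>
    (h6 s hs t ht).trans (mul_le_mul_of_nonneg_right hL (abs_nonneg _))⟩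

theorem GLeg_flip {s : ℝ} (hs : s ∈ Icc (0 : ℝ) 1) : 1 - s ∈ Icc (0 : ℝ) 1 :=
  ⟨sub_nonneg.2 hs.2, sub_le_self _ hs.1⟩

theorem ArcL.symm' {n : ℕ} {A : Set (Rn n)} {a b : Rn n} {L : ℝ} (h : ArcL A a b L) :
    ArcL A b a L := by
  obtain ⟨γ, h1, h2, h3, h4, h5, h6⟩ := h
  refine ⟨fun t => γ (1 - t), h1.comp ((TP.const 1).sub TP.id'), fun s hs t ht e => ?_,
    by simpa using h4, by simpa using h3, ?_, fun s hs t ht => ?_⟩
  · linarith [h2 (GLeg_flip hs) (GLeg_flip ht) e]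
  · rw [← h5]
    refine Subset.antisymm ?_ ?_ <;> rintro _ ⟨t, ht, rfl⟩
    · exact ⟨_, GLeg_flip ht, rfl⟩
    · exact ⟨_, GLeg_flip ht, by simp⟩
  · refine (h6 _ (GLeg_flip hs) _ (GLeg_flip ht)).trans_eq ?_
    rw [← abs_neg]
    congr 2
    ring

theorem GLeg_len {n : ℕ} {A : Set (Rn n)} {a b : Rn n} {L : ℝ} (h : ArcL A a b L) : 0 < L := by
  obtain ⟨γ, -, h2, -, -, -, h6⟩ := h
  have h0 : (0 : ℝ) ∈ Icc (0 : ℝ) 1 := ⟨le_rfl, zero_le_one⟩
  have h1 : (1 : ℝ) ∈ Icc (0 : ℝ) 1 := ⟨zero_le_one, le_rfl⟩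
  have k := h6 1 h1 0 h0
  rw [sub_zero, abs_one, mul_one] at k
  exact (norm_pos_iff.2 (sub_ne_zero.2 fun e => one_ne_zero (h2 h1 h0 e))).trans_le k

theorem GLeg_abs (x y L : ℝ) : |min x L - min y L| + |max (x - L) 0 - max (y - L) 0| = |x - y| := by
  simp only [min_def, max_def, abs_eq_max_neg]
  split_ifs <;> linarith

theorem ArcL.glue' {n : ℕ} {A B : Set (Rn n)} {a b c : Rn n} {L L' : ℝ} (h : ArcL A a b L)
    (h' : ArcL B b c L') (hAB : A ∩ B ⊆ {b}) : ArcL (A ∪ B) a c (L + L') := by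
  have p := GLeg_len h
  have p' := GLeg_len h'
  obtain ⟨γ, h1, h2, h3, h4, h5, h6⟩ := h
  obtain ⟨δ, k1, k2, k3, k4, k5, k6⟩ := h'
  have h0 : (0 : ℝ) ∈ Icc (0 : ℝ) 1 := ⟨le_rfl, zero_le_one⟩
  have h1' : (1 : ℝ) ∈ Icc (0 : ℝ) 1 := ⟨zero_le_one, le_rfl⟩
  set α : ℝ → ℝ := fun t => min ((L + L') * t) L / L with hα
  set β : ℝ → ℝ := fun t => max ((L + L') * t - L) 0 / L' with hβ
  have mα : ∀ t ∈ Icc (0 : ℝ) 1, α t ∈ Icc (0 : ℝ) 1 := fun t ht =>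
    ⟨div_nonneg (le_min (mul_nonneg (by linarith) ht.1) p.le) p.le,
      (div_le_one p).2 (min_le_right _ _)⟩
  have mβ : ∀ t ∈ Icc (0 : ℝ) 1, β t ∈ Icc (0 : ℝ) 1 := fun t ht =>
    ⟨div_nonneg (le_max_right _ _) p'.le,
      (div_le_one p').2 (max_le (by nlinarith [ht.2]) p'.le)⟩
  have lo : ∀ t, (L + L') * t ≤ L → α t = (L + L') * t / L ∧ β t = 0 := fun t ht =>
    ⟨by simp only [hα, min_eq_left ht], by simp only [hβ, max_eq_right (sub_nonpos.2 ht), zero_div]⟩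
  have hi : ∀ t, L ≤ (L + L') * t → α t = 1 ∧ β t = ((L + L') * t - L) / L' := fun t ht =>
    ⟨by simp only [hα, min_eq_right ht, div_self p.ne'],
      by simp only [hβ, max_eq_left (sub_nonneg.2 ht)]⟩
  have vl : ∀ t, (L + L') * t ≤ L → γ (α t) + δ (β t) - b = γ (α t) := fun t ht => by
    rw [(lo t ht).2, k3, add_sub_cancel_right]
  have vh : ∀ t, L ≤ (L + L') * t → γ (α t) + δ (β t) - b = δ (β t) := fun t ht => by
    rw [(hi t ht).1, h4, add_sub_cancel_left]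
  have sum : ∀ t, L * α t + L' * β t = (L + L') * t := fun t => by
    rcases le_total ((L + L') * t) L with k | k
    · rw [(lo t k).1, (lo t k).2]
      field_simp
      ring
    · rw [(hi t k).1, (hi t k).2]
      field_simp
      ring
  have fin : ∀ s t, α s = α t → β s = β t → s = t := fun s t e e' =>
    mul_left_cancel₀ (add_pos p p').ne' (by rw [← sum, ← sum, e, e'])
  have mix : ∀ s ∈ Icc (0 : ℝ) 1, ∀ t ∈ Icc (0 : ℝ) 1, (L + L') * s ≤ L → L ≤ (L + L') * t →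
      γ (α s) = δ (β t) → s = t := by
    intro s hs t ht ks kt e
    have e1 : γ (α s) = b := hAB ⟨h5 ▸ ⟨_, mα s hs, rfl⟩, k5 ▸ ⟨_, mβ t ht, e.symm⟩⟩
    refine fin s t ?_ ?_
    · rw [(hi t kt).1, h2 (mα s hs) h1' (e1.trans h4.symm)]
    · rw [(lo s ks).2, k2 (mβ t ht) h0 (e.symm.trans (e1.trans k3.symm))]
  refine ⟨fun t => γ (α t) + δ (β t) - b, ?_, fun s hs t ht e => ?_, ?_, ?_, ?_,
    fun s hs t ht => ?_⟩
  · exact ((h1.comp (((TP.id'.const_mul _).min (TP.const L)).div_const L)).add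
      (k1.comp ((((TP.id'.const_mul _).sub (TP.const L)).max (TP.const 0)).div_const L'))).sub
      (TP.const b)
  · simp only at e
    rcases le_total ((L + L') * s) L with ks | ks <;> rcases le_total ((L + L') * t) L with kt | kt
    · rw [vl s ks, vl t kt] at e
      exact fin s t (h2 (mα s hs) (mα t ht) e) (by rw [(lo s ks).2, (lo t kt).2])
    · rw [vl s ks, vh t kt] at e
      exact mix s hs t ht ks kt e
    · rw [vh s ks, vl t kt] at e
      exact (mix t ht s hs kt ks e.symm).symm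
    · rw [vh s ks, vh t kt] at e
      exact fin s t (by rw [(hi s ks).1, (hi t kt).1]) (k2 (mβ s hs) (mβ t ht) e)
  · have k : (L + L') * 0 ≤ L := by linarith
    simp only
    rw [vl 0 k, (lo 0 k).1, mul_zero, zero_div, h3]
  · have k : L ≤ (L + L') * 1 := by linarith
    simp only
    rw [vh 1 k, (hi 1 k).2, mul_one, add_sub_cancel_left, div_self p'.ne', k4]
  · have q := add_pos p p'
    rw [← h5, ← k5]
    refine Subset.antisymm ?_ (union_subset ?_ ?_) <;> rintro _ ⟨t, ht, rfl⟩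
    · rcases le_total ((L + L') * t) L with k | k
      · exact Or.inl ⟨_, mα t ht, (vl t k).symm⟩
      · exact Or.inr ⟨_, mβ t ht, (vh t k).symm⟩
    · have e : (L + L') * (L * t / (L + L')) = L * t := by field_simp
      have k : (L + L') * (L * t / (L + L')) ≤ L := by nlinarith [ht.2]
      refine ⟨L * t / (L + L'), ⟨div_nonneg (mul_nonneg p.le ht.1) q.le,
        (div_le_one q).2 (by nlinarith [ht.2])⟩, (vl _ k).trans ?_⟩
      rw [(lo _ k).1, e, mul_div_cancel_left₀ _ p.ne']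
    · have e : (L + L') * ((L + L' * t) / (L + L')) = L + L' * t := by field_simp
      have k : L ≤ (L + L') * ((L + L' * t) / (L + L')) := by nlinarith [ht.1]
      refine ⟨(L + L' * t) / (L + L'), ⟨div_nonneg (by nlinarith [ht.1]) q.le,
        (div_le_one q).2 (by nlinarith [ht.2])⟩, (vh _ k).trans ?_⟩
      rw [(hi _ k).2, e, add_sub_cancel_left, mul_div_cancel_left₀ _ p'.ne']
  · have e : γ (α s) + δ (β s) - b - (γ (α t) + δ (β t) - b) =
        (γ (α s) - γ (α t)) + (δ (β s) - δ (β t)) := by abel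
    simp only
    rw [e]
    refine (norm_add_le _ _).trans ((add_le_add (h6 _ (mα s hs) _ (mα t ht))
      (k6 _ (mβ s hs) _ (mβ t ht))).trans_eq ?_)
    simp only [hα, hβ]
    rw [← sub_div, ← sub_div, abs_div, abs_div, abs_of_pos p, abs_of_pos p',
      mul_div_cancel₀ _ p.ne', mul_div_cancel₀ _ p'.ne', GLeg_abs, ← mul_sub, abs_mul,
      abs_of_pos (add_pos p p')]

theorem arcL_sgm {n : ℕ} {a b : Rn n} (h : a ≠ b) : ArcL (segment ℝ a b) a b ‖b - a‖ := by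
  refine ⟨seg a b, tp_seg a b, fun s _ t _ e => ?_, GLeg_seg0 a b, GLeg_seg1 a b, seg_image a b,
    fun s _ t _ => ?_⟩
  · exact smul_left_injective ℝ (sub_ne_zero.2 h.symm) (add_left_cancel e)
  · rw [seg, seg, add_sub_add_left_eq_sub, ← sub_smul, norm_smul, Real.norm_eq_abs, mul_comm]

theorem GLeg_chain {n : ℕ} {γ : ℝ → Rn n} (hi : InjOn γ (Icc 0 1)) {ω : ℝ → ℝ}
    (hω : ∀ t, 0 ≤ ω t) (U : Finset ℝ) : (U : Set ℝ) ⊆ Icc 0 1 → (0 : ℝ) ∈ U →
    (∀ t ∈ U, ∀ t' ∈ U, t < t' → (∀ u ∈ U, u ≤ t ∨ t' ≤ u) →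
      ArcL (γ '' Icc t t') (γ t) (γ t') (ω t + ω t')) → ∀ M ∈ U, (∀ u ∈ U, u ≤ M) → 0 < M →
    ArcL (γ '' Icc 0 M) (γ 0) (γ M) (2 * ∑ t ∈ U, ω t - ω M) := by
  classical
  induction U using Finset.induction_on_max with
  | empty => exact fun _ h => absurd h (Finset.notMem_empty _)
  | insert a U ha ih =>
    intro hU h0 h M hM hM' hp
    obtain rfl : M = a := (Finset.mem_insert.1 hM).elim id fun k =>
      ((ha M k).not_ge (hM' a (Finset.mem_insert_self _ _))).elim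
    have h0' : (0 : ℝ) ∈ U := (Finset.mem_insert.1 h0).resolve_left hp.ne
    have hU' : (U : Set ℝ) ⊆ Icc 0 1 := fun u hu => hU (Finset.mem_insert_of_mem hu)
    obtain ⟨N, hN, hN'⟩ := U.exists_max_image id ⟨0, h0'⟩
    have k := h N (Finset.mem_insert_of_mem hN) M hM (ha N hN) fun u hu =>
      (Finset.mem_insert.1 hu).elim (fun e => Or.inr e.ge) fun e => Or.inl (hN' u e)
    rw [Finset.sum_insert fun e => (ha M e).false]
    have s1 : ω N ≤ ∑ t ∈ U, ω t := Finset.single_le_sum (fun t _ => hω t) hN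
    rcases (hU' hN).1.eq_or_lt with rfl | hN0
    · exact k.mono' (by linarith [hω 0])
    · have k1 := ih hU' h0' (fun t ht t' ht' hl hu => h t (Finset.mem_insert_of_mem ht) t'
        (Finset.mem_insert_of_mem ht') hl fun u hu' => (Finset.mem_insert.1 hu').elim
          (fun e => Or.inr (e ▸ (ha t' ht').le)) (hu u)) N hN hN' hN0
      have k2 := k1.glue' k (by
        rintro _ ⟨⟨s, hs, rfl⟩, t, ht, e⟩
        have e1 := hi ⟨hN0.le.trans ht.1, ht.2.trans (hU hM).2⟩ ⟨hs.1, hs.2.trans (hU' hN).2⟩ e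
        exact congrArg γ (le_antisymm hs.2 (e1 ▸ ht.1)))
      rw [← image_union, Icc_union_Icc_eq_Icc hN0.le (ha N hN).le] at k2
      exact k2.mono' (by linarith)

theorem arcL_chn {n : ℕ} {γ : ℝ → Rn n} (hi : InjOn γ (Icc 0 1)) (U : Finset ℝ)
    (hU : (U : Set ℝ) ⊆ Icc 0 1) (h0 : (0 : ℝ) ∈ U) (h1 : (1 : ℝ) ∈ U) {ω : ℝ → ℝ}
    (hω : ∀ t, 0 ≤ ω t)
    (h : ∀ t ∈ U, ∀ t' ∈ U, t < t' → (∀ u ∈ U, u ≤ t ∨ t' ≤ u) →
      ArcL (γ '' Icc t t') (γ t) (γ t') (ω t + ω t')) :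
    ArcL (γ '' Icc 0 1) (γ 0) (γ 1) (2 * ∑ t ∈ U, ω t) :=
  (GLeg_chain hi hω U hU h0 h 1 h1 (fun _ hu => (hU hu).2) one_pos).mono' (by linarith [hω 1])

theorem GLeg_prof {A : Set (Rn 3)} {p q a c : Rn 3} {L : ℝ} (h : ArcL A p q L)
    {be : Rn 3 → ℝ} (h1 : TP be) (h2 : InjOn be (segment ℝ a c))
    (h3 : be '' segment ℝ a c = Icc 0 1) : ∃ u : Rn 3 → Rn 3, TP u ∧ InjOn u (segment ℝ a c) ∧
      (∀ x, be x = 0 → u x = p) ∧ (∀ x, be x = 1 → u x = q) ∧ u '' segment ℝ a c = A ∧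
      ∀ y ∈ segment ℝ a c, ∀ y' ∈ segment ℝ a c, ‖u y - u y'‖ ≤ L * |be y - be y'| := by
  obtain ⟨γ, k1, k2, k3, k4, k5, k6⟩ := h
  have m : ∀ y ∈ segment ℝ a c, be y ∈ Icc (0 : ℝ) 1 := fun y hy => h3 ▸ mem_image_of_mem _ hy
  exact ⟨fun x => γ (be x), k1.comp h1, fun x hx y hy e => h2 hx hy (k2 (m x hx) (m y hy) e),
    fun x e => by simp only [e, k3], fun x e => by simp only [e, k4],
    by rw [← image_image γ be, h3, k5], fun y hy y' hy' => k6 _ (m y hy) _ (m y' hy')⟩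

/-- Parametrisation of an arc over a segment with a prescribed speed profile. -/
theorem ArcL.profile {A : Set (Rn 3)} {p q a c : Rn 3} {L : ℝ} (h : ArcL A p q L) (hac : a ≠ c)
    {be : Rn 3 → ℝ} (h1 : TP be) (h2 : InjOn be (segment ℝ a c))
    (h3 : be '' segment ℝ a c = Icc 0 1) :
    ∃ u : Rn 3 → Rn 3, TP u ∧ InjOn u (segment ℝ a c) ∧ u a = p ∧ u c = q ∧
      u '' segment ℝ a c = A ∧
      ∀ y ∈ segment ℝ a c, ∀ y' ∈ segment ℝ a c, ‖u y - u y'‖ ≤ L * |be y - be y'| := by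
  have h0 : (0 : ℝ) ∈ Icc (0 : ℝ) 1 := ⟨le_rfl, zero_le_one⟩
  have h1' : (1 : ℝ) ∈ Icc (0 : ℝ) 1 := ⟨zero_le_one, le_rfl⟩
  have ms : ∀ t ∈ Icc (0 : ℝ) 1, seg a c t ∈ segment ℝ a c := fun t ht =>
    seg_image a c ▸ mem_image_of_mem _ ht
  have m : ∀ y ∈ segment ℝ a c, be y ∈ Icc (0 : ℝ) 1 := fun y hy => h3 ▸ mem_image_of_mem _ hy
  have ex : ∀ r ∈ Icc (0 : ℝ) 1, ∃ t ∈ Icc (0 : ℝ) 1, be (seg a c t) = r := fun r hr => by
    rw [← h3, ← seg_image, image_image] at hr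
    exact hr
  obtain ⟨t0, a0, b0⟩ := ex 0 h0
  obtain ⟨t1, a1, b1⟩ := ex 1 h1'
  have ma := m a (left_mem_segment ℝ a c)
  have mc := m c (right_mem_segment ℝ a c)
  rcases ContinuousOn.strictMonoOn_of_injOn_Icc' (f := fun t => be (seg a c t)) zero_le_one
    (h1.comp (tp_seg a c)).continuous.continuousOn (fun s hs t ht e => smul_left_injective ℝ
      (sub_ne_zero.2 hac.symm) (add_left_cancel (h2 (ms s hs) (ms t ht) e))) with k | k
  · have e0 := k.monotoneOn h0 a0 a0.1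
    have e1 := k.monotoneOn a1 h1' a1.2
    simp only [GLeg_seg0, GLeg_seg1, b0, b1] at e0 e1
    obtain ⟨u, k1, k2, k3, k4, k5⟩ := GLeg_prof h h1 h2 h3
    exact ⟨u, k1, k2, k3 a (le_antisymm e0 ma.1), k4 c (le_antisymm mc.2 e1), k5⟩
  · have e0 := k.antitoneOn a0 h1' a0.2
    have e1 := k.antitoneOn h0 a1 a1.1
    simp only [GLeg_seg0, GLeg_seg1, b0, b1] at e0 e1
    obtain ⟨u, k1, k2, k3, k4, k5⟩ := GLeg_prof h.symm' h1 h2 h3
    exact ⟨u, k1, k2, k4 a (le_antisymm ma.2 e1), k3 c (le_antisymm e0 mc.1), k5⟩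

end BEp
end
end
end

-- merged part: Pool.Agent.Work.MP_f0515e_an.D3.SLen
section
/-! Arcs of bounded length.
`arcL_prof`: extend `S` to the line by `S (max 0 (min t 1)) + c * (t - max 0 (min t 1))`; it is `LH` (`LH.of_expanding`,
`ptri_surj`); compose `γ` with its inverse and an affine map. `ArcL.glue`: split `[0, 1]` at `L / (L + L')` (`tp_ite`, or
`γ (min _ 1) + γ' (max _ 0) - b`). `ArcL.param`: `be` is monotone along the segment, so `be a`, `be b` are `0`, `1` in some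
order; take `γ ∘ be` for the arc or its reverse. About 300 lines. -/

open Set Metric Filter Topology Function BEv
open scoped NNReal

noncomputable section
namespace BEp

variable {n : ℕ} {A A' : Set (Rn n)} {a b c : Rn n} {L L' : ℝ}

theorem ArcL.pos (h : ArcL A a b L) : 0 < L := by
  obtain ⟨γ, -, h2, -, -, -, h6⟩ := h
  have m0 : (0 : ℝ) ∈ Icc (0 : ℝ) 1 := ⟨le_rfl, zero_le_one⟩
  have m1 : (1 : ℝ) ∈ Icc (0 : ℝ) 1 := ⟨zero_le_one, le_rfl⟩
  have k := h6 1 m1 0 m0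
  rw [sub_zero, abs_one, mul_one] at k
  exact lt_of_lt_of_le (norm_pos_iff.2 (sub_ne_zero.2 fun e => one_ne_zero (h2 m1 m0 e))) k

theorem ArcL.symm (h : ArcL A a b L) : ArcL A b a L := by
  obtain ⟨γ, h1, h2, h3, h4, h5, h6⟩ := h
  have m : ∀ t ∈ Icc (0 : ℝ) 1, 1 - t ∈ Icc (0 : ℝ) 1 := fun t ht =>
    ⟨sub_nonneg.2 ht.2, sub_le_self _ ht.1⟩
  refine ⟨fun t => γ (1 - t), h1.comp ((TP.const 1).sub TP.id'), fun s hs t ht e => ?_,
    by simpa using h4, by simpa using h3, ?_, fun s hs t ht => ?_⟩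
  · exact sub_right_injective (h2 (m s hs) (m t ht) e)
  · rw [← image_image γ (fun t => 1 - t), image_const_sub_Icc, sub_self, sub_zero, h5]
  · refine (h6 _ (m s hs) _ (m t ht)).trans_eq ?_
    rw [sub_sub_sub_cancel_left, abs_sub_comm]

theorem ArcL.mono (h : ArcL A a b L) (hL : L ≤ L') : ArcL A a b L' := by
  obtain ⟨γ, h1, h2, h3, h4, h5, h6⟩ := h
  exact ⟨γ, h1, h2, h3, h4, h5, fun s hs t ht =>
    (h6 s hs t ht).trans (mul_le_mul_of_nonneg_right hL (abs_nonneg _))⟩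

theorem arcL_seg0 (h : a ≠ b) : ArcL (segment ℝ a b) a b ‖b - a‖ := by
  refine ⟨fun t => a + t • (b - a), (TP.const a).add (TP.id'.smul_const _), fun _ _ _ _ e =>
    smul_left_injective ℝ (sub_ne_zero.2 h.symm) (add_left_cancel e), by simp, by simp,
    (segment_eq_image' ℝ a b).symm, fun s _ t _ => le_of_eq ?_⟩
  rw [add_sub_add_left_eq_sub, ← sub_smul, norm_smul, Real.norm_eq_abs, mul_comm]

theorem arcL_prof {γ : ℝ → Rn n} (hγ : TP γ) (hi : InjOn γ (Icc 0 1)) {S : ℝ → ℝ} (hS : TP S)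
    {c : ℝ} (hc : 0 < c) (h : ∀ s t, 0 ≤ s → s ≤ t → t ≤ 1 →
      c * (t - s) ≤ S t - S s ∧ ‖γ t - γ s‖ ≤ S t - S s) :
    ArcL (γ '' Icc 0 1) (γ 0) (γ 1) (S 1 - S 0) := by
  let k : ℝ → ℝ := fun t => max 0 (min t 1)
  have k0 : ∀ t, 0 ≤ k t := fun t => le_max_left _ _
  have k1 : ∀ t, k t ≤ 1 := fun t => max_le zero_le_one (min_le_right _ _)
  have km : ∀ s t, s ≤ t → k s ≤ k t := fun s t e => max_le_max le_rfl (min_le_min e le_rfl)
  have ke : ∀ t ∈ Icc (0 : ℝ) 1, k t = t := fun t ht => by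
    simp only [k]
    rw [min_eq_left ht.2, max_eq_right ht.1]
  have kt : TP k := (TP.const 0).max (TP.id'.min (TP.const 1))
  let T : ℝ → ℝ := fun t => S (k t) + c * (t - k t)
  have Tt : TP T := (hS.comp kt).add ((TP.id'.sub kt).const_mul c)
  have Te : ∀ t ∈ Icc (0 : ℝ) 1, T t = S t := fun t ht => by
    simp only [T]
    rw [ke t ht, sub_self, mul_zero, add_zero]
  have Tx : ∀ s t, s ≤ t → c * (t - s) ≤ T t - T s := fun s t e => by
    have := (h _ _ (k0 s) (km s t e) (k1 t)).1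
    simp only [T]
    linarith
  have Tm : StrictMono T := fun s t e => by
    have := Tx s t e.le
    have := mul_pos hc (sub_pos.2 e)
    linarith
  have TL : LH T := by
    refine LH.of_expanding Tt (ptri_surj Tt.continuous hc Tx) hc fun x y => ?_
    rw [Real.norm_eq_abs, Real.norm_eq_abs]
    rcases le_total x y with e | e
    · rw [abs_sub_comm x, abs_sub_comm (T x), abs_of_nonneg (sub_nonneg.2 e)]
      exact (Tx x y e).trans (le_abs_self _)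
    · rw [abs_of_nonneg (sub_nonneg.2 e)]
      exact (Tx y x e).trans (le_abs_self _)
  have m0 : (0 : ℝ) ∈ Icc (0 : ℝ) 1 := ⟨le_rfl, zero_le_one⟩
  have m1 : (1 : ℝ) ∈ Icc (0 : ℝ) 1 := ⟨zero_le_one, le_rfl⟩
  have L0 : 0 < S 1 - S 0 := by
    have := (h 0 1 le_rfl zero_le_one le_rfl).1
    linarith
  let φ : ℝ → ℝ := fun u => invFun T (S 0 + (S 1 - S 0) * u)
  have φt : TP φ := TL.tpi.comp ((TP.const _).add (TP.id'.const_mul _))
  have φe : ∀ u, T (φ u) = S 0 + (S 1 - S 0) * u := fun u => TL.ri _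
  have φ0 : φ 0 = 0 := TL.inj (by rw [φe, Te 0 m0, mul_zero, add_zero])
  have φ1 : φ 1 = 1 := TL.inj (by rw [φe, Te 1 m1]; ring)
  have φm : StrictMono φ := fun s t e => Tm.lt_iff_lt.1 (by
    rw [φe, φe]
    have := mul_lt_mul_of_pos_left e L0
    linarith)
  have φi : ∀ u ∈ Icc (0 : ℝ) 1, φ u ∈ Icc (0 : ℝ) 1 := fun u hu =>
    ⟨φ0 ▸ φm.monotone hu.1, φ1 ▸ φm.monotone hu.2⟩
  have key : ∀ s ∈ Icc (0 : ℝ) 1, ∀ t ∈ Icc (0 : ℝ) 1, s ≤ t →
      ‖γ (φ t) - γ (φ s)‖ ≤ (S 1 - S 0) * (t - s) := fun s hs t ht e => by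
    have := (h _ _ (φi s hs).1 (φm.monotone e) (φi t ht).2).2
    rw [← Te _ (φi s hs), ← Te _ (φi t ht), φe, φe] at this
    linarith
  refine ⟨fun u => γ (φ u), hγ.comp φt, fun s hs t ht e => φm.injective (hi (φi s hs) (φi t ht) e),
    by simp only [φ0], by simp only [φ1], ?_, fun s hs t ht => ?_⟩
  · rw [← image_image γ φ, φt.continuous.continuousOn.image_Icc_of_monotoneOn zero_le_one
      (φm.monotone.monotoneOn _), φ0, φ1]
  · rcases le_total s t with e | e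
    · rw [norm_sub_rev, abs_sub_comm, abs_of_nonneg (sub_nonneg.2 e)]
      exact key s hs t ht e
    · rw [abs_of_nonneg (sub_nonneg.2 e)]
      exact key t ht s hs e

theorem ArcL.glue (h : ArcL A a b L) (h' : ArcL A' b c L') (hi : A ∩ A' = {b}) :
    ArcL (A ∪ A') a c (L + L') := by
  have L0 := h.pos
  have L0' := h'.pos
  obtain ⟨γ, h1, h2, rfl, rfl, rfl, h6⟩ := h
  obtain ⟨δ, k1, k2, e, rfl, rfl, k6⟩ := h'
  let β : ℝ → Rn n := fun t => γ (min t 1) + δ (max (t - 1) 0) - γ 1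
  have e1 : ∀ t, t ≤ 1 → β t = γ t := fun t ht => by
    simp only [β]
    rw [min_eq_left ht, max_eq_right (sub_nonpos.2 ht), e, add_sub_cancel_right]
  have e2 : ∀ t, 1 ≤ t → β t = δ (t - 1) := fun t ht => by
    simp only [β]
    rw [min_eq_right ht, max_eq_left (sub_nonneg.2 ht), add_sub_cancel_left]
  have pt : TP fun t : ℝ => min t 1 := TP.id'.min (TP.const 1)
  have qt : TP fun t : ℝ => max (t - 1) 0 := (TP.id'.sub (TP.const 1)).max (TP.const 0)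
  have βt : TP β := ((h1.comp pt).add (k1.comp qt)).sub (TP.const _)
  have m0 : (0 : ℝ) ∈ Icc (0 : ℝ) 1 := ⟨le_rfl, zero_le_one⟩
  have m1 : (1 : ℝ) ∈ Icc (0 : ℝ) 1 := ⟨zero_le_one, le_rfl⟩
  have βi : InjOn β (Icc 0 2) := ptop_cat_inj h2 k2 e1 e2 Subset.rfl fun s hs t ht l k => by
    have mt : t - 1 ∈ Icc (0 : ℝ) 1 := ⟨sub_nonneg.2 l, by linarith [ht.2]⟩
    have m : γ s = γ 1 := hi.le ⟨⟨s, hs, rfl⟩, t - 1, mt, k.symm⟩
    exact ⟨h2 hs m1 m, sub_eq_zero.1 (k2 mt m0 (k.symm.trans (m.trans e.symm)))⟩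
  have βm : β '' Icc 0 2 = γ '' Icc 0 1 ∪ δ '' Icc 0 1 := by
    rw [← Icc_union_Icc_eq_Icc zero_le_one one_le_two, image_union,
      image_congr fun t k => e1 t k.2, image_congr fun t k => e2 t k.1,
      ← image_image δ (· - 1), image_sub_const_Icc]
    norm_num
  have d : TP fun t : ℝ => 2 * t := TP.id'.const_mul 2
  have key := arcL_prof (γ := fun t => β (2 * t)) (βt.comp d)
    (fun s hs t ht k => mul_left_cancel₀ two_ne_zero (βi ⟨by linarith [hs.1], by linarith [hs.2]⟩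
      ⟨by linarith [ht.1], by linarith [ht.2]⟩ k))
    (S := fun t => L * min (2 * t) 1 + L' * max (2 * t - 1) 0)
    (((pt.comp d).const_mul L).add ((qt.comp d).const_mul L')) (lt_min L0 L0')
    fun s t hs st ht => by
      have p1 : min (2 * s) 1 ≤ min (2 * t) 1 := min_le_min (by linarith) le_rfl
      have q1 : max (2 * s - 1) 0 ≤ max (2 * t - 1) 0 := max_le_max (by linarith) le_rfl
      have pq : ∀ u : ℝ, min u 1 + max (u - 1) 0 = u := fun u => by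
        rcases le_total u 1 with l | l
        · rw [min_eq_left l, max_eq_right (sub_nonpos.2 l), add_zero]
        · rw [min_eq_right l, max_eq_left (sub_nonneg.2 l), add_sub_cancel]
      have pm : ∀ u : ℝ, 0 ≤ u → min (2 * u) 1 ∈ Icc (0 : ℝ) 1 := fun u hu =>
        ⟨le_min (by linarith) zero_le_one, min_le_right _ _⟩
      have qm : ∀ u : ℝ, u ≤ 1 → max (2 * u - 1) 0 ∈ Icc (0 : ℝ) 1 := fun u hu =>
        ⟨le_max_right _ _, max_le (by linarith) zero_le_one⟩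
      constructor
      · have a1 := mul_le_mul_of_nonneg_right (min_le_left L L') (sub_nonneg.2 p1)
        have a2 := mul_le_mul_of_nonneg_right (min_le_right L L') (sub_nonneg.2 q1)
        have a3 := mul_nonneg (lt_min L0 L0').le (sub_nonneg.2 st)
        have a4 : min L L' * (min (2 * t) 1 - min (2 * s) 1) +
            min L L' * (max (2 * t - 1) 0 - max (2 * s - 1) 0) = 2 * (min L L' * (t - s)) := by
          have b1 := pq (2 * s)
          have b2 := pq (2 * t)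
          have b3 : min (2 * t) 1 - min (2 * s) 1 + (max (2 * t - 1) 0 - max (2 * s - 1) 0) =
              2 * (t - s) := by linarith
          rw [← mul_add, b3]
          ring
        linarith
      · have a1 := h6 _ (pm t (hs.trans st)) _ (pm s hs)
        have a2 := k6 _ (qm t ht) _ (qm s (st.trans ht))
        rw [abs_of_nonneg (sub_nonneg.2 p1)] at a1
        rw [abs_of_nonneg (sub_nonneg.2 q1)] at a2
        have a3 : β (2 * t) - β (2 * s) = (γ (min (2 * t) 1) - γ (min (2 * s) 1)) +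
            (δ (max (2 * t - 1) 0) - δ (max (2 * s - 1) 0)) := by
          simp only [β]
          abel
        rw [a3]
        refine (norm_add_le _ _).trans ?_
        linarith
  rw [← image_image β (2 * ·), image_mul_left_Icc zero_le_two zero_le_one, mul_zero, mul_one,
    βm, e1 0 zero_le_one, e2 2 one_le_two] at key
  norm_num at key
  exact key

theorem arcL_chain0 {X : ℕ → Set (Rn n)} {x : ℕ → Rn n} {l : ℕ → ℝ} (k : ℕ)
    (h : ∀ i ≤ k, ArcL (X i) (x i) (x (i + 1)) (l i))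
    (h1 : ∀ i, i + 1 ≤ k → X i ∩ X (i + 1) ⊆ {x (i + 1)})
    (h2 : ∀ i j, i + 1 < j → j ≤ k → Disjoint (X i) (X j)) :
    ArcL (⋃ i ≤ k, X i) (x 0) (x (k + 1)) (∑ i ∈ Finset.range (k + 1), l i) := by
  induction k with
  | zero => simpa using h 0 le_rfl
  | succ k ih =>
    rw [biUnion_le_succ, Finset.sum_range_succ]
    refine (ih (fun i hi => h i (hi.trans k.le_succ)) (fun i hi => h1 i (hi.trans k.le_succ))
      fun i j a b => h2 i j a (b.trans k.le_succ)).glue (h (k + 1) le_rfl) (Subset.antisymm ?_ ?_)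
    · rintro y ⟨hy, hy'⟩
      obtain ⟨i, hi, hx⟩ := mem_iUnion₂.1 hy
      rcases hi.eq_or_lt with rfl | hi
      · exact h1 i le_rfl ⟨hx, hy'⟩
      · exact absurd hy' (disjoint_left.1 (h2 i (k + 1) (Nat.succ_lt_succ hi) le_rfl) hx)
    · rintro y rfl
      exact ⟨mem_iUnion₂.2 ⟨k, le_rfl, (h k k.le_succ).arc.tarc.right⟩,
        (h (k + 1) le_rfl).arc.tarc.left⟩

theorem SLen_par {m : ℕ} (h : ArcL A a b L) {Z : Set (Rn m)} {be : Rn m → ℝ}
    (h1 : TP be) (h2 : InjOn be Z) (h3 : be '' Z = Icc 0 1) :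
    ∃ γ : ℝ → Rn n, γ 0 = a ∧ γ 1 = b ∧ TP (fun y => γ (be y)) ∧ BijOn (fun y => γ (be y)) Z A ∧
      ∀ y ∈ Z, ∀ y' ∈ Z, ‖γ (be y) - γ (be y')‖ ≤ L * |be y - be y'| := by
  obtain ⟨γ, k1, k2, k3, k4, rfl, k6⟩ := h
  refine ⟨γ, k3, k4, k1.comp h1, k2.bijOn_image.comp (h3 ▸ h2.bijOn_image), fun y hy y' hy' => ?_⟩
  exact k6 _ (h3 ▸ mem_image_of_mem be hy) _ (h3 ▸ mem_image_of_mem be hy')

theorem SLen_ends {φ : ℝ → ℝ} (hc : Continuous φ) (hi : InjOn φ (Icc 0 1))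
    (h : φ '' Icc 0 1 = Icc 0 1) : (φ 0 = 0 ∧ φ 1 = 1) ∨ (φ 0 = 1 ∧ φ 1 = 0) := by
  have m0 : (0 : ℝ) ∈ Icc (0 : ℝ) 1 := ⟨le_rfl, zero_le_one⟩
  have m1 : (1 : ℝ) ∈ Icc (0 : ℝ) 1 := ⟨zero_le_one, le_rfl⟩
  have a0 : φ 0 ∈ Icc (0 : ℝ) 1 := h ▸ mem_image_of_mem φ m0
  have a1 : φ 1 ∈ Icc (0 : ℝ) 1 := h ▸ mem_image_of_mem φ m1
  obtain ⟨s, hs, es⟩ : (0 : ℝ) ∈ φ '' Icc 0 1 := h.symm ▸ m0
  obtain ⟨t, ht, et⟩ : (1 : ℝ) ∈ φ '' Icc 0 1 := h.symm ▸ m1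
  rcases hc.continuousOn.strictMonoOn_of_injOn_Icc' zero_le_one hi with k | k
  · exact Or.inl ⟨le_antisymm ((k.monotoneOn m0 hs hs.1).trans_eq es) a0.1,
      le_antisymm a1.2 (et.ge.trans (k.monotoneOn ht m1 ht.2))⟩
  · exact Or.inr ⟨le_antisymm a0.2 (et.ge.trans (k.antitoneOn m0 ht ht.1)),
      le_antisymm ((k.antitoneOn hs m1 hs.2).trans_eq es) a1.1⟩

theorem ArcL.param {m : ℕ} (h : ArcL A a b L) {p q : Rn m} (hpq : p ≠ q) {be : Rn m → ℝ}
    (h1 : TP be) (h2 : InjOn be (segment ℝ p q)) (h3 : be '' segment ℝ p q = Icc 0 1) :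
    ∃ u : Rn m → Rn n, TP u ∧ BijOn u (segment ℝ p q) A ∧ u p = a ∧ u q = b ∧
      ∀ y ∈ segment ℝ p q, ∀ y' ∈ segment ℝ p q, ‖u y - u y'‖ ≤ L * |be y - be y'| := by
  have sm : ∀ t ∈ Icc (0 : ℝ) 1, seg p q t ∈ segment ℝ p q := fun t ht =>
    seg_image p q ▸ mem_image_of_mem _ ht
  have s0 : seg p q 0 = p := by simp [seg]
  have s1 : seg p q 1 = q := by simp [seg]
  have key := SLen_ends (φ := fun t => be (seg p q t)) (h1.comp (tp_seg p q)).continuous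
    (fun s hs t ht e => smul_left_injective ℝ (sub_ne_zero.2 hpq.symm)
      (add_left_cancel (h2 (sm s hs) (sm t ht) e)))
    (by rw [← image_image be (seg p q), seg_image, h3])
  simp only [s0, s1] at key
  rcases key with ⟨e0, e1⟩ | ⟨e0, e1⟩
  · obtain ⟨γ, k0, k1, k2, k3, k4⟩ := SLen_par h h1 h2 h3
    exact ⟨_, k2, k3, by simp only [e0, k0], by simp only [e1, k1], k4⟩
  · obtain ⟨γ, k0, k1, k2, k3, k4⟩ := SLen_par h.symm h1 h2 h3
    exact ⟨_, k2, k3, by simp only [e0, k1], by simp only [e1, k0], k4⟩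

end BEp
end
end

-- merged part: Pool.Agent.Work.MP_f0515e_an.D3.GFat
section
-- merged part: Pool.Agent.Work.MP_f0515e_an.D3.GFat
section
/-! Fat beads in terms of the original complex: the interface used by the glue. -/

open Set Metric Filter Topology Function BEv
open scoped NNReal ENNReal

noncomputable section
namespace BEp

/-- Data of the fat beads: centres, marks of each centre, gates, charts, frames at the inner marks,
coordinate and side at the gates. -/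
structure FatD where
  Cn : Set (Rn 3)
  ms : Rn 3 → Set (Rn 3)
  Gt : Set (Rn 3)
  Φ : Rn 3 → Rn 3 → Rn 3
  M : Rn 3 → Rn 3 ≃L[ℝ] Rn 3
  k : Rn 3 → Fin 3
  s : Rn 3 → ℝ

namespace FatD
variable (t : FatD)

def B (v : Rn 3) : Set (Rn 3) := t.Φ v '' closedBall 0 1
def S (v : Rn 3) : Set (Rn 3) := t.Φ v '' sphere 0 1
def St : Set (Rn 3) := ⋃ v ∈ t.Cn, ⋃ y ∈ t.ms v, segment ℝ v y
def Mk : Set (Rn 3) := ⋃ v ∈ t.Cn, t.ms v

end FatD

/-- The edge from `a` to `b` is inside a rigid box. -/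
def TopD.Rig {ι : Type} (d : TopD ι) (a b : Rn 3) : Prop :=
  ∃ i, segment ℝ a b ⊆ (d.B i).Q d.s 8

/-- The edge from `a` to `b` leaves the rigid box `i` at `a`. -/
def TopD.Ext {ι : Type} (d : TopD ι) (i : ι) (a b : Rn 3) : Prop :=
  a ∈ (d.B i).Q d.s 8 ∧ b ∉ (d.B i).Q d.s 8

/-- The edge from `a` to `b` is a chord. -/
def TopD.Cho {ι : Type} (d : TopD ι) (a b : Rn 3) : Prop :=
  ∃ c ∈ d.Ch, openSegment ℝ a b = openSegment ℝ c.a c.b

/-- Fat beads for the embedding `g` (which is `f` followed by a PL homeomorphism). -/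
structure FatS {Ω : Set (Rn 3)} (K : Kx Ω) (f g : Rn 3 → Rn 3) {ι : Type} (d : TopD ι)
    (t : FatD) : Prop where
  fin : t.Cn.Finite
  cen : ∀ v, v ∈ t.Cn ↔ (∃ i, v ∈ (d.B i).Q d.s 8 ∧ K.cell v = {v}) ∨
    ∃ c ∈ d.Ch, v = midpoint ℝ c.a c.b
  mfin : ∀ v, (t.ms v).Finite
  edge : ∀ v ∈ t.Cn, ∀ y ∈ t.ms v, v ≠ y ∧ segment ℝ v y ∩ t.Mk = {y} ∧
    ∃ a b, K.Edge a b ∧ segment ℝ v y ⊆ segment ℝ a b
  lh : ∀ v ∈ t.Cn, LH (t.Φ v)
  sub : ∀ v ∈ t.Cn, t.B v ⊆ f '' Ω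
  sin : ∀ v ∈ t.Cn, ∀ y ∈ t.ms v, g '' segment ℝ v y ⊆ t.B v
  star : ∀ v ∈ t.Cn, ∀ x ∈ K.sk 1, g x ∈ t.B v → ∃ y ∈ t.ms v, x ∈ segment ℝ v y
  mark : ∀ v ∈ t.Cn, ∀ x ∈ K.sk 1, g x ∈ t.S v → x ∈ t.ms v
  ray : ∀ v ∈ t.Cn, ∀ y ∈ t.ms v, ∀ u : ℝ, 0 ≤ u → v + u • (y - v) ∈ Ω →
    g (v + u • (y - v)) ∈ t.B v → u ≤ 1
  flt : ∀ v ∈ t.Cn, ∀ y ∈ t.ms v, y ∉ t.Gt → ∀ z : Rn 3, ‖z‖ ≤ 1 →
    (g y + t.M y z ∈ t.S v ↔ z 2 = 0)
  gsub : t.Gt ⊆ t.Mk
  gate : ∀ v ∈ t.Cn, ∀ y ∈ t.ms v, y ∈ t.Gt → (t.s y = 1 ∨ t.s y = -1) ∧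
    (∀ w ∈ t.Cn, y ∈ t.ms w → w = v) ∧ ∀ᶠ z in 𝓝 (g y),
      (z ∈ t.S v ↔ z (t.k y) = g y (t.k y)) ∧
      (z ∈ t.B v ↔ t.s y * (z (t.k y) - g y (t.k y)) ≤ 0)
  meet : ∀ v ∈ t.Cn, ∀ w ∈ t.Cn, v ≠ w → ∀ x ∈ t.B v ∩ t.B w, ∃ y ∈ t.ms v, y ∈ t.ms w ∧
    x ∈ (fun z => g y + t.M y z) '' flat 2
  same : ∀ x ∈ K.sk 1, (x ∈ t.St → x ∈ t.Gt) → g x = f x
  str : ∀ v ∈ t.Cn, ∀ y ∈ t.ms v,
    t.Φ v '' segment ℝ 0 (invFun (t.Φ v) (g y)) = segment ℝ (t.Φ v 0) (g y)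
  ctr : ∀ i, ∀ v ∈ (d.B i).Q d.s 8, K.cell v = {v} → t.Φ v 0 = (d.B i).aff v
  rig : ∀ i a b, K.Edge a b → segment ℝ a b ⊆ (d.B i).Q d.s 8 → ∃ y ∈ openSegment ℝ a b,
    y ∉ t.Gt ∧ y ∈ t.ms a ∧ y ∈ t.ms b ∧ g y ∈ (d.B i).aff '' openSegment ℝ a b
  ext : ∀ i a b, K.Edge a b → d.Ext i a b → ∃ y ∈ openSegment ℝ a b, y ∈ t.Gt ∧ y ∈ t.ms a ∧
    segment ℝ y b ∩ t.St = {y} ∧ segment ℝ a b ⊆ (d.B i).Q d.s 24 ∧ d.s ≤ ‖b - a‖ ∧
    segment ℝ ((d.B i).aff a) (g y) ∩ (d.B i).aff '' (d.B i).Q d.s 8 ⊆ {(d.B i).aff a}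
  cho : ∀ c ∈ d.Ch, t.ms (midpoint ℝ c.a c.b) = {c.a, c.b} ∧ c.a ∈ t.Gt ∧ c.b ∈ t.Gt ∧
    t.Φ (midpoint ℝ c.a c.b) 0 ∈ openSegment ℝ (f c.a) (f c.b)
  sq : ∀ i, ∀ v ∈ t.Cn, v ∉ (d.B i).Q d.s 8 → Disjoint (t.B v) ((d.B i).aff '' (d.B i).Q d.s 8)
  thq : ∀ i, ∀ x ∈ K.sk 1, (x ∈ t.St → x ∈ t.Gt) → f x ∉ (d.B i).aff '' (d.B i).Q d.s 8
  pla : ∀ a b, K.Edge a b → ¬ d.Cho a b → (∀ i, a ∉ (d.B i).Q d.s 8 ∧ b ∉ (d.B i).Q d.s 8) →
    ∀ x ∈ segment ℝ a b, x ∈ t.St → x ∈ t.Gt ∧ (x = a ∨ x = b)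
  gcl : ∀ y ∈ t.Gt, (∃ i a b, K.Edge a b ∧ d.Ext i a b ∧ y ∈ openSegment ℝ a b) ∨
    ∃ c ∈ d.Ch, y = c.a ∨ y = c.b
  icl : ∀ y ∈ t.Mk, y ∉ t.Gt → ∃ i a b, K.Edge a b ∧ segment ℝ a b ⊆ (d.B i).Q d.s 8 ∧
    y ∈ openSegment ℝ a b ∧ y ∈ t.ms a ∧ y ∈ t.ms b

end BEp
end
end

-- merged part: Pool.Agent.Work.MP_f0515e_an.D3.GK
section
/-! Boxes at the thin vertices and fat beads at the others, for one complex: definitions. -/

open Set Metric Filter Topology Function BEv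
open scoped NNReal ENNReal

noncomputable section
namespace BEp

/-- Boxes at the vertices in `Th`; `F` is a set avoided by the open boxes. -/
structure BoxK {Ω : Set (Rn 3)} (K : Kx Ω) (g : Rn 3 → Rn 3) (m : Set (Rn 3) → Rn 3)
    (Th F : Set (Rn 3)) (kk : Set (Rn 3) → Fin 3) (lo hi : Rn 3 → Rn 3) : Prop where
  opn : IsOpen Ω
  cont : ContinuousOn g Ω
  inj : InjOn g Ω
  mk' : ∀ s ∈ K.cel 1, m s ∈ s
  vx : ∀ v ∈ Th, K.Vx v
  inb : ∀ v ∈ Th, ∀ s, K.Fl v s → ∀ x ∈ segment ℝ v (m s), x ≠ m s →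
    ∀ k, lo v k < g x k ∧ g x k < hi v k
  fac : ∀ v ∈ Th, ∀ s, K.Fl v s → (∀ k, k ≠ kk s → lo v k < g (m s) k ∧ g (m s) k < hi v k) ∧
    ∃ σ : ℝ, ((σ = 1 ∧ g (m s) (kk s) = hi v (kk s)) ∨ (σ = -1 ∧ g (m s) (kk s) = lo v (kk s))) ∧
      ∀ᶠ t in 𝓝[>] (1 : ℝ), 0 < σ * (g (v + t • (m s - v)) (kk s) - g (m s) (kk s))
  dis : ∀ v ∈ Th, ∀ w ∈ Th, (lo v = lo w ∧ hi v = hi w) ∨
    Disjoint (interior (Icc (lo v) (hi v))) (Icc (lo w) (hi w))
  far : ∀ v ∈ Th, Disjoint (interior (Icc (lo v) (hi v))) F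
  sub : ∀ v ∈ Th, Icc (lo v) (hi v) ⊆ g '' Ω
  lf : ∀ C, IsCompact C → C ⊆ g '' Ω → {v | v ∈ Th ∧ (Icc (lo v) (hi v) ∩ C).Nonempty}.Finite

/-- Beads at the finitely many vertices outside `Th`. Edges in `In` have two such ends. -/
structure FatK {Ω : Set (Rn 3)} (K : Kx Ω) (g : Rn 3 → Rn 3) (Th F : Set (Rn 3))
    (kk : Set (Rn 3) → Fin 3) (In : Set (Set (Rn 3))) (b : BdD) : Prop where
  fin : {v | K.Vx v ∧ v ∉ Th}.Finite
  lh : ∀ v, K.Vx v → v ∉ Th → LH (b.Φ v)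
  sub : ∀ v, K.Vx v → v ∉ Th → b.B v ⊆ g '' Ω ∧ b.B v ⊆ F
  sin : ∀ v s, K.Fl v s → v ∉ Th → g '' segment ℝ v (b.m s) ⊆ b.B v
  star : ∀ v, K.Vx v → v ∉ Th → ∀ y ∈ K.sk 1, g y ∈ b.B v →
    ∃ s, K.Fl v s ∧ y ∈ segment ℝ v (b.m s)
  mark : ∀ v, K.Vx v → v ∉ Th → ∀ y ∈ K.sk 1, g y ∈ b.S v → ∃ s, K.Fl v s ∧ y = b.m s
  ray : ∀ v s, K.Fl v s → v ∉ Th → ∀ t : ℝ, 0 ≤ t → v + t • (b.m s - v) ∈ Ω →
    g (v + t • (b.m s - v)) ∈ b.B v → t ≤ 1
  flt : ∀ v s, K.Fl v s → s ∈ In → v ∉ Th ∧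
    ∀ y : Rn 3, ‖y‖ ≤ 1 → (b.p g s + b.M s y ∈ b.S v ↔ y 2 = 0)
  gate : ∀ v s, K.Fl v s → v ∉ Th → s ∉ In →
    ∀ᶠ z in 𝓝 (b.p g s), (z ∈ b.S v ↔ z (kk s) = b.p g s (kk s))
  meet : ∀ v w, K.Vx v → K.Vx w → v ∉ Th → w ∉ Th → v ≠ w → ∀ x ∈ b.B v ∩ b.B w,
    ∃ s ∈ In, K.Fl v s ∧ K.Fl w s ∧ x ∈ b.E g s

/-- Position of the beads at the thin vertices relative to the boxes. -/
structure InBox {Ω : Set (Rn 3)} (K : Kx Ω) (g : Rn 3 → Rn 3) (Th : Set (Rn 3))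
    (lo hi : Rn 3 → Rn 3) (b : BdD) : Prop where
  sub : ∀ v ∈ Th, b.B v ⊆ Icc (lo v) (hi v)
  wall : ∀ v ∈ Th, ∀ s, K.Fl v s → Disjoint (interior (Icc (lo v) (hi v))) (b.E g s)

end BEp
end
end

-- merged part: Pool.Agent.Work.MP_f0515e_an.D3.SSq
section
/-! EXPORT (squeezing arcs in a box). With centre `c`, radii `r`, gauge `N x = ‖fun i => (x i - c i) / r i‖` put
`sqz x i = c i + e * (x i - c i) + clamp ((1 - e) * (x i - c i)) (r i * max (M * (N x - k)) 0)`.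
Then `N (sqz x) = e * N x + min ((1 - e) * N x) (max (M * (N x - k)) 0)` is a strictly increasing function of `N x`; this gives
injectivity (equal `N`, then coordinatewise strictly increasing) and surjectivity (solve for `N` by the intermediate value
theorem, then coordinatewise); `LH.of_supp`. `sqz x = x` if `k' ≤ N x`, `M * (k' - k) = 1`.
`squeeze`: parametrise `A j` by `γ`, Lipschitz `L₀`, affine on `[1 - τ, 1]` (`tp_homog`), `k` an upper bound `< 1` of `N ∘ γ` on `[0, 1 - τ]`.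
Profile for `arcL_prof`: `S t = e L₀ t + L₀ max (t - (1 - τ)) 0 + R min (β t) 1`, `β t = max (M (N (γ t) - k)) 0`, `R = ‖hi - lo‖`; `β` vanishes on
`[0, 1 - τ]` and is convex on `[1 - τ, 1]`, hence monotone; `abs_clamp_sub_le`. About 300 lines. -/

open Set Metric Filter Topology Function BEv
open scoped NNReal

noncomputable section
namespace BEp

/-- The squeezing map in one coordinate. -/
def SSq_q (e b a : ℝ) : ℝ := e * a + clamp ((1 - e) * a) b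

theorem SSq_mul {s : ℝ} (hs : 0 ≤ s) (u v : ℝ) : s * clamp u v = clamp (s * u) (s * v) := by
  rw [clamp, clamp, mul_max_of_nonneg _ _ hs, mul_min_of_nonneg _ _ hs, mul_neg]

theorem SSq_neg {b : ℝ} (hb : 0 ≤ b) (a : ℝ) : clamp (-a) b = -clamp a b := by
  simp only [clamp, max_def, min_def]
  split_ifs <;> linarith

theorem SSq_q_mono {e : ℝ} (he1 : e < 1) (b a a' : ℝ) (h : a ≤ a') :
    e * (a' - a) ≤ SSq_q e b a' - SSq_q e b a := by
  have : clamp ((1 - e) * a) b ≤ clamp ((1 - e) * a') b :=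
    max_le_max_left _ (min_le_min_right _ (mul_le_mul_of_nonneg_left h (by linarith)))
  simp only [SSq_q]
  linarith

theorem SSq_q_zero {b : ℝ} (hb : 0 ≤ b) (e : ℝ) : SSq_q e b 0 = 0 := by
  rw [SSq_q, mul_zero, mul_zero, clamp_eq_self (by rwa [abs_zero]), add_zero]

theorem SSq_q_le {e : ℝ} (he : 0 < e) (he1 : e < 1) (b : ℝ) {a a' : ℝ} (h : a ≤ a') :
    SSq_q e b a ≤ SSq_q e b a' := by
  linarith [SSq_q_mono he1 b a a' h, mul_nonneg he.le (sub_nonneg.2 h)]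

theorem SSq_q_abs {e b : ℝ} (he : 0 < e) (he1 : e < 1) (hb : 0 ≤ b) (a : ℝ) :
    |SSq_q e b a| = SSq_q e b |a| := by
  have p : ∀ a, 0 ≤ a → 0 ≤ SSq_q e b a := fun a h => SSq_q_zero hb e ▸ SSq_q_le he he1 b h
  rcases le_total 0 a with h | h
  · rw [abs_of_nonneg h, abs_of_nonneg (p a h)]
  · have e1 : SSq_q e b (-a) = -SSq_q e b a := by
      rw [SSq_q, SSq_q, mul_neg, mul_neg, SSq_neg hb, neg_add]
    rw [abs_of_nonpos h, ← abs_neg, ← e1, abs_of_nonneg (p _ (neg_nonneg.2 h))]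

theorem SSq_q_norm {e b : ℝ} (he : 0 < e) (he1 : e < 1) (hb : 0 ≤ b) (u : Rn 3) :
    ‖fun i => SSq_q e b (u i)‖ = SSq_q e b ‖u‖ := by
  refine le_antisymm ((pi_norm_le_iff_of_nonneg
    (SSq_q_zero hb e ▸ SSq_q_le he he1 b (norm_nonneg u))).2 fun i => ?_) ?_
  · rw [Real.norm_eq_abs, SSq_q_abs he he1 hb]
    exact SSq_q_le he he1 b (norm_le_pi_norm u i)
  · obtain ⟨i, hi⟩ := Finite.exists_max fun i => |u i|
    refine (SSq_q_le he he1 b ((pi_norm_le_iff_of_nonneg (abs_nonneg (u i))).2 hi)).trans ?_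
    rw [← SSq_q_abs he he1 hb]
    exact norm_le_pi_norm (fun i => SSq_q e b (u i)) i

theorem SSq_q_inj {e : ℝ} (he : 0 < e) (he1 : e < 1) {b b' a a' : ℝ}
    (h1 : a ≤ a' → SSq_q e b a' ≤ SSq_q e b' a') (h2 : a' ≤ a → SSq_q e b' a ≤ SSq_q e b a)
    (h : SSq_q e b a = SSq_q e b' a') : a = a' := by
  rcases le_total a a' with k | k
  · have := SSq_q_mono he1 b a a' k
    exact le_antisymm k (sub_nonpos.1 (nonpos_of_mul_nonpos_right (by linarith [h1 k]) he))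
  · have := SSq_q_mono he1 b' a' a k
    exact le_antisymm (sub_nonpos.1 (nonpos_of_mul_nonpos_right (by linarith [h2 k]) he)) k

theorem SSq_q_b {e b b' a : ℝ} (he1 : e < 1) (ha : 0 ≤ a) (hb : 0 ≤ b) (h : b ≤ b') :
    SSq_q e b a ≤ SSq_q e b' a := by
  have := mul_nonneg (sub_pos.2 he1).le ha
  simp only [SSq_q, clamp]
  rw [max_eq_right (le_min (by linarith) (by linarith)),
    max_eq_right (le_min (by linarith) (by linarith))]
  linarith [min_le_min_left ((1 - e) * a) h]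

/-- The squeezing map of the unit cube. -/
theorem SSq_unit {e : ℝ} (he : 0 < e) (he1 : e < 1) {β : ℝ → ℝ} (hβ : TP β) (h0 : ∀ s, 0 ≤ β s)
    (hm : Monotone β) {k : ℝ} (hk : ∀ s, k ≤ s → s ≤ β s) :
    LH (fun (u : Rn 3) i => SSq_q e (β ‖u‖) (u i)) ∧
      ∀ u : Rn 3, k ≤ ‖u‖ → (fun i => SSq_q e (β ‖u‖) (u i)) = u := by
  have fix : ∀ u : Rn 3, k ≤ ‖u‖ → (fun i => SSq_q e (β ‖u‖) (u i)) = u := fun u hu => by
    funext i
    rw [SSq_q, clamp_eq_self]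
    · ring
    · rw [abs_mul, abs_of_pos (sub_pos.2 he1)]
      have : |u i| ≤ ‖u‖ := norm_le_pi_norm u i
      nlinarith [hk _ hu, abs_nonneg (u i)]
  have cq : ∀ b, Continuous (SSq_q e b) := fun b => by
    unfold SSq_q clamp
    fun_prop
  refine ⟨LH.of_supp (TP.pi fun i => ((TP.id'.apply i).const_mul e).add
    (((TP.id'.apply i).const_mul _).clamp (hβ.comp TP.id'.norm_pi))) ⟨fun u v h => ?_, fun z => ?_⟩
    fix, fix⟩
  · have e1 := congrArg norm h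
    beta_reduce at e1
    rw [SSq_q_norm he he1 (h0 _), SSq_q_norm he he1 (h0 _)] at e1
    have e2 : ‖u‖ = ‖v‖ := SSq_q_inj he he1 (fun k => SSq_q_b he1 (norm_nonneg _) (h0 _) (hm k))
      (fun k => SSq_q_b he1 (norm_nonneg _) (h0 _) (hm k)) e1
    funext i
    have e3 := congrFun h i
    beta_reduce at e3
    rw [e2] at e3
    exact SSq_q_inj he he1 (fun _ => le_rfl) (fun _ => le_rfl) e3
  · have cF : Continuous fun s => SSq_q e (β s) s := by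
      have := hβ.continuous
      unfold SSq_q clamp
      fun_prop
    have p : 0 ≤ ‖z‖ / e := by positivity
    obtain ⟨s, hs, e1⟩ := intermediate_value_Icc p cF.continuousOn
      (show ‖z‖ ∈ Icc (SSq_q e (β 0) 0) (SSq_q e (β (‖z‖ / e)) (‖z‖ / e)) by
        have := SSq_q_mono he1 (β (‖z‖ / e)) 0 _ p
        rw [SSq_q_zero (h0 _), sub_zero, sub_zero, mul_div_cancel₀ _ he.ne'] at this
        exact ⟨(SSq_q_zero (h0 _) e).trans_le (norm_nonneg z), this⟩)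
    choose u hu using fun i => ptri_surj (cq (β s)) he (SSq_q_mono he1 (β s)) (z i)
    have e2 : (fun i => SSq_q e (β s) (u i)) = z := funext hu
    have e3 := SSq_q_norm he he1 (h0 s) u
    rw [e2, ← e1] at e3
    have e4 : s = ‖u‖ := SSq_q_inj he he1 (fun _ => le_rfl) (fun _ => le_rfl) e3
    exact ⟨u, by beta_reduce; rw [← e4, e2]⟩

theorem sq_map {c r : Rn 3} (hr : ∀ i, 0 < r i) {e k k' : ℝ} (he : 0 < e) (he1 : e < 1)
    (hk : 0 < k) (hkk : k < k') (hk' : k' < 1) :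
    Mv {x | ‖fun i => (x i - c i) / r i‖ ≤ k'} fun x i => c i + e * (x i - c i) +
      clamp ((1 - e) * (x i - c i))
        (r i * max ((‖fun i => (x i - c i) / r i‖ - k) / (k' - k)) 0) := by
  have p : 0 < k' - k := sub_pos.2 hkk
  obtain ⟨h1, h2⟩ := SSq_unit he he1 (β := fun s => max ((s - k) / (k' - k)) 0)
    (((TP.id'.sub (TP.const k)).div_const _).max (TP.const 0)) (fun _ => le_max_right _ _)
    (fun a b h => max_le_max_right _ (div_le_div_of_nonneg_right (by linarith) p.le)) (k := k')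
    fun s hs => le_max_of_le_left (by
      rw [le_div_iff₀ p]
      nlinarith [mul_nonneg p.le (sub_pos.2 hk').le,
        mul_nonneg (sub_nonneg.2 hs) (show 0 ≤ 1 - k' + k by linarith)])
  have ta : TP fun (u : Rn 3) i => c i + r i * u i :=
    TP.pi fun i => (TP.const _).add ((TP.id'.apply i).const_mul _)
  have tb : TP fun (x : Rn 3) i => (x i - c i) / r i :=
    TP.pi fun i => ((TP.id'.apply i).sub (TP.const _)).div_const _
  have ab : ∀ (x : Rn 3) i, c i + r i * ((x i - c i) / r i) = x i := fun x i => by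
    rw [mul_div_cancel₀ _ (hr i).ne', add_sub_cancel]
  have ba : ∀ (u : Rn 3) i, (c i + r i * u i - c i) / r i = u i := fun u i => by
    rw [add_sub_cancel_left, mul_div_cancel_left₀ _ (hr i).ne']
  have la := pa2_of_inv ta tb (fun u => funext (ba u)) fun x => funext (ab x)
  have lb := pa2_of_inv tb ta (fun x => funext (ab x)) fun u => funext (ba u)
  have key : ∀ (x : Rn 3) i b, c i + e * (x i - c i) + clamp ((1 - e) * (x i - c i)) (r i * b) =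
      c i + r i * SSq_q e b ((x i - c i) / r i) := fun x i b => by
    rw [SSq_q, mul_add, SSq_mul (hr i).le, mul_left_comm, mul_left_comm (r i),
      mul_div_cancel₀ _ (hr i).ne', add_assoc]
  simp only [key]
  refine ⟨la.comp (h1.comp lb), fun x hx => funext fun i => ?_⟩
  exact (congrArg (fun t => c i + r i * t) (congrFun (h2 _ (not_le.1 hx).le) i)).trans (ab x i)

theorem SSq_between (A D : ℝ) {u v w : ℝ} (h1 : u ≤ v) (h2 : v ≤ w) :
    |A + v * D| ≤ max |A + u * D| |A + w * D| := by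
  rcases le_total 0 D with k | k
  · exact abs_le_max_abs_abs (by nlinarith) (by nlinarith)
  · rw [max_comm]
    exact abs_le_max_abs_abs (by nlinarith) (by nlinarith)

/-- Length of one squeezed arc. -/
theorem SSq_arc {c r : Rn 3} (hr : ∀ i, 0 < r i) {e k d τ L R : ℝ} (he : 0 < e) (he1 : e < 1)
    (hk : 0 ≤ k) (hd : 0 < d) (hkd : 1 - k ≤ 2 * d) (hτ : 0 < τ) (hτ1 : τ ≤ 1) (hL : 0 < L)
    (hR : ∀ i, 2 * r i ≤ R) {γ : ℝ → Rn 3} (hγ : TP γ) (hi : InjOn γ (Icc 0 1))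
    (lip : ∀ s t, ‖γ s - γ t‖ ≤ L * ‖s - t‖)
    (aff : ∀ u ∈ Icc (0 : ℝ) 1, γ (1 + u • -τ) = γ 1 + u • (γ (1 + -τ) - γ 1))
    (low : ∀ t ∈ Icc 0 (1 - τ), ‖fun i => (γ t i - c i) / r i‖ ≤ k)
    (top : ‖fun i => (γ 1 i - c i) / r i‖ ≤ 1) {Λ : Rn 3 → Rn 3} (hΛ : LH Λ)
    (df : ∀ x i, Λ x i = c i + e * (x i - c i) + clamp ((1 - e) * (x i - c i))
      (r i * max ((‖fun i => (x i - c i) / r i‖ - k) / d) 0)) :
    ArcL (Λ '' (γ '' Icc 0 1)) (Λ (γ 0)) (Λ (γ 1)) (e * L + L * τ + R) := by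
  set N : ℝ → ℝ := fun t => ‖fun i => (γ t i - c i) / r i‖ with hN
  set β : ℝ → ℝ := fun t => max ((N t - k) / d) 0 with hβ
  have tN : TP N := (TP.pi fun i => ((hγ.apply i).sub (TP.const _)).div_const _).norm_pi
  have tβ : TP β := ((tN.sub (TP.const k)).div_const d).max (TP.const 0)
  have R0 : 0 ≤ R := by linarith [hR 0, hr 0]
  have β0 : ∀ t, 0 ≤ β t := fun t => le_max_right _ _
  have βz : ∀ t ∈ Icc 0 (1 - τ), β t = 0 := fun t ht =>
    max_eq_right (div_nonpos_of_nonpos_of_nonneg (sub_nonpos.2 (low t ht)) hd.le)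
  have co : ∀ t, 1 - τ ≤ t → t ≤ 1 → ∀ i, (γ t i - c i) / r i =
      (γ 1 i - c i) / r i + (1 - t) / τ * ((γ (1 + -τ) i - γ 1 i) / r i) := fun t a b i => by
    have := aff ((1 - t) / τ) ⟨div_nonneg (by linarith) hτ.le, (div_le_one hτ).2 (by linarith)⟩
    rw [smul_eq_mul, mul_neg, div_mul_cancel₀ _ hτ.ne', ← sub_eq_add_neg, sub_sub_cancel] at this
    rw [this, Pi.add_apply, Pi.smul_apply, Pi.sub_apply, smul_eq_mul]
    ring
  have βm : ∀ s t, 0 ≤ s → s ≤ t → t ≤ 1 → β s ≤ β t := fun s t a b b' => by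
    rcases le_total s (1 - τ) with m | m
    · exact (βz s ⟨a, m⟩).trans_le (β0 t)
    · have q : N s ≤ max (N t) k := by
        refine (pi_norm_le_iff_of_nonneg (le_max_of_le_right hk)).2 fun i => ?_
        rw [Real.norm_eq_abs, co s m (b.trans b')]
        refine (SSq_between _ _ (u := (1 - t) / τ) (w := (1 - (1 - τ)) / τ)
          (div_le_div_of_nonneg_right (by linarith) hτ.le)
          (div_le_div_of_nonneg_right (by linarith) hτ.le)).trans ?_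
        rw [← co t (m.trans b) b', ← co (1 - τ) le_rfl (by linarith)]
        exact max_le_max (norm_le_pi_norm (fun i => (γ t i - c i) / r i) i)
          ((norm_le_pi_norm (fun i => (γ (1 - τ) i - c i) / r i) i).trans
            (low _ ⟨by linarith, le_rfl⟩))
      rcases le_max_iff.1 q with q | q
      · exact max_le_max_right _ (div_le_div_of_nonneg_right (by linarith) hd.le)
      · exact (max_eq_right (div_nonpos_of_nonpos_of_nonneg (sub_nonpos.2 q) hd.le)).trans_le (β0 t)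
  have ci : ∀ s t i, s ≤ t → |γ t i - γ s i| ≤ L * (t - s) := fun s t i h => by
    have := (norm_le_pi_norm (γ t - γ s) i).trans (lip t s)
    rwa [Real.norm_eq_abs, Real.norm_of_nonneg (sub_nonneg.2 h)] at this
  let g : ℝ → Fin 3 → ℝ := fun t i => clamp ((1 - e) * (γ t i - c i)) (r i * β t)
  have gm : ∀ t i, 0 ≤ t → g t i = g (max t (1 - τ)) i ∧ β t = β (max t (1 - τ)) := fun t i a => by
    rcases le_total t (1 - τ) with m | m
    · rw [max_eq_right m]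
      simp only [g, βz t ⟨a, m⟩, βz _ ⟨by linarith, le_rfl⟩, mul_zero, clamp_zero, and_self]
    · rw [max_eq_left m]
      exact ⟨rfl, rfl⟩
  have gl : ∀ s t i, 0 ≤ s → s ≤ t → t ≤ 1 → |g t i - g s i| ≤ L * (t - s) + R / 2 * (β t - β s) :=
    fun s t i a b b' => by
      have k1 := ci s t i b
      have k2 := sub_nonneg.2 (βm s t a b b')
      refine (abs_clamp_sub_le _ _ _ _).trans (max_le ?_ ?_)
      · rw [← mul_sub, sub_sub_sub_cancel_right, abs_mul, abs_of_pos (sub_pos.2 he1)]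
        nlinarith [abs_nonneg (γ t i - γ s i), mul_nonneg R0 k2]
      · rw [← mul_sub, abs_mul, abs_of_pos (hr i), abs_of_nonneg k2]
        nlinarith [mul_nonneg hL.le (sub_nonneg.2 b), mul_le_mul_of_nonneg_right (hR i) k2]
  have main := arcL_prof (γ := fun t => Λ (γ t)) (hΛ.tp.comp hγ) (hΛ.inj.comp_injOn hi)
    (S := fun t => e * L * t + L * max t (1 - τ) + R / 2 * β t)
    (((TP.id'.const_mul _).add ((TP.id'.max (TP.const _)).const_mul L)).add (tβ.const_mul _))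
    (mul_pos he hL) fun s t a b b' => by
      have k1 := mul_nonneg R0 (sub_nonneg.2 (βm s t a b b'))
      have mx : max s (1 - τ) ≤ max t (1 - τ) := max_le_max_right _ b
      have k2 := mul_nonneg hL.le (sub_nonneg.2 mx)
      have k3 := mul_nonneg (mul_pos he hL).le (sub_nonneg.2 b)
      refine ⟨by linarith, (pi_norm_le_iff_of_nonneg (by linarith)).2 fun i => ?_⟩
      have e1 : (Λ (γ t) - Λ (γ s)) i = e * (γ t i - γ s i) + (g t i - g s i) := by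
        rw [Pi.sub_apply, df, df]
        simp only [g, hβ, hN]
        ring
      have k4 := gl _ _ i (a.trans (le_max_left _ _)) mx (max_le b' (by linarith))
      rw [← (gm s i a).1, ← (gm s i a).2, ← (gm t i (a.trans b)).1, ← (gm t i (a.trans b)).2] at k4
      have k5 := mul_le_mul_of_nonneg_left (ci s t i b) he.le
      rw [Real.norm_eq_abs, e1]
      refine (abs_add_le _ _).trans ?_
      rw [abs_mul, abs_of_pos he]
      linarith
  rw [image_image]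
  refine main.mono ?_
  have b1 : β 1 ≤ 2 := max_le ((div_le_iff₀ hd).2 (by linarith [show N 1 ≤ 1 from top])) zero_le_two
  rw [max_eq_left (by linarith), max_eq_right (by linarith)]
  nlinarith [mul_nonneg R0 (β0 0), mul_le_mul_of_nonneg_left b1 R0]

theorem squeeze {lo hi : Rn 3} (h : ∀ i, lo i < hi i) {κ : Type} [Finite κ]
    {A : κ → Set (Rn 3)} {o p : κ → Rn 3} (hA : ∀ j, Arc (A j) (o j) (p j))
    (hs : ∀ j, A j \ {p j} ⊆ interior (Icc lo hi)) {η : ℝ} (hη : 0 < η) :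
    ∃ (Λ : Rn 3 → Rn 3) (C : Set (Rn 3)), IsCompact C ∧ C ⊆ interior (Icc lo hi) ∧ Mv C Λ ∧
      ∀ j, ArcL (Λ '' A j) (Λ (o j)) (Λ (p j)) (‖hi - lo‖ + η) := by
  choose γ hγ hj h0 h1 h2 using hA
  choose L hL1 hL using fun j => (hγ j).exists_bound
  choose ρ hρ aff using fun j => tp_homog (hγ j) 1
  obtain ⟨L₀, hL₀⟩ := Finite.exists_le L
  have p : 0 < max L₀ 1 := lt_max_of_lt_right one_pos
  have q : 0 < η / 2 / max L₀ 1 := by positivity
  obtain ⟨τ, ⟨⟨t1, t2⟩, t3⟩, t0⟩ : ∃ τ : ℝ, ((τ ≤ 1 ∧ τ ≤ η / 2 / max L₀ 1) ∧ ∀ j, τ ≤ ρ j) ∧ 0 < τ := by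
    have ev : ∀ a : ℝ, 0 < a → ∀ᶠ τ in 𝓝[>] (0 : ℝ), τ ≤ a := fun a ha =>
      mem_of_superset (Ioc_mem_nhdsGT ha) fun _ k => k.2
    exact ((((ev 1 one_pos).and (ev _ q)).and (eventually_all.2 fun j => ev _ (hρ j))).and
      self_mem_nhdsWithin).exists
  let c : Rn 3 := fun i => (lo i + hi i) / 2
  let r : Rn 3 := fun i => (hi i - lo i) / 2
  have hr : ∀ i, 0 < r i := fun i => half_pos (sub_pos.2 (h i))
  have int : ∀ x : Rn 3, x ∈ interior (Icc lo hi) ↔ ‖fun i => (x i - c i) / r i‖ < 1 := fun x => by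
    rw [← pi_univ_Icc, interior_pi_set finite_univ, pi_norm_lt_iff one_pos, mem_univ_pi]
    refine forall_congr' fun i => ?_
    rw [interior_Icc, Real.norm_eq_abs, abs_div, abs_of_pos (hr i), div_lt_one (hr i), abs_lt]
    simp only [c, r, mem_Ioo]
    constructor <;> rintro ⟨a, b⟩ <;> constructor <;> linarith
  have cN : Continuous fun x : Rn 3 => ‖fun i => (x i - c i) / r i‖ := by fun_prop
  have lt1 : ∀ j, ∀ t ∈ Ico (0 : ℝ) 1, ‖fun i => (γ j t i - c i) / r i‖ < 1 := fun j t ht =>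
    (int _).1 (hs j ⟨h2 j ▸ ⟨t, Ico_subset_Icc_self ht, rfl⟩, fun e => ht.2.ne
      (hj j (Ico_subset_Icc_self ht) (right_mem_Icc.2 zero_le_one) (e.trans (h1 j).symm))⟩)
  have top : ∀ j, ‖fun i => (γ j 1 i - c i) / r i‖ ≤ 1 := fun j =>
    (isClosed_le (cN.comp (hγ j).continuous) continuous_const).closure_subset_iff.2
      (fun t ht => (lt1 j t ht).le) (closure_Ico (zero_ne_one (α := ℝ)) ▸ right_mem_Icc.2 zero_le_one)
  obtain ⟨k, ⟨k0, k1⟩, low⟩ : ∃ k : ℝ, k ∈ Ioo (0 : ℝ) 1 ∧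
      ∀ j, ∀ t ∈ Icc 0 (1 - τ), ‖fun i => (γ j t i - c i) / r i‖ ≤ k := by
    refine ((show ∀ᶠ k in 𝓝[<] (1 : ℝ), k ∈ Ioo (0 : ℝ) 1 from Ioo_mem_nhdsLT one_pos).and
      (eventually_all.2 fun j => ?_)).exists
    obtain ⟨s, hs', mx⟩ := (isCompact_Icc (a := (0 : ℝ)) (b := 1 - τ)).exists_isMaxOn
      (nonempty_Icc.2 (sub_nonneg.2 t1)) (cN.comp (hγ j).continuous).continuousOn
    filter_upwards [Ioo_mem_nhdsLT (lt1 j s ⟨hs'.1, by linarith [hs'.2]⟩)] with k hk t ht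
    exact (mx ht).trans hk.1.le
  have e0 : 0 < min (1 / 2) (η / 2 / max L₀ 1) := lt_min one_half_pos q
  have e1 : min (1 / 2) (η / 2 / max L₀ 1) < 1 := min_lt_of_left_lt one_half_lt_one
  have mv := sq_map (c := c) hr e0 e1 k0 (show k < (k + 1) / 2 by linarith) (by linarith)
  have sub : {x : Rn 3 | ‖fun i => (x i - c i) / r i‖ ≤ (k + 1) / 2} ⊆ interior (Icc lo hi) :=
    fun x hx => (int x).2 (lt_of_le_of_lt hx (by linarith))
  refine ⟨_, _, isCompact_Icc.of_isClosed_subset (isClosed_le cN continuous_const)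
    (sub.trans interior_subset), sub, mv, fun j => ?_⟩
  rw [← h0 j, ← h1 j, ← h2 j]
  refine (SSq_arc (R := ‖hi - lo‖) hr e0 e1 k0.le (by linarith) (by linarith) t0 t1 p (fun i => ?_)
    (hγ j) (hj j) (fun s t => (hL j s t).trans (mul_le_mul_of_nonneg_right
      ((hL₀ j).trans (le_max_left _ _)) (norm_nonneg _)))
    (aff j _ (by rw [norm_neg, Real.norm_of_nonneg t0.le]; exact t3 j)) (low j) (top j) mv.1
    fun _ _ => rfl).mono ?_
  · have := (le_abs_self _).trans (norm_le_pi_norm (hi - lo) i)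
    simp only [r, Pi.sub_apply] at this ⊢
    linarith
  · have a := (le_div_iff₀ p).1 (min_le_right (1 / 2) (η / 2 / max L₀ 1))
    have b := (le_div_iff₀ p).1 t2
    linarith

end BEp
end
end

-- merged part: Pool.Agent.Work.MP_f0515e_an.D3.GSq
section
/-! Squeezing all boxes at once.

Plan. Let `𝒫` be the set of pairs `(lo v, hi v)`, `v ∈ Th`. For `P ∈ 𝒫` the flags `(v, s)` with `v ∈ Th` and
box `P` are finitely many (`lf`, `lf_cl`). Each leg is an `Arc` from `Φ v 0` to `p s`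
(`t ↦ Φ v (t • q)`, `‖q‖ = 1`); without its end it lies in `interior (B v)` (an `LH` map is open), hence
in the open box. `squeeze` with `η` below all `w s` gives `Λ P`, `C P`. `Λ x = Λ P x` if `x` lies in the
open box `P` (unique by `dis`), else `x`. A map `Mv C Λ` preserves every set containing `C` or disjoint
from `C`. So `Λ` is a bijection preserving each open box, each `B v` for `v ∉ Th` pointwise (`far`), and
`g '' Ω`; it is continuous on `g '' Ω` (a point outside the open boxes has a neighbourhood meeting finitely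
many boxes, hence missing all `C P`). `g2 = Λ ∘ g`; `Φ2 v = Λ P ∘ Φ v` for `v ∈ Th`, so `B2 v = Λ '' B v` and
`S2 v = Λ '' S v` for all vertices. `E s` is compact, inside `g '' Ω` and misses all open boxes (`wall`,
`dis`, `far`; it lies in `S v` for an end `v`), so for small `τ s > 0` the column
`p + M s ![y 0, y 1, τ s * y 2]`, `‖y‖ ≤ 1`, misses all `C P`; this is `M2 s`, and `E` is unchanged. -/

open Set Metric Filter Topology Function BEv
open scoped NNReal ENNReal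

noncomputable section
namespace BEp

variable {Ω : Set (Rn 3)} {K : Kx Ω} {g : Rn 3 → Rn 3} {Th F : Set (Rn 3)}
  {kk : Set (Rn 3) → Fin 3} {lo hi : Rn 3 → Rn 3} {b : BdD}

theorem GSq_col {U : Set (Rn 3)} (hU : IsOpen U) (h : flat 2 ⊆ U) :
    ∃ D : Rn 3 ≃L[ℝ] Rn 3, ∀ y, ‖y‖ ≤ 1 →
      D y ∈ U ∧ ‖D y‖ ≤ 1 ∧ (D y 2 = 0 ↔ y 2 = 0) ∧ (y 2 = 0 → D y = y) := by
  have hc : IsCompact (flat (2 : Fin 3)) :=
    (isCompact_closedBall (0 : Rn 3) 1).of_isClosed_subset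
      ((isClosed_le continuous_norm continuous_const).inter
        (isClosed_eq (continuous_apply 2) continuous_const))
      fun x hx => mem_closedBall_zero_iff.2 hx.1
  obtain ⟨δ, h0, hδ⟩ := hc.exists_cthickening_subset_open hU h
  have t0 : 0 < min δ 1 := lt_min h0 one_pos
  let c : Fin 3 → ℝ := fun i => if i = 2 then min δ 1 else 1
  have c0 (i : Fin 3) : 0 < c i := by
    simp only [c]
    split_ifs
    exacts [t0, one_pos]
  have c1 (i : Fin 3) : c i ≤ 1 := by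
    simp only [c]
    split_ifs
    exacts [min_le_right _ _, le_rfl]
  obtain ⟨D, hD⟩ : ∃ D : Rn 3 ≃L[ℝ] Rn 3, ∀ y i, D y i = c i * y i :=
    ⟨(LinearEquiv.piCongrRight fun i =>
      LinearEquiv.smulOfNeZero ℝ ℝ (c i) (c0 i).ne').toContinuousLinearEquiv, fun _ _ => rfl⟩
  refine ⟨D, fun y hy => ⟨hδ (mem_cthickening_of_dist_le _ (update y 2 0) _ _ ⟨?_, by simp⟩ ?_),
    ?_, ?_, fun e => funext fun i => ?_⟩⟩
  · refine (pi_norm_le_iff_of_nonneg zero_le_one).2 fun i => ?_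
    by_cases e : i = 2
    · simp [e]
    · rw [update_of_ne e]
      exact (norm_le_pi_norm y i).trans hy
  · refine (dist_pi_le_iff h0.le).2 fun i => ?_
    rw [hD]
    by_cases e : i = 2
    · subst e
      rw [update_self, dist_zero_right, norm_mul, Real.norm_of_nonneg (c0 _).le]
      exact (mul_le_of_le_one_right (c0 _).le ((norm_le_pi_norm y 2).trans hy)).trans
        (min_le_left _ _)
    · simp [c, e, h0.le]
  · refine (pi_norm_le_iff_of_nonneg zero_le_one).2 fun i => ?_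
    rw [hD, norm_mul, Real.norm_of_nonneg (c0 _).le]
    exact mul_le_one₀ (c1 i) (norm_nonneg _) ((norm_le_pi_norm y i).trans hy)
  · rw [hD, mul_eq_zero, or_iff_right (c0 2).ne']
  · rw [hD]
    by_cases e' : i = 2
    · rw [e', e, mul_zero]
    · simp [c, e']

theorem GSq_patch {V : Set (Rn 3)} (hV : IsOpen V) {I C : Rn 3 → Set (Rn 3)}
    {L : Rn 3 → Rn 3 → Rn 3} (hC : ∀ v ∈ Th, IsCompact (C v) ∧ C v ⊆ interior (I v) ∧ Mv (C v) (L v))
    (dis : ∀ v ∈ Th, ∀ w ∈ Th, (I v = I w ∧ L v = L w) ∨ Disjoint (interior (I v)) (I w))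
    (sub : ∀ v ∈ Th, I v ⊆ V)
    (lf : ∀ N, IsCompact N → N ⊆ V → {v | v ∈ Th ∧ (I v ∩ N).Nonempty}.Finite) :
    ∃ Λ : Rn 3 → Rn 3, Injective Λ ∧ ContinuousOn Λ V ∧ Λ '' V = V ∧
      (∀ v ∈ Th, EqOn Λ (L v) (I v)) ∧ (∀ x, (∀ v ∈ Th, x ∉ C v) → Λ x = x) ∧
      IsOpen {x | x ∈ V ∧ ∀ v ∈ Th, x ∉ C v} := by
  classical
  obtain ⟨Λ, k1, k2⟩ : ∃ Λ : Rn 3 → Rn 3, (∀ v ∈ Th, EqOn Λ (L v) (I v)) ∧
      ∀ x, (∀ v ∈ Th, x ∉ C v) → Λ x = x := by
    refine ⟨fun x => if h : ∃ v ∈ Th, x ∈ interior (I v) then L h.choose x else x,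
      fun v hv x hx => ?_, fun x hx => ?_⟩ <;> beta_reduce <;> split_ifs with h
    · rcases dis _ h.choose_spec.1 v hv with e | e
      · rw [e.2]
      · exact (disjoint_left.1 e h.choose_spec.2 hx).elim
    · exact ((hC v hv).2.2.2 x fun e => h ⟨v, hv, (hC v hv).2.1 e⟩).symm
    · exact (hC _ h.choose_spec.1).2.2.2 x (hx _ h.choose_spec.1)
    · rfl
  have k3 : ∀ v ∈ Th, Λ '' interior (I v) = interior (I v) := fun v hv =>
    (image_congr fun x hx => k1 v hv (interior_subset hx)).trans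
      ((hC v hv).2.2.image_eq (hC v hv).2.1)
  have k4 : ∀ x, (¬ ∃ v ∈ Th, x ∈ interior (I v)) → Λ x = x := fun x hx =>
    k2 x fun v hv e => hx ⟨v, hv, (hC v hv).2.1 e⟩
  have k5 : ∀ v ∈ Th, ∀ x, Λ x ∈ interior (I v) → x ∈ interior (I v) := fun v hv x hx => by
    by_cases h : ∃ w ∈ Th, x ∈ interior (I w)
    · obtain ⟨w, hw, h⟩ := h
      rcases dis v hv w hw with e | e
      · rwa [e.1]
      · exact (disjoint_left.1 e hx (interior_subset (k3 w hw ▸ mem_image_of_mem Λ h))).elim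
    · rwa [k4 x h] at hx
  have k6 : IsOpen {x | x ∈ V ∧ ∀ v ∈ Th, x ∉ C v} := by
    refine isOpen_iff_mem_nhds.2 fun x hx => ?_
    obtain ⟨N, n1, n2, n3⟩ := local_compact_nhds (hV.mem_nhds hx.1)
    filter_upwards [n1, ((lf N n3 n2).isClosed_biUnion fun v hv =>
      (hC v hv.1).1.isClosed).isOpen_compl.mem_nhds (x := x) fun e => by
        obtain ⟨v, hv, e⟩ := mem_iUnion₂.1 e
        exact hx.2 v hv.1 e] with y y1 y2
    exact ⟨n2 y1, fun v hv e => y2 (mem_iUnion₂.2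
      ⟨v, ⟨hv, y, interior_subset ((hC v hv).2.1 e), y1⟩, e⟩)⟩
  refine ⟨Λ, fun x y e => ?_, fun x hx => ContinuousAt.continuousWithinAt ?_, ?_, k1, k2, k6⟩
  · by_cases h : ∃ v ∈ Th, x ∈ interior (I v)
    · obtain ⟨v, hv, h⟩ := h
      have h' := k5 v hv y (e ▸ k3 v hv ▸ mem_image_of_mem Λ h)
      rw [k1 v hv (interior_subset h), k1 v hv (interior_subset h')] at e
      exact (hC v hv).2.2.1.inj e
    · have h' := k4 y fun ⟨v, hv, h'⟩ =>
        h ⟨v, hv, k5 v hv x (e ▸ (k3 v hv).subset (mem_image_of_mem Λ h'))⟩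
      rwa [k4 x h, h'] at e
  · by_cases h : ∃ v ∈ Th, x ∈ interior (I v)
    · obtain ⟨v, hv, h⟩ := h
      refine (hC v hv).2.2.1.tp.continuous.continuousAt.congr ?_
      filter_upwards [mem_interior_iff_mem_nhds.1 h] with y hy using (k1 v hv hy).symm
    · refine continuousAt_id.congr ?_
      filter_upwards [k6.mem_nhds ⟨hx, fun v hv e => h ⟨v, hv, (hC v hv).2.1 e⟩⟩] with y hy using
        (k2 y hy.2).symm
  · ext y
    constructor
    · rintro ⟨x, hx, rfl⟩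
      by_cases h : ∃ v ∈ Th, x ∈ interior (I v)
      · obtain ⟨v, hv, h⟩ := h
        exact sub v hv (interior_subset (k3 v hv ▸ mem_image_of_mem Λ h))
      · rwa [k4 x h]
    · intro hy
      by_cases h : ∃ v ∈ Th, y ∈ interior (I v)
      · obtain ⟨v, hv, h⟩ := h
        rw [← k3 v hv] at h
        exact image_mono (interior_subset.trans (sub v hv)) h
      · exact ⟨y, hy, k4 y h⟩

theorem GSq_int {Φ : Rn 3 → Rn 3} (lh : LH Φ) {y : Rn 3} (hy : ‖y‖ < 1) :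
    Φ y ∈ interior (Φ '' closedBall 0 1) :=
  interior_maximal (image_mono ball_subset_closedBall) (GEmb_open lh.tp.continuous.continuousOn
    lh.inj.injOn isOpen_ball (subset_univ _)) ⟨y, mem_ball_zero_iff.2 hy, rfl⟩

theorem GSq_leg (hb : Bead K g b) {v : Rn 3} {s : Set (Rn 3)} (hl : K.Fl v s) :
    Arc (b.Leg g v s) (b.Φ v 0) (b.p g s) ∧ b.Leg g v s \ {b.p g s} ⊆ interior (b.B v) := by
  have lh := (hb.one v hl.1 hl.2.1).lh
  have hq := GLeg_q hb hl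
  have e (t : ℝ) : seg 0 (invFun (b.Φ v) (b.p g s)) t = t • invFun (b.Φ v) (b.p g s) := by
    simp [seg]
  refine ⟨⟨fun t => b.Φ v (seg 0 (invFun (b.Φ v) (b.p g s)) t), lh.tp.comp (tp_seg _ _),
    fun t ht t' ht' k => ?_, congrArg _ (GLeg_seg0 _ _),
    (congrArg _ (GLeg_seg1 _ _)).trans (lh.ri _),
    by rw [BdD.Leg, ← seg_image, image_image]⟩, ?_⟩
  · have := lh.inj k
    rw [e, e] at this
    rw [← GLeg_nq hb hl ht, this, GLeg_nq hb hl ht']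
  · rw [BdD.Leg, ← seg_image]
    rintro _ ⟨⟨_, ⟨t, ht, rfl⟩, rfl⟩, k⟩
    rw [e] at k ⊢
    refine GSq_int lh ?_
    rw [GLeg_nq hb hl ht]
    exact lt_of_le_of_ne ht.2 fun k1 => k (by rw [k1, one_smul, lh.ri]; rfl)

theorem GSq_box (h : BoxK K g b.m Th F kk lo hi) (hb : Bead K g b) (hi' : InBox K g Th lo hi b)
    {w : Set (Rn 3) → ℝ} (hw0 : ∀ s, 0 < w s)
    (hw : ∀ v ∈ Th, ∀ s, K.Fl v s → ‖hi v - lo v‖ ≤ w s) (P : Rn 3 × Rn 3) :
    ∃ (Λ : Rn 3 → Rn 3) (C : Set (Rn 3)), ∀ v ∈ Th, (lo v, hi v) = P →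
      (IsCompact C ∧ C ⊆ interior (Icc (lo v) (hi v)) ∧ Mv C Λ) ∧ ∀ s, K.Fl v s →
        ArcL (Λ '' b.Leg g v s) (Λ (b.Φ v 0)) (Λ (b.p g s)) (2 * w s) := by
  by_cases hP : ∃ v ∈ Th, (lo v, hi v) = P
  swap
  · exact ⟨id, ∅, fun v hv e => (hP ⟨v, hv, e⟩).elim⟩
  obtain ⟨u, hu, rfl⟩ := hP
  have lh := (hb.one u (h.vx u hu).1 (h.vx u hu).2).lh
  have m0 : b.Φ u 0 ∈ interior (Icc (lo u) (hi u)) :=
    interior_mono (hi'.sub u hu) (GSq_int lh (by simp))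
  have lt (i : Fin 3) : lo u i < hi u i := by
    rw [← pi_univ_Icc, interior_pi_set finite_univ] at m0
    have := mem_univ_pi.1 m0 i
    rw [interior_Icc] at this
    exact this.1.trans this.2
  have f1 : {v | v ∈ Th ∧ (lo v, hi v) = (lo u, hi u)}.Finite :=
    (h.lf _ isCompact_Icc (h.sub u hu)).subset fun v hv => ⟨hv.1, by
      rw [(Prod.mk.inj hv.2).1, (Prod.mk.inj hv.2).2, inter_self]
      exact ⟨_, interior_subset m0⟩⟩
  have f2 : {j : Rn 3 × Set (Rn 3) | (j.1 ∈ Th ∧ (lo j.1, hi j.1) = (lo u, hi u)) ∧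
      K.Fl j.1 j.2}.Finite :=
    (f1.biUnion fun v hv => (finite_singleton v).prod (Kx.lf_cl (K := K) h.opn isCompact_singleton
      (singleton_subset_iff.2 (h.vx v hv.1).1))).subset fun j hj =>
        mem_iUnion₂.2 ⟨j.1, hj.1, rfl, hj.2.2.2.1.1, j.1, hj.2.2.2.2, rfl⟩
  have := f2.to_subtype
  obtain ⟨η, hη, h0⟩ : ∃ η : ℝ, (∀ j : {j : Rn 3 × Set (Rn 3) |
      (j.1 ∈ Th ∧ (lo j.1, hi j.1) = (lo u, hi u)) ∧ K.Fl j.1 j.2}, η ≤ w j.1.2) ∧ 0 < η :=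
    ((eventually_all.2 fun j => mem_of_superset (Ioc_mem_nhdsGT (hw0 _)) fun _ k => k.2).and
      self_mem_nhdsWithin).exists
  obtain ⟨Λ, C, c1, c2, c3, c4⟩ := squeeze lt (κ := {j : Rn 3 × Set (Rn 3) |
      (j.1 ∈ Th ∧ (lo j.1, hi j.1) = (lo u, hi u)) ∧ K.Fl j.1 j.2})
    (fun j => (GSq_leg hb j.2.2).1) (fun j => (GSq_leg hb j.2.2).2.trans (interior_mono (by
      have := hi'.sub _ j.2.1.1
      rwa [(Prod.mk.inj j.2.1.2).1, (Prod.mk.inj j.2.1.2).2] at this))) h0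
  refine ⟨Λ, C, fun v hv e => ⟨⟨c1, ?_, c3⟩, fun s hs => (c4 ⟨(v, s), ⟨hv, e⟩, hs⟩).mono' ?_⟩⟩
  · rwa [(Prod.mk.inj e).1, (Prod.mk.inj e).2]
  · have a1 := hw v hv s hs
    have a2 : η ≤ w s := hη ⟨(v, s), ⟨hv, e⟩, hs⟩
    rw [(Prod.mk.inj e).1, (Prod.mk.inj e).2] at a1
    linarith

theorem squeeze_all (h : BoxK K g b.m Th F kk lo hi) (hb : Bead K g b)
    (hi' : InBox K g Th lo hi b) (hF : ∀ v, K.Vx v → v ∉ Th → b.B v ⊆ F)
    {w : Set (Rn 3) → ℝ} (hw0 : ∀ s, 0 < w s)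
    (hw : ∀ v ∈ Th, ∀ s, K.Fl v s → ‖hi v - lo v‖ ≤ w s) :
    ∃ (g2 : Rn 3 → Rn 3) (b2 : BdD), ContinuousOn g2 Ω ∧ InjOn g2 Ω ∧ g2 '' Ω = g '' Ω ∧
      Bead K g2 b2 ∧ b2.m = b.m ∧ (∀ s ∈ K.cel 1, g2 (b.m s) = g (b.m s)) ∧
      (∀ v, v ∉ Th → b2.Φ v = b.Φ v) ∧
      ∀ v ∈ Th, ∀ s, K.Fl v s → b2.Leg g2 v s \ {g (b.m s)} ⊆ interior (Icc (lo v) (hi v)) ∧
        ArcL (b2.Leg g2 v s) (b2.Φ v 0) (g (b.m s)) (2 * w s) := by
  classical
  choose L C hL using GSq_box h hb hi' hw0 hw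
  have hC := fun v hv => (hL _ v hv rfl).1
  obtain ⟨Λ, l1, l2, l3, l4, l5, l6⟩ := GSq_patch (Th := Th)
    (GEmb_open h.cont h.inj h.opn subset_rfl) (I := fun v => Icc (lo v) (hi v))
    (C := fun v => C (lo v, hi v)) (L := fun v => L (lo v, hi v)) hC
    (fun v hv u hu => (h.dis v hv u hu).imp_left fun e => by rw [e.1, e.2]; exact ⟨rfl, rfl⟩)
    h.sub h.lf
  have SB (v : Rn 3) : b.S v ⊆ b.B v := image_mono sphere_subset_closedBall
  have hE : ∀ s ∈ K.cel 1, ∀ y ∈ flat 2, b.p g s + b.M s y ∈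
      {x | x ∈ g '' Ω ∧ ∀ v ∈ Th, x ∉ C (lo v, hi v)} := fun s hs y hy => by
    obtain ⟨a, c, he, rfl⟩ := Kx.dm_one hs.1 hs.2
    have hl := GLeg_edge he
    have h1 := hb.one a hl.1 hl.2.1
    have h2 := SB a ((h1.flt _ hl y hy.1).2 hy.2)
    refine ⟨h1.sub h2, fun v hv e => ?_⟩
    have e' := (hC v hv).2.1 e
    by_cases ha : a ∈ Th
    · rcases h.dis v hv a ha with k | k
      · rw [k.1, k.2] at e'
        exact disjoint_left.1 (hi'.wall a ha _ hl) e' ⟨y, hy, rfl⟩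
      · exact disjoint_left.1 k e' (hi'.sub a ha h2)
    · exact disjoint_left.1 (h.far v hv) e' (hF a ⟨hl.1, hl.2.1⟩ ha h2)
  have hp : ∀ s ∈ K.cel 1, ∀ v ∈ Th, g (b.m s) ∉ C (lo v, hi v) := fun s hs => by
    have := (hE s hs 0 ⟨by simp, rfl⟩).2
    rwa [map_zero, add_zero] at this
  have hD (s : Set (Rn 3)) (hs : s ∈ K.cel 1) := GSq_col
    (l6.preimage (f := fun y => b.p g s + b.M s y) (by fun_prop)) (hE s hs)
  have : Nonempty (Rn 3 ≃L[ℝ] Rn 3) := ⟨ContinuousLinearEquiv.refl _ _⟩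
  choose! D hD using hD
  let b2 : BdD := ⟨b.m, fun s => (D s).trans (b.M s),
    fun v => if v ∈ Th then L (lo v, hi v) ∘ b.Φ v else b.Φ v⟩
  have Φ1 : ∀ v ∈ Th, b2.Φ v = L (lo v, hi v) ∘ b.Φ v := fun v hv => if_pos hv
  have Φ2 : ∀ v, v ∉ Th → b2.Φ v = b.Φ v := fun v hv => if_neg hv
  have Φ3 : ∀ v, K.Vx v → ∀ y ∈ closedBall (0 : Rn 3) 1, b2.Φ v y = Λ (b.Φ v y) :=
    fun v hv y hy => by
      by_cases e : v ∈ Th
      · rw [Φ1 v e, l4 v e (hi'.sub v e ⟨y, hy, rfl⟩)]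
        rfl
      · rw [Φ2 v e, l5 _ fun u hu k =>
          disjoint_left.1 (h.far u hu) ((hC u hu).2.1 k) (hF v hv e ⟨y, hy, rfl⟩)]
  have B2 : ∀ v, K.Vx v → b2.B v = Λ '' b.B v := fun v hv => by
    rw [BdD.B, BdD.B, image_image, image_congr (Φ3 v hv)]
  have S2 : ∀ v, K.Vx v → b2.S v = Λ '' b.S v := fun v hv => by
    rw [BdD.S, BdD.S, image_image, image_congr fun y hy => Φ3 v hv y (sphere_subset_closedBall hy)]
  have p2 : ∀ s ∈ K.cel 1, b2.p (Λ ∘ g) s = b.p g s := fun s hs => l5 _ (hp s hs)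
  have im : (Λ ∘ g) '' Ω = g '' Ω := by rw [image_comp, l3]
  refine ⟨Λ ∘ g, b2, l2.comp h.cont (mapsTo_image g Ω), l1.comp_injOn h.inj, im,
    ⟨hb.mk', fun v h1 h2 => ?_, fun v h1 u h2 h3 h4 h5 x hx => ?_, fun N n1 n2 => ?_⟩, rfl, p2, Φ2,
    fun v hv s hl => ?_⟩
  · have o := hb.one v h1 h2
    have eB := B2 v ⟨h1, h2⟩
    have eS := S2 v ⟨h1, h2⟩
    refine ⟨?_, ?_, fun s hl y hy => ?_, fun s hl => ?_, fun y hy k => o.star y hy ?_,
      fun y hy k => o.mark y hy ?_, fun s hl t t0 t1 k => o.ray s hl t t0 t1 ?_⟩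
    · by_cases e : v ∈ Th
      · exact Φ1 v e ▸ (hC v e).2.2.1.comp o.lh
      · exact Φ2 v e ▸ o.lh
    · rw [eB, im, ← l3]
      exact image_mono o.sub
    · obtain ⟨d1, d2, d3, -⟩ := hD s hl.2.2.1 y hy
      rw [p2 s hl.2.2.1, eS, ← d3, ← o.flt s hl _ d2, ← l1.mem_set_image (s := b.S v),
        show Λ (b.p g s + b.M s (D s y)) = _ from l5 _ d1.2]
      rfl
    · rw [eB, image_comp]
      exact image_mono (o.sin s hl)
    · exact l1.mem_set_image.1 (eB ▸ k)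
    · exact l1.mem_set_image.1 (eS ▸ k)
    · exact l1.mem_set_image.1 (eB ▸ k)
  · rw [B2 v ⟨h1, h3⟩, B2 u ⟨h2, h4⟩, ← image_inter l1] at hx
    obtain ⟨x, hx, rfl⟩ := hx
    obtain ⟨s, k1, k2, y, k3, rfl⟩ := hb.meet v h1 u h2 h3 h4 h5 x hx
    refine ⟨s, k1, k2, y, k3, ?_⟩
    rw [l5 _ (hE s k1.2.2.1 y k3).2]
    change b2.p (Λ ∘ g) s + b.M s (D s y) = _
    rw [p2 s k1.2.2.1, (hD s k1.2.2.1 y k3.1).2.2.2 k3.2]
  · rw [im] at n2
    refine ((h.lf N n1 n2).union (hb.lf N n1 n2)).subset ?_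
    rintro v ⟨h1, h2, x, k1, k2⟩
    by_cases e : v ∈ Th
    · refine Or.inl ⟨e, x, ?_, k2⟩
      rw [BdD.B, Φ1 v e, image_comp] at k1
      rw [← (hC v e).2.2.image_eq ((hC v e).2.1.trans interior_subset)]
      exact image_mono (hi'.sub v e) k1
    · rw [BdD.B, Φ2 v e] at k1
      exact Or.inr ⟨h1, h2, x, k1, k2⟩
  · have o := hb.one v hl.1 hl.2.1
    have e1 : L (lo v, hi v) (b.p g s) = b.p g s := (hC v hv).2.2.2 _ (hp s hl.2.2.1 v hv)
    have e2 : b2.Leg (Λ ∘ g) v s = L (lo v, hi v) '' b.Leg g v s := by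
      rw [BdD.Leg, BdD.Leg, p2 s hl.2.2.1, Φ1 v hv, ((hC v hv).2.2.1.comp o.lh).inv_eq
        (x := invFun (b.Φ v) (b.p g s)) (by rw [comp_apply, o.lh.ri, e1]), image_comp]
    have e3 := (hL _ v hv rfl).2 s hl
    rw [e1] at e3
    rw [e2, Φ1 v hv]
    refine ⟨?_, e3⟩
    rintro _ ⟨⟨x, k1, rfl⟩, k2⟩
    rw [← (hC v hv).2.2.image_eq (hC v hv).2.1]
    exact mem_image_of_mem _ (interior_mono (hi'.sub v hv)
      ((GSq_leg hb hl).2 ⟨k1, fun e => k2 (e ▸ e1)⟩))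

end BEp
end
end
end

-- merged part: Pool.Agent.Work.MP_f0515e_an.D3.GAlt1
section
/-! Changing the vertices and edges of a complex without changing its one skeleton.

Plan. `reedge`: `cell x = if x ∈ K.sk 1 then ce x else K.cell x`; a cell of `K` is inside or outside
`K.sk 1`; closure of an open segment is the segment, which is `Poly` (closure of a cell is not
available: use the image of `Icc 0 1` under `seg`, or any lemma on segments in `PArc`/`PLSt*`);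
`dm` of a point is 0 and of an open segment is 1.
`smo_two`: the points `y ± t u` for small `t > 0` lie in `K.sk 1` and, by `Kx.near`, in cells whose
closure contains `y`; these cells are edges with end `y` (`mem_sk_one`, `Edge.left`, `front`); an edge
with end `y` contains points near `y`, which lie on the line, so its direction is `± u`, and two
edges in the same direction meet.
`smo_face`: `exists_mid` gives a face `c` with `y ∈ closure c ⊆ closure σ`, `two_mid` gives two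
distinct edges at `y` in `closure c`. -/

open Set Metric Filter Topology Function BEv
open scoped NNReal ENNReal

noncomputable section
namespace BEp

variable {Ω : Set (Rn 3)} {K : Kx Ω}

theorem GAlt1_opn {v w y z : Rn 3} (hy : y ∈ openSegment ℝ v w) (hz : z ∈ openSegment ℝ v w) :
    ∃ e : ℝ, 0 < e ∧ y + e • (y - z) ∈ openSegment ℝ v w := by
  rw [openSegment_eq_image'] at hy hz ⊢
  obtain ⟨s, hs, rfl⟩ := hy
  obtain ⟨t, ht, rfl⟩ := hz
  have p : 0 < s * (1 - s) := mul_pos hs.1 (sub_pos.2 hs.2)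
  refine ⟨s * (1 - s), p, s + s * (1 - s) * (s - t), ⟨?_, ?_⟩, ?_⟩
  · nlinarith [mul_pos p (sub_pos.2 ht.2), mul_pos p hs.1, mul_pos hs.1 hs.1]
  · nlinarith [mul_pos p ht.1, mul_pos p (sub_pos.2 hs.2),
      mul_pos (sub_pos.2 hs.2) (sub_pos.2 hs.2)]
  · simp only
    module

theorem GAlt1_dm (v w : Rn 3) : dm (openSegment ℝ v w) ≤ 1 := by
  refine Collinear.finrank_le_one ((collinear_iff_exists_forall_eq_smul_vadd _).2
    ⟨v, w - v, fun p hp => ?_⟩)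
  rw [openSegment_eq_image'] at hp
  obtain ⟨t, -, rfl⟩ := hp
  exact ⟨t, add_comm _ _⟩

theorem GAlt1_dm0 (v : Rn 3) : dm {v} = 0 := by
  rw [dm, vectorSpan_singleton, finrank_bot]

theorem reedge (K : Kx Ω) (ce : Rn 3 → Set (Rn 3))
    (h1 : ∀ x ∈ K.sk 1, ce x = {x} ∨ ∃ v w, v ≠ w ∧ ce x = openSegment ℝ v w ∧ x ∈ ce x ∧
      segment ℝ v w ⊆ K.sk 1 ∧ ce v = {v} ∧ ce w = {w})
    (h2 : ∀ x ∈ K.sk 1, ∀ y ∈ ce x, ce y = ce x)
    (h3 : ∀ x ∈ Ω, x ∉ K.sk 1 → ∀ y ∈ closure (K.cell x), y ∈ K.sk 1 →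
      ce y ⊆ closure (K.cell x))
    (h4 : ∀ C, IsCompact C → C ⊆ Ω → (ce '' (C ∩ K.sk 1)).Finite) :
    ∃ K2 : Kx Ω, (∀ x ∈ K.sk 1, K2.cell x = ce x) ∧
      (∀ x ∈ Ω, x ∉ K.sk 1 → K2.cell x = K.cell x) ∧ K2.sk 1 = K.sk 1 := by
  classical
  obtain ⟨c, c1, c2⟩ : ∃ c : Rn 3 → Set (Rn 3), (∀ x ∈ K.sk 1, c x = ce x) ∧
      ∀ x, x ∉ K.sk 1 → c x = K.cell x :=
    ⟨fun x => if x ∈ K.sk 1 then ce x else K.cell x, fun x hx => if_pos hx, fun x hx => if_neg hx⟩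
  have f2 : ∀ x ∈ K.sk 1, closure (ce x) ⊆ K.sk 1 := fun x hx => by
    rcases h1 x hx with e | ⟨v, w, -, e, -, k, -⟩
    · rwa [e, closure_singleton, singleton_subset_iff]
    · rwa [e, closure_openSegment]
  refine ⟨⟨c, fun x hx => ?_, fun x hx y hy => ?_, fun x hx => ?_, fun x hx => ?_,
    fun x hx y hy z hz => ?_, fun x hx => ?_, fun x hx y hy => ?_, fun C hC hs => ?_⟩,
    c1, fun x _ => c2 x, Set.ext fun x => ?_⟩
  · by_cases k : x ∈ K.sk 1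
    · rw [c1 x k]
      rcases h1 x k with e | ⟨v, w, -, -, m, -⟩
      · exact e ▸ mem_singleton x
      · exact m
    · rw [c2 x k]
      exact K.mem x hx
  · by_cases k : x ∈ K.sk 1
    · rw [c1 x k] at hy ⊢
      rw [c1 y (f2 x k (subset_closure hy)), h2 x k y hy]
    · rw [c2 x k] at hy ⊢
      have e := K.eqv x hx y hy
      rw [c2 y fun m => k ⟨hx, e ▸ m.2⟩, e]
  · by_cases k : x ∈ K.sk 1
    · rw [c1 x k]
      exact (f2 x k).trans (K.sk_sub 1)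
    · rw [c2 x k]
      exact K.sub x hx
  · by_cases k : x ∈ K.sk 1
    · rw [c1 x k]
      rcases h1 x k with e | ⟨v, w, -, e, -⟩
      · exact e ▸ convex_singleton x
      · exact e ▸ convex_openSegment v w
    · rw [c2 x k]
      exact K.cvx x hx
  · by_cases k : x ∈ K.sk 1
    · rw [c1 x k] at hy hz ⊢
      rcases h1 x k with e | ⟨v, w, -, e, -⟩
      · rw [e] at hy hz ⊢
        exact ⟨1, one_pos, by simp [mem_singleton_iff.1 hy, mem_singleton_iff.1 hz]⟩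
      · rw [e] at hy hz ⊢
        exact GAlt1_opn hy hz
    · rw [c2 x k] at hy hz ⊢
      exact K.opn x hx y hy z hz
  · by_cases k : x ∈ K.sk 1
    · rw [c1 x k]
      rcases h1 x k with e | ⟨v, w, -, e, -⟩
      · rw [e, closure_singleton]
        exact Poly.finite (finite_singleton x)
      · rw [e, closure_openSegment]
        exact poly_segment v w
    · rw [c2 x k]
      exact K.poly x hx
  · by_cases k : x ∈ K.sk 1
    · rw [c1 x k] at hy ⊢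
      rw [c1 y (f2 x k hy)]
      by_cases m : y ∈ ce x
      · rw [h2 x k y m]
        exact subset_closure
      rcases h1 x k with e | ⟨v, w, -, e, -, -, e1, e2⟩
      · rw [e, closure_singleton] at hy
        exact absurd (e ▸ hy) m
      · have hy' := hy
        rw [e, closure_openSegment] at hy'
        by_cases a : v = y
        · rwa [← a, e1, a, singleton_subset_iff]
        by_cases b : w = y
        · rwa [← b, e2, b, singleton_subset_iff]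
        exact absurd (e ▸ mem_openSegment_of_ne_left_right a b hy') m
    · rw [c2 x k] at hy ⊢
      by_cases m : y ∈ K.sk 1
      · rw [c1 y m]
        exact h3 x hx k y hy m
      · rw [c2 y m]
        exact K.fr x hx y hy
  · refine ((h4 C hC hs).union (K.lf C hC hs)).subset ?_
    rintro _ ⟨x, hx, rfl⟩
    by_cases k : x ∈ K.sk 1
    · exact .inl ⟨x, ⟨hx, k⟩, (c1 x k).symm⟩
    · exact .inr ⟨x, hx, (c2 x k).symm⟩
  · show x ∈ Ω ∧ dm (c x) ≤ 1 ↔ _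
    by_cases k : x ∈ K.sk 1
    · refine iff_of_true ⟨k.1, ?_⟩ k
      rw [c1 x k]
      rcases h1 x k with e | ⟨v, w, -, e, -⟩
      · rw [e, GAlt1_dm0]
        exact zero_le_one
      · exact e ▸ GAlt1_dm v w
    · rw [c2 x k]
      rfl

theorem GAlt1_end {y p q : Rn 3} (hv : K.cell y = {y}) (he : K.Edge p q) (hy : y ∈ segment ℝ p q) :
    ∃ c, K.Edge y c ∧ openSegment ℝ p q = openSegment ℝ y c := by
  by_cases a : p = y
  · exact ⟨q, a ▸ he, by rw [a]⟩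
  by_cases b : q = y
  · exact ⟨p, b ▸ he.symm, by rw [b, openSegment_symm]⟩
  have e := Kx.cell_eq he.2 (mem_openSegment_of_ne_left_right a b hy)
  have := he.dm
  rw [← e, hv, GAlt1_dm0] at this
  omega

theorem GAlt1_dir (hΩ : IsOpen Ω) {y u : Rn 3} (hy : y ∈ Ω) (hv : K.cell y = {y}) (hu : u ≠ 0)
    {e : ℝ} (he : 0 < e) (h : ∀ t ∈ Icc (-e) e, y + t • u ∈ K.sk 1) :
    ∃ a, K.Edge y a ∧ ∃ s : ℝ, 0 < s ∧ a = y + s • u := by
  have k : Tendsto (fun t : ℝ => y + t • u) (𝓝[>] 0) (𝓝 y) :=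
    (Continuous.tendsto' (by fun_prop) 0 y (by simp)).mono_left nhdsWithin_le_nhds
  obtain ⟨t, h1, ht⟩ := ((k.eventually (K.near hΩ hy)).and (Ioc_mem_nhdsGT he)).exists
  rcases Kx.mem_sk_one.1 (h t ⟨by linarith [ht.1], ht.2⟩) with ⟨-, e1⟩ | ⟨p, q, e1, m⟩
  · rw [e1, closure_singleton] at h1
    exact absurd (left_eq_add.1 (mem_singleton_iff.1 h1.2)) (smul_ne_zero ht.1.ne' hu)
  · rw [Kx.cell_eq e1.2 m, e1.cl] at h1
    obtain ⟨c, h2, e2⟩ := GAlt1_end hv e1 h1.2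
    rw [e2, openSegment_eq_image'] at m
    obtain ⟨θ, hθ, e3⟩ := m
    refine ⟨c, h2, θ⁻¹ * t, mul_pos (inv_pos.2 hθ.1) ht.1, ?_⟩
    rw [mul_smul, ← add_left_cancel e3, inv_smul_smul₀ hθ.1.ne', add_sub_cancel]

theorem GAlt1_same {y u : Rn 3} {s s' : ℝ} (hs : 0 < s) (hs' : 0 < s')
    (h : K.Edge y (y + s • u)) (h' : K.Edge y (y + s' • u)) : y + s' • u = y + s • u := by
  have p := add_pos hs hs'
  have m : ∀ {s s' : ℝ}, 0 < s → 0 < s' →
      y + (s * s' / (s + s')) • u ∈ openSegment ℝ y (y + s • u) := fun {s s'} hs hs' => by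
    have p := add_pos hs hs'
    rw [openSegment_eq_image']
    refine ⟨s' / (s + s'), ⟨div_pos hs' p, (div_lt_one p).2 (by linarith)⟩, ?_⟩
    simp only [add_sub_cancel_left, smul_smul]
    congr 2
    ring
  have m' := m hs' hs
  rw [mul_comm, add_comm s'] at m'
  rcases h.uniq ((Kx.cell_eq h.2 (m hs hs')).symm.trans (Kx.cell_eq h'.2 m')) with e | e
  · exact e.2.symm
  · exact absurd e.1 h'.1

/-- A smooth vertex has exactly two edges, and they are opposite. -/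
theorem smo_two (hΩ : IsOpen Ω) {y : Rn 3} (hy : y ∈ Ω) (hv : K.cell y = {y}) (h : K.Smo y) :
    ∃ a b, K.Edge y a ∧ K.Edge y b ∧ y ∈ openSegment ℝ a b ∧ ∀ c, K.Edge y c → c = a ∨ c = b := by
  obtain ⟨u, e, hu, he, h1, h2⟩ := h
  obtain ⟨_, ha, s, hs, rfl⟩ := GAlt1_dir hΩ hy hv hu he h1
  obtain ⟨_, hb, s', hs', rfl⟩ := GAlt1_dir hΩ hy hv (neg_ne_zero.2 hu) he fun t ht => by
    rw [smul_neg, ← neg_smul]
    exact h1 _ ⟨neg_le_neg ht.2, neg_le.1 ht.1⟩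
  have p := add_pos hs hs'
  refine ⟨_, _, ha, hb, ⟨s' / (s + s'), s / (s + s'), div_pos hs' p, div_pos hs p,
    by rw [← add_div, add_comm, div_self p.ne'], ?_⟩, fun c hc => ?_⟩
  · match_scalars <;> field_simp <;> ring
  have k : Tendsto (fun t : ℝ => y + t • (c - y)) (𝓝[>] 0) (𝓝 y) :=
    (Continuous.tendsto' (by fun_prop) 0 y (by simp)).mono_left nhdsWithin_le_nhds
  obtain ⟨θ, h3, hθ⟩ := ((k.eventually (ball_mem_nhds y he)).and (Ioc_mem_nhdsGT one_pos)).exists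
  obtain ⟨t, e1⟩ := h2 _ (hc.seg_sub (by
    rw [segment_eq_image']
    exact ⟨θ, ⟨hθ.1.le, hθ.2⟩, rfl⟩)) (mem_ball_iff_norm.1 h3)
  have e2 : c = y + (θ⁻¹ * t) • u := by
    rw [mul_smul, ← add_left_cancel e1, inv_smul_smul₀ hθ.1.ne', add_sub_cancel]
  generalize θ⁻¹ * t = r at e2
  rcases lt_trichotomy r 0 with hr | hr | hr
  · rw [← neg_smul_neg] at e2
    exact .inr (e2.trans (GAlt1_same hs' (neg_pos.2 hr) hb (e2 ▸ hc)))
  · rw [hr, zero_smul, add_zero] at e2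
    exact absurd e2.symm hc.1
  · exact .inl (e2.trans (GAlt1_same hs hr ha (e2 ▸ hc)))

/-- A face or solid cell touching a vertex with two edges contains both in its closure. -/
theorem smo_face {y a b : Rn 3} (ha : K.Edge y a) (hab : ∀ c, K.Edge y c → c = a ∨ c = b)
    (hb : K.Edge y b) {σ : Set (Rn 3)} (hσ : σ ∈ K.cells) (hd : 2 ≤ dm σ) (hy : y ∈ closure σ) :
    segment ℝ y a ⊆ closure σ ∧ segment ℝ y b ⊆ closure σ := by
  obtain ⟨hΩ, hv⟩ := ha.left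
  have hρ : {y} ∈ K.cells := hv ▸ K.cell_mem hΩ
  have d0 := GAlt1_dm0 y
  obtain ⟨τ, hτ, h1, h2⟩ := Kx.exists_mid hσ hρ (singleton_subset_iff.2 hy) (d := 2) (by omega) hd
  obtain ⟨τ₁, k1, τ₂, k2, ne, a1, b1, a2, b2, -⟩ := Kx.two_mid hτ.1 hρ h1 (by rw [d0, hτ.2])
  have key : ∀ ρ ∈ K.cel (dm {y} + 1), {y} ⊆ closure ρ → ρ ⊆ closure τ →
      ∃ c, (c = a ∨ c = b) ∧ ρ = openSegment ℝ y c ∧ segment ℝ y c ⊆ closure σ := fun ρ k a b => by
    obtain ⟨p, q, e, rfl⟩ := Kx.dm_one k.1 (by rw [k.2, d0])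
    rw [e.cl, singleton_subset_iff] at a
    obtain ⟨c, hc, e1⟩ := GAlt1_end hv e a
    refine ⟨c, hab c hc, e1, ?_⟩
    rw [← hc.cl, ← e1]
    exact closure_minimal (b.trans (closure_minimal h2 isClosed_closure)) isClosed_closure
  obtain ⟨c₁, o1, rfl, s1⟩ := key τ₁ k1 a1 b1
  obtain ⟨c₂, o2, rfl, s2⟩ := key τ₂ k2 a2 b2
  rcases o1 with rfl | rfl <;> rcases o2 with e | e
  · exact absurd (by rw [e]) ne
  · exact ⟨s1, e ▸ s2⟩
  · exact ⟨e ▸ s2, s1⟩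
  · exact absurd (by rw [e]) ne

end BEp
end
end
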