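import Pool.Agent.Work.MP_f0515e_an.D3.SRig0
import Pool.Agent.Work.MP_f0515e_an.D3.CTop
import Pool.Agent.Work.MP_f0515e_an.D3.PTri
import Pool.Agent.Work.MP_f0515e_an.D3.PGau
import Pool.Agent.Work.MP_f0515e_an.D3.PFill
import Pool.Agent.Work.MP_f0515e_an.D3.LDefs
import Pool.Agent.Work.MP_f0515e_an.D3.GAlt1
import Pool.Agent.Work.MP_f0515e_an.Pos.PLSG

-- merged part: Pool.Agent.Work.MP_f0515e_an.D3.SRig1
section
/-! Rigid boxes: normal coordinates and the coarse grid.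
`nm_exists`: if `I = univ`, `A` is injective by `low`; otherwise one index `l₀` is missing, take `n` with `‖n‖ = μ = 1000 ε / s` and
`μ / 2 ≤ ‖n - y‖` for all `y` in the image `U` of the slice directions (`riesz_lemma`, `U ≠ ⊤` by dimension) and
`L z = A (update z l₀ 0) + z l₀ • n`; `μ ≤ ‖A‖` by `low` for a basis vector.
Grid: `cc x = {x}` iff all scaled coordinates are integers; `cc` of a point of a coarse edge is that edge (floor and
ceiling); `sk_iff`: `thick` and `dm_le_of_sub`; `rv_fl`: points of `e` near `v` lie in `Q 24 ∩ sk 1`, use `sk_axis` and `K.cell_eq`.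
About 400 lines. -/

open Set Metric Filter Topology Function BEv
open scoped NNReal

noncomputable section
namespace BEp

variable {Ω : Set (Rn 3)} {K : Kx Ω} {f : Rn 3 → Rn 3} {ι : Type} {d : TopD ι}

theorem SR1_mu (h : TopIn K f d) (i : ι) : 1000 * d.ε i ≤ d.s * ‖(d.B i).A‖ := by
  obtain ⟨l, hl⟩ := Finset.card_pos.1 (zero_lt_one.trans (h.card i))
  have k := h.low i (Pi.single l 1) fun l' hl' => Pi.single_eq_of_ne (ne_of_mem_of_not_mem hl hl').symm _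
  have k2 := (d.B i).A.le_opNorm (Pi.single l 1)
  have e : ‖(Pi.single l 1 : V 1)‖ = 1 := by rw [Pi.norm_single, norm_one]
  simp only [e, mul_one] at k k2
  exact k.trans (mul_le_mul_of_nonneg_left k2 h.s0.le)

theorem SR1_ext {A : Rn 3 →L[ℝ] Rn 3} {μ : ℝ} (h0 : 0 < μ) (h1 : μ ≤ ‖A‖) (l : Fin 3)
    (h : ∀ z : Rn 3, z l = 0 → μ * ‖z‖ ≤ ‖A z‖) : ∃ L : Rn 3 →ₗ[ℝ] Rn 3,
      (∀ z, z l = 0 → L z = A z) ∧ (∀ z, μ * ‖z‖ ≤ 3 * ‖L z‖) ∧ ∀ z, ‖L z‖ ≤ 2 * ‖A‖ * ‖z‖ := by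
  let P : Rn 3 →ₗ[ℝ] Rn 3 := LinearMap.id - (LinearMap.proj l).smulRight (Pi.single l 1)
  have hP : ∀ z, P z = hz l z := fun z => by
    ext j
    by_cases e : j = l
    · simp [P, hz, e]
    · simp [P, hz, e]
  let T : Rn 3 →ₗ[ℝ] Rn 3 := (A : Rn 3 →ₗ[ℝ] Rn 3) ∘ₗ P
  have hT : ∀ z, T z = A (hz l z) := fun z => by rw [← hP]; rfl
  have ns : ∃ x, x ∉ LinearMap.range T := by
    by_contra k
    have k1 : Surjective T := fun x => not_not.1 fun c => k ⟨x, c⟩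
    have k2 := LinearMap.injective_iff_surjective.2 k1 (a₁ := Pi.single l 1) (a₂ := 0) (by
      have : hz l (Pi.single l 1 : Rn 3) = 0 := by
        ext j
        by_cases e : j = l
        · simp [hz, e]
        · simp [hz, e]
      rw [hT, this, map_zero, map_zero])
    simpa using congrFun k2 l
  obtain ⟨x, x1, x2⟩ := riesz_lemma (LinearMap.range T).closed_of_finiteDimensional ns
    (r := 1 / 2) (by norm_num)
  have x0 : 0 < ‖x‖ := norm_pos_iff.2 fun e => x1 (e ▸ zero_mem _)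
  set n := (μ / ‖x‖) • x with hn
  have nn : ∀ t : ℝ, ‖t • n‖ = μ * |t| := fun t => by
    rw [norm_smul, hn, norm_smul, Real.norm_of_nonneg (div_pos h0 x0).le, div_mul_cancel₀ _ x0.ne',
      Real.norm_eq_abs, mul_comm]
  have far : ∀ (t : ℝ) z, μ * |t| ≤ 2 * ‖T z + t • n‖ := fun t z => by
    rcases eq_or_ne t 0 with rfl | t0
    · simp
    have a0 : t * (μ / ‖x‖) ≠ 0 := mul_ne_zero t0 (by positivity)
    have k := x2 (T ((-(t * (μ / ‖x‖))⁻¹) • z)) ⟨_, rfl⟩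
    have e : T z + t • n = (t * (μ / ‖x‖)) • (x - T ((-(t * (μ / ‖x‖))⁻¹) • z)) := by
      rw [map_smul, smul_sub, smul_smul (t * (μ / ‖x‖)), mul_neg, mul_inv_cancel₀ a0, hn, smul_smul]
      module
    have e2 : ‖t * (μ / ‖x‖)‖ * ‖x‖ = μ * |t| := by
      rw [← nn, hn, smul_smul, norm_smul]
    rw [e, norm_smul, ← e2]
    linarith only [k, norm_nonneg (t * (μ / ‖x‖)), mul_nonneg_of_nonpos_of_nonpos (Mathlib.Tactic.Linarith.sub_nonpos_of_le k) (Mathlib.Tactic.Linarith.sub_nonpos_of_le (norm_nonneg (t * (μ / ‖x‖))))]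
  refine ⟨T + (LinearMap.proj l).smulRight n, fun z hz0 => ?_, fun z => ?_, fun z => ?_⟩
  · have : hz l z = z := by rw [hz, ← hz0, update_eq_self]
    simp [hT, hz0, this]
  · show μ * ‖z‖ ≤ 3 * ‖T z + z l • n‖
    have a1 := far (z l) z
    have a2 := h (hz l z) (by simp [hz])
    have a3 := norm_sub_le (T z + z l • n) (z l • n)
    rw [add_sub_cancel_right, nn, hT] at a3
    rw [norm_eq_hz l z, mul_max_of_nonneg _ _ h0.le, max_le_iff]
    rw [hT] at a1 ⊢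
    constructor <;> linarith only [a1, a2, a3, norm_nonneg (A (hz l z) + z l • n)]
  · show ‖T z + z l • n‖ ≤ 2 * ‖A‖ * ‖z‖
    have a1 := norm_add_le (T z) (z l • n)
    have a2 := A.le_opNorm (hz l z)
    have a3 : ‖hz l z‖ ≤ ‖z‖ := (le_max_left _ _).trans (norm_eq_hz l z).ge
    have a4 : |z l| ≤ ‖z‖ := (le_max_right _ _).trans (norm_eq_hz l z).ge
    rw [nn, hT] at a1
    rw [hT]
    linarith only [a1, a2, a3, h1, a4, mul_le_mul_of_nonneg_left a3 (norm_nonneg A), mul_le_mul h1 a4 (abs_nonneg _)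
      (norm_nonneg A)]

theorem nm_exists (h : TopIn K f d) (i : ι) : ∃ L, Nm (d.B i) d.s (d.ε i) L := by
  have hs := h.s0
  have he := (h.ε0 i).1
  have key : ∃ L : Rn 3 →ₗ[ℝ] Rn 3, (∀ z : Rn 3, (∀ l, l ∉ (d.B i).I → z l = 0) →
      L z = (d.B i).A z) ∧ (∀ z, 1000 * d.ε i * ‖z‖ ≤ 3 * d.s * ‖L z‖) ∧
      ∀ z, ‖L z‖ ≤ 2 * ‖(d.B i).A‖ * ‖z‖ := by
    by_cases c : ∀ l, l ∈ (d.B i).I
    · refine ⟨((d.B i).A : V 1 →ₗ[ℝ] V 1), fun _ _ => rfl, fun z => ?_, fun z => ?_⟩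
      · have := h.low i z fun l hl => (hl (c l)).elim
        have a := mul_nonneg hs.le (norm_nonneg ((d.B i).A z))
        show _ ≤ 3 * d.s * ‖(d.B i).A z‖
        linarith
      · have := (d.B i).A.le_opNorm z
        have a := mul_nonneg (norm_nonneg (d.B i).A) (norm_nonneg z)
        show ‖(d.B i).A z‖ ≤ _
        linarith
    · obtain ⟨l, hl⟩ := not_forall.1 c
      have all : ∀ l', l' ∉ (d.B i).I → l' = l := fun l' hl' => by
        by_contra e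
        have s1 : (d.B i).I ⊆ (Finset.univ.erase l).erase l' := fun j hj => by
          simp only [Finset.mem_erase, Finset.mem_univ, and_true]
          exact ⟨fun k => hl' (k ▸ hj), fun k => hl (k ▸ hj)⟩
        have s2 := Finset.card_le_card s1
        rw [Finset.card_erase_of_mem (by simp [e]), Finset.card_erase_of_mem (by simp),
          Finset.card_univ, Fintype.card_fin] at s2
        have := h.card i
        omega
      obtain ⟨L, h1, h2, h3⟩ := SR1_ext (A := (d.B i).A) (μ := 1000 * d.ε i / d.s) (by positivity)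
        (by rw [div_le_iff₀' hs]; exact SR1_mu h i) l fun z hz0 => by
          rw [div_mul_eq_mul_div, div_le_iff₀' hs]
          exact h.low i z fun l' hl' => by rw [all l' hl']; exact hz0
      refine ⟨L, fun z k => h1 z (k l hl), fun z => ?_, h3⟩
      have := h2 z
      rw [div_mul_eq_mul_div, div_le_iff₀' hs] at this
      linarith
  obtain ⟨L, h1, h2, h3⟩ := key
  have inj : Injective L := (injective_iff_map_eq_zero L).2 fun z e => by
    have := h2 z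
    rw [e, norm_zero, mul_zero] at this
    exact norm_le_zero_iff.1 (nonpos_of_mul_nonpos_right this (by positivity))
  exact ⟨(LinearEquiv.ofInjectiveEndo L inj).toContinuousLinearEquiv, h1, h2, h3⟩

theorem rig_small (h : TopIn K f d) (i : ι) : 0 < d.ww i ∧ d.ww i ≤ 1 / 2000 ∧ 0 < d.dl i ∧
    100000000 * d.dl i ≤ d.ww i ∧ 1000000000 * d.ε' i ≤ d.ε i ∧
    2 * d.s * ‖(d.B i).A‖ * d.ww i ≤ d.ε i := by
  have hs := h.s0
  obtain ⟨he, he'⟩ := h.ε0 i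
  have m := SR1_mu h i
  have t := h.tiny i
  have a := norm_nonneg (d.B i).A
  have p : 0 < 2 * d.s * (1 + ‖(d.B i).A‖) := by positivity
  refine ⟨div_pos he p, ?_, div_pos (by positivity) (by positivity), ?_, ?_, ?_⟩
  · rw [TopD.ww, div_le_iff₀ p]
    linarith only [hs, m]
  · rw [TopD.ww, TopD.dl, ← mul_div_assoc, div_le_div_iff₀ (by positivity) p]
    linarith only [t, mul_pos (mul_pos hs (show 0 < 1 + ‖(d.B i).A‖ by positivity)) he', sq_nonneg (d.ε i)]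
  · refine le_of_mul_le_mul_left ?_ he
    linarith only [t, m, he', hs, mul_le_mul_of_nonneg_right m he'.le, mul_pos hs he']
  · rw [TopD.ww, ← mul_div_assoc, div_le_iff₀ p]
    linarith only [hs, he, mul_pos hs he]

section
variable {B : Box 1} {s ε : ℝ} {L : Rn 3 ≃L[ℝ] Rn 3}

theorem nc_sub (y y' : Rn 3) : nc B s L y - nc B s L y' = s⁻¹ • L.symm (y - y') := by
  rw [nc, nc, ← smul_sub, add_sub_add_right_eq_sub, ← map_sub, sub_sub_sub_cancel_right]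

theorem lh_nc (hs : 0 < s) : LH (nc B s L) := by
  have := (LH.smul (E := Rn 3) (inv_ne_zero hs.ne')).comp (lh_aff L.symm (B.c - L.symm B.b))
  convert this using 1
  funext y
  simp only [nc, comp_apply, map_sub]
  congr 1
  abel

theorem Nm.aff (h : Nm B s ε L) {x : Rn 3} (hx : x ∈ B.slice) :
    nc B s L (B.aff x) = s⁻¹ • x := by
  have e : L (x - B.c) = B.A (x - B.c) := h.ext _ fun l hl => sub_eq_zero.2 (hx l hl)
  rw [nc, Box.aff, add_sub_cancel_right, ← e, L.symm_apply_apply, sub_add_cancel]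

theorem Nm.le (h : Nm B s ε L) (hs : 0 < s) (y y' : Rn 3) :
    1000 * ε * ‖nc B s L y - nc B s L y'‖ ≤ 3 * ‖y - y'‖ := by
  have := h.lo (L.symm (y - y'))
  rw [L.apply_symm_apply] at this
  rw [nc_sub, norm_smul, Real.norm_of_nonneg (inv_pos.2 hs).le, ← mul_assoc, mul_comm _ s⁻¹,
    mul_assoc, inv_mul_le_iff₀ hs]
  linarith

theorem Nm.ge (h : Nm B s ε L) (hs : 0 < s) (y y' : Rn 3) :
    ‖y - y'‖ ≤ 2 * s * ‖B.A‖ * ‖nc B s L y - nc B s L y'‖ := by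
  have := h.hi (L.symm (y - y'))
  rw [L.apply_symm_apply] at this
  rw [nc_sub, norm_smul, Real.norm_of_nonneg (inv_pos.2 hs).le]
  convert this using 1
  field_simp

theorem Nm.lh_aff (h : Nm B s ε L) : ∃ u, LH u ∧ EqOn B.aff u B.slice := by
  refine ⟨_, BEp.lh_aff L (B.b - L B.c), fun x hx => ?_⟩
  have e : L (x - B.c) = B.A (x - B.c) := h.ext _ fun l hl => sub_eq_zero.2 (hx l hl)
  simp only [Box.aff, ← e, map_sub]
  abel

theorem Box.Q_mono (hs : 0 < s) {ρ ρ' : ℝ} (h : ρ ≤ ρ') : B.Q s ρ ⊆ B.Q s ρ' := by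
  exact fun _ hx => ⟨hx.1, fun l hl => (hx.2 l hl).trans (by gcongr)⟩

theorem Box.Q_near {ρ ρ' : ℝ} {x y : Rn 3} (hx : x ∈ B.Q s ρ) (hy : y ∈ B.slice)
    (h : ‖y - x‖ ≤ ρ' * s) : y ∈ B.Q s (ρ + ρ') := by
  refine ⟨hy, fun l hl => ?_⟩
  have h1 := hx.2 l hl
  have h2 : |y l - x l| ≤ ρ' * s := (norm_le_pi_norm (y - x) l).trans h
  have h3 := abs_sub_le (y l) (x l) (B.c l)
  linarith

theorem Box.Q_convex (ρ : ℝ) : Convex ℝ (B.Q s ρ) := by
  intro x hx y hy a b ha hb hab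
  have e : ∀ l, (a • x + b • y) l - B.c l = a * (x l - B.c l) + b * (y l - B.c l) := fun l => by
    simp only [Pi.add_apply, Pi.smul_apply, smul_eq_mul]
    linear_combination B.c l * hab
  refine ⟨fun l hl => sub_eq_zero.1 ?_, fun l hl => ?_⟩
  · rw [e, hx.1 l hl, hy.1 l hl]; simp
  · have h1 := abs_le.1 (hx.2 l hl)
    have h2 := abs_le.1 (hy.2 l hl)
    have h3 : s * (B.r + ρ) = a * (s * (B.r + ρ)) + b * (s * (B.r + ρ)) := by
      rw [← add_mul, hab, one_mul]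
    rw [e, abs_le]
    constructor <;> linarith only [h3, h1, ha, h2, hb, mul_le_mul_of_nonneg_left h1.1 ha, mul_le_mul_of_nonneg_left h1.2 ha,
      mul_le_mul_of_nonneg_left h2.1 hb, mul_le_mul_of_nonneg_left h2.2 hb]

end

theorem nc_close (h : TopIn K f d) {i : ι} {L : Rn 3 ≃L[ℝ] Rn 3}
    (hL : Nm (d.B i) d.s (d.ε i) L) {x : Rn 3} (h1 : x ∈ K.sk 1) (h2 : x ∈ (d.B i).Q d.s 24) :
    ‖nc (d.B i) d.s L (f x) - d.s⁻¹ • x‖ ≤ d.dl i := by
  have k := hL.le h.s0 (f x) ((d.B i).aff x)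
  rw [hL.aff h2.1] at k
  have c := h.close i x ⟨h1, h2⟩
  rw [TopD.dl, le_div_iff₀' (by have := (h.ε0 i).1; positivity)]
  linarith only [k, c]

theorem box_uniq (h : TopIn K f d) {i i' : ι} {x x' z : Rn 3} (hx : x ∈ (d.B i).Q d.s 12)
    (hx' : x' ∈ (d.B i').Q d.s 12) (h1 : ‖z - (d.B i).aff x‖ ≤ 5 * d.ε i)
    (h2 : ‖z - (d.B i').aff x'‖ ≤ 5 * d.ε i') : i = i' := by
  by_contra e
  have k1 := h.sep i i' e x hx x' hx'
  have k2 := h.sep i' i (Ne.symm e) x' hx' x hx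
  have k3 := norm_sub_le (z - (d.B i).aff x) (z - (d.B i').aff x')
  rw [sub_sub_sub_cancel_left] at k3
  rw [norm_sub_rev] at k2
  linarith

/-- Scaled coordinate. -/
def SR1_z (B : Box 1) (s : ℝ) (l : Fin 3) (t : ℝ) : ℝ := ((t - B.c l) / s - (B.r + 8)) / 16

theorem SR1_eq {B : Box 1} {s : ℝ} (hs : 0 < s) {l : Fin 3} {t a : ℝ} :
    SR1_z B s l t = a ↔ t = B.c l + s * (B.r + 8) + 16 * s * a := by
  rw [SR1_z, div_eq_iff (by norm_num), sub_eq_iff_eq_add, div_eq_iff hs.ne']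
  constructor <;> intro k <;> linarith only [k]

theorem SR1_fi {a b : ℝ} {k : ℤ} (h : a = k) : (⌊b⌋ = ⌊a⌋ ∧ ⌈b⌉ = ⌈a⌉) ↔ b = a := by
  subst h
  rw [Int.floor_intCast, Int.ceil_intCast]
  refine ⟨fun c => le_antisymm (c.2 ▸ Int.le_ceil b) (c.1 ▸ Int.floor_le b), fun c => ?_⟩
  rw [c, Int.floor_intCast, Int.ceil_intCast]
  exact ⟨rfl, rfl⟩

theorem SR1_fo {a b : ℝ} {k : ℤ} (h1 : k < a) (h2 : a < k + 1) :
    (⌊b⌋ = ⌊a⌋ ∧ ⌈b⌉ = ⌈a⌉) ↔ k < b ∧ b < k + 1 := by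
  have e1 : ⌊a⌋ = k := Int.floor_eq_iff.2 ⟨h1.le, h2⟩
  have e2 : ⌈a⌉ = k + 1 := Int.ceil_eq_iff.2 ⟨by push_cast; linarith, by push_cast; linarith⟩
  rw [e1, e2, Int.floor_eq_iff, Int.ceil_eq_iff]
  push_cast
  constructor
  · rintro ⟨⟨-, a2⟩, a3, -⟩
    exact ⟨by linarith, a2⟩
  · rintro ⟨a1, a2⟩
    exact ⟨⟨a1.le, a2⟩, by linarith, a2.le⟩

theorem SR1_cc {B : Box 1} {s : ℝ} {x y : Rn 3} : y ∈ B.cc s x ↔ y ∈ B.slice ∧ ∀ l ∈ B.I,
    ⌊SR1_z B s l (y l)⌋ = ⌊SR1_z B s l (x l)⌋ ∧ ⌈SR1_z B s l (y l)⌉ = ⌈SR1_z B s l (x l)⌉ := Iff.rfl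

theorem SR1_inj {B : Box 1} {s : ℝ} (hs : 0 < s) {l : Fin 3} {t u : ℝ}
    (h : SR1_z B s l t = SR1_z B s l u) : t = u := by
  rw [(SR1_eq hs).1 h, ← (SR1_eq hs).1 rfl]

theorem SR1_sk {B : Box 1} {s : ℝ} (hs : 0 < s) {y : Rn 3} : y ∈ B.Sk s ↔ y ∈ B.slice ∧
    ∃ l₀ : Fin 3, ∀ l ∈ B.I, l ≠ l₀ → ∃ k : ℤ, y l = B.c l + s * (B.r + 8) + 16 * s * k := by
  classical
  have e : ∀ l : Fin 3, dd (((y l - B.c l) / s - (B.r + 8)) / 16) = 0 ↔
      ∃ k : ℤ, y l = B.c l + s * (B.r + 8) + 16 * s * k := fun l => by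
    refine Iff.trans ?_ (exists_congr fun k => SR1_eq hs)
    refine ⟨fun h => ⟨_, sub_eq_zero.1 (abs_eq_zero.1 h)⟩, fun ⟨k, h⟩ => ?_⟩
    rw [SR1_z] at h
    rw [h, dd, round_intCast, sub_self, abs_zero]
  refine and_congr_right fun _ => Finset.card_le_one_iff_subset_singleton.trans
    (exists_congr fun l₀ => ⟨fun h l hl n => (e l).1 (not_not.1 fun c => n (Finset.mem_singleton.1
      (h (Finset.mem_filter.2 ⟨hl, c⟩)))), fun h l hl => ?_⟩)
  rw [Finset.mem_filter] at hl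
  exact Finset.mem_singleton.2 (not_not.1 fun c => hl.2 ((e l).2 (h l hl.1 c)))

theorem SR1_in (h : TopIn K f d) {i : ι} {ρ : ℝ} (hρ : ρ ≤ 40) : (d.B i).Q d.s ρ ⊆ Ω :=
  (Box.Q_mono h.s0 hρ).trans (h.QS i)

theorem SR1_pt (d : TopD ι) (v : Rn 3) (l : Fin 3) (σ u : ℝ) :
    d.pt v l σ u l = v l + u * d.s * σ := by simp [TopD.pt]

theorem SR1_pt' (d : TopD ι) (v : Rn 3) {l l' : Fin 3} (h : l' ≠ l) (σ u : ℝ) :
    d.pt v l σ u l' = v l' := by simp [TopD.pt, h]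

theorem SR1_sl {i : ι} {v : Rn 3} (hv : v ∈ (d.B i).slice) {l : Fin 3} (hl : l ∈ (d.B i).I)
    (σ u : ℝ) : d.pt v l σ u ∈ (d.B i).slice := fun l' hl' =>
  (SR1_pt' d v (ne_of_mem_of_not_mem hl hl').symm σ u).trans (hv l' hl')

theorem rv_lat (h : TopIn K f d) {i : ι} {v : Rn 3} (hv : v ∈ (d.B i).Q d.s 24) :
    K.cell v = {v} ↔ d.Lat i v := by
  have hs := h.s0
  rw [h.grid i v hv]
  refine ⟨fun e => ⟨hv.1, fun l hl => ?_⟩, fun e => ?_⟩
  · by_contra c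
    set a := SR1_z (d.B i) d.s l (v l) with ha
    have a1 : (⌊a⌋ : ℝ) < a := (Int.floor_le a).lt_of_ne fun k => c ⟨_, (SR1_eq hs).1 k.symm⟩
    have a2 := Int.lt_floor_add_one a
    set t := (d.B i).c l + d.s * ((d.B i).r + 8) + 16 * d.s * ((⌊a⌋ + a) / 2) with ht
    have z := (SR1_eq hs).2 ht
    have m : update v l t ∈ (d.B i).cc d.s v := SR1_cc.2 ⟨fun l' hl' =>
      (update_of_ne (ne_of_mem_of_not_mem hl hl').symm _ _).trans (hv.1 l' hl'), fun l' _ => ?_⟩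
    · rw [e, mem_singleton_iff] at m
      have := congrFun m l
      rw [update_self] at this
      rw [this, ← ha] at z
      linarith only [a1, z]
    · by_cases k : l' = l
      · subst k
        rw [update_self, z]
        exact (SR1_fo a1 a2).2 ⟨by linarith only [a1], by linarith only [a1, a2]⟩
      · rw [update_of_ne k]
        exact ⟨rfl, rfl⟩
  · refine Subset.antisymm (fun y hy => funext fun l => ?_)
      (singleton_subset_iff.2 (SR1_cc.2 ⟨hv.1, fun _ _ => ⟨rfl, rfl⟩⟩))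
    by_cases hl : l ∈ (d.B i).I
    · obtain ⟨k, hk⟩ := e.2 l hl
      exact SR1_inj hs ((SR1_fi ((SR1_eq hs).2 hk)).1 ((SR1_cc.1 hy).2 l hl))
    · exact (hy.1 l hl).trans (hv.1 l hl).symm

theorem lat_finite (h : TopIn K f d) (i : ι) :
    {v | v ∈ (d.B i).Q d.s 8 ∧ d.Lat i v}.Finite := by
  have hs := h.s0
  have cl : IsClosed ((d.B i).Q d.s 8) := by
    simp only [Box.Q, Box.slice, ofPred_and, ofPred_forall]
    exact (isClosed_iInter fun l => isClosed_iInter fun _ =>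
      isClosed_eq (continuous_apply l) continuous_const).inter
      (isClosed_iInter fun l => isClosed_iInter fun _ =>
        isClosed_le ((continuous_apply l).sub continuous_const).abs continuous_const)
  have bd : (d.B i).Q d.s 8 ⊆ closedBall (d.B i).c (d.s * ((d.B i).r + 8)) := fun x hx => by
    rw [mem_closedBall_iff_norm, pi_norm_le_iff_of_nonneg (by positivity)]
    intro l
    by_cases hl : l ∈ (d.B i).I
    · exact hx.2 l hl
    · rw [Pi.sub_apply, hx.1 l hl, sub_self, norm_zero]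
      positivity
  have fin := K.lf _ ((isCompact_closedBall _ _).of_isClosed_subset cl bd) (SR1_in h (by norm_num))
  have one : ∀ v ∈ {v | v ∈ (d.B i).Q d.s 8 ∧ d.Lat i v}, K.cell v = {v} := fun v hv =>
    (rv_lat h (Box.Q_mono hs (by norm_num) hv.1)).2 hv.2
  refine Finite.of_finite_image (f := K.cell) (fin.subset (image_mono fun v hv => hv.1))
    fun v hv w hw e => ?_
  rw [one v hv, one w hw] at e
  exact singleton_injective e

theorem sk_iff (h : TopIn K f d) {i : ι} {y : Rn 3} (hy : y ∈ (d.B i).Q d.s 24) :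
    y ∈ K.sk 1 ↔ y ∈ (d.B i).Sk d.s := by
  have hs := h.s0
  refine ⟨fun k => ?_, fun k => ⟨SR1_in h (by norm_num) hy, ?_⟩⟩
  · obtain ⟨e, he, hh⟩ := h.thick i
    exact hh ⟨k, (Box.Q_mono hs (by norm_num) hy).2, fun l hl => by
      rw [hy.1 l hl, sub_self, abs_zero]; exact he.le⟩
  · obtain ⟨-, l₀, h0⟩ := (SR1_sk hs).1 k
    rw [h.grid i y hy]
    refine (dm_le_of_sub (P := AffineSubspace.mk' y (ℝ ∙ (Pi.single l₀ 1 : Rn 3)))
      fun w hw => ?_).trans ?_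
    · refine AffineSubspace.mem_mk'.2 (Submodule.mem_span_singleton.2 ⟨w l₀ - y l₀, ?_⟩)
      ext l
      by_cases e : l = l₀
      · simp [e]
      · have : w l = y l := by
          by_cases hl : l ∈ (d.B i).I
          · obtain ⟨k, hk⟩ := h0 l hl e
            exact SR1_inj hs ((SR1_fi ((SR1_eq hs).2 hk)).1 ((SR1_cc.1 hw).2 l hl))
          · exact (hw.1 l hl).trans (hy.1 l hl).symm
        simp [e, this]
    · rw [AffineSubspace.direction_mk', finrank_span_singleton (by simp)]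

theorem sk_axis (h : TopIn K f d) {i : ι} {v y : Rn 3} (hv : d.Lat i v)
    (hy : y ∈ (d.B i).Sk d.s) (hn : ‖y - v‖ < 16 * d.s) :
    ∃ l ∈ (d.B i).I, ∃ σ, (σ = 1 ∨ σ = -1) ∧ ∃ u ∈ Ico (0 : ℝ) 16, y = d.pt v l σ u := by
  have hs := h.s0
  obtain ⟨h1, l₀, h0⟩ := (SR1_sk hs).1 hy
  have nl : ∀ l, |y l - v l| < 16 * d.s := fun l => (norm_le_pi_norm (y - v) l).trans_lt hn
  have eq : ∀ l, l ≠ l₀ ∨ l ∉ (d.B i).I → y l = v l := fun l c => by
    by_cases hl : l ∈ (d.B i).I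
    · obtain ⟨k, hk⟩ := h0 l hl (c.resolve_right (not_not.2 hl))
      obtain ⟨k', hk'⟩ := hv.2 l hl
      have a := nl l
      have e : y l - v l = 16 * d.s * ((k - k' : ℤ) : ℝ) := by rw [hk, hk']; push_cast; ring
      rw [e, abs_mul, abs_of_pos (by positivity), mul_lt_iff_lt_one_right (by positivity),
        ← Int.cast_abs, ← Int.cast_one, Int.cast_lt, Int.abs_lt_one_iff] at a
      rw [a, Int.cast_zero, mul_zero] at e
      exact sub_eq_zero.1 e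
    · exact (h1 l hl).trans (hv.1 l hl).symm
  obtain ⟨l, hl, e⟩ : ∃ l ∈ (d.B i).I, ∀ l', l' ≠ l → y l' = v l' := by
    by_cases c : l₀ ∈ (d.B i).I
    · exact ⟨l₀, c, fun l' n => eq l' (Or.inl n)⟩
    · obtain ⟨l, hl⟩ := Finset.card_pos.1 (zero_lt_one.trans (h.card i))
      exact ⟨l, hl, fun l' _ => eq l' ((em (l' = l₀)).symm.imp id fun (k : l' = l₀) => k ▸ c)⟩
  obtain ⟨σ, hσ, e2⟩ : ∃ σ : ℝ, (σ = 1 ∨ σ = -1) ∧ y l - v l = |y l - v l| * σ := by
    rcases le_total 0 (y l - v l) with c | c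
    · exact ⟨1, Or.inl rfl, by rw [abs_of_nonneg c, mul_one]⟩
    · exact ⟨-1, Or.inr rfl, by rw [abs_of_nonpos c]; ring⟩
  refine ⟨l, hl, σ, hσ, |y l - v l| / d.s, ⟨by positivity, (div_lt_iff₀ hs).2 (nl l)⟩,
    funext fun l' => ?_⟩
  by_cases c : l' = l
  · rw [c, SR1_pt, div_mul_cancel₀ _ hs.ne', ← e2, add_sub_cancel]
  · rw [SR1_pt' d v c, e l' c]

theorem pt_sk (h : TopIn K f d) {i : ι} {v : Rn 3} (hv : d.Lat i v) {l : Fin 3}
    (hl : l ∈ (d.B i).I) (σ u : ℝ) : d.pt v l σ u ∈ (d.B i).Sk d.s := by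
  refine (SR1_sk h.s0).2 ⟨SR1_sl hv.1 hl σ u, l, fun l' hl' n => ?_⟩
  rw [SR1_pt' d v n]
  exact hv.2 l' hl'

theorem lat_gap (h : TopIn K f d) {i : ι} {v w : Rn 3} (hv : d.Lat i v) (hw : d.Lat i w)
    (l : Fin 3) : ∃ k : ℤ, w l - v l = 16 * d.s * k := by
  have _ := h
  by_cases hl : l ∈ (d.B i).I
  · obtain ⟨k, hk⟩ := hv.2 l hl
    obtain ⟨k', hk'⟩ := hw.2 l hl
    exact ⟨k' - k, by rw [hk, hk']; push_cast; ring⟩
  · exact ⟨0, by rw [hv.1 l hl, hw.1 l hl]; simp⟩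

theorem SR1_seg (d : TopD ι) (v : Rn 3) (l : Fin 3) (σ t : ℝ) :
    v + t • (d.pt v l σ 16 - v) = d.pt v l σ (16 * t) := by
  rw [TopD.pt, TopD.pt, add_sub_cancel_left, smul_smul]
  congr 2
  ring

theorem SR1_img (d : TopD ι) (v : Rn 3) (l : Fin 3) (σ : ℝ) (A : Set ℝ) :
    (fun t : ℝ => v + t • (d.pt v l σ 16 - v)) '' A = d.pt v l σ '' ((fun t => 16 * t) '' A) := by
  rw [image_image]
  exact image_congr fun t _ => SR1_seg d v l σ t

theorem arm_edge (h : TopIn K f d) {i : ι} {v : Rn 3} {l : Fin 3} {σ : ℝ}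
    (ha : d.Arm i v l σ) : K.Edge v (d.pt v l σ 16) ∧ K.Fl v (d.ed v l σ) ∧
      d.Lat i (d.pt v l σ 16) ∧ closure (d.ed v l σ) = d.pt v l σ '' Icc 0 16 ∧
      d.ed v l σ = d.pt v l σ '' Ioo 0 16 ∧
      ∀ u ∈ Icc (0 : ℝ) 16, d.pt v l σ u ∈ K.sk 1 ∧ d.pt v l σ u ∈ (d.B i).Q d.s (8 + u) := by
  have hs := h.s0
  obtain ⟨h1, h2, hl, hσ⟩ := ha
  have ab : |σ| = 1 := by rcases hσ with rfl | rfl <;> simp
  have Q : ∀ u ∈ Icc (0 : ℝ) 16, d.pt v l σ u ∈ (d.B i).Q d.s (8 + u) := fun u hu =>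
    Box.Q_near h1 (SR1_sl h1.1 hl σ u) (by
      rw [TopD.pt, add_sub_cancel_left, norm_smul, Pi.norm_single, norm_one, mul_one,
        Real.norm_eq_abs, abs_mul, ab, mul_one, abs_of_nonneg (mul_nonneg hu.1 hs.le)])
  have eo : d.ed v l σ = d.pt v l σ '' Ioo 0 16 := by
    rw [TopD.ed, openSegment_eq_image', SR1_img, image_mul_left_Ioo (by norm_num)]
    norm_num
  have ec : closure (d.ed v l σ) = d.pt v l σ '' Icc 0 16 := by
    rw [TopD.ed, closure_openSegment, segment_eq_image', SR1_img,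
      image_mul_left_Icc (by norm_num) zero_le_one]
    norm_num
  obtain ⟨k, hk⟩ := h2.2 l hl
  have zz : ∀ u, SR1_z (d.B i) d.s l (d.pt v l σ u l) = k + u * σ / 16 := fun u =>
    (SR1_eq hs).2 (by rw [SR1_pt, hk]; ring)
  have m24 : d.pt v l σ 8 ∈ (d.B i).Q d.s 24 :=
    Box.Q_mono hs (by norm_num) (Q 8 ⟨by norm_num, by norm_num⟩)
  have fo : ∀ u : ℝ, (⌊k + u * σ / 16⌋ = ⌊k + 8 * σ / 16⌋ ∧ ⌈k + u * σ / 16⌉ = ⌈k + 8 * σ / 16⌉) ↔
      u ∈ Ioo (0 : ℝ) 16 := fun u => by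
    rcases hσ with rfl | rfl
    · rw [SR1_fo (k := k) (by linarith) (by linarith)]
      exact ⟨fun c => ⟨by linarith only [c, c.1], by linarith only [c, c.2]⟩,
        fun c => ⟨by linarith [c.1], by linarith [c.2]⟩⟩
    · rw [SR1_fo (k := k - 1) (by push_cast; linarith) (by push_cast; linarith)]
      push_cast
      exact ⟨fun c => ⟨by linarith only [c, c.2], by linarith only [c, c.1]⟩,
        fun c => ⟨by linarith [c.2], by linarith [c.1]⟩⟩
  have ce : K.cell (d.pt v l σ 8) = d.ed v l σ := by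
    rw [h.grid i _ m24, eo]
    refine Subset.antisymm (fun y hy => ?_) ?_
    · have e : y = d.pt v l σ ((y l - v l) * σ / d.s) := funext fun l' => by
        by_cases c : l' = l
        · rw [c, SR1_pt, div_mul_cancel₀ _ hs.ne']
          rcases hσ with rfl | rfl <;> ring
        · rw [SR1_pt' d v c]
          by_cases hl' : l' ∈ (d.B i).I
          · obtain ⟨k', hk'⟩ := h2.2 l' hl'
            have a := (SR1_cc.1 hy).2 l' hl'
            rw [SR1_pt' d v c] at a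
            exact SR1_inj hs ((SR1_fi ((SR1_eq hs).2 hk')).1 a)
          · exact (hy.1 l' hl').trans (h1.1 l' hl').symm
      refine ⟨_, (fo _).1 ?_, e.symm⟩
      rw [← zz, ← zz, ← e]
      exact (SR1_cc.1 hy).2 l hl
    · rintro _ ⟨u, hu, rfl⟩
      refine SR1_cc.2 ⟨SR1_sl h1.1 hl σ u, fun l' _ => ?_⟩
      by_cases c : l' = l
      · rw [c, zz, zz]
        exact (fo u).2 hu
      · rw [SR1_pt' d v c, SR1_pt' d v c]
        exact ⟨rfl, rfl⟩
  have E : K.Edge v (d.pt v l σ 16) := by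
    refine ⟨fun e => ?_, _, SR1_in h (by norm_num) m24, ce⟩
    have a := SR1_pt d v l σ 16
    rw [← e] at a
    rcases hσ with rfl | rfl <;> linarith only [hs, a]
  refine ⟨E, ⟨E.left.1, E.left.2, ⟨E.2, E.dm⟩, ?_⟩, ⟨SR1_sl h1.1 hl σ 16, fun l' hl' => ?_⟩, ec, eo,
    fun u hu => ⟨?_, Q u hu⟩⟩
  · rw [TopD.ed, closure_openSegment]
    exact left_mem_segment _ _ _
  · by_cases c : l' = l
    · rw [c, SR1_pt, hk]
      rcases hσ with rfl | rfl
      · exact ⟨k + 1, by push_cast; ring⟩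
      · exact ⟨k - 1, by push_cast; ring⟩
    · rw [SR1_pt' d v c]
      exact h2.2 l' hl'
  · refine E.seg_sub ?_
    rw [← closure_openSegment, ← TopD.ed, ec]
    exact mem_image_of_mem _ hu

theorem rv_fl (h : TopIn K f d) {i : ι} {v : Rn 3} (hv : RV K d i v) {e : Set (Rn 3)}
    (he : K.Fl v e) : ∃ l σ, d.Arm i v l σ ∧ e = d.ed v l σ := by
  have hs := h.s0
  have lat := (rv_lat h (Box.Q_mono hs (by norm_num) hv.1)).1 hv.2
  obtain ⟨e0, he0, th⟩ := h.thick i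
  obtain ⟨y, hy, hd⟩ := Metric.mem_closure_iff.1 he.2.2.2 (min (16 * d.s) e0) (by positivity)
  rw [dist_comm, dist_eq_norm, lt_min_iff] at hd
  have ce := Kx.cell_eq he.2.2.1.1 hy
  have nl : ∀ l, |y l - v l| ≤ ‖y - v‖ := fun l => norm_le_pi_norm (y - v) l
  have sk : y ∈ (d.B i).Sk d.s := th ⟨⟨Kx.cells_sub he.2.2.1.1 hy, by rw [ce, he.2.2.1.2]⟩,
    fun l hl => by
      have a1 := hv.1.2 l hl
      have a2 := abs_sub_le (y l) (v l) ((d.B i).c l)
      have a3 := nl l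
      linarith only [hs, hd, a1, a2, a3, hd.1], fun l hl => by rw [← hv.1.1 l hl]; exact (nl l).trans hd.2.le⟩
  obtain ⟨l, hl, σ, hσ, u, hu, e⟩ := sk_axis h lat sk hd.1
  have arm : d.Arm i v l σ := ⟨hv.1, lat, hl, hσ⟩
  obtain ⟨E, -, -, -, eo, -⟩ := arm_edge h arm
  have u0 : 0 < u := hu.1.lt_of_ne fun k => by
    have : y = v := by rw [e, ← k, TopD.pt]; simp
    have a := he.2.2.1.2
    rw [← ce, this, hv.2, KA2_single] at a
    exact zero_ne_one a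
  refine ⟨l, σ, arm, ce.symm.trans (Kx.cell_eq E.2 ?_)⟩
  show y ∈ d.ed v l σ
  rw [eo]
  exact ⟨u, ⟨u0, hu.2⟩, e.symm⟩

theorem ine_iff (h : TopIn K f d) {i : ι} {v : Rn 3} {l : Fin 3} {σ : ℝ}
    (ha : d.Arm i v l σ) : closure (d.ed v l σ) ⊆ (d.B i).Q d.s 8 ↔ d.InE i v l σ := by
  have _ := h
  rw [show d.ed v l σ = openSegment ℝ v (d.pt v l σ 16) from rfl, closure_openSegment]
  exact ⟨fun k => ⟨ha, k (right_mem_segment _ _ _)⟩,
    fun k => (Box.Q_convex 8).segment_subset ha.1 k.2⟩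

theorem ine_rev (h : TopIn K f d) {i : ι} {v : Rn 3} {l : Fin 3} {σ : ℝ}
    (ha : d.InE i v l σ) : d.InE i (d.pt v l σ 16) l (-σ) ∧
      d.ed (d.pt v l σ 16) l (-σ) = d.ed v l σ ∧
      ∀ u, d.pt (d.pt v l σ 16) l (-σ) u = d.pt v l σ (16 - u) := by
  have e : ∀ u, d.pt (d.pt v l σ 16) l (-σ) u = d.pt v l σ (16 - u) := fun u => by
    rw [TopD.pt, TopD.pt, TopD.pt, add_assoc, ← add_smul]
    congr 2
    ring
  have e0 : d.pt (d.pt v l σ 16) l (-σ) 16 = v := by rw [e, TopD.pt]; simp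
  refine ⟨⟨⟨ha.2, (arm_edge h ha.1).2.2.1, ha.1.2.2.1, ?_⟩, e0.symm ▸ ha.1.1⟩, ?_, e⟩
  · rcases ha.1.2.2.2 with rfl | rfl <;> simp
  · rw [TopD.ed, e0, openSegment_symm]
    rfl

theorem SR1_abs {s : ℝ} (hs : 0 < s) {r : ℕ} {j : ℕ} (hr : r = 8 * j) (k : ℤ) {t c : ℝ} (a b : ℤ)
    (ht : t = c + s * (r + 8) + 16 * s * k + 8 * s * a) :
    |t - c| ≤ s * (r + 8 * b) ↔ |(j : ℤ) + 1 + 2 * k + a| ≤ j + b := by
  have e1 : t - c = 8 * s * (((j : ℤ) + 1 + 2 * k + a : ℤ) : ℝ) := by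
    rw [ht, hr]; push_cast; ring
  have e2 : s * (r + 8 * b) = 8 * s * (((j : ℤ) + b : ℤ) : ℝ) := by rw [hr]; push_cast; ring
  rw [e1, e2, abs_mul, abs_of_pos (by positivity), mul_le_mul_iff_right₀ (by positivity),
    ← Int.cast_abs, Int.cast_le]

theorem exe_out (h : TopIn K f d) {i : ι} {v : Rn 3} {l : Fin 3} {σ : ℝ}
    (ha : d.ExE i v l σ) : ∀ x ∈ (d.B i).Q d.s 8, σ * x l ≤ σ * v l := by
  have hs := h.s0
  obtain ⟨⟨h1, h2, hl, hσ⟩, h3⟩ := ha
  obtain ⟨j, hj⟩ := (h.r8 i).1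
  obtain ⟨k, hk⟩ := h2.2 l hl
  have a1 := (SR1_abs hs hj k 0 1 (t := v l) (c := (d.B i).c l) (by rw [hk]; simp)).1 (by simpa using h1.2 l hl)
  have a2 : ¬ |d.pt v l σ 16 l - (d.B i).c l| ≤ d.s * ((d.B i).r + 8) := fun c =>
    h3 ⟨SR1_sl h1.1 hl σ 16, fun l' hl' => by
      by_cases e : l' = l
      · exact e ▸ c
      · rw [SR1_pt' d v e]
        exact h1.2 l' hl'⟩
  intro x hx
  have a3 := abs_le.1 (hx.2 l hl)
  rw [abs_le] at a1
  rcases hσ with rfl | rfl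
  · have a4 := mt (SR1_abs hs hj k 2 1 (t := d.pt v l 1 16 l) (c := (d.B i).c l)
      (by rw [SR1_pt, hk]; push_cast; ring)).2 (by simpa using a2)
    rw [abs_le] at a4
    obtain rfl : k = 0 := by omega
    rw [hk]
    push_cast
    linarith only [a3, a3.2]
  · have a4 := mt (SR1_abs hs hj k (-2) 1 (t := d.pt v l (-1) 16 l) (c := (d.B i).c l)
      (by rw [SR1_pt, hk]; push_cast; ring)).2 (by simpa using a2)
    rw [abs_le] at a4
    obtain rfl : k = -j - 1 := by omega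
    rw [hk]
    rw [hj] at a3 ⊢
    push_cast at a3 ⊢
    linarith only [a3, a3.1]

theorem ed_uniq (h : TopIn K f d) {i i' : ι} {v v' : Rn 3} {l l' : Fin 3} {σ σ' : ℝ}
    (ha : d.Arm i v l σ) (ha' : d.Arm i' v' l' σ') (e : d.ed v l σ = d.ed v' l' σ') :
    i = i' ∧ l = l' ∧ ((v = v' ∧ σ = σ') ∨ (v' = d.pt v l σ 16 ∧ σ' = -σ)) := by
  have hs := h.s0
  obtain ⟨E, -, -, -, eo, Q⟩ := arm_edge h ha
  obtain ⟨-, -, -, -, eo', Q'⟩ := arm_edge h ha'
  have n0 : 16 * d.s * σ ≠ 0 := by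
    rcases ha.2.2.2 with rfl | rfl <;> simp [hs.ne']
  refine ⟨?_, ?_⟩
  · by_contra c
    obtain ⟨u, hu, e2⟩ : d.pt v l σ 8 ∈ d.pt v' l' σ' '' Ioo 0 16 := by
      rw [← eo', ← e, eo]
      exact ⟨8, ⟨by norm_num, by norm_num⟩, rfl⟩
    exact disjoint_left.1 (h.disj i i' c)
      (Box.Q_mono hs (by norm_num) (Q 8 ⟨by norm_num, by norm_num⟩).2)
      (e2 ▸ Box.Q_mono hs (by linarith [hu.2]) (Q' u (Ioo_subset_Icc_self hu)).2)
  · have s16 : (16 * d.s : ℝ) ≠ 0 := by positivity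
    rcases E.uniq e with ⟨rfl, e2⟩ | ⟨e1, rfl⟩
    · have a := congrFun e2 l
      rw [SR1_pt] at a
      by_cases c : l = l'
      · subst c
        rw [SR1_pt, add_right_inj] at a
        exact ⟨rfl, Or.inl ⟨rfl, mul_left_cancel₀ s16 a⟩⟩
      · rw [SR1_pt' d v c, add_eq_left] at a
        exact (n0 a).elim
    · have a := congrFun e1 l
      by_cases c : l = l'
      · subst c
        rw [SR1_pt, SR1_pt] at a
        exact ⟨rfl, Or.inr ⟨rfl, mul_left_cancel₀ s16 (by linarith)⟩⟩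
      · rw [SR1_pt' d _ c, SR1_pt, left_eq_add] at a
        exact (n0 a).elim

theorem sk_out (h : TopIn K f d) {i : ι} {y : Rn 3} (h1 : y ∈ K.sk 1)
    (h2 : y ∈ (d.B i).Q d.s 16) (h3 : y ∉ (d.B i).Q d.s 8) :
    ∃ v l σ, d.ExE i v l σ ∧ ∃ u ∈ Ioc (0 : ℝ) 8, y = d.pt v l σ u := by
  have hs := h.s0
  obtain ⟨-, l₀, h0⟩ := (SR1_sk hs).1 ((sk_iff h (Box.Q_mono hs (by norm_num) h2)).1 h1)
  obtain ⟨j, hj⟩ := (h.r8 i).1
  have in8 : ∀ l ∈ (d.B i).I, l ≠ l₀ → |y l - (d.B i).c l| ≤ d.s * ((d.B i).r + 8) :=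
    fun l hl n => by
      obtain ⟨k, hk⟩ := h0 l hl n
      have a1 := (SR1_abs hs hj k 0 2 (t := y l) (c := (d.B i).c l) (by rw [hk]; simp)).1 (by
        convert h2.2 l hl using 3; norm_num)
      have a2 := (SR1_abs hs hj k 0 1 (t := y l) (c := (d.B i).c l) (by rw [hk]; simp)).2 (by
        rw [abs_le] at a1 ⊢; omega)
      simpa using a2
  obtain ⟨l, hl, big⟩ : ∃ l ∈ (d.B i).I, d.s * ((d.B i).r + 8) < |y l - (d.B i).c l| := by
    by_contra c
    exact h3 ⟨h2.1, fun l hl => not_lt.1 fun k => c ⟨l, hl, k⟩⟩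
  obtain rfl : l = l₀ := by_contra fun n => (in8 l hl n).not_gt big
  obtain ⟨σ, hσ, e2⟩ : ∃ σ : ℝ, (σ = 1 ∨ σ = -1) ∧
      y l - (d.B i).c l = |y l - (d.B i).c l| * σ := by
    rcases le_total 0 (y l - (d.B i).c l) with c | c
    · exact ⟨1, Or.inl rfl, by rw [abs_of_nonneg c, mul_one]⟩
    · exact ⟨-1, Or.inr rfl, by rw [abs_of_nonpos c]; ring⟩
  have ab : |σ| = 1 := by rcases hσ with rfl | rfl <;> simp
  have p : 0 < d.s * ((d.B i).r + 8) := by positivity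
  have top := h2.2 l hl
  refine ⟨update y l ((d.B i).c l + d.s * ((d.B i).r + 8) * σ), l, σ, ⟨⟨⟨?_, fun l' hl' => ?_⟩,
    ⟨?_, fun l' hl' => ?_⟩, hl, hσ⟩, fun c => ?_⟩,
    (|y l - (d.B i).c l| - d.s * ((d.B i).r + 8)) / d.s,
    ⟨div_pos (sub_pos.2 big) hs, (div_le_iff₀ hs).2 (by linarith)⟩, funext fun l' => ?_⟩
  · exact fun l' hl' => (update_of_ne (ne_of_mem_of_not_mem hl hl').symm _ _).trans (h2.1 l' hl')
  · by_cases c : l' = l
    · rw [c, update_self, add_sub_cancel_left, abs_mul, ab, mul_one, abs_of_pos p]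
    · rw [update_of_ne c]
      exact in8 l' hl' c
  · exact fun l' hl' => (update_of_ne (ne_of_mem_of_not_mem hl hl').symm _ _).trans (h2.1 l' hl')
  · by_cases c : l' = l
    · rw [c, update_self]
      rcases hσ with rfl | rfl
      · exact ⟨0, by simp⟩
      · exact ⟨-j - 1, by rw [hj]; push_cast; ring⟩
    · rw [update_of_ne c]
      exact h0 l' hl' c
  · have a := c.2 l hl
    have e : d.pt (update y l ((d.B i).c l + d.s * ((d.B i).r + 8) * σ)) l σ 16 l - (d.B i).c l =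
        (d.s * ((d.B i).r + 8) + 16 * d.s) * σ := by rw [SR1_pt, update_self]; ring
    rw [e, abs_mul, ab, mul_one, abs_of_pos (by positivity)] at a
    linarith only [hs, a]
  · by_cases c : l' = l
    · rw [c, SR1_pt, update_self, div_mul_cancel₀ _ hs.ne']
      linarith only [e2]
    · rw [SR1_pt' d _ c, update_of_ne c]

end BEp
end
end

-- merged part: Pool.Agent.Work.MP_f0515e_an.D3.GMul
section
-- merged part: Pool.Agent.Work.MP_f0515e_an.D3.SRig2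
section
/-! The gauge of a cross. `cross_gauge`: `TP.cmin`; homogeneity by `cmin_eq`, `cmin_le`, `le_cmin`; lower bound for each arm:
`‖hz l z‖ ≤ w * N`, and `|z l| ≤ w * N` or `σ * z l ≤ H * T z + ‖hz l z‖ / (100 w) ≤ 11 * N`. `gauge_chart`: `gauge_map`, `tp_linv`, `fill_cone`
(or `fill_cone` and `LH.inv`). `frame_exists`: a multiple of the permutation of coordinates by `Equiv.swap l 2`.
About 250 lines. -/

open Set Metric Filter Topology Function BEv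
open scoped NNReal

noncomputable section
namespace BEp

variable {w : ℝ} {S : Finset (Fin 3 × ℝ)} {T : Fin 3 × ℝ → Rn 3 → ℝ} {z : Rn 3}

theorem srig2_congr {κ : Type} (S : Finset κ) (M : ℝ) {f g : κ → ℝ} (h : ∀ k ∈ S, f k = g k) :
    cmin S M f = cmin S M g :=
  Finset.fold_congr h

theorem srig2_cmin {κ : Type} (S : Finset κ) (M : ℝ) (f : κ → ℝ) {t : ℝ} (ht : 0 ≤ t) :
    cmin S (t * M) (fun k => t * f k) = t * cmin S M f := by
  refine le_antisymm ?_ (le_cmin _ _ _ (mul_le_mul_of_nonneg_left (cmin_le_cap _ _ _) ht)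
    fun k hk => mul_le_mul_of_nonneg_left (cmin_le _ _ _ hk) ht)
  rcases cmin_eq S M f with e | ⟨k, hk, e⟩ <;> rw [e]
  · exact cmin_le_cap _ _ _
  · exact cmin_le S _ (fun k => t * f k) hk

theorem srig2_hz {n : ℕ} (i : Fin n) (t : ℝ) (x : Rn n) : hz i (t • x) = t • hz i x := by
  rw [hz, hz, ← update_smul, smul_zero]

theorem srig2_tp {l : Fin 3} {σ : ℝ} {T : Rn 3 → ℝ} (h : ArmOk w l σ T) : TP (armN w l σ T) := by
  obtain ⟨T', rfl⟩ := h.lin
  have h1 := (tp_hz l).norm_pi.div_const w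
  exact ((TP.clm T').max ((((TP.clm T').const_mul 2).add (h1.const_mul 2)).div_const 3)).max
    (h1.max (((TP.id'.apply l).const_mul σ).neg.div_const w))

theorem srig2_hom {l : Fin 3} {σ : ℝ} {T : Rn 3 → ℝ} (h : ArmOk w l σ T) (z : Rn 3) {t : ℝ}
    (ht : 0 ≤ t) : armN w l σ T (t • z) = t * armN w l σ T z := by
  obtain ⟨T', rfl⟩ := h.lin
  rw [armN, armN, mul_max_of_nonneg _ _ ht, mul_max_of_nonneg _ _ ht, mul_max_of_nonneg _ _ ht,
    srig2_hz, norm_smul, Real.norm_of_nonneg ht, map_smul, smul_eq_mul, Pi.smul_apply, smul_eq_mul]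
  congr 2 <;> ring

theorem srig2_low {l : Fin 3} {σ : ℝ} {T : Rn 3 → ℝ} (h : ArmOk w l σ T) (hw : 0 < w) (z : Rn 3) :
    ‖z‖ ≤ armN w l σ T z * (w + 11) := by
  obtain ⟨H, hH, e⟩ := h.est
  have k1 : T z ≤ armN w l σ T z := (le_max_left _ _).trans (le_max_left _ _)
  have k2 : ‖hz l z‖ / w ≤ armN w l σ T z := (le_max_left _ _).trans (le_max_right _ _)
  have k3 : -(σ * z l) / w ≤ armN w l σ T z := (le_max_right _ _).trans (le_max_right _ _)
  generalize armN w l σ T z = N at k1 k2 k3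
  have N0 : 0 ≤ N := le_trans (by positivity) k2
  have k4 := (abs_le.1 (e z)).1
  have k5 : ‖hz l z‖ / (100 * w) = ‖hz l z‖ / w / 100 := by rw [div_div, mul_comm]
  have k6 : H * T z ≤ H * N := mul_le_mul_of_nonneg_left k1 (by linarith only [hH, hH.1])
  have k7 : H * N ≤ 10 * N := mul_le_mul_of_nonneg_right hH.2 N0
  have k8 : σ * z l ≤ 11 * N := by linarith only [k2, N0, k4, k5, k6, k7]
  rw [div_le_iff₀ hw] at k2 k3
  have k9 : 0 ≤ N * w := by positivity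
  rw [norm_eq_hz l]
  refine max_le (by linarith) (abs_le.2 ?_)
  rcases h.sg with e1 | e1 <;> rw [e1] at k3 k8 <;> constructor <;> linarith only [k3, N0, k8, k9]

theorem cross_gauge (hw : 0 < w) (h : ∀ a ∈ S, ArmOk w a.1 a.2 (T a)) :
    Gauge (crossN w S T) := by
  refine ⟨TP.cmin S (TP.id'.norm_pi.div_const w) fun a ha => srig2_tp (h a ha), fun z t ht => ?_,
    1 / (w + 11), by positivity, fun z => le_cmin _ _ _ ?_ fun a ha => ?_⟩
  · rw [crossN, crossN, ← srig2_cmin S _ _ ht, norm_smul, Real.norm_of_nonneg ht, mul_div_assoc]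
    exact srig2_congr S _ fun a ha => srig2_hom (h a ha) z ht
  · rw [one_div_mul_eq_div]
    exact div_le_div_of_nonneg_left (norm_nonneg _) hw (by linarith)
  · rw [one_div_mul_eq_div, div_le_iff₀ (by positivity)]
    exact srig2_low (h a ha) hw z

theorem cross_le (hw : 0 < w) (h : crossN w S T z ≤ 1) : ‖z‖ ≤ w ∨ ∃ a ∈ S, ‖hz a.1 z‖ ≤ w ∧
    -w ≤ a.2 * z a.1 ∧ T a z ≤ 1 ∧ 2 * T a z + 2 * (‖hz a.1 z‖ / w) ≤ 3 := by
  rcases cmin_eq S (‖z‖ / w) fun a => armN w a.1 a.2 (T a) z with e | ⟨a, ha, e⟩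
  · rw [crossN, e, div_le_one hw] at h
    exact Or.inl h
  · rw [crossN, e, armN, max_le_iff, max_le_iff, max_le_iff, div_le_one hw, div_le_one hw] at h
    exact Or.inr ⟨a, ha, h.2.1, by linarith only [h, h.2.2], h.1.1, by linarith only [h, h.1.2]⟩

theorem cross_in (hw : 0 < w) {a : Fin 3 × ℝ} (ha : a ∈ S) (h1 : ‖hz a.1 z‖ ≤ w / 2)
    (h2 : -w < a.2 * z a.1) : (T a z ≤ 1 → crossN w S T z ≤ 1) ∧
      (T a z < 1 → crossN w S T z < 1) := by
  have k := cmin_le S (‖z‖ / w) (fun a => armN w a.1 a.2 (T a) z) ha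
  have k1 : ‖hz a.1 z‖ / w ≤ 1 / 2 := by
    rw [div_le_iff₀ hw]
    linarith only [h1]
  have k2 : -(a.2 * z a.1) / w < 1 := by
    rw [div_lt_one hw]
    linarith
  exact ⟨fun h => k.trans (max_le (max_le h (by linarith only [k1, h])) (max_le (by linarith only [k1]) k2.le)),
    fun h => k.trans_lt (max_lt (max_lt h (by linarith only [k1, h])) (max_lt (by linarith only [k1]) k2))⟩

theorem cross_top (hw : 0 < w) (hw1 : w < 1) (h : ∀ a ∈ S, a.2 = 1 ∨ a.2 = -1)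
    {a : Fin 3 × ℝ} (ha : a ∈ S) (h1 : ‖hz a.1 z‖ ≤ w / 2) (h2 : 1 ≤ a.2 * z a.1) :
    (crossN w S T z ≤ 1 ↔ T a z ≤ 1) ∧ (crossN w S T z = 1 ↔ T a z = 1) := by
  obtain ⟨i1, i2⟩ := cross_in (T := T) hw ha h1 (by linarith only [hw, hw1, h2])
  have k0 : 1 ≤ |z a.1| := by
    rcases h a ha with e | e <;> rw [e] at h2
    · linarith [le_abs_self (z a.1)]
    · linarith [neg_le_abs (z a.1)]
  have k : crossN w S T z ≤ 1 → T a z ≤ crossN w S T z := by
    intro h3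
    rcases cmin_eq S (‖z‖ / w) fun a => armN w a.1 a.2 (T a) z with e | ⟨b, hb, e⟩
    · rw [crossN, e, div_le_one hw] at h3
      have := norm_le_pi_norm z a.1
      rw [Real.norm_eq_abs] at this
      linarith
    · rw [crossN, e] at h3 ⊢
      have e' : b = a := by
        rw [armN, max_le_iff, max_le_iff, max_le_iff, div_le_one hw, div_le_one hw] at h3
        have e1 : b.1 = a.1 := by
          by_contra hne
          have := norm_le_pi_norm (hz b.1 z) a.1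
          rw [show hz b.1 z a.1 = z a.1 from update_of_ne (Ne.symm hne) _ _,
            Real.norm_eq_abs] at this
          linarith only [hw1, k0, h3, this, h3.2.1]
        have h4 := h3.2.2
        rw [e1] at h4
        refine Prod.ext e1 ?_
        rcases h a ha with e2 | e2 <;> rcases h b hb with e3 | e3 <;> rw [e2] at h2 <;>
          rw [e3] at h4 <;> linarith only [e2, e3, hw1, h2, h4]
      rw [e']
      exact (le_max_left _ _).trans (le_max_left _ _)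
  exact ⟨⟨fun h3 => (k h3).trans h3, i1⟩, fun h3 => le_antisymm (h3 ▸ k h3.le)
    (not_lt.1 fun h4 => (i2 h4).ne h3), fun h3 => le_antisymm (i1 h3.le) (h3 ▸ k (i1 h3.le))⟩

theorem ArmOk.le {l : Fin 3} {σ : ℝ} {T : Rn 3 → ℝ} (h : ArmOk w l σ T) (hw : 0 < w)
    (h1 : ‖hz l z‖ ≤ w) (h2 : T z ≤ 1) : σ * z l ≤ 11 := by
  obtain ⟨H, hH, e⟩ := h.est
  have k1 := (abs_le.1 (e z)).1
  have k2 : ‖hz l z‖ / (100 * w) ≤ 1 := by
    rw [div_le_one (by positivity)]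
    linarith
  have k3 : H * T z ≤ H * 1 := mul_le_mul_of_nonneg_left h2 (by linarith [hH.1])
  linarith [hH.2]

theorem gauge_chart {n : ℕ} {N : Rn n → ℝ} (h : Gauge N) : ∃ Φ : Rn n → Rn n, LH Φ ∧
    (∀ x, N (Φ x) = ‖x‖) ∧ ∀ x (t : ℝ), 0 ≤ t → Φ (t • x) = t • Φ x := by
  obtain ⟨g, tg, hg⟩ := gauge_map h
  obtain ⟨Φ, h1, h2, h3⟩ := fill_cone h gauge_norm tg hg
  have h4 : ∀ x (t : ℝ), 0 ≤ t → Φ (t • x) = t • Φ x := by
    intro x t ht
    rcases pfill_polar h x with rfl | ⟨y, hy, u, hu, rfl⟩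
    · have : Φ 0 = 0 := norm_eq_zero.1 ((h2 0).trans (pfill_r0 h))
      rw [smul_zero, this, smul_zero]
    · rw [smul_smul, h3 y hy _ (mul_nonneg ht hu.le), h3 y hy _ hu.le, smul_smul]
  refine ⟨_, h1.inv, fun x => ?_, fun x t ht => h1.inv_eq ?_⟩
  · rw [← h2, h1.ri]
  · rw [h4 _ _ ht, h1.ri]

theorem frame_exists (l : Fin 3) {c : ℝ} (hc : 0 < c) : ∃ M : Rn 3 ≃L[ℝ] Rn 3,
    ∀ y, M y l = c * y 2 ∧ ‖hz l (M y)‖ = c * ‖hz 2 y‖ := by
  refine ⟨((LinearEquiv.funCongrLeft ℝ ℝ (Equiv.swap l 2)).trans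
    (LinearEquiv.smulOfNeZero ℝ (Rn 3) c hc.ne')).toContinuousLinearEquiv, fun y => ⟨?_, ?_⟩⟩
  · change c * y (Equiv.swap l 2 l) = _
    rw [Equiv.swap_apply_left]
  · change ‖hz l (c • (y ∘ Equiv.swap l 2))‖ = _
    have e : hz l (y ∘ Equiv.swap l 2) = hz 2 y ∘ Equiv.swap l 2 := by
      funext i
      by_cases hi : i = l
      · simp [hz, hi]
      · have h2 : Equiv.swap l 2 i ≠ 2 := fun e' =>
          hi ((Equiv.swap l 2).injective (e'.trans (Equiv.swap_apply_left l 2).symm))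
        rw [hz, hz, update_of_ne hi, comp_apply, comp_apply, update_of_ne h2]
    rw [srig2_hz, norm_smul, Real.norm_of_nonneg hc.le, e, (Equiv.swap l 2).surjective.pi_norm_comp]

end BEp
end
end

-- merged part: Pool.Agent.Work.MP_f0515e_an.D3.GInd
section
/-! Indicatrix inequality and generic levels of continuous functions of bounded variation.

Plan.
`ind_exists`: for `α ≤ β` let `I n j = Icc (α + j (β-α)/2^n) (α + (j+1)(β-α)/2^n)`, `j < 2^n`;
`φ '' I n j = Icc (m n j) (M n j)` is compact and connected; `N n = ∑ j, indicator (φ '' I n j) 1`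
is measurable with integral `∑ j (M n j - m n j) ≤ ∑ j eVar φ (I n j) = eVar φ (Icc α β)`
(`eVariationOn.edist_le`, `eVariationOn.Icc_add_Icc` and induction, or one partition through all the
extremal points). `N = liminf N n` (`Measurable.liminf`, `lintegral_liminf_le`). If `t 1 .. t k` are
distinct points of the level set then for `2^-n (β-α)` less than their distances they lie in
distinct intervals, so `k ≤ N n c`; pass to `encard` by `Set.encard` as supremum over finite subsets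
(or: if infinite, finite subsets of every size).
`ext_countable`: `S = {sSup (φ '' (Icc p q)), sInf (φ '' Icc p q) | p q rational}`; near `t` there
is no other point of the level, so `φ - φ t` has a constant sign on each side (IVT); equal signs
give a local extremum, whose value is in `S`.
`offset`: `g o = ∑ i, ∑' n : ℤ, N i (o + δ n)` has integral over `Ico 0 δ` equal to
`∑ i ∫ N i` (`lintegral_tsum`, translation invariance, `iUnion_Ico_add_zsmul` or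
`IsAddFundamentalDomain.lintegral_eq_tsum`); Markov: the set where `δ g > 2 ∑ V + δ` has measure
less than `δ`; remove a countable set. The set `T` is the disjoint union over `n` of level sets.
`grid3`: apply `offset` to the coordinates 0, 1, 2 in turn, adding the coordinates of the crossing
points found so far to the forbidden set; `eVariationOn` of a coordinate is at most that of the
curve (`LipschitzWith.comp_eVariationOn_le` or `eVariationOn.comp..`).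
`cross_pt`: two points of `Ioo α β` differ in a coordinate `k`; the levels between have positive
measure; take one with `N c < ⊤` outside `S`; IVT.
`once_level`: `N ≥ 1` on the interval between `φ 0` and `φ 1` (IVT); if `N ≥ 2` on `Ioo c₁ c₂`
then `∫ N ≥ |φ 1 - φ 0| + (c₂ - c₁)`. -/

open Set Metric Filter Topology Function BEv MeasureTheory
open scoped NNReal ENNReal

noncomputable section
namespace BEp

/-- `φ` changes sign strictly at `t` (relative to its value there). -/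
def SC (φ : ℝ → ℝ) (t : ℝ) : Prop :=
  ∃ σ : ℝ, (σ = 1 ∨ σ = -1) ∧ ∃ ρ : ℝ, 0 < ρ ∧ ∀ u, 0 < u → u < ρ →
    0 < σ * (φ (t + u) - φ t) ∧ σ * (φ (t - u) - φ t) < 0

/-- Parameters at which `φ` meets the lattice `o + δ ℤ`. -/
def hitT (φ : ℝ → ℝ) (o δ : ℝ) : Set ℝ := {t | t ∈ Icc (0 : ℝ) 1 ∧ ∃ n : ℤ, φ t = o + δ * n}

theorem GInd_enc {s : Set ℝ} {x : ℝ≥0∞} (h : ∀ F : Finset ℝ, ↑F ⊆ s → (F.card : ℝ≥0∞) ≤ x) :
    ((s.encard : ℕ∞) : ℝ≥0∞) ≤ x := by
  rw [← ENNReal.tsum_set_one, ENNReal.tsum_eq_iSup_sum]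
  refine iSup_le fun F => ?_
  simpa using h (F.map (Embedding.subtype _)) (by
    intro y hy
    obtain ⟨z, -, rfl⟩ := Finset.mem_map.1 hy
    exact z.2)

theorem GInd_piece (u : ℕ → ℝ) (m : ℕ) {t : ℝ} (h : t ∈ Icc (u 0) (u (m + 1))) :
    ∃ j, j < m + 1 ∧ t ∈ Icc (u j) (u (j + 1)) := by
  induction m with
  | zero => exact ⟨0, one_pos, h⟩
  | succ m ih =>
    rcases le_total t (u (m + 1)) with k | k
    · obtain ⟨j, hj, e⟩ := ih ⟨h.1, k⟩
      exact ⟨j, by omega, e⟩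
    · exact ⟨m + 1, by omega, k, h.2⟩

theorem GInd_vol (φ : ℝ → ℝ) (s : Set ℝ) : volume (φ '' s) ≤ eVariationOn φ s :=
  (Real.volume_le_diam _).trans (ediam_image_le_iff.2 fun _ hx _ hy => eVariationOn.edist_le φ hx hy)

theorem GInd_co {γ : ℝ → Rn 3} (s : Set ℝ) (k : Fin 3) :
    eVariationOn (fun t => γ t k) s ≤ eVariationOn γ s := by
  exact (((LipschitzWith.eval k).lipschitzOnWith (s := univ)).comp_eVariationOn_le
    (mapsTo_univ γ s)).trans_eq (by simp)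

theorem ind_exists {φ : ℝ → ℝ} {α β : ℝ} (hc : ContinuousOn φ (Icc α β)) :
    ∃ N : ℝ → ℝ≥0∞, Measurable N ∧
      (∀ c, (({t | t ∈ Icc α β ∧ φ t = c}.encard : ℕ∞) : ℝ≥0∞) ≤ N c) ∧
      ∫⁻ c, N c ≤ eVariationOn φ (Icc α β) := by
  classical
  rcases lt_or_ge β α with h | h
  · refine ⟨0, measurable_const, fun c => ?_, by simp⟩
    simp [Icc_eq_empty h.not_ge]
  let u : ℕ → ℕ → ℝ := fun n j => α + j * ((β - α) / (n + 1))
  have d0 : ∀ n : ℕ, 0 ≤ (β - α) / (n + 1) := fun n => div_nonneg (sub_nonneg.2 h) (by positivity)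
  have mo : ∀ n, Monotone (u n) := fun n i j k =>
    add_le_add_right (mul_le_mul_of_nonneg_right (Nat.cast_le.2 k) (d0 n)) _
  have u0 : ∀ n, u n 0 = α := fun n => by simp [u]
  have u1 : ∀ n, u n (n + 1) = β := fun n => by
    simp only [u]
    push_cast
    field_simp
    ring
  have sub : ∀ n, ∀ j < n + 1, Icc (u n j) (u n (j + 1)) ⊆ Icc α β := fun n j k =>
    Icc_subset_Icc (u0 n ▸ mo n (Nat.zero_le _)) (u1 n ▸ mo n k)
  have me : ∀ n, ∀ j ∈ Finset.range (n + 1), MeasurableSet (φ '' Icc (u n j) (u n (j + 1))) :=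
    fun n j k => (isCompact_Icc.image_of_continuousOn
      (hc.mono (sub n j (Finset.mem_range.1 k)))).measurableSet
  let N : ℕ → ℝ → ℝ≥0∞ := fun n c => ∑ j ∈ Finset.range (n + 1),
    (φ '' Icc (u n j) (u n (j + 1))).indicator 1 c
  have mN : ∀ n, Measurable (N n) := fun n =>
    Finset.measurable_sum _ fun j k => measurable_one.indicator (me n j k)
  refine ⟨fun c => liminf (fun n => N n c) atTop, Measurable.liminf mN,
    fun c => GInd_enc fun F hF => le_liminf_of_le (by isBoundedDefault) ?_,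
    (lintegral_liminf_le mN).trans (liminf_le_of_frequently_le' (Frequently.of_forall fun n => ?_))⟩
  · have t0 : Tendsto (fun n : ℕ => (β - α) / (n + 1)) atTop (𝓝 0) :=
      tendsto_const_nhds.div_atTop (tendsto_natCast_atTop_atTop.atTop_add tendsto_const_nhds)
    have ev : ∀ᶠ n : ℕ in atTop, ∀ x ∈ F, ∀ y ∈ F, x < y → (β - α) / (n + 1) < y - x := by
      simp only [eventually_all_finset]
      intro x _ y _
      by_cases k : x < y
      · exact (t0.eventually_lt_const (sub_pos.2 k)).mono fun n e _ => e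
      · exact .of_forall fun n e => absurd e k
    refine ev.mono fun n hn => ?_
    choose! j j1 j2 using fun t (k : t ∈ F) =>
      GInd_piece (u n) n (t := t) (by rw [u0, u1]; exact (hF k).1)
    have key : ∀ x ∈ F, ∀ y ∈ F, j x = j y → ¬ x < y := fun x hx y hy e k => by
      have a1 := (j2 x hx).1
      have a2 := (j2 y hy).2
      have a3 := hn x hx y hy k
      rw [← e] at a2
      simp only [u] at a1 a2
      push_cast at a2
      linarith only [a1, a3, a2]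
    have inj : InjOn j F := fun x hx y hy e =>
      le_antisymm (not_lt.1 (key y hy x hx e.symm)) (not_lt.1 (key x hx y hy e))
    calc (F.card : ℝ≥0∞) = ∑ i ∈ F.image j, 1 := by simp [Finset.card_image_of_injOn inj]
      _ = ∑ i ∈ F.image j, (φ '' Icc (u n i) (u n (i + 1))).indicator 1 c :=
        Finset.sum_congr rfl fun i hi => by
          obtain ⟨t, ht, rfl⟩ := Finset.mem_image.1 hi
          exact (indicator_of_mem (by exact ⟨t, j2 t ht, (hF ht).2⟩) (1 : ℝ → ℝ≥0∞)).symm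
      _ ≤ N n c := Finset.sum_le_sum_of_subset fun i hi => by
          obtain ⟨t, ht, rfl⟩ := Finset.mem_image.1 hi
          exact Finset.mem_range.2 (j1 t ht)
  · rw [lintegral_finsetSum _ fun j k => measurable_one.indicator (me n j k), ← u0 n, ← u1 n,
      ← eVariationOn.sum' φ (mo n)]
    refine Finset.sum_le_sum fun j k => ?_
    rw [lintegral_indicator_one (me n j k)]
    exact GInd_vol _ _

theorem ext_countable {φ : ℝ → ℝ} {α β : ℝ} (hc : ContinuousOn φ (Icc α β)) :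
    ∃ S : Set ℝ, S.Countable ∧ ∀ t ∈ Ioo α β, φ t ∉ S →
      {u | u ∈ Icc α β ∧ φ u = φ t}.Finite → SC φ t := by
  refine ⟨range (fun p : ℚ × ℚ => sSup (φ '' Icc p.1 p.2)) ∪
    range fun p : ℚ × ℚ => sInf (φ '' Icc p.1 p.2), (countable_range _).union (countable_range _),
    fun t ht hS hf => ?_⟩
  have h1 : Ioo α β \ ({u | u ∈ Icc α β ∧ φ u = φ t} \ {t}) ∈ 𝓝 t :=
    (isOpen_Ioo.sdiff hf.sdiff.isClosed).mem_nhds ⟨ht, fun k => k.2 rfl⟩
  obtain ⟨ρ, hρ, hb⟩ := Metric.mem_nhds_iff.1 h1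
  rw [Real.ball_eq_Ioo] at hb
  have s1 : Ioo t (t + ρ) ⊆ Ioo (t - ρ) (t + ρ) := Ioo_subset_Ioo_left (by linarith)
  have s2 : Ioo (t - ρ) t ⊆ Ioo (t - ρ) (t + ρ) := Ioo_subset_Ioo_right (by linarith)
  have c : ContinuousOn φ (Ioo (t - ρ) (t + ρ)) := hc.mono fun x k => Ioo_subset_Icc_self (hb k).1
  have ne : ∀ x ∈ Ioo (t - ρ) (t + ρ), x ≠ t → φ x ≠ φ t := fun x k e e' =>
    (hb k).2 ⟨⟨Ioo_subset_Icc_self (hb k).1, e'⟩, e⟩
  obtain ⟨p, p1, p2⟩ := exists_rat_btwn (sub_lt_self t hρ)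
  obtain ⟨q, q1, q2⟩ := exists_rat_btwn (lt_add_of_pos_right t hρ)
  have tri : ∀ x ∈ Icc (p : ℝ) q, x ∈ Ioo (t - ρ) t ∨ x = t ∨ x ∈ Ioo t (t + ρ) := fun x k =>
    (lt_trichotomy x t).imp (fun e => ⟨p1.trans_le k.1, e⟩) (.imp_right fun e => ⟨e, k.2.trans_lt q2⟩)
  have m1 : ∀ u, 0 < u → u < ρ → t + u ∈ Ioo t (t + ρ) := fun u a b => ⟨by linarith, by linarith⟩
  have m2 : ∀ u, 0 < u → u < ρ → t - u ∈ Ioo (t - ρ) t := fun u a b => ⟨by linarith, by linarith⟩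
  rcases isPreconnected_Ioo.mapsTo_Ioi_or_Iio (c.mono s1) fun x k => ne x (s1 k) k.1.ne' with a | a <;>
  rcases isPreconnected_Ioo.mapsTo_Ioi_or_Iio (c.mono s2) fun x k => ne x (s2 k) k.2.ne with b | b
  · refine absurd (.inr ⟨(p, q), IsLeast.csInf_eq ⟨⟨t, ⟨p2.le, q1.le⟩, rfl⟩, ?_⟩⟩) hS
    rintro _ ⟨x, k, rfl⟩
    rcases tri x k with e | rfl | e
    exacts [(b e).le, le_rfl, (a e).le]
  · refine ⟨1, .inl rfl, ρ, hρ, fun u u1 u2 => ⟨?_, ?_⟩⟩
    · simpa using a (m1 u u1 u2)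
    · simpa using b (m2 u u1 u2)
  · refine ⟨-1, .inr rfl, ρ, hρ, fun u u1 u2 => ⟨?_, ?_⟩⟩
    · simpa using a (m1 u u1 u2)
    · simpa using b (m2 u u1 u2)
  · refine absurd (.inl ⟨(p, q), IsGreatest.csSup_eq ⟨⟨t, ⟨p2.le, q1.le⟩, rfl⟩, ?_⟩⟩) hS
    rintro _ ⟨x, k, rfl⟩
    rcases tri x k with e | rfl | e
    exacts [(b e).le, le_rfl, (a e).le]

theorem offset {ι : Type} [Fintype ι] {φ : ι → ℝ → ℝ} {V : ι → ℝ}
    (hc : ∀ i, ContinuousOn (φ i) (Icc 0 1)) (hV0 : ∀ i, 0 ≤ V i)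
    (hV : ∀ i, eVariationOn (φ i) (Icc 0 1) ≤ ENNReal.ofReal (V i)) {δ : ℝ} (hδ : 0 < δ)
    {S : Set ℝ} (hS : S.Countable) :
    ∃ o : ℝ, (∀ c ∈ S, ∀ n : ℤ, c ≠ o + δ * n) ∧ (∀ i, (hitT (φ i) o δ).Finite) ∧
      δ * ∑ i, ((hitT (φ i) o δ).ncard : ℝ) ≤ 2 * ∑ i, V i + δ ∧
      ∀ i, ∀ t ∈ hitT (φ i) o δ, t ∈ Ioo (0 : ℝ) 1 → SC (φ i) t := by
  choose N mN cN iN using fun i => ind_exists (hc i)
  choose E cE hE using fun i => ext_countable (hc i)
  let G := AddSubgroup.zmultiples δ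
  have m1 : ∀ i (a : G), Measurable fun o : ℝ => N i (a +ᵥ o) := fun i a =>
    (mN i).comp (measurable_const_add (a : ℝ))
  have m2 : ∀ i, Measurable fun o : ℝ => ∑' a : G, N i (a +ᵥ o) := fun i =>
    Measurable.tsum (m1 i)
  have bad : ((fun p : ℝ × ℤ => p.1 - δ * p.2) '' ((S ∪ ⋃ i, E i) ×ˢ univ)).Countable :=
    ((hS.union (countable_iUnion cE)).prod countable_univ).image _
  obtain ⟨o, ho, le⟩ := exists_notMem_null_le_laverage (μ := volume.restrict (Ioc 0 (0 + δ)))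
    (f := fun o => ∑ i, ∑' a : G, N i (a +ᵥ o)) (by simp [hδ])
    (Finset.measurable_sum _ fun i _ => m2 i).aemeasurable (bad.measure_zero _)
  have ho' : ∀ c ∈ S ∪ ⋃ i, E i, ∀ n : ℤ, c ≠ o + δ * n := fun c k n e =>
    ho ⟨(c, n), ⟨k, trivial⟩, by simp [e]⟩
  have e1 : ∀ i, ∫⁻ o in Ioc 0 (0 + δ), ∑' a : G, N i (a +ᵥ o) = ∫⁻ c, N i c := fun i => by
    rw [lintegral_tsum fun a => (m1 i a).aemeasurable,
      (isAddFundamentalDomain_Ioc hδ 0 volume).lintegral_eq_tsum'' (N i)]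
  have e2 : ∀ i, (((hitT (φ i) o δ).encard : ℕ∞) : ℝ≥0∞) ≤ ∑' a : G, N i (a +ᵥ o) := fun i => by
    have : hitT (φ i) o δ = ⋃ a : G, {t | t ∈ Icc (0 : ℝ) 1 ∧ φ i t = a +ᵥ o} := by
      ext t
      simp only [hitT, mem_iUnion, Set.mem_ofPred_eq]
      refine ⟨fun ⟨a, n, e⟩ => ⟨⟨n • δ, n, rfl⟩, a, ?_⟩, fun ⟨⟨_, n, rfl⟩, a, e⟩ => ⟨a, n, ?_⟩⟩ <;>
      · rw [e]
        simp [AddSubgroup.vadd_def, add_comm, mul_comm]
    rw [← ENNReal.tsum_set_one, this]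
    refine (ENNReal.tsum_iUnion_le_tsum (fun _ => 1) _).trans (ENNReal.tsum_le_tsum fun a => ?_)
    rw [ENNReal.tsum_set_one]
    exact cN i _
  have e3 : ∑ i, (((hitT (φ i) o δ).encard : ℕ∞) : ℝ≥0∞) ≤ ENNReal.ofReal ((∑ i, V i) / δ) := by
    refine (Finset.sum_le_sum fun i _ => e2 i).trans (le.trans ?_)
    rw [laverage_eq, lintegral_finsetSum _ fun i _ => m2 i, ENNReal.ofReal_div_of_pos hδ,
      ENNReal.ofReal_sum_of_nonneg fun i _ => hV0 i]
    simp only [e1, Measure.restrict_apply_univ, Real.volume_Ioc, add_sub_cancel_left]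
    exact ENNReal.div_le_div_right (Finset.sum_le_sum fun i _ => (iN i).trans (hV i)) _
  have fin : ∀ i, (hitT (φ i) o δ).Finite := fun i => by
    rw [← encard_ne_top_iff]
    intro e
    have := (Finset.single_le_sum (fun _ _ => zero_le) (Finset.mem_univ i)).trans e3
    simp [e] at this
  refine ⟨o, fun c k => ho' c (.inl k), fin, ?_, fun i t ht k => hE i t k (fun e => ?_)
    ((fin i).subset fun u hu => ⟨hu.1, hu.2 ▸ ht.2⟩)⟩
  · have s0 : 0 ≤ ∑ i, V i := Finset.sum_nonneg fun i _ => hV0 i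
    simp only [← (fin _).cast_ncard_eq, ENat.toENNReal_coe] at e3
    rw [← Nat.cast_sum, ← ENNReal.ofReal_natCast, ENNReal.ofReal_le_ofReal_iff (by positivity),
      le_div_iff₀ hδ, Nat.cast_sum] at e3
    linarith
  · obtain ⟨n, hn⟩ := ht.2
    exact ho' _ (.inr (mem_iUnion.2 ⟨i, e⟩)) n hn

theorem grid3 {ι : Type} [Fintype ι] {γ : ι → ℝ → Rn 3} {V : ι → ℝ}
    (hc : ∀ i, ContinuousOn (γ i) (Icc 0 1)) (hV0 : ∀ i, 0 ≤ V i)
    (hV : ∀ i, eVariationOn (γ i) (Icc 0 1) ≤ ENNReal.ofReal (V i)) {δ : ℝ} (hδ : 0 < δ) :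
    ∃ o : Rn 3, (∀ i k, (hitT (fun t => γ i t k) (o k) δ).Finite) ∧
      (∀ k, δ * ∑ i, ((hitT (fun t => γ i t k) (o k) δ).ncard : ℝ) ≤ 2 * ∑ i, V i + δ) ∧
      (∀ i k, ∀ t ∈ hitT (fun t => γ i t k) (o k) δ,
        t ∈ Ioo (0 : ℝ) 1 ∧ SC (fun t => γ i t k) t) ∧
      ∀ i k l, k ≠ l →
        Disjoint (hitT (fun t => γ i t k) (o k) δ) (hitT (fun t => γ i t l) (o l) δ) := by
  have step : ∀ (k : Fin 3) (A : ι → Set ℝ), (∀ i, (A i).Finite) → ∃ o : ℝ,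
      (∀ i, (hitT (fun t => γ i t k) o δ).Finite) ∧
      δ * ∑ i, ((hitT (fun t => γ i t k) o δ).ncard : ℝ) ≤ 2 * ∑ i, V i + δ ∧
      (∀ i, ∀ t ∈ hitT (fun t => γ i t k) o δ, t ∈ Ioo (0 : ℝ) 1 ∧ SC (fun t => γ i t k) t) ∧
      ∀ i, Disjoint (A i) (hitT (fun t => γ i t k) o δ) := fun k A hA => by
    obtain ⟨o, a, b, c, d⟩ := offset (φ := fun i t => γ i t k)
      (fun i => (continuous_apply k).comp_continuousOn (hc i)) hV0
      (fun i => (GInd_co _ k).trans (hV i)) hδ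
      (S := ⋃ i, (fun t => γ i t k) '' (insert 0 (insert 1 (A i))))
      (countable_iUnion fun i => (((hA i).insert _).insert _).countable.image _)
    have a' : ∀ i, ∀ t ∈ hitT (fun t => γ i t k) o δ, t ∉ insert 0 (insert 1 (A i)) :=
      fun i t ⟨_, n, e⟩ h => a _ (mem_iUnion.2 ⟨i, t, h, rfl⟩) n e
    refine ⟨o, b, c, fun i t ht => ?_, fun i => disjoint_right.2 fun t ht h =>
      a' i t ht (.inr (.inr h))⟩
    have m : t ∈ Ioo (0 : ℝ) 1 := ⟨ht.1.1.lt_of_ne' fun e => a' i t ht (.inl e),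
      ht.1.2.lt_of_ne fun e => a' i t ht (.inr (.inl e))⟩
    exact ⟨m, d i t ht m⟩
  obtain ⟨o0, a0, b0, c0, -⟩ := step 0 (fun _ => ∅) fun _ => finite_empty
  obtain ⟨o1, a1, b1, c1, d1⟩ := step 1 _ a0
  obtain ⟨o2, a2, b2, c2, d2⟩ := step 2 _ fun i => (a0 i).union (a1 i)
  simp only [disjoint_union_left] at d2
  refine ⟨![o0, o1, o2], fun i k => ?_, fun k => ?_, fun i k => ?_, fun i k l h => ?_⟩
  · fin_cases k
    exacts [a0 i, a1 i, a2 i]
  · fin_cases k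
    exacts [b0, b1, b2]
  · fin_cases k
    exacts [c0 i, c1 i, c2 i]
  · fin_cases k <;> fin_cases l
    exacts [absurd rfl h, d1 i, (d2 i).1, (d1 i).symm, absurd rfl h, (d2 i).2, (d2 i).1.symm,
      (d2 i).2.symm, absurd rfl h]

theorem cross_pt {γ : ℝ → Rn 3} {α β : ℝ} (hαβ : α < β) (hc : ContinuousOn γ (Icc α β))
    (hi : InjOn γ (Icc α β)) (hV : eVariationOn γ (Icc α β) ≠ ⊤) :
    ∃ t ∈ Ioo α β, ∃ k, SC (fun t => γ t k) t := by
  obtain ⟨p, p1, p2⟩ := exists_between hαβ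
  obtain ⟨q, q1, q2⟩ := exists_between p2
  have sub : Icc p q ⊆ Ioo α β := Icc_subset_Ioo p1 q2
  obtain ⟨k, hk⟩ := ne_iff.1 fun e => q1.ne (hi ⟨p1.le, p2.le⟩ ⟨(p1.trans q1).le, q2.le⟩ e)
  have c : ContinuousOn (fun t => γ t k) (Icc α β) := (continuous_apply k).comp_continuousOn hc
  obtain ⟨N, mN, cN, iN⟩ := ind_exists c
  obtain ⟨S, cS, hS⟩ := ext_countable c
  obtain ⟨y, y1, y2, y3⟩ := Measure.exists_mem_of_measure_ne_zero_of_ae (μ := volume)
    (s := uIcc (γ p k) (γ q k)) (by simpa [Real.volume_interval, sub_eq_zero] using hk.symm)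
    (ae_restrict_of_ae ((ae_lt_top mN (ne_top_of_le_ne_top hV (iN.trans (GInd_co _ k)))).and
      (cS.ae_notMem _)))
  obtain ⟨t, t1, rfl⟩ := intermediate_value_uIcc (a := p) (b := q) (f := fun t => γ t k)
    (c.mono (uIcc_of_le q1.le ▸ sub.trans Ioo_subset_Icc_self)) y1
  rw [uIcc_of_le q1.le] at t1
  refine ⟨t, sub t1, k, hS t (sub t1) y3 ?_⟩
  simpa using (cN _).trans_lt y2

theorem once_level {φ : ℝ → ℝ} {e c₁ c₂ : ℝ} (hc : ContinuousOn φ (Icc 0 1)) (he : 0 ≤ e)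
    (hV : eVariationOn φ (Icc 0 1) ≤ ENNReal.ofReal (|φ 1 - φ 0| + e))
    (h1 : min (φ 0) (φ 1) ≤ c₁) (h2 : c₂ ≤ max (φ 0) (φ 1)) (h12 : e < c₂ - c₁) :
    ∃ c ∈ Ioo c₁ c₂, ∃! t, t ∈ Icc (0 : ℝ) 1 ∧ φ t = c := by
  by_contra! hn
  obtain ⟨N, mN, cN, iN⟩ := ind_exists hc
  have ex : ∀ c ∈ uIcc (φ 0) (φ 1), ∃ t, t ∈ Icc (0 : ℝ) 1 ∧ φ t = c := fun c k => by
    simpa [uIcc_of_le (zero_le_one' ℝ)] using
      intermediate_value_uIcc (uIcc_of_le (zero_le_one' ℝ) ▸ hc) k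
  have le : ∀ c, (uIcc (φ 0) (φ 1)).indicator 1 c + (Ioo c₁ c₂).indicator 1 c ≤ N c := fun c => by
    refine le_trans ?_ (cN c)
    by_cases k : c ∈ Ioo c₁ c₂
    · have k1 : c ∈ uIcc (φ 0) (φ 1) := ⟨h1.trans k.1.le, k.2.le.trans h2⟩
      obtain ⟨t, ht⟩ := ex c k1
      have : ({t | t ∈ Icc (0 : ℝ) 1 ∧ φ t = c}).Nontrivial := by
        by_contra e
        exact hn c k ⟨t, ht, fun y hy => not_nontrivial_iff.1 e hy ht⟩
      rw [indicator_of_mem k, indicator_of_mem k1, Pi.one_apply, one_add_one_eq_two]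
      exact_mod_cast Order.add_one_le_of_lt (one_lt_encard_iff_nontrivial.2 this)
    · rw [indicator_of_notMem k, add_zero]
      by_cases k1 : c ∈ uIcc (φ 0) (φ 1)
      · rw [indicator_of_mem k1, Pi.one_apply]
        exact_mod_cast one_le_encard_iff_nonempty.2 (ex c k1)
      · rw [indicator_of_notMem k1]
        exact zero_le
  have := (lintegral_mono le).trans (iN.trans hV)
  rw [lintegral_add_left (measurable_one.indicator measurableSet_uIcc),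
    lintegral_indicator_one measurableSet_uIcc, lintegral_indicator_one measurableSet_Ioo,
    Real.volume_interval, Real.volume_Ioo, ← ENNReal.ofReal_add (abs_nonneg _) (by linarith),
    ENNReal.ofReal_le_ofReal_iff (by positivity)] at this
  linarith

end BEp
end
end

-- merged part: Pool.Agent.Work.MP_f0515e_an.D3.SRig3
section
/-! Choice of the marks.
`once_up`: `once_level` for `t ↦ φ (16 t)`: the variation is at most `16 a + η`, the increment at least `16 a - η`; levels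
`c₁ = φ 0 + a t₁ + η`, `c₂ = φ 0 + a t₂ - η`; intermediate value theorem for the signs.
`mks_exists`: by choice over the set `e`; if `e = ed v l σ` for an arm, fix one such representation and use `ed_uniq`,
`ine_rev` (the window `[7, 9]` and `Up1` are symmetric). Inner edge: `φ u = σ * nc (f (pt u)) l`, slope `1`, the error is the image of
`f - aff` under a linear functional of norm at most `3 / (1000 ε)` (`Nm.le`), so `η = dl`; `M = s • L ∘ M₀`, `M₀` from `frame_exists`.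
Exit edge: `j` a coordinate where `A e_l` attains its norm, slope `s ‖A e_l‖ ≥ 1000 ε`, `η = ε'`. About 300 lines. -/

open Set Metric Filter Topology Function BEv
open scoped NNReal

noncomputable section
namespace BEp

variable {Ω : Set (Rn 3)} {K : Kx Ω} {f : Rn 3 → Rn 3} {ι : Type} {d : TopD ι}

theorem SRig3_var_add {g : ℝ → ℝ} {a η : ℝ} (ha : 0 ≤ a) (hη : 0 ≤ η)
    (hV : eVariationOn g (Icc 0 1) ≤ ENNReal.ofReal η) :
    eVariationOn (fun t => g t + a * t) (Icc 0 1) ≤ ENNReal.ofReal (η + a) := by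
  have hm : MonotoneOn (fun t : ℝ => a * t) (Icc 0 1) :=
    fun x _ y _ hxy => mul_le_mul_of_nonneg_left hxy ha
  have h1 := (hm.eVariationOn_eq (a := 0) (b := 1) (by simp) (by simp)).le
  rw [inter_self] at h1
  simp only [mul_one, mul_zero, sub_zero] at h1
  rw [ENNReal.ofReal_add hη ha]
  refine iSup_le ?_
  rintro ⟨n, u, hu, us⟩
  have h2 := eVariationOn.sum_le (f := g) (n := n) hu us
  have h3 := eVariationOn.sum_le (f := fun t : ℝ => a * t) (n := n) hu us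
  refine le_trans ?_ (add_le_add (h2.trans hV) (h3.trans h1))
  rw [← Finset.sum_add_distrib]
  exact Finset.sum_le_sum fun k _ => edist_add_add_le _ _ _ _

theorem once_up {φ : ℝ → ℝ} (hc : ContinuousOn φ (Icc 0 16)) {a η t₁ t₂ : ℝ} (hη : 0 ≤ η)
    (ha : 0 < a) (hV : eVariationOn (fun u => φ u - a * u) (Icc 0 16) ≤ ENNReal.ofReal η)
    (h0 : 0 ≤ t₁) (h1 : t₂ ≤ 16) (h : 4 * η < a * (t₂ - t₁)) : ∃ t ∈ Icc t₁ t₂, Up1 φ t := by
  have hg : ∀ u ∈ Icc (0 : ℝ) 16, |φ u - a * u - φ 0| ≤ η := by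
    intro u hu
    have h2 := (eVariationOn.edist_le (fun u => φ u - a * u) hu
      (show (0 : ℝ) ∈ Icc (0 : ℝ) 16 by simp)).trans hV
    rw [edist_dist, ENNReal.ofReal_le_ofReal_iff hη, Real.dist_eq] at h2
    simpa using h2
  have hmap : MapsTo (fun t : ℝ => 16 * t) (Icc 0 1) (Icc 0 16) :=
    fun t ht => ⟨by linarith [ht.1], by linarith [ht.2]⟩
  have hV1 : eVariationOn (fun t => φ (16 * t) - a * (16 * t)) (Icc 0 1) ≤ ENNReal.ofReal η :=
    (eVariationOn.comp_le_of_monotoneOn (fun u => φ u - a * u) (fun t : ℝ => 16 * t)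
      (fun x _ y _ hxy => by simp only; linarith) hmap).trans hV
  have hV2 := SRig3_var_add (a := 16 * a) (by linarith) hη hV1
  have e : (fun t => φ (16 * t) - a * (16 * t) + 16 * a * t) = fun t => φ (16 * t) := by
    funext t; ring
  rw [e] at hV2
  have h16 := abs_le.1 (hg 16 (by simp))
  have hc1 : ContinuousOn (fun t => φ (16 * t)) (Icc 0 1) :=
    hc.comp (by fun_prop) hmap
  have ht1 : 0 ≤ a * t₁ := by positivity
  have ht2 : a * t₂ ≤ a * 16 := mul_le_mul_of_nonneg_left h1 ha.le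
  obtain ⟨c, hcI, t, ⟨ht, htc⟩, hu⟩ := once_level (φ := fun t => φ (16 * t)) (e := 2 * η)
    (c₁ := φ 0 + a * t₁ + η) (c₂ := φ 0 + a * t₂ - η) hc1 (by linarith)
    (hV2.trans (ENNReal.ofReal_le_ofReal (by
      simp only [mul_one, mul_zero]
      linarith [le_abs_self (φ 16 - φ 0), h16.1])))
    ((min_le_left _ _).trans (by simp only [mul_zero]; linarith))
    (le_trans (by simp only [mul_one]; linarith [h16.1]) (le_max_right _ _))
    (by linarith only [h])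
  have hT := abs_le.1 (hg (16 * t) (hmap ht))
  have uniq : ∀ u ∈ Icc (0 : ℝ) 16, φ u = c → u = 16 * t := by
    intro u hu' e
    have := hu (u / 16) ⟨⟨by linarith [hu'.1], by linarith [hu'.2]⟩, by
      show φ (16 * (u / 16)) = c
      rw [show 16 * (u / 16) = u by ring, e]⟩
    linarith only [this]
  refine ⟨16 * t, ⟨?_, ?_⟩, fun u hu' => ⟨fun hlt => ?_, fun hlt => ?_⟩⟩
  · refine le_of_mul_le_mul_left ?_ ha
    linarith [hcI.1, hT.2]
  · refine le_of_mul_le_mul_left ?_ ha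
    linarith [hcI.2, hT.1]
  · rw [htc]
    by_contra hn
    push Not at hn
    obtain ⟨u', hu1, hu2⟩ := intermediate_value_Icc hu'.1
      (hc.mono (Icc_subset_Icc le_rfl hu'.2)) ⟨(show φ 0 ≤ c by linarith [hcI.1]), hn⟩
    have := uniq u' ⟨hu1.1, hu1.2.trans hu'.2⟩ hu2
    linarith [hu1.2]
  · rw [htc]
    by_contra hn
    push Not at hn
    obtain ⟨u', hu1, hu2⟩ := intermediate_value_Icc hu'.2
      (hc.mono (Icc_subset_Icc hu'.1 le_rfl)) ⟨hn, (show c ≤ φ 16 by linarith [hcI.2, h16.1])⟩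
    have := uniq u' ⟨hu'.1.trans hu1.1, hu1.2⟩ hu2
    linarith [hu1.1]

theorem SRig3_var (h : TopIn K f d) {i : ι} {v : Rn 3} {l : Fin 3} {σ : ℝ} (ha : d.Arm i v l σ)
    {Λ : Rn 3 → ℝ} {C : ℝ} (hC : 0 ≤ C) (hΛ : ∀ y y', |Λ y - Λ y'| ≤ C * ‖y - y'‖) {ψ : ℝ → ℝ}
    (hψ : ∀ u ∈ Icc (0 : ℝ) 16, ψ u = Λ (f (d.pt v l σ u) - (d.B i).aff (d.pt v l σ u))) :
    eVariationOn ψ (Icc 0 16) ≤ ENNReal.ofReal (C * d.ε' i) := by
  obtain ⟨he, -, -, -, -, hq⟩ := arm_edge h ha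
  have h1 := h.rvar i v _ he (Box.Q_mono h.s0 (by norm_num) ha.1)
    (Box.Q_mono h.s0 (by norm_num) (hq 16 (by simp)).2)
  set E : ℝ → Rn 3 := fun t => f (seg v (d.pt v l σ 16) t) -
    (d.B i).aff (seg v (d.pt v l σ 16) t) with hE
  have h2 := (eVariationOn.comp_le_of_monotoneOn E (fun u : ℝ => u / 16) (t := Icc 0 16)
    (s := Icc 0 1) (fun x _ y _ hxy => by simp only; linarith)
    (fun t ht => ⟨by linarith [ht.1], by linarith [ht.2]⟩)).trans h1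
  have hl : LipschitzWith (Real.toNNReal C) Λ := by
    refine LipschitzWith.of_dist_le_mul fun y y' => ?_
    rw [Real.coe_toNNReal _ hC, Real.dist_eq, dist_eq_norm]
    exact hΛ y y'
  have h3 := (hl.lipschitzOnWith (s := univ)).comp_eVariationOn_le
    (g := E ∘ fun u : ℝ => u / 16) (s := Icc 0 16) (mapsTo_univ _ _)
  have e : EqOn ψ (Λ ∘ E ∘ fun u : ℝ => u / 16) (Icc 0 16) := by
    intro u hu
    have : seg v (d.pt v l σ 16) (u / 16) = d.pt v l σ u := by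
      simp only [seg, TopD.pt, add_sub_cancel_left, smul_smul]
      congr 2
      ring
    rw [hψ u hu]
    simp only [comp, hE, this]
  rw [eVariationOn.congr e, ENNReal.ofReal_mul hC]
  exact h3.trans (mul_le_mul_right h2 _)

theorem SRig3_cont (h : TopIn K f d) {i : ι} {v : Rn 3} {l : Fin 3} {σ : ℝ}
    (ha : d.Arm i v l σ) : ContinuousOn (fun u => f (d.pt v l σ u)) (Icc 0 16) := by
  obtain ⟨-, -, -, -, -, hq⟩ := arm_edge h ha
  refine h.cont.comp (f := fun u => d.pt v l σ u) ?_ fun u hu => (hq u hu).1.1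
  unfold TopD.pt
  fun_prop

theorem SRig3_inner (h : TopIn K f d) {i : ι} {L : Rn 3 ≃L[ℝ] Rn 3}
    (hL : Nm (d.B i) d.s (d.ε i) L) {v : Rn 3} {l : Fin 3} {σ : ℝ} (ha : d.Arm i v l σ) :
    ∃ t ∈ Icc (7 : ℝ) 9, Up1 (fun u => σ * nc (d.B i) d.s L (f (d.pt v l σ u)) l) t := by
  obtain ⟨hw0, hw1, hd0, hd1, -, -⟩ := rig_small h i
  obtain ⟨-, -, -, -, -, hq⟩ := arm_edge h ha
  have hs := h.s0
  have hε := (h.ε0 i).1
  have hσ : σ * σ = 1 := by rcases ha.2.2.2 with rfl | rfl <;> norm_num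
  have hσ' : |σ| = 1 := by rcases ha.2.2.2 with rfl | rfl <;> norm_num
  refine once_up (a := 1) (η := d.dl i) ?_ hd0.le one_pos ?_ (by norm_num) (by norm_num)
    (by linarith only [hw1, hd0, hd1])
  · have h1 := (lh_nc (B := d.B i) (L := L) hs).2.1.continuous
    exact continuousOn_const.mul
      ((continuous_apply l).comp_continuousOn (h1.comp_continuousOn (SRig3_cont h ha)))
  · have e : d.dl i = 3 / (1000 * d.ε i) * d.ε' i := by
      unfold TopD.dl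
      ring
    rw [e]
    refine SRig3_var h ha (Λ := fun y => σ * (d.s⁻¹ • L.symm y) l + σ * (d.s⁻¹ * v l))
      (by positivity) (fun y y' => ?_) fun u hu => ?_
    · have h1 := hL.le hs y y'
      rw [nc_sub] at h1
      have h2 : σ * (d.s⁻¹ • L.symm y) l + σ * (d.s⁻¹ * v l) -
          (σ * (d.s⁻¹ • L.symm y') l + σ * (d.s⁻¹ * v l)) =
          σ * (d.s⁻¹ • L.symm (y - y')) l := by
        simp only [map_sub, Pi.smul_apply, Pi.sub_apply, smul_eq_mul]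
        ring
      rw [h2, abs_mul, hσ', one_mul, div_mul_eq_mul_div, le_div_iff₀ (by positivity)]
      have h3 := norm_le_pi_norm (d.s⁻¹ • L.symm (y - y')) l
      rw [Real.norm_eq_abs] at h3
      linarith only [h1, h3, hε, mul_le_mul_of_nonneg_left h3 (show 0 ≤ 1000 * d.ε i by positivity)]
    · rw [← nc_sub (B := d.B i), hL.aff (hq u hu).2.1]
      simp only [Pi.sub_apply, Pi.smul_apply, TopD.pt, Pi.add_apply, Pi.single_eq_same,
        smul_eq_mul, mul_one]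
      have : σ * (d.s⁻¹ * (v l + u * d.s * σ)) = σ * (d.s⁻¹ * v l) + u := by
        field_simp
        linear_combination (u * d.s) * hσ
      linarith only [this]

theorem SRig3_frame (h : TopIn K f d) (i : ι) (L : Rn 3 ≃L[ℝ] Rn 3) (l : Fin 3) :
    ∃ M : Rn 3 ≃L[ℝ] Rn 3, ∀ y, (d.s⁻¹ • L.symm (M y)) l = d.ww i / 2 * y 2 ∧
      ‖hz l (d.s⁻¹ • L.symm (M y))‖ = d.ww i / 2 * ‖hz 2 y‖ := by
  obtain ⟨hw0, -⟩ := rig_small h i
  have hs := h.s0
  obtain ⟨M, hM⟩ := frame_exists l (c := d.s * (d.ww i / 2)) (by positivity)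
  refine ⟨M.trans L, fun y => ?_⟩
  have e : L.symm ((M.trans L) y) = M y := by simp
  have e2 : hz l (d.s⁻¹ • M y) = d.s⁻¹ • hz l (M y) := by
    funext k
    by_cases hk : k = l
    · subst hk; simp [hz]
    · simp [hz, update_of_ne hk]
  rw [e, e2, norm_smul, (hM y).2, Pi.smul_apply, (hM y).1, Real.norm_eq_abs,
    abs_of_pos (inv_pos.2 hs), smul_eq_mul]
  constructor <;> field_simp

theorem SRig3_exit (h : TopIn K f d) {i : ι} {v : Rn 3} {l : Fin 3} {σ : ℝ}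
    (ha : d.Arm i v l σ) : ∃ (j : Fin 3) (τ : ℝ), (τ = 1 ∨ τ = -1) ∧
      τ * σ * (d.B i).A (Pi.single l 1 : Rn 3) j = ‖(d.B i).A (Pi.single l 1 : Rn 3)‖ ∧
      ∃ t ∈ Icc (3 : ℝ) (7 / 2), Up1 (fun u => τ * f (d.pt v l σ u) j) t := by
  obtain ⟨-, -, -, -, he, -⟩ := rig_small h i
  have hs := h.s0
  have hε := (h.ε0 i).1
  have hε' := (h.ε0 i).2
  set w : Rn 3 := (d.B i).A (Pi.single l 1 : Rn 3) with hw
  obtain ⟨j, -, hj⟩ := Finset.exists_max_image (Finset.univ : Finset (Fin 3)) (fun k => |w k|)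
    Finset.univ_nonempty
  have hj' : |w j| = ‖w‖ := by
    refine le_antisymm (norm_le_pi_norm w j) ?_
    exact (pi_norm_le_iff_of_nonneg (abs_nonneg _)).2 fun k => hj k (Finset.mem_univ _)
  obtain ⟨τ, hτ, hτw⟩ : ∃ τ : ℝ, (τ = 1 ∨ τ = -1) ∧ τ * σ * w j = ‖w‖ := by
    rw [← hj']
    rcases le_total 0 (w j) with h1 | h1
    · rw [abs_of_nonneg h1]
      rcases ha.2.2.2 with rfl | rfl
      · exact ⟨1, Or.inl rfl, by ring⟩
      · exact ⟨-1, Or.inr rfl, by ring⟩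
    · rw [abs_of_nonpos h1]
      rcases ha.2.2.2 with rfl | rfl
      · exact ⟨-1, Or.inr rfl, by ring⟩
      · exact ⟨1, Or.inl rfl, by ring⟩
  have hτ' : |τ| = 1 := by rcases hτ with rfl | rfl <;> norm_num
  have hlow := h.low i (Pi.single l 1 : Rn 3) (fun k hk => by
    have : k ≠ l := fun e => hk (e ▸ ha.2.2.1)
    exact Pi.single_eq_of_ne this _)
  have hn : ‖(Pi.single l 1 : Rn 3)‖ = 1 := by rw [Pi.norm_single]; simp
  have hlow' : 1000 * d.ε i ≤ d.s * ‖w‖ := by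
    have : 1000 * d.ε i * ‖(Pi.single l 1 : Rn 3)‖ ≤ d.s * ‖w‖ := hlow
    rwa [hn, mul_one] at this
  refine ⟨j, τ, hτ, hτw, once_up (a := d.s * ‖w‖) (η := 1 * d.ε' i) ?_ (by positivity)
    (by linarith) ?_ (by norm_num) (by norm_num) (by linarith only [he, hε', hlow'])⟩
  · exact continuousOn_const.mul ((continuous_apply j).comp_continuousOn (SRig3_cont h ha))
  · refine SRig3_var h ha (Λ := fun y => τ * y j + τ * (d.B i).aff v j) zero_le_one
      (fun y y' => ?_) fun u _ => ?_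
    · have h2 : τ * y j + τ * (d.B i).aff v j - (τ * y' j + τ * (d.B i).aff v j) =
          τ * (y - y') j := by
        simp only [Pi.sub_apply]
        ring
      rw [h2, abs_mul, hτ']
      have h3 := norm_le_pi_norm (y - y') j
      rw [Real.norm_eq_abs] at h3
      linarith
    · have e : (d.B i).aff (d.pt v l σ u) = (d.B i).aff v + (u * d.s * σ) • w := by
        have : d.pt v l σ u - (d.B i).c =
            (v - (d.B i).c) + (u * d.s * σ) • (Pi.single l 1 : Rn 3) := by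
          unfold TopD.pt
          abel
        unfold Box.aff
        rw [this, map_add, map_smul]
        abel
      rw [e]
      simp only [Pi.sub_apply, Pi.add_apply, Pi.smul_apply, smul_eq_mul]
      linear_combination (u * d.s) * hτw

theorem SRig3_rev {φ ψ : ℝ → ℝ} {t : ℝ} (h : Up1 φ t) (e : ∀ u, ψ u = -φ (16 - u)) :
    Up1 ψ (16 - t) := by
  intro u hu
  have h1 := h (16 - u) ⟨by linarith [hu.2], by linarith [hu.1]⟩
  rw [e, e, sub_sub_cancel]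
  exact ⟨fun k => by linarith [h1.2 (by linarith)], fun k => by linarith [h1.1 (by linarith)]⟩

theorem SRig3_pt0 (v : Rn 3) (l : Fin 3) (σ : ℝ) : d.pt v l σ 0 = v := by
  simp [TopD.pt]

theorem mks_exists (h : TopIn K f d) {L : ι → Rn 3 ≃L[ℝ] Rn 3}
    (hL : ∀ i, Nm (d.B i) d.s (d.ε i) (L i)) : ∃ m M j τ, MkS f d L m M j τ := by
  have key : ∀ e : Set (Rn 3), ∃ (m : Rn 3) (M : Rn 3 ≃L[ℝ] Rn 3) (j : Fin 3) (τ : ℝ),
      (∀ i v l σ, d.InE i v l σ → d.ed v l σ = e → (∃ t ∈ Icc (7 : ℝ) 9, m = d.pt v l σ t ∧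
        Up1 (fun u => σ * nc (d.B i) d.s (L i) (f (d.pt v l σ u)) l) t) ∧
        ∀ y, (d.s⁻¹ • (L i).symm (M y)) l = d.ww i / 2 * y 2 ∧
          ‖hz l (d.s⁻¹ • (L i).symm (M y))‖ = d.ww i / 2 * ‖hz 2 y‖) ∧
      ∀ i v l σ, d.ExE i v l σ → d.ed v l σ = e → (τ = 1 ∨ τ = -1) ∧
        τ * σ * (d.B i).A (Pi.single l 1 : Rn 3) j = ‖(d.B i).A (Pi.single l 1 : Rn 3)‖ ∧
        ∃ t ∈ Icc (3 : ℝ) (7 / 2), m = d.pt v l σ t ∧
          Up1 (fun u => τ * f (d.pt v l σ u) j) t := by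
    intro e
    by_cases h1 : ∃ i v l σ, d.InE i v l σ ∧ d.ed v l σ = e
    · obtain ⟨i, v, l, σ, ha, he⟩ := h1
      obtain ⟨t, ht, hU⟩ := SRig3_inner h (hL i) ha.1
      obtain ⟨M, hM⟩ := SRig3_frame h i (L i) l
      obtain ⟨-, -, hr⟩ := ine_rev h ha
      refine ⟨d.pt v l σ t, M, 0, 1, fun i' v' l' σ' ha' he' => ?_,
        fun i' v' l' σ' ha' he' => ?_⟩
      · obtain ⟨rfl, rfl, ⟨rfl, rfl⟩ | ⟨rfl, rfl⟩⟩ := ed_uniq h ha.1 ha'.1 (he.trans he'.symm)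
        · exact ⟨⟨t, ht, rfl, hU⟩, hM⟩
        · refine ⟨⟨16 - t, ⟨by linarith [ht.2], by linarith [ht.1]⟩, ?_,
            SRig3_rev hU fun u => ?_⟩, hM⟩
          · rw [hr, sub_sub_cancel]
          · rw [hr]
            ring
      · exfalso
        obtain ⟨rfl, rfl, ⟨rfl, rfl⟩ | ⟨rfl, rfl⟩⟩ := ed_uniq h ha.1 ha'.1 (he.trans he'.symm)
        · exact ha'.2 ha.2
        · apply ha'.2
          rw [hr, sub_self, SRig3_pt0]
          exact ha.1.1
    by_cases h2 : ∃ i v l σ, d.ExE i v l σ ∧ d.ed v l σ = e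
    · obtain ⟨i, v, l, σ, ha, he⟩ := h2
      obtain ⟨j, τ, hτ, hw, t, ht, hU⟩ := SRig3_exit h ha.1
      refine ⟨d.pt v l σ t, ContinuousLinearEquiv.refl ℝ _, j, τ,
        fun i' v' l' σ' ha' he' => (h1 ⟨i', v', l', σ', ha', he'⟩).elim,
        fun i' v' l' σ' ha' he' => ?_⟩
      obtain ⟨rfl, rfl, ⟨rfl, rfl⟩ | ⟨rfl, rfl⟩⟩ := ed_uniq h ha.1 ha'.1 (he.trans he'.symm)
      · exact ⟨hτ, hw, t, ht, rfl, hU⟩
      · exact (ha.2 ha'.1.1).elim
    · exact ⟨0, ContinuousLinearEquiv.refl ℝ _, 0, 1,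
        fun i' v' l' σ' ha' he' => (h1 ⟨i', v', l', σ', ha', he'⟩).elim,
        fun i' v' l' σ' ha' he' => (h2 ⟨i', v', l', σ', ha', he'⟩).elim⟩
  choose m M j τ H using key
  exact ⟨m, M, j, τ, fun i v l σ ha => (H _).1 i v l σ ha rfl,
    fun i v l σ ha => (H _).2 i v l σ ha rfl⟩

end BEp
end
end

-- merged part: Pool.Agent.Work.MP_f0515e_an.D3.GBox
section
/-! Boxes of a cubical grid cut by walls.

`cn o δ z` is the lower corner of the grid cube containing `z`. `Y` is a set of gates, `P y` the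
image of the gate `y`, `r y` its radius, `k y` its coordinate and `s y = ±1` the good side.
The cube of `z` is cut by the wall of `y` when its corner is `r y`-close to `P y` (there is at most
one such `y`). All proofs are elementary: `Int.floor_le`, `Int.lt_floor_add_one`,
`Int.floor_eq_iff`, `pi_norm_le_iff_of_nonneg`, `interior_pi_set` or `Pi.interior_Icc`-type
arguments (a point of the interior of `Icc lo hi` satisfies strict inequalities). -/

open Set Metric Filter Topology Function BEv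
open scoped NNReal ENNReal

noncomputable section
namespace BEp

def cn (o : Rn 3) (δ : ℝ) (z : Rn 3) : Rn 3 := fun l => o l + δ * (⌊(z l - o l) / δ⌋ : ℤ)

/-- Data of a cut grid. -/
structure CG where
  o : Rn 3
  δ : ℝ
  Y : Set (Rn 3)
  P : Rn 3 → Rn 3
  r : Rn 3 → ℝ
  k : Rn 3 → Fin 3
  s : Rn 3 → ℝ

namespace CG
variable (c : CG)

def nr (z : Rn 3) : Set (Rn 3) := {y | y ∈ c.Y ∧ ‖cn c.o c.δ z - c.P y‖ ≤ c.r y}

open Classical in
def lo (z : Rn 3) : Rn 3 := fun l =>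
  if h : ∃ y ∈ c.nr z, c.k y = l ∧ c.s y = 1 then max (cn c.o c.δ z l) (c.P h.choose l)
  else cn c.o c.δ z l

open Classical in
def hi (z : Rn 3) : Rn 3 := fun l =>
  if h : ∃ y ∈ c.nr z, c.k y = l ∧ c.s y = -1 then min (cn c.o c.δ z l + c.δ) (c.P h.choose l)
  else cn c.o c.δ z l + c.δ

/-- `z` is on no grid plane. -/
def Off (z : Rn 3) : Prop := ∀ l, ∀ n : ℤ, z l ≠ c.o l + c.δ * n

/-- `z` is on the good side of all near gates. -/
def Good (z : Rn 3) : Prop :=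
  ∀ y ∈ c.Y, ‖z - c.P y‖ < 2 * c.r y → 0 < c.s y * (z (c.k y) - c.P y (c.k y))

structure Ok : Prop where
  δ0 : 0 < c.δ
  δr : ∀ y ∈ c.Y, 4 * c.δ ≤ c.r y
  sgn : ∀ y ∈ c.Y, c.s y = 1 ∨ c.s y = -1
  sep : ∀ y ∈ c.Y, ∀ y' ∈ c.Y, y ≠ y' → 2 * c.r y + 2 * c.r y' ≤ ‖c.P y - c.P y'‖

variable {c}

theorem GBox_le (h : 0 < c.δ) (z : Rn 3) (l : Fin 3) :
    cn c.o c.δ z l ≤ z l ∧ z l < cn c.o c.δ z l + c.δ := by
  have h1 := Int.floor_le ((z l - c.o l) / c.δ)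
  have h2 := Int.lt_floor_add_one ((z l - c.o l) / c.δ)
  rw [le_div_iff₀ h] at h1
  rw [div_lt_iff₀ h] at h2
  simp only [cn]
  constructor <;> linarith only [h1, h2]

theorem GBox_lo (z : Rn 3) (l : Fin 3) : c.lo z l = cn c.o c.δ z l ∨
    ∃ y ∈ c.nr z, c.k y = l ∧ c.s y = 1 ∧ c.lo z l = max (cn c.o c.δ z l) (c.P y l) := by
  unfold lo
  split_ifs with h
  · exact Or.inr ⟨_, h.choose_spec.1, h.choose_spec.2.1, h.choose_spec.2.2, rfl⟩
  · exact Or.inl rfl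

theorem GBox_hi (z : Rn 3) (l : Fin 3) : c.hi z l = cn c.o c.δ z l + c.δ ∨
    ∃ y ∈ c.nr z, c.k y = l ∧ c.s y = -1 ∧
      c.hi z l = min (cn c.o c.δ z l + c.δ) (c.P y l) := by
  unfold hi
  split_ifs with h
  · exact Or.inr ⟨_, h.choose_spec.1, h.choose_spec.2.1, h.choose_spec.2.2, rfl⟩
  · exact Or.inl rfl

theorem GBox_uniq (h : c.Ok) {z y y' : Rn 3} (hy : y ∈ c.nr z) (hy' : y' ∈ c.nr z) : y = y' := by
  by_contra hne
  have h1 := h.sep y hy.1 y' hy'.1 hne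
  have h2 := h.δr y hy.1
  have h3 := h.δr y' hy'.1
  have h4 := h.δ0
  have h5 : ‖c.P y - c.P y'‖ ≤ ‖cn c.o c.δ z - c.P y'‖ + ‖cn c.o c.δ z - c.P y‖ := by
    have : c.P y - c.P y' = (cn c.o c.δ z - c.P y') - (cn c.o c.δ z - c.P y) := by abel
    rw [this]
    exact norm_sub_le _ _
  have h6 := hy.2
  have h7 := hy'.2
  linarith

theorem GBox_lo_of (h : c.Ok) {z y : Rn 3} (hy : y ∈ c.nr z) (hs : c.s y = 1) :
    c.lo z (c.k y) = max (cn c.o c.δ z (c.k y)) (c.P y (c.k y)) := by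
  have he : ∃ y' ∈ c.nr z, c.k y' = c.k y ∧ c.s y' = 1 := ⟨y, hy, rfl, hs⟩
  unfold lo
  rw [dif_pos he, GBox_uniq h he.choose_spec.1 hy]

theorem GBox_hi_of (h : c.Ok) {z y : Rn 3} (hy : y ∈ c.nr z) (hs : c.s y = -1) :
    c.hi z (c.k y) = min (cn c.o c.δ z (c.k y) + c.δ) (c.P y (c.k y)) := by
  have he : ∃ y' ∈ c.nr z, c.k y' = c.k y ∧ c.s y' = -1 := ⟨y, hy, rfl, hs⟩
  unfold hi
  rw [dif_pos he, GBox_uniq h he.choose_spec.1 hy]

theorem GBox_nrm (h : 0 < c.δ) {z p : Rn 3}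
    (hp : ∀ l, cn c.o c.δ z l ≤ p l ∧ p l ≤ cn c.o c.δ z l + c.δ) :
    ‖p - cn c.o c.δ z‖ ≤ c.δ := by
  rw [pi_norm_le_iff_of_nonneg h.le]
  intro l
  rw [Pi.sub_apply, Real.norm_eq_abs, abs_le]
  have := hp l
  constructor <;> linarith [this.1, this.2]

/-- A good point of the closed cube lies beyond every wall of the cube. -/
theorem GBox_good (h : c.Ok) {z p y : Rn 3} (h2 : c.Good p)
    (hp : ∀ l, cn c.o c.δ z l ≤ p l ∧ p l ≤ cn c.o c.δ z l + c.δ) (hy : y ∈ c.nr z) :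
    0 < c.s y * (p (c.k y) - c.P y (c.k y)) := by
  apply h2 y hy.1
  have h3 := GBox_nrm h.δ0 hp
  have h4 : ‖p - c.P y‖ ≤ ‖p - cn c.o c.δ z‖ + ‖cn c.o c.δ z - c.P y‖ :=
    norm_sub_le_norm_sub_add_norm_sub _ _ _
  have h5 := hy.2
  have h6 := h.δr y hy.1
  have h7 := h.δ0
  linarith

theorem GBox_lo_cmp (h : c.Ok) {z p : Rn 3} (h2 : c.Good p)
    (hp : ∀ l, cn c.o c.δ z l ≤ p l ∧ p l ≤ cn c.o c.δ z l + c.δ) (l : Fin 3) :
    (cn c.o c.δ z l < p l → c.lo z l < p l) ∧ (p l = cn c.o c.δ z l → p l = c.lo z l) := by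
  rcases GBox_lo (c := c) z l with e | ⟨y, hy, rfl, hs, e⟩
  · rw [e]; exact ⟨id, id⟩
  · have h3 := GBox_good h h2 hp hy
    rw [hs] at h3
    rw [e]
    refine ⟨fun h4 => max_lt h4 (by linarith), fun h4 => ?_⟩
    rw [max_eq_left (by linarith)]
    exact h4

theorem GBox_hi_cmp (h : c.Ok) {z p : Rn 3} (h2 : c.Good p)
    (hp : ∀ l, cn c.o c.δ z l ≤ p l ∧ p l ≤ cn c.o c.δ z l + c.δ) (l : Fin 3) :
    (p l < cn c.o c.δ z l + c.δ → p l < c.hi z l) ∧
      (p l = cn c.o c.δ z l + c.δ → p l = c.hi z l) := by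
  rcases GBox_hi (c := c) z l with e | ⟨y, hy, rfl, hs, e⟩
  · rw [e]; exact ⟨id, id⟩
  · have h3 := GBox_good h h2 hp hy
    rw [hs] at h3
    rw [e]
    refine ⟨fun h4 => lt_min h4 (by linarith), fun h4 => ?_⟩
    rw [min_eq_left (by linarith)]
    exact h4

theorem GBox_off (h : 0 < c.δ) {z : Rn 3} (h1 : c.Off z) (l : Fin 3) :
    cn c.o c.δ z l < z l :=
  lt_of_le_of_ne (GBox_le h z l).1 (fun e => h1 l _ e.symm)

theorem eq_of_cn {z z' : Rn 3} (h : cn c.o c.δ z = cn c.o c.δ z') :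
    c.lo z = c.lo z' ∧ c.hi z = c.hi z' := by
  have hn : c.nr z = c.nr z' := by unfold nr; rw [h]
  constructor
  · funext l
    unfold lo
    rw [hn, h]
  · funext l
    unfold hi
    rw [hn, h]

theorem sub_cube (z : Rn 3) (l : Fin 3) :
    cn c.o c.δ z l ≤ c.lo z l ∧ c.hi z l ≤ cn c.o c.δ z l + c.δ := by
  constructor
  · rcases GBox_lo (c := c) z l with e | ⟨y, -, -, -, e⟩
    · exact e.ge
    · rw [e]; exact le_max_left _ _
  · rcases GBox_hi (c := c) z l with e | ⟨y, -, -, -, e⟩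
    · exact e.le
    · rw [e]; exact min_le_left _ _

theorem inb (h : c.Ok) {z : Rn 3} (h1 : c.Off z) (h2 : c.Good z) (l : Fin 3) :
    c.lo z l < z l ∧ z l < c.hi z l := by
  have hp : ∀ l, cn c.o c.δ z l ≤ z l ∧ z l ≤ cn c.o c.δ z l + c.δ :=
    fun l => ⟨(GBox_le h.δ0 z l).1, (GBox_le h.δ0 z l).2.le⟩
  exact ⟨(GBox_lo_cmp h h2 hp l).1 (GBox_off h.δ0 h1 l),
    (GBox_hi_cmp h h2 hp l).1 (GBox_le h.δ0 z l).2⟩

theorem size (h : c.Ok) {z : Rn 3} (h1 : c.Off z) (h2 : c.Good z) : ‖c.hi z - c.lo z‖ ≤ c.δ := by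
  rw [pi_norm_le_iff_of_nonneg h.δ0.le]
  intro l
  have h3 := inb h h1 h2 l
  have h4 := sub_cube (c := c) z l
  rw [Pi.sub_apply, Real.norm_eq_abs, abs_le]
  constructor <;> linarith only [h3, h4, h3.1, h3.2, h4.1, h4.2, h.δ0]

/-- Two boxes of one grid coincide or have disjoint interiors. -/
theorem dis (h : c.Ok) (z z' : Rn 3) : (c.lo z = c.lo z' ∧ c.hi z = c.hi z') ∨
    Disjoint (interior (Icc (c.lo z) (c.hi z))) (Icc (c.lo z') (c.hi z')) := by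
  by_cases e : cn c.o c.δ z = cn c.o c.δ z'
  · exact Or.inl (eq_of_cn e)
  right
  rw [Set.disjoint_left]
  intro u hu hu'
  apply e
  funext l
  have h1 : u l ∈ interior (Icc (c.lo z l) (c.hi z l)) := by
    have h2 := (isOpenMap_eval (X := fun _ : Fin 3 => ℝ) l).image_interior_subset
      (Icc (c.lo z) (c.hi z)) ⟨u, hu, rfl⟩
    refine interior_mono ?_ h2
    rintro _ ⟨v, hv, rfl⟩
    exact ⟨hv.1 l, hv.2 l⟩
  rw [interior_Icc] at h1
  have h2 := sub_cube (c := c) z l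
  have h3 := sub_cube (c := c) z' l
  have h4 := hu'.1 l
  have h5 := hu'.2 l
  have h6 := h.δ0
  simp only [cn] at h2 h3 ⊢
  set m := ⌊(z l - c.o l) / c.δ⌋
  set m' := ⌊(z' l - c.o l) / c.δ⌋
  have h7 : (m : ℝ) < m' + 1 := by
    by_contra hc
    push Not at hc
    linarith only [h5, h2, h3, h1, hc, h6, h1.1, h2.1, h3.2, mul_le_mul_of_nonneg_left hc h6.le]
  have h8 : (m' : ℝ) < m + 1 := by
    by_contra hc
    push Not at hc
    linarith only [h4, h2, h3, h1, hc, h6, h1.2, h2.2, h3.1, mul_le_mul_of_nonneg_left hc h6.le]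
  have h9 : m < m' + 1 := by exact_mod_cast h7
  have h10 : m' < m + 1 := by exact_mod_cast h8
  have : m = m' := by omega
  rw [this]

/-- The corner is constant on connected sets missing the planes. -/
theorem cn_const (h : c.Ok) {A : Set (Rn 3)} (hA : IsPreconnected A) (h1 : ∀ z ∈ A, c.Off z)
    {z z' : Rn 3} (hz : z ∈ A) (hz' : z' ∈ A) : cn c.o c.δ z = cn c.o c.δ z' := by
  have key : ∀ z ∈ A, ∀ z' ∈ A, ∀ l,
      ¬ ⌊(z l - c.o l) / c.δ⌋ < ⌊(z' l - c.o l) / c.δ⌋ := by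
    intro z hz z' hz' l hlt
    have hc : ContinuousOn (fun u : Rn 3 => (u l - c.o l) / c.δ) A := by fun_prop
    have h2 := hA.intermediate_value hz hz' hc
    have h3 : ((⌊(z' l - c.o l) / c.δ⌋ : ℤ) : ℝ) ∈
        Icc ((z l - c.o l) / c.δ) ((z' l - c.o l) / c.δ) := by
      refine ⟨?_, Int.floor_le _⟩
      have h4 := Int.lt_floor_add_one ((z l - c.o l) / c.δ)
      have h5 : ((⌊(z l - c.o l) / c.δ⌋ : ℤ) : ℝ) + 1 ≤ (⌊(z' l - c.o l) / c.δ⌋ : ℤ) := by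
        exact_mod_cast hlt
      linarith only [h4, h5]
    obtain ⟨u, hu, e⟩ := h2 h3
    apply h1 u hu l ⌊(z' l - c.o l) / c.δ⌋
    have h6 := h.δ0
    simp only at e
    rw [← e]
    field_simp
    ring
  funext l
  have e : ⌊(z l - c.o l) / c.δ⌋ = ⌊(z' l - c.o l) / c.δ⌋ :=
    le_antisymm (not_lt.1 (key z' hz' z hz l)) (not_lt.1 (key z hz z' hz' l))
  simp only [cn, e]

/-- Near a gate the box lies on the good side. -/
theorem cut (h : c.Ok) {y z : Rn 3} (hy : y ∈ c.Y) (hz : ‖z - c.P y‖ ≤ c.r y / 2) :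
    ∀ u ∈ Icc (c.lo z) (c.hi z), 0 ≤ c.s y * (u (c.k y) - c.P y (c.k y)) := by
  have hn : y ∈ c.nr z := by
    refine ⟨hy, ?_⟩
    have h3 := GBox_nrm h.δ0 (z := z) (p := z)
      (fun l => ⟨(GBox_le h.δ0 z l).1, (GBox_le h.δ0 z l).2.le⟩)
    have h4 : ‖cn c.o c.δ z - c.P y‖ ≤ ‖cn c.o c.δ z - z‖ + ‖z - c.P y‖ :=
      norm_sub_le_norm_sub_add_norm_sub _ _ _
    rw [norm_sub_rev] at h3
    have h5 := h.δr y hy
    have h6 := h.δ0
    linarith only [hz, h3, h4, h5, h6]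
  intro u hu
  rcases h.sgn y hy with hs | hs
  · have h1 := hu.1 (c.k y)
    rw [GBox_lo_of h hn hs] at h1
    have := le_max_right (cn c.o c.δ z (c.k y)) (c.P y (c.k y))
    rw [hs]; linarith
  · have h1 := hu.2 (c.k y)
    rw [GBox_hi_of h hn hs] at h1
    have := min_le_right (cn c.o c.δ z (c.k y) + c.δ) (c.P y (c.k y))
    rw [hs]; linarith

/-- The image of a gate lies inside a facet of the adjacent box. -/
theorem fac_gate (h : c.Ok) {y z : Rn 3} (hy : y ∈ c.Y) (h1 : c.Off (c.P y))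
    (hz : cn c.o c.δ z = cn c.o c.δ (c.P y)) :
    (∀ l, l ≠ c.k y → c.lo z l < c.P y l ∧ c.P y l < c.hi z l) ∧
      (c.P y (c.k y) = c.lo z (c.k y) ∨ c.P y (c.k y) = c.hi z (c.k y)) := by
  have hb : ∀ l, cn c.o c.δ z l < c.P y l ∧ c.P y l < cn c.o c.δ z l + c.δ := by
    intro l
    rw [hz]
    exact ⟨GBox_off h.δ0 h1 l, (GBox_le h.δ0 _ l).2⟩
  have hn : y ∈ c.nr z := by
    refine ⟨hy, ?_⟩
    have h3 := GBox_nrm h.δ0 (z := z) (p := c.P y) (fun l => ⟨(hb l).1.le, (hb l).2.le⟩)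
    rw [norm_sub_rev] at h3
    have h5 := h.δr y hy
    have h6 := h.δ0
    linarith
  refine ⟨fun l hl => ⟨?_, ?_⟩, ?_⟩
  · rcases GBox_lo (c := c) z l with e | ⟨y', hy', hk, -, -⟩
    · rw [e]; exact (hb l).1
    · exact absurd (by rw [← hk, GBox_uniq h hy' hn]) hl
  · rcases GBox_hi (c := c) z l with e | ⟨y', hy', hk, -, -⟩
    · rw [e]; exact (hb l).2
    · exact absurd (by rw [← hk, GBox_uniq h hy' hn]) hl
  · rcases h.sgn y hy with hs | hs
    · left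
      rw [GBox_lo_of h hn hs, max_eq_right (hb _).1.le]
    · right
      rw [GBox_hi_of h hn hs, min_eq_right (hb _).2.le]

/-- A good point `p` on exactly one grid plane, in the closure of a set `A` of points with the
corner of `z`, lies inside a facet of the box of `z`. -/
theorem fac_grid (h : c.Ok) {z p : Rn 3} {A : Set (Rn 3)} {l₀ : Fin 3}
    (hA : ∀ u ∈ A, cn c.o c.δ u = cn c.o c.δ z) (hp : p ∈ closure A) (h2 : c.Good p)
    (h0 : ∃ n : ℤ, p l₀ = c.o l₀ + c.δ * n) (h1 : ∀ l, l ≠ l₀ → ∀ n : ℤ, p l ≠ c.o l + c.δ * n) :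
    (∀ l, l ≠ l₀ → c.lo z l < p l ∧ p l < c.hi z l) ∧
      (p l₀ = c.lo z l₀ ∨ p l₀ = c.hi z l₀) := by
  have hb : ∀ l, cn c.o c.δ z l ≤ p l ∧ p l ≤ cn c.o c.δ z l + c.δ := by
    intro l
    have hc : IsClosed {u : Rn 3 | cn c.o c.δ z l ≤ u l ∧ u l ≤ cn c.o c.δ z l + c.δ} :=
      (isClosed_le continuous_const (continuous_apply l)).inter
        (isClosed_le (continuous_apply l) continuous_const)
    refine hc.closure_subset_iff.2 (fun u hu => ?_) hp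
    have := GBox_le h.δ0 u l
    rw [hA u hu] at this
    exact ⟨this.1, this.2.le⟩
  refine ⟨fun l hl => ⟨(GBox_lo_cmp h h2 hb l).1 ?_, (GBox_hi_cmp h h2 hb l).1 ?_⟩, ?_⟩
  · exact lt_of_le_of_ne (hb l).1 (fun e => h1 l hl _ e.symm)
  · refine lt_of_le_of_ne (hb l).2 (fun e => h1 l hl (⌊(z l - c.o l) / c.δ⌋ + 1) ?_)
    rw [e]
    simp only [cn]
    push_cast
    ring
  · obtain ⟨n, hn⟩ := h0
    have h3 := hb l₀
    have h6 := h.δ0
    have h7 : n = ⌊(z l₀ - c.o l₀) / c.δ⌋ ∨ n = ⌊(z l₀ - c.o l₀) / c.δ⌋ + 1 := by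
      simp only [cn] at h3
      set m := ⌊(z l₀ - c.o l₀) / c.δ⌋
      have h8 : (m : ℝ) ≤ n := by
        by_contra hc
        push Not at hc
        linarith only [hn, h3, hc, h6, h3.1, mul_lt_mul_of_pos_left hc h6]
      have h9 : (n : ℝ) ≤ m + 1 := by
        by_contra hc
        push Not at hc
        linarith only [hn, h3, hc, h6, h3.2, mul_lt_mul_of_pos_left hc h6]
      have h10 : m ≤ n := by exact_mod_cast h8
      have h11 : n ≤ m + 1 := by exact_mod_cast h9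
      omega
    rcases h7 with e | e
    · left
      apply (GBox_lo_cmp h h2 hb l₀).2
      rw [hn, e]
      rfl
    · right
      apply (GBox_hi_cmp h h2 hb l₀).2
      rw [hn, e]
      simp only [cn]
      push_cast
      ring

end CG

end BEp
end
end

-- merged part: Pool.Agent.Work.MP_f0515e_an.D3.GMul
section
/-! Marks and boxes for a graph cut into groups.

Plan. Take `r` from `radii`, `δ` from `gaps`, and for each group `g` the offset `o g` of `grid3` for the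
finite family `t ↦ f (seg (a i) (b i) t)`, `gp i = g`. `c g : CG` has `Y` = gates lying on a segment of
the group, `P = f`, `r`, `k0`, `s g`; it is `Ok`. `Mk = Bd ∪ {seg (a i) (b i) t | t ∈ hitT (coordinate k)
(o (gp i) k) (δ (gp i))}`; `kk y = k0 y` on `Bd`, otherwise a chosen `k` (unique: a point of an open
segment lies on no other segment, and the `hitT` are disjoint). `lo x = (c (G x)).lo (f x)`, where
`G x = gp i` for a chosen segment through `x`; off `Bd` this does not depend on the choice (`sepg`).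
For `x` on segment `i`: `x ∉ Mk` or `x` an end gives `Off (f x)`; `x ∉ Bd` gives `Good (f x)` (`iso`).
`cst`: `cn_const` on `f '' segment x y`. `fac`: `fac_gate` (all of `f '' segment x y` is `Off`) or
`fac_grid` with `A = f '' (segment x y \ {y})`. `opp`: points near `y` on the side of `x` have the box
of `x` and lie strictly inside it; the sign change `SC` excludes lo/lo and hi/hi.
`dis`: in one group `CG.dis`; for two groups a common point gives `‖f x - f x'‖ ≤ 2 max δ`, `gaps` gives a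
gate `y` near, `iso` puts it on both segments, `cut` (strict in the interior) and `sepg` contradict.
`far`: the same with `fs`. Count: marks in an open segment are not gates. -/

open Set Metric Filter Topology Function BEv
open scoped NNReal ENNReal

noncomputable section
namespace BEp

variable {Ω : Set (Rn 3)} {f : Rn 3 → Rn 3} {ι γ : Type} {a b : ι → Rn 3} {gp : ι → γ}
  {Vr η : ι → ℝ} {Bd F : Set (Rn 3)} {k0 : Rn 3 → Fin 3} {s : γ → Rn 3 → ℝ}

theorem GMul_line (p q : Rn 3) : seg p q = AffineMap.lineMap (k := ℝ) p q := funext fun t => by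
  rw [AffineMap.lineMap_apply_module', seg, add_comm]

theorem GMul_seg (p q : Rn 3) : segment ℝ p q = seg p q '' Icc 0 1 := segment_eq_image' ℝ p q

theorem GMul_oseg (p q : Rn 3) : openSegment ℝ p q = seg p q '' Ioo 0 1 :=
  openSegment_eq_image' ℝ p q

theorem GMul_inj {p q : Rn 3} (h : p ≠ q) : Injective (seg p q) := by
  rw [GMul_line]
  exact AffineMap.lineMap_injective ℝ h

theorem GMul_mem (p q : Rn 3) {t t₁ t₂ : ℝ} (h : t ∈ segment ℝ t₁ t₂) :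
    seg p q t ∈ segment ℝ (seg p q t₁) (seg p q t₂) := by
  rw [GMul_line, ← image_segment]
  exact mem_image_of_mem _ h

theorem GMul_sc {p q : Rn 3} (h : p ≠ q) {φ : Rn 3 → ℝ} {t t₁ t₂ : ℝ} (h1 : t₁ < t) (h2 : t < t₂)
    (hs : SC (fun t => φ (seg p q t)) t) :
    ∃ u ∈ segment ℝ (seg p q t₁) (seg p q t), ∃ v ∈ segment ℝ (seg p q t₂) (seg p q t),
      u ≠ seg p q t ∧ v ≠ seg p q t ∧ (φ u - φ (seg p q t)) * (φ v - φ (seg p q t)) < 0 := by
  obtain ⟨σ, hσ, ρ, hρ, H⟩ := hs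
  obtain ⟨e, e0, e1⟩ := exists_between (lt_min hρ (lt_min (sub_pos.2 h1) (sub_pos.2 h2)))
  simp only [lt_min_iff] at e1
  obtain ⟨k1, k2⟩ := H e e0 e1.1
  refine ⟨seg p q (t - e), GMul_mem p q ?_, seg p q (t + e), GMul_mem p q ?_,
    fun k => ?_, fun k => ?_, ?_⟩
  · rw [segment_eq_Icc h1.le]
    exact ⟨by linarith [e1.2.1], by linarith⟩
  · rw [segment_symm, segment_eq_Icc h2.le]
    exact ⟨by linarith, by linarith [e1.2.2]⟩
  · linarith [GMul_inj h k]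
  · linarith [GMul_inj h k]
  · rcases hσ with rfl | rfl <;> linarith only [k1, k2, mul_pos_of_neg_of_neg (Mathlib.Tactic.Linarith.sub_neg_of_lt k1) (Mathlib.Tactic.Linarith.sub_neg_of_lt k2)]

theorem GMul_int {lo hi u : Rn 3} (h : u ∈ interior (Icc lo hi)) (l : Fin 3) :
    lo l < u l ∧ u l < hi l := by
  rw [← pi_univ_Icc, interior_pi_set finite_univ] at h
  simpa only [interior_Icc, mem_Ioo] using h l (mem_univ l)

theorem GMul_strict {lo hi u : Rn 3} {σ p : ℝ} {k : Fin 3} (h : u ∈ interior (Icc lo hi))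
    (hσ : σ = 1 ∨ σ = -1) (H : ∀ v ∈ Icc lo hi, 0 ≤ σ * (v k - p)) : 0 < σ * (u k - p) := by
  have hl : lo ≤ hi := (interior_subset h).1.trans (interior_subset h).2
  have h1 := H lo (left_mem_Icc.2 hl)
  have h2 := H hi (right_mem_Icc.2 hl)
  have h3 := GMul_int h k
  rcases hσ with rfl | rfl <;> linarith only [h3, h1, h2, h3.1, h3.2]

theorem GMul_dist {lo hi u v : Rn 3} (hu : u ∈ Icc lo hi) (hv : v ∈ Icc lo hi) :
    ‖u - v‖ ≤ ‖hi - lo‖ := by
  refine (pi_norm_le_iff_of_nonneg (norm_nonneg _)).2 fun l => le_trans ?_ (norm_le_pi_norm _ l)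
  simp only [Pi.sub_apply, Real.norm_eq_abs]
  refine le_trans (abs_le.2 ⟨?_, ?_⟩) (le_abs_self _) <;> linarith [hu.1 l, hu.2 l, hv.1 l, hv.2 l]

theorem GMul_off (h : MulIn Ω f a b gp Vr η Bd F k0 s) {δ : γ → ℝ} (hδ : ∀ g, 0 < δ g) :
    ∃ o : γ → Rn 3,
      (∀ i k, (hitT (fun t => f (seg (a i) (b i) t) k) (o (gp i) k) (δ (gp i))).Finite) ∧
      (∀ i k, ∀ T : Finset ι, (∀ j, gp j = gp i → j ∈ T) → δ (gp i) *
        ((hitT (fun t => f (seg (a i) (b i) t) k) (o (gp i) k) (δ (gp i))).ncard : ℝ) ≤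
          2 * ∑ j ∈ T, Vr j + δ (gp i)) ∧
      (∀ i k, ∀ t ∈ hitT (fun t => f (seg (a i) (b i) t) k) (o (gp i) k) (δ (gp i)),
        t ∈ Ioo (0 : ℝ) 1 ∧ SC (fun t => f (seg (a i) (b i) t) k) t) ∧
      ∀ i k l, k ≠ l → Disjoint (hitT (fun t => f (seg (a i) (b i) t) k) (o (gp i) k) (δ (gp i)))
        (hitT (fun t => f (seg (a i) (b i) t) l) (o (gp i) l) (δ (gp i))) := by
  have hc : ∀ i, ContinuousOn (fun t => f (seg (a i) (b i) t)) (Icc 0 1) := fun i =>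
    h.cont.comp (by unfold seg; fun_prop) fun t ht =>
      h.gr.sub i (by rw [GMul_seg]; exact mem_image_of_mem _ ht)
  choose o h1 h2 h3 h4 using fun g => grid3 (ι := (h.gfin g).toFinset)
    (γ := fun i t => f (seg (a i) (b i) t)) (V := fun i => Vr i) (fun i => hc i) (fun i => h.V0 i)
    (fun i => h.var i) (hδ g)
  have m : ∀ i, i ∈ (h.gfin (gp i)).toFinset := fun i => (h.gfin _).mem_toFinset.2 rfl
  refine ⟨o, fun i => h1 (gp i) ⟨i, m i⟩, fun i k T hT => le_trans ?_ ((h2 (gp i) k).trans ?_),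
    fun i => h3 (gp i) ⟨i, m i⟩, fun i => h4 (gp i) ⟨i, m i⟩⟩
  · have := Finset.single_le_sum (s := Finset.univ) (f := fun j : (h.gfin (gp i)).toFinset =>
      ((hitT (fun t => f (seg (a j) (b j) t) k) (o (gp i) k) (δ (gp i))).ncard : ℝ))
      (fun _ _ => Nat.cast_nonneg _) (Finset.mem_univ ⟨i, m i⟩)
    exact mul_le_mul_of_nonneg_left this (hδ _).le
  · rw [Finset.sum_coe_sort _ Vr]
    have := Finset.sum_le_sum_of_subset_of_nonneg (f := Vr)
      (fun j hj => hT j ((h.gfin (gp i)).mem_toFinset.1 hj)) fun j _ _ => h.V0 j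
    linarith

theorem MulIn.marks (h : MulIn Ω f a b gp Vr η Bd F k0 s) :
    ∃ (Mk : Set (Rn 3)) (kk : Rn 3 → Fin 3) (lo hi : Rn 3 → Rn 3) (δ : γ → ℝ),
      Mkd f a b η Bd F k0 Mk kk lo hi ∧ (∀ g, 0 < δ g) ∧ (∀ i, δ (gp i) ≤ η i) ∧
      (∀ i, ∀ x ∈ segment ℝ (a i) (b i), x ∉ Mk → ‖hi x - lo x‖ ≤ δ (gp i)) ∧
      ∀ i, ∀ T : Finset ι, (∀ j, gp j = gp i → j ∈ T) →
        δ (gp i) * ((Mk ∩ openSegment ℝ (a i) (b i)).ncard : ℝ) ≤
          6 * ∑ j ∈ T, Vr j + 3 * δ (gp i) := by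
  classical
  obtain ⟨r, hr⟩ := h.radii
  obtain ⟨δ, δ0, δη, δr, gap⟩ := h.gaps hr.r0
  obtain ⟨o, o1, o2, o3, o4⟩ := GMul_off h δ0
  obtain ⟨c, hc⟩ : ∃ c : γ → CG, c = fun g =>
    ⟨o g, δ g, {y | y ∈ Bd ∧ ∃ i, gp i = g ∧ y ∈ segment ℝ (a i) (b i)}, f, r, k0, s g⟩ := ⟨_, rfl⟩
  have ok : ∀ g, (c g).Ok := fun g => by
    subst hc
    refine ⟨δ0 g, ?_, ?_, fun y hy y' hy' => hr.sep y hy.1 y' hy'.1⟩
    · rintro y ⟨hy, i, rfl, hi⟩
      have := δr i y hy hi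
      have := δ0 (gp i)
      change 4 * δ (gp i) ≤ r y
      linarith
    · rintro y ⟨hy, i, rfl, hi⟩
      exact (h.bend y hy i hi).2
  let Hit : ι → Fin 3 → Rn 3 → Prop := fun i k x => ∃ n : ℤ, f x k = o (gp i) k + δ (gp i) * n
  have par : ∀ i, ∀ x ∈ segment ℝ (a i) (b i), ∃ t ∈ Icc (0 : ℝ) 1, seg (a i) (b i) t = x :=
    fun i x hx => by rwa [GMul_seg] at hx
  have hop : ∀ i k, ∀ x ∈ segment ℝ (a i) (b i), Hit i k x → x ∈ openSegment ℝ (a i) (b i) := by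
    intro i k x hx hk
    obtain ⟨t, ht, rfl⟩ := par i x hx
    rw [GMul_oseg]
    exact mem_image_of_mem _ (o3 i k t ⟨ht, hk⟩).1
  have hne : ∀ i, ∀ x ∈ openSegment ℝ (a i) (b i), ¬ (x = a i ∨ x = b i) := by
    rintro i x hx (rfl | rfl)
    exacts [h.gr.ne i (left_mem_openSegment_iff.1 hx), h.gr.ne i (right_mem_openSegment_iff.1 hx)]
  have hun : ∀ i j k, ∀ x ∈ segment ℝ (a i) (b i), Hit i k x → x ∈ segment ℝ (a j) (b j) → i = j :=
    fun i j k x hx hk hj => by_contra fun e => hne i x (hop i k x hx hk) (h.gr.meet i j e x hx hj)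
  have hnb : ∀ i k, ∀ x ∈ segment ℝ (a i) (b i), Hit i k x → x ∉ Bd :=
    fun i k x hx hk hb => hne i x (hop i k x hx hk) (h.bend x hb i hx).1
  have hkl : ∀ i k l, ∀ x ∈ segment ℝ (a i) (b i), Hit i k x → Hit i l x → k = l := by
    intro i k l x hx hk hl
    obtain ⟨t, ht, rfl⟩ := par i x hx
    exact by_contra fun e => disjoint_left.1 (o4 i k l e) ⟨ht, hk⟩ ⟨ht, hl⟩
  obtain ⟨Mk, hM⟩ : ∃ Mk : Set (Rn 3), ∀ x, x ∈ Mk ↔
      x ∈ Bd ∨ ∃ k i, x ∈ segment ℝ (a i) (b i) ∧ Hit i k x := ⟨_, fun _ => Iff.rfl⟩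
  have hMi : ∀ i, ∀ x ∈ segment ℝ (a i) (b i), x ∈ Mk → x ∉ Bd → ∃ k, Hit i k x := by
    intro i x hx hm hb
    obtain ⟨k, j, hj, hk⟩ := ((hM x).1 hm).resolve_left hb
    exact ⟨k, hun j i k x hj hk hx ▸ hk⟩
  have nb : ∀ {x}, x ∉ Mk → x ∉ Bd := fun hx hb => hx ((hM _).2 (.inl hb))
  obtain ⟨kk, kk1, kk2⟩ : ∃ kk : Rn 3 → Fin 3, (∀ y ∈ Bd, kk y = k0 y) ∧
      ∀ i k, ∀ y ∈ segment ℝ (a i) (b i), Hit i k y → kk y = k := by
    refine ⟨fun y => if e : ∃ k i, y ∈ segment ℝ (a i) (b i) ∧ Hit i k y then e.choose else k0 y,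
      fun y hy => dif_neg fun ⟨k, i, e1, e2⟩ => hnb i k y e1 e2 hy, fun i k y hy hk => ?_⟩
    have e : ∃ k i, y ∈ segment ℝ (a i) (b i) ∧ Hit i k y := ⟨k, i, hy, hk⟩
    obtain ⟨j, e1, e2⟩ := e.choose_spec
    exact (dif_pos e).trans (hkl i _ k y hy (hun j i _ y e1 e2 hy ▸ e2) hk)
  obtain ⟨lo, hi, hl⟩ : ∃ lo hi : Rn 3 → Rn 3, ∀ i, ∀ x ∈ segment ℝ (a i) (b i), x ∉ Mk →
      lo x = (c (gp i)).lo (f x) ∧ hi x = (c (gp i)).hi (f x) := by
    refine ⟨fun x => if e : ∃ i, x ∈ segment ℝ (a i) (b i) then (c (gp e.choose)).lo (f x) else 0,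
      fun x => if e : ∃ i, x ∈ segment ℝ (a i) (b i) then (c (gp e.choose)).hi (f x) else 0,
      fun i x hx hm => ?_⟩
    have e : ∃ i, x ∈ segment ℝ (a i) (b i) := ⟨i, hx⟩
    have e1 : gp e.choose = gp i :=
      by_contra fun k => nb hm (h.sepg _ _ k x e.choose_spec hx).1
    simp only [dif_pos e, e1, and_self]
  have off : ∀ i, ∀ x ∈ segment ℝ (a i) (b i), (x ∉ Mk ∨ x ∈ Bd) → (c (gp i)).Off (f x) := by
    intro i x hx hm l n e
    have hk : Hit i l x := ⟨n, by subst hc; exact e⟩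
    exact hm.elim (fun k => k ((hM x).2 (.inr ⟨l, i, hx, hk⟩))) (hnb i l x hx hk)
  have good : ∀ i, ∀ x ∈ segment ℝ (a i) (b i), x ∉ Bd → (c (gp i)).Good (f x) := by
    intro i x hx hb
    subst hc
    exact fun y hy e => (hr.iso y hy.1 i x hx e).2 fun k => hb (k ▸ hy.1)
  have ss : ∀ {i x y}, x ∈ segment ℝ (a i) (b i) → y ∈ segment ℝ (a i) (b i) →
      segment ℝ x y ⊆ segment ℝ (a i) (b i) := fun hx hy =>
    (convex_segment _ _).segment_subset hx hy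
  have cnc : ∀ i, ∀ x ∈ segment ℝ (a i) (b i), ∀ y ∈ segment ℝ (a i) (b i),
      (∀ u ∈ segment ℝ x y, u ∉ Mk ∨ u ∈ Bd) →
      cn (c (gp i)).o (c (gp i)).δ (f x) = cn (c (gp i)).o (c (gp i)).δ (f y) := by
    intro i x hx y hy H
    refine CG.cn_const (ok _) ((convex_segment x y).isPreconnected.image f
      (h.cont.mono ((ss hx hy).trans (h.gr.sub i)))) ?_
      (mem_image_of_mem _ (left_mem_segment ℝ x y)) (mem_image_of_mem _ (right_mem_segment ℝ x y))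
    rintro _ ⟨u, hu, rfl⟩
    exact off i u (ss hx hy hu) (H u hu)
  have inb : ∀ i, ∀ x ∈ segment ℝ (a i) (b i), x ∉ Mk → ∀ k, lo x k < f x k ∧ f x k < hi x k := by
    intro i x hx hm k
    rw [(hl i x hx hm).1, (hl i x hx hm).2]
    exact CG.inb (ok _) (off i x hx (.inl hm)) (good i x hx (nb hm)) k
  have inI : ∀ i, ∀ x ∈ segment ℝ (a i) (b i), x ∉ Mk → f x ∈ Icc (lo x) (hi x) :=
    fun i x hx hm => ⟨fun k => (inb i x hx hm k).1.le, fun k => (inb i x hx hm k).2.le⟩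
  have siz : ∀ i, ∀ x ∈ segment ℝ (a i) (b i), x ∉ Mk → ‖hi x - lo x‖ ≤ δ (gp i) := by
    intro i x hx hm
    rw [(hl i x hx hm).1, (hl i x hx hm).2]
    have := CG.size (ok _) (off i x hx (.inl hm)) (good i x hx (nb hm))
    subst hc
    exact this
  have cst : ∀ i, ∀ x ∈ segment ℝ (a i) (b i), ∀ y ∈ segment ℝ (a i) (b i),
      Disjoint (segment ℝ x y) Mk → lo x = lo y ∧ hi x = hi y := by
    intro i x hx y hy H
    have e1 := hl i x hx (disjoint_left.1 H (left_mem_segment ℝ x y))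
    have e2 := hl i y hy (disjoint_left.1 H (right_mem_segment ℝ x y))
    rw [e1.1, e1.2, e2.1, e2.2]
    exact CG.eq_of_cn (cnc i x hx y hy fun u hu => .inl (disjoint_left.1 H hu))
  have cut1 : ∀ {x y u : Rn 3}, segment ℝ x y ∩ Mk = {y} → u ∈ segment ℝ x y → u ≠ y →
      Disjoint (segment ℝ x u) Mk := by
    intro x y u H hu e
    refine disjoint_left.2 fun v hv hm => e ?_
    have e1 : v = y := H.subset
      ⟨(convex_segment x y).segment_subset (left_mem_segment ℝ x y) hu hv, hm⟩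
    exact (wbtw_swap_right_iff ℝ x).1 ⟨mem_segment_iff_wbtw.1 hu, mem_segment_iff_wbtw.1 (e1 ▸ hv)⟩
  have fac : ∀ i, ∀ x ∈ segment ℝ (a i) (b i), ∀ y ∈ segment ℝ (a i) (b i),
      segment ℝ x y ∩ Mk = {y} → x ≠ y → (∀ k, k ≠ kk y → lo x k < f y k ∧ f y k < hi x k) ∧
        (f y (kk y) = lo x (kk y) ∨ f y (kk y) = hi x (kk y)) := by
    intro i x hx y hy H e
    have hm : x ∉ Mk := fun k => e (H.subset ⟨left_mem_segment ℝ x y, k⟩)
    rw [(hl i x hx hm).1, (hl i x hx hm).2]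
    by_cases hb : y ∈ Bd
    · have e1 := cnc i x hx y hy fun u hu => (em (u ∈ Mk)).symm.imp_right fun k =>
        (H.subset ⟨hu, k⟩ : u = y) ▸ hb
      have e2 := off i y hy (.inr hb)
      have e3 := ok (gp i)
      rw [kk1 y hb]
      subst hc
      exact CG.fac_gate e3 ⟨hb, i, rfl, hy⟩ e2 e1
    · obtain ⟨k, hk⟩ := hMi i y hy (H.superset rfl).2 hb
      rw [kk2 i k y hy hk]
      refine CG.fac_grid (ok _) (A := f '' openSegment ℝ x y) ?_
        (mem_closure_image (h.cont.continuousAt (h.opn.mem_nhds (h.gr.sub i hy)))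
          (segment_subset_closure_openSegment (right_mem_segment ℝ x y))) (good i y hy hb)
        (by subst hc; exact hk) fun l hl n e1 => hl (hkl i l k y hy ⟨n, by subst hc; exact e1⟩ hk)
      rintro _ ⟨u, hu, rfl⟩
      have hu' := openSegment_subset_segment ℝ x y hu
      exact (cnc i x hx u (ss hx hy hu') fun v hv => .inl (disjoint_left.1
        (cut1 H hu' fun k => e (right_mem_openSegment_iff.1 (k ▸ hu))) hv)).symm
  have cut : ∀ i, ∀ x ∈ segment ℝ (a i) (b i), x ∉ Mk → ∀ y ∈ Bd, y ∈ segment ℝ (a i) (b i) →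
      ‖f x - f y‖ ≤ r y / 2 → ∀ u ∈ Icc (lo x) (hi x), 0 ≤ s (gp i) y * (u (k0 y) - f y (k0 y)) := by
    intro i x hx hm y hb hy e
    rw [(hl i x hx hm).1, (hl i x hx hm).2]
    have e3 := ok (gp i)
    subst hc
    exact CG.cut e3 ⟨hb, i, rfl, hy⟩ e
  have near : ∀ i j, gp j ≠ gp i → ∀ x ∈ segment ℝ (a i) (b i), ∀ x' ∈ segment ℝ (a j) (b j),
      ‖f x - f x'‖ ≤ 2 * δ (gp i) → ∃ y ∈ Bd, y ∈ segment ℝ (a i) (b i) ∧
        y ∈ segment ℝ (a j) (b j) ∧ ‖f x - f y‖ ≤ r y / 2 ∧ ‖f x' - f y‖ ≤ r y / 2 := by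
    intro i j e x hx x' hx' H
    obtain ⟨y, hb, -, e1⟩ := gap i x hx (f x') (.inr ⟨j, e, x', hx', rfl⟩) H
    have r0 := hr.r0 y
    have e2 := (hr.iso y hb i x hx (by linarith only [e1, r0])).1
    have e3 := δr i y hb e2
    have e4 := norm_sub_le_norm_sub_add_norm_sub (f x') (f x) (f y)
    rw [norm_sub_rev (f x') (f x)] at e4
    exact ⟨y, hb, e2, (hr.iso y hb j x' hx' (by linarith only [H, e1, r0, e3, e4])).1, by linarith, by linarith only [H, e1, e3, e4]⟩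
  have sub : ∀ i, Mk ∩ openSegment ℝ (a i) (b i) ⊆ ⋃ k, seg (a i) (b i) ''
      hitT (fun t => f (seg (a i) (b i) t) k) (o (gp i) k) (δ (gp i)) := by
    rintro i y ⟨hm, hy⟩
    have hy' := openSegment_subset_segment ℝ _ _ hy
    obtain ⟨k, hk⟩ := hMi i y hy' hm fun hb => hne i y hy (h.bend y hb i hy').1
    obtain ⟨t, ht, rfl⟩ := par i y hy'
    exact mem_iUnion.2 ⟨k, t, ⟨ht, hk⟩, rfl⟩
  have fin : ∀ i, (⋃ k, seg (a i) (b i) ''
      hitT (fun t => f (seg (a i) (b i) t) k) (o (gp i) k) (δ (gp i))).Finite :=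
    fun i => finite_iUnion fun k => (o1 i k).image _
  refine ⟨Mk, kk, lo, hi, δ, ⟨fun y hy => ⟨(hM y).2 (.inl hy), kk1 y hy⟩,
    fun y hy => ((hM y).1 hy).imp_right fun ⟨k, i, e1, e2⟩ => ⟨i, hop i k y e1 e2⟩, fun i => ?_,
    inb, cst, fac, ?_, ?_, ?_, fun i x hx hm => (siz i x hx hm).trans (δη i)⟩, δ0, δη, siz,
    fun i T hT => ?_⟩
  · refine (((fin i).insert (b i)).insert (a i)).subset fun y hy => ?_
    have := hy.2
    rw [← insert_endpoints_openSegment] at this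
    exact this.imp_right (.imp_right fun k => sub i ⟨hy.1, k⟩)
  · intro i x hx x' hx' y hb hy e H
    have hy1 := openSegment_subset_segment ℝ _ _ hy
    have hy2 := ss hx hx' hy1
    have hm : y ∈ Mk := (H.superset rfl).2
    have n1 : x ≠ y := fun k => e (left_mem_openSegment_iff.1 (by rwa [← k] at hy))
    have n2 : x' ≠ y := fun k => e (right_mem_openSegment_iff.1 (by rwa [← k] at hy))
    have H1 : segment ℝ x y ∩ Mk = {y} := Subset.antisymm (H ▸ inter_subset_inter_left _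
      ((convex_segment x x').segment_subset (left_mem_segment ℝ x x') hy1))
      (singleton_subset_iff.2 ⟨right_mem_segment ℝ x y, hm⟩)
    have H2 : segment ℝ x' y ∩ Mk = {y} := Subset.antisymm (H ▸ inter_subset_inter_left _
      ((convex_segment x x').segment_subset (right_mem_segment ℝ x x') hy1))
      (singleton_subset_iff.2 ⟨right_mem_segment ℝ x' y, hm⟩)
    obtain ⟨k, hk⟩ := hMi i y hy2 hm hb
    have f1 := (fac i x hx y hy2 H1 n1).2
    have f2 := (fac i x' hx' y hy2 H2 n2).2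
    rw [kk2 i k y hy2 hk] at f1 f2 ⊢
    obtain ⟨u, hu, v, hv, u1, v1, neg⟩ : ∃ u ∈ segment ℝ x y, ∃ v ∈ segment ℝ x' y,
        u ≠ y ∧ v ≠ y ∧ (f u k - f y k) * (f v k - f y k) < 0 := by
      obtain ⟨t₁, -, rfl⟩ := par i x hx
      obtain ⟨t₂, -, rfl⟩ := par i x' hx'
      obtain ⟨t, ht, rfl⟩ := par i y hy2
      have sc := (o3 i k t ⟨ht, hk⟩).2
      have m : t ∈ openSegment ℝ t₁ t₂ := by
        rw [GMul_line, ← image_openSegment, ← GMul_line] at hy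
        exact ((GMul_inj (h.gr.ne i)).mem_set_image).1 hy
      rcases lt_or_gt_of_ne (fun k : t₁ = t₂ => e (k ▸ rfl)) with w | w
      · rw [openSegment_eq_Ioo w] at m
        exact GMul_sc (φ := fun z => f z k) (h.gr.ne i) m.1 m.2 sc
      · rw [openSegment_symm, openSegment_eq_Ioo w] at m
        obtain ⟨u, hu, v, hv, u1, v1, neg⟩ := GMul_sc (φ := fun z => f z k) (h.gr.ne i) m.1 m.2 sc
        exact ⟨v, hv, u, hu, v1, u1, by rwa [mul_comm]⟩
    have d1 := cut1 H1 hu u1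
    have d2 := cut1 H2 hv v1
    have c1 := cst i x hx u (ss hx hy2 hu) d1
    have c2 := cst i x' hx' v (ss hx' hy2 hv) d2
    have b1 := inb i u (ss hx hy2 hu) (disjoint_left.1 d1 (right_mem_segment ℝ _ _)) k
    have b2 := inb i v (ss hx' hy2 hv) (disjoint_left.1 d2 (right_mem_segment ℝ _ _)) k
    rw [← c1.1, ← c1.2] at b1
    rw [← c2.1, ← c2.2] at b2
    rcases f1 with f1 | f1 <;> rcases f2 with f2 | f2
    · exact absurd neg (mul_pos (by linarith [b1.1]) (by linarith [b2.1])).not_gt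
    · exact .inl ⟨f1, f2⟩
    · exact .inr ⟨f1, f2⟩
    · exact absurd neg (mul_pos_of_neg_of_neg (by linarith [b1.2]) (by linarith [b2.2])).not_gt
  · intro i j x hx x' hx' hm hm'
    by_cases e : gp i = gp j
    · rw [(hl i x hx hm).1, (hl i x hx hm).2, (hl j x' hx' hm').1, (hl j x' hx' hm').2, e]
      exact CG.dis (ok _) _ _
    refine .inr (disjoint_left.2 fun u hu hu' => ?_)
    have e1 := (GMul_dist (inI i x hx hm) (interior_subset hu)).trans (siz i x hx hm)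
    have e2 := (GMul_dist hu' (inI j x' hx' hm')).trans (siz j x' hx' hm')
    have e3 := norm_sub_le_norm_sub_add_norm_sub (f x) u (f x')
    obtain ⟨y, hb, y1, y2, y3, y4⟩ : ∃ y ∈ Bd, y ∈ segment ℝ (a i) (b i) ∧
        y ∈ segment ℝ (a j) (b j) ∧ ‖f x - f y‖ ≤ r y / 2 ∧ ‖f x' - f y‖ ≤ r y / 2 := by
      rcases le_total (δ (gp j)) (δ (gp i)) with w | w
      · exact near i j (Ne.symm e) x hx x' hx' (by linarith only [e1, e2, e3, w])
      · obtain ⟨y, hb, y1, y2, y3, y4⟩ := near j i e x' hx' x hx (by rw [norm_sub_rev]; linarith)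
        exact ⟨y, hb, y2, y1, y4, y3⟩
    have e4 := GMul_strict hu (h.bend y hb i y1).2 (cut i x hx hm y hb y1 y3)
    have e5 := cut j x' hx' hm' y hb y2 y4 u hu'
    rw [(h.sepg i j e y y1 y2).2] at e4
    linarith only [e4, e5]
  · intro i x hx hm
    refine disjoint_left.2 fun u hu hu' => ?_
    have e1 := (GMul_dist (inI i x hx hm) (interior_subset hu)).trans (siz i x hx hm)
    have e0 := δ0 (gp i)
    obtain ⟨y, hb, -, e2⟩ := gap i x hx u (.inl hu') (by linarith)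
    have r0 := hr.r0 y
    have y1 := (hr.iso y hb i x hx (by linarith)).1
    have e3 := δr i y hb y1
    have e4 := norm_sub_le_norm_sub_add_norm_sub u (f x) (f y)
    rw [norm_sub_rev u (f x)] at e4
    exact (GMul_strict hu (h.bend y hb i y1).2 (cut i x hx hm y hb y1 (by linarith only [e0, e2, e3]))).not_ge
      (hr.fs y hb i y1 u hu' (by linarith only [e1, e0, e2, e3, e4]))
  · have e1 := ((ncard_le_ncard (sub i) (fin i)).trans (ncard_iUnion_le_of_fintype _)).trans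
      (Finset.sum_le_sum fun k _ => ncard_image_le (o1 i k))
    rw [Fin.sum_univ_three] at e1
    have e2 := mul_le_mul_of_nonneg_left ((Nat.cast_le (α := ℝ)).2 e1) (δ0 (gp i)).le
    push_cast at e2
    linarith only [e2, o2, hT, o2 i 0 T hT, o2 i 1 T hT, o2 i 2 T hT]

end BEp
end
end
end

-- merged part: Pool.Agent.Work.MP_f0515e_an.D3.SChd
section
/-! EXPORT (beads for chords). The box is `Icc lo hi`; with `o` the midpoint of `f a`, `f b` put
`Φ x i = o i + (hi i - o i) * max (x i) 0 - (o i - lo i) * max (-x i) 0` (`lh_tri` with `I = univ`); it is positively homogeneous about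
`o`, and `‖x‖ ≤ 1` iff `Φ x` lies in the box, `‖x‖ = 1` iff moreover some coordinate is extreme. About 250 lines. -/

open Set Metric Filter Topology Function BEv
open scoped NNReal

noncomputable section
namespace BEp

theorem Bd0.congr {Ω : Set (Rn 3)} {K : Kx Ω} {f Φ Θ : Rn 3 → Rn 3} {v : Rn 3}
    {Mk : Set (Rn 3)} (h : Bd0 K f Φ v Mk) (hΘ : Injective Θ)
    (hB : ∀ z ∈ Φ '' closedBall 0 1, Θ z = z) : Bd0 K (Θ ∘ f) Φ v Mk := by
  have k1 : ∀ z, Θ z ∈ Φ '' closedBall 0 1 → Θ z = z := fun z hz => hΘ (hB _ hz)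
  have k2 : Φ '' sphere 0 1 ⊆ Φ '' closedBall 0 1 := image_mono sphere_subset_closedBall
  have k3 : ∀ m ∈ Mk, Θ (f m) = f m := fun m hm => hB _ (k2 (h.onS m hm))
  refine ⟨h.lh, fun z hz => ?_, fun m hm => ?_, fun y hy hz => ?_, fun y hy hz => ?_,
    fun m hm => ?_, fun m hm t ht hΩ hz => ?_, fun m hm => ?_⟩
  · obtain ⟨y, hy, rfl⟩ := h.sub hz
    exact ⟨y, hy, hB _ hz⟩
  · rintro _ ⟨y, hy, rfl⟩
    have := h.sin m hm ⟨y, hy, rfl⟩
    rw [comp_apply, hB _ this]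
    exact this
  · rw [comp_apply] at hz
    exact h.star y hy (k1 _ hz ▸ hz)
  · rw [comp_apply] at hz
    exact h.mark y hy (k1 _ (k2 hz) ▸ hz)
  · rw [comp_apply, k3 m hm]
    exact h.onS m hm
  · rw [comp_apply] at hz
    exact h.ray m hm t ht hΩ (k1 _ hz ▸ hz)
  · rw [comp_apply, k3 m hm]
    exact h.leg m hm

/-- The chart of an interval about an interior point. -/
def SChd_g (l o h t : ℝ) : ℝ := o + (h - o) * max t 0 - (o - l) * max (-t) 0

theorem SChd_pos (l o h : ℝ) {t : ℝ} (ht : 0 ≤ t) : SChd_g l o h t = o + (h - o) * t := by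
  rw [SChd_g, max_eq_left ht, max_eq_right (neg_nonpos.2 ht)]
  ring

theorem SChd_neg (l o h : ℝ) {t : ℝ} (ht : t ≤ 0) : SChd_g l o h t = o + (o - l) * t := by
  rw [SChd_g, max_eq_right ht, max_eq_left (neg_nonneg.2 ht)]
  ring

theorem SChd_mono {l o h c : ℝ} (h1 : c ≤ h - o) (h2 : c ≤ o - l) {s t : ℝ} (hst : s ≤ t) :
    c * (t - s) ≤ SChd_g l o h t - SChd_g l o h s := by
  rcases le_total 0 s with hs | hs
  · rw [SChd_pos l o h hs, SChd_pos l o h (hs.trans hst)]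
    linarith only [h1, hst, mul_nonneg_of_nonpos_of_nonpos (Mathlib.Tactic.Linarith.sub_nonpos_of_le h1) (Mathlib.Tactic.Linarith.sub_nonpos_of_le hst)]
  · rcases le_total 0 t with ht | ht
    · rw [SChd_neg l o h hs, SChd_pos l o h ht]
      nlinarith
    · rw [SChd_neg l o h hs, SChd_neg l o h ht]
      nlinarith

theorem SChd_hom (l o h x : ℝ) {t : ℝ} (ht : 0 ≤ t) :
    SChd_g l o h (t * x) = o + t * (SChd_g l o h x - o) := by
  rcases le_total 0 x with hx | hx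
  · rw [SChd_pos l o h hx, SChd_pos l o h (mul_nonneg ht hx)]
    ring
  · rw [SChd_neg l o h hx, SChd_neg l o h (mul_nonpos_of_nonneg_of_nonpos ht hx)]
    ring

theorem SChd_le {l o h : ℝ} (h1 : l < o) (h2 : o < h) (t : ℝ) :
    |t| ≤ 1 ↔ l ≤ SChd_g l o h t ∧ SChd_g l o h t ≤ h := by
  rcases le_total 0 t with ht | ht
  · rw [SChd_pos l o h ht, abs_of_nonneg ht]
    constructor
    · intro k
      constructor <;> linarith only [h1, h2, ht, k, mul_nonneg_of_nonpos_of_nonpos (le_of_lt (Mathlib.Tactic.Linarith.sub_neg_of_lt h2)) (Mathlib.Tactic.Linarith.sub_nonpos_of_le ht), mul_nonneg_of_nonpos_of_nonpos (le_of_lt (Mathlib.Tactic.Linarith.sub_neg_of_lt h2)) (Mathlib.Tactic.Linarith.sub_nonpos_of_le k)]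
    · intro k
      by_contra e
      nlinarith [k.2, not_le.1 e]
  · rw [SChd_neg l o h ht, abs_of_nonpos ht]
    constructor
    · intro k
      constructor <;> linarith only [h1, k, h2, ht, mul_nonneg_of_nonpos_of_nonpos (le_of_lt (Mathlib.Tactic.Linarith.sub_neg_of_lt h1)) (Mathlib.Tactic.Linarith.sub_nonpos_of_le k), mul_nonneg_of_nonpos_of_nonpos (le_of_lt (Mathlib.Tactic.Linarith.sub_neg_of_lt h1)) (Mathlib.Tactic.Linarith.sub_nonpos_of_le ht)]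
    · intro k
      by_contra e
      nlinarith [k.1, not_le.1 e]

theorem SChd_eq {l o h : ℝ} (h1 : l < o) (h2 : o < h) (t : ℝ) :
    |t| = 1 ↔ SChd_g l o h t = l ∨ SChd_g l o h t = h := by
  rcases le_total 0 t with ht | ht
  · rw [SChd_pos l o h ht, abs_of_nonneg ht]
    constructor
    · rintro rfl
      right
      ring
    · rintro (k | k)
      · nlinarith
      · have : (h - o) * (t - 1) = 0 := by linarith
        rcases mul_eq_zero.1 this with e | e <;> linarith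
  · rw [SChd_neg l o h ht, abs_of_nonpos ht]
    constructor
    · intro k
      left
      rw [show t = -1 by linarith]
      ring
    · rintro (k | k)
      · have : (o - l) * (t + 1) = 0 := by linarith
        rcases mul_eq_zero.1 this with e | e <;> linarith
      · nlinarith

theorem SChd_sph (x : Rn 3) : ‖x‖ = 1 ↔ (∀ i, |x i| ≤ 1) ∧ ∃ i, |x i| = 1 := by
  constructor
  · intro k
    have k1 : ∀ i, |x i| ≤ 1 := fun i => (norm_le_pi_norm x i).trans k.le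
    refine ⟨k1, ?_⟩
    by_contra e
    have : ‖x‖ < 1 := (pi_norm_lt_iff one_pos).2 fun i =>
      lt_of_le_of_ne (k1 i) fun e' => e ⟨i, e'⟩
    exact this.ne k
  · rintro ⟨k1, i, k2⟩
    exact le_antisymm ((pi_norm_le_iff_of_nonneg zero_le_one).2 k1)
      (k2 ▸ norm_le_pi_norm x i)

theorem box_chart {lo hi o : Rn 3} (h : ∀ i, lo i < o i ∧ o i < hi i) :
    ∃ Φ : Rn 3 → Rn 3, LH Φ ∧ (∀ x (t : ℝ), 0 ≤ t → Φ (t • x) = o + t • (Φ x - o)) ∧
      (∀ z, z ∈ Φ '' closedBall 0 1 ↔ z ∈ Icc lo hi) ∧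
      ∀ z, z ∈ Φ '' sphere 0 1 ↔ z ∈ Icc lo hi ∧ ∃ i, z i = lo i ∨ z i = hi i := by
  obtain ⟨c, hc, hc1⟩ : ∃ c : ℝ, 0 < c ∧ ∀ i, c ≤ hi i - o i ∧ c ≤ o i - lo i := by
    obtain ⟨i, -, k⟩ := Finset.exists_min_image Finset.univ
      (fun i => min (hi i - o i) (o i - lo i)) Finset.univ_nonempty
    exact ⟨_, lt_min (sub_pos.2 (h i).2) (sub_pos.2 (h i).1), fun j =>
      le_min_iff.1 (k j (Finset.mem_univ j))⟩
  have hL : LH fun (x : Rn 3) i => SChd_g (lo i) (o i) (hi i) (x i) := by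
    refine lh_tri (TP.pi fun i => ?_) univ hc (fun x j hj => absurd (mem_univ j) hj)
      fun x y _ j _ k => SChd_mono (hc1 j).1 (hc1 j).2 k
    exact ((TP.const _).add (((TP.id'.apply i).max (TP.const 0)).const_mul _)).sub
      (((TP.id'.apply i).neg.max (TP.const 0)).const_mul _)
  have k1 : ∀ x : Rn 3, (∀ i, |x i| ≤ 1) ↔
      (fun i => SChd_g (lo i) (o i) (hi i) (x i)) ∈ Icc lo hi := fun x =>
    ⟨fun k => ⟨fun i => ((SChd_le (h i).1 (h i).2 _).1 (k i)).1,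
      fun i => ((SChd_le (h i).1 (h i).2 _).1 (k i)).2⟩,
      fun k i => (SChd_le (h i).1 (h i).2 _).2 ⟨k.1 i, k.2 i⟩⟩
  refine ⟨_, hL, fun x t ht => funext fun i => SChd_hom _ _ _ _ ht, fun z => ?_, fun z => ?_⟩
  · obtain ⟨x, rfl⟩ := hL.1.2 z
    rw [hL.inj.mem_set_image, mem_closedBall_zero_iff, pi_norm_le_iff_of_nonneg zero_le_one]
    exact k1 x
  · obtain ⟨x, rfl⟩ := hL.1.2 z
    rw [hL.inj.mem_set_image, mem_sphere_zero_iff_norm, SChd_sph]
    exact and_congr (k1 x) (exists_congr fun i => SChd_eq (h i).1 (h i).2 _)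

theorem leg_of_hom {Φ : Rn 3 → Rn 3} (h : LH Φ) {o : Rn 3}
    (hh : ∀ x (t : ℝ), 0 ≤ t → Φ (t • x) = o + t • (Φ x - o)) (p : Rn 3) :
    Φ 0 = o ∧ Φ '' segment ℝ 0 (invFun Φ p) = segment ℝ (Φ 0) p := by
  have k : Φ 0 = o := by simpa using hh 0 0 le_rfl
  refine ⟨k, ?_⟩
  rw [segment_eq_image', segment_eq_image', image_image, k]
  refine image_congr fun t ht => ?_
  rw [zero_add, sub_zero, hh _ t ht.1, h.ri]

theorem SChd_half {a b y : Rn 3} (hy : y ∈ segment ℝ a b) :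
    ∃ m ∈ ({a, b} : Set (Rn 3)), y ∈ segment ℝ (midpoint ℝ a b) m := by
  rw [segment_eq_image'] at hy
  obtain ⟨t, ⟨h0, h1⟩, rfl⟩ := hy
  rcases le_total t (1 / 2) with k | k
  · refine ⟨a, Or.inl rfl, ?_⟩
    rw [segment_eq_image']
    refine ⟨1 - 2 * t, ⟨by linarith, by linarith⟩, funext fun j => ?_⟩
    simp only [midpoint_eq_smul_add, Pi.add_apply, Pi.smul_apply, Pi.sub_apply, smul_eq_mul,
      invOf_eq_inv]
    ring
  · refine ⟨b, Or.inr rfl, ?_⟩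
    rw [segment_eq_image']
    refine ⟨2 * t - 1, ⟨by linarith only [k], by linarith⟩, funext fun j => ?_⟩
    simp only [midpoint_eq_smul_add, Pi.add_apply, Pi.smul_apply, Pi.sub_apply, smul_eq_mul,
      invOf_eq_inv]
    ring

theorem SChd_par {a b : Rn 3} (hab : a ≠ b) {t : ℝ} (h : seg a b t ∈ segment ℝ a b) :
    t ∈ Icc (0 : ℝ) 1 := by
  rw [segment_eq_image'] at h
  obtain ⟨u, hu, e⟩ := h
  have e1 : u • (b - a) = t • (b - a) := add_left_cancel e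
  rwa [← smul_left_injective ℝ (sub_ne_zero.2 hab.symm) e1]

theorem SChd_ray_a (a b : Rn 3) (t : ℝ) :
    midpoint ℝ a b + t • (a - midpoint ℝ a b) = seg a b ((1 - t) / 2) := by
  funext j
  simp only [seg, midpoint_eq_smul_add, Pi.add_apply, Pi.smul_apply, Pi.sub_apply, smul_eq_mul,
    invOf_eq_inv]
  ring

theorem SChd_ray_b (a b : Rn 3) (t : ℝ) :
    midpoint ℝ a b + t • (b - midpoint ℝ a b) = seg a b ((1 + t) / 2) := by
  funext j
  simp only [seg, midpoint_eq_smul_add, Pi.add_apply, Pi.smul_apply, Pi.sub_apply, smul_eq_mul,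
    invOf_eq_inv]
  ring

/-- The chart of the box of a chord with ends `p`, `q`. -/
theorem SChd_box {p q : Rn 3} {i : Fin 3} {R : ℝ} (h1 : p i < q i) (h2 : ‖q - p‖ < R) :
    ∃ Φ : Rn 3 → Rn 3, LH Φ ∧
      (∀ x (t : ℝ), 0 ≤ t → Φ (t • x) = midpoint ℝ p q + t • (Φ x - midpoint ℝ p q)) ∧
      (∀ z, z ∈ Φ '' closedBall 0 1 ↔ p i ≤ z i ∧ z i ≤ q i ∧ ‖z - p‖ ≤ 2 * R) ∧
      ∀ z, ‖z - p‖ < 2 * R → (z ∈ Φ '' sphere 0 1 ↔ z i = p i ∨ z i = q i) := by
  have hR : 0 < R := (norm_nonneg _).trans_lt h2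
  have k0 : ∀ j, |q j - p j| < R := fun j => (norm_le_pi_norm (q - p) j).trans_lt h2
  obtain ⟨Φ, e1, e2, e3, e4⟩ := box_chart (lo := update (fun j => p j - 2 * R) i (p i))
    (hi := update (fun j => p j + 2 * R) i (q i)) (o := midpoint ℝ p q) (fun j => by
      have k := abs_lt.1 (k0 j)
      simp only [midpoint_eq_smul_add, Pi.add_apply, Pi.smul_apply, smul_eq_mul, invOf_eq_inv]
      by_cases e : j = i
      · subst e
        simp only [update_self]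
        constructor <;> linarith only [h1]
      · simp only [update_of_ne e]
        constructor <;> linarith only [hR, k, k.1, k.2])
  have k1 : ∀ z : Rn 3, z ∈ Icc (update (fun j => p j - 2 * R) i (p i))
      (update (fun j => p j + 2 * R) i (q i)) ↔ p i ≤ z i ∧ z i ≤ q i ∧ ‖z - p‖ ≤ 2 * R := by
    intro z
    rw [pi_norm_le_iff_of_nonneg (by linarith)]
    constructor
    · rintro ⟨l1, l2⟩
      have m1 : p i ≤ z i := by simpa only [update_self] using l1 i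
      have m2 : z i ≤ q i := by simpa only [update_self] using l2 i
      refine ⟨m1, m2, fun j => ?_⟩
      rw [Pi.sub_apply, Real.norm_eq_abs, abs_le]
      by_cases e : j = i
      · subst e
        constructor <;> linarith only [hR, m1, m2, k0, (abs_lt.1 (k0 j)).2]
      · have m3 := l1 j
        have m4 := l2 j
        rw [update_of_ne e] at m3 m4
        constructor <;> linarith
    · rintro ⟨m1, m2, m3⟩
      refine ⟨fun j => ?_, fun j => ?_⟩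
      all_goals
        have m4 := m3 j
        rw [Pi.sub_apply, Real.norm_eq_abs, abs_le] at m4
        by_cases e : j = i
        · subst e
          rwa [update_self]
        · rw [update_of_ne e]
          linarith only [m4, m4.1, m4.2]
  refine ⟨Φ, e1, e2, fun z => (e3 z).trans (k1 z), fun z hz => ?_⟩
  rw [e4, k1]
  constructor
  · rintro ⟨-, j, hj⟩
    by_cases e : j = i
    · subst e
      simpa only [update_self] using hj
    · have m := (norm_le_pi_norm (z - p) j).trans_lt hz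
      rw [Pi.sub_apply, Real.norm_eq_abs, abs_lt] at m
      rw [update_of_ne e, update_of_ne e] at hj
      rcases hj with hj | hj <;> linarith only [m, hj, m.1, m.2]
  · intro hj
    refine ⟨⟨?_, ?_, hz.le⟩, i, by simpa only [update_self] using hj⟩
    all_goals rcases hj with hj | hj <;> linarith only [hj, h1]

theorem fat_chord {Ω : Set (Rn 3)} {K : Kx Ω} {f : Rn 3 → Rn 3} {ι : Type} {d : TopD ι}
    (h : TopIn K f d) {c : Chd} (hc : c ∈ d.Ch) :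
    ∃ Φ, Bd0 K f Φ (midpoint ℝ c.a c.b) {c.a, c.b} ∧ Φ '' closedBall 0 1 = c.box f ∧
      Φ 0 = midpoint ℝ (f c.a) (f c.b) ∧ Gate Φ (f c.a) c.i (-1) ∧ Gate Φ (f c.b) c.i 1 := by
  obtain ⟨hE, hlt, hsub, -, hR⟩ := h.cedge c hc
  have ha := left_mem_segment ℝ c.a c.b
  have hb := right_mem_segment ℝ c.a c.b
  have hR0 : 0 < c.R := (norm_nonneg _).trans_lt (hR _ hb)
  have hR2 : ∀ x ∈ segment ℝ c.a c.b, ‖f x - f c.a‖ < 2 * c.R := fun x hx => by
    linarith [hR x hx]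
  obtain ⟨Φ, e1, e2, e3, e4⟩ := SChd_box hlt (hR _ hb)
  have eB : Φ '' closedBall 0 1 = c.box f := Set.ext e3
  have hO : IsOpen {z : Rn 3 | ‖z - f c.a‖ < 2 * c.R} :=
    isOpen_lt (by fun_prop) continuous_const
  refine ⟨Φ, ⟨e1, fun z hz => hsub (mem_closedBall_iff_norm.2 ((e3 z).1 hz).2.2), fun m hm => ?_,
    fun y hy hz => ?_, fun y hy hz => ?_, fun m hm => ?_, fun m hm t ht hΩ hz => ?_,
    fun m _ => (leg_of_hom e1 e2 _).2⟩, eB, (leg_of_hom e1 e2 0).1, ⟨Or.inr rfl, ?_⟩,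
    ⟨Or.inl rfl, ?_⟩⟩
  · rintro _ ⟨y, hy, rfl⟩
    rw [eB]
    refine h.cin c hc y ((convex_segment c.a c.b).segment_subset (midpoint_mem_segment _ _) ?_ hy)
    rcases hm with rfl | rfl
    exacts [ha, hb]
  · exact SChd_half (h.conce c hc y hy.1 (Or.inl hy) (eB ▸ hz)).1
  · obtain ⟨k1, k2, k3⟩ := h.conce c hc y hy.1 (Or.inl hy)
      (eB ▸ image_mono sphere_subset_closedBall hz)
    exact ((e4 _ (hR2 y k1)).1 hz).imp k2 k3
  · rcases hm with rfl | rfl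
    · exact (e4 _ (hR2 _ ha)).2 (Or.inl rfl)
    · exact (e4 _ (hR2 _ hb)).2 (Or.inr rfl)
  · rcases hm with rfl | rfl
    · rw [SChd_ray_a] at hΩ hz
      have := SChd_par hE.1 (h.conce c hc _ hΩ (Or.inr ⟨_, rfl⟩) (eB ▸ hz)).1
      linarith only [this, this.1]
    · rw [SChd_ray_b] at hΩ hz
      have := SChd_par hE.1 (h.conce c hc _ hΩ (Or.inr ⟨_, rfl⟩) (eB ▸ hz)).1
      linarith [this.2]
  · have hO' : IsOpen {z : Rn 3 | z c.i < f c.b c.i} := isOpen_lt (by fun_prop) continuous_const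
    filter_upwards [hO.mem_nhds (hR2 _ ha), hO'.mem_nhds hlt] with z k1 k2
    rw [e3, e4 z k1]
    exact ⟨⟨fun k => by linarith [k.1], fun k => ⟨by linarith, le_of_lt k2, le_of_lt k1⟩⟩,
      ⟨fun k => k.resolve_right (ne_of_lt k2), Or.inl⟩⟩
  · have hO' : IsOpen {z : Rn 3 | f c.a c.i < z c.i} := isOpen_lt continuous_const (by fun_prop)
    filter_upwards [hO.mem_nhds (hR2 _ hb), hO'.mem_nhds hlt] with z k1 k2
    rw [e3, e4 z k1]
    exact ⟨⟨fun k => by linarith [k.2.1], fun k => ⟨le_of_lt k2, by linarith, le_of_lt k1⟩⟩,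
      ⟨fun k => k.resolve_left (ne_of_gt k2), Or.inr⟩⟩

end BEp
end
end

-- merged part: Pool.Agent.Work.MP_f0515e_an.D3.SRig5
section
-- merged part: Pool.Agent.Work.MP_f0515e_an.D3.SRig4
section
/-! The correction of the target.
`mv_fin`: induction on a finite set of indices, compose. `ths_exists`: index by the finite set of inner edges `e`; in normal
coordinates the move is `ζ ↦ ζ - max 0 (1 - ‖ζ - p‖ / (w / 4)) • hz l (p - s⁻¹ • v)`, `p = nc (f (m e))` (`plsg_lh`, `Mv.conj`; note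
`‖hz l (p - s⁻¹ • v)‖ ≤ dl` by `nc_close`, and `hz l (s⁻¹ • v)` does not depend on the end `v`); the supports are disjoint: different boxes by
`box_uniq`, different edges of one box because the marks are at distance at least `2 s` (`lat_gap`).
About 350 lines. -/

open Set Metric Filter Topology Function BEv
open scoped NNReal

noncomputable section
namespace BEp

variable {Ω : Set (Rn 3)} {K : Kx Ω} {f : Rn 3 → Rn 3} {ι : Type} {d : TopD ι}

theorem mv_fin {n : ℕ} {κ : Type} {S : Set κ} (hS : S.Finite) {W : κ → Set (Rn n)}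
    {Φ : κ → Rn n → Rn n} (h : ∀ k ∈ S, Mv (W k) (Φ k)) (hd : S.PairwiseDisjoint W) :
    ∃ Ψ, Mv (⋃ k ∈ S, W k) Ψ ∧ ∀ k ∈ S, EqOn Ψ (Φ k) (W k) := by
  induction S, hS using Set.Finite.induction_on with
  | empty => exact ⟨id, Mv.id' _, fun _ hk => hk.elim⟩
  | @insert a S ha _ ih =>
    obtain ⟨Ψ, h1, h2⟩ := ih (fun k hk => h k (mem_insert_of_mem _ hk))
      (hd.subset (subset_insert _ _))
    have h3 := h a (mem_insert _ _)
    have h4 (k : κ) (hk : k ∈ S) : Disjoint (W a) (W k) :=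
      hd (mem_insert _ _) (mem_insert_of_mem _ hk) fun e => ha (e ▸ hk)
    refine ⟨Φ a ∘ Ψ, (h3.mono (subset_biUnion_of_mem (u := W) (mem_insert _ _))).comp
      (h1.mono (biUnion_subset_biUnion_left (subset_insert _ _))), ?_⟩
    rintro k (rfl | hk) z hz
    · rw [comp_apply, h1.2 z fun e => ?_]
      obtain ⟨k', hk', e⟩ := mem_iUnion₂.1 e
      exact disjoint_left.1 (h4 k' hk') hz e
    · rw [comp_apply, h2 k hk hz]
      exact h3.2 _ fun e => disjoint_left.1 (h4 k hk) e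
        (((h k (mem_insert_of_mem _ hk)).image_eq subset_rfl).subset ⟨z, hz, rfl⟩)

variable {L : ι → Rn 3 ≃L[ℝ] Rn 3} {m : Set (Rn 3) → Rn 3} {M : Set (Rn 3) → Rn 3 ≃L[ℝ] Rn 3}
  {j : Set (Rn 3) → Fin 3} {τ : Set (Rn 3) → ℝ} {Θ : Rn 3 → Rn 3}

theorem sr4_shear {n : ℕ} (p : Rn n) {g : Rn n} {ρ : ℝ} (hρ : 0 < ρ) (hg : 2 * ‖g‖ ≤ ρ) :
    LH fun ζ => ζ + max 0 (1 - ‖ζ - p‖ / ρ) • g := by
  refine plsg_lh (K := 1 / 2) (((TP.const 0).max ((TP.const 1).sub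
    ((TP.id'.sub (TP.const p)).norm_pi.div_const ρ))).smul_const g) (by norm_num)
    (LipschitzWith.of_dist_le_mul fun x y => ?_)
  have h1 : |max 0 (1 - ‖x - p‖ / ρ) - max 0 (1 - ‖y - p‖ / ρ)| ≤ ‖x - y‖ / ρ := by
    rw [max_comm, max_comm 0]
    refine (abs_max_sub_max_le_abs _ _ _).trans ?_
    rw [sub_sub_sub_cancel_left, ← sub_div, abs_div, abs_of_pos hρ, abs_sub_comm]
    refine div_le_div_of_nonneg_right ((abs_norm_sub_norm_le _ _).trans ?_) hρ.le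
    rw [sub_sub_sub_cancel_right]
  rw [dist_eq_norm, dist_eq_norm, ← sub_smul, norm_smul, Real.norm_eq_abs]
  calc _ ≤ ‖x - y‖ / ρ * (ρ / 2) :=
        mul_le_mul h1 (by linarith only [hg]) (norm_nonneg _) (by positivity)
    _ = _ := by
      push_cast
      field_simp

theorem sr4_hz (d : TopD ι) (ζ v : Rn 3) (l : Fin 3) (σ t : ℝ) :
    hz l (ζ - d.s⁻¹ • d.pt v l σ t) = hz l (ζ - d.s⁻¹ • v) := by
  funext k
  by_cases e : k = l <;> simp [hz, TopD.pt, e]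

theorem sr4_near (h : TopIn K f d) (hL : ∀ i, Nm (d.B i) d.s (d.ε i) (L i)) {i : ι} {x z : Rn 3}
    (hx : x ∈ (d.B i).Q d.s 8) (hz : ‖nc (d.B i) d.s (L i) z - d.s⁻¹ • x‖ ≤ d.ww i) :
    ‖z - (d.B i).aff x‖ ≤ d.ε i := by
  have h1 := (hL i).ge h.s0 z ((d.B i).aff x)
  rw [(hL i).aff hx.1] at h1
  have := h.s0
  exact h1.trans ((mul_le_mul_of_nonneg_left hz (by positivity)).trans (rig_small h i).2.2.2.2.2)

theorem sr4_mark (h : TopIn K f d) (hL : ∀ i, Nm (d.B i) d.s (d.ε i) (L i))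
    (hm : MkS f d L m M j τ) {i : ι} {v : Rn 3} {l : Fin 3} {σ : ℝ} (hk : d.InE i v l σ) :
    ∃ t ∈ Icc (7 : ℝ) 9, m (d.ed v l σ) = d.pt v l σ t ∧ d.pt v l σ t ∈ (d.B i).Q d.s 8 ∧
      ‖nc (d.B i) d.s (L i) (f (m (d.ed v l σ))) - d.s⁻¹ • d.pt v l σ t‖ ≤ d.dl i := by
  obtain ⟨t, ht, h1, -⟩ := (hm.inner i v l σ hk).1
  have h2 : t ∈ Icc (0 : ℝ) 16 := ⟨by linarith [ht.1], by linarith [ht.2]⟩
  obtain ⟨-, -, -, h3, -, h4⟩ := arm_edge h hk.1
  have h5 := (ine_iff h hk.1).2 hk (h3.ge ⟨t, h2, rfl⟩)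
  refine ⟨t, ht, h1, h5, ?_⟩
  rw [h1]
  exact nc_close h (hL i) (h4 t h2).1 (Box.Q_mono h.s0 (by norm_num) h5)

theorem sr4_edge (h : TopIn K f d) {i : ι} {v x : Rn 3} {l : Fin 3} {σ t : ℝ}
    (ha : d.Arm i v l σ) (ht : t ∈ Icc (7 : ℝ) 9) (hx : x ∈ (d.B i).Sk d.s)
    (hn : ‖d.s⁻¹ • x - d.s⁻¹ • d.pt v l σ t‖ < 1) : x ∈ d.ed v l σ := by
  have s0 := h.s0
  obtain ⟨t1, t2⟩ := ht
  rw [← smul_sub, norm_smul, norm_inv, Real.norm_of_nonneg s0.le, inv_mul_lt_iff₀ s0,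
    mul_one] at hn
  have h1 : ‖d.pt v l σ t - v‖ = t * d.s := by
    rw [TopD.pt, add_sub_cancel_left, norm_smul, Pi.norm_single, norm_one, mul_one, norm_mul,
      Real.norm_of_nonneg (by positivity)]
    rcases ha.2.2.2 with rfl | rfl <;> simp
  obtain ⟨l', -, σ', h2, u, hu, rfl⟩ := sk_axis h ha.2.1 hx (by
    have := norm_sub_le_norm_sub_add_norm_sub x (d.pt v l σ t) v
    linarith only [hn, s0, h1, this, t2, mul_nonneg_of_nonpos_of_nonpos (le_of_lt (Mathlib.Tactic.Linarith.sub_neg_of_lt s0)) (Mathlib.Tactic.Linarith.sub_nonpos_of_le t2)])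
  have h3 := abs_lt.1 ((norm_le_pi_norm _ l).trans_lt hn)
  have h4 := mul_nonneg hu.1 s0.le
  have h5 := mul_le_mul_of_nonneg_right t1 s0.le
  by_cases e : l = l'
  · subst e
    simp only [TopD.pt, Pi.sub_apply, Pi.add_apply, Pi.smul_apply, Pi.single_eq_same,
      smul_eq_mul] at h3
    obtain ⟨rfl, h6⟩ : σ' = σ ∧ 0 < u * d.s := by
      rcases ha.2.2.2 with rfl | rfl <;> rcases h2 with rfl | rfl
      · exact ⟨rfl, by linarith [h3.1]⟩
      · exact absurd h3.1 (by linarith)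
      · exact absurd h3.2 (by linarith)
      · exact ⟨rfl, by linarith [h3.2]⟩
    exact (arm_edge h ha).2.2.2.2.1.ge ⟨u, ⟨(mul_pos_iff_of_pos_right s0).1 h6, hu.2⟩, rfl⟩
  · simp only [TopD.pt, Pi.sub_apply, Pi.add_apply, Pi.smul_apply, Pi.single_eq_same,
      Pi.single_eq_of_ne e, smul_eq_mul] at h3
    rcases ha.2.2.2 with rfl | rfl
    · exact absurd h3.1 (by linarith)
    · exact absurd h3.2 (by linarith)

theorem sr4_disj (h : TopIn K f d) (hL : ∀ i, Nm (d.B i) d.s (d.ε i) (L i))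
    (hm : MkS f d L m M j τ) {i i' : ι} {v v' z : Rn 3} {l l' : Fin 3} {σ σ' : ℝ}
    (hk : d.InE i v l σ) (hk' : d.InE i' v' l' σ')
    (hz : ‖nc (d.B i) d.s (L i) z - nc (d.B i) d.s (L i) (f (m (d.ed v l σ)))‖ < d.ww i / 4)
    (hz' : ‖nc (d.B i') d.s (L i') z - nc (d.B i') d.s (L i') (f (m (d.ed v' l' σ')))‖ <
      d.ww i' / 4) : d.ed v l σ = d.ed v' l' σ' := by
  obtain ⟨t, ht, -, a1, a2⟩ := sr4_mark h hL hm hk
  obtain ⟨t', ht', -, b1, b2⟩ := sr4_mark h hL hm hk'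
  have a3 := (norm_sub_le_norm_sub_add_norm_sub _ _ _).trans (add_le_add hz.le a2)
  have b3 := (norm_sub_le_norm_sub_add_norm_sub _ _ _).trans (add_le_add hz'.le b2)
  obtain ⟨-, w1, d0, d1, -⟩ := rig_small h i
  obtain ⟨-, -, d0', d1', -⟩ := rig_small h i'
  have a4 := sr4_near h hL a1 (a3.trans (by linarith only [d0, d1]))
  have b4 := sr4_near h hL b1 (b3.trans (by linarith only [d0', d1']))
  have e0 := (h.ε0 i).1
  have e1 := (h.ε0 i').1
  obtain rfl := box_uniq h (z := z) (Box.Q_mono h.s0 (by norm_num) a1)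
    (Box.Q_mono h.s0 (by norm_num) b1) (by linarith only [a4, e0]) (by linarith only [b4, e1])
  rw [norm_sub_rev] at b3
  have c1 := sr4_edge h hk.1 ht (pt_sk h hk'.1.2.1 hk'.1.2.2.1 σ' t')
    ((norm_sub_le_norm_sub_add_norm_sub _ _ _).trans_lt
      ((add_le_add b3 a3).trans_lt (by linarith only [w1, d0, d1])))
  obtain ⟨-, c2, -, -, c3, -⟩ := arm_edge h hk'.1
  exact (Kx.cell_eq (arm_edge h hk.1).2.1.2.2.1.1 c1).symm.trans (Kx.cell_eq c2.2.2.1.1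
    (c3.ge ⟨t', ⟨by linarith only [w1, d0, d1, ht', ht'.1], by linarith only [w1, d0, d1, ht', ht'.2]⟩, rfl⟩))

theorem ths_exists [Finite ι] (h : TopIn K f d) (hL : ∀ i, Nm (d.B i) d.s (d.ε i) (L i))
    (hm : MkS f d L m M j τ) : ∃ Θ, ThS f d L m Θ := by
  let N (i : ι) := nc (d.B i) d.s (L i)
  let p (k : ι × Rn 3 × Fin 3) := N k.1 (f (m (d.ed k.2.1 k.2.2 1)))
  let g (k : ι × Rn 3 × Fin 3) := -hz k.2.2 (p k - d.s⁻¹ • k.2.1)
  let sh (k : ι × Rn 3 × Fin 3) (ζ : Rn 3) := ζ + max 0 (1 - ‖ζ - p k‖ / (d.ww k.1 / 4)) • g k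
  have hN (i : ι) : LH (N i) := lh_nc h.s0
  have hg (k : ι × Rn 3 × Fin 3) (hk : d.InE k.1 k.2.1 k.2.2 1) : ‖g k‖ ≤ d.dl k.1 := by
    obtain ⟨t, -, -, -, h1⟩ := sr4_mark h hL hm hk
    rw [norm_neg, ← sr4_hz d _ _ _ 1 t]
    exact ((le_max_left _ _).trans (norm_eq_hz _ _).ge).trans h1
  obtain ⟨Ψ, h1, h2⟩ := mv_fin (S := {k : ι × Rn 3 × Fin 3 | d.InE k.1 k.2.1 k.2.2 1})
    (W := fun k => {z | ‖N k.1 z - p k‖ < d.ww k.1 / 4})
    (Φ := fun k => invFun (N k.1) ∘ sh k ∘ N k.1)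
    ((finite_iUnion fun i => (finite_singleton i).prod
      ((lat_finite h i).prod (finite_univ (α := Fin 3)))).subset fun k hk =>
        mem_iUnion.2 ⟨k.1, rfl, ⟨hk.1.1, hk.1.2.1⟩, mem_univ _⟩)
    (fun k hk => by
      obtain ⟨w0, -, d0, w1, -⟩ := rig_small h k.1
      have := hg k hk
      refine ⟨(hN _).inv.comp ((sr4_shear (p k) (by positivity) (by linarith only [d0, w1, this])).comp (hN _)),
        fun z hz => ?_⟩
      have e : max 0 (1 - ‖N k.1 z - p k‖ / (d.ww k.1 / 4)) = 0 :=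
        max_eq_left (sub_nonpos.2 ((one_le_div (by positivity)).2 (not_lt.1 hz)))
      simp only [comp_apply, sh, e, zero_smul, add_zero, (hN _).li])
    (by
      rintro ⟨i, v, l⟩ hk ⟨i', v', l'⟩ hk' hne
      refine disjoint_left.2 fun z hz hz' => hne ?_
      obtain ⟨rfl, rfl, h3⟩ := ed_uniq h hk.1 hk'.1 (sr4_disj h hL hm hk hk' hz hz')
      obtain rfl : v = v' := (h3.resolve_right fun e => by norm_num at e).1
      rfl)
  have key {i v l σ} (hk : d.InE i v l σ) {z : Rn 3}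
      (hz' : ‖N i z - N i (f (m (d.ed v l σ)))‖ < d.ww i / 4) :
      ‖hz l (N i (f (m (d.ed v l σ))) - d.s⁻¹ • v)‖ ≤ d.dl i ∧ N i (Ψ z) = N i z +
        max 0 (1 - ‖N i z - N i (f (m (d.ed v l σ)))‖ / (d.ww i / 4)) •
          -hz l (N i (f (m (d.ed v l σ))) - d.s⁻¹ • v) := by
    obtain ⟨v₀, a1, a2, a3⟩ : ∃ v₀, d.InE i v₀ l 1 ∧ d.ed v₀ l 1 = d.ed v l σ ∧
        ∀ ζ, hz l (ζ - d.s⁻¹ • v₀) = hz l (ζ - d.s⁻¹ • v) := by
      rcases hk.1.2.2.2 with rfl | rfl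
      · exact ⟨v, hk, rfl, fun _ => rfl⟩
      · have := ine_rev h hk
        rw [neg_neg] at this
        exact ⟨_, this.1, this.2.1, fun ζ => sr4_hz d ζ v l _ _⟩
    rw [← a2] at hz'
    rw [← a2, ← a3, h2 (i, v₀, l) a1 hz', ← norm_neg]
    exact ⟨hg (i, v₀, l) a1, (hN i).ri _⟩
  refine ⟨Ψ, h1.1, fun z hz => ?_, fun i v l σ hk z hz' => ?_, fun i v l σ hk => ?_⟩
  · obtain ⟨k, hk, e⟩ := mem_iUnion₂.1 (by_contra fun e => hz (h1.2 z e))
    exact ⟨k.1, k.2.1, k.2.2, 1, hk, e⟩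
  · obtain ⟨a1, a2⟩ := key hk hz'
    have w0 := (rig_small h i).1
    refine ⟨(congrFun a2 l).trans (by simp [hz, N]), ?_⟩
    rw [show nc _ _ _ _ = _ from a2, add_sub_cancel_left, norm_smul, norm_neg,
      Real.norm_of_nonneg (le_max_left _ _)]
    exact (mul_le_of_le_one_left (norm_nonneg _)
      (max_le zero_le_one (sub_le_self _ (by positivity)))).trans a1
  · have w0 := (rig_small h i).1
    rw [show nc _ _ _ _ = _ from (key hk (by rw [sub_self, norm_zero]; positivity)).2]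
    funext k
    by_cases e : k = l <;> simp [hz, e]

theorem sr4_core (h : TopIn K f d) (hL : ∀ i, Nm (d.B i) d.s (d.ε i) (L i))
    (hm : MkS f d L m M j τ) (hΘ : ThS f d L m Θ) {z : Rn 3} (hne : Θ z ≠ z) :
    ∃ i v l σ t, d.InE i v l σ ∧ t ∈ Icc (7 : ℝ) 9 ∧ d.pt v l σ t ∈ (d.B i).Q d.s 8 ∧
      ‖nc (d.B i) d.s (L i) z - d.s⁻¹ • d.pt v l σ t‖ ≤ d.ww i / 2 ∧
      ‖z - (d.B i).aff (d.pt v l σ t)‖ ≤ d.ε i ∧ ‖Θ z - (d.B i).aff (d.pt v l σ t)‖ ≤ d.ε i ∧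
      nc (d.B i) d.s (L i) (Θ z) l = nc (d.B i) d.s (L i) z l ∧
      ‖nc (d.B i) d.s (L i) (Θ z) - nc (d.B i) d.s (L i) z‖ ≤ d.dl i := by
  obtain ⟨i, v, l, σ, hk, hz⟩ := hΘ.supp z hne
  obtain ⟨h1, h2⟩ := hΘ.mov i v l σ hk z hz
  obtain ⟨t, ht, -, a1, a2⟩ := sr4_mark h hL hm hk
  obtain ⟨-, -, d0, d1, -⟩ := rig_small h i
  have a3 := (norm_sub_le_norm_sub_add_norm_sub _ _ _).trans (add_le_add hz.le a2)
  have a4 := (norm_sub_le_norm_sub_add_norm_sub _ _ _).trans (add_le_add h2 a3)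
  exact ⟨i, v, l, σ, t, hk, ht, a1, by linarith only [d0, d1, a3], sr4_near h hL a1 (by linarith only [d0, d1, a3]),
    sr4_near h hL a1 (by linarith only [d0, d1, a4]), h1, h2⟩

theorem sr4_on (h : TopIn K f d) (hL : ∀ i, Nm (d.B i) d.s (d.ε i) (L i))
    (hm : MkS f d L m M j τ) (hΘ : ThS f d L m Θ) {y : Rn 3} (hy : y ∈ K.sk 1)
    (hne : Θ (f y) ≠ f y) : ∃ i v l σ, d.InE i v l σ ∧ y ∈ d.ed v l σ ∧
      nc (d.B i) d.s (L i) (Θ (f y)) l = nc (d.B i) d.s (L i) (f y) l := by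
  obtain ⟨i, v, l, σ, t, hk, ht, a1, a2, a3, -, a4, -⟩ := sr4_core h hL hm hΘ hne
  have e0 := (h.ε0 i).1
  have b1 : y ∈ (d.B i).Q d.s 24 := Box.Q_mono (ρ := 16) h.s0 (by norm_num) (by_contra fun e => by
    linarith only [a3, e0, h, a1, hy, e, h.nohit i _ (Box.Q_mono h.s0 (by norm_num) a1) y hy.1 (Or.inl hy) e])
  have b2 := nc_close h (hL i) hy b1
  rw [norm_sub_rev] at b2
  obtain ⟨-, w1, d0, d1, -⟩ := rig_small h i
  exact ⟨i, v, l, σ, hk, sr4_edge h hk.1 ht ((sk_iff h b1).1 hy)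
    ((norm_sub_le_norm_sub_add_norm_sub _ _ _).trans_lt
      ((add_le_add b2 a2).trans_lt (by linarith only [w1, d0, d1]))), a4⟩

theorem ths_supp (h : TopIn K f d) (hL : ∀ i, Nm (d.B i) d.s (d.ε i) (L i))
    (hm : MkS f d L m M j τ) (hΘ : ThS f d L m Θ) {z : Rn 3} (hne : Θ z ≠ z) :
    ∃ i, (∃ x ∈ (d.B i).Q d.s 8, ‖z - (d.B i).aff x‖ ≤ d.ε i) ∧
      ∃ x ∈ (d.B i).Q d.s 8, ‖Θ z - (d.B i).aff x‖ ≤ d.ε i := by
  obtain ⟨i, v, l, σ, t, -, -, h1, -, h2, h3, -⟩ := sr4_core h hL hm hΘ hne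
  exact ⟨i, ⟨_, h1, h2⟩, _, h1, h3⟩

theorem ths_img (h : TopIn K f d) (hL : ∀ i, Nm (d.B i) d.s (d.ε i) (L i))
    (hm : MkS f d L m M j τ) (hΘ : ThS f d L m Θ) : Θ '' (f '' Ω) = f '' Ω := by
  refine Mv.image_eq (W := f '' Ω) ⟨hΘ.lh, fun z hz => by_contra fun e => hz ?_⟩ subset_rfl
  obtain ⟨i, ⟨x, h1, h2⟩, -⟩ := ths_supp h hL hm hΘ e
  have := (h.ε0 i).1
  exact h.rsub i x (Box.Q_mono h.s0 (by norm_num) h1) (mem_closedBall_iff_norm.2 (by linarith))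

theorem ths_close (h : TopIn K f d) (hL : ∀ i, Nm (d.B i) d.s (d.ε i) (L i))
    (hm : MkS f d L m M j τ) (hΘ : ThS f d L m Θ) {i : ι} {x : Rn 3} (h1 : x ∈ K.sk 1)
    (h2 : x ∈ (d.B i).Q d.s 12) :
    ‖nc (d.B i) d.s (L i) (Θ (f x)) - d.s⁻¹ • x‖ ≤ 2 * d.dl i := by
  have h3 := nc_close h (hL i) h1 (Box.Q_mono h.s0 (by norm_num) h2)
  obtain ⟨-, -, d0, -, d1, -⟩ := rig_small h i
  by_cases e : Θ (f x) = f x
  · rw [e]
    linarith
  obtain ⟨i', v, l, σ, t, -, -, a1, -, a2, -, -, a3⟩ := sr4_core h hL hm hΘ e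
  have := h.close i x ⟨h1, Box.Q_mono h.s0 (by norm_num) h2⟩
  have e0 := h.ε0 i
  have e1 := (h.ε0 i').1
  obtain rfl := box_uniq h (z := f x) h2 (Box.Q_mono h.s0 (by norm_num) a1) (by linarith)
    (by linarith)
  linarith [norm_sub_le_norm_sub_add_norm_sub (nc (d.B i) d.s (L i) (Θ (f x)))
    (nc (d.B i) d.s (L i) (f x)) (d.s⁻¹ • x)]

theorem ths_arm (h : TopIn K f d) (hL : ∀ i, Nm (d.B i) d.s (d.ε i) (L i))
    (hm : MkS f d L m M j τ) (hΘ : ThS f d L m Θ) {i : ι} {v : Rn 3} {l : Fin 3} {σ u : ℝ}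
    (hu : u ∈ Icc (0 : ℝ) 16) :
    (d.InE i v l σ → nc (d.B i) d.s (L i) (Θ (f (d.pt v l σ u))) l =
      nc (d.B i) d.s (L i) (f (d.pt v l σ u)) l) ∧
    (d.ExE i v l σ → Θ (f (d.pt v l σ u)) = f (d.pt v l σ u)) := by
  have key (ha : d.Arm i v l σ) (e : Θ (f (d.pt v l σ u)) ≠ f (d.pt v l σ u)) :
      d.InE i v l σ ∧ nc (d.B i) d.s (L i) (Θ (f (d.pt v l σ u))) l =
        nc (d.B i) d.s (L i) (f (d.pt v l σ u)) l := by
    obtain ⟨-, b1, b2, -, b3, b4⟩ := arm_edge h ha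
    obtain ⟨i', v', l', σ', a1, a2, a3⟩ := sr4_on h hL hm hΘ (b4 u hu).1 e
    have c1 := (arm_edge h a1.1).2.1.2.2.1
    have c2 := Kx.cell_eq c1.1 a2
    have c3 : K.cell (d.pt v l σ u) ≠ {d.pt v l σ u} := fun e => by
      have := (Kx.dm_zero c1.1).2 ⟨_, c2.symm.trans e⟩
      rw [c1.2] at this
      exact one_ne_zero this
    have c4 : u ∈ Ioo (0 : ℝ) 16 := by
      refine ⟨hu.1.lt_of_ne ?_, hu.2.lt_of_ne ?_⟩
      · rintro rfl
        exact c3 (by simpa [TopD.pt] using b1.2.1)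
      · rintro rfl
        exact c3 ((rv_lat h (Box.Q_mono h.s0 (by norm_num) (b4 16 hu).2)).2 b2)
    have c5 : d.ed v l σ = d.ed v' l' σ' :=
      (Kx.cell_eq b1.2.2.1.1 (b3.ge ⟨u, c4, rfl⟩)).symm.trans c2
    obtain ⟨rfl, rfl, -⟩ := ed_uniq h ha a1.1 c5
    exact ⟨(ine_iff h ha).1 (c5 ▸ (ine_iff h a1.1).2 a1), a3⟩
  refine ⟨fun ha => ?_, fun ha => by_contra fun e => ha.2 (key ha.1 e).1.2⟩
  by_cases e : Θ (f (d.pt v l σ u)) = f (d.pt v l σ u)
  · rw [e]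
  · exact (key ha.1 e).2

theorem ths_fix (h : TopIn K f d) (hL : ∀ i, Nm (d.B i) d.s (d.ε i) (L i))
    (hm : MkS f d L m M j τ) (hΘ : ThS f d L m Θ) {y : Rn 3} (h1 : y ∈ K.sk 1)
    (h2 : ∀ i, y ∉ (d.B i).Q d.s 8) : Θ (f y) = f y := by
  by_contra e
  obtain ⟨i, v, l, σ, a1, a2, -⟩ := sr4_on h hL hm hΘ h1 e
  exact h2 i ((ine_iff h a1.1).2 a1 (subset_closure a2))

theorem ths_nohit (h : TopIn K f d) (hL : ∀ i, Nm (d.B i) d.s (d.ε i) (L i))
    (hm : MkS f d L m M j τ) (hΘ : ThS f d L m Θ) {i : ι} {x y : Rn 3}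
    (hx : x ∈ (d.B i).Q d.s 12) (hy : y ∈ Ω) (h1 : y ∈ K.sk 1 ∨ y ∈ (d.B i).Sk d.s)
    (h2 : y ∉ (d.B i).Q d.s 16) : d.ε i < ‖Θ (f y) - (d.B i).aff x‖ := by
  have h3 := h.nohit i x hx y hy h1 h2
  have e0 := (h.ε0 i).1
  by_contra h4
  rw [not_lt] at h4
  by_cases e : Θ (f y) = f y
  · rw [e] at h4
    linarith
  obtain ⟨i', v, l, σ, t, -, -, a1, -, a2, a3, -⟩ := sr4_core h hL hm hΘ e
  have e1 := (h.ε0 i').1
  obtain rfl := box_uniq h (z := Θ (f y)) hx (Box.Q_mono h.s0 (by norm_num) a1) (by linarith)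
    (by linarith)
  rw [norm_sub_rev] at a3
  linarith [norm_sub_le_norm_sub_add_norm_sub (f y) ((d.B i).aff (d.pt v l σ t)) ((d.B i).aff x),
    norm_sub_le_norm_sub_add_norm_sub ((d.B i).aff (d.pt v l σ t)) (Θ (f y)) ((d.B i).aff x)]

end BEp
end
end

-- merged part: Pool.Agent.Work.MP_f0515e_an.D3.SRig5
section
/-! The beads at rigid vertices: existence, membership, location, values on the arms.
`top_est`: inner `H = σ * (nc (f m) - s⁻¹ • v) l`; exit `H = τ * (f m - aff v) j / (s * ‖A e_l‖)`, split `z = hz l z + z l • e_l`.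
`rgs_exists`: `Φ v x = aff v + s • L (Φ₀ x)`, `Φ₀` from `gauge_chart`; the box of a vertex is unique (`disj`); `topT` depends only on
`m` and `j`. `rgs_arm`: `Up1` and `ths_arm`; the denominator has the sign of `σ`, resp. `τ`. About 350 lines. -/

open Set Metric Filter Topology Function BEv
open scoped NNReal

noncomputable section
namespace BEp

variable {Ω : Set (Rn 3)} {K : Kx Ω} {f : Rn 3 → Rn 3} {ι : Type} {d : TopD ι}

variable {L : ι → Rn 3 ≃L[ℝ] Rn 3} {r : RigD}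

theorem SRig5_pt (h : TopIn K f d) {i : ι} {v : Rn 3} {l : Fin 3} {σ u : ℝ} (ha : d.Arm i v l σ)
    (hu : u ∈ Icc (0 : ℝ) 16) : d.pt v l σ u ∈ K.sk 1 ∧ d.pt v l σ u ∈ (d.B i).Q d.s 24 :=
  let k := (arm_edge h ha).2.2.2.2.2 u hu
  ⟨k.1, Box.Q_mono h.s0 (by linarith [hu.2]) k.2⟩

theorem SRig5_sm (h : TopIn K f d) (v : Rn 3) (l : Fin 3) (σ u : ℝ) :
    d.s⁻¹ • d.pt v l σ u = d.s⁻¹ • v + (u * σ) • (Pi.single l 1 : Rn 3) := by
  rw [TopD.pt, smul_add, smul_smul]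
  congr 2
  field_simp [h.s0.ne']

theorem SRig5_sq {σ : ℝ} (h : σ = 1 ∨ σ = -1) : σ * σ = 1 ∧ |σ| = 1 ∧ σ ≠ 0 := by
  rcases h with rfl | rfl <;> norm_num

theorem SRig5_abs {σ : ℝ} (h : |σ| = 1) (x : ℝ) : |x| = |σ * x| := by rw [abs_mul, h, one_mul]

theorem SRig5_in (h : TopIn K f d) {i : ι} (hL : Nm (d.B i) d.s (d.ε i) (L i)) {v : Rn 3}
    {l : Fin 3} {σ u : ℝ} (ha : d.Arm i v l σ) (hu : u ∈ Icc (0 : ℝ) 16) :
    |σ * (nc (d.B i) d.s (L i) (f (d.pt v l σ u)) - d.s⁻¹ • v) l - u| ≤ d.dl i := by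
  have k := (norm_le_pi_norm _ l).trans (nc_close h hL (SRig5_pt h ha hu).1 (SRig5_pt h ha hu).2)
  obtain ⟨s1, s2, -⟩ := SRig5_sq ha.2.2.2
  rw [SRig5_sm h, ← sub_sub, Pi.sub_apply, Real.norm_eq_abs, SRig5_abs s2] at k
  refine le_of_eq_of_le (congrArg _ ?_) k
  simp only [Pi.smul_apply, Pi.single_eq_same, smul_eq_mul]
  linear_combination u * s1

theorem SRig5_ex (h : TopIn K f d) {i : ι} {v : Rn 3} {l j : Fin 3} {σ τ u : ℝ}
    (ha : d.Arm i v l σ) (hu : u ∈ Icc (0 : ℝ) 16) (hτ : τ = 1 ∨ τ = -1)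
    (hj : τ * σ * (d.B i).A (Pi.single l 1 : Rn 3) j = ‖(d.B i).A (Pi.single l 1 : Rn 3)‖) :
    |τ * (f (d.pt v l σ u) - (d.B i).aff v) j -
      u * (d.s * ‖(d.B i).A (Pi.single l 1 : Rn 3)‖)| ≤ d.ε' i := by
  have k := (norm_le_pi_norm _ j).trans (h.close i _ (SRig5_pt h ha hu))
  have e : (d.B i).aff (d.pt v l σ u) =
      (d.B i).aff v + (u * d.s * σ) • (d.B i).A (Pi.single l 1 : Rn 3) := by
    rw [Box.aff, Box.aff, TopD.pt, add_sub_right_comm, map_add, map_smul, add_right_comm]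
  rw [e, ← sub_sub, Pi.sub_apply, Real.norm_eq_abs, SRig5_abs (SRig5_sq hτ).2.1] at k
  refine le_of_eq_of_le (congrArg _ ?_) k
  simp only [Pi.smul_apply, Pi.sub_apply, smul_eq_mul]
  linear_combination u * d.s * hj

theorem SRig5_low (h : TopIn K f d) {i : ι} {l : Fin 3} (hl : l ∈ (d.B i).I) :
    (∀ k, k ∉ (d.B i).I → (Pi.single l 1 : Rn 3) k = 0) ∧
      1000 * d.ε i ≤ d.s * ‖(d.B i).A (Pi.single l 1 : Rn 3)‖ := by
  have k : ∀ k, k ∉ (d.B i).I → (Pi.single l 1 : Rn 3) k = 0 := fun k hk =>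
    Pi.single_eq_of_ne (fun e : k = l => hk (e ▸ hl)) _
  have k1 := h.low i (Pi.single l 1 : Rn 3) k
  have k2 : ‖(Pi.single l 1 : Rn 3)‖ = 1 := by rw [Pi.norm_single, norm_one]
  exact ⟨k, by rwa [k2, mul_one] at k1⟩

theorem SRig5_back {i : ι} (hL : Nm (d.B i) d.s (d.ε i) (L i)) {v : Rn 3}
    (hv : v ∈ (d.B i).slice) (y : Rn 3) :
    nc (d.B i) d.s (L i) y - d.s⁻¹ • v = d.s⁻¹ • (L i).symm (y - (d.B i).aff v) := by
  rw [← hL.aff hv, nc_sub]

theorem top_est (h : TopIn K f d) (hL : ∀ i, Nm (d.B i) d.s (d.ε i) (L i))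
    (hm : MkS f d L r.b.m r.b.M r.j r.σ) {i : ι} {v : Rn 3} {l : Fin 3} {σ : ℝ}
    (ha : d.Arm i v l σ) : ∃ H ∈ Icc (2 : ℝ) (91 / 10), (d.ExE i v l σ → H ≤ 36 / 10) ∧
      ∀ z, |H * topT f d L r i v (l, σ) z - σ * z l| ≤ ‖hz l z‖ / (100 * d.ww i) := by
  obtain ⟨w0, w1, d0, d1, e1, e2⟩ := rig_small h i
  obtain ⟨s1, s2, s3⟩ := SRig5_sq ha.2.2.2
  by_cases hi : d.pt v l σ 16 ∈ (d.B i).Q d.s 8
  · obtain ⟨⟨t, ht, e, -⟩, -⟩ := hm.inner i v l σ ⟨ha, hi⟩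
    have k := abs_le.1 (SRig5_in h (hL i) ha (u := t) ⟨by linarith only [w1, d0, d1, ht, ht.1], by linarith [ht.2]⟩)
    rw [← e] at k
    refine ⟨σ * (nc (d.B i) d.s (L i) (f (r.b.m (d.ed v l σ))) - d.s⁻¹ • v) l,
      ⟨by linarith only [w1, d0, d1, k, ht, ht.1], by linarith only [w1, d0, d1, k, ht, ht.2]⟩, fun k => (k.2 hi).elim, fun z => ?_⟩
    have k0 : (nc (d.B i) d.s (L i) (f (r.b.m (d.ed v l σ))) - d.s⁻¹ • v) l ≠ 0 := fun k0 => by
      rw [k0] at k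
      linarith [ht.1]
    rw [topT, if_pos hi, mul_assoc, mul_div_cancel₀ _ k0, sub_self, abs_zero]
    positivity
  · obtain ⟨hτ, hj, t, ht, e, -⟩ := hm.exit i v l σ ⟨ha, hi⟩
    have k := abs_le.1 (SRig5_ex h ha (u := t) ⟨by linarith only [w1, d0, d1, ht, ht.1], by linarith only [w1, d0, d1, ht, ht.2]⟩ hτ hj)
    rw [← e] at k
    obtain ⟨l1, l2⟩ := SRig5_low h ha.2.2.1
    obtain ⟨ε0, ε1⟩ := h.ε0 i
    have s0 := h.s0
    rw [← (hL i).ext _ l1] at hj k l2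
    generalize r.σ (d.ed v l σ) = τ at *
    have ht1 := ht.1
    have ht2 := ht.2
    set j := r.j (d.ed v l σ) with hj'
    set D := (f (r.b.m (d.ed v l σ)) - (d.B i).aff v) j with hD
    set a := ‖L i (Pi.single l 1)‖
    have a0 : 0 < d.s * a := by linarith only [e1, ε1, l2]
    have a1 : 0 < a := (mul_pos_iff_of_pos_left s0).1 a0
    have k0 : D ≠ 0 := fun k0 => by
      rw [k0] at k
      linarith only [e1, l2, k, w1, ε0, d0, ε1, d1, ht1, mul_nonneg_of_nonpos_of_nonpos (Mathlib.Tactic.Linarith.sub_nonpos_of_le w1) (le_of_lt (Mathlib.Tactic.Linarith.sub_neg_of_lt ε0)), mul_nonneg_of_nonpos_of_nonpos (le_of_lt (Mathlib.Tactic.Linarith.sub_neg_of_lt d0)) (Mathlib.Tactic.Linarith.sub_nonpos_of_le e1), mul_pos_of_neg_of_neg (Mathlib.Tactic.Linarith.sub_neg_of_lt d0) (Mathlib.Tactic.Linarith.sub_neg_of_lt ε1), mul_nonneg_of_nonpos_of_nonpos (Mathlib.Tactic.Linarith.sub_nonpos_of_le d1) (le_of_lt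 (Mathlib.Tactic.Linarith.sub_neg_of_lt ε0)), mul_nonneg_of_nonpos_of_nonpos (le_of_lt (Mathlib.Tactic.Linarith.sub_neg_of_lt ε0)) (Mathlib.Tactic.Linarith.sub_nonpos_of_le ht1), mul_nonneg_of_nonpos_of_nonpos (Mathlib.Tactic.Linarith.sub_nonpos_of_le ht1) (Mathlib.Tactic.Linarith.sub_nonpos_of_le l2)]
    refine ⟨τ * D / (d.s * a), ⟨(le_div_iff₀ a0).2 (by (refine le_of_not_gt fun h_nl => ?_; linarith only [h_nl, e1, l2, k, w1, ε0, d0, ε1, d1, ht1, mul_nonneg_of_nonpos_of_nonpos (Mathlib.Tactic.Linarith.sub_nonpos_of_le w1) (le_of_lt (Mathlib.Tactic.Linarith.sub_neg_of_lt ε0)), mul_nonneg_of_nonpos_of_nonpos (Mathlib.Tactic.Linarith.sub_nonpos_of_le w1) (le_of_lt (Mathlib.Tactic.Linarith.sub_neg_of_lt h_nl)), mul_nonneg_of_nonpos_of_nonpos (le_of_lt (Mathlib.Tactic.Linarith.sub_neg_of_lt d0)) (Mathlib.Tactic.Linarith.sub_nonpos_of_le e1), mul_pos_of_neg_of_neg (Mathlib.Tactic.Linarith.sub_neg_of_lt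 d0) (Mathlib.Tactic.Linarith.sub_neg_of_lt ε1), mul_pos_of_neg_of_neg (Mathlib.Tactic.Linarith.sub_neg_of_lt d0) (Mathlib.Tactic.Linarith.sub_neg_of_lt h_nl), mul_nonneg_of_nonpos_of_nonpos (Mathlib.Tactic.Linarith.sub_nonpos_of_le d1) (le_of_lt (Mathlib.Tactic.Linarith.sub_neg_of_lt ε0)), mul_nonneg_of_nonpos_of_nonpos (Mathlib.Tactic.Linarith.sub_nonpos_of_le d1) (le_of_lt (Mathlib.Tactic.Linarith.sub_neg_of_lt h_nl)), mul_nonneg_of_nonpos_of_nonpos (le_of_lt (Mathlib.Tactic.Linarith.sub_neg_of_lt ε0)) (Mathlib.Tactic.Linarith.sub_nonpos_of_le ht1), mul_nonneg_of_nonpos_of_nonpos (Mathlib.Tactic.Linarith.sub_nonpos_of_le ht1) (Mathlib.Tactic.Linarith.sub_nonpos_of_le l2)])), (div_le_iff₀ a0).2 (by (refine le_of_not_gt fun h_nl => ?_; linarith only [h_nl, e1, l2, k, w1, ε0, d0, ε1, d1, ht2, mul_nonneg_of_nonpos_of_nonpos (Mathlib.Tactic.Linarith.sub_nonpos_of_le w1) (le_of_lt (Mathlib.Tactic.Linarith.sub_neg_of_lt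 ε0)), mul_nonneg_of_nonpos_of_nonpos (Mathlib.Tactic.Linarith.sub_nonpos_of_le w1) (le_of_lt (Mathlib.Tactic.Linarith.sub_neg_of_lt h_nl)), mul_nonneg_of_nonpos_of_nonpos (le_of_lt (Mathlib.Tactic.Linarith.sub_neg_of_lt d0)) (Mathlib.Tactic.Linarith.sub_nonpos_of_le e1), mul_pos_of_neg_of_neg (Mathlib.Tactic.Linarith.sub_neg_of_lt d0) (Mathlib.Tactic.Linarith.sub_neg_of_lt ε1), mul_pos_of_neg_of_neg (Mathlib.Tactic.Linarith.sub_neg_of_lt d0) (Mathlib.Tactic.Linarith.sub_neg_of_lt h_nl), mul_nonneg_of_nonpos_of_nonpos (Mathlib.Tactic.Linarith.sub_nonpos_of_le d1) (le_of_lt (Mathlib.Tactic.Linarith.sub_neg_of_lt ε0)), mul_nonneg_of_nonpos_of_nonpos (Mathlib.Tactic.Linarith.sub_nonpos_of_le d1) (le_of_lt (Mathlib.Tactic.Linarith.sub_neg_of_lt h_nl)), mul_nonneg_of_nonpos_of_nonpos (le_of_lt (Mathlib.Tactic.Linarith.sub_neg_of_lt ε0)) (Mathlib.Tactic.Linarith.sub_nonpos_of_le ht2), mul_nonneg_of_nonpos_of_nonpos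 (Mathlib.Tactic.Linarith.sub_nonpos_of_le ht2) (Mathlib.Tactic.Linarith.sub_nonpos_of_le l2)]))⟩,
      fun _ => (div_le_iff₀ a0).2 (by (refine le_of_not_gt fun h_nl => ?_; linarith only [h_nl, e1, l2, k, w1, ε0, d0, ε1, d1, ht2, mul_nonneg_of_nonpos_of_nonpos (Mathlib.Tactic.Linarith.sub_nonpos_of_le w1) (le_of_lt (Mathlib.Tactic.Linarith.sub_neg_of_lt ε0)), mul_nonneg_of_nonpos_of_nonpos (Mathlib.Tactic.Linarith.sub_nonpos_of_le w1) (le_of_lt (Mathlib.Tactic.Linarith.sub_neg_of_lt h_nl)), mul_nonneg_of_nonpos_of_nonpos (le_of_lt (Mathlib.Tactic.Linarith.sub_neg_of_lt d0)) (Mathlib.Tactic.Linarith.sub_nonpos_of_le e1), mul_pos_of_neg_of_neg (Mathlib.Tactic.Linarith.sub_neg_of_lt d0) (Mathlib.Tactic.Linarith.sub_neg_of_lt ε1), mul_pos_of_neg_of_neg (Mathlib.Tactic.Linarith.sub_neg_of_lt d0) (Mathlib.Tactic.Linarith.sub_neg_of_lt h_nl), mul_nonneg_of_nonpos_of_nonpos (Mathlib.Tactic.Linarith.sub_nonpos_of_le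 d1) (le_of_lt (Mathlib.Tactic.Linarith.sub_neg_of_lt ε0)), mul_nonneg_of_nonpos_of_nonpos (Mathlib.Tactic.Linarith.sub_nonpos_of_le d1) (le_of_lt (Mathlib.Tactic.Linarith.sub_neg_of_lt h_nl)), mul_nonneg_of_nonpos_of_nonpos (le_of_lt (Mathlib.Tactic.Linarith.sub_neg_of_lt ε0)) (Mathlib.Tactic.Linarith.sub_nonpos_of_le ht2), mul_nonneg_of_nonpos_of_nonpos (Mathlib.Tactic.Linarith.sub_nonpos_of_le ht2) (Mathlib.Tactic.Linarith.sub_nonpos_of_le l2)])), fun z => ?_⟩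
    have z1 : z = hz l z + z l • (Pi.single l 1 : Rn 3) := by
      ext k
      by_cases hk : k = l <;> simp [hz, hk]
    have z2 : L i z j = L i (hz l z) j + z l * L i (Pi.single l 1) j := by
      conv_lhs => rw [z1, map_add, map_smul]
      rfl
    have z3 : τ * D / (d.s * a) * topT f d L r i v (l, σ) z - σ * z l = τ * L i (hz l z) j / a := by
      rw [topT, if_neg hi, ← hj', ← hD, Pi.smul_apply, smul_eq_mul, z2]
      field_simp
      linear_combination σ * z l * hj - τ * z l * L i (Pi.single l 1) j * s1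
    have z4 := (norm_le_pi_norm _ j).trans ((hL i).hi (hz l z))
    rw [z3, abs_div, abs_mul, (SRig5_sq hτ).2.1, one_mul, abs_of_pos a1,
      div_le_div_iff₀ a1 (by positivity)]
    have z5 : 2 * ‖(d.B i).A‖ * (100 * d.ww i) ≤ a :=
      le_of_mul_le_mul_left (by linarith only [e1, e2, ε1, l2]) s0
    calc _ ≤ 2 * ‖(d.B i).A‖ * ‖hz l z‖ * (100 * d.ww i) :=
          mul_le_mul_of_nonneg_right z4 (by positivity)
      _ = ‖hz l z‖ * (2 * ‖(d.B i).A‖ * (100 * d.ww i)) := by ring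
      _ ≤ _ := mul_le_mul_of_nonneg_left z5 (norm_nonneg _)

theorem top_ok (h : TopIn K f d) (hL : ∀ i, Nm (d.B i) d.s (d.ε i) (L i))
    (hm : MkS f d L r.b.m r.b.M r.j r.σ) {i : ι} {v : Rn 3} {l : Fin 3} {σ : ℝ}
    (ha : d.Arm i v l σ) : ArmOk (d.ww i) l σ (topT f d L r i v (l, σ)) := by
  obtain ⟨H, hH, -, k⟩ := top_est h hL hm ha
  refine ⟨ha.2.2.2, ?_, H, ⟨hH.1, by linarith [hH.2]⟩, k⟩
  by_cases hi : d.pt v l σ 16 ∈ (d.B i).Q d.s 8
  · refine ⟨((nc (d.B i) d.s (L i) (f (r.b.m (d.ed v l σ))) - d.s⁻¹ • v) l)⁻¹ •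
      ContinuousLinearMap.proj l, funext fun z => ?_⟩
    rw [topT, if_pos hi, div_eq_inv_mul]
    rfl
  · refine ⟨((f (r.b.m (d.ed v l σ)) - (d.B i).aff v) (r.j (d.ed v l σ)))⁻¹ • d.s •
      (ContinuousLinearMap.proj (r.j (d.ed v l σ))).comp (L i : Rn 3 →L[ℝ] Rn 3), funext fun z => ?_⟩
    rw [topT, if_neg hi, div_eq_inv_mul]
    rfl

theorem mem_dirs {B : Box 1} {a : Fin 3 × ℝ} :
    a ∈ dirs B ↔ a.1 ∈ B.I ∧ (a.2 = 1 ∨ a.2 = -1) := by
  rw [dirs, Finset.mem_product, Finset.mem_insert, Finset.mem_singleton]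

theorem SRig5_arm (h : TopIn K f d) {i : ι} {v : Rn 3} (hv : RV K d i v) {a : Fin 3 × ℝ}
    (ha : a ∈ dirs (d.B i)) : d.Arm i v a.1 a.2 :=
  ⟨hv.1, (rv_lat h (Box.Q_mono h.s0 (by norm_num) hv.1)).1 hv.2, mem_dirs.1 ha⟩

theorem rgs_exists [Finite ι] (h : TopIn K f d) : ∃ L r, RgS K f d L r := by
  choose L hL using nm_exists h
  obtain ⟨m, M, j, τ, hm⟩ := mks_exists h hL
  obtain ⟨Θ, hΘ⟩ := ths_exists h hL hm
  have key : ∀ v, ∃ Φ : Rn 3 → Rn 3, ∀ i, RV K d i v → LH Φ ∧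
      (∀ x (t : ℝ), 0 ≤ t → Φ (t • x) = (d.B i).aff v + t • (Φ x - (d.B i).aff v)) ∧
      ∀ x, bdN f d L ⟨Θ, ⟨m, M, fun _ => id⟩, j, τ⟩ i v (Φ x) = ‖x‖ := by
    intro v
    by_cases k : ∃ i, RV K d i v
    · obtain ⟨i, hi⟩ := k
      obtain ⟨Φ, p1, p2, p3⟩ := gauge_chart (cross_gauge (rig_small h i).1 fun a ha =>
        top_ok (r := ⟨Θ, ⟨m, M, fun _ => id⟩, j, τ⟩) h hL hm (SRig5_arm h hi ha))
      refine ⟨(fun y => (d.B i).aff v + d.s • y) ∘ (fun y => L i y + 0) ∘ Φ, fun i' hi' => ?_⟩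
      obtain rfl : i = i' := by
        by_contra e
        exact disjoint_left.1 (h.disj i i' e) (Box.Q_mono h.s0 (by norm_num) hi.1)
          (Box.Q_mono h.s0 (by norm_num) hi'.1)
      refine ⟨(lh_hom _ h.s0.ne').comp ((lh_aff _ _).comp p1), fun x t ht => ?_, fun x => ?_⟩
      · simp only [comp_apply, add_zero, p3 x t ht, map_smul, add_sub_cancel_left, smul_comm t]
      · rw [← p2, bdN, SRig5_back (hL i) hi.1.1]
        simp only [comp_apply, add_zero, add_sub_cancel_left, map_smul,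
          ContinuousLinearEquiv.symm_apply_apply, inv_smul_smul₀ h.s0.ne']
    · exact ⟨id, fun i hi => (k ⟨i, hi⟩).elim⟩
  choose Φ hΦ using key
  exact ⟨L, ⟨Θ, ⟨m, M, Φ⟩, j, τ⟩, hL, hm, hΘ, fun i v k => (hΦ v i k).1,
    fun i v k => (hΦ v i k).2.1, fun i v k => (hΦ v i k).2.2⟩

theorem rgs_mem (h : RgS K f d L r) {i : ι} {v : Rn 3} (hv : RV K d i v) (z : Rn 3) :
    (z ∈ r.b.B v ↔ bdN f d L r i v z ≤ 1) ∧ (z ∈ r.b.S v ↔ bdN f d L r i v z = 1) := by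
  obtain ⟨x, rfl⟩ := (h.lh i v hv).1.2 z
  rw [BdD.B, BdD.S, (h.lh i v hv).inj.mem_set_image, (h.lh i v hv).inj.mem_set_image, h.gau i v hv,
    mem_closedBall_zero_iff, mem_sphere_zero_iff_norm]
  exact ⟨Iff.rfl, Iff.rfl⟩

theorem rgs_shape (h : TopIn K f d) (hr : RgS K f d L r) {i : ι} {v z : Rn 3}
    (hv : RV K d i v) (hB : z ∈ r.b.B v) : ∃ l σ, d.Arm i v l σ ∧
      ‖hz l (nc (d.B i) d.s (L i) z - d.s⁻¹ • v)‖ ≤ d.ww i ∧
      -d.ww i ≤ σ * (nc (d.B i) d.s (L i) z - d.s⁻¹ • v) l ∧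
      σ * (nc (d.B i) d.s (L i) z - d.s⁻¹ • v) l ≤ 10 ∧
      (d.ExE i v l σ → σ * (nc (d.B i) d.s (L i) z - d.s⁻¹ • v) l ≤ 4) ∧
      (d.ww i < σ * (nc (d.B i) d.s (L i) z - d.s⁻¹ • v) l →
        topT f d L r i v (l, σ) (nc (d.B i) d.s (L i) z - d.s⁻¹ • v) ≤ 1 ∧
        2 * topT f d L r i v (l, σ) (nc (d.B i) d.s (L i) z - d.s⁻¹ • v) +
          2 * (‖hz l (nc (d.B i) d.s (L i) z - d.s⁻¹ • v)‖ / d.ww i) ≤ 3) := by
  obtain ⟨w0, w1, -⟩ := rig_small h i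
  have k := cross_le w0 ((rgs_mem hr hv z).1.1 hB)
  generalize nc (d.B i) d.s (L i) z - d.s⁻¹ • v = ζ at k ⊢
  rcases k with k | ⟨⟨l, σ⟩, ha, k1, k2, k3, k4⟩
  · obtain ⟨l, hl⟩ := Finset.card_pos.1 (one_pos.trans (h.card i))
    rw [norm_eq_hz l, max_le_iff, abs_le] at k
    refine ⟨l, 1, SRig5_arm h hv (a := (l, 1)) (mem_dirs.2 ⟨hl, Or.inl rfl⟩), k.1, ?_, ?_,
      fun _ => ?_, fun k' => absurd k' ?_⟩ <;> rw [one_mul] <;> linarith [k.2.1, k.2.2]
  · obtain ⟨H, hH, e1, e2⟩ := top_est h hr.nm hr.mks (SRig5_arm h hv ha)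
    have e3 := (abs_le.1 (e2 ζ)).1
    have e4 : ‖hz l ζ‖ / (100 * d.ww i) ≤ 1 / 100 := by
      rw [div_le_div_iff₀ (by positivity) (by norm_num)]
      linarith only [k1]
    have e5 : H * topT f d L r i v (l, σ) ζ ≤ H := mul_le_of_le_one_right (by linarith only [w0, w1, hH, hH.1]) k3
    exact ⟨l, σ, SRig5_arm h hv ha, k1, k2, by linarith only [w0, w1, e3, e4, e5, hH, hH.2], fun e => by linarith only [w0, w1, e3, e4, e5, e1, e, e1 e],
      fun _ => ⟨k3, k4⟩⟩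

theorem rgs_loc (h : TopIn K f d) (hr : RgS K f d L r) {i : ι} {v : Rn 3} (hv : RV K d i v) :
    ∀ z ∈ r.b.B v, ∃ x ∈ (d.B i).Q d.s 12, ‖z - (d.B i).aff x‖ ≤ d.ε i := by
  intro z hB
  obtain ⟨l, σ, ha, k1, k2, k3, k4, -⟩ := rgs_shape h hr hv hB
  obtain ⟨w0, -, -, -, -, e2⟩ := rig_small h i
  obtain ⟨s1, s2, -⟩ := SRig5_sq ha.2.2.2
  set ζ := nc (d.B i) d.s (L i) z - d.s⁻¹ • v with hζ
  have hu : max (σ * ζ l) 0 ∈ Icc (0 : ℝ) 16 := ⟨le_max_right _ _, max_le (by linarith) (by norm_num)⟩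
  have hx : d.pt v l σ (max (σ * ζ l) 0) ∈ (d.B i).Q d.s 12 := by
    by_cases hi : d.pt v l σ 16 ∈ (d.B i).Q d.s 8
    · exact Box.Q_mono h.s0 (by norm_num)
        ((ine_iff h ha).2 ⟨ha, hi⟩ ((arm_edge h ha).2.2.2.1.ge ⟨_, hu, rfl⟩))
    · exact Box.Q_mono h.s0 (by linarith [max_le (k4 ⟨ha, hi⟩) (show (0 : ℝ) ≤ 4 by norm_num)])
        ((arm_edge h ha).2.2.2.2.2 _ hu).2
  refine ⟨_, hx, ((hr.nm i).ge h.s0 _ _).trans (le_trans (mul_le_mul_of_nonneg_left ?_ ?_) e2)⟩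
  · rw [(hr.nm i).aff hx.1, SRig5_sm h, ← sub_sub, ← hζ, norm_eq_hz l, sub_eq_add_neg, ← neg_smul,
      pfill_hz_add]
    refine max_le k1 ?_
    have e : (ζ + -(max (σ * ζ l) 0 * σ) • (Pi.single l 1 : Rn 3)) l =
        σ * (σ * ζ l - max (σ * ζ l) 0) := by
      simp only [Pi.add_apply, Pi.smul_apply, Pi.single_eq_same, smul_eq_mul]
      linear_combination -ζ l * s1
    rw [e, abs_mul, s2, one_mul, abs_le]
    have e3 : max (σ * ζ l) 0 ≤ σ * ζ l + d.ww i := max_le (by linarith) (by linarith)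
    exact ⟨by linarith, by linarith [le_max_left (σ * ζ l) 0]⟩
  · have := h.s0
    positivity

theorem SRig5_up {φ : ℝ → ℝ} {t c u : ℝ} (h : Up1 φ t) (hc : 0 < φ t - c)
    (hu : u ∈ Icc (0 : ℝ) 16) :
    ((φ u - c) / (φ t - c) < 1 ↔ u < t) ∧ ((φ u - c) / (φ t - c) = 1 ↔ u = t) := by
  rw [div_lt_one hc, div_eq_one_iff_eq hc.ne', sub_lt_sub_iff_right, sub_left_inj]
  rcases lt_trichotomy u t with k | rfl | k
  · exact ⟨iff_of_true ((h u hu).1 k) k, iff_of_false ((h u hu).1 k).ne k.ne⟩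
  · simp
  · exact ⟨iff_of_false ((h u hu).2 k).not_gt k.not_gt, iff_of_false ((h u hu).2 k).ne' k.ne'⟩

theorem rgs_arm (h : TopIn K f d) (hr : RgS K f d L r) {i : ι} {v : Rn 3} {l : Fin 3} {σ : ℝ}
    (ha : d.Arm i v l σ) : ∃ t ∈ Icc (3 : ℝ) 9, r.b.m (d.ed v l σ) = d.pt v l σ t ∧
      (d.ExE i v l σ → t ≤ 7 / 2) ∧ ∀ u ∈ Icc (0 : ℝ) 16,
        (topT f d L r i v (l, σ)
          (nc (d.B i) d.s (L i) (r.Θ (f (d.pt v l σ u))) - d.s⁻¹ • v) < 1 ↔ u < t) ∧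
        (topT f d L r i v (l, σ)
          (nc (d.B i) d.s (L i) (r.Θ (f (d.pt v l σ u))) - d.s⁻¹ • v) = 1 ↔ u = t) := by
  obtain ⟨w0, w1, d0, d1, e1, -⟩ := rig_small h i
  by_cases hi : d.pt v l σ 16 ∈ (d.B i).Q d.s 8
  · obtain ⟨⟨t, ht, e, up⟩, -⟩ := hr.mks.inner i v l σ ⟨ha, hi⟩
    have k := abs_le.1 (SRig5_in h (hr.nm i) ha (u := t) ⟨by linarith only [w1, d0, d1, ht, ht.1], by linarith [ht.2]⟩)
    refine ⟨t, ⟨by linarith only [w1, d0, d1, ht, ht.1], ht.2⟩, e, fun k => (k.2 hi).elim, fun u hu => ?_⟩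
    rw [topT, if_pos hi, e, ← mul_div_mul_left _ _ (SRig5_sq ha.2.2.2).2.2, Pi.sub_apply,
      (ths_arm h hr.nm hr.mks hr.ths hu).1 ⟨ha, hi⟩, Pi.sub_apply, mul_sub, mul_sub]
    rw [Pi.sub_apply, mul_sub] at k
    exact SRig5_up up (by linarith only [w1, d0, d1, k, ht, ht.1]) hu
  · obtain ⟨hτ, hj, t, ht, e, up⟩ := hr.mks.exit i v l σ ⟨ha, hi⟩
    have k := abs_le.1 (SRig5_ex h ha (u := t) ⟨by linarith [ht.1], by linarith only [w1, d0, d1, ht, ht.2]⟩ hτ hj)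
    refine ⟨t, ⟨ht.1, by linarith only [w1, d0, d1, ht, ht.2]⟩, e, fun _ => ht.2, fun u hu => ?_⟩
    rw [topT, if_neg hi, e, (ths_arm h hr.nm hr.mks hr.ths hu).2 ⟨ha, hi⟩,
      SRig5_back (hr.nm i) ha.1.1, map_smul, ContinuousLinearEquiv.apply_symm_apply,
      smul_inv_smul₀ h.s0.ne', ← mul_div_mul_left _ _ (SRig5_sq hτ).2.2, Pi.sub_apply,
      Pi.sub_apply, mul_sub, mul_sub]
    rw [Pi.sub_apply, mul_sub] at k
    have l2 := (SRig5_low h ha.2.2.1).2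
    have ε0 := (h.ε0 i).1
    exact SRig5_up up (by linarith only [e1, k, l2, ε0, ht, ht.1, mul_nonneg_of_nonpos_of_nonpos (Mathlib.Tactic.Linarith.sub_nonpos_of_le e1) (Mathlib.Tactic.Linarith.sub_nonpos_of_le ht.left), mul_nonneg_of_nonpos_of_nonpos (Mathlib.Tactic.Linarith.sub_nonpos_of_le k.left) (Mathlib.Tactic.Linarith.sub_nonpos_of_le ht.left), mul_nonneg_of_nonpos_of_nonpos (Mathlib.Tactic.Linarith.sub_nonpos_of_le k.right) (Mathlib.Tactic.Linarith.sub_nonpos_of_le ht.left), mul_nonneg_of_nonpos_of_nonpos (Mathlib.Tactic.Linarith.sub_nonpos_of_le l2) (Mathlib.Tactic.Linarith.sub_nonpos_of_le ht.left)]) hu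

end BEp
end
end
end

-- merged part: Pool.Agent.Work.MP_f0515e_an.D3.GThin
section
/-! EXPORT: marks, boxes and weights for a locally finite graph.

Plan. `side_lo`: points `u` of `segment x y \ {y}` have the box of `x` (`cst`) and lie strictly inside.
`thin_exists`: for a point `v` let `J v` be the finite set of segments with end `v` and `κ v > 0` with
`1000 (card (J v) + 1) κ v ≤ η j` for `j ∈ J v`. By
`BoundedVariationOn.tendsto_eVariationOn_Icc_zero_right/left` and `cross_pt` choose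
`0 < τ i < 1/3`, `2/3 < τ' i < 1` with variation at most `κ (a i)` on `[0, τ i]`, at most `κ (b i)` on
`[τ' i, 1]`, and a sign change of a coordinate at both. `p i = seg τ i`, `q i = seg τ' i`.
New graph on `ι × Fin 3`: `[a, p], [p, q], [q, b]`; groups in `Rn 3 ⊕ ι`: `inl (a i), inr i, inl (b i)`;
gates `Bd ∪ range p ∪ range q`; `s g y = s0 y` on `Bd`, otherwise `sv y` for `g = inl _` and `- sv y` for
`g = inr _`, where `sv (p i) = -σ`, `sv (q i) = σ'`; variations `κ (a i), Vr i, κ (b i)`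
(`eVariationOn.comp_le_of_monotoneOn`, `eVariationOn.mono`), sizes `η i / 100`. For `side` at `p i`:
`f` is injective and continuous on the compact segment, so `‖f x - f y‖ < r` forces the parameter
near `τ i`; `f y ∉ F`. Apply `MulIn.marks`. Two points of an old segment with no mark strictly
between them lie on one new segment; `opp` at `p i, q i` follows from `side_lo` on both sides.
Weights: `η i / 100` at gates (`i` the only old segment through it), `δ (gp j)` on the open new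
segment `j`, else `1`. At most four gates on an old segment. -/

open Set Metric Filter Topology Function BEv
open scoped NNReal ENNReal

noncomputable section
namespace BEp

variable {Ω : Set (Rn 3)} {f : Rn 3 → Rn 3} {ι : Type} {a b : ι → Rn 3}
  {Vr η : ι → ℝ} {Bd F : Set (Rn 3)} {k0 : Rn 3 → Fin 3} {s0 : Rn 3 → ℝ}

/-- Which facet carries a mark approached from a given side. -/
theorem Mkd.side_lo {Mk : Set (Rn 3)} {kk : Rn 3 → Fin 3} {lo hi : Rn 3 → Rn 3}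
    (h : Mkd f a b η Bd F k0 Mk kk lo hi) {i : ι} {x y u : Rn 3}
    (hx : x ∈ segment ℝ (a i) (b i)) (hy : y ∈ segment ℝ (a i) (b i))
    (hm : segment ℝ x y ∩ Mk = {y}) (hxy : x ≠ y) (hu : u ∈ segment ℝ x y) (huy : u ≠ y) :
    (f y (kk y) < f u (kk y) → f y (kk y) = lo x (kk y)) ∧
      (f u (kk y) < f y (kk y) → f y (kk y) = hi x (kk y)) := by
  have sub := (convex_segment (𝕜 := ℝ) (a i) (b i)).segment_subset hx hy
  have no : ∀ z ∈ segment ℝ x u, z ∉ Mk := fun z hz hk => by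
    obtain rfl : z = y :=
      hm.subset ⟨(convex_segment x y).segment_subset (left_mem_segment _ _ _) hu hz, hk⟩
    exact huy ((mem_segment_iff_wbtw.1 hu).swap_right_iff.1 (mem_segment_iff_wbtw.1 hz))
  obtain ⟨e1, e2⟩ := h.cst i x hx u (sub hu) (disjoint_left.2 no)
  have k := h.inb i u (sub hu) (no u (right_mem_segment _ _ _)) (kk y)
  rw [← e1, ← e2] at k
  have k' := (h.fac i x hx y hy hm hxy).2
  exact ⟨fun l => k'.resolve_right fun e => by linarith only [k, l, e, k.2],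
    fun l => k'.resolve_left fun e => by linarith [k.1]⟩

theorem GThin_line (a b : Rn 3) : seg a b = AffineMap.lineMap a b :=
  funext fun t => by simp [seg, AffineMap.lineMap_apply, add_comm]

theorem GThin_inj {a b : Rn 3} (h : a ≠ b) : Injective (seg a b) :=
  GThin_line a b ▸ AffineMap.lineMap_injective ℝ h

theorem GThin_seg (a b : Rn 3) (s t : ℝ) :
    segment ℝ (seg a b s) (seg a b t) = seg a b '' uIcc s t := by
  rw [GThin_line, ← image_segment, segment_eq_uIcc]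

theorem GThin_op (a b : Rn 3) {s t : ℝ} (h : s < t) :
    openSegment ℝ (seg a b s) (seg a b t) = seg a b '' Ioo s t := by
  rw [GThin_line, ← image_openSegment, openSegment_eq_Ioo h]

theorem GThin_0 (a b : Rn 3) : seg a b 0 = a := by simp [seg]

theorem GThin_1 (a b : Rn 3) : seg a b 1 = b := by simp [seg]

theorem GThin_uniq (h : Grf Ω a b) {i j : ι} {t u : ℝ} (ht : t ∈ Icc (0 : ℝ) 1)
    (hu : u ∈ Icc (0 : ℝ) 1) (e : seg (a i) (b i) t = seg (a j) (b j) u) :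
    (i = j ∧ t = u) ∨ (t = 0 ∨ t = 1) ∧ (u = 0 ∨ u = 1) := by
  obtain rfl | hij := eq_or_ne i j
  · exact .inl ⟨rfl, GThin_inj (h.ne i) e⟩
  have m1 := (seg_image (a i) (b i)).subset (mem_image_of_mem _ ht)
  have m2 := (seg_image (a j) (b j)).subset (mem_image_of_mem _ hu)
  exact .inr ⟨(h.meet i j hij _ m1 (e ▸ m2)).imp
    (fun k => GThin_inj (h.ne i) (k.trans (GThin_0 _ _).symm))
    fun k => GThin_inj (h.ne i) (k.trans (GThin_1 _ _).symm), (h.meet j i hij.symm _ m2 (e ▸ m1)).imp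
    (fun k => GThin_inj (h.ne j) (k.trans (GThin_0 _ _).symm))
    fun k => GThin_inj (h.ne j) (k.trans (GThin_1 _ _).symm)⟩

theorem GThin_pick {γ : ℝ → Rn 3} (hc : ContinuousOn γ (Icc 0 1)) (hi : InjOn γ (Icc 0 1))
    (hV : eVariationOn γ (Icc 0 1) ≠ ⊤) {κ κ' : ℝ} (h : 0 < κ) (h' : 0 < κ') :
    ∃ θ : Bool → ℝ, (0 < θ false ∧ θ false < θ true ∧ θ true < 1) ∧
      eVariationOn γ (Icc 0 (θ false)) ≤ ENNReal.ofReal κ ∧
      eVariationOn γ (Icc (θ true) 1) ≤ ENNReal.ofReal κ' ∧ ∀ e, ∃ k, SC (fun t => γ t k) (θ e) := by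
  have := left_nhdsWithin_Ioo_neBot (show (0 : ℝ) < 1 / 2 by norm_num)
  have := right_nhdsWithin_Ioo_neBot (show (1 / 2 : ℝ) < 1 by norm_num)
  obtain ⟨β, b1, b2⟩ := ((((BoundedVariationOn.tendsto_eVariationOn_Icc_zero_right hV 0
    ((hc 0 ⟨le_rfl, zero_le_one⟩).mono inter_subset_left)).eventually_le_const
    (ENNReal.ofReal_pos.2 h)).filter_mono (nhdsWithin_mono _ (Ioo_subset_Icc_self.trans
      (Icc_subset_Icc_right (show (1 / 2 : ℝ) ≤ 1 by norm_num))))).and self_mem_nhdsWithin).exists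
  obtain ⟨α, a1, a2⟩ := ((((BoundedVariationOn.tendsto_eVariationOn_Icc_zero_left hV
    ((hc 1 ⟨zero_le_one, le_rfl⟩).mono inter_subset_left)).eventually_le_const
    (ENNReal.ofReal_pos.2 h')).filter_mono (nhdsWithin_mono _ (Ioo_subset_Icc_self.trans
      (Icc_subset_Icc_left (show (0 : ℝ) ≤ 1 / 2 by norm_num))))).and self_mem_nhdsWithin).exists
  have s1 : Icc 0 β ⊆ Icc (0 : ℝ) 1 := Icc_subset_Icc_right (by linarith only [b2, b2.2])
  have s2 : Icc α 1 ⊆ Icc (0 : ℝ) 1 := Icc_subset_Icc_left (by linarith only [b2, a2, a2.1])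
  rw [inter_eq_right.2 s1] at b1
  rw [inter_eq_right.2 s2] at a1
  obtain ⟨s, hs, k⟩ := cross_pt b2.1 (hc.mono s1) (hi.mono s1)
    (ne_top_of_le_ne_top ENNReal.ofReal_ne_top b1)
  obtain ⟨t, ht, k'⟩ := cross_pt a2.2 (hc.mono s2) (hi.mono s2)
    (ne_top_of_le_ne_top ENNReal.ofReal_ne_top a1)
  exact ⟨fun e => cond e t s, ⟨hs.1, hs.2.trans (b2.2.trans (a2.1.trans ht.1)), ht.2⟩,
    (eVariationOn.mono γ (Icc_subset_Icc_right hs.2.le)).trans b1,
    (eVariationOn.mono γ (Icc_subset_Icc_left ht.1.le)).trans a1, fun e => by cases e; exacts [k, k']⟩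

theorem GThin_ind {α : Type} (T : Finset α) {A : Set α} (hA : A.Finite) {c : ℝ} (hc : 0 ≤ c) :
    ∑ y ∈ T, A.indicator (fun _ => c) y ≤ c * A.ncard := by
  classical
  refine (Finset.sum_indicator_eq_sum_filter T (fun _ _ => c) (fun _ => A) id).trans_le ?_
  rw [Finset.sum_const, nsmul_eq_mul, mul_comm, ← ncard_coe_finset]
  exact mul_le_mul_of_nonneg_left
    (Nat.cast_le.2 (ncard_le_ncard (fun y hy => (Finset.mem_filter.1 hy).2) hA)) hc

/-- Lower parameter of a new segment. -/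
def GThin_L (θ : ι → Bool → ℝ) (j : ι × Fin 3) : ℝ := ![0, θ j.1 false, θ j.1 true] j.2

/-- Upper parameter of a new segment. -/
def GThin_U (θ : ι → Bool → ℝ) (j : ι × Fin 3) : ℝ := ![θ j.1 false, θ j.1 true, 1] j.2

/-- Group of a new segment. -/
def GThin_gp (a b : ι → Rn 3) (j : ι × Fin 3) : Rn 3 ⊕ ι :=
  ![.inl (a j.1), .inr j.1, .inl (b j.1)] j.2

/-- First end of a new segment. -/
def GThin_a (a b : ι → Rn 3) (θ : ι → Bool → ℝ) (j : ι × Fin 3) : Rn 3 :=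
  seg (a j.1) (b j.1) (GThin_L θ j)

/-- Second end of a new segment. -/
def GThin_b (a b : ι → Rn 3) (θ : ι → Bool → ℝ) (j : ι × Fin 3) : Rn 3 :=
  seg (a j.1) (b j.1) (GThin_U θ j)

/-- New gates. -/
def GThin_G (a b : ι → Rn 3) (θ : ι → Bool → ℝ) (e : ι × Bool) : Rn 3 :=
  seg (a e.1) (b e.1) (θ e.1 e.2)

section
variable {θ : ι → Bool → ℝ} (hθ : ∀ i, 0 < θ i false ∧ θ i false < θ i true ∧ θ i true < 1)
  {i : ι} {m m' : Fin 3} {e : Bool} {t u : ℝ} {j : ι × Fin 3} {x y : Rn 3}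
include hθ

theorem GThin_θ (i : ι) (e : Bool) : θ i e ∈ Ioo (0 : ℝ) 1 := by
  obtain ⟨h0, h1, h2⟩ := hθ i
  cases e <;> constructor <;> linarith

theorem GThin_LU (j : ι × Fin 3) :
    0 ≤ GThin_L θ j ∧ GThin_L θ j < GThin_U θ j ∧ GThin_U θ j ≤ 1 := by
  obtain ⟨i, m⟩ := j
  obtain ⟨h0, h1, h2⟩ := hθ i
  fin_cases m <;> simp [GThin_L, GThin_U] <;> grind

theorem GThin_01 (h : t ∈ Icc (GThin_L θ j) (GThin_U θ j)) : t ∈ Icc (0 : ℝ) 1 :=
  Icc_subset_Icc (GThin_LU hθ j).1 (GThin_LU hθ j).2.2 h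

theorem GThin_gate (a b : ι → Rn 3) (h : θ i e ∈ Icc (GThin_L θ (i, m)) (GThin_U θ (i, m))) :
    (θ i e = GThin_L θ (i, m) ∧ (GThin_gp a b (i, m)).isLeft = e) ∨
      (θ i e = GThin_U θ (i, m) ∧ (GThin_gp a b (i, m)).isLeft ≠ e) := by
  obtain ⟨h0, h1, h2⟩ := hθ i
  fin_cases m <;> cases e <;> simp [GThin_L, GThin_U, GThin_gp] at h ⊢ <;> grind

theorem GThin_two (a b : ι → Rn 3) (hm : m ≠ m') (h : t ∈ Icc (GThin_L θ (i, m)) (GThin_U θ (i, m)))
    (h' : t ∈ Icc (GThin_L θ (i, m')) (GThin_U θ (i, m'))) : (∃ e, t = θ i e) ∧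
      (GThin_gp a b (i, m)).isLeft ≠ (GThin_gp a b (i, m')).isLeft := by
  obtain ⟨h0, h1, h2⟩ := hθ i
  fin_cases m <;> fin_cases m' <;> simp [GThin_L, GThin_U, GThin_gp] at h h' hm ⊢ <;> grind

theorem GThin_end (a b : ι → Rn 3) (h : t ∈ Icc (GThin_L θ j) (GThin_U θ j))
    (h' : t = 0 ∨ t = 1) : (t = GThin_L θ j ∨ t = GThin_U θ j) ∧
      GThin_gp a b j = .inl (seg (a j.1) (b j.1) t) := by
  obtain ⟨i, m⟩ := j
  obtain ⟨h0, h1, h2⟩ := hθ i
  rcases h' with rfl | rfl <;> fin_cases m <;>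
    simp [GThin_L, GThin_U, GThin_gp, GThin_0, GThin_1] at h ⊢ <;> grind

theorem GThin_one (ht : t ∈ Icc (0 : ℝ) 1) (hu : u ∈ Icc (0 : ℝ) 1)
    (h : ∀ e, θ i e ∈ uIcc t u → θ i e = t ∨ θ i e = u) : ∃ m,
      t ∈ Icc (GThin_L θ (i, m)) (GThin_U θ (i, m)) ∧ u ∈ Icc (GThin_L θ (i, m)) (GThin_U θ (i, m)) := by
  obtain ⟨h0, h1, h2⟩ := hθ i
  have k1 := h false
  have k2 := h true
  simp only [Fin.exists_fin_succ, GThin_L, GThin_U, mem_uIcc, mem_Icc] at *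
  simp
  grind

theorem GThin_mem : x ∈ segment ℝ (GThin_a a b θ j) (GThin_b a b θ j) ↔
    ∃ t ∈ Icc (GThin_L θ j) (GThin_U θ j), seg (a j.1) (b j.1) t = x := by
  rw [GThin_a, GThin_b, GThin_seg, uIcc_of_le (GThin_LU hθ j).2.1.le]
  rfl

theorem GThin_sub (j : ι × Fin 3) :
    segment ℝ (GThin_a a b θ j) (GThin_b a b θ j) ⊆ segment ℝ (a j.1) (b j.1) := fun x hx => by
  obtain ⟨t, ht, rfl⟩ := (GThin_mem hθ).1 hx
  exact (seg_image _ _).subset (mem_image_of_mem _ (GThin_01 hθ ht))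

theorem GThin_Gop (e : ι × Bool) : GThin_G a b θ e ∈ openSegment ℝ (a e.1) (b e.1) :=
  (seg_image_open _ _).subset (mem_image_of_mem _ (GThin_θ hθ _ _))

theorem GThin_at (h : Grf Ω a b) {e : ι × Bool} (ht : t ∈ Icc (0 : ℝ) 1)
    (k : seg (a i) (b i) t = GThin_G a b θ e) : i = e.1 ∧ t = θ e.1 e.2 :=
  have k' := GThin_θ hθ e.1 e.2
  (GThin_uniq h ht (Ioo_subset_Icc_self k') k).resolve_right fun l => l.2.elim k'.1.ne' k'.2.ne

theorem GThin_Ginj (h : Grf Ω a b) : Injective (GThin_G a b θ) := by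
  rintro ⟨i, e⟩ ⟨i', e'⟩ k
  obtain ⟨rfl, l⟩ := GThin_at hθ h (Ioo_subset_Icc_self (GThin_θ hθ i e)) k
  have := (hθ i).2.1
  cases e <;> cases e' <;> grind

theorem GThin_pair (h : Grf Ω a b) (hx : x ∈ segment ℝ (a i) (b i)) (hy : y ∈ segment ℝ (a i) (b i))
    (k : ∀ e, GThin_G a b θ e ∈ segment ℝ x y → GThin_G a b θ e = x ∨ GThin_G a b θ e = y) :
    ∃ m, x ∈ segment ℝ (GThin_a a b θ (i, m)) (GThin_b a b θ (i, m)) ∧
      y ∈ segment ℝ (GThin_a a b θ (i, m)) (GThin_b a b θ (i, m)) := by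
  obtain ⟨t, ht, rfl⟩ := (seg_image _ _).superset hx
  obtain ⟨u, hu, rfl⟩ := (seg_image _ _).superset hy
  obtain ⟨m, h1, h2⟩ := GThin_one hθ ht hu fun e he => (k (i, e) ((GThin_seg _ _ _ _).superset
    (mem_image_of_mem _ he))).imp (GThin_inj (h.ne i) ·) (GThin_inj (h.ne i) ·)
  exact ⟨m, (GThin_mem hθ).2 ⟨t, h1, rfl⟩, (GThin_mem hθ).2 ⟨u, h2, rfl⟩⟩

theorem GThin_cov (h : Grf Ω a b) (hx : x ∈ segment ℝ (a i) (b i)) :
    ∃ m, x ∈ segment ℝ (GThin_a a b θ (i, m)) (GThin_b a b θ (i, m)) :=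
  (GThin_pair hθ h hx hx fun _ k => .inl (by rwa [segment_same] at k)).imp fun _ => And.left

theorem GThin_gr (h : Grf Ω a b) : Grf Ω (GThin_a a b θ) (GThin_b a b θ) := by
  refine ⟨fun j k => (GThin_LU hθ j).2.1.ne (GThin_inj (h.ne _) k),
    fun j => (GThin_sub hθ j).trans (h.sub _), fun C h1 h2 => ((h.lf C h1 h2).prod finite_univ).subset
      fun j hj => ⟨hj.mono (inter_subset_inter_left _ (GThin_sub hθ j)), trivial⟩, ?_⟩
  rintro ⟨i, m⟩ ⟨i', m'⟩ ne x h1 h2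
  obtain ⟨t, ht, rfl⟩ := (GThin_mem hθ).1 h1
  obtain ⟨u, hu, e⟩ := (GThin_mem hθ).1 h2
  refine Or.imp (congrArg _) (congrArg _) ?_
  obtain ⟨rfl, rfl⟩ | k := GThin_uniq h (GThin_01 hθ hu) (GThin_01 hθ ht) e
  · obtain ⟨e, rfl⟩ := (GThin_two hθ a b (fun k => ne (Prod.ext rfl k)) ht hu).1
    exact (GThin_gate hθ a b ht).imp And.left And.left
  · exact (GThin_end hθ a b ht k.2).1

theorem GThin_nB (h : ThinIn Ω f a b Vr η Bd F k0 s0) (e : ι × Bool) : GThin_G a b θ e ∉ Bd := by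
  intro k
  obtain ⟨i, k | k, -⟩ := h.bd1 _ k
  · exact (GThin_θ hθ _ _).1.ne
      (GThin_at hθ h.gr ⟨le_rfl, zero_le_one⟩ ((GThin_0 _ _).trans k.symm)).2
  · exact (GThin_θ hθ _ _).2.ne'
      (GThin_at hθ h.gr ⟨zero_le_one, le_rfl⟩ ((GThin_1 _ _).trans k.symm)).2

omit hθ in
theorem GThin_mid (h : GThin_gp a b j = .inr i) : j = (i, 1) := by
  obtain ⟨i', m⟩ := j
  fin_cases m <;> simp_all [GThin_gp]

theorem GThin_mul (h : ThinIn Ω f a b Vr η Bd F k0 s0) {κ : Rn 3 → ℝ} (hκ : ∀ v, 0 < κ v)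
    (gf : ∀ g, {j | GThin_gp a b j = g}.Finite)
    (v0 : ∀ i, eVariationOn (fun t => f (seg (a i) (b i) t)) (Icc 0 (θ i false)) ≤
      ENNReal.ofReal (κ (a i)))
    (v1 : ∀ i, eVariationOn (fun t => f (seg (a i) (b i) t)) (Icc (θ i true) 1) ≤
      ENNReal.ofReal (κ (b i))) {k1 : Rn 3 → Fin 3} {s : Rn 3 ⊕ ι → Rn 3 → ℝ}
    (k10 : ∀ y ∈ Bd, k1 y = k0 y ∧ ∀ g, s g y = s0 y) {σ ρ : ι × Bool → ℝ}
    (hσ : ∀ e, σ e = 1 ∨ σ e = -1) (hρ : ∀ e, 0 < ρ e)
    (hs : ∀ e g, s g (GThin_G a b θ e) = if g.isLeft = e.2 then σ e else -σ e)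
    (sc : ∀ e u, 0 < u → u < ρ e → 0 < σ e * (f (seg (a e.1) (b e.1) (θ e.1 e.2 + u))
      (k1 (GThin_G a b θ e)) - f (GThin_G a b θ e) (k1 (GThin_G a b θ e))) ∧
      σ e * (f (seg (a e.1) (b e.1) (θ e.1 e.2 - u)) (k1 (GThin_G a b θ e)) -
        f (GThin_G a b θ e) (k1 (GThin_G a b θ e))) < 0) :
    MulIn Ω f (GThin_a a b θ) (GThin_b a b θ) (GThin_gp a b)
      (fun j => (GThin_gp a b j).elim κ Vr) (fun j => η j.1 / 100) (Bd ∪ range (GThin_G a b θ)) F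
      k1 s := by
  have ms : ∀ i, MapsTo (seg (a i) (b i)) (Icc 0 1) (segment ℝ (a i) (b i)) := fun i t ht =>
    (seg_image _ _).subset (mem_image_of_mem _ ht)
  refine ⟨h.opn, h.cont, h.inj, GThin_gr hθ h.gr, fun j => ?_, fun j => ?_,
    fun j => div_pos (h.η0 _) (by norm_num), h.Fc, gf, ?_, ?_, ?_,
    fun j x hx k => .inl (h.hit _ x (GThin_sub hθ j hx) k), ?_⟩
  · cases GThin_gp a b j
    exacts [(hκ _).le, h.V0 _]
  · have l := (GThin_LU hθ j).2.1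
    have e : (fun t => f (seg (GThin_a a b θ j) (GThin_b a b θ j) t)) = (fun t => f (seg (a j.1)
        (b j.1) t)) ∘ fun t => GThin_L θ j + t * (GThin_U θ j - GThin_L θ j) := by
      funext t
      refine congrArg f ?_
      simp only [GThin_a, GThin_b, seg]
      module
    rw [e]
    refine (eVariationOn.comp_le_of_monotoneOn _ (s := Icc (GThin_L θ j) (GThin_U θ j)) _
      (fun s _ t _ k => by gcongr) fun t ht => ?_).trans ?_
    · constructor <;> linarith only [l, ht, ht.1, ht.2, mul_nonneg_of_nonpos_of_nonpos (le_of_lt (Mathlib.Tactic.Linarith.sub_neg_of_lt l)) (Mathlib.Tactic.Linarith.sub_nonpos_of_le ht.left), mul_nonneg_of_nonpos_of_nonpos (le_of_lt (Mathlib.Tactic.Linarith.sub_neg_of_lt l)) (Mathlib.Tactic.Linarith.sub_nonpos_of_le ht.right)]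
    · obtain ⟨i, m⟩ := j
      fin_cases m
      exacts [v0 i, (eVariationOn.mono _ fun _ => GThin_01 hθ).trans (h.var i), v1 i]
  · rintro y (hy | ⟨e, rfl⟩)
    · obtain ⟨i, k, -⟩ := h.bd1 y hy
      obtain ⟨m, hm⟩ := GThin_cov hθ h.gr (x := y) (i := i)
        (k.elim (· ▸ left_mem_segment _ _ _) (· ▸ right_mem_segment _ _ _))
      exact ⟨_, hm⟩
    · obtain ⟨m, hm⟩ := GThin_cov hθ h.gr (openSegment_subset_segment _ _ _ (GThin_Gop hθ e))
      exact ⟨_, hm⟩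
  · rintro y (hy | ⟨⟨i', e⟩, rfl⟩) ⟨i, m⟩ hj
    · obtain ⟨i', k, k'⟩ := h.bd1 y hy
      obtain rfl : i = i' := k' _ (GThin_sub hθ _ hj)
      obtain ⟨t, ht, rfl⟩ := (GThin_mem hθ).1 hj
      exact ⟨(GThin_end hθ a b ht (k.imp (fun k => GThin_inj (h.gr.ne i) (k.trans (GThin_0 _ _).symm))
        fun k => GThin_inj (h.gr.ne i) (k.trans (GThin_1 _ _).symm))).1.imp (congrArg _) (congrArg _),
        (k10 _ hy).2 _ ▸ (h.side _ hy).1⟩
    · obtain ⟨t, ht, k⟩ := (GThin_mem hθ).1 hj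
      obtain ⟨rfl, rfl⟩ := GThin_at hθ h.gr (GThin_01 hθ ht) k
      refine ⟨(GThin_gate hθ a b ht).imp (congrArg _ ·.1) (congrArg _ ·.1), ?_⟩
      rw [hs]
      rcases hσ (i, e) with k | k <;> split_ifs <;> simp [k]
  · rintro ⟨i, m⟩ ⟨i', m'⟩ ne x h1 h2
    obtain ⟨t, ht, rfl⟩ := (GThin_mem hθ).1 h1
    obtain ⟨u, hu, e⟩ := (GThin_mem hθ).1 h2
    obtain ⟨rfl, rfl⟩ | k := GThin_uniq h.gr (GThin_01 hθ hu) (GThin_01 hθ ht) e
    · clear e
      obtain ⟨⟨e, rfl⟩, k⟩ := GThin_two hθ a b (fun k => ne (congrArg _ (Prod.ext rfl k))) ht hu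
      refine ⟨.inr ⟨(i', e), rfl⟩, (hs (i', e) _).trans (.trans ?_ (congrArg _ (hs (i', e) _).symm))⟩
      grind
    · exact (ne ((GThin_end hθ a b ht k.2).2.trans
        ((congrArg _ e.symm).trans (GThin_end hθ a b hu k.1).2.symm))).elim
  · rintro y (hy | ⟨⟨i, e⟩, rfl⟩)
    · obtain ⟨-, r, hr, k1, k2⟩ := h.side y hy
      refine ⟨r, hr, fun j _ => ?_⟩
      rw [(k10 y hy).1, (k10 y hy).2]
      exact ⟨fun x hx => k1 _ x (GThin_sub hθ j hx), k2⟩
    have θ1 := Ioo_subset_Icc_self (GThin_θ hθ i e)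
    have cl : IsClosed (F ∪ (fun t => f (seg (a i) (b i) t)) '' (Icc 0 1 \ ball (θ i e) (ρ (i, e)))) :=
      (h.Fc.union ((isCompact_Icc.diff isOpen_ball).image_of_continuousOn (h.cont.comp
        (tp_seg _ _).continuous.continuousOn fun t ht => h.gr.sub i (ms i ht.1)))).isClosed
    obtain ⟨r, hr, hb⟩ := Metric.isOpen_iff.1 cl.isOpen_compl (f (GThin_G a b θ (i, e))) (by
      rintro (k | ⟨t, ht, k⟩)
      · exact GThin_nB hθ h (i, e) (h.hit i _ (ms i θ1) k)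
      · rw [GThin_inj (h.gr.ne i) (h.inj (h.gr.sub i (ms i ht.1)) (h.gr.sub i (ms i θ1)) k)] at ht
        exact ht.2 (mem_ball_self (hρ _)))
    refine ⟨r, hr, fun ⟨i', m⟩ hj => ⟨fun x hx ne k => ?_,
      fun z hz k => (hb (mem_ball_iff_norm.2 k) (.inl hz)).elim⟩⟩
    obtain ⟨t, ht, k'⟩ := (GThin_mem hθ).1 hj
    obtain ⟨rfl, rfl⟩ := GThin_at hθ h.gr (GThin_01 hθ ht) k'
    obtain ⟨u, hu, rfl⟩ := (GThin_mem hθ).1 hx
    have k2 : |u - θ i' e| < ρ (i', e) := not_le.1 fun k2 =>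
      hb (mem_ball_iff_norm.2 k) (.inr ⟨u, ⟨GThin_01 hθ hu, k2.not_gt⟩, rfl⟩)
    have k3 : u ≠ θ i' e := fun k3 => ne (congrArg _ k3)
    rw [abs_lt] at k2
    rw [hs]
    obtain ⟨l, l'⟩ | ⟨l, l'⟩ := GThin_gate hθ a b ht
    · have := (sc (i', e) (u - θ i' e) (sub_pos.2 ((l.le.trans hu.1).lt_of_ne' k3)) k2.2).1
      rwa [if_pos l', ← add_sub_cancel (θ i' e) u]
    · have := (sc (i', e) (θ i' e - u) (sub_pos.2 ((hu.2.trans l.ge).lt_of_ne k3)) (by linarith)).2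
      rwa [if_neg l', neg_mul, neg_pos, ← sub_sub_cancel (θ i' e) u]

theorem GThin_mkd (h : ThinIn Ω f a b Vr η Bd F k0 s0) {k1 : Rn 3 → Fin 3}
    (k10 : ∀ y ∈ Bd, k1 y = k0 y)
    (sc : ∀ i e, SC (fun t => f (seg (a i) (b i) t) (k1 (GThin_G a b θ (i, e)))) (θ i e))
    {Mk : Set (Rn 3)} {kk : Rn 3 → Fin 3} {lo hi : Rn 3 → Rn 3}
    (M : Mkd f (GThin_a a b θ) (GThin_b a b θ) (fun j => η j.1 / 100) (Bd ∪ range (GThin_G a b θ)) F
      k1 Mk kk lo hi) : Mkd f a b η Bd F k0 Mk kk lo hi := by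
  have gm : ∀ e, GThin_G a b θ e ∈ Mk := fun e => (M.bd _ (.inr ⟨e, rfl⟩)).1
  have pr : ∀ {i x y}, x ∈ segment ℝ (a i) (b i) → y ∈ segment ℝ (a i) (b i) →
      segment ℝ x y ∩ Mk = {y} → _ := fun hx hy k =>
    GThin_pair hθ h.gr hx hy fun e l => .inr (k.subset ⟨l, gm e⟩)
  refine ⟨fun y hy => (M.bd y (.inl hy)).imp_right (·.trans (k10 y hy)), fun y hy => ?_,
    fun i => ?_, fun i x hx => ?_, fun i x hx y hy k => ?_, fun i x hx y hy k => ?_,
    fun i x hx x' hx' y hy k ne k' => ?_, fun i j x hx y hy => ?_, fun i x hx => ?_,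
    fun i x hx k => ?_⟩
  · obtain (k | ⟨e, rfl⟩) | ⟨j, k⟩ := M.loc y hy
    · exact .inl k
    · exact .inr ⟨_, GThin_Gop hθ e⟩
    · rw [GThin_a, GThin_b, GThin_op _ _ (GThin_LU hθ j).2.1] at k
      exact .inr ⟨j.1, (seg_image_open _ _).subset
        (image_mono (Ioo_subset_Ioo (GThin_LU hθ j).1 (GThin_LU hθ j).2.2) k)⟩
  · refine (finite_iUnion fun m => M.fin (i, m)).subset fun x hx => ?_
    obtain ⟨m, hm⟩ := GThin_cov hθ h.gr hx.2
    exact mem_iUnion.2 ⟨m, hx.1, hm⟩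
  · obtain ⟨m, hm⟩ := GThin_cov hθ h.gr hx
    exact M.inb _ x hm
  · obtain ⟨m, h1, h2⟩ := GThin_pair hθ h.gr hx hy fun e l => (disjoint_left.1 k l (gm e)).elim
    exact M.cst _ x h1 y h2 k
  · obtain ⟨m, h1, h2⟩ := pr hx hy k
    exact M.fac _ x h1 y h2 k
  · by_cases hG : y ∈ range (GThin_G a b θ)
    swap
    · obtain ⟨m, h1, h2⟩ := GThin_pair hθ h.gr hx hx' fun e l =>
        (hG ⟨e, k'.subset ⟨l, gm e⟩⟩).elim
      exact M.opp _ x h1 x' h2 y (·.elim hy hG) k ne k'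
    obtain ⟨⟨i', e⟩, rfl⟩ := hG
    obtain ⟨t, ht, rfl⟩ := (seg_image _ _).superset hx
    obtain ⟨u, hu, rfl⟩ := (seg_image _ _).superset hx'
    clear hx hx'
    wlog tu : t < u generalizing t u
    · exact (this u hu t ht ne.symm (by rwa [openSegment_symm]) (by rwa [segment_symm])
        ((not_lt.1 tu).lt_of_ne fun l => ne (congrArg _ l.symm))).symm.imp And.symm And.symm
    rw [GThin_op _ _ tu] at k
    obtain ⟨v, hv, k⟩ := k
    obtain ⟨rfl, rfl⟩ := GThin_at hθ h.gr (Icc_subset_Icc ht.1 hu.2 (Ioo_subset_Icc_self hv)) k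
    set y := GThin_G a b θ (i, e)
    have side : ∀ t' ∈ Icc t u, ∀ w ∈ uIcc t' (θ i e), w ≠ θ i e →
        (f y (kk y) < f (seg (a i) (b i) w) (kk y) → f y (kk y) = lo (seg (a i) (b i) t') (kk y)) ∧
        (f (seg (a i) (b i) w) (kk y) < f y (kk y) →
          f y (kk y) = hi (seg (a i) (b i) t') (kk y)) := fun t' ht' w hw ne => by
      have ms : ∀ t ∈ Icc (0 : ℝ) 1, _ := fun t ht =>
        (seg_image (a i) (b i)).subset (mem_image_of_mem _ ht)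
      have k2 : segment ℝ (seg (a i) (b i) t') (GThin_G a b θ (i, e)) ∩ Mk =
          {GThin_G a b θ (i, e)} := by
        refine Subset.antisymm ((inter_subset_inter_left _ ?_).trans k'.subset)
          (singleton_subset_iff.2 ⟨right_mem_segment _ _ _, gm _⟩)
        rw [GThin_G, GThin_seg, GThin_seg, uIcc_of_le tu.le]
        exact image_mono (uIcc_subset_Icc ht' (Ioo_subset_Icc_self hv))
      obtain ⟨m, h1, h2⟩ := pr (ms _ (Icc_subset_Icc ht.1 hu.2 ht'))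
        (ms _ (Ioo_subset_Icc_self (GThin_θ hθ i e))) k2
      exact M.side_lo h1 h2 k2 (fun l => ne (by
        rwa [GThin_inj (h.gr.ne i) l, uIcc_self] at hw))
        ((GThin_seg _ _ _ _).superset (mem_image_of_mem _ hw)) fun l => ne (GThin_inj (h.gr.ne i) l)
    obtain ⟨σ, hσ, ρ, hρ, sc⟩ := sc i e
    obtain ⟨ε, e0, e1⟩ := exists_between (lt_min hρ (lt_min (sub_pos.2 hv.1) (sub_pos.2 hv.2)))
    rw [lt_min_iff, lt_min_iff] at e1
    have s1 := side t ⟨le_rfl, tu.le⟩ (θ i e - ε)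
      (Icc_subset_uIcc ⟨by linarith [e1.2.1], by linarith⟩) (by linarith)
    have s2 := side u ⟨tu.le, le_rfl⟩ (θ i e + ε)
      (Icc_subset_uIcc' ⟨by linarith, by linarith [e1.2.2]⟩) (by linarith)
    obtain ⟨c1, c2⟩ := sc ε e0 e1.1
    rw [← (M.bd _ (.inr ⟨(i, e), rfl⟩)).2] at c1 c2
    rcases hσ with rfl | rfl
    · exact .inr ⟨s1.2 (sub_neg.1 ((one_mul _).symm.trans_lt c2)),
        s2.1 (sub_pos.1 (c1.trans_eq (one_mul _)))⟩
    · rw [neg_one_mul, neg_sub] at c1 c2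
      exact .inl ⟨s1.1 (sub_neg.1 c2), s2.2 (sub_pos.1 c1)⟩
  · obtain ⟨m, hm⟩ := GThin_cov hθ h.gr hx
    obtain ⟨m', hm'⟩ := GThin_cov hθ h.gr hy
    exact M.dis _ _ x hm y hm'
  · obtain ⟨m, hm⟩ := GThin_cov hθ h.gr hx
    exact M.far _ x hm
  · obtain ⟨m, hm⟩ := GThin_cov hθ h.gr hx
    exact (M.sz _ x hm k).trans (div_le_self (h.η0 i).le (by norm_num))

end

theorem thin_exists (h : ThinIn Ω f a b Vr η Bd F k0 s0) :
    ∃ (Mk : Set (Rn 3)) (kk : Rn 3 → Fin 3) (lo hi : Rn 3 → Rn 3) (w : Rn 3 → ℝ),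
      Mkd f a b η Bd F k0 Mk kk lo hi ∧ Wt a b Vr η Mk lo hi w := by
  classical
  have fJ : ∀ v, {i | a i = v ∨ b i = v}.Finite := fun v => by
    by_cases hv : v ∈ Ω
    · exact (h.gr.lf {v} isCompact_singleton (singleton_subset_iff.2 hv)).subset fun i k =>
        ⟨v, k.elim (· ▸ left_mem_segment _ _ _) (· ▸ right_mem_segment _ _ _), rfl⟩
    · exact finite_empty.subset fun i k => hv (h.gr.sub i
        (k.elim (· ▸ left_mem_segment _ _ _) (· ▸ right_mem_segment _ _ _)))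
  have gf : ∀ g, {j | GThin_gp a b j = g}.Finite := by
    rintro (v | i)
    · refine ((fJ v).prod finite_univ).subset fun ⟨i, m⟩ k => ⟨?_, trivial⟩
      fin_cases m <;> simp_all [GThin_gp]
    · exact (finite_singleton (i, 1)).subset fun j k => GThin_mid k
  have : ∀ v, ∃ κ : ℝ, 0 < κ ∧ ∀ i, a i = v ∨ b i = v →
      (gf (.inl v)).toFinset.card * κ ≤ η i / 100 := fun v =>
    (eventually_mem_nhdsWithin.and (nhdsWithin_le_nhds ((eventually_all_finite (fJ v)).2 fun i _ =>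
      (ContinuousAt.eventually_lt (by fun_prop) (by fun_prop) (by
        simpa using h.η0 i)).mono fun _ => le_of_lt)) : ∀ᶠ κ in 𝓝[>] (0 : ℝ), _).exists
  choose κ hκ hκ' using this
  have ms : ∀ i, MapsTo (seg (a i) (b i)) (Icc 0 1) Ω := fun i t ht =>
    h.gr.sub i ((seg_image _ _).subset (mem_image_of_mem _ ht))
  choose θ hθ v0 v1 kv σ hσ ρ hρ sc using fun i => GThin_pick (γ := fun t => f (seg (a i) (b i) t))
    (h.cont.comp (tp_seg _ _).continuous.continuousOn (ms i))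
    (h.inj.comp (GThin_inj (h.gr.ne i)).injOn (ms i))
    (ne_top_of_le_ne_top ENNReal.ofReal_ne_top (h.var i)) (hκ (a i)) (hκ (b i))
  have gi := GThin_Ginj hθ h.gr
  have nB := GThin_nB hθ h
  have nB' : ∀ y ∈ Bd, ¬ ∃ e, GThin_G a b θ e = y := fun y hy ⟨e, k⟩ => nB e (k ▸ hy)
  let k1 := extend (GThin_G a b θ) (fun e => kv e.1 e.2) k0
  have k11 : ∀ e, k1 (GThin_G a b θ e) = kv e.1 e.2 := gi.extend_apply _ _
  have MI := GThin_mul hθ h hκ gf v0 v1 (k1 := k1) (s := fun g => extend (GThin_G a b θ)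
    (fun e => if g.isLeft = e.2 then σ e.1 e.2 else -σ e.1 e.2) s0)
    (fun y hy => ⟨extend_apply' _ _ _ (nB' y hy), fun g => extend_apply' _ _ _ (nB' y hy)⟩)
    (fun e => hσ e.1 e.2) (fun e => hρ e.1 e.2) (fun e g => gi.extend_apply _ _ e)
    fun e => k11 e ▸ sc e.1 e.2
  obtain ⟨Mk, kk, lo, hi, δ, M, d0, d1, d2, d3⟩ := MI.marks
  have M' := GThin_mkd hθ h (k1 := k1) (fun y hy => extend_apply' _ _ _ (nB' y hy))
    (fun i e => k11 (i, e) ▸ ⟨_, hσ i e, _, hρ i e, sc i e⟩) M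
  let O := fun j => openSegment ℝ (GThin_a a b θ j) (GThin_b a b θ j)
  let w : Rn 3 → ℝ := fun y => if k : ∃ j, y ∈ O j then δ (GThin_gp a b k.choose) else
    if k : ∃ i, y ∈ segment ℝ (a i) (b i) then η k.choose / 100 else 1
  have ne : ∀ {y j}, y ∈ O j → ¬ (y = GThin_a a b θ j ∨ y = GThin_b a b θ j) := by
    rintro _ j k (rfl | rfl)
    · exact MI.gr.ne j (left_mem_openSegment_iff.1 k)
    · exact MI.gr.ne j (right_mem_openSegment_iff.1 k)
  have w1 : ∀ {y j}, y ∈ segment ℝ (GThin_a a b θ j) (GThin_b a b θ j) → (∃ j, y ∈ O j) →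
      y ∈ O j ∧ w y = δ (GThin_gp a b j) := fun {y j} hy k => by
    have e : k.choose = j := by_contra fun l =>
      ne k.choose_spec (MI.gr.meet _ _ l y (openSegment_subset_segment _ _ _ k.choose_spec) hy)
    exact ⟨e ▸ k.choose_spec, (dif_pos k).trans (by rw [e])⟩
  have w2 : ∀ {y i}, y ∈ segment ℝ (a i) (b i) → y ∈ Mk → (¬ ∃ j, y ∈ O j) → w y = η i / 100 := by
    intro y i hy hm k
    have k' : ∃ i, y ∈ segment ℝ (a i) (b i) := ⟨i, hy⟩
    have e : k'.choose = i := by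
      obtain l | ⟨e, rfl⟩ := (M.loc y hm).resolve_right k
      · obtain ⟨_, -, l⟩ := h.bd1 y l
        exact (l _ k'.choose_spec).trans (l _ hy).symm
      · obtain ⟨t, ht, l⟩ := (seg_image _ _).superset hy
        obtain ⟨u, hu, l'⟩ := (seg_image _ _).superset k'.choose_spec
        exact (GThin_at hθ h.gr hu l').1.trans (GThin_at hθ h.gr ht l).1.symm
    exact (dif_neg k).trans ((dif_pos k').trans (by rw [e]))
  have gm : ∀ e, GThin_G a b θ e ∈ Mk := fun e => (M.bd _ (.inr ⟨e, rfl⟩)).1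
  refine ⟨Mk, kk, lo, hi, w, M', fun i => ⟨_, gm (i, false), GThin_Gop hθ (i, false)⟩, fun y => ?_,
    fun i x hx y hy k xy => ?_, fun i T hT => ?_⟩
  · simp only [w]
    split_ifs
    exacts [d0 _, MI.η0 (_, 0), one_pos]
  · obtain ⟨m, h1, h2⟩ := GThin_pair hθ h.gr hx hy fun e l => .inr (k.subset ⟨l, gm e⟩)
    have := d2 _ x h1 fun l => xy (k.subset ⟨left_mem_segment _ _ _, l⟩)
    by_cases l : ∃ j, y ∈ O j
    · rwa [(w1 h2 l).2]
    · rw [w2 hy (k.superset rfl).2 l]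
      exact this.trans (d1 _)
  · have e0 := h.η0 i
    let A := seg (a i) (b i) '' {0, θ i false, θ i true, 1}
    have a1 : A.Finite := toFinite _
    have a2 : (A.ncard : ℝ) ≤ 4 := by
      exact_mod_cast (ncard_image_le (toFinite _)).trans ((ncard_insert_le _ _).trans
        (Nat.succ_le_succ ((ncard_insert_le _ _).trans (Nat.succ_le_succ ((ncard_insert_le _ _).trans
          (Nat.succ_le_succ (ncard_singleton _).le))))))
    have pt : ∀ y ∈ T, w y ≤ A.indicator (fun _ => η i / 100) y +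
        ∑ m, (Mk ∩ O (i, m)).indicator (fun _ => δ (GThin_gp a b (i, m))) y := fun y hy => by
      obtain ⟨m, hm⟩ := GThin_cov hθ h.gr (hT hy).2
      have n0 := fun m => indicator_nonneg (s := Mk ∩ O (i, m)) (fun _ _ => (d0 (GThin_gp a b (i, m))).le) y
      by_cases l : ∃ j, y ∈ O j
      · refine le_add_of_nonneg_of_le (indicator_nonneg (fun _ _ => by positivity) y)
          (le_trans ?_ (Finset.single_le_sum (fun m _ => n0 m) (Finset.mem_univ m)))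
        rw [(w1 hm l).2, indicator_of_mem (mem_inter (hT hy).1 (w1 hm l).1)]
      · refine le_add_of_le_of_nonneg ?_ (Finset.sum_nonneg fun m _ => n0 m)
        rw [w2 (hT hy).2 (hT hy).1 l, indicator_of_mem]
        obtain rfl | rfl | k := Kx.KA2_seg hm
        · refine mem_image_of_mem _ ?_
          fin_cases m <;> simp [GThin_L]
        · refine mem_image_of_mem _ ?_
          fin_cases m <;> simp [GThin_U]
        · exact (l ⟨_, k⟩).elim
    have b1 : ∀ m, ∑ y ∈ T, (Mk ∩ O (i, m)).indicator (fun _ => δ (GThin_gp a b (i, m))) y ≤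
        6 * ∑ j ∈ (gf (GThin_gp a b (i, m))).toFinset, (GThin_gp a b (i, m)).elim κ Vr +
          3 * (η i / 100) := fun m => by
      refine (GThin_ind T ((M.fin (i, m)).subset
        (inter_subset_inter_right _ (openSegment_subset_segment _ _ _))) (d0 _).le).trans
        ((d3 (i, m) _ fun j => (gf _).mem_toFinset.2).trans (add_le_add (le_of_eq ?_) ?_))
      · exact congrArg _ (Finset.sum_congr rfl fun j k => by rw [(gf _).mem_toFinset.1 k])
      · linarith only [d1, d1 (i, m)]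
    have b2 : (gf (.inr i)).toFinset.card ≤ 1 := Finset.card_le_one.2 fun j k j' k' =>
      (GThin_mid ((gf _).mem_toFinset.1 k)).trans (GThin_mid ((gf _).mem_toFinset.1 k')).symm
    have c0 := b1 0
    have c1 := b1 1
    have c2 := b1 2
    rw [Finset.sum_const, nsmul_eq_mul] at c0 c1 c2
    have f0 := hκ' (a i) i (.inl rfl)
    have f1 := mul_le_of_le_one_left (h.V0 i) (Nat.cast_le_one.2 b2)
    have f2 := hκ' (b i) i (.inr rfl)
    have f3 := (GThin_ind T a1 (c := η i / 100) (by positivity)).trans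
      (mul_le_mul_of_nonneg_left a2 (by positivity))
    refine (Finset.sum_le_sum pt).trans ?_
    rw [Finset.sum_add_distrib, Finset.sum_comm, Fin.sum_univ_three]
    simp only [GThin_gp, Matrix.cons_val, Sum.elim_inl, Sum.elim_inr] at c0 c1 c2 f0 f1 f2 ⊢
    linarith only [gf, e0, f0, f1, f2, f3, c0, c1, c2]

end BEp
end
end

-- merged part: Pool.Agent.Work.MP_f0515e_an.D3.GAlt
section
/-! EXPORT: the complex whose edges carry one mark each.

Plan. `alt_line` (one dimension): for a finite nonempty `U ⊆ Icc 0 1` let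
`C = ({0,1} \ U) ∪ {midpoints of consecutive points of U}`; it is finite, disjoint from `U`, and every
`t ∈ Icc 0 1` lies between a point `u ∈ U` and a point `c ∈ C` with no point of `U ∪ C` strictly between
(take the nearest point of `U`).
`alt_exists`: `Ct` = vertices of `K` outside `Mk` together with the images of the sets `C` of the edges.
A leg is a pair `(v, y) ∈ Ct × Mk` on a closed edge of `K` with `openSegment v y` free of `Mk ∪ Ct`.
Every mark `y` has exactly two legs `v, w` and `y ∈ openSegment v w` (inside an edge: both directions;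
at a vertex: `smo_two`); put `E y = openSegment v w`. `E y` misses `Ct`, `E y ∩ Mk = {y}`, distinct
`E y` are disjoint, and they cover `K.sk 1 \ Ct`. `ce x = E y` if `x ∈ E y`, else `{x}`; `reedge`
(`h3` by `front` and `smo_face`); `m s` = a chosen point of `s ∩ Mk`.
`Alt.chain`: `U` = parameters of marks and of vertices of `K2` on the edge (finite by `K2.lf` and
`one`, `mke`); `0, 1 ∈ U` by `vert`; between consecutive parameters the open segment is connected,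
misses the vertices of `K2`, so lies in one edge `s` of `K2`, on one side of `m s`. -/

open Set Metric Filter Topology Function BEv
open scoped NNReal ENNReal

noncomputable section
namespace BEp

variable {Ω : Set (Rn 3)} {K K2 : Kx Ω} {Mk : Set (Rn 3)} {m : Set (Rn 3) → Rn 3}

theorem GAlt_mem {p q t : ℝ} : t ∈ uIoo p q ↔ p < t ∧ t < q ∨ q < t ∧ t < p := by
  rcases le_total p q with h | h
  · rw [uIoo_of_le h]
    exact ⟨Or.inl, fun k => k.elim id fun k => absurd (k.1.trans k.2) h.not_gt⟩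
  · rw [uIoo_of_ge h]
    exact ⟨Or.inr, fun k => k.elim (fun k => absurd (k.1.trans k.2) h.not_gt) id⟩

theorem GAlt_pair {S : Set ℝ} {p q p' q' t : ℝ} (hp : p ∈ S) (hq : q ∈ S) (hp' : p' ∈ S)
    (hq' : q' ∈ S) (h : t ∈ uIoo p q) (h' : t ∈ uIoo p' q') (d : Disjoint (uIoo p q) S)
    (d' : Disjoint (uIoo p' q') S) : (p = p' ∧ q = q') ∨ (p = q' ∧ q = p') := by
  have k1 := disjoint_right.1 d hp'
  have k2 := disjoint_right.1 d hq'
  have k3 := disjoint_right.1 d' hp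
  have k4 := disjoint_right.1 d' hq
  simp only [GAlt_mem, not_or, not_and, not_lt] at h h' k1 k2 k3 k4
  grind

theorem GAlt_consec {P : Set ℝ} (hf : P.Finite) (h0 : (0 : ℝ) ∈ P) (h1 : (1 : ℝ) ∈ P) {t : ℝ}
    (ht : t ∈ Icc (0 : ℝ) 1) :
    ∃ p ∈ P, ∃ q ∈ P, p < q ∧ p ≤ t ∧ t ≤ q ∧ ∀ x ∈ P, x ≤ p ∨ q ≤ x := by
  rcases ht.2.eq_or_lt with rfl | h
  · obtain ⟨p, hp, k⟩ := exists_max_image {x ∈ P | x < 1} id (hf.subset (sep_subset _ _))
      ⟨0, h0, one_pos⟩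
    exact ⟨p, hp.1, 1, h1, hp.2, hp.2.le, le_rfl, fun x hx =>
      (lt_or_ge x 1).imp_left fun m => k x ⟨hx, m⟩⟩
  · obtain ⟨p, hp, k⟩ := exists_max_image {x ∈ P | x ≤ t} id (hf.subset (sep_subset _ _))
      ⟨0, h0, ht.1⟩
    obtain ⟨q, hq, k'⟩ := exists_min_image {x ∈ P | t < x} id (hf.subset (sep_subset _ _))
      ⟨1, h1, h⟩
    exact ⟨p, hp.1, q, hq.1, hp.2.trans_lt hq.2, hp.2, hq.2.le, fun x hx =>
      (le_or_gt x t).imp (fun m => k x ⟨hx, m⟩) fun m => k' x ⟨hx, m⟩⟩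

theorem alt_line {U : Set ℝ} (hf : U.Finite) (hn : U.Nonempty) (hs : U ⊆ Icc 0 1) :
    ∃ C : Set ℝ, C.Finite ∧ C ⊆ Icc 0 1 ∧ Disjoint C U ∧ (0 : ℝ) ∈ U ∪ C ∧ (1 : ℝ) ∈ U ∪ C ∧
      (U = {0, 1} → C = {1 / 2}) ∧
      ∀ t ∈ Icc (0 : ℝ) 1, ∃ u ∈ U, ∃ c ∈ C, t ∈ uIcc u c ∧ Disjoint (uIoo u c) (U ∪ C) := by
  let C : Set ℝ := ({0, 1} \ U) ∪
    {c | ∃ u ∈ U, ∃ u' ∈ U, u < u' ∧ (∀ x ∈ U, x ≤ u ∨ u' ≤ x) ∧ c = (u + u') / 2}
  refine ⟨C, ?_, ?_, ?_, ?_, ?_, ?_, fun t ht => ?_⟩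
  · refine ((toFinite _).subset sdiff_subset).union
      ((hf.image2 (fun u u' => (u + u') / 2) hf).subset ?_)
    rintro _ ⟨u, hu, u', hu', -, -, rfl⟩
    exact ⟨u, hu, u', hu', rfl⟩
  · rintro c (⟨rfl | rfl, -⟩ | ⟨u, hu, u', hu', -, -, rfl⟩)
    · exact left_mem_Icc.2 zero_le_one
    · exact right_mem_Icc.2 zero_le_one
    · constructor <;> linarith only [hs, hu, hu', (hs hu).1, (hs hu).2, (hs hu').1, (hs hu').2]
  · refine disjoint_left.2 ?_
    rintro c (⟨-, h⟩ | ⟨u, hu, u', hu', h1, h2, rfl⟩) k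
    · exact h k
    · rcases h2 _ k with m | m <;> linarith
  · by_cases h : (0 : ℝ) ∈ U
    · exact Or.inl h
    · exact Or.inr (Or.inl ⟨Or.inl rfl, h⟩)
  · by_cases h : (1 : ℝ) ∈ U
    · exact Or.inl h
    · exact Or.inr (Or.inl ⟨Or.inr rfl, h⟩)
  · rintro rfl
    ext c
    constructor
    · rintro (⟨h, h'⟩ | ⟨u, rfl | rfl, u', rfl | rfl, h1, -, rfl⟩)
      · exact absurd h h'
      · exact absurd h1 (lt_irrefl _)
      · norm_num
      · exact absurd h1 (by norm_num)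
      · exact absurd h1 (lt_irrefl _)
    · rintro rfl
      refine Or.inr ⟨0, Or.inl rfl, 1, Or.inr rfl, one_pos, ?_, by norm_num⟩
      rintro x (rfl | rfl)
      · exact Or.inl le_rfl
      · exact Or.inr le_rfl
  obtain ⟨p, hp, q, hq, h1, h2, h3, h4⟩ := GAlt_consec (hf.union (toFinite {0, 1}))
    (Or.inr (Or.inl rfl)) (Or.inr (Or.inr rfl)) ht
  have p0 : p ∉ U → p = 0 := fun k => by
    rcases hp with hp | hp | hp
    · exact absurd hp k
    · exact hp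
    · rcases h4 _ hq with m | m
      · linarith
      · rcases hq with hq | hq | hq
        · linarith [(hs hq).2, show p = 1 from hp]
        · linarith [show p = 1 from hp]
        · linarith [show p = 1 from hp, show q = 1 from hq]
  have q1 : q ∉ U → q = 1 := fun k => by
    rcases hq with hq | hq | hq
    · exact absurd hq k
    · rcases hp with hp | hp | hp
      · linarith [(hs hp).1]
      · linarith
      · linarith [show p = 1 from hp]
    · exact hq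
  have key : ∀ x ∈ U ∪ C, p < x → x < q → p ∈ U ∧ q ∈ U ∧ x = (p + q) / 2 := by
    rintro x (hx | ⟨hx, -⟩ | ⟨u, hu, u', hu', k1, k2, rfl⟩) m1 m2
    · rcases h4 x (Or.inl hx) with m | m <;> linarith
    · rcases h4 x (Or.inr hx) with m | m <;> linarith
    · have a1 : u ≤ p := (h4 u (Or.inl hu)).resolve_right (by linarith)
      have a2 : q ≤ u' := (h4 u' (Or.inl hu')).resolve_left (by linarith)
      have a3 : p ∈ U := by_contra fun k =>
        k (le_antisymm a1 (by linarith [p0 k, (hs hu).1]) ▸ hu)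
      have a4 : q ∈ U := by_contra fun k =>
        k (le_antisymm (by linarith [q1 k, (hs hu').2]) a2 ▸ hu')
      have a5 : p ≤ u := (k2 p a3).resolve_right (by linarith)
      have a6 : u' ≤ q := (k2 q a4).resolve_left (by linarith)
      exact ⟨a3, a4, by linarith only [a2, a5, a1, a6]⟩
  by_cases a : p ∈ U <;> by_cases b : q ∈ U
  · have hc : (p + q) / 2 ∈ C := Or.inr ⟨p, a, q, b, h1, fun x hx => h4 x (Or.inl hx), rfl⟩
    rcases le_total t ((p + q) / 2) with k | k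
    · refine ⟨p, a, _, hc, mem_uIcc_of_le h2 k, disjoint_left.2 fun x hx hx' => ?_⟩
      rw [uIoo_of_le (by linarith only [h1])] at hx
      exact hx.2.ne (key x hx' hx.1 (by linarith [hx.2])).2.2
    · refine ⟨q, b, _, hc, mem_uIcc_of_ge k h3, disjoint_left.2 fun x hx hx' => ?_⟩
      rw [uIoo_of_ge (by linarith)] at hx
      exact hx.1.ne' (key x hx' (by linarith [hx.1]) hx.2).2.2
  · refine ⟨p, a, q, Or.inl ⟨Or.inr (q1 b), b⟩, mem_uIcc_of_le h2 h3,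
      disjoint_left.2 fun x hx hx' => ?_⟩
    rw [uIoo_of_lt h1] at hx
    exact b (key x hx' hx.1 hx.2).2.1
  · refine ⟨q, b, p, Or.inl ⟨Or.inl (p0 a), a⟩, mem_uIcc_of_ge h2 h3,
      disjoint_left.2 fun x hx hx' => ?_⟩
    rw [uIoo_of_gt h1] at hx
    exact a (key x hx' hx.1 hx.2).1
  · obtain ⟨u, hu⟩ := hn
    rcases h4 u (Or.inl hu) with k | k
    · exact absurd (le_antisymm k (by linarith [p0 a, (hs hu).1]) ▸ hu) a
    · exact absurd (le_antisymm (by linarith [q1 b, (hs hu).2]) k ▸ hu) b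

theorem GAlt_line (a b : Rn 3) : seg a b = AffineMap.lineMap a b := by
  funext t
  simp [seg, AffineMap.lineMap_apply, add_comm]

theorem GAlt_inj {a b : Rn 3} (h : a ≠ b) : Injective (seg a b) := by
  rw [GAlt_line]
  exact AffineMap.lineMap_injective ℝ h

theorem GAlt_cs (a b : Rn 3) (p q : ℝ) :
    segment ℝ (seg a b p) (seg a b q) = seg a b '' uIcc p q := by
  rw [GAlt_line, ← segment_eq_uIcc, image_segment]

theorem GAlt_os (a b : Rn 3) {p q : ℝ} (h : p ≠ q) :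
    openSegment ℝ (seg a b p) (seg a b q) = seg a b '' uIoo p q := by
  rw [GAlt_line, ← image_openSegment, openSegment_eq_Ioo' h]
  rfl

theorem GAlt_0 (a b : Rn 3) : seg a b 0 = a := by simp [seg]

theorem GAlt_1 (a b : Rn 3) : seg a b 1 = b := by simp [seg]

theorem GAlt_par {a b x : Rn 3} (h : x ∈ segment ℝ a b) : ∃ t ∈ Icc (0 : ℝ) 1, seg a b t = x := by
  rwa [← seg_image] at h

theorem GAlt_split {a b y : Rn 3} (h : y ∈ segment ℝ a b) :
    segment ℝ a b ⊆ segment ℝ y a ∪ segment ℝ y b := by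
  obtain ⟨u, -, rfl⟩ := GAlt_par h
  intro x hx
  obtain ⟨t, ht, rfl⟩ := GAlt_par hx
  have h0 := GAlt_cs a b u 0
  have h1 := GAlt_cs a b u 1
  rw [GAlt_0] at h0
  rw [GAlt_1] at h1
  rw [h0, h1]
  exact (le_total t u).imp (fun k => ⟨t, mem_uIcc_of_ge ht.1 k, rfl⟩)
    fun k => ⟨t, mem_uIcc_of_le k ht.2, rfl⟩

theorem GAlt_cel {a b : Rn 3} (h : K.Edge a b) : openSegment ℝ a b ∈ K.cel 1 := ⟨h.2, h.dm⟩

theorem GAlt_nv {s : Set (Rn 3)} {x : Rn 3} (h : s ∈ K.cel 1) : s ≠ {x} := fun e => by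
  have := h.2
  rw [e, KA2_single] at this
  exact zero_ne_one this

theorem GAlt_same {a b c d x : Rn 3} (h : K.Edge a b) (h' : K.Edge c d)
    (hx : x ∈ openSegment ℝ a b) (hx' : x ∈ segment ℝ c d) : segment ℝ c d = segment ℝ a b := by
  have e := Kx.cell_eq h.2 hx
  rcases Kx.KA2_cases h' hx' with k | k
  · have := k.2
    rw [e, h.dm] at this
    exact absurd this one_ne_zero
  · rw [← h'.cl, ← k.1, e, h.cl]

/-- Legs. -/
def GAlt_Leg (K : Kx Ω) (Mk Ct : Set (Rn 3)) (v y : Rn 3) : Prop :=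
  v ∈ Ct ∧ y ∈ Mk ∧ (∃ a b, K.Edge a b ∧ v ∈ segment ℝ a b ∧ y ∈ segment ℝ a b) ∧
    Disjoint (openSegment ℝ v y) (Mk ∪ Ct)

/-- Properties of the new vertices. -/
structure GAlt_P (K : Kx Ω) (Mk Ct : Set (Rn 3)) : Prop where
  dis : ∀ x ∈ Ct, x ∉ Mk
  fin : ∀ a b, K.Edge a b → ((Mk ∪ Ct) ∩ segment ℝ a b).Finite
  vtx : ∀ v ∈ Ω, K.cell v = {v} → v ∈ Mk ∪ Ct
  cov : ∀ a b, K.Edge a b → ∀ x ∈ segment ℝ a b, ∃ v y, GAlt_Leg K Mk Ct v y ∧
    v ∈ segment ℝ a b ∧ y ∈ segment ℝ a b ∧ x ∈ segment ℝ v y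
  mid : ∀ a b, K.Edge a b → a ∈ Mk → b ∈ Mk → Disjoint (openSegment ℝ a b) Mk →
    midpoint ℝ a b ∈ Ct

theorem GAlt_ct (K : Kx Ω)
    (hf : ∀ a b, K.Edge a b → (Mk ∩ segment ℝ a b).Finite ∧ (Mk ∩ segment ℝ a b).Nonempty) :
    ∃ Ct, GAlt_P K Mk Ct := by
  choose! A B hA hB using fun σ (h : σ ∈ K.cel 1) => Kx.dm_one h.1 h.2
  choose! C c1 c2 c3 c4 c5 c6 c7 using fun σ (h : σ ∈ K.cel 1) =>
    alt_line (U := {t ∈ Icc (0 : ℝ) 1 | seg (A σ) (B σ) t ∈ Mk})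
      (((hf _ _ (hA σ h)).1.preimage (GAlt_inj (hA σ h).1).injOn).subset
        fun t ht => ⟨ht.2, seg_image (A σ) (B σ) ▸ ⟨t, ht.1, rfl⟩⟩)
      (by
        obtain ⟨y, h1, h2⟩ := (hf _ _ (hA σ h)).2
        obtain ⟨t, ht, rfl⟩ := GAlt_par h2
        exact ⟨t, ht, h1⟩) (sep_subset _ _)
  let Ct : Set (Rn 3) :=
    {x | x ∉ Mk ∧ (K.cell x = {x} ∨ x ∈ seg (A (K.cell x)) (B (K.cell x)) '' C (K.cell x))}
  have key : ∀ σ ∈ K.cel 1, ∀ t ∈ Icc (0 : ℝ) 1, seg (A σ) (B σ) t ∈ Ct ↔ t ∈ C σ := by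
    intro σ h t ht
    have k1 : t ∈ C σ → seg (A σ) (B σ) t ∉ Mk := fun k m => disjoint_left.1 (c3 σ h) k ⟨ht, m⟩
    rcases eq_endpoints_or_mem_Ioo_of_mem_Icc ht with rfl | rfl | k
    · exact ⟨fun m => (c4 σ h).resolve_left fun k => m.1 k.2,
        fun m => ⟨k1 m, Or.inl (by rw [GAlt_0]; exact (hA σ h).left.2)⟩⟩
    · exact ⟨fun m => (c5 σ h).resolve_left fun k => m.1 k.2,
        fun m => ⟨k1 m, Or.inl (by rw [GAlt_1]; exact (hA σ h).right.2)⟩⟩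
    · have k2 : K.cell (seg (A σ) (B σ) t) = σ := Kx.cell_eq h.1 (by
        have : seg (A σ) (B σ) t ∈ openSegment ℝ (A σ) (B σ) :=
          seg_image_open (A σ) (B σ) ▸ ⟨t, k, rfl⟩
        rwa [← hB σ h] at this)
      refine ⟨fun m => ?_, fun m => ⟨k1 m, Or.inr (by rw [k2]; exact ⟨t, m, rfl⟩)⟩⟩
      have m2 := m.2
      rw [k2] at m2
      exact (GAlt_inj (hA σ h).1).mem_set_image.1 (m2.resolve_left (GAlt_nv h))
  have red : ∀ a b, K.Edge a b → ∃ σ ∈ K.cel 1, segment ℝ a b = segment ℝ (A σ) (B σ) :=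
    fun a b h => ⟨_, GAlt_cel h, by rw [← h.cl, ← (hA _ (GAlt_cel h)).cl, ← hB _ (GAlt_cel h)]⟩
  refine ⟨Ct, fun x hx => hx.1, fun a b h => ?_, fun v _ hv => ?_, fun a b h x hx => ?_,
    fun a b h ha hb hd => ?_⟩
  · obtain ⟨σ, hσ, e⟩ := red a b h
    rw [union_inter_distrib_right]
    refine (hf a b h).1.union (((c1 σ hσ).image (seg (A σ) (B σ))).subset fun x hx => ?_)
    obtain ⟨t, ht, rfl⟩ := GAlt_par (e ▸ hx.2)
    exact ⟨t, (key σ hσ t ht).1 hx.1, rfl⟩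
  · by_cases k : v ∈ Mk
    · exact Or.inl k
    · exact Or.inr ⟨k, Or.inl hv⟩
  · obtain ⟨σ, hσ, e⟩ := red a b h
    rw [e] at hx ⊢
    obtain ⟨t, ht, rfl⟩ := GAlt_par hx
    obtain ⟨u, hu, c, hc, k1, k2⟩ := c7 σ hσ t ht
    have m1 : seg (A σ) (B σ) c ∈ segment ℝ (A σ) (B σ) := seg_image _ _ ▸ ⟨c, c2 σ hσ hc, rfl⟩
    have m2 : seg (A σ) (B σ) u ∈ segment ℝ (A σ) (B σ) := seg_image _ _ ▸ ⟨u, hu.1, rfl⟩
    refine ⟨_, _, ⟨(key σ hσ c (c2 σ hσ hc)).2 hc, hu.2, ⟨_, _, hA σ hσ, m1, m2⟩, ?_⟩, m1, m2, ?_⟩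
    · rw [GAlt_os _ _ fun e : c = u => disjoint_left.1 (c3 σ hσ) hc (e ▸ hu), uIoo_comm]
      refine disjoint_left.2 ?_
      rintro _ ⟨s, hs, rfl⟩ k
      have m3 : s ∈ Icc (0 : ℝ) 1 :=
        uIcc_subset_Icc hu.1 (c2 σ hσ hc) (uIoo_subset_uIcc_self hs)
      exact disjoint_left.1 k2 hs (k.imp (fun k => ⟨m3, k⟩) (key σ hσ s m3).1)
    · rw [GAlt_cs, uIcc_comm]
      exact ⟨t, k1, rfl⟩
  · have hσ := GAlt_cel h
    have k1 := h.uniq (hB _ hσ)
    have k2 := hB _ hσ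
    generalize openSegment ℝ a b = σ at *
    have k3 : midpoint ℝ a b = seg (A σ) (B σ) (1 / 2) := by
      have : midpoint ℝ (A σ) (B σ) = seg (A σ) (B σ) (1 / 2) := by
        rw [GAlt_line, midpoint, invOf_eq_inv, one_div]
      rcases k1 with ⟨rfl, rfl⟩ | ⟨rfl, rfl⟩
      · exact this
      · rw [midpoint_comm]
        exact this
    rw [k3, key σ hσ _ (by norm_num), c6 σ hσ]
    · rfl
    ext t
    constructor
    · rintro ⟨ht, k⟩
      rcases eq_endpoints_or_mem_Ioo_of_mem_Icc ht with e | e | e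
      · exact Or.inl e
      · exact Or.inr e
      · refine absurd k (disjoint_left.1 hd ?_)
        have : seg (A σ) (B σ) t ∈ openSegment ℝ (A σ) (B σ) :=
          seg_image_open (A σ) (B σ) ▸ ⟨t, e, rfl⟩
        rwa [← k2] at this
    · rintro (rfl | rfl)
      · refine ⟨left_mem_Icc.2 zero_le_one, ?_⟩
        rw [GAlt_0]
        rcases k1 with ⟨e, -⟩ | ⟨-, e⟩ <;> rwa [← e]
      · refine ⟨right_mem_Icc.2 zero_le_one, ?_⟩
        rw [GAlt_1]
        rcases k1 with ⟨-, e⟩ | ⟨e, -⟩ <;> rwa [← e]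

variable {Ct : Set (Rn 3)}

theorem GAlt_Leg.ne (h : GAlt_P K Mk Ct) {v y : Rn 3} (l : GAlt_Leg K Mk Ct v y) : v ≠ y :=
  fun e => h.dis v l.1 (e ▸ l.2.1)

theorem GAlt_Leg.par (h : GAlt_P K Mk Ct) {a b : Rn 3} {p u : ℝ}
    (l : GAlt_Leg K Mk Ct (seg a b p) (seg a b u)) :
    p ≠ u ∧ Disjoint (uIoo p u) (seg a b ⁻¹' (Mk ∪ Ct)) := by
  have k : p ≠ u := fun e => l.ne h (e ▸ rfl)
  exact ⟨k, disjoint_left.2 fun t ht => disjoint_left.1 l.2.2.2 (GAlt_os a b k ▸ ⟨t, ht, rfl⟩)⟩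

theorem GAlt_side (h : GAlt_P K Mk Ct) {a b y : Rn 3} (he : K.Edge a b) (hy : y ∈ Mk)
    (hs : y ∈ segment ℝ a b) (hb : y ≠ b) : ∃ v, GAlt_Leg K Mk Ct v y ∧ v ∈ segment ℝ y b ∧
      ∀ z, GAlt_Leg K Mk Ct z y → z ∈ segment ℝ y b → z = v := by
  obtain ⟨u, hu, rfl⟩ := GAlt_par hs
  have hi := GAlt_inj he.1
  have u1 : u < 1 := hu.2.lt_of_ne fun e => hb (by rw [e, GAlt_1])
  have e1 : segment ℝ (seg a b u) b = seg a b '' Icc u 1 := by
    rw [← uIcc_of_le hu.2, ← GAlt_cs, GAlt_1]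
  obtain ⟨q, hq, k⟩ := exists_min_image {t ∈ Ioc u 1 | seg a b t ∈ Mk ∪ Ct} id
    (((h.fin a b he).preimage hi.injOn).subset fun t ht =>
      ⟨ht.2, seg_image a b ▸ ⟨t, ⟨hu.1.trans ht.1.1.le, ht.1.2⟩, rfl⟩⟩)
    ⟨1, ⟨u1, le_rfl⟩, by rw [GAlt_1]; exact h.vtx b he.right.1 he.right.2⟩
  have d : Disjoint (uIoo u q) (seg a b ⁻¹' (Mk ∪ Ct)) := disjoint_left.2 fun t ht m => by
    rw [uIoo_of_lt hq.1.1] at ht
    exact ht.2.not_ge (k t ⟨⟨ht.1, ht.2.le.trans hq.1.2⟩, m⟩)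
  have t1 : (u + q) / 2 ∈ uIoo u q := mem_uIoo_of_lt (by linarith only [hq, hq.1.1]) (by linarith [hq.1.1])
  obtain ⟨v, y, l, k1, k2, k3⟩ := h.cov a b he (seg a b ((u + q) / 2))
    (seg_image a b ▸ ⟨_, ⟨by linarith [hu.1, hq.1.1], by linarith [hq.1.1, hq.1.2]⟩, rfl⟩)
  obtain ⟨c, -, rfl⟩ := GAlt_par k1
  obtain ⟨w, -, rfl⟩ := GAlt_par k2
  have t2 : (u + q) / 2 ∈ uIoo c w := by
    have m := disjoint_left.1 d t1
    rcases Kx.KA2_seg k3 with e | e | e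
    · exact absurd (Or.inr (e ▸ l.1 :)) m
    · exact absurd (Or.inl (e ▸ l.2.1 :)) m
    · rwa [GAlt_os _ _ (l.par h).1, hi.mem_set_image] at e
  rcases GAlt_pair (Or.inl hy) hq.2 (Or.inr l.1) (Or.inl l.2.1) t1 t2 d (l.par h).2 with
    ⟨rfl, -⟩ | ⟨rfl, rfl⟩
  · exact absurd hy (h.dis _ l.1)
  refine ⟨_, l, e1 ▸ ⟨q, ⟨hq.1.1.le, hq.1.2⟩, rfl⟩, fun z l' hz => ?_⟩
  rw [e1] at hz
  obtain ⟨p, hp, rfl⟩ := hz
  have p1 : u < p := hp.1.lt_of_ne' (l'.par h).1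
  have p2 : q ≤ p := k p ⟨⟨p1, hp.2⟩, Or.inr l'.1⟩
  refine congrArg _ (p2.eq_or_lt.resolve_right fun m => ?_).symm
  exact disjoint_left.1 (l'.par h).2 (mem_uIoo_of_gt hq.1.1 m) hq.2

theorem GAlt_dir (hΩ : IsOpen Ω) {y : Rn 3} (hs : y ∈ K.sk 1) (hv : K.cell y = {y} → K.Smo y) :
    ∃ a b, a ≠ b ∧ y ∈ openSegment ℝ a b ∧ (∃ c, K.Edge c a ∧ y ∈ segment ℝ c a) ∧
      (∃ c, K.Edge c b ∧ y ∈ segment ℝ c b) ∧
      (∀ c d, K.Edge c d → y ∈ segment ℝ c d → segment ℝ c d ⊆ segment ℝ y a ∪ segment ℝ y b) ∧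
      ∀ σ ∈ K.cells, 2 ≤ dm σ → y ∈ closure σ → a ∈ closure σ ∧ b ∈ closure σ := by
  rcases Kx.mem_sk_one.1 hs with ⟨h1, h2⟩ | ⟨a, b, he, hy⟩
  · obtain ⟨a, b, ha, hb, k1, k2⟩ := smo_two hΩ h1 h2 (hv h2)
    have k3 : ∀ c, K.Edge y c → segment ℝ y c ⊆ segment ℝ y a ∪ segment ℝ y b := fun c hc => by
      rcases k2 c hc with rfl | rfl
      · exact subset_union_left
      · exact subset_union_right
    refine ⟨a, b, ?_, k1, ⟨y, ha, left_mem_segment _ _ _⟩, ⟨y, hb, left_mem_segment _ _ _⟩,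
      fun c d hc m => ?_, fun σ h3 h4 h5 => ?_⟩
    · rintro rfl
      rw [openSegment_same] at k1
      exact ha.1 k1
    · rcases Kx.KA2_cases hc m with ⟨rfl | rfl, -⟩ | k
      · exact k3 d hc
      · rw [segment_symm]
        exact k3 c hc.symm
      · exact absurd (k.1.symm.trans h2) (GAlt_nv (GAlt_cel hc))
    · obtain ⟨m1, m2⟩ := smo_face ha k2 hb h3 h4 h5
      exact ⟨m1 (right_mem_segment _ _ _), m2 (right_mem_segment _ _ _)⟩
  · have hy' := openSegment_subset_segment _ _ _ hy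
    refine ⟨a, b, he.1, hy, ⟨b, he.symm, segment_symm ℝ a b ▸ hy'⟩, ⟨a, he, hy'⟩,
      fun c d hc m => GAlt_same he hc hy m ▸ GAlt_split hy', fun σ h3 _ h5 => ?_⟩
    have k := closure_minimal (Kx.front he.2 h3 ⟨y, hy, h5⟩) isClosed_closure
    rw [he.cl] at k
    exact ⟨k (left_mem_segment _ _ _), k (right_mem_segment _ _ _)⟩

/-- The new edge through a mark. -/
def GAlt_E (K : Kx Ω) (Mk Ct : Set (Rn 3)) (y : Rn 3) : Set (Rn 3) :=
  {x | x = y ∨ ∃ v, GAlt_Leg K Mk Ct v y ∧ x ∈ openSegment ℝ v y}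

theorem GAlt_two (h : GAlt_P K Mk Ct) (hΩ : IsOpen Ω) {y : Rn 3} (hy : y ∈ Mk) (hs : y ∈ K.sk 1)
    (hv : K.cell y = {y} → K.Smo y) : ∃ v w, GAlt_Leg K Mk Ct v y ∧ GAlt_Leg K Mk Ct w y ∧ v ≠ w ∧
      GAlt_E K Mk Ct y = openSegment ℝ v w ∧
      ∀ σ ∈ K.cells, 2 ≤ dm σ → y ∈ closure σ → GAlt_E K Mk Ct y ⊆ closure σ := by
  obtain ⟨a, b, hab, h1, ⟨c, h2, h3⟩, ⟨d, h4, h5⟩, h6, h7⟩ := GAlt_dir hΩ hs hv
  obtain ⟨v, v1, v2, v3⟩ := GAlt_side h h2 hy h3 fun e =>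
    hab (left_mem_openSegment_iff.1 (e ▸ h1))
  obtain ⟨w, w1, w2, w3⟩ := GAlt_side h h4 hy h5 fun e =>
    hab (right_mem_openSegment_iff.1 (e ▸ h1))
  have key : v ≠ w ∧ GAlt_E K Mk Ct y = openSegment ℝ v w := by
    rw [← seg_image_open] at h1
    obtain ⟨u, hu, rfl⟩ := h1
    have e0 := GAlt_cs a b u 0
    have e1 := GAlt_cs a b u 1
    rw [GAlt_0, uIcc_of_ge hu.1.le] at e0
    rw [GAlt_1, uIcc_of_le hu.2.le] at e1
    obtain ⟨p, hp, rfl⟩ := e0 ▸ v2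
    obtain ⟨q, hq, rfl⟩ := e1 ▸ w2
    have p1 : p < u := hp.2.lt_of_ne (v1.par h).1
    have q1 : u < q := hq.1.lt_of_ne' (w1.par h).1
    refine ⟨(GAlt_inj hab).ne (p1.trans q1).ne, ?_⟩
    rw [GAlt_os _ _ (p1.trans q1).ne, uIoo_of_lt (p1.trans q1)]
    ext x
    constructor
    · rintro (rfl | ⟨z, l, hx⟩)
      · exact ⟨u, ⟨p1, q1⟩, rfl⟩
      obtain ⟨e, f, k1, k2, k3⟩ := l.2.2.1
      rcases h6 e f k1 k3 k2 with k | k
      · rw [v3 z l k, GAlt_os _ _ p1.ne, uIoo_of_lt p1] at hx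
        exact image_mono (Ioo_subset_Ioo_right q1.le) hx
      · rw [w3 z l k, GAlt_os _ _ q1.ne', uIoo_of_gt q1] at hx
        exact image_mono (Ioo_subset_Ioo_left p1.le) hx
    · rintro ⟨t, ht, rfl⟩
      rcases lt_trichotomy t u with k | rfl | k
      · exact Or.inr ⟨_, v1, GAlt_os a b p1.ne ▸ ⟨t, mem_uIoo_of_lt ht.1 k, rfl⟩⟩
      · exact Or.inl rfl
      · exact Or.inr ⟨_, w1, GAlt_os a b q1.ne' ▸ ⟨t, mem_uIoo_of_gt k ht.2, rfl⟩⟩
  refine ⟨v, w, v1, w1, key.1, key.2, fun σ k1 k2 k3 => ?_⟩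
  have k4 := (Kx.cells_cvx k1).closure
  rw [key.2]
  exact k4.openSegment_subset (k4.segment_subset k3 (h7 σ k1 k2 k3).1 v2)
    (k4.segment_subset k3 (h7 σ k1 k2 k3).2 w2)

theorem GAlt_E_eq {x y : Rn 3} (hx : x ∈ GAlt_E K Mk Ct y) (h : x ∈ Mk ∪ Ct) : x = y :=
  hx.resolve_right fun ⟨_, l, k⟩ => disjoint_left.1 l.2.2.2 k h

theorem GAlt_open (h : GAlt_P K Mk Ct) {v y x : Rn 3} (l : GAlt_Leg K Mk Ct v y)
    (hx : x ∈ openSegment ℝ v y) : ∃ a b, K.Edge a b ∧ v ∈ segment ℝ a b ∧ y ∈ segment ℝ a b ∧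
      x ∈ openSegment ℝ a b := by
  obtain ⟨a, b, he, k1, k2⟩ := l.2.2.1
  have k := disjoint_left.1 l.2.2.2 hx
  refine ⟨a, b, he, k1, k2, ?_⟩
  rcases Kx.KA2_seg ((convex_segment a b).openSegment_subset k1 k2 hx) with rfl | rfl | e
  · exact absurd (h.vtx x he.left.1 he.left.2) k
  · exact absurd (h.vtx x he.right.1 he.right.2) k
  · exact e

theorem GAlt_disj (h : GAlt_P K Mk Ct) {x y y' : Rn 3} (hy : y ∈ Mk) (hy' : y' ∈ Mk)
    (hx : x ∈ GAlt_E K Mk Ct y) (hx' : x ∈ GAlt_E K Mk Ct y') : y = y' := by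
  by_cases k : x ∈ Mk
  · exact (GAlt_E_eq hx (Or.inl k)).symm.trans (GAlt_E_eq hx' (Or.inl k))
  obtain ⟨v, l, m⟩ := hx.resolve_left fun e => k (e ▸ hy)
  obtain ⟨v', l', m'⟩ := hx'.resolve_left fun e => k (e ▸ hy')
  obtain ⟨a, b, he, k1, k2, k3⟩ := GAlt_open h l m
  obtain ⟨c, d, he', k4, k5, k6⟩ := GAlt_open h l' m'
  rw [GAlt_same he he' k3 (openSegment_subset_segment _ _ _ k6)] at k4 k5
  obtain ⟨p, -, rfl⟩ := GAlt_par k1
  obtain ⟨u, -, rfl⟩ := GAlt_par k2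
  obtain ⟨p', -, rfl⟩ := GAlt_par k4
  obtain ⟨u', -, rfl⟩ := GAlt_par k5
  rw [GAlt_os _ _ (l.par h).1] at m
  obtain ⟨t, ht, rfl⟩ := m
  rw [GAlt_os _ _ (l'.par h).1, (GAlt_inj he.1).mem_set_image] at m'
  rcases GAlt_pair (Or.inr l.1) (Or.inl hy) (Or.inr l'.1) (Or.inl hy') ht m' (l.par h).2
    (l'.par h).2 with ⟨-, rfl⟩ | ⟨rfl, -⟩
  · rfl
  · exact absurd hy' (h.dis _ l.1)

theorem GAlt_on {v y x : Rn 3} (l : GAlt_Leg K Mk Ct v y) (hx : x ∈ segment ℝ v y) :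
    x = v ∨ x ∈ GAlt_E K Mk Ct y :=
  (Kx.KA2_seg hx).imp_right fun k => k.imp_right fun k => ⟨v, l, k⟩

theorem alt_exists (K : Kx Ω) (hΩ : IsOpen Ω) (hs : Mk ⊆ K.sk 1)
    (hf : ∀ a b, K.Edge a b → (Mk ∩ segment ℝ a b).Finite ∧ (Mk ∩ segment ℝ a b).Nonempty)
    (hv : ∀ y ∈ Mk, K.cell y = {y} → K.Smo y) : ∃ K2 m, Alt K K2 Mk m := by
  classical
  obtain ⟨Ct, h⟩ := GAlt_ct K hf
  have two := fun y (hy : y ∈ Mk) => GAlt_two h hΩ hy (hs hy) (hv y hy)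
  let E := GAlt_E K Mk Ct
  let ce : Rn 3 → Set (Rn 3) := fun x => {z | z = x ∨ ∃ y ∈ Mk, x ∈ E y ∧ z ∈ E y}
  have c1 : ∀ x ∈ Ct, ce x = {x} := fun x hx => Set.ext fun z =>
    or_iff_left fun ⟨y, hy, k, _⟩ => h.dis x hx (GAlt_E_eq k (Or.inr hx) ▸ hy)
  have c2 : ∀ y ∈ Mk, ∀ x ∈ E y, ce x = E y := fun y hy x hx => Set.ext fun z =>
    ⟨fun k => k.elim (fun e : z = x => e ▸ hx) fun ⟨y', hy', k1, k2⟩ => GAlt_disj h hy' hy k1 hx ▸ k2,
      fun k => Or.inr ⟨y, hy, hx, k⟩⟩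
  have c3 : ∀ x ∈ K.sk 1, x ∈ Ct ∨ ∃ y ∈ Mk, x ∈ E y := fun x hx => by
    rcases Kx.mem_sk_one.1 hx with ⟨h1, h2⟩ | ⟨a, b, he, k⟩
    · exact (h.vtx x h1 h2).symm.imp_right fun k => ⟨x, k, Or.inl rfl⟩
    · obtain ⟨v, y, l, -, -, m⟩ := h.cov a b he x (openSegment_subset_segment _ _ _ k)
      exact (GAlt_on l m).imp (fun e : x = v => e ▸ l.1) fun m => ⟨y, l.2.1, m⟩
  have c4 : ∀ v y, GAlt_Leg K Mk Ct v y → ∃ a b, K.Edge a b ∧ segment ℝ v y ⊆ segment ℝ a b :=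
    fun v y ⟨_, _, ⟨a, b, he, k1, k2⟩, _⟩ => ⟨a, b, he, (convex_segment a b).segment_subset k1 k2⟩
  have c5 : ∀ v y, GAlt_Leg K Mk Ct v y → segment ℝ y v ⊆ K.sk 1 := fun v y l => by
    obtain ⟨a, b, he, k⟩ := c4 v y l
    rw [segment_symm]
    exact k.trans he.seg_sub
  obtain ⟨K2, k1, k2, k3⟩ := reedge K ce
    (fun x hx => (c3 x hx).imp (c1 x) fun ⟨y, hy, k⟩ => by
      obtain ⟨v, w, l, l', m1, m2, -⟩ := two y hy
      refine ⟨v, w, m1, (c2 y hy x k).trans m2, Or.inl rfl, ?_, c1 v l.1, c1 w l'.1⟩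
      exact (GAlt_split (openSegment_subset_segment _ _ _ (m2 ▸ Or.inl rfl))).trans
        (union_subset (c5 v y l) (c5 w y l')))
    (fun x hx z hz => by
      rcases c3 x hx with k | ⟨y, hy, k⟩
      · rw [c1 x k] at hz
        rw [hz]
      · rw [c2 y hy x k] at hz ⊢
        exact c2 y hy z hz)
    (fun x hx hx' z hz hz' => by
      rcases c3 z hz' with k | ⟨y, hy, k⟩
      · rw [c1 z k]
        exact singleton_subset_iff.2 hz
      obtain ⟨-, -, -, -, -, -, m⟩ := two y hy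
      rw [c2 y hy z k]
      refine m _ (K.cell_mem hx) (not_le.1 fun e => hx' ⟨hx, e⟩) ?_
      rcases k with rfl | ⟨v, l, k⟩
      · exact hz
      · obtain ⟨a, b, he, -, m1, m2⟩ := GAlt_open h l k
        exact closure_minimal (Kx.front he.2 (K.cell_mem hx) ⟨z, m2, hz⟩) isClosed_closure
          (he.cl ▸ m1))
    (fun C hC hC' => by
      have f1 : {x ∈ C | K.cell x = {x}}.Finite :=
        ((K.lf C hC hC').preimage singleton_injective.injOn).subset fun x hx => ⟨x, hx.1, hx.2⟩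
      have f2 := (Kx.finite_edge (K := K) hΩ hC hC').biUnion fun p hp => h.fin p.1 p.2 hp.1
      refine ((f1.union f2).image ce).subset ?_
      rintro _ ⟨x, ⟨hx, hx'⟩, rfl⟩
      rcases Kx.mem_sk_one.1 hx' with ⟨-, h2⟩ | ⟨a, b, he, k⟩
      · exact ⟨x, Or.inl ⟨hx, h2⟩, rfl⟩
      have k' := openSegment_subset_segment _ _ _ k
      obtain ⟨v, y, l, m1, m2, m3⟩ := h.cov a b he x k'
      rcases GAlt_on l m3 with rfl | m
      · exact ⟨x, Or.inr (mem_biUnion (x := (a, b)) ⟨he, x, k', hx⟩ ⟨Or.inr l.1, m1⟩), rfl⟩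
      · exact ⟨y, Or.inr (mem_biUnion (x := (a, b)) ⟨he, x, k', hx⟩ ⟨Or.inl l.2.1, m2⟩),
          (c2 y l.2.1 y (Or.inl rfl)).trans (c2 y l.2.1 x m).symm⟩)
  have d1 : ∀ y ∈ Mk, K2.cell y = E y := fun y hy =>
    (k1 y (hs hy)).trans (c2 y hy y (Or.inl rfl))
  have d2 : ∀ y ∈ Mk, E y ∩ Mk = {y} := fun y hy => Set.ext fun x =>
    ⟨fun k => GAlt_E_eq k.1 (Or.inl k.2), fun k => ⟨Or.inl k, (show x = y from k) ▸ hy⟩⟩
  have d3 : ∀ s ∈ K2.cel 1, ∃ y ∈ Mk, s = E y ∧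
      Classical.epsilon (fun x => x ∈ s ∩ Mk) = y := by
    rintro _ ⟨⟨x, hx, rfl⟩, e⟩
    have m : x ∈ K.sk 1 := k3 ▸ ⟨hx, e.le⟩
    rcases c3 x m with k | ⟨y, hy, k⟩
    · exact absurd ((k1 x m).trans (c1 x k)) (GAlt_nv (K := K2) ⟨K2.cell_mem hx, e⟩)
    · have m1 := (k1 x m).trans (c2 y hy x k)
      refine ⟨y, hy, m1, ?_⟩
      rw [m1, d2 y hy]
      exact Classical.epsilon_singleton y
  have d4 : ∀ y ∈ Mk, ∀ v w, v ≠ w → E y = openSegment ℝ v w → K2.Edge v w :=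
    fun y hy v w m e => ⟨m, y, (hs hy).1, (d1 y hy).trans e⟩
  refine ⟨K2, fun s => Classical.epsilon fun x => x ∈ s ∩ Mk, k2, k3, fun s k => ?_,
    fun y hy => ?_, fun v h1 h2 h3 => ?_, fun v s l => ?_, fun a b he ha hb hd => ?_⟩
  · obtain ⟨y, hy, e, e'⟩ := d3 s k
    rw [e', e, d2 y hy]
  · obtain ⟨v, w, -, -, m1, m2, -⟩ := two y hy
    rw [d1 y hy, show E y = _ from m2]
    exact GAlt_cel (d4 y hy v w m1 m2)
  · rw [k1 v (Kx.mem_sk_one.2 (Or.inl ⟨h1, h2⟩)), c1 v ((h.vtx v h1 h2).resolve_left h3)]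
  · obtain ⟨y, hy, e, e'⟩ := d3 s l.2.2.1
    obtain ⟨p, q, l1, l2, m1, m2, -⟩ := two y hy
    have he := d4 y hy p q m1 m2
    have m3 := l.2.2.2
    rw [e, show E y = _ from m2, he.cl] at m3
    rw [e']
    rcases Kx.KA2_cases he m3 with ⟨rfl | rfl, -⟩ | k
    · exact c4 _ y l1
    · exact c4 _ y l2
    · exact absurd (k.1.symm.trans l.2.1) (GAlt_nv (GAlt_cel he))
  · rw [k1 _ (he.seg_sub (midpoint_mem_segment a b)), c1 _ (h.mid a b he ha hb hd)]

theorem GAlt_m (h : Alt K K2 Mk m) {s : Set (Rn 3)} (hs : s ∈ K2.cel 1) : m s ∈ s ∩ Mk :=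
  (h.one s hs).symm ▸ mem_singleton _

theorem GAlt_leg (h : Alt K K2 Mk m) {v : Rn 3} {s : Set (Rn 3)} (hl : K2.Fl v s) :
    v ∉ Mk ∧ ∀ x ∈ segment ℝ v (m s), x ≠ v → x ∈ s := by
  refine ⟨fun k => GAlt_nv (h.mke v k) hl.2.1, fun x hx k => ?_⟩
  obtain ⟨t, ht, rfl⟩ := GAlt_par hx
  exact Kx.seg_mem hl.2.2.1.1 hl.2.2.2 (GAlt_m h hl.2.2.1).1
    ⟨ht.1.lt_of_ne' fun e => k (by rw [e, GAlt_0]), ht.2⟩

theorem GAlt_cover (h : Alt K K2 Mk m) {s : Set (Rn 3)} (hs : s ∈ K2.cel 1) {x : Rn 3}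
    (hx : x ∈ closure s) : ∃ v, K2.Fl v s ∧ x ∈ segment ℝ v (m s) := by
  have k := (GAlt_m h hs).1
  obtain ⟨p, q, he, e⟩ := Kx.dm_one hs.1 hs.2
  have c : closure s = segment ℝ p q := by rw [e, he.cl]
  rcases GAlt_split (c ▸ subset_closure k) (c ▸ hx) with k | k
  · exact ⟨p, ⟨he.left.1, he.left.2, hs, c ▸ left_mem_segment _ _ _⟩, segment_symm ℝ _ p ▸ k⟩
  · exact ⟨q, ⟨he.right.1, he.right.2, hs, c ▸ right_mem_segment _ _ _⟩, segment_symm ℝ _ q ▸ k⟩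

theorem Alt.chain (h : Alt K K2 Mk m) {a b : Rn 3} (he : K.Edge a b) :
    ∃ U : Finset ℝ, (U : Set ℝ) ⊆ Icc 0 1 ∧ (0 : ℝ) ∈ U ∧ (1 : ℝ) ∈ U ∧
      ∀ t ∈ U, ∀ t' ∈ U, t < t' → (∀ u ∈ U, u ≤ t ∨ t' ≤ u) → ∃ v s, K2.Fl v s ∧
        ((seg a b t = v ∧ seg a b t' = m s) ∨ (seg a b t = m s ∧ seg a b t' = v)) := by
  let S : Set (Rn 3) := {x | x ∈ Mk ∨ K2.cell x = {x}}
  have hΩ : segment ℝ a b ⊆ Ω := he.seg_sub.trans (K.sk_sub 1)
  have hi := GAlt_inj he.1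
  have f1 : (S ∩ segment ℝ a b).Finite := by
    refine Finite.of_finite_image (f := K2.cell) ((K2.lf _ (he.cl ▸ (Kx.cells_poly he.2).1)
      hΩ).subset (image_mono inter_subset_right)) ?_
    rintro x ⟨hx, hx'⟩ y ⟨hy, hy'⟩ e
    have m1 : y ∈ K2.cell x := e ▸ K2.mem y (hΩ hy')
    have m2 : x ∈ K2.cell y := e ▸ K2.mem x (hΩ hx')
    rcases hx with hx | hx
    · rcases hy with hy | hy
      · have k := h.one _ (h.mke y hy)
        exact (k.subset ⟨m2, hx⟩).trans (k.subset ⟨K2.mem y (hΩ hy'), hy⟩).symm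
      · rwa [hy] at m2
    · rw [hx] at m1
      exact m1.symm
  have f2 : {t ∈ Icc (0 : ℝ) 1 | seg a b t ∈ S}.Finite :=
    (f1.preimage hi.injOn).subset fun t ht => ⟨ht.2, seg_image a b ▸ ⟨t, ht.1, rfl⟩⟩
  have f3 : ∀ v ∈ Ω, K.cell v = {v} → v ∈ S := fun v h1 h2 =>
    (em (v ∈ Mk)).imp_right (h.vert v h1 h2)
  refine ⟨f2.toFinset, fun t ht => (f2.mem_toFinset.1 ht).1, f2.mem_toFinset.2
    ⟨left_mem_Icc.2 zero_le_one, (GAlt_0 a b).symm ▸ f3 a he.left.1 he.left.2⟩, f2.mem_toFinset.2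
    ⟨right_mem_Icc.2 zero_le_one, (GAlt_1 a b).symm ▸ f3 b he.right.1 he.right.2⟩,
    fun t ht t' ht' hlt hc => ?_⟩
  rw [f2.mem_toFinset] at ht ht'
  have d : Disjoint (uIoo t t') (seg a b ⁻¹' S) := disjoint_left.2 fun u hu k => by
    rw [uIoo_of_lt hlt] at hu
    exact (hc u (f2.mem_toFinset.2 ⟨⟨ht.1.1.trans hu.1.le, hu.2.le.trans ht'.1.2⟩, k⟩)).elim
      hu.1.not_ge hu.2.not_ge
  have t1 : (t + t') / 2 ∈ uIoo t t' := mem_uIoo_of_lt (by linarith) (by linarith)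
  have x1 : seg a b ((t + t') / 2) ∈ openSegment ℝ a b :=
    seg_image_open a b ▸ ⟨_, ⟨by linarith [ht.1.1], by linarith [ht'.1.2]⟩, rfl⟩
  have x2 : seg a b ((t + t') / 2) ∉ S := disjoint_left.1 d t1
  have x3 := he.seg_sub (openSegment_subset_segment _ _ _ x1)
  rw [← h.sk] at x3
  obtain ⟨p, q, k1, k2⟩ := (Kx.mem_sk_one.1 x3).resolve_left fun k => x2 (Or.inr k.2)
  obtain ⟨v, l, k3⟩ := GAlt_cover h (GAlt_cel k1) (subset_closure k2)
  generalize openSegment ℝ p q = s at l k3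
  refine ⟨v, s, l, ?_⟩
  obtain ⟨c, e, k4, k5⟩ := h.leg v s l
  rw [GAlt_same he k4 x1 (k5 k3)] at k5
  obtain ⟨g1, g2⟩ := GAlt_leg h l
  have g3 := GAlt_m h l.2.2.1
  have g4 := h.one s l.2.2.1
  obtain ⟨r, -, rfl⟩ := GAlt_par (k5 (left_mem_segment _ _ _))
  obtain ⟨u, -, hu⟩ := GAlt_par (k5 (right_mem_segment _ _ _))
  rw [← hu] at g2 g3 g4 k3 ⊢
  have ne : r ≠ u := fun e => g1 (e ▸ g3.2)
  have t2 : (t + t') / 2 ∈ uIoo r u := by
    rcases Kx.KA2_seg k3 with e | e | e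
    · exact absurd (Or.inr (e ▸ l.2.1)) x2
    · exact absurd (Or.inl (e ▸ g3.2)) x2
    · rwa [GAlt_os _ _ ne, hi.mem_set_image] at e
  have d' : Disjoint (uIoo r u) (seg a b ⁻¹' S) := disjoint_left.2 fun z hz k => by
    have z1 : seg a b z ∈ s := g2 _ (GAlt_cs a b r u ▸ ⟨z, uIoo_subset_uIcc_self hz, rfl⟩)
      (hi.ne fun e => left_notMem_uIoo (e ▸ hz))
    rcases k with k | k
    · exact right_notMem_uIoo (hi (g4.subset ⟨z1, k⟩) ▸ hz)
    · exact GAlt_nv l.2.2.1 ((Kx.cell_eq l.2.2.1.1 z1).symm.trans k)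
  rcases GAlt_pair ht.2 ht'.2 (Or.inr l.2.1) (Or.inl g3.2) t1 t2 d d' with ⟨rfl, rfl⟩ | ⟨rfl, rfl⟩
  · exact Or.inl ⟨rfl, rfl⟩
  · exact Or.inr ⟨rfl, rfl⟩

/-- Basic facts on legs. -/
theorem Alt.leg_inter (h : Alt K K2 Mk m) {v : Rn 3} {s : Set (Rn 3)} (hl : K2.Fl v s) :
    segment ℝ v (m s) ∩ Mk = {m s} ∧ v ≠ m s ∧ K2.cell (m s) = s := by
  obtain ⟨h1, h2⟩ := GAlt_leg h hl
  have h3 := GAlt_m h hl.2.2.1
  refine ⟨Set.ext fun x => ⟨fun k => ?_, ?_⟩, fun e => h1 (e ▸ h3.2), Kx.cell_eq hl.2.2.1.1 h3.1⟩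
  · exact (h.one s hl.2.2.1).subset ⟨h2 x k.1 fun e => h1 (e ▸ k.2), k.2⟩
  · rintro rfl
    exact ⟨right_mem_segment _ _ _, h3.2⟩

/-- Every point of the skeleton lies on a leg. -/
theorem Alt.cover (h : Alt K K2 Mk m) (hΩ : IsOpen Ω) {x : Rn 3} (hx : x ∈ K.sk 1) :
    ∃ v s, K2.Fl v s ∧ x ∈ segment ℝ v (m s) := by
  rw [← h.sk] at hx
  obtain ⟨s, hs, k⟩ := Kx.exists_up hΩ (K2.cell_mem hx.1) hx.2 (by norm_num)
  obtain ⟨v, l⟩ := GAlt_cover h hs (k (K2.mem x hx.1))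
  exact ⟨v, s, l⟩

/-- Faces and solid cells are the same. -/
theorem Alt.cel (h : Alt K K2 Mk m) {d : ℕ} (hd : 2 ≤ d) : K2.cel d = K.cel d := by
  ext σ
  constructor
  · rintro ⟨⟨x, hx, rfl⟩, e⟩
    have k : x ∉ K.sk 1 := fun k => by
      rw [← h.sk] at k
      have := k.2
      omega
    exact ⟨⟨x, hx, (h.off x hx k).symm⟩, e⟩
  · rintro ⟨⟨x, hx, rfl⟩, e⟩
    have k : x ∉ K.sk 1 := fun k => by
      have := k.2
      omega
    exact ⟨⟨x, hx, h.off x hx k⟩, e⟩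

end BEp
end
end
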