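import Pool.Agent.Work.MP_f0515e_an.D3.GAlt
import Pool.Agent.Work.MP_f0515e_an.D3.GAlt1
import Pool.Agent.Work.MP_f0515e_an.D3.NLn
import Pool.Agent.Work.MP_f0515e_an.D3.KA3

-- merged part: Pool.Agent.Work.MP_f0515e_an.D3.SRig7
section
/-! Walls, gates, intersections of the rigid beads.
`rgs_inner`: in normal coordinates the mark is on the axis (`ThS.mark`), `cross_top`. `rgs_exit`: near `f m` the transverse part is
below `w / 2`, `cross_top`; `z = aff v + λ (f m - aff v)` is compared with `y = v + λ (m - v)`; if `aff x = z` then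
`1000 ε ‖x - y‖ ≤ s λ ε'` while `3 λ s ≤ σ (y l - x l)` (`exe_out`). `rgs_meet`: same box by `rgs_loc`, `box_uniq`; `rgs_shape` at `v` and `w`,
`lat_gap` force `w = pt v l σ 16` and opposite arms; both top functionals equal one (`ine_rev`), the taper gives the
transverse bound `w / 2`. `rgs_far`: `nohit`, `sk_out`, `low`. About 400 lines. -/

open Set Metric Filter Topology Function BEv
open scoped NNReal

noncomputable section
namespace BEp

variable {Ω : Set (Rn 3)} {K : Kx Ω} {f : Rn 3 → Rn 3} {ι : Type} {d : TopD ι}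

variable {L : ι → Rn 3 ≃L[ℝ] Rn 3} {r : RigD}

section Aux
variable {i : ι} {v x y z : Rn 3} {l k : Fin 3} {σ u a : ℝ}

theorem SRig7_sq (hσ : σ = 1 ∨ σ = -1) : σ * σ = 1 := by
  rcases hσ with rfl | rfl <;> norm_num

theorem SRig7_abs (hσ : σ = 1 ∨ σ = -1) (a : ℝ) : |σ * a| = |a| := by
  rcases hσ with rfl | rfl <;> simp

theorem SRig7_pi (hσ : σ = 1 ∨ σ = -1) (x : Rn 3) (k : Fin 3) : |σ * x k| ≤ ‖x‖ :=
  (SRig7_abs hσ _).trans_le (norm_le_pi_norm x k)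

theorem SRig7_div (_ : σ = 1 ∨ σ = -1) {D : ℝ} (hD : 0 < σ * D) (a : ℝ) :
    (a / D ≤ 1 ↔ σ * a ≤ σ * D) ∧ (a / D = 1 ↔ a = D) := by
  have h0 : σ ≠ 0 := left_ne_zero_of_mul hD.ne'
  exact ⟨by rw [← mul_div_mul_left a D h0, div_le_one hD],
    div_eq_one_iff_eq (right_ne_zero_of_mul hD.ne')⟩

theorem SRig7_pt (v : Rn 3) (l : Fin 3) (σ u : ℝ) : d.pt v l σ u l = v l + u * d.s * σ := by
  simp [TopD.pt]

theorem SRig7_add (l : Fin 3) (x y : Rn 3) : hz l (x + y) = hz l x + hz l y := by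
  ext k
  by_cases e : k = l <;> simp [hz, e]

theorem SRig7_sub (l : Fin 3) (x y : Rn 3) : hz l (x - y) = hz l x - hz l y := by
  ext k
  by_cases e : k = l <;> simp [hz, e]

theorem SRig7_single (l : Fin 3) (c : ℝ) : hz l (c • (Pi.single l 1 : Rn 3)) = 0 := by
  ext k
  by_cases e : k = l <;> simp [hz, e]

theorem SRig7_le (l : Fin 3) (x : Rn 3) : ‖hz l x‖ ≤ ‖x‖ := by
  rw [ptri_norm l x]
  exact le_max_left _ _

theorem SRig7_coord (hk : k ≠ l) (x : Rn 3) : |x k| ≤ ‖hz l x‖ := by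
  simpa [hz, hk] using norm_le_pi_norm (hz l x) k

theorem SRig7_near (hσ : σ = 1 ∨ σ = -1) (h : ‖z - (u * σ) • (Pi.single l 1 : Rn 3)‖ ≤ a) :
    ‖hz l z‖ ≤ a ∧ |σ * z l - u| ≤ a := by
  refine ⟨?_, ?_⟩
  · have := (SRig7_le l _).trans h
    rwa [SRig7_sub, SRig7_single, sub_zero] at this
  · have := (SRig7_pi hσ _ l).trans h
    simp only [Pi.sub_apply, Pi.smul_apply, Pi.single_eq_same, smul_eq_mul] at this
    rwa [show σ * z l - u = σ * (z l - u * σ * 1) by linear_combination u * SRig7_sq hσ]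

theorem SRig7_Q (h : TopIn K f d) (ha : d.Arm i v l σ) (hu : u ∈ Icc (0 : ℝ) 16) :
    d.pt v l σ u ∈ K.sk 1 ∩ (d.B i).Q d.s 24 :=
  ⟨((arm_edge h ha).2.2.2.2.2 u hu).1,
    Box.Q_mono h.s0 (by linarith [hu.2]) ((arm_edge h ha).2.2.2.2.2 u hu).2⟩

theorem SRig7_inv (h : TopIn K f d) (v : Rn 3) (l : Fin 3) (σ u : ℝ) :
    d.s⁻¹ • d.pt v l σ u = d.s⁻¹ • v + (u * σ) • (Pi.single l 1 : Rn 3) := by
  rw [TopD.pt, smul_add, smul_smul]
  congr 2
  field_simp [h.s0.ne']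

theorem SRig7_zeta (h : TopIn K f d) (hr : RgS K f d L r) (ha : d.Arm i v l σ)
    (hu : u ∈ Icc (0 : ℝ) 16) : ‖nc (d.B i) d.s (L i) (f (d.pt v l σ u)) - d.s⁻¹ • v -
      (u * σ) • (Pi.single l 1 : Rn 3)‖ ≤ d.dl i := by
  have := nc_close h (hr.nm i) (SRig7_Q h ha hu).1 (SRig7_Q h ha hu).2
  rwa [SRig7_inv h, ← sub_sub] at this

theorem SRig7_aff (B : Box 1) (x y : Rn 3) : B.aff x - B.aff y = B.A (x - y) := by
  rw [Box.aff, Box.aff, add_sub_add_right_eq_sub, ← map_sub, sub_sub_sub_cancel_right]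

theorem SRig7_low (h : TopIn K f d) (hx : x ∈ (d.B i).slice) (hy : y ∈ (d.B i).slice) :
    1000 * d.ε i * ‖x - y‖ ≤ d.s * ‖(d.B i).aff x - (d.B i).aff y‖ := by
  rw [SRig7_aff]
  exact h.low i _ fun l hl => sub_eq_zero.2 ((hx l hl).trans (hy l hl).symm)

theorem SRig7_out (h : TopIn K f d) (ha : d.ExE i v l σ) (hx : x ∈ (d.B i).Q d.s 8) (u : ℝ) :
    u * d.s ≤ ‖d.pt v l σ u - x‖ := by
  have h1 := exe_out h ha x hx
  have h2 := norm_le_pi_norm (d.pt v l σ u - x) l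
  rw [Real.norm_eq_abs, ← SRig7_abs ha.1.2.2.2, Pi.sub_apply, SRig7_pt] at h2
  refine le_trans ?_ ((le_abs_self _).trans h2)
  linear_combination h1 - u * d.s * SRig7_sq ha.1.2.2.2

theorem SRig7_top (h : TopIn K f d) (hr : RgS K f d L r) (hv : RV K d i v) (ha : d.Arm i v l σ)
    (h1 : ‖hz l (nc (d.B i) d.s (L i) z - d.s⁻¹ • v)‖ ≤ d.ww i / 2)
    (h2 : 1 ≤ σ * (nc (d.B i) d.s (L i) z - d.s⁻¹ • v) l) :
    (z ∈ r.b.B v ↔ topT f d L r i v (l, σ) (nc (d.B i) d.s (L i) z - d.s⁻¹ • v) ≤ 1) ∧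
      (z ∈ r.b.S v ↔ topT f d L r i v (l, σ) (nc (d.B i) d.s (L i) z - d.s⁻¹ • v) = 1) := by
  obtain ⟨w0, w1, -⟩ := rig_small h i
  rw [(rgs_mem hr hv z).1, (rgs_mem hr hv z).2]
  exact cross_top w0 (by linarith only [w0, w1]) (fun a ha => (mem_dirs.1 ha).2) (a := (l, σ))
    (mem_dirs.2 ha.2.2) h1 h2

/-- The corrected mark of an inner edge in normal coordinates. -/
theorem SRig7_mark (h : TopIn K f d) (hr : RgS K f d L r) (ha : d.InE i v l σ) :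
    ∃ H : ℝ, 6 ≤ σ * H ∧ σ * H ≤ 10 ∧
      nc (d.B i) d.s (L i) (r.b.p (r.Θ ∘ f) (d.ed v l σ)) - d.s⁻¹ • v =
        H • (Pi.single l 1 : Rn 3) ∧ ∀ z, topT f d L r i v (l, σ) z = z l / H := by
  obtain ⟨w0, w1, d0, d1, -⟩ := rig_small h i
  obtain ⟨⟨t, ht, e, -⟩, -⟩ := hr.mks.inner i v l σ ha
  have ht' : t ∈ Icc (0 : ℝ) 16 := ⟨by linarith only [w1, d0, d1, ht, ht.1], by linarith only [w1, d0, d1, ht, ht.2]⟩
  have h1 := abs_le.1 (SRig7_near ha.1.2.2.2 (SRig7_zeta h hr ha.1 ht')).2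
  have h2 := (ths_arm h hr.nm hr.mks hr.ths (i := i) (v := v) (l := l) (σ := σ) ht').1 ha
  rw [← e] at h1 h2
  refine ⟨_, by linarith only [w1, d0, d1, h1, ht, h1.1, ht.1], by linarith only [w1, d0, d1, h1, ht, h1.2, ht.2], pfill_ext (i := l) ?_ ?_,
    fun z => if_pos ha.2⟩
  · rw [SRig7_single]
    exact hr.ths.mark i v l σ ha
  · simp only [Pi.smul_apply, Pi.single_eq_same, smul_eq_mul, mul_one, Pi.sub_apply]
    exact congrArg (· - _) h2

end Aux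

theorem rgs_inner (h : TopIn K f d) (hr : RgS K f d L r) {i : ι} {v : Rn 3} {l : Fin 3} {σ : ℝ}
    (hv : RV K d i v) (ha : d.InE i v l σ) :
    r.b.p (r.Θ ∘ f) (d.ed v l σ) ∈ (d.B i).aff '' d.ed v l σ ∧ ∀ y : Rn 3, ‖y‖ ≤ 1 →
      (r.b.p (r.Θ ∘ f) (d.ed v l σ) + r.b.M (d.ed v l σ) y ∈ r.b.S v ↔ y 2 = 0) := by
  obtain ⟨w0, w1, -⟩ := rig_small h i
  obtain ⟨H, h1, h2, e, hT⟩ := SRig7_mark h hr ha
  have hσ := ha.1.2.2.2
  refine ⟨⟨d.pt v l σ (σ * H), ?_, (lh_nc (B := d.B i) (L := L i) h.s0).1.1 ?_⟩, fun y hy => ?_⟩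
  · rw [(arm_edge h ha.1).2.2.2.2.1]
    exact ⟨_, ⟨by linarith only [w0, w1, h1], by linarith⟩, rfl⟩
  · rw [(hr.nm i).aff (SRig7_Q h ha.1 ⟨by linarith only [w0, w1, h1], by linarith⟩).2.1, SRig7_inv h,
      sub_eq_iff_eq_add'.1 e, mul_right_comm, SRig7_sq hσ, one_mul]
  obtain ⟨q1, q2⟩ := (hr.mks.inner i v l σ ha).2 y
  have e1 := nc_sub (B := d.B i) (s := d.s) (L := L i)
    (r.b.p (r.Θ ∘ f) (d.ed v l σ) + r.b.M (d.ed v l σ) y) (r.b.p (r.Θ ∘ f) (d.ed v l σ))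
  rw [add_sub_cancel_left] at e1
  generalize d.s⁻¹ • (L i).symm (r.b.M (d.ed v l σ) y) = q at q1 q2 e1
  have e2 : nc (d.B i) d.s (L i) (r.b.p (r.Θ ∘ f) (d.ed v l σ) + r.b.M (d.ed v l σ) y) -
      d.s⁻¹ • v = H • (Pi.single l 1 : Rn 3) + q := by
    rw [← e, ← e1]
    abel
  have e3 : (H • (Pi.single l 1 : Rn 3) + q) l = H + d.ww i / 2 * y 2 := by simp [q1]
  have y2 := abs_le.1 ((SRig7_pi hσ y 2).trans hy)
  rw [(SRig7_top h hr hv ha.1 ?_ ?_).2, e2, hT, e3, (SRig7_div hσ (by linarith only [w0, w1, h1]) _).2, add_eq_left,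
    mul_eq_zero, or_iff_right (half_pos w0).ne']
  · rw [e2, SRig7_add, SRig7_single, zero_add, q2]
    exact mul_le_of_le_one_right (half_pos w0).le ((SRig7_le 2 y).trans hy)
  · rw [e2, e3]
    linarith only [w1, h1, w0, y2, y2.1, mul_pos_of_neg_of_neg (Mathlib.Tactic.Linarith.sub_neg_of_lt w0) (Mathlib.Tactic.Linarith.sub_neg_of_lt w0), mul_nonneg_of_nonpos_of_nonpos (le_of_lt (Mathlib.Tactic.Linarith.sub_neg_of_lt w0)) (Mathlib.Tactic.Linarith.sub_nonpos_of_le w1), mul_nonneg_of_nonpos_of_nonpos (le_of_lt (Mathlib.Tactic.Linarith.sub_neg_of_lt w0)) (Mathlib.Tactic.Linarith.sub_nonpos_of_le y2.left)]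

theorem rgs_exit (h : TopIn K f d) (hr : RgS K f d L r) {i : ι} {v : Rn 3} {l : Fin 3} {σ : ℝ}
    (hv : RV K d i v) (ha : d.ExE i v l σ) {s : Set (Rn 3)} (hs : s = d.ed v l σ) :
    (∀ i', r.b.m s ∉ (d.B i').Q d.s 8) ∧ Gate (r.b.Φ v) (f (r.b.m s)) (r.j s) (r.σ s) ∧
    ‖f (r.b.m s) - (d.B i).aff v‖ ≤ 2 * ‖f (r.b.m s) - f v‖ ∧
    (∀ z ∈ segment ℝ ((d.B i).aff v) (f (r.b.m s)), ∃ y ∈ segment ℝ v (r.b.m s),
      ‖z - f y‖ ≤ d.ε i) ∧
    ∀ x ∈ (d.B i).Q d.s 8, (d.B i).aff x ∈ segment ℝ ((d.B i).aff v) (f (r.b.m s)) →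
      x = v := by
  subst hs
  obtain ⟨w0, w1, d0, d1, ε1, -⟩ := rig_small h i
  obtain ⟨hτ, hj, t, ht, e, -⟩ := hr.mks.exit i v l σ ha
  have hσ := ha.1.2.2.2
  have s0 := h.s0
  obtain ⟨ε0, ε0'⟩ := h.ε0 i
  have ht' : t ∈ Icc (0 : ℝ) 16 := ⟨by linarith only [w1, d0, d1, ht, ht.1], by linarith only [w1, d0, d1, ht, ht.2]⟩
  have c1 := h.close i _ (SRig7_Q h ha.1 ht')
  have c0 := h.close i _ (SRig7_Q h ha.1 (left_mem_Icc.2 (by norm_num)))
  rw [show d.pt v l σ 0 = v by simp [TopD.pt]] at c0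
  have a1 : ∀ u, (d.B i).aff (d.pt v l σ u) - (d.B i).aff v =
      (u * d.s * σ) • (d.B i).A (Pi.single l 1 : Rn 3) := fun u => by
    rw [SRig7_aff, TopD.pt, add_sub_cancel_left]
    exact map_smul _ _ _
  have lo := h.low i (Pi.single l 1 : Rn 3) fun k hk =>
    Pi.single_eq_of_ne (fun e : k = l => hk (e ▸ ha.1.2.2.1)) _
  rw [show ‖(Pi.single l 1 : V 1)‖ = 1 by simp [Pi.norm_single], mul_one] at lo
  have hD : 2999 * d.ε i ≤ r.σ (d.ed v l σ) *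
      (f (d.pt v l σ t) - (d.B i).aff v) (r.j (d.ed v l σ)) := by
    have k := abs_le.1 ((SRig7_pi hτ _ (r.j (d.ed v l σ))).trans c1)
    have k2 : (d.B i).aff (d.pt v l σ t) (r.j (d.ed v l σ)) - (d.B i).aff v (r.j (d.ed v l σ)) =
      t * d.s * σ * (d.B i).A (Pi.single l 1 : Rn 3) (r.j (d.ed v l σ)) := congrFun (a1 t) _
    have k3 : 3 * (1000 * d.ε i) ≤ t * (d.s * ‖(d.B i).A (Pi.single l 1 : Rn 3)‖) :=
      mul_le_mul ht.1 lo (by positivity) ht'.1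
    have k4 := k.1
    simp only [Pi.sub_apply] at k4 ⊢
    linear_combination k4 + k3 - r.σ (d.ed v l σ) * k2 - t * d.s * hj + (1 / 1000000000) * ε1 +
      (999999999 / 1000000000) * ε0.le
  have sg : ∀ c : ℝ, c ∈ Icc (0 : ℝ) 1 → c * t ∈ Icc (0 : ℝ) 16 ∧
      (d.B i).aff v + c • (f (d.pt v l σ t) - (d.B i).aff v) - (d.B i).aff (d.pt v l σ (c * t)) =
        c • (f (d.pt v l σ t) - (d.B i).aff (d.pt v l σ t)) := fun c hc => by
    refine ⟨⟨mul_nonneg hc.1 ht'.1, (mul_le_of_le_one_left ht'.1 hc.2).trans ht'.2⟩, ?_⟩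
    rw [sub_eq_iff_eq_add'.1 (a1 _), sub_eq_iff_eq_add'.1 (a1 t)]
    module
  rw [e]
  refine ⟨fun i' k => ?_, ⟨hτ, ?_⟩, ?_, fun z hz => ?_, fun x hx hz => ?_⟩
  · by_cases ei : i = i'
    · subst ei
      have := SRig7_out h ha k t
      rw [sub_self, norm_zero] at this
      linarith only [this, w1, s0, d0, d1, ht, ht.1, mul_nonneg_of_nonpos_of_nonpos (Mathlib.Tactic.Linarith.sub_nonpos_of_le w1) (le_of_lt (Mathlib.Tactic.Linarith.sub_neg_of_lt s0)), mul_pos_of_neg_of_neg (Mathlib.Tactic.Linarith.sub_neg_of_lt d0) (Mathlib.Tactic.Linarith.sub_neg_of_lt s0), mul_nonneg_of_nonpos_of_nonpos (Mathlib.Tactic.Linarith.sub_nonpos_of_le d1) (le_of_lt (Mathlib.Tactic.Linarith.sub_neg_of_lt s0)), mul_nonneg_of_nonpos_of_nonpos (le_of_lt (Mathlib.Tactic.Linarith.sub_neg_of_lt s0)) (Mathlib.Tactic.Linarith.sub_nonpos_of_le ht.left)]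
    · exact disjoint_left.1 (h.disj i i' ei)
        (Box.Q_mono s0 (by norm_num) (SRig7_Q h ha.1 ht').2) (Box.Q_mono s0 (by norm_num) k)
  · have cn : Continuous fun z => ‖nc (d.B i) d.s (L i) z - d.s⁻¹ • v -
        (t * σ) • (Pi.single l 1 : Rn 3)‖ :=
      (((lh_nc s0).2.1.continuous.sub continuous_const).sub continuous_const).norm
    filter_upwards [cn.continuousAt.eventually_lt continuousAt_const
      ((SRig7_zeta h hr ha.1 ht').trans_lt (lt_two_mul_self d0))] with z hz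
    obtain ⟨k1, k2⟩ := SRig7_near hσ hz.le
    have k3 := SRig7_top h hr hv ha.1 (k1.trans (by linarith only [d0, d1]))
      (by linarith only [w1, d0, d1, k2, ht, (abs_le.1 k2).1, ht.1])
    have k4 : topT f d L r i v (l, σ) (nc (d.B i) d.s (L i) z - d.s⁻¹ • v) =
        (z - (d.B i).aff v) (r.j (d.ed v l σ)) /
          (f (d.pt v l σ t) - (d.B i).aff v) (r.j (d.ed v l σ)) := by
      rw [topT, if_neg ha.2, e, ← (hr.nm i).aff ha.1.1.1, nc_sub, map_smul,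
        ContinuousLinearEquiv.apply_symm_apply, smul_inv_smul₀ s0.ne']
    obtain ⟨k5, k6⟩ := SRig7_div hτ (lt_of_lt_of_le (by positivity) hD)
      ((z - (d.B i).aff v) (r.j (d.ed v l σ)))
    rw [k4, k5, k6] at k3
    simp only [Pi.sub_apply, sub_left_inj] at k3
    exact ⟨k3.1.trans ⟨fun k => by linarith only [k], fun k => by linarith only [k]⟩, k3.2⟩
  · have k1 := hD.trans ((le_abs_self _).trans (SRig7_pi hτ _ _))
    have k2 := norm_sub_le_norm_sub_add_norm_sub (f (d.pt v l σ t)) (f v) ((d.B i).aff v)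
    linarith only [ε1, ε0', c0, k1, k2]
  · rw [segment_eq_image'] at hz
    obtain ⟨c, hc, rfl⟩ := hz
    obtain ⟨k1, k2⟩ := sg c hc
    refine ⟨d.pt v l σ (c * t), ?_, ?_⟩
    · rw [segment_eq_image']
      refine ⟨c, hc, ?_⟩
      simp only [TopD.pt]
      module
    · have k3 := h.close i _ (SRig7_Q h ha.1 k1)
      rw [norm_sub_rev] at k3
      refine (norm_sub_le_norm_sub_add_norm_sub _ ((d.B i).aff (d.pt v l σ (c * t))) _).trans ?_
      rw [k2, norm_smul, Real.norm_of_nonneg hc.1]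
      have := (mul_le_of_le_one_left (norm_nonneg _) hc.2).trans c1
      linarith only [ε1, ε0', k3, this]
  · rw [segment_eq_image'] at hz
    obtain ⟨c, hc, ec⟩ := hz
    obtain ⟨k1, k2⟩ := sg c hc
    have k3 := SRig7_low h hx.1 (SRig7_Q h ha.1 k1).2.1
    have k4 := SRig7_out h ha hx (c * t)
    rw [← ec, k2, norm_smul, Real.norm_of_nonneg hc.1, norm_sub_rev] at k3
    have k5 := k3.trans (mul_le_mul_of_nonneg_left (mul_le_mul_of_nonneg_left c1 hc.1) s0.le)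
    have k6 := (mul_le_mul_of_nonneg_left k4 (by positivity : 0 ≤ 1000 * d.ε i)).trans k5
    have c0 : c = 0 := by
      refine le_antisymm (not_lt.1 fun p => ?_) hc.1
      have k7 : d.s * c * (1000 * d.ε i * t) ≤ d.s * c * d.ε' i := by linarith only [k6]
      have k8 := le_of_mul_le_mul_left k7 (mul_pos s0 p)
      linarith only [ε1, k8, w1, ε0, d0, ε0', d1, ht, ht.1, mul_nonneg_of_nonpos_of_nonpos (Mathlib.Tactic.Linarith.sub_nonpos_of_le w1) (le_of_lt (Mathlib.Tactic.Linarith.sub_neg_of_lt ε0)), mul_nonneg_of_nonpos_of_nonpos (le_of_lt (Mathlib.Tactic.Linarith.sub_neg_of_lt d0)) (Mathlib.Tactic.Linarith.sub_nonpos_of_le ε1), mul_pos_of_neg_of_neg (Mathlib.Tactic.Linarith.sub_neg_of_lt d0) (Mathlib.Tactic.Linarith.sub_neg_of_lt ε0'), mul_nonneg_of_nonpos_of_nonpos (Mathlib.Tactic.Linarith.sub_nonpos_of_le d1) (le_of_lt (Mathlib.Tactic.Linarith.sub_neg_of_lt ε0)), mul_nonneg_of_nonpos_of_nonpos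 (le_of_lt (Mathlib.Tactic.Linarith.sub_neg_of_lt ε0)) (Mathlib.Tactic.Linarith.sub_nonpos_of_le ht.left)]
    rw [c0, zero_mul, zero_mul, mul_zero, show d.pt v l σ 0 = v by simp [TopD.pt]] at k5
    exact (sub_eq_zero.1 (norm_le_zero_iff.1 (nonpos_of_mul_nonpos_right k5 (by positivity)))).symm

theorem rgs_meet (h : TopIn K f d) (hr : RgS K f d L r) {i i' : ι} {v w : Rn 3}
    (hv : RV K d i v) (hw : RV K d i' w) (hne : v ≠ w) {x : Rn 3} (hx : x ∈ r.b.B v ∩ r.b.B w) :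
    ∃ s, K.Fl v s ∧ K.Fl w s ∧ closure s ⊆ (d.B i).Q d.s 8 ∧ x ∈ r.b.E (r.Θ ∘ f) s := by
  obtain ⟨x1, m1, n1⟩ := rgs_loc h hr hv x hx.1
  obtain ⟨x2, m2, n2⟩ := rgs_loc h hr hw x hx.2
  obtain rfl : i = i' := box_uniq h m1 m2 (by linarith [(h.ε0 i).1]) (by linarith [(h.ε0 i').1])
  obtain ⟨w0, w1, -⟩ := rig_small h i
  have s0 := h.s0
  obtain ⟨l, σ, ha, a1, a2, a3, -, a4⟩ := rgs_shape h hr hv hx.1
  obtain ⟨l', σ', ha', b1, b2, b3, -, b4⟩ := rgs_shape h hr hw hx.2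
  have hσ := ha.2.2.2
  have hσ' := ha'.2.2.2
  obtain ⟨ζ, eζ⟩ : ∃ ζ, ζ = nc (d.B i) d.s (L i) x - d.s⁻¹ • v := ⟨_, rfl⟩
  obtain ⟨ζ', eζ'⟩ : ∃ ζ', ζ' = nc (d.B i) d.s (L i) x - d.s⁻¹ • w := ⟨_, rfl⟩
  rw [← eζ] at a1 a2 a3 a4
  rw [← eζ'] at b1 b2 b3 b4
  have gap : ∀ k, ∃ n : ℤ, w k - v k = 16 * d.s * n ∧ ζ k - ζ' k = 16 * n := fun k => by
    obtain ⟨n, e⟩ := lat_gap h ha.2.1 ha'.2.1 k
    refine ⟨n, e, ?_⟩
    rw [eζ, eζ']
    simp only [Pi.sub_apply, Pi.smul_apply, smul_eq_mul]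
    field_simp
    linear_combination e
  have bd : ∀ {ζ : Rn 3} {l : Fin 3} {σ : ℝ}, (σ = 1 ∨ σ = -1) → ‖hz l ζ‖ ≤ d.ww i →
      -d.ww i ≤ σ * ζ l → σ * ζ l ≤ 10 → ∀ k, |ζ k| ≤ 10 := fun {ζ l σ} hσ a1 a2 a3 k => by
    by_cases e : k = l
    · rw [e, ← SRig7_abs hσ]
      exact abs_le.2 ⟨by linarith only [w0, w1, a2], a3⟩
    · linarith only [w0, w1, a1, e, SRig7_coord e ζ]
  have eqk : ∀ k, |ζ k - ζ' k| < 16 → w k = v k := fun k hk => by
    obtain ⟨n, e1, e2⟩ := gap k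
    rw [e2, abs_lt] at hk
    have n1 : (-1 : ℤ) < n := by exact_mod_cast (by linarith only [hk, hk.1] : (-1 : ℝ) < n)
    have n2 : n < (1 : ℤ) := by exact_mod_cast (by linarith only [hk, hk.2] : (n : ℝ) < 1)
    obtain rfl : n = 0 := by omega
    simpa [sub_eq_zero] using e1
  have o1 : ∀ k, k ≠ l → w k = v k := fun k hk => eqk k (by
    linarith [abs_sub (ζ k) (ζ' k), SRig7_coord hk ζ, bd hσ' b1 b2 b3 k])
  have o2 : ∀ k, k ≠ l' → w k = v k := fun k hk => eqk k (by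
    linarith [abs_sub (ζ k) (ζ' k), SRig7_coord hk ζ', bd hσ a1 a2 a3 k])
  have nl : w l ≠ v l := fun e => hne (funext fun k => by
    by_cases hk : k = l
    · rw [hk, e]
    · exact (o1 k hk).symm)
  obtain rfl : l = l' := by_contra fun e => nl (o2 l e)
  obtain rfl : σ' = -σ := by
    by_contra k
    have : σ' = σ := by
      rcases hσ with rfl | rfl <;> rcases hσ' with rfl | rfl <;> simp at k ⊢
    rw [this] at b2 b3
    refine nl (eqk l ?_)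
    rw [← SRig7_abs hσ, mul_sub, abs_lt]
    constructor <;> linarith only [w0, w1, a2, b3, a3, b2]
  obtain ⟨n, e1, e2⟩ := gap l
  have en : (n : ℝ) = σ := by
    have n0 : n ≠ 0 := fun e => nl (by simpa [e, sub_eq_zero] using e1)
    rcases hσ with rfl | rfl
    · have n1 : (-1 : ℤ) < n := by exact_mod_cast (by linarith only [w0, w1, e2, a2, b2] : (-1 : ℝ) < n)
      have n2 : n < (2 : ℤ) := by exact_mod_cast (by linarith only [w0, w1, e2, a3, b3] : (n : ℝ) < 2)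
      exact_mod_cast (by omega : n = 1)
    · have n1 : (-2 : ℤ) < n := by exact_mod_cast (by linarith only [w0, w1, e2, a3, b3] : (-2 : ℝ) < n)
      have n2 : n < (1 : ℤ) := by exact_mod_cast (by linarith only [w0, w1, e2, a2, b2] : (n : ℝ) < 1)
      exact_mod_cast (by omega : n = -1)
  rw [en] at e1 e2
  have e3 : σ * ζ l + -σ * ζ' l = 16 := by linear_combination σ * e2 + 16 * SRig7_sq hσ
  obtain rfl : w = d.pt v l σ 16 := funext fun k => by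
    by_cases hk : k = l
    · rw [hk, SRig7_pt]
      linarith only [e1]
    · simp [TopD.pt, hk, o1 k hk]
  have hi : d.InE i v l σ := ⟨ha, hw.1⟩
  obtain ⟨hi', er, -⟩ := ine_rev h hi
  obtain ⟨H, h1, h2, e, hT⟩ := SRig7_mark h hr hi
  obtain ⟨H', h1', -, e', hT'⟩ := SRig7_mark h hr hi'
  rw [er, SRig7_inv h, ← sub_sub, e] at e'
  have e4 : H - 16 * σ = H' := by simpa using congrFun e' l
  obtain ⟨t1, t2⟩ := a4 (by linarith only [w0, w1, b3, e3])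
  have t3 := (b4 (by linarith only [w0, w1, a3, e3])).1
  rw [hT] at t1 t2
  rw [hT', (SRig7_div hσ' (by linarith only [w0, w1, h1']) _).1] at t3
  rw [(SRig7_div hσ (by linarith only [w0, w1, h1]) _).1] at t1
  have e5 : σ * ζ l = σ * H := le_antisymm t1 (by
    linear_combination t3 - e3 + σ * e4 + 16 * SRig7_sq hσ)
  have e6 : ζ l = H := mul_left_cancel₀ (left_ne_zero_of_mul (by linarith only [w0, w1, b3, e3, t1] : σ * H ≠ 0)) e5
  rw [(SRig7_div hσ (by linarith only [w0, w1, b3, e3, t1]) _).2.2 e6] at t2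
  have t4 : ‖hz l ζ‖ ≤ d.ww i / 2 := by
    have := (div_le_iff₀ w0).1 (by linarith only [t2] : ‖hz l ζ‖ / d.ww i ≤ 1 / 2)
    linarith only [this]
  refine ⟨_, (arm_edge h ha).2.1, er ▸ (arm_edge h hi'.1).2.1, (ine_iff h ha).2 hi,
    (r.b.M (d.ed v l σ)).symm (x - r.b.p (r.Θ ∘ f) (d.ed v l σ)), ?_, by simp⟩
  obtain ⟨q1, q2⟩ := (hr.mks.inner i v l σ hi).2
    ((r.b.M (d.ed v l σ)).symm (x - r.b.p (r.Θ ∘ f) (d.ed v l σ)))
  rw [ContinuousLinearEquiv.apply_symm_apply, ← nc_sub (B := d.B i),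
    ← sub_sub_sub_cancel_right _ _ (d.s⁻¹ • v), ← eζ, e] at q1 q2
  generalize (r.b.M (d.ed v l σ)).symm (x - r.b.p (r.Θ ∘ f) (d.ed v l σ)) = y at q1 q2
  have y2 : y 2 = 0 := by
    simpa [e6, w0.ne'] using q1
  rw [SRig7_sub, SRig7_single, sub_zero, pfill_hz_self y2] at q2
  exact ⟨le_of_mul_le_mul_left (by linarith only [t4, q2]) (half_pos w0), y2⟩

theorem rgs_far (h : TopIn K f d) (hr : RgS K f d L r) {i : ι} {x y : Rn 3}
    (hx : x ∈ (d.B i).Q d.s 8) (h1 : y ∈ K.sk 1) (h2 : y ∉ (d.B i).Q d.s 8)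
    (h3 : ∀ v s, RV K d i v → K.Fl v s → y ∈ segment ℝ v (r.b.m s) → y = r.b.m s) :
    2 * d.ε i ≤ ‖f y - (d.B i).aff x‖ := by
  obtain ⟨ε0, ε0'⟩ := h.ε0 i
  have s0 := h.s0
  by_cases k : y ∈ (d.B i).Q d.s 16
  swap
  · linarith [h.nohit i x (Box.Q_mono s0 (by norm_num) hx) y h1.1 (.inl h1) k]
  obtain ⟨v, l, σ, ha, u, hu, e⟩ := sk_out h h1 k h2
  obtain ⟨-, -, t, ht, em, -⟩ := hr.mks.exit i v l σ ha
  have fl := (arm_edge h ha.1).2.1
  have k1 : 3 * d.s ≤ ‖y - x‖ := by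
    rcases le_total u t with c | c
    · have t0 : 0 < t := by linarith [ht.1]
      rw [h3 v _ ⟨ha.1.1, fl.2.1⟩ fl (by
        rw [em, e, segment_eq_image']
        refine ⟨u / t, ⟨div_nonneg hu.1.le t0.le, (div_le_one t0).2 c⟩, ?_⟩
        simp only [TopD.pt]
        match_scalars <;> field_simp
        ring), em]
      exact (mul_le_mul_of_nonneg_right ht.1 s0.le).trans (SRig7_out h ha hx t)
    · rw [e]
      exact (mul_le_mul_of_nonneg_right (ht.1.trans c) s0.le).trans (SRig7_out h ha hx u)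
  have k2 := (mul_le_mul_of_nonneg_left k1 (by positivity : 0 ≤ 1000 * d.ε i)).trans
    (SRig7_low h k.1 hx.1)
  have k3 : 3000 * d.ε i ≤ ‖(d.B i).aff y - (d.B i).aff x‖ :=
    le_of_mul_le_mul_left (by linarith) s0
  have k4 := h.close i y ⟨h1, Box.Q_mono s0 (by norm_num) k⟩
  have k5 := norm_sub_le_norm_sub_add_norm_sub ((d.B i).aff y) (f y) ((d.B i).aff x)
  rw [norm_sub_rev _ (f y)] at k5
  linarith only [ε0, k3, k4, k5, h, (rig_small h i).2.2.2.2.1]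

end BEp
end
end

-- merged part: Pool.Agent.Work.MP_f0515e_an.D3.SRig
section
-- merged part: Pool.Agent.Work.MP_f0515e_an.D3.SRig6
section
/-! The bead at a rigid vertex contains exactly the star.
`rgs_val`: points `pt v l σ u` with `u ≤ 9` lie in `Q 12` or (`InE`) in `Q 8`, or `Θ` fixes their image; the normal coordinates of the image are
within `2 dl` of `u σ e_l`. For `u < 2` the top functional is below one, `cross_in`; otherwise `cross_top`.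
`rgs_star`: `rgs_loc` and `ths_nohit` give `y ∈ Q 16`; then `‖y - v‖ < 16 s` by `rgs_shape` and `nc_close`, `sk_axis`, and `rgs_val`.
`ray`: the point lies on `Sk` (`pt_sk`); `ths_nohit`, `sk_iff`, `rgs_star`. About 300 lines. -/

open Set Metric Filter Topology Function BEv
open scoped NNReal

noncomputable section
namespace BEp

variable {Ω : Set (Rn 3)} {K : Kx Ω} {f : Rn 3 → Rn 3} {ι : Type} {d : TopD ι}

variable {L : ι → Rn 3 ≃L[ℝ] Rn 3} {r : RigD}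

theorem SRig6_close (h : TopIn K f d) (hr : RgS K f d L r) {i : ι} {y : Rn 3} (h1 : y ∈ K.sk 1)
    (h2 : y ∈ (d.B i).Q d.s 24) :
    ‖nc (d.B i) d.s (L i) (r.Θ (f y)) - d.s⁻¹ • y‖ ≤ 2 * d.dl i := by
  by_cases h3 : y ∈ (d.B i).Q d.s 12
  · exact ths_close h hr.nm hr.mks hr.ths h1 h3
  rw [ths_fix h hr.nm hr.mks hr.ths h1 fun j hj => ?_]
  · linarith only [h, hr, h1, h2, nc_close h (hr.nm i) h1 h2, (rig_small h i).2.2.1]
  · by_cases e : i = j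
    · exact h3 (Box.Q_mono h.s0 (by norm_num) (e ▸ hj))
    · exact disjoint_left.1 (h.disj i j e) (Box.Q_mono h.s0 (by norm_num) h2)
        (Box.Q_mono h.s0 (by norm_num) hj)

theorem SRig6_norm (h : TopIn K f d) (v : Rn 3) (l : Fin 3) {σ u : ℝ} (hσ : σ = 1 ∨ σ = -1)
    (hu : 0 ≤ u) : ‖d.pt v l σ u - v‖ = u * d.s := by
  have : |σ| = 1 := by rcases hσ with rfl | rfl <;> simp
  rw [TopD.pt, add_sub_cancel_left, norm_smul, Pi.norm_single, norm_one, mul_one, Real.norm_eq_abs,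
    abs_mul, this, mul_one, abs_of_nonneg (mul_nonneg hu h.s0.le)]

theorem SRig6_line (v : Rn 3) (l : Fin 3) (σ t θ : ℝ) :
    v + θ • (d.pt v l σ t - v) = d.pt v l σ (θ * t) := by
  rw [TopD.pt, TopD.pt, add_sub_cancel_left, smul_smul]
  congr 2
  ring

theorem SRig6_co (h : TopIn K f d) {v z : Rn 3} {l : Fin 3} {σ u e : ℝ} (hσ : σ = 1 ∨ σ = -1)
    (hz' : ‖z - d.s⁻¹ • d.pt v l σ u‖ ≤ e) :
    ‖hz l (z - d.s⁻¹ • v)‖ ≤ e ∧ u - e ≤ σ * (z - d.s⁻¹ • v) l := by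
  have s0 := h.s0.ne'
  have e0 := (norm_nonneg _).trans hz'
  have H := fun k => (norm_le_pi_norm _ k).trans hz'
  refine ⟨(pi_norm_le_iff_of_nonneg e0).2 fun k => ?_, ?_⟩
  · rcases eq_or_ne k l with rfl | e1
    · simpa [hz] using e0
    · simpa [hz, e1, TopD.pt] using H k
  · have e1 : (z - d.s⁻¹ • d.pt v l σ u) l = (z - d.s⁻¹ • v) l - u * σ := by
      simp only [TopD.pt, Pi.sub_apply, Pi.smul_apply, Pi.add_apply, Pi.single_eq_same, smul_eq_mul]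
      field_simp
      ring
    have e2 := abs_le.1 (H l)
    rw [e1] at e2
    rcases hσ with rfl | rfl <;> linarith only [e2, e2.1, e2.2]

theorem SRig6_in (h : TopIn K f d) (hr : RgS K f d L r) {i : ι} {v y : Rn 3} (hv : RV K d i v)
    (hy : y ∈ Ω) (h1 : y ∈ K.sk 1 ∨ y ∈ (d.B i).Sk d.s) (hB : r.Θ (f y) ∈ r.b.B v) :
    y ∈ (d.B i).Q d.s 24 := by
  obtain ⟨x, hx, e⟩ := rgs_loc h hr hv _ hB
  refine Box.Q_mono h.s0 (by norm_num : (16 : ℝ) ≤ 24) (by_contra fun k => ?_)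
  exact (ths_nohit h hr.nm hr.mks hr.ths hx hy h1 k).not_ge e

theorem rgs_val (h : TopIn K f d) (hr : RgS K f d L r) {i : ι} {v : Rn 3} {l : Fin 3} {σ t : ℝ}
    (hv : RV K d i v) (ha : d.Arm i v l σ) (ht : r.b.m (d.ed v l σ) = d.pt v l σ t) {u : ℝ}
    (hu : u ∈ Icc (0 : ℝ) 16) : (r.Θ (f (d.pt v l σ u)) ∈ r.b.B v ↔ u ≤ t) ∧
      (r.Θ (f (d.pt v l σ u)) ∈ r.b.S v ↔ u = t) := by
  obtain ⟨t', ht', e, -, H⟩ := rgs_arm h hr ha
  obtain rfl : t = t' := by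
    have e1 := congrFun (ht.symm.trans e) l
    simp only [TopD.pt, Pi.add_apply, Pi.smul_apply, Pi.single_eq_same, smul_eq_mul, mul_one,
      add_right_inj] at e1
    have : σ ≠ 0 := by rcases ha.2.2.2 with rfl | rfl <;> norm_num
    exact mul_right_cancel₀ h.s0.ne' (mul_right_cancel₀ this e1)
  obtain ⟨w0, w1, d0, d1, -⟩ := rig_small h i
  obtain ⟨p1, p2⟩ := (arm_edge h ha).2.2.2.2.2 u hu
  obtain ⟨c1, c2⟩ := SRig6_co h ha.2.2.2
    (SRig6_close h hr p1 (Box.Q_mono h.s0 (by linarith only [hu, hu.2]) p2))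
  have m : (l, σ) ∈ dirs (d.B i) := mem_dirs.2 ha.2.2
  obtain ⟨H1, H2⟩ := H u hu
  rw [(rgs_mem hr hv _).1, (rgs_mem hr hv _).2, bdN]
  rcases lt_or_ge u 2 with k | k
  · have k1 : u < t := by linarith only [w1, d0, d1, k, ht', ht'.1]
    have k2 := (cross_in (T := topT f d L r i v) w0 m (c1.trans (by linarith only [d0, d1]))
      (lt_of_lt_of_le (by linarith only [d0, d1, hu, hu.1]) c2)).2 (H1.2 k1)
    exact ⟨iff_of_true k2.le k1.le, iff_of_false k2.ne k1.ne⟩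
  · obtain ⟨k1, k2⟩ := cross_top (T := topT f d L r i v) w0 (by linarith only [w1, d0, d1])
      (fun a ha => (mem_dirs.1 ha).2) m (c1.trans (by linarith only [d0, d1])) (le_trans (by linarith only [w1, d0, d1, k]) c2)
    rw [k1, k2, le_iff_lt_or_eq, H1, H2, le_iff_lt_or_eq]
    exact ⟨Iff.rfl, Iff.rfl⟩

theorem rgs_star (h : TopIn K f d) (hr : RgS K f d L r) {i : ι} {v y : Rn 3}
    (hv : RV K d i v) (hy : y ∈ K.sk 1) (hB : r.Θ (f y) ∈ r.b.B v) :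
    ∃ l σ, d.Arm i v l σ ∧ ∃ u ∈ Icc (0 : ℝ) 16, y = d.pt v l σ u := by
  have h1 := SRig6_in h hr hv hy.1 (.inl hy) hB
  have h2 := (rv_lat h (Box.Q_mono h.s0 (by norm_num) hv.1)).1 hv.2
  obtain ⟨w0, w1, d0, d1, -⟩ := rig_small h i
  have h3 := SRig6_close h hr hy h1
  obtain ⟨l, σ, ha, a1, a2, a3, -⟩ := rgs_shape h hr hv hB
  have h4 : ‖nc (d.B i) d.s (L i) (r.Θ (f y)) - d.s⁻¹ • v‖ ≤ 10 := by
    refine (pi_norm_le_iff_of_nonneg (by norm_num)).2 fun k => ?_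
    rcases eq_or_ne k l with rfl | e
    · rw [Real.norm_eq_abs, abs_le]
      rcases ha.2.2.2 with rfl | rfl <;> constructor <;> linarith only [w1, d0, d1, a2, a3]
    · have := (norm_le_pi_norm _ k).trans a1
      rw [hz, update_of_ne e] at this
      linarith only [w1, d0, d1, this]
  have h5 := norm_sub_le_norm_sub_add_norm_sub (d.s⁻¹ • y) (nc (d.B i) d.s (L i) (r.Θ (f y)))
    (d.s⁻¹ • v)
  rw [norm_sub_rev (d.s⁻¹ • y) (nc _ _ _ _), ← smul_sub, norm_smul, norm_inv,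
    Real.norm_of_nonneg h.s0.le, inv_mul_le_iff₀ h.s0] at h5
  obtain ⟨l', hl, σ', hσ, u, hu, e⟩ := sk_axis h h2 ((sk_iff h h1).1 hy)
    (h5.trans_lt (by rw [mul_comm]; exact mul_lt_mul_of_pos_right (by linarith only [w1, d0, d1, h3, h4]) h.s0))
  exact ⟨l', σ', ⟨hv.1, h2, hl, hσ⟩, u, Ico_subset_Icc_self hu, e⟩

theorem rgs_bd0 (h : TopIn K f d) (hr : RgS K f d L r) {i : ι} {v : Rn 3} (hv : RV K d i v) :
    Bd0 K (r.Θ ∘ f) (r.b.Φ v) v {m | ∃ s, K.Fl v s ∧ m = r.b.m s} := by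
  have mk : ∀ m ∈ {m | ∃ s, K.Fl v s ∧ m = r.b.m s}, ∃ l σ t, d.Arm i v l σ ∧ t ∈ Icc (3 : ℝ) 9 ∧
      r.b.m (d.ed v l σ) = d.pt v l σ t ∧ m = d.pt v l σ t := by
    rintro _ ⟨s, hs, rfl⟩
    obtain ⟨l, σ, ha, rfl⟩ := rv_fl h hv hs
    obtain ⟨t, ht, e, -⟩ := rgs_arm h hr ha
    exact ⟨l, σ, t, ha, ht, e, e⟩
  refine ⟨hr.lh i v hv, fun z hz => ?_, fun m hm => ?_, fun y hy hB => ?_, fun y hy hS => ?_,
    fun m hm => ?_, fun m hm θ h0 h1 hB => ?_,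
    fun m _ => (leg_of_hom (hr.lh i v hv) (hr.hom i v hv) _).2⟩
  · obtain ⟨x, hx, e⟩ := rgs_loc h hr hv z hz
    rw [image_comp, ths_img h hr.nm hr.mks hr.ths]
    exact h.rsub i x hx (mem_closedBall_iff_norm.2 (by linarith [(h.ε0 i).1]))
  · obtain ⟨l, σ, t, ha, ht, e, rfl⟩ := mk m hm
    rintro _ ⟨y, hy, rfl⟩
    rw [segment_eq_image'] at hy
    obtain ⟨θ, hθ, rfl⟩ := hy
    have k : θ * t ≤ t := mul_le_of_le_one_left (by linarith [ht.1]) hθ.2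
    simp only [SRig6_line]
    exact (rgs_val h hr hv ha e ⟨mul_nonneg hθ.1 (by linarith [ht.1]), by linarith [ht.2]⟩).1.2 k
  · obtain ⟨l, σ, ha, u, hu, rfl⟩ := rgs_star h hr hv hy hB
    obtain ⟨t, ht, e, -⟩ := rgs_arm h hr ha
    have t0 : 0 < t := by linarith [ht.1]
    refine ⟨_, ⟨_, (arm_edge h ha).2.1, rfl⟩, ?_⟩
    rw [e, segment_eq_image']
    refine ⟨u / t, ⟨div_nonneg hu.1 t0.le, (div_le_one t0).2 ((rgs_val h hr hv ha e hu).1.1 hB)⟩, ?_⟩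
    simp only [SRig6_line, div_mul_cancel₀ u t0.ne']
  · obtain ⟨l, σ, ha, u, hu, rfl⟩ := rgs_star h hr hv hy (image_mono sphere_subset_closedBall hS)
    obtain ⟨t, ht, e, -⟩ := rgs_arm h hr ha
    exact ⟨_, (arm_edge h ha).2.1, by rw [e, (rgs_val h hr hv ha e hu).2.1 hS]⟩
  · obtain ⟨l, σ, t, ha, ht, e, rfl⟩ := mk m hm
    exact (rgs_val h hr hv ha e ⟨by linarith [ht.1], by linarith [ht.2]⟩).2.2 rfl
  · obtain ⟨l, σ, t, ha, ht, e, rfl⟩ := mk m hm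
    rw [SRig6_line] at h1 hB
    have t0 : 0 < t := by linarith [ht.1]
    have k1 := pt_sk h ha.2.1 ha.2.2.1 σ (θ * t)
    obtain ⟨l', σ', ha', u, hu, e'⟩ := rgs_star h hr hv
      ((sk_iff h (SRig6_in h hr hv h1 (.inr k1) hB)).2 k1) hB
    have k2 := SRig6_norm h v l ha.2.2.2 (mul_nonneg h0 t0.le)
    rw [e', SRig6_norm h v l' ha'.2.2.2 hu.1] at k2
    have k3 := (rgs_val h hr hv ha e (mul_right_cancel₀ h.s0.ne' k2 ▸ hu)).1.1 hB
    exact le_of_mul_le_mul_right (by rwa [one_mul]) t0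

end BEp
end
end

-- merged part: Pool.Agent.Work.MP_f0515e_an.D3.SRig
section
/-! EXPORT (beads for the rigid boxes). Owner h93. -/

open Set Metric Filter Topology Function BEv
open scoped NNReal

noncomputable section
namespace BEp

variable {Ω : Set (Rn 3)} {K : Kx Ω} {f : Rn 3 → Rn 3} {ι : Type} {d : TopD ι}

theorem fat_rigid [Finite ι] (h : TopIn K f d) : ∃ r, Rig K f d r := by
  obtain ⟨L, r, hr⟩ := rgs_exists h
  have Q24 : ∀ i, (d.B i).Q d.s 8 ⊆ (d.B i).Q d.s 24 := fun i => Box.Q_mono h.s0 (by norm_num)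
  refine ⟨r, hr.ths.lh, ths_img h hr.nm hr.mks hr.ths, ?_, ?_, ?_, ?_, ?_, ?_, ?_, ?_, ?_, ?_, ?_⟩
  · intro z hz
    obtain ⟨i, h1, -⟩ := ths_supp h hr.nm hr.mks hr.ths hz
    exact ⟨i, h1⟩
  · exact fun y h1 h2 => ths_fix h hr.nm hr.mks hr.ths h1 h2
  · refine (Set.finite_iUnion fun i => lat_finite h i).subset ?_
    rintro v ⟨i, hv⟩
    exact mem_iUnion.2 ⟨i, hv.1, (rv_lat h (Q24 i hv.1)).1 hv.2⟩
  · intro i v hv s hs
    obtain ⟨l, σ, ha, rfl⟩ := rv_fl h hv hs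
    obtain ⟨t, ht, e, -⟩ := rgs_arm h hr ha
    rw [e, (arm_edge h ha).2.2.2.2.1]
    exact ⟨t, ⟨by linarith [ht.1], by linarith [ht.2]⟩, rfl⟩
  · exact fun i v hv => rgs_bd0 h hr hv
  · exact fun i v hv => (leg_of_hom (hr.lh i v hv) (hr.hom i v hv) 0).1
  · exact fun i v hv => rgs_loc h hr hv
  · intro i v hv s hs hc
    obtain ⟨l, σ, ha, rfl⟩ := rv_fl h hv hs
    exact rgs_inner h hr hv ((ine_iff h ha).1 hc)
  · intro i v hv s hs hc
    obtain ⟨l, σ, ha, e⟩ := rv_fl h hv hs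
    refine rgs_exit h hr hv ⟨ha, fun k => hc ?_⟩ e
    rw [e]
    exact (ine_iff h ha).2 ⟨ha, k⟩
  · exact fun i v hv i' w hw hne x hx => rgs_meet h hr hv hw hne hx
  · exact fun i x hx y h1 h2 h3 => rgs_far h hr hx h1 h2 h3

end BEp
end
end
end

-- merged part: Pool.Agent.Work.MP_f0515e_an.D3.GFat2
section
/-! EXPORT: the fat beads exist (rigid beads and chord beads put together). -/

open Set Metric Filter Topology Function BEv
open scoped NNReal ENNReal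

noncomputable section
namespace BEp

variable {Ω : Set (Rn 3)} {K : Kx Ω} {f : Rn 3 → Rn 3} {ι : Type} {d : TopD ι}

theorem gf2_nv {a b x : Rn 3} (h : K.Edge a b) (hx : x ∈ openSegment ℝ a b) :
    K.cell x = openSegment ℝ a b ∧ K.cell x ≠ {x} := by
  have e := Kx.cell_eq h.2 hx
  refine ⟨e, fun k => ?_⟩
  have := h.dm
  rw [← e, k, KA2_single] at this
  exact zero_ne_one this

theorem gf2_v {a b x : Rn 3} (h : K.Edge a b) (hx : x ∈ segment ℝ a b) (hv : K.cell x = {x}) :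
    x = a ∨ x = b := by
  rcases Kx.KA2_seg hx with e | e | e
  exacts [.inl e, .inr e, ((gf2_nv h e).2 hv).elim]

theorem gf2_fl {a b : Rn 3} (h : K.Edge a b) : K.Fl a (openSegment ℝ a b) :=
  ⟨h.left.1, h.left.2, ⟨h.2, h.dm⟩, h.cl ▸ left_mem_segment ℝ a b⟩

theorem gf2_fl' {a b : Rn 3} (h : K.Edge a b) : K.Fl b (openSegment ℝ a b) :=
  openSegment_symm ℝ b a ▸ gf2_fl h.symm

theorem gf2_ed {v : Rn 3} {s : Set (Rn 3)} (h : K.Fl v s) :
    ∃ b, K.Edge v b ∧ s = openSegment ℝ v b := by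
  obtain ⟨a, b, e, rfl⟩ := Kx.dm_one h.2.2.1.1 h.2.2.1.2
  rcases gf2_v e (e.cl ▸ h.2.2.2) h.2.1 with rfl | rfl
  exacts [⟨b, e, rfl⟩, ⟨a, e.symm, openSegment_symm ℝ _ _⟩]

theorem gf2_leg {a b y x : Rn 3} (hy : y ∈ openSegment ℝ a b) (hx : x ∈ segment ℝ a y) :
    x = a ∨ x ∈ openSegment ℝ a b := by
  rw [openSegment_eq_image'] at hy ⊢
  rw [segment_eq_image'] at hx
  obtain ⟨t, ht, rfl⟩ := hy
  obtain ⟨u, hu, rfl⟩ := hx
  rcases hu.1.eq_or_lt with rfl | h0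
  · left; simp
  · right
    refine ⟨u * t, ⟨mul_pos h0 ht.1, by linarith only [hu, h0, ht, ht.1, ht.2, hu.2, mul_pos_of_neg_of_neg (Mathlib.Tactic.Linarith.sub_neg_of_lt h0) (Mathlib.Tactic.Linarith.sub_neg_of_lt ht.right)]⟩, ?_⟩
    simp [mul_smul]

theorem gf2_two {a b y x : Rn 3} (hab : a ≠ b) (hy : y ∈ openSegment ℝ a b)
    (hx : x ∈ segment ℝ a y) (hx' : x ∈ segment ℝ b y) : x = y := by
  rw [openSegment_eq_image'] at hy
  rw [segment_eq_image'] at hx hx'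
  obtain ⟨t, ht, rfl⟩ := hy
  obtain ⟨u, hu, rfl⟩ := hx
  obtain ⟨w, hw, e⟩ := hx'
  have k : (u * t - (1 - w + w * t)) • (b - a) = 0 := by
    have e' := e
    simp only at e'
    linear_combination (norm := module) -e'
  have k2 : u * t - (1 - w + w * t) = 0 :=
    (smul_eq_zero.1 k).resolve_right (sub_ne_zero.2 hab.symm)
  have k3 : u = 1 := by
    have : (1 - u) * t = 0 := by
      nlinarith [mul_nonneg (sub_nonneg.2 hu.2) ht.1.le,
        mul_nonneg (sub_nonneg.2 hw.2) (sub_nonneg.2 ht.2.le)]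
    have := (mul_eq_zero.1 this).resolve_right ht.1.ne'
    linarith
  simp [k3]

theorem gf2_split {a b y x : Rn 3} (hy : y ∈ openSegment ℝ a b) (hx : x ∈ segment ℝ a b) :
    x ∈ segment ℝ a y ∨ x ∈ segment ℝ b y := by
  rw [openSegment_eq_image'] at hy
  rw [segment_eq_image'] at hx
  obtain ⟨t, ht, rfl⟩ := hy
  obtain ⟨u, hu, rfl⟩ := hx
  rw [segment_eq_image', segment_eq_image']
  have h0 := ht.1.ne'
  have h1 : 1 - t ≠ 0 := (sub_pos.2 ht.2).ne'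
  rcases le_total u t with k | k
  · refine .inl ⟨u / t, ⟨div_nonneg hu.1 ht.1.le, (div_le_one ht.1).2 k⟩, ?_⟩
    simp only [add_sub_cancel_left, smul_smul, div_mul_cancel₀ u h0]
  · refine .inr ⟨(1 - u) / (1 - t), ⟨div_nonneg (sub_nonneg.2 hu.2) (sub_nonneg.2 ht.2.le),
      (div_le_one (sub_pos.2 ht.2)).2 (by linarith)⟩, ?_⟩
    have : a + t • (b - a) - b = (1 - t) • (a - b) := by module
    simp only [this, smul_smul, div_mul_cancel₀ _ h1]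
    module

theorem gf2_mid (a b : Rn 3) : midpoint ℝ a b ∈ openSegment ℝ a b :=
  ⟨1 / 2, 1 / 2, by norm_num, by norm_num, by norm_num, by
    rw [midpoint_eq_smul_add, smul_add]; norm_num⟩

theorem gf2_box (h : TopIn K f d) {i j : ι} {x : Rn 3} {ρ ρ' : ℝ} (h1 : x ∈ (d.B i).Q d.s ρ)
    (h2 : x ∈ (d.B j).Q d.s ρ') (k1 : ρ ≤ 40) (k2 : ρ' ≤ 40) :
    i = j := by
  by_contra hne
  exact disjoint_left.1 (h.disj i j hne) (Box.Q_mono h.s0 k1 h1) (Box.Q_mono h.s0 k2 h2)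

theorem gf2_24 (h : TopIn K f d) {i : ι} {v : Rn 3} (hv : RV K d i v) {s : Set (Rn 3)}
    (hs : K.Fl v s) : closure s ⊆ (d.B i).Q d.s 24 := by
  obtain ⟨l, σ, ha, rfl⟩ := rv_fl h hv hs
  obtain ⟨-, -, -, e, -, k⟩ := arm_edge h ha
  rw [e]
  rintro _ ⟨u, hu, rfl⟩
  exact Box.Q_mono h.s0 (by linarith [hu.2]) (k u hu).2

/-- The closed cells of the points of `Q 8` lie in `Q 8`. -/
theorem gf2_cl (h : TopIn K f d) {i : ι} {x : Rn 3} (hx : x ∈ (d.B i).Q d.s 8) :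
    closure (K.cell x) ⊆ (d.B i).Q d.s 8 := by
  have hs := h.s0
  have hc : IsClosed ((d.B i).Q d.s 8) := by
    have : (d.B i).Q d.s 8 = (⋂ l, ⋂ (_ : l ∉ (d.B i).I), {x : Rn 3 | x l = (d.B i).c l}) ∩
        ⋂ l ∈ (d.B i).I, {x : Rn 3 | |x l - (d.B i).c l| ≤ d.s * ((d.B i).r + 8)} := by
      ext y; simp [Box.Q, Box.slice]
    rw [this]
    exact (isClosed_iInter fun l => isClosed_iInter fun _ =>
      isClosed_eq (continuous_apply l) continuous_const).inter (isClosed_biInter fun l _ =>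
        isClosed_le (by fun_prop) continuous_const)
  refine closure_minimal ?_ hc
  rw [h.grid i x (Box.Q_mono hs (by norm_num) hx)]
  intro y hy
  refine ⟨hy.1, fun l hl => ?_⟩
  obtain ⟨e1, e2⟩ := hy.2 l hl
  obtain ⟨n, hn⟩ := (h.r8 i).1
  have hr : ((d.B i).r : ℝ) = 8 * n := by rw [hn]; push_cast; ring
  have k := abs_le.1 (hx.2 l hl)
  have k1 : ((x l - (d.B i).c l) / d.s - ((d.B i).r + 8)) / 16 ≤ ((0 : ℤ) : ℝ) := by
    have : (x l - (d.B i).c l) / d.s ≤ (d.B i).r + 8 := by rw [div_le_iff₀ hs]; linarith only [k, k.2]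
    push_cast; linarith only [this]
  have k2 : ((-(n + 1) : ℤ) : ℝ) ≤ ((x l - (d.B i).c l) / d.s - ((d.B i).r + 8)) / 16 := by
    have : -((d.B i).r + 8 : ℝ) ≤ (x l - (d.B i).c l) / d.s := by
      rw [le_div_iff₀ hs]; linarith only [k, k.1]
    push_cast; linarith only [hr, this]
  rw [← Int.ceil_le, ← e2, Int.ceil_le] at k1
  rw [← Int.le_floor, ← e1, Int.le_floor] at k2
  push_cast at k1 k2
  have k3 : (y l - (d.B i).c l) / d.s ≤ (d.B i).r + 8 := by linarith only [k1]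
  have k4 : -((d.B i).r + 8 : ℝ) ≤ (y l - (d.B i).c l) / d.s := by linarith only [hr, k2]
  rw [div_le_iff₀ hs] at k3
  rw [le_div_iff₀ hs] at k4
  exact abs_le.2 ⟨by linarith only [k4], by linarith only [k3]⟩

theorem gf2_cu (h : TopIn K f d) {c c' : Chd} (hc : c ∈ d.Ch) (hc' : c' ∈ d.Ch) {x : Rn 3}
    (h1 : x ∈ segment ℝ c.a c.b) (h2 : x ∈ segment ℝ c'.a c'.b) : c = c' := by
  by_contra hne
  exact disjoint_left.1 (h.cdisj hc hc' hne) (h.cin c hc x h1) (h.cin c' hc' x h2)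

theorem gf2_cf (h : TopIn K f d) {c : Chd} (hc : c ∈ d.Ch) {i : ι} {x z : Rn 3}
    (hx : x ∈ (d.B i).Q d.s 12) (hz : z ∈ c.box f) : ¬ ‖z - (d.B i).aff x‖ ≤ d.ε i := fun k => by
  linarith [h.cfar c hc i x hx z hz, (h.ε0 i).1]

theorem gf2_cq (h : TopIn K f d) {c : Chd} (hc : c ∈ d.Ch) {i : ι} {x : Rn 3}
    (h1 : x ∈ segment ℝ c.a c.b) : x ∉ (d.B i).Q d.s 8 := fun k => by
  refine gf2_cf h hc (Box.Q_mono h.s0 (by norm_num) k) (h.cin c hc x h1) ?_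
  have := h.close i x ⟨(h.cedge c hc).1.seg_sub h1, Box.Q_mono h.s0 (by norm_num) k⟩
  linarith [(rig_small h i).2.2.2.2.1, (h.ε0 i).2]

/-- The far end of a coarse edge is not the end of a chord. -/
theorem gf2_far (h : TopIn K f d) {c : Chd} (hc : c ∈ d.Ch) {i : ι} {v : Rn 3} {l : Fin 3}
    {σ : ℝ} (ha : d.Arm i v l σ) : ¬ (d.pt v l σ 16 = c.a ∨ d.pt v l σ 16 = c.b) := by
  intro hb
  obtain ⟨e, he, -, hl⟩ := h.cval c hc
  obtain ⟨l', hl', hne⟩ := Finset.exists_mem_ne (h.card i) l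
  obtain ⟨-, -, hL, -, -, k⟩ := arm_edge h ha
  have hs := h.s0
  obtain ⟨u, hu0, hu1, hu⟩ : ∃ u : ℝ, 0 < u ∧ u ≤ 16 ∧ u * d.s < e :=
    ⟨min 16 (e / (2 * d.s)), lt_min (by norm_num) (by positivity), min_le_left _ _, by
      have : min 16 (e / (2 * d.s)) * d.s ≤ e / (2 * d.s) * d.s :=
        mul_le_mul_of_nonneg_right (min_le_right _ _) hs.le
      have e2 : e / (2 * d.s) * d.s = e / 2 := by field_simp
      linarith only [he, this, e2]⟩
  have hσ : |σ| = 1 := by rcases ha.2.2.2 with rfl | rfl <;> simp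
  set b := d.pt v l σ 16 with hbd
  have line : ∀ x ∈ K.sk 1, ‖x - b‖ < e → ∃ t : ℝ, x - b = t • (c.b - c.a) := by
    intro x hx hn
    obtain ⟨t, rfl⟩ := hl x hx (hb.imp (fun k => by rw [← k]; exact hn) fun k => by rw [← k]; exact hn)
    rcases hb with k | k
    · exact ⟨t, by rw [k, seg]; module⟩
    · exact ⟨t - 1, by rw [k, seg]; module⟩
  have b24 : b ∈ (d.B i).Q d.s 24 := by
    have := (k 16 ⟨by norm_num, le_rfl⟩).2
    norm_num at this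
    exact this
  have p24 : d.pt b l' 1 u ∈ (d.B i).Q d.s 24 := by
    refine ⟨(pt_sk h hL hl' 1 u).1, fun m hm => ?_⟩
    by_cases e' : m = l'
    · subst e'
      have k1 := abs_le.1 (ha.1.2 m hm)
      have : d.pt b m 1 u m = v m + u * d.s := by simp [TopD.pt, hbd, hne]
      rw [this]
      exact abs_le.2 ⟨by linarith only [hs, k1, hu0, k1.1, mul_pos_of_neg_of_neg (Mathlib.Tactic.Linarith.sub_neg_of_lt hs) (Mathlib.Tactic.Linarith.sub_neg_of_lt hu0)], by linarith only [k1, hs, hu1, k1.2, mul_nonneg_of_nonpos_of_nonpos (le_of_lt (Mathlib.Tactic.Linarith.sub_neg_of_lt hs)) (Mathlib.Tactic.Linarith.sub_nonpos_of_le hu1)]⟩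
    · have : d.pt b l' 1 u m = b m := by simp [TopD.pt, e']
      rw [this]; exact b24.2 m hm
  have e1 : d.pt b l' 1 u - b = (u * d.s) • (Pi.single l' 1 : Rn 3) := by simp [TopD.pt]
  have e2 : d.pt v l σ (16 - u) - b = (-(u * d.s * σ)) • (Pi.single l 1 : Rn 3) := by
    rw [hbd, TopD.pt, TopD.pt]; module
  have hp : 0 < u * d.s := mul_pos hu0 hs
  obtain ⟨t1, f1⟩ := line _ ((sk_iff h p24).2 (pt_sk h hL hl' 1 u)) (by
    rw [e1, norm_smul, Pi.norm_single, norm_one, mul_one, Real.norm_eq_abs, abs_of_pos hp]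
    exact hu)
  obtain ⟨t2, f2⟩ := line _ (k (16 - u) ⟨by linarith only [hu1], by linarith⟩).1 (by
    rw [e2, norm_smul, Pi.norm_single, norm_one, mul_one, Real.norm_eq_abs, abs_neg, abs_mul, hσ,
      mul_one, abs_of_pos hp]
    exact hu)
  rw [e1] at f1
  rw [e2] at f2
  have g1 := congrFun f1 l'
  have g2 := congrFun f1 l
  have g3 := congrFun f2 l
  simp only [Pi.smul_apply, Pi.single_eq_same, smul_eq_mul, mul_one, Pi.single_eq_of_ne hne.symm,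
    mul_zero] at g1 g2 g3
  have t0 : t1 ≠ 0 := fun k => by rw [k, zero_mul] at g1; exact hp.ne' g1
  rw [(mul_eq_zero.1 g2.symm).resolve_left t0, mul_zero, neg_eq_zero] at g3
  have := (mul_eq_zero.1 g3).resolve_left hp.ne'
  rw [this] at hσ
  norm_num at hσ

open Classical in
/-- The data of the fat beads. -/
def gf2_t (K : Kx Ω) (d : TopD ι) (r : RigD) (Ψ : Chd → Rn 3 → Rn 3) : FatD where
  Cn := {v | (∃ i, RV K d i v) ∨ ∃ c ∈ d.Ch, v = midpoint ℝ c.a c.b}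
  ms v := {m | ((∃ i, RV K d i v) ∧ ∃ s, K.Fl v s ∧ m = r.b.m s) ∨
    ∃ c ∈ d.Ch, v = midpoint ℝ c.a c.b ∧ (m = c.a ∨ m = c.b)}
  Gt := {y | (∃ i v s, RV K d i v ∧ K.Fl v s ∧ ¬ closure s ⊆ (d.B i).Q d.s 8 ∧ y = r.b.m s) ∨
    ∃ c ∈ d.Ch, y = c.a ∨ y = c.b}
  Φ v := if h : ∃ c ∈ d.Ch, v = midpoint ℝ c.a c.b then Ψ h.choose else r.b.Φ v
  M y := r.b.M (K.cell y)
  k y := if h : ∃ c ∈ d.Ch, y = c.a ∨ y = c.b then h.choose.i else r.j (K.cell y)
  s y := if ∃ c ∈ d.Ch, y = c.a then -1 else if ∃ c ∈ d.Ch, y = c.b then 1 else r.σ (K.cell y)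

section
variable {r : RigD} {Ψ : Chd → Rn 3 → Rn 3}

theorem gf2_mk (hr : Rig K f d r) {i : ι} {v : Rn 3} (hv : RV K d i v) {s : Set (Rn 3)}
    (hs : K.Fl v s) : K.cell (r.b.m s) = s ∧ K.cell (r.b.m s) ≠ {r.b.m s} := by
  have k := hr.mk' i v hv s hs
  obtain ⟨b, e, rfl⟩ := gf2_ed hs
  exact gf2_nv e k

theorem gf2_end (h : TopIn K f d) {c : Chd} (hc : c ∈ d.Ch) {y : Rn 3} (hy : y = c.a ∨ y = c.b) :
    K.cell y = {y} ∧ y ∈ segment ℝ c.a c.b := by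
  rcases hy with rfl | rfl
  exacts [⟨(h.cedge c hc).1.left.2, left_mem_segment ℝ _ _⟩,
    ⟨(h.cedge c hc).1.right.2, right_mem_segment ℝ _ _⟩]

theorem gf2_nmid (h : TopIn K f d) {i : ι} {v : Rn 3} (hv : RV K d i v) :
    ¬ ∃ c ∈ d.Ch, v = midpoint ℝ c.a c.b := by
  rintro ⟨c, hc, rfl⟩
  exact (gf2_nv (h.cedge c hc).1 (gf2_mid _ _)).2 hv.2

theorem gf2_rv (h : TopIn K f d) {i : ι} {v : Rn 3} (hv : RV K d i v) :
    (gf2_t K d r Ψ).Φ v = r.b.Φ v ∧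
      (gf2_t K d r Ψ).ms v = {m | ∃ s, K.Fl v s ∧ m = r.b.m s} := by
  refine ⟨dif_neg (gf2_nmid h hv), Set.ext fun m => ⟨?_, fun k => .inl ⟨⟨i, hv⟩, k⟩⟩⟩
  rintro (k | ⟨c, hc, e, -⟩)
  exacts [k.2, (gf2_nmid h hv ⟨c, hc, e⟩).elim]

theorem gf2_ch (h : TopIn K f d) {c : Chd} (hc : c ∈ d.Ch) :
    (gf2_t K d r Ψ).Φ (midpoint ℝ c.a c.b) = Ψ c ∧
      (gf2_t K d r Ψ).ms (midpoint ℝ c.a c.b) = {c.a, c.b} := by
  have u : ∀ c' ∈ d.Ch, midpoint ℝ c.a c.b = midpoint ℝ c'.a c'.b → c' = c := fun c' hc' e =>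
    gf2_cu h hc' hc (e ▸ midpoint_mem_segment c'.a c'.b) (midpoint_mem_segment c.a c.b)
  have ex : ∃ c' ∈ d.Ch, midpoint ℝ c.a c.b = midpoint ℝ c'.a c'.b := ⟨c, hc, rfl⟩
  refine ⟨(dif_pos ex).trans (by rw [u _ ex.choose_spec.1 ex.choose_spec.2]),
    Set.ext fun m => ⟨?_, fun k => .inr ⟨c, hc, rfl, k⟩⟩⟩
  rintro (⟨⟨i, hv⟩, -⟩ | ⟨c', hc', e, k⟩)
  · exact (gf2_nmid h hv ex).elim
  · rw [u c' hc' e] at k; exact k

theorem gf2_Mk {y : Rn 3} : y ∈ (gf2_t K d r Ψ).Mk ↔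
    (∃ i v s, RV K d i v ∧ K.Fl v s ∧ y = r.b.m s) ∨ ∃ c ∈ d.Ch, y = c.a ∨ y = c.b := by
  simp only [FatD.Mk, mem_iUnion, exists_prop]
  constructor
  · rintro ⟨v, -, ⟨⟨i, hv⟩, s, hs, e⟩ | ⟨c, hc, -, e⟩⟩
    exacts [.inl ⟨i, v, s, hv, hs, e⟩, .inr ⟨c, hc, e⟩]
  · rintro (⟨i, v, s, hv, hs, e⟩ | ⟨c, hc, e⟩)
    exacts [⟨v, .inl ⟨i, hv⟩, .inl ⟨⟨i, hv⟩, s, hs, e⟩⟩,
      ⟨_, .inr ⟨c, hc, rfl⟩, .inr ⟨c, hc, rfl, e⟩⟩]

theorem gf2_St1 {i : ι} {v x : Rn 3} {s : Set (Rn 3)} (hv : RV K d i v) (hs : K.Fl v s)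
    (hx : x ∈ segment ℝ v (r.b.m s)) : x ∈ (gf2_t K d r Ψ).St :=
  mem_iUnion₂.2 ⟨v, .inl ⟨i, hv⟩, mem_iUnion₂.2 ⟨_, .inl ⟨⟨i, hv⟩, s, hs, rfl⟩, hx⟩⟩

theorem gf2_St (hr : Rig K f d r) {x : Rn 3} (hx : x ∈ (gf2_t K d r Ψ).St) :
    (∃ i v s, RV K d i v ∧ K.Fl v s ∧ x ∈ segment ℝ v (r.b.m s) ∧ (x = v ∨ x ∈ s)) ∨
      ∃ c ∈ d.Ch, x ∈ segment ℝ c.a c.b := by
  obtain ⟨v, -, hx⟩ := mem_iUnion₂.1 hx
  obtain ⟨y, ⟨⟨i, hv⟩, s, hs, rfl⟩ | ⟨c, hc, rfl, e⟩, hx⟩ := mem_iUnion₂.1 hx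
  · refine .inl ⟨i, v, s, hv, hs, hx, ?_⟩
    have k := hr.mk' i v hv s hs
    obtain ⟨b, e, rfl⟩ := gf2_ed hs
    exact gf2_leg k hx
  · refine .inr ⟨c, hc, (convex_segment c.a c.b).segment_subset (midpoint_mem_segment _ _) ?_ hx⟩
    rcases e with rfl | rfl
    exacts [left_mem_segment ℝ _ _, right_mem_segment ℝ _ _]

theorem gf2_Gt8 (h : TopIn K f d) (hr : Rig K f d r) {y : Rn 3} (hy : y ∈ (gf2_t K d r Ψ).Gt)
    (i : ι) : y ∉ (d.B i).Q d.s 8 := by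
  rcases hy with ⟨i', v, s, hv, hs, hc, rfl⟩ | ⟨c, hc, e⟩
  exacts [(hr.exit i' v hv s hs hc).1 i, gf2_cq h hc (gf2_end h hc e).2]

theorem gf2_Q8 (h : TopIn K f d) (hr : Rig K f d r) {x : Rn 3} (hx : x ∈ K.sk 1)
    (k : x ∈ (gf2_t K d r Ψ).St → x ∈ (gf2_t K d r Ψ).Gt) (i : ι) : x ∉ (d.B i).Q d.s 8 := by
  intro h8
  refine gf2_Gt8 h hr (k ?_) i h8
  rcases Kx.mem_sk_one.1 hx with ⟨-, hv⟩ | ⟨a, b, e, hx⟩
  · obtain ⟨l, hl⟩ := Finset.card_pos.1 (zero_lt_one.trans (h.card i))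
    have ha : d.Arm i x l 1 :=
      ⟨h8, (rv_lat h (Box.Q_mono h.s0 (by norm_num) h8)).1 hv, hl, .inl rfl⟩
    exact gf2_St1 ⟨h8, hv⟩ (arm_edge h ha).2.1 (left_mem_segment ℝ _ _)
  · have c8 := gf2_cl h h8
    rw [(gf2_nv e hx).1, e.cl] at c8
    have ra : RV K d i a := ⟨c8 (left_mem_segment ℝ _ _), e.left.2⟩
    have rb : RV K d i b := ⟨c8 (right_mem_segment ℝ _ _), e.right.2⟩
    rcases gf2_split (hr.mk' i a ra _ (gf2_fl e)) (openSegment_subset_segment ℝ _ _ hx) with k | k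
    exacts [gf2_St1 ra (gf2_fl e) k, gf2_St1 rb (gf2_fl' e) k]

/-- A mark of a rigid vertex which is a gate lies on an edge leaving the box. -/
theorem gf2_exit (h : TopIn K f d) (hr : Rig K f d r) {i : ι} {v : Rn 3} {s : Set (Rn 3)}
    (hv : RV K d i v) (hs : K.Fl v s) :
    r.b.m s ∈ (gf2_t K d r Ψ).Gt ↔ ¬ closure s ⊆ (d.B i).Q d.s 8 :=
  ⟨fun k c8 => gf2_Gt8 h hr k i (c8 (subset_closure (hr.mk' i v hv s hs))),
    fun k => .inl ⟨i, v, s, hv, hs, k, rfl⟩⟩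

/-- The far end of an edge leaving the box. -/
theorem gf2_one (h : TopIn K f d) {i i' : ι} {v w : Rn 3} {s : Set (Rn 3)}
    (hv : RV K d i v) (hs : K.Fl v s) (hc : ¬ closure s ⊆ (d.B i).Q d.s 8) (hw : RV K d i' w)
    (k : w ∈ closure s) : w = v := by
  obtain rfl := gf2_box h (gf2_24 h hv hs k) hw.1 (by norm_num) (by norm_num)
  obtain ⟨b, e, rfl⟩ := gf2_ed hs
  rw [e.cl] at k hc
  rcases gf2_v e k hw.2 with rfl | rfl
  exacts [rfl, (hc ((Box.Q_convex 8).segment_subset hv.1 hw.1)).elim]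

theorem gf2_edge (h : TopIn K f d) (hr : Rig K f d r) {v : Rn 3} (hv : v ∈ (gf2_t K d r Ψ).Cn)
    {y : Rn 3} (hy : y ∈ (gf2_t K d r Ψ).ms v) :
    v ≠ y ∧ segment ℝ v y ∩ (gf2_t K d r Ψ).Mk = {y} ∧
      ∃ a b, K.Edge a b ∧ segment ℝ v y ⊆ segment ℝ a b := by
  have hM : y ∈ (gf2_t K d r Ψ).Mk := mem_iUnion₂.2 ⟨v, hv, hy⟩
  rcases hy with ⟨⟨i, hv⟩, s, hs, rfl⟩ | ⟨c, hc, rfl, e⟩
  · have k := hr.mk' i v hv s hs
    have k1 := gf2_mk hr hv hs
    obtain ⟨b, e, rfl⟩ := gf2_ed hs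
    refine ⟨fun e' => k1.2 (e' ▸ hv.2), ?_, v, b, e, (convex_segment v b).segment_subset
      (left_mem_segment ℝ _ _) (openSegment_subset_segment ℝ _ _ k)⟩
    refine eq_singleton_iff_unique_mem.2 ⟨⟨right_mem_segment ℝ _ _, hM⟩, ?_⟩
    rintro z ⟨hz, hz'⟩
    rcases gf2_Mk.1 hz' with ⟨i', w, s', hw, hs', rfl⟩ | ⟨c, hc, e'⟩
    · rcases gf2_leg k hz with e' | e'
      · exact ((gf2_mk hr hw hs').2 (e'.symm ▸ hv.2)).elim
      · rw [← (gf2_mk hr hw hs').1.symm.trans (gf2_nv e e').1]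
    · rcases gf2_leg k hz with rfl | k'
      exacts [(gf2_cq h hc (gf2_end h hc e').2 hv.1).elim,
        ((gf2_nv e k').2 (gf2_end h hc e').1).elim]
  · have ed := (h.cedge c hc).1
    have sb := (convex_segment c.a c.b).segment_subset (midpoint_mem_segment _ _)
      (gf2_end h hc e).2
    have nv := (gf2_nv ed (gf2_mid _ _)).2
    refine ⟨fun e' => nv (e' ▸ (gf2_end h hc e).1), ?_, _, _, ed, sb⟩
    refine eq_singleton_iff_unique_mem.2 ⟨⟨right_mem_segment ℝ _ _, hM⟩, ?_⟩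
    rintro z ⟨hz, hz'⟩
    rcases gf2_Mk.1 hz' with ⟨i', w, s', hw, hs', rfl⟩ | ⟨c', hc', e'⟩
    · have k1 := gf2_mk hr hw hs'
      rcases Kx.KA2_seg (sb hz) with e' | e' | e'
      · exact (k1.2 (gf2_end h hc (.inl e')).1).elim
      · exact (k1.2 (gf2_end h hc (.inr e')).1).elim
      · have := hs'.2.2.2
        rw [k1.1.symm.trans (gf2_nv ed e').1, ed.cl] at this
        exact (gf2_cq h hc this hw.1).elim
    · obtain rfl := gf2_cu h hc hc' (sb hz) (gf2_end h hc' e').2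
      rw [segment_symm] at hz
      rcases e with rfl | rfl <;> rcases e' with rfl | rfl
      · rfl
      · exact (nv (gf2_two ed.1 (gf2_mid _ _) hz (left_mem_segment ℝ _ _) ▸ ed.right.2)).elim
      · exact (nv (gf2_two ed.1 (gf2_mid _ _) (left_mem_segment ℝ _ _) hz ▸ ed.left.2)).elim
      · rfl

theorem gf2_gate (h : TopIn K f d) {c : Chd} (hc : c ∈ d.Ch) :
    (gf2_t K d r Ψ).k c.a = c.i ∧ (gf2_t K d r Ψ).k c.b = c.i ∧ (gf2_t K d r Ψ).s c.a = -1 ∧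
      (gf2_t K d r Ψ).s c.b = 1 := by
  have k : ∀ y, y = c.a ∨ y = c.b → (gf2_t K d r Ψ).k y = c.i := fun y hy => by
    have ex : ∃ c ∈ d.Ch, y = c.a ∨ y = c.b := ⟨c, hc, hy⟩
    exact (dif_pos ex).trans (by
      rw [gf2_cu h ex.choose_spec.1 hc (gf2_end h ex.choose_spec.1 ex.choose_spec.2).2
        (gf2_end h hc hy).2])
  refine ⟨k _ (.inl rfl), k _ (.inr rfl), if_pos ⟨c, hc, rfl⟩, (if_neg ?_).trans
    (if_pos ⟨c, hc, rfl⟩)⟩
  rintro ⟨c', hc', e⟩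
  obtain rfl := gf2_cu h hc hc' (right_mem_segment ℝ _ _) (gf2_end h hc' (.inl e)).2
  exact (h.cedge c hc).1.1 e.symm

theorem gf2_gate' (h : TopIn K f d) (hr : Rig K f d r) {i : ι} {v : Rn 3} {s : Set (Rn 3)}
    (hv : RV K d i v) (hs : K.Fl v s) :
    (gf2_t K d r Ψ).k (r.b.m s) = r.j s ∧ (gf2_t K d r Ψ).s (r.b.m s) = r.σ s := by
  have k := gf2_mk hr hv hs
  have n : ∀ c ∈ d.Ch, ¬ (r.b.m s = c.a ∨ r.b.m s = c.b) := fun c hc e => k.2 (gf2_end h hc e).1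
  refine ⟨(dif_neg fun ⟨c, hc, e⟩ => n c hc e).trans (by rw [k.1]),
    (if_neg fun ⟨c, hc, e⟩ => n c hc (.inl e)).trans
      ((if_neg fun ⟨c, hc, e⟩ => n c hc (.inr e)).trans (by rw [k.1]))⟩

end

theorem fats_exists [Finite ι] (h : TopIn K f d) :
    ∃ Θ t, LH Θ ∧ Θ '' (f '' Ω) = f '' Ω ∧ FatS K f (Θ ∘ f) d t := by
  classical
  obtain ⟨r, hr⟩ := fat_rigid h
  choose! Ψ p1 p2 p3 p4 p5 using fun c (hc : c ∈ d.Ch) => fat_chord h hc
  have Q12 : ∀ i, (d.B i).Q d.s 8 ⊆ (d.B i).Q d.s 12 := fun i => Box.Q_mono h.s0 (by norm_num)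
  have fx : ∀ c ∈ d.Ch, ∀ z ∈ c.box f, r.Θ z = z := fun c hc z hz => by
    by_contra k
    obtain ⟨i, x, hx, k⟩ := hr.supp z k
    exact gf2_cf h hc (Q12 i hx) hz k
  have bd : ∀ v ∈ (gf2_t K d r Ψ).Cn,
      Bd0 K (r.Θ ∘ f) ((gf2_t K d r Ψ).Φ v) v ((gf2_t K d r Ψ).ms v) := by
    rintro v (⟨i, hv⟩ | ⟨c, hc, rfl⟩)
    · rw [(gf2_rv h hv).1, (gf2_rv h hv).2]; exact hr.bd i v hv
    · rw [(gf2_ch h hc).1, (gf2_ch h hc).2]
      exact (p1 c hc).congr hr.lh.inj fun z hz => fx c hc z (p2 c hc ▸ hz)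
  have Br : ∀ i v, RV K d i v → (gf2_t K d r Ψ).B v = r.b.B v ∧ (gf2_t K d r Ψ).S v = r.b.S v :=
    fun i v hv => by simp only [FatD.B, FatD.S, BdD.B, BdD.S, (gf2_rv h hv).1, and_self]
  have Bc : ∀ c ∈ d.Ch, (gf2_t K d r Ψ).B (midpoint ℝ c.a c.b) = c.box f :=
    fun c hc => by rw [FatD.B, (gf2_ch h hc).1, p2 c hc]
  have same : ∀ x ∈ K.sk 1, (x ∈ (gf2_t K d r Ψ).St → x ∈ (gf2_t K d r Ψ).Gt) →
      (r.Θ ∘ f) x = f x := fun x hx k => hr.fix x hx (gf2_Q8 h hr hx k)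
  refine ⟨r.Θ, gf2_t K d r Ψ, hr.lh, hr.img,
    { fin := (hr.fin.union (h.cfin.image fun c => midpoint ℝ c.a c.b)).subset ?_
      cen := fun v => Iff.rfl
      mfin := fun v => ?_
      edge := fun v hv y hy => gf2_edge h hr hv hy
      lh := fun v hv => (bd v hv).lh
      sub := fun v hv => (bd v hv).sub.trans (by rw [image_comp, hr.img])
      sin := fun v hv => (bd v hv).sin
      star := fun v hv => (bd v hv).star
      mark := fun v hv => (bd v hv).mark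
      ray := fun v hv => (bd v hv).ray
      flt := ?_
      gsub := ?_
      gate := ?_
      meet := ?_
      same := same
      str := fun v hv => (bd v hv).leg
      ctr := fun i v h1 h2 => (congrFun (gf2_rv h ⟨h1, h2⟩).1 0).trans (hr.ctr i v ⟨h1, h2⟩)
      rig := ?_
      ext := ?_
      cho := fun c hc => ⟨(gf2_ch h hc).2, .inr ⟨c, hc, .inl rfl⟩, .inr ⟨c, hc, .inr rfl⟩, by
        rw [(gf2_ch h hc).1, p3 c hc]; exact gf2_mid _ _⟩
      sq := ?_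
      thq := ?_
      pla := ?_
      gcl := ?_
      icl := ?_ }⟩
  · rintro v (hv | ⟨c, hc, rfl⟩)
    exacts [.inl hv, .inr ⟨c, hc, rfl⟩]
  · refine (((K.lf_cl h.opn (C := {v} ∩ Ω) ((finite_singleton v).inter_of_left Ω).isCompact
      inter_subset_right).image r.b.m).union ((h.cfin.image Chd.a).union
        (h.cfin.image Chd.b))).subset ?_
    rintro m (⟨-, s, hs, rfl⟩ | ⟨c, hc, -, rfl | rfl⟩)
    exacts [.inl ⟨s, ⟨hs.2.2.1.1, v, hs.2.2.2, rfl, hs.1⟩, rfl⟩, .inr (.inl ⟨c, hc, rfl⟩),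
      .inr (.inr ⟨c, hc, rfl⟩)]
  · rintro v - y (⟨⟨i, hv⟩, s, hs, rfl⟩ | ⟨c, hc, -, e⟩) hg z hz
    · have k := (hr.inner i v hv s hs (not_not.1 (mt (gf2_exit h hr hv hs).2 hg))).2 z hz
      rw [(Br i v hv).2]
      show _ + r.b.M (K.cell _) z ∈ _ ↔ _
      rw [(gf2_mk hr hv hs).1]
      exact k
    · exact (hg (.inr ⟨c, hc, e⟩)).elim
  · rintro y (⟨i, v, s, hv, hs, -, e⟩ | k)
    exacts [gf2_Mk.2 (.inl ⟨i, v, s, hv, hs, e⟩), gf2_Mk.2 (.inr k)]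
  · rintro v - y (⟨⟨i, hv⟩, s, hs, rfl⟩ | ⟨c, hc, rfl, e⟩) hg
    · have hc := (gf2_exit h hr hv hs).1 hg
      obtain ⟨k1, k2, -⟩ := hr.exit i v hv s hs hc
      have e : (r.Θ ∘ f) (r.b.m s) = f (r.b.m s) := hr.fix _ (Kx.cl_sub_sk hs.2.2.1.1
        hs.2.2.1.2.le (subset_closure (hr.mk' i v hv s hs))) k1
      rw [(gf2_gate' h hr hv hs).1, (gf2_gate' h hr hv hs).2, e, (Br i v hv).1, (Br i v hv).2]
      refine ⟨k2.1, ?_, k2.2.mono fun z hz => hz.symm⟩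
      rintro w - (⟨⟨i', hw⟩, s', hs', e'⟩ | ⟨c, hc', -, e'⟩)
      · have : s = s' := by rw [← (gf2_mk hr hv hs).1, e', (gf2_mk hr hw hs').1]
        exact gf2_one h hv hs hc hw (this ▸ hs'.2.2.2)
      · exact ((gf2_mk hr hv hs).2 (gf2_end h hc' e').1).elim
    · have e1 : (r.Θ ∘ f) y = f y := fx c hc _ (h.cin c hc y (gf2_end h hc e).2)
      obtain ⟨g1, g2, g3, g4⟩ := gf2_gate (r := r) (Ψ := Ψ) h hc
      have k : Gate (Ψ c) (f y) ((gf2_t K d r Ψ).k y) ((gf2_t K d r Ψ).s y) := by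
        rcases e with rfl | rfl
        · rw [g1, g3]; exact p4 c hc
        · rw [g2, g4]; exact p5 c hc
      rw [e1, FatD.B, FatD.S, (gf2_ch h hc).1]
      refine ⟨k.1, ?_, k.2.mono fun z hz => hz.symm⟩
      rintro w - (⟨⟨i', hw⟩, s', hs', rfl⟩ | ⟨c', hc', rfl, e'⟩)
      · exact ((gf2_mk hr hw hs').2 (gf2_end h hc e).1).elim
      · rw [gf2_cu h hc hc' (gf2_end h hc e).2 (gf2_end h hc' e').2]
  · rintro v (⟨i, hv⟩ | ⟨c, hc, rfl⟩) w (⟨i', hw⟩ | ⟨c', hc', rfl⟩) hne x ⟨h1, h2⟩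
    · rw [(Br i v hv).1] at h1
      rw [(Br i' w hw).1] at h2
      obtain ⟨s, k1, k2, -, k⟩ := hr.meet i v hv i' w hw hne x ⟨h1, h2⟩
      refine ⟨r.b.m s, .inl ⟨⟨i, hv⟩, s, k1, rfl⟩, .inl ⟨⟨i', hw⟩, s, k2, rfl⟩, ?_⟩
      show x ∈ (fun z => _ + r.b.M (K.cell _) z) '' _
      rw [(gf2_mk hr hv k1).1]
      exact k
    · rw [(Br i v hv).1] at h1
      obtain ⟨z, hz, k⟩ := hr.loc i v hv x h1
      exact (gf2_cf h hc' hz (Bc c' hc' ▸ h2) k).elim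
    · rw [(Br i' w hw).1] at h2
      obtain ⟨z, hz, k⟩ := hr.loc i' w hw x h2
      exact (gf2_cf h hc hz (Bc c hc ▸ h1) k).elim
    · rw [Bc c hc] at h1
      rw [Bc c' hc'] at h2
      exact (disjoint_left.1 (h.cdisj hc hc' fun e => hne (by rw [e])) h1 h2).elim
  · intro i a b e hs
    have ra : RV K d i a := ⟨hs (left_mem_segment ℝ _ _), e.left.2⟩
    have rb : RV K d i b := ⟨hs (right_mem_segment ℝ _ _), e.right.2⟩
    have c8 : closure (openSegment ℝ a b) ⊆ (d.B i).Q d.s 8 := e.cl.symm ▸ hs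
    exact ⟨_, hr.mk' i a ra _ (gf2_fl e), fun k => (gf2_exit h hr ra (gf2_fl e)).1 k c8,
      .inl ⟨⟨i, ra⟩, _, gf2_fl e, rfl⟩, .inl ⟨⟨i, rb⟩, _, gf2_fl' e, rfl⟩,
      (hr.inner i a ra _ (gf2_fl e) c8).1⟩
  · rintro i a b e ⟨ha, hb⟩
    have ra : RV K d i a := ⟨ha, e.left.2⟩
    have fl := gf2_fl e
    have hc : ¬ closure (openSegment ℝ a b) ⊆ (d.B i).Q d.s 8 := fun k =>
      hb (k (e.cl.symm ▸ right_mem_segment ℝ _ _))
    have hm := hr.mk' i a ra _ fl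
    obtain ⟨k1, -, -, -, k5⟩ := hr.exit i a ra _ fl hc
    obtain ⟨l, σ, hA, e'⟩ := rv_fl h ra fl
    have eb : b = d.pt a l σ 16 :=
      (e.uniq e').elim (fun k => k.2) fun k => (e.1 k.2.symm).elim
    refine ⟨_, hm, (gf2_exit h hr ra fl).2 hc, .inl ⟨⟨i, ra⟩, _, fl, rfl⟩, ?_,
      e.cl ▸ gf2_24 h ra fl, ?_, ?_⟩
    · refine eq_singleton_iff_unique_mem.2 ⟨⟨left_mem_segment ℝ _ _,
        gf2_St1 ra fl (right_mem_segment ℝ _ _)⟩, ?_⟩
      rintro z ⟨hz, hz'⟩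
      rw [segment_symm] at hz
      have zb := gf2_leg ((openSegment_symm ℝ a b).subset hm) hz
      rw [openSegment_symm] at zb
      rcases gf2_St hr hz' with ⟨i', v, s, hv, hs, k, k'⟩ | ⟨c, hc', k⟩
      · have nb : b ≠ v := fun k => e.1
          ((gf2_one h ra fl hc hv (k ▸ e.cl.symm ▸ right_mem_segment ℝ _ _)).symm.trans k.symm)
        obtain ⟨b', ee, rfl⟩ := gf2_ed hs
        rcases k' with rfl | k' <;> rcases zb with rfl | zb
        · exact (nb rfl).elim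
        · exact ((gf2_nv e zb).2 hv.2).elim
        · exact ((gf2_nv ee k').2 e.right.2).elim
        · have es := (gf2_nv ee k').1.symm.trans (gf2_nv e zb).1
          obtain rfl := gf2_one h ra fl hc hv (es ▸ hs.2.2.2)
          rw [es] at k
          exact gf2_two e.1 hm k hz
      · have ed := (h.cedge c hc').1
        rcases zb with rfl | zb
        · exact (gf2_far h hc' hA (eb ▸ gf2_v ed k e.right.2)).elim
        · rcases Kx.KA2_seg k with k | k | k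
          · exact ((gf2_nv e zb).2 (gf2_end h hc' (.inl k)).1).elim
          · exact ((gf2_nv e zb).2 (gf2_end h hc' (.inr k)).1).elim
          · have := fl.2.2.2
            rw [(gf2_nv e zb).1.symm.trans (gf2_nv ed k).1, ed.cl] at this
            exact (gf2_cq h hc' this ha).elim
    · have hσ : |σ| = 1 := by rcases hA.2.2.2 with rfl | rfl <;> simp
      have hs := h.s0
      rw [eb, TopD.pt, add_sub_cancel_left, norm_smul, Pi.norm_single, norm_one, mul_one,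
        Real.norm_eq_abs, abs_mul, hσ, mul_one, abs_of_pos (by positivity)]
      linarith only [hs]
    · rintro _ ⟨k, x, hx, rfl⟩
      rw [show (r.Θ ∘ f) _ = f _ from
        hr.fix _ (e.seg_sub (openSegment_subset_segment ℝ _ _ hm)) k1] at k
      rw [k5 x hx k]; rfl
  · rintro i v (⟨i', hv⟩ | ⟨c, hc, rfl⟩) h8 <;> refine disjoint_left.2 ?_ <;>
      rintro _ hz ⟨x, hx, rfl⟩
    · rw [(Br i' v hv).1] at hz
      obtain ⟨z, hz, k⟩ := hr.loc i' v hv _ hz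
      have := h.sep i' i (fun e => h8 (e ▸ hv.1)) z hz x (Q12 i hx)
      linarith [(h.ε0 i').1]
    · exact gf2_cf h hc (Q12 i hx) (Bc c hc ▸ hz) (by simpa using (h.ε0 i).1.le)
  · rintro i x hx k ⟨z, hz, e⟩
    have := hr.far i z hz x hx (gf2_Q8 h hr hx k i) fun v s hv hs hy => by
      have g := k (gf2_St1 hv hs hy)
      have m : x ∈ (gf2_t K d r Ψ).Mk := gf2_Mk.2 (g.imp_left fun ⟨i, v, s, a, b, _, c⟩ =>
        ⟨i, v, s, a, b, c⟩)
      exact (gf2_edge h hr (.inl ⟨i, hv⟩) (.inl ⟨⟨i, hv⟩, s, hs, rfl⟩)).2.1.subset ⟨hy, m⟩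
    rw [e, sub_self, norm_zero] at this
    linarith only [this, h, (h.ε0 i).1]
  · intro a b e nc n8 x hx hx'
    have nv : ∀ i v, RV K d i v → v ∉ segment ℝ a b := fun i v hv k => by
      rcases gf2_v e k hv.2 with rfl | rfl
      exacts [(n8 i).1 hv.1, (n8 i).2 hv.1]
    rcases gf2_St hr hx' with ⟨i, v, s, hv, hs, -, rfl | k⟩ | ⟨c, hc, k⟩
    · exact (nv i _ hv hx).elim
    · obtain ⟨b', ee, rfl⟩ := gf2_ed hs
      rcases Kx.KA2_seg hx with rfl | rfl | k'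
      · exact ((gf2_nv ee k).2 e.left.2).elim
      · exact ((gf2_nv ee k).2 e.right.2).elim
      · have := hs.2.2.2
        rw [(gf2_nv ee k).1.symm.trans (gf2_nv e k').1, e.cl] at this
        exact (nv i v hv this).elim
    · have := (e.inter (h.cedge c hc).1 fun k => nc ⟨c, hc, k⟩).subset ⟨hx, k⟩
      exact ⟨.inr ⟨c, hc, this.2⟩, this.1⟩
  · rintro y (⟨i, v, s, hv, hs, hc, rfl⟩ | k)
    · have k := hr.mk' i v hv s hs
      obtain ⟨b, e, rfl⟩ := gf2_ed hs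
      exact .inl ⟨i, v, b, e, ⟨hv.1, fun hb =>
        hc (e.cl.symm ▸ (Box.Q_convex 8).segment_subset hv.1 hb)⟩, k⟩
    · exact .inr k
  · intro y hy hg
    rcases gf2_Mk.1 hy with ⟨i, v, s, hv, hs, rfl⟩ | k
    · have k := hr.mk' i v hv s hs
      have c8 := not_not.1 (mt (gf2_exit (Ψ := Ψ) h hr hv hs).2 hg)
      obtain ⟨b, e, rfl⟩ := gf2_ed hs
      rw [e.cl] at c8
      exact ⟨i, v, b, e, c8, k, .inl ⟨⟨i, hv⟩, _, hs, rfl⟩,
        .inl ⟨⟨i, c8 (right_mem_segment ℝ _ _), e.right.2⟩, _, gf2_fl' e, rfl⟩⟩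
    · exact (hg (.inr k)).elim

end BEp
end
end

-- merged part: Pool.Agent.Work.MP_f0515e_an.D3.GTh
section
/-! The thin part of the one skeleton.

Plan. `thin_graph`: for `σ ∈ thinE` write `σ = openSegment p q` (`dm_one`). If neither end is in a
`Q 8` take `a = a0 = p`, `b = q`. Otherwise (after a swap) `p ∈ Q i 8`, and `q ∉ Q i 8` by convexity, so
`Ext i p q`; `a` = the gate of `FatS.ext`. `thin`: `pla` and `ext`. `gate`: `gcl`; for an exit gate the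
edge is its cell; for a chord end `y`, `cval` gives `K.Smo y` (`smo_end`), `smo_two` two edges, one is the
chord, the other is not a chord (`gf2_cu`) and not inside a `Q 8` (`gf2_cq`); if it is an exit edge then
`y` is its far end (`gf2_cq`).
`thin_in`: `Grf` from `finite_edge`, `Edge.inter`; variation by `same`, `eVariationOn.congr` and a monotone
affine change of parameter; `hit` by `star`, `thq`; `side` by `gate`: near `g y` there is no image of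
another gate, no other bead (`star`, `edge`, uniqueness in `gate`) and no point of `aff '' Q 8`.
`eta_exists`: `g '' segment` is compact in the open set `g '' Ω` (`IsCompact.exists_cthickening_subset_open`).
`lf_ball`: `cthickening c C ⊆ V`; `C'` = `cthickening c C` together with the points `y` of
`cthickening 1 C` with `ball y (2 c) ⊆ V` (a closed condition). -/

open Set Metric Filter Topology Function BEv
open scoped NNReal ENNReal

noncomputable section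
namespace BEp

variable {Ω : Set (Rn 3)} {ι : Type}

/-- Edges which are neither rigid nor chords. -/
def thinE (K : Kx Ω) (d : TopD ι) : Set (Set (Rn 3)) :=
  {σ | σ ∈ K.cel 1 ∧ (∀ i, ¬ closure σ ⊆ (d.B i).Q d.s 8) ∧
    ∀ c ∈ d.Ch, σ ≠ openSegment ℝ c.a c.b}

/-- The set avoided by the boxes. -/
def fatF (d : TopD ι) (t : FatD) : Set (Rn 3) :=
  (⋃ v ∈ t.Cn, t.B v) ∪ ⋃ i, (d.B i).aff '' (d.B i).Q d.s 8

/-- The thin part `[a σ, b σ]` of the edge `σ = (a0 σ, b σ)`. -/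
structure ThG (K : Kx Ω) (d : TopD ι) (t : FatD) (a b a0 : Set (Rn 3) → Rn 3) : Prop where
  edge : ∀ σ ∈ thinE K d, K.Edge (a0 σ) (b σ) ∧ σ = openSegment ℝ (a0 σ) (b σ)
  typ : ∀ σ ∈ thinE K d,
    (a σ = a0 σ ∧ ∀ i, a0 σ ∉ (d.B i).Q d.s 8 ∧ b σ ∉ (d.B i).Q d.s 8) ∨
    ∃ i, d.Ext i (a0 σ) (b σ) ∧ a σ ∈ σ ∧ a σ ∈ t.Gt ∧ a σ ∈ t.ms (a0 σ)
  thin : ∀ σ ∈ thinE K d, ∀ x ∈ segment ℝ (a σ) (b σ), x ∈ t.St → x ∈ t.Gt ∧ (x = a σ ∨ x = b σ)
  gate : ∀ y ∈ t.Gt, ∃ σ ∈ thinE K d, (y = a σ ∨ y = b σ) ∧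
    ∀ τ ∈ thinE K d, y ∈ segment ℝ (a τ) (b τ) → τ = σ

variable {K : Kx Ω} {f g : Rn 3 → Rn 3} {d : TopD ι} {t : FatD} {a b a0 : Set (Rn 3) → Rn 3}

theorem smo_end (h : TopIn K f d) {c : Chd} (hc : c ∈ d.Ch) : K.Smo c.a ∧ K.Smo c.b := by
  obtain ⟨e, he, h1, h2⟩ := h.cval c hc
  have hne : c.b - c.a ≠ 0 := sub_ne_zero.2 (h.cedge c hc).1.1.symm
  refine ⟨⟨c.b - c.a, e, hne, he, fun t ht => h1 t ⟨ht.1, by linarith [ht.2]⟩,
    fun x hx hn => h2 x hx (.inl hn)⟩, c.b - c.a, e, hne, he, fun t ht => ?_, fun x hx hn => ?_⟩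
  · have e1 : c.b + t • (c.b - c.a) = seg c.a c.b (1 + t) := by rw [seg]; module
    rw [e1]
    exact h1 _ ⟨by linarith [ht.1], by linarith [ht.2]⟩
  · obtain ⟨t, rfl⟩ := h2 x hx (.inr hn)
    exact ⟨t - 1, by rw [seg]; module⟩

theorem GTh_eq {p q p' q' y : Rn 3} (he : K.Edge p q) (he' : K.Edge p' q')
    (hy : y ∈ openSegment ℝ p q) (k : y ∈ segment ℝ p' q') :
    openSegment ℝ p' q' = openSegment ℝ p q := by
  obtain ⟨h1, h2⟩ := gf2_nv he hy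
  rcases Kx.KA2_seg k with rfl | rfl | k
  exacts [absurd he'.left.2 h2, absurd he'.right.2 h2, (gf2_nv he' k).1.symm.trans h1]

/-- Ends of the thin part of one edge. -/
def GTh_P (K : Kx Ω) (d : TopD ι) (t : FatD) (σ : Set (Rn 3)) (a b a0 : Rn 3) : Prop :=
  K.Edge a0 b ∧ σ = openSegment ℝ a0 b ∧
    ((a = a0 ∧ ∀ i, a0 ∉ (d.B i).Q d.s 8 ∧ b ∉ (d.B i).Q d.s 8) ∨
      ∃ i, d.Ext i a0 b ∧ a ∈ σ ∧ a ∈ t.Gt ∧ a ∈ t.ms a0 ∧ segment ℝ a b ∩ t.St = {a})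

theorem GTh_ex (_h : TopIn K f d) (ht : FatS K f g d t) {σ : Set (Rn 3)} (hσ : σ ∈ thinE K d) :
    ∃ a b a0, GTh_P K d t σ a b a0 := by
  have key : ∀ p q i, K.Edge p q → σ = openSegment ℝ p q → p ∈ (d.B i).Q d.s 8 →
      ∃ a b a0, GTh_P K d t σ a b a0 := fun p q i he e hp => by
    have hx : d.Ext i p q := ⟨hp, fun hq => hσ.2.1 i (by
      rw [e, he.cl]
      exact (Box.Q_convex 8).segment_subset hp hq)⟩
    obtain ⟨y, k1, k2, k3, k4, -⟩ := ht.ext i p q he hx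
    exact ⟨y, q, p, he, e, .inr ⟨i, hx, e ▸ k1, k2, k3, k4⟩⟩
  obtain ⟨p, q, he, e⟩ := Kx.dm_one hσ.1.1 hσ.1.2
  by_cases k : ∀ i, p ∉ (d.B i).Q d.s 8 ∧ q ∉ (d.B i).Q d.s 8
  · exact ⟨p, q, p, he, e, .inl ⟨rfl, k⟩⟩
  · obtain ⟨i, k⟩ := not_forall.1 k
    by_cases hp : p ∈ (d.B i).Q d.s 8
    · exact key p q i he e hp
    · exact key q p i he.symm (e.trans (openSegment_symm ℝ _ _)) (by_contra fun hq => k ⟨hp, hq⟩)

theorem thin_graph (h : TopIn K f d) (ht : FatS K f g d t) : ∃ a b a0, ThG K d t a b a0 := by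
  have ex : ∀ σ, ∃ a b a0, σ ∈ thinE K d → GTh_P K d t σ a b a0 := fun σ => by
    by_cases hσ : σ ∈ thinE K d
    · obtain ⟨a, b, a0, k⟩ := GTh_ex h ht hσ
      exact ⟨a, b, a0, fun _ => k⟩
    · exact ⟨0, 0, 0, fun k => absurd k hσ⟩
  choose a b a0 P using ex
  have sub : ∀ σ ∈ thinE K d, segment ℝ (a σ) (b σ) ⊆ segment ℝ (a0 σ) (b σ) := fun σ hσ => by
    obtain ⟨-, e, ⟨k, -⟩ | ⟨i, -, k, -⟩⟩ := P σ hσ
    · rw [k]
    · exact (convex_segment _ _).segment_subset (openSegment_subset_segment ℝ _ _ (e ▸ k))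
        (right_mem_segment ℝ _ _)
  refine ⟨a, b, a0, fun σ hσ => ⟨(P σ hσ).1, (P σ hσ).2.1⟩, fun σ hσ => ?_,
    fun σ hσ x hx hs => ?_, fun y hy => ?_⟩
  · obtain ⟨-, -, k | ⟨i, k1, k2, k3, k4, -⟩⟩ := P σ hσ
    exacts [.inl k, .inr ⟨i, k1, k2, k3, k4⟩]
  · obtain ⟨he, e, ⟨k, k'⟩ | ⟨i, -, -, k3, -, k5⟩⟩ := P σ hσ
    · rw [k] at hx ⊢
      exact ht.pla _ _ he (fun ⟨c, hc, e'⟩ => hσ.2.2 c hc (e.trans e')) k' x hx hs
    · obtain rfl : x = a σ := k5.subset ⟨hx, hs⟩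
      exact ⟨k3, .inl rfl⟩
  rcases ht.gcl y hy with ⟨i, p, q, he, hx, hy'⟩ | ⟨c, hc, hy'⟩
  · have hσ : openSegment ℝ p q ∈ thinE K d := by
      refine ⟨GAlt_cel he, fun j k => ?_, fun c hc e => ?_⟩
      · rw [he.cl] at k
        obtain rfl := gf2_box h hx.1 (k (left_mem_segment ℝ _ _)) (by norm_num) (by norm_num)
        exact hx.2 (k (right_mem_segment ℝ _ _))
      · refine gf2_cq h hc ?_ hx.1
        rw [← (h.cedge c hc).1.cl, ← e, he.cl]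
        exact left_mem_segment ℝ _ _
    refine ⟨_, hσ, .inl ?_, fun τ hτ k => ?_⟩
    · obtain ⟨he', e, ⟨-, k'⟩ | ⟨j, k1, k2, -, k4, k5⟩⟩ := P _ hσ
      · rcases he.uniq e with k | k
        exacts [absurd (k.1 ▸ hx.1) (k' i).1, absurd (k.1 ▸ hx.1) (k' i).2]
      · rcases gf2_split (e.subset k2) (openSegment_subset_segment ℝ _ _ (e.subset hy')) with k | k
        · exact (ht.edge _ ((ht.cen _).2 (.inl ⟨j, k1.1, he'.left.2⟩)) _ k4).2.1.subset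
            ⟨k, ht.gsub hy⟩
        · obtain ⟨v, hv, hm⟩ := mem_iUnion₂.1 (ht.gsub hy)
          exact k5.subset ⟨(segment_symm ℝ _ _).subset k,
            mem_iUnion₂.2 ⟨v, hv, mem_iUnion₂.2 ⟨y, hm, right_mem_segment ℝ _ _⟩⟩⟩
    · obtain ⟨he', e, -⟩ := P τ hτ
      rw [e]
      exact GTh_eq he he' hy' (sub τ hτ k)
  · obtain ⟨hv, hs⟩ := gf2_end h hc hy'
    have hΩ := K.sk_sub 1 ((h.cedge c hc).1.seg_sub hs)
    have sm : K.Smo y := by
      rcases hy' with rfl | rfl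
      exacts [(smo_end h hc).1, (smo_end h hc).2]
    obtain ⟨p0, e0, e0'⟩ := GAlt1_end hv (h.cedge c hc).1 hs
    obtain ⟨q, eq, hne, hq⟩ : ∃ q, K.Edge y q ∧ q ≠ p0 ∧ ∀ r, K.Edge y r → r = p0 ∨ r = q := by
      obtain ⟨p, q, ep, eq, hm, hr⟩ := smo_two h.opn hΩ hv sm
      have hpq : p ≠ q := by
        rintro rfl
        rw [openSegment_same] at hm
        exact ep.1 hm
      rcases hr p0 e0 with rfl | rfl
      exacts [⟨q, eq, hpq.symm, hr⟩, ⟨p, ep, hpq, fun r k => (hr r k).symm⟩]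
    have hσ : openSegment ℝ y q ∈ thinE K d := by
      refine ⟨GAlt_cel eq, fun j k => ?_, fun c' hc' e => ?_⟩
      · rw [eq.cl] at k
        exact gf2_cq h hc hs (k (left_mem_segment ℝ _ _))
      · obtain rfl : c = c' := gf2_cu h hc hc' hs (by
          rw [← (h.cedge c' hc').1.cl, ← e, eq.cl]
          exact left_mem_segment ℝ _ _)
        rcases eq.uniq (e.trans e0') with k | k
        exacts [hne k.2, e0.1 k.1]
    refine ⟨_, hσ, ?_, fun τ hτ k => ?_⟩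
    · obtain ⟨-, e, k⟩ := P _ hσ
      rcases eq.uniq e with k' | k'
      · rcases k with ⟨k, -⟩ | ⟨j, k1, -⟩
        exacts [.inl (k'.1.trans k.symm), absurd k1.1 (gf2_cq h hc (k'.1.subst hs))]
      · exact .inr k'.1
    · obtain ⟨he', e, -⟩ := P τ hτ
      obtain ⟨r, er, e'⟩ := GAlt1_end hv he' (sub τ hτ k)
      rcases hq r er with rfl | rfl
      exacts [absurd (e.trans (e'.trans e0'.symm)) (hτ.2.2 c hc), e.trans e']

theorem GTh_Q (B : Box 1) (s ρ : ℝ) : IsCompact (B.Q s ρ) := by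
  have e : B.Q s ρ = Set.pi univ fun l => if l ∈ B.I then closedBall (B.c l) (s * (B.r + ρ))
      else {B.c l} := by
    ext y
    simp only [Box.Q, Box.slice, mem_ofPred_eq, Set.mem_univ_pi]
    refine ⟨fun k l => ?_, fun k => ⟨fun l hl => ?_, fun l hl => ?_⟩⟩
    · split_ifs with hl
      exacts [k.2 l hl, k.1 l hl]
    · have := k l
      rwa [if_neg hl] at this
    · have := k l
      rwa [if_pos hl] at this
  rw [e]
  refine isCompact_univ_pi fun l => ?_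
  split_ifs
  exacts [isCompact_closedBall _ _, isCompact_singleton]

theorem thin_in [Finite ι] (h : TopIn K f d) (ht : FatS K f g d t) (hc : ContinuousOn g Ω)
    (hi : InjOn g Ω) (hg : ThG K d t a b a0) {η : Set (Rn 3) → ℝ} (hη : ∀ σ, 0 < η σ) :
    ThinIn Ω g (fun σ : thinE K d => a σ) (fun σ : thinE K d => b σ)
      (fun σ : thinE K d => d.Vr σ) (fun σ : thinE K d => η σ) t.Gt (fatF d t) t.k t.s := by
  have par : ∀ σ ∈ thinE K d, ∃ u ∈ Ico (0 : ℝ) 1, a σ = seg (a0 σ) (b σ) u := fun σ hσ => by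
    rcases hg.typ σ hσ with ⟨k, -⟩ | ⟨i, -, k, -⟩
    · exact ⟨0, ⟨le_rfl, zero_lt_one⟩, by rw [k, GAlt_0]⟩
    · obtain ⟨u, hu, e⟩ := (seg_image_open _ _).symm.subset ((hg.edge σ hσ).2.subset k)
      exact ⟨u, ⟨hu.1.le, hu.2⟩, e.symm⟩
  have sub : ∀ σ ∈ thinE K d, segment ℝ (a σ) (b σ) ⊆ segment ℝ (a0 σ) (b σ) := fun σ hσ => by
    obtain ⟨u, hu, e⟩ := par σ hσ
    refine (convex_segment _ _).segment_subset ?_ (right_mem_segment ℝ _ _)
    rw [e, ← seg_image]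
    exact mem_image_of_mem _ ⟨hu.1, hu.2.le⟩
  have sk : ∀ σ ∈ thinE K d, segment ℝ (a σ) (b σ) ⊆ K.sk 1 := fun σ hσ =>
    (sub σ hσ).trans (hg.edge σ hσ).1.seg_sub
  have st : ∀ v ∈ t.Cn, ∀ y ∈ t.ms v, segment ℝ v y ⊆ t.St := fun v hv y hy x hx =>
    mem_iUnion₂.2 ⟨v, hv, mem_iUnion₂.2 ⟨y, hy, hx⟩⟩
  have cB : ∀ v ∈ t.Cn, IsCompact (t.B v) := fun v hv =>
    (isCompact_closedBall _ _).image (ht.lh v hv).tp.continuous
  have cQ : ∀ i, IsCompact ((d.B i).aff '' (d.B i).Q d.s 8) := fun i =>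
    (GTh_Q _ _ _).image (by unfold Box.aff; fun_prop)
  refine ⟨h.opn, hc, hi, ⟨fun σ e => ?_, fun σ => (sk σ σ.2).trans (K.sk_sub 1), fun C hC hs => ?_,
    fun σ τ hne x h1 h2 => ?_⟩, fun σ => h.V0 _, fun σ => ?_, fun σ => hη _,
    (ht.fin.isCompact_biUnion cB).union (isCompact_iUnion cQ), fun y hy => ?_,
    fun σ x hx hF => ?_, fun y hy => ?_⟩
  · obtain ⟨u, hu, e'⟩ := par σ σ.2
    have := GAlt_inj (hg.edge σ σ.2).1.1 ((e'.symm.trans e).trans (GAlt_1 _ _).symm)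
    exact hu.2.ne this
  · refine ((Kx.lf_cl (K := K) h.opn hC hs).preimage Subtype.val_injective.injOn).subset ?_
    rintro σ ⟨x, h1, h2⟩
    exact ⟨σ.2.1.1, x, ((congrArg closure (hg.edge σ σ.2).2).trans
      (hg.edge σ σ.2).1.cl).symm.subset (sub σ σ.2 h1), h2⟩
  · have no : x ∉ openSegment ℝ (a0 σ) (b σ) := fun k => hne (Subtype.ext (by
      rw [(hg.edge σ σ.2).2, (hg.edge τ τ.2).2]
      exact (GTh_eq (hg.edge σ σ.2).1 (hg.edge τ τ.2).1 k (sub τ τ.2 h2)).symm))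
    rcases hg.typ σ σ.2 with ⟨k, -⟩ | ⟨i, -, k, -⟩
    · rcases Kx.KA2_seg (sub σ σ.2 h1) with e | e | e
      exacts [.inl (e.trans k.symm), .inr e, absurd e no]
    · have k' := (openSegment_symm ℝ _ _).subset ((hg.edge σ σ.2).2.subset k)
      rcases gf2_leg k' ((segment_symm ℝ _ _).subset h1) with e | e
      exacts [.inr e, absurd ((openSegment_symm ℝ _ _).subset e) no]
  · obtain ⟨u, hu, e⟩ := par σ σ.2
    have e1 : EqOn (fun s => g (seg (a σ) (b σ) s))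
        ((fun s => f (seg (a0 σ) (b σ) s)) ∘ fun s => u + s * (1 - u)) (Icc 0 1) := fun s hs => by
      have hx : seg (a σ) (b σ) s ∈ segment ℝ (a σ) (b σ) := by
        rw [← seg_image]
        exact mem_image_of_mem _ hs
      have e2 : seg (a σ) (b σ) s = seg (a0 σ) (b σ) (u + s * (1 - u)) := by
        rw [e, seg, seg, seg]
        module
      simp only [comp_apply]
      rw [ht.same _ (sk σ σ.2 hx) fun k => (hg.thin σ σ.2 _ hx k).1, e2]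
    rw [eVariationOn.congr e1]
    refine (eVariationOn.comp_le_of_monotoneOn (s := Icc 0 1) _ _ (fun s _ s' _ k => ?_)
      fun s hs => ⟨?_, ?_⟩).trans ?_
    · have := mul_le_mul_of_nonneg_right k (sub_pos.2 hu.2).le
      linarith
    · have := mul_nonneg hs.1 (sub_pos.2 hu.2).le
      linarith [hu.1]
    · have := mul_le_mul_of_nonneg_right hs.2 (sub_pos.2 hu.2).le
      linarith
    · have := h.var _ _ (hg.edge σ σ.2).1
      rwa [← (hg.edge σ σ.2).2] at this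
  · obtain ⟨σ, hσ, k1, k2⟩ := hg.gate y hy
    exact ⟨⟨σ, hσ⟩, k1, fun τ k => Subtype.ext (k2 τ τ.2 k)⟩
  · by_contra hn
    have k : x ∈ t.St → x ∈ t.Gt := fun k => (hg.thin σ σ.2 x hx k).1
    rcases hF with hF | hF
    · obtain ⟨v, hv, hF⟩ := mem_iUnion₂.1 hF
      obtain ⟨y, hy, k'⟩ := ht.star v hv x (sk σ σ.2 hx) hF
      exact hn (k (st v hv y hy k'))
    · obtain ⟨i, hF⟩ := mem_iUnion.1 hF
      rw [ht.same x (sk σ σ.2 hx) k] at hF
      exact ht.thq i x (sk σ σ.2 hx) k hF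
  · obtain ⟨v, hv, hm⟩ := mem_iUnion₂.1 (ht.gsub hy)
    obtain ⟨g1, g2, g3⟩ := ht.gate v hv y hm hy
    have ys : y ∈ K.sk 1 := by
      obtain ⟨-, -, p, q, he, k⟩ := ht.edge v hv y hm
      exact he.seg_sub (k (right_mem_segment ℝ _ _))
    have n1 : ∀ y' ∈ t.ms v, ∀ᶠ z in 𝓝 (g y), y' ∈ Ω → z = g y' → y' = y := fun y' _ => by
      by_cases e : g y = g y'
      · exact Eventually.of_forall fun _ k _ => hi k ys.1 e.symm
      · filter_upwards [isOpen_ne.mem_nhds e] with z hz _ k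
        exact absurd k hz
    have n2 : ∀ w ∈ t.Cn, ∀ᶠ z in 𝓝 (g y), z ∈ t.B w → z ∈ t.B v := fun w hw => by
      by_cases e : g y ∈ t.B w
      · obtain ⟨y', hy', k⟩ := ht.star w hw y ys e
        obtain rfl : y = y' := (ht.edge w hw y' hy').2.1.subset ⟨k, ht.gsub hy⟩
        rw [g2 w hw hy']
        exact Eventually.of_forall fun _ k => k
      · filter_upwards [(cB w hw).isClosed.isOpen_compl.mem_nhds e] with z hz k
        exact absurd k hz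
    have n3 : ∀ i, ∀ᶠ z in 𝓝 (g y), z ∉ (d.B i).aff '' (d.B i).Q d.s 8 := fun i =>
      (cQ i).isClosed.isOpen_compl.mem_nhds (by
        rw [ht.same y ys fun _ => hy]
        exact ht.thq i y ys fun _ => hy)
    obtain ⟨r, hr, k⟩ := Metric.eventually_nhds_iff.1 (g3.and
      (((eventually_all_finite (ht.mfin v)).2 n1).and
        (((eventually_all_finite ht.fin).2 n2).and (eventually_all.2 n3))))
    refine ⟨g1, r, hr, fun σ x hx hne hn => ?_, fun z hz hn => ?_⟩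
    · obtain ⟨k1, k2, -⟩ := k (y := g x) (by rwa [dist_eq_norm])
      by_contra hle
      obtain ⟨y', hy', k'⟩ := ht.star v hv x (sk σ σ.2 hx) (k1.2.2 (not_lt.1 hle))
      obtain rfl : x = y' := (ht.edge v hv y' hy').2.1.subset
        ⟨k', ht.gsub (hg.thin σ σ.2 x hx (st v hv y' hy' k')).1⟩
      exact hne (k2 x hy' (sk σ σ.2 hx).1 rfl)
    · obtain ⟨k1, -, k2, k3⟩ := k (y := z) (by rwa [dist_eq_norm])
      rcases hz with hz | hz
      · obtain ⟨w, hw, hz⟩ := mem_iUnion₂.1 hz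
        exact k1.2.1 (k2 w hw hz)
      · obtain ⟨i, hz⟩ := mem_iUnion.1 hz
        exact absurd hz (k3 i)

theorem eta_exists (h : TopIn K f d) (hc : ContinuousOn g Ω) (hi : InjOn g Ω) :
    ∃ η : Set (Rn 3) → ℝ, (∀ σ, 0 < η σ ∧ η σ ≤ 1) ∧ ∀ σ ∈ K.cel 1, ∀ x ∈ closure σ,
      4 * η σ ≤ d.θ (K.cell x) ∧ closedBall (g x) (2 * η σ) ⊆ g '' Ω := by
  have ex : ∀ σ, ∃ η : ℝ, (0 < η ∧ η ≤ 1) ∧ (σ ∈ K.cel 1 → ∀ x ∈ closure σ,
      4 * η ≤ d.θ (K.cell x) ∧ closedBall (g x) (2 * η) ⊆ g '' Ω) := fun σ => by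
    by_cases hσ : σ ∈ K.cel 1
    swap
    · exact ⟨1, ⟨zero_lt_one, le_rfl⟩, fun k => absurd k hσ⟩
    have hs := Kx.cl_sub hσ.1
    have hC : IsCompact (closure σ) := by
      obtain ⟨p, q, he, rfl⟩ := Kx.dm_one hσ.1 hσ.2
      rw [he.cl, ← seg_image]
      exact isCompact_Icc.image (tp_seg p q).continuous
    obtain ⟨δ, hδ, k⟩ := (hC.image_of_continuousOn (hc.mono hs)).exists_cthickening_subset_open
      (GEmb_open hc hi h.opn Subset.rfl) (image_mono hs)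
    have n0 : ∀ c : ℝ, 0 < c → ∀ᶠ η : ℝ in 𝓝[>] 0, η ≤ c := fun c hc =>
      nhdsWithin_le_nhds (Iic_mem_nhds hc)
    obtain ⟨η, k1, k2, k3, k4⟩ := ((eventually_mem_nhdsWithin (s := Ioi (0 : ℝ))).and
      ((n0 1 zero_lt_one).and ((n0 (δ / 2) (by linarith only [hδ])).and
        ((eventually_all_finite (K.lf _ hC hs)).2 fun τ _ =>
          n0 (d.θ τ / 4) (by linarith [h.θ0 τ]))))).exists
    refine ⟨η, ⟨k1, k2⟩, fun _ x hx => ⟨by linarith [k4 _ (mem_image_of_mem _ hx)], ?_⟩⟩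
    exact ((closedBall_subset_closedBall (by linarith)).trans
      (closedBall_subset_cthickening (mem_image_of_mem g hx) δ)).trans k
  choose η h1 h2 using ex
  exact ⟨η, h1, h2⟩

theorem lf_ball {V C : Set (Rn 3)} (hV : IsOpen V) (hC : IsCompact C) (hs : C ⊆ V) :
    ∃ C', IsCompact C' ∧ C' ⊆ V ∧ ∀ (y : Rn 3) (η : ℝ), η ≤ 1 → closedBall y (2 * η) ⊆ V →
      (closedBall y η ∩ C).Nonempty → y ∈ C' := by
  obtain ⟨c, hc, k⟩ := hC.exists_cthickening_subset_open hV hs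
  have cl : IsClosed (⋂ z ∈ Vᶜ, {y : Rn 3 | 2 * c ≤ dist z y}) :=
    isClosed_biInter fun z _ => isClosed_le continuous_const (by fun_prop)
  refine ⟨cthickening c C ∪ (cthickening 1 C ∩ ⋂ z ∈ Vᶜ, {y : Rn 3 | 2 * c ≤ dist z y}),
    hC.cthickening.union (hC.cthickening.inter_right cl), union_subset k fun y hy => ?_,
    fun y η h1 h2 ⟨x, hx, hx'⟩ => ?_⟩
  · by_contra e
    have : 2 * c ≤ dist y y := mem_iInter₂.1 hy.2 y e
    rw [dist_self] at this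
    linarith
  · rw [mem_closedBall'] at hx
    rcases le_total η c with e | e
    · exact .inl (mem_cthickening_of_dist_le y x c C hx' (hx.trans e))
    · refine .inr ⟨mem_cthickening_of_dist_le y x 1 C hx' (hx.trans h1),
        mem_iInter₂.2 fun z hz => ?_⟩
      by_contra e'
      exact hz (h2 (mem_closedBall.2 ((not_le.1 e').le.trans (by linarith))))

end BEp
end
end

-- merged part: Pool.Agent.Work.MP_f0515e_an.D3.GK3
section
-- merged part: Pool.Agent.Work.MP_f0515e_an.D3.GS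
section
/-! The data of the construction up to the complex with one mark on each edge.

Plan. `gs_exists`: `fats_exists`, `thin_graph`, `eta_exists`, `thin_in`, `thin_exists`, `alt_exists`.
For the last: `t.Mk` is finite; a mark of `Mt` is a gate or lies in an open thin segment, hence in an open
edge of `K`; so on a closed edge there are finitely many marks (`Mkd.fin` when the edge is thin; the ends
add two points), and at least one (`Wt.ex`, `rig`, `cho`); a mark which is a vertex is a chord end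
(`icl`, `gcl`), `smo_end`.
`Alt.flag`: `s = K2.cell y` is an edge `openSegment p q` of `K2` through `y`. If no point of the segment from
`v` to `y` other than `v` is a vertex of `K2`, then `segment v y \ {v}` is connected, covered by disjoint
relatively open edges, so inside `s`, and `v ∈ closure s`. Otherwise take the vertex `v'` nearest to
`v` (finitely many); the open segment `(v, v')` lies in an edge `s'` of `K2` with both `v, v'` in its
closure, so it equals `s'` and contains the mark `m s' ≠ y`. (Or use `Alt.chain`.) -/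

open Set Metric Filter Topology Function BEv
open scoped NNReal ENNReal

noncomputable section
namespace BEp

variable {Ω : Set (Rn 3)} {ι : Type}

structure GlD (Ω : Set (Rn 3)) where
  g : Rn 3 → Rn 3
  t : FatD
  a : Set (Rn 3) → Rn 3
  b : Set (Rn 3) → Rn 3
  a0 : Set (Rn 3) → Rn 3
  η : Set (Rn 3) → ℝ
  Mt : Set (Rn 3)
  kk : Rn 3 → Fin 3
  lo : Rn 3 → Rn 3
  hi : Rn 3 → Rn 3
  w : Rn 3 → ℝ
  K2 : Kx Ω
  m : Set (Rn 3) → Rn 3

namespace GlD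
variable (D : GlD Ω)

def Th : Set (Rn 3) := {v | D.K2.Vx v ∧ v ∉ D.t.Cn}
def In : Set (Set (Rn 3)) := {s | D.m s ∈ D.t.Mk ∧ D.m s ∉ D.t.Gt}
def b0 : BdD := ⟨D.m, fun s => D.t.M (D.m s), D.t.Φ⟩

end GlD

structure GS (K : Kx Ω) (f : Rn 3 → Rn 3) (d : TopD ι) (D : GlD Ω) : Prop where
  top : TopIn K f d
  fat : FatS K f D.g d D.t
  gc : ContinuousOn D.g Ω
  gi : InjOn D.g Ω
  gim : D.g '' Ω = f '' Ω
  thg : ThG K d D.t D.a D.b D.a0
  eta : (∀ σ, 0 < D.η σ ∧ D.η σ ≤ 1) ∧ ∀ σ ∈ K.cel 1, ∀ x ∈ closure σ,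
    4 * D.η σ ≤ d.θ (K.cell x) ∧ closedBall (D.g x) (2 * D.η σ) ⊆ D.g '' Ω
  mkd : Mkd D.g (fun σ : thinE K d => D.a σ) (fun σ : thinE K d => D.b σ)
    (fun σ : thinE K d => D.η σ) D.t.Gt (fatF d D.t) D.t.k D.Mt D.kk D.lo D.hi
  wt : Wt (fun σ : thinE K d => D.a σ) (fun σ : thinE K d => D.b σ)
    (fun σ : thinE K d => d.Vr σ) (fun σ : thinE K d => D.η σ) D.Mt D.lo D.hi D.w
  alt : Alt K D.K2 (D.Mt ∪ D.t.Mk) D.m

variable {K : Kx Ω} {f : Rn 3 → Rn 3} {d : TopD ι}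

theorem GS_sub {t : FatD} {a b a0 : Set (Rn 3) → Rn 3} (hg : ThG K d t a b a0) {σ : Set (Rn 3)}
    (hσ : σ ∈ thinE K d) : openSegment ℝ (a σ) (b σ) ⊆ σ := by
  obtain ⟨e, k⟩ := hg.edge σ hσ
  intro y hy
  rcases hg.typ σ hσ with ⟨k1, -⟩ | ⟨i, -, k1, -⟩
  · rw [k1] at hy
    exact k ▸ hy
  · have k2 : a σ ∈ openSegment ℝ (b σ) (a0 σ) := by
      rw [openSegment_symm]
      exact k ▸ k1
    have k3 : y ∈ segment ℝ (b σ) (a σ) := by
      rw [segment_symm]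
      exact openSegment_subset_segment ℝ _ _ hy
    rcases gf2_leg k2 k3 with k4 | k4
    · rw [k4, right_mem_openSegment_iff] at hy
      rw [hy, left_mem_openSegment_iff] at k2
      exact (e.1 k2.symm).elim
    · rw [openSegment_symm] at k4
      exact k ▸ k4

theorem gs_exists [Finite ι] (h : TopIn K f d) : ∃ D, GS K f d D := by
  obtain ⟨Θ, t, hΘ, him, ht⟩ := fats_exists h
  have gc : ContinuousOn (Θ ∘ f) Ω := hΘ.tp.continuous.comp_continuousOn h.cont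
  have gi : InjOn (Θ ∘ f) Ω := hΘ.inj.comp_injOn h.inj
  obtain ⟨a, b, a0, hg⟩ := thin_graph h ht
  obtain ⟨η, hη, hη'⟩ := eta_exists h gc gi
  obtain ⟨Mt, kk, lo, hi, w, hm, hw⟩ := thin_exists (thin_in h ht gc gi hg fun σ => (hη σ).1)
  have loc : ∀ y ∈ Mt ∪ t.Mk, y ∈ t.Mk ∨
      ∃ σ ∈ thinE K d, y ∈ σ ∧ y ∈ Mt ∩ segment ℝ (a σ) (b σ) := by
    rintro y (hy | hy)
    · rcases hm.loc y hy with k | ⟨σ, k⟩
      · exact .inl (ht.gsub k)
      · exact .inr ⟨σ, σ.2, GS_sub hg σ.2 k, hy, openSegment_subset_segment ℝ _ _ k⟩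
    · exact .inl hy
  have fin : t.Mk.Finite := ht.fin.biUnion fun v _ => ht.mfin v
  refine (alt_exists (Mk := Mt ∪ t.Mk) K h.opn ?_ ?_ ?_).elim fun K2 ⟨m, ha⟩ => ?_
  rotate_right
  · exact ⟨⟨Θ ∘ f, t, a, b, a0, η, Mt, kk, lo, hi, w, K2, m⟩, h, ht, gc, gi,
      (image_comp Θ f Ω).trans him, hg, ⟨hη, hη'⟩, hm, hw, ha⟩
  · intro y hy
    rcases loc y hy with k | ⟨σ, hσ, k, -⟩
    · obtain ⟨v, hv, k⟩ := mem_iUnion₂.1 k
      obtain ⟨-, -, p, q, e, k1⟩ := ht.edge v hv y k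
      exact e.seg_sub (k1 (right_mem_segment ℝ _ _))
    · exact Kx.cl_sub_sk hσ.1.1 hσ.1.2.le (subset_closure k)
  · intro p q e
    constructor
    · have f1 : (⋃ _ : openSegment ℝ p q ∈ thinE K d,
          Mt ∩ segment ℝ (a (openSegment ℝ p q)) (b (openSegment ℝ p q))).Finite :=
        finite_iUnion fun k => hm.fin ⟨_, k⟩
      refine ((fin.union (toFinite {p, q})).union f1).subset ?_
      rintro y ⟨hy, hy'⟩
      rcases loc y hy with k | ⟨σ, hσ, k, k'⟩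
      · exact .inl (.inl k)
      · rcases Kx.KA2_seg hy' with k1 | k1 | k1
        · exact .inl (.inr (.inl k1))
        · exact .inl (.inr (.inr k1))
        · obtain rfl : σ = openSegment ℝ p q :=
            (Kx.cell_eq hσ.1.1 k).symm.trans (Kx.cell_eq e.2 k1)
          exact .inr (mem_iUnion.2 ⟨hσ, k'⟩)
    · by_cases k : openSegment ℝ p q ∈ thinE K d
      · obtain ⟨y, hy, hy'⟩ := hw.ex ⟨_, k⟩
        exact ⟨y, .inl hy, openSegment_subset_segment ℝ _ _ (GS_sub hg k hy')⟩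
      · by_cases k1 : ∃ i, segment ℝ p q ⊆ (d.B i).Q d.s 8
        · obtain ⟨i, k1⟩ := k1
          obtain ⟨y, hy, -, k2, -⟩ := ht.rig i p q e k1
          exact ⟨y, .inr (mem_iUnion₂.2 ⟨p, (ht.cen p).2
            (.inl ⟨i, k1 (left_mem_segment ℝ _ _), e.left.2⟩), k2⟩),
            openSegment_subset_segment ℝ _ _ hy⟩
        · have k2 : ∃ c ∈ d.Ch, openSegment ℝ p q = openSegment ℝ c.a c.b := by
            by_contra k2
            exact k ⟨GAlt_cel e, fun i k3 => k1 ⟨i, e.cl ▸ k3⟩, fun c hc k3 => k2 ⟨c, hc, k3⟩⟩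
          obtain ⟨c, hc, k2⟩ := k2
          refine ⟨c.a, .inr (ht.gsub (ht.cho c hc).2.1), ?_⟩
          rw [← e.cl, k2, (h.cedge c hc).1.cl]
          exact left_mem_segment ℝ _ _
  · intro y hy hv
    rcases loc y hy with k | ⟨σ, hσ, k, -⟩
    · by_cases k1 : y ∈ t.Gt
      · rcases ht.gcl y k1 with ⟨i, p, q, e, -, k2⟩ | ⟨c, hc, rfl | rfl⟩
        · exact ((gf2_nv e k2).2 hv).elim
        · exact (smo_end h hc).1
        · exact (smo_end h hc).2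
      · obtain ⟨i, p, q, e, -, k2, -⟩ := ht.icl y k k1
        exact ((gf2_nv e k2).2 hv).elim
    · exact (GAlt_nv hσ.1 ((Kx.cell_eq hσ.1.1 k).symm.trans hv)).elim

/-- The first edge along a segment of the skeleton. -/
theorem GS_first {x z : Rn 3} (hxz : x ≠ z) (hs : segment ℝ x z ⊆ K.sk 1) :
    ∃ a b u, K.Edge a b ∧ u ∈ openSegment ℝ a b ∧ u ∈ openSegment ℝ x z ∧ x ∈ segment ℝ a b := by
  have hΩ : segment ℝ x z ⊆ Ω := hs.trans (K.sk_sub 1)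
  have hf := K.lf _ (poly_segment x z).1 hΩ
  have h1 : openSegment ℝ x z ⊆ ⋃ τ ∈ K.cell '' segment ℝ x z, τ ∩ openSegment ℝ x z := by
    intro u hu
    have hu' := openSegment_subset_segment ℝ _ _ hu
    exact mem_iUnion₂.2 ⟨_, mem_image_of_mem _ hu', K.mem u (hΩ hu'), hu⟩
  have h2 : x ∈ closure (openSegment ℝ x z) :=
    segment_subset_closure_openSegment (left_mem_segment ℝ x z)
  have h3 := closure_mono h1 h2
  rw [hf.closure_biUnion] at h3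
  obtain ⟨_, ⟨u', hu', rfl⟩, h4⟩ := mem_iUnion₂.1 h3
  obtain ⟨u, hu, hu1⟩ := closure_nonempty_iff.1 ⟨x, h4⟩
  have e : K.cell u = K.cell u' := K.eqv u' (hΩ hu') u hu
  have h5 : x ∈ closure (K.cell u) := e ▸ closure_mono inter_subset_left h4
  rcases Kx.mem_sk_one.1 (hs (openSegment_subset_segment ℝ _ _ hu1)) with ⟨-, k⟩ | ⟨a, b, k, k'⟩
  · rw [k, closure_singleton, mem_singleton_iff] at h5
    rw [← h5, left_mem_openSegment_iff] at hu1
    exact (hxz hu1).elim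
  · rw [Kx.cell_eq k.2 k', k.cl] at h5
    exact ⟨a, b, u, k, k', hu1, h5⟩

theorem GS_ray {v b y u : Rn 3} (h : u ∈ openSegment ℝ v b) (h' : u ∈ openSegment ℝ v y) :
    b ∈ segment ℝ v y ∨ y ∈ segment ℝ v b := by
  rw [openSegment_eq_image'] at h h'
  obtain ⟨s, hs, e⟩ := h
  obtain ⟨t, ht, e'⟩ := h'
  have k : s • (b - v) = t • (y - v) := add_left_cancel (e.trans e'.symm)
  rw [segment_eq_image', segment_eq_image']
  rcases le_total s t with l | l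
  · refine .inr ⟨s / t, ⟨div_nonneg hs.1.le ht.1.le, (div_le_one ht.1).2 l⟩, ?_⟩
    simp only
    rw [div_eq_inv_mul, mul_smul, k, inv_smul_smul₀ ht.1.ne', add_sub_cancel]
  · refine .inl ⟨t / s, ⟨div_nonneg ht.1.le hs.1.le, (div_le_one hs.1).2 l⟩, ?_⟩
    simp only
    rw [div_eq_inv_mul, mul_smul, ← k, inv_smul_smul₀ hs.1.ne', add_sub_cancel]

theorem Alt.flag {K2 : Kx Ω} {Mk : Set (Rn 3)} {m : Set (Rn 3) → Rn 3} (h : Alt K K2 Mk m)
    {v y : Rn 3} (hv : K2.Vx v) (hs : segment ℝ v y ⊆ K.sk 1) (hm : segment ℝ v y ∩ Mk = {y}) :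
    K2.Fl v (K2.cell y) ∧ m (K2.cell y) = y := by
  have hy : y ∈ segment ℝ v y ∩ Mk := hm.symm ▸ mem_singleton y
  have hc := h.mke y hy.2
  have hΩ : y ∈ Ω := K.sk_sub 1 (hs hy.1)
  have hne : v ≠ y := fun e => GAlt_nv hc (e ▸ hv.2)
  refine ⟨⟨hv.1, hv.2, hc, ?_⟩, ((h.one _ hc).subset ⟨K2.mem y hΩ, hy.2⟩).symm⟩
  obtain ⟨a, b, u, e, k1, k2, k3⟩ := GS_first hne (h.sk.symm ▸ hs)
  obtain ⟨c, e', k4⟩ := gf2_ed (K := K2) ⟨hv.1, hv.2, GAlt_cel e, e.cl.symm ▸ k3⟩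
  rw [k4] at k1
  have key : y ∈ openSegment ℝ v c := by
    rcases GS_ray k1 k2 with l | l
    · have l1 := GAlt_m h (GAlt_cel e')
      have l2 : m (openSegment ℝ v c) = y := hm.subset ⟨(convex_segment v y).segment_subset
        (left_mem_segment ℝ _ _) l (openSegment_subset_segment ℝ _ _ l1.1), l1.2⟩
      exact l2 ▸ l1.1
    · rcases Kx.KA2_seg l with l1 | l1 | l1
      · exact (hne l1.symm).elim
      · exact (GAlt_nv hc (l1 ▸ e'.right.2)).elim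
      · exact l1
  rw [Kx.cell_eq e'.2 key, e'.cl]
  exact left_mem_segment ℝ _ _

end BEp
end
end

-- merged part: Pool.Agent.Work.MP_f0515e_an.D3.GK2
section
/-! Thin and fat vertices of the complex with one mark on each edge.

Plan. `mt_st`: a mark of `Mt` is a gate or lies in an open thin segment, which misses `St` (`ThG.thin`; the
ends of a segment are not in the open segment).
`fat_vx`: a rigid vertex is not a mark (`FatS.edge`, `icl`, `gcl`, `gf2_cq`; marks of `Mt` which are not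
gates lie in open edges), so `Alt.vert`; for a chord `Alt.mid` (no mark in the open chord: it lies in
`St`, use `mt_st`, `edge`, `cho`). `fat_fl`: `Alt.flag` with `edge` and `mt_st`.
`fat_fl'`: `g v ∈ B v`, not in `S v` (`mark`, `edge`), so it is interior (`Ball` lemmas or openness of
`Φ v`); points of `segment v (m s)` near `v` are mapped into `B v`, lie on some `segment v y` (`star`),
hence in `K2.cell y` (a point of a leg other than the vertex lies in the edge), so `s = K2.cell y`.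
If `ms v` could be empty use that `star` applies to `v` only after `sin`: `ms v` is nonempty by `rig`, `ext`,
`cho` and `exists_up`.
`thin_leg`: the leg lies on a closed edge `[p, q]` of `K` (`Alt.leg`). A point of `St` lies on a fat leg,
so it is a centre or in an edge of `K2`: the thin vertex `v` is not in `St`. Rigid edges and chords are
inside `St`; so the edge is thin, `v ∈ segment (a σ) (b σ)`, and if `m s` were on the other side of
the gate `a σ` then the gate would be a second mark on the leg (`leg_inter`). -/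

open Set Metric Filter Topology Function BEv
open scoped NNReal ENNReal

noncomputable section
namespace BEp

variable {Ω : Set (Rn 3)} {ι : Type} {K : Kx Ω} {f : Rn 3 → Rn 3} {d : TopD ι} {D : GlD Ω}

theorem GS.mt_st (h : GS K f d D) {y : Rn 3} (hy : y ∈ D.Mt) (hs : y ∈ D.t.St) : y ∈ D.t.Gt := by
  rcases h.mkd.loc y hy with k | ⟨σ, k⟩
  exacts [k, (h.thg.thin σ σ.2 y (openSegment_subset_segment ℝ _ _ k) hs).1]

theorem GK2_st {t : FatD} {v y : Rn 3} (hv : v ∈ t.Cn) (hy : y ∈ t.ms v) : segment ℝ v y ⊆ t.St :=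
  fun _ hx => mem_iUnion₂.2 ⟨v, hv, mem_iUnion₂.2 ⟨y, hy, hx⟩⟩

theorem GK2_leg (h : GS K f d D) {v y : Rn 3} (hv : v ∈ D.t.Cn) (hy : y ∈ D.t.ms v) :
    segment ℝ v y ∩ (D.Mt ∪ D.t.Mk) = {y} := by
  rw [← (h.fat.edge v hv y hy).2.1]
  exact Subset.antisymm (fun x k => ⟨k.1, k.2.elim
    (fun l => h.fat.gsub (h.mt_st l (GK2_st hv hy k.1))) id⟩) fun x k => ⟨k.1, .inr k.2⟩

theorem GK2_cho (h : GS K f d D) {c : Chd} (hc : c ∈ d.Ch) {x : Rn 3} (hx : x ∈ segment ℝ c.a c.b) :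
    midpoint ℝ c.a c.b ∈ D.t.Cn ∧
      ∃ y ∈ D.t.ms (midpoint ℝ c.a c.b), x ∈ segment ℝ (midpoint ℝ c.a c.b) y := by
  refine ⟨(h.fat.cen _).2 (.inr ⟨c, hc, rfl⟩), ?_⟩
  rw [(h.fat.cho c hc).1]
  rcases GAlt_split (midpoint_mem_segment c.a c.b) hx with k | k
  exacts [⟨_, .inl rfl, k⟩, ⟨_, .inr rfl, k⟩]

theorem GK2_tot {v c x y : Rn 3} (hx : x ∈ segment ℝ v c) (hy : y ∈ segment ℝ v c) :
    x ∈ segment ℝ v y ∨ y ∈ segment ℝ v x := by
  obtain ⟨s, hs, rfl⟩ := GAlt_par hx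
  obtain ⟨t, ht, rfl⟩ := GAlt_par hy
  have k := GAlt_cs v c 0
  rw [GAlt_0] at k
  rw [k, k]
  exact (le_total s t).imp (fun l => ⟨s, Icc_subset_uIcc ⟨hs.1, l⟩, rfl⟩)
    fun l => ⟨t, Icc_subset_uIcc ⟨ht.1, l⟩, rfl⟩

theorem GS.fat_vx (h : GS K f d D) {v : Rn 3} (hv : v ∈ D.t.Cn) : D.K2.Vx v := by
  rcases (h.fat.cen v).1 hv with ⟨i, hq, k⟩ | ⟨c, hc, rfl⟩
  · have hΩ := h.top.QS i (Box.Q_mono h.top.s0 (by norm_num) hq)
    have k1 : v ∉ D.t.Mk := fun l => by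
      by_cases k1 : v ∈ D.t.Gt
      · rcases h.fat.gcl v k1 with ⟨_, _, _, e, -, k2⟩ | ⟨c, hc, k2⟩
        exacts [(gf2_nv e k2).2 k, gf2_cq h.top hc (gf2_end h.top hc k2).2 hq]
      · obtain ⟨_, _, _, e, -, k2, -⟩ := h.fat.icl v l k1
        exact (gf2_nv e k2).2 k
    refine ⟨hΩ, h.alt.vert v hΩ k fun l => l.elim (fun l => ?_) k1⟩
    rcases h.mkd.loc v l with l | ⟨σ, l⟩
    · exact k1 (h.fat.gsub l)
    · exact GAlt_nv σ.2.1 ((Kx.cell_eq σ.2.1.1 (GS_sub h.thg σ.2 l)).symm.trans k)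
  · have e := (h.top.cedge c hc).1
    obtain ⟨k1, k2, k3, -⟩ := h.fat.cho c hc
    refine ⟨Kx.cells_sub e.2 (gf2_mid _ _), h.alt.mid _ _ e (.inr (h.fat.gsub k2))
      (.inr (h.fat.gsub k3)) (disjoint_left.2 fun x hx l => e.1 ?_)⟩
    obtain ⟨-, y, hy, k⟩ := GK2_cho h hc (openSegment_subset_segment ℝ _ _ hx)
    obtain rfl : x = y := (GK2_leg h hv hy).subset ⟨k, l⟩
    rcases k1.subset hy with rfl | rfl
    exacts [left_mem_openSegment_iff.1 hx, right_mem_openSegment_iff.1 hx]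

theorem GS.fat_fl (h : GS K f d D) {v y : Rn 3} (hv : v ∈ D.t.Cn) (hy : y ∈ D.t.ms v) :
    D.K2.Fl v (D.K2.cell y) ∧ D.m (D.K2.cell y) = y := by
  obtain ⟨-, -, p, q, e, k⟩ := h.fat.edge v hv y hy
  exact h.alt.flag (h.fat_vx hv) (k.trans e.seg_sub) (GK2_leg h hv hy)

theorem GS.fat_fl' (h : GS K f d D) {v : Rn 3} {s : Set (Rn 3)} (hv : v ∈ D.t.Cn)
    (hs : D.K2.Fl v s) : D.m s ∈ D.t.ms v := by
  obtain ⟨p, q, e, k⟩ := h.alt.leg v s hs
  have k1 := k (left_mem_segment ℝ _ _)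
  have k2 := k (right_mem_segment ℝ _ _)
  obtain ⟨y, hy, l⟩ : ∃ y ∈ D.t.ms v, D.m s ∈ segment ℝ v y ∨ y ∈ segment ℝ v (D.m s) := by
    rcases (h.fat.cen v).1 hv with ⟨i, hq, k⟩ | ⟨c, hc, rfl⟩
    · obtain ⟨c, e', k3⟩ := GAlt1_end k e k1
      rw [← e.cl, k3, e'.cl] at k2
      by_cases hc : c ∈ (d.B i).Q d.s 8
      · obtain ⟨y, k4, -, k5, -⟩ := h.fat.rig i v c e' ((Box.Q_convex 8).segment_subset hq hc)
        exact ⟨y, k5, GK2_tot k2 (openSegment_subset_segment ℝ _ _ k4)⟩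
      · obtain ⟨y, k4, -, k5, -⟩ := h.fat.ext i v c e' ⟨hq, hc⟩
        exact ⟨y, k5, GK2_tot k2 (openSegment_subset_segment ℝ _ _ k4)⟩
    · rw [GAlt_same (h.top.cedge c hc).1 e (gf2_mid _ _) k1] at k2
      obtain ⟨-, y, hy, l⟩ := GK2_cho h hc k2
      exact ⟨y, hy, .inl l⟩
  rcases l with l | l
  · exact (show D.m s = y from (GK2_leg h hv hy).subset ⟨l, (GAlt_m h.alt hs.2.2.1).2⟩) ▸ hy
  · exact (show y = D.m s from
      (h.alt.leg_inter hs).1.subset ⟨l, .inr (mem_iUnion₂.2 ⟨v, hv, hy⟩)⟩) ▸ hy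

theorem GS.thin_leg (h : GS K f d D) {v : Rn 3} {s : Set (Rn 3)} (hv : v ∈ D.Th)
    (hs : D.K2.Fl v s) : ∃ σ ∈ thinE K d, segment ℝ v (D.m s) ⊆ segment ℝ (D.a σ) (D.b σ) ∧
      segment ℝ v (D.m s) ∩ D.Mt = {D.m s} ∧ v ≠ D.m s := by
  obtain ⟨p, q, e, k⟩ := h.alt.leg v s hs
  have k1 := k (left_mem_segment ℝ _ _)
  have hm := (GAlt_m h.alt hs.2.2.1).2
  obtain ⟨l1, l2, -⟩ := h.alt.leg_inter hs
  have nv : ∀ w ∈ D.t.Cn, ∀ y ∈ D.t.ms w, v ∉ segment ℝ w y := fun w hw y hy l => by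
    obtain ⟨l1, l2⟩ := h.fat_fl hw hy
    exact GAlt_nv l1.2.2.1 ((Kx.cell_eq l1.2.2.1.1 ((GAlt_leg h.alt l1).2 v (l2.symm ▸ l)
      fun n => hv.2 (n ▸ hw))).symm.trans hv.1.2)
  have hσ : openSegment ℝ p q ∈ thinE K d := by
    refine ⟨GAlt_cel e, fun i l => ?_, fun c hc l => ?_⟩
    · rw [e.cl] at l
      obtain ⟨y, k2, -, k3, k4, -⟩ := h.fat.rig i p q e l
      exact (gf2_split k2 k1).elim
        (nv p ((h.fat.cen p).2 (.inl ⟨i, l (left_mem_segment ℝ _ _), e.left.2⟩)) y k3)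
        (nv q ((h.fat.cen q).2 (.inl ⟨i, l (right_mem_segment ℝ _ _), e.right.2⟩)) y k4)
    · rw [← e.cl, l, (h.top.cedge c hc).1.cl] at k1
      obtain ⟨k2, y, k3, k4⟩ := GK2_cho h hc k1
      exact nv _ k2 y k3 k4
  rw [← e.cl] at k
  generalize openSegment ℝ p q = σ at hσ k
  obtain ⟨e', k2⟩ := h.thg.edge σ hσ
  replace k := k.trans_eq ((congrArg closure k2).trans e'.cl)
  have key : segment ℝ v (D.m s) ⊆ segment ℝ (D.a σ) (D.b σ) := by
    rcases h.thg.typ σ hσ with ⟨k3, -⟩ | ⟨i, k3, k4, -, k5⟩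
    · rwa [k3]
    have hc := (h.fat.cen _).2 (.inl ⟨i, k3.1, e'.left.2⟩)
    rw [segment_symm ℝ (D.a σ)]
    refine (convex_segment _ _).segment_subset ((gf2_split (k2.subset k4)
      (k (left_mem_segment ℝ _ _))).resolve_left (nv _ hc _ k5)) ?_
    rcases gf2_split (k2.subset k4) (k (right_mem_segment ℝ _ _)) with l | l
    · rw [show D.m s = D.a σ from (GK2_leg h hc k5).subset ⟨l, hm⟩]
      exact right_mem_segment ℝ _ _
    · exact l
  refine ⟨σ, hσ, key, Subset.antisymm (fun x l => l1.subset ⟨l.1, .inl l.2⟩)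
    (singleton_subset_iff.2 ⟨right_mem_segment ℝ _ _, hm.elim id fun l => ?_⟩), l2⟩
  obtain ⟨w, hw, l⟩ := mem_iUnion₂.1 l
  exact (h.mkd.bd _ (h.thg.thin σ hσ _ (key (right_mem_segment ℝ _ _))
    (GK2_st hw l (right_mem_segment ℝ _ _))).1).1

end BEp
end
end

-- merged part: Pool.Agent.Work.MP_f0515e_an.D3.GK3
section
/-! The boxes and the fat beads in terms of the complex with one mark on each edge.

Plan. Every `v ∈ Th` has a flag (`exists_up`), so it lies on a thin segment and is not in `Mt` (`thin_leg`).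
`inb`: `Mkd.cst` between `v` and `x`, then `Mkd.inb`. `fac`: `Mkd.fac`; let `w` be the other end of `s`; the
points `v + t (m s - v)` with `t` slightly above 1 lie on `segment w (m s)`. If `w ∈ Th` and `m s` is not
a gate, both legs lie on the same thin segment (`Mkd.loc`, `Grf.meet` or cells of `K`), `Mkd.opp` and
`inb` at `w` give the sign. If `m s` is a gate then `w` is its centre (`gsub`, `fat_fl`, an edge has
two flags); beyond the mark the image is in `B w`, not in `S w`, and before the mark it is not in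
`B w` (`star`), so `FatS.gate` and `Mkd.side_lo` give `σ = - t.s (m s)`. If `w` is fat then `m s ∈ t.Mk ∩ Mt`
is a gate (`fat_fl'`, `mt_st`).
`sub`, `lf`: the box has size at most `η σ` and contains `g v`; `GS.eta`, `lf_ball`, `GEmb_cpt`, `K2.lf`.
`fatK`: translate the fields of `FatS` by `fat_fl`, `fat_fl'`; for `flt`: `icl` gives two fat flags of `s`,
and an edge has only two flags; for `meet`: a common mark of two centres is not a gate. -/

open Set Metric Filter Topology Function BEv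
open scoped NNReal ENNReal

noncomputable section
namespace BEp

variable {Ω : Set (Rn 3)} {ι : Type} {K : Kx Ω} {f : Rn 3 → Rn 3} {d : TopD ι} {D : GlD Ω}

theorem GK3_oth {v : Rn 3} {s : Set (Rn 3)} (h : K.Fl v s) : ∃ w, v ≠ w ∧
    s = openSegment ℝ v w ∧ K.Fl w s ∧ ∀ u, K.Fl u s → u = v ∨ u = w := by
  obtain ⟨w, e, rfl⟩ := gf2_ed h
  exact ⟨w, e.1, rfl, gf2_fl' e, fun u k => gf2_v e (e.cl.subset k.2.2.2) k.2.1⟩

theorem GK3_ray {v w y : Rn 3} (h : v ≠ w) (hy : y ∈ openSegment ℝ v w) :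
    ∀ᶠ t in 𝓝[>] (1 : ℝ), v + t • (y - v) ∈ segment ℝ w y ∧ v + t • (y - v) ≠ y := by
  rw [openSegment_eq_image'] at hy
  obtain ⟨c, hc, rfl⟩ := hy
  have h1 : 0 < 1 - c := sub_pos.2 hc.2
  filter_upwards [Ioo_mem_nhdsGT ((one_lt_inv₀ hc.1).2 hc.2)] with t ht
  have h2 : t * c < 1 := (lt_inv_mul_iff₀' hc.1).1 (by simpa using ht.2)
  have h3 : c < t * c := lt_mul_of_one_lt_left hc.1 ht.1
  constructor
  · rw [segment_eq_image']
    refine ⟨(1 - t * c) / (1 - c), ⟨by positivity, (div_le_one h1).2 (by linarith)⟩, ?_⟩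
    ext i
    simp only [Pi.add_apply, Pi.smul_apply, Pi.sub_apply, smul_eq_mul]
    field_simp
    ring
  · intro e
    rw [add_sub_cancel_left, smul_smul, add_right_inj] at e
    exact h3.ne' (smul_left_injective ℝ (sub_ne_zero.2 h.symm) e)

theorem GK3_cn {v : Rn 3} (hv : D.K2.Vx v) (h : v ∉ D.Th) : v ∈ D.t.Cn :=
  by_contra fun k => h ⟨hv, k⟩

theorem GK3_cl (h : GS K f d D) {σ : Set (Rn 3)} (hσ : σ ∈ thinE K d) :
    segment ℝ (D.a σ) (D.b σ) ⊆ closure σ :=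
  segment_subset_closure_openSegment.trans (closure_mono (GS_sub h.thg hσ))

theorem GK3_nm {v y : Rn 3} {M : Set (Rn 3)} (h : segment ℝ v y ∩ M = {y}) (n : v ≠ y) : v ∉ M :=
  fun k => n (h.subset ⟨left_mem_segment ℝ _ _, k⟩)

theorem GK3_nrm {lo hi y z : Rn 3} (h : ∀ k, lo k < y k ∧ y k < hi k) (hz : z ∈ Icc lo hi) :
    ‖z - y‖ ≤ ‖hi - lo‖ :=
  (pi_norm_le_iff_of_nonneg (norm_nonneg _)).2 fun k => le_trans (abs_le.2 (by
    have := Real.le_norm_self ((hi - lo) k)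
    simp only [Pi.sub_apply] at this ⊢
    constructor <;> linarith only [this, h, hz, (h k).1, (h k).2, hz.1 k, hz.2 k])) (norm_le_pi_norm (hi - lo) k)

theorem GK3_th (h : GS K f d D) {v : Rn 3} (hv : v ∈ D.Th) :
    ∃ σ : thinE K d, v ∈ segment ℝ (D.a σ) (D.b σ) ∧ v ∉ D.Mt := by
  obtain ⟨s, hs, k⟩ := Kx.exists_up h.top.opn (D.K2.cell_mem hv.1.1) (d := 1)
    (by rw [hv.1.2, KA2_single]; norm_num) (by norm_num)
  obtain ⟨σ, hσ, k1, k2, k3⟩ := h.thin_leg hv ⟨hv.1.1, hv.1.2, hs, k (D.K2.mem v hv.1.1)⟩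
  exact ⟨⟨σ, hσ⟩, k1 (left_mem_segment ℝ _ _), GK3_nm k2 k3⟩

theorem GK3_box (h : GS K f d D) {v : Rn 3} (hv : v ∈ D.Th) : ∃ η : ℝ, 0 < η ∧ η ≤ 1 ∧
    Icc (D.lo v) (D.hi v) ⊆ closedBall (D.g v) η ∧ closedBall (D.g v) (2 * η) ⊆ D.g '' Ω := by
  obtain ⟨σ, k1, k2⟩ := GK3_th h hv
  exact ⟨_, (h.eta.1 σ).1, (h.eta.1 σ).2, fun z hz => mem_closedBall_iff_norm.2
    ((GK3_nrm (h.mkd.inb σ v k1 k2) hz).trans (h.mkd.sz σ v k1 k2)),
    (h.eta.2 σ σ.2.1 v (GK3_cl h σ.2 k1)).2⟩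

theorem GK3_inb (h : GS K f d D) {v x : Rn 3} {s : Set (Rn 3)} (hv : v ∈ D.Th) (hs : D.K2.Fl v s)
    (hx : x ∈ segment ℝ v (D.m s)) (n : x ≠ D.m s) (k : Fin 3) :
    D.lo v k < D.g x k ∧ D.g x k < D.hi v k := by
  obtain ⟨σ, hσ, k1, k2, -⟩ := h.thin_leg hv hs
  obtain ⟨e1, e2⟩ := h.mkd.cst ⟨σ, hσ⟩ v (k1 (left_mem_segment ℝ _ _)) x (k1 hx)
    (disjoint_left.2 fun y hy hm => by
      obtain rfl : y = D.m s := k2.subset
        ⟨(convex_segment _ _).segment_subset (left_mem_segment ℝ _ _) hx hy, hm⟩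
      exact n ((wbtw_swap_right_iff ℝ v).1 ⟨mem_segment_iff_wbtw.1 hx, mem_segment_iff_wbtw.1 hy⟩))
  rw [e1, e2]
  exact h.mkd.inb ⟨σ, hσ⟩ x (k1 hx) (fun hm => n (k2.subset ⟨hx, hm⟩)) k

theorem GK3_st {t : FatD} {v y : Rn 3} (hv : v ∈ t.Cn) (hy : y ∈ t.ms v) : segment ℝ v y ⊆ t.St :=
  fun _ hx => mem_iUnion₂.2 ⟨v, hv, mem_iUnion₂.2 ⟨y, hy, hx⟩⟩

theorem GK3_sgn (h : GS K f d D) {v y : Rn 3} {s : Set (Rn 3)} (hv : v ∈ D.Th) (hs : D.K2.Fl v s)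
    (e : D.m s = y) : ∃ σ : ℝ, ((σ = 1 ∧ D.g y (D.kk y) = D.hi v (D.kk y)) ∨
      (σ = -1 ∧ D.g y (D.kk y) = D.lo v (D.kk y))) ∧
      ∀ᶠ t in 𝓝[>] (1 : ℝ), 0 < σ * (D.g (v + t • (y - v)) (D.kk y) - D.g y (D.kk y)) := by
  obtain ⟨σ, hσ, k1, k2, k3⟩ := h.thin_leg hv hs
  obtain ⟨w, n, es, hw, two⟩ := GK3_oth hs
  have ys := (GAlt_m h.alt hs.2.2.1).1
  have yc := (h.alt.leg_inter hs).2.2
  rw [e] at k1 k2 k3 ys yc
  have ym : y ∈ D.Mt := (k2.superset rfl).2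
  have yo : y ∈ openSegment ℝ v w := es.subset ys
  have ry := GK3_ray n yo
  have kv := k1 (left_mem_segment ℝ _ _)
  have ky := k1 (right_mem_segment ℝ _ _)
  have sk : ∀ x ∈ segment ℝ v w, x ∈ K.sk 1 := fun x hx => h.alt.sk.subset
    (Kx.cl_sub_sk hs.2.2.1.1 hs.2.2.1.2.le (closure_mono es.superset
      (segment_subset_closure_openSegment hx)))
  have yw := openSegment_subset_segment ℝ _ _ yo
  by_cases hg : y ∈ D.t.Gt
  · obtain ⟨u, hu, hm⟩ := mem_iUnion₂.1 (h.fat.gsub hg)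
    obtain rfl : u = w := (two u (yc ▸ (h.fat_fl hu hm).1)).resolve_left fun k => hv.2 (k ▸ hu)
    obtain ⟨g1, -, g3⟩ := h.fat.gate u hu y hm hg
    rw [← (h.mkd.bd y hg).2] at g3
    have c : Tendsto (fun t : ℝ => D.g (v + t • (y - v))) (𝓝 1) (𝓝 (D.g y)) :=
      (h.gc.continuousAt (h.top.opn.mem_nhds (K.sk_sub 1 (sk y yw)))).tendsto.comp
        (Continuous.tendsto' (by fun_prop) _ _ (by simp))
    obtain ⟨t, t1, t2⟩ := (((c.eventually g3).filter_mono nhdsWithin_le_nhds).and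
      (Ioo_mem_nhdsLT one_pos)).exists
    have x1 : v + t • (y - v) ∈ segment ℝ v y := by
      rw [segment_eq_image']
      exact ⟨t, Ioo_subset_Icc_self t2, rfl⟩
    have x2 : v + t • (y - v) ≠ y := fun k => t2.2.ne (smul_left_injective ℝ
      (sub_ne_zero.2 k3.symm) ((eq_sub_of_add_eq' k).trans (one_smul ℝ _).symm))
    have x3 := not_le.1 fun k => by
      obtain ⟨y', hy', k'⟩ := h.fat.star u hu _ (sk _ ((convex_segment _ _).segment_subset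
        (left_mem_segment ℝ _ _) yw x1)) (t1.2.2 k)
      exact x2 (k2.subset ⟨x1, (h.mkd.bd _ (h.thg.thin σ hσ _ (k1 x1) (GK3_st hu hy' k')).1).1⟩)
    obtain ⟨s1, s2⟩ := h.mkd.side_lo (i := ⟨σ, hσ⟩) kv ky k2 k3 x1 x2
    refine ⟨-D.t.s y, ?_, ?_⟩
    · rcases g1 with g1 | g1 <;> rw [g1] at x3 ⊢
      exacts [.inr ⟨rfl, s1 (by linarith)⟩, .inl ⟨neg_neg 1, s2 (by linarith)⟩]
    · filter_upwards [ry, (c.eventually g3).filter_mono nhdsWithin_le_nhds] with r r1 r2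
      have r3 := r2.2.1 (h.fat.sin u hu y hm ⟨_, r1.1, rfl⟩)
      have r4 := mt r2.1.2 fun k => r1.2 ((h.fat.edge u hu y hm).2.1.subset ⟨r1.1,
        mem_iUnion₂.2 ⟨u, hu, h.fat.mark u hu _ (sk _ ((convex_segment _ _).segment_subset
          (right_mem_segment ℝ _ _) yw r1.1)) k⟩⟩)
      rcases g1 with g1 | g1 <;> rw [g1] at r3 ⊢ <;>
        rcases lt_or_gt_of_ne r4 with r5 | r5 <;> linarith only [r5, r3]
  · have wt : w ∈ D.Th := by_contra fun k => hg (h.mt_st ym (GK3_st (GK3_cn ⟨hw.1, hw.2.1⟩ k)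
      (e ▸ h.fat_fl' (GK3_cn ⟨hw.1, hw.2.1⟩ k) hw) (right_mem_segment ℝ _ _)))
    obtain ⟨σ', hσ', l1, l2, -⟩ := h.thin_leg wt hw
    rw [e] at l1 l2
    obtain ⟨τ, hτ⟩ := (h.mkd.loc y ym).resolve_left hg
    have un : ∀ ρ ∈ thinE K d, y ∈ segment ℝ (D.a ρ) (D.b ρ) → ρ = τ := fun ρ hρ k => by
      obtain ⟨e1, e2⟩ := h.thg.edge ρ hρ
      obtain ⟨e3, e4⟩ := h.thg.edge τ τ.2
      exact e2.trans ((GTh_eq e3 e1 (e4.subset (GS_sub h.thg τ.2 hτ)) (e1.cl.subset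
        (closure_mono e2.subset (GK3_cl h hρ k)))).trans e4.symm)
    obtain rfl : σ = σ' := (un σ hσ ky).trans (un σ' hσ' (l1 (right_mem_segment ℝ _ _))).symm
    have ib := fun x hx hn => GK3_inb (x := x) h wt hw (e ▸ hx) (e ▸ hn) (D.kk y)
    rcases h.mkd.opp ⟨σ, hσ⟩ v kv w (l1 (left_mem_segment ℝ _ _)) y hg yo n
      (Subset.antisymm (fun x hx => (gf2_split yo hx.1).elim (fun k => k2.subset ⟨k, hx.2⟩)
        fun k => l2.subset ⟨k, hx.2⟩) (singleton_subset_iff.2 ⟨yw, ym⟩)) with k | k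
    · exact ⟨-1, .inr ⟨rfl, k.1⟩, ry.mono fun r hr => by linarith [(ib _ hr.1 hr.2).2, k.2]⟩
    · exact ⟨1, .inl ⟨rfl, k.1⟩, ry.mono fun r hr => by linarith [(ib _ hr.1 hr.2).1, k.2]⟩

theorem GS.boxK (h : GS K f d D) :
    BoxK D.K2 D.g D.m D.Th (fatF d D.t) (fun s => D.kk (D.m s)) D.lo D.hi := by
  refine ⟨h.top.opn, h.gc, h.gi, fun s hs => (GAlt_m h.alt hs).1, fun v hv => hv.1,
    fun v hv s hs x hx n => GK3_inb h hv hs hx n, fun v hv s hs => ⟨?_, GK3_sgn h hv hs rfl⟩,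
    fun v hv w hw => ?_, fun v hv => ?_, fun v hv => ?_, fun C hC hs => ?_⟩
  · obtain ⟨σ, hσ, k1, k2, k3⟩ := h.thin_leg hv hs
    exact (h.mkd.fac ⟨σ, hσ⟩ v (k1 (left_mem_segment ℝ _ _)) _ (k1 (right_mem_segment ℝ _ _))
      k2 k3).1
  · obtain ⟨σ, k1, k2⟩ := GK3_th h hv
    obtain ⟨τ, l1, l2⟩ := GK3_th h hw
    exact h.mkd.dis σ τ v k1 w l1 k2 l2
  · obtain ⟨σ, k1, k2⟩ := GK3_th h hv
    exact h.mkd.far σ v k1 k2
  · obtain ⟨η, k0, -, k1, k2⟩ := GK3_box h hv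
    exact k1.trans ((closedBall_subset_closedBall (by linarith)).trans k2)
  · obtain ⟨C', k1, k2, k3⟩ := lf_ball (GEmb_open h.gc h.gi h.top.opn Subset.rfl) hC hs
    refine ((D.K2.lf _ (GEmb_cpt h.top.opn h.gc h.gi k1 k2) fun x hx => hx.1).preimage
      singleton_injective.injOn).subset fun v hv => ?_
    obtain ⟨η, -, l1, l2, l3⟩ := GK3_box h hv.1
    exact ⟨v, ⟨hv.1.1.1, k3 _ η l1 l3 (hv.2.mono (inter_subset_inter_left _ l2))⟩, hv.1.1.2⟩

theorem GS.fatK (h : GS K f d D) :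
    FatK D.K2 D.g D.Th (fatF d D.t) (fun s => D.kk (D.m s)) D.In D.b0 := by
  have cn : ∀ {v s}, D.K2.Fl v s → v ∉ D.Th → v ∈ D.t.Cn := fun k => GK3_cn ⟨k.1, k.2.1⟩
  refine ⟨h.fat.fin.subset fun v hv => GK3_cn hv.1 hv.2, fun v hv n => h.fat.lh v (GK3_cn hv n),
    fun v hv n => ⟨(h.fat.sub v (GK3_cn hv n)).trans h.gim.superset,
      fun x hx => .inl (mem_iUnion₂.2 ⟨v, GK3_cn hv n, hx⟩)⟩,
    fun v s hs n => h.fat.sin v (cn hs n) _ (h.fat_fl' (cn hs n) hs), fun v hv n y hy k => ?_,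
    fun v hv n y hy k => ?_, fun v s hs n => h.fat.ray v (cn hs n) _ (h.fat_fl' (cn hs n) hs),
    fun v s hs k => ?_, fun v s hs n k => ?_, fun v w hv hw n n' e x hx => ?_⟩
  · obtain ⟨z, hz, l⟩ := h.fat.star v (GK3_cn hv n) y (h.alt.sk.subset hy) k
    obtain ⟨l1, l2⟩ := h.fat_fl (GK3_cn hv n) hz
    exact ⟨_, l1, l2.symm.subst (motive := fun u => y ∈ segment ℝ v u) l⟩
  · obtain ⟨l1, l2⟩ := h.fat_fl (GK3_cn hv n)
      (h.fat.mark v (GK3_cn hv n) y (h.alt.sk.subset hy) k)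
    exact ⟨_, l1, l2.symm⟩
  · obtain ⟨i, a, b, e, l1, -, l2, l3⟩ := h.fat.icl _ k.1 k.2
    have ha := (h.fat.cen a).2 (.inl ⟨i, l1 (left_mem_segment ℝ _ _), e.left.2⟩)
    have hb := (h.fat.cen b).2 (.inl ⟨i, l1 (right_mem_segment ℝ _ _), e.right.2⟩)
    have fa := (h.fat_fl ha l2).1
    have fb := (h.fat_fl hb l3).1
    rw [(h.alt.leg_inter hs).2.2] at fa fb
    obtain ⟨w, -, -, -, two⟩ := GK3_oth hs
    have hv : v ∈ D.t.Cn := by_contra fun n => e.1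
      (((two a fa).resolve_left fun q => n (q ▸ ha)).trans
        ((two b fb).resolve_left fun q => n (q ▸ hb)).symm)
    exact ⟨fun q => q.2 hv, h.fat.flt v hv _ (h.fat_fl' hv hs) k.2⟩
  · have hm := h.fat_fl' (cn hs n) hs
    have hg : D.m s ∈ D.t.Gt := by_contra fun q => k ⟨mem_iUnion₂.2 ⟨v, cn hs n, hm⟩, q⟩
    simp only [(h.mkd.bd _ hg).2]
    exact (h.fat.gate v (cn hs n) _ hm hg).2.2.mono fun z hz => hz.1
  · obtain ⟨y, l1, l2, l3⟩ := h.fat.meet v (GK3_cn hv n) w (GK3_cn hw n') e x hx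
    obtain ⟨f1, f2⟩ := h.fat_fl (GK3_cn hv n) l1
    rw [← f2] at l1 l2 l3
    exact ⟨_, ⟨mem_iUnion₂.2 ⟨v, GK3_cn hv n, l1⟩, fun q =>
      e ((h.fat.gate v (GK3_cn hv n) _ l1 q).2.1 w (GK3_cn hw n') l2).symm⟩, f1,
      (h.fat_fl (GK3_cn hw n') (f2 ▸ l2)).1, l3⟩

theorem GS.size (h : GS K f d D) {v : Rn 3} {s : Set (Rn 3)} (hv : v ∈ D.Th)
    (hs : D.K2.Fl v s) : ‖D.hi v - D.lo v‖ ≤ D.w (D.m s) ∧
      ∀ x ∈ segment ℝ v (D.m s), ‖D.hi v - D.lo v‖ ≤ d.θ (K.cell x) ∧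
        ∀ z ∈ Icc (D.lo v) (D.hi v), ‖z - f v‖ ≤ ‖D.hi v - D.lo v‖ := by
  obtain ⟨σ, hσ, k1, k2, k3⟩ := h.thin_leg hv hs
  have kv := k1 (left_mem_segment ℝ _ _)
  have n := GK3_nm k2 k3
  refine ⟨h.wt.wb ⟨σ, hσ⟩ v kv _ (k1 (right_mem_segment ℝ _ _)) k2 k3,
    fun x hx => ⟨?_, fun z hz => ?_⟩⟩
  · linarith only [hσ, h, kv, n, k1, hx, h.mkd.sz ⟨σ, hσ⟩ v kv n, (h.eta.1 σ).1, (h.eta.2 σ hσ.1 x (GK3_cl h hσ (k1 hx))).1]
  · rw [← h.fat.same v (Kx.cl_sub_sk hσ.1.1 hσ.1.2.le (GK3_cl h hσ kv))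
      fun k => (h.thg.thin σ hσ v kv k).1]
    exact GK3_nrm (h.mkd.inb ⟨σ, hσ⟩ v kv n) hz

end BEp
end
end
end
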