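import Pool.Agent.Work.MP_f0515e_an.D3.BFin
import Pool.Agent.Work.MP_f0515e_an.D3.FBd
import Pool.Agent.Work.MP_f0515e_an.D3.BAux
import Pool.Agent.Work.MP_f0515e_an.D3.PMod1
import Pool.Agent.Work.MP_f0515e_an.D3.GAlt1
import Pool.Agent.Work.MP_f0515e_an.D3.NLn
import Pool.Agent.Work.MP_f0515e_an.D3.GK3
import Pool.Agent.Work.MP_f0515e_an.D3.KA3

-- merged part: Pool.Agent.Work.MP_f0515e_an.D3.GB
section
-- merged part: Pool.Agent.Work.MP_f0515e_an.D3.BWind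
section
/-! Star balls: winding data at the marks.
`wind_pem`: `wind_log` for the functions precomposed with `x ↦ y + R • (pem i 1 (pj3 x) + Pi.single i (x 2))`, which maps the unit cube
onto the cube of radius `R`; then substitute `w ↦ R⁻¹ • ![w 0, ε * w 1]` and absorb `R⁻¹` in the logarithm.
`exists_bwd`: for `e ≠ o` use `ζ = ste ∘ k`, `η = slam ∘ k` (`sus_ste` gives joint injectivity; `ste (k x) = ste (a e)` means that `k x` is a
positive multiple of `a e`); for `e = o` use `ζ = (k x).2`, `η = (k x).1` and divide by the positive function `2 * slam (k x)`.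
The sign condition comes from `inn`, `loc`, `out`. About 250 lines. -/

open Set Metric Filter Topology Function BEv
open scoped NNReal

noncomputable section
namespace BEp

variable {ι : Type} [Finite ι] {a : ι → ℝ × ℂ} {h : ℝ × ℂ → Rn 3} {k : Rn 3 → ℝ × ℂ}
  {Po : Set (Rn 3)} {i : ι → Fin 3} {σ : ι → ℝ} {δ Q R m : ℝ} {o : ι} {s : ι → ℝ}
  {L : ι → Rn 2 → ℂ}

theorem wind_pem {ζ : Rn 3 → ℂ} {η : Rn 3 → ℝ} {y : Rn 3} {j : Fin 3} {τ : ℝ} (hR : 0 < R)
    (hζ : ContinuousOn ζ (closedBall y R)) (hη : ContinuousOn η (closedBall y R))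
    (hi : ∀ x ∈ closedBall y R, ∀ x' ∈ closedBall y R, ζ x = ζ x' → η x = η x' → x = x')
    (hs : ∀ x ∈ closedBall y R, ζ x = ζ y → x = y ∨ 0 < τ * (η x - η y) * (x j - y j))
    (hτ : τ ≠ 0) : ∃ ε : ℝ, (ε = 1 ∨ ε = -1) ∧ ∃ M : Rn 2 → ℂ,
      ContinuousOn M {w | w ≠ 0 ∧ ‖w‖ ≤ R} ∧
      ∀ w, w ≠ 0 → ‖w‖ ≤ R → ζ (y + pem j ε w) - ζ y = cx w * Complex.exp (M w) := by
  obtain ⟨Θ, hΘ⟩ : ∃ Θ : Rn 3 → Rn 3, ∀ x l, Θ x l = y l + R * x (l - j + 2) :=
    ⟨fun x l => _, fun _ _ => rfl⟩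
  have c : Continuous Θ := continuous_pi fun l => by
    simp only [hΘ]
    fun_prop
  have mp : MapsTo Θ (closedBall 0 1) (closedBall y R) := fun x hx => by
    refine mem_closedBall_iff_norm.2 ((pi_norm_le_iff_of_nonneg hR.le).2 fun l => ?_)
    rw [Pi.sub_apply, hΘ, add_sub_cancel_left, norm_mul, Real.norm_of_nonneg hR.le]
    exact mul_le_of_le_one_right hR.le ((norm_le_pi_norm x _).trans (mem_closedBall_zero_iff.1 hx))
  have inj : Injective Θ := fun x x' e => funext fun l => by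
    have := congrFun e (l - 2 + j)
    rw [hΘ, hΘ, add_sub_cancel_right, sub_add_cancel] at this
    exact mul_left_cancel₀ hR.ne' (add_left_cancel this)
  have z : Θ 0 = y := funext fun l => by rw [hΘ, Pi.zero_apply, mul_zero, add_zero]
  obtain ⟨ε, hε, M, h1, h2⟩ := wind_log (ζ := fun x => ζ (Θ x)) (η := fun x => η (Θ x)) (σ := τ)
    (hζ.comp c.continuousOn mp) (hη.comp c.continuousOn mp)
    (fun x hx x' hx' e e' => inj (hi _ (mp hx) _ (mp hx') e e')) (fun x hx e => by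
      rw [z] at e ⊢
      refine (hs _ (mp hx) e).imp (fun k => inj (k.trans z.symm)) fun k => ?_
      rw [hΘ, add_sub_cancel_left, sub_self, zero_add, mul_left_comm] at k
      exact (mul_pos_iff_of_pos_left hR).1 k) hτ
  have e2 : ε * ε = 1 := by rcases hε with rfl | rfl <;> norm_num
  have e1 : |ε| = 1 := by rcases hε with rfl | rfl <;> norm_num
  have mu : MapsTo (fun w : Rn 2 => (R⁻¹ • ![w 0, ε * w 1] : Rn 2)) {w | w ≠ 0 ∧ ‖w‖ ≤ R}
      (closedBall 0 1 \ {0}) := fun w hw => by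
    refine ⟨mem_closedBall_zero_iff.2 ?_, fun k => hw.1 ?_⟩
    · rw [norm_smul, norm_inv, Real.norm_of_nonneg hR.le, inv_mul_le_one₀ hR]
      refine le_trans ((pi_norm_le_iff_of_nonneg (norm_nonneg w)).2 (Fin.forall_fin_two.2
        ⟨norm_le_pi_norm w 0, ?_⟩)) hw.2
      change ‖ε * w 1‖ ≤ _
      rw [norm_mul, Real.norm_eq_abs ε, e1, one_mul]
      exact norm_le_pi_norm w 1
    · have k' := (smul_eq_zero.1 k).resolve_left (inv_ne_zero hR.ne')
      refine funext (Fin.forall_fin_two.2 ⟨congrFun k' 0, ?_⟩)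
      exact (mul_eq_zero.1 (congrFun k' 1)).resolve_left (left_ne_zero_of_mul_eq_one e2)
  refine ⟨ε, hε, fun w => M (R⁻¹ • ![w 0, ε * w 1]) + Real.log R⁻¹,
    (h1.comp (Continuous.continuousOn (by fun_prop)) mu).add continuousOn_const, fun w w0 w1 => ?_⟩
  have k := h2 _ (mu ⟨w0, w1⟩)
  have k1 : Θ (mk3 (R⁻¹ • ![w 0, ε * w 1]) 0) = y + pem j ε w := funext fun l => by
    rw [hΘ, Pi.add_apply]
    congr 1
    fin_cases j <;> fin_cases l <;>
      simp [pem, mk3, mul_inv_cancel_left₀ hR.ne', show (-1 + 2 : Fin 3) = 1 from rfl]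
  simp only [k1, z] at k
  rw [k, Complex.exp_add, ← Complex.ofReal_exp, Real.exp_log (inv_pos.2 hR), mul_comm (Complex.exp _),
    ← mul_assoc]
  congr 1
  refine Complex.ext ?_ ?_
  · simp [mul_comm]
  · rw [Complex.im_mul_ofReal, cx_im, cx_im]
    change ε * (R⁻¹ * (ε * w 1)) = _
    rw [mul_left_comm, ← mul_assoc ε, e2, one_mul, mul_comm]

omit [Finite ι] in
/-- The sign of the height along the ray. -/
theorem BCo.sign (H : BCo h k Po a i σ δ Q) {e : ι} {t : ℝ} (ht : 0 ≤ t)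
    (hm : t • a e ∈ cthickening δ (bSt a)) (hd : dist (h (t • a e)) (h (a e)) ≤ Q) :
    t = 1 ∨ 0 < σ e * (t - 1) * (h (t • a e) (i e) - h (a e) (i e)) := by
  rcases lt_trichotomy t 1 with k | k | k
  · rw [mul_right_comm]
    exact Or.inr (mul_pos_of_neg_of_neg ((H.loc e _ hd).1 (H.inn e t ⟨ht, k⟩)) (sub_neg.2 k))
  · exact Or.inl k
  · rw [mul_right_comm]
    exact Or.inr (mul_pos (H.out e t k hm).2 (sub_pos.2 k))

omit [Finite ι] in
theorem BWind_mk (e : ι) : a e ∈ bSt a := ⟨e, 1, right_mem_Icc.2 zero_le_one, (one_smul ℝ _).symm⟩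

omit [Finite ι] in
theorem BWind_core (H : BCo h k Po a i σ δ Q) {e : ι} (hR : 0 < R) (hQ : R ≤ Q)
    (hs : closedBall (h (a e)) R ⊆ h '' thickening δ (bSt a)) {Z : ℝ × ℂ → ℂ} {η : ℝ × ℂ → ℝ}
    {U : Set (ℝ × ℂ)} (hU : MapsTo k (closedBall (h (a e)) R) U) (hZ : ContinuousOn Z U)
    (hη : Continuous η) (hi : ∀ q ∈ U, ∀ q' ∈ U, Z q = Z q' → η q = η q' → q = q')
    (hc : 0 < η (a e)) (hr : ∀ q ∈ U, Z q = Z (a e) → q = (η q / η (a e)) • a e ∧ 0 ≤ η q) :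
    ∃ ε : ℝ, (ε = 1 ∨ ε = -1) ∧ ∃ M : Rn 2 → ℂ, ContinuousOn M {w | w ≠ 0 ∧ ‖w‖ ≤ R} ∧
      ∀ w, w ≠ 0 → ‖w‖ ≤ R →
        Z (k (h (a e) + pem (i e) ε w)) - Z (a e) = cx w * Complex.exp (M w) := by
  have kh := H.kh _ (self_subset_cthickening (δ := δ) _ (BWind_mk (a := a) e))
  have := wind_pem (ζ := fun x => Z (k x)) (η := fun x => η (k x)) (y := h (a e)) (j := i e)
    (τ := σ e) hR (hZ.comp H.kc.continuousOn hU) (hη.comp H.kc).continuousOn
    (fun x hx x' hx' e1 e2 => by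
      rw [← (H.hk (hs hx)).1, hi _ (hU hx) _ (hU hx') e1 e2, (H.hk (hs hx')).1])
    (fun x hx e1 => by
      simp only [kh] at e1 ⊢
      obtain ⟨k1, k2⟩ := hr _ (hU hx) e1
      obtain ⟨k3, k4⟩ := H.hk (hs hx)
      have k5 := H.sign (div_nonneg k2 hc.le) (k1 ▸ thickening_subset_cthickening _ _ k4)
        (by rw [← k1, k3]; exact (mem_closedBall.1 hx).trans hQ)
      rw [← k1, k3] at k5
      refine k5.imp (fun k6 => by rw [← k3, k1, k6, one_smul]) fun k6 => ?_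
      rw [div_sub_one hc.ne', ← mul_div_assoc, div_mul_eq_mul_div] at k6
      exact (div_pos_iff_of_pos_right hc).1 k6)
    (by rcases H.sgn e with k1 | k1 <;> simp [k1])
  simpa only [kh] using this

theorem exists_bwd (H : BCo h k Po a i σ δ Q) (ao : a o = (1, 0)) :
    ∃ R s L m, BWd h k a i o δ Q R s L m := by
  have kh := fun e => H.kh _ (self_subset_cthickening (δ := δ) _ (BWind_mk (a := a) e))
  have tk : ∀ e, Tendsto k (𝓝 (h (a e))) (𝓝 (a e)) := fun e => H.kc.tendsto' _ _ (kh e)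
  obtain ⟨m, hm, m0⟩ : ∃ m : ℝ, (∀ e e', e ≠ o → e' ≠ o → e ≠ e' →
      m < ‖ste (a e) - ste (a e')‖) ∧ 0 < m := by
    refine (Eventually.and (f := 𝓝[>] 0) (mem_nhdsWithin_of_mem_nhds ?_) self_mem_nhdsWithin).exists
    refine eventually_all.2 fun e => eventually_all.2 fun e' => eventually_all.2 fun k1 =>
      eventually_all.2 fun k2 => eventually_all.2 fun k3 => gt_mem_nhds ?_
    exact norm_pos_iff.2 (sub_ne_zero.2 fun k4 => k3 (ste_leg_inj ao H.ne H.dir k1 k2 k4))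
  have ev : ∀ e, ∀ᶠ x in 𝓝 (h (a e)), x ∈ h '' thickening δ (bSt a) ∧
      (e ≠ o → 0 < slam (k x) ∧ ‖ste (k x) - ste (a e)‖ ≤ m) ∧
      (e = o → 0 < (k x).1 ∧ ∀ e', 0 < slam (k x) → ‖ste (a e')‖ < ‖ste (k x)‖) := fun e => by
    refine Eventually.and (H.opn'.mem_nhds ⟨_, self_subset_thickening H.δ0 _ (BWind_mk e), rfl⟩)
      (Eventually.and (eventually_all.2 fun k1 => ?_) (eventually_all.2 ?_))
    · have k2 : {q | 0 < slam q} ∈ 𝓝 (a e) :=
        (isOpen_lt continuous_const cont_slam).mem_nhds (slam_leg ao H.ne H.dir k1)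
      refine (tk e).eventually (p := fun q => 0 < slam q ∧ ‖ste q - ste (a e)‖ ≤ m)
        (Eventually.and k2 ?_)
      exact ((contOn_ste.continuousAt k2).eventually (closedBall_mem_nhds _ m0)).mono fun q hq =>
        mem_closedBall_iff_norm.1 hq
    · rintro rfl
      refine (tk e).eventually
        (p := fun q => 0 < q.1 ∧ ∀ e', 0 < slam q → ‖ste (a e')‖ < ‖ste q‖) ?_
      rw [ao]
      refine Eventually.and (continuous_fst.continuousAt.eventually (lt_mem_nhds one_pos))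
        (eventually_all.2 fun e' => ?_)
      obtain ⟨ε, hε, k1⟩ := ste_far ‖ste (a e')‖
      exact mem_of_superset (closedBall_mem_nhds _ hε) k1
  obtain ⟨r, ⟨hr, rQ⟩, r0⟩ := (Eventually.and (f := 𝓝[>] (0 : ℝ)) (mem_nhdsWithin_of_mem_nhds
    ((eventually_all.2 fun e => eventually_closedBall_subset (ev e)).and (gt_mem_nhds H.Q0)))
    self_mem_nhdsWithin).exists
  obtain ⟨R, rfl⟩ : ∃ R, r = 4 * R := ⟨r / 4, by ring⟩
  have R0 : 0 < R := by linarith only [r0]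
  have hb : ∀ e, ∀ x ∈ closedBall (h (a e)) R, _ := fun e x hx =>
    hr e (closedBall_subset_closedBall (by linarith) hx)
  have lg : ∀ e, ∃ ε : ℝ, (ε = 1 ∨ ε = -1) ∧ ∃ M : Rn 2 → ℂ,
      ContinuousOn M {w | w ≠ 0 ∧ ‖w‖ ≤ R} ∧ ∀ w, w ≠ 0 → ‖w‖ ≤ R →
        ste (k (h (a e) + pem (i e) ε w)) - ste (a e) = cx w * Complex.exp (M w) := fun e => by
    by_cases he : e = o
    · subst he
      obtain ⟨ε, hε, M, h1, h2⟩ := BWind_core H (e := e) R0 (by linarith only [rQ, R0]) (fun x hx => (hb e x hx).1)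
        (Z := Prod.snd) (η := Prod.fst) (U := {q | 0 < q.1})
        (fun x hx => ((hb e x hx).2.2 rfl).1) continuous_snd.continuousOn continuous_fst
        (fun q _ q' _ e1 e2 => Prod.ext e2 e1) (by rw [ao]; exact one_pos) (fun q hq e1 => by
          rw [ao] at e1 ⊢
          exact ⟨Prod.ext (by simp) (by simpa using e1), le_of_lt hq⟩)
      have a2 : (a e).2 = 0 := by rw [ao]
      simp only [a2, sub_zero] at h2
      have ps : ∀ w, w ≠ 0 → ‖w‖ ≤ R → 0 < 2 * slam (k (h (a e) + pem (i e) ε w)) :=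
        fun w w0 w1 => mul_pos two_pos (slam_pos_iff.2 fun t _ k1 => by
          have := h2 w w0 w1
          rw [k1, Prod.smul_snd, smul_zero] at this
          exact mul_ne_zero (cx.map_ne_zero_iff.2 w0) (Complex.exp_ne_zero _) this.symm)
      refine ⟨ε, hε, fun w => M w - Real.log (2 * slam (k (h (a e) + pem (i e) ε w))),
        h1.sub (Complex.continuous_ofReal.comp_continuousOn (ContinuousOn.log
          (continuous_const.mul (cont_slam.comp (H.kc.comp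
            (continuous_const.add cont_pem)))).continuousOn fun w hw => (ps w hw.1 hw.2).ne')),
        fun w w0 w1 => ?_⟩
      rw [Complex.exp_sub, ← Complex.ofReal_exp, Real.exp_log (ps w w0 w1), ← mul_div_assoc,
        ← h2 w w0 w1, show ste (a e) = 0 from ao ▸ ste_pole, sub_zero]
      rfl
    · have k1 := slam_leg ao H.ne H.dir he
      refine BWind_core H R0 (by linarith) (fun x hx => (hb e x hx).1) (η := slam)
        (fun x hx => ((hb e x hx).2.1 he).1) contOn_ste cont_slam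
        (fun q hq q' hq' e1 e2 => by rw [← sus_ste hq, e1, e2, sus_ste hq']) k1 fun q hq e1 =>
        ⟨?_, le_of_lt hq⟩
      rw [div_eq_mul_inv, mul_smul, (inv_smul_eq_iff₀ k1.ne').2 (sus_ste k1).symm, ← e1, sus_ste hq]
  choose s hs L h1 h2 using lg
  exact ⟨R, s, L, m, ao, R0, rQ, fun e x hx => (hr e hx).1, hs, h1, h2, m0,
    fun e he x hx => ((hb e x hx).2.1 he).1, hm, fun e he x hx => ((hb e x hx).2.1 he).2,
    fun e x hx k1 => ((hb o x hx).2.2 rfl).2 e ((mem_bYr ao H.ne H.dir).1 k1).1⟩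

end BEp
end
end

-- merged part: Pool.Agent.Work.MP_f0515e_an.D3.BPush
section
/-! Star balls: the sheets are pushed to the walls, the rest into `Po`.
`push_one`: with `w = ‖hz j (x - y)‖` let `D = min (min (τ * t + 4 * ε / c * max (w - r) 0) ε) (ε / R * max (4 * R - w) 0)`,
`C = max ((3 * ε - |x j - y j|) / 2) 0` and `Ψ x = update x j (x j - τ * max (-C) (min D C))`; `lh_vert` with constant `1 / 2`.
`exists_push`: `mv_fam` for the cubes of radius `4 R`, `Ball.image`, `Mv.image_eq`, `norm_eq_hz`; case distinctions: outside all cubes;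
`3 ε ≤ |height|` (fixed); `dist ≤ c` (on the sheet); otherwise `c < w`. About 250 lines. -/

open Set Metric Filter Topology Function BEv
open scoped NNReal

noncomputable section
namespace BEp

theorem BPush_D {u r c R ε : ℝ} (hr : 0 < r) (hc : 2 * r ≤ c) (hR : c ≤ R) (hε : 0 < ε)
    (hu : |u| ≤ ε / 2) : ∃ D : ℝ → ℝ, TP D ∧ ∀ w, |D w| ≤ ε ∧ (w ≤ r → D w = u) ∧
      (r < w → w ≤ c → u < D w) ∧ (c ≤ w → 0 ≤ D w) ∧ (c ≤ w → w ≤ 2 * R → D w = ε) ∧
      (4 * R ≤ w → D w = 0) := by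
  have c0 : 0 < c := by linarith only [hr, hc]
  have R0 : 0 < R := by linarith
  obtain ⟨u1, u2⟩ := abs_le.1 hu
  refine ⟨fun w => min (min (u + 4 * ε / c * max (w - r) 0) ε) (ε / R * max (4 * R - w) 0),
    (((TP.const u).add (((TP.id'.sub (TP.const r)).max (TP.const 0)).const_mul _)).min
      (TP.const ε)).min ((((TP.const _).sub TP.id').max (TP.const 0)).const_mul _), fun w => ?_⟩
  have a0 : 0 ≤ 4 * ε / c * max (w - r) 0 := mul_nonneg (by positivity) (le_max_right _ _)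
  have b0 : 0 ≤ ε / R * max (4 * R - w) 0 := mul_nonneg (by positivity) (le_max_right _ _)
  have a1 : c ≤ w → 2 * ε ≤ 4 * ε / c * max (w - r) 0 := fun h => by
    have h1 : 4 * ε / c * (c / 2) ≤ 4 * ε / c * max (w - r) 0 :=
      mul_le_mul_of_nonneg_left (le_max_of_le_left (by linarith only [hc, h])) (by positivity)
    rwa [show 4 * ε / c * (c / 2) = 2 * ε by field_simp; ring] at h1
  have b1 : w ≤ 2 * R → 2 * ε ≤ ε / R * max (4 * R - w) 0 := fun h => by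
    have h1 : ε / R * (2 * R) ≤ ε / R * max (4 * R - w) 0 :=
      mul_le_mul_of_nonneg_left (le_max_of_le_left (by linarith only [h])) (by positivity)
    rwa [show ε / R * (2 * R) = 2 * ε by field_simp] at h1
  refine ⟨abs_le.2 ⟨le_min (le_min (by linarith only [hε, u1, a0]) (by linarith only [hε])) (by linarith only [hε, b0]),
    (min_le_left _ _).trans (min_le_right _ _)⟩, fun h => ?_, fun h h' => ?_, fun h => ?_,
    fun h h' => ?_, fun h => ?_⟩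
  · have := b1 (by linarith only [hr, hc, hR, h])
    beta_reduce
    rw [max_eq_right (by linarith only [h] : w - r ≤ 0), mul_zero, add_zero, min_eq_left (by linarith only [hε, u2] : u ≤ ε),
      min_eq_left (by linarith only [hε, u2, this])]
  · have h1 := b1 (by linarith only [hr, hc, hR, h'])
    have h2 : 0 < 4 * ε / c * max (w - r) 0 :=
      mul_pos (by positivity) (lt_max_of_lt_left (by linarith only [h]))
    exact lt_min (lt_min (by linarith only [h2]) (by linarith only [hε, u2])) (by linarith only [hε, u2, h1])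
  · have := a1 h
    exact le_min (le_min (by linarith only [hε, u1, this]) hε.le) b0
  · have h1 := a1 h
    have h2 := b1 h'
    beta_reduce
    rw [min_eq_right (by linarith only [hε, u1, h1] : ε ≤ _), min_eq_left (by linarith only [hε, h2])]
  · have h1 := a1 (by linarith only [hr, hc, hR, h])
    beta_reduce
    rw [min_eq_right (by linarith only [hε, u1, h1] : ε ≤ _), max_eq_right (by linarith only [h] : 4 * R - w ≤ 0), mul_zero,
      min_eq_right hε.le]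

theorem push_one (y : Rn 3) (j : Fin 3) {τ r c R ε t : ℝ} (hτ : τ = 1 ∨ τ = -1) (hr : 0 < r)
    (hc : 2 * r ≤ c) (hR : c ≤ R) (hε : 0 < ε) (hεc : 3 * ε ≤ c) (ht : |t| ≤ ε / 2) :
    ∃ Ψ, Mv (closedBall y (4 * R)) Ψ ∧ ∀ x, hz j (Ψ x) = hz j x ∧
      (3 * ε ≤ |x j - y j| → Ψ x = x) ∧ (|x j - y j| ≤ 3 * ε → |Ψ x j - y j| ≤ 3 * ε) ∧
      (x j = y j + t → ‖hz j (x - y)‖ ≤ r → Ψ x j = y j) ∧
      (x j = y j + t → r < ‖hz j (x - y)‖ → ‖hz j (x - y)‖ ≤ c → τ * (Ψ x j - y j) < 0) ∧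
      (c ≤ ‖hz j (x - y)‖ → τ * (Ψ x j - y j) ≤ τ * (x j - y j)) ∧
      (c ≤ ‖hz j (x - y)‖ → ‖hz j (x - y)‖ ≤ 2 * R → |x j - y j| < ε →
        τ * (Ψ x j - y j) < 0) := by
  have t1 : |τ| = 1 := by rcases hτ with rfl | rfl <;> simp
  have t2 : τ * τ = 1 := by rcases hτ with rfl | rfl <;> simp
  obtain ⟨D, hD, hD'⟩ := BPush_D (u := τ * t) hr hc hR hε (by rwa [abs_mul, t1, one_mul])
  obtain ⟨C, hC⟩ : ∃ C : ℝ → ℝ, C = fun h => max ((3 * ε - |h|) / 2) 0 := ⟨_, rfl⟩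
  have C0 : ∀ h, 0 ≤ C h := fun h => hC ▸ le_max_right _ _
  have C1 : ∀ h, 3 * ε ≤ |h| → C h = 0 := fun h k => hC ▸ max_eq_right (by linarith only [k])
  have C2 : ∀ h, |h| ≤ 3 * ε → C h = (3 * ε - |h|) / 2 := fun h k => hC ▸ max_eq_left (by linarith only [k])
  have C3 : ∀ a b, |C a - C b| ≤ |a - b| / 2 := fun a b => by
    rw [hC]
    refine (abs_max_sub_max_le_abs _ _ _).trans ?_
    rw [show (3 * ε - |a|) / 2 - (3 * ε - |b|) / 2 = -((|a| - |b|) / 2) by ring, abs_neg, abs_div,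
      abs_two]
    exact div_le_div_of_nonneg_right (abs_abs_sub_abs_le_abs_sub a b) zero_le_two
  have C4 : TP C := hC ▸ (((TP.const _).sub TP.id'.abs).div_const 2).max (TP.const 0)
  have hz0 : ∀ (x : Rn 3) (a : ℝ), hz j (update x j a - y) = hz j (x - y) := fun x a => by
    funext l
    by_cases hl : l = j
    · simp [hz, hl]
    · simp [hz, hl]
  have hT : TP fun x : Rn 3 => x j - τ * clamp (D ‖hz j (x - y)‖) (C (x j - y j)) :=
    (TP.id'.apply j).sub (((hD.comp ((tp_hz j).comp (TP.id'.sub (TP.const y))).norm_pi).clamp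
      (C4.comp ((TP.id'.apply j).sub (TP.const _)))).const_mul τ)
  have fix : ∀ x : Rn 3, clamp (D ‖hz j (x - y)‖) (C (x j - y j)) = 0 →
      update x j (x j - τ * clamp (D ‖hz j (x - y)‖) (C (x j - y j))) = x := fun x h => by
    rw [h, mul_zero, sub_zero, update_eq_self]
  have val : ∀ a k : ℝ, τ * (a - τ * k - y j) = τ * (a - y j) - k := fun a k => by
    linear_combination (-k) * t2
  refine ⟨fun x => update x j (x j - τ * clamp (D ‖hz j (x - y)‖) (C (x j - y j))),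
    ⟨lh_vert j hT one_half_pos fun x a b hab => ?_, fun x hx => fix x ?_⟩, fun x => ?_⟩
  · simp only [update_self, hz0]
    have h1 := abs_clamp_sub_le (D ‖hz j (x - y)‖) (C (b - y j)) (D ‖hz j (x - y)‖) (C (a - y j))
    have h2 := C3 (b - y j) (a - y j)
    rw [sub_self, abs_zero, max_eq_right (abs_nonneg _)] at h1
    rw [sub_sub_sub_cancel_right, abs_of_nonneg (sub_nonneg.2 hab)] at h2
    have h3 := le_abs_self (τ * (clamp (D ‖hz j (x - y)‖) (C (b - y j)) -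
      clamp (D ‖hz j (x - y)‖) (C (a - y j))))
    rw [abs_mul, t1] at h3
    linarith only [h1, h2, h3]
  · rw [mem_closedBall_iff_norm, norm_eq_hz j, not_le, lt_max_iff] at hx
    rcases hx with hx | hx
    · rw [(hD' _).2.2.2.2.2 hx.le]
      exact clamp_eq_self (by rw [abs_zero]; exact C0 _)
    · rw [C1 _ (by rw [Pi.sub_apply] at hx; linarith only [hR, hε, hεc, hx]), clamp_zero]
  obtain ⟨d0, d1, d2, d3, d4, -⟩ := hD' ‖hz j (x - y)‖
  have sheet : x j = y j + t → clamp (D ‖hz j (x - y)‖) (C (x j - y j)) = D ‖hz j (x - y)‖ :=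
    fun h => clamp_eq_self (by
      rw [h, add_sub_cancel_left, C2 t (by linarith only [hε, ht])]
      linarith only [hε, ht, d0])
  simp only [update_self, val]
  refine ⟨by simp [hz], fun h => fix x (by rw [C1 _ h, clamp_zero]), fun h => ?_, fun h k => ?_,
    fun h k k' => ?_, fun k => ?_, fun k k' h => ?_⟩
  · have h1 := abs_clamp_le (c := D ‖hz j (x - y)‖) (C0 (x j - y j))
    have h2 := abs_sub (x j - y j) (τ * clamp (D ‖hz j (x - y)‖) (C (x j - y j)))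
    rw [abs_mul, t1, one_mul] at h2
    rw [sub_right_comm]
    have h3 := C2 _ h
    linarith only [h, h1, h2, h3]
  · rw [sheet h, d1 k, h, ← mul_assoc, t2]
    ring
  · rw [sheet h, h, add_sub_cancel_left]
    linarith only [d2, k, k', d2 k k']
  · have : 0 ≤ clamp (D ‖hz j (x - y)‖) (C (x j - y j)) :=
      le_max_of_le_right (le_min (d3 k) (C0 _))
    linarith only [this]
  · rw [d4 k k', clamp_eq_self (by rw [C2 _ (by linarith only [hε, h]), abs_of_pos hε]; linarith only [h])]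
    have h1 := le_abs_self (τ * (x j - y j))
    rw [abs_mul, t1] at h1
    linarith only [h, h1]

theorem exists_push {ι : Type} [Finite ι] {W Γ Po B S : Set (Rn 3)} {y : ι → Rn 3}
    {i : ι → Fin 3} {o : ι} {R c ε : ℝ} {σ ht r : ι → ℝ} (h : BPre W Γ Po y i o R c ε ht B S)
    (hB : B ⊆ W) (sgn : ∀ e, σ e = 1 ∨ σ e = -1) (hr : ∀ e, 0 < r e ∧ 2 * r e ≤ c) (hR : c ≤ R)
    (hε : 0 < ε) (hεc : 3 * ε ≤ c)
    (disj : ∀ e e' x, dist x (y e) ≤ 4 * R → dist x (y e') ≤ 4 * R → e = e')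
    (loc : ∀ e x, dist x (y e) ≤ 4 * R → (x ∈ Po ↔ σ e * (x (i e) - y e (i e)) < 0))
    (sub : ∀ e, closedBall (y e) (4 * R) ⊆ W)
    (free : ∀ e, ∀ x ∈ Γ, r e ≤ dist x (y e) → dist x (y e) ≤ 4 * R →
      3 * ε < |x (i e) - y e (i e)|)
    (wall : ∀ e, ∀ x ∈ Γ, dist x (y e) ≤ 4 * R → x (i e) = y e (i e) → x = y e) :
    ∃ B' S', BPost W Γ Po y i o r B' S' := by
  choose Ψ hΨ hΨ' using fun e => push_one (y e) (i e) (sgn e) (hr e).1 (hr e).2 hR hε hεc (h.hε e)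
  obtain ⟨Φ, hΦ, e1⟩ := mv_fam (Z := fun e => closedBall (y e) (4 * R)) disj hΨ
  have c0 : 0 < c := by linarith
  have hU : (⋃ e, closedBall (y e) (4 * R)) ⊆ W := iUnion_subset sub
  have dn : ∀ e (x : Rn 3), dist x (y e) = max ‖hz (i e) (x - y e)‖ |x (i e) - y e (i e)| :=
    fun e x => by rw [dist_eq_norm, norm_eq_hz (i e), Pi.sub_apply]
  have hw : ∀ e x, hz (i e) (Ψ e x - y e) = hz (i e) (x - y e) := fun e x => by
    funext l
    have := congrFun (hΨ' e x).1 l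
    by_cases hl : l = i e
    · simp [hz, hl]
    · simpa [hz, hl] using this
  have st : ∀ e x, dist x (y e) ≤ 4 * R → dist (Ψ e x) (y e) ≤ 4 * R := fun e x hx =>
    ((hΨ e).image_eq Subset.rfl).le (mem_image_of_mem _ hx)
  have key : ∀ e, ∀ x ∈ S, dist x (y e) ≤ 4 * R →
      (3 * ε ≤ |x (i e) - y e (i e)| ∧ Ψ e x = x ∧ c < dist x (y e)) ∨
      (|Ψ e x (i e) - y e (i e)| ≤ 3 * ε ∧ (Ψ e x ∈ fsq (y e) (i e) (r e) ∨
        (r e < dist (Ψ e x) (y e) ∧ Ψ e x ∈ Po))) := fun e x hx hd => by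
    obtain ⟨-, p1, p2, p3, p4, p5, p6⟩ := hΨ' e x
    have q0 := hr e
    by_cases h1 : dist x (y e) ≤ c
    · have h2 := h.sh e x hx h1
      refine Or.inr ⟨p2 (by rw [h2, add_sub_cancel_left]; linarith only [hε, h, h.hε e]), ?_⟩
      rcases le_or_gt ‖hz (i e) (x - y e)‖ (r e) with h3 | h3
      · refine Or.inl ⟨?_, p3 h2 h3⟩
        rw [dn, hw, p3 h2 h3, sub_self, abs_zero]
        exact max_le h3 q0.1.le
      · refine Or.inr ⟨by rw [dn, hw]; exact lt_max_of_lt_left h3, (loc e _ (st e x hd)).2 ?_⟩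
        exact p4 h2 h3 ((le_max_left _ _).trans ((dn e x).ge.trans h1))
    rcases le_total (3 * ε) |x (i e) - y e (i e)| with h2 | h2
    · exact Or.inl ⟨h2, p1 h2, not_le.1 h1⟩
    have h3 : c < ‖hz (i e) (x - y e)‖ := by
      rw [dn, not_le, lt_max_iff] at h1
      exact h1.resolve_right (by linarith)
    refine Or.inr ⟨p2 h2, Or.inr ⟨by rw [dn, hw]; exact lt_max_of_lt_left (by linarith),
      (loc e _ (st e x hd)).2 ?_⟩⟩
    rcases h.po x hx with h4 | ⟨e', h4, h5⟩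
    · exact (p5 h3.le).trans_lt ((loc e x hd).1 h4)
    · obtain rfl := disj e e' x hd (by linarith)
      exact p6 h3.le ((le_max_left _ _).trans ((dn e x).ge.trans h4.le)) h5
  have out : ∀ x, (∃ e, dist x (y e) ≤ 4 * R ∧ Φ x = Ψ e x) ∨
      (Φ x = x ∧ ∀ e, 4 * R < dist x (y e)) := fun x => by
    by_cases hx : x ∈ ⋃ e, closedBall (y e) (4 * R)
    · obtain ⟨e, he⟩ := mem_iUnion.1 hx
      exact Or.inl ⟨e, he, e1 e he⟩
    · exact Or.inr ⟨hΦ.2 x hx, fun e => not_le.1 fun k => hx (mem_iUnion.2 ⟨e, k⟩)⟩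
  refine ⟨Φ '' B, Φ '' S, h.ball.image hΦ.1, (image_mono hB).trans (hΦ.image_eq hU).le, ?_, ?_,
    ⟨y o, h.yo, ?_⟩, ?_⟩
  · rintro _ ⟨x, hx, rfl⟩ hΓ
    rcases out x with ⟨e, h1, h2⟩ | ⟨h1, h2⟩
    · rw [h2] at hΓ ⊢
      rcases key e x hx h1 with ⟨-, h3, h4⟩ | ⟨h3, h4 | h4⟩
      · obtain ⟨e', h5⟩ := h.av x hx (h3 ▸ hΓ)
        obtain rfl := disj e e' x h1 (by linarith only [hR, hε, hεc, h5])
        linarith
      · exact ⟨e, wall e _ hΓ (st e x h1) h4.2⟩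
      · linarith [free e _ hΓ h4.1.le (st e x h1)]
    · obtain ⟨e, h3⟩ := h.av x hx (h1 ▸ hΓ)
      linarith [h2 e]
  · rintro _ ⟨x, hx, rfl⟩
    rcases out x with ⟨e, h1, h2⟩ | ⟨h1, h2⟩
    · rw [h2]
      rcases key e x hx h1 with ⟨h3, h4, -⟩ | ⟨-, h4 | h4⟩
      · rw [h4]
        refine Or.inl ((h.po x hx).resolve_right fun ⟨e', h5, h6⟩ => ?_)
        obtain rfl := disj e e' x h1 (by linarith only [hR, hε, hεc, h5])
        linarith
      · exact Or.inr ⟨e, h4⟩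
      · exact Or.inl h4.2
    · rw [h1]
      exact Or.inl ((h.po x hx).resolve_right fun ⟨e, h5, _⟩ => by linarith [h2 e])
  · have h0 : dist (y o) (y o) ≤ c := by rw [dist_self]; exact c0.le
    rw [e1 o (mem_closedBall_self (by linarith))]
    have h1 := (hΨ' o (y o)).2.2.2.1 (h.sh o _ h.yo h0) (by
      rw [sub_self, show hz (i o) (0 : Rn 3) = 0 by simp [hz], norm_zero]
      exact (hr o).1.le)
    funext l
    by_cases hl : l = i o
    · rw [hl, h1]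
    · simpa [hz, hl] using congrFun (hΨ' o (y o)).1 l
  · rintro e _ ⟨x, hx, rfl⟩ hd
    have q0 := hr e
    rcases out x with ⟨e', h1, h2⟩ | ⟨h1, h2⟩
    · rw [h2] at hd ⊢
      obtain rfl := disj e e' _ (by linarith only [hR, hε, hεc, q0, hd]) (st e' x h1)
      rcases key e x hx h1 with ⟨-, h3, h4⟩ | ⟨-, h4 | h4⟩
      · rw [h3] at hd
        linarith only [hε, hεc, q0, hd, h4]
      · exact h4.2
      · linarith [h4.1]
    · rw [h1] at hd
      linarith only [hR, hε, hεc, hd, q0, h2, h2 e]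

end BEp
end
end

-- merged part: Pool.Agent.Work.MP_f0515e_an.D3.BStar
section
/-! EXPORT (star balls, owner h31). -/

open Set Metric Filter Topology Function BEv
open scoped NNReal

noncomputable section
namespace BEp

variable {ι : Type} [Finite ι] {Po : Set (Rn 3)} {i : ι → Fin 3} {σ : ι → ℝ}

theorem BCo.star {a : ι → ℝ × ℂ} {h : ℝ × ℂ → Rn 3} {k : Rn 3 → ℝ × ℂ} {δ Q : ℝ} {o : ι}
    (H : BCo h k Po a i σ δ Q) (ao : a o = (1, 0)) : ∃ r₀ > 0, ∀ r : ι → ℝ,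
      (∀ e, 0 < r e ∧ r e ≤ r₀) → ∃ B S, StarBall h (thickening δ (bSt a)) Po 0 a i σ r B S := by
  obtain ⟨R, s, L, m, W⟩ := exists_bwd H ao
  have R0 := W.R0
  have RQ := W.RQ
  obtain ⟨δ₁, d0, d1, d2⟩ := H.thin' R0
  obtain ⟨r, c, ρ, G, r1, g1, g2, g3⟩ := exists_pl H W d0
  obtain ⟨g, g4, g5⟩ := b_exists_ret H W r1 g1
    (fun x hx => ⟨thickening_mono d1 _ (g2 hx).1, (g2 hx).2⟩) (fun x hx => d2 _ (g2 hx).1) g3
  obtain ⟨c₀, c0, c1, hd⟩ := exists_disc H W r1 g4 g5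
  refine ⟨c₀ / 2, half_pos c0, fun t ht => ?_⟩
  have : ∀ e, ∀ᶠ ε in 𝓝[>] (0 : ℝ), ∀ x ∈ bGa h a δ, t e ≤ dist x (h (a e)) →
      dist x (h (a e)) ≤ 4 * R → 3 * ε < |x (i e) - h (a e) (i e)| := fun e => by
    obtain ⟨ε, ε0, hε⟩ := H.free (ht e).1
    filter_upwards [Ioo_mem_nhdsGT ε0] with ε' h1 x hx h2 h3
    linarith only [hε, hx, h2, RQ, h3, h1, hε e x hx h2 (by linarith), h1.2]
  obtain ⟨ε, e1, e2⟩ := ((eventually_all.2 this).and
    (Ioo_mem_nhdsGT (by positivity : 0 < c₀ / 3))).exists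
  obtain ⟨u, B, S, P⟩ := hd ε e2.1
  obtain ⟨B', S', P'⟩ := exists_push P (ball_sub_star H.hc H.kc (fun q hq t ht => smul_thick hq ht)
    (fun q hq => H.kh q (thickening_subset_cthickening _ _ hq)) P.ball P.sub) H.sgn
    (fun e => ⟨(ht e).1, by linarith only [ht, (ht e).2]⟩) c1 e2.1 (by linarith [e2.2])
    (fun e e' x h1 h2 => H.disj e e' x (by linarith) (by linarith))
    (fun e x h1 => H.loc e x (by linarith)) W.sub e1
    fun e x hx h1 h2 => H.wall hx (by linarith) h2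
  exact ⟨B', S', H.final (fun e => ⟨(ht e).1, by linarith only [RQ, c1, e2, ht, (ht e).2]⟩) P'⟩

theorem star_ball [Nonempty ι] {f : Rn 3 → Rn 3} {U : Set (Rn 3)} {v : Rn 3} {d : ι → Rn 3}
    (H : StarIn f U Po v d i σ) : ∃ r₀ > 0, ∀ r : ι → ℝ, (∀ e, 0 < r e ∧ r e ≤ r₀) →
      ∃ B S, StarBall f U Po v d i σ r B S := by
  obtain ⟨o⟩ := ‹Nonempty ι›
  have h3 : Module.finrank ℝ (ℝ × ℂ) = 3 := by simp
  let A₀ : (ℝ × ℂ) ≃L[ℝ] Rn 3 := ContinuousLinearEquiv.ofFinrankEq (by simp)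
  obtain ⟨A₁, hA⟩ := SeparatingDual.exists_continuousLinearEquiv_apply_eq (R := ℝ)
    (x := A₀ (1, 0)) (y := d o) (by simp) (H.ne o)
  let A := A₀.trans A₁
  let a : ι → ℝ × ℂ := fun e => A.symm (d e)
  have ao : a o = (1, 0) := A.symm_apply_eq.2 hA.symm
  have e1 : ∀ e (t : ℝ), v + A (t • a e) = v + t • d e := fun e t => by simp [a]
  have e2 : ∀ e, v + A (a e) = v + d e := fun e => by simp [a]
  have cφ : Continuous fun q => v + A q := by fun_prop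
  obtain ⟨h, k, δ, Q, C, hU, hf⟩ := exists_bco h3 (f := fun q => f (v + A q))
    (U := (fun q => v + A q) ⁻¹' U) (a := a) (Po := Po) (i := i) (σ := σ)
    ⟨H.opn.preimage cφ, H.opn', H.cont.comp cφ.continuousOn fun _ hq => hq,
      fun _ hp _ hq e => A.injective (add_left_cancel (H.inj hp hq e)),
      fun e k => H.ne e (A.symm.map_eq_zero_iff.1 k),
      fun e e' t ht k => H.dir e e' t ht (A.symm.injective (k.trans (map_smul _ _ _).symm)),
      fun e t ht => by simpa only [zero_add, mem_preimage, e1] using H.leg e t ht,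
      fun e t ht => by simpa only [zero_add, e1] using H.inn e t ht, H.sgn,
      fun e => by simpa only [zero_add, e1, e2] using H.out e,
      fun e => by simpa only [zero_add, e2] using H.loc e⟩
  obtain ⟨r₀, r0, hr⟩ := C.star ao
  refine ⟨r₀, r0, fun r h1 => ?_⟩
  obtain ⟨B, S, P⟩ := hr r h1
  have e3 : ∀ e, ∀ t ∈ Icc (0 : ℝ) 1, h (0 + t • a e) = f (v + t • d e) := fun e t ht => by
    rw [zero_add, hf (self_subset_cthickening _ (mem_bSt e ht)), ← e1]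
  have e4 : ∀ e, h (0 + a e) = f (v + d e) := fun e => by
    simpa only [one_smul] using e3 e 1 ⟨zero_le_one, le_rfl⟩
  have e5 : ∀ x ∈ B, ∃ q ∈ thickening δ (bSt a), v + A q ∈ U ∧ h q = x ∧ f (v + A q) = x :=
    fun x hx => by
      obtain ⟨q, hq, rfl⟩ := P.sub hx
      have := thickening_subset_cthickening _ _ hq
      exact ⟨q, hq, hU this, rfl, (hf this).symm⟩
  refine ⟨B, S, P.ball, fun x hx => ?_, by simpa only [e4] using P.inn,
    by simpa only [e4] using P.flat, by simpa only [e4] using P.half,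
    by simpa only [e4] using P.loc, fun e t ht => e3 e t (Ico_subset_Icc_self ht) ▸ P.leg e t ht,
    fun e t ht hm hB => ?_, by simpa only [e4] using P.disj⟩
  · obtain ⟨q, -, h2, -, h4⟩ := e5 x hx
    exact ⟨_, h2, h4⟩
  · obtain ⟨q, h2, h3, h4, h5⟩ := e5 _ hB
    obtain rfl : q = t • a e := A.injective (add_left_cancel ((H.inj h3 hm h5).trans (e1 e t).symm))
    exact P.ray e t ht (by rwa [zero_add]) (by rwa [zero_add, h4])

end BEp
end
end

-- merged part: Pool.Agent.Work.MP_f0515e_an.D3.GBd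
section
/-! Thin beads: the whole family of beads.

Plan. `rad`: for an edge `s` put `p = g (m s)`. The union of the closed cells of dimension at most one
other than `s`, the set of the other marks and the finite union of the fat beads at vertices which are
not ends of `s` have relatively closed images missing `p` (`GEmb_closed`, `lf_cl`, `FatK.star`); take
`ρ s` below a third of the distance to the other marks' images and below the other distances;
`fac` and `gate` give the rest. For the side condition: a point of `s` lies on `segment v (m s)` or beyond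
`m s`; the points beyond at parameter near 1 are on the far side (`fac`), the others have image at a
positive distance from `p`.
`thin_beads`: `A v = g '' star v ∪ ⋃ (closedBall p (ρ s) ∩ box v)` is compact; for `v ≠ w` in `Th` with
the same box `A v ∩ A w = ∅` (a common edge is impossible: both legs lie in the open box, but the
points just beyond `m s` seen from `v` are outside). Finitely many `w` share the box of `v` (`lf`).
`Po v = interior (box v) ∩ {x | ∀ such w, infDist x (A v) < infDist x (A w)}` is open.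
`star_ball` with `U = Ω`, index type `{s // K.Fl v s}` (finite by `lf_cl`, nonempty by `exists_up`),
`d s = m s - v`, gives `r₀ v`; `r s` = a positive number below `ρ s` and `r₀ v` for the (at most two)
ends `v ∈ Th` of `s`. `M s = r s •` (coordinate swap of `2` and `kk s`) for `s ∉ In` (`frame`), `b0.M s`
for `s ∈ In`; `Φ v` from `StarBall.ball` for `v ∈ Th`. `star`: a point `y` of the skeleton lies on a leg
`(w, s')` (`leg_cover`); if `g y ∈ Po v` then `w ∈ Th` (`far`, `sin`), the boxes agree (`dis`) and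
`g y ∈ A w`, so `w = v`; if `g y` is in a square then `y = m s` by `rad`. `meet`: four cases. -/

open Set Metric Filter Topology Function BEv
open scoped NNReal ENNReal

noncomputable section
namespace BEp

variable {Ω : Set (Rn 3)} {K : Kx Ω} {g : Rn 3 → Rn 3} {Th F : Set (Rn 3)}
  {kk : Set (Rn 3) → Fin 3} {lo hi : Rn 3 → Rn 3} {In : Set (Set (Rn 3))} {b0 : BdD}

theorem GBd_frame (k : Fin 3) {r : ℝ} (hr : 0 < r) : ∃ M : Rn 3 ≃L[ℝ] Rn 3,
    (∀ y, ‖M y‖ = r * ‖y‖) ∧ (∀ y, M y k = r * y 2) ∧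
      ∀ p, (fun y => p + M y) '' flat 2 = fsq p k r := by
  let L : Rn 3 ≃ₗ[ℝ] Rn 3 :=
    { toFun := fun y j => r * y (Equiv.swap 2 k j)
      invFun := fun y j => r⁻¹ * y (Equiv.swap 2 k j)
      map_add' := fun x y => by ext j; simp [mul_add]
      map_smul' := fun c x => by ext j; simp; ring
      left_inv := fun y => by ext j; simp [hr.ne']
      right_inv := fun y => by ext j; simp [hr.ne'] }
  have h1 : ∀ y, ‖L y‖ = r * ‖y‖ := fun y => by
    refine le_antisymm ((pi_norm_le_iff_of_nonneg (by positivity)).2 fun j => ?_) ?_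
    · show ‖r * y (Equiv.swap 2 k j)‖ ≤ _
      rw [norm_mul, Real.norm_of_nonneg hr.le]
      exact mul_le_mul_of_nonneg_left (norm_le_pi_norm y _) hr.le
    · rw [← le_div_iff₀' hr]
      refine (pi_norm_le_iff_of_nonneg (by positivity)).2 fun j => ?_
      rw [le_div_iff₀' hr]
      have := norm_le_pi_norm (L y) (Equiv.swap 2 k j)
      change ‖r * y (Equiv.swap 2 k (Equiv.swap 2 k j))‖ ≤ _ at this
      rwa [Equiv.swap_apply_self, norm_mul, Real.norm_of_nonneg hr.le] at this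
  have h2 : ∀ y, L y k = r * y 2 := fun y => by
    show r * y (Equiv.swap 2 k k) = _
    rw [Equiv.swap_apply_right]
  refine ⟨L.toContinuousLinearEquiv, h1, h2, fun p => ?_⟩
  ext x
  constructor
  · rintro ⟨y, ⟨k1, k2⟩, rfl⟩
    refine ⟨?_, ?_⟩
    · show dist (p + L y) p ≤ r
      rw [dist_self_add_left, h1]
      linarith only [hr, k1, mul_nonneg_of_nonpos_of_nonpos (le_of_lt (Mathlib.Tactic.Linarith.sub_neg_of_lt hr)) (Mathlib.Tactic.Linarith.sub_nonpos_of_le k1)]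
    · show p k + L y k = p k
      rw [h2, k2, mul_zero, add_zero]
  · rintro ⟨k1, k2⟩
    have e : L (L.symm (x - p)) = x - p := L.apply_symm_apply _
    refine ⟨L.symm (x - p), ⟨?_, ?_⟩, ?_⟩
    · have := h1 (L.symm (x - p))
      rw [e, ← dist_eq_norm] at this
      nlinarith
    · have := h2 (L.symm (x - p))
      rw [e, Pi.sub_apply, k2, sub_self] at this
      exact (mul_eq_zero.1 this.symm).resolve_left hr.ne'
    · show p + L (L.symm (x - p)) = x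
      rw [e, add_sub_cancel]

theorem GBd_push (hc : ContinuousOn g Ω) (hi : InjOn g Ω) (hΩ : IsOpen Ω) {x : Rn 3}
    (hx : x ∈ Ω) {Q : Rn 3 → Prop} (h : ∀ᶠ y in 𝓝 x, Q y) :
    ∀ᶠ z in 𝓝 (g x), ∀ y ∈ Ω, g y = z → Q y := by
  obtain ⟨U, h1, h2, h3⟩ := _root_.mem_nhds_iff.1 (h.and (hΩ.mem_nhds hx))
  have hs : U ⊆ Ω := fun y hy => (h1 hy).2
  filter_upwards [(GEmb_open hc hi h2 hs).mem_nhds ⟨x, h3, rfl⟩]
  rintro _ ⟨u, hu, rfl⟩ y hy e
  rw [hi hy (hs hu) e]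
  exact (h1 hu).1

theorem GBd_near (hΩ : IsOpen Ω) {s : Set (Rn 3)} (hs : s ∈ K.cel 1) {x : Rn 3} (hx : x ∈ s) :
    ∀ᶠ y in 𝓝 x, y ∈ K.sk 1 → y ∈ s := by
  filter_upwards [Kx.near (K := K) hΩ (Kx.cells_sub hs.1 hx)] with y hy k
  have h1 := K.cell_mem hy.1
  by_cases e : s = K.cell y
  · exact e ▸ K.mem y hy.1
  · have := Kx.dm_lt h1 hs.1 (Kx.front hs.1 h1 ⟨x, hx, hy.2⟩) e
    have := hs.2
    have := k.2
    omega

theorem GBd_ends (s : Set (Rn 3)) : {v | K.Fl v s}.Finite := by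
  by_cases hs : s ∈ K.cel 1
  · obtain ⟨a, c, he, rfl⟩ := Kx.dm_one hs.1 hs.2
    refine (toFinite {a, c}).subset fun v hv => ?_
    rcases Kx.KA2_cases he (he.cl ▸ hv.2.2.2) with k | k
    · exact k.1
    · have := k.2
      rw [hv.2.1, KA2_single] at this
      omega
  · exact finite_empty.subset fun v hv => (hs hv.2.2.1).elim

theorem GBd_fin (hΩ : IsOpen Ω) (v : Rn 3) : {s | K.Fl v s}.Finite := by
  by_cases hv : v ∈ Ω
  · exact (Kx.lf_cl (K := K) hΩ isCompact_singleton (singleton_subset_iff.2 hv)).subset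
      fun s hs => ⟨hs.2.2.1.1, v, hs.2.2.2, rfl⟩
  · exact finite_empty.subset fun s hs => (hv hs.1).elim

theorem GBd_ex (hΩ : IsOpen Ω) {v : Rn 3} (hv : K.Vx v) : ∃ s, K.Fl v s := by
  obtain ⟨τ, k1, k2⟩ := Kx.exists_up (d := 1) hΩ (K.cell_mem hv.1)
    (by rw [hv.2, KA2_single]; norm_num) (by norm_num)
  exact ⟨τ, hv.1, hv.2, k1, k2 (K.mem v hv.1)⟩

theorem GBd_ne {v p : Rn 3} {s : Set (Rn 3)} (h : K.Fl v s) (hp : p ∈ s) : v ≠ p := by
  rintro rfl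
  have h1 := h.2.2.1.2
  rw [← Kx.cell_eq h.2.2.1.1 hp, h.2.1, KA2_single] at h1
  omega

theorem GBd_sk {v p : Rn 3} {s : Set (Rn 3)} (h : K.Fl v s) (hp : p ∈ s) :
    segment ℝ v p ⊆ K.sk 1 :=
  ((Kx.cells_cvx h.2.2.1.1).closure.segment_subset h.2.2.2 (subset_closure hp)).trans
    (Kx.cl_sub_sk h.2.2.1.1 h.2.2.1.2.le)

theorem GBd_msk {p : Rn 3} {s : Set (Rn 3)} (h : s ∈ K.cel 1) (hp : p ∈ s) : p ∈ K.sk 1 :=
  Kx.cl_sub_sk h.1 h.2.le (subset_closure hp)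

theorem GBd_int {a c x : Rn 3} : x ∈ interior (Icc a c) ↔ ∀ k, a k < x k ∧ x k < c k := by
  rw [← Set.pi_univ_Icc, interior_pi_set finite_univ]
  simp

theorem GBd_lt {m : Set (Rn 3) → Rn 3} (h : BoxK K g m Th F kk lo hi) {v : Rn 3} (hv : v ∈ Th)
    (k : Fin 3) : lo v k < g v k ∧ g v k < hi v k := by
  obtain ⟨s, hs⟩ := GBd_ex h.opn (h.vx v hv)
  exact h.inb v hv s hs v (left_mem_segment ℝ _ _) (GBd_ne hs (h.mk' s hs.2.2.1)) k

theorem GBd_side {m : Set (Rn 3) → Rn 3} (h : BoxK K g m Th F kk lo hi) {v : Rn 3} (hv : v ∈ Th)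
    {s : Set (Rn 3)} (hs : K.Fl v s) : ∀ᶠ y in 𝓝 (m s), y ∈ K.sk 1 → g y ∈ Icc (lo v) (hi v) →
      y ∈ segment ℝ v (m s) := by
  have hm := h.mk' s hs.2.2.1
  obtain ⟨σ, h1, h2⟩ := (h.fac v hv s hs).2
  obtain ⟨u, hu, h3⟩ := mem_nhdsGT_iff_exists_Ioo_subset.1 h2
  have hu : 1 < u := hu
  have hd : 0 < ‖m s - v‖ := norm_pos_iff.2 (sub_ne_zero.2 (GBd_ne hs hm).symm)
  filter_upwards [GBd_near h.opn hs.2.2.1 hm,
    ball_mem_nhds (m s) (mul_pos (sub_pos.2 hu) hd)] with y k1 k2 k3 k4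
  obtain ⟨w, -, e⟩ := GLeg_fl hs
  have k5 := k1 k3
  obtain ⟨t, ht, e1⟩ : ∃ t : ℝ, 0 < t ∧ y = v + t • (m s - v) := by
    generalize m s = p at hm
    rw [e, ← seg_image_open] at hm k5
    obtain ⟨a, ha, rfl⟩ := hm
    obtain ⟨c, hc, rfl⟩ := k5
    refine ⟨c / a, div_pos hc.1 ha.1, ?_⟩
    simp only [seg, add_sub_cancel_left, smul_smul, div_mul_cancel₀ _ ha.1.ne']
  rcases le_or_gt t 1 with k | k
  · rw [← seg_image]
    exact ⟨t, ⟨ht.le, k⟩, e1.symm⟩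
  · exfalso
    have e2 : y - m s = (t - 1) • (m s - v) := by rw [e1]; module
    rw [mem_ball, dist_eq_norm, e2, norm_smul, Real.norm_of_nonneg (sub_pos.2 k).le] at k2
    have k6 : t < u := by linarith only [k2, hd, lt_of_mul_lt_mul_right k2 hd.le]
    have k7 := h3 ⟨k, k6⟩
    simp only [mem_ofPred_eq, ← e1] at k7
    rcases h1 with ⟨rfl, k8⟩ | ⟨rfl, k8⟩
    · linarith [k4.2 (kk s)]
    · linarith [k4.1 (kk s)]

theorem GBd_rad (h : BoxK K g b0.m Th F kk lo hi) (hf : FatK K g Th F kk In b0) :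
    ∃ ρ : Set (Rn 3) → ℝ, (∀ s, 0 < ρ s) ∧
      (∀ s ∈ K.cel 1, ∀ s' ∈ K.cel 1, s ≠ s' →
        Disjoint (closedBall (b0.p g s) (ρ s)) (closedBall (b0.p g s') (ρ s'))) ∧
      (∀ s ∈ K.cel 1, ∀ y ∈ K.sk 1, g y ∈ closedBall (b0.p g s) (ρ s) → y ∈ s) ∧
      (∀ s ∈ K.cel 1, ∀ w, K.Vx w → w ∉ Th →
        (closedBall (b0.p g s) (ρ s) ∩ b0.B w).Nonempty → K.Fl w s) ∧
      (∀ v s, K.Fl v s → v ∉ Th → s ∉ In → ∀ z ∈ closedBall (b0.p g s) (ρ s),
        (z ∈ b0.S v ↔ z (kk s) = b0.p g s (kk s))) ∧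
      (∀ v ∈ Th, ∀ s, K.Fl v s → ∀ z ∈ closedBall (b0.p g s) (ρ s), ∀ k,
        (k ≠ kk s ∨ lo v k ≠ b0.p g s k → lo v k < z k) ∧
        (k ≠ kk s ∨ hi v k ≠ b0.p g s k → z k < hi v k)) ∧
      ∀ v ∈ Th, ∀ s, K.Fl v s → ∀ y ∈ K.sk 1, g y ∈ closedBall (b0.p g s) (ρ s) →
        g y ∈ Icc (lo v) (hi v) → y ∈ segment ℝ v (b0.m s) := by
  have key : ∀ s, ∃ ε : ℝ, 0 < ε ∧ (s ∈ K.cel 1 → ∀ z ∈ ball (b0.p g s) ε,
      (∀ y ∈ K.sk 1, g y = z → y ∈ s) ∧
      (∀ w, K.Vx w → w ∉ Th → z ∈ b0.B w → K.Fl w s) ∧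
      ∀ v, K.Fl v s → (v ∉ Th → s ∉ In → (z ∈ b0.S v ↔ z (kk s) = b0.p g s (kk s))) ∧
        (v ∈ Th → (∀ k, (k ≠ kk s ∨ lo v k ≠ b0.p g s k → lo v k < z k) ∧
          (k ≠ kk s ∨ hi v k ≠ b0.p g s k → z k < hi v k)) ∧
          ∀ y ∈ K.sk 1, g y = z → g y ∈ Icc (lo v) (hi v) → y ∈ segment ℝ v (b0.m s))) := by
    intro s
    by_cases hs : s ∈ K.cel 1
    swap
    · exact ⟨1, one_pos, fun k => absurd k hs⟩
    have hm := h.mk' s hs
    have hΩ := Kx.cells_sub hs.1 hm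
    suffices k : ∀ᶠ z in 𝓝 (b0.p g s), _ from
      let ⟨ε, k1, k2⟩ := Metric.eventually_nhds_iff_ball.1 k; ⟨ε, k1, fun _ => k2⟩
    refine Eventually.and ?_ (Eventually.and ?_ ?_)
    · filter_upwards [GBd_push h.cont h.inj h.opn hΩ (GBd_near h.opn hs hm)] with z hz y hy e
      exact hz y hy.1 e hy
    · have : ∀ᶠ z in 𝓝 (b0.p g s), ∀ w ∈ {v | K.Vx v ∧ v ∉ Th}, z ∈ b0.B w → K.Fl w s := by
        refine (eventually_all_finite hf.fin).2 fun w hw => ?_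
        by_cases k : b0.p g s ∈ b0.B w
        · obtain ⟨s', k1, k2⟩ := hf.star w hw.1 hw.2 _ (GBd_msk hs hm) k
          rw [← seg_image] at k2
          obtain ⟨t, ht, e⟩ := k2
          have k3 := h.mk' s' k1.2.2.1
          have k4 : s' = s := by
            by_cases k0 : t = 0
            · rw [k0, GLeg_seg0] at e
              have h1 := hs.2
              rw [← Kx.cell_eq hs.1 hm, ← e, hw.1.2, KA2_single] at h1
              omega
            · rw [← GLeg_pos k1 k3 ht k0, e, Kx.cell_eq hs.1 hm]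
          exact Eventually.of_forall fun _ _ => k4 ▸ k1
        · have hc : IsClosed (b0.B w) :=
            ((isCompact_closedBall 0 1).image (hf.lh w hw.1 hw.2).tp.continuous).isClosed
          filter_upwards [hc.isOpen_compl.mem_nhds k] with z hz k' using absurd k' hz
      filter_upwards [this] with z hz w k1 k2 using hz w ⟨k1, k2⟩
    · refine (eventually_all_finite (GBd_ends (K := K) s)).2 fun v hv => ?_
      by_cases k : v ∈ Th
      · have k1 : ∀ᶠ z in 𝓝 (b0.p g s), ∀ j, (j ≠ kk s ∨ lo v j ≠ b0.p g s j → lo v j < z j) ∧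
            (j ≠ kk s ∨ hi v j ≠ b0.p g s j → z j < hi v j) := by
          obtain ⟨h1, σ, h2, -⟩ := h.fac v k s hv
          have h3 := GBd_lt h k (kk s)
          refine eventually_all.2 fun j => Eventually.and ?_ ?_
          · refine eventually_imp_distrib_left.2 fun e => ?_
            refine (continuous_apply j).continuousAt.eventually (lt_mem_nhds ?_)
            by_cases e' : j = kk s
            · subst e'
              have e := e.resolve_left fun k => k rfl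
              rcases h2 with ⟨-, h2⟩ | ⟨-, h2⟩
              · exact (h3.1.trans h3.2).trans_eq h2.symm
              · exact absurd h2.symm e
            · exact (h1 j e').1
          · refine eventually_imp_distrib_left.2 fun e => ?_
            refine (continuous_apply j).continuousAt.eventually (gt_mem_nhds ?_)
            by_cases e' : j = kk s
            · subst e'
              have e := e.resolve_left fun k => k rfl
              rcases h2 with ⟨-, h2⟩ | ⟨-, h2⟩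
              · exact absurd h2.symm e
              · exact h2.trans_lt (h3.1.trans h3.2)
            · exact (h1 j e').2
        filter_upwards [k1, GBd_push h.cont h.inj h.opn hΩ (GBd_side h k hv)] with z h1 h2
        exact ⟨fun k' => absurd k k', fun _ => ⟨h1, fun y hy e => h2 y hy.1 e hy⟩⟩
      · by_cases k' : s ∈ In
        · exact Eventually.of_forall fun z => ⟨fun _ e => absurd k' e, fun e => absurd e k⟩
        · filter_upwards [hf.gate v s hv k k'] with z hz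
          exact ⟨fun _ _ => hz, fun e => absurd e k⟩
  choose ε h0 hε using key
  have hb : ∀ s, closedBall (b0.p g s) (ε s / 3) ⊆ ball (b0.p g s) (ε s) := fun s =>
    closedBall_subset_ball (by linarith only [h0, h0 s])
  have hd : ∀ s ∈ K.cel 1, ∀ s' ∈ K.cel 1, s ≠ s' → ε s ≤ dist (b0.p g s') (b0.p g s) := by
    intro s hs s' hs' e
    by_contra k
    have hm := h.mk' s' hs'
    have := (hε s hs _ (not_le.1 k)).1 _ (GBd_msk hs' hm) rfl
    exact e ((Kx.cell_eq hs.1 this).symm.trans (Kx.cell_eq hs'.1 hm))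
  refine ⟨fun s => ε s / 3, fun s => by linarith only [h0, h0 s], fun s hs s' hs' e => ?_,
    fun s hs y hy k => (hε s hs _ (hb s k)).1 y hy rfl,
    fun s hs w h1 h2 ⟨z, k1, k2⟩ => (hε s hs _ (hb s k1)).2.1 w h1 h2 k2,
    fun v s hv h1 h2 z hz => ((hε s hv.2.2.1 _ (hb s hz)).2.2 v hv).1 h1 h2,
    fun v h1 s hv z hz => (((hε s hv.2.2.1 _ (hb s hz)).2.2 v hv).2 h1).1,
    fun v h1 s hv y hy hz => (((hε s hv.2.2.1 _ (hb s hz)).2.2 v hv).2 h1).2 y hy rfl⟩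
  refine closedBall_disjoint_closedBall ?_
  have k1 := hd s hs s' hs' e
  have k2 := hd s' hs' s hs e.symm
  rw [dist_comm] at k1
  linarith only [k1, k2, h0, h0 s, h0 s']

theorem GBd_sep {A : Rn 3 → Set (Rn 3)} {R : Rn 3 → Rn 3 → Prop}
    (hc : ∀ v ∈ Th, IsClosed (A v) ∧ (A v).Nonempty) (hR : ∀ v w, R v w → R w v)
    (hfin : ∀ v ∈ Th, {w | w ∈ Th ∧ R v w}.Finite)
    (hd : ∀ v ∈ Th, ∀ w ∈ Th, v ≠ w → R v w → Disjoint (A v) (A w)) :
    ∃ O : Rn 3 → Set (Rn 3), (∀ v ∈ Th, IsOpen (O v) ∧ A v ⊆ O v) ∧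
      ∀ v ∈ Th, ∀ w ∈ Th, v ≠ w → R v w → Disjoint (O v) (O w) := by
  refine ⟨fun v => ⋂ w ∈ {w | w ∈ Th ∧ R v w} \ {v}, {x | infDist x (A v) < infDist x (A w)},
    fun v hv => ⟨((hfin v hv).subset sdiff_subset).isOpen_biInter fun w _ =>
      isOpen_lt (continuous_infDist_pt _) (continuous_infDist_pt _), fun x hx => ?_⟩,
    fun v hv w hw e k => disjoint_left.2 fun x h1 h2 => ?_⟩
  · refine mem_iInter₂.2 fun w hw => ?_
    show infDist x (A v) < infDist x (A w)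
    rw [infDist_zero_of_mem hx]
    exact ((hc w hw.1.1).1.notMem_iff_infDist_pos (hc w hw.1.1).2).1
      (disjoint_left.1 (hd v hv w hw.1.1 (Ne.symm hw.2) hw.1.2) hx)
  · have k1 : infDist x (A v) < infDist x (A w) := mem_iInter₂.1 h1 w ⟨⟨hw, k⟩, e.symm⟩
    have k2 : infDist x (A w) < infDist x (A v) := mem_iInter₂.1 h2 v ⟨⟨hv, hR _ _ k⟩, e⟩
    exact lt_asymm k1 k2

/-- Two ends of one edge do not have the same box. -/
theorem GBd_two {m : Set (Rn 3) → Rn 3} (h : BoxK K g m Th F kk lo hi) {v w : Rn 3} (hv : v ∈ Th)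
    (hw : w ∈ Th) {s : Set (Rn 3)} (hs : K.Fl v s) (hs' : K.Fl w s) (e1 : lo v = lo w)
    (e2 : hi v = hi w) : v = w := by
  have k1 : Tendsto (seg w (m s)) (𝓝[<] 1) (𝓝 (m s)) := by
    have := (tp_seg w (m s)).continuous.tendsto 1
    rw [GLeg_seg1] at this
    exact this.mono_left nhdsWithin_le_nhds
  obtain ⟨t, k2, k3⟩ := ((k1.eventually (GBd_side h hv hs)).and
    (Ioo_mem_nhdsLT (zero_lt_one' ℝ))).exists
  have hm := h.mk' s hs.2.2.1
  have k4 : seg w (m s) t ∈ segment ℝ w (m s) := seg_image w (m s) ▸ ⟨t, Ioo_subset_Icc_self k3, rfl⟩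
  have k5 : seg w (m s) t ≠ m s := fun e => by
    rcases GLeg_tri h.mk' hs' hs' (Ioo_subset_Icc_self k3) (right_mem_Icc.2 zero_le_one)
      (e.trans (GLeg_seg1 w (m s)).symm) with k | k | k
    · exact k3.1.ne' k.1
    · exact k3.2.ne k.1
    · exact k3.2.ne k.2.2
  have k6 := h.inb w hw s hs' _ k4 k5
  have k7 := k2 (GBd_sk hs' hm k4) (e1 ▸ e2 ▸ ⟨fun k => (k6 k).1.le, fun k => (k6 k).2.le⟩)
  rw [← seg_image] at k7
  obtain ⟨t', ht', e⟩ := k7
  rcases GLeg_tri h.mk' hs hs' ht' (Ioo_subset_Icc_self k3) e with k | k | k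
  · exact k.2.2
  · exact absurd k.2.1 k3.2.ne
  · exact k.1

theorem GBd_box {m : Set (Rn 3) → Rn 3} (h : BoxK K g m Th F kk lo hi) {v : Rn 3} (hv : v ∈ Th)
    {s : Set (Rn 3)} (hs : K.Fl v s) {y : Rn 3} (hy : y ∈ segment ℝ v (m s)) :
    g y ∈ Icc (lo v) (hi v) := by
  by_cases e : y = m s
  · subst e
    obtain ⟨h1, σ, h2, -⟩ := h.fac v hv s hs
    have h3 := GBd_lt h hv (kk s)
    have : ∀ k, lo v k ≤ g (m s) k ∧ g (m s) k ≤ hi v k := fun k => by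
      by_cases e : k = kk s
      · subst e
        rcases h2 with ⟨-, h2⟩ | ⟨-, h2⟩ <;> constructor <;> linarith only [h3, h2, h3.1, h3.2]
      · exact ⟨(h1 k e).1.le, (h1 k e).2.le⟩
    exact ⟨fun k => (this k).1, fun k => (this k).2⟩
  · have := h.inb v hv s hs y hy e
    exact ⟨fun k => (this k).1.le, fun k => (this k).2.le⟩

theorem GBd_open {m : Set (Rn 3) → Rn 3} (h : BoxK K g m Th F kk lo hi) :
    ∃ O : Rn 3 → Set (Rn 3), (∀ v ∈ Th, IsOpen (O v) ∧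
      ∀ s, K.Fl v s → g '' segment ℝ v (m s) ⊆ O v) ∧
      ∀ v ∈ Th, ∀ w ∈ Th, v ≠ w → lo v = lo w ∧ hi v = hi w → Disjoint (O v) (O w) := by
  refine (GBd_sep (Th := Th) (A := fun v => ⋃ s ∈ {s | K.Fl v s}, g '' segment ℝ v (m s))
    (R := fun v w => lo v = lo w ∧ hi v = hi w) (fun v hv => ⟨?_, ?_⟩)
    (fun v w k => ⟨k.1.symm, k.2.symm⟩) (fun v hv => ?_) fun v hv w hw e k => ?_).imp
    fun O ⟨h1, h2⟩ => ⟨fun v hv => ⟨(h1 v hv).1, fun s hs =>
      (subset_biUnion_of_mem (u := fun s => g '' segment ℝ v (m s)) hs).trans (h1 v hv).2⟩, h2⟩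
  · refine (GBd_fin (K := K) h.opn v).isClosed_biUnion fun s hs => IsCompact.isClosed ?_
    refine IsCompact.image_of_continuousOn ?_
      (h.cont.mono ((GBd_sk hs (h.mk' s hs.2.2.1)).trans (K.sk_sub 1)))
    rw [← seg_image]
    exact isCompact_Icc.image (tp_seg _ _).continuous
  · obtain ⟨s, hs⟩ := GBd_ex h.opn (h.vx v hv)
    exact ⟨g v, mem_biUnion (t := fun s => g '' segment ℝ v (m s)) hs
      ⟨v, left_mem_segment ℝ _ _, rfl⟩⟩
  · refine (h.lf {g v} isCompact_singleton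
      (singleton_subset_iff.2 ⟨v, (h.vx v hv).1, rfl⟩)).subset fun w hw => ⟨hw.1, g v, ?_, rfl⟩
    rw [← hw.2.1, ← hw.2.2]
    exact ⟨fun k => (GBd_lt h hv k).1.le, fun k => (GBd_lt h hv k).2.le⟩
  · refine disjoint_left.2 fun x k1 k2 => e ?_
    obtain ⟨s, hs, y, hy, rfl⟩ := mem_iUnion₂.1 k1
    obtain ⟨s', hs', y', hy', e'⟩ := mem_iUnion₂.1 k2
    have := h.inj (GBd_sk hs' (h.mk' s' hs'.2.2.1) hy').1 (GBd_sk hs (h.mk' s hs.2.2.1) hy).1 e'
    subst this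
    rw [← seg_image] at hy hy'
    obtain ⟨t, ht, e1⟩ := hy
    obtain ⟨t', ht', e2⟩ := hy'
    rcases GLeg_tri h.mk' hs hs' ht ht' (e1.trans e2.symm) with j | j | j
    · exact j.2.2
    · exact GBd_two h hv hw hs (j.2.2 ▸ hs') k.1 k.2
    · exact j.1

theorem GBd_ball {m : Set (Rn 3) → Rn 3} (h : BoxK K g m Th F kk lo hi) {v : Rn 3} (hv : v ∈ Th)
    {O : Set (Rn 3)} (hO : IsOpen O) (hs : ∀ s, K.Fl v s → g '' segment ℝ v (m s) ⊆ O) :
    ∃ r₀ : ℝ, 0 < r₀ ∧ ∀ r : Set (Rn 3) → ℝ, (∀ s, K.Fl v s → 0 < r s ∧ r s ≤ r₀) →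
      ∃ Φ : Rn 3 → Rn 3, LH Φ ∧ Φ '' closedBall 0 1 ⊆ g '' Ω ∧
        (∀ x ∈ Φ '' closedBall 0 1, x ∈ interior (Icc (lo v) (hi v)) ∩ O ∨
          ∃ s, K.Fl v s ∧ x ∈ fsq (g (m s)) (kk s) (r s)) ∧ ∀ s, K.Fl v s →
        (∀ x, dist x (g (m s)) ≤ r s → (x ∈ Φ '' sphere 0 1 ↔ x (kk s) = g (m s) (kk s))) ∧
        (∀ t ∈ Ico (0 : ℝ) 1, g (v + t • (m s - v)) ∈ Φ '' closedBall 0 1 \ Φ '' sphere 0 1) ∧
        ∀ t : ℝ, 1 < t → v + t • (m s - v) ∈ Ω → g (v + t • (m s - v)) ∉ Φ '' closedBall 0 1 := by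
  have := (GBd_fin (K := K) h.opn v).to_subtype
  have : Nonempty {s | K.Fl v s} := let ⟨s, k⟩ := GBd_ex h.opn (h.vx v hv); ⟨⟨s, k⟩⟩
  choose σ h1 h2 using fun e : {s | K.Fl v s} => (h.fac v hv e e.2).2
  have hm : ∀ e : {s | K.Fl v s}, m e ∈ e.1 := fun e => h.mk' e e.2.2.2.1
  have hg : ∀ e : {s | K.Fl v s}, ∀ t ∈ Icc (0 : ℝ) 1, v + t • (m e - v) ∈ segment ℝ v (m e) :=
    fun e t ht => seg_image v (m e) ▸ ⟨t, ht, rfl⟩
  have H : StarIn g Ω (interior (Icc (lo v) (hi v)) ∩ O) v (fun e : {s | K.Fl v s} => m e - v)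
      (fun e => kk e) σ := by
    refine ⟨h.opn, isOpen_interior.inter hO, h.cont, h.inj,
      fun e => sub_ne_zero.2 (GBd_ne e.2 (hm e)).symm, fun e e' t ht k => ?_,
      fun e t ht => (GBd_sk e.2 (hm e) (hg e t ht)).1, fun e t ht => ?_,
      fun e => (h1 e).imp And.left And.left, fun e => ?_, fun e => ?_⟩
    · have k0 : 0 < 1 + t := by linarith
      have k1 := GLeg_pos e.2 (hm e) (t := 1 / (1 + t))
        ⟨by positivity, (div_le_one k0).2 (by linarith)⟩ (by positivity)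
      have k2 := GLeg_pos e'.2 (hm e') (t := 1 / (1 + t) * t)
        ⟨by positivity, by rw [one_div_mul_eq_div]; exact (div_le_one k0).2 (by linarith)⟩
        (by positivity)
      refine Subtype.ext ?_
      rw [← k1, ← k2, seg, seg, k, smul_smul]
    · have k := hg e t (Ico_subset_Icc_self ht)
      refine ⟨GBd_int.2 (h.inb v hv e e.2 _ k fun k' => ?_), hs e e.2 ⟨_, k, rfl⟩⟩
      have : (1 - t) • (m e - v) = 0 := by
        rw [sub_smul, one_smul, sub_eq_zero, sub_eq_iff_eq_add', k']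
      rcases smul_eq_zero.1 this with j | j
      · linarith only [j, ht, ht.2]
      · exact GBd_ne e.2 (hm e) (sub_eq_zero.1 j).symm
    · simpa only [add_sub_cancel] using h2 e
    · simp only [add_sub_cancel]
      have k1 := (h.fac v hv e e.2).1
      have k2 := GBd_lt h hv (kk e)
      have k3 : ∀ᶠ x in 𝓝 (g (m e)), ∀ k, k ≠ kk e → lo v k < x k ∧ x k < hi v k := by
        refine eventually_all.2 fun k => eventually_imp_distrib_left.2 fun j => ?_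
        exact ((continuous_apply k).continuousAt.eventually (lt_mem_nhds (k1 k j).1)).and
          ((continuous_apply k).continuousAt.eventually (gt_mem_nhds (k1 k j).2))
      have k4 := hO.mem_nhds (hs e e.2 ⟨_, right_mem_segment ℝ _ _, rfl⟩)
      have k5 : ∀ x : Rn 3, (∀ k, k ≠ kk e → lo v k < x k ∧ x k < hi v k) → x ∈ O →
          (x ∈ interior (Icc (lo v) (hi v)) ∩ O ↔ lo v (kk e) < x (kk e) ∧ x (kk e) < hi v (kk e)) :=
        fun x j1 j2 => ⟨fun j => GBd_int.1 j.1 _, fun j => ⟨GBd_int.2 fun k => by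
          by_cases e' : k = kk e
          · exact e' ▸ j
          · exact j1 k e', j2⟩⟩
      rcases h1 e with ⟨j1, j2⟩ | ⟨j1, j2⟩
      · filter_upwards [k3, k4, (continuous_apply (kk e)).continuousAt.eventually
          (lt_mem_nhds ((k2.1.trans k2.2).trans_eq j2.symm))] with x j3 j4 j5
        rw [k5 x j3 j4, j1, j2]
        exact ⟨fun j => by linarith [j.2], fun j => ⟨j5, by linarith⟩⟩
      · filter_upwards [k3, k4, (continuous_apply (kk e)).continuousAt.eventually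
          (gt_mem_nhds (j2.trans_lt (k2.1.trans k2.2)))] with x j3 j4 j5
        rw [k5 x j3 j4, j1, j2]
        exact ⟨fun j => by linarith [j.1], fun j => ⟨by linarith, j5⟩⟩
  obtain ⟨r₀, k0, k⟩ := star_ball H
  refine ⟨r₀, k0, fun r hr => ?_⟩
  obtain ⟨B, S, k1⟩ := k (fun e => r e) fun e => hr e e.2
  obtain ⟨Φ, k2, rfl, rfl⟩ := k1.ball
  refine ⟨Φ, k2, k1.sub, fun x hx => (k1.inn x hx).imp_right ?_, fun s hs =>
    ⟨?_, k1.leg ⟨s, hs⟩, k1.ray ⟨s, hs⟩⟩⟩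
  · rintro ⟨e, he⟩
    exact ⟨e, e.2, by simpa only [add_sub_cancel] using he⟩
  · simpa only [add_sub_cancel] using k1.flat ⟨s, hs⟩

theorem thin_beads (h : BoxK K g b0.m Th F kk lo hi) (hf : FatK K g Th F kk In b0) :
    ∃ b : BdD, Bead K g b ∧ b.m = b0.m ∧ (∀ v, v ∉ Th → b.Φ v = b0.Φ v) ∧
      InBox K g Th lo hi b := by
  classical
  obtain ⟨ρ, r0, r1, -, r3, r4, r5, r6⟩ := GBd_rad h hf
  obtain ⟨O, o1, o2⟩ := GBd_open h
  choose! r₀ a0 a1 using fun v (hv : v ∈ Th) => GBd_ball h hv (o1 v hv).1 (o1 v hv).2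
  have : ∀ s, ∃ r : ℝ, (0 < r ∧ r ≤ ρ s) ∧ ∀ v ∈ {v | K.Fl v s}, v ∈ Th → r ≤ r₀ v := fun s => by
    refine (Eventually.and (Ioc_mem_nhdsGT (r0 s)) ?_).exists
    refine (eventually_all_finite (GBd_ends s)).2 fun v _ => eventually_imp_distrib_left.2 fun hv => ?_
    filter_upwards [Ioc_mem_nhdsGT (a0 v hv)] with r hr using hr.2
  choose r c1 c2 using this
  choose! Φ f1 f2 f3 f4 using fun v (hv : v ∈ Th) => a1 v hv r fun s hs => ⟨(c1 s).1, c2 s v hs hv⟩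
  choose M m1 m2 m3 using fun s => GBd_frame (kk s) (c1 s).1
  let b : BdD := ⟨b0.m, fun s => if s ∈ In then b0.M s else M s,
    fun v => if v ∈ Th then Φ v else b0.Φ v⟩
  have eΦ : ∀ v, v ∉ Th → b.Φ v = b0.Φ v := fun v hv => if_neg hv
  have eΦ' : ∀ v ∈ Th, b.Φ v = Φ v := fun v hv => if_pos hv
  have eB : ∀ v, v ∉ Th → b.B v = b0.B v := fun v hv => by rw [BdD.B, eΦ v hv, BdD.B]
  have eS : ∀ v, v ∉ Th → b.S v = b0.S v := fun v hv => by rw [BdD.S, eΦ v hv, BdD.S]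
  have eB' : ∀ v ∈ Th, b.B v = Φ v '' closedBall 0 1 := fun v hv => by rw [BdD.B, eΦ' v hv]
  have eS' : ∀ v ∈ Th, b.S v = Φ v '' sphere 0 1 := fun v hv => by rw [BdD.S, eΦ' v hv]
  have eM : ∀ s ∈ In, b.M s = b0.M s := fun s hs => if_pos hs
  have eM' : ∀ s, s ∉ In → b.M s = M s := fun s hs => if_neg hs
  have hIn : ∀ v ∈ Th, ∀ s, K.Fl v s → s ∉ In := fun v hv s hs k => (hf.flt v s hs k).1 hv
  have eE : ∀ s, s ∉ In → b.E g s = fsq (g (b0.m s)) (kk s) (r s) := fun s hs => by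
    rw [BdD.E, eM' s hs]
    exact m3 s _
  have hq : ∀ s x, x ∈ fsq (g (b0.m s)) (kk s) (r s) → x ∈ closedBall (b0.p g s) (ρ s) :=
    fun s x hx => hx.1.trans (c1 s).2
  have hbox : ∀ v ∈ Th, ∀ s, K.Fl v s → ∀ x ∈ fsq (g (b0.m s)) (kk s) (r s),
      x ∈ Icc (lo v) (hi v) ∧ x ∉ interior (Icc (lo v) (hi v)) := fun v hv s hs x hx => by
    have k1 := r5 v hv s hs x (hq s x hx)
    have k2 := GBd_box h hv hs (right_mem_segment ℝ _ _)
    refine ⟨⟨fun k => ?_, fun k => ?_⟩, fun k => ?_⟩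
    · by_cases e : k = kk s
      · rw [e, hx.2]
        exact k2.1 _
      · exact ((k1 k).1 (Or.inl e)).le
    · by_cases e : k = kk s
      · rw [e, hx.2]
        exact k2.2 _
      · exact ((k1 k).2 (Or.inl e)).le
    · have k3 := GBd_int.1 k (kk s)
      rw [hx.2] at k3
      obtain ⟨σ, ⟨-, j⟩ | ⟨-, j⟩, -⟩ := (h.fac v hv s hs).2
      · exact k3.2.ne j
      · exact k3.1.ne' j
  have hsub : ∀ v ∈ Th, b.B v ⊆ Icc (lo v) (hi v) := fun v hv x hx => by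
    rw [eB' v hv] at hx
    rcases f3 v hv x hx with k | ⟨s, hs, k⟩
    · exact interior_subset k.1
    · exact (hbox v hv s hs x k).1
  have hfl : ∀ s (S : Set (Rn 3)), s ∉ In → (∀ x, dist x (g (b0.m s)) ≤ r s →
      (x ∈ S ↔ x (kk s) = g (b0.m s) (kk s))) → ∀ y : Rn 3, ‖y‖ ≤ 1 →
      (b.p g s + b.M s y ∈ S ↔ y 2 = 0) := fun s S hs k y hy => by
    rw [eM' s hs]
    show g (b0.m s) + M s y ∈ S ↔ _
    rw [k, Pi.add_apply, add_eq_left, m2, mul_eq_zero, or_iff_right (c1 s).1.ne']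
    rw [dist_self_add_left, m1]
    linarith only [hy, c1, (c1 s).1, mul_nonneg_of_nonpos_of_nonpos (Mathlib.Tactic.Linarith.sub_nonpos_of_le hy) (le_of_lt (Mathlib.Tactic.Linarith.sub_neg_of_lt (c1 s).left))]
  have hst : ∀ v ∈ Th, ∀ y ∈ K.sk 1, g y ∈ Φ v '' closedBall 0 1 →
      ∃ s, K.Fl v s ∧ y ∈ segment ℝ v (b0.m s) := fun v hv y hy k => by
    rcases f3 v hv _ k with k1 | ⟨s, hs, k1⟩
    · obtain ⟨w, s, hs, k2⟩ := Kx.leg_cover h.opn h.mk' hy
      have hw : w ∈ Th := by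
        by_contra hw
        exact disjoint_left.1 (h.far v hv) k1.1
          ((hf.sub w ⟨hs.1, hs.2.1⟩ hw).2 (hf.sin w s hs hw ⟨y, k2, rfl⟩))
      by_cases e : v = w
      · exact ⟨s, e ▸ hs, e ▸ k2⟩
      · exfalso
        rcases h.dis v hv w hw with j | j
        · exact disjoint_left.1 (o2 v hv w hw e j) k1.2 ((o1 w hw).2 s hs ⟨y, k2, rfl⟩)
        · exact disjoint_left.1 j k1.1 (GBd_box h hw hs k2)
    · exact ⟨s, hs, r6 v hv s hs y hy (hq s _ k1) (hbox v hv s hs _ k1).1⟩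
  have hmix : ∀ v ∈ Th, ∀ w, K.Vx w → w ∉ Th → ∀ x ∈ b.B v, x ∈ b.B w →
      ∃ s, K.Fl v s ∧ K.Fl w s ∧ x ∈ b.E g s := fun v hv w hw hw' x k1 k2 => by
    rw [eB' v hv] at k1
    rw [eB w hw'] at k2
    rcases f3 v hv _ k1 with k | ⟨s, hs, k⟩
    · exact absurd ((hf.sub w hw hw').2 k2) (disjoint_left.1 (h.far v hv) k.1)
    · exact ⟨s, hs, r3 s hs.2.2.1 w hw hw' ⟨x, hq s x k, k2⟩, eE s (hIn v hv s hs) ▸ k⟩
  have hpq : ∀ v ∈ Th, ∀ w ∈ Th, ∀ s, K.Fl w s → ∀ x ∈ fsq (g (b0.m s)) (kk s) (r s),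
      x ∉ interior (Icc (lo v) (hi v)) := fun v hv w hw s hs x hx k => by
    rcases h.dis v hv w hw with j | j
    · exact (hbox w hw s hs x hx).2 (j.1 ▸ j.2 ▸ k)
    · exact disjoint_left.1 j k (hbox w hw s hs x hx).1
  refine ⟨b, ⟨h.mk', fun v hΩ hc => ?_, fun v h1 w h2 h3 h4 e x hx => ?_, fun C h1 h2 => ?_⟩, rfl,
    eΦ, hsub, fun v hv s hs => ?_⟩
  · by_cases hv : v ∈ Th
    · refine ⟨eΦ' v hv ▸ f1 v hv, eB' v hv ▸ f2 v hv, fun s hs => ?_, fun s hs => ?_,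
        eB' v hv ▸ hst v hv, fun y hy k => ?_, fun s hs t _ k1 k2 => ?_⟩
      · exact hfl s _ (hIn v hv s hs) (eS' v hv ▸ (f4 v hv s hs).1)
      · rw [eB' v hv, ← seg_image]
        rintro _ ⟨_, ⟨t, ht, rfl⟩, rfl⟩
        rcases ht.2.eq_or_lt with rfl | k
        · rw [GLeg_seg1]
          exact image_mono sphere_subset_closedBall
            (((f4 v hv s hs).1 _ (by rw [dist_self]; exact (c1 s).1.le)).2 rfl)
        · exact ((f4 v hv s hs).2.1 t ⟨ht.1, k⟩).1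
      · rw [eS' v hv] at k
        obtain ⟨s, hs, k1⟩ := hst v hv y hy (image_mono sphere_subset_closedBall k)
        rw [← seg_image] at k1
        obtain ⟨t, ht, rfl⟩ := k1
        rcases ht.2.eq_or_lt with rfl | k2
        · exact ⟨s, hs, GLeg_seg1 _ _⟩
        · exact absurd k ((f4 v hv s hs).2.1 t ⟨ht.1, k2⟩).2
      · by_contra k
        exact (f4 v hv s hs).2.2 t (not_le.1 k) k1 (eB' v hv ▸ k2)
    · have hx : K.Vx v := ⟨hΩ, hc⟩
      refine ⟨eΦ v hv ▸ hf.lh v hx hv, eB v hv ▸ (hf.sub v hx hv).1, fun s hs => ?_,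
        fun s hs => eB v hv ▸ hf.sin v s hs hv, eB v hv ▸ hf.star v hx hv,
        eS v hv ▸ hf.mark v hx hv, fun s hs => eB v hv ▸ hf.ray v s hs hv⟩
      rw [eS v hv]
      by_cases k : s ∈ In
      · rw [eM s k]
        exact (hf.flt v s hs k).2
      · exact hfl s _ k fun x hx => r4 v s hs hv k x (hx.trans (c1 s).2)
  · by_cases hv : v ∈ Th <;> by_cases hw : w ∈ Th
    · rcases f3 v hv x (eB' v hv ▸ hx.1) with k | ⟨s, hs, k⟩ <;>
        rcases f3 w hw x (eB' w hw ▸ hx.2) with k' | ⟨s', hs', k'⟩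
      · exfalso
        rcases h.dis v hv w hw with j | j
        · exact disjoint_left.1 (o2 v hv w hw e j) k.2 k'.2
        · exact disjoint_left.1 j k.1 (interior_subset k'.1)
      · exact absurd k.1 (hpq v hv w hw s' hs' x k')
      · exact absurd k'.1 (hpq w hw v hv s hs x k)
      · by_cases j : s = s'
        · exact ⟨s, hs, j ▸ hs', eE s (hIn v hv s hs) ▸ k⟩
        · exact absurd (hq s' x k') (disjoint_left.1 (r1 s hs.2.2.1 s' hs'.2.2.1 j) (hq s x k))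
    · exact hmix v hv w ⟨h2, h4⟩ hw x hx.1 hx.2
    · obtain ⟨s, k1, k2, k3⟩ := hmix w hw v ⟨h1, h3⟩ hv x hx.2 hx.1
      exact ⟨s, k2, k1, k3⟩
    · obtain ⟨s, k0, k1, k2, k3⟩ := hf.meet v w ⟨h1, h3⟩ ⟨h2, h4⟩ hv hw e x
        ⟨eB v hv ▸ hx.1, eB w hw ▸ hx.2⟩
      refine ⟨s, k1, k2, ?_⟩
      rw [BdD.E, eM s k0]
      exact k3
  · refine (hf.fin.union (h.lf C h1 h2)).subset ?_
    rintro v ⟨k1, k2, x, k3, k4⟩
    by_cases hv : v ∈ Th
    · exact Or.inr ⟨hv, x, hsub v hv k3, k4⟩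
    · exact Or.inl ⟨⟨k1, k2⟩, hv⟩
  · rw [eE s (hIn v hv s hs)]
    exact disjoint_right.2 fun x hx => (hbox v hv s hs x hx).2

end BEp
end
end

-- merged part: Pool.Agent.Work.MP_f0515e_an.D3.GB
section
/-! The cone map on the one skeleton and its behaviour on each kind of edge.

Plan. `gb_exists`: `thin_beads` (with `boxK`, `fatK`; `D.b0.m = D.m`), `squeeze_all` with weights
`D.w (D.m s)` (`size`, `Wt.w0`), `Bead.g0`, `Alt.sk`.
`leg_fat`: `fat_fl`, `g0_leg`, `FatS.str`. `rig0`: the two legs of `FatS.rig`, `ctr`; an affine map sends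
segments to segments. `cho0`: the two legs of `cho`, `same` at the gates.
`leg_of`: `Alt.chain` (a parameter lies between two consecutive points of `U`). -/

open Set Metric Filter Topology Function BEv
open scoped NNReal ENNReal

noncomputable section
namespace BEp

variable {Ω : Set (Rn 3)} {ι : Type}

structure GB (K : Kx Ω) (f : Rn 3 → Rn 3) (d : TopD ι) (D : GlD Ω) (g2 : Rn 3 → Rn 3) (b : BdD)
    (g0 : Rn 3 → Rn 3) : Prop where
  gs : GS K f d D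
  c2 : ContinuousOn g2 Ω
  i2 : InjOn g2 Ω
  im2 : g2 '' Ω = f '' Ω
  bead : Bead D.K2 g2 b
  bm : b.m = D.m
  mk2 : ∀ s ∈ D.K2.cel 1, g2 (D.m s) = D.g (D.m s)
  fat : ∀ v, v ∉ D.Th → b.Φ v = D.t.Φ v
  thin : ∀ v ∈ D.Th, ∀ s, D.K2.Fl v s →
    b.Leg g2 v s \ {D.g (D.m s)} ⊆ interior (Icc (D.lo v) (D.hi v)) ∧
      ArcL (b.Leg g2 v s) (b.Φ v 0) (D.g (D.m s)) (2 * D.w (D.m s))
  inj0 : InjOn g0 (K.sk 1)
  cone : ∀ v s, D.K2.Fl v s → ∀ t ∈ Icc (0 : ℝ) 1,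
    g0 (seg v (b.m s) t) = b.Φ v (t • invFun (b.Φ v) (b.p g2 s))

variable {K : Kx Ω} {f : Rn 3 → Rn 3} {d : TopD ι} {D : GlD Ω} {g2 g0 : Rn 3 → Rn 3} {b : BdD}

theorem gb_exists [Finite ι] (h : TopIn K f d) : ∃ D g2 b g0, GB K f d D g2 b g0 := by
  obtain ⟨D, hD⟩ := gs_exists h
  obtain ⟨b1, h1, h2, h3, h4⟩ := thin_beads (b0 := D.b0) hD.boxK hD.fatK
  have e : b1.m = D.m := h2
  obtain ⟨g2, b, k1, k2, k3, k4, k5, k6, k7, k8⟩ := squeeze_all (b := b1) (e ▸ hD.boxK) h1 h4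
    (fun v hv hn => by
      have := (hD.fatK.sub v hv hn).2
      rwa [BdD.B, ← h3 v hn] at this)
    (w := fun s => D.w (D.m s)) (fun s => hD.wt.w0 _) fun v hv s hs => (hD.size hv hs).1
  obtain ⟨g0, l1, l2⟩ := k4.g0 h.opn k2
  rw [e] at k5 k6 k8
  exact ⟨D, g2, b, g0, hD, k1, k2, k3.trans hD.gim, k4, k5, k6,
    fun v hv => (k7 v hv).trans (h3 v hv), k8, hD.alt.sk ▸ l1, l2⟩

theorem GB.leg_fat (h : GB K f d D g2 b g0) {v y : Rn 3} (hv : v ∈ D.t.Cn) (hy : y ∈ D.t.ms v) :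
    g0 '' segment ℝ v y = segment ℝ (D.t.Φ v 0) (D.g y) ∧ g0 v = D.t.Φ v 0 ∧ g0 y = D.g y ∧
      g0 '' segment ℝ v y ⊆ D.t.B v := by
  obtain ⟨h1, h2⟩ := h.gs.fat_fl hv hy
  obtain ⟨k1, k2, k3, k4⟩ := h.bead.g0_leg h.cone h1
  have e : b.Φ v = D.t.Φ v := h.fat v fun k => k.2 hv
  have e2 : g2 y = D.g y := by
    have := h.mk2 _ h1.2.2.1
    rwa [h2] at this
  rw [← k1] at k2
  rw [BdD.Leg, BdD.p] at k1
  rw [BdD.B] at k2
  rw [h.bm, h2] at k1 k2 k4
  rw [e] at k1 k2 k3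
  rw [e2] at k1 k4
  exact ⟨k1.trans (h.gs.fat.str v hv y hy), k3, k4, k2⟩

theorem GB_un {p q y : Rn 3} (h : y ∈ segment ℝ p q) :
    segment ℝ p y ∪ segment ℝ q y = segment ℝ p q := by
  refine (union_subset ?_ ?_).antisymm ?_
  · exact (convex_segment p q).segment_subset (left_mem_segment ℝ _ _) h
  · exact (convex_segment p q).segment_subset (right_mem_segment ℝ _ _) h
  · rw [segment_symm ℝ p y, segment_symm ℝ q y]
    exact GAlt_split h

theorem GB_aff (B : Box 1) (p q : Rn 3) :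
    B.aff '' segment ℝ p q = segment ℝ (B.aff p) (B.aff q) := by
  rw [← seg_image, ← seg_image, image_image]
  refine image_congr fun t _ => ?_
  have e : p + t • (q - p) - B.c = (p - B.c) + t • ((q - B.c) - (p - B.c)) := by
    rw [sub_sub_sub_cancel_right, add_sub_right_comm]
  simp only [seg, Box.aff]
  rw [e, map_add, map_smul, map_sub B.A (q - B.c), add_sub_add_right_eq_sub, add_right_comm]

theorem GB.rig0 (h : GB K f d D g2 b g0) {i : ι} {p q : Rn 3} (he : K.Edge p q)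
    (hs : segment ℝ p q ⊆ (d.B i).Q d.s 8) :
    g0 '' segment ℝ p q = (d.B i).aff '' segment ℝ p q ∧ g0 p = (d.B i).aff p ∧
      g0 q = (d.B i).aff q := by
  obtain ⟨y, h1, -, h2, h3, z, h4, h5⟩ := h.gs.fat.rig i p q he hs
  have hp := hs (left_mem_segment ℝ p q)
  have hq := hs (right_mem_segment ℝ p q)
  obtain ⟨k1, k2, -⟩ := h.leg_fat ((h.gs.fat.cen p).2 (.inl ⟨i, hp, he.left.2⟩)) h2
  obtain ⟨l1, l2, -⟩ := h.leg_fat ((h.gs.fat.cen q).2 (.inl ⟨i, hq, he.right.2⟩)) h3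
  rw [h.gs.fat.ctr i p hp he.left.2] at k1 k2
  rw [h.gs.fat.ctr i q hq he.right.2] at l1 l2
  refine ⟨?_, k2, l2⟩
  have m : D.g y ∈ segment ℝ ((d.B i).aff p) ((d.B i).aff q) :=
    GB_aff _ p q ▸ ⟨z, openSegment_subset_segment ℝ _ _ h4, h5⟩
  rw [GB_aff, ← GB_un m, ← k1, ← l1, ← image_union, GB_un (openSegment_subset_segment ℝ _ _ h1)]

theorem GB.cho0 (h : GB K f d D g2 b g0) {c : Chd} (hc : c ∈ d.Ch) :
    g0 '' segment ℝ c.a c.b = segment ℝ (f c.a) (f c.b) ∧ g0 c.a = f c.a ∧ g0 c.b = f c.b := by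
  obtain ⟨h1, h2, h3, h4⟩ := h.gs.fat.cho c hc
  have hv : midpoint ℝ c.a c.b ∈ D.t.Cn := (h.gs.fat.cen _).2 (.inr ⟨c, hc, rfl⟩)
  have he := (h.gs.top.cedge c hc).1
  obtain ⟨k1, -, k2, -⟩ := h.leg_fat (y := c.a) hv (by rw [h1]; simp)
  obtain ⟨l1, -, l2, -⟩ := h.leg_fat (y := c.b) hv (by rw [h1]; simp)
  rw [h.gs.fat.same _ (he.seg_sub (left_mem_segment ℝ _ _)) fun _ => h2] at k1 k2
  rw [h.gs.fat.same _ (he.seg_sub (right_mem_segment ℝ _ _)) fun _ => h3] at l1 l2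
  refine ⟨?_, k2, l2⟩
  rw [segment_symm, segment_symm ℝ (D.t.Φ _ 0)] at k1 l1
  rw [← GB_un (openSegment_subset_segment ℝ _ _ h4), ← k1, ← l1, ← image_union,
    GB_un (openSegment_subset_segment ℝ _ _ (gf2_mid _ _))]

theorem GB.leg_of (h : GB K f d D g2 b g0) {p q x : Rn 3} (he : K.Edge p q)
    (hx : x ∈ segment ℝ p q) : ∃ v s, D.K2.Fl v s ∧ x ∈ segment ℝ v (D.m s) ∧
      segment ℝ v (D.m s) ⊆ segment ℝ p q := by
  obtain ⟨U, h1, h2, h3, h4⟩ := h.gs.alt.chain he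
  obtain ⟨t, ht, rfl⟩ := GAlt_par hx
  obtain ⟨u, hu, u', hu', k1, k2, k3, k4⟩ := GAlt_consec U.finite_toSet h2 h3 ht
  obtain ⟨v, s, l1, l2⟩ := h4 u hu u' hu' k1 k4
  have e : segment ℝ v (D.m s) = seg p q '' Icc u u' := by
    rw [← uIcc_of_le k1.le, ← GAlt_cs]
    rcases l2 with ⟨l2, l3⟩ | ⟨l2, l3⟩
    · rw [l2, l3]
    · rw [l2, l3, segment_symm]
  refine ⟨v, s, l1, e ▸ ⟨t, ⟨k2, k3⟩, rfl⟩, ?_⟩
  rw [e, ← seg_image]
  exact image_mono (Icc_subset_Icc (h1 hu).1 (h1 hu').2)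

end BEp
end
end

-- merged part: Pool.Agent.Work.MP_f0515e_an.D3.GP1
section
/-! Image, local finiteness and anchors of the cone map on the one skeleton.

Plan. `gV0`, `glf0`: a point of a closed cell `e` lies on a leg `(v, s)` meeting `closure e` and is mapped
into `B v` (`g0_leg`); `Bead.lf`; a vertex `v` of `K2` has finitely many legs (`lf_cl` for `K2`), each is compact and
meets finitely many closed cells of `K` (`lf_cl`).
`anc0`: a solid cell has an edge in its closure (`exists_facet` twice, `rb` is nonempty since a bounded open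
nonempty set is not closed; or `Kx.ball`), and a closed edge contains a mark `m s` (`Alt.chain` with two
consecutive points), `g0 (m s) = g2 (m s)`. -/

open Set Metric Filter Topology Function BEv
open scoped NNReal ENNReal

noncomputable section
namespace BEp

variable {Ω : Set (Rn 3)} {ι : Type} {K : Kx Ω} {f : Rn 3 → Rn 3} {d : TopD ι} {D : GlD Ω}
  {g2 g0 : Rn 3 → Rn 3} {b : BdD}

theorem GP1_leg (h : GB K f d D g2 b g0) {x : Rn 3} (hx : x ∈ K.sk 1) :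
    ∃ v s, D.K2.Fl v s ∧ x ∈ segment ℝ v (D.m s) ∧ g0 x ∈ b.B v := by
  obtain ⟨v, s, hl, k⟩ := h.gs.alt.cover h.gs.top.opn hx
  obtain ⟨e1, e2, -⟩ := h.bead.g0_leg h.cone hl
  exact ⟨v, s, hl, k, e2 (e1 ▸ ⟨x, h.bm ▸ k, rfl⟩)⟩

theorem GP1_facet {σ : Set (Rn 3)} (hσ : σ ∈ K.cells) (hd : 1 ≤ dm σ) :
    ∃ τ ∈ K.cells, dm τ + 1 = dm σ ∧ closure τ ⊆ closure σ := by
  obtain ⟨o, ho⟩ := Kx.cells_ne hσ
  obtain ⟨y, hy, -⟩ := Kx.radial hσ hd ho (subset_closure ho)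
  obtain ⟨τ, h1, h2, h3, -⟩ := Kx.exists_facet hσ hy.1 hy.2
  exact ⟨τ, h1, h2, closure_minimal h3 isClosed_closure⟩

theorem GB.gV0 (h : GB K f d D g2 b g0) : g0 '' K.sk 1 ⊆ f '' Ω := by
  rintro _ ⟨x, hx, rfl⟩
  obtain ⟨v, s, hl, -, k⟩ := GP1_leg h hx
  exact h.im2 ▸ (h.bead.one v hl.1 hl.2.1).sub k

theorem GB.glf0 (h : GB K f d D g2 b g0) {C : Set (Rn 3)} (hC : IsCompact C) (hs : C ⊆ f '' Ω) :
    {e | e ∈ K.cells ∧ dm e ≤ 1 ∧ (g0 '' closure e ∩ C).Nonempty}.Finite := by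
  have hΩ := h.gs.top.opn
  refine ((h.bead.lf C hC (h.im2 ▸ hs)).biUnion (t := fun v => ⋃ s ∈ {s | D.K2.Fl v s},
    {e | e ∈ K.cells ∧ (closure e ∩ segment ℝ v (D.m s)).Nonempty}) fun v hv =>
      Finite.biUnion ?_ fun s hl => ?_).subset ?_
  · exact (D.K2.lf_cl hΩ isCompact_singleton (singleton_subset_iff.2 hv.1)).subset
      fun s hl => ⟨hl.2.2.1.1, v, hl.2.2.2, rfl⟩
  · obtain ⟨p, q, he, k⟩ := h.gs.alt.leg v s hl
    exact K.lf_cl hΩ (poly_segment _ _).1 ((k.trans he.seg_sub).trans (K.sk_sub 1))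
  · rintro e ⟨h1, h2, _, ⟨x, hx, rfl⟩, hx'⟩
    obtain ⟨v, s, hl, k1, k2⟩ := GP1_leg h (Kx.cl_sub_sk h1 h2 hx)
    exact mem_iUnion₂.2 ⟨v, ⟨hl.1, hl.2.1, _, k2, hx'⟩, mem_iUnion₂.2 ⟨s, hl, h1, x, hx, k1⟩⟩

theorem GB.anc0 (h : GB K f d D g2 b g0) {P : Set (Rn 3)} (hP : P ∈ K.cel 3) :
    ∃ e ∈ K.cells, dm e ≤ 1 ∧ closure e ⊆ closure P ∧ ∃ x ∈ closure e, g0 x = g2 x := by
  have h3 := hP.2
  obtain ⟨c, c1, c2, c3⟩ := GP1_facet hP.1 (by omega)
  obtain ⟨e, e1, e2, e3⟩ := GP1_facet c1 (by omega)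
  obtain ⟨p, q, he, rfl⟩ := Kx.dm_one e1 (by omega)
  obtain ⟨v, s, hl, -, k⟩ := h.leg_of he (left_mem_segment ℝ p q)
  refine ⟨_, e1, he.dm.le, e3.trans c3, D.m s, he.cl ▸ k (right_mem_segment ..), ?_⟩
  exact h.bm ▸ (h.bead.g0_leg h.cone hl).2.2.2

end BEp
end
end

-- merged part: Pool.Agent.Work.MP_f0515e_an.D3.XG
section
/-! Position of the beads and size of the corrections of the target. -/

open Set Metric Filter Topology Function BEv
open scoped NNReal ENNReal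

noncomputable section
namespace BEp

section A
variable {Ω : Set (Rn 3)} {K : Kx Ω} {f : Rn 3 → Rn 3} {ι : Type} {d : TopD ι}

theorem xg_loc {L : ι → Rn 3 ≃L[ℝ] Rn 3} {r : RigD} (h : TopIn K f d) (hr : RgS K f d L r) 
    {i : ι} {v : Rn 3} (hv : RV K d i v) : ∀ z ∈ r.b.B v, ∃ x ∈ (d.B i).Q d.s 12,
      ‖x - v‖ ≤ 16 * d.s ∧ ‖z - (d.B i).aff x‖ ≤ d.ε i := by
  intro z hB
  obtain ⟨l, σ, ha, k1, k2, k3, k4, -⟩ := rgs_shape h hr hv hB
  obtain ⟨w0, -, -, -, -, e2⟩ := rig_small h i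
  obtain ⟨s1, s2, -⟩ := SRig5_sq ha.2.2.2
  set ζ := nc (d.B i) d.s (L i) z - d.s⁻¹ • v with hζ
  have hu : max (σ * ζ l) 0 ∈ Icc (0 : ℝ) 16 := ⟨le_max_right _ _, max_le (by linarith only [k3]) (by norm_num)⟩
  have hx : d.pt v l σ (max (σ * ζ l) 0) ∈ (d.B i).Q d.s 12 := by
    by_cases hi : d.pt v l σ 16 ∈ (d.B i).Q d.s 8
    · exact Box.Q_mono h.s0 (by norm_num)
        ((ine_iff h ha).2 ⟨ha, hi⟩ ((arm_edge h ha).2.2.2.1.ge ⟨_, hu, rfl⟩))
    · exact Box.Q_mono h.s0 (by linarith only [k4, ha, hi, max_le (k4 ⟨ha, hi⟩) (show (0 : ℝ) ≤ 4 by norm_num)])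
        ((arm_edge h ha).2.2.2.2.2 _ hu).2
  refine ⟨_, hx, ?_, ((hr.nm i).ge h.s0 _ _).trans (le_trans (mul_le_mul_of_nonneg_left ?_ ?_) e2)⟩
  · have hs := h.s0
    rw [TopD.pt, add_sub_cancel_left, norm_smul, Pi.norm_single, norm_one, mul_one,
      Real.norm_eq_abs, abs_mul, s2, mul_one, abs_of_nonneg (mul_nonneg hu.1 hs.le)]
    exact mul_le_mul_of_nonneg_right hu.2 hs.le
  · rw [(hr.nm i).aff hx.1, SRig5_sm h, ← sub_sub, ← hζ, norm_eq_hz l, sub_eq_add_neg, ← neg_smul,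
      pfill_hz_add]
    refine max_le k1 ?_
    have e : (ζ + -(max (σ * ζ l) 0 * σ) • (Pi.single l 1 : Rn 3)) l =
        σ * (σ * ζ l - max (σ * ζ l) 0) := by
      simp only [Pi.add_apply, Pi.smul_apply, Pi.single_eq_same, smul_eq_mul]
      linear_combination -ζ l * s1
    rw [e, abs_mul, s2, one_mul, abs_le]
    have e3 : max (σ * ζ l) 0 ≤ σ * ζ l + d.ww i := max_le (by linarith) (by linarith)
    exact ⟨by linarith, by linarith [le_max_left (σ * ζ l) 0]⟩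
  · have := h.s0
    positivity

theorem xg_rigid [Finite ι] (h : TopIn K f d) : ∃ r, Rig K f d r ∧ (∀ z, r.Θ z ≠ z →
    ∃ i, ∃ x ∈ (d.B i).Q d.s 8, ‖z - (d.B i).aff x‖ ≤ d.ε i ∧
      ‖r.Θ z - (d.B i).aff x‖ ≤ d.ε i) ∧ ∀ i v, RV K d i v → ∀ z ∈ r.b.B v,
      ∃ x ∈ (d.B i).Q d.s 12, ‖x - v‖ ≤ 16 * d.s ∧ ‖z - (d.B i).aff x‖ ≤ d.ε i := by
  obtain ⟨L, r, hr⟩ := rgs_exists h
  have Q24 : ∀ i, (d.B i).Q d.s 8 ⊆ (d.B i).Q d.s 24 := fun i => Box.Q_mono h.s0 (by norm_num)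
  refine ⟨r, ⟨hr.ths.lh, ths_img h hr.nm hr.mks hr.ths, ?_, ?_, ?_, ?_, ?_, ?_, ?_, ?_, ?_, ?_,
    ?_⟩, ?_, fun i v hv => xg_loc h hr hv⟩
  · intro z hz
    obtain ⟨i, h1, -⟩ := ths_supp h hr.nm hr.mks hr.ths hz
    exact ⟨i, h1⟩
  · exact fun y h1 h2 => ths_fix h hr.nm hr.mks hr.ths h1 h2
  · refine (Set.finite_iUnion fun i => lat_finite h i).subset ?_
    rintro v ⟨i, hv⟩
    exact mem_iUnion.2 ⟨i, hv.1, (rv_lat h (Q24 i hv.1)).1 hv.2⟩
  · intro i v hv s hs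
    obtain ⟨l, σ, ha, rfl⟩ := rv_fl h hv hs
    obtain ⟨t, ht, e, -⟩ := rgs_arm h hr ha
    rw [e, (arm_edge h ha).2.2.2.2.1]
    exact ⟨t, ⟨by linarith [ht.1], by linarith [ht.2]⟩, rfl⟩
  · exact fun i v hv => rgs_bd0 h hr hv
  · exact fun i v hv => (leg_of_hom (hr.lh i v hv) (hr.hom i v hv) 0).1
  · exact fun i v hv => rgs_loc h hr hv
  · intro i v hv s hs hc
    obtain ⟨l, σ, ha, rfl⟩ := rv_fl h hv hs
    exact rgs_inner h hr hv ((ine_iff h ha).1 hc)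
  · intro i v hv s hs hc
    obtain ⟨l, σ, ha, e⟩ := rv_fl h hv hs
    refine rgs_exit h hr hv ⟨ha, fun k => hc ?_⟩ e
    rw [e]
    exact (ine_iff h ha).2 ⟨ha, k⟩
  · exact fun i v hv i' w hw hne x hx => rgs_meet h hr hv hw hne hx
  · exact fun i x hx y h1 h2 h3 => rgs_far h hr hx h1 h2 h3
  · intro z hz
    obtain ⟨i, v, l, σ, t, -, -, k1, -, k2, k3, -⟩ := sr4_core h hr.nm hr.mks hr.ths hz
    exact ⟨i, _, k1, k2, k3⟩

/-- Position of the fat beads and size of the correction. -/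
structure FatX (f g : Rn 3 → Rn 3) (Ω : Set (Rn 3)) (d : TopD ι) (t : FatD) : Prop where
  mv : ∀ x ∈ Ω, g x = f x ∨ ∃ i, ∃ y ∈ (d.B i).Q d.s 8, ‖f x - (d.B i).aff y‖ ≤ d.ε i ∧
    ‖g x - (d.B i).aff y‖ ≤ d.ε i
  loc : ∀ v ∈ t.Cn, (∃ i, v ∈ (d.B i).Q d.s 8 ∧ ∀ z ∈ t.B v, ∃ x ∈ (d.B i).Q d.s 12,
    ‖x - v‖ ≤ 16 * d.s ∧ ‖z - (d.B i).aff x‖ ≤ d.ε i) ∨
    ∃ c ∈ d.Ch, v = midpoint ℝ c.a c.b ∧ t.B v = c.box f

theorem xg_fats [Finite ι] (h : TopIn K f d) :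
    ∃ Θ t, LH Θ ∧ Θ '' (f '' Ω) = f '' Ω ∧ FatS K f (Θ ∘ f) d t ∧
      FatX f (Θ ∘ f) Ω d t := by
  classical
  obtain ⟨r, hr, hX, hY⟩ := xg_rigid h
  choose! Ψ p1 p2 p3 p4 p5 using fun c (hc : c ∈ d.Ch) => fat_chord h hc
  have Q12 : ∀ i, (d.B i).Q d.s 8 ⊆ (d.B i).Q d.s 12 := fun i => Box.Q_mono h.s0 (by norm_num)
  have fx : ∀ c ∈ d.Ch, ∀ z ∈ c.box f, r.Θ z = z := fun c hc z hz => by
    by_contra k
    obtain ⟨i, x, hx, k⟩ := hr.supp z k
    exact gf2_cf h hc (Q12 i hx) hz k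
  have bd : ∀ v ∈ (gf2_t K d r Ψ).Cn,
      Bd0 K (r.Θ ∘ f) ((gf2_t K d r Ψ).Φ v) v ((gf2_t K d r Ψ).ms v) := by
    rintro v (⟨i, hv⟩ | ⟨c, hc, rfl⟩)
    · rw [(gf2_rv h hv).1, (gf2_rv h hv).2]; exact hr.bd i v hv
    · rw [(gf2_ch h hc).1, (gf2_ch h hc).2]
      exact (p1 c hc).congr hr.lh.inj fun z hz => fx c hc z (p2 c hc ▸ hz)
  have Br : ∀ i v, RV K d i v → (gf2_t K d r Ψ).B v = r.b.B v ∧ (gf2_t K d r Ψ).S v = r.b.S v :=
    fun i v hv => by simp only [FatD.B, FatD.S, BdD.B, BdD.S, (gf2_rv h hv).1, and_self]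
  have Bc : ∀ c ∈ d.Ch, (gf2_t K d r Ψ).B (midpoint ℝ c.a c.b) = c.box f :=
    fun c hc => by rw [FatD.B, (gf2_ch h hc).1, p2 c hc]
  have same : ∀ x ∈ K.sk 1, (x ∈ (gf2_t K d r Ψ).St → x ∈ (gf2_t K d r Ψ).Gt) →
      (r.Θ ∘ f) x = f x := fun x hx k => hr.fix x hx (gf2_Q8 h hr hx k)
  refine ⟨r.Θ, gf2_t K d r Ψ, hr.lh, hr.img,
    { fin := (hr.fin.union (h.cfin.image fun c => midpoint ℝ c.a c.b)).subset ?_
      cen := fun v => Iff.rfl
      mfin := fun v => ?_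
      edge := fun v hv y hy => gf2_edge h hr hv hy
      lh := fun v hv => (bd v hv).lh
      sub := fun v hv => (bd v hv).sub.trans (by rw [image_comp, hr.img])
      sin := fun v hv => (bd v hv).sin
      star := fun v hv => (bd v hv).star
      mark := fun v hv => (bd v hv).mark
      ray := fun v hv => (bd v hv).ray
      flt := ?_
      gsub := ?_
      gate := ?_
      meet := ?_
      same := same
      str := fun v hv => (bd v hv).leg
      ctr := fun i v h1 h2 => (congrFun (gf2_rv h ⟨h1, h2⟩).1 0).trans (hr.ctr i v ⟨h1, h2⟩)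
      rig := ?_
      ext := ?_
      cho := fun c hc => ⟨(gf2_ch h hc).2, .inr ⟨c, hc, .inl rfl⟩, .inr ⟨c, hc, .inr rfl⟩, by
        rw [(gf2_ch h hc).1, p3 c hc]; exact gf2_mid _ _⟩
      sq := ?_
      thq := ?_
      pla := ?_
      gcl := ?_
      icl := ?_ }, fun x _ => (em _).imp id (hX (f x)), ?_⟩
  · rintro v (hv | ⟨c, hc, rfl⟩)
    exacts [.inl hv, .inr ⟨c, hc, rfl⟩]
  · refine (((K.lf_cl h.opn (C := {v} ∩ Ω) ((finite_singleton v).inter_of_left Ω).isCompact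
      inter_subset_right).image r.b.m).union ((h.cfin.image Chd.a).union
        (h.cfin.image Chd.b))).subset ?_
    rintro m (⟨-, s, hs, rfl⟩ | ⟨c, hc, -, rfl | rfl⟩)
    exacts [.inl ⟨s, ⟨hs.2.2.1.1, v, hs.2.2.2, rfl, hs.1⟩, rfl⟩, .inr (.inl ⟨c, hc, rfl⟩),
      .inr (.inr ⟨c, hc, rfl⟩)]
  · rintro v - y (⟨⟨i, hv⟩, s, hs, rfl⟩ | ⟨c, hc, -, e⟩) hg z hz
    · have k := (hr.inner i v hv s hs (not_not.1 (mt (gf2_exit h hr hv hs).2 hg))).2 z hz
      rw [(Br i v hv).2]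
      show _ + r.b.M (K.cell _) z ∈ _ ↔ _
      rw [(gf2_mk hr hv hs).1]
      exact k
    · exact (hg (.inr ⟨c, hc, e⟩)).elim
  · rintro y (⟨i, v, s, hv, hs, -, e⟩ | k)
    exacts [gf2_Mk.2 (.inl ⟨i, v, s, hv, hs, e⟩), gf2_Mk.2 (.inr k)]
  · rintro v - y (⟨⟨i, hv⟩, s, hs, rfl⟩ | ⟨c, hc, rfl, e⟩) hg
    · have hc := (gf2_exit h hr hv hs).1 hg
      obtain ⟨k1, k2, -⟩ := hr.exit i v hv s hs hc
      have e : (r.Θ ∘ f) (r.b.m s) = f (r.b.m s) := hr.fix _ (Kx.cl_sub_sk hs.2.2.1.1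
        hs.2.2.1.2.le (subset_closure (hr.mk' i v hv s hs))) k1
      rw [(gf2_gate' h hr hv hs).1, (gf2_gate' h hr hv hs).2, e, (Br i v hv).1, (Br i v hv).2]
      refine ⟨k2.1, ?_, k2.2.mono fun z hz => hz.symm⟩
      rintro w - (⟨⟨i', hw⟩, s', hs', e'⟩ | ⟨c, hc', -, e'⟩)
      · have : s = s' := by rw [← (gf2_mk hr hv hs).1, e', (gf2_mk hr hw hs').1]
        exact gf2_one h hv hs hc hw (this ▸ hs'.2.2.2)
      · exact ((gf2_mk hr hv hs).2 (gf2_end h hc' e').1).elim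
    · have e1 : (r.Θ ∘ f) y = f y := fx c hc _ (h.cin c hc y (gf2_end h hc e).2)
      obtain ⟨g1, g2, g3, g4⟩ := gf2_gate (r := r) (Ψ := Ψ) h hc
      have k : Gate (Ψ c) (f y) ((gf2_t K d r Ψ).k y) ((gf2_t K d r Ψ).s y) := by
        rcases e with rfl | rfl
        · rw [g1, g3]; exact p4 c hc
        · rw [g2, g4]; exact p5 c hc
      rw [e1, FatD.B, FatD.S, (gf2_ch h hc).1]
      refine ⟨k.1, ?_, k.2.mono fun z hz => hz.symm⟩
      rintro w - (⟨⟨i', hw⟩, s', hs', rfl⟩ | ⟨c', hc', rfl, e'⟩)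
      · exact ((gf2_mk hr hw hs').2 (gf2_end h hc e).1).elim
      · rw [gf2_cu h hc hc' (gf2_end h hc e).2 (gf2_end h hc' e').2]
  · rintro v (⟨i, hv⟩ | ⟨c, hc, rfl⟩) w (⟨i', hw⟩ | ⟨c', hc', rfl⟩) hne x ⟨h1, h2⟩
    · rw [(Br i v hv).1] at h1
      rw [(Br i' w hw).1] at h2
      obtain ⟨s, k1, k2, -, k⟩ := hr.meet i v hv i' w hw hne x ⟨h1, h2⟩
      refine ⟨r.b.m s, .inl ⟨⟨i, hv⟩, s, k1, rfl⟩, .inl ⟨⟨i', hw⟩, s, k2, rfl⟩, ?_⟩
      show x ∈ (fun z => _ + r.b.M (K.cell _) z) '' _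
      rw [(gf2_mk hr hv k1).1]
      exact k
    · rw [(Br i v hv).1] at h1
      obtain ⟨z, hz, k⟩ := hr.loc i v hv x h1
      exact (gf2_cf h hc' hz (Bc c' hc' ▸ h2) k).elim
    · rw [(Br i' w hw).1] at h2
      obtain ⟨z, hz, k⟩ := hr.loc i' w hw x h2
      exact (gf2_cf h hc hz (Bc c hc ▸ h1) k).elim
    · rw [Bc c hc] at h1
      rw [Bc c' hc'] at h2
      exact (disjoint_left.1 (h.cdisj hc hc' fun e => hne (by rw [e])) h1 h2).elim
  · intro i a b e hs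
    have ra : RV K d i a := ⟨hs (left_mem_segment ℝ _ _), e.left.2⟩
    have rb : RV K d i b := ⟨hs (right_mem_segment ℝ _ _), e.right.2⟩
    have c8 : closure (openSegment ℝ a b) ⊆ (d.B i).Q d.s 8 := e.cl.symm ▸ hs
    exact ⟨_, hr.mk' i a ra _ (gf2_fl e), fun k => (gf2_exit h hr ra (gf2_fl e)).1 k c8,
      .inl ⟨⟨i, ra⟩, _, gf2_fl e, rfl⟩, .inl ⟨⟨i, rb⟩, _, gf2_fl' e, rfl⟩,
      (hr.inner i a ra _ (gf2_fl e) c8).1⟩
  · rintro i a b e ⟨ha, hb⟩
    have ra : RV K d i a := ⟨ha, e.left.2⟩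
    have fl := gf2_fl e
    have hc : ¬ closure (openSegment ℝ a b) ⊆ (d.B i).Q d.s 8 := fun k =>
      hb (k (e.cl.symm ▸ right_mem_segment ℝ _ _))
    have hm := hr.mk' i a ra _ fl
    obtain ⟨k1, -, -, -, k5⟩ := hr.exit i a ra _ fl hc
    obtain ⟨l, σ, hA, e'⟩ := rv_fl h ra fl
    have eb : b = d.pt a l σ 16 :=
      (e.uniq e').elim (fun k => k.2) fun k => (e.1 k.2.symm).elim
    refine ⟨_, hm, (gf2_exit h hr ra fl).2 hc, .inl ⟨⟨i, ra⟩, _, fl, rfl⟩, ?_,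
      e.cl ▸ gf2_24 h ra fl, ?_, ?_⟩
    · refine eq_singleton_iff_unique_mem.2 ⟨⟨left_mem_segment ℝ _ _,
        gf2_St1 ra fl (right_mem_segment ℝ _ _)⟩, ?_⟩
      rintro z ⟨hz, hz'⟩
      rw [segment_symm] at hz
      have zb := gf2_leg ((openSegment_symm ℝ a b).subset hm) hz
      rw [openSegment_symm] at zb
      rcases gf2_St hr hz' with ⟨i', v, s, hv, hs, k, k'⟩ | ⟨c, hc', k⟩
      · have nb : b ≠ v := fun k => e.1
          ((gf2_one h ra fl hc hv (k ▸ e.cl.symm ▸ right_mem_segment ℝ _ _)).symm.trans k.symm)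
        obtain ⟨b', ee, rfl⟩ := gf2_ed hs
        rcases k' with rfl | k' <;> rcases zb with rfl | zb
        · exact (nb rfl).elim
        · exact ((gf2_nv e zb).2 hv.2).elim
        · exact ((gf2_nv ee k').2 e.right.2).elim
        · have es := (gf2_nv ee k').1.symm.trans (gf2_nv e zb).1
          obtain rfl := gf2_one h ra fl hc hv (es ▸ hs.2.2.2)
          rw [es] at k
          exact gf2_two e.1 hm k hz
      · have ed := (h.cedge c hc').1
        rcases zb with rfl | zb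
        · exact (gf2_far h hc' hA (eb ▸ gf2_v ed k e.right.2)).elim
        · rcases Kx.KA2_seg k with k | k | k
          · exact ((gf2_nv e zb).2 (gf2_end h hc' (.inl k)).1).elim
          · exact ((gf2_nv e zb).2 (gf2_end h hc' (.inr k)).1).elim
          · have := fl.2.2.2
            rw [(gf2_nv e zb).1.symm.trans (gf2_nv ed k).1, ed.cl] at this
            exact (gf2_cq h hc' this ha).elim
    · have hσ : |σ| = 1 := by rcases hA.2.2.2 with rfl | rfl <;> simp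
      have hs := h.s0
      rw [eb, TopD.pt, add_sub_cancel_left, norm_smul, Pi.norm_single, norm_one, mul_one,
        Real.norm_eq_abs, abs_mul, hσ, mul_one, abs_of_pos (by positivity)]
      linarith
    · rintro _ ⟨k, x, hx, rfl⟩
      rw [show (r.Θ ∘ f) _ = f _ from
        hr.fix _ (e.seg_sub (openSegment_subset_segment ℝ _ _ hm)) k1] at k
      rw [k5 x hx k]; rfl
  · rintro i v (⟨i', hv⟩ | ⟨c, hc, rfl⟩) h8 <;> refine disjoint_left.2 ?_ <;>
      rintro _ hz ⟨x, hx, rfl⟩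
    · rw [(Br i' v hv).1] at hz
      obtain ⟨z, hz, k⟩ := hr.loc i' v hv _ hz
      have := h.sep i' i (fun e => h8 (e ▸ hv.1)) z hz x (Q12 i hx)
      linarith [(h.ε0 i').1]
    · exact gf2_cf h hc (Q12 i hx) (Bc c hc ▸ hz) (by simpa using (h.ε0 i).1.le)
  · rintro i x hx k ⟨z, hz, e⟩
    have := hr.far i z hz x hx (gf2_Q8 h hr hx k i) fun v s hv hs hy => by
      have g := k (gf2_St1 hv hs hy)
      have m : x ∈ (gf2_t K d r Ψ).Mk := gf2_Mk.2 (g.imp_left fun ⟨i, v, s, a, b, _, c⟩ =>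
        ⟨i, v, s, a, b, c⟩)
      exact (gf2_edge h hr (.inl ⟨i, hv⟩) (.inl ⟨⟨i, hv⟩, s, hs, rfl⟩)).2.1.subset ⟨hy, m⟩
    rw [e, sub_self, norm_zero] at this
    linarith only [this, h, (h.ε0 i).1]
  · intro a b e nc n8 x hx hx'
    have nv : ∀ i v, RV K d i v → v ∉ segment ℝ a b := fun i v hv k => by
      rcases gf2_v e k hv.2 with rfl | rfl
      exacts [(n8 i).1 hv.1, (n8 i).2 hv.1]
    rcases gf2_St hr hx' with ⟨i, v, s, hv, hs, -, rfl | k⟩ | ⟨c, hc, k⟩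
    · exact (nv i _ hv hx).elim
    · obtain ⟨b', ee, rfl⟩ := gf2_ed hs
      rcases Kx.KA2_seg hx with rfl | rfl | k'
      · exact ((gf2_nv ee k).2 e.left.2).elim
      · exact ((gf2_nv ee k).2 e.right.2).elim
      · have := hs.2.2.2
        rw [(gf2_nv ee k).1.symm.trans (gf2_nv e k').1, e.cl] at this
        exact (nv i v hv this).elim
    · have := (e.inter (h.cedge c hc).1 fun k => nc ⟨c, hc, k⟩).subset ⟨hx, k⟩
      exact ⟨.inr ⟨c, hc, this.2⟩, this.1⟩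
  · rintro y (⟨i, v, s, hv, hs, hc, rfl⟩ | k)
    · have k := hr.mk' i v hv s hs
      obtain ⟨b, e, rfl⟩ := gf2_ed hs
      exact .inl ⟨i, v, b, e, ⟨hv.1, fun hb =>
        hc (e.cl.symm ▸ (Box.Q_convex 8).segment_subset hv.1 hb)⟩, k⟩
    · exact .inr k
  · intro y hy hg
    rcases gf2_Mk.1 hy with ⟨i, v, s, hv, hs, rfl⟩ | k
    · have k := hr.mk' i v hv s hs
      have c8 := not_not.1 (mt (gf2_exit (Ψ := Ψ) h hr hv hs).2 hg)
      obtain ⟨b, e, rfl⟩ := gf2_ed hs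
      rw [e.cl] at c8
      exact ⟨i, v, b, e, c8, k, .inl ⟨⟨i, hv⟩, _, hs, rfl⟩,
        .inl ⟨⟨i, c8 (right_mem_segment ℝ _ _), e.right.2⟩, _, gf2_fl' e, rfl⟩⟩
    · exact (hg (.inr k)).elim
  · rintro v (⟨i, hv⟩ | ⟨c, hc, rfl⟩)
    · exact .inl ⟨i, hv.1, (Br i v hv).1 ▸ hY i v hv⟩
    · exact .inr ⟨c, hc, rfl, Bc c hc⟩

theorem xg_gs [Finite ι] (h : TopIn K f d) : ∃ D, GS K f d D ∧ FatX f D.g Ω d D.t := by
  obtain ⟨Θ, t, hΘ, him, ht, hX⟩ := xg_fats h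
  have gc : ContinuousOn (Θ ∘ f) Ω := hΘ.tp.continuous.comp_continuousOn h.cont
  have gi : InjOn (Θ ∘ f) Ω := hΘ.inj.comp_injOn h.inj
  obtain ⟨a, b, a0, hg⟩ := thin_graph h ht
  obtain ⟨η, hη, hη'⟩ := eta_exists h gc gi
  obtain ⟨Mt, kk, lo, hi, w, hm, hw⟩ := thin_exists (thin_in h ht gc gi hg fun σ => (hη σ).1)
  have loc : ∀ y ∈ Mt ∪ t.Mk, y ∈ t.Mk ∨
      ∃ σ ∈ thinE K d, y ∈ σ ∧ y ∈ Mt ∩ segment ℝ (a σ) (b σ) := by
    rintro y (hy | hy)
    · rcases hm.loc y hy with k | ⟨σ, k⟩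
      · exact .inl (ht.gsub k)
      · exact .inr ⟨σ, σ.2, GS_sub hg σ.2 k, hy, openSegment_subset_segment ℝ _ _ k⟩
    · exact .inl hy
  have fin : t.Mk.Finite := ht.fin.biUnion fun v _ => ht.mfin v
  refine (alt_exists (Mk := Mt ∪ t.Mk) K h.opn ?_ ?_ ?_).elim fun K2 ⟨m, ha⟩ => ?_
  rotate_right
  · exact ⟨⟨Θ ∘ f, t, a, b, a0, η, Mt, kk, lo, hi, w, K2, m⟩, ⟨h, ht, gc, gi,
      (image_comp Θ f Ω).trans him, hg, ⟨hη, hη'⟩, hm, hw, ha⟩, hX⟩
  · intro y hy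
    rcases loc y hy with k | ⟨σ, hσ, k, -⟩
    · obtain ⟨v, hv, k⟩ := mem_iUnion₂.1 k
      obtain ⟨-, -, p, q, e, k1⟩ := ht.edge v hv y k
      exact e.seg_sub (k1 (right_mem_segment ℝ _ _))
    · exact Kx.cl_sub_sk hσ.1.1 hσ.1.2.le (subset_closure k)
  · intro p q e
    constructor
    · have f1 : (⋃ _ : openSegment ℝ p q ∈ thinE K d,
          Mt ∩ segment ℝ (a (openSegment ℝ p q)) (b (openSegment ℝ p q))).Finite :=
        finite_iUnion fun k => hm.fin ⟨_, k⟩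
      refine ((fin.union (toFinite {p, q})).union f1).subset ?_
      rintro y ⟨hy, hy'⟩
      rcases loc y hy with k | ⟨σ, hσ, k, k'⟩
      · exact .inl (.inl k)
      · rcases Kx.KA2_seg hy' with k1 | k1 | k1
        · exact .inl (.inr (.inl k1))
        · exact .inl (.inr (.inr k1))
        · obtain rfl : σ = openSegment ℝ p q :=
            (Kx.cell_eq hσ.1.1 k).symm.trans (Kx.cell_eq e.2 k1)
          exact .inr (mem_iUnion.2 ⟨hσ, k'⟩)
    · by_cases k : openSegment ℝ p q ∈ thinE K d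
      · obtain ⟨y, hy, hy'⟩ := hw.ex ⟨_, k⟩
        exact ⟨y, .inl hy, openSegment_subset_segment ℝ _ _ (GS_sub hg k hy')⟩
      · by_cases k1 : ∃ i, segment ℝ p q ⊆ (d.B i).Q d.s 8
        · obtain ⟨i, k1⟩ := k1
          obtain ⟨y, hy, -, k2, -⟩ := ht.rig i p q e k1
          exact ⟨y, .inr (mem_iUnion₂.2 ⟨p, (ht.cen p).2
            (.inl ⟨i, k1 (left_mem_segment ℝ _ _), e.left.2⟩), k2⟩),
            openSegment_subset_segment ℝ _ _ hy⟩
        · have k2 : ∃ c ∈ d.Ch, openSegment ℝ p q = openSegment ℝ c.a c.b := by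
            by_contra k2
            exact k ⟨GAlt_cel e, fun i k3 => k1 ⟨i, e.cl ▸ k3⟩, fun c hc k3 => k2 ⟨c, hc, k3⟩⟩
          obtain ⟨c, hc, k2⟩ := k2
          refine ⟨c.a, .inr (ht.gsub (ht.cho c hc).2.1), ?_⟩
          rw [← e.cl, k2, (h.cedge c hc).1.cl]
          exact left_mem_segment ℝ _ _
  · intro y hy hv
    rcases loc y hy with k | ⟨σ, hσ, k, -⟩
    · by_cases k1 : y ∈ t.Gt
      · rcases ht.gcl y k1 with ⟨i, p, q, e, -, k2⟩ | ⟨c, hc, rfl | rfl⟩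
        · exact ((gf2_nv e k2).2 hv).elim
        · exact (smo_end h hc).1
        · exact (smo_end h hc).2
      · obtain ⟨i, p, q, e, -, k2, -⟩ := ht.icl y k k1
        exact ((gf2_nv e k2).2 hv).elim
    · exact (GAlt_nv hσ.1 ((Kx.cell_eq hσ.1.1 k).symm.trans hv)).elim

end A

section B
variable {Ω : Set (Rn 3)} {K : Kx Ω} {g : Rn 3 → Rn 3} {Th F : Set (Rn 3)}
  {kk : Set (Rn 3) → Fin 3} {lo hi : Rn 3 → Rn 3} {b : BdD}

theorem xg_squeeze (h : BoxK K g b.m Th F kk lo hi) (hb : Bead K g b)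
    (hi' : InBox K g Th lo hi b) (hF : ∀ v, K.Vx v → v ∉ Th → b.B v ⊆ F)
    {w : Set (Rn 3) → ℝ} (hw0 : ∀ s, 0 < w s)
    (hw : ∀ v ∈ Th, ∀ s, K.Fl v s → ‖hi v - lo v‖ ≤ w s) :
    ∃ (g2 : Rn 3 → Rn 3) (b2 : BdD), ContinuousOn g2 Ω ∧ InjOn g2 Ω ∧ g2 '' Ω = g '' Ω ∧
      Bead K g2 b2 ∧ b2.m = b.m ∧ (∀ s ∈ K.cel 1, g2 (b.m s) = g (b.m s)) ∧
      (∀ v, v ∉ Th → b2.Φ v = b.Φ v) ∧
      (∀ v ∈ Th, ∀ s, K.Fl v s → b2.Leg g2 v s \ {g (b.m s)} ⊆ interior (Icc (lo v) (hi v)) ∧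
        ArcL (b2.Leg g2 v s) (b2.Φ v 0) (g (b.m s)) (2 * w s)) ∧
      (∀ x, g2 x = g x ∨ ∃ v ∈ Th, g x ∈ Icc (lo v) (hi v) ∧ g2 x ∈ Icc (lo v) (hi v)) ∧
      ∀ v ∈ Th, b2.B v ⊆ Icc (lo v) (hi v) := by
  classical
  choose L C hL using GSq_box h hb hi' hw0 hw
  have hC := fun v hv => (hL _ v hv rfl).1
  obtain ⟨Λ, l1, l2, l3, l4, l5, l6⟩ := GSq_patch (Th := Th)
    (GEmb_open h.cont h.inj h.opn subset_rfl) (I := fun v => Icc (lo v) (hi v))
    (C := fun v => C (lo v, hi v)) (L := fun v => L (lo v, hi v)) hC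
    (fun v hv u hu => (h.dis v hv u hu).imp_left fun e => by rw [e.1, e.2]; exact ⟨rfl, rfl⟩)
    h.sub h.lf
  have SB (v : Rn 3) : b.S v ⊆ b.B v := image_mono sphere_subset_closedBall
  have hE : ∀ s ∈ K.cel 1, ∀ y ∈ flat 2, b.p g s + b.M s y ∈
      {x | x ∈ g '' Ω ∧ ∀ v ∈ Th, x ∉ C (lo v, hi v)} := fun s hs y hy => by
    obtain ⟨a, c, he, rfl⟩ := Kx.dm_one hs.1 hs.2
    have hl := GLeg_edge he
    have h1 := hb.one a hl.1 hl.2.1
    have h2 := SB a ((h1.flt _ hl y hy.1).2 hy.2)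
    refine ⟨h1.sub h2, fun v hv e => ?_⟩
    have e' := (hC v hv).2.1 e
    by_cases ha : a ∈ Th
    · rcases h.dis v hv a ha with k | k
      · rw [k.1, k.2] at e'
        exact disjoint_left.1 (hi'.wall a ha _ hl) e' ⟨y, hy, rfl⟩
      · exact disjoint_left.1 k e' (hi'.sub a ha h2)
    · exact disjoint_left.1 (h.far v hv) e' (hF a ⟨hl.1, hl.2.1⟩ ha h2)
  have hp : ∀ s ∈ K.cel 1, ∀ v ∈ Th, g (b.m s) ∉ C (lo v, hi v) := fun s hs => by
    have := (hE s hs 0 ⟨by simp, rfl⟩).2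
    rwa [map_zero, add_zero] at this
  have hD (s : Set (Rn 3)) (hs : s ∈ K.cel 1) := GSq_col
    (l6.preimage (f := fun y => b.p g s + b.M s y) (by fun_prop)) (hE s hs)
  have : Nonempty (Rn 3 ≃L[ℝ] Rn 3) := ⟨ContinuousLinearEquiv.refl _ _⟩
  choose! D hD using hD
  let b2 : BdD := ⟨b.m, fun s => (D s).trans (b.M s),
    fun v => if v ∈ Th then L (lo v, hi v) ∘ b.Φ v else b.Φ v⟩
  have Φ1 : ∀ v ∈ Th, b2.Φ v = L (lo v, hi v) ∘ b.Φ v := fun v hv => if_pos hv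
  have Φ2 : ∀ v, v ∉ Th → b2.Φ v = b.Φ v := fun v hv => if_neg hv
  have Φ3 : ∀ v, K.Vx v → ∀ y ∈ closedBall (0 : Rn 3) 1, b2.Φ v y = Λ (b.Φ v y) :=
    fun v hv y hy => by
      by_cases e : v ∈ Th
      · rw [Φ1 v e, l4 v e (hi'.sub v e ⟨y, hy, rfl⟩)]
        rfl
      · rw [Φ2 v e, l5 _ fun u hu k =>
          disjoint_left.1 (h.far u hu) ((hC u hu).2.1 k) (hF v hv e ⟨y, hy, rfl⟩)]
  have B2 : ∀ v, K.Vx v → b2.B v = Λ '' b.B v := fun v hv => by
    rw [BdD.B, BdD.B, image_image, image_congr (Φ3 v hv)]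
  have S2 : ∀ v, K.Vx v → b2.S v = Λ '' b.S v := fun v hv => by
    rw [BdD.S, BdD.S, image_image, image_congr fun y hy => Φ3 v hv y (sphere_subset_closedBall hy)]
  have p2 : ∀ s ∈ K.cel 1, b2.p (Λ ∘ g) s = b.p g s := fun s hs => l5 _ (hp s hs)
  have im : (Λ ∘ g) '' Ω = g '' Ω := by rw [image_comp, l3]
  refine ⟨Λ ∘ g, b2, l2.comp h.cont (mapsTo_image g Ω), l1.comp_injOn h.inj, im,
    ⟨hb.mk', fun v h1 h2 => ?_, fun v h1 u h2 h3 h4 h5 x hx => ?_, fun N n1 n2 => ?_⟩, rfl, p2, Φ2,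
    fun v hv s hl => ?_, fun x => ?_, fun v hv => ?_⟩
  · have o := hb.one v h1 h2
    have eB := B2 v ⟨h1, h2⟩
    have eS := S2 v ⟨h1, h2⟩
    refine ⟨?_, ?_, fun s hl y hy => ?_, fun s hl => ?_, fun y hy k => o.star y hy ?_,
      fun y hy k => o.mark y hy ?_, fun s hl t t0 t1 k => o.ray s hl t t0 t1 ?_⟩
    · by_cases e : v ∈ Th
      · exact Φ1 v e ▸ (hC v e).2.2.1.comp o.lh
      · exact Φ2 v e ▸ o.lh
    · rw [eB, im, ← l3]
      exact image_mono o.sub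
    · obtain ⟨d1, d2, d3, -⟩ := hD s hl.2.2.1 y hy
      rw [p2 s hl.2.2.1, eS, ← d3, ← o.flt s hl _ d2, ← l1.mem_set_image (s := b.S v),
        show Λ (b.p g s + b.M s (D s y)) = _ from l5 _ d1.2]
      rfl
    · rw [eB, image_comp]
      exact image_mono (o.sin s hl)
    · exact l1.mem_set_image.1 (eB ▸ k)
    · exact l1.mem_set_image.1 (eS ▸ k)
    · exact l1.mem_set_image.1 (eB ▸ k)
  · rw [B2 v ⟨h1, h3⟩, B2 u ⟨h2, h4⟩, ← image_inter l1] at hx
    obtain ⟨x, hx, rfl⟩ := hx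
    obtain ⟨s, k1, k2, y, k3, rfl⟩ := hb.meet v h1 u h2 h3 h4 h5 x hx
    refine ⟨s, k1, k2, y, k3, ?_⟩
    rw [l5 _ (hE s k1.2.2.1 y k3).2]
    change b2.p (Λ ∘ g) s + b.M s (D s y) = _
    rw [p2 s k1.2.2.1, (hD s k1.2.2.1 y k3.1).2.2.2 k3.2]
  · rw [im] at n2
    refine ((h.lf N n1 n2).union (hb.lf N n1 n2)).subset ?_
    rintro v ⟨h1, h2, x, k1, k2⟩
    by_cases e : v ∈ Th
    · refine Or.inl ⟨e, x, ?_, k2⟩
      rw [BdD.B, Φ1 v e, image_comp] at k1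
      rw [← (hC v e).2.2.image_eq ((hC v e).2.1.trans interior_subset)]
      exact image_mono (hi'.sub v e) k1
    · rw [BdD.B, Φ2 v e] at k1
      exact Or.inr ⟨h1, h2, x, k1, k2⟩
  · have o := hb.one v hl.1 hl.2.1
    have e1 : L (lo v, hi v) (b.p g s) = b.p g s := (hC v hv).2.2.2 _ (hp s hl.2.2.1 v hv)
    have e2 : b2.Leg (Λ ∘ g) v s = L (lo v, hi v) '' b.Leg g v s := by
      rw [BdD.Leg, BdD.Leg, p2 s hl.2.2.1, Φ1 v hv, ((hC v hv).2.2.1.comp o.lh).inv_eq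
        (x := invFun (b.Φ v) (b.p g s)) (by rw [comp_apply, o.lh.ri, e1]), image_comp]
    have e3 := (hL _ v hv rfl).2 s hl
    rw [e1] at e3
    rw [e2, Φ1 v hv]
    refine ⟨?_, e3⟩
    rintro _ ⟨⟨x, k1, rfl⟩, k2⟩
    rw [← (hC v hv).2.2.image_eq (hC v hv).2.1]
    exact mem_image_of_mem _ (interior_mono (hi'.sub v hv)
      ((GSq_leg hb hl).2 ⟨k1, fun e => k2 (e ▸ e1)⟩))
  · by_cases e : ∃ v ∈ Th, g x ∈ C (lo v, hi v)
    · obtain ⟨v, hv, e⟩ := e
      have s := (hC v hv).2.1.trans interior_subset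
      refine .inr ⟨v, hv, s e, ?_⟩
      rw [comp_apply, l4 v hv (s e), ← (hC v hv).2.2.image_eq s]
      exact mem_image_of_mem _ (s e)
    · exact .inl (l5 _ fun v hv k => e ⟨v, hv, k⟩)
  · rw [BdD.B, Φ1 v hv, image_comp, ← (hC v hv).2.2.image_eq ((hC v hv).2.1.trans interior_subset)]
    exact image_mono (hi'.sub v hv)

end B

variable {Ω : Set (Rn 3)} {ι : Type} {K : Kx Ω} {f : Rn 3 → Rn 3} {d : TopD ι}

theorem xg_gb [Finite ι] (h : TopIn K f d) : ∃ D g2 b g0, GB K f d D g2 b g0 ∧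
    FatX f D.g Ω d D.t ∧ (∀ x, g2 x = D.g x ∨ ∃ v ∈ D.Th, D.g x ∈ Icc (D.lo v) (D.hi v) ∧
      g2 x ∈ Icc (D.lo v) (D.hi v)) ∧ ∀ v ∈ D.Th, b.B v ⊆ Icc (D.lo v) (D.hi v) := by
  obtain ⟨D, hD, hX⟩ := xg_gs h
  obtain ⟨b1, h1, h2, h3, h4⟩ := thin_beads (b0 := D.b0) hD.boxK hD.fatK
  have e : b1.m = D.m := h2
  obtain ⟨g2, b, k1, k2, k3, k4, k5, k6, k7, k8, k9, k10⟩ := xg_squeeze (b := b1) (e ▸ hD.boxK)
    h1 h4 (fun v hv hn => by
      have := (hD.fatK.sub v hv hn).2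
      rwa [BdD.B, ← h3 v hn] at this)
    (w := fun s => D.w (D.m s)) (fun s => hD.wt.w0 _) fun v hv s hs => (hD.size hv hs).1
  obtain ⟨g0, l1, l2⟩ := k4.g0 h.opn k2
  rw [e] at k5 k6 k8
  exact ⟨D, g2, b, g0, ⟨hD, k1, k2, k3.trans hD.gim, k4, k5, k6,
    fun v hv => (k7 v hv).trans (h3 v hv), k8, hD.alt.sk ▸ l1, l2⟩, hX, k9, k10⟩

end BEp
end
end
end

-- merged part: Pool.Agent.Work.MP_f0515e_an.D3.GB3
section
/-! Position of the image of the one skeleton.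

Plan. `sup0`: a point of the closed cell lies on a leg contained in it (vertex: itself; edge: `Alt.chain` or
`Alt.cover` with `Alt.leg`); thin legs lie in boxes (`size`; the vertex `v` of the leg is `y'`); on a fat
leg `[v, y]` at a rigid vertex the point `seg (aff v) (g y) t` is within `ε'` of `aff (seg v y t)` for exit
edges and equals a value of `aff` for rigid edges (`rig0`, `close`); chords: `cedge` and convexity of balls.
`sq0`: see the four cases `far`, `thq`, `sq`, `ext`.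
A point of the skeleton lies on a closed edge (`exists_up` for a vertex), so on a leg (`leg_of`). -/

open Set Metric Filter Topology Function BEv
open scoped NNReal ENNReal

noncomputable section
namespace BEp

variable {Ω : Set (Rn 3)} {ι : Type} {K : Kx Ω} {f : Rn 3 → Rn 3} {d : TopD ι} {D : GlD Ω}
  {g2 g0 : Rn 3 → Rn 3} {b : BdD}

theorem GB3_ext {g : Rn 3 → Rn 3} {t : FatD} (hf : FatS K f g d t) {i : ι} {v r y : Rn 3}
    (he : K.Edge v r) (hx : d.Ext i v r) (hy : y ∈ t.ms v) (hs : y ∈ segment ℝ v r) :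
    y ∈ t.Gt ∧ segment ℝ v r ⊆ (d.B i).Q d.s 24 ∧
      segment ℝ ((d.B i).aff v) (g y) ∩ (d.B i).aff '' (d.B i).Q d.s 8 ⊆ {(d.B i).aff v} := by
  obtain ⟨y1, k1, k2, k3, k4, k5, -, k6⟩ := hf.ext i v r he hx
  have hC : v ∈ t.Cn := (hf.cen v).2 (.inl ⟨i, hx.1, he.left.2⟩)
  obtain rfl : y = y1 := by
    rcases gf2_split k1 hs with k | k
    · exact (hf.edge v hC y1 k3).2.1.subset ⟨k, mem_iUnion₂.2 ⟨v, hC, hy⟩⟩
    · exact k4.subset ⟨(segment_symm ℝ _ _).subset k,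
        mem_iUnion₂.2 ⟨v, hC, mem_iUnion₂.2 ⟨y, hy, right_mem_segment ℝ _ _⟩⟩⟩
  exact ⟨k2, k5, k6⟩

theorem GB3_thin (h : GB K f d D g2 b g0) {v x : Rn 3} {s : Set (Rn 3)} (hv : v ∈ D.Th)
    (hs : D.K2.Fl v s) (hx : x ∈ segment ℝ v (D.m s)) :
    (x ∈ K.sk 1 ∧ (x ∈ D.t.St → x ∈ D.t.Gt)) ∧
      (g0 x = D.g (D.m s) ∨ g0 x ∈ interior (Icc (D.lo v) (D.hi v))) ∧
      ‖g0 x - f x‖ ≤ ‖D.hi v - D.lo v‖ := by
  obtain ⟨σ, hσ, k, -⟩ := h.gs.thin_leg hv hs
  have k1 : x ∈ K.sk 1 := by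
    obtain ⟨p, q, he, k'⟩ := h.gs.alt.leg v s hs
    exact he.seg_sub (k' hx)
  have k2 : x ∈ D.t.St → x ∈ D.t.Gt := fun e => (h.gs.thg.thin σ hσ x (k hx) e).1
  have k3 : g0 x = D.g (D.m s) ∨ g0 x ∈ interior (Icc (D.lo v) (D.hi v)) := by
    have := (h.bead.g0_leg h.cone hs).1.subset (mem_image_of_mem g0 (h.bm ▸ hx))
    exact (em _).imp id fun e => (h.thin v hv s hs).1 ⟨this, e⟩
  refine ⟨⟨k1, k2⟩, k3, ?_⟩
  have k4 : g0 x ∈ Icc (D.lo v) (D.hi v) := by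
    rcases k3 with e | e
    exacts [e ▸ GBd_box h.gs.boxK hv hs (right_mem_segment ℝ _ _), interior_subset e]
  have k5 := GBd_box h.gs.boxK hv hs hx
  rw [h.gs.fat.same x k1 k2] at k5
  refine (pi_norm_le_iff_of_nonneg (norm_nonneg _)).2 fun j => ?_
  have k6 := (le_abs_self _).trans (norm_le_pi_norm (D.hi v - D.lo v) j)
  rw [Pi.sub_apply] at k6 ⊢
  exact abs_le.2 ⟨by linarith [k4.1 j, k5.2 j], by linarith [k4.2 j, k5.1 j]⟩

theorem GB.sup0 (h : GB K f d D g2 b g0) {y : Rn 3} (hy : y ∈ K.sk 1) :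
    ∀ z ∈ g0 '' closure (K.cell y), ∃ y' ∈ closure (K.cell y), ‖z - f y'‖ ≤ d.θ (K.cell y) ∨
      ∃ i, (closure (K.cell y) ∩ (d.B i).Q d.s 8).Nonempty ∧ ‖z - f y'‖ ≤ 20 * d.ε i := by
  rintro _ ⟨x, hx, rfl⟩
  have ht := h.gs.top
  have hf := h.gs.fat
  have cl : ∀ i, ∀ w ∈ K.sk 1, w ∈ (d.B i).Q d.s 24 → ‖(d.B i).aff w - f w‖ ≤ d.ε' i :=
    fun i w k1 k2 => norm_sub_rev (f w) _ ▸ ht.close i w ⟨k1, k2⟩
  have sm : ∀ i, 2 * d.ε' i ≤ 20 * d.ε i := fun i => by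
    linarith [(rig_small ht i).2.2.2.2.1, (ht.ε0 i).2]
  have Q24 : ∀ i, (d.B i).Q d.s 8 ⊆ (d.B i).Q d.s 24 := fun i => Box.Q_mono ht.s0 (by norm_num)
  rcases Kx.mem_sk_one.1 hy with ⟨hΩ, hv⟩ | ⟨p, q, he, hy'⟩
  · obtain rfl : x = y := by simpa [hv] using hx
    refine ⟨x, hx, ?_⟩
    obtain ⟨v, s, hs, k⟩ := h.gs.alt.cover ht.opn hy
    by_cases hT : v ∈ D.Th
    · exact .inl ((GB3_thin h hT hs k).2.2.trans ((h.gs.size hT hs).2 x k).1)
    have hC : v ∈ D.t.Cn := by_contra fun e => hT ⟨⟨hs.1, hs.2.1⟩, e⟩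
    have hm := h.gs.fat_fl' hC hs
    obtain ⟨-, l2, l3, -⟩ := h.leg_fat hC hm
    by_cases e : x = v
    · subst e
      rcases (hf.cen x).1 hC with ⟨i, hi, -⟩ | ⟨c, hc, e⟩
      · refine .inr ⟨i, ⟨x, hx, hi⟩, ?_⟩
        rw [l2, hf.ctr i x hi hv]
        linarith [cl i x hy (Q24 i hi), sm i, (ht.ε0 i).2]
      · exact absurd hv (gf2_nv (ht.cedge c hc).1 (e ▸ gf2_mid _ _)).2
    · have hM : x ∈ D.Mt ∪ D.t.Mk := by
        by_contra k'
        have k1 := h.gs.alt.vert x hΩ hv k'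
        rw [Kx.cell_eq hs.2.2.1.1 ((GAlt_leg h.gs.alt hs).2 x k e)] at k1
        exact GAlt_nv hs.2.2.1 k1
      obtain rfl : x = D.m s := (h.gs.alt.leg_inter hs).1.subset ⟨k, hM⟩
      have hG : D.m s ∈ D.t.Gt := by
        by_contra k'
        obtain ⟨i, p, q, he, -, k1, -⟩ := hf.icl _ (mem_iUnion₂.2 ⟨v, hC, hm⟩) k'
        exact (gf2_nv he k1).2 hv
      left
      rw [l3, hf.same _ hy fun _ => hG, sub_self, norm_zero]
      exact (ht.θ0 _).le
  rw [(gf2_nv he hy').1, he.cl] at hx ⊢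
  obtain ⟨v, s, hs, k, sub⟩ := h.leg_of he hx
  have hv := sub (left_mem_segment ℝ _ _)
  have hm' := sub (right_mem_segment ℝ _ _)
  by_cases hT : v ∈ D.Th
  · refine ⟨x, hx, .inl ((GB3_thin h hT hs k).2.2.trans ?_)⟩
    obtain ⟨t1, h1, e1⟩ := GAlt_par hv
    obtain ⟨t2, h2, e2⟩ := GAlt_par hm'
    have hne : t1 ≠ t2 := fun e => (h.gs.alt.leg_inter hs).2.1 (by rw [← e1, ← e2, e])
    have k1 : seg p q ((t1 + t2) / 2) ∈ segment ℝ v (D.m s) := by
      rw [← e1, ← e2, GAlt_cs]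
      refine mem_image_of_mem _ (mem_uIcc.2 ?_)
      rcases le_total t1 t2 with e | e
      · left; constructor <;> linarith only [e]
      · right; constructor <;> linarith only [e]
    have k2 : seg p q ((t1 + t2) / 2) ∈ openSegment ℝ p q := by
      rw [← seg_image_open]
      refine mem_image_of_mem _ ?_
      rcases hne.lt_or_gt with e | e <;> constructor <;> linarith only [e, h1, h2, h1.1, h1.2, h2.1, h2.2]
    have := ((h.gs.size hT hs).2 _ k1).1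
    rwa [(gf2_nv he k2).1] at this
  have hC : v ∈ D.t.Cn := by_contra fun e => hT ⟨⟨hs.1, hs.2.1⟩, e⟩
  have hm := h.gs.fat_fl' hC hs
  rcases (hf.cen v).1 hC with ⟨i, hi, hv'⟩ | ⟨c, hc, e⟩
  · obtain ⟨r, er, e⟩ := GAlt1_end hv' he hv
    have e' : segment ℝ p q = segment ℝ v r := by rw [← he.cl, e, er.cl]
    rw [e'] at hx sub hm' hv ⊢
    by_cases hr : r ∈ (d.B i).Q d.s 8
    · have k8 := (Box.Q_convex 8).segment_subset hi hr
      obtain ⟨x', hx', e1⟩ := (h.rig0 er k8).1.subset (mem_image_of_mem g0 hx)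
      refine ⟨x', hx', .inr ⟨i, ⟨v, hv, hi⟩, ?_⟩⟩
      rw [← e1]
      linarith only [cl, er, hx', Q24, k8, sm, ht, cl i x' (er.seg_sub hx') (Q24 i (k8 hx')), sm i, (ht.ε0 i).2]
    · obtain ⟨k1, k2, -⟩ := GB3_ext hf er ⟨hi, hr⟩ hm hm'
      have k3 := (h.leg_fat hC hm).1.subset (mem_image_of_mem g0 k)
      rw [hf.ctr i v hi hv', hf.same _ (er.seg_sub hm') fun _ => k1, segment_eq_image'] at k3
      obtain ⟨t, ht', e1⟩ := k3
      have k4 : seg v (D.m s) t ∈ segment ℝ v r := sub (by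
        rw [← seg_image]
        exact mem_image_of_mem _ ht')
      refine ⟨_, k4, .inr ⟨i, ⟨v, hv, hi⟩, ?_⟩⟩
      have e2 : g0 x - f (seg v (D.m s) t) = ((d.B i).aff (seg v (D.m s) t) - f (seg v (D.m s) t)) -
          t • ((d.B i).aff (D.m s) - f (D.m s)) := by
        have e3 : seg v (D.m s) t - (d.B i).c =
            (v - (d.B i).c) + t • ((D.m s - (d.B i).c) - (v - (d.B i).c)) := by
          rw [seg]; module
        rw [← e1]
        simp only [Box.aff, e3, map_add, map_smul, map_sub (d.B i).A (D.m s - (d.B i).c)]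
        module
      rw [e2]
      refine (norm_sub_le _ _).trans ?_
      rw [norm_smul, Real.norm_of_nonneg ht'.1]
      have k5 := mul_le_of_le_one_left (norm_nonneg ((d.B i).aff (D.m s) - f (D.m s))) ht'.2
      linarith only [k5, cl, er, k4, k2, hm', sm, cl i _ (er.seg_sub k4) (k2 k4), cl i _ (er.seg_sub hm') (k2 hm'), sm i]
  · obtain ⟨ec, -, -, c1, c2⟩ := ht.cedge c hc
    have e1 := GTh_eq ec he (gf2_mid _ _) (e ▸ hv)
    have e' : segment ℝ p q = segment ℝ c.a c.b := by rw [← he.cl, e1, ec.cl]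
    rw [e'] at hx ⊢
    refine ⟨c.a, left_mem_segment ℝ _ _, .inl ?_⟩
    have k3 := (convex_closedBall (f c.a) c.R).segment_subset
      (mem_closedBall_iff_norm.2 (c2 _ (left_mem_segment ℝ _ _)).le)
      (mem_closedBall_iff_norm.2 (c2 _ (right_mem_segment ℝ _ _)).le)
      ((h.cho0 hc).1.subset (mem_image_of_mem g0 hx))
    rw [e1]
    exact (mem_closedBall_iff_norm.1 k3).trans c1

theorem GB.sq0 (h : GB K f d D g2 b g0) {i : ι} {x : Rn 3} (hx : x ∈ K.sk 1)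
    (hz : g0 x ∈ (d.B i).aff '' (d.B i).Q d.s 8) : x ∈ (d.B i).Q d.s 8 := by
  have ht := h.gs.top
  have hf := h.gs.fat
  obtain ⟨v, s, hs, k⟩ := h.gs.alt.cover ht.opn hx
  by_cases hT : v ∈ D.Th
  · rcases (GB3_thin h hT hs k).2.1 with e | e
    · obtain ⟨k1, k2⟩ := (GB3_thin h hT hs (right_mem_segment ℝ _ _)).1
      rw [e, hf.same _ k1 k2] at hz
      exact absurd hz (hf.thq i _ k1 k2)
    · exact absurd (.inr (mem_iUnion.2 ⟨i, hz⟩)) (disjoint_left.1 (h.gs.boxK.far v hT) e)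
  have hC : v ∈ D.t.Cn := by_contra fun e => hT ⟨⟨hs.1, hs.2.1⟩, e⟩
  have hm := h.gs.fat_fl' hC hs
  obtain ⟨l1, l2, -, l4⟩ := h.leg_fat hC hm
  have hi : v ∈ (d.B i).Q d.s 8 := by_contra fun e =>
    disjoint_left.1 (hf.sq i v hC e) (l4 (mem_image_of_mem g0 k)) hz
  have hv : K.cell v = {v} := by
    rcases (hf.cen v).1 hC with ⟨j, -, hv⟩ | ⟨c, hc, e⟩
    exacts [hv, absurd hi (gf2_cq ht hc (e ▸ midpoint_mem_segment _ _))]
  obtain ⟨p, q, he, sub⟩ := h.gs.alt.leg v s hs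
  obtain ⟨r, er, e⟩ := GAlt1_end hv he (sub (left_mem_segment ℝ _ _))
  rw [← he.cl, e, er.cl] at sub
  by_cases hr : r ∈ (d.B i).Q d.s 8
  · exact (Box.Q_convex 8).segment_subset hi hr (sub k)
  · obtain ⟨-, -, k3⟩ := GB3_ext hf er ⟨hi, hr⟩ hm (sub (right_mem_segment ℝ _ _))
    rw [hf.ctr i v hi hv] at l1 l2
    have k4 : g0 x = g0 v := l2 ▸ k3 ⟨l1.subset (mem_image_of_mem g0 k), hz⟩
    rwa [h.inj0 hx (er.seg_sub (left_mem_segment ℝ _ _)) k4]

end BEp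
end
end
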