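import Pool.Agent.Work.MP_f0515e_an.D3.LDefs
import Pool.Agent.Work.MP_f0515e_an.D3.PGl

/-! TASK KBase. A fine complex on every open set.
Plan. `gc n x` = dyadic cell of level `n` = points with the same floors and ceilings of `2 ^ n * y l`; its closure is the box
`⌊2^n x l⌋ ≤ 2^n y l ≤ ⌈2^n x l⌉` (approach along `y + t (x - y)`), a polyhedron (`poly_le`). `st n x` = box `⌈2^n x l⌉ - 1 ≤ 2^n y l ≤ ⌊2^n x l⌋ + 1`;
`U n = {x | ∀ y ∈ st n x, y ∈ Ω ∧ 1 / 2 ^ n < δ y}` is open (near `x` floors do not increase and ceilings do not decrease, so `st n x' ⊆ st n x`) and a union of cells of every level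
`k ≥ n` (`gc k x ⊆ gc n x`, `st n` is constant on `gc n x`). Every `x ∈ Ω` is in some `U n`; `lv x` = least such `n` (`Nat.find`), `cell x = gc (lv x) x`. `lv` is constant on cells.
Frontier: if `y` is in the closure of `cell x` then `U (lv y)` is an open set round `y`, so it meets `cell x`, `lv x ≤ lv y`, and `gc (lv y) y ⊆ gc (lv x) y ⊆ closure`.
`lf`: finitely many `U n` cover `C`; floors and ceilings are bounded. About 220 lines. -/

open Set Metric Filter Topology Function BEv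
open scoped NNReal ENNReal

noncomputable section
namespace BEp

/-- Same floor and same ceiling. -/
def kbS (a b : ℝ) : Prop := ⌊b⌋ = ⌊a⌋ ∧ ⌈b⌉ = ⌈a⌉

theorem kbS_iff {a b : ℝ} :
    kbS a b ↔ ∀ m : ℤ, ((m : ℝ) ≤ b ↔ (m : ℝ) ≤ a) ∧ (b ≤ m ↔ a ≤ m) := by
  simp only [← Int.le_floor, ← Int.ceil_le]
  exact ⟨fun h m => by rw [h.1, h.2]; exact ⟨Iff.rfl, Iff.rfl⟩, fun h =>
    ⟨eq_of_forall_le_iff fun m => (h m).1, eq_of_forall_ge_iff fun m => (h m).2⟩⟩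

theorem kbS_ineq {a b : ℝ} : kbS a b ↔
    ((⌊a⌋ : ℝ) ≤ b ∧ b < ⌊a⌋ + 1) ∧ ((⌈a⌉ : ℝ) - 1 < b ∧ b ≤ ⌈a⌉) := by
  rw [kbS, Int.floor_eq_iff, Int.ceil_eq_iff]

theorem kb_cf (a : ℝ) : (⌈a⌉ : ℝ) ≤ ⌊a⌋ + 1 := by exact_mod_cast Int.ceil_le_floor_add_one a

theorem kbS_line {a b t : ℝ} (h1 : (⌊a⌋ : ℝ) ≤ b) (h2 : b ≤ ⌈a⌉) (t0 : 0 < t) (t1 : t ≤ 1) :
    kbS a (b + t * (a - b)) := by
  have := Int.floor_le a
  have := Int.lt_floor_add_one a
  have := Int.le_ceil a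
  have := Int.ceil_lt_add_one a
  have := kb_cf a
  refine kbS_ineq.2 ⟨⟨?_, ?_⟩, ?_, ?_⟩ <;> nlinarith

theorem kbS_ext {b c : ℝ} (h : kbS b c) : ∀ᶠ e in 𝓝 (0 : ℝ), kbS b (b + e * (b - c)) := by
  by_cases e : b = c
  · exact .of_forall fun _ => by rw [← e, sub_self, mul_zero, add_zero]; exact ⟨rfl, rfl⟩
  have n : ∀ m : ℤ, b ≠ m := fun m hm => e (le_antisymm
    (hm ▸ ((kbS_iff.1 h m).1.2 hm.ge)) (hm ▸ ((kbS_iff.1 h m).2.2 hm.le)))
  have c : ContinuousAt (fun e : ℝ => b + e * (b - c)) 0 := by fun_prop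
  have l1 := (Int.floor_le b).lt_of_ne' (n _)
  have l2 := (Int.le_ceil b).lt_of_ne (n _)
  filter_upwards [c.eventually (lt_mem_nhds (a := (⌊b⌋ : ℝ)) (by simpa using l1)),
    c.eventually (gt_mem_nhds (a := (⌈b⌉ : ℝ)) (by simpa using l2))] with e k1 k2
  have := kb_cf b
  exact kbS_ineq.2 ⟨⟨k1.le, by linarith⟩, by linarith, k2.le⟩

/-- Dyadic cell. -/
def kbC (n : ℕ) (x : Rn 3) : Set (Rn 3) := {y | ∀ l, kbS (2 ^ n * x l) (2 ^ n * y l)}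

/-- Its closure. -/
def kbB (n : ℕ) (x : Rn 3) : Set (Rn 3) :=
  {y | ∀ l, (⌊2 ^ n * x l⌋ : ℝ) ≤ 2 ^ n * y l ∧ 2 ^ n * y l ≤ ⌈2 ^ n * x l⌉}

/-- Its closed star. -/
def kbT (n : ℕ) (x : Rn 3) : Set (Rn 3) :=
  {y | ∀ l, (⌈2 ^ n * x l⌉ : ℝ) - 1 ≤ 2 ^ n * y l ∧ 2 ^ n * y l ≤ ⌊2 ^ n * x l⌋ + 1}

variable {n k : ℕ} {x y z : Rn 3}

theorem kbC_self : x ∈ kbC n x := fun _ => ⟨rfl, rfl⟩

theorem kbC_eq (h : y ∈ kbC n x) : kbC n y = kbC n x := by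
  ext z
  simp only [kbC, kbS, mem_ofPred_eq, (h _).1, (h _).2]

theorem kbT_eq (h : y ∈ kbC n x) : kbT n y = kbT n x := by
  ext z
  simp only [kbT, mem_ofPred_eq, (h _).1, (h _).2]

theorem kbC_anti (h : n ≤ k) : kbC k x ⊆ kbC n x := fun y hy l => by
  obtain ⟨j, rfl⟩ := Nat.exists_eq_add_of_le' h
  refine kbS_iff.2 fun m => ?_
  have := kbS_iff.1 (hy l) (2 ^ j * m)
  have p : (0 : ℝ) < 2 ^ j := by positivity
  push_cast at this
  simpa only [pow_add, mul_assoc, mul_le_mul_iff_right₀ p] using this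

theorem kbC_sub (h : y ∈ kbB n x) : kbC n y ⊆ kbB n x := fun _ hz l =>
  ⟨(kbS_iff.1 (hz l) _).1.2 (h l).1, (kbS_iff.1 (hz l) _).2.2 (h l).2⟩

theorem kbB_sub : kbB n x ⊆ kbT n x := fun _ hy l =>
  ⟨by linarith [(hy l).1, kb_cf (2 ^ n * x l)], by linarith [(hy l).2, kb_cf (2 ^ n * x l)]⟩

theorem kbT_sub : kbT n x ⊆ closedBall x (1 / 2 ^ n) := fun y hy => by
  have p : (0 : ℝ) < 2 ^ n := by positivity
  refine (dist_pi_le_iff (by positivity)).2 fun l => ?_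
  rw [Real.dist_eq, le_div_iff₀ p, ← abs_of_pos p, ← abs_mul, abs_le]
  constructor <;>
    linarith [(hy l).1, (hy l).2, Int.floor_le (2 ^ n * x l), Int.le_ceil (2 ^ n * x l)]

theorem kbC_closure : closure (kbC n x) = kbB n x := by
  refine Subset.antisymm (closure_minimal (fun y hy l =>
    ⟨(kbS_ineq.1 (hy l)).1.1, (kbS_ineq.1 (hy l)).2.2⟩) ?_) fun y hy => ?_
  · simp only [kbB, ofPred_forall, ofPred_and]
    exact isClosed_iInter fun l => (isClosed_le (by fun_prop) (by fun_prop)).inter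
      (isClosed_le (by fun_prop) (by fun_prop))
  · have c : ContinuousAt (fun t : ℝ => y + t • (x - y)) 0 := by fun_prop
    have t : Tendsto (fun t : ℝ => y + t • (x - y)) (𝓝[>] 0) (𝓝 y) := by
      simpa using c.tendsto.mono_left nhdsWithin_le_nhds
    refine mem_closure_of_tendsto t ?_
    filter_upwards [Ioc_mem_nhdsGT one_pos] with t ht l
    convert kbS_line (hy l).1 (hy l).2 ht.1 ht.2 using 1
    simp only [Pi.add_apply, Pi.smul_apply, Pi.sub_apply, smul_eq_mul]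
    ring

theorem kbC_convex : Convex ℝ (kbC n x) := fun y hy z hz a b ha hb hab l => by
  obtain ⟨⟨h1, h2⟩, h3, h4⟩ := kbS_ineq.1 (hy l)
  obtain ⟨⟨k1, k2⟩, k3, k4⟩ := kbS_ineq.1 (hz l)
  have e : 2 ^ n * (a • y + b • z) l = a • (2 ^ n * y l) + b • (2 ^ n * z l) := by
    simp only [Pi.add_apply, Pi.smul_apply, smul_eq_mul]
    ring
  rw [e]
  exact kbS_ineq.2 ⟨convex_Ico _ _ ⟨h1, h2⟩ ⟨k1, k2⟩ ha hb hab,
    convex_Ioc _ _ ⟨h3, h4⟩ ⟨k3, k4⟩ ha hb hab⟩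

theorem kbC_opn (hy : y ∈ kbC n x) (hz : z ∈ kbC n x) :
    ∃ e : ℝ, 0 < e ∧ y + e • (y - z) ∈ kbC n x := by
  rw [← kbC_eq hy] at hz ⊢
  obtain ⟨e, h1, h2⟩ := (((eventually_all.2 fun l => kbS_ext (hz l)).filter_mono
    nhdsWithin_le_nhds).and (self_mem_nhdsWithin (s := Ioi (0 : ℝ)))).exists
  refine ⟨e, h2, fun l => ?_⟩
  convert h1 l using 1
  simp only [Pi.add_apply, Pi.smul_apply, Pi.sub_apply, smul_eq_mul]
  ring

theorem kbB_poly : Poly (kbB n x) := by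
  have t : ∀ l, TP fun y : Rn 3 => 2 ^ n * y l := fun l => (TP.id'.apply l).const_mul _
  convert poly_le (Poly.closedBall x (1 / 2 ^ n)) (TP.pi (f := fun y l =>
    max (max (⌊2 ^ n * x l⌋ - 2 ^ n * y l) (2 ^ n * y l - ⌈2 ^ n * x l⌉)) 0) fun l =>
      (((TP.const _).sub (t l)).max ((t l).sub (TP.const _))).max (TP.const 0)).norm_pi using 1
  ext y
  simp only [mem_ofPred_eq, norm_le_zero_iff, funext_iff, Pi.zero_apply, max_eq_right_iff,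
    max_le_iff, sub_nonpos]
  exact ⟨fun h => ⟨kbT_sub (kbB_sub h), h⟩, fun h => h.2⟩

theorem kbT_near (n : ℕ) (x : Rn 3) : ∀ᶠ y in 𝓝 x, kbT n y ⊆ kbT n x := by
  have c : ∀ l, ContinuousAt (fun y : Rn 3 => (2 : ℝ) ^ n * y l) x := fun l =>
    (continuous_const.mul (continuous_apply l)).continuousAt
  filter_upwards [eventually_all.2 fun l => (c l).eventually
      (gt_mem_nhds (Int.lt_floor_add_one _)), eventually_all.2 fun l => (c l).eventually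
      (lt_mem_nhds (sub_lt_iff_lt_add.2 (Int.ceil_lt_add_one _)))] with y h1 h2 z hz l
  have k1 : (⌊2 ^ n * y l⌋ : ℝ) ≤ ⌊2 ^ n * x l⌋ := by
    exact_mod_cast Int.floor_le_iff.2 (h1 l)
  have k2 : (⌈2 ^ n * x l⌉ : ℝ) ≤ ⌈2 ^ n * y l⌉ := by
    exact_mod_cast Int.le_ceil_iff.2 (h2 l)
  exact ⟨by linarith [(hz l).1], by linarith [(hz l).2]⟩

theorem kbC_finite (n : ℕ) {C : Set (Rn 3)} (hC : IsCompact C) : (kbC n '' C).Finite := by
  obtain ⟨M, hM⟩ := hC.exists_bound_of_continuousOn (f := fun x : Rn 3 => (2 : ℝ) ^ n • x)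
    (by fun_prop)
  let a : Fin 3 → ℤ := fun _ => ⌊-M⌋
  let b : Fin 3 → ℤ := fun _ => ⌈M⌉
  refine (((finite_Icc a b).prod (finite_Icc a b)).image fun p =>
    {y : Rn 3 | ∀ l, ⌊2 ^ n * y l⌋ = p.1 l ∧ ⌈2 ^ n * y l⌉ = p.2 l}).subset ?_
  rintro _ ⟨x, hx, rfl⟩
  have h := fun l => abs_le.1 ((norm_le_pi_norm _ l).trans (hM x hx))
  exact ⟨(fun l => ⌊2 ^ n * x l⌋, fun l => ⌈2 ^ n * x l⌉),
    ⟨⟨fun l => Int.floor_mono (h l).1, fun l =>
        (Int.floor_le_ceil _).trans (Int.ceil_mono (h l).2)⟩,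
      fun l => (Int.floor_mono (h l).1).trans (Int.floor_le_ceil _),
      fun l => Int.ceil_mono (h l).2⟩, rfl⟩

theorem exists_kx {Ω : Set (Rn 3)} (hΩ : IsOpen Ω) {δ : Rn 3 → ℝ} (hδ : ContinuousOn δ Ω)
    (h0 : ∀ x ∈ Ω, 0 < δ x) : ∃ K : Kx Ω, ∀ x ∈ Ω, closure (K.cell x) ⊆ ball x (δ x) := by
  let U : ℕ → Set (Rn 3) := fun n => {x | ∀ y ∈ kbT n x, y ∈ Ω ∧ 1 / 2 ^ n < δ y}
  have uo : ∀ n, IsOpen (U n) := fun n => isOpen_iff_mem_nhds.2 fun x hx =>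
    (kbT_near n x).mono fun y hy z hz => hx z (hy hz)
  have uc : ∀ {n x y}, y ∈ kbC n x → (y ∈ U n ↔ x ∈ U n) := fun h => by
    simp only [U, mem_ofPred_eq, kbT_eq h]
  have un : ∀ x ∈ Ω, {n | x ∈ U n}.Nonempty := fun x hx => by
    obtain ⟨r, hr, H⟩ := nhds_basis_closedBall.eventually_iff.1 ((hΩ.eventually_mem hx).and
      ((hδ.continuousAt (hΩ.mem_nhds hx)).eventually (lt_mem_nhds (half_lt_self (h0 x hx)))))
    obtain ⟨n, hn⟩ := exists_pow_lt_of_lt_one (lt_min hr (half_pos (h0 x hx))) one_half_lt_one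
    rw [one_div_pow, lt_min_iff] at hn
    exact ⟨n, fun y hy => (H (closedBall_subset_closedBall hn.1.le (kbT_sub hy))).imp_right
      hn.2.trans⟩
  let lv : Rn 3 → ℕ := fun x => sInf {n | x ∈ U n}
  have l1 : ∀ x ∈ Ω, x ∈ U (lv x) := fun x hx => Nat.sInf_mem (un x hx)
  have l2 : ∀ {x n}, x ∈ U n → lv x ≤ n := fun h => Nat.sInf_le h
  have sub : ∀ x ∈ Ω, closure (kbC (lv x) x) ⊆ Ω := fun x hx y hy =>
    (l1 x hx y (kbB_sub (kbC_closure ▸ hy))).1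
  have l3 : ∀ x ∈ Ω, ∀ y ∈ kbC (lv x) x, lv y = lv x := fun x hx y hy =>
    have k := l2 ((uc hy).2 (l1 x hx))
    le_antisymm k (l2 ((uc (kbC_anti k hy)).1 (l1 y (sub x hx (subset_closure hy)))))
  refine ⟨⟨fun x => kbC (lv x) x, fun _ _ => kbC_self, fun x hx y hy => ?_, sub,
    fun _ _ => kbC_convex, fun _ _ _ hy _ hz => kbC_opn hy hz,
    fun _ _ => kbC_closure ▸ kbB_poly, fun x hx y hy => ?_, fun C hC hs => ?_⟩,
    fun x hx y hy => ?_⟩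
  · rw [l3 x hx y hy, kbC_eq hy]
  · obtain ⟨z, h1, h2⟩ := mem_closure_iff.1 hy _ (uo _) (l1 y (sub x hx hy))
    rw [kbC_closure] at hy ⊢
    exact (kbC_anti (l3 x hx z h2 ▸ l2 h1)).trans (kbC_sub hy)
  · obtain ⟨t, ht⟩ := hC.elim_finite_subcover U uo fun x hx => mem_iUnion.2 (un x (hs hx))
    refine ((finite_Iic (t.sup id)).biUnion fun n _ => kbC_finite n hC).subset ?_
    rintro _ ⟨x, hx, rfl⟩
    obtain ⟨n, hn, h⟩ := mem_iUnion₂.1 (ht hx)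
    exact mem_biUnion ((l2 h).trans (Finset.le_sup (f := id) hn)) ⟨x, hx, rfl⟩
  · exact closedBall_subset_ball (l1 x hx x (kbB_sub (kbC_closure ▸ subset_closure kbC_self))).2
      (kbT_sub (kbB_sub (kbC_closure ▸ hy)))

end BEp
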