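import Pool.Agent.Work.MP_f0515e_an.D3.LDefs
import Pool.Agent.Work.MP_f0515e_an.D3.PTri
import Pool.Agent.Work.MP_f0515e_an.D3.NLn
import Pool.Agent.Work.MP_f0515e_an.Pos.ACj
import Pool.Agent.Work.MP_f0515e_an.Pos.ALeb
import Pool.Agent.Work.MP_f0515e_an.D3.KBase

-- merged part: Pool.Agent.Work.MP_f0515e_an.D3.LTp
section
-- merged part: Pool.Agent.Work.MP_f0515e_an.D3.LTp
section
/-! Locally piecewise affine maps.
Plan. nhds: exists_compact_between gives a compact C1 in Omega with C in its interior; use the TP map of C1.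
seq: compact exhaustion of the open set (for example IsOpen.exists_iUnion_isCompact or closed balls with rational data), then nhds.
comp: T '' C is compact in Omega. ll: nhds and TP.exists_bound, LL.congr. ae_diff: seq and Rademacher (LipschitzWith.ae_differentiableAt).
tp_supp: TP.of_select with the two maps g1 (equal to g on C) and 0. LLH.pre: GEmb_cpt. LLH.inv: on compact C take C1 = the compact preimage, b LH equal to B on C1, then invFun b works on C.
aem_en: ContinuousOn.aemeasurable and measurable_fderiv. en_tri: ACo_rpow twice. -/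

open Set Metric Filter Topology Function BEv MeasureTheory
open scoped NNReal ENNReal

noncomputable section
namespace BEp

variable {n : ℕ} {Ω C : Set (Rn n)} {F : Type} [NormedAddCommGroup F] [NormedSpace ℝ F]

theorem _root_.BEv.TP.ltp {G : Rn n → F} (h : TP G) (Ω : Set (Rn n)) : LTP Ω G := by
  exact fun C _ _ => ⟨G, h, fun _ _ => rfl⟩

theorem LTP.congr {G G' : Rn n → F} (h : LTP Ω G) (e : EqOn G' G Ω) : LTP Ω G' := by
  intro C hC hs
  obtain ⟨g, hg, e'⟩ := h C hC hs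
  exact ⟨g, hg, fun x hx => (e (hs hx)).trans (e' hx)⟩

theorem LTP.nhds {G : Rn n → F} (h : LTP Ω G) (hΩ : IsOpen Ω) (hC : IsCompact C) (hs : C ⊆ Ω) :
    ∃ g, TP g ∧ ∀ x ∈ C, G =ᶠ[𝓝 x] g := by
  obtain ⟨C1, h1, h2, h3⟩ := exists_compact_between hC hΩ hs
  obtain ⟨g, hg, e⟩ := h C1 h1 h3
  exact ⟨g, hg, fun x hx => e.eventuallyEq_of_mem (mem_interior_iff_mem_nhds.1 (h2 hx))⟩

theorem LTP.seq {G : Rn n → F} (h : LTP Ω G) (hΩ : IsOpen Ω) :
    ∃ g : ℕ → Rn n → F, (∀ k, TP (g k)) ∧ ∀ x ∈ Ω, ∃ k, G =ᶠ[𝓝 x] g k := by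
  have h1 : ∀ x, ∃ g : Rn n → F, TP g ∧ (x ∈ Ω → G =ᶠ[𝓝 x] g) := by
    intro x
    by_cases hx : x ∈ Ω
    · obtain ⟨g, hg, e⟩ := h.nhds hΩ isCompact_singleton (singleton_subset_iff.2 hx)
      exact ⟨g, hg, fun _ => e x rfl⟩
    · exact ⟨fun _ => 0, TP.const 0, fun h => (hx h).elim⟩
  choose g hg e using h1
  obtain ⟨t, -, ht, hc⟩ := TopologicalSpace.countable_cover_nhdsWithin (s := Ω)
    (f := fun x => {y | G =ᶠ[𝓝 y] g x}) fun x hx =>
      mem_nhdsWithin_of_mem_nhds (e x hx).eventuallyEq_nhds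
  obtain ⟨u, hu⟩ := (ht.insert 0).exists_eq_range (insert_nonempty _ _)
  refine ⟨fun k => g (u k), fun k => hg _, fun x hx => ?_⟩
  obtain ⟨y, hy, hxy⟩ := mem_iUnion₂.1 (hc hx)
  obtain ⟨k, rfl⟩ : y ∈ range u := hu ▸ mem_insert_of_mem _ hy
  exact ⟨k, hxy⟩

theorem LTP.continuousOn {G : Rn n → F} (h : LTP Ω G) (hΩ : IsOpen Ω) : ContinuousOn G Ω := by
  intro x hx
  obtain ⟨g, hg, e⟩ := h.nhds hΩ isCompact_singleton (singleton_subset_iff.2 hx)
  exact (hg.continuous.continuousAt.congr (e x rfl).symm).continuousWithinAt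

theorem LTP.comp {G : Rn n → F} {T : Rn n → Rn n} (h : LTP Ω G) (k : LTP Ω T)
    (hm : MapsTo T Ω Ω) : LTP Ω (G ∘ T) := by
  intro C hC hs
  obtain ⟨t, ht, e⟩ := k C hC hs
  obtain ⟨g, hg, e'⟩ := h (t '' C) (hC.image ht.continuous) (by
    rintro _ ⟨x, hx, rfl⟩
    rw [← e hx]
    exact hm (hs hx))
  refine ⟨fun x => g (t x), hg.comp ht, fun x hx => ?_⟩
  rw [comp_apply, e hx]
  exact e' (mem_image_of_mem _ hx)

theorem LTP.ll {G : Rn n → F} (h : LTP Ω G) (hΩ : IsOpen Ω) (hC : IsCompact C) (hs : C ⊆ Ω) :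
    ∃ c : ℝ, 0 ≤ c ∧ ∀ y ∈ C, LL G y c := by
  obtain ⟨g, hg, e⟩ := h.nhds hΩ hC hs
  obtain ⟨L, h1, h2⟩ := hg.exists_bound
  exact ⟨L, by linarith, fun y hy => (LL.of_forall h2 y).congr (e y hy)⟩

theorem LTP.ae_diff {G : Rn n → Rn n} (h : LTP Ω G) (hΩ : IsOpen Ω) :
    ∀ᵐ x, x ∈ Ω → DifferentiableAt ℝ G x := by
  obtain ⟨g, hg, e⟩ := h.seq hΩ
  have h1 : ∀ᵐ x, ∀ k, DifferentiableAt ℝ (g k) x := ae_all_iff.2 fun k => by
    obtain ⟨L, hL⟩ := (hg k).lip
    exact hL.ae_differentiableAt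
  filter_upwards [h1] with x hx hxΩ
  obtain ⟨k, hk⟩ := e x hxΩ
  exact (hx k).congr_of_eventuallyEq hk

theorem LTP.tp_supp {g : Rn n → F} (h : LTP Ω g) (hl : ∃ L : ℝ≥0, LipschitzWith L g)
    (hC : IsCompact C) (hs : C ⊆ Ω) (h0 : ∀ x, x ∉ C → g x = 0) : TP g := by
  obtain ⟨g1, h1, e⟩ := h C hC hs
  refine TP.of_select hl fun R => ⟨{g1, fun _ => 0}, toFinite _, ?_, fun x _ => ?_⟩
  · rintro _ (rfl | rfl)
    exacts [h1, TP.const 0]
  · by_cases hx : x ∈ C
    · exact ⟨g1, mem_insert _ _, e hx⟩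
    · exact ⟨fun _ => 0, mem_insert_of_mem _ rfl, h0 x hx⟩

theorem LLH.ltp {B : Rn n → Rn n} (h : LLH Ω B) : LTP Ω B := by
  intro C hC hs
  obtain ⟨b, hb, e⟩ := h.2 C hC hs
  exact ⟨b, hb.tp, e⟩

theorem LLH.id' (Ω : Set (Rn n)) : LLH Ω id := by
  exact ⟨bijOn_id Ω, fun C _ _ => ⟨id, LH.id', fun _ _ => rfl⟩⟩

theorem LLH.nhds {B : Rn n → Rn n} (h : LLH Ω B) (hΩ : IsOpen Ω) (hC : IsCompact C)
    (hs : C ⊆ Ω) : ∃ b, LH b ∧ ∀ x ∈ C, B =ᶠ[𝓝 x] b := by
  obtain ⟨C1, h1, h2, h3⟩ := exists_compact_between hC hΩ hs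
  obtain ⟨g, hg, e⟩ := h.2 C1 h1 h3
  exact ⟨g, hg, fun x hx => e.eventuallyEq_of_mem (mem_interior_iff_mem_nhds.1 (h2 hx))⟩

theorem LLH.pre {B : Rn n → Rn n} (h : LLH Ω B) (hΩ : IsOpen Ω) (hC : IsCompact C)
    (hs : C ⊆ Ω) : IsCompact {x | x ∈ Ω ∧ B x ∈ C} := by
  exact GEmb_cpt hΩ (h.ltp.continuousOn hΩ) h.1.injOn hC (hs.trans h.1.surjOn)

theorem LLH.comp {B B' : Rn n → Rn n} (h : LLH Ω B) (k : LLH Ω B') : LLH Ω (B ∘ B') := by
  refine ⟨h.1.comp k.1, fun C hC hs => ?_⟩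
  obtain ⟨t, ht, e⟩ := k.2 C hC hs
  obtain ⟨g, hg, e'⟩ := h.2 (t '' C) (hC.image ht.tp.continuous) (by
    rintro _ ⟨x, hx, rfl⟩
    rw [← e hx]
    exact k.1.mapsTo (hs hx))
  refine ⟨g ∘ t, hg.comp ht, fun x hx => ?_⟩
  rw [comp_apply, comp_apply, e hx]
  exact e' (mem_image_of_mem _ hx)

theorem LLH.inv {B : Rn n → Rn n} (h : LLH Ω B) (hΩ : IsOpen Ω) : LLH Ω (invFunOn B Ω) := by
  refine ⟨h.1.symm h.1.invOn_invFunOn.symm, fun C hC hs => ?_⟩
  obtain ⟨b, hb, e⟩ := h.2 _ (h.pre hΩ hC hs) fun x hx => hx.1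
  refine ⟨invFun b, hb.inv, fun y hy => ?_⟩
  have h1 : B (invFunOn B Ω y) = y := h.1.invOn_invFunOn.2 (hs hy)
  have h2 : invFunOn B Ω y ∈ Ω := h.1.surjOn.mapsTo_invFunOn (hs hy)
  refine (hb.inv_eq ?_).symm
  rw [← e ⟨h2, by rw [h1]; exact hy⟩, h1]

theorem aem_en (p : ℝ) {G f : Rn n → Rn n} {D : Rn n → Rn n →L[ℝ] Rn n} (hΩ : IsOpen Ω)
    (hG : ContinuousOn G Ω) (hf : ContinuousOn f Ω) (hD : Measurable D) :
    AEMeasurable (en p G f D) (volume.restrict Ω) := by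
  have h1 : AEMeasurable (fun x => G x - f x) (volume.restrict Ω) :=
    (hG.sub hf).aemeasurable hΩ.measurableSet
  have h2 : Measurable fun x => fderiv ℝ G x - D x := (measurable_fderiv ℝ G).sub hD
  exact (h1.enorm.pow_const p).add (h2.enorm.pow_const p).aemeasurable

theorem en_tri {p : ℝ} (hp : 1 ≤ p) (G G' f : Rn n → Rn n) (D : Rn n → Rn n →L[ℝ] Rn n)
    (x : Rn n) : en p G f D x ≤ 2 ^ p * (en p G G' (fderiv ℝ G') x + en p G' f D x) := by
  unfold en
  refine (add_le_add (ACo_rpow hp (G x) (G' x) (f x))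
    (ACo_rpow hp (fderiv ℝ G x) (fderiv ℝ G' x) (D x))).trans_eq ?_
  ring

theorem en_congr {p : ℝ} {G G' : Rn n → Rn n} {x : Rn n} (h : G =ᶠ[𝓝 x] G') (f : Rn n → Rn n)
    (D : Rn n → Rn n →L[ℝ] Rn n) : en p G f D x = en p G' f D x := by
  unfold en
  rw [h.eq_of_nhds, h.fderiv_eq]

theorem en_self {p : ℝ} (hp : 0 < p) {G G' : Rn n → Rn n} {x : Rn n} (h : G =ᶠ[𝓝 x] G') :
    en p G G' (fderiv ℝ G') x = 0 := by
  unfold en
  rw [h.eq_of_nhds, h.fderiv_eq, sub_self, sub_self]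
  simp only [enorm_eq_nnnorm, nnnorm_zero, ENNReal.coe_zero, ENNReal.zero_rpow_of_pos hp, add_zero]

/-- Integrated triangle inequality. -/
theorem en_int {p : ℝ} (hp : 1 ≤ p) {G G' : Rn n → Rn n} (hΩ : IsOpen Ω)
    (hG : ContinuousOn G Ω) (hG' : ContinuousOn G' Ω) (f : Rn n → Rn n)
    (D : Rn n → Rn n →L[ℝ] Rn n) :
    ∫⁻ x in Ω, en p G f D x ≤
      2 ^ p * ((∫⁻ x in Ω, en p G G' (fderiv ℝ G') x) + ∫⁻ x in Ω, en p G' f D x) := by
  refine (lintegral_mono fun x => en_tri hp G G' f D x).trans_eq ?_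
  rw [lintegral_const_mul' _ _ (ENNReal.rpow_ne_top_of_nonneg (by linarith) (by simp)),
    lintegral_add_left' (aem_en p hΩ hG hG' (measurable_fderiv ℝ G'))]

end BEp
end
end

-- merged part: Pool.Agent.Work.MP_f0515e_an.D3.LGl
section
/-! Gluing of sequences of maps with disjoint supports.
Plan. gli_in: finsum_eq_single. Fam.near: a compact neighbourhood of z in Omega meets finitely many U j; those not containing z are closed, so the complement of their finite union is a neighbourhood.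
measurable_gli: gli phi = piecewise; on the measurable set U i it is phi i, off the union it is id (measurable_of_restrict, or measurable_iUnion style: preimage of s is the union over i of U i n phi i preimage, with the rest).
gli_fin: on a compact C in Omega only the indices in a finite set s matter, so gli phi = z + sum over s. ltp_gli: TP.sum. llh_gli: bijective on Omega piece by piece (Mv.image_eq); on C it equals the composition of the finitely many w i (induction on the finite set, Mv.comp with Mv.mono to the union). -/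

open Set Metric Filter Topology Function BEv MeasureTheory
open scoped NNReal ENNReal

noncomputable section
namespace BEp

variable {n : ℕ} {Ω : Set (Rn n)} {U : ℕ → Set (Rn n)} {φ φ' : ℕ → Rn n → Rn n} {z : Rn n}
  {i : ℕ}

theorem LGl_one (h : ∀ j, j ≠ i → φ j z = z) : gli φ z = φ i z := by
  rw [gli, finsum_eq_single _ i fun j hj => by rw [h j hj, sub_self], add_sub_cancel]

theorem gli_fix (h : ∀ i, φ i z = z) : gli φ z = z := by
  simp [gli, h]

theorem gli_congr (h : ∀ i, φ i z = φ' i z) : gli φ z = gli φ' z := by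
  simp only [gli, h]

theorem gli_in (hU : Fam Ω U) (h : ∀ i x, x ∉ U i → φ i x = x) (hz : z ∈ U i) :
    gli φ z = φ i z := by
  exact LGl_one fun j hj => h j z fun k => Set.disjoint_left.1 (hU.disj j i hj) k hz

theorem Fam.near (hU : Fam Ω U) (hΩ : IsOpen Ω) (hz : z ∈ Ω) :
    ∀ᶠ x in 𝓝 z, ∀ j, x ∈ U j → z ∈ U j := by
  obtain ⟨C, hC, h1, h2⟩ := exists_compact_subset hΩ hz
  have h3 : ∀ j, ∀ᶠ x in 𝓝 z, x ∈ U j → z ∈ U j := fun j => by
    by_cases k : z ∈ U j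
    · exact Eventually.of_forall fun _ _ => k
    · filter_upwards [(hU.cpt j).isClosed.isOpen_compl.mem_nhds k] with x hx hx'
      exact absurd hx' hx
  filter_upwards [(eventually_all_finite (hU.lf C hC h2)).2 fun j _ => h3 j,
    mem_interior_iff_mem_nhds.1 h1] with x hx hx' j hj
  exact hx j ⟨x, hj, hx'⟩ hj

theorem gli_ev (hU : Fam Ω U) (hΩ : IsOpen Ω) (h : ∀ i x, x ∉ U i → φ i x = x) (hz : z ∈ Ω)
    (hi : ∀ j, j ≠ i → z ∉ U j) : gli φ =ᶠ[𝓝 z] φ i := by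
  filter_upwards [hU.near hΩ hz] with x hx
  exact LGl_one fun j hj => h j x fun k => hi j hj (hx j k)

theorem gli_ev_id (hU : Fam Ω U) (hΩ : IsOpen Ω) (h : ∀ i x, x ∉ U i → φ i x = x) (hz : z ∈ Ω)
    (hi : ∀ j, z ∉ U j) : gli φ =ᶠ[𝓝 z] id := by
  filter_upwards [hU.near hΩ hz] with x hx
  exact gli_fix fun j => h j x fun k => hi j (hx j k)

theorem gli_maps (hU : Fam Ω U) (h : ∀ i x, x ∉ U i → φ i x = x)
    (hm : ∀ i, MapsTo (φ i) (U i) (U i)) : MapsTo (gli φ) Ω Ω := by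
  intro x hx
  by_cases k : ∃ i, x ∈ U i
  · obtain ⟨i, k⟩ := k
    rw [gli_in hU h k]
    exact hU.sub i (hm i k)
  · rwa [gli_fix fun j => h j x fun k' => k ⟨j, k'⟩]

theorem measurable_gli (hU : Fam Ω U) (h : ∀ i x, x ∉ U i → φ i x = x)
    (hm : ∀ i, Measurable (φ i)) : Measurable (gli φ) := by
  intro s hs
  have hM : ∀ i, MeasurableSet (U i) := fun i => (hU.cpt i).isClosed.measurableSet
  have e : gli φ ⁻¹' s = (⋃ i, U i ∩ φ i ⁻¹' s) ∪ ((⋃ i, U i)ᶜ ∩ s) := by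
    ext x
    simp only [mem_preimage, mem_union, mem_iUnion, mem_inter_iff, mem_compl_iff]
    by_cases k : ∃ i, x ∈ U i
    · obtain ⟨i, k⟩ := k
      refine ⟨fun k' => Or.inl ⟨i, k, by rwa [← gli_in hU h k]⟩, ?_⟩
      rintro (⟨j, k1, k2⟩ | k')
      · rwa [gli_in hU h k1]
      · exact absurd ⟨i, k⟩ k'.1
    · rw [gli_fix fun j => h j x fun k' => k ⟨j, k'⟩]
      refine ⟨fun k' => Or.inr ⟨k, k'⟩, ?_⟩
      rintro (⟨j, k1, -⟩ | k')
      · exact absurd ⟨j, k1⟩ k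
      · exact k'.2
  rw [e]
  exact (MeasurableSet.iUnion fun i => (hM i).inter (hm i hs)).union
    ((MeasurableSet.iUnion hM).compl.inter hs)

theorem ltp_gli (hU : Fam Ω U) (h : ∀ i x, x ∉ U i → φ i x = x) (ht : ∀ i, TP (φ i)) :
    LTP Ω (gli φ) := by
  intro C hC hs
  refine ⟨fun z => z + ∑ j ∈ (hU.lf C hC hs).toFinset, (φ j z - z),
    TP.id'.add (TP.sum _ fun j _ => (ht j).sub TP.id'), fun x hx => ?_⟩
  rw [gli, finsum_eq_sum_of_support_subset]
  intro j hj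
  rw [Finite.coe_toFinset]
  by_contra k
  exact hj (sub_eq_zero.2 (h j x fun k' => k ⟨x, k', hx⟩))

theorem LGl_fin (hU : Fam Ω U) (h : ∀ i, Mv (U i) (φ i)) (s : Finset ℕ) :
    ∃ b, Mv (⋃ i, U i) b ∧ (∀ i ∈ s, EqOn b (φ i) (U i)) ∧ ∀ i, i ∉ s → EqOn b id (U i) := by
  induction s using Finset.induction_on with
  | empty => exact ⟨id, Mv.id' _, by simp, fun _ _ _ _ => rfl⟩
  | insert a s ha ih =>
    obtain ⟨b, b1, b2, b3⟩ := ih
    refine ⟨φ a ∘ b, ((h a).mono (subset_iUnion U a)).comp b1, fun i hi x hx => ?_,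
      fun i hi x hx => ?_⟩
    · rcases Finset.mem_insert.1 hi with rfl | hi
      · rw [comp_apply, b3 i ha hx, id]
      · rw [comp_apply, b2 i hi hx]
        refine (h a).2 _ fun k => Set.disjoint_left.1 (hU.disj a i fun e => ha (e ▸ hi)) k ?_
        exact (h i).image_eq Subset.rfl ▸ mem_image_of_mem (φ i) hx
    · rw [Finset.mem_insert, not_or] at hi
      rw [comp_apply, b3 i hi.2 hx]
      exact (h a).2 _ fun k => Set.disjoint_left.1 (hU.disj i a hi.1) hx k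

theorem llh_gli (hU : Fam Ω U) (h : ∀ i, Mv (U i) (φ i)) : LLH Ω (gli φ) := by
  have h0 : ∀ i x, x ∉ U i → φ i x = x := fun i => (h i).2
  have hm : ∀ i, MapsTo (φ i) (U i) (U i) := fun i x hx =>
    (h i).image_eq Subset.rfl ▸ mem_image_of_mem (φ i) hx
  have hf : ∀ x, (¬ ∃ i, x ∈ U i) → gli φ x = x := fun x k =>
    gli_fix fun j => h0 j x fun k' => k ⟨j, k'⟩
  have hb : ∀ i x, gli φ x ∈ U i → x ∈ U i := fun i x hx => by
    by_cases k : ∃ i, x ∈ U i
    · obtain ⟨j, k⟩ := k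
      rw [gli_in hU h0 k] at hx
      by_contra k'
      exact Set.disjoint_left.1 (hU.disj i j fun e => k' (e ▸ k)) hx (hm j k)
    · rwa [hf x k] at hx
  refine ⟨⟨gli_maps hU h0 hm, fun x _ y _ e => ?_, fun y hy => ?_⟩, fun C hC hs => ?_⟩
  · by_cases k : ∃ i, gli φ x ∈ U i
    · obtain ⟨i, k⟩ := k
      have k' := hb i y (e ▸ k)
      rw [gli_in hU h0 (hb i x k), gli_in hU h0 k'] at e
      exact (h i).1.inj e
    · have k1 : ∀ w, gli φ w = gli φ x → gli φ w = w := fun w e' => hf w fun ⟨i, k'⟩ =>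
        k ⟨i, by rw [← e', gli_in hU h0 k']; exact hm i k'⟩
      rw [← k1 x rfl, e, k1 y e.symm]
  · by_cases k : ∃ i, y ∈ U i
    · obtain ⟨i, k⟩ := k
      rw [← (h i).image_eq Subset.rfl] at k
      obtain ⟨x, hx, rfl⟩ := k
      exact ⟨x, hU.sub i hx, gli_in hU h0 hx⟩
    · exact ⟨y, hy, hf y k⟩
  · obtain ⟨b, b1, b2, -⟩ := LGl_fin hU h (hU.lf C hC hs).toFinset
    refine ⟨b, b1.1, fun x hx => ?_⟩
    by_cases k : ∃ i, x ∈ U i
    · obtain ⟨i, k⟩ := k
      rw [gli_in hU h0 k, b2 i (by rw [Finite.mem_toFinset]; exact ⟨x, k, hx⟩) k]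
    · rw [hf x k, b1.2 x fun k' => k (mem_iUnion.1 k')]

/-- One more compact set in front of a family. -/
theorem Fam.cons (hU : Fam Ω U) {H : Set (Rn n)} (hH : IsCompact H) (hs : H ⊆ Ω)
    (hd : ∀ i, Disjoint H (U i)) : Fam Ω (fun i => Nat.casesOn i H U) := by
  refine ⟨fun i => ?_, fun i => ?_, fun i j hne => ?_, fun C hC h => ?_⟩
  · cases i
    exacts [hH, hU.cpt _]
  · cases i
    exacts [hs, hU.sub _]
  · cases i <;> cases j
    exacts [absurd rfl hne, hd _, (hd _).symm, hU.disj _ _ fun e => hne (congrArg _ e)]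
  · refine (((hU.lf C hC h).image Nat.succ).insert 0).subset fun i hi => ?_
    cases i
    exacts [mem_insert _ _, mem_insert_of_mem _ (mem_image_of_mem _ hi)]

theorem gli_cons_off (hU : Fam Ω U) (h : ∀ i x, x ∉ U i → φ i x = x) {H : Set (Rn n)}
    (hH : IsClosed H) {ψ : Rn n → Rn n} (hψ : ∀ x, x ∉ H → ψ x = x) (hz : z ∉ H) :
    gli (fun i => Nat.casesOn i ψ φ) =ᶠ[𝓝 z] gli φ := by
  filter_upwards [hH.isOpen_compl.mem_nhds hz] with x hx
  by_cases k : ∃ i, x ∈ U i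
  · obtain ⟨i, k⟩ := k
    rw [gli_in hU h k]
    refine LGl_one (i := i + 1) fun j hj => ?_
    cases j with
    | zero => exact hψ x hx
    | succ j =>
      exact h j x fun k' => Set.disjoint_left.1 (hU.disj j i fun e => hj (congrArg _ e)) k' k
  · have k1 : ∀ j, φ j x = x := fun j => h j x fun k' => k ⟨j, k'⟩
    rw [gli_fix k1]
    refine gli_fix fun j => ?_
    cases j
    exacts [hψ x hx, k1 _]

theorem gli_cons_in (hU : Fam Ω U) (hΩ : IsOpen Ω) (h : ∀ i x, x ∉ U i → φ i x = x)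
    (ψ : Rn n → Rn n) (hz : z ∈ Ω) (hi : ∀ j, z ∉ U j) :
    gli (fun i => Nat.casesOn i ψ φ) =ᶠ[𝓝 z] ψ := by
  filter_upwards [hU.near hΩ hz] with x hx
  refine LGl_one (i := 0) fun j hj => ?_
  cases j with
  | zero => exact absurd rfl hj
  | succ j => exact h j x fun k => hi j (hx j k)

end BEp
end
end

-- merged part: Pool.Agent.Work.MP_f0515e_an.D3.LLev
section
/-! Level functions, bands and moduli.
Plan. exists_lev: d0 x = min (infDist x (complement)) (1/(1+|x|)) (only the second term when Omega is everything) is 1-Lipschitz, positive exactly on Omega, with compact superlevel sets.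
For each k the compact set {1/(k+2) <= d0 <= 1/(k+1)} has a finite subset P k such that the balls of radius d0 p / 2 around its points cover it. d x = sup over p in the union of max (d0 p / 2 - |x - p|) 0 (bounded by 1; use iSup over a subtype together with 0, or sSup).
d <= d0 / 2. On a compact C in Omega, d0 >= c > 0, a term which is positive at x in C has d0 p >= 2c/3, so only finitely many p matter: d = Finset.fold max (or minus cmin of the negatives, TP.cmin, TP.norm_pi).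
exists_eps: k s = floor (1/s), eps s = e (k s) for s > 0 and 0 otherwise, e antitone positive with e k ^ p * volume {d >= 1/(k+1)} <= (1/2)^(k+1) * e. exists_tol: same indexing, uniform continuity of f on {d >= 1/(2(k+1))}, radius at most 1/(2(k+1)); make sequences antitone by a running minimum.
exists_kx': P s = integral of delta from 0 to s is continuous (Monotone.intervalIntegrable, intervalIntegral.continuous_primitive); (P s - P (s/2)) / s lies between delta (s/2) / 2 and delta s; apply exists_kx.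
exists_r: the sets {x in Omega, d x < 3/(k+1)} decrease to the empty set; tendsto_setLIntegral_zero or withDensity and tendsto_measure_iInter. -/

open Set Metric Filter Topology Function BEv MeasureTheory
open scoped NNReal ENNReal

noncomputable section
namespace BEp

variable {n : ℕ} {Ω : Set (Rn n)} {d : Rn n → ℝ} {r a b : ℝ} {i j : ℕ} {x y z : Rn n}

theorem lle_cont (h : ∀ x y, d x ≤ d y + ‖x - y‖) : Continuous d :=
  (LipschitzWith.of_le_add fun x y => by rw [dist_eq_norm]; exact h x y).continuous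

theorem lle_e (hΩ : IsOpen Ω) : ∃ e : Rn n → ℝ, (∀ x y, e x ≤ e y + ‖x - y‖) ∧ (∀ x, 0 ≤ e x) ∧
    ∀ x, 0 < e x ↔ x ∈ Ω := by
  rcases Ωᶜ.eq_empty_or_nonempty with h | h
  · exact ⟨fun _ => 1, fun x y => le_add_of_nonneg_right (norm_nonneg _), fun _ => zero_le_one,
      fun x => by simp [compl_empty_iff.1 h]⟩
  · refine ⟨fun x => infDist x Ωᶜ, fun x y => ?_, fun _ => infDist_nonneg, fun x => ?_⟩
    · rw [← dist_eq_norm]
      exact infDist_le_infDist_add_dist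
    · rw [← hΩ.isClosed_compl.notMem_iff_infDist_pos h, notMem_compl_iff]

theorem lle_d0 (hΩ : IsOpen Ω) : ∃ e : Rn n → ℝ, (∀ x y, e x ≤ e y + ‖x - y‖) ∧ (∀ x, 0 ≤ e x) ∧
    (∀ x, e x ≤ 1) ∧ (∀ x, 0 < e x ↔ x ∈ Ω) ∧ ∀ a, 0 < a → IsCompact {x | a ≤ e x} := by
  obtain ⟨e, h1, h2, h3⟩ := lle_e hΩ
  have k0 : ∀ x : Rn n, 0 < (1 + ‖x‖)⁻¹ := fun x => by positivity
  have k1 : ∀ x : Rn n, (1 + ‖x‖)⁻¹ ≤ 1 := fun x =>
    inv_le_one_of_one_le₀ (le_add_of_nonneg_right (norm_nonneg _))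
  have k2 : ∀ x : Rn n, (1 + ‖x‖)⁻¹ * (1 + ‖x‖) = 1 := fun x => inv_mul_cancel₀ (by positivity)
  have k3 : ∀ x y : Rn n, (1 + ‖x‖)⁻¹ ≤ (1 + ‖y‖)⁻¹ + ‖x - y‖ := fun x y => by
    have a1 := norm_sub_norm_le y x
    rw [norm_sub_rev] at a1
    have a2 : (1 + ‖x‖)⁻¹ * (1 + ‖y‖)⁻¹ ≤ 1 := mul_le_one₀ (k1 x) (k0 y).le (k1 y)
    have a3 := mul_le_mul_of_nonneg_left a1 (mul_pos (k0 x) (k0 y)).le
    have a4 := mul_le_mul_of_nonneg_right a2 (norm_nonneg (x - y))
    have a5 : (1 + ‖x‖)⁻¹ * (1 + ‖y‖)⁻¹ * (‖y‖ - ‖x‖) = (1 + ‖x‖)⁻¹ - (1 + ‖y‖)⁻¹ := by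
      linear_combination (1 + ‖x‖)⁻¹ * k2 y - (1 + ‖y‖)⁻¹ * k2 x
    linarith only [a3, a4, a5]
  have k4 : ∀ x y, min (e x) (1 + ‖x‖)⁻¹ ≤ min (e y) (1 + ‖y‖)⁻¹ + ‖x - y‖ := fun x y => by
    rw [← min_add_add_right]
    exact min_le_min (h1 x y) (k3 x y)
  refine ⟨fun x => min (e x) (1 + ‖x‖)⁻¹, k4, fun x => le_min (h2 x) (k0 x).le,
    fun x => (min_le_right _ _).trans (k1 x), fun x => by simp only [lt_min_iff, h3, k0, and_true],
    fun a ha => (isCompact_closedBall (0 : Rn n) a⁻¹).of_isClosed_subset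
      (isClosed_le continuous_const (lle_cont k4)) fun x hx => ?_⟩
  have a1 : a ≤ (1 + ‖x‖)⁻¹ := le_trans hx (min_le_right _ _)
  rw [le_inv_comm₀ ha (by positivity)] at a1
  rw [mem_closedBall_zero_iff]
  linarith

theorem lle_net {e : Rn n → ℝ} (h1 : Continuous e) (h2 : ∀ x, e x ≤ 1)
    (h3 : ∀ a, 0 < a → IsCompact {x | a ≤ e x}) : ∃ P : Set (Rn n),
      (∀ a, 0 < a → {p | p ∈ P ∧ a ≤ e p}.Finite) ∧ ∀ x, 0 < e x → ∃ p ∈ P, ‖x - p‖ < e p / 2 := by
  have k : ∀ k : ℕ, ∃ t : Finset (Rn n), (∀ p ∈ t, e p ≤ (1 / 2) ^ k) ∧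
      ∀ x, (1 / 2) ^ (k + 1) ≤ e x → e x ≤ (1 / 2) ^ k → ∃ p ∈ t, ‖x - p‖ < e p / 2 := fun k => by
    obtain ⟨t, a1, a2⟩ := ((h3 ((1 / 2) ^ (k + 1)) (by positivity)).inter_right
      (isClosed_le h1 (continuous_const (y := (1 / 2 : ℝ) ^ k)))).elim_nhds_subcover
      (fun p => ball p (e p / 2)) fun p hp =>
        ball_mem_nhds p (half_pos (lt_of_lt_of_le (by positivity) hp.1))
    refine ⟨t, fun p hp => (a1 p hp).2, fun x b1 b2 => ?_⟩
    obtain ⟨p, hp, b3⟩ := mem_iUnion₂.1 (a2 ⟨b1, b2⟩)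
    exact ⟨p, hp, mem_ball_iff_norm.1 b3⟩
  choose t a1 a2 using k
  refine ⟨⋃ k, t k, fun a ha => ?_, fun x hx => ?_⟩
  · obtain ⟨N, hN⟩ := exists_pow_lt_of_lt_one ha (by norm_num : (1 / 2 : ℝ) < 1)
    refine ((finite_Iic N).biUnion fun k _ => (t k).finite_toSet).subset fun p hp => ?_
    obtain ⟨k, hk⟩ := mem_iUnion.1 hp.1
    refine mem_iUnion₂.2 ⟨k, mem_Iic.2 (not_lt.1 fun b => ?_), hk⟩
    have := pow_le_pow_of_le_one (by norm_num : (0 : ℝ) ≤ 1 / 2) (by norm_num) b.le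
    linarith only [hN, this, a1, hk, hp, a1 k p hk, hp.2]
  · obtain ⟨k, b1, b2⟩ := exists_nat_pow_near_of_lt_one hx (h2 x) (by norm_num : (0 : ℝ) < 1 / 2)
      (by norm_num)
    obtain ⟨p, hp, b3⟩ := a2 k x b1.le b2
    exact ⟨p, mem_iUnion.2 ⟨k, hp⟩, b3⟩

theorem exists_lev (hΩ : IsOpen Ω) : ∃ d, Lev Ω d := by
  obtain ⟨e, h1, h2, h3, h4, h5⟩ := lle_d0 hΩ
  obtain ⟨P, k1, k2⟩ := lle_net (lle_cont h1) h3 h5
  obtain ⟨d, a1, a2, a3⟩ : ∃ d : Rn n → ℝ, (∀ x, 0 ≤ d x) ∧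
      (∀ x, ∀ p ∈ P, e p / 2 - ‖x - p‖ ≤ d x) ∧
      ∀ x c, 0 ≤ c → (∀ p ∈ P, e p / 2 - ‖x - p‖ ≤ c) → d x ≤ c := by
    have b : ∀ x, BddAbove (insert 0 ((fun p => e p / 2 - ‖x - p‖) '' P)) := fun x =>
      BddAbove.insert _ ⟨1, forall_mem_image.2 fun p _ => by
        linarith only [h3, h3 p, norm_nonneg (x - p)]⟩
    exact ⟨fun x => sSup (insert 0 ((fun p => e p / 2 - ‖x - p‖) '' P)),
      fun x => le_csSup (b x) (mem_insert _ _),
      fun x p hp => le_csSup (b x) (mem_insert_of_mem _ ⟨p, hp, rfl⟩),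
      fun x c c0 hc => csSup_le (insert_nonempty _ _)
        (forall_mem_insert.2 ⟨c0, forall_mem_image.2 hc⟩)⟩
  have a4 : ∀ x y, d x ≤ d y + ‖x - y‖ := fun x y =>
    a3 x _ (add_nonneg (a1 y) (norm_nonneg _)) fun p hp => by
      linarith only [a2, hp, a2 y p hp, norm_sub_le_norm_sub_add_norm_sub y x p, norm_sub_rev x y]
  have a5 : ∀ x, d x ≤ e x := fun x => a3 x _ (h2 x) fun p _ => by
    linarith [h1 p x, norm_sub_rev x p, h2 x, norm_nonneg (x - p)]
  refine ⟨d, fun x y => abs_sub_le_iff.2 ⟨?_, ?_⟩, a1,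
    fun x => ⟨fun h => (h4 x).1 (h.trans_le (a5 x)), fun h => ?_⟩,
    fun a ha => (h5 a ha).of_isClosed_subset (isClosed_le continuous_const (lle_cont a4))
      fun x hx => le_trans hx (a5 x), fun C hC hs => ?_⟩
  · linarith [a4 x y]
  · linarith [a4 y x, norm_sub_rev x y]
  · obtain ⟨p, hp, b⟩ := k2 x ((h4 x).2 h)
    linarith [a2 x p hp]
  · obtain ⟨c, c0, hc⟩ := hC.exists_forall_le' (a := 0) (lle_cont h1).continuousOn
      fun x hx => (h4 x).2 (hs hx)
    have f := k1 _ (half_pos c0)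
    refine ⟨fun x => -cmin f.toFinset 0 fun p => ‖x - p‖ - e p / 2,
      (TP.cmin _ (TP.const 0) fun p _ =>
        (TP.id'.sub (TP.const p)).norm_pi.sub (TP.const _)).neg, fun x hx => le_antisymm ?_ ?_⟩
    · have b0 := cmin_le_cap f.toFinset 0 fun p => ‖x - p‖ - e p / 2
      refine a3 x _ (neg_nonneg.2 b0) fun p hp => ?_
      by_cases b : c / 2 ≤ e p
      · have := cmin_le f.toFinset 0 (fun p => ‖x - p‖ - e p / 2) (f.mem_toFinset.2 ⟨hp, b⟩)
        linarith only [f, this]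
      · linarith only [f, c0, b0, b, hc, hx, h1, hc x hx, h1 x p]
    · refine neg_le.1 (le_cmin _ _ _ (neg_nonpos.2 (a1 x)) fun p hp => ?_)
      linarith [a2 x p (f.mem_toFinset.1 hp).1]

theorem Lev.continuous (hd : Lev Ω d) : Continuous d := by
  exact lle_cont fun x y => by linarith [(abs_le.1 (hd.lip x y)).2]

theorem Lev.isOpen (hd : Lev Ω d) : IsOpen Ω := by
  convert isOpen_lt (continuous_const (y := (0 : ℝ))) hd.continuous using 1
  ext x
  exact (hd.pos x).symm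

theorem Lev.low (hd : Lev Ω d) {C : Set (Rn n)} (hC : IsCompact C) (hs : C ⊆ Ω) :
    ∃ c : ℝ, 0 < c ∧ ∀ x ∈ C, c ≤ d x := by
  exact hC.exists_forall_le' hd.continuous.continuousOn fun x hx => (hd.pos x).2 (hs hx)

theorem bnd_cpt (hd : Lev Ω d) (hr : 0 < r) (ha : 0 < a) (b : ℝ) (j : ℕ) :
    IsCompact (bnd d r a b j) := by
  refine (hd.cpt (a * (r / 2 ^ j)) (by positivity)).inter_right (t := {x | j ≠ 0 → d x ≤ _}) ?_
  by_cases h : j = 0
  · simp [h]
  · simpa [h] using isClosed_le hd.continuous continuous_const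

theorem bnd_sub (hd : Lev Ω d) (hr : 0 < r) (ha : 0 < a) (b : ℝ) (j : ℕ) : bnd d r a b j ⊆ Ω := by
  exact fun x hx => (hd.pos x).1 (lt_of_lt_of_le (by positivity) hx.1)

theorem bnd_mono (hr : 0 < r) {a' b' : ℝ} (ha : a' ≤ a) (hb : b ≤ b') (j : ℕ) :
    bnd d r a b j ⊆ bnd d r a' b' j := by
  exact fun x hx => ⟨(mul_le_mul_of_nonneg_right ha (by positivity)).trans hx.1,
    fun h => (hx.2 h).trans (mul_le_mul_of_nonneg_right hb (by positivity))⟩

theorem bnd_lf (hd : Lev Ω d) (hr : 0 < r) (a b : ℝ) {C : Set (Rn n)} (hC : IsCompact C)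
    (hs : C ⊆ Ω) : {j | (bnd d r a b j ∩ C).Nonempty}.Finite := by
  have _ := hr
  obtain ⟨c, c0, hc⟩ := hd.low hC hs
  have h1 : Tendsto (fun j : ℕ => b * (r / 2 ^ j)) atTop (𝓝 0) := by
    simpa using (tendsto_const_nhds (x := r).div_atTop
      (tendsto_pow_atTop_atTop_of_one_lt (one_lt_two (α := ℝ)))).const_mul b
  obtain ⟨N, hN⟩ := eventually_atTop.1 (h1.eventually_lt_const c0)
  refine (finite_Iic N).subset fun j ⟨x, hx, hx'⟩ => mem_Iic.2 (not_lt.1 fun k => ?_)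
  linarith only [hc, hx', hx, k, hN, hc x hx', hx.2 (by omega), hN j k.le]

theorem exists_lyA (hd : Lev Ω d) (hr : 0 < r) (hx : x ∈ Ω) : ∃ j, x ∈ lyA d r j := by
  rcases le_total (d x) r with h | h
  · obtain ⟨j, b1, b2⟩ := exists_nat_pow_near_of_lt_one (div_pos ((hd.pos x).2 hx) hr)
      ((div_le_one hr).2 h) (by norm_num : (0 : ℝ) < 1 / 2) (by norm_num)
    rw [lt_div_iff₀ hr, pow_succ, one_div_pow] at b1
    rw [div_le_iff₀ hr, one_div_pow] at b2
    refine ⟨j, le_trans (le_of_eq ?_) b1.le, fun _ => b2.trans (le_of_eq ?_)⟩ <;> ring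
  · exact ⟨0, by rw [pow_zero]; linarith, fun k => absurd rfl k⟩

theorem lle_sc (hr : 0 < r) {k : ℕ} (h : i + k ≤ j) : r / 2 ^ j ≤ r / 2 ^ i / 2 ^ k := by
  rw [div_div, ← pow_add]
  exact div_le_div_of_nonneg_left hr.le (by positivity) (pow_le_pow_right₀ one_le_two h)

theorem fam_lyS (hd : Lev Ω d) (hr : 0 < r) (π : ℕ) : Fam Ω fun i => lyS d r (2 * i + π) := by
  have k : ∀ i j : ℕ, i < j → Disjoint (lyS d r (2 * i + π)) (lyS d r (2 * j + π)) :=
    fun i j h => disjoint_left.2 fun x h1 h2 => by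
      have a1 := lle_sc hr (show 2 * i + π + 2 ≤ 2 * j + π by omega)
      have a2 : 0 < r / 2 ^ (2 * i + π) := by positivity
      linarith only [a1, a2, h1, h2, h, h1.1, h2.2 (by omega)]
  refine ⟨fun i => bnd_cpt hd hr (by norm_num) _ _, fun i => bnd_sub hd hr (by norm_num) _ _,
    fun i j h => (lt_or_gt_of_ne h).elim (k i j) fun h => (k j i h).symm, fun C hC hs => ?_⟩
  exact (bnd_lf hd hr _ _ hC hs).preimage (f := fun i => 2 * i + π) fun i _ j _ h => by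
    simpa using h

theorem lyA_idx (hr : 0 < r) (hz : z ∈ lyA d r j) (hy : y ∈ lyS d r i) (h : d y ≤ 2 * d z) :
    j ≤ i + 2 := by
  by_contra k
  have a1 := lle_sc hr (show i + 3 ≤ j by omega)
  have a2 : 0 < r / 2 ^ i := by positivity
  linarith only [h, a1, a2, hy, hz, k, hy.1, hz.2 (by omega)]

theorem lyA_near (hd : Lev Ω d) (hr : 0 < r) (hz : z ∈ lyA d r j)
    (h : ‖y - z‖ ≤ r / 2 ^ j / 32) : y ∈ lyF d r j := by
  have a1 := abs_le.1 ((hd.lip y z).trans h)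
  have a2 : 0 < r / 2 ^ j := by positivity
  exact ⟨by linarith only [a1, hz, hz.1, a1.1], fun k => by linarith only [a1, a2, hz, k, hz.2 k, a1.2]⟩

theorem aa_nonneg (hd : Lev Ω d) (hr : 0 < r) (x : Rn n) : 0 ≤ aa d r x := by
  exact le_min zero_le_one (div_nonneg (mul_nonneg zero_le_two (hd.nn x)) hr.le)

theorem aa_le_one (d : Rn n → ℝ) (r : ℝ) (x : Rn n) : aa d r x ≤ 1 := min_le_left _ _

theorem aa_le (d : Rn n → ℝ) (r : ℝ) (x : Rn n) : aa d r x ≤ 2 * d x / r := min_le_right _ _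

theorem aa_pos (hd : Lev Ω d) (hr : 0 < r) : 0 < aa d r x ↔ x ∈ Ω := by
  rw [aa, lt_min_iff, div_pos_iff_of_pos_right hr, mul_pos_iff_of_pos_left two_pos, hd.pos]
  exact and_iff_right one_pos

theorem aa_lip (hd : Lev Ω d) (hr : 0 < r) (x y : Rn n) :
    |aa d r x - aa d r y| ≤ 2 / r * ‖x - y‖ := by
  refine (abs_min_sub_min_le_max _ _ _ _).trans (max_le ?_ ?_)
  · rw [sub_self, abs_zero]
    positivity
  · rw [show 2 * d x / r - 2 * d y / r = 2 / r * (d x - d y) by ring, abs_mul,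
      abs_of_pos (by positivity)]
    exact mul_le_mul_of_nonneg_left (hd.lip x y) (by positivity)

theorem aa_one (hr : 0 < r) (h : r / 2 ≤ d x) : aa d r x = 1 := by
  exact min_eq_left ((one_le_div hr).2 (by linarith))

theorem aa_lyS (hr : 0 < r) (h : x ∈ lyS d r j) : 7 / 8 / 2 ^ j ≤ aa d r x := by
  refine le_min ((div_le_one (by positivity)).2 (le_trans (by norm_num) (one_le_pow₀ one_le_two)))
    ((le_div_iff₀ hr).2 (le_trans (le_of_eq ?_) (mul_le_mul_of_nonneg_left h.1 zero_le_two)))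
  ring

theorem aa_lyA (hr : 0 < r) (h : x ∈ lyA d r j) : aa d r x ≤ 2 / 2 ^ j := by
  by_cases k : j = 0
  · rw [k, pow_zero]
    linarith only [aa_le_one d r x]
  · refine (aa_le d r x).trans ((div_le_iff₀ hr).2
      ((mul_le_mul_of_nonneg_left (h.2 k) zero_le_two).trans (le_of_eq ?_)))
    ring

/-- Points within a few local scales have comparable scale and level. -/
theorem aa_near (hd : Lev Ω d) (hr : 0 < r) {η : ℝ} (hη : 1024 * η ≤ r)
    (h : ‖y - z‖ ≤ 10 * η * aa d r z) : |aa d r y - aa d r z| ≤ aa d r z / 50 ∧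
      |d y - d z| ≤ d z / 50 := by
  have a1 := aa_nonneg hd hr z
  have a2 : ‖y - z‖ ≤ r / 100 * aa d r z := h.trans (mul_le_mul_of_nonneg_right (by linarith only [hr, hη]) a1)
  constructor
  · refine (aa_lip hd hr y z).trans
      ((mul_le_mul_of_nonneg_left a2 (by positivity)).trans (le_of_eq ?_))
    field_simp
    ring
  · refine (hd.lip y z).trans (a2.trans
      ((mul_le_mul_of_nonneg_left (aa_le d r z) (by positivity)).trans (le_of_eq ?_)))
    field_simp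
    ring

theorem lle_mp {e : ℕ → ℝ} (he : ∀ k, 0 < e k) :
    ∃ σ, MP σ ∧ ∀ s, 0 < s → ∃ k : ℕ, 1 / ((k : ℝ) + 1) ≤ s ∧ σ s ≤ e k := by
  have h0 : ∀ k, 0 < cmin (Finset.range (k + 1)) 1 e := fun k => by
    rcases cmin_eq (Finset.range (k + 1)) 1 e with h | ⟨j, -, h⟩ <;> rw [h]
    exacts [one_pos, he j]
  refine ⟨fun s => if 0 < s then cmin (Finset.range (⌊1 / s⌋₊ + 1)) 1 e else 0,
    ⟨fun s t h => ?_, fun s hs => ?_⟩, fun s hs => ⟨⌊1 / s⌋₊, ?_, ?_⟩⟩
  · beta_reduce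
    split_ifs with h1 h2 h2
    · refine le_cmin _ _ _ (cmin_le_cap _ _ _) fun j hj => cmin_le _ _ _ ?_
      have := Nat.floor_mono (one_div_le_one_div_of_le h1 h)
      rw [Finset.mem_range] at hj ⊢
      omega
    · exact absurd (h1.trans_le h) h2
    · exact (h0 _).le
    · exact le_rfl
  · beta_reduce
    rw [if_pos hs]
    exact h0 _
  · exact (one_div_le (by positivity) hs).2 (Nat.lt_floor_add_one _).le
  · beta_reduce
    rw [if_pos hs]
    exact cmin_le _ _ _ (Finset.self_mem_range_succ _)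

theorem exists_eps (hd : Lev Ω d) {p : ℝ} (hp : 0 < p) {e : ℝ≥0∞} (he : e ≠ 0) :
    ∃ ε, MP ε ∧ ∫⁻ x in Ω, ENNReal.ofReal (ε (d x)) ^ p ≤ e := by
  obtain ⟨δ, h1, h2⟩ := ENNReal.exists_pos_sum_of_countable he ℕ
  have k : ∀ k : ℕ, ∃ t : ℝ, 0 < t ∧
      ENNReal.ofReal t ^ p * volume {x | 1 / ((k : ℝ) + 1) ≤ d x} ≤ δ k := fun k => by
    have c : Continuous fun t : ℝ => ENNReal.ofReal t ^ p * volume {x | 1 / ((k : ℝ) + 1) ≤ d x} :=
      (ENNReal.continuous_mul_const (hd.cpt _ Nat.one_div_pos_of_nat).measure_lt_top.ne).comp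
        (ENNReal.continuous_rpow_const.comp ENNReal.continuous_ofReal)
    have c0 := c.tendsto 0
    rw [ENNReal.ofReal_zero, ENNReal.zero_rpow_of_pos hp, zero_mul] at c0
    have c1 := c0.eventually_le_const (ENNReal.coe_pos.2 (h1 k))
    exact (self_mem_nhdsWithin (a := (0 : ℝ)) (s := Ioi 0) |> Filter.Eventually.and
      <| mem_nhdsWithin_of_mem_nhds c1).exists
  choose t t0 ht using k
  obtain ⟨σ, s1, s2⟩ := lle_mp t0
  have m : ∀ k : ℕ, MeasurableSet {x | 1 / ((k : ℝ) + 1) ≤ d x} := fun k =>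
    (hd.cpt _ Nat.one_div_pos_of_nat).measurableSet
  refine ⟨σ, s1, ?_⟩
  calc _ ≤ ∫⁻ x in Ω, ∑' k : ℕ, indicator {x | 1 / ((k : ℝ) + 1) ≤ d x}
        (fun _ => ENNReal.ofReal (t k) ^ p) x := by
        refine setLIntegral_mono' hd.isOpen.measurableSet fun x hx => ?_
        obtain ⟨k, a1, a2⟩ := s2 _ ((hd.pos x).2 hx)
        refine le_trans ?_ (ENNReal.le_tsum k)
        rw [indicator_of_mem (by exact a1)]
        exact ENNReal.rpow_le_rpow (ENNReal.ofReal_le_ofReal a2) hp.le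
    _ ≤ ∑' k, (δ k : ℝ≥0∞) := by
        refine (setLIntegral_le_lintegral _ _).trans ?_
        rw [lintegral_tsum fun k => (measurable_const.indicator (m k)).aemeasurable]
        refine ENNReal.tsum_le_tsum fun k => ?_
        rw [lintegral_indicator_const (m k)]
        exact ht k
    _ ≤ e := h2.le

theorem exists_tol (hd : Lev Ω d) {f : Rn n → Rn n} (hf : ContinuousOn f Ω) {ε : ℝ → ℝ}
    (hε : MP ε) : ∃ δ, MP δ ∧ ∀ x ∈ Ω, ∀ y, ‖y - x‖ ≤ δ (d x) → ‖f y - f x‖ ≤ ε (d x) := by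
  have k : ∀ k : ℕ, ∃ t : ℝ, 0 < t ∧ ∀ x y, 1 / ((k : ℝ) + 1) ≤ d x → ‖y - x‖ ≤ t →
      ‖f y - f x‖ ≤ ε (1 / ((k : ℝ) + 1)) := fun k => by
    have a0 : (0 : ℝ) < 1 / ((k : ℝ) + 1) := Nat.one_div_pos_of_nat
    generalize 1 / ((k : ℝ) + 1) = c at a0
    obtain ⟨ρ, r0, hρ⟩ := Metric.uniformContinuousOn_iff.1
      ((hd.cpt _ (half_pos a0)).uniformContinuousOn_of_continuous
        (hf.mono fun x hx => (hd.pos x).1 ((half_pos a0).trans_le hx))) _ (hε.2 c a0)
    refine ⟨min (ρ / 2) (c / 2), by positivity, fun x y h1 h2 => ?_⟩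
    rw [le_min_iff] at h2
    have a1 := (abs_le.1 (hd.lip y x)).1
    rw [← dist_eq_norm]
    refine (hρ y ?_ x ?_ ?_).le
    · change c / 2 ≤ d y
      linarith only [h1, h2, a1, h2.2]
    · change c / 2 ≤ d x
      linarith
    · rw [dist_eq_norm]
      linarith [h2.1]
  choose t t0 ht using k
  obtain ⟨σ, s1, s2⟩ := lle_mp t0
  refine ⟨σ, s1, fun x hx y hy => ?_⟩
  obtain ⟨k, a1, a2⟩ := s2 _ ((hd.pos x).2 hx)
  exact (ht k x y a1 (hy.trans a2)).trans (hε.1 a1)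

theorem exists_kx' {Ω : Set (Rn 3)} {d : Rn 3 → ℝ} (hd : Lev Ω d) {δ : ℝ → ℝ} (hδ : MP δ) :
    ∃ K : Kx Ω, ∀ x ∈ Ω, closure (K.cell x) ⊆ ball x (δ (d x)) := by
  have hi : ∀ a b, IntervalIntegrable δ volume a b := fun a b => hδ.1.intervalIntegrable
  have hc := intervalIntegral.continuous_primitive hi 0
  have k : ∀ s : ℝ, 0 < s → 0 < ((∫ t in (0 : ℝ)..s, δ t) - ∫ t in (0 : ℝ)..s / 2, δ t) / s ∧
      ((∫ t in (0 : ℝ)..s, δ t) - ∫ t in (0 : ℝ)..s / 2, δ t) / s ≤ δ s := fun s hs => by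
    rw [intervalIntegral.integral_interval_sub_left (hi _ _) (hi _ _)]
    have a0 : s / 2 ≤ s := half_le_self hs.le
    have a1 := intervalIntegral.integral_mono_on a0 intervalIntegrable_const (hi _ _)
      fun t ht => hδ.1 ht.1
    have a2 := intervalIntegral.integral_mono_on a0 (hi _ _) intervalIntegrable_const
      fun t ht => hδ.1 ht.2
    rw [intervalIntegral.integral_const, smul_eq_mul] at a1 a2
    have a3 := mul_pos hs (hδ.2 _ (half_pos hs))
    have a4 := mul_pos hs (hδ.2 _ hs)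
    exact ⟨div_pos (by linarith only [a1, a3]) hs, (div_le_iff₀ hs).2 (by linarith only [a1, a2, a3])⟩
  obtain ⟨K, hK⟩ := exists_kx hd.isOpen
    (δ := fun x => ((∫ t in (0 : ℝ)..d x, δ t) - ∫ t in (0 : ℝ)..d x / 2, δ t) / d x)
    (((hc.comp hd.continuous).sub (hc.comp (hd.continuous.div_const 2))).continuousOn.div
      hd.continuous.continuousOn fun x hx => ((hd.pos x).2 hx).ne')
    fun x hx => (k _ ((hd.pos x).2 hx)).1
  exact ⟨K, fun x hx => (hK x hx).trans (ball_subset_ball (k _ ((hd.pos x).2 hx)).2)⟩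

theorem exists_r (hd : Lev Ω d) {Φ : Rn n → ℝ≥0∞} (h : ∫⁻ x in Ω, Φ x ≠ ⊤) {e : ℝ≥0∞}
    (he : e ≠ 0) : ∃ r : ℝ, 0 < r ∧ ∫⁻ x in {x | x ∈ Ω ∧ d x < 3 * r}, Φ x ≤ e := by
  have m : ∀ k : ℕ, MeasurableSet {x | x ∈ Ω ∧ d x < 3 * (1 / ((k : ℝ) + 1))} := fun k =>
    (hd.isOpen.inter (isOpen_lt hd.continuous continuous_const)).measurableSet
  have h1 := tendsto_measure_iInter_atTop (μ := volume.withDensity Φ)
    (fun k => (m k).nullMeasurableSet)
    (fun i j hij x hx => ⟨hx.1, hx.2.trans_le (mul_le_mul_of_nonneg_left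
      (Nat.one_div_le_one_div hij) zero_le_three)⟩)
    ⟨0, by
      rw [withDensity_apply _ (m 0)]
      exact ne_top_of_le_ne_top h (lintegral_mono_set fun x hx => hx.1)⟩
  have h2 : ⋂ k : ℕ, {x | x ∈ Ω ∧ d x < 3 * (1 / ((k : ℝ) + 1))} = ∅ := by
    refine eq_empty_of_forall_notMem fun x hx => ?_
    rw [mem_iInter] at hx
    obtain ⟨k, hk⟩ := exists_nat_one_div_lt (div_pos ((hd.pos x).2 (hx 0).1) three_pos)
    linarith only [hk, hx, (hx k).2]
  rw [h2, measure_empty] at h1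
  obtain ⟨k, hk⟩ := (h1.eventually_le_const (pos_iff_ne_zero.2 he)).exists
  exact ⟨_, Nat.one_div_pos_of_nat, by rwa [comp_apply, withDensity_apply _ (m k)] at hk⟩

end BEp
end
end
end

-- merged part: Pool.Agent.Work.MP_f0515e_an.D3.O1
section
/-! Piecewise linear speed profiles on the unit interval. -/

open Set Metric Filter Topology Function BEv MeasureTheory
open scoped NNReal ENNReal

noncomputable section
namespace BEp

/-- Clamp to the unit interval. -/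
def ocl (x : ℝ) : ℝ := max 0 (min x 1)

/-- Interpolation of `H` with mesh `1 / n`. -/
def oip (H : ℝ → ℝ) (n : ℕ) (t : ℝ) : ℝ :=
  H 0 + ∑ k ∈ Finset.range n, (H (((k : ℝ) + 1) / n) - H (k / n)) * ocl (n * t - k)

/-- Slope of the interpolation. -/
def osl (H : ℝ → ℝ) (n : ℕ) (t : ℝ) : ℝ :=
  n * (H (((⌊(n : ℝ) * t⌋ : ℝ) + 1) / n) - H ((⌊(n : ℝ) * t⌋ : ℝ) / n))

theorem ocl_mono {x y : ℝ} (h : x ≤ y) : ocl x ≤ ocl y :=
  max_le_max le_rfl (min_le_min h le_rfl)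

theorem ocl_zero {x : ℝ} (h : x ≤ 0) : ocl x = 0 := by
  unfold ocl
  rw [min_eq_left (by linarith), max_eq_left h]

theorem ocl_one {x : ℝ} (h : 1 ≤ x) : ocl x = 1 := by
  unfold ocl
  rw [min_eq_right h, max_eq_right zero_le_one]

theorem ocl_self {x : ℝ} (h : 0 ≤ x) (h' : x ≤ 1) : ocl x = x := by
  unfold ocl
  rw [min_eq_left h', max_eq_right h]

theorem ocl_sum (n : ℕ) (x : ℝ) :
    ∑ k ∈ Finset.range n, ocl (x - k) = max 0 (min x n) := by
  induction n with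
  | zero => simp
  | succ n ih =>
    rw [Finset.sum_range_succ, ih]
    have hn : (0 : ℝ) ≤ n := Nat.cast_nonneg n
    push_cast
    unfold ocl
    simp only [max_def, min_def]
    split_ifs <;> linarith

theorem tp_oip (H : ℝ → ℝ) (n : ℕ) : TP (oip H n) := by
  refine (TP.const _).add (TP.sum _ fun k _ => TP.const_mul _ ?_)
  exact (TP.const _).max (((TP.id'.const_mul _).sub (TP.const _)).min (TP.const _))

theorem oip_sub {H : ℝ → ℝ} {n : ℕ} (hn : 0 < n) {a b : ℝ}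
    (h : ∀ s t, s ≤ t → a * (t - s) ≤ H t - H s ∧ H t - H s ≤ b * (t - s)) {s t : ℝ}
    (hs : 0 ≤ s) (hst : s ≤ t) (ht : t ≤ 1) :
    a * (t - s) ≤ oip H n t - oip H n s ∧ oip H n t - oip H n s ≤ b * (t - s) := by
  have hn' : (0 : ℝ) < n := Nat.cast_pos.2 hn
  have e : oip H n t - oip H n s = ∑ k ∈ Finset.range n,
      (H (((k : ℝ) + 1) / n) - H (k / n)) * (ocl (n * t - k) - ocl (n * s - k)) := by
    unfold oip
    rw [add_sub_add_left_eq_sub, ← Finset.sum_sub_distrib]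
    exact Finset.sum_congr rfl fun k _ => by ring
  have e2 : ∑ k ∈ Finset.range n, (ocl (n * t - k) - ocl (n * s - k)) = n * (t - s) := by
    rw [Finset.sum_sub_distrib, ocl_sum, ocl_sum, min_eq_left (by linarith only [ht, mul_nonneg_of_nonpos_of_nonpos (Mathlib.Tactic.Linarith.sub_nonpos_of_le (Mathlib.Tactic.Linarith.natCast_nonneg ℝ n)) (Mathlib.Tactic.Linarith.sub_nonpos_of_le ht)]),
      min_eq_left (by linarith only [hst, ht, mul_nonneg_of_nonpos_of_nonpos (Mathlib.Tactic.Linarith.sub_nonpos_of_le (Mathlib.Tactic.Linarith.natCast_nonneg ℝ n)) (Mathlib.Tactic.Linarith.sub_nonpos_of_le hst), mul_nonneg_of_nonpos_of_nonpos (Mathlib.Tactic.Linarith.sub_nonpos_of_le (Mathlib.Tactic.Linarith.natCast_nonneg ℝ n)) (Mathlib.Tactic.Linarith.sub_nonpos_of_le ht)]), max_eq_right (by linarith only [hs, hst, mul_nonneg_of_nonpos_of_nonpos (Mathlib.Tactic.Linarith.sub_nonpos_of_le (Mathlib.Tactic.Linarith.natCast_nonneg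 ℝ n)) (Mathlib.Tactic.Linarith.sub_nonpos_of_le hs), mul_nonneg_of_nonpos_of_nonpos (Mathlib.Tactic.Linarith.sub_nonpos_of_le (Mathlib.Tactic.Linarith.natCast_nonneg ℝ n)) (Mathlib.Tactic.Linarith.sub_nonpos_of_le hst)]), max_eq_right (by linarith only [hs, mul_nonneg_of_nonpos_of_nonpos (Mathlib.Tactic.Linarith.sub_nonpos_of_le (Mathlib.Tactic.Linarith.natCast_nonneg ℝ n)) (Mathlib.Tactic.Linarith.sub_nonpos_of_le hs)])]
    ring
  have h0 : ∀ k : ℕ, 0 ≤ ocl (n * t - k) - ocl (n * s - k) := fun k =>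
    sub_nonneg.2 (ocl_mono (by linarith only [hst, mul_nonneg_of_nonpos_of_nonpos (Mathlib.Tactic.Linarith.sub_nonpos_of_le (Mathlib.Tactic.Linarith.natCast_nonneg ℝ n)) (Mathlib.Tactic.Linarith.sub_nonpos_of_le hst)]))
  have h1 : ∀ k : ℕ, a / n ≤ H (((k : ℝ) + 1) / n) - H (k / n) ∧
      H (((k : ℝ) + 1) / n) - H (k / n) ≤ b / n := fun k => by
    have h2 := h (k / n) (((k : ℝ) + 1) / n) (by gcongr; linarith only [])
    have h3 : ((k : ℝ) + 1) / n - k / n = 1 / n := by ring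
    rw [h3, mul_one_div, mul_one_div] at h2
    exact h2
  rw [e]
  constructor
  · calc a * (t - s) = a / n * (n * (t - s)) := by field_simp
      _ = _ := by rw [← e2, Finset.mul_sum]
      _ ≤ _ := Finset.sum_le_sum fun k _ => mul_le_mul_of_nonneg_right (h1 k).1 (h0 k)
  · calc _ ≤ ∑ k ∈ Finset.range n, b / n * (ocl (n * t - k) - ocl (n * s - k)) :=
        Finset.sum_le_sum fun k _ => mul_le_mul_of_nonneg_right (h1 k).2 (h0 k)
      _ = b / n * (n * (t - s)) := by rw [← e2, Finset.mul_sum]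
      _ = b * (t - s) := by field_simp

theorem oip_node (H : ℝ → ℝ) {n j : ℕ} (hn : 0 < n) (hj : j ≤ n) :
    oip H n (j / n) = H (j / n) := by
  have hn' : (0 : ℝ) < n := Nat.cast_pos.2 hn
  have e : (n : ℝ) * (j / n) = j := by field_simp
  unfold oip
  rw [e, ← Finset.sum_range_add_sum_Ico _ hj, Finset.sum_eq_zero (s := Finset.Ico j n)]
  · have := Finset.sum_range_sub (fun k : ℕ => H (k / n)) j
    simp only [Nat.cast_add, Nat.cast_one, Nat.cast_zero, zero_div] at this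
    rw [Finset.sum_congr rfl (g := fun k : ℕ => H (((k : ℝ) + 1) / n) - H (k / n)), this]
    · ring
    · intro k hk
      have : (k : ℝ) + 1 ≤ j := by exact_mod_cast Finset.mem_range.1 hk
      rw [ocl_one (by linarith only [this]), mul_one]
  · intro k hk
    have : (j : ℝ) ≤ k := by exact_mod_cast (Finset.mem_Ico.1 hk).1
    rw [ocl_zero (by linarith only [this]), mul_zero]

theorem oip_near {H : ℝ → ℝ} {n : ℕ} (hn : 0 < n) {b : ℝ}
    (h : ∀ s t, s ≤ t → 0 * (t - s) ≤ H t - H s ∧ H t - H s ≤ b * (t - s)) {t : ℝ}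
    (ht : t ∈ Icc (0 : ℝ) 1) : |oip H n t - H t| ≤ b / n := by
  have hn' : (0 : ℝ) < n := Nat.cast_pos.2 hn
  have h0 : 0 ≤ (n : ℝ) * t := mul_nonneg hn'.le ht.1
  have h1 := Nat.floor_le h0
  have h2 := Nat.lt_floor_add_one ((n : ℝ) * t)
  set j := ⌊(n : ℝ) * t⌋₊
  have hj : j ≤ n := by
    have : (j : ℝ) ≤ n := by linarith only [h1, ht, ht.2, mul_nonneg_of_nonpos_of_nonpos (Mathlib.Tactic.Linarith.sub_nonpos_of_le (Mathlib.Tactic.Linarith.natCast_nonneg ℝ n)) (Mathlib.Tactic.Linarith.sub_nonpos_of_le ht.right)]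
    exact_mod_cast this
  have h3 : (j : ℝ) / n ≤ t := by rw [div_le_iff₀ hn']; linarith
  have h4 : t - j / n ≤ 1 / n := by
    rw [sub_le_iff_le_add, ← add_div, le_div_iff₀ hn']; linarith only [h2]
  have h5 := oip_sub hn h (by positivity) h3 ht.2
  have h6 := h _ _ h3
  have hb : 0 ≤ b := by have := h 0 1 zero_le_one; linarith only [this, this.1, this.2]
  have h7 : b * (t - j / n) ≤ b / n := by
    rw [← mul_one_div b]; exact mul_le_mul_of_nonneg_left h4 hb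
  rw [oip_node H hn hj] at h5
  rw [abs_le]
  constructor <;> linarith only [h5, h6, h7, h5.1, h5.2, h6.1, h6.2]

theorem oip_ll {H : ℝ → ℝ} {n : ℕ} (hn : 0 < n) {t : ℝ} (ht : t ∈ Ioo (0 : ℝ) 1)
    (hk : ∀ k : ℕ, k ≤ n → t ≠ k / n) : LL (oip H n) t |osl H n t| := by
  have hn' : (0 : ℝ) < n := Nat.cast_pos.2 hn
  have h0 : 0 ≤ (n : ℝ) * t := mul_nonneg hn'.le ht.1.le
  have h1 := Nat.floor_le h0
  have h2 := Nat.lt_floor_add_one ((n : ℝ) * t)
  have e : ((⌊(n : ℝ) * t⌋ : ℤ) : ℝ) = (⌊(n : ℝ) * t⌋₊ : ℝ) :=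
    (natCast_floor_eq_intCast_floor h0).symm
  unfold osl
  rw [e]
  set j := ⌊(n : ℝ) * t⌋₊
  have hj : j < n := by
    have : (j : ℝ) < n := by linarith only [h1, hn', ht, ht.2, mul_pos_of_neg_of_neg (Mathlib.Tactic.Linarith.sub_neg_of_lt hn') (Mathlib.Tactic.Linarith.sub_neg_of_lt ht.right)]
    exact_mod_cast this
  have h3 : (j : ℝ) < n * t := lt_of_le_of_ne h1 fun h => hk j hj.le (by rw [h]; field_simp)
  have hU : {y : ℝ | (j : ℝ) < n * y ∧ n * y < j + 1} ∈ 𝓝 t :=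
    ((isOpen_lt continuous_const (continuous_const_mul (n : ℝ))).inter
      (isOpen_lt (continuous_const_mul (n : ℝ)) continuous_const)).mem_nhds ⟨h3, h2⟩
  refine LL.of_nhds hU fun y hy z hz => ?_
  have e1 : oip H n y - oip H n z = ∑ k ∈ Finset.range n,
      (H (((k : ℝ) + 1) / n) - H (k / n)) * (ocl (n * y - k) - ocl (n * z - k)) := by
    unfold oip
    rw [add_sub_add_left_eq_sub, ← Finset.sum_sub_distrib]
    exact Finset.sum_congr rfl fun k _ => by ring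
  rw [e1, Finset.sum_eq_single j]
  · rw [ocl_self (by linarith only [hy, hy.1]) (by linarith only [hy, hy.2]),
      ocl_self (by linarith only [hz, hz.1]) (by linarith only [hz, hz.2]), Real.norm_eq_abs, Real.norm_eq_abs,
      ← abs_mul]
    exact le_of_eq (congrArg _ (by ring))
  · intro k _ hkj
    rcases lt_or_gt_of_ne hkj with h | h
    · have : (k : ℝ) + 1 ≤ j := by exact_mod_cast h
      rw [ocl_one (by linarith only [this, hy, hy.1]), ocl_one (by linarith only [this, hz, hz.1]), sub_self, mul_zero]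
    · have : (j : ℝ) + 1 ≤ k := by exact_mod_cast h
      rw [ocl_zero (by linarith only [this, hy, hy.2]), ocl_zero (by linarith only [this, hz, hz.2]), sub_self, mul_zero]
  · intro h
    exact absurd (Finset.mem_range.2 hj) h

theorem osl_meas (H : ℝ → ℝ) (n : ℕ) : Measurable (osl H n) :=
  (measurable_of_countable fun k : ℤ => (n : ℝ) * (H (((k : ℝ) + 1) / n) - H ((k : ℝ) / n))).comp
    (Int.measurable_floor.comp (measurable_const.mul measurable_id))

theorem osl_abs {H : ℝ → ℝ} (n : ℕ) {b : ℝ}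
    (h : ∀ s t, s ≤ t → 0 * (t - s) ≤ H t - H s ∧ H t - H s ≤ b * (t - s)) (t : ℝ) :
    |osl H n t| ≤ b := by
  have hb : 0 ≤ b := by have := h 0 1 zero_le_one; linarith [this.1, this.2]
  rcases n.eq_zero_or_pos with rfl | hn
  · simpa [osl] using hb
  have hn' : (0 : ℝ) < n := Nat.cast_pos.2 hn
  unfold osl
  set k : ℝ := (⌊(n : ℝ) * t⌋ : ℝ)
  have h2 := h (k / n) ((k + 1) / n) (by gcongr; linarith only [])
  have h3 : (k + 1) / n - k / n = 1 / n := by ring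
  rw [h3, zero_mul, mul_one_div, le_div_iff₀ hn'] at h2
  rw [abs_of_nonneg (mul_nonneg hn'.le h2.1)]
  linarith only [h2, h2.2]

theorem osl_tendsto {H : ℝ → ℝ} {c t : ℝ} (h : HasDerivAt H c t) :
    Tendsto (fun n => osl H n t) atTop (𝓝 c) := by
  rw [Metric.tendsto_atTop]
  intro ε hε
  have h1 := (hasDerivAt_iff_isLittleO.1 h).def (half_pos hε)
  obtain ⟨δ, hδ, h1⟩ := Metric.eventually_nhds_iff.1 h1
  obtain ⟨N, hN⟩ := exists_nat_gt (2 / δ)
  refine ⟨N, fun n hn => ?_⟩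
  have hN' : (2 : ℝ) / δ < n := hN.trans_le (Nat.cast_le.2 hn)
  have hn' : (0 : ℝ) < n := lt_trans (by positivity) hN'
  have h2 := Int.floor_le ((n : ℝ) * t)
  have h3 := Int.lt_floor_add_one ((n : ℝ) * t)
  unfold osl
  set k : ℝ := (⌊(n : ℝ) * t⌋ : ℝ)
  have h4 : k / n ≤ t := by rw [div_le_iff₀ hn']; linarith only [h2]
  have h5 : t ≤ (k + 1) / n := by rw [le_div_iff₀ hn']; linarith only [h3]
  have h6 : (k + 1) / n - k / n = 1 / n := by ring
  have h7 : 1 / (n : ℝ) < δ := by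
    rw [div_lt_iff₀ hδ] at hN'
    rw [div_lt_iff₀ hn']; linarith only [hN']
  have a1 := h1 (y := k / n) (by rw [Real.dist_eq, abs_lt]; constructor <;> linarith only [h5, h6, h7, hδ, h4])
  have a2 := h1 (y := (k + 1) / n) (by rw [Real.dist_eq, abs_lt]; constructor <;> linarith only [hδ, h5, h4, h6, h7])
  simp only [Real.norm_eq_abs, smul_eq_mul] at a1 a2
  rw [abs_of_nonpos (a := k / n - t) (by linarith only [h4]), abs_le] at a1
  rw [abs_of_nonneg (a := (k + 1) / n - t) (by linarith only [h5]), abs_le] at a2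
  have e : (n : ℝ) * (H ((k + 1) / n) - H (k / n)) - c = n * ((H ((k + 1) / n) - H t -
      ((k + 1) / n - t) * c) - (H (k / n) - H t - (k / n - t) * c)) := by
    field_simp
    ring
  have e2 : (n : ℝ) * (ε / 2 * ((k + 1) / n - t) + ε / 2 * -(k / n - t)) = ε / 2 := by
    field_simp
    ring
  rw [Real.dist_eq, e, abs_lt]
  constructor <;> linarith only [hε, e2, a1, a2, a1.1, a1.2, a2.1, a2.2, mul_nonneg_of_nonpos_of_nonpos (Mathlib.Tactic.Linarith.sub_nonpos_of_le (Mathlib.Tactic.Linarith.natCast_nonneg ℝ n)) (Mathlib.Tactic.Linarith.sub_nonpos_of_le a1.right), mul_nonneg_of_nonpos_of_nonpos (Mathlib.Tactic.Linarith.sub_nonpos_of_le (Mathlib.Tactic.Linarith.natCast_nonneg ℝ n)) (Mathlib.Tactic.Linarith.sub_nonpos_of_le a2.left), mul_nonneg_of_nonpos_of_nonpos (Mathlib.Tactic.Linarith.sub_nonpos_of_le (Mathlib.Tactic.Linarith.natCast_nonneg ℝ n)) (Mathlib.Tactic.Linarith.sub_nonpos_of_le a1.left), mul_nonneg_of_nonpos_of_nonpos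 (Mathlib.Tactic.Linarith.sub_nonpos_of_le (Mathlib.Tactic.Linarith.natCast_nonneg ℝ n)) (Mathlib.Tactic.Linarith.sub_nonpos_of_le a2.right)]

/-- A piecewise linear profile whose slope approximates the bounded function `h`. -/
theorem o_profile {ν : Measure ℝ} [IsFiniteMeasure ν] (hν : ν ≪ volume) {h : ℝ → ℝ}
    (hm : Measurable h) {κ N p η : ℝ} (hκ : 0 ≤ κ) (h1 : ∀ t, κ ≤ h t) (h2 : ∀ t, h t ≤ N)
    (hp : 0 ≤ p) (hη : 0 < η) {ε : ℝ≥0∞} (hε : ε ≠ 0) :
    ∃ (P v : ℝ → ℝ) (F : Set ℝ), TP P ∧ Measurable v ∧ F.Finite ∧ (∀ t, 0 ≤ v t) ∧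
      (∀ s t, 0 ≤ s → s ≤ t → t ≤ 1 →
        κ * (t - s) ≤ P t - P s ∧ (∫ x in s..t, h x) - η ≤ P t - P s) ∧
      (∀ t ∈ Ioo (0 : ℝ) 1, t ∉ F → LL P t (v t)) ∧
      ∫⁻ t, ENNReal.ofReal (v t) ^ p ∂ν ≤ ∫⁻ t, ENNReal.ofReal (h t) ^ p ∂ν + ε := by
  have hb : ∀ t, ‖h t‖ ≤ N := fun t => by
    rw [Real.norm_eq_abs, abs_of_nonneg (hκ.trans (h1 t))]; exact h2 t
  have hl : LocallyIntegrable h volume :=
    (locallyIntegrable_const N).mono hm.aestronglyMeasurable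
      (Eventually.of_forall fun t => (hb t).trans (le_abs_self N))
  have hi : ∀ s t, IntervalIntegrable h volume s t := fun s t =>
    (hl.integrableOn_isCompact isCompact_uIcc).intervalIntegrable
  set H : ℝ → ℝ := fun t => ∫ x in (0 : ℝ)..t, h x
  have hH : ∀ s t, H t - H s = ∫ x in s..t, h x := fun s t =>
    intervalIntegral.integral_interval_sub_left (hi _ _) (hi _ _)
  have hH1 : ∀ s t, s ≤ t → κ * (t - s) ≤ H t - H s ∧ H t - H s ≤ N * (t - s) := by
    intro s t hst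
    have a1 := intervalIntegral.integral_mono hst (intervalIntegrable_const (c := κ)) (hi s t) h1
    have a2 := intervalIntegral.integral_mono hst (hi s t) (intervalIntegrable_const (c := N)) h2
    rw [intervalIntegral.integral_const, smul_eq_mul] at a1 a2
    rw [hH]
    constructor <;> linarith
  have hH0 : ∀ s t, s ≤ t → 0 * (t - s) ≤ H t - H s ∧ H t - H s ≤ N * (t - s) := fun s t hst =>
    ⟨le_trans (mul_le_mul_of_nonneg_right hκ (sub_nonneg.2 hst)) (hH1 s t hst).1, (hH1 s t hst).2⟩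
  have hc : Continuous fun x : ℝ => ENNReal.ofReal |x| ^ p :=
    ENNReal.continuous_rpow_const.comp (ENNReal.continuous_ofReal.comp continuous_abs)
  have hfin : ∫⁻ _, ENNReal.ofReal N ^ p ∂ν ≠ ⊤ := by
    rw [lintegral_const]
    exact ENNReal.mul_ne_top (ENNReal.rpow_ne_top_of_nonneg hp ENNReal.ofReal_ne_top)
      (measure_ne_top _ _)
  have hT : Tendsto (fun n => ∫⁻ t, ENNReal.ofReal |osl H n t| ^ p ∂ν) atTop
      (𝓝 (∫⁻ t, ENNReal.ofReal |h t| ^ p ∂ν)) := by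
    refine tendsto_lintegral_of_dominated_convergence (fun _ => ENNReal.ofReal N ^ p)
      (fun n => hc.measurable.comp (osl_meas H n)) (fun n => Eventually.of_forall fun t => ?_)
      hfin ?_
    · exact ENNReal.rpow_le_rpow (ENNReal.ofReal_le_ofReal (osl_abs n hH0 t)) hp
    · filter_upwards [hν.ae_le (_root_.LocallyIntegrable.ae_hasDerivAt_integral hl)] with t ht
      exact (hc.tendsto _).comp (osl_tendsto (ht 0))
  have e : ∀ t, |h t| = h t := fun t => abs_of_nonneg (hκ.trans (h1 t))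
  simp only [e] at hT
  have hf2 : ∫⁻ t, ENNReal.ofReal (h t) ^ p ∂ν ≠ ⊤ :=
    ne_top_of_le_ne_top hfin (lintegral_mono fun t =>
      ENNReal.rpow_le_rpow (ENNReal.ofReal_le_ofReal (h2 t)) hp)
  have hE := hT.eventually (ge_mem_nhds (ENNReal.lt_add_right hf2 hε))
  have hE2 : ∀ᶠ n : ℕ in atTop, N / n < η / 2 :=
    (tendsto_const_div_atTop_nhds_zero_nat N).eventually (gt_mem_nhds (half_pos hη))
  obtain ⟨n, hn, hn2, hn3⟩ := (hE.and (hE2.and (eventually_gt_atTop 0))).exists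
  refine ⟨oip H n, fun t => |osl H n t|, (fun k : ℕ => (k : ℝ) / n) '' Iic n, tp_oip H n,
    continuous_abs.measurable.comp (osl_meas H n), (finite_Iic n).image _,
    fun t => abs_nonneg _, fun s t hs hst ht => ⟨(oip_sub hn3 hH1 hs hst ht).1, ?_⟩,
    fun t ht hF => oip_ll hn3 ht fun k hk e => hF ⟨k, hk, e.symm⟩, hn⟩
  have a1 := abs_le.1 (oip_near hn3 hH0 ⟨hs, hst.trans ht⟩)
  have a2 := abs_le.1 (oip_near hn3 hH0 ⟨hs.trans hst, ht⟩)
  rw [← hH]
  linarith only [hn2, a1, a2, a1.2, a2.1]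

end BEp
end
end
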