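import Pool.Agent.Work.MP_f0515e_an.D3.O1
import Pool.Agent.Work.MP_f0515e_an.Pos.UCmp
import Pool.Agent.Work.MP_f0515e_an.P3.FinE
import Pool.Agent.Work.MP_f0515e_an.D3.CTop
import Pool.Agent.Work.MP_f0515e_an.Pos.BRed

-- merged part: Pool.Agent.Work.MP_f0515e_an.D3.LKap
section
/-! The damped translation.
Plan. kap t = id + (aa . t), the perturbation is 1/2-Lipschitz (aa_lip); plsg_exp. kap_bij: ContractingWith fixed point of x -> y - aa x . t. kap_llh: kap fixes the complement of Omega; on a compact C with aa >= c > 0 replace aa by max aa c,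
which is TP (max aa c - c has compact support in Omega: LTP.tp_supp) with the same Lipschitz constant, plsg_lh.
av_pt: substitute x = y + a t with a = aa y > 0 (lintegral_add_left_eq_self and Measure.addHaar_smul or map_addHaar_smul, cf. wt_scaled in Pos/AWt and av in Pos/AAe), aa_near. measurable_hh: Measurable.lintegral_prod_right of an indicator of a closed set.
av_hh: lintegral_lintegral_swap; for x in the ball around z in Omega, aa z <= 2 aa x and aa x <= 2 aa z (aa_near), so z is in the ball of radius 10 eta aa x around x. av_map: swap, then av_pt.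
kap_final: with k = invFun kap (2-Lipschitz, equal to invFunOn kap Omega on Omega), for a.e. z in Omega F is differentiable at z (LTP.ae_diff). If z is in Q, k x = x - t near x = z + t, so fderiv (F o k) x = fderiv F z.
Otherwise |fderiv (F o k) x| <= 2 |fderiv F z| (norm_fderiv_le_of_lip' or opNorm bound via HasFDerivAt.le_of_lip', or zero when not differentiable). Then change variables with a Lipschitz bound: volume (kap '' s) <= 2^n volume s (Tr.map_le in Pos/UCmp or the proof of BComp_pre in Pos/BComp), AEMeasurable versions through aem_en. -/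

open Set Metric Filter Topology Function BEv MeasureTheory
open scoped NNReal ENNReal

noncomputable section
namespace BEp

variable {n : ℕ} {Ω : Set (Rn n)} {d : Rn n → ℝ} {r η : ℝ} {t : Rn n}

theorem kap_mv (hd : Lev Ω d) (hr : 0 < r) (ht : ‖t‖ ≤ η) (x : Rn n) :
    ‖kap d r t x - x‖ ≤ η * aa d r x := by
  rw [kap, add_sub_cancel_left, norm_smul, Real.norm_of_nonneg (aa_nonneg hd hr x), mul_comm]
  exact mul_le_mul_of_nonneg_right ht (aa_nonneg hd hr x)

theorem LKap_half (hr : 0 < r) (hη : 1024 * η ≤ r) (ht : ‖t‖ ≤ η) {a : Rn n → ℝ}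
    (ha : ∀ x y, |a x - a y| ≤ 2 / r * ‖x - y‖) : LipschitzWith (1 / 2) fun x => a x • t := by
  refine LipschitzWith.of_dist_le_mul fun x y => ?_
  rw [dist_eq_norm, dist_eq_norm, ← sub_smul, norm_smul, Real.norm_eq_abs]
  have h1 : 2 / r * ‖t‖ ≤ 1 / 2 := by
    rw [div_mul_eq_mul_div, div_le_iff₀ hr]
    linarith [norm_nonneg t]
  push_cast
  calc |a x - a y| * ‖t‖ ≤ 2 / r * ‖x - y‖ * ‖t‖ :=
        mul_le_mul_of_nonneg_right (ha x y) (norm_nonneg _)
    _ = 2 / r * ‖t‖ * ‖x - y‖ := by ring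
    _ ≤ 1 / 2 * ‖x - y‖ := mul_le_mul_of_nonneg_right h1 (norm_nonneg _)

theorem kap_lip (hd : Lev Ω d) (hr : 0 < r) (hη : 1024 * η ≤ r) (ht : ‖t‖ ≤ η) (x y : Rn n) :
    ‖kap d r t x - kap d r t y‖ ≤ 2 * ‖x - y‖ ∧ ‖x - y‖ ≤ 2 * ‖kap d r t x - kap d r t y‖ := by
  have h := (LKap_half hr hη ht (aa_lip hd hr)).dist_le_mul x y
  have k := plsg_exp (LKap_half hr hη ht (aa_lip hd hr)) x y
  rw [dist_eq_norm, dist_eq_norm] at h
  have e := norm_add_le (x - y) (aa d r x • t - aa d r y • t)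
  rw [← add_sub_add_comm] at e
  push_cast at h k
  unfold kap
  constructor <;> linarith [norm_nonneg (x - y)]

theorem kap_bij (hd : Lev Ω d) (hr : 0 < r) (hη : 1024 * η ≤ r) (ht : ‖t‖ ≤ η) :
    Bijective (kap d r t) := by
  refine ⟨fun x y e => ?_, fun y => ?_⟩
  · have := (kap_lip hd hr hη ht x y).2
    rw [e, sub_self, norm_zero, mul_zero] at this
    exact sub_eq_zero.1 (norm_le_zero_iff.1 this)
  · have h : ContractingWith (1 / 2) fun x => y - aa d r x • t :=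
      ⟨by norm_num, LipschitzWith.of_dist_le_mul fun x z => by
        rw [dist_sub_left]
        exact (LKap_half hr hη ht (aa_lip hd hr)).dist_le_mul x z⟩
    exact ⟨h.fixedPoint _, (sub_eq_iff_eq_add.1 h.fixedPoint_isFixedPt.eq).symm⟩

theorem kap_llh (hd : Lev Ω d) (hr : 0 < r) (hη : 1024 * η ≤ r) (ht : ‖t‖ ≤ η) :
    LLH Ω (kap d r t) := by
  have hb := kap_bij hd hr hη ht
  have fix : ∀ x, x ∉ Ω → kap d r t x = x := fun x hx => by
    have : aa d r x = 0 := le_antisymm (not_lt.1 fun k => hx ((aa_pos hd hr).1 k))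
      (aa_nonneg hd hr x)
    rw [kap, this, zero_smul, add_zero]
  refine ⟨⟨fun x hx => by_contra fun k => k ?_, hb.1.injOn, fun y hy => ?_⟩, fun C hC hs => ?_⟩
  · rwa [hb.1 (fix _ k)]
  · obtain ⟨x, rfl⟩ := hb.2 y
    exact ⟨x, by_contra fun k => k (fix x k ▸ hy), rfl⟩
  obtain ⟨c, c0, hc⟩ := hd.low hC hs
  have l1 : ∀ x y, |min 1 (2 * max (d x) c / r) - min 1 (2 * max (d y) c / r)| ≤
      2 / r * ‖x - y‖ := fun x y => by
    refine (abs_min_sub_min_le_max _ _ _ _).trans (max_le (by simp; positivity) ?_)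
    rw [← sub_div, ← mul_sub, mul_div_right_comm, abs_mul, abs_of_pos (by positivity)]
    exact mul_le_mul_of_nonneg_left ((abs_max_sub_max_le_abs _ _ _).trans (hd.lip x y))
      (by positivity)
  have t1 : TP fun x => max (d x) c - c := by
    refine LTP.tp_supp (Ω := Ω) (fun C' h1 h2 => ?_)
      ⟨1, LipschitzWith.of_dist_le_mul fun x y => ?_⟩ (hd.cpt c c0)
      (fun x hx => (hd.pos x).1 (c0.trans_le hx)) fun x hx => ?_
    · obtain ⟨g, g1, g2⟩ := hd.ltp C' h1 h2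
      exact ⟨_, (g1.max (TP.const c)).sub (TP.const c), fun x hx => by simp only [g2 hx]⟩
    · rw [dist_sub_right, Real.dist_eq, dist_eq_norm, NNReal.coe_one, one_mul]
      exact (abs_max_sub_max_le_abs _ _ _).trans (hd.lip x y)
    · rw [max_eq_right (not_le.1 hx).le, sub_self]
  have t2 : TP fun x => max (d x) c := by simpa using t1.add (TP.const c)
  refine ⟨_, plsg_lh (((TP.const 1).min ((t2.const_mul 2).div_const r)).smul_const t)
    (by norm_num) (LKap_half hr hη ht l1), fun x hx => ?_⟩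
  simp only [kap, aa, max_eq_left (hc x hx)]

theorem kap_core (hr : 0 < r) {x : Rn n} (h : r / 2 ≤ d x) : kap d r t x = x + t := by
  rw [kap, aa_one hr h, one_smul]

theorem LKap_cont (hd : Lev Ω d) (r : ℝ) : Continuous (aa d r) :=
  continuous_const.min ((continuous_const.mul hd.continuous).div_const r)

theorem continuous_kap (hd : Lev Ω d) (r : ℝ) :
    Continuous fun q : Rn n × Rn n => kap d r q.1 q.2 := by
  exact continuous_snd.add (((LKap_cont hd r).comp continuous_snd).smul continuous_fst)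

theorem exists_tol_kap (hd : Lev Ω d) {f : Rn n → Rn n} (hf : ContinuousOn f Ω) {ε : ℝ → ℝ}
    (hε : MP ε) : ∃ σ, MP σ ∧ ∀ (r η : ℝ) (t : Rn n), 0 < r → 1024 * η ≤ r → ‖t‖ ≤ η →
      ∀ z ∈ Ω, ∀ y, ‖y - z‖ ≤ 2 * σ (d z) → ‖f (kap d r t y) - f (kap d r t z)‖ ≤ ε (d z) := by
  obtain ⟨δ, ⟨δ1, δ2⟩, hδ⟩ := exists_tol hd hf (ε := fun s => ε (s / 2))
    ⟨fun a b h => hε.1 (by linarith), fun s hs => hε.2 _ (half_pos hs)⟩
  refine ⟨fun s => δ (s / 2) / 4, ⟨fun a b h => div_le_div_of_nonneg_right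
    (δ1 (by linarith)) (by norm_num), fun s hs => div_pos (δ2 _ (half_pos hs)) (by norm_num)⟩,
    fun r η t hr hη ht z hz y hy => ?_⟩
  have h0 := mul_nonneg ((norm_nonneg t).trans ht) (aa_nonneg hd hr z)
  have h1 := abs_le.1 (aa_near hd hr hη (y := kap d r t z) (z := z)
    ((kap_mv hd hr ht z).trans (by linarith))).2
  have h2 := hd.nn z
  refine (hδ _ ((kap_llh hd hr hη ht).1.1 hz) _ ?_).trans (hε.1 (by linarith [h1.2]))
  have h3 : δ (d z / 2) ≤ δ (d (kap d r t z)) := δ1 (by linarith [h1.1])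
  linarith [(kap_lip hd hr hη ht y z).1]

theorem LKap_set (hd : Lev Ω d) (r η : ℝ) :
    MeasurableSet {q : Rn n × Rn n | q.2 ∈ closedBall q.1 (5 * η * aa d r q.1)} :=
  (isClosed_le (continuous_snd.dist continuous_fst)
    (continuous_const.mul ((LKap_cont hd r).comp continuous_fst))).measurableSet

theorem measurable_hh (hd : Lev Ω d) (r η : ℝ) {Φ : Rn n → ℝ≥0∞} (hΦ : Measurable Φ) :
    Measurable (hh d r η Φ) := by
  have h := ((hΦ.comp measurable_snd).indicator (LKap_set hd r η)).lintegral_prod_right'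
    (ν := volume)
  refine ((LKap_cont hd r).measurable.ennreal_ofReal.inv.pow_const n).mul ?_
  convert h using 2 with z
  rw [← lintegral_indicator measurableSet_closedBall]
  rfl

theorem LKap_inv {a b : ℝ} (ha : 0 < a) (hb : 0 < b) (h : a ≤ 2 * b) :
    (ENNReal.ofReal b)⁻¹ ≤ 2 * (ENNReal.ofReal a)⁻¹ := by
  rw [← ENNReal.ofReal_inv_of_pos ha, ← ENNReal.ofReal_inv_of_pos hb, ← ENNReal.ofReal_ofNat 2,
    ← ENNReal.ofReal_mul (by norm_num)]
  refine ENNReal.ofReal_le_ofReal ?_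
  rw [← div_eq_mul_inv, le_div_iff₀ ha, inv_mul_le_iff₀ hb]
  linarith

theorem av_pt (hd : Lev Ω d) (hr : 0 < r) (hη : 1024 * η ≤ r) {Φ : Rn n → ℝ≥0∞}
    (hΦ : Measurable Φ) {y z : Rn n} (hz : z ∈ Ω) (h : ‖y - z‖ ≤ η * aa d r z) :
    ∫⁻ t in closedBall (0 : Rn n) η, Φ (kap d r t y) ≤ 2 ^ n * hh d r η Φ z := by
  have z0 := (aa_pos hd hr).2 hz
  have h0 : 0 ≤ η * aa d r z := (norm_nonneg _).trans h
  have η0 : 0 ≤ η := nonneg_of_mul_nonneg_left h0 z0
  have h1 := abs_le.1 (aa_near hd hr hη (y := y) (z := z) (h.trans (by linarith))).1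
  have y0 : 0 < aa d r y := by linarith [h1.1]
  have hΨ := hΦ.indicator (measurableSet_closedBall (x := z) (ε := 5 * η * aa d r z))
  calc ∫⁻ t in closedBall (0 : Rn n) η, Φ (kap d r t y)
      ≤ ∫⁻ t in closedBall (0 : Rn n) η,
          indicator (closedBall z (5 * η * aa d r z)) Φ (y + aa d r y • t) :=
        setLIntegral_mono' measurableSet_closedBall fun t ht => by
          have e1 := kap_mv hd hr (mem_closedBall_zero_iff.1 ht) y
          have e2 := norm_sub_le_norm_sub_add_norm_sub (kap d r t y) y z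
          have e3 := mul_le_mul_of_nonneg_left h1.2 η0
          exact (indicator_of_mem (mem_closedBall_iff_norm.2 (by
            change ‖kap d r t y - z‖ ≤ _
            linarith)) Φ).ge
    _ ≤ ∫⁻ t, indicator (closedBall z (5 * η * aa d r z)) Φ (y + aa d r y • t) :=
        setLIntegral_le_lintegral _ _
    _ = (ENNReal.ofReal (aa d r y))⁻¹ ^ n * ∫⁻ x in closedBall z (5 * η * aa d r z), Φ x := by
        rw [← lintegral_map (f := fun x => indicator (closedBall z (5 * η * aa d r z)) Φ (y + x))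
          (hΨ.comp (measurable_const_add y)) (measurable_const_smul _),
          Measure.map_addHaar_smul _ y0.ne', lintegral_smul_measure, lintegral_add_left_eq_self,
          lintegral_indicator measurableSet_closedBall, Module.finrank_fin_fun,
          abs_of_pos (by positivity), ← inv_pow, ENNReal.ofReal_pow (by positivity),
          ENNReal.ofReal_inv_of_pos y0, smul_eq_mul]
    _ ≤ 2 ^ n * hh d r η Φ z := by
        rw [hh, ← mul_assoc, ← mul_pow]
        gcongr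
        exact LKap_inv z0 y0 (by linarith [h1.1])

theorem av_hh (hd : Lev Ω d) (hr : 0 < r) (h0 : 0 < η) (hη : 1024 * η ≤ r) {Φ w : Rn n → ℝ≥0∞}
    (hΦ : Measurable Φ) (hw : Measurable w) {C : ℝ≥0∞}
    (h : ∀ x ∈ Ω, ∫⁻ z in closedBall x (10 * η * aa d r x), w z ≤
      C * ENNReal.ofReal (η * aa d r x) ^ n) :
    ∫⁻ z in Ω, w z * hh d r η Φ z ≤ 2 ^ n * C * ENNReal.ofReal η ^ n * ∫⁻ x, Φ x := by
  have mu := (LKap_cont hd r).measurable.ennreal_ofReal.inv.pow_const n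
  have mK : Measurable (uncurry fun z x => indicator
      {q : Rn n × Rn n | q.2 ∈ closedBall q.1 (5 * η * aa d r q.1)}
      (fun q => w q.1 * (ENNReal.ofReal (aa d r q.1))⁻¹ ^ n * Φ q.2) (z, x)) :=
    (((hw.mul mu).comp measurable_fst).mul (hΦ.comp measurable_snd)).indicator (LKap_set hd r η)
  have e1 : ∀ z, w z * hh d r η Φ z = ∫⁻ x, indicator
      {q : Rn n × Rn n | q.2 ∈ closedBall q.1 (5 * η * aa d r q.1)}
      (fun q => w q.1 * (ENNReal.ofReal (aa d r q.1))⁻¹ ^ n * Φ q.2) (z, x) := fun z => by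
    rw [hh, ← mul_assoc, ← lintegral_const_mul _ hΦ, ← lintegral_indicator measurableSet_closedBall]
    rfl
  simp_rw [e1]
  rw [lintegral_lintegral_swap mK.aemeasurable, ← lintegral_const_mul _ hΦ]
  refine lintegral_mono fun x => ?_
  have key : ∀ z ∈ Ω, x ∈ closedBall z (5 * η * aa d r z) → 0 < aa d r x ∧
      aa d r x ≤ 2 * aa d r z ∧ z ∈ closedBall x (10 * η * aa d r x) := fun z hz k => by
    have z0 := (aa_pos hd hr).2 hz
    have k1 := mem_closedBall_iff_norm.1 k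
    have k2 := abs_le.1 (aa_near hd hr hη (y := x) (z := z)
      (k1.trans (by linarith [mul_pos h0 z0]))).1
    have k3 := mul_le_mul_of_nonneg_left k2.1 h0.le
    exact ⟨by linarith [k2.1], by linarith [k2.2], mem_closedBall_iff_norm'.2
      (by linarith [mul_pos h0 z0])⟩
  by_cases hx : x ∈ Ω
  · have x0 := (aa_pos hd hr).2 hx
    calc _ ≤ ∫⁻ z in Ω, (2 * (ENNReal.ofReal (aa d r x))⁻¹) ^ n * Φ x *
          indicator (closedBall x (10 * η * aa d r x)) w z :=
          setLIntegral_mono' hd.isOpen.measurableSet fun z hz => by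
            refine indicator_apply_le' (fun k => ?_) fun _ => zero_le
            obtain ⟨-, k2, k3⟩ := key z hz k
            rw [indicator_of_mem k3, mul_comm _ (w z), mul_assoc]
            gcongr
            exact LKap_inv x0 ((aa_pos hd hr).2 hz) k2
      _ ≤ (2 * (ENNReal.ofReal (aa d r x))⁻¹) ^ n * Φ x *
          (C * ENNReal.ofReal (η * aa d r x) ^ n) := by
          refine (setLIntegral_le_lintegral _ _).trans ?_
          rw [lintegral_const_mul _ (hw.indicator measurableSet_closedBall),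
            lintegral_indicator measurableSet_closedBall]
          exact mul_le_mul_right (h x hx) _
      _ = 2 ^ n * C * ENNReal.ofReal η ^ n * Φ x *
          ((ENNReal.ofReal (aa d r x))⁻¹ * ENNReal.ofReal (aa d r x)) ^ n := by
          rw [ENNReal.ofReal_mul h0.le]
          ring
      _ = _ := by
          rw [ENNReal.inv_mul_cancel (ENNReal.ofReal_pos.2 x0).ne' ENNReal.ofReal_ne_top, one_pow,
            mul_one]
  · refine le_trans (setLIntegral_mono' (g := fun _ => 0) hd.isOpen.measurableSet fun z hz => ?_)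
      (by simp)
    exact indicator_apply_le' (fun k => (hx ((aa_pos hd hr).1 (key z hz k).1)).elim)
      fun _ => le_rfl

theorem av_map (hd : Lev Ω d) (hr : 0 < r) (hη : 1024 * η ≤ r) {Φ w : Rn n → ℝ≥0∞}
    (hΦ : Measurable Φ) (hw : Measurable w) {T : Rn n → Rn n} (hT : Measurable T)
    (h : ∀ z ∈ Ω, ‖T z - z‖ ≤ η * aa d r z) :
    (Measurable fun t => ∫⁻ z in Ω, Φ (kap d r t (T z)) * w z) ∧
      ∫⁻ t in closedBall (0 : Rn n) η, ∫⁻ z in Ω, Φ (kap d r t (T z)) * w z ≤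
        2 ^ n * ∫⁻ z in Ω, w z * hh d r η Φ z := by
  have m : Measurable fun q : Rn n × Rn n => Φ (kap d r q.1 (T q.2)) * w q.2 :=
    (hΦ.comp ((continuous_kap hd r).measurable.comp
      (measurable_fst.prodMk (hT.comp measurable_snd)))).mul (hw.comp measurable_snd)
  refine ⟨m.lintegral_prod_right', ?_⟩
  rw [lintegral_lintegral_swap m.aemeasurable, ← lintegral_const_mul' _ _ (by simp)]
  refine setLIntegral_mono' hd.isOpen.measurableSet fun z hz => ?_
  rw [lintegral_mul_const (f := fun t => Φ (kap d r t (T z))) _ (hΦ.comp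
    ((continuous_kap hd r).measurable.comp (measurable_id.prodMk measurable_const))),
    mul_comm (w z), ← mul_assoc]
  exact mul_le_mul_left (av_pt hd hr hη hΦ hz (h z hz)) _

theorem kap_final {p : ℝ} (hp : 1 ≤ p) : ∃ C : ℝ≥0∞, C ≠ ⊤ ∧ ∀ (Ω Q : Set (Rn n))
    (d : Rn n → ℝ) (r η : ℝ) (t : Rn n) (F f : Rn n → Rn n) (D : Rn n → Rn n →L[ℝ] Rn n),
    Lev Ω d → 0 < r → 1024 * η ≤ r → ‖t‖ ≤ η → MeasurableSet Q → (∀ z ∈ Q, r ≤ d z) →
    LTP Ω F → ContinuousOn f Ω → Measurable D →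
    ∫⁻ x in Ω, en p (F ∘ invFunOn (kap d r t) Ω) f D x ≤
      C * ((∫⁻ z in Ω, en p F (f ∘ kap d r t) (indicator Q fun z => D (z + t)) z) +
        ∫⁻ x in Ω \ kap d r t '' Q, ‖D x‖ₑ ^ p) := by
  have p0 : 0 ≤ p := zero_le_one.trans hp
  have c1 : (1 : ℝ≥0∞) ≤ 2 ^ p := ENNReal.one_le_rpow one_le_two (zero_lt_one.trans_le hp)
  have cT : (2 : ℝ≥0∞) ^ p * 2 ^ p ≠ ⊤ :=
    ENNReal.mul_ne_top (ENNReal.rpow_ne_top_of_nonneg p0 (by simp))
      (ENNReal.rpow_ne_top_of_nonneg p0 (by simp))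
  refine ⟨2 ^ p * 2 ^ p * 2 ^ n, ENNReal.mul_ne_top cT (by simp),
    fun Ω Q d r η t F f D hd hr hη ht hQ Qr hF hf hD => ?_⟩
  have hΩ := hd.isOpen
  have hb := kap_bij hd hr hη ht
  have hB := (kap_llh hd hr hη ht).1
  have cκ : Continuous (kap d r t) := (continuous_kap hd r).comp (.prodMk_right t)
  obtain ⟨k, li, ri⟩ : ∃ k, LeftInverse k (kap d r t) ∧ RightInverse k (kap d r t) :=
    bijective_iff_has_inverse.1 hb
  have ek : EqOn (invFunOn (kap d r t) Ω) k Ω := fun x hx => hb.1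
    ((hB.surjOn.rightInvOn_invFunOn hx).trans (ri x).symm)
  have hk : LipschitzWith 2 k := LipschitzWith.of_dist_le_mul fun x y => by
    have := (kap_lip hd hr hη ht (k x) (k y)).2
    rwa [ri, ri, ← dist_eq_norm, ← dist_eq_norm] at this
  have hT : Tr k Ω Ω 2 := ⟨hk, fun x _ y _ => by
    have := (kap_lip hd hr hη ht (k x) (k y)).1
    rwa [ri, ri] at this, fun x hx => ek hx ▸ hB.surjOn.mapsTo_invFunOn hx, one_le_two,
    hΩ.measurableSet, hΩ.measurableSet⟩
  have eQ : kap d r t '' Q = k ⁻¹' Q := image_eq_preimage_of_inverse li ri ▸ rfl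
  have mQ : MeasurableSet (k ⁻¹' Q)ᶜ := (hk.continuous.measurable hQ).compl
  have mG := aem_en p (D := indicator Q fun z => D (z + t)) hΩ (hF.continuousOn hΩ)
    (hf.comp cκ.continuousOn hB.mapsTo) ((hD.comp (measurable_add_const t)).indicator hQ)
  have mD : Measurable fun x => ‖D x‖ₑ ^ p := hD.enorm.pow_const p
  have a1 := hT.qmp.ae ((ae_restrict_iff' hΩ.measurableSet).2 (hF.ae_diff hΩ))
  have a2 := ae_restrict_of_ae (s := Ω) (hk.ae_differentiableAt (μ := volume))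
  calc _ ≤ ∫⁻ x in Ω, 2 ^ p * 2 ^ p *
        (en p F (f ∘ kap d r t) (indicator Q fun z => D (z + t)) (k x) +
          indicator (k ⁻¹' Q)ᶜ (fun x => ‖D x‖ₑ ^ p) x) := by
        refine lintegral_mono_ae ?_
        filter_upwards [a1, a2, ae_restrict_mem hΩ.measurableSet] with x h1 h2 hx
        rw [en_congr (G' := F ∘ k) ((ek.eventuallyEq_of_mem (hΩ.mem_nhds hx)).fun_comp F)]
        by_cases hz : k x ∈ Q
        · have e0 : k x + t = x := (kap_core hr (by linarith [Qr _ hz])).symm.trans (ri x)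
          have e1 : x - t = k x := sub_eq_of_eq_add e0.symm
          have e2 : F ∘ k =ᶠ[𝓝 x] fun y => F (y - t) := by
            have : ∀ᶠ y in 𝓝 x, r / 2 < d (y - t) :=
              (hd.continuous.comp (continuous_sub_right t)).continuousAt.eventually
                (lt_mem_nhds (by
                  change r / 2 < d (x - t)
                  rw [e1]
                  linarith [Qr _ hz]))
            filter_upwards [this] with y hy
            have := li (y - t)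
            rw [kap_core hr hy.le, sub_add_cancel] at this
            exact congrArg F this
          refine le_trans (le_of_eq ?_) (le_self_add.trans (le_mul_of_one_le_left zero_le
            (one_le_mul c1 c1)))
          simp only [en, comp_apply, ri x, indicator_of_mem hz, e0]
          rw [e2.fderiv_eq, fderiv_comp_sub, e1]
        · have b1 : ‖fderiv ℝ (F ∘ k) x‖ₑ ≤ 2 * ‖fderiv ℝ F (k x)‖ₑ := by
            rw [fderiv_comp x h1 h2, mul_comm, ← ofReal_norm, ← ofReal_norm,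
              ← ENNReal.ofReal_ofNat 2, ← ENNReal.ofReal_mul (norm_nonneg _)]
            exact ENNReal.ofReal_le_ofReal ((ContinuousLinearMap.opNorm_comp_le _ _).trans
              (mul_le_mul_of_nonneg_left (norm_fderiv_le_of_lipschitz ℝ hk) (norm_nonneg _)))
          have b2 : ‖fderiv ℝ (F ∘ k) x - D x‖ₑ ^ p ≤
              2 ^ p * (2 ^ p * ‖fderiv ℝ F (k x)‖ₑ ^ p + 2 ^ p * ‖D x‖ₑ ^ p) := by
            refine (ENNReal.rpow_le_rpow (enorm_sub_le.trans (add_le_add_left b1 _)) p0).trans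
              ((ENNReal.rpow_add_le_mul_rpow_add_rpow _ _ hp).trans ?_)
            rw [ENNReal.mul_rpow_of_nonneg _ _ p0]
            exact mul_le_mul' (ENNReal.rpow_le_rpow_of_exponent_le one_le_two (by linarith))
              (add_le_add_right (le_mul_of_one_le_left zero_le c1) _)
          simp only [en, comp_apply, ri x, indicator_of_notMem hz, sub_zero,
            indicator_of_mem (show x ∈ (k ⁻¹' Q)ᶜ from hz)]
          rw [add_assoc, mul_add, mul_assoc _ _ (_ + _), mul_add (2 ^ p) (_ ^ p)]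
          exact add_le_add (le_mul_of_one_le_left zero_le (one_le_mul c1 c1)) b2
    _ ≤ _ := by
        rw [lintegral_const_mul' _ _ cT, lintegral_add_right _ (mD.indicator mQ),
          lintegral_indicator mQ, Measure.restrict_restrict mQ, mul_assoc _ (2 ^ n),
          mul_add (2 ^ n), eQ, sdiff_eq_compl_inter, ← lintegral_map' (mG.mono_ac hT.qmp.absolutelyContinuous)
            hT.qmp.measurable.aemeasurable]
        gcongr
        · refine (lintegral_mono' hT.map_le le_rfl).trans_eq ?_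
          rw [lintegral_smul_measure]
          rfl
        · exact le_mul_of_one_le_left zero_le (one_le_pow₀ one_le_two)

end BEp
end
end

-- merged part: Pool.Agent.Work.MP_f0515e_an.D3.LRet2
section
/-! Construction of the layered retraction.
Plan. exists_lys: with u = r / 2^j put eta 0 = eta1, eta j = min (eta / (8 * 2^j)) (sigma (u / 8) / 2), c 0 = min c0 (max 0 (d - 7 r / 16)), c j = min (eta j) (max 0 (min (d - 7 u / 16) (9 u / 8 - d))). The max terms are TP by LTP.tp_supp (support in lyS, bnd_cpt; LTP: compose the TP map given by Lev.ltp).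
od_pc: P = sgd n lyS (2i) is compact, meets finitely many odd layers (Fam.lf), on each bgd is bounded below (ACfg_dl or a compact minimum), so Wp 1 omega < 2^k on P; Gl_ev with the constant depth k gives Gl RL = Gl (dep k) on P, which is a TP map on P (Gl_ltp); pc_sgd, PC.image.
ret: UE i = lyS (2i+0), UO i = lyS (2i+1), RE m i = L.R 0 (dep m) (2i+0), RO m i = L.R omega (dep m) (2i+1) (so gli (RE m) is L.Gl 0 0 (dep m) by definition), TL = Gl 1 omega RL o EL, W = L.W,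
Z j = (sgd (eta j) (omega j) n lyS j) u Gl 1 omega RL '' (sgd (eta (2j)) 0 n lyS (2j)). mv: Gl_mv twice with aa_near. offH: if 3r/4 <= d z then z is in lyS 0, the even step moves by at most eta1 (gap) and the image is in no odd layer; otherwise the level stays below r while H is in Q, where r <= d.
land: z in lyA j (exists_lyA). j = 2i: Gl_land, second part of Z i. j = 2i+1: EL z is in lyF j (lyA_near, aa_lyA), not in Q, Gl_land, first part of Z j. ev: Gl_ev for both parities with lyA_idx and monotonicity, continuity of the even step at z. ll1: LL.comp of Gl_ll, the even step equals EL at z.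
ll0: LTP.ll of Gl_ltp on the compact lyF j. exists_lret: exists_lys, Wp_ball, av_hh (h = hh d r eta Phi), exists_ω with tolerance eps * eta^3, ret, av_map; volume of the ball is (2 eta)^3. -/

open Set Metric Filter Topology Function BEv MeasureTheory
open scoped NNReal ENNReal

noncomputable section
namespace BEp

variable {Ω Q H S K0 : Set (V 1)} {d c0 : V 1 → ℝ} {r η η0 η1 : ℝ} {σ : ℝ → ℝ}

theorem LRet2_tp (hd : Lev Ω d) {g : ℝ → ℝ} (hg : TP g) {a : ℝ} (ha : 0 < a)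
    (h : ∀ s, s < a → g s = 0) : TP fun x => g (d x) := by
  refine LTP.tp_supp (Ω := Ω) (fun C h1 h2 => ?_) ?_ (hd.cpt a ha)
    (fun x hx => (hd.pos x).1 (ha.trans_le hx)) fun x hx => h _ (not_le.1 hx)
  · obtain ⟨k, k1, k2⟩ := hd.ltp C h1 h2
    exact ⟨_, hg.comp k1, fun x hx => by simp only [k2 hx]⟩
  · obtain ⟨K, hK⟩ := hg.lip
    refine ⟨K * 1, hK.comp (LipschitzWith.of_dist_le_mul fun x y => ?_)⟩
    rw [Real.dist_eq, dist_eq_norm, NNReal.coe_one, one_mul]
    exact hd.lip x y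

theorem exists_lys (hd : Lev Ω d) (hr : 0 < r) (hη : 1024 * η ≤ r) (hσ : MP σ)
    (hA : CoreA S K0 η0 η η1 Q H c0) (h1 : 2 * η1 ≤ σ (r / 8)) (hQ : ∀ x ∈ Q, r ≤ d x) :
    ∃ L : Lys, L.Ok d r η σ Q ∧ L.η 0 = η1 ∧ ∀ z, 3 * r / 4 ≤ d z → L.c 0 z = c0 z := by
  have e1 := hA.η10
  have e2 := hA.η1le
  have u0 : ∀ j : ℕ, 0 < r / 2 ^ j := fun j => by positivity
  have l1 : ∀ (a : ℝ) x y, |d x - a - (d y - a)| ≤ ‖x - y‖ := fun a x y => by
    rw [sub_sub_sub_cancel_right]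
    exact hd.lip x y
  have l2 : ∀ (a : ℝ) x y, |a - d x - (a - d y)| ≤ ‖x - y‖ := fun a x y => by
    rw [sub_sub_sub_cancel_left, abs_sub_comm]
    exact hd.lip x y
  have l0 : ∀ (a : ℝ) (x y : V 1), |a - a| ≤ ‖x - y‖ := fun a x y => by
    rw [sub_self, abs_zero]
    exact norm_nonneg _
  let e : ℕ → ℝ := fun j => min (η / (8 * 2 ^ j)) (σ (r / 2 ^ j / 8) / 2)
  have e0 : ∀ j, 0 < e j := fun j =>
    lt_min (div_pos (by linarith) (by positivity)) (half_pos (hσ.2 _ (by positivity)))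
  have e3 : ∀ j, 8 * 2 ^ j * e j ≤ η := fun j =>
    (le_div_iff₀' (by positivity)).1 (min_le_left _ _)
  have e4 : ∀ j, e j ≤ r / 2 ^ j / 32 := fun j => by
    rw [div_div, le_div_iff₀ (by positivity)]
    linarith [e3 j]
  refine ⟨⟨fun j => Nat.casesOn j (fun x => min (c0 x) (max 0 (d x - 7 / 16 * r))) fun j x =>
      min (e (j + 1)) (max 0 (min (d x - 7 / 16 * (r / 2 ^ (j + 1)))
        (9 / 8 * (r / 2 ^ (j + 1)) - d x))), fun j => Nat.casesOn j η1 fun j => e (j + 1)⟩,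
    ⟨hr, hη, ?_, ?_, ?_, ?_, ?_, ?_, ?_, ?_, hσ, ?_, hQ⟩, rfl, fun z hz => ?_⟩
  · rintro (_ | j)
    · exact hA.tp.min (LRet2_tp hd (g := fun s => max 0 (s - 7 / 16 * r))
        ((TP.const 0).max (TP.id'.sub (TP.const _))) (a := 7 / 16 * r) (by positivity)
        fun s hs => max_eq_left (sub_nonpos.2 hs.le))
    · exact (TP.const _).min (LRet2_tp hd (g := fun s => max 0
        (min (s - 7 / 16 * (r / 2 ^ (j + 1))) (9 / 8 * (r / 2 ^ (j + 1)) - s)))
        ((TP.const 0).max ((TP.id'.sub (TP.const _)).min ((TP.const _).sub TP.id')))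
        (a := 7 / 16 * (r / 2 ^ (j + 1))) (by positivity)
        fun s hs => max_eq_left ((min_le_left _ _).trans (sub_nonpos.2 hs.le)))
  · rintro (_ | j) x y
    · exact (abs_min_sub_min_le_max _ _ _ _).trans (max_le (hA.lip x y)
        ((abs_max_sub_max_le_max _ _ _ _).trans (max_le (l0 _ x y) (l1 _ x y))))
    · exact (abs_min_sub_min_le_max _ _ _ _).trans (max_le (l0 _ x y)
        ((abs_max_sub_max_le_max _ _ _ _).trans (max_le (l0 _ x y)
          ((abs_min_sub_min_le_max _ _ _ _).trans (max_le (l1 _ x y) (l2 _ x y))))))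
  · rintro (_ | j) x
    · exact le_min (hA.nn x) (le_max_left _ _)
    · exact le_min (e0 _).le (le_max_left _ _)
  · rintro (_ | j) x
    · exact (min_le_left _ _).trans (hA.le x)
    · exact min_le_left _ _
  · rintro (_ | j) x hx
    · have k : d x - 7 / 16 * r ≤ 0 := by
        by_contra k
        exact hx ⟨by rw [pow_zero, div_one]; linarith, fun k => absurd rfl k⟩
      exact (congrArg (min (c0 x)) (max_eq_left k)).trans (min_eq_right (hA.nn x))
    · have k : min (d x - 7 / 16 * (r / 2 ^ (j + 1))) (9 / 8 * (r / 2 ^ (j + 1)) - d x) ≤ 0 := by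
        by_contra k
        rw [not_le, lt_min_iff] at k
        exact hx ⟨by linarith [k.1], fun _ => by linarith [k.2]⟩
      exact (congrArg (min (e (j + 1))) (max_eq_left k)).trans (min_eq_right (e0 _).le)
  · rintro (_ | j) x hx hx'
    · have k := hx.1
      rw [pow_zero, div_one] at k
      change min (c0 x) _ = η1
      rw [hA.full x hx']
      exact min_eq_left (le_max_of_le_right (by linarith))
    · have k := hx.2 j.succ_ne_zero
      exact min_eq_left (le_max_of_le_right (le_min (by linarith [hx.1, e4 (j + 1)])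
        (by linarith [e4 (j + 1), u0 (j + 1)])))
  · rintro (_ | j)
    exacts [e1, e0 _]
  · rintro (_ | j)
    · rw [pow_zero, mul_one]
      exact e2
    · exact e3 _
  · rintro (_ | j)
    · rw [pow_zero, div_one]
      exact h1
    · exact (le_div_iff₀' two_pos).1 (min_le_right _ _)
  · exact min_eq_left ((hA.le z).trans (le_max_of_le_right (by linarith)))

theorem Lys.od_pc {L : Lys} (hd : Lev Ω d) (hL : L.Ok d r η σ Q) {ω : ℕ → V 1} (i : ℕ)
    (hω : ∀ j, ∀ z ∈ sgd (L.η (2 * i)) 0 ∩ lyS d r (2 * i), z ∈ lyS d r (2 * j + 1) →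
      0 < bgd (L.η (2 * j + 1)) (ω (2 * j + 1)) z) :
    PC 1 (L.Gl 1 ω (fun _ => RL Finset.univ) '' (sgd (L.η (2 * i)) 0 ∩ lyS d r (2 * i))) := by
  have hr := hL.r0
  have hS : IsCompact (lyS d r (2 * i)) := bnd_cpt hd hr (by norm_num) _ _
  have hP := hS.inter_left (isClosed_sgd (L.η (2 * i)) 0)
  have hΩ : sgd (L.η (2 * i)) 0 ∩ lyS d r (2 * i) ⊆ Ω :=
    inter_subset_right.trans (bnd_sub hd hr (by norm_num) _ _)
  have hF := fam_lyS hd hr 1
  obtain ⟨K, hK⟩ := ((eventually_all_finite (hF.lf _ hP hΩ)).2 fun j _ =>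
    ACfg_dl (hP.inter_right (hF.cpt j).isClosed)
      (continuous_bgd (L.η (2 * j + 1)) (ω (2 * j + 1))) fun z hz => hω j z hz.1 hz.2).exists
  obtain ⟨g, g1, g2⟩ := Gl_ltp hd hL 1 ω (fun _ => K) _ hP hΩ
  rw [image_congr (g := g) fun z hz => ?_]
  · exact (pc_sgd (hL.pos _) 0 hS.isBounded).image hP.isBounded g1
  · rw [← g2 hz]
    refine gli_congr fun j => ?_
    by_cases k : z ∈ lyS d r (2 * j + 1)
    · exact (rgd_KL (hK j ⟨z, k, hz⟩ z ⟨hz, k⟩)).symm
    · rw [R_off hL k, R_off hL k]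

section
variable {L : Lys} {π j : ℕ} {ω ω' : ℕ → V 1} {Φ Φ' : ℕ → V 1 → V 1} {z : V 1}

theorem LRet2_one (hd : Lev Ω d) (hL : L.Ok d r η σ Q) (π : ℕ) (ω : ℕ → V 1)
    (Φ : ℕ → V 1 → V 1) (z : V 1) : ‖L.Gl π ω Φ z - z‖ ≤ η * aa d r z ∧
      |aa d r (L.Gl π ω Φ z) - aa d r z| ≤ aa d r z / 50 ∧ |d (L.Gl π ω Φ z) - d z| ≤ d z / 50 := by
  have h1 := (Lys.Gl_mv hd hL π ω Φ z).1
  have h2 := mul_nonneg hL.η0.le (aa_nonneg hd hL.r0 z)
  exact ⟨by linarith, aa_near hd hL.r0 hL.ηr (by linarith)⟩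

theorem LRet2_two (hd : Lev Ω d) (hL : L.Ok d r η σ Q) (ω ω' : ℕ → V 1)
    (Φ Φ' : ℕ → V 1 → V 1) (z : V 1) : ‖L.Gl 1 ω' Φ' (L.Gl 0 ω Φ z) - z‖ ≤ η * aa d r z ∧
      (z ∈ Ω → ‖L.Gl 1 ω' Φ' (L.Gl 0 ω Φ z) - z‖ ≤ σ (d z)) := by
  have h1 := Lys.Gl_mv hd hL 0 ω Φ z
  have h2 := Lys.Gl_mv hd hL 1 ω' Φ' (L.Gl 0 ω Φ z)
  have h3 := norm_sub_le_norm_sub_add_norm_sub (L.Gl 1 ω' Φ' (L.Gl 0 ω Φ z)) (L.Gl 0 ω Φ z) z
  obtain ⟨-, h4, h5⟩ := LRet2_one hd hL 0 ω Φ z
  have h6 := mul_nonneg hL.η0.le (aa_nonneg hd hL.r0 z)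
  have h7 := mul_le_mul_of_nonneg_left (abs_le.1 h4).2 hL.η0.le
  refine ⟨by linarith [h1.1, h2.1], fun hz => ?_⟩
  have h8 := hd.nn z
  have h9 : σ (d z / 3) ≤ σ (d z) := hL.mp.1 (by linarith)
  have h10 : σ (d (L.Gl 0 ω Φ z) / 3) ≤ σ (d z) := hL.mp.1 (by linarith [(abs_le.1 h5).2])
  linarith [h1.2 hz, h2.2 (Lys.Gl_maps hd hL hz)]

theorem LRet2_near (hd : Lev Ω d) (hL : L.Ok d r η σ Q) (hz : z ∈ lyA d r j) :
    L.Gl π ω Φ z ∈ lyF d r j := by
  refine lyA_near hd hL.r0 hz ((LRet2_one hd hL π ω Φ z).1.trans ?_)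
  refine (mul_le_mul_of_nonneg_left (aa_lyA hL.r0 hz) hL.η0.le).trans ?_
  rw [← mul_div_assoc, div_right_comm]
  exact div_le_div_of_nonneg_right (by linarith [hL.ηr, hL.η0]) (by positivity)

theorem LRet2_odd (hr : 0 < r) {a b : ℝ} (hb : 0 ≤ b) (hz : z ∈ bnd d r a b (2 * j + 1)) :
    d z ≤ b * (r / 2) := by
  have h1 := lle_sc hr (show 0 + 1 ≤ 2 * j + 1 by omega)
  rw [pow_zero, div_one, pow_one] at h1
  exact (hz.2 (by omega)).trans (mul_le_mul_of_nonneg_left h1 hb)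

theorem LRet2_W0 : L.Wp d r 0 0 z ≤ L.W d r ω z :=
  le_mul_of_one_le_right' (L.one_le_Wp _ _ _ _ _)

theorem LRet2_W1 : L.Wp d r 1 ω (L.EL z) ≤ L.W d r ω z :=
  le_mul_of_one_le_left' (L.one_le_Wp _ _ _ _ _)

theorem LRet2_ev (hd : Lev Ω d) (hL : L.Ok d r η σ Q) {m : ℕ → ℕ} (hm : Monotone m) {y : V 1}
    (hz : z ∈ lyA d r j) (hy : y ∈ Ω) (h : d y ≤ 2 * d z) (hw : L.Wp d r π ω y < 2 ^ m j) :
    L.Gl π ω (dep m) =ᶠ[𝓝 y] L.Gl π ω fun _ => RL Finset.univ :=
  Lys.Gl_ev hd hL hy fun _ hi =>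
    hw.trans_le (pow_le_pow_right₀ one_le_two (hm (lyA_idx hL.r0 hz hi h)))

end

theorem Lys.ret {L : Lys} (hd : Lev Ω d) (hL : L.Ok d r η σ Q) (hA : CoreA S K0 η0 η η1 Q H c0)
    (h0 : L.η 0 = η1) (hc : ∀ z, 3 * r / 4 ≤ d z → L.c 0 z = c0 z) {ω : ℕ → V 1}
    (hω : ∀ i j, ∀ z ∈ sgd (L.η (2 * i)) 0 ∩ lyS d r (2 * i), z ∈ lyS d r (2 * j + 1) →
      0 < bgd (L.η (2 * j + 1)) (ω (2 * j + 1)) z) :
    ∃ X : Ret Ω d r η σ Q H (fun k => rgd c0 η1 0 (RI Finset.univ k)), X.W = L.W d r ω := by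
  have hr := hL.r0
  have hΩ := hd.isOpen
  have sA : ∀ j, lyA d r j ⊆ Ω := fun j => bnd_sub hd hr (by norm_num) _ _
  have sS : ∀ j, lyS d r j ⊆ Ω := fun j => bnd_sub hd hr (by norm_num) _ _
  have s0 : ∀ z, 3 * r / 4 ≤ d z → z ∈ lyS d r (2 * 0 + 0) := fun z hz =>
    ⟨by norm_num; linarith, fun k => absurd rfl k⟩
  have evE : ∀ m, Monotone m → ∀ j, ∀ z ∈ lyA d r j, L.W d r ω z < 2 ^ m j →
      L.Gl 0 0 (dep m) =ᶠ[𝓝 z] L.EL := fun m hm j z hz h =>
    LRet2_ev hd hL hm hz (sA j hz) (by linarith [hd.nn z]) (LRet2_W0.trans_lt h)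
  refine ⟨⟨fun i => lyS d r (2 * i + 0), fun i => lyS d r (2 * i + 1),
    fun m i => L.R 0 (dep m) (2 * i + 0), fun m i => L.R ω (dep m) (2 * i + 1),
    L.Gl 1 ω (fun _ => RL Finset.univ) ∘ L.EL, L.W d r ω,
    fun j => (sgd (L.η j) (ω j) ∩ lyS d r j) ∪
      L.Gl 1 ω (fun _ => RL Finset.univ) '' (sgd (L.η (2 * j)) 0 ∩ lyS d r (2 * j)),
    fam_lyS hd hr 0, fam_lyS hd hr 1, fun i z hz => ?_, fun m i => R_cs hL _ _ _,
    fun m i => R_cs hL _ _ _, fun m z hz => ?_,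
    (measurable_Gl hd hL 1 ω).comp (measurable_Gl hd hL 0 0),
    (L.measurable_Wp hd r 0 0).mul ((L.measurable_Wp hd r 1 ω).comp (measurable_Gl hd hL 0 0)),
    fun z => (L.one_le_Wp _ _ _ _ _).trans LRet2_W0, fun j => ?_, fun j => ?_, fun C hC hs => ?_,
    fun m z => (LRet2_one hd hL 0 0 (dep m) z).1,
    fun mE mO z => (LRet2_two hd hL 0 ω (dep mE) (dep mO) z).1,
    fun z hz => ⟨(LRet2_two hd hL 0 ω _ _ z).1, (LRet2_two hd hL 0 ω _ _ z).2 hz⟩,
    fun z hz hQ => ?_, fun z hz hQ hW => ?_, fun mE mO hE hO j z hz h1 h2 => ?_,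
    fun mE mO hE j z hz h1 => ?_, fun mO j => ?_⟩, rfl⟩
  · linarith [LRet2_odd hr (by norm_num) hz]
  · refine (Gl_in (Φ := dep m) (ω := 0) hd hL (s0 z hz)).trans ?_
    change rgd (L.c 0) (L.η 0) 0 (RI Finset.univ (m 2)) z = _
    rw [h0]
    exact rgd_congr (hc z hz)
  · exact (pc_sgd (hL.pos j) _ (bnd_cpt hd hr (by norm_num) _ _).isBounded).union
      (od_pc hd hL j (hω j))
  · exact union_subset (inter_subset_right.trans (sS j))
      (image_subset_iff.2 fun z hz => Gl_maps hd hL (sS _ hz.2))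
  · obtain ⟨c, c1, c2⟩ := hd.low hC hs
    refine ((bnd_lf hd hr (7 / 16) (9 / 8) hC hs).union ((fam_lyS hd hr 0).lf _
      (hd.cpt _ (half_pos c1)) fun x hx => (hd.pos x).1 ((half_pos c1).trans_le hx))).subset ?_
    rintro j ⟨y, hy | ⟨z, hz, rfl⟩, hy'⟩
    · exact .inl ⟨y, hy.2, hy'⟩
    · refine .inr ⟨z, hz.2, ?_⟩
      have k := (abs_le.1 (LRet2_one hd hL 1 ω (fun _ => RL Finset.univ) z).2.2).2
      change c / 2 ≤ d z
      linarith [c2 _ hy']
  · rcases le_or_gt (3 * r / 4) (d z) with k | k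
    · have k1 : ∀ Φ, L.Gl 0 0 Φ z ∉ H := fun Φ k2 => by
        have k3 := hA.gap z hQ _ k2
        rw [Gl_in hd hL (s0 z k)] at k3
        exact k3.not_ge ((rgd_mv (hL.nn 0 z)).trans (h0 ▸ hL.le 0 z))
      refine ⟨?_, fun m => k1 (dep m)⟩
      rw [comp_apply, Gl_off hL fun i k2 => ?_]
      · exact k1 _
      · have k3 := (abs_le.1 (LRet2_one hd hL 0 0 (fun _ => RL Finset.univ) z).2.2).1
        have k4 := LRet2_odd hr (by norm_num) k2
        rw [EL] at k4
        linarith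
    · have k1 : ∀ y, ‖y - z‖ ≤ η * aa d r z → y ∉ H := fun y k2 k3 => by
        have k4 := mul_nonneg hL.η0.le (aa_nonneg hd hr z)
        have k5 := (abs_le.1 (aa_near hd hr hL.ηr (y := y) (z := z) (by linarith)).2).2
        linarith [hL.Qr y (hA.HQ k3)]
      exact ⟨k1 _ (LRet2_two hd hL 0 ω _ _ z).1, fun m => k1 _ (LRet2_one hd hL 0 0 (dep m) z).1⟩
  · obtain ⟨j, hj⟩ := exists_lyA hd hr hz
    obtain ⟨i, rfl | rfl⟩ := j.even_or_odd'
    · exact mem_iUnion.2 ⟨i, .inr ⟨_, Gl_land (π := 0) (ω := 0) hd hL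
        (bnd_mono hr (by norm_num) (by norm_num) _ hj) hQ (ne_top_of_le_ne_top hW LRet2_W0), rfl⟩⟩
    · have k : L.EL z ∈ lyF d r (2 * i + 1) := LRet2_near hd hL hj
      refine mem_iUnion.2 ⟨2 * i + 1, .inl (Gl_land hd hL k (fun k1 => ?_)
        (ne_top_of_le_ne_top hW LRet2_W1))⟩
      linarith [hL.Qr _ k1, LRet2_odd hr (by norm_num) k]
  · have k1 := evE mE hE j z hz h1
    have k2 : L.Gl 1 ω (dep mO) =ᶠ[𝓝 (L.EL z)] L.Gl 1 ω fun _ => RL Finset.univ :=
      LRet2_ev hd hL hO hz (Gl_maps hd hL (sA j hz)) (by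
        have k3 := (abs_le.1 (LRet2_one hd hL 0 0 (fun _ => RL Finset.univ) z).2.2).2
        rw [EL]
        linarith [hd.nn z]) (LRet2_W1.trans_lt h2)
    have k3 : Tendsto (L.Gl 0 0 (dep mE)) (𝓝 z) (𝓝 (L.EL z)) := k1.eq_of_nhds ▸
      ((Gl_ltp hd hL 0 0 mE).continuousOn hΩ).continuousAt (hΩ.mem_nhds (sA j hz))
    exact (k2.comp_tendsto k3).trans (k1.fun_comp _)
  · have hW := h1.ne_top
    have k1 := Gl_ll hd hL mO (Gl_maps hd hL (sA j hz)) (ne_top_of_le_ne_top hW LRet2_W1)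
    rw [← EL, ← (evE mE hE j z hz h1).eq_of_nhds] at k1
    refine (k1.comp (Gl_ll hd hL mE (sA j hz) (ne_top_of_le_ne_top hW LRet2_W0))
      (by positivity)).mono (le_of_eq ?_)
    rw [(evE mE hE j z hz h1).eq_of_nhds, W, ENNReal.toReal_mul]
    ring
  · obtain ⟨c, c1, c2⟩ := (Gl_ltp hd hL 1 ω mO).ll hΩ (bnd_cpt hd hr (a := 15 / 32)
      (by norm_num) (17 / 16) j) (bnd_sub hd hr (by norm_num) _ _)
    refine ⟨c * 2, by positivity, fun mE z hz hW => ?_⟩
    refine ((c2 _ (LRet2_near hd hL hz)).comp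
      (Gl_ll hd hL mE (sA j hz) (ne_top_of_le_ne_top hW LRet2_W0)) c1).mono ?_
    rw [mul_assoc]
    gcongr
    exact LRet2_W0

theorem exists_lret {ρ : ℝ} (h0 : 0 ≤ ρ) (h2 : ρ < 2) : ∃ C : ℝ≥0∞, C ≠ ⊤ ∧
    ∀ (Ω Q H S K0 : Set (V 1)) (d c0 : V 1 → ℝ) (r η η0 η1 : ℝ) (σ : ℝ → ℝ) (Φ : V 1 → ℝ≥0∞)
      (ε : ℝ≥0∞), Lev Ω d → 0 < r → 1024 * η ≤ r → MP σ → CoreA S K0 η0 η η1 Q H c0 →
      2 * η1 ≤ σ (r / 8) → (∀ x ∈ Q, r ≤ d x) → Measurable Φ → ∫⁻ x, Φ x ≠ ⊤ → ε ≠ 0 →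
      ∃ X : Ret Ω d r η σ Q H (fun k => rgd c0 η1 0 (RI Finset.univ k)),
        (∀ a, 0 < a → ∫⁻ z in {x | a ≤ d x}, X.W z ^ ρ ≠ ⊤) ∧
        (Measurable fun t => ∫⁻ z in Ω, Φ (kap d r t (X.TL z)) * X.W z ^ ρ) ∧
        ∫⁻ t in closedBall (0 : V 1) η, ∫⁻ z in Ω, Φ (kap d r t (X.TL z)) * X.W z ^ ρ ≤
          (C * (∫⁻ x, Φ x) + ε) * volume (closedBall (0 : V 1) η) := by
  obtain ⟨C1, hC1, H1⟩ := Lys.Wp_ball h0 h2
  obtain ⟨C2, hC2, H2⟩ := Lys.exists_ω h0 h2
  have c2 : (2 : ℝ≥0∞) ^ (2 * 1 + 1) ≠ ⊤ := ENNReal.pow_ne_top ENNReal.ofNat_ne_top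
  refine ⟨C2 * (2 ^ (2 * 1 + 1) * C1), ENNReal.mul_ne_top hC2 (ENNReal.mul_ne_top c2 hC1),
    fun Ω Q H S K0 d c0 r η η0 η1 σ Φ ε hd hr hη hσ hA h1 hQ hΦ hΦ' hε => ?_⟩
  obtain ⟨L, hL, l1, l2⟩ := exists_lys hd hr hη hσ hA h1 hQ
  have e0 := hL.η0
  have k1 := av_hh hd hr e0 hη hΦ ((L.measurable_Wp hd r 0 0).pow_const ρ) (H1 L Ω Q d r η σ hd hL)
  obtain ⟨ω, w1, w2, w3⟩ := H2 L Ω Q d r η σ (hh d r η Φ) (ε * ENNReal.ofReal η ^ (2 * 1 + 1)) hd hL
    (measurable_hh hd r η hΦ) (ne_top_of_le_ne_top (ENNReal.mul_ne_top (ENNReal.mul_ne_top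
      (ENNReal.mul_ne_top c2 hC1) (ENNReal.pow_ne_top ENNReal.ofReal_ne_top)) hΦ') k1)
    (mul_ne_zero hε (pow_ne_zero _ (ENNReal.ofReal_pos.2 e0).ne'))
  obtain ⟨X, hX⟩ := L.ret hd hL hA l1 l2 w3
  obtain ⟨k2, k3⟩ := av_map hd hr hη hΦ (X.mW.pow_const ρ) X.mT fun z hz => (X.mvL z hz).1
  refine ⟨X, hX ▸ w2, k2, k3.trans ?_⟩
  rw [hX, Real.volume_pi_closedBall _ e0.le, Fintype.card_fin, ENNReal.ofReal_pow (by positivity),
    ENNReal.ofReal_mul zero_le_two, ENNReal.ofReal_ofNat, mul_pow]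
  refine (mul_le_mul_right (w1.trans (add_le_add_left (mul_le_mul_right k1 _) _)) _).trans
    (le_of_eq ?_)
  ring

end BEp
end
end

-- merged part: Pool.Agent.Work.MP_f0515e_an.D3.LUg
section
/-! Absolute continuity along polygonal paths.
Plan. ug_cpt: choose open O and compact S1 with S in O in S1 in Omega, extend f from S1 (ext_cont), memW1p_restrict to O, exists_moll_lp gives C2 maps u j; by Hoelder on the compact S (or |x| <= delta + delta^(1-p) |x|^p) the L1 norms of Du j - D on S tend to 0;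
pass to a subsequence with sum finite; v = |D| + tsum |Du j - D|. On a TP path gamma (L-Lipschitz, |deriv gamma| <= L, differentiable off a null set; u j o gamma is locally Lipschitz so the fundamental theorem holds: gamma is differentiable off a countable or finite set on [0,1],
or use AbsolutelyContinuousOnInterval.integral_deriv_eq_sub if available) u j (gamma s) - u j (gamma 0) = integral of Du j (gamma) gamma'; the sum of the integrals of |Du j - D| (gamma) is finite so the terms tend to 0; pass to the limit.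
exists_ug: S k = {d >= 1/(k+1)} from exists_lev, v = tsum of c k * indicator (S k) (v k) with c k > 0 and c k * integral <= (1/2)^k; the image of [0,1] is in some S k (Lev.low).
ae_seg: swap the integrals, av_pt with z = y; hh is bounded on the compact segment by c^(-n) times the integral of v; ae_lt_top.
eug_kap: Kx.countable_edge and ae_ball_iff; gamma = k o seg a b with k TP equal to kap near the segment (LTP.nhds of kap_llh), |deriv gamma s| <= 2 |b - a| by kap_lip; subtract the formulas at s and s'. -/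

open Set Metric Filter Topology Function BEv MeasureTheory
open scoped NNReal ENNReal

noncomputable section
namespace BEp

variable {n : ℕ} {Ω S : Set (Rn n)} {f : Rn n → Rn n} {D : Rn n → Rn n →L[ℝ] Rn n}
  {v : Rn n → ℝ≥0∞} {p : ℝ≥0∞}

theorem lug_ext {K : Set (Rn n)} (hK : IsClosed K) (hf : ContinuousOn f K) :
    ∃ g : Rn n → Rn n, Continuous g ∧ EqOn g f K := by
  have : TietzeExtension (Rn n) := TietzeExtension.of_tvs ℝ
  obtain ⟨g, hg⟩ := ContinuousMap.exists_restrict_eq hK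
    (⟨K.domRestrict f, hf.domRestrict⟩ : C(K, Rn n))
  exact ⟨g, g.continuous, fun x hx => congrArg (fun k : C(K, Rn n) => k ⟨x, hx⟩) hg⟩

theorem UG.mono (h : UG Ω f D v) (hs : S ⊆ Ω) {f' : Rn n → Rn n} (e : EqOn f' f S) :
    UG S f' D v := by
  intro γ h1 h2 h3
  obtain ⟨k1, k2, k3⟩ := h γ h1 (h2.mono_right hs) h3
  refine ⟨k1, k2, fun s hs => ?_⟩
  rw [e (h2 hs), e (h2 (left_mem_Icc.2 zero_le_one))]
  exact k3 s hs

theorem LUg_bd {F : ℝ → Rn n} {φ : ℝ → ℝ≥0∞} {c : ℝ≥0∞} (hc : c ≠ ⊤) {s s' : ℝ} (h : s ≤ s')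
    (hF : ∀ x ∈ Ioo s s', ‖F x‖ₑ ≤ c * φ x) :
    ‖∫ x in s..s', F x‖ₑ ≤ c * ∫⁻ x in Icc s s', φ x := by
  rw [intervalIntegral.integral_of_le h, integral_Ioc_eq_integral_Ioo,
    ← lintegral_const_mul' _ _ hc]
  exact (enorm_integral_le_lintegral_enorm _).trans
    ((setLIntegral_mono' measurableSet_Ioo hF).trans (lintegral_mono_set Ioo_subset_Icc_self))

theorem LUg_op (B : Rn n →L[ℝ] Rn n) {w : Rn n} {L : ℝ≥0} (h : ‖w‖ ≤ L) :
    ‖B w‖ₑ ≤ L * ‖B‖ₑ := by
  rw [enorm_eq_nnnorm, enorm_eq_nnnorm, ← ENNReal.coe_mul, ENNReal.coe_le_coe, mul_comm]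
  exact B.le_opNorm_of_le h

theorem LUg_int {γ : ℝ → Rn n} {L : ℝ≥0} (hγ : LipschitzWith L γ) {B : ℝ → Rn n →L[ℝ] Rn n}
    (hB : Measurable B) (h : ∫⁻ s in Icc (0 : ℝ) 1, ‖B s‖ₑ ≠ ⊤) :
    IntervalIntegrable (fun s => B s (deriv γ s)) volume 0 1 := by
  rw [intervalIntegrable_iff_integrableOn_Icc_of_le zero_le_one]
  refine ⟨isBoundedBilinearMap_apply.continuous.comp_aestronglyMeasurable
    (hB.aestronglyMeasurable.prodMk (measurable_deriv γ).aestronglyMeasurable), ?_⟩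
  refine (lintegral_mono fun s => LUg_op (B s) (norm_deriv_le_of_lipschitz hγ)).trans_lt ?_
  rw [lintegral_const_mul' _ _ ENNReal.coe_ne_top]
  exact ENNReal.mul_lt_top ENNReal.coe_lt_top h.lt_top

theorem LUg_ftc {γ : ℝ → Rn n} {L : ℝ≥0} (hγ : LipschitzWith L γ) {u : Rn n → Rn n}
    (hu : ContDiff ℝ 2 u) {s : ℝ}
    (h : IntervalIntegrable (fun x => fderiv ℝ u (γ x) (deriv γ x)) volume 0 s) :
    ∫ x in (0 : ℝ)..s, fderiv ℝ u (γ x) (deriv γ x) = u (γ s) - u (γ 0) := by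
  obtain ⟨R, hR⟩ := ((isCompact_uIcc (a := (0 : ℝ)) (b := s)).image
    hγ.continuous).isBounded.subset_closedBall 0
  obtain ⟨K, hK⟩ := hu.contDiffOn.exists_lipschitzOnWith two_ne_zero (convex_closedBall 0 R)
    (isCompact_closedBall 0 R)
  funext i
  have k := ((LipschitzWith.eval i).comp_lipschitzOnWith (hK.comp hγ.lipschitzOnWith
    fun x hx => hR ⟨x, hx, rfl⟩)).absolutelyContinuousOnInterval.integral_deriv_eq_sub
  refine ((ContinuousLinearMap.proj (R := ℝ) (φ := fun _ : Fin n => ℝ)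
    i).intervalIntegral_comp_comm h).symm.trans
    ((intervalIntegral.integral_congr_ae ?_).trans k)
  filter_upwards [hγ.ae_differentiableAt_real] with x hx _
  exact (hasDerivAt_pi.1 ((hu.differentiable two_ne_zero (γ x)).hasFDerivAt.comp_hasDerivAt x
    hx.hasDerivAt) i).deriv.symm

theorem LUg_l1 {F : ℕ → Rn n → Rn n →L[ℝ] Rn n} (hp1 : 1 ≤ p) (hp : p ≠ ⊤) (hS : IsCompact S)
    (hF : ∀ j, Measurable (F j))
    (h : Tendsto (fun j => ∫⁻ x in S, ‖F j x‖ₑ ^ p.toReal) atTop (𝓝 0)) :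
    Tendsto (fun j => ∫⁻ x in S, ‖F j x‖ₑ) atTop (𝓝 0) := by
  have p1 : 1 ≤ p.toReal := by simpa using ENNReal.toReal_mono hp hp1
  have k1 := (ENNReal.continuous_rpow_const (y := 1 / p.toReal)).continuousAt.tendsto.comp h
  rw [ENNReal.zero_rpow_of_pos (by positivity)] at k1
  have k2 := ENNReal.Tendsto.mul_const k1 (b := (volume.restrict S) univ ^
    (1 / (1 : ℝ≥0∞).toReal - 1 / p.toReal)) (Or.inr (ENNReal.rpow_ne_top_of_nonneg
      (by simpa using inv_le_one_of_one_le₀ p1) (by simpa using hS.measure_lt_top.ne)))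
  rw [zero_mul] at k2
  refine tendsto_of_tendsto_of_tendsto_of_le_of_le tendsto_const_nhds k2 (fun _ => zero_le)
    fun j => ?_
  have := eLpNorm_le_eLpNorm_mul_rpow_measure_univ (μ := volume.restrict S) hp1
    (hF j).aestronglyMeasurable
  rwa [eLpNorm_one_eq_lintegral_enorm,
    eLpNorm_eq_lintegral_rpow_enorm_toReal (zero_lt_one.trans_le hp1).ne' hp] at this

theorem ug_cpt (hp1 : 1 ≤ p) (hp : p ≠ ⊤) (hΩ : IsOpen Ω) (hS : IsCompact S) (hs : S ⊆ Ω)
    (hf : ContinuousOn f Ω) (hW : MemW1p p Ω f D) (hD : Measurable D) :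
    ∃ v : Rn n → ℝ≥0∞, Measurable v ∧ ∫⁻ x in S, v x ≠ ⊤ ∧ UG S f D v := by
  obtain ⟨S1, c1, s1, s2⟩ := exists_compact_between hS hΩ hs
  obtain ⟨g, g1, g2⟩ := lug_ext c1.isClosed (hf.mono s2)
  obtain ⟨u, u1, u2, u3⟩ := exists_moll_lp hp1 hp isOpen_interior hS s1 g1 (memW1p_restrict hW
    hΩ.measurableSet isOpen_interior.measurableSet (interior_subset.trans s2)
    (g2.mono interior_subset))
  have m1 : ∀ j, Measurable fun x => fderiv ℝ (u j) x - D x := fun j =>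
    (measurable_fderiv ℝ _).sub hD
  obtain ⟨e, e0, e1⟩ := ENNReal.exists_pos_sum_of_countable one_ne_zero ℕ
  obtain ⟨φ, φ1, φ2⟩ := extraction_forall_of_eventually fun j =>
    (LUg_l1 hp1 hp hS m1 u3).eventually (ge_mem_nhds (ENNReal.coe_pos.2 (e0 j)))
  have : IsFiniteMeasure (volume.restrict S) := isFiniteMeasure_restrict.2 hS.measure_lt_top.ne
  refine ⟨fun x => ‖D x‖ₑ + ∑' j, ‖fderiv ℝ (u (φ j)) x - D x‖ₑ,
    hD.enorm.add (.tsum fun j => (m1 _).enorm), ?_,
    UG.mono (f := g) (fun γ h1 h2 h3 => ?_) subset_rfl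
      (g2.symm.mono (s1.trans interior_subset))⟩
  · rw [lintegral_add_left hD.enorm, lintegral_tsum fun j => (m1 _).enorm.aemeasurable]
    exact ENNReal.add_ne_top.2
      ⟨((hW.2.1.mono_measure (Measure.restrict_mono hs le_rfl)).integrable hp1).2.ne,
        ((ENNReal.tsum_le_tsum φ2).trans_lt (e1.trans ENNReal.one_lt_top)).ne⟩
  · obtain ⟨L, hL⟩ := h1.lip
    have m2 : Measurable fun s => D (γ s) := hD.comp hL.continuous.measurable
    have m3 : ∀ j, Measurable fun s => fderiv ℝ (u j) (γ s) - D (γ s) := fun j =>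
      (m1 j).comp hL.continuous.measurable
    rw [lintegral_add_left m2.enorm, lintegral_tsum fun j => (m3 _).enorm.aemeasurable,
      ENNReal.add_ne_top] at h3
    have i1 := LUg_int hL m2 h3.1
    refine ⟨h3.1, i1, fun s hs => ?_⟩
    have sub : uIcc 0 s ⊆ uIcc (0 : ℝ) 1 := uIcc_subset_uIcc_left (Icc_subset_uIcc hs)
    have k1 := ENNReal.Tendsto.const_mul (ENNReal.tendsto_atTop_zero_of_tsum_ne_top h3.2)
      (a := L) (Or.inr ENNReal.coe_ne_top)
    have k2 := ((((u2.tendsto_at (h2 hs)).comp φ1.tendsto_atTop).sub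
      ((u2.tendsto_at (h2 (left_mem_Icc.2 zero_le_one))).comp φ1.tendsto_atTop)).sub_const
      (∫ x in (0 : ℝ)..s, D (γ x) (deriv γ x))).enorm
    have k3 := le_of_tendsto_of_tendsto' k2 k1 fun j => by
      have i2 := (LUg_int hL (m3 (φ j)) (ENNReal.ne_top_of_tsum_ne_top h3.2 j)).mono_set sub
      have i3 : IntervalIntegrable (fun x => fderiv ℝ (u (φ j)) (γ x) (deriv γ x)) volume 0 s := by
        simpa using i2.add (i1.mono_set sub)
      simp only [comp_apply]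
      rw [← LUg_ftc hL (u1 _) i3, ← intervalIntegral.integral_sub i3 (i1.mono_set sub)]
      exact (LUg_bd ENNReal.coe_ne_top hs.1 fun x _ =>
        LUg_op (fderiv ℝ (u (φ j)) (γ x) - D (γ x)) (norm_deriv_le_of_lipschitz hL)).trans
        (mul_le_mul_right (lintegral_mono_set (Icc_subset_Icc_right hs.2)) _)
    rw [mul_zero, le_zero_iff, enorm_eq_zero, sub_sub, sub_eq_zero] at k3
    exact k3

theorem exists_ug (hp1 : 1 ≤ p) (hp : p ≠ ⊤) (hΩ : IsOpen Ω) (hf : ContinuousOn f Ω)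
    (hW : MemW1p p Ω f D) (hD : Measurable D) :
    ∃ v : Rn n → ℝ≥0∞, Measurable v ∧ ∫⁻ x, v x ≠ ⊤ ∧ UG Ω f D v := by
  obtain ⟨d, hd⟩ := exists_lev hΩ
  have c1 : ∀ k : ℕ, IsCompact {x | 1 / ((k : ℝ) + 1) ≤ d x} := fun k => hd.cpt _ (by positivity)
  choose w w1 w2 w3 using fun k : ℕ => ug_cpt hp1 hp hΩ (c1 k)
    (fun x hx => (hd.pos x).1 (lt_of_lt_of_le (by positivity) hx)) hf hW hD
  obtain ⟨e, e0, e1⟩ := ENNReal.exists_pos_sum_of_countable one_ne_zero ℕ
  choose c c0 c2 c3 using fun k => ACo_small (w2 k) (ENNReal.coe_ne_zero.2 (e0 k).ne')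
  have m1 : ∀ k, Measurable fun x => c k * indicator {x | 1 / ((k : ℝ) + 1) ≤ d x} (w k) x :=
    fun k => ((w1 k).indicator (c1 k).measurableSet).const_mul _
  refine ⟨fun x => ∑' k, c k * indicator {x | 1 / ((k : ℝ) + 1) ≤ d x} (w k) x,
    .tsum m1, ?_, fun γ h1 h2 h3 => ?_⟩
  · rw [lintegral_tsum fun k => (m1 k).aemeasurable]
    refine ((ENNReal.tsum_le_tsum fun k => ?_).trans_lt (e1.trans ENNReal.one_lt_top)).ne
    rw [lintegral_const_mul' _ _ (c2 k), lintegral_indicator (c1 k).measurableSet, mul_comm]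
    exact c3 k
  · obtain ⟨a, a0, a1⟩ := hd.low (isCompact_Icc.image h1.continuous) h2.image_subset
    obtain ⟨k, hk⟩ := exists_nat_one_div_lt a0
    have h4 : MapsTo γ (Icc 0 1) {x | 1 / ((k : ℝ) + 1) ≤ d x} := fun s hs =>
      hk.le.trans (a1 _ ⟨s, hs, rfl⟩)
    refine w3 k γ h1 h4 fun h5 => h3 (top_unique ?_)
    rw [← ENNReal.mul_top (c0 k), ← h5, ← lintegral_const_mul' _ _ (c2 k)]
    refine setLIntegral_mono' measurableSet_Icc fun s hs => le_trans ?_ (ENNReal.le_tsum k)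
    rw [indicator_of_mem (h4 hs)]

theorem ae_seg {d : Rn n → ℝ} {r η : ℝ} (hd : Lev Ω d) (hr : 0 < r) (hη : 1024 * η ≤ r)
    (hv : Measurable v) (hi : ∫⁻ x, v x ≠ ⊤) {a b : Rn n} (h : segment ℝ a b ⊆ Ω) :
    ∀ᵐ t ∂volume.restrict (closedBall (0 : Rn n) η),
      ∫⁻ s in Icc (0 : ℝ) 1, v (kap d r t (seg a b s)) ≠ ⊤ := by
  rcases lt_or_ge η 0 with h0 | h0
  · simp [closedBall_eq_empty.2 h0]
  have m : Measurable fun q : Rn n × ℝ => v (kap d r q.1 (seg a b q.2)) :=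
    hv.comp ((continuous_kap hd r).comp (continuous_fst.prodMk
      ((tp_seg a b).continuous.comp continuous_snd))).measurable
  rw [← seg_image] at h
  obtain ⟨c, c0, c1⟩ := hd.low (isCompact_Icc.image (tp_seg a b).continuous) h
  refine (ae_lt_top m.lintegral_prod_right' ?_).mono fun t ht => ht.ne
  rw [lintegral_lintegral_swap m.aemeasurable]
  refine ((setLIntegral_mono' (g := fun _ =>
    2 ^ n * ((ENNReal.ofReal (min 1 (2 * c / r)))⁻¹ ^ n * ∫⁻ x, v x)) measurableSet_Icc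
    fun s hs => ?_).trans_lt ?_).ne
  · refine (av_pt hd hr hη hv (y := seg a b s) (h ⟨s, hs, rfl⟩)
      (by simpa using mul_nonneg h0 (aa_nonneg hd hr _))).trans (mul_le_mul_right ?_ _)
    have := c1 _ ⟨s, hs, rfl⟩
    refine mul_le_mul' (pow_le_pow_left' (ENNReal.inv_le_inv.2 (ENNReal.ofReal_le_ofReal
      (min_le_min_left _ ?_))) n) (setLIntegral_le_lintegral _ _)
    gcongr
  · rw [setLIntegral_const]
    exact ENNReal.mul_lt_top (ENNReal.mul_lt_top (ENNReal.pow_lt_top ENNReal.ofNat_lt_top)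
      (ENNReal.mul_lt_top (ENNReal.pow_lt_top (ENNReal.inv_lt_top.2
        (ENNReal.ofReal_pos.2 (by positivity)))) hi.lt_top)) measure_Icc_lt_top

theorem eug_kap {Ω : Set (Rn 3)} {f : Rn 3 → Rn 3} {D : Rn 3 → Rn 3 →L[ℝ] Rn 3}
    {v : Rn 3 → ℝ≥0∞} {d : Rn 3 → ℝ} {r η : ℝ} (hd : Lev Ω d) (hr : 0 < r) (hη : 1024 * η ≤ r)
    (hv : Measurable v) (hi : ∫⁻ x, v x ≠ ⊤) (h : UG Ω f D v) (K : Kx Ω) :
    ∀ᵐ t ∂volume.restrict (closedBall (0 : Rn 3) η),
      EUG K (f ∘ kap d r t) fun y => 2 * ‖D (kap d r t y)‖ₑ := by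
  filter_upwards [(ae_ball_iff (K.countable_edge hd.isOpen)).2 fun q hq =>
    ae_seg hd hr hη hv hi fun x hx => (Kx.Edge.seg_sub hq hx).1,
    ae_restrict_mem measurableSet_closedBall] with t h1 ht a b hab
  rw [mem_closedBall_zero_iff] at ht
  have hk := kap_llh hd hr hη ht
  have s1 : seg a b '' Icc 0 1 ⊆ Ω := fun x hx => (hab.seg_sub (seg_image a b ▸ hx)).1
  obtain ⟨k, k1, k2⟩ := hk.2 _ (isCompact_Icc.image (tp_seg a b).continuous) s1
  have e : ∀ s ∈ Icc (0 : ℝ) 1, kap d r t (seg a b s) = k (seg a b s) := fun s hs =>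
    k2 ⟨s, hs, rfl⟩
  obtain ⟨q1, q2, q3⟩ := h _ (k1.tp.comp (tp_seg a b))
    (fun s hs => e s hs ▸ hk.1.mapsTo (s1 ⟨s, hs, rfl⟩))
    (by
      rw [← setLIntegral_congr_fun measurableSet_Icc fun s hs => congrArg v (e s hs)]
      exact h1 (a, b) hab)
  have l1 : LipschitzOnWith (2 * ‖b - a‖₊) (fun s => k (seg a b s)) (Icc 0 1) :=
    .of_dist_le_mul fun s hs s' hs' => by
      rw [← e s hs, ← e s' hs', dist_eq_norm]
      refine (kap_lip hd hr hη ht _ _).1.trans_eq ?_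
      rw [seg, seg, add_sub_add_left_eq_sub, ← sub_smul, norm_smul, dist_eq_norm]
      push_cast
      ring
  refine ⟨?_, fun s s' h0 h2 h3 => ?_⟩
  · rw [lintegral_const_mul' _ _ ENNReal.ofNat_ne_top,
      setLIntegral_congr_fun measurableSet_Icc fun s hs => congrArg (‖D ·‖ₑ) (e s hs)]
    exact ENNReal.mul_ne_top ENNReal.ofNat_ne_top q1
  · have m1 : s ∈ Icc (0 : ℝ) 1 := ⟨h0, h2.trans h3⟩
    have m2 : s' ∈ Icc (0 : ℝ) 1 := ⟨h0.trans h2, h3⟩
    rw [comp_apply, comp_apply, e s m1, e s' m2, q3 s m1, q3 s' m2, add_sub_add_left_eq_sub,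
      intervalIntegral.integral_interval_sub_left
        (q2.mono_set (uIcc_subset_uIcc_left (Icc_subset_uIcc m2)))
        (q2.mono_set (uIcc_subset_uIcc_left (Icc_subset_uIcc m1)))]
    refine LUg_bd enorm_ne_top h2 fun x hx => (LUg_op _ (norm_deriv_le_of_lipschitzOn
      (Icc_mem_nhds (h0.trans_lt hx.1) (hx.2.trans_le h3)) l1)).trans_eq ?_
    beta_reduce
    rw [e x ⟨h0.trans hx.1.le, hx.2.le.trans h3⟩, ENNReal.coe_mul, ← mul_assoc, mul_comm ‖b - a‖ₑ]
    rfl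

end BEp
end
end
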