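import Pool.Agent.Work.MP_f0515e_an.P3.VCyl

/-! All the edges.
Plan. step: e = (a,b), H from X.germ, L, and for small ρ ≤ min 1 (X.ρ e) the data Z, F0 of edge_model. F' x = F x + (F0 (x - a) - H (x - a)), Z' = {x | x - a ∈ Z}. On lens e and at a, b we have F = G = G a + H (· - a)
(lenses are disjoint and miss B), so F' = G a + F0 (· - a) there; F' = F off Z'. Injective: both points in Z', both off Z', or F' x = G a + H (x' - a) = F x' with x' in Z'.
Regular: on Z' minus the ends by CR.post, CR.comp, CR.congr on the open lens; off the closed set Z' F' = F locally and the point is not on the open segment. Energy: Eg_step with N = {a,b},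
M = 2 L (‖b - a‖ + 1), lens_tube and tube_small (take C = L and r = ρ ≤ 1, L ≤ L / ρ).
fin: induction on a finite set of new edges. edges3: seq_lim with P j F = X.St (T j) F, T j the edges whose lens meets K j. -/

open Set Metric Filter Topology Function BEv MeasureTheory
open scoped NNReal ENNReal ContDiff

noncomputable section
namespace BEp

theorem MEdges_sh {H : Rn 3 → Rn 3} {L : ℝ} (h : Lz H L) (c a : Rn 3) :
    Lz (fun x => c + H (x - a)) L := fun x y => by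
  simpa only [add_sub_add_left_eq_sub, sub_sub_sub_cancel_right] using h (x - a) (y - a)

theorem MEdges_seg {a b x : Rn 3} {ρ : ℝ} (h : 0 < ρ) (hx : x ∈ openSegment ℝ a b) :
    x ∈ lens a b ρ := by
  rw [openSegment_eq_image'] at hx
  obtain ⟨z, hz, rfl⟩ := hx
  exact ⟨z, hz, by simpa [seg] using mul_pos h (mul_pos hz.1 (sub_pos.2 hz.2))⟩

namespace Sd
variable {Ω : Set (Rn 3)} {G F : Rn 3 → Rn 3} (X : Sd Ω G) {p : ℝ}

/-- The edges in `T` have been treated. -/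
structure St (T : Set (Rn 3 × Rn 3)) (F : Rn 3 → Rn 3) : Prop where
  il : IL Ω F
  eq : ∀ x ∈ Ω, (∀ e ∈ T, x ∉ lens e.1 e.2 (X.ρ e)) → F x = G x
  cr : ∀ x ∈ Ω, x ∉ X.B → (∀ e ∈ X.S, e ∉ T → x ∉ openSegment ℝ e.1 e.2) → CR F x

variable {X}

theorem step (hΩ : IsOpen Ω) (hp0 : 0 ≤ p) (hp : p < 2) {T : Set (Rn 3 × Rn 3)} (hT : T ⊆ X.S)
    (h : X.St T F) {e : Rn 3 × Rn 3} (he : e ∈ X.S) (he' : e ∉ T) {ε : ℝ≥0∞} (hε : ε ≠ 0) :
    ∃ F', X.St (insert e T) F' ∧ EqOn F' F (Ω \ lens e.1 e.2 (X.ρ e)) ∧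
      Eg p Ω G F' ≤ Eg p Ω G F + ε := by
  obtain ⟨a, b⟩ := e
  obtain ⟨H, hH, hG⟩ := X.germ _ he
  obtain ⟨L, hL0, hL, hm⟩ := edge_model hH
  obtain ⟨ρ, ⟨k1, k2⟩, k3, k0⟩ := (((tube_small hp0 hp a b (M := 2 * L * (‖b - a‖ + 1)) hL0 hε).and
    (nhdsWithin_le_nhds (Iic_mem_nhds one_pos))).and
    (Eventually.and (nhdsWithin_le_nhds (Iic_mem_nhds (X.ρ0 _ he))) self_mem_nhdsWithin)).exists
  obtain ⟨Z, F0, z1, z2, z3, f1, f2, f3, f4, f5, f6, f7⟩ := hm ρ k0
  have H0 : H 0 = 0 := by simpa using hH.hmg 0 0 le_rfl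
  obtain ⟨⟨ha, ha'⟩, hb, hb'⟩ := X.ends _ he
  have hs := X.sub _ he
  dsimp only at *
  generalize hW : lens a b (X.ρ (a, b)) = W at *
  have hWo : IsOpen W := hW ▸ lens_open _ _ _
  have zc : IsClosed {x | x - a ∈ Z} := z1.preimage (by fun_prop)
  have zt : ∀ x, x - a ∈ Z → x ∈ lens a b ρ ∪ {a, b} := fun x hx =>
    (z3 hx).imp mem_lens_sub.1 (Or.imp sub_eq_zero.1 sub_left_inj.1)
  have zw : ∀ x, x - a ∈ Z → x ∈ W ∪ {a, b} := fun x hx =>
    (zt x hx).imp_left fun k => hW ▸ lens_mono a b k3 k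
  have g1 : ∀ x ∈ W ∪ {a, b}, x ∈ Ω ∧ G x = G a + H (x - a) := by
    rintro x (k | rfl | rfl)
    exacts [⟨(hs k).1, hG x (.inl k)⟩, ⟨ha, by rw [sub_self, H0, add_zero]⟩, ⟨hb, hG _ (.inr rfl)⟩]
  have g2 : ∀ x ∈ W ∪ {a, b}, F x = G a + H (x - a) := fun x hx => by
    rw [← (g1 x hx).2]
    refine h.eq x (g1 x hx).1 fun e' k k' => ?_
    rcases hx with hx | rfl | rfl
    · exact disjoint_left.1 (X.disj he (hT k) fun e0 => he' (e0 ▸ k)) (hW.ge hx) k'
    · exact (X.sub _ (hT k) k').2 ha'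
    · exact (X.sub _ (hT k) k').2 hb'
  obtain ⟨F', hF'⟩ : ∃ F' : Rn 3 → Rn 3, ∀ x, F' x = F x + (F0 (x - a) - H (x - a)) :=
    ⟨_, fun _ => rfl⟩
  have onn : ∀ x ∈ W ∪ {a, b}, F' x = G a + F0 (x - a) := fun x hx => by
    rw [hF', g2 x hx]
    abel
  have off : ∀ x, x - a ∉ Z → F' x = F x := fun x hx => by rw [hF', f5 hx, sub_self, add_zero]
  have off' : ∀ x, x ∉ W → F' x = F x := fun x hx => by
    by_cases k : x - a ∈ Z
    · rcases zw x k with k | rfl | rfl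
      · exact absurd k hx
      · rw [hF', sub_self, f3, H0, sub_self, add_zero]
      · rw [hF', f4, sub_self, add_zero]
    · exact off x k
  have mix : ∀ x y, x - a ∈ Z → y ∈ Ω → y - a ∉ Z → F' x ≠ F' y := fun x y hx hy hy' e0 => by
    obtain ⟨z, hz, e1⟩ := f6 (mem_image_of_mem _ hx)
    have k := zw (z + a) (by rwa [add_sub_cancel_right])
    have e2 : z + a = y := h.il.inj (g1 _ k).1 hy (by
      rw [g2 _ k, add_sub_cancel_right, e1, ← onn x (zw x hx), e0, off y hy'])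
    exact hy' (by rwa [← e2, add_sub_cancel_right])
  have ev : ∀ x ∈ W, F' =ᶠ[𝓝 x] fun y => G a + F0 (y - a) := fun x hx =>
    eventually_of_mem (hWo.mem_nhds hx) fun y hy => onn y (.inl hy)
  refine ⟨F', ⟨⟨fun x hx y hy e0 => ?_, fun x hx => ?_⟩, fun x hx k => ?_, fun x hx hB k => ?_⟩,
    fun x hx => off' x hx.2, ?_⟩
  · by_cases kx : x - a ∈ Z <;> by_cases ky : y - a ∈ Z
    · rw [onn x (zw x kx), onn y (zw y ky)] at e0
      exact sub_left_inj.1 (f2 (add_left_cancel e0))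
    · exact absurd e0 (mix x y kx hy ky)
    · exact absurd e0.symm (mix y x ky hx kx)
    · exact h.il.inj hx hy (by rw [← off x kx, e0, off y ky])
  · obtain ⟨L', l⟩ := h.il.ll x hx
    exact ⟨_, (l.add (((MEdges_sh f1 0 a).ll x).sub ((MEdges_sh hL 0 a).ll x))).congr
      (Eventually.of_forall fun y => by simp only [hF', zero_add])⟩
  · rw [off' x (hW ▸ k _ (mem_insert _ _)), h.eq x hx fun e' k' => k e' (mem_insert_of_mem _ k')]
  · by_cases kx : x - a ∈ Z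
    · have n1 : x ≠ a := fun e0 => hB (e0 ▸ ha')
      have n2 : x ≠ b := fun e0 => hB (e0 ▸ hb')
      have c := f7 _ kx (sub_ne_zero.2 n1) fun e0 => n2 (sub_left_inj.1 e0)
      rw [sub_eq_add_neg] at c
      refine ((CR.comp (T := fun y => y + -a) c (SI.aff (.refl ℝ _) (-a) x)).post (.refl ℝ _)
        (G a)).congr
        ((ev x ((zw x kx).resolve_right fun k => k.elim n1 n2)).mono fun y hy => ?_)
      exact hy.trans (add_comm _ _)
    · refine (h.cr x hx hB fun e' k1 k2 k3 => ?_).congr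
        (eventually_of_mem (zc.isOpen_compl.mem_nhds kx) off)
      by_cases e0 : e' = (a, b)
      · subst e0
        refine kx (z2 ?_)
        rwa [← mem_openSegment_translate ℝ a, add_zero, add_sub_cancel, add_sub_cancel]
      · exact k e' k1 (fun k4 => k4.elim e0 k2) k3
  · have l1 : L ≤ L / ρ := le_div_self hL0 k0 k2
    refine (Eg_step hΩ hp0 zc ((toFinite {a, b}).measure_zero _) (fun x hx => off x hx.2)
      (hL0.trans l1) (M := 2 * L * (‖b - a‖ + 1)) fun x hx _ hN => ?_).trans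
      (add_le_add le_rfl (le_trans (mul_le_mul_right
        (measure_mono fun x hx => lens_tube a b (le_of_lt k0) (zt x hx)) _) k1))
    have hw := (zw x hx).resolve_right hN
    refine ⟨(((MEdges_sh f1 _ a).ll x).congr (ev x hw)).mono l1,
      (((MEdges_sh hL (G a) a).ll x).congr (eventually_of_mem (hWo.mem_nhds hw)
        fun y hy => (g1 y (.inl hy)).2)).mono l1, ?_⟩
    obtain ⟨y, hy, hy'⟩ := lens_tube a b (le_of_lt k0) (zt x hx)
    have n1 : ‖x - a‖ ≤ ‖b - a‖ + 1 := by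
      linarith [norm_sub_le_norm_sub_add_norm_sub x y a, norm_sub_le_of_mem_segment hy,
        (k2 : ρ ≤ 1)]
    have n2 := f1 (x - a) 0
    have n3 := hL (x - a) 0
    rw [f3, sub_zero, sub_zero] at n2
    rw [H0, sub_zero, sub_zero] at n3
    rw [onn x (.inl hw), (g1 x (.inl hw)).2, add_sub_add_left_eq_sub]
    linarith [norm_sub_le (F0 (x - a)) (H (x - a)), mul_le_mul_of_nonneg_left n1 hL0]

theorem MEdges_fin (hΩ : IsOpen Ω) (hp0 : 0 ≤ p) (hp : p < 2) {T N : Set (Rn 3 × Rn 3)}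
    (hT : T ⊆ X.S) (h : X.St T F) (hN : N.Finite) : N ⊆ X.S \ T → ∀ ε : ℝ≥0∞, ε ≠ 0 →
      ∃ F', X.St (N ∪ T) F' ∧ (∀ x ∈ Ω, (∀ e ∈ N, x ∉ lens e.1 e.2 (X.ρ e)) → F' x = F x) ∧
        Eg p Ω G F' ≤ Eg p Ω G F + ε := by
  induction N, hN using Set.Finite.induction_on with
  | empty => exact fun _ ε _ => ⟨F, (empty_union T).symm ▸ h, fun _ _ _ => rfl, le_self_add⟩
  | @insert e N he _ ih =>
    intro hs ε hε
    have h2 := ENNReal.half_pos hε |>.ne'
    have hs' := (subset_insert e N).trans hs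
    obtain ⟨F1, a1, a2, a3⟩ := ih hs' _ h2
    obtain ⟨F2, b1, b2, b3⟩ := step hΩ hp0 hp (union_subset (hs'.trans sdiff_subset) hT) a1
      (hs (mem_insert _ _)).1 (fun k => k.elim he (hs (mem_insert _ _)).2) h2
    refine ⟨F2, insert_union ▸ b1, fun x hx k => (b2 ⟨hx, k e (mem_insert _ _)⟩).trans
      (a2 x hx fun e' k' => k e' (mem_insert_of_mem _ k')), b3.trans ?_⟩
    exact (add_le_add a3 le_rfl).trans_eq (by rw [add_assoc, ENNReal.add_halves])

theorem edges3 (X : Sd Ω G) (hΩ : IsOpen Ω) (hp0 : 0 < p) (hp : p < 2) (hG : IL Ω G) {ε : ℝ≥0∞}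
    (hε : ε ≠ 0) : ∃ F, IL Ω F ∧ (∀ x ∈ Ω, x ∉ X.B → CR F x) ∧ Eg p Ω G F ≤ ε := by
  obtain ⟨K, hK⟩ := exists_exh hΩ
  let T : ℕ → Set (Rn 3 × Rn 3) := fun j => {e | e ∈ X.S ∧ (lens e.1 e.2 (X.ρ e) ∩ K j).Nonempty}
  have h0 : X.St (T 0) G := ⟨hG, fun _ _ _ => rfl, fun x hx hB k =>
    X.cr x hx hB fun e he => k e he fun k' => by simpa [hK.zero] using k'.2⟩
  obtain ⟨F, h1, h2⟩ := seq_lim (p := p) hΩ hK hG.continuousOn (P := fun j F => X.St (T j) F)
    (fun _ _ h => h.il.continuousOn) h0 (fun j F h ε hε => by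
      have m : T j ⊆ T (j + 1) := fun e he =>
        ⟨he.1, he.2.mono (inter_subset_inter_right _ (hK.mono j.le_succ))⟩
      obtain ⟨F', a1, a2, a3⟩ := MEdges_fin hΩ hp0.le hp (fun _ k => k.1) h
        ((X.lf _ (hK.cpt (j + 1)) (hK.sub _)).sdiff (t := T j)) (fun _ k => ⟨k.1.1, k.2⟩) ε hε
      exact ⟨F', sdiff_union_of_subset m ▸ a1, fun x hx => a2 x (hK.sub _ hx)
        fun e he k => he.2 ⟨he.1.1, x, k, hK.mono (Nat.sub_le j 1) hx⟩, a3⟩) hε
  refine ⟨F, hK.il fun j => (h2 j).imp fun _ k => ⟨k.1.il, k.2⟩, fun x hx hB => ?_,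
    by rwa [Eg_self hp0, zero_add] at h1⟩
  obtain ⟨j, hj⟩ := (hK.nhds hx).exists
  obtain ⟨F', a1, a2⟩ := h2 j
  exact (a1.cr x hx hB fun e he k k' => k ⟨he, x, MEdges_seg (X.ρ0 e he) k',
    hK.mono (Nat.sub_le j 1) (mem_of_mem_nhds hj)⟩).congr (eventually_of_mem hj a2)

end Sd
end BEp
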