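import Pool.Agent.Work.MP_f0515e_an.D3.LTp
import Pool.Agent.Work.MP_f0515e_an.Stmt

/-! Diffeomorphisms onto the image: restriction, composition, locality; thin shears. -/

open Set Metric Filter Topology Function BEv MeasureTheory
open scoped NNReal ENNReal ContDiff

noncomputable section
namespace BEp

section Api
variable {n : ℕ} {Ω U : Set (Rn n)} {g g' : Rn n → Rn n}

theorem dif_inj (h : IsDiffeo Ω g) : InjOn g Ω := by
  obtain ⟨-, -, _, -, h⟩ := h
  exact h.injOn

theorem dif_congr (h : IsDiffeo Ω g) (e : EqOn g' g Ω) : IsDiffeo Ω g' := by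
  obtain ⟨h1, h2, k, h3, h4⟩ := h
  rw [← e.image_eq] at h2 h3
  exact ⟨h1.congr e, h2, k, h3, fun x hx => by rw [e hx, h4 hx]⟩

/-- The image of `U` is `g '' Ω` intersected with the preimage of `U` under the left inverse. -/
theorem dif_mono (h : IsDiffeo Ω g) (hU : IsOpen U) (hs : U ⊆ Ω) : IsDiffeo U g := by
  obtain ⟨h1, h2, k, h3, h4⟩ := h
  refine ⟨h1.mono hs, ?_, k, h3.mono (image_mono hs), h4.mono hs⟩
  suffices e : g '' U = g '' Ω ∩ k ⁻¹' U from e ▸ h3.continuousOn.isOpen_inter_preimage h2 hU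
  ext y
  constructor
  · rintro ⟨x, hx, rfl⟩
    exact ⟨mem_image_of_mem g (hs hx), by rwa [mem_preimage, h4 (hs hx)]⟩
  · rintro ⟨⟨x, hx, rfl⟩, hy⟩
    exact mem_image_of_mem g (by rwa [mem_preimage, h4 hx] at hy)

theorem dif_comp (h : IsDiffeo Ω g) (k : IsDiffeo U g') (hm : MapsTo g' U Ω) :
    IsDiffeo U (g ∘ g') := by
  obtain ⟨k1, k2, k', k3, k4⟩ := k
  obtain ⟨h1, h2, h', h3, h4⟩ := dif_mono h k2 hm.image_subset
  refine ⟨h1.comp k1 (mapsTo_image _ _), by rwa [image_comp], k' ∘ h', ?_, fun x hx => ?_⟩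
  · rw [image_comp]
    refine k3.comp h3 ?_
    rintro _ ⟨y, hy, rfl⟩
    rwa [h4 hy]
  · simp only [comp_apply]
    rw [h4 (mem_image_of_mem g' hx), k4 hx]

/-- The left inverse is `invFunOn g Ω`; it agrees with the local ones on the open sets `g '' U`. -/
theorem dif_loc (hi : InjOn g Ω)
    (h : ∀ x ∈ Ω, ∃ U, IsOpen U ∧ x ∈ U ∧ U ⊆ Ω ∧ IsDiffeo U g) : IsDiffeo Ω g := by
  refine ⟨contDiffOn_of_locally_contDiffOn fun x hx => ?_,
    isOpen_iff_forall_mem_open.2 ?_, invFunOn g Ω, contDiffOn_of_locally_contDiffOn ?_,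
    hi.leftInvOn_invFunOn⟩
  · obtain ⟨U, h1, h2, -, h3⟩ := h x hx
    exact ⟨U, h1, h2, h3.1.mono inter_subset_right⟩
  · rintro _ ⟨x, hx, rfl⟩
    obtain ⟨U, -, h2, h3, h4⟩ := h x hx
    exact ⟨g '' U, image_mono h3, h4.2.1, mem_image_of_mem g h2⟩
  · rintro _ ⟨x, hx, rfl⟩
    obtain ⟨U, -, h2, h3, -, h4, k, h5, h6⟩ := h x hx
    refine ⟨g '' U, h4, mem_image_of_mem g h2, (h5.mono inter_subset_right).congr ?_⟩
    rintro _ ⟨-, y, hy, rfl⟩
    rw [hi.leftInvOn_invFunOn (h3 hy), h6 hy]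

/-- Inverse function theorem (`ContDiffAt.toOpenPartialHomeomorph`,
`OpenPartialHomeomorph.contDiffAt_symm`), then `dif_loc`. -/
theorem dif_of_inj (hΩ : IsOpen Ω) (hs : ContDiffOn ℝ ∞ g Ω) (hi : InjOn g Ω)
    (hd : ∀ x ∈ Ω, Injective (fderiv ℝ g x)) : IsDiffeo Ω g := by
  have hc : ∀ x ∈ Ω, ContDiffAt ℝ ∞ g x := fun x hx => hs.contDiffAt (hΩ.mem_nhds hx)
  have hf : ∀ x ∈ Ω, ∃ L : Rn n ≃L[ℝ] Rn n, HasFDerivAt g (L : Rn n →L[ℝ] Rn n) x := fun x hx =>
    ⟨(LinearEquiv.ofInjectiveEndo (fderiv ℝ g x).toLinearMap (hd x hx)).toContinuousLinearEquiv,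
      ((hc x hx).differentiableAt (by simp)).hasFDerivAt⟩
  refine dif_loc hi fun x hx => ?_
  obtain ⟨L, hL⟩ := hf x hx
  let e := (hc x hx).toOpenPartialHomeomorph g hL (by simp)
  have he : (e : Rn n → Rn n) = g := rfl
  refine ⟨e.source ∩ Ω, e.open_source.inter hΩ,
    ⟨(hc x hx).mem_toOpenPartialHomeomorph_source hL _, hx⟩, inter_subset_right,
    hs.mono inter_subset_right, e.isOpen_image_source_inter hΩ, e.symm, ?_,
    fun y hy => e.left_inv hy.1⟩
  rintro _ ⟨y, hy, rfl⟩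
  obtain ⟨M, hM⟩ := hf y hy.2
  have h1 : e.symm (g y) = y := e.left_inv hy.1
  exact (e.contDiffAt_symm (e.map_source hy.1) (by rw [he, h1]; exact hM)
    (by rw [he, h1]; exact hc y hy.2)).contDiffWithinAt

/-- On each line parallel to `e` the map is strictly monotone; if `ξ - Dφ ξ • e = 0` apply `Dφ`. -/
theorem dif_shear {φ : Rn n → ℝ} (hφ : ContDiff ℝ ∞ φ) {e : Rn n}
    (h : ∀ x, fderiv ℝ φ x e < 1) : IsDiffeo univ fun x => x - φ x • e := by
  have hd : ∀ x, HasFDerivAt φ (fderiv ℝ φ x) x := fun x =>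
    (hφ.differentiable (by simp) x).hasFDerivAt
  refine dif_of_inj isOpen_univ (contDiff_id.sub (hφ.smul contDiff_const)).contDiffOn
    (fun x _ y _ hxy => ?_) fun x _ => ?_
  · have h1 : ∀ s : ℝ, HasDerivAt (fun s : ℝ => s - φ (y + s • e))
        (1 - fderiv ℝ φ (y + s • e) e) s := fun s => by
      have h2 : HasDerivAt (fun s : ℝ => y + s • e) e s := by
        simpa using ((hasDerivAt_id s).smul_const e).const_add y
      exact (hasDerivAt_id s).sub ((hd _).comp_hasDerivAt s h2)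
    have h2 := strictMono_of_hasDerivAt_pos h1 fun s => sub_pos.2 (h _)
    have h3 : y + (φ x - φ y) • e = x := by
      have hxy : x - φ x • e = y - φ y • e := hxy
      rw [sub_smul, ← sub_eq_zero, ← sub_eq_zero.2 hxy.symm]
      abel
    have h4 : φ x - φ y = 0 := h2.injective (by simp [h3])
    rw [← h3, h4, zero_smul, add_zero]
  · have h1 : HasFDerivAt (fun x => x - φ x • e)
        (ContinuousLinearMap.id ℝ (Rn n) - (fderiv ℝ φ x).smulRight e) x :=
      (hasFDerivAt_id x).sub ((hd x).smul_const e)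
    rw [h1.fderiv, injective_iff_map_eq_zero]
    intro ξ h2
    have h3 : ξ - fderiv ℝ φ x ξ • e = 0 := h2
    have h4 := congrArg (fderiv ℝ φ x) h3
    rw [map_sub, map_smul, map_zero, smul_eq_mul, ← mul_one_sub,
      mul_eq_zero_iff_right (sub_pos.2 (h x)).ne'] at h4
    rwa [h4, zero_smul, sub_zero] at h3

end Api

/-- `φ = κ * m * ρ` with `m t = ∫ u in -a..t, Real.smoothTransition ((u + a) / (a / 2))`,
`κ = (m 1)⁻¹ < 1` and `ρ t = Real.smoothTransition ((1 + a - t) / a)`. -/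
theorem mr_prof {a : ℝ} (ha : 0 < a) : ∃ φ : ℝ → ℝ, ContDiff ℝ ∞ φ ∧ φ 1 = 1 ∧
    (∀ t, t ∉ Icc (-a) (1 + a) → φ t = 0) ∧ ∀ t, deriv φ t < 1 := by
  have hS : ContDiff ℝ ∞ Real.smoothTransition := Real.smoothTransition.contDiff
  have hs : ContDiff ℝ ∞ fun u : ℝ => Real.smoothTransition ((u + a) / (a / 2)) :=
    hS.comp ((contDiff_id.add contDiff_const).div_const _)
  have hρ : ContDiff ℝ ∞ fun t : ℝ => Real.smoothTransition ((1 + a - t) / a) :=
    hS.comp ((contDiff_const.sub contDiff_id).div_const _)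
  set s := fun u : ℝ => Real.smoothTransition ((u + a) / (a / 2)) with es
  set ρ := fun t : ℝ => Real.smoothTransition ((1 + a - t) / a) with eρ
  set m := fun t : ℝ => ∫ u in (-a)..t, s u with em
  have md : ∀ t, HasDerivAt m (s t) t := fun t =>
    (hs.continuous.integral_hasStrictDerivAt (-a) t).hasDerivAt
  have hm : ContDiff ℝ ∞ m := contDiff_infty_iff_deriv.2 ⟨fun t => (md t).differentiableAt, by
    rw [show deriv m = s from funext fun t => (md t).deriv]
    exact hs⟩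
  have s0 : ∀ t, 0 ≤ s t := fun t => Real.smoothTransition.nonneg _
  have m0 : ∀ t, t ≤ -a → m t = 0 := fun t ht => by
    refine (intervalIntegral.integral_congr (g := fun _ => 0) fun u hu => ?_).trans (by simp)
    rw [uIcc_of_ge ht] at hu
    exact Real.smoothTransition.zero_of_nonpos
      (div_nonpos_of_nonpos_of_nonneg (by linarith [hu.2]) (by positivity))
  have mn : ∀ t, 0 ≤ m t := fun t => by
    rcases le_total t (-a) with h | h
    · exact (m0 t h).ge
    · exact intervalIntegral.integral_nonneg h fun u _ => s0 u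
  have m1 : 1 < m 1 := by
    have k1 := intervalIntegral.integral_add_adjacent_intervals
      (hs.continuous.intervalIntegrable (μ := volume) (-a) (-(a / 2)))
      (hs.continuous.intervalIntegrable (μ := volume) (-(a / 2)) 1)
    have k2 : ∫ u in (-(a / 2))..1, s u = 1 + a / 2 := by
      refine (intervalIntegral.integral_congr (g := fun _ => 1) fun u hu => ?_).trans (by simp)
      rw [uIcc_of_le (by linarith)] at hu
      exact Real.smoothTransition.one_of_one_le
        ((one_le_div (by positivity)).2 (by linarith [hu.1]))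
    have k3 := mn (-(a / 2))
    simp only [em] at k3 ⊢
    linarith
  have mp : 0 < m 1 := zero_lt_one.trans m1
  refine ⟨fun t => (m 1)⁻¹ * (m t * ρ t), contDiff_const.mul (hm.mul hρ), ?_, fun t ht => ?_,
    fun t => ?_⟩
  · simp only [eρ]
    rw [add_sub_cancel_left, div_self ha.ne', Real.smoothTransition.one, mul_one,
      inv_mul_cancel₀ mp.ne']
  · rcases le_total t (-a) with h | h
    · simp only [m0 t h, zero_mul, mul_zero]
    · have k : ρ t = 0 := Real.smoothTransition.zero_of_nonpos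
        (div_nonpos_of_nonpos_of_nonneg (sub_nonpos.2 (not_le.1 fun k => ht ⟨h, k⟩).le) ha.le)
      simp only [k, mul_zero]
  · have k1 : deriv ρ t ≤ 0 := Antitone.deriv_nonpos fun x y h =>
      Real.smoothTransition.monotone (div_le_div_of_nonneg_right (by linarith) ha.le)
    have k2 := (((md t).mul (hρ.differentiable (by simp) t).hasDerivAt).const_mul (m 1)⁻¹).deriv
    refine k2.trans_lt ?_
    rw [inv_mul_lt_iff₀ mp, mul_one]
    have k3 : s t * ρ t ≤ 1 := mul_le_one₀ (Real.smoothTransition.le_one _)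
      (Real.smoothTransition.nonneg _) (Real.smoothTransition.le_one _)
    linarith [mul_nonpos_of_nonneg_of_nonpos (mn t) k1]

/-- Stretching of the two transversal coordinates. -/
def mrb_D (w : ℝ) (z : Rn 3) : Rn 3 := ![z 0, z 1 / w, z 2 / w]

theorem mrb_lip {w : ℝ} (h0 : 0 < w) (h1 : w ≤ 1) (z z' : Rn 3) :
    ‖mrb_D w z - mrb_D w z'‖ ≤ ‖z - z'‖ / w := by
  have k : ∀ i, |z i / w - z' i / w| ≤ ‖z - z'‖ / w := fun i => by
    rw [← sub_div, abs_div, abs_of_pos h0]
    exact div_le_div_of_nonneg_right (norm_le_pi_norm (z - z') i) h0.le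
  refine (pi_norm_le_iff_of_nonneg (by positivity)).2 fun i => ?_
  fin_cases i
  · exact (norm_le_pi_norm (z - z') 0).trans (le_div_self (norm_nonneg _) h0 h1)
  · exact k 1
  · exact k 2

theorem mrb_zero {w x y : ℝ} (h0 : 0 < w) (h : ¬ (-w ≤ x ∧ x ≤ w)) :
    Real.smoothTransition (1 - (x / w) ^ 2 - y ^ 2) = 0 ∧
      Real.smoothTransition (1 - y ^ 2 - (x / w) ^ 2) = 0 := by
  have k : 1 ≤ (x / w) ^ 2 := by
    rw [one_le_sq_iff_one_le_abs, abs_div, abs_of_pos h0, one_le_div h0]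
    exact (not_le.1 fun k => h (abs_le.1 k)).le
  constructor <;> exact Real.smoothTransition.zero_of_nonpos (by linarith [sq_nonneg y])

theorem mrb_off {a w : ℝ} (h0 : 0 < w) {φ : ℝ → ℝ} (h : ∀ t, t ∉ Icc (-a) (1 + a) → φ t = 0)
    {z : Rn 3} (hz : z ∉ Icc (![-a, -w, -w] : Rn 3) ![1 + a, w, w]) :
    φ (z 0) * Real.smoothTransition (1 - (z 1 / w) ^ 2 - (z 2 / w) ^ 2) = 0 := by
  by_contra k
  obtain ⟨k1, k2⟩ := mul_ne_zero_iff.1 k
  have a0 := not_not.1 (mt (h _) k1)
  have a1 := not_not.1 fun e => k2 (mrb_zero (x := z 1) h0 e).1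
  have a2 := not_not.1 fun e => k2 (mrb_zero (x := z 2) h0 e).2
  refine hz ⟨fun i => ?_, fun i => ?_⟩ <;> fin_cases i
  exacts [a0.1, a1.1, a2.1, a0.2, a1.2, a2.2]

/-- Take a linear isomorphism `L` with `L e₀ = v' - v`, a bump `ψ` on the line, and
`Φ z = φ (z 0) * ψ (z 1) * ψ (z 2)` (Lipschitz: smooth with compact support);
`Θ x = x - Φ (z 0, z 1 / w, z 2 / w) • (v' - v)` with `z = L⁻¹ (x - v)`, and `U` the image of the box
`[-a, 1 + a] × [-w, w]²`. -/
theorem mr_tube0 {v v' : Rn 3} (hne : v ≠ v') {N : Set (Rn 3)} (hN : IsOpen N)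
    (hs : segment ℝ v v' ⊆ N) : ∃ c : ℝ, 0 < c ∧ ∀ᶠ w in 𝓝[>] (0 : ℝ),
      ∃ (Θ : Rn 3 → Rn 3) (U : Set (Rn 3)), IsDiffeo univ Θ ∧ IsCompact U ∧ U ⊆ N ∧ Θ v' = v ∧
        (∀ x, x ∉ U → Θ x = x) ∧ volume U ≤ ENNReal.ofReal (c * w ^ 2) ∧
        ∀ x, ‖fderiv ℝ Θ x‖ ≤ c / w := by
  have e0 : (Pi.single 0 1 : Rn 3) ≠ 0 := fun e => by simpa using congrFun e 0
  obtain ⟨A, hA⟩ := SeparatingDual.exists_continuousLinearEquiv_apply_eq (R := ℝ)
    (sub_ne_zero.2 hne.symm) e0
  have hT : IsCompact ((fun t : ℝ => t • (Pi.single 0 1 : Rn 3)) '' Icc 0 1) :=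
    isCompact_Icc.image (by fun_prop)
  obtain ⟨a, ha, ha'⟩ := hT.exists_cthickening_subset_open
    (hN.preimage (f := fun z => v + A.symm z) (by fun_prop)) (by
      rintro _ ⟨t, ht, rfl⟩
      refine hs ?_
      rw [segment_eq_image']
      exact ⟨t, ht, by simp only [← hA, map_smul, A.symm_apply_apply]⟩)
  obtain ⟨φ, p1, p2, p3, p4⟩ := mr_prof ha
  have hS : ContDiff ℝ ∞ Real.smoothTransition := Real.smoothTransition.contDiff
  have hΦ : ContDiff ℝ ∞ fun z : Rn 3 =>
      φ (z 0) * Real.smoothTransition (1 - z 1 ^ 2 - z 2 ^ 2) := by fun_prop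
  obtain ⟨K, hK⟩ := hΦ.lipschitzWith_of_hasCompactSupport (HasCompactSupport.intro
    (isCompact_Icc (a := (![-a, -1, -1] : Rn 3)) (b := ![1 + a, 1, 1])) fun z hz => by
      simpa only [div_one] using mrb_off one_pos p3 hz) (by simp)
  set c1 := |LinearMap.det (A.symm : Rn 3 →ₗ[ℝ] Rn 3)| * ((1 + 2 * a) * 4) with ec1
  set c2 := 1 + K * ‖(A : Rn 3 →L[ℝ] Rn 3)‖ * ‖v' - v‖ with ec2
  have c10 : 0 ≤ c1 := by positivity
  have c20 : 0 < c2 := by positivity
  refine ⟨c1 + c2, by positivity, ?_⟩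
  filter_upwards [Ioc_mem_nhdsGT (lt_min ha one_pos)] with w hw
  have w0 := hw.1
  obtain ⟨wa, w1⟩ := le_min_iff.1 hw.2
  have hz : ContDiff ℝ ∞ fun x : Rn 3 => A (x + -v) :=
    A.contDiff.comp (contDiff_id.add contDiff_const)
  set ψ := fun x : Rn 3 => φ (A (x + -v) 0) *
    Real.smoothTransition (1 - (A (x + -v) 1 / w) ^ 2 - (A (x + -v) 2 / w) ^ 2) with eψ
  have hψ : ContDiff ℝ ∞ ψ := by
    have k := contDiff_pi.1 hz
    exact (p1.comp (k 0)).mul (hS.comp ((contDiff_const.sub (((k 1).div_const w).pow 2)).sub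
      (((k 2).div_const w).pow 2)))
  refine ⟨fun x => x - ψ x • (v' - v),
    (fun x => x + -v) ⁻¹' (A ⁻¹' Icc ![-a, -w, -w] ![1 + a, w, w]),
    dif_shear hψ fun x => ?_, (Homeomorph.addRight (-v)).isCompact_preimage.2
      (A.toHomeomorph.isCompact_preimage.2 isCompact_Icc), fun x hx => ?_, ?_, fun x hx => ?_, ?_,
    fun x => ?_⟩
  · rw [← (hψ.differentiable (by simp) x).lineDeriv_eq_fderiv, lineDeriv]
    have k : ∀ t : ℝ, A (x + t • (v' - v) + -v) = A (x + -v) + t • (Pi.single 0 1 : Rn 3) :=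
      fun t => by rw [add_right_comm, map_add _ _ (t • _), map_smul, hA]
    have k1 : (fun t : ℝ => ψ (x + t • (v' - v))) = fun t => φ (A (x + -v) 0 + t) *
        Real.smoothTransition (1 - (A (x + -v) 1 / w) ^ 2 - (A (x + -v) 2 / w) ^ 2) := by
      funext t
      simp only [eψ, k]
      simp
    rw [k1, deriv_mul_const_field, deriv_comp_const_add, add_zero]
    rcases le_total (deriv φ (A (x + -v) 0)) 0 with l | l
    · exact (mul_nonpos_of_nonpos_of_nonneg l (Real.smoothTransition.nonneg _)).trans_lt one_pos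
    · exact (mul_le_of_le_one_right l (Real.smoothTransition.le_one _)).trans_lt (p4 _)
  · have k : A (x + -v) ∈ cthickening a ((fun t : ℝ => t • (Pi.single 0 1 : Rn 3)) '' Icc 0 1) := by
      refine mem_cthickening_of_dist_le _ _ _ _ ⟨max 0 (min (A (x + -v) 0) 1),
        ⟨le_max_left _ _, max_le zero_le_one (min_le_right _ _)⟩, rfl⟩
        ((dist_pi_le_iff ha.le).2 fun i => ?_)
      have a0 : -a ≤ A (x + -v) 0 := hx.1 0
      have a1 : -w ≤ A (x + -v) 1 := hx.1 1
      have a2 : -w ≤ A (x + -v) 2 := hx.1 2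
      have b0 : A (x + -v) 0 ≤ 1 + a := hx.2 0
      have b1 : A (x + -v) 1 ≤ w := hx.2 1
      have b2 : A (x + -v) 2 ≤ w := hx.2 2
      generalize A (x + -v) = z at *
      rw [Real.dist_eq, abs_le]
      fin_cases i
      · change -a ≤ z 0 - max 0 (min (z 0) 1) * 1 ∧ z 0 - max 0 (min (z 0) 1) * 1 ≤ a
        rcases le_total (z 0) 1 with l | l
        · rw [min_eq_left l]
          rcases le_total 0 (z 0) with l' | l'
          · rw [max_eq_right l']
            constructor <;> linarith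
          · rw [max_eq_left l']
            constructor <;> linarith
        · rw [min_eq_right l, max_eq_right zero_le_one]
          constructor <;> linarith
      · change -a ≤ z 1 - max 0 (min (z 0) 1) * 0 ∧ z 1 - max 0 (min (z 0) 1) * 0 ≤ a
        constructor <;> linarith
      · change -a ≤ z 2 - max 0 (min (z 0) 1) * 0 ∧ z 2 - max 0 (min (z 0) 1) * 0 ≤ a
        constructor <;> linarith
    simpa using ha' k
  · simp only [eψ, ← sub_eq_add_neg, hA]
    simp [p2]
  · simp only [eψ, mrb_off w0 p3 hx, zero_smul, sub_zero]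
  · rw [measure_preimage_add_right, Measure.addHaar_preimage_continuousLinearEquiv,
      Real.volume_Icc_pi, ← ENNReal.ofReal_prod_of_nonneg fun i _ => ?_,
      ← ENNReal.ofReal_mul (abs_nonneg _)]
    · refine ENNReal.ofReal_le_ofReal (le_trans (le_of_eq ?_)
        (mul_le_mul_of_nonneg_right (le_add_of_nonneg_right c20.le) (sq_nonneg w)))
      rw [Fin.prod_univ_three, ec1]
      change _ * ((1 + a - -a) * (w - -w) * (w - -w)) = _
      ring
    · fin_cases i
      · change 0 ≤ 1 + a - -a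
        linarith
      · change 0 ≤ w - -w
        linarith
      · change 0 ≤ w - -w
        linarith
  · refine norm_fderiv_le_of_lip' ℝ (by positivity) (Eventually.of_forall fun y => ?_)
    have k1 : |ψ y - ψ x| ≤ K * (‖(A : Rn 3 →L[ℝ] Rn 3)‖ * ‖y - x‖ / w) := by
      refine (hK.norm_sub_le (mrb_D w (A (y + -v))) (mrb_D w (A (x + -v)))).trans
        (mul_le_mul_of_nonneg_left ((mrb_lip w0 w1 _ _).trans
          (div_le_div_of_nonneg_right ?_ w0.le)) K.2)
      rw [← map_sub, add_sub_add_right_eq_sub]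
      exact (A : Rn 3 →L[ℝ] Rn 3).le_opNorm _
    have k2 : y - ψ y • (v' - v) - (x - ψ x • (v' - v)) = y - x - (ψ y - ψ x) • (v' - v) := by
      module
    rw [k2]
    refine (norm_sub_le _ _).trans ?_
    rw [norm_smul, Real.norm_eq_abs]
    have k3 := mul_le_mul_of_nonneg_right k1 (norm_nonneg (v' - v))
    have k4 := le_div_self (norm_nonneg (y - x)) w0 w1
    have k5 : 0 ≤ c1 / w * ‖y - x‖ := by positivity
    have k6 : (c1 + c2) / w * ‖y - x‖ = c1 / w * ‖y - x‖ + (‖y - x‖ / w +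
        K * (‖(A : Rn 3 →L[ℝ] Rn 3)‖ * ‖y - x‖ / w) * ‖v' - v‖) := by
      rw [ec2]
      ring
    linarith

theorem mr_tube {p : ℝ} (hp0 : 0 ≤ p) (hp : p < 2) {v v' : Rn 3} (hne : v ≠ v') {N : Set (Rn 3)}
    (hN : IsOpen N) (hs : segment ℝ v v' ⊆ N) {δ : ℝ≥0∞} (hδ : δ ≠ 0) :
    ∃ (Θ : Rn 3 → Rn 3) (U : Set (Rn 3)), IsDiffeo univ Θ ∧ IsCompact U ∧ U ⊆ N ∧ Θ v' = v ∧
      (∀ x, x ∉ U → Θ x = x) ∧ ∫⁻ x in U, (1 + ‖fderiv ℝ Θ x‖ₑ) ^ p ≤ δ := by
  obtain ⟨c, c0, hc⟩ := mr_tube0 hne hN hs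
  have k1 : Tendsto (fun w : ℝ => ENNReal.ofReal ((1 + c) ^ p * c * w ^ (2 - p))) (𝓝 0) (𝓝 0) := by
    have k := ((Real.continuousAt_rpow_const 0 (2 - p) (Or.inr (by linarith))).tendsto.const_mul
      ((1 + c) ^ p * c))
    rw [Real.zero_rpow (by linarith), mul_zero] at k
    simpa only [ENNReal.ofReal_zero] using ENNReal.tendsto_ofReal k
  obtain ⟨w, ⟨Θ, U, h1, h2, h3, h4, h5, h6, h7⟩, hw, hw'⟩ := (hc.and
    ((show ∀ᶠ w in 𝓝[>] (0 : ℝ), w ∈ Ioc 0 1 from Ioc_mem_nhdsGT one_pos).and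
      (mem_nhdsWithin_of_mem_nhds (k1.eventually_le_const (pos_iff_ne_zero.2 hδ))))).exists
  have w0 := hw.1
  refine ⟨Θ, U, h1, h2, h3, h4, h5, le_trans ?_ hw'⟩
  calc _ ≤ ∫⁻ _ in U, ENNReal.ofReal ((1 + c) / w) ^ p := lintegral_mono fun x => by
        refine ENNReal.rpow_le_rpow ?_ hp0
        rw [← ofReal_norm, ← ENNReal.ofReal_one,
          ← ENNReal.ofReal_add zero_le_one (norm_nonneg _), add_div]
        exact ENNReal.ofReal_le_ofReal (add_le_add ((one_le_div w0).2 hw.2) (h7 x))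
    _ ≤ ENNReal.ofReal ((1 + c) / w) ^ p * ENNReal.ofReal (c * w ^ 2) := by
        rw [setLIntegral_const]
        exact mul_le_mul_right h6 _
    _ = _ := by
        rw [ENNReal.ofReal_rpow_of_nonneg (by positivity) hp0,
          ← ENNReal.ofReal_mul (by positivity), Real.div_rpow (by positivity) w0.le,
          Real.rpow_sub w0, Real.rpow_two]
        congr 1
        ring

end BEp
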