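import Pool.Agent.Work.MP_f0515e_an.D3.MR1
import Pool.Agent.Work.MP_f0515e_an.D3.KA3

/-! Exhaustion of an open set with straight escape routes. -/

open Set Metric Filter Topology Function BEv MeasureTheory
open scoped NNReal ENNReal ContDiff

noncomputable section
namespace BEp

/-- Compact exhaustion. -/
def exh (Ω : Set (Rn 3)) (k : ℕ) : Set (Rn 3) :=
  {x | ‖x‖ + 1 ≤ k ∧ ∀ y, y ∉ Ω → 1 ≤ k * ‖x - y‖}

variable {Ω W : Set (Rn 3)} {k : ℕ} {v x : Rn 3}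

theorem exh_zero (Ω : Set (Rn 3)) : exh Ω 0 = ∅ := by
  refine eq_empty_of_forall_notMem fun x hx => ?_
  have := hx.1
  rw [Nat.cast_zero] at this
  linarith [norm_nonneg x]

theorem exh_cpt (Ω : Set (Rn 3)) (k : ℕ) : IsCompact (exh Ω k) := by
  refine (isCompact_closedBall (0 : Rn 3) k).of_isClosed_subset
    ((isClosed_le (by fun_prop) continuous_const).and ?_) fun x hx =>
      mem_closedBall_zero_iff.2 (by linarith [hx.1])
  simp only [ofPred_forall]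
  exact isClosed_iInter fun y => isClosed_iInter fun _ => isClosed_le continuous_const (by fun_prop)

theorem exh_sub (Ω : Set (Rn 3)) (k : ℕ) : exh Ω k ⊆ Ω := by
  exact fun x hx => by_contra fun h => not_lt.2 (hx.2 x h) (by simp)

theorem exh_mono (Ω : Set (Rn 3)) : Monotone (exh Ω) := by
  intro k l h x hx
  exact ⟨hx.1.trans (Nat.cast_le.2 h), fun y hy => (hx.2 y hy).trans (by gcongr)⟩

theorem exh_int (hΩ : IsOpen Ω) (hx : x ∈ Ω) : ∃ k, x ∈ interior (exh Ω k) := by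
  obtain ⟨r, hr, h⟩ := Metric.isOpen_iff.1 hΩ x hx
  obtain ⟨k, hk⟩ := exists_nat_ge (max (‖x‖ + r / 2 + 1) (1 / (r / 2)))
  refine ⟨k, mem_interior_iff_mem_nhds.2 (mem_of_superset (ball_mem_nhds x (half_pos hr))
    fun z hz => ⟨?_, fun y hy => ?_⟩)⟩
  · linarith [le_of_max_le_left hk, norm_sub_norm_le z x, mem_ball_iff_norm.1 hz]
  · have h1 : r ≤ dist y x := not_lt.1 fun q => hy (h q)
    refine ((div_le_iff₀ (half_pos hr)).1 (le_of_max_le_right hk)).trans ?_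
    gcongr
    rw [← dist_eq_norm]
    linarith [dist_triangle_left y x z, mem_ball.1 hz]

theorem mrc_ray (hΩ : IsOpen Ω) (hv : v ∈ Ω) {w : Rn 3}
    (h1 : ∀ t ∈ Icc (0 : ℝ) 1, v + t • w ∉ exh Ω k) (h2 : v + w ∉ exh Ω (k + 1)) :
    ∃ v', v' ∉ exh Ω (k + 1) ∧ segment ℝ v v' ⊆ Ω \ exh Ω k := by
  have hc : Continuous fun t : ℝ => v + t • w := by fun_prop
  obtain ⟨t, ht, h3, h4⟩ : ∃ t ∈ Icc (0 : ℝ) 1, v + t • w ∉ exh Ω (k + 1) ∧
      ∀ s ∈ Icc 0 t, v + s • w ∈ Ω := by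
    by_cases hT : (Icc (0 : ℝ) 1 ∩ {t | v + t • w ∉ Ω}).Nonempty
    · obtain ⟨t, ⟨ht, k1⟩, k2⟩ :=
        (isCompact_Icc.inter_right (hΩ.isClosed_compl.preimage hc)).exists_isLeast hT
      have t0 : 0 < t := ht.1.lt_of_ne fun e => k1 (by simpa [← e] using hv)
      obtain ⟨s, k3, k4⟩ := ((((exh_cpt Ω (k + 1)).isClosed.isOpen_compl.preimage hc).eventually_mem
        fun q => k1 (exh_sub Ω _ q)).filter_mono nhdsWithin_le_nhds |>.and
        (Ioo_mem_nhdsLT t0)).exists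
      exact ⟨s, ⟨k4.1.le, k4.2.le.trans ht.2⟩, k3, fun u hu => by_contra fun q =>
        (hu.2.trans_lt k4.2).not_ge (k2 ⟨⟨hu.1, hu.2.trans (k4.2.le.trans ht.2)⟩, q⟩)⟩
    · exact ⟨1, right_mem_Icc.2 zero_le_one, by rwa [one_smul],
        fun s hs => by_contra fun q => hT ⟨s, hs, q⟩⟩
  refine ⟨_, h3, ?_⟩
  rw [segment_eq_image']
  rintro _ ⟨θ, hθ, rfl⟩
  have h5 : θ * t ∈ Icc 0 t := ⟨mul_nonneg hθ.1 ht.1, mul_le_of_le_one_left ht.1 hθ.2⟩
  simp only [add_sub_cancel_left, smul_smul]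
  exact ⟨h4 _ h5, h1 _ ⟨h5.1, h5.2.trans ht.2⟩⟩

/-- Go radially outwards if `k < ‖v‖ + 1`, else towards a point `y ∉ Ω` with `k * ‖v - y‖ < 1`;
stop shortly before the first exit from `Ω`. -/
theorem exh_esc (hΩ : IsOpen Ω) (hv : v ∈ Ω) (hk : v ∉ exh Ω k) :
    ∃ v', v' ∉ exh Ω (k + 1) ∧ segment ℝ v v' ⊆ Ω \ exh Ω k := by
  rcases not_and_or.1 hk with h | h
  · obtain ⟨e, he, hv'⟩ : ∃ e : Rn 3, ‖e‖ = 1 ∧ v = ‖v‖ • e := by
      rcases eq_or_ne v 0 with rfl | h0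
      · exact (exists_norm_eq (Rn 3) zero_le_one).imp fun e he => ⟨he, by simp⟩
      · exact ⟨_, norm_smul_inv_norm (𝕜 := ℝ) h0, (smul_inv_smul₀ (norm_ne_zero_iff.2 h0) v).symm⟩
    have key : ∀ t : ℝ, 0 ≤ t → ‖v + t • e‖ = ‖v‖ + t := fun t ht => by
      conv_lhs => rw [hv', ← add_smul, norm_smul, he, mul_one, Real.norm_of_nonneg (by positivity)]
    refine mrc_ray hΩ hv (w := e) (fun t ht q => h ?_) fun q => h ?_
    · linarith [q.1, key t ht.1, ht.1]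
    · have := key 1 zero_le_one
      have h2 := q.1
      rw [one_smul] at this
      push_cast at h2
      linarith
  · push Not at h
    obtain ⟨y, hy, h⟩ := h
    refine mrc_ray hΩ hv (w := y - v) (fun t ht q => h.not_ge ((q.2 y hy).trans ?_)) fun q =>
      hy (by simpa using exh_sub Ω _ q)
    rw [show v + t • (y - v) - y = (1 - t) • (v - y) by module, norm_smul,
      Real.norm_of_nonneg (sub_nonneg.2 ht.2)]
    gcongr
    exact mul_le_of_le_one_left (norm_nonneg _) (by linarith [ht.1])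

/-- Perturb the end so that `v' - v` is on none of the lines through `v` and the finitely many
points of `W` in a compact neighbourhood of the segment (`KA3_avoid`, or a finite union of proper
subspaces is null). -/
theorem exh_esc' (hΩ : IsOpen Ω) (hW : ∀ C, IsCompact C → C ⊆ Ω → (W ∩ C).Finite) (hv : v ∈ Ω)
    (hk : v ∉ exh Ω k) : ∃ v', v ≠ v' ∧ v' ∉ exh Ω (k + 1) ∧
      segment ℝ v v' ⊆ (Ω \ exh Ω k) \ (W \ {v}) := by
  obtain ⟨v0, h1, h2⟩ := exh_esc hΩ hv hk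
  rw [segment_eq_image'] at h2
  obtain ⟨C, c1, c2, c3⟩ := exists_compact_between (isCompact_Icc.image (by fun_prop))
    (hΩ.sdiff (exh_cpt Ω k).isClosed) h2
  have e1 : ∀ᶠ w in 𝓝 (v0 - v), ∀ θ ∈ Icc (0 : ℝ) 1, v + θ • w ∈ C :=
    isCompact_Icc.eventually_forall_of_forall_eventually fun θ hθ =>
      (show Continuous fun z : Rn 3 × ℝ => v + z.2 • z.1 by fun_prop).continuousAt.eventually_mem
        (mem_interior_iff_mem_nhds.1 (c2 ⟨θ, hθ, rfl⟩))
  have e2 : ∀ᶠ w in 𝓝 (v0 - v), v + w ∉ exh Ω (k + 1) :=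
    ((exh_cpt Ω (k + 1)).isClosed.isOpen_compl.preimage (continuous_const_add v)).eventually_mem
      (by simpa using h1)
  have hd : Dense {w : Rn 3 | ∀ u ∈ W ∩ C, w ∉ Submodule.span ℝ {u - v}} :=
    Measure.dense_of_ae (μ := volume) ((ae_ball_iff (hW C c1 fun z hz => (c3 hz).1).countable).2
      fun u _ => compl_mem_ae_iff.2 (Measure.addHaar_submodule _ _ fun e => by
        have := finrank_span_le_card (R := ℝ) {u - v}
        rw [e] at this
        simp at this))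
  obtain ⟨w, ⟨w0, w1⟩, w2, w3⟩ := ((dense_compl_singleton 0).inter_of_isOpen_left hd
    isOpen_compl_singleton).inter_nhds_nonempty (e1.and e2)
  refine ⟨v + w, fun e => w0 (left_eq_add.1 e), w3, ?_⟩
  rw [segment_eq_image', add_sub_cancel_left]
  rintro _ ⟨θ, hθ, rfl⟩
  refine ⟨c3 (w2 θ hθ), fun q => w1 _ ⟨q.1, w2 θ hθ⟩ ?_⟩
  have h0 : θ ≠ 0 := fun e => q.2 (by simp [e])
  exact Submodule.mem_span_singleton.2 ⟨θ⁻¹, by rw [add_sub_cancel_left, inv_smul_smul₀ h0]⟩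

theorem lf_open (hΩ : IsOpen Ω) (hW : ∀ C, IsCompact C → C ⊆ Ω → (W ∩ C).Finite) :
    IsOpen (Ω \ W) := by
  refine isOpen_iff_mem_nhds.2 fun x hx => ?_
  obtain ⟨C, c1, c2, c3⟩ := exists_compact_subset hΩ hx.1
  filter_upwards [mem_interior_iff_mem_nhds.1 c2,
    (hW C c1 c3).isClosed.isOpen_compl.mem_nhds fun q => hx.2 q.1] with y h1 h2
  exact ⟨c3 h1, fun q => h2 ⟨q, h1⟩⟩

end BEp
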