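import Pool.Agent.Work.MP_f0515e_an.D3.MR2

/-! Removal of a locally finite set of singular points for exponents below two. -/

open Set Metric Filter Topology Function BEv MeasureTheory
open scoped NNReal ENNReal ContDiff

noncomputable section
namespace BEp

/-- A locally Lipschitz map which is a diffeomorphism off a locally finite set. -/
structure MrP (Ω W : Set (Rn 3)) (h : Rn 3 → Rn 3) : Prop where
  fin : ∀ C, IsCompact C → C ⊆ Ω → (W ∩ C).Finite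
  dif : IsDiffeo (Ω \ W) h
  ll : ∀ x ∈ Ω, ∃ c, LL h x c

variable {p : ℝ} {Ω W : Set (Rn 3)} {h g0 : Rn 3 → Rn 3}

theorem mr_bd (hl : ∀ x ∈ Ω, ∃ c, LL h x c) {N : Set (Rn 3)} (hN : IsCompact N) (hs : N ⊆ Ω) :
    ∃ M : ℝ, 0 ≤ M ∧ ∀ y ∈ N, ‖h y‖ ≤ M ∧ ‖fderiv ℝ h y‖ ≤ M := by
  refine hN.induction_on (p := fun s => ∃ M : ℝ, 0 ≤ M ∧ ∀ y ∈ s, ‖h y‖ ≤ M ∧ ‖fderiv ℝ h y‖ ≤ M)
    ⟨0, le_rfl, by simp⟩ (fun s t e ⟨M, h0, k⟩ => ⟨M, h0, fun y hy => k y (e hy)⟩)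
    (fun s t ⟨M, h0, k⟩ ⟨M', _, k'⟩ => ⟨max M M', le_max_of_le_left h0, fun y hy => hy.elim
      (fun e => ⟨le_max_of_le_left (k y e).1, le_max_of_le_left (k y e).2⟩)
      fun e => ⟨le_max_of_le_right (k' y e).1, le_max_of_le_right (k' y e).2⟩⟩) fun x hx => ?_
  obtain ⟨c, hc⟩ := hl x (hs hx)
  refine ⟨_, mem_nhdsWithin_of_mem_nhds ((hc.continuousAt.norm.eventually_lt_const
    (lt_add_one _)).and (hc.mono (le_max_left c 0)).eventually), max (‖h x‖ + 1) (max c 0),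
    by positivity, fun y hy => ⟨le_max_of_le_left hy.1.le, le_max_of_le_right ?_⟩⟩
  exact norm_fderiv_le_of_lip' ℝ (le_max_right _ _)
    (((continuous_id.prodMk continuous_const).tendsto' y (y, y) rfl).eventually hy.2)

theorem mr_ll {Θ : Rn 3 → Rn 3} (hΘ : ContDiff ℝ ∞ Θ) (x : Rn 3) : ∃ c, LL Θ x c := by
  obtain ⟨L, t, ht, k⟩ := (hΘ.of_le (by simp)).contDiffAt.exists_lipschitzOnWith (x := x)
  exact ⟨L, LL.of_nhds ht fun y hy z hz => by
    simpa [dist_eq_norm] using k.dist_le_mul y hy z hz⟩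

/-- One singular point is moved along a segment. -/
theorem mr_move (hp0 : 0 ≤ p) (hp : p < 2) (hΩ : IsOpen Ω) (P : MrP Ω W h)
    (hg : ∀ x ∈ Ω, ∃ c, LL g0 x c) {v v' : Rn 3} (hne : v ≠ v') {O : Set (Rn 3)} (hO : IsOpen O)
    (hs : segment ℝ v v' ⊆ O) (hΩO : O ⊆ Ω \ (W \ {v})) {δ : ℝ≥0∞} (hδ : δ ≠ 0) :
    ∃ h', MrP Ω (insert v' (W \ {v})) h' ∧ (∀ x, x ∉ O → h' x = h x) ∧
      ∫⁻ x in Ω, en p h' g0 (fderiv ℝ g0) x ≤ (∫⁻ x in Ω, en p h g0 (fderiv ℝ g0) x) + δ := by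
  obtain ⟨N, hN, n1, n2⟩ := exists_compact_between (poly_segment v v').1 hO hs
  have nΩ : N ⊆ Ω := fun x hx => (hΩO (n2 hx)).1
  obtain ⟨M, M0, hM⟩ := mr_bd P.ll hN nΩ
  obtain ⟨M', M1, hM'⟩ := mr_bd hg hN nΩ
  set A : ℝ≥0∞ := 2 * ENNReal.ofReal (M + M') ^ p with hA
  have At : A ≠ ⊤ :=
    ENNReal.mul_ne_top (by simp) (ENNReal.rpow_ne_top_of_nonneg hp0 ENNReal.ofReal_ne_top)
  obtain ⟨Θ, U, t1, t2, t3, t4, t5, t6⟩ := mr_tube hp0 hp hne isOpen_interior n1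
    (δ := δ / A) (ENNReal.div_ne_zero.2 ⟨hδ, At⟩)
  have tN : U ⊆ N := t3.trans interior_subset
  have ti : Injective Θ := injOn_univ.1 (dif_inj t1)
  have ts : ContDiff ℝ ∞ Θ := contDiffOn_univ.1 t1.1
  have tU : ∀ x ∈ U, Θ x ∈ U := fun x hx => by_contra fun n => n (by rwa [ti (t5 _ n)])
  have tΩ : ∀ x ∈ Ω, Θ x ∈ Ω := fun x hx => by
    by_cases e : x ∈ U
    · exact nΩ (tN (tU x e))
    · rwa [t5 x e]
  have tW : MapsTo Θ (Ω \ insert v' (W \ {v})) (Ω \ W) := fun x hx =>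
    ⟨tΩ x hx.1, fun e => hx.2 (by
      by_cases e1 : Θ x = v
      · exact .inl (ti (e1.trans t4.symm))
      · have : Θ x ∉ U := fun k => (hΩO (n2 (tN k))).2 ⟨e, e1⟩
        exact .inr (ti (t5 _ this) ▸ ⟨e, e1⟩))⟩
  have fin : ∀ C, IsCompact C → C ⊆ Ω → (insert v' (W \ {v}) ∩ C).Finite := fun C hC k =>
    ((P.fin C hC k).insert v').subset fun x hx => hx.1.imp id fun e => ⟨e.1, hx.2⟩
  refine ⟨h ∘ Θ, ⟨fin, dif_comp P.dif (dif_mono t1 (lf_open hΩ fin) (subset_univ _)) tW,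
    fun x hx => ?_⟩, fun x hx => congrArg h (t5 x fun e => hx (n2 (tN e))), ?_⟩
  · obtain ⟨c, hc⟩ := P.ll _ (tΩ x hx)
    obtain ⟨c', hc'⟩ := mr_ll ts x
    exact ⟨_, (hc.mono (le_max_left c 0)).comp hc' (le_max_right _ _)⟩
  refine (lintegral_mono_set (t := (Ω \ U) ∪ U) fun x hx => ?_).trans
    ((lintegral_union_le _ _ _).trans (add_le_add ?_ ?_))
  · by_cases e : x ∈ U
    exacts [.inr e, .inl ⟨hx, e⟩]
  · refine (setLIntegral_mono' (hΩ.measurableSet.diff t2.measurableSet) fun x hx =>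
      (en_congr ?_ _ _).le).trans (lintegral_mono_set sdiff_subset)
    filter_upwards [t2.isClosed.isOpen_compl.mem_nhds hx.2] with y hy
    exact congrArg h (t5 y hy)
  refine le_trans ?_ ((mul_le_mul_right t6 A).trans ENNReal.mul_div_le)
  rw [← lintegral_const_mul' _ _ At]
  refine lintegral_mono_ae ?_
  filter_upwards [ae_restrict_mem t2.measurableSet, ae_restrict_of_ae
    ((fin U t2 (tN.trans nΩ)).countable.ae_notMem volume)] with x hx hx'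
  have k1 := tW ⟨nΩ (tN hx), fun e => hx' ⟨e, hx⟩⟩
  have k2 : DifferentiableAt ℝ h (Θ x) :=
    (P.dif.1.contDiffAt ((lf_open hΩ P.fin).mem_nhds k1)).differentiableAt (by simp)
  obtain ⟨b1, b2⟩ := hM _ (tN (tU x hx))
  obtain ⟨b3, b4⟩ := hM' _ (tN hx)
  have e1 : ‖(h ∘ Θ) x - g0 x‖ₑ ≤ ENNReal.ofReal (M + M') * (1 + ‖fderiv ℝ Θ x‖ₑ) := by
    refine le_trans ?_ (le_mul_of_one_le_right' le_self_add)
    rw [← ofReal_norm]
    exact ENNReal.ofReal_le_ofReal ((norm_sub_le _ _).trans (add_le_add b1 b3))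
  have e2 : ‖fderiv ℝ (h ∘ Θ) x - fderiv ℝ g0 x‖ₑ ≤
      ENNReal.ofReal (M + M') * (1 + ‖fderiv ℝ Θ x‖ₑ) := by
    rw [fderiv_comp x k2 (ts.differentiable (by simp) x), ← ofReal_norm,
      ← ofReal_norm, ← ENNReal.ofReal_one, ← ENNReal.ofReal_add zero_le_one
      (norm_nonneg _), ← ENNReal.ofReal_mul (by positivity)]
    refine ENNReal.ofReal_le_ofReal ((norm_sub_le _ _).trans ?_)
    have := ((fderiv ℝ h (Θ x)).opNorm_comp_le (fderiv ℝ Θ x)).trans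
      (mul_le_mul_of_nonneg_right b2 (norm_nonneg _))
    nlinarith [norm_nonneg (fderiv ℝ Θ x)]
  rw [hA, mul_assoc, ← ENNReal.mul_rpow_of_nonneg _ _ hp0, two_mul]
  exact add_le_add (ENNReal.rpow_le_rpow e1 hp0) (ENNReal.rpow_le_rpow e2 hp0)

/-- All singular points are moved out of the next compact set. -/
theorem mr_stage (hp0 : 0 ≤ p) (hp : p < 2) (hΩ : IsOpen Ω) (hg : ∀ x ∈ Ω, ∃ c, LL g0 x c)
    {ε : ℝ≥0∞} (k m : ℕ) : ∀ (W : Set (Rn 3)) (h : Rn 3 → Rn 3), MrP Ω W h →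
      Disjoint W (exh Ω k) → ∫⁻ x in Ω, en p h g0 (fderiv ℝ g0) x < ε →
      (W ∩ exh Ω (k + 1)).ncard = m → ∃ W' h', (MrP Ω W' h' ∧ Disjoint W' (exh Ω (k + 1)) ∧
        ∫⁻ x in Ω, en p h' g0 (fderiv ℝ g0) x < ε) ∧ EqOn h' h (exh Ω k) := by
  induction m with
  | zero =>
    intro W h P _ e hm
    rw [ncard_eq_zero (P.fin _ (exh_cpt _ _) (exh_sub _ _))] at hm
    exact ⟨W, h, ⟨P, disjoint_iff_inter_eq_empty.2 hm, e⟩, fun _ _ => rfl⟩
  | succ m ih =>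
    intro W h P hd e hm
    obtain ⟨v, hv⟩ := nonempty_of_ncard_ne_zero (hm.trans_ne m.succ_ne_zero)
    obtain ⟨v', ne, v1, v2⟩ := exh_esc' hΩ P.fin (exh_sub _ _ hv.2) (disjoint_left.1 hd hv.1)
    obtain ⟨δ, δ0, hδ⟩ := ENNReal.lt_iff_exists_add_pos_lt.1 e
    have hO : IsOpen ((Ω \ exh Ω k) \ (W \ {v})) := by
      rw [sdiff_sdiff_comm]
      exact (lf_open hΩ fun C hC k => (P.fin C hC k).subset
        (inter_subset_inter_left _ sdiff_subset)).sdiff (exh_cpt _ _).isClosed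
    obtain ⟨h1, P1, e1, e2⟩ := mr_move hp0 hp hΩ P hg ne hO v2 (fun x hx => ⟨hx.1.1, hx.2⟩)
      (δ := δ) (by simpa using δ0.ne')
    obtain ⟨W', h', k1, k2⟩ := ih _ h1 P1 (disjoint_insert_left.2
      ⟨(v2 (right_mem_segment _ _ _)).1.2, hd.mono_left sdiff_subset⟩) (e2.trans_lt hδ) (by
        rw [insert_inter_of_notMem v1, inter_comm, ← inter_sdiff_assoc, inter_comm,
          ncard_sdiff_singleton_of_mem hv, hm]
        rfl)
    exact ⟨W', h', k1, fun x hx => (k2 hx).trans (e1 x fun n => n.1.2 hx)⟩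

theorem mr_seq {α : Type} {P : ℕ → α → Prop} {r : ℕ → α → α → Prop} (h0 : ∃ a, P 0 a)
    (h : ∀ k a, P k a → ∃ b, P (k + 1) b ∧ r k a b) :
    ∃ s : ℕ → α, (∀ k, P k (s k)) ∧ ∀ k, r k (s k) (s (k + 1)) := by
  obtain ⟨a, ha⟩ := h0
  choose! F h1 h2 using h
  have k : ∀ k, P k (Nat.rec a F k) := fun k => by
    induction k with
    | zero => exact ha
    | succ k ih => exact h1 k _ ih
  exact ⟨fun k => Nat.rec a F k, k, fun j => h2 j _ (k j)⟩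

theorem unpunct {p : ℝ} (hp1 : 1 ≤ p) (hp : p < 2) {Ω V : Set (Rn 3)} (hΩ : IsOpen Ω)
    (hV : ∀ C, IsCompact C → C ⊆ Ω → (V ∩ C).Finite) {g0 : Rn 3 → Rn 3}
    (hs : ContDiffOn ℝ ∞ g0 (Ω \ V)) (hi : InjOn g0 (Ω \ V))
    (hd : ∀ x ∈ Ω \ V, Injective (fderiv ℝ g0 x))
    (hl : ∀ x ∈ Ω, ∃ c, ∀ᶠ y in 𝓝 x, LL g0 y c) {ε : ℝ≥0∞} (hε : ε ≠ 0) :
    ∃ g, IsDiffeo Ω g ∧ ∫⁻ x in Ω, en p g g0 (fderiv ℝ g0) x ≤ ε := by
  have hg : ∀ x ∈ Ω, ∃ c, LL g0 x c := fun x hx => (hl x hx).imp fun _ e => e.self_of_nhds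
  obtain ⟨s, h1, h2⟩ := mr_seq (α := Set (Rn 3) × (Rn 3 → Rn 3))
    (P := fun k a => MrP Ω a.1 a.2 ∧ Disjoint a.1 (exh Ω k) ∧
      ∫⁻ x in Ω, en p a.2 g0 (fderiv ℝ g0) x < ε) (r := fun k a b => EqOn b.2 a.2 (exh Ω k))
    ⟨(V, g0), ⟨hV, dif_of_inj (lf_open hΩ hV) hs hi hd, hg⟩, by simp [exh_zero], by
      simp only [en_self (zero_lt_one.trans_le hp1) (EventuallyEq.refl _ _), lintegral_zero]
      exact pos_iff_ne_zero.2 hε⟩
    fun k a ha => by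
      obtain ⟨W', h', k1⟩ := mr_stage (zero_le_one.trans hp1) hp hΩ hg k _ _ _ ha.1 ha.2.1 ha.2.2 rfl
      exact ⟨(W', h'), k1⟩
  have st : ∀ k j, k ≤ j → EqOn (s j).2 (s k).2 (exh Ω k) := fun k j hj => by
    induction j, hj using Nat.le_induction with
    | base => exact fun _ _ => rfl
    | succ j hj ih => exact fun x hx => (h2 j (exh_mono Ω hj hx)).trans (ih hx)
  choose! ix hix using fun x (hx : x ∈ Ω) => exh_int hΩ hx
  have eq : ∀ k, EqOn (fun x => (s (ix x)).2 x) (s k).2 (exh Ω k) := fun k x hx =>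
    (st _ _ (le_max_left _ k) (interior_subset (hix x (exh_sub _ _ hx)))).symm.trans
      (st _ _ (le_max_right _ k) hx)
  have sb : ∀ k, exh Ω k ⊆ Ω \ (s k).1 := fun k x hx =>
    ⟨exh_sub _ _ hx, disjoint_right.1 (h1 k).2.1 hx⟩
  refine ⟨fun x => (s (ix x)).2 x, dif_loc (fun x hx y hy e => ?_) fun x hx =>
    ⟨_, isOpen_interior, hix x hx, interior_subset.trans (exh_sub _ _), dif_congr
      (dif_mono (h1 _).1.dif isOpen_interior (interior_subset.trans (sb _)))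
      ((eq _).mono interior_subset)⟩, ?_⟩
  · have a := exh_mono Ω (le_max_left _ (ix y)) (interior_subset (hix x hx))
    have b := exh_mono Ω (le_max_right (ix x) _) (interior_subset (hix y hy))
    exact dif_inj (h1 _).1.dif (sb _ a) (sb _ b) ((eq _ a).symm.trans (e.trans (eq _ b)))
  have hU : Ω = ⋃ k, interior (exh Ω k) := Subset.antisymm
    (fun x hx => mem_iUnion.2 ⟨_, hix x hx⟩)
    (iUnion_subset fun k => interior_subset.trans (exh_sub _ _))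
  refine (lintegral_mono_set hU.subset).trans ?_
  rw [setLIntegral_iUnion_of_directed _
    (Monotone.directed_le fun i j e => interior_mono (exh_mono Ω e))]
  refine iSup_le fun k => le_trans ?_ (h1 k).2.2.le
  refine (setLIntegral_mono' isOpen_interior.measurableSet fun x hx => (en_congr ?_ _ _).le).trans
    (lintegral_mono_set (interior_subset.trans (exh_sub _ _)))
  exact (eq k).eventuallyEq_of_mem (mem_interior_iff_mem_nhds.1 hx)

end BEp
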