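import Pool.Agent.Work.MP_f0515e_an.D3.LDefs

-- merged part: Pool.Agent.Work.MP_f0515e_an.D3.O2
section
/-! A compact set of good parameters. -/

open Set Metric Filter Topology Function BEv MeasureTheory
open scoped NNReal ENNReal

noncomputable section
namespace BEp

/-- Vectors whose first dominant coordinate is `i`. -/
def odom (i : Fin 3) : Set (Rn 3) := {x | |x i| = ‖x‖ ∧ ∀ j, j < i → |x j| < ‖x‖}

theorem odom_meas (i : Fin 3) : MeasurableSet (odom i) := by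
  have e : odom i = {x | |x i| = ‖x‖} ∩ ⋂ j, ⋂ _ : j < i, {x | |x j| < ‖x‖} := by
    ext x
    simp [odom]
  rw [e]
  exact (measurableSet_eq_fun (by fun_prop) (by fun_prop)).inter
    (MeasurableSet.iInter fun j => MeasurableSet.iInter fun _ =>
      measurableSet_lt (by fun_prop) (by fun_prop))

theorem odom_uniq {i j : Fin 3} {x : Rn 3} (h : x ∈ odom i) (h' : x ∈ odom j) : i = j := by
  rcases lt_trichotomy i j with k | k | k
  · exact absurd h.1 (h'.2 i k).ne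
  · exact k
  · exact absurd h'.1 (h.2 j k).ne

theorem odom_ex (x : Rn 3) : ∃ i, x ∈ odom i := by
  obtain ⟨i0, h0⟩ : ∃ i, |x i| = ‖x‖ := by
    obtain ⟨i, -, h⟩ := Finset.exists_max_image Finset.univ (fun i => |x i|) Finset.univ_nonempty
    exact ⟨i, le_antisymm (norm_le_pi_norm x i)
      ((pi_norm_le_iff_of_nonneg (abs_nonneg _)).2 fun j => h j (Finset.mem_univ j))⟩
  obtain ⟨i, hi, k⟩ := exists_min_image {i | |x i| = ‖x‖} id (toFinite _) ⟨i0, h0⟩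
  exact ⟨i, hi, fun j hj => (norm_le_pi_norm x j).lt_of_ne fun e => hj.not_ge (k j e)⟩

/-- Points of uniform differentiability. -/
def ouni (g d : ℝ → Rn 3) (η : ℝ → ℝ) (ρ : ℝ) : Set ℝ :=
  {t | ∀ s, |s - t| < ρ → ‖g s - g t - (s - t) • d t‖ ≤ η t * |s - t|}

theorem ouni_meas {g d : ℝ → Rn 3} {η : ℝ → ℝ} (hg : Continuous g) (hd : Measurable d)
    (hη : Measurable η) (ρ : ℝ) : MeasurableSet (ouni g d η ρ) := by
  have e : ouni g d η ρ = ⋂ r : ℚ, ⋂ _ : |(r : ℝ)| < ρ,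
      {t | ‖g (t + r) - g t - (r : ℝ) • d t‖ ≤ η t * |(r : ℝ)|} := by
    ext t
    simp only [mem_iInter, mem_ofPred_eq]
    refine ⟨fun h r hr => by simpa using h (t + r) (by simpa using hr), fun h s hs => ?_⟩
    have hc : IsClosed {r : ℝ | ‖g (t + r) - g t - r • d t‖ ≤ η t * |r|} :=
      isClosed_le (by fun_prop) (by fun_prop)
    have ho : IsOpen {r : ℝ | |r| < ρ} := isOpen_lt continuous_abs continuous_const
    have h1 := (Rat.denseRange_cast (𝕜 := ℝ)).open_subset_closure_inter ho hs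
    have h2 := closure_minimal (s := {r : ℝ | |r| < ρ} ∩ range ((↑) : ℚ → ℝ))
      (by rintro _ ⟨hr, r, rfl⟩; exact h r hr) hc h1
    simpa using h2
  rw [e]
  have hm := hg.measurable
  exact MeasurableSet.iInter fun r => MeasurableSet.iInter fun _ =>
    measurableSet_le (by fun_prop) (by fun_prop)

theorem o_good {g d : ℝ → Rn 3} (hg : Continuous g) (hd : Measurable d) {μ : Measure ℝ}
    [IsFiniteMeasure μ]
    (hμ : ∀ᵐ t ∂μ, t ∈ Ioo (0 : ℝ) 1 ∧ Irrational t ∧ d t ≠ 0 ∧ HasDerivAt g (d t) t) {κ : ℝ}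
    (hκ : 0 < κ) {ε : ℝ≥0∞} (hε : ε ≠ 0) :
    ∃ (S : Set ℝ) (δ M : ℝ) (c : ℝ → Fin 3), IsCompact S ∧ 0 < δ ∧ μ Sᶜ ≤ ε ∧
      (∀ t ∈ S, t ∈ Icc δ (1 - δ) ∧ Irrational t ∧ ‖d t‖ ≤ M ∧ ∀ s, |s - t| < δ →
        ‖g s - g t - (s - t) • d t‖ ≤ κ * |s - t| ∧
          (s ≠ t → 0 < d t (c t) * ((s - t) * (g s (c t) - g t (c t))))) ∧
      ∀ t ∈ S, ∀ t' ∈ S, |t' - t| < δ → c t' = c t := by
  obtain ⟨ε1, hε1, h4⟩ := ENNReal.exists_nnreal_pos_mul_lt (a := 4) (by norm_num) hε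
  have hε2 : (ε1 : ℝ≥0∞) ≠ 0 := ENNReal.coe_ne_zero.2 hε1.ne'
  set η : ℝ → ℝ := fun t => min κ (‖d t‖ / 2)
  set T : ℕ → Set ℝ := fun n => (Icc (1 / ((n : ℝ) + 1)) (1 - 1 / ((n : ℝ) + 1)) ∩
    {t | Irrational t}) ∩ ({t | 0 < ‖d t‖ ∧ ‖d t‖ ≤ n} ∩ ouni g d η (1 / ((n : ℝ) + 1)))
  have hT : ∀ n, MeasurableSet (T n) := fun n =>
    (measurableSet_Icc.inter (countable_range ((↑) : ℚ → ℝ)).measurableSet.compl).inter
      (((measurableSet_lt measurable_const hd.norm).inter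
        (measurableSet_le hd.norm measurable_const)).inter
        (ouni_meas hg hd (measurable_const.min (hd.norm.div_const 2)) _))
  have hm : Monotone T := by
    intro n m hnm t ht
    have h1 : (n : ℝ) ≤ m := Nat.cast_le.2 hnm
    have h2 : 1 / ((m : ℝ) + 1) ≤ 1 / ((n : ℝ) + 1) := by gcongr
    exact ⟨⟨⟨h2.trans ht.1.1.1, ht.1.1.2.trans (by linarith)⟩, ht.1.2⟩,
      ⟨ht.2.1.1, ht.2.1.2.trans h1⟩, fun s hs => ht.2.2 s (hs.trans_le h2)⟩
  have h0 : μ (⋂ n, (T n)ᶜ) = 0 := by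
    refine measure_mono_null (fun t ht => ?_) (ae_iff.1 hμ)
    rintro ⟨k1, k2, k3, k4⟩
    have k5 : 0 < ‖d t‖ := norm_pos_iff.2 k3
    obtain ⟨ρ, hρ, k6⟩ := Metric.eventually_nhds_iff.1
      ((hasDerivAt_iff_isLittleO.1 k4).def (lt_min hκ (half_pos k5)))
    have k7 : ∀ᶠ n : ℕ in atTop, 1 / ((n : ℝ) + 1) < min ρ (min t (1 - t)) :=
      tendsto_one_div_add_atTop_nhds_zero_nat.eventually
        (gt_mem_nhds (lt_min hρ (lt_min k1.1 (sub_pos.2 k1.2))))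
    obtain ⟨n, k8, k9⟩ := (k7.and (tendsto_natCast_atTop_atTop.eventually_ge_atTop ‖d t‖)).exists
    simp only [lt_min_iff] at k8
    exact mem_iInter.1 ht n ⟨⟨⟨k8.2.1.le, by linarith [k8.2.2]⟩, k2⟩, ⟨k5, k9⟩,
      fun s hs => k6 (hs.trans k8.1)⟩
  have h1 := tendsto_measure_iInter_atTop (μ := μ) (s := fun n => (T n)ᶜ)
    (fun n => (hT n).compl.nullMeasurableSet) (fun n m h => compl_subset_compl.2 (hm h))
    ⟨0, measure_ne_top _ _⟩
  rw [h0] at h1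
  obtain ⟨n, hn⟩ := (h1.eventually (ge_mem_nhds (pos_iff_ne_zero.2 hε2))).exists
  choose S s1 s2 s3 using fun i => ((hT n).inter (hd (odom_meas i))).exists_isCompact_sdiff_lt
    (μ := μ) (measure_ne_top _ _) hε2
  choose c hc using odom_ex
  have hs : ∀ i j, ∃ r : ℝ, 0 < r ∧ ∀ t ∈ S i, ∀ t' ∈ S j, |t' - t| < r → j = i := by
    intro i j
    by_cases hij : j = i
    · exact ⟨1, one_pos, fun _ _ _ _ _ => hij⟩
    obtain ⟨r, hr, k⟩ := Disjoint.exists_thickenings (s := S j) (t := S i)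
      (disjoint_left.2 fun t h h' => hij (odom_uniq (s1 j h).2 (s1 i h').2)) (s2 j) (s2 i).isClosed
    exact ⟨r, hr, fun t ht t' ht' h => absurd (mem_thickening_iff.2 ⟨t, ht, h⟩)
      (disjoint_left.1 k (self_subset_thickening hr _ ht'))⟩
  choose r hr hr' using hs
  obtain ⟨⟨i0, j0⟩, -, k0⟩ := exists_min_image univ (fun q : Fin 3 × Fin 3 => r q.1 q.2)
    (toFinite _) univ_nonempty
  have hn0 : 0 < 1 / ((n : ℝ) + 1) := by positivity
  refine ⟨⋃ i, S i, min (r i0 j0) (1 / ((n : ℝ) + 1)), n, fun t => c (d t), isCompact_iUnion s2,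
    lt_min (hr _ _) hn0, ?_, fun t ht => ?_, fun t ht t' ht' h => ?_⟩
  · have k1 : (⋃ i, S i)ᶜ ⊆ (T n)ᶜ ∪ ⋃ i, (T n ∩ d ⁻¹' odom i) \ S i := fun t ht => by
      by_cases k : t ∈ T n
      · exact Or.inr (mem_iUnion.2 ⟨c (d t), ⟨k, hc _⟩, fun m => ht (mem_iUnion.2 ⟨_, m⟩)⟩)
      · exact Or.inl k
    calc μ _ ≤ μ (T n)ᶜ + ∑ i, μ ((T n ∩ d ⁻¹' odom i) \ S i) :=
          (measure_mono k1).trans ((measure_union_le _ _).trans
            (add_le_add le_rfl (measure_iUnion_fintype_le _ _)))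
      _ ≤ ε1 + ∑ _ : Fin 3, (ε1 : ℝ≥0∞) :=
          add_le_add hn (Finset.sum_le_sum fun i _ => (s3 i).le)
      _ = ε1 * 4 := by simp; ring
      _ ≤ ε := h4.le
  · obtain ⟨i, hi⟩ := mem_iUnion.1 ht
    obtain ⟨⟨⟨k1, k2⟩, k3, k4⟩, -⟩ := s1 i hi
    have m := min_le_right (r i0 j0) (1 / ((n : ℝ) + 1))
    refine ⟨⟨m.trans k1.1, k1.2.trans (by linarith)⟩, k2, k3.2, fun s hs => ?_⟩
    have k5 := k4 s (hs.trans_le m)
    refine ⟨k5.trans (mul_le_mul_of_nonneg_right (min_le_left _ _) (abs_nonneg _)), fun hst => ?_⟩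
    have k6 := ((norm_le_pi_norm _ (c (d t))).trans k5).trans
      (mul_le_mul_of_nonneg_right (min_le_right _ _) (abs_nonneg _))
    have k7 := (hc (d t)).1
    have k8 := k3.1
    rw [← k7] at k6 k8
    simp only [Pi.sub_apply, Pi.smul_apply, smul_eq_mul, Real.norm_eq_abs] at k6
    generalize d t (c (d t)) = x at k6 k8
    generalize g s (c (d t)) - g t (c (d t)) = y at k6
    have k9 : (s - t) * x ≠ 0 := mul_ne_zero (sub_ne_zero.2 hst) (abs_pos.1 k8)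
    have e1 : |x| / 2 * |s - t| = |(s - t) * x| / 2 := by rw [abs_mul]; ring
    have e2 : x * ((s - t) * y) = (s - t) * x * y := by ring
    rw [e1, abs_le] at k6
    rw [e2]
    generalize (s - t) * x = z at k6 k9
    rcases lt_or_gt_of_ne k9 with k | k
    · rw [abs_of_neg k] at k6
      exact mul_pos_of_neg_of_neg k (by linarith [k6.2])
    · rw [abs_of_pos k] at k6
      exact mul_pos k (by linarith [k6.1])
  · obtain ⟨i, hi⟩ := mem_iUnion.1 ht
    obtain ⟨j, hj⟩ := mem_iUnion.1 ht'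
    have k := hr' i j t hi t' hj (h.trans_le ((min_le_left _ _).trans (k0 (i, j) trivial)))
    exact ((odom_uniq (hc (d t')) (s1 j hj).2).trans k).trans (odom_uniq (s1 i hi).2 (hc (d t)))

end BEp
end
end

-- merged part: Pool.Agent.Work.MP_f0515e_an.D3.MDefs
section
/-! Definitions for the smoothing of piecewise affine embeddings in dimension three. -/

open Set Metric Filter Topology Function BEv MeasureTheory
open scoped NNReal ENNReal

noncomputable section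
namespace BEp

section General
variable {E F : Type} [NormedAddCommGroup E] [NormedSpace ℝ E] [NormedAddCommGroup F]
  [NormedSpace ℝ F]

/-- Local expansion at a point. -/
def EX (f : E → F) (x : E) (c : ℝ) : Prop :=
  ∀ᶠ p : E × E in 𝓝 (x, x), c * ‖p.1 - p.2‖ ≤ ‖f p.1 - f p.2‖

/-- Regular point: near `x` the map is Lipschitz and strictly monotone in every direction, with a
functional which depends on the direction only. -/
def CR (f : E → F) (x : E) : Prop :=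
  (∃ L, LL f x L) ∧ ∃ c : ℝ, 0 < c ∧ ∃ ℓ : E → F →L[ℝ] ℝ, (∀ ξ, ‖ℓ ξ‖ ≤ 1) ∧
    ∀ᶠ p : E × E in 𝓝 (x, x), c * ‖p.1 - p.2‖ ≤ ℓ (p.1 - p.2) (f p.1 - f p.2)

/-- Pairs of points near `x` whose difference is killed by `φ`. -/
def alg (φ : E →L[ℝ] ℝ) (x : E) : Filter (E × E) := 𝓝 (x, x) ⊓ 𝓟 {p | φ (p.1 - p.2) = 0}

/-- Positively homogeneous. -/
def Hmg (H : E → F) : Prop := ∀ (t : ℝ) (u : E), 0 ≤ t → H (t • u) = t • H u

/-- Lipschitz with a real constant. -/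
def Lz (H : E → F) (L : ℝ) : Prop := ∀ x y, ‖H x - H y‖ ≤ L * ‖x - y‖

/-- Expanding. -/
def Xp (H : E → F) (c : ℝ) : Prop := 0 < c ∧ ∀ x y, c * ‖x - y‖ ≤ ‖H x - H y‖

/-- Strictly differentiable with injective derivative. -/
def SI (T : E → F) (x : E) : Prop :=
  ∃ A : E →L[ℝ] F, HasStrictFDerivAt T A x ∧ ∃ c : ℝ, 0 < c ∧ ∀ ξ, c * ‖ξ‖ ≤ ‖A ξ‖

end General

/-- The interpolating family of homogeneous maps of the plane. -/
def hsp (k : ℂ → ℂ) (t : ℝ) (u : ℂ) : ℂ := u * Complex.exp (t * k u / ‖u‖)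

/-- The angle function of `hsp k 1` increases at a definite rate. -/
def Ang (k : ℂ → ℂ) : Prop :=
  ∃ c : ℝ, 0 < c ∧ ∀ a b : ℝ, a ≤ b → c * (b - a) ≤
    (b + (k (Complex.exp (b * Complex.I))).im) - (a + (k (Complex.exp (a * Complex.I))).im)

/-- Uniform bounds for the family `hsp k t`. -/
structure Fm (k : ℂ → ℂ) (c L : ℝ) : Prop where
  xp : ∀ t ∈ Icc (0 : ℝ) 1, Xp (hsp k t) c
  lp : ∀ t ∈ Icc (0 : ℝ) 1, Lz (hsp k t) L
  par : ∀ t ∈ Icc (0 : ℝ) 1, ∀ s ∈ Icc (0 : ℝ) 1, ∀ u,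
    ‖hsp k t u - hsp k s u‖ ≤ L * ‖u‖ * |t - s|

/-- The closed model lens. -/
def mz (η : ℝ) : Set (ℝ × ℂ) := {x | x.1 ∈ Icc (0 : ℝ) 1 ∧ ‖x.2‖ ≤ η * (x.1 * (1 - x.1))}

variable {n : ℕ}

/-- Energy of `F` relative to `G`. -/
def Eg (p : ℝ) (Ω : Set (Rn n)) (G F : Rn n → Rn n) : ℝ≥0∞ :=
  ∫⁻ x in Ω, en p F G (fderiv ℝ G) x

/-- Injective and locally Lipschitz. -/
structure IL (Ω : Set (Rn n)) (F : Rn n → Rn n) : Prop where
  inj : InjOn F Ω
  ll : ∀ x ∈ Ω, ∃ L, LL F x L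

/-- Exhaustion by compact sets with straight escape routes. -/
structure Exh (Ω : Set (Rn n)) (K : ℕ → Set (Rn n)) : Prop where
  zero : K 0 = ∅
  cpt : ∀ j, IsCompact (K j)
  sub : ∀ j, K j ⊆ Ω
  int : ∀ j, K j ⊆ interior (K (j + 1))
  cov : ∀ x ∈ Ω, ∃ j, x ∈ K j
  ray : ∀ j, ∀ v ∈ K (j + 1), v ∉ K j → ∃ w, w ∉ K (j + 1) ∧ segment ℝ v w ⊆ Ω \ K j

/-- Open lens around the open segment from `a` to `b`. -/
def lens (a b : Rn n) (ρ : ℝ) : Set (Rn n) :=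
  {x | ∃ z ∈ Ioo (0 : ℝ) 1, ‖x - seg a b z‖ < ρ * (z * (1 - z))}

/-- Closed tube around the segment from `a` to `b`. -/
def tube (a b : Rn n) (r : ℝ) : Set (Rn n) := {x | ∃ y ∈ segment ℝ a b, ‖x - y‖ ≤ r}

/-- Germ of a piecewise affine embedding along an edge of direction `v`. -/
structure EGm (H : Rn n → Rn n) (v : Rn n) : Prop where
  ne : v ≠ 0
  hmg : Hmg H
  lp : ∃ L, Lz H L
  xp : ∃ c, Xp H c
  eqv : ∀ u (t : ℝ), H (u + t • v) = H u + t • H v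

/-- Locally finite subset. -/
def LF (Ω B : Set (Rn n)) : Prop := ∀ C, IsCompact C → C ⊆ Ω → (B ∩ C).Finite

/-- Vertices, edges and germs along the edges. -/
structure Sd (Ω : Set (Rn n)) (G : Rn n → Rn n) where
  S : Set (Rn n × Rn n)
  ρ : Rn n × Rn n → ℝ
  B : Set (Rn n)
  ρ0 : ∀ e ∈ S, 0 < ρ e
  ends : ∀ e ∈ S, e.1 ∈ Ω ∩ B ∧ e.2 ∈ Ω ∩ B
  sub : ∀ e ∈ S, lens e.1 e.2 (ρ e) ⊆ Ω \ B
  disj : S.PairwiseDisjoint fun e => lens e.1 e.2 (ρ e)
  lf : ∀ C, IsCompact C → C ⊆ Ω → {e | e ∈ S ∧ (lens e.1 e.2 (ρ e) ∩ C).Nonempty}.Finite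
  lfB : LF Ω B
  germ : ∀ e ∈ S, ∃ H, EGm H (e.2 - e.1) ∧
    ∀ x, x ∈ lens e.1 e.2 (ρ e) ∨ x = e.2 → G x = G e.1 + H (x - e.1)
  cr : ∀ x ∈ Ω, x ∉ B → (∀ e ∈ S, x ∉ openSegment ℝ e.1 e.2) → CR G x

end BEp
end
end

-- merged part: Pool.Agent.Work.MP_f0515e_an.D3.MCR
section
/-! Calculus of regular points. -/

open Set Metric Filter Topology Function BEv MeasureTheory
open scoped NNReal ENNReal ContDiff

noncomputable section
namespace BEp

variable {E F G : Type} [NormedAddCommGroup E] [NormedSpace ℝ E] [NormedAddCommGroup F]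
  [NormedSpace ℝ F] [NormedAddCommGroup G] [NormedSpace ℝ G]
variable {f g : E → F} {x : E}

theorem MCR_pair {P : E → Prop} (e : ∀ᶠ y in 𝓝 x, P y) :
    ∀ᶠ p : E × E in 𝓝 (x, x), P p.1 ∧ P p.2 := by
  rw [nhds_prod_eq]
  exact e.prod_mk e

theorem MCR_le {ℓ : F →L[ℝ] ℝ} (h : ‖ℓ‖ ≤ 1) (y : F) : |ℓ y| ≤ ‖y‖ :=
  (ℓ.le_opNorm y).trans (mul_le_of_le_one_left (norm_nonneg _) h)

theorem CR.congr (h : CR f x) (e : g =ᶠ[𝓝 x] f) : CR g x := by
  obtain ⟨⟨L, hL⟩, c, hc, ℓ, h1, h2⟩ := h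
  refine ⟨⟨L, hL.congr e⟩, c, hc, ℓ, h1, ?_⟩
  filter_upwards [h2, MCR_pair e] with p a b
  rwa [b.1, b.2]

theorem CR.ex (h : CR f x) : ∃ c, 0 < c ∧ EX f x c := by
  obtain ⟨-, c, hc, ℓ, h1, h2⟩ := h
  exact ⟨c, hc, h2.mono fun p a => a.trans ((le_abs_self _).trans (MCR_le (h1 _) _))⟩

theorem CR.id' (x : E) : CR (fun y : E => y) x := by
  choose ℓ h1 h2 using fun ξ : E => exists_dual_vector'' ℝ ξ
  exact ⟨⟨1, LL.id' x⟩, 1, one_pos, ℓ, h1, .of_forall fun p => by simp [h2]⟩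

theorem MCR_str {T : E → F} {A : E →L[ℝ] F} (h : HasStrictFDerivAt T A x) {δ : ℝ} (hδ : 0 < δ) :
    ∀ᶠ p : E × E in 𝓝 (x, x), ‖T p.1 - T p.2 - A (p.1 - p.2)‖ ≤ δ * ‖p.1 - p.2‖ :=
  h.isLittleO.def hδ

theorem SI.ll {T : E → F} (h : SI T x) : ∃ L, LL T x L := by
  obtain ⟨A, hA, -⟩ := h
  refine ⟨‖A‖ + 1, (MCR_str hA one_pos).mono fun p hp => ?_⟩
  have := norm_le_norm_add_norm_sub' (T p.1 - T p.2) (A (p.1 - p.2))
  have := A.le_opNorm (p.1 - p.2)
  linarith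

theorem CR.comp {k : F → G} {T : E → F} (h : CR k (T x)) (hT : SI T x) :
    CR (fun y => k (T y)) x := by
  obtain ⟨⟨L, hL⟩, c, hc, ℓ, h1, h2⟩ := h
  obtain ⟨L', hL'⟩ := hT.ll
  obtain ⟨A, hA, a, ha, hl⟩ := hT
  have hL := hL.mono (le_max_left L 1)
  set M := max L 1
  have M0 : 0 < M := lt_max_of_lt_right one_pos
  refine ⟨⟨_, hL.comp hL' M0.le⟩, c * a / 2, by positivity, fun ξ => ℓ (A ξ), fun ξ => h1 _, ?_⟩
  have c1 : Tendsto (fun p : E × E => T p.1) (𝓝 (x, x)) (𝓝 (T x)) :=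
    hA.continuousAt.tendsto.comp (continuous_fst.tendsto (x, x))
  have c2 : Tendsto (fun p : E × E => T p.2) (𝓝 (x, x)) (𝓝 (T x)) :=
    hA.continuousAt.tendsto.comp (continuous_snd.tendsto (x, x))
  have c3 : Tendsto (fun p : E × E => T p.2 + A (p.1 - p.2)) (𝓝 (x, x)) (𝓝 (T x)) := by
    simpa using c2.add ((A.continuous.comp (continuous_fst.sub continuous_snd)).tendsto (x, x))
  filter_upwards [(c3.prodMk_nhds c2).eventually h2, (c1.prodMk_nhds c3).eventually hL,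
    MCR_str hA (δ := c * a / 2 / M) (by positivity)] with p k1 k2 k3
  simp only [add_sub_cancel_left] at k1
  rw [← sub_sub] at k2
  have k4 := MCR_le (h1 (A (p.1 - p.2))) (k (T p.1) - k (T p.2 + A (p.1 - p.2)))
  have k5 : M * ‖T p.1 - T p.2 - A (p.1 - p.2)‖ ≤ c * a / 2 * ‖p.1 - p.2‖ := by
    refine (mul_le_mul_of_nonneg_left k3 M0.le).trans_eq ?_
    field_simp
  have k6 := mul_le_mul_of_nonneg_left (hl (p.1 - p.2)) hc.le
  have e : ℓ (A (p.1 - p.2)) (k (T p.1) - k (T p.2)) =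
      ℓ (A (p.1 - p.2)) (k (T p.1) - k (T p.2 + A (p.1 - p.2))) +
        ℓ (A (p.1 - p.2)) (k (T p.2 + A (p.1 - p.2)) - k (T p.2)) := by
    rw [← map_add, sub_add_sub_cancel]
  rw [e]
  linarith [(abs_le.1 k4).1]

theorem CR.post (h : CR f x) (B : F ≃L[ℝ] G) (b : G) : CR (fun y => B (f y) + b) x := by
  obtain ⟨⟨L, hL⟩, c, hc, ℓ, h1, h2⟩ := h
  set N := ‖(B.symm : G →L[ℝ] F)‖ + 1 with hN
  have N0 : 0 < N := by positivity
  refine ⟨⟨‖(B : F →L[ℝ] G)‖ * L, Eventually.mono hL fun p hp => ?_⟩, c / N, by positivity,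
    fun ξ => N⁻¹ • (ℓ ξ).comp (B.symm : G →L[ℝ] F), fun ξ => ?_, h2.mono fun p hp => ?_⟩
  · rw [add_sub_add_right_eq_sub, ← map_sub, mul_assoc]
    exact ((B : F →L[ℝ] G).le_opNorm _).trans (by gcongr)
  · rw [norm_smul, Real.norm_of_nonneg (inv_pos.2 N0).le, inv_mul_le_iff₀ N0]
    refine (ContinuousLinearMap.opNorm_comp_le _ _).trans ?_
    nlinarith [h1 ξ, norm_nonneg (B.symm : G →L[ℝ] F)]
  · rw [add_sub_add_right_eq_sub, ← map_sub]
    simp only [ContinuousLinearMap.smul_apply, ContinuousLinearMap.comp_apply,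
      ContinuousLinearEquiv.coe_coe, ContinuousLinearEquiv.symm_apply_apply, smul_eq_mul]
    rw [div_eq_inv_mul, mul_assoc]
    gcongr

theorem SI.aff (B : E ≃L[ℝ] F) (b : F) (x : E) : SI (fun y => B y + b) x := by
  refine ⟨B, B.hasStrictFDerivAt.add_const b, (‖(B.symm : F →L[ℝ] E)‖ + 1)⁻¹, by positivity,
    fun ξ => ?_⟩
  have := (B.symm : F →L[ℝ] E).le_opNorm (B ξ)
  rw [inv_mul_le_iff₀ (by positivity)]
  simp only [ContinuousLinearEquiv.coe_coe, ContinuousLinearEquiv.symm_apply_apply] at this ⊢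
  nlinarith [norm_nonneg (B ξ)]

theorem EX.inj {c : ℝ} (h : EX f x c) (hc : 0 < c) {A : E →L[ℝ] F} (hA : HasFDerivAt f A x) :
    Injective A := by
  refine (injective_iff_map_eq_zero A).2 fun ξ hξ => ?_
  have t : Tendsto (fun s : ℝ => x + s • ξ) (𝓝[>] 0) (𝓝 x) := by
    have : Continuous fun s : ℝ => x + s • ξ := by fun_prop
    simpa using (this.tendsto 0).mono_left nhdsWithin_le_nhds
  obtain ⟨s, ⟨k1, k2⟩, k3⟩ := ((((t.prodMk_nhds tendsto_const_nhds).eventually h).and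
    (t.eventually (hA.isLittleO.def (half_pos hc)))).and self_mem_nhdsWithin).exists
  have s0 : 0 < s := k3
  simp only [add_sub_cancel_left, map_smul, hξ, smul_zero, sub_zero, norm_smul,
    Real.norm_of_nonneg s0.le] at k1 k2
  refine norm_le_zero_iff.1 (le_of_not_gt fun q => ?_)
  nlinarith [mul_pos hc (mul_pos s0 q)]

theorem Lz.ll {L : ℝ} (h : Lz f L) (x : E) : LL f x L := LL.of_forall h x

theorem Lz.continuous {L : ℝ} (h : Lz f L) : Continuous f :=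
  continuous_iff_continuousAt.2 fun x => (h.ll x).continuousAt

theorem Xp.ex {c : ℝ} (h : Xp f c) (x : E) : EX f x c := .of_forall fun p => h.2 p.1 p.2

theorem Xp.inj {c : ℝ} (h : Xp f c) : Injective f := fun x y e => by
  have := h.2 x y
  rw [e, sub_self, norm_zero] at this
  exact sub_eq_zero.1 (norm_le_zero_iff.1 (le_of_not_gt fun q => by nlinarith [mul_pos h.1 q]))

theorem _root_.BEv.LL.norm_fderiv {L : ℝ} (h : LL f x L) (hL : 0 ≤ L) : ‖fderiv ℝ f x‖ ≤ L :=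
  norm_fderiv_le_of_lip' ℝ hL ((tendsto_id.prodMk_nhds tendsto_const_nhds).eventually h)

/-- Uniform local Lipschitz constant on a compact set. -/
theorem ll_cpt {C : Set E} (hC : IsCompact C) (h : ∀ x ∈ C, ∃ L, LL f x L) :
    ∃ L, 0 ≤ L ∧ ∀ x ∈ C, LL f x L := by
  refine hC.induction_on (p := fun s => ∃ L, 0 ≤ L ∧ ∀ x ∈ s, LL f x L) ⟨0, le_rfl, by simp⟩
    (fun s t e ⟨L, a, b⟩ => ⟨L, a, fun x hx => b x (e hx)⟩)
    (fun s t ⟨L, a, b⟩ ⟨L', _, d⟩ => ⟨max L L', le_max_of_le_left a, fun x hx => hx.elim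
      (fun k => (b x k).mono (le_max_left _ _)) fun k => (d x k).mono (le_max_right _ _)⟩)
    fun x hx => ?_
  obtain ⟨L, hL⟩ := h x hx
  exact ⟨_, mem_nhdsWithin_of_mem_nhds (hL.mono (le_max_left L 0)).eventually, _,
    le_max_right _ _, fun y hy => hy⟩

/-- Uniform regularity on a compact set. -/
theorem cr_cpt {C : Set E} (hC : IsCompact C) (h : ∀ x ∈ C, CR f x) :
    ∃ c r : ℝ, 0 < c ∧ 0 < r ∧ ∀ x ∈ C, ∃ ℓ : E → F →L[ℝ] ℝ, (∀ ξ, ‖ℓ ξ‖ ≤ 1) ∧
      ∀ y ∈ ball x r, ∀ z ∈ ball x r, c * ‖y - z‖ ≤ ℓ (y - z) (f y - f z) := by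
  let P : ℝ → ℝ → E → Prop := fun c r x => ∃ ℓ : E → F →L[ℝ] ℝ, (∀ ξ, ‖ℓ ξ‖ ≤ 1) ∧
    ∀ y ∈ ball x r, ∀ z ∈ ball x r, c * ‖y - z‖ ≤ ℓ (y - z) (f y - f z)
  have mo : ∀ c r c' r' x, c' ≤ c → r' ≤ r → P c r x → P c' r' x :=
    fun c r c' r' x a b ⟨ℓ, l1, l2⟩ => ⟨ℓ, l1, fun y hy z hz =>
      le_trans (by gcongr) (l2 y (ball_subset_ball b hy) z (ball_subset_ball b hz))⟩
  refine hC.induction_on (p := fun s => ∃ c r : ℝ, 0 < c ∧ 0 < r ∧ ∀ x ∈ s, P c r x)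
    ⟨1, 1, one_pos, one_pos, by simp⟩
    (fun s t e ⟨c, r, a, a', b⟩ => ⟨c, r, a, a', fun x hx => b x (e hx)⟩)
    (fun s t ⟨c, r, a, a', b⟩ ⟨c', r', d, d', e⟩ => ⟨min c c', min r r', lt_min a d, lt_min a' d',
      fun x hx => hx.elim (fun k => mo _ _ _ _ _ (min_le_left _ _) (min_le_left _ _) (b x k))
        fun k => mo _ _ _ _ _ (min_le_right _ _) (min_le_right _ _) (e x k)⟩) fun x hx => ?_
  obtain ⟨-, c, hc, ℓ, h1, h2⟩ := h x hx
  obtain ⟨r, r0, hr⟩ := Metric.eventually_nhds_iff_ball.1 h2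
  refine ⟨ball x (r / 2), mem_nhdsWithin_of_mem_nhds (ball_mem_nhds _ (half_pos r0)), c, r / 2, hc,
    half_pos r0, fun w hw => ⟨ℓ, h1, fun y hy z hz => hr (y, z) ?_⟩⟩
  have : ball w (r / 2) ⊆ ball x r := ball_subset (by linarith [mem_ball.1 hw])
  rw [← ball_prod_same]
  exact ⟨this hy, this hz⟩

/-- A slowly varying member of a uniformly bi-Lipschitz family is bi-Lipschitz. -/
theorem fam_bil {Φ : ℝ → E → F} {c L M δ : ℝ} {r t : E → ℝ}
    (h1 : ∀ s ∈ Icc (0 : ℝ) 1, Xp (Φ s) c) (h2 : ∀ s ∈ Icc (0 : ℝ) 1, Lz (Φ s) L)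
    (h3 : ∀ s ∈ Icc (0 : ℝ) 1, ∀ s' ∈ Icc (0 : ℝ) 1, ∀ x, ‖Φ s x - Φ s' x‖ ≤ M * r x * |s - s'|)
    (hM : 0 ≤ M) (ht : ∀ x, t x ∈ Icc (0 : ℝ) 1)
    (hv : ∀ x y, min (r x) (r y) * |t x - t y| ≤ δ * ‖x - y‖) (hδ : M * δ ≤ c / 2) :
    Xp (fun x => Φ (t x) x) (c / 2) ∧ Lz (fun x => Φ (t x) x) (L + c / 2) := by
  have key : ∀ x y, c / 2 * ‖x - y‖ ≤ ‖Φ (t x) x - Φ (t y) y‖ ∧
      ‖Φ (t x) x - Φ (t y) y‖ ≤ (L + c / 2) * ‖x - y‖ := fun x y => by
    wlog h : r y ≤ r x generalizing x y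
    · rw [norm_sub_rev x, norm_sub_rev (Φ (t x) x)]
      exact this y x (not_le.1 h).le
    have a1 := (h1 _ (ht x)).2 x y
    have a2 := h2 _ (ht x) x y
    have a3 := h3 _ (ht x) _ (ht y) y
    have a4 := mul_le_mul_of_nonneg_left (hv x y) hM
    have a5 := mul_le_mul_of_nonneg_right hδ (norm_nonneg (x - y))
    rw [min_eq_right h] at a4
    have a6 := norm_sub_le_norm_sub_add_norm_sub (Φ (t x) x) (Φ (t x) y) (Φ (t y) y)
    have a7 := norm_sub_le_norm_sub_add_norm_sub (Φ (t x) x) (Φ (t y) y) (Φ (t x) y)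
    rw [norm_sub_rev (Φ (t y) y)] at a7
    constructor <;> nlinarith
  exact ⟨⟨half_pos (h1 0 ⟨le_rfl, zero_le_one⟩).1, fun x y => (key x y).1⟩, fun x y => (key x y).2⟩

end BEp
end
end

-- merged part: Pool.Agent.Work.MP_f0515e_an.D3.MPol0
section
/-! Chords and angles in the plane. -/

open Set Metric Filter Topology Function BEv MeasureTheory Complex
open scoped NNReal ENNReal ContDiff Real

noncomputable section
namespace BEp

theorem chord_sq (r s a b : ℝ) : ‖r * exp (a * I) - s * exp (b * I)‖ ^ 2 =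
    (r - s) ^ 2 + r * s * (2 * Real.sin ((a - b) / 2)) ^ 2 := by
  have h1 : Real.cos (a - b) = 1 - 2 * Real.sin ((a - b) / 2) ^ 2 := by
    rw [← Real.cos_two_mul_eq_one_sub]; congr 1; ring
  have h2 := Real.cos_sub a b
  rw [Complex.sq_norm, normSq_apply]
  simp only [sub_re, sub_im, re_ofReal_mul, im_ofReal_mul, exp_ofReal_mul_I_re, exp_ofReal_mul_I_im]
  have := Real.sin_sq_add_cos_sq a
  have := Real.sin_sq_add_cos_sq b
  have e : (r * Real.cos a - s * Real.cos b) * (r * Real.cos a - s * Real.cos b) +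
      (r * Real.sin a - s * Real.sin b) * (r * Real.sin a - s * Real.sin b) =
      r ^ 2 * (Real.sin a ^ 2 + Real.cos a ^ 2) + s ^ 2 * (Real.sin b ^ 2 + Real.cos b ^ 2) -
        2 * r * s * (Real.cos a * Real.cos b + Real.sin a * Real.sin b) := by ring
  rw [e, ← h2, h1, Real.sin_sq_add_cos_sq, Real.sin_sq_add_cos_sq]
  ring

theorem chord_le {r s a b : ℝ} (hr : 0 ≤ r) (hs : 0 ≤ s) (h : |a - b| ≤ π) :
    min r s * |a - b| ≤ π / 2 * ‖r * exp (a * I) - s * exp (b * I)‖ := by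
  have p0 := Real.pi_pos
  have m0 : 0 ≤ min r s := le_min hr hs
  have h1 : 2 / π * |(a - b) / 2| ≤ |Real.sin ((a - b) / 2)| :=
    Real.mul_abs_le_abs_sin (by rw [abs_div, abs_two]; linarith)
  have h2 : |a - b| ≤ π / 2 * |2 * Real.sin ((a - b) / 2)| := by
    rw [abs_div, abs_two, div_mul_div_comm, div_le_iff₀ (by positivity)] at h1
    rw [abs_mul, abs_two]; linarith
  have h3 : min r s * |2 * Real.sin ((a - b) / 2)| ≤ ‖r * exp (a * I) - s * exp (b * I)‖ := by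
    refine abs_le_of_sq_le_sq' ?_ (norm_nonneg _) |>.2
    rw [chord_sq, mul_pow, sq_abs]
    have : min r s ^ 2 ≤ r * s := by
      rw [sq]; exact mul_le_mul (min_le_left _ _) (min_le_right _ _) m0 hr
    nlinarith [sq_nonneg (r - s), sq_nonneg (2 * Real.sin ((a - b) / 2))]
  nlinarith [mul_le_mul_of_nonneg_left h2 m0]

theorem chord_rad {r s : ℝ} (hr : 0 ≤ r) (hs : 0 ≤ s) (a b : ℝ) :
    |r - s| ≤ ‖r * exp (a * I) - s * exp (b * I)‖ := by
  simpa [norm_exp_ofReal_mul_I, abs_of_nonneg hr, abs_of_nonneg hs] using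
    abs_norm_sub_norm_le (r * exp (a * I)) (s * exp (b * I))

theorem chord_unit (a b : ℝ) : ‖exp (a * I) - exp (b * I)‖ ≤ |a - b| := by
  refine abs_le_of_sq_le_sq' ?_ (abs_nonneg _) |>.2
  have h := chord_sq 1 1 a b
  simp only [ofReal_one, one_mul, sub_self] at h
  have h2 := Real.sin_sq_le_sq (x := (a - b) / 2)
  rw [h, sq_abs]; nlinarith

theorem chord_ge {r s : ℝ} (hr : 0 ≤ r) (hs : 0 ≤ s) (a b : ℝ) :
    ‖r * exp (a * I) - s * exp (b * I)‖ ≤ |r - s| + min r s * |a - b| := by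
  wlog h : s ≤ r generalizing r s a b
  · rw [norm_sub_rev, abs_sub_comm r, abs_sub_comm a, min_comm]
    exact this hs hr b a (not_le.1 h).le
  have e : r * exp (a * I) - s * exp (b * I) =
      ((r - s : ℝ) : ℂ) * exp (a * I) + s * (exp (a * I) - exp (b * I)) := by push_cast; ring
  rw [e, min_eq_right h]
  refine (norm_add_le _ _).trans ?_
  rw [norm_mul, norm_mul, norm_exp_ofReal_mul_I, mul_one, norm_real, norm_real, Real.norm_eq_abs,
    Real.norm_of_nonneg hs]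
  gcongr
  exact chord_unit a b

theorem polar_pair (u v : ℂ) : ∃ a b : ℝ, |a - b| ≤ π ∧ u = ‖u‖ * exp (a * I) ∧
    v = ‖v‖ * exp (b * I) := by
  have p0 := Real.pi_pos
  obtain ⟨m, hm⟩ : ∃ m : ℤ, |arg u - (arg v + m * (2 * π))| ≤ π := by
    refine ⟨round ((arg u - arg v) / (2 * π)), ?_⟩
    have h := abs_sub_round ((arg u - arg v) / (2 * π))
    have e : arg u - (arg v + (round ((arg u - arg v) / (2 * π)) : ℝ) * (2 * π)) =
        ((arg u - arg v) / (2 * π) - round ((arg u - arg v) / (2 * π))) * (2 * π) := by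
      field_simp; ring
    rw [e, abs_mul, abs_of_pos (by positivity : 0 < 2 * π)]
    nlinarith
  refine ⟨_, _, hm, (norm_mul_exp_arg_mul_I u).symm, ?_⟩
  have e : ((arg v + m * (2 * π) : ℝ) : ℂ) * I = arg v * I + m * (2 * π * I) := by push_cast; ring
  rw [e, Complex.exp_add, exp_int_mul_two_pi_mul_I, mul_one, norm_mul_exp_arg_mul_I]

end BEp
end
end

-- merged part: Pool.Agent.Work.MP_f0515e_an.D3.MPol2
section
/-! Uniform bounds for the interpolating family.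
Plan. WLOG M ≥ 0; k 0 = 0, ‖k u‖ ≤ M ‖u‖. For u = r exp (a I), r > 0: hsp k t u = (r m a) exp (ψ a I) with m a = Real.exp (t re k(exp (a I))) in [exp (-M), exp M] and ψ a = a + t im k(exp (a I)).
ψ b - ψ a ≥ c0 (b - a) for a ≤ b with c0 = min c 1 (convex combination), ψ (a + 2π) = ψ a + 2π, and m, ψ are Lipschitz (chord_unit; mean value inequality for exp on [-M, M]).
polar_pair gives a, b with |a - b| ≤ π, say a ≤ b; then Δ = ψ b - ψ a and 2π - Δ = ψ (a + 2π) - ψ b are both at least c0 (b - a), and one of them is at most π: chord_le gives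
min r s exp (-M) c0 (b - a) ≤ (π/2) X for X = ‖hsp k t u - hsp k t v‖. chord_rad gives |r m a - s m b| ≤ X, so exp (-M) |r - s| ≤ X + min r s |m a - m b|; chord_ge bounds ‖u - v‖ by C X.
Upper bound: chord_ge for the images, chord_rad and chord_le for the sources. par: ‖exp z - exp w‖ ≤ exp M ‖z - w‖ on the ball of radius M (Convex.norm_image_sub_le_of_norm_deriv_le). -/

open Set Metric Filter Topology Function BEv MeasureTheory
open scoped NNReal ENNReal ContDiff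

noncomputable section
namespace BEp

open Complex Real in
theorem MPol2_exp {N : ℝ} {z w : ℂ} (hz : ‖z‖ ≤ N) (hw : ‖w‖ ≤ N) :
    ‖cexp z - cexp w‖ ≤ rexp N * ‖z - w‖ :=
  (convex_closedBall (0 : ℂ) N).norm_image_sub_le_of_norm_deriv_le
    (fun _ _ => Complex.differentiableAt_exp) (fun x hx => by
      rw [Complex.deriv_exp]
      exact (norm_exp_le_exp_norm x).trans (exp_le_exp.2 (mem_closedBall_zero_iff.1 hx)))
    (mem_closedBall_zero_iff.2 hw) (mem_closedBall_zero_iff.2 hz)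

theorem MPol2_rad {r s x y Λ δ : ℝ} (hr : 0 ≤ r) (hs : 0 ≤ s) (hx : 1 ≤ Λ * x ∧ x ≤ Λ)
    (hy : 1 ≤ Λ * y ∧ y ≤ Λ) (hΛ : 0 < Λ) (h : |x - y| ≤ Λ * δ) :
    |r - s| ≤ Λ * (|r * x - s * y| + Λ * (min r s * δ)) ∧
      |r * x - s * y| ≤ Λ * |r - s| + Λ * (min r s * δ) ∧
      min r s ≤ Λ * min (r * x) (s * y) ∧ min (r * x) (s * y) ≤ Λ * min r s := by
  wlog l : r ≤ s generalizing r s x y
  · have := this hs hr hy hx (abs_sub_comm x y ▸ h) (le_of_not_ge l)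
    rwa [abs_sub_comm s, abs_sub_comm (s * y), min_comm s, min_comm (s * y)] at this
  have y0 : 0 < y := pos_of_mul_pos_right (one_pos.trans_le hy.1) hΛ.le
  have k := abs_le.1 h
  have k1 := mul_le_mul_of_nonneg_left k.1 hr
  have k2 := mul_le_mul_of_nonneg_left k.2 hr
  have k3 := mul_le_mul_of_nonneg_left hy.1 (sub_nonneg.2 l)
  have k4 := mul_le_mul_of_nonneg_left hy.2 (sub_nonneg.2 l)
  have k5 := mul_nonneg (sub_nonneg.2 l) y0.le
  rw [min_eq_left l, abs_sub_comm r, abs_of_nonneg (sub_nonneg.2 l), mul_min_of_nonneg _ _ hΛ.le]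
  refine ⟨?_, abs_le.2 ⟨by linarith, by nlinarith⟩, le_min (by nlinarith [hx.1])
    (by nlinarith [hy.1]), (min_le_left _ _).trans (by nlinarith [hx.2])⟩
  have k6 := mul_le_mul_of_nonneg_left (show (s - r) * y ≤ |r * x - s * y| + Λ * (r * δ) by
    linarith [neg_abs_le (r * x - s * y)]) hΛ.le
  linarith

open Complex Real in
theorem MPol2_abs {h : ℂ → ℂ} {m ψ : ℝ → ℝ} {Λ : ℝ} (hΛ : 0 < Λ)
    (H : ∀ r a : ℝ, 0 ≤ r → h (r * cexp (a * I)) = (r * m a : ℝ) * cexp (ψ a * I))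
    (m1 : ∀ a, 1 ≤ Λ * m a ∧ m a ≤ Λ) (m2 : ∀ a b, |m a - m b| ≤ Λ * |a - b|)
    (p1 : ∀ a b, a ≤ b → b - a ≤ Λ * (ψ b - ψ a)) (p2 : ∀ a, ψ (a + 2 * π) = ψ a + 2 * π)
    (p3 : ∀ a b, |ψ a - ψ b| ≤ Λ * |a - b|) :
    Xp h (Λ + 2 * Λ ^ 4 + 2 * Λ ^ 2)⁻¹ ∧ Lz h (3 * Λ + 2 * Λ ^ 2) := by
  have m0 : ∀ {r} a, 0 ≤ r → 0 ≤ r * m a := fun a hr =>
    mul_nonneg hr (pos_of_mul_pos_right (one_pos.trans_le (m1 a).1) hΛ.le).le
  have c2 : ∀ {r s a b : ℝ}, 0 ≤ r → 0 ≤ s → |a - b| ≤ π →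
      min r s * |a - b| ≤ 2 * ‖r * cexp (a * I) - s * cexp (b * I)‖ := fun hr hs k =>
    (chord_le hr hs k).trans (mul_le_mul_of_nonneg_right (by linarith [pi_le_four]) (norm_nonneg _))
  have key : ∀ r s a b : ℝ, 0 ≤ r → 0 ≤ s → a ≤ b → b - a ≤ π →
      min r s * (b - a) ≤ 2 * Λ ^ 2 * ‖h (r * cexp (a * I)) - h (s * cexp (b * I))‖ := by
    intro r s a b hr hs l l'
    obtain ⟨a', e, k1, k2⟩ : ∃ a' : ℝ, cexp (a * I) = cexp (a' * I) ∧ |ψ a' - ψ b| ≤ π ∧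
        b - a ≤ Λ * |ψ a' - ψ b| := by
      have q1 := p1 a b l
      have q2 := p1 b (a + 2 * π) (by linarith [pi_pos])
      by_cases q : ψ b - ψ a ≤ π
      · refine ⟨a, rfl, ?_⟩
        rw [abs_sub_comm, abs_of_nonneg (nonneg_of_mul_nonneg_right (by linarith) hΛ)]
        exact ⟨q, q1⟩
      · refine ⟨a + 2 * π, ?_, ?_⟩
        · push_cast
          rw [add_mul, exp_periodic]
        · rw [abs_of_nonneg (nonneg_of_mul_nonneg_right (by linarith) hΛ)]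
          exact ⟨by linarith [p2 a], by linarith⟩
    rw [e, H r a' hr, H s b hs]
    have k3 := mul_le_mul_of_nonneg_left (c2 (m0 a' hr) (m0 b hs) k1) (sq_nonneg Λ)
    have k4 := mul_le_mul (MPol2_rad hr hs (m1 a') (m1 b) hΛ (m2 a' b)).2.2.1 k2 (sub_nonneg.2 l)
      (mul_nonneg hΛ.le (le_min (m0 a' hr) (m0 b hs)))
    linarith
  refine ⟨⟨by positivity, fun u v => ?_⟩, fun u v => ?_⟩ <;>
    obtain ⟨a, b, k, eu, ev⟩ := polar_pair u v <;>
    obtain ⟨r1, r2, -, r4⟩ := MPol2_rad (norm_nonneg u) (norm_nonneg v) (m1 a) (m1 b) hΛ (m2 a b)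
  · have k1 : min ‖u‖ ‖v‖ * |a - b| ≤ 2 * Λ ^ 2 * ‖h u - h v‖ := by
      rcases le_total a b with l | l
      · rw [abs_sub_comm, abs_of_nonneg (sub_nonneg.2 l)] at k ⊢
        have := key _ _ a b (norm_nonneg u) (norm_nonneg v) l k
        rwa [← eu, ← ev] at this
      · rw [abs_of_nonneg (sub_nonneg.2 l)] at k ⊢
        have := key _ _ b a (norm_nonneg v) (norm_nonneg u) l k
        rwa [← eu, ← ev, min_comm, norm_sub_rev] at this
    have k2 := chord_rad (m0 a (norm_nonneg u)) (m0 b (norm_nonneg v)) (ψ a) (ψ b)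
    have k3 := chord_ge (norm_nonneg u) (norm_nonneg v) a b
    rw [← H _ _ (norm_nonneg u), ← H _ _ (norm_nonneg v), ← eu, ← ev] at k2
    rw [← eu, ← ev] at k3
    rw [inv_mul_le_iff₀ (by positivity)]
    have k4 := mul_le_mul_of_nonneg_left k2 hΛ.le
    have k5 := mul_le_mul_of_nonneg_left k1 (sq_nonneg Λ)
    linarith
  · have k1 := c2 (norm_nonneg u) (norm_nonneg v) k
    have k2 := chord_rad (norm_nonneg u) (norm_nonneg v) a b
    have k3 := chord_ge (m0 a (norm_nonneg u)) (m0 b (norm_nonneg v)) (ψ a) (ψ b)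
    rw [← H _ _ (norm_nonneg u), ← H _ _ (norm_nonneg v), ← eu, ← ev] at k3
    rw [← eu, ← ev] at k1 k2
    have k4 := mul_le_mul r4 (p3 a b) (abs_nonneg _) (by positivity)
    have k5 := mul_le_mul_of_nonneg_left k1 hΛ.le
    have k6 := mul_le_mul_of_nonneg_left k1 (sq_nonneg Λ)
    have k7 := mul_le_mul_of_nonneg_left k2 hΛ.le
    linarith

open Complex Real in
theorem fm_of_ang {k : ℂ → ℂ} (h0 : Hmg k) {M : ℝ} (h1 : Lz k M) (h2 : Ang k) :
    ∃ c L, 0 ≤ L ∧ Fm k c L := by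
  obtain ⟨c, c0, hc⟩ := h2
  obtain ⟨N, N0, hN⟩ : ∃ N, 0 ≤ N ∧ Lz k N := ⟨|M|, abs_nonneg M, fun x y =>
    (h1 x y).trans (mul_le_mul_of_nonneg_right (le_abs_self M) (norm_nonneg _))⟩
  have k1 : ∀ u, ‖k u‖ ≤ N * ‖u‖ := fun u => by
    simpa [show k 0 = 0 by simpa using h0 0 0 le_rfl] using hN u 0
  have k2 : ∀ a : ℝ, ‖k (cexp (a * I))‖ ≤ N := fun a => by simpa using k1 (cexp (a * I))
  have k3 : ∀ a b : ℝ, ‖k (cexp (a * I)) - k (cexp (b * I))‖ ≤ N * |a - b| := fun a b =>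
    (hN _ _).trans (mul_le_mul_of_nonneg_left (chord_unit a b) N0)
  have k4 : ∀ t ∈ Icc (0 : ℝ) 1, ∀ z : ℂ, ‖t * z‖ ≤ ‖z‖ := fun t ht z => by
    rw [norm_mul, norm_real, norm_of_nonneg ht.1]
    exact mul_le_of_le_one_left (norm_nonneg z) ht.2
  obtain ⟨Λ, l1, l2, l3, l4⟩ := ((eventually_ge_atTop (rexp N)).and
    ((eventually_ge_atTop (rexp N * N)).and ((eventually_ge_atTop (1 + N)).and
      (eventually_ge_atTop c⁻¹)))).exists
  have Λ0 : 0 < Λ := by linarith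
  have key : ∀ t ∈ Icc (0 : ℝ) 1, _ := fun t ht => MPol2_abs (h := hsp k t)
    (m := fun a => rexp (t * k (cexp (a * I))).re) (ψ := fun a => a + (t * k (cexp (a * I))).im) Λ0
    (fun r a hr => by
      rcases hr.eq_or_lt with rfl | hr'
      · simp [hsp]
      have e := h0 r (cexp (a * I)) hr
      rw [real_smul, real_smul] at e
      rw [hsp, e, norm_mul, norm_exp_ofReal_mul_I, mul_one, norm_real, norm_of_nonneg hr,
        mul_left_comm, mul_div_cancel_left₀ _ (ofReal_ne_zero.2 hr'.ne'),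
        ofReal_mul, ofReal_exp, ofReal_add, mul_assoc, mul_assoc, ← Complex.exp_add,
        ← Complex.exp_add, add_mul, add_left_comm, re_add_im])
    (fun a => by
      have q := abs_le.1 ((abs_re_le_norm _).trans ((k4 t ht _).trans (k2 a)))
      refine ⟨le_trans ?_ (mul_le_mul_of_nonneg_right l1 (exp_pos _).le),
        (exp_le_exp.2 q.2).trans l1⟩
      rw [← Real.exp_add]
      exact one_le_exp (by linarith [q.1]))
    (fun a b => by
      rw [← Complex.norm_exp, ← Complex.norm_exp]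
      refine (abs_norm_sub_norm_le _ _).trans ((MPol2_exp ((k4 t ht _).trans (k2 a))
        ((k4 t ht _).trans (k2 b))).trans ?_)
      rw [← mul_sub]
      refine (mul_le_mul_of_nonneg_left ((k4 t ht _).trans (k3 a b)) (exp_pos _).le).trans ?_
      rw [← mul_assoc]
      exact mul_le_mul_of_nonneg_right l2 (abs_nonneg _))
    (fun a b l => by
      have q1 := mul_le_mul_of_nonneg_left (hc a b l) (mul_nonneg Λ0.le ht.1)
      have q2 := mul_le_mul_of_nonneg_left ((inv_le_iff_one_le_mul₀ c0).1 l4)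
        (mul_nonneg ht.1 (sub_nonneg.2 l))
      have q3 := mul_le_mul_of_nonneg_left (show 1 ≤ Λ by linarith)
        (mul_nonneg (sub_nonneg.2 ht.2) (sub_nonneg.2 l))
      simp only [im_ofReal_mul]
      linarith)
    (fun a => by
      push_cast
      rw [add_mul, exp_periodic, add_right_comm])
    (fun a b => by
      rw [add_sub_add_comm, ← sub_im, ← mul_sub]
      have q := (abs_im_le_norm _).trans ((k4 t ht _).trans (k3 a b))
      exact (abs_add_le _ _).trans (by nlinarith [abs_nonneg (a - b)]))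
  refine ⟨_, _, by positivity, fun t ht => (key t ht).1, fun t ht => (key t ht).2,
    fun t ht s hs u => ?_⟩
  have q : ‖k u / ‖u‖‖ ≤ N := by
    rw [norm_div, norm_real, norm_norm]
    exact div_le_of_le_mul₀ (norm_nonneg u) N0 (k1 u)
  rw [hsp, hsp, ← mul_sub, norm_mul, mul_div_assoc, mul_div_assoc, mul_comm _ ‖u‖, mul_assoc]
  refine mul_le_mul_of_nonneg_left ((MPol2_exp ((k4 t ht _).trans q) ((k4 s hs _).trans q)).trans
    ?_) (norm_nonneg u)
  rw [← sub_mul, norm_mul, ← ofReal_sub, norm_real, norm_eq_abs, mul_comm |t - s|, ← mul_assoc]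
  exact mul_le_mul_of_nonneg_right (((mul_le_mul_of_nonneg_left q (exp_pos N).le).trans l2).trans
    (by nlinarith)) (abs_nonneg _)

end BEp
end
end
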