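import Pool.Agent.Work.MP_f0515e_an.D3.CTop
import Pool.Agent.Work.MP_f0515e_an.D3.LDefs
import Pool.Agent.Work.MP_f0515e_an.D3.FDefs

-- merged part: Pool.Agent.Work.MP_f0515e_an.D3.KRef
section
/-! TASK KRef. Refinement of a complex by local arrangements of hyperplanes.
Plan. `refine`: for `y` in the cell of `x` both inclusions give `H y = H x`. The closure of `cell x ∩ face (H x) x` is
`closure (cell x) ∩ cface (H x) x` (approach `y` along `y + t (x - y)`, `seg_mem`, `St1_mix`); this is a polyhedron (`cface` is cut out by the TP function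
of `poly_cface`/`st3_gap`, or intersect with finitely many `poly_le`). `opn`: take a smaller `e` (convexity, finitely many strict signs). `fr`: `H x ⊆ H y`,
`face_anti`, `cface_sub`. `lf`: finitely many old cells, `finite_faces` for each. `refine_pc`: for an affine subspace `P` of the cover of `Z j` take finitely many affine
functionals with common zero set `P` (coordinates of a linear projection with kernel the direction); `H x` = union of the families `H j` over the `j` with `x` in the closure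
of a cell meeting `Z j`; finite by `lf_cl` and `hull`; monotone by `fr`. A new cell through `z ∈ Z j ∩ P` lies in `P` (`dm_le_of_sub`). About 250 lines. -/

open Set Metric Filter Topology Function BEv
open scoped NNReal ENNReal

noncomputable section
namespace BEp

theorem KRef_poly {n : ℕ} {X : Set (Rn n)} (hX : Poly X) {L : Set ((Rn n →L[ℝ] ℝ) × ℝ)}
    (hL : L.Finite) (x : Rn n) : Poly (X ∩ cface L x) := by
  have hD : TP (fun y => ∑ A ∈ hL.toFinset, (|ev A y| - (SignType.sign (ev A x) : ℝ) * ev A y)) :=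
    TP.sum _ fun A _ => (st3_tp A).abs.sub ((st3_tp A).const_mul _)
  convert poly_eq hX hD 0 using 1
  ext y
  refine and_congr_right fun _ => ?_
  rw [Finset.sum_eq_zero_iff_of_nonneg fun A _ => (st3_gap (ev A x) (ev A y)).1]
  exact ⟨fun h A hA => (st3_gap _ _).2.2 (h A (hL.mem_toFinset.1 hA)),
    fun h A hA => (st3_gap _ _).2.1 (h A (hL.mem_toFinset.2 hA))⟩

theorem KRef_aff {n : ℕ} (P : AffineSubspace ℝ (Rn n)) :
    ∃ L : Set ((Rn n →L[ℝ] ℝ) × ℝ), L.Finite ∧ ∀ z ∈ P, face L z ⊆ P := by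
  rcases (P : Set (Rn n)).eq_empty_or_nonempty with e | ⟨p, hp⟩
  · exact ⟨∅, finite_empty, fun z hz => absurd (e ▸ hz : z ∈ (∅ : Set (Rn n))) id⟩
  obtain ⟨Q, hQ⟩ := Submodule.exists_isCompl P.direction
  let π := Q.projection P.direction hQ.symm
  have k : ∀ y, y ∈ P ↔ ∀ j, π y j + -π p j = 0 := fun y => by
    rw [← AffineSubspace.vsub_right_mem_direction_iff_mem hp,
      ← Submodule.projection_apply_eq_zero_iff hQ.symm, vsub_eq_sub, map_sub, sub_eq_add_neg]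
    exact funext_iff
  refine ⟨range fun j => (LinearMap.toContinuousLinearMap (LinearMap.proj j ∘ₗ π), -π p j),
    finite_range _, fun z hz y hy => (k y).2 fun j => ?_⟩
  have : SignType.sign (π y j + -π p j) = SignType.sign (π z j + -π p j) := hy _ ⟨j, rfl⟩
  rwa [(k z).1 hz j, sign_zero, sign_eq_zero_iff] at this

theorem KRef_pc {n d : ℕ} {Z : Set (Rn n)} (h : PC d Z) :
    ∃ L : Set ((Rn n →L[ℝ] ℝ) × ℝ), L.Finite ∧ ∀ z ∈ Z, dm (face L z) ≤ d := by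
  obtain ⟨S, hS, h1, h2⟩ := h
  choose L hL hP using KRef_aff (n := n)
  refine ⟨⋃ P ∈ S, L P, hS.biUnion fun P _ => hL P, fun z hz => ?_⟩
  obtain ⟨P, p1, p2⟩ := h2 z hz
  exact (dm_le_of_sub ((face_anti (subset_biUnion_of_mem (u := L) p1) z).trans (hP P z p2))).trans
    (h1 P p1)

namespace Kx
variable {Ω : Set (Rn 3)}

theorem refine (K : Kx Ω) (H : Rn 3 → Set ((Rn 3 →L[ℝ] ℝ) × ℝ)) (hf : ∀ x ∈ Ω, (H x).Finite)
    (hm : ∀ x ∈ Ω, ∀ y ∈ closure (K.cell x), H x ⊆ H y) :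
    ∃ K' : Kx Ω, ∀ x ∈ Ω, K'.cell x = K.cell x ∩ face (H x) x := by
  have hΩ : ∀ x ∈ Ω, ∀ y ∈ K.cell x, y ∈ Ω := fun x hx y hy => K.sub x hx (subset_closure hy)
  have hH : ∀ x ∈ Ω, ∀ y ∈ K.cell x, H y = H x := fun x hx y hy =>
    (hm y (hΩ x hx y hy) x (subset_closure (K.eqv x hx y hy ▸ K.mem x hx))).antisymm
      (hm x hx y (subset_closure hy))
  have hcl : ∀ x ∈ Ω, closure (K.cell x ∩ face (H x) x) = closure (K.cell x) ∩ cface (H x) x :=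
    fun x hx => by
    refine ((closure_inter_subset_inter_closure _ _).trans_eq (by rw [closure_face])).antisymm
      fun y hy => closure_mono (s := openSegment ℝ y x) ?_
        (closure_openSegment (𝕜 := ℝ) y x ▸ left_mem_segment ℝ y x)
    rintro _ ⟨a, b, ha, hb, hab, rfl⟩
    refine ⟨?_, fun A hA => by rw [St1_comb A y x hab, St1_mix (hy.2 A hA) ha.le hb]⟩
    convert seg_mem (K.cell_mem hx) hy.1 (K.mem x hx) (t := b) ⟨hb, by linarith⟩ using 1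
    rw [eq_sub_of_add_eq hab]
    module
  refine ⟨⟨fun x => K.cell x ∩ face (H x) x, fun x hx => ⟨K.mem x hx, mem_face_self _ _⟩,
    fun x hx y hy => by rw [K.eqv x hx y hy.1, hH x hx y hy.1, face_eq hy.2],
    fun x hx => (closure_mono inter_subset_left).trans (K.sub x hx),
    fun x hx => (K.cvx x hx).inter (convex_face _ _), fun x hx y hy z hz => ?_, fun x hx => ?_,
    fun x hx y hy => ?_, fun C hC hs => ?_⟩, fun _ _ => rfl⟩
  · obtain ⟨e, e0, he⟩ := K.opn x hx y hy.1 z hz.1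
    obtain ⟨ε, ε0, hε⟩ := face_open (hf x hx) hy.2
    have c : Tendsto (fun t : ℝ => ‖t • (y - z)‖) (𝓝[>] 0) (𝓝 ‖(0 : ℝ) • (y - z)‖) :=
      tendsto_nhdsWithin_of_tendsto_nhds (Continuous.tendsto (by fun_prop) 0)
    obtain ⟨t, h1, h2⟩ := ((c.eventually_lt_const (by simpa using ε0)).and
      (Ioo_mem_nhdsGT e0)).exists
    refine ⟨t, h2.1, ?_, hε _ ?_ (by rwa [add_sub_cancel_left])⟩
    · have := (K.cvx x hx).add_smul_mem hy.1 he (t := t / e)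
        ⟨(div_pos h2.1 e0).le, (div_le_one e0).2 h2.2.le⟩
      rwa [smul_smul, div_mul_cancel₀ _ e0.ne'] at this
    · have a := sub_mem_fdir (face_sub_cface _ _ hy.2)
      convert add_mem a (Submodule.smul_mem _ t
        (sub_mem a (sub_mem_fdir (face_sub_cface _ _ hz.2)))) using 1
      module
  · rw [hcl x hx]
    exact KRef_poly (K.poly x hx) (hf x hx) x
  · rw [hcl x hx] at hy ⊢
    exact inter_subset_inter (K.fr x hx y hy.1) ((face_anti (hm x hx y hy.1) y).trans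
      ((face_sub_cface _ _).trans (cface_sub hy.2)))
  · refine ((K.lf C hC hs).biUnion (t := fun σ => (fun x => K.cell x ∩ face (H x) x) ''
      {x ∈ C | K.cell x = σ}) ?_).subset ?_
    · rintro _ ⟨x, hx, rfl⟩
      refine ((finite_faces (hf x (hs hx))).image fun F => K.cell x ∩ F).subset ?_
      rintro _ ⟨y, ⟨hy, e⟩, rfl⟩
      exact ⟨_, ⟨y, rfl⟩, by beta_reduce; rw [hH x (hs hx) y (e ▸ K.mem y (hs hy)), e]⟩
    · rintro _ ⟨x, hx, rfl⟩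
      exact mem_biUnion (mem_image_of_mem _ hx) ⟨x, ⟨hx, rfl⟩, rfl⟩

theorem refine_pc (K : Kx Ω) (hΩ : IsOpen Ω) {ι : Type} (Z : ι → Set (Rn 3)) (d : ι → ℕ)
    (hpc : ∀ j, PC (d j) (Z j)) (hZ : ∀ j, Z j ⊆ Ω)
    (hlf : ∀ C, IsCompact C → C ⊆ Ω → {j | (Z j ∩ C).Nonempty}.Finite) :
    ∃ K' : Kx Ω, K.Ref K' ∧ (∀ j, Z j ⊆ K'.sk (d j)) ∧
      ∀ x ∈ Ω, (∀ j, ∀ z ∈ Z j, x ∉ closure (K.cell z)) → K'.cell x = K.cell x := by
  choose L hL hd using fun j => KRef_pc (hpc j)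
  obtain ⟨K', hK⟩ := K.refine (fun x => ⋃ j ∈ {j | ∃ z ∈ Z j, x ∈ closure (K.cell z)}, L j)
    (fun x hx => by
      refine Finite.biUnion ((hlf _ ((lf_cl (K := K) hΩ isCompact_singleton
        (singleton_subset_iff.2 hx)).isCompact_biUnion fun σ hσ => (cells_poly hσ.1).1)
        (iUnion₂_subset fun σ hσ => cl_sub hσ.1)).subset ?_) fun j _ => hL j
      rintro j ⟨z, hz, h⟩
      exact ⟨z, hz, mem_biUnion (x := K.cell z) ⟨K.cell_mem (hZ j hz), x, h, rfl⟩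
        (subset_closure (K.mem z (hZ j hz)))⟩)
    fun x _ y hy => biUnion_subset_biUnion_left fun j ⟨z, hz, h⟩ =>
      ⟨z, hz, closure_minimal (K.fr z (hZ j hz) x h) isClosed_closure hy⟩
  refine ⟨K', fun x hx => hK x hx ▸ inter_subset_left, fun j z hz => ⟨hZ j hz, ?_⟩,
    fun x hx h => ?_⟩
  · rw [hK z (hZ j hz)]
    refine (dm_mono (inter_subset_right.trans (face_anti (fun A hA => ?_) z))).trans (hd j z hz)
    exact mem_iUnion₂.2 ⟨j, ⟨z, hz, subset_closure (K.mem z (hZ j hz))⟩, hA⟩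
  · rw [hK x hx]
    refine inter_eq_left.2 fun y _ A hA => ?_
    obtain ⟨j, ⟨z, hz, k⟩, -⟩ := mem_iUnion₂.1 hA
    exact absurd k (h j z hz)

end Kx

end BEp
end
end

-- merged part: Pool.Agent.Work.MP_f0515e_an.D3.O3
section
/-! Chords of a compact set of irrational numbers.
Plan. Take `n` with `1 / n ≤ h`; for an integer `k` let `S k = S ∩ Icc (k / n) ((k + 1) / n)`, compact, nonempty for
finitely many `k` (`S` is bounded); `a k = sInf (S k)`, `b k = sSup (S k)` lie in `S k`. `C` is the set of the pairs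
`(a k, b k)` with `a k < b k`. For `k < k'`: `b k < (k + 1) / n ≤ k' / n ≤ a k'`, strictly since `b k` is irrational.
A point of `S` lies in `S k` for `k = ⌊n t⌋`, so it is `a k`, `b k` or strictly between. -/

open Set Metric Filter Topology Function BEv MeasureTheory
open scoped NNReal ENNReal

noncomputable section
namespace BEp

theorem o_chords {S : Set ℝ} (hS : IsCompact S) (hI : ∀ t ∈ S, Irrational t) {h : ℝ}
    (hh : 0 < h) : ∃ C : Set (ℝ × ℝ), C.Finite ∧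
      (∀ q ∈ C, q.1 ∈ S ∧ q.2 ∈ S ∧ q.1 < q.2 ∧ q.2 - q.1 ≤ h) ∧
      (∀ q ∈ C, ∀ q' ∈ C, q ≠ q' → Disjoint (Icc q.1 q.2) (Icc q'.1 q'.2)) ∧
      (S \ ⋃ q ∈ C, Ioo q.1 q.2).Finite := by
  obtain ⟨n, hn⟩ := exists_nat_one_div_lt hh
  set N : ℝ := n + 1 with hN
  have N0 : 0 < N := by positivity
  let T : ℤ → Set ℝ := fun k => S ∩ Icc (k / N) ((k + 1) / N)
  have hT : ∀ k, IsCompact (T k) := fun k => hS.inter_right isClosed_Icc
  obtain ⟨R, hR⟩ := hS.isBounded.exists_norm_le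
  have hK : {k | (T k).Nonempty}.Finite := by
    refine (finite_Icc ⌊-R * N - 1⌋ ⌈R * N⌉).subset ?_
    rintro k ⟨t, ht, h1, h2⟩
    have h3 := abs_le.1 (hR t ht)
    rw [div_le_iff₀ N0] at h1
    rw [le_div_iff₀ N0] at h2
    constructor
    · have : ((⌊-R * N - 1⌋ : ℤ) : ℝ) ≤ k := (Int.floor_le _).trans (by nlinarith [h3.1])
      exact_mod_cast this
    · have : (k : ℝ) ≤ (⌈R * N⌉ : ℤ) := le_trans (by nlinarith [h3.2]) (Int.le_ceil _)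
      exact_mod_cast this
  have ha : ∀ k, (T k).Nonempty → sInf (T k) ∈ T k := fun k => (hT k).sInf_mem
  have hb : ∀ k, (T k).Nonempty → sSup (T k) ∈ T k := fun k => (hT k).sSup_mem
  have hlt : ∀ k k', (T k).Nonempty → (T k').Nonempty → k < k' → sSup (T k) < sInf (T k') := by
    intro k k' h1 h2 h3
    have h4 : ((k : ℝ) + 1) / N ≤ k' / N :=
      div_le_div_of_nonneg_right (by exact_mod_cast h3) N0.le
    refine (lt_of_le_of_ne (hb k h1).2.2 ?_).trans_le (h4.trans (ha k' h2).2.1)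
    have := (hI _ (hb k h1).1).ne_rational (k + 1) (n + 1)
    push_cast at this
    exact this
  refine ⟨(fun k => (sInf (T k), sSup (T k))) '' {k | (T k).Nonempty ∧ sInf (T k) < sSup (T k)},
    (hK.subset fun k hk => hk.1).image _, ?_, ?_, ?_⟩
  · rintro _ ⟨k, ⟨h1, h2⟩, rfl⟩
    refine ⟨(ha k h1).1, (hb k h1).1, h2, ?_⟩
    have h3 := (ha k h1).2.1
    have h4 := (hb k h1).2.2
    rw [add_div] at h4
    simp only
    linarith
  · rintro _ ⟨k, ⟨h1, -⟩, rfl⟩ _ ⟨k', ⟨h2, -⟩, rfl⟩ hne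
    refine disjoint_left.2 fun t ht ht' => ?_
    rcases lt_trichotomy k k' with h3 | rfl | h3
    · exact (hlt k k' h1 h2 h3).not_ge (ht'.1.trans ht.2)
    · exact hne rfl
    · exact (hlt k' k h2 h1 h3).not_ge (ht.1.trans ht'.2)
  · refine ((hK.image fun k => sInf (T k)).union (hK.image fun k => sSup (T k))).subset ?_
    rintro t ⟨ht, ht'⟩
    have h1 : t ∈ T ⌊t * N⌋ := ⟨ht, (div_le_iff₀ N0).2 (Int.floor_le _),
      (le_div_iff₀ N0).2 (Int.lt_floor_add_one _).le⟩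
    rcases (csInf_le (hT _).bddBelow h1).eq_or_lt with h2 | h2
    · exact Or.inl ⟨_, ⟨t, h1⟩, h2⟩
    rcases (le_csSup (hT _).bddAbove h1).eq_or_lt with h3 | h3
    · exact Or.inr ⟨_, ⟨t, h1⟩, h3.symm⟩
    exact (ht' (mem_biUnion ⟨⌊t * N⌋, ⟨⟨t, h1⟩, h2.trans h3⟩, rfl⟩ ⟨h2, h3⟩)).elim

end BEp
end
end

-- merged part: Pool.Agent.Work.MP_f0515e_an.D3.SRig0
section
-- merged part: Pool.Agent.Work.MP_f0515e_an.D3.SFat0
section
/-! Fat beads: definitions. -/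

open Set Metric Filter Topology Function BEv
open scoped NNReal

noncomputable section
namespace BEp

/-- A bead with chart `Φ` round the star with centre `v` and marks `Mk`, with straight legs. -/
structure Bd0 {Ω : Set (Rn 3)} (K : Kx Ω) (f Φ : Rn 3 → Rn 3) (v : Rn 3) (Mk : Set (Rn 3)) :
    Prop where
  lh : LH Φ
  sub : Φ '' closedBall 0 1 ⊆ f '' Ω
  sin : ∀ m ∈ Mk, f '' segment ℝ v m ⊆ Φ '' closedBall 0 1
  star : ∀ y ∈ K.sk 1, f y ∈ Φ '' closedBall 0 1 → ∃ m ∈ Mk, y ∈ segment ℝ v m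
  mark : ∀ y ∈ K.sk 1, f y ∈ Φ '' sphere 0 1 → y ∈ Mk
  onS : ∀ m ∈ Mk, f m ∈ Φ '' sphere 0 1
  ray : ∀ m ∈ Mk, ∀ t : ℝ, 0 ≤ t → v + t • (m - v) ∈ Ω →
    f (v + t • (m - v)) ∈ Φ '' closedBall 0 1 → t ≤ 1
  leg : ∀ m ∈ Mk, Φ '' segment ℝ 0 (invFun Φ (f m)) = segment ℝ (Φ 0) (f m)

/-- Near `p` the bead is the half space `σ * (z j - p j) ≤ 0`. -/
def Gate (Φ : Rn 3 → Rn 3) (p : Rn 3) (j : Fin 3) (σ : ℝ) : Prop :=
  (σ = 1 ∨ σ = -1) ∧ ∀ᶠ z in 𝓝 p, (z ∈ Φ '' closedBall 0 1 ↔ σ * (z j - p j) ≤ 0) ∧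
    (z ∈ Φ '' sphere 0 1 ↔ z j = p j)

/-- Data for the rigid boxes: a correction of the target, beads, gates. -/
structure RigD where
  Θ : Rn 3 → Rn 3
  b : BdD
  j : Set (Rn 3) → Fin 3
  σ : Set (Rn 3) → ℝ

/-- `v` is a vertex in the rigid box `i`. -/
def RV {Ω : Set (Rn 3)} (K : Kx Ω) {ι : Type} (d : TopD ι) (i : ι) (v : Rn 3) : Prop :=
  v ∈ (d.B i).Q d.s 8 ∧ K.cell v = {v}

/-- Beads at the vertices of the rigid boxes. -/
structure Rig {Ω : Set (Rn 3)} (K : Kx Ω) (f : Rn 3 → Rn 3) {ι : Type} (d : TopD ι) (r : RigD) :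
    Prop where
  lh : LH r.Θ
  img : r.Θ '' (f '' Ω) = f '' Ω
  supp : ∀ z, r.Θ z ≠ z → ∃ i, ∃ x ∈ (d.B i).Q d.s 8, ‖z - (d.B i).aff x‖ ≤ d.ε i
  fix : ∀ y ∈ K.sk 1, (∀ i, y ∉ (d.B i).Q d.s 8) → r.Θ (f y) = f y
  fin : {v | ∃ i, RV K d i v}.Finite
  mk' : ∀ i v, RV K d i v → ∀ s, K.Fl v s → r.b.m s ∈ s
  bd : ∀ i v, RV K d i v →
    Bd0 K (r.Θ ∘ f) (r.b.Φ v) v {m | ∃ s, K.Fl v s ∧ m = r.b.m s}
  ctr : ∀ i v, RV K d i v → r.b.Φ v 0 = (d.B i).aff v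
  loc : ∀ i v, RV K d i v → ∀ z ∈ r.b.B v, ∃ x ∈ (d.B i).Q d.s 12,
    ‖z - (d.B i).aff x‖ ≤ d.ε i
  inner : ∀ i v, RV K d i v → ∀ s, K.Fl v s → closure s ⊆ (d.B i).Q d.s 8 →
    r.b.p (r.Θ ∘ f) s ∈ (d.B i).aff '' s ∧
    ∀ y : Rn 3, ‖y‖ ≤ 1 → (r.b.p (r.Θ ∘ f) s + r.b.M s y ∈ r.b.S v ↔ y 2 = 0)
  exit : ∀ i v, RV K d i v → ∀ s, K.Fl v s → ¬ closure s ⊆ (d.B i).Q d.s 8 →
    (∀ i', r.b.m s ∉ (d.B i').Q d.s 8) ∧ Gate (r.b.Φ v) (f (r.b.m s)) (r.j s) (r.σ s) ∧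
    ‖f (r.b.m s) - (d.B i).aff v‖ ≤ 2 * ‖f (r.b.m s) - f v‖ ∧
    (∀ z ∈ segment ℝ ((d.B i).aff v) (f (r.b.m s)), ∃ y ∈ segment ℝ v (r.b.m s),
      ‖z - f y‖ ≤ d.ε i) ∧
    ∀ x ∈ (d.B i).Q d.s 8, (d.B i).aff x ∈ segment ℝ ((d.B i).aff v) (f (r.b.m s)) → x = v
  meet : ∀ i v, RV K d i v → ∀ i' w, RV K d i' w → v ≠ w → ∀ x ∈ r.b.B v ∩ r.b.B w,
    ∃ s, K.Fl v s ∧ K.Fl w s ∧ closure s ⊆ (d.B i).Q d.s 8 ∧ x ∈ r.b.E (r.Θ ∘ f) s
  far : ∀ i, ∀ x ∈ (d.B i).Q d.s 8, ∀ y ∈ K.sk 1, y ∉ (d.B i).Q d.s 8 →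
    (∀ v s, RV K d i v → K.Fl v s → y ∈ segment ℝ v (r.b.m s) → y = r.b.m s) →
      2 * d.ε i ≤ ‖f y - (d.B i).aff x‖

end BEp
end
end

-- merged part: Pool.Agent.Work.MP_f0515e_an.D3.SRig0
section
/-! Rigid boxes: normal coordinates, arms, and the data chosen for the beads (definitions). -/

open Set Metric Filter Topology Function BEv
open scoped NNReal

noncomputable section
namespace BEp

/-- `L` extends the linear part of the box from the directions of the slice. -/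
structure Nm (B : Box 1) (s ε : ℝ) (L : Rn 3 ≃L[ℝ] Rn 3) : Prop where
  ext : ∀ z : Rn 3, (∀ l, l ∉ B.I → z l = 0) → L z = B.A z
  lo : ∀ z, 1000 * ε * ‖z‖ ≤ 3 * s * ‖L z‖
  hi : ∀ z, ‖L z‖ ≤ 2 * ‖B.A‖ * ‖z‖

/-- Normal coordinates in the target: the affine map becomes `x ↦ s⁻¹ • x`. -/
def nc (B : Box 1) (s : ℝ) (L : Rn 3 ≃L[ℝ] Rn 3) (y : Rn 3) : Rn 3 :=
  s⁻¹ • (L.symm (y - B.b) + B.c)

namespace TopD
variable {ι : Type} (d : TopD ι) (i : ι)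

/-- Width of the arms and size of the error, in normal coordinates. -/
def ww : ℝ := d.ε i / (2 * d.s * (1 + ‖(d.B i).A‖))
def dl : ℝ := 3 * d.ε' i / (1000 * d.ε i)

/-- Points of the coarse lattice. -/
def Lat (v : Rn 3) : Prop :=
  v ∈ (d.B i).slice ∧ ∀ l ∈ (d.B i).I, ∃ k : ℤ,
    v l = (d.B i).c l + d.s * ((d.B i).r + 8) + 16 * d.s * k

/-- The point at distance `u * s` from `v` in the direction `σ e_l`. -/
def pt (v : Rn 3) (l : Fin 3) (σ u : ℝ) : Rn 3 := v + (u * d.s * σ) • (Pi.single l 1 : Rn 3)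

/-- The coarse edge at `v` in the direction `σ e_l`. -/
def ed (v : Rn 3) (l : Fin 3) (σ : ℝ) : Set (Rn 3) := openSegment ℝ v (d.pt v l σ 16)

def Arm (v : Rn 3) (l : Fin 3) (σ : ℝ) : Prop :=
  v ∈ (d.B i).Q d.s 8 ∧ d.Lat i v ∧ l ∈ (d.B i).I ∧ (σ = 1 ∨ σ = -1)

def InE (v : Rn 3) (l : Fin 3) (σ : ℝ) : Prop :=
  d.Arm i v l σ ∧ d.pt v l σ 16 ∈ (d.B i).Q d.s 8

def ExE (v : Rn 3) (l : Fin 3) (σ : ℝ) : Prop :=
  d.Arm i v l σ ∧ d.pt v l σ 16 ∉ (d.B i).Q d.s 8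

end TopD

/-- `φ` passes the level `φ t` only at `t`, upwards. -/
def Up1 (φ : ℝ → ℝ) (t : ℝ) : Prop :=
  ∀ u ∈ Icc (0 : ℝ) 16, (u < t → φ u < φ t) ∧ (t < u → φ t < φ u)

/-- Choice of the marks, frames and gates. -/
structure MkS (f : Rn 3 → Rn 3) {ι : Type} (d : TopD ι) (L : ι → Rn 3 ≃L[ℝ] Rn 3)
    (m : Set (Rn 3) → Rn 3) (M : Set (Rn 3) → Rn 3 ≃L[ℝ] Rn 3) (j : Set (Rn 3) → Fin 3)
    (τ : Set (Rn 3) → ℝ) : Prop where
  inner : ∀ i v l σ, d.InE i v l σ → (∃ t ∈ Icc (7 : ℝ) 9, m (d.ed v l σ) = d.pt v l σ t ∧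
      Up1 (fun u => σ * nc (d.B i) d.s (L i) (f (d.pt v l σ u)) l) t) ∧
    ∀ y, (d.s⁻¹ • (L i).symm (M (d.ed v l σ) y)) l = d.ww i / 2 * y 2 ∧
      ‖hz l (d.s⁻¹ • (L i).symm (M (d.ed v l σ) y))‖ = d.ww i / 2 * ‖hz 2 y‖
  exit : ∀ i v l σ, d.ExE i v l σ → (τ (d.ed v l σ) = 1 ∨ τ (d.ed v l σ) = -1) ∧
    τ (d.ed v l σ) * σ * (d.B i).A (Pi.single l 1 : Rn 3) (j (d.ed v l σ)) =
      ‖(d.B i).A (Pi.single l 1 : Rn 3)‖ ∧
    ∃ t ∈ Icc (3 : ℝ) (7 / 2), m (d.ed v l σ) = d.pt v l σ t ∧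
      Up1 (fun u => τ (d.ed v l σ) * f (d.pt v l σ u) (j (d.ed v l σ))) t

/-- The correction `Θ` moves the inner marks onto the axes. -/
structure ThS (f : Rn 3 → Rn 3) {ι : Type} (d : TopD ι) (L : ι → Rn 3 ≃L[ℝ] Rn 3)
    (m : Set (Rn 3) → Rn 3) (Θ : Rn 3 → Rn 3) : Prop where
  lh : LH Θ
  supp : ∀ z, Θ z ≠ z → ∃ i v l σ, d.InE i v l σ ∧
    ‖nc (d.B i) d.s (L i) z - nc (d.B i) d.s (L i) (f (m (d.ed v l σ)))‖ < d.ww i / 4
  mov : ∀ i v l σ, d.InE i v l σ → ∀ z,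
    ‖nc (d.B i) d.s (L i) z - nc (d.B i) d.s (L i) (f (m (d.ed v l σ)))‖ < d.ww i / 4 →
    nc (d.B i) d.s (L i) (Θ z) l = nc (d.B i) d.s (L i) z l ∧
    ‖nc (d.B i) d.s (L i) (Θ z) - nc (d.B i) d.s (L i) z‖ ≤ d.dl i
  mark : ∀ i v l σ, d.InE i v l σ →
    hz l (nc (d.B i) d.s (L i) (Θ (f (m (d.ed v l σ)))) - d.s⁻¹ • v) = 0

/-- Gauge of one arm. -/
def armN (w : ℝ) (l : Fin 3) (σ : ℝ) (T : Rn 3 → ℝ) (z : Rn 3) : ℝ :=
  max (max (T z) ((2 * T z + 2 * (‖hz l z‖ / w)) / 3)) (max (‖hz l z‖ / w) (-(σ * z l) / w))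

/-- Gauge of the cross. -/
def crossN (w : ℝ) (S : Finset (Fin 3 × ℝ)) (T : Fin 3 × ℝ → Rn 3 → ℝ) (z : Rn 3) : ℝ :=
  cmin S (‖z‖ / w) fun a => armN w a.1 a.2 (T a) z

/-- The top functional of an arm. -/
structure ArmOk (w : ℝ) (l : Fin 3) (σ : ℝ) (T : Rn 3 → ℝ) : Prop where
  sg : σ = 1 ∨ σ = -1
  lin : ∃ T' : Rn 3 →L[ℝ] ℝ, T = T'
  est : ∃ H ∈ Icc (2 : ℝ) 10, ∀ z, |H * T z - σ * z l| ≤ ‖hz l z‖ / (100 * w)

open Classical in
/-- The top functional of the arm at `v` in the direction `a`. -/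
def topT (f : Rn 3 → Rn 3) {ι : Type} (d : TopD ι) (L : ι → Rn 3 ≃L[ℝ] Rn 3) (r : RigD) (i : ι)
    (v : Rn 3) (a : Fin 3 × ℝ) (z : Rn 3) : ℝ :=
  if d.pt v a.1 a.2 16 ∈ (d.B i).Q d.s 8 then
    z a.1 / (nc (d.B i) d.s (L i) (f (r.b.m (d.ed v a.1 a.2))) - d.s⁻¹ • v) a.1
  else (d.s • L i z) (r.j (d.ed v a.1 a.2)) /
    (f (r.b.m (d.ed v a.1 a.2)) - (d.B i).aff v) (r.j (d.ed v a.1 a.2))

/-- Directions of the arms. -/
def dirs (B : Box 1) : Finset (Fin 3 × ℝ) := (B.I : Finset (Fin 3)) ×ˢ ({1, -1} : Finset ℝ)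

/-- Gauge of the bead at `v`, in target coordinates. -/
def bdN (f : Rn 3 → Rn 3) {ι : Type} (d : TopD ι) (L : ι → Rn 3 ≃L[ℝ] Rn 3) (r : RigD) (i : ι)
    (v z : Rn 3) : ℝ :=
  crossN (d.ww i) (dirs (d.B i)) (topT f d L r i v) (nc (d.B i) d.s (L i) z - d.s⁻¹ • v)

/-- All the choices. -/
structure RgS {Ω : Set (Rn 3)} (K : Kx Ω) (f : Rn 3 → Rn 3) {ι : Type} (d : TopD ι)
    (L : ι → Rn 3 ≃L[ℝ] Rn 3) (r : RigD) : Prop where
  nm : ∀ i, Nm (d.B i) d.s (d.ε i) (L i)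
  mks : MkS f d L r.b.m r.b.M r.j r.σ
  ths : ThS f d L r.b.m r.Θ
  lh : ∀ i v, RV K d i v → LH (r.b.Φ v)
  hom : ∀ i v, RV K d i v → ∀ x (t : ℝ), 0 ≤ t →
    r.b.Φ v (t • x) = (d.B i).aff v + t • (r.b.Φ v x - (d.B i).aff v)
  gau : ∀ i v, RV K d i v → ∀ x, bdN f d L r i v (r.b.Φ v x) = ‖x‖

end BEp
end
end
end
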