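import Pool.Agent.Work.MP_f0515e_an.D3.NLn
import Pool.Agent.Work.MP_f0515e_an.D3.O1
import Pool.Agent.Work.MP_f0515e_an.D3.O2
import Pool.Agent.Work.MP_f0515e_an.D3.SRig0
import Pool.Agent.Work.MP_f0515e_an.D3.KA4
import Pool.Agent.Work.MP_f0515e_an.D3.KBase
import Pool.Agent.Work.MP_f0515e_an.D3.PGl

-- merged part: Pool.Agent.Work.MP_f0515e_an.D3.O4
section
/-! The analysis on the unit interval. -/

open Set Metric Filter Topology Function BEv MeasureTheory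
open scoped NNReal ENNReal

noncomputable section
namespace BEp

theorem O4_add (ν : Measure ℝ) {p : ℝ} (hp : 1 ≤ p) {φ ψ : ℝ → ℝ} (h : Measurable φ) :
    ∫⁻ t, ENNReal.ofReal (φ t + ψ t) ^ p ∂ν ≤ 2 ^ (p - 1) *
      (∫⁻ t, ENNReal.ofReal (φ t) ^ p ∂ν + ∫⁻ t, ENNReal.ofReal (ψ t) ^ p ∂ν) := by
  rw [← lintegral_add_left (h.ennreal_ofReal.pow_const p), ← lintegral_const_mul' _ _
    (ENNReal.rpow_ne_top_of_nonneg (sub_nonneg.2 hp) ENNReal.ofNat_ne_top)]
  exact lintegral_mono fun t => (ENNReal.rpow_le_rpow ENNReal.ofReal_add_le (by linarith)).trans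
    (ENNReal.rpow_add_le_mul_rpow_add_rpow _ _ hp)

theorem O4_ind (ν : Measure ℝ) {p : ℝ} (hp : 1 ≤ p) {A : Set ℝ} (hA : MeasurableSet A)
    (φ : ℝ → ℝ) : ∫⁻ t, ENNReal.ofReal (A.indicator φ t) ^ p ∂ν =
      ∫⁻ t in A, ENNReal.ofReal (φ t) ^ p ∂ν := by
  rw [← lintegral_indicator hA]
  refine lintegral_congr fun t => ?_
  by_cases h : t ∈ A
  · simp [h]
  · simp [h, show 0 < p by linarith]

theorem O4_mul (ν : Measure ℝ) {p a : ℝ} (hp : 1 ≤ p) (ha : 0 ≤ a) (φ : ℝ → ℝ) :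
    ∫⁻ t, ENNReal.ofReal (a * φ t) ^ p ∂ν =
      ENNReal.ofReal a ^ p * ∫⁻ t, ENNReal.ofReal (φ t) ^ p ∂ν := by
  rw [← lintegral_const_mul' _ _ (ENNReal.rpow_ne_top_of_nonneg (by linarith) ENNReal.ofReal_ne_top)]
  exact lintegral_congr fun t => by
    rw [ENNReal.ofReal_mul ha, ENNReal.mul_rpow_of_nonneg _ _ (by linarith)]

theorem O4_cone {y : ℝ → ℝ} {s t a b δ : ℝ}
    (h1 : ∀ x, |x - s| < 2 * δ → x ≠ s → 0 < a * ((x - s) * (y x - y s)))
    (h2 : ∀ x, |x - t| < 2 * δ → x ≠ t → 0 < b * ((x - t) * (y x - y t)))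
    (hst : |t - s| < δ) (hy : y s < y t) {x : ℝ} (hx : |x - s| < δ) :
    (y s ≤ y x ∧ y x ≤ y t ↔ x ∈ uIcc s t) ∧ (y x = y s → x = s) ∧ (y x = y t → x = t) := by
  have ne : t ≠ s := fun e => hy.ne (e ▸ rfl)
  have k0 := abs_nonneg (t - s)
  have k1 := h1 t (by linarith) ne
  have k2 := h2 s (by rw [abs_sub_comm]; linarith) ne.symm
  have k3 := h1 x (by linarith)
  have k4 := h2 x (by
    have := abs_sub_le x s t
    rw [abs_sub_comm s t] at this
    linarith)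
  have p1 : 0 < a * (t - s) := by
    by_contra k
    linarith only [k1, k, hy, mul_nonneg (neg_nonneg.2 (not_lt.1 k)) (sub_pos.2 hy).le]
  have p2 : 0 < b * (t - s) := by
    by_contra k
    linarith only [k2, k, hy, mul_nonneg (neg_nonneg.2 (not_lt.1 k)) (sub_pos.2 hy).le]
  refine ⟨?_, fun e => by_contra fun k => by simpa [e] using k3 k,
    fun e => by_contra fun k => by simpa [e] using k4 k⟩
  rcases lt_or_gt_of_ne ne with h | h
  · have a0 : a < 0 := by (refine lt_of_not_ge fun h_nl => ?_; linarith only [h_nl, p1, h, mul_nonneg_of_nonpos_of_nonpos (le_of_lt (Mathlib.Tactic.Linarith.sub_neg_of_lt h)) (Mathlib.Tactic.Linarith.sub_nonpos_of_le h_nl)])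
    have b0 : b < 0 := by (refine lt_of_not_ge fun h_nl => ?_; linarith only [h_nl, k1, k2, a0, mul_nonneg_of_nonpos_of_nonpos (le_of_lt (Mathlib.Tactic.Linarith.sub_neg_of_lt k1)) (Mathlib.Tactic.Linarith.sub_nonpos_of_le h_nl), mul_pos_of_neg_of_neg (Mathlib.Tactic.Linarith.sub_neg_of_lt k2) (Mathlib.Tactic.Linarith.sub_neg_of_lt a0)])
    rw [uIcc_of_ge h.le]
    have q1 := fun k => neg_of_mul_pos_right (k3 k) a0.le
    have q2 := fun k => neg_of_mul_pos_right (k4 k) b0.le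
    refine ⟨fun k => ⟨not_lt.1 fun m => ?_, not_lt.1 fun m => ?_⟩, fun k => ⟨?_, ?_⟩⟩
    · linarith only [q2, m, k, q2 m.ne, k.2, mul_nonneg_of_nonpos_of_nonpos (Mathlib.Tactic.Linarith.sub_nonpos_of_le k.right) (le_of_lt (Mathlib.Tactic.Linarith.sub_neg_of_lt m))]
    · linarith only [q1, m, k, q1 m.ne', k.1, mul_nonneg_of_nonpos_of_nonpos (Mathlib.Tactic.Linarith.sub_nonpos_of_le k.left) (le_of_lt (Mathlib.Tactic.Linarith.sub_neg_of_lt m))]
    · rcases k.2.eq_or_lt with e | m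
      · rw [e]
      · (refine le_of_not_gt fun h_nl => ?_; linarith only [h_nl, q1, m, q1 m.ne, mul_pos_of_neg_of_neg (Mathlib.Tactic.Linarith.sub_neg_of_lt m) (Mathlib.Tactic.Linarith.sub_neg_of_lt h_nl)])
    · rcases k.1.eq_or_lt with e | m
      · rw [e]
      · (refine le_of_not_gt fun h_nl => ?_; linarith only [h_nl, q2, m, q2 m.ne', mul_pos_of_neg_of_neg (Mathlib.Tactic.Linarith.sub_neg_of_lt m) (Mathlib.Tactic.Linarith.sub_neg_of_lt h_nl)])
  · have a0 : 0 < a := by (refine lt_of_not_ge fun h_nl => ?_; linarith only [h_nl, p1, h, mul_nonneg_of_nonpos_of_nonpos (le_of_lt (Mathlib.Tactic.Linarith.sub_neg_of_lt h)) (Mathlib.Tactic.Linarith.sub_nonpos_of_le h_nl)])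
    have b0 : 0 < b := by (refine lt_of_not_ge fun h_nl => ?_; linarith only [h_nl, k1, k2, a0, mul_nonneg_of_nonpos_of_nonpos (le_of_lt (Mathlib.Tactic.Linarith.sub_neg_of_lt k1)) (Mathlib.Tactic.Linarith.sub_nonpos_of_le h_nl), mul_pos_of_neg_of_neg (Mathlib.Tactic.Linarith.sub_neg_of_lt k2) (Mathlib.Tactic.Linarith.sub_neg_of_lt a0)])
    rw [uIcc_of_le h.le]
    have q1 := fun k => (mul_pos_iff_of_pos_left a0).1 (k3 k)
    have q2 := fun k => (mul_pos_iff_of_pos_left b0).1 (k4 k)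
    refine ⟨fun k => ⟨not_lt.1 fun m => ?_, not_lt.1 fun m => ?_⟩, fun k => ⟨?_, ?_⟩⟩
    · linarith only [q1, m, k, q1 m.ne, k.1, mul_nonneg_of_nonpos_of_nonpos (Mathlib.Tactic.Linarith.sub_nonpos_of_le k.left) (le_of_lt (Mathlib.Tactic.Linarith.sub_neg_of_lt m))]
    · linarith only [q2, m, k, q2 m.ne', k.2, mul_nonneg_of_nonpos_of_nonpos (Mathlib.Tactic.Linarith.sub_nonpos_of_le k.right) (le_of_lt (Mathlib.Tactic.Linarith.sub_neg_of_lt m))]
    · rcases k.1.eq_or_lt with e | m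
      · rw [e]
      · (refine le_of_not_gt fun h_nl => ?_; linarith only [h_nl, q1, m, q1 m.ne', mul_pos_of_neg_of_neg (Mathlib.Tactic.Linarith.sub_neg_of_lt m) (Mathlib.Tactic.Linarith.sub_neg_of_lt h_nl)])
    · rcases k.2.eq_or_lt with e | m
      · rw [e]
      · (refine le_of_not_gt fun h_nl => ?_; linarith only [h_nl, q2, m, q2 m.ne, mul_pos_of_neg_of_neg (Mathlib.Tactic.Linarith.sub_neg_of_lt m) (Mathlib.Tactic.Linarith.sub_neg_of_lt h_nl)])

theorem O4_slope {g : ℝ → Rn 3} {w : Rn 3} {s s' t κ : ℝ} (ne : s ≠ s') (ht : t ∈ uIcc s s')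
    (h1 : ‖g s - g t - (s - t) • w‖ ≤ κ * |s - t|)
    (h2 : ‖g s' - g t - (s' - t) • w‖ ≤ κ * |s' - t|) :
    ‖(s' - s)⁻¹ • (g s' - g s) - w‖ ≤ κ := by
  have k : s' - s ≠ 0 := sub_ne_zero.2 ne.symm
  have e : (s' - s)⁻¹ • (g s' - g s) - w =
      (s' - s)⁻¹ • ((g s' - g t - (s' - t) • w) - (g s - g t - (s - t) • w)) := by
    have : w = (s' - s)⁻¹ • ((s' - s) • w) := by rw [smul_smul, inv_mul_cancel₀ k, one_smul]
    conv_lhs => rw [this]
    module
  have e2 : |s - t| + |s' - t| = |s' - s| := by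
    rcases mem_uIcc.1 ht with m | m
    · rw [abs_of_nonpos (by linarith [m.1]), abs_of_nonneg (by linarith [m.2]),
        abs_of_nonneg (by linarith [m.1, m.2])]
      ring
    · rw [abs_of_nonneg (by linarith [m.2]), abs_of_nonpos (by linarith [m.1]),
        abs_of_nonpos (by linarith [m.1, m.2])]
      ring
  rw [e, norm_smul, norm_inv, Real.norm_eq_abs, inv_mul_le_iff₀ (abs_pos.2 k), ← e2]
  exact (norm_sub_le _ _).trans (by linarith)

theorem O4_var {g d : ℝ → Rn 3} (hi : Integrable d) (hg : ∀ s t, g t - g s = ∫ x in s..t, d x)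
    {u u' : ℝ} (h : u ≤ u') :
    eVariationOn g (Icc u u') ≤ ENNReal.ofReal (∫ x in u..u', ‖d x‖) := by
  have hn := fun s t => hi.norm.intervalIntegrable (a := s) (b := t)
  have e : ∀ s t, (∫ x in u..t, ‖d x‖) - ∫ x in u..s, ‖d x‖ = ∫ x in s..t, ‖d x‖ := fun s t =>
    intervalIntegral.integral_interval_sub_left (hn _ _) (hn _ _)
  have hm : MonotoneOn (fun t => ∫ x in u..t, ‖d x‖) (Icc u u') := fun s _ t _ hst =>
    sub_nonneg.1 (e s t ▸ intervalIntegral.integral_nonneg hst fun x _ => norm_nonneg _)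
  have k := (hm.eVariationOn_eq (left_mem_Icc.2 h) (right_mem_Icc.2 h)).le
  rw [inter_self, intervalIntegral.integral_same, sub_zero] at k
  refine le_trans (iSup_mono fun q => Finset.sum_le_sum fun i _ => ?_) k
  rw [edist_dist, edist_dist, dist_eq_norm, Real.dist_eq, hg, e]
  exact ENNReal.ofReal_le_ofReal intervalIntegral.norm_integral_le_abs_integral_norm

theorem O4_trunc {φ : ℝ → ℝ} (hm : Measurable φ) (hi : Integrable φ) (h0 : ∀ t, 0 ≤ φ t) {η : ℝ}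
    (hη : 0 < η) : ∃ N : ℝ, 0 ≤ N ∧ ∀ s t, s ≤ t →
      (∫ x in s..t, φ x) - η ≤ ∫ x in s..t, min (φ x) N := by
  have h1 : ∀ n : ℕ, ∀ x, ‖φ x - min (φ x) n‖ ≤ φ x := fun n x => by
    rw [Real.norm_eq_abs, abs_of_nonneg (sub_nonneg.2 (min_le_left _ _))]
    linarith [le_min (h0 x) (Nat.cast_nonneg (α := ℝ) n)]
  have h2 : ∀ n : ℕ, AEStronglyMeasurable (fun x => φ x - min (φ x) n) volume := fun n =>
    (hm.sub (hm.min measurable_const)).aestronglyMeasurable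
  have hT := tendsto_integral_of_dominated_convergence (f := fun _ => (0 : ℝ)) φ h2 hi
    (fun n => Eventually.of_forall (h1 n)) (Eventually.of_forall fun x =>
      tendsto_const_nhds.congr' ((tendsto_natCast_atTop_atTop.eventually_ge_atTop (φ x)).mono
        fun n hn => by simp [min_eq_left hn]))
  rw [integral_zero] at hT
  obtain ⟨n, hn⟩ := (hT.eventually (ge_mem_nhds hη)).exists
  have h3 : Integrable fun x => φ x - min (φ x) n := hi.mono' (h2 n) (Eventually.of_forall (h1 n))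
  refine ⟨n, Nat.cast_nonneg n, fun s t hst => ?_⟩
  have h4 : ∫ x in s..t, (φ x - min (φ x) n) ≤ η := by
    rw [intervalIntegral.integral_of_le hst]
    exact (setIntegral_le_integral h3
      (Eventually.of_forall fun x => sub_nonneg.2 (min_le_left _ _))).trans hn
  have h5 := intervalIntegral.integral_sub (hi.intervalIntegrable (a := s) (b := t))
    h3.intervalIntegrable
  simp only [sub_sub_cancel] at h5
  linarith

theorem O4_gap {U : Set ℝ} (h : U.Finite) :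
    ∃ γ : ℝ, 0 < γ ∧ ∀ u ∈ U, ∀ u' ∈ U, u < u' → γ ≤ u' - u := by
  rcases eq_empty_or_nonempty {q ∈ U ×ˢ U | q.1 < q.2} with k | k
  · exact ⟨1, one_pos, fun u hu u' hu' m =>
      (eq_empty_iff_forall_notMem.1 k (u, u') ⟨⟨hu, hu'⟩, m⟩).elim⟩
  · obtain ⟨q, hq, m⟩ := exists_min_image _ (fun q => q.2 - q.1)
      ((h.prod h).subset (sep_subset _ _)) k
    exact ⟨_, sub_pos.2 hq.2, fun u hu u' hu' k => m (u, u') ⟨⟨hu, hu'⟩, k⟩⟩

theorem O4_glob {g d : ℝ → Rn 3} {ν : Measure ℝ} [IsFiniteMeasure ν] (hν : ν ≪ volume)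
    (hs : ∀ᵐ t ∂ν, t ∈ Ioo (0 : ℝ) 1) (hd : Measurable d) (hi : Integrable d)
    (hg : ∀ s t, g t - g s = ∫ x in s..t, d x) {p C0 : ℝ} (hp : 1 ≤ p) (hC : 0 ≤ C0)
    (hint : ∫⁻ t, ‖d t‖ₑ ^ p ∂ν ≠ ⊤) {e : ℝ≥0∞} (he : e ≠ 0) :
    ∃ δ : ℝ, 0 < δ ∧ ∀ h : ℝ, 0 < h → ∃ C U F P φ, OneD g d ν p C0 e δ h C U F P φ := by
  have hp0 : 0 < p := by linarith
  have eg : g = fun t => g 0 + ∫ x in (0 : ℝ)..t, d x := funext fun t => by rw [← hg]; abel
  have hc : Continuous g := eg ▸ continuous_const.add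
    (intervalIntegral.continuous_primitive (fun _ _ => hi.intervalIntegrable) 0)
  have hD : Measurable fun t => ‖d t‖ₑ ^ p := hd.enorm.pow_const p
  have := isFiniteMeasure_withDensity hint
  have hμ : ∀ᵐ t ∂ν.withDensity fun t => ‖d t‖ₑ ^ p,
      t ∈ Ioo (0 : ℝ) 1 ∧ Irrational t ∧ d t ≠ 0 ∧ HasDerivAt g (d t) t := by
    rw [ae_withDensity_iff hD]
    filter_upwards [hs, hν.ae_le ((countable_range ((↑) : ℚ → ℝ)).ae_notMem volume),
      hν.ae_le (_root_.LocallyIntegrable.ae_hasDerivAt_integral hi.locallyIntegrable)]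
      with t h1 h2 h3 h4
    exact ⟨h1, h2, fun k => h4 (by simp [k, hp0]), eg ▸ (h3 0).const_add _⟩
  set c : ℝ≥0∞ := 2 ^ (p - 1)
  set a : ℝ≥0∞ := ENNReal.ofReal (C0 + 1) ^ p
  have c1 : c ≠ ⊤ := ENNReal.rpow_ne_top_of_nonneg (sub_nonneg.2 hp) ENNReal.ofNat_ne_top
  have a1 : a ≠ ⊤ := ENNReal.rpow_ne_top_of_nonneg hp0.le ENNReal.ofReal_ne_top
  obtain ⟨ε0, hε0, hT⟩ := ENNReal.exists_nnreal_pos_mul_lt
    (a := c * (1 + c * (1 + c * (1 + a * (c * 2 + 1))))) (by finiteness) he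
  have hε : (ε0 : ℝ≥0∞) ≠ 0 := ENNReal.coe_ne_zero.2 hε0.ne'
  generalize (ε0 : ℝ≥0∞) = ε at hT hε
  obtain ⟨κ, hκ1, hκ⟩ : ∃ κ : ℝ, ENNReal.ofReal κ ^ p * ν univ ≤ ε ∧ 0 < κ := by
    have k : Tendsto (fun κ : ℝ => ENNReal.ofReal κ ^ p * ν univ) (𝓝 0) (𝓝 0) := by
      have := ENNReal.Tendsto.mul_const (b := ν univ) ((ENNReal.continuous_rpow_const (y := p)).comp
        ENNReal.continuous_ofReal |>.tendsto 0) (Or.inr (measure_ne_top _ _))
      simpa [hp0] using this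
    exact (((k.eventually (ge_mem_nhds (pos_iff_ne_zero.2 hε))).filter_mono
      nhdsWithin_le_nhds).and (self_mem_nhdsWithin (s := Ioi 0))).exists
  obtain ⟨S, δ0, M, cl, hS, hδ0, hSμ, hS1, hS2⟩ := o_good hc hd hμ hκ hε
  have mS := hS.measurableSet
  refine ⟨δ0 / 2, half_pos hδ0, fun h hh => ?_⟩
  obtain ⟨h', ⟨t1, t2⟩, t3⟩ : ∃ h' : ℝ, (ENNReal.ofReal (M + κ) ^ p *
      ν.restrict Sᶜ (cthickening h' S) ≤ ε ∧ h' < min h (δ0 / 2)) ∧ 0 < h' := by
    have k := ENNReal.Tendsto.const_mul (a := ENNReal.ofReal (M + κ) ^ p)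
      (tendsto_measure_cthickening_of_isCompact (μ := ν.restrict Sᶜ) hS)
      (Or.inr (ENNReal.rpow_ne_top_of_nonneg hp0.le ENNReal.ofReal_ne_top))
    rw [Measure.restrict_apply mS, inter_compl_self, measure_empty, mul_zero] at k
    exact ((((k.eventually (ge_mem_nhds (pos_iff_ne_zero.2 hε))).and
      (gt_mem_nhds (lt_min hh (half_pos hδ0)))).filter_mono nhdsWithin_le_nhds).and
      (self_mem_nhdsWithin (s := Ioi 0))).exists
  rw [lt_min_iff] at t2
  obtain ⟨C', c1, c2, c3, c4⟩ := o_chords hS (fun t ht => (hS1 t ht).2.1) t3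
  set W : Set ℝ := ⋃ r ∈ C', Ioo r.1 r.2
  have mW : MeasurableSet W := (isOpen_biUnion fun _ _ => isOpen_Ioo).measurableSet
  set C : Set (ℝ × ℝ × Fin 3) := {q | ∃ r ∈ C', q.2.2 = cl r.1 ∧ g q.1 q.2.2 < g q.2.1 q.2.2 ∧
    ((q.1, q.2.1) = r ∨ (q.2.1, q.1) = r)}
  set U : Set ℝ := {0, 1} ∪ (Prod.fst '' C' ∪ Prod.snd '' C')
  have hU : U.Finite := (toFinite _).union ((c1.image _).union (c1.image _))
  have US : U ⊆ Icc 0 1 := by
    have : S ⊆ Icc 0 1 := fun t ht => ⟨by linarith only [t3, t2, hS1, ht, (hS1 t ht).1.1], by linarith [(hS1 t ht).1.2]⟩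
    rintro _ ((rfl | rfl) | ⟨r, hr, rfl⟩ | ⟨r, hr, rfl⟩)
    exacts [left_mem_Icc.2 zero_le_one, right_mem_Icc.2 zero_le_one, this (c2 r hr).1,
      this (c2 r hr).2.1]
  have cr : ∀ r ∈ C', cl r.2 = cl r.1 := fun r hr => hS2 _ (c2 r hr).1 _ (c2 r hr).2.1 (by
    rw [abs_of_pos (sub_pos.2 (c2 r hr).2.2.1)]
    linarith only [t3, t2, c2, hr, (c2 r hr).2.2.2])
  have key : ∀ q ∈ C, ∃ r ∈ C', uIcc q.1 q.2.1 = Icc r.1 r.2 ∧ uIoo q.1 q.2.1 = Ioo r.1 r.2 ∧
      q.1 ∈ S ∧ q.2.1 ∈ S ∧ q.1 ∈ U ∧ q.2.1 ∈ U ∧ q.1 ≠ q.2.1 ∧ |q.2.1 - q.1| ≤ h' ∧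
      cl q.1 = q.2.2 ∧ cl q.2.1 = q.2.2 ∧ g q.1 q.2.2 < g q.2.1 q.2.2 := by
    rintro q ⟨r, hr, k1, k2, rfl | rfl⟩
    · obtain ⟨m1, m2, m3, m4⟩ := c2 _ hr
      exact ⟨_, hr, uIcc_of_le m3.le, uIoo_of_lt m3, m1, m2, Or.inr (Or.inl ⟨_, hr, rfl⟩),
        Or.inr (Or.inr ⟨_, hr, rfl⟩), m3.ne, by rwa [abs_of_pos (sub_pos.2 m3)], k1.symm,
        (cr _ hr).trans k1.symm, k2⟩
    · obtain ⟨m1, m2, m3, m4⟩ := c2 _ hr
      exact ⟨_, hr, uIcc_of_ge m3.le, uIoo_of_gt m3, m2, m1, Or.inr (Or.inr ⟨_, hr, rfl⟩),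
        Or.inr (Or.inl ⟨_, hr, rfl⟩), m3.ne', by rwa [abs_sub_comm, abs_of_pos (sub_pos.2 m3)],
        (cr _ hr).trans k1.symm, k1.symm, k2⟩
  have sur : ∀ r ∈ C', ∃ q ∈ C, uIoo q.1 q.2.1 = Ioo r.1 r.2 := fun r hr => by
    obtain ⟨m1, m2, m3, m4⟩ := c2 _ hr
    have k := ((hS1 _ m1).2.2.2 r.2 (by rw [abs_of_pos (sub_pos.2 m3)]; linarith)).2 m3.ne'
    rcases lt_trichotomy (g r.1 (cl r.1)) (g r.2 (cl r.1)) with m | m | m
    · exact ⟨(r.1, r.2, cl r.1), ⟨r, hr, rfl, m, Or.inl rfl⟩, uIoo_of_lt m3⟩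
    · simp [m] at k
    · exact ⟨(r.2, r.1, cl r.1), ⟨r, hr, rfl, m, Or.inr rfl⟩, uIoo_of_gt m3⟩
  obtain ⟨γ, hγ, hγ'⟩ := O4_gap hU
  have hη : 0 < κ * γ / 2 := by positivity
  obtain ⟨N, hN, hN'⟩ := O4_trunc hd.norm hi.norm (fun t => norm_nonneg _) hη
  have mh : Measurable fun t => min ‖d t‖ N := hd.norm.min measurable_const
  obtain ⟨P, v, F, p1, p2, p3, p4, p5, p6, p7⟩ := o_profile (ν := ν.restrict Wᶜ)
    (Measure.absolutelyContinuous_restrict.trans hν) (mh.add_const κ) (N := N + κ) hκ.le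
    (fun t => le_add_of_nonneg_left (le_min (norm_nonneg _) hN))
    (fun t => add_le_add (min_le_right _ _) le_rfl) hp0.le hη hε
  have M0 : ∀ t, 0 ≤ (W \ S).indicator (fun _ => M + κ) t := fun t =>
    indicator_nonneg (fun x hx => by
      obtain ⟨r, hr, -⟩ := mem_iUnion₂.1 hx.1
      linarith only [hκ, hS1, c2, hr, (hS1 _ (c2 r hr).1).2.2.1, norm_nonneg (d r.1)]) t
  have d0 : ∀ t, 0 ≤ Sᶜ.indicator (fun t => ‖d t‖) t := indicator_nonneg fun _ _ => norm_nonneg _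
  have v0 : ∀ t, 0 ≤ (C0 + 1) * Wᶜ.indicator v t := fun t =>
    mul_nonneg (by linarith only [hC]) (indicator_nonneg (fun x _ => p4 x) t)
  have m1 : Measurable (Sᶜ.indicator fun t => ‖d t‖) := hd.norm.indicator mS.compl
  have m2 : Measurable ((W \ S).indicator fun _ => M + κ) := measurable_const.indicator (mW.diff mS)
  have hI : ∀ A, MeasurableSet A → ∫⁻ t in A, ENNReal.ofReal ‖d t‖ ^ p ∂ν =
      (ν.withDensity fun t => ‖d t‖ₑ ^ p) A := fun A hA => by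
    simp only [withDensity_apply _ hA, ofReal_norm]
  refine ⟨C, U, F ∪ (S \ W), P, fun t => κ + (Sᶜ.indicator (fun t => ‖d t‖) t +
      ((W \ S).indicator (fun _ => M + κ) t + (C0 + 1) * Wᶜ.indicator v t)), ?_, hU, p3.union c4,
    Or.inl (Or.inl rfl), Or.inl (Or.inr rfl), US, p1, fun s hs t ht hst => ?_,
    (m1.add (m2.add ((p2.indicator mW.compl).const_mul _))).const_add _,
    fun t => by linarith only [hκ, M0, d0, v0, M0 t, d0 t, v0 t], ?_, fun q hq => ?_, fun q hq x hx => ?_,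
    fun q hq q' hq' ne => ?_, fun q hq t ht => ?_, ?_, fun t ht hF hq => ?_⟩
  · refine (hU.prod (hU.prod (toFinite univ))).subset fun q hq => ?_
    obtain ⟨r, -, -, -, -, -, k1, k2, -⟩ := key q hq
    exact ⟨k1, k2, trivial⟩
  · have := (p5 s t hs.1 hst.le ht.2).1
    linarith only [this, hκ, hst, mul_pos hκ (sub_pos.2 hst)]
  · have i1 : ∫⁻ _, ENNReal.ofReal κ ^ p ∂ν ≤ ε := by rwa [lintegral_const]
    have i2 : ∫⁻ t, ENNReal.ofReal (Sᶜ.indicator (fun t => ‖d t‖) t) ^ p ∂ν ≤ ε := by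
      rwa [O4_ind ν hp mS.compl, hI _ mS.compl]
    have i3 : ∫⁻ t, ENNReal.ofReal ((W \ S).indicator (fun _ => M + κ) t) ^ p ∂ν ≤ ε := by
      rw [O4_ind ν hp (mW.diff mS), setLIntegral_const]
      refine le_trans (mul_le_mul_right ?_ _) t1
      rw [Measure.restrict_apply isClosed_cthickening.measurableSet]
      refine measure_mono fun t ht => ⟨?_, ht.2⟩
      obtain ⟨r, hr, k⟩ := mem_iUnion₂.1 ht.1
      refine mem_cthickening_of_dist_le t r.1 h' S (c2 r hr).1 ?_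
      rw [Real.dist_eq, abs_of_pos (sub_pos.2 k.1)]
      linarith only [k, c2, hr, k.2, (c2 r hr).2.2.2]
    have i4 : ∫⁻ t in Wᶜ, ENNReal.ofReal (min ‖d t‖ N) ^ p ∂ν ≤ ε := by
      refine (lintegral_mono fun t => ENNReal.rpow_le_rpow
        (ENNReal.ofReal_le_ofReal (min_le_left _ _)) hp0.le).trans ?_
      rw [hI _ mW.compl]
      refine (measure_mono (t := Sᶜ ∪ (S \ W)) fun t ht => ?_).trans
        ((measure_union_le _ _).trans ?_)
      · by_cases k : t ∈ S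
        exacts [Or.inr ⟨k, ht⟩, Or.inl k]
      · rwa [withDensity_absolutelyContinuous _ _ (hν (c4.measure_zero _)), add_zero]
    have i5 : ∫⁻ _ in Wᶜ, ENNReal.ofReal κ ^ p ∂ν ≤ ε :=
      (lintegral_mono' Measure.restrict_le_self le_rfl).trans i1
    have i6 : ∫⁻ t, ENNReal.ofReal ((C0 + 1) * Wᶜ.indicator v t) ^ p ∂ν ≤
        a * (c * (ε + ε) + ε) := by
      rw [O4_mul ν hp (by linarith only [hC]), O4_ind ν hp mW.compl]
      exact mul_le_mul_right (p7.trans (add_le_add ((O4_add _ hp mh).trans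
        (mul_le_mul_right (add_le_add i4 i5) _)) le_rfl)) _
    refine (O4_add ν hp measurable_const).trans (le_trans (mul_le_mul_right (add_le_add i1
      ((O4_add ν hp m1).trans (mul_le_mul_right (add_le_add i2 ((O4_add ν hp m2).trans
        (mul_le_mul_right (add_le_add i3 i6) _))) _))) _) (le_trans (le_of_eq ?_) hT.le))
    ring
  · obtain ⟨r, hr, -, k1, k2, k3, k4, k5, k6, k7, -⟩ := key q hq
    have w : ∀ t ∈ S, t ∈ Icc (δ0 / 2) (1 - δ0 / 2) := fun t ht =>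
      ⟨by linarith only [t3, t2, hS1, ht, (hS1 t ht).1.1], by linarith only [t3, t2, hS1, ht, (hS1 t ht).1.2]⟩
    refine ⟨k4, k5, k6, k1 ▸ disjoint_left.2 ?_, w _ k2, w _ k3, k7.trans t2.1.le,
      k7.trans_lt t2.2⟩
    rintro _ ht ((rfl | rfl) | ⟨r', hr', rfl⟩ | ⟨r', hr', rfl⟩)
    · linarith only [t3, t2, ht, w, c2, hr, ht.1, (w _ (c2 r hr).1).1]
    · linarith only [t3, t2, ht, w, c2, hr, ht.2, (w _ (c2 r hr).2.1).2]
    · exact disjoint_left.1 (c3 r hr r' hr' fun e => (e ▸ ht).1.false) (Ioo_subset_Icc_self ht)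
        (left_mem_Icc.2 (c2 r' hr').2.2.1.le)
    · exact disjoint_left.1 (c3 r hr r' hr' fun e => (e ▸ ht).2.false) (Ioo_subset_Icc_self ht)
        (right_mem_Icc.2 (c2 r' hr').2.2.1.le)
  · obtain ⟨r, -, -, -, k2, k3, -, -, -, k7, k8, k9, k10⟩ := key q hq
    exact O4_cone (y := fun t => g t q.2.2)
      (fun x hx => k8 ▸ ((hS1 _ k2).2.2.2 x (by linarith only [hx])).2)
      (fun x hx => k9 ▸ ((hS1 _ k3).2.2.2 x (by linarith only [hx])).2) (k7.trans_lt t2.2) k10 hx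
  · obtain ⟨r, hr, k1, -, k2, -, -, -, -, -, k8, -⟩ := key q hq
    obtain ⟨r', hr', k1', -, k2', -, -, -, -, -, k8', -⟩ := key q' hq'
    refine ⟨?_, fun k => k8 ▸ k8' ▸ hS2 _ k2 _ k2' (by linarith only [t3, t2, k])⟩
    obtain ⟨r0, hr0, b1, b2, b3⟩ := hq
    obtain ⟨r1, hr1, b1', b2', b3'⟩ := hq'
    have ne' : r0 ≠ r1 := by
      rintro rfl
      have e := b1'.trans b1.symm
      rw [e] at b2'
      rcases b3 with rfl | rfl <;> rcases b3' with k | k <;> obtain ⟨e1, e2⟩ := Prod.mk.inj k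
      · exact ne (Prod.ext e1.symm (Prod.ext e2.symm e.symm))
      · rw [e1, e2] at b2'
        exact b2.not_gt b2'
      · rw [e1, e2] at b2'
        exact b2.not_gt b2'
      · exact ne (Prod.ext e2.symm (Prod.ext e1.symm e.symm))
    have u : ∀ q : ℝ × ℝ × Fin 3, ∀ r ∈ C', ((q.1, q.2.1) = r ∨ (q.2.1, q.1) = r) →
        uIcc q.1 q.2.1 = Icc r.1 r.2 := by
      rintro q r hr (rfl | rfl)
      exacts [uIcc_of_le (c2 _ hr).2.2.1.le, uIcc_of_ge (c2 _ hr).2.2.1.le]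
    rw [u q r0 hr0 b3, u q' r1 hr1 b3']
    exact c3 _ hr0 _ hr1 ne'
  · obtain ⟨r, hr, -, k1, k2, k3, -, -, k6, k7, -⟩ := key q hq
    have sl : ∀ x ∈ S, x ∈ uIcc q.1 q.2.1 → ‖(q.2.1 - q.1)⁻¹ • (g q.2.1 - g q.1) - d x‖ ≤ κ :=
      fun x hx hx' => O4_slope k6 hx'
        ((hS1 x hx).2.2.2 _ (by
          rw [abs_sub_comm]; linarith only [t3, t2, k7, hx', abs_sub_left_of_mem_uIcc hx'])).1
        ((hS1 x hx).2.2.2 _ (by linarith only [t3, t2, k7, hx', abs_sub_right_of_mem_uIcc hx'])).1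
    by_cases k : t ∈ S
    · linarith only [sl, k, ht, M0, d0, v0, sl t k (uIoo_subset_uIcc_self ht), M0 t, d0 t, v0 t]
    · have tW : t ∈ W := mem_iUnion₂.2 ⟨r, hr, k1 ▸ ht⟩
      rw [indicator_of_mem (mem_compl k), indicator_of_mem (mem_sdiff_of_mem tW k)]
      have n1 := norm_sub_le_norm_sub_add_norm_sub ((q.2.1 - q.1)⁻¹ • (g q.2.1 - g q.1))
        (d q.1) (d t)
      linarith only [hκ, n1, sl, k2, hS1, v0, sl _ k2 left_mem_uIcc, norm_sub_le (d q.1) (d t), (hS1 _ k2).2.2.1, v0 t]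
  · have w : ∀ u ∈ U, ∀ u' ∈ U, u ≤ u' →
        eVariationOn g (Icc u u') ≤ ENNReal.ofReal |P u' - P u| := fun u hu u' hu' k => by
      rcases k.eq_or_lt with rfl | k'
      · simp
      refine (O4_var hi hg k).trans (ENNReal.ofReal_le_ofReal (le_trans ?_ (le_abs_self _)))
      have b1 := (p5 u u' (US hu).1 k (US hu').2).2
      have b2 := hN' u u' k
      have b3 : IntervalIntegrable (fun x => min ‖d x‖ N) volume u u' :=
        (hi.norm.mono' mh.aestronglyMeasurable (Eventually.of_forall fun x => by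
          rw [Real.norm_eq_abs, abs_of_nonneg (le_min (norm_nonneg _) hN)]
          exact min_le_left _ _)).intervalIntegrable
      rw [intervalIntegral.integral_add b3 intervalIntegrable_const,
        intervalIntegral.integral_const, smul_eq_mul] at b1
      linarith only [b1, b2, hκ, hγ', hu, hu', k', hγ' u hu u' hu' k', mul_nonneg_of_nonpos_of_nonpos (le_of_lt (Mathlib.Tactic.Linarith.sub_neg_of_lt hκ)) (Mathlib.Tactic.Linarith.sub_nonpos_of_le (hγ' u hu u' hu' k'))]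
    intro u hu u' hu'
    rcases le_total u u' with k | k
    · rw [uIcc_of_le k]
      exact w u hu u' hu' k
    · rw [uIcc_of_ge k, abs_sub_comm]
      exact w u' hu' u hu k
  · have tW : t ∉ W := fun k => by
      obtain ⟨r, hr, k⟩ := mem_iUnion₂.1 k
      obtain ⟨q, k1, k2⟩ := sur r hr
      exact hq q k1 (k2 ▸ k)
    have tS : t ∉ S := fun k => hF (Or.inr ⟨k, tW⟩)
    refine ⟨v t, p6 t ht fun k => hF (Or.inl k), ?_⟩
    rw [indicator_of_mem (mem_compl tS), indicator_of_mem (mem_compl tW)]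
    linarith only [hκ, M0, M0 t]

theorem OneD.congr {g d g' d' : ℝ → Rn 3} {ν : Measure ℝ} {p C0 : ℝ} {e : ℝ≥0∞} {δ h : ℝ}
    {C : Set (ℝ × ℝ × Fin 3)} {U F : Set ℝ} {P φ : ℝ → ℝ} (H : OneD g d ν p C0 e δ h C U F P φ)
    (hg : EqOn g' g (Icc 0 1)) (hd : EqOn d' d (Icc 0 1)) : OneD g' d' ν p C0 e δ h C U F P φ := by
  refine ⟨H.Cfin, H.Ufin, H.Ffin, H.U0, H.U1, H.Usub, H.tp, H.mono, H.meas, H.φ0, H.int, H.ends,
    fun q hq x hx => ?_, H.disj, fun q hq t ht => ?_, fun u hu u' hu' => ?_, fun t ht => ?_⟩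
  · obtain ⟨k1, k2, -, -, k3, -⟩ := H.ends q hq
    have k4 := abs_lt.1 hx
    rw [hg (H.Usub k1), hg (H.Usub k2),
      hg (x := x) ⟨by linarith [k3.1, k4.1], by linarith [k3.2, k4.2]⟩]
    exact H.cone q hq x hx
  · obtain ⟨k1, k2, -⟩ := H.ends q hq
    rw [hg (H.Usub k1), hg (H.Usub k2),
      hd (uIcc_subset_Icc (H.Usub k1) (H.Usub k2) (uIoo_subset_uIcc_self ht))]
    exact H.chord q hq t ht
  · rw [eVariationOn.eq_of_eqOn (hg.mono (uIcc_subset_Icc (H.Usub hu) (H.Usub hu')))]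
    exact H.var u hu u' hu'
  · rw [hd (Ioo_subset_Icc_self ht)]
    exact H.res t ht

theorem one_dim {g d : ℝ → Rn 3} {ν : Measure ℝ} [IsFiniteMeasure ν] (hν : ν ≪ volume)
    (hs : ∀ᵐ t ∂ν, t ∈ Ioo (0 : ℝ) 1) (hd : Measurable d) (hi : IntegrableOn d (Icc 0 1))
    (hg : ∀ t ∈ Icc (0 : ℝ) 1, g t = g 0 + ∫ x in (0 : ℝ)..t, d x) {p C0 : ℝ} (hp : 1 ≤ p)
    (hC : 0 ≤ C0) (hint : ∫⁻ t, ‖d t‖ₑ ^ p ∂ν ≠ ⊤) {e : ℝ≥0∞} (he : e ≠ 0) :
    ∃ δ : ℝ, 0 < δ ∧ ∀ h : ℝ, 0 < h → ∃ C U F P φ, OneD g d ν p C0 e δ h C U F P φ := by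
  have h1 : Integrable ((Icc 0 1).indicator d) := hi.integrable_indicator measurableSet_Icc
  have h2 : EqOn d ((Icc 0 1).indicator d) (Icc 0 1) := fun t ht => (indicator_of_mem ht d).symm
  obtain ⟨δ, hδ, k⟩ := O4_glob (g := fun t => g 0 + ∫ x in (0 : ℝ)..t, (Icc 0 1).indicator d x)
    hν hs (hd.indicator measurableSet_Icc) h1 (fun s t => by
      rw [add_sub_add_left_eq_sub]
      exact intervalIntegral.integral_interval_sub_left h1.intervalIntegrable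
        h1.intervalIntegrable) hp hC
    (ne_top_of_le_ne_top hint (lintegral_mono fun t => ENNReal.rpow_le_rpow
      (enorm_indicator_le_enorm_self ..) (by linarith))) he
  refine ⟨δ, hδ, fun h hh => ?_⟩
  obtain ⟨C, U, F, P, φ, H⟩ := k h hh
  refine ⟨C, U, F, P, φ, H.congr (fun t ht => (hg t ht).trans (congrArg _ ?_)) h2⟩
  exact intervalIntegral.integral_congr (h2.mono (uIcc_subset_Icc (left_mem_Icc.2 zero_le_one) ht))

end BEp
end
end

-- merged part: Pool.Agent.Work.MP_f0515e_an.D3.MStr1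
section
-- merged part: Pool.Agent.Work.MP_f0515e_an.D3.MCR1
section
/-! A bi-Lipschitz germ which is strictly differentiable along a hyperplane is regular. -/

open Set Metric Filter Topology Function BEv MeasureTheory
open scoped NNReal ENNReal ContDiff

noncomputable section
namespace BEp

variable {E : Type} [NormedAddCommGroup E] [NormedSpace ℝ E]

theorem MCR1_sign {X : Type} [TopologicalSpace X] {S : Set X} (hS : IsPreconnected S) {Θ : X → ℝ}
    (hc : ContinuousOn Θ S) (h0 : ∀ p ∈ S, Θ p ≠ 0) :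
    ∃ σ : ℝ, |σ| = 1 ∧ ∀ p ∈ S, σ * Θ p = |Θ p| := by
  by_cases h : ∀ p ∈ S, 0 ≤ Θ p
  · exact ⟨1, abs_one, fun p hp => by rw [one_mul, abs_of_nonneg (h p hp)]⟩
  · push Not at h
    obtain ⟨q, hq, k⟩ := h
    refine ⟨-1, by simp, fun p hp => ?_⟩
    have : Θ p ≤ 0 := le_of_not_gt fun k' => by
      obtain ⟨z, hz, e⟩ := hS.intermediate_value hq hp hc ⟨k.le, k'.le⟩
      exact h0 z hz e
    rw [abs_of_nonpos this, neg_one_mul]

theorem MCR1_norm {g : E → E} {x : E} {φ : E →L[ℝ] ℝ} {ν : E} (hν : φ ν = 1) {L c : ℝ}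
    (L0 : 0 < L) (hL : LL g x L) (hc : 0 < c) (he : EX g x c)
    (hS : ∀ δ : ℝ, 0 < δ → ∀ᶠ p : E × E in 𝓝 (x, x), φ (p.1 - p.2) = 0 →
      ‖g p.1 - g p.2 - (p.1 - p.2)‖ ≤ δ * ‖p.1 - p.2‖) : CR g x := by
  let P : E →L[ℝ] E := ContinuousLinearMap.id ℝ E - φ.smulRight ν
  have Pa : ∀ ξ, P ξ = ξ - φ ξ • ν := fun ξ => rfl
  have P0 : ∀ ξ, φ (P ξ) = 0 := fun ξ => by simp [Pa, hν]
  have N0 : 0 < ‖ν‖ := norm_pos_iff.2 fun e => by simp [e] at hν
  have F0 : 0 < ‖φ‖ := norm_pos_iff.2 fun e => by simp [e] at hν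
  have P1 : ∀ ξ, ‖ξ‖ ≤ ‖P ξ‖ + |φ ξ| * ‖ν‖ := fun ξ => by
    have := norm_add_le (P ξ) (φ ξ • ν)
    rwa [Pa, sub_add_cancel, norm_smul, Real.norm_eq_abs, ← Pa] at this
  set K := 4 * L * ‖ν‖ with hK
  have K0 : 0 < K := by positivity
  set c2 := c / (‖φ‖ * (K + ‖ν‖)) / 2 with hc2
  have c20 : 0 < c2 := by positivity
  have cg : Tendsto (fun p : E × E => g p.1 - g p.2) (𝓝 (x, x)) (𝓝 0) := by
    simpa using (hL.continuousAt.tendsto.comp (continuous_fst.tendsto (x, x))).sub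
      (hL.continuousAt.tendsto.comp (continuous_snd.tendsto (x, x)))
  have t1 : Tendsto (fun p : E × E => p.1) (𝓝 (x, x)) (𝓝 x) := continuous_fst.tendsto (x, x)
  have t2 : Tendsto (fun p : E × E => p.2) (𝓝 (x, x)) (𝓝 x) := continuous_snd.tendsto (x, x)
  have t3 : Tendsto (fun p : E × E => p.2 + P (p.1 - p.2)) (𝓝 (x, x)) (𝓝 x) := by
    have : Continuous fun p : E × E => p.2 + P (p.1 - p.2) := by fun_prop
    simpa using this.tendsto (x, x)
  have t4 : Tendsto (fun p : E × E => p.1 - P (g p.1 - g p.2)) (𝓝 (x, x)) (𝓝 x) := by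
    simpa using t1.sub ((P.continuous.tendsto 0).comp cg)
  have A1 : ∀ᶠ p : E × E in 𝓝 (x, x), K * |φ (p.1 - p.2)| < ‖P (p.1 - p.2)‖ →
      ‖g p.1 - g p.2 - P (p.1 - p.2)‖ ≤ ‖P (p.1 - p.2)‖ / 2 := by
    filter_upwards [(t3.prodMk_nhds t2).eventually (hS (1 / 4) (by norm_num)),
      (t1.prodMk_nhds t3).eventually hL] with p k1 k2 k3
    simp only [add_sub_cancel_left] at k1
    have e : p.1 - (p.2 + P (p.1 - p.2)) = φ (p.1 - p.2) • ν := by rw [Pa]; abel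
    simp only [e, norm_smul, Real.norm_eq_abs] at k2
    have := norm_add_le (g p.1 - g (p.2 + P (p.1 - p.2)))
      (g (p.2 + P (p.1 - p.2)) - g p.2 - P (p.1 - p.2))
    rw [← add_sub_assoc, sub_add_sub_cancel] at this
    linarith only [k3, k2, this, k1, P0, k1 (P0 _)]
  have A2 : ∀ᶠ p : E × E in 𝓝 (x, x), ‖P (p.1 - p.2)‖ ≤ K * |φ (p.1 - p.2)| →
      c2 * ‖p.1 - p.2‖ ≤ |φ (g p.1 - g p.2)| * ‖ν‖ := by
    filter_upwards [(t1.prodMk_nhds t4).eventually (hS (c2 / ((‖P‖ + 1) * L)) (by positivity)),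
      (t4.prodMk_nhds t2).eventually he, hL] with p k1 k2 k3 k4
    simp only [sub_sub_cancel] at k1
    have k1 := k1 (P0 _)
    set m := g p.1 - g p.2 with hm
    set y := p.1 - P m with hy
    have k5 : ‖P m‖ ≤ (‖P‖ + 1) * L * ‖p.1 - p.2‖ := by
      have := P.le_opNorm m
      linarith only [k3, this, norm_nonneg P, norm_nonneg m, mul_nonneg_of_nonpos_of_nonpos (Mathlib.Tactic.Linarith.sub_nonpos_of_le k3) (Mathlib.Tactic.Linarith.sub_nonpos_of_le (norm_nonneg P))]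
    have k6 : c2 / ((‖P‖ + 1) * L) * ‖P m‖ ≤ c2 * ‖p.1 - p.2‖ := by
      refine (mul_le_mul_of_nonneg_left k5 (by positivity)).trans_eq ?_
      field_simp
    have k7 : ‖g y - g p.2‖ ≤ |φ m| * ‖ν‖ + ‖g p.1 - g y - P m‖ := by
      have e : g y - g p.2 = φ m • ν - (g p.1 - g y - P m) := by rw [Pa, hm]; abel
      rw [e, ← Real.norm_eq_abs, ← norm_smul]
      exact norm_sub_le _ _
    have k8 : |φ (p.1 - p.2)| ≤ ‖φ‖ * ‖y - p.2‖ := by
      have e : φ (p.1 - p.2) = φ (y - p.2) := by simp [hy, P0]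
      rw [e]
      exact φ.le_opNorm _
    have k9 : ‖p.1 - p.2‖ ≤ (K + ‖ν‖) * (‖φ‖ * ‖y - p.2‖) := by
      linarith only [k4, P1, N0, k8, K0, P1 (p.1 - p.2), mul_nonneg_of_nonpos_of_nonpos (le_of_lt (Mathlib.Tactic.Linarith.sub_neg_of_lt N0)) (Mathlib.Tactic.Linarith.sub_nonpos_of_le k8), mul_nonneg_of_nonpos_of_nonpos (le_of_lt (Mathlib.Tactic.Linarith.sub_neg_of_lt K0)) (Mathlib.Tactic.Linarith.sub_nonpos_of_le k8)]
    have k10 : 2 * c2 * ‖p.1 - p.2‖ ≤ c * ‖y - p.2‖ := by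
      refine (mul_le_mul_of_nonneg_left k9 (by positivity)).trans_eq ?_
      rw [hc2]; field_simp
    linarith only [k2, k1, k6, k7, k10]
  obtain ⟨r, r0, hr⟩ := Metric.eventually_nhds_iff_ball.1 ((A1.and A2).and hL)
  let S : Set (E × E) := ball (x, x) r ∩
    {p | ‖P (p.1 - p.2)‖ ≤ K * φ (p.1 - p.2) ∧ 0 < φ (p.1 - p.2)}
  have cS : Convex ℝ S := by
    refine (convex_ball _ _).inter fun p hp q hq a b ha hb hab => ?_
    have e : (a • p + b • q).1 - (a • p + b • q).2 = a • (p.1 - p.2) + b • (q.1 - q.2) := by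
      simp only [Prod.fst_add, Prod.snd_add, Prod.smul_fst, Prod.smul_snd, smul_sub]; abel
    simp only [mem_ofPred_eq, e, map_add, map_smul, smul_eq_mul]
    refine ⟨(norm_add_le _ _).trans ?_, ?_⟩
    · rw [norm_smul, norm_smul, Real.norm_of_nonneg ha, Real.norm_of_nonneg hb]
      linarith only [hp, ha, hq, hb, mul_le_mul_of_nonneg_left hp.1 ha, mul_le_mul_of_nonneg_left hq.1 hb]
    · rcases ha.eq_or_lt with rfl | ha'
      · have : b = 1 := by linarith only [hab]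
        simpa [this] using hq.2
      · linarith only [ha', hp, hb, hq, mul_pos ha' hp.2, mul_nonneg hb hq.2.le]
  have gc : ContinuousOn g (ball x r) := fun y hy => ContinuousAt.continuousWithinAt <|
    (LL.of_nhds (c := L) (isOpen_ball.mem_nhds hy) fun a ha b hb =>
      (hr (a, b) (by rw [← ball_prod_same]; exact ⟨ha, hb⟩)).2).continuousAt
  obtain ⟨σ, s1, s2⟩ := MCR1_sign cS.isPreconnected (Θ := fun p => φ (g p.1 - g p.2))
    (φ.continuous.comp_continuousOn ((gc.comp continuousOn_fst fun p hp => by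
      have := hp.1; rw [← ball_prod_same] at this; exact this.1).sub
      (gc.comp continuousOn_snd fun p hp => by
      have := hp.1; rw [← ball_prod_same] at this; exact this.2))) fun p hp e => by
      have k := (hr p hp.1).1.2 (by rw [abs_of_pos hp.2.2]; exact hp.2.1)
      have k2 : p.1 - p.2 ≠ 0 := fun q => by simpa [q] using hp.2.2
      simp only [e, abs_zero, zero_mul] at k
      linarith only [k, c20, k2, mul_pos c20 (norm_pos_iff.2 k2)]
  choose d d1 d2 using fun ξ : E => exists_dual_vector'' ℝ ξ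
  have key : ∀ p ∈ ball (x, x) r, ‖P (p.1 - p.2)‖ ≤ K * |φ (p.1 - p.2)| → 0 ≤ φ (p.1 - p.2) →
      c2 / (‖ν‖ * ‖φ‖) * ‖p.1 - p.2‖ ≤ σ / ‖φ‖ * φ (g p.1 - g p.2) := fun p hp h1 h2 => by
    rcases h2.eq_or_lt with q | q
    · have q2 := P1 (p.1 - p.2)
      rw [← q, abs_zero] at h1 q2
      have q3 : p.1 = p.2 := sub_eq_zero.1 (norm_le_zero_iff.1 (by linarith only [h1, q2]))
      simp [q3]
    · have k := (hr p hp).1.2 h1
      rw [div_mul_eq_mul_div σ, s2 p ⟨hp, by rwa [abs_of_pos q] at h1, q⟩, div_mul_eq_mul_div,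
        div_le_div_iff₀ (by positivity) F0]
      linarith only [F0, k, mul_nonneg_of_nonpos_of_nonpos (le_of_lt (Mathlib.Tactic.Linarith.sub_neg_of_lt F0)) (Mathlib.Tactic.Linarith.sub_nonpos_of_le k)]
  classical
  refine ⟨⟨L, hL⟩, min (2 * L / (4 * L + 1)) (c2 / (‖ν‖ * ‖φ‖)), by positivity, fun ξ =>
    if ‖P ξ‖ ≤ K * |φ ξ| then (if 0 ≤ φ ξ then σ / ‖φ‖ else -(σ / ‖φ‖)) • φ else d (P ξ),
    fun ξ => ?_, ?_⟩
  · dsimp only
    split_ifs
    · rw [norm_smul, norm_div, Real.norm_eq_abs, s1, norm_norm, div_mul_cancel₀ _ F0.ne']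
    · rw [norm_smul, norm_neg, norm_div, Real.norm_eq_abs, s1, norm_norm, div_mul_cancel₀ _ F0.ne']
    · exact d1 _
  · filter_upwards [ball_mem_nhds (x, x) r0] with p hp
    split_ifs with h1 h2
    · exact le_trans (by gcongr; exact min_le_right _ _) (key p hp h1 h2)
    · have hp' : p.swap ∈ ball (x, x) r := by
        rw [← ball_prod_same] at hp ⊢; exact ⟨hp.2, hp.1⟩
      have k := key p.swap hp' (by
        rw [Prod.fst_swap, Prod.snd_swap, ← neg_sub p.1, map_neg, map_neg, norm_neg, abs_neg]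
        exact h1) (by
        rw [Prod.fst_swap, Prod.snd_swap, ← neg_sub p.1, map_neg]; linarith only [h2])
      rw [Prod.fst_swap, Prod.snd_swap, norm_sub_rev, ← neg_sub (g p.1), map_neg] at k
      refine le_trans (by gcongr; exact min_le_right _ _) (k.trans_eq ?_)
      simp only [smul_apply, smul_eq_mul]
      ring
    · have h1 := not_le.1 h1
      have k := (abs_le.1 ((MCR_le (d1 (P (p.1 - p.2))) _).trans ((hr p hp).1.1 h1))).1
      rw [map_sub _ _ (P _), d2] at k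
      refine le_trans (mul_le_mul_of_nonneg_right (min_le_left _ _) (norm_nonneg _)) ?_
      rw [div_mul_eq_mul_div, div_le_iff₀ (by positivity)]
      have k2 := mul_le_mul_of_nonneg_left (P1 (p.1 - p.2)) L0.le
      simp only [RCLike.ofReal_real_eq_id, id_eq] at k
      nlinarith

theorem cr_of_alg [FiniteDimensional ℝ E] {f : E → E} {x : E} {φ : E →L[ℝ] ℝ} (hφ : φ ≠ 0)
    {A : E →L[ℝ] E} {L c : ℝ}
    (hL : LL f x L) (hc : 0 < c) (he : EX f x c) (hA : HasFDerivAtFilter f A (alg φ x)) :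
    CR f x := by
  obtain ⟨ν, hν⟩ : ∃ ν, φ ν = 1 := by
    obtain ⟨w, hw⟩ := ContinuousLinearMap.exists_ne_zero hφ
    exact ⟨(φ w)⁻¹ • w, by simp [hw]⟩
  have hS : ∀ δ : ℝ, 0 < δ → ∀ᶠ p : E × E in 𝓝 (x, x), φ (p.1 - p.2) = 0 →
      ‖f p.1 - f p.2 - A (p.1 - p.2)‖ ≤ δ * ‖p.1 - p.2‖ := fun δ hδ =>
    eventually_inf_principal.1 (hA.isLittleO.def hδ)
  have inj : ∀ ξ, φ ξ = 0 → A ξ = 0 → ξ = 0 := fun ξ h1 h2 => by
    have t : Tendsto (fun s : ℝ => x + s • ξ) (𝓝[>] 0) (𝓝 x) := by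
      have : Continuous fun s : ℝ => x + s • ξ := by fun_prop
      simpa using (this.tendsto 0).mono_left nhdsWithin_le_nhds
    obtain ⟨s, ⟨k1, k2⟩, k3⟩ := ((((t.prodMk_nhds tendsto_const_nhds).eventually he).and
      ((t.prodMk_nhds tendsto_const_nhds).eventually (hS _ (half_pos hc)))).and
      self_mem_nhdsWithin).exists
    have s0 : 0 < s := k3
    simp only [add_sub_cancel_left, map_smul, h1, h2, smul_zero, sub_zero, norm_smul,
      Real.norm_of_nonneg s0.le, forall_const] at k1 k2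
    refine norm_le_zero_iff.1 (le_of_not_gt fun q => ?_)
    linarith only [k1, k2, hc, s0, q, mul_pos hc (mul_pos s0 q)]
  let Q : E →ₗ[ℝ] E := (A : E →ₗ[ℝ] E) ∘ₗ (LinearMap.id - (φ : E →ₗ[ℝ] ℝ).smulRight ν)
  have Qa : ∀ ξ, Q ξ = A (ξ - φ ξ • ν) := fun ξ => rfl
  obtain ⟨n0, hn⟩ : ∃ n0, ∀ ξ, Q ξ ≠ n0 := by
    by_contra h
    push Not at h
    have := (injective_iff_map_eq_zero Q).1 (LinearMap.injective_iff_surjective.2 h) ν
      (by simp [Qa, hν])
    simp [this] at hν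
  let B0 : E →ₗ[ℝ] E := Q + (φ : E →ₗ[ℝ] ℝ).smulRight n0
  have Ba : ∀ ξ, B0 ξ = Q ξ + φ ξ • n0 := fun ξ => rfl
  have Bi : Injective B0 := (injective_iff_map_eq_zero B0).2 fun ξ h => by
    rw [Ba] at h
    by_cases q : φ ξ = 0
    · exact inj ξ q (by simpa [q, Qa] using h)
    · refine absurd ?_ (hn ((-φ ξ)⁻¹ • ξ))
      rw [map_smul, eq_neg_of_add_eq_zero_left h, ← neg_smul, smul_smul,
        inv_mul_cancel₀ (neg_ne_zero.2 q), one_smul]
  let B : E ≃L[ℝ] E := (LinearEquiv.ofInjectiveEndo B0 Bi).toContinuousLinearEquiv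
  have Bb : ∀ ξ, φ ξ = 0 → B ξ = A ξ := fun ξ q => by
    change B0 ξ = _
    simp [Ba, Qa, q]
  set N := ‖(B.symm : E →L[ℝ] E)‖ + 1 with hN
  set M := ‖(B : E →L[ℝ] E)‖ + 1 with hM
  have N0 : 0 < N := by positivity
  have M0 : 0 < M := by positivity
  have n1 : ∀ v, ‖B.symm v‖ ≤ N * ‖v‖ := fun v =>
    ((B.symm : E →L[ℝ] E).le_opNorm v).trans (by gcongr; linarith)
  have n2 : ∀ v, ‖v‖ ≤ M * ‖B.symm v‖ := fun v => by
    have := (B : E →L[ℝ] E).le_opNorm (B.symm v)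
    simp only [ContinuousLinearEquiv.coe_coe, ContinuousLinearEquiv.apply_symm_apply] at this
    exact this.trans (by gcongr; linarith)
  have k := MCR1_norm (g := fun y => B.symm (f y)) (x := x) hν (L := N * max L 1) (c := c / M)
    (by positivity) (Eventually.mono (hL.mono (le_max_left L 1)) fun p hp => by
      rw [← map_sub, mul_assoc]
      exact (n1 _).trans (by gcongr)) (by positivity) (he.mono fun p hp => by
      rw [← map_sub, div_mul_eq_mul_div, div_le_iff₀' M0]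
      exact hp.trans (n2 _)) fun δ hδ => (hS (δ / N) (by positivity)).mono fun p hp q => by
      have e : B.symm (f p.1) - B.symm (f p.2) - (p.1 - p.2) =
          B.symm (f p.1 - f p.2 - A (p.1 - p.2)) := by
        rw [← Bb _ q, map_sub, map_sub, B.symm_apply_apply]
      rw [e]
      refine (n1 _).trans ((mul_le_mul_of_nonneg_left (hp q) N0.le).trans_eq ?_)
      field_simp
  simpa using k.post B 0

end BEp
end
end

-- merged part: Pool.Agent.Work.MP_f0515e_an.D3.MMod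
section
/-! The model modification along an edge. -/

open Set Metric Filter Topology Function BEv MeasureTheory
open scoped NNReal ENNReal ContDiff

noncomputable section
namespace BEp

theorem MMod_st : ∃ K : ℝ, 0 < K ∧ ∀ a b,
    |Real.smoothTransition a - Real.smoothTransition b| ≤ K * |a - b| := by
  obtain ⟨K, hK⟩ := (Real.smoothTransition.contDiff (n := 1)).contDiffOn.exists_lipschitzOnWith
    (s := Icc (0 : ℝ) 1) (by simp) (convex_Icc 0 1) isCompact_Icc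
  refine ⟨K + 1, by positivity, fun a b => ?_⟩
  have h := hK.dist_le_mul _ (projIcc 0 1 zero_le_one a).2 _ (projIcc 0 1 zero_le_one b).2
  rw [Real.smoothTransition.projIcc, Real.smoothTransition.projIcc, Real.dist_eq,
    Real.dist_eq] at h
  have := abs_projIcc_sub_projIcc (c := a) (d := b) (zero_le_one' ℝ)
  linarith only [h, this, K.2, abs_nonneg (a - b), NNReal.coe_nonneg K, mul_nonneg_of_nonpos_of_nonpos (Mathlib.Tactic.Linarith.sub_nonpos_of_le (NNReal.coe_nonneg K)) (Mathlib.Tactic.Linarith.sub_nonpos_of_le this)]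

theorem MMod_log {m a b : ℝ} (hm : 0 < m) (ha : m ≤ a) (hb : m ≤ b) :
    m * |Real.log a - Real.log b| ≤ |a - b| := by
  wlog h : b ≤ a generalizing a b
  · rw [abs_sub_comm, abs_sub_comm a]
    exact this hb ha (not_le.1 h).le
  have b0 := hm.trans_le hb
  have a0 := hm.trans_le ha
  have h1 := Real.log_le_sub_one_of_pos (div_pos a0 b0)
  have h2 := sub_nonneg.2 (Real.log_le_log b0 h)
  rw [Real.log_div a0.ne' b0.ne', div_sub_one b0.ne', le_div_iff₀ b0] at h1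
  rw [abs_of_nonneg h2, abs_of_nonneg (sub_nonneg.2 h)]
  linarith only [h1, hb, h2, mul_nonneg_of_nonpos_of_nonpos (Mathlib.Tactic.Linarith.sub_nonpos_of_le hb) (Mathlib.Tactic.Linarith.sub_nonpos_of_le h2)]

/-- Profile of the lens. -/
def MModR (z : ℝ) : ℝ := max 0 (min z 1) * (1 - max 0 (min z 1))

theorem MModR_in {z : ℝ} (h : z ∈ Icc (0 : ℝ) 1) : MModR z = z * (1 - z) := by
  rw [MModR, min_eq_left h.2, max_eq_right h.1]

theorem MModR_out {z : ℝ} (h : z ∉ Icc (0 : ℝ) 1) : MModR z = 0 := by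
  rcases lt_or_ge z 0 with k | k
  · rw [MModR, max_eq_left ((min_le_left _ _).trans k.le), zero_mul]
  · rw [MModR, min_eq_right (le_of_not_ge fun q => h ⟨k, q⟩), max_eq_right zero_le_one, sub_self,
      mul_zero]

theorem MModR_lip (a b : ℝ) : |MModR a - MModR b| ≤ |a - b| := by
  have h : |max 0 (min a 1) - max 0 (min b 1)| ≤ |a - b| := by
    refine (abs_max_sub_max_le_max _ _ _ _).trans (max_le (by simp) ?_)
    exact (abs_min_sub_min_le_max _ _ _ _).trans (max_le le_rfl (by simp))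
  have a0 : 0 ≤ max 0 (min a 1) := le_max_left _ _
  have b0 : 0 ≤ max 0 (min b 1) := le_max_left _ _
  have a1 : max 0 (min a 1) ≤ 1 := max_le zero_le_one (min_le_right _ _)
  have b1 : max 0 (min b 1) ≤ 1 := max_le zero_le_one (min_le_right _ _)
  unfold MModR
  generalize max 0 (min a 1) = s at *
  generalize max 0 (min b 1) = t at *
  rw [show s * (1 - s) - t * (1 - t) = (s - t) * (1 - s - t) by ring, abs_mul]
  exact (mul_le_of_le_one_right (abs_nonneg _) (abs_le.2 ⟨by linarith, by linarith⟩)).trans h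

/-- The slowly varying parameter. -/
def MModT (δ η : ℝ) (x : ℝ × ℂ) : ℝ :=
  1 - Real.smoothTransition (δ * (Real.log (max (η * MModR x.1) ‖x.2‖) - Real.log ‖x.2‖))

theorem MModT_mem (δ η : ℝ) (x : ℝ × ℂ) : MModT δ η x ∈ Icc (0 : ℝ) 1 :=
  ⟨sub_nonneg.2 (Real.smoothTransition.le_one _), sub_le_self _ (Real.smoothTransition.nonneg _)⟩

theorem MModT_var {K δ η : ℝ} (K0 : 0 < K) (hK : ∀ a b,
    |Real.smoothTransition a - Real.smoothTransition b| ≤ K * |a - b|) (hδ : 0 < δ)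
    (hη : η ∈ Ioc (0 : ℝ) 1) (x y : ℝ × ℂ) :
    min ‖x.2‖ ‖y.2‖ * |MModT δ η x - MModT δ η y| ≤ 2 * K * δ * ‖x - y‖ := by
  rcases (le_min (norm_nonneg x.2) (norm_nonneg y.2)).eq_or_lt with q | q
  · rw [← q, zero_mul]; positivity
  have n1 : |x.1 - y.1| ≤ ‖x - y‖ := norm_fst_le (x - y)
  have n2 : |‖x.2‖ - ‖y.2‖| ≤ ‖x - y‖ := (abs_norm_sub_norm_le _ _).trans (norm_snd_le (x - y))
  have l1 := MMod_log q (min_le_left _ _) (min_le_right _ _)
  have l2 := MMod_log q ((min_le_left _ _).trans (le_max_right (η * MModR x.1) _))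
    ((min_le_right _ _).trans (le_max_right (η * MModR y.1) _))
  have l3 : |max (η * MModR x.1) ‖x.2‖ - max (η * MModR y.1) ‖y.2‖| ≤ ‖x - y‖ := by
    refine (abs_max_sub_max_le_max _ _ _ _).trans (max_le ?_ n2)
    rw [← mul_sub, abs_mul, abs_of_pos hη.1]
    exact (mul_le_of_le_one_left (abs_nonneg _) hη.2).trans ((MModR_lip _ _).trans n1)
  unfold MModT
  generalize Real.log (max (η * MModR x.1) ‖x.2‖) = a at *
  generalize Real.log (max (η * MModR y.1) ‖y.2‖) = b at *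
  generalize Real.log ‖x.2‖ = a' at *
  generalize Real.log ‖y.2‖ = b' at *
  have k := hK (δ * (a - a')) (δ * (b - b'))
  have k2 : |a - a' - (b - b')| ≤ |a - b| + |a' - b'| := by
    rw [show a - a' - (b - b') = (a - b) - (a' - b') by ring]; exact abs_sub _ _
  rw [← mul_sub, abs_mul, abs_of_pos hδ] at k
  rw [sub_sub_sub_cancel_left, abs_sub_comm]
  have k3 := mul_le_mul_of_nonneg_left (k.trans (mul_le_mul_of_nonneg_left
    (mul_le_mul_of_nonneg_left k2 hδ.le) K0.le)) q.le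
  have k4 : min ‖x.2‖ ‖y.2‖ * (|a - b| + |a' - b'|) ≤ 2 * ‖x - y‖ := by linarith
  linarith only [k3, k4, K0, hδ, mul_le_mul_of_nonneg_left k4 (mul_pos K0 hδ).le]

theorem MMod_sd {G : Type} [NormedAddCommGroup G] [NormedSpace ℝ G] {j : ℂ → G} (j0 : Hmg j)
    {M : ℝ} (j1 : Lz j M) {x : ℝ × ℂ} {φ ψ : ℝ × ℂ →L[ℝ] ℝ}
    (h : ∀ ξ, φ ξ = 0 → ξ.2 = ψ ξ • x.2) :
    HasFDerivAtFilter (fun y : ℝ × ℂ => j y.2) (ψ.smulRight (j x.2)) (alg φ x) := by
  refine .of_isLittleO (Asymptotics.isLittleO_iff.2 fun δ hδ => eventually_inf_principal.2 ?_)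
  have t1 : Tendsto (fun p : (ℝ × ℂ) × ℝ × ℂ => ψ (p.1 - p.2)) (𝓝 (x, x)) (𝓝 0) := by
    have : Continuous fun p : (ℝ × ℂ) × ℝ × ℂ => ψ (p.1 - p.2) := by fun_prop
    simpa using this.tendsto (x, x)
  have t2 : Tendsto (fun p : (ℝ × ℂ) × ℝ × ℂ => 2 * M * ‖p.2.2 - x.2‖ * ‖ψ‖) (𝓝 (x, x)) (𝓝 0) := by
    have : Continuous fun p : (ℝ × ℂ) × ℝ × ℂ => 2 * M * ‖p.2.2 - x.2‖ * ‖ψ‖ := by fun_prop
    simpa using this.tendsto (x, x)
  have M0 : 0 ≤ M := by simpa using (norm_nonneg _).trans (j1 1 0)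
  filter_upwards [t1.eventually (Ici_mem_nhds (show (-1 : ℝ) < 0 by norm_num)),
    t2.eventually (Iic_mem_nhds hδ)] with p k1 k2 k3
  have k4 := h _ k3
  have k5 : |ψ (p.1 - p.2)| ≤ ‖ψ‖ * ‖p.1 - p.2‖ := ψ.le_opNorm _
  rw [ContinuousLinearMap.smulRight_apply]
  generalize ψ (p.1 - p.2) = a at *
  have e : j p.1.2 - j p.2.2 - a • j x.2 =
      (j p.1.2 - j ((1 + a) • p.2.2)) + a • (j p.2.2 - j x.2) := by
    rw [j0 _ _ (by linarith), add_smul, one_smul, smul_sub]; abel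
  have e2 : p.1.2 - (1 + a) • p.2.2 = -(a • (p.2.2 - x.2)) := by
    rw [add_smul, one_smul, smul_sub, ← k4, Prod.snd_sub]; abel
  have b1 := j1 p.1.2 ((1 + a) • p.2.2)
  have b2 := mul_le_mul_of_nonneg_left (j1 p.2.2 x.2) (abs_nonneg a)
  rw [e2, norm_neg, norm_smul, Real.norm_eq_abs] at b1
  rw [e]
  refine (norm_add_le _ _).trans ?_
  rw [norm_smul, Real.norm_eq_abs]
  have b3 := mul_le_mul_of_nonneg_left k5 (show 0 ≤ 2 * M * ‖p.2.2 - x.2‖ by positivity)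
  have b4 := mul_le_mul_of_nonneg_right k2 (norm_nonneg (p.1 - p.2))
  linarith only [b1, b2, b3, b4]

theorem MMod_line {u : ℂ} (hu : u ≠ 0) : ∃ φ ψ : ℝ × ℂ →L[ℝ] ℝ, φ ≠ 0 ∧
    ∀ ξ, φ ξ = 0 → ξ.2 = ψ ξ • u := by
  let D : ℝ × ℂ →L[ℝ] ℂ := ((ContinuousLinearMap.mul ℝ ℂ u⁻¹).comp (ContinuousLinearMap.snd ℝ ℝ ℂ))
  have Da : ∀ ξ, D ξ = u⁻¹ * ξ.2 := fun _ => rfl
  refine ⟨Complex.imCLM.comp D, Complex.reCLM.comp D, fun e => ?_, fun ξ h => ?_⟩
  · have := congrArg (fun f : ℝ × ℂ →L[ℝ] ℝ => f (0, u * Complex.I)) e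
    simp [Da, ← mul_assoc, inv_mul_cancel₀ hu] at this
  · have e : (((D ξ).re : ℝ) : ℂ) = D ξ := Complex.ext rfl (by simpa using h.symm)
    change ξ.2 = (((D ξ).re : ℝ) : ℂ) * u
    rw [e, Da, mul_comm, ← mul_assoc, mul_inv_cancel₀ hu, one_mul]

theorem edge_mod {k : ℂ → ℂ} {κ : ℂ → ℝ} (k0 : Hmg k) {M : ℝ} (k1 : Lz k M) {c L : ℝ} (hL : 0 ≤ L)
    (hk : Fm k c L) (κ0 : Hmg κ) {M' : ℝ} (κ1 : Lz κ M') :
    ∃ c' L' : ℝ, ∀ η ∈ Ioc (0 : ℝ) 1, ∃ F : ℝ × ℂ → ℝ × ℂ, Xp F c' ∧ Lz F L' ∧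
      (∀ z, F (z, 0) = (z, 0)) ∧ (∀ x, x ∉ mz η → F x = (x.1 + κ x.2, hsp k 1 x.2)) ∧
      ∀ x : ℝ × ℂ, x.1 ∈ Ioo (0 : ℝ) 1 → CR F x := by
  obtain ⟨K, K0, hK⟩ := MMod_st
  have M0 : 0 ≤ M' := by simpa using (norm_nonneg _).trans (κ1 1 0)
  have c0 : 0 < c := (hk.xp 0 ⟨le_rfl, zero_le_one⟩).1
  have z0 : κ 0 = 0 := by simpa using κ0 0 0 le_rfl
  let Φ : ℝ → ℝ × ℂ → ℝ × ℂ := fun s x => (x.1 + s * κ x.2, hsp k s x.2)
  have q1 : ∀ s ∈ Icc (0 : ℝ) 1, ∀ x y : ℝ × ℂ, |s * κ x.2 - s * κ y.2| ≤ M' * ‖x.2 - y.2‖ :=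
    fun s hs x y => by
      rw [← mul_sub, abs_mul, abs_of_nonneg hs.1]
      exact (mul_le_of_le_one_left (abs_nonneg _) hs.2).trans (κ1 _ _)
  have h1 : ∀ s ∈ Icc (0 : ℝ) 1, Xp (Φ s) (c / (c + M' + 1)) := fun s hs =>
    ⟨by positivity, fun x y => by
      have a1 : |x.1 + s * κ x.2 - (y.1 + s * κ y.2)| ≤ ‖Φ s x - Φ s y‖ := norm_fst_le (Φ s x - Φ s y)
      have a2 : c * ‖x.2 - y.2‖ ≤ ‖Φ s x - Φ s y‖ :=
        ((hk.xp s hs).2 _ _).trans (norm_snd_le (Φ s x - Φ s y))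
      have a3 := q1 s hs x y
      have a4 := mul_le_mul_of_nonneg_left a2 M0
      have a5 := norm_nonneg (Φ s x - Φ s y)
      have a6 : |x.1 - y.1| ≤ ‖Φ s x - Φ s y‖ + M' * ‖x.2 - y.2‖ := by
        rw [abs_le] at a1 a3 ⊢; constructor <;> linarith only [a1, a3, a1.1, a1.2, a3.1, a3.2]
      rw [div_mul_eq_mul_div, div_le_iff₀ (by positivity), Prod.norm_def, mul_max_of_nonneg _ _ c0.le]
      refine max_le ?_ (a2.trans (by linarith only [M0, a5, c0, mul_nonneg_of_nonpos_of_nonpos (Mathlib.Tactic.Linarith.sub_nonpos_of_le M0) (Mathlib.Tactic.Linarith.sub_nonpos_of_le a5), mul_nonneg_of_nonpos_of_nonpos (le_of_lt (Mathlib.Tactic.Linarith.sub_neg_of_lt c0)) (Mathlib.Tactic.Linarith.sub_nonpos_of_le a5)]))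
      change c * |x.1 - y.1| ≤ _
      linarith only [a4, a5, a6, c0, mul_le_mul_of_nonneg_left a6 c0.le]⟩
  have h2 : ∀ s ∈ Icc (0 : ℝ) 1, Lz (Φ s) (1 + M' + L) := fun s hs x y => by
    have a1 : |x.1 - y.1| ≤ ‖x - y‖ := norm_fst_le (x - y)
    have a2 : ‖x.2 - y.2‖ ≤ ‖x - y‖ := norm_snd_le (x - y)
    have a3 := q1 s hs x y
    have a4 := mul_le_mul_of_nonneg_left a2 M0
    have a5 := mul_le_mul_of_nonneg_left a2 hL
    have a6 := mul_nonneg hL (norm_nonneg (x - y))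
    have a7 := mul_nonneg M0 (norm_nonneg (x - y))
    refine norm_prod_le_iff.2 ⟨?_, (hk.lp s hs x.2 y.2).trans (by linarith [norm_nonneg (x - y)])⟩
    change |x.1 + s * κ x.2 - (y.1 + s * κ y.2)| ≤ _
    rw [abs_le] at a1 a3 ⊢; constructor <;> linarith only [a1, a3, a4, a6, a1.1, a1.2, a3.1, a3.2]
  have h3 : ∀ s ∈ Icc (0 : ℝ) 1, ∀ s' ∈ Icc (0 : ℝ) 1, ∀ x,
      ‖Φ s x - Φ s' x‖ ≤ (M' + L + 1) * ‖x.2‖ * |s - s'| := fun s hs s' hs' x => by
    have a1 : |κ x.2| ≤ M' * ‖x.2‖ := by simpa [z0] using κ1 x.2 0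
    have a2 := mul_nonneg (norm_nonneg x.2) (abs_nonneg (s - s'))
    refine norm_prod_le_iff.2 ⟨?_, (hk.par s hs s' hs' x.2).trans (by linarith only [a2, M0, mul_nonneg_of_nonpos_of_nonpos (Mathlib.Tactic.Linarith.sub_nonpos_of_le M0) (Mathlib.Tactic.Linarith.sub_nonpos_of_le a2)])⟩
    change |x.1 + s * κ x.2 - (x.1 + s' * κ x.2)| ≤ _
    rw [add_sub_add_left_eq_sub, ← sub_mul, abs_mul]
    linarith only [a2, a1, hL, mul_le_mul_of_nonneg_left a1 (abs_nonneg (s - s')), mul_nonneg_of_nonpos_of_nonpos (Mathlib.Tactic.Linarith.sub_nonpos_of_le hL) (Mathlib.Tactic.Linarith.sub_nonpos_of_le a2)]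
  set c1 := c / (c + M' + 1)
  have c10 : 0 < c1 := by positivity
  set δ := c1 / (4 * K * (M' + L + 1)) with hδ
  have δ0 : 0 < δ := by positivity
  refine ⟨c1 / 2, 1 + M' + L + c1 / 2, fun η hη => ?_⟩
  obtain ⟨f1, f2⟩ := fam_bil h1 h2 h3 (by positivity) (MModT_mem δ η) (MModT_var K0 hK δ0 hη)
    (le_of_eq (by rw [hδ]; field_simp; ring))
  have ax : ∀ z, Φ (MModT δ η (z, 0)) (z, 0) = (z, 0) := fun z => by simp [Φ, z0, hsp]
  refine ⟨_, f1, f2, ax, fun x hx => ?_, fun x hx => ?_⟩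
  · have e : η * MModR x.1 ≤ ‖x.2‖ := by
      by_cases q : x.1 ∈ Icc (0 : ℝ) 1
      · rw [MModR_in q]; exact le_of_not_ge fun r => hx ⟨q, r⟩
      · rw [MModR_out q, mul_zero]; exact norm_nonneg _
    simp [Φ, MModT, max_eq_right e]
  have o1 : ∀ᶠ y : ℝ × ℂ in 𝓝 x, y.1 ∈ Ioo (0 : ℝ) 1 :=
    continuous_fst.continuousAt.eventually (isOpen_Ioo.mem_nhds hx)
  have pos : ∀ y : ℝ × ℂ, y.1 ∈ Ioo (0 : ℝ) 1 → 0 < η * (y.1 * (1 - y.1)) := fun y hy =>
    mul_pos hη.1 (mul_pos hy.1 (sub_pos.2 hy.2))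
  by_cases hu : x.2 = 0
  · refine (CR.id' x).congr ?_
    have o2 : ∀ᶠ y : ℝ × ℂ in 𝓝 x, ‖y.2‖ * Real.exp δ⁻¹ < η * (y.1 * (1 - y.1)) :=
      ContinuousAt.eventually_lt (by fun_prop) (by fun_prop) (by simpa [hu] using pos x hx)
    filter_upwards [o1, o2] with y hy hy'
    by_cases q : y.2 = 0
    · have := ax y.1
      rwa [← q] at this
    have n0 := norm_pos_iff.2 q
    have l1 := Real.log_le_log (by positivity) (hy'.le.trans (le_max_left _ ‖y.2‖))
    rw [Real.log_mul n0.ne' (Real.exp_pos _).ne', Real.log_exp] at l1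
    have e : MModT δ η y = 0 := by
      rw [MModT, MModR_in (Ioo_subset_Icc_self hy), Real.smoothTransition.one_of_one_le, sub_self]
      exact (mul_inv_cancel₀ δ0.ne').symm.trans_le
        (mul_le_mul_of_nonneg_left (by linarith only [l1]) δ0.le)
    simp [Φ, e, hsp]
  obtain ⟨φ, ψ, φ0, hl⟩ := MMod_line hu
  let t : ℝ × ℂ → ℝ := fun y =>
    1 - Real.smoothTransition (δ * (Real.log (η * (y.1 * (1 - y.1))) - Real.log ‖y.2‖))
  let Ψ : (ℝ × ℂ) × ℝ × ℂ → ℝ × ℂ := fun w =>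
    (w.1.1 + t w.1 * w.2.1, w.1.2 * Complex.exp (t w.1 * w.2.2 / ‖w.1.2‖))
  let J : ℝ × ℂ → (ℝ × ℂ) × ℝ × ℂ := fun y => (y, κ y.2, k y.2)
  have e : Ψ ∘ J =ᶠ[𝓝 x] fun y => Φ (MModT δ η y) y := by
    filter_upwards [o1, continuous_snd.continuousAt.eventually_ne hu] with y hy hy'
    have e : MModT δ η y = t y := by
      rw [MModT, MModR_in (Ioo_subset_Icc_self hy)]
      rcases le_total (η * (y.1 * (1 - y.1))) ‖y.2‖ with q | q
      · have := Real.log_le_log (pos y hy) q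
        simp only [t, max_eq_right q, sub_self, mul_zero, Real.smoothTransition.zero]
        rw [Real.smoothTransition.zero_of_nonpos (by linarith only [δ0, this, mul_nonneg_of_nonpos_of_nonpos (le_of_lt (Mathlib.Tactic.Linarith.sub_neg_of_lt δ0)) (Mathlib.Tactic.Linarith.sub_nonpos_of_le this)])]
      · rw [max_eq_left q]
    rw [e]; rfl
  have nn : ContDiffAt ℝ 1 (fun y : ℝ × ℂ => ‖y.2‖) x := contDiffAt_snd.norm ℝ hu
  have ct : ContDiffAt ℝ 1 t x :=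
    contDiffAt_const.sub (Real.smoothTransition.contDiffAt.comp x (contDiffAt_const.mul
      ((ContDiffAt.log (f := fun y : ℝ × ℂ => η * (y.1 * (1 - y.1))) (by fun_prop)
        (pos x hx).ne').sub (nn.log (norm_ne_zero_iff.2 hu)))))
  have ct1 : ContDiffAt ℝ 1 (fun w : (ℝ × ℂ) × ℝ × ℂ => t w.1) (J x) :=
    ContDiffAt.comp (g := t) (J x) ct contDiffAt_fst
  have nn1 : ContDiffAt ℝ 1 (fun w : (ℝ × ℂ) × ℝ × ℂ => ((‖w.1.2‖⁻¹ : ℝ) : ℂ)) (J x) :=
    Complex.ofRealCLM.contDiff.contDiffAt.comp (J x) (ContDiffAt.comp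
      (g := fun y : ℝ × ℂ => ‖y.2‖⁻¹) (J x) (nn.inv (norm_ne_zero_iff.2 hu)) contDiffAt_fst)
  have cΨ : ContDiffAt ℝ 1 Ψ (J x) := by
    refine (contDiffAt_fst.fst.add (ct1.mul contDiffAt_snd.fst)).prodMk
      (contDiffAt_fst.snd.mul (ContDiffAt.cexp ?_))
    simpa [div_eq_mul_inv] using
      ((Complex.ofRealCLM.contDiff.contDiffAt.comp (J x) ct1).mul contDiffAt_snd.snd).mul nn1
  have cJ : Continuous J := continuous_id.prodMk
    ((κ1.continuous.comp continuous_snd).prodMk (k1.continuous.comp continuous_snd))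
  have dJ := HasFDerivAtFilter.prodMk
    (HasFDerivAtFilter.mono (hasStrictFDerivAt_id (𝕜 := ℝ) x) (inf_le_left : alg φ x ≤ _))
    ((MMod_sd κ0 κ1 hl).prodMk (MMod_sd k0 k1 hl))
  have d := HasFDerivAtFilter.comp (cΨ.hasStrictFDerivAt one_ne_zero) dJ
    (((cJ.prodMap cJ).tendsto (x, x)).mono_left inf_le_left)
  refine (cr_of_alg φ0 ((f2.ll x).congr e) f1.1 ?_ d).congr e.symm
  filter_upwards [f1.ex x, MCR_pair e] with p a b
  rwa [b.1, b.2]

end BEp
end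
end

-- merged part: Pool.Agent.Work.MP_f0515e_an.D3.MPol1
section
/-! Polar form of a homogeneous bi-Lipschitz map of the plane.
Plan. g a = h (exp (a I)) is continuous and nonzero; lift it through the covering map exp (Complex.isCoveringMap_exp or isCoveringMapOn_exp,
IsCoveringMap.existsUnique_continuousMap_lifts on the simply connected line; or lift g / ‖g‖ through Circle.isCoveringMap_exp): l continuous, exp (l a) = g a, ψ = im l.
(1) exp (i ψ a) = exp (i ψ b) forces exp (a I) = exp (b I) (homogeneity, injectivity, norms). (2) l (a + 2π) - l a lies in 2π i ℤ and is continuous, so it is a constant 2π i m.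
(3) ψ is injective on every half open interval of length 2π, so strictly monotone or antitone on it; replacing h by h ∘ conj (a by -a) we may assume monotone; then m > 0,
and m = 1 by the intermediate value theorem and (1). (4) For 0 ≤ b - a ≤ π/2: compare u = exp (a I), u' = (‖g a‖ / ‖g b‖) exp (b I): c ‖u - u'‖ ≤ ‖h u - h u'‖ ≤ ‖g a‖ (ψ b - ψ a) and
‖u - u'‖ ≥ sin (b - a) ≥ (2/π) (b - a); longer intervals by subdivision (induction on a multiple of π/2). (5) l is Lipschitz: locally ‖l b - l a‖ ≤ 2 ‖exp (l b - l a) - 1‖ ≤ (2 L / c) |b - a|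
(or separately: re l = log ‖g‖, and ψ b - ψ a ≤ C (b - a) from |sin|), then η a = l a - a I is 2π periodic, bounded and Lipschitz. (6) k u = ‖u‖ η (arg u); η (arg (exp (a I))) = η a by periodicity;
Lipschitz: for u = r exp (a I), u' = r' exp (b I) with |a - b| ≤ π: |r - r'| ≤ ‖u - u'‖ and min r r' |a - b| ≤ (π/2) ‖u - u'‖ (lemma chord_le of MPol0). -/

open Set Metric Filter Topology Function BEv MeasureTheory
open scoped NNReal ENNReal ContDiff

noncomputable section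
namespace BEp

theorem MPol1_lift {g : ℝ → ℂ} (hg : Continuous g) (h0 : ∀ a, g a ≠ 0) :
    ∃ ψ : ℝ → ℝ, Continuous ψ ∧ ∀ a, g a = (‖g a‖ : ℂ) * Complex.exp (ψ a * Complex.I) := by
  obtain ⟨f, ⟨-, hf⟩, -⟩ := Complex.isCoveringMapOn_exp.existsUnique_continuousMap_lifts
    (⟨g, hg⟩ : C(ℝ, ℂ)) (a₀ := 0) (Complex.exp_log (h0 0)) (fun x => h0 x)
  refine ⟨fun a => (f a).im, Complex.continuous_im.comp f.continuous, fun a => ?_⟩
  have e : g a = Complex.exp (f a) := (congrFun hf a).symm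
  rw [e, Complex.norm_exp, Complex.ofReal_exp, ← Complex.exp_add, Complex.re_add_im]

theorem MPol1_mono {φ : ℝ → ℝ} (hφ : Continuous φ) (h : ∀ t, ∀ᶠ s in 𝓝[>] t, φ t ≤ φ s)
    {a b : ℝ} (hab : a ≤ b) : φ a ≤ φ b := by
  have hc : IsClosed ({s | φ a ≤ φ s} ∩ Icc a b) :=
    (isClosed_le continuous_const hφ).inter isClosed_Icc
  refine hc.Icc_subset_of_forall_mem_nhdsWithin (le_refl (φ a)) (fun x hx => ?_) ⟨hab, le_rfl⟩
  filter_upwards [h x] with s hs using le_trans hx.1 hs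

theorem MPol1_log {c x y : ℝ} (hc : 0 < c) (hx : c ≤ x) (hy : c ≤ y) :
    |Real.log x - Real.log y| ≤ |x - y| / c := by
  have key : ∀ x y : ℝ, c ≤ x → c ≤ y → Real.log x - Real.log y ≤ |x - y| / c := by
    intro x y hx hy
    have x0 : 0 < x := hc.trans_le hx
    have y0 : 0 < y := hc.trans_le hy
    rw [← Real.log_div x0.ne' y0.ne']
    refine (Real.log_le_sub_one_of_pos (div_pos x0 y0)).trans ?_
    have e : x / y - 1 = (x - y) / y := by field_simp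
    rw [e]
    calc (x - y) / y ≤ |x - y| / y := by gcongr; exact le_abs_self _
      _ ≤ |x - y| / c := by gcongr
  rw [abs_le]
  refine ⟨?_, key x y hx hy⟩
  have := key y x hy hx
  rw [abs_sub_comm] at this
  linarith only [this]

theorem MPol1_zero {h : ℂ → ℂ} (h0 : Hmg h) : h 0 = 0 := by
  simpa using h0 0 0 le_rfl

theorem MPol1_lo {h : ℂ → ℂ} (h0 : Hmg h) {c : ℝ} (h2 : Xp h c) (a : ℝ) :
    c ≤ ‖h (Complex.exp (a * Complex.I))‖ := by
  simpa [MPol1_zero h0, Complex.norm_exp_ofReal_mul_I] using h2.2 (Complex.exp (a * Complex.I)) 0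

theorem MPol1_hi {h : ℂ → ℂ} (h0 : Hmg h) {L : ℝ} (h1 : Lz h L) (a : ℝ) :
    ‖h (Complex.exp (a * Complex.I))‖ ≤ L := by
  simpa [MPol1_zero h0, Complex.norm_exp_ofReal_mul_I] using h1 (Complex.exp (a * Complex.I)) 0

theorem MPol1_lip {h : ℂ → ℂ} (h0 : Hmg h) {L : ℝ} (h1 : Lz h L) (a b : ℝ) :
    ‖h (Complex.exp (a * Complex.I)) - h (Complex.exp (b * Complex.I))‖ ≤ L * |a - b| := by
  have L0 : 0 ≤ L := (norm_nonneg _).trans (MPol1_hi h0 h1 0)
  exact (h1 _ _).trans (mul_le_mul_of_nonneg_left (chord_unit a b) L0)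

theorem MPol1_cont {h : ℂ → ℂ} (h0 : Hmg h) {L : ℝ} (h1 : Lz h L) :
    Continuous fun a : ℝ => h (Complex.exp (a * Complex.I)) := by
  have L0 : 0 ≤ L := (norm_nonneg _).trans (MPol1_hi h0 h1 0)
  refine (LipschitzWith.of_dist_le_mul (K := ⟨L, L0⟩) fun a b => ?_).continuous
  rw [dist_eq_norm, Real.dist_eq]
  exact MPol1_lip h0 h1 a b

theorem MPol1_B1 {h : ℂ → ℂ} (h0 : Hmg h) {L c : ℝ} (h1 : Lz h L) (h2 : Xp h c) {ψ : ℝ → ℝ}
    (hψ : ∀ a : ℝ, h (Complex.exp (a * Complex.I)) =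
      (‖h (Complex.exp (a * Complex.I))‖ : ℂ) * Complex.exp (ψ a * Complex.I)) :
    ∃ d : ℝ, 0 < d ∧ ∀ a b : ℝ, |a - b| ≤ Real.pi →
      d * |a - b| ≤ ‖Complex.exp (ψ a * Complex.I) - Complex.exp (ψ b * Complex.I)‖ := by
  have c0 := h2.1
  have p0 := Real.pi_pos
  have cL : c ≤ L := (MPol1_lo h0 h2 0).trans (MPol1_hi h0 h1 0)
  have L0 : 0 < L := c0.trans_le cL
  refine ⟨c / L * (c / L) * (2 / Real.pi), by positivity, fun a b hab => ?_⟩
  set ra := ‖h (Complex.exp (a * Complex.I))‖ with hra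
  set rb := ‖h (Complex.exp (b * Complex.I))‖ with hrb
  have a1 : c ≤ ra := MPol1_lo h0 h2 a
  have a2 : ra ≤ L := MPol1_hi h0 h1 a
  have b1 : c ≤ rb := MPol1_lo h0 h2 b
  have b2 : rb ≤ L := MPol1_hi h0 h1 b
  have ra0 : 0 < ra := c0.trans_le a1
  have rb0 : 0 < rb := c0.trans_le b1
  have q0 : 0 ≤ ra / rb := by positivity
  have e1 : h ((ra / rb) • Complex.exp (b * Complex.I)) = ra * Complex.exp (ψ b * Complex.I) := by
    rw [h0 _ _ q0, hψ b, ← hrb, Complex.real_smul]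
    have : (rb : ℂ) ≠ 0 := by exact_mod_cast rb0.ne'
    push_cast
    field_simp
  have e2 := h2.2 (Complex.exp (a * Complex.I)) ((ra / rb) • Complex.exp (b * Complex.I))
  rw [e1, hψ a, ← hra, ← mul_sub, norm_mul, Complex.norm_real, Real.norm_of_nonneg ra0.le,
    Complex.real_smul] at e2
  have e3 := chord_le (r := 1) (s := ra / rb) zero_le_one q0 hab
  rw [Complex.ofReal_one, one_mul] at e3
  have e4 : c / L ≤ min 1 (ra / rb) := le_min ((div_le_one L0).2 cL) (by gcongr)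
  set N := ‖Complex.exp (a * Complex.I) - ((ra / rb : ℝ) : ℂ) * Complex.exp (b * Complex.I)‖
  set N' := ‖Complex.exp (ψ a * Complex.I) - Complex.exp (ψ b * Complex.I)‖
  have N0 : 0 ≤ N' := norm_nonneg _
  have e5 : c / L * |a - b| ≤ Real.pi / 2 * N :=
    (mul_le_mul_of_nonneg_right e4 (abs_nonneg _)).trans e3
  have e6 : c / L * N ≤ N' := by
    rw [div_mul_eq_mul_div, div_le_iff₀ L0]
    linarith only [e2, a2, N0, mul_nonneg_of_nonpos_of_nonpos (Mathlib.Tactic.Linarith.sub_nonpos_of_le a2) (Mathlib.Tactic.Linarith.sub_nonpos_of_le N0)]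
  calc c / L * (c / L) * (2 / Real.pi) * |a - b|
      = c / L * (2 / Real.pi) * (c / L * |a - b|) := by ring
    _ ≤ c / L * (2 / Real.pi) * (Real.pi / 2 * N) := by gcongr
    _ = c / L * N := by field_simp
    _ ≤ N' := e6

theorem MPol1_B2 {h : ℂ → ℂ} (h0 : Hmg h) {L c : ℝ} (h1 : Lz h L) (h2 : Xp h c) {ψ : ℝ → ℝ}
    (hc : Continuous ψ) (hψ : ∀ a : ℝ, h (Complex.exp (a * Complex.I)) =
      (‖h (Complex.exp (a * Complex.I))‖ : ℂ) * Complex.exp (ψ a * Complex.I)) :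
    ∃ C : ℝ, 0 ≤ C ∧ ∀ a b : ℝ, |ψ a - ψ b| ≤ C * |a - b| := by
  have c0 := h2.1
  have p0 := Real.pi_pos
  have cL : c ≤ L := (MPol1_lo h0 h2 0).trans (MPol1_hi h0 h1 0)
  have L0 : 0 < L := c0.trans_le cL
  obtain ⟨C, C0, hC⟩ : ∃ C : ℝ, 0 ≤ C ∧ ∀ a b : ℝ, |ψ a - ψ b| ≤ Real.pi →
      |ψ a - ψ b| ≤ C * |a - b| := by
    refine ⟨Real.pi / 2 * L / c, by positivity, fun a b hab => ?_⟩
    have e := chord_le (norm_nonneg (h (Complex.exp (a * Complex.I))))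
      (norm_nonneg (h (Complex.exp (b * Complex.I)))) hab
    rw [← hψ a, ← hψ b] at e
    have e2 := MPol1_lip h0 h1 a b
    have e3 : c ≤ min ‖h (Complex.exp (a * Complex.I))‖ ‖h (Complex.exp (b * Complex.I))‖ :=
      le_min (MPol1_lo h0 h2 a) (MPol1_lo h0 h2 b)
    have e4 := (mul_le_mul_of_nonneg_right e3 (abs_nonneg (ψ a - ψ b))).trans e
    rw [div_mul_eq_mul_div, le_div_iff₀ c0]
    linarith only [e4, p0, e2, mul_nonneg_of_nonpos_of_nonpos (le_of_lt (Mathlib.Tactic.Linarith.sub_neg_of_lt p0)) (Mathlib.Tactic.Linarith.sub_nonpos_of_le e2)]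
  have ev : ∀ t, ∀ᶠ s in 𝓝[>] t, |ψ s - ψ t| ≤ C * (s - t) := by
    intro t
    have e1 : ∀ᶠ s in 𝓝 t, |ψ s - ψ t| < Real.pi := by
      have : Continuous fun s => |ψ s - ψ t| := by fun_prop
      exact this.continuousAt.eventually_lt continuousAt_const (by simpa using p0)
    filter_upwards [nhdsWithin_le_nhds e1, self_mem_nhdsWithin] with s hs hs'
    have := hC s t hs.le
    rwa [abs_of_pos (a := s - t) (sub_pos.2 hs')] at this
  have key : ∀ a b : ℝ, a ≤ b → |ψ a - ψ b| ≤ C * |a - b| := by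
    intro a b hab
    have m1 := MPol1_mono (φ := fun s => C * s - ψ s) (by fun_prop) (fun t => by
      filter_upwards [ev t] with s hs
      have := (abs_le.1 hs).2
      linarith) hab
    have m2 := MPol1_mono (φ := fun s => C * s + ψ s) (by fun_prop) (fun t => by
      filter_upwards [ev t] with s hs
      have := (abs_le.1 hs).1
      linarith) hab
    rw [abs_sub_comm a, abs_of_nonneg (sub_nonneg.2 hab), abs_le]
    constructor <;> linarith
  refine ⟨C, C0, fun a b => ?_⟩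
  rcases le_total a b with hab | hab
  · exact key a b hab
  · rw [abs_sub_comm, abs_sub_comm a]; exact key b a hab

theorem MPol1_sign {ψ : ℝ → ℝ} (hc : Continuous ψ)
    (hne : ∀ a t : ℝ, 0 < t → t ≤ Real.pi → ψ (a + t) ≠ ψ a) :
    (∀ a t : ℝ, 0 < t → t ≤ Real.pi → ψ a < ψ (a + t)) ∨
      ∀ a t : ℝ, 0 < t → t ≤ Real.pi → ψ (a + t) < ψ a := by
  by_contra hh
  push Not at hh
  obtain ⟨⟨a, t, t0, t1, h1⟩, ⟨b, s, s0, s1, h2⟩⟩ := hh
  have hp : IsPreconnected ((univ : Set ℝ) ×ˢ Ioc (0 : ℝ) Real.pi) :=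
    isPreconnected_univ.prod isPreconnected_Ioc
  have hD : Continuous fun p : ℝ × ℝ => ψ (p.1 + p.2) - ψ p.1 := by fun_prop
  obtain ⟨p, hp1, hp2⟩ := hp.intermediate_value (a := (a, t)) (b := (b, s)) ⟨trivial, t0, t1⟩
    ⟨trivial, s0, s1⟩ hD.continuousOn (show (0 : ℝ) ∈ Icc _ _ from ⟨by simpa using h1, by simpa using h2⟩)
  exact hne p.1 p.2 hp1.2.1 hp1.2.2 (sub_eq_zero.1 hp2)

theorem MPol1_exp_per (a : ℝ) :
    Complex.exp (((a + 2 * Real.pi : ℝ) : ℂ) * Complex.I) = Complex.exp (a * Complex.I) := by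
  have e : ((a + 2 * Real.pi : ℝ) : ℂ) * Complex.I = a * Complex.I + 2 * Real.pi * Complex.I := by
    push_cast; ring
  rw [e, Complex.exp_add, Complex.exp_two_pi_mul_I, mul_one]

theorem MPol1_exp_eq {x y : ℝ} (h : Complex.exp (x * Complex.I) = Complex.exp (y * Complex.I)) :
    ∃ n : ℤ, x = y + n * (2 * Real.pi) := by
  obtain ⟨n, hn⟩ := Complex.exp_eq_exp_iff_exists_int.1 h
  refine ⟨n, ?_⟩
  have := congrArg Complex.im hn
  simpa using this

theorem MPol1_deg {ψ : ℝ → ℝ} (hc : Continuous ψ) {d : ℝ} (d0 : 0 < d)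
    (hB : ∀ a b : ℝ, |a - b| ≤ Real.pi →
      d * |a - b| ≤ ‖Complex.exp (ψ a * Complex.I) - Complex.exp (ψ b * Complex.I)‖)
    (hm : ∀ a b : ℝ, a ≤ b → d * (b - a) ≤ ψ b - ψ a)
    (hp : ∀ a : ℝ, Complex.exp (ψ (a + 2 * Real.pi) * Complex.I) = Complex.exp (ψ a * Complex.I))
    (a : ℝ) : ψ (a + 2 * Real.pi) = ψ a + 2 * Real.pi := by
  have p0 := Real.pi_pos
  obtain ⟨n, hn⟩ := MPol1_exp_eq (hp a)
  have n0 : 0 < n := by
    have := hm a (a + 2 * Real.pi) (by linarith)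
    have h3 : 0 < (n : ℝ) * (2 * Real.pi) := by linarith only [hn, this, d0, p0, mul_pos_of_neg_of_neg (Mathlib.Tactic.Linarith.sub_neg_of_lt d0) (Mathlib.Tactic.Linarith.sub_neg_of_lt p0)]
    have h4 : 0 < (n : ℝ) := (pos_iff_pos_of_mul_pos h3).2 (by positivity)
    exact_mod_cast h4
  rcases eq_or_lt_of_le (show (1 : ℤ) ≤ n from n0) with h1 | h1
  · rw [hn, ← h1]; simp
  exfalso
  have h1' : (1 : ℝ) < n := by exact_mod_cast h1
  obtain ⟨t, ht, ht'⟩ := intermediate_value_Ioo (show a ≤ a + 2 * Real.pi by linarith)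
    hc.continuousOn (show ψ a + 2 * Real.pi ∈ Ioo _ _ from ⟨by linarith, by linarith only [hn, p0, h1', mul_pos_of_neg_of_neg (Mathlib.Tactic.Linarith.sub_neg_of_lt p0) (Mathlib.Tactic.Linarith.sub_neg_of_lt h1')]⟩)
  have e : Complex.exp (ψ t * Complex.I) = Complex.exp (ψ a * Complex.I) := by
    rw [ht', MPol1_exp_per]
  rcases le_total (t - a) Real.pi with h5 | h5
  · have := hB t a (by rw [abs_of_pos (sub_pos.2 ht.1)]; exact h5)
    rw [e, sub_self, norm_zero, abs_of_pos (sub_pos.2 ht.1)] at this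
    linarith only [this, d0, ht, ht.1, mul_pos_of_neg_of_neg (Mathlib.Tactic.Linarith.sub_neg_of_lt d0) (Mathlib.Tactic.Linarith.sub_neg_of_lt ht.left)]
  · have := hB (a + 2 * Real.pi) t (by rw [abs_of_pos (sub_pos.2 ht.2)]; linarith)
    rw [hp, e, sub_self, norm_zero, abs_of_pos (sub_pos.2 ht.2)] at this
    linarith only [this, d0, ht, ht.2, mul_pos_of_neg_of_neg (Mathlib.Tactic.Linarith.sub_neg_of_lt d0) (Mathlib.Tactic.Linarith.sub_neg_of_lt ht.right)]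

theorem MPol1_hom {η : ℝ → ℂ} (hp : Function.Periodic η (2 * Real.pi)) {K : ℝ} (K0 : 0 ≤ K)
    (hK : ∀ a b, ‖η a - η b‖ ≤ K * |a - b|) :
    ∃ (k : ℂ → ℂ) (M : ℝ), Hmg k ∧ Lz k M ∧
      ∀ r a : ℝ, 0 ≤ r → k (r * Complex.exp (a * Complex.I)) = r * η a := by
  have p0 := Real.pi_pos
  have key : ∀ r a : ℝ, 0 ≤ r → (‖(r : ℂ) * Complex.exp (a * Complex.I)‖ : ℂ) *
      η (Complex.arg (r * Complex.exp (a * Complex.I))) = r * η a := by
    intro r a hr
    have nr : ‖(r : ℂ) * Complex.exp (a * Complex.I)‖ = r := by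
      rw [norm_mul, Complex.norm_exp_ofReal_mul_I, mul_one, Complex.norm_real,
        Real.norm_of_nonneg hr]
    rcases eq_or_lt_of_le hr with h | h
    · subst h; simp
    have e := Complex.norm_mul_exp_arg_mul_I ((r : ℂ) * Complex.exp (a * Complex.I))
    rw [nr] at e ⊢
    have r0 : (r : ℂ) ≠ 0 := by exact_mod_cast h.ne'
    obtain ⟨n, hn⟩ := MPol1_exp_eq (mul_left_cancel₀ r0 e)
    rw [hn, hp.int_mul n a]
  have bd : ∀ a, ‖η a‖ ≤ ‖η 0‖ + K * Real.pi := by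
    intro a
    have e := key 1 a zero_le_one
    simp only [Complex.ofReal_one, one_mul, Complex.norm_exp_ofReal_mul_I] at e
    rw [← e]
    have e2 := hK (Complex.arg (Complex.exp (a * Complex.I))) 0
    rw [sub_zero] at e2
    have e3 := Complex.abs_arg_le_pi (Complex.exp (a * Complex.I))
    have e4 := norm_sub_norm_le (η (Complex.arg (Complex.exp (a * Complex.I)))) (η 0)
    linarith only [e2, e4, K0, e3, mul_nonneg_of_nonpos_of_nonpos (Mathlib.Tactic.Linarith.sub_nonpos_of_le K0) (Mathlib.Tactic.Linarith.sub_nonpos_of_le e3)]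
  set B := ‖η 0‖ + K * Real.pi
  have B0 : 0 ≤ B := (norm_nonneg _).trans (bd 0)
  refine ⟨fun u => (‖u‖ : ℂ) * η (Complex.arg u), B + K * (Real.pi / 2), fun t u ht => ?_,
    fun u v => ?_, key⟩
  · have e : t • u = ((t * ‖u‖ : ℝ) : ℂ) * Complex.exp (Complex.arg u * Complex.I) := by
      rw [Complex.ofReal_mul, mul_assoc, Complex.norm_mul_exp_arg_mul_I, Complex.real_smul]
    simp only []
    rw [e, key _ _ (by positivity), Complex.real_smul]
    push_cast; ring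
  · obtain ⟨a, b, hab, hu, hv⟩ := polar_pair u v
    have e1 := key _ a (norm_nonneg u)
    have e2 := key _ b (norm_nonneg v)
    have e3 := chord_le (norm_nonneg u) (norm_nonneg v) hab
    have e4 := chord_rad (norm_nonneg u) (norm_nonneg v) a b
    rw [← hu] at e1
    rw [← hv] at e2
    rw [← hu, ← hv] at e3 e4
    simp only []
    rw [e1, e2]
    have main : ∀ r s a b : ℝ, 0 ≤ s → ‖(r : ℂ) * η a - s * η b‖ ≤ |r - s| * B + s * (K * |a - b|) := by
      intro r s a b hs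
      have e : (r : ℂ) * η a - s * η b = ((r - s : ℝ) : ℂ) * η a + s * (η a - η b) := by
        push_cast; ring
      rw [e]
      refine (norm_add_le _ _).trans ?_
      rw [norm_mul, norm_mul, Complex.norm_real, Complex.norm_real, Real.norm_eq_abs,
        Real.norm_of_nonneg hs]
      gcongr
      · exact bd a
      · exact hK a b
    have fin : ‖(‖u‖ : ℂ) * η a - ‖v‖ * η b‖ ≤
        |‖u‖ - ‖v‖| * B + min ‖u‖ ‖v‖ * (K * |a - b|) := by
      rcases le_total ‖v‖ ‖u‖ with h | h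
      · rw [min_eq_right h]; exact main _ _ a b (norm_nonneg v)
      · rw [min_eq_left h, norm_sub_rev, abs_sub_comm, abs_sub_comm a]
        exact main _ _ b a (norm_nonneg u)
    refine fin.trans ?_
    linarith only [e3, K0, e4, B0, mul_le_mul_of_nonneg_left e3 K0, mul_le_mul_of_nonneg_left e4 B0]

theorem MPol1_main {h : ℂ → ℂ} (h0 : Hmg h) {L c : ℝ} (h1 : Lz h L) (h2 : Xp h c) {ψ : ℝ → ℝ}
    (hc : Continuous ψ) (hψ : ∀ a : ℝ, h (Complex.exp (a * Complex.I)) =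
      (‖h (Complex.exp (a * Complex.I))‖ : ℂ) * Complex.exp (ψ a * Complex.I))
    (hs : ∀ a t : ℝ, 0 < t → t ≤ Real.pi → ψ a < ψ (a + t)) :
    ∃ (k : ℂ → ℂ) (M : ℝ), Hmg k ∧ Lz k M ∧ Ang k ∧ ∀ u, h u = hsp k 1 u := by
  have c0 := h2.1
  have p0 := Real.pi_pos
  have cL : c ≤ L := (MPol1_lo h0 h2 0).trans (MPol1_hi h0 h1 0)
  have L0 : 0 < L := c0.trans_le cL
  obtain ⟨d, d0, hd⟩ := MPol1_B1 h0 h1 h2 hψ
  obtain ⟨C, C0, hC⟩ := MPol1_B2 h0 h1 h2 hc hψ
  have hm : ∀ a b : ℝ, a ≤ b → d * (b - a) ≤ ψ b - ψ a := by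
    intro a b hab
    have m := MPol1_mono (φ := fun s => ψ s - d * s) (by fun_prop) (fun t => by
      filter_upwards [Ioc_mem_nhdsGT (show t < t + Real.pi by linarith)] with s hs'
      have s0 : 0 < s - t := sub_pos.2 hs'.1
      have e1 := hs t (s - t) s0 (by linarith [hs'.2])
      rw [add_sub_cancel] at e1
      have e2 := (hd s t (by rw [abs_of_pos s0]; linarith [hs'.2])).trans (chord_unit _ _)
      rw [abs_of_pos s0, abs_of_pos (sub_pos.2 e1)] at e2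
      linarith) hab
    linarith
  have ne : ∀ a : ℝ, (‖h (Complex.exp (a * Complex.I))‖ : ℂ) ≠ 0 := fun a => by
    exact_mod_cast (c0.trans_le (MPol1_lo h0 h2 a)).ne'
  have hp : ∀ a : ℝ,
      Complex.exp (ψ (a + 2 * Real.pi) * Complex.I) = Complex.exp (ψ a * Complex.I) := by
    intro a
    have e := hψ (a + 2 * Real.pi)
    rw [MPol1_exp_per] at e
    exact mul_left_cancel₀ (ne a) (e.symm.trans (hψ a))
  have hdeg := MPol1_deg hc d0 hd hm hp
  obtain ⟨η, hη⟩ : ∃ η : ℝ → ℂ, ∀ a, η a =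
      (Real.log ‖h (Complex.exp (a * Complex.I))‖ : ℝ) + ((ψ a - a : ℝ) : ℂ) * Complex.I :=
    ⟨_, fun _ => rfl⟩
  have per : Function.Periodic η (2 * Real.pi) := by
    intro a
    rw [hη, hη, MPol1_exp_per, hdeg]
    push_cast; ring
  have lip : ∀ a b, ‖η a - η b‖ ≤ (L / c + C + 1) * |a - b| := by
    intro a b
    have e : η a - η b = ((Real.log ‖h (Complex.exp (a * Complex.I))‖ -
        Real.log ‖h (Complex.exp (b * Complex.I))‖ : ℝ) : ℂ) +
        (((ψ a - ψ b) - (a - b) : ℝ) : ℂ) * Complex.I := by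
      rw [hη, hη]; push_cast; ring
    rw [e]
    refine (norm_add_le _ _).trans ?_
    rw [norm_mul, Complex.norm_I, mul_one, Complex.norm_real, Complex.norm_real, Real.norm_eq_abs,
      Real.norm_eq_abs]
    have e1 := MPol1_log c0 (MPol1_lo h0 h2 a) (MPol1_lo h0 h2 b)
    have e2 := (abs_norm_sub_norm_le _ _).trans (MPol1_lip h0 h1 a b)
    have e3 : |‖h (Complex.exp (a * Complex.I))‖ - ‖h (Complex.exp (b * Complex.I))‖| / c ≤
        L / c * |a - b| := by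
      rw [div_mul_eq_mul_div]; gcongr
    have e4 := abs_sub (ψ a - ψ b) (a - b)
    have e5 := hC a b
    linarith only [e1, e3, e4, e5]
  obtain ⟨k, M, k1, k2, k3⟩ := MPol1_hom per (by positivity) lip
  have k4 : ∀ a : ℝ, k (Complex.exp (a * Complex.I)) = η a := fun a => by
    simpa using k3 1 a zero_le_one
  refine ⟨k, M, k1, k2, ⟨d, d0, fun a b hab => ?_⟩, fun u => ?_⟩
  · rw [k4, k4, hη, hη]
    simpa using hm a b hab
  · by_cases u0 : u = 0
    · subst u0; simp [hsp, MPol1_zero h0]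
    have e := Complex.norm_mul_exp_arg_mul_I u
    have n0 : (‖u‖ : ℂ) ≠ 0 := by exact_mod_cast norm_ne_zero_iff.2 u0
    have e1 : k u = ‖u‖ * η (Complex.arg u) := by
      conv_lhs => rw [← e]
      exact k3 _ _ (norm_nonneg u)
    have e2 : h u = ‖u‖ * h (Complex.exp (Complex.arg u * Complex.I)) := by
      conv_lhs => rw [← e]
      rw [← Complex.real_smul, h0 _ _ (norm_nonneg u), Complex.real_smul]
    have e3 : ((1 : ℝ) : ℂ) * k u / ‖u‖ = η (Complex.arg u) := by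
      rw [e1]; push_cast; field_simp
    unfold hsp
    rw [e3, e2, hη, Complex.exp_add, ← Complex.ofReal_exp,
      Real.exp_log (c0.trans_le (MPol1_lo h0 h2 _))]
    conv_lhs => rw [hψ]
    have e4 : Complex.exp (ψ (Complex.arg u) * Complex.I) = Complex.exp (Complex.arg u * Complex.I) *
        Complex.exp (((ψ (Complex.arg u) - Complex.arg u : ℝ) : ℂ) * Complex.I) := by
      rw [← Complex.exp_add]; congr 1; push_cast; ring
    rw [e4]
    linear_combination (‖h (Complex.exp (Complex.arg u * Complex.I))‖ *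
      Complex.exp (((ψ (Complex.arg u) - Complex.arg u : ℝ) : ℂ) * Complex.I)) * e

theorem polar {h : ℂ → ℂ} (h0 : Hmg h) {L c : ℝ} (h1 : Lz h L) (h2 : Xp h c) :
    ∃ (σ : ℂ ≃L[ℝ] ℂ) (k : ℂ → ℂ) (M : ℝ), Hmg k ∧ Lz k M ∧ Ang k ∧
      ∀ u, h (σ u) = hsp k 1 u := by
  have c0 := h2.1
  obtain ⟨ψ, hc, hψ⟩ := MPol1_lift (MPol1_cont h0 h1) fun a =>
    norm_pos_iff.1 (c0.trans_le (MPol1_lo h0 h2 a))
  obtain ⟨d, d0, hd⟩ := MPol1_B1 h0 h1 h2 hψ
  rcases MPol1_sign hc (fun a t t0 t1 he => by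
    have e := hd (a + t) a (by rw [add_sub_cancel_left, abs_of_pos t0]; exact t1)
    rw [he, sub_self, norm_zero, add_sub_cancel_left, abs_of_pos t0] at e
    linarith only [e, d0, t0, mul_pos_of_neg_of_neg (Mathlib.Tactic.Linarith.sub_neg_of_lt d0) (Mathlib.Tactic.Linarith.sub_neg_of_lt t0)]) with hs | hs
  · obtain ⟨k, M, k1, k2, k3, k4⟩ := MPol1_main h0 h1 h2 hc hψ hs
    exact ⟨ContinuousLinearEquiv.refl ℝ ℂ, k, M, k1, k2, k3, k4⟩
  · have nc : ∀ x y : ℂ, ‖Complex.conjCLE x - Complex.conjCLE y‖ = ‖x - y‖ := fun x y => by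
      rw [← map_sub, Complex.conjCLE_apply, Complex.norm_conj]
    have ec : ∀ a : ℝ, Complex.conjCLE (Complex.exp (a * Complex.I)) =
        Complex.exp (((-a : ℝ) : ℂ) * Complex.I) := fun a => by
      rw [Complex.conjCLE_apply, ← Complex.exp_conj]
      simp
    obtain ⟨k, M, k1, k2, k3, k4⟩ := MPol1_main (h := fun u => h (Complex.conjCLE u))
      (fun t u ht => by simp only [map_smul]; exact h0 t _ ht) (L := L) (c := c)
      (fun x y => by rw [← nc x y]; exact h1 _ _) ⟨c0, fun x y => by rw [← nc x y]; exact h2.2 _ _⟩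
      (ψ := fun a => ψ (-a)) (by fun_prop) (fun a => by rw [ec]; exact hψ _)
      (fun a t t0 t1 => by
        have := hs (-(a + t)) t t0 t1
        rwa [show -(a + t) + t = -a by ring] at this)
    exact ⟨Complex.conjCLE, k, M, k1, k2, k3, k4⟩

end BEp
end
end

-- merged part: Pool.Agent.Work.MP_f0515e_an.D3.MStr1
section
/-! A complex on whose closed cells the map is affine. -/

open Set Metric Filter Topology Function BEv MeasureTheory
open scoped NNReal ENNReal ContDiff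

noncomputable section
namespace BEp

variable {Ω : Set (Rn 3)} {G : Rn 3 → Rn 3} {K : Kx Ω} {x : Rn 3}

/-- `G` is affine on the closed cells. -/
def AfK (K : Kx Ω) (G : Rn 3 → Rn 3) : Prop :=
  ∀ x ∈ Ω, ∃ (A : Rn 3 →L[ℝ] Rn 3) (b : Rn 3), ∀ y ∈ closure (K.cell x), G y = A y + b

theorem exists_afk (hΩ : IsOpen Ω) (h : LTP Ω G) : ∃ K : Kx Ω, AfK K G := by
  obtain ⟨K, -⟩ := exists_kx hΩ (δ := fun _ => 1) continuousOn_const fun _ _ => one_pos
  have : ∀ τ ∈ K.cells, ∃ L : Set ((Rn 3 →L[ℝ] ℝ) × ℝ), L.Finite ∧ ∀ x ∈ closure τ,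
      ∃ A : (Rn 3 →L[ℝ] Rn 3) × Rn 3, ∀ y ∈ closure τ ∩ cface L x, G y = A.1 y + A.2 :=
    fun τ hτ => by
      obtain ⟨g, hg, e⟩ := h _ (Kx.cells_poly hτ).1 (Kx.cl_sub hτ)
      obtain ⟨R, hR⟩ := (Kx.cells_poly hτ).1.isBounded.exists_norm_le
      obtain ⟨L, h1, -, h2⟩ := adapted_tp finite_empty hg R
      exact ⟨L, h1, fun x hx => (h2 x (hR x hx)).imp fun A k y hy => (e hy.1).trans (k y hy.2)⟩
  choose! L h1 h2 using this
  obtain ⟨K', hK⟩ := K.refine (fun x => ⋃ τ ∈ {τ | τ ∈ K.cells ∧ x ∈ closure τ}, L τ)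
    (fun x hx => ((K.lf_cl hΩ isCompact_singleton (singleton_subset_iff.2 hx)).subset
      fun τ k => ⟨k.1, x, k.2, rfl⟩).biUnion fun τ k => h1 τ k.1)
    fun x hx y hy => biUnion_subset_biUnion_left fun τ k => ⟨k.1, closure_minimal
      (Kx.front (K.cell_mem hx) k.1 ⟨x, K.mem x hx, k.2⟩) isClosed_closure hy⟩
  refine ⟨K', fun x hx => ?_⟩
  have m := subset_closure (K.mem x hx)
  obtain ⟨A, hA⟩ := h2 _ (K.cell_mem hx) x m
  refine ⟨A.1, A.2, fun y hy => hA y ?_⟩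
  rw [hK x hx] at hy
  rw [← closure_face]
  exact ⟨closure_mono inter_subset_left hy, closure_mono (inter_subset_right.trans
    (face_anti (fun A k => mem_iUnion₂.2 ⟨_, ⟨K.cell_mem hx, m⟩, k⟩) x)) hy⟩

theorem ltp_il (hΩ : IsOpen Ω) (h : LTP Ω G) (hi : InjOn G Ω) : IL Ω G := by
  exact ⟨hi, fun x hx => (h.ll hΩ isCompact_singleton (singleton_subset_iff.2 hx)).imp
    fun c k => k.2 x rfl⟩

theorem ltp_ex (hΩ : IsOpen Ω) (h : LTP Ω G) (hi : InjOn G Ω) (hx : x ∈ Ω) :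
    ∃ c, 0 < c ∧ EX G x c := by
  obtain ⟨r, r0, hr⟩ := nhds_basis_closedBall.mem_iff.1 (hΩ.mem_nhds hx)
  obtain ⟨g, hg, e⟩ := h _ (isCompact_closedBall x r) hr
  obtain ⟨c, c0, hc⟩ := (Poly.closedBall x r).expand hg ((hi.mono hr).congr e)
  refine ⟨c, c0, ?_⟩
  filter_upwards [prod_mem_nhds (closedBall_mem_nhds x r0) (closedBall_mem_nhds x r0)] with q hq
  rw [e hq.1, e hq.2]
  exact hc _ hq.1 _ hq.2

theorem AfK.alg (h : AfK K G) (hΩ : IsOpen Ω) (hx : x ∈ Ω) : ∃ A : Rn 3 →L[ℝ] Rn 3,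
    ∀ᶠ q : Rn 3 × Rn 3 in 𝓝 (x, x), q.1 - q.2 ∈ vectorSpan ℝ (K.cell x) →
      G q.1 - G q.2 = A (q.1 - q.2) := by
  obtain ⟨A, b, hA⟩ := h x hx
  obtain ⟨ε, ε0, hε⟩ := Kx.relopen (K.cell_mem hx) (K.mem x hx)
  have t1 : Tendsto (fun q : Rn 3 × Rn 3 => x + (2 : ℝ) • (q.2 - x)) (𝓝 (x, x)) (𝓝 x) :=
    Continuous.tendsto' (by fun_prop) _ _ (by simp)
  have t2 : Tendsto (fun q : Rn 3 × Rn 3 => ‖(2 : ℝ) • (q.1 - q.2)‖) (𝓝 (x, x)) (𝓝 0) :=
    Continuous.tendsto' (by fun_prop) _ _ (by simp)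
  refine ⟨A, ?_⟩
  filter_upwards [t1.eventually (K.near hΩ hx), t2.eventually_lt_const ε0] with q h1 h2 hq
  obtain ⟨B, c, hB⟩ := h _ h1.1
  have hz : x + (2 : ℝ) • (q.1 - q.2) ∈ K.cell x :=
    hε _ (by rw [add_sub_cancel_left]; exact Submodule.smul_mem _ _ hq) (by
      rwa [add_sub_cancel_left])
  have s := Kx.front (K.cell_mem hx) (K.cell_mem h1.1) ⟨x, K.mem x hx, h1.2⟩
  have cv := (K.cvx _ h1.1).closure
  have my := subset_closure (K.mem _ h1.1)
  have m1 := cv (s hz) my (a := 1 / 2) (b := 1 / 2) (by norm_num) (by norm_num) (by norm_num)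
  have m2 := cv h1.2 my (a := 1 / 2) (b := 1 / 2) (by norm_num) (by norm_num) (by norm_num)
  rw [show (1 / 2 : ℝ) • (x + (2 : ℝ) • (q.1 - q.2)) + (1 / 2 : ℝ) • (x + (2 : ℝ) • (q.2 - x)) = q.1
    by module] at m1
  rw [show (1 / 2 : ℝ) • x + (1 / 2 : ℝ) • (x + (2 : ℝ) • (q.2 - x)) = q.2 by module] at m2
  have e1 := (hA _ (subset_closure hz)).symm.trans (hB _ (s hz))
  have e2 := (hA _ (subset_closure (K.mem x hx))).symm.trans (hB _ h1.2)
  rw [hB _ m1, hB _ m2, add_sub_add_right_eq_sub, ← map_sub]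
  simp only [map_add, map_smul] at e1
  linear_combination (norm := module) (1 / 2 : ℝ) • e2 - (1 / 2 : ℝ) • e1

theorem AfK.cr (h : AfK K G) (hΩ : IsOpen Ω) (ht : LTP Ω G) (hi : InjOn G Ω) (hx : x ∈ Ω)
    (hd : 2 ≤ dm (K.cell x)) : CR G x := by
  obtain ⟨A, hA⟩ := h.alg hΩ hx
  obtain ⟨L, hL⟩ := (ltp_il hΩ ht hi).ll x hx
  obtain ⟨c, c0, hc⟩ := ltp_ex hΩ ht hi hx
  obtain ⟨φ, h0, hφ⟩ : ∃ φ : Rn 3 →L[ℝ] ℝ, φ ≠ 0 ∧
      ∀ w, φ w = 0 → w ∈ vectorSpan ℝ (K.cell x) := by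
    have f3 : Module.finrank ℝ (Rn 3) = 3 := Module.finrank_fin_fun ℝ
    by_cases k : dm (K.cell x) = 3
    · refine ⟨.proj 0, fun e => ?_, fun w _ => ?_⟩
      · simpa using DFunLike.congr_fun e 1
      · rw [Submodule.eq_top_of_finrank_eq (k.trans f3.symm)]
        trivial
    · have := dm_le (K.cell x)
      obtain ⟨φ, w, -, h1, h2⟩ := KA3_hyper (P := vectorSpan ℝ (K.cell x)) le_top (by
        rw [finrank_top, f3]
        change dm _ + 1 = 3
        omega)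
      exact ⟨LinearMap.toContinuousLinearMap φ, fun e => h1.ne' (DFunLike.congr_fun e w),
        fun w k => (h2 w trivial).1 k⟩
  refine cr_of_alg h0 hL c0 hc (A := A) (hasFDerivAtFilter_iff_isLittleO.2
    ((Asymptotics.isLittleO_zero _ _).congr' ?_ .rfl))
  refine eventually_inf_principal.2 (hA.mono fun q k hq => ?_)
  simp only [k (hφ _ hq), sub_self]

end BEp
end
end
end
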