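import Pool.Agent.Work.MP_f0515e_an.D3.NDefs
import Pool.Agent.Work.MP_f0515e_an.Pos.ASe
import Pool.Agent.Work.MP_f0515e_an.D3.CTop
import Pool.Agent.Work.MP_f0515e_an.Pos.BRed
import Pool.Agent.Work.MP_f0515e_an.D3.SRig0
import Pool.Agent.Work.MP_f0515e_an.PA
import Pool.Agent.Work.MP_f0515e_an.D3.LDefs
import Pool.Agent.Work.MP_f0515e_an.D3.NLn
import Pool.Agent.Work.MP_f0515e_an.P3.FinE
import Pool.Agent.Work.MP_f0515e_an.Pos.ALeb

-- merged part: Pool.Agent.Work.MP_f0515e_an.D3.RMain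
section
-- merged part: Pool.Agent.Work.MP_f0515e_an.D3.NSb
section
/-! TASK NSb. Good vertices for a limit of smooth maps.
Plan. As exists_bad (Pos/ASb) with `C` from ASb_core, `lam = σ / (M (C + 1))`, `a = lam ^ p / 2 ^ p`. `Bad0` from max_bad for the
indicator of `closedBall o (9 η)` of `‖D - A‖ ^ p`, `B j` from max_bad for the indicator of `‖fderiv (u j) - D‖ ^ p`; the volumes of
`B j` tend to zero, so along a subsequence they are summable (exists_seq, or `tendsto_atTop'` and choice with bound `2⁻¹ ^ k`) and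
`limsup` of the `B (φ k)` is null (measure_limsup_atTop_eq_zero). `Bad = Bad0 ∪ limsup`. Off `Bad` both points are off `B (φ k)` for
large `k` (mem_limsup_iff_frequently_mem); ASb_core for `u (φ k)` with `Φ = 2 ^ (p - 1) (Φ0 + Φ k)`
(ENNReal.rpow_add_le_mul_rpow_add_rpow), then pass to the limit (le_of_tendsto) by the uniform convergence. -/

open Set Metric Filter Topology Function BEv MeasureTheory
open scoped NNReal ENNReal

noncomputable section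
namespace BEp

theorem NSb_pt {m : ℕ} {p : ℝ} (hp : 1 ≤ p) (I : Finset (Ix m)) : ∃ C : ℝ, 0 ≤ C ∧
    ∀ G : Gr m, G.I = I → ∀ (o : V m) (η : ℝ), G.cell 0 ⊆ closedBall o η →
      ∀ u : V m → V m, ContDiff ℝ 1 u → ∀ (Φ : V m → ℝ≥0∞) (lam : ℝ), 0 ≤ lam →
      (∀ y ∈ closedBall o (9 * η), ‖fderiv ℝ u y - G.A‖ₑ ^ p ≤ Φ y) →
      ∀ t ∈ closedBall (0 : V m) η, ∀ b ∈ G.ful, ∀ b' ∈ G.ful,
      (∀ z, z = G.cb b + t ∨ z = G.cb b' + t → ∀ r ∈ Ioc (0 : ℝ) (4 * η),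
        ∫⁻ y in closedBall (0 : G.I → ℝ) r, Φ (z + emb G.I y) ≤
          ENNReal.ofReal (lam ^ p * (2 * r) ^ G.I.card)) →
      ‖u (G.cb b + t) - u (G.cb b' + t) - G.A (G.cb b - G.cb b')‖ ≤
        C * lam * ‖G.cb b - G.cb b'‖ := by
  obtain ⟨C, hC, h⟩ := ASb_core hp I
  refine ⟨C, hC, ?_⟩
  rintro G rfl o η hcell u hu Φ lam hl h1 t ht b hb b' hb' h2
  have e1 : emb G.I (fun l : G.I => G.cb b l - G.cb b' l) = G.cb b - G.cb b' := by
    funext l
    rw [Gr.ASl0_emb]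
    split_ifs with k
    · rfl
    · rw [Pi.sub_apply, G.cb_off b k, G.cb_off b' k, sub_self]
  have e2 : ‖(fun l : G.I => G.cb b l - G.cb b' l)‖ ≤ ‖G.cb b - G.cb b'‖ :=
    (pi_norm_le_iff_of_nonneg (norm_nonneg _)).2 fun l => norm_le_pi_norm (G.cb b - G.cb b') l
  have k1 := mem_closedBall_iff_norm.1 (hcell hb.2)
  have k2 := mem_closedBall_iff_norm.1 (hcell hb'.2)
  have k3 := mem_closedBall_zero_iff.1 ht
  have e3 : ‖G.cb b - G.cb b'‖ ≤ 2 * η := by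
    have := norm_sub_le_norm_sub_add_norm_sub (G.cb b) o (G.cb b')
    rw [norm_sub_rev o] at this
    linarith only [k1, k2, this]
  have e4 : G.cb b' + t + (G.cb b - G.cb b') = G.cb b + t := by abel
  have k := h G.A u hu Φ (G.cb b' + t) (fun l : G.I => G.cb b l - G.cb b' l) lam hl
    (fun y hy => h1 _ (by
      rw [mem_closedBall_iff_norm]
      have k4 := BMax_emb G.I y
      have k5 : G.cb b' + t + emb G.I y - o = (G.cb b' - o) + t + emb G.I y := by abel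
      rw [k5]
      have k6 := norm_add₃_le (a := G.cb b' - o) (b := t) (c := emb G.I y)
      linarith only [e2, k2, k3, e3, hy, k4, k6, norm_nonneg t]))
    (fun z hz r hr => by
      refine h2 _ ?_ r ⟨hr.1, by linarith only [e2, e3, hr, hr.2]⟩
      rcases hz with rfl | rfl
      · rw [e1, e4]
        exact .inl rfl
      · rw [map_zero, add_zero]
        exact .inr rfl)
  rw [e1, e4] at k
  exact k.trans (mul_le_mul_of_nonneg_left e2 (mul_nonneg hC hl))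

theorem exists_bad3 {p : ℝ} (hp : 1 ≤ p) {T : Typ 1} (hT : T.Ok) : ∃ Cb : ℝ≥0∞, Cb ≠ ⊤ ∧
    ∀ G : Gr 1, G.toTyp = T → G.Ok → ∀ (o : V 1) (η : ℝ), 0 < η → G.cell 0 ⊆ closedBall o η →
      ∀ (f : V 1 → V 1) (D : V 1 → V 1 →L[ℝ] V 1), Measurable D →
      Apx p (closedBall o (9 * η)) f D → ∃ Bad : Set (V 1), MeasurableSet Bad ∧
        volume Bad ≤ Cb * ∫⁻ y in closedBall o (9 * η), ‖D y - G.A‖ₑ ^ p ∧
        ∀ t ∈ closedBall (0 : V 1) η, ∀ b ∈ G.ful, ∀ b' ∈ G.ful, G.cb b + t ∉ Bad →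
          G.cb b' + t ∉ Bad → ‖f (G.cb b + t) - f (G.cb b' + t) - G.A (G.cb b - G.cb b')‖ ≤
            G.σ / G.M * ‖G.cb b - G.cb b'‖ := by
  obtain ⟨C, hC, h⟩ := NSb_pt hp T.I
  have hM : (9 : ℝ) ≤ T.M := by exact_mod_cast hT.M9
  have hσ := hT.σ0
  obtain ⟨lam, hlam⟩ : ∃ lam, lam = T.σ / (T.M * (C + 1)) := ⟨_, rfl⟩
  have hl : 0 < lam := by rw [hlam]; positivity
  have ha : 0 < lam ^ p / 2 ^ p := by positivity
  have ha' : ENNReal.ofReal (lam ^ p / 2 ^ p) ≠ 0 := (ENNReal.ofReal_pos.2 ha).ne'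
  have hCb : (ENNReal.ofReal (lam ^ p / 2 ^ p))⁻¹ * 10 ^ (2 * 1 + 1) ≠ ⊤ :=
    ENNReal.mul_ne_top (ENNReal.inv_ne_top.2 ha') (by simp)
  refine ⟨_, hCb, ?_⟩
  rintro G rfl hG o η hη hcell f D hD ⟨u, hu, hu1, hu2⟩
  have key : ∀ Ψ : V 1 → ℝ≥0∞, Measurable Ψ → ∃ Bad : Set (V 1), MeasurableSet Bad ∧
      volume Bad ≤ (ENNReal.ofReal (lam ^ p / 2 ^ p))⁻¹ * 10 ^ (2 * 1 + 1) *
        ∫⁻ y in closedBall o (9 * η), Ψ y ∧ ∀ z, z ∉ Bad → ∀ r ∈ Ioc (0 : ℝ) (4 * η),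
        ∫⁻ y in closedBall (0 : G.I → ℝ) r, indicator (closedBall o (9 * η)) Ψ (z + emb G.I y) ≤
          ENNReal.ofReal (lam ^ p / 2 ^ p * (2 * r) ^ G.I.card) := fun Ψ hΨ => by
    obtain ⟨Bad, b1, b2, b3⟩ := max_bad G.I (hΨ.indicator (measurableSet_closedBall (x := o)
      (ε := 9 * η))) (R := 4 * η) (by positivity) ha
    rw [lintegral_indicator measurableSet_closedBall] at b2
    refine ⟨Bad, b1, ?_, b3⟩
    rwa [mul_assoc, ← ENNReal.mul_le_iff_le_inv ha' ENNReal.ofReal_ne_top]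
  have m0 : Measurable fun y => ‖D y - G.A‖ₑ ^ p := (hD.sub_const _).enorm.pow_const p
  have m1 : ∀ j, Measurable fun y => ‖fderiv ℝ (u j) y - D y‖ₑ ^ p := fun j =>
    (((hu j).continuous_fderiv one_ne_zero).measurable.sub hD).enorm.pow_const p
  obtain ⟨B0, a1, a2, a3⟩ := key _ m0
  choose B b1 b2 b3 using fun j => key _ (m1 j)
  have t0 := ENNReal.Tendsto.const_mul hu2 (.inr hCb)
  rw [mul_zero] at t0
  obtain ⟨ε, ε0, ε1⟩ := ENNReal.exists_pos_sum_of_countable one_ne_zero ℕ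
  obtain ⟨φ, φ1, φ2⟩ := extraction_forall_of_eventually (P := fun k j => volume (B j) ≤ ε k)
    fun k => (t0.eventually (ge_mem_nhds (ENNReal.coe_pos.2 (ε0 k)))).mono
      fun j hj => (b2 j).trans hj
  obtain ⟨N, n1, n2, n3⟩ := exists_measurable_superset_of_null (ae_eventually_notMem
    (μ := volume) (s := fun k => B (φ k)) (ne_top_of_le_ne_top (ε1.trans ENNReal.one_lt_top).ne
      (ENNReal.tsum_le_tsum φ2)))
  refine ⟨B0 ∪ N, a1.union n2, (measure_union_le _ _).trans (by rwa [n3, add_zero]),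
    fun t ht b hb b' hb' g1 g2 => ?_⟩
  have hz : ∀ b ∈ G.ful, Tendsto (fun k => u (φ k) (G.cb b + t)) atTop (𝓝 (f (G.cb b + t))) :=
    fun b hb => (hu1.tendsto_at (by
      have k1 := mem_closedBall_iff_norm.1 (hcell hb.2)
      have k3 := mem_closedBall_zero_iff.1 ht
      rw [mem_closedBall_iff_norm, add_sub_right_comm]
      linarith only [hη, k1, k3, norm_add_le (G.cb b - o) t])).comp φ1.tendsto_atTop
  have e1 : ∀ᶠ k in atTop, G.cb b + t ∉ B (φ k) := by_contra fun k => g1 (.inr (n1 k))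
  have e2 : ∀ᶠ k in atTop, G.cb b' + t ∉ B (φ k) := by_contra fun k => g2 (.inr (n1 k))
  refine (le_of_tendsto (((hz b hb).sub (hz b' hb')).sub_const _).norm ((e1.and e2).mono
    fun k hk => h G rfl o η hcell _ (hu (φ k)) (fun y => 2 ^ (p - 1) *
      (indicator (closedBall o (9 * η)) (fun y => ‖D y - G.A‖ₑ ^ p) y +
        indicator (closedBall o (9 * η)) (fun y => ‖fderiv ℝ (u (φ k)) y - D y‖ₑ ^ p) y)) lam hl.le
      (fun y hy => ?_) t ht b hb b' hb' fun z hz r hr => ?_)).trans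
    (mul_le_mul_of_nonneg_right ?_ (norm_nonneg _))
  · rw [indicator_of_mem hy, indicator_of_mem hy]
    refine le_trans (ENNReal.rpow_le_rpow ?_ (by linarith only [hp]))
      (ENNReal.rpow_add_le_mul_rpow_add_rpow _ _ hp)
    rw [← ofReal_norm, ← ofReal_norm, ← ofReal_norm,
      ← ENNReal.ofReal_add (norm_nonneg _) (norm_nonneg _)]
    exact ENNReal.ofReal_le_ofReal
      ((norm_sub_le_norm_sub_add_norm_sub _ (D y) _).trans_eq (add_comm _ _))
  · have mz : Measurable fun y : G.I → ℝ =>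
        indicator (closedBall o (9 * η)) (fun y => ‖D y - G.A‖ₑ ^ p) (z + emb G.I y) :=
      (m0.indicator measurableSet_closedBall).comp
        (continuous_const.add (emb G.I).continuous).measurable
    have r0 := hr.1
    rw [lintegral_const_mul' _ _ (ENNReal.rpow_ne_top_of_nonneg (by linarith) ENNReal.ofNat_ne_top),
      lintegral_add_left mz]
    refine (mul_le_mul_right (add_le_add (a3 z ?_ r hr) (b3 _ z ?_ r hr)) _).trans_eq ?_
    · rcases hz with rfl | rfl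
      exacts [fun k => g1 (.inl k), fun k => g2 (.inl k)]
    · rcases hz with rfl | rfl
      exacts [hk.1, hk.2]
    · rw [← ENNReal.ofReal_ofNat, ENNReal.ofReal_rpow_of_pos two_pos,
        ← ENNReal.ofReal_add (by positivity) (by positivity), ← ENNReal.ofReal_mul (by positivity),
        Real.rpow_sub_one two_ne_zero]
      refine congrArg _ ?_
      field_simp
      ring
  · rw [hlam, mul_div_assoc', div_le_div_iff₀ (by positivity) (by positivity)]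
    have k7 : 0 ≤ G.σ * G.M := by positivity
    linarith only [k7]

theorem Apx.mono {p : ℝ} {U U' : Set (Rn 3)} {f : Rn 3 → Rn 3} {D : Rn 3 → Rn 3 →L[ℝ] Rn 3}
    (h : Apx p U f D) (hs : U' ⊆ U) : Apx p U' f D := by
  obtain ⟨u, h1, h2, h3⟩ := h
  exact ⟨u, h1, h2.mono hs, tendsto_of_tendsto_of_tendsto_of_le_of_le tendsto_const_nhds h3
    (fun _ => zero_le) fun _ => lintegral_mono_set hs⟩

end BEp
end
end

-- merged part: Pool.Agent.Work.MP_f0515e_an.D3.R6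
section
/-! TASK R6. The rigid hypotheses of the topological theorem; copy `Cfg.tophyp` (Pos/ATop) field by field, with `hk0 : X.Kp
kp := fun a b hb => (hk a b hb).1`.
`Reg ⊆ Ω` as `Qc q 2 ⊆ Qc q 3` (`hF.reg`). Modulus: `y ∈ Ω`, `ρ' / 2 ≤ ‖y - cb‖` imply `μ ≤ ‖f y - f cb‖`
(else `f y = f y'` with `y' ∈ ball cb (ρ' / 2) ∩ Ω`, `hi`). Near: a point `y` of `K.sk 1` in `thick ρ (2 s)`,
`ρ ≤ 56`, has `‖y - cb‖ ≤ 8 M s ≤ ρ' / 2` (`ATop_norm`, `hF.sρ`), so `y ∈ Zs` (`hF.near`), `y ∈ Sk`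
(`Gr.mem_Sk`), `y ∈ fine` (`Gr.Sk_sub_fine`).
`tiny`: `‖A‖ ≤ Λ` (`nA`), `field_simp`. `thick`: `e = 2 s`. `close`, `rvar`: `Fine.close`, `Fine.var`; the
segment lies in `Q 24` (convex) and in `K.sk 1` (`Kx.Edge.seg_sub`), `Q 24 ⊆ Q 56`. `nohit`: if `‖y - cb‖ ≤ ρ'
/ 2` then `y ∈ Zs ⊆ Z` (`hF.near`, or `Gr.mem_Sk` and `near_cell`), `ATop_col` (`ρ' ≤ ρ / 2`), `Kept.nohit`;
else the modulus with `ATop_aff`, `ATop_eps`. `rsub`: the ball lies in `ball (f cb) μ`. `sep`: as in `tophyp`.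
About 120 lines. -/

open Set Metric Filter Topology Function BEv MeasureTheory
open scoped NNReal ENNReal

noncomputable section
namespace BEp

variable {ι κ : Type} [Fintype ι] [Fintype κ]

theorem R6_cvx {m : ℕ} (B : Box m) (s ρ : ℝ) : Convex ℝ (B.Q s ρ) := fun x hx y hy a b ha hb e =>
  ⟨fun l hl => by
    change a * x l + b * y l = _
    rw [hx.1 l hl, hy.1 l hl, ← add_mul, e, one_mul],
  fun l hl => convex_closedBall (B.c l) _ (hx.2 l hl) (hy.2 l hl) ha hb e⟩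

theorem R6_mono {m : ℕ} {B : Box m} {s ρ ρ' : ℝ} (hs : 0 ≤ s) (h : ρ ≤ ρ') : B.Q s ρ ⊆ B.Q s ρ' :=
  fun _ hx => ⟨hx.1, fun l hl => (hx.2 l hl).trans
    (mul_le_mul_of_nonneg_left (add_le_add le_rfl h) hs)⟩

theorem Cfg.rig_in {X : Cfg 1 ι κ} (hX : X.Ok) {Ω : Set (Rn 3)} {K : Kx Ω} {Y' : κ → Set (V 1)}
    {ρ' : ℝ} (hF : X.Fit K Y' ρ') {kp : κ → Finset (Ix 1 → ℤ)} (hk : X.Kp' Y' ρ' kp)
    {f : V 1 → V 1} (hK : ∀ a, (X.G a).Kept f (X.F a) (kp a))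
    (hf : ∀ a, ∀ b ∈ kp a, (X.G a).Fine f b) (hi : InjOn f Ω) {μ : ℝ}
    (hμ : ∀ x ∈ X.Reg, ball (f x) μ ⊆ f '' (ball x (ρ' / 2) ∩ Ω))
    (hs : ∀ a, 32 * (X.C a).Λ * (X.C a).M * X.s ≤ μ) :
    RigIn K f (X.box f kp) X.s (fun i => (X.G i.1.1).ε) (fun i => (X.G i.1.1).ε') := by
  have hk0 : X.Kp kp := fun a b hb => (hk a b hb).1
  have hs0 := hX.s0
  have h2s : 0 ≤ 2 * X.s := by linarith
  have ρ0 := hF.ρ0
  have ρ1 := hF.ρ1
  have h5 : X.Reg ⊆ Ω := iUnion_subset fun q =>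
    (closedBall_subset_closedBall (by linarith only [hX, hX.η0])).trans (hF.reg q)
  have hc : ∀ i : Bx kp, (X.G i.1.1).cb i.1.2 ∈ (X.C i.1.1).cell 0 := fun i => (hk0 _ _ i.2).1.2
  have md : ∀ i : Bx kp, ∀ y ∈ Ω, ρ' / 2 ≤ ‖y - (X.G i.1.1).cb i.1.2‖ →
      μ ≤ ‖f y - f ((X.G i.1.1).cb i.1.2)‖ := fun i y hy h => not_lt.1 fun k => by
    obtain ⟨y', ⟨k1, k2⟩, k3⟩ := hμ _ (ATop_reg hX _ (hc i)) (mem_ball_iff_norm.2 k)
    rw [hi k2 hy k3, mem_ball_iff_norm] at k1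
    exact k1.not_ge h
  have nr : ∀ i : Bx kp, ∀ y ∈ K.sk 1, ∀ ρ ≤ (56 : ℝ), y ∈ (X.box f kp i).thick X.s ρ (2 * X.s) →
      y ∈ (X.box f kp i).Sk X.s := fun i y hy ρ hρ h => by
    have h1 := hF.near _ _ (hk _ _ i.2).1 (hk _ _ i.2).2 y hy
      ((ATop_norm hX f i hρ h).trans (by linarith only [ρ0, hF, hF.sρ i.1.1]))
    exact (Gr.mem_Sk f (hX.gok i.1.1)).2 ⟨h1.1, h1.2.2⟩
  have fn : ∀ i : Bx kp, K.sk 1 ∩ (X.box f kp i).Q X.s 24 ⊆
      (X.box f kp i).fine X.s ∩ (X.box f kp i).Q X.s 56 := fun i y hy =>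
    ⟨Gr.Sk_sub_fine f (hX.gok i.1.1) (nr i y hy.1 24 (by norm_num) (ATop_Q h2s hy.2)),
      R6_mono hs0.le (by norm_num) hy.2⟩
  refine ⟨hs0, fun i => ?_, fun i => ?_, fun i => (hk0 _ _ i.2).2.1, fun i => ?_, fun i x hx => ?_,
    fun i j h => (thick_disj hX hk0 f h).mono (ATop_Q h2s) (ATop_Q h2s),
    fun i => hF.grid _ _ (hk _ _ i.2).1 (hk _ _ i.2).2 f,
    fun i => ⟨2 * X.s, by linarith, fun x hx => nr i x hx.1 30 (by norm_num) hx.2⟩,
    fun i z hz => ?_, fun i x hx => (hf _ _ i.2).close x (fn i hx),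
    fun i a b e ha hb => (hf _ _ i.2).var a b fun x hx =>
      fn i ⟨e.seg_sub hx, (R6_cvx _ _ _).segment_subset ha hb hx⟩,
    fun i x hx y hy hy' hy'' => ?_, fun i x hx y hy => ?_, fun i j h x hx y hy => ?_⟩
  · have h1 := (hX.gok i.1.1).σ0
    have h2 := (hX.gok i.1.1).Λ1
    exact ⟨div_pos (mul_pos h1 hs0) (by norm_num), mul_pos (by positivity) hs0⟩
  · have h1 := (hX.gok i.1.1).nA
    have h2 : 0 < 1 + (X.G i.1.1).Λ := by linarith [(hX.gok i.1.1).Λ1]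
    change 1000000 * (1 + ‖(X.G i.1.1).A‖) * X.s * ((X.G i.1.1).σ ^ 2 /
      (10 ^ 12 * (1 + (X.G i.1.1).Λ)) * X.s) ≤ ((X.G i.1.1).σ * X.s / 1000) ^ 2
    refine (mul_le_mul_of_nonneg_right (mul_le_mul_of_nonneg_right (mul_le_mul_of_nonneg_left
      (add_le_add le_rfl h1) (by norm_num)) hs0.le) (by positivity)).trans_eq ?_
    field_simp
    ring
  · have h := (hX.gok i.1.1).M9
    change 8 ∣ 8 * (X.G i.1.1).M - 56 ∧ 16 ≤ 8 * (X.G i.1.1).M - 56
    omega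
  · exact h5 (ATop_reg hX _ (ATop_10 hX _ (ATop_cell hX hk0 f i (by norm_num) (ATop_Q h2s hx))))
  · have e : pr (X.G i.1.1).I z = z := funext fun l => by
      unfold pr
      split_ifs with hl
      · rfl
      · exact (hz l hl).symm
    have h := (hX.gok i.1.1).low z
    rw [e] at h
    have h' := mul_le_mul_of_nonneg_left h hs0.le
    change 1000 * ((X.G i.1.1).σ * X.s / 1000) * ‖z‖ ≤ X.s * ‖(X.G i.1.1).A z‖
    linarith only [h']
  · rcases le_total (ρ' / 2) ‖y - (X.G i.1.1).cb i.1.2‖ with h | h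
    · have a1 := md i y hy h
      have a2 := ATop_aff hX f i hx (hs _)
      have a3 := ATop_eps hX _ (hs i.1.1)
      have a4 := norm_sub_le_norm_sub_add_norm_sub (f y) ((X.box f kp i).aff x)
        (f ((X.G i.1.1).cb i.1.2))
      have a5 := norm_nonneg ((X.box f kp i).aff x - f ((X.G i.1.1).cb i.1.2))
      linarith only [a1, a2, a3, a4, a5]
    · have a0 : y ∈ (X.G i.1.1).Zs := hy'.elim
        (fun k => hF.near _ _ (hk _ _ i.2).1 (hk _ _ i.2).2 y k h) fun k =>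
          have k' := (Gr.mem_Sk f (hX.gok i.1.1)).1 k
          ⟨k'.1, near_cell hX (hk0 _ _ i.2) (by linarith only [ρ0, ρ1, h]), k'.2⟩
      obtain ⟨b', a1, a2⟩ := ATop_col hX f (hk0 _ _ i.2) (Or.inr (mem_iUnion.2 ⟨_, a0⟩))
        (by linarith only [ρ0, ρ1, h])
      exact (hK i.1.1).nohit _ i.2 b' a1 y a2 hy'' x hx
  · refine image_mono inter_subset_right (hμ _ (ATop_reg hX _ (hc i)) (mem_ball_iff_norm.2 ?_))
    have a1 := mem_closedBall_iff_norm.1 hy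
    have a2 := ATop_aff hX f i hx (hs _)
    have a3 := ATop_eps hX _ (hs i.1.1)
    have a4 := norm_sub_le_norm_sub_add_norm_sub y ((X.box f kp i).aff x)
      (f ((X.G i.1.1).cb i.1.2))
    have a5 := norm_nonneg ((X.box f kp i).aff x - f ((X.G i.1.1).cb i.1.2))
    linarith only [a1, a2, a3, a4, a5]
  · by_cases e : i.1.1 = j.1.1
    · obtain ⟨⟨a, b⟩, hb⟩ := i
      obtain ⟨⟨a', b'⟩, hb'⟩ := j
      obtain rfl : a = a' := e
      exact (hK a).sep b hb b' hb' (fun e => h (by subst e; rfl)) x hx y hy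
    · have a0 : ρ' / 2 ≤ ‖(X.G j.1.1).cb j.1.2 - (X.G i.1.1).cb i.1.2‖ := by
        by_contra k
        exact e (ATop_same hX (ATop_10 hX _ (near_cell hX (hk0 _ _ i.2)
          (by linarith only [ρ0, ρ1, k, not_le.1 k]))) (hc j))
      have a1 := md i _ (h5 (ATop_reg hX _ (hc j))) a0
      have a2 := ATop_aff hX f i hx (hs _)
      have a3 := ATop_aff hX f j hy (hs _)
      have a4 := ATop_eps hX _ (hs i.1.1)
      have a5 := norm_sub_le_norm_sub_add_norm_sub (f ((X.G j.1.1).cb j.1.2))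
        ((X.box f kp j).aff y) (f ((X.G i.1.1).cb i.1.2))
      have a6 := norm_sub_le_norm_sub_add_norm_sub ((X.box f kp j).aff y)
        ((X.box f kp i).aff x) (f ((X.G i.1.1).cb i.1.2))
      rw [norm_sub_rev (f ((X.G j.1.1).cb j.1.2)) ((X.box f kp j).aff y)] at a5
      linarith only [a1, a2, a3, a4, a5, a6]

end BEp
end
end

-- merged part: Pool.Agent.Work.MP_f0515e_an.D3.NSt1
section
/-! TASK NSt1. The function which controls the choice of the translation.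
Plan. As Cfg.stage_t (Pos/ASt1) without the index `j`: for each cell `a` with `1 < card I` choose `E a` from Sel3 (`G a`, `o (q a)`, `η`), `0` for the others;
`E t = ∑ q, aT * (two integrals) + ∑ a, w (q a) * E a t`; ASt1_av, ASt1_sum; the volume of the ball is `(2 η) ^ 3`. For the other cells `kp a = ∅`. -/

open Set Metric Filter Topology Function BEv MeasureTheory
open scoped NNReal ENNReal

noncomputable section
namespace BEp

variable {ι κ : Type} [Fintype ι] [Fintype κ]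

open Classical in
theorem Cfg.stage_t3 {X : Cfg 1 ι κ} (hX : X.Ok) {p r : ℝ} (hr : p ≤ r) {CW : ℝ≥0∞}
    (hW : ∀ q, ∫⁻ z in X.Qc q 1, X.W z ^ r ≤ CW * ENNReal.ofReal ((2 * X.η) ^ (2 * 1 + 1)))
    {Cs : ι → ℝ≥0∞} (hS : ∀ q, (X.ty q).Sel3 p (Cs q)) {f0 : V 1 → V 1}
    {D : V 1 → V 1 →L[ℝ] V 1} (hD : Measurable D) (hA : ∀ q, Apx p (X.Qc q 9) f0 D)
    (w : ι → ℝ≥0∞) : ∃ E : V 1 → ℝ≥0∞, Measurable E ∧
      ∫⁻ t in closedBall (0 : V 1) X.η, E t ≤ (∑ q, (2 * (X.ty q).aT p * CW + w q * Cs q) *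
        ∫⁻ y in X.Qc q 9, ‖D y - (X.ty q).A‖ₑ ^ p) * volume (closedBall (0 : V 1) X.η) ∧
      ∀ t ∈ closedBall (0 : V 1) X.η, ∀ f : V 1 → V 1, (∀ y ∈ X.Reg, f y = f0 (y + t)) →
        (∀ a, ∀ b ∈ X.F a, (X.G a).LA f (fun y => D (y + t)) b) →
        ∃ kp : κ → Finset (Ix 1 → ℤ), (∀ a, (X.G a).Kept f (X.F a) (kp a)) ∧
          (∀ a, ∀ b ∈ kp a, (X.G a).Fine f b) ∧
          ∑ q, (X.ty q).aT p * X.E1 p (fun q y => ‖D (y + t) - (X.ty q).A‖ₑ ^ p) q +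
            ∑ a, w (X.q a) * (if 1 < (X.C a).I.card then
              ((X.F a \ kp a).card : ℝ≥0∞) * (X.G a).col else 0) ≤ E t := by
  let Φ : ι → V 1 → ℝ≥0∞ := fun q y => ‖D y - (X.ty q).A‖ₑ ^ p
  have mΦ : ∀ q, Measurable (Φ q) := fun q => (hD.sub_const _).enorm.pow_const p
  have mW : Measurable fun z => X.W z ^ p := (Cf0.measurable_wt hX.toOk _ _).pow_const p
  have hE : ∀ a, ∃ E : V 1 → ℝ≥0∞, Measurable E ∧
      ∫⁻ t in closedBall (0 : V 1) X.η, E t ≤ Cs (X.q a) *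
        ENNReal.ofReal ((2 * X.h a) ^ (2 * 1 + 1)) * ∫⁻ y in X.Qc (X.q a) 9, Φ (X.q a) y ∧
      ∀ t ∈ closedBall (0 : V 1) X.η, ∀ f : V 1 → V 1, (∀ y ∈ X.Reg, f y = f0 (y + t)) →
        (∀ b ∈ X.F a, (X.G a).LA f (fun y => D (y + t)) b) →
        ∃ kp, (X.G a).Kept f (X.F a) kp ∧ (∀ b ∈ kp, (X.G a).Fine f b) ∧
          (if 1 < (X.C a).I.card then ((X.F a \ kp).card : ℝ≥0∞) * (X.G a).col else 0) ≤ E t := by
    intro a
    by_cases h : 1 < (X.C a).I.card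
    · obtain ⟨E, k1, k2, k3⟩ := hS (X.q a) (X.G a) rfl (hX.gok a) h (X.F a) (hX.hF a) (X.o (X.q a))
        X.η ((Cf0.cell_sub hX.toOk a).trans (closedBall_subset_closedBall (one_mul _).le))
        ((hX.sρ a).trans hX.ρη) f0 D hD (hA _)
      exact ⟨E, k1, k2, fun t ht f hf hl => by
        simpa only [if_pos h] using k3 t ht f (fun y hy => hf y (mem_iUnion.2 ⟨X.q a, hy⟩)) hl⟩
    · exact ⟨0, measurable_zero, by simp, fun t _ _ _ _ =>
        ⟨∅, ⟨Finset.empty_subset _, by simp, by simp, by simp⟩, by simp, by simp [h]⟩⟩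
  choose E e1 e2 e3 using hE
  have mI := fun q kp => av_meas volume (Cfg.measurable_TL hX kp) mW (mΦ q) (X.Qc q 1)
  let I : ι → V 1 → ℝ≥0∞ := fun q t =>
    (∫⁻ z in X.Qc q 1, Φ q (X.TL X.F z + t) * X.W z ^ p) +
      ∫⁻ z in X.Qc q 1, Φ q (X.TL (fun _ => ∅) z + t) * X.W z ^ p
  have m1 : ∀ q, Measurable fun t => (X.ty q).aT p * I q t := fun q =>
    ((mI q _).add (mI q _)).const_mul _
  have m2 : ∀ a, Measurable fun t => w (X.q a) * E a t := fun a => (e1 a).const_mul _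
  have hv : volume (closedBall (0 : V 1) X.η) = ENNReal.ofReal ((2 * X.η) ^ (2 * 1 + 1)) := by
    rw [Real.volume_pi_closedBall _ hX.η0.le, Fintype.card_fin]
  refine ⟨fun t => ∑ q, (X.ty q).aT p * I q t + ∑ a, w (X.q a) * E a t,
    (Finset.measurable_sum _ fun q _ => m1 q).add (Finset.measurable_sum _ fun a _ => m2 a), ?_,
    fun t ht f hf hl => ?_⟩
  · rw [lintegral_add_left (Finset.measurable_sum _ fun q _ => m1 q),
      lintegral_finsetSum _ fun q _ => m1 q, lintegral_finsetSum _ fun a _ => m2 a, hv]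
    refine le_trans (add_le_add (Finset.sum_le_sum (g := fun q => (X.ty q).aT p *
        (CW * ENNReal.ofReal ((2 * X.η) ^ (2 * 1 + 1)) * (∫⁻ y in X.Qc q 9, Φ q y) +
          CW * ENNReal.ofReal ((2 * X.η) ^ (2 * 1 + 1)) * ∫⁻ y in X.Qc q 9, Φ q y)) fun q _ => ?_)
      ((Finset.sum_le_sum fun a _ => ?_).trans (ASt1_sum hX fun q =>
        w q * Cs q * ∫⁻ y in X.Qc q 9, Φ q y))) (le_of_eq ?_)
    · rw [lintegral_const_mul _ ((mI q _).fun_add (mI q _)), lintegral_add_left (mI q _)]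
      exact mul_le_mul_right (add_le_add (ASt1_av hX hr (hW q) (mΦ q) le_rfl _)
        (ASt1_av hX hr (hW q) (mΦ q) le_rfl _)) _
    · rw [lintegral_const_mul _ (e1 a)]
      exact (mul_le_mul_right (e2 a) _).trans (le_of_eq (by ring))
    · rw [← Finset.sum_add_distrib, Finset.sum_mul]
      exact Finset.sum_congr rfl fun q _ => by ring
  · choose kp k1 k2 k3 using fun a => e3 a t ht f hf (hl a)
    refine ⟨kp, k1, k2, add_le_add (Finset.sum_le_sum fun q _ => mul_le_mul_right (le_of_eq ?_) _)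
      (Finset.sum_le_sum fun a _ => mul_le_mul_right (k3 a) _)⟩
    simp only [Cfg.E1, add_mul]
    exact lintegral_add_left (((mΦ q).comp ((Cfg.measurable_TL hX _).add_const t)).mul mW) _

end BEp
end
end

-- merged part: Pool.Agent.Work.MP_f0515e_an.D3.R2
section
/-! Columns over a neighbourhood of a set of dimension less than that of the slice. -/

open Set Metric Filter Topology Function BEv MeasureTheory
open scoped NNReal ENNReal

noncomputable section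
namespace BEp

variable {m : ℕ}

theorem R2_null (C : Cel m) {d : ℕ} (hm : d < C.I.card) (P : AffineSubspace ℝ (V m))
    (hP : Module.finrank ℝ P.direction ≤ d) : volume (C.π ⁻¹' (P : Set (V m))) = 0 := by
  rcases (C.π ⁻¹' (P : Set (V m))).eq_empty_or_nonempty with h | ⟨z0, h0⟩
  · rw [h, measure_empty]
  let L : V m →ₗ[ℝ] V m :=
    { toFun := pr C.I
      map_add' := fun x y => by
        funext l
        simp only [pr, Pi.add_apply]
        split_ifs <;> simp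
      map_smul' := fun c x => by
        funext l
        simp only [pr, Pi.smul_apply, RingHom.id_apply]
        split_ifs <;> simp }
  let K : Submodule ℝ (V m) := P.direction.comap (L.comp (C.Sh.toLinearEquiv : V m →ₗ[ℝ] V m))
  have hK : K ≠ ⊤ := by
    intro hK
    have hv : ∀ l : C.I, (Pi.basisFun ℝ (Ix m)) l ∈ P.direction := by
      intro l
      have h1 : C.Sh.symm ((Pi.basisFun ℝ (Ix m)) l) ∈ K := hK ▸ Submodule.mem_top
      have h2 : pr C.I (C.Sh (C.Sh.symm ((Pi.basisFun ℝ (Ix m)) l))) ∈ P.direction := h1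
      rw [C.Sh.apply_symm_apply] at h2
      convert h2 using 1
      funext i
      simp only [pr, Pi.basisFun_apply]
      split_ifs with hi
      · rfl
      · exact Pi.single_eq_of_ne (fun k : i = l.1 => hi (by rw [k]; exact l.2)) _
    have hli : LinearIndependent ℝ fun l : C.I => (⟨_, hv l⟩ : P.direction) :=
      LinearIndependent.of_comp P.direction.subtype
        ((Pi.basisFun ℝ (Ix m)).linearIndependent.comp _ Subtype.val_injective)
    have := hli.fintype_card_le_finrank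
    rw [Fintype.card_coe] at this
    omega
  have hne : AffineSubspace.mk' z0 K ≠ ⊤ := by
    intro h
    apply hK
    rw [← AffineSubspace.direction_mk' z0 K, h, AffineSubspace.direction_top]
  refine measure_mono_null (fun z hz => ?_) (Measure.addHaar_affineSubspace volume _ hne)
  have h1 := AffineSubspace.vsub_mem_direction (show C.π z ∈ P from hz) (show C.π z0 ∈ P from h0)
  have h2 : pr C.I (C.Sh (z - z0)) ∈ P.direction := by
    convert h1 using 1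
    rw [vsub_eq_sub, Cel.π, Cel.π, add_sub_add_left_eq_sub, ← pr_sub, ← map_sub]
    congr 2
    abel
  exact AffineSubspace.mem_mk'.2 h2

theorem Cel.Wd_small' {C : Cel m} {d : ℕ} (hm : d < C.I.card) {Y : Set (V m)}
    (hY : IsCompact Y) (hpc : PC d Y) {e : ℝ≥0∞} (he : e ≠ 0) :
    ∀ᶠ ρ in 𝓝[>] (0 : ℝ), volume (C.Wd Y ρ) ≤ e := by
  have hπ : Continuous C.π := by
    refine continuous_const.add (continuous_pi fun l => ?_)
    unfold pr
    split_ifs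
    · exact (continuous_apply l).comp (C.Sh.continuous.comp (continuous_id.sub continuous_const))
    · exact continuous_const
  have hμ : ∀ S : Set (V m), MeasurableSet S →
      Measure.map C.π (volume.restrict (C.cell 0)) S = volume (C.π ⁻¹' S ∩ C.cell 0) := by
    intro S hS
    rw [Measure.map_apply hπ.measurable hS, Measure.restrict_apply (hπ.measurable hS)]
  have h0 : Measure.map C.π (volume.restrict (C.cell 0)) Y = 0 := by
    obtain ⟨S, hS, hd, hc⟩ := hpc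
    rw [hμ Y hY.measurableSet]
    refine measure_mono_null (t := ⋃ P ∈ S, C.π ⁻¹' (P : Set (V m))) (fun z hz => ?_)
      ((measure_biUnion_null_iff hS.countable).2 fun P hP => R2_null C hm P (hd P hP))
    obtain ⟨P, hP, hz'⟩ := hc _ hz.1
    exact mem_biUnion hP hz'
  have ht := tendsto_measure_cthickening_of_isClosed
    (μ := Measure.map C.π (volume.restrict (C.cell 0))) (s := Y) ⟨1, one_pos, by
      rw [hμ _ isClosed_cthickening.measurableSet]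
      exact ((measure_mono inter_subset_right).trans_lt (C.isCompact_cell 0).measure_lt_top).ne⟩
    hY.isClosed
  rw [h0] at ht
  have h2 : Tendsto (fun ρ : ℝ => 2 * ρ) (𝓝[>] 0) (𝓝 0) := by
    have : Tendsto (fun ρ : ℝ => 2 * ρ) (𝓝 0) (𝓝 (2 * 0)) := tendsto_id.const_mul 2
    rw [mul_zero] at this
    exact this.mono_left nhdsWithin_le_nhds
  filter_upwards [(ht.comp h2).eventually (ge_mem_nhds (pos_iff_ne_zero.2 he))] with ρ hρ
  refine le_trans ?_ hρ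
  rw [comp_apply, hμ _ isClosed_cthickening.measurableSet]
  refine measure_mono fun z hz => ⟨?_, hz.1⟩
  obtain ⟨y, hy, hd⟩ := hz.2
  exact mem_cthickening_of_dist_le _ y _ _ hy (by rwa [dist_comm, dist_eq_norm])

end BEp
end
end

-- merged part: Pool.Agent.Work.MP_f0515e_an.D3.R1
section
/-! TASK R1. Coordinate planes, dimension in coordinates, one cell over a connected set.
`exists_mesh`: `L` = the walls `wall l (k * δ)`, `l : Fin 3`, `k : ℤ`, `|k| ≤ N` with `R / δ + 1 ≤ N`; for `y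
∈ face L x` use `k = ⌊x l / δ⌋` and `k + 1`: `k δ ≤ x l < (k + 1) δ` gives the same for `y l`
(`sign_nonneg_iff`, `sign_eq_neg_one_iff`).
`dm_le_card`: `vectorSpan ℝ σ` lies in the span of the `Pi.single l 1`, `l ∈ J` (`vectorSpan_def`,
`Submodule.span_le`, `finrank_span_finset_le_card`). `card_le_dm`: the `Pi.single l 1`, `l ∈ J`, lie in
`vectorSpan ℝ σ` and are independent (copy the end of `hK` in `ANs_null`, Pos/ANs).
`same_cell`: let `W` be the span of the `Pi.single l 1`, `l ∈ I`; for `x ∈ D`, `vectorSpan (cell x) ≤ W` and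
the dimensions give equality (`Submodule.eq_of_le_of_finrank_le`); `relopen` then gives `ε` with `y ∈ D`, `‖y
- x‖ < ε` implies `y ∈ cell x` (`y ∈ cell y`, so `y - x ∈ W`), hence `cell y = cell x` (`eqv`);
`IsPreconnected.induction₂'` for the relation `cell x = cell y`. About 110 lines. -/

open Set Metric Filter Topology Function BEv MeasureTheory
open scoped NNReal ENNReal

noncomputable section
namespace BEp

/-- The plane `z l = t`. -/
def wall {n : ℕ} (l : Fin n) (t : ℝ) : (Rn n →L[ℝ] ℝ) × ℝ := (ContinuousLinearMap.proj l, -t)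

@[simp] theorem ev_wall {n : ℕ} (l : Fin n) (t : ℝ) (x : Rn n) : ev (wall l t) x = x l - t :=
  (sub_eq_add_neg _ _).symm

theorem face_le {n : ℕ} {L : Set ((Rn n →L[ℝ] ℝ) × ℝ)} {x y : Rn n} {l : Fin n} {t : ℝ}
    (h : wall l t ∈ L) (hy : y ∈ face L x) : (y l ≤ t ↔ x l ≤ t) ∧ (t ≤ y l ↔ t ≤ x l) := by
  have e := hy _ h
  simp only [ev_wall] at e
  constructor
  · rw [← sub_nonpos, ← sub_nonpos (a := x l), ← sign_nonpos_iff, e, sign_nonpos_iff]
  · rw [← sub_nonneg, ← sub_nonneg (a := x l), ← sign_nonneg_iff, e, sign_nonneg_iff]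

theorem exists_mesh {n : ℕ} (R : ℝ) {δ : ℝ} (hδ : 0 < δ) :
    ∃ L : Set ((Rn n →L[ℝ] ℝ) × ℝ), L.Finite ∧ ∀ x : Rn n, ‖x‖ ≤ R → face L x ⊆ closedBall x δ := by
  obtain ⟨N, hN⟩ := exists_nat_ge (R / δ + 2)
  refine ⟨(fun p : Fin n × ℤ => wall p.1 (p.2 * δ)) '' (univ ×ˢ Icc (-(N : ℤ)) N),
    (finite_univ.prod (finite_Icc _ _)).image _, fun x hx y hy => ?_⟩
  rw [mem_closedBall, dist_pi_le_iff hδ.le]
  intro l
  have h0 : |x l| ≤ R := (Real.norm_eq_abs (x l) ▸ norm_le_pi_norm x l).trans hx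
  have h1 : |x l / δ| ≤ R / δ := by
    rw [abs_div, abs_of_pos hδ]
    exact div_le_div_of_nonneg_right h0 hδ.le
  obtain ⟨h2, h3⟩ := abs_le.1 h1
  have f1 := Int.floor_le (x l / δ)
  have f2 := Int.lt_floor_add_one (x l / δ)
  set k := ⌊x l / δ⌋
  have m1 : wall l ((k : ℝ) * δ) ∈
      (fun p : Fin n × ℤ => wall p.1 (p.2 * δ)) '' (univ ×ˢ Icc (-(N : ℤ)) N) := by
    refine ⟨(l, k), ⟨trivial, ?_, ?_⟩, rfl⟩
    · have : -(N : ℝ) ≤ k := by linarith only [hN, h2, f2]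
      exact_mod_cast this
    · have : (k : ℝ) ≤ N := by linarith only [hN, h3, f1]
      exact_mod_cast this
  have m2 : wall l (((k + 1 : ℤ) : ℝ) * δ) ∈
      (fun p : Fin n × ℤ => wall p.1 (p.2 * δ)) '' (univ ×ˢ Icc (-(N : ℤ)) N) := by
    refine ⟨(l, k + 1), ⟨trivial, ?_, ?_⟩, rfl⟩
    · have : -(N : ℝ) ≤ k + 1 := by linarith only [hN, h2, f2]
      exact_mod_cast this
    · have : (k : ℝ) + 1 ≤ N := by linarith only [hN, h3, f1]
      exact_mod_cast this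
  have g1 : (k : ℝ) * δ ≤ x l := (le_div_iff₀ hδ).1 f1
  have g2 : x l ≤ ((k + 1 : ℤ) : ℝ) * δ := by
    push_cast
    exact ((div_lt_iff₀ hδ).1 f2).le
  have a1 := (face_le m1 hy).2.2 g1
  have a2 := (face_le m2 hy).1.2 g2
  push_cast at a2 g2
  rw [Real.dist_eq, abs_le]
  constructor <;> linarith only [a1, g2, g1, a2]

/-- The span of the coordinate vectors of `J`. -/
def R1_W {n : ℕ} (J : Finset (Fin n)) : Submodule ℝ (Rn n) :=
  Submodule.span ℝ (J.image fun l => (Pi.single l 1 : Rn n) : Finset (Rn n))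

theorem R1_mem {n : ℕ} {J : Finset (Fin n)} {v : Rn n} (h : ∀ l, l ∉ J → v l = 0) :
    v ∈ R1_W J := by
  have e : v = ∑ l ∈ J, v l • (Pi.single l 1 : Rn n) := by
    funext i
    simp only [Finset.sum_apply, Pi.smul_apply, Pi.single_apply, smul_eq_mul, mul_ite, mul_one,
      mul_zero, Finset.sum_ite_eq]
    split_ifs with hi
    · rfl
    · exact h i hi
  rw [e]
  exact Submodule.sum_mem _ fun l hl => Submodule.smul_mem _ _
    (Submodule.subset_span (Finset.mem_coe.2 (Finset.mem_image_of_mem _ hl)))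

theorem R1_rank {n : ℕ} (J : Finset (Fin n)) : Module.finrank ℝ (R1_W J) ≤ J.card :=
  (finrank_span_finset_le_card _).trans Finset.card_image_le

theorem R1_le {n : ℕ} {σ : Set (Rn n)} {J : Finset (Fin n)} {c : Rn n}
    (h : ∀ y ∈ σ, ∀ l, l ∉ J → y l = c l) : vectorSpan ℝ σ ≤ R1_W J := by
  rw [vectorSpan_def, Submodule.span_le]
  rintro _ ⟨a, ha, b, hb, rfl⟩
  refine R1_mem fun l hl => ?_
  simp only [vsub_eq_sub, Pi.sub_apply, h a ha l hl, h b hb l hl, sub_self]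

theorem dm_le_card {n : ℕ} {σ : Set (Rn n)} {J : Finset (Fin n)} {c : Rn n}
    (h : ∀ y ∈ σ, ∀ l, l ∉ J → y l = c l) : dm σ ≤ J.card := by
  exact (Submodule.finrank_mono (R1_le h)).trans (R1_rank J)

theorem card_le_dm {n : ℕ} {σ : Set (Rn n)} {J : Finset (Fin n)} {x : Rn n} (hx : x ∈ σ)
    (h : ∀ l ∈ J, ∃ t : ℝ, t ≠ 0 ∧ x + t • (Pi.single l 1 : Rn n) ∈ σ) : J.card ≤ dm σ := by
  have hv : ∀ l : J, (Pi.basisFun ℝ (Fin n)) l ∈ vectorSpan ℝ σ := by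
    intro l
    obtain ⟨t, ht, h1⟩ := h l l.2
    have h2 := Submodule.smul_mem _ t⁻¹ (vsub_mem_vectorSpan ℝ h1 hx)
    rwa [vsub_eq_sub, add_sub_cancel_left, smul_smul, inv_mul_cancel₀ ht, one_smul,
      ← Pi.basisFun_apply] at h2
  have hli : LinearIndependent ℝ fun l : J => (⟨_, hv l⟩ : vectorSpan ℝ σ) :=
    LinearIndependent.of_comp (vectorSpan ℝ σ).subtype
      ((Pi.basisFun ℝ (Fin n)).linearIndependent.comp _ Subtype.val_injective)
  have := hli.fintype_card_le_finrank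
  rwa [Fintype.card_coe] at this

theorem Kx.same_cell {Ω : Set (Rn 3)} (K : Kx Ω) {I : Finset (Fin 3)} {c : Rn 3} {D : Set (Rn 3)}
    (hD : IsPreconnected D) (hs : D ⊆ Ω) (h1 : ∀ x ∈ D, ∀ y ∈ K.cell x, ∀ l, l ∉ I → y l = c l)
    (h2 : ∀ x ∈ D, I.card ≤ dm (K.cell x)) : ∀ x ∈ D, D ⊆ K.cell x := by
  have loc : ∀ x ∈ D, ∀ᶠ y in 𝓝[D] x, K.cell y = K.cell x := by
    intro x hx
    have e : vectorSpan ℝ (K.cell x) = R1_W I :=
      Submodule.eq_of_le_of_finrank_le (R1_le (h1 x hx)) ((R1_rank I).trans (h2 x hx))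
    obtain ⟨ε, hε, hb⟩ := Kx.relopen (K.cell_mem (hs hx)) (K.mem x (hs hx))
    filter_upwards [self_mem_nhdsWithin, mem_nhdsWithin_of_mem_nhds (ball_mem_nhds x hε)]
      with y hy hd
    refine K.eqv x (hs hx) y (hb y ?_ (mem_ball_iff_norm.1 hd))
    rw [e]
    refine R1_mem fun l hl => ?_
    rw [Pi.sub_apply, h1 y hy y (K.mem y (hs hy)) l hl, h1 x hx x (K.mem x (hs hx)) l hl, sub_self]
  intro x hx y hy
  have := hD.induction₂' (fun a b => K.cell a = K.cell b)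
    (fun a ha => (loc a ha).mono fun b hb => ⟨hb.symm, hb⟩)
    (fun a b d _ _ _ e1 e2 => e1.trans e2) hx hy
  rw [this]
  exact K.mem y (hs hy)

end BEp
end
end

-- merged part: Pool.Agent.Work.MP_f0515e_an.D3.R3
section
/-! TASK R3. Cells of the coarse grid of a slice.
On the slice `G.ξ x l = (x l - G.c l) / (16 * G.s) - G.ω l` (`Gr.ξ_slice`). `gc_cc`: as in `Gr.mem_Sk`
(Pos/ASl0) the argument of the floor in `Box.cc` is `G.ξ x l - (G.M * b l + G.M - 3)`, an integer shift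
(`Int.floor_sub_intCast`, `Int.ceil_sub_intCast`). `gc_ball`: equal floors give `|ξ y l - ξ x l| < 1`.
`gc_dm`: let `J = G.I.filter (dd (ξ x l) ≠ 0)`. For `l ∈ G.I \ J`, `ξ x l` is an integer (`dd_eq_zero_iff`),
so floor = ceiling and `y l = x l` on `gc x`: `dm_le_card` gives `dm ≤ J.card`. For `l ∈ J` a small `t > 0`
has `x + t • single l 1 ∈ gc x` (`⌊ξ x l⌋ < ξ x l < ⌊ξ x l⌋ + 1`): `card_le_dm`. So `dm (gc x) = J.card`.
`gc_face`: `L` = the walls `wall l (G.c l + 16 * G.s * (k + G.ω l))`, `l ∈ G.I`, `k : ℤ`, `|k| ≤ N`, with `N ≥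
G.h / (16 * G.s) + ‖G.ω‖ + 1` (`Cel.nr_slice`: `‖x - c‖ ≤ h`); the sign of the wall at `y` is the sign of `ξ y
l - k`; use `k = ⌊ξ x l⌋`, `⌊ξ x l⌋ + 1`, `⌈ξ x l⌉`, `⌈ξ x l⌉ - 1` (`face_le`, `Int.floor_eq_iff`,
`Int.ceil_eq_iff`); conversely equal floors and ceilings give `k ≤ ξ y l ↔ k ≤ ξ x l` and `ξ y l ≤ k ↔ ξ x l ≤
k` (`Int.le_floor`, `Int.ceil_le`). About 130 lines. -/

open Set Metric Filter Topology Function BEv MeasureTheory
open scoped NNReal ENNReal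

noncomputable section
namespace BEp

namespace Gr
variable {G : Gr 1} {x : V 1}

/-- The cell of the coarse grid of the slice through `x`. -/
def gc (G : Gr 1) (x : V 1) : Set (V 1) :=
  {y | (∀ l, l ∉ G.I → y l = G.c l) ∧ ∀ l ∈ G.I, ⌊G.ξ y l⌋ = ⌊G.ξ x l⌋ ∧ ⌈G.ξ y l⌉ = ⌈G.ξ x l⌉}

theorem R3_sub (hG : G.Ok) {y : V 1} (hx : ∀ l, l ∉ G.I → x l = G.c l)
    (hy : ∀ l, l ∉ G.I → y l = G.c l) (l : Ix 1) :
    y l - x l = 16 * G.s * (G.ξ y l - G.ξ x l) := by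
  have := hG.s0.ne'
  rw [ξ_slice hG hx, ξ_slice hG hy]
  field_simp
  ring

theorem R3_sign {a b : ℝ} :
    SignType.sign b = SignType.sign a ↔ (0 ≤ b ↔ 0 ≤ a) ∧ (b ≤ 0 ↔ a ≤ 0) := by
  refine ⟨fun h => ⟨by rw [← sign_nonneg_iff, h, sign_nonneg_iff],
    by rw [← sign_nonpos_iff, h, sign_nonpos_iff]⟩, fun h => ?_⟩
  rcases lt_trichotomy a 0 with l | rfl | l
  · rw [sign_neg l, sign_neg (not_le.1 fun k => l.not_ge (h.1.1 k))]
  · rw [le_antisymm (h.2.2 le_rfl) (h.1.2 le_rfl)]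
  · rw [sign_pos l, sign_pos (not_le.1 fun k => l.not_ge (h.2.1 k))]

theorem R3_fc {a b : ℝ} {N : ℤ} (hN : |a| + 2 ≤ N) :
    (∀ k ∈ Icc (-N) N, SignType.sign (b - k) = SignType.sign (a - k)) ↔
      ⌊b⌋ = ⌊a⌋ ∧ ⌈b⌉ = ⌈a⌉ := by
  simp only [R3_sign, sub_nonneg, sub_nonpos]
  refine ⟨fun h => ?_, fun h k _ => by
    rw [← Int.le_floor, ← Int.le_floor, ← Int.ceil_le, ← Int.ceil_le, h.1, h.2]
    exact ⟨Iff.rfl, Iff.rfl⟩⟩
  have m : ∀ k : ℤ, a - 2 ≤ k → k ≤ a + 2 → k ∈ Icc (-N) N := fun k l l' =>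
    ⟨by exact_mod_cast (show (-N : ℝ) ≤ k by linarith [neg_abs_le a]),
      by exact_mod_cast (show (k : ℝ) ≤ N by linarith [le_abs_self a])⟩
  have f1 := Int.floor_le a
  have f2 := Int.lt_floor_add_one a
  have c1 := Int.le_ceil a
  have c2 := Int.ceil_lt_add_one a
  have h1 := (h ⌊a⌋ (m _ (by linarith) (by linarith))).1
  have h2 := (h (⌊a⌋ + 1) (m _ (by push_cast; linarith) (by push_cast; linarith))).1
  have h3 := (h ⌈a⌉ (m _ (by linarith) (by linarith))).2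
  have h4 := (h (⌈a⌉ - 1) (m _ (by push_cast; linarith) (by push_cast; linarith))).2
  push_cast at h2 h4
  exact ⟨Int.floor_eq_iff.2 ⟨h1.2 f1, not_le.1 fun k => f2.not_ge (h2.1 k)⟩,
    Int.ceil_eq_iff.2 ⟨not_le.1 fun k => by linarith [h4.1 k], h3.2 c1⟩⟩

theorem gc_cc (hG : G.Ok) (f : V 1 → V 1) (b : Ix 1 → ℤ) (hx : ∀ l, l ∉ G.I → x l = G.c l) :
    (G.box f b).cc G.s x = G.gc x := by
  ext y
  refine (and_congr_left' (mem_slice f)).trans
    (and_congr_right fun hy => forall₂_congr fun l hl => ?_)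
  have e : ∀ z : V 1, (∀ l, l ∉ G.I → z l = G.c l) →
      ((z l - (G.box f b).c l) / G.s - (((G.box f b).r : ℝ) + 8)) / 16 =
        G.ξ z l - ((G.M * b l + G.M - 3 : ℤ) : ℝ) := fun z hz => by
    have h2 := hG.s0.ne'
    rw [box_r f hG, ξ_slice hG hz, show (G.box f b).c l = _ from G.ASl0_cb b hl]
    push_cast
    field_simp
    ring
  rw [e y hy, e x hx, Int.floor_sub_intCast, Int.floor_sub_intCast, Int.ceil_sub_intCast,
    Int.ceil_sub_intCast, sub_left_inj, sub_left_inj]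

theorem gc_ball (hG : G.Ok) (hx : ∀ l, l ∉ G.I → x l = G.c l) :
    G.gc x ⊆ closedBall x (16 * G.s) := by
  have s0 : 0 < 16 * G.s := by linarith [hG.s0]
  refine fun y hy => mem_closedBall_iff_norm.2 ((pi_norm_le_iff_of_nonneg s0.le).2 fun l => ?_)
  rw [Pi.sub_apply, Real.norm_eq_abs]
  by_cases hl : l ∈ G.I
  · rw [R3_sub hG hx hy.1, abs_mul, abs_of_pos s0]
    exact mul_le_of_le_one_right s0.le (Int.abs_sub_lt_one_of_floor_eq_floor (hy.2 l hl).1).le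
  · rw [hx l hl, hy.1 l hl, sub_self, abs_zero]
    exact s0.le

theorem gc_dm (hG : G.Ok) (hx : ∀ l, l ∉ G.I → x l = G.c l) :
    dm (n := 3) (G.gc x) ≤ 1 ↔ G.ξ x ∈ SkI G.I := by
  have s0 : 0 < 16 * G.s := by linarith [hG.s0]
  have key : ∀ J : Finset (Fin 3), (∀ l, l ∈ J ↔ l ∈ G.I ∧ dd (G.ξ x l) ≠ 0) →
      dm (n := 3) (G.gc x) = J.card := fun J hJ => by
    refine le_antisymm (dm_le_card (c := x) fun y hy l hl => ?_)
      (card_le_dm (x := x) ⟨hx, fun _ _ => ⟨rfl, rfl⟩⟩ fun l hl => ?_)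
    · by_cases a : l ∈ G.I
      · obtain ⟨k, e⟩ := BEv.dd_eq_zero_iff.1 (by_contra fun n => hl ((hJ l).2 ⟨a, n⟩))
        obtain ⟨h1, h2⟩ := hy.2 l a
        rw [e, Int.floor_intCast] at h1
        rw [e, Int.ceil_intCast] at h2
        have h3 : G.ξ y l = k := le_antisymm (h2 ▸ Int.le_ceil _) (h1 ▸ Int.floor_le _)
        exact sub_eq_zero.1 ((R3_sub hG hx hy.1 l).trans (by rw [h3, e, sub_self, mul_zero]))
      · exact (hy.1 l a).trans (hx l a).symm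
    · obtain ⟨a, n⟩ := (hJ l).1 hl
      have c1 : G.ξ x l < ⌈G.ξ x l⌉ :=
        (Int.le_ceil _).lt_of_ne fun e => n (BEv.dd_eq_zero_iff.2 ⟨_, e⟩)
      obtain ⟨δ, hδ⟩ : ∃ δ : ℝ, δ = (⌈G.ξ x l⌉ - G.ξ x l) / 2 := ⟨_, rfl⟩
      have e : ∀ j : Fin 3, j ≠ l → (x + (16 * G.s * δ) • (Pi.single l 1 : Rn 3)) j = x j :=
        fun j hj => by simp [hj]
      have hy : ∀ j, j ∉ G.I → (x + (16 * G.s * δ) • (Pi.single l 1 : Rn 3)) j = G.c j :=
        fun j hj => (e j fun k => hj (k ▸ a)).trans (hx j hj)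
      refine ⟨16 * G.s * δ, (mul_pos s0 (by linarith only [c1, hδ])).ne', hy, fun j _ => ?_⟩
      have h1 := R3_sub hG hx hy j
      by_cases hj : j = l
      · subst hj
        have h2 : G.ξ (x + (16 * G.s * δ) • (Pi.single j 1 : Rn 3)) j = G.ξ x j + δ := by
          rw [show (x + (16 * G.s * δ) • (Pi.single j 1 : Rn 3)) j - x j = 16 * G.s * δ by
            simp] at h1
          linarith only [s0, h1, mul_left_cancel₀ s0.ne' h1]
        have h3 : (⌈G.ξ x j⌉ : ℝ) ≤ ⌊G.ξ x j⌋ + 1 := by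
          exact_mod_cast Int.ceil_le_floor_add_one _
        rw [h2]
        exact ⟨Int.floor_eq_iff.2 ⟨by linarith only [c1, hδ, Int.floor_le (G.ξ x j)], by linarith only [c1, hδ, h3]⟩,
          Int.ceil_eq_iff.2 ⟨by linarith only [hδ, Int.ceil_lt_add_one (G.ξ x j)], by linarith only [c1, hδ]⟩⟩
      · rw [e j hj, sub_self, eq_comm, mul_eq_zero, or_iff_right s0.ne', sub_eq_zero] at h1
        rw [h1]
        exact ⟨rfl, rfl⟩
  rw [key _ fun l => Finset.mem_filter]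
  rfl

theorem gc_face (hG : G.Ok) : ∃ L : Set ((Rn 3 →L[ℝ] ℝ) × ℝ), L.Finite ∧
    ∀ x ∈ G.cell 0, (∀ l, l ∉ G.I → x l = G.c l) → ∀ y : V 1, (∀ l, l ∉ G.I → y l = G.c l) →
      (y ∈ face L x ↔ y ∈ G.gc x) := by
  have s0 : 0 < 16 * G.s := by linarith [hG.s0]
  obtain ⟨N, hN⟩ := exists_int_gt (G.h / (16 * G.s) + ‖G.ω‖ + 2)
  refine ⟨(fun p : Ix 1 × ℤ => wall (n := 3) p.1 (G.c p.1 + 16 * G.s * (p.2 + G.ω p.1))) ''
    ((G.I : Set (Ix 1)) ×ˢ Icc (-N) N), (G.I.finite_toSet.prod (finite_Icc _ _)).image _,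
    fun x hc hx y hy => ?_⟩
  have e : ∀ z : V 1, (∀ l, l ∉ G.I → z l = G.c l) → ∀ (l : Ix 1) (k : ℤ),
      SignType.sign (ev (wall (n := 3) l (G.c l + 16 * G.s * (k + G.ω l))) z) =
        SignType.sign (G.ξ z l - k) := fun z hz l k => by
    have := hG.s0.ne'
    rw [ev_wall, show z l - (G.c l + 16 * G.s * (k + G.ω l)) = 16 * G.s * (G.ξ z l - k) by
      rw [ξ_slice hG hz]; field_simp; ring, sign_mul, sign_pos s0, one_mul]
  have b : ∀ l, |G.ξ x l| + 2 ≤ N := fun l => by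
    have h1 : G.nr x ≤ (1 - 0 * G.γ) * G.h := hc
    rw [Cel.nr_slice hG.toOk hx, zero_mul, sub_zero, one_mul] at h1
    have h2 : |x l - G.c l| ≤ G.h := (norm_le_pi_norm (x - G.c) l).trans h1
    have h3 : |G.ω l| ≤ ‖G.ω‖ := norm_le_pi_norm G.ω l
    have h4 : |(x l - G.c l) / (16 * G.s)| ≤ G.h / (16 * G.s) := by
      rw [abs_div, abs_of_pos s0]
      exact div_le_div_of_nonneg_right h2 s0.le
    rw [ξ_slice hG hx]
    linarith only [hN, h3, h4, abs_sub ((x l - G.c l) / (16 * G.s)) (G.ω l)]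
  refine ⟨fun h => ⟨hy, fun l hl => (R3_fc (b l)).1 fun k hk => ?_⟩, ?_⟩
  · exact (e y hy l k).symm.trans ((h _ ⟨(l, k), ⟨hl, hk⟩, rfl⟩).trans (e x hx l k))
  · rintro h _ ⟨⟨l, k⟩, ⟨hl, hk⟩, rfl⟩
    exact (e y hy l k).trans (((R3_fc (b l)).2 (h.2 l hl) k hk).trans (e x hx l k).symm)

end Gr

end BEp
end
end

-- merged part: Pool.Agent.Work.MP_f0515e_an.D3.R4
section
/-! TASK R4. The three refinements.
`exists_tau0`: `Kx.refine` with the constant family `L` = `exists_mesh R δ` (`Reg` is compact,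
`Cf0.isCompact_Reg`) together with the walls `wall l (c a l)`, `wall l (c a l + r a)`, `wall l (c a l - r a)`,
`r a = (1 - γ) h`, for all `a`, `l`. A point `y` of `face L x`, `x ∈ sl a`, is in the slice and has `|y l - c
a l| ≤ r a` (`face_le`, `Cel.nr_slice`, `pi_norm_le_iff_of_nonneg`, `face_anti`); `sl` and closed balls are
closed (`sl_closed`: `nr` is continuous, or `Cel.isCompact_cell`).
`exists_k1`: `L a` from `gc_face` (`hX.gok a`); `Kx.refine` with `H x = ⋃ a ∈ {a | x ∈ sl a}, L a`; monotone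
by `h2`; for `x ∈ sl a` only `a` occurs (`ATop_same`, `ATop_10`), and `τ0.cell x` lies in the slice, so
`τ0.cell x ∩ face (L a) x = τ0.cell x ∩ gc x`; `face ∅ x = univ`.
`exists_k2`: `refine_pc` with the single set `X.Za` (index type `Unit`; `pc_Z.mono`, `Z_sub`). For `z ∈ Za`,
`ATop_Za` gives `y' ∈ Y` within `16 s ≤ ρ / 36` of `z` (`sρ`, `ATop_Ms`) and `ρ < ‖y' - cb‖` (`cand`), so `x`
with `‖x - cb‖ ≤ ρ / 2` is not in `closedBall z (ρ / 8)`. About 130 lines. -/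

open Set Metric Filter Topology Function BEv MeasureTheory
open scoped NNReal ENNReal

noncomputable section
namespace BEp

variable {ι κ : Type} [Fintype ι] [Fintype κ] {Ω : Set (Rn 3)}

/-- The part of the slice in the cell. -/
def Cel.sl {m : ℕ} (C : Cel m) : Set (V m) := {z | (∀ l, l ∉ C.I → z l = C.c l) ∧ z ∈ C.cell 1}

theorem Cel.sl_closed {m : ℕ} (C : Cel m) : IsClosed C.sl := by
  refine IsClosed.inter (s₁ := {z : V m | ∀ l, l ∉ C.I → z l = C.c l}) ?_ (C.isClosed_cell 1)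
  simp only [ofPred_forall]
  exact isClosed_iInter fun l => isClosed_iInter fun _ =>
    isClosed_eq (continuous_apply l) continuous_const

theorem exists_tau0 {X0 : Cf0 1 ι κ} (hX0 : X0.Ok) (τ : Kx Ω) {δ : ℝ} (hδ : 0 < δ) :
    ∃ τ0 : Kx Ω, τ.Ref τ0 ∧ (∀ x ∈ Ω, x ∈ X0.Reg → closure (τ0.cell x) ⊆ closedBall x δ) ∧
      ∀ a, ∀ x ∈ Ω, x ∈ (X0.C a).sl → closure (τ0.cell x) ⊆ (X0.C a).sl := by
  obtain ⟨R, hR⟩ := X0.isCompact_Reg.isBounded.exists_norm_le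
  obtain ⟨L0, f0, hL⟩ := exists_mesh (n := 3) R hδ
  let r : κ → ℝ := fun a => (1 - 1 * (X0.C a).γ) * (X0.C a).h
  let L : Set ((Rn 3 →L[ℝ] ℝ) × ℝ) := L0 ∪ range fun p : κ × Fin 3 × Fin 3 =>
    wall p.2.1 ((X0.C p.1).c p.2.1 + ![0, r p.1, -r p.1] p.2.2)
  obtain ⟨τ0, h⟩ := τ.refine (fun _ => L) (fun _ _ => f0.union (finite_range _))
    fun _ _ _ _ => Subset.rfl
  refine ⟨τ0, fun x hx => h x hx ▸ inter_subset_left, fun x hx k => closure_minimal
    (h x hx ▸ inter_subset_right.trans ((face_anti subset_union_left x).trans (hL x (hR x k))))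
      isClosed_closedBall, fun a x hx k => closure_minimal (fun y hy => ?_) (X0.C a).sl_closed⟩
  rw [h x hx] at hy
  have w := fun l j => face_le (L := L) (Or.inr ⟨(a, l, j), rfl⟩) hy.2
  have s : ∀ l, l ∉ (X0.C a).I → y l = (X0.C a).c l := fun l hl => by
    have := w l 0
    simp only [Matrix.cons_val_zero, add_zero] at this
    exact le_antisymm (this.1.2 (k.1 l hl).le) (this.2.2 (k.1 l hl).ge)
  have k2 : ‖x - (X0.C a).c‖ ≤ r a := Cel.nr_slice (hX0.cty a) k.1 ▸ k.2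
  refine ⟨s, ?_⟩
  change (X0.C a).nr y ≤ r a
  rw [Cel.nr_slice (hX0.cty a) s]
  refine (pi_norm_le_iff_of_nonneg ((norm_nonneg _).trans k2)).2 fun l => ?_
  have k3 := abs_le.1 ((norm_le_pi_norm _ l).trans k2)
  have w1 : y l ≤ (X0.C a).c l + r a := (w l 1).1.2 (sub_le_iff_le_add'.1 k3.2)
  have w2 : (X0.C a).c l + -r a ≤ y l := (w l 2).2.2 (le_sub_iff_add_le'.1 k3.1)
  exact abs_le.2 ⟨le_sub_iff_add_le'.2 w2, sub_le_iff_le_add'.2 w1⟩

theorem Cfg.exists_k1 {X : Cfg 1 ι κ} (hX : X.Ok) (τ0 : Kx Ω)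
    (h2 : ∀ a, ∀ x ∈ Ω, x ∈ (X.C a).sl → closure (τ0.cell x) ⊆ (X.C a).sl) :
    ∃ K1 : Kx Ω, τ0.Ref K1 ∧
      (∀ a, ∀ x ∈ Ω, x ∈ (X.C a).sl → K1.cell x = τ0.cell x ∩ (X.G a).gc x) ∧
      ∀ x ∈ Ω, (∀ a, x ∉ (X.C a).sl) → K1.cell x = τ0.cell x := by
  choose L f hL using fun a => Gr.gc_face (hX.gok a)
  obtain ⟨K1, h⟩ := τ0.refine (fun x => ⋃ a ∈ {a | x ∈ (X.C a).sl}, L a)
    (fun _ _ => (toFinite _).biUnion fun a _ => f a)
    fun x hx y hy => biUnion_subset_biUnion_left fun a ha => h2 a x hx ha hy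
  refine ⟨K1, fun x hx => h x hx ▸ inter_subset_left, fun a x hx k => ?_, fun x hx k => ?_⟩
  · have e : {a | x ∈ (X.C a).sl} = {a} := eq_singleton_iff_unique_mem.2
      ⟨k, fun a' k' => Cfg.ATop_same hX (Cfg.ATop_10 hX _ k'.2) (Cfg.ATop_10 hX _ k.2)⟩
    rw [h x hx, e, biUnion_singleton]
    exact Set.ext fun y => and_congr_right fun hy =>
      hL a x (Cfg.ATop_10 hX _ k.2) k.1 y (h2 a x hx k (subset_closure hy)).1
  · rw [h x hx, inter_eq_left]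
    intro y _ A hA
    obtain ⟨a, ha, -⟩ := mem_iUnion₂.1 hA
    exact (k a ha).elim

theorem Cfg.exists_k2 {X : Cfg 1 ι κ} (hX : X.Ok) (hΩ : IsOpen Ω) (hreg : X.Reg ⊆ Ω) (K1 : Kx Ω)
    (h1 : ∀ x ∈ X.Reg, closure (K1.cell x) ⊆ closedBall x (X.ρ / 8)) :
    ∃ K : Kx Ω, K1.Ref K ∧ X.Za ⊆ K.sk 1 ∧ ∀ a, ∀ b ∈ X.cand a, ∀ x : V 1,
      ‖x - (X.G a).cb b‖ ≤ X.ρ / 2 → K.cell x = K1.cell x := by
  have s : X.Za ⊆ X.Reg := subset_union_left.trans (Cfg.Z_sub hX)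
  obtain ⟨K, k1, k2, k3⟩ := K1.refine_pc hΩ (fun _ : Unit => X.Za) (fun _ => 1)
    (fun _ => (Cfg.pc_Z hX).mono subset_union_left) (fun _ => s.trans hreg) fun _ _ _ => toFinite _
  refine ⟨K, k1, k2 (), fun a b hb x hx => k3 x ?_ fun _ z hz k => ?_⟩
  · exact hreg (Cfg.ATop_reg hX a (Cfg.ATop_10 hX a (Cfg.near_cell hX hb (hx.trans (by linarith only [hX, hX.ρ0])))))
  · obtain ⟨y, hy, l1⟩ := Cfg.ATop_Za hX hz
    have l2 := hb.2.2.2 y hy
    have l3 := mem_closedBall_iff_norm.1 (h1 z (s hz) k)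
    have l4 := norm_sub_le_norm_sub_add_norm_sub y z ((X.G a).cb b)
    have l5 := norm_sub_le_norm_sub_add_norm_sub z x ((X.G a).cb b)
    rw [norm_sub_rev] at l1 l3
    linarith only [hx, l1, l2, l3, l4, l5, hX, hX.sρ a, Cfg.ATop_Ms hX a, hX.ρ0]

end BEp
end
end

-- merged part: Pool.Agent.Work.MP_f0515e_an.D3.R5
section
/-! TASK R5. The adapted complex.
`gc_sub`: `D = {z | z in the slice ∧ ‖z - cb‖ ≤ ρ'}` is convex, lies in `sl a` (`near_cell`) hence in `cell 0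
⊆ Reg ⊆ Ω` (`ATop_10`, `ATop_reg`); its points are not in `τ0.sk (card - 1)` (`hY`), so `card ≤ dm`;
`same_cell` gives `D ⊆ τ0.cell x`; `gc x ⊆ D` by `gc_ball`, `16 s ≤ ρ' / 36` (`ATop_Ms`).
`fit_of`: `K1` from `exists_k1`, `K` from `exists_k2` (`closure_mono` of `Ref`); `Reg ⊆ Ω` as `Qc q 2 ⊆ Qc q
3`. `Z`: `Za` by `exists_k2`; `x ∈ Zs a` is in `sl a`, `K.cell x ⊆ K1.cell x ⊆ gc x`, `gc_dm`, `dm_mono`. For
`x` in the slice with `‖x - cb‖ ≤ ρ' / 2`: `K.cell x = K1.cell x = gc x` (`gc_sub`). `grid`: `Gr.mem_Q`,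
`gc_cc`. `near`: for `y` in the slice `gc_dm`; for `y` off the slice `y ∉ sl a'` for all `a'` (`near_cell`,
`ATop_same`), so `K.cell y = τ0.cell y`, `y ∈ τ0.sk 1 ⊆ τ0.sk (card - 1)` (`1 < card` from `cand`), which
contradicts the distance to `Y'`. About 100 lines. -/

open Set Metric Filter Topology Function BEv MeasureTheory
open scoped NNReal ENNReal

noncomputable section
namespace BEp

variable {ι κ : Type} [Fintype ι] [Fintype κ] {Ω : Set (Rn 3)} {X : Cfg 1 ι κ} {ρ' : ℝ}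

theorem Cfg.gc_sub (hX : X.Ok) (hreg : X.Reg ⊆ Ω) (τ0 : Kx Ω)
    (h2 : ∀ a, ∀ x ∈ Ω, x ∈ (X.C a).sl → closure (τ0.cell x) ⊆ (X.C a).sl) (hρ : ρ' ≤ X.ρ / 2)
    {a : κ} (hs : 64 * (X.C a).M * X.s ≤ ρ') {b : Ix 1 → ℤ} (hb : b ∈ X.cand a)
    (hY : ∀ y ∈ τ0.sk ((X.C a).I.card - 1) ∩ (X.C a).cell 0, ρ' < ‖y - (X.G a).cb b‖) {x : V 1}
    (hx : ∀ l, l ∉ (X.C a).I → x l = X.c a l) (hd : ‖x - (X.G a).cb b‖ ≤ ρ' / 2) :
    (X.G a).gc x ⊆ τ0.cell x := by
  have s0 := hX.s0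
  have m1 := Cfg.ATop_Ms hX a
  have hsl : ∀ z ∈ {z : V 1 | ∀ l, l ∉ (X.C a).I → z l = X.c a l} ∩
      closedBall ((X.G a).cb b) ρ', z ∈ (X.C a).sl := fun z hz =>
    ⟨hz.1, Cfg.near_cell hX hb ((mem_closedBall_iff_norm.1 hz.2).trans (by linarith only [hρ, hs, s0, m1, hX.ρ0]))⟩
  have hΩ := fun z hz => hreg (Cfg.ATop_reg hX a (Cfg.ATop_10 hX a (hsl z hz).2))
  have cv : Convex ℝ {z : V 1 | ∀ l, l ∉ (X.C a).I → z l = X.c a l} :=
    fun y hy z hz α β _ _ e l hl => by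
      rw [Pi.add_apply, Pi.smul_apply, Pi.smul_apply, hy l hl, hz l hl, ← add_smul, e, one_smul]
  refine fun y hy => τ0.same_cell (I := (X.C a).I) (c := X.c a)
    (cv.inter (convex_closedBall _ _)).isPreconnected hΩ
    (fun z hz y hy => (h2 a z (hΩ z hz) (hsl z hz) (subset_closure hy)).1) (fun z hz => ?_) x
    ⟨hx, mem_closedBall_iff_norm.2 (by linarith only [hs, hd, s0, m1])⟩ ⟨hy.1, ?_⟩
  · by_contra k
    exact (hY z ⟨⟨hΩ z hz, Nat.le_sub_one_of_lt (not_le.1 k)⟩,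
      Cfg.ATop_10 hX a (hsl z hz).2⟩).not_ge (mem_closedBall_iff_norm.1 hz.2)
  · have l1 : ‖y - x‖ ≤ 16 * X.s := mem_closedBall_iff_norm.1 (Gr.gc_ball (hX.gok a) hx hy)
    have l2 := norm_sub_le_norm_sub_add_norm_sub y x ((X.G a).cb b)
    exact mem_closedBall_iff_norm.2 (by linarith only [hs, hd, s0, m1, l1, l2])

theorem Cfg.fit_of (hX : X.Ok) (hΩ : IsOpen Ω) (hreg : ∀ q, X.Qc q 3 ⊆ Ω) (τ0 : Kx Ω)
    (h1 : ∀ x ∈ Ω, x ∈ X.Reg → closure (τ0.cell x) ⊆ closedBall x (X.ρ / 8))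
    (h2 : ∀ a, ∀ x ∈ Ω, x ∈ (X.C a).sl → closure (τ0.cell x) ⊆ (X.C a).sl) (h0 : 0 < ρ')
    (hρ : ρ' ≤ X.ρ / 2) (hs : ∀ a, 64 * (X.C a).M * X.s ≤ ρ') :
    ∃ K : Kx Ω, τ0.Ref K ∧
      X.Fit K (fun a => τ0.sk ((X.C a).I.card - 1) ∩ (X.C a).cell 0) ρ' := by
  have ρ0 := hX.ρ0
  have hr : X.Reg ⊆ Ω := iUnion_subset fun q =>
    (closedBall_subset_closedBall (by linarith only [hX, hX.η0])).trans (hreg q)
  have hc : ∀ a, ∀ x ∈ (X.C a).cell 1, x ∈ Ω := fun a x hx =>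
    hr (Cfg.ATop_reg hX a (Cfg.ATop_10 hX a hx))
  obtain ⟨K1, r1, k1, k2⟩ := Cfg.exists_k1 hX τ0 h2
  obtain ⟨K, r2, k3, k4⟩ := Cfg.exists_k2 hX hΩ hr K1 fun x hx =>
    (closure_mono (r1 x (hr hx))).trans (h1 x (hr hx) hx)
  have key : ∀ a, ∀ b ∈ X.cand a, (∀ y ∈ τ0.sk ((X.C a).I.card - 1) ∩ (X.C a).cell 0,
      ρ' < ‖y - (X.G a).cb b‖) → ∀ x : V 1, (∀ l, l ∉ (X.C a).I → x l = X.c a l) →
      ‖x - (X.G a).cb b‖ ≤ ρ' / 2 → K.cell x = (X.G a).gc x := fun a b hb hY x hx hd => by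
    have m := Cfg.near_cell hX hb (y := x) (by linarith only [h0, hρ, hd])
    rw [k4 a b hb x (by linarith only [h0, hρ, hd]), k1 a x (hc a x m) ⟨hx, m⟩]
    exact inter_eq_right.2 (Cfg.gc_sub hX hr τ0 h2 hρ (hs a) hb hY hx hd)
  refine ⟨K, r1.trans r2, h0, hρ, hs, hreg, union_subset k3 (iUnion_subset fun a x hx => ?_),
    fun x hx => ?_, fun a b hb hY f x hx => ?_, fun a b hb hY y hy hd => ?_⟩
  · have m := hc a x hx.2.1
    refine ⟨m, (dm_mono ((r2 x m).trans ?_)).trans ((Gr.gc_dm (hX.gok a) hx.1).2 hx.2.2)⟩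
    rw [k1 a x m ⟨hx.1, hx.2.1⟩]
    exact inter_subset_right
  · exact (((r1.trans r2 x (hr hx)).trans subset_closure).trans (h1 x (hr hx) hx)).trans
      (closedBall_subset_closedBall (by linarith only [h0, hρ]))
  · obtain ⟨l1, l2⟩ := (Gr.mem_Q f (hX.gok a) (by norm_num)).1 hx
    have l3 : ‖x - (X.G a).cb b‖ ≤ X.s * (8 * (X.C a).M - 56 + 24) := l2
    rw [key a b hb hY x l1 (by linarith only [h0, l3, hs, hX, hs a, hX.s0])]
    exact (Gr.gc_cc (hX.gok a) f b l1).symm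
  · have m := Cfg.near_cell hX hb (y := y) (by linarith only [h0, hρ, hd])
    by_cases k : ∀ l, l ∉ (X.C a).I → y l = X.c a l
    · exact ⟨k, m, (Gr.gc_dm (hX.gok a) k).1 (key a b hb hY y k hd ▸ hy.2)⟩
    · have e : K.cell y = τ0.cell y := by
        rw [k4 a b hb y (by linarith only [h0, hρ, hd]), k2 y hy.1 fun a' k' => k ?_]
        obtain rfl := Cfg.ATop_same hX (Cfg.ATop_10 hX a m) (Cfg.ATop_10 hX a' k'.2)
        exact k'.1
      have := hY y ⟨⟨hy.1, (e ▸ hy.2).trans (Nat.le_sub_one_of_lt hb.2.1)⟩, Cfg.ATop_10 hX a m⟩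
      linarith only [h0, hd, this]

end BEp
end
end

-- merged part: Pool.Agent.Work.MP_f0515e_an.D3.RMain
section
/-! EXPORT of the complex block: `exists_fit` (here) and `Cfg.rig_in` (file R6). -/

open Set Metric Filter Topology Function BEv MeasureTheory
open scoped NNReal ENNReal

noncomputable section
namespace BEp

variable {ι κ : Type} [Fintype ι] [Fintype κ]

theorem exists_fit {X0 : Cf0 1 ι κ} (hX0 : X0.Ok) {Ω : Set (Rn 3)} (τ : Kx Ω) (hΩ : IsOpen Ω)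
    (hreg : ∀ q, X0.Qc q 3 ⊆ Ω) {e : ℝ≥0∞} (he : e ≠ 0) {ρ : ℝ} (hρ : 0 < ρ) :
    ∃ (ρ' : ℝ) (Y' : κ → Set (V 1)), 0 < ρ' ∧
      (∀ a, 1 < (X0.C a).I.card → volume ((X0.C a).Wd (Y' a) ρ') ≤ e) ∧
      ∀ X : Cfg 1 ι κ, X.toCf0 = X0 → X.Ok → X.ρ = ρ → (∀ a, 64 * (X.C a).M * X.s ≤ ρ') →
        ∃ K : Kx Ω, τ.Ref K ∧ X.Fit K Y' ρ' := by
  obtain ⟨τ0, r0, h1, h2⟩ := exists_tau0 hX0 τ (δ := ρ / 8) (by positivity)
  have hc : ∀ a, (X0.C a).cell 0 ⊆ Ω := fun a => (Cf0.cell_sub hX0 a).trans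
    ((closedBall_subset_closedBall (by linarith [hX0.η0])).trans (hreg (X0.q a)))
  have ev : ∀ a, ∀ᶠ r in 𝓝[>] (0 : ℝ), 1 < (X0.C a).I.card →
      volume ((X0.C a).Wd (τ0.sk ((X0.C a).I.card - 1) ∩ (X0.C a).cell 0) r) ≤ e := fun a => by
    by_cases k : 1 < (X0.C a).I.card
    · obtain ⟨Y, p1, p2, p3, -⟩ := Kx.poly_sk (K := τ0) ((X0.C a).isCompact_cell 0) (hc a)
        ((X0.C a).I.card - 1)
      filter_upwards [Cel.Wd_small' (C := X0.C a) (by omega) p1.1 p2 he] with r hr _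
      refine le_trans (measure_mono ?_) hr
      exact fun z ⟨a0, y, a1, a2⟩ => ⟨a0, y, p3 a1, a2⟩
    · exact .of_forall fun _ h => absurd h k
  obtain ⟨ρ', a1, a2⟩ := ((eventually_all.2 ev).and (Ioc_mem_nhdsGT (half_pos hρ))).exists
  refine ⟨ρ', _, a2.1, a1, ?_⟩
  rintro X rfl hX rfl hs
  obtain ⟨K, k1, k2⟩ := Cfg.fit_of hX hΩ hreg τ0 h1 h2 a2.1 a2.2 hs
  exact ⟨K, r0.trans k1, k2⟩

end BEp
end
end
end

-- merged part: Pool.Agent.Work.MP_f0515e_an.D3.NCore0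
section
-- merged part: Pool.Agent.Work.MP_f0515e_an.D3.NPro
section
/-! Speed profiles on an interval. -/

open Set Metric Filter Topology Function BEv MeasureTheory
open scoped NNReal ENNReal

noncomputable section
namespace BEp

/-- Supremum over the points of `[0, 1]` at distance less than `r`. -/
def supB (u : ℝ → ℝ≥0∞) (r x : ℝ) : ℝ≥0∞ := ⨆ y ∈ ball x r ∩ Icc 0 1, u y

theorem supB_meas (u : ℝ → ℝ≥0∞) (r : ℝ) : Measurable (supB u r) := by
  refine LowerSemicontinuous.measurable fun x c h => ?_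
  simp only [supB, lt_iSup_iff] at h ⊢
  obtain ⟨y, hy, h⟩ := h
  filter_upwards [isOpen_ball.mem_nhds (mem_ball_comm.1 hy.1)] with z hz
  exact ⟨y, ⟨mem_ball_comm.1 hz, hy.2⟩, h⟩

theorem supB_lim {u : ℝ → ℝ≥0∞} (hu : UpperSemicontinuous u) {x : ℝ} (hx : x ∈ Icc (0 : ℝ) 1) :
    Tendsto (fun n : ℕ => supB u (1 / (n + 1)) x) atTop (𝓝 (u x)) := by
  refine tendsto_order.2 ⟨fun c h => .of_forall fun n => h.trans_le
    (le_iSup₂_of_le x ⟨mem_ball_self (by positivity), hx⟩ le_rfl), fun c h => ?_⟩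
  obtain ⟨c', h1, h2⟩ := exists_between h
  obtain ⟨δ, δ0, hδ⟩ := Metric.mem_nhds_iff.1 (hu x c' h1)
  filter_upwards [tendsto_one_div_add_atTop_nhds_zero_nat.eventually (gt_mem_nhds δ0)] with n hn
  exact (iSup₂_le fun y hy => (hδ (ball_subset_ball hn.le hy.1)).le).trans_lt h2

theorem prof_step {u : ℝ → ℝ≥0∞} {M : ℝ≥0∞} (hM : ∀ x ∈ Icc (0 : ℝ) 1, u x ≤ M) (M0 : M ≠ ⊤)
    {r : ℝ} (hr : 0 < r) : ∃ S : ℝ → ℝ, TP S ∧ S 0 = 0 ∧
      (∫⁻ s in Icc (0 : ℝ) 1, u s).toReal + r ≤ S 1 ∧ ∀ s ∈ Icc (0 : ℝ) 1, ∀ t ∈ Icc (0 : ℝ) 1, s ≤ t →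
        r * (t - s) ≤ S t - S s ∧ ∀ x, |s - x| < r / 2 → |t - x| < r / 2 →
          S t - S s ≤ ((supB u r x).toReal + r) * (t - s) := by
  obtain ⟨n, hn⟩ := exists_nat_one_div_lt (half_pos hr)
  obtain ⟨h, h0, h1, h2⟩ : ∃ h : ℝ, 0 < h ∧ h < r / 2 ∧ ((n + 1 : ℕ) : ℝ) * h = 1 :=
    ⟨_, by positivity, hn, by push_cast; field_simp⟩
  generalize n + 1 = N at h2
  let m : ℕ → ℝ≥0∞ := fun k => ⨆ y ∈ Icc (k * h) ((k + 1 : ℕ) * h), u y
  let c : ℕ → ℝ → ℝ := fun k t => min t ((k + 1 : ℕ) * h) - min t (k * h)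
  have e : ∀ k : ℕ, ((k + 1 : ℕ) : ℝ) * h = k * h + h := fun k => by push_cast; ring
  have k0 : ∀ k : ℕ, 0 ≤ k * h := fun k => by positivity
  have k1 : ∀ k < N, ((k + 1 : ℕ) : ℝ) * h ≤ 1 := fun k hk =>
    h2 ▸ mul_le_mul_of_nonneg_right (Nat.cast_le.2 hk) h0.le
  have m1 : ∀ k < N, m k ≠ ⊤ := fun k hk => ne_top_of_le_ne_top M0
    (iSup₂_le fun y hy => hM y ⟨(k0 k).trans hy.1, hy.2.trans (k1 k hk)⟩)
  have cs : ∀ t ∈ Icc (0 : ℝ) 1, ∑ k ∈ Finset.range N, c k t = t := fun t ht => by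
    rw [Finset.sum_range_sub fun k : ℕ => min t (k * h), h2, min_eq_left ht.2, Nat.cast_zero,
      zero_mul, min_eq_right ht.1, sub_zero]
  have cm : ∀ k s t, s ≤ t → 0 ≤ c k t - c k s ∧
      (c k t - c k s = 0 ∨ s < k * h + h ∧ k * h < t) := fun k s t st => by
    simp only [c, e, min_def]
    refine ⟨by split_ifs <;> linarith, or_iff_not_imp_right.2 fun q => ?_⟩
    rcases not_and_or.1 q with q | q <;> split_ifs <;> linarith [not_lt.1 q]
  have hI : ∀ j : ℕ, ∫⁻ s in Icc (0 : ℝ) (j * h), u s ≤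
      ∑ k ∈ Finset.range j, m k * ENNReal.ofReal h := fun j => by
    induction j with
    | zero => simp
    | succ j ih =>
      refine ((lintegral_mono_set Icc_subset_Icc_union_Icc).trans (lintegral_union_le _ _ _)).trans
        ((add_le_add ih ((setLIntegral_mono' measurableSet_Icc fun y hy =>
          le_iSup₂_of_le (f := fun y _ => u y) y hy le_rfl).trans_eq ?_)).trans_eq
          (Finset.sum_range_succ _ _).symm)
      rw [setLIntegral_const, Real.volume_Icc, sub_eq_of_eq_add' (e j)]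
  refine ⟨fun t => ∑ k ∈ Finset.range N, ((m k).toReal + r) * c k t, TP.sum _ fun k _ =>
    ((TP.id'.min (TP.const _)).sub (TP.id'.min (TP.const _))).const_mul _,
    Finset.sum_eq_zero fun k _ => ?_, ?_, fun s hs t ht st => ?_⟩
  · simp only [c, min_eq_left (k0 _), sub_self, mul_zero]
  · have := ENNReal.toReal_mono (ENNReal.sum_ne_top.2 fun k hk =>
      ENNReal.mul_ne_top (m1 k (Finset.mem_range.1 hk)) ENNReal.ofReal_ne_top) (hI N)
    rw [h2, ENNReal.toReal_sum fun k hk =>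
      ENNReal.mul_ne_top (m1 k (Finset.mem_range.1 hk)) ENNReal.ofReal_ne_top] at this
    simp only [add_mul, Finset.sum_add_distrib, ← Finset.mul_sum, cs 1 ⟨zero_le_one, le_rfl⟩, mul_one]
    refine add_le_add (this.trans_eq (Finset.sum_congr rfl fun k hk => ?_)) le_rfl
    have := k1 k (Finset.mem_range.1 hk)
    simp only [c]
    rw [ENNReal.toReal_mul, ENNReal.toReal_ofReal h0.le, min_eq_right this,
      min_eq_right (by linarith only [h0, this, e, e k]), e, add_sub_cancel_left]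
  · have q : t - s = ∑ k ∈ Finset.range N, (c k t - c k s) := by
      rw [Finset.sum_sub_distrib, cs t ht, cs s hs]
    simp only [← Finset.sum_sub_distrib, ← mul_sub, q, Finset.mul_sum]
    refine ⟨Finset.sum_le_sum fun k _ => mul_le_mul_of_nonneg_right
      (le_add_of_nonneg_left ENNReal.toReal_nonneg) (cm k s t st).1,
      fun x a b => Finset.sum_le_sum fun k hk => ?_⟩
    rcases (cm k s t st).2 with z | z
    · rw [z, mul_zero, mul_zero]
    refine mul_le_mul_of_nonneg_right (add_le_add (ENNReal.toReal_mono (ne_top_of_le_ne_top M0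
      (iSup₂_le fun y hy => hM y hy.2)) (biSup_mono fun y hy => ⟨?_, (k0 k).trans hy.1,
        hy.2.trans (k1 k (Finset.mem_range.1 hk))⟩)) le_rfl) (cm k s t st).1
    rw [mem_ball, Real.dist_eq, abs_lt]
    constructor <;> linarith only [h1, z, a, hy, b, e, (abs_lt.1 a).1, (abs_lt.1 b).2, hy.1, hy.2, e k, z.1, z.2]

/-- A speed profile `b` adapted to the upper gradient `g` and the measure `μ`. -/
theorem profile1 {g : ℝ → ℝ≥0∞} (hg : Measurable g) (hV : ∫⁻ s in Icc (0 : ℝ) 1, g s ≠ ⊤)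
    {μ : Measure ℝ} [IsFiniteMeasure μ] (hμ : ∀ᵐ s ∂μ, s ∈ Icc (0 : ℝ) 1) {p C : ℝ} (hp : 0 ≤ p)
    (hC : 1 ≤ C) {ε : ℝ≥0∞} (hε : ε ≠ 0) :
    ∃ (θ : ℝ) (b : ℝ → ℝ) (w : ℝ → ℝ≥0∞), 0 < θ ∧ TP b ∧ StrictMonoOn b (Icc 0 1) ∧ b 0 = 0 ∧
      b 1 = 1 ∧ Measurable w ∧ (∀ x, w x ≠ ⊤) ∧
      (∀ x, ∀ s ∈ Icc (0 : ℝ) 1, ∀ t ∈ Icc (0 : ℝ) 1, |s - x| < θ / 2 → |t - x| < θ / 2 →
        (C * (∫⁻ s in Icc (0 : ℝ) 1, g s).toReal + θ) * |b t - b s| ≤ (w x).toReal * |t - s|) ∧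
      ∫⁻ s, w s ^ p ∂μ ≤ ENNReal.ofReal (2 * C) ^ p * ∫⁻ s, g s ^ p ∂μ + ε := by
  obtain ⟨u, ug, us, uV⟩ : ∃ u : ℝ → ℝ≥0, (∀ x, u x ≤ g x) ∧ UpperSemicontinuous u ∧
      ∫⁻ s in Icc (0 : ℝ) 1, g s ≤ 2 * ∫⁻ s in Icc (0 : ℝ) 1, u s := by
    by_cases z : ∫⁻ s in Icc (0 : ℝ) 1, g s = 0
    · exact ⟨0, fun _ => zero_le, upperSemicontinuous_const, z.trans_le zero_le⟩
    have e : ∫⁻ s in Icc (0 : ℝ) 1, ((g s).toNNReal : ℝ≥0∞) = ∫⁻ s in Icc (0 : ℝ) 1, g s :=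
      lintegral_congr_ae ((ae_lt_top hg hV).mono fun x k => ENNReal.coe_toNNReal k.ne)
    obtain ⟨u, a, b, c⟩ := exists_upperSemicontinuous_le_lintegral_le (fun s => (g s).toNNReal)
      (e ▸ hV) (ENNReal.half_pos z).ne'
    refine ⟨u, fun x => (ENNReal.coe_le_coe.2 (a x)).trans ENNReal.coe_toNNReal_le_self, b, ?_⟩
    rw [e] at c
    rw [← ENNReal.div_le_iff' two_ne_zero ENNReal.ofNat_ne_top]
    exact ENNReal.le_of_add_le_add_right (ENNReal.div_ne_top hV two_ne_zero)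
      ((ENNReal.add_halves _).trans_le c)
  obtain ⟨M, hM⟩ := (us.upperSemicontinuousOn (Icc 0 1)).bddAbove_of_isCompact isCompact_Icc
  replace hM : ∀ x ∈ Icc (0 : ℝ) 1, (u x : ℝ≥0∞) ≤ M := fun x k =>
    ENNReal.coe_le_coe.2 (hM ⟨x, k, rfl⟩)
  have sM : ∀ r x, supB (fun y => u y) r x ≤ M := fun r x => iSup₂_le fun y hy => hM y hy.2
  have us' : UpperSemicontinuous fun y => (u y : ℝ≥0∞) :=
    ENNReal.continuous_coe.comp_upperSemicontinuous us ENNReal.coe_mono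
  let w : ℕ → ℝ → ℝ≥0∞ := fun n x => ENNReal.ofReal (2 * C) *
    (supB (fun y => u y) (1 / (n + 1)) x + ENNReal.ofReal (1 / (n + 1)))
  have mw : ∀ n, Measurable (w n) := fun n => ((supB_meas _ _).add_const _).const_mul _
  have bw : ∀ n x, w n x ≤ ENNReal.ofReal (2 * C) * (M + 1) := fun n x =>
    mul_le_mul_right (add_le_add (sM _ _) (ENNReal.ofReal_le_one.2
      (div_le_one_of_le₀ (by simp) (by positivity)))) _
  have bt : ENNReal.ofReal (2 * C) * (M + 1) ≠ ⊤ := by finiteness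
  have fin : ∫⁻ _, (ENNReal.ofReal (2 * C) * (M + 1)) ^ p ∂μ ≠ ⊤ := by
    rw [lintegral_const]
    exact ENNReal.mul_ne_top (ENNReal.rpow_ne_top_of_nonneg hp bt) (measure_ne_top _ _)
  have lim := tendsto_lintegral_of_dominated_convergence (μ := μ) (F := fun n x => w n x ^ p)
    (f := fun x => (ENNReal.ofReal (2 * C) * u x) ^ p) _ (fun n => (mw n).pow_const p)
    (fun n => .of_forall fun x => ENNReal.rpow_le_rpow (bw n x) hp) fin (hμ.mono fun x k => by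
      refine (ENNReal.continuous_rpow_const.tendsto _).comp
        (ENNReal.Tendsto.const_mul ?_ (Or.inr ENNReal.ofReal_ne_top))
      simpa using (supB_lim us' k).add
        (ENNReal.tendsto_ofReal tendsto_one_div_add_atTop_nhds_zero_nat))
  obtain ⟨n, hn⟩ := (lim.eventually (gt_mem_nhds (ENNReal.lt_add_right (ne_top_of_le_ne_top fin
    (lintegral_mono_ae (hμ.mono fun x k => ENNReal.rpow_le_rpow
      (mul_le_mul_right ((hM x k).trans le_self_add) _) hp))) hε))).exists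
  have r0 : (0 : ℝ) < 1 / (n + 1) := by positivity
  obtain ⟨S, S1, S2, S3, S4⟩ := prof_step hM ENNReal.coe_ne_top r0
  have S0 : 0 < S 1 := r0.trans_le ((le_add_of_nonneg_left ENNReal.toReal_nonneg).trans S3)
  refine ⟨_, fun t => S t / S 1, w n, r0, S1.div_const _, fun s a t b k => div_lt_div_of_pos_right
    (sub_pos.1 ((mul_pos r0 (sub_pos.2 k)).trans_le (S4 s a t b k.le).1)) S0, by simp [S2],
    div_self S0.ne', mw n, fun x => ne_top_of_le_ne_top bt (bw n x), fun x s a t b c d => ?_,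
    hn.le.trans (add_le_add ?_ le_rfl)⟩
  · wlog k : s ≤ t generalizing s t
    · rw [abs_sub_comm, abs_sub_comm t]
      exact this t b s a d c (not_le.1 k).le
    have V := ENNReal.toReal_mono (ENNReal.mul_ne_top ENNReal.ofNat_ne_top (ne_top_of_le_ne_top hV
      (lintegral_mono ug))) uV
    rw [ENNReal.toReal_mul, ENNReal.toReal_ofNat] at V
    have p0 := (mul_nonneg r0.le (sub_nonneg.2 k)).trans (S4 s a t b k).1
    rw [← sub_div, abs_of_nonneg (div_nonneg p0 S0.le), abs_of_nonneg (sub_nonneg.2 k),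
      ENNReal.toReal_mul, ENNReal.toReal_add (ne_top_of_le_ne_top ENNReal.coe_ne_top (sM _ _))
        ENNReal.ofReal_ne_top, ENNReal.toReal_ofReal r0.le, ENNReal.toReal_ofReal (by linarith only [hC]),
      mul_assoc]
    refine le_trans ?_ (mul_le_mul_of_nonneg_left ((S4 s a t b k).2 x c d) (by linarith only [hC]))
    rw [mul_div_left_comm, mul_comm]
    exact mul_le_mul_of_nonneg_right ((div_le_iff₀ S0).2 (by linarith only [r0, S3, V, hC, mul_nonneg_of_nonpos_of_nonpos (Mathlib.Tactic.Linarith.sub_nonpos_of_le hC) (le_of_lt (Mathlib.Tactic.Linarith.sub_neg_of_lt r0)), mul_nonneg_of_nonpos_of_nonpos (Mathlib.Tactic.Linarith.sub_nonpos_of_le hC) (Mathlib.Tactic.Linarith.sub_nonpos_of_le S3), mul_nonneg_of_nonpos_of_nonpos (Mathlib.Tactic.Linarith.sub_nonpos_of_le hC) (Mathlib.Tactic.Linarith.sub_nonpos_of_le V)])) p0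
  · rw [← lintegral_const_mul _ (hg.pow_const p)]
    exact lintegral_mono fun x => (ENNReal.rpow_le_rpow (mul_le_mul_right (ug x) _) hp).trans_eq
      (ENNReal.mul_rpow_of_nonneg _ _ hp)

end BEp
end
end

-- merged part: Pool.Agent.Work.MP_f0515e_an.D3.NOut
section
/-! Speed profiles on the edges of a complex. -/

open Set Metric Filter Topology Function BEv MeasureTheory
open scoped NNReal ENNReal

noncomputable section
namespace BEp

section Seg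
variable {a b : Rn 3}

theorem NOut_sub (a b : Rn 3) (s t : ℝ) : seg a b s - seg a b t = (s - t) • (b - a) := by
  rw [seg, seg, add_sub_add_left_eq_sub, sub_smul]

theorem NOut_norm (a b : Rn 3) (s t : ℝ) : ‖seg a b s - seg a b t‖ = |s - t| * ‖b - a‖ := by
  rw [NOut_sub, norm_smul, Real.norm_eq_abs]

theorem NOut_par (h : a ≠ b) : ∃ l : Rn 3 →L[ℝ] ℝ, ∀ s, l (seg a b s - a) = s := by
  obtain ⟨l, hl⟩ := SeparatingDual.exists_eq_one (R := ℝ) (sub_ne_zero.2 h.symm)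
  exact ⟨l, fun s => by rw [seg, add_sub_cancel_left, map_smul, hl, smul_eq_mul, mul_one]⟩

theorem NOut_inj (h : a ≠ b) : Injective (seg a b) := fun s t e => by
  obtain ⟨l, hl⟩ := NOut_par h
  rw [← hl s, e, hl]

theorem NOut_meas (h : a ≠ b) : MeasurableSet (openSegment ℝ a b) :=
  seg_image_open a b ▸ measurableSet_Ioo.image_of_continuousOn_injOn
    (tp_seg a b).continuous.continuousOn (NOut_inj h).injOn

theorem NOut_null (h : a ≠ b) {a' b' : Rn 3} (h' : a' ≠ b') {N : Set ℝ} (hN : volume N = 0) :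
    volume (seg a' b' ⁻¹' (seg a b '' N)) = 0 := by
  obtain ⟨l, hl⟩ := NOut_par h
  have k : ∀ t s, seg a b s = seg a' b' t → s = l (a' - a) + l (b' - a') * t := fun t s e => by
    rw [← hl s, e, seg, add_sub_right_comm, map_add, map_smul, smul_eq_mul, mul_comm]
  by_cases z : l (b' - a') = 0
  · refine Set.Subsingleton.measure_zero ?_ _
    rintro t ⟨s, -, e⟩ t' ⟨s', -, e'⟩
    refine NOut_inj h' ?_
    rw [← e, ← e', k t s e, k t' s' e', z, zero_mul, zero_mul]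
  · refine measure_mono_null (t := (l (b' - a') * ·) ⁻¹' ((l (a' - a) + ·) ⁻¹' N))
      (fun t ⟨s, q, e⟩ => (k t s e ▸ q :)) ?_
    rw [Real.volume_preimage_mul_left z, measure_preimage_add, hN, mul_zero]

theorem vr_symm (f : Rn 3 → Rn 3) (a b : Rn 3) : vr f b a ≤ vr f a b := by
  refine le_trans (le_of_eq (congrArg (eVariationOn · _) (funext fun t => ?_)))
    (eVariationOn.comp_le_of_antitoneOn (fun t => f (seg a b t)) (fun t : ℝ => 1 - t)
      (fun _ _ _ _ h => sub_le_sub_left h 1) fun t h => ⟨sub_nonneg.2 h.2, sub_le_self _ h.1⟩)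
  exact congrArg f (by simp only [seg]; module)

theorem vr_le {f : Rn 3 → Rn 3} {u : ℝ → ℝ≥0∞} {c : ℝ≥0∞} (h : ∀ s s', 0 ≤ s → s ≤ s' → s' ≤ 1 →
    ‖f (seg a b s') - f (seg a b s)‖ₑ ≤ c * ∫⁻ x in Icc s s', u x) :
    vr f a b ≤ c * ∫⁻ x in Icc (0 : ℝ) 1, u x := by
  refine iSup_le fun ⟨n, v, m, k⟩ => le_trans ?_
    (mul_le_mul_right (lintegral_mono_set (Ioc_subset_Icc_self.trans (Icc_subset_Icc (k 0).1 (k n).2))) c)
  induction n with
  | zero => simp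
  | succ n ih =>
    rw [Finset.sum_range_succ, ← Ioc_union_Ioc_eq_Ioc (m n.zero_le) (m n.le_succ),
      lintegral_union measurableSet_Ioc (Ioc_disjoint_Ioc_of_le le_rfl), mul_add, edist_eq_enorm_sub]
    exact add_le_add ih ((h _ _ (k n).1 (m n.le_succ) (k _).2).trans_eq
      (by rw [restrict_Ioc_eq_restrict_Icc]))

theorem deriv_seg {G : Rn 3 → Rn 3} {s c : ℝ} (hc : 0 ≤ c)
    (h : ∀ᶠ t in 𝓝 s, ‖G (seg a b t) - G (seg a b s)‖ ≤ c * ‖seg a b t - seg a b s‖) :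
    ‖deriv (fun s => G (seg a b s)) s‖ₑ ≤ ‖b - a‖ₑ * ENNReal.ofReal c := by
  rw [← ofReal_norm, ← ofReal_norm, ← ENNReal.ofReal_mul (norm_nonneg _)]
  refine ENNReal.ofReal_le_ofReal (norm_deriv_le_of_lip' (by positivity) (h.mono fun t k => ?_))
  rw [NOut_norm] at k
  exact k.trans_eq (by rw [Real.norm_eq_abs]; ring)

theorem TL.seg {G : Rn 3 → Rn 3} {A : Rn 3 →L[ℝ] Rn 3} {s c : ℝ}
    (h : TL G A (b - a) (seg a b s) c) :
    ∀ᶠ t in 𝓝 s, ‖G (seg a b t) - G (seg a b s)‖ ≤ (‖A‖ + c) * ‖seg a b t - seg a b s‖ := by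
  obtain ⟨r, r0, k⟩ := LL.exists_ball h
  filter_upwards [ball_mem_nhds s r0] with t ht
  have := k (t - s) (by simpa [dist_eq_norm] using ht) 0 (mem_ball_self r0)
  rw [← NOut_sub, add_sub_cancel] at this
  simp only [zero_smul, add_zero, sub_zero] at this
  rw [← sub_add_cancel (G _ - G _) ((t - s) • A (b - a)), sub_right_comm, NOut_norm]
  refine (norm_add_le _ _).trans ?_
  rw [norm_smul]
  have := mul_le_mul_of_nonneg_left (A.le_opNorm (b - a)) (norm_nonneg (t - s))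
  simp only [Real.norm_eq_abs] at *
  linarith

theorem edge_prof (h : a ≠ b) {g : Rn 3 → ℝ≥0∞} (hg : Measurable g)
    (hV : ∫⁻ s in Icc (0 : ℝ) 1, g (seg a b s) ≠ ⊤) {ν : Measure (Rn 3)}
    (hν : ν (segment ℝ a b) ≠ ⊤) {p C : ℝ} (hp : 0 < p) (hC : 1 ≤ C) {ε : ℝ≥0∞} (hε : ε ≠ 0)
    (P : Prop) : ∃ (θ : ℝ) (be : Rn 3 → ℝ) (w : Rn 3 → ℝ≥0∞), 0 < θ ∧
      (TP be ∧ InjOn be (segment ℝ a b) ∧ be '' segment ℝ a b = Icc 0 1) ∧ Measurable w ∧
      ∫⁻ y in openSegment ℝ a b, w y ^ p ∂ν ≤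
        ENNReal.ofReal (2 * C) ^ p * ∫⁻ y in openSegment ℝ a b, g y ^ p ∂ν + ε ∧
      (P → ∀ y ∈ segment ℝ a b, ∀ z ∈ segment ℝ a b, |be y - be z| * ‖b - a‖ ≤ ‖y - z‖) ∧
      (¬ P → ∀ y ∈ openSegment ℝ a b, w y ≠ ⊤ ∧ ∀ᶠ z in 𝓝 y, z ∈ segment ℝ a b →
        (C * (‖b - a‖ₑ * ∫⁻ s in Icc (0 : ℝ) 1, g (seg a b s)).toReal + θ) * |be z - be y| ≤
          (w y).toReal * ‖z - y‖) := by
  obtain ⟨l, hl⟩ := NOut_par h
  have t : TP fun y => l (y - a) := (TP.clm l).comp (TP.id'.sub (TP.const a))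
  have m := t.continuous.measurable
  have : IsFiniteMeasure (ν.restrict (openSegment ℝ a b)) := isFiniteMeasure_restrict.2
    (ne_top_of_le_ne_top hν (measure_mono (openSegment_subset_segment ..)))
  have key : ∀ β : ℝ → ℝ, TP β → StrictMonoOn β (Icc 0 1) → β 0 = 0 → β 1 = 1 →
      TP (fun y => β (l (y - a))) ∧ InjOn (fun y => β (l (y - a))) (segment ℝ a b) ∧
        (fun y => β (l (y - a))) '' segment ℝ a b = Icc 0 1 := fun β b1 b2 b3 b4 => by
    refine ⟨b1.comp t, ?_, ?_⟩ <;> rw [← seg_image]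
    · rintro _ ⟨s, hs, rfl⟩ _ ⟨s', hs', rfl⟩ e
      rw [b2.injOn hs hs' (by simpa only [hl] using e)]
    · simp only [image_image, hl]
      rw [b1.continuous.continuousOn.image_Icc_of_monotoneOn zero_le_one b2.monotoneOn, b3, b4]
  by_cases hP : P
  · refine ⟨1, fun y => l (y - a), fun _ => 0, one_pos, key _ TP.id' (strictMono_id.strictMonoOn _) rfl rfl,
      measurable_const, by simp [hp], fun _ => ?_, fun k => absurd hP k⟩
    rw [← seg_image]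
    rintro _ ⟨s, -, rfl⟩ _ ⟨s', -, rfl⟩
    simp only [hl, NOut_norm, le_rfl]
  have gm := hg.comp (tp_seg a b).continuous.measurable
  obtain ⟨θ, β, w, θ0, b1, b2, b3, b4, w1, w2, w3, w4⟩ := profile1 gm hV
    (μ := (ν.restrict (openSegment ℝ a b)).map fun y => l (y - a))
    ((ae_map_iff m.aemeasurable measurableSet_Icc).2 ((ae_restrict_mem (NOut_meas h)).mono (by
      rw [← seg_image_open]
      rintro _ ⟨s, hs, rfl⟩
      exact (hl s).symm ▸ Ioo_subset_Icc_self hs))) hp.le hC hε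
  have n0 := norm_pos_iff.2 (sub_ne_zero.2 h.symm)
  refine ⟨‖b - a‖ * θ, fun y => β (l (y - a)), fun y => w (l (y - a)), mul_pos n0 θ0,
    key β b1 b2 b3 b4, w1.comp m, ?_, fun k => absurd k hP, fun _ => ?_⟩
  · rw [lintegral_map (w1.pow_const p) m, lintegral_map (gm.pow_const p) m] at w4
    refine w4.trans_eq (congrArg (_ * · + ε) (setLIntegral_congr_fun (NOut_meas h) ?_))
    rw [← seg_image_open]
    rintro _ ⟨s, -, rfl⟩
    simp only [hl, comp_apply]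
  · rw [← seg_image_open, ← seg_image]
    rintro _ ⟨s, hs, rfl⟩
    refine ⟨w2 _, mem_of_superset (ball_mem_nhds _ (mul_pos (half_pos θ0) n0)) ?_⟩
    rintro _ k ⟨s', hs', rfl⟩
    rw [mem_ball_iff_norm, NOut_norm] at k
    have := mul_le_mul_of_nonneg_right (w3 s s (Ioo_subset_Icc_self hs) s' hs'
      (by simpa using θ0) (lt_of_mul_lt_mul_right k n0.le)) n0.le
    simp only [hl, NOut_norm, ENNReal.toReal_mul, toReal_enorm, comp_apply] at this ⊢
    linarith only [this]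

end Seg

theorem RigIn.cell_sub {Ω : Set (Rn 3)} {K : Kx Ω} {f : Rn 3 → Rn 3} {ι : Type} {B : ι → Box 1}
    {s : ℝ} {ε ε' : ι → ℝ} (h : RigIn K f B s ε ε') {y : Rn 3} (hy : y ∈ K.sk 1) {i : ι}
    (hx : (closure (K.cell y) ∩ (B i).Q s 8).Nonempty) : y ∈ (B i).Q s 40 := by
  obtain ⟨x, h1, h2⟩ := hx
  obtain ⟨e, e0, he⟩ := h.thick i
  have s0 := h.s0
  obtain ⟨z, hz, hd⟩ := Metric.mem_closure_iff.1 h1 _ (lt_min e0 s0)
  have d : ∀ l, |z l - (B i).c l| ≤ |x l - (B i).c l| + min e s := fun l =>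
    (abs_sub_le _ (x l) _).trans (by
      have : |z l - x l| < min e s := (dist_le_pi_dist z x l).trans_lt (dist_comm x z ▸ hd)
      linarith)
  have q : ∀ l ∈ (B i).I, |z l - (B i).c l| ≤ s * ((B i).r + 9) := fun l hl => by
    linarith [d l, h2.2 l hl, min_le_right e s]
  have e1 := K.eqv y hy.1 z hz
  have zs := he ⟨⟨K.sub y hy.1 (subset_closure hz), e1 ▸ hy.2⟩, fun l hl => by linarith [q l hl],
    fun l hl => by simpa [h2.1 l hl] using (d l).trans (add_le_add le_rfl (min_le_left e s))⟩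
  have m := K.mem y hy.1
  rw [← e1, h.grid i z ⟨zs.1, fun l hl => by linarith [q l hl]⟩] at m
  refine ⟨m.1, fun l hl => ?_⟩
  have := Int.abs_sub_lt_one_of_floor_eq_floor (m.2 l hl).1
  rw [← sub_div, sub_sub_sub_cancel_right, ← sub_div, sub_sub_sub_cancel_right, div_div, abs_div,
    div_lt_one (by positivity), abs_of_pos (a := s * 16) (by positivity)] at this
  linarith [abs_sub_le (y l) (z l) ((B i).c l), q l hl]

theorem out_glue {Ω : Set (Rn 3)} {K : Kx Ω} (hΩ : IsOpen Ω) {p : ℝ} (hp : 1 ≤ p) {C0 : ℝ}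
    (hC : 1 ≤ C0) {H : Set (Rn 3)} {f : Rn 3 → Rn 3} {g : Rn 3 → ℝ≥0∞} {ν : Measure (Rn 3)}
    {D : Rn 3 → Rn 3 →L[ℝ] Rn 3} {Ec : Set (Set (Rn 3))} (hg : Measurable g) (hu : EUG K f g)
    (hν : EMe K H ν) (hE : Ec.Finite) (hE1 : Ec ⊆ K.cel 1)
    (hD : ∀ σ ∈ Ec, ∀ y ∈ σ, ‖D y‖ₑ ≤ g y) {ι : Type} {B : ι → Box 1} {s : ℝ} {ε ε' : ι → ℝ}
    (hR : RigIn K f B s ε ε') (hQ : ∀ i, (B i).Q s 40 ⊆ H) {e : ℝ≥0∞} (he : e ≠ 0) :
    Acm (ν.restrict (⋃₀ Ec)) ∧ ν (⋃₀ Ec) ≠ ⊤ ∧ (∀ a b, K.Edge a b → vr f a b ≠ ⊤) ∧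
    ∃ (be : Set (Rn 3) → Rn 3 → ℝ) (th : Set (Rn 3) → ℝ) (e1 : ℝ≥0∞), BeOk K be ∧
      (∀ σ, 0 < th σ) ∧ e1 ≠ 0 ∧
      (∀ a b, K.Edge a b → openSegment ℝ a b ⊆ H → ∀ y ∈ segment ℝ a b, ∀ y' ∈ segment ℝ a b,
        |be (openSegment ℝ a b) y - be (openSegment ℝ a b) y'| * ‖b - a‖ ≤ ‖y - y'‖) ∧
      ∀ (ν2 : Measure (Rn 3)) (θ : Set (Rn 3) → ℝ) (e2 : ℝ≥0∞) (G : Rn 3 → Rn 3),
        ν.restrict (⋃₀ Ec) ≤ ν2 → (∀ σ, θ σ ≤ th σ) → e2 ≤ e1 →
        AnOut K f D p Ec ν2 B s ε θ be C0 e2 G →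
        ∃ g2 : Rn 3 → ℝ≥0∞, Measurable g2 ∧ ESp K H G g2 ∧
          ∫⁻ y, g2 y ^ p ∂ν ≤ ENNReal.ofReal (16 * C0) ^ p * ∫⁻ y, g y ^ p ∂ν + e ∧
          ∀ y ∈ K.sk 1, y ∉ H → ∃ y' ∈ closure (K.cell y), ‖G y - f y'‖ ≤ θ (K.cell y) := by
  have p0 : 0 < p := one_pos.trans_le hp
  choose! a b ab eσ using fun σ (h : σ ∈ K.cel 1) => Kx.dm_one h.1 h.2
  have ms : ∀ σ ∈ K.cel 1, MeasurableSet σ := fun σ h => eσ σ h ▸ NOut_meas (ab σ h).1
  have mU : MeasurableSet (⋃₀ Ec) := .sUnion hE.countable fun σ h => ms σ (hE1 h)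
  have ss : ∀ σ ∈ K.cel 1, σ ⊆ segment ℝ (a σ) (b σ) := fun σ h =>
    (eσ σ h).subset.trans (openSegment_subset_segment ..)
  have v : ∀ a b, K.Edge a b → vr f a b ≤ _ := fun a b h => vr_le (hu a b h).2
  refine ⟨fun x y xy N hN => ?_, ?_, fun x y h => ne_top_of_le_ne_top
    (ENNReal.mul_ne_top enorm_ne_top (hu x y h).1) (v x y h), ?_⟩
  · rw [Measure.restrict_apply' mU, sUnion_eq_biUnion, inter_iUnion₂,
      measure_biUnion_null_iff hE.countable]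
    refine fun σ h => measure_mono_null (fun z k => ?_)
      (hν.ac _ _ (ab σ (hE1 h)) _ (NOut_null xy (ab σ (hE1 h)).1 hN))
    obtain ⟨t, -, rfl⟩ := (seg_image _ _).ge (ss σ (hE1 h) k.2)
    exact ⟨t, k.1, rfl⟩
  · rw [sUnion_eq_biUnion]
    exact measure_biUnion_ne_top hE fun σ h => ne_top_of_le_ne_top (hν.fin _ _ (ab σ (hE1 h)))
      (measure_mono (ss σ (hE1 h)))
  have : Countable (K.cel 1) := ((K.countable hΩ).mono fun _ h => h.1).to_subtype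
  obtain ⟨δ, δ0, hδ⟩ := ENNReal.exists_pos_sum_of_countable' (ENNReal.half_pos he).ne' (K.cel 1)
  choose θ0 be0 w k0 k1 k2 k3 k4 k5 using fun σ : K.cel 1 => edge_prof (ab σ σ.2).1 hg
    (hu _ _ (ab σ σ.2)).1 (hν.fin _ _ (ab σ σ.2)) p0 hC (δ0 σ).ne' (σ.1 ⊆ H)
  classical
  have ed : ∀ x y (h : K.Edge x y), ∃ σ : K.cel 1, openSegment ℝ x y = σ ∧
      segment ℝ x y = segment ℝ (a σ) (b σ) ∧ ‖y - x‖ = ‖b σ - a σ‖ ∧
      vr f x y ≤ vr f (a σ) (b σ) := fun x y h => by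
    have m : openSegment ℝ x y ∈ K.cel 1 := ⟨h.2, h.dm⟩
    refine ⟨⟨_, m⟩, rfl, ?_⟩
    rcases h.uniq (eσ _ m) with ⟨e1, e2⟩ | ⟨e1, e2⟩ <;> simp only [← e1, ← e2]
    exacts [⟨trivial, trivial, le_rfl⟩, ⟨segment_symm .., norm_sub_rev .., vr_symm ..⟩]
  have t2 : (2 : ℝ≥0∞) ^ p ≠ ⊤ := ENNReal.rpow_ne_top_of_nonneg p0.le ENNReal.ofNat_ne_top
  refine ⟨fun σ => if h : σ ∈ K.cel 1 then be0 ⟨σ, h⟩ else 0,
    fun σ => if h : σ ∈ K.cel 1 then θ0 ⟨σ, h⟩ else 1, e / 2 / 2 ^ p, fun x y h => ?_,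
    fun σ => by beta_reduce; split_ifs; exacts [k0 _, one_pos],
    (ENNReal.div_pos (ENNReal.half_pos he).ne' t2).ne', fun x y h => ?_, ?_⟩
  · obtain ⟨σ, e1, e2, -⟩ := ed x y h
    simpa only [e1, e2, dif_pos σ.2] using k1 σ
  · obtain ⟨σ, e1, e2, e3, -⟩ := ed x y h
    simpa only [e1, e2, e3, dif_pos σ.2] using k4 σ
  rintro ν2 θ e2 G h1 h2 h3 ⟨-, -, -, ⟨ψ, N, c1, c2, c3, c4, c5⟩, lin, sup⟩
  let g1 : Rn 3 → ℝ≥0∞ := fun y => ∑' σ : K.cel 1, indicator σ.1 (w σ) y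
  have m1 : Measurable g1 := .tsum fun σ => (k2 σ).indicator (ms σ σ.2)
  have dj : Pairwise (Disjoint on fun σ : K.cel 1 => σ.1) := fun σ τ k =>
    Kx.disj σ.2.1 τ.2.1 (Subtype.coe_ne_coe.2 k)
  have e1 : ∀ σ : K.cel 1, ∀ y ∈ σ.1, g1 y = w σ y := fun σ y k =>
    (tsum_eq_single σ fun τ q => indicator_of_notMem (disjoint_right.1 (dj q) k) _).trans
      (indicator_of_mem k _)
  have mψ := c1.ennreal_ofReal
  refine ⟨piecewise (⋃₀ Ec) (fun y => g y + ENNReal.ofReal (ψ y)) g1, (hg.add mψ).piecewise mU m1,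
    fun x y h => ?_, ?_, fun y hy q => (sup y hy).imp fun z k => ⟨k.1, k.2.resolve_right
      fun ⟨i, j, _⟩ => q (hQ i (hR.cell_sub hy j))⟩⟩
  · filter_upwards [((c3.preimage (NOut_inj h.1).injOn).union (toFinite {0, 1})).countable.ae_notMem
      volume] with t k ht hH
    simp only [mem_union, mem_preimage, mem_insert_iff, mem_singleton_iff, not_or] at k
    have t0 : t ∈ Ioo (0 : ℝ) 1 := ⟨ht.1.lt_of_ne' k.2.1, ht.2.lt_of_ne k.2.2⟩
    have m : seg x y t ∈ openSegment ℝ x y := (seg_image_open x y).le ⟨t, t0, rfl⟩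
    by_cases c : openSegment ℝ x y ∈ Ec
    · rw [piecewise_eq_of_mem _ _ _ (mem_sUnion_of_mem m c)]
      refine (deriv_seg (add_nonneg (norm_nonneg _) (c2 _)) (c5 x y h c _ m k.1).seg).trans
        (mul_le_mul_right ?_ _)
      rw [ENNReal.ofReal_add (norm_nonneg _) (c2 _), ofReal_norm]
      exact add_le_add (hD _ c _ m) le_rfl
    obtain ⟨σ, s1, s2, s3, s4⟩ := ed x y h
    have nH : ¬ σ.1 ⊆ H := fun z => hH (z (s1 ▸ m))
    obtain ⟨w1, w2⟩ := k5 σ nH _ (eσ σ σ.2 ▸ s1 ▸ m)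
    rw [piecewise_eq_of_notMem _ _ _ fun u => (mem_sUnion.1 u).elim fun τ u => c
      ((Kx.cell_eq h.2 m).symm.trans (Kx.cell_eq (hE1 u.1).1 u.2) ▸ u.1), e1 σ _ (s1 ▸ m),
      ← ENNReal.ofReal_toReal w1]
    refine deriv_seg ENNReal.toReal_nonneg ?_
    filter_upwards [(tp_seg x y).continuous.continuousAt.eventually w2, Icc_mem_nhds t0.1 t0.2]
      with r u1 u2
    have m' : seg x y r ∈ segment ℝ x y := (seg_image x y).le ⟨r, u2, rfl⟩
    have := lin x y h c (fun i z => nH (s1 ▸ (openSegment_subset_segment ..).trans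
      (z.trans fun _ j => hQ i ⟨j.1, fun l hl => (j.2 l hl).trans
        (mul_le_mul_of_nonneg_left (by linarith only []) hR.s0.le)⟩))) _ m' _ (openSegment_subset_segment _ _ _ m)
    have h4 := h2 σ
    simp only [s1, dif_pos σ.2] at this h4
    refine this.trans (le_trans (mul_le_mul_of_nonneg_right (add_le_add (mul_le_mul_of_nonneg_left
      (ENNReal.toReal_mono (ENNReal.mul_ne_top enorm_ne_top (hu _ _ (ab σ σ.2)).1)
        (s4.trans (v _ _ (ab σ σ.2)))) (by linarith)) h4) (abs_nonneg _)) (u1 (s2 ▸ m')))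
  have i1 : ∫⁻ y, g1 y ^ p ∂ν ≤ ENNReal.ofReal (2 * C0) ^ p * ∫⁻ y, g y ^ p ∂ν + e / 2 := by
    have mA := MeasurableSet.iUnion fun σ : K.cel 1 => ms σ σ.2
    rw [← lintegral_add_compl _ mA, setLIntegral_congr_fun (g := fun _ => 0) mA.compl fun y k => by
      simp only [g1, tsum_congr fun σ : K.cel 1 => indicator_of_notMem
        (fun z => k (mem_iUnion.2 ⟨σ, z⟩)) (w σ), tsum_zero, ENNReal.zero_rpow_of_pos p0],
      lintegral_zero, add_zero, lintegral_iUnion (fun σ : K.cel 1 => ms σ σ.2) dj]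
    refine (ENNReal.tsum_le_tsum fun σ : K.cel 1 => (setLIntegral_congr_fun (ms σ σ.2) fun y k =>
      congrArg (· ^ p) (e1 σ y k)).trans_le (by simpa only [← eσ σ σ.2] using k3 σ)).trans ?_
    rw [ENNReal.tsum_add, ENNReal.tsum_mul_left, ← lintegral_iUnion (fun σ : K.cel 1 => ms σ σ.2) dj]
    exact add_le_add (mul_le_mul_right (setLIntegral_le_lintegral _ _) _) hδ.le
  have i2 : ∫⁻ y in ⋃₀ Ec, (g y + ENNReal.ofReal (ψ y)) ^ p ∂ν ≤
      2 ^ p * ∫⁻ y, g y ^ p ∂ν + e / 2 := by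
    refine (lintegral_mono fun y => (ENNReal.rpow_add_le_mul_rpow_add_rpow _ _ hp).trans
      (mul_le_mul_left (ENNReal.rpow_le_rpow_of_exponent_le one_le_two (sub_le_self p zero_le_one))
        _)).trans ?_
    rw [lintegral_const_mul' _ _ t2, lintegral_add_left (hg.pow_const p), mul_add]
    refine add_le_add (mul_le_mul_right (setLIntegral_le_lintegral _ _) _)
      ((mul_le_mul_right (le_trans (lintegral_mono' ?_ le_rfl) (c4.trans h3)) _).trans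
        ENNReal.mul_div_le)
    rw [← inter_self (⋃₀ Ec), ← Measure.restrict_restrict mU, inter_self]
    exact Measure.restrict_mono Subset.rfl h1
  rw [← lintegral_add_compl _ mU, setLIntegral_congr_fun mU fun y k => by
    rw [piecewise_eq_of_mem _ _ _ k], setLIntegral_congr_fun mU.compl fun y k => by
    rw [piecewise_eq_of_notMem _ _ _ k]]
  refine (add_le_add i2 ((setLIntegral_le_lintegral _ _).trans i1)).trans ?_
  rw [add_add_add_comm, ENNReal.add_halves, ← add_mul]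
  refine add_le_add (mul_le_mul_left ((ENNReal.add_rpow_le_rpow_add _ _ hp).trans
    (ENNReal.rpow_le_rpow ?_ p0.le)) _) le_rfl
  rw [← ENNReal.ofReal_ofNat 2, ← ENNReal.ofReal_add zero_le_two (by linarith only [hC])]
  exact ENNReal.ofReal_le_ofReal (by linarith)

end BEp
end
end

-- merged part: Pool.Agent.Work.MP_f0515e_an.D3.NGeo
section
/-! TASK NGeo. Geometry near the rigid boxes.
Plan. cc_edge: the faces of `Q s 24` lie on coarse planes: in the coordinate `u l = ((x l - c l) / s - (r + 8)) / 16` the box is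
`-(r + 16) / 8 - ... ≤ u l ≤ 1` with integer ends since `8 ∣ r`; a point `y` of `cc x` has the same floor and ceiling, so
`⌊u l x⌋ ≤ u l y ≤ ⌈u l x⌉`, which passes to the closure `segment a b`. Length: some `u l x` is not an integer (else `cc x = {x}`); points of
`cc x` with this coordinate near both ends of the interval give `16 s ≤ |b l - a l|` (replace the coordinate `l` of `x`).
ll_TK_box: by r1_land, `r1 z ∈ Z1` (then `TK z ∈ Za` as in the proof of TK_land, impossible by ATop_Za, cand and ATop_norm) or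
`r1 z ∈ opn a 2`; near such a point `τ = π ∘ rB` (rB_maps, ψ_eq_π, opn a 2 is open and inside cell 1), `π` is `Λ`-Lipschitz; ll_rB, ll_r1,
b1_of_wt, b2_of_wt as in ll_TK; r1_cube gives `q a = q`.
sharp_land: `z ∈ sharp a`, so `r1 z = z`, `rB z = z`, `TK z = π z ∈ cell a 0`, hence `a = i.1.1` (ATop_cell, ATop_same) and `1 < card I`;
norm_π_sub_cb and mem_Q give `π z ∈ Q 4` of the box `(a, b)`. -/

open Set Metric Filter Topology Function BEv MeasureTheory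
open scoped NNReal ENNReal

noncomputable section
namespace BEp

theorem NGeo_len {B : Box 1} {s : ℝ} (hs : 0 < s) {x a b : Rn 3} (hx : x ∈ B.slice)
    (hab : a ≠ b) (e : B.cc s x = openSegment ℝ a b) : 16 * s ≤ ‖b - a‖ := by
  set ξ : Rn 3 → Fin 3 → ℝ := fun y l => ((y l - B.c l) / s - (B.r + 8)) / 16 with hξ
  by_cases h : ∃ l ∈ B.I, ⌊ξ x l⌋ ≠ ⌈ξ x l⌉
  · obtain ⟨l, hl, hne⟩ := h
    have h1 : ⌈ξ x l⌉ = ⌊ξ x l⌋ + 1 := by
      have := Int.floor_le_ceil (ξ x l)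
      have := Int.ceil_le_floor_add_one (ξ x l)
      omega
    have key : ∀ u : ℝ, 0 < u → u < 1 →
        update x l (B.c l + s * (B.r + 8 + 16 * (⌊ξ x l⌋ + u))) ∈ segment ℝ a b := fun u h0 hu => by
      refine openSegment_subset_segment _ _ _ (e ▸ ⟨fun k hk => ?_, fun k hk => ?_⟩)
      · rw [update_of_ne (fun c : k = l => hk (c ▸ hl))]
        exact hx k hk
      · by_cases c : k = l
        · subst c
          have e1 : ((B.c k + s * (B.r + 8 + 16 * (⌊ξ x k⌋ + u)) - B.c k) / s - (B.r + 8)) / 16 =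
              ⌊ξ x k⌋ + u := by
            field_simp
            ring
          rw [update_self, e1]
          refine ⟨Int.floor_eq_iff.2 ⟨by linarith only [h0], by linarith only [hu]⟩, ?_⟩
          rw [show ⌈((x k - B.c k) / s - (B.r + 8)) / 16⌉ = _ from h1, Int.ceil_eq_iff]
          push_cast
          exact ⟨by linarith only [h0], by linarith only [hu]⟩
        · rw [update_of_ne c]
          exact ⟨rfl, rfl⟩
    have key2 : ∀ u : ℝ, 0 < u → u < 1 → 16 * s * (1 - 2 * u) ≤ ‖b - a‖ := fun u h0 hu => by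
      have k1 := key u h0 hu
      have k2 := key (1 - u) (by linarith) (by linarith)
      rw [← seg_image] at k1 k2
      obtain ⟨t, ht, e1⟩ := k1
      obtain ⟨t', ht', e2⟩ := k2
      have e3 := congrFun e1 l
      have e4 := congrFun e2 l
      simp only [seg, update_self, Pi.add_apply, Pi.smul_apply, smul_eq_mul] at e3 e4
      have e5 : |(b - a) l| ≤ ‖b - a‖ := norm_le_pi_norm (b - a) l
      have e6 : (t' - t) * (b - a) l = 16 * s * (1 - 2 * u) := by linarith only [e3, e4]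
      have e7 : |t' - t| ≤ 1 := abs_le.2 ⟨by linarith [ht.2, ht'.1], by linarith [ht.1, ht'.2]⟩
      calc 16 * s * (1 - 2 * u) ≤ |t' - t| * |(b - a) l| := by
            rw [← abs_mul, e6]; exact le_abs_self _
        _ ≤ 1 * ‖b - a‖ := mul_le_mul e7 e5 (abs_nonneg _) zero_le_one
        _ = _ := one_mul _
    by_contra k
    rw [not_le] at k
    have n0 := norm_nonneg (b - a)
    have k3 := key2 ((16 * s - ‖b - a‖) / (64 * s)) (div_pos (by linarith only [k]) (by linarith))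
      ((div_lt_one (by linarith)).2 (by linarith))
    have k4 : 16 * s * (1 - 2 * ((16 * s - ‖b - a‖) / (64 * s))) =
        16 * s - (16 * s - ‖b - a‖) / 2 := by
      field_simp
      ring
    linarith only [k, k3, k4]
  · push Not at h
    have key : ∀ y ∈ B.cc s x, y = x := fun y hy => funext fun l => by
      by_cases hl : l ∈ B.I
      · obtain ⟨e1, e2⟩ := hy.2 l hl
        have k := h l hl
        have k1 : ξ y l = ξ x l := by
          have a1 := Int.floor_le (ξ y l)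
          have a2 := Int.le_ceil (ξ y l)
          have a3 := Int.floor_le (ξ x l)
          have a4 := Int.le_ceil (ξ x l)
          rw [show ⌊ξ y l⌋ = _ from e1] at a1
          rw [show ⌈ξ y l⌉ = _ from e2] at a2
          change (⌊ξ x l⌋ : ℝ) ≤ _ at a1
          change _ ≤ (⌈ξ x l⌉ : ℝ) at a2
          rw [← k] at a2 a4
          linarith only [a4, a1, a3, a2]
        simp only [hξ] at k1
        field_simp at k1
        linarith only [k1]
      · rw [hy.1 l hl, hx l hl]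
    rw [e, ← seg_image_open] at key
    have k1 := key _ ⟨1 / 4, by norm_num, rfl⟩
    have k2 := key _ ⟨3 / 4, by norm_num, rfl⟩
    refine absurd (funext fun l => ?_) hab
    have e3 := congrFun (k1.trans k2.symm) l
    simp only [seg, Pi.add_apply, Pi.smul_apply, Pi.sub_apply, smul_eq_mul] at e3
    linarith only [e3]

theorem NGeo_π {C : Cel 1} (hT : C.toTyp.Ok) (z : V 1) : LL C.π z C.Λ := by
  refine LL.of_forall (fun x y => ?_) z
  rw [Cel.π, Cel.π, add_sub_add_left_eq_sub, ← pr_sub, ← map_sub, sub_sub_sub_cancel_right]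
  exact (norm_pr_le _ _).trans (hT.nS _)

theorem cc_edge {B : Box 1} {s : ℝ} (hs : 0 < s) (hr : 8 ∣ B.r) {x a b : V 1} (hab : a ≠ b)
    (hx : x ∈ B.Q s 24) (h : openSegment ℝ a b = B.cc s x) :
    segment ℝ a b ⊆ B.Q s 24 ∧ 16 * s ≤ ‖b - a‖ := by
  refine ⟨?_, NGeo_len hs hx.1 hab h.symm⟩
  rw [← closure_openSegment, h]
  exact closure_minimal (NGeo0_cc hs hr hx) (NGeo0_closed _ _ _)

variable {ι κ : Type} [Fintype ι] [Fintype κ] {X : Cfg 1 ι κ} {kp : κ → Finset (Ix 1 → ℤ)}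

namespace Cfg

theorem Q_sub (hX : X.Ok) (hk : X.Kp kp) (f : V 1 → V 1) (i : Bx kp) {ρ : ℝ} (hρ : ρ ≤ 56) :
    (X.box f kp i).Q X.s ρ ⊆ (X.C i.1.1).cell 0 := by
  intro x hx
  exact ATop_10 hX _ (ATop_cell hX hk f i hρ (ATop_Q (by linarith [hX.s0]) hx))

theorem ll_TK_box (hX : X.Ok) (hk : X.Kp kp) (f : V 1 → V 1) {K1 K2 : ℕ} (hK : X.K0 ≤ K2) {q : ι}
    {z : V 1} (hz : z ∈ X.Qc q 1) (h1 : X.W z < 2 ^ K1) {i : Bx kp}
    (h : X.TK kp K1 K2 z ∈ (X.box f kp i).Q X.s 24) :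
    LL (X.TK kp K1 K2) z (4 * (X.ty q).Λ ^ 3 * (X.W z).toReal) := by
  have e := Cf0.r1_KL (Cf0.dl_le_b1 h1)
  have hW : X.W z ≠ ⊤ := ne_top_of_lt h1
  obtain ⟨b0, -⟩ := Cf0.b1_of_wt hW
  have l1 := Cf0.ll_r1 hX.toOk K1 b0
  have hU : ∀ a, IsClosed ((X.C a).cell 0) := fun a => Cel.isClosed_cell _ _
  rcases Cf0.r1_land hX.toOk (Cf0.dl_le_b1 h1) hz with hy | ⟨a, ha⟩
  · exfalso
    have hZ : X.TK kp K1 K2 z ∈ X.Za := by
      refine ⟨_, hy, gl_congr fun a => ?_⟩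
      generalize X.r1 (RI Finset.univ K1) z = y at hy
      refine congrArg (X.G a).ψ ?_
      by_cases ha : y ∈ (X.C a).cell 1
      · have h3 : (X.G a).rB (kp a) (RI (X.C a).I K2) y =
            (X.G a).rB (kp a) (RI (X.C a).I X.K0) y :=
          Gr.rB_congr _ _ (RI_nested hK (hX.hK a y hy ha))
        rw [h3]
        refine (Gr.rB_far (hX.gok a) _ fun b hb => ?_).symm
        have h4 : (X.C a).π y ∈ X.Y := ⟨y, hy, by
          rw [AG4_gl hX (fun a z k => Cel.ψ_off (hX.h0 a) k) (AG4_cell hX zero_le_one ha)]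
          exact Cel.ψ_eq_π (hX.toOk.cty a) (hX.h0 a) ha⟩
        have h5 := (hk a b hb).2.2.2 _ h4
        have h6 : ‖(X.C a).π y - (X.G a).cb b‖ =
            16 * X.s * ‖pr (X.G a).I ((X.G a).ξ y - (X.G a).ctr b)‖ :=
          Gr.norm_π_sub_cb (hX.gok a) y b
        have h7 : 64 * ((X.G a).M : ℝ) * X.s ≤ X.ρ := hX.sρ a
        have h8 : (0 : ℝ) ≤ (X.G a).M := Nat.cast_nonneg _
        have h9 := hX.s0
        rw [h6] at h5
        by_contra k
        rw [not_le] at k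
        linarith only [h5, h7, h9, k, mul_nonneg_of_nonpos_of_nonpos (Mathlib.Tactic.Linarith.sub_nonpos_of_le (Mathlib.Tactic.Linarith.natCast_nonneg ℝ (X.G a).M)) (le_of_lt (Mathlib.Tactic.Linarith.sub_neg_of_lt h9)), mul_pos_of_neg_of_neg (Mathlib.Tactic.Linarith.sub_neg_of_lt h9) (Mathlib.Tactic.Linarith.sub_neg_of_lt k)]
      · rw [Gr.rB_off _ _ (hX.gok a) ha, Gr.rB_off _ _ (hX.gok a) ha]
    obtain ⟨y', k1, k2⟩ := ATop_Za hX hZ
    have k3 := (hk _ _ i.2).2.2.2 y' k1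
    have k4 := ATop_norm hX f i (ρ := 24) (by norm_num) (ATop_Q (by linarith [hX.s0]) h)
    have k5 := norm_sub_le_norm_sub_add_norm_sub y' (X.TK kp K1 K2 z) ((X.G i.1.1).cb i.1.2)
    rw [norm_sub_rev y' (X.TK kp K1 K2 z)] at k5
    have k6 := hX.sρ i.1.1
    have k7 := ATop_Ms hX i.1.1
    have k8 := hX.s0
    linarith only [k2, k3, k4, k5, k6, k7, k8]
  · have ha0 := AG4_cell hX zero_le_two (Cel.opn_subset _ _ ha)
    obtain ⟨c0, c1⟩ := Cf0.b2_of_wt hW (e ▸ ha0)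
    rw [← e] at c0 c1
    obtain rfl := Cf0.r1_cube hX.toOk _ hz ha0
    have hG := hX.gok a
    have hΛ : 0 ≤ (X.G a).Λ := zero_le_one.trans hG.Λ1
    have c2 : 0 ≤ 2 / (X.G a).b2 (X.r1 (RI Finset.univ K1) z) := div_nonneg zero_le_two c0.le
    have ev : (X.G a).τ (kp a) (RI (X.C a).I K2) =ᶠ[𝓝 (X.r1 (RI Finset.univ K1) z)]
        fun y => (X.G a).π ((X.G a).rB (kp a) (RI (X.C a).I K2) y) := by
      filter_upwards [(Cel.isOpen_opn (X.C a) 2).mem_nhds ha] with y hy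
      exact Cel.ψ_eq_π hG.toOk hG.h0 (Gr.rB_maps _ _ hG
        (Cel.cell_mono hG.toOk hG.h0 one_le_two (Cel.opn_subset _ _ hy)))
    have l2 := ((NGeo_π (C := (X.G a).toCel) hG.toOk _).comp (Gr.ll_rB hG (kp a) K2 c0) hΛ).congr ev
    refine ((l2.congr (gl_ev hU hX.disj (AG4_τ hX kp fun a => RI (X.C a).I K2) ha0)).comp l1
      (by positivity)).mono ?_
    calc (X.G a).Λ * ((X.G a).Λ ^ 2 * (2 / (X.G a).b2 (X.r1 (RI Finset.univ K1) z))) *
          (2 / X.b1 z) = 4 * (X.G a).Λ ^ 3 *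
          (1 / X.b1 z * (1 / (X.G a).b2 (X.r1 (RI Finset.univ K1) z))) := by ring
      _ ≤ _ := mul_le_mul_of_nonneg_left c1 (by positivity)

theorem sharp_land (hX : X.Ok) (hk : X.Kp kp) (f : V 1 → V 1) (K1 K2 : ℕ) {z : V 1}
    (hz : z ∈ X.sharp kp) {i : Bx kp} (h : X.TK kp K1 K2 z ∈ (X.box f kp i).Q X.s 24) :
    ∃ j : Bx kp, X.TK kp K1 K2 z ∈ (X.box f kp j).Q X.s 4 := by
  obtain ⟨a, ha⟩ := mem_iUnion.1 hz
  have hG := hX.gok a
  have h3 : z ∈ (X.C a).cell 3 := Cel.opn_subset _ _ ha.1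
  have h0 : z ∈ (X.C a).cell 0 := AG4_cell hX (by norm_num) h3
  have e1 := Cf0.r1_eq_self hX.toOk (RI Finset.univ K1) h3
  have e2 : X.TK kp K1 K2 z = (X.G a).τ (kp a) (RI (X.C a).I K2) z := by
    rw [TK, AG4_in hX kp _ _ (e1.symm ▸ h0), e1]
  have e3 : X.TK kp K1 K2 z = (X.G a).π z := by
    have k : (X.G a).rB (kp a) (RI (X.C a).I K2) z = z := Gr.rB_sharp hG K2 ha
    rw [e2, Gr.τ, k]
    exact Cel.ψ_eq_π hG.toOk hG.h0 (Cel.cell_mono hG.toOk hG.h0 (by norm_num) h3)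
  have e4 : a = i.1.1 := ATop_same hX (e2 ▸ Gr.τ_maps _ _ hG h0) (Q_sub hX hk f i (by norm_num) h)
  have hc : 1 < (X.C a).I.card := e4 ▸ (hk _ _ i.2).2.1
  rcases ha.2 with k | ⟨b, hb, k⟩
  · exact absurd hc (not_lt.2 k)
  · refine ⟨⟨(a, b), hb⟩, ?_⟩
    rw [e3]
    refine (Gr.mem_Q f hG (by norm_num)).2 ⟨fun l hl => Cel.π_off _ _ hl, ?_⟩
    rw [Gr.norm_π_sub_cb hG]
    linarith only [hb, k, hG, mul_le_mul_of_nonneg_left k.le hG.s0.le, hG.s0]

end Cfg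

end BEp
end
end

-- merged part: Pool.Agent.Work.MP_f0515e_an.D3.NTan
section
/-! TASK NTan. Derivatives along an edge.
Plan. TL.add: the two functions differ by `t • (A - A') w`. tl_of_lin: `y + t • (b - a)` is in the segment for small `t`.
ae_tan: take `l` with `|b l - a l| = ‖b - a‖` (Pi.exists_apply_eq_nnnorm or pi_norm), `la x = (x l - a l) / (b l - a l)`,
`pj x = seg a b (la x)`, `g x = G (pj x) + A (x - pj x)`; `g` is Lipschitz, equals `G` on the line, and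
`g x - A x = G (y + t • w) - t • A w - A y` with `t = la x - la y`, `|t - t'| ‖w‖ ≤ ‖x - x'‖`, so `LL (g - A) y c`; ae_bound (Pos/AAe).
ae_zero: a.e. `T` is differentiable; `G` Lipschitz gives derivative zero of the composition (isLittleO); ae_fderiv_eq for `A ∘ T`, `A ∘ R`.
acm_tp, ae_fin: ae_loc_const and fderiv_of_not_mov (D3/LEdge) with `G = id`; a point `v` is `seg v v '' {0}`. -/

open Set Metric Filter Topology Function BEv MeasureTheory
open scoped NNReal ENNReal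

noncomputable section
namespace BEp

variable {G G' T R : Rn 3 → Rn 3} {A : Rn 3 →L[ℝ] Rn 3} {w y a b : Rn 3} {c c' : ℝ}

theorem NTan_sm (A : Rn 3 →L[ℝ] Rn 3) (w : Rn 3) : LL (fun t : ℝ => t • A w) 0 (‖A‖ * ‖w‖) :=
  LL.of_forall (fun s t => by
    rw [← sub_smul, norm_smul, mul_comm]
    exact mul_le_mul_of_nonneg_right (A.le_opNorm w) (norm_nonneg _)) 0

theorem TL.mono (h : TL G A w y c) (hc : c ≤ c') : TL G A w y c' := by
  exact LL.mono h (mul_le_mul_of_nonneg_right hc (norm_nonneg _))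

theorem TL.add (h : TL G A w y c) (A' : Rn 3 →L[ℝ] Rn 3) : TL G A' w y (‖A - A'‖ + c) := by
  unfold TL
  rw [add_mul]
  refine ((NTan_sm (A - A') w).add h).congr (Eventually.of_forall fun t => ?_)
  simp only [sub_apply, smul_sub]
  abel

theorem TL.congr (h : TL G A w y c) (e : G' =ᶠ[𝓝 y] G) : TL G' A w y c := by
  have h1 : Tendsto (fun t : ℝ => y + t • w) (𝓝 0) (𝓝 y) :=
    (by fun_prop : Continuous fun t : ℝ => y + t • w).tendsto' 0 y (by simp)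
  exact LL.congr h ((h1.eventually e).mono fun t ht => by simp only [ht])

theorem tl_of_lin (hy : y ∈ openSegment ℝ a b) {L : ℝ}
    (h : ∀ x ∈ segment ℝ a b, ∀ x' ∈ segment ℝ a b, ‖G x - G x'‖ ≤ L * ‖x - x'‖)
    (A : Rn 3 →L[ℝ] Rn 3) : TL G A (b - a) y (L + ‖A‖) := by
  rw [openSegment_eq_image'] at hy
  obtain ⟨s, hs, rfl⟩ := hy
  have hm : ∀ t ∈ Ioo (-s) (1 - s), a + s • (b - a) + t • (b - a) ∈ segment ℝ a b := fun t ht => by
    rw [segment_eq_image']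
    exact ⟨s + t, ⟨by linarith [ht.1], by linarith [ht.2]⟩, by simp only [add_smul, add_assoc]⟩
  unfold TL
  rw [add_mul]
  refine LL.sub (LL.of_nhds (Ioo_mem_nhds (by linarith [hs.1]) (by linarith [hs.2]))
    fun t ht t' ht' => (h _ (hm t ht) _ (hm t' ht')).trans_eq ?_) (NTan_sm A _)
  rw [add_sub_add_left_eq_sub, ← sub_smul, norm_smul, mul_assoc, mul_comm ‖b - a‖]

theorem ae_tan (hG : ∃ L : ℝ≥0, LipschitzWith L G) (hT : ∃ L : ℝ≥0, LipschitzWith L T)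
    (hR : ∃ L : ℝ≥0, LipschitzWith L R) (A : Rn 3 →L[ℝ] Rn 3) (hab : a ≠ b) :
    ∀ᵐ z, (∃ t, T z = seg a b t) → A (T z) = A (R z) → ∀ c w : ℝ, 0 ≤ c → 0 ≤ w →
      TL G A (b - a) (T z) c → LL T z w →
      ‖fderiv ℝ (fun x => G (T x)) z - A.comp (fderiv ℝ R z)‖ ≤ c * w := by
  obtain ⟨l, hl⟩ := (Finite.exists_max fun j => ‖(b - a) j‖ : ∃ j : Fin 3, _)
  have h1 : ‖b - a‖ ≤ ‖(b - a) l‖ := (pi_norm_le_iff_of_nonempty _).2 hl
  have h0 : 0 < ‖b - a‖ := norm_pos_iff.2 (sub_ne_zero.2 hab.symm)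
  have h2 : (b - a) l ≠ 0 := norm_pos_iff.1 (h0.trans_le h1)
  obtain ⟨la, hla⟩ : ∃ la : Rn 3 → ℝ, la = fun x => (x l - a l) / (b - a) l := ⟨_, rfl⟩
  have tp : TP fun x => seg a b (la x) := hla ▸ (TP.const a).add
    ((((TP.id'.apply l).sub (TP.const _)).div_const _).smul_const _)
  obtain ⟨_, hp⟩ := tp.lip
  obtain ⟨_, hG'⟩ := hG
  filter_upwards [ae_bound (m := 1) (g := fun x => G (seg a b (la x)) + A (x - seg a b (la x)))
    ⟨_, hG'⟩ ⟨_, (hG'.comp hp).add (A.lipschitz.comp (LipschitzWith.id.sub hp))⟩ hT hR A]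
    with z hz ⟨t, ht⟩ hA c w hc hw tl ll
  have e1 : la (T z) = t := by
    simp only [hla, ht, seg, Pi.add_apply, Pi.smul_apply, smul_eq_mul, add_sub_cancel_left,
      mul_div_cancel_right₀ _ h2]
  refine hz (by rw [e1, ← ht, sub_self, map_zero, add_zero]) hA c w hc hw ?_ ll
  have l1 : LL (fun x => la x - t) (T z) ‖b - a‖⁻¹ := LL.of_forall (fun x x' => by
    rw [sub_sub_sub_cancel_right, hla, ← sub_div, sub_sub_sub_cancel_right, norm_div,
      inv_mul_eq_div]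
    exact div_le_div₀ (norm_nonneg _) (norm_le_pi_norm (x - x') l) h0 h1) _
  have l2 := LL.comp (f := fun x => la x - t) (by rw [e1, sub_self]; exact tl) l1
    (mul_nonneg hc h0.le)
  rw [mul_inv_cancel_right₀ h0.ne'] at l2
  have l3 := l2.sub (LL.const (A (T z)) _)
  rw [add_zero] at l3
  refine l3.congr (Eventually.of_forall fun x => ?_)
  have e2 : seg a b (la x) = T z + (la x - t) • (b - a) := by
    rw [ht, seg, seg, add_assoc, ← add_smul, add_sub_cancel]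
  simp only [e2, map_sub A x, map_add, map_smul]
  abel

theorem ae_zero (hG : ∃ L : ℝ≥0, LipschitzWith L G) (hT : ∃ L : ℝ≥0, LipschitzWith L T)
    (hR : ∃ L : ℝ≥0, LipschitzWith L R) (A : Rn 3 →L[ℝ] Rn 3) :
    ∀ᵐ z, fderiv ℝ T z = 0 → A (T z) = A (R z) →
      fderiv ℝ (fun x => G (T x)) z = A.comp (fderiv ℝ R z) := by
  obtain ⟨L, hG⟩ := hG
  obtain ⟨_, hT⟩ := hT
  obtain ⟨_, hR⟩ := hR
  filter_upwards [ae_fderiv_eq (A.lipschitz.comp hT) (A.lipschitz.comp hR), hT.ae_differentiableAt,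
    hR.ae_differentiableAt] with z e d1 d2 h0 hA
  have k1 := d1.hasFDerivAt
  rw [h0] at k1
  rw [← (A.hasFDerivAt.comp z d2.hasFDerivAt).fderiv, ← e hA, (A.hasFDerivAt.comp z k1).fderiv,
    ContinuousLinearMap.comp_zero]
  refine HasFDerivAt.fderiv (hasFDerivAt_iff_isLittleO.2 (Asymptotics.IsBigO.trans_isLittleO
    (.of_bound L (Eventually.of_forall fun x => ?_)) (hasFDerivAt_iff_isLittleO.1 k1)))
  simpa only [zero_apply, sub_zero] using hG.norm_sub_le _ _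

theorem acm_tp (hT : TP T) (a b : Rn 3) {N : Set ℝ} (hN : volume N = 0) :
    ∀ᵐ z, T z ∈ seg a b '' N → fderiv ℝ T z = 0 := by
  exact (ae_loc_const hT a b hN).mono fun z hz h => fderiv_of_not_mov (hz h) id

theorem ae_fin (hT : TP T) {N : Set (Rn 3)} (hN : N.Finite) :
    ∀ᵐ z, T z ∈ N → fderiv ℝ T z = 0 := by
  filter_upwards [(ae_ball_iff hN.countable).2 fun v _ =>
    acm_tp hT v v (Real.volume_singleton (a := 0))] with z hz h
  exact hz _ h ⟨0, rfl, by simp [seg]⟩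

end BEp
end
end

-- merged part: Pool.Agent.Work.MP_f0515e_an.D3.NSa
section
/-! TASK NSa. Small energy on the fine skeleton gives closeness, uniformly and in variation.
Plan. NSa_sq: one term of esk, line_int, line_pt and young with `d = δ / (32 M)`: the bound is
`16 M s (d + d ^ (1 - p) k0 s / (16 M s))`, take `k0 = δ / 2 * d ^ (p - 1)`. `G.sq b J v y` is `(cb b + s v) + emb J y` by definition.
NSa_seg: if `x = y` use mem_sq. Otherwise the segment lies in the finite union of the big segments (mem_sq), so one of them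
contains two distinct points of it (an infinite set in a finite union); hence `y - x` is parallel to the direction `l` of `J = {l}`, all
other coordinates of `x` and `y` are those of the line, and `Q 56` bounds the coordinate `l` by `8 M s` (Gr.mem_Q).
skel3: as skel_close (Pos/ASa) with ASa_walk, `δ = σ ^ 2 / (10 ^ 12 (1 + Λ)) / 4`, ACs.sub_le in both orders of the parameters,
ACs.vr_le; `Box.aff x = A (x - c) + b`. -/

open Set Metric Filter Topology Function BEv MeasureTheory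
open scoped NNReal ENNReal

noncomputable section
namespace BEp

theorem NSa_sq {p : ℝ} (hp : 1 ≤ p) {M : ℕ} (hM : 0 < M) {δ : ℝ} (hδ : 0 < δ) :
    ∃ k0 : ℝ, 0 < k0 ∧ ∀ G : Gr 1, G.M = M → 0 < G.s → ∀ D : V 1 → V 1 →L[ℝ] V 1, Measurable D →
      ∀ b : Ix 1 → ℤ, G.esk (fun y => ‖D y - G.A‖ₑ ^ p) b ≤ ENNReal.ofReal (k0 * G.s ^ 1) →
      ∀ J ∈ Finset.powersetCard 1 G.I, ∀ v ∈ G.pos J,
        ‖(G.sq b J v fun _ => 8 * G.M * G.s) - G.sq b J v fun _ => -(8 * G.M * G.s)‖ₑ *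
          ∫⁻ t in Icc (0 : ℝ) 1, ‖D (seg (G.sq b J v fun _ => -(8 * G.M * G.s))
            (G.sq b J v fun _ => 8 * G.M * G.s) t) - G.A‖ₑ ≤ ENNReal.ofReal (δ * G.s) := by
  have hM' : (0 : ℝ) < M := by exact_mod_cast hM
  have hd : 0 < δ / (32 * M) := by positivity
  refine ⟨δ / 2 * (δ / (32 * M)) ^ (p - 1), by positivity, fun G e hs D hD b hE J hJ v hv => ?_⟩
  have hS : 0 < 8 * (G.M : ℝ) * G.s := by
    rw [e]
    positivity
  have hcd := (Finset.mem_powersetCard.1 hJ).2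
  have hm : Measurable fun y => ‖D y - G.A‖ₑ := (hD.sub_const _).enorm
  have h1 := line_int hcd (G.cb b + G.s • fun l => (v l : ℝ)) hS (hm.pow_const p)
  have h2 := (line_pt hcd (G.cb b + G.s • fun l => (v l : ℝ)) hS).1
  have h3 : ∫⁻ y in closedBall (0 : J → ℝ) (8 * G.M * G.s), ‖D (G.sq b J v y) - G.A‖ₑ ^ p ≤
      ENNReal.ofReal (δ / 2 * (δ / (32 * M)) ^ (p - 1) * G.s ^ 1) := by
    refine le_trans ?_ hE
    exact le_trans (Finset.single_le_sum
      (f := fun v => ∫⁻ y in closedBall (0 : J → ℝ) (8 * G.M * G.s),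
        ‖D (G.sq b J v y) - G.A‖ₑ ^ p) (fun _ _ => zero_le) hv)
      (Finset.single_le_sum (f := fun J => ∑ v ∈ G.pos J,
        ∫⁻ y in closedBall (0 : J → ℝ) (8 * G.M * G.s), ‖D (G.sq b J v y) - G.A‖ₑ ^ p)
        (fun _ _ => zero_le) hJ)
  have hc : Measurable (seg (G.sq b J v fun _ => -(8 * G.M * G.s))
      (G.sq b J v fun _ => 8 * G.M * G.s)) :=
    (continuous_const.add (continuous_id.smul continuous_const)).measurable
  have h4 := young hp hd (hm.comp hc)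
  have h5 : ‖(G.sq b J v fun _ => 8 * G.M * G.s) - G.sq b J v fun _ => -(8 * G.M * G.s)‖ₑ =
      ENNReal.ofReal (2 * (8 * G.M * G.s)) := by
    rw [← ofReal_norm]
    exact congrArg _ h2
  have h6 : ENNReal.ofReal (2 * (8 * G.M * G.s)) * ∫⁻ t in Icc (0 : ℝ) 1,
      ‖D (seg (G.sq b J v fun _ => -(8 * G.M * G.s)) (G.sq b J v fun _ => 8 * G.M * G.s) t) -
        G.A‖ₑ ^ p ≤ ENNReal.ofReal (δ / 2 * (δ / (32 * M)) ^ (p - 1) * G.s ^ 1) :=
    le_trans (le_of_eq h1.symm) h3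
  have h7 : 2 * (8 * G.M * G.s) * (δ / (32 * M)) + (δ / (32 * M)) ^ (1 - p) *
      (δ / 2 * (δ / (32 * M)) ^ (p - 1) * G.s ^ 1) = δ * G.s := by
    have h8 : (δ / (32 * M)) ^ (1 - p) * (δ / (32 * M)) ^ (p - 1) = 1 := by
      rw [← Real.rpow_add hd]
      simp
    have h9 : (δ / (32 * M)) ^ (1 - p) * (δ / 2 * (δ / (32 * M)) ^ (p - 1) * G.s ^ 1) =
        δ / 2 * G.s * ((δ / (32 * M)) ^ (1 - p) * (δ / (32 * M)) ^ (p - 1)) := by ring
    rw [h9, h8, e]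
    field_simp
    ring
  rw [h5]
  refine (mul_le_mul' le_rfl h4).trans ?_
  rw [mul_add, mul_left_comm _ (ENNReal.ofReal ((δ / (32 * M)) ^ (1 - p)))]
  refine (add_le_add le_rfl (mul_le_mul' le_rfl h6)).trans ?_
  rw [← ENNReal.ofReal_mul (by positivity), ← ENNReal.ofReal_mul (by positivity),
    ← ENNReal.ofReal_add (by positivity) (by positivity), h7]

theorem NSa_mem {a c : V 1} {t : ℝ} (ht : t ∈ Icc (0 : ℝ) 1) : seg a c t ∈ segment ℝ a c := by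
  rw [segment_eq_image']
  exact ⟨t, ht, rfl⟩

theorem NSa_on {G : Gr 1} (hG : G.Ok) (f : V 1 → V 1) (b : Ix 1 → ℤ) {J : Finset (Ix 1)}
    (hJ : J.card = 1) {v : Ix 1 → ℤ} (hv : v ∈ G.pos J) {z : V 1}
    (hz : z ∈ (G.box f b).Q G.s 56)
    (h : ∀ l, l ∉ J → z l = (G.cb b + G.s • fun l => (v l : ℝ)) l) :
    z ∈ segment ℝ (G.sq b J v fun _ => -(8 * G.M * G.s)) (G.sq b J v fun _ => 8 * G.M * G.s) := by
  have hs := hG.s0
  have hM := Gr.ASl0_M hG
  have hS : 0 < 8 * (G.M : ℝ) * G.s := by positivity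
  have h2 := ((Gr.mem_Q f hG (by norm_num)).1 hz).2
  have h0 : ∀ l ∈ J, v l = 0 := fun l hl => by
    simpa [hl] using Fintype.mem_piFinset.1 hv l
  obtain ⟨t, ht, e⟩ := (line_pt hJ (G.cb b + G.s • fun l => (v l : ℝ)) hS).2
    (fun l => z l - G.cb b l) (by
      rw [mem_closedBall_zero_iff, pi_norm_le_iff_of_nonneg hS.le]
      intro l
      exact ((norm_le_pi_norm (z - G.cb b) l).trans h2).trans_eq (by ring))
  have h3 : z = (G.cb b + G.s • fun l => (v l : ℝ)) + emb J fun l => z l - G.cb b l :=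
    funext fun l => by
      rw [Pi.add_apply, Gr.ASl0_emb]
      by_cases hl : l ∈ J
      · simp [hl, h0 l hl]
      · rw [dif_neg hl, add_zero, h l hl]
  rw [h3, e]
  exact NSa_mem ht

theorem NSa_seg {G : Gr 1} (hG : G.Ok) (hI : 1 ≤ G.I.card) (f : V 1 → V 1) (b : Ix 1 → ℤ)
    {x y : V 1} (h : segment ℝ x y ⊆ (G.box f b).fine G.s ∩ (G.box f b).Q G.s 56) :
    ∃ J ∈ Finset.powersetCard 1 G.I, ∃ v ∈ G.pos J,
      x ∈ segment ℝ (G.sq b J v fun _ => -(8 * G.M * G.s)) (G.sq b J v fun _ => 8 * G.M * G.s) ∧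
      y ∈ segment ℝ (G.sq b J v fun _ => -(8 * G.M * G.s)) (G.sq b J v fun _ => 8 * G.M * G.s) := by
  classical
  have h1 : ∀ t : ℝ, ∃ q : Finset (Ix 1) × (Ix 1 → ℤ), t ∈ Icc (0 : ℝ) 1 →
      q.1 ∈ Finset.powersetCard 1 G.I ∧ q.2 ∈ G.pos q.1 ∧
        ∀ l, l ∉ q.1 → seg x y t l = (G.cb b + G.s • fun l => (q.2 l : ℝ)) l := fun t => by
    by_cases ht : t ∈ Icc (0 : ℝ) 1
    · obtain ⟨J, hJ, v, hv, w, -, e⟩ := Gr.mem_sq f hG hI (h (NSa_mem ht))
      refine ⟨(J, v), fun _ => ⟨hJ, hv, fun l hl => ?_⟩⟩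
      rw [e, Gr.sq, Pi.add_apply, Gr.ASl0_emb, dif_neg hl, add_zero]
    · exact ⟨(∅, 0), fun k => absurd k ht⟩
  choose q hq using h1
  obtain ⟨t, ht, t', ht', hne, e⟩ := (Set.Icc_infinite (zero_lt_one' ℝ)).exists_ne_map_eq_of_mapsTo
    (f := q) (t := ((Finset.powersetCard 1 G.I ×ˢ (Finset.powersetCard 1 G.I).biUnion G.pos :
      Finset _) : Set _))
    (fun t ht => Finset.mem_coe.2 (Finset.mem_product.2 ⟨(hq t ht).1,
      Finset.mem_biUnion.2 ⟨_, (hq t ht).1, (hq t ht).2.1⟩⟩)) (Finset.finite_toSet _)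
  obtain ⟨k1, k2, k3⟩ := hq t ht
  have k4 := (hq t' ht').2.2
  rw [← e] at k4
  have k5 : ∀ l, l ∉ (q t).1 → y l = x l := fun l hl => by
    have k6 := (k3 l hl).trans (k4 l hl).symm
    simp only [seg, Pi.add_apply, Pi.smul_apply, Pi.sub_apply, smul_eq_mul] at k6
    have k7 : (t - t') * (y l - x l) = 0 := by linarith only [k6]
    exact sub_eq_zero.1 ((mul_eq_zero.1 k7).resolve_left (sub_ne_zero.2 hne))
  have k6 : ∀ l, l ∉ (q t).1 → x l = (G.cb b + G.s • fun l => ((q t).2 l : ℝ)) l := fun l hl => by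
    rw [← k3 l hl]
    simp [seg, k5 l hl]
  have hc := (Finset.mem_powersetCard.1 k1).2
  exact ⟨_, k1, _, k2, NSa_on hG f b hc k2 (h (left_mem_segment ℝ x y)).2 k6,
    NSa_on hG f b hc k2 (h (right_mem_segment ℝ x y)).2 fun l hl => (k5 l hl).trans (k6 l hl)⟩

theorem NSa_two {f : V 1 → V 1} {D : V 1 → V 1 →L[ℝ] V 1} {a c : V 1} (h : ACs f D a c)
    (A : V 1 →L[ℝ] V 1) {r : ℝ} (hr : 0 ≤ r)
    (H : ‖c - a‖ₑ * ∫⁻ t in Icc (0 : ℝ) 1, ‖D (seg a c t) - A‖ₑ ≤ ENNReal.ofReal r) {t t' : ℝ}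
    (ht : t ∈ Icc (0 : ℝ) 1) (ht' : t' ∈ Icc (0 : ℝ) 1) :
    ‖(f (seg a c t) - A (seg a c t)) - (f (seg a c t') - A (seg a c t'))‖ ≤ r := by
  wlog k : t' ≤ t generalizing t t'
  · rw [norm_sub_rev]
    exact this ht' ht (le_of_not_ge k)
  have h1 := (h.sub_le A ht'.1 k ht.2).trans ((mul_le_mul' le_rfl
    (lintegral_mono_set (Icc_subset_Icc ht'.1 ht.2))).trans H)
  rw [← ofReal_norm, ENNReal.ofReal_le_ofReal_iff hr, map_sub] at h1
  refine le_trans (le_of_eq (congrArg _ ?_)) h1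
  abel

theorem skel3 {p : ℝ} (hp : 1 ≤ p) {T : Typ 1} (hT : T.Ok) :
    ∃ k0 : ℝ, 0 < k0 ∧ ∀ G : Gr 1, G.toTyp = T → G.Ok → 1 ≤ G.I.card → ∀ (f : V 1 → V 1)
      (D : V 1 → V 1 →L[ℝ] V 1), Measurable D → ∀ b : Ix 1 → ℤ, G.LA f D b →
      G.esk (fun y => ‖D y - G.A‖ₑ ^ p) b ≤ ENNReal.ofReal (k0 * G.s ^ 1) → G.Fine f b := by
  have hσ := hT.σ0
  have hΛ : 0 < 1 + T.Λ := by linarith [hT.Λ1]
  have hδ : 0 < T.σ ^ 2 / (10 ^ 12 * (1 + T.Λ)) / 4 := by positivity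
  obtain ⟨k0, k1, hk⟩ := NSa_sq hp (M := T.M) (by have := hT.M9; omega) hδ
  refine ⟨k0, k1, fun G e hG hI f D hD b hL hE => ?_⟩
  subst e
  have hs := hG.s0
  have hM := Gr.ASl0_M hG
  have hS : 0 < 8 * (G.M : ℝ) * G.s := by positivity
  have H0 := hk G rfl hs D hD b hE
  have hr : 0 ≤ G.σ ^ 2 / (10 ^ 12 * (1 + G.Λ)) / 4 * G.s := (mul_pos hδ hs).le
  have h5 : G.ε' = (3 + 1) * (G.σ ^ 2 / (10 ^ 12 * (1 + G.Λ)) / 4 * G.s) := by
    rw [Gr.ε']
    ring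
  have H : ∀ J ∈ Finset.powersetCard 1 G.I, ∀ v ∈ G.pos J,
      ∀ y ∈ closedBall (0 : J → ℝ) (8 * G.M * G.s),
        ‖(f (G.sq b J v y) - G.A (G.sq b J v y)) - (f (G.sq b J v 0) - G.A (G.sq b J v 0))‖ ≤
          G.σ ^ 2 / (10 ^ 12 * (1 + G.Λ)) / 4 * G.s := fun J hJ v hv y hy => by
    have k := (line_pt (Finset.mem_powersetCard.1 hJ).2
      (G.cb b + G.s • fun l => (v l : ℝ)) hS).2
    obtain ⟨t, ht, e⟩ := k y hy
    obtain ⟨t', ht', e'⟩ := k 0 (mem_closedBall_self hS.le)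
    have k2 := NSa_two (hL J hJ v hv) G.A hr (H0 J hJ v hv) ht ht'
    have e1 : G.sq b J v y = seg (G.sq b J v fun _ => -(8 * G.M * G.s))
      (G.sq b J v fun _ => 8 * G.M * G.s) t := e
    have e2 : G.sq b J v 0 = seg (G.sq b J v fun _ => -(8 * G.M * G.s))
      (G.sq b J v fun _ => 8 * G.M * G.s) t' := e'
    rw [e1, e2]
    exact k2
  refine ⟨fun x hx => ?_, fun x y hxy => ?_⟩
  · obtain ⟨J, hJ, v, hv, y, hy, rfl⟩ := Gr.mem_sq f hG hI hx
    have h0 := Fintype.mem_piFinset.1 hv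
    have h1 := H J hJ v hv y hy
    have h2 := ASa_walk le_rfl hs hI (g := fun x => f x - G.A x) H G.I subset_rfl v
      (fun l => by
        have h3 := h0 l
        split_ifs at h3
        · exact h3
        · simp [Finset.mem_singleton.1 h3])
      (fun l hl => by simpa [hl] using h0 l)
    have h3 : (G.I.card : ℝ) ≤ 3 := by
      exact_mod_cast (Finset.card_le_univ G.I).trans_eq (Fintype.card_fin _)
    have h4 : f (G.sq b J v y) - (G.box f b).aff (G.sq b J v y) =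
        (f (G.sq b J v y) - G.A (G.sq b J v y)) - (f (G.cb b) - G.A (G.cb b)) := by
      simp only [Box.aff, Gr.box, map_sub]
      abel
    rw [ASa_zero] at h1
    rw [h4, h5, add_mul _ 1, one_mul]
    exact (norm_sub_le_norm_sub_add_norm_sub _ _ _).trans ((add_le_add h1
      (h2.trans (mul_le_mul_of_nonneg_right h3 hr))).trans_eq (add_comm _ _))
  · obtain ⟨J, hJ, v, hv, hx, hy⟩ := NSa_seg hG hI f b hxy
    refine ((hL J hJ v hv).vr_le G.A (G.cb b) (f (G.cb b)) hx hy).trans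
      ((H0 J hJ v hv).trans (ENNReal.ofReal_le_ofReal ?_))
    rw [h5]
    linarith only [hr]

end BEp
end
end

-- merged part: Pool.Agent.Work.MP_f0515e_an.D3.NSc
section
/-! TASK NSc. The image of the skeleton of one fine cube comes close to few good centres.
Plan. NSc_sq: line_pt gives parameters, ACs.pack with `r = S`, `‖D‖ ≤ Λ + ‖D - A‖`, young with `d = 1` and line_int:
`card * S ≤ S + 2 S (Λ + 1) + E`, `E` the integral over the ball; multiply by `s / S ≤ 1`.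
hit_count3: copy of hit_count (Pos/ASc) for `m = 1` with NSc_sq in place of ASc_sq (`S = 8 M s`); ASc_far is reused. -/

open Set Metric Filter Topology Function BEv MeasureTheory
open scoped NNReal ENNReal

noncomputable section
namespace BEp

theorem NSc_sq {p : ℝ} (hp : 1 ≤ p) {J : Finset (Ix 1)} (hJ : J.card = 1) {f : V 1 → V 1}
    {D : V 1 → V 1 →L[ℝ] V 1} (hD : Measurable D) {o : V 1} {A : V 1 →L[ℝ] V 1} {Λ S s : ℝ}
    (hA : ‖A‖ ≤ Λ) (hs : 0 < s) (hS : s ≤ S)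
    (hf : ACs f D (o + emb J fun _ => -S) (o + emb J fun _ => S)) (H : Finset (Ix 1 → ℤ))
    (y : (Ix 1 → ℤ) → J → ℝ) (h1 : ∀ b ∈ H, y b ∈ closedBall 0 S)
    (h2 : ∀ b ∈ H, ∀ b' ∈ H, b ≠ b' → S ≤ ‖f (o + emb J (y b)) - f (o + emb J (y b'))‖) :
    (H.card : ℝ≥0∞) * ENNReal.ofReal s ≤ ENNReal.ofReal (2 * Λ + 3) * ENNReal.ofReal s +
      ∫⁻ z in closedBall (0 : J → ℝ) S, ‖D (o + emb J z) - A‖ₑ ^ p := by
  classical
  have S0 : 0 < S := hs.trans_le hS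
  have Λ0 : 0 ≤ Λ := (norm_nonneg _).trans hA
  obtain ⟨hn, hpt⟩ := line_pt hJ o S0
  obtain ⟨a, ha⟩ : ∃ a : V 1, a = o + emb J fun _ => -S := ⟨_, rfl⟩
  obtain ⟨c, hc⟩ : ∃ c : V 1, c = o + emb J fun _ => S := ⟨_, rfl⟩
  have mΦ : Measurable fun x : V 1 => ‖D x - A‖ₑ := (hD.sub measurable_const).enorm
  have li := line_int hJ o S0 (mΦ.pow_const p)
  rw [← ha, ← hc] at hn hpt hf li
  have ex : ∀ b, ∃ t : ℝ, b ∈ H → t ∈ Icc (0 : ℝ) 1 ∧ o + emb J (y b) = seg a c t := fun b => by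
    by_cases hb : b ∈ H
    · obtain ⟨t, ht⟩ := hpt (y b) (h1 b hb)
      exact ⟨t, fun _ => ht⟩
    · exact ⟨0, fun k => absurd k hb⟩
  choose t ht using ex
  have key := ACs.pack hf H t S0 (fun b hb => (ht b hb).1) fun b hb b' hb' e => by
    have := h2 b hb b' hb' e
    rwa [(ht b hb).2, (ht b' hb').2] at this
  have cs : Continuous (seg a c) := by unfold seg; fun_prop
  have mg : Measurable fun x : ℝ => ‖D (seg a c x) - A‖ₑ := mΦ.comp cs.measurable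
  have yg := young hp one_pos mg
  rw [Real.one_rpow, ENNReal.ofReal_one, one_mul] at yg
  have pt : ∀ x : ℝ, ‖D (seg a c x)‖ₑ ≤ ENNReal.ofReal Λ + ‖D (seg a c x) - A‖ₑ := fun x => by
    rw [← ofReal_norm, ← ofReal_norm, ← ENNReal.ofReal_add Λ0 (norm_nonneg _)]
    exact ENNReal.ofReal_le_ofReal (by linarith only [hA, norm_sub_norm_le (D (seg a c x)) A])
  have it : ∫⁻ x in Icc (0 : ℝ) 1, ‖D (seg a c x)‖ₑ ≤
      ENNReal.ofReal Λ + ∫⁻ x in Icc (0 : ℝ) 1, ‖D (seg a c x) - A‖ₑ := by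
    refine (lintegral_mono pt).trans (le_of_eq ?_)
    rw [lintegral_add_left measurable_const, setLIntegral_const, Real.volume_Icc, sub_zero,
      ENNReal.ofReal_one, mul_one]
  have en : ‖c - a‖ₑ = ENNReal.ofReal (2 * S) := by rw [← ofReal_norm, hn]
  rw [en] at key
  obtain ⟨E, hE⟩ : ∃ E, E = ∫⁻ x in Icc (0 : ℝ) 1, ‖D (seg a c x) - A‖ₑ ^ p := ⟨_, rfl⟩
  have li' : ∫⁻ z in closedBall (0 : J → ℝ) S, ‖D (o + emb J z) - A‖ₑ ^ p =
      ENNReal.ofReal (2 * S) * E := li.trans (by rw [hE])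
  rw [← hE] at yg
  rw [li']
  have k1 : (H.card : ℝ≥0∞) * ENNReal.ofReal S ≤
      ENNReal.ofReal ((2 * Λ + 3) * S) + ENNReal.ofReal (2 * S) * E := by
    refine key.trans ((add_le_add_right (mul_le_mul_right
      (it.trans (add_le_add_right yg _)) _) _).trans (le_of_eq ?_))
    rw [← add_assoc (ENNReal.ofReal Λ), mul_add, ← add_assoc, ← ENNReal.ofReal_one,
      ← ENNReal.ofReal_add Λ0 zero_le_one, ← ENNReal.ofReal_mul (by positivity),
      ← ENNReal.ofReal_add S0.le (by positivity)]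
    congr 2
    ring
  have e1 : ENNReal.ofReal s = ENNReal.ofReal (s / S) * ENNReal.ofReal S := by
    rw [← ENNReal.ofReal_mul (by positivity), div_mul_cancel₀ _ S0.ne']
  have c1 : ENNReal.ofReal (s / S) ≤ 1 := ENNReal.ofReal_le_one.2 ((div_le_one S0).2 hS)
  calc (H.card : ℝ≥0∞) * ENNReal.ofReal s
      = ENNReal.ofReal (s / S) * ((H.card : ℝ≥0∞) * ENNReal.ofReal S) := by
        conv_lhs => rw [e1]
        ring
    _ ≤ ENNReal.ofReal (s / S) *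
          (ENNReal.ofReal ((2 * Λ + 3) * S) + ENNReal.ofReal (2 * S) * E) := mul_le_mul_right k1 _
    _ ≤ _ := by
        rw [mul_add]
        refine add_le_add (le_of_eq ?_) (mul_le_of_le_one_left' c1)
        rw [← ENNReal.ofReal_mul (by positivity), ← ENNReal.ofReal_mul (by positivity)]
        congr 1
        field_simp

theorem hit_count3 {p : ℝ} (hp : 1 ≤ p) {T : Typ 1} (hT : T.Ok) :
    ∃ Ch : ℝ≥0∞, Ch ≠ ⊤ ∧ ∀ G : Gr 1, G.toTyp = T → G.Ok → 1 ≤ G.I.card → ∀ (f : V 1 → V 1)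
      (D : V 1 → V 1 →L[ℝ] V 1), Measurable D → ∀ (b' : Ix 1 → ℤ) (H : Finset (Ix 1 → ℤ)),
      G.LA f D b' → (∀ b ∈ H, ∀ l, l ∉ G.I → b l = 0) →
      (∀ b ∈ H, ∀ b'' ∈ H, ‖f (G.cb b) - f (G.cb b'') - G.A (G.cb b - G.cb b'')‖ ≤
        G.σ / 2 * ‖G.cb b - G.cb b''‖) →
      (∀ b ∈ H, ∃ y ∈ (G.box f b').fine G.s ∩ (G.box f b').Q G.s 56,
        ‖f y - f (G.cb b)‖ ≤ 16 * G.Λ * G.M * G.s) →
      (H.card : ℝ≥0∞) * ENNReal.ofReal (G.s ^ 1) ≤
        Ch * (ENNReal.ofReal (G.s ^ 1) + G.esk (fun y => ‖D y - G.A‖ₑ ^ p) b') := by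
  classical
  obtain ⟨N, hN⟩ : ∃ N : ℕ, N = ⌈6 * T.Λ / T.σ⌉₊ := ⟨_, rfl⟩
  obtain ⟨K, hK⟩ : ∃ K : ℝ≥0∞, K = ENNReal.ofReal (2 * T.Λ + 3) := ⟨_, rfl⟩
  have Kt : K ≠ ⊤ := hK ▸ ENNReal.ofReal_ne_top
  have K1 : 1 ≤ K := hK ▸ ENNReal.one_le_ofReal.2 (by linarith only [hT, hT.Λ1])
  refine ⟨((N ^ (2 * 1 + 1) : ℕ) * K) *
    ((2 ^ (2 * 1 + 1) * (16 * T.M + 1) ^ (2 * 1 + 1) + 1 : ℕ) : ℝ≥0∞),
    ENNReal.mul_ne_top (ENNReal.mul_ne_top (ENNReal.natCast_ne_top _) Kt)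
      (ENNReal.natCast_ne_top _), fun G e hG hm u D hD b' H hl h1 h2 h3 => ?_⟩
  subst e
  have hs := hG.s0
  have hM := Gr.ASl0_M hG
  have hΛ := hG.Λ1
  have N0 : 0 < N := hN ▸ Nat.ceil_pos.2 (div_pos (by linarith only [hΛ]) hG.σ0)
  obtain ⟨R, hR⟩ : ∃ R : Finset (Ix 1 → ℤ), R = Fintype.piFinset fun _ => Finset.Ico 0 (N : ℤ) :=
    ⟨_, rfl⟩
  obtain ⟨Hc, hH⟩ : ∃ Hc : Finset (Ix 1) → (Ix 1 → ℤ) → (Ix 1 → ℤ) → Finset (Ix 1 → ℤ),
      Hc = fun (J : Finset (Ix 1)) (v ρ : Ix 1 → ℤ) => H.filter fun b => (∀ l, b l % N = ρ l) ∧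
        ∃ y ∈ closedBall (0 : J → ℝ) (8 * G.M * G.s),
          ‖u (G.sq b' J v y) - u (G.cb b)‖ ≤ 16 * G.Λ * G.M * G.s := ⟨_, rfl⟩
  have cov : H.card ≤ ∑ J ∈ Finset.powersetCard 1 G.I, ∑ v ∈ G.pos J, ∑ ρ ∈ R, (Hc J v ρ).card := by
    refine le_trans (Finset.card_le_card (t := (Finset.powersetCard 1 G.I).biUnion fun J =>
      (G.pos J).biUnion fun v => R.biUnion fun ρ => Hc J v ρ) fun b hb => ?_)
      (Finset.card_biUnion_le.trans (Finset.sum_le_sum fun J _ => Finset.card_biUnion_le.trans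
        (Finset.sum_le_sum fun v _ => Finset.card_biUnion_le)))
    obtain ⟨y, y1, y2⟩ := h3 b hb
    obtain ⟨J, hJ, v, hv, z, hz, rfl⟩ := Gr.mem_sq u hG hm y1
    have N1 : (0 : ℤ) < N := by exact_mod_cast N0
    refine Finset.mem_biUnion.2 ⟨J, hJ, Finset.mem_biUnion.2 ⟨v, hv, Finset.mem_biUnion.2
      ⟨fun l => b l % N, ?_, ?_⟩⟩⟩
    · rw [hR]
      exact Fintype.mem_piFinset.2 fun l =>
        Finset.mem_Ico.2 ⟨Int.emod_nonneg _ N1.ne', Int.emod_lt_of_pos _ N1⟩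
    · rw [hH]
      exact Finset.mem_filter.2 ⟨hb, fun _ => rfl, z, hz, y2⟩
  have cls : ∀ J ∈ Finset.powersetCard 1 G.I, ∀ v ∈ G.pos J, ∀ ρ,
      ((Hc J v ρ).card : ℝ≥0∞) * ENNReal.ofReal (G.s ^ 1) ≤ K * (ENNReal.ofReal (G.s ^ 1) +
        ∫⁻ y in closedBall (0 : J → ℝ) (8 * G.M * G.s),
          ‖D (G.sq b' J v y) - G.A‖ₑ ^ p) := by
    intro J hJ v hv ρ
    have ex : ∀ b, ∃ y : J → ℝ, b ∈ Hc J v ρ → y ∈ closedBall (0 : J → ℝ) (8 * G.M * G.s) ∧
        ‖u (G.sq b' J v y) - u (G.cb b)‖ ≤ 16 * G.Λ * G.M * G.s := fun b => by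
      by_cases hb : b ∈ Hc J v ρ
      · rw [hH] at hb
        obtain ⟨y, hy⟩ := (Finset.mem_filter.1 hb).2.2
        exact ⟨y, fun _ => hy⟩
      · exact ⟨0, fun c => absurd c hb⟩
    choose y hy using ex
    refine (pow_one G.s).symm ▸ (NSc_sq hp (Finset.mem_powersetCard.1 hJ).2 hD
      (o := G.cb b' + G.s • fun l => (v l : ℝ)) (S := 8 * G.M * G.s) hG.nA hs (by linarith only [hs, hM, mul_nonneg_of_nonpos_of_nonpos (le_of_lt (Mathlib.Tactic.Linarith.sub_neg_of_lt hs)) (Mathlib.Tactic.Linarith.sub_nonpos_of_le hM)])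
      (hl J hJ v hv) (Hc J v ρ) y (fun b hb => (hy b hb).1) fun b hb c hc e => ?_).trans ?_
    · have k1 := (hy b hb).2
      have k2 := (hy c hc).2
      rw [hH] at hb hc
      obtain ⟨a1, a2, -⟩ := Finset.mem_filter.1 hb
      obtain ⟨c1, c2, -⟩ := Finset.mem_filter.1 hc
      have k3 := ASc_far hG (hN ▸ Nat.le_ceil _) (h1 b a1) (h1 c c1) e
        (fun l => (a2 l).trans (c2 l).symm) (h2 b a1 c c1)
      have k4 := norm_sub_le_norm_sub_add_norm_sub (u (G.cb b)) (u (G.sq b' J v (y b))) (u (G.cb c))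
      have k5 := norm_sub_le_norm_sub_add_norm_sub (u (G.sq b' J v (y b))) (u (G.sq b' J v (y c)))
        (u (G.cb c))
      rw [norm_sub_rev (u (G.cb b)) (u (G.sq b' J v (y b)))] at k4
      have k6 : 8 * G.M * G.s ≤ 16 * G.Λ * G.M * G.s := by
        linarith only [hΛ, hM, hs, mul_nonneg (sub_nonneg.2 hΛ) (mul_pos (by linarith : (0 : ℝ) < G.M) hs).le, mul_nonneg_of_nonpos_of_nonpos (Mathlib.Tactic.Linarith.sub_nonpos_of_le (Mathlib.Tactic.Linarith.natCast_nonneg ℝ G.M)) (le_of_lt (Mathlib.Tactic.Linarith.sub_neg_of_lt hs))]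
      change _ ≤ ‖u (G.sq b' J v (y b)) - u (G.sq b' J v (y c))‖
      linarith only [k1, k2, k3, k4, k5, k6]
    · rw [← hK, mul_add]
      exact add_le_add le_rfl (le_mul_of_one_le_left' K1)
  have cR : R.card = N ^ (2 * 1 + 1) := by simp [hR]
  calc (H.card : ℝ≥0∞) * ENNReal.ofReal (G.s ^ 1)
      ≤ (∑ J ∈ Finset.powersetCard 1 G.I, ∑ v ∈ G.pos J, ∑ ρ ∈ R, ((Hc J v ρ).card : ℝ≥0∞)) *
          ENNReal.ofReal (G.s ^ 1) := mul_le_mul_left (by exact_mod_cast cov) _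
    _ ≤ ∑ J ∈ Finset.powersetCard 1 G.I, ∑ v ∈ G.pos J, ((N ^ (2 * 1 + 1) : ℕ) * K) *
          (ENNReal.ofReal (G.s ^ 1) + ∫⁻ y in closedBall (0 : J → ℝ) (8 * G.M * G.s),
            ‖D (G.sq b' J v y) - G.A‖ₑ ^ p) := by
        simp only [Finset.sum_mul]
        refine Finset.sum_le_sum fun J hJ => Finset.sum_le_sum fun v hv =>
          (Finset.sum_le_card_nsmul _ _ _ fun ρ _ => cls J hJ v hv ρ).trans (le_of_eq ?_)
        rw [cR, nsmul_eq_mul, mul_assoc _ K]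
    _ = ((N ^ (2 * 1 + 1) : ℕ) * K) *
          (((∑ J ∈ Finset.powersetCard 1 G.I, (G.pos J).card : ℕ) : ℝ≥0∞) *
            ENNReal.ofReal (G.s ^ 1) + G.esk (fun y => ‖D y - G.A‖ₑ ^ p) b') := by
        simp only [← Finset.mul_sum, Finset.sum_add_distrib, Finset.sum_const, nsmul_eq_mul,
          Gr.esk, Nat.cast_sum, Finset.sum_mul]
    _ ≤ _ := by
        rw [mul_assoc _ ((_ : ℕ) : ℝ≥0∞), mul_add ((_ : ℕ) : ℝ≥0∞)]
        refine mul_le_mul_right (add_le_add (mul_le_mul_left ?_ _)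
          (le_mul_of_one_le_left' ?_)) _
        · exact_mod_cast G.card_sq.trans (Nat.le_succ _)
        · exact_mod_cast Nat.le_add_left 1 _

end BEp
end
end

-- merged part: Pool.Agent.Work.MP_f0515e_an.D3.NSe
section
/-! TASK NSe. Selection of the kept cubes in one slice.
Plan. Copy of sel (Pos/ASe) for `m = 1` with skel3, exists_bad3, hit_count3; there is no smooth map: `Φ y = ‖D y - A‖ ^ p`, the
lemmas are applied to `f` and `fun y => D (y + t)` themselves, `f (cb b) = f0 (cb b + t)` for `b ∈ F` since `cb b` is in `cell 0`.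
`Gd` as there; its members are Fine by skel3, and `ε' ≤ ε`. Gr.kept_of_good, ASe_cnt, Gr.esk_meas, Gr.esk_avg, Gr.card_F are reused. -/

open Set Metric Filter Topology Function BEv MeasureTheory
open scoped NNReal ENNReal

noncomputable section
namespace BEp

theorem Gr.ε'_le {G : Gr 1} (hG : G.Ok) : 0 < G.ε' ∧ G.ε' ≤ G.ε ∧ G.ε' ≤ G.s := by
  have s0 := hG.s0
  have σ0 := hG.σ0
  have σ1 := hG.σ1
  have Λ1 := hG.Λ1
  have k : G.ε' ≤ G.ε := by
    rw [Gr.ε', Gr.ε, mul_div_right_comm]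
    refine mul_le_mul_of_nonneg_right ((div_le_div_iff₀ (by positivity) (by norm_num)).2 ?_) s0.le
    linarith only [σ0, Λ1, σ1, mul_pos σ0 (zero_lt_one.trans_le Λ1), mul_nonneg_of_nonpos_of_nonpos (le_of_lt (Mathlib.Tactic.Linarith.sub_neg_of_lt σ0)) (Mathlib.Tactic.Linarith.sub_nonpos_of_le σ1)]
  refine ⟨by unfold Gr.ε'; positivity, k, k.trans ?_⟩
  unfold Gr.ε
  linarith only [s0, σ1, mul_nonneg_of_nonpos_of_nonpos (le_of_lt (Mathlib.Tactic.Linarith.sub_neg_of_lt s0)) (Mathlib.Tactic.Linarith.sub_nonpos_of_le σ1)]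

theorem sel3 {p : ℝ} (hp : 1 ≤ p) {T : Typ 1} (hT : T.Ok) :
    ∃ Cs : ℝ≥0∞, Cs ≠ ⊤ ∧ T.Sel3 p Cs := by
  classical
  obtain ⟨k0, k0p, hk⟩ := skel3 hp hT
  obtain ⟨Cb, hCb, hb⟩ := exists_bad3 hp hT
  obtain ⟨Ch, hCh, hh⟩ := hit_count3 hp hT
  have hk0 : ENNReal.ofReal k0 ≠ 0 := by simpa using k0p
  have hK : (ENNReal.ofReal k0)⁻¹ ≠ ⊤ := ENNReal.inv_ne_top.2 hk0
  refine ⟨ENNReal.ofReal (2 ^ (2 * 1 + 1)) * (((1 + Ch) * (ENNReal.ofReal k0)⁻¹ + Ch) *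
    ENNReal.ofReal (2 ^ (2 * 1 + 1) * (16 * T.M + 1) ^ (2 * 1 + 1) * (16 * T.M) ^ 1) +
      (1 + Ch) * Cb), by finiteness, ?_⟩
  rintro G rfl hG hI F hF o η ho hη u D hD hu
  have s0 := hG.s0
  have M9 := Gr.ASl0_M hG
  have hMs : 0 < G.M * G.s := by positivity
  have η0 : 0 < η := by linarith only [hη, hMs]
  have hS0 : ENNReal.ofReal (G.s ^ 1) ≠ 0 := by simpa using s0
  have hS1 : ENNReal.ofReal (G.s ^ 1) ≠ ⊤ := ENNReal.ofReal_ne_top
  obtain ⟨Bad, mB, vB, hB⟩ := hb G rfl hG o η η0 ho u D hD hu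
  have mΦ : Measurable fun y => ‖D y - G.A‖ₑ ^ p := (hD.sub_const _).enorm.pow_const p
  have hin : ∀ b ∈ F, ∀ y, ‖y - G.cb b‖ ≤ 8 * G.M * G.s → ∀ t ∈ closedBall (0 : V 1) η,
      y + t ∈ closedBall o (9 * η) := fun b hbF y hy t ht => by
    have h1 := mem_closedBall_iff_norm.1 (ho ((hF b).1 hbF).2)
    have h2 := ASe_tri (d := y + t - o) hy (norm_neg (G.cb b - o) ▸ h1 : ‖-(G.cb b - o)‖ ≤ η)
      (mem_closedBall_zero_iff.1 ht) (by abel)
    rw [mem_closedBall_iff_norm]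
    linarith only [hη, hMs, h2]
  have me : ∀ b, Measurable fun t : V 1 =>
      G.esk (fun y => ‖D (y + t) - G.A‖ₑ ^ p) b / ENNReal.ofReal (G.s ^ 1) :=
    fun b => (G.esk_meas mΦ b).div_const _
  have mi : ∀ b, Measurable fun t : V 1 => Bad.indicator (1 : V 1 → ℝ≥0∞) (G.cb b + t) :=
    fun b => (measurable_one.indicator mB).comp (measurable_const_add _)
  have ms : ∀ b, Measurable fun t : V 1 => ((1 + Ch) * (ENNReal.ofReal k0)⁻¹ + Ch) *
      (G.esk (fun y => ‖D (y + t) - G.A‖ₑ ^ p) b / ENNReal.ofReal (G.s ^ 1)) +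
      (1 + Ch) * Bad.indicator 1 (G.cb b + t) :=
    fun b => ((me b).const_mul _).add ((mi b).const_mul _)
  refine ⟨fun t => (∑ b ∈ F, (((1 + Ch) * (ENNReal.ofReal k0)⁻¹ + Ch) *
      (G.esk (fun y => ‖D (y + t) - G.A‖ₑ ^ p) b / ENNReal.ofReal (G.s ^ 1)) +
      (1 + Ch) * Bad.indicator 1 (G.cb b + t))) * G.col,
    (Finset.measurable_sum _ fun b _ => ms b).mul_const _, ?_, fun t ht f hf hA => ?_⟩
  · rw [lintegral_mul_const _ (Finset.measurable_sum _ fun b _ => ms b),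
      lintegral_finsetSum _ fun b _ => ms b]
    refine (mul_le_mul_left (Finset.sum_le_card_nsmul _ _
      ((((1 + Ch) * (ENNReal.ofReal k0)⁻¹ + Ch) *
        ENNReal.ofReal (2 ^ (2 * 1 + 1) * (16 * G.M + 1) ^ (2 * 1 + 1) * (16 * G.M) ^ 1) +
        (1 + Ch) * Cb) * ∫⁻ y in closedBall o (9 * η), ‖D y - G.A‖ₑ ^ p)
      fun b hbF => ?_) _).trans ?_
    · rw [lintegral_add_left ((me b).const_mul _), lintegral_const_mul _ (me b),
        lintegral_const_mul _ (mi b), add_mul _ ((1 + Ch) * Cb), mul_assoc, mul_assoc (1 + Ch) Cb]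
      gcongr
      · simp only [div_eq_mul_inv]
        rw [lintegral_mul_const _ (G.esk_meas mΦ b), ← div_eq_mul_inv,
          ENNReal.div_le_iff hS0 hS1]
        refine (Gr.esk_avg hG mΦ b measurableSet_closedBall (hin b hbF)).trans (le_of_eq ?_)
        rw [mul_right_comm (ENNReal.ofReal _) _ (ENNReal.ofReal (G.s ^ 1)),
          ← ENNReal.ofReal_mul (by positivity), mul_pow _ G.s, ← mul_assoc]
      · refine (setLIntegral_le_lintegral _ _).trans ?_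
        rw [lintegral_add_left_eq_self (fun x => Bad.indicator (1 : V 1 → ℝ≥0∞) x),
          lintegral_indicator_one mB]
        exact vB
    · rw [nsmul_eq_mul, mul_right_comm]
      refine (mul_le_mul_left (Gr.card_F hG fun b hbF => (hF b).1 hbF) _).trans (le_of_eq ?_)
      rw [ENNReal.ofReal_mul (by positivity), show (2 * G.h) ^ (2 * 1 + 1) = (2 * G.h) ^ 3 from rfl]
      ring
  have mD : Measurable fun y => D (y + t) := hD.comp (measurable_add_const t)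
  obtain ⟨ε0, ε2, -⟩ := Gr.ε'_le hG
  have ε1 : G.ε ≤ G.s / 1000 := by
    have := hG.σ1
    unfold Gr.ε
    linarith only [s0, this, mul_nonneg_of_nonpos_of_nonpos (le_of_lt (Mathlib.Tactic.Linarith.sub_neg_of_lt s0)) (Mathlib.Tactic.Linarith.sub_nonpos_of_le this)]
  have e2 : ∀ b ∈ F, f (G.cb b) = u (G.cb b + t) := fun b hbF =>
    hf _ (closedBall_subset_closedBall (by linarith only [hη, hMs]) (ho ((hF b).1 hbF).2))
  obtain ⟨Gd, hGd⟩ : ∃ Gd : Finset (Ix 1 → ℤ), ∀ b, b ∈ Gd ↔ b ∈ F ∧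
      G.esk (fun y => ‖D (y + t) - G.A‖ₑ ^ p) b ≤ ENNReal.ofReal (k0 * G.s ^ 1) ∧
      G.cb b + t ∉ Bad := ⟨F.filter _, fun b => Finset.mem_filter⟩
  obtain ⟨H, hH⟩ : ∃ H : (Ix 1 → ℤ) → Finset (Ix 1 → ℤ), ∀ b' b, b ∈ H b' ↔ b ∈ Gd ∧
      ∃ y ∈ (G.box f b').Sk G.s ∩ (G.box f b').Q G.s 56, ∃ x ∈ (G.box f b).Q G.s 12,
        ‖f y - (G.box f b).aff x‖ ≤ 10 * G.ε :=
    ⟨fun b' => Gd.filter _, fun b' b => Finset.mem_filter⟩
  have g0 : ∀ b ∈ Gd, G.Fine f b := fun b h1 =>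
    hk G rfl hG hI.le f _ mD b (hA b ((hGd b).1 h1).1) ((hGd b).1 h1).2.1
  have g1 : ∀ b ∈ Gd, ∀ b' ∈ Gd, ‖f (G.cb b) - f (G.cb b') - G.A (G.cb b - G.cb b')‖ ≤
      G.σ / G.M * ‖G.cb b - G.cb b'‖ := fun b h1 b' h2 => by
    rw [e2 b ((hGd b).1 h1).1, e2 b' ((hGd b').1 h2).1]
    exact hB t ht b ((hF b).1 ((hGd b).1 h1).1) b' ((hF b').1 ((hGd b').1 h2).1)
      ((hGd b).1 h1).2.2 ((hGd b').1 h2).2.2
  refine ⟨Gd \ (F \ Gd).biUnion H, Gr.kept_of_good hG _ (fun b hbF => ((hF b).1 hbF).1)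
    (fun b h1 => ((hGd b).1 h1).1) Finset.sdiff_subset
    (fun b h1 x hx => ((g0 b h1).close x hx).trans ε2)
    (fun b h1 b' h2 => (g1 b h1 b' h2).trans (by linarith only [ε0, ε2]))
    (fun b h1 b' h2 h3 y hy x hx => ?_), fun b h1 => g0 b (Finset.sdiff_subset h1),
    mul_le_mul_left (ASe_cnt H (fun b h1 => ?_) fun b' h1 => ?_) _⟩
  · obtain ⟨h4, h5⟩ := Finset.mem_sdiff.1 h1
    exact lt_of_not_ge fun h6 => h5 (Finset.mem_biUnion.2
      ⟨b', Finset.mem_sdiff.2 ⟨h2, h3⟩, (hH b' b).2 ⟨h4, y, hy, x, hx, h6⟩⟩)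
  · obtain ⟨h2, h3⟩ := Finset.mem_sdiff.1 h1
    by_cases h4 : G.cb b + t ∈ Bad
    · rw [indicator_of_mem h4]
      exact le_add_self
    · refine le_trans ?_ le_self_add
      rw [← ENNReal.inv_mul_cancel hk0 ENNReal.ofReal_ne_top]
      gcongr
      rw [ENNReal.le_div_iff_mul_le (Or.inl hS0) (Or.inl hS1), ← ENNReal.ofReal_mul k0p.le]
      exact le_of_not_ge fun h5 => h3 ((hGd b).2 ⟨h2, h5, h4⟩)
  · have h3 := hh G rfl hG hI.le f _ mD b' (H b') (hA b' (Finset.mem_sdiff.1 h1).1)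
      (fun b h4 => ((hF b).1 ((hGd b).1 ((hH b' b).1 h4).1).1).1)
      (fun b h4 b'' h5 => (g1 b ((hH b' b).1 h4).1 b'' ((hH b' b'').1 h5).1).trans (by
        have := hG.σ0
        gcongr
        linarith only [M9])) fun b h4 => by
        obtain ⟨h5, y, hy, x, hx, h6⟩ := (hH b' b).1 h4
        refine ⟨y, ⟨Gr.Sk_sub_fine _ hG hy.1, hy.2⟩, ?_⟩
        have h7 := ((Gr.mem_Q _ hG (by norm_num)).1 hx).2
        have h8 : ‖G.A (x - G.cb b)‖ ≤ G.Λ * (8 * G.M * G.s) :=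
          (G.A.le_of_opNorm_le hG.nA _).trans
            (mul_le_mul_of_nonneg_left (by linarith only [ε0, ε2, ε1, h7]) (by linarith only [hG, hG.Λ1]))
        have h10 := norm_add_le (f y - (G.box f b).aff x) (G.A (x - G.cb b))
        rw [show f y - (G.box f b).aff x + G.A (x - G.cb b) = f y - f (G.cb b) by
          simp only [Gr.box, Box.aff]; abel] at h10
        have h11 : G.M * G.s ≤ G.Λ * (G.M * G.s) := le_mul_of_one_le_left hMs.le hG.Λ1
        have h12 : 9 * G.s ≤ G.M * G.s := mul_le_mul_of_nonneg_right M9 s0.le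
        linarith only [ε0, ε2, ε1, h6, h8, h10, h11, h12]
    rw [← ENNReal.le_div_iff_mul_le (Or.inl hS0) (Or.inl hS1), mul_div_assoc,
      ENNReal.add_div, ENNReal.div_self hS0 hS1] at h3
    exact h3

end BEp
end
end

-- merged part: Pool.Agent.Work.MP_f0515e_an.D3.NGd
section
/-! The output of the topological theorem has the properties used in the energy estimate. -/

open Set Metric Filter Topology Function BEv MeasureTheory
open scoped NNReal ENNReal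

noncomputable section
namespace BEp

theorem vr_add (f : Rn 3 → Rn 3) (B : Box 1) (a b : Rn 3) :
    vr f a b ≤ vr (fun x => f x - B.aff x) a b + ENNReal.ofReal (‖B.A‖ * ‖b - a‖) := by
  exact (vr_aff f B a b).trans (add_le_add le_rfl (ENNReal.ofReal_le_ofReal (B.A.le_opNorm _)))

theorem NGd_meas {a b : Rn 3} (h : a ≠ b) : MeasurableSet (openSegment ℝ a b) :=
  seg_image_open a b ▸ measurableSet_Ioo.image_of_continuousOn_injOn
    (tp_seg a b).continuous.continuousOn (LEdge_inj h).injOn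

variable {ι κ : Type} [Fintype ι] [Fintype κ] {X : Cfg 1 ι κ} {kp : κ → Finset (Ix 1 → ℤ)}
  {Ω : Set (Rn 3)} {K : Kx Ω} {Y' : κ → Set (V 1)} {ρ' : ℝ}

namespace Cfg

omit [Fintype ι] [Fintype κ] in
theorem NGd_ball {q : ι} {x : V 1} (h : x ∈ X.Qc q 2) : closedBall x X.η ⊆ X.Qc q 3 :=
  closedBall_subset_closedBall' (by linarith [mem_closedBall.1 h])

omit [Fintype ι] in
theorem NGd_Ω (hX : X.Ok) (hF : X.Fit K Y' ρ') : X.Reg ⊆ Ω :=
  iUnion_subset fun q _ h => hF.reg q (NGd_ball h (mem_closedBall_self hX.η0.le))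

theorem Ec_finite (hX : X.Ok) (hF : X.Fit K Y' ρ') (f : V 1 → V 1)
    (kp : κ → Finset (Ix 1 → ℤ)) : (X.Ec K f kp).Finite := by
  exact (Kx.cover (Cf0.isCompact_Reg _) (NGd_Ω hX hF)).subset fun σ h => ⟨h.1.1, h.2.1⟩

theorem edge_sub (hX : X.Ok) (hF : X.Fit K Y' ρ') {a b : V 1} (h : K.Edge a b)
    (h' : (openSegment ℝ a b ∩ X.Reg).Nonempty) : ∃ q, segment ℝ a b ⊆ X.Qc q 3 := by
  obtain ⟨x, hx, hr⟩ := h'
  obtain ⟨q, hq⟩ := mem_iUnion.1 hr
  refine ⟨q, ?_⟩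
  rw [← h.cl, ← Kx.cell_eq h.2 hx]
  exact closure_minimal ((hF.diam x hr).trans ((closedBall_subset_closedBall hX.ρη).trans
    (NGd_ball hq))) isClosed_closedBall

theorem Ec_sub (hX : X.Ok) (hF : X.Fit K Y' ρ') (f : V 1 → V 1) {σ : Set (Rn 3)}
    (h : σ ∈ X.Ec K f kp) : ∃ q, σ ⊆ X.Qc q 3 := by
  obtain ⟨a, b, he, rfl⟩ := Kx.dm_one h.1.1 h.1.2
  exact (edge_sub hX hF he h.2.1).imp fun q k => (openSegment_subset_segment ..).trans k

theorem gd3 (hX : X.Ok) (hΩ : IsOpen Ω) (hF : X.Fit K Y' ρ') (hk : X.Kp kp) {f G : V 1 → V 1}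
    {D : V 1 → V 1 →L[ℝ] V 1} {p C0 ϑ : ℝ} {ν : Measure (Rn 3)} {θ : Set (Rn 3) → ℝ}
    {be : Set (Rn 3) → Rn 3 → ℝ} {e : ℝ≥0∞} (hp : 0 < p) (hC : 1 ≤ C0)
    (hR : RigIn K f (X.box f kp) X.s (fun i => (X.G i.1.1).ε) (fun i => (X.G i.1.1).ε'))
    (hA : AnOut K f D p (X.Ec K f kp) ν (X.box f kp) X.s (fun i => (X.G i.1.1).ε) θ be C0 e G)
    (hb : ∀ a b, K.Edge a b → openSegment ℝ a b ⊆ ⋃ a, (X.C a).cell 0 → ∀ y ∈ segment ℝ a b,
      ∀ y' ∈ segment ℝ a b, |be (openSegment ℝ a b) y - be (openSegment ℝ a b) y'| * ‖b - a‖ ≤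
        ‖y - y'‖)
    (hθ : ∀ σ, 0 < θ σ ∧ θ σ ≤ X.s ∧ θ σ ≤ ϑ)
    (hϑ : ∀ a, 32 * (X.C a).Λ * (X.C a).M * X.s ≤ ϑ) :
    ∃ (g : V 1 → V 1) (ψ : V 1 → ℝ), EqOn g G (⋃ q, X.Qc q 3) ∧ Measurable ψ ∧
      ∫⁻ y, ENNReal.ofReal (ψ y) ^ p ∂ν ≤ e ∧
      X.Gd3 kp f g (fun q y => ‖D y - (X.ty q).A‖) ψ (2 * C0 + 2) ϑ := by
  have hΩ3 : (⋃ q, X.Qc q 3) ⊆ Ω := iUnion_subset hF.reg
  obtain ⟨g, hg, eg⟩ := hA.ltp _ (isCompact_iUnion fun q => isCompact_closedBall _ _) hΩ3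
  obtain ⟨ψ, N, m0, p0, fN, iψ, hψ⟩ := hA.core
  have ev : ∀ y ∈ X.Reg, g =ᶠ[𝓝 y] G := fun y hy => by
    obtain ⟨q, hq⟩ := mem_iUnion.1 hy
    filter_upwards [closedBall_mem_nhds y hX.η0] with z hz
    exact (eg (mem_iUnion.2 ⟨q, NGd_ball hq hz⟩)).symm
  have mU : MeasurableSet (⋃₀ X.Ec K f kp) :=
    .sUnion (Ec_finite hX hF f kp).countable fun σ h => by
      obtain ⟨a, b, he, rfl⟩ := Kx.dm_one h.1.1 h.1.2
      exact NGd_meas he.1
  have sQ : ∀ (i : Bx kp) {ρ : ℝ}, ρ ≤ 56 → (X.box f kp i).Q X.s ρ ⊆ X.Reg := fun i ρ h =>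
    (Q_sub hX hk f i h).trans (ATop_reg hX _)
  have cR := Cf0.isCompact_Reg X.toCf0
  refine ⟨g, indicator (⋃₀ X.Ec K f kp) ψ, eg.symm, m0.indicator mU, ?_, hg.lip,
    fun i y hy => ((ev y (sQ i (by norm_num) hy)).eq_of_nhds).trans (hA.rig i hy),
    fun _ _ => norm_nonneg _, fun y => indicator_nonneg (fun y _ => p0 y) y, by linarith,
    ⟨_, N ∪ {y | y ∈ X.Reg ∧ K.cell y = {y}}, K.finite_edge hΩ cR (NGd_Ω hX hF),
      fN.union ?_, fun e h => h.1.1, ?_⟩, ?_⟩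
  · refine le_trans (le_of_eq ?_) iψ
    rw [← lintegral_indicator mU]
    refine lintegral_congr fun y => ?_
    by_cases h : y ∈ ⋃₀ X.Ec K f kp
    · rw [indicator_of_mem h, indicator_of_mem h]
    · rw [indicator_of_notMem h, indicator_of_notMem h, ENNReal.ofReal_zero,
        ENNReal.zero_rpow_of_pos hp]
  · refine Finite.of_finite_image (f := K.cell) ((K.lf _ cR (NGd_Ω hX hF)).subset
      (image_mono fun y h => h.1)) fun y h z k e => ?_
    rw [h.2, k.2] at e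
    exact singleton_injective e
  · rintro q y ⟨hZ, hq⟩ hqa hN h8
    have hr : y ∈ X.Reg := mem_iUnion.2 ⟨q, hq⟩
    obtain ⟨-, k⟩ | ⟨a, b, he, hy⟩ := Kx.mem_sk_one.1 (hF.Z hZ)
    · exact (hN (Or.inr ⟨hr, k⟩)).elim
    refine ⟨(a, b), ⟨he, y, openSegment_subset_segment _ _ _ hy, hr⟩, ?_, ?_⟩
    · obtain ⟨t, -, k⟩ := (seg_image_open a b).symm ▸ hy
      exact ⟨t, k.symm⟩
    by_cases hE : openSegment ℝ a b ∈ X.Ec K f kp
    · left
      rw [indicator_of_mem (mem_sUnion_of_mem hy hE)]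
      exact ((hψ a b he hE y hy fun k => hN (Or.inl k)).add _).congr (ev y hr)
    right
    have : ∃ i : Bx kp, ¬ Disjoint (openSegment ℝ a b) ((X.box f kp i).Q X.s 24) := by
      by_contra k
      exact hE ⟨⟨he.2, he.dm⟩, ⟨y, hy, hr⟩, fun i => by_contra fun k' => k ⟨i, k'⟩⟩
    obtain ⟨i, hi⟩ := this
    obtain ⟨x, hx, hx'⟩ := not_disjoint_iff.1 hi
    obtain ⟨k1, k2⟩ := hR.edge24 he hx hx'
    have k3 := hR.vr24 he k1
    have sc := k1.trans (Q_sub hX hk f i (by norm_num))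
    have hy' := openSegment_subset_segment _ _ _ hy
    have eq := hqa _ (sc hy')
    have eA : (X.box f kp i).A = (X.ty q).A := by rw [← eq]; rfl
    have k4 := (Gr.ε'_le (hX.gok i.1.1)).2.2
    have k5 := (hX.ty q).nA
    have k6 := (hX.ty q).Λ1
    have k7 := hθ (openSegment ℝ a b)
    have s0 := hX.s0
    have L0 : 0 < ‖b - a‖ := by linarith only [k2, k7]
    refine ⟨i, k1 hy', BEp.TL.congr (BEp.TL.mono (tl_of_lin hy (L := (2 * C0 + 1) * (X.ty q).Λ)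
      (fun z hz z' hz' => ?_) _) (by linarith)) (ev y hr)⟩
    refine (hA.lin a b he hE (fun j k => h8 j (k hy')) z hz z' hz').trans ?_
    have k8 := hb a b he (fun w hw => mem_iUnion.2 ⟨_, sc (openSegment_subset_segment _ _ _ hw)⟩)
      z hz z' hz'
    have k9 : C0 * (vr f a b).toReal + θ (openSegment ℝ a b) ≤
        (2 * C0 + 1) * (X.ty q).Λ * ‖b - a‖ := by
      rw [eA] at k3
      change (X.G i.1.1).ε' ≤ X.s at k4
      have a1 : ‖(X.ty q).A‖ * ‖b - a‖ ≤ (X.ty q).Λ * ‖b - a‖ := by gcongr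
      have a2 : ‖b - a‖ ≤ (X.ty q).Λ * ‖b - a‖ := le_mul_of_one_le_left L0.le k6
      have a3 : C0 * (vr f a b).toReal ≤ C0 * (2 * ((X.ty q).Λ * ‖b - a‖)) := by
        gcongr
        linarith only [k2, k3, k7, k4, a1, a2]
      linarith only [k2, k7, a2, a3]
    calc _ ≤ (2 * C0 + 1) * (X.ty q).Λ * ‖b - a‖ * _ := by gcongr
      _ ≤ _ := by rw [mul_assoc _ ‖b - a‖, mul_comm ‖b - a‖]; gcongr
  · rintro y (hZ | ⟨i, hi⟩)
    · have hr := Z_sub hX hZ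
      obtain ⟨y', h1, h2⟩ := hA.sup y (hF.Z hZ)
      refine ⟨y', ?_, ?_⟩
      · exact mem_closedBall_iff_norm.1 (closure_minimal ((hF.diam y hr).trans
          (closedBall_subset_closedBall hX.ρη)) isClosed_closedBall h1)
      rw [(ev y hr).eq_of_nhds]
      obtain h2 | ⟨i, -, h2⟩ := h2
      · exact h2.trans (hθ _).2.2
      · linarith only [h2, hX, hϑ, ATop_eps hX _ (hϑ i.1.1)]
    · have m : ∀ {ρ : ℝ}, 4 ≤ ρ → y ∈ (X.box f kp i).Q X.s ρ := fun {ρ} h =>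
        ⟨hi.1, fun l hl => (hi.2 l hl).trans (by gcongr; exact hX.s0.le)⟩
      have s0 := hX.s0
      refine ⟨(X.G i.1.1).cb i.1.2, ?_, ?_⟩
      · have := ATop_norm hX f i (by norm_num) (ATop_Q (by linarith) hi)
        rw [norm_sub_rev]
        linarith [hX.sρ i.1.1, hX.ρη, ATop_Ms hX i.1.1]
      · rw [(ev y (sQ i (by norm_num) hi)).eq_of_nhds, hA.rig i (m (by norm_num))]
        have := ATop_aff hX f i (m (by norm_num)) (hϑ i.1.1)
        linarith only [this, norm_nonneg ((X.box f kp i).aff y - f ((X.G i.1.1).cb i.1.2))]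

end Cfg

end BEp
end
end

-- merged part: Pool.Agent.Work.MP_f0515e_an.D3.NNu
section
/-! TASK NNu. The measure carried by the image of the retraction.
Plan. TK_eq_TL: the first half of the proof of TK_dich (Pos/AG4). measurableSet_act: countable union, measurable_wt, measurable_fderiv.
lintegral_nu: lintegral_finsetSum_measure, lintegral_map (measurable_TL), lintegral_withDensity_eq_lintegral_mul.
acm_nu: replace `N` by toMeasurable; `seg a b` is a measurable embedding (continuous, injective); apply lintegral_nu to the indicator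
of the image; the set of `z ∈ act` with `TL z` in the image is null by TK_eq_TL and acm_tp for all `K1`, `K2` (cc_TK ... .tp).
nu_fin: `W ^ p ≤ W ^ r` (two_le_wt). nu_int: on `act`, `TL kp z = TK z` is `TL F z` or `TL ∅ z` (TK_dich); `‖D‖ ^ p ≤ 2 ^ p (‖D - A‖ ^ p + ‖A‖ ^ p)`
(ACo_rpow with third point 0). -/

open Set Metric Filter Topology Function BEv MeasureTheory
open scoped NNReal ENNReal

noncomputable section
namespace BEp

variable {ι κ : Type} [Fintype ι] [Fintype κ] {X : Cfg 1 ι κ} {kp : κ → Finset (Ix 1 → ℤ)}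

namespace Cfg

theorem TK_eq_TL (hX : X.Ok) (kp : κ → Finset (Ix 1 → ℤ)) {K1 K2 : ℕ} {z : V 1}
    (h1 : X.W z < 2 ^ K1) (h2 : X.W z < 2 ^ K2) : X.TK kp K1 K2 z = X.TL kp z := by
  have e := Cf0.r1_KL (Cf0.dl_le_b1 h1)
  by_cases hy : ∃ a, X.r1 (RL Finset.univ) z ∈ (X.C a).cell 0
  · obtain ⟨a, ha⟩ := hy
    rw [TK, TL, AG4_in hX kp _ _ (e ▸ ha), AG4_in hX _ _ _ ha, e]
    have h3 : (X.G a).rB (kp a) (RI (X.C a).I K2) (X.r1 (RL Finset.univ) z) =
        (X.G a).rB (kp a) (RL (X.C a).I) (X.r1 (RL Finset.univ) z) :=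
      Gr.rB_congr _ _ (RI_eq_RL (Cf0.dl_le_b2 h2 ha))
    simp only [Gr.τ, h3]
  · rw [TK, TL, AG4_out hX kp _ _ (e ▸ hy), AG4_out hX _ _ _ hy, e]

theorem measurableSet_act (hX : X.Ok) (kp : κ → Finset (Ix 1 → ℤ)) :
    MeasurableSet (X.act kp) := by
  have mW : Measurable X.W := Cf0.measurable_wt hX.toOk _ _
  have e : X.act kp = ⋃ K1 : ℕ, ⋃ K2 : ℕ, ({z | X.W z < 2 ^ K1} ∩ {z | X.W z < 2 ^ K2} ∩
      (fderiv ℝ (X.TK kp K1 K2) ⁻¹' {0})ᶜ) := by
    ext z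
    simp only [act, mem_ofPred_eq, mem_iUnion, mem_inter_iff, mem_compl_iff, mem_preimage,
      mem_singleton_iff, and_assoc]
  rw [e]
  refine MeasurableSet.iUnion fun K1 => MeasurableSet.iUnion fun K2 => ?_
  exact ((measurableSet_lt mW measurable_const).inter
    (measurableSet_lt mW measurable_const)).inter
    ((measurable_fderiv ℝ _) (isClosed_singleton.measurableSet)).compl

theorem lintegral_nu (hX : X.Ok) (kp : κ → Finset (Ix 1 → ℤ)) (p : ℝ) {Φ : V 1 → ℝ≥0∞}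
    (hΦ : Measurable Φ) : ∫⁻ y, Φ y ∂X.nu kp p =
      ∑ q, ∫⁻ z in X.Qc q 1 ∩ X.act kp, Φ (X.TL kp z) * X.W z ^ p := by
  have mW : Measurable X.W := Cf0.measurable_wt hX.toOk _ _
  have mT := measurable_TL hX kp
  rw [nu, lintegral_finsetSum_measure]
  refine Finset.sum_congr rfl fun q _ => ?_
  rw [lintegral_map hΦ mT, lintegral_withDensity_eq_lintegral_mul _ (mW.pow_const p)
    (g := fun z => Φ (X.TL kp z)) (hΦ.comp mT)]
  exact lintegral_congr fun z => mul_comm _ _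

theorem acm_nu (hX : X.Ok) (kp : κ → Finset (Ix 1 → ℤ)) (p : ℝ) : Acm (X.nu kp p) := by
  intro a b hab N hN
  have mT := measurable_TL hX kp
  have hc : Continuous (seg a b) := by
    unfold seg
    fun_prop
  have hi : Injective (seg a b) := fun t t' h =>
    smul_left_injective ℝ (sub_ne_zero.2 hab.symm) (add_left_cancel h)
  have mS : MeasurableSet (seg a b '' toMeasurable volume N) :=
    (measurableSet_toMeasurable _ _).image_of_continuousOn_injOn hc.continuousOn hi.injOn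
  have hN' : volume (toMeasurable volume N) = 0 := by rw [measure_toMeasurable, hN]
  refine measure_mono_null (image_mono (subset_toMeasurable volume N)) ?_
  rw [nu, Measure.finsetSum_apply]
  refine Finset.sum_eq_zero fun q _ => ?_
  rw [Measure.map_apply mT mS]
  refine withDensity_absolutelyContinuous _ _ ?_
  rw [Measure.restrict_apply (mT mS)]
  have h : ∀ᵐ z, ∀ K1 K2 : ℕ, X.TK kp K1 K2 z ∈ seg a b '' toMeasurable volume N →
      fderiv ℝ (X.TK kp K1 K2) z = 0 :=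
    ae_all_iff.2 fun K1 => ae_all_iff.2 fun K2 => acm_tp (cc_TK hX kp K1 K2).tp a b hN'
  refine measure_mono_null ?_ (ae_iff.1 h)
  rintro z ⟨hz, -, K1, K2, h1, h2, h3⟩ k
  exact h3 (k K1 K2 (by rw [TK_eq_TL hX kp h1 h2]; exact hz))

theorem nu_fin (hX : X.Ok) (kp : κ → Finset (Ix 1 → ℤ)) {p r : ℝ} (hr : p ≤ r)
    (hW : ∀ q, ∫⁻ z in X.Qc q 1, X.W z ^ r ≠ ⊤) : X.nu kp p univ ≠ ⊤ := by
  rw [← lintegral_one, lintegral_nu hX kp p measurable_const]
  refine ENNReal.sum_ne_top.2 fun q _ => ne_top_of_le_ne_top (hW q) ?_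
  refine (lintegral_mono_set inter_subset_left).trans (lintegral_mono fun z => ?_)
  rw [one_mul]
  exact ENNReal.rpow_le_rpow_of_exponent_le (one_le_two.trans (Cf0.two_le_wt _ _ _ z)) hr

theorem nu_int (hX : X.Ok) (hk : X.Kp kp) {p r : ℝ} (hp : 1 ≤ p) (hr : p ≤ r)
    (hW : ∀ q, ∫⁻ z in X.Qc q 1, X.W z ^ r ≠ ⊤) {D : V 1 → V 1 →L[ℝ] V 1} (hD : Measurable D)
    (hE : ∀ q, X.E1 p (fun q y => ‖D y - (X.ty q).A‖ₑ ^ p) q ≠ ⊤) :
    ∫⁻ y, ‖D y‖ₑ ^ p ∂X.nu kp p ≠ ⊤ := by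
  have mW : Measurable X.W := Cf0.measurable_wt hX.toOk _ _
  have hp0 : 0 ≤ p := by linarith
  rw [lintegral_nu hX kp p (hD.enorm.pow_const p)]
  refine ENNReal.sum_ne_top.2 fun q _ => ?_
  have h2 : (2 : ℝ≥0∞) ^ p ≠ ⊤ := ENNReal.rpow_ne_top_of_nonneg hp0 (by simp)
  have hA : ‖(X.ty q).A‖ₑ ^ p ≠ ⊤ := ENNReal.rpow_ne_top_of_nonneg hp0 enorm_ne_top
  have hb : ∫⁻ z in X.Qc q 1 ∩ X.act kp, ‖D (X.TL kp z)‖ₑ ^ p * X.W z ^ p ≤
      ∫⁻ z in X.Qc q 1, 2 ^ p * ((‖D (X.TL X.F z) - (X.ty q).A‖ₑ ^ p +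
        ‖D (X.TL (fun _ => ∅) z) - (X.ty q).A‖ₑ ^ p) * X.W z ^ p +
          ‖(X.ty q).A‖ₑ ^ p * X.W z ^ r) := by
    refine le_trans (setLIntegral_mono' (measurableSet_closedBall.inter
      (measurableSet_act hX kp)) fun z hz => ?_) (lintegral_mono_set inter_subset_left)
    obtain ⟨-, K1, K2, h1, h2, -⟩ := hz
    have h3 := ACo_rpow hp (D (X.TL kp z)) (X.ty q).A 0
    rw [sub_zero, sub_zero] at h3
    have h4 : ‖D (X.TL kp z) - (X.ty q).A‖ₑ ^ p ≤ ‖D (X.TL X.F z) - (X.ty q).A‖ₑ ^ p +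
        ‖D (X.TL (fun _ => ∅) z) - (X.ty q).A‖ₑ ^ p := by
      rw [← TK_eq_TL hX kp h1 h2]
      rcases TK_dich hX hk h1 h2 with k | k <;> rw [k]
      · exact le_self_add
      · exact le_add_self
    have h5 : X.W z ^ p ≤ X.W z ^ r :=
      ENNReal.rpow_le_rpow_of_exponent_le (one_le_two.trans (Cf0.two_le_wt _ _ _ z)) hr
    calc ‖D (X.TL kp z)‖ₑ ^ p * X.W z ^ p
        ≤ 2 ^ p * (‖D (X.TL kp z) - (X.ty q).A‖ₑ ^ p + ‖(X.ty q).A‖ₑ ^ p) * X.W z ^ p := by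
          gcongr
      _ = 2 ^ p * (‖D (X.TL kp z) - (X.ty q).A‖ₑ ^ p * X.W z ^ p +
          ‖(X.ty q).A‖ₑ ^ p * X.W z ^ p) := by ring
      _ ≤ _ := by gcongr
  refine ne_top_of_le_ne_top ?_ hb
  rw [lintegral_const_mul' _ _ h2, lintegral_add_right _ ((mW.pow_const r).const_mul _),
    lintegral_const_mul' _ _ hA]
  exact ENNReal.mul_ne_top h2 (ENNReal.add_ne_top.2 ⟨hE q, ENNReal.mul_ne_top hA (hW q)⟩)

end Cfg

end BEp
end
end

-- merged part: Pool.Agent.Work.MP_f0515e_an.D3.NEn1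
section
/-! TASK NEn1. Pointwise bounds for the approximating map.
Plan. Copy pw_der and pw_sup (Pos/AEn1). Main case of pw_der3 (`W < 2 ^ K1`, `W < 2 ^ K2`, `y = TK z = TL kp z`), bound for `D (G ∘ T) - A ∘ DR`:
zero if `fderiv T z = 0` (ae_zero) or `y ∈ Q i 8` (ae_bound with `g = aff`, as there; Q_sub, T_cube). Otherwise `z ∈ act`, `y ∉ N` (ae_fin), `y ∈ Z` (TK_land), and the field
`edge` gives an edge: ae_tan (ae_ball_iff over the finite `Ed`) with ll_TK and TK_dich in the first case; in the second case ll_TK_box gives `cF Λ 4 Λ ^ 3 W`, and `z` is not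
sharp by sharp_land. `A ∘ DR - A` as there; `5 Λ ^ 3 + 4 cF Λ ^ 4 ≤ 5 Λ ^ 3 (2 cF Λ)`.
pw_sup3: `f` is bounded on `Qc q 1` by `ho` and the centre. -/

open Set Metric Filter Topology Function BEv MeasureTheory
open scoped NNReal ENNReal

noncomputable section
namespace BEp

theorem NEn1_Q {B : Box 1} {s ρ ρ' : ℝ} (hs : 0 ≤ s) (h : ρ ≤ ρ') : B.Q s ρ ⊆ B.Q s ρ' :=
  fun _ hx => ⟨hx.1, fun l hl => (hx.2 l hl).trans
    (mul_le_mul_of_nonneg_left (add_le_add le_rfl h) hs)⟩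

variable {ι κ : Type} [Fintype ι] [Fintype κ]

namespace Cfg
variable {X : Cfg 1 ι κ} {kp : κ → Finset (Ix 1 → ℤ)} {f G : V 1 → V 1} {φ : ι → V 1 → ℝ}
  {ψ : V 1 → ℝ} {cF ϑ : ℝ}

theorem pw_der3 (hX : X.Ok) (hk : X.Kp kp) (hG : X.Gd3 kp f G φ ψ cF ϑ) :
    ∃ c1 : ℝ≥0∞, c1 ≠ ⊤ ∧ ∀ K2, X.K0 ≤ K2 → ∃ c0 : ℝ≥0∞, c0 ≠ ⊤ ∧ ∀ K1 q, ∀ᵐ z, z ∈ X.Qc q 1 →
      X.W z ≠ ⊤ → ‖fderiv ℝ (fun x => G (X.TK kp K1 K2 x)) z - (X.ty q).A‖ₑ ≤
        indicator {y | (2 : ℝ≥0∞) ^ K1 ≤ X.W y} (fun y => c0 * X.W y) z +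
        indicator {y | (2 : ℝ≥0∞) ^ K2 ≤ X.W y} (fun y => c1 * X.W y) z +
        ENNReal.ofReal (φ q (X.TL X.F z) + φ q (X.TL (fun _ => ∅) z) +
            indicator (X.act kp) (fun y => ψ (X.TL kp y)) z) *
          ENNReal.ofReal (4 * (X.ty q).Λ ^ 4 * 2 ^ (X.ty q).N) * X.W z +
        indicator (X.sharp kp)ᶜ
          (fun y => ENNReal.ofReal (5 * ((X.ty q).Λ ^ 3 * (2 * cF * (X.ty q).Λ))) * X.W y) z := by
  obtain ⟨L, hL⟩ := hG.lipG
  obtain ⟨Ed, N, fE, fN, hne, hE⟩ := hG.edge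
  have hΛ : ∀ q, 0 ≤ (X.ty q).Λ := fun q => zero_le_one.trans (hX.ty q).Λ1
  refine ⟨ENNReal.ofReal (∑ q, (L * (4 * (X.ty q).Λ ^ 4 * 2 ^ (X.ty q).N) + (X.ty q).Λ)),
    ENNReal.ofReal_ne_top, fun K2 hK => ?_⟩
  obtain ⟨L0, hL0, hT0⟩ := ll_TK0 hX kp K2
  refine ⟨ENNReal.ofReal (L * L0 + ∑ q, (X.ty q).Λ), ENNReal.ofReal_ne_top, fun K1 q => ?_⟩
  have tT := (cc_TK hX kp K1 K2).tp
  have hT := tT.lip
  have hR := (tp_RK hX kp K1 K2).lip
  filter_upwards [ae_zero hG.lipG hT hR (X.ty q).A, ae_all_iff.2 fun i : Bx kp =>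
    ae_bound hG.lipG (AEn1_aff (X.box f kp i)).lip hT hR (X.ty q).A, ae_fin tT fN,
    (ae_ball_iff fE.countable).2 fun e he => ae_tan hG.lipG hT hR (X.ty q).A (hne e he)]
    with z a1 a2 a3 a4 hz hW
  have hw : 1 ≤ (X.W z).toReal := by
    simpa using ENNReal.toReal_mono hW (one_le_two.trans (X.two_le_wt X.s X.ω z))
  by_cases h1 : (2 : ℝ≥0∞) ^ K1 ≤ X.W z
  · refine le_add_right (le_add_right (le_add_right ?_))
    rw [indicator_of_mem (show z ∈ {y | (2 : ℝ≥0∞) ^ K1 ≤ X.W y} from h1)]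
    exact AEn1_lip hL (hT0 K1 z hW) hL0 hW hw (hX.ty q).nA (add_le_add le_rfl
      (Finset.single_le_sum (fun q _ => hΛ q) (Finset.mem_univ q)))
  rw [not_le] at h1
  obtain ⟨l1, l2⟩ := ll_TK hX kp K2 hz h1
  have hq := hΛ q
  by_cases h2 : (2 : ℝ≥0∞) ^ K2 ≤ X.W z
  · refine le_add_right (le_add_right (le_add_left ?_))
    rw [indicator_of_mem (show z ∈ {y | (2 : ℝ≥0∞) ^ K2 ≤ X.W y} from h2)]
    refine AEn1_lip hL l1 (by positivity) hW hw (hX.ty q).nA (Finset.single_le_sum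
      (f := fun q => L * (4 * (X.ty q).Λ ^ 4 * 2 ^ (X.ty q).N) + (X.ty q).Λ)
      (fun q _ => ?_) (Finset.mem_univ q))
    have := hΛ q
    positivity
  rw [not_le] at h2
  have p1 := hG.φ0 q (X.TL X.F z)
  have p2 := hG.φ0 q (X.TL (fun _ => ∅) z)
  have p3 : 0 ≤ indicator (X.act kp) (fun y => ψ (X.TL kp y)) z :=
    indicator_nonneg (fun y _ => hG.ψ0 _) z
  have p4 := hG.cF1
  have p5 := (hX.ty q).Λ1
  have hs0 := hX.s0.le
  have AT := A_T hX kp K1 K2 hz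
  have c1 : ‖fderiv ℝ (fun x => G (X.TK kp K1 K2 x)) z -
      (X.ty q).A.comp (fderiv ℝ (X.RK kp K1 K2) z)‖ ≤
      (φ q (X.TL X.F z) + φ q (X.TL (fun _ => ∅) z) +
        indicator (X.act kp) (fun y => ψ (X.TL kp y)) z) *
        (4 * (X.ty q).Λ ^ 4 * 2 ^ (X.ty q).N * (X.W z).toReal) ∨ (z ∉ X.sharp kp ∧
      ‖fderiv ℝ (fun x => G (X.TK kp K1 K2 x)) z -
        (X.ty q).A.comp (fderiv ℝ (X.RK kp K1 K2) z)‖ ≤
        cF * (X.ty q).Λ * (4 * (X.ty q).Λ ^ 3 * (X.W z).toReal)) := by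
    by_cases d0 : fderiv ℝ (X.TK kp K1 K2) z = 0
    · left
      rw [a1 d0 AT, sub_self, norm_zero]
      positivity
    by_cases d1 : ∃ i : Bx kp, X.TK kp K1 K2 z ∈ (X.box f kp i).Q X.s 8
    · left
      obtain ⟨i, h⟩ := d1
      have e : X.q i.1.1 = q := T_cube hX kp _ _ hz (Q_sub hX hk f i (by norm_num) h)
      refine (a2 i (hG.onQ i h) AT 0 _ le_rfl (by positivity)
        (LL.of_forall (fun y y' => ?_) _) l1).trans
        (mul_le_mul_of_nonneg_right (by positivity) (by positivity))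
      have e' : (X.box f kp i).A = (X.ty q).A := e ▸ rfl
      simp only [Box.aff, e', map_sub, zero_mul, norm_le_zero_iff]
      abel
    have d2 : ∀ i : Bx kp, X.TK kp K1 K2 z ∉ (X.box f kp i).Q X.s 8 := fun i h => d1 ⟨i, h⟩
    have d3 : ∀ i : Bx kp, X.TK kp K1 K2 z ∉ (X.box f kp i).Q X.s 4 := fun i h =>
      d2 i (NEn1_Q hs0 (by norm_num) h)
    have hZ : X.TK kp K1 K2 z ∈ X.Z :=
      (TK_land hX hk f hK hz h1 h2).resolve_right fun ⟨i, h⟩ => d3 i h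
    obtain ⟨e, he, ht, h⟩ := hE q _ ⟨hZ, T_mem hX kp _ _ hz⟩
      (fun a ha => T_cube hX kp _ _ hz ha) (fun h => d0 (a3 h)) d2
    rcases h with h | ⟨i, hi, h⟩
    · left
      have q1 := hG.φ0 q (X.TK kp K1 K2 z)
      have q2 := hG.ψ0 (X.TK kp K1 K2 z)
      refine (a4 e he ht AT _ _ (by positivity) (by positivity) h l1).trans
        (mul_le_mul_of_nonneg_right ?_ (by positivity))
      rw [indicator_of_mem (show z ∈ X.act kp from ⟨K1, K2, h1, h2, d0⟩),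
        ← TK_eq_TL hX kp h1 h2]
      refine add_le_add ?_ le_rfl
      rcases TK_dich hX hk h1 h2 with e | e <;> rw [e] <;> linarith only [p2, p1]
    · right
      refine ⟨fun hs => ?_, a4 e he ht AT _ _ (by positivity) (by positivity) h
        (ll_TK_box hX hk f hK hz h1 hi)⟩
      obtain ⟨j, hj⟩ := sharp_land hX hk f K1 K2 hs hi
      exact d3 j hj
  have c2 : ‖(X.ty q).A.comp (fderiv ℝ (X.RK kp K1 K2) z) - (X.ty q).A‖ ≤
      5 * (X.ty q).Λ ^ 3 * (X.W z).toReal := by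
    refine (norm_sub_le _ _).trans ?_
    have b1 := ((X.ty q).A.opNorm_comp_le _).trans (mul_le_mul (hX.ty q).nA
      (ll_norm_fderiv_le l2 (by positivity)) (norm_nonneg _) hq)
    have b2 := (hX.ty q).nA
    have b3 : (X.ty q).Λ ≤ (X.ty q).Λ ^ 3 := le_self_pow₀ (hX.ty q).Λ1 (by norm_num)
    have b4 := le_mul_of_one_le_right (pow_nonneg hq 3) hw
    linarith only [b1, b2, b3, b4]
  have c3 : (X.ty q).Λ ^ 3 * (X.W z).toReal ≤
      cF * (X.ty q).Λ * ((X.ty q).Λ ^ 3 * (X.W z).toReal) :=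
    le_mul_of_one_le_left (by positivity) (one_le_mul_of_one_le_of_one_le p4 p5)
  have c4 : 0 ≤ (X.ty q).Λ ^ 3 * (X.W z).toReal := by positivity
  rcases c1 with c1 | ⟨hs, c1⟩
  · refine (AEn1_tri _ ((X.ty q).A.comp (fderiv ℝ (X.RK kp K1 K2) z)) _).trans
      (add_le_add (le_add_left ?_) ?_)
    · rw [← ENNReal.ofReal_mul (by positivity)]
      exact AEn1_en hW (by positivity) (c1.trans_eq (mul_assoc _ _ _).symm)
    · by_cases hs : z ∈ X.sharp kp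
      · have e : X.RK kp K1 K2 =ᶠ[𝓝 z] id :=
          eventually_of_mem ((X.isOpen_sharp kp).mem_nhds hs) fun y hy => RK_sharp hX K1 K2 hy
        rw [e.fderiv_eq, fderiv_id, ContinuousLinearMap.comp_id, sub_self, ← ofReal_norm,
          norm_zero, ENNReal.ofReal_zero]
        exact zero_le
      · rw [indicator_of_mem (mem_compl hs)]
        exact AEn1_en hW (by positivity) (by linarith only [c2, c3, c4])
  · refine le_add_left ?_
    rw [indicator_of_mem (mem_compl hs)]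
    refine AEn1_en hW (by positivity) ((norm_sub_le_norm_sub_add_norm_sub _
      ((X.ty q).A.comp (fderiv ℝ (X.RK kp K1 K2) z)) _).trans ?_)
    linarith only [c2, c3, c4, c1]

theorem pw_sup3 (hX : X.Ok) (hk : X.Kp kp) (hG : X.Gd3 kp f G φ ψ cF ϑ)
    {e1 : ℝ} (ho : ∀ q, ∀ x ∈ X.Qc q 3, ∀ y ∈ X.Qc q 3, ‖f x - f y‖ ≤ e1) :
    ∃ c2 : ℝ≥0∞, c2 ≠ ⊤ ∧ ∀ K1 K2, X.K0 ≤ K2 → ∀ q, ∀ z ∈ X.Qc q 1,
      ‖G (X.TK kp K1 K2 z) - f z‖ₑ ≤ ENNReal.ofReal (ϑ + e1) +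
        indicator {y | (2 : ℝ≥0∞) ^ K1 ≤ X.W y} (fun y => c2 * X.W y) z +
        indicator {y | (2 : ℝ≥0∞) ^ K2 ≤ X.W y} (fun y => c2 * X.W y) z := by
  obtain ⟨L, hL⟩ := hG.lipG
  obtain ⟨B1, b1⟩ := X.isCompact_Reg.exists_bound_of_continuousOn hL.continuous.continuousOn
  refine ⟨ENNReal.ofReal (B1 + (e1 + ∑ q, ‖f (X.o q)‖)), ENNReal.ofReal_ne_top,
    fun K1 K2 hK q z hz => ?_⟩
  have hη := hX.η0
  have hT : X.TK kp K1 K2 z ∈ X.Qc q 2 := T_mem hX kp _ _ hz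
  have hz3 : z ∈ X.Qc q 3 := closedBall_subset_closedBall (by linarith only [hη]) hz
  have b2 : ‖f z‖ ≤ e1 + ∑ q, ‖f (X.o q)‖ := by
    have k1 := ho q z hz3 (X.o q) (mem_closedBall_self (by linarith))
    have k2 := Finset.single_le_sum (f := fun q => ‖f (X.o q)‖) (fun _ _ => norm_nonneg _)
      (Finset.mem_univ q)
    linarith [norm_sub_norm_le (f z) (f (X.o q))]
  have h0 : ‖G (X.TK kp K1 K2 z) - f z‖ₑ ≤
      ENNReal.ofReal (B1 + (e1 + ∑ q, ‖f (X.o q)‖)) * X.W z := by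
    refine le_trans ?_ (le_mul_of_one_le_right' (one_le_two.trans (X.two_le_wt X.s X.ω z)))
    rw [← ofReal_norm]
    exact ENNReal.ofReal_le_ofReal ((norm_sub_le _ _).trans (add_le_add
      (b1 _ (mem_iUnion.2 ⟨q, hT⟩)) b2))
  by_cases h1 : (2 : ℝ≥0∞) ^ K1 ≤ X.W z
  · rw [indicator_of_mem (show z ∈ {y | (2 : ℝ≥0∞) ^ K1 ≤ X.W y} from h1)]
    exact le_add_right (le_add_left h0)
  by_cases h2 : (2 : ℝ≥0∞) ^ K2 ≤ X.W z
  · rw [indicator_of_mem (show z ∈ {y | (2 : ℝ≥0∞) ^ K2 ≤ X.W y} from h2)]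
    exact le_add_left h0
  refine le_add_right (le_add_right ?_)
  obtain ⟨y, h3, h4⟩ := hG.sup _ (TK_land hX hk f hK hz (not_le.1 h1) (not_le.1 h2))
  have h5 := ho q y (closedBall_subset_closedBall' (by
    linarith only [hT, mem_closedBall.1 hT]) (mem_closedBall_iff_norm.2 h3)) z hz3
  rw [← ofReal_norm]
  exact ENNReal.ofReal_le_ofReal ((norm_sub_le_norm_sub_add_norm_sub _ (f y) _).trans
    (add_le_add h4 h5))

end Cfg

end BEp
end
end

-- merged part: Pool.Agent.Work.MP_f0515e_an.D3.NEn2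
section
/-! The energy estimate. -/

open Set Metric Filter Topology Function BEv MeasureTheory
open scoped NNReal ENNReal

noncomputable section
namespace BEp

variable {ι κ : Type} [Fintype ι] [Fintype κ]

theorem Cfg.energy3 {X : Cfg 1 ι κ} {kp : κ → Finset (Ix 1 → ℤ)} {f G : V 1 → V 1}
    {φ : ι → V 1 → ℝ} {ψ : V 1 → ℝ} {cF ϑ : ℝ} (hX : X.Ok) (hk : X.Kp kp)
    (hG : X.Gd3 kp f G φ ψ cF ϑ) {p r : ℝ} (hp : 1 ≤ p) (hr : p < r) (hφ : ∀ q, Measurable (φ q))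
    (hψ : Measurable ψ) (hth : ∀ q, 0 < (X.ty q).th) {CW : ℝ≥0∞} (hC : CW ≠ ⊤)
    (hW : ∀ q, ∫⁻ z in X.Qc q 1, X.W z ^ r ≤ CW * ENNReal.ofReal ((2 * X.η) ^ (2 * 1 + 1)))
    {e1 : ℝ} (ho : ∀ q, ∀ x ∈ X.Qc q 3, ∀ y ∈ X.Qc q 3, ‖f x - f y‖ ≤ e1)
    {e' : ℝ≥0∞} (he : e' ≠ 0) :
    ∀ᶠ K2 in atTop, ∀ᶠ K1 in atTop, ∀ q, ∫⁻ z in X.Qc q 1, (‖G (X.TK kp K1 K2 z) - f z‖ₑ ^ p +
        ‖fderiv ℝ (fun x => G (X.TK kp K1 K2 x)) z - (X.ty q).A‖ₑ ^ p) ≤
      e' + ENNReal.ofReal (3 * (ϑ + e1)) ^ p * ENNReal.ofReal ((2 * X.η) ^ (2 * 1 + 1)) +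
        (X.ty q).aT p * (X.E1 p (fun q y => ENNReal.ofReal (φ q y) ^ p) q +
          ∫⁻ z in X.Qc q 1 ∩ X.act kp, ENNReal.ofReal (ψ (X.TL kp z)) ^ p * X.W z ^ p) +
        (X.ty q).aF p cF * (ENNReal.ofReal (X.ty q).th ^ p * volume (X.Qc q 1 \ X.sharp kp) +
          ENNReal.ofReal (X.ty q).th ^ (p - r) *
            (CW * ENNReal.ofReal ((2 * X.η) ^ (2 * 1 + 1)))) := by
  have p0 : 0 < p := by linarith
  have mW : Measurable X.W := Cf0.measurable_wt hX.toOk X.s X.ω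
  have w1 : ∀ z, 1 ≤ X.W z := fun z => one_le_two.trans (Cf0.two_le_wt _ _ _ z)
  have hQ : ∀ q, ∫⁻ z in X.Qc q 1, X.W z ^ r ≠ ⊤ := fun q =>
    ne_top_of_le_ne_top (ENNReal.mul_ne_top hC ENNReal.ofReal_ne_top) (hW q)
  obtain ⟨c1, k1, H1⟩ := Cfg.pw_der3 hX hk hG
  obtain ⟨c2, k2, H2⟩ := Cfg.pw_sup3 hX hk hG ho
  have he2 := (ENNReal.half_pos he).ne'
  filter_upwards [eventually_ge_atTop X.K0, AEn2_tail mW p0 hr hQ k1 k2 he2] with K2 a1 a2
  obtain ⟨c0, k0, H0⟩ := H1 K2 a1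
  filter_upwards [AEn2_tail mW p0 hr hQ k0 k2 he2] with K1 a3 q
  have Λ0 := zero_le_one.trans (hX.toOk.ty q).Λ1
  have mQ : MeasurableSet (X.Qc q 1) := measurableSet_closedBall
  have mS : MeasurableSet (X.sharp kp)ᶜ := (X.isOpen_sharp kp).measurableSet.compl
  have mA := Cfg.measurableSet_act hX kp
  have mt : ∀ K c c', Measurable fun z =>
      (4 : ℝ≥0∞) ^ p * (AEn2_t X.W K c z ^ p + AEn2_t X.W K c' z ^ p) := fun K c c' =>
    (((AEn2_meas mW K c).pow_const p).add ((AEn2_meas mW K c').pow_const p)).const_mul _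
  have mE : Measurable fun z => (ENNReal.ofReal (φ q (X.TL X.F z)) ^ p +
      ENNReal.ofReal (φ q (X.TL (fun _ => ∅) z)) ^ p) * X.W z ^ p :=
    ((((hφ q).comp (Cfg.measurable_TL hX _)).ennreal_ofReal.pow_const p).add
      (((hφ q).comp (Cfg.measurable_TL hX _)).ennreal_ofReal.pow_const p)).mul (mW.pow_const p)
  have mP : Measurable (indicator (X.act kp)
      fun z => ENNReal.ofReal (ψ (X.TL kp z)) ^ p * X.W z ^ p) :=
    (((hψ.comp (Cfg.measurable_TL hX _)).ennreal_ofReal.pow_const p).mul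
      (mW.pow_const p)).indicator mA
  have fin : ∀ᵐ z ∂volume.restrict (X.Qc q 1), X.W z ^ r < ⊤ := ae_lt_top (mW.pow_const r) (hQ q)
  have vol : volume (X.Qc q 1) = ENNReal.ofReal ((2 * X.η) ^ (2 * 1 + 1)) := by
    rw [Cf0.Qc, one_mul, Real.volume_pi_closedBall _ hX.toOk.η0.le, Fintype.card_fin]
  calc _ ≤ ∫⁻ z in X.Qc q 1, (4 ^ p * (AEn2_t X.W K1 c0 z ^ p + AEn2_t X.W K1 c2 z ^ p) +
        (4 ^ p * (AEn2_t X.W K2 c1 z ^ p + AEn2_t X.W K2 c2 z ^ p) +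
        ((X.ty q).aT p * ((ENNReal.ofReal (φ q (X.TL X.F z)) ^ p +
          ENNReal.ofReal (φ q (X.TL (fun _ => ∅) z)) ^ p) * X.W z ^ p +
          indicator (X.act kp) (fun z => ENNReal.ofReal (ψ (X.TL kp z)) ^ p * X.W z ^ p) z) +
        ((X.ty q).aF p cF * indicator (X.sharp kp)ᶜ (fun y => X.W y ^ p) z +
          ENNReal.ofReal (3 * (ϑ + e1)) ^ p)))) := by
        refine lintegral_mono_ae ?_
        filter_upwards [fin, ae_restrict_mem mQ, ae_restrict_of_ae (H0 K1 q)] with z z1 z2 z3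
        obtain ⟨c, hc⟩ : ∃ c, indicator (X.act kp) (fun y => ψ (X.TL kp y)) z = c := ⟨_, rfl⟩
        have hc0 : 0 ≤ c := hc ▸ indicator_nonneg (fun y _ => hG.ψ0 _) z
        have hc1 : indicator (X.act kp) (fun z => ENNReal.ofReal (ψ (X.TL kp z)) ^ p * X.W z ^ p) z
            = ENNReal.ofReal (2 * (c / 2)) ^ p * X.W z ^ p := by
          by_cases h : z ∈ X.act kp <;> simp [← hc, h, p0, mul_div_cancel₀]
        have b1 := (ENNReal.rpow_le_rpow (H2 K1 K2 a1 q z z2) p0.le).trans (AEn2_three _ _ _ p0)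
        have b2 := (ENNReal.rpow_le_rpow ((z3 z2 fun k => by
          rw [k, ENNReal.top_rpow_of_pos (p0.trans hr)] at z1
          exact z1.false).trans (add_le_add_left (add_le_add_right (mul_le_mul_left (mul_le_mul_left
            (ENNReal.ofReal_le_ofReal (show _ ≤ 2 * φ q (X.TL X.F z) +
              2 * φ q (X.TL (fun _ => ∅) z) + c / 2 + c / 2 by
                linarith only [hc, hG, hG.φ0 q (X.TL X.F z), hG.φ0 q (X.TL (fun _ => ∅) z)])) _) _) _) _))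
          p0.le).trans (AEn2_four _ _ _ _ p0.le)
        have b3 := AEn2_mid (a := φ q (X.TL X.F z)) (b := φ q (X.TL (fun _ => ∅) z))
          (L := (X.ty q).Λ ^ 4 * 2 ^ (X.ty q).N) p0 le_rfl le_rfl (by linarith only [hc0] : 0 ≤ c / 2) (w1 z)
        have b4 := AEn2_out (L := (X.ty q).Λ ^ 3 * (2 * cF * (X.ty q).Λ)) p0
          (by have := hG.cF1; positivity) X.W (X.sharp kp)ᶜ z
        have b5 : (3 : ℝ≥0∞) ^ p ≤ 4 ^ p := ENNReal.rpow_le_rpow (by norm_num) p0.le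
        have b6 : ENNReal.ofReal (3 * (ϑ + e1)) ^ p = 3 ^ p * ENNReal.ofReal (ϑ + e1) ^ p := by
          rw [ENNReal.ofReal_mul (by norm_num), ENNReal.ofReal_ofNat,
            ENNReal.mul_rpow_of_nonneg _ _ p0.le]
        rw [← mul_assoc, ← mul_assoc 96] at b3
        rw [← mul_assoc 120, ENNReal.ofReal_mul (p := 120 * _) (by positivity),
          ENNReal.mul_rpow_of_nonneg _ _ p0.le] at b4
        rw [add_assoc, mul_add] at b1
        rw [mul_add, mul_add] at b2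
        refine (add_le_add (b1.trans (add_le_add_right (mul_le_mul_left b5 _) _))
          (b2.trans (add_le_add (add_le_add_right b3 _) b4))).trans (le_of_eq ?_)
        rw [b6, hc1, Typ.aT, Typ.aF, Typ.aR]
        unfold AEn2_t
        ring
    _ ≤ e' / 2 + (e' / 2 + ((X.ty q).aT p * (X.E1 p (fun q y => ENNReal.ofReal (φ q y) ^ p) q +
          ∫⁻ z in X.Qc q 1 ∩ X.act kp, ENNReal.ofReal (ψ (X.TL kp z)) ^ p * X.W z ^ p) +
        ((X.ty q).aF p cF * (ENNReal.ofReal (X.ty q).th ^ p * volume (X.Qc q 1 \ X.sharp kp) +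
          ENNReal.ofReal (X.ty q).th ^ (p - r) *
            (CW * ENNReal.ofReal ((2 * X.η) ^ (2 * 1 + 1)))) +
          ENNReal.ofReal (3 * (ϑ + e1)) ^ p * ENNReal.ofReal ((2 * X.η) ^ (2 * 1 + 1))))) := by
        rw [lintegral_add_left (mt _ _ _), lintegral_add_left (mt _ _ _),
          lintegral_add_left ((mE.fun_add mP).const_mul _),
          lintegral_add_right _ measurable_const, setLIntegral_const, vol,
          lintegral_const_mul _ (mE.fun_add mP), lintegral_add_left mE, lintegral_indicator mA,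
          Measure.restrict_restrict mA, inter_comm,
          lintegral_const_mul _ ((mW.pow_const p).indicator mS), lintegral_indicator mS,
          Measure.restrict_restrict mS, inter_comm _ (X.Qc q 1), ← sdiff_eq]
        have b1 := lintegral_rpow_le mW (hth q) p0.le hr.le
          (sdiff_subset : X.Qc q 1 \ X.sharp kp ⊆ X.Qc q 1)
        exact add_le_add (a3 q) (add_le_add (a2 q) (add_le_add le_rfl
          (add_le_add_left (mul_le_mul_right (b1.trans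
            (add_le_add_right (mul_le_mul_right (hW q) _) _)) _) _)))
    _ = _ := by
        rw [← add_assoc, ENNReal.add_halves]
        ring

end BEp
end
end

-- merged part: Pool.Agent.Work.MP_f0515e_an.D3.NUg
section
/-! TASK NUg. Good translations; good types.
Plan. ae_lines: for one segment `V t = ∫⁻ s in Icc 0 1, v (seg a b s + t)` is measurable (av_meas with `w = 1`) and has finite integral over the ball (av), so
`{V = ⊤} ∩ ball` is null; finite union. For a good `t` apply `UG` to `γ s = seg a b s + t` (tp_seg, `deriv γ s = b - a`); integrability of `D ∘ γ` from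
measurability and the finite lintegral.
exists_typ3: copy of exists_typ (Pos/ATy); `Λ` is fixed first, apply the same choices with `aF p cF` (finite) in place of `aR p`; `σ = min σ0 1`. -/

open Set Metric Filter Topology Function BEv MeasureTheory
open scoped NNReal ENNReal

noncomputable section
namespace BEp

theorem ae_lines {S : Set (Rn 3)} {f0 : Rn 3 → Rn 3} {D : Rn 3 → Rn 3 →L[ℝ] Rn 3}
    {v : Rn 3 → ℝ≥0∞} (hD : Measurable D) (hv : Measurable v) (hi : ∫⁻ x in S, v x ≠ ⊤)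
    (hU : UG S f0 D v) {L : Set (Rn 3 × Rn 3)} (hL : L.Finite) {η : ℝ}
    (h : ∀ e ∈ L, ∀ y ∈ segment ℝ e.1 e.2, ∀ t : Rn 3, ‖t‖ ≤ η → y + t ∈ S) :
    ∃ N : Set (Rn 3), MeasurableSet N ∧ volume N = 0 ∧ ∀ t : Rn 3, ‖t‖ ≤ η → t ∉ N →
      ∀ f : Rn 3 → Rn 3, ∀ e ∈ L, (∀ y ∈ segment ℝ e.1 e.2, f y = f0 (y + t)) →
        ACs f (fun y => D (y + t)) e.1 e.2 := by
  have ms : ∀ e : Rn 3 × Rn 3, Measurable (seg e.1 e.2) := fun e => by unfold seg; fun_prop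
  have mW := fun e => av_meas (m := 1) volume (ms e) (w := fun _ => 1) measurable_const hv (Icc 0 1)
  have hs : ∀ e : Rn 3 × Rn 3, ∀ s ∈ Icc (0 : ℝ) 1, seg e.1 e.2 s ∈ segment ℝ e.1 e.2 :=
    fun e s k => seg_image e.1 e.2 ▸ mem_image_of_mem _ k
  refine ⟨⋃ e ∈ L, {t ∈ closedBall 0 η | ∫⁻ s in Icc 0 1, v (seg e.1 e.2 s + t) * 1 = ⊤},
    hL.measurableSet_biUnion fun e _ =>
      measurableSet_closedBall.inter (mW e (measurableSet_singleton _)),
    (measure_biUnion_null_iff hL.countable).2 fun e he =>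
      measure_eq_top_of_setLIntegral_ne_top (mW e).aemeasurable (ne_top_of_le_ne_top ?_
        (av (m := 1) volume (ms e) measurable_const hv measurableSet_closedBall measurableSet_Icc
          fun s k t ht => h e he _ (hs e s k) t (mem_closedBall_zero_iff.1 ht))),
    fun t ht hN f e he hf => ?_⟩
  · simpa using hi
  obtain ⟨k1, -, k3⟩ := hU (fun s => seg e.1 e.2 s + t) ((tp_seg _ _).add (TP.const t))
    (fun s k => h e he _ (hs e s k) t ht) fun k => hN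
      (mem_biUnion he ⟨mem_closedBall_zero_iff.2 ht, by simpa only [mul_one] using k⟩)
  have hd : ∀ s, deriv (fun s => seg e.1 e.2 s + t) s = e.2 - e.1 := fun s => by
    simpa [seg] using ((((hasDerivAt_id' s).smul_const (e.2 - e.1)).const_add e.1).add_const t).deriv
  refine ⟨⟨(hD.comp ((ms e).add_const t)).aestronglyMeasurable, k1.lt_top⟩, fun s k => ?_⟩
  have := k3 s k
  simp only [hd] at this
  rw [hf _ (hs e s k), hf _ (left_mem_segment _ _ _), this]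
  simp [seg]

/-- Smallness conditions of a type. -/
structure Typ.Small3 (T : Typ 1) (p r cF : ℝ) (CW e0 : ℝ≥0∞) : Prop where
  th0 : 0 < T.th
  u0 : 0 ≤ T.u
  t1 : T.aF p cF * ENNReal.ofReal T.th ^ (p - r) * CW ≤ e0
  t2 : T.aF p cF * ENNReal.ofReal T.th ^ p * ENNReal.ofReal T.u ≤ e0
  t3 : T.aF p cF * ENNReal.ofReal T.th ^ p * ENNReal.ofReal T.fr ≤ e0

theorem Typ.aF_ne_top (T : Typ 1) {p : ℝ} (hp : 0 ≤ p) (cF : ℝ) : T.aF p cF ≠ ⊤ := by
  exact ENNReal.mul_ne_top (ENNReal.rpow_ne_top_of_nonneg hp ENNReal.ofReal_ne_top)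
    (ENNReal.rpow_ne_top_of_nonneg hp ENNReal.ofReal_ne_top)

theorem Typ.aT_ne_zero {T : Typ 1} (hT : T.Ok) (p : ℝ) : T.aT p ≠ 0 := by
  have := hT.Λ1
  exact (ENNReal.rpow_pos (ENNReal.ofReal_pos.2 (by positivity)) ENNReal.ofReal_ne_top).ne'

theorem exists_typ3 {p r : ℝ} (hp : 0 < p) (hr : p < r) (cF : ℝ) {CW e0 : ℝ≥0∞} (hC : CW ≠ ⊤)
    (he : e0 ≠ 0) (A : V 1 →L[ℝ] V 1) :
    ∃ T : Typ 1, T.A = A ∧ T.Ok ∧ T.Pack ∧ T.Small3 p r cF CW e0 := by
  obtain ⟨I, Sh, Λ, σ0, h1, h2, h3, h4, h5, h6, h7, h8, h9, h10⟩ := exists_shear A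
  have fin : ∀ x : ℝ, ENNReal.ofReal x ^ p ≠ ⊤ := fun x =>
    ENNReal.rpow_ne_top_of_nonneg hp.le ENNReal.ofReal_ne_top
  have ha := ENNReal.mul_ne_top (fin (120 * Λ ^ 3)) (fin (2 * cF * Λ))
  have t1 : Tendsto (fun th : ℝ => ENNReal.ofReal th ^ (p - r)) atTop (𝓝 0) := by
    rw [← ENNReal.top_rpow_of_neg (sub_neg.2 hr)]
    exact (ENNReal.continuous_rpow_const.tendsto _).comp ENNReal.tendsto_ofReal_atTop
  obtain ⟨th, k1, k2⟩ := ((ATy_ev t1 (ENNReal.mul_ne_top ha hC) he).and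
    (eventually_gt_atTop 0)).exists
  have hc := ENNReal.mul_ne_top ha (fin th)
  have t2 : Tendsto ENNReal.ofReal (𝓝 0) (𝓝 0) := by
    simpa using ENNReal.continuous_ofReal.tendsto 0
  obtain ⟨u, k3, k4⟩ := ((ATy_ev (t2.mono_left (nhdsWithin_le_nhds (s := Ioi 0))) hc he).and
    self_mem_nhdsWithin).exists
  obtain ⟨γ, g1, g2, g3⟩ := exists_pack h4 k4
  obtain ⟨M, k5, k6⟩ := ((ATy_ev (t2.comp (tendsto_const_div_atTop_nhds_zero_nat
    (11 * (2 * (1 : ℕ) + 1) * 2 ^ (2 * 1 + 1) : ℝ))) hc he).and (eventually_ge_atTop 9)).exists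
  refine ⟨⟨A, I, Sh, Λ, γ, ⌈γ⁻¹⌉₊, M, min σ0 1, th, u⟩, rfl, ⟨h1, h2, h3, h4, h5, h6, h7, h8, g1,
    g2, ?_, k6, lt_min h9 one_pos, min_le_right _ _, fun z => le_trans ?_ (h10 z)⟩,
    g3 _ rfl rfl rfl, k2, le_of_lt k4, (mul_right_comm _ _ _).trans_le k1, k3, k5⟩
  · exact (mul_inv_cancel₀ g1.ne').ge.trans (mul_le_mul_of_nonneg_left (Nat.le_ceil _) g1.le)
  · exact mul_le_mul_of_nonneg_right (min_le_left _ _) (norm_nonneg _)

end BEp
end
end

-- merged part: Pool.Agent.Work.MP_f0515e_an.D3.NSt2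
section
/-! TASK NSt2. Sum of the energies over the cubes.
Plan. NSt2_cell: as ASt2_cell (Pos/ASt2); Gr.ns_cell with the set `Y2 = {y2 | ∃ y ∈ Y, ‖y - y2‖ ≤ ρ} ∪ Y' a` and the radius `ρ'`; a centre `ρ'`-far from `Y2` is not in
`Y2` (`0 < ρ'`), so it is `ρ`-far from `Y`; `Wd Y2 ρ' ⊆ Wd Y ρ ∪ Wd (Y' a) ρ'` since `2 ρ' ≤ ρ`.
stage_G3: as the end of Cfg.stage_G: energy3 with `e' = e0 / (card ι + 1)`, Cfg.ns_cube and a copy of ASt2_cube with `aF`; the sum of the integrals of `ψ` is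
lintegral_nu, each term being at most the sum; `ofReal ‖x‖ = ‖x‖ₑ` (ofReal_norm). -/

open Set Metric Filter Topology Function BEv MeasureTheory
open scoped NNReal ENNReal

noncomputable section
namespace BEp

variable {ι κ : Type} [Fintype ι] [Fintype κ]

open Classical in
/-- The kept cubes which are far from the exceptional sets. -/
def Cfg.kp' (X : Cfg 1 ι κ) (Y' : κ → Set (V 1)) (ρ' : ℝ) (kp0 : κ → Finset (Ix 1 → ℤ)) (a : κ) :
    Finset (Ix 1 → ℤ) :=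
  (kp0 a).filter fun b => b ∈ X.cand a ∧ ∀ y ∈ Y' a, ρ' < ‖y - (X.G a).cb b‖

open Classical in
theorem NSt2_cell {X : Cfg 1 ι κ} (hX : X.Ok) {f : V 1 → V 1} {kp0 : κ → Finset (Ix 1 → ℤ)}
    (hK : ∀ a, (X.G a).Kept f (X.F a) (kp0 a)) (Y' : κ → Set (V 1)) {ρ' : ℝ} (h0 : 0 < ρ')
    (h1 : ρ' ≤ X.ρ / 2) (h2 : ∀ a, 64 * (X.C a).M * X.s ≤ ρ') (a : κ) :
    volume ((X.G a).opn 3 \ (X.G a).sharp (X.kp' Y' ρ' kp0 a)) ≤
      ENNReal.ofReal ((X.ty (X.q a)).fr * (2 * X.h a) ^ (2 * 1 + 1)) +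
        ((if 1 < (X.C a).I.card then
            volume ((X.C a).Wd X.Y X.ρ) + volume ((X.C a).Wd (Y' a) ρ') else 0) +
          if 1 < (X.C a).I.card then ((X.F a \ kp0 a).card : ℝ≥0∞) * (X.G a).col else 0) := by
  by_cases hm : 1 < (X.C a).I.card
  · rw [if_pos hm, if_pos hm, ← add_assoc]
    refine (Gr.ns_cell (hX.gok a) (hX.hF a) (kp0 := kp0 a)
      (Y := {y2 | ∃ y ∈ X.Y, ‖y - y2‖ ≤ X.ρ} ∪ Y' a) (ρ := ρ') ?_ fun b hb k1 k2 =>
        Finset.mem_filter.2 ⟨hb, ⟨(hX.hF a b).1 ((hK a).sub hb), hm, k1, fun y hy => ?_⟩,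
          fun y hy => k2 y (Or.inr hy)⟩).trans ?_
    · have k1 := h2 a
      have k2 : 0 ≤ ((X.C a).M : ℝ) * X.s := mul_nonneg (Nat.cast_nonneg _) hX.s0.le
      change 8 * ((X.C a).M : ℝ) * X.s ≤ ρ'
      linarith only [h0, k1]
    · refine add_le_add (add_le_add le_rfl
        ((measure_mono ?_).trans (measure_union_le _ _))) le_rfl
      rintro z ⟨hz, y2, ⟨y, hy, k1⟩ | hy, k2⟩
      · refine Or.inl ⟨hz, y, hy, ?_⟩
        have k3 := norm_sub_le_norm_sub_add_norm_sub y y2 ((X.C a).π z)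
        have k4 : ‖y2 - (X.C a).π z‖ ≤ 2 * ρ' := k2
        linarith only [h1, k1, k3, k4]
      · exact Or.inr ⟨hz, y2, hy, k2⟩
    · by_contra c
      have := k2 _ (Or.inl ⟨y, hy, not_lt.1 c⟩)
      rw [sub_self, norm_zero] at this
      exact h0.not_gt this
  · rw [Gr.ns_low (G := X.G a) (not_lt.1 hm), measure_empty]
    exact zero_le

open Classical in
theorem NSt2_cube {X : Cfg 1 ι κ} (hX : X.Ok) {p r cF : ℝ} {CW e0 : ℝ≥0∞}
    (hS : ∀ q, (X.ty q).Small3 p r cF CW e0) {kp : κ → Finset (Ix 1 → ℤ)} {D : κ → ℝ≥0∞}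
    (hD : ∀ a, volume ((X.G a).opn 3 \ (X.G a).sharp (kp a)) ≤
      ENNReal.ofReal ((X.ty (X.q a)).fr * (2 * X.h a) ^ (2 * 1 + 1)) + D a) (q : ι) :
    (X.ty q).aF p cF * ENNReal.ofReal (X.ty q).th ^ p * volume (X.Qc q 1 \ X.sharp kp) ≤
      2 * e0 * ENNReal.ofReal ((2 * X.η) ^ (2 * 1 + 1)) +
        ∑ a ∈ Finset.univ.filter (fun a => X.q a = q),
          (X.C a).aF p cF * ENNReal.ofReal (X.C a).th ^ p * D a := by
  have hfr : 0 ≤ (X.ty q).fr := by unfold Typ.fr; positivity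
  have h1 : ∑ a ∈ Finset.univ.filter (fun a => X.q a = q),
      volume ((X.G a).opn 3 \ (X.G a).sharp (kp a)) ≤
      ENNReal.ofReal (X.ty q).fr * ENNReal.ofReal ((2 * X.η) ^ (2 * 1 + 1)) +
        ∑ a ∈ Finset.univ.filter (fun a => X.q a = q), D a := by
    refine (Finset.sum_le_sum fun a _ => hD a).trans ?_
    rw [Finset.sum_add_distrib]
    refine add_le_add ?_ le_rfl
    rw [Finset.sum_congr rfl (g := fun a => ENNReal.ofReal ((X.ty q).fr * (2 * X.h a) ^ (2 * 1 + 1)))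
      (fun a ha => by rw [(Finset.mem_filter.1 ha).2]), ← ENNReal.ofReal_mul hfr,
      ← ENNReal.ofReal_sum_of_nonneg fun a _ => by have := hX.h0 a; positivity]
    refine ENNReal.ofReal_le_ofReal ?_
    rw [← Finset.mul_sum]
    refine mul_le_mul_of_nonneg_left ?_ hfr
    simp only [mul_pow]
    rw [← Finset.mul_sum]
    exact mul_le_mul_of_nonneg_left (hX.sum q) (by positivity)
  have h2 := (Cfg.ns_cube hX kp q).trans (add_le_add le_rfl h1)
  rw [ENNReal.ofReal_mul (hS q).u0] at h2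
  have h3 : ∑ a ∈ Finset.univ.filter (fun a => X.q a = q),
      (X.C a).aF p cF * ENNReal.ofReal (X.C a).th ^ p * D a =
      (X.ty q).aF p cF * ENNReal.ofReal (X.ty q).th ^ p *
        ∑ a ∈ Finset.univ.filter (fun a => X.q a = q), D a := by
    rw [Finset.mul_sum]
    refine Finset.sum_congr rfl fun a ha => ?_
    rw [← (Finset.mem_filter.1 ha).2]
    rfl
  rw [h3]
  refine (mul_le_mul_right h2 _).trans ?_
  rw [mul_add, mul_add, ← add_assoc, two_mul e0, add_mul, ← mul_assoc, ← mul_assoc]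
  exact add_le_add (add_le_add (mul_le_mul_left (hS q).t2 _) (mul_le_mul_left (hS q).t3 _)) le_rfl

open Classical in
theorem Cfg.stage_G3 {X : Cfg 1 ι κ} (hX : X.Ok) {p r cF : ℝ} (hp : 1 ≤ p) (hr : p < r)
    {CW e0 : ℝ≥0∞} (hC : CW ≠ ⊤) (he : e0 ≠ 0) (hS : ∀ q, (X.ty q).Small3 p r cF CW e0)
    (hW : ∀ q, ∫⁻ z in X.Qc q 1, X.W z ^ r ≤ CW * ENNReal.ofReal ((2 * X.η) ^ (2 * 1 + 1)))
    {Y' : κ → Set (V 1)} {ρ' : ℝ} (h0 : 0 < ρ') (h1 : ρ' ≤ X.ρ / 2)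
    (h2 : ∀ a, 64 * (X.C a).M * X.s ≤ ρ')
    (hd : ∑ a, (X.C a).aF p cF * ENNReal.ofReal (X.C a).th ^ p * (if 1 < (X.C a).I.card then
      volume ((X.C a).Wd X.Y X.ρ) + volume ((X.C a).Wd (Y' a) ρ') else 0) ≤ e0)
    {f : V 1 → V 1} {kp0 : κ → Finset (Ix 1 → ℤ)} (hK : ∀ a, (X.G a).Kept f (X.F a) (kp0 a))
    {D : V 1 → V 1 →L[ℝ] V 1} (hD : Measurable D) {G : V 1 → V 1} {ψ : V 1 → ℝ} {ϑ : ℝ}
    (hG : X.Gd3 (X.kp' Y' ρ' kp0) f G (fun q y => ‖D y - (X.ty q).A‖) ψ cF ϑ) (hψ : Measurable ψ)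
    (hi : (∑ q, (X.ty q).aT p) *
      ∫⁻ y, ENNReal.ofReal (ψ y) ^ p ∂X.nu (X.kp' Y' ρ' kp0) p ≤ e0)
    {e1 : ℝ} (ho : ∀ q, ∀ x ∈ X.Qc q 3, ∀ y ∈ X.Qc q 3, ‖f x - f y‖ ≤ e1) {c : ℝ≥0∞}
    (hE : ∑ q, (X.ty q).aT p * X.E1 p (fun q y => ‖D y - (X.ty q).A‖ₑ ^ p) q +
      ∑ a, (X.C a).aF p cF * ENNReal.ofReal (X.C a).th ^ p * (if 1 < (X.C a).I.card then
        ((X.F a \ kp0 a).card : ℝ≥0∞) * (X.G a).col else 0) ≤ c) :
    ∀ᶠ K2 in atTop, ∀ᶠ K1 in atTop, ∑ q, ∫⁻ z in X.Qc q 1,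
      (‖G (X.TK (X.kp' Y' ρ' kp0) K1 K2 z) - f z‖ₑ ^ p +
        ‖fderiv ℝ (fun x => G (X.TK (X.kp' Y' ρ' kp0) K1 K2 x)) z - (X.ty q).A‖ₑ ^ p) ≤
      3 * e0 + c + Fintype.card ι * ENNReal.ofReal ((2 * X.η) ^ (2 * 1 + 1)) *
        (ENNReal.ofReal (3 * (ϑ + e1)) ^ p + 3 * e0) := by
  set kp := X.kp' Y' ρ' kp0 with hkp
  have hk : X.Kp kp := fun a b hb => (Finset.mem_filter.1 hb).2.1
  have hc1 : (Fintype.card ι : ℝ≥0∞) + 1 ≠ ⊤ := by simp
  have hen := Cfg.energy3 hX hk hG hp hr (fun q => (hD.sub measurable_const).norm) hψ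
    (fun q => (hS q).th0) hC hW ho (e' := e0 / (Fintype.card ι + 1)) (ENNReal.div_pos he hc1).ne'
  have hcu := NSt2_cube hX hS (NSt2_cell hX hK Y' h0 h1 h2)
  rw [Cfg.lintegral_nu hX kp p (hψ.ennreal_ofReal.pow_const p)] at hi
  refine hen.mono fun K2 hen => hen.mono fun K1 hen => ?_
  simp only [ofReal_norm] at hen
  set Vo := ENNReal.ofReal ((2 * X.η) ^ (2 * 1 + 1)) with hVo
  set Φ : ι → V 1 → ℝ≥0∞ := fun q y => ‖D y - (X.ty q).A‖ₑ ^ p with hΦ
  set I : ι → ℝ≥0∞ := fun q =>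
    ∫⁻ z in X.Qc q 1 ∩ X.act kp, ENNReal.ofReal (ψ (X.TL kp z)) ^ p * X.W z ^ p with hI
  set D1 : κ → ℝ≥0∞ := fun a => if 1 < (X.C a).I.card then
    volume ((X.C a).Wd X.Y X.ρ) + volume ((X.C a).Wd (Y' a) ρ') else 0 with hD1
  set D2 : κ → ℝ≥0∞ := fun a => if 1 < (X.C a).I.card then
    ((X.F a \ kp0 a).card : ℝ≥0∞) * (X.G a).col else 0 with hD2
  have hq : ∀ q, ∫⁻ z in X.Qc q 1, (‖G (X.TK kp K1 K2 z) - f z‖ₑ ^ p +
      ‖fderiv ℝ (fun x => G (X.TK kp K1 K2 x)) z - (X.ty q).A‖ₑ ^ p) ≤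
      e0 / (Fintype.card ι + 1) + Vo * (ENNReal.ofReal (3 * (ϑ + e1)) ^ p + 3 * e0) +
        (X.ty q).aT p * X.E1 p Φ q + (∑ q, (X.ty q).aT p) * I q +
          ∑ a ∈ Finset.univ.filter (fun a => X.q a = q),
            (X.C a).aF p cF * ENNReal.ofReal (X.C a).th ^ p * (D1 a + D2 a) := by
    intro q
    have a1 := mul_le_mul_left (hS q).t1 Vo
    have a4 : (X.ty q).aT p * I q ≤ (∑ q, (X.ty q).aT p) * I q := mul_le_mul_left
      (Finset.single_le_sum (f := fun q => (X.ty q).aT p) (fun _ _ => zero_le)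
        (Finset.mem_univ q)) _
    have a2 := hcu q
    calc _ ≤ _ := hen q
      _ = e0 / (Fintype.card ι + 1) + ENNReal.ofReal (3 * (ϑ + e1)) ^ p * Vo +
          (X.ty q).aT p * X.E1 p Φ q + ((X.ty q).aT p * I q +
            (X.ty q).aF p cF * ENNReal.ofReal (X.ty q).th ^ (p - r) * CW * Vo +
            (X.ty q).aF p cF * ENNReal.ofReal (X.ty q).th ^ p *
              volume (X.Qc q 1 \ X.sharp kp)) := by
          ring
      _ ≤ _ := add_le_add le_rfl (add_le_add (add_le_add a4 a1) a2)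
      _ = _ := by ring
  refine (Finset.sum_le_sum fun q _ => hq q).trans ?_
  rw [Finset.sum_add_distrib, Finset.sum_add_distrib, Finset.sum_add_distrib,
    Finset.sum_fiberwise Finset.univ X.q
      (fun a => (X.C a).aF p cF * ENNReal.ofReal (X.C a).th ^ p * (D1 a + D2 a)),
    Finset.sum_const, Finset.card_univ, nsmul_eq_mul, ← Finset.mul_sum]
  have b0 : ∑ a, (X.C a).aF p cF * ENNReal.ofReal (X.C a).th ^ p * (D1 a + D2 a) =
      ∑ a, (X.C a).aF p cF * ENNReal.ofReal (X.C a).th ^ p * D1 a +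
      ∑ a, (X.C a).aF p cF * ENNReal.ofReal (X.C a).th ^ p * D2 a := by
    rw [← Finset.sum_add_distrib]
    exact Finset.sum_congr rfl fun a _ => mul_add _ _ _
  have b1 : (Fintype.card ι : ℝ≥0∞) * (e0 / (Fintype.card ι + 1)) ≤ e0 :=
    (mul_le_mul_left le_self_add _).trans ENNReal.mul_div_le
  have b2 := add_le_add (add_le_add (add_le_add (add_le_add b1 hd) hi) hE)
    (le_refl (Fintype.card ι * Vo * (ENNReal.ofReal (3 * (ϑ + e1)) ^ p + 3 * e0)))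
  rw [b0]
  calc _ = _ := by ring
    _ ≤ _ := b2
    _ = _ := by ring

end BEp
end
end

-- merged part: Pool.Agent.Work.MP_f0515e_an.D3.NCore0
section
/-! The core statement for a fixed translation. -/

open Set Metric Filter Topology Function BEv MeasureTheory
open scoped NNReal ENNReal

noncomputable section
namespace BEp

variable {ι κ : Type} [Fintype ι] [Fintype κ]

theorem Cfg.NCore_en {X : Cfg 1 ι κ} (hX : X.Ok) {p : ℝ} (hp : 1 ≤ p)
    (kp : κ → Finset (Ix 1 → ℤ)) (K1 K2 : ℕ) {f G g : V 1 → V 1} {D : V 1 → V 1 →L[ℝ] V 1}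
    (hD : Measurable D) (e : EqOn g G (⋃ q, X.Qc q 3)) :
    ∫⁻ z in ⋃ q, X.Qc q 1, en p (G ∘ X.TK kp K1 K2) f D z ≤
      2 ^ p * (∑ q, ∫⁻ z in X.Qc q 1, (‖g (X.TK kp K1 K2 z) - f z‖ₑ ^ p +
        ‖fderiv ℝ (fun x => g (X.TK kp K1 K2 x)) z - (X.ty q).A‖ₑ ^ p)) +
      ∑ q, 2 ^ p * ∫⁻ z in X.Qc q 1, ‖D z - (X.ty q).A‖ₑ ^ p := by
  have h2p : (2 : ℝ≥0∞) ^ p ≠ ⊤ := ENNReal.rpow_ne_top_of_nonneg (by linarith) (by simp)
  refine (lintegral_iUnion_le _ _).trans ?_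
  rw [tsum_fintype, Finset.mul_sum, ← Finset.sum_add_distrib]
  refine Finset.sum_le_sum fun q _ => ?_
  have hme : Measurable fun z => 2 ^ p * ‖D z - (X.ty q).A‖ₑ ^ p :=
    ((hD.sub_const _).enorm.pow_const p).const_mul _
  rw [← lintegral_const_mul' _ _ h2p, ← lintegral_const_mul' _ _ h2p, ← lintegral_add_right _ hme]
  refine setLIntegral_mono' measurableSet_closedBall fun z hz => ?_
  have h1 : X.TK kp K1 K2 z ∈ X.Qc q 2 := Cfg.T_mem hX kp _ _ hz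
  have h2 : ball (X.o q) (3 * X.η) ∈ 𝓝 (X.TK kp K1 K2 z) :=
    isOpen_ball.mem_nhds (closedBall_subset_ball (by linarith [hX.η0]) h1)
  obtain ⟨L, hL⟩ := (Cfg.cc_TK hX kp K1 K2).tp.lip
  have h3 : G ∘ X.TK kp K1 K2 =ᶠ[𝓝 z] fun x => g (X.TK kp K1 K2 x) := by
    filter_upwards [hL.continuous.continuousAt.preimage_mem_nhds h2] with x hx
    exact (e (mem_iUnion.2 ⟨q, ball_subset_closedBall hx⟩)).symm
  rw [en, h3.fderiv_eq, h3.eq_of_nhds, mul_add, add_assoc, ← mul_add, enorm_sub_rev (D z)]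
  refine add_le_add (le_mul_of_one_le_left' ?_) (ACo_rpow hp _ _ _)
  exact ENNReal.one_le_rpow (by norm_num) (by linarith)

open Classical in
theorem Cfg.core_t {C0 : ℝ} (hC0 : 1 ≤ C0) (hTA : TopA C0) {X : Cfg 1 ι κ} (hX : X.Ok) {p r : ℝ}
    (hp : 1 ≤ p) (hr : p < r) {CW e0 : ℝ≥0∞} (hC : CW ≠ ⊤) (he : e0 ≠ 0)
    (hS : ∀ q, (X.ty q).Small3 p r (2 * C0 + 2) CW e0)
    (hW : ∀ q, ∫⁻ z in X.Qc q 1, X.W z ^ r ≤ CW * ENNReal.ofReal ((2 * X.η) ^ (2 * 1 + 1)))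
    {Ω : Set (V 1)} (hΩ : IsOpen Ω) {K : Kx Ω} {Y' : κ → Set (V 1)} {ρ' : ℝ}
    (hF : X.Fit K Y' ρ')
    (hd : ∑ a, (X.C a).aF p (2 * C0 + 2) * ENNReal.ofReal (X.C a).th ^ p *
      (if 1 < (X.C a).I.card then
        volume ((X.C a).Wd X.Y X.ρ) + volume ((X.C a).Wd (Y' a) ρ') else 0) ≤ e0)
    {S : Set (V 1)} {f0 f : V 1 → V 1} {D : V 1 → V 1 →L[ℝ] V 1} {t : V 1} {g : V 1 → ℝ≥0∞}
    {ν : Measure (V 1)} (hI : CoreIn K p S (⋃ a, (X.C a).cell 0) f0 D t f g ν)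
    (hD : Measurable D) (hQ : ∀ q, X.Qc q 3 ⊆ S) {kp0 : κ → Finset (Ix 1 → ℤ)}
    (hK : ∀ a, (X.G a).Kept f (X.F a) (kp0 a)) (hFi : ∀ a, ∀ b ∈ kp0 a, (X.G a).Fine f b)
    {c : ℝ≥0∞} (hc : c ≠ ⊤)
    (hE : ∑ q, (X.ty q).aT p * X.E1 p (fun q y => ‖D (y + t) - (X.ty q).A‖ₑ ^ p) q +
      ∑ a, (X.C a).aF p (2 * C0 + 2) * ENNReal.ofReal (X.C a).th ^ p *
        (if 1 < (X.C a).I.card then ((X.F a \ kp0 a).card : ℝ≥0∞) * (X.G a).col else 0) ≤ c)
    (hac : ∀ a b, K.Edge a b → (openSegment ℝ a b ∩ X.Reg).Nonempty →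
      ACs f (fun y => D (y + t)) a b) {μ e1 : ℝ}
    (hμ : ∀ x ∈ X.Reg, ball (f x) μ ⊆ f '' (ball x (ρ' / 2) ∩ Ω)) (he1 : 0 < e1)
    (hs : ∀ a, 32 * (X.C a).Λ * (X.C a).M * X.s ≤ min μ e1)
    (ho : ∀ q, ∀ x ∈ X.Qc q 3, ∀ y ∈ X.Qc q 3, ‖f x - f y‖ ≤ e1) {θ : Set (V 1) → ℝ}
    (hθ : ∀ σ, 0 < θ σ) {ε : ℝ≥0∞} (hε : ε ≠ 0) :
    ∃ G g' Sc, CoreOut K p (⋃ q, X.Qc q 1) (⋃ a, (X.C a).cell 0)
      (fun k => X.r1 (RI Finset.univ k)) f (fun z => D (z + t)) ν θ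
      (2 ^ p * (3 * e0 + c + Fintype.card ι * ENNReal.ofReal ((2 * X.η) ^ (2 * 1 + 1)) *
          (ENNReal.ofReal (3 * (e1 + e1)) ^ p + 3 * e0)) +
        ∑ q, 2 ^ p * ∫⁻ z in X.Qc q 1, ‖D (z + t) - (X.ty q).A‖ₑ ^ p)
      (ENNReal.ofReal (16 * C0) ^ p * ∫⁻ y, g y ^ p ∂ν + ε) G g' Sc := by
  have p0 : 0 < p := by linarith
  obtain ⟨kp, hkp⟩ : ∃ kp, kp = X.kp' Y' ρ' kp0 := ⟨_, rfl⟩
  have hsub : ∀ a, kp a ⊆ kp0 a := fun a => hkp ▸ Finset.filter_subset _ _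
  have hk' : X.Kp' Y' ρ' kp := fun a b hb => (Finset.mem_filter.1 (hkp ▸ hb :)).2
  have hk : X.Kp kp := fun a b hb => (hk' a b hb).1
  have hDt : Measurable fun y => D (y + t) := hD.comp (measurable_add_const t)
  have hR := Cfg.rig_in hX hF hk' (fun a => Gr.Kept.mono f (hK a) (hsub a))
    (fun a b hb => hFi a b (hsub a hb)) hI.inj hμ fun a => (hs a).trans (min_le_left _ _)
  have hfin := Cfg.Ec_finite hX hF f kp
  have hDg : ∀ σ ∈ X.Ec K f kp, ∀ y ∈ σ, ‖D (y + t)‖ₑ ≤ g y := fun σ h y hy => by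
    obtain ⟨q, hq⟩ := Cfg.Ec_sub hX hF f h
    exact hI.le y (hQ q (hq hy))
  obtain ⟨a1, a2, a3, be, th, e', b1, b2, b3, b4, hout⟩ := out_glue hΩ hp hC0 hI.mg hI.ug hI.me
    hfin (fun σ h => h.1) (D := fun y => D (y + t)) hDg hR
    (fun i => (Cfg.Q_sub hX hk f i (by norm_num)).trans (subset_iUnion (fun a => (X.C a).cell 0) _))
    hε
  have hWt : ∀ q, ∫⁻ z in X.Qc q 1, X.W z ^ r ≠ ⊤ := fun q =>
    ne_top_of_le_ne_top (ENNReal.mul_ne_top hC ENNReal.ofReal_ne_top) (hW q)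
  have hE1 : ∀ q, X.E1 p (fun q y => ‖D (y + t) - (X.ty q).A‖ₑ ^ p) q ≠ ⊤ := fun q h => by
    have h1 := (Finset.single_le_sum (f := fun q => (X.ty q).aT p *
      X.E1 p (fun q y => ‖D (y + t) - (X.ty q).A‖ₑ ^ p) q) (fun _ _ => zero_le)
      (Finset.mem_univ q)).trans (le_self_add.trans hE)
    rw [h, ENNReal.mul_top (Typ.aT_ne_zero (hX.ty q) p)] at h1
    exact hc (top_le_iff.1 h1)
  have mU : MeasurableSet (⋃₀ X.Ec K f kp) := .sUnion hfin.countable fun σ h => by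
    obtain ⟨a, b, h1, rfl⟩ := Kx.dm_one h.1.1 h.1.2
    exact NOut_meas h1.1
  have hAn : AnIn K f (fun y => D (y + t)) p (X.Ec K f kp)
      (X.nu kp p + ν.restrict (⋃₀ X.Ec K f kp)) := by
    refine ⟨hΩ, hI.cont, hI.inj, hDt, a3, hfin, fun σ h => h.1, fun a b h h' => hac a b h h'.2.1,
      fun a b h N hN => ?_, ?_, ?_⟩
    · rw [Measure.add_apply, Cfg.acm_nu hX kp p a b h N hN, a1 a b h N hN, add_zero]
    · rw [Measure.add_apply, Measure.restrict_apply_self]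
      exact ENNReal.add_ne_top.2 ⟨ne_top_of_le_ne_top (Cfg.nu_fin hX kp hr.le hWt)
        (measure_mono (subset_univ _)), a2⟩
    · rw [Measure.restrict_add, lintegral_add_measure, Measure.restrict_restrict mU, inter_self]
      refine ENNReal.add_ne_top.2 ⟨ne_top_of_le_ne_top (Cfg.nu_int hX hk hp hr.le hWt hDt hE1)
        (setLIntegral_le_lintegral _ _), ne_top_of_le_ne_top hI.fin
          (le_trans (setLIntegral_mono' mU fun y hy => ?_) (setLIntegral_le_lintegral _ _))⟩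
      obtain ⟨σ, h1, h2⟩ := hy
      exact ENNReal.rpow_le_rpow (hDg σ h1 y h2) p0.le
  obtain ⟨d, hd0, -, hd1⟩ := ACo_small (c := ∑ q, (X.ty q).aT p)
    (ENNReal.sum_ne_top.2 fun q _ => (X.ty q).aT_ne_top p0.le) he
  have hθ' : ∀ σ, 0 < min (min (θ σ) (th σ)) (min X.s e1) := fun σ =>
    lt_min (lt_min (hθ σ) (b2 σ)) (lt_min hX.s0 he1)
  obtain ⟨G, hA⟩ := hTA Ω K f _ p _ _ (Bx kp) _ X.s _ _
    (fun σ => min (min (θ σ) (th σ)) (min X.s e1)) be (min d e') hp hAn hR (fun σ h => h.2.2) hθ' b1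
    (lt_min (pos_iff_ne_zero.2 hd0) (pos_iff_ne_zero.2 b3)).ne'
  obtain ⟨g2, c1, c2, c3, c4⟩ := hout _ _ _ G (Measure.le_add_left le_rfl)
    (fun σ => (min_le_left _ _).trans (min_le_right _ _)) (min_le_right _ _) hA
  obtain ⟨gg, ψ, d1, d2, d3, hG⟩ := Cfg.gd3 hX hΩ hF hk p0 hC0 hR hA b4 (ϑ := e1)
    (fun σ => ⟨hθ' σ, (min_le_right _ _).trans (min_le_left _ _),
      (min_le_right _ _).trans (min_le_right _ _)⟩) fun a => (hs a).trans (min_le_right _ _)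
  subst hkp
  have hen := Cfg.stage_G3 hX hp hr hC he hS hW hF.ρ0 hF.ρ1 hF.sρ hd hK hDt hG d2
    (le_trans (mul_le_mul_right (((lintegral_mono' (Measure.le_add_right le_rfl) le_rfl).trans
      d3).trans (min_le_left _ _)) _) hd1) ho hE
  refine ⟨G, g2, fun k => gl fun a => (X.G a).τ (X.kp' Y' ρ' kp0 a) (RI (X.C a).I k), hA.inj,
    hA.ltp, fun k => Cfg.cs_S hX _ k, c1, c2, c3, fun y h1 h2 => ?_, ?_⟩
  · obtain ⟨y', h3, h4⟩ := c4 y h1 h2
    exact ⟨y', h3, h4.trans ((min_le_left _ _).trans (min_le_left _ _))⟩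
  · filter_upwards [hen] with K2 h2
    filter_upwards [h2] with K1 h1
    exact (Cfg.NCore_en hX hp _ K1 K2 hDt d1).trans (add_le_add (mul_le_mul_right h1 _) le_rfl)

end BEp
end
end
end
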