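import Pool.Agent.Work.MP_f0515e_an.D3.LDefs
import Pool.Agent.Work.MP_f0515e_an.Pos.ADefs

/-! Analytic part in dimension three: definitions. -/

open Set Metric Filter Topology Function BEv MeasureTheory
open scoped NNReal ENNReal

noncomputable section
namespace BEp

/-- `f` is absolutely continuous on the segment from `a` to `b`, with derivative `D`. -/
def ACs (f : Rn 3 → Rn 3) (D : Rn 3 → Rn 3 →L[ℝ] Rn 3) (a b : Rn 3) : Prop :=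
  IntegrableOn (fun t => D (seg a b t)) (Icc 0 1) ∧
    ∀ t ∈ Icc (0 : ℝ) 1, f (seg a b t) = f a + ∫ s in (0 : ℝ)..t, D (seg a b s) (b - a)

/-- Bound for the derivative of `G - A` at `y` in the direction `w`. -/
def TL (G : Rn 3 → Rn 3) (A : Rn 3 →L[ℝ] Rn 3) (w y : Rn 3) (c : ℝ) : Prop :=
  LL (fun t : ℝ => G (y + t • w) - t • A w) 0 (c * ‖w‖)

/-- `ν` does not charge the null subsets of lines. -/
def Acm (ν : Measure (Rn 3)) : Prop :=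
  ∀ a b : Rn 3, a ≠ b → ∀ N : Set ℝ, volume N = 0 → ν (seg a b '' N) = 0

/-- Variation of `f` along a segment. -/
def vr (f : Rn 3 → Rn 3) (a b : Rn 3) : ℝ≥0∞ := eVariationOn (fun t => f (seg a b t)) (Icc 0 1)

/-- `f` and `D` are limits of smooth maps and their derivatives on `U`. -/
def Apx (p : ℝ) (U : Set (Rn 3)) (f : Rn 3 → Rn 3) (D : Rn 3 → Rn 3 →L[ℝ] Rn 3) : Prop :=
  ∃ u : ℕ → Rn 3 → Rn 3, (∀ j, ContDiff ℝ 1 (u j)) ∧ TendstoUniformlyOn u f atTop U ∧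
    Tendsto (fun j => ∫⁻ x in U, ‖fderiv ℝ (u j) x - D x‖ₑ ^ p) atTop (𝓝 0)

/-- The hypotheses of the topological theorem which concern the rigid boxes. -/
structure RigIn {Ω : Set (Rn 3)} (K : Kx Ω) (f : Rn 3 → Rn 3) {ι : Type} (B : ι → Box 1) (s : ℝ)
    (ε ε' : ι → ℝ) : Prop where
  s0 : 0 < s
  ε0 : ∀ i, 0 < ε i ∧ 0 < ε' i
  tiny : ∀ i, 1000000 * (1 + ‖(B i).A‖) * s * ε' i ≤ ε i ^ 2
  card : ∀ i, 1 < (B i).I.card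
  r8 : ∀ i, 8 ∣ (B i).r ∧ 16 ≤ (B i).r
  QS : ∀ i, (B i).Q s 40 ⊆ Ω
  disj : ∀ i j, i ≠ j → Disjoint ((B i).Q s 40) ((B j).Q s 40)
  grid : ∀ i, ∀ x ∈ (B i).Q s 24, K.cell x = (B i).cc s x
  thick : ∀ i, ∃ e > 0, K.sk 1 ∩ (B i).thick s 30 e ⊆ (B i).Sk s
  low : ∀ i, ∀ z : V 1, (∀ l, l ∉ (B i).I → z l = 0) → 1000 * ε i * ‖z‖ ≤ s * ‖(B i).A z‖
  close : ∀ i, ∀ x ∈ K.sk 1 ∩ (B i).Q s 24, ‖f x - (B i).aff x‖ ≤ ε' i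
  rvar : ∀ i a b, K.Edge a b → a ∈ (B i).Q s 24 → b ∈ (B i).Q s 24 →
    vr (fun x => f x - (B i).aff x) a b ≤ ENNReal.ofReal (ε' i)
  nohit : ∀ i, ∀ x ∈ (B i).Q s 12, ∀ y ∈ Ω, (y ∈ K.sk 1 ∨ y ∈ (B i).Sk s) →
    y ∉ (B i).Q s 16 → 10 * ε i < ‖f y - (B i).aff x‖
  rsub : ∀ i, ∀ x ∈ (B i).Q s 12, closedBall ((B i).aff x) (10 * ε i) ⊆ f '' Ω
  sep : ∀ i j, i ≠ j → ∀ x ∈ (B i).Q s 12, ∀ y ∈ (B j).Q s 12,
    10 * ε i < ‖(B j).aff y - (B i).aff x‖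

/-- Analytic hypotheses on the edges; `Ec` is the finite set of edges which get chords. -/
structure AnIn {Ω : Set (Rn 3)} (K : Kx Ω) (f : Rn 3 → Rn 3) (D : Rn 3 → Rn 3 →L[ℝ] Rn 3)
    (p : ℝ) (Ec : Set (Set (Rn 3))) (ν : Measure (Rn 3)) : Prop where
  opn : IsOpen Ω
  cont : ContinuousOn f Ω
  inj : InjOn f Ω
  meas : Measurable D
  bv : ∀ a b, K.Edge a b → vr f a b ≠ ⊤
  fin : Ec.Finite
  sub : Ec ⊆ K.cel 1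
  ac : ∀ a b, K.Edge a b → openSegment ℝ a b ∈ Ec → ACs f D a b
  acm : Acm ν
  νfin : ν (⋃₀ Ec) ≠ ⊤
  int : ∫⁻ y in ⋃₀ Ec, ‖D y‖ₑ ^ p ∂ν ≠ ⊤

/-- Admissible speed profiles. -/
def BeOk {Ω : Set (Rn 3)} (K : Kx Ω) (be : Set (Rn 3) → Rn 3 → ℝ) : Prop :=
  ∀ a b, K.Edge a b → TP (be (openSegment ℝ a b)) ∧
    InjOn (be (openSegment ℝ a b)) (segment ℝ a b) ∧
    be (openSegment ℝ a b) '' segment ℝ a b = Icc 0 1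

/-- What the analysis uses of the piecewise affine embedding. -/
structure AnOut {Ω : Set (Rn 3)} (K : Kx Ω) (f : Rn 3 → Rn 3) (D : Rn 3 → Rn 3 →L[ℝ] Rn 3)
    (p : ℝ) (Ec : Set (Set (Rn 3))) (ν : Measure (Rn 3)) {ι : Type} (B : ι → Box 1) (s : ℝ)
    (ε : ι → ℝ) (θ : Set (Rn 3) → ℝ) (be : Set (Rn 3) → Rn 3 → ℝ) (C0 : ℝ) (e : ℝ≥0∞)
    (G : Rn 3 → Rn 3) : Prop where
  inj : InjOn G Ω
  ltp : LTP Ω G
  rig : ∀ i, EqOn G (B i).aff ((B i).Q s 8)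
  core : ∃ (ψ : Rn 3 → ℝ) (N : Set (Rn 3)), Measurable ψ ∧ (∀ y, 0 ≤ ψ y) ∧ N.Finite ∧
    ∫⁻ y in ⋃₀ Ec, ENNReal.ofReal (ψ y) ^ p ∂ν ≤ e ∧
    ∀ a b, K.Edge a b → openSegment ℝ a b ∈ Ec → ∀ y ∈ openSegment ℝ a b, y ∉ N →
      TL G (D y) (b - a) y (ψ y)
  lin : ∀ a b, K.Edge a b → openSegment ℝ a b ∉ Ec → (∀ i, ¬ segment ℝ a b ⊆ (B i).Q s 8) →
    ∀ y ∈ segment ℝ a b, ∀ y' ∈ segment ℝ a b, ‖G y - G y'‖ ≤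
      (C0 * (vr f a b).toReal + θ (openSegment ℝ a b)) *
        |be (openSegment ℝ a b) y - be (openSegment ℝ a b) y'|
  sup : ∀ y ∈ K.sk 1, ∃ y' ∈ closure (K.cell y), ‖G y - f y'‖ ≤ θ (K.cell y) ∨
    ∃ i, (closure (K.cell y) ∩ (B i).Q s 8).Nonempty ∧ ‖G y - f y'‖ ≤ 20 * ε i

/-- The topological theorem combined with the one-dimensional analysis. -/
def TopA (C0 : ℝ) : Prop :=
  ∀ (Ω : Set (Rn 3)) (K : Kx Ω) (f : Rn 3 → Rn 3) (D : Rn 3 → Rn 3 →L[ℝ] Rn 3) (p : ℝ)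
    (Ec : Set (Set (Rn 3))) (ν : Measure (Rn 3)) (ι : Type) [Finite ι] (B : ι → Box 1) (s : ℝ)
    (ε ε' : ι → ℝ) (θ : Set (Rn 3) → ℝ) (be : Set (Rn 3) → Rn 3 → ℝ) (e : ℝ≥0∞), 1 ≤ p →
    AnIn K f D p Ec ν → RigIn K f B s ε ε' → (∀ σ ∈ Ec, ∀ i, Disjoint σ ((B i).Q s 24)) →
    (∀ σ, 0 < θ σ) → BeOk K be → e ≠ 0 → ∃ G, AnOut K f D p Ec ν B s ε θ be C0 e G

namespace Gr
variable (G : Gr 1)

/-- The finer tolerance. -/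
def ε' : ℝ := G.σ ^ 2 / (10 ^ 12 * (1 + G.Λ)) * G.s

/-- `f` is absolutely continuous on the lines of the fine skeleton of the fine cube `b`. -/
def LA (f : V 1 → V 1) (D : V 1 → V 1 →L[ℝ] V 1) (b : Ix 1 → ℤ) : Prop :=
  ∀ J ∈ Finset.powersetCard 1 G.I, ∀ v ∈ G.pos J,
    ACs f D (G.sq b J v fun _ => -(8 * G.M * G.s)) (G.sq b J v fun _ => 8 * G.M * G.s)

/-- `f` is close to the affine map of the fine cube `b`, uniformly and in variation, on the fine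
skeleton. -/
structure Fine (f : V 1 → V 1) (b : Ix 1 → ℤ) : Prop where
  close : ∀ x ∈ (G.box f b).fine G.s ∩ (G.box f b).Q G.s 56, ‖f x - (G.box f b).aff x‖ ≤ G.ε'
  var : ∀ x y, segment ℝ x y ⊆ (G.box f b).fine G.s ∩ (G.box f b).Q G.s 56 →
    vr (fun x => f x - (G.box f b).aff x) x y ≤ ENNReal.ofReal G.ε'

end Gr

/-- The selection property of a type, with constant `Cs`. -/
def Typ.Sel3 (T : Typ 1) (p : ℝ) (Cs : ℝ≥0∞) : Prop :=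
  ∀ G : Gr 1, G.toTyp = T → G.Ok → 1 < G.I.card → ∀ F : Finset (Ix 1 → ℤ),
    (∀ b, b ∈ F ↔ b ∈ G.ful) → ∀ (o : V 1) (η : ℝ), G.cell 0 ⊆ closedBall o η →
    64 * G.M * G.s ≤ η → ∀ (f0 : V 1 → V 1) (D : V 1 → V 1 →L[ℝ] V 1), Measurable D →
    Apx p (closedBall o (9 * η)) f0 D →
    ∃ E : V 1 → ℝ≥0∞, Measurable E ∧
      ∫⁻ t in closedBall (0 : V 1) η, E t ≤ Cs * ENNReal.ofReal ((2 * G.h) ^ 3) *
        ∫⁻ y in closedBall o (9 * η), ‖D y - G.A‖ₑ ^ p ∧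
      ∀ t ∈ closedBall (0 : V 1) η, ∀ f : V 1 → V 1,
        (∀ y ∈ closedBall o (2 * η), f y = f0 (y + t)) →
        (∀ b ∈ F, G.LA f (fun y => D (y + t)) b) →
        ∃ kp, G.Kept f F kp ∧ (∀ b ∈ kp, G.Fine f b) ∧ ((F \ kp).card : ℝ≥0∞) * G.col ≤ E t

namespace Cfg
variable {ι κ : Type} [Fintype ι] [Fintype κ] (X : Cfg 1 ι κ)

/-- The complex `K` is adapted to the configuration; `Y' a` is the extra set to be avoided, at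
distance `ρ'`. -/
structure Fit {Ω : Set (Rn 3)} (K : Kx Ω) (Y' : κ → Set (V 1)) (ρ' : ℝ) : Prop where
  ρ0 : 0 < ρ'
  ρ1 : ρ' ≤ X.ρ / 2
  sρ : ∀ a, 64 * (X.C a).M * X.s ≤ ρ'
  reg : ∀ q, X.Qc q 3 ⊆ Ω
  Z : X.Z ⊆ K.sk 1
  diam : ∀ x ∈ X.Reg, K.cell x ⊆ closedBall x X.ρ
  grid : ∀ a, ∀ b ∈ X.cand a, (∀ y ∈ Y' a, ρ' < ‖y - (X.G a).cb b‖) → ∀ f,
    ∀ x ∈ ((X.G a).box f b).Q X.s 24, K.cell x = ((X.G a).box f b).cc X.s x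
  near : ∀ a, ∀ b ∈ X.cand a, (∀ y ∈ Y' a, ρ' < ‖y - (X.G a).cb b‖) →
    ∀ y ∈ K.sk 1, ‖y - (X.G a).cb b‖ ≤ ρ' / 2 → y ∈ (X.G a).Zs

/-- The kept cubes are candidates, far from the extra sets. -/
def Kp' (Y' : κ → Set (V 1)) (ρ' : ℝ) (kp : κ → Finset (Ix 1 → ℤ)) : Prop :=
  ∀ a, ∀ b ∈ kp a, b ∈ X.cand a ∧ ∀ y ∈ Y' a, ρ' < ‖y - (X.G a).cb b‖

/-- Points where some approximating retraction has a nonzero derivative. -/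
def act (kp : κ → Finset (Ix 1 → ℤ)) : Set (V 1) :=
  {z | ∃ K1 K2 : ℕ, X.W z < 2 ^ K1 ∧ X.W z < 2 ^ K2 ∧ fderiv ℝ (X.TK kp K1 K2) z ≠ 0}

/-- The measure carried by the image of the retraction. -/
def nu (kp : κ → Finset (Ix 1 → ℤ)) (p : ℝ) : Measure (V 1) :=
  ∑ q, Measure.map (X.TL kp)
    ((volume.restrict (X.Qc q 1 ∩ X.act kp)).withDensity fun z => X.W z ^ p)

/-- The edges which get chords. -/
def Ec {Ω : Set (Rn 3)} (K : Kx Ω) (f : V 1 → V 1) (kp : κ → Finset (Ix 1 → ℤ)) :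
    Set (Set (Rn 3)) :=
  {σ | σ ∈ K.cel 1 ∧ (σ ∩ X.Reg).Nonempty ∧ ∀ i : Bx kp, Disjoint σ ((X.box f kp i).Q X.s 24)}

/-- What the energy estimate uses of the piecewise affine map. -/
structure Gd3 (kp : κ → Finset (Ix 1 → ℤ)) (f G : V 1 → V 1) (φ : ι → V 1 → ℝ) (ψ : V 1 → ℝ)
    (cF ϑ : ℝ) : Prop where
  lipG : ∃ L : ℝ≥0, LipschitzWith L G
  onQ : ∀ i : Bx kp, EqOn G (X.box f kp i).aff ((X.box f kp i).Q X.s 8)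
  φ0 : ∀ q y, 0 ≤ φ q y
  ψ0 : ∀ y, 0 ≤ ψ y
  cF1 : 1 ≤ cF
  edge : ∃ (Ed : Set (V 1 × V 1)) (N : Set (V 1)), Ed.Finite ∧ N.Finite ∧ (∀ e ∈ Ed, e.1 ≠ e.2) ∧
    ∀ q, ∀ y ∈ X.Z ∩ X.Qc q 2, (∀ a, y ∈ (X.C a).cell 0 → X.q a = q) → y ∉ N →
      (∀ i : Bx kp, y ∉ (X.box f kp i).Q X.s 8) → ∃ e ∈ Ed, (∃ t, y = seg e.1 e.2 t) ∧
        (BEp.TL G (X.ty q).A (e.2 - e.1) y (φ q y + ψ y) ∨
          ∃ i : Bx kp, y ∈ (X.box f kp i).Q X.s 24 ∧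
            BEp.TL G (X.ty q).A (e.2 - e.1) y (cF * (X.ty q).Λ))
  sup : ∀ y, (y ∈ X.Z ∨ ∃ i : Bx kp, y ∈ (X.box f kp i).Q X.s 4) →
    ∃ y', ‖y' - y‖ ≤ X.η ∧ ‖G y - f y'‖ ≤ ϑ

end Cfg

/-- The weight of the part of a cube where the retraction acts. -/
def Typ.aF (T : Typ 1) (p cF : ℝ) : ℝ≥0∞ :=
  T.aR p * ENNReal.ofReal (2 * cF * T.Λ) ^ p

end BEp
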