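import Pool.Agent.Work.MP_f0515e_an.D3.POne

/-! Corners of PL circles.
`cor_finite`: a point of `J` on a face of positive dimension of an adapted arrangement is not a corner (`face_open`), faces of
dimension zero are points, `finite_faces`. `crc_next`: `s` is the supremum of the `s` with `segment x (x + s v) ⊆ J`
(`J` compact, `Poly.tc_iff`); at inner points `±v` lie in the link, which has two points (`tcrc_lk`); at the end `-v` lies in the
link and `v` does not, so by `lk_straight` it is a corner; replace `s` if needed: inner points are never corners.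
`crc_compl`: `crc_split`; `A \ {a,b}` is preconnected, lies in one of the arcs `A₁`, and `A ∪ A₂` is a circle in `J`
(`tcrc_glue`, `tcrc_sub`). `cor_lt`: at a point of `A₁ \ {a,b}` both circles have the germ of `A₁` (`tc_congr`); inner points
of the segment are not corners. About 200 lines. -/

open Set Metric Filter Topology Function BEv
open scoped NNReal

noncomputable section
namespace BEp

variable {n m : ℕ}

/-- Corners. -/
def cor (J : Set (Rn n)) : Set (Rn n) := {x ∈ J | ¬ ∃ v, v ≠ 0 ∧ v ∈ tc J x ∧ -v ∈ tc J x}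

variable {J A A₁ A₂ : Set (Rn n)} {x v a b p : Rn n}

theorem P2a_not (h0 : v ≠ 0) (h1 : v ∈ tc J x) (h2 : -v ∈ tc J x) : x ∉ cor J :=
  fun h => h.2 ⟨v, h0, h1, h2⟩

theorem P2a_fw {r s : ℝ} (h : ∀ t, 0 ≤ t → t < s → x + t • v ∈ J) (h0 : 0 ≤ r) (h1 : r < s) :
    v ∈ tc J (x + r • v) := by
  refine mem_of_superset (Ioo_mem_nhdsGT (sub_pos.2 h1)) fun t ht => ?_
  have := h (r + t) (by linarith [ht.1]) (by linarith [ht.2])
  rwa [add_smul, ← add_assoc] at this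

theorem P2a_bw {r s : ℝ} (h : ∀ t, 0 ≤ t → t < s → x + t • v ∈ J) (h0 : 0 < r) (h1 : r ≤ s) :
    -v ∈ tc J (x + r • v) := by
  refine mem_of_superset (Ioo_mem_nhdsGT h0) fun t ht => ?_
  have := h (r - t) (by linarith [ht.2]) (by linarith [ht.1])
  rwa [sub_smul, sub_eq_add_neg, ← add_assoc, ← smul_neg] at this

theorem P2a_ne (hv : v ∈ lk J x) : v ≠ 0 := fun e => by
  have := hv.1
  rw [e, norm_zero] at this
  exact zero_ne_one this

theorem cor_finite (h : Crc J) : (cor J).Finite := by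
  obtain ⟨L, hL, -, hJ⟩ := exists_adapted finite_empty h.poly
  have key : ∀ x ∈ J, ∀ v ∈ fdir L x, v ∈ tc J x := fun x hx v hv => by
    obtain ⟨ε, hε, k⟩ := face_open hL (mem_face_self L x)
    refine (YPLk_small v (half_pos hε)).mono fun t ht => hJ x hx (k _ ?_ ?_)
    · rw [add_sub_cancel_left]
      exact (fdir L x).smul_mem t hv
    · rw [add_sub_cancel_left]
      linarith
  refine Finite.of_finite_image ((finite_faces hL).subset (image_subset_range _ _))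
    fun x hx y _ e => ?_
  by_contra hne
  have hy : y - x ∈ fdir L x := sub_mem_fdir (face_sub_cface L x (e ▸ mem_face_self L y))
  exact P2a_not (sub_ne_zero.2 (Ne.symm hne)) (key x hx.1 _ hy)
    (key x hx.1 _ ((fdir L x).neg_mem hy)) hx

theorem cor_aff (M : Rn n ≃L[ℝ] Rn n) (c : Rn n) (J : Set (Rn n)) :
    cor ((fun x => M x + c) '' J) = (fun x => M x + c) '' cor J := by
  have hi : Injective fun x => M x + c := fun x y e => M.injective (add_right_cancel e)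
  have key : ∀ x v, M v ∈ tc ((fun x => M x + c) '' J) (M x + c) ↔ v ∈ tc J x := fun x v => by
    rw [YPLk_tc, YPLk_tc]
    refine eventually_congr (Eventually.of_forall fun t => ?_)
    have e : M x + c + t • M v = M (x + t • v) + c := by
      rw [map_add, map_smul, add_right_comm]
    rw [e]
    exact hi.mem_set_image (a := x + t • v)
  ext y
  obtain ⟨x, rfl⟩ : ∃ x, y = M x + c := ⟨M.symm (y - c), by simp⟩
  refine Iff.trans ?_ (hi.mem_set_image (a := x)).symm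
  refine and_congr (hi.mem_set_image (a := x)) (not_congr ⟨?_, ?_⟩)
  · rintro ⟨v, h0, h1, h2⟩
    obtain ⟨w, rfl⟩ := M.surjective v
    rw [← map_neg] at h2
    exact ⟨w, fun e => h0 (by rw [e, map_zero]), (key x w).1 h1, (key x _).1 h2⟩
  · rintro ⟨v, h0, h1, h2⟩
    refine ⟨M v, fun e => h0 (M.injective (e.trans (map_zero M).symm)), (key x v).2 h1, ?_⟩
    rw [← map_neg]
    exact (key x _).2 h2

theorem lk_straight (h : Crc J) (hx : x ∈ J) (hv : v ∈ lk J x) (hc : x ∉ cor J) :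
    lk J x = {v, -v} := by
  obtain ⟨w, h0, h1, h2⟩ : ∃ w, w ≠ 0 ∧ w ∈ tc J x ∧ -w ∈ tc J x := by
    by_contra k
    exact hc ⟨hx, k⟩
  have hw : 0 < ‖w‖⁻¹ := inv_pos.2 (norm_pos_iff.2 h0)
  have e : ‖‖w‖⁻¹ • w‖ = 1 := norm_smul_inv_norm h0
  have k1 : ‖w‖⁻¹ • w ∈ lk J x := ⟨e, YPLk_smul hw h1⟩
  have k2 : -(‖w‖⁻¹ • w) ∈ lk J x := ⟨by rw [norm_neg, e], smul_neg ‖w‖⁻¹ w ▸ YPLk_smul hw h2⟩
  generalize ‖w‖⁻¹ • w = u at k1 k2
  have hne : u ≠ -u := fun k => P2a_ne k1 (self_eq_neg.1 k)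
  have c2 := tcrc_lk h.poly h.tcrc hx
  have e2 : {u, -u} = lk J x := eq_of_subset_of_ncard_le (pair_subset k1 k2)
    (by rw [c2, ncard_pair hne]) (finite_of_ncard_ne_zero (by rw [c2]; exact two_ne_zero))
  rw [← e2] at hv ⊢
  rcases hv with rfl | rfl
  · rfl
  · rw [neg_neg, pair_comm]

theorem crc_next (h : Crc J) (hx : x ∈ J) (hv : v ∈ lk J x) :
    ∃ s > (0 : ℝ), x + s • v ∈ cor J ∧ segment ℝ x (x + s • v) ⊆ J ∧
      ∀ t, 0 < t → t < s → x + t • v ∉ cor J := by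
  have hJ := h.poly.1
  obtain ⟨R, hR⟩ := hJ.isBounded.subset_closedBall x
  have hne : {t : ℝ | 0 ≤ t ∧ x + t • v ∉ J}.Nonempty := by
    refine ⟨|R| + 1, by positivity, fun k => ?_⟩
    have := hR k
    rw [mem_closedBall_iff_norm, add_sub_cancel_left, norm_smul, hv.1, mul_one,
      Real.norm_of_nonneg (by positivity)] at this
    linarith [le_abs_self R]
  have hb : BddBelow {t : ℝ | 0 ≤ t ∧ x + t • v ∉ J} := ⟨0, fun t ht => ht.1⟩
  obtain ⟨s, hs⟩ : ∃ s, s = sInf {t : ℝ | 0 ≤ t ∧ x + t • v ∉ J} := ⟨_, rfl⟩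
  have h1 : ∀ t, 0 ≤ t → t < s → x + t • v ∈ J := fun t h0 ht => by
    by_contra k
    exact ht.not_ge (hs ▸ csInf_le hb ⟨h0, k⟩)
  have h2 : ∀ r, (∀ t, 0 ≤ t → t ≤ r → x + t • v ∈ J) → v ∈ tc J (x + r • v) → r < s := by
    intro r k1 k2
    obtain ⟨δ, hδ, k3⟩ := mem_nhdsGT_iff_exists_Ioo_subset.1 (YPLk_tc.1 k2)
    refine lt_of_lt_of_le (lt_add_of_pos_right r hδ) (hs ▸ le_csInf hne fun t ht => ?_)
    by_contra k
    rcases le_or_gt t r with k4 | k4
    · exact ht.2 (k1 t ht.1 k4)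
    · have := k3 (show t - r ∈ Ioo 0 δ from ⟨by linarith, by linarith [not_le.1 k]⟩)
      rw [mem_ofPred_eq, add_assoc, ← add_smul, add_sub_cancel] at this
      exact ht.2 this
  have s0 : 0 < s := h2 0 (fun t k k' => by rwa [le_antisymm k' k, zero_smul, add_zero])
    (by rw [zero_smul, add_zero]; exact hv.2)
  have h3 := P2a_bw h1 s0 le_rfl
  have h4 : x + s • v ∈ J := by
    by_contra k
    exact YPLk_not hJ.isClosed k _ h3
  have h5 : ∀ t, 0 ≤ t → t ≤ s → x + t • v ∈ J := fun t k k' => by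
    rcases k'.eq_or_lt with rfl | k'
    · exact h4
    · exact h1 t k k'
  refine ⟨s, s0, ?_, ?_, fun t k k' =>
    P2a_not (P2a_ne hv) (P2a_fw h1 k.le k') (P2a_bw h1 k k'.le)⟩
  · by_contra k
    have e := lk_straight h h4 ⟨by rw [norm_neg, hv.1], h3⟩ k
    have : v ∈ lk J (x + s • v) := by
      rw [e, neg_neg]
      exact Or.inr rfl
    exact lt_irrefl s (h2 s h5 this.2)
  · rw [segment_eq_image']
    rintro _ ⟨θ, hθ, rfl⟩
    have := h5 (θ * s) (mul_nonneg hθ.1 s0.le) (mul_le_of_le_one_left s0.le hθ.2)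
    simpa only [add_sub_cancel_left, smul_smul] using this

theorem P2a_compl (h : Crc J) (hA : Arc A a b) (h2 : Arc A₂ a b) (h1 : a ∈ A₁ ∧ b ∈ A₁)
    (hu : A₁ ∪ A₂ = J) (hi : A₁ ∩ A₂ = {a, b}) (hs : A \ {a, b} ⊆ A₁) :
    ∃ R, Arc R a b ∧ A ∪ R = J ∧ A ∩ R = {a, b} := by
  have k : A ⊆ A₁ := fun y hy => by
    by_cases e : y ∈ ({a, b} : Set (Rn n))
    · rcases e with rfl | rfl
      exacts [h1.1, h1.2]
    · exact hs ⟨hy, e⟩
  have e : A ∩ A₂ = {a, b} := Subset.antisymm (hi ▸ inter_subset_inter_left _ k)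
    (pair_subset ⟨hA.tarc.left, h2.tarc.left⟩ ⟨hA.tarc.right, h2.tarc.right⟩)
  exact ⟨A₂, h2, tcrc_sub (tcrc_glue hA.tarc h2.tarc e) h.tcrc
    (hu ▸ union_subset_union_left _ k), e⟩

theorem crc_compl (h : Crc J) (hA : Arc A a b) (hs : A ⊆ J) :
    ∃ R, Arc R a b ∧ A ∪ R = J ∧ A ∩ R = {a, b} := by
  obtain ⟨A₁, A₂, h1, h2, hu, hi⟩ :=
    crc_split h (hs hA.tarc.left) (hs hA.tarc.right) hA.tarc.ne
  rcases isPreconnected_iff_subset_of_disjoint_closed.1 hA.tarc.conn_open A₁ A₂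
    h1.tarc.compact.isClosed h2.tarc.compact.isClosed (hu ▸ sdiff_subset.trans hs)
    (by rw [hi, sdiff_inter_self]) with k | k
  · exact P2a_compl h hA h2 ⟨h1.tarc.left, h1.tarc.right⟩ hu hi k
  · exact P2a_compl h hA h1 ⟨h2.tarc.left, h2.tarc.right⟩ (by rw [union_comm, hu])
      (by rw [inter_comm, hi]) k

theorem cor_lt (h1 : Arc A₁ a b) (h2 : Arc A₂ a b) (hi : A₁ ∩ A₂ = {a, b})
    (hs : A₁ ∩ segment ℝ a b = {a, b}) (ha : a ∈ cor (A₁ ∪ A₂)) (hb : b ∈ cor (A₁ ∪ A₂))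
    (hp : p ∈ cor (A₁ ∪ A₂)) (hp' : p ∉ A₁ ∪ segment ℝ a b) :
    (cor (A₁ ∪ segment ℝ a b)).ncard < (cor (A₁ ∪ A₂)).ncard := by
  refine ncard_lt_ncard ⟨fun x hx => ?_, fun k => hp' (k hp).1⟩ (cor_finite (crc_glue h1 h2 hi))
  by_cases e : x ∈ ({a, b} : Set (Rn n))
  · rcases e with rfl | rfl
    exacts [ha, hb]
  rcases hx.1 with k | k
  · have n1 : x ∉ A₂ := fun k' => e (hi ▸ ⟨k, k'⟩)
    have n2 : x ∉ segment ℝ a b := fun k' => e (hs ▸ ⟨k, k'⟩)
    have e' : tc (A₁ ∪ segment ℝ a b) x = tc (A₁ ∪ A₂) x := by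
      refine tc_congr ?_
      filter_upwards [h2.tarc.compact.isClosed.isOpen_compl.mem_nhds n1,
        (poly_segment a b).1.isClosed.isOpen_compl.mem_nhds n2] with y m1 m2
      exact ⟨fun m => Or.inl (m.resolve_right m2), fun m => Or.inl (m.resolve_right m1)⟩
    exact ⟨Or.inl k, e' ▸ hx.2⟩
  · exfalso
    have k' : ∀ t : ℝ, 0 ≤ t → t < 1 → a + t • (b - a) ∈ A₁ ∪ segment ℝ a b := fun t m1 m2 =>
      Or.inr (by rw [segment_eq_image']; exact ⟨t, ⟨m1, m2.le⟩, rfl⟩)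
    rw [segment_eq_image'] at k
    obtain ⟨θ, hθ, rfl⟩ := k
    have t0 : 0 < θ := hθ.1.lt_of_ne fun m => e (Or.inl (by simp [← m]))
    have t1 : θ < 1 := hθ.2.lt_of_ne fun m => e (Or.inr (by simp [m]))
    exact P2a_not (sub_ne_zero.2 h1.tarc.ne.symm) (P2a_fw k' t0.le t1) (P2a_bw k' t0 t1.le) hx

/-- A corner with its two neighbours. -/
theorem exists_cor (h : Crc J) : ∃ v a b, v ∈ cor J ∧ a ∈ cor J ∧ b ∈ cor J ∧
    LinearIndependent ℝ ![a - v, b - v] ∧ segment ℝ v a ⊆ J ∧ segment ℝ v b ⊆ J ∧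
    (∀ t : ℝ, 0 < t → t < 1 → v + t • (a - v) ∉ cor J) ∧
    ∀ t : ℝ, 0 < t → t < 1 → v + t • (b - v) ∉ cor J := by
  obtain ⟨x, hx⟩ := h.tcrc.conn.nonempty
  obtain ⟨u₀, w₀, -, e₀⟩ := ncard_eq_two.1 (tcrc_lk h.poly h.tcrc hx)
  obtain ⟨s₀, -, hv, -⟩ := crc_next h hx (v := u₀) (e₀ ▸ Or.inl rfl)
  generalize x + s₀ • u₀ = v at hv
  obtain ⟨u, w, hne, e⟩ := ncard_eq_two.1 (tcrc_lk h.poly h.tcrc hv.1)
  have hu : u ∈ lk J v := e ▸ Or.inl rfl
  have hw : w ∈ lk J v := e ▸ Or.inr rfl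
  obtain ⟨s, hs, a1, a2, a3⟩ := crc_next h hv.1 hu
  obtain ⟨r, hr, b1, b2, b3⟩ := crc_next h hv.1 hw
  refine ⟨v, _, _, hv, a1, b1, ?_, a2, b2, fun t t0 t1 => ?_, fun t t0 t1 => ?_⟩
  · rw [add_sub_cancel_left, add_sub_cancel_left, LinearIndependent.pair_iff]
    intro α β k
    rw [smul_smul, smul_smul] at k
    have k1 : |α * s| = |β * r| := by
      have := congrArg norm (eq_neg_of_add_eq_zero_left k)
      rwa [norm_neg, norm_smul, norm_smul, hu.1, hw.1, mul_one, mul_one] at this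
    have k2 : β * r = 0 := by
      by_contra k0
      rcases abs_eq_abs.1 k1 with k3 | k3
      · rw [k3, ← smul_add] at k
        have := eq_neg_of_add_eq_zero_right ((smul_eq_zero.1 k).resolve_left k0)
        exact P2a_not (P2a_ne hu) hu.2 (this ▸ hw.2) hv
      · rw [k3, neg_smul, ← sub_eq_neg_add, ← smul_sub] at k
        exact hne (sub_eq_zero.1 ((smul_eq_zero.1 k).resolve_left k0)).symm
    rw [k2, abs_zero, abs_eq_zero] at k1
    exact ⟨(mul_eq_zero.1 k1).resolve_right hs.ne', (mul_eq_zero.1 k2).resolve_right hr.ne'⟩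
  · rw [add_sub_cancel_left, smul_smul]
    exact a3 _ (mul_pos t0 hs) (mul_lt_of_lt_one_left hs t1)
  · rw [add_sub_cancel_left, smul_smul]
    exact b3 _ (mul_pos t0 hr) (mul_lt_of_lt_one_left hr t1)

end BEp
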