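import Pool.Agent.Work.MP_f0515e_an.D3.PDefs

/-! Topological arcs and circles in a Hausdorff space.
Parametrisations are globally continuous: use `projIcc` or clamps, `Continuous.if_le` for concatenation. A circle
from two arcs: concatenate to a loop `β` on `[0,1]` and put `γ t = β (Int.fract t)` (`ContinuousOn.comp_fract''`).
Sub-arcs of a circle: `s ↦ γ (t₀ + s (t₁ - t₀))` with `0 < t₁ - t₀ < 1`. A continuous injective map of a compact set into a
Hausdorff space has a continuous inverse on its image (`tarc_inv`). `tcrc_not_line`: `f ∘ γ` is injective on `[0,1)`,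
so strictly monotone or antitone there (`ContinuousOn.strictMonoOn_of_injOn_Icc'`), but `f (γ 0) = f (γ 1)`.
`tcrc_no_triod`: some point `p` of the circle other than `x` is missed by initial pieces of the three arcs; cut the circle at
`p` (`tcrc_chart`), the three arcs become strictly monotone functions starting at the same value, two of them go the
same way and overlap. `tcrc_sub`: if `p ∈ C' \ C` use `tcrc_chart` and `tcrc_not_line`. About 350 lines; split the file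
into `PTopX` if convenient. -/

open Set Metric Filter Topology Function BEv
open scoped NNReal

set_option linter.unusedSectionVars false

noncomputable section
namespace BEp

variable {n m : ℕ}

variable {X Y : Type} [TopologicalSpace X] [T2Space X] [TopologicalSpace Y] [T2Space Y]
  {A A' C C' D₁ D₂ : Set X} {a b c x : X}

theorem ptop_mk {γ : ℝ → X} {u v : ℝ} (huv : u < v) (hc : ContinuousOn γ (Icc u v))
    (hi : InjOn γ (Icc u v)) : TArc (γ '' Icc u v) (γ u) (γ v) := by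
  have p : 0 < v - u := sub_pos.2 huv
  have m : ∀ t ∈ Icc (0 : ℝ) 1, u + (v - u) * t ∈ Icc u v := fun t ht =>
    ⟨by nlinarith [ht.1], by nlinarith [ht.2]⟩
  have e : ∀ t ∈ Icc (0 : ℝ) 1, (projIcc (0 : ℝ) 1 zero_le_one t : ℝ) = t := fun t ht => by
    rw [projIcc_of_mem _ ht]
  refine ⟨fun t => γ (u + (v - u) * projIcc (0 : ℝ) 1 zero_le_one t),
    hc.comp_continuous (by fun_prop) fun t => m _ (Subtype.prop _), fun s hs t ht k => ?_,
    by simp, by simp, Subset.antisymm ?_ ?_⟩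
  · simp only [e s hs, e t ht] at k
    exact mul_left_cancel₀ p.ne' (add_left_cancel (hi (m s hs) (m t ht) k))
  · rintro _ ⟨t, -, rfl⟩
    exact ⟨_, m _ (Subtype.prop _), rfl⟩
  · rintro _ ⟨s, hs, rfl⟩
    have k : (s - u) / (v - u) ∈ Icc (0 : ℝ) 1 :=
      ⟨div_nonneg (sub_nonneg.2 hs.1) p.le, (div_le_one p).2 (by linarith [hs.2])⟩
    refine ⟨_, k, ?_⟩
    simp only [e _ k]
    rw [mul_div_cancel₀ _ p.ne', add_sub_cancel]

theorem ptop_inv {γ : ℝ → X} {K L : Set ℝ} (hK : IsCompact K) (hc : ContinuousOn γ K) (hL : L ⊆ K)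
    (hi : InjOn γ L) (h : ∀ s ∈ K, γ s ∈ γ '' L → s ∈ L) :
    ContinuousOn (invFunOn γ L) (γ '' L) := by
  refine continuousOn_iff_isClosed.2 fun t ht => ⟨γ '' (K ∩ t),
    ((hK.inter_right ht).image_of_continuousOn (hc.mono inter_subset_left)).isClosed, ?_⟩
  ext x
  refine ⟨?_, ?_⟩
  · rintro ⟨k, s, hs, rfl⟩
    rw [mem_preimage, hi.leftInvOn_invFunOn hs] at k
    exact ⟨⟨s, ⟨hL hs, k⟩, rfl⟩, s, hs, rfl⟩
  · rintro ⟨⟨s, hs, rfl⟩, k⟩
    refine ⟨?_, k⟩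
    rw [mem_preimage, hi.leftInvOn_invFunOn (h s hs.1 k)]
    exact hs.2

theorem ptop_open {γ : ℝ → X} (hi : InjOn γ (Icc 0 1)) :
    γ '' Icc 0 1 \ {γ 0, γ 1} = γ '' Ioo 0 1 := by
  rw [← Icc_sdiff_both, hi.image_sdiff_subset (by simp [insert_subset_iff]), image_pair]

theorem ptop_cat {γ δ : ℝ → X} (h1 : Continuous γ) (h2 : Continuous δ) (e : γ 1 = δ 0) :
    ∃ β : ℝ → X, Continuous β ∧ (∀ t, t ≤ 1 → β t = γ t) ∧ (∀ t, 1 ≤ t → β t = δ (t - 1)) ∧
      β '' Icc 0 2 = γ '' Icc 0 1 ∪ δ '' Icc 0 1 := by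
  let β : ℝ → X := fun t => if t ≤ 1 then γ t else δ (t - 1)
  have e1 : ∀ t, t ≤ 1 → β t = γ t := fun t ht => if_pos ht
  have e2 : ∀ t, 1 ≤ t → β t = δ (t - 1) := fun t ht => by
    rcases ht.eq_or_lt with rfl | k
    · rw [e1 1 le_rfl, e, sub_self]
    · exact if_neg k.not_ge
  refine ⟨β, h1.if_le (h2.comp (continuous_id.sub continuous_const)) continuous_id continuous_const
    fun t ht => by simp [show t = 1 from ht, e], e1, e2, Subset.antisymm ?_ ?_⟩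
  · rintro _ ⟨t, ht, rfl⟩
    rcases le_total t 1 with k | k
    · exact Or.inl ⟨t, ⟨ht.1, k⟩, (e1 t k).symm⟩
    · exact Or.inr ⟨t - 1, ⟨by linarith, by linarith [ht.2]⟩, (e2 t k).symm⟩
  · rintro _ (⟨t, ht, rfl⟩ | ⟨t, ht, rfl⟩)
    · exact ⟨t, ⟨ht.1, by linarith [ht.2]⟩, e1 t ht.2⟩
    · exact ⟨t + 1, ⟨by linarith [ht.1], by linarith [ht.2]⟩, by
        rw [e2 _ (by linarith [ht.1]), add_sub_cancel_right]⟩

/-- injectivity of a concatenation -/
theorem ptop_cat_inj {β γ δ : ℝ → X} (i1 : InjOn γ (Icc 0 1)) (i2 : InjOn δ (Icc 0 1))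
    (e1 : ∀ t, t ≤ 1 → β t = γ t) (e2 : ∀ t, 1 ≤ t → β t = δ (t - 1)) {I : Set ℝ} (hI : I ⊆ Icc 0 2)
    (h : ∀ s ∈ Icc (0 : ℝ) 1, ∀ t ∈ I, 1 ≤ t → γ s = δ (t - 1) → s = 1 ∧ t = 1) : InjOn β I := by
  have key : ∀ s ∈ I, ∀ t ∈ I, s ≤ 1 → 1 ≤ t → β s = β t → s = t := fun s hs t ht a b k => by
    rw [e1 s a, e2 t b] at k
    obtain ⟨p, q⟩ := h s ⟨(hI hs).1, a⟩ t ht b k
    rw [p, q]
  intro s hs t ht k
  rcases le_total s 1 with a | a <;> rcases le_total t 1 with b | b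
  · rw [e1 s a, e1 t b] at k
    exact i1 ⟨(hI hs).1, a⟩ ⟨(hI ht).1, b⟩ k
  · exact key s hs t ht a b k
  · exact (key t ht s hs b a k.symm).symm
  · rw [e2 s a, e2 t b] at k
    exact sub_left_injective (i2 ⟨by linarith, by linarith [(hI hs).2]⟩
      ⟨by linarith, by linarith [(hI ht).2]⟩ k)

theorem ptop_loop {f : ℝ → X} (hc : ContinuousOn f (Icc 0 1)) (e : f 0 = f 1)
    (hi : InjOn f (Ico 0 1)) : TCrc (f '' Icc 0 1) := by
  have m : ∀ t : ℝ, Int.fract t ∈ Ico (0 : ℝ) 1 := fun t => ⟨Int.fract_nonneg t, Int.fract_lt_one t⟩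
  refine ⟨f ∘ Int.fract, hc.comp_fract'' e, fun s t => ?_, Subset.antisymm ?_ ?_⟩
  · rw [← Int.fract_eq_fract]
    exact ⟨fun k => hi (m s) (m t) k, fun k => congrArg f k⟩
  · rintro _ ⟨t, rfl⟩
    exact ⟨_, Ico_subset_Icc_self (m t), rfl⟩
  · rintro _ ⟨t, ht, rfl⟩
    rcases ht.2.eq_or_lt with rfl | k
    · exact ⟨0, by simp [e]⟩
    · exact ⟨t, congrArg f (Int.fract_eq_self.2 ⟨ht.1, k⟩)⟩

section Per

variable {γ : ℝ → X} (hγ : ∀ s t, γ s = γ t ↔ ∃ k : ℤ, s - t = k)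
include hγ

theorem ptop_eq {s t : ℝ} (h1 : s - t < 1) (h2 : t - s < 1) (e : γ s = γ t) : s = t := by
  obtain ⟨k, hk⟩ := (hγ s t).1 e
  have a : k < 1 := by exact_mod_cast hk ▸ h1
  have b : -1 < k := by exact_mod_cast (by linarith : (-1 : ℝ) < k)
  rw [show k = 0 by omega, Int.cast_zero, sub_eq_zero] at hk
  exact hk

theorem ptop_per (u : ℝ) : γ (u + 1) = γ u := (hγ _ _).2 ⟨1, by simp⟩

theorem ptop_ico (u : ℝ) : γ '' Ico u (u + 1) = range γ := by
  refine Subset.antisymm (image_subset_range _ _) ?_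
  rintro _ ⟨t, rfl⟩
  refine ⟨u + Int.fract (t - u), ⟨by linarith [Int.fract_nonneg (t - u)],
    by linarith [Int.fract_lt_one (t - u)]⟩, (hγ _ _).2 ⟨-⌊t - u⌋, ?_⟩⟩
  rw [Int.fract, Int.cast_neg]
  ring

theorem ptop_icc (u : ℝ) : γ '' Icc u (u + 1) = range γ :=
  Subset.antisymm (image_subset_range _ _) (ptop_ico hγ u ▸ image_mono Ico_subset_Icc_self)

theorem ptop_inj_ico (u : ℝ) : InjOn γ (Ico u (u + 1)) := fun _ hs _ ht =>
  ptop_eq hγ (by linarith [hs.2, ht.1]) (by linarith [hs.1, ht.2])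

theorem ptop_ioo (u : ℝ) : range γ \ {γ u} = γ '' Ioo u (u + 1) := by
  rw [← Ico_sdiff_left, (ptop_inj_ico hγ u).image_sdiff_subset (by simp), image_singleton,
    ptop_ico hγ]

end Per

theorem ptop_side {S B B' : Set X} {f : X → ℝ} (hf : ContinuousOn f S) (hi : InjOn f S)
    (s : B ⊆ S) (s' : B' ⊆ S) (c : IsPreconnected B) (c' : IsPreconnected B') (m : x ∈ B)
    (m' : x ∈ B') (i : B ∩ B' ⊆ {x}) {z z' : X} (hz : z ∈ B) (hz' : z' ∈ B') (n : z ≠ x)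
    (n' : z' ≠ x) : (f z - f x) * (f z' - f x) < 0 := by
  have k : f z ∉ uIcc (f x) (f z') := fun k => by
    obtain ⟨w, hw, e⟩ := (c'.image f (hf.mono s')).ordConnected.uIcc_subset ⟨x, m', rfl⟩
      ⟨z', hz', rfl⟩ k
    exact n (i ⟨hz, hi (s' hw) (s hz) e ▸ hw⟩)
  have k' : f z' ∉ uIcc (f x) (f z) := fun k => by
    obtain ⟨w, hw, e⟩ := (c.image f (hf.mono s)).ordConnected.uIcc_subset ⟨x, m, rfl⟩
      ⟨z, hz, rfl⟩ k
    exact n' (i ⟨hi (s hw) (s' hz') e ▸ hw, hz'⟩)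
  simp only [mem_uIcc, not_or, not_and_or, not_le] at k k'
  obtain ⟨a | a, b | b⟩ := k <;> obtain ⟨d | d, e | e⟩ := k' <;> nlinarith

theorem ptop_uniq (hu : D₁ ∪ D₂ = A ∪ A') (hi : D₁ ∩ D₂ = {a, b}) (ha : a ∈ A) (hb : b ∈ A)
    (h1 : A \ {a, b} ⊆ D₁) (h2 : A' \ {a, b} ⊆ D₂) : D₁ = A := by
  have k : ({a, b} : Set X) ⊆ A := insert_subset ha (singleton_subset_iff.2 hb)
  refine Subset.antisymm (fun y hy => ?_) fun y hy => ?_
  · by_cases e : y ∈ ({a, b} : Set X)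
    · exact k e
    · exact (hu.subset (Or.inl hy)).elim id fun p => (e (hi.subset ⟨hy, h2 ⟨p, e⟩⟩)).elim
  · by_cases e : y ∈ ({a, b} : Set X)
    · exact (hi.symm.subset e).1
    · exact h1 ⟨hy, e⟩

theorem ptop_left {s t u v : Set X} (hs : IsClosed s) (ht : IsClosed t)
    (hu : IsPreconnected (s ∪ t)) (cu : IsClosed u) (cv : IsClosed v) (h : s ⊆ u ∪ v)
    (d : s ∩ (u ∩ v) = ∅) (k : s ∩ t ⊆ u) : s ⊆ u ∨ s ⊆ v := by
  refine (isPreconnected_iff_subset_of_disjoint_closed.1 hu (s ∩ u ∪ t) (s ∩ v)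
    ((hs.inter cu).union ht) (hs.inter cv) ?_ ?_).imp (fun p y hy => ?_) fun p y hy => (p (Or.inl hy)).2
  · rintro y (hy | hy)
    · exact (h hy).imp (fun p => Or.inl ⟨hy, p⟩) fun p => ⟨hy, p⟩
    · exact Or.inl (Or.inr hy)
  · refine eq_empty_of_forall_notMem ?_
    rintro y ⟨-, p | p, q⟩
    · exact d.subset ⟨q.1, p.2, q.2⟩
    · exact d.subset ⟨q.1, k ⟨q.1, p⟩, q.2⟩
  · exact (p (Or.inl hy)).elim (fun q => q.2) fun q => k ⟨hy, q⟩

theorem TArc.symm (h : TArc A a b) : TArc A b a := by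
  obtain ⟨γ, hc, hi, rfl, rfl, rfl⟩ := h
  have m : ∀ t ∈ Icc (0 : ℝ) 1, 1 - t ∈ Icc (0 : ℝ) 1 := fun t ht =>
    ⟨by linarith [ht.2], by linarith [ht.1]⟩
  refine ⟨fun t => γ (1 - t), by fun_prop,
    fun s hs t ht k => sub_right_injective (hi (m s hs) (m t ht) k), by simp, by simp,
    Subset.antisymm ?_ ?_⟩
  · rintro _ ⟨t, ht, rfl⟩
    exact ⟨_, m t ht, rfl⟩
  · rintro _ ⟨t, ht, rfl⟩
    exact ⟨_, m t ht, by simp⟩

theorem TArc.ne (h : TArc A a b) : a ≠ b := by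
  obtain ⟨γ, -, hi, rfl, rfl, -⟩ := h
  exact fun e => zero_ne_one (hi (left_mem_Icc.2 zero_le_one) (right_mem_Icc.2 zero_le_one) e)

theorem TArc.left (h : TArc A a b) : a ∈ A := by
  obtain ⟨γ, -, -, rfl, rfl, rfl⟩ := h
  exact ⟨0, left_mem_Icc.2 zero_le_one, rfl⟩

theorem TArc.right (h : TArc A a b) : b ∈ A :=
  h.symm.left

theorem TArc.compact (h : TArc A a b) : IsCompact A := by
  obtain ⟨γ, hc, -, -, -, rfl⟩ := h
  exact isCompact_Icc.image hc

theorem TArc.conn (h : TArc A a b) : IsPreconnected A := by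
  obtain ⟨γ, hc, -, -, -, rfl⟩ := h
  exact isPreconnected_Icc.image _ hc.continuousOn

theorem TArc.conn_open (h : TArc A a b) : IsPreconnected (A \ {a, b}) := by
  obtain ⟨γ, hc, hi, rfl, rfl, rfl⟩ := h
  rw [ptop_open hi]
  exact isPreconnected_Ioo.image _ hc.continuousOn

theorem TArc.conn_half (h : TArc A a b) : IsPreconnected (A \ {a}) := by
  obtain ⟨γ, hc, hi, rfl, rfl, rfl⟩ := h
  rw [← image_singleton, ← hi.image_sdiff_subset (by simp), Icc_sdiff_left]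
  exact isPreconnected_Ioc.image _ hc.continuousOn

theorem TArc.open_ne (h : TArc A a b) : (A \ {a, b}).Nonempty := by
  obtain ⟨γ, -, hi, rfl, rfl, rfl⟩ := h
  rw [ptop_open hi]
  exact (nonempty_Ioo.2 zero_lt_one).image _

theorem TArc.cl (h : TArc A a b) : closure (A \ {a, b}) = A := by
  refine Subset.antisymm (h.compact.isClosed.closure_subset_iff.2 sdiff_subset) ?_
  obtain ⟨γ, hc, hi, rfl, rfl, rfl⟩ := h
  rw [ptop_open hi, ← closure_Ioo zero_ne_one]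
  exact image_closure_subset_closure_image hc

theorem TArc.image (h : TArc A a b) {g : X → Y} (hg : ContinuousOn g A) (hi : InjOn g A) :
    TArc (g '' A) (g a) (g b) := by
  obtain ⟨γ, hc, hj, rfl, rfl, rfl⟩ := h
  rw [← image_comp]
  exact ptop_mk zero_lt_one (hg.comp hc.continuousOn (mapsTo_image _ _))
    (hi.comp hj (mapsTo_image _ _))

/-- A coordinate on an arc. -/
theorem tarc_inv (h : TArc A a b) : ∃ f : X → ℝ, ContinuousOn f A ∧ InjOn f A ∧ f a = 0 ∧ f b = 1 ∧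
    f '' A = Icc 0 1 := by
  obtain ⟨γ, hc, hi, rfl, rfl, rfl⟩ := h
  exact ⟨_, ptop_inv isCompact_Icc hc.continuousOn subset_rfl hi fun _ k _ => k,
    invFunOn_injOn_image _ _, hi.leftInvOn_invFunOn (left_mem_Icc.2 zero_le_one),
    hi.leftInvOn_invFunOn (right_mem_Icc.2 zero_le_one), hi.invFunOn_image subset_rfl⟩

theorem TArc.split (h : TArc A a b) (hx : x ∈ A) (ha : x ≠ a) (hb : x ≠ b) :
    ∃ A₁ A₂, TArc A₁ a x ∧ TArc A₂ x b ∧ A₁ ∪ A₂ = A ∧ A₁ ∩ A₂ = {x} := by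
  obtain ⟨γ, hc, hi, rfl, rfl, rfl⟩ := h
  obtain ⟨s, hs, rfl⟩ := hx
  have s1 : Icc 0 s ⊆ Icc 0 1 := Icc_subset_Icc_right hs.2
  have s2 : Icc s 1 ⊆ Icc 0 1 := Icc_subset_Icc_left hs.1
  refine ⟨_, _, ptop_mk (hs.1.lt_of_ne' fun e => ha (congrArg γ e)) hc.continuousOn (hi.mono s1),
    ptop_mk (hs.2.lt_of_ne fun e => hb (congrArg γ e)) hc.continuousOn (hi.mono s2), ?_, ?_⟩
  · rw [← image_union, Icc_union_Icc_eq_Icc hs.1 hs.2]
  · rw [← hi.image_inter s1 s2, Icc_inter_Icc_eq_singleton hs.1 hs.2, image_singleton]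

theorem tarc_glue (h : TArc A a b) (h' : TArc A' b c) (hi : A ∩ A' = {b}) :
    TArc (A ∪ A') a c := by
  obtain ⟨γ, hc, hj, rfl, rfl, rfl⟩ := h
  obtain ⟨δ, hc', hj', e, rfl, rfl⟩ := h'
  obtain ⟨β, c, e1, e2, e3⟩ := ptop_cat hc hc' e.symm
  have k := ptop_mk zero_lt_two c.continuousOn (ptop_cat_inj hj hj' e1 e2 subset_rfl
    fun s hs t ht a k => by
      have m : t - 1 ∈ Icc (0 : ℝ) 1 := ⟨by linarith, by linarith [ht.2]⟩
      have q : γ s = γ 1 := hi.subset ⟨⟨s, hs, rfl⟩, _, m, k.symm⟩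
      exact ⟨hj hs (right_mem_Icc.2 zero_le_one) q,
        sub_eq_zero.1 (hj' m (left_mem_Icc.2 zero_le_one) (k.symm.trans (q.trans e.symm)))⟩)
  rwa [e3, e1 0 zero_le_one, e2 2 one_le_two, show (2 : ℝ) - 1 = 1 by norm_num] at k

theorem tcrc_glue (h : TArc A a b) (h' : TArc A' a b) (hi : A ∩ A' = {a, b}) :
    TCrc (A ∪ A') := by
  obtain ⟨γ, hc, hj, rfl, rfl, rfl⟩ := h
  obtain ⟨δ, hc', hj', e, e', rfl⟩ := h'.symm
  obtain ⟨β, c, e1, e2, e3⟩ := ptop_cat hc hc' e.symm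
  have i : InjOn β (Ico 0 2) := ptop_cat_inj hj hj' e1 e2 Ico_subset_Icc_self
    fun s hs t ht a k => by
      have m : t - 1 ∈ Icc (0 : ℝ) 1 := ⟨by linarith, by linarith [ht.2]⟩
      rcases hi.subset ⟨⟨s, hs, rfl⟩, _, m, k.symm⟩ with q | q
      · have := hj' m (right_mem_Icc.2 zero_le_one) (k.symm.trans (q.trans e'.symm))
        linarith [ht.2]
      · exact ⟨hj hs (right_mem_Icc.2 zero_le_one) q,
          sub_eq_zero.1 (hj' m (left_mem_Icc.2 zero_le_one) (k.symm.trans (q.trans e.symm)))⟩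
  have k := ptop_loop (f := fun t => β (2 * t)) (by fun_prop) (by
    simp only [mul_zero, mul_one]
    rw [e1 0 zero_le_one, e2 2 one_le_two, show (2 : ℝ) - 1 = 1 by norm_num, e'])
    fun s hs t ht k => mul_left_cancel₀ two_ne_zero
      (i ⟨by linarith [hs.1], by linarith [hs.2]⟩ ⟨by linarith [ht.1], by linarith [ht.2]⟩ k)
  rwa [← image_image β, image_mul_left_Icc zero_le_two zero_le_one, mul_zero, mul_one, e3] at k

theorem TCrc.compact (h : TCrc C) : IsCompact C := by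
  obtain ⟨γ, hc, hγ, rfl⟩ := h
  rw [← ptop_icc hγ 0]
  exact isCompact_Icc.image hc

theorem TCrc.conn (h : TCrc C) : IsConnected C := by
  obtain ⟨γ, hc, -, rfl⟩ := h
  exact isConnected_range hc

theorem TCrc.conn_diff (h : TCrc C) (x : X) : IsPreconnected (C \ {x}) := by
  by_cases hx : x ∈ C
  · obtain ⟨γ, hc, hγ, rfl⟩ := h
    obtain ⟨u, rfl⟩ := hx
    rw [ptop_ioo hγ]
    exact isPreconnected_Ioo.image _ hc.continuousOn
  · rw [sdiff_singleton_eq_self hx]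
    exact h.conn.2

theorem TCrc.infinite (h : TCrc C) : C.Infinite := by
  obtain ⟨γ, -, hγ, rfl⟩ := h
  rw [← ptop_ico hγ 0]
  exact (Ico_infinite (lt_add_one 0)).image (ptop_inj_ico hγ 0)

theorem TCrc.cl_diff (h : TCrc C) {F : Set X} (hF : F.Finite) : closure (C \ F) = C := by
  refine Subset.antisymm (h.compact.isClosed.closure_subset_iff.2 sdiff_subset) ?_
  obtain ⟨γ, hc, hγ, rfl⟩ := h
  have k : (γ ⁻¹' F).Countable := by
    rw [← biUnion_preimage_singleton]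
    refine hF.countable.biUnion fun y _ => ?_
    rcases (γ ⁻¹' {y}).eq_empty_or_nonempty with e | ⟨s, rfl⟩
    · rw [e]; exact countable_empty
    · refine (countable_range fun k : ℤ => s + k).mono fun t ht => ?_
      obtain ⟨k, hk⟩ := (hγ t s).1 ht
      exact ⟨k, by linarith⟩
  rw [← image_univ, ← (k.dense_compl ℝ).closure_eq]
  refine (image_closure_subset_closure_image hc).trans (closure_mono ?_)
  rintro _ ⟨t, ht, rfl⟩
  exact ⟨⟨t, subset_closure ht, rfl⟩, ht⟩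

theorem TCrc.image (h : TCrc C) {g : X → Y} (hg : ContinuousOn g C) (hi : InjOn g C) :
    TCrc (g '' C) := by
  obtain ⟨γ, hc, hγ, rfl⟩ := h
  exact ⟨g ∘ γ, hg.comp_continuous hc mem_range_self, fun s t =>
    (hi.eq_iff (mem_range_self s) (mem_range_self t)).trans (hγ s t), range_comp _ _⟩

theorem tcrc_split (h : TCrc C) (ha : a ∈ C) (hb : b ∈ C) (hab : a ≠ b) :
    ∃ A A', TArc A a b ∧ TArc A' a b ∧ A ∪ A' = C ∧ A ∩ A' = {a, b} := by
  obtain ⟨γ, hc, hγ, rfl⟩ := h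
  obtain ⟨u, rfl⟩ := ha
  obtain ⟨v, hv, rfl⟩ := (ptop_ioo hγ u).subset ⟨hb, hab.symm⟩
  refine ⟨γ '' Icc u v, γ '' Icc v (u + 1), ptop_mk hv.1 hc.continuousOn fun s hs t ht =>
    ptop_eq hγ (by linarith [hs.2, ht.1, hv.2]) (by linarith [hs.1, ht.2, hv.2]),
    ptop_per hγ u ▸ (ptop_mk hv.2 hc.continuousOn fun s hs t ht =>
      ptop_eq hγ (by linarith [hs.2, ht.1, hv.1]) (by linarith [hs.1, ht.2, hv.1])).symm, ?_,
    Subset.antisymm ?_ ?_⟩
  · rw [← image_union, Icc_union_Icc_eq_Icc hv.1.le hv.2.le, ptop_icc hγ]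
  · rintro _ ⟨⟨s, hs, rfl⟩, t, ht, e⟩
    rcases ht.2.eq_or_lt with rfl | k
    · exact Or.inl (e.symm.trans (ptop_per hγ u))
    · have := ptop_inj_ico hγ u ⟨hv.1.le.trans ht.1, k⟩ ⟨hs.1, hs.2.trans_lt hv.2⟩ e
      exact Or.inr (congrArg γ (le_antisymm hs.2 (this ▸ ht.1)))
  · rintro _ (rfl | rfl)
    · exact ⟨⟨u, left_mem_Icc.2 hv.1.le, rfl⟩, _, right_mem_Icc.2 hv.2.le, ptop_per hγ u⟩
    · exact ⟨⟨v, right_mem_Icc.2 hv.1.le, rfl⟩, v, left_mem_Icc.2 hv.2.le, rfl⟩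

/-- A coordinate on a punctured circle. -/
theorem tcrc_chart (h : TCrc C) (ha : a ∈ C) :
    ∃ f : X → ℝ, ContinuousOn f (C \ {a}) ∧ InjOn f (C \ {a}) := by
  obtain ⟨γ, hc, hγ, rfl⟩ := h
  obtain ⟨u, rfl⟩ := ha
  rw [ptop_ioo hγ]
  refine ⟨_, ptop_inv isCompact_Icc hc.continuousOn Ioo_subset_Icc_self
    ((ptop_inj_ico hγ u).mono Ioo_subset_Ico_self) fun s hs k => ?_, invFunOn_injOn_image _ _⟩
  have := ((ptop_ioo hγ u).symm.subset k).2
  exact ⟨hs.1.lt_of_ne' fun e => this (congrArg γ e),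
    hs.2.lt_of_ne fun e => this ((congrArg γ e).trans (ptop_per hγ u))⟩

theorem tcrc_not_line (h : TCrc C) {f : X → ℝ} (hf : ContinuousOn f C) : ¬ InjOn f C := by
  intro hi
  have key : ∀ p ∈ C, ∀ q ∈ C, ¬ f p < f q := fun p hp q hq k => by
    have m : (f p + f q) / 2 ∈ Icc (f p) (f q) := ⟨by linarith, by linarith⟩
    obtain ⟨y, hy, e⟩ := h.conn.2.intermediate_value hp hq hf m
    obtain ⟨z, hz, e'⟩ := (h.conn_diff y).intermediate_value (a := p) (b := q)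
      ⟨hp, fun r => by rw [← show p = y from r] at e; linarith⟩
      ⟨hq, fun r => by rw [← show q = y from r] at e; linarith⟩ (hf.mono sdiff_subset) m
    exact hz.2 (hi hz.1 hy (e'.trans e.symm))
  obtain ⟨p, hp, q, hq, k⟩ := h.infinite.nontrivial
  exact k (hi hp hq (le_antisymm (not_lt.1 (key q hq p hp)) (not_lt.1 (key p hp q hq))))

theorem tcrc_no_triod (h : TCrc C) {A₁ A₂ A₃ : Set X} {y₁ y₂ y₃ : X} (h1 : TArc A₁ x y₁)
    (h2 : TArc A₂ x y₂) (h3 : TArc A₃ x y₃) (s1 : A₁ ⊆ C) (s2 : A₂ ⊆ C) (s3 : A₃ ⊆ C)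
    (i12 : A₁ ∩ A₂ ⊆ {x}) (i13 : A₁ ∩ A₃ ⊆ {x}) (i23 : A₂ ∩ A₃ ⊆ {x}) : False := by
  obtain ⟨f, hf, hi⟩ := tcrc_chart h (s1 h1.right)
  obtain ⟨z, hz, nz⟩ := h1.open_ne
  simp only [mem_insert_iff, mem_singleton_iff, not_or] at nz
  have t1 : A₁ \ {y₁} ⊆ C \ {y₁} := sdiff_subset_sdiff_left s1
  have t2 : A₂ ⊆ C \ {y₁} := fun w k =>
    ⟨s2 k, fun e => h1.ne (i12 ⟨h1.right, (show w = y₁ from e) ▸ k⟩).symm⟩
  have t3 : A₃ ⊆ C \ {y₁} := fun w k =>
    ⟨s3 k, fun e => h1.ne (i13 ⟨h1.right, (show w = y₁ from e) ▸ k⟩).symm⟩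
  have m : x ∈ A₁ \ {y₁} := ⟨h1.left, h1.ne⟩
  have a := ptop_side hf hi t1 t2 h1.symm.conn_half h2.conn m h2.left
    (fun _ k => i12 ⟨k.1.1, k.2⟩) ⟨hz, nz.2⟩ h2.right nz.1 h2.ne.symm
  have b := ptop_side hf hi t1 t3 h1.symm.conn_half h3.conn m h3.left
    (fun _ k => i13 ⟨k.1.1, k.2⟩) ⟨hz, nz.2⟩ h3.right nz.1 h3.ne.symm
  have c := ptop_side hf hi t2 t3 h2.conn h3.conn h2.left h3.left i23 h2.right h3.right
    h2.ne.symm h3.ne.symm
  nlinarith [mul_pos_of_neg_of_neg a b, sq_nonneg (f z - f x)]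

theorem tcrc_sub (h : TCrc C) (h' : TCrc C') (hs : C ⊆ C') : C = C' := by
  refine hs.antisymm fun p hp => by_contra fun k => ?_
  obtain ⟨f, hf, hi⟩ := tcrc_chart h' hp
  have s : C ⊆ C' \ {p} := fun w m => ⟨hs m, fun e => k ((show w = p from e) ▸ m)⟩
  exact tcrc_not_line h (hf.mono s) (hi.mono s)

theorem tarc_uniq (h : TCrc C) (c1 : IsClosed D₁) (c2 : IsClosed D₂) (hu : D₁ ∪ D₂ = C)
    (hi : D₁ ∩ D₂ = {a, b}) (hab : a ≠ b) (n1 : ¬ D₁ ⊆ {a, b}) (n2 : ¬ D₂ ⊆ {a, b}) :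
    TArc D₁ a b := by
  have ha := hi.symm.subset (Or.inl rfl : a ∈ ({a, b} : Set X))
  have hb := hi.symm.subset (Or.inr rfl : b ∈ ({a, b} : Set X))
  obtain ⟨A, A', p, p', e, -⟩ := tcrc_split h (hu.subset (Or.inl ha.1)) (hu.subset (Or.inl hb.1)) hab
  have key : ∀ B, TArc B a b → B ⊆ C → B \ {a, b} ⊆ D₁ ∨ B \ {a, b} ⊆ D₂ := fun B q s =>
    isPreconnected_iff_subset_of_disjoint_closed.1 q.conn_open _ _ c1 c2
      (fun _ k => hu.symm.subset (s k.1)) (by rw [hi, sdiff_inter_self])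
  have all : ∀ y ∈ D₁ ∪ D₂, y ∉ ({a, b} : Set X) → y ∈ A \ {a, b} ∨ y ∈ A' \ {a, b} :=
    fun y k n => (e.symm.subset (hu.subset k)).imp (fun r => ⟨r, n⟩) fun r => ⟨r, n⟩
  rcases key A p (e ▸ subset_union_left) with k | k <;>
    rcases key A' p' (e ▸ subset_union_right) with k' | k'
  · exact (n2 fun y m => by_contra fun n =>
      n (hi.subset ⟨(all y (Or.inr m) n).elim (fun r => k r) fun r => k' r, m⟩)).elim
  · rwa [ptop_uniq (hu.trans e.symm) hi p.left p.right k k']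
  · rwa [ptop_uniq (hu.trans (e.symm.trans (union_comm _ _))) hi p'.left p'.right k' k]
  · exact (n1 fun y m => by_contra fun n =>
      n (hi.subset ⟨m, (all y (Or.inl m) n).elim (fun r => k r) fun r => k' r⟩)).elim

/-- If the union and the intersection of two closed sets are connected, so is each of them. -/
theorem preconn_left {s t : Set X} (hs : IsClosed s) (ht : IsClosed t)
    (hu : IsPreconnected (s ∪ t)) (hi : IsPreconnected (s ∩ t)) : IsPreconnected s := by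
  refine isPreconnected_iff_subset_of_disjoint_closed.2 fun u v cu cv h d => ?_
  rcases isPreconnected_iff_subset_of_disjoint_closed.1 hi u v cu cv (fun _ k => h k.1)
    (subset_eq_empty (inter_subset_inter_left _ inter_subset_left) d) with k | k
  · exact ptop_left hs ht hu cu cv h d k
  · exact (ptop_left hs ht hu cv cu (union_comm u v ▸ h) (inter_comm u v ▸ d) k).symm

end BEp
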