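import Pool.Agent.Work.MP_f0515e_an.D3.SSq

/-! EXPORT (squeezing arcs in a box, parametrised form). -/

open Set Metric Filter Topology Function BEv
open scoped NNReal

noncomputable section
namespace BEp

theorem squeeze' {lo hi : Rn 3} (h : ∀ k, lo k < hi k) {κ : Type} [Finite κ]
    (γ : κ → ℝ → Rn 3) (h1 : ∀ j, TP (γ j)) (h2 : ∀ j, InjOn (γ j) (Icc 0 1))
    (h3 : ∀ j, ∀ t ∈ Ico (0 : ℝ) 1, γ j t ∈ interior (Icc lo hi))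
    (h4 : ∀ j, γ j 1 ∉ interior (Icc lo hi)) {η : ℝ} (hη : 0 < η) :
    ∃ (Λ : Rn 3 → Rn 3) (C : Set (Rn 3)), LH Λ ∧ IsCompact C ∧ C ⊆ interior (Icc lo hi) ∧
      (∀ x, x ∉ C → Λ x = x) ∧
      ∀ j, ArcL (Λ '' (γ j '' Icc 0 1)) (Λ (γ j 0)) (γ j 1) (‖hi - lo‖ + η) := by
  obtain ⟨Λ, C, hC, hs, hm, hA⟩ := squeeze h (A := fun j => γ j '' Icc 0 1)
    (o := fun j => γ j 0) (p := fun j => γ j 1) (fun j => ⟨γ j, h1 j, h2 j, rfl, rfl, rfl⟩)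
    (by
      rintro j _ ⟨⟨t, ht, rfl⟩, hne⟩
      refine h3 j t ⟨ht.1, lt_of_le_of_ne ht.2 ?_⟩
      rintro rfl
      exact hne rfl) hη
  refine ⟨Λ, C, hm.1, hC, hs, hm.2, fun j => ?_⟩
  have e := hm.2 (γ j 1) fun k => h4 j (hs k)
  simpa only [e] using hA j

end BEp
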