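import Pool.Agent.Work.MP_f0515e_an.D3.FBd
import Pool.Agent.Work.MP_f0515e_an.D3.PReg
import Pool.Agent.Work.MP_f0515e_an.D3.PL6
import Pool.Agent.Work.MP_f0515e_an.D3.FCone2
import Pool.Agent.Work.MP_f0515e_an.D3.BFin

-- merged part: Pool.Agent.Work.MP_f0515e_an.D3.FLink
section
/-! The link arcs of a face. -/

open Set Metric Filter Topology Function BEv
open scoped NNReal

noncomputable section
namespace BEp

theorem flk_fin {F : Set ℝ} (hF : F.Finite) (a : ℝ) : ∀ᶠ t in 𝓝[>] (0 : ℝ), a + t ∉ F := by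
  have h1 : IsClosed (F \ {a}) := (hF.subset diff_subset).isClosed
  have h2 : ∀ᶠ t in 𝓝 (0 : ℝ), a + t ∈ (F \ {a})ᶜ :=
    (continuous_const.add continuous_id).continuousAt.eventually_mem
      (h1.isOpen_compl.mem_nhds (by simp))
  filter_upwards [mem_nhdsWithin_of_mem_nhds h2, self_mem_nhdsWithin] with t h3 h4 h5
  exact h3 ⟨h5, fun e => (ne_of_gt h4) (by simpa using e)⟩

variable {Ω : Set (Rn 3)} {K : Kx Ω} {f : Rn 3 → Rn 3} {b : BdD} {η : Set (Rn 3) → ℝ}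
  {M' N : Set (Rn 3) → Rn 3 ≃L[ℝ] Rn 3} {h : Set (Rn 3) → Rn 3 × ℝ → Rn 3} {c : Set (Rn 3)}

theorem flk_norm (hΩ : IsOpen Ω) (hf : ContinuousOn f Ω) (hi : InjOn f Ω) (hb : Bead K f b)
    (R : ∀ σ ∈ K.cel 1, RadK K (b.m σ) σ (η σ))
    (E : ∀ σ ∈ K.cel 1, Edg K f b σ (η σ) (M' σ) (N σ) (h σ)) (v : Rn 3) :
    ∃ (φ : Rn 3 → Rn 3) (H : Rn 3 × ℝ → Rn 3), K.Vx v → TP φ ∧
      (∀ σ, K.Fl v σ → EqOn φ (fun x => b.m σ + N σ (co (b.p f σ) (M' σ) x))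
        (sq (b.p f σ) (M' σ))) ∧ IsH (hov K f b M' v) (Ω \ K.sk 1) (invFunOn f Ω) φ H ∧
      ∀ σ, K.Fl v σ → ∀ x ∈ dsq (b.p f σ) (M' σ), ∀ s ∈ Icc (0 : ℝ) 1, H (x, s) = h σ (x, s) := by
  by_cases hv : K.Vx v
  swap
  · exact ⟨id, fun _ => 0, fun e => absurd e hv⟩
  obtain ⟨φ, H, h1⟩ := norm_holes (hol_at hΩ hi hb R E v) (hb.ball hv).poly' (k_open hΩ K)
    (u := invFunOn f Ω) ((emb_inv hΩ hf hi).mono fun x hx => (hov_sub hb hv hx).1)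
    (fun x hx => (hov_sub hb hv hx).2)
    (a := fun σ x => b.m σ + N σ (co (b.p f σ) (M' σ) x))
    (fun σ _ => (TP.const _).add ((TP.clm (N σ : Rn 3 →L[ℝ] Rn 3)).comp (tp_co _ _)))
    (k := h) (fun σ hσ => (E σ hσ.cel).htp)
  exact ⟨φ, H, fun _ => h1⟩

/-- The two half arcs at one vertex. -/
theorem flk_at (hΩ : IsOpen Ω) (hi : InjOn f Ω) (hb : Bead K f b)
    (R : ∀ σ ∈ K.cel 1, RadK K (b.m σ) σ (η σ))
    (E : ∀ σ ∈ K.cel 1, Edg K f b σ (η σ) (M' σ) (N σ) (h σ)) (hc : c ∈ K.cel 2) {o n : Rn 3}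
    (ho : o ∈ c) {l : Rn 3 →L[ℝ] ℝ} (hl : ∀ w, l w = 0 ↔ w ∈ vectorSpan ℝ c) (hn : l n = 1)
    {v : Rn 3} {φ : Rn 3 → Rn 3} {t : ℝ} {q : Set (Rn 3) → Rn 3}
    (h0 : ∀ σ, K.Fc c v σ → TP φ ∧ (∀ x ∈ hov K f b M' v, φ x - t • n ∉ K.sk 1) ∧
      (∀ x ∈ b.S v, l (φ x) = l o + t → Rg (b.S v) (fun y => l (φ y)) x) ∧
      (∀ τ, K.Fl v τ → ∀ x ∈ dsq (b.p f τ) (M' τ), φ x - t • n ∈ closure c → τ ⊆ closure c) ∧
      q σ ∈ dsq (b.p f σ) (M' σ) ∧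
      (∀ x ∈ dsq (b.p f σ) (M' σ), φ x - t • n ∈ closure c ↔ x = q σ) ∧
      Chord (b.p f σ) (M' σ) (fun y => l (φ y)) (l o + t)) :
    ∃ (z : Rn 3) (γ : Set (Rn 3) → ℝ → Rn 3), ∀ σ, K.Fc c v σ → TP (γ σ) ∧
      InjOn (γ σ) (Icc 0 1) ∧ γ σ 0 = q σ ∧ γ σ 1 = z ∧
      (∀ s ∈ Icc (0 : ℝ) 1, γ σ s ∈ hov K f b M' v ∧ φ (γ σ s) - t • n ∈ c) ∧
      ∀ σ', K.Fc c v σ' → σ ≠ σ' → ∀ s ∈ Icc (0 : ℝ) 1, ∀ s' ∈ Icc (0 : ℝ) 1,
        γ σ s = γ σ' s' → s = 1 ∧ s' = 1 := by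
  classical
  by_cases hv : ∃ σ, K.Fc c v σ
  swap
  · exact ⟨0, fun _ _ => 0, fun σ e => absurd ⟨σ, e⟩ hv⟩
  obtain ⟨σ, F⟩ := hv
  obtain ⟨σ', ne, F', two⟩ := k_two hc F
  obtain ⟨tp, sk, rg, off, q1, q2, q3⟩ := h0 σ F
  obtain ⟨-, -, -, -, r1, r2, r3⟩ := h0 σ' F'
  have H := hol_at hΩ hi hb R E v
  have hS := (hb.ball F.1.vx).poly'
  have tp' : TP fun x => φ x - t • n := tp.sub (TP.const _)
  have lev : ∀ y, l (φ y - t • n) = l (φ y) - t := fun y => by simp [hn]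
  have inc : ∀ x ∈ hov K f b M' v, φ x - t • n ∈ closure c → φ x - t • n ∈ c :=
    fun x hx e => (k_cl_sk hc e).2 (sk x hx)
  have pl : ∀ y ∈ closure c, l y = l o := fun y hy => by
    have := (hl _).2 (Kx.sub_mem_span (subset_closure ho) hy)
    rwa [map_sub, sub_eq_zero] at this
  obtain ⟨A, a1, a2⟩ := hol_arc H hS ((TP.clm l).comp tp) rg
    (poly_pre (H.poly hS) (K.cells_poly hc.1) tp') (q := q σ) (q' := q σ')
    (fun x hx => by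
      filter_upwards [tp'.continuous.continuousAt.eventually
        (k_relopen hc hl (inc x hx.1 hx.2))] with y hy
      refine and_congr_right fun _ => ⟨fun e => ?_, fun e => subset_closure (hy ?_)⟩
      · have := pl _ e
        rw [lev] at this
        linarith
      · rw [pl _ hx.2, lev]
        linarith)
    ⟨H.dsq_sub F.1 q1, (q2 _ q1).2 rfl⟩ ⟨H.dsq_sub F'.1 r1, (r2 _ r1).2 rfl⟩
    (fun e => disjoint_left.1 (H.disj σ F.1 σ' F'.1 ne.symm) q1.1.le (e ▸ r1.1.le))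
    (fun x hx τ hτ e => by
      rcases two τ ⟨hτ, off τ hτ x e hx.2⟩ with rfl | rfl
      exacts [.inl ((q2 x e).1 hx.2), .inr ((r2 x e).1 hx.2)])
    (by
      rintro x (rfl | rfl)
      exacts [⟨σ, F.1, q1, q3⟩, ⟨σ', F'.1, r1, r3⟩])
  obtain ⟨z, γ, γ', t1, t2, i1, i2, e1, e2, e3, e4, m, tw⟩ := arc_halves a2
  refine ⟨z, fun τ => if τ = σ then γ else γ', fun τ hτ => ?_⟩
  rcases two τ hτ with rfl | rfl
  · simp only [if_true]
    refine ⟨t1, i1, e1, e3, fun s hs => ⟨(a1 (m s hs).1).1, inc _ (a1 (m s hs).1).1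
      (a1 (m s hs).1).2⟩, fun ρ _ n1 s hs s' hs' e => ?_⟩
    rw [if_neg n1.symm] at e
    exact tw s hs s' hs' e
  · simp only [if_neg ne]
    refine ⟨t2, i2, e2, e4, fun s hs => ⟨(a1 (m s hs).2).1, inc _ (a1 (m s hs).2).1
      (a1 (m s hs).2).2⟩, fun ρ hρ n1 s hs s' hs' e => ?_⟩
    rw [if_pos ((two ρ hρ).resolve_right n1.symm)] at e
    exact (tw s' hs' s hs e.symm).symm

theorem link_arcs (hΩ : IsOpen Ω) (hf : ContinuousOn f Ω) (hi : InjOn f Ω) (hb : Bead K f b)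
    (R : ∀ σ ∈ K.cel 1, RadK K (b.m σ) σ (η σ))
    (E : ∀ σ ∈ K.cel 1, Edg K f b σ (η σ) (M' σ) (N σ) (h σ)) (hc : c ∈ K.cel 2) :
    ∃ q z γ ψ H, Lnk K f b M' c q z γ ψ H := by
  obtain ⟨o, ho⟩ := K.cells_ne hc.1
  obtain ⟨l, n, hn, hl⟩ := k_plane hc
  choose φ H hH using flk_norm hΩ hf hi hb R E
  have ev := (eventually_all_finite (k_fc_fin hc)).2 fun a (F : K.Fc c a.1 a.2) =>
    (link_q hc ho hl hn F.1.cel F.2 (hb.mk' _ F.1.cel) (R _ F.1.cel) (E _ F.1.cel)).and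
      ((link_small ((hol_at hΩ hi hb R E a.1).poly (hb.ball F.1.vx).poly').1 (k_open hΩ K)
        (hH _ F.1.vx).2.2.1 n).and
      (((eventually_all_finite (k_fl_fin hΩ K a.1)).2 fun τ (hτ : K.Fl a.1 τ) =>
        link_off hc (R _ hτ.cel) (E _ hτ.cel) n).and
      (flk_fin (gen_level (Sph.surf ⟨_, hb.ball F.1.vx⟩) ((TP.clm l).comp (hH _ F.1.vx).1))
        (l o))))
  obtain ⟨t, ht⟩ := ev.exists
  have Q : ∀ σ, ∃ q, ∀ v, K.Fc c v σ → q ∈ dsq (b.p f σ) (M' σ) ∧ ∀ x ∈ dsq (b.p f σ) (M' σ),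
      (b.m σ + N σ (co (b.p f σ) (M' σ) x) - t • n ∈ closure c ↔ x = q) := fun σ => by
    by_cases e : ∃ v, K.Fc c v σ
    · obtain ⟨v, F⟩ := e
      obtain ⟨q, k⟩ := (ht (v, σ) F).1.1
      exact ⟨q, fun _ _ => k⟩
    · exact ⟨0, fun v F => absurd ⟨v, F⟩ e⟩
  choose q hq using Q
  have sb : ∀ σ, dsq (b.p f σ) (M' σ) ⊆ sq (b.p f σ) (M' σ) := fun σ x hx => ⟨hx.1.le, hx.2⟩
  choose z γ hγ using fun v => flk_at hΩ hi hb R E hc ho hl hn (v := v) (φ := φ v) (t := t) (q := q)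
    fun σ F => by
      obtain ⟨k1, k2, -, -⟩ := hH v F.1.vx
      obtain ⟨⟨-, j1⟩, j2, j3, j4⟩ := ht (v, σ) F
      refine ⟨k1, fun x hx => (j2.contr.2 hx).2, fun x hx e => ?_, fun τ hτ x hx e => ?_,
        (hq σ v F).1, fun x hx => ?_, j1 _ fun x hx => by rw [k2 σ F.1 hx]⟩
      · by_contra n
        exact j4 ⟨x, hx, e, n⟩
      · rw [k2 τ hτ (sb τ hx)] at e
        exact j3 τ hτ x hx e
      · rw [k2 σ F.1 (sb σ hx)]
        exact (hq σ v F).2 x hx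
  refine ⟨q, z, γ, fun v x => φ v x - t • n, fun v y => H v y - (y.2 * t) • n,
    fun v σ F => (hγ v σ F).1, fun v σ F => (hγ v σ F).2.1, fun v σ F => (hγ v σ F).2.2.1,
    fun v σ F => (hγ v σ F).2.2.2.1, fun v σ F => (hq σ v F).1,
    fun v σ F s hs => ((hγ v σ F).2.2.2.2.1 s hs).1,
    fun v σ σ' F F' => (hγ v σ F).2.2.2.2.2 σ' F', fun v σ F => ?_,
    fun v σ F s hs => ((hγ v σ F).2.2.2.2.1 s hs).2, fun v w σ F F' s hs => ?_⟩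
  · refine (ht (v, σ) F).2.1.mono ?_ Subset.rfl
    rintro _ ⟨s, hs, rfl⟩
    exact ((hγ v σ F).2.2.2.2.1 s hs).1
  · rw [(hH v F.1.vx).2.2.2 σ F.1 _ (hq σ v F).1 s hs,
      (hH w F'.1.vx).2.2.2 σ F'.1 _ (hq σ v F).1 s hs]

/-- On a curve made of parametrised pieces which `G` sends to the link arcs, `G` is homotopic to
`f` off the skeleton. -/
theorem link_htp (hf : ContinuousOn f Ω) (hb : Bead K f b) (hc : c ∈ K.cel 2)
    {q : Set (Rn 3) → Rn 3} {z : Rn 3 → Rn 3} {γ : Rn 3 → Set (Rn 3) → ℝ → Rn 3}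
    {ψ : Rn 3 → Rn 3 → Rn 3} {H : Rn 3 → Rn 3 × ℝ → Rn 3} (L : Lnk K f b M' c q z γ ψ H)
    {G : Rn 3 → Rn 3} (hG : Continuous G) {I : Set (Rn 3)} {P : Rn 3 → Set (Rn 3) → ℝ → Rn 3}
    (hP : ∀ v σ, Continuous (P v σ))
    (hI : ∀ x, x ∈ I ↔ ∃ v σ, K.Fc c v σ ∧ ∃ s ∈ Icc (0 : ℝ) 1, x = P v σ s) (hs : I ⊆ c)
    (val : ∀ v σ, K.Fc c v σ → ∀ s ∈ Icc (0 : ℝ) 1, G (P v σ s) = γ v σ s)
    (ov : ∀ v σ w τ, K.Fc c v σ → K.Fc c w τ → ∀ s ∈ Icc (0 : ℝ) 1, ∀ t ∈ Icc (0 : ℝ) 1,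
      P v σ s = P w τ t → v = w ∨ (σ = τ ∧ s = 0 ∧ t = 0)) :
    Htp I (f '' (Ω \ K.sk 1)) f G := by
  have ag : ∀ k ∈ {a : Rn 3 × Set (Rn 3) | K.Fc c a.1 a.2},
      ∀ j ∈ {a : Rn 3 × Set (Rn 3) | K.Fc c a.1 a.2},
      ∀ x ∈ P k.1 k.2 '' Icc 0 1 ∩ P j.1 j.2 '' Icc 0 1, ∀ s ∈ Icc (0 : ℝ) 1,
        H k.1 (G x, s) = H j.1 (G x, s) := by
    rintro k hk j hj x ⟨⟨a, ha, rfl⟩, a', ha', e⟩ s hs
    rcases ov _ _ _ _ hk hj a ha a' ha' e.symm with e1 | ⟨e1, rfl, -⟩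
    · rw [e1]
    · rw [val _ _ hk _ ha, L.g0 _ _ hk]
      exact L.same _ _ _ hk (e1 ▸ hj) s hs
  have mp : ∀ v σ, K.Fc c v σ → MapsTo G (P v σ '' Icc 0 1) (γ v σ '' Icc 0 1) := by
    rintro v σ F _ ⟨a, ha, rfl⟩
    exact ⟨a, ha, (val _ _ F a ha).symm⟩
  have W : ∀ x, ∃ y, ∀ v σ, K.Fc c v σ → x ∈ P v σ '' Icc 0 1 → y = H v (G x, 1) := fun x => by
    by_cases e : ∃ v σ, K.Fc c v σ ∧ x ∈ P v σ '' Icc 0 1
    · obtain ⟨v, σ, F, hx⟩ := e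
      exact ⟨_, fun w τ F' hx' => ag (v, σ) F (w, τ) F' x ⟨hx, hx'⟩ 1 (by simp)⟩
    · exact ⟨0, fun v σ F hx => absurd ⟨v, σ, F, hx⟩ e⟩
  choose w hw using W
  obtain ⟨Θ, hΘ, -⟩ := htp_glue (k_fc_fin hc) (X := fun k => P k.1 k.2 '' Icc 0 1)
    (fun k _ => (isCompact_Icc.image (hP _ _)).isClosed) (O := Ω \ K.sk 1)
    (u := fun x => invFunOn f Ω (G x)) (w := w) (H := fun k y => H k.1 (G y.1, y.2))
    (fun k hk => ⟨(L.htp _ _ hk).cont.comp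
        ((hG.comp continuous_fst).prodMk continuous_snd).continuousOn
        fun y hy => ⟨mp _ _ hk hy.1, hy.2⟩,
      fun x hx => (L.htp _ _ hk).zero _ (mp _ _ hk hx), fun x hx => (hw x _ _ hk hx).symm,
      fun x hx => (L.htp _ _ hk).mem _ (mp _ _ hk hx)⟩) ag
  have h1 : Htp I (Ω \ K.sk 1) (fun x => invFunOn f Ω (G x)) w :=
    ⟨Θ, hΘ.mono (fun x hx => by
      obtain ⟨v, σ, F, s, h1, rfl⟩ := (hI x).1 hx
      exact mem_biUnion (x := (v, σ)) F ⟨s, h1, rfl⟩) Subset.rfl⟩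
  have h2 : Htp I (Ω \ K.sk 1) w fun x => x := by
    obtain ⟨Θ', hΘ'⟩ := h1
    refine Htp.line hΘ'.contr.1 continuousOn_id fun x hx s h3 => k_face_sub hc ?_
    refine (K.cells_cvx hc.1).add_smul_sub_mem ?_ (hs hx) h3
    obtain ⟨v, σ, F, a, ha, rfl⟩ := (hI x).1 hx
    rw [hw _ v σ F ⟨a, ha, rfl⟩, (L.htp _ _ F).one _ (mp _ _ F ⟨a, ha, rfl⟩), val _ _ F a ha]
    exact L.into _ _ F a ha
  refine (((h1.trans h2).post (hf.mono diff_subset) (mapsTo_image f _)).congr (fun x hx => ?_)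
    fun _ _ => rfl).symm
  obtain ⟨v, σ, F, a, ha, rfl⟩ := (hI x).1 hx
  refine (invFunOn_eq ?_).symm
  rw [val _ _ F a ha]
  exact (hov_sub hb F.1.vx (L.mem _ _ F a ha)).1

end BEp
end
end

-- merged part: Pool.Agent.Work.MP_f0515e_an.D3.FCone
section
/-! The collar of a face: cones over the link arcs. -/

open Set Metric Filter Topology Function BEv
open scoped NNReal

noncomputable section
namespace BEp

/-- `C` is the union of the trapezoids `tch v (m σ) o '' trap` over the flags of `c`, and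
`G = cfl (Φ v) (p σ) (q σ) (γ v σ)` in the chart `tch v (m σ) o`: left inverses of the
charts by `tp_linv` (`tch_eq`), glued by `tp_glue_fin` over `k_fc_fin` (`CnD.agree`). -/
theorem collar {Ω : Set (Rn 3)} {K : Kx Ω} {f g : Rn 3 → Rn 3} {b : BdD} (hΩ : IsOpen Ω)
    (hi : InjOn f Ω) (hb : Bead K f b)
    (hg : ∀ v σ, K.Fl v σ → g '' segment ℝ v (b.m σ) = b.Leg f v σ) {η : Set (Rn 3) → ℝ}
    {M' N : Set (Rn 3) → Rn 3 ≃L[ℝ] Rn 3} {h : Set (Rn 3) → Rn 3 × ℝ → Rn 3}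
    (R : ∀ σ ∈ K.cel 1, RadK K (b.m σ) σ (η σ))
    (E : ∀ σ ∈ K.cel 1, Edg K f b σ (η σ) (M' σ) (N σ) (h σ)) {c : Set (Rn 3)} (hc : c ∈ K.cel 2)
    {o : Rn 3} (ho : o ∈ c) {q : Set (Rn 3) → Rn 3} {z : Rn 3 → Rn 3}
    {γ : Rn 3 → Set (Rn 3) → ℝ → Rn 3} {ψ : Rn 3 → Rn 3 → Rn 3} {H : Rn 3 → Rn 3 × ℝ → Rn 3}
    (L : Lnk K f b M' c q z γ ψ H) :
    ∃ (G : Rn 3 → Rn 3) (C : Set (Rn 3)), TP G ∧ IsClosed C ∧ C ∪ inn c o = closure c ∧
      (∀ x ∈ C, x ∉ inn c o → ∀ y ∈ C, G y = G x → y = x) ∧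
      (∀ x ∈ C, G x ∈ f '' Ω ∧ (G x ∈ g '' K.sk 1 → x ∈ rb c)) ∧ G '' rb c = g '' rb c ∧
      (∀ x, x ∈ C ∩ inn c o ↔
        ∃ v σ, K.Fc c v σ ∧ ∃ s ∈ Icc (0 : ℝ) 1, x = tch v (b.m σ) o ![(1 - s) / 2, 1 / 2]) ∧
      (∀ v σ, K.Fc c v σ → ∀ s ∈ Icc (0 : ℝ) 1,
        G (tch v (b.m σ) o ![(1 - s) / 2, 1 / 2]) = γ v σ s) ∧
      ∀ v σ w τ, K.Fc c v σ → K.Fc c w τ → ∀ s ∈ Icc (0 : ℝ) 1, ∀ t ∈ Icc (0 : ℝ) 1,
        tch v (b.m σ) o ![(1 - s) / 2, 1 / 2] = tch w (b.m τ) o ![(1 - t) / 2, 1 / 2] →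
          v = w ∨ (σ = τ ∧ s = 0 ∧ t = 0) := by
  have D : CnD K f b η M' N h c q z γ ψ H := ⟨hi, hb, R, E, L⟩
  have hμ := hb.mk'
  have hS := k_fc_fin hc
  choose! k k1 k2 using fun (i : Rn 3 × Set (Rn 3)) (F : K.Fc c i.1 i.2) =>
    tp_linv poly_trap (tp_tch i.1 (b.m i.2) o) fun _ a _ a' e => (tch_eq hc ho hμ F F a a' e).1
  obtain ⟨G, tp, eG⟩ := tp_glue_fin hS (fun i _ => poly_trap.image (tp_tch i.1 (b.m i.2) o))
    (fun i F => (tp_cfl (hb.at F.1.vx).lh (b.p f i.2) (q i.2) (L.tp _ _ F)).comp (k1 i F)) (by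
      rintro i F j F' _ ⟨⟨y, hy, rfl⟩, y', hy', e⟩
      obtain ⟨rfl, l⟩ := tch_eq hc ho hμ F F' hy hy' e.symm
      exact (congrArg _ (k2 i F y hy)).trans ((D.agree F F' hy l).trans
        (congrArg _ (e ▸ k2 j F' y hy).symm)))
  replace eG : ∀ v σ, K.Fc c v σ → ∀ y ∈ trap,
      G (tch v (b.m σ) o y) = cfl (b.Φ v) (b.p f σ) (q σ) (γ v σ) y := fun v σ F y hy =>
    (eG (v, σ) F ⟨y, hy, rfl⟩).trans (congrArg _ (k2 (v, σ) F y hy))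
  have m : ∀ s ∈ Icc (0 : ℝ) 1, ![(1 - s) / 2, 1 / 2] ∈ trap ∧ r0g ![(1 - s) / 2, 1 / 2] = 1 :=
    fun s a => (mem_trap (y := ![(1 - s) / 2, 1 / 2]) (div_nonneg (sub_nonneg.2 a.2) zero_le_two)
      one_half_pos.le (show (1 - s) / 2 + 1 / 2 ≤ 1 by linarith [a.1]) le_rfl).imp_right
        fun l => l.2 (.inr rfl)
  refine ⟨G, {x | ∃ v σ, K.Fc c v σ ∧ ∃ y ∈ trap, x = tch v (b.m σ) o y}, tp, ?_,
    Subset.antisymm (union_subset ?_ ((inn_sub hc ho).2.trans subset_closure))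
      fun x a => (tch_cover hc ho hμ a).symm, ?_, ?_, Subset.antisymm ?_ ?_,
    fun x => ⟨?_, ?_⟩, fun v σ F s a => ?_, fun v σ w τ F F' s a t a' e => ?_⟩
  · have e : {x | ∃ v σ, K.Fc c v σ ∧ ∃ y ∈ trap, x = tch v (b.m σ) o y} =
        ⋃ i ∈ {q : Rn 3 × Set (Rn 3) | K.Fc c q.1 q.2}, tch i.1 (b.m i.2) o '' trap := by
      ext x
      simp only [mem_iUnion₂]
      exact ⟨fun ⟨v, σ, F, y, hy, e⟩ => ⟨(v, σ), F, y, hy, e.symm⟩,
        fun ⟨i, F, y, hy, e⟩ => ⟨i.1, i.2, F, y, hy, e.symm⟩⟩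
    rw [e]
    exact hS.isClosed_biUnion fun i _ => (poly_trap.image (tp_tch i.1 (b.m i.2) o)).1.isClosed
  · rintro _ ⟨v, σ, F, y, hy, rfl⟩
    exact tch_mem hc ho hμ F hy
  · rintro _ ⟨v, σ, F, y, hy, rfl⟩ n _ ⟨w, τ, F', y', hy', rfl⟩ e
    rw [eG v σ F y hy, eG w τ F' y' hy'] at e
    exact (D.inj F F' hy hy' ((trap_le hy).2.2.2.lt_of_ne fun l =>
      n ((tch_inn hc ho hμ F hy).2 l)) e.symm o).symm
  · rintro _ ⟨v, σ, F, y, hy, rfl⟩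
    rw [eG v σ F y hy]
    refine ⟨(hb.at F.1.vx).sub (D.mem F hy).1, fun l => ?_⟩
    obtain ⟨τ, F', l⟩ := hb.leg_at hΩ hg F.1.vx (D.mem F hy).1 l
    exact (tch_rb hc hμ o).2 ⟨v, σ, F, y, hy, D.leg F F' hy l, rfl⟩
  · rintro _ ⟨x, a, rfl⟩
    obtain ⟨v, σ, F, y, hy, l, rfl⟩ := (tch_rb hc hμ o).1 a
    rw [eG v σ F y hy]
    exact image_mono (fun _ a => (k_rb hc hμ).2 ⟨v, σ, F, a⟩)
      ((hg v σ F.1).ge ((D.axis F).le ⟨y, ⟨hy, l⟩, rfl⟩))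
  · rintro _ ⟨x, a, rfl⟩
    obtain ⟨v, σ, F, a⟩ := (k_rb hc hμ).1 a
    obtain ⟨y, hy, e⟩ := (D.axis F).ge ((hg v σ F.1).le ⟨x, a, rfl⟩)
    exact ⟨_, (tch_rb hc hμ o).2 ⟨v, σ, F, y, hy.1, hy.2, rfl⟩, (eG v σ F y hy.1).trans e⟩
  · rintro ⟨⟨v, σ, F, y, hy, rfl⟩, a⟩
    have l := (tch_inn hc ho hμ F hy).1 a
    obtain ⟨l1, -, l2, -⟩ := trap_le hy
    refine ⟨v, σ, F, 1 - 2 * y 0, ⟨by linarith, by linarith⟩, congrArg _ (funext fun i => ?_)⟩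
    fin_cases i
    exacts [show y 0 = (1 - (1 - 2 * y 0)) / 2 by ring, l]
  · rintro ⟨v, σ, F, s, a, rfl⟩
    exact ⟨⟨v, σ, F, _, (m s a).1, rfl⟩, (tch_inn hc ho hμ F (m s a).1).2 rfl⟩
  · rw [eG v σ F _ (m s a).1, D.top F (m s a).2]
    rcases far_cases (m s a).1 (m s a).2 (b.p f σ) (L.g0 v σ F) with l | l
    · exact (lt_irrefl _ l.2.1).elim
    · exact l.2.2.trans (congrArg _ (show 1 - 2 * ((1 - s) / 2) = s by ring))
  · obtain ⟨l1, l2⟩ := tch_eq hc ho hμ F F' (m s a).1 (m t a').1 e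
    have l3 : (1 - s) / 2 = (1 - t) / 2 := congrFun l1 0
    refine l2.imp (·.1) fun l => ?_
    have l4 : (1 - s) / 2 + 1 / 2 = 1 := l.2
    exact ⟨l.1, by linarith, by linarith⟩

end BEp
end
end

-- merged part: Pool.Agent.Work.MP_f0515e_an.D3.FMod
section
/-! Charts for the complement of finitely many rays. -/

open Set Metric Filter Topology Function BEv
open scoped NNReal

noncomputable section
namespace BEp

/-- Central projection to a paraboloid: `x = nuP x • (sgP x, (‖sgP x‖ ^ 2 - 1) / 2)`. -/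
def nuP (x : Rn 3) : ℝ := √(‖pj3 x‖ ^ 2 + x 2 ^ 2) - x 2

def sgP (x : Rn 3) : Rn 2 := (nuP x)⁻¹ • pj3 x

theorem nuP_cont : Continuous nuP :=
  ((tp_pj3.continuous.norm.pow 2).add ((continuous_apply 2).pow 2)).sqrt.sub (continuous_apply 2)

theorem nuP_nonneg (x : Rn 3) : 0 ≤ nuP x :=
  sub_nonneg.2 (Real.le_sqrt_of_sq_le (le_add_of_nonneg_left (sq_nonneg _)))

theorem nuP_mul (x : Rn 3) : nuP x * (nuP x + 2 * x 2) = ‖pj3 x‖ ^ 2 := by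
  have := Real.sq_sqrt (add_nonneg (sq_nonneg ‖pj3 x‖) (sq_nonneg (x 2)))
  unfold nuP
  linear_combination this

theorem nuP_zero {x : Rn 3} (h : nuP x = 0) : pj3 x = 0 ∧ 0 ≤ x 2 := by
  have e := nuP_mul x
  rw [h, zero_mul, eq_comm, sq_eq_zero_iff, norm_eq_zero] at e
  exact ⟨e, sub_eq_zero.1 h ▸ Real.sqrt_nonneg _⟩

theorem sgP_cont : ContinuousOn sgP {x | nuP x ≠ 0} :=
  (nuP_cont.continuousOn.inv₀ fun _ h => h).smul tp_pj3.continuous.continuousOn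

theorem sgP_norm {x : Rn 3} (h : nuP x ≠ 0) : nuP x * ‖sgP x‖ = ‖pj3 x‖ := by
  rw [sgP, norm_smul, norm_inv, Real.norm_of_nonneg (nuP_nonneg x), mul_inv_cancel_left₀ h]

theorem sgP_par {x : Rn 3} (h : nuP x ≠ 0) :
    x = nuP x • mk3 (sgP x) ((‖sgP x‖ ^ 2 - 1) / 2) := by
  have e : x 2 = nuP x * ((‖sgP x‖ ^ 2 - 1) / 2) := mul_left_cancel₀ h (by
    have := nuP_mul x
    rw [← sgP_norm h] at this
    linear_combination this / 2)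
  ext i
  fin_cases i
  · exact (mul_inv_cancel_left₀ h _).symm
  · exact (mul_inv_cancel_left₀ h _).symm
  · exact e

theorem sgP_eq {x y : Rn 3} (hx : nuP x ≠ 0) (hy : nuP y ≠ 0) (e : sgP x = sgP y) :
    x = (nuP x / nuP y) • y := by
  refine (sgP_par hx).trans (Eq.trans ?_ (congrArg _ (sgP_par hy).symm))
  rw [e, smul_smul, div_mul_cancel₀ _ hy]

theorem sgP_big {x : Rn 3} (h : nuP x ≠ 0) : 2 * x 2 ≤ ‖pj3 x‖ * ‖sgP x‖ := by
  have h0 := (nuP_nonneg x).lt_of_ne' h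
  refine le_of_mul_le_mul_left ?_ h0
  have := nuP_mul x
  rw [mul_left_comm _ ‖_‖, sgP_norm h]
  nlinarith [mul_pos h0 h0]

/-- Two shears move finitely many points of the plane to the first axis. -/
theorem shear_pts {ι : Type} [Nonempty ι] {T : Set ι} (hT : T.Finite) {a : ι → Rn 2}
    (ha : InjOn a T) : ∃ (Θ : Rn 2 → Rn 2) (c : ι → ℝ), Continuous Θ ∧ Injective Θ ∧
      (∀ j ∈ T, Θ (a j) = ![c j, 0]) ∧
      ∀ R : ℝ, ∃ R' : ℝ, 0 < R' ∧ ∀ z, R' ≤ ‖z‖ → ∀ s ∈ Icc (0 : ℝ) 1, R < ‖Θ z + s • (z - Θ z)‖ := by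
  obtain ⟨l, hl⟩ := ((hT.prod hT).image fun q : ι × ι =>
    -((a q.1 0 - a q.2 0) / (a q.1 1 - a q.2 1))).exists_notMem
  have hc : InjOn (fun j => a j 0 + l * a j 1) T := fun i hi j hj e => by
    have e1 : a i 1 = a j 1 := by_contra fun k => hl ⟨(i, j), ⟨hi, hj⟩, by
      have := sub_ne_zero.2 k
      field_simp
      linear_combination -e⟩
    refine ha hi hj (funext fun t => ?_)
    fin_cases t
    · simpa [e1] using e
    · exact e1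
  obtain ⟨g, cg, eg⟩ := ext_on (hT.image fun j => a j 0 + l * a j 1).isClosed
    ((hT.image _).continuousOn fun τ => a (invFunOn (fun j => a j 0 + l * a j 1) T τ) 1)
  obtain ⟨H0, hH⟩ := (hT.image fun j => |a j 1|).bddAbove
  obtain ⟨h, ch, H, bh, eh⟩ : ∃ h : ℝ → ℝ, Continuous h ∧ ∃ H, (∀ τ, |h τ| ≤ H) ∧
      ∀ j ∈ T, h (a j 0 + l * a j 1) = a j 1 := by
    refine ⟨fun τ => max (-|H0|) (min |H0| (g τ)), by fun_prop, |H0|, fun τ => abs_le.2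
      ⟨le_max_left _ _, max_le (neg_le_self (abs_nonneg _)) (min_le_left _ _)⟩, fun j hj => ?_⟩
    have k := abs_le.1 ((hH ⟨j, hj, rfl⟩).trans (le_abs_self H0))
    simp only [eg ⟨j, hj, rfl⟩, hc.leftInvOn_invFunOn hj, min_eq_right k.2, max_eq_right k.1]
  have H0 := (abs_nonneg _).trans (bh 0)
  refine ⟨fun z => ![z 0 + l * z 1, z 1 - h (z 0 + l * z 1)], fun j => a j 0 + l * a j 1,
    by fun_prop, fun z w e => ?_, fun j hj => by simp [eh j hj], fun R =>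
      ⟨(1 + |l|) * (|R| + H) + 1, by positivity, fun z hz s hs => lt_of_not_ge fun k => ?_⟩⟩
  · have e0 : z 0 + l * z 1 = w 0 + l * w 1 := congrFun e 0
    have e1 : z 1 - h (z 0 + l * z 1) = w 1 - h (w 0 + l * w 1) := congrFun e 1
    rw [e0, sub_left_inj] at e1
    ext t
    fin_cases t
    · simpa [e1] using e0
    · exact e1
  · have k0 : |z 0 + (1 - s) * (l * z 1)| ≤ |R| := by
      refine le_trans (le_of_eq (congrArg abs ?_))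
        (((norm_le_pi_norm _ 0).trans k).trans (le_abs_self R))
      change _ = z 0 + l * z 1 + s * (z 0 - (z 0 + l * z 1))
      ring
    have k1 : |z 1 - (1 - s) * h (z 0 + l * z 1)| ≤ |R| := by
      refine le_trans (le_of_eq (congrArg abs ?_))
        (((norm_le_pi_norm _ 1).trans k).trans (le_abs_self R))
      change _ = z 1 - h (z 0 + l * z 1) + s * (z 1 - (z 1 - h (z 0 + l * z 1)))
      ring
    have b : ∀ t, |(1 - s) * t| ≤ |t| := fun t => by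
      rw [abs_mul, abs_of_nonneg (sub_nonneg.2 hs.2)]
      exact mul_le_of_le_one_left (abs_nonneg t) (sub_le_self _ hs.1)
    have b1 : |z 1| ≤ |R| + H := by
      have := abs_add_le (z 1 - (1 - s) * h (z 0 + l * z 1)) ((1 - s) * h (z 0 + l * z 1))
      rw [sub_add_cancel] at this
      linarith [b (h (z 0 + l * z 1)), bh (z 0 + l * z 1)]
    have b0 : |z 0| ≤ |R| + |l| * (|R| + H) := by
      have := abs_sub (z 0 + (1 - s) * (l * z 1)) ((1 - s) * (l * z 1))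
      rw [add_sub_cancel_right] at this
      linarith [b (l * z 1), abs_mul l (z 1), mul_le_mul_of_nonneg_left b1 (abs_nonneg l)]
    have : ‖z‖ ≤ (1 + |l|) * (|R| + H) := (pi_norm_le_iff_of_nonneg (by positivity)).2 fun t => by
      have : 0 ≤ |l| * (|R| + H) := by positivity
      fin_cases t
      · exact b0.trans (by linarith)
      · exact b1.trans (by linarith)
    linarith

theorem sort_fin {ι : Type} {T : Set ι} (hT : T.Finite) {c : ι → ℝ} (hc : InjOn c T) (j0 : ι) :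
    ∃ (m : ℕ) (e : ℕ → ι), e 0 = j0 ∧ (∀ k ∈ Icc 1 m, e k ∈ T) ∧ (∀ j ∈ T, ∃ k ∈ Icc 1 m, e k = j) ∧
      StrictMonoOn (fun k => c (e k)) (Icc 1 m) := by
  have : Nonempty ι := ⟨j0⟩
  let s := (hT.image c).toFinset
  let o := s.orderEmbOfFin rfl
  let e : ℕ → ι := fun k => if h : k ≠ 0 ∧ k - 1 < s.card then invFunOn c T (o ⟨k - 1, h.2⟩) else j0
  have k1 : ∀ i, ∃ j ∈ T, c j = o i := fun i =>
    (hT.image c).mem_toFinset.1 (s.orderEmbOfFin_mem rfl i)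
  have k3 : ∀ k ∈ Icc 1 s.card, k ≠ 0 ∧ k - 1 < s.card := fun k h => by
    have := mem_Icc.1 h
    omega
  have k2 : ∀ k h, e k = invFunOn c T (o ⟨k - 1, (k3 k h).2⟩) := fun k h => dif_pos (k3 k h)
  refine ⟨s.card, e, dif_neg (by simp), fun k h => k2 k h ▸ invFunOn_mem (k1 _), fun j hj => ?_,
    fun i hi k hk h => ?_⟩
  · obtain ⟨i, hi⟩ : c j ∈ range o := by
      rw [s.range_orderEmbOfFin]
      exact (hT.image c).mem_toFinset.2 ⟨j, hj, rfl⟩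
    have h : i.1 + 1 ∈ Icc 1 s.card := ⟨by omega, i.2⟩
    refine ⟨_, h, (k2 _ h).trans ?_⟩
    rw [← hc.leftInvOn_invFunOn hj, ← hi]
    rfl
  · simp only [k2 i hi, k2 k hk, invFunOn_eq (k1 _)]
    exact o.strictMono (Fin.mk_lt_mk.2 (by have := hi.1; omega))

/-- Winding about a mark, in a chart `(ζ, η)` near `d` in which the line of `d` is a fibre. -/
theorem mod_end {p d : Rn 3} {M : Rn 3 ≃L[ℝ] Rn 3} {W U N : Set (Rn 3)} {φ : Rn 3 → Rn 3}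
    (hφ : ContinuousOn φ W) (hi : InjOn φ W) (hW : bx p M ⊆ W) (hd : φ p = d)
    (hsg : ∃ s0 : ℝ, s0 ≠ 0 ∧ ∀ y : Rn 3, ‖y‖ ≤ 1 → ∀ s : ℝ,
      φ (p + M y) = s • d → y = 0 ∨ 0 < s0 * (s - 1) * y 2)
    (hU : U ∈ 𝓝 d) (hN : N ∈ 𝓝 p) {ζ : Rn 3 → Rn 2} {η : Rn 3 → ℝ} (cζ : ContinuousOn ζ U)
    (cη : ContinuousOn η U) (inj : ∀ x ∈ U, ∀ y ∈ U, ζ x = ζ y → η x = η y → x = y) (h0 : 0 < η d)
    (ln : ∀ x ∈ U, ζ x = ζ d → x = (η x / η d) • d) {ρ : ℝ} (hρ : 0 < ρ) :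
    ∃ (r : ℝ) (M' : Rn 3 ≃L[ℝ] Rn 3), (0 < r ∧ r ≤ 1 ∧ Resc M M' r) ∧
      (∀ x ∈ bx p M', x ∈ N ∧ φ x ∈ U) ∧
      Htp (dsq p M') {0}ᶜ (fun x => ζ (φ x) - ζ d) (fun x => ρ • pj3 (co p M' x)) := by
  obtain ⟨s0, s1, hs⟩ := hsg
  have b : bx p M ∈ 𝓝 p := (tp_co p M).continuous.norm.continuousAt.preimage_mem_nhds
    (Iic_mem_nhds (by simp))
  obtain ⟨r, r0, r1, hr⟩ := small_box p M (inter_mem hN
    ((hφ.continuousAt (mem_of_superset b hW)).preimage_mem_nhds (hd ▸ hU)))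
  have n : ∀ y ∈ closedBall (0 : Rn 3) 1, ‖r • y‖ ≤ r := fun y hy => by
    rw [norm_smul, Real.norm_of_nonneg r0.le]
    exact mul_le_of_le_one_right r0.le (mem_closedBall_zero_iff.1 hy)
  have mW : MapsTo (fun y => p + M (r • y)) (closedBall 0 1) W := fun y hy =>
    hW ((congrArg norm (co_add ..)).trans_le ((n y hy).trans r1))
  have mU : MapsTo (fun y => φ (p + M (r • y))) (closedBall 0 1) U := fun y hy =>
    (hr _ (by simpa only [co_add] using n y hy)).2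
  have cF : ContinuousOn (fun y => φ (p + M (r • y))) (closedBall 0 1) := hφ.comp (by fun_prop) mW
  have z : φ (p + M (r • 0)) = d := by rw [smul_zero, map_zero, add_zero, hd]
  obtain ⟨ε, hε, hH⟩ := wind_htp (σ := s0) (cζ.comp cF mU) (cη.comp cF mU)
    (fun x hx y hy e e' => smul_right_injective _ r0.ne' (M.injective (add_left_cancel
      (hi (mW hx) (mW hy) (inj _ (mU hx) _ (mU hy) e e'))))) (fun x hx e => by
      simp only [comp_apply, z] at e ⊢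
      refine (hs _ ((n x hx).trans r1) _ (ln _ (mU hx) e)).imp
        (fun k => (smul_eq_zero.1 k).resolve_left r0.ne') fun k => ?_
      have := mul_pos k (div_pos h0 r0)
      rw [Pi.smul_apply, smul_eq_mul] at this
      refine this.trans_eq ?_
      field_simp) s1
  obtain ⟨M', hM⟩ := exists_resc M r0.ne' hε
  have h2 : ε * ε = 1 := by rcases hε with rfl | rfl <;> norm_num
  have hR : Resc M M' r := ⟨ε, hε, hM⟩
  have c := (tp_co p M').continuous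
  refine ⟨r, M', ⟨r0, r1, hR⟩, fun x hx => hr x ((hR.norm r0 p x).1.trans_le
    (mul_le_of_le_one_right r0.le hx)), Htp.trans (v := fun x => pj3 (co p M' x))
    ((hH.pre (g := fun x => ![co p M' x 0, ε * co p M' x 1]) (by fun_prop) fun x hx => ?_).congr
      (fun x hx => ?_) fun x _ => ?_) (Htp.line (tp_pj3.continuous.comp c).continuousOn
      ((tp_pj3.continuous.comp c).const_smul ρ).continuousOn fun x hx s hs e => ?_)⟩
  · rw [mem_sphere_zero_iff_norm, ← hx.1, ← fha_norm hε]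
    exact (PUp_norm (x := ![co p M' x 0, ε * co p M' x 1, co p M' x 2]) hx.2).symm
  · simp only [comp_apply, z]
    conv_lhs => rw [← add_co p M' x, hM, ← map_smul, hx.2]
    rfl
  · ext t
    fin_cases t
    · rfl
    · simp [← mul_assoc, h2]
  · have e' : (1 - s + s * ρ) • pj3 (co p M' x) = 0 := Eq.trans (by module) e
    refine (smul_eq_zero.1 e').elim (fun k => ?_) fun k => by simpa [k] using (dsq_pj hx).1
    rcases hs.1.eq_or_lt with rfl | h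
    · simp at k
    · linarith [mul_pos h hρ, hs.2]

end BEp
end
end

-- merged part: Pool.Agent.Work.MP_f0515e_an.D3.FRet
section
/-! A compact set off the rays retracts to the sphere without the marks. -/

open Set Metric Filter Topology Function BEv
open scoped NNReal

noncomputable section
namespace BEp

/-- The case of sorted marks and of a map `u` to the punctured plane which winds once about each
mark. -/
theorem ret_sorted {B S X : Set (Rn 3)} (hB : Ball B S) {m : ℕ} {p : ℕ → Rn 3}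
    {M : ℕ → Rn 3 ≃L[ℝ] Rn 3} (h : Hol S (Iic m) p M) {c ρ : ℕ → ℝ} (pos : ∀ j ≤ m, 0 < ρ j)
    (c0 : c 0 = 0) (sp : ∀ j, 1 ≤ j → j < m → c j + ρ j < c (j + 1) - ρ (j + 1))
    (big : ∀ j, 1 ≤ j → j ≤ m → |c j| + ρ j < ρ 0) (hX : IsCompact X)
    (hd : ∀ j ≤ m, ∀ x ∈ bx (p j) (M j), x ∉ X) {u : Rn 3 → Rn 2}
    (hu : ContinuousOn u (X ∪ hol S (Iic m) p M))
    (hm : MapsTo u (X ∪ hol S (Iic m) p M) (pun (Icc 1 m) c))
    (hH : ∀ j ≤ m, Htp (dsq (p j) (M j)) (pun (Icc 1 m) c) u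
      fun x => ρ j • pj3 (co (p j) (M j) x) + ![c j, 0]) :
    ∃ r : Rn 3 → Rn 3, ContinuousOn r X ∧ (∀ x ∈ X, r x ∈ S ∧ ∀ j ≤ m, r x ≠ p j) ∧
      ∀ x ∈ X ∩ S, r x = x := by
  choose! k hk using hH
  obtain ⟨χ, H, t, e, hH, -⟩ := norm_holes h hB.poly' (fdc_open m c) (hu.mono subset_union_right)
    (hm.mono_left subset_union_right)
    (fun j _ => ((tp_pj3.comp (tp_co _ _)).const_smul _).add (TP.const _)) hk
  have hc : ChH S m p M χ c ρ := ⟨h, t, fun j hj x hx => (e j hj hx).trans (by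
    ext i
    fin_cases i <;> simp [add_comm]), pos, c0, sp, big, hH.contr.2⟩
  obtain ⟨Dp, Dm, J, β, w, o, hw⟩ := chain hB hc
  have s : X ∩ S ⊆ hol S (Iic m) p M := fun x k =>
    ⟨k.2, fun j hj => (not_le.1 fun q => hd j hj x q k.1).le⟩
  exact ret_core hc o hX s (hu.mono subset_union_left) (hm.mono_left subset_union_left)
    ((Htp.trans ⟨H, hH⟩ hw).mono s Subset.rfl)

theorem retract0 {ι : Type} {B S W X : Set (Rn 3)} (hB : Ball B S) {T : Set ι} {p : ι → Rn 3}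
    {M : ι → Rn 3 ≃L[ℝ] Rn 3} (h : Hol S T p M) {j0 : ι} (hj0 : j0 ∈ T) {φ : Rn 3 → Rn 3}
    (hφ : ContinuousOn φ W) (hi : InjOn φ W) (hW : ∀ j ∈ T, bx (p j) (M j) ⊆ W) (hS : S ⊆ W)
    (hXW : X ⊆ W) {d : ι → Rn 3} (hd : ∀ j ∈ T, φ (p j) = d j) (hd0 : ∀ j ∈ T, d j ≠ 0)
    (hray : ∀ i ∈ T, ∀ j ∈ T, ∀ s : ℝ, 0 < s → d i = s • d j → i = j)
    (hsg : ∀ j ∈ T, ∃ s0 : ℝ, s0 ≠ 0 ∧ ∀ y : Rn 3, ‖y‖ ≤ 1 → ∀ s : ℝ,
      φ (p j + M j y) = s • d j → y = 0 ∨ 0 < s0 * (s - 1) * y 2)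
    (hX : IsCompact X) (hXr : ∀ x ∈ X, ∀ j ∈ T, ∀ s : ℝ, 0 ≤ s → φ x ≠ s • d j)
    (hSr : ∀ x ∈ S, ∀ j ∈ T, ∀ s : ℝ, 0 ≤ s → φ x = s • d j → ∃ i ∈ T, x = p i)
    (e2 : d j0 = mk3 0 1) :
    ∃ r : Rn 3 → Rn 3, ContinuousOn r X ∧ (∀ x ∈ X, r x ∈ S ∧ ∀ j ∈ T, r x ≠ p j) ∧
      ∀ x ∈ X ∩ S, r x = x := by
  have : Nonempty ι := ⟨j0⟩
  have ax : ∀ x : Rn 3, pj3 x = 0 → x = x 2 • d j0 := fun x k => by
    rw [e2, ← mk3_pj3 x, k]
    ext i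
    fin_cases i <;> simp
  have n0 : ∀ j ∈ T \ {j0}, nuP (d j) ≠ 0 := fun j hj k => by
    have q := ax _ (nuP_zero k).1
    exact hj.2 (hray j hj.1 j0 hj0 _ ((nuP_zero k).2.lt_of_ne' fun z =>
      hd0 j hj.1 (by rw [q, z, zero_smul])) q)
  have np : ∀ x, nuP x ≠ 0 → 0 < nuP x := fun x => (nuP_nonneg x).lt_of_ne'
  have ia : InjOn (fun j => sgP (d j)) (T \ {j0}) := fun i k j k' e => hray i k.1 j k'.1 _
    (div_pos (np _ (n0 i k)) (np _ (n0 j k'))) (sgP_eq (n0 i k) (n0 j k') e)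
  obtain ⟨Θ, c1, cΘ, iΘ, eΘ, bΘ⟩ := shear_pts h.fin.sdiff ia
  obtain ⟨m, e, e0, e1, e3, mo⟩ := sort_fin (c := c1) h.fin.sdiff (fun i k j k' q =>
    ia k k' (iΘ (by rw [eΘ i k, eΘ j k', q]))) j0
  have eT : ∀ k ≤ m, e k ∈ T := fun k hk => (Nat.eq_zero_or_pos k).elim
    (fun z => by rwa [z, e0]) fun z => (e1 k ⟨z, hk⟩).1
  have ei : ∀ i ≤ m, ∀ k ≤ m, i ≠ k → e i ≠ e k := fun i a k b ne q => by
    rcases Nat.eq_zero_or_pos i with rfl | z <;> rcases Nat.eq_zero_or_pos k with rfl | z'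
    exacts [ne rfl, (e1 k ⟨z', b⟩).2 (q.symm.trans e0), (e1 i ⟨z, a⟩).2 (q.trans e0),
      ne (mo.injOn ⟨z, a⟩ ⟨z', b⟩ (congrArg c1 q))]
  obtain ⟨c, c0, ce⟩ : ∃ c : ℕ → ℝ, c 0 = 0 ∧ ∀ k ∈ Icc 1 m, c k = c1 (e k) :=
    ⟨fun k => if k = 0 then 0 else c1 (e k), rfl, fun k q => if_neg (Nat.ne_of_gt q.1)⟩
  have ev : ∀ i ∈ Icc 1 m, ∀ k ∈ Icc 1 m, ∀ᶠ δ in 𝓝[>] (0 : ℝ), i ≠ k → 2 * δ < |c i - c k| := by
    intro i a k b
    by_cases q : i = k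
    · exact .of_forall fun _ z => absurd q z
    have : 0 < |c i - c k| := abs_pos.2 (sub_ne_zero.2 fun z => q (mo.injOn a b
      ((ce i a).symm.trans (z.trans (ce k b)))))
    exact mem_of_superset (Ioo_mem_nhdsGT (half_pos this)) fun δ z _ => by linarith [z.2]
  obtain ⟨δ, hδ, δ0⟩ := (((eventually_all_finite (finite_Icc 1 m)).2 fun i a =>
    (eventually_all_finite (finite_Icc 1 m)).2 (ev i a)).and self_mem_nhdsWithin).exists
  replace δ0 : 0 < δ := δ0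
  obtain ⟨R, hR⟩ := ((finite_Iic m).image fun k => |c k|).bddAbove
  replace hR : ∀ k ≤ m, |c k| ≤ R := fun k q => hR ⟨k, q, rfl⟩
  have R0 := (abs_nonneg _).trans (hR 0 m.zero_le)
  have far : {y : Rn 2 | R < ‖y‖} ⊆ pun (Icc 1 m) c := fun y z k q w => by
    subst w
    refine not_le.2 z ((pi_norm_le_iff_of_nonneg R0).2 fun i => ?_)
    fin_cases i
    exacts [hR k q.2, by simpa using R0]
  obtain ⟨R', R1, hR'⟩ := bΘ R
  obtain ⟨ρ, ρ0, ρ1⟩ : ∃ ρ : ℕ → ℝ, ρ 0 = R + δ + 1 ∧ ∀ k, 1 ≤ k → ρ k = δ :=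
    ⟨fun k => if k = 0 then R + δ + 1 else δ, rfl, fun k q => if_neg (Nat.ne_of_gt q)⟩
  have pos : ∀ k, 0 < ρ k := fun k => (Nat.eq_zero_or_pos k).elim
    (fun z => by rw [z, ρ0]; positivity) fun z => (ρ1 k z).symm ▸ δ0
  have nX : ∀ j ∈ T, Xᶜ ∈ 𝓝 (p j) := fun j q => hX.isClosed.isOpen_compl.mem_nhds fun z =>
    hXr _ z j q 1 zero_le_one (by rw [hd j q, one_smul])
  have oU : IsOpen {x | nuP x ≠ 0} := isOpen_ne_fun nuP_cont continuous_const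
  have cχ : ContinuousOn (fun x => Θ (sgP x)) {x | nuP x ≠ 0} := cΘ.comp_continuousOn sgP_cont
  have nd : ∀ q N t, ∀ x ∈ dsq q N, 0 < t → ‖t • pj3 (co q N x)‖ = t := fun q N t x z t0 => by
    rw [norm_smul, mem_sphere_zero_iff_norm.1 (dsq_pj z).1, mul_one, Real.norm_of_nonneg t0.le]
  have key : ∀ k ≤ m, ∃ (r : ℝ) (M' : Rn 3 ≃L[ℝ] Rn 3), (0 < r ∧ r ≤ 1 ∧ Resc (M (e k)) M' r) ∧
      (∀ x ∈ bx (p (e k)) M', x ∉ X) ∧ Htp (dsq (p (e k)) M') (pun (Icc 1 m) c)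
        (fun x => Θ (sgP (φ x))) fun x => ρ k • pj3 (co (p (e k)) M' x) + ![c k, 0] := by
    intro k hk
    rcases Nat.eq_zero_or_pos k with rfl | z
    · rw [e0]
      have c2 : Continuous fun x : Rn 3 => x 2 := continuous_apply 2
      obtain ⟨r, M', a, b, hH⟩ := mod_end (U := {x | 1 / 2 < x 2 ∧ R' * ‖pj3 x‖ < 1}) hφ hi
        (hW j0 hj0) (hd j0 hj0) (hsg j0 hj0) (((isOpen_lt continuous_const c2).inter (isOpen_lt
          (continuous_const.mul tp_pj3.continuous.norm) continuous_const)).mem_nhds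
          (by rw [e2]; norm_num)) (nX j0 hj0) tp_pj3.continuous.continuousOn c2.continuousOn
        (fun x _ y _ q q' => by rw [← mk3_pj3 x, q, q', mk3_pj3]) (by rw [e2]; exact one_pos)
        (fun x _ q => by
          rw [e2, pj3_mk3] at q
          simpa [e2] using ax x q) (pos 0)
      simp only [e2, pj3_mk3, sub_zero] at hH
      have y0 : ∀ x ∈ dsq (p j0) M', pj3 (φ x) ≠ 0 := fun x q => hH.elim fun _ w => w.contl.2 q
      have ν0 : MapsTo φ (dsq (p j0) M') {x | nuP x ≠ 0} := fun x q w => y0 x q (nuP_zero w).1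
      have cφ : ContinuousOn φ (dsq (p j0) M') := hφ.mono fun x q => hW j0 hj0
        ((a.2.2.norm a.1 _ x).1.trans_le (mul_le_one₀ a.2.1 (norm_nonneg _) q.1.le))
      have bg : ∀ x ∈ dsq (p j0) M', R' ≤ ‖sgP (φ x)‖ := fun x q => by
        have u1 := (b x q.1.le).2
        refine le_of_mul_le_mul_right ?_ (norm_pos_iff.2 (y0 x q))
        linarith [sgP_big (ν0 q), u1.1, u1.2]
      refine ⟨r, M', a, fun x q => (b x q).1, (Htp.trans (O := {y | R < ‖y‖})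
        (Htp.line (cχ.comp cφ ν0) (sgP_cont.comp cφ ν0) fun x q => hR' _ (bg x q))
        ((htp_norm (I := Ioi R) (Htp.trans (Htp.line (sgP_cont.comp cφ ν0)
          (tp_pj3.continuous.comp_continuousOn cφ) fun x q s hs w => ?_) hH) (convex_Ioi R)
          (fun x q => by simpa using hR' _ (bg x q) 1 ⟨zero_le_one, le_rfl⟩) fun x q => ?_).mono
          Subset.rfl fun y w => w.2)).mono Subset.rfl far |>.congr (fun _ _ => rfl) fun x _ => ?_⟩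
      · have w' : ((1 - s) * (nuP (φ x))⁻¹ + s) • pj3 (φ x) = 0 :=
          Eq.trans (by simp only [sgP, comp_apply]; module) w
        have := inv_pos.2 (np _ (ν0 q))
        refine (smul_eq_zero.1 w').elim (fun v => ?_) (y0 x q)
        rcases hs.1.eq_or_lt with rfl | v'
        · simp at v
          exact ν0 q v
        · linarith [mul_nonneg (sub_nonneg.2 hs.2) this.le]
      · rw [nd _ _ _ x q (pos 0), ρ0, mem_Ioi]
        linarith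
      · ext i
        fin_cases i <;> simp [c0]
    · have q := e1 k ⟨z, hk⟩
      have v : Θ (sgP (d (e k))) = ![c k, 0] := by rw [eΘ _ q, ce k ⟨z, hk⟩]
      obtain ⟨r, M', a, b, hH⟩ := mod_end
        (U := {x | nuP x ≠ 0} ∩ (fun x => Θ (sgP x)) ⁻¹' ball ![c k, 0] (2 * δ)) hφ hi
        (hW _ q.1) (hd _ q.1) (hsg _ q.1) ((cχ.isOpen_inter_preimage oU isOpen_ball).mem_nhds
          ⟨n0 _ q, v ▸ mem_ball_self (by positivity)⟩) (nX _ q.1) (cχ.mono inter_subset_left)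
        nuP_cont.continuousOn (fun x a y b w w' => by
          rw [sgP_eq a.1 b.1 (iΘ w), w', div_self b.1, one_smul]) (np _ (n0 _ q))
        (fun x a w => sgP_eq a.1 (n0 _ q) (iΘ w)) (pos k)
      rw [v] at hH
      refine ⟨r, M', a, fun x w => (b x w).1, ((htp_norm hH (convex_Iio (2 * δ))
        (fun x w => mem_ball_iff_norm.1 (b x w.1.le).2.2) fun x w => ?_).post
        (O' := pun (Icc 1 m) c) (g := fun y => y + ![c k, 0]) (by fun_prop)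
        fun y w i a e => ?_).congr
        (fun x _ => (sub_add_cancel _ _).symm) fun _ _ => rfl⟩
      · rw [nd _ _ _ x w (pos k), ρ1 k z, mem_Iio]
        linarith
      · obtain rfl := eq_sub_of_add_eq e
        exact (hδ i a k ⟨z, hk⟩ fun t => w.1 (by rw [t, sub_self])).not_gt
          ((norm_le_pi_norm _ 0).trans_lt w.2)
  choose! r M' k1 k2 k3 using key
  have h1 : Hol S (Iic m) (fun k => p (e k)) M' := Hol.resc (M := fun k => M (e k))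
    ⟨finite_Iic m, fun k q => h.flat _ (eT k q), fun i a k b ne =>
      h.disj _ (eT i a) _ (eT k b) (ei i a k b ne)⟩ k1
  have ex : ∀ j ∈ T, ∃ k ≤ m, e k = j := fun j q => (eq_or_ne j j0).elim
    (fun z => ⟨0, m.zero_le, e0.trans z.symm⟩) fun z => (e3 j ⟨q, z⟩).imp fun k w => ⟨w.1.2, w.2⟩
  have off : ∀ x ∈ X ∪ hol S (Iic m) (fun k => p (e k)) M', ∀ j ∈ T, ∀ s : ℝ, 0 ≤ s →
      φ x ≠ s • d j := fun x q => q.elim (hXr x) fun q j a s b w => by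
    obtain ⟨i, a', rfl⟩ := hSr x q.1 j a s b w
    obtain ⟨k, b', rfl⟩ := ex i a'
    exact hol_ne q b' rfl
  have ν0 : MapsTo φ (X ∪ hol S (Iic m) (fun k => p (e k)) M') {x | nuP x ≠ 0} := fun x q w =>
    off x q j0 hj0 _ (nuP_zero w).2 (ax _ (nuP_zero w).1)
  obtain ⟨g, g1, g2, g3⟩ := ret_sorted hB h1 (fun k _ => pos k) c0 (fun k a b => by
      have := hδ (k + 1) ⟨by omega, b⟩ k ⟨a, b.le⟩ (by omega)
      have l := mo ⟨a, b.le⟩ ⟨by omega, b⟩ k.lt_succ_self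
      simp only [← ce k ⟨a, b.le⟩, ← ce (k + 1) ⟨by omega, b⟩] at l
      rw [abs_of_pos (sub_pos.2 l)] at this
      rw [ρ1 k a, ρ1 (k + 1) (by omega)]
      linarith) (fun k a b => by rw [ρ0, ρ1 k a]; linarith [hR k b]) hX k2
    (cχ.comp (hφ.mono (union_subset hXW fun x q => hS q.1)) ν0) (fun x q k a w => by
      have b := e1 k a
      exact off x q _ b.1 _ (div_pos (np _ (ν0 q)) (np _ (n0 _ b))).le
        (sgP_eq (ν0 q) (n0 _ b) (iΘ (w.trans (by rw [eΘ _ b, ce k a]))))) k3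
  refine ⟨g, g1, fun x q => ⟨(g2 x q).1, fun j a => ?_⟩, g3⟩
  obtain ⟨k, b, rfl⟩ := ex j a
  exact (g2 x q).2 k b

/-- `φ` is an embedding of `W` sending the marks `p j` to the vectors `d j` on different rays; the
sphere meets the rays only in the marks and crosses them there. -/
theorem retract {ι : Type} {B S W X : Set (Rn 3)} (hB : Ball B S) {T : Set ι} {p : ι → Rn 3}
    {M : ι → Rn 3 ≃L[ℝ] Rn 3} (h : Hol S T p M) {j0 : ι} (hj0 : j0 ∈ T) {φ : Rn 3 → Rn 3}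
    (hφ : ContinuousOn φ W) (hi : InjOn φ W) (hW : ∀ j ∈ T, bx (p j) (M j) ⊆ W) (hS : S ⊆ W)
    (hXW : X ⊆ W) {d : ι → Rn 3} (hd : ∀ j ∈ T, φ (p j) = d j) (hd0 : ∀ j ∈ T, d j ≠ 0)
    (hray : ∀ i ∈ T, ∀ j ∈ T, ∀ s : ℝ, 0 < s → d i = s • d j → i = j)
    (hsg : ∀ j ∈ T, ∃ s0 : ℝ, s0 ≠ 0 ∧ ∀ y : Rn 3, ‖y‖ ≤ 1 → ∀ s : ℝ,
      φ (p j + M j y) = s • d j → y = 0 ∨ 0 < s0 * (s - 1) * y 2)
    (hX : IsCompact X) (hXr : ∀ x ∈ X, ∀ j ∈ T, ∀ s : ℝ, 0 ≤ s → φ x ≠ s • d j)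
    (hSr : ∀ x ∈ S, ∀ j ∈ T, ∀ s : ℝ, 0 ≤ s → φ x = s • d j → ∃ i ∈ T, x = p i) :
    ∃ r : Rn 3 → Rn 3, ContinuousOn r X ∧ (∀ x ∈ X, r x ∈ S ∧ ∀ j ∈ T, r x ≠ p j) ∧
      ∀ x ∈ X ∩ S, r x = x := by
  obtain ⟨L, hL⟩ := SeparatingDual.exists_continuousLinearEquiv_apply_eq (R := ℝ) (hd0 j0 hj0)
    (y := mk3 0 1) fun e => one_ne_zero (congrFun e 2)
  have k : ∀ x (s : ℝ) y, L x = s • L y ↔ x = s • y := fun x s y => by
    rw [← map_smul, L.injective.eq_iff]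
  exact retract0 hB h hj0 (φ := fun x => L (φ x)) (d := fun j => L (d j))
    (L.continuous.comp_continuousOn hφ) (L.injective.comp_injOn hi) hW hS hXW
    (fun j q => congrArg L (hd j q)) (fun j q => L.map_ne_zero_iff.2 (hd0 j q))
    (by simpa only [k] using hray) (by simpa only [k] using hsg) hX
    (by simpa only [Ne, k] using hXr) (by simpa only [k] using hSr) hL

end BEp
end
end

-- merged part: Pool.Agent.Work.MP_f0515e_an.D3.FPush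
section
/-! Pushing a compact set out of the beads; the Dehn lemma with a thin collar. -/

open Set Metric Filter Topology Function BEv
open scoped NNReal

noncomputable section
namespace BEp

section Push
variable {Ω : Set (Rn 3)} {K : Kx Ω} {f g : Rn 3 → Rn 3} {b : BdD} {η : Set (Rn 3) → ℝ}
  {M' N : Set (Rn 3) → Rn 3 ≃L[ℝ] Rn 3} {h : Set (Rn 3) → Rn 3 × ℝ → Rn 3}

/-- `retract` for `φ = invFunOn f Ω - v`, `W = f '' Ω`, `d σ = m σ - v` (`hol_at`, `k_fl_ne`,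
`emb_inv`, `k_ne`, `k_rays`, `Edg.sgn`, `Bead.on_ray`, `k_half_sk`, `Bead1.mark`). -/
theorem fpush_one (hΩ : IsOpen Ω) (hf : ContinuousOn f Ω) (hi : InjOn f Ω) (hb : Bead K f b)
    (R : ∀ σ ∈ K.cel 1, RadK K (b.m σ) σ (η σ))
    (E : ∀ σ ∈ K.cel 1, Edg K f b σ (η σ) (M' σ) (N σ) (h σ)) {v : Rn 3} (hv : K.Vx v)
    {X : Set (Rn 3)} (hX : IsCompact X) (h1 : X ⊆ b.B v) (h2 : X ⊆ f '' (Ω \ K.sk 1)) :
    ∃ r : Rn 3 → Rn 3, ContinuousOn r X ∧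
      (∀ x ∈ X, r x ∈ b.S v ∧ ∀ σ, K.Fl v σ → r x ≠ b.p f σ) ∧ ∀ x ∈ X ∩ b.S v, r x = x := by
  have hB := hb.at hv
  obtain ⟨j0, hj0⟩ := k_fl_ne hΩ hv
  have sk : ∀ x ∈ b.B v, ∀ σ, K.Fl v σ → ∀ s : ℝ, 0 ≤ s →
      invFunOn f Ω x - v = s • (b.m σ - v) → invFunOn f Ω x ∈ K.sk 1 := fun x hx σ k s hs e =>
    k_half_sk k (hb.mk' σ k.cel) (hb.on_ray k hx hs e)
  refine retract (T := {σ | K.Fl v σ}) (W := f '' Ω) (φ := fun x => invFunOn f Ω x - v)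
    (d := fun σ => b.m σ - v)
    (hb.ball hv) (hol_at hΩ hi hb R E v) hj0 ((emb_inv hΩ hf hi).sub continuousOn_const)
    (fun x hx y hy e => invFunOn_injOn_image f Ω hx hy (sub_left_injective e))
    (fun σ k => (E σ k.cel).box.trans (image_mono
      ((ball_subset_ball (by linarith [(R σ k.cel).pos])).trans (R σ k.cel).sub)))
    ((b.S_sub v).trans hB.sub) (h1.trans hB.sub)
    (fun σ k => by rw [BdD.p, hi.leftInvOn_invFunOn (Kx.cells_sub k.cel.1 (hb.mk' σ k.cel))])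
    (fun σ k => sub_ne_zero.2 (k_ne k (hb.mk' σ k.cel)))
    (fun σ k σ' k' s hs e => k_rays k k' (hb.mk' σ k.cel) (hb.mk' σ' k'.cel) hs e)
    (fun σ k => (E σ k.cel).sgn v k) hX (fun x hx σ k s hs e => ?_) fun x hx σ k s hs e => ?_
  · obtain ⟨y, hy, rfl⟩ := h2 hx
    exact hy.2 (hi.leftInvOn_invFunOn hy.1 ▸ sk _ (h1 hx) σ k s hs e)
  · have k1 := invFunOn_eq (hB.sub (b.S_sub v hx))
    obtain ⟨τ, k2, k3⟩ := hB.mark _ (sk _ (b.S_sub v hx) σ k s hs e) (by rwa [k1])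
    exact ⟨τ, k2, by rw [BdD.p, ← k3, k1]⟩

/-- Finitely many beads meet `Y` (`Bead.lf`). Glue (`glue_on`, index `Option`) the maps of
`fpush_one` on `Y ∩ B v` and the identity on `Y \ ⋃ interior (B v)`; they agree by `Bead.meetS`.
A value in the image of the skeleton lies on a leg (`Bead.legs`, `Bead.leg`, `Bead.leg_at`), on a
sphere, so it is a mark; marks are not in `Y` by injectivity of `f`. -/
theorem push_out (hΩ : IsOpen Ω) (hf : ContinuousOn f Ω) (hi : InjOn f Ω) (hb : Bead K f b)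
    (hg : ∀ v σ, K.Fl v σ → g '' segment ℝ v (b.m σ) = b.Leg f v σ)
    (R : ∀ σ ∈ K.cel 1, RadK K (b.m σ) σ (η σ))
    (E : ∀ σ ∈ K.cel 1, Edg K f b σ (η σ) (M' σ) (N σ) (h σ)) {Y : Set (Rn 3)}
    (hY : IsCompact Y) (h2 : Y ⊆ f '' (Ω \ K.sk 1)) :
    ∃ r : Rn 3 → Rn 3, Continuous r ∧ (∀ x ∈ Y, r x ∈ f '' Ω \ g '' K.sk 1) ∧
      ∀ x ∈ Y, ∀ v, K.Vx v → x ∈ b.S v → r x = x := by
  have fin := hb.lf Y hY (h2.trans (image_mono sdiff_subset))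
  generalize hT : {v | v ∈ Ω ∧ K.cell v = {v} ∧ (b.B v ∩ Y).Nonempty} = T at fin
  have vx : ∀ v ∈ T, K.Vx v := fun v k => by
    rw [← hT] at k
    exact ⟨k.1, k.2.1⟩
  have mT : ∀ v, K.Vx v → ∀ x ∈ Y, x ∈ b.B v → v ∈ T := fun v k x k1 k2 =>
    hT ▸ ⟨k.1, k.2, x, k2, k1⟩
  have cl : ∀ v ∈ T, IsCompact (Y ∩ b.B v) := fun v k =>
    hY.inter_right (hb.ball (vx v k)).poly.1.isClosed
  choose! r r1 r2 r3 using fun v (k : v ∈ T) => fpush_one hΩ hf hi hb R E (vx v k) (cl v k)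
    inter_subset_right (inter_subset_left.trans h2)
  have bd : ∀ v ∈ T, ∀ x ∈ b.B v, x ∉ ⋃ v ∈ T, interior (b.B v) → x ∈ b.S v :=
    fun v k x k1 k2 => by_contra fun e =>
      k2 (mem_biUnion k ((hb.ball (vx v k)).interior_eq ▸ ⟨k1, e⟩))
  obtain ⟨G, hG, e⟩ := glue_on (S := insert none (some '' T)) ((fin.image _).insert _)
    (X := fun o => o.elim (Y \ ⋃ v ∈ T, interior (b.B v)) fun v => Y ∩ b.B v)
    (u := fun o => o.elim id r) (by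
      rintro _ (rfl | ⟨v, k, rfl⟩)
      exacts [hY.isClosed.sdiff (isOpen_biUnion fun _ _ => isOpen_interior), (cl v k).isClosed]) (by
      rintro _ (rfl | ⟨v, k, rfl⟩)
      exacts [continuousOn_id, r1 v k]) (by
      rintro _ (rfl | ⟨v, k, rfl⟩) _ (rfl | ⟨w, k', rfl⟩) x hx
      · rfl
      · exact (r3 w k' x ⟨hx.2, bd w k' x hx.2.2 hx.1.2⟩).symm
      · exact r3 v k x ⟨hx.1, bd v k x hx.1.2 hx.2.2⟩
      · rcases eq_or_ne v w with rfl | n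
        · rfl
        · exact (r3 v k x ⟨hx.1, hb.meetS (vx v k) (vx w k') n hx.1.2 hx.2.2⟩).trans
            (r3 w k' x ⟨hx.2, hb.meetS (vx w k') (vx v k) n.symm hx.2.2 hx.1.2⟩).symm)
  have e1 : ∀ v ∈ T, ∀ x ∈ Y ∩ b.B v, G x = r v x := fun v k x hx =>
    e (some v) (.inr ⟨v, k, rfl⟩) hx
  refine ⟨G, hG, fun x hx => ?_, fun x hx v k k1 => ?_⟩
  · by_cases c : x ∈ ⋃ v ∈ T, interior (b.B v)
    · obtain ⟨v, k, c⟩ := mem_iUnion₂.1 c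
      have m : x ∈ Y ∩ b.B v := ⟨hx, interior_subset c⟩
      obtain ⟨k1, k2⟩ := r2 v k x m
      rw [e1 v k x m]
      refine ⟨(hb.at (vx v k)).sub (b.S_sub v k1), fun n => ?_⟩
      obtain ⟨σ, k3, k4⟩ := hb.leg_at hΩ hg (vx v k) (b.S_sub v k1) n
      exact k2 σ k3 ((hb.leg k3 k4).2 k1)
    · rw [show G x = x from e none (.inl rfl) ⟨hx, c⟩]
      refine ⟨image_mono sdiff_subset (h2 hx), fun n => ?_⟩
      obtain ⟨v, σ, k3, k4⟩ := (hb.legs hΩ hg).1 n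
      obtain ⟨k5, k6⟩ := hb.leg k3 k4
      obtain ⟨y, hy, k7⟩ := h2 hx
      have k8 := k_half_sk k3 (hb.mk' σ k3.cel) (right_mem_segment _ _ _)
      exact hy.2 (hi hy.1 k8.1 (k7.trans (k6 (bd v (mT v k3.vx x hx k5) x k5 c))) ▸ k8)
  · have m : x ∈ Y ∩ b.B v := ⟨hx, b.S_sub v k1⟩
    have k2 := mT v k x hx m.2
    exact (e1 v k2 x m).trans (r3 v k2 x ⟨m, k1⟩)

end Push

theorem fpb_norm {n : ℕ} {T : ℝ → ℝ} (hm : StrictMono T) (ho : ∀ t, T (-t) = -T t) (x : Rn n) :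
    ‖dg T x‖ = T ‖x‖ := by
  have h0 : T 0 = 0 := by
    have := ho 0
    rw [neg_zero] at this
    linarith
  have ha : ∀ t, ‖T t‖ = T ‖t‖ := fun t => by
    rw [Real.norm_eq_abs, Real.norm_eq_abs]
    rcases le_total 0 t with h | h
    · rw [abs_of_nonneg h, abs_of_nonneg (h0 ▸ hm.monotone h)]
    · rw [abs_of_nonpos h, abs_of_nonpos (h0 ▸ hm.monotone h), ho]
  have h1 : 0 ≤ T ‖x‖ := h0 ▸ hm.monotone (norm_nonneg x)
  refine le_antisymm ((pi_norm_le_iff_of_nonneg h1).2 fun i => ?_) (not_lt.1 fun h => ?_)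
  · exact (ha _).trans_le (hm.monotone (norm_le_pi_norm x i))
  · have h2 : 0 < ‖x‖ := hm.lt_iff_lt.1 (h0.trans_lt ((norm_nonneg _).trans_lt h))
    refine lt_irrefl _ ((pi_norm_lt_iff h2).2 fun i => hm.lt_iff_lt.1 ?_)
    exact (ha _).symm.trans_lt ((norm_le_pi_norm (dg T x) i).trans_lt h)

theorem fpb_T {r : ℝ} (r0 : 0 < r) (r1 : r < 1) : ∃ T : ℝ → ℝ, LH (dg T : Rn 2 → Rn 2) ∧
    StrictMono T ∧ (∀ t, T (-t) = -T t) ∧ T (1 / 2) = r ∧ T 1 = 1 := by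
  let T : ℝ → ℝ := fun t => 2 * (1 - r) * t + (4 * r - 2) * clamp t (1 / 2)
  have hc : 0 < 2 * min r (1 - r) := mul_pos two_pos (lt_min r0 (sub_pos.2 r1))
  have h : ∀ a b, a ≤ b → 2 * min r (1 - r) * (b - a) ≤ T b - T a := by
    intro a b hab
    have h1 : 0 ≤ clamp b (1 / 2) - clamp a (1 / 2) :=
      sub_nonneg.2 (max_le_max le_rfl (min_le_min hab le_rfl))
    have h2 : clamp b (1 / 2) - clamp a (1 / 2) ≤ b - a := by
      have := abs_clamp_sub_le b (1 / 2) a (1 / 2)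
      rw [sub_self, abs_zero, max_eq_left (abs_nonneg _), abs_of_nonneg (sub_nonneg.2 hab)] at this
      exact (le_abs_self _).trans this
    have h3 := mul_nonneg (sub_nonneg.2 (min_le_left r (1 - r))) h1
    have h4 := mul_nonneg (sub_nonneg.2 (min_le_right r (1 - r))) (sub_nonneg.2 h2)
    simp only [T]
    nlinarith
  refine ⟨T, dg_lh ((TP.id'.const_mul _).add ((TP.id'.clamp (TP.const _)).const_mul _)) hc h,
    fun a b hab => ?_, fun t => ?_, ?_, ?_⟩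
  · exact sub_pos.1 ((mul_pos hc (sub_pos.2 hab)).trans_le (h a b hab.le))
  · have : clamp (-t) (1 / 2) = -clamp t (1 / 2) := by
      simp only [clamp, max_def, min_def]
      split_ifs <;> linarith
    simp only [T, this]
    ring
  · simp only [T, clamp]
    norm_num
    ring
  · simp only [T, clamp]
    norm_num
    ring



/-- `dehn0` after the reparametrisation `ϑ = dg T` of the square (`dg_lh`), with `T` odd, of slope
`2 r` on `[0, 1/2]` and `T 1 = 1`, so that `‖ϑ x‖ = T ‖x‖`. -/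
theorem dehn_thin {u g0 : Rn 2 → Rn 3} (hu : Continuous u) (h0 : TP g0) {r : ℝ} (r0 : 0 < r)
    (r1 : r < 1) (he : ∀ x, r ≤ ‖x‖ → ‖x‖ ≤ 1 → u x = g0 x)
    (hn : ∀ x y, r ≤ ‖x‖ → ‖x‖ ≤ 1 → ‖y‖ ≤ 1 → u y = u x → y = x) {O : Set (Rn 3)}
    (hO : IsOpen O) (huO : ∀ x, ‖x‖ < 1 → u x ∈ O) :
    ∃ D, PDsc D (u '' sphere 0 1) ∧ D ⊆ O ∪ u '' sphere 0 1 := by
  obtain ⟨T, hT, hm, ho, h1, h2⟩ := fpb_T r0 r1
  have hN := fun x : Rn 2 => fpb_norm hm ho x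
  have hle : ∀ x : Rn 2, ‖x‖ ≤ 1 → ‖dg T x‖ ≤ 1 := fun x hx => by
    rw [hN, ← h2]
    exact hm.monotone hx
  have hge : ∀ x : Rn 2, 1 / 2 ≤ ‖x‖ → r ≤ ‖dg T x‖ := fun x hx => by
    rw [hN, ← h1]
    exact hm.monotone hx
  obtain ⟨G, g1, g2, g3, g4⟩ := dehn0 (g := fun x => u (dg T x)) (hu.comp hT.tp.continuous)
    (h0.comp hT.tp) (fun x hx hx' => he _ (hge x hx) (hle x hx'))
    (fun x y hx hx' hy e => hT.inj (hn _ _ (hge x hx) (hle x hx') (hle y hy) e)) hO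
    fun x hx => huO _ (by
      rw [hN, ← h2]
      exact hm (by linarith))
  refine ⟨_, ⟨G, g1, g2, rfl, Subset.antisymm ?_ ?_⟩, ?_⟩
  · rintro _ ⟨x, hx, rfl⟩
    have hx' := mem_sphere_zero_iff_norm.1 hx
    exact ⟨dg T x, mem_sphere_zero_iff_norm.2 (by rw [hN, hx', h2]),
      (g3 x (by linarith) hx'.le).symm⟩
  · rintro _ ⟨y, hy, rfl⟩
    obtain ⟨x, rfl⟩ := hT.1.2 y
    have hx : ‖x‖ = 1 := hm.injective (by rw [← hN, h2, mem_sphere_zero_iff_norm.1 hy])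
    exact ⟨x, mem_sphere_zero_iff_norm.2 hx, g3 x (by linarith) hx.le⟩
  · rintro _ ⟨x, hx, rfl⟩
    have hx' := mem_closedBall_zero_iff.1 hx
    rcases le_total ‖x‖ (3 / 4) with h | h
    · exact Or.inl (g4 x h)
    · rw [g3 x h hx']
      rcases (hle x hx').lt_or_eq with h' | h'
      · exact Or.inl (huO _ h')
      · exact Or.inr ⟨_, mem_sphere_zero_iff_norm.2 h', rfl⟩

/-- A thin collar of the boundary of the square lies in any relatively open set containing the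
boundary. -/
theorem thin_ring {A : Set (Rn 2)} (hA : IsClosed A) (hd : Disjoint A (sphere 0 1)) :
    ∃ r : ℝ, 0 < r ∧ r < 1 ∧ ∀ x, r ≤ ‖x‖ → ‖x‖ ≤ 1 → x ∉ A := by
  have h1 : IsClosed (norm '' (A ∩ closedBall 0 1)) :=
    (((isCompact_closedBall 0 1).inter_left hA).image continuous_norm).isClosed
  obtain ⟨ε, hε, h2⟩ := Metric.isOpen_iff.1 h1.isOpen_compl 1 (by
    rintro ⟨x, hx, e⟩
    exact disjoint_left.1 hd hx.1 (mem_sphere_zero_iff_norm.2 e))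
  refine ⟨max (1 / 2) (1 - ε / 2), lt_max_of_lt_left (by norm_num),
    max_lt (by norm_num) (by linarith), fun x hx hx' hxA => ?_⟩
  refine h2 (a := ‖x‖) ?_ ⟨x, ⟨hxA, mem_closedBall_zero_iff.2 hx'⟩, rfl⟩
  have := (le_max_right _ _).trans hx
  rw [mem_ball, Real.dist_eq, abs_lt]
  constructor <;> linarith

end BEp
end
end

-- merged part: Pool.Agent.Work.MP_f0515e_an.D3.FMain
section
/-! A spanning disc for each face. -/

open Set Metric Filter Topology Function BEv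
open scoped NNReal

noncomputable section
namespace BEp

theorem faces {Ω : Set (Rn 3)} {K : Kx Ω} {f g : Rn 3 → Rn 3} {b : BdD} (hΩ : IsOpen Ω)
    (hf : ContinuousOn f Ω) (hi : InjOn f Ω) (hb : Bead K f b)
    (hg : ∀ v σ, K.Fl v σ → g '' segment ℝ v (b.m σ) = b.Leg f v σ) {c : Set (Rn 3)}
    (hc : c ∈ K.cel 2) :
    ∃ D, PDsc D (g '' rb c) ∧ D ⊆ f '' Ω ∧ D ∩ g '' K.sk 1 ⊆ g '' rb c := by
  choose! η R using fun σ (hσ : σ ∈ K.cel 1) => k_rad hΩ hσ (hb.mk' σ hσ)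
  have E0 : ∀ σ, ∃ (M' N : Rn 3 ≃L[ℝ] Rn 3) (h : Rn 3 × ℝ → Rn 3), σ ∈ K.cel 1 →
      Edg K f b σ (η σ) M' N h := fun σ => by
    by_cases hσ : σ ∈ K.cel 1
    · obtain ⟨M', N, h, k⟩ := edge_data hΩ hf hi hb hσ (R σ hσ)
      exact ⟨M', N, h, fun _ => k⟩
    · exact ⟨.refl _ _, .refl _ _, fun _ => 0, fun e => absurd e hσ⟩
  choose M' N h E using E0
  obtain ⟨q, z, γ, ψ, H, L⟩ := link_arcs hΩ hf hi hb R E hc
  obtain ⟨o, ho⟩ := K.cells_ne hc.1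
  obtain ⟨G, C, tp, cl, cov, inj, sk, bd, hI, val, ov⟩ := collar hΩ hi hb hg R E hc ho L
  obtain ⟨ic, isub⟩ := inn_sub hc ho
  have hH : Htp (C ∩ inn c o) (f '' (Ω \ K.sk 1)) f G :=
    link_htp hf hb hc L tp.continuous
      (P := fun v σ s => tch v (b.m σ) o ![(1 - s) / 2, 1 / 2])
      (fun v σ => (tp_tch _ _ _).continuous.comp (by fun_prop)) hI
      (inter_subset_right.trans isub) val ov
  have iO := isub.trans (k_face_sub hc)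
  obtain ⟨u, cu, eu, mu⟩ := hH.hep ic (cl.inter ic.isClosed) inter_subset_right
    (emb_open hf hi (k_open hΩ K) diff_subset) (hf.mono (iO.trans diff_subset))
    fun x hx => mem_image_of_mem f (iO hx)
  obtain ⟨r, cr, r1, r2⟩ := push_out hΩ hf hi hb hg R E (ic.image cu) mu.image_subset
  obtain ⟨U, cU, e1, e2⟩ := glue_two cl ic.isClosed tp.continuous.continuousOn
    (cr.comp cu).continuousOn fun x hx => by
      obtain ⟨v, σ, F, s, hs, e⟩ := (hI x).1 hx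
      refine (eu hx).symm.trans (r2 _ (mem_image_of_mem u hx.2) v F.1.vx ?_).symm
      rw [eu hx, e, val v σ F s hs]
      exact (L.mem v σ F s hs).1
  obtain ⟨κ, kt, ki, k1, k2⟩ := K.pdsc hc
  have kc : ∀ x, ‖x‖ ≤ 1 → κ x ∈ C ∨ κ x ∈ inn c o := fun x hx => by
    have : κ x ∈ C ∪ inn c o := by
      rw [cov, ← k1]
      exact mem_image_of_mem κ (mem_closedBall_zero_iff.2 hx)
    exact this
  have rC : rb c ⊆ C := fun x hx => (show x ∈ C ∪ inn c o from cov ▸ hx.1).resolve_right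
    fun e => hx.2 (isub e)
  have rs : g '' rb c ⊆ g '' K.sk 1 := image_mono fun x hx =>
    by_contra fun n => hx.2 ((k_cl_sk hc hx.1).2 n)
  obtain ⟨ρ, ρ0, ρ1, hρ⟩ := thin_ring
    (A := κ ⁻¹' inn c o ∪ (fun x => G (κ x)) ⁻¹' (r '' (u '' inn c o)))
    ((ic.isClosed.preimage kt.continuous).union
      (((ic.image cu).image cr).isClosed.preimage (tp.comp kt).continuous))
    (disjoint_right.2 fun x hx => by
      have hx' : κ x ∈ rb c := k2.subset (mem_image_of_mem κ hx)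
      rintro (e | ⟨y, hy, e⟩)
      · exact hx'.2 (isub e)
      · exact (r1 y hy).2 (e ▸ rs (bd ▸ mem_image_of_mem G hx')))
  have eb : (fun x => U (κ x)) '' sphere 0 1 = g '' rb c := by
    rw [← image_image U κ, k2, ← bd]
    exact (e1.mono rC).image_eq
  obtain ⟨D, d1, d2⟩ := dehn_thin (u := fun x => U (κ x)) (cU.comp kt.continuous) (tp.comp kt) ρ0 ρ1
    (fun x h1 h2 => e1 ((kc x h2).resolve_right fun e => hρ x h1 h2 (.inl e)))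
    (fun x y h1 h2 h3 e => by
      have n1 : κ x ∉ inn c o := fun e => hρ x h1 h2 (.inl e)
      have xC := (kc x h2).resolve_right n1
      rw [e1 xC] at e
      rcases kc y h3 with hy | hy
      · exact ki (mem_closedBall_zero_iff.2 h3) (mem_closedBall_zero_iff.2 h2)
          (inj _ xC n1 _ hy ((e1 hy).symm.trans e))
      · exact absurd (.inr ⟨_, mem_image_of_mem u hy, (e2 hy).symm.trans e⟩) (hρ x h1 h2))
    (hb.opn hΩ hf hi hg) fun x hx => by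
      rcases kc x hx.le with hy | hy
      · rw [e1 hy]
        refine ⟨(sk _ hy).1, fun e => ?_⟩
        obtain ⟨y, h1, h2⟩ := k2.superset ((sk _ hy).2 e)
        rw [ki (sphere_subset_closedBall h1) (mem_closedBall_zero_iff.2 hx.le) h2,
          mem_sphere_zero_iff_norm] at h1
        exact hx.ne h1
      · rw [e2 hy]
        exact r1 _ (mem_image_of_mem u hy)
  rw [eb] at d1 d2
  refine ⟨D, d1, fun x hx => (d2 hx).elim (·.1) fun e => ?_,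
    fun x hx => (d2 hx.1).resolve_left fun e => e.2 hx.2⟩
  obtain ⟨y, hy, rfl⟩ := bd.superset e
  exact (sk y (rC hy)).1

end BEp
end
end

-- merged part: Pool.Agent.Work.MP_f0515e_an.D3.XFace0
section
/-! Localised spanning discs: the disc of a face stays near the image of the face. -/

open Set Metric Filter Topology Function BEv
open scoped NNReal

noncomputable section
namespace BEp

theorem xf_rad {Ω : Set (Rn 3)} {K : Kx Ω} {m : Rn 3} {σ : Set (Rn 3)} {η η' : ℝ}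
    (R : RadK K m σ η) (h0 : 0 < η') (h1 : η' ≤ η) : RadK K m σ η' := by
  have s : ball m (2 * η') ⊆ ball m (2 * η) := ball_subset_ball (by linarith)
  exact ⟨h0, s.trans R.sub, fun y hy => R.sk y (s hy), fun v hv t ht => R.line v hv t (s ht),
    fun c hc ⟨x, h2, h3⟩ => R.face c hc ⟨x, h2, s h3⟩,
    fun c hc k o ho v hv z hz => R.half c hc k o ho v hv z (s hz)⟩

theorem xf_edge {Ω : Set (Rn 3)} {K : Kx Ω} {f : Rn 3 → Rn 3} {b : BdD} (hΩ : IsOpen Ω)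
    (hf : ContinuousOn f Ω) (hi : InjOn f Ω) (hb : Bead K f b) {σ : Set (Rn 3)}
    (hσ : σ ∈ K.cel 1) {η : ℝ} (R : RadK K (b.m σ) σ η) :
    ∃ (M' N : Rn 3 ≃L[ℝ] Rn 3) (h : Rn 3 × ℝ → Rn 3), Edg K f b σ η M' N h ∧
      ∀ x ∈ dsq (b.p f σ) M', ∀ s ∈ Icc (0 : ℝ) 1, h (x, s) ∈ ball (b.m σ) η := by
  have hm := hb.mk' σ hσ
  have hs2 : ball (b.m σ) η ⊆ ball (b.m σ) (2 * η) := ball_subset_ball (by linarith [R.pos])
  have hs : ball (b.m σ) η ⊆ Ω := hs2.trans R.sub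
  have hmΩ : b.m σ ∈ Ω := hs (mem_ball_self R.pos)
  obtain ⟨v, w, -, -, hfl⟩ := k_flags hσ
  have hv : K.Fl v σ := (hfl v).2 (.inl rfl)
  obtain ⟨N, κ, hκ, hN, hNs⟩ := FEdge_N (sub_ne_zero.2 (k_ne hv hm)) R.pos
  obtain ⟨r, r0, r1, hr⟩ := FEdge_box hΩ hf hi hb hσ R N
  have k1 : ∀ M', Resc (b.M σ) M' r → ∀ x ∈ bx (b.p f σ) M', x ∈ f '' ball (b.m σ) η ∧
      ‖N.symm (invFunOn f Ω x - b.m σ)‖ ≤ 1 ∧ ∀ w, K.Vx w → ¬ K.Fl w σ → x ∉ b.B w :=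
    fun M' h x hx => hr x (by
      rw [(h.norm r0 _ x).1]
      exact mul_le_of_le_one_right r0.le hx)
  have k2 : ∀ M', Resc (b.M σ) M' r → ∀ u, K.Fl u σ → ∀ y : Rn 3, ‖y‖ ≤ 1 →
      (b.p f σ + M' y ∈ b.S u ↔ y 2 = 0) :=
    fun M' h u hu => h.flat r0 r1 ((hb.at hu.vx).flt σ hu)
  obtain ⟨M0, hM0⟩ := exists_resc (b.M σ) r0.ne' (.inl rfl : (1 : ℝ) = 1 ∨ (1 : ℝ) = -1)
  have R0 : Resc (b.M σ) M0 r := ⟨1, .inl rfl, hM0⟩
  obtain ⟨s0, hs0, hsg⟩ := FEdge_sgn hi hb R hv (fun x hx => (k1 M0 R0 x hx).1) (k2 M0 R0 v hv)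
  have hbx : ∀ y : Rn 3, ‖y‖ ≤ 1 → b.p f σ + M0 y ∈ bx (b.p f σ) M0 := fun y hy => by
    simpa [bx] using hy
  have him : ∀ y ∈ closedBall (0 : Rn 3) 1, b.p f σ + M0 y ∈ f '' Ω := fun y hy =>
    image_mono hs (k1 M0 R0 _ (hbx y (mem_closedBall_zero_iff.1 hy))).1
  obtain ⟨ε, hε, H, hH⟩ := merid
    (φ := fun y => N.symm (invFunOn f Ω (b.p f σ + M0 y) - b.m σ))
    (N.symm.continuous.comp_continuousOn
      (((emb_inv hΩ hf hi).comp (fha_tp _ M0).continuous.continuousOn him).sub continuousOn_const))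
    (fun y hy z hz e => by
      have e1 := congrArg f (sub_left_inj.1 (N.symm.injective e))
      rw [invFunOn_eq (him y hy), invFunOn_eq (him z hz)] at e1
      exact M0.injective (add_left_cancel e1))
    (by rw [map_zero, add_zero, BdD.p, hi.leftInvOn_invFunOn hmΩ, sub_self, map_zero])
    (fun y hy => (k1 M0 R0 _ (hbx y hy)).2.1) (mul_ne_zero hs0 hκ)
    (fun y hy e => by
      have e1 := congrArg N (FEdge_pj e)
      rw [N.apply_symm_apply, map_smul, hN, smul_smul] at e1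
      have e2 := hsg y hy (1 + N.symm (invFunOn f Ω (b.p f σ + M0 y) - b.m σ) 2 * κ)
        (by rw [add_smul, one_smul, ← e1]; abel)
      refine e2.imp_right fun h => h.trans_eq ?_
      ring)
  obtain ⟨M', hM'⟩ := exists_resc (b.M σ) r0.ne' hε
  have R1 : Resc (b.M σ) M' r := ⟨ε, hε, hM'⟩
  have a0 : ∀ x ∈ dsq (b.p f σ) M', ∀ s ∈ Icc (0 : ℝ) 1,
      b.m σ + N (H (co (b.p f σ) M' x, s)) ∈ ball (b.m σ) η := fun x hx s hs' => by
    rw [mem_ball_iff_norm, add_sub_cancel_left]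
    exact hNs _ (hH.mem (co (b.p f σ) M' x) hx s hs').1
  refine ⟨M', N, fun q => b.m σ + N (H (co (b.p f σ) M' q.1, q.2)),
    ⟨fun x hx => (k1 M' R1 x hx).1, k2 M' R1,
    fun u hu k => Set.disjoint_left.2 fun x hx => (k1 M' R1 x hx).2.2 u hu k,
    fun u hu => ?_, hNs, ⟨?_, fun x hx => ?_, fun x hx => ?_, fun x hx s hs' => ?_⟩,
    fun u hu => FEdge_sgn hi hb R hu (fun x hx => (k1 M' R1 x hx).1) (k2 M' R1 u hu)⟩, a0⟩
  · by_cases e : v = u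
    · exact ⟨κ, hκ, e ▸ hN⟩
    · obtain ⟨a, a0, ha⟩ := k_opp hv hu e hm
      refine ⟨-(κ / a), neg_ne_zero.2 (div_ne_zero hκ a0.ne'), ?_⟩
      rw [hN, ha, smul_smul, neg_mul_neg, div_mul_cancel₀ _ a0.ne']
  · refine continuousOn_const.add (N.continuous.comp_continuousOn (hH.cont.comp ?_ ?_))
    · exact (((fhb_cont _ M').comp continuous_fst).prodMk continuous_snd).continuousOn
    · exact fun q hq => ⟨hq.1, hq.2⟩
  · have e1 : M0 ![co (b.p f σ) M' x 0, ε * co (b.p f σ) M' x 1, co (b.p f σ) M' x 2] =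
        M' (co (b.p f σ) M' x) := by
      rw [hM0, hM']
      simp
    have e2 := hH.zero (co (b.p f σ) M' x) hx
    simp only at e2 ⊢
    rw [e2, e1, add_co, N.apply_symm_apply, add_sub_cancel]
  · have e2 := hH.one (co (b.p f σ) M' x) hx
    simp only at e2 ⊢
    rw [e2, id]
  · obtain ⟨a1, a2⟩ := hH.mem (co (b.p f σ) M' x) hx s hs'
    have a3 := a0 x hx s hs'
    refine ⟨hs a3, fun h => a2 ?_⟩
    obtain ⟨τ, hτ⟩ := FEdge_line hv hm (R.sk _ (hs2 a3) h)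
    rw [add_sub_cancel_left] at hτ
    have a4 : H (co (b.p f σ) M' x, s) = (τ / κ) • (Pi.single 2 1 : Rn 3) :=
      N.injective (by rw [hτ, map_smul, hN, smul_smul, div_mul_cancel₀ _ hκ])
    rw [a4]
    ext i
    fin_cases i <;> simp

variable {Ω : Set (Rn 3)} {K : Kx Ω} {f g : Rn 3 → Rn 3} {b : BdD} {η : Set (Rn 3) → ℝ}
  {M' N : Set (Rn 3) → Rn 3 ≃L[ℝ] Rn 3} {h : Set (Rn 3) → Rn 3 × ℝ → Rn 3} {c U : Set (Rn 3)}

theorem xf_norm (hΩ : IsOpen Ω) (hf : ContinuousOn f Ω) (hi : InjOn f Ω) (hb : Bead K f b)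
    (R : ∀ σ ∈ K.cel 1, RadK K (b.m σ) σ (η σ))
    (E : ∀ σ ∈ K.cel 1, Edg K f b σ (η σ) (M' σ) (N σ) (h σ)) (hU : IsOpen U) (hs : U ⊆ Ω)
    (hB : ∀ v σ, K.Fc c v σ → b.B v ⊆ f '' U)
    (hh : ∀ v σ, K.Fc c v σ → ∀ τ, K.Fl v τ → ∀ x ∈ dsq (b.p f τ) (M' τ),
      ∀ s ∈ Icc (0 : ℝ) 1, h τ (x, s) ∈ U) (v : Rn 3) :
    ∃ (φ : Rn 3 → Rn 3) (H : Rn 3 × ℝ → Rn 3), ∀ σ0, K.Fc c v σ0 → TP φ ∧
      (∀ σ, K.Fl v σ → EqOn φ (fun x => b.m σ + N σ (co (b.p f σ) (M' σ) x))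
        (sq (b.p f σ) (M' σ))) ∧ IsH (hov K f b M' v) (U ∩ (Ω \ K.sk 1)) (invFunOn f Ω) φ H ∧
      ∀ σ, K.Fl v σ → ∀ x ∈ dsq (b.p f σ) (M' σ), ∀ s ∈ Icc (0 : ℝ) 1, H (x, s) = h σ (x, s) := by
  by_cases hv : ∃ σ0, K.Fc c v σ0
  swap
  · exact ⟨id, fun _ => 0, fun σ e => absurd ⟨σ, e⟩ hv⟩
  obtain ⟨σ0, F⟩ := hv
  have hv := F.1.vx
  obtain ⟨φ, H, h1⟩ := norm_holes (hol_at hΩ hi hb R E v) (hb.ball hv).poly'
    (hU.inter (k_open hΩ K))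
    (u := invFunOn f Ω) ((emb_inv hΩ hf hi).mono fun x hx => (hov_sub hb hv hx).1)
    (fun x hx => ⟨by
      obtain ⟨y, hy, rfl⟩ := hB v σ0 F (b.S_sub v hx.1)
      rwa [hi.leftInvOn_invFunOn (hs hy)], (hov_sub hb hv hx).2⟩)
    (a := fun σ x => b.m σ + N σ (co (b.p f σ) (M' σ) x))
    (fun σ _ => (TP.const _).add ((TP.clm (N σ : Rn 3 →L[ℝ] Rn 3)).comp (tp_co _ _)))
    (k := h) (fun σ hσ => ⟨(E σ hσ.cel).htp.cont, (E σ hσ.cel).htp.zero, (E σ hσ.cel).htp.one,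
      fun x hx s k => ⟨hh v σ0 F σ hσ x hx s k, (E σ hσ.cel).htp.mem x hx s k⟩⟩)
  exact ⟨φ, H, fun _ _ => h1⟩

theorem xf_arcs (hΩ : IsOpen Ω) (hf : ContinuousOn f Ω) (hi : InjOn f Ω) (hb : Bead K f b)
    (R : ∀ σ ∈ K.cel 1, RadK K (b.m σ) σ (η σ))
    (E : ∀ σ ∈ K.cel 1, Edg K f b σ (η σ) (M' σ) (N σ) (h σ)) (hc : c ∈ K.cel 2)
    (hU : IsOpen U) (hs : U ⊆ Ω) (hB : ∀ v σ, K.Fc c v σ → b.B v ⊆ f '' U)
    (hh : ∀ v σ, K.Fc c v σ → ∀ τ, K.Fl v τ → ∀ x ∈ dsq (b.p f τ) (M' τ),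
      ∀ s ∈ Icc (0 : ℝ) 1, h τ (x, s) ∈ U) :
    ∃ q z γ ψ H, Lnk K f b M' c q z γ ψ H ∧ ∀ v σ, K.Fc c v σ → ∀ x ∈ γ v σ '' Icc 0 1,
      ∀ s ∈ Icc (0 : ℝ) 1, H v (x, s) ∈ U := by
  obtain ⟨o, ho⟩ := K.cells_ne hc.1
  obtain ⟨l, n, hn, hl⟩ := k_plane hc
  choose φ H hH using xf_norm hΩ hf hi hb R E hU hs hB hh
  have ev := (eventually_all_finite (k_fc_fin hc)).2 fun a (F : K.Fc c a.1 a.2) =>
    (link_q hc ho hl hn F.1.cel F.2 (hb.mk' _ F.1.cel) (R _ F.1.cel) (E _ F.1.cel)).and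
      ((link_small ((hol_at hΩ hi hb R E a.1).poly (hb.ball F.1.vx).poly').1
        (hU.inter (k_open hΩ K)) (hH _ _ F).2.2.1 n).and
      (((eventually_all_finite (k_fl_fin hΩ K a.1)).2 fun τ (hτ : K.Fl a.1 τ) =>
        link_off hc (R _ hτ.cel) (E _ hτ.cel) n).and
      (flk_fin (gen_level (Sph.surf ⟨_, hb.ball F.1.vx⟩) ((TP.clm l).comp (hH _ _ F).1))
        (l o))))
  obtain ⟨t, ht⟩ := ev.exists
  have Q : ∀ σ, ∃ q, ∀ v, K.Fc c v σ → q ∈ dsq (b.p f σ) (M' σ) ∧ ∀ x ∈ dsq (b.p f σ) (M' σ),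
      (b.m σ + N σ (co (b.p f σ) (M' σ) x) - t • n ∈ closure c ↔ x = q) := fun σ => by
    by_cases e : ∃ v, K.Fc c v σ
    · obtain ⟨v, F⟩ := e
      obtain ⟨q, k⟩ := (ht (v, σ) F).1.1
      exact ⟨q, fun _ _ => k⟩
    · exact ⟨0, fun v F => absurd ⟨v, F⟩ e⟩
  choose q hq using Q
  have sb : ∀ σ, dsq (b.p f σ) (M' σ) ⊆ sq (b.p f σ) (M' σ) := fun σ x hx => ⟨hx.1.le, hx.2⟩
  choose z γ hγ using fun v => flk_at hΩ hi hb R E hc ho hl hn (v := v) (φ := φ v) (t := t) (q := q)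
    fun σ F => by
      obtain ⟨k1, k2, -, -⟩ := hH v σ F
      obtain ⟨⟨-, j1⟩, j2, j3, j4⟩ := ht (v, σ) F
      refine ⟨k1, fun x hx => (j2.contr.2 hx).2.2, fun x hx e => ?_, fun τ hτ x hx e => ?_,
        (hq σ v F).1, fun x hx => ?_, j1 _ fun x hx => by rw [k2 σ F.1 hx]⟩
      · by_contra n
        exact j4 ⟨x, hx, e, n⟩
      · rw [k2 τ hτ (sb τ hx)] at e
        exact j3 τ hτ x hx e
      · rw [k2 σ F.1 (sb σ hx)]
        exact (hq σ v F).2 x hx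
  refine ⟨q, z, γ, fun v x => φ v x - t • n, fun v y => H v y - (y.2 * t) • n,
    ⟨fun v σ F => (hγ v σ F).1, fun v σ F => (hγ v σ F).2.1, fun v σ F => (hγ v σ F).2.2.1,
    fun v σ F => (hγ v σ F).2.2.2.1, fun v σ F => (hq σ v F).1,
    fun v σ F s hs => ((hγ v σ F).2.2.2.2.1 s hs).1,
    fun v σ σ' F F' => (hγ v σ F).2.2.2.2.2 σ' F', fun v σ F => ?_,
    fun v σ F s hs => ((hγ v σ F).2.2.2.2.1 s hs).2, fun v w σ F F' s hs => ?_⟩, ?_⟩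
  · refine (ht (v, σ) F).2.1.mono ?_ inter_subset_right
    rintro _ ⟨s, hs, rfl⟩
    exact ((hγ v σ F).2.2.2.2.1 s hs).1
  · rw [(hH v σ F).2.2.2 σ F.1 _ (hq σ v F).1 s hs,
      (hH w σ F').2.2.2 σ F'.1 _ (hq σ v F).1 s hs]
  · rintro v σ F _ ⟨a, ha, rfl⟩ s hs
    exact ((ht (v, σ) F).2.1.mem _ ((hγ v σ F).2.2.2.2.1 a ha).1 s hs).1

theorem xf_htp (hf : ContinuousOn f Ω) (hb : Bead K f b) (hc : c ∈ K.cel 2)
    {q : Set (Rn 3) → Rn 3} {z : Rn 3 → Rn 3} {γ : Rn 3 → Set (Rn 3) → ℝ → Rn 3}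
    {ψ : Rn 3 → Rn 3 → Rn 3} {H : Rn 3 → Rn 3 × ℝ → Rn 3} (L : Lnk K f b M' c q z γ ψ H)
    (LU : ∀ v σ, K.Fc c v σ → ∀ x ∈ γ v σ '' Icc 0 1, ∀ s ∈ Icc (0 : ℝ) 1, H v (x, s) ∈ U)
    (cU : c ⊆ U)
    {G : Rn 3 → Rn 3} (hG : Continuous G) {I : Set (Rn 3)} {P : Rn 3 → Set (Rn 3) → ℝ → Rn 3}
    (hP : ∀ v σ, Continuous (P v σ))
    (hI : ∀ x, x ∈ I ↔ ∃ v σ, K.Fc c v σ ∧ ∃ s ∈ Icc (0 : ℝ) 1, x = P v σ s) (hs : I ⊆ c)
    (val : ∀ v σ, K.Fc c v σ → ∀ s ∈ Icc (0 : ℝ) 1, G (P v σ s) = γ v σ s)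
    (ov : ∀ v σ w τ, K.Fc c v σ → K.Fc c w τ → ∀ s ∈ Icc (0 : ℝ) 1, ∀ t ∈ Icc (0 : ℝ) 1,
      P v σ s = P w τ t → v = w ∨ (σ = τ ∧ s = 0 ∧ t = 0)) :
    Htp I (f '' (U ∩ (Ω \ K.sk 1))) f G := by
  have ag : ∀ k ∈ {a : Rn 3 × Set (Rn 3) | K.Fc c a.1 a.2},
      ∀ j ∈ {a : Rn 3 × Set (Rn 3) | K.Fc c a.1 a.2},
      ∀ x ∈ P k.1 k.2 '' Icc 0 1 ∩ P j.1 j.2 '' Icc 0 1, ∀ s ∈ Icc (0 : ℝ) 1,
        H k.1 (G x, s) = H j.1 (G x, s) := by
    rintro k hk j hj x ⟨⟨a, ha, rfl⟩, a', ha', e⟩ s hs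
    rcases ov _ _ _ _ hk hj a ha a' ha' e.symm with e1 | ⟨e1, rfl, -⟩
    · rw [e1]
    · rw [val _ _ hk _ ha, L.g0 _ _ hk]
      exact L.same _ _ _ hk (e1 ▸ hj) s hs
  have mp : ∀ v σ, K.Fc c v σ → MapsTo G (P v σ '' Icc 0 1) (γ v σ '' Icc 0 1) := by
    rintro v σ F _ ⟨a, ha, rfl⟩
    exact ⟨a, ha, (val _ _ F a ha).symm⟩
  have W : ∀ x, ∃ y, ∀ v σ, K.Fc c v σ → x ∈ P v σ '' Icc 0 1 → y = H v (G x, 1) := fun x => by
    by_cases e : ∃ v σ, K.Fc c v σ ∧ x ∈ P v σ '' Icc 0 1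
    · obtain ⟨v, σ, F, hx⟩ := e
      exact ⟨_, fun w τ F' hx' => ag (v, σ) F (w, τ) F' x ⟨hx, hx'⟩ 1 (by simp)⟩
    · exact ⟨0, fun v σ F hx => absurd ⟨v, σ, F, hx⟩ e⟩
  choose w hw using W
  obtain ⟨Θ, hΘ, -⟩ := htp_glue (k_fc_fin hc) (X := fun k => P k.1 k.2 '' Icc 0 1)
    (fun k _ => (isCompact_Icc.image (hP _ _)).isClosed) (O := U ∩ (Ω \ K.sk 1))
    (u := fun x => invFunOn f Ω (G x)) (w := w) (H := fun k y => H k.1 (G y.1, y.2))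
    (fun k hk => ⟨(L.htp _ _ hk).cont.comp
        ((hG.comp continuous_fst).prodMk continuous_snd).continuousOn
        fun y hy => ⟨mp _ _ hk hy.1, hy.2⟩,
      fun x hx => (L.htp _ _ hk).zero _ (mp _ _ hk hx), fun x hx => (hw x _ _ hk hx).symm,
      fun x hx s k => ⟨LU _ _ hk _ (mp _ _ hk hx) s k, (L.htp _ _ hk).mem _ (mp _ _ hk hx) s k⟩⟩) ag
  have h1 : Htp I (U ∩ (Ω \ K.sk 1)) (fun x => invFunOn f Ω (G x)) w :=
    ⟨Θ, hΘ.mono (fun x hx => by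
      obtain ⟨v, σ, F, s, h1, rfl⟩ := (hI x).1 hx
      exact mem_biUnion (x := (v, σ)) F ⟨s, h1, rfl⟩) Subset.rfl⟩
  have h2 : Htp I (U ∩ (Ω \ K.sk 1)) w fun x => x := by
    obtain ⟨Θ', hΘ'⟩ := h1
    refine Htp.line hΘ'.contr.1 continuousOn_id fun x hx s h3 =>
      subset_inter cU (k_face_sub hc) ?_
    refine (K.cells_cvx hc.1).add_smul_sub_mem ?_ (hs hx) h3
    obtain ⟨v, σ, F, a, ha, rfl⟩ := (hI x).1 hx
    rw [hw _ v σ F ⟨a, ha, rfl⟩, (L.htp _ _ F).one _ (mp _ _ F ⟨a, ha, rfl⟩), val _ _ F a ha]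
    exact L.into _ _ F a ha
  refine (((h1.trans h2).post (hf.mono (inter_subset_right.trans diff_subset)) (mapsTo_image f _)).congr (fun x hx => ?_)
    fun _ _ => rfl).symm
  obtain ⟨v, σ, F, a, ha, rfl⟩ := (hI x).1 hx
  refine (invFunOn_eq ?_).symm
  rw [val _ _ F a ha]
  exact (hov_sub hb F.1.vx (L.mem _ _ F a ha)).1

theorem xf_push (hΩ : IsOpen Ω) (hf : ContinuousOn f Ω) (hi : InjOn f Ω) (hb : Bead K f b)
    (hg : ∀ v σ, K.Fl v σ → g '' segment ℝ v (b.m σ) = b.Leg f v σ)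
    (R : ∀ σ ∈ K.cel 1, RadK K (b.m σ) σ (η σ))
    (E : ∀ σ ∈ K.cel 1, Edg K f b σ (η σ) (M' σ) (N σ) (h σ)) {Y : Set (Rn 3)}
    (hY : IsCompact Y) (h2 : Y ⊆ f '' (Ω \ K.sk 1)) :
    ∃ r : Rn 3 → Rn 3, Continuous r ∧ (∀ x ∈ Y, r x ∈ f '' Ω \ g '' K.sk 1) ∧
      (∀ x ∈ Y, ∀ v, K.Vx v → x ∈ b.S v → r x = x) ∧
      ∀ x ∈ Y, r x = x ∨ ∃ v, K.Vx v ∧ x ∈ b.B v ∧ r x ∈ b.B v := by
  have fin := hb.lf Y hY (h2.trans (image_mono sdiff_subset))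
  generalize hT : {v | v ∈ Ω ∧ K.cell v = {v} ∧ (b.B v ∩ Y).Nonempty} = T at fin
  have vx : ∀ v ∈ T, K.Vx v := fun v k => by
    rw [← hT] at k
    exact ⟨k.1, k.2.1⟩
  have mT : ∀ v, K.Vx v → ∀ x ∈ Y, x ∈ b.B v → v ∈ T := fun v k x k1 k2 =>
    hT ▸ ⟨k.1, k.2, x, k2, k1⟩
  have cl : ∀ v ∈ T, IsCompact (Y ∩ b.B v) := fun v k =>
    hY.inter_right (hb.ball (vx v k)).poly.1.isClosed
  choose! r r1 r2 r3 using fun v (k : v ∈ T) => fpush_one hΩ hf hi hb R E (vx v k) (cl v k)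
    inter_subset_right (inter_subset_left.trans h2)
  have bd : ∀ v ∈ T, ∀ x ∈ b.B v, x ∉ ⋃ v ∈ T, interior (b.B v) → x ∈ b.S v :=
    fun v k x k1 k2 => by_contra fun e =>
      k2 (mem_biUnion k ((hb.ball (vx v k)).interior_eq ▸ ⟨k1, e⟩))
  obtain ⟨G, hG, e⟩ := glue_on (S := insert none (some '' T)) ((fin.image _).insert _)
    (X := fun o => o.elim (Y \ ⋃ v ∈ T, interior (b.B v)) fun v => Y ∩ b.B v)
    (u := fun o => o.elim id r) (by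
      rintro _ (rfl | ⟨v, k, rfl⟩)
      exacts [hY.isClosed.sdiff (isOpen_biUnion fun _ _ => isOpen_interior), (cl v k).isClosed]) (by
      rintro _ (rfl | ⟨v, k, rfl⟩)
      exacts [continuousOn_id, r1 v k]) (by
      rintro _ (rfl | ⟨v, k, rfl⟩) _ (rfl | ⟨w, k', rfl⟩) x hx
      · rfl
      · exact (r3 w k' x ⟨hx.2, bd w k' x hx.2.2 hx.1.2⟩).symm
      · exact r3 v k x ⟨hx.1, bd v k x hx.1.2 hx.2.2⟩
      · rcases eq_or_ne v w with rfl | n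
        · rfl
        · exact (r3 v k x ⟨hx.1, hb.meetS (vx v k) (vx w k') n hx.1.2 hx.2.2⟩).trans
            (r3 w k' x ⟨hx.2, hb.meetS (vx w k') (vx v k) n.symm hx.2.2 hx.1.2⟩).symm)
  have e1 : ∀ v ∈ T, ∀ x ∈ Y ∩ b.B v, G x = r v x := fun v k x hx =>
    e (some v) (.inr ⟨v, k, rfl⟩) hx
  refine ⟨G, hG, fun x hx => ?_, fun x hx v k k1 => ?_, fun x hx => ?_⟩
  · by_cases c : x ∈ ⋃ v ∈ T, interior (b.B v)
    · obtain ⟨v, k, c⟩ := mem_iUnion₂.1 c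
      have m : x ∈ Y ∩ b.B v := ⟨hx, interior_subset c⟩
      obtain ⟨k1, k2⟩ := r2 v k x m
      rw [e1 v k x m]
      refine ⟨(hb.at (vx v k)).sub (b.S_sub v k1), fun n => ?_⟩
      obtain ⟨σ, k3, k4⟩ := hb.leg_at hΩ hg (vx v k) (b.S_sub v k1) n
      exact k2 σ k3 ((hb.leg k3 k4).2 k1)
    · rw [show G x = x from e none (.inl rfl) ⟨hx, c⟩]
      refine ⟨image_mono sdiff_subset (h2 hx), fun n => ?_⟩
      obtain ⟨v, σ, k3, k4⟩ := (hb.legs hΩ hg).1 n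
      obtain ⟨k5, k6⟩ := hb.leg k3 k4
      obtain ⟨y, hy, k7⟩ := h2 hx
      have k8 := k_half_sk k3 (hb.mk' σ k3.cel) (right_mem_segment _ _ _)
      exact hy.2 (hi hy.1 k8.1 (k7.trans (k6 (bd v (mT v k3.vx x hx k5) x k5 c))) ▸ k8)
  · have m : x ∈ Y ∩ b.B v := ⟨hx, b.S_sub v k1⟩
    have k2 := mT v k x hx m.2
    exact (e1 v k2 x m).trans (r3 v k2 x ⟨m, k1⟩)
  · by_cases c : x ∈ ⋃ v ∈ T, interior (b.B v)
    · obtain ⟨v, k, c⟩ := mem_iUnion₂.1 c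
      have m : x ∈ Y ∩ b.B v := ⟨hx, interior_subset c⟩
      refine .inr ⟨v, vx v k, m.2, ?_⟩
      rw [e1 v k x m]
      exact b.S_sub v (r2 v k x m).1
    · exact .inl (e none (.inl rfl) ⟨hx, c⟩)

end BEp
end
end

-- merged part: Pool.Agent.Work.MP_f0515e_an.D3.XFace
section
/-! Localised spanning discs: the disc of a face stays near the image of the face. -/

open Set Metric Filter Topology Function BEv
open scoped NNReal

noncomputable section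
namespace BEp

theorem xf_collar {Ω : Set (Rn 3)} {K : Kx Ω} {f g : Rn 3 → Rn 3} {b : BdD} (hΩ : IsOpen Ω)
    (hi : InjOn f Ω) (hb : Bead K f b)
    (hg : ∀ v σ, K.Fl v σ → g '' segment ℝ v (b.m σ) = b.Leg f v σ) {η : Set (Rn 3) → ℝ}
    {M' N : Set (Rn 3) → Rn 3 ≃L[ℝ] Rn 3} {h : Set (Rn 3) → Rn 3 × ℝ → Rn 3}
    (R : ∀ σ ∈ K.cel 1, RadK K (b.m σ) σ (η σ))
    (E : ∀ σ ∈ K.cel 1, Edg K f b σ (η σ) (M' σ) (N σ) (h σ)) {c : Set (Rn 3)} (hc : c ∈ K.cel 2)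
    {o : Rn 3} (ho : o ∈ c) {q : Set (Rn 3) → Rn 3} {z : Rn 3 → Rn 3}
    {γ : Rn 3 → Set (Rn 3) → ℝ → Rn 3} {ψ : Rn 3 → Rn 3 → Rn 3} {H : Rn 3 → Rn 3 × ℝ → Rn 3}
    (L : Lnk K f b M' c q z γ ψ H) :
    ∃ (G : Rn 3 → Rn 3) (C : Set (Rn 3)), TP G ∧ IsClosed C ∧ C ∪ inn c o = closure c ∧
      (∀ x ∈ C, x ∉ inn c o → ∀ y ∈ C, G y = G x → y = x) ∧
      (∀ x ∈ C, (∃ v σ, K.Fc c v σ ∧ G x ∈ b.B v) ∧ (G x ∈ g '' K.sk 1 → x ∈ rb c)) ∧ G '' rb c = g '' rb c ∧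
      (∀ x, x ∈ C ∩ inn c o ↔
        ∃ v σ, K.Fc c v σ ∧ ∃ s ∈ Icc (0 : ℝ) 1, x = tch v (b.m σ) o ![(1 - s) / 2, 1 / 2]) ∧
      (∀ v σ, K.Fc c v σ → ∀ s ∈ Icc (0 : ℝ) 1,
        G (tch v (b.m σ) o ![(1 - s) / 2, 1 / 2]) = γ v σ s) ∧
      ∀ v σ w τ, K.Fc c v σ → K.Fc c w τ → ∀ s ∈ Icc (0 : ℝ) 1, ∀ t ∈ Icc (0 : ℝ) 1,
        tch v (b.m σ) o ![(1 - s) / 2, 1 / 2] = tch w (b.m τ) o ![(1 - t) / 2, 1 / 2] →
          v = w ∨ (σ = τ ∧ s = 0 ∧ t = 0) := by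
  have D : CnD K f b η M' N h c q z γ ψ H := ⟨hi, hb, R, E, L⟩
  have hμ := hb.mk'
  have hS := k_fc_fin hc
  choose! k k1 k2 using fun (i : Rn 3 × Set (Rn 3)) (F : K.Fc c i.1 i.2) =>
    tp_linv poly_trap (tp_tch i.1 (b.m i.2) o) fun _ a _ a' e => (tch_eq hc ho hμ F F a a' e).1
  obtain ⟨G, tp, eG⟩ := tp_glue_fin hS (fun i _ => poly_trap.image (tp_tch i.1 (b.m i.2) o))
    (fun i F => (tp_cfl (hb.at F.1.vx).lh (b.p f i.2) (q i.2) (L.tp _ _ F)).comp (k1 i F)) (by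
      rintro i F j F' _ ⟨⟨y, hy, rfl⟩, y', hy', e⟩
      obtain ⟨rfl, l⟩ := tch_eq hc ho hμ F F' hy hy' e.symm
      exact (congrArg _ (k2 i F y hy)).trans ((D.agree F F' hy l).trans
        (congrArg _ (e ▸ k2 j F' y hy).symm)))
  replace eG : ∀ v σ, K.Fc c v σ → ∀ y ∈ trap,
      G (tch v (b.m σ) o y) = cfl (b.Φ v) (b.p f σ) (q σ) (γ v σ) y := fun v σ F y hy =>
    (eG (v, σ) F ⟨y, hy, rfl⟩).trans (congrArg _ (k2 (v, σ) F y hy))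
  have m : ∀ s ∈ Icc (0 : ℝ) 1, ![(1 - s) / 2, 1 / 2] ∈ trap ∧ r0g ![(1 - s) / 2, 1 / 2] = 1 :=
    fun s a => (mem_trap (y := ![(1 - s) / 2, 1 / 2]) (div_nonneg (sub_nonneg.2 a.2) zero_le_two)
      one_half_pos.le (show (1 - s) / 2 + 1 / 2 ≤ 1 by linarith [a.1]) le_rfl).imp_right
        fun l => l.2 (.inr rfl)
  refine ⟨G, {x | ∃ v σ, K.Fc c v σ ∧ ∃ y ∈ trap, x = tch v (b.m σ) o y}, tp, ?_,
    Subset.antisymm (union_subset ?_ ((inn_sub hc ho).2.trans subset_closure))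
      fun x a => (tch_cover hc ho hμ a).symm, ?_, ?_, Subset.antisymm ?_ ?_,
    fun x => ⟨?_, ?_⟩, fun v σ F s a => ?_, fun v σ w τ F F' s a t a' e => ?_⟩
  · have e : {x | ∃ v σ, K.Fc c v σ ∧ ∃ y ∈ trap, x = tch v (b.m σ) o y} =
        ⋃ i ∈ {q : Rn 3 × Set (Rn 3) | K.Fc c q.1 q.2}, tch i.1 (b.m i.2) o '' trap := by
      ext x
      simp only [mem_iUnion₂]
      exact ⟨fun ⟨v, σ, F, y, hy, e⟩ => ⟨(v, σ), F, y, hy, e.symm⟩,
        fun ⟨i, F, y, hy, e⟩ => ⟨i.1, i.2, F, y, hy, e.symm⟩⟩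
    rw [e]
    exact hS.isClosed_biUnion fun i _ => (poly_trap.image (tp_tch i.1 (b.m i.2) o)).1.isClosed
  · rintro _ ⟨v, σ, F, y, hy, rfl⟩
    exact tch_mem hc ho hμ F hy
  · rintro _ ⟨v, σ, F, y, hy, rfl⟩ n _ ⟨w, τ, F', y', hy', rfl⟩ e
    rw [eG v σ F y hy, eG w τ F' y' hy'] at e
    exact (D.inj F F' hy hy' ((trap_le hy).2.2.2.lt_of_ne fun l =>
      n ((tch_inn hc ho hμ F hy).2 l)) e.symm o).symm
  · rintro _ ⟨v, σ, F, y, hy, rfl⟩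
    rw [eG v σ F y hy]
    refine ⟨⟨v, σ, F, (D.mem F hy).1⟩, fun l => ?_⟩
    obtain ⟨τ, F', l⟩ := hb.leg_at hΩ hg F.1.vx (D.mem F hy).1 l
    exact (tch_rb hc hμ o).2 ⟨v, σ, F, y, hy, D.leg F F' hy l, rfl⟩
  · rintro _ ⟨x, a, rfl⟩
    obtain ⟨v, σ, F, y, hy, l, rfl⟩ := (tch_rb hc hμ o).1 a
    rw [eG v σ F y hy]
    exact image_mono (fun _ a => (k_rb hc hμ).2 ⟨v, σ, F, a⟩)
      ((hg v σ F.1).ge ((D.axis F).le ⟨y, ⟨hy, l⟩, rfl⟩))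
  · rintro _ ⟨x, a, rfl⟩
    obtain ⟨v, σ, F, a⟩ := (k_rb hc hμ).1 a
    obtain ⟨y, hy, e⟩ := (D.axis F).ge ((hg v σ F.1).le ⟨x, a, rfl⟩)
    exact ⟨_, (tch_rb hc hμ o).2 ⟨v, σ, F, y, hy.1, hy.2, rfl⟩, (eG v σ F y hy.1).trans e⟩
  · rintro ⟨⟨v, σ, F, y, hy, rfl⟩, a⟩
    have l := (tch_inn hc ho hμ F hy).1 a
    obtain ⟨l1, -, l2, -⟩ := trap_le hy
    refine ⟨v, σ, F, 1 - 2 * y 0, ⟨by linarith, by linarith⟩, congrArg _ (funext fun i => ?_)⟩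
    fin_cases i
    exacts [show y 0 = (1 - (1 - 2 * y 0)) / 2 by ring, l]
  · rintro ⟨v, σ, F, s, a, rfl⟩
    exact ⟨⟨v, σ, F, _, (m s a).1, rfl⟩, (tch_inn hc ho hμ F (m s a).1).2 rfl⟩
  · rw [eG v σ F _ (m s a).1, D.top F (m s a).2]
    rcases far_cases (m s a).1 (m s a).2 (b.p f σ) (L.g0 v σ F) with l | l
    · exact (lt_irrefl _ l.2.1).elim
    · exact l.2.2.trans (congrArg _ (show 1 - 2 * ((1 - s) / 2) = s by ring))
  · obtain ⟨l1, l2⟩ := tch_eq hc ho hμ F F' (m s a).1 (m t a').1 e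
    have l3 : (1 - s) / 2 = (1 - t) / 2 := congrFun l1 0
    refine l2.imp (·.1) fun l => ?_
    have l4 : (1 - s) / 2 + 1 / 2 = 1 := l.2
    exact ⟨l.1, by linarith, by linarith⟩

theorem facesX {Ω : Set (Rn 3)} {K : Kx Ω} {f g : Rn 3 → Rn 3} {b : BdD} (hΩ : IsOpen Ω)
    (hf : ContinuousOn f Ω) (hi : InjOn f Ω) (hb : Bead K f b)
    (hg : ∀ v σ, K.Fl v σ → g '' segment ℝ v (b.m σ) = b.Leg f v σ) {c : Set (Rn 3)}
    (hc : c ∈ K.cel 2) {W0 W1 : Set (Rn 3)} (o0 : IsOpen W0) (o1 : IsOpen W1) (s01 : W0 ⊆ W1)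
    (hc0 : f '' c ⊆ W0) (hB0 : ∀ v, K.Vx v → v ∈ closure c → b.B v ⊆ W0)
    (hB1 : ∀ w, K.Vx w → (b.B w ∩ W0).Nonempty → b.B w ⊆ W1) :
    ∃ D, PDsc D (g '' rb c) ∧ D ⊆ f '' Ω ∩ W1 ∧ D ∩ g '' K.sk 1 ⊆ g '' rb c := by
  obtain ⟨V, hV⟩ : ∃ V : Set (Rn 3), V = Ω ∩ f ⁻¹' W0 := ⟨_, rfl⟩
  have oV : IsOpen V := hV ▸ hf.isOpen_inter_preimage hΩ o0
  have sV : V ⊆ Ω := hV ▸ inter_subset_left
  have fV : f '' V ⊆ W0 := by
    rintro _ ⟨x, hx, rfl⟩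
    exact (hV ▸ hx : x ∈ Ω ∩ f ⁻¹' W0).2
  have hB : ∀ v σ, K.Fc c v σ → b.B v ⊆ f '' V := fun v σ F x hx => by
    obtain ⟨y, hy, rfl⟩ := (hb.at F.1.vx).sub hx
    exact ⟨y, hV ▸ ⟨hy, hB0 v F.1.vx (fkb_cl F) hx⟩, rfl⟩
  have R0 : ∀ σ ∈ K.cel 1, ∃ η, RadK K (b.m σ) σ η ∧ (b.m σ ∈ V → ball (b.m σ) η ⊆ V) :=
    fun σ hσ => by
      obtain ⟨η, k⟩ := k_rad hΩ hσ (hb.mk' σ hσ)
      by_cases e : b.m σ ∈ V
      · obtain ⟨r, r0, hr⟩ := Metric.isOpen_iff.1 oV _ e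
        exact ⟨min η r, xf_rad k (lt_min k.pos r0) (min_le_left _ _),
          fun _ => (ball_subset_ball (min_le_right _ _)).trans hr⟩
      · exact ⟨η, k, fun e' => absurd e' e⟩
  choose! η R RV using R0
  have E0 : ∀ σ, ∃ (M' N : Rn 3 ≃L[ℝ] Rn 3) (h : Rn 3 × ℝ → Rn 3), σ ∈ K.cel 1 →
      Edg K f b σ (η σ) M' N h ∧ ∀ x ∈ dsq (b.p f σ) M', ∀ s ∈ Icc (0 : ℝ) 1,
        h (x, s) ∈ ball (b.m σ) (η σ) := fun σ => by
    by_cases hσ : σ ∈ K.cel 1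
    · obtain ⟨M', N, h, k⟩ := xf_edge hΩ hf hi hb hσ (R σ hσ)
      exact ⟨M', N, h, fun _ => k⟩
    · exact ⟨.refl _ _, .refl _ _, fun _ => 0, fun e => absurd e hσ⟩
  choose M' N h E1 using E0
  have E := fun σ hσ => (E1 σ hσ).1
  have cO := k_face_sub hc
  have cV : c ⊆ V := fun x hx => hV ▸ ⟨(cO hx).1, hc0 (mem_image_of_mem f hx)⟩
  obtain ⟨q, z, γ, ψ, H, L, LU⟩ := xf_arcs hΩ hf hi hb R E hc oV sV hB
    fun v σ F τ k x hx s hs => RV τ k.cel (by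
      obtain ⟨y, hy, e⟩ := hB v σ F (b.S_sub v (hb.p_mem k))
      rwa [← hi (sV hy) (Kx.cells_sub k.cel.1 (hb.mk' τ k.cel)) e]) ((E1 τ k.cel).2 x hx s hs)
  obtain ⟨o, ho⟩ := K.cells_ne hc.1
  obtain ⟨G, C, tp, cl, cov, inj, sk, bd, hI, val, ov⟩ := xf_collar hΩ hi hb hg R E hc ho L
  have sk1 : ∀ x ∈ C, G x ∈ f '' Ω ∩ W1 := fun x hx => by
    obtain ⟨v, σ, F, k⟩ := (sk x hx).1
    exact ⟨(hb.at F.1.vx).sub k, s01 (hB0 v F.1.vx (fkb_cl F) k)⟩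
  obtain ⟨ic, isub⟩ := inn_sub hc ho
  have hH : Htp (C ∩ inn c o) (f '' (V ∩ (Ω \ K.sk 1))) f G :=
    xf_htp hf hb hc L LU cV tp.continuous
      (P := fun v σ s => tch v (b.m σ) o ![(1 - s) / 2, 1 / 2])
      (fun v σ => (tp_tch _ _ _).continuous.comp (by fun_prop)) hI
      (inter_subset_right.trans isub) val ov
  have iO := isub.trans cO
  obtain ⟨u, cu, eu, mu⟩ := hH.hep ic (cl.inter ic.isClosed) inter_subset_right
    (emb_open hf hi (oV.inter (k_open hΩ K)) (inter_subset_left.trans sV))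
    (hf.mono (iO.trans sdiff_subset)) fun x hx => mem_image_of_mem f ⟨cV (isub hx), iO hx⟩
  obtain ⟨r, cr, r1, r2, r3⟩ := xf_push hΩ hf hi hb hg R E (ic.image cu)
    (mu.image_subset.trans (image_mono inter_subset_right))
  have r4 : ∀ x ∈ inn c o, r (u x) ∈ W1 := fun x hx => by
    have k : u x ∈ W0 := fV (image_mono inter_subset_left (mu hx))
    rcases r3 _ (mem_image_of_mem u hx) with e | ⟨v, hv, k1, k2⟩
    · rw [e]
      exact s01 k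
    · exact hB1 v hv ⟨_, k1, k⟩ k2
  obtain ⟨U, cU, e1, e2⟩ := glue_two cl ic.isClosed tp.continuous.continuousOn
    (cr.comp cu).continuousOn fun x hx => by
      obtain ⟨v, σ, F, s, hs, e⟩ := (hI x).1 hx
      refine (eu hx).symm.trans (r2 _ (mem_image_of_mem u hx.2) v F.1.vx ?_).symm
      rw [eu hx, e, val v σ F s hs]
      exact (L.mem v σ F s hs).1
  obtain ⟨κ, kt, ki, k1, k2⟩ := K.pdsc hc
  have kc : ∀ x, ‖x‖ ≤ 1 → κ x ∈ C ∨ κ x ∈ inn c o := fun x hx => by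
    have : κ x ∈ C ∪ inn c o := by
      rw [cov, ← k1]
      exact mem_image_of_mem κ (mem_closedBall_zero_iff.2 hx)
    exact this
  have rC : rb c ⊆ C := fun x hx => (show x ∈ C ∪ inn c o from cov ▸ hx.1).resolve_right
    fun e => hx.2 (isub e)
  have rs : g '' rb c ⊆ g '' K.sk 1 := image_mono fun x hx =>
    by_contra fun n => hx.2 ((k_cl_sk hc hx.1).2 n)
  obtain ⟨ρ, ρ0, ρ1, hρ⟩ := thin_ring
    (A := κ ⁻¹' inn c o ∪ (fun x => G (κ x)) ⁻¹' (r '' (u '' inn c o)))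
    ((ic.isClosed.preimage kt.continuous).union
      (((ic.image cu).image cr).isClosed.preimage (tp.comp kt).continuous))
    (disjoint_right.2 fun x hx => by
      have hx' : κ x ∈ rb c := k2.subset (mem_image_of_mem κ hx)
      rintro (e | ⟨y, hy, e⟩)
      · exact hx'.2 (isub e)
      · exact (r1 y hy).2 (e ▸ rs (bd ▸ mem_image_of_mem G hx')))
  have eb : (fun x => U (κ x)) '' sphere 0 1 = g '' rb c := by
    rw [← image_image U κ, k2, ← bd]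
    exact (e1.mono rC).image_eq
  obtain ⟨D, d1, d2⟩ := dehn_thin (u := fun x => U (κ x)) (cU.comp kt.continuous) (tp.comp kt) ρ0 ρ1
    (fun x h1 h2 => e1 ((kc x h2).resolve_right fun e => hρ x h1 h2 (.inl e)))
    (fun x y h1 h2 h3 e => by
      have n1 : κ x ∉ inn c o := fun e => hρ x h1 h2 (.inl e)
      have xC := (kc x h2).resolve_right n1
      rw [e1 xC] at e
      rcases kc y h3 with hy | hy
      · exact ki (mem_closedBall_zero_iff.2 h3) (mem_closedBall_zero_iff.2 h2)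
          (inj _ xC n1 _ hy ((e1 hy).symm.trans e))
      · exact absurd (.inr ⟨_, mem_image_of_mem u hy, (e2 hy).symm.trans e⟩) (hρ x h1 h2))
    ((hb.opn hΩ hf hi hg).inter o1) fun x hx => by
      rcases kc x hx.le with hy | hy
      · rw [e1 hy]
        refine ⟨⟨(sk1 _ hy).1, fun e => ?_⟩, (sk1 _ hy).2⟩
        obtain ⟨y, h1, h2⟩ := k2.superset ((sk _ hy).2 e)
        rw [ki (sphere_subset_closedBall h1) (mem_closedBall_zero_iff.2 hx.le) h2,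
          mem_sphere_zero_iff_norm] at h1
        exact hx.ne h1
      · rw [e2 hy]
        exact ⟨r1 _ (mem_image_of_mem u hy), r4 _ hy⟩
  rw [eb] at d1 d2
  refine ⟨D, d1, fun x hx => (d2 hx).elim (fun e => ⟨e.1.1, e.2⟩) fun e => ?_,
    fun x hx => (d2 hx.1).resolve_left fun e => e.1.2 hx.2⟩
  obtain ⟨y, hy, rfl⟩ := bd.superset e
  exact sk1 y (rC hy)

end BEp
end
end
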