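import Pool.Agent.Work.MP_f0515e_an.D3.XPre

/-! EXPORT: the topological theorem in dimension three with a uniform bound on all of the domain. -/

open Set Metric Filter Topology Function BEv
open scoped NNReal ENNReal

noncomputable section
namespace BEp

theorem topGX {Ω : Set (Rn 3)} {K : Kx Ω} {f : Rn 3 → Rn 3} {ι : Type} [Finite ι] {d : TopD ι}
    {s : Rn 3 → ℝ} (h : TopIn K f d) (hw : Scl (f '' Ω) s (10 ^ 12)) (hs : Sml K f d s) :
    ∃ G, TopOut K f d 30 G ∧ G '' Ω ⊆ f '' Ω ∧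
      ∀ x ∈ Ω, ‖G x - f x‖ ≤ 5 * 10 ^ 11 * s (f x) := by
  obtain ⟨D, g2, b, g0, hb, hX, h2, h3⟩ := xg_gb h
  obtain ⟨g1, h1⟩ := hb.g1_exists
  choose! o ho using fun c (hc : c ∈ K.cel 2) => Kx.cells_ne hc.1
  have hl : (200 : ℝ) ≤ 10 ^ 12 := by norm_num
  obtain ⟨Dd, hp, hD⟩ := xp_pre hb hX h2 h3 hw hl hs.two h1 ho
  obtain ⟨G, k1, k2, k3, k4, k5, k6⟩ := fill3S (s := fun y => 100 * s y) hp h.cont h.inj hb.im2
    ((hw.smul (by norm_num)).mono (by norm_num)) (fun P hP x hx x' hx' => by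
      obtain ⟨p, hp⟩ := Kx.cells_ne hP.1
      have pΩ := Kx.cells_sub hP.1 hp
      have a1 := hs.cell p pΩ x ((Kx.cell_eq hP.1 hp).symm ▸ hx)
      have a2 := hs.cell p pΩ x' ((Kx.cell_eq hP.1 hp).symm ▸ hx')
      have a3 := hw.pos _ (mem_image_of_mem f pΩ)
      have a4 := (hw.two hl (mem_image_of_mem f pΩ) (mem_image_of_mem f (Kx.cl_sub hP.1 hx))
        (by linarith)).2
      have a5 := norm_sub_le_norm_sub_add_norm_sub (f x) (f p) (f x')
      rw [norm_sub_rev (f p)] at a5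
      linarith) fun c hc => ⟨o c, subset_closure (ho c hc), hD c hc⟩
  refine ⟨G, ⟨k1, k2, fun i x hx => ?_, fun c hc t ht => ?_, fun p q he n1 n2 y hy y' hy' => ?_,
    fun y hy => ?_⟩, hb.im2 ▸ k3, fun x hx => (k6 x hx).trans_eq (by ring)⟩
  · have hxΩ : x ∈ Ω := h.QS i (Box.Q_mono h.s0 (by norm_num) hx)
    rw [k5 _ ⟨K.cell_mem hxΩ, i, gf2_cl h hx⟩ (K.cell_mem hxΩ) (subset_closure (K.mem x hxΩ))]
    exact h1.rig i hx
  · rw [k4 ((h.cedge c hc).1.seg_sub (seg_image c.a c.b ▸ mem_image_of_mem _ ht))]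
    exact h1.chord c hc t ht
  · rw [k4 (he.seg_sub hy), k4 (he.seg_sub hy')]
    exact h1.speed p q he ⟨⟨he.2, he.dm⟩, fun i k => n2 i (he.cl ▸ k), n1⟩ y hy y' hy'
  · rw [k4 hy]
    refine hb.sup0 hy _ ?_
    rw [← h1.cl _ (K.cell_mem hy.1) hy.2]
    exact mem_image_of_mem _ (subset_closure (K.mem y hy.1))

end BEp
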